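import Pool.Agent.Lib.MP_79abb3_an.W.SpG1
import Pool.Agent.Lib.MP_79abb3_an.W.P0b4
import Pool.Agent.Lib.MP_79abb3_an.SC.LaSG

section

/-!
Theorem W (MP_79abb3_an), Phase 0: the linear operator `v ↦ P(L·∇v + v·∇L)` of a smooth background field `L`.
-/

set_option autoImplicit false
set_option linter.unusedSectionVars false

open MeasureTheory Set Filter Topology Function
open scoped ENNReal RealInnerProductSpace

namespace Pool.Agent.Lib.MP_79abb3_an.W

variable {d : ℕ} {D : Set (En d)}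

private theorem p0d_mem {F : Type} [NormedAddCommGroup F] {f : En d → F} (hf : Continuous f)
    (hc : HasCompactSupport f) : MemLp f ∞ (volume : Measure (En d)) :=
  hf.memLp_of_hasCompactSupport hc

private theorem p0d_mem' {L : En d → En d} (hL : Smo L) (hc : HasCompactSupport L) :
    MemLp (fderiv ℝ L) ∞ (volume : Measure (En d)) :=
  p0d_mem (ContDiff.continuous_fderiv hL (by norm_num)) (hc.fderiv (𝕜 := ℝ))

private theorem p0d_cli_add {F : Type} [NormedAddCommGroup F] {f g : En d → F}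
    (hf : MemLp f ∞ (volume : Measure (En d))) (hg : MemLp g ∞ (volume : Measure (En d))) :
    cli (fun x => f x + g x) = cli f + cli g := by
  have h : MemLp (fun x => f x + g x) ∞ (volume : Measure (En d)) := hf.add hg
  refine Lp.ext ?_
  filter_upwards [cli_coe h, cli_coe hf, cli_coe hg, Lp.coeFn_add (cli f) (cli g)] with x h1 h2 h3 h4
  rw [h1, h4, Pi.add_apply, h2, h3]

private theorem p0d_cli_smul {F : Type} [NormedAddCommGroup F] [NormedSpace ℝ F] (c : ℝ) {f : En d → F}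
    (hf : MemLp f ∞ (volume : Measure (En d))) : cli (fun x => c • f x) = c • cli f := by
  have h : MemLp (fun x => c • f x) ∞ (volume : Measure (En d)) := hf.const_smul c
  refine Lp.ext ?_
  filter_upwards [cli_coe h, cli_coe hf, Lp.coeFn_smul c (cli f)] with x h1 h2 h4
  rw [h1, h4, Pi.smul_apply, h2]

/-- `v ↦ P(L·∇v + v·∇L)` -/
noncomputable def bgo (D : Set (En d)) (L : En d → En d) : VD D →L[ℝ] HD D :=
  PD D ∘L (tr0 d (cli L) ∘L (VD D).subtypeL + mu0 d (cli (fderiv ℝ L)) ∘L (HD D).subtypeL ∘L io D)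

theorem bgo_apply (L : En d → En d) (v : VD D) :
    bgo D L v = PD D (tr0 d (cli L) (v : G2E d) + mu0 d (cli (fderiv ℝ L)) ((io D v : HD D) : L2E d)) := by
  rfl

theorem bgo_le {L : En d → En d} {c : ℝ} (hc : 0 ≤ c) (h : ∀ x, ‖L x‖ ≤ c) (h' : ∀ x, ‖fderiv ℝ L x‖ ≤ c) :
    ‖bgo D L‖ ≤ c * (1 + ‖io D‖) := by
  refine ContinuousLinearMap.opNorm_le_bound _ (by positivity) fun v => ?_
  rw [bgo_apply]
  refine (PD_le _).trans ((norm_add_le _ _).trans ?_)
  have h1 : ‖tr0 d (cli L) (v : G2E d)‖ ≤ c * ‖v‖ :=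
    (tr0_le _ _).trans (mul_le_mul_of_nonneg_right (cli_le hc h) (norm_nonneg _))
  have h2 : ‖mu0 d (cli (fderiv ℝ L)) ((io D v : HD D) : L2E d)‖ ≤ c * (‖io D‖ * ‖v‖) := by
    refine (mu0_le _ _).trans (mul_le_mul (cli_le hc h') ?_ (norm_nonneg _) hc)
    exact (io D).le_opNorm v
  calc _ ≤ c * ‖v‖ + c * (‖io D‖ * ‖v‖) := add_le_add h1 h2
    _ = c * (1 + ‖io D‖) * ‖v‖ := by ring

/-- (`cli` is additive and homogeneous on bounded measurable functions: compare a.e.) -/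
theorem bgo_add {L L' : En d → En d} (hL : Smo L) (hc : HasCompactSupport L) (hL' : Smo L')
    (hc' : HasCompactSupport L') : bgo D (fun x => L x + L' x) = bgo D L + bgo D L' := by
  have e1 : fderiv ℝ (fun x => L x + L' x) = fun x => fderiv ℝ L x + fderiv ℝ L' x := by
    ext1 x
    exact fderiv_fun_add (hL.differentiable x) (hL'.differentiable x)
  ext1 v
  have e2 : tr0 d (cli fun x => L x + L' x) (v : G2E d) = tr0 d (cli L) (v : G2E d) + tr0 d (cli L') (v : G2E d) := by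
    rw [p0d_cli_add (p0d_mem hL.continuous hc) (p0d_mem hL'.continuous hc'), map_add]
    rfl
  have e3 : mu0 d (cli fun x => fderiv ℝ L x + fderiv ℝ L' x) ((io D v : HD D) : L2E d) =
      mu0 d (cli (fderiv ℝ L)) ((io D v : HD D) : L2E d) + mu0 d (cli (fderiv ℝ L')) ((io D v : HD D) : L2E d) := by
    rw [p0d_cli_add (p0d_mem' hL hc) (p0d_mem' hL' hc'), map_add]
    rfl
  show bgo D (fun x => L x + L' x) v = bgo D L v + bgo D L' v
  rw [bgo_apply, bgo_apply, bgo_apply, e1, e2, e3, ← map_add (PD D)]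
  congr 1
  abel

theorem bgo_smul (c : ℝ) {L : En d → En d} (hL : Smo L) (hc : HasCompactSupport L) :
    bgo D (fun x => c • L x) = c • bgo D L := by
  have e1 : fderiv ℝ (fun x => c • L x) = fun x => c • fderiv ℝ L x := by
    ext1 x
    exact fderiv_fun_const_smul (hL.differentiable x) c
  ext1 v
  have e2 : tr0 d (cli fun x => c • L x) (v : G2E d) = c • tr0 d (cli L) (v : G2E d) := by
    rw [p0d_cli_smul c (p0d_mem hL.continuous hc), map_smul]
    rfl
  have e3 : mu0 d (cli fun x => c • fderiv ℝ L x) ((io D v : HD D) : L2E d) =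
      c • mu0 d (cli (fderiv ℝ L)) ((io D v : HD D) : L2E d) := by
    rw [p0d_cli_smul c (p0d_mem' hL hc), map_smul]
    rfl
  show bgo D (fun x => c • L x) v = c • bgo D L v
  rw [bgo_apply, bgo_apply, e1, e2, e3, ← smul_add, map_smul]

/-- a smooth field with compact support, divergence free in `D`, is divergence free in `D` in the weak sense -/
theorem cli_dz {L : En d → En d} (hL : Smo L) (hc : HasCompactSupport L) (h : ∀ x ∈ D, dv L x = 0) :
    dz D (cli L : En d → En d) := by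
  intro q hq
  have hLi : ∀ i : Fin d, Smo fun x => L x i := fun i =>
    (EuclideanSpace.proj i : En d →L[ℝ] ℝ).contDiff.comp hL
  have hint : ∀ {f g : En d → ℝ}, Continuous f → Continuous g → HasCompactSupport g →
      Integrable fun x => f x * g x := fun {f g} hf hg hgc =>
    (hf.mul hg).integrable_of_hasCompactSupport (hgc.mul_left)
  have e1 : ∫ x, ⟪(cli L : En d → En d) x, gd q x⟫ = ∫ x, ∑ i, L x i * pd i q x := by
    refine integral_congr_ae ?_
    filter_upwards [cli_coe (p0d_mem hL.continuous hc)] with x hx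
    rw [hx, PiLp.inner_apply]
    refine Finset.sum_congr rfl fun i _ => ?_
    rw [gd_apply]
    simp [mul_comm]
  rw [e1, integral_finsetSum _ fun i _ => hint (hLi i).continuous (hq.smooth.pd i).continuous (hcs_pd hq.cpt i)]
  have e2 : ∀ i : Fin d, ∫ x, L x i * pd i q x = -∫ x, pd i L x i * q x := by
    intro i
    have h1 := ibp_mul (hLi i) hq.smooth (Or.inr hq.cpt) i
    rw [← neg_eq_iff_eq_neg, ← h1]
    refine integral_congr_ae (Eventually.of_forall fun x => ?_)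
    show pd i (fun x => L x i) x * q x = pd i L x i * q x
    rw [pd_apply hL]
  have e5 : ∀ i : Fin d, Integrable fun x => pd i L x i * q x := fun i =>
    hint ((EuclideanSpace.proj i : En d →L[ℝ] ℝ).continuous.comp (hL.pd i).continuous) hq.smooth.continuous hq.cpt
  rw [Finset.sum_congr rfl fun i _ => e2 i, Finset.sum_neg_distrib, ← integral_finsetSum _ fun i _ => e5 i]
  have e3 : ∀ x, ∑ i, pd i L x i * q x = 0 := by
    intro x
    rw [← Finset.sum_mul]
    by_cases hx : x ∈ D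
    · have h2 := h x hx
      unfold dv at h2
      rw [h2, zero_mul]
    · rw [image_eq_zero_of_notMem_tsupport fun hx' => hx (hq.supp hx'), mul_zero]
  have e4 : ∫ x, ∑ i, pd i L x i * q x = 0 := by
    simp only [e3, integral_zero]
  rw [neg_eq_zero]
  exact e4

/-- `tr0_skew` for the first part, `|⟪DL v, v⟫| ≤ c |v|²` for the second part. -/
theorem bgo_low (hD : Bornology.IsBounded D) {L : En d → En d} (hL : Smo L) (hc : HasCompactSupport L)
    (h : ∀ x ∈ D, dv L x = 0) {c : ℝ} (h' : ∀ x, ‖fderiv ℝ L x‖ ≤ c) (v : VD D) :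
    -(c * ‖io D v‖ ^ 2) ≤ ⟪bgo D L v, io D v⟫ := by
  have hc0 : 0 ≤ c := (norm_nonneg _).trans (h' 0)
  rw [bgo_apply, inner_PD, inner_add_left, tr0_skew hD (cli_dz hL hc h) v, zero_add]
  refine neg_le_of_abs_le ((abs_real_inner_le_norm _ _).trans ?_)
  have h1 : ‖mu0 d (cli (fderiv ℝ L)) ((io D v : HD D) : L2E d)‖ ≤ c * ‖io D v‖ :=
    (mu0_le _ _).trans (mul_le_mul_of_nonneg_right (cli_le hc0 h') (norm_nonneg _))
  calc _ ≤ c * ‖io D v‖ * ‖((io D v : HD D) : L2E d)‖ := mul_le_mul_of_nonneg_right h1 (norm_nonneg _)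
    _ = c * ‖io D v‖ ^ 2 := by
      rw [Submodule.coe_norm]
      ring

/-- tested with a smooth field, the first part integrated by parts:
`⟪P(L·∇v + v·∇L), φ⟫ = -∫ ⟪v, Dφ L⟫ + ∫ ⟪DL v, φ⟫` (`tr0_anti` with `w = vT D φ`) -/
theorem bgo_test (hD : Bornology.IsBounded D) {L : En d → En d} (hL : Smo L) (hc : HasCompactSupport L)
    (h : ∀ x ∈ D, dv L x = 0) (v : VD D) (φ : TS D) :
    ⟪bgo D L v, hT D φ⟫ = -(∫ x, ⟪(((io D v : HD D) : L2E d) : En d → En d) x, fderiv ℝ (φ : En d → En d) x (L x)⟫) +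
      ∫ x, ⟪fderiv ℝ L x ((((io D v : HD D) : L2E d) : En d → En d) x), (φ : En d → En d) x⟫ := by
  rw [bgo_apply, inner_PD, inner_add_left, ← io_vT hD φ, tr0_anti hD (cli_dz hL hc h) v (vT D φ)]
  congr 1
  · rw [inner_L2]
    refine congrArg Neg.neg (integral_congr_ae ?_)
    have h1 : ∀ᵐ x ∂(volume : Measure (En d)), ∀ i : Fin d,
        (((vT D φ : VD D) : G2E d) i : En d → En d) x = pd i (φ : En d → En d) x :=
      ae_all_iff.2 fun i => cl_coe (((TS.ts φ).toIsTe.pd i).memLp 2)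
    filter_upwards [tr0_ae (cli L) ((vT D φ : VD D) : G2E d), cli_coe (p0d_mem hL.continuous hc), h1] with x h2 h3 h4
    rw [h2, fderiv_eq_sum, real_inner_comm]
    congr 1
    refine Finset.sum_congr rfl fun i _ => ?_
    rw [h4, h3]
  · rw [inner_L2, io_vT hD, hT_coe]
    refine integral_congr_ae ?_
    filter_upwards [mu0_ae (cli (fderiv ℝ L)) ((io D v : HD D) : L2E d), cli_coe (p0d_mem' hL hc),
      cl_coe ((TS.ts φ).memLp 2)] with x h2 h3 h4
    rw [h2, h3, h4]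

end Pool.Agent.Lib.MP_79abb3_an.W
end

section

/-!
Theorem W (MP_79abb3_an), Phase 0: the operator and the source of the lift, continuity in time and bounds.
-/

set_option autoImplicit false
set_option linter.unusedSectionVars false

open MeasureTheory Set Filter Topology Function
open scoped ENNReal RealInnerProductSpace

namespace Pool.Agent.Lib.MP_79abb3_an.W

variable {d : ℕ} {Ω W : Set (En d)} {u₀ : En d → En d} {Y : ℕ → En d → En d} {ω τ : ℕ → ℝ}

/-- the source `P(ΔL - L' - (L·∇)L)` (`L'` is the time derivative) -/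
noncomputable def srcL (D : Set (En d)) (L L' : En d → En d) : HD D :=
  PD D (clD D fun x => lap L x - L' x - fderiv ℝ L x (L x))

/-- the operator of the lift -/
noncomputable def Fl (D : Set (En d)) (Y : ℕ → En d → En d) (τ : ℕ → ℝ) (t : ℝ) : VD D →L[ℝ] HD D :=
  bgo D (lft Y τ t)

/-- the source of the lift -/
noncomputable def gl (D : Set (En d)) (Y : ℕ → En d → En d) (τ : ℕ → ℝ) (t : ℝ) : HD D :=
  srcL D (lft Y τ t) (lfd Y τ t)

private theorem p0d3_te (h : P0Seq Ω W u₀ Y ω τ) (c : ℕ → ℝ) (n : ℕ) :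
    IsTe univ (fun x => ∑ k ∈ Finset.range n, c k • Y k x) :=
  IsTe.sum_fun _ fun k _ => IsTe.smul (c k) ⟨h.smo k, h.cpt k, subset_univ _⟩

private theorem p0d3_sum (h : P0Seq Ω W u₀ Y ω τ) (c : ℕ → ℝ) (n : ℕ) :
    bgo Ω (fun x => ∑ k ∈ Finset.range n, c k • Y k x) = ∑ k ∈ Finset.range n, c k • bgo Ω (Y k) := by
  induction n with
  | zero =>
    have h1 : (fun x : En d => ∑ k ∈ Finset.range 0, c k • Y k x) = fun x => (0 : ℝ) • Y 0 x := by
      funext x
      rw [Finset.range_zero, Finset.sum_empty, zero_smul]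
    rw [h1, bgo_smul 0 (h.smo 0) (h.cpt 0), Finset.range_zero, Finset.sum_empty]
    exact zero_smul ℝ (bgo Ω (Y 0))
  | succ n ih =>
    have h1 : (fun x : En d => ∑ k ∈ Finset.range (n + 1), c k • Y k x) =
        fun x => (∑ k ∈ Finset.range n, c k • Y k x) + c n • Y n x := by
      funext x
      rw [Finset.sum_range_succ]
    have h2 : IsTe univ (fun x => c n • Y n x) := IsTe.smul (c n) ⟨h.smo n, h.cpt n, subset_univ _⟩
    rw [h1, bgo_add (p0d3_te h c n).smooth (p0d3_te h c n).cpt h2.smooth h2.cpt, ih,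
      bgo_smul (c n) (h.smo n) (h.cpt n), Finset.sum_range_succ]

private theorem p0d3_fun (h : P0Seq Ω W u₀ Y ω τ) {n : ℕ} {t : ℝ} (ht : τ n ≤ t) :
    lft Y τ t = fun x => ∑ k ∈ Finset.range n, sg τ k t • Y k x := funext fun x => h.lft_sum ht x

/-- continuity: on `t ≥ τ_n` the lift is a finite sum (`lft_sum`), so `Fl t = ∑_{k<n} σ_k(t) • bgo D (Y k)` (`bgo_add`,
`bgo_smul`), and `σ_k` is continuous; every `t > 0` is an interior point of some `[τ_n, ∞)`. -/
theorem P0Seq.Fl_cont (h : P0Seq Ω W u₀ Y ω τ) : ContinuousOn (Fl Ω Y τ) (Ioi 0) := by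
  intro t ht
  obtain ⟨n, hn⟩ := h.exists_n (half_pos (mem_Ioi.1 ht))
  have hnt : τ n < t := hn.trans_lt (half_lt_self (mem_Ioi.1 ht))
  have h1 : (fun s => ∑ k ∈ Finset.range n, sg τ k s • bgo Ω (Y k)) =ᶠ[𝓝 t] Fl Ω Y τ := by
    filter_upwards [lt_mem_nhds hnt] with s hs
    show _ = bgo Ω (lft Y τ s)
    rw [p0d3_fun h hs.le, p0d3_sum h]
  have h2 : Continuous fun s => ∑ k ∈ Finset.range n, sg τ k s • bgo Ω (Y k) := by
    refine continuous_finsetSum _ fun k _ => ?_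
    have h3 : Continuous (sg τ k) := (sgt_smooth (τ (k + 1)) (τ k)).continuous
    exact h3.smul continuous_const
  exact (h2.continuousAt.congr h1).continuousWithinAt

/-- `lft_le` and `bgo_le` -/
theorem P0Seq.Fl_le (h : P0Seq Ω W u₀ Y ω τ) {t : ℝ} (ht : 0 < t) (ht' : t ≤ τ 0) :
    ‖Fl Ω Y τ t‖ ≤ t ^ (-(1 / 8 : ℝ)) * (1 + ‖io Ω‖) := by
  refine bgo_le (Real.rpow_nonneg ht.le _) (fun x => ?_) (fun x => ?_)
  · have h1 := h.lft_le ht ht' x
    have h2 := norm_nonneg (fderiv ℝ (lft Y τ t) x)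
    have h3 := norm_nonneg (lap (lft Y τ t) x)
    linarith
  · have h1 := h.lft_le ht ht' x
    have h2 := norm_nonneg (lft Y τ t x)
    have h3 := norm_nonneg (lap (lft Y τ t) x)
    linarith

/-- `bgo_low`, `lft_dv`, `lft_le` -/
theorem P0Seq.Fl_low (h : P0Seq Ω W u₀ Y ω τ) (hΩ : Bornology.IsBounded Ω) {t : ℝ} (ht : 0 < t) (ht' : t ≤ τ 0)
    (v : VD Ω) : -(t ^ (-(1 / 8 : ℝ)) * ‖io Ω v‖ ^ 2) ≤ ⟪Fl Ω Y τ t v, io Ω v⟫ := by
  refine bgo_low hΩ (h.lft_smo ht) (h.lft_cpt ht) (fun x hx => h.lft_dv ht hx) (fun x => ?_) v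
  have h1 := h.lft_le ht ht' x
  have h2 := norm_nonneg (lft Y τ t x)
  have h3 := norm_nonneg (lap (lft Y τ t) x)
  linarith

end Pool.Agent.Lib.MP_79abb3_an.W
end

section

/-!
Theorem D, block S, abstract part: a Hilbert space `V` with a bounded injective map `ι : V → X` with dense range.
`K = ι ι†` is the inverse of the operator of the form `(v, w) ↦ ⟪v, w⟫_V`.
-/

set_option autoImplicit false
set_option linter.unusedSectionVars false

open ContinuousLinearMap Filter Topology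
open scoped InnerProductSpace ComplexConjugate

namespace Pool.Agent.Lib.MP_79abb3_an.PD

open Pool.Agent.Lib.MP_79abb3_an.SC

section
variable {X V : Type} [NormedAddCommGroup X] [InnerProductSpace ℂ X] [CompleteSpace X]
  [NormedAddCommGroup V] [InnerProductSpace ℂ V] [CompleteSpace V] {ι : V →L[ℂ] X}

/-- A form domain. -/
structure FDom (ι : V →L[ℂ] X) : Prop where
  inj : ∀ v, ι v = 0 → v = 0
  dense : DenseRange ι

/-- `K = ι ι†` -/
noncomputable def KF (ι : V →L[ℂ] X) : X →L[ℂ] X := ι ∘L adjoint ι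

theorem KF_apply (ι : V →L[ℂ] X) (x : X) : KF ι x = ι (adjoint ι x) := rfl

theorem KF_inner (ι : V →L[ℂ] X) (x y : X) : ⟪KF ι x, y⟫_ℂ = ⟪adjoint ι x, adjoint ι y⟫_ℂ := by
  rw [KF_apply, ContinuousLinearMap.adjoint_inner_right]

theorem KF_nonneg (ι : V →L[ℂ] X) : 0 ≤ KF ι := by
  rw [ContinuousLinearMap.nonneg_iff_isPositive, ContinuousLinearMap.isPositive_def]
  refine ⟨fun x y => ?_, fun x => ?_⟩
  · show ⟪KF ι x, y⟫_ℂ = ⟪x, KF ι y⟫_ℂ
    rw [KF_inner, ← inner_conj_symm, ← KF_inner, inner_conj_symm]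
  · rw [ContinuousLinearMap.reApplyInnerSelf_apply, KF_inner, inner_self_eq_norm_sq_to_K]
    norm_cast
    positivity

theorem norm_Kh_eq (ι : V →L[ℂ] X) (x : X) : ‖Kh (KF ι) x‖ = ‖adjoint ι x‖ := by
  have h1 : ‖Kh (KF ι) x‖ ^ 2 = ‖adjoint ι x‖ ^ 2 := by
    have h2 : ⟪Kh (KF ι) x, Kh (KF ι) x⟫_ℂ = ⟪adjoint ι x, adjoint ι x⟫_ℂ := by
      rw [Kh_inner, Kh_Kh (KF_nonneg ι), ← inner_conj_symm, KF_inner, inner_conj_symm]
    rw [inner_self_eq_norm_sq_to_K, inner_self_eq_norm_sq_to_K] at h2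
    exact_mod_cast h2
  exact (sq_eq_sq₀ (norm_nonneg _) (norm_nonneg _)).1 h1

variable (h : FDom ι)
include h

theorem FDom.adj_inj (x : X) (hx : adjoint ι x = 0) : x = 0 := by
  have h1 : ∀ v, ⟪x, ι v⟫_ℂ = 0 := fun v => by
    rw [← ContinuousLinearMap.adjoint_inner_left, hx, inner_zero_left]
  have h2 : ∀ y, ⟪x, y⟫_ℂ = 0 := fun y =>
    h.dense.induction (P := fun y => ⟪x, y⟫_ℂ = 0) (by rintro _ ⟨v, rfl⟩; exact h1 v)
      (isClosed_eq (by fun_prop) (by fun_prop)) y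
  exact inner_self_eq_zero.1 (h2 x)

theorem FDom.K_inj (x : X) (hx : KF ι x = 0) : x = 0 := h.adj_inj x (h.inj _ hx)

theorem FDom.Kh_dense : DenseRange (Kh (KF ι)) :=
  denseRange_of_inj (Kh_selfAdjoint _) (Kh_inj (KF_nonneg ι) h.K_inj)

omit h in
/-- The unitary operator `X → V` with `ι Q x = K^{1/2} x`. -/
noncomputable def Qv (ι : V →L[ℂ] X) : X →L[ℂ] V :=
  ((adjoint ι : X →L[ℂ] V) : X →ₗ[ℂ] V).extendOfNorm (Kh (KF ι) : X →ₗ[ℂ] X)

theorem FDom.Qv_Kh (x : X) : Qv ι (Kh (KF ι) x) = adjoint ι x :=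
  LinearMap.extendOfNorm_eq (f := ((adjoint ι : X →L[ℂ] V) : X →ₗ[ℂ] V))
    (e := (Kh (KF ι) : X →ₗ[ℂ] X)) h.Kh_dense
    ⟨1, fun x => by rw [one_mul]; exact (norm_Kh_eq ι x).symm.le⟩ x

theorem FDom.ι_Qv (x : X) : ι (Qv ι x) = Kh (KF ι) x := by
  refine h.Kh_dense.induction (P := fun x => ι (Qv ι x) = Kh (KF ι) x) ?_
    (isClosed_eq (by fun_prop) (by fun_prop)) x
  rintro _ ⟨y, rfl⟩
  rw [h.Qv_Kh, ← KF_apply, Kh_Kh (KF_nonneg ι)]

theorem FDom.norm_Qv (x : X) : ‖Qv ι x‖ = ‖x‖ := by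
  refine h.Kh_dense.induction (P := fun x => ‖Qv ι x‖ = ‖x‖) ?_
    (isClosed_eq (by fun_prop) (by fun_prop)) x
  rintro _ ⟨y, rfl⟩
  rw [h.Qv_Kh, norm_Kh_eq]

theorem FDom.inner_Qv (x y : X) : ⟪Qv ι x, Qv ι y⟫_ℂ = ⟪x, y⟫_ℂ := by
  refine h.Kh_dense.induction (P := fun x => ⟪Qv ι x, Qv ι y⟫_ℂ = ⟪x, y⟫_ℂ) ?_
    (isClosed_eq (by fun_prop) (by fun_prop)) x
  rintro _ ⟨x', rfl⟩
  refine h.Kh_dense.induction (P := fun y => ⟪Qv ι (Kh (KF ι) x'), Qv ι y⟫_ℂ = ⟪Kh (KF ι) x', y⟫_ℂ) ?_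
    (isClosed_eq (by fun_prop) (by fun_prop)) y
  rintro _ ⟨y', rfl⟩
  rw [h.Qv_Kh, h.Qv_Kh, ← KF_inner, Kh_inner, Kh_Kh (KF_nonneg ι), ← inner_conj_symm,
    ← inner_conj_symm (x')]
  congr 1
  rw [KF_inner ι y' x', ← inner_conj_symm y' (KF ι x'), KF_inner, inner_conj_symm]

theorem FDom.Qv_surj (v : V) : ∃ x, Qv ι x = v := by
  have h1 : IsClosed (Set.range (Qv ι)) := by
    have h2 : Isometry (Qv ι) := AddMonoidHomClass.isometry_of_norm _ h.norm_Qv
    exact h2.isClosedEmbedding.isClosed_range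
  have h3 : DenseRange (Qv ι) := by
    have h4 : (Qv ι : X →L[ℂ] V).rangeᗮ = ⊥ := by
      rw [eq_bot_iff]
      intro v hv
      rw [Submodule.mem_bot]
      refine h.inj v ?_
      have h5 : ∀ y, ⟪y, ι v⟫_ℂ = 0 := fun y => by
        have h6 : ⟪Qv ι (Kh (KF ι) y), v⟫_ℂ = 0 := (Submodule.mem_orthogonal _ _).1 hv _ ⟨_, rfl⟩
        rwa [h.Qv_Kh, ContinuousLinearMap.adjoint_inner_left] at h6
      exact inner_self_eq_zero.1 (h5 (ι v))
    have h5 := Submodule.topologicalClosure_eq_top_iff.2 h4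
    intro x
    have h6 : x ∈ (Qv ι : X →L[ℂ] V).range.topologicalClosure := by rw [h5]; trivial
    exact h6
  have h4 := h3.closure_range
  rw [h1.closure_eq] at h4
  have : v ∈ Set.range (Qv ι) := by rw [h4]; trivial
  exact this

/-- `⟪ι v, K^{1/2} x⟫ = ...`: the tested form `⟪x, K^{1/2} y⟫ = ⟪ι† x, Q y⟫` -/
theorem FDom.inner_Kh (x y : X) : ⟪x, Kh (KF ι) y⟫_ℂ = ⟪adjoint ι x, Qv ι y⟫_ℂ := by
  rw [← h.ι_Qv, ContinuousLinearMap.adjoint_inner_left]

/-- The vorticity of `K^{1/2} HS(t) x`: `Q (AS t x)`. -/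
theorem FDom.Qv_adj (y : X) : Qv ι (Kh (KF ι) y) = adjoint ι y := h.Qv_Kh y

end

end Pool.Agent.Lib.MP_79abb3_an.PD
end
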