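import Pool.Agent.Lib.MP_79abb3_an.PD.AbNa

/-!
Theorem D, block S, abstract part: reality, the norm inequality.
-/

set_option autoImplicit false
set_option linter.unusedSectionVars false

open MeasureTheory Set Filter Topology Function
open scoped ENNReal InnerProductSpace ComplexConjugate

namespace Pool.Agent.Lib.MP_79abb3_an.PD

open Pool.Agent.Lib.MP_79abb3_an.SC

section
variable {X Y : Type} [NormedAddCommGroup X] [InnerProductSpace ℂ X] [CompleteSpace X]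
  [NormedAddCommGroup Y] [NormedSpace ℂ Y]
variable {K : X →L[ℂ] X} {J3 : Y →L[ℂ] X} {N : X →L[ℂ] X →L[ℂ] Y} {C : ℝ} {f : ℝ → X}
  {B : ℝ → X →L[ℂ] X} {a b : ℝ} {x₀ y₀ : X} {x y : ℝ → X} {cX : X →L[ℝ] X} {cY : Y →L[ℝ] Y}

/-- Reality. Proof: `Mild.real` with `J' = (cY, cX)`, `Cnj.Sg`, `Cnj.AS`, `Cnj.Kh`. -/
theorem Slv.real (h : NSA K J3 N C) {cX : X →L[ℝ] X} {cY : Y →L[ℝ] Y} (r : NSR K J3 N cX cY)
    (hf : ContinuousOn f (Icc a b)) (hB : ContinuousOn B (Icc a b))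
    (hfr : ∀ t ∈ Icc a b, cX (f t) = f t) (hBr : ∀ t ∈ Icc a b, ∀ x, cX (B t x) = B t (cX x))
    (hx : Slv K J3 N f B a b x₀ x) (h0 : cX x₀ = x₀) : ∀ t ∈ Icc a b, cX (x t) = x t := by
  obtain ⟨M, hM⟩ := Pb_nl N hf hB
  refine Mild.real h.ker hM hx cX (cY.prodMap cX) (fun t ht x => r.cj.Sg h.hK r.cK ht x) ?_ ?_ h0
  · intro t ht y
    change cX (AS K t (J3 y.1 + Kh K y.2)) = AS K t (J3 (cY y.1) + Kh K (cX y.2))
    rw [r.cj.AS h.hK r.cK ht, map_add, r.c3, r.cj.Kh h.hK r.cK]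
  · intro t ht x
    change (cY (N x x), cX (f t + B t x)) = (N (cX x) (cX x), f t + B t (cX x))
    rw [r.cN, map_add, hfr t ht, hBr t ht]

/-- The inequality for the norm. Proof: restart at `s` (`Mild.restart`), `NSA.k1`, `NSA.n`, `AS_Kh`, `HS_norm`. -/
theorem Slv.norm_le (h : NSA K J3 N C) (hf : ContinuousOn f (Icc a b)) (hB : ContinuousOn B (Icc a b))
    (hx : Slv K J3 N f B a b x₀ x) {U F M : ℝ} (hU : ∀ t ∈ Icc a b, ‖Kh K (x t)‖ ≤ U)
    (hF : ∀ t ∈ Icc a b, ‖f t‖ ≤ F) (hM : ∀ t ∈ Icc a b, ‖B t‖ ≤ M)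
    {s t : ℝ} (hs : a ≤ s) (hst : s ≤ t) (ht : t ≤ b) :
    ‖x t‖ ≤ ‖x s‖ + 2 * F * √(t - s) + ∫ r in s..t, (C ^ 2 * √U * (t - r) ^ (-(3 / 4 : ℝ)) *
      (√‖x r‖ * ‖x r‖) + M * (t - r) ^ (-(1 / 2 : ℝ)) * ‖x r‖) := by
  obtain ⟨Mn, hNl⟩ := Pb_nl N hf hB
  have hres : Mild (Sg K) (Lc K J3) (Pb N f B) s b (x s) x :=
    Mild.restart h.ker hNl hx ⟨hs, hst.trans ht⟩
  have he := hres.eq t ⟨hst, ht⟩
  have hsub : uIcc s t ⊆ Icc a b := by
    rw [uIcc_of_le hst]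
    exact Icc_subset_Icc hs ht
  have hxc : ContinuousOn (fun r => ‖x r‖) (uIcc s t) := (hx.cont.mono hsub).norm
  have hpow : ∀ p : ℝ, -1 < p → IntervalIntegrable (fun r => (t - r) ^ p) volume s t := by
    intro p hp
    have h1 := (intervalIntegral.intervalIntegrable_rpow' (a := t - s) (b := 0) hp).comp_sub_left t
    rwa [sub_sub_cancel, sub_zero] at h1
  have hi1 : IntervalIntegrable (fun r => C ^ 2 * √U * (t - r) ^ (-(3 / 4 : ℝ)) *
      (√‖x r‖ * ‖x r‖)) volume s t :=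
    ((hpow _ (by norm_num)).const_mul _).mul_continuousOn (hxc.sqrt.mul hxc)
  have hi2 : IntervalIntegrable (fun r => M * (t - r) ^ (-(1 / 2 : ℝ)) * ‖x r‖) volume s t :=
    ((hpow _ (by norm_num)).const_mul _).mul_continuousOn hxc
  have hi3 : IntervalIntegrable (fun r => F * (t - r) ^ (-(1 / 2 : ℝ))) volume s t :=
    (hpow _ (by norm_num)).const_mul _
  have hb : ‖∫ r in s..t, Lc K J3 (t - r) (Pb N f B r (x r))‖ ≤
      ∫ r in s..t, ((C ^ 2 * √U * (t - r) ^ (-(3 / 4 : ℝ)) * (√‖x r‖ * ‖x r‖) +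
        M * (t - r) ^ (-(1 / 2 : ℝ)) * ‖x r‖) + F * (t - r) ^ (-(1 / 2 : ℝ))) := by
    refine intervalIntegral.norm_integral_le_of_norm_le hst ?_ ((hi1.add hi2).add hi3)
    have hne : ∀ᵐ r : ℝ ∂volume, r ≠ t := by
      simp [ae_iff, measure_singleton]
    filter_upwards [hne] with r hrt hr
    have hr' : r ∈ Icc a b := ⟨hs.trans hr.1.le, hr.2.trans ht⟩
    have hpos : 0 < t - r := sub_pos.2 (lt_of_le_of_ne hr.2 hrt)
    have e1 : Lc K J3 (t - r) (Pb N f B r (x r)) =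
        AS K (t - r) (J3 (N (x r) (x r))) + HS K (t - r) (f r + B r (x r)) := by
      change AS K (t - r) (J3 (N (x r) (x r)) + Kh K (f r + B r (x r))) = _
      rw [map_add, AS_Kh h.hK hpos]
    rw [e1]
    have b1 : ‖AS K (t - r) (J3 (N (x r) (x r)))‖ ≤
        C ^ 2 * √U * (t - r) ^ (-(3 / 4 : ℝ)) * (√‖x r‖ * ‖x r‖) := by
      have c1 := h.k1 (t - r) hpos (N (x r) (x r))
      have c2 := h.n (x r) (x r)
      have c3 : √(‖Kh K (x r)‖ * ‖x r‖) ≤ √U * √‖x r‖ := by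
        rw [Real.sqrt_mul (norm_nonneg _)]
        exact mul_le_mul_of_nonneg_right (Real.sqrt_le_sqrt (hU r hr')) (Real.sqrt_nonneg _)
      have c0 := h.C0
      have c4 : 0 ≤ (t - r) ^ (-(3 / 4 : ℝ)) := Real.rpow_nonneg hpos.le _
      calc ‖AS K (t - r) (J3 (N (x r) (x r)))‖
          ≤ C * (t - r) ^ (-(3 / 4 : ℝ)) * ‖N (x r) (x r)‖ := c1
        _ ≤ C * (t - r) ^ (-(3 / 4 : ℝ)) * (C * (√U * √‖x r‖) * ‖x r‖) := by
            refine mul_le_mul_of_nonneg_left (c2.trans ?_) (by positivity)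
            refine mul_le_mul_of_nonneg_right ?_ (norm_nonneg _)
            exact mul_le_mul_of_nonneg_left c3 c0
        _ = _ := by ring
    have b2 : ‖HS K (t - r) (f r + B r (x r))‖ ≤
        M * (t - r) ^ (-(1 / 2 : ℝ)) * ‖x r‖ + F * (t - r) ^ (-(1 / 2 : ℝ)) := by
      have c1 : ‖HS K (t - r)‖ ≤ (t - r) ^ (-(1 / 2 : ℝ)) := by
        refine (HS_norm h.hK hpos).trans (le_of_eq ?_)
        rw [Real.sqrt_eq_rpow, ← Real.rpow_neg hpos.le]
      have c2 : ‖f r + B r (x r)‖ ≤ F + M * ‖x r‖ := by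
        refine (norm_add_le _ _).trans (add_le_add (hF r hr') ?_)
        exact ((B r).le_opNorm _).trans (mul_le_mul_of_nonneg_right (hM r hr') (norm_nonneg _))
      have c4 : 0 ≤ (t - r) ^ (-(1 / 2 : ℝ)) := Real.rpow_nonneg hpos.le _
      calc ‖HS K (t - r) (f r + B r (x r))‖ ≤ ‖HS K (t - r)‖ * ‖f r + B r (x r)‖ :=
            (HS K (t - r)).le_opNorm _
        _ ≤ (t - r) ^ (-(1 / 2 : ℝ)) * (F + M * ‖x r‖) := by
            exact mul_le_mul c1 c2 (norm_nonneg _) c4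
        _ = _ := by ring
    refine (norm_add_le _ _).trans ((add_le_add b1 b2).trans (le_of_eq ?_))
    ring
  have hF2 : ∫ r in s..t, F * (t - r) ^ (-(1 / 2 : ℝ)) = 2 * F * √(t - s) := by
    rw [intervalIntegral.integral_const_mul,
      intervalIntegral.integral_comp_sub_left (fun r => r ^ (-(1 / 2 : ℝ))) t, sub_self,
      integral_rpow (Or.inl (by norm_num))]
    rw [Real.zero_rpow (by norm_num), Real.sqrt_eq_rpow]
    norm_num
    ring
  rw [intervalIntegral.integral_add (hi1.add hi2) hi3, hF2] at hb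
  calc ‖x t‖ = ‖Sg K (t - s) (x s) + ∫ r in s..t, Lc K J3 (t - r) (Pb N f B r (x r))‖ := by
        rw [← he]
    _ ≤ ‖Sg K (t - s) (x s)‖ + ‖∫ r in s..t, Lc K J3 (t - r) (Pb N f B r (x r))‖ := norm_add_le _ _
    _ ≤ ‖x s‖ + _ := add_le_add (Sg_norm_apply h.hK _ _) hb
    _ = _ := by ring

end

end Pool.Agent.Lib.MP_79abb3_an.PD
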