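import Mathlib

/-!
Theorem D, block S: the critical Gronwall inequality (pure real analysis).
-/

set_option autoImplicit false
set_option linter.unusedSectionVars false

open MeasureTheory Set Filter Topology Function

namespace Pool.Agent.Lib.MP_79abb3_an.PD

/-- Gronwall, integral form. Proof: `G t = c + ∫_a^t g y`, `G' = g y ≤ g G`, so `G e^{-∫ g}` is antitone. -/
theorem gron_int {a b c : ℝ} {g y : ℝ → ℝ} (hg : ContinuousOn g (Icc a b))
    (hy : ContinuousOn y (Icc a b)) (hg0 : ∀ t ∈ Icc a b, 0 ≤ g t)
    (h : ∀ t ∈ Icc a b, y t ≤ c + ∫ r in a..t, g r * y r) :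
    ∀ t ∈ Icc a b, y t ≤ c * Real.exp (∫ r in a..t, g r) := by
  intro t ht
  have hab : a ≤ b := ht.1.trans ht.2
  set gg : ℝ → ℝ := IccExtend hab ((Icc a b).domRestrict g) with hgg
  set yy : ℝ → ℝ := IccExtend hab ((Icc a b).domRestrict y) with hyy
  have hgc : Continuous gg := (continuousOn_iff_continuous_domRestrict.1 hg).Icc_extend'
  have hyc : Continuous yy := (continuousOn_iff_continuous_domRestrict.1 hy).Icc_extend'
  have hge : ∀ r ∈ Icc a b, gg r = g r := fun r hr => by
    rw [hgg, IccExtend_of_mem hab _ hr]; rfl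
  have hye : ∀ r ∈ Icc a b, yy r = y r := fun r hr => by
    rw [hyy, IccExtend_of_mem hab _ hr]; rfl
  have hint : ∀ r ∈ Icc a b, ∫ x in a..r, gg x * yy x = ∫ x in a..r, g x * y x := by
    intro r hr
    apply intervalIntegral.integral_congr
    intro x hx
    rw [uIcc_of_le hr.1] at hx
    have hx' : x ∈ Icc a b := ⟨hx.1, hx.2.trans hr.2⟩
    simp only [hge x hx', hye x hx']
  have hintg : ∫ x in a..t, gg x = ∫ x in a..t, g x := by
    apply intervalIntegral.integral_congr
    intro x hx
    rw [uIcc_of_le ht.1] at hx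
    exact hge x ⟨hx.1, hx.2.trans ht.2⟩
  set G : ℝ → ℝ := fun r => c + ∫ x in a..r, gg x * yy x with hG
  set H : ℝ → ℝ := fun r => ∫ x in a..r, gg x with hH
  have hGd : ∀ r, HasDerivAt G (gg r * yy r) r := by
    intro r
    exact (intervalIntegral.integral_hasDerivAt_right ((hgc.mul hyc).intervalIntegrable _ _)
      ((hgc.mul hyc).stronglyMeasurableAtFilter _ _) (hgc.mul hyc).continuousAt).const_add c
  have hHd : ∀ r, HasDerivAt H (gg r) r := by
    intro r
    exact intervalIntegral.integral_hasDerivAt_right (hgc.intervalIntegrable _ _)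
      (hgc.stronglyMeasurableAtFilter _ _) hgc.continuousAt
  set Φ : ℝ → ℝ := fun r => G r * Real.exp (-H r) with hΦ
  have hΦd : ∀ r, HasDerivAt Φ (gg r * yy r * Real.exp (-H r) +
      G r * (Real.exp (-H r) * (-gg r))) r := by
    intro r
    exact (hGd r).mul ((hHd r).neg.exp)
  have hanti : AntitoneOn Φ (Icc a b) := by
    apply antitoneOn_of_deriv_nonpos (convex_Icc a b)
    · exact fun r _ => (hΦd r).continuousAt.continuousWithinAt
    · exact fun r _ => (hΦd r).differentiableAt.differentiableWithinAt
    · intro r hr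
      rw [interior_Icc] at hr
      have hr' : r ∈ Icc a b := Ioo_subset_Icc_self hr
      rw [(hΦd r).deriv]
      have h1 : yy r ≤ G r := by
        rw [hye r hr']
        have := h r hr'
        rw [← hint r hr'] at this
        exact this
      have h2 : 0 ≤ gg r := by
        rw [hge r hr']
        exact hg0 r hr'
      have h3 : 0 ≤ gg r * Real.exp (-H r) * (G r - yy r) :=
        mul_nonneg (mul_nonneg h2 (Real.exp_pos _).le) (sub_nonneg.2 h1)
      have h4 : gg r * yy r * Real.exp (-H r) + G r * (Real.exp (-H r) * (-gg r)) =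
          -(gg r * Real.exp (-H r) * (G r - yy r)) := by ring
      rw [h4]
      linarith
  have h1 := hanti (left_mem_Icc.2 hab) ht ht.1
  have h2 : Φ a = c := by
    simp [hΦ, hG, hH]
  rw [h2] at h1
  have h3 : G t ≤ c * Real.exp (H t) := by
    have h4 : G t = Φ t * Real.exp (H t) := by
      simp only [hΦ]
      rw [mul_assoc, ← Real.exp_add, neg_add_cancel, Real.exp_zero, mul_one]
    rw [h4]
    exact mul_le_mul_of_nonneg_right h1 (Real.exp_pos _).le
  have h5 : y t ≤ G t := by
    have := h t ht
    rw [← hint t ht] at this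
    exact this
  have h6 : H t = ∫ r in a..t, g r := hintg
  rw [← h6]
  exact h5.trans h3

/-- A good time: a continuous function has a value `≤` its mean. -/
theorem exists_good {a b E : ℝ} (hab : a < b) {y : ℝ → ℝ} (hy : ContinuousOn y (Icc a b))
    (h : ∫ r in a..b, y r ≤ E) : ∃ s ∈ Icc a b, y s ≤ E / (b - a) := by
  obtain ⟨s, hs, hmin⟩ := isCompact_Icc.exists_isMinOn (nonempty_Icc.2 hab.le) hy
  refine ⟨s, hs, ?_⟩
  have h1 : ∫ _ in a..b, y s ≤ ∫ r in a..b, y r := by
    apply intervalIntegral.integral_mono_on hab.le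
    · exact intervalIntegrable_const
    · exact (hy.mono (by rw [uIcc_of_le hab.le])).intervalIntegrable
    · intro r hr
      exact hmin hr
  rw [intervalIntegral.integral_const, smul_eq_mul] at h1
  rw [le_div_iff₀ (sub_pos.2 hab), mul_comm]
  exact h1.trans h

end Pool.Agent.Lib.MP_79abb3_an.PD
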