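import Mathlib

/-!
Theorem D, block S: the critical Gronwall inequality (pure real analysis).
-/

set_option autoImplicit false
set_option linter.unusedSectionVars false

open MeasureTheory Set Filter Topology Function

namespace Pool.Agent.Lib.MP_79abb3_an.PD

private lemma critII (q a b : ℝ) {α : ℝ} (hα : -1 < α) :
    IntervalIntegrable (fun r => (q - r) ^ α) volume a b := by
  have := (intervalIntegral.intervalIntegrable_rpow' hα (a := q - a) (b := q - b)).comp_sub_left q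
  simpa using this

private lemma critInt {q p : ℝ} {α : ℝ} (hα : -1 < α) :
    ∫ r in p..q, (q - r) ^ α = (q - p) ^ (α + 1) / (α + 1) := by
  rw [intervalIntegral.integral_comp_sub_left (fun u => u ^ α) q, sub_self,
    integral_rpow (Or.inl hα), Real.zero_rpow (by linarith), sub_zero]

/-- near part -/
private lemma critNear {κ S q p : ℝ} {y : ℝ → ℝ} (hκ : 0 ≤ κ) (hpq : p ≤ q)
    (hy : ContinuousOn y (Icc p q)) (hy0 : ∀ r ∈ Icc p q, 0 ≤ y r) (hS : ∀ r ∈ Icc p q, y r ≤ S) :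
    ∫ r in p..q, κ * (q - r) ^ (-(3 / 4 : ℝ)) * (√(y r) * y r) ≤
      4 * κ * (q - p) ^ (1 / 4 : ℝ) * (√S * S) := by
  have h1 : ∫ r in p..q, κ * (q - r) ^ (-(3 / 4 : ℝ)) * (√(y r) * y r) ≤
      ∫ r in p..q, κ * (√S * S) * (q - r) ^ (-(3 / 4 : ℝ)) := by
    apply intervalIntegral.integral_mono_on hpq
    · apply IntervalIntegrable.mul_continuousOn
      · exact (critII q p q (by norm_num)).const_mul κ
      · rw [uIcc_of_le hpq]
        exact hy.sqrt.mul hy
    · exact (critII q p q (by norm_num)).const_mul _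
    · intro r hr
      have h2 : 0 ≤ (q - r) ^ (-(3 / 4 : ℝ)) := Real.rpow_nonneg (sub_nonneg.2 hr.2) _
      have h3 : √(y r) * y r ≤ √S * S :=
        mul_le_mul (Real.sqrt_le_sqrt (hS r hr)) (hS r hr) (hy0 r hr) (Real.sqrt_nonneg _)
      calc κ * (q - r) ^ (-(3 / 4 : ℝ)) * (√(y r) * y r)
          ≤ κ * (q - r) ^ (-(3 / 4 : ℝ)) * (√S * S) :=
            mul_le_mul_of_nonneg_left h3 (mul_nonneg hκ h2)
        _ = κ * (√S * S) * (q - r) ^ (-(3 / 4 : ℝ)) := by ring
  refine h1.trans (le_of_eq ?_)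
  rw [intervalIntegral.integral_const_mul, critInt (by norm_num)]
  norm_num
  ring

/-- linear part -/
private lemma critLin {m S q s : ℝ} {y : ℝ → ℝ} (hm : 0 ≤ m) (hsq : s ≤ q)
    (hy : ContinuousOn y (Icc s q)) (hS : ∀ r ∈ Icc s q, y r ≤ S) :
    ∫ r in s..q, m * (q - r) ^ (-(1 / 2 : ℝ)) * y r ≤ 2 * m * √(q - s) * S := by
  have h1 : ∫ r in s..q, m * (q - r) ^ (-(1 / 2 : ℝ)) * y r ≤
      ∫ r in s..q, m * S * (q - r) ^ (-(1 / 2 : ℝ)) := by
    apply intervalIntegral.integral_mono_on hsq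
    · apply IntervalIntegrable.mul_continuousOn
      · exact (critII q s q (by norm_num)).const_mul m
      · rw [uIcc_of_le hsq]
        exact hy
    · exact (critII q s q (by norm_num)).const_mul _
    · intro r hr
      have h2 : 0 ≤ (q - r) ^ (-(1 / 2 : ℝ)) := Real.rpow_nonneg (sub_nonneg.2 hr.2) _
      calc m * (q - r) ^ (-(1 / 2 : ℝ)) * y r
          ≤ m * (q - r) ^ (-(1 / 2 : ℝ)) * S :=
            mul_le_mul_of_nonneg_left (hS r hr) (mul_nonneg hm h2)
        _ = m * S * (q - r) ^ (-(1 / 2 : ℝ)) := by ring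
  refine h1.trans (le_of_eq ?_)
  rw [intervalIntegral.integral_const_mul, critInt (by norm_num)]
  have h3 : (-(1 / 2 : ℝ) + 1) = 1 / 2 := by norm_num
  rw [h3, ← Real.sqrt_eq_rpow]
  ring

/-- far part -/
private lemma critFar {κ S q s η δ ε : ℝ} {y : ℝ → ℝ} (hκ : 0 ≤ κ) (hη : 0 < η) (hε : 0 < ε)
    (hsq : s ≤ q - η) (hy : ContinuousOn y (Icc s (q - η))) (hy0 : ∀ r ∈ Icc s (q - η), 0 ≤ y r)
    (hS : ∀ r ∈ Icc s (q - η), y r ≤ S) (hδ : ∫ r in s..(q - η), y r ^ 2 ≤ δ) :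
    ∫ r in s..(q - η), κ * (q - r) ^ (-(3 / 4 : ℝ)) * (√(y r) * y r) ≤
      κ * √S * (ε / √η + δ / (2 * ε)) := by
  have hpos : ∀ r ∈ Icc s (q - η), 0 < q - r := by
    intro r hr
    have := hr.2
    linarith
  have hc : ContinuousOn (fun r => (q - r) ^ (-(3 / 4 : ℝ))) (Icc s (q - η)) := by
    apply ContinuousOn.rpow_const (by fun_prop)
    intro r hr
    exact Or.inl (hpos r hr).ne'
  have hc2 : ContinuousOn (fun r => (q - r) ^ (-(3 / 2 : ℝ))) (Icc s (q - η)) := by
    apply ContinuousOn.rpow_const (by fun_prop)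
    intro r hr
    exact Or.inl (hpos r hr).ne'
  have h1 : ∫ r in s..(q - η), κ * (q - r) ^ (-(3 / 4 : ℝ)) * (√(y r) * y r) ≤
      ∫ r in s..(q - η), (κ * √S * (ε / 2) * (q - r) ^ (-(3 / 2 : ℝ)) +
        κ * √S / (2 * ε) * y r ^ 2) := by
    apply intervalIntegral.integral_mono_on hsq
    · apply ContinuousOn.intervalIntegrable
      rw [uIcc_of_le hsq]
      exact (continuousOn_const.mul hc).mul (hy.sqrt.mul hy)
    · apply ContinuousOn.intervalIntegrable
      rw [uIcc_of_le hsq]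
      exact (continuousOn_const.mul hc2).add (continuousOn_const.mul (hy.pow 2))
    · intro r hr
      set u := (q - r) ^ (-(3 / 4 : ℝ)) with hu
      have hu0 : 0 ≤ u := Real.rpow_nonneg (hpos r hr).le _
      have hu2 : (q - r) ^ (-(3 / 2 : ℝ)) = u ^ 2 := by
        rw [hu, ← Real.rpow_natCast, ← Real.rpow_mul (hpos r hr).le]
        norm_num
      rw [hu2]
      have h2 : √(y r) ≤ √S := Real.sqrt_le_sqrt (hS r hr)
      have h3 : u * y r ≤ ε / 2 * u ^ 2 + y r ^ 2 / (2 * ε) := by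
        have h4 : 0 ≤ (ε * u - y r) ^ 2 / (2 * ε) := by positivity
        have h5 : (ε * u - y r) ^ 2 / (2 * ε) = ε / 2 * u ^ 2 + y r ^ 2 / (2 * ε) - u * y r := by
          field_simp
          ring
        linarith
      calc κ * u * (√(y r) * y r) = κ * √(y r) * (u * y r) := by ring
        _ ≤ κ * √S * (u * y r) := by
            apply mul_le_mul_of_nonneg_right (mul_le_mul_of_nonneg_left h2 hκ)
            exact mul_nonneg hu0 (hy0 r hr)
        _ ≤ κ * √S * (ε / 2 * u ^ 2 + y r ^ 2 / (2 * ε)) :=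
            mul_le_mul_of_nonneg_left h3 (mul_nonneg hκ (Real.sqrt_nonneg _))
        _ = κ * √S * (ε / 2) * u ^ 2 + κ * √S / (2 * ε) * y r ^ 2 := by ring
  refine h1.trans ?_
  have hi1 : IntervalIntegrable (fun r => κ * √S * (ε / 2) * (q - r) ^ (-(3 / 2 : ℝ))) volume s
      (q - η) := by
    apply ContinuousOn.intervalIntegrable
    rw [uIcc_of_le hsq]
    exact continuousOn_const.mul hc2
  have hi2 : IntervalIntegrable (fun r => κ * √S / (2 * ε) * y r ^ 2) volume s (q - η) := by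
    apply ContinuousOn.intervalIntegrable
    rw [uIcc_of_le hsq]
    exact continuousOn_const.mul (hy.pow 2)
  rw [intervalIntegral.integral_add hi1 hi2, intervalIntegral.integral_const_mul,
    intervalIntegral.integral_const_mul]
  have h2 : ∫ r in s..(q - η), (q - r) ^ (-(3 / 2 : ℝ)) ≤ 2 / √η := by
    rw [intervalIntegral.integral_comp_sub_left (fun u => u ^ (-(3 / 2 : ℝ))) q, sub_sub_cancel,
      integral_rpow (Or.inr ⟨by norm_num, ?_⟩)]
    · have h3 : (-(3 / 2 : ℝ) + 1) = -(1 / 2) := by norm_num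
      rw [h3, Real.rpow_neg hη.le, ← Real.sqrt_eq_rpow]
      have h4 : 0 ≤ (q - s) ^ (-(1 / 2 : ℝ)) := Real.rpow_nonneg (by linarith) _
      have h5 : ((q - s) ^ (-(1 / 2 : ℝ)) - (√η)⁻¹) / -(1 / 2) =
          2 / √η - 2 * (q - s) ^ (-(1 / 2 : ℝ)) := by
        field_simp
        ring
      rw [h5]
      linarith
    · rw [uIcc_of_le (by linarith)]
      intro h0
      exact absurd h0.1 (not_le.2 hη)
  have h3 : κ * √S * (ε / 2) * ∫ r in s..(q - η), (q - r) ^ (-(3 / 2 : ℝ)) ≤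
      κ * √S * (ε / 2) * (2 / √η) := by
    apply mul_le_mul_of_nonneg_left h2
    have := Real.sqrt_nonneg S
    positivity
  have h4 : κ * √S / (2 * ε) * ∫ r in s..(q - η), y r ^ 2 ≤ κ * √S / (2 * ε) * δ := by
    apply mul_le_mul_of_nonneg_left hδ
    have := Real.sqrt_nonneg S
    positivity
  calc κ * √S * (ε / 2) * (∫ r in s..(q - η), (q - r) ^ (-(3 / 2 : ℝ))) +
        κ * √S / (2 * ε) * ∫ r in s..(q - η), y r ^ 2
      ≤ κ * √S * (ε / 2) * (2 / √η) + κ * √S / (2 * ε) * δ := add_le_add h3 h4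
    _ = κ * √S * (ε / √η + δ / (2 * ε)) := by
        field_simp

/-- the whole nonlinear part -/
private lemma critNon {κ : ℝ} (hκ : 0 ≤ κ) : ∃ δ, 0 < δ ∧ ∀ (s q S : ℝ) (y : ℝ → ℝ), s ≤ q →
    0 < S → ContinuousOn y (Icc s q) → (∀ r ∈ Icc s q, 0 ≤ y r) → (∀ r ∈ Icc s q, y r ≤ S) →
    ∫ r in s..q, y r ^ 2 ≤ δ →
    ∫ r in s..q, κ * (q - r) ^ (-(3 / 4 : ℝ)) * (√(y r) * y r) ≤ S / 3 := by
  obtain ⟨e, he⟩ : ∃ e : ℝ, e = 1 / (24 * (κ + 1)) := ⟨_, rfl⟩
  have he0 : 0 < e := by rw [he]; positivity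
  obtain ⟨l, hl⟩ : ∃ l : ℝ, l = e ^ 2 / (12 * (κ + 1)) := ⟨_, rfl⟩
  have hl0 : 0 < l := by rw [hl]; positivity
  refine ⟨l / (6 * (κ + 1)), by positivity, ?_⟩
  intro s q S y hsq hS0 hy hy0 hS hδ
  obtain ⟨η, hη⟩ : ∃ η : ℝ, η = e ^ 4 / S ^ 2 := ⟨_, rfl⟩
  have hη0 : 0 < η := by rw [hη]; positivity
  have hsη : √η = e ^ 2 / S := by
    rw [hη, show e ^ 4 / S ^ 2 = (e ^ 2 / S) ^ 2 by rw [div_pow]; ring]
    exact Real.sqrt_sq (by positivity)
  have hη4 : η ^ (1 / 4 : ℝ) = e / √S := by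
    have h1 : η = (e / √S) ^ 4 := by
      rw [hη, div_pow, show (√S) ^ 4 = ((√S) ^ 2) ^ 2 by ring, Real.sq_sqrt hS0.le]
    have h2 : 0 ≤ e / √S := by positivity
    rw [h1, ← Real.rpow_natCast, ← Real.rpow_mul h2]
    norm_num
  have hsS : √S * √S = S := Real.mul_self_sqrt hS0.le
  have hsS0 : 0 < √S := Real.sqrt_pos.2 hS0
  have hκe : 4 * κ * e ≤ 1 / 6 := by
    rw [he]
    rw [mul_one_div, div_le_div_iff₀ (by positivity) (by norm_num)]
    linarith
  -- near part
  have hnear : ∀ p, s ≤ p → p ≤ q → q - p ≤ η →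
      ∫ r in p..q, κ * (q - r) ^ (-(3 / 4 : ℝ)) * (√(y r) * y r) ≤ S / 6 := by
    intro p hsp hpq hp
    have hsub : Icc p q ⊆ Icc s q := Icc_subset_Icc_left hsp
    refine (critNear hκ hpq (hy.mono hsub) (fun r hr => hy0 r (hsub hr))
      (fun r hr => hS r (hsub hr))).trans ?_
    have h1 : (q - p) ^ (1 / 4 : ℝ) ≤ e / √S := by
      rw [← hη4]
      exact Real.rpow_le_rpow (sub_nonneg.2 hpq) hp (by norm_num)
    calc 4 * κ * (q - p) ^ (1 / 4 : ℝ) * (√S * S) ≤ 4 * κ * (e / √S) * (√S * S) := by gcongr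
      _ = 4 * κ * e * S := by field_simp
      _ ≤ 1 / 6 * S := by gcongr
      _ = S / 6 := by ring
  rcases le_or_gt (q - s) η with hcase | hcase
  · have := hnear s le_rfl hsq hcase
    linarith
  · have hsp : s ≤ q - η := by linarith
    have hpq : q - η ≤ q := by linarith
    have hsub : Icc s (q - η) ⊆ Icc s q := Icc_subset_Icc_right hpq
    have hn := hnear (q - η) hsp hpq (by linarith)
    have hd : ∫ r in s..(q - η), y r ^ 2 ≤ l / (6 * (κ + 1)) := by
      refine le_trans ?_ hδ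
      have h1 := intervalIntegral.integral_add_adjacent_intervals (μ := volume)
        (f := fun r => y r ^ 2) (a := s) (b := q - η) (c := q)
        (ContinuousOn.intervalIntegrable (by rw [uIcc_of_le hsp]; exact (hy.mono hsub).pow 2))
        (ContinuousOn.intervalIntegrable (by
          rw [uIcc_of_le hpq]; exact (hy.mono (Icc_subset_Icc_left hsp)).pow 2))
      have h2 : 0 ≤ ∫ r in (q - η)..q, y r ^ 2 :=
        intervalIntegral.integral_nonneg hpq fun r _ => sq_nonneg _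
      linarith
    have hf := critFar (ε := l / √S) hκ hη0 (by positivity) hsp (hy.mono hsub)
      (fun r hr => hy0 r (hsub hr)) (fun r hr => hS r (hsub hr)) hd
    have hsplit : ∫ r in s..q, κ * (q - r) ^ (-(3 / 4 : ℝ)) * (√(y r) * y r) =
        (∫ r in s..(q - η), κ * (q - r) ^ (-(3 / 4 : ℝ)) * (√(y r) * y r)) +
        ∫ r in (q - η)..q, κ * (q - r) ^ (-(3 / 4 : ℝ)) * (√(y r) * y r) := by
      symm
      apply intervalIntegral.integral_add_adjacent_intervals
      · apply IntervalIntegrable.mul_continuousOn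
        · exact (critII q _ _ (by norm_num)).const_mul κ
        · rw [uIcc_of_le hsp]
          exact (hy.mono hsub).sqrt.mul (hy.mono hsub)
      · apply IntervalIntegrable.mul_continuousOn
        · exact (critII q _ _ (by norm_num)).const_mul κ
        · rw [uIcc_of_le hpq]
          exact (hy.mono (Icc_subset_Icc_left hsp)).sqrt.mul (hy.mono (Icc_subset_Icc_left hsp))
    rw [hsplit]
    have hfar : κ * √S * (l / √S / √η + l / (6 * (κ + 1)) / (2 * (l / √S))) ≤ S / 6 := by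
      rw [hsη]
      have h1 : κ * √S * (l / √S / (e ^ 2 / S) + l / (6 * (κ + 1)) / (2 * (l / √S))) =
          κ * (l / e ^ 2) * S + κ * (√S * √S) / (12 * (κ + 1)) := by
        field_simp
        ring
      rw [h1, hsS]
      have h2 : l / e ^ 2 = 1 / (12 * (κ + 1)) := by
        rw [hl]
        field_simp
      rw [h2]
      have h3 : κ * (1 / (12 * (κ + 1))) * S + κ * S / (12 * (κ + 1)) =
          (κ / (κ + 1)) * (S / 6) := by
        field_simp
        ring
      rw [h3]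
      have h4 : κ / (κ + 1) ≤ 1 := by
        rw [div_le_one (by positivity)]
        linarith
      calc κ / (κ + 1) * (S / 6) ≤ 1 * (S / 6) := by gcongr
        _ = S / 6 := one_mul _
    linarith

/-- **Critical Gronwall, one step.** Proof. Let `S = max y` on `[s, t]`, attained at `q`; `S > 0` without restriction.
Put `η = min (q - s) (c / S²)`. Near part: `∫_{q-η}^q κ (q-r)^{-3/4} y^{3/2} ≤ 4 κ η^{1/4} S^{3/2} ≤ 4 κ c^{1/4} S ≤ S / 6`
if `c` is small. Far part (only if `c / S² < q - s`): `√y y ≤ √S y`, and `∫_s^{q-η} (q-r)^{-3/4} y ≤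
(∫ (q-r)^{-3/2})^{1/2} (∫ y²)^{1/2} ≤ √2 η^{-1/4} √δ` (or pointwise `u v ≤ ε u²/2 + v²/(2ε)`), in total
`≤ κ √2 c^{-1/4} √δ S ≤ S / 6`. Linear part: `m 2 √(t-s) S ≤ S / 6`. So `S ≤ A + S / 2`. -/
theorem crit_step {κ : ℝ} (hκ : 0 ≤ κ) : ∃ δ, 0 < δ ∧ ∀ (s t A m : ℝ) (y : ℝ → ℝ), s ≤ t → 0 ≤ m →
    12 * (m * √(t - s)) ≤ 1 → ContinuousOn y (Icc s t) → (∀ r ∈ Icc s t, 0 ≤ y r) →
    ∫ r in s..t, y r ^ 2 ≤ δ →
    (∀ q ∈ Icc s t, y q ≤ A + ∫ r in s..q, (κ * (q - r) ^ (-(3 / 4 : ℝ)) * (√(y r) * y r) +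
      m * (q - r) ^ (-(1 / 2 : ℝ)) * y r)) → ∀ q ∈ Icc s t, y q ≤ 2 * A := by
  obtain ⟨δ, hδ0, hmain⟩ := critNon hκ
  refine ⟨δ, hδ0, ?_⟩
  intro s t A m y hst hm hmt hy hy0 hδ h
  obtain ⟨p, hp, hmax⟩ := isCompact_Icc.exists_isMaxOn (nonempty_Icc.2 hst) hy
  have hS : ∀ r ∈ Icc s t, y r ≤ y p := fun r hr => hmax hr
  suffices hfin : y p ≤ 2 * A from fun q hq => (hS q hq).trans hfin
  have hsub : Icc s p ⊆ Icc s t := Icc_subset_Icc_right hp.2
  have hyp := hy.mono hsub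
  have hsplit : ∫ r in s..p, (κ * (p - r) ^ (-(3 / 4 : ℝ)) * (√(y r) * y r) +
      m * (p - r) ^ (-(1 / 2 : ℝ)) * y r) =
      (∫ r in s..p, κ * (p - r) ^ (-(3 / 4 : ℝ)) * (√(y r) * y r)) +
      ∫ r in s..p, m * (p - r) ^ (-(1 / 2 : ℝ)) * y r := by
    apply intervalIntegral.integral_add
    · apply IntervalIntegrable.mul_continuousOn
      · exact (critII p _ _ (by norm_num)).const_mul κ
      · rw [uIcc_of_le hp.1]
        exact hyp.sqrt.mul hyp
    · apply IntervalIntegrable.mul_continuousOn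
      · exact (critII p _ _ (by norm_num)).const_mul m
      · rw [uIcc_of_le hp.1]
        exact hyp
  have h1 := h p hp
  rw [hsplit] at h1
  have h2 := critLin hm hp.1 hyp (fun r hr => hS r (hsub hr))
  have h3 : 2 * m * √(p - s) * y p ≤ y p / 6 := by
    have h4 : √(p - s) ≤ √(t - s) := Real.sqrt_le_sqrt (by linarith [hp.2])
    have h5 : 2 * m * √(p - s) ≤ 1 / 6 := by
      have h6 : m * √(p - s) ≤ m * √(t - s) := mul_le_mul_of_nonneg_left h4 hm
      linarith
    have h6 := mul_le_mul_of_nonneg_right h5 (hy0 p hp)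
    linarith
  rcases (hy0 p hp).eq_or_lt with h0 | h0
  · -- `y = 0`
    have h4 : ∀ r ∈ Icc s p, y r = 0 := fun r hr =>
      le_antisymm ((hS r (hsub hr)).trans h0.symm.le) (hy0 r (hsub hr))
    have h5 : ∫ r in s..p, κ * (p - r) ^ (-(3 / 4 : ℝ)) * (√(y r) * y r) = 0 := by
      have : ∫ r in s..p, κ * (p - r) ^ (-(3 / 4 : ℝ)) * (√(y r) * y r) =
          ∫ _ in s..p, (0 : ℝ) := by
        apply intervalIntegral.integral_congr
        intro r hr
        rw [uIcc_of_le hp.1] at hr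
        simp only [h4 r hr, mul_zero]
      rw [this, intervalIntegral.integral_zero]
    rw [h5] at h1
    rw [← h0] at h1 h2 h3 ⊢
    linarith
  · have h4 : ∫ r in s..p, y r ^ 2 ≤ δ := by
      refine le_trans ?_ hδ
      have h5 := intervalIntegral.integral_add_adjacent_intervals (μ := volume)
        (f := fun r => y r ^ 2) (a := s) (b := p) (c := t)
        (ContinuousOn.intervalIntegrable (by rw [uIcc_of_le hp.1]; exact hyp.pow 2))
        (ContinuousOn.intervalIntegrable (by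
          rw [uIcc_of_le hp.2]; exact (hy.mono (Icc_subset_Icc_left hp.1)).pow 2))
      have h6 : 0 ≤ ∫ r in p..t, y r ^ 2 :=
        intervalIntegral.integral_nonneg hp.2 fun r _ => sq_nonneg _
      linarith
    have h5 := hmain s p (y p) y hp.1 h0 hyp (fun r hr => hy0 r (hsub hr))
      (fun r hr => hS r (hsub hr)) h4
    linarith

end Pool.Agent.Lib.MP_79abb3_an.PD
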