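import Pool.Agent.Lib.MP_79abb3_an.PD.AbNbb

/-!
Theorem D, block S: the critical Gronwall inequality (pure real analysis).
-/

set_option autoImplicit false
set_option linter.unusedSectionVars false

open MeasureTheory Set Filter Topology Function

namespace Pool.Agent.Lib.MP_79abb3_an.PD

private lemma critSq {y : ℝ → ℝ} {a p b : ℝ} (hap : a ≤ p) (hpb : p ≤ b)
    (hy : ContinuousOn y (Icc a b)) :
    (∫ r in a..p, y r ^ 2) + ∫ r in p..b, y r ^ 2 = ∫ r in a..b, y r ^ 2 :=
  intervalIntegral.integral_add_adjacent_intervals (μ := volume) (f := fun r => y r ^ 2)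
    (ContinuousOn.intervalIntegrable (by
      rw [uIcc_of_le hap]; exact (hy.mono (Icc_subset_Icc_right hpb)).pow 2))
    (ContinuousOn.intervalIntegrable (by
      rw [uIcc_of_le hpb]; exact (hy.mono (Icc_subset_Icc_left hap)).pow 2))

/-- intermediate value: a point where the energy reaches a given value -/
private lemma critIvt {y : ℝ → ℝ} {a b e : ℝ} (hab : a ≤ b) (hy : ContinuousOn y (Icc a b))
    (he0 : 0 ≤ e) (he : e ≤ (∫ r in a..b, y r ^ 2) + (b - a)) :
    ∃ p ∈ Icc a b, (∫ r in a..p, y r ^ 2) + (p - a) = e := by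
  set yy : ℝ → ℝ := IccExtend hab ((Icc a b).domRestrict y) with hyy
  have hyc : Continuous yy := (continuousOn_iff_continuous_domRestrict.1 hy).Icc_extend'
  have hye : ∀ r ∈ Icc a b, yy r = y r := fun r hr => by
    rw [hyy, IccExtend_of_mem hab _ hr]; rfl
  have hint : ∀ p ∈ Icc a b, ∫ r in a..p, yy r ^ 2 = ∫ r in a..p, y r ^ 2 := by
    intro p hp
    apply intervalIntegral.integral_congr
    intro x hx
    rw [uIcc_of_le hp.1] at hx
    simp only [hye x ⟨hx.1, hx.2.trans hp.2⟩]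
  have hc : Continuous fun p => (∫ r in a..p, yy r ^ 2) + (p - a) := by
    apply Continuous.add
    · exact intervalIntegral.continuous_primitive
        (fun u v => (hyc.pow 2).intervalIntegrable u v) a
    · fun_prop
  have h1 := intermediate_value_Icc hab hc.continuousOn
  have h2 : e ∈ Icc ((∫ r in a..a, yy r ^ 2) + (a - a)) ((∫ r in a..b, yy r ^ 2) + (b - a)) := by
    rw [intervalIntegral.integral_same, sub_self, add_zero, hint b (right_mem_Icc.2 hab)]
    exact ⟨he0, he⟩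
  obtain ⟨p, hp, hpe⟩ := h1 h2
  refine ⟨p, hp, ?_⟩
  rw [← hint p hp]
  exact hpe

/-- **Critical Gronwall.** Proof. Put `δ' = min δ (1 / (144 (m² + 1)))`. By induction on `n`: if
`∫_s^b y² + (b - s) ≤ n δ'` then `y ≤ 2^n (y s + 2 F)` on `[s, b]`. Step: if `∫_s^b y² + (b - s) ≤ δ'` use `crit_step` with
`A = y s + F`; otherwise there is `q` with `∫_s^q y² + (q - s) = δ'` (intermediate value theorem), `crit_step` on
`[s, q]`, the hypothesis on `[q, b]`. -/
theorem crit_bound {κ m F E l : ℝ} (hκ : 0 ≤ κ) (hm : 0 ≤ m) (hF : 0 ≤ F) :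
    ∃ n : ℕ, ∀ (a b : ℝ) (y : ℝ → ℝ), a ≤ b → b - a ≤ l → ContinuousOn y (Icc a b) →
    (∀ r ∈ Icc a b, 0 ≤ y r) → ∫ r in a..b, y r ^ 2 ≤ E →
    (∀ s q, a ≤ s → s ≤ q → q ≤ b → y q ≤ y s + F + ∫ r in s..q, (κ * (q - r) ^ (-(3 / 4 : ℝ)) *
      (√(y r) * y r) + m * (q - r) ^ (-(1 / 2 : ℝ)) * y r)) →
    ∀ q ∈ Icc a b, y q ≤ 2 ^ n * (y a + 2 * F) := by
  obtain ⟨δ, hδ0, hstep⟩ := crit_step hκ
  obtain ⟨e, he⟩ : ∃ e : ℝ, e = min δ (1 / (144 * (m ^ 2 + 1))) := ⟨_, rfl⟩
  have he0 : 0 < e := by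
    rw [he]
    exact lt_min hδ0 (by positivity)
  have heδ : e ≤ δ := by rw [he]; exact min_le_left _ _
  have hem : e ≤ 1 / (144 * (m ^ 2 + 1)) := by rw [he]; exact min_le_right _ _
  have hsq : ∀ d : ℝ, 0 ≤ d → d ≤ e → 12 * (m * √d) ≤ 1 := by
    intro d hd0 hd
    have h1 : d * (144 * (m ^ 2 + 1)) ≤ 1 := by
      have := hd.trans hem
      rwa [le_div_iff₀ (by positivity)] at this
    have h2 : (12 * (m * √d)) ^ 2 ≤ 1 ^ 2 := by
      have h3 : (12 * (m * √d)) ^ 2 = 144 * (m ^ 2 * (√d) ^ 2) := by ring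
      rw [h3, Real.sq_sqrt hd0]
      nlinarith
    exact abs_le_of_sq_le_sq' h2 (by norm_num) |>.2
  -- the induction
  have hind : ∀ (n : ℕ) (a b : ℝ) (y : ℝ → ℝ), a ≤ b → ContinuousOn y (Icc a b) →
      (∀ r ∈ Icc a b, 0 ≤ y r) → (∫ r in a..b, y r ^ 2) + (b - a) ≤ n * e →
      (∀ s q, a ≤ s → s ≤ q → q ≤ b → y q ≤ y s + F + ∫ r in s..q,
        (κ * (q - r) ^ (-(3 / 4 : ℝ)) * (√(y r) * y r) + m * (q - r) ^ (-(1 / 2 : ℝ)) * y r)) →
      ∀ q ∈ Icc a b, y q + 2 * F ≤ 2 ^ n * (y a + 2 * F) := by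
    intro n
    induction n with
    | zero =>
      intro a b y hab hy hy0 hE _ q hq
      have h1 : 0 ≤ ∫ r in a..b, y r ^ 2 :=
        intervalIntegral.integral_nonneg hab fun r _ => sq_nonneg _
      have h2 : b = a := by
        simp only [Nat.cast_zero, zero_mul] at hE
        linarith
      have h3 : q = a := by
        have h4 := hq.1
        have h5 := hq.2
        linarith
      rw [h3, pow_zero, one_mul]
    | succ n ih =>
      intro a b y hab hy hy0 hE h q hq
      have hya : 0 ≤ y a := hy0 a (left_mem_Icc.2 hab)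
      have h2n : (1 : ℝ) ≤ 2 ^ n := one_le_pow₀ (by norm_num)
      rcases le_or_gt ((∫ r in a..b, y r ^ 2) + (b - a)) e with hc | hc
      · have h1 : 0 ≤ ∫ r in a..b, y r ^ 2 :=
          intervalIntegral.integral_nonneg hab fun r _ => sq_nonneg _
        have h2 := hstep a b (y a + F) m y hab hm (hsq _ (by linarith) (by linarith)) hy hy0
          (by linarith) (fun q hq => h a q le_rfl hq.1 hq.2) q hq
        rw [pow_succ]
        nlinarith
      · obtain ⟨p, hp, hpe⟩ := critIvt hab hy he0.le hc.le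
        have h1 : 0 ≤ ∫ r in a..p, y r ^ 2 :=
          intervalIntegral.integral_nonneg hp.1 fun r _ => sq_nonneg _
        have hsub : Icc a p ⊆ Icc a b := Icc_subset_Icc_right hp.2
        have hsub2 : Icc p b ⊆ Icc a b := Icc_subset_Icc_left hp.1
        have hfirst : ∀ q ∈ Icc a p, y q ≤ 2 * (y a + F) := by
          have h3 := hp.1
          exact hstep a p (y a + F) m y hp.1 hm (hsq _ (by linarith) (by linarith))
            (hy.mono hsub) (fun r hr => hy0 r (hsub hr)) (by linarith)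
            (fun q hq => h a q le_rfl hq.1 (hq.2.trans hp.2))
        rcases le_or_gt q p with hqp | hqp
        · have h2 := hfirst q ⟨hq.1, hqp⟩
          rw [pow_succ]
          nlinarith
        · have h3 := critSq hp.1 hp.2 hy
          have h4 := ih p b y hp.2 (hy.mono hsub2) (fun r hr => hy0 r (hsub2 hr)) (by
            push_cast at hE
            linarith) (fun s q hs hsq hq => h s q (hp.1.trans hs) hsq hq) q ⟨hqp.le, hq.2⟩
          have h5 := hfirst p (right_mem_Icc.2 hp.1)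
          have h6 : y p + 2 * F ≤ 2 * (y a + 2 * F) := by linarith
          have h7 : (2 : ℝ) ^ n * (y p + 2 * F) ≤ 2 ^ n * (2 * (y a + 2 * F)) :=
            mul_le_mul_of_nonneg_left h6 (by positivity)
          rw [pow_succ]
          linarith
  refine ⟨⌈(E + l) / e⌉₊, ?_⟩
  intro a b y hab hl hy hy0 hE h q hq
  have h1 : (∫ r in a..b, y r ^ 2) + (b - a) ≤ (⌈(E + l) / e⌉₊ : ℝ) * e := by
    have h2 : (E + l) / e ≤ (⌈(E + l) / e⌉₊ : ℝ) := Nat.le_ceil _
    rw [div_le_iff₀ he0] at h2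
    linarith
  have h2 := hind _ a b y hab hy hy0 h1 h q hq
  linarith

end Pool.Agent.Lib.MP_79abb3_an.PD
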