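import Pool.Agent.Lib.MP_79abb3_an.PD.AbNab
import Pool.Agent.Lib.MP_79abb3_an.PD.AbNbc
import Pool.Agent.Lib.MP_79abb3_an.PD.AbNb

/-!
Theorem D, block S, abstract part: uniform bounds and continuous dependence in the strong norm.
-/

set_option autoImplicit false
set_option linter.unusedSectionVars false

open MeasureTheory Set Filter Topology Function
open scoped ENNReal InnerProductSpace ComplexConjugate

namespace Pool.Agent.Lib.MP_79abb3_an.PD

open Pool.Agent.Lib.MP_79abb3_an.SC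

section
variable {X Y : Type} [NormedAddCommGroup X] [InnerProductSpace ℂ X] [CompleteSpace X]
  [NormedAddCommGroup Y] [NormedSpace ℂ Y]
variable {K : X →L[ℂ] X} {J3 : Y →L[ℂ] X} {N : X →L[ℂ] X →L[ℂ] Y} {C : ℝ} {f : ℝ → X}
  {B : ℝ → X →L[ℂ] X} {a b : ℝ} {x₀ y₀ : X} {x y : ℝ → X} {cX : X →L[ℝ] X} {cY : Y →L[ℝ] Y}

/-- **Uniform bound in the strong norm.** Proof. `exists_good` for `‖x‖²` on `[a, a + d]`, then `Slv.norm_le` and
`crit_bound` from this time on. -/
theorem Slv.unif (h : NSA K J3 N C) {U F M E l d : ℝ} (hd : 0 < d) : ∃ R : ℝ, 0 ≤ R ∧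
    ∀ {f : ℝ → X} {B : ℝ → X →L[ℂ] X} {a b : ℝ} {x₀ : X} {x : ℝ → X}, b - a ≤ l → a + d ≤ b →
    ContinuousOn f (Icc a b) → ContinuousOn B (Icc a b) → (∀ t ∈ Icc a b, ‖f t‖ ≤ F) →
    (∀ t ∈ Icc a b, ‖B t‖ ≤ M) → Slv K J3 N f B a b x₀ x → (∀ t ∈ Icc a b, ‖Kh K (x t)‖ ≤ U) →
    ∫ r in a..b, ‖x r‖ ^ 2 ≤ E → ∀ t ∈ Icc (a + d) b, ‖x t‖ ≤ R := by
  set U' := max U 0 with hU'
  set F' := max F 0 with hF'
  set M' := max M 0 with hM'
  set l' := max l 0 with hl'
  have hU0 : 0 ≤ U' := le_max_right _ _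
  have hF0 : 0 ≤ F' := le_max_right _ _
  have hM0 : 0 ≤ M' := le_max_right _ _
  have hl0 : 0 ≤ l' := le_max_right _ _
  have hC0 := h.C0
  set F1 := 2 * F' * √l' with hF1
  have hF10 : 0 ≤ F1 := by positivity
  obtain ⟨n, hn⟩ := crit_bound (κ := C ^ 2 * √U') (m := M') (F := F1) (E := E) (l := l)
    (by positivity) hM0 hF10
  refine ⟨2 ^ n * (√(E / d) + 2 * F1), by positivity, ?_⟩
  intro f B a b x₀ x hl hab hf hB hfF hBM hx hUx hE t ht
  have hc : ContinuousOn x (Icc a b) := hx.cont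
  have hc2 : ContinuousOn (fun r => ‖x r‖ ^ 2) (Icc a b) := hc.norm.pow 2
  have hii : ∀ p q, a ≤ p → p ≤ q → q ≤ b →
      IntervalIntegrable (fun r => ‖x r‖ ^ 2) volume p q := fun p q h1 h2 h3 => by
    apply ContinuousOn.intervalIntegrable
    rw [uIcc_of_le h2]
    exact hc2.mono (Icc_subset_Icc h1 h3)
  have hsub : ∀ p q, a ≤ p → p ≤ q → q ≤ b → ∫ r in p..q, ‖x r‖ ^ 2 ≤ E := by
    intro p q h1 h2 h3
    refine le_trans ?_ hE
    have e1 := intervalIntegral.integral_add_adjacent_intervals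
      (hii a p le_rfl h1 (h2.trans h3)) (hii p b h1 (h2.trans h3) le_rfl)
    have e2 := intervalIntegral.integral_add_adjacent_intervals
      (hii p q h1 h2 h3) (hii q b (h1.trans h2) h3 le_rfl)
    have e3 : 0 ≤ ∫ r in a..p, ‖x r‖ ^ 2 :=
      intervalIntegral.integral_nonneg h1 fun r _ => by positivity
    have e4 : 0 ≤ ∫ r in q..b, ‖x r‖ ^ 2 :=
      intervalIntegral.integral_nonneg h3 fun r _ => by positivity
    linarith
  have had : a ≤ a + d := by linarith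
  obtain ⟨s, hs, hsE⟩ := exists_good (a := a) (b := a + d) (E := E) (by linarith)
    (hc2.mono (Icc_subset_Icc le_rfl hab)) (hsub a (a + d) le_rfl had hab)
  rw [add_sub_cancel_left] at hsE
  have hs1 : ‖x s‖ ≤ √(E / d) := by
    have := Real.abs_le_sqrt hsE
    rwa [abs_of_nonneg (norm_nonneg _)] at this
  have hst : s ≤ t := hs.2.trans ht.1
  have hsb : s ≤ b := hst.trans ht.2
  have key := hn s b (fun r => ‖x r‖) hsb (by linarith [hs.1])
    (hc.norm.mono (Icc_subset_Icc hs.1 le_rfl)) (fun r _ => norm_nonneg _)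
    (hsub s b hs.1 hsb le_rfl) (fun p q h1 h2 h3 => by
      have h4 := Slv.norm_le h hf hB hx (U := U') (F := F') (M := M')
        (fun t ht => (hUx t ht).trans (le_max_left _ _))
        (fun t ht => (hfF t ht).trans (le_max_left _ _))
        (fun t ht => (hBM t ht).trans (le_max_left _ _)) (hs.1.trans h1) h2 h3
      refine h4.trans ?_
      have h5 : 2 * F' * √(q - p) ≤ F1 := by
        rw [hF1]
        have : √(q - p) ≤ √l' := Real.sqrt_le_sqrt (le_trans (by linarith [hs.1]) (le_max_left l 0))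
        exact mul_le_mul_of_nonneg_left this (by positivity)
      linarith) t ⟨hst, ht.2⟩
  refine key.trans ?_
  have : (0 : ℝ) ≤ 2 ^ n := by positivity
  exact mul_le_mul_of_nonneg_left (by linarith) this

/-- **Continuous dependence in the strong norm.** Proof. Restart at `s`; `‖Φ r x - Φ r y‖ ≤ C' ‖x - y‖` for bounded `x`, `y`
(`Nl.lip`, or directly with `‖N‖`), `kth_gron` as in `Mild.unique`. -/
theorem Slv.lip (h : NSA K J3 N C) {R M l : ℝ} : ∃ D : ℝ, 0 ≤ D ∧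
    ∀ {f : ℝ → X} {B : ℝ → X →L[ℂ] X} {a b : ℝ} {x₀ y₀ : X} {x y : ℝ → X}, b - a ≤ l →
    ContinuousOn f (Icc a b) → ContinuousOn B (Icc a b) → (∀ t ∈ Icc a b, ‖B t‖ ≤ M) →
    Slv K J3 N f B a b x₀ x → Slv K J3 N f B a b y₀ y → (∀ t ∈ Icc a b, ‖x t‖ ≤ R ∧ ‖y t‖ ≤ R) →
    ∀ s t, a ≤ s → s ≤ t → t ≤ b → ‖x t - y t‖ ≤ D * ‖x s - y s‖ := by
  have hk := h.ker
  set P := 2 * ‖N‖ * |R| + |M| with hP
  have hP0 : 0 ≤ P := by positivity
  have hC0 := h.C0
  obtain ⟨μ, hμ, hg⟩ := kth_gron (θ := 3 / 4) (by norm_num) (by norm_num)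
    (B := (C + 1) * P) (by positivity)
  refine ⟨2 * Real.exp (μ * l), by positivity, ?_⟩
  intro f B a b x₀ y₀ x y hl hf hB hBM hx hy hR s t hs hst ht
  obtain ⟨M', hΦ⟩ := Pb_nl N hf hB
  have hsb : s ∈ Icc a b := ⟨hs, hst.trans ht⟩
  have hxs : Mild (Sg K) (Lc K J3) (Pb N f B) s b (x s) x := Mild.restart hk hΦ hx hsb
  have hys : Mild (Sg K) (Lc K J3) (Pb N f B) s b (y s) y := Mild.restart hk hΦ hy hsb
  have hΦs : Nl (Pb N f B) M' s b := hΦ.mono hs le_rfl
  have hlip : ∀ r ∈ Icc a b, ‖Pb N f B r (x r) - Pb N f B r (y r)‖ ≤ P * ‖x r - y r‖ := by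
    intro r hr
    have hR1 : ‖x r‖ ≤ |R| := ((hR r hr).1).trans (le_abs_self _)
    have hR2 : ‖y r‖ ≤ |R| := ((hR r hr).2).trans (le_abs_self _)
    have hM1 : ‖B r‖ ≤ |M| := (hBM r hr).trans (le_abs_self _)
    have e1 : Pb N f B r (x r) - Pb N f B r (y r) =
        (N (x r) (x r - y r) + N (x r - y r) (y r), B r (x r - y r)) := by
      unfold Pb
      rw [Prod.mk_sub_mk, map_sub, map_sub, map_sub]
      congr 1
      · rw [sub_apply]
        abel
      · abel
    rw [e1, Prod.norm_mk]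
    have n0 := norm_nonneg (x r - y r)
    have b1 : ‖N (x r) (x r - y r) + N (x r - y r) (y r)‖ ≤ 2 * ‖N‖ * |R| * ‖x r - y r‖ := by
      refine (norm_add_le _ _).trans ?_
      have c1 : ‖N (x r) (x r - y r)‖ ≤ ‖N‖ * |R| * ‖x r - y r‖ := by
        refine (N.le_opNorm₂ _ _).trans ?_
        gcongr
      have c2 : ‖N (x r - y r) (y r)‖ ≤ ‖N‖ * |R| * ‖x r - y r‖ := by
        refine (N.le_opNorm₂ _ _).trans ?_
        calc ‖N‖ * ‖x r - y r‖ * ‖y r‖ ≤ ‖N‖ * ‖x r - y r‖ * |R| := by gcongr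
          _ = ‖N‖ * |R| * ‖x r - y r‖ := by ring
      linarith
    have b2 : ‖B r (x r - y r)‖ ≤ |M| * ‖x r - y r‖ := by
      refine ((B r).le_opNorm _).trans ?_
      gcongr
    have b3 : 0 ≤ |M| * ‖x r - y r‖ := by positivity
    have b4 : 0 ≤ 2 * ‖N‖ * |R| * ‖x r - y r‖ := by positivity
    have b5 : P * ‖x r - y r‖ = 2 * ‖N‖ * |R| * ‖x r - y r‖ + |M| * ‖x r - y r‖ := by
      rw [hP]; ring
    rw [b5]
    exact max_le (by linarith) (by linarith)
  have key := hg s b ‖x s - y s‖ (fun t => ‖x t - y t‖) (norm_nonneg _)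
    (hxs.cont.sub hys.cont).norm (fun t _ => norm_nonneg _) (fun t ht => by
      have hfx := hΦs.cont_comp hxs.cont
      have hfy := hΦs.cont_comp hys.cont
      have h1 : x t - y t = Sg K (t - s) (x s - y s) +
          ∫ r in s..t, Lc K J3 (t - r) (Pb N f B r (x r) - Pb N f B r (y r)) := by
        rw [hxs.eq t ht, hys.eq t ht]
        simp only [map_sub]
        rw [intervalIntegral.integral_sub (hk.int_aux hfx ht ⟨le_rfl, ht.1⟩)
          (hk.int_aux hfy ht ⟨le_rfl, ht.1⟩)]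
        abel
      have h2 := hk.duh_norm (hfx.sub hfy) ht (c := s) ⟨le_rfl, ht.1⟩
      show ‖x t - y t‖ ≤ _
      rw [h1]
      refine (norm_add_le _ _).trans (add_le_add (hk.sb _ (sub_nonneg.2 ht.1) _) ?_)
      refine h2.trans ?_
      rw [mul_assoc (C + 1)]
      refine mul_le_mul_of_nonneg_left ?_ (by positivity)
      rw [← intervalIntegral.integral_const_mul]
      have hsub : Icc s t ⊆ Icc s b := Icc_subset_Icc le_rfl ht.2
      have e1 : ContinuousOn (fun r => ‖Pb N f B r (x r) - Pb N f B r (y r)‖) (uIcc s t) := by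
        rw [uIcc_of_le ht.1]; exact ((hfx.sub hfy).mono hsub).norm
      have e2 : ContinuousOn (fun r => ‖x r - y r‖) (uIcc s t) := by
        rw [uIcc_of_le ht.1]; exact ((hxs.cont.sub hys.cont).mono hsub).norm
      refine intervalIntegral.integral_mono_on ht.1
        ((kth_int' hk.th1 t s t).mul_continuousOn e1)
        (((kth_int' hk.th1 t s t).mul_continuousOn e2).const_mul _) fun r hr => ?_
      have hr' : r ∈ Icc a b := ⟨hs.trans hr.1, (hsub hr).2⟩
      calc kth (3 / 4) (t - r) * ‖Pb N f B r (x r) - Pb N f B r (y r)‖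
          ≤ kth (3 / 4) (t - r) * (P * ‖x r - y r‖) :=
            mul_le_mul_of_nonneg_left (hlip r hr') (kth_nonneg _ (sub_nonneg.2 hr.2))
        _ = P * (kth (3 / 4) (t - r) * ‖x r - y r‖) := by ring) t ⟨hst, ht⟩
  refine key.trans ?_
  have h3 : Real.exp (μ * (t - s)) ≤ Real.exp (μ * l) :=
    Real.exp_le_exp.2 (mul_le_mul_of_nonneg_left (by linarith) hμ.le)
  have h4 := norm_nonneg (x s - y s)
  nlinarith [mul_le_mul_of_nonneg_left h3 h4]

end

end Pool.Agent.Lib.MP_79abb3_an.PD
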