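import Pool.Agent.Lib.MP_79abb3_an.PD.AbNca
import Pool.Agent.Lib.MP_79abb3_an.PD.AbNbc

/-!
Theorem D, block S, abstract part: global existence, smoothing.
-/

set_option autoImplicit false
set_option linter.unusedSectionVars false

open MeasureTheory Set Filter Topology Function
open scoped ENNReal InnerProductSpace ComplexConjugate

namespace Pool.Agent.Lib.MP_79abb3_an.PD

open Pool.Agent.Lib.MP_79abb3_an.SC

section
variable {X Y : Type} [NormedAddCommGroup X] [InnerProductSpace ℂ X] [CompleteSpace X]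
  [NormedAddCommGroup Y] [NormedSpace ℂ Y]
variable {K : X →L[ℂ] X} {J3 : Y →L[ℂ] X} {N : X →L[ℂ] X →L[ℂ] Y} {C : ℝ} {f : ℝ → X}
  {B : ℝ → X →L[ℂ] X} {a b : ℝ} {x₀ y₀ : X} {x y : ℝ → X} {cX : X →L[ℝ] X} {cY : Y →L[ℝ] Y}

/-- **Global existence.** Proof. `Ker.global` with `NSA.ker`, `Pb_nl`; a priori bound on `[a, c]`: `Slv.real`,
`Slv.en_bd`, `Slv.norm_le`, `crit_bound`. -/
theorem NSA.global (h : NSA K J3 N C) (r : NSR K J3 N cX cY) (hab : a ≤ b)
    (hf : ContinuousOn f (Icc a b)) (hB : ContinuousOn B (Icc a b))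
    (hfr : ∀ t ∈ Icc a b, cX (f t) = f t) (hBr : ∀ t ∈ Icc a b, ∀ x, cX (B t x) = B t (cX x))
    (h0 : cX x₀ = x₀) : ∃ x, Slv K J3 N f B a b x₀ x ∧ ∀ t ∈ Icc a b, cX (x t) = x t := by
  obtain ⟨M, hM⟩ := Pb_nl N hf hB
  obtain ⟨F, hF⟩ := isCompact_Icc.exists_bound_of_continuousOn hf
  obtain ⟨MB, hMB⟩ := isCompact_Icc.exists_bound_of_continuousOn hB
  have haa : a ∈ Icc a b := ⟨le_rfl, hab⟩
  have hF0 : 0 ≤ F := (norm_nonneg _).trans (hF a haa)
  have hMB0 : 0 ≤ MB := (norm_nonneg _).trans (hMB a haa)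
  set E : ℝ := (‖Kh K x₀‖ ^ 2 + (b - a) * F) * Real.exp ((b - a) * (F + MB ^ 2)) with hE
  have hba : 0 ≤ b - a := sub_nonneg.2 hab
  have hE0 : 0 ≤ E := by positivity
  obtain ⟨n, hn⟩ := crit_bound (κ := C ^ 2 * √(√E)) (m := MB) (F := 2 * F * √(b - a)) (E := E)
    (l := b - a) (by positivity) hMB0 (by positivity)
  have hap : ∀ c ∈ Icc a b, ∀ x, Mild (Sg K) (Lc K J3) (Pb N f B) a c x₀ x →
      ‖x c‖ ≤ 2 ^ n * (‖x₀‖ + 2 * (2 * F * √(b - a))) := by
    intro c hc x hx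
    have hsub : Icc a c ⊆ Icc a b := Icc_subset_Icc_right hc.2
    have hf' := hf.mono hsub
    have hB' := hB.mono hsub
    have hx' : Slv K J3 N f B a c x₀ x := hx
    have hxa : x a = x₀ := Mild.init h.ker hx hc.1
    have hreal := Slv.real h r hf' hB' (fun t ht => hfr t (hsub ht)) (fun t ht => hBr t (hsub ht))
      hx' h0
    have hen := Slv.en_bd h r hf' hB' hx' hreal
    have hcx : ContinuousOn x (Icc a c) := hx.cont
    have hbd : ∀ t ∈ Icc a c, ‖Kh K (x t)‖ ^ 2 + ∫ r in a..t, ‖x r‖ ^ 2 ≤ E := by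
      intro t ht
      refine (hen t ht).trans ?_
      rw [hxa, hE]
      have htb : t - a ≤ b - a := by linarith [ht.2, hc.2]
      have hta : 0 ≤ t - a := sub_nonneg.2 ht.1
      have i1 : ∫ r in a..t, ‖f r‖ ≤ (b - a) * F := by
        have h1 : ∫ r in a..t, ‖f r‖ ≤ ∫ _ in a..t, F := by
          apply intervalIntegral.integral_mono_on ht.1
          · apply ContinuousOn.intervalIntegrable
            rw [uIcc_of_le ht.1]
            exact (hf'.mono (Icc_subset_Icc_right ht.2)).norm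
          · exact intervalIntegrable_const
          · intro r hr
            exact hF r (hsub ⟨hr.1, hr.2.trans ht.2⟩)
        rw [intervalIntegral.integral_const, smul_eq_mul] at h1
        exact h1.trans (mul_le_mul_of_nonneg_right htb hF0)
      have i2 : ∫ r in a..t, (‖f r‖ + ‖B r‖ ^ 2) ≤ (b - a) * (F + MB ^ 2) := by
        have h1 : ∫ r in a..t, (‖f r‖ + ‖B r‖ ^ 2) ≤ ∫ _ in a..t, (F + MB ^ 2) := by
          apply intervalIntegral.integral_mono_on ht.1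
          · apply ContinuousOn.intervalIntegrable
            rw [uIcc_of_le ht.1]
            exact ((hf'.mono (Icc_subset_Icc_right ht.2)).norm).add
              ((hB'.mono (Icc_subset_Icc_right ht.2)).norm.pow 2)
          · exact intervalIntegrable_const
          · intro r hr
            have hr' := hsub (⟨hr.1, hr.2.trans ht.2⟩ : r ∈ Icc a c)
            exact add_le_add (hF r hr') (pow_le_pow_left₀ (norm_nonneg _) (hMB r hr') 2)
        rw [intervalIntegral.integral_const, smul_eq_mul] at h1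
        exact h1.trans (mul_le_mul_of_nonneg_right htb (by positivity))
      have i0 : 0 ≤ ∫ r in a..t, ‖f r‖ :=
        intervalIntegral.integral_nonneg ht.1 fun _ _ => norm_nonneg _
      exact mul_le_mul (by linarith) (Real.exp_le_exp.2 i2) (Real.exp_pos _).le (by positivity)
    have hint : ∀ t ∈ Icc a c, 0 ≤ ∫ r in a..t, ‖x r‖ ^ 2 := fun t ht =>
      intervalIntegral.integral_nonneg ht.1 fun _ _ => by positivity
    have hU : ∀ t ∈ Icc a c, ‖Kh K (x t)‖ ≤ √E := by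
      intro t ht
      apply Real.le_sqrt_of_sq_le
      linarith [hbd t ht, hint t ht]
    have hcc : c ∈ Icc a c := ⟨hc.1, le_rfl⟩
    have hfin := hn a c (fun t => ‖x t‖) hc.1 (by linarith [hc.2]) hcx.norm
      (fun _ _ => norm_nonneg _) (by
        have h1 := hbd c hcc
        have h2 := sq_nonneg ‖Kh K (x c)‖
        linarith) (by
        intro s q hs hsq hq
        have h1 := Slv.norm_le h hf' hB' hx' hU (fun t ht => hF t (hsub ht))
          (fun t ht => hMB t (hsub ht)) hs hsq hq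
        have h2 : 2 * F * √(q - s) ≤ 2 * F * √(b - a) := by
          apply mul_le_mul_of_nonneg_left _ (by positivity)
          exact Real.sqrt_le_sqrt (by linarith [hc.2])
        linarith) c hcc
    simp only [hxa] at hfin
    exact hfin
  obtain ⟨x, hx⟩ := Ker.global h.ker hab hM x₀ hap
  exact ⟨x, hx, Slv.real h r hf hB hfr hBr hx h0⟩

/-- **Smoothing.** Proof. Energy: `‖Kh x t‖² + 2 ∫_a^t ‖x‖² = ‖Kh x a‖²`. `exists_good` on `[(a+t)/2, t]` gives `s` with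
`‖x s‖² ≤ ‖Kh x a‖² / (t - a)`; `crit_step` (with `m = 0`, `κ = C²`, for `‖Kh x a‖ ≤ 1`) on `[s, t]`. -/
theorem Slv.smooth (h : NSA K J3 N C) (r : NSR K J3 N cX cY) : ∃ δ : ℝ, 0 < δ ∧
    ∀ {a b : ℝ} {x₀ : X} {x : ℝ → X}, Slv K J3 N (fun _ => 0) (fun _ => 0) a b x₀ x →
    (∀ t ∈ Icc a b, cX (x t) = x t) → ‖Kh K (x a)‖ ≤ δ → ∀ t ∈ Icc a b, ‖Kh K (x t)‖ ≤ ‖Kh K (x a)‖ ∧
      √(t - a) * ‖x t‖ ≤ 2 * ‖Kh K (x a)‖ := by
  obtain ⟨δ₀, hδ₀, hcrit⟩ := crit_step (κ := C ^ 2) (by positivity)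
  refine ⟨min 1 (√δ₀), lt_min one_pos (Real.sqrt_pos.2 hδ₀), ?_⟩
  intro a b x₀ x hx hreal hδ t ht
  have hf0 : ContinuousOn (fun _ : ℝ => (0 : X)) (Icc a b) := continuousOn_const
  have hB0 : ContinuousOn (fun _ : ℝ => (0 : X →L[ℂ] X)) (Icc a b) := continuousOn_const
  have hen : ∀ t ∈ Icc a b, ‖Kh K (x t)‖ ^ 2 + ∫ r in a..t, ‖x r‖ ^ 2 ≤ ‖Kh K (x a)‖ ^ 2 := by
    intro t ht
    have h1 := Slv.en_bd h r hf0 hB0 hx hreal t ht
    simpa using h1
  have hcx : ContinuousOn x (Icc a b) := Mild.cont hx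
  have hint : ∀ t ∈ Icc a b, 0 ≤ ∫ r in a..t, ‖x r‖ ^ 2 := fun t ht =>
    intervalIntegral.integral_nonneg ht.1 fun _ _ => by positivity
  have hKh : ∀ t ∈ Icc a b, ‖Kh K (x t)‖ ≤ ‖Kh K (x a)‖ := by
    intro t ht
    apply le_of_sq_le_sq _ (norm_nonneg _)
    linarith [hen t ht, hint t ht]
  refine ⟨hKh t ht, ?_⟩
  rcases eq_or_lt_of_le ht.1 with hta | hta
  · rw [← hta, sub_self, Real.sqrt_zero, zero_mul]
    positivity
  have hsub : Icc a t ⊆ Icc a b := Icc_subset_Icc_right ht.2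
  have hE : ∫ r in a..t, ‖x r‖ ^ 2 ≤ ‖Kh K (x a)‖ ^ 2 := by
    have h1 := hen t ht
    have h2 := sq_nonneg ‖Kh K (x t)‖
    linarith
  obtain ⟨s, hs, hxs⟩ := exists_good (y := fun r => ‖x r‖ ^ 2) hta
    ((hcx.mono hsub).norm.pow 2) hE
  have hst : s ≤ t := hs.2
  have hss : Icc s t ⊆ Icc a b := fun r hr => ⟨hs.1.trans hr.1, hr.2.trans ht.2⟩
  have hii : ∀ u v, a ≤ u → u ≤ v → v ≤ b → IntervalIntegrable (fun r => ‖x r‖ ^ 2) volume u v := by
    intro u v hu huv hv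
    apply ContinuousOn.intervalIntegrable
    rw [uIcc_of_le huv]
    exact (hcx.mono fun r hr => ⟨hu.trans hr.1, hr.2.trans hv⟩).norm.pow 2
  have hP : ‖Kh K (x a)‖ ^ 2 ≤ δ₀ := by
    have h1 : ‖Kh K (x a)‖ ≤ √δ₀ := hδ.trans (min_le_right _ _)
    calc ‖Kh K (x a)‖ ^ 2 ≤ (√δ₀) ^ 2 := pow_le_pow_left₀ (norm_nonneg _) h1 2
      _ = δ₀ := Real.sq_sqrt hδ₀.le
  have hsplit : (∫ r in a..s, ‖x r‖ ^ 2) + ∫ r in s..t, ‖x r‖ ^ 2 = ∫ r in a..t, ‖x r‖ ^ 2 :=
    intervalIntegral.integral_add_adjacent_intervals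
      (hii a s le_rfl hs.1 (hst.trans ht.2)) (hii s t hs.1 hst ht.2)
  have h2 := hcrit s t ‖x s‖ 0 (fun r => ‖x r‖) hst le_rfl (by simp) (hcx.mono hss).norm
    (fun _ _ => norm_nonneg _) (by
      have h1 := hint s ⟨hs.1, hst.trans ht.2⟩
      linarith) (by
      intro q hq
      have h1 := Slv.norm_le h hf0 hB0 hx (U := 1) (F := 0) (M := 0)
        (fun t ht => (hKh t ht).trans (hδ.trans (min_le_left _ _))) (fun t ht => by simp)
        (fun t ht => by simp) hs.1 hq.1 (hq.2.trans ht.2)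
      simpa using h1) t ⟨hst, le_rfl⟩
  have hta' : 0 < t - a := sub_pos.2 hta
  have h3 : (√(t - a) * ‖x s‖) ^ 2 ≤ ‖Kh K (x a)‖ ^ 2 := by
    rw [mul_pow, Real.sq_sqrt hta'.le]
    have := (le_div_iff₀ hta').1 hxs
    linarith
  have h4 : √(t - a) * ‖x s‖ ≤ ‖Kh K (x a)‖ := le_of_sq_le_sq h3 (norm_nonneg _)
  calc √(t - a) * ‖x t‖ ≤ √(t - a) * (2 * ‖x s‖) :=
        mul_le_mul_of_nonneg_left h2 (Real.sqrt_nonneg _)
    _ = 2 * (√(t - a) * ‖x s‖) := by ring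
    _ ≤ 2 * ‖Kh K (x a)‖ := by linarith

end

end Pool.Agent.Lib.MP_79abb3_an.PD
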