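import Pool.Agent.Lib.MP_79abb3_an.PD.AbNab
import Pool.Agent.Lib.MP_79abb3_an.PD.AbNb

/-!
Theorem D, block S, abstract part: energy bound.
-/

set_option autoImplicit false
set_option linter.unusedSectionVars false

open MeasureTheory Set Filter Topology Function
open scoped ENNReal InnerProductSpace ComplexConjugate

namespace Pool.Agent.Lib.MP_79abb3_an.PD

open Pool.Agent.Lib.MP_79abb3_an.SC

section
variable {X Y : Type} [NormedAddCommGroup X] [InnerProductSpace ℂ X] [CompleteSpace X]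
  [NormedAddCommGroup Y] [NormedSpace ℂ Y]
variable {K : X →L[ℂ] X} {J3 : Y →L[ℂ] X} {N : X →L[ℂ] X →L[ℂ] Y} {C : ℝ} {f : ℝ → X}
  {B : ℝ → X →L[ℂ] X} {a b : ℝ} {x₀ y₀ : X} {x y : ℝ → X} {cX : X →L[ℝ] X} {cY : Y →L[ℝ] Y}

/-- **Energy bound.** Proof. `Slv.energy` and `NSR.canc`: `2 Re⟪Kh x, f⟫ ≤ (1 + ‖Kh x‖²) ‖f‖`,
`2 Re⟪Kh x, B x⟫ ≤ ‖B‖² ‖Kh x‖² + ‖x‖²`; so `G t = ‖Kh x t‖² + ∫_a^t ‖x‖²` satisfies
`G t ≤ ‖Kh x a‖² + ∫ ‖f‖ + ∫ (‖f‖ + ‖B‖²) G`; `gron_int`. -/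
theorem Slv.en_bd (h : NSA K J3 N C) (r : NSR K J3 N cX cY) (hf : ContinuousOn f (Icc a b))
    (hB : ContinuousOn B (Icc a b)) (hx : Slv K J3 N f B a b x₀ x) (hr : ∀ t ∈ Icc a b, cX (x t) = x t) :
    ∀ t ∈ Icc a b, ‖Kh K (x t)‖ ^ 2 + ∫ r in a..t, ‖x r‖ ^ 2 ≤
      (‖Kh K (x a)‖ ^ 2 + ∫ r in a..t, ‖f r‖) * Real.exp (∫ r in a..t, (‖f r‖ + ‖B r‖ ^ 2)) := by
  intro t ht
  have hsub : Icc a t ⊆ Icc a b := Icc_subset_Icc_right ht.2
  have cx : ContinuousOn x (Icc a t) := hx.cont.mono hsub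
  have cf : ContinuousOn f (Icc a t) := hf.mono hsub
  have cB : ContinuousOn B (Icc a t) := hB.mono hsub
  have cn : ContinuousOn (fun r => ‖x r‖ ^ 2) (Icc a t) := cx.norm.pow 2
  have cK : ContinuousOn (fun r => Kh K (x r)) (Icc a t) := (Kh K).continuous.comp_continuousOn cx
  have cg : ContinuousOn (fun r => ‖f r‖ + ‖B r‖ ^ 2) (Icc a t) := cf.norm.add (cB.norm.pow 2)
  have cG : ContinuousOn (fun s => ‖Kh K (x s)‖ ^ 2 + ∫ r in a..s, ‖x r‖ ^ 2) (Icc a t) := by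
    refine (cK.norm.pow 2).add ?_
    have h1 := intervalIntegral.continuousOn_primitive_interval (μ := volume) (a := a) (b := t)
      (f := fun r => ‖x r‖ ^ 2) (by rw [uIcc_of_le ht.1]; exact cn.integrableOn_Icc)
    rwa [uIcc_of_le ht.1] at h1
  have hGk : ∀ r ∈ Icc a t, ‖Kh K (x r)‖ ^ 2 ≤ ‖Kh K (x r)‖ ^ 2 + ∫ q in a..r, ‖x q‖ ^ 2 := by
    intro r hr
    have : 0 ≤ ∫ q in a..r, ‖x q‖ ^ 2 :=
      intervalIntegral.integral_nonneg hr.1 fun q _ => by positivity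
    linarith
  refine gron_int (c := ‖Kh K (x a)‖ ^ 2 + ∫ r in a..t, ‖f r‖) cg cG (fun r _ => by positivity) ?_ t
    ⟨ht.1, le_rfl⟩
  intro s hs
  have hss : Icc a s ⊆ Icc a t := Icc_subset_Icc_right hs.2
  have e1 := hx.energy h hf hB le_rfl hs.1 (hs.2.trans ht.2)
  have e2 : (∫ r in a..s, (-‖x r‖ ^ 2 + (⟪x r, J3 (N (x r) (x r))⟫_ℂ).re +
      (⟪Kh K (x r), f r + B r (x r)⟫_ℂ).re)) =
      ∫ r in a..s, (-‖x r‖ ^ 2 + (⟪Kh K (x r), f r + B r (x r)⟫_ℂ).re) := by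
    refine intervalIntegral.integral_congr fun q hq => ?_
    rw [uIcc_of_le hs.1] at hq
    have hq' := hsub (hss hq)
    rw [r.canc (x q) (x q) (hr q hq') (hr q hq'), add_zero]
  have cP : ContinuousOn (fun r => (⟪Kh K (x r), f r + B r (x r)⟫_ℂ).re) (Icc a t) :=
    Complex.continuous_re.comp_continuousOn (cK.inner (cf.add (cB.clm_apply cx)))
  have i1 : IntervalIntegrable (fun r => 2 * (-‖x r‖ ^ 2 +
      (⟪Kh K (x r), f r + B r (x r)⟫_ℂ).re)) volume a s :=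
    ((continuousOn_const.mul (cn.neg.add cP)).mono hss).intervalIntegrable_of_Icc hs.1
  have i2 : IntervalIntegrable (fun r => ‖x r‖ ^ 2) volume a s :=
    (cn.mono hss).intervalIntegrable_of_Icc hs.1
  have i3 : IntervalIntegrable (fun r => ‖f r‖) volume a s :=
    (cf.norm.mono hss).intervalIntegrable_of_Icc hs.1
  have i4 : IntervalIntegrable (fun r => (‖f r‖ + ‖B r‖ ^ 2) *
      (‖Kh K (x r)‖ ^ 2 + ∫ q in a..r, ‖x q‖ ^ 2)) volume a s :=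
    ((cg.mul cG).mono hss).intervalIntegrable_of_Icc hs.1
  have i5 : IntervalIntegrable (fun r => ‖f r‖) volume a t :=
    cf.norm.intervalIntegrable_of_Icc ht.1
  have e3 : ‖Kh K (x s)‖ ^ 2 + ∫ r in a..s, ‖x r‖ ^ 2 = ‖Kh K (x a)‖ ^ 2 +
      ∫ r in a..s, (2 * (-‖x r‖ ^ 2 + (⟪Kh K (x r), f r + B r (x r)⟫_ℂ).re) + ‖x r‖ ^ 2) := by
    rw [intervalIntegral.integral_add i1 i2, intervalIntegral.integral_const_mul, ← e2, ← e1]
    ring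
  have e4 : (∫ r in a..s, (2 * (-‖x r‖ ^ 2 + (⟪Kh K (x r), f r + B r (x r)⟫_ℂ).re) + ‖x r‖ ^ 2)) ≤
      ∫ r in a..s, (‖f r‖ + (‖f r‖ + ‖B r‖ ^ 2) *
        (‖Kh K (x r)‖ ^ 2 + ∫ q in a..r, ‖x q‖ ^ 2)) := by
    refine intervalIntegral.integral_mono_on hs.1 (i1.add i2) (i3.add i4) fun q hq => ?_
    have hq' := hss hq
    have h1 : (⟪Kh K (x q), f q + B q (x q)⟫_ℂ).re ≤ ‖Kh K (x q)‖ * (‖f q‖ + ‖B q‖ * ‖x q‖) := by
      refine (Complex.re_le_norm _).trans ((norm_inner_le_norm _ _).trans ?_)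
      refine mul_le_mul_of_nonneg_left ?_ (norm_nonneg _)
      exact (norm_add_le _ _).trans (add_le_add le_rfl ((B q).le_opNorm _))
    have h2 := hGk q hq'
    have h3 : (‖f q‖ + ‖B q‖ ^ 2) * ‖Kh K (x q)‖ ^ 2 ≤ (‖f q‖ + ‖B q‖ ^ 2) *
        (‖Kh K (x q)‖ ^ 2 + ∫ q in a..q, ‖x q‖ ^ 2) := mul_le_mul_of_nonneg_left h2 (by positivity)
    have h4 : 0 ≤ ‖f q‖ * (1 - ‖Kh K (x q)‖) ^ 2 := by positivity
    have h5 := sq_nonneg (‖B q‖ * ‖Kh K (x q)‖ - ‖x q‖)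
    nlinarith
  have e5 : (∫ r in a..s, ‖f r‖) ≤ ∫ r in a..t, ‖f r‖ :=
    intervalIntegral.integral_mono_interval le_rfl hs.1 hs.2
      (Eventually.of_forall fun _ => norm_nonneg _) i5
  rw [intervalIntegral.integral_add i3 i4] at e4
  rw [e3]
  linarith

end

end Pool.Agent.Lib.MP_79abb3_an.PD
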