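import Pool.Agent.Lib.MP_79abb3_an.PD.AbNab
import Pool.Agent.Lib.MP_79abb3_an.PD.AbNb

/-!
Theorem D, block S, abstract part: energy bound for differences.
-/

set_option autoImplicit false
set_option linter.unusedSectionVars false

open MeasureTheory Set Filter Topology Function
open scoped ENNReal InnerProductSpace ComplexConjugate

namespace Pool.Agent.Lib.MP_79abb3_an.PD

open Pool.Agent.Lib.MP_79abb3_an.SC

section
variable {X Y : Type} [NormedAddCommGroup X] [InnerProductSpace ℂ X] [CompleteSpace X]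
  [NormedAddCommGroup Y] [NormedSpace ℂ Y]
variable {K : X →L[ℂ] X} {J3 : Y →L[ℂ] X} {N : X →L[ℂ] X →L[ℂ] Y} {C : ℝ} {f : ℝ → X}
  {B : ℝ → X →L[ℂ] X} {a b : ℝ} {x₀ y₀ : X} {x y : ℝ → X} {cX : X →L[ℝ] X} {cY : Y →L[ℝ] Y}

/-- **Energy bound for differences.** Proof. `z = x - y`, `Tst.sub`, `Tst.energy_int` with `M = 1`, `p = z`;
`N x x - N y y = N z x + N y z`; `Re⟪z, J3 (N z x)⟫ = 0`; `|⟪z, J3 (N y z)⟫| ≤ C² √(‖Kh z‖‖z‖) √(‖Kh y‖‖y‖) ‖z‖ ≤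
‖z‖²/4 + 7 C⁸ ‖Kh z‖² ‖Kh y‖² ‖y‖²` (Young); `|⟪Kh z, B z⟫| ≤ ‖z‖²/4 + ‖B‖² ‖Kh z‖²`; `gron_int`. -/
theorem Slv.en_diff (h : NSA K J3 N C) (r : NSR K J3 N cX cY) (hf : ContinuousOn f (Icc a b))
    (hB : ContinuousOn B (Icc a b)) (hx : Slv K J3 N f B a b x₀ x) (hr : ∀ t ∈ Icc a b, cX (x t) = x t)
    (hy : Slv K J3 N f B a b y₀ y) (hr' : ∀ t ∈ Icc a b, cX (y t) = y t) :
    ∀ t ∈ Icc a b, ‖Kh K (x t - y t)‖ ^ 2 + ∫ r in a..t, ‖x r - y r‖ ^ 2 ≤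
      ‖Kh K (x a - y a)‖ ^ 2 * Real.exp (∫ r in a..t, (14 * C ^ 8 * (‖Kh K (y r)‖ ^ 2 * ‖y r‖ ^ 2) +
        2 * ‖B r‖ ^ 2)) := by
  have cx := hx.cont
  have cy := hy.cont
  have cz : ContinuousOn (fun r => x r - y r) (Icc a b) := cx.sub cy
  have cn : ContinuousOn (fun r => ‖x r - y r‖ ^ 2) (Icc a b) := cz.norm.pow 2
  have cK : ContinuousOn (fun r => Kh K (x r - y r)) (Icc a b) :=
    (Kh K).continuous.comp_continuousOn cz
  have cKy : ContinuousOn (fun r => Kh K (y r)) (Icc a b) := (Kh K).continuous.comp_continuousOn cy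
  have cg : ContinuousOn (fun r => 14 * C ^ 8 * (‖Kh K (y r)‖ ^ 2 * ‖y r‖ ^ 2) + 2 * ‖B r‖ ^ 2)
      (Icc a b) := (continuousOn_const.mul ((cKy.norm.pow 2).mul (cy.norm.pow 2))).add
        (continuousOn_const.mul (hB.norm.pow 2))
  have hT := (hx.tst h hf hB).sub (hy.tst h hf hB)
  intro t ht
  have hab : a ≤ b := ht.1.trans ht.2
  have cG : ContinuousOn (fun s => ‖Kh K (x s - y s)‖ ^ 2 + ∫ r in a..s, ‖x r - y r‖ ^ 2)
      (Icc a b) := by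
    refine (cK.norm.pow 2).add ?_
    have h1 := intervalIntegral.continuousOn_primitive_interval (μ := volume) (a := a) (b := b)
      (f := fun r => ‖x r - y r‖ ^ 2) (by rw [uIcc_of_le hab]; exact cn.integrableOn_Icc)
    rwa [uIcc_of_le hab] at h1
  refine gron_int (c := ‖Kh K (x a - y a)‖ ^ 2) cg cG (fun r _ => by
    have := h.C0
    positivity) ?_ t ht
  intro s hs
  have hss : Icc a s ⊆ Icc a b := Icc_subset_Icc_right hs.2
  have e1 := hT.energy_int (M := 1) (fun _ _ => rfl) cz (fun r _ => by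
    rw [one_apply_eq_self, map_sub]) le_rfl hs.1 hs.2
  have e0 : ∀ r, (⟪(1 : X →L[ℂ] X) (Kh K (x r) - Kh K (y r)), Kh K (x r) - Kh K (y r)⟫_ℂ).re =
      ‖Kh K (x r - y r)‖ ^ 2 := by
    intro r
    rw [one_apply_eq_self, ← map_sub]
    exact inner_self_eq_norm_sq (𝕜 := ℂ) _
  rw [e0, e0, ← intervalIntegral.integral_const_mul] at e1
  have i1 : IntervalIntegrable (fun r => 2 * (⟪x r - y r, (J3 (N (x r) (x r)) +
      Kh K (f r + B r (x r)) - x r) - (J3 (N (y r) (y r)) + Kh K (f r + B r (y r)) - y r)⟫_ℂ).re)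
      volume a s := ((continuousOn_const.mul (Complex.continuous_re.comp_continuousOn
        (cz.inner hT.cl))).mono hss).intervalIntegrable_of_Icc hs.1
  have i2 : IntervalIntegrable (fun r => ‖x r - y r‖ ^ 2) volume a s :=
    (cn.mono hss).intervalIntegrable_of_Icc hs.1
  have i4 : IntervalIntegrable (fun r => (14 * C ^ 8 * (‖Kh K (y r)‖ ^ 2 * ‖y r‖ ^ 2) +
      2 * ‖B r‖ ^ 2) * (‖Kh K (x r - y r)‖ ^ 2 + ∫ q in a..r, ‖x q - y q‖ ^ 2)) volume a s :=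
    ((cg.mul cG).mono hss).intervalIntegrable_of_Icc hs.1
  have e4 : (∫ r in a..s, (2 * (⟪x r - y r, (J3 (N (x r) (x r)) +
      Kh K (f r + B r (x r)) - x r) - (J3 (N (y r) (y r)) + Kh K (f r + B r (y r)) - y r)⟫_ℂ).re +
      ‖x r - y r‖ ^ 2)) ≤ ∫ r in a..s, (14 * C ^ 8 * (‖Kh K (y r)‖ ^ 2 * ‖y r‖ ^ 2) +
      2 * ‖B r‖ ^ 2) * (‖Kh K (x r - y r)‖ ^ 2 + ∫ q in a..r, ‖x q - y q‖ ^ 2) := by
    refine intervalIntegral.integral_mono_on hs.1 (i1.add i2) i4 fun q hq => ?_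
    have hq' := hss hq
    have hG0 : 0 ≤ ∫ p in a..q, ‖x p - y p‖ ^ 2 :=
      intervalIntegral.integral_nonneg hq.1 fun p _ => by positivity
    have hC := h.C0
    set z := x q - y q with hz
    have hxz : x q = z + y q := by rw [hz]; abel
    have hcz : cX z = z := by rw [hz, map_sub, hr q hq', hr' q hq']
    have hN : N (x q) (x q) = N (y q) (y q) + (N z (x q) + N (y q) z) := by
      have a0 : N (x q) = N z + N (y q) := by rw [← map_add, ← hxz]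
      have a1 : N (x q) (x q) = N z (x q) + N (y q) (x q) :=
        congrArg (fun T : X →L[ℂ] Y => T (x q)) a0
      have a2 : N (y q) (x q) = N (y q) z + N (y q) (y q) := by rw [← map_add, ← hxz]
      rw [a1, a2]
      abel
    have hl : (J3 (N (x q) (x q)) + Kh K (f q + B q (x q)) - x q) -
        (J3 (N (y q) (y q)) + Kh K (f q + B q (y q)) - y q) =
        J3 (N z (x q)) + J3 (N (y q) z) + Kh K (B q z) - z := by
      have c1 : J3 (N (x q) (x q)) = J3 (N (y q) (y q)) + (J3 (N z (x q)) + J3 (N (y q) z)) := by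
        rw [hN, map_add, map_add]
      have c2 : Kh K (f q + B q (x q)) = Kh K (f q + B q (y q)) + Kh K (B q z) := by
        rw [← map_add]
        have b1 : B q (x q) = B q z + B q (y q) := by rw [← map_add, ← hxz]
        rw [b1]
        congr 1
        abel
      rw [c1, c2]
      have c3 : ∀ p₁ p₂ p₃ p₄ p₅ u₁ u₂ : X, p₁ + (p₂ + p₃) + (p₄ + p₅) - u₁ - (p₁ + p₄ - u₂) =
          p₂ + p₃ + p₅ - (u₁ - u₂) := by
        intros
        abel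
      rw [c3]
    have hz2 : (⟪z, z⟫_ℂ).re = ‖z‖ ^ 2 := inner_self_eq_norm_sq (𝕜 := ℂ) _
    have hre : (⟪z, (J3 (N (x q) (x q)) + Kh K (f q + B q (x q)) - x q) -
        (J3 (N (y q) (y q)) + Kh K (f q + B q (y q)) - y q)⟫_ℂ).re =
        (⟪z, J3 (N (y q) z)⟫_ℂ).re + (⟪Kh K z, B q z⟫_ℂ).re - ‖z‖ ^ 2 := by
      rw [hl, inner_sub_right, inner_add_right, inner_add_right, Complex.sub_re, Complex.add_re,
        Complex.add_re, r.canc z (x q) hcz (hr q hq'), hz2, Kh_inner, zero_add]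
    have hk : (⟪z, J3 (N (y q) z)⟫_ℂ).re ≤
        C * √(‖Kh K z‖ * ‖z‖) * (C * √(‖Kh K (y q)‖ * ‖y q‖) * ‖z‖) := by
      refine (Complex.re_le_norm _).trans ((h.k0 _ _).trans ?_)
      exact mul_le_mul_of_nonneg_left (h.n _ _) (by positivity)
    have hb : (⟪Kh K z, B q z⟫_ℂ).re ≤ ‖Kh K z‖ * (‖B q‖ * ‖z‖) := by
      refine (Complex.re_le_norm _).trans ((norm_inner_le_norm _ _).trans ?_)
      exact mul_le_mul_of_nonneg_left ((B q).le_opNorm _) (norm_nonneg _)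
    obtain ⟨w, hw0, hw⟩ : ∃ w : ℝ, 0 ≤ w ∧ ‖z‖ = w ^ 2 :=
      ⟨√‖z‖, Real.sqrt_nonneg _, (Real.sq_sqrt (norm_nonneg _)).symm⟩
    obtain ⟨u, hu0, hu⟩ : ∃ u : ℝ, 0 ≤ u ∧ ‖Kh K z‖ = u ^ 2 :=
      ⟨√‖Kh K z‖, Real.sqrt_nonneg _, (Real.sq_sqrt (norm_nonneg _)).symm⟩
    obtain ⟨v, hv0, hv⟩ : ∃ v : ℝ, 0 ≤ v ∧ ‖Kh K (y q)‖ * ‖y q‖ = v ^ 2 :=
      ⟨√(‖Kh K (y q)‖ * ‖y q‖), Real.sqrt_nonneg _, (Real.sq_sqrt (by positivity)).symm⟩
    have s1 : √(‖Kh K z‖ * ‖z‖) = u * w := by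
      rw [hu, hw, ← mul_pow, Real.sqrt_sq (by positivity)]
    have s2 : √(‖Kh K (y q)‖ * ‖y q‖) = v := by
      rw [hv, Real.sqrt_sq hv0]
    rw [s1, s2, hw] at hk
    have hyoung : C * (u * w) * (C * v * w ^ 2) ≤ w ^ 4 / 4 + 7 * (C ^ 2 * u * v) ^ 4 := by
      have h0 : 0 ≤ (w - 3 * (C ^ 2 * u * v)) ^ 2 * ((w / 2 + (C ^ 2 * u * v) / 2) ^ 2 +
        (C ^ 2 * u * v) ^ 2 / 2) := by positivity
      have h00 : 0 ≤ (C ^ 2 * u * v) ^ 4 := by positivity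
      nlinarith
    have hv4 : (‖Kh K (y q)‖ ^ 2 * ‖y q‖ ^ 2) = v ^ 4 := by
      rw [← mul_pow, hv]; ring
    rw [hre, hv4]
    have hbb : ‖Kh K z‖ * (‖B q‖ * ‖z‖) ≤ ‖z‖ ^ 2 / 4 + ‖B q‖ ^ 2 * ‖Kh K z‖ ^ 2 := by
      nlinarith [sq_nonneg (‖z‖ / 2 - ‖B q‖ * ‖Kh K z‖)]
    have hfin : (14 * C ^ 8 * v ^ 4 + 2 * ‖B q‖ ^ 2) * ‖Kh K z‖ ^ 2 ≤
        (14 * C ^ 8 * v ^ 4 + 2 * ‖B q‖ ^ 2) * (‖Kh K z‖ ^ 2 + ∫ p in a..q, ‖x p - y p‖ ^ 2) :=
      mul_le_mul_of_nonneg_left (by linarith) (by positivity)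
    refine le_trans ?_ hfin
    have hz4 : ‖z‖ ^ 2 = w ^ 4 := by rw [hw]; ring
    have hk4 : ‖Kh K z‖ ^ 2 = u ^ 4 := by rw [hu]; ring
    rw [hz4, hk4] at hbb
    rw [hz4, hk4]
    have e7 : 7 * (C ^ 2 * u * v) ^ 4 = 7 * C ^ 8 * v ^ 4 * u ^ 4 := by ring
    rw [e7] at hyoung
    nlinarith
  rw [intervalIntegral.integral_add i1 i2, ← e1] at e4
  linarith

end

end Pool.Agent.Lib.MP_79abb3_an.PD
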