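import Pool.Agent.Lib.MP_79abb3_an.PD.AbNc
import Pool.Agent.Lib.MP_79abb3_an.SC.L2Ca

/-!
Theorem D, block S, abstract part: solutions which start at time `0` from `0`, with sources `f ∈ L¹(0,b; X)`,
`B ∈ L²(0,b)`, which may be singular at `0`.
-/

set_option autoImplicit false
set_option linter.unusedSectionVars false

open MeasureTheory Set Filter Topology Function
open scoped ENNReal InnerProductSpace ComplexConjugate

namespace Pool.Agent.Lib.MP_79abb3_an.PD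

open Pool.Agent.Lib.MP_79abb3_an.SC

section
variable {X Y : Type} [NormedAddCommGroup X] [InnerProductSpace ℂ X] [CompleteSpace X]
  [NormedAddCommGroup Y] [NormedSpace ℂ Y]
variable {K : X →L[ℂ] X} {J3 : Y →L[ℂ] X} {N : X →L[ℂ] X →L[ℂ] Y} {C : ℝ} {f : ℝ → X}
  {B : ℝ → X →L[ℂ] X} {b : ℝ} {cX : X →L[ℝ] X} {cY : Y →L[ℝ] Y}

/-- The data. -/
structure St0 (f : ℝ → X) (B : ℝ → X →L[ℂ] X) (b : ℝ) (cX : X →L[ℝ] X) : Prop where
  hb : 0 < b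
  cf : ContinuousOn f (Ioc 0 b)
  cB : ContinuousOn B (Ioc 0 b)
  fr : ∀ t ∈ Ioc 0 b, cX (f t) = f t
  Br : ∀ t ∈ Ioc 0 b, ∀ x, cX (B t x) = B t (cX x)
  fi : IntegrableOn (fun t => ‖f t‖) (Ioc 0 b)
  Bi : IntegrableOn (fun t => ‖B t‖ ^ 2) (Ioc 0 b)

/-- the energy bound -/
noncomputable def ph (f : ℝ → X) (B : ℝ → X →L[ℂ] X) (t : ℝ) : ℝ :=
  (∫ r in (0:ℝ)..t, ‖f r‖) * Real.exp (∫ r in (0:ℝ)..t, (‖f r‖ + ‖B r‖ ^ 2))

private theorem abnd_if (s : St0 f B b cX) {t t' : ℝ} (ht : 0 ≤ t) (h : t ≤ t') (ht' : t' ≤ b) :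
    IntervalIntegrable (fun r => ‖f r‖) volume t t' :=
  (intervalIntegrable_iff_integrableOn_Ioc_of_le h).2 (s.fi.mono_set (Ioc_subset_Ioc ht ht'))

private theorem abnd_iB (s : St0 f B b cX) {t t' : ℝ} (ht : 0 ≤ t) (h : t ≤ t') (ht' : t' ≤ b) :
    IntervalIntegrable (fun r => ‖B r‖ ^ 2) volume t t' :=
  (intervalIntegrable_iff_integrableOn_Ioc_of_le h).2 (s.Bi.mono_set (Ioc_subset_Ioc ht ht'))

private theorem abnd_mono {g : ℝ → ℝ} {a t b : ℝ} (ha : 0 ≤ a) (hat : a ≤ t) (htb : t ≤ b)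
    (hg : ∀ r, 0 ≤ g r) (hi : IntervalIntegrable g volume 0 b) :
    ∫ r in a..t, g r ≤ ∫ r in (0:ℝ)..b, g r :=
  intervalIntegral.integral_mono_interval ha hat htb (Eventually.of_forall hg) hi

theorem St0.ph_nonneg (s : St0 f B b cX) {t : ℝ} (ht : t ∈ Icc 0 b) : 0 ≤ ph f B t := by
  unfold ph
  exact mul_nonneg (intervalIntegral.integral_nonneg ht.1 fun _ _ => norm_nonneg _)
    (Real.exp_pos _).le

theorem St0.ph_mono (s : St0 f B b cX) {t t' : ℝ} (ht : 0 ≤ t) (h : t ≤ t') (ht' : t' ≤ b) :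
    ph f B t ≤ ph f B t' := by
  unfold ph
  have h1 : ∫ r in (0:ℝ)..t, ‖f r‖ ≤ ∫ r in (0:ℝ)..t', ‖f r‖ :=
    abnd_mono le_rfl ht h (fun _ => norm_nonneg _) (abnd_if s le_rfl (ht.trans h) ht')
  have h2 : ∫ r in (0:ℝ)..t, (‖f r‖ + ‖B r‖ ^ 2) ≤ ∫ r in (0:ℝ)..t', (‖f r‖ + ‖B r‖ ^ 2) :=
    abnd_mono le_rfl ht h (fun _ => by positivity)
      ((abnd_if s le_rfl (ht.trans h) ht').add (abnd_iB s le_rfl (ht.trans h) ht'))
  exact mul_le_mul h1 (Real.exp_le_exp.2 h2) (Real.exp_pos _).le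
    (intervalIntegral.integral_nonneg (ht.trans h) fun _ _ => norm_nonneg _)

private theorem abnd_prim {g : ℝ → ℝ} {b : ℝ} (hb : 0 < b) (hi : IntervalIntegrable g volume 0 b) :
    Tendsto (fun t => ∫ r in (0:ℝ)..t, g r) (𝓝[>] 0) (𝓝 0) := by
  have h1 := intervalIntegral.continuousOn_primitive_interval' hi (left_mem_uIcc)
  have h2 : ContinuousWithinAt (fun t => ∫ r in (0:ℝ)..t, g r) (uIcc 0 b) 0 := h1 0 left_mem_uIcc
  have h3 : Tendsto (fun t => ∫ r in (0:ℝ)..t, g r) (𝓝[uIcc 0 b] 0) (𝓝 0) := by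
    have := h2.tendsto
    rwa [intervalIntegral.integral_same] at this
  refine h3.mono_left (nhdsWithin_le_iff.2 ?_)
  rw [uIcc_of_le hb.le]
  exact mem_of_superset (Ioc_mem_nhdsGT hb) Ioc_subset_Icc_self

theorem St0.ph_lim (s : St0 f B b cX) : Tendsto (ph f B) (𝓝[>] 0) (𝓝 0) := by
  have h1 := abnd_prim s.hb (abnd_if s le_rfl s.hb.le le_rfl)
  have h2 := abnd_prim s.hb ((abnd_if s le_rfl s.hb.le le_rfl).add (abnd_iB s le_rfl s.hb.le le_rfl))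
  have h3 := h1.mul (Real.continuous_exp.continuousAt.tendsto.comp h2)
  rw [zero_mul] at h3
  exact h3

/-- Approximations: solutions from `0` at time `a`. Proof: `NSA.global`, `Slv.en_bd` (the integrals over `[a, t]` are at
most the integrals over `[0, t]`). -/
theorem St0.ap (s : St0 f B b cX) (h : NSA K J3 N C) (r : NSR K J3 N cX cY) {a : ℝ} (ha : 0 < a) (hab : a ≤ b) :
    ∃ x, Slv K J3 N f B a b 0 x ∧ (∀ t ∈ Icc a b, cX (x t) = x t) ∧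
      ∀ t ∈ Icc a b, ‖Kh K (x t)‖ ^ 2 + ∫ r in a..t, ‖x r‖ ^ 2 ≤ ph f B t := by
  have hsub : Icc a b ⊆ Ioc 0 b := fun t ht => ⟨ha.trans_le ht.1, ht.2⟩
  have hf := s.cf.mono hsub
  have hB := s.cB.mono hsub
  obtain ⟨x, hx, hr⟩ := h.global r hab hf hB (fun t ht => s.fr t (hsub ht))
    (fun t ht => s.Br t (hsub ht)) (x₀ := 0) (map_zero cX)
  refine ⟨x, hx, hr, fun t ht => ?_⟩
  have h0 : x a = 0 := Mild.init h.ker hx hab
  have h1 := hx.en_bd h r hf hB hr t ht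
  rw [h0, map_zero, norm_zero, zero_pow two_ne_zero, zero_add] at h1
  refine h1.trans ?_
  unfold ph
  have ht0 : 0 ≤ t := ha.le.trans ht.1
  have e1 : ∫ r in a..t, ‖f r‖ ≤ ∫ r in (0:ℝ)..t, ‖f r‖ :=
    abnd_mono ha.le ht.1 le_rfl (fun _ => norm_nonneg _) (abnd_if s le_rfl ht0 ht.2)
  have e2 : ∫ r in a..t, (‖f r‖ + ‖B r‖ ^ 2) ≤ ∫ r in (0:ℝ)..t, (‖f r‖ + ‖B r‖ ^ 2) :=
    abnd_mono ha.le ht.1 le_rfl (fun _ => by positivity)
      ((abnd_if s le_rfl ht0 ht.2).add (abnd_iB s le_rfl ht0 ht.2))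
  exact mul_le_mul e1 (Real.exp_le_exp.2 e2) (Real.exp_pos _).le
    (intervalIntegral.integral_nonneg ht0 fun _ _ => norm_nonneg _)

/-- Two approximations, started at `a' ≤ a`: `x` is `0` at time `a`. Proof: `Slv.en_diff` on `[a, b]` (`Mild.restart` for `y`);
`‖Kh y‖² ≤ ph b`, `∫ ‖y‖² ≤ ph b`. -/
theorem St0.ap_diff (s : St0 f B b cX) (h : NSA K J3 N C) (r : NSR K J3 N cX cY) : ∃ Γ : ℝ, 0 ≤ Γ ∧
    ∀ {a a' : ℝ} {x y : ℝ → X}, 0 < a' → a' ≤ a → a ≤ b → Slv K J3 N f B a b 0 x →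
    (∀ t ∈ Icc a b, cX (x t) = x t) → Slv K J3 N f B a' b 0 y → (∀ t ∈ Icc a' b, cX (y t) = y t) →
    (∀ t ∈ Icc a' b, ‖Kh K (y t)‖ ^ 2 + ∫ r in a'..t, ‖y r‖ ^ 2 ≤ ph f B t) →
    ∀ t ∈ Icc a b, ‖Kh K (x t - y t)‖ ^ 2 + ∫ r in a..t, ‖x r - y r‖ ^ 2 ≤ Γ * ph f B a := by
  have hbm : b ∈ Icc 0 b := ⟨s.hb.le, le_rfl⟩
  have hpb := s.ph_nonneg hbm
  refine ⟨Real.exp (14 * C ^ 8 * (ph f B b * ph f B b) + 2 * ∫ r in (0:ℝ)..b, ‖B r‖ ^ 2),
    (Real.exp_pos _).le, ?_⟩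
  intro a a' x y ha' haa hab hx hxr hy hyr hye t ht
  have ha : 0 < a := ha'.trans_le haa
  have hsub : Icc a b ⊆ Ioc 0 b := fun t ht => ⟨ha.trans_le ht.1, ht.2⟩
  have hsub' : Icc a' b ⊆ Ioc 0 b := fun t ht => ⟨ha'.trans_le ht.1, ht.2⟩
  have hss : Icc a b ⊆ Icc a' b := Icc_subset_Icc haa le_rfl
  have hf := s.cf.mono hsub
  have hB := s.cB.mono hsub
  have ham : a ∈ Icc a' b := ⟨haa, hab⟩
  obtain ⟨M, hM⟩ := Pb_nl N (s.cf.mono hsub') (s.cB.mono hsub')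
  have hy' : Slv K J3 N f B a b (y a) y := Mild.restart h.ker hM hy ham
  have hyc : ContinuousOn y (Icc a' b) := hy.cont
  have h0 : x a = 0 := Mild.init h.ker hx hab
  have h1 := hx.en_diff h r hf hB hxr hy' (fun t ht => hyr t (hss ht)) t ht
  rw [h0, zero_sub, map_neg, norm_neg] at h1
  have hia : ∀ c d : ℝ, a' ≤ c → c ≤ d → d ≤ b →
      IntervalIntegrable (fun r => ‖y r‖ ^ 2) volume c d := fun c d hc hcd hd => by
    refine ContinuousOn.intervalIntegrable ?_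
    rw [uIcc_of_le hcd]
    exact (hyc.mono (Icc_subset_Icc hc hd)).norm.pow 2
  have e1 : ‖Kh K (y a)‖ ^ 2 ≤ ph f B a := by
    have h2 := hye a ham
    have h3 : 0 ≤ ∫ r in a'..a, ‖y r‖ ^ 2 :=
      intervalIntegral.integral_nonneg haa fun _ _ => by positivity
    linarith
  have e2 : ∀ r ∈ Icc a b, ‖Kh K (y r)‖ ^ 2 ≤ ph f B b := by
    intro r hr
    have h2 := hye r (hss hr)
    have h3 : 0 ≤ ∫ r in a'..r, ‖y r‖ ^ 2 :=
      intervalIntegral.integral_nonneg (haa.trans hr.1) fun _ _ => by positivity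
    have h4 := s.ph_mono (ha.le.trans hr.1) hr.2 le_rfl
    linarith
  have e3 : ∫ r in a..t, ‖y r‖ ^ 2 ≤ ph f B b := by
    have h2 := hye t (hss ht)
    have h3 : ∫ r in a..t, ‖y r‖ ^ 2 ≤ ∫ r in a'..t, ‖y r‖ ^ 2 :=
      intervalIntegral.integral_mono_interval haa ht.1 le_rfl
        (Eventually.of_forall fun _ => by positivity) (hia a' t le_rfl (haa.trans ht.1) ht.2)
    have h4 := s.ph_mono (ha.le.trans ht.1) ht.2 le_rfl
    have h5 : 0 ≤ ‖Kh K (y t)‖ ^ 2 := by positivity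
    linarith
  have hKy : ContinuousOn (fun r => ‖Kh K (y r)‖ ^ 2 * ‖y r‖ ^ 2) (Icc a t) := by
    have hyt : ContinuousOn y (Icc a t) := hyc.mono (Icc_subset_Icc haa ht.2)
    exact (((Kh K).continuous.comp_continuousOn hyt).norm.pow 2).mul (hyt.norm.pow 2)
  have hKyi : IntervalIntegrable (fun r => ‖Kh K (y r)‖ ^ 2 * ‖y r‖ ^ 2) volume a t := by
    refine ContinuousOn.intervalIntegrable ?_
    rwa [uIcc_of_le ht.1]
  have e4 : ∫ r in a..t, ‖Kh K (y r)‖ ^ 2 * ‖y r‖ ^ 2 ≤ ph f B b * ph f B b := by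
    have h2 : ∫ r in a..t, ‖Kh K (y r)‖ ^ 2 * ‖y r‖ ^ 2 ≤ ∫ r in a..t, ph f B b * ‖y r‖ ^ 2 := by
      refine intervalIntegral.integral_mono_on ht.1 hKyi
        ((hia a t haa ht.1 ht.2).const_mul _) fun r hr => ?_
      exact mul_le_mul_of_nonneg_right (e2 r ⟨hr.1, hr.2.trans ht.2⟩) (by positivity)
    rw [intervalIntegral.integral_const_mul] at h2
    exact h2.trans (mul_le_mul_of_nonneg_left e3 hpb)
  have e5 : ∫ r in a..t, ‖B r‖ ^ 2 ≤ ∫ r in (0:ℝ)..b, ‖B r‖ ^ 2 :=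
    abnd_mono ha.le ht.1 ht.2 (fun _ => by positivity) (abnd_iB s le_rfl s.hb.le le_rfl)
  have e6 : ∫ r in a..t, (14 * C ^ 8 * (‖Kh K (y r)‖ ^ 2 * ‖y r‖ ^ 2) + 2 * ‖B r‖ ^ 2) ≤
      14 * C ^ 8 * (ph f B b * ph f B b) + 2 * ∫ r in (0:ℝ)..b, ‖B r‖ ^ 2 := by
    rw [intervalIntegral.integral_add (hKyi.const_mul _)
      ((abnd_iB s ha.le ht.1 ht.2).const_mul _), intervalIntegral.integral_const_mul,
      intervalIntegral.integral_const_mul]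
    have hC : 0 ≤ 14 * C ^ 8 := by
      have := h.C0
      positivity
    have h2 := mul_le_mul_of_nonneg_left e4 hC
    linarith
  refine h1.trans ?_
  rw [mul_comm]
  exact mul_le_mul (Real.exp_le_exp.2 e6) e1 (by positivity) (Real.exp_pos _).le

end

end Pool.Agent.Lib.MP_79abb3_an.PD
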