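import Pool.Agent.Lib.MP_79abb3_an.PD.AbNd

/-!
Theorem D, block S, abstract part: convergence of the approximations.
-/

set_option autoImplicit false
set_option linter.unusedSectionVars false

open MeasureTheory Set Filter Topology Function
open scoped ENNReal InnerProductSpace ComplexConjugate

namespace Pool.Agent.Lib.MP_79abb3_an.PD

open Pool.Agent.Lib.MP_79abb3_an.SC

section
variable {X Y : Type} [NormedAddCommGroup X] [InnerProductSpace ℂ X] [CompleteSpace X]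
  [NormedAddCommGroup Y] [NormedSpace ℂ Y]
variable {K : X →L[ℂ] X} {J3 : Y →L[ℂ] X} {N : X →L[ℂ] X →L[ℂ] Y} {C : ℝ} {f : ℝ → X}
  {B : ℝ → X →L[ℂ] X} {b : ℝ} {cX : X →L[ℝ] X} {cY : Y →L[ℝ] Y}

/-- the sources are continuous on `[a, b]` for `a > 0` -/
private theorem abNdb_cf (s : St0 f B b cX) {a : ℝ} (ha : 0 < a) : ContinuousOn f (Icc a b) :=
  s.cf.mono fun _ ht => ⟨ha.trans_le ht.1, ht.2⟩

private theorem abNdb_cB (s : St0 f B b cX) {a : ℝ} (ha : 0 < a) : ContinuousOn B (Icc a b) :=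
  s.cB.mono fun _ ht => ⟨ha.trans_le ht.1, ht.2⟩

/-- restart of an approximation -/
private theorem abNdb_restart (s : St0 f B b cX) (h : NSA K J3 N C) {a c : ℝ} {x : ℝ → X} {x₀ : X}
    (ha : 0 < a) (hx : Slv K J3 N f B a b x₀ x) (hc : c ∈ Icc a b) :
    Slv K J3 N f B c b (x c) x := by
  obtain ⟨M, hM⟩ := Pb_nl N (abNdb_cf s ha) (abNdb_cB s ha)
  exact Mild.restart h.ker hM hx hc

/-- the integral of a nonnegative continuous function over a smaller interval -/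
private theorem abNdb_int {a c d e : ℝ} {z : ℝ → ℝ} (hz : ContinuousOn z (Icc a e))
    (h0 : ∀ t ∈ Icc a e, 0 ≤ z t) (hac : a ≤ c) (hcd : c ≤ d) (hde : d ≤ e) :
    ∫ r in c..d, z r ≤ ∫ r in a..e, z r := by
  have hi : ∀ p q, a ≤ p → p ≤ q → q ≤ e → IntervalIntegrable z volume p q := by
    intro p q hp hpq hq
    apply ContinuousOn.intervalIntegrable
    rw [uIcc_of_le hpq]
    exact hz.mono (Icc_subset_Icc hp hq)
  have h1 := intervalIntegral.integral_add_adjacent_intervals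
    (hi a c le_rfl hac (hcd.trans hde)) (hi c d hac hcd hde)
  have h2 := intervalIntegral.integral_add_adjacent_intervals
    (hi a d le_rfl (hac.trans hcd) hde) (hi d e (hac.trans hcd) hde le_rfl)
  have h3 : 0 ≤ ∫ r in a..c, z r := intervalIntegral.integral_nonneg hac fun t ht =>
    h0 t ⟨ht.1, ht.2.trans (hcd.trans hde)⟩
  have h4 : 0 ≤ ∫ r in d..e, z r := intervalIntegral.integral_nonneg hde fun t ht =>
    h0 t ⟨(hac.trans hcd).trans ht.1, ht.2⟩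
  linarith

private theorem abNdb_key (s : St0 f B b cX) (h : NSA K J3 N C) (r : NSR K J3 N cX cY)
    {x : ℕ → ℝ → X}
    (hx : ∀ n : ℕ, Slv K J3 N f B (b / (n + 2)) b 0 (x n))
    (hr : ∀ n : ℕ, ∀ t ∈ Icc (b / (n + 2)) b, cX (x n t) = x n t)
    (he : ∀ n : ℕ, ∀ t ∈ Icc (b / (n + 2)) b, ‖Kh K (x n t)‖ ^ 2 +
      ∫ r in (b / (n + 2))..t, ‖x n r‖ ^ 2 ≤ ph f B t) {a : ℝ} (ha : 0 < a) (hab : a ≤ b) :
    ∃ D Γ : ℝ, 0 ≤ D ∧ 0 ≤ Γ ∧ ∀ n m : ℕ, n ≤ m → b / ((n : ℝ) + 2) ≤ a / 2 → ∀ t ∈ Icc a b,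
      ‖x n t - x m t‖ ≤ D * √(Γ * ph f B (b / (n + 2)) / (a / 4)) := by
  have hb := s.hb
  have hd0 : 0 < a / 2 := half_pos ha
  have hdb : a / 2 ≤ b := by linarith
  obtain ⟨F, hF⟩ := isCompact_Icc.exists_bound_of_continuousOn (abNdb_cf s hd0)
  obtain ⟨M, hM⟩ := isCompact_Icc.exists_bound_of_continuousOn (abNdb_cB s hd0)
  obtain ⟨R, -, hR⟩ := Slv.unif h (U := √(ph f B b)) (F := F) (M := M) (E := ph f B b) (l := b)
    (d := a / 4) (by linarith)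
  obtain ⟨D, hD0, hD⟩ := Slv.lip h (R := R) (M := M) (l := b)
  obtain ⟨Γ, hΓ0, hΓ⟩ := s.ap_diff h r
  -- positivity and monotonicity of the starting times
  have hpos : ∀ n : ℕ, 0 < b / ((n : ℝ) + 2) := fun n => by positivity
  have hle : ∀ n : ℕ, b / ((n : ℝ) + 2) ≤ b := fun n => by
    apply div_le_self hb.le
    have : (0 : ℝ) ≤ n := Nat.cast_nonneg n
    linarith
  have hmono : ∀ n m : ℕ, n ≤ m → b / ((m : ℝ) + 2) ≤ b / ((n : ℝ) + 2) := fun n m hnm => by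
    have : (n : ℝ) ≤ m := Nat.cast_le.2 hnm
    apply div_le_div_of_nonneg_left hb.le (by positivity)
    linarith
  -- uniform bound
  have hbd : ∀ n : ℕ, b / ((n : ℝ) + 2) ≤ a / 2 → ∀ t ∈ Icc (3 * a / 4) b, ‖x n t‖ ≤ R := by
    intro n hn t ht
    have hE : ∀ t ∈ Icc (a / 2) b, ‖Kh K (x n t)‖ ^ 2 ≤ ph f B b := by
      intro t ht
      have h1 := he n t ⟨hn.trans ht.1, ht.2⟩
      have h2 : 0 ≤ ∫ r in (b / ((n : ℝ) + 2))..t, ‖x n r‖ ^ 2 :=
        intervalIntegral.integral_nonneg (hn.trans ht.1) fun _ _ => by positivity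
      have h3 := s.ph_mono (hd0.le.trans ht.1) ht.2 le_rfl
      linarith
    have hI : ∫ r in (a / 2)..b, ‖x n r‖ ^ 2 ≤ ph f B b := by
      have h1 := he n b ⟨hn.trans hdb, le_rfl⟩
      have h2 : ∫ r in (a / 2)..b, ‖x n r‖ ^ 2 ≤ ∫ r in (b / ((n : ℝ) + 2))..b, ‖x n r‖ ^ 2 :=
        abNdb_int (z := fun r => ‖x n r‖ ^ 2) ((hx n).cont.norm.pow 2)
          (fun _ _ => by positivity) hn hdb le_rfl
      have h3 : 0 ≤ ‖Kh K (x n b)‖ ^ 2 := by positivity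
      linarith
    refine hR (a := a / 2) (b := b) (by linarith) (by linarith) (abNdb_cf s hd0) (abNdb_cB s hd0)
      hF hM (abNdb_restart s h (hpos n) (hx n) ⟨hn, hdb⟩) ?_ hI t ⟨by linarith [ht.1], ht.2⟩
    intro t ht
    exact Real.le_sqrt_of_sq_le (hE t ht)
  refine ⟨D, Γ, hD0, hΓ0, ?_⟩
  intro n m hnm hn t ht
  have hm : b / ((m : ℝ) + 2) ≤ a / 2 := (hmono n m hnm).trans hn
  have hdiff := hΓ (hpos m) (hmono n m hnm) (hle n) (hx n) (hr n) (hx m) (hr m) (he m) a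
    ⟨hn.trans (by linarith), hab⟩
  have hcz : ContinuousOn (fun r => ‖x n r - x m r‖ ^ 2) (Icc (b / ((n : ℝ) + 2)) b) :=
    (((hx n).cont.sub ((hx m).cont.mono (Icc_subset_Icc (hmono n m hnm) le_rfl))).norm.pow 2)
  have hI : ∫ r in (3 * a / 4)..a, ‖x n r - x m r‖ ^ 2 ≤ Γ * ph f B (b / (n + 2)) := by
    have h2 : ∫ r in (3 * a / 4)..a, ‖x n r - x m r‖ ^ 2 ≤
        ∫ r in (b / ((n : ℝ) + 2))..a, ‖x n r - x m r‖ ^ 2 :=
      abNdb_int (z := fun r => ‖x n r - x m r‖ ^ 2) (hcz.mono (Icc_subset_Icc le_rfl hab))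
        (fun _ _ => by positivity) (by linarith) (by linarith) le_rfl
    have h3 : 0 ≤ ‖Kh K (x n a - x m a)‖ ^ 2 := by positivity
    linarith
  obtain ⟨q, hq, hqz⟩ := exists_good (a := 3 * a / 4) (b := a) (by linarith)
    (y := fun r => ‖x n r - x m r‖ ^ 2)
    (hcz.mono (Icc_subset_Icc (by linarith) hab)) hI
  have hqz' : ‖x n q - x m q‖ ≤ √(Γ * ph f B (b / (n + 2)) / (a / 4)) := by
    apply Real.le_sqrt_of_sq_le
    have e : a - 3 * a / 4 = a / 4 := by ring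
    rw [e] at hqz
    exact hqz
  have h34 : 0 < 3 * a / 4 := by linarith
  have h34' : a / 2 ≤ 3 * a / 4 := by linarith
  have hl := hD (a := 3 * a / 4) (b := b) (by linarith) (abNdb_cf s h34) (abNdb_cB s h34)
    (fun t ht => hM t ⟨h34'.trans ht.1, ht.2⟩)
    (abNdb_restart s h (hpos n) (hx n) ⟨hn.trans h34', by linarith⟩)
    (abNdb_restart s h (hpos m) (hx m) ⟨hm.trans h34', by linarith⟩)
    (fun t ht => ⟨hbd n hn t ht, hbd m hm t ht⟩) q t hq.1 (hq.2.trans ht.1) ht.2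
  exact hl.trans (mul_le_mul_of_nonneg_left hqz' hD0)

private theorem abNdb_cauchy (s : St0 f B b cX) (h : NSA K J3 N C) (r : NSR K J3 N cX cY)
    {x : ℕ → ℝ → X}
    (hx : ∀ n : ℕ, Slv K J3 N f B (b / (n + 2)) b 0 (x n))
    (hr : ∀ n : ℕ, ∀ t ∈ Icc (b / (n + 2)) b, cX (x n t) = x n t)
    (he : ∀ n : ℕ, ∀ t ∈ Icc (b / (n + 2)) b, ‖Kh K (x n t)‖ ^ 2 +
      ∫ r in (b / (n + 2))..t, ‖x n r‖ ^ 2 ≤ ph f B t) {a : ℝ} (ha : 0 < a) (hab : a ≤ b) :
    UniformCauchySeqOn x atTop (Icc a b) := by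
  have hb := s.hb
  obtain ⟨D, Γ, hD0, hΓ0, hkey⟩ := abNdb_key s h r hx hr he ha hab
  have hlim0 : Tendsto (fun n : ℕ => b / ((n : ℝ) + 2)) atTop (𝓝 0) := by
    have h1 : Tendsto (fun n : ℕ => ((n : ℝ) + 2)) atTop atTop :=
      tendsto_atTop_add_const_right _ _ tendsto_natCast_atTop_atTop
    exact h1.const_div_atTop b
  have hlim : Tendsto (fun n : ℕ => b / ((n : ℝ) + 2)) atTop (𝓝[>] 0) := by
    rw [tendsto_nhdsWithin_iff]
    refine ⟨hlim0, Eventually.of_forall fun n => ?_⟩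
    show (0 : ℝ) < b / ((n : ℝ) + 2)
    positivity
  have hph : Tendsto (fun n : ℕ => D * √(Γ * ph f B (b / (n + 2)) / (a / 4))) atTop (𝓝 0) := by
    have h1 : Tendsto (fun n : ℕ => ph f B (b / ((n : ℝ) + 2))) atTop (𝓝 0) := s.ph_lim.comp hlim
    have h2 := ((h1.const_mul Γ).div_const (a / 4)).sqrt.const_mul D
    simpa using h2
  rw [Metric.uniformCauchySeqOn_iff]
  intro ε hε
  have hev := ((tendsto_order.1 hph).2 ε hε).and (hlim0.eventually_le_const (half_pos ha))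
  obtain ⟨n₀, hn₀⟩ := eventually_atTop.1 hev
  have hsym : ∀ n m : ℕ, n₀ ≤ n → n ≤ m → ∀ t ∈ Icc a b, dist (x n t) (x m t) < ε := by
    intro n m hn hnm t ht
    obtain ⟨h1, h2⟩ := hn₀ n hn
    rw [dist_eq_norm]
    exact (hkey n m hnm h2 t ht).trans_lt h1
  refine ⟨n₀, fun m hm n hn t ht => ?_⟩
  rcases le_total m n with hmn | hmn
  · exact hsym m n hm hmn t ht
  · rw [dist_comm]
    exact hsym n m hn hmn t ht

/-- Convergence of the approximations started at `b / (n + 2)`, locally uniformly on `(0, b]` in the strong norm.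
Proof. Fix `a`, `d = a / 2`. For `n` large, `b/(n+2) ≤ d`; on `[d, b]` `‖f‖`, `‖B‖` are bounded; `Slv.unif` gives
`‖x n t‖ ≤ R` on `[3a/4, b]`; for `z = x n - x m` `ap_diff` gives `∫_d^b ‖z‖² ≤ Γ ph(b/(n+2))`, `exists_good` on `[3a/4, a]`, `Slv.lip`:
`‖z t‖ ≤ D √(4 Γ ph(b/(n+2)) / a)` on `[a, b]`. So the sequence is uniformly Cauchy. -/
theorem St0.conv (s : St0 f B b cX) (h : NSA K J3 N C) (r : NSR K J3 N cX cY) {x : ℕ → ℝ → X}
    (hx : ∀ n : ℕ, Slv K J3 N f B (b / (n + 2)) b 0 (x n))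
    (hr : ∀ n : ℕ, ∀ t ∈ Icc (b / (n + 2)) b, cX (x n t) = x n t)
    (he : ∀ n : ℕ, ∀ t ∈ Icc (b / (n + 2)) b, ‖Kh K (x n t)‖ ^ 2 + ∫ r in (b / (n + 2))..t, ‖x n r‖ ^ 2 ≤
      ph f B t) : ∃ y : ℝ → X, ∀ a, 0 < a → a ≤ b → TendstoUniformlyOn x y atTop (Icc a b) := by
  have hcau : ∀ a, 0 < a → a ≤ b → UniformCauchySeqOn x atTop (Icc a b) :=
    fun a ha hab => abNdb_cauchy s h r hx hr he ha hab
  have hex : ∀ t : ℝ, ∃ z : X, 0 < t → t ≤ b → Tendsto (fun n => x n t) atTop (𝓝 z) := by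
    intro t
    by_cases ht : 0 < t ∧ t ≤ b
    · have h1 := (hcau t ht.1 ht.2).cauchy_map (x := t) ⟨le_rfl, ht.2⟩
      obtain ⟨z, hz⟩ := cauchy_map_iff_exists_tendsto.1 h1
      exact ⟨z, fun _ _ => hz⟩
    · exact ⟨0, fun h1 h2 => absurd ⟨h1, h2⟩ ht⟩
  choose y hy using hex
  refine ⟨y, fun a ha hab => ?_⟩
  exact (hcau a ha hab).tendstoUniformlyOn_of_tendsto
    fun t ht => hy t (ha.trans_le ht.1) ht.2

end

end Pool.Agent.Lib.MP_79abb3_an.PD
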