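import Pool.Agent.Lib.MP_79abb3_an.PD.AbNdb

/-!
Theorem D, block S, abstract part: solutions from time `0`.
-/

set_option autoImplicit false
set_option linter.unusedSectionVars false

open MeasureTheory Set Filter Topology Function
open scoped ENNReal InnerProductSpace ComplexConjugate

namespace Pool.Agent.Lib.MP_79abb3_an.PD

open Pool.Agent.Lib.MP_79abb3_an.SC

section
variable {X Y : Type} [NormedAddCommGroup X] [InnerProductSpace ℂ X] [CompleteSpace X]
  [NormedAddCommGroup Y] [NormedSpace ℂ Y]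
variable {K : X →L[ℂ] X} {J3 : Y →L[ℂ] X} {N : X →L[ℂ] X →L[ℂ] Y} {C : ℝ} {f : ℝ → X}
  {B : ℝ → X →L[ℂ] X} {b : ℝ} {cX : X →L[ℝ] X} {cY : Y →L[ℝ] Y}

/-- **Solutions from time `0`.** Proof: `ap`, `conv`, `Mild.lim` (with `Pb_nl`, `Mild.restart`); the energy bound passes to
the limit on `[a, t]`, so `‖Kh x t‖² ≤ ph t`, `∫_a^b ‖x‖² ≤ ph b` for all `a > 0`
(`integrableOn_Ioc_of_intervalIntegral_norm_bounded` or monotone convergence). -/
theorem St0.start (s : St0 f B b cX) (h : NSA K J3 N C) (r : NSR K J3 N cX cY) :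
    ∃ x : ℝ → X, (∀ a, 0 < a → a ≤ b → Slv K J3 N f B a b (x a) x) ∧ (∀ t ∈ Ioc 0 b, cX (x t) = x t) ∧
      Tendsto (fun t => ‖Kh K (x t)‖) (𝓝[>] 0) (𝓝 0) ∧ IntegrableOn (fun t => ‖x t‖ ^ 2) (Ioc 0 b) := by
  have hb := s.hb
  have hpos : ∀ n : ℕ, 0 < b / ((n : ℝ) + 2) := fun n => by positivity
  have hle : ∀ n : ℕ, b / ((n : ℝ) + 2) ≤ b := fun n => by
    apply div_le_self hb.le
    have : (0 : ℝ) ≤ n := Nat.cast_nonneg n
    linarith
  choose x hx hr he using fun n : ℕ => s.ap h r (hpos n) (hle n)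
  obtain ⟨y, hy⟩ := s.conv h r hx hr he
  have hsmall : ∀ a : ℝ, 0 < a → ∃ n0 : ℕ, ∀ n : ℕ, n0 ≤ n → b / ((n : ℝ) + 2) ≤ a := by
    intro a ha
    obtain ⟨n0, hn0⟩ := exists_nat_ge (b / a)
    refine ⟨n0, fun n hn => ?_⟩
    rw [div_le_iff₀ (by positivity)]
    rw [div_le_iff₀ ha] at hn0
    have h1 : (n0 : ℝ) ≤ n := by exact_mod_cast hn
    nlinarith
  -- restriction of the approximations
  have hres : ∀ a : ℝ, 0 < a → a ≤ b → ∀ n : ℕ, b / ((n : ℝ) + 2) ≤ a →
      Slv K J3 N f B a b (x n a) (x n) := by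
    intro a ha hab n hn
    have hsub : Icc (b / ((n : ℝ) + 2)) b ⊆ Ioc 0 b := fun t ht =>
      ⟨lt_of_lt_of_le (hpos n) ht.1, ht.2⟩
    obtain ⟨M, hM⟩ := Pb_nl (a := b / ((n : ℝ) + 2)) (b := b) N (s.cf.mono hsub) (s.cB.mono hsub)
    exact (hx n).restart h.ker hM ⟨hn, hab⟩
  have hconv : ∀ a : ℝ, 0 < a → a ≤ b → ∀ n0 : ℕ,
      TendstoUniformlyOn (fun n => x (n + n0)) y atTop (Icc a b) := by
    intro a ha hab n0 u hu
    exact (tendsto_add_atTop_nat n0).eventually (hy a ha hab u hu)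
  have hslv : ∀ a, 0 < a → a ≤ b → Slv K J3 N f B a b (y a) y := by
    intro a ha hab
    obtain ⟨n0, hn0⟩ := hsmall a ha
    have hsub : Icc a b ⊆ Ioc 0 b := fun t ht => ⟨lt_of_lt_of_le ha ht.1, ht.2⟩
    obtain ⟨M, hM⟩ := Pb_nl (a := a) (b := b) N (s.cf.mono hsub) (s.cB.mono hsub)
    exact Mild.lim h.ker hM hab (x := fun n => x (n + n0))
      (fun k => hres a ha hab (k + n0) (hn0 _ (by omega))) (hconv a ha hab n0)
  have hpt : ∀ t ∈ Ioc 0 b, Tendsto (fun n => x n t) atTop (𝓝 (y t)) := by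
    intro t ht
    exact (hy t ht.1 ht.2).tendsto_at ⟨le_rfl, ht.2⟩
  have hen : ∀ t ∈ Ioc 0 b, ‖Kh K (y t)‖ ^ 2 ≤ ph f B t := by
    intro t ht
    obtain ⟨n0, hn0⟩ := hsmall t ht.1
    have h1 : Tendsto (fun n => ‖Kh K (x n t)‖ ^ 2) atTop (𝓝 (‖Kh K (y t)‖ ^ 2)) :=
      ((((Kh K).continuous.tendsto (y t)).comp (hpt t ht)).norm).pow 2
    refine le_of_tendsto h1 ?_
    filter_upwards [eventually_ge_atTop n0] with n hn
    have h2 := he n t ⟨hn0 n hn, ht.2⟩
    have h3 : 0 ≤ ∫ r in (b / ((n : ℝ) + 2))..t, ‖x n r‖ ^ 2 :=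
      intervalIntegral.integral_nonneg (hn0 n hn) fun r _ => by positivity
    linarith
  refine ⟨y, hslv, ?_, ?_, ?_⟩
  · intro t ht
    obtain ⟨n0, hn0⟩ := hsmall t ht.1
    have h1 : Tendsto (fun n => cX (x n t)) atTop (𝓝 (cX (y t))) :=
      (cX.continuous.tendsto (y t)).comp (hpt t ht)
    refine tendsto_nhds_unique (h1.congr' ?_) (hpt t ht)
    filter_upwards [eventually_ge_atTop n0] with n hn
    exact hr n t ⟨hn0 n hn, ht.2⟩
  · have h1 : Tendsto (fun t => √(ph f B t)) (𝓝[>] 0) (𝓝 0) := by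
      have := (Real.continuous_sqrt.tendsto 0).comp s.ph_lim
      rw [Real.sqrt_zero] at this
      exact this
    refine tendsto_of_tendsto_of_tendsto_of_le_of_le' tendsto_const_nhds h1
      (Eventually.of_forall fun t => norm_nonneg _) ?_
    filter_upwards [Ioc_mem_nhdsGT hb] with t ht
    exact Real.le_sqrt_of_sq_le (hen t ht)
  · have hseq : Tendsto (fun n : ℕ => b / ((n : ℝ) + 2)) atTop (𝓝 0) := by
      apply Tendsto.div_atTop tendsto_const_nhds
      exact tendsto_atTop_add_const_right _ _ tendsto_natCast_atTop_atTop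
    have hint : ∀ a, 0 < a → a ≤ b → IntegrableOn (fun t => ‖y t‖ ^ 2) (Ioc a b) := by
      intro a ha hab
      have h1 : ContinuousOn (fun t => ‖y t‖ ^ 2) (Icc a b) := ((hslv a ha hab).cont.norm).pow 2
      exact (h1.integrableOn_Icc).mono_set Ioc_subset_Icc_self
    refine integrableOn_Ioc_of_intervalIntegral_norm_bounded_left (I := ph f B b)
      (fun n : ℕ => hint (b / ((n : ℝ) + 2)) (hpos n) (hle n)) hseq (Eventually.of_forall fun n => ?_)
    set a := b / ((n : ℝ) + 2) with ha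
    have ha0 : 0 < a := hpos n
    have hab : a ≤ b := hle n
    obtain ⟨n0, hn0⟩ := hsmall a ha0
    have e1 : ∫ t in Ioc a b, ‖‖y t‖ ^ 2‖ = ∫ t in a..b, ‖y t‖ ^ 2 := by
      rw [intervalIntegral.integral_of_le hab]
      refine setIntegral_congr_fun measurableSet_Ioc fun t _ => ?_
      show ‖‖y t‖ ^ 2‖ = ‖y t‖ ^ 2
      rw [Real.norm_of_nonneg (by positivity)]
    rw [e1]
    obtain ⟨R, hR⟩ := isCompact_Icc.exists_bound_of_continuousOn (hslv a ha0 hab).cont
    have hlim : Tendsto (fun k => ∫ t in a..b, ‖x k t‖ ^ 2) atTop (𝓝 (∫ t in a..b, ‖y t‖ ^ 2)) := by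
      refine intervalIntegral.tendsto_integral_filter_of_dominated_convergence
        (fun _ => (|R| + 1) ^ 2) ?_ ?_ intervalIntegrable_const ?_
      · filter_upwards [eventually_ge_atTop n0] with k hk
        have h1 : ContinuousOn (fun t => ‖x k t‖ ^ 2) (Icc a b) :=
          ((hres a ha0 hab k (hn0 k hk)).cont.norm).pow 2
        rw [uIoc_of_le hab]
        exact (h1.mono Ioc_subset_Icc_self).aestronglyMeasurable measurableSet_Ioc
      · filter_upwards [Metric.tendstoUniformlyOn_iff.1 (hy a ha0 hab) 1 one_pos] with k hk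
        refine Eventually.of_forall fun t ht => ?_
        rw [uIoc_of_le hab] at ht
        have ht' : t ∈ Icc a b := Ioc_subset_Icc_self ht
        have h1 := hk t ht'
        rw [dist_comm, dist_eq_norm] at h1
        have h2 := (hR t ht').trans (le_abs_self R)
        have h3 : ‖x k t‖ ≤ |R| + 1 := by
          calc ‖x k t‖ = ‖(x k t - y t) + y t‖ := by rw [sub_add_cancel]
            _ ≤ ‖x k t - y t‖ + ‖y t‖ := norm_add_le _ _
            _ ≤ |R| + 1 := by linarith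
        rw [Real.norm_of_nonneg (by positivity)]
        exact pow_le_pow_left₀ (norm_nonneg _) h3 2
      · refine Eventually.of_forall fun t ht => ?_
        rw [uIoc_of_le hab] at ht
        exact ((hpt t ⟨ha0.trans ht.1, ht.2⟩).norm).pow 2
    refine le_of_tendsto hlim ?_
    filter_upwards [eventually_ge_atTop n0] with k hk
    have hk' := hn0 k hk
    have hkb := hle k
    have h2 := he k b ⟨hkb, le_rfl⟩
    have hc : ContinuousOn (fun t => ‖x k t‖ ^ 2) (Icc (b / ((k : ℝ) + 2)) b) :=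
      ((hx k).cont.norm).pow 2
    have h3 : ∫ t in (b / ((k : ℝ) + 2))..b, ‖x k t‖ ^ 2 =
        (∫ t in (b / ((k : ℝ) + 2))..a, ‖x k t‖ ^ 2) + ∫ t in a..b, ‖x k t‖ ^ 2 := by
      rw [intervalIntegral.integral_add_adjacent_intervals]
      · exact (hc.mono (Icc_subset_Icc le_rfl hab)).intervalIntegrable_of_Icc hk'
      · exact (hc.mono (Icc_subset_Icc hk' le_rfl)).intervalIntegrable_of_Icc hab
    have h4 : 0 ≤ ∫ t in (b / ((k : ℝ) + 2))..a, ‖x k t‖ ^ 2 :=
      intervalIntegral.integral_nonneg hk' fun r _ => by positivity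
    have h5 : 0 ≤ ‖Kh K (x k b)‖ ^ 2 := by positivity
    linarith

end

end Pool.Agent.Lib.MP_79abb3_an.PD
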