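import Pool.Agent.Lib.MP_79abb3_an.W.SpDef
import Pool.Agent.Lib.MP_79abb3_an.W.P0c1
import Pool.Agent.Lib.MP_79abb3_an.W.P0b2
import Pool.Agent.Lib.MP_79abb3_an.W.P0b4
import Pool.Agent.Lib.MP_79abb3_an.W.TrDef
import Pool.Agent.Lib.MP_79abb3_an.PD.AbFD
import Pool.Agent.Lib.MP_79abb3_an.SC.ExR
import Pool.Agent.Lib.MP_79abb3_an.SC.NcStep
import Pool.Agent.Lib.MP_79abb3_an.W.A3le
import Pool.Agent.Lib.MP_79abb3_an.W.TrB

section

/-!
Theorem W (MP_79abb3_an), Phase 0: a smooth field which vanishes on the closed or arbitrary set `W` has zero trace on `W`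
in the sense of `IsH0` (limit in `H¹` of functions which vanish near `W`).
-/

set_option autoImplicit false
set_option linter.unusedSectionVars false

open MeasureTheory Set Filter Topology Function
open scoped ENNReal RealInnerProductSpace

namespace Pool.Agent.Lib.MP_79abb3_an.W

variable {d : ℕ}

/-- JOB P0-c2. The derivative of a smooth function vanishes a.e. on its zero set: for every direction `i` the set
`{f = 0, pd i f ≠ 0}` meets every line in the direction `i` in a countable (discrete) set, so it is a null set by Fubini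
(`MeasureTheory.Measure.pi`/`volume_preserving_piFinSuccAbove`, or `measure_lineMap`-type arguments; alternatively by
Lebesgue density points, or `MeasureTheory.ae_... ` for Lipschitz functions). -/
theorem fderiv_zero_ae {f : En d → ℝ} (hf : Smo f) : ∀ᵐ x, f x = 0 → fderiv ℝ f x = 0 := by
  have h1 : ∀ᵐ x, DifferentiableAt ℝ (fun x => |f x|) x := by
    have h2 : ∀ N : ℕ, ∀ᵐ x, x ∈ Metric.ball (0 : En d) N → DifferentiableAt ℝ (fun x => |f x|) x := by
      intro N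
      have hc : Continuous (fderiv ℝ f) := ContDiff.continuous_fderiv hf (by norm_num)
      obtain ⟨C, hC⟩ := (isCompact_closedBall (0 : En d) N).exists_bound_of_continuousOn
        hc.continuousOn
      have hL : LipschitzOnWith (Real.toNNReal C) f (Metric.ball (0 : En d) N) := by
        refine Convex.lipschitzOnWith_of_nnnorm_fderiv_le (𝕜 := ℝ) (fun x _ => hf.differentiable x)
          (fun x hx => ?_) (convex_ball _ _)
        rw [← NNReal.coe_le_coe, coe_nnnorm]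
        exact (hC x (Metric.ball_subset_closedBall hx)).trans (Real.le_coe_toNNReal C)
      have hL' : LipschitzOnWith (Real.toNNReal C) (fun x => |f x|) (Metric.ball (0 : En d) N) := by
        refine LipschitzOnWith.of_dist_le_mul fun x hx y hy => ?_
        refine le_trans ?_ (hL.dist_le_mul x hx y hy)
        rw [Real.dist_eq, Real.dist_eq]
        exact abs_abs_sub_abs_le_abs_sub _ _
      have h3 := hL'.ae_differentiableWithinAt (μ := volume) measurableSet_ball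
      rw [ae_restrict_iff' measurableSet_ball] at h3
      filter_upwards [h3] with x hx hxb
      exact (hx hxb).differentiableAt (Metric.isOpen_ball.mem_nhds hxb)
    filter_upwards [ae_all_iff.2 h2] with x hx
    obtain ⟨N, hN⟩ := exists_nat_gt ‖x‖
    exact hx N (by simpa using hN)
  filter_upwards [h1] with x hx h0
  have hmin : IsLocalMin (fun x => |f x|) x := by
    refine Eventually.of_forall fun y => ?_
    simp only [h0, abs_zero]
    exact abs_nonneg _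
  have h2 := hx.hasFDerivAt
  rw [hmin.fderiv_eq_zero] at h2
  have h3 : HasFDerivAt f (0 : En d →L[ℝ] ℝ) x := by
    rw [hasFDerivAt_iff_isLittleO] at h2 ⊢
    refine Asymptotics.IsLittleO.of_norm_left ?_
    refine (h2.norm_left).congr_left fun y => ?_
    simp [h0]
  exact h3.fderiv

end Pool.Agent.Lib.MP_79abb3_an.W
end

section

/-!
Theorem W (MP_79abb3_an), Phase 0: a smooth field which vanishes on the closed or arbitrary set `W` has zero trace on `W`
in the sense of `IsH0` (limit in `H¹` of functions which vanish near `W`).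
-/

set_option autoImplicit false
set_option linter.unusedSectionVars false

open MeasureTheory Set Filter Topology Function
open scoped ENNReal RealInnerProductSpace

namespace Pool.Agent.Lib.MP_79abb3_an.W

variable {d : ℕ}

private theorem p0_dct {G : Type} [NormedAddCommGroup G] {g : ℕ → En d → G}
    (hm : ∀ n, AEStronglyMeasurable (g n) (volume : Measure (En d))) {b : En d → ℝ}
    (hb : MemLp b 2 (volume : Measure (En d))) (hgb : ∀ n x, ‖g n x‖ ≤ b x)
    (hlim : ∀ᵐ x : En d, Tendsto (fun n => g n x) atTop (𝓝 0)) :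
    Tendsto (fun n => eLpNorm (g n) 2 (volume : Measure (En d))) atTop (𝓝 0) := by
  have h1 : ∀ n, eLpNorm (g n) 2 (volume : Measure (En d)) =
      (∫⁻ x, ‖g n x‖ₑ ^ (2 : ℝ)) ^ (1 / (2 : ℝ)) := fun n => by
    rw [eLpNorm_eq_lintegral_rpow_enorm_toReal two_ne_zero ENNReal.ofNat_ne_top]
    simp
  have hbf : ∫⁻ x, ‖b x‖ₑ ^ (2 : ℝ) ≠ ∞ := by
    have h2 := lintegral_rpow_enorm_lt_top_of_eLpNorm_lt_top two_ne_zero ENNReal.ofNat_ne_top hb.2
    simpa using h2.ne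
  have h2 : Tendsto (fun n => ∫⁻ x, ‖g n x‖ₑ ^ (2 : ℝ)) atTop (𝓝 (∫⁻ _ : En d, 0)) := by
    refine tendsto_lintegral_of_dominated_convergence' (fun x => ‖b x‖ₑ ^ (2 : ℝ))
      (fun n => (hm n).enorm.pow_const _) (fun n => Eventually.of_forall fun x => ?_) hbf ?_
    · refine ENNReal.rpow_le_rpow ?_ (by norm_num)
      rw [enorm_le_iff_norm_le]
      exact (hgb n x).trans (le_abs_self _)
    · filter_upwards [hlim] with x hx
      have h3 : Tendsto (fun n => ‖g n x‖ₑ) atTop (𝓝 0) := by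
        have := (continuous_enorm.tendsto (0 : G)).comp hx
        rwa [enorm_zero] at this
      have h4 := ((ENNReal.continuous_rpow_const (y := (2 : ℝ))).tendsto 0).comp h3
      rwa [ENNReal.zero_rpow_of_pos (by norm_num)] at h4
  rw [lintegral_zero] at h2
  have h5 := ((ENNReal.continuous_rpow_const (y := (1 / 2 : ℝ))).tendsto 0).comp h2
  rw [ENNReal.zero_rpow_of_pos (by norm_num)] at h5
  refine h5.congr fun n => ?_
  rw [h1 n]
  rfl

/-- the sum representation of a field -/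
private theorem p0_sum (v : En d) : v = ∑ i, v i • ei i := by
  ext j
  simp [ei, Pi.single_apply]

private theorem p0_ei_norm (i : Fin d) : ‖(ei i : En d)‖ = 1 := by
  simp [ei]

private theorem p0_comp {U : En d → En d} (hU : Smo U) (i : Fin d) : Smo fun x => U x i := by
  exact contDiff_euclidean.1 hU i

private theorem p0_comp_fderiv {U : En d → En d} (hU : Smo U) (i : Fin d) (x v : En d) :
    fderiv ℝ (fun x => U x i) x v = fderiv ℝ U x v i := by
  have h1 := (EuclideanSpace.proj (𝕜 := ℝ) i).hasFDerivAt.comp x (hU.differentiable x).hasFDerivAt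
  have h2 : fderiv ℝ (fun x => U x i) x =
      (EuclideanSpace.proj (𝕜 := ℝ) i).comp (fderiv ℝ U x) := h1.fderiv
  rw [h2]
  rfl

private theorem p0_norm_le_sum (v : En d) : ‖v‖ ≤ ∑ i, |v i| := by
  conv_lhs => rw [p0_sum v]
  refine (norm_sum_le _ _).trans (Finset.sum_le_sum fun i _ => ?_)
  rw [norm_smul, p0_ei_norm, mul_one, Real.norm_eq_abs]

private theorem p0_abs_le (v : En d) (i : Fin d) : |v i| ≤ ‖v‖ := by
  have := PiLp.norm_apply_le v i
  rwa [Real.norm_eq_abs] at this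

private theorem p0_clm_le (L : En d →L[ℝ] En d) (l : Fin d → ℝ)
    (h : ∀ i v, |L v i| ≤ l i * ‖v‖) : ‖L‖ ≤ ∑ i, |l i| := by
  refine L.opNorm_le_bound (Finset.sum_nonneg fun i _ => abs_nonneg _) fun v => ?_
  refine (p0_norm_le_sum _).trans ?_
  rw [Finset.sum_mul]
  exact Finset.sum_le_sum fun i _ => (h i v).trans
    (mul_le_mul_of_nonneg_right (le_abs_self _) (norm_nonneg _))

/-- JOB P0-c3. Zero trace for a smooth field with compact support which vanishes on `W`: components `θ_n ∘ U_i`. Support: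
`tsupport (θ_n ∘ U_i) ⊆ {|U_i| ≥ 1/(n+1)}`. Convergence in `L²`: dominated convergence (the supports are in `tsupport U`,
a.e. `D(θ_n ∘ U_i) = θ_n'(U_i) DU_i → DU_i`, since either `U_i(x) ≠ 0` or `DU_i(x) = 0`). -/
theorem zero_trace {U : En d → En d} (hU : Smo U) (hc : HasCompactSupport U) {W : Set (En d)}
    (hW : ∀ x ∈ W, U x = 0) {ε : ℝ≥0∞} (hε : 0 < ε) :
    ∃ φ : En d → En d, Smo φ ∧ HasCompactSupport φ ∧ Disjoint (tsupport φ) W ∧
      eLpNorm (fun x => U x - φ x) 2 volume ≤ ε ∧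
      eLpNorm (fun x => fderiv ℝ U x - fderiv ℝ φ x) 2 volume ≤ ε := by
  obtain ⟨θ, C, hs, hz, hid, hsub, hder⟩ := exists_theta
  have hC0 : 0 ≤ C := (abs_nonneg _).trans (hder 0 0)
  have hn : ∀ n : ℕ, (0 : ℝ) < (n : ℝ) + 1 := fun n => by positivity
  have hθ0 : ∀ n, θ n 0 = 0 := fun n => hz n 0 (by rw [abs_zero]; positivity)
  set P : ℕ → En d → En d := fun n x => WithLp.toLp 2 fun i => θ n (U x i) with hP
  have hPa : ∀ n x i, P n x i = θ n (U x i) := fun n x i => rfl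
  have hPs : ∀ n, Smo (P n) := fun n =>
    contDiff_euclidean.2 fun i => (hs n).comp (p0_comp hU i)
  have hP0 : ∀ n x, U x = 0 → P n x = 0 := fun n x hx => by
    ext i
    rw [hPa, hx]
    exact hθ0 n
  have hPc : ∀ n, HasCompactSupport (P n) := fun n => by
    refine hc.mono fun x hx => ?_
    intro h0
    exact hx (hP0 n x h0)
  have hPd : ∀ n, Disjoint (tsupport (P n)) W := fun n => by
    have hcl : IsClosed {x : En d | ∃ i, 1 / ((n : ℝ) + 1) ≤ |U x i|} := by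
      have : {x : En d | ∃ i, 1 / ((n : ℝ) + 1) ≤ |U x i|} =
          ⋃ i, {x : En d | 1 / ((n : ℝ) + 1) ≤ |U x i|} := by
        ext x; simp
      rw [this]
      refine isClosed_iUnion_of_finite fun i => ?_
      exact isClosed_le continuous_const ((p0_comp hU i).continuous.abs)
    have hsub' : tsupport (P n) ⊆ {x : En d | ∃ i, 1 / ((n : ℝ) + 1) ≤ |U x i|} := by
      refine closure_minimal (fun x hx => ?_) hcl
      by_contra h
      refine hx ?_
      ext i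
      rw [hPa]
      refine hz n _ ?_
      by_contra h2
      push Not at h2
      exact h ⟨i, h2.le⟩
    refine Set.disjoint_left.2 fun x hx hxW => ?_
    obtain ⟨i, hi⟩ := hsub' hx
    rw [hW x hxW] at hi
    have h3 : |(0 : En d) i| = 0 := by simp
    rw [h3] at hi
    exact absurd hi (not_le.2 (by positivity))
  -- the derivative of the components
  have hPf : ∀ n x v i, fderiv ℝ (P n) x v i = deriv (θ n) (U x i) * fderiv ℝ U x v i := by
    intro n x v i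
    rw [← p0_comp_fderiv (hPs n) i x v, ← p0_comp_fderiv hU i x v]
    have h1 : HasFDerivAt (fun x => U x i) (fderiv ℝ (fun x => U x i) x) x :=
      ((p0_comp hU i).differentiable x).hasFDerivAt
    have h2 : HasDerivAt (θ n) (deriv (θ n) (U x i)) (U x i) :=
      ((hs n).differentiable (by norm_num) _).hasDerivAt
    have h3 := h2.comp_hasFDerivAt x h1
    have h4 : fderiv ℝ (fun x => P n x i) x =
      deriv (θ n) (U x i) • fderiv ℝ (fun x => U x i) x := h3.fderiv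
    rw [h4]
    rfl
  -- `L²` convergence of the functions
  have l1 : Tendsto (fun n => eLpNorm (fun x => U x - P n x) 2 (volume : Measure (En d))) atTop
      (𝓝 0) := by
    refine p0_dct (fun n => (hU.continuous.sub (hPs n).continuous).aestronglyMeasurable)
      (b := (tsupport U).indicator fun _ => ∑ _i : Fin d, C) ?_ (fun n x => ?_)
      (Eventually.of_forall fun x => ?_)
    · refine memLp_indicator_const 2 (isClosed_tsupport U).measurableSet _ (Or.inr ?_)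
      exact (IsCompact.measure_lt_top hc).ne
    · by_cases hx : x ∈ tsupport U
      · rw [indicator_of_mem hx]
        refine (p0_norm_le_sum _).trans (Finset.sum_le_sum fun i _ => ?_)
        have h1 := hsub n (U x i)
        have h2 : |(U x - P n x) i| = |θ n (U x i) - U x i| := by
          rw [abs_sub_comm]
          rfl
        rw [h2]
        refine h1.trans (div_le_self hC0 ?_)
        have := (n.cast_nonneg : (0 : ℝ) ≤ n)
        linarith
      · rw [indicator_of_notMem hx]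
        have h0 : U x = 0 := image_eq_zero_of_notMem_tsupport hx
        rw [hP0 n x h0, h0, sub_zero, norm_zero]
    · have h1 : Tendsto (fun n : ℕ => (∑ _i : Fin d, C) * (1 / ((n : ℝ) + 1))) atTop (𝓝 0) := by
        have := (tendsto_one_div_add_atTop_nhds_zero_nat (𝕜 := ℝ)).const_mul (∑ _i : Fin d, C)
        rwa [mul_zero] at this
      refine squeeze_zero_norm (fun n => ?_) h1
      refine (p0_norm_le_sum _).trans ?_
      rw [Finset.sum_mul]
      refine Finset.sum_le_sum fun i _ => ?_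
      have h2 : |(U x - P n x) i| = |θ n (U x i) - U x i| := by
        rw [abs_sub_comm]
        rfl
      rw [h2, mul_one_div]
      exact hsub n (U x i)
  -- `L²` convergence of the derivatives
  have hae : ∀ᵐ x : En d, ∀ i, U x i = 0 → fderiv ℝ (fun x => U x i) x = 0 :=
    ae_all_iff.2 fun i => fderiv_zero_ae (p0_comp hU i)
  have hcf : ∀ n, Continuous fun x => fderiv ℝ U x - fderiv ℝ (P n) x := fun n =>
    (ContDiff.continuous_fderiv hU (by norm_num)).sub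
      (ContDiff.continuous_fderiv (hPs n) (by norm_num))
  have hdiff : ∀ n x v i, (fderiv ℝ U x - fderiv ℝ (P n) x) v i =
      (1 - deriv (θ n) (U x i)) * fderiv ℝ U x v i := fun n x v i => by
    have h1 : (fderiv ℝ U x - fderiv ℝ (P n) x) v i =
      fderiv ℝ U x v i - fderiv ℝ (P n) x v i := rfl
    rw [h1, hPf n x v i]
    ring
  have l2 : Tendsto (fun n => eLpNorm (fun x => fderiv ℝ U x - fderiv ℝ (P n) x) 2
      (volume : Measure (En d))) atTop (𝓝 0) := by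
    refine p0_dct (fun n => (hcf n).aestronglyMeasurable)
      (b := fun x => (∑ _i : Fin d, (1 + C)) * ‖fderiv ℝ U x‖) ?_ (fun n x => ?_) ?_
    · have h1 : Continuous fun x => (∑ _i : Fin d, (1 + C)) * ‖fderiv ℝ U x‖ :=
        continuous_const.mul (ContDiff.continuous_fderiv hU (by norm_num)).norm
      refine h1.memLp_of_hasCompactSupport ?_
      exact (hc.fderiv ℝ).norm.mul_left
    · have h1 := p0_clm_le (fderiv ℝ U x - fderiv ℝ (P n) x)
        (fun _ => (1 + C) * ‖fderiv ℝ U x‖) (fun i v => by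
          rw [hdiff n x v i, abs_mul, mul_assoc]
          refine mul_le_mul ?_ ?_ (abs_nonneg _) (by positivity)
          · refine (abs_sub _ _).trans ?_
            rw [abs_one]
            linarith [hder n (U x i)]
          · exact (p0_abs_le _ i).trans ((fderiv ℝ U x).le_opNorm v))
      refine h1.trans (le_of_eq ?_)
      rw [Finset.sum_mul]
      exact Finset.sum_congr rfl fun i _ => abs_of_nonneg (by positivity)
    · filter_upwards [hae] with x hx
      have hev : ∀ i, ∀ᶠ n in atTop, ∀ v, (fderiv ℝ U x - fderiv ℝ (P n) x) v i = 0 := by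
        intro i
        by_cases h0 : U x i = 0
        · refine Eventually.of_forall fun n v => ?_
          rw [hdiff n x v i, ← p0_comp_fderiv hU i x v, hx i h0]
          simp
        · have h1 : 0 < |U x i| / 3 := by
            have := abs_pos.2 h0
            positivity
          obtain ⟨N, hN⟩ := exists_nat_one_div_lt h1
          filter_upwards [eventually_ge_atTop N] with n hnN v
          have h2 : 2 / ((n : ℝ) + 1) < |U x i| := by
            have h3 : 1 / ((n : ℝ) + 1) ≤ 1 / ((N : ℝ) + 1) :=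
              one_div_le_one_div_of_le (hn N) (by
                have : (N : ℝ) ≤ n := by exact_mod_cast hnN
                linarith)
            have h4 : 2 / ((n : ℝ) + 1) = 2 * (1 / ((n : ℝ) + 1)) := by ring
            rw [h4]
            linarith
          have h5 : deriv (θ n) (U x i) = 1 := by
            have h6 : θ n =ᶠ[𝓝 (U x i)] fun t => t := by
              have : ∀ᶠ t in 𝓝 (U x i), 2 / ((n : ℝ) + 1) < |t| :=
                continuous_abs.continuousAt.eventually (lt_mem_nhds h2)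
              filter_upwards [this] with t ht
              exact hid n t ht.le
            rw [h6.deriv_eq, deriv_id'']
          rw [hdiff n x v i, h5, sub_self, zero_mul]
      have hall := eventually_all.2 hev
      refine tendsto_const_nhds.congr' ?_
      filter_upwards [hall] with n hn'
      ext v i
      rw [hn' i v]
      rfl
  obtain ⟨n, hn1, hn2⟩ := ((l1.eventually (ge_mem_nhds hε)).and
    (l2.eventually (ge_mem_nhds hε))).exists
  exact ⟨P n, hPs n, hPc n, hPd n, hn1, hn2⟩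

end Pool.Agent.Lib.MP_79abb3_an.W
end

section

/-!
Theorem W (MP_79abb3_an), Phase 0: properties of the lift `L(t) = ∑_k σ_k(t) Y_k`.
-/

set_option autoImplicit false
set_option linter.unusedSectionVars false

open MeasureTheory Set Filter Topology Function
open scoped ENNReal RealInnerProductSpace

namespace Pool.Agent.Lib.MP_79abb3_an.W

variable {d : ℕ} {Ω W : Set (En d)} {u₀ : En d → En d} {Y : ℕ → En d → En d} {ω τ : ℕ → ℝ}

private theorem p0_lft_split (h : P0Seq Ω W u₀ Y ω τ) {n : ℕ} {t : ℝ} (h1 : τ (n + 1) ≤ t)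
    (h2 : t ≤ τ n) (x : En d) :
    lft Y τ t x = ∑ k ∈ Finset.range n, Y k x + sg τ n t • Y n x := by
  rw [h.lft_sum h1, Finset.sum_range_succ]
  congr 1
  refine Finset.sum_congr rfl fun k hk => ?_
  rw [h.sg_one (Finset.mem_range.1 hk) h2, one_smul]

private theorem p0_norm_bound {f g w : En d → En d} {μ : Measure (En d)} {A : ℝ≥0∞}
    (hf : AEStronglyMeasurable f μ) (hg : AEStronglyMeasurable g μ) {c : ℝ} (hc0 : 0 ≤ c) (hc : c ≤ 1)
    (hA : eLpNorm g 2 μ ≤ A) (hw : ∀ x, w x = f x - c • g x) :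
    eLpNorm w 2 μ ≤ eLpNorm f 2 μ + A := by
  have h4 : w = f - c • g := funext hw
  rw [h4]
  refine (eLpNorm_sub_le hf (hg.const_smul _) one_le_two).trans ?_
  refine add_le_add le_rfl (le_trans ?_ hA)
  refine eLpNorm_mono fun x => ?_
  rw [Pi.smul_apply, norm_smul]
  refine mul_le_of_le_one_left (norm_nonneg _) ?_
  rwa [Real.norm_of_nonneg hc0]

private theorem p0_lft_bound (h : P0Seq Ω W u₀ Y ω τ) (hm : MemLp u₀ 2 (volume.restrict Ω)) {n : ℕ}
    {t : ℝ} (h1 : τ (n + 1) ≤ t) (h2 : t ≤ τ n) :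
    eLpNorm (fun x => u₀ x - lft Y τ t x) 2 (volume.restrict Ω) ≤
      eLpNorm (fun x => u₀ x - ∑ k ∈ Finset.range n, Y k x) 2 (volume.restrict Ω) +
        ENNReal.ofReal (ω n) := by
  have hYm : ∀ k, AEStronglyMeasurable (Y k) (volume.restrict Ω) := fun k =>
    (h.smo k).continuous.aestronglyMeasurable
  have hsm : AEStronglyMeasurable (fun x => ∑ k ∈ Finset.range n, Y k x) (volume.restrict Ω) := by
    have h3 : Continuous fun x => ∑ k ∈ Finset.range n, Y k x :=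
      continuous_finsetSum _ fun k _ => (h.smo k).continuous
    exact h3.aestronglyMeasurable
  refine p0_norm_bound (c := sg τ n t) (hm.1.sub hsm) (hYm n) (sgt_nonneg _ _ _) (sgt_le_one _ _ _)
    (h.nrm n) fun x => ?_
  show u₀ x - lft Y τ t x = u₀ x - ∑ k ∈ Finset.range n, Y k x - sg τ n t • Y n x
  rw [p0_lft_split h h1 h2, sub_add_eq_sub_sub]

/-- JOB P0-b8. `L(t) → u₀` in `L²(Ω)` for `t → 0+`: for `τ_{n+1} ≤ t ≤ τ_n` all terms with `k < n` have `σ_k = 1`, so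
`L(t) = ∑_{k<n} Y_k + σ_n(t) Y_n`, and `ω_n → 0`. -/
theorem P0Seq.lft_tendsto (h : P0Seq Ω W u₀ Y ω τ) (hm : MemLp u₀ 2 (volume.restrict Ω)) :
    Tendsto (fun t => eLpNorm (fun x => u₀ x - lft Y τ t x) 2 (volume.restrict Ω)) (𝓝[>] 0) (𝓝 0) := by
  have hω : Tendsto (fun n => ENNReal.ofReal (ω n)) atTop (𝓝 0) := by
    have h1 := ENNReal.tendsto_ofReal h.ωs.tendsto_atTop_zero
    rwa [ENNReal.ofReal_zero] at h1
  have hsum := h.lim.add hω
  rw [add_zero] at hsum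
  rw [ENNReal.tendsto_nhds_zero] at hsum ⊢
  intro ε hε
  obtain ⟨N, hN⟩ := eventually_atTop.1 (hsum ε hε)
  have h5 : Ioo (0 : ℝ) (τ N) ∈ 𝓝[>] (0 : ℝ) := Ioo_mem_nhdsGT (h.τ0 N)
  filter_upwards [h5] with t ht
  obtain ⟨n, hn1, hn2⟩ := h.exists_n' ht.1 (ht.2.le.trans (h.τa.antitone (Nat.zero_le N)))
  have h6 : N ≤ n := by
    by_contra hc
    push Not at hc
    have h7 : τ N ≤ τ (n + 1) := h.τa.antitone hc
    exact absurd (h7.trans hn1) (not_le.2 ht.2)
  exact (p0_lft_bound h hm hn1 hn2).trans (hN n h6)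

end Pool.Agent.Lib.MP_79abb3_an.W
end

section

/-!
Theorem W (MP_79abb3_an), Phase 0: trace zero.
-/

set_option autoImplicit false
set_option linter.unusedSectionVars false

open MeasureTheory Set Filter Topology Function
open scoped ENNReal RealInnerProductSpace

namespace Pool.Agent.Lib.MP_79abb3_an.W

variable {d : ℕ} {Ω W : Set (En d)}

private theorem p0g1_add (v v' : L2E d) {f f' : En d → En d} (hf : Continuous f) (hf' : Continuous f') {ε : ℝ≥0∞}
    (h : eLpNorm (fun x => (v : En d → En d) x - f x) 2 (volume.restrict Ω) ≤ ε / 2)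
    (h' : eLpNorm (fun x => (v' : En d → En d) x - f' x) 2 (volume.restrict Ω) ≤ ε / 2) :
    eLpNorm (fun x => ((v + v' : L2E d) : En d → En d) x - (f x + f' x)) 2 (volume.restrict Ω) ≤ ε := by
  have h1 : (fun x => ((v + v' : L2E d) : En d → En d) x - (f x + f' x)) =ᵐ[volume.restrict Ω]
      (fun x => (v : En d → En d) x - f x) + fun x => (v' : En d → En d) x - f' x := by
    filter_upwards [ae_restrict_of_ae (Lp.coeFn_add v v')] with x hx
    rw [hx, Pi.add_apply, Pi.add_apply]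
    abel
  rw [eLpNorm_congr_ae h1]
  have m1 : AEStronglyMeasurable (fun x => (v : En d → En d) x - f x) (volume.restrict Ω) :=
    ((Lp.memLp v).1.sub hf.aestronglyMeasurable).restrict
  have m2 : AEStronglyMeasurable (fun x => (v' : En d → En d) x - f' x) (volume.restrict Ω) :=
    ((Lp.memLp v').1.sub hf'.aestronglyMeasurable).restrict
  refine (eLpNorm_add_le m1 m2 (by norm_num)).trans ?_
  exact (add_le_add h h').trans (ENNReal.add_halves ε).le

theorem H0L.add {u u' : L2E d} {G G' : G2E d} (h : H0L Ω W u G) (h' : H0L Ω W u' G') :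
    H0L Ω W (u + u') (G + G') := by
  intro ε hε
  obtain ⟨φ, h1, h2, h3, h4, h5⟩ := h (ε / 2) (ENNReal.half_pos hε.ne')
  obtain ⟨φ', h1', h2', h3', h4', h5'⟩ := h' (ε / 2) (ENNReal.half_pos hε.ne')
  refine ⟨fun x => φ x + φ' x, h1.add h1', h2.add h2', ?_, ?_, fun i => ?_⟩
  · exact Disjoint.mono_left (tsupport_add φ φ') (h3.union_left h3')
  · exact p0g1_add u u' h1.continuous h1'.continuous h4 h4'
  · rw [pd_add h1 h1' i]
    exact p0g1_add (G i) (G' i) (h1.pd i).continuous (h1'.pd i).continuous (h5 i) (h5' i)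

theorem H0L.mono {u : L2E d} {G : G2E d} {W' : Set (En d)} (h : H0L Ω W u G) (hW : W' ⊆ W) : H0L Ω W' u G := by
  intro ε hε
  obtain ⟨φ, h1, h2, h3, h4⟩ := h ε hε
  exact ⟨φ, h1, h2, h3.mono_right hW, h4⟩

private theorem p0g1_cl (hΩo : IsOpen Ω) (hΩ : Bornology.IsBounded Ω) {f : En d → En d} (hf : Continuous f) :
    (clD Ω f : En d → En d) =ᵐ[volume.restrict Ω] f := by
  rw [Filter.EventuallyEq, ae_restrict_iff' hΩo.measurableSet]
  filter_upwards [cl_coe (clD_memLp hΩo hΩ hf)] with x hx hxΩ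
  show (cl (Ω.indicator f) : En d → En d) x = f x
  rw [hx, indicator_of_mem hxΩ]

/-- A smooth field with compact support which vanishes on `W` has trace zero on `W` (`zero_trace`; in `Ω` the classes `clD Ω`
agree with the functions; `‖pd i f x‖ ≤ ‖fderiv ℝ f x‖`). -/
theorem H0L_smooth (hΩo : IsOpen Ω) (hΩ : Bornology.IsBounded Ω) {U : En d → En d} (hU : Smo U)
    (hc : HasCompactSupport U) (hW : ∀ x ∈ W, U x = 0) :
    H0L Ω W (clD Ω U) (WithLp.toLp 2 fun i => clD Ω (pd i U)) := by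
  intro ε hε
  obtain ⟨φ, h1, h2, h3, h4, h5⟩ := zero_trace hU hc hW hε
  refine ⟨φ, h1, h2, h3, ?_, fun i => ?_⟩
  · have e : (fun x => (clD Ω U : En d → En d) x - φ x) =ᵐ[volume.restrict Ω] fun x => U x - φ x := by
      filter_upwards [p0g1_cl hΩo hΩ hU.continuous] with x hx
      rw [hx]
    rw [eLpNorm_congr_ae e]
    exact (eLpNorm_mono_measure _ Measure.restrict_le_self).trans h4
  · have e : (fun x => ((WithLp.toLp 2 fun i => clD Ω (pd i U) : G2E d) i : En d → En d) x - pd i φ x)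
        =ᵐ[volume.restrict Ω] fun x => pd i U x - pd i φ x := by
      filter_upwards [p0g1_cl hΩo hΩ (hU.pd i).continuous] with x hx
      show (clD Ω (pd i U) : En d → En d) x - pd i φ x = _
      rw [hx]
    rw [eLpNorm_congr_ae e]
    refine (eLpNorm_mono_measure _ Measure.restrict_le_self).trans (le_trans ?_ h5)
    refine eLpNorm_mono fun x => ?_
    show ‖fderiv ℝ U x (ei i) - fderiv ℝ φ x (ei i)‖ ≤ _
    rw [← _root_.sub_apply]
    refine ((fderiv ℝ U x - fderiv ℝ φ x).le_opNorm _).trans ?_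
    have : ‖(ei i : En d)‖ = 1 := by simp [ei]
    rw [this, mul_one]

end Pool.Agent.Lib.MP_79abb3_an.W
end

section

/-!
Theorem W (MP_79abb3_an), Phase 0: the classes of the lift, continuity in time.
-/

set_option autoImplicit false
set_option linter.unusedSectionVars false

open MeasureTheory Set Filter Topology Function
open scoped ENNReal RealInnerProductSpace

namespace Pool.Agent.Lib.MP_79abb3_an.W

variable {d : ℕ} {Ω W : Set (En d)} {u₀ : En d → En d} {Y : ℕ → En d → En d} {ω τ : ℕ → ℝ}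

private theorem p0g3_zero (D : Set (En d)) : clD D (fun _ => (0 : En d)) = 0 := by
  have h1 : D.indicator (fun _ => (0 : En d)) = fun _ => (0 : En d) := by
    ext1 x
    simp
  show cl (D.indicator fun _ => (0 : En d)) = 0
  rw [h1, cl_eq MemLp.zero']
  exact MemLp.toLp_zero _

private theorem p0g3_sum (hΩo : IsOpen Ω) (hΩ : Bornology.IsBounded Ω) {Z : ℕ → En d → En d}
    (hZ : ∀ k, Continuous (Z k)) (c : ℕ → ℝ) (n : ℕ) :
    clD Ω (fun x => ∑ k ∈ Finset.range n, c k • Z k x) = ∑ k ∈ Finset.range n, c k • clD Ω (Z k) := by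
  induction n with
  | zero =>
    simp only [Finset.range_zero, Finset.sum_empty]
    exact p0g3_zero Ω
  | succ n ih =>
    simp only [Finset.sum_range_succ]
    have h1 : Continuous fun x => ∑ k ∈ Finset.range n, c k • Z k x :=
      continuous_finsetSum _ fun k _ => (hZ k).const_smul (c k)
    have h2 : Continuous fun x => c n • Z n x := (hZ n).const_smul (c n)
    rw [clD_add hΩo hΩ h1 h2, ih, clD_smul hΩo hΩ (c n) (hZ n)]

private theorem p0g3_pd (h : P0Seq Ω W u₀ Y ω τ) {n : ℕ} {t : ℝ} (ht : τ n ≤ t) (i : Fin d) :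
    pd i (lft Y τ t) = fun x => ∑ k ∈ Finset.range n, sg τ k t • pd i (Y k) x := by
  have h0 : lft Y τ t = fun x => ∑ k ∈ Finset.range n, sg τ k t • Y k x := funext fun x => h.lft_sum ht x
  ext1 x
  have h1 : HasFDerivAt (fun x => ∑ k ∈ Finset.range n, sg τ k t • Y k x)
      (∑ k ∈ Finset.range n, sg τ k t • fderiv ℝ (Y k) x) x :=
    HasFDerivAt.fun_sum fun k _ => ((h.smo k).differentiable x).hasFDerivAt.const_smul (sg τ k t)
  show fderiv ℝ (lft Y τ t) x (ei i) = _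
  rw [h0, h1.fderiv, _root_.sum_apply]
  rfl

private theorem p0g3_sg (τ : ℕ → ℝ) (k : ℕ) : ContDiff ℝ ((⊤ : ℕ∞) : WithTop ℕ∞) (sg τ k) := sgt_smooth _ _

private theorem p0g3_cont (h : P0Seq Ω W u₀ Y ω τ) {X : Type} [NormedAddCommGroup X] [NormedSpace ℝ X]
    {f : ℝ → X} {C : ℕ → X} (hf : ∀ n t, τ n ≤ t → f t = ∑ k ∈ Finset.range n, sg τ k t • C k) :
    ContinuousOn f (Ioi 0) := by
  intro t ht
  obtain ⟨n, hn⟩ := h.exists_n (half_pos ht)
  have hnt : τ n < t := hn.trans_lt (half_lt_self ht)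
  have h1 : Continuous fun s => ∑ k ∈ Finset.range n, sg τ k s • C k :=
    continuous_finsetSum _ fun k _ => (p0g3_sg τ k).continuous.smul continuous_const
  refine (h1.continuousAt.congr ?_).continuousWithinAt
  filter_upwards [lt_mem_nhds hnt] with s hs
  exact (hf n s hs.le).symm

private theorem p0g3_cl (h : P0Seq Ω W u₀ Y ω τ) (hΩo : IsOpen Ω) (hΩ : Bornology.IsBounded Ω) {n : ℕ} {t : ℝ}
    (ht : τ n ≤ t) : clD Ω (lft Y τ t) = ∑ k ∈ Finset.range n, sg τ k t • clD Ω (Y k) := by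
  have h0 : lft Y τ t = fun x => ∑ k ∈ Finset.range n, sg τ k t • Y k x := funext fun x => h.lft_sum ht x
  rw [h0, p0g3_sum hΩo hΩ fun k => (h.smo k).continuous]

private theorem p0g3_cl' (h : P0Seq Ω W u₀ Y ω τ) (hΩo : IsOpen Ω) (hΩ : Bornology.IsBounded Ω) {n : ℕ} {t : ℝ}
    (ht : τ n ≤ t) : clD Ω (lfd Y τ t) = ∑ k ∈ Finset.range n, deriv (sg τ k) t • clD Ω (Y k) := by
  have h0 : lfd Y τ t = fun x => ∑ k ∈ Finset.range n, deriv (sg τ k) t • Y k x :=
    funext fun x => h.lfd_sum ht x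
  rw [h0, p0g3_sum hΩo hΩ fun k => (h.smo k).continuous]

/-- norm continuity of the class of the lift for `t > 0` (finite sums) -/
theorem P0Seq.cl_cont (h : P0Seq Ω W u₀ Y ω τ) (hΩo : IsOpen Ω) (hΩ : Bornology.IsBounded Ω) :
    ContinuousOn (fun t => clD Ω (lft Y τ t)) (Ioi 0) := by
  exact p0g3_cont h fun n t ht => p0g3_cl h hΩo hΩ ht

/-- the class of the lift tends to the datum (`lft_tendsto`) -/
theorem P0Seq.cl_tendsto (h : P0Seq Ω W u₀ Y ω τ) (hΩo : IsOpen Ω) (hΩ : Bornology.IsBounded Ω)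
    (hm : MemLp u₀ 2 (volume.restrict Ω)) :
    Tendsto (fun t => clD Ω (lft Y τ t)) (𝓝[>] 0) (𝓝 (clD Ω u₀)) := by
  have hm' : MemLp (Ω.indicator u₀) 2 (volume : Measure (En d)) := (memLp_indicator_iff_restrict hΩo.measurableSet).2 hm
  rw [Lp.tendsto_Lp_iff_tendsto_eLpNorm']
  refine (h.lft_tendsto hm).congr' ?_
  filter_upwards [self_mem_nhdsWithin] with t ht
  rw [← eLpNorm_indicator_eq_eLpNorm_restrict hΩo.measurableSet, ← eLpNorm_neg]
  refine eLpNorm_congr_ae ?_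
  filter_upwards [cl_coe hm', cl_coe (clD_memLp hΩo hΩ (h.lft_smo ht).continuous)] with x h1 h2
  have h3 : (clD Ω u₀ : En d → En d) x = Ω.indicator u₀ x := h1
  have h4 : (clD Ω (lft Y τ t) : En d → En d) x = Ω.indicator (lft Y τ t) x := h2
  rw [Pi.neg_apply, Pi.sub_apply, h3, h4]
  by_cases hx : x ∈ Ω
  · simp [indicator_of_mem hx]
  · simp [indicator_of_notMem hx]

/-- norm continuity of the derivatives -/
theorem P0Seq.pd_cont (h : P0Seq Ω W u₀ Y ω τ) (hΩo : IsOpen Ω) (hΩ : Bornology.IsBounded Ω) (i : Fin d) :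
    ContinuousOn (fun t => clD Ω (pd i (lft Y τ t))) (Ioi 0) := by
  refine p0g3_cont h (C := fun k => clD Ω (pd i (Y k))) fun n t ht => ?_
  rw [p0g3_pd h ht, p0g3_sum hΩo hΩ fun k => ((h.smo k).pd i).continuous]

/-- `‖clD (pd i L(t))‖ ≤ K t^(-1/8)`, hence in `L²(0, τ_0)` (`clD_le_sup`, `lft_le`) -/
theorem P0Seq.pd_memLp (h : P0Seq Ω W u₀ Y ω τ) (hΩo : IsOpen Ω) (hΩ : Bornology.IsBounded Ω) (i : Fin d) :
    MemLp (fun t => clD Ω (pd i (lft Y τ t))) 2 (volume.restrict (Ioc 0 (τ 0))) := by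
  obtain ⟨K, hK, hb⟩ := clD_le_sup hΩo hΩ
  have h1 : MemLp (fun t : ℝ => t ^ (-(1 / 8 : ℝ))) 2 (volume.restrict (Ioc 0 (τ 0))) := by
    have h2 : IntegrableOn (fun t : ℝ => t ^ (-(1 / 4 : ℝ))) (Ioc 0 (τ 0)) :=
      (intervalIntegrable_iff_integrableOn_Ioc_of_le (h.τ0 0).le).1
        (intervalIntegral.intervalIntegrable_rpow' (by norm_num))
    have hmeas : AEStronglyMeasurable (fun t : ℝ => t ^ (-(1 / 8 : ℝ))) (volume.restrict (Ioc 0 (τ 0))) :=
      (measurable_id.pow_const _).aestronglyMeasurable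
    rw [memLp_two_iff_integrable_sq hmeas]
    refine h2.congr ((ae_restrict_iff' measurableSet_Ioc).2 (Eventually.of_forall fun t ht => ?_))
    show t ^ (-(1 / 4 : ℝ)) = (t ^ (-(1 / 8 : ℝ))) ^ 2
    rw [← Real.rpow_natCast, ← Real.rpow_mul ht.1.le]
    norm_num
  refine MemLp.of_le_mul (c := K) h1 ?_ ?_
  · exact ((h.pd_cont hΩo hΩ i).mono Ioc_subset_Ioi_self).aestronglyMeasurable measurableSet_Ioc
  · refine (ae_restrict_iff' measurableSet_Ioc).2 (Eventually.of_forall fun t ht => ?_)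
    have h3 : 0 ≤ t ^ (-(1 / 8 : ℝ)) := Real.rpow_nonneg ht.1.le _
    rw [Real.norm_eq_abs, abs_of_nonneg h3]
    refine hb ((h.lft_smo ht.1).pd i).continuous fun x => ?_
    have h4 := h.lft_le ht.1 ht.2 x
    have h5 : ‖pd i (lft Y τ t) x‖ ≤ ‖fderiv ℝ (lft Y τ t) x‖ := by
      refine ((fderiv ℝ (lft Y τ t) x).le_opNorm (ei i)).trans (le_of_eq ?_)
      have h6 : ‖(ei i : En d)‖ = 1 := by simp [ei]
      rw [h6, mul_one]
    linarith [norm_nonneg (lft Y τ t x), norm_nonneg (lap (lft Y τ t) x)]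

/-- the time derivative, tested: for `0 < s ≤ t` (fundamental theorem for the finite sum) -/
theorem P0Seq.cl_ftc (h : P0Seq Ω W u₀ Y ω τ) (hΩo : IsOpen Ω) (hΩ : Bornology.IsBounded Ω) (φ : TS Ω) {s t : ℝ}
    (hs : 0 < s) (hst : s ≤ t) :
    IntervalIntegrable (fun r => ⟪clD Ω (lfd Y τ r), cl (φ : En d → En d)⟫) volume s t ∧
    ⟪clD Ω (lft Y τ t), cl (φ : En d → En d)⟫ - ⟪clD Ω (lft Y τ s), cl (φ : En d → En d)⟫ =
      ∫ r in s..t, ⟪clD Ω (lfd Y τ r), cl (φ : En d → En d)⟫ := by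
  obtain ⟨n, hn⟩ := h.exists_n hs
  set c : ℕ → ℝ := fun k => ⟪clD Ω (Y k), cl (φ : En d → En d)⟫ with hc
  have e1 : ∀ r, s ≤ r → ⟪clD Ω (lft Y τ r), cl (φ : En d → En d)⟫ = ∑ k ∈ Finset.range n, sg τ k r * c k := by
    intro r hr
    rw [p0g3_cl h hΩo hΩ (hn.trans hr), sum_inner]
    exact Finset.sum_congr rfl fun k _ => real_inner_smul_left _ _ _
  have e2 : ∀ r, s ≤ r →
      ⟪clD Ω (lfd Y τ r), cl (φ : En d → En d)⟫ = ∑ k ∈ Finset.range n, deriv (sg τ k) r * c k := by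
    intro r hr
    rw [p0g3_cl' h hΩo hΩ (hn.trans hr), sum_inner]
    exact Finset.sum_congr rfl fun k _ => real_inner_smul_left _ _ _
  have hd : ∀ r, HasDerivAt (fun r => ∑ k ∈ Finset.range n, sg τ k r * c k)
      (∑ k ∈ Finset.range n, deriv (sg τ k) r * c k) r := fun r =>
    HasDerivAt.fun_sum fun k _ => (((p0g3_sg τ k).differentiable (by norm_num)) r).hasDerivAt.mul_const (c k)
  have hcont : Continuous fun r => ∑ k ∈ Finset.range n, deriv (sg τ k) r * c k :=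
    continuous_finsetSum _ fun k _ => ((p0g3_sg τ k).continuous_deriv (by norm_num)).mul continuous_const
  have hcg : EqOn (fun r => ∑ k ∈ Finset.range n, deriv (sg τ k) r * c k)
      (fun r => ⟪clD Ω (lfd Y τ r), cl (φ : En d → En d)⟫) (uIcc s t) := by
    intro r hr
    rw [uIcc_of_le hst] at hr
    exact (e2 r hr.1).symm
  refine ⟨(intervalIntegrable_congr (hcg.mono uIoc_subset_uIcc)).1 (hcont.intervalIntegrable s t), ?_⟩
  rw [e1 t hst, e1 s le_rfl, ← intervalIntegral.integral_congr hcg,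
    intervalIntegral.integral_eq_sub_of_hasDerivAt (fun r _ => hd r) (hcont.intervalIntegrable s t)]

end Pool.Agent.Lib.MP_79abb3_an.W
end

section

/-!
Theorem D, block S, abstract part: forces which are functionals of `j v`, `j : V → Z` an embedding with
`‖j v‖² ≤ C ‖ι v‖ ‖v‖` (Ladyzhenskaya), and the kernels of the semigroup.
-/

set_option autoImplicit false
set_option linter.unusedSectionVars false

open MeasureTheory Set Filter Topology Function
open scoped ENNReal InnerProductSpace ComplexConjugate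

namespace Pool.Agent.Lib.MP_79abb3_an.PD

open Pool.Agent.Lib.MP_79abb3_an.SC

section
variable {X V Z : Type} [NormedAddCommGroup X] [InnerProductSpace ℂ X] [CompleteSpace X]
  [NormedAddCommGroup V] [InnerProductSpace ℂ V] [CompleteSpace V] [NormedAddCommGroup Z] [NormedSpace ℂ Z]
  {ι : V →L[ℂ] X} {j : V →L[ℂ] Z}

/-- antilinear functionals -/
abbrev Yd (Z : Type) [NormedAddCommGroup Z] [NormedSpace ℂ Z] : Type := Z →L⋆[ℂ] ℂ

/-- the linear functional `φ ↦ conj (y (j (Q φ)))` -/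
noncomputable def dl (ι : V →L[ℂ] X) (j : V →L[ℂ] Z) (y : Yd Z) : StrongDual ℂ X :=
  LinearMap.mkContinuous
    { toFun := fun φ => conj (y (j (Qv ι φ)))
      map_add' := fun φ ψ => by rw [map_add, map_add, map_add, map_add]
      map_smul' := fun c φ => by
        rw [map_smul, map_smul, map_smulₛₗ]
        simp [mul_comm] } (‖y‖ * ‖j.comp (Qv ι)‖) (fun φ => by
      show ‖conj (y (j (Qv ι φ)))‖ ≤ _
      rw [RCLike.norm_conj]
      refine (y.le_opNorm _).trans ?_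
      rw [mul_assoc]
      exact mul_le_mul_of_nonneg_left ((j.comp (Qv ι)).le_opNorm φ) (norm_nonneg _))

/-- `⟪φ, J3 y⟫ = y (j (Q φ))` -/
noncomputable def J3 (ι : V →L[ℂ] X) (j : V →L[ℂ] Z) : Yd Z →L[ℂ] X :=
  LinearMap.mkContinuous
    { toFun := fun y => (InnerProductSpace.toDual ℂ X).symm (dl ι j y)
      map_add' := fun y z => by
        rw [← map_add]; congr 1
        ext φ
        show conj ((y + z) (j (Qv ι φ))) = conj (y (j (Qv ι φ))) + conj (z (j (Qv ι φ)))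
        rw [← map_add]; rfl
      map_smul' := fun c y => by
        have h : dl ι j (c • y) = (conj c) • dl ι j y := by
          ext φ
          show conj ((c • y) (j (Qv ι φ))) = conj c * conj (y (j (Qv ι φ)))
          rw [← map_mul]; rfl
        rw [h, map_smulₛₗ]
        simp } ‖j.comp (Qv ι)‖ (fun y => by
      show ‖(InnerProductSpace.toDual ℂ X).symm (dl ι j y)‖ ≤ _
      rw [LinearIsometryEquiv.norm_map, mul_comm]
      exact LinearMap.mkContinuous_norm_le _ (by positivity) _)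

theorem inner_J3 (φ : X) (y : Yd Z) : ⟪φ, J3 ι j y⟫_ℂ = y (j (Qv ι φ)) := by
  have h : ⟪J3 ι j y, φ⟫_ℂ = conj (y (j (Qv ι φ))) :=
    InnerProductSpace.toDual_symm_apply
  rw [← inner_conj_symm, h, Complex.conj_conj]

/-- Ladyzhenskaya's inequality for `j`. -/
structure Lad (ι : V →L[ℂ] X) (j : V →L[ℂ] Z) (C : ℝ) : Prop where
  fd : FDom ι
  C0 : 0 ≤ C
  le : ∀ v, ‖j v‖ ^ 2 ≤ C ^ 2 * (‖ι v‖ * ‖v‖)

variable {C : ℝ}

theorem Lad.norm_j (h : Lad ι j C) (x : X) : ‖j (Qv ι x)‖ ≤ C * √(‖Kh (KF ι) x‖ * ‖x‖) := by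
  have h1 := h.le (Qv ι x)
  rw [h.fd.ι_Qv, h.fd.norm_Qv] at h1
  have h2 : 0 ≤ ‖Kh (KF ι) x‖ * ‖x‖ := by positivity
  refine abs_le_of_sq_le_sq' ?_ (mul_nonneg h.C0 (Real.sqrt_nonneg _)) |>.2
  rw [mul_pow, Real.sq_sqrt h2]
  exact h1

theorem Lad.pair_J3 (h : Lad ι j C) (x : X) (y : Yd Z) :
    ‖⟪x, J3 ι j y⟫_ℂ‖ ≤ C * √(‖Kh (KF ι) x‖ * ‖x‖) * ‖y‖ := by
  rw [inner_J3, mul_comm]
  exact (y.le_opNorm _).trans (mul_le_mul_of_nonneg_left (h.norm_j x) (norm_nonneg _))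

private theorem abj_aux {z C a s Y : ℝ} (hz : 0 ≤ z) (hC : 0 ≤ C) (hY : 0 ≤ Y) (hs : 0 ≤ s)
    (h : z ^ 2 ≤ C * √a * Y) (ha : a ≤ (s * z) ^ 2) : z ≤ C * s * Y := by
  have h1 : √a ≤ s * z := by
    rw [← Real.sqrt_sq (mul_nonneg hs hz)]
    exact Real.sqrt_le_sqrt ha
  rcases hz.eq_or_lt with h0 | h0
  · rw [← h0]; positivity
  · have h2 : z ^ 2 ≤ C * (s * z) * Y :=
      h.trans (mul_le_mul_of_nonneg_right (mul_le_mul_of_nonneg_left h1 hC) hY)
    have h3 : z * z ≤ z * (C * s * Y) := by nlinarith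
    exact le_of_mul_le_mul_left h3 h0

/-- Proof: `‖z‖² = ⟪z, z⟫`, `z = AS τ (J3 y)`, `= ⟪AS τ z, J3 y⟫` and `pair_J3`, `Kh (AS τ z) = HS τ z` with norms
`≤ τ^{-1/2} ‖z‖`, `≤ τ^{-1} ‖z‖` (`HS_norm`, `AS_norm`). -/
theorem Lad.AS_J3 (h : Lad ι j C) {τ : ℝ} (hτ : 0 < τ) (y : Yd Z) :
    ‖AS (KF ι) τ (J3 ι j y)‖ ≤ C * τ ^ (-(3 / 4 : ℝ)) * ‖y‖ := by
  have hK := KF_nonneg ι
  set z := AS (KF ι) τ (J3 ι j y) with hz
  have h1 : ‖z‖ ^ 2 = ‖⟪AS (KF ι) τ z, J3 ι j y⟫_ℂ‖ := by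
    rw [AS_inner, ← hz, inner_self_eq_norm_sq_to_K]
    simp
  have h2 := h.pair_J3 (AS (KF ι) τ z) y
  rw [← h1] at h2
  have h3 : ‖Kh (KF ι) (AS (KF ι) τ z)‖ ≤ (√τ)⁻¹ * ‖z‖ := by
    have e : Kh (KF ι) (AS (KF ι) τ z) = HS (KF ι) τ z := by
      rw [← Kh_AS hK hτ]; rfl
    rw [e]
    exact ((HS (KF ι) τ).le_opNorm z).trans (mul_le_mul_of_nonneg_right (HS_norm hK hτ)
      (norm_nonneg _))
  have h4 : ‖AS (KF ι) τ z‖ ≤ τ⁻¹ * ‖z‖ :=
    ((AS (KF ι) τ).le_opNorm z).trans (mul_le_mul_of_nonneg_right (AS_norm hK hτ) (norm_nonneg _))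
  refine abj_aux (norm_nonneg _) h.C0 (norm_nonneg _) (by positivity) h2 ?_
  refine (mul_le_mul h3 h4 (norm_nonneg _) (by positivity)).trans (le_of_eq ?_)
  have e1 : (√τ)⁻¹ = τ ^ (-(1 / 2 : ℝ)) := by
    rw [Real.rpow_neg hτ.le, Real.sqrt_eq_rpow]
  have e2 : τ⁻¹ = τ ^ (-1 : ℝ) := by rw [Real.rpow_neg_one]
  have e3 : (τ ^ (-(3 / 4 : ℝ))) ^ 2 = τ ^ (-(1 / 2 : ℝ)) * τ ^ (-1 : ℝ) := by
    rw [← Real.rpow_natCast, ← Real.rpow_mul hτ.le, ← Real.rpow_add hτ]
    norm_num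
  rw [mul_pow, e3, e1, e2]
  ring

/-- Proof: the same for `z = HS τ (J3 y)`: `Kh (HS τ z) = Sg τ z`, norms `≤ ‖z‖`, `≤ τ^{-1/2} ‖z‖`. -/
theorem Lad.Kh_AS_J3 (h : Lad ι j C) {τ : ℝ} (hτ : 0 < τ) (y : Yd Z) :
    ‖Kh (KF ι) (AS (KF ι) τ (J3 ι j y))‖ ≤ C * τ ^ (-(1 / 4 : ℝ)) * ‖y‖ := by
  have hK := KF_nonneg ι
  have e0 : Kh (KF ι) (AS (KF ι) τ (J3 ι j y)) = HS (KF ι) τ (J3 ι j y) := by
    rw [← Kh_AS hK hτ]; rfl
  rw [e0]
  set z := HS (KF ι) τ (J3 ι j y) with hz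
  have h1 : ‖z‖ ^ 2 = ‖⟪HS (KF ι) τ z, J3 ι j y⟫_ℂ‖ := by
    rw [HS_inner, ← hz, inner_self_eq_norm_sq_to_K]
    simp
  have h2 := h.pair_J3 (HS (KF ι) τ z) y
  rw [← h1] at h2
  have h3 : ‖Kh (KF ι) (HS (KF ι) τ z)‖ ≤ ‖z‖ := by
    have e : Kh (KF ι) (HS (KF ι) τ z) = Sg (KF ι) τ z := by
      rw [← Kh_HS hK hτ]; rfl
    rw [e]
    exact Sg_norm_apply hK τ z
  have h4 : ‖HS (KF ι) τ z‖ ≤ (√τ)⁻¹ * ‖z‖ :=
    ((HS (KF ι) τ).le_opNorm z).trans (mul_le_mul_of_nonneg_right (HS_norm hK hτ) (norm_nonneg _))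
  refine abj_aux (norm_nonneg _) h.C0 (norm_nonneg _) (by positivity) h2 ?_
  refine (mul_le_mul h3 h4 (norm_nonneg _) (norm_nonneg _)).trans (le_of_eq ?_)
  have e1 : (√τ)⁻¹ = τ ^ (-(1 / 2 : ℝ)) := by
    rw [Real.rpow_neg hτ.le, Real.sqrt_eq_rpow]
  have e3 : (τ ^ (-(1 / 4 : ℝ))) ^ 2 = τ ^ (-(1 / 2 : ℝ)) := by
    rw [← Real.rpow_natCast, ← Real.rpow_mul hτ.le]
    norm_num
  rw [mul_pow, e3, e1]
  ring

end

/-! ### Real structures -/

section
variable {X V Z : Type} [NormedAddCommGroup X] [InnerProductSpace ℂ X] [CompleteSpace X]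
  [NormedAddCommGroup V] [InnerProductSpace ℂ V] [CompleteSpace V] [NormedAddCommGroup Z] [NormedSpace ℂ Z]
  {ι : V →L[ℂ] X} {j : V →L[ℂ] Z} {cX : X →L[ℝ] X} {cV : V →L[ℝ] V} {cZ : Z →L[ℝ] Z}

/-- Compatible conjugations. -/
structure FCj (ι : V →L[ℂ] X) (j : V →L[ℂ] Z) (cX : X →L[ℝ] X) (cV : V →L[ℝ] V) (cZ : Z →L[ℝ] Z) :
    Prop where
  X : Cnj cX
  V : Cnj cV
  Zi : ∀ z, cZ (cZ z) = z
  Za : ∀ (c : ℂ) z, cZ (c • z) = star c • cZ z
  Zn : ∀ z, ‖cZ z‖ = ‖z‖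
  ι : ∀ v, cX (ι v) = ι (cV v)
  j : ∀ v, cZ (j v) = j (cV v)

/-- the conjugate of a functional -/
noncomputable def cY1 (cZ : Z →L[ℝ] Z) (Za : ∀ (c : ℂ) z, cZ (c • z) = star c • cZ z) (y : Yd Z) : Yd Z :=
  LinearMap.mkContinuous
    { toFun := fun z => conj (y (cZ z))
      map_add' := fun z w => by rw [map_add, map_add, map_add]
      map_smul' := fun c z => by
        rw [Za, map_smulₛₗ, smul_eq_mul, map_mul]
        simp } (‖y‖ * ‖cZ‖) (fun z => by
      show ‖conj (y (cZ z))‖ ≤ _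
      rw [RCLike.norm_conj, mul_assoc]
      exact (y.le_opNorm _).trans (mul_le_mul_of_nonneg_left (cZ.le_opNorm z) (norm_nonneg _)))

noncomputable def cY (cZ : Z →L[ℝ] Z) (Za : ∀ (c : ℂ) z, cZ (c • z) = star c • cZ z) : Yd Z →L[ℝ] Yd Z :=
  LinearMap.mkContinuous
    { toFun := fun y => cY1 cZ Za y
      map_add' := fun y y' => by
        ext z
        show conj ((y + y') (cZ z)) = conj (y (cZ z)) + conj (y' (cZ z))
        rw [← map_add]; rfl
      map_smul' := fun c y => by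
        ext z
        show conj ((c • y) (cZ z)) = c • conj (y (cZ z))
        have : (c • y) (cZ z) = (c : ℂ) * y (cZ z) := rfl
        rw [this, map_mul, Complex.conj_ofReal]; rfl } ‖cZ‖ (fun y => by
      show ‖cY1 cZ Za y‖ ≤ _
      rw [mul_comm]
      exact LinearMap.mkContinuous_norm_le _ (by positivity) _)

theorem cY_apply (Za : ∀ (c : ℂ) z, cZ (c • z) = star c • cZ z) (y : Yd Z) (z : Z) :
    cY cZ Za y z = conj (y (cZ z)) := rfl

variable (hd : FDom ι) (h : FCj ι j cX cV cZ)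
include hd h

/-- Proof: `Cnj.adjoint`-argument for `ι†` (`⟪cV a, cV b⟫ = ⟪b, a⟫`). -/
theorem FCj.adj (x : X) : cV (ContinuousLinearMap.adjoint ι x) = ContinuousLinearMap.adjoint ι (cX x) := by
  refine ext_inner_left ℂ fun v => ?_
  rw [ContinuousLinearMap.adjoint_inner_right]
  have h1 := h.V.inner (cV v) (ContinuousLinearMap.adjoint ι x)
  rw [h.V.inv, ContinuousLinearMap.adjoint_inner_left, ← h.ι] at h1
  have h2 := h.X.inner (cX (ι v)) x
  rw [h.X.inv] at h2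
  rw [h1, h2]

theorem FCj.K (x : X) : cX (KF ι x) = KF ι (cX x) := by
  rw [KF_apply, h.ι, h.adj hd]; rfl

theorem FCj.Kh (x : X) : cX (Kh (KF ι) x) = Kh (KF ι) (cX x) :=
  h.X.Kh (KF_nonneg ι) (h.K hd) x

/-- Proof: density of `Kh` (`Qv_Kh`, `FCj.adj`), or injectivity of `ι` and `ι_Qv`. -/
theorem FCj.Qv (x : X) : cV (Qv ι x) = Qv ι (cX x) := by
  have h1 : ι (cV (PD.Qv ι x)) = ι (PD.Qv ι (cX x)) := by
    rw [← h.ι, hd.ι_Qv, hd.ι_Qv, h.Kh hd]
  have h2 : ι (cV (PD.Qv ι x) - PD.Qv ι (cX x)) = 0 := by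
    rw [map_sub, h1, sub_self]
  exact sub_eq_zero.1 (hd.inj _ h2)

theorem FCj.J3 (y : Yd Z) : cX (J3 ι j y) = J3 ι j (cY cZ h.Za y) := by
  refine ext_inner_left ℂ fun φ => ?_
  have h1 := h.X.inner (cX φ) (PD.J3 ι j y)
  have h2 : ⟪PD.J3 ι j y, cX φ⟫_ℂ = conj (y (j (PD.Qv ι (cX φ)))) := by
    rw [← inner_conj_symm, inner_J3]
  rw [h.X.inv, h2] at h1
  rw [h1, inner_J3, cY_apply, h.j, h.Qv hd]

end

end Pool.Agent.Lib.MP_79abb3_an.PD
end

section

/-!
Theorem D, block S, abstract part: the abstract Navier-Stokes system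
`x(t) = S(t-a) x₀ + ∫_a^t A S(t-r) (J3 (N(x,x)) + K^{1/2} (f + B x)) dr`, where `K = A^{-1}`; the velocity is
`u = K^{1/2} x`, the vorticity has the norm of `x`.
-/

set_option autoImplicit false
set_option linter.unusedSectionVars false

open MeasureTheory Set Filter Topology Function
open scoped ENNReal InnerProductSpace ComplexConjugate

namespace Pool.Agent.Lib.MP_79abb3_an.PD

open Pool.Agent.Lib.MP_79abb3_an.SC

section
variable {X Y : Type} [NormedAddCommGroup X] [InnerProductSpace ℂ X] [CompleteSpace X]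
  [NormedAddCommGroup Y] [NormedSpace ℂ Y]

/-- The abstract Navier-Stokes system. -/
structure NSA (K : X →L[ℂ] X) (J3 : Y →L[ℂ] X) (N : X →L[ℂ] X →L[ℂ] Y) (C : ℝ) : Prop where
  hK : 0 ≤ K
  hi : ∀ x, K x = 0 → x = 0
  C0 : 0 ≤ C
  k0 : ∀ x y, ‖⟪x, J3 y⟫_ℂ‖ ≤ C * √(‖Kh K x‖ * ‖x‖) * ‖y‖
  k1 : ∀ τ, 0 < τ → ∀ y, ‖AS K τ (J3 y)‖ ≤ C * τ ^ (-(3 / 4 : ℝ)) * ‖y‖
  k2 : ∀ τ, 0 < τ → ∀ y, ‖Kh K (AS K τ (J3 y))‖ ≤ C * τ ^ (-(1 / 4 : ℝ)) * ‖y‖
  n : ∀ x y, ‖N x y‖ ≤ C * √(‖Kh K x‖ * ‖x‖) * ‖y‖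

/-- The real structure: `cX`, `cY` conjugations, cancellation for real data. -/
structure NSR (K : X →L[ℂ] X) (J3 : Y →L[ℂ] X) (N : X →L[ℂ] X →L[ℂ] Y) (cX : X →L[ℝ] X)
    (cY : Y →L[ℝ] Y) : Prop where
  cj : Cnj cX
  cK : ∀ x, cX (K x) = K (cX x)
  c3 : ∀ y, cX (J3 y) = J3 (cY y)
  cN : ∀ x y, cY (N x y) = N (cX x) (cX y)
  canc : ∀ x y, cX x = x → cX y = y → (⟪x, J3 (N x y)⟫_ℂ).re = 0

/-- The right side `(N(x,x), f + B x)`. -/
noncomputable def Pb (N : X →L[ℂ] X →L[ℂ] Y) (f : ℝ → X) (B : ℝ → X →L[ℂ] X) (t : ℝ) (x : X) : Y × X :=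
  (N x x, f t + B t x)

/-- Solutions on `[a, b]`. -/
def Slv (K : X →L[ℂ] X) (J3 : Y →L[ℂ] X) (N : X →L[ℂ] X →L[ℂ] Y) (f : ℝ → X) (B : ℝ → X →L[ℂ] X)
    (a b : ℝ) (x₀ : X) (x : ℝ → X) : Prop :=
  Mild (Sg K) (Lc K J3) (Pb N f B) a b x₀ x

variable {K : X →L[ℂ] X} {J3 : Y →L[ℂ] X} {N : X →L[ℂ] X →L[ℂ] Y} {C : ℝ} {f f' : ℝ → X}
  {B : ℝ → X →L[ℂ] X} {a b : ℝ} {x₀ : X} {x y : ℝ → X}

/-- Proof: `ker_AS`; `‖AS τ (J3 y + Kh u)‖ ≤ C τ^{-3/4} ‖y‖ + τ^{-1/2} ‖u‖`, `τ^{-1/2} ≤ 1 + τ^{-3/4}`. -/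
theorem NSA.ker (h : NSA K J3 N C) : Ker (Sg K) (Lc K J3) (C + 1) (3 / 4) := by
  have hC := h.C0
  refine ker_AS h.hK h.hi (J := J3.coprod (Kh K)) (by linarith) (by norm_num) (by norm_num) ?_
  rintro τ hτ ⟨y, u⟩
  have e : AS K τ ((J3.coprod (Kh K)) (y, u)) = AS K τ (J3 y) + HS K τ u := by
    rw [← AS_Kh h.hK hτ u, ← map_add]; rfl
  rw [e]
  have h1 := h.k1 τ hτ y
  have h2 : ‖HS K τ u‖ ≤ (√τ)⁻¹ * ‖u‖ := (HS K τ).le_of_opNorm_le (HS_norm h.hK hτ) u
  have h3 : (√τ)⁻¹ ≤ kth (3 / 4) τ := by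
    unfold kth
    rw [Real.sqrt_eq_rpow, ← Real.rpow_neg hτ.le]
    rcases le_total τ 1 with h1 | h1
    · have := Real.rpow_le_rpow_of_exponent_ge hτ h1 (show -(3 / 4 : ℝ) ≤ -(1 / 2 : ℝ) by norm_num)
      linarith
    · have := Real.rpow_le_one_of_one_le_of_nonpos h1 (show -(1 / 2 : ℝ) ≤ 0 by norm_num)
      have h3 := Real.rpow_nonneg hτ.le (-(3 / 4 : ℝ))
      linarith
  have h4 : τ ^ (-(3 / 4 : ℝ)) ≤ kth (3 / 4) τ := by
    unfold kth; linarith
  have hy : ‖y‖ ≤ ‖(y, u)‖ := norm_fst_le (y, u)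
  have hu : ‖u‖ ≤ ‖(y, u)‖ := norm_snd_le (y, u)
  have hk : 0 ≤ kth (3 / 4) τ := kth_nonneg _ hτ.le
  have h5 := Real.rpow_nonneg hτ.le (-(3 / 4 : ℝ))
  calc ‖AS K τ (J3 y) + HS K τ u‖ ≤ ‖AS K τ (J3 y)‖ + ‖HS K τ u‖ := norm_add_le _ _
    _ ≤ C * τ ^ (-(3 / 4 : ℝ)) * ‖y‖ + (√τ)⁻¹ * ‖u‖ := add_le_add h1 h2
    _ ≤ C * kth (3 / 4) τ * ‖(y, u)‖ + kth (3 / 4) τ * ‖(y, u)‖ := by gcongr
    _ = (C + 1) * kth (3 / 4) τ * ‖(y, u)‖ := by ring

/-- Proof: as `Pc_nl` (`SC/NcStep.lean`); `‖B t‖`, `‖f t‖` are bounded on `[a, b]`. -/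
theorem Pb_nl (N : X →L[ℂ] X →L[ℂ] Y) (hf : ContinuousOn f (Icc a b)) (hB : ContinuousOn B (Icc a b)) :
    ∃ M, Nl (Pb N f B) M a b := by
  obtain ⟨R, hR⟩ := isCompact_Icc.exists_bound_of_continuousOn hf
  obtain ⟨Q, hQ⟩ := isCompact_Icc.exists_bound_of_continuousOn hB
  refine ⟨‖N‖ + |R| + |Q|, ⟨by positivity, fun x => ?_, fun t ht x y => ?_, fun t ht => ?_⟩⟩
  · exact continuousOn_const.prodMk (hf.add (hB.clm_apply continuousOn_const))
  · have h1 : Pb N f B t x - Pb N f B t y = (N (x - y) x + N y (x - y), B t (x - y)) := by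
      simp only [Pb, map_sub, _root_.sub_apply, Prod.mk_sub_mk, Prod.mk.injEq]
      constructor <;> abel
    rw [h1, Prod.norm_mk]
    have h2 := N.le_opNorm₂ (x - y) x
    have h3 := N.le_opNorm₂ y (x - y)
    have hN := norm_nonneg N
    have hx := norm_nonneg x
    have hy := norm_nonneg y
    have hxy := norm_nonneg (x - y)
    have hR0 := abs_nonneg R
    have hQ0 := abs_nonneg Q
    refine max_le ?_ ?_
    · calc ‖N (x - y) x + N y (x - y)‖ ≤ ‖N‖ * ‖x - y‖ * ‖x‖ + ‖N‖ * ‖y‖ * ‖x - y‖ :=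
            (norm_add_le _ _).trans (add_le_add h2 h3)
        _ = ‖N‖ * (‖x‖ + ‖y‖) * ‖x - y‖ := by ring
        _ ≤ (‖N‖ + |R| + |Q|) * (1 + ‖x‖ + ‖y‖) * ‖x - y‖ := by
            gcongr ?_ * ?_ * _
            · linarith
            · linarith
    · calc ‖B t (x - y)‖ ≤ ‖B t‖ * ‖x - y‖ := (B t).le_opNorm _
        _ ≤ |Q| * 1 * ‖x - y‖ := by
            rw [mul_one]
            exact mul_le_mul_of_nonneg_right ((hQ t ht).trans (le_abs_self Q)) hxy
        _ ≤ (‖N‖ + |R| + |Q|) * (1 + ‖x‖ + ‖y‖) * ‖x - y‖ := by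
            gcongr ?_ * ?_ * _
            · linarith
            · linarith
  · have h1 : Pb N f B t 0 = (0, f t) := by simp [Pb]
    rw [h1, Prod.norm_mk, norm_zero, max_eq_right (norm_nonneg _)]
    exact ((hR t ht).trans (le_abs_self R)).trans (by linarith [norm_nonneg N, abs_nonneg Q])

private theorem Pb_cont (hf : ContinuousOn f (Icc a b)) (hB : ContinuousOn B (Icc a b))
    (hx : ContinuousOn x (Icc a b)) : ContinuousOn (fun t => Pb N f B t (x t)) (Icc a b) :=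
  ((N.continuous.comp_continuousOn hx).clm_apply hx).prodMk (hf.add (hB.clm_apply hx))

/-- The tested identity. Proof: `mild_Tst` with `Y × X`, `J = J3.coprod (Kh K)`, `g t = Pb N f B t (x t)`. -/
theorem Slv.tst (h : NSA K J3 N C) (hf : ContinuousOn f (Icc a b)) (hB : ContinuousOn B (Icc a b))
    (hx : Slv K J3 N f B a b x₀ x) : Tst K a b (fun t => Kh K (x t))
      (fun t => J3 (N (x t) (x t)) + Kh K (f t + B t (x t)) - x t) :=
  mild_Tst (J := J3.coprod (Kh K)) h.hK h.hi h.ker (Pb_cont hf hB hx.cont) hx.cont hx.eq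

/-- Converse. Proof: `Tst_mild`. -/
theorem Slv.of_tst (h : NSA K J3 N C) (hf : ContinuousOn f (Icc a b)) (hB : ContinuousOn B (Icc a b))
    (hc : ContinuousOn x (Icc a b)) (hx : Tst K a b (fun t => Kh K (x t))
      (fun t => J3 (N (x t) (x t)) + Kh K (f t + B t (x t)) - x t)) : Slv K J3 N f B a b (x a) x :=
  ⟨hc, Tst_mild (J := J3.coprod (Kh K)) h.hK h.hi h.ker (Pb_cont hf hB hc) hc hx⟩

/-- The energy identity. Proof: `Slv.tst`, `Tst.energy_int` with `M = 1`, `p = x`. -/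
theorem Slv.energy (h : NSA K J3 N C) (hf : ContinuousOn f (Icc a b)) (hB : ContinuousOn B (Icc a b))
    (hx : Slv K J3 N f B a b x₀ x) {s t : ℝ} (hs : a ≤ s) (hst : s ≤ t) (ht : t ≤ b) :
    ‖Kh K (x t)‖ ^ 2 - ‖Kh K (x s)‖ ^ 2 = 2 * ∫ r in s..t, (-‖x r‖ ^ 2 +
      (⟪x r, J3 (N (x r) (x r))⟫_ℂ).re + (⟪Kh K (x r), f r + B r (x r)⟫_ℂ).re) := by
  have h1 := (Slv.tst h hf hB hx).energy_int (M := 1) (fun _ _ => rfl) hx.cont
    (fun t _ => rfl) hs hst ht
  have h4 : ∀ r, (⟪(1 : X →L[ℂ] X) (Kh K (x r)), Kh K (x r)⟫_ℂ).re = ‖Kh K (x r)‖ ^ 2 := by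
    intro r
    have := inner_self_eq_norm_sq (𝕜 := ℂ) (Kh K (x r))
    rw [← this]; rfl
  rw [h4, h4] at h1
  rw [h1]
  congr 1
  refine intervalIntegral.integral_congr fun r _ => ?_
  show (⟪x r, J3 (N (x r) (x r)) + Kh K (f r + B r (x r)) - x r⟫_ℂ).re = _
  have h5 : ⟪x r, Kh K (f r + B r (x r))⟫_ℂ = ⟪Kh K (x r), f r + B r (x r)⟫_ℂ :=
    (Kh_inner K _ _).symm
  have h6 : (⟪x r, x r⟫_ℂ).re = ‖x r‖ ^ 2 := by
    have := inner_self_eq_norm_sq (𝕜 := ℂ) (x r)
    rw [← this]; rfl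
  rw [inner_sub_right, inner_add_right, h5, Complex.sub_re, Complex.add_re, h6]
  ring

end

end Pool.Agent.Lib.MP_79abb3_an.PD
end

section

/-!
Theorem W (MP_79abb3_an), Phase 0: the total field `u(t) = L(t) + x(t)` is a trajectory in `Ω`.
-/

set_option autoImplicit false
set_option linter.unusedSectionVars false

open MeasureTheory Set Filter Topology Function
open scoped ENNReal RealInnerProductSpace

namespace Pool.Agent.Lib.MP_79abb3_an.W

variable {d : ℕ} {Ω W : Set (En d)} {u₀ : En d → En d} {Y : ℕ → En d → En d} {ω τ : ℕ → ℝ}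

/-- the total velocity -/
noncomputable def uP (Ω : Set (En d)) (u₀ : En d → En d) (Y : ℕ → En d → En d) (τ : ℕ → ℝ) (x : ℝ → HD Ω) (t : ℝ) :
    L2E d :=
  open scoped Classical in if t ≤ 0 then clD Ω u₀ else clD Ω (lft Y τ t) + (x t : L2E d)

/-- its gradient -/
noncomputable def GP (Ω : Set (En d)) (Y : ℕ → En d → En d) (τ : ℕ → ℝ) (v : ℝ → VD Ω) (t : ℝ) : G2E d :=
  (WithLp.toLp 2 fun i => clD Ω (pd i (lft Y τ t))) + (v t : G2E d)

variable {x : ℝ → HD Ω} {v : ℝ → VD Ω}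

private theorem p0g4_inner (u : HD Ω) (w : L2E d) : ⟪(u : L2E d), w⟫ = ⟪u, PD Ω w⟫ := by
  rw [real_inner_comm w (u : L2E d), ← inner_PD w u, real_inner_comm]

private theorem p0g4_pos {t : ℝ} (ht : 0 < t) : uP Ω u₀ Y τ x t = clD Ω (lft Y τ t) + (x t : L2E d) :=
  if_neg (not_le.2 ht)

private theorem p0g4_zero : uP Ω u₀ Y τ x 0 = clD Ω u₀ := if_pos le_rfl

/-- `∫ ⟪L, ∇q⟫ = 0` if `div L = 0` in `Ω` -/
private theorem p0g4_div {L : En d → En d} (hL : Smo L) (h : ∀ x ∈ Ω, dv L x = 0) {q : En d → ℝ} (hq : IsTe Ω q) :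
    ∫ x, ⟪L x, gd q x⟫ = 0 := by
  have hLi : ∀ i, Smo fun x => L x i := fun i => contDiff_euclidean.1 hL i
  have hF : ∀ i, ∫ x, pd i (fun x => L x i) x * q x = -∫ x, L x i * pd i q x := fun i =>
    ibp_mul (hLi i) hq.smooth (Or.inr hq.cpt) i
  have i1 : ∀ i, Integrable fun x => pd i (fun x => L x i) x * q x := fun i =>
    (((hLi i).pd i).continuous.mul hq.smooth.continuous).integrable_of_hasCompactSupport hq.cpt.mul_left
  have i2 : ∀ i, Integrable fun x => L x i * pd i q x := fun i =>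
    ((hLi i).continuous.mul (hq.smooth.pd i).continuous).integrable_of_hasCompactSupport (hcs_pd hq.cpt i).mul_left
  have h1 : ∫ x, ∑ i, pd i (fun x => L x i) x * q x = -∫ x, ∑ i, L x i * pd i q x := by
    rw [integral_finsetSum _ fun i _ => i1 i, integral_finsetSum _ fun i _ => i2 i, ← Finset.sum_neg_distrib]
    exact Finset.sum_congr rfl fun i _ => hF i
  have h2 : ∀ x, ∑ i, pd i (fun x => L x i) x * q x = 0 := by
    intro x
    rw [← Finset.sum_mul]
    by_cases hx : x ∈ Ω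
    · have h3 : ∑ i, pd i (fun x => L x i) x = dv L x := Finset.sum_congr rfl fun i _ => pd_apply hL i i x
      rw [h3, h x hx, zero_mul]
    · have h4 : q x = 0 := by
        by_contra h5
        exact hx (hq.supp (subset_tsupport _ h5))
      rw [h4, mul_zero]
  simp only [h2, integral_zero] at h1
  have h3 : ∀ x, ⟪L x, gd q x⟫ = ∑ i, L x i * pd i q x := by
    intro x
    rw [PiLp.inner_apply]
    refine Finset.sum_congr rfl fun i _ => ?_
    rw [gd_apply]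
    simp [mul_comm]
  simp only [h3]
  linarith

/-- the scalar product of `1_D f` with a test field -/
private theorem p0g4_clD (hDo : IsOpen Ω) (hD : Bornology.IsBounded Ω) {f : En d → En d} (hf : Continuous f)
    {ψ : En d → En d} (hψ : IsTe Ω ψ) : ⟪clD Ω f, cl ψ⟫ = ∫ x, ⟪f x, ψ x⟫ := by
  rw [show clD Ω f = cl (Ω.indicator f) from rfl, cl_inner (clD_memLp hDo hD hf) (hψ.memLp 2)]
  refine integral_congr_ae (Eventually.of_forall fun x => ?_)
  show ⟪Ω.indicator f x, ψ x⟫ = ⟪f x, ψ x⟫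
  by_cases hx : x ∈ Ω
  · rw [indicator_of_mem hx]
  · have h1 : ψ x = 0 := by
      by_contra h1
      exact hx (hψ.supp (subset_tsupport _ h1))
    rw [h1, inner_zero_right, inner_zero_right]

/-- (`cl_cont`, `cl_tendsto`, `LSol.weak`, `x 0 = 0`) -/
theorem P0Seq.u_wc (h : P0Seq Ω W u₀ Y ω τ) (hΩo : IsOpen Ω) (hΩ : Bornology.IsBounded Ω)
    (hm : MemLp u₀ 2 (volume.restrict Ω))
    (hx : LSol (io Ω) 1 (Fl Ω Y τ) (gl Ω Y τ) (fun u v w => bV Ω u v w) 0 (τ 0) 0 x v) (w : L2E d) :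
    ContinuousOn (fun t => ⟪uP Ω u₀ Y τ x t, w⟫) (Icc 0 (τ 0)) := by
  have h2 : ContinuousOn (fun t => ⟪x t, PD Ω w⟫) (Icc 0 (τ 0)) := hx.weak (PD Ω w)
  have h1 : ContinuousOn (fun t => if t ≤ 0 then ⟪clD Ω u₀, w⟫ else ⟪clD Ω (lft Y τ t), w⟫) (Icc 0 (τ 0)) := by
    intro t ht
    rcases ht.1.eq_or_lt with h0 | h0
    · rw [← h0]
      have h3 : ContinuousWithinAt (fun t => if t ≤ 0 then ⟪clD Ω u₀, w⟫ else ⟪clD Ω (lft Y τ t), w⟫) (Ici 0) 0 := by
        rw [← continuousWithinAt_Ioi_iff_Ici]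
        show Tendsto _ (𝓝[>] 0) (𝓝 (if (0 : ℝ) ≤ 0 then ⟪clD Ω u₀, w⟫ else ⟪clD Ω (lft Y τ 0), w⟫))
        rw [if_pos le_rfl]
        refine ((h.cl_tendsto hΩo hΩ hm).inner tendsto_const_nhds).congr' ?_
        filter_upwards [self_mem_nhdsWithin] with s hs
        exact (if_neg (not_le.2 hs)).symm
      exact h3.mono Icc_subset_Ici_self
    · have h3 : ContinuousAt (fun t => ⟪clD Ω (lft Y τ t), w⟫) t :=
        ((h.cl_cont hΩo hΩ).continuousAt (Ioi_mem_nhds h0)).inner continuousAt_const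
      refine (h3.congr ?_).continuousWithinAt
      filter_upwards [lt_mem_nhds h0] with s hs
      exact (if_neg (not_le.2 hs)).symm
  refine (h1.add h2).congr fun t ht => ?_
  rcases ht.1.eq_or_lt with h0 | h0
  · rw [← h0]
    show ⟪uP Ω u₀ Y τ x 0, w⟫ = (if (0 : ℝ) ≤ 0 then ⟪clD Ω u₀, w⟫ else ⟪clD Ω (lft Y τ 0), w⟫) + ⟪x 0, PD Ω w⟫
    rw [p0g4_zero, if_pos le_rfl, hx.init, inner_zero_left, add_zero]
  · show ⟪uP Ω u₀ Y τ x t, w⟫ = (if t ≤ 0 then ⟪clD Ω u₀, w⟫ else ⟪clD Ω (lft Y τ t), w⟫) + ⟪x t, PD Ω w⟫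
    rw [p0g4_pos h0, if_neg (not_le.2 h0), inner_add_left, p0g4_inner]

theorem P0Seq.u_gm (h : P0Seq Ω W u₀ Y ω τ) (hΩo : IsOpen Ω) (hΩ : Bornology.IsBounded Ω)
    (hx : LSol (io Ω) 1 (Fl Ω Y τ) (gl Ω Y τ) (fun u v w => bV Ω u v w) 0 (τ 0) 0 x v) :
    MemLp (GP Ω Y τ v) 2 (volume.restrict (Ioc 0 (τ 0))) := by
  have h2 : MemLp (fun t => (v t : G2E d)) 2 (volume.restrict (Ioc 0 (τ 0))) :=
    ((VD Ω).subtypeL.comp_memLp' hx.mem).mono_measure (Measure.restrict_mono Ioc_subset_Icc_self le_rfl)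
  have h1 : MemLp (fun t => (WithLp.toLp 2 fun i => clD Ω (pd i (lft Y τ t)) : G2E d)) 2
      (volume.restrict (Ioc 0 (τ 0))) := by
    have h3 : MemLp (fun t => ∑ i, ‖clD Ω (pd i (lft Y τ t))‖) 2 (volume.restrict (Ioc 0 (τ 0))) :=
      memLp_finsetSum _ fun i _ => (h.pd_memLp hΩo hΩ i).norm
    have h4 : ContinuousOn (fun t => (WithLp.toLp 2 fun i => clD Ω (pd i (lft Y τ t)) : G2E d)) (Ioc 0 (τ 0)) :=
      (PiLp.continuous_toLp 2 _).comp_continuousOn
        (continuousOn_pi.2 fun i => (h.pd_cont hΩo hΩ i).mono Ioc_subset_Ioi_self)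
    refine h3.of_le (h4.aestronglyMeasurable measurableSet_Ioc) (Eventually.of_forall fun t => ?_)
    have h5 : 0 ≤ ∑ i, ‖clD Ω (pd i (lft Y τ t))‖ := Finset.sum_nonneg fun i _ => norm_nonneg _
    rw [Real.norm_eq_abs, abs_of_nonneg h5]
    refine le_of_sq_le_sq ?_ h5
    rw [PiLp.norm_sq_eq_of_L2]
    exact Finset.sum_sq_le_sq_sum_of_nonneg fun i _ => norm_nonneg _
  exact h1.add h2

/-- (`H0L_smooth`, `H0L_V`, `H0L.add`, `LSol.ae`) -/
theorem P0Seq.u_h0 (h : P0Seq Ω W u₀ Y ω τ) (hΩo : IsOpen Ω) (hΩ : Bornology.IsBounded Ω) (hW : W ⊆ frontier Ω)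
    (hx : LSol (io Ω) 1 (Fl Ω Y τ) (gl Ω Y τ) (fun u v w => bV Ω u v w) 0 (τ 0) 0 x v) :
    ∀ᵐ t ∂(volume.restrict (Ioc 0 (τ 0))), H0L Ω W (uP Ω u₀ Y τ x t) (GP Ω Y τ v t) := by
  have h1 : ∀ᵐ t ∂(volume.restrict (Ioc 0 (τ 0))), io Ω (v t) = x t :=
    ae_restrict_of_ae_restrict_of_subset Ioc_subset_Icc_self hx.ae
  filter_upwards [h1, ae_restrict_mem measurableSet_Ioc] with t ht ht0
  rw [p0g4_pos ht0.1, ← ht]
  exact (H0L_smooth hΩo hΩ (h.lft_smo ht0.1) (h.lft_cpt ht0.1) fun y hy => h.lft_wall ht0.1 hy).add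
    ((H0L_V hΩo hΩ (v t)).mono hW)

/-- (for `t > 0`: integration by parts, `lft_dv`, `HD_div`; at `t = 0` by continuity, `u_wc`) -/
theorem P0Seq.u_div (h : P0Seq Ω W u₀ Y ω τ) (hΩo : IsOpen Ω) (hΩ : Bornology.IsBounded Ω)
    (hm : MemLp u₀ 2 (volume.restrict Ω))
    (hx : LSol (io Ω) 1 (Fl Ω Y τ) (gl Ω Y τ) (fun u v w => bV Ω u v w) 0 (τ 0) 0 x v) {t : ℝ}
    (ht : t ∈ Icc 0 (τ 0)) {q : En d → ℝ} (hq : IsTe Ω q) : ⟪uP Ω u₀ Y τ x t, cl (gd q)⟫ = 0 := by
  have hpos : ∀ s ∈ Ioc 0 (τ 0), ⟪uP Ω u₀ Y τ x s, cl (gd q)⟫ = 0 := by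
    intro s hs
    rw [p0g4_pos hs.1, inner_add_left, HD_div (x s) hq.smooth hq.cpt, add_zero,
      p0g4_clD hΩo hΩ (h.lft_smo hs.1).continuous hq.gd]
    exact p0g4_div (h.lft_smo hs.1) (fun y hy => h.lft_dv hs.1 hy) hq
  exact (EqOn.of_subset_closure (s := Ioc 0 (τ 0)) hpos (h.u_wc hΩo hΩ hm hx (cl (gd q))) continuousOn_const
    Ioc_subset_Icc_self (by rw [closure_Ioc (h.τ0 0).ne])) ht

end Pool.Agent.Lib.MP_79abb3_an.W
end

section

/-!
Theorem D, block S, abstract part: weak form of the equations, energy identity of weak solutions.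
-/

set_option autoImplicit false
set_option linter.unusedSectionVars false

open MeasureTheory Set Filter Topology Function
open scoped ENNReal InnerProductSpace ComplexConjugate

namespace Pool.Agent.Lib.MP_79abb3_an.PD

open Pool.Agent.Lib.MP_79abb3_an.SC

section
variable {X V Z : Type} [NormedAddCommGroup X] [InnerProductSpace ℂ X] [CompleteSpace X]
  [NormedAddCommGroup V] [InnerProductSpace ℂ V] [CompleteSpace V] [NormedAddCommGroup Z] [NormedSpace ℂ Z]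
  {ι : V →L[ℂ] X} {j : V →L[ℂ] Z} {a b : ℝ}

/-- The tested identity paired with `w = Q q`. -/
theorem FDom.tst_weak (hd : FDom ι) {x ℓ : ℝ → X} (h : Tst (KF ι) a b (fun t => Kh (KF ι) (x t)) ℓ) (w : V)
    {s t : ℝ} (hs : a ≤ s) (hst : s ≤ t) (ht : t ≤ b) :
    ⟪ι w, ι (Qv ι (x t))⟫_ℂ - ⟪ι w, ι (Qv ι (x s))⟫_ℂ = ∫ r in s..t, ⟪w, Qv ι (ℓ r)⟫_ℂ := by
  obtain ⟨q, rfl⟩ := hd.Qv_surj w
  have hsub : uIcc s t ⊆ Icc a b := by rw [uIcc_of_le hst]; exact Icc_subset_Icc hs ht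
  have h1 : ∀ r, ⟪Qv ι q, Qv ι (ℓ r)⟫_ℂ = innerSL ℂ q (ℓ r) := fun r => by
    rw [hd.inner_Qv]; rfl
  simp only [h1]
  rw [ContinuousLinearMap.intervalIntegral_comp_comm _ (h.cl.mono hsub).intervalIntegrable,
    ← h.eq s t hs hst ht, hd.ι_Qv, hd.ι_Qv, hd.ι_Qv, Kh_inner, Kh_inner, ← inner_sub_right]
  rfl

/-- The terms of the right side: `⟪Q q, Q (J3 y)⟫ = ⟪q, J3 y⟫ = y (j (Q q))`, `⟪Q q, Q (Kh f)⟫ = ⟪ι (Q q), f⟫`. -/
theorem FDom.inner_rhs (hd : FDom ι) (w : V) (y : Yd Z) (f x : X) :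
    ⟪w, Qv ι (J3 ι j y + Kh (KF ι) f - x)⟫_ℂ = -⟪w, Qv ι x⟫_ℂ + y (j w) + ⟪ι w, f⟫_ℂ := by
  obtain ⟨q, rfl⟩ := hd.Qv_surj w
  rw [hd.inner_Qv, inner_sub_right, inner_add_right, inner_J3, hd.inner_Qv, ← Kh_inner, hd.ι_Qv]
  ring

/-- The weak form. Proof: `Slv.tst`, `tst_weak`, `inner_rhs`. -/
theorem Slv.weakV {C : ℝ} {N : X →L[ℂ] X →L[ℂ] Yd Z} (hd : FDom ι) (h : NSA (KF ι) (J3 ι j) N C) {f : ℝ → X}
    {B : ℝ → X →L[ℂ] X} (hf : ContinuousOn f (Icc a b)) (hB : ContinuousOn B (Icc a b)) {x₀ : X} {x : ℝ → X}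
    (hx : Slv (KF ι) (J3 ι j) N f B a b x₀ x) (w : V) {s t : ℝ} (hs : a ≤ s) (hst : s ≤ t) (ht : t ≤ b) :
    ⟪ι w, ι (Qv ι (x t))⟫_ℂ - ⟪ι w, ι (Qv ι (x s))⟫_ℂ =
      ∫ r in s..t, (-⟪w, Qv ι (x r)⟫_ℂ + N (x r) (x r) (j w) + ⟪ι w, f r + B r (x r)⟫_ℂ) := by
  rw [hd.tst_weak (hx.tst h hf hB) w hs hst ht]
  refine intervalIntegral.integral_congr fun r _ => ?_
  exact hd.inner_rhs w _ _ _

/-- A weak solution with values in `V` is a tested solution: `x = Q⁻¹ v`. Proof: extend the identity from the dense range of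
`e` to all `w` (both sides are continuous in `w`), take `w = Q q`. -/
theorem FDom.tst_of_weak (hd : FDom ι) {A : Type} {e : A → V} (he : DenseRange e) {x ℓ : ℝ → X}
    (hx : ContinuousOn x (Icc a b)) (hl : ContinuousOn ℓ (Icc a b))
    (h : ∀ α : A, ∀ s t, a ≤ s → s ≤ t → t ≤ b →
      ⟪ι (e α), ι (Qv ι (x t))⟫_ℂ - ⟪ι (e α), ι (Qv ι (x s))⟫_ℂ = ∫ r in s..t, ⟪e α, Qv ι (ℓ r)⟫_ℂ) :
    Tst (KF ι) a b (fun t => Kh (KF ι) (x t)) ℓ := by
  refine ⟨(Kh (KF ι)).continuous.comp_continuousOn hx, hl, fun s t hs hst ht => ?_⟩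
  have hsub : uIcc s t ⊆ Icc a b := by rw [uIcc_of_le hst]; exact Icc_subset_Icc hs ht
  have hQl : IntervalIntegrable (fun r => Qv ι (ℓ r)) volume s t :=
    (((Qv ι).continuous.comp_continuousOn hl).mono hsub).intervalIntegrable
  have h1 : ∀ w : V, ⟪w, ContinuousLinearMap.adjoint ι (Kh (KF ι) (x t) - Kh (KF ι) (x s)) -
      ∫ r in s..t, Qv ι (ℓ r)⟫_ℂ = 0 := fun w =>
    he.induction (P := fun w => ⟪w, ContinuousLinearMap.adjoint ι (Kh (KF ι) (x t) - Kh (KF ι) (x s)) -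
      ∫ r in s..t, Qv ι (ℓ r)⟫_ℂ = 0) (by
        rintro _ ⟨α, rfl⟩
        have h2 := h α s t hs hst ht
        have h3 : ∀ r, ⟪e α, Qv ι (ℓ r)⟫_ℂ = innerSL ℂ (e α) (Qv ι (ℓ r)) := fun r => rfl
        simp only [h3] at h2
        rw [ContinuousLinearMap.intervalIntegral_comp_comm _ hQl] at h2
        rw [inner_sub_right, ContinuousLinearMap.adjoint_inner_right, inner_sub_right, ← hd.ι_Qv,
          ← hd.ι_Qv, h2]
        exact sub_self _)
      (isClosed_eq (by fun_prop) (by fun_prop)) w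
  have h2 := inner_self_eq_zero.1 (h1 _)
  rw [← hd.Qv_Kh, ContinuousLinearMap.intervalIntegral_comp_comm _
    (hl.mono hsub).intervalIntegrable, ← map_sub] at h2
  have h3 := hd.norm_Qv (Kh (KF ι) (Kh (KF ι) (x t) - Kh (KF ι) (x s)) - ∫ r in s..t, ℓ r)
  rw [h2, norm_zero] at h3
  have h4 := norm_eq_zero.1 h3.symm
  rw [map_sub, sub_eq_zero] at h4
  exact h4

/-- **Energy identity of weak solutions.** Proof: `tst_of_weak` with `x = Q⁻¹ v`, `ℓ = Q⁻¹ F` (`Qv_surj`, `norm_Qv`: `Q⁻¹` is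
isometric, so `x`, `ℓ` are continuous), `Tst.energy_int` with `M = 1`, `p = x`, `inner_Qv`, `ι_Qv`. -/
theorem FDom.energy (hd : FDom ι) {A : Type} {e : A → V} (he : DenseRange e) {v F : ℝ → V}
    (hv : ContinuousOn v (Icc a b)) (hF : ContinuousOn F (Icc a b))
    (h : ∀ α : A, ∀ s t, a ≤ s → s ≤ t → t ≤ b →
      ⟪ι (e α), ι (v t)⟫_ℂ - ⟪ι (e α), ι (v s)⟫_ℂ = ∫ r in s..t, ⟪e α, F r⟫_ℂ)
    {s t : ℝ} (hs : a ≤ s) (hst : s ≤ t) (ht : t ≤ b) :
    ‖ι (v t)‖ ^ 2 - ‖ι (v s)‖ ^ 2 = 2 * ∫ r in s..t, (⟪v r, F r⟫_ℂ).re := by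
  choose g hg using hd.Qv_surj
  have hgc : Continuous g := by
    refine (Isometry.of_dist_eq fun v v' => ?_).continuous
    rw [dist_eq_norm, dist_eq_norm, ← hd.norm_Qv (g v - g v'), map_sub, hg, hg]
  have hx : ContinuousOn (fun r => g (v r)) (Icc a b) := hgc.comp_continuousOn hv
  have hl : ContinuousOn (fun r => g (F r)) (Icc a b) := hgc.comp_continuousOn hF
  have h1 := hd.tst_of_weak he hx hl (fun α s t hs hst ht => by
    simp only [hg]
    exact h α s t hs hst ht)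
  have h2 := h1.energy_int (M := ContinuousLinearMap.id ℂ X) (fun x y => rfl) hx (fun r _ => rfl)
    hs hst ht
  have h3 : ∀ r, (⟪(ContinuousLinearMap.id ℂ X) (Kh (KF ι) (g (v r))), Kh (KF ι) (g (v r))⟫_ℂ).re =
      ‖ι (v r)‖ ^ 2 := fun r => by
    rw [ContinuousLinearMap.id_apply, ← hd.ι_Qv, hg, inner_self_eq_norm_sq_to_K]
    norm_cast
  have h4 : ∀ r, ⟪g (v r), g (F r)⟫_ℂ = ⟪v r, F r⟫_ℂ := fun r => by
    rw [← hd.inner_Qv, hg, hg]
  simp only [h3, h4] at h2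
  exact h2

/-- The Riesz representative of a functional `w ↦ -⟪w, v⟫ + y (j w) + ⟪ι w, f⟫` is continuous in the data: it is
`-v + j'(y) + ι† f` with `j'(y) = Q (J3 y)`. -/
theorem FDom.riesz (hd : FDom ι) (w v : V) (y : Yd Z) (f : X) :
    ⟪w, -v + Qv ι (J3 ι j y) + ContinuousLinearMap.adjoint ι f⟫_ℂ = -⟪w, v⟫_ℂ + y (j w) + ⟪ι w, f⟫_ℂ := by
  obtain ⟨q, rfl⟩ := hd.Qv_surj w
  rw [inner_add_right, inner_add_right, inner_neg_right, hd.inner_Qv q (J3 ι j y), inner_J3,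
    ContinuousLinearMap.adjoint_inner_right]

/-- **Energy identity**, with the right side in terms of the forces: for `v ∈ C([a,b];V)` with
`⟪ι w, ι v⟫' = -⟪w, v⟫ + y (j w) + ⟪ι w, f⟫` for `w` in a dense set. -/
theorem FDom.energy' (hd : FDom ι) {A : Type} {e : A → V} (he : DenseRange e) {v : ℝ → V} {y : ℝ → Yd Z}
    {f : ℝ → X} (hv : ContinuousOn v (Icc a b)) (hy : ContinuousOn y (Icc a b)) (hf : ContinuousOn f (Icc a b))
    (h : ∀ α : A, ∀ s t, a ≤ s → s ≤ t → t ≤ b → ⟪ι (e α), ι (v t)⟫_ℂ - ⟪ι (e α), ι (v s)⟫_ℂ =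
      ∫ r in s..t, (-⟪e α, v r⟫_ℂ + y r (j (e α)) + ⟪ι (e α), f r⟫_ℂ))
    {s t : ℝ} (hs : a ≤ s) (hst : s ≤ t) (ht : t ≤ b) :
    ‖ι (v t)‖ ^ 2 - ‖ι (v s)‖ ^ 2 = 2 * ∫ r in s..t, (-‖v r‖ ^ 2 + (y r (j (v r))).re +
      (⟪ι (v r), f r⟫_ℂ).re) := by
  have hF : ContinuousOn (fun r => -v r + Qv ι (J3 ι j (y r)) + ContinuousLinearMap.adjoint ι (f r))
      (Icc a b) :=
    (hv.neg.add ((Qv ι).continuous.comp_continuousOn ((J3 ι j).continuous.comp_continuousOn hy))).add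
      ((ContinuousLinearMap.adjoint ι).continuous.comp_continuousOn hf)
  rw [hd.energy he hv hF (fun α s t hs hst ht => by
    simp only [hd.riesz]
    exact h α s t hs hst ht) hs hst ht]
  congr 1
  refine intervalIntegral.integral_congr fun r _ => ?_
  show (⟪v r, -v r + Qv ι (J3 ι j (y r)) + ContinuousLinearMap.adjoint ι (f r)⟫_ℂ).re = _
  rw [hd.riesz, Complex.add_re, Complex.add_re, Complex.neg_re, inner_self_eq_norm_sq_to_K]
  norm_cast

end

end Pool.Agent.Lib.MP_79abb3_an.PD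
end
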