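import Pool.Agent.Lib.MP_79abb3_an.PD.AbNa

/-!
Theorem D, block S, abstract part: linear problems.
-/

set_option autoImplicit false
set_option linter.unusedSectionVars false

open MeasureTheory Set Filter Topology Function
open scoped ENNReal InnerProductSpace ComplexConjugate

namespace Pool.Agent.Lib.MP_79abb3_an.PD

open Pool.Agent.Lib.MP_79abb3_an.SC

/-! ### Linear problems -/

section
variable {X Y : Type} [NormedAddCommGroup X] [InnerProductSpace ℂ X] [CompleteSpace X]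
  [NormedAddCommGroup Y] [NormedSpace ℂ Y] {K : X →L[ℂ] X} {J3 : Y →L[ℂ] X} {C a b : ℝ}

/-- The right side of the linear problem. -/
noncomputable def Pl (G : ℝ → X →L[ℂ] Y) (s : ℝ → Y) (f : ℝ → X) (B : ℝ → X →L[ℂ] X) (t : ℝ) (x : X) :
    Y × X := (G t x + s t, f t + B t x)

private theorem AbWb_kth {τ : ℝ} (hτ : 0 < τ) : (√τ)⁻¹ ≤ kth (3 / 4) τ := by
  unfold kth
  rw [Real.sqrt_eq_rpow, ← Real.rpow_neg hτ.le]
  rcases le_total τ 1 with h2 | h2
  · have := Real.rpow_le_rpow_of_exponent_ge hτ h2 (show -(3 / 4 : ℝ) ≤ -(1 / 2 : ℝ) by norm_num)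
    linarith
  · have := Real.rpow_le_one_of_one_le_of_nonpos h2 (show -(1 / 2 : ℝ) ≤ 0 by norm_num)
    have h3 := Real.rpow_nonneg hτ.le (-(3 / 4 : ℝ))
    linarith

private theorem AbWb_ker (hK : 0 ≤ K) (hi : ∀ x, K x = 0 → x = 0) (hC : 0 ≤ C)
    (k1 : ∀ τ, 0 < τ → ∀ y, ‖AS K τ (J3 y)‖ ≤ C * τ ^ (-(3 / 4 : ℝ)) * ‖y‖) :
    Ker (Sg K) (Lc K J3) (C + 1) (3 / 4) := by
  refine ker_AS (J := J3.coprod (Kh K)) hK hi (by linarith) (by norm_num) (by norm_num) ?_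
  rintro τ hτ ⟨y, u⟩
  have h1 : (J3.coprod (Kh K)) (y, u) = J3 y + Kh K u := rfl
  rw [h1, map_add, AS_Kh hK hτ]
  have h2 := k1 τ hτ y
  have h3 := (HS K τ).le_of_opNorm_le (HS_norm hK hτ) u
  have h4 := AbWb_kth hτ
  have h5 : τ ^ (-(3 / 4 : ℝ)) ≤ kth (3 / 4) τ := by unfold kth; linarith
  have h6 : ‖y‖ ≤ ‖(y, u)‖ := norm_fst_le (y, u)
  have h7 : ‖u‖ ≤ ‖(y, u)‖ := norm_snd_le (y, u)
  have h8 := kth_pos (3 / 4) hτ
  have h9 := Real.rpow_nonneg hτ.le (-(3 / 4 : ℝ))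
  calc ‖AS K τ (J3 y) + HS K τ u‖ ≤ ‖AS K τ (J3 y)‖ + ‖HS K τ u‖ := norm_add_le _ _
    _ ≤ C * kth (3 / 4) τ * ‖(y, u)‖ + kth (3 / 4) τ * ‖(y, u)‖ := by
      refine add_le_add (h2.trans ?_) (h3.trans ?_)
      · gcongr
      · gcongr
    _ = (C + 1) * kth (3 / 4) τ * ‖(y, u)‖ := by ring

private theorem AbWb_bd {Z : Type} [NormedAddCommGroup Z] {g : ℝ → Z}
    (hg : ContinuousOn g (Icc a b)) : ∃ R, 0 ≤ R ∧ ∀ t ∈ Icc a b, ‖g t‖ ≤ R := by
  obtain ⟨R, hR⟩ := isCompact_Icc.exists_bound_of_continuousOn hg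
  exact ⟨|R|, abs_nonneg _, fun t ht => (hR t ht).trans (le_abs_self _)⟩

private theorem AbWb_nl {G : ℝ → X →L[ℂ] Y} {s : ℝ → Y} {f : ℝ → X} {B : ℝ → X →L[ℂ] X}
    (hG : ContinuousOn G (Icc a b)) (hs : ContinuousOn s (Icc a b))
    (hf : ContinuousOn f (Icc a b)) (hB : ContinuousOn B (Icc a b)) :
    ∃ M, Nl (Pl G s f B) M a b ∧ ∀ t ∈ Icc a b, ∀ x, ‖Pl G s f B t x‖ ≤ M * (‖x‖ + 1) := by
  obtain ⟨RG, hRG0, hRG⟩ := AbWb_bd hG
  obtain ⟨Rs, hRs0, hRs⟩ := AbWb_bd hs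
  obtain ⟨Rf, hRf0, hRf⟩ := AbWb_bd hf
  obtain ⟨RB, hRB0, hRB⟩ := AbWb_bd hB
  have hGx : ∀ t ∈ Icc a b, ∀ x, ‖G t x‖ ≤ RG * ‖x‖ := fun t ht x =>
    (G t).le_of_opNorm_le (hRG t ht) x
  have hBx : ∀ t ∈ Icc a b, ∀ x, ‖B t x‖ ≤ RB * ‖x‖ := fun t ht x =>
    (B t).le_of_opNorm_le (hRB t ht) x
  refine ⟨RG + Rs + Rf + RB, ⟨by positivity, fun x => ?_, fun t ht x y => ?_, fun t ht => ?_⟩, ?_⟩
  · exact ((hG.clm_apply continuousOn_const).add hs).prodMk
      (hf.add (hB.clm_apply continuousOn_const))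
  · have h1 : Pl G s f B t x - Pl G s f B t y = (G t (x - y), B t (x - y)) := by
      simp only [Pl, Prod.mk_sub_mk, map_sub]
      congr 1 <;> abel
    rw [h1]
    have h2 : ‖(G t (x - y), B t (x - y))‖ ≤ (RG + Rs + Rf + RB) * ‖x - y‖ := by
      rw [Prod.norm_mk]
      refine max_le ((hGx t ht _).trans ?_) ((hBx t ht _).trans ?_)
      · exact mul_le_mul_of_nonneg_right (by linarith) (norm_nonneg _)
      · exact mul_le_mul_of_nonneg_right (by linarith) (norm_nonneg _)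
    refine h2.trans (mul_le_mul_of_nonneg_right ?_ (norm_nonneg _))
    have h3 : 0 ≤ RG + Rs + Rf + RB := by positivity
    have := norm_nonneg x
    have := norm_nonneg y
    nlinarith
  · have h1 : Pl G s f B t 0 = (s t, f t) := by simp [Pl]
    rw [h1, Prod.norm_mk]
    exact max_le ((hRs t ht).trans (by linarith)) ((hRf t ht).trans (by linarith))
  · intro t ht x
    have h1 := norm_nonneg x
    show ‖(G t x + s t, f t + B t x)‖ ≤ _
    rw [Prod.norm_mk]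
    refine max_le ?_ ?_
    · refine (norm_add_le _ _).trans ?_
      have := hGx t ht x
      have := hRs t ht
      nlinarith [mul_nonneg hRs0 h1, mul_nonneg hRf0 h1, mul_nonneg hRB0 h1]
    · refine (norm_add_le _ _).trans ?_
      have := hBx t ht x
      have := hRf t ht
      nlinarith [mul_nonneg hRs0 h1, mul_nonneg hRf0 h1, mul_nonneg hRG0 h1]

/-- Existence and reality for the linear problem. Proof: `Ker` from `ker_AS` with constant `C + 1`, exponent `3/4`; `Nl` with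
`M = sup (‖G‖ + ‖s‖ + ‖f‖ + ‖B‖)`; a priori bound from `kth_gron`; `Ker.global`; `mild_Tst`. Reality as in
`Slv.real`. -/
theorem exists_lin (hK : 0 ≤ K) (hi : ∀ x, K x = 0 → x = 0) (hC : 0 ≤ C)
    (k1 : ∀ τ, 0 < τ → ∀ y, ‖AS K τ (J3 y)‖ ≤ C * τ ^ (-(3 / 4 : ℝ)) * ‖y‖) (hab : a ≤ b)
    {G : ℝ → X →L[ℂ] Y} {s : ℝ → Y} {f : ℝ → X} {B : ℝ → X →L[ℂ] X} (hG : ContinuousOn G (Icc a b))
    (hs : ContinuousOn s (Icc a b)) (hf : ContinuousOn f (Icc a b)) (hB : ContinuousOn B (Icc a b))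
    {cX : X →L[ℝ] X} {cY : Y →L[ℝ] Y} (cj : Cnj cX) (cK : ∀ x, cX (K x) = K (cX x))
    (c3 : ∀ y, cX (J3 y) = J3 (cY y)) (hGr : ∀ t ∈ Icc a b, ∀ x, cY (G t x) = G t (cX x))
    (hsr : ∀ t ∈ Icc a b, cY (s t) = s t) (hfr : ∀ t ∈ Icc a b, cX (f t) = f t)
    (hBr : ∀ t ∈ Icc a b, ∀ x, cX (B t x) = B t (cX x)) {x₀ : X} (h0 : cX x₀ = x₀) :
    ∃ x, Mild (Sg K) (Lc K J3) (Pl G s f B) a b x₀ x ∧ (∀ t ∈ Icc a b, cX (x t) = x t) ∧
      Tst K a b (fun t => Kh K (x t)) (fun t => J3 (G t (x t) + s t) + Kh K (f t + B t (x t)) - x t) := by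
  have hk := AbWb_ker hK hi hC k1
  obtain ⟨M, hΦ, hlin⟩ := AbWb_nl hG hs hf hB
  have hM := hΦ.M0
  have hB0 : 0 ≤ (C + 1) * M := mul_nonneg (by linarith) hM
  obtain ⟨μ, hμ, hg⟩ := kth_gron hk.th0 hk.th1 hB0
  obtain ⟨x, hx⟩ := hk.global (R := 2 * (‖x₀‖ + 1) * Real.exp (μ * (b - a))) hab hΦ x₀ (by
    intro c hc x hx
    have hΦc : Nl (Pl G s f B) M a c := hΦ.mono le_rfl hc.2
    have key := hg a c (‖x₀‖ + 1) (fun t => ‖x t‖ + 1) (by positivity)
      (hx.cont.norm.add continuousOn_const) (fun t _ => by positivity) (fun t ht => by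
        have hfx := hΦc.cont_comp hx.cont
        have h1 := hk.duh_norm hfx ht (c := a) ⟨le_rfl, ht.1⟩
        have h2 : ‖x t‖ ≤ ‖x₀‖ + ‖∫ r in a..t, Lc K J3 (t - r) (Pl G s f B r (x r))‖ := by
          have h3 := hx.eq t ht
          rw [h3]
          exact (norm_add_le _ _).trans (by
            have := hk.sb (t - a) (sub_nonneg.2 ht.1) x₀
            linarith)
        have h3 : ∫ r in a..t, kth (3 / 4) (t - r) * ‖Pl G s f B r (x r)‖ ≤
            M * ∫ r in a..t, kth (3 / 4) (t - r) * (‖x r‖ + 1) := by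
          rw [← intervalIntegral.integral_const_mul]
          have hsub : Icc a t ⊆ Icc a c := Icc_subset_Icc le_rfl ht.2
          have e1 : ContinuousOn (fun r => ‖Pl G s f B r (x r)‖) (uIcc a t) := by
            rw [uIcc_of_le ht.1]; exact (hfx.mono hsub).norm
          have e2 : ContinuousOn (fun r => ‖x r‖ + 1) (uIcc a t) := by
            rw [uIcc_of_le ht.1]; exact ((hx.cont.mono hsub).norm).add continuousOn_const
          refine intervalIntegral.integral_mono_on ht.1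
            ((kth_int' hk.th1 t a t).mul_continuousOn e1)
            (((kth_int' hk.th1 t a t).mul_continuousOn e2).const_mul _) fun r hr => ?_
          have hr' : r ∈ Icc a b := ⟨hr.1, (hr.2.trans ht.2).trans hc.2⟩
          have h4 := hlin r hr' (x r)
          calc kth (3 / 4) (t - r) * ‖Pl G s f B r (x r)‖
              ≤ kth (3 / 4) (t - r) * (M * (‖x r‖ + 1)) :=
                mul_le_mul_of_nonneg_left h4 (kth_nonneg _ (sub_nonneg.2 hr.2))
            _ = M * (kth (3 / 4) (t - r) * (‖x r‖ + 1)) := by ring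
        have h4 : ‖∫ r in a..t, Lc K J3 (t - r) (Pl G s f B r (x r))‖ ≤
            (C + 1) * (M * ∫ r in a..t, kth (3 / 4) (t - r) * (‖x r‖ + 1)) :=
          h1.trans (mul_le_mul_of_nonneg_left h3 (by linarith))
        show ‖x t‖ + 1 ≤ ‖x₀‖ + 1 + (C + 1) * M * ∫ r in a..t, kth (3 / 4) (t - r) * (‖x r‖ + 1)
        linarith [h2, h4]) c ⟨hc.1, le_rfl⟩
    have h5 : Real.exp (μ * (c - a)) ≤ Real.exp (μ * (b - a)) :=
      Real.exp_le_exp.2 (mul_le_mul_of_nonneg_left (by linarith [hc.2]) hμ.le)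
    have h6 : 2 * (‖x₀‖ + 1) * Real.exp (μ * (c - a)) ≤ 2 * (‖x₀‖ + 1) * Real.exp (μ * (b - a)) :=
      mul_le_mul_of_nonneg_left h5 (by positivity)
    have h7 : ‖x c‖ + 1 ≤ 2 * (‖x₀‖ + 1) * Real.exp (μ * (c - a)) := key
    linarith)
  refine ⟨x, hx, ?_, ?_⟩
  · refine Mild.real hk hΦ hx cX (cY.prodMap cX) (fun t ht x => cj.Sg hK cK ht x) ?_ ?_ h0
    · rintro t ht ⟨y, u⟩
      show cX (AS K t (J3 y + Kh K u)) = AS K t (J3 (cY y) + Kh K (cX u))
      rw [cj.AS hK cK ht, map_add, c3, cj.Kh hK cK]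
    · intro t ht z
      show (cY (G t z + s t), cX (f t + B t z)) = (G t (cX z) + s t, f t + B t (cX z))
      rw [map_add, map_add, hGr t ht, hsr t ht, hfr t ht, hBr t ht]
  · have hgc := hΦ.cont_comp hx.cont
    exact mild_Tst (J := J3.coprod (Kh K)) hK hi hk hgc hx.cont hx.eq

end

end Pool.Agent.Lib.MP_79abb3_an.PD
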