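import Pool.Agent.Lib.MP_79abb3_an.PD.GDef

/-!
Theorem D, block G, part B1: calculus of `gr` and `dbar`, the Poincaré inequality.
-/

set_option autoImplicit false
set_option linter.unusedSectionVars false

open MeasureTheory Set Filter Topology Function
open scoped ENNReal ComplexConjugate

namespace Pool.Agent.Lib.MP_79abb3_an.PD

private theorem gb1_lin {E : Type*} [NormedAddCommGroup E] [NormedSpace ℝ E] (L : ℂ →L[ℝ] E) (z : ℂ) :
    L z = z.re • L 1 + z.im • L Complex.I := by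
  have : z = z.re • (1 : ℂ) + z.im • Complex.I := by
    apply Complex.ext <;> simp
  conv_lhs => rw [this]
  rw [map_add, map_smul, map_smul]

private theorem gb1_mk {E : Type} [NormedAddCommGroup E] [NormedSpace ℝ E] {D : Set ℂ} {f : ℂ → E}
    (hs : ContDiff ℝ ((⊤ : ℕ∞) : WithTop ℕ∞) f) {A : Set ℂ} (hA : IsCompact A) (hAD : A ⊆ D)
    (hf : ∀ x, x ∉ A → f x = 0) : IsTe D f := by
  have h1 : tsupport f ⊆ A := by
    refine closure_minimal ?_ hA.isClosed
    intro x hx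
    by_contra h
    exact hx (hf x h)
  exact ⟨hs, hA.of_isClosed_subset (isClosed_tsupport f) h1, h1.trans hAD⟩

private theorem gb1_le : ((⊤ : ℕ∞) : WithTop ℕ∞) + 1 ≤ ((⊤ : ℕ∞) : WithTop ℕ∞) := by
  norm_cast

theorem gr_norm (u : ℂ → ℝ) (x : ℂ) : ‖gr u x‖ = ‖fderiv ℝ u x‖ := by
  set L := fderiv ℝ u x with hL
  have hg : gr u x = ⟨L 1, -L Complex.I⟩ := rfl
  have key : ∀ z : ℂ, L z = (z * gr u x).re := by
    intro z
    rw [gb1_lin L z, hg, Complex.mul_re]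
    simp only [smul_eq_mul]
    ring
  apply le_antisymm
  · have h1 : ‖L (conj (gr u x))‖ ≤ ‖L‖ * ‖gr u x‖ := by
      have := L.le_opNorm (conj (gr u x))
      rwa [Complex.norm_conj] at this
    have h2 : L (conj (gr u x)) = ‖gr u x‖ ^ 2 := by
      rw [key, mul_comm, Complex.mul_conj, Complex.ofReal_re, Complex.normSq_eq_norm_sq]
    rw [h2, Real.norm_eq_abs, abs_of_nonneg (by positivity), sq] at h1
    by_cases h0 : ‖gr u x‖ = 0
    · rw [h0]; exact norm_nonneg _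
    · exact le_of_mul_le_mul_right h1 (lt_of_le_of_ne (norm_nonneg _) (Ne.symm h0))
  · refine L.opNorm_le_bound (norm_nonneg _) fun z => ?_
    rw [key, Real.norm_eq_abs]
    refine (Complex.abs_re_le_norm _).trans ?_
    rw [norm_mul, mul_comm]

theorem gr_add {u v : ℂ → ℝ} {x : ℂ} (hu : DifferentiableAt ℝ u x) (hv : DifferentiableAt ℝ v x) :
    gr (fun x => u x + v x) x = gr u x + gr v x := by
  unfold gr
  rw [fderiv_fun_add hu hv]
  apply Complex.ext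
  · simp
  · simp
    ring

theorem gr_sub {u v : ℂ → ℝ} {x : ℂ} (hu : DifferentiableAt ℝ u x) (hv : DifferentiableAt ℝ v x) :
    gr (fun x => u x - v x) x = gr u x - gr v x := by
  unfold gr
  rw [fderiv_fun_sub hu hv]
  apply Complex.ext
  · simp
  · simp
    ring

theorem gr_smul {u : ℂ → ℝ} {x : ℂ} (hu : DifferentiableAt ℝ u x) (c : ℝ) :
    gr (fun x => c * u x) x = c * gr u x := by
  unfold gr
  rw [fderiv_const_mul hu]
  apply Complex.ext
  · simp
  · simp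

theorem gr_mul {u v : ℂ → ℝ} {x : ℂ} (hu : DifferentiableAt ℝ u x) (hv : DifferentiableAt ℝ v x) :
    gr (fun x => u x * v x) x = u x * gr v x + v x * gr u x := by
  unfold gr
  rw [fderiv_fun_mul hu hv]
  apply Complex.ext
  · simp
  · simp
    ring

theorem gr_congr {u v : ℂ → ℝ} {x : ℂ} (h : u =ᶠ[𝓝 x] v) : gr u x = gr v x := by
  unfold gr
  rw [h.fderiv_eq]

private theorem gb1_gr_eq (u : ℂ → ℝ) : gr u = fun x =>
    Complex.ofRealCLM (fderiv ℝ u x 1) - Complex.I * Complex.ofRealCLM (fderiv ℝ u x Complex.I) := by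
  funext x
  unfold gr
  apply Complex.ext
  · simp
  · simp

theorem gr_smooth {u : ℂ → ℝ} (hu : ContDiff ℝ ((⊤ : ℕ∞) : WithTop ℕ∞) u) :
    ContDiff ℝ ((⊤ : ℕ∞) : WithTop ℕ∞) (gr u) := by
  rw [gb1_gr_eq]
  have h1 : ContDiff ℝ ((⊤ : ℕ∞) : WithTop ℕ∞) (fderiv ℝ u) := hu.fderiv_right gb1_le
  have h2 : ∀ c : ℂ, ContDiff ℝ ((⊤ : ℕ∞) : WithTop ℕ∞) fun x => Complex.ofRealCLM (fderiv ℝ u x c) :=
    fun c => Complex.ofRealCLM.contDiff.comp (h1.clm_apply contDiff_const)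
  exact (h2 1).sub (contDiff_const.mul (h2 Complex.I))

theorem gr_smoothOn {D : Set ℂ} (hD : IsOpen D) {u : ℂ → ℝ}
    (hu : ContDiffOn ℝ ((⊤ : ℕ∞) : WithTop ℕ∞) u D) :
    ContDiffOn ℝ ((⊤ : ℕ∞) : WithTop ℕ∞) (gr u) D := by
  rw [gb1_gr_eq]
  have h1 : ContDiffOn ℝ ((⊤ : ℕ∞) : WithTop ℕ∞) (fderiv ℝ u) D := hu.fderiv_of_isOpen hD gb1_le
  have h2 : ∀ c : ℂ, ContDiffOn ℝ ((⊤ : ℕ∞) : WithTop ℕ∞)
      (fun x => Complex.ofRealCLM (fderiv ℝ u x c)) D :=
    fun c => Complex.ofRealCLM.contDiff.comp_contDiffOn (h1.clm_apply contDiffOn_const)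
  exact (h2 1).sub (contDiffOn_const.mul (h2 Complex.I))

theorem IsTe.gr {D : Set ℂ} {φ : ℂ → ℝ} (h : IsTe D φ) : IsTe D (gr φ) := by
  refine gb1_mk (gr_smooth h.smooth) h.cpt h.supp fun x hx => ?_
  have h0 : fderiv ℝ φ x = 0 :=
    image_eq_zero_of_notMem_tsupport fun h' => hx (tsupport_fderiv_subset ℝ h')
  unfold PD.gr
  rw [h0]
  apply Complex.ext <;> simp

theorem IsTe.add {E : Type} [NormedAddCommGroup E] [NormedSpace ℝ E] {D : Set ℂ} {φ ψ : ℂ → E}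
    (h1 : IsTe D φ) (h2 : IsTe D ψ) : IsTe D (fun x => φ x + ψ x) := by
  refine gb1_mk (h1.smooth.add h2.smooth) (h1.cpt.isCompact.union h2.cpt.isCompact)
    (union_subset h1.supp h2.supp) fun x hx => ?_
  rw [mem_union, not_or] at hx
  rw [image_eq_zero_of_notMem_tsupport hx.1, image_eq_zero_of_notMem_tsupport hx.2, add_zero]

theorem IsTe.sub {E : Type} [NormedAddCommGroup E] [NormedSpace ℝ E] {D : Set ℂ} {φ ψ : ℂ → E}
    (h1 : IsTe D φ) (h2 : IsTe D ψ) : IsTe D (fun x => φ x - ψ x) := by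
  refine gb1_mk (h1.smooth.sub h2.smooth) (h1.cpt.isCompact.union h2.cpt.isCompact)
    (union_subset h1.supp h2.supp) fun x hx => ?_
  rw [mem_union, not_or] at hx
  rw [image_eq_zero_of_notMem_tsupport hx.1, image_eq_zero_of_notMem_tsupport hx.2, sub_zero]

theorem IsTe.smul {E : Type} [NormedAddCommGroup E] [NormedSpace ℝ E] {D : Set ℂ} {φ : ℂ → E}
    (h1 : IsTe D φ) (c : ℝ) : IsTe D (fun x => c • φ x) := by
  refine gb1_mk (h1.smooth.const_smul c) h1.cpt.isCompact h1.supp fun x hx => ?_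
  rw [image_eq_zero_of_notMem_tsupport hx, smul_zero]

theorem IsTe.mono {E : Type} [NormedAddCommGroup E] [NormedSpace ℝ E] {D D' : Set ℂ} {φ : ℂ → E}
    (h1 : IsTe D φ) (h : D ⊆ D') : IsTe D' φ := ⟨h1.smooth, h1.cpt, h1.supp.trans h⟩

theorem IsTe.memLp {E : Type} [NormedAddCommGroup E] [NormedSpace ℝ E] {D : Set ℂ} {φ : ℂ → E}
    (h1 : IsTe D φ) (p : ℝ≥0∞) : MemLp φ p volume :=
  h1.smooth.continuous.memLp_of_hasCompactSupport h1.cpt

/-- The real and imaginary parts of a complex test function. -/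
theorem IsTe.re {D : Set ℂ} {ψ : ℂ → ℂ} (h : IsTe D ψ) : IsTe D (fun x => (ψ x).re) := by
  refine gb1_mk (Complex.reCLM.contDiff.comp h.smooth) h.cpt.isCompact h.supp fun x hx => ?_
  rw [image_eq_zero_of_notMem_tsupport hx, Complex.zero_re]

theorem IsTe.im {D : Set ℂ} {ψ : ℂ → ℂ} (h : IsTe D ψ) : IsTe D (fun x => (ψ x).im) := by
  refine gb1_mk (Complex.imCLM.contDiff.comp h.smooth) h.cpt.isCompact h.supp fun x hx => ?_
  rw [image_eq_zero_of_notMem_tsupport hx, Complex.zero_im]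

/-- `2 ∂φ/∂ζ̄ = conj (gr φ)` for real `φ`. -/
theorem dbar_ofReal {φ : ℂ → ℝ} {x : ℂ} (h : DifferentiableAt ℝ φ x) :
    dbar (fun x => ((φ x : ℝ) : ℂ)) x = conj (gr φ x) / 2 := by
  have h1 : fderiv ℝ (fun x => ((φ x : ℝ) : ℂ)) x = Complex.ofRealCLM.comp (fderiv ℝ φ x) :=
    (Complex.ofRealCLM.hasFDerivAt.comp x h.hasFDerivAt).fderiv
  unfold dbar gr
  rw [h1]
  congr 1
  apply Complex.ext
  · simp
  · simp

private theorem gb1_re {ψ : ℂ → ℂ} {x : ℂ} (h : DifferentiableAt ℝ ψ x) :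
    fderiv ℝ (fun x => (ψ x).re) x = Complex.reCLM.comp (fderiv ℝ ψ x) :=
  (Complex.reCLM.hasFDerivAt.comp x h.hasFDerivAt).fderiv

private theorem gb1_im {ψ : ℂ → ℂ} {x : ℂ} (h : DifferentiableAt ℝ ψ x) :
    fderiv ℝ (fun x => (ψ x).im) x = Complex.imCLM.comp (fderiv ℝ ψ x) :=
  (Complex.imCLM.hasFDerivAt.comp x h.hasFDerivAt).fderiv

/-- `2 ∂ψ/∂ζ̄ = conj (gr Re ψ) + i conj (gr Im ψ)`. -/
theorem dbar_reim {ψ : ℂ → ℂ} {x : ℂ} (h : DifferentiableAt ℝ ψ x) :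
    dbar ψ x = (conj (gr (fun x => (ψ x).re) x) + Complex.I * conj (gr (fun x => (ψ x).im) x)) / 2 := by
  unfold dbar gr
  rw [gb1_re h, gb1_im h]
  congr 1
  apply Complex.ext
  · simp
  · simp
    ring

/-- Cauchy-Riemann. -/
theorem differentiableAt_of_dbar {ψ : ℂ → ℂ} {x : ℂ} (h : DifferentiableAt ℝ ψ x) (h0 : dbar ψ x = 0) :
    DifferentiableAt ℂ ψ x := by
  rw [differentiableAt_complex_iff_differentiableAt_real]
  refine ⟨h, ?_⟩
  unfold dbar at h0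
  have h1 : fderiv ℝ ψ x 1 + Complex.I * fderiv ℝ ψ x Complex.I = 0 := by
    rcases div_eq_zero_iff.mp h0 with h2 | h2
    · exact h2
    · exact absurd h2 two_ne_zero
  have hI : Complex.I * Complex.I = -1 := Complex.I_mul_I
  rw [smul_eq_mul]
  linear_combination (-Complex.I) * h1 + fderiv ℝ ψ x Complex.I * hI

theorem dbar_of_differentiableAt {ψ : ℂ → ℂ} {x : ℂ} (h : DifferentiableAt ℂ ψ x) : dbar ψ x = 0 := by
  rw [differentiableAt_complex_iff_differentiableAt_real] at h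
  unfold dbar
  rw [h.2, smul_eq_mul]
  have hI : Complex.I * Complex.I = -1 := Complex.I_mul_I
  linear_combination (fderiv ℝ ψ x 1 / 2) * hI

end Pool.Agent.Lib.MP_79abb3_an.PD
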