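import Pool.Agent.Lib.MP_79abb3_an.PD.GDef2
import Pool.Agent.Lib.MP_79abb3_an.PD.GB1

/-!
Theorem D, block G, part D1: collars, reflection, bounds.
-/

set_option autoImplicit false
set_option linter.unusedSectionVars false

open MeasureTheory Set Filter Topology Function
open scoped ENNReal ComplexConjugate

namespace Pool.Agent.Lib.MP_79abb3_an.PD

open Pool.Agent.Lib.MP_79abb3_an.SC

private theorem gd1_ring_mono {ρ ρ' : ℝ} (h : ρ ≤ ρ') : ring ρ' ⊆ ring ρ :=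
  fun _ hξ => ⟨lt_of_le_of_lt h hξ.1, hξ.2⟩

private theorem gd1_ringc_mono {ρ ρ' : ℝ} (h : ρ ≤ ρ') : ringc ρ' ⊆ ringc ρ :=
  fun _ hξ => ⟨lt_of_le_of_lt h hξ.1, hξ.2⟩

private theorem gd1_ring_sub (ρ : ℝ) : ring ρ ⊆ ringc ρ := fun _ hξ => ⟨hξ.1, hξ.2.le⟩

private theorem gd1_ring_open (ρ : ℝ) : IsOpen (ring ρ) :=
  (isOpen_lt continuous_const continuous_norm).inter (isOpen_lt continuous_norm continuous_const)

theorem IsCollar.mono {D : Set ℂ} {ρ ρ' : ℝ} {F : ℂ → ℂ} (h : IsCollar D ρ F) (h' : ρ ≤ ρ') :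
    IsCollar D ρ' F :=
  ⟨h.smooth, h.holo.mono (gd1_ring_mono h'), h.inj.mono (gd1_ringc_mono h'),
    fun ξ hξ => h.der ξ (gd1_ringc_mono h' hξ),
    (image_mono (gd1_ring_mono h')).trans h.sub, h.bdry⟩

private theorem gd1_closure {ρ : ℝ} {ξ : ℂ} (hξ : ξ ∈ ringc ρ) : ξ ∈ closure (ring ρ) := by
  have h1 : Tendsto (fun t : ℝ => (t : ℂ) * ξ) (𝓝[<] 1) (𝓝 ξ) := by
    have h2 : Continuous fun t : ℝ => (t : ℂ) * ξ := by fun_prop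
    have h3 := (h2.tendsto 1).mono_left (nhdsWithin_le_nhds (s := Iio (1 : ℝ)))
    simpa using h3
  refine mem_closure_of_tendsto h1 ?_
  have h4 : ∀ᶠ t : ℝ in 𝓝[<] (1 : ℝ), ρ < ‖(t : ℂ) * ξ‖ := by
    have h5 : Tendsto (fun t : ℝ => ‖(t : ℂ) * ξ‖) (𝓝[<] (1 : ℝ)) (𝓝 ‖ξ‖) := h1.norm
    have h8 : ρ < ‖ξ‖ := hξ.1
    exact h5.eventually (lt_mem_nhds h8)
  have h6 : ∀ᶠ t in 𝓝[<] (1 : ℝ), t < 1 := self_mem_nhdsWithin
  have h7 : ∀ᶠ t in 𝓝[<] (1 : ℝ), 0 < t := nhdsWithin_le_nhds (lt_mem_nhds one_pos)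
  filter_upwards [h4, h6, h7] with t ht1 ht2 ht3
  refine ⟨ht1, ?_⟩
  rw [norm_mul, Complex.norm_real, Real.norm_eq_abs, abs_of_pos ht3]
  calc t * ‖ξ‖ ≤ t * 1 := mul_le_mul_of_nonneg_left hξ.2 ht3.le
    _ < 1 := by linarith

/-- The real derivative is complex linear on the closed ring (as `SC.IsConf.fderiv_eq`). -/
theorem IsCollar.fderiv_eq {D : Set ℂ} {ρ : ℝ} {F : ℂ → ℂ} (h : IsCollar D ρ F) {ξ : ℂ}
    (hξ : ξ ∈ ringc ρ) (v : ℂ) : fderiv ℝ F ξ v = fderiv ℝ F ξ 1 * v := by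
  have hc : Continuous (fderiv ℝ F) := h.smooth.continuous_fderiv (by simp)
  have hcl : IsClosed {ξ : ℂ | fderiv ℝ F ξ v = fderiv ℝ F ξ 1 * v} :=
    isClosed_eq (hc.clm_apply continuous_const) ((hc.clm_apply continuous_const).mul
      continuous_const)
  have hsub : ring ρ ⊆ {ξ : ℂ | fderiv ℝ F ξ v = fderiv ℝ F ξ 1 * v} := by
    intro ζ hζ
    have h1 := (h.holo ζ hζ).differentiableAt ((gd1_ring_open ρ).mem_nhds hζ)
    have h2 : fderiv ℝ F ζ = (fderiv ℂ F ζ).restrictScalars ℝ :=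
      (h1.hasFDerivAt.restrictScalars ℝ).fderiv
    change fderiv ℝ F ζ v = fderiv ℝ F ζ 1 * v
    rw [h2]
    change fderiv ℂ F ζ v = fderiv ℂ F ζ 1 * v
    have h3 : v = v • (1 : ℂ) := by simp
    conv_lhs => rw [h3]
    rw [map_smul, smul_eq_mul, mul_comm]
  exact closure_minimal hsub hcl (gd1_closure hξ)

theorem IsCollar.der1 {D : Set ℂ} {ρ : ℝ} {F : ℂ → ℂ} (h : IsCollar D ρ F) {ξ : ℂ}
    (hξ : ξ ∈ ringc ρ) : fderiv ℝ F ξ 1 ≠ 0 := by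
  intro h0
  apply h.der ξ hξ
  ext v
  rw [h.fderiv_eq hξ v, h0, zero_mul]
  rfl

/-- **A collar avoids compact sets near the circle.** If points `ξ_n` of the ring with `|ξ_n| → 1` are mapped into
the compact `T ⊆ D`, a limit point is on the circle and is mapped into `T`, but `F (circle) ⊆ frontier D` is
disjoint from the open set `D`. -/
theorem IsCollar.avoid {D : Set ℂ} (hD : IsOpen D) {ρ : ℝ} (h0 : 0 < ρ) (h1 : ρ < 1) {F : ℂ → ℂ}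
    (h : IsCollar D ρ F) {T : Set ℂ} (hT : IsCompact T) (hTD : T ⊆ D) :
    ∃ r, ρ < r ∧ r < 1 ∧ ∀ ξ, r ≤ ‖ξ‖ → ‖ξ‖ ≤ 1 → F ξ ∉ T := by
  have hFc : Continuous F := h.smooth.continuous
  set A : Set ℂ := Metric.closedBall 0 1 ∩ F ⁻¹' T with hA
  have hAc : IsCompact A := (isCompact_closedBall (0 : ℂ) 1).inter_right (hT.isClosed.preimage hFc)
  rcases A.eq_empty_or_nonempty with hAe | hAn
  · refine ⟨(ρ + 1) / 2, by linarith, by linarith, fun ξ _ hξ hF => ?_⟩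
    have : ξ ∈ A := ⟨mem_closedBall_zero_iff.2 hξ, hF⟩
    rw [hAe] at this
    exact this
  · obtain ⟨ξ₀, hξ₀, hmax⟩ := hAc.exists_isMaxOn hAn continuous_norm.continuousOn
    have hle : ‖ξ₀‖ ≤ 1 := mem_closedBall_zero_iff.1 hξ₀.1
    have hlt : ‖ξ₀‖ < 1 := by
      refine lt_of_le_of_ne hle fun he => ?_
      have h2 : F ξ₀ ∈ frontier D := h.bdry ⟨ξ₀, by rw [mem_sphere_zero_iff_norm]; exact he, rfl⟩
      have h3 : F ξ₀ ∈ D := hTD hξ₀.2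
      rw [hD.frontier_eq] at h2
      exact h2.2 h3
    refine ⟨max ((ρ + 1) / 2) ((‖ξ₀‖ + 1) / 2), lt_max_of_lt_left (by linarith),
      max_lt (by linarith) (by linarith), fun ξ hξ hξ1 hF => ?_⟩
    have h2 : ξ ∈ A := ⟨mem_closedBall_zero_iff.2 hξ1, hF⟩
    have h3 : ‖ξ‖ ≤ ‖ξ₀‖ := hmax h2
    have h4 := (le_max_right _ _).trans hξ
    linarith

/-- conformal change of variables -/
private theorem gd1_conf {D : Set ℂ} {ρ : ℝ} {F : ℂ → ℂ} (h : IsCollar D ρ F) {A : Set ℂ}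
    (hA : MeasurableSet A) (hAr : A ⊆ ring ρ) (g : ℂ → ℝ≥0∞) :
    ∫⁻ ξ in A, ‖fderiv ℝ F ξ 1‖ₑ ^ 2 * g (F ξ) ≤ ∫⁻ x in D, g x := by
  have hd : ∀ ξ ∈ A, HasFDerivWithinAt F (ContinuousLinearMap.mul ℝ ℂ (fderiv ℝ F ξ 1)) A ξ := by
    intro ξ hξ
    have h1 : HasFDerivAt F (fderiv ℝ F ξ) ξ :=
      (h.smooth.differentiable (by simp) ξ).hasFDerivAt
    have h2 : fderiv ℝ F ξ = ContinuousLinearMap.mul ℝ ℂ (fderiv ℝ F ξ 1) := by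
      ext v
      rw [h.fderiv_eq (gd1_ring_sub ρ (hAr hξ)) v]
      rfl
    rw [h2] at h1
    exact h1.hasFDerivWithinAt
  have h1 := lintegral_image_eq_lintegral_abs_det_fderiv_mul volume hA hd
    (h.inj.mono (hAr.trans (gd1_ring_sub ρ))) g
  have h2 : ∫⁻ ξ in A, ‖fderiv ℝ F ξ 1‖ₑ ^ 2 * g (F ξ) =
      ∫⁻ ξ in A, ENNReal.ofReal |(ContinuousLinearMap.mul ℝ ℂ (fderiv ℝ F ξ 1)).det| * g (F ξ) := by
    refine lintegral_congr fun ξ => ?_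
    rw [det_mul_c, abs_of_nonneg (by positivity), ENNReal.ofReal_pow (norm_nonneg _), ofReal_norm]
  rw [h2, ← h1]
  exact lintegral_mono_set ((image_mono hAr).trans h.sub)

/-- change of variables by the inversion -/
private theorem gd1_cinv {R : ℝ} (hR : 0 < R) {A : Set ℂ} (hAm : MeasurableSet A)
    (hAs : A ⊆ {ξ : ℂ | 1 < ‖ξ‖ ∧ ‖ξ‖ < R}) (g : ℂ → ℝ≥0∞) :
    ∫⁻ ξ in A, g (cinv ξ) ≤ ENNReal.ofReal (R ^ 4) * ∫⁻ x in cinv '' A, g x := by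
  have hinj : InjOn cinv A := fun x _ y _ h => by
    rw [← cinv_cinv x, h, cinv_cinv]
  have h0 : ∀ ξ ∈ A, ξ ≠ 0 := fun ξ hξ h => by
    have h1 := (hAs hξ).1
    rw [h, norm_zero] at h1
    linarith
  have h1 := lintegral_image_eq_lintegral_abs_det_fderiv_mul volume hAm
    (fun ξ hξ => (cinv_hasFDerivAt (h0 ξ hξ)).hasFDerivWithinAt) hinj g
  have h2 : ∫⁻ ξ in A, g (cinv ξ) ≤
      ∫⁻ ξ in A, ENNReal.ofReal (R ^ 4) * (ENNReal.ofReal |(cinvD ξ).det| * g (cinv ξ)) := by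
    refine setLIntegral_mono' hAm fun ξ hξ => ?_
    rw [← mul_assoc, ← ENNReal.ofReal_mul (by positivity), cinvD_det]
    have h3 : 1 ≤ R ^ 4 * (‖ξ‖ ^ 4)⁻¹ := by
      have h4 : 0 < ‖ξ‖ := by linarith [(hAs hξ).1]
      have h5 : ‖ξ‖ ^ 4 ≤ R ^ 4 := pow_le_pow_left₀ h4.le (hAs hξ).2.le 4
      rw [← div_eq_mul_inv, one_le_div (by positivity)]
      exact h5
    have h4 : (1 : ℝ≥0∞) ≤ ENNReal.ofReal (R ^ 4 * (‖ξ‖ ^ 4)⁻¹) := by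
      rw [← ENNReal.ofReal_one]
      exact ENNReal.ofReal_le_ofReal h3
    calc g (cinv ξ) = 1 * g (cinv ξ) := (one_mul _).symm
      _ ≤ _ := mul_le_mul_left h4 _
  refine h2.trans ?_
  rw [lintegral_const_mul' _ _ ENNReal.ofReal_ne_top, ← h1]

private theorem gd1_cinv_meas : Measurable cinv := by
  unfold cinv
  exact (Complex.continuous_conj.measurable).inv

private theorem gd1_cinv_image (A : Set ℂ) : cinv '' A = cinv ⁻¹' A := by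
  ext x
  constructor
  · rintro ⟨y, hy, rfl⟩
    change cinv (cinv y) ∈ A
    rwa [cinv_cinv]
  · intro hx
    exact ⟨cinv x, hx, cinv_cinv x⟩

/-- **Bounds** on compact subsets of the doubled ring. On `K ∩ {|ξ| < 1}`: conformal change of variables
(`lintegral_image_eq_lintegral_abs_det_fderiv_mul`, `det = |F'|²` by `SC.det_mul_c`), `|F'| ≥ c > 0` on the compact
`K ∩ {|ξ| ≤ 1} ⊆ ringc ρ`. On `K ∩ {|ξ| > 1}`: first the inversion (`SC.cinv_hasFDerivAt`, `SC.cinvD_det`). The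
circle is a null set (`Measure.addHaar_sphere`). -/
theorem IsCollar.bound {D : Set ℂ} {ρ : ℝ} (h0 : 0 < ρ) (h1 : ρ < 1) {F : ℂ → ℂ} (h : IsCollar D ρ F)
    {K : Set ℂ} (hK : IsCompact K) (hKr : K ⊆ dring ρ) :
    ∃ C : ℝ≥0∞, C ≠ ∞ ∧ (∀ u : ℂ → ℝ, ∫⁻ ξ in K, ‖rfl0 F u ξ‖ₑ ^ 2 ≤ C * ∫⁻ x in D, ‖u x‖ₑ ^ 2) ∧
      ∀ γ : ℂ → ℂ, ∫⁻ ξ in K, ‖rfl1 F γ ξ‖ₑ ^ 2 ≤ C * ∫⁻ x in D, ‖γ x‖ₑ ^ 2 := by
  have hKm : MeasurableSet K := hK.isClosed.measurableSet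
  set R : ℝ := ρ⁻¹ with hR
  have hR0 : 0 < R := inv_pos.2 h0
  have hFc : Continuous (fderiv ℝ F) := h.smooth.continuous_fderiv (by simp)
  have hFc1 : Continuous fun ξ => ‖fderiv ℝ F ξ 1‖ := (hFc.clm_apply continuous_const).norm
  -- the compact set
  set K1 : Set ℂ := K ∩ {ξ | ‖ξ‖ ≤ 1} with hK1
  set K2 : Set ℂ := K ∩ {ξ | 1 ≤ ‖ξ‖} with hK2
  have hK1c : IsCompact K1 := hK.inter_right (isClosed_le continuous_norm continuous_const)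
  have hK2c : IsCompact K2 := hK.inter_right (isClosed_le continuous_const continuous_norm)
  have hcc : ContinuousOn cinv K2 := by
    intro ξ hξ
    have hne : ξ ≠ 0 := by
      rintro rfl
      have := hξ.2
      rw [mem_ofPred_eq, norm_zero] at this
      linarith
    exact (cinv_hasFDerivAt hne).continuousAt.continuousWithinAt
  set L : Set ℂ := K1 ∪ cinv '' K2 with hL
  have hLc : IsCompact L := hK1c.union (hK2c.image_of_continuousOn hcc)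
  have hLr : L ⊆ ringc ρ := by
    rintro ξ (hξ | ⟨η, hη, rfl⟩)
    · exact ⟨(hKr hξ.1).1, hξ.2⟩
    · have hη1 : 1 ≤ ‖η‖ := hη.2
      have hη2 : ‖η‖ < ρ⁻¹ := (hKr hη.1).2
      have hη0 : 0 < ‖η‖ := by linarith
      refine ⟨?_, ?_⟩
      · rw [norm_cinv]
        have := inv_strictAnti₀ hη0 hη2
        rwa [inv_inv] at this
      · rw [norm_cinv]
        exact inv_le_one_of_one_le₀ hη1
  obtain ⟨c, hc0, hcL⟩ : ∃ c : ℝ, 0 < c ∧ ∀ ξ ∈ L, c ≤ ‖fderiv ℝ F ξ 1‖ := by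
    rcases L.eq_empty_or_nonempty with hLe | hLn
    · exact ⟨1, one_pos, fun ξ hξ => by rw [hLe] at hξ; exact absurd hξ (notMem_empty _)⟩
    · obtain ⟨ξ₀, hξ₀, hmin⟩ := hLc.exists_isMinOn hLn hFc1.continuousOn
      exact ⟨‖fderiv ℝ F ξ₀ 1‖, norm_pos_iff.2 (h.der1 (hLr hξ₀)), fun ξ hξ => hmin hξ⟩
  set C1 : ℝ≥0∞ := ENNReal.ofReal (c⁻¹ ^ 2) with hC1
  set R4 : ℝ≥0∞ := ENNReal.ofReal (R ^ 4) with hR4
  have hlow : ∀ ξ ∈ L, ∀ y : ℝ≥0∞, y ≤ C1 * (‖fderiv ℝ F ξ 1‖ₑ ^ 2 * y) := by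
    intro ξ hξ y
    rw [← mul_assoc, hC1, ← ofReal_norm, ← ENNReal.ofReal_pow (norm_nonneg _),
      ← ENNReal.ofReal_mul (by positivity)]
    have h3 : 1 ≤ c⁻¹ ^ 2 * ‖fderiv ℝ F ξ 1‖ ^ 2 := by
      rw [← mul_pow]
      apply one_le_pow₀
      rw [inv_mul_eq_div, one_le_div hc0]
      exact hcL ξ hξ
    have h4 : (1 : ℝ≥0∞) ≤ ENNReal.ofReal (c⁻¹ ^ 2 * ‖fderiv ℝ F ξ 1‖ ^ 2) := by
      rw [← ENNReal.ofReal_one]
      exact ENNReal.ofReal_le_ofReal h3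
    calc y = 1 * y := (one_mul _).symm
      _ ≤ _ := mul_le_mul_left h4 _
  -- the two parts
  set A1 : Set ℂ := K ∩ {ξ | ‖ξ‖ < 1} with hA1
  set A2 : Set ℂ := K ∩ {ξ | 1 < ‖ξ‖} with hA2
  have hA1m : MeasurableSet A1 := hKm.inter (isOpen_lt continuous_norm continuous_const).measurableSet
  have hA2m : MeasurableSet A2 := hKm.inter (isOpen_lt continuous_const continuous_norm).measurableSet
  have hA1r : A1 ⊆ ring ρ := fun ξ hξ => ⟨(hKr hξ.1).1, hξ.2⟩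
  have hA1L : A1 ⊆ L := fun ξ hξ => by
    have h2 : ‖ξ‖ < 1 := hξ.2
    exact Or.inl ⟨hξ.1, h2.le⟩
  have hA2s : A2 ⊆ {ξ : ℂ | 1 < ‖ξ‖ ∧ ‖ξ‖ < R} := fun ξ hξ => ⟨hξ.2, (hKr hξ.1).2⟩
  have hB2m : MeasurableSet (cinv '' A2) := by
    rw [gd1_cinv_image]
    exact gd1_cinv_meas hA2m
  have hB2L : cinv '' A2 ⊆ L := by
    rintro _ ⟨η, hη, rfl⟩
    have h2 : 1 < ‖η‖ := hη.2
    exact Or.inr ⟨η, ⟨hη.1, h2.le⟩, rfl⟩
  have hB2r : cinv '' A2 ⊆ ring ρ := by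
    intro x hx
    refine ⟨(hLr (hB2L hx)).1, ?_⟩
    obtain ⟨η, hη, rfl⟩ := hx
    rw [norm_cinv]
    exact inv_lt_one_of_one_lt₀ hη.2
  have hsplit : ∀ f : ℂ → ℝ≥0∞, ∫⁻ ξ in K, f ξ ≤ (∫⁻ ξ in A1, f ξ) + ∫⁻ ξ in A2, f ξ := by
    intro f
    have hsub : K ⊆ (A1 ∪ A2) ∪ Metric.sphere 0 1 := by
      intro ξ hξ
      rcases lt_trichotomy ‖ξ‖ 1 with hlt | heq | hgt
      · exact Or.inl (Or.inl ⟨hξ, hlt⟩)
      · exact Or.inr (mem_sphere_zero_iff_norm.2 heq)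
      · exact Or.inl (Or.inr ⟨hξ, hgt⟩)
    have hsph : (volume : Measure ℂ) (Metric.sphere (0 : ℂ) 1) = 0 := Measure.addHaar_sphere _ _ _
    calc ∫⁻ ξ in K, f ξ ≤ ∫⁻ ξ in (A1 ∪ A2) ∪ Metric.sphere 0 1, f ξ := lintegral_mono_set hsub
      _ ≤ (∫⁻ ξ in (A1 ∪ A2), f ξ) + ∫⁻ ξ in Metric.sphere 0 1, f ξ := lintegral_union_le _ _ _
      _ = ∫⁻ ξ in (A1 ∪ A2), f ξ := by
        rw [setLIntegral_measure_zero _ _ hsph, add_zero]
      _ ≤ _ := lintegral_union_le _ _ _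
  refine ⟨(1 + C1) * (1 + R4), ENNReal.mul_ne_top (by simp [hC1]) (by simp [hR4]), ?_, ?_⟩
  · intro u
    set g : ℂ → ℝ≥0∞ := fun x => ‖u x‖ₑ ^ 2 with hg
    set I : ℝ≥0∞ := ∫⁻ x in D, g x with hI
    have e1 : ∫⁻ ξ in A1, ‖rfl0 F u ξ‖ₑ ^ 2 ≤ C1 * I := by
      calc ∫⁻ ξ in A1, ‖rfl0 F u ξ‖ₑ ^ 2 ≤ ∫⁻ ξ in A1, C1 * (‖fderiv ℝ F ξ 1‖ₑ ^ 2 * g (F ξ)) := by
            refine setLIntegral_mono' hA1m fun ξ hξ => ?_
            have : rfl0 F u ξ = u (F ξ) := if_pos hξ.2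
            rw [this]
            exact hlow ξ (hA1L hξ) _
        _ = C1 * ∫⁻ ξ in A1, ‖fderiv ℝ F ξ 1‖ₑ ^ 2 * g (F ξ) :=
            lintegral_const_mul' _ _ ENNReal.ofReal_ne_top
        _ ≤ C1 * I := mul_le_mul_right (gd1_conf h hA1m hA1r g) _
    have e2 : ∫⁻ ξ in A2, ‖rfl0 F u ξ‖ₑ ^ 2 ≤ R4 * (C1 * I) := by
      calc ∫⁻ ξ in A2, ‖rfl0 F u ξ‖ₑ ^ 2 ≤
            ∫⁻ ξ in A2, (fun x => C1 * (‖fderiv ℝ F x 1‖ₑ ^ 2 * g (F x))) (cinv ξ) := by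
            refine setLIntegral_mono' hA2m fun ξ hξ => ?_
            have : rfl0 F u ξ = -u (F (cinv ξ)) := if_neg (not_lt.2 (le_of_lt hξ.2))
            rw [this, enorm_neg]
            exact hlow (cinv ξ) (hB2L ⟨ξ, hξ, rfl⟩) _
        _ ≤ R4 * ∫⁻ x in cinv '' A2, C1 * (‖fderiv ℝ F x 1‖ₑ ^ 2 * g (F x)) :=
            gd1_cinv hR0 hA2m hA2s _
        _ = R4 * (C1 * ∫⁻ x in cinv '' A2, (‖fderiv ℝ F x 1‖ₑ ^ 2 * g (F x))) := by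
            rw [lintegral_const_mul' _ _ ENNReal.ofReal_ne_top]
        _ ≤ R4 * (C1 * I) := mul_le_mul_right (mul_le_mul_right (gd1_conf h hB2m hB2r g) _) _
    calc ∫⁻ ξ in K, ‖rfl0 F u ξ‖ₑ ^ 2 ≤ C1 * I + R4 * (C1 * I) :=
          (hsplit _).trans (add_le_add e1 e2)
      _ = C1 * (1 + R4) * I := by ring
      _ ≤ (1 + C1) * (1 + R4) * I := by
          refine mul_le_mul_left (mul_le_mul_left ?_ _) _
          exact le_add_self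
  · intro γ
    set g : ℂ → ℝ≥0∞ := fun x => ‖γ x‖ₑ ^ 2 with hg
    set I : ℝ≥0∞ := ∫⁻ x in D, g x with hI
    have e1 : ∫⁻ ξ in A1, ‖rfl1 F γ ξ‖ₑ ^ 2 ≤ I := by
      calc ∫⁻ ξ in A1, ‖rfl1 F γ ξ‖ₑ ^ 2 ≤ ∫⁻ ξ in A1, ‖fderiv ℝ F ξ 1‖ₑ ^ 2 * g (F ξ) := by
            refine setLIntegral_mono' hA1m fun ξ hξ => ?_
            have : rfl1 F γ ξ = γ (F ξ) * fderiv ℝ F ξ 1 := if_pos hξ.2
            rw [this, enorm_mul, mul_pow, mul_comm]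
        _ ≤ I := gd1_conf h hA1m hA1r g
    have e2 : ∫⁻ ξ in A2, ‖rfl1 F γ ξ‖ₑ ^ 2 ≤ R4 * I := by
      calc ∫⁻ ξ in A2, ‖rfl1 F γ ξ‖ₑ ^ 2 ≤
            ∫⁻ ξ in A2, (fun x => ‖fderiv ℝ F x 1‖ₑ ^ 2 * g (F x)) (cinv ξ) := by
            refine setLIntegral_mono' hA2m fun ξ hξ => ?_
            have : rfl1 F γ ξ = conj (γ (F (cinv ξ)) * fderiv ℝ F (cinv ξ) 1) / ξ ^ 2 :=
              if_neg (not_lt.2 (le_of_lt hξ.2))
            rw [this]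
            change _ ≤ ‖fderiv ℝ F (cinv ξ) 1‖ₑ ^ 2 * ‖γ (F (cinv ξ))‖ₑ ^ 2
            rw [← mul_pow, ← enorm_mul]
            refine pow_le_pow_left' ?_ 2
            rw [← ofReal_norm, ← ofReal_norm]
            apply ENNReal.ofReal_le_ofReal
            rw [norm_div, RCLike.norm_conj, norm_pow, mul_comm (γ _)]
            apply div_le_self (norm_nonneg _)
            exact one_le_pow₀ (le_of_lt hξ.2)
        _ ≤ R4 * ∫⁻ x in cinv '' A2, ‖fderiv ℝ F x 1‖ₑ ^ 2 * g (F x) :=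
            gd1_cinv hR0 hA2m hA2s _
        _ ≤ R4 * I := mul_le_mul_right (gd1_conf h hB2m hB2r g) _
    calc ∫⁻ ξ in K, ‖rfl1 F γ ξ‖ₑ ^ 2 ≤ I + R4 * I :=
          (hsplit _).trans (add_le_add e1 e2)
      _ = 1 * (1 + R4) * I := by ring
      _ ≤ (1 + C1) * (1 + R4) * I := by
          refine mul_le_mul_left (mul_le_mul_left ?_ _) _
          exact le_self_add

end Pool.Agent.Lib.MP_79abb3_an.PD
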