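import Pool.Agent.Lib.MP_79abb3_an.PD.CoDef
import Pool.Agent.Lib.MP_79abb3_an.PD.GD1

/-!
Theorem D, collar package: geometry of a collar in strip coordinates, chain rules.
-/

set_option autoImplicit false
set_option linter.unusedSectionVars false

open MeasureTheory Set Filter Topology Function
open scoped ENNReal InnerProductSpace ComplexConjugate

namespace Pool.Agent.Lib.MP_79abb3_an.PD

open Pool.Agent.Lib.MP_79abb3_an.SC Pool.Agent.Lib.MP_79abb3_an.P25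

private theorem coa_norm {k : ℕ} (q : ℝ × ℝ) :
    ‖Complex.exp (Complex.I * cxp q / k)‖ = Real.exp (-(q.2 / k)) := by
  rw [Complex.norm_exp]
  congr 1
  rw [Complex.div_natCast_re, Complex.I_mul_re]
  simp only [cxp]
  ring

private theorem coa_mem {ρ : ℝ} (h0 : 0 < ρ) {k : ℕ} (hk : 0 < k) {c : ℝ}
    (hc : c ≤ k * Real.log (1 / ρ)) {q : ℝ × ℝ} (hq0 : 0 ≤ q.2) (hq1 : q.2 < c) :
    Complex.exp (Complex.I * cxp q / k) ∈ ringc ρ := by
  have hk' : (0 : ℝ) < k := Nat.cast_pos.2 hk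
  refine ⟨?_, ?_⟩
  · rw [coa_norm, ← Real.log_lt_iff_lt_exp h0]
    have h1 : q.2 / k < Real.log (1 / ρ) := by
      rw [div_lt_iff₀ hk']
      linarith
    rw [one_div, Real.log_inv] at h1
    linarith
  · rw [coa_norm, Real.exp_le_one_iff]
    have : 0 ≤ q.2 / k := by positivity
    linarith

private theorem coa_fderiv {D : Set ℂ} {ρ : ℝ} {F : ℂ → ℂ} (h : IsCollar D ρ F) {k : ℕ}
    {q : ℝ × ℝ} (hq : Complex.exp (Complex.I * cxp q / k) ∈ ringc ρ) (v : ℝ × ℝ) :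
    fderiv ℝ (chX F k) q v = fderiv ℝ F (Complex.exp (Complex.I * cxp q / k)) 1 *
      (Complex.exp (Complex.I * cxp q / k) * (Complex.I * cxp v / k)) := by
  have h1 : HasFDerivAt (fun q : ℝ × ℝ => Complex.I * cxp q / (k : ℂ))
      ((ContinuousLinearMap.mul ℝ ℂ (Complex.I / k)).comp cxpL) q := by
    have h2 := ((ContinuousLinearMap.mul ℝ ℂ (Complex.I / k)).comp cxpL).hasFDerivAt (x := q)
    refine h2.congr_of_eventuallyEq (Eventually.of_forall fun p => ?_)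
    show Complex.I * cxp p / (k : ℂ) = Complex.I / k * cxpL p
    rw [cxpL_apply]
    ring
  have h3 : HasFDerivAt Complex.exp (ContinuousLinearMap.mul ℝ ℂ
      (Complex.exp (Complex.I * cxp q / k))) (Complex.I * cxp q / k) := by
    have h4 := (Complex.hasDerivAt_exp (Complex.I * cxp q / k)).hasFDerivAt.restrictScalars ℝ
    refine h4.congr_fderiv ?_
    ext v
    simp [mul_comm]
  have h5 : HasFDerivAt F (fderiv ℝ F (Complex.exp (Complex.I * cxp q / k)))
      (Complex.exp (Complex.I * cxp q / k)) := (h.smooth.differentiable (by simp) _).hasFDerivAt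
  have h6 : HasFDerivAt (chX F k) _ q := h5.comp q (h3.comp q h1)
  rw [h6.fderiv]
  show fderiv ℝ F (Complex.exp (Complex.I * cxp q / k))
    (Complex.exp (Complex.I * cxp q / k) * (Complex.I / k * cxpL v)) = _
  rw [h.fderiv_eq hq, cxpL_apply]
  ring

/-- **A collar in strip coordinates.** `|exp (i (y + i z)/k)| = exp (-z/k)`, so `0 < z < c` is mapped into the ring
`ρ < |ξ| < 1` and `z = 0` to the circle. Conformality: `fderiv_eq` of `F` on `ringc ρ` and the chain rule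
(`HasFDerivAt.comp`, `exp` is complex differentiable). Injectivity: `exp (i ζ/k) = exp (i ζ'/k)` with
`ζ - ζ' = 2 π k n`, `|Re (ζ - ζ')| < 2 π k`. -/
theorem IsCollar.isStrip {D : Set ℂ} {ρ : ℝ} {F : ℂ → ℂ} (h : IsCollar D ρ F) (h0 : 0 < ρ) (h1 : ρ < 1)
    {k : ℕ} (hk : 0 < k) {c : ℝ} (hc0 : 0 < c) (hc : c ≤ k * Real.log (1 / ρ)) (hcH : c < Real.pi * k) :
    IsStrip D (Real.pi * k) c (chX F k) := by
  have hk' : (0 : ℝ) < k := Nat.cast_pos.2 hk
  have hkc : (k : ℂ) ≠ 0 := Nat.cast_ne_zero.2 hk.ne'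
  have e10 : cxp (1, 0) = 1 := by apply Complex.ext <;> simp [cxp]
  have e01 : cxp (0, 1) = Complex.I := by apply Complex.ext <;> simp [cxp]
  refine ⟨?_, ?_, hc0, hcH, ?_, ?_, ?_, ?_, ?_⟩
  · have h2 : ContDiff ℝ ((⊤ : ℕ∞) : WithTop ℕ∞) fun q : ℝ × ℝ =>
        Complex.exp (Complex.I * cxp q / k) :=
      Complex.contDiff_exp.comp ((contDiff_const.mul cxp_contDiff).div_const _)
    exact h.smooth.comp h2
  · intro y z
    unfold chX
    congr 1
    have e : Complex.I * cxp (y + 2 * (Real.pi * k), z) / k =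
        Complex.I * cxp (y, z) / k + 2 * Real.pi * Complex.I := by
      have e1 : cxp (y + 2 * (Real.pi * k), z) = cxp (y, z) + 2 * (Real.pi * k) := by
        apply Complex.ext
        · simp [cxp]
        · simp [cxp]
      rw [e1]
      field_simp
    rw [e, Complex.exp_add, Complex.exp_two_pi_mul_I, mul_one]
  · intro y z h2 h3
    have hm := coa_mem h0 hk hc (q := (y, z)) h2 h3
    rw [coa_fderiv h hm, coa_fderiv h hm, e10, e01]
    ring
  · intro y z h2 h3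
    have hm := coa_mem h0 hk hc (q := (y, z)) h2 h3
    rw [coa_fderiv h hm, e10]
    refine mul_ne_zero (h.der1 hm) (mul_ne_zero (Complex.exp_ne_zero _) ?_)
    exact div_ne_zero (mul_ne_zero Complex.I_ne_zero one_ne_zero) hkc
  · rintro ⟨y, z⟩ ⟨hy, hz⟩ ⟨y', z'⟩ ⟨hy', hz'⟩ he
    have h2 := h.inj (coa_mem h0 hk hc (q := (y, z)) hz.1 hz.2)
      (coa_mem h0 hk hc (q := (y', z')) hz'.1 hz'.2) he
    obtain ⟨n, hn⟩ := Complex.exp_eq_exp_iff_exists_int.1 h2
    have h3 : cxp (y, z) = cxp (y', z') + ((2 * Real.pi * k * n : ℝ) : ℂ) := by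
      have h4 : Complex.I * cxp (y, z) = Complex.I * cxp (y', z') + n * (2 * Real.pi * Complex.I) * k := by
        field_simp at hn
        linear_combination Complex.I * hn
      have h5 : Complex.I * cxp (y, z) = Complex.I * (cxp (y', z') + ((2 * Real.pi * k * n : ℝ) : ℂ)) := by
        rw [h4]
        push_cast
        ring
      exact mul_left_cancel₀ Complex.I_ne_zero h5
    have hre : y = y' + 2 * Real.pi * k * n := by
      have := congrArg Complex.re h3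
      rw [Complex.add_re, Complex.ofReal_re] at this
      exact this
    have him : z = z' := by
      have := congrArg Complex.im h3
      rw [Complex.add_im, Complex.ofReal_im, add_zero] at this
      exact this
    obtain ⟨a1, a2⟩ := hy
    obtain ⟨b1, b2⟩ := hy'
    simp only at a1 a2 b1 b2
    have hpk : 0 < Real.pi * k := mul_pos Real.pi_pos hk'
    have hn0 : n = 0 := by
      have c1 : (n : ℝ) < 1 := by
        by_contra hcon
        push Not at hcon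
        nlinarith
      have c2 : (-1 : ℝ) < n := by
        by_contra hcon
        push Not at hcon
        nlinarith
      have c1' : n < 1 := by exact_mod_cast c1
      have c2' : -1 < n := by exact_mod_cast c2
      omega
    rw [hn0, Int.cast_zero, mul_zero, add_zero] at hre
    rw [hre, him]
  · intro y z h2 h3
    refine h.sub ⟨_, ⟨(coa_mem h0 hk hc (q := (y, z)) h2.le h3).1, ?_⟩, rfl⟩
    rw [coa_norm, Real.exp_lt_one_iff]
    have : 0 < z / k := div_pos h2 hk'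
    simp only
    linarith
  · intro y
    refine h.bdry ⟨_, ?_, rfl⟩
    rw [mem_sphere_zero_iff_norm, coa_norm]
    simp

namespace IsStrip
variable {D : Set ℂ} {H c : ℝ} {X : ℝ × ℝ → ℂ} (h : IsStrip D H c X)
include h

theorem mono {c' : ℝ} (h0 : 0 < c') (h1 : c' ≤ c) : IsStrip D H c' X :=
  ⟨h.smooth, h.per, h0, h1.trans_lt h.cH, fun y z h2 h3 => h.cr y z h2 (h3.trans_le h1),
    fun y z h2 h3 => h.der y z h2 (h3.trans_le h1),
    h.inj.mono (prod_mono le_rfl (Ico_subset_Ico_right h1)),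
    fun y z h2 h3 => h.sub y z h2 (h3.trans_le h1), h.bdry⟩

/-- Functions of the plane in strip coordinates are smooth and periodic. -/
theorem pc {ψ : ℂ → ℂ} (hψ : Smo ψ) : PC H fun q => ψ (X q) := by
  have h1 : ContDiff ℝ ((⊤ : ℕ∞) : WithTop ℕ∞) fun q => ψ (X q) := ContDiff.comp hψ h.smooth
  refine ⟨⟨Complex.reCLM.contDiff.comp h1, 1, one_pos, fun y z _ => ?_⟩,
    ⟨Complex.imCLM.contDiff.comp h1, 1, one_pos, fun y z _ => ?_⟩⟩
  · rw [h.per]
  · rw [h.per]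

/-- The real derivative of `X` is multiplication by `X_y` (Cauchy and Riemann). -/
theorem fderiv_eq {q : ℝ × ℝ} (h0 : 0 ≤ q.2) (h1 : q.2 < c) (v : ℝ × ℝ) :
    fderiv ℝ X q v = fderiv ℝ X q (1, 0) * cxp v := by
  have h2 := h.cr q.1 q.2 h0 h1
  have h3 : v = v.1 • ((1, 0) : ℝ × ℝ) + v.2 • ((0, 1) : ℝ × ℝ) := by
    ext <;> simp
  have h4 : cxp v = (v.1 : ℂ) + (v.2 : ℂ) * Complex.I := by
    apply Complex.ext <;> simp [cxp]
  have h5 : fderiv ℝ X q v = v.1 • fderiv ℝ X q (1, 0) + v.2 • fderiv ℝ X q (0, 1) := by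
    conv_lhs => rw [h3]
    rw [map_add, map_smul, map_smul]
  have h6 : fderiv ℝ X q (0, 1) = Complex.I * fderiv ℝ X q (1, 0) := h2
  rw [h5, h6, h4, Complex.real_smul, Complex.real_smul]
  ring

omit h in
private theorem lin2 (A : ℂ →L[ℝ] ℂ) (w : ℂ) :
    A w = (w.re : ℂ) * A 1 + (w.im : ℂ) * A Complex.I := by
  have h1 : w = w.re • (1 : ℂ) + w.im • Complex.I := by
    apply Complex.ext <;> simp
  have h2 : A w = w.re • A 1 + w.im • A Complex.I := by
    conv_lhs => rw [h1]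
    rw [map_add, map_smul, map_smul]
  rw [h2, Complex.real_smul, Complex.real_smul]

private theorem fd_comp {ψ : ℂ → ℂ} (hψ : Smo ψ) (q v : ℝ × ℝ) :
    fderiv ℝ (fun q => ψ (X q)) q v = ((fderiv ℝ X q v).re : ℂ) * px ψ (X q) +
      ((fderiv ℝ X q v).im : ℂ) * py ψ (X q) := by
  have h1 : HasFDerivAt X (fderiv ℝ X q) q := (h.smooth.differentiable (by simp) q).hasFDerivAt
  have h2 : HasFDerivAt ψ (fderiv ℝ ψ (X q)) (X q) := (hψ.differentiable (X q)).hasFDerivAt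
  have h3 : HasFDerivAt (fun q => ψ (X q)) ((fderiv ℝ ψ (X q)).comp (fderiv ℝ X q)) q :=
    h2.comp q h1
  rw [h3.fderiv]
  exact lin2 _ _

/-! ### Chain rules -/

theorem dYc_comp {ψ : ℂ → ℂ} (hψ : Smo ψ) (q : ℝ × ℝ) : dYc (fun q => ψ (X q)) q =
    ((fderiv ℝ X q (1, 0)).re : ℂ) * px ψ (X q) + ((fderiv ℝ X q (1, 0)).im : ℂ) * py ψ (X q) :=
  h.fd_comp hψ q (1, 0)

theorem dZc_comp {ψ : ℂ → ℂ} (hψ : Smo ψ) {q : ℝ × ℝ} (h0 : 0 ≤ q.2) (h1 : q.2 < c) :
    dZc (fun q => ψ (X q)) q =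
    -((fderiv ℝ X q (1, 0)).im : ℂ) * px ψ (X q) + ((fderiv ℝ X q (1, 0)).re : ℂ) * py ψ (X q) := by
  have h2 : fderiv ℝ X q (0, 1) = Complex.I * fderiv ℝ X q (1, 0) := h.cr q.1 q.2 h0 h1
  have h3 := h.fd_comp hψ q (0, 1)
  rw [h2, Complex.I_mul_re, Complex.I_mul_im] at h3
  unfold dZc
  rw [h3]
  push_cast
  ring

/-- `ψ_y φ_y + ψ_z φ_z = J (∇ψ·∇φ)` -/
theorem grad_mul {ψ φ : ℂ → ℂ} (hψ : Smo ψ) (hφ : Smo φ) {q : ℝ × ℝ} (h0 : 0 ≤ q.2) (h1 : q.2 < c) :
    dYc (fun q => ψ (X q)) q * dYc (fun q => φ (X q)) q + dZc (fun q => ψ (X q)) q * dZc (fun q => φ (X q)) q =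
      (mJ X q : ℂ) * (px ψ (X q) * px φ (X q) + py ψ (X q) * py φ (X q)) := by
  have hJ : mJ X q = (fderiv ℝ X q (1, 0)).re ^ 2 + (fderiv ℝ X q (1, 0)).im ^ 2 := by
    unfold mJ
    rw [← Complex.normSq_eq_norm_sq, Complex.normSq_apply]
    ring
  rw [h.dYc_comp hψ, h.dYc_comp hφ, h.dZc_comp hψ h0 h1, h.dZc_comp hφ h0 h1, hJ]
  push_cast
  ring

/-- `ψ_y φ_z - ψ_z φ_y = J (ψ_x φ_y - ψ_y φ_x)` -/
theorem curl_mul {ψ φ : ℂ → ℂ} (hψ : Smo ψ) (hφ : Smo φ) {q : ℝ × ℝ} (h0 : 0 ≤ q.2) (h1 : q.2 < c) :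
    dYc (fun q => ψ (X q)) q * dZc (fun q => φ (X q)) q - dZc (fun q => ψ (X q)) q * dYc (fun q => φ (X q)) q =
      (mJ X q : ℂ) * (px ψ (X q) * py φ (X q) - py ψ (X q) * px φ (X q)) := by
  have hJ : mJ X q = (fderiv ℝ X q (1, 0)).re ^ 2 + (fderiv ℝ X q (1, 0)).im ^ 2 := by
    unfold mJ
    rw [← Complex.normSq_eq_norm_sq, Complex.normSq_apply]
    ring
  rw [h.dYc_comp hψ, h.dYc_comp hφ, h.dZc_comp hψ h0 h1, h.dZc_comp hφ h0 h1, hJ]
  push_cast
  ring

/-- `|ψ_y|² + |ψ_z|² = J |∇ψ|²` -/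
theorem grad_sq {ψ : ℂ → ℂ} (hψ : Smo ψ) {q : ℝ × ℝ} (h0 : 0 ≤ q.2) (h1 : q.2 < c) :
    ‖dYc (fun q => ψ (X q)) q‖ ^ 2 + ‖dZc (fun q => ψ (X q)) q‖ ^ 2 =
      mJ X q * (‖px ψ (X q)‖ ^ 2 + ‖py ψ (X q)‖ ^ 2) := by
  rw [h.dYc_comp hψ, h.dZc_comp hψ h0 h1]
  unfold mJ
  simp only [← Complex.normSq_eq_norm_sq, Complex.normSq_apply, Complex.add_re, Complex.add_im,
    Complex.mul_re, Complex.mul_im, Complex.neg_re, Complex.neg_im, Complex.ofReal_re,
    Complex.ofReal_im]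
  ring

end IsStrip

end Pool.Agent.Lib.MP_79abb3_an.PD
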