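import Pool.Agent.Lib.MP_79abb3_an.PD.CoA
import Pool.Agent.Lib.MP_79abb3_an.SC.ChCov

/-!
Theorem D, collar package: change of variables.
-/

set_option autoImplicit false
set_option linter.unusedSectionVars false

open MeasureTheory Set Filter Topology Function
open scoped ENNReal InnerProductSpace ComplexConjugate

namespace Pool.Agent.Lib.MP_79abb3_an.PD

open Pool.Agent.Lib.MP_79abb3_an.SC Pool.Agent.Lib.MP_79abb3_an.P25

theorem measurableSet_Rc (H e : ℝ) : MeasurableSet (Rc H e) := measurableSet_Ioc.prod measurableSet_Ioo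

namespace IsStrip
variable {D : Set ℂ} {H c : ℝ} {X : ℝ × ℝ → ℂ} (h : IsStrip D H c X)
include h

/-- By periodicity (`H > 0`). -/
theorem Wc_eq {e : ℝ} : Wc X e = X '' Rc H e := by
  have hH : 0 < 2 * H := by linarith [h.c0, h.cH]
  apply Subset.antisymm
  · rintro x ⟨⟨y, z⟩, ⟨h1, h2⟩, rfl⟩
    have hper : Function.Periodic (fun y => X (y, z)) (2 * H) := fun y => h.per y z
    refine ⟨(toIocMod hH (-H) y, z), ⟨?_, h1, h2⟩, ?_⟩
    · have := toIocMod_mem_Ioc hH (-H) y
      exact ⟨this.1, by linarith [this.2]⟩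
    · exact hper.sub_zsmul_eq (toIocDiv hH (-H) y)
  · rintro x ⟨q, hq, rfl⟩
    exact ⟨q, hq.2, rfl⟩

theorem Wc_sub {e : ℝ} (he : e ≤ c) : Wc X e ⊆ D := by
  rintro x ⟨⟨y, z⟩, ⟨h1, h2⟩, rfl⟩
  exact h.sub y z h1 (lt_of_lt_of_le h2 he)

/-- Images of open sets are open (inverse function theorem: `X_y ≠ 0`, so `fderiv` is invertible, `fderiv_eq`). -/
theorem isOpen_image {U : Set (ℝ × ℝ)} (hU : IsOpen U) (hs : ∀ q ∈ U, 0 < q.2 ∧ q.2 < c) : IsOpen (X '' U) := by
  rw [isOpen_iff_mem_nhds]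
  rintro x ⟨q, hq, rfl⟩
  have hs1 := hs q hq
  have hsd : HasStrictFDerivAt X (fderiv ℝ X q) q :=
    h.smooth.contDiffAt.hasStrictFDerivAt (by simp)
  have hne : fderiv ℝ X q (1, 0) ≠ 0 := h.der q.1 q.2 hs1.1.le hs1.2
  have hsurj : (fderiv ℝ X q).range = ⊤ := by
    rw [LinearMap.range_eq_top]
    intro w
    refine ⟨((w / fderiv ℝ X q (1, 0)).re, (w / fderiv ℝ X q (1, 0)).im), ?_⟩
    show fderiv ℝ X q _ = w
    rw [h.fderiv_eq hs1.1.le hs1.2, cxp_mk]
    field_simp
  have hmap := hsd.map_nhds_eq_of_surj hsurj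
  rw [← hmap]
  exact image_mem_map (hU.mem_nhds hq)

theorem isOpen_Wc {e : ℝ} (he : e ≤ c) : IsOpen (Wc X e) := by
  refine h.isOpen_image ?_ fun q hq => ⟨hq.1, lt_of_lt_of_le hq.2 he⟩
  exact (isOpen_lt continuous_const continuous_snd).inter (isOpen_lt continuous_snd continuous_const)

private theorem co_img {e : ℝ} : (fun ζ : ℂ => X (ζ.re, ζ.im)) '' (Complex.measurableEquivRealProd ⁻¹' Rc H e) = Wc X e := by
  rw [h.Wc_eq]
  apply Subset.antisymm
  · rintro x ⟨ζ, hζ, rfl⟩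
    exact ⟨(ζ.re, ζ.im), hζ, rfl⟩
  · rintro x ⟨q, hq, rfl⟩
    exact ⟨⟨q.1, q.2⟩, hq, rfl⟩

private theorem co_inj {e : ℝ} (he : e ≤ c) :
    InjOn (fun ζ : ℂ => X (ζ.re, ζ.im)) (Complex.measurableEquivRealProd ⁻¹' Rc H e) := by
  intro ζ hζ ζ' hζ' hh
  have h1 : (ζ.re, ζ.im) ∈ Ioc (-H) H ×ˢ Ico 0 c := ⟨hζ.1, hζ.2.1.le, lt_of_lt_of_le hζ.2.2 he⟩
  have h2 : (ζ'.re, ζ'.im) ∈ Ioc (-H) H ×ˢ Ico 0 c := ⟨hζ'.1, hζ'.2.1.le, lt_of_lt_of_le hζ'.2.2 he⟩
  have := h.inj h1 h2 hh
  rw [Prod.mk.injEq] at this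
  exact Complex.ext this.1 this.2

private theorem co_der {e : ℝ} (he : e ≤ c) (ζ : ℂ) (hζ : ζ ∈ Complex.measurableEquivRealProd ⁻¹' Rc H e) :
    HasFDerivWithinAt (fun ζ : ℂ => X (ζ.re, ζ.im))
      (ContinuousLinearMap.mul ℝ ℂ (fderiv ℝ X (ζ.re, ζ.im) (1, 0)))
      (Complex.measurableEquivRealProd ⁻¹' Rc H e) ζ := by
  apply HasFDerivAt.hasFDerivWithinAt
  have hX : HasFDerivAt X (fderiv ℝ X (Complex.equivRealProdCLM ζ)) (Complex.equivRealProdCLM ζ) :=
    (h.smooth.differentiable (by simp) _).hasFDerivAt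
  have h2 := hX.comp ζ Complex.equivRealProdCLM.hasFDerivAt
  refine h2.congr_fderiv ?_
  ext w
  have hz : 0 ≤ (Complex.equivRealProdCLM ζ).2 := hζ.2.1.le
  have hz' : (Complex.equivRealProdCLM ζ).2 < c := lt_of_lt_of_le hζ.2.2 he
  show fderiv ℝ X (Complex.equivRealProdCLM ζ) (Complex.equivRealProdCLM w) = _
  rw [h.fderiv_eq hz hz']
  rfl

private theorem co_det (ζ : ℂ) :
    |(ContinuousLinearMap.mul ℝ ℂ (fderiv ℝ X (ζ.re, ζ.im) (1, 0))).det| = mJ X (Complex.measurableEquivRealProd ζ) := by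
  rw [det_mul_c, abs_of_nonneg (by positivity)]
  rfl

private theorem co_mp : MeasurePreserving Complex.measurableEquivRealProd volume volume :=
  Complex.volume_preserving_equiv_real_prod

/-- **Change of variables**, as `SC.IsChart.integral`: `G := X ∘ (fun ζ => (ζ.re, ζ.im))` on `cxp '' Rc H e` with
`integral_image_eq_integral_abs_det_fderiv_smul`, `SC.det_mul_c`, and then `Complex.volume_preserving_equiv_real_prod`
(see `SC.integral_cxp`). -/
theorem integral {E : Type} [NormedAddCommGroup E] [NormedSpace ℝ E] {e : ℝ} (he : e ≤ c) (f : ℂ → E) :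
    ∫ x in Wc X e, f x = ∫ q in Rc H e, mJ X q • f (X q) := by
  have hm : MeasurableSet (Complex.measurableEquivRealProd ⁻¹' Rc H e) :=
    (measurableSet_Rc H e).preimage Complex.measurableEquivRealProd.measurable
  rw [← h.co_img, integral_image_eq_integral_abs_det_fderiv_smul volume hm (h.co_der he) (h.co_inj he) f]
  have h2 := (co_mp h).setIntegral_preimage_emb Complex.measurableEquivRealProd.measurableEmbedding
    (fun q => mJ X q • f (X q)) (Rc H e)
  rw [← h2]
  refine setIntegral_congr_fun hm fun ζ _ => ?_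
  simp only [co_det h]
  rfl

theorem lintegral {e : ℝ} (he : e ≤ c) (f : ℂ → ℝ≥0∞) :
    ∫⁻ x in Wc X e, f x = ∫⁻ q in Rc H e, ENNReal.ofReal (mJ X q) * f (X q) := by
  have hm : MeasurableSet (Complex.measurableEquivRealProd ⁻¹' Rc H e) :=
    (measurableSet_Rc H e).preimage Complex.measurableEquivRealProd.measurable
  rw [← h.co_img, lintegral_image_eq_lintegral_abs_det_fderiv_mul volume hm (h.co_der he) (h.co_inj he) f]
  have h2 := (co_mp h).setLIntegral_comp_preimage_emb Complex.measurableEquivRealProd.measurableEmbedding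
    (fun q => ENNReal.ofReal (mJ X q) * f (X q)) (Rc H e)
  rw [← h2]
  refine setLIntegral_congr_fun hm fun ζ _ => ?_
  simp only [co_det h]
  rfl

theorem integrableOn {E : Type} [NormedAddCommGroup E] [NormedSpace ℝ E] {e : ℝ} (he : e ≤ c) (f : ℂ → E) :
    IntegrableOn f (Wc X e) ↔ IntegrableOn (fun q => mJ X q • f (X q)) (Rc H e) := by
  have hm : MeasurableSet (Complex.measurableEquivRealProd ⁻¹' Rc H e) :=
    (measurableSet_Rc H e).preimage Complex.measurableEquivRealProd.measurable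
  rw [← h.co_img, integrableOn_image_iff_integrableOn_abs_det_fderiv_smul volume hm (h.co_der he) (h.co_inj he) f]
  have h2 := (co_mp h).integrableOn_comp_preimage Complex.measurableEquivRealProd.measurableEmbedding
    (f := fun q => mJ X q • f (X q)) (s := Rc H e)
  rw [← h2]
  refine integrableOn_congr_fun (fun ζ _ => ?_) hm
  simp only [co_det h]
  rfl

end IsStrip

end Pool.Agent.Lib.MP_79abb3_an.PD
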