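import Pool.Agent.Lib.MP_79abb3_an.PD.CoA
import Pool.Agent.Lib.MP_79abb3_an.SC.ChGeo

/-!
Theorem D, collar package: the metric factor, the Laplacian in strip coordinates.
-/

set_option autoImplicit false
set_option linter.unusedSectionVars false

open MeasureTheory Set Filter Topology Function
open scoped ENNReal InnerProductSpace ComplexConjugate

namespace Pool.Agent.Lib.MP_79abb3_an.PD

open Pool.Agent.Lib.MP_79abb3_an.SC Pool.Agent.Lib.MP_79abb3_an.P25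

private theorem coaj_dir {f : ℝ × ℝ → ℂ} (hf : ContDiff ℝ ((⊤ : ℕ∞) : WithTop ℕ∞) f) (v : ℝ × ℝ) :
    ContDiff ℝ ((⊤ : ℕ∞) : WithTop ℕ∞) fun q => fderiv ℝ f q v := by
  have h1 : ContDiff ℝ ((⊤ : ℕ∞) : WithTop ℕ∞) (fderiv ℝ f) :=
    ContDiff.fderiv_right hf (by exact_mod_cast le_top)
  exact h1.clm_apply contDiff_const

private theorem coaj_mul {f g : ℝ × ℝ → ℂ} {q : ℝ × ℝ} (hf : DifferentiableAt ℝ f q)
    (hg : DifferentiableAt ℝ g q) (v : ℝ × ℝ) :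
    fderiv ℝ (fun q => f q * g q) q v = f q * fderiv ℝ g q v + fderiv ℝ f q v * g q := by
  rw [fderiv_fun_mul hf hg]
  show f q • fderiv ℝ g q v + g q • fderiv ℝ f q v = _
  rw [smul_eq_mul, smul_eq_mul]
  ring

private theorem coaj_add {f g : ℝ × ℝ → ℂ} {q : ℝ × ℝ} (hf : DifferentiableAt ℝ f q)
    (hg : DifferentiableAt ℝ g q) (v : ℝ × ℝ) :
    fderiv ℝ (fun q => f q + g q) q v = fderiv ℝ f q v + fderiv ℝ g q v := by
  rw [fderiv_fun_add hf hg]; rfl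

private theorem coaj_re {f : ℝ × ℝ → ℂ} {q : ℝ × ℝ} (hf : DifferentiableAt ℝ f q) (v : ℝ × ℝ) :
    fderiv ℝ (fun q => (((f q).re : ℝ) : ℂ)) q v = (((fderiv ℝ f q v).re : ℝ) : ℂ) := by
  have h1 := ((Complex.ofRealCLM.comp Complex.reCLM).hasFDerivAt (x := f q)).comp q hf.hasFDerivAt
  exact congrArg (fun L : ℝ × ℝ →L[ℝ] ℂ => L v) h1.fderiv

private theorem coaj_im {f : ℝ × ℝ → ℂ} {q : ℝ × ℝ} (hf : DifferentiableAt ℝ f q) (v : ℝ × ℝ) :
    fderiv ℝ (fun q => (((f q).im : ℝ) : ℂ)) q v = (((fderiv ℝ f q v).im : ℝ) : ℂ) := by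
  have h1 := ((Complex.ofRealCLM.comp Complex.imCLM).hasFDerivAt (x := f q)).comp q hf.hasFDerivAt
  exact congrArg (fun L : ℝ × ℝ →L[ℝ] ℂ => L v) h1.fderiv

private theorem coaj_nim {f : ℝ × ℝ → ℂ} {q : ℝ × ℝ} (hf : DifferentiableAt ℝ f q) (v : ℝ × ℝ) :
    fderiv ℝ (fun q => -(((f q).im : ℝ) : ℂ)) q v = -(((fderiv ℝ f q v).im : ℝ) : ℂ) := by
  have h1 := ((-(Complex.ofRealCLM.comp Complex.imCLM)).hasFDerivAt (x := f q)).comp q
    hf.hasFDerivAt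
  exact congrArg (fun L : ℝ × ℝ →L[ℝ] ℂ => L v) h1.fderiv

private theorem coaj_swap {f : ℝ × ℝ → ℂ} (hf : ContDiff ℝ ((⊤ : ℕ∞) : WithTop ℕ∞) f) (q v w : ℝ × ℝ) :
    fderiv ℝ (fun q => fderiv ℝ f q v) q w = fderiv ℝ (fun q => fderiv ℝ f q w) q v := by
  have h1 : ContDiff ℝ ((⊤ : ℕ∞) : WithTop ℕ∞) (fderiv ℝ f) :=
    ContDiff.fderiv_right hf (by exact_mod_cast le_top)
  have h2 : DifferentiableAt ℝ (fderiv ℝ f) q := (h1.differentiable (by simp)) q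
  have h3 : ∀ u : ℝ × ℝ, fderiv ℝ (fun q => fderiv ℝ f q u) q =
      (ContinuousLinearMap.apply ℝ ℂ u).comp (fderiv ℝ (fderiv ℝ f) q) := fun u =>
    ((ContinuousLinearMap.apply ℝ ℂ u).hasFDerivAt.comp q h2.hasFDerivAt).fderiv
  have h4 : IsSymmSndFDerivAt ℝ f q :=
    (hf.contDiffAt (x := q)).isSymmSndFDerivAt (by
      rw [minSmoothness_of_isRCLikeNormedField]
      show ((2 : ℕ∞) : WithTop ℕ∞) ≤ ((⊤ : ℕ∞) : WithTop ℕ∞)
      exact WithTop.coe_le_coe.2 le_top)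
  rw [h3, h3]
  exact h4 w v

namespace IsStrip
variable {D : Set ℂ} {H c : ℝ} {X : ℝ × ℝ → ℂ} (h : IsStrip D H c X)
include h

private theorem coaj_per (z : ℝ) :
    Function.Periodic (fun y => fderiv ℝ X (y, z) (1, 0)) (2 * H) := by
  intro y
  have e : (fun q : ℝ × ℝ => X (q + (2 * H, 0))) = X := by
    funext q
    have e1 : q + (2 * H, 0) = (q.1 + 2 * H, q.2) := by
      ext
      · rfl
      · show q.2 + 0 = q.2
        rw [add_zero]
    rw [e1, h.per]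
  have h1 : fderiv ℝ (fun q : ℝ × ℝ => X (q + (2 * H, 0))) (y, z) =
      fderiv ℝ X ((y, z) + (2 * H, 0)) := fderiv_comp_add_right _
  rw [e] at h1
  have e2 : ((y, z) + (2 * H, 0) : ℝ × ℝ) = (y + 2 * H, z) := by
    ext
    · rfl
    · show z + 0 = z
      rw [add_zero]
  rw [e2] at h1
  show fderiv ℝ X (y + 2 * H, z) (1, 0) = fderiv ℝ X (y, z) (1, 0)
  rw [← h1]

private theorem coaj_low : ∃ δ : ℝ, 0 < δ ∧ ∀ y z, -δ < z → z < c → fderiv ℝ X (y, z) (1, 0) ≠ 0 := by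
  have hH : 0 < H := h.c0.trans h.cH
  have hd := coaj_dir h.smooth (1, 0)
  have hU : IsOpen {q : ℝ × ℝ | fderiv ℝ X q (1, 0) ≠ 0} :=
    isOpen_ne_fun hd.continuous continuous_const
  have hK : IsCompact (Icc (-H) H ×ˢ ({0} : Set ℝ)) := isCompact_Icc.prod isCompact_singleton
  have hKU : Icc (-H) H ×ˢ ({0} : Set ℝ) ⊆ {q : ℝ × ℝ | fderiv ℝ X q (1, 0) ≠ 0} := by
    rintro ⟨y, z⟩ ⟨-, hz⟩
    have hz' : z = 0 := hz
    subst hz'
    exact h.der y 0 le_rfl h.c0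
  obtain ⟨δ, hδ, hsub⟩ := hK.exists_thickening_subset_open hU hKU
  refine ⟨δ, hδ, fun y z h1 h2 => ?_⟩
  rcases le_or_gt 0 z with h0 | h0
  · exact h.der y z h0 h2
  · obtain ⟨y', hy', hyy⟩ := (h.coaj_per z).exists_mem_Ico (by linarith : 0 < 2 * H) y (-H)
    have hyy' : fderiv ℝ X (y, z) (1, 0) = fderiv ℝ X (y', z) (1, 0) := hyy
    rw [hyy']
    refine hsub (Metric.mem_thickening_iff.2 ⟨(y', 0), ⟨⟨hy'.1, by linarith [hy'.2]⟩, rfl⟩, ?_⟩)
    rw [Prod.dist_eq]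
    show max (dist y' y') (dist z 0) < δ
    rw [dist_self, Real.dist_eq, sub_zero, abs_of_neg h0]
    exact max_lt hδ (by linarith)

/-- **The metric factor**: a smooth positive periodic function which is `|X_y|²` for `0 ≤ z ≤ e` (as
`SC.IsChart.exists_J`: `J = f(z) |X_y|² + (1 - f(z))` with a cut-off `f = ctf e e'`, `e < e' < c`, times a cut-off below
`z = 0`; note that only `0 ≤ z ≤ H` matters: for `z < 0` use a cut-off near `z = -δ` where `X_y ≠ 0` by compactness of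
`[-H,H] × {0}` and periodicity). -/
theorem exists_J {e : ℝ} (he : e < c) : ∃ J : ℝ × ℝ → ℝ, PY H J ∧ (∀ q, 0 < J q) ∧
    ∀ q : ℝ × ℝ, 0 ≤ q.2 → q.2 ≤ e → J q = mJ X q := by
  obtain ⟨δ, hδ, hne⟩ := h.coaj_low
  set e₀ : ℝ := max e 0 with he₀
  have he0 : e₀ < c := max_lt he h.c0
  have hee : e ≤ e₀ := le_max_left _ _
  set e₁ : ℝ := (e₀ + c) / 2 with he₁
  have h01 : e₀ < e₁ := by rw [he₁]; linarith
  have h1c : e₁ < c := by rw [he₁]; linarith
  set g : ℝ → ℝ := fun z => ctf e₀ e₁ z * ctf 0 δ (-z) with hg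
  have hgs : ContDiff ℝ ((⊤ : ℕ∞) : WithTop ℕ∞) g :=
    (ctf_smooth e₀ e₁).mul ((ctf_smooth 0 δ).comp contDiff_neg)
  have hc0 : ∀ a b z : ℝ, 0 ≤ ctf a b z := fun a b z => Real.smoothTransition.nonneg _
  have hc1 : ∀ a b z : ℝ, ctf a b z ≤ 1 := fun a b z => Real.smoothTransition.le_one _
  have hg0 : ∀ z, 0 ≤ g z := fun z => mul_nonneg (hc0 _ _ _) (hc0 _ _ _)
  have hg1 : ∀ z, g z ≤ 1 := fun z => mul_le_one₀ (hc1 _ _ _) (hc0 _ _ _) (hc1 _ _ _)
  have hgz : ∀ z, g z ≠ 0 → -δ < z ∧ z < e₁ := by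
    intro z hz
    refine ⟨?_, ?_⟩
    · by_contra hcon
      refine hz ?_
      show ctf e₀ e₁ z * ctf 0 δ (-z) = 0
      rw [ctf_zero hδ (by linarith : δ ≤ -z), mul_zero]
    · by_contra hcon
      refine hz ?_
      show ctf e₀ e₁ z * ctf 0 δ (-z) = 0
      rw [ctf_zero h01 (not_lt.1 hcon), zero_mul]
  have hmJ : ContDiff ℝ ((⊤ : ℕ∞) : WithTop ℕ∞) (mJ X) := (coaj_dir h.smooth (1, 0)).norm_sq ℝ
  have hgq : ContDiff ℝ ((⊤ : ℕ∞) : WithTop ℕ∞) fun q : ℝ × ℝ => g q.2 := hgs.comp contDiff_snd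
  refine ⟨fun q => g q.2 * mJ X q + (1 - g q.2), ⟨?_, 1, one_pos, fun y z _ => ?_⟩, fun q => ?_,
    fun q hq0 hq1 => ?_⟩
  · exact (hgq.mul hmJ).add (contDiff_const.sub hgq)
  · have e1 : mJ X (y + 2 * H, z) = mJ X (y, z) := by
      have h2 := h.coaj_per z y
      have h3 : fderiv ℝ X (y + 2 * H, z) (1, 0) = fderiv ℝ X (y, z) (1, 0) := h2
      unfold mJ
      rw [h3]
    show g z * mJ X (y + 2 * H, z) + (1 - g z) = g z * mJ X (y, z) + (1 - g z)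
    rw [e1]
  · obtain ⟨y, z⟩ := q
    show 0 < g z * mJ X (y, z) + (1 - g z)
    rcases (hg0 z).eq_or_lt with h3 | h3
    · rw [← h3]
      norm_num
    · obtain ⟨h4, h5⟩ := hgz z h3.ne'
      have h6 : 0 < mJ X (y, z) := by
        have := norm_pos_iff.2 (hne y z h4 (h5.trans h1c))
        unfold mJ
        positivity
      have h7 := mul_pos h3 h6
      have h8 := hg1 z
      linarith
  · have h3 : g q.2 = 1 := by
      show ctf e₀ e₁ q.2 * ctf 0 δ (-q.2) = 1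
      rw [ctf_one h01 (hq1.trans hee), ctf_one hδ (by linarith : -q.2 ≤ 0), mul_one]
    show g q.2 * mJ X q + (1 - g q.2) = mJ X q
    rw [h3]
    ring

private theorem coaj_pos {ψ : ℂ → ℂ} (hψ : Smo ψ) {q : ℝ × ℝ} (h0 : 0 < q.2) (h1 : q.2 < c) :
    dLc (fun q => ψ (X q)) q = (mJ X q : ℂ) * -lap ψ (X q) := by
  set Y : ℝ × ℝ → ℂ := fun q => fderiv ℝ X q (1, 0) with hY
  have hYs : ContDiff ℝ ((⊤ : ℕ∞) : WithTop ℕ∞) Y := coaj_dir h.smooth (1, 0)
  have hYd : Differentiable ℝ Y := hYs.differentiable (by simp)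
  have hA : Differentiable ℝ fun q => (((Y q).re : ℝ) : ℂ) :=
    (Complex.ofRealCLM.comp Complex.reCLM).differentiable.comp hYd
  have hB : Differentiable ℝ fun q => (((Y q).im : ℝ) : ℂ) :=
    (Complex.ofRealCLM.comp Complex.imCLM).differentiable.comp hYd
  have hBn : Differentiable ℝ fun q => -(((Y q).im : ℝ) : ℂ) := hB.neg
  have hXd : Differentiable ℝ X := h.smooth.differentiable (by simp)
  have hP : Differentiable ℝ fun q => px ψ (X q) := (hψ.px.differentiable).comp hXd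
  have hQ : Differentiable ℝ fun q => py ψ (X q) := (hψ.py.differentiable).comp hXd
  have hAP : DifferentiableAt ℝ (fun q => (((Y q).re : ℝ) : ℂ) * px ψ (X q)) q := (hA.mul hP) q
  have hBQ : DifferentiableAt ℝ (fun q => (((Y q).im : ℝ) : ℂ) * py ψ (X q)) q := (hB.mul hQ) q
  have hBP : DifferentiableAt ℝ (fun q => -(((Y q).im : ℝ) : ℂ) * px ψ (X q)) q := (hBn.mul hP) q
  have hAQ : DifferentiableAt ℝ (fun q => (((Y q).re : ℝ) : ℂ) * py ψ (X q)) q := (hA.mul hQ) q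
  -- the first derivatives
  have hy : dYc (fun q => ψ (X q)) = fun q => (((Y q).re : ℝ) : ℂ) * px ψ (X q) +
      (((Y q).im : ℝ) : ℂ) * py ψ (X q) := funext fun q => h.dYc_comp hψ q
  have hO : IsOpen {q : ℝ × ℝ | 0 < q.2 ∧ q.2 < c} :=
    (isOpen_lt continuous_const continuous_snd).inter (isOpen_lt continuous_snd continuous_const)
  have hz : dZc (fun q => ψ (X q)) =ᶠ[𝓝 q] fun q => -(((Y q).im : ℝ) : ℂ) * px ψ (X q) +
      (((Y q).re : ℝ) : ℂ) * py ψ (X q) := by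
    filter_upwards [hO.mem_nhds ⟨h0, h1⟩] with q' hq'
    exact h.dZc_comp hψ hq'.1.le hq'.2
  -- Cauchy and Riemann for the second derivatives
  have hcr : fderiv ℝ Y q (0, 1) = Complex.I * fderiv ℝ Y q (1, 0) := by
    have e1 : (fun q => fderiv ℝ X q (0, 1)) =ᶠ[𝓝 q] fun q => Complex.I * Y q := by
      filter_upwards [hO.mem_nhds ⟨h0, h1⟩] with q' hq'
      exact h.cr q'.1 q'.2 hq'.1.le hq'.2
    rw [hY, coaj_swap h.smooth q (1, 0) (0, 1), e1.fderiv_eq, fderiv_const_mul (hYd q)]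
    rfl
  have yy : dYc (dYc fun q => ψ (X q)) q =
      (((Y q).re : ℝ) : ℂ) * dYc (fun q => px ψ (X q)) q + (((fderiv ℝ Y q (1, 0)).re : ℝ) : ℂ) * px ψ (X q) +
      ((((Y q).im : ℝ) : ℂ) * dYc (fun q => py ψ (X q)) q +
        (((fderiv ℝ Y q (1, 0)).im : ℝ) : ℂ) * py ψ (X q)) := by
    rw [hy]
    show fderiv ℝ (fun q => (((Y q).re : ℝ) : ℂ) * px ψ (X q) + (((Y q).im : ℝ) : ℂ) * py ψ (X q)) q (1, 0) = _
    rw [coaj_add hAP hBQ, coaj_mul (hA q) (hP q), coaj_mul (hB q) (hQ q),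
      coaj_re (hYd q), coaj_im (hYd q)]
    rfl
  have zz : dZc (dZc fun q => ψ (X q)) q =
      -(((Y q).im : ℝ) : ℂ) * dZc (fun q => px ψ (X q)) q + -(((fderiv ℝ Y q (0, 1)).im : ℝ) : ℂ) * px ψ (X q) +
      ((((Y q).re : ℝ) : ℂ) * dZc (fun q => py ψ (X q)) q +
        (((fderiv ℝ Y q (0, 1)).re : ℝ) : ℂ) * py ψ (X q)) := by
    show fderiv ℝ (dZc fun q => ψ (X q)) q (0, 1) = _
    rw [hz.fderiv_eq, coaj_add hBP hAQ, coaj_mul (hBn q) (hP q),
      coaj_mul (hA q) (hQ q), coaj_re (hYd q), coaj_nim (hYd q)]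
    rfl
  have hre : (fderiv ℝ Y q (0, 1)).re = -(fderiv ℝ Y q (1, 0)).im := by
    rw [hcr]; simp
  have him : (fderiv ℝ Y q (0, 1)).im = (fderiv ℝ Y q (1, 0)).re := by
    rw [hcr]; simp
  have hm : (mJ X q : ℂ) = (((Y q).re : ℝ) : ℂ) ^ 2 + (((Y q).im : ℝ) : ℂ) ^ 2 := by
    have e : mJ X q = (Y q).re ^ 2 + (Y q).im ^ 2 := by
      unfold mJ
      rw [← Complex.normSq_eq_norm_sq, Complex.normSq_apply]
      ring
    rw [e]
    push_cast
    ring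
  have a1 := h.dYc_comp hψ.px q
  have a2 := h.dYc_comp hψ.py q
  have a3 := h.dZc_comp hψ.px h0.le h1
  have a4 := h.dZc_comp hψ.py h0.le h1
  show -(dYc (dYc fun q => ψ (X q)) q + dZc (dZc fun q => ψ (X q)) q) =
    (mJ X q : ℂ) * -(px (px ψ) (X q) + py (py ψ) (X q))
  rw [yy, zz, a1, a2, a3, a4, hre, him, hm]
  push_cast
  ring

/-- **The Laplacian is conformally covariant**: `-Δ_{y,z} (ψ ∘ X) = J (-Δψ) ∘ X`. Proof for `0 < z < c` (the point
`z = 0` by continuity of both sides): there `X = F ∘ cxp` with `F` holomorphic near `cxp q`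
(`DifferentiableAt ℂ` from `cr` in a neighbourhood), `X_{yy} = X_y'`, `X_{zz} = -X_{yy}` (differentiate
`X_z = i X_y` twice), so in `∂_y² + ∂_z²` of `ψ ∘ X` the terms with second derivatives of `X` cancel and the mixed
terms cancel by `X_z = i X_y`. -/
theorem dLc_comp {ψ : ℂ → ℂ} (hψ : Smo ψ) {q : ℝ × ℝ} (h0 : 0 ≤ q.2) (h1 : q.2 < c) :
    dLc (fun q => ψ (X q)) q = (mJ X q : ℂ) * -lap ψ (X q) := by
  rcases h0.eq_or_lt with h2 | h2
  · obtain ⟨y, z⟩ := q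
    have h3 : z = 0 := h2.symm
    subst h3
    have hθ : ContDiff ℝ ((⊤ : ℕ∞) : WithTop ℕ∞) fun q => ψ (X q) := ContDiff.comp hψ h.smooth
    have c1 : Continuous (dLc fun q => ψ (X q)) := by
      have k1 : Continuous (dYc (dYc fun q => ψ (X q))) :=
        (coaj_dir (coaj_dir hθ (1, 0)) (1, 0)).continuous
      have k2 : Continuous (dZc (dZc fun q => ψ (X q))) :=
        (coaj_dir (coaj_dir hθ (0, 1)) (0, 1)).continuous
      exact (k1.add k2).neg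
    have c2 : Continuous fun q => (mJ X q : ℂ) * -lap ψ (X q) := by
      have k1 : Continuous fun q => (mJ X q : ℂ) :=
        Complex.continuous_ofReal.comp ((coaj_dir h.smooth (1, 0)).norm_sq ℝ).continuous
      have k2 : Continuous fun q => lap ψ (X q) :=
        hψ.lap.continuous.comp h.smooth.continuous
      exact k1.mul k2.neg
    have c3 : Continuous fun t : ℝ => (y, t) := by fun_prop
    have t1 : Tendsto (fun t : ℝ => dLc (fun q => ψ (X q)) (y, t)) (𝓝[>] 0)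
        (𝓝 (dLc (fun q => ψ (X q)) (y, 0))) :=
      ((c1.comp c3).tendsto 0).mono_left nhdsWithin_le_nhds
    have t2 : Tendsto (fun t : ℝ => (mJ X (y, t) : ℂ) * -lap ψ (X (y, t))) (𝓝[>] 0)
        (𝓝 ((mJ X (y, 0) : ℂ) * -lap ψ (X (y, 0)))) :=
      ((c2.comp c3).tendsto 0).mono_left nhdsWithin_le_nhds
    refine tendsto_nhds_unique t1 (t2.congr' ?_)
    filter_upwards [Ioo_mem_nhdsGT h.c0] with t ht
    exact (h.coaj_pos hψ (q := (y, t)) ht.1 ht.2).symm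
  · exact h.coaj_pos hψ h2 h1

end IsStrip

end Pool.Agent.Lib.MP_79abb3_an.PD
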