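import Pool.Agent.Lib.MP_79abb3_an.PD.CoA2
import Pool.Agent.Lib.MP_79abb3_an.PD.CoAJ

/-!
Theorem D, collar package: push forward of test functions.
-/

set_option autoImplicit false
set_option linter.unusedSectionVars false

open MeasureTheory Set Filter Topology Function
open scoped ENNReal InnerProductSpace ComplexConjugate

namespace Pool.Agent.Lib.MP_79abb3_an.PD

open Pool.Agent.Lib.MP_79abb3_an.SC Pool.Agent.Lib.MP_79abb3_an.P25

namespace IsStrip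
variable {D : Set ℂ} {H c : ℝ} {X : ℝ × ℝ → ℂ} (h : IsStrip D H c X)
include h

/-! ### Push forward -/

/-- `psh θ (X q) = θ q` on one period. -/
theorem psh_X (θ : ℝ × ℝ → ℂ) {q : ℝ × ℝ} (hq : q ∈ Rc H c) : psh H c X θ (X q) = θ q := by
  have hex : ∃ p ∈ Rc H c, X p = X q := ⟨q, hq, rfl⟩
  have h1 : psh H c X θ (X q) = θ hex.choose := by
    unfold psh
    exact dif_pos hex
  have h2 := hex.choose_spec
  have hs : ∀ p ∈ Rc H c, p ∈ Ioc (-H) H ×ˢ Ico 0 c := fun p hp => ⟨hp.1, hp.2.1.le, hp.2.2⟩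
  rw [h1, h.inj (hs _ h2.1) (hs _ hq) h2.2]

theorem psh_out (θ : ℝ × ℝ → ℂ) {x : ℂ} (hx : x ∉ Wc X c) : psh H c X θ x = 0 := by
  unfold psh
  refine dif_neg ?_
  rintro ⟨q, hq, rfl⟩
  exact hx ⟨q, hq.2, rfl⟩

omit h in
private theorem co3_per {θ : ℝ × ℝ → ℂ} (hθ : PC H θ) :
    ∃ ε > 0, ∀ y z, |y + H| < ε → θ (y + 2 * H, z) = θ (y, z) := by
  obtain ⟨ε1, h1, h1'⟩ := hθ.re.per
  obtain ⟨ε2, h2, h2'⟩ := hθ.im.per
  refine ⟨min ε1 ε2, lt_min h1 h2, fun y z hy => ?_⟩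
  exact Complex.ext (h1' y z (lt_of_lt_of_le hy (min_le_left _ _))) (h2' y z (lt_of_lt_of_le hy (min_le_right _ _)))

private theorem co3_ev {θ : ℝ × ℝ → ℂ} (hθ : PC H θ) {q : ℝ × ℝ}
    (hq : q ∈ Rc H c) : (fun p => psh H c X θ (X p)) =ᶠ[𝓝 q] θ := by
  obtain ⟨ε, hε, hper⟩ := co3_per hθ
  have hH : 0 < H := by linarith [h.c0, h.cH]
  have hz : ∀ᶠ p : ℝ × ℝ in 𝓝 q, p.2 ∈ Ioo 0 c :=
    continuous_snd.continuousAt.eventually (Ioo_mem_nhds hq.2.1 hq.2.2)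
  have hy1 : ∀ᶠ p : ℝ × ℝ in 𝓝 q, -H < p.1 := continuous_fst.continuousAt.eventually (lt_mem_nhds hq.1.1)
  rcases lt_or_eq_of_le hq.1.2 with hlt | heq
  · have hy2 : ∀ᶠ p : ℝ × ℝ in 𝓝 q, p.1 < H := continuous_fst.continuousAt.eventually (gt_mem_nhds hlt)
    filter_upwards [hz, hy1, hy2] with p hp1 hp2 hp3
    exact h.psh_X θ ⟨⟨hp2, hp3.le⟩, hp1⟩
  · have hδ : 0 < min ε (2 * H) := lt_min hε (by linarith)
    have hy2 : ∀ᶠ p : ℝ × ℝ in 𝓝 q, |p.1 - H| < min ε (2 * H) := by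
      have hcont : ContinuousAt (fun p : ℝ × ℝ => |p.1 - H|) q := by fun_prop
      refine hcont.eventually (gt_mem_nhds ?_)
      show |q.1 - H| < min ε (2 * H)
      rw [heq, sub_self, abs_zero]
      exact hδ
    filter_upwards [hz, hy1, hy2] with p hp1 hp2 hp3
    rcases le_or_gt p.1 H with hle | hgt
    · exact h.psh_X θ ⟨⟨hp2, hle⟩, hp1⟩
    · have h5 : |p.1 - H| = p.1 - H := abs_of_pos (by linarith)
      rw [h5] at hp3
      have h6 : p.1 - H < ε := lt_of_lt_of_le hp3 (min_le_left _ _)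
      have h7 : p.1 - H < 2 * H := lt_of_lt_of_le hp3 (min_le_right _ _)
      have h8 : X p = X (p.1 - 2 * H, p.2) := by
        have := h.per (p.1 - 2 * H) p.2
        rw [sub_add_cancel] at this
        exact this
      have h9 : θ p = θ (p.1 - 2 * H, p.2) := by
        have := hper (p.1 - 2 * H) p.2 (by
          have : p.1 - 2 * H + H = p.1 - H := by ring
          rw [this, h5]; exact h6)
        rw [sub_add_cancel] at this
        exact this
      show psh H c X θ (X p) = θ p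
      rw [h8, h9]
      exact h.psh_X θ ⟨⟨by show -H < p.1 - 2 * H; linarith, by show p.1 - 2 * H ≤ H; linarith⟩, hp1⟩

/-- The derivative of `X` as an equivalence. -/
private theorem co3_equiv {q : ℝ × ℝ} (h0 : 0 ≤ q.2) (h1 : q.2 < c) :
    ∃ f' : (ℝ × ℝ) ≃L[ℝ] ℂ, HasFDerivAt X (f' : ℝ × ℝ →L[ℝ] ℂ) q := by
  have hne : fderiv ℝ X q (1, 0) ≠ 0 := h.der q.1 q.2 h0 h1
  have hinj : (fderiv ℝ X q).ker = ⊥ := by
    rw [LinearMap.ker_eq_bot']
    intro v hv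
    have hv' : fderiv ℝ X q v = 0 := hv
    rw [h.fderiv_eq h0 h1, mul_eq_zero] at hv'
    rcases hv' with hv' | hv'
    · exact absurd hv' hne
    · have h2 : (cxp v).re = 0 := by rw [hv']; rfl
      have h3 : (cxp v).im = 0 := by rw [hv']; rfl
      rw [cxp_re] at h2
      rw [cxp_im] at h3
      exact Prod.ext h2 h3
  have hsurj : (fderiv ℝ X q).range = ⊤ := by
    rw [LinearMap.range_eq_top]
    intro w
    refine ⟨((w / fderiv ℝ X q (1, 0)).re, (w / fderiv ℝ X q (1, 0)).im), ?_⟩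
    show fderiv ℝ X q _ = w
    rw [h.fderiv_eq h0 h1, cxp_mk]
    field_simp
  refine ⟨ContinuousLinearEquiv.ofBijective (fderiv ℝ X q) hinj hsurj, ?_⟩
  rw [ContinuousLinearEquiv.coe_ofBijective]
  exact (h.smooth.differentiable (by simp) q).hasFDerivAt

omit h in
private theorem co3_smooth {θ : ℝ × ℝ → ℂ} (hθ : PC H θ) : ContDiff ℝ ((⊤ : ℕ∞) : WithTop ℕ∞) θ := by
  have h1 : θ = fun q => ((θ q).re : ℂ) + ((θ q).im : ℂ) * Complex.I := by
    funext q; exact (Complex.re_add_im _).symm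
  rw [h1]
  exact (Complex.ofRealCLM.contDiff.comp hθ.re.smooth).add
    ((Complex.ofRealCLM.contDiff.comp hθ.im.smooth).mul contDiff_const)

private theorem co3_at {θ : ℝ × ℝ → ℂ} (hθ : PC H θ) {q : ℝ × ℝ} (hq : q ∈ Rc H c) :
    ContDiffAt ℝ ((⊤ : ℕ∞) : WithTop ℕ∞) (psh H c X θ) (X q) := by
  obtain ⟨f', hf'⟩ := h.co3_equiv hq.2.1.le hq.2.2
  have hn : ((⊤ : ℕ∞) : WithTop ℕ∞) ≠ 0 := by simp
  have hX : ContDiffAt ℝ ((⊤ : ℕ∞) : WithTop ℕ∞) X q := h.smooth.contDiffAt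
  have h1 := hX.to_localInverse hf' hn
  have h2 := hX.localInverse_apply_image hf' hn
  have h3 : ∀ᶠ x in 𝓝 (X q), X (hX.localInverse hf' hn x) = x :=
    (hX.hasStrictFDerivAt' hf' hn).eventually_right_inverse
  have h4 : Tendsto (hX.localInverse hf' hn) (𝓝 (X q)) (𝓝 q) := by
    have := h1.continuousAt
    unfold ContinuousAt at this
    rwa [h2] at this
  have h5 : psh H c X θ =ᶠ[𝓝 (X q)] fun x => θ (hX.localInverse hf' hn x) := by
    filter_upwards [h3, h4.eventually (h.co3_ev hθ hq)] with x hx1 hx2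
    rw [← hx2, hx1]
  refine ContDiffAt.congr_of_eventuallyEq ?_ h5
  refine ContDiffAt.comp (X q) ?_ h1
  exact (co3_smooth hθ).contDiffAt

private theorem co3_rep (y : ℝ) : ∃ y' ∈ Ioc (-H) H, ∀ z, X (y', z) = X (y, z) := by
  have hH : 0 < 2 * H := by linarith [h.c0, h.cH]
  refine ⟨toIocMod hH (-H) y, ?_, fun z => ?_⟩
  · have := toIocMod_mem_Ioc hH (-H) y
    exact ⟨this.1, by linarith [this.2]⟩
  · have hper : Function.Periodic (fun y => X (y, z)) (2 * H) := fun y => h.per y z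
    exact hper.sub_zsmul_eq (toIocDiv hH (-H) y)

/-- **Push forwards of test functions are test functions of `D`.** Support: the image of the compact set
`[-H,H] × [e,e']`. Smoothness at `x = X q`, `q ∈ Rc H c`: a smooth local inverse of `X` (`ContDiffAt.toOpenPartialHomeomorph`,
`ContDiffAt.to_localInverse`), near `x` one has `psh θ = θ ∘ (local inverse)`: for `q.1 < H` because the local inverse
takes its values in `Rc H c`; for `q.1 = H` the points with `y > H` are represented by `y - 2H`, and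
`θ (y - 2H, z) = θ (y, z)` for `|y - H| < ε` (`PY.per`). -/
theorem psh_mem {θ : ℝ × ℝ → ℂ} {e e' : ℝ} (hθ : TfS H e e' θ) (he : 0 < e) (he' : e' < c) :
    Cc (psh H c X θ) ∧ tsupport (psh H c X θ) ⊆ X '' (Icc (-H) H ×ˢ Icc e e') := by
  have hK : IsCompact (X '' (Icc (-H) H ×ˢ Icc e e')) :=
    (isCompact_Icc.prod isCompact_Icc).image h.smooth.continuous
  have hz : ∀ x, x ∉ X '' (Icc (-H) H ×ˢ Icc e e') → psh H c X θ x = 0 := by
    intro x hx
    by_cases hW : x ∈ Wc X c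
    · rw [h.Wc_eq] at hW
      obtain ⟨q, hq, rfl⟩ := hW
      rw [h.psh_X θ hq]
      by_cases h1 : q.2 < e
      · exact hθ.low q.1 q.2 h1
      · by_cases h2 : e' < q.2
        · exact hθ.up q.1 q.2 h2
        · exact absurd ⟨q, ⟨Ioc_subset_Icc_self hq.1, not_lt.mp h1, not_lt.mp h2⟩, rfl⟩ hx
    · exact h.psh_out θ hW
  have hsub : tsupport (psh H c X θ) ⊆ X '' (Icc (-H) H ×ˢ Icc e e') := by
    refine closure_minimal (fun x hx => ?_) hK.isClosed
    by_contra hx'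
    exact hx (hz x hx')
  refine ⟨⟨?_, ?_⟩, hsub⟩
  · refine contDiff_iff_contDiffAt.mpr fun x => ?_
    by_cases hx : x ∈ Wc X c
    · rw [h.Wc_eq] at hx
      obtain ⟨q, hq, rfl⟩ := hx
      exact h.co3_at hθ.pc hq
    · have hx' : x ∉ X '' (Icc (-H) H ×ˢ Icc e e') := by
        rintro ⟨q, hq, rfl⟩
        exact hx ⟨q, ⟨lt_of_lt_of_le he hq.2.1, lt_of_le_of_lt hq.2.2 he'⟩, rfl⟩
      have hev : psh H c X θ =ᶠ[𝓝 x] fun _ => 0 := by
        filter_upwards [hK.isClosed.isOpen_compl.mem_nhds hx'] with w hw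
        exact hz w hw
      exact ContDiffAt.congr_of_eventuallyEq contDiffAt_const hev
  · exact IsCompact.of_isClosed_subset hK (isClosed_tsupport _) hsub

theorem image_sub {e e' : ℝ} (he : 0 < e) (he' : e' < c) : X '' (Icc (-H) H ×ˢ Icc e e') ⊆ D := by
  rintro x ⟨q, hq, rfl⟩
  exact h.sub q.1 q.2 (lt_of_lt_of_le he hq.2.1) (lt_of_le_of_lt hq.2.2 he')

/-- Near the points of one period `psh θ ∘ X = θ`, also for the derivatives. -/
theorem psh_ev {θ : ℝ × ℝ → ℂ} {e e' : ℝ} (hθ : TfS H e e' θ) (he : 0 < e) (he' : e' < c) {q : ℝ × ℝ}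
    (hq : q ∈ Rc H c) : (fun p => psh H c X θ (X p)) =ᶠ[𝓝 q] θ := by
  have _ := he
  have _ := he'
  exact h.co3_ev hθ.pc hq

omit h in
private theorem co3_dY {f g : ℝ × ℝ → ℂ} {q : ℝ × ℝ} (hfg : f =ᶠ[𝓝 q] g) : dYc f =ᶠ[𝓝 q] dYc g := by
  filter_upwards [hfg.fderiv (𝕜 := ℝ)] with p hp
  unfold dYc
  rw [hp]

omit h in
private theorem co3_dZ {f g : ℝ × ℝ → ℂ} {q : ℝ × ℝ} (hfg : f =ᶠ[𝓝 q] g) : dZc f =ᶠ[𝓝 q] dZc g := by
  filter_upwards [hfg.fderiv (𝕜 := ℝ)] with p hp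
  unfold dZc
  rw [hp]

/-- The derivatives of the push forward in strip coordinates (`psh_ev`, `dLc_comp`). -/
theorem psh_lap {θ : ℝ × ℝ → ℂ} {e e' : ℝ} (hθ : TfS H e e' θ) (he : 0 < e) (he' : e' < c) {q : ℝ × ℝ}
    (hq : q ∈ Rc H c) : (mJ X q : ℂ) * lap (psh H c X θ) (X q) = dYc (dYc θ) q + dZc (dZc θ) q := by
  have h1 := h.dLc_comp (h.psh_mem hθ he he').1.smo hq.2.1.le hq.2.2
  have h2 := h.psh_ev hθ he he' hq
  have h3 : dYc (dYc (fun p => psh H c X θ (X p))) q = dYc (dYc θ) q := (co3_dY (co3_dY h2)).eq_of_nhds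
  have h4 : dZc (dZc (fun p => psh H c X θ (X p))) q = dZc (dZc θ) q := (co3_dZ (co3_dZ h2)).eq_of_nhds
  unfold dLc at h1
  rw [h3, h4] at h1
  linear_combination h1

/-- `J (ψ_y φ_x - ψ_x φ_y) = ψ_z θ_y - ψ_y θ_z` for `φ = psh θ` (`curl_mul`, `psh_ev`). -/
theorem psh_adv {ψ : ℂ → ℂ} (hψ : Smo ψ) {θ : ℝ × ℝ → ℂ} {e e' : ℝ} (hθ : TfS H e e' θ) (he : 0 < e)
    (he' : e' < c) {q : ℝ × ℝ} (hq : q ∈ Rc H c) :
    (mJ X q : ℂ) * (py ψ (X q) * px (psh H c X θ) (X q) - px ψ (X q) * py (psh H c X θ) (X q)) =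
      dZc (fun q => ψ (X q)) q * dYc θ q - dYc (fun q => ψ (X q)) q * dZc θ q := by
  have h1 := h.curl_mul hψ (h.psh_mem hθ he he').1.smo hq.2.1.le hq.2.2
  have h2 := h.psh_ev hθ he he' hq
  have h3 : dYc (fun p => psh H c X θ (X p)) q = dYc θ q := (co3_dY h2).eq_of_nhds
  have h4 : dZc (fun p => psh H c X θ (X p)) q = dZc θ q := (co3_dZ h2).eq_of_nhds
  rw [h3, h4] at h1
  linear_combination h1

/-- `ψ ∈ Adm D` is constant near the wall. Proof: `ψ` is locally constant near the compact set `X '' ([-H,H] × {0})`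
(which is disjoint from the closed set `tsupport (fderiv ψ) ⊆ D`, because `D` is open and `X (y,0) ∈ frontier D`); the
strip `0 ≤ z < ε` is connected (convex), so `ψ ∘ X` is constant there (derivative zero). -/
theorem adm_const (hD : IsOpen D) (ψ : Adm D) : ∃ ε > 0, ε < c ∧ ∀ y z, 0 ≤ z → z < ε →
    (ψ : ℂ → ℂ) (X (y, z)) = (ψ : ℂ → ℂ) (X (0, 0)) := by
  have hopen : IsOpen {q : ℝ × ℝ | X q ∉ tsupport (fderiv ℝ (ψ : ℂ → ℂ))} :=
    (isClosed_tsupport _).isOpen_compl.preimage h.smooth.continuous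
  have hin : Icc (-H) H ×ˢ ({0} : Set ℝ) ⊆ {q : ℝ × ℝ | X q ∉ tsupport (fderiv ℝ (ψ : ℂ → ℂ))} := by
    rintro ⟨y, z⟩ ⟨_, hz⟩
    rw [mem_singleton_iff] at hz
    simp only at hz
    subst hz
    intro hmem
    have h1 : X (y, 0) ∈ D := Adm.supp ψ hmem
    have h2 : X (y, 0) ∈ frontier D := h.bdry y
    rw [hD.frontier_eq] at h2
    exact h2.2 h1
  obtain ⟨u, v, -, hv, hu', hv', huv⟩ := generalized_tube_lemma isCompact_Icc isCompact_singleton hopen hin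
  obtain ⟨ε, hε, hball⟩ := Metric.isOpen_iff.mp hv 0 (hv' (mem_singleton 0))
  have hε2 : 0 < min ε (c / 2) := lt_min hε (by linarith [h.c0])
  refine ⟨min ε (c / 2), hε2, lt_of_le_of_lt (min_le_right _ _) (by linarith [h.c0]), ?_⟩
  set δ := min ε (c / 2) with hδ
  have hnot : ∀ y z : ℝ, z ∈ Ioo (-δ) δ → X (y, z) ∉ tsupport (fderiv ℝ (ψ : ℂ → ℂ)) := by
    intro y z hz
    obtain ⟨y', hy', hX⟩ := h.co3_rep y
    rw [← hX]
    refine huv (mk_mem_prod (hu' (Ioc_subset_Icc_self hy')) (hball ?_))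
    rw [Metric.mem_ball, Real.dist_eq, sub_zero]
    exact lt_of_lt_of_le (abs_lt.mpr hz) (min_le_left _ _)
  have hs : IsOpen ((univ : Set ℝ) ×ˢ Ioo (-δ) δ) := isOpen_univ.prod isOpen_Ioo
  have hs' : IsPreconnected ((univ : Set ℝ) ×ˢ Ioo (-δ) δ) := isPreconnected_univ.prod isPreconnected_Ioo
  have hdiff : Differentiable ℝ (fun q => (ψ : ℂ → ℂ) (X q)) :=
    (Adm.cc ψ).smo.differentiable.comp (h.smooth.differentiable (by simp))
  have hd : ((univ : Set ℝ) ×ˢ Ioo (-δ) δ).EqOn (fderiv ℝ (fun q => (ψ : ℂ → ℂ) (X q))) 0 := by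
    intro q hq
    have h1 : fderiv ℝ (fun q => (ψ : ℂ → ℂ) (X q)) q = (fderiv ℝ (ψ : ℂ → ℂ) (X q)).comp (fderiv ℝ X q) :=
      fderiv_comp q ((Adm.cc ψ).smo.differentiable _) (h.smooth.differentiable (by simp) q)
    rw [h1, image_eq_zero_of_notMem_tsupport (hnot q.1 q.2 hq.2)]
    simp
  intro y z hz0 hz1
  exact hs.is_const_of_fderiv_eq_zero hs' hdiff.differentiableOn hd
    (x := (y, z)) (y := (0, 0)) ⟨mem_univ _, by show -δ < z; linarith, hz1⟩ ⟨mem_univ _, by show -δ < (0:ℝ); linarith, hε2⟩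

end IsStrip

end Pool.Agent.Lib.MP_79abb3_an.PD
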