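import Pool.Agent.Lib.MP_79abb3_an.PD.CoDef
import Pool.Agent.Lib.MP_79abb3_an.SC.ExF
import Pool.Agent.Lib.MP_79abb3_an.SC.FcD

/-!
Theorem D, collar package: modes of complex valued functions of the strip.
-/

set_option autoImplicit false
set_option linter.unusedSectionVars false

open MeasureTheory Set Filter Topology Function
open scoped ENNReal InnerProductSpace ComplexConjugate

namespace Pool.Agent.Lib.MP_79abb3_an.PD

open Pool.Agent.Lib.MP_79abb3_an.SC Pool.Agent.Lib.MP_79abb3_an.P25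

namespace PC
variable {H : ℝ} {θ η : ℝ × ℝ → ℂ} {F : ℝ × ℝ → ℝ}

theorem smooth (h : PC H θ) : ContDiff ℝ ((⊤ : ℕ∞) : WithTop ℕ∞) θ := by
  have h1 := Complex.ofRealCLM.contDiff.comp h.re.smooth
  have h2 := Complex.ofRealCLM.contDiff.comp h.im.smooth
  have e : θ = fun q => ((θ q).re : ℂ) + ((θ q).im : ℂ) * Complex.I :=
    funext fun q => (Complex.re_add_im _).symm
  rw [e]
  exact h1.add (h2.mul contDiff_const)

theorem add (h : PC H θ) (h' : PC H η) : PC H fun q => θ q + η q := by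
  exact ⟨by simpa only [Complex.add_re] using h.re.add h'.re,
    by simpa only [Complex.add_im] using h.im.add h'.im⟩

theorem sub (h : PC H θ) (h' : PC H η) : PC H fun q => θ q - η q := by
  exact ⟨by simpa only [Complex.sub_re] using h.re.sub h'.re,
    by simpa only [Complex.sub_im] using h.im.sub h'.im⟩

theorem neg (h : PC H θ) : PC H fun q => -θ q := by
  exact ⟨by simpa only [Complex.neg_re] using h.re.neg,
    by simpa only [Complex.neg_im] using h.im.neg⟩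

theorem cmul (c : ℂ) (h : PC H θ) : PC H fun q => c * θ q := by
  refine ⟨?_, ?_⟩
  · simp only [Complex.mul_re]
    exact ((PY.const H c.re).mul h.re).sub ((PY.const H c.im).mul h.im)
  · simp only [Complex.mul_im]
    exact ((PY.const H c.re).mul h.im).add ((PY.const H c.im).mul h.re)

theorem mulR (hF : PY H F) (h : PC H θ) : PC H fun q => (F q : ℂ) * θ q := by
  refine ⟨?_, ?_⟩
  · simp only [Complex.re_ofReal_mul]
    exact hF.mul h.re
  · simp only [Complex.im_ofReal_mul]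
    exact hF.mul h.im

theorem mul (h : PC H θ) (h' : PC H η) : PC H fun q => θ q * η q := by
  refine ⟨?_, ?_⟩
  · simp only [Complex.mul_re]
    exact (h.re.mul h'.re).sub (h.im.mul h'.im)
  · simp only [Complex.mul_im]
    exact (h.re.mul h'.im).add (h.im.mul h'.re)

theorem star (h : PC H θ) : PC H fun q => (starRingEnd ℂ) (θ q) := by
  refine ⟨?_, ?_⟩
  · simp only [Complex.conj_re]
    exact h.re
  · simp only [Complex.conj_im]
    exact h.im.neg

theorem ofPY (hF : PY H F) : PC H fun q => (F q : ℂ) := by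
  refine ⟨?_, ?_⟩
  · simp only [Complex.ofReal_re]
    exact hF
  · simp only [Complex.ofReal_im]
    exact PY.const H 0

theorem const (H : ℝ) (c : ℂ) : PC H fun _ => c := by
  exact ⟨PY.const H c.re, PY.const H c.im⟩

private theorem cob_diff (h : PC H θ) (q : ℝ × ℝ) : DifferentiableAt ℝ θ q :=
  h.smooth.differentiable (by simp) q

private theorem cob_re (h : PC H θ) (q v : ℝ × ℝ) :
    (fderiv ℝ θ q v).re = fderiv ℝ (fun q => (θ q).re) q v := by
  have h1 := (Complex.reCLM.hasFDerivAt (x := θ q)).comp q (cob_diff h q).hasFDerivAt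
  have h2 : fderiv ℝ (fun q => (θ q).re) q = Complex.reCLM.comp (fderiv ℝ θ q) := h1.fderiv
  rw [h2]
  rfl

private theorem cob_im (h : PC H θ) (q v : ℝ × ℝ) :
    (fderiv ℝ θ q v).im = fderiv ℝ (fun q => (θ q).im) q v := by
  have h1 := (Complex.imCLM.hasFDerivAt (x := θ q)).comp q (cob_diff h q).hasFDerivAt
  have h2 : fderiv ℝ (fun q => (θ q).im) q = Complex.imCLM.comp (fderiv ℝ θ q) := h1.fderiv
  rw [h2]
  rfl

theorem yy_re (h : PC H θ) (q : ℝ × ℝ) : (dYc θ q).re = pY (fun q => (θ q).re) q := by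
  exact cob_re h q _
theorem yy_im (h : PC H θ) (q : ℝ × ℝ) : (dYc θ q).im = pY (fun q => (θ q).im) q := by
  exact cob_im h q _
theorem zz_re (h : PC H θ) (q : ℝ × ℝ) : (dZc θ q).re = pZ (fun q => (θ q).re) q := by
  exact cob_re h q _
theorem zz_im (h : PC H θ) (q : ℝ × ℝ) : (dZc θ q).im = pZ (fun q => (θ q).im) q := by
  exact cob_im h q _

private theorem cob_yy (h : PC H θ) : PC H (dYc θ) := by
  refine ⟨?_, ?_⟩
  · rw [show (fun q => (dYc θ q).re) = pY (fun q => (θ q).re) from funext h.yy_re]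
    exact h.re.pY
  · rw [show (fun q => (dYc θ q).im) = pY (fun q => (θ q).im) from funext h.yy_im]
    exact h.im.pY

private theorem cob_zz (h : PC H θ) : PC H (dZc θ) := by
  refine ⟨?_, ?_⟩
  · rw [show (fun q => (dZc θ q).re) = pZ (fun q => (θ q).re) from funext h.zz_re]
    exact h.re.pZ
  · rw [show (fun q => (dZc θ q).im) = pZ (fun q => (θ q).im) from funext h.zz_im]
    exact h.im.pZ

theorem ll_re (h : PC H θ) (q : ℝ × ℝ) : (dLc θ q).re = lapN (fun q => (θ q).re) q := by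
  have h1 : (dYc (dYc θ) q).re = pY (pY fun q => (θ q).re) q := by
    rw [(cob_yy h).yy_re, show (fun q => (dYc θ q).re) = pY (fun q => (θ q).re) from funext h.yy_re]
  have h2 : (dZc (dZc θ) q).re = pZ (pZ fun q => (θ q).re) q := by
    rw [(cob_zz h).zz_re, show (fun q => (dZc θ q).re) = pZ (fun q => (θ q).re) from funext h.zz_re]
  rw [dLc, Complex.neg_re, Complex.add_re, h1, h2]
  rfl
theorem ll_im (h : PC H θ) (q : ℝ × ℝ) : (dLc θ q).im = lapN (fun q => (θ q).im) q := by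
  have h1 : (dYc (dYc θ) q).im = pY (pY fun q => (θ q).im) q := by
    rw [(cob_yy h).yy_im, show (fun q => (dYc θ q).im) = pY (fun q => (θ q).im) from funext h.yy_im]
  have h2 : (dZc (dZc θ) q).im = pZ (pZ fun q => (θ q).im) q := by
    rw [(cob_zz h).zz_im, show (fun q => (dZc θ q).im) = pZ (fun q => (θ q).im) from funext h.zz_im]
  rw [dLc, Complex.neg_im, Complex.add_im, h1, h2]
  rfl

theorem yy (h : PC H θ) : PC H (dYc θ) := by
  exact cob_yy h
theorem zz (h : PC H θ) : PC H (dZc θ) := by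
  exact cob_zz h
theorem ll (h : PC H θ) : PC H (dLc θ) := by
  refine ⟨?_, ?_⟩
  · rw [show (fun q => (dLc θ q).re) = lapN (fun q => (θ q).re) from funext h.ll_re]
    exact (h.re.pY.pY.add h.re.pZ.pZ).neg
  · rw [show (fun q => (dLc θ q).im) = lapN (fun q => (θ q).im) from funext h.ll_im]
    exact (h.im.pY.pY.add h.im.pZ.pZ).neg

private theorem cob_fd {g : ℝ → ℝ} (hg : ContDiff ℝ ((⊤ : ℕ∞) : WithTop ℕ∞) g) (q : ℝ × ℝ) :
    HasFDerivAt (fun q : ℝ × ℝ => (g q.2 : ℂ))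
      (Complex.ofRealCLM.comp ((ContinuousLinearMap.toSpanSingleton ℝ (deriv g q.2)).comp
        (ContinuousLinearMap.snd ℝ ℝ ℝ))) q := by
  have h0 : DifferentiableAt ℝ g q.2 := hg.differentiable (by simp) q.2
  have h1 : HasFDerivAt g (ContinuousLinearMap.toSpanSingleton ℝ (deriv g q.2)) q.2 :=
    h0.hasDerivAt.hasFDerivAt
  have h2 : HasFDerivAt (fun q : ℝ × ℝ => g q.2) _ q := h1.comp q hasFDerivAt_snd
  exact (Complex.ofRealCLM.hasFDerivAt (x := g q.2)).comp q h2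

private theorem cob_mul {g : ℝ → ℝ} (hg : ContDiff ℝ ((⊤ : ℕ∞) : WithTop ℕ∞) g) (h : PC H θ)
    (q v : ℝ × ℝ) : fderiv ℝ (fun q => (g q.2 : ℂ) * θ q) q v =
      ((v.2 * deriv g q.2 : ℝ) : ℂ) * θ q + (g q.2 : ℂ) * fderiv ℝ θ q v := by
  have h1 : HasFDerivAt (fun q => (g q.2 : ℂ) * θ q) _ q :=
    (cob_fd hg q).mul (cob_diff h q).hasFDerivAt
  rw [HasFDerivAt.fderiv h1]
  simp only [_root_.add_apply, _root_.smul_apply, smul_eq_mul,
    ContinuousLinearMap.comp_apply, ContinuousLinearMap.coe_snd', Complex.ofRealCLM_apply,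
    ContinuousLinearMap.toSpanSingleton_apply]
  ring

/-- Leibniz rules for a factor which depends on `z` only. -/
theorem zz_mul_z {g : ℝ → ℝ} (hg : ContDiff ℝ ((⊤ : ℕ∞) : WithTop ℕ∞) g) (h : PC H θ) (q : ℝ × ℝ) :
    dZc (fun q => (g q.2 : ℂ) * θ q) q = ((deriv g q.2 : ℝ) : ℂ) * θ q + (g q.2 : ℂ) * dZc θ q := by
  have h1 := cob_mul hg h q (0, 1)
  rw [one_mul] at h1
  exact h1
theorem yy_mul_z {g : ℝ → ℝ} (hg : ContDiff ℝ ((⊤ : ℕ∞) : WithTop ℕ∞) g) (h : PC H θ) (q : ℝ × ℝ) :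
    dYc (fun q => (g q.2 : ℂ) * θ q) q = (g q.2 : ℂ) * dYc θ q := by
  have h1 := cob_mul hg h q (1, 0)
  rw [zero_mul, Complex.ofReal_zero, zero_mul, zero_add] at h1
  exact h1
theorem ll_mul_z {g : ℝ → ℝ} (hg : ContDiff ℝ ((⊤ : ℕ∞) : WithTop ℕ∞) g) (h : PC H θ) (q : ℝ × ℝ) :
    dLc (fun q => (g q.2 : ℂ) * θ q) q = (g q.2 : ℂ) * dLc θ q - 2 * ((deriv g q.2 : ℝ) : ℂ) * dZc θ q -
      ((deriv (deriv g) q.2 : ℝ) : ℂ) * θ q := by
  have hg' : ContDiff ℝ ((⊤ : ℕ∞) : WithTop ℕ∞) (deriv g) := (contDiff_infty_iff_deriv.1 hg).2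
  have hy : dYc (dYc fun q => (g q.2 : ℂ) * θ q) q = (g q.2 : ℂ) * dYc (dYc θ) q := by
    rw [show (dYc fun q => (g q.2 : ℂ) * θ q) = fun q => (g q.2 : ℂ) * dYc θ q from
      funext fun q => yy_mul_z hg h q]
    exact yy_mul_z hg h.yy q
  have hz : dZc (dZc fun q => (g q.2 : ℂ) * θ q) q =
      (((deriv (deriv g) q.2 : ℝ) : ℂ) * θ q + ((deriv g q.2 : ℝ) : ℂ) * dZc θ q) +
        (((deriv g q.2 : ℝ) : ℂ) * dZc θ q + (g q.2 : ℂ) * dZc (dZc θ) q) := by
    rw [show (dZc fun q => (g q.2 : ℂ) * θ q) =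
      fun q => ((deriv g q.2 : ℝ) : ℂ) * θ q + (g q.2 : ℂ) * dZc θ q from
      funext fun q => zz_mul_z hg h q]
    have d1 : DifferentiableAt ℝ (fun q : ℝ × ℝ => ((deriv g q.2 : ℝ) : ℂ) * θ q) q :=
      (cob_fd hg' q).differentiableAt.mul (cob_diff h q)
    have d2 : DifferentiableAt ℝ (fun q : ℝ × ℝ => (g q.2 : ℂ) * dZc θ q) q :=
      (cob_fd hg q).differentiableAt.mul (cob_diff h.zz q)
    have h3 : dZc (fun q : ℝ × ℝ => ((deriv g q.2 : ℝ) : ℂ) * θ q + (g q.2 : ℂ) * dZc θ q) q =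
        dZc (fun q : ℝ × ℝ => ((deriv g q.2 : ℝ) : ℂ) * θ q) q +
          dZc (fun q : ℝ × ℝ => (g q.2 : ℂ) * dZc θ q) q := by
      have := (d1.hasFDerivAt.add d2.hasFDerivAt).fderiv
      unfold dZc
      exact congrArg (fun L : ℝ × ℝ →L[ℝ] ℂ => L (0, 1)) this
    rw [h3, zz_mul_z hg' h q, zz_mul_z hg h.zz q]
  unfold dLc
  rw [hy, hz]
  ring

end PC

end Pool.Agent.Lib.MP_79abb3_an.PD
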