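import Pool.Agent.Lib.MP_79abb3_an.PD.CoB
import Pool.Agent.Lib.MP_79abb3_an.SC.PzG

/-!
Theorem D, collar package: modes of complex valued functions, Parseval.
-/

set_option autoImplicit false
set_option linter.unusedSectionVars false

open MeasureTheory Set Filter Topology Function
open scoped ENNReal InnerProductSpace ComplexConjugate

namespace Pool.Agent.Lib.MP_79abb3_an.PD

open Pool.Agent.Lib.MP_79abb3_an.SC Pool.Agent.Lib.MP_79abb3_an.P25

private theorem cob2_alg {M : Type*} [AddCommGroup M] [Module ℂ M] (c : ℂ) (a b : M) :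
    ((c.re : ℂ) • a - (c.im : ℂ) • b) + Complex.I • ((c.re : ℂ) • b + (c.im : ℂ) • a) =
      c • (a + Complex.I • b) := by
  have h1 : c = (c.re : ℂ) + Complex.I * (c.im : ℂ) := by
    rw [mul_comm]; exact (Complex.re_add_im c).symm
  have h2 : c * Complex.I = Complex.I * (c.re : ℂ) - (c.im : ℂ) := by
    conv_lhs => rw [h1]
    have hI := Complex.I_mul_I
    linear_combination (c.im : ℂ) * hI
  rw [smul_add, smul_add, smul_smul, smul_smul, smul_smul, h2, sub_smul]
  conv_rhs => enter [1]; rw [h1, add_smul]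
  abel

private theorem cob2_add {M : Type*} [AddCommGroup M] [Module ℂ M] (a b a' b' : M) :
    a + a' + Complex.I • (b + b') = (a + Complex.I • b) + (a' + Complex.I • b') := by
  rw [smul_add]; abel

private theorem cob2_sub {M : Type*} [AddCommGroup M] [Module ℂ M] (a b a' b' : M) :
    a - a' + Complex.I • (b - b') = (a + Complex.I • b) - (a' + Complex.I • b') := by
  rw [smul_sub]; abel

private theorem cob2_zero {M : Type*} [AddCommGroup M] [Module ℂ M] (a : M) :
    a + Complex.I • (0 : M) = a := by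
  rw [smul_zero, add_zero]

private theorem cob2_inner {E : Type*} [NormedAddCommGroup E] [InnerProductSpace ℂ E] (a b c d : E) :
    ⟪a + Complex.I • b, c + Complex.I • d⟫_ℂ =
      ⟪a, c⟫_ℂ + Complex.I * ⟪a, d⟫_ℂ - Complex.I * ⟪b, c⟫_ℂ + ⟪b, d⟫_ℂ := by
  rw [inner_add_left, inner_add_right, inner_add_right, inner_smul_right, inner_smul_left,
    inner_smul_left, inner_smul_right, Complex.conj_I]
  have hI := Complex.I_mul_I
  linear_combination (-⟪b, d⟫_ℂ) * hI

private theorem cob2_re {E : Type*} [NormedAddCommGroup E] [InnerProductSpace ℂ E] (a b : E) :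
    (⟪a, b⟫_ℂ).re = (‖a + b‖ ^ 2 - ‖a‖ ^ 2 - ‖b‖ ^ 2) / 2 := by
  have h := norm_add_sq (𝕜 := ℂ) a b
  have h1 : RCLike.re ⟪a, b⟫_ℂ = (⟪a, b⟫_ℂ).re := rfl
  rw [h1] at h
  linarith

section
variable {H : ℝ} [hH : Fact (0 < H)] {θ η : ℝ × ℝ → ℂ} {F : ℝ × ℝ → ℝ}

theorem fHc_eq (h : PC H θ) : fHc θ = fH h.re + Complex.I • fH h.im := dif_pos h

theorem bHc_eq (h : PC H θ) : bHc θ = bsH h.re + Complex.I • bsH h.im := dif_pos h

theorem fHc_apply (h : PC H θ) (n : ℤ) : fHc θ n = (iota (fmc θ n : CI H) : Z2 H) := by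
  rw [fHc_eq h, lp.coeFn_add, Pi.add_apply, lp.coeFn_smul, Pi.smul_apply, fH_apply, fH_apply, fmc,
    map_add, map_smul]

private theorem cob2_cre (h : PC H θ) : Continuous fun q => (θ q).re := h.re.smooth.continuous
private theorem cob2_cim (h : PC H θ) : Continuous fun q => (θ q).im := h.im.smooth.continuous

private theorem fmc_add' (h : PC H θ) (h' : PC H η) (n : ℤ) :
    (fmc (fun q => θ q + η q) n : CI H) = fmc θ n + fmc η n := by
  unfold fmc
  have e1 : (fun q => (θ q + η q).re) = fun q => (θ q).re + (η q).re := rfl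
  have e2 : (fun q => (θ q + η q).im) = fun q => (θ q).im + (η q).im := rfl
  rw [e1, e2, fam_add (cob2_cre h) (cob2_cre h'), fam_add (cob2_cim h) (cob2_cim h')]
  exact cob2_add _ _ _ _

private theorem fmc_sub' (h : PC H θ) (h' : PC H η) (n : ℤ) :
    (fmc (fun q => θ q - η q) n : CI H) = fmc θ n - fmc η n := by
  unfold fmc
  have e1 : (fun q => (θ q - η q).re) = fun q => (θ q).re - (η q).re := rfl
  have e2 : (fun q => (θ q - η q).im) = fun q => (θ q).im - (η q).im := rfl
  rw [e1, e2, fam_sub (cob2_cre h) (cob2_cre h'), fam_sub (cob2_cim h) (cob2_cim h')]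
  exact cob2_sub _ _ _ _

private theorem fmc_smul' (c : ℂ) (h : PC H θ) (n : ℤ) :
    (fmc (fun q => c * θ q) n : CI H) = c • fmc θ n := by
  unfold fmc
  have e1 : (fun q => (c * θ q).re) = fun q => c.re * (θ q).re - c.im * (θ q).im := rfl
  have e2 : (fun q => (c * θ q).im) = fun q => c.re * (θ q).im + c.im * (θ q).re := rfl
  have c1 : Continuous fun q => c.re * (θ q).re := continuous_const.mul (cob2_cre h)
  have c2 : Continuous fun q => c.im * (θ q).im := continuous_const.mul (cob2_cim h)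
  have c3 : Continuous fun q => c.re * (θ q).im := continuous_const.mul (cob2_cim h)
  have c4 : Continuous fun q => c.im * (θ q).re := continuous_const.mul (cob2_cre h)
  rw [e1, e2, fam_sub c1 c2, fam_add c3 c4, fam_smul _ (cob2_cre h), fam_smul _ (cob2_cim h),
    fam_smul _ (cob2_cim h), fam_smul _ (cob2_cre h)]
  exact cob2_alg c _ _

theorem fHc_add (h : PC H θ) (h' : PC H η) : (fHc (fun q => θ q + η q) : HH H) = fHc θ + fHc η := by
  refine lp.ext (funext fun n => ?_)
  rw [lp.coeFn_add, Pi.add_apply, fHc_apply (h.add h'), fHc_apply h, fHc_apply h', fmc_add' h h',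
    map_add]

theorem fHc_smul (c : ℂ) (h : PC H θ) : (fHc (fun q => c * θ q) : HH H) = c • fHc θ := by
  refine lp.ext (funext fun n => ?_)
  rw [lp.coeFn_smul, Pi.smul_apply, fHc_apply (h.cmul c), fHc_apply h, fmc_smul' c h, map_smul]

theorem fHc_sub (h : PC H θ) (h' : PC H η) : (fHc (fun q => θ q - η q) : HH H) = fHc θ - fHc η := by
  refine lp.ext (funext fun n => ?_)
  rw [lp.coeFn_sub, Pi.sub_apply, fHc_apply (h.sub h'), fHc_apply h, fHc_apply h', fmc_sub' h h',
    map_sub]

theorem fHc_congr (h : PC H θ) (h' : PC H η) (he : ∀ q ∈ Cel H, θ q = η q) : (fHc θ : HH H) = fHc η := by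
  refine lp.ext (funext fun n => ?_)
  have h1 : (fmc θ n : CI H) = fmc η n := by
    unfold fmc
    rw [fam_congr (cob2_cre h) (cob2_cre h') (fun y hy z hz => by rw [he (y, z) ⟨hy, hz⟩]),
      fam_congr (cob2_cim h) (cob2_cim h') (fun y hy z hz => by rw [he (y, z) ⟨hy, hz⟩])]
  rw [fHc_apply h, fHc_apply h', h1]

theorem fHc_ofPY (hF : PY H F) : (fHc (fun q => (F q : ℂ)) : HH H) = fH hF := by
  refine lp.ext (funext fun n => ?_)
  have h0 : (fam (fun _ : ℝ × ℝ => (0 : ℝ)) n : CI H) = 0 := by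
    have h := fam_smul (H := H) 0 hF.smooth.continuous n
    have e : (fun p => 0 * F p) = fun _ : ℝ × ℝ => (0 : ℝ) := by funext p; ring
    rw [e] at h
    rw [h, Complex.ofReal_zero]
    exact zero_smul ℂ (fam F n : CI H)
  have h1 : (fmc (fun q => (F q : ℂ)) n : CI H) = fam F n := by
    unfold fmc
    have e1 : (fun q => ((F q : ℂ)).re) = F := rfl
    have e2 : (fun q => ((F q : ℂ)).im) = fun _ => (0 : ℝ) := rfl
    rw [e1, e2, h0]
    exact cob2_zero _
  rw [fHc_apply (PC.ofPY hF), h1, fH_apply]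

private theorem cob2_fH_congr {F G : ℝ × ℝ → ℝ} (hF : PY H F) (hG : PY H G) (h : F = G) :
    fH hF = fH hG := by
  subst h; rfl

theorem cm_fHc (hF : PY H F) (h : PC H θ) :
    SC.cm (fam F) (fHc θ) = (fHc fun q => (F q : ℂ) * θ q : HH H) := by
  rw [fHc_eq h, fHc_eq (PC.mulR hF h), map_add, map_smul, cm_fH hF h.re, cm_fH hF h.im]
  rw [cob2_fH_congr (hF.mul h.re) (PC.mulR hF h).re (by funext q; simp),
    cob2_fH_congr (hF.mul h.im) (PC.mulR hF h).im (by funext q; simp)]

theorem Ms_fHc {g : ℝ → ℝ} (hg : ContDiff ℝ ((⊤ : ℕ∞) : WithTop ℕ∞) g) (h : PC H θ) :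
    Ms (Pool.Agent.Lib.MP_79abb3_an.FW.rc g hg.continuous) (fHc θ) = (fHc fun q => (g q.2 : ℂ) * θ q : HH H) := by
  have h1 := cm_fam_z (H := H) hg.continuous (fHc θ)
  rw [← h1]
  exact cm_fHc (PY.of_z H hg) h

private theorem cob2_norm (hF : PY H F) : ‖(fH hF : HH H)‖ ^ 2 = (2 * H)⁻¹ * ∫ q in Cel H, F q ^ 2 := by
  have hH0 := hH.out
  rw [Cel_parseval hF, l2_norm_sq]
  have h2 : (2 * H) ≠ 0 := by positivity
  rw [← mul_assoc, inv_mul_cancel₀ h2, one_mul]
  rfl

private theorem cob2_int {F : ℝ × ℝ → ℝ} (hF : Continuous F) : IntegrableOn F (Cel H) :=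
  hF.continuousOn.integrableOn_compact isCompact_Cel

private theorem cob2_int2 {F : ℝ × ℝ → ℂ} (hF : Continuous F) : IntegrableOn F (Cel H) :=
  hF.continuousOn.integrableOn_compact isCompact_Cel

/-- inner products of real functions -/
private theorem cob2_innerR {F G : ℝ × ℝ → ℝ} (hF : PY H F) (hG : PY H G) :
    ⟪(fH hF : HH H), fH hG⟫_ℂ = (((2 * H)⁻¹ * ∫ q in Cel H, F q * G q : ℝ) : ℂ) := by
  have h1 : ⟪(fH hF : HH H), fH hG⟫_ℂ = ⟪(fH hG : HH H), fH hF⟫_ℂ :=
    calc ⟪(fH hF : HH H), fH hG⟫_ℂ = ⟪(cjX (fH hF) : HH H), cjX (fH hG)⟫_ℂ := by rw [cj_fH, cj_fH]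
      _ = ⟪(fH hG : HH H), fH hF⟫_ℂ := (cjX_cnj (H := H)).inner (fH hF) (fH hG)
  have him : (⟪(fH hF : HH H), fH hG⟫_ℂ).im = 0 := by
    have h2 := congrArg Complex.im (inner_conj_symm (𝕜 := ℂ) (fH hF : HH H) (fH hG))
    rw [← h1, Complex.conj_im] at h2
    linarith
  have hre : (⟪(fH hF : HH H), fH hG⟫_ℂ).re = (2 * H)⁻¹ * ∫ q in Cel H, F q * G q := by
    rw [cob2_re, ← fH_add, cob2_norm, cob2_norm, cob2_norm]
    have c1 : Continuous fun q => F q ^ 2 := hF.smooth.continuous.pow 2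
    have c2 : Continuous fun q => G q ^ 2 := hG.smooth.continuous.pow 2
    have c3 : Continuous fun q => F q * G q := hF.smooth.continuous.mul hG.smooth.continuous
    have e1 : ∫ q in Cel H, (F q + G q) ^ 2 =
        (∫ q in Cel H, F q ^ 2) + (∫ q in Cel H, G q ^ 2) + 2 * ∫ q in Cel H, F q * G q := by
      have c12 : Continuous fun q => F q ^ 2 + G q ^ 2 := c1.add c2
      have c4 : Continuous fun q => 2 * (F q * G q) := continuous_const.mul c3
      rw [← integral_add (cob2_int c1) (cob2_int c2), ← integral_const_mul,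
        ← integral_add (cob2_int c12) (cob2_int c4)]
      refine integral_congr_ae (Eventually.of_forall fun q => ?_)
      simp only
      ring
    rw [e1]
    ring
  apply Complex.ext
  · rw [hre, Complex.ofReal_re]
  · rw [him, Complex.ofReal_im]

/-- **Parseval**, by polarisation of `Cel_parseval` (real and imaginary parts, `F + G`). -/
theorem inner_fHc (h : PC H θ) (h' : PC H η) :
    ⟪(fHc θ : HH H), fHc η⟫_ℂ = (2 * H : ℂ)⁻¹ * ∫ q in Cel H, (starRingEnd ℂ) (θ q) * η q := by
  rw [fHc_eq h, fHc_eq h', cob2_inner, cob2_innerR, cob2_innerR, cob2_innerR, cob2_innerR]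
  have c1 := cob2_cre h
  have c2 := cob2_cim h
  have c3 := cob2_cre h'
  have c4 := cob2_cim h'
  have e : ∫ q in Cel H, (starRingEnd ℂ) (θ q) * η q =
      ((∫ q in Cel H, (θ q).re * (η q).re : ℝ) : ℂ) + Complex.I * ((∫ q in Cel H, (θ q).re * (η q).im : ℝ) : ℂ) -
        Complex.I * ((∫ q in Cel H, (θ q).im * (η q).re : ℝ) : ℂ) +
        ((∫ q in Cel H, (θ q).im * (η q).im : ℝ) : ℂ) := by
    rw [← integral_complex_ofReal, ← integral_complex_ofReal, ← integral_complex_ofReal,
      ← integral_complex_ofReal, ← integral_const_mul, ← integral_const_mul]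
    have d1 : Continuous fun q => (((θ q).re * (η q).re : ℝ) : ℂ) :=
      Complex.continuous_ofReal.comp (c1.mul c3)
    have d2 : Continuous fun q => Complex.I * (((θ q).re * (η q).im : ℝ) : ℂ) :=
      continuous_const.mul (Complex.continuous_ofReal.comp (c1.mul c4))
    have d3 : Continuous fun q => Complex.I * (((θ q).im * (η q).re : ℝ) : ℂ) :=
      continuous_const.mul (Complex.continuous_ofReal.comp (c2.mul c3))
    have d4 : Continuous fun q => (((θ q).im * (η q).im : ℝ) : ℂ) :=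
      Complex.continuous_ofReal.comp (c2.mul c4)
    have d12 : Continuous fun q => (((θ q).re * (η q).re : ℝ) : ℂ) +
      Complex.I * (((θ q).re * (η q).im : ℝ) : ℂ) := d1.add d2
    have d123 : Continuous fun q => (((θ q).re * (η q).re : ℝ) : ℂ) +
      Complex.I * (((θ q).re * (η q).im : ℝ) : ℂ) - Complex.I * (((θ q).im * (η q).re : ℝ) : ℂ) :=
      d12.sub d3
    rw [← integral_add (cob2_int2 d1) (cob2_int2 d2), ← integral_sub (cob2_int2 d12) (cob2_int2 d3),
      ← integral_add (cob2_int2 d123) (cob2_int2 d4)]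
    refine integral_congr_ae (Eventually.of_forall fun q => ?_)
    apply Complex.ext
    · simp
    · simp
      ring
  rw [e]
  push_cast
  ring

theorem norm_fHc_sq (h : PC H θ) : ‖(fHc θ : HH H)‖ ^ 2 = (2 * H)⁻¹ * ∫ q in Cel H, ‖θ q‖ ^ 2 := by
  have h1 := inner_fHc h h
  rw [inner_self_eq_norm_sq_to_K] at h1
  have e : ∫ q in Cel H, (starRingEnd ℂ) (θ q) * θ q = ((∫ q in Cel H, ‖θ q‖ ^ 2 : ℝ) : ℂ) := by
    rw [← integral_complex_ofReal]
    refine integral_congr_ae (Eventually.of_forall fun q => ?_)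
    simp only
    rw [mul_comm, Complex.mul_conj, Complex.normSq_eq_norm_sq]
  rw [e] at h1
  apply Complex.ofReal_injective
  rw [Complex.ofReal_mul, Complex.ofReal_inv, Complex.ofReal_mul, Complex.ofReal_ofNat,
    Complex.ofReal_pow]
  exact h1

end

end Pool.Agent.Lib.MP_79abb3_an.PD
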