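import Pool.Agent.Lib.MP_79abb3_an.PD.CoB2

/-!
Theorem D, collar package: `B*`, the velocity of a stream function in modes.
-/

set_option autoImplicit false
set_option linter.unusedSectionVars false

open MeasureTheory Set Filter Topology Function
open scoped ENNReal InnerProductSpace ComplexConjugate

namespace Pool.Agent.Lib.MP_79abb3_an.PD

open Pool.Agent.Lib.MP_79abb3_an.SC Pool.Agent.Lib.MP_79abb3_an.P25

section
variable {H : ℝ} [hH : Fact (0 < H)] {θ η : ℝ × ℝ → ℂ} {F : ℝ × ℝ → ℝ}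

theorem fmc_yy (h : PC H θ) (n : ℤ) : (fmc (dYc θ) n : CI H) = kI (Real.pi / H) n • fmc θ n := by
  unfold fmc
  rw [show (fun q => (dYc θ q).re) = pY fun q => (θ q).re from funext h.yy_re,
    show (fun q => (dYc θ q).im) = pY fun q => (θ q).im from funext h.yy_im,
    fam_dy h.re, fam_dy h.im]
  refine ci_ext fun z _ => ?_
  rw [ex_add, ex_smul, ex_smul, ex_smul, ex_smul, ex_add, ex_smul]
  ring

theorem fmc_isD (h : PC H θ) (n : ℤ) : IsD (fmc θ n : CI H) (fmc (dZc θ) n) := by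
  unfold fmc
  rw [show (fun q => (dZc θ q).re) = pZ fun q => (θ q).re from funext h.zz_re,
    show (fun q => (dZc θ q).im) = pZ fun q => (θ q).im from funext h.zz_im]
  exact fun z hz => (fam_isD h.re n z hz).add ((fam_isD h.im n z hz).const_mul Complex.I)

/-- decay of the modes -/
theorem fmc_sum (h : PC H θ) (k : ℕ) : Summable fun n : ℤ => (1 + |(n:ℝ)|) ^ k * ‖(fmc θ n : CI H)‖ := by
  refine Summable.of_nonneg_of_le (fun n => by positivity) (fun n => ?_)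
    ((fam_sum h.re k).add (fam_sum h.im k))
  have h1 : ‖(fmc θ n : CI H)‖ ≤ ‖(fam (fun q => (θ q).re) n : CI H)‖ +
      ‖(fam (fun q => (θ q).im) n : CI H)‖ := by
    unfold fmc
    refine (norm_add_le _ _).trans (le_of_eq ?_)
    rw [norm_smul, Complex.norm_I, one_mul]
  rw [← mul_add]
  exact mul_le_mul_of_nonneg_left h1 (by positivity)

private theorem c3_bs (h : PC H θ) (n : ℤ) :
    (bsF (fun q => (θ q).re) n + Complex.I • bsF (fun q => (θ q).im) n : CI H) =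
      ka (Real.pi / H) n • fmc θ n + fmc (dZc θ) n := by
  unfold bsF fmc
  rw [show (fun q => (dZc θ q).re) = pZ fun q => (θ q).re from funext h.zz_re,
    show (fun q => (dZc θ q).im) = pZ fun q => (θ q).im from funext h.zz_im]
  refine ci_ext fun z _ => ?_
  simp only [ex_add, ex_smul]
  ring

theorem bHc_apply (h : PC H θ) (n : ℤ) : bHc θ n =
    (iota (ka (Real.pi / H) n • fmc θ n + fmc (dZc θ) n : CI H) : Z2 H) := by
  rw [bHc_eq h, lp.coeFn_add, Pi.add_apply, lp.coeFn_smul, Pi.smul_apply, bsH_apply, bsH_apply,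
    ← map_smul, ← map_add, c3_bs h n]

/-- Functions which vanish near `z = H`. -/
def VanC (H : ℝ) (θ : ℝ × ℝ → ℂ) : Prop := ∃ ε > 0, ∀ y z, H - ε ≤ z → θ (y, z) = 0

/-- Functions which do not depend on `(y,z)` near `z = 0`. -/
def ConC (θ : ℝ × ℝ → ℂ) : Prop := ∃ ε > 0, ∃ a : ℂ, ∀ y z, 0 ≤ z → z < ε → θ (y, z) = a

private theorem c3_vre (ht : VanC H θ) : VanT H fun q => (θ q).re := by
  obtain ⟨ε, hε, h1⟩ := ht
  exact ⟨ε, hε, fun y z hz => by show (θ (y, z)).re = 0; rw [h1 y z hz]; rfl⟩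

private theorem c3_vim (ht : VanC H θ) : VanT H fun q => (θ q).im := by
  obtain ⟨ε, hε, h1⟩ := ht
  exact ⟨ε, hε, fun y z hz => by show (θ (y, z)).im = 0; rw [h1 y z hz]; rfl⟩

private theorem c3_topz (h : PC H θ) (ht : VanC H θ) (n : ℤ) : ex (fmc θ n : CI H) H = 0 := by
  unfold fmc
  rw [ex_add, ex_smul, (c3_vre ht).fam h.re.smooth.continuous n,
    (c3_vim ht).fam h.im.smooth.continuous n, mul_zero, add_zero]

private theorem c3_zero (hF : Continuous F) (hc : ∀ y, F (y, 0) = 0) (n : ℤ) :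
    ex (fam F n : CI H) 0 = 0 := by
  rw [ex_fam hF n zero_memI, fco]
  simp only [hc, Complex.ofReal_zero, zero_mul, intervalIntegral.integral_zero, mul_zero]

private theorem c3_zeroC (h : PC H θ) (h0 : ∀ y, θ (y, 0) = 0) (n : ℤ) :
    ex (fmc θ n : CI H) 0 = 0 := by
  unfold fmc
  rw [ex_add, ex_smul,
    c3_zero h.re.smooth.continuous (fun y => by show (θ (y, 0)).re = 0; rw [h0 y]; rfl) n,
    c3_zero h.im.smooth.continuous (fun y => by show (θ (y, 0)).im = 0; rw [h0 y]; rfl) n,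
    mul_zero, add_zero]

private theorem c3_const (hF : Continuous F) {c : ℝ} (hc : ∀ y, F (y, 0) = c) {n : ℤ}
    (hn : n ≠ 0) : ex (fam F n : CI H) 0 = 0 := by
  have hg : Continuous fun _ : ℝ => c := continuous_const
  have hg2 : Continuous fun p : ℝ × ℝ => (fun _ : ℝ => c) p.2 := continuous_const
  have h1 : ex (fam F n : CI H) 0 = ex (fam (fun p : ℝ × ℝ => (fun _ : ℝ => c) p.2) n : CI H) 0 := by
    rw [ex_fam hF n zero_memI, ex_fam hg2 n zero_memI, fco, fco]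
    congr 1
    refine intervalIntegral.integral_congr fun y _ => ?_
    show ((F (y, 0) : ℝ) : ℂ) * _ = _
    rw [hc y]
  rw [h1, fam_z hg, if_neg hn, ex_zero]

private theorem c3_constC (h : PC H θ) (hc : ConC θ) {n : ℤ} (hn : n ≠ 0) :
    ex (fmc θ n : CI H) 0 = 0 := by
  obtain ⟨ε, hε, a, ha⟩ := hc
  unfold fmc
  rw [ex_add, ex_smul,
    c3_const h.re.smooth.continuous (c := a.re)
      (fun y => by show (θ (y, 0)).re = a.re; rw [ha y 0 le_rfl hε]) hn,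
    c3_const h.im.smooth.continuous (c := a.im)
      (fun y => by show (θ (y, 0)).im = a.im; rw [ha y 0 le_rfl hε]) hn, mul_zero, add_zero]

private theorem c3_ka (h : PC H θ) (hc : ConC θ) (n : ℤ) :
    ka (Real.pi / H) n * ex (fmc θ n : CI H) 0 = 0 := by
  by_cases hn : n = 0
  · rw [hn, ka, Int.cast_zero, mul_zero, abs_zero, Complex.ofReal_zero, zero_mul]
  · rw [c3_constC h hc hn, mul_zero]

private theorem c3_kI (h : PC H θ) (hc : ConC θ) (n : ℤ) :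
    kI (Real.pi / H) n * ex (fmc θ n : CI H) 0 = 0 := by
  by_cases hn : n = 0
  · rw [hn, kI, Int.cast_zero, mul_zero, Complex.ofReal_zero, mul_zero, zero_mul]
  · rw [c3_constC h hc hn, mul_zero]

private theorem c3_dz0 (h : PC H θ) (hc : ConC θ) (y : ℝ) : dZc θ (y, 0) = 0 := by
  obtain ⟨ε, hε, a, ha⟩ := hc
  have h1 : HasFDerivAt θ (fderiv ℝ θ (y, 0)) (y, 0) :=
    (h.smooth.differentiable (by simp) (y, 0)).hasFDerivAt
  have h2 : HasDerivAt (fun z : ℝ => ((y, z) : ℝ × ℝ)) (0, 1) 0 :=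
    (hasDerivAt_const (0:ℝ) y).prodMk (hasDerivAt_id 0)
  have h3 : HasDerivAt (fun z : ℝ => θ (y, z)) (dZc θ (y, 0)) 0 := h1.comp_hasDerivAt (0:ℝ) h2
  have h4 : HasDerivWithinAt (fun z : ℝ => θ (y, z)) 0 (Ici 0) 0 := by
    have h5 : (fun z : ℝ => θ (y, z)) =ᶠ[𝓝[Ici 0] 0] fun _ => a := by
      filter_upwards [Ico_mem_nhdsGE hε] with z hz
      exact ha y z hz.1 hz.2
    exact (hasDerivWithinAt_const (0:ℝ) (Ici 0) a).congr_of_eventuallyEq h5 (ha y 0 le_rfl hε)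
  exact (uniqueDiffWithinAt_Ici (0:ℝ)).eq_deriv _ h3.hasDerivWithinAt h4

/-- `T (-Δθ) = B* θ` -/
theorem Vf_ll (h : PC H θ) (ht : VanC H θ) (n : ℤ) :
    Vf (Real.pi / H) (fHc (dLc θ)) n = (ka (Real.pi / H) n • fmc θ n + fmc (dZc θ) n : CI H) := by
  have e1 : (fHc (dLc θ) : HH H) n = fH h.re.lapN n + Complex.I • fH h.im.lapN n := by
    rw [fHc_apply h.ll, fH_apply, fH_apply, ← map_smul, ← map_add]
    unfold fmc
    rw [show (fun q => (dLc θ q).re) = lapN fun q => (θ q).re from funext h.ll_re,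
      show (fun q => (dLc θ q).im) = lapN fun q => (θ q).im from funext h.ll_im]
  show Tz (Real.pi / H * n) ((fHc (dLc θ) : HH H) n) = _
  rw [e1, map_add, map_smul, Tz_lapN h.re (c3_vre ht), Tz_lapN h.im (c3_vim ht)]
  exact c3_bs h n

theorem TT_ll (h : PC H θ) (ht : VanC H θ) : TT (Real.pi / H) (fHc (dLc θ)) = (bHc θ : HH H) := by
  refine lp.ext (funext fun n => ?_)
  rw [SC.TT_apply, T2_apply, bHc_apply h, ← Vf_ll h ht]
  rfl

/-- The trace of `T (-Δθ)` at `z = 0` vanishes if `θ` is constant near `z = 0` (`P2_iff`, `Vf_ll`: `|k_n| θ_n(0) + θ_n'(0)`, and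
`θ_n(0) = 0` for `n ≠ 0`). -/
theorem PP_ll (h : PC H θ) (ht : VanC H θ) (hc : ConC θ) :
    PP (Real.pi / H) (fHc (dLc θ)) = (fHc (dLc θ) : HH H) := by
  refine lp.ext (funext fun n => ?_)
  rw [PP_apply, P2_iff]
  have e : Tz (Real.pi / H * n) ((fHc (dLc θ) : HH H) n) =
      (ka (Real.pi / H) n • fmc θ n + fmc (dZc θ) n : CI H) := Vf_ll h ht n
  rw [e, ex_add, ex_smul, c3_ka h hc n, c3_zeroC h.zz (c3_dz0 h hc) n, add_zero]

private theorem c3_z (g : CI H) : (0:ℂ) • g = 0 :=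
  ci_ext fun z _ => by rw [ex_smul, zero_mul]; rfl

private theorem c3_Ez (h : PC H θ) (ht : VanC H θ) (n : ℤ) :
    Ez (Real.pi / H * n) (iota (Vf (Real.pi / H) (fHc (dLc θ)) n)) =
      (fmc θ n - ex (fmc θ n : CI H) 0 • fe (-|Real.pi / H * n|) : CI H) := by
  rw [Vf_ll h ht]
  exact Ez_bs (Real.pi / H * n) (fmc_isD h n)

/-- **The velocity of `-Δθ` is `(θ_z, -θ_y)`** (`Ez_bs`: `E (B* θ) = θ - e^{-|k|z} θ(0)`). -/
theorem uV_ll (h : PC H θ) (ht : VanC H θ) (hc : ConC θ) (n : ℤ) :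
    uV (Real.pi / H) (Vf (Real.pi / H) (fHc (dLc θ))) n = (fmc (dZc θ) n : CI H) := by
  unfold uV
  rw [c3_Ez h ht, Vf_ll h ht, smul_sub, smul_smul, c3_ka h hc n, c3_z, sub_zero]
  abel

theorem wV_ll (h : PC H θ) (ht : VanC H θ) (hc : ConC θ) (n : ℤ) :
    wV (Real.pi / H) (Vf (Real.pi / H) (fHc (dLc θ))) n = (-(fmc (dYc θ) n) : CI H) := by
  unfold wV
  rw [c3_Ez h ht, fmc_yy h, smul_sub, smul_smul, neg_mul, c3_kI h hc n, neg_zero, c3_z,
    sub_zero, neg_smul]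

/-- `E (B* θ) = θ` if `θ(y,0) = 0`. -/
theorem EE_bHc (h : PC H θ) (h0 : ∀ y, θ (y, 0) = 0) : EE (Real.pi / H) (bHc θ) = (fHc θ : HH H) := by
  refine lp.ext (funext fun n => ?_)
  have e : Ez (Real.pi / H * n) (iota (ka (Real.pi / H) n • fmc θ n + fmc (dZc θ) n)) =
      (fmc θ n - ex (fmc θ n : CI H) 0 • fe (-|Real.pi / H * n|) : CI H) :=
    Ez_bs (Real.pi / H * n) (fmc_isD h n)
  rw [c3_zeroC h h0 n, c3_z, sub_zero] at e
  rw [EE_apply, E2_apply, bHc_apply h, fHc_apply h, e]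

private theorem c3_int (h : PC H θ) : ∫ q in Cel H, (‖dYc θ q‖ ^ 2 + ‖dZc θ q‖ ^ 2) =
    (∫ q in Cel H, ‖dYc θ q‖ ^ 2) + ∫ q in Cel H, ‖dZc θ q‖ ^ 2 := by
  have i1 : IntegrableOn (fun q => ‖dYc θ q‖ ^ 2) (Cel H) :=
    (h.yy.smooth.continuous.norm.pow 2).continuousOn.integrableOn_compact isCompact_Cel
  have i2 : IntegrableOn (fun q => ‖dZc θ q‖ ^ 2) (Cel H) :=
    (h.zz.smooth.continuous.norm.pow 2).continuousOn.integrableOn_compact isCompact_Cel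
  exact integral_add i1 i2

private theorem c3_ny (h : PC H θ) (n : ℤ) : ‖(iota (fmc (dYc θ) n : CI H) : Z2 H)‖ =
    |Real.pi / H * n| * ‖(iota (fmc θ n : CI H) : Z2 H)‖ := by
  rw [fmc_yy h, map_smul, norm_smul, norm_kI]

/-- `2H |B* θ|² = ∫ |∇θ|²` if `θ` is constant near `z = 0` and vanishes near `z = H` (modes:
`∫ (| |k| θ_n + θ_n' |² - |k|² |θ_n|² - |θ_n'|²) = |k| [|θ_n|²]_0^H = 0`). -/
theorem norm_bHc_sq (h : PC H θ) (ht : VanC H θ) (hc : ConC θ) :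
    ‖(bHc θ : HH H)‖ ^ 2 = (2 * H)⁻¹ * ∫ q in Cel H, (‖dYc θ q‖ ^ 2 + ‖dZc θ q‖ ^ 2) := by
  rw [c3_int h, mul_add, ← norm_fHc_sq h.yy, ← norm_fHc_sq h.zz, l2_norm_sq, l2_norm_sq,
    l2_norm_sq, ← (l2_summable _).tsum_add (l2_summable _)]
  refine tsum_congr fun n => ?_
  rw [bHc_apply h, fHc_apply h.yy, fHc_apply h.zz, c3_ny h n]
  have e := (IsD.dz (fmc_isD h n)).energy |Real.pi / H * n|
    (g := (iota (ka (Real.pi / H) n • fmc θ n + fmc (dZc θ) n : CI H) : Z2 H))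
    (by rw [map_add, map_smul, add_comm]; rfl)
  rw [e, c3_topz h ht n, norm_zero]
  have e2 : |Real.pi / H * n| * ‖ex (fmc θ n : CI H) 0‖ = 0 := by
    have := congrArg norm (c3_ka h hc n)
    rwa [norm_mul, norm_ka, norm_zero] at this
  have e3 : |Real.pi / H * n| * (0 ^ 2 - ‖ex (fmc θ n : CI H) 0‖ ^ 2) = 0 := by
    have : |Real.pi / H * n| * (0 ^ 2 - ‖ex (fmc θ n : CI H) 0‖ ^ 2) =
      -((|Real.pi / H * n| * ‖ex (fmc θ n : CI H) 0‖) * ‖ex (fmc θ n : CI H) 0‖) := by ring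
    rw [this, e2, zero_mul, neg_zero]
  rw [e3, mul_pow]
  ring

private theorem c3_alg {x a b : ℝ} (hx : 0 ≤ x) (h : x ≤ a + b) :
    x ^ 2 ≤ 2 * (a ^ 2 + b ^ 2) := by
  nlinarith [sq_nonneg (a - b)]

theorem norm_bHc_le (h : PC H θ) :
    ‖(bHc θ : HH H)‖ ^ 2 ≤ H⁻¹ * ∫ q in Cel H, (‖dYc θ q‖ ^ 2 + ‖dZc θ q‖ ^ 2) := by
  have e0 : H⁻¹ * ∫ q in Cel H, (‖dYc θ q‖ ^ 2 + ‖dZc θ q‖ ^ 2) =
      2 * ((2 * H)⁻¹ * ∫ q in Cel H, (‖dYc θ q‖ ^ 2 + ‖dZc θ q‖ ^ 2)) := by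
    rw [mul_inv]; ring
  rw [e0, c3_int h, mul_add, ← norm_fHc_sq h.yy, ← norm_fHc_sq h.zz, l2_norm_sq, l2_norm_sq,
    l2_norm_sq, ← (l2_summable _).tsum_add (l2_summable _), ← tsum_mul_left]
  refine (l2_summable _).tsum_le_tsum (fun n => ?_)
    (((l2_summable _).add (l2_summable _)).mul_left 2)
  rw [bHc_apply h, fHc_apply h.yy, fHc_apply h.zz, c3_ny h n, map_add, map_smul]
  have h4 := norm_add_le (ka (Real.pi / H) n • (iota (fmc θ n : CI H) : Z2 H))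
    (iota (fmc (dZc θ) n : CI H))
  rw [norm_smul, norm_ka] at h4
  exact c3_alg (norm_nonneg _) h4

/-- `⟨g, θ⟩ = ⟨T g, B* θ⟩` if the trace of `T g` at `z = 0` vanishes. -/
theorem inner_bHc (h : PC H θ) {g : HH H} (hg : PP (Real.pi / H) g = g) :
    ⟪g, (fHc θ : HH H)⟫_ℂ = ⟪TT (Real.pi / H) g, bHc θ⟫_ℂ := by
  rw [fHc_eq h, bHc_eq h, inner_add_right, inner_add_right, inner_smul_right, inner_smul_right,
    inner_bsH h.re hg, inner_bsH h.im hg]

/-- the same for functions with `θ(y,0) = 0` and all `g` -/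
theorem inner_bHc0 (h : PC H θ) (h0 : ∀ y, θ (y, 0) = 0) (g : HH H) :
    ⟪g, (fHc θ : HH H)⟫_ℂ = ⟪TT (Real.pi / H) g, bHc θ⟫_ℂ := by
  rw [← EE_bHc h h0, inner_TT]

end

end Pool.Agent.Lib.MP_79abb3_an.PD
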