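import Pool.Agent.Lib.MP_79abb3_an.PD.CoB2

/-!
Theorem D, collar package: density of test functions, Poincaré inequality from the wall.
-/

set_option autoImplicit false
set_option linter.unusedSectionVars false

open MeasureTheory Set Filter Topology Function
open scoped ENNReal InnerProductSpace ComplexConjugate

namespace Pool.Agent.Lib.MP_79abb3_an.PD

open Pool.Agent.Lib.MP_79abb3_an.SC Pool.Agent.Lib.MP_79abb3_an.P25

section
variable {H : ℝ} [hH : Fact (0 < H)] {θ η : ℝ × ℝ → ℂ} {F : ℝ × ℝ → ℝ}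

/-! ### orthogonality of the exponentials -/

private theorem cob4_per {ω : ℝ} (hω : ω * H = Real.pi) (n : ℤ) (y : ℝ) :
    ee ω n (y + 2 * H) = ee ω n y := by
  unfold ee
  rw [Complex.exp_eq_exp_iff_exists_int]
  refine ⟨n, ?_⟩
  have h1 : (ω : ℂ) * (H : ℂ) = (Real.pi : ℂ) := by
    rw [← Complex.ofReal_mul, hω]
  push_cast
  rw [← h1]
  ring

private theorem cob4_int {ω : ℝ} (hω : ω * H = Real.pi) (k : ℤ) :
    ∫ y in (-H)..H, ee ω k y = if k = 0 then (2 * H : ℂ) else 0 := by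
  have hH0 := hH.out
  by_cases hk : k = 0
  · rw [if_pos hk, hk]
    have h1 : ∀ y : ℝ, ee ω 0 y = 1 := by
      intro y
      unfold ee
      simp
    simp only [h1]
    rw [intervalIntegral.integral_const]
    simp
    ring
  · rw [if_neg hk]
    have hω0 : ω ≠ 0 := by
      rintro rfl
      rw [zero_mul] at hω
      exact Real.pi_ne_zero hω.symm
    have hc : Complex.I * ((ω * k : ℝ) : ℂ) ≠ 0 := by
      apply mul_ne_zero Complex.I_ne_zero
      rw [Complex.ofReal_ne_zero]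
      exact mul_ne_zero hω0 (by exact_mod_cast hk)
    have h1 : ∀ y : ℝ, ee ω k y = Complex.exp ((Complex.I * ((ω * k : ℝ) : ℂ)) * y) := by
      intro y
      unfold ee
      congr 1
      push_cast
      ring
    simp only [h1]
    rw [integral_exp_mul_complex hc]
    have h2 : Complex.exp (Complex.I * ((ω * k : ℝ) : ℂ) * ((H : ℝ) : ℂ)) =
        Complex.exp (Complex.I * ((ω * k : ℝ) : ℂ) * ((-H : ℝ) : ℂ)) := by
      rw [← h1 H, ← h1 (-H), ← cob4_per hω k (-H)]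
      congr 1
      ring
    rw [h2, sub_self, zero_div]

private theorem cob4_ee_add (ω : ℝ) (a b : ℤ) (y : ℝ) : ee ω (a + b) y = ee ω a y * ee ω b y := by
  unfold ee
  rw [← Complex.exp_add]
  congr 1
  push_cast
  ring

/-- `χ(z) exp (i ω n y)` -/
private noncomputable def cob4_th (ω : ℝ) (χ : ℝ → ℝ) (n : ℤ) (q : ℝ × ℝ) : ℂ :=
  ⟨χ q.2 * Real.cos (ω * n * q.1), χ q.2 * Real.sin (ω * n * q.1)⟩

private theorem cob4_th_pc {ω : ℝ} (hω : ω * H = Real.pi) {χ : ℝ → ℝ}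
    (hχ : ContDiff ℝ ((⊤ : ℕ∞) : WithTop ℕ∞) χ) (n : ℤ) : PC H (cob4_th ω χ n) :=
  ⟨(PY.of_z H hχ).mul (PY.cos hω n), (PY.of_z H hχ).mul (PY.sin hω n)⟩

private theorem cob4_th_eq (ω : ℝ) (χ : ℝ → ℝ) (n : ℤ) (y z : ℝ) :
    ((((cob4_th ω χ n (y, z)).re : ℝ) : ℂ)) + Complex.I * (((cob4_th ω χ n (y, z)).im : ℝ) : ℂ) =
      ((χ z : ℝ) : ℂ) * ee ω n y := by
  unfold cob4_th ee
  simp only
  rw [mul_comm Complex.I (((ω * n * y : ℝ)) : ℂ), Complex.exp_mul_I, ← Complex.ofReal_cos,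
    ← Complex.ofReal_sin]
  push_cast
  ring

private theorem cob4_fmc {ω : ℝ} (hω : ω * H = Real.pi) {χ : ℝ → ℝ}
    (hχ : ContDiff ℝ ((⊤ : ℕ∞) : WithTop ℕ∞) χ) (n m : ℤ) {z : ℝ} (hz : z ∈ Icc (0:ℝ) H) :
    ex (fmc (cob4_th ω χ n) m : CI H) z = if m = n then ((χ z : ℝ) : ℂ) else 0 := by
  have hH0 := hH.out
  have hp := cob4_th_pc hω hχ n
  have hc1 := hp.re.smooth.continuous
  have hc2 := hp.im.smooth.continuous
  have hω' : Real.pi / H = ω := by
    rw [← hω]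
    exact mul_div_cancel_right₀ ω hH0.ne'
  have hH1 : (2 * H : ℂ) ≠ 0 := by
    have : (2 * H : ℝ) ≠ 0 := by positivity
    exact_mod_cast this
  have i1 : IntervalIntegrable (fun y : ℝ => (((cob4_th ω χ n (y, z)).re : ℝ) : ℂ) *
      star (ee (Real.pi / H) m y)) volume (-H) H := (fo_continuous_y hc1 _ m z).intervalIntegrable _ _
  have i2 : IntervalIntegrable (fun y : ℝ => Complex.I * ((((cob4_th ω χ n (y, z)).im : ℝ) : ℂ) *
      star (ee (Real.pi / H) m y))) volume (-H) H :=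
    (continuous_const.mul (fo_continuous_y hc2 _ m z)).intervalIntegrable _ _
  unfold fmc
  rw [ex_add, ex_smul, ex_fam hc1 m hz, ex_fam hc2 m hz, fco, fco, mul_left_comm, ← mul_add,
    ← intervalIntegral.integral_const_mul, ← intervalIntegral.integral_add i1 i2]
  have h1 : ∀ y : ℝ, (((cob4_th ω χ n (y, z)).re : ℝ) : ℂ) * star (ee (Real.pi / H) m y) +
      Complex.I * ((((cob4_th ω χ n (y, z)).im : ℝ) : ℂ) * star (ee (Real.pi / H) m y)) =
      ((χ z : ℝ) : ℂ) * ee ω (n + -m) y := by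
    intro y
    rw [← mul_assoc, ← add_mul, cob4_th_eq, hω', ← fo_ee_neg, cob4_ee_add, mul_assoc]
  simp only [h1]
  rw [intervalIntegral.integral_const_mul, cob4_int hω]
  by_cases hm : m = n
  · rw [if_pos hm, if_pos (by omega)]
    push_cast
    rw [mul_left_comm, inv_mul_cancel₀ hH1, mul_one]
  · rw [if_neg hm, if_neg (by omega), mul_zero, mul_zero]

private theorem cob4_inner {ω : ℝ} (hω : ω * H = Real.pi) {χ : ℝ → ℝ}
    (hχ : ContDiff ℝ ((⊤ : ℕ∞) : WithTop ℕ∞) χ) (n : ℤ) (g : HH H) :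
    ⟪(fHc (cob4_th ω χ n) : HH H), g⟫_ℂ = ∫ z, χ z • (g n : Z2 H) z ∂(mH H) := by
  have hp := cob4_th_pc hω hχ n
  rw [lp.inner_eq_tsum, tsum_eq_single n]
  · rw [fHc_apply hp, inner_Z2, intervalIntegral.integral_of_le hH.out.le]
    refine integral_congr_ae ?_
    filter_upwards [coe_iota (fmc (cob4_th ω χ n) n : CI H), ae_restrict_mem measurableSet_Ioc]
      with z hz hz2
    rw [hz, cob4_fmc hω hχ n n ⟨hz2.1.le, hz2.2⟩, if_pos rfl, Complex.real_smul]
    congr 1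
    exact Complex.conj_ofReal _
  · intro m hm
    have h0 : (fmc (cob4_th ω χ n) m : CI H) = 0 := by
      refine ci_ext fun z hz => ?_
      rw [cob4_fmc hω hχ n m hz, if_neg hm, ex_zero]
    rw [fHc_apply hp, h0, map_zero, inner_zero_left]

private theorem cob4_supp {χ : ℝ → ℝ} (hc : HasCompactSupport χ) {e1 e2 : ℝ} (h : e1 < e2)
    (hs : tsupport χ ⊆ Ioo e1 e2) : ∃ e e', e1 < e ∧ e' < e2 ∧ (∀ z, z < e → χ z = 0) ∧
      ∀ z, e' < z → χ z = 0 := by
  have hK : IsCompact (tsupport χ) := hc.isCompact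
  rcases (tsupport χ).eq_empty_or_nonempty with h0 | h0
  · have h1 : ∀ z, χ z = 0 := fun z => image_eq_zero_of_notMem_tsupport (by rw [h0]; exact notMem_empty z)
    exact ⟨(e1 + e2) / 2, (e1 + e2) / 2, by linarith, by linarith, fun z _ => h1 z, fun z _ => h1 z⟩
  · refine ⟨sInf (tsupport χ), sSup (tsupport χ), (hs (hK.sInf_mem h0)).1, (hs (hK.sSup_mem h0)).2,
      fun z hz => ?_, fun z hz => ?_⟩
    · refine image_eq_zero_of_notMem_tsupport fun h2 => ?_
      exact absurd (csInf_le hK.bddBelow h2) (not_le.2 hz)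
    · refine image_eq_zero_of_notMem_tsupport fun h2 => ?_
      exact absurd (le_csSup hK.bddAbove h2) (not_le.2 hz)

/-- **Density of the test functions** in `HH` (in the part `e₁ ≤ z ≤ e₂`, cf. `iota_dense`): if `g` is orthogonal to all
`θ = χ(z) exp (i π n y/H)`, `χ ∈ C_c^∞(e₁,e₂)`, then `Ms m g = 0` for all `m` supported in `[e₁,e₂]`. -/
theorem fHc_dense {g : HH H} {e1 e2 : ℝ} (h1 : 0 ≤ e1) (h2 : e1 < e2) (h3 : e2 ≤ H)
    (hg : ∀ e e' θ, e1 < e → e' < e2 → TfS H e e' θ → ⟪(fHc θ : HH H), g⟫_ℂ = 0) {m : CI H}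
    (hm : ∀ z ∈ Icc (0:ℝ) H, z ≤ e1 ∨ e2 ≤ z → ex m z = 0) : Ms m g = 0 := by
  have hH0 := hH.out
  have hω : Real.pi / H * H = Real.pi := div_mul_cancel₀ _ hH0.ne'
  have key : ∀ n : ℤ, ∀ᵐ z ∂(mH H), z ∈ Ioo e1 e2 → (g n : Z2 H) z = 0 := by
    intro n
    have hi : Integrable (g n : Z2 H) (mH H) := (Lp.memLp (g n)).integrable (by norm_num)
    refine isOpen_Ioo.ae_eq_zero_of_integral_contDiff_smul_eq_zero
      (hi.locallyIntegrable.locallyIntegrableOn _) fun χ hχ hc hs => ?_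
    obtain ⟨e, e', he, he', hl, hu⟩ := cob4_supp hc h2 hs
    rw [← cob4_inner hω hχ n g]
    refine hg e e' _ he he' ⟨cob4_th_pc hω hχ n, fun y z hz => ?_, fun y z hz => ?_⟩
    · unfold cob4_th
      rw [hl z hz, zero_mul, zero_mul]
      rfl
    · unfold cob4_th
      rw [hu z hz, zero_mul, zero_mul]
      rfl
  refine lp.ext (funext fun n => ?_)
  rw [Ms_apply]
  refine Z2_ext ?_
  filter_upwards [coe_mz m (g n), key n, ae_restrict_mem measurableSet_Ioc, Lp.coeFn_zero ℂ 2 (mH H)]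
    with z z1 z2 z3 z4
  rw [z1]
  refine Eq.trans ?_ z4.symm
  rw [Pi.zero_apply]
  by_cases hz : z ∈ Ioo e1 e2
  · rw [z2 hz, mul_zero]
  · have : z ≤ e1 ∨ e2 ≤ z := by
      by_contra hcon
      rw [not_or, not_le, not_le] at hcon
      exact hz hcon
    rw [hm z ⟨z3.1.le, z3.2⟩ this, zero_mul]

/-! ### the Poincaré inequality -/

private theorem cob4_cs {u : ℝ → ℝ} (hu : Continuous u) {z : ℝ} (hz : 0 ≤ z) :
    (∫ s in (0:ℝ)..z, u s) ^ 2 ≤ z * ∫ s in (0:ℝ)..z, u s ^ 2 := by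
  rcases hz.eq_or_lt with h | h
  · subst h
    simp
  · set I := ∫ s in (0:ℝ)..z, u s with hI
    set m := I / z with hm
    have h1 : 0 ≤ ∫ s in (0:ℝ)..z, (u s - m) ^ 2 :=
      intervalIntegral.integral_nonneg hz fun s _ => sq_nonneg _
    have h2 : ∫ s in (0:ℝ)..z, (u s - m) ^ 2 = (∫ s in (0:ℝ)..z, u s ^ 2) - 2 * m * I + m ^ 2 * z := by
      have e1 : (fun s => (u s - m) ^ 2) = fun s => (u s ^ 2 - 2 * m * u s) + m ^ 2 := by
        funext s
        ring
      rw [e1, intervalIntegral.integral_add, intervalIntegral.integral_sub,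
        intervalIntegral.integral_const_mul, intervalIntegral.integral_const, smul_eq_mul, sub_zero,
        ← hI, mul_comm z]
      · exact (hu.pow 2).intervalIntegrable _ _
      · exact (continuous_const.mul hu).intervalIntegrable _ _
      · exact ((hu.pow 2).sub (continuous_const.mul hu)).intervalIntegrable _ _
      · exact continuous_const.intervalIntegrable _ _
    rw [h2] at h1
    have h3 : I = m * z := by
      rw [hm, div_mul_cancel₀ _ h.ne']
    set J := ∫ s in (0:ℝ)..z, u s ^ 2 with hJ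
    have h4 : 0 ≤ J - m ^ 2 * z := by
      have e2 : J - 2 * m * I + m ^ 2 * z = J - m ^ 2 * z := by
        rw [h3]; ring
      rwa [e2] at h1
    calc I ^ 2 = z * (m ^ 2 * z) := by rw [h3]; ring
      _ ≤ z * J := mul_le_mul_of_nonneg_left (by linarith) hz

private theorem cob4_one {f g : ℝ → ℂ} (hg : Continuous g) (hf : ∀ z, HasDerivAt f (g z) z)
    (h0 : f 0 = 0) {e : ℝ} (he : 0 < e) :
    ∫ z in (0:ℝ)..e, ‖f z‖ ^ 2 ≤ e ^ 2 * ∫ z in (0:ℝ)..e, ‖g z‖ ^ 2 := by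
  have hfc : Continuous f := continuous_iff_continuousAt.2 fun z => (hf z).continuousAt
  have hgn : Continuous fun z => ‖g z‖ := hg.norm
  have h1 : ∀ z ∈ Icc (0:ℝ) e, ‖f z‖ ^ 2 ≤ e * ∫ s in (0:ℝ)..e, ‖g s‖ ^ 2 := by
    intro z hz
    have e1 : ∫ s in (0:ℝ)..z, g s = f z - f 0 :=
      intervalIntegral.integral_eq_sub_of_hasDerivAt (fun x _ => hf x) (hg.intervalIntegrable _ _)
    rw [h0, sub_zero] at e1
    have e2 : ‖f z‖ ≤ ∫ s in (0:ℝ)..z, ‖g s‖ := by
      rw [← e1]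
      exact intervalIntegral.norm_integral_le_integral_norm hz.1
    have e3 : ∫ s in (0:ℝ)..z, ‖g s‖ ^ 2 ≤ ∫ s in (0:ℝ)..e, ‖g s‖ ^ 2 :=
      intervalIntegral.integral_mono_interval le_rfl hz.1 hz.2
        (Eventually.of_forall fun s => by positivity) ((hgn.pow 2).intervalIntegrable _ _)
    have e4 : 0 ≤ ∫ s in (0:ℝ)..z, ‖g s‖ ^ 2 :=
      intervalIntegral.integral_nonneg hz.1 fun s _ => by positivity
    calc ‖f z‖ ^ 2 ≤ (∫ s in (0:ℝ)..z, ‖g s‖) ^ 2 := pow_le_pow_left₀ (norm_nonneg _) e2 2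
      _ ≤ z * ∫ s in (0:ℝ)..z, ‖g s‖ ^ 2 := cob4_cs hgn hz.1
      _ ≤ e * ∫ s in (0:ℝ)..e, ‖g s‖ ^ 2 := mul_le_mul hz.2 e3 e4 he.le
  have h2 : ∫ z in (0:ℝ)..e, ‖f z‖ ^ 2 ≤ ∫ _z in (0:ℝ)..e, e * ∫ s in (0:ℝ)..e, ‖g s‖ ^ 2 :=
    intervalIntegral.integral_mono_on he.le ((hfc.norm.pow 2).intervalIntegrable _ _)
      (continuous_const.intervalIntegrable _ _) h1
  refine h2.trans (le_of_eq ?_)
  rw [intervalIntegral.integral_const, sub_zero, smul_eq_mul]
  ring

/-- **Poincaré inequality** from the wall: for `θ` with `θ(y,z) = a` near `z = 0` and `0 < e`: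
`∫_{0<z<e} |θ - a|² ≤ e² ∫_{0<z<e} |θ_z|²`. -/
theorem wall_poinc (h : PC H θ) {a : ℂ} (ha : ∃ ε > 0, ∀ y z, 0 ≤ z → z < ε → θ (y, z) = a) {e : ℝ} (he : 0 < e) :
    ∫ q in Rc H e, ‖θ q - a‖ ^ 2 ≤ e ^ 2 * ∫ q in Rc H e, ‖dZc θ q‖ ^ 2 := by
  obtain ⟨ε, hε, ha⟩ := ha
  have hs := h.smooth
  have hzc : Continuous (dZc θ) := h.zz.smooth.continuous
  have hder : ∀ y z, HasDerivAt (fun z => θ (y, z) - a) (dZc θ (y, z)) z := by
    intro y z
    have h1 : HasFDerivAt θ (fderiv ℝ θ (y, z)) (y, z) :=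
      (hs.differentiable (by simp)).differentiableAt.hasFDerivAt
    have h2 : HasDerivAt (fun z : ℝ => (y, z)) ((0:ℝ), (1:ℝ)) z :=
      (hasDerivAt_const z y).prodMk (hasDerivAt_id z)
    exact (h1.comp_hasDerivAt z h2).sub_const a
  have hone : ∀ y, ∫ z in Ioo 0 e, ‖θ (y, z) - a‖ ^ 2 ≤ e ^ 2 * ∫ z in Ioo 0 e, ‖dZc θ (y, z)‖ ^ 2 := by
    intro y
    rw [← integral_Ioc_eq_integral_Ioo, ← integral_Ioc_eq_integral_Ioo,
      ← intervalIntegral.integral_of_le he.le, ← intervalIntegral.integral_of_le he.le]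
    exact cob4_one (hzc.comp (by fun_prop)) (hder y) (by rw [ha y 0 le_rfl hε, sub_self]) he
  have hK : IsCompact (Icc (-H) H ×ˢ Icc 0 e) := isCompact_Icc.prod isCompact_Icc
  have hsub : Rc H e ⊆ Icc (-H) H ×ˢ Icc 0 e :=
    prod_mono Ioc_subset_Icc_self Ioo_subset_Icc_self
  have hi : ∀ {F : ℝ × ℝ → ℝ}, Continuous F → IntegrableOn F (Rc H e) (volume.prod volume) := fun hF =>
    (hF.continuousOn.integrableOn_compact hK).mono_set hsub
  have hc1 : Continuous fun q => ‖θ q - a‖ ^ 2 := ((hs.continuous.sub continuous_const).norm).pow 2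
  have hc2 : Continuous fun q => ‖dZc θ q‖ ^ 2 := hzc.norm.pow 2
  have hi2 := hi hc2
  unfold Rc at hi hi2 ⊢
  rw [Measure.volume_eq_prod, setIntegral_prod _ (hi hc1), setIntegral_prod _ hi2, ← integral_const_mul]
  refine integral_mono_of_nonneg (Eventually.of_forall fun y => ?_) ?_ (Eventually.of_forall hone)
  · exact integral_nonneg fun z => by positivity
  · refine Integrable.const_mul ?_ _
    rw [IntegrableOn, ← Measure.prod_restrict] at hi2
    exact hi2.integral_prod_left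

end

end Pool.Agent.Lib.MP_79abb3_an.PD
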