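import Pool.Agent.Lib.MP_79abb3_an.PD.CoB3

/-!
Theorem D, collar package: velocities of functions which vanish on `z = 0`.
-/

set_option autoImplicit false
set_option linter.unusedSectionVars false

open MeasureTheory Set Filter Topology Function
open scoped ENNReal InnerProductSpace

namespace Pool.Agent.Lib.MP_79abb3_an.PD

open Pool.Agent.Lib.MP_79abb3_an.SC Pool.Agent.Lib.MP_79abb3_an.P25

section
variable {H : ℝ} [hH : Fact (0 < H)] {θ : ℝ × ℝ → ℂ}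

/-- The zero mode of the trace. -/
theorem fmc_zero (h : PC H θ) (h0 : ∀ y, θ (y, 0) = 0) (n : ℤ) : ex (fmc θ n : CI H) 0 = 0 := by
  have key : ∀ {F : ℝ × ℝ → ℝ}, Continuous F → (∀ y, F (y, 0) = 0) → ex (fam F n : CI H) 0 = 0 := by
    intro F hF hc
    rw [ex_fam hF n zero_memI, fco]
    simp only [hc, Complex.ofReal_zero, zero_mul, intervalIntegral.integral_zero, mul_zero]
  unfold fmc
  rw [ex_add, ex_smul, key h.re.smooth.continuous (fun y => by show (θ (y, 0)).re = 0; rw [h0 y]; rfl),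
    key h.im.smooth.continuous (fun y => by show (θ (y, 0)).im = 0; rw [h0 y]; rfl), mul_zero, add_zero]

private theorem c5_Ez (h : PC H θ) (ht : VanC H θ) (h0 : ∀ y, θ (y, 0) = 0) (n : ℤ) :
    Ez (Real.pi / H * n) (iota (Vf (Real.pi / H) (fHc (dLc θ)) n)) = (fmc θ n : CI H) := by
  rw [Vf_ll h ht]
  refine (Ez_bs (Real.pi / H * n) (fmc_isD h n)).trans ?_
  rw [fmc_zero h h0 n]
  exact ci_ext fun z _ => by rw [ex_sub, ex_smul, zero_mul, sub_zero]

/-- **The velocity of `-Δθ` is `(θ_z, -θ_y)`**, `θ(y,0) = 0`. -/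
theorem uV_ll0 (h : PC H θ) (ht : VanC H θ) (h0 : ∀ y, θ (y, 0) = 0) (n : ℤ) :
    uV (Real.pi / H) (Vf (Real.pi / H) (fHc (dLc θ))) n = (fmc (dZc θ) n : CI H) := by
  unfold uV
  rw [c5_Ez h ht h0, Vf_ll h ht]
  abel

theorem wV_ll0 (h : PC H θ) (ht : VanC H θ) (h0 : ∀ y, θ (y, 0) = 0) (n : ℤ) :
    wV (Real.pi / H) (Vf (Real.pi / H) (fHc (dLc θ))) n = (-(fmc (dYc θ) n) : CI H) := by
  unfold wV
  rw [c5_Ez h ht h0, fmc_yy h]
  exact ci_ext fun z _ => by rw [ex_smul, ex_neg, ex_smul, neg_mul]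

/-- The trace of `T (-Δθ)`, `θ(y,0) = 0`. -/
theorem tr_ll0 (h : PC H θ) (ht : VanC H θ) (h0 : ∀ y, θ (y, 0) = 0) (n : ℤ) :
    ex (Vf (Real.pi / H) (fHc (dLc θ)) n : CI H) 0 = ex (fmc (dZc θ) n : CI H) 0 := by
  rw [Vf_ll h ht, ex_add, ex_smul, fmc_zero h h0 n, mul_zero, zero_add]

end

end Pool.Agent.Lib.MP_79abb3_an.PD
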