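import Pool.Agent.Lib.MP_79abb3_an.PD.SpEa

/-!
Theorem D, block S: the projection onto `XD`, the stream function operator `str : XD → L²`.
-/

set_option autoImplicit false
set_option linter.unusedSectionVars false

open MeasureTheory Set Filter Topology Function
open scoped ENNReal InnerProductSpace ComplexConjugate

namespace Pool.Agent.Lib.MP_79abb3_an.PD

open Pool.Agent.Lib.MP_79abb3_an.SC

/-! ### The projection onto `XD` and the stream function -/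

section
variable {D : Set ℂ}

/-- The projection onto `XD`. -/
noncomputable def PX (D : Set ℂ) : Y2 →L[ℂ] XD D := (XD D).subtypeL.adjoint

theorem inner_PX (x : XD D) (y : Y2) : ⟪x, PX D y⟫_ℂ = ⟪(x : Y2), y⟫_ℂ := by
  unfold PX
  rw [ContinuousLinearMap.adjoint_inner_right]
  rfl

/-- Proof: `Cnj.adjoint`-argument, `cXD_coe`. -/
theorem PX_conj (y : Y2) : cXD D (PX D y) = PX D (cYy y) := by
  refine ext_inner_left ℂ fun x => ?_
  have h1 : ⟪(x : Y2), cYy ((PX D y : XD D) : Y2)⟫_ℂ = ⟪((PX D y : XD D) : Y2), cYy (x : Y2)⟫_ℂ :=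
    (congrArg (fun z : Y2 => ⟪z, cYy ((PX D y : XD D) : Y2)⟫_ℂ) (Cnj_cYy.inv (x : Y2))).symm.trans
      (Cnj_cYy.inner (cYy (x : Y2)) ((PX D y : XD D) : Y2))
  have h2 : ⟪(x : Y2), cYy y⟫_ℂ = ⟪y, cYy (x : Y2)⟫_ℂ :=
    (congrArg (fun z : Y2 => ⟪z, cYy y⟫_ℂ) (Cnj_cYy.inv (x : Y2))).symm.trans
      (Cnj_cYy.inner (cYy (x : Y2)) y)
  have h3 : ⟪x, cXD D (PX D y)⟫_ℂ = ⟪(x : Y2), cYy ((PX D y : XD D) : Y2)⟫_ℂ := rfl
  have h4 : ⟪((PX D y : XD D) : Y2), cYy (x : Y2)⟫_ℂ = ⟪PX D y, cXD D x⟫_ℂ := rfl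
  have h5 : ⟪PX D y, cXD D x⟫_ℂ = ⟪y, cYy (x : Y2)⟫_ℂ := by
    rw [← inner_conj_symm (PX D y) (cXD D x), inner_PX]
    exact inner_conj_symm y (cYy (x : Y2))
  rw [inner_PX, h3, h1, h2, h4, h5]

/-- `ψ ↦ cl2 ψ` on the stream functions -/
noncomputable def clA (D : Set ℂ) : Adm D →ₗ[ℂ] L2c where
  toFun ψ := cl2 ψ
  map_add' ψ χ := cl2_add ((Adm.cc ψ).memLp 2) ((Adm.cc χ).memLp 2)
  map_smul' c ψ := cl2_smul c ((Adm.cc ψ).memLp 2)

/-- A stream function vanishes outside a disc which contains `D`. Proof: it is locally constant outside `D`, in particular on the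
connected set `{R ≤ |x|}`, and has compact support. -/
theorem Adm.out {R : ℝ} (hD : ∀ x ∈ D, ‖x‖ < R) (ψ : Adm D) {x : ℂ} (hx : R ≤ ‖x‖) : (ψ : ℂ → ℂ) x = 0 := by
  obtain ⟨e, he⟩ : ∃ e : ℂ, ∀ t : ℝ, 0 ≤ t → ‖x + (t : ℂ) * e‖ = ‖x‖ + t := by
    by_cases h0 : x = 0
    · refine ⟨1, fun t ht => ?_⟩
      rw [h0, zero_add, mul_one, norm_zero, zero_add, Complex.norm_real, Real.norm_of_nonneg ht]
    · have hn : 0 < ‖x‖ := norm_pos_iff.2 h0
      refine ⟨x / (‖x‖ : ℂ), fun t ht => ?_⟩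
      have h1 : x + (t : ℂ) * (x / (‖x‖ : ℂ)) = ((1 + t / ‖x‖ : ℝ) : ℂ) * x := by
        push_cast
        field_simp
      rw [h1, norm_mul, Complex.norm_real, Real.norm_of_nonneg (by positivity)]
      field_simp
  obtain ⟨r, hr⟩ := (Adm.cc ψ).cpt.isCompact.isBounded.subset_closedBall 0
  set T : ℝ := |r| + 1 with hT
  have hT0 : 0 ≤ T := by positivity
  have hfar : (ψ : ℂ → ℂ) (x + (T : ℂ) * e) = 0 := by
    by_contra h
    have h1 := hr (subset_tsupport _ h)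
    rw [mem_closedBall_zero_iff, he T hT0] at h1
    have h2 := le_abs_self r
    have h3 := norm_nonneg x
    linarith
  have hder : ∀ t : ℝ, 0 ≤ t → HasDerivAt (fun t : ℝ => (ψ : ℂ → ℂ) (x + (t : ℂ) * e)) 0 t := by
    intro t ht
    have hn : x + (t : ℂ) * e ∉ D := by
      intro h
      have h1 := hD _ h
      rw [he t ht] at h1
      linarith
    have h0 : fderiv ℝ (ψ : ℂ → ℂ) (x + (t : ℂ) * e) = 0 := by
      by_contra h
      exact hn (Adm.supp ψ (subset_tsupport _ h))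
    have h1 : HasFDerivAt (ψ : ℂ → ℂ) (fderiv ℝ (ψ : ℂ → ℂ) (x + (t : ℂ) * e))
        (x + (t : ℂ) * e) := ((Adm.cc ψ).smo.differentiable _).hasFDerivAt
    have h2 : HasDerivAt (fun t : ℝ => x + (t : ℂ) * e) e t := by
      have h3 : HasDerivAt (fun t : ℝ => (t : ℂ)) 1 t := Complex.ofRealCLM.hasDerivAt
      simpa using (h3.mul_const e).const_add x
    have h4 := h1.comp_hasDerivAt t h2
    rw [h0, zero_apply] at h4
    exact h4
  have hconst := constant_of_has_deriv_right_zero (f := fun t : ℝ => (ψ : ℂ → ℂ) (x + (t : ℂ) * e))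
    (a := 0) (b := T) (fun t ht => (hder t ht.1).continuousAt.continuousWithinAt)
    (fun t ht => (hder t ht.1).hasDerivWithinAt) T ⟨hT0, le_rfl⟩
  simp only [Complex.ofReal_zero, zero_mul, add_zero] at hconst
  rw [← hconst, hfar]

/-- Poincaré for the stream function. -/
theorem exists_cl2_le (hD : Bornology.IsBounded D) : ∃ C, 0 ≤ C ∧ ∀ ψ : Adm D, ‖clA D ψ‖ ≤ C * ‖gpX D ψ‖ := by
  obtain ⟨R, hR, h⟩ := exists_radius hD
  refine ⟨2 * R, by positivity, fun ψ => ?_⟩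
  have h1 := (Adm.cc ψ).poincare hR fun x hx => Adm.out h ψ hx
  rw [← (Adm.cc ψ).norm_sq, ← (Adm.cc ψ).px.norm_sq] at h1
  have h2 := norm_gp_sq (Adm.cc ψ)
  have e1 : ‖(gpX D ψ : XD D)‖ = ‖gp (ψ : ℂ → ℂ)‖ := rfl
  have e2 : clA D ψ = cl2 (ψ : ℂ → ℂ) := rfl
  rw [e1, e2]
  refine le_of_sq_le_sq ?_ (by positivity)
  rw [mul_pow, h2]
  nlinarith [sq_nonneg ‖cl2 (py (ψ : ℂ → ℂ))‖, sq_nonneg R,
    mul_nonneg (sq_nonneg R) (sq_nonneg ‖cl2 (py (ψ : ℂ → ℂ))‖)]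

/-- the stream function of a velocity -/
noncomputable def str (D : Set ℂ) : XD D →L[ℂ] L2c := (clA D).extendOfNorm (gpX D)

theorem str_gpX (hD : Bornology.IsBounded D) (ψ : Adm D) : str D (gpX D ψ) = cl2 ψ := by
  obtain ⟨C, -, h⟩ := exists_cl2_le hD
  exact LinearMap.extendOfNorm_eq (f := clA D) (e := gpX D) (gpX_dense D) ⟨C, h⟩ ψ

theorem str_conj (hD : Bornology.IsBounded D) (x : XD D) : cL2 (str D x) = str D (cXD D x) := by
  refine (gpX_dense D).induction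
    (P := fun x : XD D => cL2 (str D x) = str D (cXD D x)) ?_ ?_ x
  · rintro _ ⟨ψ, rfl⟩
    rw [str_gpX hD, cXD_gpX, str_gpX hD, cl2_conj ((Adm.cc ψ).memLp 2)]
    rfl
  · exact isClosed_eq (by fun_prop) (by fun_prop)

theorem str_adj_conj (hD : Bornology.IsBounded D) (g : L2c) :
    cXD D (ContinuousLinearMap.adjoint (str D) g) = ContinuousLinearMap.adjoint (str D) (cL2 g) := by
  have hX : Cnj (cXD D) := (FCj_D hD).X
  refine ext_inner_left ℂ fun x => ?_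
  have h1 : ⟪x, cXD D (ContinuousLinearMap.adjoint (str D) g)⟫_ℂ =
      ⟪ContinuousLinearMap.adjoint (str D) g, cXD D x⟫_ℂ :=
    (congrArg (fun z : XD D => ⟪z, cXD D (ContinuousLinearMap.adjoint (str D) g)⟫_ℂ)
      (hX.inv x)).symm.trans (hX.inner (cXD D x) (ContinuousLinearMap.adjoint (str D) g))
  have h2 : ⟪str D x, cL2 g⟫_ℂ = ⟪g, cL2 (str D x)⟫_ℂ :=
    (congrArg (fun z : L2c => ⟪z, cL2 g⟫_ℂ) (Cnj_cL2.inv (str D x))).symm.trans
      (Cnj_cL2.inner (cL2 (str D x)) g)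
  rw [ContinuousLinearMap.adjoint_inner_right, h1, ContinuousLinearMap.adjoint_inner_left, h2,
    str_conj hD]

/-- `NL` with a bounded vorticity is a force in `XD`. -/
theorem NL_rot (hD : Bornology.IsBounded D) {g : ℂ → ℂ} {c : ℝ} (hg : Bm g c)
    (hg2 : MemLp g 2 (volume : Measure ℂ)) (v w : VD D) :
    NL (jj D v) (cl2 g) (jj D w) = ⟪iot D w, PX D (rot g ((iot D v : XD D) : Y2))⟫_ℂ := by
  rw [NL_apply, inner_PX, WithLp.prod_inner_apply]
  set U : Y2 := ((iot D w : XD D) : Y2) with hU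
  set V : Y2 := ((iot D v : XD D) : Y2) with hV
  have e1 : ((rot g V).fst : L2c) = mm g V.snd := rfl
  have e2 : ((rot g V).snd : L2c) = -mm g V.fst := rfl
  have hR : ⟪U.fst, (rot g V).fst⟫_ℂ + ⟪U.snd, (rot g V).snd⟫_ℂ =
      ∫ x, (⟪(U.fst : ℂ → ℂ) x, (mm g V.snd : ℂ → ℂ) x⟫_ℂ -
        ⟪(U.snd : ℂ → ℂ) x, (mm g V.fst : ℂ → ℂ) x⟫_ℂ) := by
    rw [e1, e2, inner_neg_right, L2.inner_def, L2.inner_def, ← sub_eq_add_neg, integral_sub]
    · exact L2.integrable_inner _ _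
    · exact L2.integrable_inner _ _
  refine Eq.trans ?_ hR.symm
  refine integral_congr_ae ?_
  filter_upwards [j1_ae hD v, j2_ae hD v, j1_ae hD w, j2_ae hD w, cl2_coe hg2, mm_coe hg V.snd,
    mm_coe hg V.fst] with x h1 h2 h3 h4 h5 h6 h7
  have k1 : ((jj D v).1 : ℂ → ℂ) x = (V.fst : ℂ → ℂ) x := h1
  have k2 : ((jj D v).2 : ℂ → ℂ) x = (V.snd : ℂ → ℂ) x := h2
  have k3 : ((jj D w).1 : ℂ → ℂ) x = (U.fst : ℂ → ℂ) x := h3
  have k4 : ((jj D w).2 : ℂ → ℂ) x = (U.snd : ℂ → ℂ) x := h4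
  rw [k1, k2, k3, k4, h5, h6, h7, RCLike.inner_apply, RCLike.inner_apply]
  ring

end

end Pool.Agent.Lib.MP_79abb3_an.PD
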