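import Pool.Agent.Lib.MP_79abb3_an.PD.CoA3
import Pool.Agent.Lib.MP_79abb3_an.PD.CoB3
import Pool.Agent.Lib.MP_79abb3_an.PD.CoB4
import Pool.Agent.Lib.MP_79abb3_an.PD.SpEa2
import Pool.Agent.Lib.MP_79abb3_an.SC.ChGeo

/-!
Theorem D, collar package: the operators `Ga : VD → HH` (vorticity of the cut off stream function) and
`PB : L² → HH` (pull back of a function).
-/

set_option autoImplicit false
set_option linter.unusedSectionVars false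

open MeasureTheory Set Filter Topology Function
open scoped ENNReal InnerProductSpace ComplexConjugate

namespace Pool.Agent.Lib.MP_79abb3_an.PD

open Pool.Agent.Lib.MP_79abb3_an.SC Pool.Agent.Lib.MP_79abb3_an.P25

/-- A positive smooth metric factor, `J = |X_y|²` for `0 ≤ z ≤ e`. -/
structure IsJ (H : ℝ) (X : ℝ × ℝ → ℂ) (e : ℝ) (J : ℝ × ℝ → ℝ) : Prop where
  py : PY H J
  pos : ∀ q, 0 < J q
  eq : ∀ q : ℝ × ℝ, 0 ≤ q.2 → q.2 ≤ e → J q = mJ X q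

/-- The cut off stream function `ζ (ψ ∘ X - c)`, `ζ = 1` for `z ≤ e`, `ζ = 0` for `z ≥ e'`. -/
noncomputable def gaF (X : ℝ × ℝ → ℂ) (e e' : ℝ) (ψ : ℂ → ℂ) (q : ℝ × ℝ) : ℂ :=
  ((ctf e e' q.2 : ℝ) : ℂ) * (ψ (X q) - ψ (X (0, 0)))

section
variable {D : Set ℂ} {H c e e' : ℝ} [hH : Fact (0 < H)] {X : ℝ × ℝ → ℂ} {J : ℝ × ℝ → ℝ}

/-- `Ga (cuV ψ) = -Δ (ζ (ψ ∘ X - c))` -/
structure IsGa (D : Set ℂ) (X : ℝ × ℝ → ℂ) (e e' : ℝ) (Γ : VD D →L[ℂ] HH H) : Prop where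
  eq : ∀ ψ : Adm D, Γ (cuV D ψ) = fHc (dLc (gaF X e e' ψ))

/-- `La (gpX ψ) = B* (ζ (ψ ∘ X - c))` -/
structure IsLa (D : Set ℂ) (X : ℝ × ℝ → ℂ) (e e' : ℝ) (Λ : XD D →L[ℂ] HH H) : Prop where
  eq : ∀ ψ : Adm D, Λ (gpX D ψ) = bHc (gaF X e e' ψ)

/-- `PB f = ω J (f ∘ X)`, `ω = 1` for `z ≤ e`, `ω = 0` for `z ≥ e'`. -/
structure IsPB (X : ℝ × ℝ → ℂ) (e e' : ℝ) (J : ℝ × ℝ → ℝ) (B : L2c →L[ℂ] HH H) : Prop where
  eq : ∀ f : ℂ → ℂ, Cc f → B (cl2 f) = fHc fun q => ((ctf e e' q.2 * J q : ℝ) : ℂ) * f (X q)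

private theorem coc_py (e e' : ℝ) : PY H fun q => ctf e e' q.2 :=
  ⟨(ctf_smooth e e').comp contDiff_snd, 1, one_pos, fun _ _ _ => rfl⟩

theorem gaF_pc (h : IsStrip D H c X) (he : e < e') {ψ : ℂ → ℂ} (hψ : Smo ψ) : PC H (gaF X e e' ψ) := by
  have _ := he
  exact PC.mulR (coc_py e e') ((h.pc hψ).sub (PC.const H (ψ (X (0, 0)))))

/-- `e' < c < H` -/
theorem gaF_van (h : IsStrip D H c X) (he : e < e') (he' : e' < c) (ψ : ℂ → ℂ) : VanC H (gaF X e e' ψ) := by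
  refine ⟨H - e', by linarith [h.cH], fun y z hz => ?_⟩
  unfold gaF
  rw [ctf_zero he (by linarith), Complex.ofReal_zero, zero_mul]

/-- `adm_const`; the value near `z = 0` is `0`. -/
theorem gaF_con (h : IsStrip D H c X) (hO : IsOpen D) (he0 : 0 < e) (he : e < e') (ψ : Adm D) :
    ∃ ε > 0, ∀ y z, 0 ≤ z → z < ε → gaF X e e' ψ (y, z) = 0 := by
  have _ := he0
  have _ := he
  obtain ⟨ε, h1, _, h2⟩ := h.adm_const hO ψ
  refine ⟨ε, h1, fun y z hz hz' => ?_⟩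
  unfold gaF
  rw [h2 y z hz hz', sub_self, mul_zero]

theorem gaF_add (ψ φ : ℂ → ℂ) : gaF X e e' (fun x => ψ x + φ x) = fun q => gaF X e e' ψ q + gaF X e e' φ q := by
  funext q; unfold gaF; ring

theorem gaF_smul (k : ℂ) (ψ : ℂ → ℂ) : gaF X e e' (fun x => k * ψ x) = fun q => k * gaF X e e' ψ q := by
  funext q; unfold gaF; ring

/-! ### Integrals over the cell -/

private theorem coc_intOn {E : Type} [NormedAddCommGroup E] {F : ℝ × ℝ → E} (hF : Continuous F) (s : ℝ) :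
    IntegrableOn F (Rc H s) :=
  (hF.continuousOn.integrableOn_compact (isCompact_Icc.prod isCompact_Icc)).mono_set
    (prod_mono Ioc_subset_Icc_self Ioo_subset_Icc_self)

private theorem coc_sub {s : ℝ} (hs : s ≤ H) : Rc H s ⊆ Cel H :=
  prod_mono Ioc_subset_Icc_self (Ioo_subset_Icc_self.trans (Icc_subset_Icc_right hs))

private theorem coc_null1 (a : ℝ) : (volume : Measure (ℝ × ℝ)) {q : ℝ × ℝ | q.1 = a} = 0 := by
  have h : {q : ℝ × ℝ | q.1 = a} = ({a} : Set ℝ) ×ˢ (univ : Set ℝ) := by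
    ext q
    simp
  rw [h, Measure.volume_eq_prod, Measure.prod_prod, Real.volume_singleton, zero_mul]

private theorem coc_null2 (a : ℝ) : (volume : Measure (ℝ × ℝ)) {q : ℝ × ℝ | q.2 = a} = 0 := by
  have h : {q : ℝ × ℝ | q.2 = a} = (univ : Set ℝ) ×ˢ ({a} : Set ℝ) := by
    ext q
    simp
  rw [h, Measure.volume_eq_prod, Measure.prod_prod, Real.volume_singleton, mul_zero]

private theorem coc_cel {F : ℝ × ℝ → ℝ} {s : ℝ} (hs : s ≤ H) (hF : ∀ q : ℝ × ℝ, s < q.2 → F q = 0) :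
    ∫ q in Cel H, F q = ∫ q in Rc H s, F q := by
  refine setIntegral_eq_of_subset_of_ae_sdiff_eq_zero measurableSet_Cel.nullMeasurableSet (coc_sub hs) ?_
  filter_upwards [compl_mem_ae_iff.2 (coc_null1 (-H)), compl_mem_ae_iff.2 (coc_null2 0),
    compl_mem_ae_iff.2 (coc_null2 s)] with q h1 h2 h3 h4
  refine hF q ?_
  by_contra hc
  rw [not_lt] at hc
  exact h4.2 ⟨⟨lt_of_le_of_ne h4.1.1.1 fun hh => h1 hh.symm, h4.1.1.2⟩,
    lt_of_le_of_ne h4.1.2.1 fun hh => h2 hh.symm, lt_of_le_of_ne hc h3⟩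

private theorem coc_cint {f : ℂ → ℂ} (hf : Cc f) : Integrable fun x => ‖f x‖ ^ 2 :=
  Continuous.integrable_of_hasCompactSupport (f := fun x => ‖f x‖ ^ 2) (hf.smo.continuous.norm.pow 2)
    (hf.cpt.comp_left (g := fun z : ℂ => ‖z‖ ^ 2) (by simp))

private theorem coc_gp {ψ : ℂ → ℂ} (hψ : Cc ψ) : (∫ x, (‖px ψ x‖ ^ 2 + ‖py ψ x‖ ^ 2)) = ‖gp ψ‖ ^ 2 := by
  rw [norm_gp_sq hψ, hψ.px.norm_sq, hψ.py.norm_sq]
  exact integral_add (coc_cint hψ.px) (coc_cint hψ.py)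

/-- Bounds in the strip: with `c = ψ (X (0,0))`,
`∫_{Rc H e'} (|ψ ∘ X - c|² + |∇ (ψ ∘ X)|²) ≤ C |gp ψ|²`. Proof: `grad_sq`, `IsStrip.integral` (conformal invariance of the
Dirichlet integral), `norm_gp_sq`, `wall_poinc`. -/
theorem strip_bd (h : IsStrip D H c X) (hO : IsOpen D) (he' : e' < c) (h0 : 0 < e') : ∃ C : ℝ, 0 ≤ C ∧
    ∀ ψ : Adm D, (∫ q in Rc H e', ‖(ψ : ℂ → ℂ) (X q) - (ψ : ℂ → ℂ) (X (0, 0))‖ ^ 2) ≤ C * ‖gp ψ‖ ^ 2 ∧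
      (∫ q in Rc H e', (‖dYc (fun q => (ψ : ℂ → ℂ) (X q)) q‖ ^ 2 +
        ‖dZc (fun q => (ψ : ℂ → ℂ) (X q)) q‖ ^ 2)) ≤ ‖gp ψ‖ ^ 2 := by
  refine ⟨e' ^ 2, sq_nonneg _, fun ψ => ?_⟩
  have hp : PC H (fun q => (ψ : ℂ → ℂ) (X q)) := h.pc (Adm.cc ψ).smo
  have h2 : (∫ q in Rc H e', (‖dYc (fun q => (ψ : ℂ → ℂ) (X q)) q‖ ^ 2 +
        ‖dZc (fun q => (ψ : ℂ → ℂ) (X q)) q‖ ^ 2)) ≤ ‖gp ψ‖ ^ 2 := by
    have e1 : (∫ q in Rc H e', (‖dYc (fun q => (ψ : ℂ → ℂ) (X q)) q‖ ^ 2 +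
        ‖dZc (fun q => (ψ : ℂ → ℂ) (X q)) q‖ ^ 2)) =
        ∫ q in Rc H e', mJ X q • (‖px ψ (X q)‖ ^ 2 + ‖py ψ (X q)‖ ^ 2) :=
      setIntegral_congr_fun (measurableSet_Rc H e') fun q hq =>
        h.grad_sq (Adm.cc ψ).smo hq.2.1.le (hq.2.2.trans he')
    rw [e1, ← h.integral he'.le (fun x => ‖px ψ x‖ ^ 2 + ‖py ψ x‖ ^ 2), ← coc_gp (Adm.cc ψ)]
    exact setIntegral_le_integral ((coc_cint (Adm.cc ψ).px).add (coc_cint (Adm.cc ψ).py))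
      (ae_of_all _ fun x => by positivity)
  refine ⟨?_, h2⟩
  obtain ⟨ε, h3, _, h4⟩ := h.adm_const hO ψ
  refine (wall_poinc hp ⟨ε, h3, h4⟩ h0).trans ?_
  refine mul_le_mul_of_nonneg_left (le_trans ?_ h2) (sq_nonneg _)
  have c1 : Continuous (fun q => ‖dYc (fun q => (ψ : ℂ → ℂ) (X q)) q‖ ^ 2) :=
    hp.yy.smooth.continuous.norm.pow 2
  have c2 : Continuous (fun q => ‖dZc (fun q => (ψ : ℂ → ℂ) (X q)) q‖ ^ 2) :=
    hp.zz.smooth.continuous.norm.pow 2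
  exact setIntegral_mono_on (coc_intOn c2 e') (coc_intOn (c1.add c2) e') (measurableSet_Rc H e')
    fun q _ => le_add_of_nonneg_left (by positivity)

/-! ### The main bounds -/

private theorem coc_lin {S : Set (ℝ × ℝ)} (hS : MeasurableSet S) {F F1 F2 F3 : ℝ × ℝ → ℝ} {K1 K2 K3 : ℝ}
    (i0 : IntegrableOn F S) (i1 : IntegrableOn F1 S) (i2 : IntegrableOn F2 S) (i3 : IntegrableOn F3 S)
    (hF : ∀ q ∈ S, F q ≤ K1 * F1 q + K2 * F2 q + K3 * F3 q) :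
    (∫ q in S, F q) ≤ K1 * (∫ q in S, F1 q) + K2 * (∫ q in S, F2 q) + K3 * ∫ q in S, F3 q := by
  have j1 : IntegrableOn (fun q => K1 * F1 q) S := i1.const_mul K1
  have j2 : IntegrableOn (fun q => K2 * F2 q) S := i2.const_mul K2
  have j3 : IntegrableOn (fun q => K3 * F3 q) S := i3.const_mul K3
  have j12 : IntegrableOn (fun q => K1 * F1 q + K2 * F2 q) S := j1.add j2
  have j123 : IntegrableOn (fun q => K1 * F1 q + K2 * F2 q + K3 * F3 q) S := j12.add j3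
  refine (setIntegral_mono_on i0 j123 hS hF).trans (le_of_eq ?_)
  rw [integral_add j12 j3, integral_add j1 j2, integral_const_mul, integral_const_mul, integral_const_mul]

private theorem coc_cut (e e' H : ℝ) : ∃ A : ℝ, 0 ≤ A ∧ ∀ z ∈ Icc (0:ℝ) H, ‖((ctf e e' z : ℝ) : ℂ)‖ ≤ A ∧
    ‖((deriv (ctf e e') z : ℝ) : ℂ)‖ ≤ A ∧ ‖((deriv (deriv (ctf e e')) z : ℝ) : ℂ)‖ ≤ A := by
  have s0 := ctf_smooth e e'
  have s1 : ContDiff ℝ ((⊤ : ℕ∞) : WithTop ℕ∞) (deriv (ctf e e')) :=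
    (contDiff_infty_iff_deriv.1 s0).2
  have s2 : ContDiff ℝ ((⊤ : ℕ∞) : WithTop ℕ∞) (deriv (deriv (ctf e e'))) :=
    (contDiff_infty_iff_deriv.1 s1).2
  obtain ⟨a0, h0⟩ := isCompact_Icc.exists_bound_of_continuousOn (s := Icc (0:ℝ) H) s0.continuous.continuousOn
  obtain ⟨a1, h1⟩ := isCompact_Icc.exists_bound_of_continuousOn (s := Icc (0:ℝ) H) s1.continuous.continuousOn
  obtain ⟨a2, h2⟩ := isCompact_Icc.exists_bound_of_continuousOn (s := Icc (0:ℝ) H) s2.continuous.continuousOn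
  refine ⟨|a0| + |a1| + |a2|, by positivity, fun z hz => ?_⟩
  have k0 := (h0 z hz).trans (le_abs_self a0)
  have k1 := (h1 z hz).trans (le_abs_self a1)
  have k2 := (h2 z hz).trans (le_abs_self a2)
  have p0 := abs_nonneg a0
  have p1 := abs_nonneg a1
  have p2 := abs_nonneg a2
  simp only [Complex.norm_real]
  exact ⟨by linarith, by linarith, by linarith⟩

private theorem coc_mJ (h : IsStrip D H c X) : Continuous (mJ X) := by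
  have h1 : ContDiff ℝ ((⊤ : ℕ∞) : WithTop ℕ∞) (fderiv ℝ X) :=
    ContDiff.fderiv_right h.smooth (by exact_mod_cast le_top)
  exact (h1.continuous.clm_apply continuous_const).norm.pow 2

private theorem coc_mJ_bd (h : IsStrip D H c X) : ∃ B : ℝ, 0 ≤ B ∧ ∀ q ∈ Cel H, mJ X q ≤ B := by
  obtain ⟨B, hB⟩ := (isCompact_Icc.prod isCompact_Icc).exists_bound_of_continuousOn
    (s := Cel H) (coc_mJ h).continuousOn
  refine ⟨|B|, abs_nonneg B, fun q hq => ?_⟩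
  exact (le_abs_self _).trans ((hB q hq).trans (le_abs_self B))

private theorem coc_dsub (θ : ℝ × ℝ → ℂ) (a : ℂ) (v q : ℝ × ℝ) :
    fderiv ℝ (fun q => θ q - a) q v = fderiv ℝ θ q v := by
  rw [fderiv_sub_const]

private theorem coc_ysub (θ : ℝ × ℝ → ℂ) (a : ℂ) : dYc (fun q => θ q - a) = dYc θ :=
  funext fun q => coc_dsub θ a (1, 0) q

private theorem coc_zsub (θ : ℝ × ℝ → ℂ) (a : ℂ) : dZc (fun q => θ q - a) = dZc θ :=
  funext fun q => coc_dsub θ a (0, 1) q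

private theorem coc_lsub (θ : ℝ × ℝ → ℂ) (a : ℂ) : dLc (fun q => θ q - a) = dLc θ := by
  funext q
  unfold dLc
  rw [coc_ysub, coc_zsub]

private theorem coc_alg3 {A : ℝ} {g g1 g2 x y z : ℂ} (h0 : ‖g‖ ≤ A) (h1 : ‖g1‖ ≤ A)
    (h2 : ‖g2‖ ≤ A) {u v : ℝ} (hu : ‖x‖ ^ 2 ≤ u) (hv : ‖y‖ ^ 2 ≤ v) :
    ‖g * x - 2 * g1 * y - g2 * z‖ ^ 2 ≤ 3 * A ^ 2 * u + 12 * A ^ 2 * v + 3 * A ^ 2 * ‖z‖ ^ 2 := by
  have k : ‖g * x - 2 * g1 * y - g2 * z‖ ≤ A * ‖x‖ + 2 * A * ‖y‖ + A * ‖z‖ := by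
    refine (norm_sub_le _ _).trans (add_le_add ((norm_sub_le _ _).trans (add_le_add ?_ ?_)) ?_)
    · rw [norm_mul]
      exact mul_le_mul_of_nonneg_right h0 (norm_nonneg _)
    · rw [norm_mul, norm_mul, Complex.norm_ofNat]
      exact mul_le_mul_of_nonneg_right (by linarith) (norm_nonneg _)
    · rw [norm_mul]
      exact mul_le_mul_of_nonneg_right h2 (norm_nonneg _)
  have k2 : ‖g * x - 2 * g1 * y - g2 * z‖ ^ 2 ≤ (A * ‖x‖ + 2 * A * ‖y‖ + A * ‖z‖) ^ 2 :=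
    pow_le_pow_left₀ (norm_nonneg _) k 2
  have k3 : A ^ 2 * ‖x‖ ^ 2 ≤ A ^ 2 * u := mul_le_mul_of_nonneg_left hu (sq_nonneg _)
  have k4 : A ^ 2 * ‖y‖ ^ 2 ≤ A ^ 2 * v := mul_le_mul_of_nonneg_left hv (sq_nonneg _)
  have k5 : (A * ‖x‖ + 2 * A * ‖y‖ + A * ‖z‖) ^ 2 ≤
      3 * (A ^ 2 * ‖x‖ ^ 2) + 12 * (A ^ 2 * ‖y‖ ^ 2) + 3 * (A ^ 2 * ‖z‖ ^ 2) := by
    nlinarith [sq_nonneg (A * ‖x‖ - 2 * A * ‖y‖), sq_nonneg (A * ‖x‖ - A * ‖z‖),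
      sq_nonneg (2 * A * ‖y‖ - A * ‖z‖)]
  linarith

private theorem coc_alg2 {A : ℝ} {g g1 w y z : ℂ} (h0 : ‖g‖ ≤ A) (h1 : ‖g1‖ ≤ A) :
    ‖g * w‖ ^ 2 + ‖g1 * z + g * y‖ ^ 2 ≤ 2 * A ^ 2 * (‖w‖ ^ 2 + ‖y‖ ^ 2) + 2 * A ^ 2 * ‖z‖ ^ 2 := by
  have k1 : ‖g * w‖ ≤ A * ‖w‖ := by
    rw [norm_mul]
    exact mul_le_mul_of_nonneg_right h0 (norm_nonneg _)
  have k2 : ‖g1 * z + g * y‖ ≤ A * ‖z‖ + A * ‖y‖ := by
    refine (norm_add_le _ _).trans (add_le_add ?_ ?_)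
    · rw [norm_mul]
      exact mul_le_mul_of_nonneg_right h1 (norm_nonneg _)
    · rw [norm_mul]
      exact mul_le_mul_of_nonneg_right h0 (norm_nonneg _)
  have k3 : ‖g * w‖ ^ 2 ≤ (A * ‖w‖) ^ 2 := pow_le_pow_left₀ (norm_nonneg _) k1 2
  have k4 : ‖g1 * z + g * y‖ ^ 2 ≤ (A * ‖z‖ + A * ‖y‖) ^ 2 := pow_le_pow_left₀ (norm_nonneg _) k2 2
  nlinarith [sq_nonneg (A * ‖z‖ - A * ‖y‖), sq_nonneg (A * ‖w‖)]

private theorem coc_cutz (he : e < e') {z : ℝ} (hz : e' < z) : ctf e e' z = 0 ∧ deriv (ctf e e') z = 0 ∧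
    deriv (deriv (ctf e e')) z = 0 := by
  have h0 : ctf e e' =ᶠ[𝓝 z] fun _ => (0:ℝ) := by
    filter_upwards [Ioi_mem_nhds hz] with x hx
    exact ctf_zero he (le_of_lt hx)
  have h1 : deriv (ctf e e') =ᶠ[𝓝 z] fun _ => (0:ℝ) := by
    have k := h0.deriv
    rw [deriv_const'] at k
    exact k
  have h2 : deriv (deriv (ctf e e')) =ᶠ[𝓝 z] fun _ => (0:ℝ) := by
    have k := h1.deriv
    rw [deriv_const'] at k
    exact k
  exact ⟨h0.self_of_nhds, h1.self_of_nhds, h2.self_of_nhds⟩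

private theorem coc_ll (h : IsStrip D H c X) {ψ : ℂ → ℂ} (hψ : Smo ψ) (q : ℝ × ℝ) :
    dLc (gaF X e e' ψ) q = ((ctf e e' q.2 : ℝ) : ℂ) * dLc (fun q => ψ (X q)) q -
      2 * ((deriv (ctf e e') q.2 : ℝ) : ℂ) * dZc (fun q => ψ (X q)) q -
      ((deriv (deriv (ctf e e')) q.2 : ℝ) : ℂ) * (ψ (X q) - ψ (X (0, 0))) := by
  have k := PC.ll_mul_z (ctf_smooth e e') ((h.pc hψ).sub (PC.const H (ψ (X (0, 0))))) q
  rw [coc_lsub, coc_zsub] at k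
  exact k

private theorem coc_zz (h : IsStrip D H c X) {ψ : ℂ → ℂ} (hψ : Smo ψ) (q : ℝ × ℝ) :
    dZc (gaF X e e' ψ) q = ((deriv (ctf e e') q.2 : ℝ) : ℂ) * (ψ (X q) - ψ (X (0, 0))) +
      ((ctf e e' q.2 : ℝ) : ℂ) * dZc (fun q => ψ (X q)) q := by
  have k := PC.zz_mul_z (ctf_smooth e e') ((h.pc hψ).sub (PC.const H (ψ (X (0, 0))))) q
  rw [coc_zsub] at k
  exact k

private theorem coc_yy (h : IsStrip D H c X) {ψ : ℂ → ℂ} (hψ : Smo ψ) (q : ℝ × ℝ) :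
    dYc (gaF X e e' ψ) q = ((ctf e e' q.2 : ℝ) : ℂ) * dYc (fun q => ψ (X q)) q := by
  have k := PC.yy_mul_z (ctf_smooth e e') ((h.pc hψ).sub (PC.const H (ψ (X (0, 0))))) q
  rw [coc_ysub] at k
  exact k

private theorem coc_pull (h : IsStrip D H c X) (he' : e' < c) {f : ℂ → ℂ} (hf : Cc f) :
    (∫ q in Rc H e', mJ X q * ‖f (X q)‖ ^ 2) ≤ ‖cl2 f‖ ^ 2 := by
  have k := h.integral he'.le (fun x => ‖f x‖ ^ 2)
  have e1 : (∫ q in Rc H e', mJ X q * ‖f (X q)‖ ^ 2) = ∫ x in Wc X e', ‖f x‖ ^ 2 := by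
    rw [k]
    rfl
  rw [e1, hf.norm_sq]
  exact setIntegral_le_integral (coc_cint hf) (ae_of_all _ fun x => by positivity)

private theorem coc_pt {B m : ℝ} {l : ℂ} (h0 : 0 ≤ m) (h1 : m ≤ B) :
    ‖(m : ℂ) * -l‖ ^ 2 ≤ B * (m * ‖l‖ ^ 2) := by
  have k : ‖(m : ℂ) * -l‖ = m * ‖l‖ := by
    rw [norm_mul, norm_neg, Complex.norm_real, Real.norm_of_nonneg h0]
  rw [k]
  have k2 : m * (m * ‖l‖ ^ 2) ≤ B * (m * ‖l‖ ^ 2) := mul_le_mul_of_nonneg_right h1 (by positivity)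
  nlinarith

private theorem coc_fin {A B C x y z u v : ℝ} (hB : 0 ≤ B) (hC : 0 ≤ C) (hx : x ≤ u) (hy : y ≤ v)
    (hz : z ≤ C * v) (hu : 0 ≤ u) (hv : 0 ≤ v) :
    3 * A ^ 2 * B * x + 12 * A ^ 2 * y + 3 * A ^ 2 * z ≤ (3 * A ^ 2 * B + 12 * A ^ 2 + 3 * A ^ 2 * C) * (u + v) := by
  have h1 : 3 * A ^ 2 * B * x ≤ 3 * A ^ 2 * B * u := mul_le_mul_of_nonneg_left hx (by positivity)
  have h2 : 12 * A ^ 2 * y ≤ 12 * A ^ 2 * v := mul_le_mul_of_nonneg_left hy (by positivity)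
  have h3 : 3 * A ^ 2 * z ≤ 3 * A ^ 2 * (C * v) := mul_le_mul_of_nonneg_left hz (by positivity)
  have h4 : 0 ≤ A ^ 2 * B * v := by positivity
  have h5 : 0 ≤ A ^ 2 * u := by positivity
  have h6 : 0 ≤ A ^ 2 * C * u := by positivity
  nlinarith

private theorem coc_ga_bd (h : IsStrip D H c X) (hO : IsOpen D) (he0 : 0 < e) (he : e < e') (he' : e' < c) :
    ∃ K : ℝ, 0 ≤ K ∧ ∀ ψ : Adm D, ‖(fHc (dLc (gaF X e e' ψ)) : HH H)‖ ^ 2 ≤ K * (‖cu (ψ : ℂ → ℂ)‖ ^ 2 + ‖gp (ψ : ℂ → ℂ)‖ ^ 2) := by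
  obtain ⟨A, hA, hcut⟩ := coc_cut e e' H
  obtain ⟨B, hB, hmJ⟩ := coc_mJ_bd h
  obtain ⟨C, hC, hst⟩ := strip_bd h hO he' (he0.trans he)
  have hH0 : (0:ℝ) < H := hH.out
  have heH : e' ≤ H := (he'.trans h.cH).le
  refine ⟨(2 * H)⁻¹ * (3 * A ^ 2 * B + 12 * A ^ 2 + 3 * A ^ 2 * C), by positivity, fun ψ => ?_⟩
  have hψ := (Adm.cc ψ).smo
  have hp : PC H (fun q => (ψ : ℂ → ℂ) (X q)) := h.pc hψ
  have hga : PC H (gaF X e e' ψ) := gaF_pc h he hψ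
  obtain ⟨s1, s2⟩ := hst ψ
  have s3 := coc_pull h he' (Adm.cc ψ).lap
  have s3' : ‖cl2 (lap ψ)‖ ^ 2 = ‖cu (ψ : ℂ → ℂ)‖ ^ 2 := by
    unfold cu
    rw [norm_neg]
  rw [s3'] at s3
  have c0 : Continuous fun q => ‖dLc (gaF X e e' ψ) q‖ ^ 2 := hga.ll.smooth.continuous.norm.pow 2
  have c1 : Continuous fun q => mJ X q * ‖lap ψ (X q)‖ ^ 2 :=
    (coc_mJ h).mul ((hψ.lap.continuous.comp h.smooth.continuous).norm.pow 2)
  have c2 : Continuous fun q => ‖dYc (fun q => (ψ : ℂ → ℂ) (X q)) q‖ ^ 2 +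
        ‖dZc (fun q => (ψ : ℂ → ℂ) (X q)) q‖ ^ 2 :=
    (hp.yy.smooth.continuous.norm.pow 2).add (hp.zz.smooth.continuous.norm.pow 2)
  have c3 : Continuous fun q => ‖(ψ : ℂ → ℂ) (X q) - (ψ : ℂ → ℂ) (X (0, 0))‖ ^ 2 :=
    (hp.smooth.continuous.sub continuous_const).norm.pow 2
  have main : (∫ q in Rc H e', ‖dLc (gaF X e e' ψ) q‖ ^ 2) ≤
      (3 * A ^ 2 * B) * (∫ q in Rc H e', mJ X q * ‖lap ψ (X q)‖ ^ 2) +
      (12 * A ^ 2) * (∫ q in Rc H e', (‖dYc (fun q => (ψ : ℂ → ℂ) (X q)) q‖ ^ 2 +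
        ‖dZc (fun q => (ψ : ℂ → ℂ) (X q)) q‖ ^ 2)) +
      (3 * A ^ 2) * ∫ q in Rc H e', ‖(ψ : ℂ → ℂ) (X q) - (ψ : ℂ → ℂ) (X (0, 0))‖ ^ 2 := by
    refine coc_lin (measurableSet_Rc H e') (coc_intOn c0 e') (coc_intOn c1 e') (coc_intOn c2 e')
      (coc_intOn c3 e') fun q hq => ?_
    have hq' := coc_sub heH hq
    obtain ⟨g0, g1, g2⟩ := hcut q.2 hq'.2
    rw [coc_ll h hψ q, h.dLc_comp hψ hq.2.1.le (hq.2.2.trans he')]
    have k1 : ‖(mJ X q : ℂ) * -lap ψ (X q)‖ ^ 2 ≤ B * (mJ X q * ‖lap ψ (X q)‖ ^ 2) :=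
      coc_pt (sq_nonneg _) (hmJ q hq')
    have k2 : ‖dZc (fun q => (ψ : ℂ → ℂ) (X q)) q‖ ^ 2 ≤ ‖dYc (fun q => (ψ : ℂ → ℂ) (X q)) q‖ ^ 2 +
        ‖dZc (fun q => (ψ : ℂ → ℂ) (X q)) q‖ ^ 2 := le_add_of_nonneg_left (by positivity)
    have k3 := coc_alg3 (z := (ψ : ℂ → ℂ) (X q) - (ψ : ℂ → ℂ) (X (0, 0))) g0 g1 g2 k1 k2
    rw [← mul_assoc (3 * A ^ 2) B] at k3
    exact k3
  rw [norm_fHc_sq hga.ll, coc_cel heH]
  · rw [mul_assoc]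
    refine mul_le_mul_of_nonneg_left (main.trans ?_) (by positivity)
    exact coc_fin hB hC s3 s2 s1 (sq_nonneg _) (sq_nonneg _)
  · intro q hq
    obtain ⟨z0, z1, z2⟩ := coc_cutz he hq
    rw [coc_ll h hψ q, z0, z1, z2]
    simp

private theorem coc_dadd {θ η : ℝ × ℝ → ℂ} (hθ : PC H θ) (hη : PC H η) (v q : ℝ × ℝ) :
    fderiv ℝ (fun q => θ q + η q) q v = fderiv ℝ θ q v + fderiv ℝ η q v := by
  rw [fderiv_fun_add (hθ.smooth.differentiable (by norm_num) q) (hη.smooth.differentiable (by norm_num) q)]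
  rfl

private theorem coc_dmul {θ : ℝ × ℝ → ℂ} (k : ℂ) (hθ : PC H θ) (v q : ℝ × ℝ) :
    fderiv ℝ (fun q => k * θ q) q v = k * fderiv ℝ θ q v := by
  rw [fderiv_const_mul (hθ.smooth.differentiable (by norm_num) q)]
  rfl

private theorem coc_zadd {θ η : ℝ × ℝ → ℂ} (hθ : PC H θ) (hη : PC H η) :
    dZc (fun q => θ q + η q) = fun q => dZc θ q + dZc η q := funext (coc_dadd hθ hη (0, 1))

private theorem coc_yadd {θ η : ℝ × ℝ → ℂ} (hθ : PC H θ) (hη : PC H η) :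
    dYc (fun q => θ q + η q) = fun q => dYc θ q + dYc η q := funext (coc_dadd hθ hη (1, 0))

private theorem coc_ladd {θ η : ℝ × ℝ → ℂ} (hθ : PC H θ) (hη : PC H η) :
    dLc (fun q => θ q + η q) = fun q => dLc θ q + dLc η q := by
  funext q
  unfold dLc
  rw [coc_yadd hθ hη, coc_zadd hθ hη, coc_yadd hθ.yy hη.yy, coc_zadd hθ.zz hη.zz]
  ring

private theorem coc_zmul {θ : ℝ × ℝ → ℂ} (k : ℂ) (hθ : PC H θ) :
    dZc (fun q => k * θ q) = fun q => k * dZc θ q := funext (coc_dmul k hθ (0, 1))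

private theorem coc_ymul {θ : ℝ × ℝ → ℂ} (k : ℂ) (hθ : PC H θ) :
    dYc (fun q => k * θ q) = fun q => k * dYc θ q := funext (coc_dmul k hθ (1, 0))

private theorem coc_lmul {θ : ℝ × ℝ → ℂ} (k : ℂ) (hθ : PC H θ) :
    dLc (fun q => k * θ q) = fun q => k * dLc θ q := by
  funext q
  unfold dLc
  rw [coc_ymul k hθ, coc_zmul k hθ, coc_ymul k hθ.yy, coc_zmul k hθ.zz]
  ring

private theorem coc_bf {θ : ℝ × ℝ → ℂ} (hθ : PC H θ) (n : ℤ) :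
    ((bHc θ : HH H) n : Z2 H) = ka (Real.pi / H) n • (fHc θ : HH H) n + (fHc (dZc θ) : HH H) n := by
  rw [bHc_apply hθ, fHc_apply hθ, fHc_apply hθ.zz, map_add, map_smul]

private theorem coc_badd {θ η : ℝ × ℝ → ℂ} (hθ : PC H θ) (hη : PC H η) :
    (bHc (fun q => θ q + η q) : HH H) = bHc θ + bHc η := by
  refine lp.ext (funext fun n => ?_)
  rw [lp.coeFn_add, Pi.add_apply, coc_bf (hθ.add hη), coc_bf hθ, coc_bf hη, fHc_add hθ hη, coc_zadd hθ hη,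
    fHc_add hθ.zz hη.zz, lp.coeFn_add, lp.coeFn_add, Pi.add_apply, Pi.add_apply, smul_add]
  abel

private theorem coc_bmul {θ : ℝ × ℝ → ℂ} (k : ℂ) (hθ : PC H θ) :
    (bHc (fun q => k * θ q) : HH H) = k • bHc θ := by
  refine lp.ext (funext fun n => ?_)
  rw [lp.coeFn_smul, Pi.smul_apply, coc_bf (hθ.cmul k), coc_bf hθ, fHc_smul k hθ, coc_zmul k hθ,
    fHc_smul k hθ.zz, lp.coeFn_smul, lp.coeFn_smul, Pi.smul_apply, Pi.smul_apply, smul_add, smul_comm]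

private noncomputable def coc_gaL (h : IsStrip D H c X) (he : e < e') : Adm D →ₗ[ℂ] HH H where
  toFun ψ := fHc (dLc (gaF X e e' ψ))
  map_add' f g := by
    have h1 := gaF_pc h he (Adm.cc f).smo
    have h2 := gaF_pc h he (Adm.cc g).smo
    have e1 : gaF X e e' (((f + g : Adm D) : ℂ → ℂ)) =
        fun q => gaF X e e' f q + gaF X e e' g q := gaF_add (f : ℂ → ℂ) g
    rw [e1, coc_ladd h1 h2, fHc_add h1.ll h2.ll]
  map_smul' k f := by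
    have h1 := gaF_pc h he (Adm.cc f).smo
    have e1 : gaF X e e' (((k • f : Adm D) : ℂ → ℂ)) =
        fun q => k * gaF X e e' f q := gaF_smul k (f : ℂ → ℂ)
    rw [e1, coc_lmul k h1, fHc_smul k h1.ll]
    rfl

private noncomputable def coc_laL (h : IsStrip D H c X) (he : e < e') : Adm D →ₗ[ℂ] HH H where
  toFun ψ := bHc (gaF X e e' ψ)
  map_add' f g := by
    have h1 := gaF_pc h he (Adm.cc f).smo
    have h2 := gaF_pc h he (Adm.cc g).smo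
    have e1 : gaF X e e' (((f + g : Adm D) : ℂ → ℂ)) =
        fun q => gaF X e e' f q + gaF X e e' g q := gaF_add (f : ℂ → ℂ) g
    rw [e1, coc_badd h1 h2]
  map_smul' k f := by
    have h1 := gaF_pc h he (Adm.cc f).smo
    have e1 : gaF X e e' (((k • f : Adm D) : ℂ → ℂ)) =
        fun q => k * gaF X e e' f q := gaF_smul k (f : ℂ → ℂ)
    rw [e1, coc_bmul k h1]
    rfl

private theorem coc_sqrt {K R a b c : ℝ} (hK : 0 ≤ K) (hb : 0 ≤ b) (h1 : a ^ 2 ≤ K * (b ^ 2 + c ^ 2))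
    (h2 : c ≤ 2 * R * b) (hc : 0 ≤ c) : a ≤ Real.sqrt (K * (1 + (2 * R) ^ 2)) * b := by
  have h3 : c ^ 2 ≤ (2 * R * b) ^ 2 := pow_le_pow_left₀ hc h2 2
  have h4 : a ^ 2 ≤ K * (1 + (2 * R) ^ 2) * b ^ 2 := by
    refine h1.trans ?_
    have h5 : K * (b ^ 2 + c ^ 2) ≤ K * (b ^ 2 + (2 * R * b) ^ 2) :=
      mul_le_mul_of_nonneg_left (by linarith) hK
    nlinarith
  have h6 : a ≤ Real.sqrt (K * (1 + (2 * R) ^ 2) * b ^ 2) := Real.le_sqrt_of_sq_le h4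
  rw [Real.sqrt_mul (by positivity), Real.sqrt_sq hb] at h6
  exact h6

private theorem coc_sqrt1 {K a b : ℝ} (hK : 0 ≤ K) (hb : 0 ≤ b) (h1 : a ^ 2 ≤ K * b ^ 2) :
    a ≤ Real.sqrt K * b := by
  have h6 : a ≤ Real.sqrt (K * b ^ 2) := Real.le_sqrt_of_sq_le h1
  rw [Real.sqrt_mul hK, Real.sqrt_sq hb] at h6
  exact h6

private theorem coc_la_bd (h : IsStrip D H c X) (hO : IsOpen D) (he0 : 0 < e) (he : e < e') (he' : e' < c) :
    ∃ K : ℝ, 0 ≤ K ∧ ∀ ψ : Adm D, ‖(bHc (gaF X e e' ψ) : HH H)‖ ^ 2 ≤ K * ‖gp (ψ : ℂ → ℂ)‖ ^ 2 := by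
  obtain ⟨A, hA, hcut⟩ := coc_cut e e' H
  obtain ⟨C, hC, hst⟩ := strip_bd h hO he' (he0.trans he)
  have hH0 : (0:ℝ) < H := hH.out
  have heH : e' ≤ H := (he'.trans h.cH).le
  refine ⟨H⁻¹ * (2 * A ^ 2 + 2 * A ^ 2 * C), by positivity, fun ψ => ?_⟩
  have hψ := (Adm.cc ψ).smo
  have hp : PC H (fun q => (ψ : ℂ → ℂ) (X q)) := h.pc hψ
  have hga : PC H (gaF X e e' ψ) := gaF_pc h he hψ
  obtain ⟨s1, s2⟩ := hst ψ
  have c0 : Continuous fun q => ‖dYc (gaF X e e' ψ) q‖ ^ 2 + ‖dZc (gaF X e e' ψ) q‖ ^ 2 :=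
    (hga.yy.smooth.continuous.norm.pow 2).add (hga.zz.smooth.continuous.norm.pow 2)
  have c2 : Continuous fun q => ‖dYc (fun q => (ψ : ℂ → ℂ) (X q)) q‖ ^ 2 +
        ‖dZc (fun q => (ψ : ℂ → ℂ) (X q)) q‖ ^ 2 :=
    (hp.yy.smooth.continuous.norm.pow 2).add (hp.zz.smooth.continuous.norm.pow 2)
  have c3 : Continuous fun q => ‖(ψ : ℂ → ℂ) (X q) - (ψ : ℂ → ℂ) (X (0, 0))‖ ^ 2 :=
    (hp.smooth.continuous.sub continuous_const).norm.pow 2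
  have main : (∫ q in Rc H e', (‖dYc (gaF X e e' ψ) q‖ ^ 2 + ‖dZc (gaF X e e' ψ) q‖ ^ 2)) ≤
      (2 * A ^ 2) * (∫ q in Rc H e', (‖dYc (fun q => (ψ : ℂ → ℂ) (X q)) q‖ ^ 2 +
        ‖dZc (fun q => (ψ : ℂ → ℂ) (X q)) q‖ ^ 2)) +
      (2 * A ^ 2) * (∫ q in Rc H e', ‖(ψ : ℂ → ℂ) (X q) - (ψ : ℂ → ℂ) (X (0, 0))‖ ^ 2) +
      0 * ∫ q in Rc H e', ‖(ψ : ℂ → ℂ) (X q) - (ψ : ℂ → ℂ) (X (0, 0))‖ ^ 2 := by
    refine coc_lin (measurableSet_Rc H e') (coc_intOn c0 e') (coc_intOn c2 e') (coc_intOn c3 e')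
      (coc_intOn c3 e') fun q hq => ?_
    have hq' := coc_sub heH hq
    obtain ⟨g0, g1, g2⟩ := hcut q.2 hq'.2
    rw [coc_yy h hψ q, coc_zz h hψ q, zero_mul, add_zero]
    exact coc_alg2 g0 g1
  rw [zero_mul, add_zero] at main
  refine (norm_bHc_le hga).trans ?_
  rw [coc_cel heH]
  · rw [mul_assoc]
    refine mul_le_mul_of_nonneg_left (main.trans ?_) (by positivity)
    have h1 := mul_le_mul_of_nonneg_left s2 (by positivity : 0 ≤ 2 * A ^ 2)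
    have h2 := mul_le_mul_of_nonneg_left s1 (by positivity : 0 ≤ 2 * A ^ 2)
    linarith
  · intro q hq
    obtain ⟨z0, z1, z2⟩ := coc_cutz he hq
    rw [coc_yy h hψ q, coc_zz h hψ q, z0, z1]
    simp

/-- **The operator `Ga`.** `extendOfNorm` of the linear map `ψ ↦ fHc (dLc (gaF ψ))` along `cuV D` (`cuV_dense`).
Bound: `dLc (ζ (ψ∘X - c)) = ζ J (-Δψ)∘X - 2 ζ' ∂_z (ψ∘X) - ζ'' (ψ∘X - c)` (`PC.ll_mul_z`, `dLc_comp`), `norm_fHc_sq`,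
`IsStrip.integral`, `J ≤ C` on the compact cell, `strip_bd`, `norm_gp_le`. -/
theorem exists_Ga (h : IsStrip D H c X) (hO : IsOpen D) (hD : Bornology.IsBounded D) (he0 : 0 < e) (he : e < e')
    (he' : e' < c) : ∃ Γ : VD D →L[ℂ] HH H, IsGa D X e e' Γ := by
  obtain ⟨K, hK, hb⟩ := coc_ga_bd h hO he0 he he'
  obtain ⟨R, hR, hDR⟩ : ∃ R : ℝ, 0 ≤ R ∧ ∀ x ∈ D, ‖x‖ < R := by
    obtain ⟨r, hr⟩ := hD.subset_closedBall (0 : ℂ)
    refine ⟨|r| + 1, by positivity, fun x hx => ?_⟩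
    have k := mem_closedBall_zero_iff.1 (hr hx)
    have k2 := le_abs_self r
    linarith
  refine ⟨(coc_gaL h he).extendOfNorm (cuV D), ⟨fun ψ => ?_⟩⟩
  refine LinearMap.extendOfNorm_eq (f := coc_gaL h he) (e := cuV D) (cuV_dense D)
    ⟨Real.sqrt (K * (1 + (2 * R) ^ 2)), fun φ => ?_⟩ ψ
  exact coc_sqrt hK (norm_nonneg _) (hb φ) (norm_gp_le hR hDR φ) (norm_nonneg _)

/-- **The operator `La`**: bound by `norm_bHc_le`, `strip_bd`, Leibniz. -/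
theorem exists_La (h : IsStrip D H c X) (hO : IsOpen D) (he0 : 0 < e) (he : e < e')
    (he' : e' < c) : ∃ Λ : XD D →L[ℂ] HH H, IsLa D X e e' Λ := by
  obtain ⟨K, hK, hb⟩ := coc_la_bd h hO he0 he he'
  refine ⟨(coc_laL h he).extendOfNorm (gpX D), ⟨fun ψ => ?_⟩⟩
  refine LinearMap.extendOfNorm_eq (f := coc_laL h he) (e := gpX D) (gpX_dense D)
    ⟨Real.sqrt K, fun φ => ?_⟩ ψ
  exact coc_sqrt1 hK (norm_nonneg _) (hb φ)

/-- `C_c^∞` is dense in `L²` (Mathlib: `MemLp.exists_hasCompactSupport_eLpNorm_sub_le` and smoothing of continuous functions, or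
SpEa2/ScA `mem_XS_iff` with `D = univ`). -/
theorem cl2_dense (f : L2c) {ε : ℝ} (hε : 0 < ε) : ∃ g : ℂ → ℂ, Cc g ∧ ‖f - cl2 g‖ ≤ ε := by
  obtain ⟨g, h1, h2, h3⟩ := MemLp.exist_eLpNorm_sub_le (p := 2) (by norm_num) (by norm_num) (Lp.memLp f) hε
  have hg : Cc g := ⟨h2, h1⟩
  refine ⟨g, hg, ?_⟩
  rw [Lp.norm_def]
  refine ENNReal.toReal_le_of_le_ofReal hε.le ?_
  refine le_trans (le_of_eq (eLpNorm_congr_ae ?_)) h3
  filter_upwards [Lp.coeFn_sub f (cl2 g), cl2_coe (hg.memLp 2)] with x hx hx'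
  rw [hx, Pi.sub_apply, Pi.sub_apply, hx']

private noncomputable def coc_pbF (X : ℝ × ℝ → ℂ) (J : ℝ × ℝ → ℝ) (e e' : ℝ) (f : ℂ → ℂ) (q : ℝ × ℝ) : ℂ :=
  ((ctf e e' q.2 * J q : ℝ) : ℂ) * f (X q)

private theorem coc_pyJ (hJ : IsJ H X e' J) : PY H fun q => ctf e e' q.2 * J q := by
  obtain ⟨ε, h1, h2⟩ := hJ.py.per
  refine ⟨((ctf_smooth e e').comp contDiff_snd).mul hJ.py.smooth, ε, h1, fun y z hy => ?_⟩
  show ctf e e' z * J (y + 2 * H, z) = ctf e e' z * J (y, z)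
  rw [h2 y z hy]

private theorem coc_pbpc (h : IsStrip D H c X) (hJ : IsJ H X e' J) {f : ℂ → ℂ} (hf : Smo f) :
    PC H (coc_pbF X J e e' f) := PC.mulR (coc_pyJ hJ) (h.pc hf)

private noncomputable def coc_pbL (h : IsStrip D H c X) (hJ : IsJ H X e' J) (e : ℝ) : Adm univ →ₗ[ℂ] HH H where
  toFun f := fHc (coc_pbF X J e e' f)
  map_add' f g := by
    have h1 : PC H (coc_pbF X J e e' f) := coc_pbpc h hJ (Adm.cc f).smo
    have h2 : PC H (coc_pbF X J e e' g) := coc_pbpc h hJ (Adm.cc g).smo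
    have e1 : coc_pbF X J e e' (((f + g : Adm univ) : ℂ → ℂ)) =
        fun q => coc_pbF X J e e' f q + coc_pbF X J e e' g q := by
      funext q
      exact mul_add _ _ _
    rw [e1, fHc_add h1 h2]
  map_smul' k f := by
    have h1 : PC H (coc_pbF X J e e' f) := coc_pbpc h hJ (Adm.cc f).smo
    have e1 : coc_pbF X J e e' (((k • f : Adm univ) : ℂ → ℂ)) =
        fun q => k * coc_pbF X J e e' f q := by
      funext q
      exact mul_left_comm _ _ _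
    rw [e1, fHc_smul k h1]
    rfl

private theorem coc_ptJ {A B g J : ℝ} {l : ℂ} (hg : ‖(g : ℂ)‖ ≤ A) (h0 : 0 ≤ J) (h1 : J ≤ B) :
    ‖((g * J : ℝ) : ℂ) * l‖ ^ 2 ≤ A ^ 2 * B * (J * ‖l‖ ^ 2) := by
  have k : ‖((g * J : ℝ) : ℂ) * l‖ = ‖(g : ℂ)‖ * (J * ‖l‖) := by
    rw [norm_mul, Complex.ofReal_mul, norm_mul, Complex.norm_real J, Real.norm_of_nonneg h0]
    ring
  rw [k]
  have k1 : ‖(g : ℂ)‖ ^ 2 ≤ A ^ 2 := pow_le_pow_left₀ (norm_nonneg _) hg 2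
  have k2 : J * (J * ‖l‖ ^ 2) ≤ B * (J * ‖l‖ ^ 2) := mul_le_mul_of_nonneg_right h1 (by positivity)
  have k3 : ‖(g : ℂ)‖ ^ 2 * (J * (J * ‖l‖ ^ 2)) ≤ A ^ 2 * (B * (J * ‖l‖ ^ 2)) :=
    mul_le_mul k1 k2 (by positivity) (by positivity)
  nlinarith

private theorem coc_pb_bd (h : IsStrip D H c X) (hJ : IsJ H X e' J) (he : e < e') (he' : e' < c) :
    ∃ K : ℝ, 0 ≤ K ∧ ∀ f : ℂ → ℂ, Cc f → ‖(fHc (coc_pbF X J e e' f) : HH H)‖ ^ 2 ≤ K * ‖cl2 f‖ ^ 2 := by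
  obtain ⟨A, hA, hcut⟩ := coc_cut e e' H
  obtain ⟨B, hB, hmJ⟩ := coc_mJ_bd h
  have hH0 : (0:ℝ) < H := hH.out
  have heH : e' ≤ H := (he'.trans h.cH).le
  refine ⟨(2 * H)⁻¹ * (A ^ 2 * B), by positivity, fun f hf => ?_⟩
  have hpc : PC H (coc_pbF X J e e' f) := coc_pbpc h hJ hf.smo
  have s3 := coc_pull h he' hf
  have c0 : Continuous fun q => ‖coc_pbF X J e e' f q‖ ^ 2 := hpc.smooth.continuous.norm.pow 2
  have c1 : Continuous fun q => mJ X q * ‖f (X q)‖ ^ 2 :=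
    (coc_mJ h).mul ((hf.smo.continuous.comp h.smooth.continuous).norm.pow 2)
  have main : (∫ q in Rc H e', ‖coc_pbF X J e e' f q‖ ^ 2) ≤
      (A ^ 2 * B) * (∫ q in Rc H e', mJ X q * ‖f (X q)‖ ^ 2) +
      0 * (∫ q in Rc H e', mJ X q * ‖f (X q)‖ ^ 2) +
      0 * ∫ q in Rc H e', mJ X q * ‖f (X q)‖ ^ 2 := by
    refine coc_lin (measurableSet_Rc H e') (coc_intOn c0 e') (coc_intOn c1 e') (coc_intOn c1 e')
      (coc_intOn c1 e') fun q hq => ?_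
    have hq' := coc_sub heH hq
    obtain ⟨g0, g1, g2⟩ := hcut q.2 hq'.2
    rw [zero_mul, add_zero, add_zero]
    unfold coc_pbF
    rw [hJ.eq q hq.2.1.le hq.2.2.le]
    exact coc_ptJ g0 (sq_nonneg _) (hmJ q hq')
  rw [zero_mul, add_zero, add_zero] at main
  rw [norm_fHc_sq hpc, coc_cel heH]
  · rw [mul_assoc]
    refine mul_le_mul_of_nonneg_left (main.trans ?_) (by positivity)
    exact mul_le_mul_of_nonneg_left s3 (by positivity)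
  · intro q hq
    obtain ⟨z0, z1, z2⟩ := coc_cutz he hq
    unfold coc_pbF
    rw [z0]
    simp

private theorem coc_cld : DenseRange (clA (univ : Set ℂ)) := by
  intro f
  rw [Metric.mem_closure_range_iff]
  intro ε hε
  obtain ⟨g, h1, h2⟩ := cl2_dense f (half_pos hε)
  refine ⟨⟨g, h1, subset_univ _⟩, ?_⟩
  rw [dist_eq_norm]
  exact lt_of_le_of_lt h2 (half_lt_self hε)

/-- **The operator `PB`**. -/
theorem exists_PB (h : IsStrip D H c X) (hJ : IsJ H X e' J) (he0 : 0 < e) (he : e < e') (he' : e' < c) :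
    ∃ B : L2c →L[ℂ] HH H, IsPB X e e' J B := by
  have _ := he0
  obtain ⟨K, hK, hb⟩ := coc_pb_bd h hJ he he'
  refine ⟨(coc_pbL h hJ e).extendOfNorm (clA univ), ⟨fun f hf => ?_⟩⟩
  exact LinearMap.extendOfNorm_eq (f := coc_pbL h hJ e) (e := clA univ) coc_cld
    ⟨Real.sqrt K, fun φ => coc_sqrt1 hK (norm_nonneg _) (hb φ (Adm.cc φ))⟩ ⟨f, hf, subset_univ _⟩

end

end Pool.Agent.Lib.MP_79abb3_an.PD
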