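import Pool.Agent.Lib.MP_79abb3_an.PD.CoC
import Pool.Agent.Lib.MP_79abb3_an.SC.ExR

/-!
Theorem D, collar package: pairings with push forwards; `P Ga = Ga`, reality, `PB = ω Ga` on vorticities.
-/

set_option autoImplicit false
set_option linter.unusedSectionVars false

open MeasureTheory Set Filter Topology Function
open scoped ENNReal InnerProductSpace ComplexConjugate

namespace Pool.Agent.Lib.MP_79abb3_an.PD

open Pool.Agent.Lib.MP_79abb3_an.SC Pool.Agent.Lib.MP_79abb3_an.P25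

section aux

private theorem dc_conj (θ : ℝ × ℝ → ℂ) (v : ℝ × ℝ) :
    (fun q => fderiv ℝ (fun q => conj (θ q)) q v) = fun q => conj (fderiv ℝ θ q v) := by
  funext q
  have h := (Complex.conjCLE : ℂ ≃L[ℝ] ℂ).comp_fderiv (f := θ) (x := q)
  have h1 : fderiv ℝ (fun q => conj (θ q)) q = ((Complex.conjCLE : ℂ ≃L[ℝ] ℂ) : ℂ →L[ℝ] ℂ).comp (fderiv ℝ θ q) := h
  rw [h1]
  rfl

private theorem dLc_conj (θ : ℝ × ℝ → ℂ) : dLc (fun q => conj (θ q)) = fun q => conj (dLc θ q) := by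
  have e1 : dYc (fun q => conj (θ q)) = fun q => conj (dYc θ q) := dc_conj θ (1, 0)
  have e2 : dZc (fun q => conj (θ q)) = fun q => conj (dZc θ q) := dc_conj θ (0, 1)
  have e3 : dYc (fun q => conj (dYc θ q)) = fun q => conj (dYc (dYc θ) q) := dc_conj (dYc θ) (1, 0)
  have e4 : dZc (fun q => conj (dZc θ q)) = fun q => conj (dZc (dZc θ) q) := dc_conj (dZc θ) (0, 1)
  funext q
  unfold dLc
  rw [e1, e2, e3, e4, map_neg, map_add]

private theorem dc_ev {θ η : ℝ × ℝ → ℂ} {q : ℝ × ℝ} (h : θ =ᶠ[𝓝 q] η) (v : ℝ × ℝ) :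
    (fun q => fderiv ℝ θ q v) =ᶠ[𝓝 q] fun q => fderiv ℝ η q v := by
  filter_upwards [eventually_eventually_nhds.2 h] with p hp
  rw [Filter.EventuallyEq.fderiv_eq hp]

private theorem dLc_ev {θ η : ℝ × ℝ → ℂ} {q : ℝ × ℝ} (h : θ =ᶠ[𝓝 q] η) : dLc θ q = dLc η q := by
  have e1 : dYc θ =ᶠ[𝓝 q] dYc η := dc_ev h (1, 0)
  have e2 : dZc θ =ᶠ[𝓝 q] dZc η := dc_ev h (0, 1)
  have e3 : dYc (dYc θ) =ᶠ[𝓝 q] dYc (dYc η) := dc_ev e1 (1, 0)
  have e4 : dZc (dZc θ) =ᶠ[𝓝 q] dZc (dZc η) := dc_ev e2 (0, 1)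
  unfold dLc
  rw [e3.eq_of_nhds, e4.eq_of_nhds]

private theorem dLc_cst (a : ℂ) (q : ℝ × ℝ) : dLc (fun _ => a) q = 0 := by
  have e1 : dYc (fun _ : ℝ × ℝ => a) = fun _ => 0 := by
    funext p
    unfold dYc
    rw [fderiv_fun_const]
    rfl
  have e2 : dZc (fun _ : ℝ × ℝ => a) = fun _ => 0 := by
    funext p
    unfold dZc
    rw [fderiv_fun_const]
    rfl
  have e3 : dYc (fun _ : ℝ × ℝ => (0:ℂ)) q = 0 := by
    unfold dYc
    rw [fderiv_fun_const]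
    rfl
  have e4 : dZc (fun _ : ℝ × ℝ => (0:ℂ)) q = 0 := by
    unfold dZc
    rw [fderiv_fun_const]
    rfl
  unfold dLc
  rw [e1, e2, e3, e4]
  ring

private theorem dLc_subc {θ : ℝ × ℝ → ℂ} (a : ℂ) (q : ℝ × ℝ) : dLc (fun q => θ q - a) q = dLc θ q := by
  have e1 : dYc (fun q => θ q - a) = dYc θ := by
    funext p
    unfold dYc
    rw [fderiv_sub_const]
  have e2 : dZc (fun q => θ q - a) = dZc θ := by
    funext p
    unfold dZc
    rw [fderiv_sub_const]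
  unfold dLc
  rw [e1, e2]

private theorem ev_lt {z : ℝ} {q : ℝ × ℝ} (h : q.2 < z) : ∀ᶠ p : ℝ × ℝ in 𝓝 q, p.2 < z :=
  (isOpen_lt continuous_snd continuous_const).mem_nhds h

private theorem ev_gt {z : ℝ} {q : ℝ × ℝ} (h : z < q.2) : ∀ᶠ p : ℝ × ℝ in 𝓝 q, z < p.2 :=
  (isOpen_lt continuous_const continuous_snd).mem_nhds h

end aux

section
variable {H : ℝ} [hH : Fact (0 < H)] {θ η : ℝ × ℝ → ℂ}

private theorem cj_fHc (h : PC H θ) : cjX (fHc θ : HH H) = fHc fun q => conj (θ q) := by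
  have h1 := PC.ofPY h.re
  have h2 := (PC.ofPY h.im).cmul (-Complex.I)
  have e : (fun q => conj (θ q)) = fun q => (((θ q).re : ℝ) : ℂ) + -Complex.I * (((θ q).im : ℝ) : ℂ) := by
    funext q
    apply Complex.ext <;> simp
  have h3 : cjX (Complex.I • (fH h.im : HH H)) = star Complex.I • cjX (fH h.im : HH H) := cjX_cnj.anti _ _
  rw [e, fHc_add h1 h2, fHc_smul _ (PC.ofPY h.im), fHc_ofPY h.re, fHc_ofPY h.im, fHc_eq h, map_add, h3,
    cj_fH, cj_fH, Complex.star_def, Complex.conj_I]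

private theorem fam_zero_at {F : ℝ × ℝ → ℝ} (hF : Continuous F) {z : ℝ} (hz : z ∈ Icc (0:ℝ) H)
    (h : ∀ y, F (y, z) = 0) (n : ℤ) : ex (fam F n : CI H) z = 0 := by
  rw [ex_fam hF n hz, fco]
  simp only [h, Complex.ofReal_zero, zero_mul, intervalIntegral.integral_zero, mul_zero]

private theorem fmc_zero_at (h : PC H θ) {z : ℝ} (hz : z ∈ Icc (0:ℝ) H) (h0 : ∀ y, θ (y, z) = 0) (n : ℤ) :
    ex (fmc θ n : CI H) z = 0 := by
  unfold fmc
  rw [ex_add, ex_smul, fam_zero_at h.re.smooth.continuous hz (fun y => by rw [h0 y]; rfl),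
    fam_zero_at h.im.smooth.continuous hz (fun y => by rw [h0 y]; rfl), mul_zero, add_zero]

private theorem Ms_one_fHc (h : PC H θ) {e' : ℝ} (h0 : ∀ y z, e' < z → θ (y, z) = 0) {m : CI H}
    (hm : ∀ z ∈ Icc (0:ℝ) e', ex m z = 1) : Ms m (fHc θ) = (fHc θ : HH H) := by
  refine lp.ext (funext fun n => ?_)
  rw [Ms_apply, fHc_apply h, mz_iota]
  congr 1
  refine ci_ext fun z hz => ?_
  rw [ex_mul]
  by_cases hz' : z ≤ e'
  · rw [hm z ⟨hz.1, hz'⟩, one_mul]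
  · rw [fmc_zero_at h hz (fun y => h0 y z (not_le.1 hz')) n, mul_zero]

private theorem dense_Cc {P : L2c → Prop} (hP : IsClosed {f | P f}) (h : ∀ g : ℂ → ℂ, Cc g → P (cl2 g))
    (f : L2c) : P f := by
  have hc : f ∈ closure {f : L2c | P f} := by
    rw [Metric.mem_closure_iff]
    intro ε hε
    obtain ⟨g, hg, h1⟩ := cl2_dense f (half_pos hε)
    exact ⟨cl2 g, h g hg, by rw [dist_eq_norm]; linarith⟩
  rw [hP.closure_eq] at hc
  exact hc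

end

section
variable {D : Set ℂ} {H c e e' : ℝ} [hH : Fact (0 < H)] {X : ℝ × ℝ → ℂ} {J : ℝ × ℝ → ℝ}
  {Γ : VD D →L[ℂ] HH H} {Λ : XD D →L[ℂ] HH H} {B : L2c →L[ℂ] HH H}

private theorem IsGa.con (h : IsStrip D H c X) (hO : IsOpen D) (he0 : 0 < e) (he : e < e') (ψ : Adm D) :
    ConC (gaF X e e' ψ) := by
  obtain ⟨ε, hε, h1⟩ := gaF_con h hO he0 he ψ
  exact ⟨ε, hε, 0, h1⟩

/-- `P Ga = Ga` (density, `PP_ll`, `gaF_con`). -/
theorem IsGa.PP (hΓ : IsGa D X e e' Γ) (h : IsStrip D H c X) (hO : IsOpen D) (he0 : 0 < e) (he : e < e')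
    (he' : e' < c) (v : VD D) : SC.PP (Real.pi / H) (Γ v) = Γ v := by
  have hcl : IsClosed {v : VD D | SC.PP (Real.pi / H) (Γ v) = Γ v} :=
    isClosed_eq ((SC.PP (Real.pi / H)).continuous.comp Γ.continuous) Γ.continuous
  refine isClosed_property (cuV_dense D) hcl (fun ψ => ?_) v
  show SC.PP (Real.pi / H) (Γ (cuV D ψ)) = Γ (cuV D ψ)
  rw [hΓ.eq ψ]
  exact PP_ll (gaF_pc h he (Adm.cc ψ).smo) (gaF_van h he he' ψ) (IsGa.con h hO he0 he ψ)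

/-- `T Ga = La iot` (density, `TT_ll`, `iot_cuV`). -/
theorem IsGa.TT (hΓ : IsGa D X e e' Γ) (hΛ : IsLa D X e e' Λ) (h : IsStrip D H c X) (hO : IsOpen D)
    (hD : Bornology.IsBounded D) (he0 : 0 < e) (he : e < e') (he' : e' < c) (v : VD D) :
    SC.TT (Real.pi / H) (Γ v) = Λ (iot D v) := by
  have hcl : IsClosed {v : VD D | SC.TT (Real.pi / H) (Γ v) = Λ (iot D v)} :=
    isClosed_eq ((SC.TT (Real.pi / H)).continuous.comp Γ.continuous)
      (Λ.continuous.comp (iot D).continuous)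
  refine isClosed_property (cuV_dense D) hcl (fun ψ => ?_) v
  show SC.TT (Real.pi / H) (Γ (cuV D ψ)) = Λ (iot D (cuV D ψ))
  rw [hΓ.eq ψ, iot_cuV hD ψ, hΛ.eq ψ]
  exact TT_ll (gaF_pc h he (Adm.cc ψ).smo) (gaF_van h he he' ψ)

/-- `Ga` commutes with complex conjugation. -/
theorem IsGa.real (hΓ : IsGa D X e e' Γ) (h : IsStrip D H c X) (hO : IsOpen D) (he0 : 0 < e) (he : e < e')
    (he' : e' < c) (v : VD D) : cjX (Γ v) = Γ (cVD D v) := by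
  have hcl : IsClosed {v : VD D | cjX (Γ v) = Γ (cVD D v)} :=
    isClosed_eq (cjX.continuous.comp Γ.continuous) (Γ.continuous.comp (cVD D).continuous)
  refine isClosed_property (cuV_dense D) hcl (fun ψ => ?_) v
  show cjX (Γ (cuV D ψ)) = Γ (cVD D (cuV D ψ))
  rw [cVD_cuV, hΓ.eq ψ, hΓ.eq (cA ψ), cj_fHc (gaF_pc h he (Adm.cc ψ).smo).ll, ← dLc_conj]
  congr 2
  funext q
  unfold gaF
  rw [map_mul, map_sub, Complex.conj_ofReal]
  rfl

private theorem pc_comp (h : IsStrip D H c X) {f : ℂ → ℂ} (hf : Smo f) : PC H fun q => f (X q) := by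
  have hs : ContDiff ℝ ((⊤ : ℕ∞) : WithTop ℕ∞) fun q => f (X q) := ContDiff.comp hf h.smooth
  refine ⟨⟨Complex.reCLM.contDiff.comp hs, 1, one_pos, fun y z _ => ?_⟩,
    ⟨Complex.imCLM.contDiff.comp hs, 1, one_pos, fun y z _ => ?_⟩⟩
  · rw [h.per]
  · rw [h.per]

private theorem pc_pb (h : IsStrip D H c X) (hJ : IsJ H X e' J) {f : ℂ → ℂ} (hf : Smo f) :
    PC H fun q => ((ctf e e' q.2 * J q : ℝ) : ℂ) * f (X q) :=
  PC.mulR ((PY.of_z H (ctf_smooth e e')).mul hJ.py) (pc_comp h hf)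

theorem IsPB.real (hB : IsPB X e e' J B) (h : IsStrip D H c X) (hJ : IsJ H X e' J) (he0 : 0 < e) (he : e < e')
    (he' : e' < c) (f : L2c) : cjX (B f) = B (cL2 f) := by
  refine dense_Cc (P := fun f => cjX (B f) = B (cL2 f))
    (isClosed_eq (cjX.continuous.comp B.continuous) (B.continuous.comp cL2.continuous)) (fun g hg => ?_) f
  rw [cl2_conj (hg.memLp 2), hB.eq g hg, hB.eq _ hg.conj, cj_fHc (pc_pb h hJ hg.smo)]
  congr 1
  funext q
  rw [map_mul, Complex.conj_ofReal]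

private theorem gaF_up (he : e < e') (ψ : ℂ → ℂ) (y z : ℝ) (hz : e' < z) : dLc (gaF X e e' ψ) (y, z) = 0 := by
  rw [← dLc_cst 0 (y, z)]
  apply dLc_ev
  filter_upwards [ev_gt (q := (y, z)) hz] with p hp
  unfold gaF
  rw [ctf_zero he hp.le]
  simp

/-- `ζ Ga = Ga` for a cut-off which is `1` on `z ≤ e'`. -/
theorem IsGa.supp (hΓ : IsGa D X e e' Γ) (h : IsStrip D H c X) (hO : IsOpen D) (he0 : 0 < e) (he : e < e')
    (he' : e' < c) {m : CI H} (hm : ∀ z ∈ Icc (0:ℝ) e', ex m z = 1) (v : VD D) : Ms m (Γ v) = Γ v := by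
  have hcl : IsClosed {v : VD D | Ms m (Γ v) = Γ v} :=
    isClosed_eq ((Ms m).continuous.comp Γ.continuous) Γ.continuous
  refine isClosed_property (cuV_dense D) hcl (fun ψ => ?_) v
  show Ms m (Γ (cuV D ψ)) = Γ (cuV D ψ)
  rw [hΓ.eq ψ]
  exact Ms_one_fHc (gaF_pc h he (Adm.cc ψ).smo).ll (fun y z hz => gaF_up he _ y z hz) hm

theorem IsPB.supp (hB : IsPB X e e' J B) (h : IsStrip D H c X) (hJ : IsJ H X e' J) (he0 : 0 < e) (he : e < e')
    (he' : e' < c) {m : CI H} (hm : ∀ z ∈ Icc (0:ℝ) e', ex m z = 1) (f : L2c) : Ms m (B f) = B f := by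
  refine dense_Cc (P := fun f => Ms m (B f) = B f)
    (isClosed_eq ((Ms m).continuous.comp B.continuous) B.continuous) (fun g hg => ?_) f
  rw [hB.eq g hg]
  refine Ms_one_fHc (pc_pb h hJ hg.smo) (fun y z hz => ?_) hm
  simp only
  rw [ctf_zero he hz.le, zero_mul, Complex.ofReal_zero, zero_mul]

private theorem gaF_dn (h : IsStrip D H c X) (he : e < e') {ψ : ℂ → ℂ} (hψ : Smo ψ) {q : ℝ × ℝ} (h0 : 0 ≤ q.2)
    (h1 : q.2 < e) (h2 : q.2 < c) : dLc (gaF X e e' ψ) q = (mJ X q : ℂ) * -lap ψ (X q) := by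
  rw [← h.dLc_comp hψ h0 h2, ← dLc_subc (θ := fun q => ψ (X q)) (ψ (X (0, 0)))]
  apply dLc_ev
  filter_upwards [ev_lt (q := q) h1] with p hp
  unfold gaF
  rw [ctf_one he hp.le, Complex.ofReal_one, one_mul]

/-- `PB v = ω Ga v`, if the cut-off of `Ga` is `1` on the support of `ω` (both sides at `v = cuV ψ`; `PB (cu ψ)` is
`ω J (-Δψ)∘X`, `dLc_comp`). -/
theorem IsPB.Ga {a a' : ℝ} (hB : IsPB X a a' J B) (hΓ : IsGa D X e e' Γ) (h : IsStrip D H c X) (hJ : IsJ H X a' J)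
    (ha0 : 0 < a) (ha : a < a') (hae : a' ≤ e) (he : e < e') (he' : e' < c) (v : VD D) :
    B (v : L2c) = Ms (Pool.Agent.Lib.MP_79abb3_an.FW.rc (ctf a a') (ctf_smooth a a').continuous) (Γ v) := by
  have hcl : IsClosed {v : VD D | B (v : L2c) =
      Ms (Pool.Agent.Lib.MP_79abb3_an.FW.rc (ctf a a') (ctf_smooth a a').continuous) (Γ v)} :=
    isClosed_eq (B.continuous.comp continuous_subtype_val)
      ((Ms (Pool.Agent.Lib.MP_79abb3_an.FW.rc (ctf a a') (ctf_smooth a a').continuous)).continuous.comp Γ.continuous)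
  refine isClosed_property (cuV_dense D) hcl (fun ψ => ?_) v
  show B ((cuV D ψ : VD D) : L2c) =
    Ms (Pool.Agent.Lib.MP_79abb3_an.FW.rc (ctf a a') (ctf_smooth a a').continuous) (Γ (cuV D ψ))
  have hψ := Adm.cc ψ
  have hga := (gaF_pc (e := e) (e' := e') h he hψ.smo).ll
  rw [hΓ.eq ψ, Ms_fHc (ctf_smooth a a') hga, cuV_coe]
  have e1 : cu (ψ : ℂ → ℂ) = -cl2 (lap (ψ : ℂ → ℂ)) := rfl
  have e2 : -(cl2 (lap (ψ : ℂ → ℂ))) = (-1 : ℂ) • cl2 (lap (ψ : ℂ → ℂ)) := by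
    rw [neg_smul, one_smul]
  rw [e1, e2, map_smul, hB.eq _ hψ.lap, ← fHc_smul _ (pc_pb h hJ hψ.smo.lap)]
  refine fHc_congr ((pc_pb h hJ hψ.smo.lap).cmul _)
    (PC.mulR (PY.of_z H (ctf_smooth a a')) hga) (fun q hq => ?_)
  by_cases hq2 : q.2 < a'
  · rw [gaF_dn h he hψ.smo hq.2.1 (hq2.trans_le hae) (by linarith), hJ.eq q hq.2.1 hq2.le]
    push_cast
    ring
  · rw [ctf_zero ha (not_lt.1 hq2)]
    simp

private theorem int_cel (F : ℝ × ℝ → ℂ) {c : ℝ} (hc : c < H)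
    (h0 : ∀ q ∈ Cel H, ¬(0 < q.2 ∧ q.2 < c) → F q = 0) : ∫ q in Cel H, F q = ∫ q in Rc H c, F q := by
  have h1 : ∫ q in Cel H, F q = ∫ q in Icc (-H) H ×ˢ Ioo 0 c, F q := by
    refine setIntegral_eq_of_subset_of_forall_sdiff_eq_zero (measurableSet_Icc.prod measurableSet_Icc) ?_ ?_
    · exact Set.prod_mono le_rfl (fun z hz => ⟨hz.1.le, (hz.2.trans hc).le⟩)
    · rintro q ⟨hq, hq'⟩
      exact h0 q hq (fun h => hq' ⟨hq.1, h⟩)
  rw [h1]
  exact setIntegral_congr_set (Measure.set_prod_ae_eq Ioc_ae_eq_Icc.symm (ae_eq_refl _))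

private theorem psh_int (h : IsStrip D H c X) (θ : ℝ × ℝ → ℂ) (g : ℂ → ℂ) :
    ∫ x, conj (psh H c X θ x) * g x = ∫ q in Rc H c, (mJ X q : ℂ) * (conj (θ q) * g (X q)) := by
  rw [← setIntegral_eq_integral_of_forall_compl_eq_zero (s := Wc X c)
    (fun x hx => by rw [h.psh_out θ hx, map_zero, zero_mul]), h.integral le_rfl]
  refine setIntegral_congr_fun (measurableSet_Rc H c) (fun q hq => ?_)
  show mJ X q • (conj (psh H c X θ (X q)) * g (X q)) = _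
  rw [h.psh_X θ hq, Complex.real_smul]

private theorem tfs_mul {F : ℝ × ℝ → ℝ} {θ : ℝ × ℝ → ℂ} {e1 e2 : ℝ} (hF : PY H F) (hθ : TfS H e1 e2 θ) :
    TfS H e1 e2 (fun q => (F q : ℂ) * θ q) :=
  ⟨PC.mulR hF hθ.pc, fun y z hz => by rw [hθ.low y z hz, mul_zero],
    fun y z hz => by rw [hθ.up y z hz, mul_zero]⟩

private theorem tfs_ll {θ : ℝ × ℝ → ℂ} {e1 e2 : ℝ} (hθ : TfS H e1 e2 θ) : TfS H e1 e2 (dLc θ) := by
  refine ⟨hθ.pc.ll, fun y z hz => ?_, fun y z hz => ?_⟩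
  · rw [← dLc_cst 0 (y, z)]
    apply dLc_ev
    filter_upwards [ev_lt (q := (y, z)) hz] with p hp
    exact hθ.low p.1 p.2 hp
  · rw [← dLc_cst 0 (y, z)]
    apply dLc_ev
    filter_upwards [ev_gt (q := (y, z)) hz] with p hp
    exact hθ.up p.1 p.2 hp

private theorem tfs_up {θ : ℝ × ℝ → ℂ} {e1 e2 : ℝ} (hθ : TfS H e1 e2 θ) (y z : ℝ) (hz : e2 ≤ z) :
    θ (y, z) = 0 := by
  rcases hz.lt_or_eq with h | rfl
  · exact hθ.up y z h
  · have h1 : Tendsto (fun t : ℝ => θ (y, t)) (𝓝[>] e2) (𝓝 (θ (y, e2))) :=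
      ((hθ.pc.smooth.continuous.comp (Continuous.prodMk_right y)).tendsto e2).mono_left nhdsWithin_le_nhds
    have h2 : Tendsto (fun t : ℝ => θ (y, t)) (𝓝[>] e2) (𝓝 0) := by
      refine tendsto_const_nhds.congr' ?_
      filter_upwards [self_mem_nhdsWithin] with t ht
      exact (hθ.up y t ht).symm
    exact tendsto_nhds_unique h1 h2

private theorem tfs_out {θ : ℝ × ℝ → ℂ} {e1 e2 : ℝ} (hθ : TfS H e1 e2 θ) (h1 : 0 < e1) (h2 : e2 < c)
    {q : ℝ × ℝ} (hq : ¬(0 < q.2 ∧ q.2 < c)) : θ q = 0 := by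
  by_cases h : 0 < q.2
  · exact hθ.up q.1 q.2 (by
      by_contra h3
      exact hq ⟨h, by linarith⟩)
  · exact hθ.low q.1 q.2 (by linarith)

private theorem two_H_cancel (z : ℂ) : (2 * H : ℂ) * ((2 * H : ℂ)⁻¹ * z) = z := by
  have h : (2 * H : ℂ) ≠ 0 := by
    have := hH.out.ne'
    exact mul_ne_zero two_ne_zero (Complex.ofReal_ne_zero.2 this)
  rw [mul_inv_cancel_left₀ h]

/-- **Pairing with a push forward**: `⟨psh (ω θ), f⟩ = 2H ⟨θ, PB f⟩` (change of variables, Parseval, density). -/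
theorem IsPB.pair (hB : IsPB X e e' J B) (h : IsStrip D H c X) (hJ : IsJ H X e' J) (he0 : 0 < e) (he : e < e')
    (he' : e' < c) {θ : ℝ × ℝ → ℂ} {e1 e2 : ℝ} (hθ : TfS H e1 e2 θ) (h1 : 0 < e1) (h2 : e2 < c) (f : L2c) :
    ⟪cl2 (psh H c X fun q => ((ctf e e' q.2 : ℝ) : ℂ) * θ q), f⟫_ℂ = (2 * H : ℂ) * ⟪(fHc θ : HH H), B f⟫_ℂ := by
  refine dense_Cc (P := fun f => ⟪cl2 (psh H c X fun q => ((ctf e e' q.2 : ℝ) : ℂ) * θ q), f⟫_ℂ =
    (2 * H : ℂ) * ⟪(fHc θ : HH H), B f⟫_ℂ) (isClosed_eq (continuous_const.inner continuous_id)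
      (continuous_const.mul (continuous_const.inner B.continuous))) (fun g hg => ?_) f
  have hω : TfS H e1 e2 (fun q => ((ctf e e' q.2 : ℝ) : ℂ) * θ q) :=
    tfs_mul (PY.of_z H (ctf_smooth e e')) hθ
  rw [hB.eq g hg, inner_fHc hθ.pc (pc_pb h hJ hg.smo), two_H_cancel, Cc.inner (h.psh_mem hω h1 h2).1 hg,
    psh_int h, int_cel _ h.cH (fun q _ hq => by rw [tfs_out hθ h1 h2 hq, map_zero, zero_mul])]
  refine setIntegral_congr_fun (measurableSet_Rc H c) (fun q hq => ?_)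
  by_cases hz : q.2 ≤ e'
  · simp only [hJ.eq q hq.2.1.le hz, map_mul, Complex.conj_ofReal]
    push_cast
    ring
  · simp only [ctf_zero he (not_le.1 hz).le, map_mul, Complex.conj_ofReal]
    push_cast
    ring

/-- `⟨psh θ, v⟩ = 2H ⟨θ, Ga v⟩` for `θ` supported in `z ≤ e`. -/
theorem IsGa.pair (hΓ : IsGa D X e e' Γ) (h : IsStrip D H c X) (he : e < e') (he' : e' < c)
    {θ : ℝ × ℝ → ℂ} {e1 e2 : ℝ} (hθ : TfS H e1 e2 θ) (h1 : 0 < e1) (h2 : e2 ≤ e) (v : VD D) :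
    ⟪cl2 (psh H c X θ), (v : L2c)⟫_ℂ = (2 * H : ℂ) * ⟪(fHc θ : HH H), Γ v⟫_ℂ := by
  have hcl : IsClosed {v : VD D | ⟪cl2 (psh H c X θ), (v : L2c)⟫_ℂ = (2 * H : ℂ) * ⟪(fHc θ : HH H), Γ v⟫_ℂ} :=
    isClosed_eq (continuous_const.inner continuous_subtype_val)
      (continuous_const.mul (continuous_const.inner Γ.continuous))
  refine isClosed_property (cuV_dense D) hcl (fun ψ => ?_) v
  show ⟪cl2 (psh H c X θ), ((cuV D ψ : VD D) : L2c)⟫_ℂ = (2 * H : ℂ) * ⟪(fHc θ : HH H), Γ (cuV D ψ)⟫_ℂ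
  have hψ := Adm.cc ψ
  have hga := (gaF_pc (e := e) (e' := e') h he hψ.smo).ll
  have h2c : e2 < c := by linarith
  have e1' : ((cuV D ψ : VD D) : L2c) = -cl2 (lap (ψ : ℂ → ℂ)) := rfl
  rw [hΓ.eq ψ, e1', inner_neg_right, Cc.inner (h.psh_mem hθ h1 h2c).1 hψ.lap, inner_fHc hθ.pc hga,
    two_H_cancel, psh_int h, int_cel _ h.cH (fun q _ hq => by rw [tfs_out hθ h1 h2c hq, map_zero, zero_mul]),
    ← integral_neg]
  refine setIntegral_congr_fun (measurableSet_Rc H c) (fun q hq => ?_)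
  by_cases hz : q.2 < e
  · simp only [gaF_dn h he hψ.smo hq.2.1.le hz hq.2.2]
    ring
  · have h0 : θ q = 0 := tfs_up hθ q.1 q.2 (h2.trans (not_lt.1 hz))
    simp only [h0, map_zero, zero_mul, mul_zero, neg_zero]

private theorem lap_out {f : ℂ → ℂ} {x : ℂ} (hx : x ∉ tsupport f) : lap f x = 0 := by
  have h0 : f =ᶠ[𝓝 x] fun _ => 0 := notMem_tsupport_iff_eventuallyEq.1 hx
  have key : ∀ {g : ℂ → ℂ} (v : ℂ), g =ᶠ[𝓝 x] (fun _ => (0:ℂ)) →
      (fun y => fderiv ℝ g y v) =ᶠ[𝓝 x] fun _ => 0 := by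
    intro g v hg
    filter_upwards [eventually_eventually_nhds.2 hg] with p hp
    rw [Filter.EventuallyEq.fderiv_eq hp, fderiv_fun_const]
    rfl
  have h1 : px (px f) x = 0 := (key 1 (key 1 h0)).eq_of_nhds
  have h2 : py (py f) x = 0 := (key Complex.I (key Complex.I h0)).eq_of_nhds
  show px (px f) x + py (py f) x = 0
  rw [h1, h2, add_zero]

private theorem cu_psh (h : IsStrip D H c X) {e₀ : ℝ} (hJ : IsJ H X e₀ J)
    {θ : ℝ × ℝ → ℂ} {e1 e2 : ℝ} (hθ : TfS H e1 e2 θ) (h1 : 0 < e1) (h2 : e2 ≤ e₀) (h2c : e2 < c) :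
    cu (psh H c X θ) = cl2 (psh H c X fun q => (((J q)⁻¹ : ℝ) : ℂ) * dLc θ q) := by
  have hm := h.psh_mem hθ h1 h2c
  have hsub : X '' (Icc (-H) H ×ˢ Icc e1 e2) ⊆ Wc X c := by
    rintro _ ⟨q, hq, rfl⟩
    exact ⟨q, ⟨lt_of_lt_of_le h1 hq.2.1, lt_of_le_of_lt hq.2.2 h2c⟩, rfl⟩
  have e : (fun x => -lap (psh H c X θ) x) = psh H c X fun q => (((J q)⁻¹ : ℝ) : ℂ) * dLc θ q := by
    funext x
    by_cases hx : x ∈ Wc X c
    · rw [h.Wc_eq] at hx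
      obtain ⟨q, hq, rfl⟩ := hx
      rw [h.psh_X _ hq]
      have h3 := h.psh_lap hθ h1 h2c hq
      have hm0 : (mJ X q : ℂ) ≠ 0 := by
        have h4 : fderiv ℝ X (q.1, q.2) (1, 0) ≠ 0 := h.der q.1 q.2 hq.2.1.le hq.2.2
        have h5 : mJ X q ≠ 0 := by
          unfold mJ
          exact pow_ne_zero 2 (norm_ne_zero_iff.2 h4)
        exact Complex.ofReal_ne_zero.2 h5
      have h4 : (mJ X q : ℂ) * -lap (psh H c X θ) (X q) = dLc θ q := by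
        unfold dLc
        rw [← h3]
        ring
      rw [← h4]
      by_cases hz : q.2 ≤ e₀
      · rw [hJ.eq q hq.2.1.le hz, Complex.ofReal_inv, inv_mul_cancel_left₀ hm0]
      · have h5 : dLc θ q = 0 := (tfs_ll hθ).up q.1 q.2 (h2.trans_lt (not_le.1 hz))
        rw [h5] at h4
        have h6 : -lap (psh H c X θ) (X q) = 0 := (mul_eq_zero.1 h4).resolve_left hm0
        rw [h6, mul_zero, mul_zero]
    · rw [h.psh_out _ hx, lap_out (fun hx' => hx (hsub (hm.2 hx'))), neg_zero]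
  rw [← e]
  show -cl2 (lap (psh H c X θ)) = _
  have h3 : MemLp (lap (psh H c X θ)) 2 (volume : Measure ℂ) := hm.1.lap.memLp 2
  apply Lp.ext
  filter_upwards [Lp.coeFn_neg (cl2 (lap (psh H c X θ))), cl2_coe h3, cl2_coe h3.neg] with x k1 k2 k3
  rw [k1, Pi.neg_apply, k2]
  exact k3.symm

/-- `⟨-Δ psh θ, v⟩ = 2H ⟨-Δθ, a Ga v⟩`, `a = 1/J` (`psh_lap`: `cu (psh θ) = cl2 (psh (a (-Δθ)))`, `IsGa.pair`, `cm_fHc`,
`inner_cm_fam`). -/
theorem IsGa.pair_cu (hΓ : IsGa D X e e' Γ) (h : IsStrip D H c X) (hJ : IsJ H X e J) (he : e < e') (he' : e' < c)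
    {θ : ℝ × ℝ → ℂ} {e1 e2 : ℝ} (hθ : TfS H e1 e2 θ) (h1 : 0 < e1) (h2 : e2 ≤ e) (v : VD D) :
    ⟪cu (psh H c X θ), (v : L2c)⟫_ℂ =
      (2 * H : ℂ) * ⟪(fHc (dLc θ) : HH H), SC.cm (fam fun q => (J q)⁻¹) (Γ v)⟫_ℂ := by
  have hi : PY H fun q => (J q)⁻¹ := hJ.py.inv hJ.pos
  have ht := tfs_mul hi (tfs_ll hθ)
  rw [cu_psh h hJ hθ h1 h2 (by linarith), hΓ.pair h he he' ht h1 h2 v, ← cm_fHc hi hθ.pc.ll, inner_cm_fam hi]

/-- the same for `PB f` (`f` any square integrable function) -/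
theorem IsPB.pair_cu (hB : IsPB X e e' J B) (h : IsStrip D H c X) (hJ : IsJ H X e' J) (he0 : 0 < e) (he : e < e')
    (he' : e' < c) {θ : ℝ × ℝ → ℂ} {e1 e2 : ℝ} (hθ : TfS H e1 e2 θ) (h1 : 0 < e1) (h2 : e2 ≤ e) (f : L2c) :
    ⟪cu (psh H c X θ), f⟫_ℂ =
      (2 * H : ℂ) * ⟪(fHc (dLc θ) : HH H), SC.cm (fam fun q => (J q)⁻¹) (B f)⟫_ℂ := by
  have hi : PY H fun q => (J q)⁻¹ := hJ.py.inv hJ.pos
  have ht := tfs_mul hi (tfs_ll hθ)
  have h2c : e2 < c := by linarith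
  have e3 : (fun q => ((ctf e e' q.2 : ℝ) : ℂ) * ((((J q)⁻¹ : ℝ) : ℂ) * dLc θ q)) =
      fun q => (((J q)⁻¹ : ℝ) : ℂ) * dLc θ q := by
    funext q
    by_cases hz : q.2 ≤ e
    · rw [ctf_one he hz, Complex.ofReal_one, one_mul]
    · have h5 : dLc θ q = 0 := (tfs_ll hθ).up q.1 q.2 (h2.trans_lt (not_le.1 hz))
      rw [h5, mul_zero, mul_zero]
  have h3 := hB.pair h hJ he0 he he' ht h1 h2c f
  rw [e3] at h3
  rw [cu_psh h hJ hθ h1 (h2.trans he.le) h2c, h3, ← cm_fHc hi hθ.pc.ll, inner_cm_fam hi]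

end

end Pool.Agent.Lib.MP_79abb3_an.PD
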