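import Pool.Agent.Lib.MP_79abb3_an.PD.CoC2
import Pool.Agent.Lib.MP_79abb3_an.SC.ApT
import Pool.Agent.Lib.MP_79abb3_an.SC.ApF

/-!
Theorem D, collar package: the transport term in modes.
-/

set_option autoImplicit false
set_option linter.unusedSectionVars false

open MeasureTheory Set Filter Topology Function
open scoped ENNReal InnerProductSpace ComplexConjugate

namespace Pool.Agent.Lib.MP_79abb3_an.PD

open Pool.Agent.Lib.MP_79abb3_an.SC Pool.Agent.Lib.MP_79abb3_an.P25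

section
variable {D : Set ℂ} {H c e e' : ℝ} [hH : Fact (0 < H)] {X : ℝ × ℝ → ℂ} {J : ℝ × ℝ → ℝ}
  {Γ : VD D →L[ℂ] HH H}

/-- The push forward of a test function as a stream function of `D`. -/
noncomputable def pshA (h : IsStrip D H c X) {θ : ℝ × ℝ → ℂ} {e1 e2 : ℝ} (hθ : TfS H e1 e2 θ) (h1 : 0 < e1)
    (h2 : e2 < c) : Adm D :=
  ⟨psh H c X θ, (h.psh_mem hθ h1 h2).1, by
    refine Subset.trans ?_ (h.image_sub h1 h2)
    exact (tsupport_fderiv_subset ℝ).trans (h.psh_mem hθ h1 h2).2⟩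

theorem pshA_coe (h : IsStrip D H c X) {θ : ℝ × ℝ → ℂ} {e1 e2 : ℝ} (hθ : TfS H e1 e2 θ) (h1 : 0 < e1)
    (h2 : e2 < c) : (pshA h hθ h1 h2 : ℂ → ℂ) = psh H c X θ := rfl

/-! ### auxiliary lemmas: weights, sequences -/

private noncomputable def c3w (H : ℝ) (n : ℤ) : ℝ := 1 + |Real.pi / H * n|

private theorem c3w_one (n : ℤ) : 1 ≤ c3w H n := by
  unfold c3w; linarith [abs_nonneg (Real.pi / H * n)]

private theorem c3w_pw : PrW (c3w H) 0 0 1 :=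
  prW_of (div_pos Real.pi_pos hH.out) c3w_one (fun n => by unfold c3w; linarith) le_rfl le_rfl
    zero_le_one (by norm_num)

private theorem c3_S2 {E : Type} [NormedAddCommGroup E] [NormedSpace ℂ E] (lam : ℤ → ℝ) (x : l2 E) : S2 lam 0 (⇑x) := by
  unfold S2
  simpa using l2_summable x

private theorem c3_N2 {E : Type} [NormedAddCommGroup E] [NormedSpace ℂ E] (lam : ℤ → ℝ) (x : l2 E) : SC.N2 lam 0 (⇑x) = ‖x‖ := by
  unfold SC.N2
  have h : ∑' n, (lam n ^ (0 : ℝ) * ‖x n‖) ^ 2 = ‖x‖ ^ 2 := by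
    rw [l2_norm_sq]
    simp
  rw [h, Real.sqrt_sq (norm_nonneg _)]

private theorem c3_S2f {θ : ℝ × ℝ → ℂ} (hθ : PC H θ) : S2 (c3w H) 1 (⇑(fHc θ : HH H)) := by
  have hH0 := hH.out
  have hω : 0 < Real.pi / H := div_pos Real.pi_pos hH0
  have h := (fmc_sum hθ 1).mul_left ((1 + Real.pi / H) * ‖(iota : CI H →L[ℂ] Z2 H)‖)
  have h2 : Summable fun n : ℤ => ‖c3w H n ^ (1 : ℝ) * ‖(fHc θ : HH H) n‖‖ := by
    refine Summable.of_nonneg_of_le (fun n => norm_nonneg _) (fun n => ?_) h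
    rw [fHc_apply hθ, Real.rpow_one, Real.norm_of_nonneg
      (mul_nonneg (by linarith [c3w_one (H := H) n]) (norm_nonneg _)), pow_one]
    have h3 : c3w H n ≤ (1 + Real.pi / H) * (1 + |(n : ℝ)|) := by
      unfold c3w
      rw [abs_mul, abs_of_pos hω]
      nlinarith [abs_nonneg (n : ℝ)]
    have h4 : ‖(iota (fmc θ n : CI H) : Z2 H)‖ ≤ ‖(iota : CI H →L[ℂ] Z2 H)‖ * ‖(fmc θ n : CI H)‖ :=
      iota.le_opNorm _
    calc c3w H n * ‖(iota (fmc θ n : CI H) : Z2 H)‖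
        ≤ ((1 + Real.pi / H) * (1 + |(n : ℝ)|)) * (‖(iota : CI H →L[ℂ] Z2 H)‖ * ‖(fmc θ n : CI H)‖) :=
          mul_le_mul h3 h4 (norm_nonneg _) (by positivity)
      _ = _ := by ring
  have h5 := sq_summable_of h2
  refine h5.congr fun n => ?_
  rw [Real.norm_eq_abs, sq_abs]

private theorem c3_S2u {U : ℤ → CI H} {g : HH H} {K : ℝ} (hK : 0 ≤ K) (hU : ∀ n, ‖U n‖ ≤ K * ‖g n‖) :
    S2 (c3w H) 0 U ∧ SC.N2 (c3w H) 0 U ≤ K * ‖g‖ := by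
  have h := S2_dom c3w_one hK hU (c3_S2 (c3w H) g)
  rw [c3_N2] at h
  exact h

private theorem c3_dp {θ : ℝ × ℝ → ℂ} (hθ : PC H θ) {U : ℤ → CI H} {g : HH H} {K : ℝ} (hK : 0 ≤ K)
    (hU : ∀ n, ‖U n‖ ≤ K * ‖g n‖) (x : HH H) :
    dp (⇑(fHc θ : HH H)) (pz (⇑x) U) = T3 (⇑(fHc θ : HH H)) U (⇑x) :=
  dp_pz c3w_pw (c3_S2 _ x) (c3_S2u hK hU).1 (c3_S2f hθ)

private theorem c3_dp_le {θ : ℝ × ℝ → ℂ} (hθ : PC H θ) {U : ℤ → CI H} {g : HH H} {K : ℝ} (hK : 0 ≤ K)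
    (hU : ∀ n, ‖U n‖ ≤ K * ‖g n‖) (x : HH H) :
    ‖dp (⇑(fHc θ : HH H)) (pz (⇑x) U)‖ ≤
      (CP (c3w H) 1 * K * SC.N2 (c3w H) 1 (⇑(fHc θ : HH H))) * ‖x‖ * ‖g‖ := by
  rw [c3_dp hθ hK hU x]
  have h := (T3_sum c3w_pw (c3_S2 _ x) (c3_S2u hK hU).1 (c3_S2f hθ)).2
  rw [c3_N2, zero_add, zero_add] at h
  refine h.trans ?_
  have h1 := (c3_S2u hK hU).2
  have h2 : 0 ≤ CP (c3w H) 1 := CP_nonneg 1
  have h3 := N2_nonneg (lam := c3w H) 1 (⇑(fHc θ : HH H))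
  calc CP (c3w H) 1 * ‖x‖ * SC.N2 (c3w H) 0 U * SC.N2 (c3w H) 1 (⇑(fHc θ : HH H))
      ≤ CP (c3w H) 1 * ‖x‖ * (K * ‖g‖) * SC.N2 (c3w H) 1 (⇑(fHc θ : HH H)) :=
        mul_le_mul_of_nonneg_right (mul_le_mul_of_nonneg_left h1 (mul_nonneg h2 (norm_nonneg _))) h3
    _ = _ := by ring

private theorem c3_u (g : HH H) (n : ℤ) :
    ‖uV (Real.pi / H) (Vf (Real.pi / H) (⇑g)) n‖ ≤ (2 * √H) * ‖g n‖ := by
  have h1 := norm_uV_le (Real.pi / H) (Vf (Real.pi / H) (⇑g)) n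
  have h2 : ‖Vf (Real.pi / H) (⇑g) n‖ ≤ √H * ‖g n‖ := by
    refine le_of_sq_le_sq ?_ (by positivity)
    rw [mul_pow, Real.sq_sqrt hH.out.le]
    exact (Tz_sup_sq _ _).1
  linarith

private theorem c3_w (g : HH H) (n : ℤ) :
    ‖wV (Real.pi / H) (Vf (Real.pi / H) (⇑g)) n‖ ≤ (2 * √H) * ‖g n‖ := by
  have h1 := norm_wV_le (Real.pi / H) (Vf (Real.pi / H) (⇑g)) n
  have h2 : ‖Vf (Real.pi / H) (⇑g) n‖ ≤ √H * ‖g n‖ := by
    refine le_of_sq_le_sq ?_ (by positivity)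
    rw [mul_pow, Real.sq_sqrt hH.out.le]
    exact (Tz_sup_sq _ _).1
  have h3 : 0 ≤ √H * ‖g n‖ := by positivity
  linarith

private theorem c3_Vf_smul (ω : ℝ) (c : ℂ) (g : HH H) (n : ℤ) :
    (Vf ω (⇑(c • g)) n : CI H) = c • Vf ω (⇑g) n := by
  unfold Vf
  rw [lp.coeFn_smul, Pi.smul_apply, map_smul]

private theorem c3_Vf_add (ω : ℝ) (g g' : HH H) (n : ℤ) :
    (Vf ω (⇑(g + g')) n : CI H) = Vf ω (⇑g) n + Vf ω (⇑g') n := by
  unfold Vf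
  rw [lp.coeFn_add, Pi.add_apply, map_add]

private theorem c3_uadd (ω : ℝ) (g g' : HH H) (n : ℤ) :
    (uV ω (Vf ω (⇑(g + g'))) n : CI H) = uV ω (Vf ω (⇑g)) n + uV ω (Vf ω (⇑g')) n := by
  unfold uV
  rw [c3_Vf_add, map_add, map_add]
  refine ci_ext fun z _ => ?_
  simp only [ex_add, ex_sub, ex_smul]
  ring

private theorem c3_wadd (ω : ℝ) (g g' : HH H) (n : ℤ) :
    (wV ω (Vf ω (⇑(g + g'))) n : CI H) = wV ω (Vf ω (⇑g)) n + wV ω (Vf ω (⇑g')) n := by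
  unfold wV
  rw [c3_Vf_add, map_add, map_add]
  refine ci_ext fun z _ => ?_
  simp only [ex_add, ex_smul]
  ring

private theorem c3_usmul (ω : ℝ) (c : ℂ) (g : HH H) (n : ℤ) :
    (uV ω (Vf ω (⇑(c • g))) n : CI H) = c • uV ω (Vf ω (⇑g)) n := by
  unfold uV
  rw [c3_Vf_smul, map_smul, map_smul]
  refine ci_ext fun z _ => ?_
  simp only [ex_sub, ex_smul]
  ring

private theorem c3_wsmul (ω : ℝ) (c : ℂ) (g : HH H) (n : ℤ) :
    (wV ω (Vf ω (⇑(c • g))) n : CI H) = c • wV ω (Vf ω (⇑g)) n := by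
  unfold wV
  rw [c3_Vf_smul, map_smul, map_smul]
  refine ci_ext fun z _ => ?_
  simp only [ex_smul]
  ring

private theorem c3_mk {θ : ℝ × ℝ → ℂ} (hθ : PC H θ) {U : HH H → ℤ → CI H} {K : ℝ} (hK : 0 ≤ K)
    (hU : ∀ g n, ‖U g n‖ ≤ K * ‖g n‖) (ha : ∀ g g' n, U (g + g') n = U g n + U g' n)
    (hs : ∀ (c : ℂ) g n, U (c • g) n = c • U g n) :
    ∃ N : HH H →L[ℂ] HH H →L[ℂ] ℂ, ∀ x g, N x g = dp (⇑(fHc θ : HH H)) (pz (⇑x) (U g)) := by
  have sm : ∀ x g : HH H, Summable fun q : ℤ × ℤ =>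
      ⟪(fHc θ : HH H) (q.1 + q.2), mz (U g q.2) (x q.1)⟫_ℂ := fun x g =>
    (T3_sum c3w_pw (c3_S2 _ x) (c3_S2u hK (hU g)).1 (c3_S2f hθ)).1.of_norm
  have a1 : ∀ x x' g : HH H, T3 (⇑(fHc θ : HH H)) (U g) (⇑(x + x')) =
      T3 (⇑(fHc θ : HH H)) (U g) (⇑x) + T3 (⇑(fHc θ : HH H)) (U g) (⇑x') := by
    intro x x' g
    unfold T3
    rw [← (sm x g).tsum_add (sm x' g)]
    refine tsum_congr fun q => ?_
    rw [lp.coeFn_add, Pi.add_apply, map_add, inner_add_right]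
  have a2 : ∀ (c : ℂ) (x g : HH H), T3 (⇑(fHc θ : HH H)) (U g) (⇑(c • x)) =
      c * T3 (⇑(fHc θ : HH H)) (U g) (⇑x) := by
    intro c x g
    unfold T3
    rw [← tsum_mul_left]
    refine tsum_congr fun q => ?_
    rw [lp.coeFn_smul, Pi.smul_apply, map_smul, inner_smul_right]
  have a3 : ∀ x g g' : HH H, T3 (⇑(fHc θ : HH H)) (U (g + g')) (⇑x) =
      T3 (⇑(fHc θ : HH H)) (U g) (⇑x) + T3 (⇑(fHc θ : HH H)) (U g') (⇑x) := by
    intro x g g'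
    unfold T3
    rw [← (sm x g).tsum_add (sm x g')]
    refine tsum_congr fun q => ?_
    rw [ha, map_add, add_apply, inner_add_right]
  have a4 : ∀ (c : ℂ) (x g : HH H), T3 (⇑(fHc θ : HH H)) (U (c • g)) (⇑x) =
      c * T3 (⇑(fHc θ : HH H)) (U g) (⇑x) := by
    intro c x g
    unfold T3
    rw [← tsum_mul_left]
    refine tsum_congr fun q => ?_
    rw [hs, map_smul, smul_apply, inner_smul_right]
  refine ⟨LinearMap.mkContinuous₂ (LinearMap.mk₂ ℂ (fun x g : HH H => T3 (⇑(fHc θ : HH H)) (U g) (⇑x))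
    a1 a2 a3 a4) (CP (c3w H) 1 * K * SC.N2 (c3w H) 1 (⇑(fHc θ : HH H))) (fun x g => ?_), fun x g => ?_⟩
  · have h := c3_dp_le hθ hK (hU g) x
    rw [c3_dp hθ hK (hU g) x] at h
    exact h
  · rw [c3_dp hθ hK (hU g) x]
    rfl

private theorem c3_pz {u : ℝ × ℝ → ℂ} (hu : PC H u) (x : HH H) : pz (⇑x) (fmc u : ℤ → CI H) =
    ⇑(SC.cm (fam fun q => (u q).re) x + Complex.I • SC.cm (fam fun q => (u q).im) x : HH H) := by
  funext n
  have h3 := (cm_hasSum (pz_fam_sum0 hu.re) x n).add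
    ((cm_hasSum (pz_fam_sum0 hu.im) x n).const_smul Complex.I)
  rw [lp.coeFn_add, Pi.add_apply, lp.coeFn_smul, Pi.smul_apply, ← h3.tsum_eq]
  show ∑' j, mz (fmc u (n - j)) (x j) = _
  refine tsum_congr fun j => ?_
  unfold fmc
  rw [map_add, map_smul]
  rfl

private theorem c3_fun (a b : ℂ) : a * b = (b.re : ℂ) * a + Complex.I * ((b.im : ℂ) * a) := by
  have h := Complex.re_add_im b
  calc a * b = a * ((b.re : ℂ) + (b.im : ℂ) * Complex.I) := by rw [h]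
    _ = _ := by ring

/-- The product of the modes: `⟨θ, p u⟩` as an integral. `(pz p u)_n` are the modes of the product (`fam_mul`-like,
`cm_fHc`), Parseval. -/
theorem dp_fHc {θ p u : ℝ × ℝ → ℂ} (hθ : PC H θ) (hp : PC H p) (hu : PC H u) :
    dp (⇑(fHc θ : HH H)) (pz (⇑(fHc p : HH H)) (fmc u : ℤ → CI H)) =
      (2 * H : ℂ)⁻¹ * ∫ q in Cel H, conj (θ q) * (p q * u q) := by
  have e : (SC.cm (fam fun q => (u q).re) (fHc p) + Complex.I • SC.cm (fam fun q => (u q).im) (fHc p) : HH H) =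
      fHc fun q => p q * u q := by
    have e1 : (fun q => p q * u q) = fun q => ((u q).re : ℂ) * p q + Complex.I * (((u q).im : ℂ) * p q) :=
      funext fun q => c3_fun (p q) (u q)
    rw [cm_fHc hu.re hp, cm_fHc hu.im hp, e1, fHc_add (PC.mulR hu.re hp) (PC.cmul _ (PC.mulR hu.im hp)),
      fHc_smul _ (PC.mulR hu.im hp)]
  rw [c3_pz hu, e, ← inner_fHc hθ (hp.mul hu), lp.inner_eq_tsum]
  rfl

/-- The bound which gives continuity in `x` and in the velocity: for fixed `θ` smooth,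
`|dp (fHc θ) (pz x u)| ≤ C_θ |x| |io u|`, `|io u|` = the `ℓ²(L²)` norm of the velocity modes. (`Σ_n sup|θ_n| < ∞`,
Cauchy and Schwarz in `z` and in `j`.) -/
theorem dp_bd {θ : ℝ × ℝ → ℂ} (hθ : PC H θ) : ∃ C : ℝ, 0 ≤ C ∧ ∀ (x g : HH H),
    ‖dp (⇑(fHc θ : HH H)) (pz (⇑x) (uV (Real.pi / H) (Vf (Real.pi / H) (⇑g))))‖ ≤ C * ‖x‖ * ‖g‖ ∧
    ‖dp (⇑(fHc θ : HH H)) (pz (⇑x) (wV (Real.pi / H) (Vf (Real.pi / H) (⇑g))))‖ ≤ C * ‖x‖ * ‖g‖ := by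
  have hK : 0 ≤ 2 * √H := by positivity
  refine ⟨CP (c3w H) 1 * (2 * √H) * SC.N2 (c3w H) 1 (⇑(fHc θ : HH H)),
    mul_nonneg (mul_nonneg (CP_nonneg 1) hK) (N2_nonneg _ _), fun x g => ⟨?_, ?_⟩⟩
  · exact c3_dp_le hθ hK (c3_u g) x
  · exact c3_dp_le hθ hK (c3_w g) x

/-- linearity in `x` and `g` -/
theorem dp_lin {θ : ℝ × ℝ → ℂ} (hθ : PC H θ) : ∃ N1 N2 : HH H →L[ℂ] HH H →L[ℂ] ℂ, ∀ x g : HH H,
    N1 x g = dp (⇑(fHc θ : HH H)) (pz (⇑x) (uV (Real.pi / H) (Vf (Real.pi / H) (⇑g)))) ∧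
    N2 x g = dp (⇑(fHc θ : HH H)) (pz (⇑x) (wV (Real.pi / H) (Vf (Real.pi / H) (⇑g)))) := by
  have hK : 0 ≤ 2 * √H := by positivity
  obtain ⟨N1, h1⟩ := c3_mk hθ hK c3_u (c3_uadd (Real.pi / H)) (c3_usmul (Real.pi / H))
  obtain ⟨N2, h2⟩ := c3_mk hθ hK c3_w (c3_wadd (Real.pi / H)) (c3_wsmul (Real.pi / H))
  exact ⟨N1, N2, fun x g => ⟨h1 x g, h2 x g⟩⟩

/-! ### auxiliary lemmas: the product with a smooth function, test functions -/

private theorem c3_dpin {η u : ℝ × ℝ → ℂ} (hη : PC H η) (hu : PC H u) (y : HH H) :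
    dp (⇑(fHc η : HH H)) (pz (⇑y) (fmc u : ℤ → CI H)) = ⟪(fHc (fun q => conj (u q) * η q) : HH H), y⟫_ℂ := by
  have e1 : (fun q => conj (u q) * η q) =
      fun q => ((u q).re : ℂ) * η q + (-Complex.I) * (((u q).im : ℂ) * η q) := by
    funext q
    have h := Complex.re_add_im (u q)
    have h2 : conj (u q) = ((u q).re : ℂ) - ((u q).im : ℂ) * Complex.I := by
      apply Complex.ext
      · simp
      · simp
    rw [h2]
    ring
  rw [c3_pz hu, e1, fHc_add (PC.mulR hu.re hη) (PC.cmul _ (PC.mulR hu.im hη)),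
    fHc_smul _ (PC.mulR hu.im hη), ← cm_fHc hu.re hη, ← cm_fHc hu.im hη, inner_add_left, inner_smul_left,
    inner_cm_fam hu.re, inner_cm_fam hu.im, map_neg, Complex.conj_I, neg_neg, ← inner_smul_right,
    ← inner_add_right, lp.inner_eq_tsum]
  rfl

private theorem c3_ev {θ η : ℝ × ℝ → ℂ} {q : ℝ × ℝ} (h : θ =ᶠ[𝓝 q] η) : dYc θ q = dYc η q ∧ dZc θ q = dZc η q := by
  unfold dYc dZc
  rw [h.fderiv_eq]
  exact ⟨rfl, rfl⟩

private theorem c3_zero (q : ℝ × ℝ) : dYc (fun _ => (0 : ℂ)) q = 0 ∧ dZc (fun _ => (0 : ℂ)) q = 0 := by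
  unfold dYc dZc
  rw [fderiv_fun_const]
  exact ⟨rfl, rfl⟩

private theorem c3_low {θ : ℝ × ℝ → ℂ} {e1 e2 : ℝ} (hθ : TfS H e1 e2 θ) {q : ℝ × ℝ} (hq : q.2 < e1) :
    dYc θ q = 0 ∧ dZc θ q = 0 := by
  have h : θ =ᶠ[𝓝 q] fun _ => (0 : ℂ) := by
    filter_upwards [(isOpen_lt continuous_snd continuous_const).mem_nhds hq] with p hp
    exact hθ.low p.1 p.2 hp
  rw [(c3_ev h).1, (c3_ev h).2]
  exact c3_zero q

private theorem c3_up' {θ : ℝ × ℝ → ℂ} {e1 e2 : ℝ} (hθ : TfS H e1 e2 θ) {q : ℝ × ℝ} (hq : e2 < q.2) :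
    dYc θ q = 0 ∧ dZc θ q = 0 := by
  have h : θ =ᶠ[𝓝 q] fun _ => (0 : ℂ) := by
    filter_upwards [(isOpen_lt continuous_const continuous_snd).mem_nhds hq] with p hp
    exact hθ.up p.1 p.2 hp
  rw [(c3_ev h).1, (c3_ev h).2]
  exact c3_zero q

private theorem c3_lim {f : ℝ × ℝ → ℂ} (hf : Continuous f) {e2 : ℝ} (h : ∀ q : ℝ × ℝ, e2 < q.2 → f q = 0)
    {q : ℝ × ℝ} (hq : e2 ≤ q.2) : f q = 0 := by
  have h1 : Tendsto (fun t : ℝ => f (q.1, q.2 + t)) (𝓝[>] 0) (𝓝 (f (q.1, q.2 + 0))) := by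
    have h2 : Continuous fun t : ℝ => f (q.1, q.2 + t) :=
      hf.comp (continuous_const.prodMk (continuous_const.add continuous_id))
    exact (h2.tendsto 0).mono_left nhdsWithin_le_nhds
  have h3 : Tendsto (fun t : ℝ => f (q.1, q.2 + t)) (𝓝[>] 0) (𝓝 0) := by
    refine tendsto_const_nhds.congr' ?_
    filter_upwards [self_mem_nhdsWithin] with t ht
    have ht' : 0 < t := ht
    exact (h (q.1, q.2 + t) (by show e2 < q.2 + t; linarith)).symm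
  have h4 := tendsto_nhds_unique h1 h3
  rwa [add_zero] at h4

private theorem c3_up {θ : ℝ × ℝ → ℂ} {e1 e2 : ℝ} (hθ : TfS H e1 e2 θ) {q : ℝ × ℝ} (hq : e2 ≤ q.2) :
    dYc θ q = 0 ∧ dZc θ q = 0 :=
  ⟨c3_lim hθ.pc.yy.smooth.continuous (fun _ h => (c3_up' hθ h).1) hq,
    c3_lim hθ.pc.zz.smooth.continuous (fun _ h => (c3_up' hθ h).2) hq⟩

/-- derivatives of the cut off stream function where the cut-off is one -/
private theorem c3_ga (h : IsStrip D H c X) (he : e < e') (ψ : Adm D) {q : ℝ × ℝ} (hq : q.2 < e) :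
    conj (dYc (gaF X e e' ψ) q) = dYc (fun q => (cA ψ : ℂ → ℂ) (X q)) q ∧
      conj (dZc (gaF X e e' ψ) q) = dZc (fun q => (cA ψ : ℂ → ℂ) (X q)) q := by
  have hs : ContDiff ℝ ((⊤ : ℕ∞) : WithTop ℕ∞) fun q => (ψ : ℂ → ℂ) (X q) := (h.pc (Adm.cc ψ).smo).smooth
  have h1 : gaF X e e' ψ =ᶠ[𝓝 q] fun p => (ψ : ℂ → ℂ) (X p) - (ψ : ℂ → ℂ) (X (0, 0)) := by
    filter_upwards [(isOpen_lt continuous_snd continuous_const).mem_nhds hq] with p hp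
    have hp' : p.2 < e := hp
    unfold gaF
    rw [ctf_one he hp'.le, Complex.ofReal_one, one_mul]
  have h2 : HasFDerivAt (fun q => (ψ : ℂ → ℂ) (X q)) (fderiv ℝ (fun q => (ψ : ℂ → ℂ) (X q)) q) q :=
    (hs.differentiable (by simp) q).hasFDerivAt
  have h3 : fderiv ℝ (gaF X e e' ψ) q = fderiv ℝ (fun q => (ψ : ℂ → ℂ) (X q)) q := by
    rw [h1.fderiv_eq, fderiv_sub_const]
  have h4 : HasFDerivAt (fun q => (cA ψ : ℂ → ℂ) (X q))
      ((Complex.conjCLE : ℂ →L[ℝ] ℂ).comp (fderiv ℝ (fun q => (ψ : ℂ → ℂ) (X q)) q)) q :=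
    (Complex.conjCLE : ℂ →L[ℝ] ℂ).hasFDerivAt.comp q h2
  unfold dYc dZc
  rw [h3, h4.fderiv]
  exact ⟨rfl, rfl⟩

/-- the integral form of `NL` for smooth data -/
private theorem c3_NL (hD : Bornology.IsBounded D) (ψ φ : Adm D) (v' : VD D) :
    PD.NL (jj D (cuV D ψ)) (v' : L2c) (jj D (cuV D φ)) =
      ⟪cl2 (fun x => px φ x * conj (py ψ x) - py φ x * conj (px ψ x)), (v' : L2c)⟫_ℂ := by
  have k1 : Cc (fun x => conj (py ψ x)) := (Adm.cc ψ).py.conj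
  have k2 : Cc (fun x => conj (px ψ x)) := (Adm.cc ψ).px.conj
  have m1 : MemLp (fun x => px φ x * conj (py ψ x) - py φ x * conj (px ψ x)) 2 (volume : Measure ℂ) := by
    have a1 := (((Adm.cc φ).px.mul_smo k1.smo).memLp 2)
    have a2 := (((Adm.cc φ).py.mul_smo k2.smo).memLp 2)
    exact a1.sub a2
  have e1 : jj D (cuV D ψ) = (cl4 (py ψ), -cl4 (px ψ)) := Prod.ext (j1_cuV hD ψ) (j2_cuV hD ψ)
  have e2 : jj D (cuV D φ) = (cl4 (py φ), -cl4 (px φ)) := Prod.ext (j1_cuV hD φ) (j2_cuV hD φ)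
  rw [e1, e2, NL_apply, L2.inner_def]
  refine integral_congr_ae ?_
  filter_upwards [cl2_coe m1, cl4_coe ((Adm.cc ψ).py.memLp 4), cl4_coe ((Adm.cc ψ).px.memLp 4),
    cl4_coe ((Adm.cc φ).py.memLp 4), cl4_coe ((Adm.cc φ).px.memLp 4), Lp.coeFn_neg (cl4 (px ψ)),
    Lp.coeFn_neg (cl4 (px φ))] with x n1 n2 n3 n4 n5 n6 n7
  have r1 : ((-cl4 (px ψ) : L4c) : ℂ → ℂ) x = -px ψ x := by rw [n6, Pi.neg_apply, n3]
  have r2 : ((-cl4 (px φ) : L4c) : ℂ → ℂ) x = -px φ x := by rw [n7, Pi.neg_apply, n5]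
  show conj ((cl4 (py φ) : ℂ → ℂ) x) * ((v' : L2c) x * ((-cl4 (px ψ) : L4c) : ℂ → ℂ) x) -
    conj (((-cl4 (px φ) : L4c) : ℂ → ℂ) x) * ((v' : L2c) x * (cl4 (py ψ) : ℂ → ℂ) x) =
    ⟪(cl2 (fun x => px φ x * conj (py ψ x) - py φ x * conj (px ψ x)) : ℂ → ℂ) x, (v' : L2c) x⟫_ℂ
  rw [r1, r2, n2, n4, n1, RCLike.inner_apply]
  simp only [map_sub, map_mul, map_neg, Complex.conj_conj]
  ring

/-- the transport term for a smooth stream function -/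
private theorem c3_main (hΓ : IsGa D X e e' Γ) (h : IsStrip D H c X) (hO : IsOpen D) (hD : Bornology.IsBounded D)
    (hJ : IsJ H X e J) (he0 : 0 < e) (he : e < e') (he' : e' < c)
    {θ : ℝ × ℝ → ℂ} {e1 e2 : ℝ} (hθ : TfS H e1 e2 θ) (h1 : 0 < e1) (h2 : e2 ≤ e) (h2c : e2 < c) (ψ : Adm D)
    (v' : VD D) :
    PD.NL (jj D (cuV D ψ)) (v' : L2c) (jj D (cuV D (pshA h hθ h1 h2c))) = (2 * H : ℂ) *
      (dp (⇑(fHc (dZc θ) : HH H)) (pz (⇑(SC.cm (fam fun q => (J q)⁻¹) (Γ v')))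
          (wV (Real.pi / H) (Vf (Real.pi / H) (⇑(Γ (cuV D ψ)))))) +
        dp (⇑(fHc (dYc θ) : HH H)) (pz (⇑(SC.cm (fam fun q => (J q)⁻¹) (Γ v')))
          (uV (Real.pi / H) (Vf (Real.pi / H) (⇑(Γ (cuV D ψ))))))) := by
  have hJi : PY H fun q => (J q)⁻¹ := by
    have := (PY.const H 1).div hJ.py (fun p => (hJ.pos p).ne')
    simpa only [one_div] using this
  have hg : PC H (gaF X e e' ψ) := gaF_pc h he (Adm.cc ψ).smo
  have hv : VanC H (gaF X e e' ψ) := gaF_van h he he' ψ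
  have hc : ConC (gaF X e e' ψ) := by
    obtain ⟨ε, hε, h3⟩ := gaF_con h hO he0 he ψ
    exact ⟨ε, hε, 0, h3⟩
  -- the right side
  set y : HH H := SC.cm (fam fun q => (J q)⁻¹) (Γ v') with hy
  have eu : uV (Real.pi / H) (Vf (Real.pi / H) (⇑(Γ (cuV D ψ)))) = (fmc (dZc (gaF X e e' ψ)) : ℤ → CI H) := by
    rw [hΓ.eq ψ]
    exact funext fun n => uV_ll hg hv hc n
  have ew : wV (Real.pi / H) (Vf (Real.pi / H) (⇑(Γ (cuV D ψ)))) =
      fun n => (-(fmc (dYc (gaF X e e' ψ)) n) : CI H) := by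
    rw [hΓ.eq ψ]
    exact funext fun n => wV_ll hg hv hc n
  have ew2 : dp (⇑(fHc (dZc θ) : HH H)) (pz (⇑y) fun n => (-(fmc (dYc (gaF X e e' ψ)) n) : CI H)) =
      -dp (⇑(fHc (dZc θ) : HH H)) (pz (⇑y) (fmc (dYc (gaF X e e' ψ)) : ℤ → CI H)) := by
    have e3 : ∀ n, pz (⇑y) (fun n => (-(fmc (dYc (gaF X e e' ψ)) n) : CI H)) n =
        -pz (⇑y) (fmc (dYc (gaF X e e' ψ)) : ℤ → CI H) n := by
      intro n
      show ∑' j, mz (-(fmc (dYc (gaF X e e' ψ)) (n - j) : CI H)) (y j) =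
        -∑' j, mz (fmc (dYc (gaF X e e' ψ)) (n - j) : CI H) (y j)
      rw [← tsum_neg]
      refine tsum_congr fun j => ?_
      rw [map_neg, neg_apply]
    unfold dp
    rw [← tsum_neg]
    refine tsum_congr fun n => ?_
    rw [e3, inner_neg_right]
  rw [eu, ew, ew2, c3_dpin hθ.pc.zz hg.yy, c3_dpin hθ.pc.yy hg.zz]
  -- the left side
  have pA : PC H fun q => conj (dZc (gaF X e e' ψ) q) * dYc θ q := hg.zz.star.mul hθ.pc.yy
  have pB : PC H fun q => conj (dYc (gaF X e e' ψ) q) * dZc θ q := hg.yy.star.mul hθ.pc.zz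
  set θ4 : ℝ × ℝ → ℂ := fun q => conj (dZc (gaF X e e' ψ) q) * dYc θ q -
    conj (dYc (gaF X e e' ψ) q) * dZc θ q with hθ4
  have p4 : PC H θ4 := pA.sub pB
  set θ5 : ℝ × ℝ → ℂ := fun q => (((J q)⁻¹ : ℝ) : ℂ) * θ4 q with hθ5
  have p5 : PC H θ5 := PC.mulR hJi p4
  have l4 : ∀ q : ℝ × ℝ, q.2 < e1 → θ4 q = 0 := by
    intro q hq
    rw [hθ4]
    simp only
    rw [(c3_low hθ hq).1, (c3_low hθ hq).2, mul_zero, mul_zero, sub_zero]
  have u4 : ∀ q : ℝ × ℝ, e2 ≤ q.2 → θ4 q = 0 := by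
    intro q hq
    rw [hθ4]
    simp only
    rw [(c3_up hθ hq).1, (c3_up hθ hq).2, mul_zero, mul_zero, sub_zero]
  have t5 : TfS H e1 e2 θ5 := ⟨p5, fun y z hz => by
    show (((J (y, z))⁻¹ : ℝ) : ℂ) * θ4 (y, z) = 0
    rw [l4 (y, z) hz, mul_zero], fun y z hz => by
    show (((J (y, z))⁻¹ : ℝ) : ℂ) * θ4 (y, z) = 0
    rw [u4 (y, z) (le_of_lt hz), mul_zero]⟩
  have hfun : (fun x => px (pshA h hθ h1 h2c) x * conj (py ψ x) - py (pshA h hθ h1 h2c) x * conj (px ψ x)) =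
      psh H c X θ5 := by
    funext x
    rw [pshA_coe]
    by_cases hx : x ∈ Wc X c
    · rw [h.Wc_eq] at hx
      obtain ⟨q, hq, rfl⟩ := hx
      rw [h.psh_X θ5 hq]
      have hm : (mJ X q : ℂ) ≠ 0 := by
        have h3 := h.der q.1 q.2 hq.2.1.le hq.2.2
        unfold mJ
        rw [Complex.ofReal_ne_zero]
        exact pow_ne_zero 2 (norm_ne_zero_iff.2 h3)
      have ha := h.psh_adv (Adm.cc (cA ψ)).smo hθ h1 h2c hq
      have c1 : py (cA ψ : ℂ → ℂ) (X q) = conj (py ψ (X q)) :=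
        congrFun (Adm.cc ψ).smo.py_conj (X q)
      have c2 : px (cA ψ : ℂ → ℂ) (X q) = conj (px ψ (X q)) :=
        congrFun (Adm.cc ψ).smo.px_conj (X q)
      rw [c1, c2] at ha
      have h4 : dZc (fun q => (cA ψ : ℂ → ℂ) (X q)) q * dYc θ q -
          dYc (fun q => (cA ψ : ℂ → ℂ) (X q)) q * dZc θ q = θ4 q := by
        by_cases hqe : q.2 < e
        · rw [← (c3_ga h he ψ hqe).1, ← (c3_ga h he ψ hqe).2]
        · have hqe' : e2 ≤ q.2 := h2.trans (not_lt.1 hqe)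
          rw [u4 q hqe', (c3_up hθ hqe').1, (c3_up hθ hqe').2, mul_zero, mul_zero, sub_zero]
      rw [h4] at ha
      apply mul_left_cancel₀ hm
      have h5 : (mJ X q : ℂ) * θ5 q = θ4 q := by
        show (mJ X q : ℂ) * ((((J q)⁻¹ : ℝ) : ℂ) * θ4 q) = θ4 q
        by_cases hqe : q.2 ≤ e
        · rw [hJ.eq q hq.2.1.le hqe, Complex.ofReal_inv, ← mul_assoc, mul_inv_cancel₀ hm, one_mul]
        · rw [u4 q (h2.trans (not_le.1 hqe).le), mul_zero, mul_zero]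
      rw [h5, ← ha]
      ring
    · rw [h.psh_out θ5 hx]
      have h3 : x ∉ tsupport (psh H c X θ) := by
        intro hx'
        apply hx
        obtain ⟨q, hq, rfl⟩ := (h.psh_mem hθ h1 h2c).2 hx'
        exact ⟨q, ⟨h1.trans_le hq.2.1, hq.2.2.trans_lt h2c⟩, rfl⟩
      have h4 : fderiv ℝ (psh H c X θ) x = 0 := by
        have h5 : psh H c X θ =ᶠ[𝓝 x] 0 := notMem_tsupport_iff_eventuallyEq.1 h3
        rw [h5.fderiv_eq]
        exact fderiv_const_apply (0 : ℂ)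
      have h5 : px (psh H c X θ) x = 0 := by unfold px; rw [h4]; rfl
      have h6 : py (psh H c X θ) x = 0 := by unfold py; rw [h4]; rfl
      rw [h5, h6, zero_mul, zero_mul, sub_zero]
  rw [c3_NL hD, hfun, hΓ.pair h he he' t5 h1 h2 v']
  have hp : (fHc θ5 : HH H) = SC.cm (fam fun q => (J q)⁻¹) (fHc θ4) := (cm_fHc hJi p4).symm
  rw [hp, inner_cm_fam hJi, ← hy, hθ4, fHc_sub pA pB, inner_sub_left]
  ring

/-- **The transport term in strip modes**: `∫ (u·∇ conj φ) ω = 2H ⟨θ_z, a ω w⟩ + 2H ⟨θ_y, a ω v⟩`, `φ = psh θ`, `ω = v'`,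
`u = iot v`. For `v = cuV ψ`, `v' = cuV ψ'`: `NL_apply`, `jj_cuV` (SpC), `IsStrip.integral`, `psh_adv` (with
`conj φ = psh (conj θ)`), `dLc_comp`, `uV_ll`, `wV_ll` (`gaF = ψ∘X - c` on the support of `θ`), `dp_fHc`, `cm_fHc`; then
density in `v` and `v'` (`dp_lin`). -/
theorem IsGa.NL (hΓ : IsGa D X e e' Γ) (h : IsStrip D H c X) (hO : IsOpen D) (hD : Bornology.IsBounded D)
    (hJ : IsJ H X e J) (he0 : 0 < e) (he : e < e') (he' : e' < c)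
    {θ : ℝ × ℝ → ℂ} {e1 e2 : ℝ} (hθ : TfS H e1 e2 θ) (h1 : 0 < e1) (h2 : e2 ≤ e) (v v' : VD D) :
    PD.NL (jj D v) (v' : L2c) (jj D (cuV D (pshA h hθ h1 (by linarith)))) = (2 * H : ℂ) *
      (dp (⇑(fHc (dZc θ) : HH H)) (pz (⇑(SC.cm (fam fun q => (J q)⁻¹) (Γ v')))
          (wV (Real.pi / H) (Vf (Real.pi / H) (⇑(Γ v))))) +
        dp (⇑(fHc (dYc θ) : HH H)) (pz (⇑(SC.cm (fam fun q => (J q)⁻¹) (Γ v')))
          (uV (Real.pi / H) (Vf (Real.pi / H) (⇑(Γ v)))))) := by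
  have h2c : e2 < c := by linarith
  obtain ⟨_, N2, hN2⟩ := dp_lin (H := H) hθ.pc.zz
  obtain ⟨N1, _, hN1⟩ := dp_lin (H := H) hθ.pc.yy
  set y : HH H := SC.cm (fam fun q => (J q)⁻¹) (Γ v') with hy
  have key : ∀ v : VD D, PD.NL (jj D v) (v' : L2c) (jj D (cuV D (pshA h hθ h1 h2c))) =
      (2 * H : ℂ) * (N2 y (Γ v) + N1 y (Γ v)) := by
    intro v
    refine (cuV_dense D).induction (P := fun v : VD D =>
      PD.NL (jj D v) (v' : L2c) (jj D (cuV D (pshA h hθ h1 h2c))) =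
      (2 * H : ℂ) * (N2 y (Γ v) + N1 y (Γ v))) ?_ ?_ v
    · rintro _ ⟨ψ, rfl⟩
      rw [(hN2 y (Γ (cuV D ψ))).2, (hN1 y (Γ (cuV D ψ))).1]
      exact c3_main hΓ h hO hD hJ he0 he he' hθ h1 h2 h2c ψ v'
    · refine isClosed_eq ?_ ?_
      · fun_prop
      · exact continuous_const.mul (((N2 y).continuous.comp Γ.continuous).add
          ((N1 y).continuous.comp Γ.continuous))
  have := key v
  rw [(hN2 y (Γ v)).2, (hN1 y (Γ v)).1] at this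
  exact this

end

end Pool.Agent.Lib.MP_79abb3_an.PD
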