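import Pool.Agent.Lib.MP_79abb3_an.PD.CoC2

/-!
Theorem D, collar package: norms in the collar and norms of the modes.
-/

set_option autoImplicit false
set_option linter.unusedSectionVars false

open MeasureTheory Set Filter Topology Function
open scoped ENNReal InnerProductSpace ComplexConjugate

namespace Pool.Agent.Lib.MP_79abb3_an.PD

open Pool.Agent.Lib.MP_79abb3_an.SC Pool.Agent.Lib.MP_79abb3_an.P25

section
variable {D : Set ℂ} {H c e e' : ℝ} [hH : Fact (0 < H)] {X : ℝ × ℝ → ℂ} {J : ℝ × ℝ → ℝ}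
  {Γ : VD D →L[ℂ] HH H} {Λ : XD D →L[ℂ] HH H} {B : L2c →L[ℂ] HH H}

private theorem coc4_L2_sq {μ : Measure ℂ} (g : Lp ℂ 2 μ) : ‖g‖ ^ 2 = ∫ x, ‖(g : ℂ → ℂ) x‖ ^ 2 ∂μ := by
  have h1 : ⟪g, g⟫_ℂ = ∫ x, ((‖(g : ℂ → ℂ) x‖ ^ 2 : ℝ) : ℂ) ∂μ := by
    rw [L2.inner_def]
    refine integral_congr_ae (Eventually.of_forall fun x => ?_)
    show ⟪(g : ℂ → ℂ) x, (g : ℂ → ℂ) x⟫_ℂ = _
    rw [inner_self_eq_norm_sq_to_K]
    push_cast
    rfl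
  rw [inner_self_eq_norm_sq_to_K, integral_complex_ofReal] at h1
  have h3 : ((‖g‖ ^ 2 : ℝ) : ℂ) = ((∫ x, ‖(g : ℂ → ℂ) x‖ ^ 2 ∂μ : ℝ) : ℂ) := by
    rw [← h1]
    push_cast
    rfl
  exact Complex.ofReal_injective h3

/-- The integral over the collar is continuous on `L²` (`∫_S |f|² = |1_S f|²`). -/
theorem int_cont (S : Set ℂ) (hS : MeasurableSet S) : Continuous fun f : L2c => ∫ x in S, ‖(f : ℂ → ℂ) x‖ ^ 2 := by
  have h1 : (fun f : L2c => ∫ x in S, ‖(f : ℂ → ℂ) x‖ ^ 2) =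
      fun f : L2c => ‖LpToLpRestrictCLM ℂ ℂ ℂ volume 2 S f‖ ^ 2 := by
    funext f
    rw [coc4_L2_sq]
    refine integral_congr_ae ?_
    filter_upwards [LpToLpRestrictCLM_coeFn ℂ S f] with x hx
    rw [hx]
  rw [h1]
  exact ((LpToLpRestrictCLM ℂ ℂ ℂ volume 2 S).continuous.norm).pow 2

private theorem coc4_dense_le {F1 F2 : L2c → ℝ} (h1 : Continuous F1) (h2 : Continuous F2)
    (h : ∀ g : ℂ → ℂ, Cc g → F1 (cl2 g) ≤ F2 (cl2 g)) (f : L2c) : F1 f ≤ F2 f := by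
  have hcl : IsClosed {f : L2c | F1 f ≤ F2 f} := isClosed_le h1 h2
  have hs : {f : L2c | ∃ g : ℂ → ℂ, Cc g ∧ f = cl2 g} ⊆ {f : L2c | F1 f ≤ F2 f} := by
    rintro _ ⟨g, hg, rfl⟩
    exact h g hg
  have hf : f ∈ closure {f : L2c | ∃ g : ℂ → ℂ, Cc g ∧ f = cl2 g} := by
    rw [Metric.mem_closure_iff]
    intro ε hε
    obtain ⟨g, hg, hd⟩ := cl2_dense f (half_pos hε)
    exact ⟨cl2 g, ⟨g, hg, rfl⟩, by rw [dist_eq_norm]; linarith⟩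
  exact closure_minimal hs hcl hf

private theorem coc4_set (S : Set ℂ) {f : ℂ → ℂ} (hf : Cc f) :
    ∫ x in S, ‖(cl2 f : ℂ → ℂ) x‖ ^ 2 = ∫ x in S, ‖f x‖ ^ 2 := by
  refine integral_congr_ae ?_
  filter_upwards [ae_restrict_of_ae (cl2_coe (hf.memLp 2))] with x hx
  rw [hx]

private theorem coc4_cont_ctf (e e' : ℝ) : Continuous fun q : ℝ × ℝ => ctf e e' q.2 :=
  (ctf_smooth e e').continuous.comp continuous_snd

private theorem coc4_ctf_mem (e e' z : ℝ) : 0 ≤ ctf e e' z ∧ ctf e e' z ≤ 1 :=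
  ⟨Real.smoothTransition.nonneg _, Real.smoothTransition.le_one _⟩

/-- the density `ω² J |f ∘ X|²` -/
private noncomputable def coc4_w (X : ℝ × ℝ → ℂ) (e e' : ℝ) (J : ℝ × ℝ → ℝ) (f : ℂ → ℂ) (q : ℝ × ℝ) : ℝ :=
  ctf e e' q.2 ^ 2 * J q * ‖f (X q)‖ ^ 2

private theorem coc4_w_cont (h : IsStrip D H c X) (hJ : IsJ H X e' J) {f : ℂ → ℂ} (hf : Cc f) :
    Continuous (coc4_w X e e' J f) := by
  have h1 : Continuous fun q : ℝ × ℝ => f (X q) := hf.smo.continuous.comp h.smooth.continuous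
  exact (((coc4_cont_ctf e e').pow 2).mul hJ.py.smooth.continuous).mul (h1.norm.pow 2)

private theorem coc4_w_nonneg (hJ : IsJ H X e' J) (f : ℂ → ℂ) (q : ℝ × ℝ) : 0 ≤ coc4_w X e e' J f q := by
  have := (hJ.pos q).le
  unfold coc4_w
  positivity

private theorem coc4_pc (h : IsStrip D H c X) (hJ : IsJ H X e' J) {f : ℂ → ℂ} (hf : Cc f) :
    PC H fun q => ((ctf e e' q.2 * J q : ℝ) : ℂ) * f (X q) :=
  PC.mulR ((PY.of_z H (ctf_smooth e e')).mul hJ.py) (h.pc hf.smo)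

private theorem coc4_ip (hJ : IsJ H X e' J) {θ η : ℝ × ℝ → ℂ} (hθ : PC H θ) (hη : PC H η) :
    2 * H * (⟪(fHc θ : HH H), SC.cm (fam fun q => (J q)⁻¹) (fHc η)⟫_ℂ).re =
      (∫ q in Cel H, (starRingEnd ℂ) (θ q) * ((((J q)⁻¹ : ℝ) : ℂ) * η q)).re := by
  have hH0 : 0 < H := hH.out
  have hi := hJ.py.inv hJ.pos
  rw [cm_fHc hi hη, inner_fHc hθ (hη.mulR hi)]
  have e1 : (2 * H : ℂ)⁻¹ = (((2 * H)⁻¹ : ℝ) : ℂ) := by push_cast; rfl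
  rw [e1, Complex.re_ofReal_mul]
  field_simp

private theorem coc4_pt {a g F : ℝ} {x : ℂ} (hF : 0 < F) :
    (starRingEnd ℂ) (((a * F : ℝ) : ℂ) * x) * (((F⁻¹ : ℝ) : ℂ) * ((g : ℂ) * (((a * F : ℝ) : ℂ) * x))) =
      ((g * (a ^ 2 * F * ‖x‖ ^ 2) : ℝ) : ℂ) := by
  have h1 : (starRingEnd ℂ) x * x = ((‖x‖ : ℝ) : ℂ) ^ 2 := Complex.conj_mul' x
  have hF' : (F : ℂ) ≠ 0 := by exact_mod_cast hF.ne'
  rw [map_mul, Complex.conj_ofReal]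
  push_cast
  field_simp
  linear_combination (a : ℂ) ^ 2 * g * h1

private theorem coc4_K (hB : IsPB X e e' J B) (h : IsStrip D H c X) (hJ : IsJ H X e' J) {f : ℂ → ℂ} (hf : Cc f)
    {g : ℝ → ℝ} (hg : ContDiff ℝ ((⊤ : ℕ∞) : WithTop ℕ∞) g) :
    2 * H * (⟪B (cl2 f), SC.cm (fam fun q => (J q)⁻¹)
      (Ms (Pool.Agent.Lib.MP_79abb3_an.FW.rc g hg.continuous) (B (cl2 f)))⟫_ℂ).re =
      ∫ q in Cel H, g q.2 * coc4_w X e e' J f q := by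
  have hθ := coc4_pc (e := e) h hJ hf
  rw [hB.eq f hf, Ms_fHc hg hθ, coc4_ip hJ hθ (hθ.mulR (PY.of_z H hg))]
  have h1 : ∀ q : ℝ × ℝ, (starRingEnd ℂ) (((ctf e e' q.2 * J q : ℝ) : ℂ) * f (X q)) *
      ((((J q)⁻¹ : ℝ) : ℂ) * ((g q.2 : ℂ) * (((ctf e e' q.2 * J q : ℝ) : ℂ) * f (X q)))) =
      ((g q.2 * coc4_w X e e' J f q : ℝ) : ℂ) := fun q => coc4_pt (hJ.pos q)
  simp_rw [h1]
  rw [integral_complex_ofReal, Complex.ofReal_re]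

private theorem coc4_K1 (hB : IsPB X e e' J B) (h : IsStrip D H c X) (hJ : IsJ H X e' J) {f : ℂ → ℂ} (hf : Cc f) :
    2 * H * (⟪B (cl2 f), SC.cm (fam fun q => (J q)⁻¹) (B (cl2 f))⟫_ℂ).re =
      ∫ q in Cel H, coc4_w X e e' J f q := by
  have hθ := coc4_pc (e := e) h hJ hf
  rw [hB.eq f hf, coc4_ip hJ hθ hθ]
  have h1 : ∀ q : ℝ × ℝ, (starRingEnd ℂ) (((ctf e e' q.2 * J q : ℝ) : ℂ) * f (X q)) *
      ((((J q)⁻¹ : ℝ) : ℂ) * (((ctf e e' q.2 * J q : ℝ) : ℂ) * f (X q))) =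
      ((coc4_w X e e' J f q : ℝ) : ℂ) := fun q => by
    have := coc4_pt (a := ctf e e' q.2) (g := 1) (x := f (X q)) (hJ.pos q)
    rw [Complex.ofReal_one, one_mul, one_mul] at this
    exact this
  simp_rw [h1]
  rw [integral_complex_ofReal, Complex.ofReal_re]

private theorem coc4_ae1 (H : ℝ) : ∀ᵐ q : ℝ × ℝ, q.1 ≠ -H :=
  Measure.quasiMeasurePreserving_fst.ae (show ∀ᵐ y : ℝ, y ≠ -H by simp [ae_iff])

private theorem coc4_ae2 : ∀ᵐ q : ℝ × ℝ, q.2 ≠ 0 :=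
  Measure.quasiMeasurePreserving_snd.ae (show ∀ᵐ y : ℝ, y ≠ 0 by simp [ae_iff])

private theorem coc4_Rc_sub {a : ℝ} (ha : a ≤ H) : Rc H a ⊆ Cel H := by
  rintro q ⟨h1, h2⟩
  exact ⟨⟨h1.1.le, h1.2⟩, ⟨h2.1.le, h2.2.le.trans ha⟩⟩

private theorem coc4_int {φ : ℝ × ℝ → ℝ} (hφ : Continuous φ) {a : ℝ} (ha : a ≤ H) : IntegrableOn φ (Rc H a) :=
  (hφ.continuousOn.integrableOn_compact (isCompact_Cel (H := H))).mono_set (coc4_Rc_sub ha)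

private theorem coc4_J_int (h : IsStrip D H c X) (hJ : IsJ H X e' J) {a : ℝ} (ha : a ≤ e') (he' : e' < c)
    {f : ℂ → ℂ} :
    ∫ x in Wc X a, ‖f x‖ ^ 2 = ∫ q in Rc H a, J q * ‖f (X q)‖ ^ 2 := by
  rw [h.integral (ha.trans he'.le)]
  refine setIntegral_congr_fun (measurableSet_Rc H a) fun q hq => ?_
  show mJ X q • ‖f (X q)‖ ^ 2 = _
  rw [smul_eq_mul, hJ.eq q hq.2.1.le (hq.2.2.le.trans ha)]

/-- `2H ⟨PB f, g PB f⟩ = ∫ ω² J² g |f ∘ X|²` on test functions. -/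
theorem IsPB.upper (hB : IsPB X e e' J B) (h : IsStrip D H c X) (hJ : IsJ H X e' J) (he0 : 0 < e) (he : e < e')
    (he' : e' < c) (f : L2c) :
    2 * H * (⟪B f, SC.cm (fam fun q => (J q)⁻¹) (B f)⟫_ℂ).re ≤ ∫ x in Wc X e', ‖(f : ℂ → ℂ) x‖ ^ 2 := by
  refine coc4_dense_le (F1 := fun f : L2c => 2 * H * (⟪B f, SC.cm (fam fun q => (J q)⁻¹) (B f)⟫_ℂ).re)
    ?_ (int_cont _ (h.isOpen_Wc he'.le).measurableSet) ?_ f
  · exact continuous_const.mul (Complex.continuous_re.comp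
      (B.continuous.inner ((SC.cm (fam fun q => (J q)⁻¹)).comp B).continuous))
  intro f hf
  rw [coc4_K1 hB h hJ hf, coc4_set _ hf, coc4_J_int h hJ le_rfl he']
  have he'H : e' ≤ H := (he'.trans h.cH).le
  have hwc := coc4_w_cont (e := e) h hJ hf
  have h1 : ∫ q in Cel H, coc4_w X e e' J f q = ∫ q in Rc H e', coc4_w X e e' J f q := by
    refine setIntegral_eq_of_subset_of_ae_sdiff_eq_zero measurableSet_Cel.nullMeasurableSet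
      (coc4_Rc_sub he'H) ?_
    filter_upwards [coc4_ae1 H, coc4_ae2] with q hq1 hq2 hq
    obtain ⟨⟨h3, h4⟩, h5⟩ := hq
    have h6 : e' ≤ q.2 := by
      by_contra h7
      exact h5 ⟨⟨lt_of_le_of_ne h3.1 (Ne.symm hq1), h3.2⟩, ⟨lt_of_le_of_ne h4.1 (Ne.symm hq2), not_le.1 h7⟩⟩
    unfold coc4_w
    rw [ctf_zero he h6]
    ring
  rw [h1]
  have hJc : Continuous fun q : ℝ × ℝ => J q * ‖f (X q)‖ ^ 2 :=
    hJ.py.smooth.continuous.mul ((hf.smo.continuous.comp h.smooth.continuous).norm.pow 2)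
  refine setIntegral_mono_on (coc4_int hwc he'H) (coc4_int hJc he'H) (measurableSet_Rc H e') fun q _ => ?_
  unfold coc4_w
  have h2 := coc4_ctf_mem e e' q.2
  have h3 : ctf e e' q.2 ^ 2 ≤ 1 := pow_le_one₀ h2.1 h2.2
  have h4 := (hJ.pos q).le
  rw [mul_assoc]
  exact mul_le_of_le_one_left (by positivity) h3

theorem IsPB.lower (hB : IsPB X e e' J B) (h : IsStrip D H c X) (hJ : IsJ H X e' J) (he0 : 0 < e) (he : e < e')
    (he' : e' < c) (f : L2c) :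
    ∫ x in Wc X e, ‖(f : ℂ → ℂ) x‖ ^ 2 ≤ 2 * H * (⟪B f, SC.cm (fam fun q => (J q)⁻¹) (B f)⟫_ℂ).re := by
  refine coc4_dense_le (F2 := fun f : L2c => 2 * H * (⟪B f, SC.cm (fam fun q => (J q)⁻¹) (B f)⟫_ℂ).re)
    (int_cont _ (h.isOpen_Wc (he.trans he').le).measurableSet) ?_ ?_ f
  · exact continuous_const.mul (Complex.continuous_re.comp
      (B.continuous.inner ((SC.cm (fam fun q => (J q)⁻¹)).comp B).continuous))
  intro f hf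
  rw [coc4_K1 hB h hJ hf, coc4_set _ hf, coc4_J_int h hJ he.le he']
  have heH : e ≤ H := (he.trans (he'.trans h.cH)).le
  have hwc := coc4_w_cont (e := e) h hJ hf
  have h1 : ∫ q in Rc H e, J q * ‖f (X q)‖ ^ 2 = ∫ q in Rc H e, coc4_w X e e' J f q := by
    refine setIntegral_congr_fun (measurableSet_Rc H e) fun q hq => ?_
    unfold coc4_w
    show J q * ‖f (X q)‖ ^ 2 = ctf e e' q.2 ^ 2 * J q * ‖f (X q)‖ ^ 2
    rw [ctf_one he hq.2.2.le]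
    ring
  rw [h1]
  exact setIntegral_mono_set (hwc.continuousOn.integrableOn_compact (isCompact_Cel (H := H)))
    (Eventually.of_forall fun q => coc4_w_nonneg hJ f q) (coc4_Rc_sub heH).eventuallyLE

private theorem coc4_abs {E : Type} [NormedAddCommGroup E] [InnerProductSpace ℂ E] {k : ℝ} (hk : 0 ≤ k) (y z z' : E)
    (A : E →L[ℂ] E) {δ : ℝ} (hz : ‖z - z'‖ ≤ δ * ‖y‖) :
    |k * (⟪y, A z⟫_ℂ).re - k * (⟪y, A z'⟫_ℂ).re| ≤ δ * (k * (‖y‖ * (‖A‖ * ‖y‖))) := by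
  have h1 : k * (⟪y, A z⟫_ℂ).re - k * (⟪y, A z'⟫_ℂ).re = k * (⟪y, A (z - z')⟫_ℂ).re := by
    rw [map_sub, inner_sub_right, Complex.sub_re]; ring
  rw [h1, abs_mul, abs_of_nonneg hk]
  have h2 : |(⟪y, A (z - z')⟫_ℂ).re| ≤ ‖y‖ * (‖A‖ * (δ * ‖y‖)) :=
    (Complex.abs_re_le_norm _).trans ((norm_inner_le_norm _ _).trans
      (mul_le_mul_of_nonneg_left ((A.le_opNorm _).trans
        (mul_le_mul_of_nonneg_left hz (norm_nonneg _))) (norm_nonneg _)))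
  calc k * |(⟪y, A (z - z')⟫_ℂ).re| ≤ k * (‖y‖ * (‖A‖ * (δ * ‖y‖))) := mul_le_mul_of_nonneg_left h2 hk
    _ = _ := by ring

private theorem coc4_rc {g p : ℝ → ℝ} (hg : Continuous g) (hp : Continuous p) {δ : ℝ} (hδ : 0 ≤ δ)
    (h : ∀ z ∈ Icc (0:ℝ) H, |g z - p z| ≤ δ) :
    ‖(Pool.Agent.Lib.MP_79abb3_an.FW.rc g hg : CI H) - Pool.Agent.Lib.MP_79abb3_an.FW.rc p hp‖ ≤ δ := by
  rw [ContinuousMap.norm_le _ hδ]
  intro z
  have e1 : (Pool.Agent.Lib.MP_79abb3_an.FW.rc g hg - Pool.Agent.Lib.MP_79abb3_an.FW.rc p hp : CI H) z =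
      ((g z - p z : ℝ) : ℂ) := by
    show ((g z : ℝ) : ℂ) - ((p z : ℝ) : ℂ) = _
    push_cast
    rfl
  rw [e1, Complex.norm_real, Real.norm_eq_abs]
  exact h z z.2

private theorem coc4_Kc (hB : IsPB X e e' J B) (h : IsStrip D H c X) (hJ : IsJ H X e' J) {f : ℂ → ℂ} (hf : Cc f)
    {g : ℝ → ℝ} (hg : Continuous g) :
    2 * H * (⟪B (cl2 f), SC.cm (fam fun q => (J q)⁻¹)
      (Ms (Pool.Agent.Lib.MP_79abb3_an.FW.rc g hg) (B (cl2 f)))⟫_ℂ).re =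
      ∫ q in Cel H, g q.2 * coc4_w X e e' J f q := by
  have hH0 : 0 < H := hH.out
  have hwc := coc4_w_cont (e := e) h hJ hf
  have hwi : IntegrableOn (coc4_w X e e' J f) (Cel H) :=
    hwc.continuousOn.integrableOn_compact (isCompact_Cel (H := H))
  obtain ⟨y, hy⟩ : ∃ y : HH H, y = B (cl2 f) := ⟨_, rfl⟩
  obtain ⟨A, hA⟩ : ∃ A : HH H →L[ℂ] HH H, A = SC.cm (fam fun q => (J q)⁻¹) := ⟨_, rfl⟩
  have hK : ∀ {p : ℝ → ℝ} (hp : ContDiff ℝ ((⊤ : ℕ∞) : WithTop ℕ∞) p),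
      2 * H * (⟪y, A (Ms (Pool.Agent.Lib.MP_79abb3_an.FW.rc p hp.continuous) y)⟫_ℂ).re =
      ∫ q in Cel H, p q.2 * coc4_w X e e' J f q := fun hp => by
    rw [hy, hA]; exact coc4_K hB h hJ hf hp
  rw [← hy, ← hA]
  obtain ⟨P, hP⟩ : ∃ P : ℝ, P = 2 * H * (‖y‖ * (‖A‖ * ‖y‖)) + ∫ q in Cel H, coc4_w X e e' J f q := ⟨_, rfl⟩
  have key : ∀ δ : ℝ, 0 < δ → |2 * H * (⟪y, A (Ms (Pool.Agent.Lib.MP_79abb3_an.FW.rc g hg) y)⟫_ℂ).re -
      ∫ q in Cel H, g q.2 * coc4_w X e e' J f q| ≤ δ * P := by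
    intro δ hδ
    obtain ⟨p, hp⟩ := exists_polynomial_near_of_continuousOn 0 H g hg.continuousOn δ hδ
    have hps : ContDiff ℝ ((⊤ : ℕ∞) : WithTop ℕ∞) fun z => p.eval z := by
      simpa using Polynomial.contDiff_aeval (𝕜 := ℝ) p ((⊤ : ℕ∞) : WithTop ℕ∞)
    have hb : ∀ z ∈ Icc (0:ℝ) H, |g z - p.eval z| ≤ δ := fun z hz => by
      rw [abs_sub_comm]; exact (hp z hz).le
    have hn : ‖Ms (Pool.Agent.Lib.MP_79abb3_an.FW.rc g hg) y -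
        Ms (Pool.Agent.Lib.MP_79abb3_an.FW.rc (fun z => p.eval z) hps.continuous) y‖ ≤ δ * ‖y‖ := by
      have e1 : Ms (Pool.Agent.Lib.MP_79abb3_an.FW.rc g hg) y -
          Ms (Pool.Agent.Lib.MP_79abb3_an.FW.rc (fun z => p.eval z) hps.continuous) y =
          Ms (Pool.Agent.Lib.MP_79abb3_an.FW.rc g hg -
            Pool.Agent.Lib.MP_79abb3_an.FW.rc (fun z => p.eval z) hps.continuous) y := by
        rw [← MsB_apply, ← MsB_apply, ← MsB_apply, map_sub]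
        rfl
      rw [e1]
      exact (norm_Ms_apply_le _ _).trans
        (mul_le_mul_of_nonneg_right (coc4_rc hg hps.continuous hδ.le hb) (norm_nonneg _))
    have h1 := coc4_abs (k := 2 * H) (by linarith) y _ _ A hn
    rw [hK hps] at h1
    have h2 : |(∫ q in Cel H, p.eval q.2 * coc4_w X e e' J f q) - ∫ q in Cel H, g q.2 * coc4_w X e e' J f q| ≤
        δ * ∫ q in Cel H, coc4_w X e e' J f q := by
      have i1 : IntegrableOn (fun q : ℝ × ℝ => p.eval q.2 * coc4_w X e e' J f q) (Cel H) :=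
        ((p.continuous.comp continuous_snd).mul hwc).continuousOn.integrableOn_compact (isCompact_Cel (H := H))
      have i2 : IntegrableOn (fun q : ℝ × ℝ => g q.2 * coc4_w X e e' J f q) (Cel H) :=
        ((hg.comp continuous_snd).mul hwc).continuousOn.integrableOn_compact (isCompact_Cel (H := H))
      rw [← integral_sub i1 i2, ← integral_const_mul]
      refine (abs_integral_le_integral_abs).trans ?_
      refine setIntegral_mono_on (i1.sub i2).abs (hwi.const_mul δ) measurableSet_Cel fun q hq => ?_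
      show |p.eval q.2 * coc4_w X e e' J f q - g q.2 * coc4_w X e e' J f q| ≤ _
      rw [← sub_mul, abs_mul, abs_of_nonneg (coc4_w_nonneg hJ f q)]
      exact mul_le_mul_of_nonneg_right (hp q.2 hq.2).le (coc4_w_nonneg hJ f q)
    rw [hP, mul_add]
    exact (abs_sub_le _ _ _).trans (add_le_add h1 h2)
  have hP0 : 0 ≤ P := by
    have := (abs_nonneg _).trans (key 1 one_pos)
    linarith
  by_contra hne
  have hpos : 0 < |2 * H * (⟪y, A (Ms (Pool.Agent.Lib.MP_79abb3_an.FW.rc g hg) y)⟫_ℂ).re -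
      ∫ q in Cel H, g q.2 * coc4_w X e e' J f q| := abs_pos.2 (sub_ne_zero.2 hne)
  have h3 := key (|2 * H * (⟪y, A (Ms (Pool.Agent.Lib.MP_79abb3_an.FW.rc g hg) y)⟫_ℂ).re -
      ∫ q in Cel H, g q.2 * coc4_w X e e' J f q| / (2 * (P + 1))) (by positivity)
  rw [div_mul_eq_mul_div, le_div_iff₀ (by positivity)] at h3
  nlinarith

/-- Sharp cut-offs: for `0 ≤ g ≤ 1` a function of `z` with `g = 1` on `[a, a']`, `a' ≤ e`:
`∫_{a<z<a'} |f|² ≤ 2H ⟨PB f, a g PB f⟩`. -/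
theorem IsPB.lower_g (hB : IsPB X e e' J B) (h : IsStrip D H c X) (hJ : IsJ H X e' J) (he0 : 0 < e) (he : e < e')
    (he' : e' < c) {g : ℝ → ℝ} (hg : Continuous g) (hg0 : ∀ z, 0 ≤ g z) {a a' : ℝ} (ha0 : 0 ≤ a) (ha' : a' ≤ e)
    (hg1 : ∀ z, a < z → z < a' → 1 ≤ g z) (f : L2c) :
    ∫ x in X '' {q | a < q.2 ∧ q.2 < a'}, ‖(f : ℂ → ℂ) x‖ ^ 2 ≤
      2 * H * (⟪B f, SC.cm (fam fun q => (J q)⁻¹) (Ms (Pool.Agent.Lib.MP_79abb3_an.FW.rc g hg) (B f))⟫_ℂ).re := by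
  have hopen : IsOpen (X '' {q : ℝ × ℝ | a < q.2 ∧ q.2 < a'}) :=
    h.isOpen_image ((isOpen_lt continuous_const continuous_snd).inter (isOpen_lt continuous_snd continuous_const))
      fun q hq => ⟨ha0.trans_lt hq.1, hq.2.trans_le (ha'.trans (he.trans he').le)⟩
  refine coc4_dense_le (F2 := fun f : L2c => 2 * H * (⟪B f, SC.cm (fam fun q => (J q)⁻¹)
    (Ms (Pool.Agent.Lib.MP_79abb3_an.FW.rc g hg) (B f))⟫_ℂ).re) (int_cont _ hopen.measurableSet) ?_ ?_ f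
  · exact continuous_const.mul (Complex.continuous_re.comp
      (B.continuous.inner ((SC.cm (fam fun q => (J q)⁻¹)).comp
        ((Ms (Pool.Agent.Lib.MP_79abb3_an.FW.rc g hg)).comp B)).continuous))
  intro f hf
  rw [coc4_Kc hB h hJ hf hg, coc4_set _ hf]
  have heH : e ≤ H := (he.trans (he'.trans h.cH)).le
  have hwc := coc4_w_cont (e := e) h hJ hf
  obtain ⟨T, hT⟩ : ∃ T : Set ℂ, T = X '' {q : ℝ × ℝ | a < q.2 ∧ q.2 < a'} := ⟨_, rfl⟩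
  have hTW : T ⊆ Wc X e := by
    rw [hT]
    rintro _ ⟨q, hq, rfl⟩
    exact ⟨q, ⟨ha0.trans_lt hq.1, hq.2.trans_le ha'⟩, rfl⟩
  rw [← hT] at hopen ⊢
  have hmem : ∀ q ∈ Rc H e, X q ∈ T → a < q.2 ∧ q.2 < a' := by
    intro q hq hX
    rw [hT] at hX
    obtain ⟨q', hq', hqq⟩ := hX
    have hper : Function.Periodic (fun y => X (y, q'.2)) (2 * H) := fun y => h.per y q'.2
    obtain ⟨m, hm, -⟩ := existsUnique_add_zsmul_mem_Ioc (show (0:ℝ) < 2 * H by have := hH.out; linarith) q'.1 (-H)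
    have e1 : X (q'.1 + m • (2 * H), q'.2) = X q' := (hper.zsmul m) q'.1
    have hc' : q'.2 < c := hq'.2.trans_le (ha'.trans (he.trans he').le)
    have e2 := h.inj (x₁ := (q'.1 + m • (2 * H), q'.2)) (x₂ := q)
      ⟨⟨hm.1, by have := hm.2; linarith⟩, ⟨(ha0.trans_lt hq'.1).le, hc'⟩⟩
      ⟨hq.1, ⟨hq.2.1.le, hq.2.2.trans (he.trans he')⟩⟩ (e1.trans hqq)
    rw [← e2]
    exact hq'
  have h1 : ∫ x in T, ‖f x‖ ^ 2 = ∫ q in Rc H e, mJ X q • T.indicator (fun x => ‖f x‖ ^ 2) (X q) := by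
    rw [← h.integral (he.trans he').le, setIntegral_indicator hopen.measurableSet,
      inter_eq_self_of_subset_right hTW]
  rw [h1]
  have hJc : Continuous fun q : ℝ × ℝ => J q * ‖f (X q)‖ ^ 2 :=
    hJ.py.smooth.continuous.mul ((hf.smo.continuous.comp h.smooth.continuous).norm.pow 2)
  have hgw : Continuous fun q : ℝ × ℝ => g q.2 * coc4_w X e e' J f q := (hg.comp continuous_snd).mul hwc
  have hint : IntegrableOn (fun q => mJ X q • T.indicator (fun x => ‖f x‖ ^ 2) (X q)) (Rc H e) := by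
    rw [← h.integrableOn (he.trans he').le]
    refine IntegrableOn.indicator ?_ hopen.measurableSet
    exact ((hf.memLp 2).integrable_norm_pow (by norm_num)).integrableOn
  have h2 : ∫ q in Rc H e, mJ X q • T.indicator (fun x => ‖f x‖ ^ 2) (X q) ≤
      ∫ q in Rc H e, g q.2 * coc4_w X e e' J f q := by
    refine setIntegral_mono_on hint (coc4_int hgw heH) (measurableSet_Rc H e) fun q hq => ?_
    have hw0 := coc4_w_nonneg (e := e) hJ f q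
    by_cases hX : X q ∈ T
    · have h3 := hmem q hq hX
      rw [indicator_of_mem hX, smul_eq_mul, ← hJ.eq q hq.2.1.le (hq.2.2.le.trans he.le)]
      have h4 : J q * ‖f (X q)‖ ^ 2 = coc4_w X e e' J f q := by
        unfold coc4_w
        rw [ctf_one he hq.2.2.le]
        ring
      rw [h4]
      exact le_mul_of_one_le_left hw0 (hg1 q.2 h3.1 h3.2)
    · rw [indicator_of_notMem hX, smul_zero]
      exact mul_nonneg (hg0 _) hw0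
  refine h2.trans ?_
  exact setIntegral_mono_set (hgw.continuousOn.integrableOn_compact (isCompact_Cel (H := H)))
    (Eventually.of_forall fun q => mul_nonneg (hg0 _) (coc4_w_nonneg hJ f q)) (coc4_Rc_sub heH).eventuallyLE

/-- **The velocity in the collar is controlled by `T Ga v`**: `∫_{Wc e} |u|² ≤ 2H |La u|²` (`norm_bHc_sq`, `grad_sq`). -/
theorem IsLa.lower (hΛ : IsLa D X e e' Λ) (h : IsStrip D H c X) (hO : IsOpen D) (he0 : 0 < e) (he : e < e')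
    (he' : e' < c) (u : XD D) :
    ∫ x in Wc X e, (‖((u : Y2).fst : ℂ → ℂ) x‖ ^ 2 + ‖((u : Y2).snd : ℂ → ℂ) x‖ ^ 2) ≤ 2 * H * ‖Λ u‖ ^ 2 := by
  have hHp : 0 < H := hH.out
  have heC : e ≤ c := (he.trans he').le
  have heH : e ≤ H := (he.trans (he'.trans h.cH)).le
  have hS := (h.isOpen_Wc heC).measurableSet
  have hsplit : ∀ w : Y2, ∫ x in Wc X e, (‖(w.fst : ℂ → ℂ) x‖ ^ 2 + ‖(w.snd : ℂ → ℂ) x‖ ^ 2) =
      (∫ x in Wc X e, ‖(w.fst : ℂ → ℂ) x‖ ^ 2) + ∫ x in Wc X e, ‖(w.snd : ℂ → ℂ) x‖ ^ 2 := fun w =>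
    integral_add (((Lp.memLp w.fst).integrable_norm_pow (by norm_num)).integrableOn)
      (((Lp.memLp w.snd).integrable_norm_pow (by norm_num)).integrableOn)
  rw [hsplit]
  have c1 : Continuous fun u : XD D => (u : Y2).fst := by fun_prop
  have c2 : Continuous fun u : XD D => (u : Y2).snd := by fun_prop
  have c3 : Continuous fun u : XD D => (∫ x in Wc X e, ‖((u : Y2).fst : ℂ → ℂ) x‖ ^ 2) +
      ∫ x in Wc X e, ‖((u : Y2).snd : ℂ → ℂ) x‖ ^ 2 := ((int_cont _ hS).comp c1).add ((int_cont _ hS).comp c2)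
  have c4 : Continuous fun u : XD D => 2 * H * ‖Λ u‖ ^ 2 := continuous_const.mul (Λ.continuous.norm.pow 2)
  refine isClosed_property (gpX_dense D) (isClosed_le c3 c4) (fun ψ => ?_) u
  rw [← hsplit]
  have hψ := Adm.cc ψ
  have e1 : ∫ x in Wc X e, (‖(((gpX D ψ : XD D) : Y2).fst : ℂ → ℂ) x‖ ^ 2 +
      ‖(((gpX D ψ : XD D) : Y2).snd : ℂ → ℂ) x‖ ^ 2) =
      ∫ x in Wc X e, (‖PD.px (ψ : ℂ → ℂ) x‖ ^ 2 + ‖PD.py (ψ : ℂ → ℂ) x‖ ^ 2) := by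
    refine integral_congr_ae ?_
    filter_upwards [ae_restrict_of_ae (cl2_coe (hψ.py.memLp 2)), ae_restrict_of_ae (cl2_coe (hψ.px.memLp 2)),
      ae_restrict_of_ae (Lp.coeFn_neg (cl2 (PD.px (ψ : ℂ → ℂ))))] with x h1 h2 h3
    have f1 : ((gpX D ψ : XD D) : Y2).fst = cl2 (PD.py (ψ : ℂ → ℂ)) := rfl
    have f2 : ((gpX D ψ : XD D) : Y2).snd = -cl2 (PD.px (ψ : ℂ → ℂ)) := rfl
    rw [f1, f2, h1, h3, Pi.neg_apply, h2, norm_neg, add_comm]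
  have hgc := gaF_pc (e := e) (e' := e') h he hψ.smo
  have e2 : ∫ q in Rc H e, mJ X q • (‖PD.px (ψ : ℂ → ℂ) (X q)‖ ^ 2 + ‖PD.py (ψ : ℂ → ℂ) (X q)‖ ^ 2) =
      ∫ q in Rc H e, (‖dYc (gaF X e e' ψ) q‖ ^ 2 + ‖dZc (gaF X e e' ψ) q‖ ^ 2) := by
    refine setIntegral_congr_fun (measurableSet_Rc H e) fun q hq => ?_
    have h1 : gaF X e e' ψ =ᶠ[𝓝 q] fun q => (ψ : ℂ → ℂ) (X q) - (ψ : ℂ → ℂ) (X (0, 0)) := by
      have ho : IsOpen {q : ℝ × ℝ | q.2 < e} := isOpen_lt continuous_snd continuous_const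
      filter_upwards [ho.mem_nhds hq.2.2] with r hr
      have hr' : r.2 < e := hr
      unfold gaF
      rw [ctf_one he hr'.le, Complex.ofReal_one, one_mul]
    have h2 : fderiv ℝ (gaF X e e' ψ) q = fderiv ℝ (fun q => (ψ : ℂ → ℂ) (X q)) q := by
      rw [h1.fderiv_eq, fderiv_sub_const]
    have h3 : dYc (gaF X e e' ψ) q = dYc (fun q => (ψ : ℂ → ℂ) (X q)) q := by
      unfold dYc; rw [h2]
    have h4 : dZc (gaF X e e' ψ) q = dZc (fun q => (ψ : ℂ → ℂ) (X q)) q := by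
      unfold dZc; rw [h2]
    show mJ X q • (‖PD.px (ψ : ℂ → ℂ) (X q)‖ ^ 2 + ‖PD.py (ψ : ℂ → ℂ) (X q)‖ ^ 2) =
      ‖dYc (gaF X e e' ψ) q‖ ^ 2 + ‖dZc (gaF X e e' ψ) q‖ ^ 2
    rw [h3, h4, h.grad_sq hψ.smo hq.2.1.le (hq.2.2.trans_le heC), smul_eq_mul]
  obtain ⟨ε, hε, hcon⟩ := gaF_con (e' := e') h hO he0 he ψ
  have e3 := norm_bHc_sq hgc (gaF_van h he he' ψ) ⟨ε, hε, 0, hcon⟩
  have e4 : 2 * H * ‖Λ (gpX D ψ)‖ ^ 2 =
      ∫ q in Cel H, (‖dYc (gaF X e e' ψ) q‖ ^ 2 + ‖dZc (gaF X e e' ψ) q‖ ^ 2) := by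
    rw [hΛ.eq ψ, e3]
    field_simp
  rw [e1, h.integral heC, e2]
  refine le_trans ?_ e4.ge
  have hcont : Continuous fun q => ‖dYc (gaF X e e' ψ) q‖ ^ 2 + ‖dZc (gaF X e e' ψ) q‖ ^ 2 :=
    (hgc.yy.smooth.continuous.norm.pow 2).add (hgc.zz.smooth.continuous.norm.pow 2)
  exact setIntegral_mono_set (hcont.continuousOn.integrableOn_compact (isCompact_Cel (H := H)))
    (Eventually.of_forall fun q => by positivity) (coc4_Rc_sub heH).eventuallyLE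

/-- The wall value is a bounded functional of the velocity. -/
theorem wall_bd (h : IsStrip D H c X) (hO : IsOpen D) (hD : Bornology.IsBounded D) : ∃ C : ℝ, 0 ≤ C ∧
    ∀ ψ : Adm D, ‖(ψ : ℂ → ℂ) (X (0, 0))‖ ≤ C * ‖gp ψ‖ := by
  have hHp : 0 < H := hH.out
  obtain ⟨C1, h10, h1⟩ := exists_cl2_le hD
  have hc2 : c / 2 < c := by linarith [h.c0]
  have hc0 : 0 < c / 2 := by linarith [h.c0]
  have hcH : c / 2 ≤ H := by linarith [h.cH, h.c0]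
  obtain ⟨C2, h20, h2⟩ := strip_bd h hO hc2 hc0
  obtain ⟨J, hJp, hJ0, hJe⟩ := h.exists_J hc2
  have hJc := hJp.smooth.continuous
  obtain ⟨δ, hδ0, hδ⟩ : ∃ δ, 0 < δ ∧ ∀ q ∈ Cel H, δ ≤ J q := by
    have hne : (Cel H).Nonempty := ⟨(0, 0), ⟨by linarith, hHp.le⟩, ⟨le_rfl, hHp.le⟩⟩
    obtain ⟨q0, -, hq0⟩ := (isCompact_Cel (H := H)).exists_isMinOn hne hJc.continuousOn
    exact ⟨J q0, hJ0 q0, fun q hq => hq0 hq⟩
  obtain ⟨V, hV⟩ : ∃ V, V = volume.real (Rc H (c / 2)) := ⟨_, rfl⟩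
  have hV0 : 0 < V := by
    rw [hV]
    unfold Rc
    rw [Measure.volume_eq_prod, measureReal_prod_prod, Real.volume_real_Ioc_of_le (by linarith),
      Real.volume_real_Ioo_of_le hc0.le]
    exact mul_pos (by linarith) (by linarith)
  refine ⟨√((2 * C2 + 2 * δ⁻¹ * C1 ^ 2) / V), Real.sqrt_nonneg _, fun ψ => ?_⟩
  have hψ := Adm.cc ψ
  have hXc : Continuous fun q : ℝ × ℝ => (ψ : ℂ → ℂ) (X q) := hψ.smo.continuous.comp h.smooth.continuous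
  obtain ⟨w, hw⟩ : ∃ w, w = (ψ : ℂ → ℂ) (X (0, 0)) := ⟨_, rfl⟩
  have hA := (h2 ψ).1
  rw [← hw] at hA ⊢
  have hB1 : ∫ q in Rc H (c / 2), J q * ‖(ψ : ℂ → ℂ) (X q)‖ ^ 2 ≤ C1 ^ 2 * ‖gp (ψ : ℂ → ℂ)‖ ^ 2 := by
    have e1 : ∫ q in Rc H (c / 2), J q * ‖(ψ : ℂ → ℂ) (X q)‖ ^ 2 = ∫ x in Wc X (c / 2), ‖(ψ : ℂ → ℂ) x‖ ^ 2 := by
      rw [h.integral hc2.le]
      refine setIntegral_congr_fun (measurableSet_Rc H (c / 2)) fun q hq => ?_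
      show J q * _ = mJ X q • ‖(ψ : ℂ → ℂ) (X q)‖ ^ 2
      rw [smul_eq_mul, hJe q hq.2.1.le hq.2.2.le]
    rw [e1]
    have e2 : ∫ x in Wc X (c / 2), ‖(ψ : ℂ → ℂ) x‖ ^ 2 ≤ ∫ x, ‖(ψ : ℂ → ℂ) x‖ ^ 2 :=
      setIntegral_le_integral ((hψ.memLp 2).integrable_norm_pow (by norm_num))
        (Eventually.of_forall fun x => by positivity)
    rw [← hψ.norm_sq] at e2
    refine e2.trans ?_
    have e3 : ‖cl2 (ψ : ℂ → ℂ)‖ ≤ C1 * ‖gp (ψ : ℂ → ℂ)‖ := h1 ψ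
    rw [← mul_pow]
    exact pow_le_pow_left₀ (norm_nonneg _) e3 2
  have i1 : IntegrableOn (fun q => ‖(ψ : ℂ → ℂ) (X q) - w‖ ^ 2) (Rc H (c / 2)) :=
    coc4_int ((hXc.sub continuous_const).norm.pow 2) hcH
  have i2 : IntegrableOn (fun q => J q * ‖(ψ : ℂ → ℂ) (X q)‖ ^ 2) (Rc H (c / 2)) :=
    coc4_int (hJc.mul (hXc.norm.pow 2)) hcH
  have hC : V * ‖w‖ ^ 2 ≤ 2 * (∫ q in Rc H (c / 2), ‖(ψ : ℂ → ℂ) (X q) - w‖ ^ 2) +
      2 * δ⁻¹ * ∫ q in Rc H (c / 2), J q * ‖(ψ : ℂ → ℂ) (X q)‖ ^ 2 := by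
    have e1 : V * ‖w‖ ^ 2 = ∫ q in Rc H (c / 2), ‖w‖ ^ 2 := by
      rw [setIntegral_const, ← hV, smul_eq_mul]
    rw [e1, ← integral_const_mul, ← integral_const_mul, ← integral_add (i1.const_mul 2) (i2.const_mul _)]
    refine setIntegral_mono_on (coc4_int continuous_const hcH) ((i1.const_mul 2).add (i2.const_mul _))
      (measurableSet_Rc H (c / 2)) fun q hq => ?_
    have hJq := hδ q (coc4_Rc_sub hcH hq)
    have h5 : ‖w‖ ≤ ‖(ψ : ℂ → ℂ) (X q) - w‖ + ‖(ψ : ℂ → ℂ) (X q)‖ := by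
      have := norm_sub_le ((ψ : ℂ → ℂ) (X q)) ((ψ : ℂ → ℂ) (X q) - w)
      rw [sub_sub_cancel] at this
      linarith
    have h6 : ‖w‖ ^ 2 ≤ 2 * ‖(ψ : ℂ → ℂ) (X q) - w‖ ^ 2 + 2 * ‖(ψ : ℂ → ℂ) (X q)‖ ^ 2 := by
      have h7 : ‖w‖ ^ 2 ≤ (‖(ψ : ℂ → ℂ) (X q) - w‖ + ‖(ψ : ℂ → ℂ) (X q)‖) ^ 2 :=
        pow_le_pow_left₀ (norm_nonneg _) h5 2
      nlinarith [sq_nonneg (‖(ψ : ℂ → ℂ) (X q) - w‖ - ‖(ψ : ℂ → ℂ) (X q)‖)]
    have h8 : ‖(ψ : ℂ → ℂ) (X q)‖ ^ 2 ≤ δ⁻¹ * (J q * ‖(ψ : ℂ → ℂ) (X q)‖ ^ 2) := by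
      rw [← mul_assoc]
      refine le_mul_of_one_le_left (by positivity) ?_
      rw [inv_mul_eq_div, le_div_iff₀ hδ0, one_mul]
      exact hJq
    show ‖w‖ ^ 2 ≤ 2 * ‖(ψ : ℂ → ℂ) (X q) - w‖ ^ 2 + 2 * δ⁻¹ * (J q * ‖(ψ : ℂ → ℂ) (X q)‖ ^ 2)
    linarith
  have hE : V * ‖w‖ ^ 2 ≤ (2 * C2 + 2 * δ⁻¹ * C1 ^ 2) * ‖gp (ψ : ℂ → ℂ)‖ ^ 2 := by
    have e5 : 2 * δ⁻¹ * ∫ q in Rc H (c / 2), J q * ‖(ψ : ℂ → ℂ) (X q)‖ ^ 2 ≤
        2 * δ⁻¹ * (C1 ^ 2 * ‖gp (ψ : ℂ → ℂ)‖ ^ 2) := mul_le_mul_of_nonneg_left hB1 (by positivity)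
    linarith
  refine le_of_sq_le_sq ?_ (by positivity)
  rw [mul_pow, Real.sq_sqrt (by positivity), div_mul_eq_mul_div, le_div_iff₀ hV0, mul_comm]
  exact hE

/-- `|ψ|_{L²(D)}`, `|ψ|_{L⁴(D)} ≤ C |gp ψ|` (`Cc.poincare`, Ladyzhenskaya `exists_lady`). -/
theorem adm_poinc (hD : Bornology.IsBounded D) : ∃ C : ℝ, 0 ≤ C ∧
    ∀ ψ : Adm D, ‖cl2 ψ‖ ≤ C * ‖gp ψ‖ ∧ ‖cl4 ψ‖ ≤ C * ‖gp ψ‖ := by
  obtain ⟨C1, h10, h1⟩ := exists_cl2_le hD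
  obtain ⟨C2, h20, h2⟩ := exists_lady
  refine ⟨max C1 (√(2 * C2 * C1)), le_max_of_le_left h10, fun ψ => ?_⟩
  have hg0 : 0 ≤ ‖gp (ψ : ℂ → ℂ)‖ := norm_nonneg _
  have e1 : ‖cl2 (ψ : ℂ → ℂ)‖ ≤ C1 * ‖gp (ψ : ℂ → ℂ)‖ := h1 ψ
  refine ⟨e1.trans (mul_le_mul_of_nonneg_right (le_max_left _ _) hg0), ?_⟩
  have e2 := h2 ψ (Adm.cc ψ)
  have e3 := norm_gp_sq (Adm.cc ψ)
  have hx : ‖cl2 (PD.px (ψ : ℂ → ℂ))‖ ≤ ‖gp (ψ : ℂ → ℂ)‖ := by
    refine le_of_sq_le_sq ?_ hg0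
    rw [e3]
    have : 0 ≤ ‖cl2 (PD.py (ψ : ℂ → ℂ))‖ ^ 2 := sq_nonneg _
    linarith
  have hy : ‖cl2 (PD.py (ψ : ℂ → ℂ))‖ ≤ ‖gp (ψ : ℂ → ℂ)‖ := by
    refine le_of_sq_le_sq ?_ hg0
    rw [e3]
    have : 0 ≤ ‖cl2 (PD.px (ψ : ℂ → ℂ))‖ ^ 2 := sq_nonneg _
    linarith
  have e4 : ‖cl4 (ψ : ℂ → ℂ)‖ ^ 2 ≤ 2 * C2 * C1 * ‖gp (ψ : ℂ → ℂ)‖ ^ 2 := by
    refine e2.trans ?_
    have h3 : ‖cl2 (ψ : ℂ → ℂ)‖ * (‖cl2 (PD.px (ψ : ℂ → ℂ))‖ + ‖cl2 (PD.py (ψ : ℂ → ℂ))‖) ≤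
        C1 * ‖gp (ψ : ℂ → ℂ)‖ * (‖gp (ψ : ℂ → ℂ)‖ + ‖gp (ψ : ℂ → ℂ)‖) :=
      mul_le_mul e1 (add_le_add hx hy) (by positivity) (by positivity)
    calc _ ≤ C2 * (C1 * ‖gp (ψ : ℂ → ℂ)‖ * (‖gp (ψ : ℂ → ℂ)‖ + ‖gp (ψ : ℂ → ℂ)‖)) :=
          mul_le_mul_of_nonneg_left h3 h20
      _ = _ := by ring
  have e5 : ‖cl4 (ψ : ℂ → ℂ)‖ ≤ √(2 * C2 * C1) * ‖gp (ψ : ℂ → ℂ)‖ := by
    refine le_of_sq_le_sq ?_ (by positivity)
    rw [mul_pow, Real.sq_sqrt (by positivity)]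
    exact e4
  exact e5.trans (mul_le_mul_of_nonneg_right (le_max_right _ _) hg0)

/-- `∫ v = 0` for vorticities; `v = 0` off `D`. -/
theorem VD_int (hD : Bornology.IsBounded D) (v : VD D) : ∫ x, ((v : L2c) : ℂ → ℂ) x = 0 := by
  obtain ⟨R, hR, hDR⟩ := exists_radius hD
  let f : ContDiffBump (0 : ℂ) := ⟨R + 1, R + 2, by linarith, by linarith⟩
  obtain ⟨η, hηd⟩ : ∃ η : ℂ → ℂ, η = fun y => ((f y : ℝ) : ℂ) := ⟨_, rfl⟩
  have hη : Cc η := by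
    rw [hηd]
    exact ⟨Complex.ofRealCLM.contDiff.comp f.contDiff,
      f.hasCompactSupport.comp_left (g := fun r : ℝ => (r : ℂ)) Complex.ofReal_zero⟩
  have h1 : ∀ y ∈ Metric.ball (0 : ℂ) (R + 1), η y = 1 := by
    intro y hy
    have h2 : f y = 1 := f.one_of_mem_closedBall (Metric.ball_subset_closedBall hy)
    rw [hηd]
    simp only [h2, Complex.ofReal_one]
  have hDb : ∀ x ∈ D, x ∈ Metric.ball (0 : ℂ) (R + 1) := by
    intro x hx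
    rw [mem_ball_zero_iff]
    have := hDR x hx
    linarith
  have hd : ∀ x ∈ D, fderiv ℝ η x = 0 := by
    intro x hx
    have h2 : η =ᶠ[𝓝 x] fun _ => (1 : ℂ) := by
      filter_upwards [Metric.isOpen_ball.mem_nhds (hDb x hx)] with y hy
      exact h1 y hy
    rw [h2.fderiv_eq]
    exact fderiv_const_apply _
  have e1 := pair_VD hD v hη
  have e2 : ∫ x, (v : L2c) x * η x = ∫ x, ((v : L2c) : ℂ → ℂ) x := by
    refine integral_congr_ae ?_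
    filter_upwards [VD_zero v] with x hx
    by_cases h : x ∈ D
    · rw [h1 x (hDb x h), mul_one]
    · rw [hx h, zero_mul]
  have e3 : ∫ x, (((iot D v : XD D) : Y2).fst x * py η x -
      ((iot D v : XD D) : Y2).snd x * px η x) = 0 := by
    rw [← integral_zero ℂ ℂ (μ := (volume : Measure ℂ))]
    refine integral_congr_ae ?_
    filter_upwards [XD_zero (iot D v)] with x hx
    by_cases h : x ∈ D
    · have p1 : px η x = 0 := by unfold px; rw [hd x h]; rfl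
      have p2 : py η x = 0 := by unfold py; rw [hd x h]; rfl
      rw [p1, p2, mul_zero, mul_zero, sub_zero]
    · rw [(hx h).1, (hx h).2, zero_mul, zero_mul, sub_zero]
  rw [← e2, e1, e3]

theorem VD_off (hO : IsOpen D) (v : VD D) : ∀ᵐ x ∂volume, x ∉ D → ((v : L2c) : ℂ → ℂ) x = 0 :=
  VD_zero v

end

end Pool.Agent.Lib.MP_79abb3_an.PD
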