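import Pool.Agent.Lib.MP_79abb3_an.PD.CoC3
import Pool.Agent.Lib.MP_79abb3_an.PD.CoC4

/-!
Theorem D, collar package: transport of a general square integrable function; products of pull backs.
-/

set_option autoImplicit false
set_option linter.unusedSectionVars false

open MeasureTheory Set Filter Topology Function
open scoped ENNReal InnerProductSpace ComplexConjugate

namespace Pool.Agent.Lib.MP_79abb3_an.PD

open Pool.Agent.Lib.MP_79abb3_an.SC Pool.Agent.Lib.MP_79abb3_an.P25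

section
variable {D : Set ℂ} {H c e e' a a' : ℝ} [hH : Fact (0 < H)] {X : ℝ × ℝ → ℂ} {J : ℝ × ℝ → ℝ}
  {Γ : VD D →L[ℂ] HH H} {B B' : L2c →L[ℂ] HH H}

private theorem coc5_pz {u : ℝ × ℝ → ℂ} (hu : PC H u) (x : HH H) : pz (⇑x) (fmc u : ℤ → CI H) =
    ⇑(SC.cm (fam fun q => (u q).re) x + Complex.I • SC.cm (fam fun q => (u q).im) x : HH H) := by
  funext n
  have h3 := (cm_hasSum (pz_fam_sum0 hu.re) x n).add
    ((cm_hasSum (pz_fam_sum0 hu.im) x n).const_smul Complex.I)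
  rw [lp.coeFn_add, Pi.add_apply, lp.coeFn_smul, Pi.smul_apply, ← h3.tsum_eq]
  show ∑' j, mz (fmc u (n - j)) (x j) = _
  refine tsum_congr fun j => ?_
  unfold fmc
  rw [map_add, map_smul]
  rfl

private theorem coc5_dpin {η u : ℝ × ℝ → ℂ} (hη : PC H η) (hu : PC H u) (y : HH H) :
    dp (⇑(fHc η : HH H)) (pz (⇑y) (fmc u : ℤ → CI H)) = ⟪(fHc (fun q => conj (u q) * η q) : HH H), y⟫_ℂ := by
  have e1 : (fun q => conj (u q) * η q) =
      fun q => ((u q).re : ℂ) * η q + (-Complex.I) * (((u q).im : ℂ) * η q) := by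
    funext q
    have h := Complex.re_add_im (u q)
    have h2 : conj (u q) = ((u q).re : ℂ) - ((u q).im : ℂ) * Complex.I := by
      apply Complex.ext
      · simp
      · simp
    rw [h2]
    ring
  rw [coc5_pz hu, e1, fHc_add (PC.mulR hu.re hη) (PC.cmul _ (PC.mulR hu.im hη)),
    fHc_smul _ (PC.mulR hu.im hη), ← cm_fHc hu.re hη, ← cm_fHc hu.im hη, inner_add_left, inner_smul_left,
    inner_cm_fam hu.re, inner_cm_fam hu.im, map_neg, Complex.conj_I, neg_neg, ← inner_smul_right,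
    ← inner_add_right, lp.inner_eq_tsum]
  rfl

private theorem coc5_ev {θ η : ℝ × ℝ → ℂ} {q : ℝ × ℝ} (h : θ =ᶠ[𝓝 q] η) : dYc θ q = dYc η q ∧ dZc θ q = dZc η q := by
  unfold dYc dZc
  rw [h.fderiv_eq]
  exact ⟨rfl, rfl⟩

private theorem coc5_zero (q : ℝ × ℝ) : dYc (fun _ => (0 : ℂ)) q = 0 ∧ dZc (fun _ => (0 : ℂ)) q = 0 := by
  unfold dYc dZc
  rw [fderiv_fun_const]
  exact ⟨rfl, rfl⟩

private theorem coc5_low {θ : ℝ × ℝ → ℂ} {e1 e2 : ℝ} (hθ : TfS H e1 e2 θ) {q : ℝ × ℝ} (hq : q.2 < e1) :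
    dYc θ q = 0 ∧ dZc θ q = 0 := by
  have h : θ =ᶠ[𝓝 q] fun _ => (0 : ℂ) := by
    filter_upwards [(isOpen_lt continuous_snd continuous_const).mem_nhds hq] with p hp
    exact hθ.low p.1 p.2 hp
  rw [(coc5_ev h).1, (coc5_ev h).2]
  exact coc5_zero q

private theorem coc5_up' {θ : ℝ × ℝ → ℂ} {e1 e2 : ℝ} (hθ : TfS H e1 e2 θ) {q : ℝ × ℝ} (hq : e2 < q.2) :
    dYc θ q = 0 ∧ dZc θ q = 0 := by
  have h : θ =ᶠ[𝓝 q] fun _ => (0 : ℂ) := by
    filter_upwards [(isOpen_lt continuous_const continuous_snd).mem_nhds hq] with p hp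
    exact hθ.up p.1 p.2 hp
  rw [(coc5_ev h).1, (coc5_ev h).2]
  exact coc5_zero q

private theorem coc5_lim {f : ℝ × ℝ → ℂ} (hf : Continuous f) {e2 : ℝ} (h : ∀ q : ℝ × ℝ, e2 < q.2 → f q = 0)
    {q : ℝ × ℝ} (hq : e2 ≤ q.2) : f q = 0 := by
  have h1 : Tendsto (fun t : ℝ => f (q.1, q.2 + t)) (𝓝[>] 0) (𝓝 (f (q.1, q.2 + 0))) := by
    have h2 : Continuous fun t : ℝ => f (q.1, q.2 + t) :=
      hf.comp (continuous_const.prodMk (continuous_const.add continuous_id))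
    exact (h2.tendsto 0).mono_left nhdsWithin_le_nhds
  have h3 : Tendsto (fun t : ℝ => f (q.1, q.2 + t)) (𝓝[>] 0) (𝓝 0) := by
    refine tendsto_const_nhds.congr' ?_
    filter_upwards [self_mem_nhdsWithin] with t ht
    have ht' : 0 < t := ht
    exact (h (q.1, q.2 + t) (by show e2 < q.2 + t; linarith)).symm
  have h4 := tendsto_nhds_unique h1 h3
  rwa [add_zero] at h4

private theorem coc5_up {θ : ℝ × ℝ → ℂ} {e1 e2 : ℝ} (hθ : TfS H e1 e2 θ) {q : ℝ × ℝ} (hq : e2 ≤ q.2) :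
    dYc θ q = 0 ∧ dZc θ q = 0 :=
  ⟨coc5_lim hθ.pc.yy.smooth.continuous (fun _ h => (coc5_up' hθ h).1) hq,
    coc5_lim hθ.pc.zz.smooth.continuous (fun _ h => (coc5_up' hθ h).2) hq⟩

/-- derivatives of the cut off stream function where the cut-off is one -/
private theorem coc5_ga (h : IsStrip D H c X) (he : e < e') (ψ : Adm D) {q : ℝ × ℝ} (hq : q.2 < e) :
    conj (dYc (gaF X e e' ψ) q) = dYc (fun q => (cA ψ : ℂ → ℂ) (X q)) q ∧
      conj (dZc (gaF X e e' ψ) q) = dZc (fun q => (cA ψ : ℂ → ℂ) (X q)) q := by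
  have hs : ContDiff ℝ ((⊤ : ℕ∞) : WithTop ℕ∞) fun q => (ψ : ℂ → ℂ) (X q) := (h.pc (Adm.cc ψ).smo).smooth
  have h1 : gaF X e e' ψ =ᶠ[𝓝 q] fun p => (ψ : ℂ → ℂ) (X p) - (ψ : ℂ → ℂ) (X (0, 0)) := by
    filter_upwards [(isOpen_lt continuous_snd continuous_const).mem_nhds hq] with p hp
    have hp' : p.2 < e := hp
    unfold gaF
    rw [ctf_one he hp'.le, Complex.ofReal_one, one_mul]
  have h2 : HasFDerivAt (fun q => (ψ : ℂ → ℂ) (X q)) (fderiv ℝ (fun q => (ψ : ℂ → ℂ) (X q)) q) q :=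
    (hs.differentiable (by simp) q).hasFDerivAt
  have h3 : fderiv ℝ (gaF X e e' ψ) q = fderiv ℝ (fun q => (ψ : ℂ → ℂ) (X q)) q := by
    rw [h1.fderiv_eq, fderiv_sub_const]
  have h4 : HasFDerivAt (fun q => (cA ψ : ℂ → ℂ) (X q))
      ((Complex.conjCLE : ℂ →L[ℝ] ℂ).comp (fderiv ℝ (fun q => (ψ : ℂ → ℂ) (X q)) q)) q :=
    (Complex.conjCLE : ℂ →L[ℝ] ℂ).hasFDerivAt.comp q h2
  unfold dYc dZc
  rw [h3, h4.fderiv]
  exact ⟨rfl, rfl⟩

/-- the integral form of `NL` for smooth data -/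
private theorem coc5_NL (hD : Bornology.IsBounded D) (ψ φ : Adm D) (o : L2c) :
    PD.NL (jj D (cuV D ψ)) o (jj D (cuV D φ)) =
      ⟪cl2 (fun x => px φ x * conj (py ψ x) - py φ x * conj (px ψ x)), o⟫_ℂ := by
  have k1 : Cc (fun x => conj (py ψ x)) := (Adm.cc ψ).py.conj
  have k2 : Cc (fun x => conj (px ψ x)) := (Adm.cc ψ).px.conj
  have m1 : MemLp (fun x => px φ x * conj (py ψ x) - py φ x * conj (px ψ x)) 2 (volume : Measure ℂ) := by
    have a1 := (((Adm.cc φ).px.mul_smo k1.smo).memLp 2)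
    have a2 := (((Adm.cc φ).py.mul_smo k2.smo).memLp 2)
    exact a1.sub a2
  have e1 : jj D (cuV D ψ) = (cl4 (py ψ), -cl4 (px ψ)) := Prod.ext (j1_cuV hD ψ) (j2_cuV hD ψ)
  have e2 : jj D (cuV D φ) = (cl4 (py φ), -cl4 (px φ)) := Prod.ext (j1_cuV hD φ) (j2_cuV hD φ)
  rw [e1, e2, NL_apply, L2.inner_def]
  refine integral_congr_ae ?_
  filter_upwards [cl2_coe m1, cl4_coe ((Adm.cc ψ).py.memLp 4), cl4_coe ((Adm.cc ψ).px.memLp 4),
    cl4_coe ((Adm.cc φ).py.memLp 4), cl4_coe ((Adm.cc φ).px.memLp 4), Lp.coeFn_neg (cl4 (px ψ)),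
    Lp.coeFn_neg (cl4 (px φ))] with x n1 n2 n3 n4 n5 n6 n7
  have r1 : ((-cl4 (px ψ) : L4c) : ℂ → ℂ) x = -px ψ x := by rw [n6, Pi.neg_apply, n3]
  have r2 : ((-cl4 (px φ) : L4c) : ℂ → ℂ) x = -px φ x := by rw [n7, Pi.neg_apply, n5]
  show conj ((cl4 (py φ) : ℂ → ℂ) x) * (o x * ((-cl4 (px ψ) : L4c) : ℂ → ℂ) x) -
    conj (((-cl4 (px φ) : L4c) : ℂ → ℂ) x) * (o x * (cl4 (py ψ) : ℂ → ℂ) x) =
    ⟪(cl2 (fun x => px φ x * conj (py ψ x) - py φ x * conj (px ψ x)) : ℂ → ℂ) x, o x⟫_ℂ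
  rw [r1, r2, n2, n4, n1, RCLike.inner_apply]
  simp only [map_sub, map_mul, map_neg, Complex.conj_conj]
  ring

/-- the transport term for a smooth stream function -/
private theorem coc5_main (hB : IsPB X a a' J B) (hΓ : IsGa D X e e' Γ) (h : IsStrip D H c X) (hO : IsOpen D)
    (hD : Bornology.IsBounded D) (hJ : IsJ H X a' J) (ha0 : 0 < a) (ha : a < a') (ha' : a' < c)
    (he0 : 0 < e) (he : e < e') (he' : e' < c)
    {θ : ℝ × ℝ → ℂ} {e1 e2 : ℝ} (hθ : TfS H e1 e2 θ) (h1 : 0 < e1) (h2 : e2 ≤ e) (h3a : e2 ≤ a) (h2c : e2 < c)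
    (ψ : Adm D) (o : L2c) :
    PD.NL (jj D (cuV D ψ)) o (jj D (cuV D (pshA h hθ h1 h2c))) = (2 * H : ℂ) *
      (dp (⇑(fHc (dZc θ) : HH H)) (pz (⇑(SC.cm (fam fun q => (J q)⁻¹) (B o)))
          (wV (Real.pi / H) (Vf (Real.pi / H) (⇑(Γ (cuV D ψ)))))) +
        dp (⇑(fHc (dYc θ) : HH H)) (pz (⇑(SC.cm (fam fun q => (J q)⁻¹) (B o)))
          (uV (Real.pi / H) (Vf (Real.pi / H) (⇑(Γ (cuV D ψ))))))) := by
  have hJi : PY H fun q => (J q)⁻¹ := by
    have := (PY.const H 1).div hJ.py (fun p => (hJ.pos p).ne')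
    simpa only [one_div] using this
  have hg : PC H (gaF X e e' ψ) := gaF_pc h he (Adm.cc ψ).smo
  have hv : VanC H (gaF X e e' ψ) := gaF_van h he he' ψ
  have hc : ConC (gaF X e e' ψ) := by
    obtain ⟨ε, hε, h3⟩ := gaF_con h hO he0 he ψ
    exact ⟨ε, hε, 0, h3⟩
  -- the right side
  set y : HH H := SC.cm (fam fun q => (J q)⁻¹) (B o) with hy
  have eu : uV (Real.pi / H) (Vf (Real.pi / H) (⇑(Γ (cuV D ψ)))) = (fmc (dZc (gaF X e e' ψ)) : ℤ → CI H) := by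
    rw [hΓ.eq ψ]
    exact funext fun n => uV_ll hg hv hc n
  have ew : wV (Real.pi / H) (Vf (Real.pi / H) (⇑(Γ (cuV D ψ)))) =
      fun n => (-(fmc (dYc (gaF X e e' ψ)) n) : CI H) := by
    rw [hΓ.eq ψ]
    exact funext fun n => wV_ll hg hv hc n
  have ew2 : dp (⇑(fHc (dZc θ) : HH H)) (pz (⇑y) fun n => (-(fmc (dYc (gaF X e e' ψ)) n) : CI H)) =
      -dp (⇑(fHc (dZc θ) : HH H)) (pz (⇑y) (fmc (dYc (gaF X e e' ψ)) : ℤ → CI H)) := by
    have e3 : ∀ n, pz (⇑y) (fun n => (-(fmc (dYc (gaF X e e' ψ)) n) : CI H)) n =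
        -pz (⇑y) (fmc (dYc (gaF X e e' ψ)) : ℤ → CI H) n := by
      intro n
      show ∑' j, mz (-(fmc (dYc (gaF X e e' ψ)) (n - j) : CI H)) (y j) =
        -∑' j, mz (fmc (dYc (gaF X e e' ψ)) (n - j) : CI H) (y j)
      rw [← tsum_neg]
      refine tsum_congr fun j => ?_
      rw [map_neg, neg_apply]
    unfold dp
    rw [← tsum_neg]
    refine tsum_congr fun n => ?_
    rw [e3, inner_neg_right]
  rw [eu, ew, ew2, coc5_dpin hθ.pc.zz hg.yy, coc5_dpin hθ.pc.yy hg.zz]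
  -- the left side
  have pA : PC H fun q => conj (dZc (gaF X e e' ψ) q) * dYc θ q := hg.zz.star.mul hθ.pc.yy
  have pB : PC H fun q => conj (dYc (gaF X e e' ψ) q) * dZc θ q := hg.yy.star.mul hθ.pc.zz
  set θ4 : ℝ × ℝ → ℂ := fun q => conj (dZc (gaF X e e' ψ) q) * dYc θ q -
    conj (dYc (gaF X e e' ψ) q) * dZc θ q with hθ4
  have p4 : PC H θ4 := pA.sub pB
  set θ5 : ℝ × ℝ → ℂ := fun q => (((J q)⁻¹ : ℝ) : ℂ) * θ4 q with hθ5
  have p5 : PC H θ5 := PC.mulR hJi p4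
  have l4 : ∀ q : ℝ × ℝ, q.2 < e1 → θ4 q = 0 := by
    intro q hq
    rw [hθ4]
    simp only
    rw [(coc5_low hθ hq).1, (coc5_low hθ hq).2, mul_zero, mul_zero, sub_zero]
  have u4 : ∀ q : ℝ × ℝ, e2 ≤ q.2 → θ4 q = 0 := by
    intro q hq
    rw [hθ4]
    simp only
    rw [(coc5_up hθ hq).1, (coc5_up hθ hq).2, mul_zero, mul_zero, sub_zero]
  have t5 : TfS H e1 e2 θ5 := ⟨p5, fun y z hz => by
    show (((J (y, z))⁻¹ : ℝ) : ℂ) * θ4 (y, z) = 0
    rw [l4 (y, z) hz, mul_zero], fun y z hz => by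
    show (((J (y, z))⁻¹ : ℝ) : ℂ) * θ4 (y, z) = 0
    rw [u4 (y, z) (le_of_lt hz), mul_zero]⟩
  have hfun : (fun x => px (pshA h hθ h1 h2c) x * conj (py ψ x) - py (pshA h hθ h1 h2c) x * conj (px ψ x)) =
      psh H c X θ5 := by
    funext x
    rw [pshA_coe]
    by_cases hx : x ∈ Wc X c
    · rw [h.Wc_eq] at hx
      obtain ⟨q, hq, rfl⟩ := hx
      rw [h.psh_X θ5 hq]
      have hm : (mJ X q : ℂ) ≠ 0 := by
        have h3 := h.der q.1 q.2 hq.2.1.le hq.2.2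
        unfold mJ
        rw [Complex.ofReal_ne_zero]
        exact pow_ne_zero 2 (norm_ne_zero_iff.2 h3)
      have hadv := h.psh_adv (Adm.cc (cA ψ)).smo hθ h1 h2c hq
      have c1 : py (cA ψ : ℂ → ℂ) (X q) = conj (py ψ (X q)) :=
        congrFun (Adm.cc ψ).smo.py_conj (X q)
      have c2 : px (cA ψ : ℂ → ℂ) (X q) = conj (px ψ (X q)) :=
        congrFun (Adm.cc ψ).smo.px_conj (X q)
      rw [c1, c2] at hadv
      have h4 : dZc (fun q => (cA ψ : ℂ → ℂ) (X q)) q * dYc θ q -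
          dYc (fun q => (cA ψ : ℂ → ℂ) (X q)) q * dZc θ q = θ4 q := by
        by_cases hqe : q.2 < e
        · rw [← (coc5_ga h he ψ hqe).1, ← (coc5_ga h he ψ hqe).2]
        · have hqe' : e2 ≤ q.2 := h2.trans (not_lt.1 hqe)
          rw [u4 q hqe', (coc5_up hθ hqe').1, (coc5_up hθ hqe').2, mul_zero, mul_zero, sub_zero]
      rw [h4] at hadv
      apply mul_left_cancel₀ hm
      have h5 : (mJ X q : ℂ) * θ5 q = θ4 q := by
        show (mJ X q : ℂ) * ((((J q)⁻¹ : ℝ) : ℂ) * θ4 q) = θ4 q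
        by_cases hqe : q.2 ≤ a'
        · rw [hJ.eq q hq.2.1.le hqe, Complex.ofReal_inv, ← mul_assoc, mul_inv_cancel₀ hm, one_mul]
        · rw [u4 q (h3a.trans (ha.le.trans (not_le.1 hqe).le)), mul_zero, mul_zero]
      rw [h5, ← hadv]
      ring
    · rw [h.psh_out θ5 hx]
      have h3 : x ∉ tsupport (psh H c X θ) := by
        intro hx'
        apply hx
        obtain ⟨q, hq, rfl⟩ := (h.psh_mem hθ h1 h2c).2 hx'
        exact ⟨q, ⟨h1.trans_le hq.2.1, hq.2.2.trans_lt h2c⟩, rfl⟩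
      have h4 : fderiv ℝ (psh H c X θ) x = 0 := by
        have h5 : psh H c X θ =ᶠ[𝓝 x] 0 := notMem_tsupport_iff_eventuallyEq.1 h3
        rw [h5.fderiv_eq]
        exact fderiv_const_apply (0 : ℂ)
      have h5 : px (psh H c X θ) x = 0 := by unfold px; rw [h4]; rfl
      have h6 : py (psh H c X θ) x = 0 := by unfold py; rw [h4]; rfl
      rw [h5, h6, zero_mul, zero_mul, sub_zero]
  have e6 : (fun q => ((ctf a a' q.2 : ℝ) : ℂ) * θ5 q) = θ5 := by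
    funext q
    by_cases hqa : q.2 ≤ a
    · rw [ctf_one ha hqa, Complex.ofReal_one, one_mul]
    · have h6 : θ5 q = 0 := by
        show (((J q)⁻¹ : ℝ) : ℂ) * θ4 q = 0
        rw [u4 q (h3a.trans (not_le.1 hqa).le), mul_zero]
      rw [h6, mul_zero]
  have e7 := hB.pair h hJ ha0 ha ha' t5 h1 h2c o
  rw [e6] at e7
  rw [coc5_NL hD, hfun, e7]
  have hp : (fHc θ5 : HH H) = SC.cm (fam fun q => (J q)⁻¹) (fHc θ4) := (cm_fHc hJi p4).symm
  rw [hp, inner_cm_fam hJi, ← hy, hθ4, fHc_sub pA pB, inner_sub_left]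
  ring

/-- **Transport of `o ∈ L²` by `u = iot v`, tested in the strip** (as `IsGa.NL`; both sides are linear and continuous in `o`
and in `v` (`dp_lin`, `NL`), so take `o = cl2 f`, `f ∈ Cc`, `v = cuV ψ`; the cut-off of `B` is `1` on the support of `θ`). -/
theorem IsPB.NL (hB : IsPB X a a' J B) (hΓ : IsGa D X e e' Γ) (h : IsStrip D H c X) (hO : IsOpen D)
    (hD : Bornology.IsBounded D) (hJ : IsJ H X a' J) (ha0 : 0 < a) (ha : a < a') (ha' : a' < c) (he0 : 0 < e)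
    (he : e < e') (he' : e' < c) {θ : ℝ × ℝ → ℂ} {e1 e2 : ℝ} (hθ : TfS H e1 e2 θ) (h1 : 0 < e1) (h2 : e2 ≤ e)
    (h3 : e2 ≤ a) (v : VD D) (o : L2c) :
    PD.NL (jj D v) o (jj D (cuV D (pshA h hθ h1 (by linarith)))) = (2 * H : ℂ) *
      (dp (⇑(fHc (dZc θ) : HH H)) (pz (⇑(SC.cm (fam fun q => (J q)⁻¹) (B o)))
          (wV (Real.pi / H) (Vf (Real.pi / H) (⇑(Γ v))))) +
        dp (⇑(fHc (dYc θ) : HH H)) (pz (⇑(SC.cm (fam fun q => (J q)⁻¹) (B o)))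
          (uV (Real.pi / H) (Vf (Real.pi / H) (⇑(Γ v)))))) := by
  have h2c : e2 < c := by linarith
  obtain ⟨_, N2, hN2⟩ := dp_lin (H := H) hθ.pc.zz
  obtain ⟨N1, _, hN1⟩ := dp_lin (H := H) hθ.pc.yy
  set y : HH H := SC.cm (fam fun q => (J q)⁻¹) (B o) with hy
  have key : ∀ v : VD D, PD.NL (jj D v) o (jj D (cuV D (pshA h hθ h1 h2c))) =
      (2 * H : ℂ) * (N2 y (Γ v) + N1 y (Γ v)) := by
    intro v
    refine (cuV_dense D).induction (P := fun v : VD D =>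
      PD.NL (jj D v) o (jj D (cuV D (pshA h hθ h1 h2c))) =
      (2 * H : ℂ) * (N2 y (Γ v) + N1 y (Γ v))) ?_ ?_ v
    · rintro _ ⟨ψ, rfl⟩
      rw [(hN2 y (Γ (cuV D ψ))).2, (hN1 y (Γ (cuV D ψ))).1]
      exact coc5_main hB hΓ h hO hD hJ ha0 ha ha' he0 he he' hθ h1 h2 h3 h2c ψ o
    · refine isClosed_eq ?_ ?_
      · fun_prop
      · exact continuous_const.mul (((N2 y).continuous.comp Γ.continuous).add
          ((N1 y).continuous.comp Γ.continuous))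
  have := key v
  rw [(hN2 y (Γ v)).2, (hN1 y (Γ v)).1] at this
  exact this

/-! ### auxiliary lemmas for the product -/

private theorem coc5_dense {P : L2c → Prop} (hP : IsClosed {f | P f}) (h : ∀ g : ℂ → ℂ, Cc g → P (cl2 g))
    (f : L2c) : P f := by
  have hc : f ∈ closure {f : L2c | P f} := by
    rw [Metric.mem_closure_iff]
    intro ε hε
    obtain ⟨g, hg, h1⟩ := cl2_dense f (half_pos hε)
    exact ⟨cl2 g, h g hg, by rw [dist_eq_norm]; linarith⟩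
  rw [hP.closure_eq] at hc
  exact hc

private theorem coc5_pb (h : IsStrip D H c X) (hJ : PY H J) {f : ℂ → ℂ} (hf : Smo f) :
    PC H fun q => ((ctf e e' q.2 * J q : ℝ) : ℂ) * f (X q) :=
  PC.mulR ((PY.of_z H (ctf_smooth e e')).mul hJ) (h.pc hf)

private theorem coc5_2H (z : ℂ) : (2 * H : ℂ) * ((2 * H : ℂ)⁻¹ * z) = z := by
  have h : (2 * H : ℂ) ≠ 0 := by
    have := hH.out.ne'
    exact mul_ne_zero two_ne_zero (Complex.ofReal_ne_zero.2 this)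
  rw [mul_inv_cancel_left₀ h]

private theorem coc5_ae1 (H : ℝ) : ∀ᵐ q : ℝ × ℝ, q.1 ≠ -H :=
  Measure.quasiMeasurePreserving_fst.ae (show ∀ᵐ y : ℝ, y ≠ -H by simp [ae_iff])

private theorem coc5_ae2 : ∀ᵐ q : ℝ × ℝ, q.2 ≠ 0 :=
  Measure.quasiMeasurePreserving_snd.ae (show ∀ᵐ y : ℝ, y ≠ 0 by simp [ae_iff])

private theorem coc5_cel {F : ℝ × ℝ → ℂ} {s : ℝ} (hs : s ≤ H) (hF : ∀ q : ℝ × ℝ, s ≤ q.2 → F q = 0) :
    ∫ q in Cel H, F q = ∫ q in Rc H s, F q := by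
  refine setIntegral_eq_of_subset_of_ae_sdiff_eq_zero measurableSet_Cel.nullMeasurableSet ?_ ?_
  · rintro q ⟨h1, h2⟩
    exact ⟨⟨h1.1.le, h1.2⟩, ⟨h2.1.le, h2.2.le.trans hs⟩⟩
  filter_upwards [coc5_ae1 H, coc5_ae2] with q hq1 hq2 hq
  obtain ⟨⟨h3, h4⟩, h5⟩ := hq
  refine hF q ?_
  by_contra h7
  exact h5 ⟨⟨lt_of_le_of_ne h3.1 (Ne.symm hq1), h3.2⟩, ⟨lt_of_le_of_ne h4.1 (Ne.symm hq2), not_le.1 h7⟩⟩

/-- `2H ⟨B f, a B' g⟩ = ⟨ω f, g⟩` if the cut-off of `B'` is `1` on the support of the cut-off `ω` of `B`: for all bounded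
measurable `M` with `M (X q) = ω(z)` in the strip and `M = 0` elsewhere. -/
theorem IsPB.two (hB : IsPB X e e' J B) (hB' : IsPB X a a' J B') (h : IsStrip D H c X) (hJ : IsJ H X a' J)
    (he0 : 0 < e) (he : e < e') (h1 : e' ≤ a) (ha : a < a') (ha' : a' < c) {M : ℂ → ℂ} {c' : ℝ} (hM : Bm M c')
    (hM1 : ∀ q : ℝ × ℝ, 0 < q.2 → q.2 < c → M (X q) = ((ctf e e' q.2 : ℝ) : ℂ)) (hM2 : ∀ x ∉ Wc X c, M x = 0)
    (f g : L2c) : (2 * H : ℂ) * ⟪B f, SC.cm (fam fun q => (J q)⁻¹) (B' g)⟫_ℂ = ⟪mm M f, g⟫_ℂ := by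
  have hi : PY H fun q => (J q)⁻¹ := hJ.py.inv hJ.pos
  have he'c : e' < c := h1.trans_lt (ha.trans ha')
  refine coc5_dense (P := fun f => (2 * H : ℂ) * ⟪B f, SC.cm (fam fun q => (J q)⁻¹) (B' g)⟫_ℂ = ⟪mm M f, g⟫_ℂ)
    (isClosed_eq (continuous_const.mul (B.continuous.inner continuous_const))
      ((mm M).continuous.inner continuous_const)) (fun f0 hf0 => ?_) f
  refine coc5_dense (P := fun g => (2 * H : ℂ) * ⟪B (cl2 f0), SC.cm (fam fun q => (J q)⁻¹) (B' g)⟫_ℂ =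
      ⟪mm M (cl2 f0), g⟫_ℂ)
    (isClosed_eq (continuous_const.mul (continuous_const.inner
      ((SC.cm (fam fun q => (J q)⁻¹)).comp B').continuous))
      (continuous_const.inner continuous_id)) (fun g0 hg0 => ?_) g
  have p1 : PC H fun q => ((ctf e e' q.2 * J q : ℝ) : ℂ) * f0 (X q) := coc5_pb h hJ.py hf0.smo
  have p2 : PC H fun q => ((ctf a a' q.2 * J q : ℝ) : ℂ) * g0 (X q) := coc5_pb h hJ.py hg0.smo
  rw [hB.eq f0 hf0, hB'.eq g0 hg0, cm_fHc hi p2, inner_fHc p1 (PC.mulR hi p2), coc5_2H,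
    coc5_cel h.cH.le]
  · have k1 : ⟪mm M (cl2 f0), cl2 g0⟫_ℂ = ∫ x, conj (M x * f0 x) * g0 x := by
      rw [L2.inner_def]
      refine integral_congr_ae ?_
      filter_upwards [mm_coe hM (cl2 f0), cl2_coe (hf0.memLp 2), cl2_coe (hg0.memLp 2)] with x n1 n2 n3
      rw [n1, n2, n3, RCLike.inner_apply]
      ring
    have k2 : ∫ x, conj (M x * f0 x) * g0 x = ∫ x in Wc X c, conj (M x * f0 x) * g0 x :=
      (setIntegral_eq_integral_of_forall_compl_eq_zero (s := Wc X c)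
        (fun x hx => by rw [hM2 x hx, zero_mul, map_zero, zero_mul])).symm
    rw [k1, k2, h.integral le_rfl]
    refine setIntegral_congr_fun (measurableSet_Rc H c) (fun q hq => ?_)
    show conj (((ctf e e' q.2 * J q : ℝ) : ℂ) * f0 (X q)) *
      ((((J q)⁻¹ : ℝ) : ℂ) * (((ctf a a' q.2 * J q : ℝ) : ℂ) * g0 (X q))) =
      mJ X q • (conj (M (X q) * f0 (X q)) * g0 (X q))
    rw [hM1 q hq.2.1 hq.2.2, Complex.real_smul]
    simp only [map_mul, Complex.conj_ofReal]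
    by_cases hqe : q.2 < e'
    · have hqa : q.2 ≤ a' := (hqe.le.trans h1).trans ha.le
      have hJ0 : (J q : ℂ) ≠ 0 := Complex.ofReal_ne_zero.2 (hJ.pos q).ne'
      rw [ctf_one ha (hqe.le.trans h1), ← hJ.eq q hq.2.1.le hqa]
      push_cast
      field_simp
    · rw [ctf_zero he (not_lt.1 hqe)]
      push_cast
      ring
  · intro q hq
    rw [ctf_zero he (he'c.le.trans hq)]
    simp

/-- Functions with disjoint supports. -/
theorem NL_disj (hD : Bornology.IsBounded D) {f : ℂ → ℂ} (hf : MemLp f 2 (volume : Measure ℂ)) (ψ : Adm D)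
    (h : ∀ x, f x = 0 ∨ (px ψ x = 0 ∧ py ψ x = 0)) (v : VD D) : PD.NL (jj D v) (cl2 f) (jj D (cuV D ψ)) = 0 := by
  refine (cuV_dense D).induction (P := fun v : VD D => PD.NL (jj D v) (cl2 f) (jj D (cuV D ψ)) = 0) ?_ ?_ v
  · rintro _ ⟨φ, rfl⟩
    rw [coc5_NL hD, L2.inner_def]
    have m1 : MemLp (fun x => px ψ x * conj (py φ x) - py ψ x * conj (px φ x)) 2 (volume : Measure ℂ) := by
      have k1 : Cc (fun x => conj (py φ x)) := (Adm.cc φ).py.conj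
      have k2 : Cc (fun x => conj (px φ x)) := (Adm.cc φ).px.conj
      have a1 := (((Adm.cc ψ).px.mul_smo k1.smo).memLp 2)
      have a2 := (((Adm.cc ψ).py.mul_smo k2.smo).memLp 2)
      exact a1.sub a2
    refine integral_eq_zero_of_ae ?_
    filter_upwards [cl2_coe m1, cl2_coe hf] with x n1 n2
    rw [n1, n2, RCLike.inner_apply]
    rcases h x with h0 | ⟨h0, h00⟩
    · rw [h0, zero_mul]; rfl
    · rw [h0, h00, zero_mul, zero_mul, sub_zero, map_zero, mul_zero]; rfl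
  · refine isClosed_eq ?_ continuous_const
    fun_prop

end

end Pool.Agent.Lib.MP_79abb3_an.PD
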