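import Pool.Agent.Lib.MP_79abb3_an.PD.SpA
import Pool.Agent.Lib.MP_79abb3_an.SC.L2Ha
import Pool.Agent.Lib.MP_79abb3_an.SC.ChPb

/-!
Theorem D, collar package: a collar in strip coordinates; complex valued periodic functions and their modes.
-/

set_option autoImplicit false
set_option linter.unusedSectionVars false

open MeasureTheory Set Filter Topology Function
open scoped ENNReal InnerProductSpace ComplexConjugate

namespace Pool.Agent.Lib.MP_79abb3_an.PD

open Pool.Agent.Lib.MP_79abb3_an.SC Pool.Agent.Lib.MP_79abb3_an.P25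

/-- A collar of `D` in strip coordinates `X(y,z)`: conformal (`X_z = i X_y ≠ 0`), `2H`-periodic in `y`,
injective, `0 ≤ z < c`; the line `z = 0` is mapped into the boundary of `D`. -/
structure IsStrip (D : Set ℂ) (H c : ℝ) (X : ℝ × ℝ → ℂ) : Prop where
  smooth : ContDiff ℝ ((⊤ : ℕ∞) : WithTop ℕ∞) X
  per : ∀ y z, X (y + 2 * H, z) = X (y, z)
  c0 : 0 < c
  cH : c < H
  cr : ∀ y z, 0 ≤ z → z < c → fderiv ℝ X (y, z) (0, 1) = Complex.I * fderiv ℝ X (y, z) (1, 0)
  der : ∀ y z, 0 ≤ z → z < c → fderiv ℝ X (y, z) (1, 0) ≠ 0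
  inj : InjOn X (Ioc (-H) H ×ˢ Ico 0 c)
  sub : ∀ y z, 0 < z → z < c → X (y, z) ∈ D
  bdry : ∀ y, X (y, 0) ∈ frontier D

/-- `|X_y|²` -/
noncomputable def mJ (X : ℝ × ℝ → ℂ) (q : ℝ × ℝ) : ℝ := ‖fderiv ℝ X q (1, 0)‖ ^ 2

/-- The part `0 < z < e` of the collar. -/
def Wc (X : ℝ × ℝ → ℂ) (e : ℝ) : Set ℂ := X '' {q | 0 < q.2 ∧ q.2 < e}

/-- One period of the strip. -/
def Rc (H e : ℝ) : Set (ℝ × ℝ) := Ioc (-H) H ×ˢ Ioo 0 e

/-- Strip coordinates of a collar in the sense of `IsCollar`: `X(y,z) = F (exp (i (y + i z)/k))`, `H = π k`. -/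
noncomputable def chX (F : ℂ → ℂ) (k : ℕ) (q : ℝ × ℝ) : ℂ := F (Complex.exp (Complex.I * cxp q / k))

/-! ### Complex valued functions of the strip -/

/-- Smooth complex valued functions of `(y,z)` whose values near `y = -H` and near `y = H` agree. -/
structure PC (H : ℝ) (θ : ℝ × ℝ → ℂ) : Prop where
  re : PY H fun q => (θ q).re
  im : PY H fun q => (θ q).im

/-- `∂_y θ` -/
noncomputable def dYc (θ : ℝ × ℝ → ℂ) (q : ℝ × ℝ) : ℂ := fderiv ℝ θ q (1, 0)
/-- `∂_z θ` -/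
noncomputable def dZc (θ : ℝ × ℝ → ℂ) (q : ℝ × ℝ) : ℂ := fderiv ℝ θ q (0, 1)
/-- `-Δθ` -/
noncomputable def dLc (θ : ℝ × ℝ → ℂ) (q : ℝ × ℝ) : ℂ := -(dYc (dYc θ) q + dZc (dZc θ) q)

section
variable {H : ℝ} [hH : Fact (0 < H)]

/-- The modes of a complex valued function. -/
noncomputable def fmc (θ : ℝ × ℝ → ℂ) (n : ℤ) : CI H :=
  fam (fun q => (θ q).re) n + Complex.I • fam (fun q => (θ q).im) n

/-- A complex valued function as an element of `HH` (`0` if it is not smooth and periodic). -/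
noncomputable def fHc (θ : ℝ × ℝ → ℂ) : HH H :=
  open scoped Classical in if h : PC H θ then fH h.re + Complex.I • fH h.im else 0

/-- `B* θ = θ_z + |D| θ` -/
noncomputable def bHc (θ : ℝ × ℝ → ℂ) : HH H :=
  open scoped Classical in if h : PC H θ then bsH h.re + Complex.I • bsH h.im else 0

end

/-- The push forward of a function of the strip. -/
noncomputable def psh (H c : ℝ) (X : ℝ × ℝ → ℂ) (θ : ℝ × ℝ → ℂ) (x : ℂ) : ℂ :=
  open scoped Classical in if h : ∃ q ∈ Rc H c, X q = x then θ h.choose else 0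

/-- Test functions of the strip: `θ = 0` unless `e ≤ z ≤ e'`. -/
structure TfS (H e e' : ℝ) (θ : ℝ × ℝ → ℂ) : Prop where
  pc : PC H θ
  low : ∀ y z, z < e → θ (y, z) = 0
  up : ∀ y z, e' < z → θ (y, z) = 0

end Pool.Agent.Lib.MP_79abb3_an.PD
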