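import Pool.Agent.Lib.MP_79abb3_an.SC.FinalDef

/-!
Theorem D (MP_79abb3_an, all smooth planar domains): definitions used in the final statement. The plane is
`ℂ`, a velocity is a function with values in `ℂ = ℝ²`. The test functions `IsTf` and the derivatives `dS`
(space direction), `dT` (time), `lapS`, `divS` are those of `SC/FinalDef.lean`.
-/

set_option autoImplicit false

open MeasureTheory Set Filter Topology Function
open scoped RealInnerProductSpace ENNReal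

namespace Pool.Agent.Lib.MP_79abb3_an.PD

open Pool.Agent.Lib.MP_79abb3_an.SC

/-- The ring `{ρ < |ξ| < 1}`. -/
def ring (ρ : ℝ) : Set ℂ := {ξ | ρ < ‖ξ‖ ∧ ‖ξ‖ < 1}

/-- The ring with its outer circle, `{ρ < |ξ| ≤ 1}`. -/
def ringc (ρ : ℝ) : Set ℂ := {ξ | ρ < ‖ξ‖ ∧ ‖ξ‖ ≤ 1}

/-- `F` is a conformal collar of a boundary curve of `D`: a conformal map of the ring into `D`, smooth up to the
circle `|ξ| = 1`, which is mapped into the boundary of `D`. -/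
structure IsCollar (D : Set ℂ) (ρ : ℝ) (F : ℂ → ℂ) : Prop where
  smooth : ContDiff ℝ ((⊤ : ℕ∞) : WithTop ℕ∞) F
  holo : DifferentiableOn ℂ F (ring ρ)
  inj : InjOn F (ringc ρ)
  der : ∀ ξ ∈ ringc ρ, fderiv ℝ F ξ ≠ 0
  sub : F '' ring ρ ⊆ D
  bdry : F '' Metric.sphere 0 1 ⊆ frontier D

/-- `D` is a smooth bounded domain: open, bounded, connected, and its boundary consists of finitely many curves with
disjoint conformal collars, which cover a neighbourhood of the boundary in `D`. -/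
structure IsPlanar (D : Set ℂ) : Prop where
  op : IsOpen D
  bdd : Bornology.IsBounded D
  conn : IsConnected D
  col : ∃ (n : ℕ) (ρ : ℝ) (F : Fin n → ℂ → ℂ), 0 < ρ ∧ ρ < 1 ∧ (∀ j, IsCollar D ρ (F j)) ∧
    Pairwise (Disjoint on fun j => F j '' ringc ρ) ∧
    ∀ r, ρ < r → r < 1 → IsCompact (D \ ⋃ j, F j '' ring r)

/-- The flow region: `Ω ⊂ D` open, the uncontrolled boundary `∂Ω ∖ Γ` lies on the boundary of `D`, and `D` is not
contained in the closure of `Ω`. -/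
structure IsReg (D Ω Γ : Set ℂ) : Prop where
  dom : IsPlanar D
  op : IsOpen Ω
  sub : Ω ⊆ D
  wall : frontier Ω \ Γ ⊆ frontier D
  free : ∃ x ∈ D, x ∉ closure Ω

/-- Divergence of a field of the plane. -/
noncomputable def divC (L : ℂ → ℂ) (x : ℂ) : ℝ := (fderiv ℝ L x 1).re + (fderiv ℝ L x Complex.I).im

/-- Admissible initial data: the closure in `L²(Ω)` of the smooth fields which are divergence free in `Ω` and vanish on
`∂Ω ∖ Γ`. -/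
def IsData (Ω Γ : Set ℂ) (u₀ : ℂ → ℂ) : Prop :=
  MemLp u₀ 2 (volume.restrict Ω) ∧ ∀ ε > 0, ∃ L : ℂ → ℂ, ContDiff ℝ ((⊤ : ℕ∞) : WithTop ℕ∞) L ∧
    (∀ x ∈ Ω, divC L x = 0) ∧ (∀ x ∈ frontier Ω \ Γ, L x = 0) ∧
    eLpNorm (fun x => u₀ x - L x) 2 (volume.restrict Ω) ≤ ε

/-- `u ∈ H¹(Ω)` with gradient `(g, h)` and trace zero on `W`: a limit in `H¹(Ω)` of smooth functions with compact
support disjoint from `W`. -/
def IsH0 (Ω W : Set ℂ) (u g h : ℂ → ℂ) : Prop :=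
  ∀ ε > 0, ∃ φ : ℂ → ℂ, ContDiff ℝ ((⊤ : ℕ∞) : WithTop ℕ∞) φ ∧ HasCompactSupport φ ∧
    Disjoint (tsupport φ) W ∧ eLpNorm (fun x => u x - φ x) 2 (volume.restrict Ω) ≤ ε ∧
    eLpNorm (fun x => g x - fderiv ℝ φ x 1) 2 (volume.restrict Ω) ≤ ε ∧
    eLpNorm (fun x => h x - fderiv ℝ φ x Complex.I) 2 (volume.restrict Ω) ≤ ε

/-- Weak (Leray type) trajectories on `[0,T]` of the Navier-Stokes system (viscosity one) in `Ω` with the condition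
`u = 0` on `∂Ω ∖ Γ` in the sense of traces and with the initial datum `u₀`: `u ∈ C([0,T]; L²(Ω))`,
`u ∈ L²(0,T; H¹(Ω))`, `u(0) = u₀`, `div u = 0`, and `∫ (u·∂_t φ + u·Δφ + ∑ u_i u_j ∂_j φ_i) = 0` for all
divergence free `φ ∈ C_c^∞((0,T) × Ω)²`. -/
structure IsTrajD (Ω Γ : Set ℂ) (T : ℝ) (u₀ : ℂ → ℂ) (u : ℝ × ℂ → ℂ) : Prop where
  sq : ∀ t ∈ Icc 0 T, MemLp (fun x => u (t, x)) 2 (volume.restrict Ω)
  cont : ∀ t ∈ Icc 0 T, Tendsto (fun s => eLpNorm (fun x => u (s, x) - u (t, x)) 2 (volume.restrict Ω))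
    (𝓝[Icc 0 T] t) (𝓝 0)
  init : ∀ᵐ x ∂(volume.restrict Ω), u (0, x) = u₀ x
  grad : ∃ g h : ℝ × ℂ → ℂ, MemLp u 2 (volume.restrict (Ioo 0 T ×ˢ Ω)) ∧
    MemLp g 2 (volume.restrict (Ioo 0 T ×ˢ Ω)) ∧ MemLp h 2 (volume.restrict (Ioo 0 T ×ˢ Ω)) ∧
    ∀ᵐ t ∂(volume.restrict (Ioo 0 T)),
      IsH0 Ω (frontier Ω \ Γ) (fun x => u (t, x)) (fun x => g (t, x)) (fun x => h (t, x))
  div : ∀ φ : ℝ × ℂ → ℝ, IsTf T Ω φ → ∫ p, ((u p).re * dS φ 1 p + (u p).im * dS φ Complex.I p) = 0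
  ns : ∀ φ : ℝ × ℂ → ℂ, IsTf T Ω φ → (∀ p, divS φ p = 0) →
    ∫ p, (⟪u p, dT φ p⟫ + ⟪u p, lapS φ p⟫ + ⟪u p, dS φ (u p) p⟫) = 0

/-- The statement of Theorem D. -/
def TheoremD : Prop :=
  ∀ D Ω Γ : Set ℂ, IsReg D Ω Γ → ∀ T : ℝ, 0 < T → ∀ u₀ : ℂ → ℂ, IsData Ω Γ u₀ →
    ∃ u : ℝ × ℂ → ℂ, IsTrajD Ω Γ T u₀ u ∧ ∀ᵐ x ∂(volume.restrict Ω), u (T, x) = 0

end Pool.Agent.Lib.MP_79abb3_an.PD
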