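import Pool.Agent.Lib.MP_79abb3_an.PD.SpBb

/-!
Theorem D, block S: Ladyzhenskaya's inequality.
-/

set_option autoImplicit false
set_option linter.unusedSectionVars false

open MeasureTheory Set Filter Topology Function
open scoped ENNReal InnerProductSpace NNReal

namespace Pool.Agent.Lib.MP_79abb3_an.PD

open Pool.Agent.Lib.MP_79abb3_an.SC

section
variable {f g : ℂ → ℂ}

private theorem norm_cl4 {f : ℂ → ℂ} (h : MemLp f 4 (volume : Measure ℂ)) :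
    ‖cl4 f‖ = (eLpNorm f 4 volume).toReal := by
  rw [cl4_eq h, Lp.norm_toLp]

private theorem norm_cl2 {f : ℂ → ℂ} (h : MemLp f 2 (volume : Measure ℂ)) :
    ‖cl2 f‖ = (eLpNorm f 2 volume).toReal := by
  rw [cl2_eq h, Lp.norm_toLp]

private theorem norm_fd_le (f : ℂ → ℂ) (x : ℂ) : ‖fderiv ℝ f x‖ ≤ ‖PD.px f x‖ + ‖PD.py f x‖ := by
  refine ContinuousLinearMap.opNorm_le_bound _ (by positivity) fun v => ?_
  have e : fderiv ℝ f x v = (v.re : ℝ) • PD.px f x + (v.im : ℝ) • PD.py f x := by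
    unfold PD.px PD.py
    rw [← map_smul, ← map_smul, ← map_add]
    congr 1
    apply Complex.ext <;> simp
  rw [e]
  refine (norm_add_le _ _).trans ?_
  rw [norm_smul, norm_smul, Real.norm_eq_abs, Real.norm_eq_abs, add_mul, mul_comm |v.re|, mul_comm |v.im|]
  exact add_le_add (mul_le_mul_of_nonneg_left (Complex.abs_re_le_norm v) (norm_nonneg _))
    (mul_le_mul_of_nonneg_left (Complex.abs_im_le_norm v) (norm_nonneg _))

/-- Ladyzhenskaya's inequality. Proof: Gagliardo-Nirenberg-Sobolev in `ℝ²` (`eLpNorm_le_eLpNorm_fderiv_one`, `p = 2`,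
`finrank ℝ ℂ = 2`) for the function `f²`: `‖f²‖₂ ≤ C ‖D(f²)‖₁ ≤ 2C ‖f Df‖₁ ≤ 2C ‖f‖₂ ‖Df‖₂`, `‖f²‖₂ = ‖f‖₄²`,
`‖Df x‖ ≤ ‖∂₁f x‖ + ‖∂₂f x‖`. -/
theorem exists_lady : ∃ C : ℝ, 0 ≤ C ∧ ∀ f : ℂ → ℂ, Cc f →
    ‖cl4 f‖ ^ 2 ≤ C * (‖cl2 f‖ * (‖cl2 (PD.px f)‖ + ‖cl2 (PD.py f)‖)) := by
  refine ⟨2 * (eLpNormLESNormFDerivOneConst (volume : Measure ℂ) (2 : ℝ≥0) : ℝ), by positivity,
    fun f h => ?_⟩
  set K : ℝ≥0 := eLpNormLESNormFDerivOneConst (volume : Measure ℂ) (2 : ℝ≥0) with hK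
  have hg : ContDiff ℝ 1 (fun x => f x * f x) := (h.smo.mul h.smo).of_le (by exact_mod_cast le_top)
  have hc : HasCompactSupport (fun x => f x * f x) := h.cpt.mul_left
  have hp : NNReal.HolderConjugate ((Module.finrank ℝ ℂ : ℕ) : ℝ≥0) 2 := by
    rw [Complex.finrank_real_complex]
    exact NNReal.holderConjugate_iff.2 ⟨by norm_num, by norm_num⟩
  have key := eLpNorm_le_eLpNorm_fderiv_one (volume : Measure ℂ) hg hc hp
  have hfd : ∀ x, fderiv ℝ (fun x => f x * f x) x = (2 * f x) • fderiv ℝ f x := by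
    intro x
    rw [fderiv_fun_mul (h.smo.differentiable x) (h.smo.differentiable x)]
    ext v
    simp
    try ring
  have hm1 : MemLp f 4 (volume : Measure ℂ) := h.memLp 4
  have hm2 : MemLp f 2 (volume : Measure ℂ) := h.memLp 2
  have hx : MemLp (PD.px f) 2 (volume : Measure ℂ) := h.px.memLp 2
  have hy : MemLp (PD.py f) 2 (volume : Measure ℂ) := h.py.memLp 2
  have e1 : eLpNorm (fun x => f x * f x) (2 : ℝ≥0) volume = eLpNorm f 4 volume ^ 2 := by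
    have e := eLpNorm_norm_rpow (μ := (volume : Measure ℂ)) (p := 2) f (q := 2) (by norm_num)
    have e' : (2 : ℝ≥0∞) * ENNReal.ofReal 2 = 4 := by
      rw [show ENNReal.ofReal 2 = 2 by simp]; norm_num
    rw [e'] at e
    rw [show ((2 : ℝ≥0) : ℝ≥0∞) = 2 by rfl]
    calc eLpNorm (fun x => f x * f x) 2 volume = eLpNorm (fun x => ‖f x‖ ^ (2 : ℝ)) 2 volume := by
          refine eLpNorm_congr_norm_ae (Eventually.of_forall fun x => ?_)
          rw [norm_mul, Real.rpow_two, Real.norm_eq_abs, abs_of_nonneg (by positivity), sq]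
      _ = eLpNorm f 4 volume ^ (2 : ℝ) := e
      _ = eLpNorm f 4 volume ^ 2 := by rw [← ENNReal.rpow_natCast]; norm_num
  have hfdm : AEStronglyMeasurable (fderiv ℝ f) (volume : Measure ℂ) :=
    (h.smo.continuous_fderiv (by norm_num)).aestronglyMeasurable
  have e2 : eLpNorm (fderiv ℝ fun x => f x * f x) 1 (volume : Measure ℂ) ≤
      2 * eLpNorm f 2 volume * (eLpNorm (PD.px f) 2 volume + eLpNorm (PD.py f) 2 volume) := by
    have e3 : (fderiv ℝ fun x => f x * f x) = (fun x => 2 * f x) • fderiv ℝ f := funext hfd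
    rw [e3]
    refine (eLpNorm_smul_le_mul_eLpNorm (p := 2) (q := 2) (r := 1) hfdm
      (hm2.1.const_mul 2)).trans ?_
    gcongr
    · have := eLpNorm_const_smul (2 : ℂ) f 2 (volume : Measure ℂ)
      have e4 : ((2 : ℂ) • f) = fun x => 2 * f x := rfl
      rw [e4] at this
      rw [this]
      gcongr
      rw [enorm_eq_nnnorm, Complex.nnnorm_ofNat]; simp
    · calc eLpNorm (fderiv ℝ f) 2 volume ≤ eLpNorm (fun x => ‖PD.px f x‖ + ‖PD.py f x‖) 2 volume := by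
            refine eLpNorm_mono fun x => ?_
            rw [Real.norm_of_nonneg (by positivity)]
            exact norm_fd_le f x
        _ ≤ eLpNorm (fun x => ‖PD.px f x‖) 2 volume + eLpNorm (fun x => ‖PD.py f x‖) 2 volume :=
            eLpNorm_add_le hx.1.norm hy.1.norm (by norm_num)
        _ = _ := by rw [eLpNorm_norm, eLpNorm_norm]
  rw [norm_cl4 hm1, norm_cl2 hm2, norm_cl2 hx, norm_cl2 hy]
  rw [e1] at key
  have fin : (K : ℝ≥0∞) * (2 * eLpNorm f 2 volume *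
      (eLpNorm (PD.px f) 2 volume + eLpNorm (PD.py f) 2 volume)) ≠ ∞ := by
    refine ENNReal.mul_ne_top ENNReal.coe_ne_top (ENNReal.mul_ne_top (ENNReal.mul_ne_top (by norm_num)
      hm2.2.ne) (ENNReal.add_ne_top.2 ⟨hx.2.ne, hy.2.ne⟩))
  have k2 := ENNReal.toReal_mono fin (key.trans (mul_le_mul' le_rfl e2))
  rw [ENNReal.toReal_pow, ENNReal.toReal_mul, ENNReal.toReal_mul, ENNReal.toReal_mul,
    ENNReal.toReal_add hx.2.ne hy.2.ne, ENNReal.coe_toReal] at k2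
  refine k2.trans (le_of_eq ?_)
  simp
  ring

/-- `L⁴` bound of the velocity (`exists_lady` for `∂₁ψ`, `∂₂ψ`, `norm_dd_le`, `norm_gp_sq`). -/
theorem exists_norm4 : ∃ C : ℝ, 0 ≤ C ∧ ∀ f : ℂ → ℂ, Cc f →
    ‖cl4 (PD.px f)‖ ^ 2 ≤ C * (‖gp f‖ * ‖cu f‖) ∧ ‖cl4 (PD.py f)‖ ^ 2 ≤ C * (‖gp f‖ * ‖cu f‖) := by
  obtain ⟨C, hC, h⟩ := exists_lady
  refine ⟨2 * C, by positivity, fun f hf => ?_⟩
  obtain ⟨d1, d2, d3, d4⟩ := norm_dd_le hf
  have hgp := norm_gp_sq hf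
  have gx : ‖cl2 (PD.px f)‖ ≤ ‖gp f‖ := by
    refine le_of_sq_le_sq ?_ (norm_nonneg _)
    rw [hgp]; nlinarith [sq_nonneg ‖cl2 (PD.py f)‖]
  have gy : ‖cl2 (PD.py f)‖ ≤ ‖gp f‖ := by
    refine le_of_sq_le_sq ?_ (norm_nonneg _)
    rw [hgp]; nlinarith [sq_nonneg ‖cl2 (PD.px f)‖]
  constructor
  · refine (h _ hf.px).trans ?_
    have : ‖cl2 (PD.px f)‖ * (‖cl2 (PD.px (PD.px f))‖ + ‖cl2 (PD.py (PD.px f))‖) ≤
        ‖gp f‖ * (‖cu f‖ + ‖cu f‖) := by gcongr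
    nlinarith [mul_le_mul_of_nonneg_left this hC]
  · refine (h _ hf.py).trans ?_
    have : ‖cl2 (PD.py f)‖ * (‖cl2 (PD.px (PD.py f))‖ + ‖cl2 (PD.py (PD.py f))‖) ≤
        ‖gp f‖ * (‖cu f‖ + ‖cu f‖) := by gcongr
    nlinarith [mul_le_mul_of_nonneg_left this hC]

end

end Pool.Agent.Lib.MP_79abb3_an.PD
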