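import Pool.Agent.Lib.MP_79abb3_an.PD.FbDef
import Pool.Agent.Lib.MP_79abb3_an.PD.SpBd

/-!
Theorem D, block F, bounds (6.5): the interior `L⁴` bound for smooth stream functions.
-/

set_option autoImplicit false
set_option linter.unusedSectionVars false

open MeasureTheory Set Filter Topology Function
open scoped ENNReal InnerProductSpace ComplexConjugate

namespace Pool.Agent.Lib.MP_79abb3_an.PD

open Pool.Agent.Lib.MP_79abb3_an.SC

/-- `|∇F|² = |div F|² + |curl F|²` for `F ∈ C_c^∞`. Proof: `Cc.norm_sq`, `Cc.inner` (parallelogram),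
`⟪px F1, py F2⟫ = ⟪py F1, px F2⟫` by `Cc.ibpx`, `Cc.ibpy`, `Smo.pxy` (with `Cc.conj`, `Smo.px_conj`). -/
theorem divcurl {F1 F2 : ℂ → ℂ} (h1 : Cc F1) (h2 : Cc F2) :
    ‖cl2 (px F1)‖ ^ 2 + ‖cl2 (py F1)‖ ^ 2 + (‖cl2 (px F2)‖ ^ 2 + ‖cl2 (py F2)‖ ^ 2) =
      ‖cl2 fun x => px F1 x + py F2 x‖ ^ 2 + ‖cl2 fun x => px F2 x + -py F1 x‖ ^ 2 := by
  have hc : Cc (fun x => conj (F1 x)) := h1.conj
  have hk : ⟪cl2 (px F1), cl2 (py F2)⟫_ℂ = ⟪cl2 (py F1), cl2 (px F2)⟫_ℂ := by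
    rw [h1.px.inner h2.py, h1.py.inner h2.px]
    have e1 : (fun x => conj (px F1 x)) = px fun x => conj (F1 x) := h1.smo.px_conj.symm
    have e2 : (fun x => conj (py F1 x)) = py fun x => conj (F1 x) := h1.smo.py_conj.symm
    have a1 : ∫ x, conj (px F1 x) * py F2 x = ∫ x, px (fun x => conj (F1 x)) x * py F2 x := by
      rw [← e1]
    have a2 : ∫ x, conj (py F1 x) * px F2 x = ∫ x, py (fun x => conj (F1 x)) x * px F2 x := by
      rw [← e2]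
    rw [a1, a2, hc.ibpx h2.py, hc.ibpy h2.px, h2.smo.pxy]
  have e3 : (fun x => -py F1 x) = fun x => (-1 : ℂ) * py F1 x := by funext x; ring
  have e4 : cl2 (fun x => px F2 x + -py F1 x) = cl2 (px F2) + -cl2 (py F1) := by
    rw [cl2_add (h2.px.memLp 2) (h1.py.neg.memLp 2), e3, cl2_smul _ (h1.py.memLp 2), neg_one_smul]
  rw [cl2_add (h1.px.memLp 2) (h2.py.memLp 2), e4, norm_add_sq (𝕜 := ℂ), norm_add_sq (𝕜 := ℂ), hk,
    norm_neg, inner_neg_right, map_neg, ← inner_conj_symm (cl2 (px F2)), RCLike.conj_re]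
  ring

/-- Leibniz rules -/
private theorem fba_px {f g : ℂ → ℂ} (hf : Smo f) (hg : Smo g) (x : ℂ) :
    px (fun x => f x * g x) x = px f x * g x + f x * px g x := by
  unfold px
  rw [fderiv_fun_mul (hf.differentiable x) (hg.differentiable x)]
  show f x • fderiv ℝ g x 1 + g x • fderiv ℝ f x 1 = _
  rw [smul_eq_mul, smul_eq_mul]
  ring

private theorem fba_py {f g : ℂ → ℂ} (hf : Smo f) (hg : Smo g) (x : ℂ) :
    py (fun x => f x * g x) x = py f x * g x + f x * py g x := by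
  unfold py
  rw [fderiv_fun_mul (hf.differentiable x) (hg.differentiable x)]
  show f x • fderiv ℝ g x Complex.I + g x • fderiv ℝ f x Complex.I = _
  rw [smul_eq_mul, smul_eq_mul]
  ring

private theorem fba_bd {g f : ℂ → ℂ} {S : Set ℂ} (hS : IsCompact S) (hg : Cc g) (hgS : ∀ x, x ∉ S → g x = 0)
    {A W : ℝ} (hA : 0 ≤ A) (hW : 0 ≤ W) (hgA : ∀ x, ‖g x‖ ≤ A) (hf : Smo f)
    (hfW : ∫ x in S, ‖f x‖ ^ 2 ≤ W ^ 2) : ‖cl2 fun x => g x * f x‖ ≤ A * W := by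
  have h1 : Cc fun x => g x * f x := hg.mul_smo hf
  refine le_of_sq_le_sq ?_ (mul_nonneg hA hW)
  rw [h1.norm_sq]
  have e1 : ∫ x, ‖g x * f x‖ ^ 2 = ∫ x in S, ‖g x * f x‖ ^ 2 := by
    refine (setIntegral_eq_integral_of_forall_compl_eq_zero fun x hx => ?_).symm
    rw [hgS x hx, zero_mul, norm_zero]
    norm_num
  have c1 : Continuous fun x => ‖g x * f x‖ ^ 2 := (h1.smo.continuous.norm).pow 2
  have c2 : Continuous fun x => A ^ 2 * ‖f x‖ ^ 2 := continuous_const.mul (hf.continuous.norm.pow 2)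
  rw [e1, mul_pow]
  calc ∫ x in S, ‖g x * f x‖ ^ 2 ≤ ∫ x in S, A ^ 2 * ‖f x‖ ^ 2 := by
        refine integral_mono (c1.continuousOn.integrableOn_compact hS)
          (c2.continuousOn.integrableOn_compact hS) fun x => ?_
        show ‖g x * f x‖ ^ 2 ≤ A ^ 2 * ‖f x‖ ^ 2
        rw [norm_mul, mul_pow]
        exact mul_le_mul_of_nonneg_right (pow_le_pow_left₀ (norm_nonneg _) (hgA x) 2) (sq_nonneg _)
    _ = A ^ 2 * ∫ x in S, ‖f x‖ ^ 2 := integral_const_mul _ _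
    _ ≤ A ^ 2 * W ^ 2 := mul_le_mul_of_nonneg_left hfW (sq_nonneg _)

/-- the real variable algebra -/
private theorem fba_alg {C A W L a b c d f dv cu : ℝ} (hC : 0 ≤ C) (hA : 0 ≤ A) (hW : 0 ≤ W) (hL : 0 ≤ L)
    (ha : 0 ≤ a) (hb : 0 ≤ b) (hdv0 : 0 ≤ dv) (hcu0 : 0 ≤ cu)
    (h : a ^ 2 + b ^ 2 + (c ^ 2 + d ^ 2) = dv ^ 2 + cu ^ 2) (hdv : dv ≤ 2 * (A * W))
    (hcu : cu ≤ L + 2 * (A * W)) (hfA : f ≤ A * W) :
    C * (f * (a + b)) ≤ (2 * C * A * (1 + 4 * A)) * (W * (W + L)) := by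
  have h0 : 0 ≤ A * W := mul_nonneg hA hW
  have h1 : dv ^ 2 + cu ^ 2 ≤ (L + 4 * (A * W)) ^ 2 := by
    have k1 : dv ^ 2 ≤ (2 * (A * W)) ^ 2 := pow_le_pow_left₀ hdv0 hdv 2
    have k2 : cu ^ 2 ≤ (L + 2 * (A * W)) ^ 2 := pow_le_pow_left₀ hcu0 hcu 2
    nlinarith [mul_nonneg hL h0, mul_nonneg h0 h0]
  have h2 : a ≤ L + 4 * (A * W) := by
    refine le_of_sq_le_sq ?_ (by positivity)
    nlinarith [sq_nonneg b, sq_nonneg c, sq_nonneg d]
  have h3 : b ≤ L + 4 * (A * W) := by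
    refine le_of_sq_le_sq ?_ (by positivity)
    nlinarith [sq_nonneg a, sq_nonneg c, sq_nonneg d]
  have h4 : L + 4 * (A * W) ≤ (1 + 4 * A) * (W + L) := by
    nlinarith [mul_nonneg hA hL]
  have h5 : f * (a + b) ≤ (A * W) * (2 * ((1 + 4 * A) * (W + L))) := by
    refine mul_le_mul hfA (by linarith) (by linarith) h0
  calc C * (f * (a + b)) ≤ C * ((A * W) * (2 * ((1 + 4 * A) * (W + L)))) :=
        mul_le_mul_of_nonneg_left h5 hC
    _ = _ := by ring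

/-- **Interior bound.** Proof: `F1 = χ ψ_y`, `F2 = -χ ψ_x`: `div F = χ_x ψ_y - χ_y ψ_x`,
`curl F = -χ Δψ - χ_x ψ_x - χ_y ψ_y`; `divcurl`, `exists_lady` for `F1` and `F2`; all functions vanish outside
`tsupport χ`, and `χ`, `χ_x`, `χ_y` are bounded. -/
theorem lady_chi {χ : ℂ → ℂ} (hχ : Cc χ) : ∃ C : ℝ, 0 ≤ C ∧ ∀ ψ : ℂ → ℂ, Smo ψ → ∀ W : ℝ, 0 ≤ W →
    (∫ x in tsupport χ, (‖px ψ x‖ ^ 2 + ‖py ψ x‖ ^ 2)) ≤ W ^ 2 →
    ‖cl4 fun x => χ x * py ψ x‖ ^ 2 ≤ C * (W * (W + ‖cl2 fun x => χ x * lap ψ x‖)) ∧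
    ‖cl4 fun x => χ x * px ψ x‖ ^ 2 ≤ C * (W * (W + ‖cl2 fun x => χ x * lap ψ x‖)) := by
  obtain ⟨C0, hC0, hlady⟩ := exists_lady
  obtain ⟨A0, hA0⟩ := hχ.cpt.exists_bound_of_continuous hχ.smo.continuous
  obtain ⟨A1, hA1⟩ := hχ.px.cpt.exists_bound_of_continuous hχ.px.smo.continuous
  obtain ⟨A2, hA2⟩ := hχ.py.cpt.exists_bound_of_continuous hχ.py.smo.continuous
  set A : ℝ := max 0 (max A0 (max A1 A2)) with hA
  have hA' : 0 ≤ A := le_max_left _ _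
  have b0 : ∀ x, ‖χ x‖ ≤ A := fun x => (hA0 x).trans ((le_max_left _ _).trans (le_max_right _ _))
  have b1 : ∀ x, ‖px χ x‖ ≤ A := fun x => (hA1 x).trans
    (((le_max_left _ _).trans (le_max_right _ _)).trans (le_max_right _ _))
  have b2 : ∀ x, ‖py χ x‖ ≤ A := fun x => (hA2 x).trans
    (((le_max_right _ _).trans (le_max_right _ _)).trans (le_max_right _ _))
  have z0 : ∀ x, x ∉ tsupport χ → χ x = 0 := fun x hx => image_eq_zero_of_notMem_tsupport hx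
  have zf : ∀ x, x ∉ tsupport χ → fderiv ℝ χ x = 0 := fun x hx =>
    image_eq_zero_of_notMem_tsupport fun h => hx (tsupport_fderiv_subset ℝ h)
  have z1 : ∀ x, x ∉ tsupport χ → px χ x = 0 := fun x hx => by unfold px; rw [zf x hx]; rfl
  have z2 : ∀ x, x ∉ tsupport χ → py χ x = 0 := fun x hx => by unfold py; rw [zf x hx]; rfl
  have hS : IsCompact (tsupport χ) := hχ.cpt
  refine ⟨2 * C0 * A * (1 + 4 * A), by positivity, fun ψ hψ W hW hi => ?_⟩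
  set L : ℝ := ‖cl2 fun x => χ x * lap ψ x‖ with hL
  have hL0 : 0 ≤ L := norm_nonneg _
  have cx : Continuous fun x => ‖px ψ x‖ ^ 2 := hψ.px.continuous.norm.pow 2
  have cy : Continuous fun x => ‖py ψ x‖ ^ 2 := hψ.py.continuous.norm.pow 2
  have ix : ∫ x in tsupport χ, ‖px ψ x‖ ^ 2 ≤ W ^ 2 := by
    refine le_trans (integral_mono (cx.continuousOn.integrableOn_compact hS)
      ((cx.add cy).continuousOn.integrableOn_compact hS) fun x => ?_) hi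
    show ‖px ψ x‖ ^ 2 ≤ ‖px ψ x‖ ^ 2 + ‖py ψ x‖ ^ 2
    nlinarith [sq_nonneg ‖py ψ x‖]
  have iy : ∫ x in tsupport χ, ‖py ψ x‖ ^ 2 ≤ W ^ 2 := by
    refine le_trans (integral_mono (cy.continuousOn.integrableOn_compact hS)
      ((cx.add cy).continuousOn.integrableOn_compact hS) fun x => ?_) hi
    show ‖py ψ x‖ ^ 2 ≤ ‖px ψ x‖ ^ 2 + ‖py ψ x‖ ^ 2
    nlinarith [sq_nonneg ‖px ψ x‖]
  set G1 : ℂ → ℂ := fun x => χ x * py ψ x with hG1
  set G2 : ℂ → ℂ := fun x => χ x * px ψ x with hG2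
  set G3 : ℂ → ℂ := fun x => (-1 : ℂ) * G2 x with hG3
  have k1 : Cc G1 := hχ.mul_smo hψ.py
  have k2 : Cc G2 := hχ.mul_smo hψ.px
  have k3 : Cc G3 := k2.cmul (-1)
  have n1 : ‖cl2 G1‖ ≤ A * W := fba_bd hS hχ z0 hA' hW b0 hψ.py iy
  have n2 : ‖cl2 G2‖ ≤ A * W := fba_bd hS hχ z0 hA' hW b0 hψ.px ix
  have m1 : ‖cl2 fun x => px χ x * py ψ x‖ ≤ A * W := fba_bd hS hχ.px z1 hA' hW b1 hψ.py iy
  have m2 : ‖cl2 fun x => py χ x * px ψ x‖ ≤ A * W := fba_bd hS hχ.py z2 hA' hW b2 hψ.px ix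
  have m3 : ‖cl2 fun x => px χ x * px ψ x‖ ≤ A * W := fba_bd hS hχ.px z1 hA' hW b1 hψ.px ix
  have m4 : ‖cl2 fun x => py χ x * py ψ x‖ ≤ A * W := fba_bd hS hχ.py z2 hA' hW b2 hψ.py iy
  have c1 : Cc fun x => px χ x * py ψ x := hχ.px.mul_smo hψ.py
  have c2 : Cc fun x => py χ x * px ψ x := hχ.py.mul_smo hψ.px
  have c3 : Cc fun x => px χ x * px ψ x := hχ.px.mul_smo hψ.px
  have c4 : Cc fun x => py χ x * py ψ x := hχ.py.mul_smo hψ.py
  have c5 : Cc fun x => χ x * lap ψ x := hχ.mul_smo hψ.lap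
  have g3x : px G3 = fun x => (-1 : ℂ) * px G2 x := funext fun x => px_cmul (-1) k2.smo x
  have g3y : py G3 = fun x => (-1 : ℂ) * py G2 x := funext fun x => py_cmul (-1) k2.smo x
  have hxy : ∀ x, px (py ψ) x = py (px ψ) x := fun x => congrFun hψ.pxy x
  have ed : (fun x => px G1 x + py G3 x) =
      fun x => px χ x * py ψ x + (-1 : ℂ) * (py χ x * px ψ x) := by
    funext x
    rw [g3y, hG1, hG2]
    beta_reduce
    rw [fba_px hχ.smo hψ.py, fba_py hχ.smo hψ.px, hxy x]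
    ring
  have ec : (fun x => px G3 x + -py G1 x) =
      fun x => (-1 : ℂ) * (χ x * lap ψ x + (px χ x * px ψ x + py χ x * py ψ x)) := by
    funext x
    rw [g3x, hG1, hG2]
    beta_reduce
    rw [fba_px hχ.smo hψ.px, fba_py hχ.smo hψ.py]
    show (-1 : ℂ) * (px χ x * px ψ x + χ x * px (px ψ) x) + -(py χ x * py ψ x + χ x * py (py ψ) x) =
      (-1 : ℂ) * (χ x * (px (px ψ) x + py (py ψ) x) + (px χ x * px ψ x + py χ x * py ψ x))
    ring
  have bd : ‖cl2 fun x => px G1 x + py G3 x‖ ≤ 2 * (A * W) := by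
    rw [ed, cl2_add (c1.memLp 2) ((c2.cmul (-1)).memLp 2), cl2_smul _ (c2.memLp 2)]
    refine (norm_add_le _ _).trans ?_
    rw [norm_smul, norm_neg, norm_one, one_mul]
    linarith
  have bc : ‖cl2 fun x => px G3 x + -py G1 x‖ ≤ L + 2 * (A * W) := by
    rw [ec, cl2_smul _ ((c5.add (c3.add c4)).memLp 2), norm_smul, norm_neg, norm_one, one_mul,
      cl2_add (c5.memLp 2) ((c3.add c4).memLp 2), cl2_add (c3.memLp 2) (c4.memLp 2)]
    refine (norm_add_le _ _).trans ?_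
    have := norm_add_le (cl2 fun x => px χ x * px ψ x) (cl2 fun x => py χ x * py ψ x)
    linarith
  have key := divcurl k1 k3
  have s3x : ‖cl2 (px G3)‖ = ‖cl2 (px G2)‖ := by
    rw [g3x, cl2_smul _ (k2.px.memLp 2), norm_smul, norm_neg, norm_one, one_mul]
  have s3y : ‖cl2 (py G3)‖ = ‖cl2 (py G2)‖ := by
    rw [g3y, cl2_smul _ (k2.py.memLp 2), norm_smul, norm_neg, norm_one, one_mul]
  rw [s3x, s3y] at key
  have key2 := (add_comm (‖cl2 (px G2)‖ ^ 2 + ‖cl2 (py G2)‖ ^ 2) (‖cl2 (px G1)‖ ^ 2 + ‖cl2 (py G1)‖ ^ 2)).trans key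
  constructor
  · refine (hlady G1 k1).trans ?_
    exact fba_alg hC0 hA' hW hL0 (norm_nonneg _) (norm_nonneg _) (norm_nonneg _) (norm_nonneg _)
      key bd bc n1
  · refine (hlady G2 k2).trans ?_
    exact fba_alg hC0 hA' hW hL0 (norm_nonneg _) (norm_nonneg _) (norm_nonneg _) (norm_nonneg _)
      key2 bd bc n2

end Pool.Agent.Lib.MP_79abb3_an.PD
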