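import Pool.Agent.Lib.MP_79abb3_an.PD.FbA

/-!
Theorem D, block F, bounds (6.5): the interior part of `∫ |w'|² |o|²`.
-/

set_option autoImplicit false
set_option linter.unusedSectionVars false

open MeasureTheory Set Filter Topology Function
open scoped ENNReal InnerProductSpace ComplexConjugate

namespace Pool.Agent.Lib.MP_79abb3_an.PD

open Pool.Agent.Lib.MP_79abb3_an.SC

section
variable {D : Set ℂ}

open scoped Manifold in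
private theorem fbb_cut {K O : Set ℂ} (hK : IsCompact K) (hO : IsOpen O) (hKO : K ⊆ O) :
    ∃ χ : ℂ → ℂ, Cc χ ∧ tsupport χ ⊆ O ∧ ∀ x ∈ K, ∀ᶠ y in 𝓝 x, χ y = 1 := by
  obtain ⟨K', hK', hKK', hK'O⟩ := exists_compact_between hK hO hKO
  obtain ⟨f, h1, h2, -⟩ := exists_contMDiffMap_one_nhds_of_subset_interior (𝓘(ℝ, ℂ))
    (n := ⊤) hK.isClosed hKK'
  have hsup : tsupport (fun x => ((f x : ℝ) : ℂ)) ⊆ K' := by
    refine closure_minimal (fun x hx => ?_) hK'.isClosed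
    by_contra h
    exact hx (by show ((f x : ℝ) : ℂ) = 0; rw [h2 x h, Complex.ofReal_zero])
  refine ⟨fun x => ((f x : ℝ) : ℂ), ⟨?_, ?_⟩, hsup.trans hK'O, fun x hx => ?_⟩
  · exact Complex.ofRealCLM.contDiff.comp f.contMDiff.contDiff
  · exact hK'.of_isClosed_subset (isClosed_tsupport _) hsup
  · have h3 := eventually_nhdsSet_iff_forall.1 h1 x hx
    filter_upwards [h3] with y hy
    rw [hy, Complex.ofReal_one]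

private theorem fbb_ext {χ Ψ : ℂ → ℂ} (hO : IsOpen D) (hχ : Cc χ) (hs : tsupport χ ⊆ D)
    (hΨ : ContDiffOn ℝ ((⊤ : ℕ∞) : WithTop ℕ∞) Ψ D) : Smo fun x => χ x * Ψ x := by
  refine contDiff_iff_contDiffAt.2 fun x => ?_
  by_cases hx : x ∈ tsupport χ
  · exact (hχ.smo.contDiffAt).mul (hΨ.contDiffAt (hO.mem_nhds (hs hx)))
  · have h1 : (fun x => χ x * Ψ x) =ᶠ[𝓝 x] fun _ => (0 : ℂ) := by
      filter_upwards [notMem_tsupport_iff_eventuallyEq.1 hx] with y hy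
      rw [hy]
      exact zero_mul _
    exact contDiffAt_const.congr_of_eventuallyEq h1

/-- derivatives of the difference at a point of `D` -/
private theorem fbb_der {ρ ψ Ψ : ℂ → ℂ} (hO : IsOpen D) (hψ : Smo ψ)
    (hΨ : ContDiffOn ℝ ((⊤ : ℕ∞) : WithTop ℕ∞) Ψ D) {x : ℂ} (hx : x ∈ D)
    (h : ∀ᶠ y in 𝓝 x, ρ y = ψ y - Ψ y) :
    px ρ x = px ψ x - px Ψ x ∧ py ρ x = py ψ x - py Ψ x ∧ lap ρ x = lap ψ x - lap Ψ x := by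
  have h1 : ∀ᶠ y in 𝓝 x, ∀ e : ℂ, fderiv ℝ ρ y e = fderiv ℝ ψ y e - fderiv ℝ Ψ y e := by
    have h2 : ∀ᶠ y in 𝓝 x, ρ =ᶠ[𝓝 y] fun z => ψ z - Ψ z := eventually_eventually_nhds.2 h
    filter_upwards [h2, hO.mem_nhds hx] with y hy hyD e
    rw [hy.fderiv_eq, fderiv_fun_sub (hψ.differentiable y)
      ((hΨ.contDiffAt (hO.mem_nhds hyD)).differentiableAt (by norm_num))]
    rfl
  have h3 : ∀ e : ℂ, (fun y => fderiv ℝ ρ y e) =ᶠ[𝓝 x] fun y => fderiv ℝ ψ y e - fderiv ℝ Ψ y e :=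
    fun e => h1.mono fun y hy => hy e
  have h4 : ∀ e : ℂ, fderiv ℝ (fun y => fderiv ℝ ρ y e) x e =
      fderiv ℝ (fun y => fderiv ℝ ψ y e) x e - fderiv ℝ (fun y => fderiv ℝ Ψ y e) x e := by
    intro e
    rw [(h3 e).fderiv_eq, fderiv_fun_sub ((hψ.dir e).differentiable x)
      (((ContDiffOn.dirD hO hΨ e).contDiffAt (hO.mem_nhds hx)).differentiableAt (by norm_num))]
    rfl
  refine ⟨h1.self_of_nhds 1, h1.self_of_nhds Complex.I, ?_⟩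
  have h5 := h4 1
  have h6 := h4 Complex.I
  show fderiv ℝ (fun y => fderiv ℝ ρ y 1) x 1 + fderiv ℝ (fun y => fderiv ℝ ρ y Complex.I) x Complex.I =
    (fderiv ℝ (fun y => fderiv ℝ ψ y 1) x 1 + fderiv ℝ (fun y => fderiv ℝ ψ y Complex.I) x Complex.I) -
    (fderiv ℝ (fun y => fderiv ℝ Ψ y 1) x 1 + fderiv ℝ (fun y => fderiv ℝ Ψ y Complex.I) x Complex.I)
  rw [h5, h6]
  ring

/-- one component of the product -/
private theorem fbb_comp {S : Set ℂ} (hS : MeasurableSet S) {a b : L4c} {g : ℂ → ℂ}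
    (hg : MemLp g 4 (volume : Measure ℂ)) (h : ∀ᵐ x ∂volume, x ∈ S → ‖(a : ℂ → ℂ) x‖ = ‖g x‖) :
    ∫ x in S, ‖(m44 a b : ℂ → ℂ) x‖ ^ 2 ≤ ‖cl4 g‖ ^ 2 * ‖b‖ ^ 2 := by
  have e1 : ∫ x in S, ‖(m44 a b : ℂ → ℂ) x‖ ^ 2 = ∫ x in S, ‖(m44 (cl4 g) b : ℂ → ℂ) x‖ ^ 2 := by
    refine integral_congr_ae ((ae_restrict_iff' hS).2 ?_)
    filter_upwards [h, m44_coe a b, m44_coe (cl4 g) b, cl4_coe hg] with x h1 h2 h3 h4 hx
    rw [h2, h3, h4, norm_mul, norm_mul, h1 hx]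
  have e2 : ∫ x in S, ‖(m44 (cl4 g) b : ℂ → ℂ) x‖ ^ 2 ≤ ∫ x, ‖(m44 (cl4 g) b : ℂ → ℂ) x‖ ^ 2 :=
    setIntegral_le_integral (L2_sq_int _) (Eventually.of_forall fun x => by positivity)
  rw [e1]
  refine e2.trans ?_
  rw [← L2_norm_sq, ← mul_pow]
  exact pow_le_pow_left₀ (norm_nonneg _) (m44_norm _ _) 2

/-- the norm of a velocity controls the integral over a set -/
private theorem fbb_norm {K : Set ℂ} (hK : MeasurableSet K) (w : Y2) {f g : ℂ → ℂ}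
    (h : ∀ᵐ x ∂volume, x ∈ K → ‖f x‖ = ‖(w.snd : ℂ → ℂ) x‖ ∧ ‖g x‖ = ‖(w.fst : ℂ → ℂ) x‖) :
    ∫ x in K, (‖f x‖ ^ 2 + ‖g x‖ ^ 2) ≤ ‖w‖ ^ 2 := by
  have e1 : ∫ x in K, (‖f x‖ ^ 2 + ‖g x‖ ^ 2) =
      ∫ x in K, (‖(w.snd : ℂ → ℂ) x‖ ^ 2 + ‖(w.fst : ℂ → ℂ) x‖ ^ 2) := by
    refine integral_congr_ae ((ae_restrict_iff' hK).2 ?_)
    filter_upwards [h] with x h1 hx
    rw [(h1 hx).1, (h1 hx).2]
  have e2 : ∫ x in K, (‖(w.snd : ℂ → ℂ) x‖ ^ 2 + ‖(w.fst : ℂ → ℂ) x‖ ^ 2) ≤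
      ∫ x, (‖(w.snd : ℂ → ℂ) x‖ ^ 2 + ‖(w.fst : ℂ → ℂ) x‖ ^ 2) :=
    setIntegral_le_integral ((L2_sq_int _).add (L2_sq_int _)) (Eventually.of_forall fun x => by positivity)
  rw [e1]
  refine e2.trans (le_of_eq ?_)
  rw [integral_add (L2_sq_int _) (L2_sq_int _), ← L2_norm_sq, ← L2_norm_sq,
    WithLp.prod_norm_sq_eq_of_L2, add_comm]

private theorem fbb_core (hO : IsOpen D) (hD : Bornology.IsBounded D) {χ : ℂ → ℂ} (hχ : Cc χ)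
    (hs : tsupport χ ⊆ D) {C₁ C₂ c : ℝ} (hC₁ : 0 ≤ C₁)
    (hlady : ∀ ψ : ℂ → ℂ, Smo ψ → ∀ W : ℝ, 0 ≤ W →
      (∫ x in tsupport χ, (‖px ψ x‖ ^ 2 + ‖py ψ x‖ ^ 2)) ≤ W ^ 2 →
      ‖cl4 fun x => χ x * py ψ x‖ ^ 2 ≤ C₁ * (W * (W + ‖cl2 fun x => χ x * lap ψ x‖)) ∧
      ‖cl4 fun x => χ x * px ψ x‖ ^ 2 ≤ C₁ * (W * (W + ‖cl2 fun x => χ x * lap ψ x‖)))
    (hC₂ : Lad (js D) (j4 D) C₂) {χ₂ : ℂ → ℂ} (hχ₂ : Cc χ₂) (hs₂ : tsupport χ₂ ⊆ D)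
    (hone : ∀ x ∈ tsupport χ, ∀ᶠ y in 𝓝 x, χ₂ y = 1) (hBm : Bm χ c)
    (hSm : MeasurableSet {x | χ x = 1}) (hSK : ∀ x, χ x = 1 → x ∈ tsupport χ) {Ψ : ℂ → ℂ} {B : ℝ}
    (hΨ : IsBgF D Ψ B) (q : SV D) (ψ : Adm D) (w : Y2)
    (hw : w = ((iot D (cuV D ψ) : XD D) - gpI D Ψ : Y2)) :
    prI {x | χ x = 1} w ((js D q : XS D) : L2c) ≤
      2 * C₁ * C₂ ^ 2 * (‖w‖ * (‖w‖ + ‖mm χ (((cuV D ψ : VD D) : L2c) - cuI D Ψ)‖)) *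
      (‖js D q‖ * ‖q‖) := by
  obtain ⟨ρ, hρ⟩ : ∃ ρ : ℂ → ℂ, ρ = fun x => (ψ : ℂ → ℂ) x + -(χ₂ x * Ψ x) := ⟨_, rfl⟩
  have hρs : Smo ρ := by
    rw [hρ]
    exact (Adm.cc ψ).smo.add (fbb_ext hO hχ₂ hs₂ hΨ.smo).neg
  have hev : ∀ x ∈ tsupport χ, ∀ᶠ y in 𝓝 x, ρ y = (ψ : ℂ → ℂ) y - Ψ y := by
    intro x hx
    filter_upwards [hone x hx] with y hy
    rw [hρ]
    show (ψ : ℂ → ℂ) y + -(χ₂ y * Ψ y) = _
    rw [hy, one_mul, sub_eq_add_neg]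
  have hder : ∀ x ∈ tsupport χ, px ρ x = px ψ x - px Ψ x ∧ py ρ x = py ψ x - py Ψ x ∧
      lap ρ x = lap ψ x - lap Ψ x := fun x hx =>
    fbb_der hO (Adm.cc ψ).smo hΨ.smo (hs hx) (hev x hx)
  have hwf : (w.fst : ℂ → ℂ) =ᵐ[volume] fun x => py ψ x - D.indicator (py Ψ) x := by
    rw [hw, iot_cuV hD]
    show ((cl2 (py ψ) - (gpI D Ψ).fst : L2c) : ℂ → ℂ) =ᵐ[volume] _
    filter_upwards [Lp.coeFn_sub (cl2 (py ψ)) (gpI D Ψ).fst, cl2_coe ((Adm.cc ψ).py.memLp 2),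
      gpI_fst hΨ hO hD] with x h1 h2 h3
    rw [h1, Pi.sub_apply, h2, h3]
  have hws : (w.snd : ℂ → ℂ) =ᵐ[volume] fun x => -(px ψ x - D.indicator (px Ψ) x) := by
    rw [hw, iot_cuV hD]
    show ((-cl2 (px ψ) - (gpI D Ψ).snd : L2c) : ℂ → ℂ) =ᵐ[volume] _
    filter_upwards [Lp.coeFn_sub (-cl2 (px ψ)) (gpI D Ψ).snd, Lp.coeFn_neg (cl2 (px ψ)),
      cl2_coe ((Adm.cc ψ).px.memLp 2), gpI_snd hΨ hO hD] with x h1 h2 h3 h4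
    rw [h1, Pi.sub_apply, h2, Pi.neg_apply, h3, h4]
    ring
  have hW : ∫ x in tsupport χ, (‖px ρ x‖ ^ 2 + ‖py ρ x‖ ^ 2) ≤ ‖w‖ ^ 2 := by
    refine fbb_norm (isClosed_tsupport χ).measurableSet w ?_
    filter_upwards [hwf, hws] with x h1 h2 hx
    obtain ⟨d1, d2, -⟩ := hder x hx
    rw [h1, h2, indicator_of_mem (hs hx), indicator_of_mem (hs hx), norm_neg, d1, d2]
    exact ⟨rfl, rfl⟩
  have hmm : mm χ (((cuV D ψ : VD D) : L2c) - cuI D Ψ) = -cl2 (fun x => χ x * lap ρ x) := by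
    apply Lp.ext
    have hm : MemLp (fun x => χ x * lap ρ x) 2 (volume : Measure ℂ) := (hχ.mul_smo hρs.lap).memLp 2
    filter_upwards [mm_coe hBm (((cuV D ψ : VD D) : L2c) - cuI D Ψ),
      Lp.coeFn_sub ((cuV D ψ : VD D) : L2c) (cuI D Ψ), cuI_coe hΨ hO hD,
      Lp.coeFn_neg (cl2 (fun x => χ x * lap ρ x)), cl2_coe hm, Lp.coeFn_neg (cl2 (lap ψ)),
      cl2_coe ((Adm.cc ψ).lap.memLp 2)] with x h1 h2 h3 h4 h5 h6 h7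
    have h8 : (((cuV D ψ : VD D) : L2c) : ℂ → ℂ) x = -lap ψ x := by
      show ((-cl2 (lap ψ) : L2c) : ℂ → ℂ) x = _
      rw [h6, Pi.neg_apply, h7]
    rw [h1, h2, Pi.sub_apply, h8, h3, h4, Pi.neg_apply, h5]
    by_cases hx : x ∈ tsupport χ
    · rw [indicator_of_mem (hs hx), (hder x hx).2.2]
      ring
    · rw [image_eq_zero_of_notMem_tsupport hx]
      ring
  obtain ⟨l1, l2⟩ := hlady ρ hρs ‖w‖ (norm_nonneg _) hW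
  have hj := hC₂.le q
  rw [hmm, norm_neg]
  have hpw : prI {x | χ x = 1} w ((js D q : XS D) : L2c) =
      (∫ x in {x | χ x = 1}, ‖(m44 (w1 D Ψ (cuV D ψ)) (j4 D q) : ℂ → ℂ) x‖ ^ 2) +
        ∫ x in {x | χ x = 1}, ‖(m44 (w2 D Ψ (cuV D ψ)) (j4 D q) : ℂ → ℂ) x‖ ^ 2 := by
    rw [hw]
    exact prI_wq hΨ hO hD {x | χ x = 1} (cuV D ψ) q
  rw [hpw]
  have m1 : MemLp (fun x => χ x * py ρ x) 4 (volume : Measure ℂ) := (hχ.mul_smo hρs.py).memLp 4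
  have m2 : MemLp (fun x => χ x * px ρ x) 4 (volume : Measure ℂ) := (hχ.mul_smo hρs.px).memLp 4
  have b1 : ∫ x in {x | χ x = 1}, ‖(m44 (w1 D Ψ (cuV D ψ)) (j4 D q) : ℂ → ℂ) x‖ ^ 2 ≤
      ‖cl4 (fun x => χ x * py ρ x)‖ ^ 2 * ‖j4 D q‖ ^ 2 := by
    refine fbb_comp hSm m1 ?_
    have h0 := w1_ae hΨ hO hD (cuV D ψ)
    rw [← hw] at h0
    filter_upwards [h0, hwf] with x h1 h2 hx
    have hx1 : χ x = 1 := hx
    have hxK := hSK x hx1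
    rw [h1, h2, hx1, one_mul, indicator_of_mem (hs hxK), (hder x hxK).2.1]
  have b2 : ∫ x in {x | χ x = 1}, ‖(m44 (w2 D Ψ (cuV D ψ)) (j4 D q) : ℂ → ℂ) x‖ ^ 2 ≤
      ‖cl4 (fun x => χ x * px ρ x)‖ ^ 2 * ‖j4 D q‖ ^ 2 := by
    refine fbb_comp hSm m2 ?_
    have h0 := w2_ae hΨ hO hD (cuV D ψ)
    rw [← hw] at h0
    filter_upwards [h0, hws] with x h1 h2 hx
    have hx1 : χ x = 1 := hx
    have hxK := hSK x hx1
    rw [h1, h2, hx1, one_mul, norm_neg, indicator_of_mem (hs hxK), (hder x hxK).1]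
  have hX0 : 0 ≤ C₁ * (‖w‖ * (‖w‖ + ‖cl2 fun x => χ x * lap ρ x‖)) := by positivity
  calc (∫ x in {x | χ x = 1}, ‖(m44 (w1 D Ψ (cuV D ψ)) (j4 D q) : ℂ → ℂ) x‖ ^ 2) +
        ∫ x in {x | χ x = 1}, ‖(m44 (w2 D Ψ (cuV D ψ)) (j4 D q) : ℂ → ℂ) x‖ ^ 2
      ≤ ‖cl4 (fun x => χ x * py ρ x)‖ ^ 2 * ‖j4 D q‖ ^ 2 +
        ‖cl4 (fun x => χ x * px ρ x)‖ ^ 2 * ‖j4 D q‖ ^ 2 := add_le_add b1 b2
    _ ≤ C₁ * (‖w‖ * (‖w‖ + ‖cl2 fun x => χ x * lap ρ x‖)) * (C₂ ^ 2 * (‖js D q‖ * ‖q‖)) +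
        C₁ * (‖w‖ * (‖w‖ + ‖cl2 fun x => χ x * lap ρ x‖)) * (C₂ ^ 2 * (‖js D q‖ * ‖q‖)) := by
      gcongr
    _ = 2 * C₁ * C₂ ^ 2 * (‖w‖ * (‖w‖ + ‖cl2 fun x => χ x * lap ρ x‖)) * (‖js D q‖ * ‖q‖) := by ring

/-- **Interior part.** Proof. Density in `v` (`prI_cont` with fixed `q`; `v ↦ iot D v`, `v ↦ mm χ v` are continuous), so
`v = cuV ψ`. Take `χ₂ ∈ C_c^∞(D)` with `χ₂ = 1` near `tsupport χ` (`exists_contDiff_...`), `ρ := ψ - χ₂ Ψ` (smooth): on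
`tsupport χ` the derivatives of `ρ` are those of `ψ - Ψ`. `prI_wq`; where `χ = 1`: `m44 (w1) (j4 q) = m44 (cl4 (χ ρ_y)) (j4 q)`,
`m44_norm`, `lady_chi`, `exists_LadS`; `∫_{tsupport χ} |∇ρ|² ≤ ‖w'‖²`, `cl2 (χ Δρ) = -mm χ (v - cuI Ψ)`. -/
theorem int_prod (hO : IsOpen D) (hD : Bornology.IsBounded D) {χ : ℂ → ℂ} (hχ : Cc χ) (hs : tsupport χ ⊆ D) :
    ∃ C : ℝ, 0 ≤ C ∧ ∀ {Ψ : ℂ → ℂ} {B : ℝ}, IsBgF D Ψ B → ∀ (v : VD D) (q : SV D),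
      prI {x | χ x = 1} ((iot D v : XD D) - gpI D Ψ : Y2) ((js D q : XS D) : L2c) ≤
        C * (‖((iot D v : XD D) - gpI D Ψ : Y2)‖ *
          (‖((iot D v : XD D) - gpI D Ψ : Y2)‖ + ‖mm χ ((v : L2c) - cuI D Ψ)‖)) * (‖js D q‖ * ‖q‖) := by
  obtain ⟨C₁, hC₁, hlady⟩ := lady_chi hχ
  obtain ⟨C₂, hC₂⟩ := exists_LadS hD
  obtain ⟨χ₂, hχ₂, hs₂, hone⟩ := fbb_cut hχ.cpt hO hs
  obtain ⟨c, hc⟩ := hχ.cpt.exists_bound_of_continuous hχ.smo.continuous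
  have hBm : Bm χ c := ⟨hχ.smo.continuous.aestronglyMeasurable, hc⟩
  have hSm : MeasurableSet {x | χ x = 1} :=
    (isClosed_eq hχ.smo.continuous continuous_const).measurableSet
  have hSK : ∀ x, χ x = 1 → x ∈ tsupport χ := fun x hx =>
    subset_tsupport _ (by show χ x ≠ 0; rw [hx]; exact one_ne_zero)
  refine ⟨2 * C₁ * C₂ ^ 2, by positivity, fun {Ψ B} hΨ v q => ?_⟩
  have c0 : Continuous fun v : VD D => ((v, q) : VD D × SV D) := by fun_prop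
  have c1 : Continuous fun v : VD D =>
      prI {x | χ x = 1} ((iot D v : XD D) - gpI D Ψ : Y2) ((js D q : XS D) : L2c) :=
    Continuous.comp (g := fun z : VD D × SV D =>
      prI {x | χ x = 1} ((iot D z.1 : XD D) - gpI D Ψ : Y2) ((js D z.2 : XS D) : L2c))
      (f := fun v : VD D => ((v, q) : VD D × SV D)) (prI_cont hΨ hO hD hSm) c0
  have c3 : Continuous fun v : VD D => ((iot D v : XD D) - gpI D Ψ : Y2) :=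
    (continuous_subtype_val.comp (iot D).continuous).sub continuous_const
  have c4 : Continuous fun v : VD D => mm χ ((v : L2c) - cuI D Ψ) :=
    (mm χ).continuous.comp (continuous_subtype_val.sub continuous_const)
  have c2 : Continuous fun v : VD D => 2 * C₁ * C₂ ^ 2 * (‖((iot D v : XD D) - gpI D Ψ : Y2)‖ *
      (‖((iot D v : XD D) - gpI D Ψ : Y2)‖ + ‖mm χ ((v : L2c) - cuI D Ψ)‖)) * (‖js D q‖ * ‖q‖) :=
    (continuous_const.mul (c3.norm.mul (c3.norm.add c4.norm))).mul continuous_const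
  refine isClosed_property (cuV_dense D) (isClosed_le c1 c2) (fun ψ => ?_) v
  exact fbb_core hO hD hχ hs hC₁ hlady hC₂ hχ₂ hs₂ hone hBm hSm hSK hΨ q ψ _ rfl

end

end Pool.Agent.Lib.MP_79abb3_an.PD
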