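import Pool.Agent.Lib.MP_79abb3_an.SC.FlGc1

/-!
Theorem D, block F, bounds (6.6): the product of `E f` and a velocity `u[T g]`.
-/

set_option autoImplicit false
set_option linter.unusedSectionVars false

open MeasureTheory Set Filter Topology Function
open scoped ENNReal InnerProductSpace

namespace Pool.Agent.Lib.MP_79abb3_an.SC

open Pool.Agent.Lib.MP_79abb3_an.P25

section
variable {H : ℝ} [hH : Fact (0 < H)]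

private theorem fbc_io (ω : ℝ) (f : HH H) :
    io (fun n : ℤ => (Ez (ω * n) (f n) : CI H)) = ⇑(EE ω f) := by
  funext n
  rw [EE_apply, E2_apply]
  rfl

/-- Interpolation: `|Λ^{1/2} x|² ≤ |x| |Λ x|`. -/
private theorem fbc_interp {lam : ℤ → ℝ} (h1 : ∀ n, 1 ≤ lam n) {x : ℤ → Z2 H} (h : S2 lam 1 x) :
    N2 lam (1 / 2) x ^ 2 ≤ N2 lam 0 x * N2 lam 1 x := by
  have l0 : ∀ n, 0 < lam n := fun n => lt_of_lt_of_le one_pos (h1 n)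
  have p0 : ∀ (t : ℝ) n, 0 ≤ lam n ^ t * ‖x n‖ := fun t n =>
    mul_nonneg (Real.rpow_nonneg (l0 n).le _) (norm_nonneg _)
  obtain ⟨a1, a2⟩ := cs_tsum (x := fun n => lam n ^ (0:ℝ) * ‖x n‖) (y := fun n => lam n ^ (1:ℝ) * ‖x n‖)
    (p0 _) (p0 _) (S2_mono h1 zero_le_one h).1 h
  rw [N2_sq]
  refine le_trans (le_of_eq ?_) a2
  refine tsum_congr fun n => ?_
  have e : (lam n ^ (1 / 2 : ℝ)) ^ 2 = lam n ^ (1 : ℝ) := by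
    rw [← Real.rpow_natCast (lam n ^ (1 / 2 : ℝ)) 2, ← Real.rpow_mul (l0 n).le]
    congr 1; push_cast; ring
  rw [mul_pow, e, Real.rpow_zero, one_mul]
  ring

/-- `|Λ E f| ≤ (N₀ H + 1) |f|` -/
private theorem fbc_one (G : Geo H) (f : HH H) : S2 G.lam 1 (⇑(EE G.ω f)) ∧
    N2 G.lam 1 (⇑(EE G.ω f)) ≤ (G.N₀ * H + 1) * ‖f‖ := by
  have hH0 := hH.out
  have hN := G.hN
  have hC : 0 ≤ G.N₀ * H + 1 := by positivity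
  have key : ∀ n, (G.lam n ^ (1:ℝ) * ‖EE G.ω f n‖) ^ 2 ≤ (G.N₀ * H + 1) ^ 2 * ‖f n‖ ^ 2 := by
    intro n
    rw [Real.rpow_one, EE_apply, ← mul_pow]
    refine pow_le_pow_left₀ (mul_nonneg (G.lw.pos n).le (norm_nonneg _)) ?_ 2
    have h1 : ‖E2 (G.ω * n) (f n)‖ ≤ H * ‖f n‖ := (E2 (G.ω * n)).le_of_opNorm_le (norm_E2_le _) _
    have h2 := norm_kE2_le (G.ω * n) (f n)
    unfold Geo.lam
    rw [add_mul, add_mul, one_mul]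
    refine add_le_add ?_ h2
    rw [mul_assoc]
    exact mul_le_mul_of_nonneg_left h1 (by linarith)
  have hs : Summable fun n => (G.N₀ * H + 1) ^ 2 * ‖f n‖ ^ 2 := (l2_summable f).mul_left _
  have h2 : S2 G.lam 1 (⇑(EE G.ω f)) := Summable.of_nonneg_of_le (fun n => sq_nonneg _) key hs
  refine ⟨h2, ?_⟩
  have h3 : N2 G.lam 1 (⇑(EE G.ω f)) ^ 2 ≤ ((G.N₀ * H + 1) * ‖f‖) ^ 2 := by
    rw [N2_sq]
    refine (h2.tsum_le_tsum key hs).trans ?_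
    rw [tsum_mul_left, ← l2_norm_sq, mul_pow]
  exact abs_le_of_sq_le_sq' h3 (by positivity) |>.2

/-- `N_{1/4,∞}(E f)⁴ ≤ C |E f| |f|³`. Proof: as `Geo.N2_Vf` (ExA): `agmon_fam0` with `s = 1/4`, `DZ (Ez k f) (f - |k| E f)`
(`Ez_dz`), zero at `z = 0` (`Ez_zero`), `|∂_z E f| ≤ 2 |f|` (`norm_tZ_le`); interpolation
`|Λ^{1/2} E f|² ≤ |E f| |Λ E f|` (Cauchy and Schwarz) and `|Λ E f| ≤ C |f|` (`norm_kE2_le`, `lam n = N₀ + |ω n|`). -/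
theorem EE_quarter (G : Geo H) : ∃ C : ℝ, 0 ≤ C ∧ ∀ f : HH H,
    S2 G.lam (1 / 4) (fun n : ℤ => (Ez (G.ω * n) (f n) : CI H)) ∧
    N2 G.lam (1 / 4) (fun n : ℤ => (Ez (G.ω * n) (f n) : CI H)) ^ 4 ≤ C * (‖EE G.ω f‖ * ‖f‖ ^ 3) := by
  have hH0 := hH.out
  have hN := G.hN
  refine ⟨16 * (G.N₀ * H + 1), by positivity, fun f => ?_⟩
  have h2 : (2 : ℝ) * (1 / 4) = 1 / 2 := by norm_num
  have eZ : (fun n => f n - ((|G.ω * n| : ℝ) : ℂ) • (iota (Ez (G.ω * n) (f n) : CI H) : Z2 H)) =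
      tZ G.ω (⇑f) := rfl
  obtain ⟨o1, o2⟩ := fbc_one G f
  obtain ⟨z1, z2⟩ := (S2_tZ G.lw.h1 G.ω (S2_l2 G.lam f)).1
  have h1 := agmon_fam0 (s := 1 / 4) G.lw.h1 (fun n : ℤ => Ez_dz (G.ω * n) (f n))
    (fun n => ⟨0, ⟨le_rfl, hH0.le⟩, Ez_zero _ _⟩)
    (by rw [fbc_io, h2]; exact (S2_mono G.lw.h1 (by norm_num) o1).1) (by rw [eZ]; exact z1)
  rw [eZ, h2, fbc_io] at h1
  refine ⟨h1.1, ?_⟩
  have h3 := fbc_interp G.lw.h1 o1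
  rw [N2_l2] at h3 z2
  set A := N2 G.lam (1 / 2) (⇑(EE G.ω f)) with hA
  have hA0 : 0 ≤ A := N2_nonneg _ _
  have hz0 : 0 ≤ N2 G.lam 0 (tZ G.ω (⇑f)) := N2_nonneg _ _
  have hf := norm_nonneg f
  have he := norm_nonneg (EE G.ω f)
  have h4 : N2 G.lam (1 / 4) (fun n : ℤ => (Ez (G.ω * n) (f n) : CI H)) ^ 2 ≤ 4 * (A * ‖f‖) := by
    refine h1.2.trans ?_
    nlinarith [mul_le_mul_of_nonneg_left z2 hA0]
  have h5 : A ^ 2 ≤ ‖EE G.ω f‖ * ((G.N₀ * H + 1) * ‖f‖) :=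
    h3.trans (mul_le_mul_of_nonneg_left o2 he)
  calc N2 G.lam (1 / 4) (fun n : ℤ => (Ez (G.ω * n) (f n) : CI H)) ^ 4
      = (N2 G.lam (1 / 4) (fun n : ℤ => (Ez (G.ω * n) (f n) : CI H)) ^ 2) ^ 2 := by ring
    _ ≤ (4 * (A * ‖f‖)) ^ 2 := pow_le_pow_left₀ (sq_nonneg _) h4 2
    _ = 16 * ‖f‖ ^ 2 * A ^ 2 := by ring
    _ ≤ 16 * ‖f‖ ^ 2 * (‖EE G.ω f‖ * ((G.N₀ * H + 1) * ‖f‖)) :=
        mul_le_mul_of_nonneg_left h5 (by positivity)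
    _ = _ := by ring

/-- `|(E f) u[T g]|² ≤ C |Λ^{3/8} T g|² (|E f| |f|³)^{1/2}`. Proof: as `uq_bd` (FlGc1): `⇑(EE ω f) = io (fun n => Ez (ω n) (f n))`
(`E2_apply`), `pz_io_comm`, `S2_pz` with `3/8`, `1/4`, `0`, `G.S2_iu`, `N2_TT`, `EE_quarter`. -/
theorem prod_EE (G : Geo H) : ∃ C : ℝ, 0 ≤ C ∧ ∀ f g : HH H,
    (S2 G.lam 0 (pz (⇑(EE G.ω f)) (uV G.ω (Vf G.ω g))) ∧ N2 G.lam 0 (pz (⇑(EE G.ω f)) (uV G.ω (Vf G.ω g))) ^ 2 ≤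
      C * (‖LT G.ω G.lam (3 / 8) g‖ ^ 2 * √(‖EE G.ω f‖ * ‖f‖ ^ 3))) ∧
    (S2 G.lam 0 (pz (⇑(EE G.ω f)) (wV G.ω (Vf G.ω g))) ∧ N2 G.lam 0 (pz (⇑(EE G.ω f)) (wV G.ω (Vf G.ω g))) ^ 2 ≤
      C * (‖LT G.ω G.lam (3 / 8) g‖ ^ 2 * √(‖EE G.ω f‖ * ‖f‖ ^ 3))) := by
  obtain ⟨C, hC, hq⟩ := EE_quarter G
  refine ⟨4 * CP G.lam (3 / 8 + 1 / 4 + 0) ^ 2 * √C, by positivity, fun f g => ?_⟩
  obtain ⟨s1, n1⟩ := hq f
  have pw : PrW G.lam (3 / 8) (1 / 4) 0 :=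
    G.prW (by norm_num) (by norm_num) (by norm_num) (by norm_num)
  have h1 : N2 G.lam (1 / 4) (fun n : ℤ => (Ez (G.ω * n) (f n) : CI H)) ^ 2 ≤
      √C * √(‖EE G.ω f‖ * ‖f‖ ^ 3) := by
    rw [← Real.sqrt_mul hC]
    refine Real.le_sqrt_of_sq_le ?_
    refine le_trans (le_of_eq ?_) n1
    ring
  have one : ∀ v : ℤ → CI H, S2 G.lam (3 / 8) (io v) →
      N2 G.lam (3 / 8) (io v) ≤ 2 * N2 G.lam (3 / 8) (⇑(TT G.ω g)) →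
      (S2 G.lam 0 (pz (⇑(EE G.ω f)) v) ∧ N2 G.lam 0 (pz (⇑(EE G.ω f)) v) ^ 2 ≤
        4 * CP G.lam (3 / 8 + 1 / 4 + 0) ^ 2 * √C *
          (‖LT G.ω G.lam (3 / 8) g‖ ^ 2 * √(‖EE G.ω f‖ * ‖f‖ ^ 3))) := by
    intro v sv nv
    obtain ⟨p1, p2⟩ := S2_pz pw sv s1
    rw [neg_zero] at p1 p2
    rw [← fbc_io, pz_io_comm]
    refine ⟨p1, ?_⟩
    rw [N2_TT G (by norm_num)] at nv
    have hc := CP_nonneg (lam := G.lam) (3 / 8 + 1 / 4 + 0)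
    have hv := N2_nonneg (lam := G.lam) (3 / 8) (io v)
    have hF := N2_nonneg (lam := G.lam) (1 / 4) (fun n : ℤ => (Ez (G.ω * n) (f n) : CI H))
    have h2 : N2 G.lam (3 / 8) (io v) ^ 2 ≤ 4 * ‖LT G.ω G.lam (3 / 8) g‖ ^ 2 := by
      calc N2 G.lam (3 / 8) (io v) ^ 2 ≤ (2 * ‖LT G.ω G.lam (3 / 8) g‖) ^ 2 := pow_le_pow_left₀ hv nv 2
        _ = _ := by ring
    refine (pow_le_pow_left₀ (N2_nonneg _ _) p2 2).trans ?_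
    rw [mul_pow, mul_pow]
    calc CP G.lam (3 / 8 + 1 / 4 + 0) ^ 2 * N2 G.lam (3 / 8) (io v) ^ 2 *
          N2 G.lam (1 / 4) (fun n : ℤ => (Ez (G.ω * n) (f n) : CI H)) ^ 2
        ≤ CP G.lam (3 / 8 + 1 / 4 + 0) ^ 2 * (4 * ‖LT G.ω G.lam (3 / 8) g‖ ^ 2) *
          (√C * √(‖EE G.ω f‖ * ‖f‖ ^ 3)) := by gcongr
      _ = _ := by ring
  obtain ⟨⟨u1, u2⟩, ⟨w1, w2⟩⟩ := G.S2_iu g
  have w2' : N2 G.lam (3 / 8) (io (wV G.ω (Vf G.ω g))) ≤ 2 * N2 G.lam (3 / 8) (⇑(TT G.ω g)) :=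
    w2.trans (mul_le_mul_of_nonneg_right one_le_two (N2_nonneg _ _))
  exact ⟨one _ u1 u2, one _ w1 w2'⟩

end

end Pool.Agent.Lib.MP_79abb3_an.SC
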