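import Pool.Agent.Lib.MP_79abb3_an.PD.FbC
import Pool.Agent.Lib.MP_79abb3_an.PD.CoC3

/-!
Theorem D, block F, bounds (6.6): the product of a function and a velocity in the strip, smooth case.
-/

set_option autoImplicit false
set_option linter.unusedSectionVars false

open MeasureTheory Set Filter Topology Function
open scoped ENNReal InnerProductSpace ComplexConjugate

namespace Pool.Agent.Lib.MP_79abb3_an.PD

open Pool.Agent.Lib.MP_79abb3_an.SC Pool.Agent.Lib.MP_79abb3_an.P25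

section
variable {H : ℝ} [hH : Fact (0 < H)] {θ : ℝ × ℝ → ℂ}

private theorem fbd_zero (h : PC H θ) (h0 : ∀ y, θ (y, 0) = 0) (n : ℤ) :
    ex (fmc θ n : CI H) 0 = 0 := by
  have hz : ∀ {F : ℝ × ℝ → ℝ}, Continuous F → (∀ y, F (y, 0) = 0) → ex (fam F n : CI H) 0 = 0 := by
    intro F hF hc
    rw [ex_fam hF n zero_memI, fco]
    simp only [hc, Complex.ofReal_zero, zero_mul, intervalIntegral.integral_zero, mul_zero]
  unfold fmc
  rw [ex_add, ex_smul, hz h.re.smooth.continuous (fun y => by show (θ (y, 0)).re = 0; rw [h0 y]; rfl),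
    hz h.im.smooth.continuous (fun y => by show (θ (y, 0)).im = 0; rw [h0 y]; rfl), mul_zero, add_zero]

private theorem fbd_z (g : CI H) : (0:ℂ) • g = 0 :=
  ci_ext fun z _ => by rw [ex_smul, zero_mul]; rfl

private theorem fbd_Ez (h : PC H θ) (ht : VanC H θ) (h0 : ∀ y, θ (y, 0) = 0) (n : ℤ) :
    Ez (Real.pi / H * n) (iota (Vf (Real.pi / H) (fHc (dLc θ)) n)) = (fmc θ n : CI H) := by
  have e : Ez (Real.pi / H * n) (iota (ka (Real.pi / H) n • fmc θ n + fmc (dZc θ) n)) =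
      (fmc θ n - ex (fmc θ n : CI H) 0 • fe (-|Real.pi / H * n|) : CI H) :=
    Ez_bs (Real.pi / H * n) (fmc_isD h n)
  rw [Vf_ll h ht, e, fbd_zero h h0 n, fbd_z, sub_zero]

private theorem fbd_negn (h : PC H θ) (n : ℤ) : (fmc (fun q => -θ q) n : CI H) = -fmc θ n := by
  unfold fmc
  have e1 : (fun q => (-θ q).re) = fun q => (-1 : ℝ) * (θ q).re := by
    funext q
    rw [Complex.neg_re]; ring
  have e2 : (fun q => (-θ q).im) = fun q => (-1 : ℝ) * (θ q).im := by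
    funext q
    rw [Complex.neg_im]; ring
  rw [e1, e2, fam_smul (-1) h.re.smooth.continuous, fam_smul (-1) h.im.smooth.continuous]
  refine ci_ext fun z _ => ?_
  rw [ex_add, ex_smul, ex_smul, ex_smul, ex_neg, ex_add, ex_smul]
  push_cast
  ring

/-- the `L²` norm of a product from the bound of the modes -/
private theorem fbd_one (G : Geo H) {θ' p : ℝ × ℝ → ℂ} (h : PC H θ') (hp : PC H p) {R : ℝ}
    (s : S2 G.lam 0 (pz (⇑(fHc θ' : HH H)) (fmc p : ℤ → CI H)))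
    (hR : SC.N2 G.lam 0 (pz (⇑(fHc θ' : HH H)) (fmc p : ℤ → CI H)) ^ 2 ≤ R) :
    ∫ q in Cel H, ‖p q‖ ^ 2 * ‖θ' q‖ ^ 2 ≤ 2 * H * R := by
  have hH0 : 0 < H := hH.out
  obtain ⟨K, hK⟩ : ∃ K, K = SC.N2 G.lam 0 (pz (⇑(fHc θ' : HH H)) (fmc p : ℤ → CI H)) := ⟨_, rfl⟩
  have hK0 : 0 ≤ K := by rw [hK]; exact N2_nonneg _ _
  have hΘ : PC H fun q => θ' q * p q := h.mul hp
  have e1 := dp_fHc hΘ h hp
  have e2 : ∫ q in Cel H, conj (θ' q * p q) * (θ' q * p q) =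
      ((∫ q in Cel H, ‖θ' q * p q‖ ^ 2 : ℝ) : ℂ) := by
    rw [← integral_complex_ofReal]
    congr 1
    funext q
    rw [mul_comm, Complex.mul_conj, Complex.normSq_eq_norm_sq]
  have e3 := norm_fHc_sq hΘ
  have e4 : dp (⇑(fHc (fun q => θ' q * p q) : HH H)) (pz (⇑(fHc θ' : HH H)) (fmc p : ℤ → CI H)) =
      ((‖(fHc (fun q => θ' q * p q) : HH H)‖ ^ 2 : ℝ) : ℂ) := by
    rw [e1, e2, e3]
    push_cast
    rfl
  have e5 := SC.dp_bd G (fHc fun q => θ' q * p q) s hK.ge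
  rw [e4, Complex.norm_real, Real.norm_of_nonneg (by positivity)] at e5
  have e6 : ‖(fHc (fun q => θ' q * p q) : HH H)‖ ≤ K := by
    by_contra hc
    push Not at hc
    have : 0 < ‖(fHc (fun q => θ' q * p q) : HH H)‖ := lt_of_le_of_lt hK0 hc
    nlinarith
  have e7 : ‖(fHc (fun q => θ' q * p q) : HH H)‖ ^ 2 ≤ R := by
    refine le_trans ?_ hR
    rw [← hK]
    exact pow_le_pow_left₀ (norm_nonneg _) e6 2
  rw [e3] at e7
  have e8 : ∫ q in Cel H, ‖p q‖ ^ 2 * ‖θ' q‖ ^ 2 = ∫ q in Cel H, ‖θ' q * p q‖ ^ 2 := by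
    congr 1
    funext q
    rw [norm_mul]; ring
  rw [e8]
  have e9 : ∫ q in Cel H, ‖θ' q * p q‖ ^ 2 = 2 * H * ((2 * H)⁻¹ * ∫ q in Cel H, ‖θ' q * p q‖ ^ 2) := by
    field_simp
  rw [e9]
  exact mul_le_mul_of_nonneg_left e7 (by positivity)

/-- **The velocity of `-Δθ` is `(θ_z, -θ_y)`** for `θ(y,0) = 0`: `Vf_ll`, `Ez k (iota (|k| θ_n + θ_n')) = θ_n` because
`θ_n(0) = 0` (as in the proof of `EE_bHc` or `uV_ll`). -/
private theorem fbd_uV_ll0 (h : PC H θ) (ht : VanC H θ) (h0 : ∀ y, θ (y, 0) = 0) (n : ℤ) :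
    uV (Real.pi / H) (Vf (Real.pi / H) (fHc (dLc θ))) n = (fmc (dZc θ) n : CI H) := by
  unfold uV
  rw [fbd_Ez h ht h0, Vf_ll h ht]
  abel

private theorem fbd_wV_ll0 (h : PC H θ) (ht : VanC H θ) (h0 : ∀ y, θ (y, 0) = 0) (n : ℤ) :
    wV (Real.pi / H) (Vf (Real.pi / H) (fHc (dLc θ))) n = (-(fmc (dYc θ) n) : CI H) := by
  unfold wV
  rw [fbd_Ez h ht h0, fmc_yy h]
  refine ci_ext fun z _ => ?_
  rw [ex_smul, ex_neg, ex_smul, neg_mul]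

/-- Proof: `prod_EE` for `f = bHc θ'` (`EE_bHc`), `g = fHc (dLc θ)`, the two lemmas above, `G.hω`; for `p = θ_z` or `p = -θ_y` and
`Θ = θ' p`: `‖fHc Θ‖² = dp (fHc Θ) (pz (fHc θ') (fmc p)) ≤ ‖fHc Θ‖ N2 0 (pz ..)` (`dp_fHc`, `norm_fHc_sq`,
`SC.dp_bd` of FlGc1), so `(2H)⁻¹ ∫ |θ' p|² ≤ N2 0 (pz ..)²`. -/
theorem strip_prod (G : Geo H) : ∃ C : ℝ, 0 ≤ C ∧ ∀ θ' θ : ℝ × ℝ → ℂ, PC H θ' → (∀ y, θ' (y, 0) = 0) →
    PC H θ → VanC H θ → (∀ y, θ (y, 0) = 0) →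
    ∫ q in Cel H, (‖dYc θ q‖ ^ 2 + ‖dZc θ q‖ ^ 2) * ‖θ' q‖ ^ 2 ≤
      C * (‖LT G.ω G.lam (3 / 8) (fHc (dLc θ) : HH H)‖ ^ 2 * √(‖(fHc θ' : HH H)‖ * ‖(bHc θ' : HH H)‖ ^ 3)) := by
  obtain ⟨C, hC, hpr⟩ := prod_EE G
  have hH0 : 0 < H := hH.out
  refine ⟨4 * H * C, by positivity, fun θ' θ h' h0' h ht h0 => ?_⟩
  obtain ⟨⟨s1, n1⟩, ⟨s2, n2⟩⟩ := hpr (bHc θ') (fHc (dLc θ))
  have eE : EE G.ω (bHc θ') = (fHc θ' : HH H) := by
    rw [G.hω]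
    exact EE_bHc h' h0'
  have eu : uV G.ω (Vf G.ω (⇑(fHc (dLc θ) : HH H))) = (fmc (dZc θ) : ℤ → CI H) := by
    rw [G.hω]
    funext n
    exact fbd_uV_ll0 h ht h0 n
  have ew : wV G.ω (Vf G.ω (⇑(fHc (dLc θ) : HH H))) = (fmc (fun q => -dYc θ q) : ℤ → CI H) := by
    rw [G.hω]
    funext n
    rw [fbd_wV_ll0 h ht h0 n, fbd_negn h.yy]
  rw [eE, eu] at s1 n1
  rw [eE, ew] at s2 n2
  have b1 := fbd_one G h' h.zz s1 n1
  have b2 := fbd_one G h' h.yy.neg s2 n2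
  have e1 : ∫ q in Cel H, (‖dYc θ q‖ ^ 2 + ‖dZc θ q‖ ^ 2) * ‖θ' q‖ ^ 2 =
      (∫ q in Cel H, ‖-dYc θ q‖ ^ 2 * ‖θ' q‖ ^ 2) + ∫ q in Cel H, ‖dZc θ q‖ ^ 2 * ‖θ' q‖ ^ 2 := by
    have i1 : IntegrableOn (fun q => ‖-dYc θ q‖ ^ 2 * ‖θ' q‖ ^ 2) (Cel H) :=
      ((h.yy.neg.smooth.continuous.norm.pow 2).mul
        (h'.smooth.continuous.norm.pow 2)).continuousOn.integrableOn_compact isCompact_Cel
    have i2 : IntegrableOn (fun q => ‖dZc θ q‖ ^ 2 * ‖θ' q‖ ^ 2) (Cel H) :=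
      ((h.zz.smooth.continuous.norm.pow 2).mul
        (h'.smooth.continuous.norm.pow 2)).continuousOn.integrableOn_compact isCompact_Cel
    rw [← integral_add i1 i2]
    congr 1
    funext q
    rw [norm_neg]; ring
  rw [e1]
  refine (add_le_add b2 b1).trans (le_of_eq ?_)
  ring

end

end Pool.Agent.Lib.MP_79abb3_an.PD
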