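import Pool.Agent.Lib.MP_79abb3_an.PD.ScA2
import Pool.Agent.Lib.MP_79abb3_an.PD.SpEa2

/-!
Theorem D, block F, bounds: the fields `w' = u - U`, the integrals `∫_S |w'|² |o|²`.
-/

set_option autoImplicit false
set_option linter.unusedSectionVars false

open MeasureTheory Set Filter Topology Function
open scoped ENNReal InnerProductSpace ComplexConjugate

namespace Pool.Agent.Lib.MP_79abb3_an.PD

open Pool.Agent.Lib.MP_79abb3_an.SC

/-- Background stream functions of `D`. -/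
structure IsBgF (D : Set ℂ) (Ψ : ℂ → ℂ) (B : ℝ) : Prop where
  smo : ContDiffOn ℝ ((⊤ : ℕ∞) : WithTop ℕ∞) Ψ D
  bd : ∀ x ∈ D, ‖px Ψ x‖ ≤ B ∧ ‖py Ψ x‖ ≤ B ∧ ‖lap Ψ x‖ ≤ B

/-- the field `∇^⊥ Ψ` in `D` -/
noncomputable def gpI (D : Set ℂ) (Ψ : ℂ → ℂ) : Y2 :=
  WithLp.toLp 2 (cl2 (D.indicator (py Ψ)), -cl2 (D.indicator (px Ψ)))

/-- the vorticity `-ΔΨ` in `D` -/
noncomputable def cuI (D : Set ℂ) (Ψ : ℂ → ℂ) : L2c := -cl2 (D.indicator (lap Ψ))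

/-- `∫_S |w|² |o|²` -/
noncomputable def prI (S : Set ℂ) (w : Y2) (o : L2c) : ℝ :=
  ∫ x in S, (‖(w.fst : ℂ → ℂ) x‖ ^ 2 + ‖(w.snd : ℂ → ℂ) x‖ ^ 2) * ‖(o : ℂ → ℂ) x‖ ^ 2

private instance hfb442 : ENNReal.HolderTriple 4 4 2 := ⟨by
  have : (4 : ℝ≥0∞)⁻¹ = 2⁻¹ * 2⁻¹ := by
    rw [← ENNReal.mul_inv (by norm_num) (by norm_num)]; norm_num
  rw [this, ← two_mul, ← mul_assoc, ENNReal.mul_inv_cancel (by norm_num) (by norm_num), one_mul]⟩

/-- the product of two `L⁴` functions -/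
noncomputable def m44 : L4c →L[ℂ] L4c →L[ℂ] L2c :=
  (ContinuousLinearMap.mul ℂ ℂ).holderL volume 4 4 2

theorem m44_coe (f g : L4c) : (m44 f g : ℂ → ℂ) =ᵐ[volume] fun x => f x * g x :=
  (ContinuousLinearMap.mul ℂ ℂ).coeFn_holder (r := 2) f g

theorem m44_norm (f g : L4c) : ‖m44 f g‖ ≤ ‖f‖ * ‖g‖ := by
  have h := (ContinuousLinearMap.mul ℂ ℂ).norm_holder_apply_apply_le (r := 2) f g
  have h1 : ‖ContinuousLinearMap.mul ℂ ℂ‖ ≤ 1 := ContinuousLinearMap.opNorm_mul_le ℂ ℂ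
  refine h.trans ?_
  have := mul_nonneg (norm_nonneg f) (norm_nonneg g)
  nlinarith [norm_nonneg f, norm_nonneg g]

theorem L2_sq_int (f : L2c) : Integrable fun x => ‖(f : ℂ → ℂ) x‖ ^ 2 :=
  (Lp.memLp f).integrable_norm_pow (by norm_num)

theorem L2_norm_sq (f : L2c) : ‖f‖ ^ 2 = ∫ x, ‖(f : ℂ → ℂ) x‖ ^ 2 := by
  have h := inner_self_eq_norm_sq_to_K (𝕜 := ℂ) f
  rw [L2.inner_def] at h
  have h2 : ∫ x, ⟪(f : ℂ → ℂ) x, (f : ℂ → ℂ) x⟫_ℂ = ((∫ x, ‖(f : ℂ → ℂ) x‖ ^ 2 : ℝ) : ℂ) := by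
    rw [← integral_complex_ofReal]
    congr 1
    funext x
    rw [inner_self_eq_norm_sq_to_K]
    norm_cast
  rw [h2] at h
  exact Complex.ofReal_injective (by rw [h, Complex.ofReal_pow]; rfl)

section
variable {S : Set ℂ} {w : Y2} {o : L2c} {a1 a2 b : L4c}

/-- the integrand of `prI` in terms of products in `L²` -/
theorem prI_ae (h1 : (a1 : ℂ → ℂ) =ᵐ[volume] w.fst) (h2 : (a2 : ℂ → ℂ) =ᵐ[volume] w.snd)
    (h3 : (b : ℂ → ℂ) =ᵐ[volume] o) :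
    (fun x => (‖(w.fst : ℂ → ℂ) x‖ ^ 2 + ‖(w.snd : ℂ → ℂ) x‖ ^ 2) * ‖(o : ℂ → ℂ) x‖ ^ 2) =ᵐ[volume]
      fun x => ‖(m44 a1 b : ℂ → ℂ) x‖ ^ 2 + ‖(m44 a2 b : ℂ → ℂ) x‖ ^ 2 := by
  filter_upwards [h1, h2, h3, m44_coe a1 b, m44_coe a2 b] with x e1 e2 e3 e4 e5
  rw [e4, e5, ← e1, ← e2, ← e3, norm_mul, norm_mul]
  ring

theorem prI_integrable (h1 : (a1 : ℂ → ℂ) =ᵐ[volume] w.fst) (h2 : (a2 : ℂ → ℂ) =ᵐ[volume] w.snd)
    (h3 : (b : ℂ → ℂ) =ᵐ[volume] o) :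
    Integrable fun x => (‖(w.fst : ℂ → ℂ) x‖ ^ 2 + ‖(w.snd : ℂ → ℂ) x‖ ^ 2) * ‖(o : ℂ → ℂ) x‖ ^ 2 :=
  ((L2_sq_int _).add (L2_sq_int _)).congr (prI_ae h1 h2 h3).symm

theorem prI_eq (h1 : (a1 : ℂ → ℂ) =ᵐ[volume] w.fst) (h2 : (a2 : ℂ → ℂ) =ᵐ[volume] w.snd)
    (h3 : (b : ℂ → ℂ) =ᵐ[volume] o) :
    prI S w o = (∫ x in S, ‖(m44 a1 b : ℂ → ℂ) x‖ ^ 2) + ∫ x in S, ‖(m44 a2 b : ℂ → ℂ) x‖ ^ 2 := by
  rw [← integral_add (L2_sq_int _).integrableOn (L2_sq_int _).integrableOn]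
  exact integral_congr_ae (ae_restrict_of_ae (prI_ae h1 h2 h3))

theorem prI_nonneg (S : Set ℂ) (w : Y2) (o : L2c) : 0 ≤ prI S w o :=
  integral_nonneg fun _ => by positivity

end

/-- the integral over a set is continuous on `L²` -/
theorem L2_int_cont (S : Set ℂ) (hS : MeasurableSet S) :
    Continuous fun f : L2c => ∫ x in S, ‖(f : ℂ → ℂ) x‖ ^ 2 := by
  have hb : Bm (S.indicator fun _ => (1:ℂ)) 1 := by
    refine ⟨(aestronglyMeasurable_const.indicator hS), fun x => ?_⟩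
    by_cases hx : x ∈ S
    · simp [hx]
    · simp [hx]
  have e : (fun f : L2c => ∫ x in S, ‖(f : ℂ → ℂ) x‖ ^ 2) = fun f => ‖mm (S.indicator fun _ => (1:ℂ)) f‖ ^ 2 := by
    funext f
    rw [L2_norm_sq, ← integral_indicator hS]
    apply integral_congr_ae
    filter_upwards [mm_coe hb f] with x hx
    rw [hx]
    by_cases h : x ∈ S
    · simp [h]
    · simp [h]
  rw [e]
  fun_prop

section
variable {D : Set ℂ} {Ψ : ℂ → ℂ} {B : ℝ}

/-- derivatives in a direction are smooth in `D` -/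
theorem ContDiffOn.dirD {f : ℂ → ℂ} (hO : IsOpen D) (h : ContDiffOn ℝ ((⊤ : ℕ∞) : WithTop ℕ∞) f D) (e : ℂ) :
    ContDiffOn ℝ ((⊤ : ℕ∞) : WithTop ℕ∞) (fun x => fderiv ℝ f x e) D := by
  have h1 : ContDiffOn ℝ ((⊤ : ℕ∞) : WithTop ℕ∞) (fderiv ℝ f) D :=
    h.fderiv_of_isOpen hO (by exact_mod_cast le_top)
  exact h1.clm_apply contDiffOn_const

private theorem mem_aux {f : ℂ → ℂ} (hO : IsOpen D) (hD : Bornology.IsBounded D) (hf : ContinuousOn f D)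
    {B : ℝ} (hb : ∀ x ∈ D, ‖f x‖ ≤ B) (p : ℝ≥0∞) : MemLp (D.indicator f) p (volume : Measure ℂ) := by
  rw [memLp_indicator_iff_restrict hO.measurableSet]
  have : IsFiniteMeasure ((volume : Measure ℂ).restrict D) := ⟨by
    rw [Measure.restrict_apply_univ]; exact hD.measure_lt_top⟩
  exact MemLp.of_bound (hf.aestronglyMeasurable hO.measurableSet) B
    ((ae_restrict_iff' hO.measurableSet).2 (Eventually.of_forall hb))

theorem IsBgF.mem (h : IsBgF D Ψ B) (hO : IsOpen D) (hD : Bornology.IsBounded D) (p : ℝ≥0∞) :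
    MemLp (D.indicator (py Ψ)) p (volume : Measure ℂ) ∧ MemLp (D.indicator (px Ψ)) p (volume : Measure ℂ) ∧
      MemLp (D.indicator (lap Ψ)) p (volume : Measure ℂ) := by
  have hx : ContDiffOn ℝ ((⊤ : ℕ∞) : WithTop ℕ∞) (px Ψ) D := ContDiffOn.dirD hO h.smo 1
  have hy : ContDiffOn ℝ ((⊤ : ℕ∞) : WithTop ℕ∞) (py Ψ) D := ContDiffOn.dirD hO h.smo Complex.I
  have hxx : ContDiffOn ℝ ((⊤ : ℕ∞) : WithTop ℕ∞) (px (px Ψ)) D := ContDiffOn.dirD hO hx 1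
  have hyy : ContDiffOn ℝ ((⊤ : ℕ∞) : WithTop ℕ∞) (py (py Ψ)) D := ContDiffOn.dirD hO hy Complex.I
  refine ⟨mem_aux hO hD hy.continuousOn (fun x hx => (h.bd x hx).2.1) p,
    mem_aux hO hD hx.continuousOn (fun x hx => (h.bd x hx).1) p,
    mem_aux hO hD ?_ (fun x hx => (h.bd x hx).2.2) p⟩
  exact hxx.continuousOn.add hyy.continuousOn

theorem gpI_fst (h : IsBgF D Ψ B) (hO : IsOpen D) (hD : Bornology.IsBounded D) :
    ((gpI D Ψ).fst : ℂ → ℂ) =ᵐ[volume] D.indicator (py Ψ) := cl2_coe (h.mem hO hD 2).1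

theorem gpI_snd (h : IsBgF D Ψ B) (hO : IsOpen D) (hD : Bornology.IsBounded D) :
    ((gpI D Ψ).snd : ℂ → ℂ) =ᵐ[volume] fun x => -D.indicator (px Ψ) x := by
  show ((-cl2 (D.indicator (px Ψ)) : L2c) : ℂ → ℂ) =ᵐ[volume] _
  filter_upwards [Lp.coeFn_neg (cl2 (D.indicator (px Ψ))), cl2_coe (h.mem hO hD 2).2.1] with x h1 h2
  rw [h1, Pi.neg_apply, h2]

theorem cuI_coe (h : IsBgF D Ψ B) (hO : IsOpen D) (hD : Bornology.IsBounded D) :
    (cuI D Ψ : ℂ → ℂ) =ᵐ[volume] fun x => -D.indicator (lap Ψ) x := by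
  show ((-cl2 (D.indicator (lap Ψ)) : L2c) : ℂ → ℂ) =ᵐ[volume] _
  filter_upwards [Lp.coeFn_neg (cl2 (D.indicator (lap Ψ))), cl2_coe (h.mem hO hD 2).2.2] with x h1 h2
  rw [h1, Pi.neg_apply, h2]

private theorem dir_cmul {f : ℂ → ℂ} (c e : ℂ) {x : ℂ} (hf : DifferentiableAt ℝ f x) :
    fderiv ℝ (fun x => c * f x) x e = c * fderiv ℝ f x e := by
  rw [fderiv_const_mul hf]; rfl

theorem IsBgF.diff (h : IsBgF D Ψ B) (hO : IsOpen D) {x : ℂ} (hx : x ∈ D) : DifferentiableAt ℝ Ψ x :=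
  ((h.smo.contDiffAt (hO.mem_nhds hx)).differentiableAt (by norm_num))

theorem IsBgF.ind_py (h : IsBgF D Ψ B) (hO : IsOpen D) (c : ℂ) :
    D.indicator (py fun x => c * Ψ x) = fun x => c * D.indicator (py Ψ) x := by
  funext x
  by_cases hx : x ∈ D
  · rw [indicator_of_mem hx, indicator_of_mem hx]
    exact dir_cmul c _ (h.diff hO hx)
  · rw [indicator_of_notMem hx, indicator_of_notMem hx, mul_zero]

theorem IsBgF.ind_px (h : IsBgF D Ψ B) (hO : IsOpen D) (c : ℂ) :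
    D.indicator (px fun x => c * Ψ x) = fun x => c * D.indicator (px Ψ) x := by
  funext x
  by_cases hx : x ∈ D
  · rw [indicator_of_mem hx, indicator_of_mem hx]
    exact dir_cmul c _ (h.diff hO hx)
  · rw [indicator_of_notMem hx, indicator_of_notMem hx, mul_zero]

theorem IsBgF.lap_cmul' (h : IsBgF D Ψ B) (hO : IsOpen D) (c : ℂ) {x : ℂ} (hx : x ∈ D) :
    lap (fun x => c * Ψ x) x = c * lap Ψ x := by
  have hdx : ContDiffOn ℝ ((⊤ : ℕ∞) : WithTop ℕ∞) (px Ψ) D := ContDiffOn.dirD hO h.smo 1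
  have hdy : ContDiffOn ℝ ((⊤ : ℕ∞) : WithTop ℕ∞) (py Ψ) D := ContDiffOn.dirD hO h.smo Complex.I
  have ex : px (fun x => c * Ψ x) =ᶠ[𝓝 x] fun x => c * px Ψ x := by
    filter_upwards [hO.mem_nhds hx] with y hy
    exact dir_cmul c _ (h.diff hO hy)
  have ey : py (fun x => c * Ψ x) =ᶠ[𝓝 x] fun x => c * py Ψ x := by
    filter_upwards [hO.mem_nhds hx] with y hy
    exact dir_cmul c _ (h.diff hO hy)
  have e1 : px (px fun x => c * Ψ x) x = c * px (px Ψ) x := by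
    show fderiv ℝ (px fun x => c * Ψ x) x 1 = _
    rw [ex.fderiv_eq]
    exact dir_cmul c _ ((hdx.contDiffAt (hO.mem_nhds hx)).differentiableAt (by norm_num))
  have e2 : py (py fun x => c * Ψ x) x = c * py (py Ψ) x := by
    show fderiv ℝ (py fun x => c * Ψ x) x Complex.I = _
    rw [ey.fderiv_eq]
    exact dir_cmul c _ ((hdy.contDiffAt (hO.mem_nhds hx)).differentiableAt (by norm_num))
  show px (px fun x => c * Ψ x) x + py (py fun x => c * Ψ x) x = c * (px (px Ψ) x + py (py Ψ) x)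
  rw [e1, e2, mul_add]

theorem IsBgF.cmul (h : IsBgF D Ψ B) (hO : IsOpen D) (c : ℂ) : IsBgF D (fun x => c * Ψ x) (‖c‖ * B) := by
  refine ⟨contDiffOn_const.mul h.smo, fun x hx => ?_⟩
  obtain ⟨h1, h2, h3⟩ := h.bd x hx
  refine ⟨?_, ?_, ?_⟩
  · have e : px (fun x => c * Ψ x) x = c * px Ψ x := dir_cmul c _ (h.diff hO hx)
    rw [e, norm_mul]; gcongr
  · have e : py (fun x => c * Ψ x) x = c * py Ψ x := dir_cmul c _ (h.diff hO hx)
    rw [e, norm_mul]; gcongr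
  · rw [h.lap_cmul' hO c hx, norm_mul]; gcongr

theorem gpI_cmul (h : IsBgF D Ψ B) (hO : IsOpen D) (hD : Bornology.IsBounded D) (c : ℂ) :
    gpI D (fun x => c * Ψ x) = c • gpI D Ψ := by
  unfold gpI
  rw [h.ind_py hO, h.ind_px hO, cl2_smul c (h.mem hO hD 2).1, cl2_smul c (h.mem hO hD 2).2.1,
    ← WithLp.toLp_smul]
  congr 1
  ext1
  · rfl
  · show -(c • cl2 (D.indicator (px Ψ))) = c • -cl2 (D.indicator (px Ψ))
    rw [smul_neg]

theorem cuI_cmul (h : IsBgF D Ψ B) (hO : IsOpen D) (hD : Bornology.IsBounded D) (c : ℂ) :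
    cuI D (fun x => c * Ψ x) = c • cuI D Ψ := by
  unfold cuI
  have e : D.indicator (lap fun x => c * Ψ x) = fun x => c * D.indicator (lap Ψ) x := by
    funext x
    by_cases hx : x ∈ D
    · rw [indicator_of_mem hx, indicator_of_mem hx, h.lap_cmul' hO c hx]
    · rw [indicator_of_notMem hx, indicator_of_notMem hx, mul_zero]
  rw [e, cl2_smul c (h.mem hO hD 2).2.2, smul_neg]

/-- The `L⁴` classes of the components of `w' = u - U`. -/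
noncomputable def w1 (D : Set ℂ) (Ψ : ℂ → ℂ) (v : VD D) : L4c := j1 D v - cl4 (D.indicator (py Ψ))
noncomputable def w2 (D : Set ℂ) (Ψ : ℂ → ℂ) (v : VD D) : L4c := j2 D v + cl4 (D.indicator (px Ψ))

theorem w1_ae (h : IsBgF D Ψ B) (hO : IsOpen D) (hD : Bornology.IsBounded D) (v : VD D) :
    (w1 D Ψ v : ℂ → ℂ) =ᵐ[volume] ((iot D v : XD D) - gpI D Ψ : Y2).fst := by
  show ((j1 D v - cl4 (D.indicator (py Ψ)) : L4c) : ℂ → ℂ) =ᵐ[volume]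
    (((iot D v : XD D) : Y2).fst - (gpI D Ψ).fst : L2c)
  filter_upwards [Lp.coeFn_sub (j1 D v) (cl4 (D.indicator (py Ψ))), cl4_coe (h.mem hO hD 4).1,
    j1_ae hD v, Lp.coeFn_sub ((iot D v : XD D) : Y2).fst (gpI D Ψ).fst, gpI_fst h hO hD]
    with x e1 e2 e3 e4 e5
  rw [e1, e4, Pi.sub_apply, Pi.sub_apply, e2, e3, e5]

theorem w2_ae (h : IsBgF D Ψ B) (hO : IsOpen D) (hD : Bornology.IsBounded D) (v : VD D) :
    (w2 D Ψ v : ℂ → ℂ) =ᵐ[volume] ((iot D v : XD D) - gpI D Ψ : Y2).snd := by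
  show ((j2 D v + cl4 (D.indicator (px Ψ)) : L4c) : ℂ → ℂ) =ᵐ[volume]
    (((iot D v : XD D) : Y2).snd - (gpI D Ψ).snd : L2c)
  filter_upwards [Lp.coeFn_add (j2 D v) (cl4 (D.indicator (px Ψ))), cl4_coe (h.mem hO hD 4).2.1,
    j2_ae hD v, Lp.coeFn_sub ((iot D v : XD D) : Y2).snd (gpI D Ψ).snd, gpI_snd h hO hD]
    with x e1 e2 e3 e4 e5
  rw [e1, e4, Pi.add_apply, Pi.sub_apply, e2, e3, e5, sub_neg_eq_add]

theorem w1_cont (D : Set ℂ) (Ψ : ℂ → ℂ) : Continuous (w1 D Ψ) := by unfold w1; fun_prop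
theorem w2_cont (D : Set ℂ) (Ψ : ℂ → ℂ) : Continuous (w2 D Ψ) := by unfold w2; fun_prop

/-- `prI` as an integral of `L²` functions. -/
theorem prI_wq (h : IsBgF D Ψ B) (hO : IsOpen D) (hD : Bornology.IsBounded D) (S : Set ℂ) (v : VD D)
    (q : SV D) : prI S ((iot D v : XD D) - gpI D Ψ : Y2) ((js D q : XS D) : L2c) =
      (∫ x in S, ‖(m44 (w1 D Ψ v) (j4 D q) : ℂ → ℂ) x‖ ^ 2) +
        ∫ x in S, ‖(m44 (w2 D Ψ v) (j4 D q) : ℂ → ℂ) x‖ ^ 2 :=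
  prI_eq (w1_ae h hO hD v) (w2_ae h hO hD v) (j4_ae hD q)

theorem prI_cont (h : IsBgF D Ψ B) (hO : IsOpen D) (hD : Bornology.IsBounded D) {S : Set ℂ}
    (hS : MeasurableSet S) : Continuous fun z : VD D × SV D =>
      prI S ((iot D z.1 : XD D) - gpI D Ψ : Y2) ((js D z.2 : XS D) : L2c) := by
  have e : (fun z : VD D × SV D =>
      prI S ((iot D z.1 : XD D) - gpI D Ψ : Y2) ((js D z.2 : XS D) : L2c)) = fun z =>
      (∫ x in S, ‖(m44 (w1 D Ψ z.1) (j4 D z.2) : ℂ → ℂ) x‖ ^ 2) +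
        ∫ x in S, ‖(m44 (w2 D Ψ z.1) (j4 D z.2) : ℂ → ℂ) x‖ ^ 2 := by
    funext z; exact prI_wq h hO hD S z.1 z.2
  rw [e]
  have c1 : Continuous fun z : VD D × SV D => m44 (w1 D Ψ z.1) (j4 D z.2) := by
    have := w1_cont D Ψ
    fun_prop
  have c2 : Continuous fun z : VD D × SV D => m44 (w2 D Ψ z.1) (j4 D z.2) := by
    have := w2_cont D Ψ
    fun_prop
  exact ((L2_int_cont S hS).comp c1).add ((L2_int_cont S hS).comp c2)

theorem prI_intble (h : IsBgF D Ψ B) (hO : IsOpen D) (hD : Bornology.IsBounded D) (v : VD D) (q : SV D) :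
    Integrable fun x => (‖(((iot D v : XD D) - gpI D Ψ : Y2).fst : ℂ → ℂ) x‖ ^ 2 +
      ‖(((iot D v : XD D) - gpI D Ψ : Y2).snd : ℂ → ℂ) x‖ ^ 2) *
      ‖(((js D q : XS D) : L2c) : ℂ → ℂ) x‖ ^ 2 :=
  prI_integrable (w1_ae h hO hD v) (w2_ae h hO hD v) (j4_ae hD q)

end

end Pool.Agent.Lib.MP_79abb3_an.PD
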