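import Pool.Agent.Lib.MP_79abb3_an.PD.FbE1

/-!
Theorem D, block F, bounds (6.6): the collar part of `∫ |w'|² |o|²`.
-/

set_option autoImplicit false
set_option linter.unusedSectionVars false

open MeasureTheory Set Filter Topology Function
open scoped ENNReal InnerProductSpace ComplexConjugate

namespace Pool.Agent.Lib.MP_79abb3_an.PD

open Pool.Agent.Lib.MP_79abb3_an.SC Pool.Agent.Lib.MP_79abb3_an.P25

section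
variable {D : Set ℂ} {H c e e' : ℝ} [hH : Fact (0 < H)] {X : ℝ × ℝ → ℂ} {Γ : VD D →L[ℂ] HH H}

private theorem fbe_py (e e' : ℝ) : PY H fun q => ctf e e' q.2 :=
  ⟨(ctf_smooth e e').comp contDiff_snd, 1, one_pos, fun _ _ _ => rfl⟩

private theorem fbe_diff {f : ℝ × ℝ → ℂ} (hf : PC H f) (q : ℝ × ℝ) : DifferentiableAt ℝ f q :=
  (hf.smooth.differentiable (by simp)) q

private theorem fbe_ysub {f g : ℝ × ℝ → ℂ} (hf : PC H f) (hg : PC H g) :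
    dYc (fun q => f q - g q) = fun q => dYc f q - dYc g q := by
  funext q
  unfold dYc
  rw [fderiv_fun_sub (fbe_diff hf q) (fbe_diff hg q)]
  rfl

private theorem fbe_zsub {f g : ℝ × ℝ → ℂ} (hf : PC H f) (hg : PC H g) :
    dZc (fun q => f q - g q) = fun q => dZc f q - dZc g q := by
  funext q
  unfold dZc
  rw [fderiv_fun_sub (fbe_diff hf q) (fbe_diff hg q)]
  rfl

private theorem fbe_lsub {f g : ℝ × ℝ → ℂ} (hf : PC H f) (hg : PC H g) :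
    dLc (fun q => f q - g q) = fun q => dLc f q - dLc g q := by
  funext q
  unfold dLc
  rw [fbe_ysub hf hg, fbe_zsub hf hg, fbe_ysub hf.yy hg.yy, fbe_zsub hf.zz hg.zz]
  ring

private theorem fbe_sqrt {C x y F G : ℝ} (hC : 0 ≤ C) (hx : 0 ≤ x) (hy : 0 ≤ y) (hF : 0 ≤ F) (hG : 0 ≤ G)
    (h1 : F ≤ C * x) (h2 : G ≤ C * y) : √(F * G ^ 3) ≤ C ^ 2 * √(x * y ^ 3) := by
  have h3 : F * G ^ 3 ≤ (C * x) * (C * y) ^ 3 :=
    mul_le_mul h1 (pow_le_pow_left₀ hG h2 3) (by positivity) (by positivity)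
  calc √(F * G ^ 3) ≤ √((C ^ 2) ^ 2 * (x * y ^ 3)) := Real.sqrt_le_sqrt (h3.trans (le_of_eq (by ring)))
    _ = C ^ 2 * √(x * y ^ 3) := by
      rw [Real.sqrt_mul (by positivity), Real.sqrt_sq (by positivity)]

/-- Test functions. Proof: `θ₁ := gaF X e e' ψ - ζ θ`: `PC`, `VanC`, `θ₁(y,0) = 0` (`gaF_con`), `fHc (dLc θ₁) = Γ (cuV ψ) - ..`
(`fHc_sub`). `prI (Wc X e)` of `gp ψ - gpI Ψ` and `φ` is (`IsStrip.integral`, `grad_sq'`, `StrBg.eq` on the open strip)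
`∫_{Rc H e} |∇θ₁|² |θ'|²` (`ctf = 1` for `z ≤ e`), `≤ ∫_{Cel H}`; `strip_prod`, `SV_form`. -/
theorem collar_test (h : IsStrip D H c X) (hO : IsOpen D) (hD : Bornology.IsBounded D) (he0 : 0 < e) (he : e < e')
    (he' : e' < c) (G : Geo H) (hΓ : IsGa D X e e' Γ) : ∃ C : ℝ, 0 ≤ C ∧
    ∀ {Ψ : ℂ → ℂ} {B : ℝ} {θ : ℝ × ℝ → ℂ}, IsBgF D Ψ B → StrBg H e X Ψ θ → ∀ (ψ : Adm D) (φ : AdmS D),
      prI (Wc X e) (gp ψ - gpI D Ψ) (cl2 φ) ≤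
        C * (‖LT G.ω G.lam (3 / 8) (Γ (cuV D ψ) - fHc (dLc fun q => ((ctf e e' q.2 : ℝ) : ℂ) * θ q))‖ ^ 2 *
          √(‖clX D φ‖ * ‖gpV D φ‖ ^ 3)) := by
  obtain ⟨C1, hC1, h1⟩ := strip_prod (H := H) G
  obtain ⟨C2, hC2, h2⟩ := SV_form h hO hD he0 he he'
  refine ⟨C1 * C2 ^ 2, by positivity, fun {Ψ B θ} hΨ hθ ψ φ => ?_⟩
  have heC : e ≤ c := (he.trans he').le
  have heH : e ≤ H := heC.trans h.cH.le
  have hψ := Adm.cc ψ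
  have hφ : Cc (φ : ℂ → ℂ) := φ.2.1
  have hga : PC H (gaF X e e' ψ) := gaF_pc h he hψ.smo
  have hζθ : PC H (fun q => ((ctf e e' q.2 : ℝ) : ℂ) * θ q) := PC.mulR (fbe_py e e') hθ.pc
  obtain ⟨θ₁, hθ₁⟩ : ∃ θ₁ : ℝ × ℝ → ℂ, θ₁ = fun q => gaF X e e' ψ q - ((ctf e e' q.2 : ℝ) : ℂ) * θ q :=
    ⟨_, rfl⟩
  have hp1 : PC H θ₁ := by
    rw [hθ₁]
    exact hga.sub hζθ
  have hv1 : VanC H θ₁ := by
    refine ⟨H - e', by linarith [h.cH], fun y z hz => ?_⟩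
    rw [hθ₁]
    show gaF X e e' ψ (y, z) - ((ctf e e' z : ℝ) : ℂ) * θ (y, z) = 0
    unfold gaF
    rw [ctf_zero he (show e' ≤ z by linarith), Complex.ofReal_zero, zero_mul, zero_mul, sub_zero]
  have h01 : ∀ y, θ₁ (y, 0) = 0 := by
    obtain ⟨ε, hε, hcon⟩ := gaF_con (e' := e') h hO he0 he ψ
    intro y
    rw [hθ₁]
    show gaF X e e' ψ (y, 0) - ((ctf e e' 0 : ℝ) : ℂ) * θ (y, 0) = 0
    rw [hcon y 0 le_rfl hε, hθ.z0, mul_zero, sub_zero]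
  have hΓe : Γ (cuV D ψ) - fHc (dLc fun q => ((ctf e e' q.2 : ℝ) : ℂ) * θ q) = (fHc (dLc θ₁) : HH H) := by
    rw [hΓ.eq ψ, hθ₁, fbe_lsub hga hζθ, fHc_sub hga.ll hζθ.ll]
  obtain ⟨hpθ', hz', hf', hb'⟩ := h2 φ
  have key := h1 _ θ₁ hpθ' hz' hp1 hv1 h01
  rw [hΓe]
  obtain ⟨ρ, hρ⟩ : ∃ ρ : ℂ → ℂ, ρ = fun x => (ψ : ℂ → ℂ) x - Ψ x := ⟨_, rfl⟩
  have hdψ : ∀ x, DifferentiableAt ℝ (ψ : ℂ → ℂ) x := fun x => hψ.smo.differentiable x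
  have hρd : ∀ x ∈ D, DifferentiableAt ℝ ρ x := by
    intro x hx
    rw [hρ]
    exact (hdψ x).sub (hΨ.diff hO hx)
  have hρx : ∀ x ∈ D, px ρ x = px ψ x - px Ψ x := by
    intro x hx
    unfold px
    rw [hρ, fderiv_fun_sub (hdψ x) (hΨ.diff hO hx)]
    rfl
  have hρy : ∀ x ∈ D, py ρ x = py ψ x - py Ψ x := by
    intro x hx
    unfold py
    rw [hρ, fderiv_fun_sub (hdψ x) (hΨ.diff hO hx)]
    rfl
  have hWD : Wc X e ⊆ D := h.Wc_sub heC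
  have hWm : MeasurableSet (Wc X e) := (h.isOpen_Wc heC).measurableSet
  have e1 : prI (Wc X e) (gp ψ - gpI D Ψ) (cl2 φ) =
      ∫ x in Wc X e, (‖px ρ x‖ ^ 2 + ‖py ρ x‖ ^ 2) * ‖(φ : ℂ → ℂ) x‖ ^ 2 := by
    refine integral_congr_ae ?_
    filter_upwards [ae_restrict_mem hWm, ae_restrict_of_ae (cl2_coe (hψ.py.memLp 2)),
      ae_restrict_of_ae (cl2_coe (hψ.px.memLp 2)), ae_restrict_of_ae (Lp.coeFn_neg (cl2 (px (ψ : ℂ → ℂ)))),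
      ae_restrict_of_ae (gpI_fst hΨ hO hD), ae_restrict_of_ae (gpI_snd hΨ hO hD),
      ae_restrict_of_ae (Lp.coeFn_sub (gp (ψ : ℂ → ℂ)).fst (gpI D Ψ).fst),
      ae_restrict_of_ae (Lp.coeFn_sub (gp (ψ : ℂ → ℂ)).snd (gpI D Ψ).snd),
      ae_restrict_of_ae (cl2_coe (hφ.memLp 2))] with x hx a1 a2 a3 a4 a5 a6 a7 a8
    have f1 : (gp (ψ : ℂ → ℂ)).fst = cl2 (py (ψ : ℂ → ℂ)) := rfl
    have f2 : (gp (ψ : ℂ → ℂ)).snd = -cl2 (px (ψ : ℂ → ℂ)) := rfl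
    have g1 : ((gp (ψ : ℂ → ℂ) - gpI D Ψ : Y2).fst : ℂ → ℂ) x = py ρ x := by
      show (((gp (ψ : ℂ → ℂ)).fst - (gpI D Ψ).fst : L2c) : ℂ → ℂ) x = _
      rw [a6, Pi.sub_apply, f1, a1, a4, indicator_of_mem (hWD hx), hρy x (hWD hx)]
    have g2 : ((gp (ψ : ℂ → ℂ) - gpI D Ψ : Y2).snd : ℂ → ℂ) x = -px ρ x := by
      show (((gp (ψ : ℂ → ℂ)).snd - (gpI D Ψ).snd : L2c) : ℂ → ℂ) x = _
      rw [a7, Pi.sub_apply, f2, a3, Pi.neg_apply, a2, a5, indicator_of_mem (hWD hx), hρx x (hWD hx)]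
      ring
    rw [g1, g2, a8, norm_neg, add_comm]
  have e2 : ∫ q in Rc H e, mJ X q • ((‖px ρ (X q)‖ ^ 2 + ‖py ρ (X q)‖ ^ 2) * ‖(φ : ℂ → ℂ) (X q)‖ ^ 2) =
      ∫ q in Rc H e, (‖dYc θ₁ q‖ ^ 2 + ‖dZc θ₁ q‖ ^ 2) *
        ‖((ctf e e' q.2 : ℝ) : ℂ) * (φ : ℂ → ℂ) (X q)‖ ^ 2 := by
    refine setIntegral_congr_fun (measurableSet_Rc H e) fun q hq => ?_
    have hXD : X q ∈ D := h.sub q.1 q.2 hq.2.1 (hq.2.2.trans_le heC)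
    have g1 := h.grad_sq' (ψ := ρ) hq.2.1.le (hq.2.2.trans_le heC) (hρd _ hXD)
    have g2 : (fun q => ρ (X q)) =ᶠ[𝓝 q] fun q => θ₁ q + (ψ : ℂ → ℂ) (X (0, 0)) := by
      have ho : IsOpen {q : ℝ × ℝ | 0 < q.2 ∧ q.2 < e} :=
        (isOpen_lt continuous_const continuous_snd).inter (isOpen_lt continuous_snd continuous_const)
      filter_upwards [ho.mem_nhds ⟨hq.2.1, hq.2.2⟩] with r hr
      rw [hρ, hθ₁]
      show (ψ : ℂ → ℂ) (X r) - Ψ (X r) = gaF X e e' ψ r - ((ctf e e' r.2 : ℝ) : ℂ) * θ r + _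
      unfold gaF
      rw [ctf_one he hr.2.le, hθ.eq r hr.1 hr.2, Complex.ofReal_one]
      ring
    have g3 : fderiv ℝ (fun q => ρ (X q)) q = fderiv ℝ θ₁ q := by
      rw [g2.fderiv_eq, fderiv_add_const]
    have g4 : dYc (fun q => ρ (X q)) q = dYc θ₁ q := by unfold dYc; rw [g3]
    have g5 : dZc (fun q => ρ (X q)) q = dZc θ₁ q := by unfold dZc; rw [g3]
    rw [g4, g5] at g1
    show mJ X q • ((‖px ρ (X q)‖ ^ 2 + ‖py ρ (X q)‖ ^ 2) * ‖(φ : ℂ → ℂ) (X q)‖ ^ 2) =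
      (‖dYc θ₁ q‖ ^ 2 + ‖dZc θ₁ q‖ ^ 2) * ‖((ctf e e' q.2 : ℝ) : ℂ) * (φ : ℂ → ℂ) (X q)‖ ^ 2
    rw [g1, smul_eq_mul, ctf_one he hq.2.2.le, Complex.ofReal_one, one_mul, mul_assoc]
  have hcont : Continuous fun q => (‖dYc θ₁ q‖ ^ 2 + ‖dZc θ₁ q‖ ^ 2) *
      ‖((ctf e e' q.2 : ℝ) : ℂ) * (φ : ℂ → ℂ) (X q)‖ ^ 2 :=
    ((hp1.yy.smooth.continuous.norm.pow 2).add (hp1.zz.smooth.continuous.norm.pow 2)).mul
      (hpθ'.smooth.continuous.norm.pow 2)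
  have e3 : ∫ q in Rc H e, (‖dYc θ₁ q‖ ^ 2 + ‖dZc θ₁ q‖ ^ 2) *
      ‖((ctf e e' q.2 : ℝ) : ℂ) * (φ : ℂ → ℂ) (X q)‖ ^ 2 ≤
      ∫ q in Cel H, (‖dYc θ₁ q‖ ^ 2 + ‖dZc θ₁ q‖ ^ 2) *
      ‖((ctf e e' q.2 : ℝ) : ℂ) * (φ : ℂ → ℂ) (X q)‖ ^ 2 :=
    setIntegral_mono_set (hcont.continuousOn.integrableOn_compact (isCompact_Cel (H := H)))
      (Eventually.of_forall fun q => by positivity)
      (Set.prod_mono Ioc_subset_Icc_self (Ioo_subset_Icc_self.trans (Icc_subset_Icc_right heH))).eventuallyLE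
  rw [e1, h.integral heC, e2]
  refine e3.trans (key.trans ?_)
  have e4 := fbe_sqrt hC2 (norm_nonneg (clX D φ)) (norm_nonneg (gpV D φ)) (norm_nonneg _) (norm_nonneg _)
    hf' hb'
  calc C1 * (‖LT G.ω G.lam (3 / 8) (fHc (dLc θ₁) : HH H)‖ ^ 2 * √(‖(fHc (fun q => ((ctf e e' q.2 : ℝ) : ℂ) *
        (φ : ℂ → ℂ) (X q)) : HH H)‖ * ‖(bHc (fun q => ((ctf e e' q.2 : ℝ) : ℂ) * (φ : ℂ → ℂ) (X q)) : HH H)‖ ^ 3))
      ≤ C1 * (‖LT G.ω G.lam (3 / 8) (fHc (dLc θ₁) : HH H)‖ ^ 2 *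
        (C2 ^ 2 * √(‖clX D φ‖ * ‖gpV D φ‖ ^ 3))) :=
        mul_le_mul_of_nonneg_left (mul_le_mul_of_nonneg_left e4 (by positivity)) hC1
    _ = _ := by ring

/-- **Collar part.** Proof: `collar_test` and density (`prI_cont`). -/
theorem collar_prod (h : IsStrip D H c X) (hO : IsOpen D) (hD : Bornology.IsBounded D) (he0 : 0 < e) (he : e < e')
    (he' : e' < c) (G : Geo H) (hΓ : IsGa D X e e' Γ) : ∃ C : ℝ, 0 ≤ C ∧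
    ∀ {Ψ : ℂ → ℂ} {B : ℝ} {θ : ℝ × ℝ → ℂ}, IsBgF D Ψ B → StrBg H e X Ψ θ → ∀ (v : VD D) (q : SV D),
      prI (Wc X e) ((iot D v : XD D) - gpI D Ψ : Y2) ((js D q : XS D) : L2c) ≤
        C * (‖LT G.ω G.lam (3 / 8) (Γ v - fHc (dLc fun q => ((ctf e e' q.2 : ℝ) : ℂ) * θ q))‖ ^ 2 *
          √(‖js D q‖ * ‖q‖ ^ 3)) := by
  obtain ⟨C, hC, hT⟩ := collar_test h hO hD he0 he he' G hΓ
  refine ⟨C, hC, fun {Ψ B θ} hΨ hθ v q => ?_⟩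
  have hS : MeasurableSet (Wc X e) := (h.isOpen_Wc (by linarith)).measurableSet
  have hcl : IsClosed {z : VD D × SV D |
      prI (Wc X e) ((iot D z.1 : XD D) - gpI D Ψ : Y2) ((js D z.2 : XS D) : L2c) ≤
        C * (‖LT G.ω G.lam (3 / 8) (Γ z.1 - fHc (dLc fun q => ((ctf e e' q.2 : ℝ) : ℂ) * θ q))‖ ^ 2 *
          √(‖js D z.2‖ * ‖z.2‖ ^ 3))} := by
    refine isClosed_le (prI_cont hΨ hO hD hS) ?_
    have c1 : Continuous fun z : VD D × SV D => Γ z.1 := by fun_prop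
    have c2 : Continuous fun z : VD D × SV D => ‖LT G.ω G.lam (3 / 8)
        (Γ z.1 - fHc (dLc fun q => ((ctf e e' q.2 : ℝ) : ℂ) * θ q))‖ := by fun_prop
    have c3 : Continuous fun z : VD D × SV D => ‖js D z.2‖ * ‖z.2‖ ^ 3 := by fun_prop
    fun_prop
  have hd : DenseRange fun z : Adm D × AdmS D => (cuV D z.1, gpV D z.2) :=
    (cuV_dense D).prodMap (gpV_dense D)
  have key := isClosed_property hd hcl (fun z => by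
    show prI (Wc X e) ((iot D (cuV D z.1) : XD D) - gpI D Ψ : Y2) ((js D (gpV D z.2) : XS D) : L2c) ≤
        C * (‖LT G.ω G.lam (3 / 8) (Γ (cuV D z.1) - fHc (dLc fun q => ((ctf e e' q.2 : ℝ) : ℂ) * θ q))‖ ^ 2 *
          √(‖js D (gpV D z.2)‖ * ‖gpV D z.2‖ ^ 3))
    rw [iot_cuV hD, js_gpV hD]
    exact hT hΨ hθ z.1 z.2) (v, q)
  exact key

end

end Pool.Agent.Lib.MP_79abb3_an.PD
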