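import Pool.Agent.Lib.MP_79abb3_an.PD.FbDef
import Pool.Agent.Lib.MP_79abb3_an.PD.FbD
import Pool.Agent.Lib.MP_79abb3_an.PD.CoC4

/-!
Theorem D, block F, bounds (6.6): form functions of test functions in the collar.
-/

set_option autoImplicit false
set_option linter.unusedSectionVars false

open MeasureTheory Set Filter Topology Function
open scoped ENNReal InnerProductSpace ComplexConjugate

namespace Pool.Agent.Lib.MP_79abb3_an.PD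

open Pool.Agent.Lib.MP_79abb3_an.SC Pool.Agent.Lib.MP_79abb3_an.P25

/-- The background stream function in the collar `0 < z < e`: `Ψ ∘ X = θ`, `θ = 0` on the wall. -/
structure StrBg (H e : ℝ) (X : ℝ × ℝ → ℂ) (Ψ : ℂ → ℂ) (θ : ℝ × ℝ → ℂ) : Prop where
  pc : PC H θ
  z0 : ∀ y, θ (y, 0) = 0
  eq : ∀ q : ℝ × ℝ, 0 < q.2 → q.2 < e → Ψ (X q) = θ q

section
variable {D : Set ℂ} {H c e e' : ℝ} [hH : Fact (0 < H)] {X : ℝ × ℝ → ℂ} {Γ : VD D →L[ℂ] HH H}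

private theorem fbe1_lin (A : ℂ →L[ℝ] ℂ) (w : ℂ) :
    A w = (w.re : ℂ) * A 1 + (w.im : ℂ) * A Complex.I := by
  have h1 : w = w.re • (1 : ℂ) + w.im • Complex.I := by
    apply Complex.ext <;> simp
  have h2 : A w = w.re • A 1 + w.im • A Complex.I := by
    conv_lhs => rw [h1]
    rw [map_add, map_smul, map_smul]
  rw [h2, Complex.real_smul, Complex.real_smul]

/-- `grad_sq` at a point of differentiability. -/
theorem IsStrip.grad_sq' (h : IsStrip D H c X) {ψ : ℂ → ℂ} {q : ℝ × ℝ} (h0 : 0 ≤ q.2) (h1 : q.2 < c)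
    (hψ : DifferentiableAt ℝ ψ (X q)) :
    ‖dYc (fun q => ψ (X q)) q‖ ^ 2 + ‖dZc (fun q => ψ (X q)) q‖ ^ 2 =
      mJ X q * (‖px ψ (X q)‖ ^ 2 + ‖py ψ (X q)‖ ^ 2) := by
  have hX : HasFDerivAt X (fderiv ℝ X q) q := (h.smooth.differentiable (by simp) q).hasFDerivAt
  have hc : HasFDerivAt (fun q => ψ (X q)) ((fderiv ℝ ψ (X q)).comp (fderiv ℝ X q)) q :=
    hψ.hasFDerivAt.comp q hX
  have e0 : fderiv ℝ X q (0, 1) = Complex.I * fderiv ℝ X q (1, 0) := h.cr q.1 q.2 h0 h1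
  have ey : dYc (fun q => ψ (X q)) q = ((fderiv ℝ X q (1, 0)).re : ℂ) * px ψ (X q) +
      ((fderiv ℝ X q (1, 0)).im : ℂ) * py ψ (X q) := by
    unfold dYc
    rw [hc.fderiv]
    exact fbe1_lin _ _
  have ez : dZc (fun q => ψ (X q)) q = -((fderiv ℝ X q (1, 0)).im : ℂ) * px ψ (X q) +
      ((fderiv ℝ X q (1, 0)).re : ℂ) * py ψ (X q) := by
    have h3 : dZc (fun q => ψ (X q)) q = ((fderiv ℝ X q (0, 1)).re : ℂ) * px ψ (X q) +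
        ((fderiv ℝ X q (0, 1)).im : ℂ) * py ψ (X q) := by
      unfold dZc
      rw [hc.fderiv]
      exact fbe1_lin _ _
    rw [h3, e0, Complex.I_mul_re, Complex.I_mul_im]
    push_cast
    ring
  rw [ey, ez]
  unfold mJ
  simp only [← Complex.normSq_eq_norm_sq, Complex.normSq_apply, Complex.add_re, Complex.add_im,
    Complex.mul_re, Complex.mul_im, Complex.neg_re, Complex.neg_im, Complex.ofReal_re,
    Complex.ofReal_im]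
  ring

private theorem fbe1_py (e e' : ℝ) : PY H fun q => ctf e e' q.2 :=
  ⟨(ctf_smooth e e').comp contDiff_snd, 1, one_pos, fun _ _ _ => rfl⟩

private theorem fbe1_intOn {E : Type} [NormedAddCommGroup E] {F : ℝ × ℝ → E} (hF : Continuous F) (s : ℝ) :
    IntegrableOn F (Rc H s) :=
  (hF.continuousOn.integrableOn_compact (isCompact_Icc.prod isCompact_Icc)).mono_set
    (prod_mono Ioc_subset_Icc_self Ioo_subset_Icc_self)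

private theorem fbe1_sub {s : ℝ} (hs : s ≤ H) : Rc H s ⊆ Cel H :=
  prod_mono Ioc_subset_Icc_self (Ioo_subset_Icc_self.trans (Icc_subset_Icc_right hs))

private theorem fbe1_null1 (a : ℝ) : (volume : Measure (ℝ × ℝ)) {q : ℝ × ℝ | q.1 = a} = 0 := by
  have h : {q : ℝ × ℝ | q.1 = a} = ({a} : Set ℝ) ×ˢ (univ : Set ℝ) := by
    ext q
    simp
  rw [h, Measure.volume_eq_prod, Measure.prod_prod, Real.volume_singleton, zero_mul]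

private theorem fbe1_null2 (a : ℝ) : (volume : Measure (ℝ × ℝ)) {q : ℝ × ℝ | q.2 = a} = 0 := by
  have h : {q : ℝ × ℝ | q.2 = a} = (univ : Set ℝ) ×ˢ ({a} : Set ℝ) := by
    ext q
    simp
  rw [h, Measure.volume_eq_prod, Measure.prod_prod, Real.volume_singleton, mul_zero]

private theorem fbe1_cel {F : ℝ × ℝ → ℝ} {s : ℝ} (hs : s ≤ H) (hF : ∀ q : ℝ × ℝ, s < q.2 → F q = 0) :
    ∫ q in Cel H, F q = ∫ q in Rc H s, F q := by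
  refine setIntegral_eq_of_subset_of_ae_sdiff_eq_zero measurableSet_Cel.nullMeasurableSet (fbe1_sub hs) ?_
  filter_upwards [compl_mem_ae_iff.2 (fbe1_null1 (-H)), compl_mem_ae_iff.2 (fbe1_null2 0),
    compl_mem_ae_iff.2 (fbe1_null2 s)] with q h1 h2 h3 h4
  refine hF q ?_
  by_contra hc
  rw [not_lt] at hc
  exact h4.2 ⟨⟨lt_of_le_of_ne h4.1.1.1 fun hh => h1 hh.symm, h4.1.1.2⟩,
    lt_of_le_of_ne h4.1.2.1 fun hh => h2 hh.symm, lt_of_le_of_ne hc h3⟩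

private theorem fbe1_cint {f : ℂ → ℂ} (hf : Cc f) : Integrable fun x => ‖f x‖ ^ 2 :=
  Continuous.integrable_of_hasCompactSupport (f := fun x => ‖f x‖ ^ 2) (hf.smo.continuous.norm.pow 2)
    (hf.cpt.comp_left (g := fun z : ℂ => ‖z‖ ^ 2) (by simp))

private theorem fbe1_gp {ψ : ℂ → ℂ} (hψ : Cc ψ) : (∫ x, (‖px ψ x‖ ^ 2 + ‖py ψ x‖ ^ 2)) = ‖gp ψ‖ ^ 2 := by
  rw [norm_gp_sq hψ, hψ.px.norm_sq, hψ.py.norm_sq]
  exact integral_add (fbe1_cint hψ.px) (fbe1_cint hψ.py)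

private theorem fbe1_cut (e e' H : ℝ) : ∃ A : ℝ, 0 ≤ A ∧ ∀ z ∈ Icc (0:ℝ) H, ‖((ctf e e' z : ℝ) : ℂ)‖ ≤ A ∧
    ‖((deriv (ctf e e') z : ℝ) : ℂ)‖ ≤ A := by
  have s0 := ctf_smooth e e'
  have s1 : ContDiff ℝ ((⊤ : ℕ∞) : WithTop ℕ∞) (deriv (ctf e e')) :=
    (contDiff_infty_iff_deriv.1 s0).2
  obtain ⟨a0, h0⟩ := isCompact_Icc.exists_bound_of_continuousOn (s := Icc (0:ℝ) H) s0.continuous.continuousOn
  obtain ⟨a1, h1⟩ := isCompact_Icc.exists_bound_of_continuousOn (s := Icc (0:ℝ) H) s1.continuous.continuousOn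
  refine ⟨|a0| + |a1|, by positivity, fun z hz => ?_⟩
  have k0 := (h0 z hz).trans (le_abs_self a0)
  have k1 := (h1 z hz).trans (le_abs_self a1)
  have p0 := abs_nonneg a0
  have p1 := abs_nonneg a1
  simp only [Complex.norm_real]
  exact ⟨by linarith, by linarith⟩

private theorem fbe1_alg2 {A : ℝ} {g g1 w y z : ℂ} (h0 : ‖g‖ ≤ A) (h1 : ‖g1‖ ≤ A) :
    ‖g * w‖ ^ 2 + ‖g1 * z + g * y‖ ^ 2 ≤ 2 * A ^ 2 * (‖w‖ ^ 2 + ‖y‖ ^ 2) + 2 * A ^ 2 * ‖z‖ ^ 2 := by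
  have k1 : ‖g * w‖ ≤ A * ‖w‖ := by
    rw [norm_mul]
    exact mul_le_mul_of_nonneg_right h0 (norm_nonneg _)
  have k2 : ‖g1 * z + g * y‖ ≤ A * ‖z‖ + A * ‖y‖ := by
    refine (norm_add_le _ _).trans (add_le_add ?_ ?_)
    · rw [norm_mul]
      exact mul_le_mul_of_nonneg_right h1 (norm_nonneg _)
    · rw [norm_mul]
      exact mul_le_mul_of_nonneg_right h0 (norm_nonneg _)
  have k3 : ‖g * w‖ ^ 2 ≤ (A * ‖w‖) ^ 2 := pow_le_pow_left₀ (norm_nonneg _) k1 2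
  have k4 : ‖g1 * z + g * y‖ ^ 2 ≤ (A * ‖z‖ + A * ‖y‖) ^ 2 := pow_le_pow_left₀ (norm_nonneg _) k2 2
  nlinarith [sq_nonneg (A * ‖z‖ - A * ‖y‖), sq_nonneg (A * ‖w‖)]

private theorem fbe1_dzero (he : e < e') {z : ℝ} (hz : e' < z) : deriv (ctf e e') z = 0 := by
  have h0 : ctf e e' =ᶠ[𝓝 z] fun _ => (0:ℝ) := by
    filter_upwards [Ioi_mem_nhds hz] with x hx
    exact ctf_zero he (le_of_lt hx)
  rw [h0.deriv_eq, deriv_const]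

/-- the two integrals -/
private theorem fbe1_int (h : IsStrip D H c X) (he0 : 0 < e') (he' : e' < c) : ∃ C : ℝ, 0 ≤ C ∧ ∀ φ : AdmS D,
    (∫ q in Rc H e', ‖(φ : ℂ → ℂ) (X q)‖ ^ 2) ≤ C * ‖clX D φ‖ ^ 2 ∧
    (∫ q in Rc H e', (‖dYc (fun q => (φ : ℂ → ℂ) (X q)) q‖ ^ 2 +
        ‖dZc (fun q => (φ : ℂ → ℂ) (X q)) q‖ ^ 2)) ≤ ‖gpV D φ‖ ^ 2 := by
  have _ := he0
  have hHp : 0 < H := hH.out
  have heH : e' ≤ H := (he'.trans h.cH).le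
  obtain ⟨J, hJp, hJ0, hJe⟩ := h.exists_J he'
  have hJc := hJp.smooth.continuous
  obtain ⟨δ, hδ0, hδ⟩ : ∃ δ, 0 < δ ∧ ∀ q ∈ Cel H, δ ≤ J q := by
    have hne : (Cel H).Nonempty := ⟨(0, 0), ⟨by linarith, hHp.le⟩, ⟨le_rfl, hHp.le⟩⟩
    obtain ⟨q0, -, hq0⟩ := (isCompact_Cel (H := H)).exists_isMinOn hne hJc.continuousOn
    exact ⟨J q0, hJ0 q0, fun q hq => hq0 hq⟩
  refine ⟨δ⁻¹, by positivity, fun φ => ?_⟩
  have hφ : Cc (φ : ℂ → ℂ) := φ.2.1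
  have hXc : Continuous fun q : ℝ × ℝ => (φ : ℂ → ℂ) (X q) := hφ.smo.continuous.comp h.smooth.continuous
  constructor
  · have e1 : ∫ q in Rc H e', J q * ‖(φ : ℂ → ℂ) (X q)‖ ^ 2 = ∫ x in Wc X e', ‖(φ : ℂ → ℂ) x‖ ^ 2 := by
      rw [h.integral he'.le]
      refine setIntegral_congr_fun (measurableSet_Rc H e') fun q hq => ?_
      show J q * _ = mJ X q • ‖(φ : ℂ → ℂ) (X q)‖ ^ 2
      rw [smul_eq_mul, hJe q hq.2.1.le hq.2.2.le]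
    have e2 : ∫ x in Wc X e', ‖(φ : ℂ → ℂ) x‖ ^ 2 ≤ ∫ x, ‖(φ : ℂ → ℂ) x‖ ^ 2 :=
      setIntegral_le_integral (fbe1_cint hφ) (Eventually.of_forall fun x => by positivity)
    have e3 : ‖clX D φ‖ ^ 2 = ∫ x, ‖(φ : ℂ → ℂ) x‖ ^ 2 := hφ.norm_sq
    rw [e3]
    calc (∫ q in Rc H e', ‖(φ : ℂ → ℂ) (X q)‖ ^ 2)
        ≤ ∫ q in Rc H e', δ⁻¹ * (J q * ‖(φ : ℂ → ℂ) (X q)‖ ^ 2) := by
          refine setIntegral_mono_on (fbe1_intOn (hXc.norm.pow 2) e')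
            (fbe1_intOn (continuous_const.mul (hJc.mul (hXc.norm.pow 2))) e')
            (measurableSet_Rc H e') fun q hq => ?_
          rw [← mul_assoc]
          refine le_mul_of_one_le_left (by positivity) ?_
          rw [inv_mul_eq_div, le_div_iff₀ hδ0, one_mul]
          exact hδ q (fbe1_sub heH hq)
      _ = δ⁻¹ * ∫ q in Rc H e', J q * ‖(φ : ℂ → ℂ) (X q)‖ ^ 2 := integral_const_mul _ _
      _ ≤ δ⁻¹ * ∫ x, ‖(φ : ℂ → ℂ) x‖ ^ 2 := by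
          rw [e1]
          exact mul_le_mul_of_nonneg_left e2 (by positivity)
  · have e1 : (∫ q in Rc H e', (‖dYc (fun q => (φ : ℂ → ℂ) (X q)) q‖ ^ 2 +
        ‖dZc (fun q => (φ : ℂ → ℂ) (X q)) q‖ ^ 2)) =
        ∫ q in Rc H e', mJ X q • (‖px φ (X q)‖ ^ 2 + ‖py φ (X q)‖ ^ 2) :=
      setIntegral_congr_fun (measurableSet_Rc H e') fun q hq =>
        h.grad_sq hφ.smo hq.2.1.le (hq.2.2.trans he')
    have e2 : ‖gpV D φ‖ ^ 2 = ‖gp (φ : ℂ → ℂ)‖ ^ 2 := rfl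
    rw [e1, ← h.integral he'.le (fun x => ‖px φ x‖ ^ 2 + ‖py φ x‖ ^ 2), e2, ← fbe1_gp hφ]
    exact setIntegral_le_integral ((fbe1_cint hφ.px).add (fbe1_cint hφ.py))
      (ae_of_all _ fun x => by positivity)

/-- The form function of a test function: `θ' = ζ (φ ∘ X)`, `ζ = ctf e e'`. Proof: `IsStrip.pc`, `PC.mulR`; `φ (X (y,0)) = 0` because
`X (y,0) ∈ frontier D` and `D` is open; `norm_fHc_sq`, `norm_bHc_le`, `IsStrip.integral` on `Wc X e'`, `mJ X ≥ c > 0` on the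
compact cell (`der`), `grad_sq`; Poincaré `‖clX φ‖ ≤ C ‖gpV φ‖` (`js D` is bounded, `js_gpV`). -/
theorem SV_form (h : IsStrip D H c X) (hO : IsOpen D) (hD : Bornology.IsBounded D) (he0 : 0 < e) (he : e < e')
    (he' : e' < c) : ∃ C : ℝ, 0 ≤ C ∧ ∀ φ : AdmS D,
      PC H (fun q => ((ctf e e' q.2 : ℝ) : ℂ) * (φ : ℂ → ℂ) (X q)) ∧
      (∀ y, ((ctf e e' (0:ℝ) : ℝ) : ℂ) * (φ : ℂ → ℂ) (X (y, 0)) = 0) ∧
      ‖(fHc (fun q => ((ctf e e' q.2 : ℝ) : ℂ) * (φ : ℂ → ℂ) (X q)) : HH H)‖ ≤ C * ‖clX D φ‖ ∧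
      ‖(bHc (fun q => ((ctf e e' q.2 : ℝ) : ℂ) * (φ : ℂ → ℂ) (X q)) : HH H)‖ ≤ C * ‖gpV D φ‖ := by
  obtain ⟨C1, hC1, h1⟩ := fbe1_int (e' := e') h (he0.trans he) he'
  obtain ⟨A, hA, hcut⟩ := fbe1_cut e e' H
  have hHp : 0 < H := hH.out
  have heH : e' ≤ H := (he'.trans h.cH).le
  obtain ⟨C2, hC20, hcl'⟩ : ∃ C2 : ℝ, 0 ≤ C2 ∧ ∀ φ : AdmS D, ‖clX D φ‖ ≤ C2 * ‖gpV D φ‖ :=
    ⟨‖js D‖, norm_nonneg (js D), fun φ => by rw [← js_gpV hD]; exact (js D).le_opNorm _⟩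
  obtain ⟨K, hK⟩ : ∃ K : ℝ, K = (2 * H)⁻¹ * (A ^ 2 * C1) + H⁻¹ * (2 * A ^ 2 + 2 * A ^ 2 * (C1 * C2 ^ 2)) :=
    ⟨_, rfl⟩
  have hK1 : (2 * H)⁻¹ * (A ^ 2 * C1) ≤ K := by
    rw [hK]
    exact le_add_of_nonneg_right (by positivity)
  have hK2 : H⁻¹ * (2 * A ^ 2 + 2 * A ^ 2 * (C1 * C2 ^ 2)) ≤ K := by
    rw [hK]
    exact le_add_of_nonneg_left (by positivity)
  have hK0 : 0 ≤ K := le_trans (by positivity) hK1
  refine ⟨√K, Real.sqrt_nonneg _, fun φ => ?_⟩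
  have hφ : Cc (φ : ℂ → ℂ) := φ.2.1
  have hp : PC H (fun q => (φ : ℂ → ℂ) (X q)) := h.pc hφ.smo
  have hθ : PC H (fun q => ((ctf e e' q.2 : ℝ) : ℂ) * (φ : ℂ → ℂ) (X q)) := PC.mulR (fbe1_py e e') hp
  have hcont : Continuous fun q : ℝ × ℝ => (φ : ℂ → ℂ) (X q) := hp.smooth.continuous
  obtain ⟨i1, i2⟩ := h1 φ
  have hcl := hcl' φ
  refine ⟨hθ, fun y => ?_, ?_, ?_⟩
  · have h2 : X (y, 0) ∉ D := by
      intro hin
      have h3 := h.bdry y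
      rw [hO.frontier_eq] at h3
      exact h3.2 hin
    have h3 : (φ : ℂ → ℂ) (X (y, 0)) = 0 :=
      image_eq_zero_of_notMem_tsupport fun hh => h2 (φ.2.2 hh)
    rw [h3, mul_zero]
  · refine le_of_sq_le_sq ?_ (by positivity)
    rw [mul_pow, Real.sq_sqrt hK0, norm_fHc_sq hθ]
    have e1 : ∫ q in Cel H, ‖((ctf e e' q.2 : ℝ) : ℂ) * (φ : ℂ → ℂ) (X q)‖ ^ 2 ≤
        A ^ 2 * (C1 * ‖clX D φ‖ ^ 2) := by
      rw [fbe1_cel heH (fun q hq => by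
        rw [ctf_zero he hq.le, Complex.ofReal_zero, zero_mul, norm_zero]; norm_num)]
      calc (∫ q in Rc H e', ‖((ctf e e' q.2 : ℝ) : ℂ) * (φ : ℂ → ℂ) (X q)‖ ^ 2)
          ≤ ∫ q in Rc H e', A ^ 2 * ‖(φ : ℂ → ℂ) (X q)‖ ^ 2 := by
            refine setIntegral_mono_on (fbe1_intOn (hθ.smooth.continuous.norm.pow 2) e')
              (fbe1_intOn (continuous_const.mul (hcont.norm.pow 2)) e')
              (measurableSet_Rc H e') fun q hq => ?_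
            rw [norm_mul, mul_pow]
            have h2 := (hcut q.2 ⟨hq.2.1.le, hq.2.2.le.trans heH⟩).1
            exact mul_le_mul_of_nonneg_right (pow_le_pow_left₀ (norm_nonneg _) h2 2) (by positivity)
        _ = A ^ 2 * ∫ q in Rc H e', ‖(φ : ℂ → ℂ) (X q)‖ ^ 2 := integral_const_mul _ _
        _ ≤ A ^ 2 * (C1 * ‖clX D φ‖ ^ 2) := mul_le_mul_of_nonneg_left i1 (by positivity)
    calc (2 * H)⁻¹ * ∫ q in Cel H, ‖((ctf e e' q.2 : ℝ) : ℂ) * (φ : ℂ → ℂ) (X q)‖ ^ 2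
        ≤ (2 * H)⁻¹ * (A ^ 2 * (C1 * ‖clX D φ‖ ^ 2)) := mul_le_mul_of_nonneg_left e1 (by positivity)
      _ = ((2 * H)⁻¹ * (A ^ 2 * C1)) * ‖clX D φ‖ ^ 2 := by ring
      _ ≤ K * ‖clX D φ‖ ^ 2 := mul_le_mul_of_nonneg_right hK1 (by positivity)
  · refine le_of_sq_le_sq ?_ (by positivity)
    rw [mul_pow, Real.sq_sqrt hK0]
    refine (norm_bHc_le hθ).trans ?_
    have ez : ∀ q, dZc (fun q => ((ctf e e' q.2 : ℝ) : ℂ) * (φ : ℂ → ℂ) (X q)) q =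
        ((deriv (ctf e e') q.2 : ℝ) : ℂ) * (φ : ℂ → ℂ) (X q) +
        ((ctf e e' q.2 : ℝ) : ℂ) * dZc (fun q => (φ : ℂ → ℂ) (X q)) q := fun q =>
      PC.zz_mul_z (ctf_smooth e e') hp q
    have ey : ∀ q, dYc (fun q => ((ctf e e' q.2 : ℝ) : ℂ) * (φ : ℂ → ℂ) (X q)) q =
        ((ctf e e' q.2 : ℝ) : ℂ) * dYc (fun q => (φ : ℂ → ℂ) (X q)) q := fun q =>
      PC.yy_mul_z (ctf_smooth e e') hp q
    have c0 : Continuous fun q => ‖dYc (fun q => ((ctf e e' q.2 : ℝ) : ℂ) * (φ : ℂ → ℂ) (X q)) q‖ ^ 2 +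
        ‖dZc (fun q => ((ctf e e' q.2 : ℝ) : ℂ) * (φ : ℂ → ℂ) (X q)) q‖ ^ 2 :=
      (hθ.yy.smooth.continuous.norm.pow 2).add (hθ.zz.smooth.continuous.norm.pow 2)
    have c1 : Continuous fun q => ‖dYc (fun q => (φ : ℂ → ℂ) (X q)) q‖ ^ 2 +
        ‖dZc (fun q => (φ : ℂ → ℂ) (X q)) q‖ ^ 2 :=
      (hp.yy.smooth.continuous.norm.pow 2).add (hp.zz.smooth.continuous.norm.pow 2)
    have e1 : ∫ q in Cel H, (‖dYc (fun q => ((ctf e e' q.2 : ℝ) : ℂ) * (φ : ℂ → ℂ) (X q)) q‖ ^ 2 +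
        ‖dZc (fun q => ((ctf e e' q.2 : ℝ) : ℂ) * (φ : ℂ → ℂ) (X q)) q‖ ^ 2) ≤
        2 * A ^ 2 * ‖gpV D φ‖ ^ 2 + 2 * A ^ 2 * (C1 * ‖clX D φ‖ ^ 2) := by
      rw [fbe1_cel heH (fun q hq => by
        rw [ez, ey, ctf_zero he hq.le, fbe1_dzero he hq, Complex.ofReal_zero, zero_mul, zero_mul,
          zero_mul, add_zero, norm_zero]; norm_num)]
      calc _ ≤ ∫ q in Rc H e', (2 * A ^ 2 * (‖dYc (fun q => (φ : ℂ → ℂ) (X q)) q‖ ^ 2 +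
            ‖dZc (fun q => (φ : ℂ → ℂ) (X q)) q‖ ^ 2) + 2 * A ^ 2 * ‖(φ : ℂ → ℂ) (X q)‖ ^ 2) := by
            refine setIntegral_mono_on (fbe1_intOn c0 e')
              ((fbe1_intOn (continuous_const.mul c1) e').add
                (fbe1_intOn (continuous_const.mul (hcont.norm.pow 2)) e'))
              (measurableSet_Rc H e') fun q hq => ?_
            rw [ey, ez]
            have h2 := hcut q.2 ⟨hq.2.1.le, hq.2.2.le.trans heH⟩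
            exact fbe1_alg2 h2.1 h2.2
        _ = 2 * A ^ 2 * (∫ q in Rc H e', (‖dYc (fun q => (φ : ℂ → ℂ) (X q)) q‖ ^ 2 +
            ‖dZc (fun q => (φ : ℂ → ℂ) (X q)) q‖ ^ 2)) +
            2 * A ^ 2 * ∫ q in Rc H e', ‖(φ : ℂ → ℂ) (X q)‖ ^ 2 := by
            have j1 : IntegrableOn (fun q => 2 * A ^ 2 * (‖dYc (fun q => (φ : ℂ → ℂ) (X q)) q‖ ^ 2 +
                ‖dZc (fun q => (φ : ℂ → ℂ) (X q)) q‖ ^ 2)) (Rc H e') := (fbe1_intOn c1 e').const_mul _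
            have j2 : IntegrableOn (fun q => 2 * A ^ 2 * ‖(φ : ℂ → ℂ) (X q)‖ ^ 2) (Rc H e') :=
              (fbe1_intOn (hcont.norm.pow 2) e').const_mul _
            rw [integral_add j1 j2, integral_const_mul, integral_const_mul]
        _ ≤ _ := add_le_add (mul_le_mul_of_nonneg_left i2 (by positivity))
            (mul_le_mul_of_nonneg_left i1 (by positivity))
    have e2 : ‖clX D φ‖ ^ 2 ≤ C2 ^ 2 * ‖gpV D φ‖ ^ 2 := by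
      rw [← mul_pow]
      exact pow_le_pow_left₀ (norm_nonneg _) hcl 2
    have e3 : 2 * A ^ 2 * (C1 * ‖clX D φ‖ ^ 2) ≤ 2 * A ^ 2 * (C1 * (C2 ^ 2 * ‖gpV D φ‖ ^ 2)) :=
      mul_le_mul_of_nonneg_left (mul_le_mul_of_nonneg_left e2 hC1) (by positivity)
    calc H⁻¹ * ∫ q in Cel H, (‖dYc (fun q => ((ctf e e' q.2 : ℝ) : ℂ) * (φ : ℂ → ℂ) (X q)) q‖ ^ 2 +
        ‖dZc (fun q => ((ctf e e' q.2 : ℝ) : ℂ) * (φ : ℂ → ℂ) (X q)) q‖ ^ 2)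
        ≤ H⁻¹ * (2 * A ^ 2 * ‖gpV D φ‖ ^ 2 + 2 * A ^ 2 * (C1 * (C2 ^ 2 * ‖gpV D φ‖ ^ 2))) :=
          mul_le_mul_of_nonneg_left (e1.trans (add_le_add le_rfl e3)) (by positivity)
      _ = (H⁻¹ * (2 * A ^ 2 + 2 * A ^ 2 * (C1 * C2 ^ 2))) * ‖gpV D φ‖ ^ 2 := by ring
      _ ≤ K * ‖gpV D φ‖ ^ 2 := mul_le_mul_of_nonneg_right hK2 (by positivity)

end

end Pool.Agent.Lib.MP_79abb3_an.PD
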