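import Pool.Agent.Lib.MP_79abb3_an.PD.FbB
import Pool.Agent.Lib.MP_79abb3_an.PD.FbE

/-!
Theorem D, block F, bounds (6.5), (6.6): the integral `∫_D |w'|² |o|²`.
-/

set_option autoImplicit false
set_option linter.unusedSectionVars false

open MeasureTheory Set Filter Topology Function
open scoped ENNReal InnerProductSpace ComplexConjugate

namespace Pool.Agent.Lib.MP_79abb3_an.PD

open Pool.Agent.Lib.MP_79abb3_an.SC Pool.Agent.Lib.MP_79abb3_an.P25

section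
variable {D : Set ℂ} {ι : Type} [Fintype ι] {H c e e' : ι → ℝ} [hH : ∀ j, Fact (0 < H j)]
  {X : ι → ℝ × ℝ → ℂ} {Γ : ∀ j, VD D →L[ℂ] HH (H j)}

/-- **The transport term** in the energies. `int_prod`, `collar_prod`, `prI_intble`. -/
theorem total_prod (hO : IsOpen D) (hD : Bornology.IsBounded D) (h : ∀ j, IsStrip D (H j) (c j) (X j))
    (he0 : ∀ j, 0 < e j) (he : ∀ j, e j < e' j) (he' : ∀ j, e' j < c j) (G : ∀ j, Geo (H j))
    (hΓ : ∀ j, IsGa D (X j) (e j) (e' j) (Γ j)) {χ : ℂ → ℂ} (hχ : Cc χ) (hs : tsupport χ ⊆ D)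
    (hcov : ∀ x ∈ D, χ x = 1 ∨ ∃ j, x ∈ Wc (X j) (e j)) : ∃ C : ℝ, 0 ≤ C ∧
    ∀ {Ψ : ℂ → ℂ} {B : ℝ} {θ : ι → ℝ × ℝ → ℂ}, IsBgF D Ψ B → (∀ j, StrBg (H j) (e j) (X j) Ψ (θ j)) →
    ∀ (v : VD D) (q : SV D),
      prI D ((iot D v : XD D) - gpI D Ψ : Y2) ((js D q : XS D) : L2c) ≤
        C * ((‖((iot D v : XD D) - gpI D Ψ : Y2)‖ *
          (‖((iot D v : XD D) - gpI D Ψ : Y2)‖ + ‖mm χ ((v : L2c) - cuI D Ψ)‖)) * (‖js D q‖ * ‖q‖) +
          (∑ j, ‖LT (G j).ω (G j).lam (3 / 8)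
            (Γ j v - fHc (dLc fun q => ((ctf (e j) (e' j) q.2 : ℝ) : ℂ) * θ j q))‖ ^ 2) *
            √(‖js D q‖ * ‖q‖ ^ 3)) := by
  obtain ⟨C0, hC0, h0⟩ := int_prod hO hD hχ hs
  have hcol := fun j => collar_prod (h j) hO hD (he0 j) (he j) (he' j) (G j) (hΓ j)
  choose C hC hc using hcol
  have hCs : 0 ≤ ∑ j, C j := Finset.sum_nonneg fun j _ => hC j
  refine ⟨C0 + ∑ j, C j, by positivity, fun {Ψ B θ} hΨ hθ v q => ?_⟩
  obtain ⟨f, hf⟩ : ∃ f : ℂ → ℝ, f = fun x => (‖(((iot D v : XD D) - gpI D Ψ : Y2).fst : ℂ → ℂ) x‖ ^ 2 +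
      ‖(((iot D v : XD D) - gpI D Ψ : Y2).snd : ℂ → ℂ) x‖ ^ 2) *
      ‖(((js D q : XS D) : L2c) : ℂ → ℂ) x‖ ^ 2 := ⟨_, rfl⟩
  have hfi : Integrable f := by
    rw [hf]
    exact prI_intble hΨ hO hD v q
  have hf0 : ∀ x, 0 ≤ f x := by
    intro x
    rw [hf]
    positivity
  have hpr : ∀ S : Set ℂ, prI S ((iot D v : XD D) - gpI D Ψ : Y2) ((js D q : XS D) : L2c) = ∫ x in S, f x := by
    intro S
    rw [hf]
    rfl
  have hA : MeasurableSet {x | χ x = 1} :=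
    (isClosed_singleton.preimage hχ.smo.continuous : IsClosed (χ ⁻¹' {1})).measurableSet
  have hB : ∀ j, MeasurableSet (Wc (X j) (e j)) := fun j =>
    ((h j).isOpen_Wc ((he j).trans (he' j)).le).measurableSet
  have hsplit : ∫ x in D, f x ≤ (∫ x in {x | χ x = 1}, f x) + ∑ j, ∫ x in Wc (X j) (e j), f x := by
    rw [← integral_indicator hO.measurableSet, ← integral_indicator hA]
    have e1 : ∀ j, ∫ x in Wc (X j) (e j), f x = ∫ x, (Wc (X j) (e j)).indicator f x := fun j =>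
      (integral_indicator (hB j)).symm
    simp_rw [e1]
    rw [← integral_finsetSum _ fun j _ => hfi.indicator (hB j),
      ← integral_add (hfi.indicator hA) (integrable_finsetSum _ fun j _ => hfi.indicator (hB j))]
    refine integral_mono (hfi.indicator hO.measurableSet)
      ((hfi.indicator hA).add (integrable_finsetSum _ fun j _ => hfi.indicator (hB j))) fun x => ?_
    show D.indicator f x ≤ {x | χ x = 1}.indicator f x + ∑ j, (Wc (X j) (e j)).indicator f x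
    have g1 : 0 ≤ {x | χ x = 1}.indicator f x := indicator_nonneg (fun y _ => hf0 y) x
    have g2 : ∀ j, 0 ≤ (Wc (X j) (e j)).indicator f x := fun j => indicator_nonneg (fun y _ => hf0 y) x
    have g3 : 0 ≤ ∑ j, (Wc (X j) (e j)).indicator f x := Finset.sum_nonneg fun j _ => g2 j
    by_cases hx : x ∈ D
    · rw [indicator_of_mem hx]
      rcases hcov x hx with h1 | ⟨j, hj⟩
      · rw [indicator_of_mem (show x ∈ {x | χ x = 1} from h1)]
        linarith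
      · have g4 : (Wc (X j) (e j)).indicator f x ≤ ∑ j, (Wc (X j) (e j)).indicator f x :=
          Finset.single_le_sum (f := fun j => (Wc (X j) (e j)).indicator f x) (fun j _ => g2 j)
            (Finset.mem_univ j)
        rw [indicator_of_mem hj] at g4
        linarith
    · rw [indicator_of_notMem hx]
      linarith
  obtain ⟨P, hP⟩ : ∃ P : ℝ, P = (‖((iot D v : XD D) - gpI D Ψ : Y2)‖ *
          (‖((iot D v : XD D) - gpI D Ψ : Y2)‖ + ‖mm χ ((v : L2c) - cuI D Ψ)‖)) * (‖js D q‖ * ‖q‖) :=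
    ⟨_, rfl⟩
  obtain ⟨L, hL⟩ : ∃ L : ι → ℝ, L = fun j => ‖LT (G j).ω (G j).lam (3 / 8)
            (Γ j v - fHc (dLc fun q => ((ctf (e j) (e' j) q.2 : ℝ) : ℂ) * θ j q))‖ ^ 2 := ⟨_, rfl⟩
  obtain ⟨S, hS⟩ : ∃ S : ℝ, S = √(‖js D q‖ * ‖q‖ ^ 3) := ⟨_, rfl⟩
  have hP0 : 0 ≤ P := by rw [hP]; positivity
  have hL0 : ∀ j, 0 ≤ L j := fun j => by rw [hL]; positivity
  have hS0 : 0 ≤ S := by rw [hS]; positivity
  have k1 : ∫ x in {x | χ x = 1}, f x ≤ C0 * P := by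
    have := h0 hΨ v q
    rw [hpr, mul_assoc] at this
    rw [hP]
    exact this
  have k2 : ∀ j, ∫ x in Wc (X j) (e j), f x ≤ C j * (L j * S) := by
    intro j
    have := hc j hΨ (hθ j) v q
    rw [hpr] at this
    rw [hL, hS]
    exact this
  have hLs : ∀ j, L j ≤ ∑ i, L i := fun j =>
    Finset.single_le_sum (f := L) (fun i _ => hL0 i) (Finset.mem_univ j)
  have k3 : ∑ j, ∫ x in Wc (X j) (e j), f x ≤ (∑ j, C j) * ((∑ i, L i) * S) := by
    rw [Finset.sum_mul]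
    exact Finset.sum_le_sum fun j _ => (k2 j).trans
      (mul_le_mul_of_nonneg_left (mul_le_mul_of_nonneg_right (hLs j) hS0) (hC j))
  have hT : 0 ≤ (∑ i, L i) * S := mul_nonneg (Finset.sum_nonneg fun i _ => hL0 i) hS0
  have goal : ∫ x in D, f x ≤ (C0 + ∑ j, C j) * (P + (∑ i, L i) * S) := by
    refine hsplit.trans ((add_le_add k1 k3).trans ?_)
    have a1 : 0 ≤ C0 * ((∑ i, L i) * S) := mul_nonneg hC0 hT
    have a2 : 0 ≤ (∑ j, C j) * P := mul_nonneg hCs hP0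
    nlinarith
  rw [hpr, ← hP, ← hS]
  rw [hL] at goal
  exact goal

end

end Pool.Agent.Lib.MP_79abb3_an.PD
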