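import Pool.Agent.Lib.MP_79abb3_an.PD.FbG1

/-!
Theorem D, block F, bounds (7.1): the source of the equation of the outer vorticity in one collar.
-/

set_option autoImplicit false
set_option linter.unusedSectionVars false

open MeasureTheory Set Filter Topology Function
open scoped ENNReal InnerProductSpace

namespace Pool.Agent.Lib.MP_79abb3_an.SC

open Pool.Agent.Lib.MP_79abb3_an.P25 Pool.Agent.Lib.MP_79abb3_an.FW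

section
variable {H : ℝ} [hH : Fact (0 < H)]

private theorem fbg_S2_EE (G : Geo H) (f : HH H) : S2 G.lam (1 / 4) (⇑(EE G.ω f)) := by
  have hH0 := hH.out
  have hN := G.hN
  have key : ∀ n, (G.lam n ^ (1:ℝ) * ‖EE G.ω f n‖) ^ 2 ≤ (G.N₀ * H + 1) ^ 2 * ‖f n‖ ^ 2 := by
    intro n
    rw [Real.rpow_one, EE_apply, ← mul_pow]
    refine pow_le_pow_left₀ (mul_nonneg (G.lw.pos n).le (norm_nonneg _)) ?_ 2
    have h1 : ‖E2 (G.ω * n) (f n)‖ ≤ H * ‖f n‖ := (E2 (G.ω * n)).le_of_opNorm_le (norm_E2_le _) _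
    have h2 := norm_kE2_le (G.ω * n) (f n)
    unfold Geo.lam
    rw [add_mul, add_mul, one_mul]
    refine add_le_add ?_ h2
    rw [mul_assoc]
    exact mul_le_mul_of_nonneg_left h1 (by linarith)
  have hs : Summable fun n => (G.N₀ * H + 1) ^ 2 * ‖f n‖ ^ 2 := (l2_summable f).mul_left _
  have h2 : S2 G.lam 1 (⇑(EE G.ω f)) := Summable.of_nonneg_of_le (fun n => sq_nonneg _) key hs
  exact (S2_mono G.lw.h1 (by norm_num) h2).1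

/-- additivity of the product in the velocity -/
private theorem fbg_split (G : Geo H) (f x : HH H) {v v' : ℤ → CI H} (sv : S2 G.lam (1 / 2) v)
    (sv' : S2 G.lam (1 / 2) v') :
    dp (⇑(EE G.ω f)) (pz (⇑x) (fun n => v n + v' n)) =
      dp (⇑(EE G.ω f)) (pz (⇑x) v) + dp (⇑(EE G.ω f)) (pz (⇑x) v') := by
  have sx : S2 G.lam 0 (⇑x) := S2_l2 _ x
  have sf := fbg_S2_EE G f
  rw [dp_pz G.pw sx sv sf, dp_pz G.pw sx sv' sf,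
    dp_pz G.pw sx (S2_add G.lw.h1 sv sv').1 sf, T3_add_mid G.pw sx sv sv' sf]

private theorem fbg_arith {Y E C f a b c u v : ℝ} (hY : 0 ≤ Y) (hE : 0 ≤ E) (hC : 0 ≤ C) (hf : 0 ≤ f)
    (ha : 0 ≤ a) (hb : 0 ≤ b) (hc : 0 ≤ c) (hu : 0 ≤ u) (hv : 0 ≤ v) :
    2 * Y * f * a + E * f * b + (u * (E * f * c) + C * (c * (v * f))) ≤
      (2 * Y + E + C) * f * (a + b + c * (u + v)) := by
  have t1 : 0 ≤ (E + C) * f * a := by positivity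
  have t2 : 0 ≤ (2 * Y + C) * f * b := by positivity
  have t3 : 0 ≤ (2 * Y + C) * f * c * u := by positivity
  have t4 : 0 ≤ (2 * Y + E) * f * c * v := by positivity
  have e : (2 * Y + E + C) * f * (a + b + c * (u + v)) =
      2 * Y * f * a + E * f * b + (u * (E * f * c) + C * (c * (v * f))) +
        ((E + C) * f * a + (2 * Y + C) * f * b + (2 * Y + C) * f * c * u + (2 * Y + E) * f * c * v) := by
    ring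
  rw [e]
  linarith

/-- **The commutator source** tested with `θ = E f`. Proof: `‖Yz ω f‖ ≤ 2 ‖f‖`, `‖EE ω f‖ ≤ C ‖f‖`, Cauchy and Schwarz, `dp_Ms_ζ`,
additivity of `pz` in the velocity (`T3_add_mid`-type, as `dp_split_one`), `dp_EE_cell` (`Ms e1 q2` with `e = e1`), `dp_EE_u`. -/
theorem src_bd (G : Geo H) : ∃ C : ℝ, 0 ≤ C ∧ ∀ {e1 e2 : CI H} (_ : star e1 = e1) (_ : G.ζ * e1 = e1) {c₂ : ℝ}
    (_ : 0 ≤ c₂) (_ : ∀ z ∈ Icc (0:ℝ) H, c₂ ≤ z → ex e1 z = 0) {N : ℕ} (_ : 1 ≤ N) {α : ℝ} (_ : 0 ≤ α)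
    {w : ℤ → CI H} (_ : S2 G.lam (1 / 2) w) (k : HH H)
    (_ : ∀ n, G.ζ * w n = G.ζ * (cellW (G.ω * N) N α n + wV G.ω (Vf G.ω k) n)) (q q1 q2 f : HH H),
    ‖2 * ⟪Yz G.ω f, Ms e1 q1⟫_ℂ + ⟪EE G.ω f, Ms e2 q⟫_ℂ + dp (⇑(Ms e1 (EE G.ω f))) (pz (⇑q2) w)‖ ≤
      C * ‖f‖ * (‖Ms e1 q1‖ + ‖Ms e2 q‖ + ‖Ms e1 q2‖ *
        (α * Real.exp (G.ω * N * c₂) + ‖LT G.ω G.lam (3 / 8) k‖)) := by
  obtain ⟨C, hC, hu⟩ := dp_EE_u G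
  set Y : ℝ := ‖(Yz G.ω : HH H →L[ℂ] HH H)‖ with hY
  set E : ℝ := ‖(EE G.ω : HH H →L[ℂ] HH H)‖ with hE
  have hY0 : 0 ≤ Y := norm_nonneg _
  have hE0 : 0 ≤ E := norm_nonneg _
  refine ⟨2 * Y + E + C, by positivity, ?_⟩
  intro e1 e2 h1 hz c₂ hc he N hN α hα w sw k hw q q1 q2 f
  have sW : S2 G.lam (1 / 2) (cellW (G.ω * N) N α : ℤ → CI H) :=
    S2_fin (N := (N:ℤ)) fun l h1 h2 => cellW_zero h1 h2
  have sk := (G.S2_huv k).2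
  rw [dp_Ms_ζ G h1 hz (EE G.ω f) q2
    (w' := fun n => cellW (G.ω * N) N α n + wV G.ω (Vf G.ω k) n) hw sw, fbg_split G f (Ms e1 q2) sW sk]
  have b1 : ‖2 * ⟪Yz G.ω f, Ms e1 q1⟫_ℂ‖ ≤ 2 * Y * ‖f‖ * ‖Ms e1 q1‖ := by
    rw [norm_mul]
    have h2 : ‖(2:ℂ)‖ = 2 := by norm_num
    rw [h2]
    have h3 : ‖⟪Yz G.ω f, Ms e1 q1⟫_ℂ‖ ≤ (Y * ‖f‖) * ‖Ms e1 q1‖ :=
      Geo.inner_le (ContinuousLinearMap.le_opNorm _ _) le_rfl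
    linarith
  have hEf : ‖EE G.ω f‖ ≤ E * ‖f‖ := ContinuousLinearMap.le_opNorm _ _
  have b2 : ‖⟪EE G.ω f, Ms e2 q⟫_ℂ‖ ≤ E * ‖f‖ * ‖Ms e2 q‖ := Geo.inner_le hEf le_rfl
  have b3 : ‖dp (⇑(EE G.ω f)) (pz (⇑(Ms e1 q2)) (cellW (G.ω * N) N α))‖ ≤
      α * Real.exp (G.ω * N * c₂) * (E * ‖f‖ * ‖Ms e1 q2‖) := by
    refine (dp_EE_cell G hc he hN hα f q2).trans ?_
    refine mul_le_mul_of_nonneg_left ?_ (mul_nonneg hα (Real.exp_pos _).le)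
    exact mul_le_mul_of_nonneg_right hEf (norm_nonneg _)
  have b4 : ‖dp (⇑(EE G.ω f)) (pz (⇑(Ms e1 q2)) (wV G.ω (Vf G.ω k)))‖ ≤
      C * (‖Ms e1 q2‖ * (‖LT G.ω G.lam (3 / 8) k‖ * ‖f‖)) := hu f (Ms e1 q2) k
  have b5 := norm_add_le (2 * ⟪Yz G.ω f, Ms e1 q1⟫_ℂ) ⟪EE G.ω f, Ms e2 q⟫_ℂ
  have b6 := norm_add_le (dp (⇑(EE G.ω f)) (pz (⇑(Ms e1 q2)) (cellW (G.ω * N) N α)))
    (dp (⇑(EE G.ω f)) (pz (⇑(Ms e1 q2)) (wV G.ω (Vf G.ω k))))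
  have b7 := norm_add_le (2 * ⟪Yz G.ω f, Ms e1 q1⟫_ℂ + ⟪EE G.ω f, Ms e2 q⟫_ℂ)
    (dp (⇑(EE G.ω f)) (pz (⇑(Ms e1 q2)) (cellW (G.ω * N) N α)) +
      dp (⇑(EE G.ω f)) (pz (⇑(Ms e1 q2)) (wV G.ω (Vf G.ω k))))
  refine b7.trans (((add_le_add b5 b6).trans
    (add_le_add (add_le_add b1 b2) (add_le_add b3 b4))).trans ?_)
  have p0 : 0 ≤ ‖f‖ := norm_nonneg _
  have p1 : 0 ≤ ‖Ms e1 q1‖ := norm_nonneg _
  have p2 : 0 ≤ ‖Ms e2 q‖ := norm_nonneg _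
  have p3 : 0 ≤ ‖Ms e1 q2‖ := norm_nonneg _
  have p4 : 0 ≤ ‖LT G.ω G.lam (3 / 8) k‖ := norm_nonneg _
  have p5 : 0 ≤ α * Real.exp (G.ω * N * c₂) := mul_nonneg hα (Real.exp_pos _).le
  exact fbg_arith hY0 hE0 hC p0 p1 p2 p3 p5 p4

end

end Pool.Agent.Lib.MP_79abb3_an.SC
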