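import Pool.Agent.Lib.MP_79abb3_an.SC.ApDef
import Pool.Agent.Lib.MP_79abb3_an.PD.FbC

/-!
Theorem D, block F, bounds (7.1): trilinear forms with `E f`.
-/

set_option autoImplicit false
set_option linter.unusedSectionVars false

open MeasureTheory Set Filter Topology Function
open scoped ENNReal InnerProductSpace

namespace Pool.Agent.Lib.MP_79abb3_an.SC

open Pool.Agent.Lib.MP_79abb3_an.P25 Pool.Agent.Lib.MP_79abb3_an.FW

section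
variable {H : ℝ} [hH : Fact (0 < H)]

private theorem fbg1_io (ω : ℝ) (f : HH H) :
    (fun n : ℤ => (iota (Ez (ω * n) (f n) : CI H) : Z2 H)) = ⇑(EE ω f) := by
  funext n
  rw [EE_apply, E2_apply]

/-- `⟨E f, x u[T k]⟩`. Proof: as `Geo.prd_UV` (ExA): `dp_pz`, `T3_sum'` with `G.pw38` (`y := x`, `u := wV ..`, `r := Ez f`), `G.S2_iu`,
`N2_TT`, `EE_quarter`. -/
theorem dp_EE_u (G : Geo H) : ∃ C : ℝ, 0 ≤ C ∧ ∀ f x k : HH H,
    ‖dp (⇑(EE G.ω f)) (pz (⇑x) (wV G.ω (Vf G.ω k)))‖ ≤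
      C * (‖x‖ * (‖LT G.ω G.lam (3 / 8) k‖ * ‖f‖)) := by
  obtain ⟨C, hC, hq⟩ := EE_quarter G
  obtain ⟨B, hB⟩ : ∃ B, B = C * ‖(EE G.ω : HH H →L[ℂ] HH H)‖ := ⟨_, rfl⟩
  have hB0 : 0 ≤ B := by rw [hB]; positivity
  have h0 := CP_nonneg (lam := G.lam) (0 + 3 / 8 + 1 / 4)
  refine ⟨CP G.lam (0 + 3 / 8 + 1 / 4) * (B + 1), by positivity, fun f x k => ?_⟩
  obtain ⟨-, ⟨s1, n1⟩⟩ := G.S2_iu k
  obtain ⟨s2, n2⟩ := hq f
  have s3 : S2 G.lam (1 / 4) (⇑(EE G.ω f)) := by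
    rw [← fbg1_io]
    exact (S2_iota G.lw.h1 s2).1
  rw [dp_pz G.pw (S2_l2 _ x) (G.S2_huv k).2 s3, ← fbg1_io]
  have h1 := (T3_sum' G.pw38 (r := fun n : ℤ => (Ez (G.ω * n) (f n) : CI H))
    (u := wV G.ω (Vf G.ω k)) (S2_l2 G.lam x) s1 s2).2
  rw [N2_l2] at h1
  refine h1.trans ?_
  have h3 := N2_nonneg (lam := G.lam) (1 / 4) (fun n : ℤ => (Ez (G.ω * n) (f n) : CI H))
  have h4 : 0 ≤ N2 G.lam (3 / 8) fun n => (iota (wV G.ω (Vf G.ω k) n) : Z2 H) := N2_nonneg _ _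
  have hf := norm_nonneg f
  have hx := norm_nonneg x
  have hl := norm_nonneg (LT G.ω G.lam (3 / 8) k)
  have n1' : (N2 G.lam (3 / 8) fun n => (iota (wV G.ω (Vf G.ω k) n) : Z2 H)) ≤
      ‖LT G.ω G.lam (3 / 8) k‖ := by
    rw [N2_TT G (by norm_num), one_mul] at n1
    exact n1
  have n2' : N2 G.lam (1 / 4) (fun n : ℤ => (Ez (G.ω * n) (f n) : CI H)) ≤ (B + 1) * ‖f‖ := by
    have h5 : ‖EE G.ω f‖ ≤ ‖(EE G.ω : HH H →L[ℂ] HH H)‖ * ‖f‖ := ContinuousLinearMap.le_opNorm _ _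
    have h6 : C * (‖EE G.ω f‖ * ‖f‖ ^ 3) ≤ ((B + 1) * ‖f‖) ^ 4 := by
      calc C * (‖EE G.ω f‖ * ‖f‖ ^ 3) ≤ C * (‖(EE G.ω : HH H →L[ℂ] HH H)‖ * ‖f‖ * ‖f‖ ^ 3) := by
            gcongr
        _ = B * ‖f‖ ^ 4 := by rw [hB]; ring
        _ ≤ (B + 1) ^ 4 * ‖f‖ ^ 4 := by
            have h7 : B ≤ (B + 1) ^ 4 := by nlinarith [sq_nonneg (B ^ 2), sq_nonneg B]
            gcongr
        _ = _ := by ring
    exact (pow_le_pow_iff_left₀ h3 (by positivity) (by norm_num)).1 (n2.trans h6)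
  calc CP G.lam (0 + 3 / 8 + 1 / 4) * ‖x‖ *
        (N2 G.lam (3 / 8) fun n => (iota (wV G.ω (Vf G.ω k) n) : Z2 H)) *
        N2 G.lam (1 / 4) (fun n : ℤ => (Ez (G.ω * n) (f n) : CI H))
      ≤ CP G.lam (0 + 3 / 8 + 1 / 4) * ‖x‖ * ‖LT G.ω G.lam (3 / 8) k‖ * ((B + 1) * ‖f‖) := by gcongr
    _ = _ := by ring

/-- `⟨E f, x W⟩` for the cell flow `W`, `x` supported in `z ≤ c₂`: `|sinh (m z)| ≤ exp (m c₂)` there; the family `cellW` has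
two modes. -/
theorem dp_EE_cell (G : Geo H) {c₂ : ℝ} (hc : 0 ≤ c₂) {e : CI H} (he : ∀ z ∈ Icc (0:ℝ) H, c₂ ≤ z → ex e z = 0)
    {N : ℕ} (hN : 1 ≤ N) {α : ℝ} (hα : 0 ≤ α) (f x : HH H) :
    ‖dp (⇑(EE G.ω f)) (pz (⇑(Ms e x)) (cellW (G.ω * N) N α))‖ ≤
      α * Real.exp (G.ω * N * c₂) * (‖EE G.ω f‖ * ‖Ms e x‖) := by
  have hω := G.ω_pos
  have hN0 : (0 : ℝ) ≤ G.ω * N := by positivity
  obtain ⟨β, hβ⟩ : ∃ β, β = α / 2 * Real.exp (G.ω * N * c₂) := ⟨_, rfl⟩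
  have hβ0 : 0 ≤ β := by rw [hβ]; positivity
  have hb1 : ∀ (n : ℤ) (y : Z2 H), ‖mz (cellW (G.ω * N) N α n) (mz e y)‖ ≤ β * ‖mz e y‖ := by
    intro n y
    have h1 : β * ‖mz e y‖ = ‖mz ((β : ℝ) • e) y‖ := by
      rw [mz_rsmul, norm_smul, Complex.norm_real, Real.norm_of_nonneg hβ0]
    rw [← mz_mul, h1]
    refine norm_mz_mono (fun z hz => ?_) y
    rw [ex_mul, ex_rsmul, norm_mul, norm_mul, Complex.norm_real, Real.norm_of_nonneg hβ0]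
    rcases le_total c₂ z with h2 | h2
    · rw [he z hz h2, norm_zero, mul_zero, mul_zero]
    · refine mul_le_mul_of_nonneg_right ?_ (norm_nonneg _)
      refine (cellW_le hα N n hz).trans ?_
      rw [hβ]
      unfold chF
      have h3 : Real.cosh (G.ω * N * z) ≤ Real.exp (G.ω * N * z) := by
        rw [Real.cosh_eq]
        have h4 : Real.exp (-(G.ω * N * z)) ≤ Real.exp (G.ω * N * z) := by
          refine Real.exp_le_exp.2 ?_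
          have := mul_nonneg hN0 hz.1
          linarith
        linarith
      have h5 : Real.exp (G.ω * N * z) ≤ Real.exp (G.ω * N * c₂) :=
        Real.exp_le_exp.2 (mul_le_mul_of_nonneg_left h2 hN0)
      have h6 := mul_le_mul_of_nonneg_left (h3.trans h5) hα
      linarith
  obtain ⟨b, hb⟩ : ∃ b : ℤ → ℝ, b = fun n : ℤ => if n = (N : ℤ) ∨ n = -(N : ℤ) then β else 0 := ⟨_, rfl⟩
  have hb0 : ∀ n, 0 ≤ b n := by
    intro n
    rw [hb]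
    show 0 ≤ if n = (N : ℤ) ∨ n = -(N : ℤ) then β else 0
    split_ifs
    · exact hβ0
    · exact le_rfl
  have hbz : ∀ n ∉ ({(N:ℤ), -(N:ℤ)} : Finset ℤ), b n = 0 := by
    intro n hn
    rw [Finset.mem_insert, Finset.mem_singleton] at hn
    rw [hb]
    exact if_neg hn
  have hbs : Summable b := summable_of_ne_finset_zero (s := ({(N:ℤ), -(N:ℤ)} : Finset ℤ)) hbz
  have hne : (N : ℤ) ≠ -(N : ℤ) := by omega
  have hbt : ∑' n, b n = 2 * β := by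
    rw [tsum_eq_sum (s := ({(N:ℤ), -(N:ℤ)} : Finset ℤ)) hbz, Finset.sum_pair hne, hb]
    show (if (N:ℤ) = N ∨ (N:ℤ) = -N then β else 0) + (if -(N:ℤ) = N ∨ -(N:ℤ) = -N then β else 0) = 2 * β
    rw [if_pos (Or.inl rfl), if_pos (Or.inr rfl)]
    ring
  have hb2 : ∀ n j : ℤ, ‖mz (cellW (G.ω * N) N α (n - j)) (Ms e x j)‖ ≤ ‖Ms e x j‖ * b (n - j) := by
    intro n j
    rw [Ms_apply]
    by_cases hn : n - j = (N : ℤ) ∨ n - j = -(N : ℤ)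
    · have h1 : b (n - j) = β := by rw [hb]; exact if_pos hn
      rw [h1, mul_comm ‖mz e (x j)‖ β]
      exact hb1 _ _
    · rw [not_or] at hn
      have h9 : ‖mz (cellW (G.ω * N) N α (n - j)) (mz e (x j))‖ ≤ 0 := by
        refine (norm_mz_apply_le _ _).trans ?_
        rw [cellW_zero hn.1 hn.2, norm_zero, zero_mul]
      exact h9.trans (mul_nonneg (norm_nonneg (mz e (x j))) (hb0 (n - j)))
  obtain ⟨y1, y2, y3⟩ := young21 (a := fun n => ‖Ms e x n‖) (b := b)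
    (fun n => norm_nonneg _) hb0 (l2_summable (Ms e x)) hbs
  obtain ⟨z1, z2⟩ := cs_tsum (x := fun n => ‖EE G.ω f n‖) (y := fun n => ∑' m, ‖Ms e x m‖ * b (n - m))
    (fun n => norm_nonneg _) (fun n => tsum_nonneg fun m => mul_nonneg (norm_nonneg _) (hb0 _))
    (l2_summable (EE G.ω f)) y2
  have key : ∀ n, ‖⟪EE G.ω f n, pz (⇑(Ms e x)) (cellW (G.ω * N) N α) n⟫_ℂ‖ ≤
      ‖EE G.ω f n‖ * ∑' m, ‖Ms e x m‖ * b (n - m) := by
    intro n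
    refine (norm_inner_le_norm _ _).trans (mul_le_mul_of_nonneg_left ?_ (norm_nonneg _))
    have h5 : Summable fun j => ‖mz (cellW (G.ω * N) N α (n - j)) (Ms e x j)‖ :=
      Summable.of_nonneg_of_le (fun _ => norm_nonneg _) (hb2 n) (y1 n)
    exact (norm_tsum_le_tsum_norm h5).trans (h5.tsum_le_tsum (hb2 n) (y1 n))
  have h5 : Summable fun n => ‖⟪EE G.ω f n, pz (⇑(Ms e x)) (cellW (G.ω * N) N α) n⟫_ℂ‖ :=
    Summable.of_nonneg_of_le (fun _ => norm_nonneg _) key z1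
  have h6 : √(∑' n, (∑' m, ‖Ms e x m‖ * b (n - m)) ^ 2) ≤ ‖Ms e x‖ * (2 * β) := by
    rw [Real.sqrt_le_left (mul_nonneg (norm_nonneg _) (by positivity)), mul_pow, l2_norm_sq (Ms e x),
      ← hbt]
    exact y3
  have h7 : √(∑' n, ‖EE G.ω f n‖ ^ 2) = ‖EE G.ω f‖ := by
    rw [← l2_norm_sq, Real.sqrt_sq (norm_nonneg _)]
  calc ‖dp (⇑(EE G.ω f)) (pz (⇑(Ms e x)) (cellW (G.ω * N) N α))‖
      ≤ ∑' n, ‖⟪EE G.ω f n, pz (⇑(Ms e x)) (cellW (G.ω * N) N α) n⟫_ℂ‖ := norm_tsum_le_tsum_norm h5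
    _ ≤ ∑' n, ‖EE G.ω f n‖ * ∑' m, ‖Ms e x m‖ * b (n - m) := h5.tsum_le_tsum key z1
    _ ≤ √(∑' n, ‖EE G.ω f n‖ ^ 2) * √(∑' n, (∑' m, ‖Ms e x m‖ * b (n - m)) ^ 2) := z2
    _ ≤ ‖EE G.ω f‖ * (‖Ms e x‖ * (2 * β)) := by
        rw [h7]
        exact mul_le_mul_of_nonneg_left h6 (norm_nonneg _)
    _ = _ := by rw [hβ]; ring

private theorem fbg1_mz_pz (G : Geo H) (m : CI H) (x : HH H) {v : ℤ → CI H} (sv : S2 G.lam (1 / 2) v) (n : ℤ) :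
    mz m (pz x v n) = pz (Ms m x) v n := by
  obtain ⟨c1, -, -⟩ := cvm_bd zero_le_one mz_bd G.pw.h1 G.pw.ha G.pw.hb G.pw.hc G.pw.hs
    (S2_l2 G.lam x) sv
  have h1 := ((c1 n).of_norm).hasSum.mapL (mz m)
  have h2 : mz m (pz x v n) = ∑' j, mz m (mz (v (n - j)) (x j)) := h1.tsum_eq.symm
  rw [h2]
  refine tsum_congr fun j => ?_
  rw [mz_comm, Ms_apply]

/-- Moving a real cut-off: `dp (Ms e1 p) (pz q w) = dp p (pz (Ms e1 q) w)` (`dp_Ms`, `mz_pz` with `G.pw` instead of `G.pw'`: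
termwise), and the velocity matters on `supp ζ` only (`ζ e1 = e1`; as `bf_zeta`). -/
theorem dp_Ms_ζ (G : Geo H) {e1 : CI H} (h1 : star e1 = e1) (hz : G.ζ * e1 = e1) (p q : HH H) {w w' : ℤ → CI H}
    (hw : ∀ n, G.ζ * w n = G.ζ * w' n) (sw : S2 G.lam (1 / 2) w) :
    dp (⇑(Ms e1 p)) (pz (⇑q) w) = dp (⇑p) (pz (⇑(Ms e1 q)) w') := by
  have hz' : ∀ n, w n * e1 = w' n * e1 := by
    intro n
    have h2 := congrArg (fun a => e1 * a) (hw n)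
    calc w n * e1 = w n * (G.ζ * e1) := by rw [hz]
      _ = e1 * (G.ζ * w n) := by ring
      _ = e1 * (G.ζ * w' n) := h2
      _ = w' n * (G.ζ * e1) := by ring
      _ = w' n * e1 := by rw [hz]
  rw [dp_Ms, h1]
  refine tsum_congr fun n => ?_
  show ⟪p n, mz e1 (pz (⇑q) w n)⟫_ℂ = ⟪p n, pz (⇑(Ms e1 q)) w' n⟫_ℂ
  rw [fbg1_mz_pz G e1 q sw]
  congr 1
  refine tsum_congr fun j => ?_
  show mz (w (n - j)) (Ms e1 q j) = mz (w' (n - j)) (Ms e1 q j)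
  rw [Ms_apply, ← mz_mul, hz', mz_mul]

end

end Pool.Agent.Lib.MP_79abb3_an.SC
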