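import Pool.Agent.Lib.MP_79abb3_an.PD.StF

/-!
Theorem D, block F, bounds (7.1): the sources are small.
-/

set_option autoImplicit false
set_option linter.unusedSectionVars false

open MeasureTheory Set Filter Topology Function
open scoped ENNReal InnerProductSpace

namespace Pool.Agent.Lib.MP_79abb3_an.SC

open Pool.Agent.Lib.MP_79abb3_an.P25 Pool.Agent.Lib.MP_79abb3_an.FW

section
variable {H : ℝ} [hH : Fact (0 < H)]

/-- The size of the sources in one collar: `κ V`, and everything in `c₁ ≤ z ≤ c₂` (`η = 1` for `z ≤ c₁`, `η = 0` for `z ≥ c₂`). -/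
noncomputable def Geo.srR (G : Geo H) (N : ℕ) (α c₁ c₂ : ℝ) (g : HH H) : ℝ :=
  ‖Ms (rc (G.kF (G.ω * N) α) (G.kF_c _ _)) (TT G.ω g)‖ +
    (1 + Real.exp (G.ω * N * c₂)) * Real.exp (-(4 * (G.ω * N) * c₁) + √(G.ω * N)) *
      ‖Ms (rc (tht (zl (G.ω * N)) (4 * (G.ω * N))) (tht_cont _ _)) g‖

/-- Far from the wall: `‖Ms e x‖ ≤ C exp (-4 m c₁ + √m) ‖Ms th x‖` for `e` supported in `z ≥ c₁`.
Proof: `tht (zl m) (4m) z ≥ exp (4 m (z - 2 z₁))` for `z ≥ 2 z₁` (`2 z₁ = 1/(8 √m) ≤ c₁`), `8 m z₁ = √m / 2`;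
`norm_Ms_mono`, `C = ‖e‖`. -/
theorem far_le {e : CI H} {c₁ : ℝ} (hc₁ : 0 < c₁) (he : ∀ z ∈ Icc (0:ℝ) H, z ≤ c₁ → ex e z = 0) :
    ∃ C : ℝ, 0 ≤ C ∧ ∀ m : ℝ, 1 ≤ m → 1 / (8 * √m) ≤ c₁ → ∀ x : HH H,
      ‖Ms e x‖ ≤ C * Real.exp (-(4 * m * c₁) + √m) * ‖Ms (rc (tht (zl m) (4 * m)) (tht_cont _ _)) x‖ := by
  refine ⟨‖e‖, norm_nonneg _, fun m hm hmc x => ?_⟩
  obtain ⟨K, hK⟩ : ∃ K : ℝ, K = ‖e‖ * Real.exp (-(4 * m * c₁) + √m) := ⟨_, rfl⟩
  have hK0 : 0 ≤ K := by rw [hK]; positivity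
  have hm0 : 0 < m := by linarith
  have hsm : 0 < √m := Real.sqrt_pos.2 hm0
  have hzl : 0 < zl m := by unfold zl; positivity
  have h2z : 2 * zl m ≤ c₁ := by
    refine le_trans (le_of_eq ?_) hmc
    unfold zl
    field_simp
    norm_num
  have hdom : ∀ z ∈ Icc (0:ℝ) H, ‖ex e z‖ ≤
      ‖ex (((K : ℝ) : ℂ) • (rc (tht (zl m) (4 * m)) (tht_cont _ _) : CI H)) z‖ := by
    intro z hz
    rcases le_or_gt z c₁ with h | h
    · rw [he z hz h, norm_zero]
      exact norm_nonneg _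
    · rw [ex_smul, ex_rc _ _ hz, norm_mul, Complex.norm_real, Complex.norm_real,
        Real.norm_of_nonneg hK0, hK]
      have h1 : Real.exp (4 * m * (z - 2 * zl m)) ≤ tht (zl m) (4 * m) z := by
        unfold tht
        refine le_mul_of_one_le_right (Real.exp_pos _).le ?_
        have h3 : 1 ≤ (z - zl m) / zl m := by
          rw [le_div_iff₀ hzl]
          linarith
        exact one_le_pow₀ (h3.trans (le_max_right _ _))
      have h0 : 0 ≤ tht (zl m) (4 * m) z := (Real.exp_pos _).le.trans h1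
      rw [Real.norm_of_nonneg h0]
      have h4 : 8 * m * zl m = √m / 2 := by
        unfold zl
        have h5 : m = √m * √m := (Real.mul_self_sqrt hm0.le).symm
        field_simp
        nlinarith
      have h6 : 1 ≤ Real.exp (-(4 * m * c₁) + √m) * tht (zl m) (4 * m) z := by
        calc (1:ℝ) ≤ Real.exp (-(4 * m * c₁) + √m) * Real.exp (4 * m * (z - 2 * zl m)) := by
              rw [← Real.exp_add]
              refine Real.one_le_exp ?_
              have h7 : 4 * m * c₁ ≤ 4 * m * z := by gcongr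
              nlinarith
          _ ≤ _ := mul_le_mul_of_nonneg_left h1 (Real.exp_pos _).le
      calc ‖ex e z‖ ≤ ‖e‖ := norm_ex_le _ _
        _ ≤ ‖e‖ * (Real.exp (-(4 * m * c₁) + √m) * tht (zl m) (4 * m) z) :=
          le_mul_of_one_le_right (norm_nonneg _) h6
        _ = _ := by ring
  rw [← hK]
  refine (norm_Ms_mono hdom x).trans (le_of_eq ?_)
  rw [Ms_smul, norm_smul, Complex.norm_real, Real.norm_of_nonneg hK0]

private theorem fbG2_alg {a F T Y : ℝ} (ha : 0 ≤ a) (hF : 0 ≤ F) (hT : 0 ≤ T) (hFY : F ≤ 2 * Y) :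
    (a + F * T) ^ 2 ≤ 2 * a ^ 2 + 8 * Y ^ 2 * T ^ 2 := by
  have h3 : F * T ≤ 2 * Y * T := mul_le_mul_of_nonneg_right hFY hT
  have h4 : (F * T) ^ 2 ≤ (2 * Y * T) ^ 2 := by
    have h5 : 0 ≤ F * T := by positivity
    gcongr
  nlinarith [sq_nonneg (a - F * T)]

/-- **The sources are small** in `L²(0,t)`: `c₂ ≤ 2 c₁`. Proof: `StB.e`, `StB.k1`: `∫ ‖κ V‖² ≤ C exp (-√m)`,
`∫ (..)² ≤ 4 exp (2 m c₂ - 8 m c₁ + 2 √m) C ≤ 4 C exp (-4 m c₁ + 2 √m)`. -/
theorem src_int (G : Geo H) {c₁ c₂ : ℝ} (hc₁ : 0 < c₁) (hc : c₂ ≤ 2 * c₁)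
    {C : ℝ} (hC : 0 ≤ C) : ∀ ε : ℝ, 0 < ε → ∃ m0 : ℝ, 1 ≤ m0 ∧ ∀ {N : ℕ} {A : ℝ → ℝ} {b : ℝ} {g : ℝ → HH H},
      m0 ≤ G.ω * N → 0 ≤ b → b ≤ 1 → ContinuousOn g (Icc 0 b) → (∀ t ∈ Icc 0 b, StB G N C 1 A g t) →
      ContinuousOn A (Icc 0 b) →
      ∀ t ∈ Icc 0 b, ∫ r in (0:ℝ)..t, (G.srR N (A r) c₁ c₂ (g r)) ^ 2 ≤ ε := by
  intro ε hε
  obtain ⟨K, hK⟩ : ∃ K : ℝ, K = 2 * C + 8 * C := ⟨_, rfl⟩
  have hlim : Tendsto (fun m : ℝ => K * Real.exp (-√m)) atTop (𝓝 0) := by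
    have h3 := (Real.tendsto_exp_neg_atTop_nhds_zero.comp Real.tendsto_sqrt_atTop).const_mul K
    rw [mul_zero] at h3
    exact h3
  obtain ⟨m1, hm1⟩ := eventually_atTop.1 ((hlim.eventually (gt_mem_nhds hε)).and
    (Real.tendsto_sqrt_atTop.eventually (eventually_ge_atTop (3 / (4 * c₁)))))
  refine ⟨max 1 m1, le_max_left _ _, ?_⟩
  intro N A b g hm hb0 hb1 hgc hst _ t ht
  obtain ⟨m, hmd⟩ : ∃ m : ℝ, m = G.ω * N := ⟨_, rfl⟩
  have hmm : max 1 m1 ≤ m := by rw [hmd]; exact hm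
  have hm1' : 1 ≤ m := (le_max_left _ _).trans hmm
  obtain ⟨hKe, hsq⟩ := hm1 m ((le_max_right _ _).trans hmm)
  have hm0 : 0 < m := by linarith
  have hsm : 0 < √m := Real.sqrt_pos.2 hm0
  have hmul : √m * √m = m := Real.mul_self_sqrt hm0.le
  have hsq' : 3 ≤ √m * (4 * c₁) := by
    rwa [div_le_iff₀ (by positivity)] at hsq
  have h3m : 3 * √m ≤ 4 * m * c₁ := by nlinarith
  by_cases hI : IntervalIntegrable (fun r => (G.srR N (A r) c₁ c₂ (g r)) ^ 2) volume 0 t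
  swap
  · rw [intervalIntegral.integral_undef hI]
    exact hε.le
  have hTc : ContinuousOn (fun r => ‖Ms (rc (tht (zl m) (4 * m)) (tht_cont _ _) : CI H) (g r)‖ ^ 2)
      (Icc 0 t) :=
    (((Ms (rc (tht (zl m) (4 * m)) (tht_cont _ _) : CI H)).continuous.comp_continuousOn
      (hgc.mono (Icc_subset_Icc_right ht.2))).norm).pow 2
  have hTi : IntervalIntegrable
      (fun r => ‖Ms (rc (tht (zl m) (4 * m)) (tht_cont _ _) : CI H) (g r)‖ ^ 2) volume 0 t := by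
    refine ContinuousOn.intervalIntegrable ?_
    rw [uIcc_of_le ht.1]
    exact hTc
  have hpt : ∀ r ∈ Icc 0 t, (G.srR N (A r) c₁ c₂ (g r)) ^ 2 ≤
      2 * C * Real.exp (-√m) + 8 * Real.exp (-√m) *
        ‖Ms (rc (tht (zl m) (4 * m)) (tht_cont _ _) : CI H) (g r)‖ ^ 2 := by
    intro r hr
    have hr' : r ∈ Icc 0 b := ⟨hr.1, hr.2.trans ht.2⟩
    have hs := hst r hr'
    have hk1 := hs.k1
    rw [← hmd] at hk1
    have hE : Real.exp (m * c₂) ≤ Real.exp (2 * m * c₁) := by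
      refine Real.exp_le_exp.2 ?_
      nlinarith
    have hE1 : 1 ≤ Real.exp (2 * m * c₁) := Real.one_le_exp (by positivity)
    have hEX : (1 + Real.exp (m * c₂)) * Real.exp (-(4 * m * c₁) + √m) ≤
        2 * Real.exp (-(√m / 2)) := by
      calc (1 + Real.exp (m * c₂)) * Real.exp (-(4 * m * c₁) + √m)
          ≤ (2 * Real.exp (2 * m * c₁)) * Real.exp (-(4 * m * c₁) + √m) := by
            gcongr
            linarith
        _ = 2 * Real.exp (2 * m * c₁ + (-(4 * m * c₁) + √m)) := by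
            rw [Real.exp_add (2 * m * c₁) (-(4 * m * c₁) + √m)]; ring
        _ ≤ 2 * Real.exp (-(√m / 2)) := by
            gcongr
            linarith
    have h5 := fbG2_alg (a := ‖Ms (rc (G.kF m (A r)) (G.kF_c _ _)) (TT G.ω (g r))‖)
      (F := (1 + Real.exp (m * c₂)) * Real.exp (-(4 * m * c₁) + √m))
      (T := ‖Ms (rc (tht (zl m) (4 * m)) (tht_cont _ _) : CI H) (g r)‖)
      (norm_nonneg _) (by positivity) (norm_nonneg _) hEX
    have h6 : Real.exp (-(√m / 2)) ^ 2 = Real.exp (-√m) := by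
      rw [← Real.exp_nat_mul]
      congr 1
      push_cast
      ring
    rw [h6] at h5
    have h7 : G.srR N (A r) c₁ c₂ (g r) =
        ‖Ms (rc (G.kF m (A r)) (G.kF_c _ _)) (TT G.ω (g r))‖ +
          (1 + Real.exp (m * c₂)) * Real.exp (-(4 * m * c₁) + √m) *
          ‖Ms (rc (tht (zl m) (4 * m)) (tht_cont _ _) : CI H) (g r)‖ := by
      rw [hmd]
      rfl
    rw [h7]
    linarith
  have hub : IntervalIntegrable (fun r => 2 * C * Real.exp (-√m) + 8 *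
      Real.exp (-√m) * ‖Ms (rc (tht (zl m) (4 * m)) (tht_cont _ _) : CI H) (g r)‖ ^ 2) volume 0 t :=
    intervalIntegrable_const.add (hTi.const_mul _)
  refine (intervalIntegral.integral_mono_on ht.1 hI hub hpt).trans ?_
  rw [intervalIntegral.integral_add intervalIntegrable_const (hTi.const_mul _),
    intervalIntegral.integral_const, intervalIntegral.integral_const_mul, smul_eq_mul, sub_zero]
  have he := (hst t ht).e
  rw [← hmd] at he
  have h8 : ∫ r in (0:ℝ)..t, ‖Ms (rc (tht (zl m) (4 * m)) (tht_cont _ _) : CI H) (g r)‖ ^ 2 ≤ C := by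
    have := sq_nonneg ‖Ms (rc (tht (zl m) (4 * m)) (tht_cont _ _) : CI H) (TT G.ω (g t))‖
    linarith
  have h9 : t ≤ 1 := ht.2.trans hb1
  have h10 : 0 ≤ 8 * Real.exp (-√m) := by positivity
  have h11 : 0 ≤ 2 * C * Real.exp (-√m) := by positivity
  have h12 := mul_le_mul_of_nonneg_left h8 h10
  have h13 : t * (2 * C * Real.exp (-√m)) ≤ 1 * (2 * C * Real.exp (-√m)) :=
    mul_le_mul_of_nonneg_right h9 h11
  have h14 : K * Real.exp (-√m) = 1 * (2 * C * Real.exp (-√m)) +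
      8 * Real.exp (-√m) * C := by rw [hK]; ring
  linarith

end

end Pool.Agent.Lib.MP_79abb3_an.SC
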