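import Pool.Agent.Lib.MP_79abb3_an.PD.ScC

/-!
Theorem D, block F, bounds (7.1): the energy inequality of the linear problem with small sources.
-/

set_option autoImplicit false
set_option linter.unusedSectionVars false

open MeasureTheory Set Filter Topology Function
open scoped ENNReal InnerProductSpace ComplexConjugate

namespace Pool.Agent.Lib.MP_79abb3_an.PD

open Pool.Agent.Lib.MP_79abb3_an.SC

section
variable {D : Set ℂ} {v : ℝ → VD D} {W : ℝ → ℂ → ℂ} {s1 : ℝ → L2c} {s2 : ℝ → Yd L4c} {a b : ℝ}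

private theorem fbH_re {W : ℂ → ℂ} {c : ℝ} (h : Bm W c) (f : L2c) :
    (⟪f, mm W f⟫_ℂ).re = ∫ x, (W x).re * ‖(f : ℂ → ℂ) x‖ ^ 2 := by
  rw [L2.inner_def]
  have h1 := integral_re (L2.integrable_inner (𝕜 := ℂ) f (mm W f))
  refine h1.symm.trans (integral_congr_ae ?_)
  filter_upwards [mm_coe h f] with x e1
  show (⟪(f : ℂ → ℂ) x, (mm W f : ℂ → ℂ) x⟫_ℂ).re = _
  rw [e1]
  have e5 : (f : ℂ → ℂ) x * conj ((f : ℂ → ℂ) x) = ((‖(f : ℂ → ℂ) x‖ ^ 2 : ℝ) : ℂ) := by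
    rw [Complex.mul_conj, Complex.normSq_eq_norm_sq]
  have e6 : ⟪(f : ℂ → ℂ) x, W x * (f : ℂ → ℂ) x⟫_ℂ = W x * ((‖(f : ℂ → ℂ) x‖ ^ 2 : ℝ) : ℂ) := by
    rw [RCLike.inner_apply, mul_assoc, e5]
  rw [e6, Complex.re_mul_ofReal]

/-- **7.1.** If the sources are bounded by `R(r) ‖q‖`, then
`‖o(t)‖² + ∫ ‖q‖² + 2 ∫∫ W |o|² ≤ ‖o(s)‖² + ∫ R²`. Proof: `Lpr.energy1`, `2 R ‖q‖ ≤ ‖q‖² + R²`. -/
theorem Lpr.apriori (hD : Bornology.IsBounded D) (h : LprD D v W s1 s2 a b) {q : ℝ → SV D}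
    (hq : Lpr D v W s1 s2 a b q) {R : ℝ → ℝ} (hR : ContinuousOn R (Icc a b))
    (hs : ∀ r ∈ Icc a b, (⟪((js D (q r) : XS D) : L2c), s1 r⟫_ℂ).re + (s2 r (j4 D (q r))).re ≤ R r * ‖q r‖)
    {s t : ℝ} (hs0 : a ≤ s) (hst : s ≤ t) (ht : t ≤ b) :
    ‖js D (q t)‖ ^ 2 + (∫ r in s..t, ‖q r‖ ^ 2) +
        2 * (∫ r in s..t, ∫ x, (W r x).re * ‖((js D (q r) : XS D) : L2c) x‖ ^ 2) ≤
      ‖js D (q s)‖ ^ 2 + ∫ r in s..t, R r ^ 2 := by
  have hsub : Icc s t ⊆ Icc a b := Icc_subset_Icc hs0 ht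
  have key := hq.energy1 hD h hs0 hst ht
  have co : ContinuousOn (fun r => ((js D (q r) : XS D) : L2c)) (Icc a b) :=
    continuous_subtype_val.comp_continuousOn ((js D).continuous.comp_continuousOn hq.cq)
  have cN : ContinuousOn (fun r => ‖q r‖ ^ 2) (Icc a b) := hq.cq.norm.pow 2
  have cI : ContinuousOn (fun r => ∫ x, (W r x).re * ‖((js D (q r) : XS D) : L2c) x‖ ^ 2) (Icc a b) := by
    have c0 : ContinuousOn (fun r => (⟪((js D (q r) : XS D) : L2c), mm (W r) ((js D (q r) : XS D) : L2c)⟫_ℂ).re)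
        (Icc a b) :=
      Complex.continuous_re.comp_continuousOn (ContinuousOn.inner (𝕜 := ℂ) co (h.cW.clm_apply co))
    refine c0.congr fun r hr => ?_
    obtain ⟨c, hc⟩ := h.bW r hr
    exact (fbH_re hc _).symm
  have c1 : ContinuousOn (fun r => (⟪((js D (q r) : XS D) : L2c), s1 r⟫_ℂ).re) (Icc a b) :=
    Complex.continuous_re.comp_continuousOn (ContinuousOn.inner (𝕜 := ℂ) co h.c1)
  have cj : ContinuousOn (fun r => j4 D (q r)) (Icc a b) := (j4 D).continuous.comp_continuousOn hq.cq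
  have c2' : ContinuousOn (fun r => s2 r (j4 D (q r))) (Icc a b) :=
    ContinuousOn.clm_apply
      ((ContinuousLinearMap.apply' ℂ (starRingEnd ℂ) (E := L4c)).continuous.comp_continuousOn cj) h.c2
  have c2 : ContinuousOn (fun r => (s2 r (j4 D (q r))).re) (Icc a b) :=
    Complex.continuous_re.comp_continuousOn c2'
  have cR : ContinuousOn (fun r => R r ^ 2) (Icc a b) := hR.pow 2
  have ii : ∀ {f : ℝ → ℝ}, ContinuousOn f (Icc a b) → IntervalIntegrable f volume s t := fun hf =>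
    (hf.mono hsub).intervalIntegrable_of_Icc hst
  have hle : (∫ r in s..t, (-2 * ‖q r‖ ^ 2 -
        2 * (∫ x, (W r x).re * ‖((js D (q r) : XS D) : L2c) x‖ ^ 2) +
        2 * (⟪((js D (q r) : XS D) : L2c), s1 r⟫_ℂ).re + 2 * (s2 r (j4 D (q r))).re)) ≤
      ∫ r in s..t, (R r ^ 2 - ‖q r‖ ^ 2 -
        2 * (∫ x, (W r x).re * ‖((js D (q r) : XS D) : L2c) x‖ ^ 2)) := by
    refine intervalIntegral.integral_mono_on hst
      (ii ((((continuousOn_const.mul cN).sub (continuousOn_const.mul cI)).add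
        (continuousOn_const.mul c1)).add (continuousOn_const.mul c2)))
      (ii ((cR.sub cN).sub (continuousOn_const.mul cI))) fun r hr => ?_
    have h1 := hs r (hsub hr)
    nlinarith [sq_nonneg (R r - ‖q r‖)]
  have e1 : (∫ r in s..t, (R r ^ 2 - ‖q r‖ ^ 2 -
        2 * (∫ x, (W r x).re * ‖((js D (q r) : XS D) : L2c) x‖ ^ 2))) =
      (∫ r in s..t, R r ^ 2) - (∫ r in s..t, ‖q r‖ ^ 2) -
        2 * ∫ r in s..t, ∫ x, (W r x).re * ‖((js D (q r) : XS D) : L2c) x‖ ^ 2 := by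
    have k1 : IntervalIntegrable (fun r => R r ^ 2 - ‖q r‖ ^ 2) volume s t := ii (cR.sub cN)
    have k2 : IntervalIntegrable (fun r => 2 * (∫ x, (W r x).re * ‖((js D (q r) : XS D) : L2c) x‖ ^ 2))
        volume s t := ii (continuousOn_const.mul cI)
    rw [intervalIntegral.integral_sub k1 k2,
      intervalIntegral.integral_sub (ii cR) (ii cN), intervalIntegral.integral_const_mul]
  rw [e1] at hle
  linarith

/-- Poincaré inequality in `H¹₀(D)`. -/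
theorem exists_poiS (hD : Bornology.IsBounded D) : ∃ C : ℝ, 0 ≤ C ∧ ∀ q : SV D, ‖js D q‖ ≤ C * ‖q‖ :=
  ⟨‖js D‖, (js D).opNorm_nonneg, fun q => (js D).le_opNorm q⟩

end

end Pool.Agent.Lib.MP_79abb3_an.PD
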