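import Pool.Agent.Lib.MP_79abb3_an.SC.NcStep

/-!
Theorem D, block F, bounds (7.2): continuity argument for a finite family of functions.
-/

set_option autoImplicit false
set_option linter.unusedSectionVars false

open MeasureTheory Set Filter Topology Function

namespace Pool.Agent.Lib.MP_79abb3_an.PD

open Pool.Agent.Lib.MP_79abb3_an.SC

/-- Continuity argument for a finite family. -/
theorem boot_fam {ι : Type} [Fintype ι] {f : ι → ℝ → ℝ} {K : ι → ℝ} {a b : ℝ}
    (hc : ∀ i, ContinuousOn (f i) (Icc a b)) (h0 : ∀ i, f i a < K i)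
    (step : ∀ t ∈ Icc a b, (∀ s ∈ Icc a t, ∀ i, f i s ≤ K i) → ∀ i, f i t < K i) :
    ∀ t ∈ Icc a b, ∀ i, f i t < K i := by
  classical
  rcases isEmpty_or_nonempty ι with hι | hι
  · intro t _ i
    exact (hι.false i).elim
  have hne : (Finset.univ : Finset ι).Nonempty := Finset.univ_nonempty
  let φ : ℝ → ℝ := fun t => Finset.univ.sup' hne fun i => f i t - K i
  have hφ : ContinuousOn φ (Icc a b) :=
    ContinuousOn.finset_sup'_apply hne fun i _ => (hc i).sub continuousOn_const
  have key := boot_lt (R := 0) hφ (by
    refine (Finset.sup'_lt_iff hne).2 fun i _ => ?_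
    have := h0 i
    linarith) (fun t ht hs => by
      refine (Finset.sup'_lt_iff hne).2 fun i _ => ?_
      have h1 := step t ht (fun s hs' j => by
        have h2 := (Finset.sup'_le_iff hne _).1 (hs s hs') j (Finset.mem_univ j)
        linarith) i
      linarith)
  intro t ht i
  have h1 := (Finset.sup'_lt_iff hne).1 (key t ht) i (Finset.mem_univ i)
  linarith

end Pool.Agent.Lib.MP_79abb3_an.PD
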