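import Pool.Agent.Lib.MP_79abb3_an.PD.FdB

/-!
Theorem D, block F: the cut off potentials are test functions of `D`.
-/

set_option autoImplicit false
set_option linter.unusedSectionVars false

open MeasureTheory Set Filter Topology Function
open scoped ENNReal InnerProductSpace ComplexConjugate

namespace Pool.Agent.Lib.MP_79abb3_an.PD

open Pool.Agent.Lib.MP_79abb3_an.SC Pool.Agent.Lib.MP_79abb3_an.P25

private theorem fdB2_d1 {U : Set ℂ} {G : ℂ → ℂ} (hU : IsOpen U) (hG : DifferentiableOn ℂ G U)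
    {y : ℂ} (hy : y ∈ U) (v : ℂ) : HasFDerivAt G ((ContinuousLinearMap.toSpanSingleton ℂ (deriv G y)).restrictScalars ℝ) y ∧
      fderiv ℝ G y v = v * deriv G y := by
  have h1 : HasDerivAt G (deriv G y) y := (hG.differentiableAt (hU.mem_nhds hy)).hasDerivAt
  have h2 := h1.hasFDerivAt.restrictScalars ℝ
  refine ⟨h2, ?_⟩
  rw [h2.fderiv]
  simp

private theorem fdB2_im {U : Set ℂ} {G : ℂ → ℂ} (hU : IsOpen U) (hG : DifferentiableOn ℂ G U)
    {y : ℂ} (hy : y ∈ U) (v : ℂ) :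
    fderiv ℝ (fun y => ((G y).im : ℂ)) y v = ((v * deriv G y).im : ℂ) := by
  obtain ⟨h1, h2⟩ := fdB2_d1 hU hG hy v
  have h3 := (Complex.ofRealCLM.hasFDerivAt.comp y (Complex.imCLM.hasFDerivAt.comp y h1)).fderiv
  have h4 : fderiv ℝ (fun y => ((G y).im : ℂ)) y = _ := h3
  rw [h4]
  simp

private theorem fdB2_re {U : Set ℂ} {G : ℂ → ℂ} (hU : IsOpen U) (hG : DifferentiableOn ℂ G U)
    {y : ℂ} (hy : y ∈ U) (v : ℂ) :
    fderiv ℝ (fun y => ((G y).re : ℂ)) y v = ((v * deriv G y).re : ℂ) := by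
  obtain ⟨h1, h2⟩ := fdB2_d1 hU hG hy v
  have h3 := (Complex.ofRealCLM.hasFDerivAt.comp y (Complex.reCLM.hasFDerivAt.comp y h1)).fderiv
  have h4 : fderiv ℝ (fun y => ((G y).re : ℂ)) y = _ := h3
  rw [h4]
  simp

/-- The imaginary part of a holomorphic function is harmonic. -/
private theorem fdB2_harm {U : Set ℂ} {G : ℂ → ℂ} (hU : IsOpen U) (hG : DifferentiableOn ℂ G U)
    {y : ℂ} (hy : y ∈ U) : lap (fun y => ((G y).im : ℂ)) y = 0 := by
  have hG' : DifferentiableOn ℂ (deriv G) U := hG.deriv hU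
  have h1 : px (fun y => ((G y).im : ℂ)) =ᶠ[𝓝 y] fun y => ((deriv G y).im : ℂ) := by
    filter_upwards [hU.mem_nhds hy] with z hz
    show fderiv ℝ (fun y => ((G y).im : ℂ)) z 1 = _
    rw [fdB2_im hU hG hz, one_mul]
  have h2 : py (fun y => ((G y).im : ℂ)) =ᶠ[𝓝 y] fun y => ((deriv G y).re : ℂ) := by
    filter_upwards [hU.mem_nhds hy] with z hz
    show fderiv ℝ (fun y => ((G y).im : ℂ)) z Complex.I = _
    rw [fdB2_im hU hG hz]
    simp
  show fderiv ℝ (px fun y => ((G y).im : ℂ)) y 1 + fderiv ℝ (py fun y => ((G y).im : ℂ)) y Complex.I = 0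
  rw [h1.fderiv_eq, h2.fderiv_eq, fdB2_im hU hG' hy, fdB2_re hU hG' hy]
  simp

private theorem fdB2_conj (f : ℂ → ℂ) (v x : ℂ) :
    fderiv ℝ (fun x => conj (f x)) x v = conj (fderiv ℝ f x v) := by
  have h1 : (fun x => conj (f x)) = (Complex.conjCLE : ℂ → ℂ) ∘ f := by
    funext x
    simp
  rw [h1, ContinuousLinearEquiv.comp_fderiv]
  simp

private theorem fdB2_lapConj {f : ℂ → ℂ} (h : ∀ x, conj (f x) = f x) (x : ℂ) : conj (lap f x) = lap f x := by
  have h0 : (fun x => conj (f x)) = f := funext h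
  have h1 : ∀ x, conj (px f x) = px f x := fun x => by
    show conj (fderiv ℝ f x 1) = _
    rw [← fdB2_conj f 1 x, h0]
    rfl
  have h2 : ∀ x, conj (py f x) = py f x := fun x => by
    show conj (fderiv ℝ f x Complex.I) = _
    rw [← fdB2_conj f Complex.I x, h0]
    rfl
  have h3 : (fun x => conj (px f x)) = px f := funext h1
  have h4 : (fun x => conj (py f x)) = py f := funext h2
  show conj (fderiv ℝ (px f) x 1 + fderiv ℝ (py f) x Complex.I) = _
  rw [map_add, ← fdB2_conj, ← fdB2_conj, h3, h4]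
  rfl

private theorem fdB2_lapSm {f : ℂ → ℂ} {x : ℂ} (h : ContDiffAt ℝ ((⊤ : ℕ∞) : WithTop ℕ∞) f x) :
    ContDiffAt ℝ ((⊤ : ℕ∞) : WithTop ℕ∞) (lap f) x := by
  have h1 : ∀ {g : ℂ → ℂ} (v : ℂ), ContDiffAt ℝ ((⊤ : ℕ∞) : WithTop ℕ∞) g x →
      ContDiffAt ℝ ((⊤ : ℕ∞) : WithTop ℕ∞) (fun y => fderiv ℝ g y v) x := fun v hg =>
    (hg.fderiv_right (by exact_mod_cast le_top)).clm_apply contDiffAt_const
  exact (h1 1 (h1 1 h)).add (h1 Complex.I (h1 Complex.I h))

namespace FD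
variable {D : Set ℂ} (F : FD D) {m : ℕ}

private theorem fdB2_open : IsOpen (D \ Metric.closedBall F.x F.s) :=
  F.hD.op.sdiff Metric.isClosed_closedBall

private theorem fdB2_Fm (m : ℕ) : DifferentiableOn ℂ (F.Fm m) (D \ Metric.closedBall F.x F.s) := by
  intro y hy
  have h1 : DifferentiableAt ℂ F.E y := (F.fl.holo y hy).differentiableAt
  have h2 : F.E y ≠ 0 := by
    rw [← norm_pos_iff, F.fl.norm y hy]
    exact Real.exp_pos _
  exact (((h1.pow m).add ((h1.inv h2).pow m)).div_const _).differentiableWithinAt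

private theorem fdB2_FmS (m : ℕ) :
    ContDiffOn ℝ ((⊤ : ℕ∞) : WithTop ℕ∞) (F.Fm m) (D \ Metric.closedBall F.x F.s) :=
  ((F.fdB2_Fm m).contDiffOn F.fdB2_open).restrict_scalars ℝ

private theorem fdB2_core {g : ℂ → ℝ} (hg : ContDiffOn ℝ ((⊤ : ℕ∞) : WithTop ℕ∞) g (D \ Metric.closedBall F.x F.s))
    {η : ℝ → ℝ} (hη : ContDiff ℝ ((⊤ : ℕ∞) : WithTop ℕ∞) η) {ε : ℝ} (hε : 0 < ε) (h0 : ∀ t ≤ ε, η t = 0) :
    ContDiff ℝ ((⊤ : ℕ∞) : WithTop ℕ∞) (fun y => F.χ y * η (F.h y) * g y) ∧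
      HasCompactSupport (fun y => F.χ y * η (F.h y) * g y) ∧
      tsupport (fun y => F.χ y * η (F.h y) * g y) ⊆ D := by
  have hs : support (fun y => F.χ y * η (F.h y) * g y) ⊆ {y | ε ≤ F.h y} := by
    intro y hy
    by_contra h1
    apply hy
    show F.χ y * η (F.h y) * g y = 0
    rw [h0 _ (not_le.1 h1).le, mul_zero, zero_mul]
  have hc : IsClosed {y | ε ≤ F.h y} := isClosed_le continuous_const F.fl.cont
  have hD : {y | ε ≤ F.h y} ⊆ D := by
    intro y hy
    by_contra h1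
    rw [mem_ofPred_eq, F.fl.zero y h1] at hy
    exact absurd hy (not_le.2 hε)
  have hk : IsCompact {y | ε ≤ F.h y} := Metric.isCompact_of_isClosed_isBounded hc (F.hD.bdd.subset hD)
  refine ⟨contDiff_iff_contDiffAt.2 fun y => ?_, HasCompactSupport.of_support_subset_isCompact hk hs,
    (closure_minimal hs hc).trans hD⟩
  by_cases hy : y ∈ D
  · by_cases h1 : y ∈ Metric.closedBall F.x F.s
    · have h2 : (fun y => F.χ y * η (F.h y) * g y) =ᶠ[𝓝 y] fun _ => 0 := by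
        have h3 : Metric.ball F.x F.s1 ∈ 𝓝 y := Metric.isOpen_ball.mem_nhds
          (Metric.mem_ball.2 (lt_of_le_of_lt (Metric.mem_closedBall.1 h1) F.h1))
        filter_upwards [h3] with z hz
        rw [F.χ0 z (Metric.mem_ball.1 hz).le, zero_mul, zero_mul]
      exact contDiffAt_const.congr_of_eventuallyEq h2
    · have h2 : D \ Metric.closedBall F.x F.s ∈ 𝓝 y := F.fdB2_open.mem_nhds ⟨hy, h1⟩
      exact (F.χs.contDiffAt.mul (hη.contDiffAt.comp y (F.fl.smooth.contDiffAt (F.hD.op.mem_nhds hy)))).mul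
        (hg.contDiffAt h2)
  · have h2 : (fun y => F.χ y * η (F.h y) * g y) =ᶠ[𝓝 y] fun _ => 0 := by
      have h3 : {z | F.h z < ε} ∈ 𝓝 y := (isOpen_lt F.fl.cont continuous_const).mem_nhds (by
        rw [mem_ofPred_eq, F.fl.zero y hy]
        exact hε)
      filter_upwards [h3] with z hz
      rw [h0 _ (le_of_lt hz), mul_zero, zero_mul]
    exact contDiffAt_const.congr_of_eventuallyEq h2

/-- `Ψ ∈ C_c^∞(D)`, real. (`h` is continuous on `ℂ`, zero off `D`, so `{h ≥ 1/(2m)}` is a compact subset of `D`; `χ = 0` on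
`ball x s1`, `h`, `E` smooth on the rest of `D`.) -/
theorem Ps_mem (hm : 1 ≤ m) : F.Ps m ∈ AdmS D ∧ F.Ps m ∈ Adm D ∧ ∀ y, conj (F.Ps m y) = F.Ps m y := by
  have hm0 : (0 : ℝ) < m := by exact_mod_cast hm
  have hη : ContDiff ℝ ((⊤ : ℕ∞) : WithTop ℕ∞) fun t : ℝ => Real.smoothTransition (2 * m * t - 1) :=
    Real.smoothTransition.contDiff.comp ((contDiff_const.mul contDiff_id).sub contDiff_const)
  have hg : ContDiffOn ℝ ((⊤ : ℕ∞) : WithTop ℕ∞) (fun y => (F.Fm m y).im) (D \ Metric.closedBall F.x F.s) :=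
    Complex.imCLM.contDiff.comp_contDiffOn (F.fdB2_FmS m)
  obtain ⟨h1, h2, h3⟩ := F.fdB2_core hg hη (ε := 1 / (2 * m)) (by positivity) (by
    intro t ht
    refine Real.smoothTransition.zero_of_nonpos ?_
    have h4 : 2 * m * t ≤ 2 * m * (1 / (2 * m)) := mul_le_mul_of_nonneg_left ht (by positivity)
    have h5 : 2 * (m : ℝ) * (1 / (2 * m)) = 1 := by field_simp
    linarith)
  have h4 : Cc (F.Ps m) := ⟨Complex.ofRealCLM.contDiff.comp h1,
    h2.comp_left (g := fun r : ℝ => (r : ℂ)) Complex.ofReal_zero⟩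
  have h5 : tsupport (F.Ps m) ⊆ D := by
    refine subset_trans (closure_mono ?_) h3
    intro y hy h6
    apply hy
    show ((F.χ y * Real.smoothTransition (2 * m * F.h y - 1) * (F.Fm m y).im : ℝ) : ℂ) = 0
    have h7 : F.χ y * Real.smoothTransition (2 * m * F.h y - 1) * (F.Fm m y).im = 0 := h6
    rw [h7, Complex.ofReal_zero]
  exact ⟨⟨h4, h5⟩, ⟨h4, (tsupport_fderiv_subset ℝ).trans h5⟩, fun y => Complex.conj_ofReal _⟩

theorem Ph_mem (hm : 1 ≤ m) : ContDiff ℝ ((⊤ : ℕ∞) : WithTop ℕ∞) (F.Ph m) ∧ HasCompactSupport (F.Ph m) ∧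
    tsupport (F.Ph m) ⊆ D := by
  have hm0 : (0 : ℝ) < m := by exact_mod_cast hm
  have hK0 : (0 : ℝ) < F.K := by exact_mod_cast F.K1
  have hz : 0 < F.zs m := Real.sqrt_pos.2 (div_pos hK0 hm0)
  have hη : ContDiff ℝ ((⊤ : ℕ∞) : WithTop ℕ∞) fun t : ℝ => Real.smoothTransition (t / F.zs m - 1) :=
    Real.smoothTransition.contDiff.comp ((contDiff_id.div_const _).sub contDiff_const)
  have hg : ContDiffOn ℝ ((⊤ : ℕ∞) : WithTop ℕ∞) (fun y => (F.Fm m y).re) (D \ Metric.closedBall F.x F.s) :=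
    Complex.reCLM.contDiff.comp_contDiffOn (F.fdB2_FmS m)
  exact F.fdB2_core hg hη (ε := F.zs m) hz (by
    intro t ht
    refine Real.smoothTransition.zero_of_nonpos ?_
    have h4 : t / F.zs m ≤ 1 := (div_le_one hz).2 ht
    linarith)

private theorem fdB2_P0 (m : ℕ) {y : ℂ} (hy : y ∈ D) :
    ContDiffAt ℝ ((⊤ : ℕ∞) : WithTop ℕ∞) (F.P0 m) y := by
  by_cases h1 : y ∈ Metric.closedBall F.x F.s
  · have h2 : F.P0 m =ᶠ[𝓝 y] fun _ => 0 := by
      have h3 : Metric.ball F.x F.s1 ∈ 𝓝 y := Metric.isOpen_ball.mem_nhds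
        (Metric.mem_ball.2 (lt_of_le_of_lt (Metric.mem_closedBall.1 h1) F.h1))
      filter_upwards [h3] with z hz
      show ((F.χ z * (F.Fm m z).im : ℝ) : ℂ) = 0
      rw [F.χ0 z (Metric.mem_ball.1 hz).le, zero_mul, Complex.ofReal_zero]
    exact contDiffAt_const.congr_of_eventuallyEq h2
  · have h2 : D \ Metric.closedBall F.x F.s ∈ 𝓝 y := F.fdB2_open.mem_nhds ⟨hy, h1⟩
    have h3 : ContDiffAt ℝ ((⊤ : ℕ∞) : WithTop ℕ∞) (fun y => F.χ y * (F.Fm m y).im) y :=
      F.χs.contDiffAt.mul (Complex.imCLM.contDiff.contDiffAt.comp y ((F.fdB2_FmS m).contDiffAt h2))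
    exact Complex.ofRealCLM.contDiff.contDiffAt.comp y h3

private theorem fdB2_out (m : ℕ) {y : ℂ} (hy : F.s2 < dist y F.x) : F.c0 m y = 0 := by
  unfold FD.c0
  by_cases hD : y ∈ D
  · rw [if_pos hD]
    have h1 : F.s < dist y F.x := F.h1.trans (F.h2.trans hy)
    have h2 : F.P0 m =ᶠ[𝓝 y] fun y => ((F.Fm m y).im : ℂ) := by
      have h3 : {z | F.s2 < dist z F.x} ∈ 𝓝 y :=
        (isOpen_lt continuous_const (continuous_id.dist continuous_const)).mem_nhds hy
      filter_upwards [h3] with z hz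
      show ((F.χ z * (F.Fm m z).im : ℝ) : ℂ) = _
      rw [F.χ1 z (le_of_lt hz), one_mul]
    have h4 : y ∈ D \ Metric.closedBall F.x F.s := ⟨hD, fun h => absurd (Metric.mem_closedBall.1 h) (not_le.2 h1)⟩
    have h5 : ∀ {f g : ℂ → ℂ}, f =ᶠ[𝓝 y] g → lap f y = lap g y := by
      intro f g h
      have e1 : px f =ᶠ[𝓝 y] px g := h.fderiv.mono fun z hz => by
        show fderiv ℝ f z 1 = fderiv ℝ g z 1
        rw [hz]
      have e2 : py f =ᶠ[𝓝 y] py g := h.fderiv.mono fun z hz => by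
        show fderiv ℝ f z Complex.I = fderiv ℝ g z Complex.I
        rw [hz]
      show fderiv ℝ (px f) y 1 + fderiv ℝ (py f) y Complex.I = fderiv ℝ (px g) y 1 + fderiv ℝ (py g) y Complex.I
      rw [e1.fderiv_eq, e2.fderiv_eq]
    rw [h5 h2, fdB2_harm F.fdB2_open (F.fdB2_Fm m) h4, neg_zero]
  · rw [if_neg hD]

private theorem fdB2_in (m : ℕ) {y : ℂ} (hy : dist y F.x < F.s1) : F.c0 m y = 0 := by
  unfold FD.c0
  by_cases hD : y ∈ D
  · rw [if_pos hD]
    have h2 : F.P0 m =ᶠ[𝓝 y] fun _ => 0 := by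
      filter_upwards [Metric.isOpen_ball.mem_nhds (Metric.mem_ball.2 hy)] with z hz
      show ((F.χ z * (F.Fm m z).im : ℝ) : ℂ) = _
      rw [F.χ0 z (Metric.mem_ball.1 hz).le, zero_mul, Complex.ofReal_zero]
    have e1 : px (F.P0 m) =ᶠ[𝓝 y] fun _ => 0 := h2.fderiv.mono fun z hz => by
      show fderiv ℝ (F.P0 m) z 1 = 0
      rw [hz, fderiv_fun_const]
      rfl
    have e2 : py (F.P0 m) =ᶠ[𝓝 y] fun _ => 0 := h2.fderiv.mono fun z hz => by
      show fderiv ℝ (F.P0 m) z Complex.I = 0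
      rw [hz, fderiv_fun_const]
      rfl
    show -(fderiv ℝ (px (F.P0 m)) y 1 + fderiv ℝ (py (F.P0 m)) y Complex.I) = 0
    rw [e1.fderiv_eq, e2.fderiv_eq, fderiv_fun_const]
    simp
  · rw [if_neg hD]

/-- `ψ_m` is harmonic off `closedBall x s` (imaginary part of a holomorphic function). -/
theorem c0_cc (hm : 1 ≤ m) : CcR D (F.c0 m) ∧ (∀ y, F.s2 ≤ dist y F.x → F.c0 m y = 0) ∧
    (∀ y, dist y F.x ≤ F.s1 → F.c0 m y = 0) := by
  have hs1 : 0 < F.s1 := F.fl.s0.trans F.h1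
  have hs2 : 0 < F.s2 := hs1.trans F.h2
  have hsm : Smo (F.c0 m) := contDiff_iff_contDiffAt.2 fun y => by
    rcases lt_or_ge F.s2 (dist y F.x) with h1 | h1
    · have h2 : F.c0 m =ᶠ[𝓝 y] fun _ => 0 := by
        have h3 : {z | F.s2 < dist z F.x} ∈ 𝓝 y :=
          (isOpen_lt continuous_const (continuous_id.dist continuous_const)).mem_nhds h1
        filter_upwards [h3] with z hz
        exact F.fdB2_out m hz
      exact contDiffAt_const.congr_of_eventuallyEq h2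
    · have h4 : y ∈ D := F.fl.ball (Metric.mem_closedBall.2 (h1.trans F.h3.le))
      have h2 : F.c0 m =ᶠ[𝓝 y] fun z => -lap (F.P0 m) z := by
        filter_upwards [F.hD.op.mem_nhds h4] with z hz
        unfold FD.c0
        rw [if_pos hz]
      exact (fdB2_lapSm (F.fdB2_P0 m h4)).neg.congr_of_eventuallyEq h2
  have hcl : IsClosed {y | F.c0 m y = 0} := isClosed_eq hsm.continuous continuous_const
  have ho : ∀ y, F.s2 ≤ dist y F.x → F.c0 m y = 0 := by
    intro y hy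
    have h1 : closure (Metric.closedBall F.x F.s2)ᶜ ⊆ {y | F.c0 m y = 0} := by
      refine closure_minimal (fun z hz => ?_) hcl
      exact F.fdB2_out m (not_le.1 fun h => hz (Metric.mem_closedBall.2 h))
    rw [closure_compl, interior_closedBall _ hs2.ne'] at h1
    exact h1 fun h => absurd (Metric.mem_ball.1 h) (not_lt.2 hy)
  have hi : ∀ y, dist y F.x ≤ F.s1 → F.c0 m y = 0 := by
    intro y hy
    have h1 : closure (Metric.ball F.x F.s1) ⊆ {y | F.c0 m y = 0} := by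
      refine closure_minimal (fun z hz => ?_) hcl
      exact F.fdB2_in m (Metric.mem_ball.1 hz)
    rw [closure_ball _ hs1.ne'] at h1
    exact h1 (Metric.mem_closedBall.2 hy)
  have hsup : support (F.c0 m) ⊆ Metric.closedBall F.x F.s2 := by
    intro y hy
    by_contra h1
    exact hy (ho y (not_le.1 fun h => h1 (Metric.mem_closedBall.2 h)).le)
  refine ⟨⟨⟨hsm, HasCompactSupport.of_support_subset_isCompact (isCompact_closedBall _ _) hsup⟩, ?_, ?_⟩, ho, hi⟩
  · exact (closure_minimal hsup Metric.isClosed_closedBall).trans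
      ((Metric.closedBall_subset_closedBall F.h3.le).trans F.fl.ball)
  · intro y
    unfold FD.c0
    by_cases hD : y ∈ D
    · rw [if_pos hD, map_neg, fdB2_lapConj (f := F.P0 m) (fun z => Complex.conj_ofReal _)]
    · rw [if_neg hD, map_zero]

end FD

end Pool.Agent.Lib.MP_79abb3_an.PD
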