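import Pool.Agent.Lib.MP_79abb3_an.PD.FdB2

/-!
Theorem D, block F: exponential bounds for the potentials.
-/

set_option autoImplicit false
set_option linter.unusedSectionVars false

open MeasureTheory Set Filter Topology Function
open scoped ENNReal InnerProductSpace ComplexConjugate

namespace Pool.Agent.Lib.MP_79abb3_an.PD

open Pool.Agent.Lib.MP_79abb3_an.SC Pool.Agent.Lib.MP_79abb3_an.P25

private theorem fdb4_st : ∃ M, 0 ≤ M ∧ ∀ x, |deriv Real.smoothTransition x| ≤ M := by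
  have hc : Continuous (deriv Real.smoothTransition) :=
    (Real.smoothTransition.contDiff (n := 1)).continuous_deriv le_rfl
  obtain ⟨M, hM⟩ := (isCompact_Icc (a := (0 : ℝ)) (b := 1)).exists_bound_of_continuousOn
    hc.continuousOn
  refine ⟨max M 0, le_max_right _ _, fun x => ?_⟩
  by_cases hx : x ∈ Icc (0 : ℝ) 1
  · exact (hM x hx).trans (le_max_left _ _)
  · have h0 : deriv Real.smoothTransition x = 0 := by
      rw [mem_Icc, not_and_or, not_le, not_le] at hx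
      rcases hx with hx | hx
      · have h1 : Real.smoothTransition =ᶠ[𝓝 x] fun _ => 0 := by
          filter_upwards [Iio_mem_nhds hx] with z hz
          exact Real.smoothTransition.zero_of_nonpos (le_of_lt hz)
        rw [h1.deriv_eq]
        exact deriv_const _ _
      · have h1 : Real.smoothTransition =ᶠ[𝓝 x] fun _ => 1 := by
          filter_upwards [Ioi_mem_nhds hx] with z hz
          exact Real.smoothTransition.one_of_one_le (le_of_lt hz)
        rw [h1.deriv_eq]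
        exact deriv_const _ _
    rw [h0, abs_zero]
    exact le_max_right _ _

private theorem fdb4_prod {χ S I : ℂ → ℝ} {y : ℂ} {χ' S' I' : ℂ →L[ℝ] ℝ} (h1 : HasFDerivAt χ χ' y)
    (h2 : HasFDerivAt S S' y) (h3 : HasFDerivAt I I' y) {a b g E : ℝ} (b1 : ‖χ'‖ ≤ a) (b2 : ‖S'‖ ≤ b)
    (b3 : ‖I'‖ ≤ g) (c1 : |χ y| ≤ 1) (c2 : |S y| ≤ 1) (c3 : |I y| ≤ E) :
    ∃ L : ℂ →L[ℝ] ℝ, HasFDerivAt (fun z => χ z * S z * I z) L y ∧ ‖L‖ ≤ (a + b) * E + g := by
  refine ⟨_, (h1.mul h2).mul h3, ?_⟩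
  have ha : 0 ≤ a := (norm_nonneg _).trans b1
  have hb : 0 ≤ b := (norm_nonneg _).trans b2
  have hE : 0 ≤ E := (abs_nonneg _).trans c3
  have e1 : ‖(χ y * S y) • I'‖ ≤ g := by
    rw [norm_smul, Real.norm_eq_abs, abs_mul]
    calc |χ y| * |S y| * ‖I'‖ ≤ 1 * 1 * g := by gcongr
      _ = g := by ring
  have e2 : ‖I y • (χ y • S' + S y • χ')‖ ≤ (a + b) * E := by
    rw [norm_smul, Real.norm_eq_abs]
    have e3 : ‖χ y • S' + S y • χ'‖ ≤ a + b := by
      refine (norm_add_le _ _).trans ?_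
      rw [norm_smul, norm_smul, Real.norm_eq_abs, Real.norm_eq_abs]
      have f1 : |χ y| * ‖S'‖ ≤ 1 * b := by gcongr
      have f2 : |S y| * ‖χ'‖ ≤ 1 * a := by gcongr
      linarith
    calc |I y| * ‖χ y • S' + S y • χ'‖ ≤ E * (a + b) := by gcongr
      _ = (a + b) * E := by ring
  have e4 := norm_add_le ((χ y * S y) • I') (I y • (χ y • S' + S y • χ'))
  show ‖(χ y * S y) • I' + I y • (χ y • S' + S y • χ')‖ ≤ _
  linarith

private theorem fdb4_im {f : ℂ → ℂ} {y : ℂ} (hf : DifferentiableAt ℂ f y) : ∃ L : ℂ →L[ℝ] ℝ,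
    HasFDerivAt (fun z => (f z).im) L y ∧ ‖L‖ ≤ ‖deriv f y‖ := by
  refine ⟨Complex.imCLM.comp ((fderiv ℂ f y).restrictScalars ℝ),
    Complex.imCLM.hasFDerivAt.comp y (hf.hasFDerivAt.restrictScalars ℝ), ?_⟩
  refine ContinuousLinearMap.opNorm_le_bound _ (norm_nonneg _) fun v => ?_
  show ‖(fderiv ℂ f y v).im‖ ≤ _
  rw [fderiv_eq_smul_deriv, Real.norm_eq_abs]
  refine (Complex.abs_im_le_norm _).trans ?_
  rw [norm_smul, mul_comm]

private theorem fdb4_re {f : ℂ → ℂ} {y : ℂ} (hf : DifferentiableAt ℂ f y) : ∃ L : ℂ →L[ℝ] ℝ,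
    HasFDerivAt (fun z => (f z).re) L y ∧ ‖L‖ ≤ ‖deriv f y‖ := by
  refine ⟨Complex.reCLM.comp ((fderiv ℂ f y).restrictScalars ℝ),
    Complex.reCLM.hasFDerivAt.comp y (hf.hasFDerivAt.restrictScalars ℝ), ?_⟩
  refine ContinuousLinearMap.opNorm_le_bound _ (norm_nonneg _) fun v => ?_
  show ‖(fderiv ℂ f y v).re‖ ≤ _
  rw [fderiv_eq_smul_deriv, Real.norm_eq_abs]
  refine (Complex.abs_re_le_norm _).trans ?_
  rw [norm_smul, mul_comm]

private theorem fdb4_sm {h : ℂ → ℝ} {y : ℂ} (hh : DifferentiableAt ℝ h y) {M c G : ℝ} (hM0 : 0 ≤ M)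
    (hM : ∀ x, |deriv Real.smoothTransition x| ≤ M) (hc : 0 ≤ c) (hG : ‖fderiv ℝ h y‖ ≤ G) :
    ∃ L : ℂ →L[ℝ] ℝ, HasFDerivAt (fun z => Real.smoothTransition (c * h z - 1)) L y ∧
      ‖L‖ ≤ M * (c * G) := by
  have h1 : HasFDerivAt (fun z => c * h z - 1) (c • fderiv ℝ h y) y :=
    (hh.hasFDerivAt.const_mul c).sub_const 1
  have h2 : HasDerivAt Real.smoothTransition (deriv Real.smoothTransition (c * h y - 1)) (c * h y - 1) :=
    ((Real.smoothTransition.contDiff (n := 1)).differentiable (by simp) _).hasDerivAt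
  refine ⟨deriv Real.smoothTransition (c * h y - 1) • (c • fderiv ℝ h y),
    HasDerivAt.comp_hasFDerivAt (h₂ := Real.smoothTransition) (f := fun z => c * h z - 1) y h2 h1, ?_⟩
  rw [norm_smul, norm_smul, Real.norm_eq_abs, Real.norm_eq_abs, abs_of_nonneg hc]
  have := hM (c * h y - 1)
  gcongr

private theorem fdb4_of {f : ℂ → ℝ} {L : ℂ →L[ℝ] ℝ} {y : ℂ} (h : HasFDerivAt f L y) :
    ‖fderiv ℝ (fun z => ((f z : ℝ) : ℂ)) y‖ ≤ ‖L‖ := by
  have h1 : HasFDerivAt (fun z => ((f z : ℝ) : ℂ)) (Complex.ofRealCLM.comp L) y :=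
    Complex.ofRealCLM.hasFDerivAt.comp y h
  rw [h1.fderiv]
  refine (Complex.ofRealCLM.opNorm_comp_le L).trans ?_
  rw [Complex.ofRealCLM_norm, one_mul]

private theorem fdb4_two {L : ℂ →L[ℝ] ℝ} : |L 1| + |L Complex.I| ≤ 2 * ‖L‖ := by
  have h1 := L.le_opNorm 1
  have h2 := L.le_opNorm Complex.I
  rw [Real.norm_eq_abs, norm_one, mul_one] at h1
  rw [Real.norm_eq_abs, Complex.norm_I, mul_one] at h2
  linarith

private theorem fdb4_exp {B H : ℝ} {m : ℝ} :
    B * m * Real.exp (H * m) ≤ Real.exp ((B + H) * m) := by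
  rw [add_mul, Real.exp_add]
  refine mul_le_mul_of_nonneg_right ?_ (Real.exp_pos _).le
  have := Real.add_one_le_exp (B * m)
  linarith

private theorem fdb4_cosh {x b : ℝ} (h0 : 0 ≤ x) (h1 : x ≤ b) : Real.cosh x ≤ Real.exp b := by
  rw [Real.cosh_eq]
  have h2 : Real.exp (-x) ≤ Real.exp x := Real.exp_le_exp.2 (by linarith)
  have h3 : Real.exp x ≤ Real.exp b := Real.exp_le_exp.2 h1
  linarith

private theorem fdb4_zs {K m : ℝ} (hK : 1 ≤ K) (hm : 1 ≤ m) : (√(K / m))⁻¹ ≤ m := by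
  have hm0 : 0 < m := by linarith
  have h1 : m⁻¹ ≤ √(K / m) := by
    refine Real.le_sqrt_of_sq_le ?_
    rw [div_eq_mul_inv, sq]
    refine mul_le_mul_of_nonneg_right ?_ (inv_nonneg.2 hm0.le)
    exact (inv_le_one_of_one_le₀ hm).trans hK
  exact inv_le_of_inv_le₀ hm0 h1

private theorem fdb4_st01 (x : ℝ) : |Real.smoothTransition x| ≤ 1 := by
  rw [abs_of_nonneg (Real.smoothTransition.nonneg x)]
  exact Real.smoothTransition.le_one x

namespace FD
variable {D : Set ℂ} (F : FD D) {m : ℕ}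

/-- Exponential bounds for the cut off functions on `D`. -/
theorem P0_bd : ∃ C, 0 ≤ C ∧ ∀ m : ℕ, 1 ≤ m → ∀ y ∈ D, ‖fderiv ℝ (F.P0 m) y‖ ≤ Real.exp (C * m) ∧
    ‖fderiv ℝ (F.Ps m) y‖ ≤ Real.exp (C * m) ∧ |fderiv ℝ (F.Ph m) y 1| + |fderiv ℝ (F.Ph m) y Complex.I| ≤
      Real.exp (C * m) := by
  obtain ⟨M, hM0, hM⟩ := fdb4_st
  obtain ⟨A₀, hA₀⟩ := F.hD.bdd.isCompact_closure.exists_bound_of_continuousOn
    (F.χs.continuous_fderiv (by simp)).continuousOn
  obtain ⟨H₀, hH₀⟩ := F.fl.h_bdd F.hD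
  obtain ⟨G₀, hG₀⟩ := F.fl.gr_bdd F.hD
  obtain ⟨A, hA0, hA⟩ : ∃ A, 0 ≤ A ∧ ∀ y ∈ D, ‖fderiv ℝ F.χ y‖ ≤ A :=
    ⟨max A₀ 0, le_max_right _ _, fun y hy => (hA₀ y (subset_closure hy)).trans (le_max_left _ _)⟩
  obtain ⟨H, hH0, hH⟩ : ∃ H, 0 ≤ H ∧ ∀ y, F.h y ≤ H :=
    ⟨max H₀ 0, le_max_right _ _, fun y => (hH₀ y).trans (le_max_left _ _)⟩
  obtain ⟨G, hG0, hG⟩ : ∃ G, 0 ≤ G ∧ ∀ y ∈ D, ‖fderiv ℝ F.h y‖ ≤ G :=
    ⟨max G₀ 0, le_max_right _ _, fun y hy => by
      rw [← gr_norm]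
      exact (hG₀ y hy).trans (le_max_left _ _)⟩
  set B : ℝ := 2 * A + 2 * G + 2 * (M * G) with hB
  have hB0 : 0 ≤ B := by positivity
  refine ⟨B + H, by positivity, fun m hm y hy => ?_⟩
  have hm1 : (1 : ℝ) ≤ m := by exact_mod_cast hm
  have hm0 : (0 : ℝ) < m := by linarith
  by_cases hys : dist y F.x < F.s1
  · have hn : ∀ᶠ z in 𝓝 y, F.χ z = 0 := by
      filter_upwards [(continuous_id.dist continuous_const).isOpen_preimage _ isOpen_Iio |>.mem_nhds
        (show y ∈ (fun z => dist z F.x) ⁻¹' Iio F.s1 from hys)] with z hz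
      exact F.χ0 z (le_of_lt hz)
    have e1 : F.P0 m =ᶠ[𝓝 y] fun _ => 0 := by
      filter_upwards [hn] with z hz
      simp [FD.P0, hz]
    have e2 : F.Ps m =ᶠ[𝓝 y] fun _ => 0 := by
      filter_upwards [hn] with z hz
      simp [FD.Ps, hz]
    have e3 : F.Ph m =ᶠ[𝓝 y] fun _ => 0 := by
      filter_upwards [hn] with z hz
      simp [FD.Ph, hz]
    rw [e1.fderiv_eq, e2.fderiv_eq, e3.fderiv_eq]
    have h0 := (Real.exp_pos ((B + H) * m)).le
    refine ⟨?_, ?_, ?_⟩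
    · simpa using h0
    · simpa using h0
    · simpa using h0
  · have hys' : F.s1 ≤ dist y F.x := not_lt.1 hys
    have hy' : y ∈ D \ Metric.closedBall F.x F.s := by
      refine ⟨hy, fun h1 => ?_⟩
      rw [Metric.mem_closedBall] at h1
      have := F.h1
      linarith
    obtain ⟨-, d2, d3, d4⟩ := F.Fm_bd hm hy'
    have hd : DifferentiableAt ℂ (F.Fm m) y := (F.Fm_der hm hy').differentiableAt
    have hcosh : Real.cosh (m * F.h y) ≤ Real.exp (H * m) := by
      refine fdb4_cosh (mul_nonneg hm0.le (F.fl.nonneg y)) ?_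
      rw [mul_comm H]
      exact mul_le_mul_of_nonneg_left (hH y) hm0.le
    have hcm : Real.cosh (m * F.h y) / m ≤ Real.exp (H * m) := by
      refine (div_le_self (Real.cosh_pos _).le hm1).trans hcosh
    have hder : ‖deriv (F.Fm m) y‖ ≤ G * Real.exp (H * m) := by
      refine d2.trans ?_
      rw [gr_norm]
      exact mul_le_mul (hG y hy) hcosh (Real.cosh_pos _).le hG0
    have hχ : HasFDerivAt F.χ (fderiv ℝ F.χ y) y :=
      (F.χs.differentiable (by simp) y).hasFDerivAt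
    have hχ1 : |F.χ y| ≤ 1 := by
      rw [abs_of_nonneg (F.χ01 y).1]
      exact (F.χ01 y).2
    have hh : DifferentiableAt ℝ F.h y :=
      (F.fl.smooth.differentiableOn (by simp)).differentiableAt (F.hD.op.mem_nhds hy)
    obtain ⟨Li, hLi, bLi⟩ := fdb4_im hd
    obtain ⟨Lr, hLr, bLr⟩ := fdb4_re hd
    have hE0 := (Real.exp_pos (H * m)).le
    have key := fdb4_exp (B := B) (H := H) (m := m)
    have hone : HasFDerivAt (fun _ : ℂ => (1 : ℝ)) (0 : ℂ →L[ℝ] ℝ) y := hasFDerivAt_const _ _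
    have hmE : Real.exp (H * m) ≤ m * Real.exp (H * m) := le_mul_of_one_le_left hE0 hm1
    refine ⟨?_, ?_, ?_⟩
    · obtain ⟨L, hL, bL⟩ := fdb4_prod (b := 0) hχ hone hLi (hA y hy) (by simp) (bLi.trans hder) hχ1
        (by simp) (d4.trans hcm)
      have e1 : F.P0 m = fun z => ((F.χ z * 1 * (F.Fm m z).im : ℝ) : ℂ) := by
        funext z
        simp only [FD.P0, mul_one]
      rw [e1]
      refine ((fdb4_of hL).trans bL).trans (le_trans ?_ key)
      have f1 : (A + 0) * Real.exp (H * m) + G * Real.exp (H * m) ≤ (A + G) * (m * Real.exp (H * m)) := by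
        have := mul_le_mul_of_nonneg_left hmE (add_nonneg hA0 hG0)
        linarith
      refine f1.trans ?_
      have f2 : A + G ≤ B := by rw [hB]; nlinarith [mul_nonneg hM0 hG0]
      calc (A + G) * (m * Real.exp (H * m)) ≤ B * (m * Real.exp (H * m)) :=
            mul_le_mul_of_nonneg_right f2 (mul_nonneg hm0.le hE0)
        _ = B * m * Real.exp (H * m) := by ring
    · obtain ⟨S, hS, bS⟩ := fdb4_sm (c := 2 * m) hh hM0 hM (by positivity) (hG y hy)
      obtain ⟨L, hL, bL⟩ := fdb4_prod hχ hS hLi (hA y hy) bS (bLi.trans hder) hχ1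
        (fdb4_st01 _) (d4.trans hcm)
      refine ((fdb4_of hL).trans bL).trans (le_trans ?_ key)
      have f1 : (A + G) * Real.exp (H * m) ≤ (A + G) * (m * Real.exp (H * m)) :=
        mul_le_mul_of_nonneg_left hmE (add_nonneg hA0 hG0)
      have f2 : 0 ≤ (A + G) * (m * Real.exp (H * m)) := by positivity
      have f3 : (A + M * (2 * m * G)) * Real.exp (H * m) + G * Real.exp (H * m) =
          (A + G) * Real.exp (H * m) + 2 * (M * G) * (m * Real.exp (H * m)) := by ring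
      have f4 : B * m * Real.exp (H * m) = 2 * ((A + G) * (m * Real.exp (H * m))) +
          2 * (M * G) * (m * Real.exp (H * m)) := by rw [hB]; ring
      rw [f3, f4]
      linarith
    · obtain ⟨S, hS, bS⟩ := fdb4_sm (c := (F.zs m)⁻¹) hh hM0 hM (inv_nonneg.2 (Real.sqrt_nonneg _)) (hG y hy)
      obtain ⟨L, hL, bL⟩ := fdb4_prod hχ hS hLr (hA y hy) bS (bLr.trans hder) hχ1
        (fdb4_st01 _) (d3.trans hcm)
      have e1 : F.Ph m = fun z => F.χ z * Real.smoothTransition ((F.zs m)⁻¹ * F.h z - 1) * (F.Fm m z).re := by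
        funext z
        simp only [FD.Ph]
        rw [div_eq_inv_mul]
      rw [e1, hL.fderiv]
      refine (fdb4_two.trans (mul_le_mul_of_nonneg_left bL zero_le_two)).trans (le_trans ?_ key)
      have hz : (F.zs m)⁻¹ ≤ m := fdb4_zs (by exact_mod_cast F.K1) hm1
      have f0 : M * ((F.zs m)⁻¹ * G) ≤ M * (m * G) := by
        refine mul_le_mul_of_nonneg_left ?_ hM0
        exact mul_le_mul_of_nonneg_right hz hG0
      have f1 : (A + G) * Real.exp (H * m) ≤ (A + G) * (m * Real.exp (H * m)) :=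
        mul_le_mul_of_nonneg_left hmE (add_nonneg hA0 hG0)
      have f3 : M * ((F.zs m)⁻¹ * G) * Real.exp (H * m) ≤ M * (m * G) * Real.exp (H * m) :=
        mul_le_mul_of_nonneg_right f0 hE0
      have f4 : B * m * Real.exp (H * m) = 2 * ((A + G) * (m * Real.exp (H * m))) +
          2 * (M * (m * G) * Real.exp (H * m)) := by rw [hB]; ring
      have f5 : 2 * ((A + M * ((F.zs m)⁻¹ * G)) * Real.exp (H * m) + G * Real.exp (H * m)) =
          2 * ((A + G) * Real.exp (H * m)) + 2 * (M * ((F.zs m)⁻¹ * G) * Real.exp (H * m)) := by ring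
      rw [f4, f5]
      linarith

end FD

end Pool.Agent.Lib.MP_79abb3_an.PD
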