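import Pool.Agent.Lib.MP_79abb3_an.PD.ScB
import Pool.Agent.Lib.MP_79abb3_an.PD.AbW

/-!
Theorem D, scalar theory: the linear transport-diffusion problem with a given velocity, weighted energies.
-/

set_option autoImplicit false
set_option linter.unusedSectionVars false

open MeasureTheory Set Filter Topology Function
open scoped ENNReal InnerProductSpace ComplexConjugate

namespace Pool.Agent.Lib.MP_79abb3_an.PD

open Pool.Agent.Lib.MP_79abb3_an.SC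

section
variable {X V : Type} [NormedAddCommGroup X] [InnerProductSpace ℂ X] [CompleteSpace X]
  [NormedAddCommGroup V] [InnerProductSpace ℂ V] [CompleteSpace V] {ι : V →L[ℂ] X} {a b : ℝ}

/-- **Weighted energy identity** of weak solutions. Proof: `FDom.tst_of_weak`, `Tst.energy_int` with `M` and
`p = Q⁻¹ (M' v)`: `M (ι v) = ι (M' v) = Kh p`. -/
theorem FDom.energyM (hd : FDom ι) {A : Type} {e : A → V} (he : DenseRange e) {v F : ℝ → V}
    (hv : ContinuousOn v (Icc a b)) (hF : ContinuousOn F (Icc a b))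
    (h : ∀ α : A, ∀ s t, a ≤ s → s ≤ t → t ≤ b →
      ⟪ι (e α), ι (v t)⟫_ℂ - ⟪ι (e α), ι (v s)⟫_ℂ = ∫ r in s..t, ⟪e α, F r⟫_ℂ)
    {M : X →L[ℂ] X} {M' : V →L[ℂ] V} (hM : ∀ x y, ⟪M x, y⟫_ℂ = ⟪x, M y⟫_ℂ) (hM' : ∀ v, ι (M' v) = M (ι v))
    {s t : ℝ} (hs : a ≤ s) (hst : s ≤ t) (ht : t ≤ b) :
    (⟪M (ι (v t)), ι (v t)⟫_ℂ).re - (⟪M (ι (v s)), ι (v s)⟫_ℂ).re = 2 * ∫ r in s..t, (⟪M' (v r), F r⟫_ℂ).re := by
  have hi : Isometry (Qv ι) := AddMonoidHomClass.isometry_of_norm _ hd.norm_Qv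
  have hlift : ∀ g : ℝ → V, ContinuousOn g (Icc a b) →
      ∃ x : ℝ → X, ContinuousOn x (Icc a b) ∧ ∀ t, Qv ι (x t) = g t := by
    intro g hg
    choose x hx using fun t => hd.Qv_surj (g t)
    refine ⟨x, ?_, hx⟩
    rw [hi.isUniformInducing.isInducing.continuousOn_iff]
    exact hg.congr fun t _ => hx t
  obtain ⟨x, hxc, hx⟩ := hlift v hv
  obtain ⟨ℓ, hlc, hl⟩ := hlift F hF
  obtain ⟨p, hpc, hp⟩ := hlift (fun t => M' (v t)) (M'.continuous.comp_continuousOn hv)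
  have hT : Tst (KF ι) a b (fun t => Kh (KF ι) (x t)) ℓ := hd.tst_of_weak he hxc hlc (by
    intro α s t hs hst ht
    simp only [hx, hl]
    exact h α s t hs hst ht)
  have h1 := hT.energy_int hM hpc (fun t _ => by
    show M (Kh (KF ι) (x t)) = Kh (KF ι) (p t)
    rw [← hd.ι_Qv, ← hd.ι_Qv, hx, hp, hM']) hs hst ht
  have h2 : ∀ t, Kh (KF ι) (x t) = ι (v t) := fun t => by rw [← hd.ι_Qv, hx]
  have h3 : ∀ t, ⟪p t, ℓ t⟫_ℂ = ⟪M' (v t), F t⟫_ℂ := fun t => by rw [← hd.inner_Qv, hp, hl]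
  simp only [h2, h3] at h1
  exact h1

end

section
variable {D : Set ℂ}

/-- The linear problem: `o = js q` solves `o_t = Δo - u·∇o - W o + s₁ + s₂`, `u = iot v`. -/
structure Lpr (D : Set ℂ) (v : ℝ → VD D) (W : ℝ → ℂ → ℂ) (s1 : ℝ → L2c) (s2 : ℝ → Yd L4c) (a b : ℝ)
    (q : ℝ → SV D) : Prop where
  cq : ContinuousOn q (Icc a b)
  eq : ∀ φ : SV D, ∀ s t, a ≤ s → s ≤ t → t ≤ b →
    ⟪js D φ, js D (q t)⟫_ℂ - ⟪js D φ, js D (q s)⟫_ℂ = ∫ r in s..t,
      (-⟪φ, q r⟫_ℂ + TR (jj D (v r)) (q r : Y2) (j4 D φ) -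
        ⟪((js D φ : XS D) : L2c), mm (W r) ((js D (q r) : XS D) : L2c)⟫_ℂ +
        ⟪((js D φ : XS D) : L2c), s1 r⟫_ℂ + s2 r (j4 D φ))

/-- the data of the linear problem -/
structure LprD (D : Set ℂ) (v : ℝ → VD D) (W : ℝ → ℂ → ℂ) (s1 : ℝ → L2c) (s2 : ℝ → Yd L4c) (a b : ℝ) :
    Prop where
  cv : ContinuousOn v (Icc a b)
  rv : ∀ t ∈ Icc a b, cVD D (v t) = v t
  bW : ∀ t ∈ Icc a b, ∃ c, Bm (W t) c
  cW : ContinuousOn (fun t => mm (W t)) (Icc a b)
  rW : ∀ t ∈ Icc a b, ∀ x, conj (W t x) = W t x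
  c1 : ContinuousOn s1 (Icc a b)
  r1 : ∀ t ∈ Icc a b, cL2 (s1 t) = s1 t
  c2 : ContinuousOn s2 (Icc a b)
  r2 : ∀ t ∈ Icc a b, cY cL4 cL4_anti (s2 t) = s2 t

variable {v : ℝ → VD D} {W : ℝ → ℂ → ℂ} {s1 : ℝ → L2c} {s2 : ℝ → Yd L4c} {a b : ℝ}

private theorem scC_inv (hD : Bornology.IsBounded D) (x : XS D) : cXS D (cXS D x) = x :=
  (FCjS hD).X.inv x

private theorem scC_in (hD : Bornology.IsBounded D) (x y : XS D) : ⟪cXS D x, cXS D y⟫_ℂ = ⟪y, x⟫_ℂ :=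
  (FCjS hD).X.inner x y

private theorem scC_Qv (hD : Bornology.IsBounded D) (x : XS D) :
    cSV D (Qv (js D) x) = Qv (js D) (cXS D x) := (FCjS hD).Qv (fdomS hD) x

private theorem scC_js (hD : Bornology.IsBounded D) (w : SV D) : cXS D (js D w) = js D (cSV D w) :=
  (FCjS hD).ι w

private theorem scC_jj (hD : Bornology.IsBounded D) (w : VD D) : cZ4 (jj D w) = jj D (cVD D w) :=
  (FCj_D hD).j w

private theorem scC_c2inv (x : L2c) : cL2 (cL2 x) = x := Cnj_cL2.inv x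

private theorem scC_c2in (x y : L2c) : ⟪cL2 x, cL2 y⟫_ℂ = ⟪y, x⟫_ℂ := Cnj_cL2.inner x y

private theorem scC_PSconj (hD : Bornology.IsBounded D) (y : L2c) : cXS D (PS D y) = PS D (cL2 y) := by
  refine ext_inner_left ℂ fun x => ?_
  rw [inner_PS]
  have h1 := scC_in hD (cXS D x) (PS D y)
  rw [scC_inv hD] at h1
  have h2 := scC_c2in (x : L2c) (cL2 y)
  rw [scC_c2inv] at h2
  have h3 : ⟪PS D y, cXS D x⟫_ℂ = conj ⟪cL2 (x : L2c), y⟫_ℂ := by
    rw [← inner_conj_symm (PS D y) (cXS D x)]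
    exact congrArg _ (inner_PS D (cXS D x) y)
  rw [h1, h3, h2, inner_conj_symm]

private theorem scC_PSself (x : XS D) : PS D (x : L2c) = x := by
  refine ext_inner_left ℂ fun y => ?_
  rw [inner_PS]; rfl

private noncomputable def scC_G (D : Set ℂ) (v : ℝ → VD D) (t : ℝ) : XS D →L[ℂ] Yd L4c :=
  (TR (jj D (v t))).comp ((SV D).subtypeL.comp (Qv (js D)))

private noncomputable def scC_B (D : Set ℂ) (W : ℝ → ℂ → ℂ) (t : ℝ) : XS D →L[ℂ] XS D :=
  -((PS D).comp ((mm (W t)).comp ((XS D).subtypeL.comp ((js D).comp (Qv (js D))))))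

/-- The Riesz representative of the right side. -/
private noncomputable def scC_F (D : Set ℂ) (v : ℝ → VD D) (W : ℝ → ℂ → ℂ) (s1 : ℝ → L2c)
    (s2 : ℝ → Yd L4c) (q : ℝ → SV D) (r : ℝ) : SV D :=
  -q r + Qv (js D) (J3 (js D) (j4 D) (TR (jj D (v r)) (q r : Y2) + s2 r)) +
    ContinuousLinearMap.adjoint (js D) (PS D (s1 r - mm (W r) ((js D (q r) : XS D) : L2c)))

private theorem scC_inner (hD : Bornology.IsBounded D) (q : ℝ → SV D) (w : SV D) (r : ℝ) :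
    ⟪w, scC_F D v W s1 s2 q r⟫_ℂ = -⟪w, q r⟫_ℂ + TR (jj D (v r)) (q r : Y2) (j4 D w) -
        ⟪((js D w : XS D) : L2c), mm (W r) ((js D (q r) : XS D) : L2c)⟫_ℂ +
        ⟪((js D w : XS D) : L2c), s1 r⟫_ℂ + s2 r (j4 D w) := by
  unfold scC_F
  rw [(fdomS hD).riesz, inner_PS, inner_sub_right]
  have e : (TR (jj D (v r)) (q r : Y2) + s2 r) (j4 D w) =
      TR (jj D (v r)) (q r : Y2) (j4 D w) + s2 r (j4 D w) := rfl
  rw [e]
  ring

private theorem scC_Fcont (h : LprD D v W s1 s2 a b) {q : ℝ → SV D} (hq : ContinuousOn q (Icc a b)) :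
    ContinuousOn (scC_F D v W s1 s2 q) (Icc a b) := by
  unfold scC_F
  have h1 : ContinuousOn (fun r => TR (jj D (v r)) ((q r : SV D) : Y2)) (Icc a b) :=
    (TR.continuous.comp_continuousOn ((jj D).continuous.comp_continuousOn h.cv)).clm_apply
      (continuous_subtype_val.comp_continuousOn hq)
  have h2 : ContinuousOn (fun r => mm (W r) ((js D (q r) : XS D) : L2c)) (Icc a b) :=
    h.cW.clm_apply (continuous_subtype_val.comp_continuousOn ((js D).continuous.comp_continuousOn hq))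
  refine (hq.neg.add ?_).add ?_
  · exact (Qv (js D)).continuous.comp_continuousOn
      ((J3 (js D) (j4 D)).continuous.comp_continuousOn (h1.add h.c2))
  · exact (ContinuousLinearMap.adjoint (js D)).continuous.comp_continuousOn
      ((PS D).continuous.comp_continuousOn (h.c1.sub h2))

/-- **Existence.** Proof: `exists_lin` for `K = KF (js D)`, `J3 (js D) (j4 D)`, `G t x = TR (jj (v t)) (Qv x)`,
`f t = PS (s1 t)`, `B t x = -PS (mm (W t) (js (Qv x)))`, `x₀ = Q⁻¹ q₀`; `tst_weak`, `inner_rhs`. -/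
theorem exists_Lpr (hD : Bornology.IsBounded D) (hab : a ≤ b) (h : LprD D v W s1 s2 a b) {q₀ : SV D}
    (hq : cSV D q₀ = q₀) : ∃ q, Lpr D v W s1 s2 a b q ∧ q a = q₀ ∧ ∀ t ∈ Icc a b, cSV D (q t) = q t := by
  have hd := fdomS hD
  have hF := FCjS hD
  obtain ⟨C, hL⟩ := exists_LadS hD
  have hK := KF_nonneg (js D)
  have hi : Isometry (Qv (js D)) := AddMonoidHomClass.isometry_of_norm _ hd.norm_Qv
  obtain ⟨x₀, hx₀⟩ := hd.Qv_surj q₀
  have h0 : cXS D x₀ = x₀ := by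
    apply hi.injective
    rw [← scC_Qv hD, hx₀, hq]
  have cG : ContinuousOn (scC_G D v) (Icc a b) := by
    unfold scC_G
    exact (TR.continuous.comp_continuousOn ((jj D).continuous.comp_continuousOn h.cv)).clm_comp
      continuousOn_const
  have cB : ContinuousOn (scC_B D W) (Icc a b) := by
    unfold scC_B
    exact (continuousOn_const.clm_comp (h.cW.clm_comp continuousOn_const)).neg
  have hvr : ∀ t ∈ Icc a b, cZ4 (jj D (v t)) = jj D (v t) := fun t ht => by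
    rw [scC_jj hD, h.rv t ht]
  obtain ⟨x, hm, hr, hT⟩ := exists_lin (J3 := J3 (js D) (j4 D)) (C := C) hK hd.K_inj hL.C0
    (fun τ hτ y => hL.AS_J3 hτ y) hab (G := scC_G D v) (s := s2) (f := fun t => PS D (s1 t))
    (B := scC_B D W) cG h.c2 ((PS D).continuous.comp_continuousOn h.c1) cB (cX := cXS D)
    (cY := cY cL4 cL4_anti) hF.X (hF.K hd) (hF.J3 hd) (fun t ht x => by
      show cY cL4 cL4_anti (TR (jj D (v t)) ((Qv (js D) x : SV D) : Y2)) =
        TR (jj D (v t)) ((Qv (js D) (cXS D x) : SV D) : Y2)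
      rw [TR_conj, hvr t ht, ← scC_Qv hD]
      rfl) h.r2 (fun t ht => by
      show cXS D (PS D (s1 t)) = PS D (s1 t)
      rw [scC_PSconj hD, h.r1 t ht]) (fun t ht x => by
      show cXS D (-(PS D (mm (W t) ((js D (Qv (js D) x) : XS D) : L2c)))) =
        -(PS D (mm (W t) ((js D (Qv (js D) (cXS D x)) : XS D) : L2c)))
      obtain ⟨c, hc⟩ := h.bW t ht
      have e1 : (fun y => conj (W t y)) = W t := funext (h.rW t ht)
      rw [map_neg, scC_PSconj hD, mm_conj hc, e1, ← scC_Qv hD, ← scC_js hD]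
      rfl) h0
  refine ⟨fun t => Qv (js D) (x t), ⟨(Qv (js D)).continuous.comp_continuousOn hm.cont, ?_⟩, ?_, ?_⟩
  · intro φ s t hs hst ht
    have h1 := hd.tst_weak hT φ hs hst ht
    rw [h1]
    refine intervalIntegral.integral_congr fun r _ => ?_
    show ⟪φ, Qv (js D) (J3 (js D) (j4 D) (scC_G D v r (x r) + s2 r) +
      Kh (KF (js D)) (PS D (s1 r) + scC_B D W r (x r)) - x r)⟫_ℂ = _
    rw [hd.inner_rhs, inner_add_right, inner_PS]
    have e1 : (scC_G D v r (x r) + s2 r) (j4 D φ) =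
        TR (jj D (v r)) ((Qv (js D) (x r) : SV D) : Y2) (j4 D φ) + s2 r (j4 D φ) := rfl
    have e2 : ⟪js D φ, scC_B D W r (x r)⟫_ℂ =
        -⟪((js D φ : XS D) : L2c), mm (W r) ((js D (Qv (js D) (x r)) : XS D) : L2c)⟫_ℂ := by
      rw [← inner_PS]
      exact inner_neg_right _ _
    rw [e1, e2]
    ring
  · have h1 := hm.eq a ⟨le_rfl, hab⟩
    rw [sub_self, intervalIntegral.integral_same, add_zero, Sg_zero] at h1
    show Qv (js D) (x a) = q₀
    rw [h1]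
    exact hx₀
  · intro t ht
    show cSV D (Qv (js D) (x t)) = Qv (js D) (x t)
    exact (scC_Qv hD (x t)).trans (congrArg (Qv (js D)) (hr t ht))

private theorem scC_re {M W : ℂ → ℂ} {c c' : ℝ} (h : Bm M c) (h' : Bm W c')
    (hr : ∀ x, conj (M x) = M x) (hr' : ∀ x, conj (W x) = W x) (f : L2c) :
    (⟪mm M f, mm W f⟫_ℂ).re = ∫ x, (M x).re * (W x).re * ‖(f : ℂ → ℂ) x‖ ^ 2 := by
  rw [L2.inner_def]
  have h1 := integral_re (L2.integrable_inner (𝕜 := ℂ) (mm M f) (mm W f))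
  refine h1.symm.trans (integral_congr_ae ?_)
  filter_upwards [mm_coe h f, mm_coe h' f] with x e1 e2
  show (⟪(mm M f : ℂ → ℂ) x, (mm W f : ℂ → ℂ) x⟫_ℂ).re = _
  rw [e1, e2]
  have e3 : (M x) = ((M x).re : ℂ) := (Complex.conj_eq_iff_re.1 (hr x)).symm
  have e4 : (W x) = ((W x).re : ℂ) := (Complex.conj_eq_iff_re.1 (hr' x)).symm
  rw [e3, e4]
  simp only [RCLike.inner_apply, map_mul, Complex.conj_ofReal, Complex.ofReal_re]
  have e5 : (f : ℂ → ℂ) x * conj ((f : ℂ → ℂ) x) = ((‖(f : ℂ → ℂ) x‖ ^ 2 : ℝ) : ℂ) := by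
    rw [Complex.mul_conj, Complex.normSq_eq_norm_sq]
  have e6 : ((W x).re : ℂ) * (f : ℂ → ℂ) x * (((M x).re : ℂ) * conj ((f : ℂ → ℂ) x)) =
      (((M x).re * (W x).re * ‖(f : ℂ → ℂ) x‖ ^ 2 : ℝ) : ℂ) := by
    rw [show ((W x).re : ℂ) * (f : ℂ → ℂ) x * (((M x).re : ℂ) * conj ((f : ℂ → ℂ) x)) =
      ((M x).re : ℂ) * ((W x).re : ℂ) * ((f : ℂ → ℂ) x * conj ((f : ℂ → ℂ) x)) by ring, e5]
    push_cast
    ring
  rw [e6, Complex.ofReal_re]

private theorem scC_re5 (a b c d e : ℂ) :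
    (-a + b - c + d + e).re = -a.re + b.re - c.re + d.re + e.re := by
  simp

private theorem scC_one : Bm (fun _ => 1) 1 := ⟨aestronglyMeasurable_const, fun _ => by simp⟩

private theorem scC_mm1 (f : L2c) : mm (fun _ => 1) f = f := by
  refine Lp.ext ?_
  filter_upwards [mm_coe scC_one f] with x e
  rw [e, one_mul]

private theorem scC_Wg {M : ℂ → ℂ} {c : ℝ} (h : Wg M c) : Bm M c :=
  ⟨h.smo.continuous.aestronglyMeasurable, fun x => (h.bd x).1⟩

private theorem scC_sq (f : L2c) : Integrable fun x => ‖(f : ℂ → ℂ) x‖ ^ 2 :=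
  (Lp.memLp f).norm.integrable_sq

private theorem scC_i1 {g : ℂ → ℂ} {c : ℝ} (hg : Bm g c) (f : L2c) :
    Integrable fun x => (g x).re * ‖(f : ℂ → ℂ) x‖ ^ 2 := by
  refine (scC_sq f).bdd_mul (c := c) (Complex.continuous_re.comp_aestronglyMeasurable hg.1) ?_
  filter_upwards with x
  exact (RCLike.norm_re_le_norm (g x)).trans (hg.2 x)

private theorem scC_i2 {g : ℂ → ℂ} {c : ℝ} (hg : Bm g c) (u f : L2c) {f4 : L4c}
    (hf : (f4 : ℂ → ℂ) =ᵐ[volume] f) :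
    Integrable fun x => ((u : ℂ → ℂ) x * g x).re * ‖(f : ℂ → ℂ) x‖ ^ 2 := by
  have h1 : MemLp (fun x => ‖(f : ℂ → ℂ) x‖ ^ (2 : ℝ)) 2 (volume : Measure ℂ) := by
    have h2 := (Lp.memLp f4).norm_rpow_div 2
    have h3 : (4 : ℝ≥0∞) / 2 = 2 := by
      rw [show (4 : ℝ≥0∞) = 2 * 2 by norm_num]
      exact ENNReal.mul_div_cancel_right (by norm_num) (by norm_num)
    rw [h3] at h2
    refine h2.ae_eq ?_
    filter_upwards [hf] with x e
    rw [e, ENNReal.toReal_ofNat]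
  have h2 : MemLp (fun x => ((mm g u : L2c) : ℂ → ℂ) x) 2 (volume : Measure ℂ) := Lp.memLp _
  have h3 : Integrable (fun x => (((mm g u : L2c) : ℂ → ℂ) x).re * ‖(f : ℂ → ℂ) x‖ ^ (2 : ℝ)) := by
    have h4 : MemLp (fun x => (((mm g u : L2c) : ℂ → ℂ) x).re) 2 (volume : Measure ℂ) := h2.re
    exact h4.integrable_mul h1
  refine h3.congr ?_
  filter_upwards [mm_coe hg u] with x e
  rw [e, mul_comm (g x)]
  norm_cast

/-- **Weighted energy identity.** Proof: `FDom.energyM` with `F r` = Riesz representative (`FDom.riesz`), `js_mS`, `mS_self`,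
`TR_mS`, `mm_inner`. -/
theorem Lpr.energy (hD : Bornology.IsBounded D) (h : LprD D v W s1 s2 a b) {q : ℝ → SV D}
    (hq : Lpr D v W s1 s2 a b q) {M : ℂ → ℂ} {c : ℝ} (hM : Wg M c) {s t : ℝ} (hs : a ≤ s) (hst : s ≤ t)
    (ht : t ≤ b) :
    (∫ x, (M x).re * ‖((js D (q t) : XS D) : L2c) x‖ ^ 2) - ∫ x, (M x).re * ‖((js D (q s) : XS D) : L2c) x‖ ^ 2 =
      ∫ r in s..t, (-2 * (∫ x, (M x).re * (‖(q r : Y2).fst x‖ ^ 2 + ‖(q r : Y2).snd x‖ ^ 2)) +
        (∫ x, ((lap M x).re + (((iot D (v r) : XD D) : Y2).fst x * px M x +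
          ((iot D (v r) : XD D) : Y2).snd x * py M x).re) * ‖((js D (q r) : XS D) : L2c) x‖ ^ 2) -
        2 * (∫ x, (M x).re * (W r x).re * ‖((js D (q r) : XS D) : L2c) x‖ ^ 2) +
        2 * (⟪mm M ((js D (q r) : XS D) : L2c), s1 r⟫_ℂ).re +
        2 * (s2 r (j4 D (mS hD hM (q r)))).re) := by
  set N : XS D →L[ℂ] XS D := (PS D).comp ((mm M).comp (XS D).subtypeL) with hN
  have hB := scC_Wg hM
  have eM : (fun x => conj (M x)) = M := funext hM.real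
  have hsym : ∀ x y : XS D, ⟪N x, y⟫_ℂ = ⟪x, N y⟫_ℂ := by
    intro x y
    have e0 : ⟪y, N x⟫_ℂ = ⟪(y : L2c), mm M (x : L2c)⟫_ℂ := inner_PS D y _
    have e3 : conj ⟪y, N x⟫_ℂ = ⟪N x, y⟫_ℂ := inner_conj_symm (𝕜 := ℂ) (N x) y
    have e4 : conj ⟪(y : L2c), mm M (x : L2c)⟫_ℂ = ⟪mm M (x : L2c), (y : L2c)⟫_ℂ :=
      inner_conj_symm (𝕜 := ℂ) _ _
    have e1 : ⟪N x, y⟫_ℂ = ⟪mm M (x : L2c), (y : L2c)⟫_ℂ := by rw [← e3, e0, e4]
    have e2 : ⟪x, N y⟫_ℂ = ⟪(x : L2c), mm M (y : L2c)⟫_ℂ := inner_PS D x _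
    rw [e1, e2, mm_inner hB, eM]
  have hNj : ∀ w : SV D, js D (mS hD hM w) = N (js D w) := by
    intro w
    show _ = PS D (mm M ((js D w : XS D) : L2c))
    rw [← js_mS hD hM w, scC_PSself]
  have key := (fdomS hD).energyM (A := SV D) (e := id) denseRange_id hq.cq (scC_Fcont h hq.cq)
    (fun φ s t hs hst ht => by
      rw [show (id φ : SV D) = φ from rfl, hq.eq φ s t hs hst ht]
      exact intervalIntegral.integral_congr fun r _ => (scC_inner hD q φ r).symm) hsym hNj hs hst ht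
  have hL : ∀ w : SV D, (⟪N (js D w), js D w⟫_ℂ).re = ∫ x, (M x).re * ‖((js D w : XS D) : L2c) x‖ ^ 2 := by
    intro w
    rw [hsym]
    have e2 : ⟪js D w, N (js D w)⟫_ℂ = ⟪mm (fun _ => 1) ((js D w : XS D) : L2c),
        mm M ((js D w : XS D) : L2c)⟫_ℂ := by
      rw [scC_mm1]
      exact inner_PS D _ _
    rw [e2, scC_re scC_one hB (fun _ => by simp) hM.real]
    simp
  rw [hL, hL] at key
  rw [key, ← intervalIntegral.integral_const_mul]
  refine intervalIntegral.integral_congr fun r hr => ?_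
  rw [uIcc_of_le hst] at hr
  have hr' : r ∈ Icc a b := ⟨hs.trans hr.1, hr.2.trans ht⟩
  obtain ⟨c', hc'⟩ := h.bW r hr'
  show 2 * (⟪mS hD hM (q r), scC_F D v W s1 s2 q r⟫_ℂ).re = _
  rw [scC_inner hD]
  have t1 := mS_self hD hM (q r)
  have t2 := TR_mS hD hM (h.rv r hr') (q r)
  have t3 := js_mS hD hM (q r)
  have t4 := scC_re hB hc' hM.real (h.rW r hr') ((js D (q r) : XS D) : L2c)
  rw [t3]
  rw [scC_re5, t4]
  have hsum : (∫ x, ((lap M x).re + (((iot D (v r) : XD D) : Y2).fst x * px M x +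
          ((iot D (v r) : XD D) : Y2).snd x * py M x).re) * ‖((js D (q r) : XS D) : L2c) x‖ ^ 2) =
      (∫ x, (lap M x).re * ‖((js D (q r) : XS D) : L2c) x‖ ^ 2) +
        ∫ x, ((((iot D (v r) : XD D) : Y2).fst x * px M x +
          ((iot D (v r) : XD D) : Y2).snd x * py M x).re) * ‖((js D (q r) : XS D) : L2c) x‖ ^ 2 := by
    have i1 := scC_i1 (g := lap M) (c := c) ⟨hM.smo.lap.continuous.aestronglyMeasurable,
      fun x => (hM.bd x).2.2.2⟩ ((js D (q r) : XS D) : L2c)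
    have i2 := scC_i2 (g := px M) (c := c) ⟨hM.smo.px.continuous.aestronglyMeasurable,
      fun x => (hM.bd x).2.1⟩ ((iot D (v r) : XD D) : Y2).fst _ (j4_ae hD (q r))
    have i3 := scC_i2 (g := py M) (c := c) ⟨hM.smo.py.continuous.aestronglyMeasurable,
      fun x => (hM.bd x).2.2.1⟩ ((iot D (v r) : XD D) : Y2).snd _ (j4_ae hD (q r))
    rw [← integral_add i1]
    · refine integral_congr_ae (Eventually.of_forall fun x => ?_)
      show _ = _
      ring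
    · refine (i2.add i3).congr (Eventually.of_forall fun x => ?_)
      simp only [Pi.add_apply, Complex.add_re, add_mul]
  beta_reduce
  rw [hsum, ← t2]
  linarith [t1]

private theorem scC_px1 : px (fun _ => (1 : ℂ)) = fun _ => 0 := by
  funext x; show fderiv ℝ (fun _ : ℂ => (1 : ℂ)) x 1 = 0; simp

private theorem scC_py1 : py (fun _ => (1 : ℂ)) = fun _ => 0 := by
  funext x; show fderiv ℝ (fun _ : ℂ => (1 : ℂ)) x Complex.I = 0; simp

private theorem scC_lap1 : lap (fun _ => (1 : ℂ)) = fun _ => 0 := by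
  funext x
  show px (px fun _ => (1 : ℂ)) x + py (py fun _ => (1 : ℂ)) x = 0
  rw [scC_px1, scC_py1]
  show fderiv ℝ (fun _ : ℂ => (0 : ℂ)) x 1 + fderiv ℝ (fun _ : ℂ => (0 : ℂ)) x Complex.I = 0
  simp

private theorem scC_Wg1 : Wg (fun _ => 1) 1 := by
  refine ⟨contDiff_const, fun x => by simp, fun x => ?_⟩
  rw [scC_px1, scC_py1, scC_lap1]
  simp

private theorem scC_n2 (f : L2c) : ∫ x, ‖(f : ℂ → ℂ) x‖ ^ 2 = ‖f‖ ^ 2 := by
  have h1 := scC_re scC_one scC_one (fun _ => by simp) (fun _ => by simp) f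
  rw [scC_mm1] at h1
  have h2 : (⟪f, f⟫_ℂ).re = ‖f‖ ^ 2 := inner_self_eq_norm_sq (𝕜 := ℂ) f
  rw [← h2, h1]
  simp

/-- The plain energy identity (`M = 1`). -/
theorem Lpr.energy1 (hD : Bornology.IsBounded D) (h : LprD D v W s1 s2 a b) {q : ℝ → SV D}
    (hq : Lpr D v W s1 s2 a b q) {s t : ℝ} (hs : a ≤ s) (hst : s ≤ t) (ht : t ≤ b) :
    ‖js D (q t)‖ ^ 2 - ‖js D (q s)‖ ^ 2 = ∫ r in s..t, (-2 * ‖q r‖ ^ 2 -
        2 * (∫ x, (W r x).re * ‖((js D (q r) : XS D) : L2c) x‖ ^ 2) +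
        2 * (⟪((js D (q r) : XS D) : L2c), s1 r⟫_ℂ).re + 2 * (s2 r (j4 D (q r))).re) := by
  have hone : ∀ w : SV D, mS hD scC_Wg1 w = w := by
    intro w
    have h1 : js D (mS hD scC_Wg1 w) = js D w := Subtype.ext (by rw [js_mS, scC_mm1])
    have h2 : js D (mS hD scC_Wg1 w - w) = 0 := by rw [map_sub, h1, sub_self]
    exact sub_eq_zero.1 ((fdomS hD).inj _ h2)
  have key := hq.energy hD h scC_Wg1 hs hst ht
  have hL : ∀ w : SV D, (∫ x, (1 : ℂ).re * ‖((js D w : XS D) : L2c) x‖ ^ 2) = ‖js D w‖ ^ 2 := by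
    intro w
    simp only [Complex.one_re, one_mul]
    exact scC_n2 _
  rw [hL, hL] at key
  rw [key]
  refine intervalIntegral.integral_congr fun r _ => ?_
  have i1 : (∫ x, (1 : ℂ).re * (‖(q r : Y2).fst x‖ ^ 2 + ‖(q r : Y2).snd x‖ ^ 2)) = ‖q r‖ ^ 2 := by
    simp only [Complex.one_re, one_mul]
    rw [integral_add (scC_sq _) (scC_sq _), scC_n2, scC_n2]
    exact (WithLp.prod_norm_sq_eq_of_L2 (q r : Y2)).symm
  have i2 : (∫ x, ((lap (fun _ => (1 : ℂ)) x).re + (((iot D (v r) : XD D) : Y2).fst x *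
      px (fun _ => (1 : ℂ)) x + ((iot D (v r) : XD D) : Y2).snd x * py (fun _ => (1 : ℂ)) x).re) *
        ‖((js D (q r) : XS D) : L2c) x‖ ^ 2) = 0 := by
    rw [scC_px1, scC_py1, scC_lap1]
    simp
  show -2 * (∫ x, (1 : ℂ).re * (‖(q r : Y2).fst x‖ ^ 2 + ‖(q r : Y2).snd x‖ ^ 2)) +
      (∫ x, ((lap (fun _ => (1 : ℂ)) x).re + (((iot D (v r) : XD D) : Y2).fst x *
      px (fun _ => (1 : ℂ)) x + ((iot D (v r) : XD D) : Y2).snd x * py (fun _ => (1 : ℂ)) x).re) *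
        ‖((js D (q r) : XS D) : L2c) x‖ ^ 2) -
      2 * (∫ x, (1 : ℂ).re * (W r x).re * ‖((js D (q r) : XS D) : L2c) x‖ ^ 2) +
      2 * (⟪mm (fun _ => 1) ((js D (q r) : XS D) : L2c), s1 r⟫_ℂ).re +
      2 * (s2 r (j4 D (mS hD scC_Wg1 (q r)))).re = _
  rw [i1, i2, scC_mm1, hone]
  simp only [Complex.one_re, one_mul, add_zero]

end

end Pool.Agent.Lib.MP_79abb3_an.PD
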