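import Pool.Agent.Lib.MP_79abb3_an.PD.StCa

/-!
MP_79abb3_an, Theorem D, block F, strip module: static estimate for `y` with the cut-off `η`.
-/

set_option autoImplicit false
set_option linter.unusedSectionVars false

open MeasureTheory Set Filter Topology Function
open scoped ENNReal InnerProductSpace

namespace Pool.Agent.Lib.MP_79abb3_an.SC

open Pool.Agent.Lib.MP_79abb3_an.P25 Pool.Agent.Lib.MP_79abb3_an.FW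

section
variable {H : ℝ} [hH : Fact (0 < H)]

/-- **Static estimate for `y`.** Copy of `stat_bd` (FlYs) with `vve_bd` instead of `vv_bd` and
`bf_tv G N α _ (Ms η g) q` for the splitting; `G.tfex` (LaTF) for the test functions. -/
theorem state_bd (G : Geo H) {η η1 η2 : CI H} (hη : CutOK G η η1 η2) :
    ∃ C, 0 ≤ C ∧ ∀ {τ : ℝ} (_ : 0 < τ) (_ : τ ≤ 1) (ψ : HH H)
    (N : ℕ) (_ : 1 ≤ N) {α : ℝ} (_ : 0 ≤ α) (g q : HH H),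
    ‖⟪AS G.D.K τ ψ, TT G.ω g⟫_ℂ + (-⟪G.Qd (HS G.D.K τ ψ), cm G.a g⟫_ℂ +
      bf G.ω (⇑(Ms G.ζ (cm G.a g))) (G.tv N α q (Ms η g)) (G.tw N α q (Ms η g))
        (⇑(TT G.ω (G.Qd (HS G.D.K τ ψ)))) -
      ⟪TT G.ω (G.Qd (HS G.D.K τ ψ)), Ms (rc (G.kF (G.ω * N) α) (G.kF_c _ _)) (TT G.ω g)⟫_ℂ)‖ ≤
    C * N2 G.lam (-(3 / 8)) ψ * yrhs (G.ω * N) τ ‖LT G.ω G.lam (3 / 8) g‖ ‖q‖ (trn G.ω g)
      ‖Ms (rc (chF (G.ω * N) α) (chF_c _ _)) (TT G.ω g)‖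
      ‖Ms (rc (G.kF (G.ω * N) α) (G.kF_c _ _)) (TT G.ω g)‖ := by
  obtain ⟨Ct, hCt, ht⟩ := G.tfex
  obtain ⟨Cb, hCb, hb⟩ := bdy_bd G
  obtain ⟨Cu, hCu, hu⟩ := U_bd G
  obtain ⟨Cm, hCm, hm⟩ := mix_bd G
  obtain ⟨Cv, hCv, hv⟩ := vve_bd G hη
  refine ⟨(Cb + 2 * Cu + Cm + Cv + 1) * Ct, by positivity, ?_⟩
  intro τ hτ hτ1 ψ N hN α hα g q
  obtain ⟨f1, f2, tf⟩ := ht τ hτ hτ1 ψ
  have eT : (⇑(TT G.ω (G.Qd (HS G.D.K τ ψ))) : ℤ → Z2 H) =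
      io (Vf G.ω (⇑(G.Qd (HS G.D.K τ ψ)))) := Tc_io _ _
  have nT : ‖TT G.ω (G.Qd (HS G.D.K τ ψ))‖ = N2 G.lam 0 (io (Vf G.ω (⇑(G.Qd (HS G.D.K τ ψ))))) := by
    rw [← eT]; exact (S2l2 _).2.symm
  have sf : S2 G.lam (1 / 4) (io (Vf G.ω (⇑(G.Qd (HS G.D.K τ ψ))))) :=
    (S2_mono G.lw.h1 (by norm_num) tf.s0).1
  have sf1 : S2 G.lam 1 (io (Vf G.ω (⇑(G.Qd (HS G.D.K τ ψ))))) :=
    (S2_mono G.lw.h1 (by norm_num) tf.s0).1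
  have s1 : S2 G.lam 0 (io f1) := (S2_mono G.lw.h1 (by norm_num) tf.s1).1
  rw [eT]
  have bB := hb hτ hτ1 ψ tf g
  have bU := hu N hN hα g tf.d1 tf.z0 sf1 s1
  have bM := hm hτ hτ1 tf g q
  have bV := hv hτ hτ1 tf g
  have bK : ‖⟪TT G.ω (G.Qd (HS G.D.K τ ψ)), Ms (rc (G.kF (G.ω * N) α) (G.kF_c _ _)) (TT G.ω g)⟫_ℂ‖ ≤
      N2 G.lam 0 (io (Vf G.ω (⇑(G.Qd (HS G.D.K τ ψ))))) *
        ‖Ms (rc (G.kF (G.ω * N) α) (G.kF_c _ _)) (TT G.ω g)‖ := by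
    rw [← nT]; exact norm_inner_le_norm _ _
  have hs0 : 0 ≤ trn G.ω g := Real.sqrt_nonneg _
  refine (stat_tri (bf_tv G N α _ (Ms η g) q sf)).trans ?_
  refine (stat_alg tf.nn hCb hCu hCm hCv (Real.rpow_nonneg hτ.le _) (Real.rpow_nonneg hτ.le _)
    (Real.rpow_nonneg hτ.le _) (mul_nonneg G.ω_pos.le (Nat.cast_nonneg N)) (norm_nonneg _)
    (norm_nonneg _) hs0 (norm_nonneg _) (norm_nonneg _) tf.b00 tf.b01 tf.b10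
    bB bU bM bV bK).trans (le_of_eq ?_)
  unfold yrhs
  ring


end

end Pool.Agent.Lib.MP_79abb3_an.SC
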