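import Pool.Agent.Lib.MP_79abb3_an.PD.StCc
import Pool.Agent.Lib.MP_79abb3_an.PD.StCb

/-!
MP_79abb3_an, Theorem D, block F, strip module: the y-inequality.
-/

set_option autoImplicit false
set_option linter.unusedSectionVars false

open MeasureTheory Set Filter Topology Function
open scoped ENNReal InnerProductSpace

namespace Pool.Agent.Lib.MP_79abb3_an.SC

open Pool.Agent.Lib.MP_79abb3_an.P25 Pool.Agent.Lib.MP_79abb3_an.FW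

private theorem ste_int {p t : ℝ} (hp : p < 1) :
    IntervalIntegrable (fun r => (t - r) ^ (-p)) volume 0 t ∧
      ∫ r in (0:ℝ)..t, (t - r) ^ (-p) = t ^ (1 - p) / (1 - p) := by
  have h1 : IntervalIntegrable (fun x : ℝ => x ^ (-p)) volume 0 t :=
    intervalIntegral.intervalIntegrable_rpow' (by linarith)
  have h2 := h1.comp_sub_left t
  rw [sub_zero, sub_self] at h2
  refine ⟨h2.symm, ?_⟩
  rw [intervalIntegral.integral_comp_sub_left (fun x : ℝ => x ^ (-p)) t, sub_self, sub_zero,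
    integral_rpow (Or.inl (by linarith)), Real.zero_rpow (by linarith), sub_zero,
    show -p + 1 = 1 - p by ring]

private theorem yrhs_mono {m τ y q s k0 k1 y' q' s' k0' k1' : ℝ} (hm : 0 ≤ m) (hτ : 0 ≤ τ)
    (hy0 : 0 ≤ y) (hq0 : 0 ≤ q) (hy : y ≤ y') (hq : q ≤ q') (hs : s ≤ s') (h0 : k0 ≤ k0')
    (h1 : k1 ≤ k1') : yrhs m τ y q s k0 k1 ≤ yrhs m τ y' q' s' k0' k1' := by
  unfold yrhs
  have a := Real.rpow_nonneg hτ (-(15 / 16))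
  have b := Real.rpow_nonneg hτ (-(3 / 16))
  have c := Real.rpow_nonneg hτ (-(11 / 16))
  have e1 : y ^ 2 ≤ y' ^ 2 := pow_le_pow_left₀ hy0 hy 2
  have e2 : y * q ≤ y' * q' := mul_le_mul hy hq hq0 (hy0.trans hy)
  refine add_le_add (add_le_add ?_ ?_) ?_
  · exact mul_le_mul_of_nonneg_left (add_le_add (add_le_add e1 e2) hs) a
  · exact mul_le_mul_of_nonneg_left h0 (add_nonneg (mul_nonneg hm b) c)
  · exact mul_le_mul_of_nonneg_left h1 b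

/-- the integral in time -/
private theorem ste_time {m t k0 k1 Y Q S : ℝ} (ht : 0 ≤ t) (hm : 0 ≤ m) (hk0 : 0 ≤ k0)
    (hk1 : 0 ≤ k1) :
    IntervalIntegrable (fun r => yrhs m (t - r) Y Q S k0 k1) volume 0 t ∧
    ∫ r in (0:ℝ)..t, yrhs m (t - r) Y Q S k0 k1 ≤
      (Y ^ 2 + Y * Q + S) * (16 * t ^ (1 / 16 : ℝ)) + (m * k0 + k1) * (2 * t ^ (13 / 16 : ℝ)) +
        k0 * (4 * t ^ (5 / 16 : ℝ)) := by
  obtain ⟨i1, j1⟩ := ste_int (p := 3 / 16) (t := t) (by norm_num)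
  obtain ⟨i2, j2⟩ := ste_int (p := 11 / 16) (t := t) (by norm_num)
  obtain ⟨i3, j3⟩ := ste_int (p := 15 / 16) (t := t) (by norm_num)
  have e : (fun r => yrhs m (t - r) Y Q S k0 k1) = fun r =>
      (Y ^ 2 + Y * Q + S) * (t - r) ^ (-(15 / 16) : ℝ) +
        (m * k0 + k1) * (t - r) ^ (-(3 / 16) : ℝ) + k0 * (t - r) ^ (-(11 / 16) : ℝ) := by
    funext r
    unfold yrhs
    ring
  have g3 := i3.const_mul (Y ^ 2 + Y * Q + S)
  have g1 := i1.const_mul (m * k0 + k1)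
  have g2 := i2.const_mul k0
  rw [e]
  refine ⟨(g3.add g1).add g2, ?_⟩
  have p1 : 0 ≤ t ^ (13 / 16 : ℝ) := Real.rpow_nonneg ht _
  have p2 : 0 ≤ t ^ (5 / 16 : ℝ) := Real.rpow_nonneg ht _
  rw [intervalIntegral.integral_add (g3.add g1) g2, intervalIntegral.integral_add g3 g1,
    intervalIntegral.integral_const_mul, intervalIntegral.integral_const_mul,
    intervalIntegral.integral_const_mul, j1, j2, j3]
  have e1 : (1 - 3 / 16 : ℝ) = 13 / 16 := by norm_num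
  have e2 : (1 - 11 / 16 : ℝ) = 5 / 16 := by norm_num
  have e3 : (1 - 15 / 16 : ℝ) = 1 / 16 := by norm_num
  rw [e1, e2, e3]
  have c1 : t ^ (1 / 16 : ℝ) / (1 / 16) = 16 * t ^ (1 / 16 : ℝ) := by ring
  rw [c1]
  refine add_le_add (add_le_add le_rfl ?_) ?_
  · refine mul_le_mul_of_nonneg_left ?_ (add_nonneg (mul_nonneg hm hk0) hk1)
    rw [div_le_iff₀ (by norm_num)]
    linarith
  · refine mul_le_mul_of_nonneg_left ?_ hk0
    rw [div_le_iff₀ (by norm_num)]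
    linarith

/-- the final algebra -/
private theorem ste_fin {C1 C2 m k0 k1 Y Q a x1 x5 x13 : ℝ} (hc : 0 ≤ C1) (hr : 0 ≤ C2)
    (hm : 0 ≤ m) (hk0 : 0 ≤ k0) (hk1 : 0 ≤ k1) (hY : 0 ≤ Y)
    (hQ : 0 ≤ Q) (ha : 0 ≤ a) (h1 : 0 ≤ x1) (h5 : 0 ≤ x5) (h13 : 0 ≤ x13) :
    C1 * ((Y ^ 2 + Y * Q + C2 * (Q + Y + a)) * (16 * x1) + (m * k0 + k1) * (2 * x13) +
      k0 * (4 * x5)) ≤
    C1 * (16 * (1 + C2)) *
      (x1 * (Y ^ 2 + Y * Q + Y + Q + a) + (m * x13 + x5) * k0 + x13 * k1) := by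
  rw [mul_assoc]
  refine mul_le_mul_of_nonneg_left ?_ hc
  have hS : Y ^ 2 + Y * Q + C2 * (Q + Y + a) ≤ (1 + C2) * (Y ^ 2 + Y * Q + Y + Q + a) := by
    have q1 : 0 ≤ C2 * (Y ^ 2 + Y * Q) := by positivity
    nlinarith
  have a1 : (Y ^ 2 + Y * Q + C2 * (Q + Y + a)) * (16 * x1) ≤
      16 * (1 + C2) * (x1 * (Y ^ 2 + Y * Q + Y + Q + a)) := by
    calc (Y ^ 2 + Y * Q + C2 * (Q + Y + a)) * (16 * x1) ≤
          ((1 + C2) * (Y ^ 2 + Y * Q + Y + Q + a)) * (16 * x1) :=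
          mul_le_mul_of_nonneg_right hS (by positivity)
      _ = _ := by ring
  have g2 : 0 ≤ m * x13 * k0 := by positivity
  have g3 : 0 ≤ x5 * k0 := by positivity
  have g4 : 0 ≤ x13 * k1 := by positivity
  have g2' := mul_nonneg hr g2
  have g3' := mul_nonneg hr g3
  have g4' := mul_nonneg hr g4
  have e : 16 * (1 + C2) * (x1 * (Y ^ 2 + Y * Q + Y + Q + a) + (m * x13 + x5) * k0 + x13 * k1) =
      16 * (1 + C2) * (x1 * (Y ^ 2 + Y * Q + Y + Q + a)) + 16 * (m * x13 * k0) +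
      16 * (x5 * k0) + 16 * (x13 * k1) + 16 * (C2 * (m * x13 * k0)) + 16 * (C2 * (x5 * k0)) +
      16 * (C2 * (x13 * k1)) := by ring
  have e2 : (m * k0 + k1) * (2 * x13) + k0 * (4 * x5) =
      2 * (m * x13 * k0) + 2 * (x13 * k1) + 4 * (x5 * k0) := by ring
  rw [e, add_assoc, e2]
  linarith

section
variable {H : ℝ} [hH : Fact (0 < H)]

/-- **(Y)** Proof: as `Geo.Sol.phi`, `Geo.Sol.y_int` (FlYg) and `FlS.y_sup` (FlYi): `Φ(r) = ⟪S(t-r)ψ, V(r)⟫`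
with `Tst.pair` for `h.tst`, `h.eq` with `φ = HS (t-r) ψ`, the static bound `state_bd`, `StV.trn_le`, `ftc_le`
with `w r = C N2 (-3/8) ψ * yrhs m (t-r) Y Q (C' (Q+Y+a)) k0 k1` (an explicit function of `t - r`, so no
continuity of `h`, `A` is needed), `y_dual`, `Geo.Sg_neg_contract` (`hBig`), `integral_rpow`. -/
theorem StV.y_sup (G : Geo H) (hBig : G.Big) {η η1 η2 : CI H} (hη : CutOK G η η1 η2) :
    ∃ C, 0 ≤ C ∧ ∀ {N : ℕ} {A : ℝ → ℝ} {b : ℝ} {g h ℓ : ℝ → HH H} (_ : StV G N A η b g h ℓ)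
    (_ : b ≤ 1) {t : ℝ} (_ : t ∈ Icc 0 b)
    {Y Q a k0 k1 : ℝ} (_ : ∀ r ∈ Icc 0 t, ‖LT G.ω G.lam (3 / 8) (g r)‖ ≤ Y)
    (_ : ∀ r ∈ Icc 0 t, ‖h r‖ ≤ Q) (_ : ∀ r ∈ Icc 0 t, A r ≤ a)
    (_ : ∀ r ∈ Icc 0 t, ‖Ms (rc (chF (G.ω * N) (A r)) (chF_c _ _)) (TT G.ω (g r))‖ ≤ k0)
    (_ : ∀ r ∈ Icc 0 t, ‖Ms (rc (G.kF (G.ω * N) (A r)) (G.kF_c _ _)) (TT G.ω (g r))‖ ≤ k1),
    ‖LT G.ω G.lam (3 / 8) (g t)‖ ≤ ‖LT G.ω G.lam (3 / 8) (g 0)‖ +
      C * (t ^ (1 / 16 : ℝ) * (Y ^ 2 + Y * Q + Y + Q + a) +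
        (G.ω * N * t ^ (13 / 16 : ℝ) + t ^ (5 / 16 : ℝ)) * k0 + t ^ (13 / 16 : ℝ) * k1) := by
  obtain ⟨C1, hC1, hst⟩ := state_bd G hη
  obtain ⟨C2, hC2, htr⟩ := StV.trn_le G hη
  refine ⟨C1 * (16 * (1 + C2)), by positivity, ?_⟩
  intro N A b g h ℓ hS hb t ht Y Q a k0 k1 hY hQ ha hk0 hk1
  have z0 : (0:ℝ) ∈ Icc 0 t := ⟨le_rfl, ht.1⟩
  have hsub : Icc 0 t ⊆ Icc 0 b := Icc_subset_Icc le_rfl ht.2
  have Y0 : 0 ≤ Y := (norm_nonneg _).trans (hY 0 z0)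
  have Q0 : 0 ≤ Q := (norm_nonneg _).trans (hQ 0 z0)
  have a0 : 0 ≤ a := (hS.A0 0 (hsub z0)).trans (ha 0 z0)
  have k00 : 0 ≤ k0 := (norm_nonneg _).trans (hk0 0 z0)
  have k10 : 0 ≤ k1 := (norm_nonneg _).trans (hk1 0 z0)
  have hm0 : 0 ≤ G.ω * N := mul_nonneg G.ω_pos.le (Nat.cast_nonneg N)
  obtain ⟨S, hSd⟩ : ∃ S : ℝ, S = C2 * (Q + Y + a) := ⟨_, rfl⟩
  obtain ⟨hwI, hwV⟩ := ste_time (t := t) (m := G.ω * N) (k0 := k0) (k1 := k1) (Y := Y) (Q := Q)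
    (S := S) ht.1 hm0 k00 k10
  obtain ⟨J, hJ⟩ : ∃ J : ℝ, J = ∫ r in (0:ℝ)..t, yrhs (G.ω * N) (t - r) Y Q S k0 k1 := ⟨_, rfl⟩
  rw [← hJ] at hwV
  have hpair : ∀ ψ : HH H, ‖⟪ψ, TT G.ω (g t)⟫_ℂ‖ ≤ N2 G.lam (-(3 / 8)) ψ *
      (‖LT G.ω G.lam (3 / 8) (g 0)‖ + C1 * J) := by
    intro ψ
    have hT := hS.tst.restrict le_rfl ht.2
    have hK := G.D.K_nonneg
    have hi := G.D.K_injective
    have p1 : ContinuousOn (fun r => ⟪Sg G.D.K (t - r) ψ, TT G.ω (g r)⟫_ℂ) (Icc 0 t) := by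
      have h1 : Continuous fun r => Sg G.D.K (t - r) ψ :=
        (Sg_continuousOn_apply hK hi ψ).comp (continuous_const.sub continuous_id)
      exact h1.continuousOn.inner hT.cV
    have p2 : ∀ r ∈ Ico 0 t,
        HasDerivWithinAt (fun r => ⟪Sg G.D.K (t - r) ψ, TT G.ω (g r)⟫_ℂ)
          (⟪AS G.D.K (t - r) ψ, TT G.ω (g r)⟫_ℂ + ⟪HS G.D.K (t - r) ψ, ℓ r⟫_ℂ)
          (Icc 0 t) r := by
      intro r hr
      have h0 : 0 < t - r := sub_pos.2 hr.2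
      have h1 := Sg_hasDerivAt_apply hK h0 ψ
      have h2 : HasDerivAt (fun r => t - r) (-1 : ℝ) r := by
        have := (hasDerivAt_id r).const_sub t
        exact this
      have h3 := HasDerivAt.scomp (h := fun r : ℝ => t - r) r h1 h2
      rw [neg_smul, one_smul, neg_neg] at h3
      have h4 : Sg G.D.K (t - r) ψ = Kh G.D.K (HS G.D.K (t - r) ψ) := by
        rw [← Kh_HS hK h0]; rfl
      exact hT.pair (f := fun r => Sg G.D.K (t - r) ψ) ⟨hr.1, hr.2.le⟩ h4 h3.hasDerivWithinAt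
    have hb' : ∀ r ∈ Ico 0 t,
        ‖⟪AS G.D.K (t - r) ψ, TT G.ω (g r)⟫_ℂ + ⟪HS G.D.K (t - r) ψ, ℓ r⟫_ℂ‖ ≤
          C1 * N2 G.lam (-(3 / 8)) ψ * yrhs (G.ω * N) (t - r) Y Q S k0 k1 := by
      intro r hr
      have hrI : r ∈ Icc 0 t := ⟨hr.1, hr.2.le⟩
      have hrb := hsub hrI
      have h0 : 0 < t - r := sub_pos.2 hr.2
      have h1 : t - r ≤ 1 := by linarith [hr.1, ht.2]
      rw [hS.eq r hrb]
      refine (hst h0 h1 ψ N hS.N1 (hS.A0 r hrb) (g r) (h r)).trans ?_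
      refine mul_le_mul_of_nonneg_left ?_ (mul_nonneg hC1 (N2_nonneg _ _))
      refine yrhs_mono hm0 h0.le (norm_nonneg _) (norm_nonneg _) (hY r hrI) (hQ r hrI) ?_
        (hk0 r hrI) (hk1 r hrI)
      rw [hSd]
      refine (htr hS r hrb).trans ?_
      exact mul_le_mul_of_nonneg_left
        (add_le_add (add_le_add (hQ r hrI) (hY r hrI)) (ha r hrI)) hC2
    have h1 := Geo.ftc_le ht.1 p1 p2 (hwI.const_mul (C1 * N2 G.lam (-(3 / 8)) ψ)) hb'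
    rw [sub_self, Sg_zero, intervalIntegral.integral_const_mul, ← hJ] at h1
    have h2 : ‖⟪Sg G.D.K (t - 0) ψ, TT G.ω (g 0)⟫_ℂ‖ ≤
        N2 G.lam (-(3 / 8)) ψ * ‖LT G.ω G.lam (3 / 8) (g 0)‖ := by
      have h3 := inner_le_N2 (s := (3 / 8 : ℝ)) G.lw.h1
        (S2l2_neg G.lw.h1 (by norm_num : -(3 / 8 : ℝ) ≤ 0) (Sg G.D.K (t - 0) ψ)).1
        (S2_TT' G (by norm_num : (3 / 8 : ℝ) ≤ 1) (g 0))
      rw [N2_TT G (by norm_num : (3 / 8 : ℝ) ≤ 1)] at h3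
      refine h3.trans (mul_le_mul_of_nonneg_right ?_ (norm_nonneg _))
      exact Geo.Sg_neg_contract G hBig (by norm_num) (by norm_num) (sub_nonneg.2 ht.1) ψ
    have h4 : ‖⟪ψ, TT G.ω (g t)⟫_ℂ‖ ≤ N2 G.lam (-(3 / 8)) ψ * ‖LT G.ω G.lam (3 / 8) (g 0)‖ +
        C1 * N2 G.lam (-(3 / 8)) ψ * J := h1.trans (add_le_add h2 le_rfl)
    refine h4.trans (le_of_eq ?_)
    ring
  have hJ0 : 0 ≤ J := by
    rw [hJ]
    refine intervalIntegral.integral_nonneg ht.1 fun r hr => ?_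
    have q0 : 0 ≤ t - r := sub_nonneg.2 hr.2
    have S0 : 0 ≤ S := by rw [hSd]; positivity
    unfold yrhs
    have := Real.rpow_nonneg q0 (-(15 / 16) : ℝ)
    have := Real.rpow_nonneg q0 (-(3 / 16) : ℝ)
    have := Real.rpow_nonneg q0 (-(11 / 16) : ℝ)
    positivity
  have hnn : 0 ≤ ‖LT G.ω G.lam (3 / 8) (g 0)‖ + C1 * J :=
    add_nonneg (norm_nonneg _) (mul_nonneg hC1 hJ0)
  obtain ⟨d1, d2⟩ := Geo.y_dual (G := G) (g t)
  have h1 := hpair (LT G.ω G.lam (3 / 4) (g t))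
  rw [d1, d2, Complex.norm_real, Real.norm_of_nonneg (sq_nonneg _)] at h1
  have key : ‖LT G.ω G.lam (3 / 8) (g t)‖ ≤ ‖LT G.ω G.lam (3 / 8) (g 0)‖ + C1 * J := by
    rcases (norm_nonneg (LT G.ω G.lam (3 / 8) (g t))).eq_or_lt with h0 | h0
    · rw [← h0]; exact hnn
    · rw [sq] at h1
      exact le_of_mul_le_mul_left h1 h0
  refine key.trans (add_le_add le_rfl ((mul_le_mul_of_nonneg_left hwV hC1).trans ?_))
  rw [hSd]
  exact ste_fin hC1 hC2 hm0 k00 k10 Y0 Q0 a0 (Real.rpow_nonneg ht.1 _)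
    (Real.rpow_nonneg ht.1 _) (Real.rpow_nonneg ht.1 _)

end

end Pool.Agent.Lib.MP_79abb3_an.SC
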