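import Pool.Agent.Lib.MP_79abb3_an.PD.StDb
import Pool.Agent.Lib.MP_79abb3_an.PD.StE

/-!
MP_79abb3_an, Theorem D, block F, strip module: the a priori bounds.
-/

set_option autoImplicit false
set_option linter.unusedSectionVars false

open MeasureTheory Set Filter Topology Function
open scoped ENNReal InnerProductSpace

namespace Pool.Agent.Lib.MP_79abb3_an.SC

open Pool.Agent.Lib.MP_79abb3_an.P25 Pool.Agent.Lib.MP_79abb3_an.FW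

section
variable {H : ℝ} [hH : Fact (0 < H)]

private theorem stf_TT (G : Geo H) (g : HH H) : ‖TT G.ω g‖ ≤ ‖LT G.ω G.lam (3 / 8) g‖ := by
  have h := G.lamOK
  refine (sq_le_sq₀ (norm_nonneg _) (norm_nonneg _)).1 ?_
  rw [l2_norm_sq, l2_norm_sq]
  refine (l2_summable _).tsum_le_tsum (fun n => ?_) (l2_summable _)
  rw [h.LT_apply (by norm_num), norm_smul, Complex.norm_real,
    Real.norm_of_nonneg (Real.rpow_nonneg (by linarith [h.one n]) _), TT_apply, mul_pow]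
  have h1 : 1 ≤ G.lam n ^ (3 / 8 : ℝ) := Real.one_le_rpow (h.one n) (by norm_num)
  exact le_mul_of_one_le_left (sq_nonneg _) (one_le_pow₀ h1)

/-- the additional term of the y-inequality tends to zero -/
private theorem stf_tend (K Q S : ℝ) :
    Tendsto (fun m : ℝ => K * (m ^ (-(1 / 8 : ℝ)) * (2 + 2 * Q + A0 m) +
      3 * (S * Real.exp (-(√m / 2))))) atTop (𝓝 0) := by
  have h1 : Tendsto (fun m : ℝ => m ^ (-(1 / 8 : ℝ))) atTop (𝓝 0) :=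
    tendsto_rpow_neg_atTop (by norm_num)
  have hs : Tendsto (fun m : ℝ => √m) atTop atTop := Real.tendsto_sqrt_atTop
  have h2 : Tendsto (fun m : ℝ => A0 m) atTop (𝓝 0) := by
    have h3 : Tendsto (fun m : ℝ => 32 * ((√m) ^ 2 * Real.exp (-√m))) atTop (𝓝 (32 * 0)) :=
      ((Real.tendsto_pow_mul_exp_neg_atTop_nhds_zero 2).comp hs).const_mul 32
    rw [mul_zero] at h3
    refine h3.congr' ?_
    filter_upwards [eventually_ge_atTop (0:ℝ)] with m hm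
    rw [Real.sq_sqrt hm]
    unfold A0
    ring
  have h4 : Tendsto (fun m : ℝ => Real.exp (-(√m / 2))) atTop (𝓝 0) := by
    have h5 : Tendsto (fun m : ℝ => √m / 2) atTop atTop := hs.atTop_div_const (by norm_num)
    exact Real.tendsto_exp_neg_atTop_nhds_zero.comp h5
  have h6 : Tendsto (fun m : ℝ => K * (m ^ (-(1 / 8 : ℝ)) * (2 + 2 * Q + A0 m) +
      3 * (S * Real.exp (-(√m / 2))))) atTop (𝓝 (K * (0 * (2 + 2 * Q + 0) + 3 * (S * 0)))) :=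
    ((h1.mul (tendsto_const_nhds.add h2)).add ((h4.const_mul S).const_mul 3)).const_mul K
  have e : K * (0 * (2 + 2 * Q + 0) + 3 * (S * 0)) = 0 := by ring
  rwa [e] at h6

/-- the real variable part of the y-inequality -/
private theorem stf_real {K Q a m t k : ℝ} (hK : 0 ≤ K) (hQ : 0 ≤ Q) (ha : 0 ≤ a) (hm : 1 ≤ m)
    (hk : 0 ≤ k) (ht0 : 0 ≤ t) (ht : t ≤ 1 / (8 * m ^ 2)) :
    K * (t ^ (1 / 16 : ℝ) * (1 ^ 2 + 1 * Q + 1 + Q + a) + (m * t ^ (13 / 16 : ℝ) + t ^ (5 / 16 : ℝ)) * k +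
      t ^ (13 / 16 : ℝ) * k) ≤ K * (m ^ (-(1 / 8 : ℝ)) * (2 + 2 * Q + a) + 3 * k) := by
  have m0 : 0 < m := by linarith
  have hm2 : (1:ℝ) ≤ m ^ 2 := one_le_pow₀ hm
  have ht2 : t ≤ (m ^ 2)⁻¹ := by
    refine ht.trans ?_
    rw [one_div]
    exact inv_anti₀ (by positivity) (by linarith)
  have ht1 : t ≤ 1 := ht2.trans (inv_le_one_of_one_le₀ hm2)
  have e1 : t ^ (1 / 16 : ℝ) ≤ m ^ (-(1 / 8 : ℝ)) := by
    have h1 : t ^ (1 / 16 : ℝ) ≤ ((m ^ 2)⁻¹) ^ (1 / 16 : ℝ) :=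
      Real.rpow_le_rpow ht0 ht2 (by norm_num)
    have h2 : ((m ^ 2)⁻¹) ^ (1 / 16 : ℝ) = m ^ (-(1 / 8 : ℝ)) := by
      rw [← Real.rpow_natCast m 2, ← Real.rpow_neg m0.le, ← Real.rpow_mul m0.le]
      norm_num
    rwa [h2] at h1
  have e2 : m * t ^ (13 / 16 : ℝ) ≤ 1 := by
    have h1 : t ^ (13 / 16 : ℝ) ≤ t ^ (1 / 2 : ℝ) :=
      Real.rpow_le_rpow_of_exponent_ge' ht0 ht1 (by norm_num) (by norm_num)
    have h2 : t ^ (1 / 2 : ℝ) ≤ ((m ^ 2)⁻¹) ^ (1 / 2 : ℝ) :=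
      Real.rpow_le_rpow ht0 ht2 (by norm_num)
    have h3 : ((m ^ 2)⁻¹) ^ (1 / 2 : ℝ) = m⁻¹ := by
      rw [← inv_pow, ← Real.sqrt_eq_rpow, Real.sqrt_sq (by positivity)]
    rw [h3] at h2
    calc m * t ^ (13 / 16 : ℝ) ≤ m * m⁻¹ := mul_le_mul_of_nonneg_left (h1.trans h2) m0.le
      _ = 1 := mul_inv_cancel₀ m0.ne'
  have e3 : t ^ (5 / 16 : ℝ) ≤ 1 := Real.rpow_le_one ht0 ht1 (by norm_num)
  have e4 : t ^ (13 / 16 : ℝ) ≤ 1 := Real.rpow_le_one ht0 ht1 (by norm_num)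
  refine mul_le_mul_of_nonneg_left ?_ hK
  have f1 : t ^ (1 / 16 : ℝ) * (1 ^ 2 + 1 * Q + 1 + Q + a) ≤ m ^ (-(1 / 8 : ℝ)) * (2 + 2 * Q + a) := by
    have e : (1:ℝ) ^ 2 + 1 * Q + 1 + Q + a = 2 + 2 * Q + a := by ring
    rw [e]
    exact mul_le_mul_of_nonneg_right e1 (by positivity)
  have f2 : (m * t ^ (13 / 16 : ℝ) + t ^ (5 / 16 : ℝ)) * k ≤ (1 + 1) * k :=
    mul_le_mul_of_nonneg_right (add_le_add e2 e3) hk
  have f3 : t ^ (13 / 16 : ℝ) * k ≤ 1 * k := mul_le_mul_of_nonneg_right e4 hk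
  linarith

private theorem stf_sqrt {x C m : ℝ} (hC : 0 ≤ C) (hx : 0 ≤ x) (h : x ^ 2 ≤ C * Real.exp (-√m)) :
    x ≤ √C * Real.exp (-(√m / 2)) := by
  refine (sq_le_sq₀ hx (by positivity)).1 ?_
  rw [mul_pow, Real.sq_sqrt hC, ← Real.exp_nat_mul]
  have e : ((2:ℕ) : ℝ) * -(√m / 2) = -√m := by push_cast; ring
  rw [e]
  exact h

/-- The bounds at time `t`. -/
structure StB (G : Geo H) (N : ℕ) (C ε : ℝ) (A : ℝ → ℝ) (g : ℝ → HH H) (t : ℝ) : Prop where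
  y : ‖LT G.ω G.lam (3 / 8) (g t)‖ ≤ ‖LT G.ω G.lam (3 / 8) (g 0)‖ + ε
  e : ‖Ms (rc (tht (zl (G.ω * N)) (4 * (G.ω * N))) (tht_cont _ _)) (TT G.ω (g t))‖ ^ 2 +
      ∫ r in (0:ℝ)..t, ‖Ms (rc (tht (zl (G.ω * N)) (4 * (G.ω * N))) (tht_cont _ _)) (g r)‖ ^ 2 ≤ C
  k0 : (G.ω * N) ^ 2 * ‖Ms (rc (chF (G.ω * N) (A t)) (chF_c _ _)) (TT G.ω (g t))‖ ^ 2 ≤
    C * Real.exp (-√(G.ω * N))
  k1 : ‖Ms (rc (G.kF (G.ω * N) (A t)) (G.kF_c _ _)) (TT G.ω (g t))‖ ^ 2 ≤ C * Real.exp (-√(G.ω * N))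
  k2 : ‖Ms (rc (fun z : ℝ => muu (G.ω * N) * Real.cosh (G.ω * (N : ℝ) * z)) (by fun_prop))
    (Ms (rc (G.kF (G.ω * N) (A t)) (G.kF_c _ _)) (TT G.ω (g t)))‖ ^ 2 ≤ C * Real.exp (-√(G.ω * N))

/-- **3.3** Proof: the step `core` in the proof of `FlS.apriori` (FlAp) (no continuity argument here):
`StV.energy`, `kap_bd` with `G.Ck`, `‖V‖ ≤ ‖Λ^{3/8} V‖ ≤ 1`, `StV.y_sup` on `[0, t]` with `Y = 1`,
`a = A0 m`; the private lemmas `flap_tend`, `flap_real`, `flap_sqrt` of FlAp may be copied (the additional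
term `Y` only changes a constant). -/
theorem StV.apriori (G : Geo H) (hBig : G.Big) {η η1 η2 : CI H} (hη : CutOK G η η1 η2) {Q S : ℝ}
    (hQ : 0 ≤ Q) (hS : 0 ≤ S) : ∃ C, 0 ≤ C ∧ ∀ ε, 0 < ε → ∃ m0, 1 ≤ m0 ∧
    ∀ {N : ℕ} {A : ℝ → ℝ} {b : ℝ} {g h ℓ : ℝ → HH H} (_ : StV G N A η b g h ℓ)
    (_ : m0 ≤ G.ω * N) (_ : b ≤ 1 / (8 * (G.ω * N) ^ 2))
    (_ : ∀ t ∈ Icc 0 b, A t ≤ FW.A0 (G.ω * N)) (_ : ∀ t ∈ Icc 0 b, ‖h t‖ ≤ Q)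
    (_ : ∀ t ∈ Icc 0 b, ‖LT G.ω G.lam (3 / 8) (g t)‖ ≤ 1)
    (_ : ‖Ms (rc (tht (zl (G.ω * N)) (4 * (G.ω * N))) (tht_cont _ _)) (TT G.ω (g 0))‖ ≤ S),
    ∀ t ∈ Icc 0 b, StB G N C ε A g t := by
  obtain ⟨Cv, hCv1, hCv⟩ := StV.energy G hη
  obtain ⟨Cy, hCy0, hCy⟩ := StV.y_sup G hBig hη
  obtain ⟨mk, hmk1, hmk⟩ := kap_bd (H := H) G.Ck G.Ck_nonneg
  obtain ⟨C1, hC1d⟩ : ∃ C1, C1 = Cv * Real.exp (Cv * Q ^ 4) * (S ^ 2 + 1) := ⟨_, rfl⟩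
  have hC10 : 0 ≤ C1 := by rw [hC1d]; positivity
  refine ⟨1 + C1, by linarith, fun ε hε => ?_⟩
  have hC0 : 0 ≤ 1 + C1 := by linarith
  obtain ⟨mt, hmt⟩ := eventually_atTop.1
    ((stf_tend Cy Q (√(1 + C1))).eventually (gt_mem_nhds hε))
  refine ⟨max mk mt, hmk1.trans (le_max_left _ _), ?_⟩
  intro N A b g h ℓ hst hm hb hA hh hg1 hV0 t ht
  have hm1 : mk ≤ G.ω * N := (le_max_left _ _).trans hm
  have hm2 : mt ≤ G.ω * N := (le_max_right _ _).trans hm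
  have hm0 : 1 ≤ G.ω * N := hmk1.trans hm1
  have htb : t ≤ 1 / (8 * (G.ω * N) ^ 2) := ht.2.trans hb
  have hmem : ∀ s ∈ Icc 0 t, s ∈ Icc 0 b := fun s hs => ⟨hs.1, hs.2.trans ht.2⟩
  -- the weighted energy of `V`
  have hE : ∀ s ∈ Icc 0 b,
      ‖Ms (rc (tht (zl (G.ω * N)) (4 * (G.ω * N))) (tht_cont _ _)) (TT G.ω (g s))‖ ^ 2 +
      ∫ r in (0:ℝ)..s, ‖Ms (rc (tht (zl (G.ω * N)) (4 * (G.ω * N))) (tht_cont _ _)) (g r)‖ ^ 2 ≤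
      C1 := by
    intro s hs
    refine (hCv hst hm0 hb hh hg1 s hs).trans ?_
    rw [hC1d]
    refine mul_le_mul_of_nonneg_left ?_ (by positivity)
    have h2 := pow_le_pow_left₀ (norm_nonneg _) hV0 2
    linarith
  have hVt : ∀ s ∈ Icc 0 b,
      ‖Ms (rc (tht (zl (G.ω * N)) (4 * (G.ω * N))) (tht_cont _ _)) (TT G.ω (g s))‖ ^ 2 ≤ C1 := by
    intro s hs
    have h1 := hE s hs
    have h2 : 0 ≤ ∫ r in (0:ℝ)..s,
        ‖Ms (rc (tht (zl (G.ω * N)) (4 * (G.ω * N))) (tht_cont _ _)) (g r)‖ ^ 2 :=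
      intervalIntegral.integral_nonneg hs.1 fun _ _ => sq_nonneg _
    linarith
  have hV1 : ∀ s ∈ Icc 0 b, ‖TT G.ω (g s)‖ ^ 2 ≤ 1 := by
    intro s hs
    have h1 : ‖TT G.ω (g s)‖ ≤ 1 := (stf_TT G _).trans (hg1 s hs)
    exact pow_le_one₀ (norm_nonneg _) h1
  -- the exponentially small quantities
  have hexp : 0 ≤ Real.exp (-√(G.ω * N)) := (Real.exp_pos _).le
  have hsum : ∀ s ∈ Icc 0 b, Real.exp (-√(G.ω * N)) * (‖TT G.ω (g s)‖ ^ 2 +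
      ‖Ms (rc (tht (zl (G.ω * N)) (4 * (G.ω * N))) (tht_cont _ _)) (TT G.ω (g s))‖ ^ 2) ≤
      (1 + C1) * Real.exp (-√(G.ω * N)) := by
    intro s hs
    rw [mul_comm]
    exact mul_le_mul_of_nonneg_right (add_le_add (hV1 s hs) (hVt s hs)) hexp
  have hAs : ∀ s ∈ Icc 0 b, A s ∈ Icc 0 (FW.A0 (G.ω * N)) := fun s hs =>
    ⟨hst.A0 s hs, hA s hs⟩
  have hκ : ∀ s, rc (G.kF (G.ω * N) (A s)) (G.kF_c _ _) =
      (rc (fun z => G.Ck * chF (G.ω * N) (A s) z ^ 2)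
        (continuous_const.mul ((chF_c (G.ω * N) (A s)).pow 2)) : CI H) := fun s => rfl
  have k0 : ∀ s ∈ Icc 0 b, (G.ω * N) ^ 2 *
      ‖Ms (rc (chF (G.ω * N) (A s)) (chF_c _ _)) (TT G.ω (g s))‖ ^ 2 ≤
      (1 + C1) * Real.exp (-√(G.ω * N)) := by
    intro s hs
    exact (hmk (G.ω * N) hm1 (A s) (hAs s hs) (TT G.ω (g s))).1.trans (hsum s hs)
  have k0' : ∀ s ∈ Icc 0 b,
      ‖Ms (rc (chF (G.ω * N) (A s)) (chF_c _ _)) (TT G.ω (g s))‖ ^ 2 ≤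
      (1 + C1) * Real.exp (-√(G.ω * N)) := by
    intro s hs
    refine le_trans ?_ (k0 s hs)
    exact le_mul_of_one_le_left (sq_nonneg _) (one_le_pow₀ hm0)
  have k1 : ∀ s ∈ Icc 0 b,
      ‖Ms (rc (G.kF (G.ω * N) (A s)) (G.kF_c _ _)) (TT G.ω (g s))‖ ^ 2 ≤
      (1 + C1) * Real.exp (-√(G.ω * N)) := by
    intro s hs
    rw [hκ s]
    exact (hmk (G.ω * N) hm1 (A s) (hAs s hs) (TT G.ω (g s))).2.1.trans (hsum s hs)
  have k2 : ‖Ms (rc (fun z : ℝ => muu (G.ω * N) * Real.cosh (G.ω * (N : ℝ) * z)) (by fun_prop))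
      (Ms (rc (G.kF (G.ω * N) (A t)) (G.kF_c _ _)) (TT G.ω (g t)))‖ ^ 2 ≤
      (1 + C1) * Real.exp (-√(G.ω * N)) := by
    rw [hκ t, Ms_Ms, mul_comm, rc_mul_rc]
    exact (hmk (G.ω * N) hm1 (A t) (hAs t ht) (TT G.ω (g t))).2.2.trans (hsum t ht)
  refine ⟨?_, (hE t ht).trans (by linarith), k0 t ht, k1 t ht, k2⟩
  -- the y-inequality
  have hm2' : (1:ℝ) ≤ 8 * (G.ω * N) ^ 2 := by
    have : (1:ℝ) ≤ (G.ω * N) ^ 2 := one_le_pow₀ hm0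
    linarith
  have hb1 : b ≤ 1 := hb.trans (by rw [one_div]; exact inv_le_one_of_one_le₀ hm2')
  have h1 := hCy hst hb1 ht (Y := 1) (Q := Q) (a := FW.A0 (G.ω * N))
    (k0 := √(1 + C1) * Real.exp (-(√(G.ω * N) / 2)))
    (k1 := √(1 + C1) * Real.exp (-(√(G.ω * N) / 2)))
    (fun r hr => hg1 r (hmem r hr)) (fun r hr => hh r (hmem r hr))
    (fun r hr => (hAs r (hmem r hr)).2)
    (fun r hr => stf_sqrt hC0 (norm_nonneg _) (k0' r (hmem r hr)))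
    (fun r hr => stf_sqrt hC0 (norm_nonneg _) (k1 r (hmem r hr)))
  have hA00 : 0 ≤ FW.A0 (G.ω * N) := (hAs t ht).1.trans (hAs t ht).2
  have h2 := stf_real (K := Cy) (Q := Q) (a := FW.A0 (G.ω * N)) (m := G.ω * N) (t := t)
    (k := √(1 + C1) * Real.exp (-(√(G.ω * N) / 2))) hCy0 hQ hA00 hm0 (by positivity) ht.1 htb
  have h3 := hmt (G.ω * N) hm2
  exact h1.trans (add_le_add le_rfl (h2.trans h3.le))

end

end Pool.Agent.Lib.MP_79abb3_an.SC
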