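import Pool.Agent.Lib.MP_79abb3_an.PD.StDef

/-!
MP_79abb3_an, Theorem D, block F, strip module: the source `S`.
-/

set_option autoImplicit false
set_option linter.unusedSectionVars false

open MeasureTheory Set Filter Topology Function
open scoped ENNReal InnerProductSpace

namespace Pool.Agent.Lib.MP_79abb3_an.SC

open Pool.Agent.Lib.MP_79abb3_an.P25 Pool.Agent.Lib.MP_79abb3_an.FW

section
variable {H : ℝ} [hH : Fact (0 < H)]

/-- The source of a cut-off `ζ` with `e1 = ζ'`, `e2 = ζ''`; `q = a om'`, `w` the modes `Λ^{1/2} w`. -/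
noncomputable def sgm (G : Geo H) (e1 e2 : CI H) (q : HH H) (w : l2 (CI H)) : HH H :=
  -(2:ℂ) • Xz G.ω (Ms e1 q) + TT G.ω (Ms e2 q) + LT G.ω G.lam (1 / 4) (Ms e1 (prd G.pw q w))

/-- `⟪f, σ⟫ = ⟨2 ζ' θ_z + (ζ'' + ζ' w) θ, q⟩`, `θ = E f`: as `w2` in the proof of `Geo.inner_lV` (ExT):
`inner_Xz`, `inner_TT'`, `inner_LT_zeta` (with `e1` instead of `ζ1`: repeat its proof). -/
theorem inner_sgm (G : Geo H) {e1 : CI H} (h1 : star e1 = e1) (e2 : CI H) (q : HH H)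
    (w : l2 (CI H)) (f : HH H) :
    ⟪f, sgm G e1 e2 q w⟫_ℂ = 2 * ⟪Yz G.ω f, Ms e1 q⟫_ℂ + ⟪EE G.ω f, Ms e2 q⟫_ℂ +
      dp (Ms e1 (EE G.ω f)) (pz q (hf G.lam w)) := by
  have hLT : ⟪f, LT G.ω G.lam (1 / 4) (Ms e1 (prd G.pw q w))⟫_ℂ =
      dp (Ms e1 (EE G.ω f)) (pz q (hf G.lam w)) := by
    rw [inner_dp]
    refine tsum_congr fun n => ?_
    rw [G.lamOK.LT_apply (by norm_num), Ms_apply, Ms_apply, EE_apply, prd_apply, map_smul,
      map_smul, inner_mz, h1, smul_smul, ← Complex.ofReal_mul, ← Real.rpow_add (G.lw.pos n),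
      add_neg_cancel, Real.rpow_zero, Complex.ofReal_one, one_smul,
      ← inner_conj_symm (f n), inner_T2, inner_conj_symm]
  unfold sgm
  rw [inner_add_right, inner_add_right, inner_smul_right, Geo.inner_Xz, Geo.inner_TT', hLT]
  ring

theorem sgm_cont (G : Geo H) (e1 e2 : CI H) {q : ℝ → HH H} {w : ℝ → l2 (CI H)} {s : Set ℝ}
    (hq : ContinuousOn q s) (hw : ContinuousOn w s) :
    ContinuousOn (fun t => sgm G e1 e2 (q t) (w t)) s := by
  have hp : ContinuousOn (fun t => prd G.pw (q t) (w t)) s :=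
    ((prd G.pw).continuous.comp_continuousOn hq).clm_apply hw
  have h0 : ContinuousOn (fun t => Xz G.ω (Ms e1 (q t))) s :=
    (Xz G.ω).continuous.comp_continuousOn ((Ms e1).continuous.comp_continuousOn hq)
  have h1 : ContinuousOn (fun t => -(2:ℂ) • Xz G.ω (Ms e1 (q t))) s := h0.const_smul (-(2:ℂ))
  have h2 : ContinuousOn (fun t => TT G.ω (Ms e2 (q t))) s :=
    (TT G.ω).continuous.comp_continuousOn ((Ms e2).continuous.comp_continuousOn hq)
  have h3 : ContinuousOn (fun t => LT G.ω G.lam (1 / 4) (Ms e1 (prd G.pw (q t) (w t)))) s :=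
    (LT G.ω G.lam (1 / 4)).continuous.comp_continuousOn
      ((Ms e1).continuous.comp_continuousOn hp)
  exact (h1.add h2).add h3

/-- `cj_Ms`, `cj_Xz`, `cj_TT`, `cj_LT`, `cj_prd` (ExR, ExRb; see `cj_jj`). -/
theorem sgm_real (G : Geo H) {e1 e2 : CI H} (h1 : star e1 = e1) (h2 : star e2 = e2) {q : HH H}
    {w : l2 (CI H)} (hq : cjX q = q) (hw : cjC w = w) : cjX (sgm G e1 e2 q w) = sgm G e1 e2 q w := by
  have e : star (-(2:ℂ)) = -(2:ℂ) := by simp
  unfold sgm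
  rw [map_add, map_add, cjX_smul, e, cj_Xz, cj_Ms h1, hq, cj_TT, cj_Ms h2, hq,
    cj_LT G.lamOK G.lw.neg (by norm_num), cj_Ms h1, G.cj_prd, hq, hw]

end

end Pool.Agent.Lib.MP_79abb3_an.SC
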