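import Pool.Agent.Lib.MP_79abb3_an.PD.FdB
import Pool.Agent.Lib.MP_79abb3_an.PD.StF
import Pool.Agent.Lib.MP_79abb3_an.PD.StH
import Pool.Agent.Lib.MP_79abb3_an.PD.ScC

/-!
Theorem D, block F: the objects of the exact splitting. In the strip `j`: `ω~ = Ga_j v` (vorticity of the cut off stream
function), `x = ζ ω~`, `g = x - p`, `V = T g`; the cell flow has the frequency `N_j = k_j m` and the amplitude `k_j a`.
-/

set_option autoImplicit false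
set_option linter.unusedSectionVars false

open MeasureTheory Set Filter Topology Function
open scoped ENNReal InnerProductSpace ComplexConjugate

namespace Pool.Agent.Lib.MP_79abb3_an.PD

open Pool.Agent.Lib.MP_79abb3_an.SC Pool.Agent.Lib.MP_79abb3_an.P25

/-- `SV ⊆ XD` -/
noncomputable def sx (D : Set ℂ) : SV D →L[ℂ] XD D :=
  ⟨Submodule.inclusion (SV_le_XD D), (SV D).subtypeL.continuous.subtype_mk _⟩

theorem sx_coe {D : Set ℂ} (q : SV D) : ((sx D q : XD D) : Y2) = (q : Y2) := rfl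

/-- `js†` -/
noncomputable def ja (D : Set ℂ) : XS D →L[ℂ] SV D := ContinuousLinearMap.adjoint (js D)

namespace FD
variable {D : Set ℂ} (F : FD D)

/-- frequency of the cell flow in the strip `j` -/
def N (m : ℕ) (j : Fin F.n) : ℕ := F.k j * m

/-- `ζ⁺ cs` -/
noncomputable def gaf (m : ℕ) (j : Fin F.n) (q : ℝ × ℝ) : ℂ :=
  ((ctf (13 * F.u) (14 * F.u) q.2 * F.cs m j q : ℝ) : ℂ)

/-- `γ = -Δ (ζ⁺ cs)` -/
noncomputable def ga (m : ℕ) (j : Fin F.n) : HP := fHc (dLc (F.gaf m j))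

/-- `h^tot`: the vorticity without the cell flow -/
noncomputable def ht (m : ℕ) (j : Fin F.n) (a : ℝ) (v : VD D) : HP := F.Ga j v - (a : ℂ) • F.ga m j

/-- the damping `κ` in the strip `j` -/
noncomputable def kp (m : ℕ) (j : Fin F.n) (a : ℝ) : CI Real.pi :=
  Pool.Agent.Lib.MP_79abb3_an.FW.rc ((F.G j).kF ((F.G j).ω * F.N m j) (F.k j * a)) ((F.G j).kF_c _ _)

/-- **The strip data of a flow** with the amplitude `A`. -/
noncomputable def sd (m : ℕ) (A : ℝ → ℝ) (v : ℝ → VD D) (j : Fin F.n) : SDt Real.pi where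
  x t := Ms (ctC (9 * F.u) (10 * F.u)) (F.Ga j (v t))
  σ t := sgm (F.G j) (ctC1 (9 * F.u) (10 * F.u)) (ctC2 (9 * F.u) (10 * F.u))
    (SC.cm (F.G j).a (F.Ga j (v t))) (UW (F.G j).ω (F.G j).lam (F.Ga j (v t)))
  ve t := UV (F.G j).ω (F.G j).lam (F.Ga j (v t))
  we t := UW (F.G j).ω (F.G j).lam (F.Ga j (v t))
  κ t := F.kp m j (A t)

theorem exists_Le (j : Fin F.n) : ∃ L : XD D →L[ℂ] HP, IsLa D (F.X j) (4 * F.u) (8 * F.u) L :=
  exists_La (F.hX j) F.hD.op (by linarith [F.u0]) (by linarith [F.u0]) (by linarith [F.u0])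

theorem exists_Lp (j : Fin F.n) : ∃ L : XD D →L[ℂ] HP, IsLa D (F.X j) (2 * F.u) (4 * F.u) L :=
  exists_La (F.hX j) F.hD.op (by linarith [F.u0]) (by linarith [F.u0]) (by linarith [F.u0])

/-- `B* (η θ)` -/
noncomputable def Le (j : Fin F.n) : XD D →L[ℂ] HP := (F.exists_Le j).choose
theorem hLe (j : Fin F.n) : IsLa D (F.X j) (4 * F.u) (8 * F.u) (F.Le j) := (F.exists_Le j).choose_spec

/-- `B* (η⁺ θ)` -/
noncomputable def Lp (j : Fin F.n) : XD D →L[ℂ] HP := (F.exists_Lp j).choose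
theorem hLp (j : Fin F.n) : IsLa D (F.X j) (2 * F.u) (4 * F.u) (F.Lp j) := (F.exists_Lp j).choose_spec

/-- **The source of the outer vorticity** in the strip `j` (divided by `2π`), `q = gp θ`: `g = x - p`; `q1 = q2 = a g` for the
exact source. -/
noncomputable def src (m : ℕ) (j : Fin F.n) (a : ℝ) (v : VD D) (g q1 q2 : HP) (q : SV D) : ℂ :=
  ⟪F.Le j (sx D q), Ms (F.kp m j a) (SC.TT (F.G j).ω g)⟫_ℂ -
    (2 * ⟪Yz (F.G j).ω (F.La j (sx D q)), Ms (ctC1 (4 * F.u) (8 * F.u)) q1⟫_ℂ +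
      ⟪SC.EE (F.G j).ω (F.La j (sx D q)), Ms (ctC2 (4 * F.u) (8 * F.u)) (SC.cm (F.G j).a g)⟫_ℂ +
      dp (⇑(Ms (ctC1 (4 * F.u) (8 * F.u)) (SC.EE (F.G j).ω (F.La j (sx D q)))))
        (pz (⇑q2) (wV (F.G j).ω (Vf (F.G j).ω (⇑(F.Ga j v))))))

/-- `-Δ (ω θ)` in the strip `j`, `θ = K_s φ`: `ω J φ - 2 ω' θ_z - ω'' θ`, `ω = 1` for `z ≤ e`, `0` for `z ≥ e'`, `B` the pull back
with the cut-off `ω`. -/
noncomputable def gx (j : Fin F.n) (e e' : ℝ) (B : L2c →L[ℂ] HP) : XS D →L[ℂ] HP :=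
  B.comp (XS D).subtypeL -
    ((2 : ℂ) • ((Ms (ctC1 e e')).comp (Yz (F.G j).ω)) +
      (Ms (ctC2 e e')).comp (SC.EE (F.G j).ω)).comp ((F.La j).comp ((sx D).comp (ja D)))

/-- `-Δ (η⁺ θ)` -/
noncomputable def gs (j : Fin F.n) : XS D →L[ℂ] HP := F.gx j (2 * F.u) (4 * F.u) (F.Bp j)

/-- `-Δ (η θ)` -/
noncomputable def ge (j : Fin F.n) : XS D →L[ℂ] HP := F.gx j (4 * F.u) (8 * F.u) (F.Be j)

/-- **The outer vorticity** `o = ṽ - ∑ (a η g_j) ∘ X_j⁻¹`, `ṽ = v - a c₀ - μ β`. -/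
noncomputable def oo (w : L2c) (g : Fin F.n → HP) : L2c :=
  w - ∑ j, (2 * Real.pi : ℂ) • ContinuousLinearMap.adjoint (F.Be j) (SC.cm (F.G j).a (g j))

/-- **The total flow with its boundary layers** on `[0,b]`. -/
structure Fst (m : ℕ) (lam : ℝ) (A A' : ℝ → ℝ) (b : ℝ) (v₀ : VD D) (v : ℝ → VD D) (mu mu' : ℝ → ℝ)
    (p : Fin F.n → ℝ → HP) : Prop where
  m1 : 1 ≤ m
  b0 : 0 ≤ b
  l0 : 0 ≤ lam
  U : USys D (F.c0 m) F.β F.d lam A A' b v₀ v mu mu'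
  dA : ∀ t ∈ Icc 0 b, HasDerivWithinAt A (A' t) (Icc 0 b) t
  cA : ContinuousOn A' (Icc 0 b)
  A0 : ∀ t ∈ Icc 0 b, 0 ≤ A t
  P : ∀ j, SolP (F.G j) (F.sd m A v j) b (p j 0) (p j)
  rp : ∀ j, ∀ t ∈ Icc 0 b, cjX (p j t) = p j t

/-- `g_j = x_j - p_j` -/
noncomputable def gg (m : ℕ) (A : ℝ → ℝ) (v : ℝ → VD D) (p : Fin F.n → ℝ → HP) (j : Fin F.n) (t : ℝ) : HP :=
  (F.sd m A v j).x t - p j t

/-- The outer vorticity of a flow. -/
noncomputable def ov (m : ℕ) (A : ℝ → ℝ) (v : ℝ → VD D) (mu : ℝ → ℝ) (p : Fin F.n → ℝ → HP) (t : ℝ) : L2c :=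
  F.oo (vt (F.c0 m) F.β A v mu t) fun j => F.gg m A v p j t

/-- `h_j = h^tot - η g_j` -/
noncomputable def hh (m : ℕ) (A : ℝ → ℝ) (v : ℝ → VD D) (p : Fin F.n → ℝ → HP) (j : Fin F.n) (t : ℝ) : HP :=
  F.ht m j (A t) (v t) - Ms (ctC (4 * F.u) (8 * F.u)) (F.gg m A v p j t)

end FD

end Pool.Agent.Lib.MP_79abb3_an.PD
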