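import Pool.Agent.Lib.MP_79abb3_an.PD.FbE1
import Pool.Agent.Lib.MP_79abb3_an.PD.FeDef
import Pool.Agent.Lib.MP_79abb3_an.PD.FdB2
import Pool.Agent.Lib.MP_79abb3_an.PD.FdB4

/-!
Theorem D, block F, bounds: the cell flow as a background field.
-/

set_option autoImplicit false
set_option linter.unusedSectionVars false

open MeasureTheory Set Filter Topology Function
open scoped ENNReal InnerProductSpace ComplexConjugate

namespace Pool.Agent.Lib.MP_79abb3_an.PD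

open Pool.Agent.Lib.MP_79abb3_an.SC Pool.Agent.Lib.MP_79abb3_an.P25

namespace FD
variable {D : Set ℂ} (F : FD D) {m : ℕ}

/-- `w' = u - a ∇^⊥(χ ψ_m)` -/
noncomputable def wp (m : ℕ) (a : ℝ) (v : VD D) : Y2 := (iot D v : XD D) - (a : ℂ) • gpI D (F.P0 m)

private theorem fbu_open : IsOpen (D \ Metric.closedBall F.x F.s) :=
  F.hD.op.sdiff Metric.isClosed_closedBall

private theorem fbu_FmS (m : ℕ) :
    ContDiffOn ℝ ((⊤ : ℕ∞) : WithTop ℕ∞) (F.Fm m) (D \ Metric.closedBall F.x F.s) := by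
  have h0 : DifferentiableOn ℂ (F.Fm m) (D \ Metric.closedBall F.x F.s) := by
    intro y hy
    have h1 : DifferentiableAt ℂ F.E y := (F.fl.holo y hy).differentiableAt
    have h2 : F.E y ≠ 0 := by
      rw [← norm_pos_iff, F.fl.norm y hy]
      exact Real.exp_pos _
    exact (((h1.pow m).add ((h1.inv h2).pow m)).div_const _).differentiableWithinAt
  exact (h0.contDiffOn F.fbu_open).restrict_scalars ℝ

private theorem fbu_P0 (m : ℕ) {y : ℂ} (hy : y ∈ D) :
    ContDiffAt ℝ ((⊤ : ℕ∞) : WithTop ℕ∞) (F.P0 m) y := by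
  by_cases h1 : y ∈ Metric.closedBall F.x F.s
  · have h2 : F.P0 m =ᶠ[𝓝 y] fun _ => 0 := by
      have h3 : Metric.ball F.x F.s1 ∈ 𝓝 y := Metric.isOpen_ball.mem_nhds
        (Metric.mem_ball.2 (lt_of_le_of_lt (Metric.mem_closedBall.1 h1) F.h1))
      filter_upwards [h3] with z hz
      show ((F.χ z * (F.Fm m z).im : ℝ) : ℂ) = 0
      rw [F.χ0 z (Metric.mem_ball.1 hz).le, zero_mul, Complex.ofReal_zero]
    exact contDiffAt_const.congr_of_eventuallyEq h2
  · have h2 : D \ Metric.closedBall F.x F.s ∈ 𝓝 y := F.fbu_open.mem_nhds ⟨hy, h1⟩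
    have h3 : ContDiffAt ℝ ((⊤ : ℕ∞) : WithTop ℕ∞) (fun y => F.χ y * (F.Fm m y).im) y :=
      F.χs.contDiffAt.mul (Complex.imCLM.contDiff.contDiffAt.comp y ((F.fbu_FmS m).contDiffAt h2))
    exact Complex.ofRealCLM.contDiff.contDiffAt.comp y h3

private theorem fbu_c0 (m : ℕ) : F.c0 m = fun y => -D.indicator (lap (F.P0 m)) y := by
  funext y
  unfold FD.c0
  by_cases hy : y ∈ D
  · rw [if_pos hy, indicator_of_mem hy]
  · rw [if_neg hy, indicator_of_notMem hy, neg_zero]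

/-- `χ ψ_m` is smooth in `D` (`χ = 0` on `ball x s1`, `F_m` is holomorphic off `closedBall x s`: `Fm_der`), its first derivatives are
bounded (`P0_bd`), `-Δ(χ ψ_m) = c₀` is smooth with compact support (`c0_cc`). -/
theorem P0_bg (hm : 1 ≤ m) : ∃ B : ℝ, 0 ≤ B ∧ IsBgF D (F.P0 m) B := by
  obtain ⟨C, hC0, hC⟩ := F.P0_bd
  obtain ⟨hcc, -, -⟩ := F.c0_cc hm
  obtain ⟨M, hM⟩ := hcc.cc.cpt.exists_bound_of_continuous hcc.cc.smo.continuous
  refine ⟨max (Real.exp (C * m)) M, le_max_of_le_left (Real.exp_pos _).le,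
    fun y hy => (F.fbu_P0 m hy).contDiffWithinAt, fun y hy => ?_⟩
  obtain ⟨h1, -, -⟩ := hC m hm y hy
  refine ⟨?_, ?_, ?_⟩
  · have h2 := (fderiv ℝ (F.P0 m) y).le_opNorm 1
    rw [norm_one, mul_one] at h2
    exact (h2.trans h1).trans (le_max_left _ _)
  · have h2 := (fderiv ℝ (F.P0 m) y).le_opNorm Complex.I
    rw [Complex.norm_I, mul_one] at h2
    exact (h2.trans h1).trans (le_max_left _ _)
  · have h2 : F.c0 m y = -lap (F.P0 m) y := by
      unfold FD.c0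
      rw [if_pos hy]
    have h3 : ‖lap (F.P0 m) y‖ = ‖F.c0 m y‖ := by rw [h2, norm_neg]
    rw [h3]
    exact (hM y).trans (le_max_right _ _)

/-- `Fm_X`; `χ = 1` in the strips (`X_away`, `χ1`, `h3`); `cs` is smooth and `2π`-periodic. -/
theorem P0_str (hm : 1 ≤ m) (j : Fin F.n) :
    StrBg Real.pi (13 * F.u) (F.X j) (F.P0 m) (fun q => ((F.cs m j q : ℝ) : ℂ)) := by
  have hcs : ContDiff ℝ ((⊤ : ℕ∞) : WithTop ℕ∞) (F.cs m j) := by
    have h1 : ContDiff ℝ ((⊤ : ℕ∞) : WithTop ℕ∞) fun q : ℝ × ℝ => (m : ℝ) * F.k j * q.1 :=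
      contDiff_const.mul contDiff_fst
    have h2 : ContDiff ℝ ((⊤ : ℕ∞) : WithTop ℕ∞) fun q : ℝ × ℝ => (m : ℝ) * F.k j * q.2 :=
      contDiff_const.mul contDiff_snd
    exact ((h1.sin.mul h2.sinh).div_const _).neg
  have hper : ∀ y z : ℝ, F.cs m j (y + 2 * Real.pi, z) = F.cs m j (y, z) := by
    intro y z
    have h1 : Real.sin (m * F.k j * (y + 2 * Real.pi)) = Real.sin (m * F.k j * y) := by
      have h2 : (m : ℝ) * F.k j * (y + 2 * Real.pi) = m * F.k j * y + ((m * F.k j : ℕ) : ℝ) * (2 * Real.pi) := by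
        push_cast
        ring
      rw [h2, Real.sin_add_nat_mul_two_pi]
    show -(Real.sin (m * F.k j * (y + 2 * Real.pi)) * Real.sinh (m * F.k j * z) / m) =
      -(Real.sin (m * F.k j * y) * Real.sinh (m * F.k j * z) / m)
    rw [h1]
  refine ⟨⟨⟨?_, 1, one_pos, fun y z _ => ?_⟩, ⟨?_, 1, one_pos, fun y z _ => ?_⟩⟩, fun y => ?_, fun q h0 h1 => ?_⟩
  · simp only [Complex.ofReal_re]
    exact hcs
  · simp only [Complex.ofReal_re]
    exact hper y z
  · simp only [Complex.ofReal_im]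
    exact contDiff_const
  · simp only [Complex.ofReal_im]
  · show ((-(Real.sin (m * F.k j * y) * Real.sinh (m * F.k j * 0) / m) : ℝ) : ℂ) = 0
    rw [mul_zero, Real.sinh_zero, mul_zero, zero_div, neg_zero, Complex.ofReal_zero]
  · have h2 : q.2 < 16 * F.u := by linarith [F.u0]
    have h3 := F.X_away j h0 h2
    show ((F.χ (F.X j q) * (F.Fm m (F.X j q)).im : ℝ) : ℂ) = _
    rw [F.χ1 _ (F.h3.trans h3).le, one_mul, (F.Fm_X hm j h0 h2).1]

theorem cuI_P0 (hm : 1 ≤ m) : cuI D (F.P0 m) = cl2 (F.c0 m) := by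
  obtain ⟨B, -, hB⟩ := F.P0_bg hm
  have h1 := (hB.mem F.hD.op F.hD.bdd 2).2.2
  have h2 := cl2_smul (-1) h1
  have h3 : (fun x => (-1 : ℂ) * D.indicator (lap (F.P0 m)) x) = F.c0 m := by
    rw [F.fbu_c0]
    funext y
    rw [neg_mul, one_mul]
  rw [h3] at h2
  rw [h2, neg_smul, one_smul]
  rfl

end FD

end Pool.Agent.Lib.MP_79abb3_an.PD
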