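import Pool.Agent.Lib.MP_79abb3_an.PD.FeDef
import Pool.Agent.Lib.MP_79abb3_an.PD.CoC4

/-!
Theorem D, block F, bounds: the interior cut-off.
-/

set_option autoImplicit false
set_option linter.unusedSectionVars false

open MeasureTheory Set Filter Topology Function
open scoped ENNReal InnerProductSpace ComplexConjugate

namespace Pool.Agent.Lib.MP_79abb3_an.PD

open Pool.Agent.Lib.MP_79abb3_an.SC Pool.Agent.Lib.MP_79abb3_an.P25

namespace FD
variable {D : Set ℂ} (F : FD D)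

open scoped Manifold in
private theorem fbU1_cut {K O : Set ℂ} (hK : IsCompact K) (hO : IsOpen O) (hKO : K ⊆ O) :
    ∃ χ : ℂ → ℂ, Cc χ ∧ tsupport χ ⊆ O ∧ (∀ x, ‖χ x‖ ≤ 1) ∧ ∀ x ∈ K, χ x = 1 := by
  obtain ⟨K', hK', hKK', hK'O⟩ := exists_compact_between hK hO hKO
  obtain ⟨f, h1, h2, h3⟩ := exists_contMDiffMap_one_nhds_of_subset_interior (𝓘(ℝ, ℂ))
    (n := ⊤) hK.isClosed hKK'
  have hsup : tsupport (fun x => ((f x : ℝ) : ℂ)) ⊆ K' := by
    refine closure_minimal (fun x hx => ?_) hK'.isClosed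
    by_contra h
    exact hx (by show ((f x : ℝ) : ℂ) = 0; rw [h2 x h, Complex.ofReal_zero])
  refine ⟨fun x => ((f x : ℝ) : ℂ), ⟨?_, ?_⟩, hsup.trans hK'O, fun x => ?_, fun x hx => ?_⟩
  · exact Complex.ofRealCLM.contDiff.comp f.contMDiff.contDiff
  · exact hK'.of_isClosed_subset (isClosed_tsupport _) hsup
  · rw [Complex.norm_real, Real.norm_eq_abs, abs_le]
    exact ⟨by linarith [(h3 x).1], (h3 x).2⟩
  · have h4 := (eventually_nhdsSet_iff_forall.1 h1 x hx).self_of_nhds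
    show ((f x : ℝ) : ℂ) = 1
    rw [h4, Complex.ofReal_one]

private theorem fbU1_exp {e : ℝ} {q : ℝ × ℝ} (hq0 : 0 < q.2) (hq1 : q.2 < e) :
    Complex.exp (Complex.I * cxp q) ∈ ring (Real.exp (-e)) := by
  have h1 : ‖Complex.exp (Complex.I * cxp q)‖ = Real.exp (-q.2) := by
    rw [Complex.norm_exp]
    congr 1
    simp
  refine ⟨?_, ?_⟩
  · rw [h1]
    exact Real.exp_lt_exp.2 (by linarith)
  · rw [h1]
    exact Real.exp_lt_one_iff.2 (by linarith)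

private theorem fbU1_log {e : ℝ} {ξ : ℂ} (h : ξ ∈ ring (Real.exp (-e))) :
    ∃ q : ℝ × ℝ, 0 < q.2 ∧ q.2 < e ∧ Complex.exp (Complex.I * cxp q) = ξ := by
  have h0 : 0 < ‖ξ‖ := (Real.exp_pos _).trans h.1
  have hne : ξ ≠ 0 := norm_pos_iff.1 h0
  refine ⟨(ξ.arg, -Real.log ‖ξ‖), ?_, ?_, ?_⟩
  · have := Real.log_neg h0 h.2
    show 0 < -Real.log ‖ξ‖
    linarith
  · have h1 := (Real.lt_log_iff_exp_lt h0).2 h.1
    show -Real.log ‖ξ‖ < e
    linarith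
  · have e1 : Complex.I * cxp (ξ.arg, -Real.log ‖ξ‖) = Complex.log ξ := by
      apply Complex.ext <;> simp [cxp, Complex.log_re, Complex.log_im]
    rw [e1, Complex.exp_log hne]

/-- The interior cut-off. `K = D \ ⋃ F_j '' ring r` is compact (`F.fl.cols.cpt`, `r = exp (-13 u)`, `log (1/ρ) ≥ 16 u`), it is contained
in the open set `D \ ⋃ X_j '' ([-π,π] × [0, 9u])`; a smooth function which is `1` on `K` and supported in this open set
(`exists_contMDiff...` / `exists_contDiff_tsupport_subset`-type theorem). -/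
theorem exists_chi0 : ∃ χ : ℂ → ℂ, Cc χ ∧ tsupport χ ⊆ D ∧ (∀ x, ‖χ x‖ ≤ 1) ∧
    (∀ x ∈ D, χ x = 1 ∨ ∃ j, x ∈ Wc (F.X j) (13 * F.u)) ∧ ∀ j, ∀ x ∈ Wc (F.X j) (8 * F.u), χ x = 0 := by
  have hu := F.u0
  have hr1 : F.ρ < Real.exp (-(13 * F.u)) := by
    have h1 := F.uρ
    rw [one_div, Real.log_inv] at h1
    exact (Real.log_lt_iff_lt_exp F.fl.cols.h0).1 (by linarith)
  have hr2 : Real.exp (-(13 * F.u)) < 1 := Real.exp_lt_one_iff.2 (by linarith)
  have hK := F.fl.cols.cpt _ hr1 hr2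
  obtain ⟨C, hC⟩ : ∃ C : Set ℂ, C = ⋃ j, F.X j '' (Icc (-Real.pi) Real.pi ×ˢ Icc 0 (9 * F.u)) := ⟨_, rfl⟩
  have hCc : IsClosed C := by
    rw [hC]
    exact (isCompact_iUnion fun j => (isCompact_Icc.prod isCompact_Icc).image
      (F.hX j).smooth.continuous).isClosed
  have hKC : D \ ⋃ j, F.F j '' ring (Real.exp (-(13 * F.u))) ⊆ D \ C := by
    rintro x ⟨hxD, hx⟩
    refine ⟨hxD, fun hxC => ?_⟩
    rw [hC, mem_iUnion] at hxC
    obtain ⟨j, ⟨y, z⟩, ⟨-, hz0, hz1⟩, rfl⟩ := hxC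
    rcases hz0.eq_or_lt with h | h
    · have h1 : F.X j (y, z) ∈ frontier D := by
        have h2 : z = 0 := h.symm
        rw [h2]
        exact (F.hX j).bdry y
      exact Set.disjoint_left.1 (disjoint_frontier_iff_isOpen.2 F.hD.op) h1 hxD
    · refine hx (mem_iUnion.2 ⟨j, _, fbU1_exp (q := (y, z)) h ?_, (F.eX j _).symm⟩)
      show z < 13 * F.u
      have h2 : z ≤ 9 * F.u := hz1
      linarith
  obtain ⟨χ, h1, h2, h3, h4⟩ := fbU1_cut hK (F.hD.op.sdiff hCc) hKC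
  refine ⟨χ, h1, h2.trans sdiff_subset, h3, fun x hx => ?_, fun j x hx => ?_⟩
  · by_cases hxK : x ∈ ⋃ j, F.F j '' ring (Real.exp (-(13 * F.u)))
    · right
      obtain ⟨j, ξ, hξ, rfl⟩ := mem_iUnion.1 hxK
      obtain ⟨q, hq0, hq1, hq⟩ := fbU1_log hξ
      exact ⟨j, q, ⟨hq0, hq1⟩, by rw [F.eX, hq]⟩
    · left
      exact h4 x ⟨hx, hxK⟩
  · by_contra hne
    have h5 : x ∈ D \ C := h2 (subset_tsupport _ hne)
    refine h5.2 ?_
    rw [(F.hX j).Wc_eq] at hx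
    obtain ⟨q, ⟨hq1, hq2⟩, rfl⟩ := hx
    rw [hC]
    refine mem_iUnion.2 ⟨j, q, ⟨⟨hq1.1.le, hq1.2⟩, ⟨hq2.1.le, ?_⟩⟩, rfl⟩
    have := hq2.2
    linarith

/-- Functions which vanish in the collar: `⟪f, χ Be† y⟫ = ⟪Be (conj χ f), y⟫ = 0`: `Be f = 0` if `f = 0` on `Wc (8u)`
(`IsPB.upper` and `G.coer`, `G_a`). -/
theorem mm_Be {χ : ℂ → ℂ} {c : ℝ} (hb : Bm χ c) (j : Fin F.n) (h0 : ∀ x ∈ Wc (F.X j) (8 * F.u), χ x = 0) (y : HP) :
    mm χ (ContinuousLinearMap.adjoint (F.Be j) y) = 0 := by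
  have hu := F.u0
  have hBe0 : ∀ g : L2c, (∀ᵐ x ∂(volume : Measure ℂ), x ∈ Wc (F.X j) (8 * F.u) → (g : ℂ → ℂ) x = 0) → F.Be j g = 0 := by
    intro g hg
    have hJ : IsJ Real.pi (F.X j) (8 * F.u) (F.J j) :=
      ⟨(F.hJ j).py, (F.hJ j).pos, fun q h1 h2 => (F.hJ j).eq q h1 (by linarith)⟩
    have h1 := (F.hBe j).upper (F.hX j) hJ (by linarith) (by linarith) (by linarith) g
    have h2 : ∫ x in Wc (F.X j) (8 * F.u), ‖(g : ℂ → ℂ) x‖ ^ 2 = 0 := by
      have hm : MeasurableSet (Wc (F.X j) (8 * F.u)) := ((F.hX j).isOpen_Wc (by linarith)).measurableSet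
      have h3 : ∀ᵐ x ∂((volume : Measure ℂ).restrict (Wc (F.X j) (8 * F.u))), ‖(g : ℂ → ℂ) x‖ ^ 2 = 0 := by
        refine (ae_restrict_iff' hm).2 ?_
        filter_upwards [hg] with x hx hx'
        rw [hx hx', norm_zero, zero_pow two_ne_zero]
      exact integral_eq_zero_of_ae h3
    rw [h2, ← F.G_a j] at h1
    have h4 := (F.G j).coer (F.Be j g)
    have h5 : (⟪SC.cm (F.G j).a (F.Be j g), F.Be j g⟫_ℂ).re = (⟪F.Be j g, SC.cm (F.G j).a (F.Be j g)⟫_ℂ).re :=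
      inner_re_symm (𝕜 := ℂ) _ _
    rw [h5] at h4
    have h6 : (⟪F.Be j g, SC.cm (F.G j).a (F.Be j g)⟫_ℂ).re ≤ 0 := by
      have h7 := Real.pi_pos
      by_contra h8
      rw [not_le] at h8
      have : 0 < 2 * Real.pi * (⟪F.Be j g, SC.cm (F.G j).a (F.Be j g)⟫_ℂ).re := by positivity
      linarith
    have h9 : ‖F.Be j g‖ ^ 2 ≤ 0 := by
      by_contra h8
      rw [not_le] at h8
      have := mul_pos (F.G j).hc h8
      linarith
    exact norm_eq_zero.1 (pow_eq_zero_iff two_ne_zero |>.1 (le_antisymm h9 (by positivity)))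
  have hbc : Bm (fun x => conj (χ x)) c := ⟨Complex.continuous_conj.comp_aestronglyMeasurable hb.1, fun x => by
    rw [RCLike.norm_conj]
    exact hb.2 x⟩
  refine ext_inner_right ℂ fun f => ?_
  rw [mm_inner hb, ContinuousLinearMap.adjoint_inner_left, hBe0, inner_zero_right, inner_zero_left]
  filter_upwards [mm_coe hbc f] with x hx hx'
  rw [hx, h0 x hx', map_zero, zero_mul]

end FD

end Pool.Agent.Lib.MP_79abb3_an.PD
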