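import Pool.Agent.Lib.MP_79abb3_an.PD.FeDef
import Pool.Agent.Lib.MP_79abb3_an.PD.CoB5

/-!
Theorem D, block F: continuity and reality of the strip data.
-/

set_option autoImplicit false
set_option linter.unusedSectionVars false

open MeasureTheory Set Filter Topology Function
open scoped ENNReal InnerProductSpace ComplexConjugate

namespace Pool.Agent.Lib.MP_79abb3_an.PD

open Pool.Agent.Lib.MP_79abb3_an.SC Pool.Agent.Lib.MP_79abb3_an.P25 Pool.Agent.Lib.MP_79abb3_an.FW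

private theorem fex2a_ct1 {a b z : ℝ} (hab : a < b) (hz : z ≤ a) : ctf a b z = 1 := ctf_one hab hz

private theorem fex2a_ct0 {a b z : ℝ} (hab : a < b) (hz : b ≤ z) : ctf a b z = 0 := ctf_zero hab hz

private theorem fex2a_mul {a b a' b' : ℝ} (h1 : a < b) (h2 : a' < b') (h3 : b ≤ a') :
    ctC a' b' * ctC a b = ctC a b := by
  refine ci_ext fun z hz => ?_
  rw [ex_mul]
  unfold ctC
  rw [FW.ex_rc _ _ hz, FW.ex_rc _ _ hz]
  rcases le_or_gt b z with h | h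
  · rw [fex2a_ct0 h1 h, Complex.ofReal_zero, mul_zero]
  · rw [fex2a_ct1 h2 (h.le.trans h3), Complex.ofReal_one, one_mul]

private theorem fex2a_star (a b : ℝ) : star (ctC a b) = ctC a b := SC.star_rc _ _

private theorem fex2a_star1 (a b : ℝ) : star (ctC1 a b) = ctC1 a b := SC.star_rc _ _

private theorem fex2a_star2 (a b : ℝ) : star (ctC2 a b) = ctC2 a b := SC.star_rc _ _

private theorem fex2a_sq (C μ k a z : ℝ) :
    C * (k * a * Real.cosh (μ * z)) ^ 2 = a ^ 2 * (C * (k * 1 * Real.cosh (μ * z)) ^ 2) := by ring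

namespace FD
variable {D : Set ℂ} (F : FD D) {m : ℕ} {A A' : ℝ → ℝ} {b lam : ℝ} {v₀ : VD D} {v : ℝ → VD D} {mu mu' : ℝ → ℝ}

/-- `a ↦ κ` is continuous: `kF` is quadratic in the amplitude. -/
theorem kp_cont (m : ℕ) (j : Fin F.n) : Continuous fun a : ℝ => F.kp m j a := by
  have h1 : (fun a : ℝ => F.kp m j a) = fun a : ℝ => ((a ^ 2 : ℝ) : ℂ) • F.kp m j 1 := by
    funext a
    refine ci_ext fun z hz => ?_
    rw [ex_smul]
    unfold kp
    rw [FW.ex_rc _ _ hz, FW.ex_rc _ _ hz, ← Complex.ofReal_mul]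
    congr 1
    unfold Geo.kF chF
    exact fex2a_sq _ _ _ _ _
  rw [h1]
  exact (Complex.continuous_ofReal.comp (continuous_id.pow 2)).smul continuous_const

theorem kp_real (m : ℕ) (j : Fin F.n) (a : ℝ) : star (F.kp m j a) = F.kp m j a := SC.star_rc _ _

theorem sd_cont (j : Fin F.n) (hv : ContinuousOn v (Icc 0 b)) (hA : ContinuousOn A (Icc 0 b)) :
    (F.sd m A v j).Cont b := by
  have hΓ : ContinuousOn (fun t => F.Ga j (v t)) (Icc 0 b) := (F.Ga j).continuous.comp_continuousOn hv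
  have hV : ContinuousOn (fun t => UV (F.G j).ω (F.G j).lam (F.Ga j (v t))) (Icc 0 b) :=
    (UV (F.G j).ω (F.G j).lam).continuous.comp_continuousOn hΓ
  have hW : ContinuousOn (fun t => UW (F.G j).ω (F.G j).lam (F.Ga j (v t))) (Icc 0 b) :=
    (UW (F.G j).ω (F.G j).lam).continuous.comp_continuousOn hΓ
  exact ⟨(Ms (ctC (9 * F.u) (10 * F.u))).continuous.comp_continuousOn hΓ,
    sgm_cont (F.G j) _ _ ((SC.cm (F.G j).a).continuous.comp_continuousOn hΓ) hW, hV, hW,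
    (F.kp_cont m j).comp_continuousOn hA⟩

/-- `IsGa.real`, `cj_Ms`, `cj_cm`, `cj_UV`, `cj_UW`, `sgm_real`. -/
theorem sd_real (j : Fin F.n) {t : ℝ} (hv : cVD D (v t) = v t) : (F.sd m A v j).Re t := by
  have hu := F.u0
  have hΓ : cjX (F.Ga j (v t)) = F.Ga j (v t) := by
    have h1 := (F.hGa j).real (F.hX j) F.hD.op (by linarith) (by linarith) (by linarith) (v t)
    rwa [hv] at h1
  have hV : cjC (UV (F.G j).ω (F.G j).lam (F.Ga j (v t))) = UV (F.G j).ω (F.G j).lam (F.Ga j (v t)) := by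
    rw [(F.G j).cj_UV, hΓ]
  have hW : cjC (UW (F.G j).ω (F.G j).lam (F.Ga j (v t))) = UW (F.G j).ω (F.G j).lam (F.Ga j (v t)) := by
    rw [(F.G j).cj_UW, hΓ]
  refine ⟨?_, ?_, hV, hW, F.kp_real m j _⟩
  · show cjX (Ms (ctC (9 * F.u) (10 * F.u)) (F.Ga j (v t))) = Ms (ctC (9 * F.u) (10 * F.u)) (F.Ga j (v t))
    rw [cj_Ms (fex2a_star _ _), hΓ]
  · refine sgm_real (F.G j) (fex2a_star1 _ _) (fex2a_star2 _ _) ?_ hW
    rw [cj_cm (F.G j).ha.c, hΓ]

theorem sd_zeta (j : Fin F.n) (t : ℝ) : Ms (F.G j).ζ ((F.sd m A v j).x t) = (F.sd m A v j).x t := by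
  have hu := F.u0
  show Ms (F.G j).ζ (Ms (ctC (9 * F.u) (10 * F.u)) (F.Ga j (v t))) = Ms (ctC (9 * F.u) (10 * F.u)) (F.Ga j (v t))
  rw [Ms_Ms, F.G_ζ, fex2a_mul (by linarith) (by linarith) (by linarith)]

/-- `η = ctf (4u) (8u)` -/
theorem cutOK (j : Fin F.n) : CutOK (F.G j) (ctC (4 * F.u) (8 * F.u)) (ctC1 (4 * F.u) (8 * F.u))
    (ctC2 (4 * F.u) (8 * F.u)) := by
  have hu := F.u0
  have hπ := F.uπ
  refine ⟨rc_isD (ctf_smooth _ _), rc_isD (ctf_smooth1 _ _), fex2a_star _ _, ?_, ?_, ?_⟩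
  · rw [F.G_ζ, fex2a_mul (by linarith) (by linarith) (by linarith)]
  · refine ⟨4 * F.u, by linarith, by linarith, fun z hz => ?_⟩
    unfold ctC
    rw [FW.ex_rc _ _ ⟨hz.1, by linarith [hz.2]⟩, fex2a_ct1 (by linarith) hz.2, Complex.ofReal_one]
  · refine ⟨8 * F.u, by linarith, fun z hz => ?_⟩
    unfold ctC
    rw [FW.ex_rc _ _ ⟨by linarith [hz.1], hz.2⟩, fex2a_ct0 (by linarith) hz.1, Complex.ofReal_zero]

end FD

end Pool.Agent.Lib.MP_79abb3_an.PD
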