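import Pool.Agent.Lib.MP_79abb3_an.PD.FeDef
import Pool.Agent.Lib.MP_79abb3_an.PD.CoB5
import Pool.Agent.Lib.MP_79abb3_an.SC.FlGb

/-!
Theorem D, block F: velocity and trace identities.
-/

set_option autoImplicit false
set_option linter.unusedSectionVars false

open MeasureTheory Set Filter Topology Function
open scoped ENNReal InnerProductSpace ComplexConjugate

namespace Pool.Agent.Lib.MP_79abb3_an.PD

open Pool.Agent.Lib.MP_79abb3_an.SC Pool.Agent.Lib.MP_79abb3_an.P25 Pool.Agent.Lib.MP_79abb3_an.FW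

namespace FD
variable {D : Set ℂ} (F : FD D) {m : ℕ} {A A' : ℝ → ℝ} {b lam : ℝ} {v₀ : VD D} {v : ℝ → VD D} {mu mu' : ℝ → ℝ}

private theorem fx2b_cs_py (m : ℕ) (j : Fin F.n) : PY Real.pi (F.cs m j) := by
  have hs : PY Real.pi (fun p : ℝ × ℝ => Real.sin (1 * (((m * F.k j : ℕ) : ℤ) : ℝ) * p.1)) :=
    PY.sin (one_mul _) ((m * F.k j : ℕ) : ℤ)
  have hh : PY Real.pi (fun p : ℝ × ℝ => Real.sinh (m * F.k j * p.2) / m) :=
    PY.of_z Real.pi (g := fun z => Real.sinh (m * F.k j * z) / m)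
      ((Real.contDiff_sinh.comp (contDiff_const.mul contDiff_id)).div_const _)
  have e : F.cs m j = fun p : ℝ × ℝ => -(Real.sin (1 * (((m * F.k j : ℕ) : ℤ) : ℝ) * p.1) *
      (Real.sinh (m * F.k j * p.2) / m)) := by
    funext q
    unfold cs
    push_cast
    rw [one_mul, mul_div_assoc]
  rw [e]
  exact (hs.mul hh).neg

/-- the real stream function -/
private noncomputable def fx2b_r (m : ℕ) (j : Fin F.n) (q : ℝ × ℝ) : ℝ :=
  ctf (13 * F.u) (14 * F.u) q.2 * F.cs m j q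

private theorem fx2b_r_py (m : ℕ) (j : Fin F.n) : PY Real.pi (F.fx2b_r m j) :=
  (PY.of_z Real.pi (ctf_smooth (13 * F.u) (14 * F.u))).mul (F.fx2b_cs_py m j)

private theorem fx2b_pc (m : ℕ) (j : Fin F.n) : PC Real.pi (F.gaf m j) := PC.ofPY (F.fx2b_r_py m j)

private theorem fx2b_van (m : ℕ) (j : Fin F.n) : VanC Real.pi (F.gaf m j) := by
  refine ⟨Real.pi - 14 * F.u, by linarith [F.u0, F.uπ], fun y z hz => ?_⟩
  unfold gaf
  rw [ctf_zero (by linarith [F.u0]) (by linarith), zero_mul, Complex.ofReal_zero]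

private theorem fx2b_zero (m : ℕ) (j : Fin F.n) (y : ℝ) : F.gaf m j (y, 0) = 0 := by
  unfold gaf cs
  simp

private theorem fx2b_N (m : ℕ) (j : Fin F.n) : ((F.N m j : ℕ) : ℝ) = m * F.k j := by
  unfold N
  push_cast
  ring

private theorem fx2b_pZ {m : ℕ} (hm : 1 ≤ m) (j : Fin F.n) {y z : ℝ} (hz : z < 13 * F.u) :
    pZ (F.fx2b_r m j) (y, z) =
      -((F.k j : ℝ) * Real.sin (1 * (F.N m j : ℝ) * y) * Real.cosh (1 * (F.N m j : ℝ) * z)) := by
  have hm0 : (m : ℝ) ≠ 0 := by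
    have : m ≠ 0 := by omega
    exact_mod_cast this
  have h1 : HasFDerivAt (F.fx2b_r m j) (fderiv ℝ (F.fx2b_r m j) (y, z)) (y, z) :=
    ((F.fx2b_r_py m j).smooth.differentiable (by simp) (y, z)).hasFDerivAt
  have h2 : HasDerivAt (fun z : ℝ => ((y, z) : ℝ × ℝ)) (0, 1) z :=
    (hasDerivAt_const z y).prodMk (hasDerivAt_id z)
  have h3 : HasDerivAt (fun z : ℝ => F.fx2b_r m j (y, z)) (pZ (F.fx2b_r m j) (y, z)) z :=
    h1.comp_hasDerivAt z h2
  have h4 : HasDerivAt (fun z : ℝ => F.cs m j (y, z))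
      (-(Real.sin (m * F.k j * y) * (Real.cosh (m * F.k j * z) * (m * F.k j)) / m)) z := by
    have h5 : HasDerivAt (fun z : ℝ => (m * F.k j : ℝ) * z) (m * F.k j) z := by
      simpa using (hasDerivAt_id z).const_mul (m * F.k j : ℝ)
    have h6 := (Real.hasDerivAt_sinh _).comp z h5
    exact ((h6.const_mul (Real.sin (m * F.k j * y))).div_const (m : ℝ)).neg
  have h7 : (fun z : ℝ => F.fx2b_r m j (y, z)) =ᶠ[𝓝 z] fun z => F.cs m j (y, z) := by
    filter_upwards [Iio_mem_nhds hz] with w hw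
    show ctf (13 * F.u) (14 * F.u) w * F.cs m j (y, w) = _
    rw [ctf_one (by linarith [F.u0]) (le_of_lt hw), one_mul]
  rw [h3.unique (h4.congr_of_eventuallyEq h7), one_mul, F.fx2b_N m j]
  field_simp

private theorem fx2b_pY {m : ℕ} (hm : 1 ≤ m) (j : Fin F.n) {y z : ℝ} (hz : z ≤ 13 * F.u) :
    pY (F.fx2b_r m j) (y, z) =
      -((F.k j : ℝ) * Real.cos (1 * (F.N m j : ℝ) * y) * Real.sinh (1 * (F.N m j : ℝ) * z)) := by
  have hm0 : (m : ℝ) ≠ 0 := by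
    have : m ≠ 0 := by omega
    exact_mod_cast this
  have h1 : HasFDerivAt (F.fx2b_r m j) (fderiv ℝ (F.fx2b_r m j) (y, z)) (y, z) :=
    ((F.fx2b_r_py m j).smooth.differentiable (by simp) (y, z)).hasFDerivAt
  have h2 : HasDerivAt (fun y : ℝ => ((y, z) : ℝ × ℝ)) (1, 0) y :=
    (hasDerivAt_id y).prodMk (hasDerivAt_const y z)
  have h1' : HasFDerivAt (F.fx2b_r m j) (fderiv ℝ (F.fx2b_r m j) (y, z))
      ((fun y : ℝ => ((y, z) : ℝ × ℝ)) y) := h1
  have h3' := h1'.comp_hasDerivAt y h2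
  have h3 : HasDerivAt (fun y : ℝ => F.fx2b_r m j (y, z)) (pY (F.fx2b_r m j) (y, z)) y := h3'
  have h4 : HasDerivAt (fun y : ℝ => F.cs m j (y, z))
      (-(Real.cos (m * F.k j * y) * (m * F.k j) * Real.sinh (m * F.k j * z) / m)) y := by
    have h5 : HasDerivAt (fun y : ℝ => (m * F.k j : ℝ) * y) (m * F.k j) y := by
      simpa using (hasDerivAt_id y).const_mul (m * F.k j : ℝ)
    have h6 := (Real.hasDerivAt_sin _).comp y h5
    exact ((h6.mul_const (Real.sinh (m * F.k j * z))).div_const (m : ℝ)).neg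
  have h7 : (fun y : ℝ => F.fx2b_r m j (y, z)) = fun y => F.cs m j (y, z) := by
    funext w
    show ctf (13 * F.u) (14 * F.u) z * F.cs m j (w, z) = _
    rw [ctf_one (by linarith [F.u0]) hz, one_mul]
  rw [h7] at h3
  rw [h3.unique h4, one_mul, F.fx2b_N m j]
  field_simp

private theorem fx2b_fam {f g : ℝ × ℝ → ℝ} (hf : Continuous f) (hg : Continuous g) {z : ℝ}
    (hz : z ∈ Icc (0:ℝ) Real.pi) (h : ∀ y, f (y, z) = g (y, z)) (n : ℤ) :
    ex (fam f n : CI Real.pi) z = ex (fam g n : CI Real.pi) z := by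
  rw [ex_fam hf n hz, ex_fam hg n hz, fco, fco]
  congr 1
  refine intervalIntegral.integral_congr fun y _ => ?_
  show ((f (y, z) : ℝ) : ℂ) * _ = _
  rw [h y]

private theorem fx2b_fmc {θ : ℝ × ℝ → ℂ} {f : ℝ × ℝ → ℝ} (h : PC Real.pi θ) (hf : Continuous f) {z : ℝ}
    (hz : z ∈ Icc (0:ℝ) Real.pi) (e : ∀ y, θ (y, z) = (f (y, z) : ℂ)) (n : ℤ) :
    ex (fmc θ n : CI Real.pi) z = ex (fam f n : CI Real.pi) z := by
  have h0 : ex (fam (fun q => (θ q).im) n : CI Real.pi) z = 0 := by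
    rw [ex_fam h.im.smooth.continuous n hz, fco]
    simp only [e, Complex.ofReal_im, Complex.ofReal_zero, zero_mul, intervalIntegral.integral_zero,
      mul_zero]
  unfold fmc
  rw [ex_add, ex_smul, h0, mul_zero, add_zero]
  refine fx2b_fam h.re.smooth.continuous hf hz (fun y => ?_) n
  show (θ (y, z)).re = f (y, z)
  rw [e y, Complex.ofReal_re]

private theorem fx2b_Z {m : ℕ} (hm : 1 ≤ m) (j : Fin F.n) {z : ℝ} (hz : z ∈ Icc (0:ℝ) Real.pi)
    (hz' : z < 13 * F.u) (n : ℤ) : ex (fmc (dZc (F.gaf m j)) n : CI Real.pi) z =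
      ex (cellV (1 * (F.N m j : ℝ)) (F.N m j) (F.k j) n : CI Real.pi) z := by
  have hN : 1 ≤ F.N m j := Nat.one_le_iff_ne_zero.2
    (Nat.mul_ne_zero (Nat.one_le_iff_ne_zero.1 (F.fl.kpos j)) (Nat.one_le_iff_ne_zero.1 hm))
  have h := F.fx2b_pc m j
  have e1 : ∀ q, dZc (F.gaf m j) q = ((pZ (F.fx2b_r m j) q : ℝ) : ℂ) := fun q => by
    refine Complex.ext ?_ ?_
    · rw [h.zz_re, Complex.ofReal_re]
      rfl
    · rw [h.zz_im, Complex.ofReal_im]
      have e2 : (fun q => (F.gaf m j q).im) = fun _ => (0:ℝ) := funext fun q => Complex.ofReal_im _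
      rw [e2]
      unfold pZ
      simp
  have hd : PC Real.pi (dZc (F.gaf m j)) := by
    have e3 : dZc (F.gaf m j) = fun q => ((pZ (F.fx2b_r m j) q : ℝ) : ℂ) := funext e1
    rw [e3]
    exact PC.ofPY (F.fx2b_r_py m j).pZ
  rw [← fam_cellV (H := Real.pi) (one_mul _) hN (F.k j : ℝ) n]
  refine fx2b_fmc hd (by fun_prop) hz (fun y => ?_) n
  rw [e1, F.fx2b_pZ hm j hz']

private theorem fx2b_Y {m : ℕ} (hm : 1 ≤ m) (j : Fin F.n) {z : ℝ} (hz : z ∈ Icc (0:ℝ) Real.pi)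
    (hz' : z ≤ 13 * F.u) (n : ℤ) : ex (-(fmc (dYc (F.gaf m j)) n) : CI Real.pi) z =
      ex (cellW (1 * (F.N m j : ℝ)) (F.N m j) (F.k j) n : CI Real.pi) z := by
  have hN : 1 ≤ F.N m j := Nat.one_le_iff_ne_zero.2
    (Nat.mul_ne_zero (Nat.one_le_iff_ne_zero.1 (F.fl.kpos j)) (Nat.one_le_iff_ne_zero.1 hm))
  have h := F.fx2b_pc m j
  have e1 : ∀ q, dYc (F.gaf m j) q = ((pY (F.fx2b_r m j) q : ℝ) : ℂ) := fun q => by
    refine Complex.ext ?_ ?_
    · rw [h.yy_re, Complex.ofReal_re]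
      rfl
    · rw [h.yy_im, Complex.ofReal_im]
      have e2 : (fun q => (F.gaf m j q).im) = fun _ => (0:ℝ) := funext fun q => Complex.ofReal_im _
      rw [e2]
      unfold pY
      simp
  have hd : PC Real.pi (dYc (F.gaf m j)) := by
    have e3 : dYc (F.gaf m j) = fun q => ((pY (F.fx2b_r m j) q : ℝ) : ℂ) := funext e1
    rw [e3]
    exact PC.ofPY (F.fx2b_r_py m j).pY
  have c1 : Continuous fun p : ℝ × ℝ =>
      (F.k j : ℝ) * Real.cos (1 * (F.N m j : ℝ) * p.1) * Real.sinh (1 * (F.N m j : ℝ) * p.2) := by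
    fun_prop
  have c2 := fx2b_fmc hd (f := fun p : ℝ × ℝ =>
      (-1) * ((F.k j : ℝ) * Real.cos (1 * (F.N m j : ℝ) * p.1) * Real.sinh (1 * (F.N m j : ℝ) * p.2)))
    (by fun_prop) hz (fun y => by
      rw [e1, F.fx2b_pY hm j hz']
      congr 1
      ring) n
  rw [← fam_cellW (H := Real.pi) (one_mul _) hN (F.k j : ℝ) n, ex_neg, c2, fam_smul (-1) c1 n, ex_smul]
  push_cast
  ring

/-- The modes of the cell flow: on `supp ζ` the velocity of `a γ` is the cell flow with the frequency `N = k m` and the amplitude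
`k a` (`uV_ll0` with `θ = ζ⁺ cs`; `ζ⁺ = 1` on `supp ζ`; `∂_z cs = -k sin (N y) cosh (N z)`, modes of `sin`). -/
theorem vel_ga (hm : 1 ≤ m) (j : Fin F.n) (a : ℝ) (n : ℤ) :
    (F.G j).ζ * ((a : ℂ) • uV (F.G j).ω (Vf (F.G j).ω (⇑(F.ga m j))) n) =
      (F.G j).ζ * cellV ((F.G j).ω * F.N m j) (F.N m j) (F.k j * a) n ∧
    (F.G j).ζ * ((a : ℂ) • wV (F.G j).ω (Vf (F.G j).ω (⇑(F.ga m j))) n) =
      (F.G j).ζ * cellW ((F.G j).ω * F.N m j) (F.N m j) (F.k j * a) n := by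
  have ho : (F.G j).ω = Real.pi / Real.pi := (F.G j).hω
  have ho1 : (F.G j).ω = 1 := Geo.om_pi (F.G j)
  have hu := uV_ll0 (F.fx2b_pc m j) (F.fx2b_van m j) (F.fx2b_zero m j) n
  have hw := wV_ll0 (F.fx2b_pc m j) (F.fx2b_van m j) (F.fx2b_zero m j) n
  rw [← ho] at hu hw
  have hζ : ∀ z ∈ Icc (0:ℝ) Real.pi, 12 * F.u ≤ z → ex (F.G j).ζ z = 0 := by
    intro z hz hz'
    rw [F.G_ζ j]
    unfold ctC
    rw [ex_rc _ _ hz, ctf_zero (by linarith [F.u0]) hz', Complex.ofReal_zero]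
  constructor
  · refine ci_ext fun z hz => ?_
    rw [ex_mul, ex_mul]
    rcases lt_or_ge z (12 * F.u) with h | h
    · congr 1
      have e1 : uV (F.G j).ω (Vf (F.G j).ω (⇑(F.ga m j))) n = (fmc (dZc (F.gaf m j)) n : CI Real.pi) := hu
      rw [ex_smul, e1, F.fx2b_Z hm j hz (by linarith [F.u0]) n, ho1]
      unfold cellV
      rw [ex_smul, ex_smul]
      push_cast
      ring
    · rw [hζ z hz h, zero_mul, zero_mul]
  · refine ci_ext fun z hz => ?_
    rw [ex_mul, ex_mul]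
    rcases lt_or_ge z (12 * F.u) with h | h
    · congr 1
      have e1 : wV (F.G j).ω (Vf (F.G j).ω (⇑(F.ga m j))) n = (-(fmc (dYc (F.gaf m j)) n) : CI Real.pi) := hw
      rw [ex_smul, e1, F.fx2b_Y hm j hz (by linarith [F.u0]) n, ho1]
      unfold cellW
      rw [ex_smul, ex_smul]
      push_cast
      ring
    · rw [hζ z hz h, zero_mul, zero_mul]

private theorem fx2b_Vf_smul (ω : ℝ) (c : ℂ) (x : HP) (n : ℤ) :
    (Vf ω (⇑(c • x)) n : CI Real.pi) = c • Vf ω (⇑x) n := by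
  unfold Vf
  rw [lp.coeFn_smul, Pi.smul_apply, map_smul]

private theorem fx2b_uV_gen (ω : ℝ) (c : ℂ) {V W : ℤ → CI Real.pi} {n : ℤ} (h : W n = c • V n) :
    SC.uV ω W n = c • SC.uV ω V n := by
  unfold SC.uV
  rw [h, map_smul, map_smul]
  refine ci_ext fun z _ => ?_
  simp only [ex_sub, ex_smul]
  ring

private theorem fx2b_wV_gen (ω : ℝ) (c : ℂ) {V W : ℤ → CI Real.pi} {n : ℤ} (h : W n = c • V n) :
    SC.wV ω W n = c • SC.wV ω V n := by
  unfold SC.wV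
  rw [h, map_smul, map_smul]
  refine ci_ext fun z _ => ?_
  simp only [ex_smul]
  ring

private theorem fx2b_uV_smul (ω : ℝ) (c : ℂ) (x : HP) (n : ℤ) :
    (uV ω (Vf ω (⇑(c • x))) n : CI Real.pi) = c • uV ω (Vf ω (⇑x)) n :=
  fx2b_uV_gen ω c (fx2b_Vf_smul ω c x n)

private theorem fx2b_wV_smul (ω : ℝ) (c : ℂ) (x : HP) (n : ℤ) :
    (wV ω (Vf ω (⇑(c • x))) n : CI Real.pi) = c • wV ω (Vf ω (⇑x)) n :=
  fx2b_wV_gen ω c (fx2b_Vf_smul ω c x n)

private theorem fx2b_alg {R : Type*} [Ring R] (ζ c c' p q : R) (h : ζ * c' = ζ * c) :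
    ζ * (p + q + c') = ζ * (c + (p + q)) := by
  rw [mul_add, h, mul_add ζ c]
  abel

/-- The velocity on `supp ζ`: cell flow plus `u[T h^tot]`. -/
theorem vel (hm : 1 ≤ m) (j : Fin F.n) (a : ℝ) (v : VD D) (g : HP) (n : ℤ) :
    (F.G j).ζ * uV (F.G j).ω (Vf (F.G j).ω (⇑(F.Ga j v))) n =
      (F.G j).ζ * (F.G j).tv (F.N m j) (F.k j * a) (F.ht m j a v - g) g n ∧
    (F.G j).ζ * wV (F.G j).ω (Vf (F.G j).ω (⇑(F.Ga j v))) n =
      (F.G j).ζ * (F.G j).tw (F.N m j) (F.k j * a) (F.ht m j a v - g) g n := by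
  have e : F.Ga j v = ((F.ht m j a v - g) + g) + (a : ℂ) • F.ga m j := by
    unfold ht
    abel
  obtain ⟨h1, h2⟩ := F.vel_ga hm j a n
  constructor
  · rw [e, uV_add', uV_add', fx2b_uV_smul]
    exact fx2b_alg _ _ _ _ _ h1
  · rw [e, wV_add', wV_add', fx2b_wV_smul]
    exact fx2b_alg _ _ _ _ _ h2

/-- The trace of `T h^tot` is minus the tangential velocity of the cell flow (`IsGa.PP`: the trace of `T Ga v` vanishes;
`tr_ll0` for `γ`). -/
theorem trace (hm : 1 ≤ m) (j : Fin F.n) (a : ℝ) (v : VD D) (n : ℤ) :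
    ex (Vf (F.G j).ω (⇑(F.ht m j a v)) n : CI Real.pi) 0 =
      -(Complex.I * ((F.k j * a / 2 * sN (F.N m j) n : ℝ) : ℂ)) := by
  have ho : (F.G j).ω = Real.pi / Real.pi := (F.G j).hω
  have z0 : (0:ℝ) ∈ Icc (0:ℝ) Real.pi := ⟨le_rfl, Real.pi_pos.le⟩
  have ht := tr_ll0 (F.fx2b_pc m j) (F.fx2b_van m j) (F.fx2b_zero m j) n
  rw [← ho] at ht
  have ht' : ex (Vf (F.G j).ω (⇑(F.ga m j)) n : CI Real.pi) 0 =
      ex (fmc (dZc (F.gaf m j)) n : CI Real.pi) 0 := ht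
  have h1 : ex (Vf (F.G j).ω (⇑(F.Ga j v)) n : CI Real.pi) 0 = 0 := by
    refine (P2_iff ((F.G j).ω * n) (F.Ga j v n)).1 ?_
    rw [← PP_apply, ho, (F.hGa j).PP (F.hX j) F.hD.op (by linarith [F.u0]) (by linarith [F.u0])
      (by linarith [F.u0]) v]
  have e : F.ht m j a v = F.Ga j v + (-(a : ℂ)) • F.ga m j := by
    unfold FD.ht
    rw [neg_smul]
    abel
  rw [e, Vf_add, fx2b_Vf_smul, ex_add, ex_smul, h1, ht', F.fx2b_Z hm j z0 (by linarith [F.u0]) n]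
  unfold cellV
  rw [ex_smul, ex_rc _ _ z0, mul_zero, Real.cosh_zero]
  push_cast
  ring

end FD

end Pool.Agent.Lib.MP_79abb3_an.PD
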