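import Pool.Agent.Lib.MP_79abb3_an.PD.StDef

/-!
MP_79abb3_an, Theorem D, block F, strip module: existence and reality for (P).
-/

set_option autoImplicit false
set_option linter.unusedSectionVars false

open MeasureTheory Set Filter Topology Function
open scoped ENNReal InnerProductSpace

namespace Pool.Agent.Lib.MP_79abb3_an.SC

open Pool.Agent.Lib.MP_79abb3_an.P25 Pool.Agent.Lib.MP_79abb3_an.FW

section Abs

variable {X Y : Type} [NormedAddCommGroup X] [NormedSpace ℂ X] [CompleteSpace X]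
  [NormedAddCommGroup Y] [NormedSpace ℂ Y]

/-- global existence for affine equations -/
theorem Ker.aff_global {S : ℝ → (X →L[ℂ] X)} {L : ℝ → (Y →L[ℂ] X)} {C θ : ℝ} {Φ : ℝ → X → Y}
    (hk : Ker S L C θ) {a b : ℝ} (hab : a ≤ b) (hΦ : AffE Φ a b) (x₀ : X) :
    ∃ x, Mild S L Φ a b x₀ x := by
  obtain ⟨M', hN⟩ := NlE.of_aff hΦ
  obtain ⟨M, hM, h1, h2⟩ := hΦ.ex
  have hC := hk.C0
  obtain ⟨μ, hμ, hgr⟩ := kth_gron hk.th0 hk.th1 (show 0 ≤ C * M by positivity)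
  refine hk.global hab hN x₀ (R := 2 * (1 + ‖x₀‖) * Real.exp (μ * (b - a))) fun c hc x hx => ?_
  have key : ∀ t ∈ Icc a c, 1 + ‖x t‖ ≤ (1 + ‖x₀‖) +
      C * M * ∫ r in a..t, kth θ (t - r) * (1 + ‖x r‖) := by
    intro t ht
    rw [hx.eq t ht]
    have e1 : ‖S (t - a) x₀‖ ≤ ‖x₀‖ := hk.sb _ (sub_nonneg.2 ht.1) x₀
    have hfn : ContinuousOn (fun r => 1 + ‖x r‖) (uIcc a t) := by
      rw [uIcc_of_le ht.1]
      exact continuousOn_const.add (hx.cont.mono (Icc_subset_Icc le_rfl ht.2)).norm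
    have i1 : IntervalIntegrable (fun r => C * M * (kth θ (t - r) * (1 + ‖x r‖))) volume a t :=
      ((kth_int' hk.th1 t a t).mul_continuousOn hfn).const_mul _
    have e2 : ‖∫ r in a..t, L (t - r) (Φ r (x r))‖ ≤
        ∫ r in a..t, C * M * (kth θ (t - r) * (1 + ‖x r‖)) := by
      refine intervalIntegral.norm_integral_le_of_norm_le ht.1 ?_ i1
      have : ∀ᵐ r : ℝ ∂volume, r ≠ t := by simp [ae_iff, measure_singleton]
      filter_upwards [this] with r hrt hr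
      have h3 : 0 < t - r := sub_pos.2 (lt_of_le_of_ne hr.2 hrt)
      have hrI : r ∈ Icc a b := ⟨hr.1.le, hr.2.trans (ht.2.trans hc.2)⟩
      have h4 := AffE.bound h1 h2 hrI (x r)
      have h5 := kth_pos θ h3
      refine (hk.lb _ h3 _).trans ?_
      calc C * kth θ (t - r) * ‖Φ r (x r)‖ ≤ C * kth θ (t - r) * (M * (1 + ‖x r‖)) := by gcongr
        _ = _ := by ring
    rw [intervalIntegral.integral_const_mul] at e2
    rw [add_assoc]
    exact add_le_add le_rfl ((norm_add_le _ _).trans (add_le_add e1 e2))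
  have h3 := hgr a c (1 + ‖x₀‖) (fun t => 1 + ‖x t‖) (by positivity)
    (continuousOn_const.add hx.cont.norm) (fun t _ => by positivity) key c ⟨hc.1, le_rfl⟩
  have h4 : Real.exp (μ * (c - a)) ≤ Real.exp (μ * (b - a)) := by
    refine Real.exp_le_exp.2 (mul_le_mul_of_nonneg_left ?_ hμ.le)
    linarith [hc.2]
  have h5 : 2 * (1 + ‖x₀‖) * Real.exp (μ * (c - a)) ≤ 2 * (1 + ‖x₀‖) * Real.exp (μ * (b - a)) :=
    mul_le_mul_of_nonneg_left h4 (by positivity)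
  have h6 : 1 + ‖x c‖ ≤ 2 * (1 + ‖x₀‖) * Real.exp (μ * (c - a)) := h3
  linarith

end Abs

section
variable {H : ℝ} [hH : Fact (0 < H)]

/-- `B f` for `f = K^{1/2} h` (natural condition) -/
private noncomputable def nQ (G : Geo H) : HH H →L[ℂ] HH H := (nD G).Q (Kh (nD G).K)

private theorem TT_nQ (G : Geo H) (x : HH H) : TT G.ω (nQ G x) = Kh (nD G).K x := (nD G).isKh.bTQ x

private theorem nQ_qi (G : Geo H) (g : HH H) : nQ G ((nD G).qi g) = g := (nD G).Q_qi rfl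

private theorem qi_nQ (G : Geo H) (y : HH H) : (nD G).qi (nQ G y) = y := (nD G).qi_Q y

private theorem inner_nQ (G : Geo H) (x y : HH H) : ⟪nQ G x, cm G.a (nQ G y)⟫_ℂ = ⟪x, y⟫_ℂ := by
  rw [← inner_cm G.ha.c]
  exact (nD G).isKh.inner_aQ x y

private noncomputable def nJ1 (G : Geo H) : HH H →L[ℂ] HH H := (LT G.ω G.lam (1 / 4) ∘L nQ G).adjoint

private noncomputable def nJ2 (G : Geo H) : HH H →L[ℂ] HH H := (TT G.ω ∘L nQ G).adjoint

private theorem inner_nJ1 (G : Geo H) (φ y : HH H) :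
    ⟪φ, nJ1 G y⟫_ℂ = ⟪LT G.ω G.lam (1 / 4) (nQ G φ), y⟫_ℂ := by
  rw [nJ1, ContinuousLinearMap.adjoint_inner_right]; rfl

private theorem inner_nJ2 (G : Geo H) (φ y : HH H) :
    ⟪φ, nJ2 G y⟫_ℂ = ⟪TT G.ω (nQ G φ), y⟫_ℂ := by
  rw [nJ2, ContinuousLinearMap.adjoint_inner_right]; rfl

private theorem kerP (G : Geo H) : ∃ C, Ker (Sg (nD G).K)
    (fun τ => (AS (nD G).K τ).comp ((nJ1 G).coprod (nJ2 G))) C (5 / 8) :=
  ker_one G.lamOK (nD G) rfl

private noncomputable def PhP (G : Geo H) (D : SDt H) (t : ℝ) (y : HH H) : HH H × HH H :=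
  (G.Pw (Ms G.ζ (cm G.a (nQ G y))) (D.ve t) (D.we t),
    Ms (D.κ t) (TT G.ω (D.x t - nQ G y)) + D.σ t)

private theorem AffE.prodMk {X Z Z' : Type} [NormedAddCommGroup X] [NormedSpace ℂ X]
    [NormedAddCommGroup Z] [NormedSpace ℂ Z] [NormedAddCommGroup Z'] [NormedSpace ℂ Z'] {a b : ℝ}
    {A : ℝ → X → Z} {A' : ℝ → X → Z'} (h : AffE A a b) (h' : AffE A' a b) :
    AffE (fun t x => (A t x, A' t x)) a b := by
  obtain ⟨M, hM, h1, h2⟩ := h.ex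
  obtain ⟨M', hM', h1', h2'⟩ := h'.ex
  refine ⟨⟨max M M', hM.trans (le_max_left _ _), fun t ht x y => ?_, fun t ht => ?_⟩,
    fun x => (h.cont x).prodMk (h'.cont x)⟩
  · show max ‖A t x - A t y‖ ‖A' t x - A' t y‖ ≤ _
    have := norm_nonneg (x - y)
    refine max_le ((h1 t ht x y).trans ?_) ((h1' t ht x y).trans ?_)
    · have := le_max_left M M'
      gcongr
    · have := le_max_right M M'
      gcongr
  · show max ‖A t 0‖ ‖A' t 0‖ ≤ _
    exact max_le_max (h2 t ht) (h2' t ht)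

private theorem PhP_aff (G : Geo H) {D : SDt H} {b : ℝ} (hD : D.Cont b) : AffE (PhP G D) 0 b := by
  have q : AffE (fun (_ : ℝ) (y : HH H) => nQ G y) 0 b := AffE.lin (nQ G)
  have om := AffE.clm (AffE.clm q (cm G.a)) (Ms G.ζ)
  have h1 := AffE.clm (AffE.bil om hD.we (prd G.pw).flip) (Xz G.ω)
  have h2 := AffE.clm (AffE.bil om hD.ve (prd G.pw).flip) (Xy G.ω)
  have h3 := AffE.bil (AffE.clm (AffE.sub (AffE.const (X := HH H) hD.x) q) (TT G.ω)) hD.κ (MsB H)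
  exact AffE.congr (AffE.prodMk (AffE.neg (AffE.add h1 h2)) (AffE.add h3 (AffE.const hD.σ)))
    fun _ _ => rfl

/-- the tested right-hand side -/
private theorem inner_PhP (G : Geo H) (D : SDt H) (t : ℝ) (y ψ : HH H) :
    ⟪ψ, ((nJ1 G).coprod (nJ2 G)) (PhP G D t y) - y⟫_ℂ = rP G D t (nQ G y) (nQ G ψ) := by
  have e1 : ⟪LT G.ω G.lam (1 / 4) (nQ G ψ), (PhP G D t y).1⟫_ℂ =
      bf G.ω (⇑(Ms G.ζ (cm G.a (nQ G y)))) (hf G.lam (D.ve t)) (hf G.lam (D.we t))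
        (⇑(TT G.ω (nQ G ψ))) := inner_LT_Pw G (nQ G ψ) _ _ _
  have e2 : ⟪TT G.ω (nQ G ψ), (PhP G D t y).2⟫_ℂ =
      ⟪TT G.ω (nQ G ψ), Ms (D.κ t) (TT G.ω (D.x t - nQ G y))⟫_ℂ + ⟪TT G.ω (nQ G ψ), D.σ t⟫_ℂ :=
    inner_add_right _ _ _
  rw [inner_sub_right, ContinuousLinearMap.coprod_apply, inner_add_right, inner_nJ1, inner_nJ2,
    e1, e2, ← inner_nQ G ψ y]
  unfold rP
  ring

/-- from tested solutions to `SolP` -/
private theorem solP_of (G : Geo H) {D : SDt H} {b : ℝ} (hb : 0 ≤ b) {p₀ : HH H} {y : ℝ → HH H}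
    (hc : ContinuousOn y (Icc 0 b)) (h0 : nQ G (y 0) = p₀)
    (hT : Tst (nD G).K 0 b (fun t => Kh (nD G).K (y t))
      (fun t => ((nJ1 G).coprod (nJ2 G)) (PhP G D t (y t)) - y t)) :
    SolP G D b p₀ (fun t => nQ G (y t)) where
  cont := (nQ G).continuous.comp_continuousOn hc
  init := h0
  eq φ s t hs hst ht := by
    have _ := hb
    have hsub : uIcc s t ⊆ Icc 0 b := by rw [uIcc_of_le hst]; exact Icc_subset_Icc hs ht
    have h1 := hT.eq s t hs hst ht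
    have hi := (hT.cl.mono hsub).intervalIntegrable (μ := volume)
    have h2 : ⟪(nD G).qi φ, Kh (nD G).K (Kh (nD G).K (y t)) - Kh (nD G).K (Kh (nD G).K (y s))⟫_ℂ =
        ∫ r in s..t, rP G D r (nQ G (y r)) φ := by
      rw [h1]
      have h3 := (ContinuousLinearMap.intervalIntegral_comp_comm
        (innerSL ℂ ((nD G).qi φ)) hi).symm
      refine h3.trans ?_
      refine intervalIntegral.integral_congr fun r _ => ?_
      show ⟪(nD G).qi φ, ((nJ1 G).coprod (nJ2 G)) (PhP G D r (y r)) - y r⟫_ℂ = _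
      rw [inner_PhP, nQ_qi]
    have e : ∀ r, ⟪TT G.ω φ, TT G.ω (nQ G (y r))⟫_ℂ =
        ⟪(nD G).qi φ, Kh (nD G).K (Kh (nD G).K (y r))⟫_ℂ := fun r => by
      have e1 : TT G.ω φ = Kh (nD G).K ((nD G).qi φ) := by rw [← TT_nQ, nQ_qi]
      rw [e1, TT_nQ, Kh_inner]
    show ⟪TT G.ω φ, TT G.ω (nQ G (y t))⟫_ℂ - ⟪TT G.ω φ, TT G.ω (nQ G (y s))⟫_ℂ = _
    rw [e, e, ← inner_sub_right, h2]

/-- **3.1, existence.** -/
theorem SolP.exists (G : Geo H) {D : SDt H} {b : ℝ} (hb : 0 ≤ b) (hD : D.Cont b) (p₀ : HH H) :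
    ∃ p, SolP G D b p₀ p := by
  obtain ⟨C, hk⟩ := kerP G
  have hΦ := PhP_aff G hD
  obtain ⟨M, hN⟩ := NlE.of_aff hΦ
  obtain ⟨y, hy⟩ := hk.aff_global hb hΦ ((nD G).qi p₀)
  have hT := mild_Tst (nD G).K_nonneg (nD G).K_injective hk (g := fun r => PhP G D r (y r))
    (hN.cont_comp hy.cont) hy.cont hy.eq
  refine ⟨_, solP_of G hb hy.cont ?_ hT⟩
  rw [hy.init hk hb, nQ_qi]

/-- `SolP` are mild solutions -/
private theorem SolP.mild {G : Geo H} {D : SDt H} {b : ℝ} (hD : D.Cont b) {C : ℝ}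
    (hk : Ker (Sg (nD G).K) (fun τ => (AS (nD G).K τ).comp ((nJ1 G).coprod (nJ2 G))) C (5 / 8))
    {p₀ : HH H} {p : ℝ → HH H} (hp : SolP G D b p₀ p) :
    Mild (Sg (nD G).K) (fun τ => (AS (nD G).K τ).comp ((nJ1 G).coprod (nJ2 G))) (PhP G D) 0 b
      ((nD G).qi p₀) (fun t => (nD G).qi (p t)) := by
  have hc : ContinuousOn (fun t => (nD G).qi (p t)) (Icc 0 b) :=
    ((nD G).qi).continuous.comp_continuousOn hp.cont
  obtain ⟨M, hN⟩ := NlE.of_aff (PhP_aff G hD)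
  have hg := hN.cont_comp hc
  have hl : ContinuousOn (fun t => ((nJ1 G).coprod (nJ2 G)) (PhP G D t ((nD G).qi (p t))) -
      (nD G).qi (p t)) (Icc 0 b) :=
    (((nJ1 G).coprod (nJ2 G)).continuous.comp_continuousOn hg).sub hc
  have hT : Tst (nD G).K 0 b (fun t => Kh (nD G).K ((nD G).qi (p t)))
      (fun t => ((nJ1 G).coprod (nJ2 G)) (PhP G D t ((nD G).qi (p t))) - (nD G).qi (p t)) := by
    refine ⟨(Kh (nD G).K).continuous.comp_continuousOn hc, hl, fun s t hs hst ht => ?_⟩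
    have hsub : uIcc s t ⊆ Icc 0 b := by rw [uIcc_of_le hst]; exact Icc_subset_Icc hs ht
    refine ext_inner_left ℂ fun ψ => ?_
    have hi := (hl.mono hsub).intervalIntegrable (μ := volume)
    have h3 := (ContinuousLinearMap.intervalIntegral_comp_comm (innerSL ℂ ψ) hi).symm
    have h4 : ⟪ψ, ∫ r in s..t, (((nJ1 G).coprod (nJ2 G)) (PhP G D r ((nD G).qi (p r))) -
        (nD G).qi (p r))⟫_ℂ = ∫ r in s..t, rP G D r (p r) (nQ G ψ) := by
      refine h3.trans (intervalIntegral.integral_congr fun r _ => ?_)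
      show ⟪ψ, ((nJ1 G).coprod (nJ2 G)) (PhP G D r ((nD G).qi (p r))) - (nD G).qi (p r)⟫_ℂ = _
      rw [inner_PhP, nQ_qi]
    refine Eq.trans ?_ h4.symm
    rw [← hp.eq (nQ G ψ) s t hs hst ht, inner_sub_right]
    have e : ∀ r, ⟪ψ, Kh (nD G).K (Kh (nD G).K ((nD G).qi (p r)))⟫_ℂ =
        ⟪TT G.ω (nQ G ψ), TT G.ω (p r)⟫_ℂ := fun r => by
      rw [← Kh_inner, ← TT_nQ, ← TT_nQ, nQ_qi]
    rw [e, e]
  refine ⟨hc, fun t ht => ?_⟩
  have h1 := Tst_mild (nD G).K_nonneg (nD G).K_injective hk hg hc hT t ht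
  show (nD G).qi (p t) = _
  rw [h1, hp.init]
  rfl

private theorem cj_nQ (G : Geo H) (x : HH H) : cjX (nQ G x) = nQ G (cjX x) :=
  OD.Cj.cQ cjX_cnj (D := nD G) ⟨cj_TT G.ω, cj_EE G.ω, fun _ => rfl, cj_cm G.ha.c, fun _ => rfl⟩ x

private theorem cj_nK (G : Geo H) : (nD G).Cj cjX :=
  ⟨cj_TT G.ω, cj_EE G.ω, fun _ => rfl, cj_cm G.ha.c, fun _ => rfl⟩

private theorem cj_nJ1 (G : Geo H) (x : HH H) : cjX (nJ1 G x) = nJ1 G (cjX x) :=
  cjX_cnj.adjoint (fun x => by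
    show cjX (LT G.ω G.lam (1 / 4) (nQ G x)) = LT G.ω G.lam (1 / 4) (nQ G (cjX x))
    rw [cj_LT G.lamOK G.lw.neg (by norm_num), cj_nQ]) x

private theorem cj_nJ2 (G : Geo H) (x : HH H) : cjX (nJ2 G x) = nJ2 G (cjX x) :=
  cjX_cnj.adjoint (fun x => by
    show cjX (TT G.ω (nQ G x)) = TT G.ω (nQ G (cjX x))
    rw [cj_TT, cj_nQ]) x

private theorem cj_PhP (G : Geo H) {D : SDt H} {t : ℝ} (hr : D.Re t) (y : HH H) :
    (cjX (PhP G D t y).1, cjX (PhP G D t y).2) = PhP G D t (cjX y) := by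
  refine Prod.ext ?_ ?_
  · show cjX (-(Xz G.ω (prd G.pw (Ms G.ζ (cm G.a (nQ G y))) (D.we t)) +
      Xy G.ω (prd G.pw (Ms G.ζ (cm G.a (nQ G y))) (D.ve t)))) =
      -(Xz G.ω (prd G.pw (Ms G.ζ (cm G.a (nQ G (cjX y)))) (D.we t)) +
      Xy G.ω (prd G.pw (Ms G.ζ (cm G.a (nQ G (cjX y)))) (D.ve t)))
    rw [map_neg, map_add, cj_Xz, cj_Xy, Geo.cj_prd, Geo.cj_prd, cj_Ms G.ζ_real, cj_cm G.ha.c,
      cj_nQ, hr.ve, hr.we]
  · show cjX (Ms (D.κ t) (TT G.ω (D.x t - nQ G y)) + D.σ t) =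
      Ms (D.κ t) (TT G.ω (D.x t - nQ G (cjX y))) + D.σ t
    rw [map_add, cj_Ms hr.κ, cj_TT, map_sub cjX, cj_nQ, hr.x, hr.σ]

/-- **3.1, reality.** -/
theorem SolP.real {G : Geo H} {D : SDt H} {b : ℝ} (hD : D.Cont b) (hr : ∀ t ∈ Icc 0 b, D.Re t)
    {p₀ : HH H} (h0 : Rl p₀) {p : ℝ → HH H} (hp : SolP G D b p₀ p) : ∀ t ∈ Icc 0 b, Rl (p t) := by
  obtain ⟨C, hk⟩ := kerP G
  have hm := hp.mild hD hk
  obtain ⟨M, hN⟩ := NlE.of_aff (PhP_aff G hD)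
  have hq : ∀ g : HH H, cjX g = g → cjX ((nD G).qi g) = (nD G).qi g := by
    intro g hg
    have h1 : nQ G (cjX ((nD G).qi g)) = g := by rw [← cj_nQ, nQ_qi, hg]
    rw [← qi_nQ G (cjX ((nD G).qi g)), h1]
  have key := Mild.real hk hN hm (cjX : HH H →L[ℝ] HH H) (cjX.prodMap cjX)
    (fun t ht x => cj_Sg (cj_nK G) ht x)
    (fun t ht y => by
      show cjX (AS (nD G).K t (nJ1 G y.1 + nJ2 G y.2)) = AS (nD G).K t (nJ1 G (cjX y.1) + nJ2 G (cjX y.2))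
      rw [cj_AS (cj_nK G) ht, map_add cjX, cj_nJ1, cj_nJ2])
    (fun t ht x => cj_PhP G (hr t ht) x) (hq p₀ ((Rl_iff _).1 h0))
  intro t ht
  have h3 : cjX ((nD G).qi (p t)) = (nD G).qi (p t) := key t ht
  have h4 : cjX (p t) = p t := by
    rw [← nQ_qi G (p t), cj_nQ, h3]
  exact (Rl_iff _).2 h4

/-- uniqueness for `(P)` -/
theorem SolP.unique {G : Geo H} {D : SDt H} {b : ℝ} (hD : D.Cont b) {p₀ : HH H} {p p' : ℝ → HH H}
    (hp : SolP G D b p₀ p) (hp' : SolP G D b p₀ p') : ∀ t ∈ Icc 0 b, p t = p' t := by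
  obtain ⟨C, hk⟩ := kerP G
  obtain ⟨M, hN⟩ := NlE.of_aff (PhP_aff G hD)
  intro t ht
  have h1 : (nD G).qi (p t) = (nD G).qi (p' t) := Mild.unique hk hN (hp.mild hD hk) (hp'.mild hD hk) t ht
  rw [← nQ_qi G (p t), h1, nQ_qi]

end

end Pool.Agent.Lib.MP_79abb3_an.SC
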