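import Pool.Agent.Lib.MP_79abb3_an.PD.StDef

/-!
MP_79abb3_an, Theorem D, block F, strip module: the equation (V).
-/

set_option autoImplicit false
set_option linter.unusedSectionVars false
set_option linter.unusedVariables false

open MeasureTheory Set Filter Topology Function
open scoped ENNReal InnerProductSpace

namespace Pool.Agent.Lib.MP_79abb3_an.SC

open Pool.Agent.Lib.MP_79abb3_an.P25 Pool.Agent.Lib.MP_79abb3_an.FW

section
variable {H : ℝ} [hH : Fact (0 < H)]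

private theorem stb_Pw_cont (G : Geo H) {S : Set ℝ} {om : ℝ → HH H} {v w : ℝ → l2 (CI H)}
    (h1 : ContinuousOn om S) (h2 : ContinuousOn v S) (h3 : ContinuousOn w S) :
    ContinuousOn (fun t => G.Pw (om t) (v t) (w t)) S := by
  have a1 : ContinuousOn (fun t => prd G.pw (om t) (w t)) S :=
    ((prd G.pw).continuous.comp_continuousOn h1).clm_apply h3
  have a2 : ContinuousOn (fun t => prd G.pw (om t) (v t)) S :=
    ((prd G.pw).continuous.comp_continuousOn h1).clm_apply h2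
  exact (((Xz G.ω).continuous.comp_continuousOn a1).add
    ((Xy G.ω).continuous.comp_continuousOn a2)).neg

private theorem stb_Ms_cont {S : Set ℝ} {k : ℝ → CI H} {y : ℝ → HH H}
    (h1 : ContinuousOn k S) (h2 : ContinuousOn y S) :
    ContinuousOn (fun t => Ms (k t) (y t)) S := by
  have a1 : ContinuousOn (fun t => MsB H (k t) (y t)) S :=
    ((MsB H).continuous.comp_continuousOn h1).clm_apply h2
  exact a1

private theorem stb_rX_cont (G : Geo H) {D : SDt H} {b : ℝ} (hD : D.Cont b) (φ : HH H) :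
    ContinuousOn (fun t => rX G D t φ) (Icc 0 b) := by
  have h1 : ContinuousOn (fun t => cm G.a (D.x t)) (Icc 0 b) :=
    (cm G.a).continuous.comp_continuousOn hD.x
  have h2 := stb_Pw_cont G h1 hD.ve hD.we
  unfold rX
  simp only [← inner_LT_Pw]
  exact (((continuousOn_const.inner h1).neg).add (continuousOn_const.inner h2)).add
    (continuousOn_const.inner hD.σ)

private theorem stb_rP_cont (G : Geo H) {D : SDt H} {b : ℝ} (hD : D.Cont b) {p : ℝ → HH H}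
    (hp : ContinuousOn p (Icc 0 b)) (φ : HH H) :
    ContinuousOn (fun t => rP G D t (p t) φ) (Icc 0 b) := by
  have h1 : ContinuousOn (fun t => cm G.a (p t)) (Icc 0 b) :=
    (cm G.a).continuous.comp_continuousOn hp
  have h1' : ContinuousOn (fun t => Ms G.ζ (cm G.a (p t))) (Icc 0 b) :=
    (Ms G.ζ).continuous.comp_continuousOn h1
  have h2 := stb_Pw_cont G h1' hD.ve hD.we
  have h3 : ContinuousOn (fun t => TT G.ω (D.x t - p t)) (Icc 0 b) :=
    (TT G.ω).continuous.comp_continuousOn (hD.x.sub hp)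
  have h4 := stb_Ms_cont hD.κ h3
  unfold rP
  simp only [← inner_LT_Pw]
  exact ((((continuousOn_const.inner h1).neg).add (continuousOn_const.inner h2)).add
    (continuousOn_const.inner h4)).add (continuousOn_const.inner hD.σ)

private theorem stb_Pw_sub (G : Geo H) (om om' : HH H) (v w : l2 (CI H)) :
    G.Pw (om - om') v w = G.Pw om v w - G.Pw om' v w := by
  show -(Xz G.ω (prd G.pw (om - om') _) + Xy G.ω (prd G.pw (om - om') _)) =
    -(Xz G.ω (prd G.pw om _) + Xy G.ω (prd G.pw om _)) -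
      -(Xz G.ω (prd G.pw om' _) + Xy G.ω (prd G.pw om' _))
  simp only [map_sub, sub_apply]
  abel

/-- **3.2.** Proof: `ℓ t = -(G.Qd.adjoint (cm G.a g)) + G.J3 (G.Pw (Ms G.ζ (cm G.a g)) (ve t) (we t)) -
G.J4 (Ms (κ t) (TT g))`, `g = D.x t - p t`; `⟪φ, ℓ t⟫ = rV ..` by `inner_J3`, `inner_J4`, `inner_LT_Pw`
(ExT: `w1` in the proof of `Geo.inner_lV`), `ContinuousLinearMap.adjoint_inner_right`. Continuity: `Pw` is
bilinear and continuous (`prd`). `Tst.eq`: `ext_inner_left`, `⟪φ, Kh V⟫ = ⟪Kh φ, V⟫ = ⟪TT (Qd φ), V⟫`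
(`Kh_inner`, `G.TT_Qd`), subtract `hp.eq (G.Qd φ)` from `hX (G.Qd φ) (G.PP_Qd φ)`:
`rX - rP = rV` because `Ms ζ (cm a x) = cm a (Ms ζ x) = cm a x` (`Ms_cm`, `hx`) and `bf` is additive in
`om` (use `inner_LT_Pw` as in `Geo.bf_add`); the inner product moves into the integral
(`ContinuousLinearMap.intervalIntegral_comp_comm` with `innerSL`, or the proof of an existing lemma). -/
theorem SolP.V (G : Geo H) {D : SDt H} {b : ℝ} (hb : 0 ≤ b) (hD : D.Cont b) (hX : EqX G D b)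
    (hx : ∀ t ∈ Icc 0 b, Ms G.ζ (D.x t) = D.x t) {p₀ : HH H} {p : ℝ → HH H} (hp : SolP G D b p₀ p) :
    ∃ ℓ : ℝ → HH H, Tst G.D.K 0 b (fun t => TT G.ω (D.x t - p t)) ℓ ∧
      ∀ t ∈ Icc 0 b, ∀ φ, ⟪φ, ℓ t⟫_ℂ = rV G D t (D.x t - p t) (G.Qd φ) := by
  have cg : ContinuousOn (fun t => D.x t - p t) (Icc 0 b) := hD.x.sub hp.cont
  have ca : ContinuousOn (fun t => cm G.a (D.x t - p t)) (Icc 0 b) :=
    (cm G.a).continuous.comp_continuousOn cg
  have cz : ContinuousOn (fun t => Ms G.ζ (cm G.a (D.x t - p t))) (Icc 0 b) :=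
    (Ms G.ζ).continuous.comp_continuousOn ca
  have cP := stb_Pw_cont G cz hD.ve hD.we
  have cT : ContinuousOn (fun t => TT G.ω (D.x t - p t)) (Icc 0 b) :=
    (TT G.ω).continuous.comp_continuousOn cg
  have cK := stb_Ms_cont hD.κ cT
  obtain ⟨ℓ, hℓ⟩ : ∃ ℓ : ℝ → HH H, ℓ = fun t => -(G.Qd.adjoint (cm G.a (D.x t - p t))) +
      G.J3 (G.Pw (Ms G.ζ (cm G.a (D.x t - p t))) (D.ve t) (D.we t)) -
      G.J4 (Ms (D.κ t) (TT G.ω (D.x t - p t))) := ⟨_, rfl⟩
  have cl : ContinuousOn ℓ (Icc 0 b) := by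
    rw [hℓ]
    exact (((G.Qd.adjoint).continuous.comp_continuousOn ca).neg.add
      ((G.J3).continuous.comp_continuousOn cP)).sub ((G.J4).continuous.comp_continuousOn cK)
  have hin : ∀ t, ∀ φ, ⟪φ, ℓ t⟫_ℂ = rV G D t (D.x t - p t) (G.Qd φ) := by
    intro t φ
    rw [hℓ]
    simp only []
    rw [inner_sub_right, inner_add_right, inner_neg_right,
      ContinuousLinearMap.adjoint_inner_right, G.inner_J3, G.inner_J4, inner_LT_Pw]
    rfl
  refine ⟨ℓ, ⟨cT, cl, ?_⟩, fun t _ φ => hin t φ⟩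
  intro s t hs hst ht
  have hsub : uIcc s t ⊆ Icc 0 b := by rw [uIcc_of_le hst]; exact Icc_subset_Icc hs ht
  have il : IntervalIntegrable ℓ volume s t := (cl.mono hsub).intervalIntegrable
  refine ext_inner_left ℂ fun φ => ?_
  have e0 := (innerSL ℂ φ).intervalIntegral_comp_comm il
  have iX : IntervalIntegrable (fun r => rX G D r (G.Qd φ)) volume s t :=
    ((stb_rX_cont G hD (G.Qd φ)).mono hsub).intervalIntegrable
  have iP : IntervalIntegrable (fun r => rP G D r (p r) (G.Qd φ)) volume s t :=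
    ((stb_rP_cont G hD hp.cont (G.Qd φ)).mono hsub).intervalIntegrable
  have e2 := hX (G.Qd φ) (G.PP_Qd φ) s t hs hst ht
  have e3 := hp.eq (G.Qd φ) s t hs hst ht
  have e4 : ∫ r in s..t, ⟪φ, ℓ r⟫_ℂ =
      ∫ r in s..t, (rX G D r (G.Qd φ) - rP G D r (p r) (G.Qd φ)) := by
    refine intervalIntegral.integral_congr fun r hr => ?_
    have hr' : r ∈ Icc 0 b := hsub hr
    have z1 : Ms G.ζ (cm G.a (D.x r)) = cm G.a (D.x r) := by
      rw [Ms_cm G.ζ G.ha.c.s0, hx r hr']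
    rw [hin r φ]
    unfold rV rX rP
    have z2 : bf G.ω (⇑(Ms G.ζ (cm G.a (D.x r - p r)))) (hf G.lam (D.ve r)) (hf G.lam (D.we r))
        (⇑(TT G.ω (G.Qd φ))) =
        bf G.ω (⇑(cm G.a (D.x r))) (hf G.lam (D.ve r)) (hf G.lam (D.we r)) (⇑(TT G.ω (G.Qd φ))) -
        bf G.ω (⇑(Ms G.ζ (cm G.a (p r)))) (hf G.lam (D.ve r)) (hf G.lam (D.we r))
          (⇑(TT G.ω (G.Qd φ))) := by
      rw [← inner_LT_Pw, ← inner_LT_Pw, ← inner_LT_Pw, ← inner_sub_right, ← stb_Pw_sub, map_sub,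
        map_sub, z1]
    rw [z2, map_sub (cm G.a), inner_sub_right]
    ring
  refine Eq.trans ?_ (e4.symm.trans e0)
  rw [intervalIntegral.integral_sub iX iP, ← e2, ← e3, inner_sub_right, ← Kh_inner,
    ← Kh_inner, ← G.TT_Qd, map_sub, map_sub, inner_sub_right, inner_sub_right]
  ring

/-- The form only depends on the velocity on `supp ζ`. Proof: `bf_eq`-like: `pz (Ms ζ om) w n =
∑ mz (w (n-j)) (mz ζ (om j)) = ∑ mz (w (n-j) * ζ) (om j)` (`mz_mul`-type lemma, `mul_comm`). -/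
theorem bf_zeta (G : Geo H) (om : HH H) {v w v' w' : ℤ → CI H} (hv : ∀ n, G.ζ * v n = G.ζ * v' n)
    (hw : ∀ n, G.ζ * w n = G.ζ * w' n) (f : ℤ → Z2 H) :
    bf G.ω (⇑(Ms G.ζ om)) v w f = bf G.ω (⇑(Ms G.ζ om)) v' w' f := by
  have key : ∀ {u u' : ℤ → CI H}, (∀ n, G.ζ * u n = G.ζ * u' n) →
      pz (⇑(Ms G.ζ om)) u = pz (⇑(Ms G.ζ om)) u' := by
    intro u u' h
    funext n
    refine tsum_congr fun j => ?_
    show mz (u (n - j)) (Ms G.ζ om j) = mz (u' (n - j)) (Ms G.ζ om j)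
    rw [Ms_apply, mz_comm, ← mz_mul, h, mz_mul, mz_comm]
  unfold bf
  rw [key hw, key hv]

/-- From the strip data to `StV`: `SolP.V`, `bf_zeta`. -/
theorem StV.mk' (G : Geo H) {N : ℕ} (hN : 1 ≤ N) {A : ℝ → ℝ} {η : CI H} {b : ℝ} (hb : 0 ≤ b)
    {D : SDt H} (hD : D.Cont b) (hX : EqX G D b)
    (hx : ∀ t ∈ Icc 0 b, Ms G.ζ (D.x t) = D.x t) {p₀ : HH H} {p h : ℝ → HH H}
    (hp : SolP G D b p₀ p) (hA : ∀ t ∈ Icc 0 b, 0 ≤ A t)
    (hκ : ∀ t ∈ Icc 0 b, D.κ t = rc (G.kF (G.ω * N) (A t)) (G.kF_c _ _))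
    (hv : ∀ t ∈ Icc 0 b, ∀ n, G.ζ * hf G.lam (D.ve t) n =
      G.ζ * G.tv N (A t) (h t) (Ms η (D.x t - p t)) n)
    (hw : ∀ t ∈ Icc 0 b, ∀ n, G.ζ * hf G.lam (D.we t) n =
      G.ζ * G.tw N (A t) (h t) (Ms η (D.x t - p t)) n)
    (htr : ∀ t ∈ Icc 0 b, ∀ n : ℤ, ex (Vf G.ω (⇑(Ms η (D.x t - p t) + h t)) n : CI H) 0 =
      -(Complex.I * ((A t / 2 * sN N n : ℝ) : ℂ))) :
    ∃ ℓ, StV G N A η b (fun t => D.x t - p t) h ℓ := by
  obtain ⟨ℓ, h1, h2⟩ := SolP.V G hb hD hX hx hp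
  refine ⟨ℓ, ⟨hN, hb, hA, hD.x.sub hp.cont, h1, ?_, htr⟩⟩
  intro t ht φ
  rw [h2 t ht φ, rV, hκ t ht, bf_zeta G (cm G.a (D.x t - p t)) (hv t ht) (hw t ht)]

end

end Pool.Agent.Lib.MP_79abb3_an.SC
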