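import Pool.Agent.Lib.MP_79abb3_an.PD.FeX
import Pool.Agent.Lib.MP_79abb3_an.PD.FeX2a
import Pool.Agent.Lib.MP_79abb3_an.PD.FeX2b
import Pool.Agent.Lib.MP_79abb3_an.PD.StB
import Pool.Agent.Lib.MP_79abb3_an.PD.StA

/-!
Theorem D, block F: the boundary layers.
-/

set_option autoImplicit false
set_option linter.unusedSectionVars false

open MeasureTheory Set Filter Topology Function
open scoped ENNReal InnerProductSpace ComplexConjugate

namespace Pool.Agent.Lib.MP_79abb3_an.PD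

open Pool.Agent.Lib.MP_79abb3_an.SC Pool.Agent.Lib.MP_79abb3_an.P25 Pool.Agent.Lib.MP_79abb3_an.FW

private theorem fx2_Pw_cont (G : Geo Real.pi) {S : Set ℝ} {om : ℝ → HP} {v w : ℝ → l2 (CI Real.pi)}
    (h1 : ContinuousOn om S) (h2 : ContinuousOn v S) (h3 : ContinuousOn w S) :
    ContinuousOn (fun t => G.Pw (om t) (v t) (w t)) S := by
  have a1 : ContinuousOn (fun t => prd G.pw (om t) (w t)) S :=
    ((prd G.pw).continuous.comp_continuousOn h1).clm_apply h3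
  have a2 : ContinuousOn (fun t => prd G.pw (om t) (v t)) S :=
    ((prd G.pw).continuous.comp_continuousOn h1).clm_apply h2
  exact (((Xz G.ω).continuous.comp_continuousOn a1).add
    ((Xy G.ω).continuous.comp_continuousOn a2)).neg

private theorem fx2_Ms_cont {S : Set ℝ} {k : ℝ → CI Real.pi} {y : ℝ → HP}
    (h1 : ContinuousOn k S) (h2 : ContinuousOn y S) :
    ContinuousOn (fun t => SC.Ms (k t) (y t)) S := by
  have a1 : ContinuousOn (fun t => MsB Real.pi (k t) (y t)) S :=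
    ((MsB Real.pi).continuous.comp_continuousOn h1).clm_apply h2
  exact a1

private theorem fx2_rX_cont (G : Geo Real.pi) {D : SDt Real.pi} {b : ℝ} (hD : D.Cont b) (φ : HP) :
    ContinuousOn (fun t => rX G D t φ) (Icc 0 b) := by
  have h1 : ContinuousOn (fun t => SC.cm G.a (D.x t)) (Icc 0 b) :=
    (SC.cm G.a).continuous.comp_continuousOn hD.x
  have h2 := fx2_Pw_cont G h1 hD.ve hD.we
  unfold rX
  simp only [← inner_LT_Pw]
  exact (((continuousOn_const.inner h1).neg).add (continuousOn_const.inner h2)).add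
    (continuousOn_const.inner hD.σ)

private theorem fx2_rP_cont (G : Geo Real.pi) {D : SDt Real.pi} {b : ℝ} (hD : D.Cont b) {p : ℝ → HP}
    (hp : ContinuousOn p (Icc 0 b)) (φ : HP) :
    ContinuousOn (fun t => rP G D t (p t) φ) (Icc 0 b) := by
  have h1 : ContinuousOn (fun t => SC.cm G.a (p t)) (Icc 0 b) :=
    (SC.cm G.a).continuous.comp_continuousOn hp
  have h1' : ContinuousOn (fun t => SC.Ms G.ζ (SC.cm G.a (p t))) (Icc 0 b) :=
    (SC.Ms G.ζ).continuous.comp_continuousOn h1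
  have h2 := fx2_Pw_cont G h1' hD.ve hD.we
  have h3 : ContinuousOn (fun t => SC.TT G.ω (D.x t - p t)) (Icc 0 b) :=
    (SC.TT G.ω).continuous.comp_continuousOn (hD.x.sub hp)
  have h4 := fx2_Ms_cont hD.κ h3
  unfold rP
  simp only [← inner_LT_Pw]
  exact ((((continuousOn_const.inner h1).neg).add (continuousOn_const.inner h2)).add
    (continuousOn_const.inner h4)).add (continuousOn_const.inner hD.σ)

private theorem fx2_Pw_sub (G : Geo Real.pi) (om om' : HP) (v w : l2 (CI Real.pi)) :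
    G.Pw (om - om') v w = G.Pw om v w - G.Pw om' v w := by
  show -(Xz G.ω (prd G.pw (om - om') _) + Xy G.ω (prd G.pw (om - om') _)) =
    -(Xz G.ω (prd G.pw om _) + Xy G.ω (prd G.pw om _)) -
      -(Xz G.ω (prd G.pw om' _) + Xy G.ω (prd G.pw om' _))
  simp only [map_sub, sub_apply]
  abel

private theorem fx2_rV (G : Geo Real.pi) (D : SDt Real.pi) {r : ℝ} (hx : SC.Ms G.ζ (D.x r) = D.x r)
    (p φ : HP) : rX G D r φ - rP G D r p φ = rV G D r (D.x r - p) φ := by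
  have z1 : SC.Ms G.ζ (SC.cm G.a (D.x r)) = SC.cm G.a (D.x r) := by
    rw [Ms_cm G.ζ G.ha.c.s0, hx]
  unfold rV rX rP
  have z2 : bf G.ω (⇑(SC.Ms G.ζ (SC.cm G.a (D.x r - p)))) (hf G.lam (D.ve r)) (hf G.lam (D.we r))
      (⇑(SC.TT G.ω φ)) =
      bf G.ω (⇑(SC.cm G.a (D.x r))) (hf G.lam (D.ve r)) (hf G.lam (D.we r)) (⇑(SC.TT G.ω φ)) -
      bf G.ω (⇑(SC.Ms G.ζ (SC.cm G.a p))) (hf G.lam (D.ve r)) (hf G.lam (D.we r))
        (⇑(SC.TT G.ω φ)) := by
    rw [← inner_LT_Pw, ← inner_LT_Pw, ← inner_LT_Pw, ← inner_sub_right, ← fx2_Pw_sub, map_sub,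
      map_sub, z1]
  rw [z2, map_sub (SC.cm G.a), inner_sub_right]
  ring

namespace FD
variable {D : Set ℂ} (F : FD D) {m : ℕ} {A A' : ℝ → ℝ} {b lam : ℝ} {v₀ : VD D} {v : ℝ → VD D} {mu mu' : ℝ → ℝ}

/-- Existence of the boundary layers (`SolP.exists`, `SolP.real`, `sd_cont`, `sd_real`). -/
theorem exists_p (hb : 0 ≤ b) (hA : ContinuousOn A (Icc 0 b))
    (hU : USys D (F.c0 m) F.β F.d lam A A' b v₀ v mu mu') {p₀ : Fin F.n → HP} (hp : ∀ j, cjX (p₀ j) = p₀ j) :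
    ∃ p : Fin F.n → ℝ → HP, ∀ j, p j 0 = p₀ j ∧ SolP (F.G j) (F.sd m A v j) b (p j 0) (p j) ∧
      ∀ t ∈ Icc 0 b, cjX (p j t) = p j t := by
  have hC : ∀ j, (F.sd m A v j).Cont b := fun j => F.sd_cont j hU.cv hA
  choose p hP using fun j => SolP.exists (F.G j) hb (hC j) (p₀ j)
  refine ⟨p, fun j => ⟨(hP j).init, ?_, ?_⟩⟩
  · rw [(hP j).init]
    exact hP j
  · intro t ht
    exact (Rl_iff _).1 (SolP.real (hC j) (fun s hs => F.sd_real j (hU.rv s hs)) ((Rl_iff _).2 (hp j))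
      (hP j) t ht)

variable {F} {p : Fin F.n → ℝ → HP}

theorem Fst.contA (st : F.Fst m lam A A' b v₀ v mu mu' p) : ContinuousOn A (Icc 0 b) :=
  fun t ht => (st.dA t ht).continuousWithinAt

theorem Fst.EqX (st : F.Fst m lam A A' b v₀ v mu mu' p) (j : Fin F.n) : SC.EqX (F.G j) (F.sd m A v j) b :=
  F.sd_EqX st.m1 j st.contA st.U

theorem Fst.contg (st : F.Fst m lam A A' b v₀ v mu mu' p) (j : Fin F.n) :
    ContinuousOn (F.gg m A v p j) (Icc 0 b) :=
  (F.sd_cont j st.U.cv st.contA).x.sub (st.P j).cont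

theorem Fst.realg (st : F.Fst m lam A A' b v₀ v mu mu' p) (j : Fin F.n) {t : ℝ} (ht : t ∈ Icc 0 b) :
    cjX (F.gg m A v p j t) = F.gg m A v p j t := by
  have h1 : cjX ((F.sd m A v j).x t) = (F.sd m A v j).x t := (F.sd_real j (st.U.rv t ht)).x
  show cjX ((F.sd m A v j).x t - p j t) = (F.sd m A v j).x t - p j t
  rw [map_sub, h1, st.rp j t ht]

/-- **The boundary layers** `V = T g` (`StV.mk'`, `vel`, `trace`). -/
theorem Fst.StV (st : F.Fst m lam A A' b v₀ v mu mu' p) (j : Fin F.n) :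
    ∃ ℓ, SC.StV (F.G j) (F.N m j) (fun t => F.k j * A t) (ctC (4 * F.u) (8 * F.u)) b (F.gg m A v p j)
      (F.hh m A v p j) ℓ := by
  have hN : 1 ≤ F.N m j := Nat.one_le_iff_ne_zero.2
    (Nat.mul_ne_zero (Nat.one_le_iff_ne_zero.1 (F.fl.kpos j)) (Nat.one_le_iff_ne_zero.1 st.m1))
  have key : ∀ t, SC.Ms (ctC (4 * F.u) (8 * F.u)) ((F.sd m A v j).x t - p j t) + F.hh m A v p j t =
      F.ht m j (A t) (v t) := fun t =>
    add_sub_cancel (SC.Ms (ctC (4 * F.u) (8 * F.u)) ((F.sd m A v j).x t - p j t))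
      (F.ht m j (A t) (v t))
  refine SC.StV.mk' (F.G j) hN st.b0 (F.sd_cont j st.U.cv st.contA) (st.EqX j)
    (fun t _ => F.sd_zeta j t) (st.P j)
    (fun t ht => mul_nonneg (Nat.cast_nonneg _) (st.A0 t ht)) (fun t _ => rfl) ?_ ?_ ?_
  · intro t _ n
    have e : hf (F.G j).lam ((F.sd m A v j).ve t) n =
        uV (F.G j).ω (Vf (F.G j).ω (⇑(F.Ga j (v t)))) n := (F.G j).hf_UV _ n
    rw [e]
    exact (F.vel st.m1 j (A t) (v t) (SC.Ms (ctC (4 * F.u) (8 * F.u)) (F.gg m A v p j t)) n).1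
  · intro t _ n
    have e : hf (F.G j).lam ((F.sd m A v j).we t) n =
        wV (F.G j).ω (Vf (F.G j).ω (⇑(F.Ga j (v t)))) n := (F.G j).hf_UW _ n
    rw [e]
    exact (F.vel st.m1 j (A t) (v t) (SC.Ms (ctC (4 * F.u) (8 * F.u)) (F.gg m A v p j t)) n).2
  · intro t _ n
    rw [key t]
    exact F.trace st.m1 j (A t) (v t) n

/-- The equation of `V = T g` tested with `T φ`, `P φ = φ` (`EqX` minus `SolP.eq`, as in the proof of `SolP.V`:
`rX φ - rP p φ = rV g φ`). -/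
theorem Fst.V_eq (st : F.Fst m lam A A' b v₀ v mu mu' p) (j : Fin F.n) {φ : HP} (hφ : SC.PP (F.G j).ω φ = φ)
    {s t : ℝ} (hs : 0 ≤ s) (hst : s ≤ t) (ht : t ≤ b) :
    ⟪SC.TT (F.G j).ω φ, SC.TT (F.G j).ω (F.gg m A v p j t)⟫_ℂ -
      ⟪SC.TT (F.G j).ω φ, SC.TT (F.G j).ω (F.gg m A v p j s)⟫_ℂ =
      ∫ r in s..t, rV (F.G j) (F.sd m A v j) r (F.gg m A v p j r) φ := by
  have hD := F.sd_cont (m := m) j st.U.cv st.contA
  have hp := st.P j
  have hsub : uIcc s t ⊆ Icc 0 b := by rw [uIcc_of_le hst]; exact Icc_subset_Icc hs ht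
  have iX : IntervalIntegrable (fun r => rX (F.G j) (F.sd m A v j) r φ) volume s t :=
    ((fx2_rX_cont (F.G j) hD φ).mono hsub).intervalIntegrable
  have iP : IntervalIntegrable (fun r => rP (F.G j) (F.sd m A v j) r (p j r) φ) volume s t :=
    ((fx2_rP_cont (F.G j) hD hp.cont φ).mono hsub).intervalIntegrable
  have e2 := st.EqX j φ hφ s t hs hst ht
  have e3 := hp.eq φ s t hs hst ht
  have e4 : ∫ r in s..t, rV (F.G j) (F.sd m A v j) r (F.gg m A v p j r) φ =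
      ∫ r in s..t, (rX (F.G j) (F.sd m A v j) r φ - rP (F.G j) (F.sd m A v j) r (p j r) φ) :=
    intervalIntegral.integral_congr fun r _ =>
      (fx2_rV (F.G j) (F.sd m A v j) (F.sd_zeta j r) (p j r) φ).symm
  rw [e4, intervalIntegral.integral_sub iX iP, ← e2, ← e3]
  show ⟪SC.TT (F.G j).ω φ, SC.TT (F.G j).ω ((F.sd m A v j).x t - p j t)⟫_ℂ -
      ⟪SC.TT (F.G j).ω φ, SC.TT (F.G j).ω ((F.sd m A v j).x s - p j s)⟫_ℂ = _
  rw [map_sub, map_sub, inner_sub_right, inner_sub_right]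
  ring

end FD

end Pool.Agent.Lib.MP_79abb3_an.PD
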