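import Pool.Agent.Lib.MP_79abb3_an.PD.StDef

/-!
MP_79abb3_an, Theorem D, block F, strip module: static estimates with the cut-off `η`.
-/

set_option autoImplicit false
set_option linter.unusedSectionVars false

open MeasureTheory Set Filter Topology Function
open scoped ENNReal InnerProductSpace

namespace Pool.Agent.Lib.MP_79abb3_an.SC

open Pool.Agent.Lib.MP_79abb3_an.P25 Pool.Agent.Lib.MP_79abb3_an.FW

section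
variable {H : ℝ} [hH : Fact (0 < H)]

private theorem stca_TT (G : Geo H) (g : HH H) : ‖TT G.ω g‖ ≤ ‖LT G.ω G.lam (3 / 8) g‖ := by
  have h := G.lamOK
  refine (sq_le_sq₀ (norm_nonneg _) (norm_nonneg _)).1 ?_
  rw [l2_norm_sq, l2_norm_sq]
  refine (l2_summable _).tsum_le_tsum (fun n => ?_) (l2_summable _)
  rw [h.LT_apply (by norm_num), norm_smul, Complex.norm_real,
    Real.norm_of_nonneg (Real.rpow_nonneg (by linarith [h.one n]) _), TT_apply, mul_pow]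
  have h1 : 1 ≤ G.lam n ^ (3 / 8 : ℝ) := Real.one_le_rpow (h.one n) (by norm_num)
  exact le_mul_of_one_le_left (sq_nonneg _) (one_le_pow₀ h1)

/-- `T (η g) = η T g + T (η' T g)` (`TT_Bm` with `Bm ω η η1 g = Ms η g - Ms η1 (TT g)`), and
`|Λ^{3/8} (η V)| ≤ ‖η‖ |Λ^{3/8} V|` (mode by mode, `LamOK.LT_apply`, `Ms_apply`), `|Λ^{3/8} T y| ≤ C |y|`
(`LamOK.norm_LT_le`), `|V| ≤ |Λ^{3/8} V|` (`flap_TT` in FlAp, private: repeat). -/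
theorem LT_eta (G : Geo H) {η η1 η2 : CI H} (hη : CutOK G η η1 η2) : ∃ C, 0 ≤ C ∧ ∀ g : HH H,
    ‖LT G.ω G.lam (3 / 8) (Ms η g)‖ ≤ C * ‖LT G.ω G.lam (3 / 8) g‖ := by
  have h := G.lamOK
  have h38 : (3 / 8 : ℝ) ≤ 1 := by norm_num
  have hω := G.ω_pos
  have hH0 := hH.out
  have hN : (0:ℝ) ≤ G.N₀ := le_trans zero_le_one G.hN
  have hK : 0 ≤ (G.N₀ + G.ω) * (H + G.ω⁻¹) :=
    mul_nonneg (by linarith) (add_nonneg hH0.le (inv_nonneg.2 hω.le))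
  refine ⟨‖η‖ + (G.N₀ + G.ω) * (H + G.ω⁻¹) * ‖η1‖,
    add_nonneg (norm_nonneg _) (mul_nonneg hK (norm_nonneg _)), fun g => ?_⟩
  have e1 : TT G.ω (Ms η g) = Ms η (TT G.ω g) + TT G.ω (Ms η1 (TT G.ω g)) := by
    have h1 := TT_Bm G.ω hη.d1 g
    have h2 : Bm G.ω η η1 g = Ms η g - Ms η1 (TT G.ω g) := rfl
    rw [h2, map_sub] at h1
    rw [← h1]
    abel
  have e2 : LT G.ω G.lam (3 / 8) (Ms η g) = Ms η (LT G.ω G.lam (3 / 8) g) +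
      LT G.ω G.lam (3 / 8) (Ms η1 (TT G.ω g)) := by
    refine lp.ext (funext fun n => ?_)
    have e3 : TT G.ω (Ms η g) n = Ms η (TT G.ω g) n + TT G.ω (Ms η1 (TT G.ω g)) n := by
      rw [e1]; rfl
    rw [TT_apply, TT_apply] at e3
    rw [lp.coeFn_add, Pi.add_apply, h.LT_apply h38, h.LT_apply h38, e3, smul_add]
    congr 1
    rw [Ms_apply, Ms_apply, h.LT_apply h38, map_smul, TT_apply]
  rw [e2]
  refine (norm_add_le _ _).trans ?_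
  have a1 : ‖Ms η (LT G.ω G.lam (3 / 8) g)‖ ≤ ‖η‖ * ‖LT G.ω G.lam (3 / 8) g‖ := norm_Ms_apply_le _ _
  have a2 : ‖LT G.ω G.lam (3 / 8) (Ms η1 (TT G.ω g))‖ ≤
      (G.N₀ + G.ω) * (H + G.ω⁻¹) * ‖Ms η1 (TT G.ω g)‖ :=
    (LT G.ω G.lam (3 / 8)).le_of_opNorm_le (h.norm_LT_le h38) _
  have a3 : ‖Ms η1 (TT G.ω g)‖ ≤ ‖η1‖ * ‖LT G.ω G.lam (3 / 8) g‖ :=
    (norm_Ms_apply_le _ _).trans (mul_le_mul_of_nonneg_left (stca_TT G g) (norm_nonneg _))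
  calc ‖Ms η (LT G.ω G.lam (3 / 8) g)‖ + ‖LT G.ω G.lam (3 / 8) (Ms η1 (TT G.ω g))‖
      ≤ ‖η‖ * ‖LT G.ω G.lam (3 / 8) g‖ +
        (G.N₀ + G.ω) * (H + G.ω⁻¹) * (‖η1‖ * ‖LT G.ω G.lam (3 / 8) g‖) :=
        add_le_add a1 (a2.trans (mul_le_mul_of_nonneg_left a3 hK))
    _ = _ := by ring

/-- **The `V V`-term.** `b(ζ a g, u[T(ηg)]; f) = (sym) - b(ζ a η g, u[T g]; f)` and `ζ a η g = η a g`.
The first term: `sym_bd G` with `g' = Ms η g`, and `LT_eta`. The second: `vv_bd G'` for the geometry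
`G' = { G with ζ := η, ζ1 := η1, ζ2 := η2, ρ := r, .. }` (`G'.ω = G.ω`, `G'.lam = G.lam`, `G'.a = G.a`
definitionally; the `TFn G` of the test function is a `TFn G'`, rebuild the structure). -/
theorem vve_bd (G : Geo H) {η η1 η2 : CI H} (hη : CutOK G η η1 η2) :
    ∃ C, 0 ≤ C ∧ ∀ {τ n0 : ℝ} (_ : 0 < τ) (_ : τ ≤ 1) {f f1 : ℤ → CI H}
    {f2 : ℤ → Z2 H} (_ : TFn G τ n0 f f1 f2) (g : HH H),
    ‖bf G.ω (⇑(Ms G.ζ (cm G.a g))) (uV G.ω (Vf G.ω (Ms η g))) (wV G.ω (Vf G.ω (Ms η g))) (io f)‖ ≤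
      C * n0 * τ ^ (-(15 / 16) : ℝ) * ‖LT G.ω G.lam (3 / 8) g‖ ^ 2 := by
  obtain ⟨C1, hC1, h1⟩ := sym_bd G
  obtain ⟨C2, hC2, h2⟩ := LT_eta G hη
  obtain ⟨r, r0, rH, r1⟩ := hη.one
  obtain ⟨C3, hC3, h3⟩ := vv_bd { G with
    ζ := η, ζ1 := η1, ζ2 := η2, ρ := r, ζ_d := hη.d1, ζ1_d := hη.d2, ζ_real := hη.re,
    ρ0 := r0, ρH := rH, ζ_one := r1, ζ_zero := hη.zero }
  refine ⟨C1 * C2 + C3, add_nonneg (mul_nonneg hC1 hC2) hC3, ?_⟩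
  intro τ n0 hτ hτ1 f f1 f2 hf g
  have b1 := h1 hτ hτ1 hf g (Ms η g)
  have hf' : TFn { G with
    ζ := η, ζ1 := η1, ζ2 := η2, ρ := r, ζ_d := hη.d1, ζ1_d := hη.d2, ζ_real := hη.re,
    ρ0 := r0, ρH := rH, ζ_one := r1, ζ_zero := hη.zero } τ n0 f f1 f2 :=
    ⟨hf.nn, hf.d1, hf.d2, hf.z0, hf.zH, hf.s0, hf.s1, hf.s2, hf.b00, hf.b01, hf.b02, hf.b10,
      hf.b11, hf.b20⟩
  have b2 := h3 hτ hτ1 hf' g
  have e : Ms G.ζ (cm G.a (Ms η g)) = Ms η (cm G.a g) := by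
    rw [← MsCm G.ha.c.s0 η g, Ms_Ms, hη.sup]
  rw [e] at b1
  have b3 : ‖bf G.ω (⇑(Ms η (cm G.a g))) (uV G.ω (Vf G.ω g)) (wV G.ω (Vf G.ω g)) (io f)‖ ≤
      C3 * n0 * τ ^ (-(15 / 16) : ℝ) * ‖LT G.ω G.lam (3 / 8) g‖ ^ 2 := b2
  have hn := hf.nn
  have hT : 0 ≤ τ ^ (-(15 / 16) : ℝ) := Real.rpow_nonneg hτ.le _
  have b4 : C1 * n0 * τ ^ (-(15 / 16) : ℝ) *
      (‖LT G.ω G.lam (3 / 8) g‖ * ‖LT G.ω G.lam (3 / 8) (Ms η g)‖) ≤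
      C1 * n0 * τ ^ (-(15 / 16) : ℝ) *
      (‖LT G.ω G.lam (3 / 8) g‖ * (C2 * ‖LT G.ω G.lam (3 / 8) g‖)) :=
    mul_le_mul_of_nonneg_left (mul_le_mul_of_nonneg_left (h2 g) (norm_nonneg _))
      (mul_nonneg (mul_nonneg hC1 hn) hT)
  have b5 : ∀ s b : ℂ, ‖s‖ ≤ ‖s + b‖ + ‖b‖ := fun s b => by
    have := norm_sub_le (s + b) b
    rwa [add_sub_cancel_right] at this
  refine (b5 _ (bf G.ω (⇑(Ms η (cm G.a g))) (uV G.ω (Vf G.ω g)) (wV G.ω (Vf G.ω g)) (io f))).trans ?_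
  refine (add_le_add (b1.trans b4) b3).trans (le_of_eq ?_)
  ring

end

end Pool.Agent.Lib.MP_79abb3_an.SC
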