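import Pool.Agent.Lib.MP_79abb3_an.PD.FbU
import Pool.Agent.Lib.MP_79abb3_an.PD.FbU1
import Pool.Agent.Lib.MP_79abb3_an.PD.FbF
import Pool.Agent.Lib.MP_79abb3_an.PD.FeX2
import Pool.Agent.Lib.MP_79abb3_an.PD.StCa

/-!
Theorem D, block F, bounds (6.5), (6.6) for the total flow.
-/

set_option autoImplicit false
set_option linter.unusedSectionVars false

open MeasureTheory Set Filter Topology Function
open scoped ENNReal InnerProductSpace ComplexConjugate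

namespace Pool.Agent.Lib.MP_79abb3_an.PD

open Pool.Agent.Lib.MP_79abb3_an.SC Pool.Agent.Lib.MP_79abb3_an.P25

private theorem fbu2_dY {H : ℝ} {θ : ℝ × ℝ → ℂ} (h : PC H θ) (c : ℂ) (e : ℝ × ℝ) :
    (fun q => fderiv ℝ (fun q => c * θ q) q e) = fun q => c * fderiv ℝ θ q e := by
  funext q
  rw [fderiv_const_mul (h.smooth.differentiable (by simp) q)]
  rfl

private theorem fbu2_dL {H : ℝ} [hH : Fact (0 < H)] {θ : ℝ × ℝ → ℂ} (h : PC H θ) (c : ℂ) :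
    dLc (fun q => c * θ q) = fun q => c * dLc θ q := by
  have h1 : dYc (fun q => c * θ q) = fun q => c * dYc θ q := fbu2_dY h c (1, 0)
  have h2 : dZc (fun q => c * θ q) = fun q => c * dZc θ q := fbu2_dY h c (0, 1)
  have h3 : dYc (fun q => c * dYc θ q) = fun q => c * dYc (dYc θ) q := fbu2_dY h.yy c (1, 0)
  have h4 : dZc (fun q => c * dZc θ q) = fun q => c * dZc (dZc θ) q := fbu2_dY h.zz c (0, 1)
  funext q
  unfold dLc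
  rw [h1, h2, h3, h4]
  ring

private theorem fbu2_gaf {D : Set ℂ} (F : FD D) {m : ℕ} (hm : 1 ≤ m) (j : Fin F.n) : PC Real.pi (F.gaf m j) := by
  have h1 := (PY.of_z Real.pi (ctf_smooth (13 * F.u) (14 * F.u)))
  have h2 := PC.mulR h1 (F.P0_str hm j).pc
  have e : F.gaf m j = fun q : ℝ × ℝ => ((ctf (13 * F.u) (14 * F.u) q.2 : ℝ) : ℂ) * ((F.cs m j q : ℝ) : ℂ) := by
    funext q
    unfold FD.gaf
    push_cast
    rfl
  rw [e]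
  exact h2

private theorem fbu2_sqrt {a b c : ℝ} (ha : 0 ≤ a) (hb : 0 ≤ b) (hc : 0 ≤ c) (h : a ≤ c * b) :
    a * b ≤ √c * √(a * b ^ 3) := by
  rw [← Real.sqrt_mul hc]
  refine Real.le_sqrt_of_sq_le ?_
  have h1 : a * (a * b ^ 2) ≤ (c * b) * (a * b ^ 2) := mul_le_mul_of_nonneg_right h (by positivity)
  calc (a * b) ^ 2 = a * (a * b ^ 2) := by ring
    _ ≤ (c * b) * (a * b ^ 2) := h1
    _ = c * (a * b ^ 3) := by ring

namespace FD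
variable {D : Set ℂ} (F : FD D)

/-- `h^tot` as in `total_prod`: `fHc (dLc (ζ⁺ (a cs))) = a γ`. -/
theorem ht_eq (m : ℕ) (hm : 1 ≤ m) (j : Fin F.n) (a : ℝ) (v : VD D) :
    F.Ga j v - fHc (dLc fun q => ((ctf (13 * F.u) (14 * F.u) q.2 : ℝ) : ℂ) * ((a : ℂ) * ((F.cs m j q : ℝ) : ℂ))) =
      F.ht m j a v := by
  have h1 := fbu2_gaf F hm j
  have h2 : (fun q : ℝ × ℝ => ((ctf (13 * F.u) (14 * F.u) q.2 : ℝ) : ℂ) * ((a : ℂ) * ((F.cs m j q : ℝ) : ℂ))) =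
      fun q => (a : ℂ) * F.gaf m j q := by
    funext q
    unfold FD.gaf
    push_cast
    ring
  rw [h2, fbu2_dL h1, fHc_smul _ h1.ll]
  rfl

/-- `|Λ^{3/8} T h^tot| ≤ C (|Λ^{3/8} T g| + |h|)`: `h^tot = h + η g`, `LT_eta` (`cutOK`), `LamOK.norm_LT_le`. -/
theorem ht_le : ∃ C : ℝ, 0 ≤ C ∧ ∀ {m : ℕ} {A : ℝ → ℝ} {v : ℝ → VD D} {p : Fin F.n → ℝ → HP} (j : Fin F.n) (t : ℝ),
    ‖LT (F.G j).ω (F.G j).lam (3 / 8) (F.ht m j (A t) (v t))‖ ≤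
      C * (‖LT (F.G j).ω (F.G j).lam (3 / 8) (F.gg m A v p j t)‖ + ‖F.hh m A v p j t‖) := by
  have hC := fun j : Fin F.n => LT_eta (F.G j) (F.cutOK j)
  choose C hC0 hC using hC
  have hs : 0 ≤ ∑ j, C j := Finset.sum_nonneg fun j _ => hC0 j
  obtain ⟨L, hL⟩ : ∃ L : Fin F.n → (HP →L[ℂ] HP), L = fun j => LT (F.G j).ω (F.G j).lam (3 / 8) := ⟨_, rfl⟩
  have hs2 : 0 ≤ ∑ j, ‖L j‖ := Finset.sum_nonneg fun j _ => ContinuousLinearMap.opNorm_nonneg _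
  refine ⟨∑ j, C j + ∑ j, ‖L j‖, add_nonneg hs hs2, fun {m A v p} j t => ?_⟩
  have h1 : F.ht m j (A t) (v t) = F.hh m A v p j t + Ms (ctC (4 * F.u) (8 * F.u)) (F.gg m A v p j t) := by
    unfold FD.hh
    abel
  have h2 : C j ≤ ∑ j, C j := Finset.single_le_sum (f := C) (fun i _ => hC0 i) (Finset.mem_univ j)
  have h3 : ‖L j‖ ≤ ∑ j, ‖L j‖ :=
    Finset.single_le_sum (f := fun j => ‖L j‖) (fun i _ => ContinuousLinearMap.opNorm_nonneg _)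
      (Finset.mem_univ j)
  have h4 : ‖LT (F.G j).ω (F.G j).lam (3 / 8) (F.hh m A v p j t)‖ ≤ ‖L j‖ * ‖F.hh m A v p j t‖ := by
    rw [hL]
    exact ContinuousLinearMap.le_opNorm _ _
  have h5 := hC j (F.gg m A v p j t)
  rw [h1, map_add]
  refine (norm_add_le _ _).trans ?_
  have h6 : 0 ≤ ‖LT (F.G j).ω (F.G j).lam (3 / 8) (F.gg m A v p j t)‖ := norm_nonneg _
  have h7 : 0 ≤ ‖F.hh m A v p j t‖ := norm_nonneg _
  have h8 := mul_le_mul_of_nonneg_right h2 h6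
  have h9 := mul_le_mul_of_nonneg_right h3 h7
  have h10 := mul_nonneg hs h7
  have h11 := mul_nonneg hs2 h6
  rw [mul_add, add_mul, add_mul]
  linarith

/-- `mm χ (v - a c₀) = mm χ o + mu mm χ β` for `χ = 0` on the collars `Wc (8u)` (`mm_Be`, `cuI_P0`). -/
theorem chi_curl {χ : ℂ → ℂ} (hb : Bm χ 1) (h0 : ∀ j, ∀ x ∈ Wc (F.X j) (8 * F.u), χ x = 0) {m : ℕ} (hm : 1 ≤ m)
    {A : ℝ → ℝ} {v : ℝ → VD D} {mu : ℝ → ℝ} {p : Fin F.n → ℝ → HP} (t : ℝ) :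
    ‖mm χ ((v t : L2c) - (A t : ℂ) • cuI D (F.P0 m))‖ ≤ ‖F.ov m A v mu p t‖ + |mu t| * ‖cl2 F.β‖ := by
  have h1 : mm χ (∑ j, (2 * Real.pi : ℂ) • ContinuousLinearMap.adjoint (F.Be j)
      (SC.cm (F.G j).a (F.gg m A v p j t))) = 0 := by
    rw [map_sum]
    refine Finset.sum_eq_zero fun j _ => ?_
    rw [map_smul, F.mm_Be hb j (h0 j), smul_zero]
  have hov : mm χ (F.ov m A v mu p t) = mm χ (vt (F.c0 m) F.β A v mu t) := by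
    show mm χ (vt (F.c0 m) F.β A v mu t - ∑ j, (2 * Real.pi : ℂ) • ContinuousLinearMap.adjoint (F.Be j)
      (SC.cm (F.G j).a (F.gg m A v p j t))) = _
    rw [map_sub, h1, sub_zero]
  have h2 : mm χ ((v t : L2c) - (A t : ℂ) • cuI D (F.P0 m)) =
      mm χ (F.ov m A v mu p t) + (mu t : ℂ) • mm χ (cl2 F.β) := by
    rw [hov, F.cuI_P0 hm, ← map_smul, ← map_add]
    unfold vt
    congr 1
    abel
  rw [h2]
  have h3 : ∀ f : L2c, ‖mm χ f‖ ≤ ‖f‖ := fun f => by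
    have := (mm χ).le_of_opNorm_le (mm_norm hb) f
    rwa [one_mul] at this
  refine (norm_add_le _ _).trans (add_le_add (h3 _) ?_)
  rw [norm_smul, Complex.norm_real, Real.norm_eq_abs]
  exact mul_le_mul_of_nonneg_left (h3 _) (abs_nonneg _)

/-- **The transport term.** `total_prod` with `Ψ = a χ ψ_m` (`P0_bg`, `IsBgF.cmul`, `P0_str`), `gpI_cmul`, `cuI_cmul`, `ht_eq`, `ht_le`,
`chi_curl`, `‖js q‖ ≤ C ‖q‖`: `‖js q‖ ‖q‖ ≤ C √(‖js q‖ ‖q‖³)`. -/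
theorem prod_le : ∃ C : ℝ, 0 ≤ C ∧ ∀ {m : ℕ} (_ : 1 ≤ m) {A : ℝ → ℝ} {v : ℝ → VD D} {mu : ℝ → ℝ}
    {p : Fin F.n → ℝ → HP} (t : ℝ) (q : SV D),
    prI D (F.wp m (A t) (v t)) ((js D q : XS D) : L2c) ≤
      C * (‖F.wp m (A t) (v t)‖ ^ 2 + ‖F.ov m A v mu p t‖ ^ 2 + |mu t| ^ 2 +
        ∑ j, (‖LT (F.G j).ω (F.G j).lam (3 / 8) (F.gg m A v p j t)‖ ^ 2 + ‖F.hh m A v p j t‖ ^ 2)) *
        √(‖js D q‖ * ‖q‖ ^ 3) := by
  have hO := F.hD.op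
  have hbd : Bornology.IsBounded D := F.hD.bdd
  have hu := F.u0
  obtain ⟨χ, hχ, hsup, hχ1, hcov, hχ0⟩ := F.exists_chi0
  have hbm : Bm χ 1 := ⟨hχ.smo.continuous.aestronglyMeasurable, hχ1⟩
  obtain ⟨C0, hC0, hT⟩ := total_prod (H := fun _ : Fin F.n => Real.pi) (c := fun _ => 16 * F.u)
    (e := fun _ => 13 * F.u) (e' := fun _ => 14 * F.u) (X := F.X) (Γ := F.Ga) hO hbd F.hX
    (fun _ => by linarith) (fun _ => by linarith) (fun _ => by linarith) F.G F.hGa hχ hsup hcov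
  obtain ⟨C1, hC1, hH⟩ := F.ht_le
  set N : ℝ := ‖js D‖ with hN
  have hN0 : 0 ≤ N := ContinuousLinearMap.opNorm_nonneg _
  set b0 : ℝ := ‖cl2 F.β‖ with hb0
  have hb00 : 0 ≤ b0 := norm_nonneg _
  refine ⟨C0 * ((3 + b0) * √N + 2 * C1 ^ 2), by positivity, fun {m} hm {A v mu p} t q => ?_⟩
  obtain ⟨B, hB, hbg⟩ := F.P0_bg hm
  have hbg2 := hbg.cmul hO (A t : ℂ)
  have hst : ∀ j, StrBg Real.pi (13 * F.u) (F.X j) (fun x => (A t : ℂ) * F.P0 m x)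
      (fun q => (A t : ℂ) * ((F.cs m j q : ℝ) : ℂ)) := by
    intro j
    have h1 := F.P0_str hm j
    refine ⟨h1.pc.cmul _, fun y => ?_, fun q h0 h2 => ?_⟩
    · have := h1.z0 y
      show (A t : ℂ) * ((F.cs m j (y, 0) : ℝ) : ℂ) = 0
      rw [show ((F.cs m j (y, 0) : ℝ) : ℂ) = 0 from this, mul_zero]
    · show (A t : ℂ) * F.P0 m (F.X j q) = (A t : ℂ) * ((F.cs m j q : ℝ) : ℂ)
      rw [h1.eq q h0 h2]
  have h1 := hT hbg2 hst (v t) q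
  rw [gpI_cmul hbg hO hbd, cuI_cmul hbg hO hbd] at h1
  have h2 := F.chi_curl hbm hχ0 hm (A := A) (v := v) (mu := mu) (p := p) t
  have h3 : ∀ j, ‖LT (F.G j).ω (F.G j).lam (3 / 8) (F.Ga j (v t) - fHc (dLc fun q : ℝ × ℝ =>
      ((ctf (13 * F.u) (14 * F.u) q.2 : ℝ) : ℂ) * ((A t : ℂ) * ((F.cs m j q : ℝ) : ℂ))))‖ ^ 2 ≤
      2 * C1 ^ 2 * (‖LT (F.G j).ω (F.G j).lam (3 / 8) (F.gg m A v p j t)‖ ^ 2 + ‖F.hh m A v p j t‖ ^ 2) := by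
    intro j
    rw [F.ht_eq m hm j (A t) (v t)]
    have h4 := hH (m := m) (A := A) (v := v) (p := p) j t
    set x : ℝ := ‖LT (F.G j).ω (F.G j).lam (3 / 8) (F.gg m A v p j t)‖
    set y : ℝ := ‖F.hh m A v p j t‖
    have h5 := pow_le_pow_left₀ (norm_nonneg _) h4 2
    have h6 : 0 ≤ C1 ^ 2 * (x - y) ^ 2 := by positivity
    calc _ ≤ (C1 * (x + y)) ^ 2 := h5
      _ ≤ 2 * C1 ^ 2 * (x ^ 2 + y ^ 2) := by nlinarith
  have h4 : ‖js D q‖ * ‖q‖ ≤ √N * √(‖js D q‖ * ‖q‖ ^ 3) :=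
    fbu2_sqrt (norm_nonneg _) (norm_nonneg _) hN0 ((js D).le_opNorm q)
  set W : ℝ := ‖F.wp m (A t) (v t)‖ with hW
  set O : ℝ := ‖F.ov m A v mu p t‖ with hOv
  set R : ℝ := √(‖js D q‖ * ‖q‖ ^ 3) with hR
  set S : ℝ := ∑ j, (‖LT (F.G j).ω (F.G j).lam (3 / 8) (F.gg m A v p j t)‖ ^ 2 + ‖F.hh m A v p j t‖ ^ 2) with hS
  have hW0 : 0 ≤ W := norm_nonneg _
  have hO0 : 0 ≤ O := norm_nonneg _
  have hR0 : 0 ≤ R := Real.sqrt_nonneg _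
  have hS0 : 0 ≤ S := Finset.sum_nonneg fun j _ => by positivity
  have hM0 : 0 ≤ |mu t| := abs_nonneg _
  refine h1.trans ?_
  have h5 : ∑ j, ‖LT (F.G j).ω (F.G j).lam (3 / 8) (F.Ga j (v t) - fHc (dLc fun q : ℝ × ℝ =>
      ((ctf (13 * F.u) (14 * F.u) q.2 : ℝ) : ℂ) * ((A t : ℂ) * ((F.cs m j q : ℝ) : ℂ))))‖ ^ 2 ≤
      2 * C1 ^ 2 * S := by
    rw [hS, Finset.mul_sum]
    exact Finset.sum_le_sum fun j _ => h3 j
  have h6 : W * (W + ‖mm χ ((v t : L2c) - (A t : ℂ) • cuI D (F.P0 m))‖) ≤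
      (3 + b0) * (W ^ 2 + O ^ 2 + |mu t| ^ 2) := by
    have h7 : W * (W + ‖mm χ ((v t : L2c) - (A t : ℂ) • cuI D (F.P0 m))‖) ≤ W * (W + (O + |mu t| * b0)) :=
      mul_le_mul_of_nonneg_left (by linarith) hW0
    refine h7.trans ?_
    have h8 : 0 ≤ b0 * (W - |mu t|) ^ 2 := by positivity
    have h9 : 0 ≤ (W - O) ^ 2 := by positivity
    have h10 : 0 ≤ b0 * O ^ 2 := by positivity
    have h11 : 0 ≤ b0 * (W ^ 2 + |mu t| ^ 2) := by positivity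
    nlinarith [sq_nonneg W, sq_nonneg O, sq_nonneg |mu t|]
  have h12 : 0 ≤ W ^ 2 + O ^ 2 + |mu t| ^ 2 := by positivity
  have h13 : (W * (W + ‖mm χ ((v t : L2c) - (A t : ℂ) • cuI D (F.P0 m))‖)) * (‖js D q‖ * ‖q‖) ≤
      ((3 + b0) * (W ^ 2 + O ^ 2 + |mu t| ^ 2)) * (√N * R) :=
    mul_le_mul h6 h4 (by positivity) (by positivity)
  have h14 := mul_le_mul_of_nonneg_right h5 hR0
  have h15 : 0 ≤ (3 + b0) * √N * (S * R) := by positivity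
  have h16 : 0 ≤ 2 * C1 ^ 2 * ((W ^ 2 + O ^ 2 + |mu t| ^ 2) * R) := by positivity
  calc _ ≤ C0 * (((3 + b0) * (W ^ 2 + O ^ 2 + |mu t| ^ 2)) * (√N * R) + 2 * C1 ^ 2 * S * R) :=
        mul_le_mul_of_nonneg_left (add_le_add h13 h14) hC0
    _ ≤ C0 * (((3 + b0) * √N + 2 * C1 ^ 2) * (W ^ 2 + O ^ 2 + |mu t| ^ 2 + S) * R) := by
        refine mul_le_mul_of_nonneg_left ?_ hC0
        nlinarith
    _ = _ := by ring

end FD

end Pool.Agent.Lib.MP_79abb3_an.PD
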