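import Pool.Agent.Lib.MP_79abb3_an.PD.FbG
import Pool.Agent.Lib.MP_79abb3_an.PD.FbG2
import Pool.Agent.Lib.MP_79abb3_an.PD.FeX2

/-!
Theorem D, block F, bounds (7.1): the sources of the outer vorticity.
-/

set_option autoImplicit false
set_option linter.unusedSectionVars false

open MeasureTheory Set Filter Topology Function
open scoped ENNReal InnerProductSpace ComplexConjugate

namespace Pool.Agent.Lib.MP_79abb3_an.PD

open Pool.Agent.Lib.MP_79abb3_an.SC Pool.Agent.Lib.MP_79abb3_an.P25 Pool.Agent.Lib.MP_79abb3_an.FW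

private theorem fbv_zero_of_Ioi {g : ℝ → ℝ} (hg : Continuous g) {b : ℝ} (h : ∀ z, b < z → g z = 0) {z : ℝ}
    (hz : b ≤ z) : g z = 0 := by
  have h1 : closure (Ioi b) ⊆ {z | g z = 0} :=
    closure_minimal (fun z hz => h z hz) (isClosed_eq hg continuous_const)
  rw [closure_Ioi] at h1
  exact h1 hz

private theorem fbv_zero_of_Iio {g : ℝ → ℝ} (hg : Continuous g) {a : ℝ} (h : ∀ z, z < a → g z = 0) {z : ℝ}
    (hz : z ≤ a) : g z = 0 := by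
  have h1 : closure (Iio a) ⊆ {z | g z = 0} :=
    closure_minimal (fun z hz => h z hz) (isClosed_eq hg continuous_const)
  rw [closure_Iio] at h1
  exact h1 hz

private theorem fbv_d1_hi {a b : ℝ} (hab : a < b) {z : ℝ} (hz : b ≤ z) : deriv (ctf a b) z = 0 := by
  refine fbv_zero_of_Ioi ((ctf_smooth a b).continuous_deriv (by simp)) (fun z hz => ?_) hz
  have h0 : ctf a b =ᶠ[𝓝 z] fun _ => (0:ℝ) := by
    filter_upwards [Ioi_mem_nhds hz] with x hx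
    exact ctf_zero hab (le_of_lt hx)
  rw [h0.deriv_eq, deriv_const]

private theorem fbv_d1_lo {a b : ℝ} (hab : a < b) {z : ℝ} (hz : z ≤ a) : deriv (ctf a b) z = 0 := by
  refine fbv_zero_of_Iio ((ctf_smooth a b).continuous_deriv (by simp)) (fun z hz => ?_) hz
  have h0 : ctf a b =ᶠ[𝓝 z] fun _ => (1:ℝ) := by
    filter_upwards [Iio_mem_nhds hz] with x hx
    exact ctf_one hab (le_of_lt hx)
  rw [h0.deriv_eq, deriv_const]

private theorem fbv_d2_lo {a b : ℝ} (hab : a < b) {z : ℝ} (hz : z ≤ a) : deriv (deriv (ctf a b)) z = 0 := by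
  refine fbv_zero_of_Iio ((ctf_smooth1 a b).continuous_deriv (by simp)) (fun z hz => ?_) hz
  have h0 : deriv (ctf a b) =ᶠ[𝓝 z] fun _ => (0:ℝ) := by
    filter_upwards [Iio_mem_nhds hz] with x hx
    exact fbv_d1_lo hab (le_of_lt hx)
  rw [h0.deriv_eq, deriv_const]

private theorem fbv_ex1_hi {a b : ℝ} (hab : a < b) : ∀ z ∈ Icc (0:ℝ) Real.pi, b ≤ z → ex (ctC1 a b) z = 0 := by
  intro z hz h
  unfold ctC1
  rw [Pool.Agent.Lib.MP_79abb3_an.FW.ex_rc _ _ hz, fbv_d1_hi hab h, Complex.ofReal_zero]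

private theorem fbv_ex1_lo {a b : ℝ} (hab : a < b) : ∀ z ∈ Icc (0:ℝ) Real.pi, z ≤ a → ex (ctC1 a b) z = 0 := by
  intro z hz h
  unfold ctC1
  rw [Pool.Agent.Lib.MP_79abb3_an.FW.ex_rc _ _ hz, fbv_d1_lo hab h, Complex.ofReal_zero]

private theorem fbv_ex2_lo {a b : ℝ} (hab : a < b) : ∀ z ∈ Icc (0:ℝ) Real.pi, z ≤ a → ex (ctC2 a b) z = 0 := by
  intro z hz h
  unfold ctC2
  rw [Pool.Agent.Lib.MP_79abb3_an.FW.ex_rc _ _ hz, fbv_d2_lo hab h, Complex.ofReal_zero]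

private theorem fbv_wV0 (ω : ℝ) (n : ℤ) : wV ω (Vf ω (⇑(0 : HP))) n = 0 := by
  unfold wV Vf
  rw [lp.coeFn_zero, Pi.zero_apply, map_zero, map_zero, map_zero]
  refine ci_ext fun z _ => ?_
  simp only [ex_smul, ex_zero, mul_zero]

private theorem fbv_alg {a b c d e A B K1 K2 q : ℝ} (ha : 0 ≤ a) (hb : 0 ≤ b) (hc : 0 ≤ c) (hd : 0 ≤ d)
    (he : 0 ≤ e) (hA : 0 ≤ A) (hB : 0 ≤ B) (hK : 0 ≤ K1) (hK2 : 0 ≤ K2) (hq : 0 ≤ q) :
    A * q * a + K1 * (B * q) * (b + c + d * e) ≤ (A + K1 * B + K2) * q * (a + b + c + d * e) := by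
  have h1 : 0 ≤ (K1 * B + K2) * q * a := by positivity
  have h2 : 0 ≤ (A + K2) * q * (b + c + d * e) := by positivity
  nlinarith

private theorem fbv_alg2 {T E M Y C₁ c1 c2 A e a g : ℝ} (hT : 0 ≤ T) (hE : 0 ≤ E) (hM : 0 ≤ M) (hY : 0 ≤ Y)
    (hC₁ : 0 ≤ C₁) (hc1 : 0 ≤ c1) (hc2 : 0 ≤ c2) (hA : 0 ≤ A) (he : 0 ≤ e) (ha1 : 0 ≤ a) (ha : a ≤ 1)
    (hg : 0 ≤ g) (hgY : g ≤ Y) :
    T + c1 * E * (C₁ * M) + c2 * E * (A * M) + c1 * E * (C₁ * M) * (a * e + g) ≤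
      (1 + c1 * C₁ * (1 + Y) + c2 * A) * (T + (1 + e) * E * M) := by
  have h1 : a * e + g ≤ e + Y := by nlinarith
  have h2 : c1 * E * (C₁ * M) * (a * e + g) ≤ c1 * E * (C₁ * M) * (e + Y) :=
    mul_le_mul_of_nonneg_left h1 (by positivity)
  have h3 : 0 ≤ (c1 * C₁ * (1 + Y) + c2 * A) * T := by positivity
  have h4 : 0 ≤ (1 + e) * E * M := by positivity
  have h5 : 0 ≤ c1 * C₁ * Y * e * (E * M) := by positivity
  have h6 : 0 ≤ c2 * A * e * (E * M) := by positivity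
  nlinarith

namespace FD
variable {D : Set ℂ} (F : FD D)

/-- the weight `th` of the strip `j` -/
noncomputable def thw (m : ℕ) (j : Fin F.n) : CI Real.pi :=
  rc (tht (zl ((F.G j).ω * F.N m j)) (4 * ((F.G j).ω * F.N m j))) (tht_cont _ _)

/-- `src_bd` with `f = La_j q`, `e1 = η'`, `e2 = η''`, `c₂ = 8u`, `w = wV (Vf (Ga v))`, `k = h^tot` (`vel` with `g = 0`);
`‖La_j q‖, ‖Le_j q‖ ≤ C ‖q‖`. -/
theorem src_le : ∃ C : ℝ, 0 ≤ C ∧ ∀ {m : ℕ} (_ : 1 ≤ m) (j : Fin F.n) {a : ℝ} (_ : 0 ≤ a) (v : VD D) (g q1 q2 : HP)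
    (q : SV D), ‖F.src m j a v g q1 q2 q‖ ≤ C * ‖q‖ * (‖Ms (F.kp m j a) (SC.TT (F.G j).ω g)‖ +
      ‖Ms (ctC1 (4 * F.u) (8 * F.u)) q1‖ + ‖Ms (ctC2 (4 * F.u) (8 * F.u)) (SC.cm (F.G j).a g)‖ +
      ‖Ms (ctC1 (4 * F.u) (8 * F.u)) q2‖ * (F.k j * a * Real.exp ((F.G j).ω * F.N m j * (8 * F.u)) +
        ‖LT (F.G j).ω (F.G j).lam (3 / 8) (F.ht m j a v)‖)) := by
  choose K hK0 hK using fun j => src_bd (F.G j)
  have hu := F.u0
  obtain ⟨B, hB0, hB⟩ : ∃ B : ℝ, 0 ≤ B ∧ ∀ j, ‖(F.La j).comp (sx D)‖ ≤ B :=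
    ⟨∑ j, ‖(F.La j).comp (sx D)‖, Finset.sum_nonneg fun _ _ => ContinuousLinearMap.opNorm_nonneg _, fun j =>
      Finset.single_le_sum (f := fun j => ‖(F.La j).comp (sx D)‖) (fun _ _ => ContinuousLinearMap.opNorm_nonneg _)
        (Finset.mem_univ j)⟩
  obtain ⟨A, hA0, hA⟩ : ∃ A : ℝ, 0 ≤ A ∧ ∀ j, ‖(F.Le j).comp (sx D)‖ ≤ A :=
    ⟨∑ j, ‖(F.Le j).comp (sx D)‖, Finset.sum_nonneg fun _ _ => ContinuousLinearMap.opNorm_nonneg _, fun j =>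
      Finset.single_le_sum (f := fun j => ‖(F.Le j).comp (sx D)‖) (fun _ _ => ContinuousLinearMap.opNorm_nonneg _)
        (Finset.mem_univ j)⟩
  obtain ⟨K1, hK10, hK1⟩ : ∃ K1 : ℝ, 0 ≤ K1 ∧ ∀ j, K j ≤ K1 :=
    ⟨∑ j, K j, Finset.sum_nonneg fun j _ => hK0 j, fun j =>
      Finset.single_le_sum (f := fun j => K j) (fun j _ => hK0 j) (Finset.mem_univ j)⟩
  refine ⟨A + K1 * B + 0, by positivity, ?_⟩
  intro m hm j a ha v g q1 q2 q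
  have hN : 1 ≤ F.N m j := Nat.one_le_iff_ne_zero.2
    (Nat.mul_ne_zero (Nat.one_le_iff_ne_zero.1 (F.fl.kpos j)) (Nat.one_le_iff_ne_zero.1 hm))
  have hα : 0 ≤ F.k j * a := mul_nonneg (Nat.cast_nonneg _) ha
  have h48 : 4 * F.u < 8 * F.u := by linarith
  have hζ : (F.G j).ζ * ctC1 (4 * F.u) (8 * F.u) = ctC1 (4 * F.u) (8 * F.u) := by
    rw [F.G_ζ j]
    refine ci_ext fun z hz => ?_
    rw [ex_mul]
    rcases le_total (8 * F.u) z with h | h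
    · rw [fbv_ex1_hi h48 z hz h, mul_zero]
    · unfold ctC
      rw [Pool.Agent.Lib.MP_79abb3_an.FW.ex_rc _ _ hz, ctf_one (by linarith) (by linarith), Complex.ofReal_one,
        one_mul]
  have hvel : ∀ n, (F.G j).ζ * wV (F.G j).ω (Vf (F.G j).ω (⇑(F.Ga j v))) n =
      (F.G j).ζ * (cellW ((F.G j).ω * F.N m j) (F.N m j) (F.k j * a) n +
        wV (F.G j).ω (Vf (F.G j).ω (⇑(F.ht m j a v))) n) := by
    intro n
    have h := (F.vel hm j a v 0 n).2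
    rw [h]
    unfold Geo.tw
    rw [sub_zero, fbv_wV0, add_zero]
  have hsrc := hK j (e1 := ctC1 (4 * F.u) (8 * F.u)) (e2 := ctC2 (4 * F.u) (8 * F.u))
    (SC.star_rc _ _) hζ (c₂ := 8 * F.u) (by linarith)
    (fbv_ex1_hi h48) hN hα
    (w := wV (F.G j).ω (Vf (F.G j).ω (⇑(F.Ga j v)))) ((F.G j).S2_huv (F.Ga j v)).2
    (F.ht m j a v) hvel (SC.cm (F.G j).a g) q1 q2 (F.La j (sx D q))
  have hLa : ‖F.La j (sx D q)‖ ≤ B * ‖q‖ :=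
    ((F.La j).comp (sx D)).le_of_opNorm_le (hB j) q
  have hLe : ‖F.Le j (sx D q)‖ ≤ A * ‖q‖ :=
    ((F.Le j).comp (sx D)).le_of_opNorm_le (hA j) q
  have h1 : ‖⟪F.Le j (sx D q), Ms (F.kp m j a) (SC.TT (F.G j).ω g)⟫_ℂ‖ ≤
      A * ‖q‖ * ‖Ms (F.kp m j a) (SC.TT (F.G j).ω g)‖ :=
    (norm_inner_le_norm _ _).trans (mul_le_mul_of_nonneg_right hLe (norm_nonneg _))
  have hb : 0 ≤ ‖Ms (ctC1 (4 * F.u) (8 * F.u)) q1‖ + ‖Ms (ctC2 (4 * F.u) (8 * F.u)) (SC.cm (F.G j).a g)‖ +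
      ‖Ms (ctC1 (4 * F.u) (8 * F.u)) q2‖ * (F.k j * a * Real.exp ((F.G j).ω * F.N m j * (8 * F.u)) +
        ‖LT (F.G j).ω (F.G j).lam (3 / 8) (F.ht m j a v)‖) := by
    have := Real.exp_pos ((F.G j).ω * F.N m j * (8 * F.u))
    positivity
  have h2 : K j * ‖F.La j (sx D q)‖ ≤ K1 * (B * ‖q‖) :=
    mul_le_mul (hK1 j) hLa (norm_nonneg _) hK10
  have h3 := mul_le_mul_of_nonneg_right h2 hb
  unfold src
  refine (norm_sub_le _ _).trans ((add_le_add h1 (hsrc.trans h3)).trans ?_)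
  refine fbv_alg (norm_nonneg _) (norm_nonneg _) (norm_nonneg _) (norm_nonneg _) ?_ hA0 hB0 hK10 le_rfl
    (norm_nonneg _)
  have := Real.exp_pos ((F.G j).ω * F.N m j * (8 * F.u))
  positivity

/-- The sources and `srR`: `src_le`, `far_le` with `c₁ = 4u` (`Ms th (cm a g) = cm a (Ms th g)`, `MsCm`). -/
theorem src_sr {C₁ Y : ℝ} (h1 : 0 ≤ C₁) (hY : 0 ≤ Y) : ∃ (m₀ : ℕ) (C : ℝ), 1 ≤ m₀ ∧ 0 ≤ C ∧ ∀ {m : ℕ} (_ : m₀ ≤ m)
    (j : Fin F.n) {a : ℝ} (_ : 0 ≤ a) (_ : F.k j * a ≤ 1) (v : VD D)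
    (_ : ‖LT (F.G j).ω (F.G j).lam (3 / 8) (F.ht m j a v)‖ ≤ Y) (g q1 q2 : HP)
    (_ : ‖Ms (F.thw m j) q1‖ ≤ C₁ * ‖Ms (F.thw m j) g‖) (_ : ‖Ms (F.thw m j) q2‖ ≤ C₁ * ‖Ms (F.thw m j) g‖) (q : SV D),
    ‖F.src m j a v g q1 q2 q‖ ≤ C * ‖q‖ * (F.G j).srR (F.N m j) (F.k j * a) (4 * F.u) (8 * F.u) g := by
  obtain ⟨C, hC0, hC⟩ := F.src_le
  have hu := F.u0
  have h48 : 4 * F.u < 8 * F.u := by linarith
  have h4 : 0 < 4 * F.u := by linarith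
  obtain ⟨c1, hc1, hf1⟩ := far_le (e := ctC1 (4 * F.u) (8 * F.u)) h4 (fbv_ex1_lo h48)
  obtain ⟨c2, hc2, hf2⟩ := far_le (e := ctC2 (4 * F.u) (8 * F.u)) h4 (fbv_ex2_lo h48)
  obtain ⟨A, hA0, hA⟩ : ∃ A : ℝ, 0 ≤ A ∧ ∀ j, ‖SC.cm (F.G j).a‖ ≤ A :=
    ⟨∑ j, ‖SC.cm (F.G j).a‖, Finset.sum_nonneg fun _ _ => ContinuousLinearMap.opNorm_nonneg _, fun j =>
      Finset.single_le_sum (f := fun j => ‖SC.cm (F.G j).a‖) (fun _ _ => ContinuousLinearMap.opNorm_nonneg _)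
        (Finset.mem_univ j)⟩
  obtain ⟨m₁, hm₁⟩ := exists_nat_ge ((1 / (32 * F.u)) ^ 2)
  refine ⟨max 1 m₁, C * (1 + c1 * C₁ * (1 + Y) + c2 * A), le_max_left _ _, by positivity, ?_⟩
  intro m hm j a ha hka v hLT g q1 q2 hq1 hq2 q
  have hm1 : 1 ≤ m := (le_max_left _ _).trans hm
  have hω : (F.G j).ω = 1 := Geo.om_pi (F.G j)
  have hmN : m ≤ F.N m j := Nat.le_mul_of_pos_left m (F.fl.kpos j)
  have hNr : (m : ℝ) ≤ (F.G j).ω * F.N m j := by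
    rw [hω, one_mul]
    exact_mod_cast hmN
  have hN1 : 1 ≤ (F.G j).ω * (F.N m j : ℝ) := le_trans (by exact_mod_cast hm1) hNr
  have hsq : 1 / (8 * √((F.G j).ω * F.N m j)) ≤ 4 * F.u := by
    have h1 : (1 / (32 * F.u)) ^ 2 ≤ (F.G j).ω * F.N m j := by
      refine hm₁.trans (le_trans ?_ hNr)
      exact_mod_cast (le_max_right _ _).trans hm
    have h2 : 1 / (32 * F.u) ≤ √((F.G j).ω * F.N m j) := Real.le_sqrt_of_sq_le h1
    have h3 : 0 < √((F.G j).ω * F.N m j) := lt_of_lt_of_le (by positivity) h2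
    rw [div_le_iff₀ (by positivity)]
    rw [div_le_iff₀ (by positivity)] at h2
    linarith
  set E : ℝ := Real.exp (-(4 * ((F.G j).ω * F.N m j) * (4 * F.u)) + √((F.G j).ω * F.N m j)) with hE
  have hE0 : 0 ≤ E := (Real.exp_pos _).le
  have b1 : ‖Ms (ctC1 (4 * F.u) (8 * F.u)) q1‖ ≤ c1 * E * (C₁ * ‖Ms (F.thw m j) g‖) :=
    (hf1 _ hN1 hsq q1).trans (mul_le_mul_of_nonneg_left hq1 (by positivity))
  have b2 : ‖Ms (ctC1 (4 * F.u) (8 * F.u)) q2‖ ≤ c1 * E * (C₁ * ‖Ms (F.thw m j) g‖) :=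
    (hf1 _ hN1 hsq q2).trans (mul_le_mul_of_nonneg_left hq2 (by positivity))
  have b3 : ‖Ms (ctC2 (4 * F.u) (8 * F.u)) (SC.cm (F.G j).a g)‖ ≤ c2 * E * (A * ‖Ms (F.thw m j) g‖) := by
    refine (hf2 _ hN1 hsq _).trans (mul_le_mul_of_nonneg_left ?_ (by positivity))
    rw [MsCm (F.G j).ha.c.s0]
    exact (SC.cm (F.G j).a).le_of_opNorm_le (hA j) _
  have hee := Real.exp_pos ((F.G j).ω * F.N m j * (8 * F.u))
  have hka0 : 0 ≤ F.k j * a := mul_nonneg (Nat.cast_nonneg _) ha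
  have b4 : ‖Ms (ctC1 (4 * F.u) (8 * F.u)) q2‖ * (F.k j * a * Real.exp ((F.G j).ω * F.N m j * (8 * F.u)) +
        ‖LT (F.G j).ω (F.G j).lam (3 / 8) (F.ht m j a v)‖) ≤ c1 * E * (C₁ * ‖Ms (F.thw m j) g‖) *
        (F.k j * a * Real.exp ((F.G j).ω * F.N m j * (8 * F.u)) +
        ‖LT (F.G j).ω (F.G j).lam (3 / 8) (F.ht m j a v)‖) :=
    mul_le_mul_of_nonneg_right b2 (by positivity)
  have h := hC hm1 j ha v g q1 q2 q
  refine h.trans ?_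
  have h5 : C * (1 + c1 * C₁ * (1 + Y) + c2 * A) * ‖q‖ *
      (F.G j).srR (F.N m j) (F.k j * a) (4 * F.u) (8 * F.u) g = C * ‖q‖ *
      ((1 + c1 * C₁ * (1 + Y) + c2 * A) * (F.G j).srR (F.N m j) (F.k j * a) (4 * F.u) (8 * F.u) g) := by ring
  rw [h5]
  refine mul_le_mul_of_nonneg_left ?_ (by positivity)
  refine (add_le_add (add_le_add (add_le_add le_rfl b1) b3) b4).trans ?_
  exact fbv_alg2 (norm_nonneg _) hE0 (norm_nonneg _) hY h1 hc1 hc2 hA0 hee.le hka0 hka (norm_nonneg _) hLT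

end FD

end Pool.Agent.Lib.MP_79abb3_an.PD
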