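import Pool.Agent.Lib.MP_79abb3_an.PD.FbV
import Pool.Agent.Lib.MP_79abb3_an.PD.FbH

/-!
Theorem D, block F, bounds (7.1): the energy inequality.
-/

set_option autoImplicit false
set_option linter.unusedSectionVars false

open MeasureTheory Set Filter Topology Function
open scoped ENNReal InnerProductSpace ComplexConjugate

namespace Pool.Agent.Lib.MP_79abb3_an.PD

open Pool.Agent.Lib.MP_79abb3_an.SC Pool.Agent.Lib.MP_79abb3_an.P25 Pool.Agent.Lib.MP_79abb3_an.FW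

namespace FD
variable {D : Set ℂ} (F : FD D)

/-- `srR` is continuous along a continuous amplitude and a continuous `g`. -/
private theorem fbV2_cont (m : ℕ) (j : Fin F.n) {a b : ℝ} {A : ℝ → ℝ} {g : ℝ → HP}
    (hA : ContinuousOn A (Icc a b)) (hg : ContinuousOn g (Icc a b)) :
    ContinuousOn (fun r => (F.G j).srR (F.N m j) (F.k j * A r) (4 * F.u) (8 * F.u) (g r)) (Icc a b) := by
  have h1 : ContinuousOn (fun r => F.kp m j (A r)) (Icc a b) := (F.kp_cont m j).comp_continuousOn hA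
  have h2 : ContinuousOn (fun r => MsB Real.pi (F.kp m j (A r)) (SC.TT (F.G j).ω (g r))) (Icc a b) :=
    ((MsB Real.pi).continuous.comp_continuousOn h1).clm_apply
      ((SC.TT (F.G j).ω).continuous.comp_continuousOn hg)
  have h3 : ContinuousOn (fun r => ‖Ms (rc (tht (zl ((F.G j).ω * F.N m j)) (4 * ((F.G j).ω * F.N m j)))
      (tht_cont _ _) : CI Real.pi) (g r)‖) (Icc a b) :=
    ((Ms (rc (tht (zl ((F.G j).ω * F.N m j)) (4 * ((F.G j).ω * F.N m j)))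
      (tht_cont _ _) : CI Real.pi)).continuous.comp_continuousOn hg).norm
  exact h2.norm.add (continuousOn_const.mul h3)

/-- **7.1, the energy inequality** for the regularised problems. `Lpr.apriori` with `R = 2π C ∑ srR` (`src_sr`),
`(∑ x)² ≤ n ∑ x²`; `srR` is continuous in `t`. -/
theorem apr_o {C₁ Y : ℝ} (h1 : 0 ≤ C₁) (hY : 0 ≤ Y) : ∃ (m₀ : ℕ) (C : ℝ), 1 ≤ m₀ ∧ 0 ≤ C ∧ ∀ {m : ℕ} (_ : m₀ ≤ m)
    {a b lam : ℝ} {A : ℝ → ℝ} {v : ℝ → VD D} {g q1 q2 : Fin F.n → ℝ → HP} {s1 : ℝ → L2c} {q : ℝ → SV D}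
    (_ : LprD D v (fun _ x => (lam : ℂ) * F.d x) s1 (fun _ => 0) a b)
    (_ : Lpr D v (fun _ x => (lam : ℂ) * F.d x) s1 (fun _ => 0) a b q)
    (_ : ContinuousOn A (Icc a b)) (_ : ∀ j, ContinuousOn (g j) (Icc a b))
    (_ : ∀ t ∈ Icc a b, ∀ q' : SV D, ⟪((js D q' : XS D) : L2c), s1 t⟫_ℂ =
      ∑ j, (2 * Real.pi : ℂ) * F.src m j (A t) (v t) (g j t) (q1 j t) (q2 j t) q')
    (_ : ∀ t ∈ Icc a b, 0 ≤ A t ∧ ∀ j, F.k j * A t ≤ 1 ∧
      ‖LT (F.G j).ω (F.G j).lam (3 / 8) (F.ht m j (A t) (v t))‖ ≤ Y ∧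
      ‖Ms (F.thw m j) (q1 j t)‖ ≤ C₁ * ‖Ms (F.thw m j) (g j t)‖ ∧
      ‖Ms (F.thw m j) (q2 j t)‖ ≤ C₁ * ‖Ms (F.thw m j) (g j t)‖)
    {s t : ℝ} (_ : a ≤ s) (_ : s ≤ t) (_ : t ≤ b),
    ‖js D (q t)‖ ^ 2 + (∫ r in s..t, ‖q r‖ ^ 2) +
        2 * lam * (∫ r in s..t, ∫ x, (F.d x).re * ‖((js D (q r) : XS D) : L2c) x‖ ^ 2) ≤
      ‖js D (q s)‖ ^ 2 + C * ∫ r in s..t, ∑ j,
        ((F.G j).srR (F.N m j) (F.k j * A r) (4 * F.u) (8 * F.u) (g j r)) ^ 2 := by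
  obtain ⟨m₀, C, hm₀, hC, hsrc⟩ := F.src_sr h1 hY
  refine ⟨m₀, (2 * Real.pi * C) ^ 2 * F.n, hm₀, by positivity, ?_⟩
  intro m hm a b lam A v g q1 q2 s1 q hD hq hA hg hs1 hb s t hs hst ht
  obtain ⟨S, hS⟩ : ∃ S : Fin F.n → ℝ → ℝ, S = fun j r =>
    (F.G j).srR (F.N m j) (F.k j * A r) (4 * F.u) (8 * F.u) (g j r) := ⟨_, rfl⟩
  have hSc : ∀ j, ContinuousOn (S j) (Icc a b) := fun j => by
    rw [hS]
    exact F.fbV2_cont m j hA (hg j)
  have hSs : ∀ r, (∑ j, ((F.G j).srR (F.N m j) (F.k j * A r) (4 * F.u) (8 * F.u) (g j r)) ^ 2) =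
      ∑ j, S j r ^ 2 := fun r => by rw [hS]
  have hR : ContinuousOn (fun r => 2 * Real.pi * C * ∑ j, S j r) (Icc a b) :=
    continuousOn_const.mul (continuousOn_finsetSum _ fun j _ => hSc j)
  have hbd : ∀ r ∈ Icc a b, (⟪((js D (q r) : XS D) : L2c), s1 r⟫_ℂ).re +
      (((fun _ => 0 : ℝ → Yd L4c) r) (j4 D (q r))).re ≤ (2 * Real.pi * C * ∑ j, S j r) * ‖q r‖ := by
    intro r hr
    obtain ⟨hA0, hj⟩ := hb r hr
    have e0 : (((fun _ => 0 : ℝ → Yd L4c) r) (j4 D (q r))).re = 0 := by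
      show ((0 : Yd L4c) (j4 D (q r))).re = 0
      rfl
    rw [e0, add_zero, hs1 r hr (q r)]
    refine (Complex.re_le_norm _).trans ((norm_sum_le _ _).trans ?_)
    rw [Finset.mul_sum, Finset.sum_mul]
    refine Finset.sum_le_sum fun j _ => ?_
    obtain ⟨k1, k2, k3, k4⟩ := hj j
    have e1 := hsrc hm j hA0 k1 (v r) k2 (g j r) (q1 j r) (q2 j r) k3 k4 (q r)
    have e2 : ‖(2 * Real.pi : ℂ)‖ = 2 * Real.pi := by
      rw [norm_mul, Complex.norm_real, Real.norm_of_nonneg Real.pi_pos.le]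
      norm_num
    rw [norm_mul, e2]
    have e3 : S j r = (F.G j).srR (F.N m j) (F.k j * A r) (4 * F.u) (8 * F.u) (g j r) := by rw [hS]
    rw [e3]
    calc 2 * Real.pi * ‖F.src m j (A r) (v r) (g j r) (q1 j r) (q2 j r) (q r)‖
        ≤ 2 * Real.pi * (C * ‖q r‖ *
          (F.G j).srR (F.N m j) (F.k j * A r) (4 * F.u) (8 * F.u) (g j r)) :=
          mul_le_mul_of_nonneg_left e1 (by positivity)
      _ = _ := by ring
  have key := Lpr.apriori F.hD.bdd hD hq hR hbd hs hst ht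
  have e1 : (∫ r in s..t, ∫ x, ((lam : ℂ) * F.d x).re * ‖((js D (q r) : XS D) : L2c) x‖ ^ 2) =
      lam * ∫ r in s..t, ∫ x, (F.d x).re * ‖((js D (q r) : XS D) : L2c) x‖ ^ 2 := by
    rw [← intervalIntegral.integral_const_mul]
    refine intervalIntegral.integral_congr fun r _ => ?_
    show (∫ x, ((lam : ℂ) * F.d x).re * ‖((js D (q r) : XS D) : L2c) x‖ ^ 2) =
      lam * ∫ x, (F.d x).re * ‖((js D (q r) : XS D) : L2c) x‖ ^ 2
    rw [← integral_const_mul]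
    congr 1
    funext x
    rw [Complex.re_ofReal_mul]
    ring
  have e2 : (∫ r in s..t, (2 * Real.pi * C * ∑ j, S j r) ^ 2) ≤
      (2 * Real.pi * C) ^ 2 * F.n * ∫ r in s..t, ∑ j, S j r ^ 2 := by
    rw [← intervalIntegral.integral_const_mul]
    have hsub : Icc s t ⊆ Icc a b := Icc_subset_Icc hs ht
    refine intervalIntegral.integral_mono_on hst
      (((hR.pow 2).mono hsub).intervalIntegrable_of_Icc hst)
      (((continuousOn_const.mul (continuousOn_finsetSum _ fun j _ => (hSc j).pow 2)).mono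
        hsub).intervalIntegrable_of_Icc hst) fun r _ => ?_
    have h2 : (∑ j, S j r) ^ 2 ≤ F.n * ∑ j, S j r ^ 2 := by
      have := sq_sum_le_card_mul_sum_sq (s := (Finset.univ : Finset (Fin F.n))) (f := fun j => S j r)
      rwa [Finset.card_univ, Fintype.card_fin] at this
    calc (2 * Real.pi * C * ∑ j, S j r) ^ 2 = (2 * Real.pi * C) ^ 2 * (∑ j, S j r) ^ 2 := by ring
      _ ≤ (2 * Real.pi * C) ^ 2 * (F.n * ∑ j, S j r ^ 2) :=
          mul_le_mul_of_nonneg_left h2 (by positivity)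
      _ = _ := by ring
  rw [e1, ← mul_assoc] at key
  simp only [hSs]
  linarith

end FD

end Pool.Agent.Lib.MP_79abb3_an.PD
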