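import Pool.Agent.Lib.MP_79abb3_an.PD.StDef

/-!
MP_79abb3_an, Theorem D, block F, strip module: the equation (X) from one-mode test functions.
-/

set_option autoImplicit false
set_option linter.unusedSectionVars false

open MeasureTheory Set Filter Topology Function
open scoped ENNReal InnerProductSpace ContDiff

namespace Pool.Agent.Lib.MP_79abb3_an.SC

open Pool.Agent.Lib.MP_79abb3_an.P25 Pool.Agent.Lib.MP_79abb3_an.FW

section
variable {H : ℝ} [hH : Fact (0 < H)]

/-- `f` vanishes near `0` and near `H` (and outside). -/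
def CptI (H : ℝ) {E : Type} [Zero E] (f : ℝ → E) : Prop :=
  ∃ ε > 0, ∀ z : ℝ, z < ε ∨ H - ε < z → f z = 0

private theorem wc_aux {f : ℝ → ℝ} (hf : ContDiff ℝ ∞ f) (hc : CptI H f) (hI : ∫ z in (0:ℝ)..H, f z = 0) :
    ContDiff ℝ ∞ (fun z => ∫ t in (0:ℝ)..z, f t) ∧ CptI H (fun z => ∫ t in (0:ℝ)..z, f t) ∧
      ∀ z, deriv (fun z => ∫ t in (0:ℝ)..z, f t) z = f z := by
  have hd : ∀ z, HasDerivAt (fun z => ∫ t in (0:ℝ)..z, f t) (f z) z := fun z =>
    intervalIntegral.integral_hasDerivAt_right (hf.continuous.intervalIntegrable _ _)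
      hf.continuous.stronglyMeasurable.stronglyMeasurableAtFilter hf.continuous.continuousAt
  have hd' : deriv (fun z => ∫ t in (0:ℝ)..z, f t) = f := funext fun z => (hd z).deriv
  refine ⟨?_, ?_, fun z => (hd z).deriv⟩
  · rw [contDiff_infty_iff_deriv]
    exact ⟨fun z => (hd z).differentiableAt, by rw [hd']; exact hf⟩
  · obtain ⟨ε, hε, h⟩ := hc
    refine ⟨ε, hε, fun z hz => ?_⟩
    rcases hz with hz | hz
    · have h1 : ∫ t in (0:ℝ)..z, f t = ∫ t in (0:ℝ)..z, (0:ℝ) := by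
        refine intervalIntegral.integral_congr fun t ht => h t (Or.inl ?_)
        rcases le_total 0 z with h0 | h0
        · rw [uIcc_of_le h0] at ht; linarith [ht.2]
        · rw [uIcc_of_ge h0] at ht; linarith [ht.2]
      show ∫ t in (0:ℝ)..z, f t = 0
      rw [h1]; simp
    · have h2 : ∫ t in H..z, f t = 0 := by
        have h1 : ∫ t in H..z, f t = ∫ t in H..z, (0:ℝ) := by
          refine intervalIntegral.integral_congr fun t ht => h t (Or.inr ?_)
          rcases le_total H z with h0 | h0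
          · rw [uIcc_of_le h0] at ht; linarith [ht.1]
          · rw [uIcc_of_ge h0] at ht; linarith [ht.1]
        rw [h1]; simp
      show ∫ t in (0:ℝ)..z, f t = 0
      rw [← intervalIntegral.integral_add_adjacent_intervals
        (hf.continuous.intervalIntegrable 0 H) (hf.continuous.intervalIntegrable H z), hI, h2, add_zero]

private theorem exists_bump : ∃ χ : ℝ → ℝ, ContDiff ℝ ∞ χ ∧ CptI H χ ∧ ∫ z in (0:ℝ)..H, χ z = 1 := by
  have hH0 := hH.out
  let f : ContDiffBump (H / 2 : ℝ) := ⟨H / 8, H / 4, by linarith, by linarith⟩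
  have hz : ∀ z, z ≤ H / 4 ∨ 3 * H / 4 ≤ z → f.normed volume z = 0 := by
    intro z hz
    by_contra hne
    have h1 : z ∈ support (f.normed volume) := hne
    rw [f.support_normed_eq, Metric.mem_ball, Real.dist_eq, abs_lt] at h1
    have h2 : f.rOut = H / 4 := rfl
    rw [h2] at h1
    rcases hz with hz | hz
    · linarith [h1.1]
    · linarith [h1.2]
  refine ⟨f.normed volume, f.contDiff_normed, ⟨H / 8, by linarith, fun z hz' => hz z ?_⟩, ?_⟩
  · rcases hz' with h | h
    · exact Or.inl (by linarith)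
    · exact Or.inr (by linarith)
  · have h1 := f.integral_normed (μ := (volume : Measure ℝ))
    rw [intervalIntegral.integral_of_le hH0.le, ← h1]
    refine setIntegral_eq_integral_of_forall_compl_eq_zero fun z hz' => hz z ?_
    by_contra hcon
    rw [not_or, not_le, not_le] at hcon
    exact hz' ⟨by linarith [hcon.1], by linarith [hcon.2]⟩

/-- A function on `(0, H)` with weak derivative zero is constant. -/
private theorem weak_const {G : ℝ → ℂ} (hG : IntegrableOn G (Ioc 0 H))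
    (h : ∀ f : ℝ → ℝ, ContDiff ℝ ∞ f → CptI H f → ∫ z in (0:ℝ)..H, ((deriv f z : ℝ) : ℂ) * G z = 0) :
    ∃ c : ℂ, ∀ᵐ z ∂(volume : Measure ℝ), z ∈ Ioo 0 H → G z = c := by
  have hH0 := hH.out
  obtain ⟨χ, hχ, hχc, hχ1⟩ := exists_bump (H := H)
  obtain ⟨c, hc⟩ : ∃ c : ℂ, c = ∫ z in (0:ℝ)..H, (χ z : ℂ) * G z := ⟨_, rfl⟩
  refine ⟨c, ?_⟩
  have hGi : IntervalIntegrable G volume 0 H := (intervalIntegrable_iff_integrableOn_Ioc_of_le hH0.le).2 hG
  have hloc : LocallyIntegrableOn (fun z => G z - c) (Ioo 0 H) := by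
    have h1 : IntegrableOn (fun z => G z - c) (Ioo 0 H) :=
      (hG.mono_set Ioo_subset_Ioc_self).sub (integrableOn_const (by simp))
    exact h1.locallyIntegrableOn
  have key := isOpen_Ioo.ae_eq_zero_of_integral_contDiff_smul_eq_zero hloc (fun g hg hgc hgs => ?_)
  · filter_upwards [key] with z hz hzI
    exact sub_eq_zero.1 (hz hzI)
  -- the test function
  have hgC : CptI H g := by
    rcases (tsupport g).eq_empty_or_nonempty with he | hne
    · exact ⟨1, one_pos, fun z _ => image_eq_zero_of_notMem_tsupport (by rw [he]; exact fun h => h)⟩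
    · have hK : IsCompact (tsupport g) := hgc
      obtain ⟨a, ha, hamin⟩ := hK.exists_isLeast hne
      obtain ⟨b, hb, hbmax⟩ := hK.exists_isGreatest hne
      have h1 := hgs ha
      have h2 := hgs hb
      refine ⟨min a (H - b), lt_min h1.1 (by linarith [h2.2]), fun z hz => ?_⟩
      refine image_eq_zero_of_notMem_tsupport fun hmem => ?_
      have h3 := hamin hmem
      have h4 := hbmax hmem
      rcases hz with hz | hz
      · linarith [min_le_left a (H - b)]
      · linarith [min_le_right a (H - b)]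
  obtain ⟨I, hI⟩ : ∃ I : ℝ, I = ∫ z in (0:ℝ)..H, g z := ⟨_, rfl⟩
  have hcd : ContDiff ℝ ∞ (fun z => g z - I * χ z) := hg.sub (contDiff_const.mul hχ)
  have hcp : CptI H (fun z => g z - I * χ z) := by
    obtain ⟨e1, he1, h1⟩ := hgC
    obtain ⟨e2, he2, h2⟩ := hχc
    refine ⟨min e1 e2, lt_min he1 he2, fun z hz => ?_⟩
    have m1 := min_le_left e1 e2
    have m2 := min_le_right e1 e2
    have a1 : g z = 0 := h1 z (by
      rcases hz with hz | hz
      · exact Or.inl (by linarith)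
      · exact Or.inr (by linarith))
    have a2 : χ z = 0 := h2 z (by
      rcases hz with hz | hz
      · exact Or.inl (by linarith)
      · exact Or.inr (by linarith))
    show g z - I * χ z = 0
    rw [a1, a2]; ring
  have hint : ∫ z in (0:ℝ)..H, (g z - I * χ z) = 0 := by
    have a1 : IntervalIntegrable (fun z => g z) volume 0 H := hg.continuous.intervalIntegrable _ _
    have a2 : IntervalIntegrable (fun z => I * χ z) volume 0 H :=
      (continuous_const.mul hχ.continuous).intervalIntegrable _ _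
    rw [intervalIntegral.integral_sub a1 a2, intervalIntegral.integral_const_mul, hχ1, ← hI]
    ring
  obtain ⟨c1, c2, c3⟩ := wc_aux hcd hcp hint
  have h5 := h _ c1 c2
  have hgG : IntervalIntegrable (fun z => (g z : ℂ) * G z) volume 0 H :=
    hGi.continuousOn_mul (Complex.continuous_ofReal.comp hg.continuous).continuousOn
  have hχG : IntervalIntegrable (fun z => (χ z : ℂ) * G z) volume 0 H := by
    exact hGi.continuousOn_mul (Complex.continuous_ofReal.comp hχ.continuous).continuousOn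
  have h6 : ∫ z in (0:ℝ)..H, (g z : ℂ) * G z = (I : ℂ) * c := by
    have h7 : ∫ z in (0:ℝ)..H, ((deriv (fun z => ∫ t in (0:ℝ)..z, (g t - I * χ t)) z : ℝ) : ℂ) * G z =
        (∫ z in (0:ℝ)..H, (g z : ℂ) * G z) - (I : ℂ) * ∫ z in (0:ℝ)..H, (χ z : ℂ) * G z := by
      rw [← intervalIntegral.integral_const_mul, ← intervalIntegral.integral_sub hgG
        (hχG.const_mul _)]
      refine intervalIntegral.integral_congr fun z _ => ?_
      show ((deriv (fun z => ∫ t in (0:ℝ)..z, (g t - I * χ t)) z : ℝ) : ℂ) * G z = _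
      rw [c3]; push_cast; ring
    rw [h7, ← hc] at h5
    exact sub_eq_zero.1 h5
  have h8 : ∫ x, g x • (G x - c) = ∫ z in (0:ℝ)..H, (g z : ℂ) * (G z - c) := by
    rw [intervalIntegral.integral_of_le hH0.le]
    rw [← setIntegral_eq_integral_of_forall_compl_eq_zero (s := Ioc 0 H)]
    · rfl
    · intro z hz
      have : g z = 0 := image_eq_zero_of_notMem_tsupport fun hm => hz ⟨(hgs hm).1, (hgs hm).2.le⟩
      rw [this, zero_smul]
  rw [h8]
  have h9 : ∫ z in (0:ℝ)..H, (g z : ℂ) * (G z - c) =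
      (∫ z in (0:ℝ)..H, (g z : ℂ) * G z) - (∫ z in (0:ℝ)..H, (g z : ℂ)) * c := by
    rw [← intervalIntegral.integral_mul_const, ← intervalIntegral.integral_sub hgG]
    · exact intervalIntegral.integral_congr fun z _ => by ring
    · exact ((Complex.continuous_ofReal.comp hg.continuous).mul continuous_const).intervalIntegrable _ _
  have h10 : ∫ z in (0:ℝ)..H, (g z : ℂ) = (I : ℂ) := by
    rw [hI, intervalIntegral.integral_ofReal]
  rw [h9, h6, h10, sub_self]

/-- One mode: orthogonality to all `B f` implies `P g = 0`. -/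
private theorem mode_orth (k : ℝ) (g : Z2 H)
    (h : ∀ f : ℝ → ℂ, ContDiff ℝ ∞ f → CptI H f → ∀ F : CI H,
      (∀ z ∈ Icc (0:ℝ) H, ex F z = -deriv f z + ((|k| : ℝ) : ℂ) * f z) →
      ⟪(iota F : Z2 H), g⟫_ℂ = 0) : P2 k g = 0 := by
  have hH0 := hH.out
  have hg1 : IntegrableOn (fun z : ℝ => Complex.exp (((|k| : ℝ) : ℂ) * (z : ℂ)) * g z) (Ioc 0 H) := by
    have h1 : Integrable g (mH H) := (Lp.memLp g).integrable (by norm_num)
    have h2 : IntervalIntegrable g volume 0 H :=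
      (intervalIntegrable_iff_integrableOn_Ioc_of_le hH0.le).2 h1
    exact (intervalIntegrable_iff_integrableOn_Ioc_of_le hH0.le).1
      (h2.continuousOn_mul (by fun_prop))
  obtain ⟨c, hc⟩ := weak_const hg1 (fun f hf hfc => by
    have hfc' : CptI H (fun z : ℝ => Complex.exp (((|k| : ℝ) : ℂ) * (z : ℂ)) * (f z : ℂ)) := by
      obtain ⟨ε, hε, h1⟩ := hfc
      exact ⟨ε, hε, fun z hz => by
        show Complex.exp (((|k| : ℝ) : ℂ) * (z : ℂ)) * ((f z : ℝ) : ℂ) = 0
        rw [h1 z hz]; simp⟩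
    have hfs : ContDiff ℝ ∞ (fun z : ℝ => Complex.exp (((|k| : ℝ) : ℂ) * (z : ℂ)) * (f z : ℂ)) := by
      have h1 : ContDiff ℝ ∞ (fun z : ℝ => (f z : ℂ)) := Complex.ofRealCLM.contDiff.comp hf
      have h2 : ContDiff ℝ ∞ (fun z : ℝ => Complex.exp (((|k| : ℝ) : ℂ) * (z : ℂ))) :=
        (contDiff_const.mul Complex.ofRealCLM.contDiff).cexp
      exact h2.mul h1
    have hdf : Continuous (deriv f) := hf.continuous_deriv (by norm_num)
    have hder : ∀ z : ℝ, HasDerivAt (fun z : ℝ => Complex.exp (((|k| : ℝ) : ℂ) * (z : ℂ)) * (f z : ℂ))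
        (((|k| : ℝ) : ℂ) * (Complex.exp (((|k| : ℝ) : ℂ) * (z : ℂ)) * (f z : ℂ)) + Complex.exp (((|k| : ℝ) : ℂ) * (z : ℂ)) * ((deriv f z : ℝ) : ℂ)) z := by
      intro z
      have h1 : HasDerivAt (fun z : ℝ => ((f z : ℝ) : ℂ)) ((deriv f z : ℝ) : ℂ) z :=
        ((hf.differentiable (by norm_num)).differentiableAt.hasDerivAt).ofReal_comp
      have h2 : HasDerivAt (fun z : ℝ => Complex.exp (((|k| : ℝ) : ℂ) * (z : ℂ))) (Complex.exp (((|k| : ℝ) : ℂ) * (z : ℂ)) * ((|k| : ℝ) : ℂ)) z := by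
        have h3 : HasDerivAt (fun z : ℝ => ((|k| : ℝ) : ℂ) * (z : ℂ)) ((|k| : ℝ) : ℂ) z := by
          have := (hasDerivAt_id z).ofReal_comp.const_mul ((|k| : ℝ) : ℂ)
          simpa using this
        exact h3.cexp
      refine (h2.mul h1).congr_deriv ?_
      ring
    have hFc : Continuous (fun z : Icc (0:ℝ) H =>
        -(Complex.exp (((|k| : ℝ) : ℂ) * ((z : ℝ) : ℂ)) * ((deriv f z : ℝ) : ℂ))) := by fun_prop
    have h1 := h _ hfs hfc' ⟨_, hFc⟩ (fun z hz => by
      have e1 : ex (⟨_, hFc⟩ : CI H) z = -(Complex.exp (((|k| : ℝ) : ℂ) * (z : ℂ)) * ((deriv f z : ℝ) : ℂ)) := by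
        unfold ex
        rw [projIcc_of_mem _ hz]; rfl
      rw [e1, (hder z).deriv]
      ring)
    rw [inner_Z2] at h1
    have h2 : ∫ z in (0:ℝ)..H, star ((iota (⟨_, hFc⟩ : CI H) : Z2 H) z) * g z =
        ∫ z in (0:ℝ)..H, -(((deriv f z : ℝ) : ℂ) * (Complex.exp (((|k| : ℝ) : ℂ) * (z : ℂ)) * g z)) := by
      refine ii_congr ?_ zero_memI H_memI
      filter_upwards [coe_iota (⟨_, hFc⟩ : CI H), ae_restrict_mem measurableSet_Ioc] with z h3 h4
      rw [h3]
      have e1 : ex (⟨_, hFc⟩ : CI H) z = -(Complex.exp (((|k| : ℝ) : ℂ) * (z : ℂ)) * ((deriv f z : ℝ) : ℂ)) := by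
        unfold ex
        rw [projIcc_of_mem _ ⟨h4.1.le, h4.2⟩]; rfl
      rw [e1]
      have e2 : star (-(Complex.exp (((|k| : ℝ) : ℂ) * (z : ℂ)) * ((deriv f z : ℝ) : ℂ))) =
          -(Complex.exp (((|k| : ℝ) : ℂ) * (z : ℂ)) * ((deriv f z : ℝ) : ℂ)) := by
        have e3 : Complex.exp (((|k| : ℝ) : ℂ) * (z : ℂ)) = ((Real.exp (|k| * z) : ℝ) : ℂ) := by push_cast; rfl
        rw [e3, ← Complex.ofReal_mul, ← Complex.ofReal_neg]
        exact Complex.conj_ofReal _
      rw [e2]; ring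
    rw [h2, intervalIntegral.integral_neg, neg_eq_zero] at h1
    exact h1)
  -- `g = c e^{-|k| z}`
  have hg2 : g = c • iota (fe (-|k|)) := by
    refine Lp.ext ?_
    have h1 : ∀ᵐ z ∂(mH H), z ∈ Ioo 0 H := by
      have h2 : ∀ᵐ z ∂(mH H), z ≠ H := by
        have : (mH H) {H} = 0 := by
          rw [Measure.restrict_apply (measurableSet_singleton H)]
          exact le_antisymm ((measure_mono inter_subset_left).trans (by simp)) bot_le
        rw [ae_iff]; simpa only [ne_eq, not_not, setOf_eq_eq_singleton] using this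
      filter_upwards [h2, ae_restrict_mem measurableSet_Ioc] with z hz hz2
      exact ⟨hz2.1, lt_of_le_of_ne hz2.2 hz⟩
    filter_upwards [h1, ae_restrict_of_ae hc, Lp.coeFn_smul c (iota (fe (-|k|)) : Z2 H),
      coe_iota (fe (-|k|) : CI H)] with z hz hcz h3 h4
    have h5 := hcz hz
    rw [h3, Pi.smul_apply, h4, ex_fe _ ⟨hz.1.le, hz.2.le⟩, smul_eq_mul, ← h5]
    have e3 : Complex.exp (((|k| : ℝ) : ℂ) * (z : ℂ)) = ((Real.exp (|k| * z) : ℝ) : ℂ) := by push_cast; rfl
    rw [e3]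
    have e4 : ((Real.exp (|k| * z) : ℝ) : ℂ) * ((Real.exp (-|k| * z) : ℝ) : ℂ) = 1 := by
      rw [← Complex.ofReal_mul, ← Real.exp_add]
      simp
    linear_combination (-(g z)) * e4
  have h1 : P2 k (gk k : Z2 H) = 0 := by
    rw [P2_apply, inner_gk_gk, one_smul, sub_self]
  have h2 : (iota (fe (-|k|)) : Z2 H) = ((‖(iota (fe (-|k|)) : Z2 H)‖ : ℝ) : ℂ) • gk k := by
    rw [gk, smul_smul, ← Complex.ofReal_mul, mul_inv_cancel₀ (norm_ne_zero_iff.2 (iota_fe_ne _)),
      Complex.ofReal_one, one_smul]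
  rw [hg2, h2, smul_smul, map_smul, h1, smul_zero]

/-- the vector representing `rX` -/
private noncomputable def RX (G : Geo H) (D : SDt H) (t : ℝ) : HH H :=
  -(cm G.a (D.x t)) + (LT G.ω G.lam (1 / 4)).adjoint (G.Pw (cm G.a (D.x t)) (D.ve t) (D.we t)) +
    (TT G.ω).adjoint (D.σ t)

private theorem inner_RX (G : Geo H) (D : SDt H) (t : ℝ) (φ : HH H) :
    ⟪φ, RX G D t⟫_ℂ = rX G D t φ := by
  unfold RX rX
  rw [inner_add_right, inner_add_right, inner_neg_right, ContinuousLinearMap.adjoint_inner_right,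
    ContinuousLinearMap.adjoint_inner_right, inner_LT_Pw]

private theorem RX_cont (G : Geo H) {D : SDt H} {b : ℝ} (hD : D.Cont b) :
    ContinuousOn (RX G D) (Icc 0 b) := by
  have h1 : ContinuousOn (fun t => cm G.a (D.x t)) (Icc 0 b) :=
    (cm G.a).continuous.comp_continuousOn hD.x
  have h2 : ContinuousOn (fun t => Xz G.ω (prd G.pw (cm G.a (D.x t)) (D.we t))) (Icc 0 b) :=
    (Xz G.ω).continuous.comp_continuousOn
      (((prd G.pw).continuous.comp_continuousOn h1).clm_apply hD.we)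
  have h3 : ContinuousOn (fun t => Xy G.ω (prd G.pw (cm G.a (D.x t)) (D.ve t))) (Icc 0 b) :=
    (Xy G.ω).continuous.comp_continuousOn
      (((prd G.pw).continuous.comp_continuousOn h1).clm_apply hD.ve)
  exact (h1.neg.add ((LT G.ω G.lam (1 / 4)).adjoint.continuous.comp_continuousOn
    (h2.add h3).neg)).add ((TT G.ω).adjoint.continuous.comp_continuousOn hD.σ)

/-- **Closure step for `(X)`**: it suffices to test with `φ = B f`, `f` one smooth mode with compact
support in `(0, H)`. -/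
theorem EqX_of_modes (G : Geo H) {D : SDt H} {b : ℝ} (hD : D.Cont b)
    (h : ∀ (n : ℤ) (f : ℝ → ℂ), ContDiff ℝ ∞ f → CptI H f → ∀ F : CI H,
      (∀ z ∈ Icc (0:ℝ) H, ex F z = -deriv f z + ((|G.ω * n| : ℝ) : ℂ) * f z) →
      ∀ s t, 0 ≤ s → s ≤ t → t ≤ b →
      ⟪TT G.ω (lp.single 2 n (iota F : Z2 H)), TT G.ω (D.x t)⟫_ℂ -
        ⟪TT G.ω (lp.single 2 n (iota F : Z2 H)), TT G.ω (D.x s)⟫_ℂ =
        ∫ r in s..t, rX G D r (lp.single 2 n (iota F : Z2 H))) : EqX G D b := by
  intro φ hφ s t hs hst ht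
  have hsub : uIcc s t ⊆ Icc 0 b := by rw [uIcc_of_le hst]; exact Icc_subset_Icc hs ht
  have hi := ((RX_cont G hD).mono hsub).intervalIntegrable (μ := volume)
  obtain ⟨Z, hZ⟩ : ∃ Z : HH H, Z = (TT G.ω).adjoint (TT G.ω (D.x t)) -
    (TT G.ω).adjoint (TT G.ω (D.x s)) - ∫ r in s..t, RX G D r := ⟨_, rfl⟩
  have key : ∀ ψ : HH H, ⟪ψ, Z⟫_ℂ = ⟪TT G.ω ψ, TT G.ω (D.x t)⟫_ℂ - ⟪TT G.ω ψ, TT G.ω (D.x s)⟫_ℂ -
      ∫ r in s..t, rX G D r ψ := by
    intro ψ
    have h3 := (ContinuousLinearMap.intervalIntegral_comp_comm (innerSL ℂ ψ) hi).symm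
    have h4 : ⟪ψ, ∫ r in s..t, RX G D r⟫_ℂ = ∫ r in s..t, rX G D r ψ := by
      refine h3.trans (intervalIntegral.integral_congr fun r _ => ?_)
      exact inner_RX G D r ψ
    rw [hZ, inner_sub_right, inner_sub_right, ContinuousLinearMap.adjoint_inner_right,
      ContinuousLinearMap.adjoint_inner_right, h4]
  have hP : PP G.ω Z = 0 := by
    refine lp.ext (funext fun n => ?_)
    rw [PP_apply]
    refine mode_orth (G.ω * n) (Z n) fun f hf hfc F hF => ?_
    have h1 := h n f hf hfc F hF s t hs hst ht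
    have h2 := key (lp.single 2 n (iota F : Z2 H))
    rw [h1, sub_self] at h2
    rw [← h2]
    exact (lp.inner_single_left (𝕜 := ℂ) n (iota F : Z2 H) Z).symm
  have h1 : ⟪φ, Z⟫_ℂ = 0 := by
    rw [← hφ, inner_PP, hP, inner_zero_right]
  rw [key] at h1
  exact sub_eq_zero.1 h1

end

end Pool.Agent.Lib.MP_79abb3_an.SC
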