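import Pool.Agent.Lib.MP_79abb3_an.PD.FeDef
import Pool.Agent.Lib.MP_79abb3_an.PD.StX
import Pool.Agent.Lib.MP_79abb3_an.PD.CoB3

/-!
Theorem D, block F: one mode as a smooth function of the strip.
-/

set_option autoImplicit false
set_option linter.unusedSectionVars false

open MeasureTheory Set Filter Topology Function
open scoped ENNReal InnerProductSpace ComplexConjugate

namespace Pool.Agent.Lib.MP_79abb3_an.PD

open Pool.Agent.Lib.MP_79abb3_an.SC Pool.Agent.Lib.MP_79abb3_an.P25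

section
variable {H : ℝ} [hH : Fact (0 < H)]

/-- The function `θ(y,z) = (∫_0^z exp (-|k| (z-s)) f(s) ds) exp (i k y)`, `k = π n / H`. -/
noncomputable def mth (H : ℝ) (n : ℤ) (f : ℝ → ℂ) (q : ℝ × ℝ) : ℂ :=
  (∫ s in (0:ℝ)..q.2, ((Real.exp (-(|Real.pi / H * n| * (q.2 - s))) : ℝ) : ℂ) * f s) *
    Complex.exp (Complex.I * ((Real.pi / H * n * q.1 : ℝ) : ℂ))

/-! ### Functions `h(z) e^{iky}` -/

private noncomputable def fxa (H : ℝ) (n : ℤ) (h : ℝ → ℂ) (q : ℝ × ℝ) : ℂ :=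
  h q.2 * ee (Real.pi / H) n q.1

private noncomputable def fxE (κ : ℝ) (f : ℝ → ℂ) (z : ℝ) : ℂ :=
  ∫ s in (0:ℝ)..z, ((Real.exp (-(κ * (z - s))) : ℝ) : ℂ) * f s

private theorem fx_mth (n : ℤ) (f : ℝ → ℂ) : mth H n f = fxa H n (fxE |Real.pi / H * n| f) := rfl

private theorem fx_per (n : ℤ) (y : ℝ) :
    ee (Real.pi / H) n (y + 2 * H) = ee (Real.pi / H) n y := by
  unfold ee
  refine Complex.exp_eq_exp_iff_exists_int.2 ⟨n, ?_⟩
  have hH0 := hH.out.ne'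
  have h1 : Real.pi / H * n * (y + 2 * H) = Real.pi / H * n * y + 2 * Real.pi * n := by
    field_simp
  rw [h1]
  push_cast
  ring

private theorem fx_smooth (n : ℤ) {h : ℝ → ℂ} (hh : ContDiff ℝ ((⊤ : ℕ∞) : WithTop ℕ∞) h) :
    ContDiff ℝ ((⊤ : ℕ∞) : WithTop ℕ∞) (fxa H n h) := by
  have h1 : ContDiff ℝ ((⊤ : ℕ∞) : WithTop ℕ∞) (fun q : ℝ × ℝ => h q.2) := hh.comp contDiff_snd
  have h2 : ContDiff ℝ ((⊤ : ℕ∞) : WithTop ℕ∞) (fun q : ℝ × ℝ => ee (Real.pi / H) n q.1) := by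
    unfold ee
    have h3 : ContDiff ℝ ((⊤ : ℕ∞) : WithTop ℕ∞)
        (fun q : ℝ × ℝ => ((Real.pi / H * n * q.1 : ℝ) : ℂ)) :=
      Complex.ofRealCLM.contDiff.comp (contDiff_const.mul contDiff_fst)
    exact (contDiff_const.mul h3).cexp
  exact h1.mul h2

private theorem fx_PC (n : ℤ) {h : ℝ → ℂ} (hh : ContDiff ℝ ((⊤ : ℕ∞) : WithTop ℕ∞) h) :
    PC H (fxa H n h) := by
  have hs := fx_smooth (H := H) n hh
  have hp : ∀ y z, fxa H n h (y + 2 * H, z) = fxa H n h (y, z) := fun y z => by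
    show h z * ee (Real.pi / H) n (y + 2 * H) = h z * ee (Real.pi / H) n y
    rw [fx_per]
  exact ⟨⟨Complex.reCLM.contDiff.comp hs, 1, one_pos, fun y z _ => by rw [hp]⟩,
    ⟨Complex.imCLM.contDiff.comp hs, 1, one_pos, fun y z _ => by rw [hp]⟩⟩

private theorem fx_fmc {θ : ℝ × ℝ → ℂ} (h : PC H θ) (m : ℤ) {z : ℝ} (hz : z ∈ Icc (0:ℝ) H) :
    ex (fmc θ m : CI H) z =
      ((2 * H : ℝ) : ℂ)⁻¹ * ∫ y in (-H)..H, θ (y, z) * star (ee (Real.pi / H) m y) := by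
  have c1 := (fo_continuous_y h.re.smooth.continuous (Real.pi / H) m z).intervalIntegrable
    (μ := volume) (-H) H
  have c2 := (fo_continuous_y h.im.smooth.continuous (Real.pi / H) m z).intervalIntegrable
    (μ := volume) (-H) H
  unfold fmc
  rw [ex_add, ex_smul, ex_fam h.re.smooth.continuous m hz, ex_fam h.im.smooth.continuous m hz, fco,
    fco, mul_left_comm, ← mul_add, ← intervalIntegral.integral_const_mul,
    ← intervalIntegral.integral_add c1 (c2.const_mul Complex.I)]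
  congr 1
  refine intervalIntegral.integral_congr fun y _ => ?_
  show (((θ (y, z)).re : ℝ) : ℂ) * star (ee (Real.pi / H) m y) +
    Complex.I * ((((θ (y, z)).im : ℝ) : ℂ) * star (ee (Real.pi / H) m y)) =
    θ (y, z) * star (ee (Real.pi / H) m y)
  rw [← mul_assoc, ← add_mul, mul_comm Complex.I, Complex.re_add_im]

private theorem fx_fHc (n : ℤ) {h : ℝ → ℂ} (hh : ContDiff ℝ ((⊤ : ℕ∞) : WithTop ℕ∞) h) {Ψ : CI H}
    (hΨ : ∀ z ∈ Icc (0:ℝ) H, ex Ψ z = h z) :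
    (fHc (fxa H n h) : HH H) = lp.single 2 n (iota Ψ : Z2 H) := by
  have hH0 := hH.out
  have hP := fx_PC (H := H) n hh
  have key : ∀ m : ℤ, ∀ z ∈ Icc (0:ℝ) H, ex (fmc (fxa H n h) m : CI H) z =
      if m = n then h z else 0 := by
    intro m z hz
    rw [fx_fmc hP m hz]
    have e1 : ∀ y : ℝ, fxa H n h (y, z) * star (ee (Real.pi / H) m y) =
        h z * ee (Real.pi / H) (n + -m) y := fun y => by
      show h z * ee (Real.pi / H) n y * star (ee (Real.pi / H) m y) = _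
      rw [ee_add, fo_ee_neg, mul_assoc]
    simp only [e1]
    rw [intervalIntegral.integral_const_mul, int_ee (H := H)]
    by_cases hmn : m = n
    · rw [if_pos hmn, if_pos (by omega)]
      have : ((2 * H : ℝ) : ℂ) ≠ 0 := by
        rw [Complex.ofReal_ne_zero]
        positivity
      field_simp
    · rw [if_neg hmn, if_neg (by omega), mul_zero, mul_zero]
  refine lp.ext (funext fun m => ?_)
  rw [fHc_apply hP]
  by_cases hmn : m = n
  · subst hmn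
    rw [lp.single_apply_self]
    congr 1
    refine ci_ext fun z hz => ?_
    rw [key m z hz, if_pos rfl, hΨ z hz]
  · rw [lp.single_apply_ne _ _ _ hmn]
    have e2 : (fmc (fxa H n h) m : CI H) = 0 := ci_ext fun z hz => by
      rw [key m z hz, if_neg hmn, ex_zero]
    rw [e2, map_zero]

private theorem fx_fd (n : ℤ) {h : ℝ → ℂ} {h' : ℂ} {q : ℝ × ℝ} (hh : HasDerivAt h h' q.2)
    (v : ℝ × ℝ) : fderiv ℝ (fxa H n h) q v = v.2 * h' * ee (Real.pi / H) n q.1 +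
      v.1 * (kI (Real.pi / H) n * h q.2) * ee (Real.pi / H) n q.1 := by
  have h1 : HasFDerivAt (fun q : ℝ × ℝ => h q.2) _ q := hh.hasFDerivAt.comp q hasFDerivAt_snd
  have h2 : HasFDerivAt (fun q : ℝ × ℝ => ee (Real.pi / H) n q.1) _ q :=
    (fo_hasDerivAt_ee (Real.pi / H) n q.1).hasFDerivAt.comp q hasFDerivAt_fst
  have h3 : HasFDerivAt (fxa H n h) _ q := h1.mul h2
  rw [h3.fderiv]
  simp only [_root_.add_apply, _root_.smul_apply, smul_eq_mul,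
    ContinuousLinearMap.comp_apply, ContinuousLinearMap.coe_snd', ContinuousLinearMap.coe_fst',
    ContinuousLinearMap.toSpanSingleton_apply, Complex.real_smul]
  unfold kI
  ring

private theorem fx_dz (n : ℤ) {h h' : ℝ → ℂ} (hh : ∀ z, HasDerivAt h (h' z) z) :
    dZc (fxa H n h) = fxa H n h' := by
  funext q
  unfold dZc
  rw [fx_fd n (hh q.2)]
  show ((1:ℝ) : ℂ) * h' q.2 * _ + ((0:ℝ) : ℂ) * _ * _ = h' q.2 * _
  rw [Complex.ofReal_one, Complex.ofReal_zero]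
  ring

private theorem fx_dy (n : ℤ) {h h' : ℝ → ℂ} (hh : ∀ z, HasDerivAt h (h' z) z) :
    dYc (fxa H n h) = fxa H n (fun z => kI (Real.pi / H) n * h z) := by
  funext q
  unfold dYc
  rw [fx_fd n (hh q.2)]
  show ((0:ℝ) : ℂ) * h' q.2 * _ + ((1:ℝ) : ℂ) * _ * _ = _
  rw [Complex.ofReal_one, Complex.ofReal_zero]
  unfold fxa
  ring

/-! ### The primitive -/

private theorem fxE_eq (κ : ℝ) (f : ℝ → ℂ) : fxE κ f = fun z => ((Real.exp (-(κ * z)) : ℝ) : ℂ) *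
    ∫ s in (0:ℝ)..z, ((Real.exp (κ * s) : ℝ) : ℂ) * f s := by
  funext z
  unfold fxE
  rw [← intervalIntegral.integral_const_mul]
  refine intervalIntegral.integral_congr fun s _ => ?_
  show ((Real.exp (-(κ * (z - s))) : ℝ) : ℂ) * f s =
    ((Real.exp (-(κ * z)) : ℝ) : ℂ) * (((Real.exp (κ * s) : ℝ) : ℂ) * f s)
  rw [← mul_assoc, ← Complex.ofReal_mul, ← Real.exp_add]
  have e : -(κ * z) + κ * s = -(κ * (z - s)) := by ring
  rw [e]

private theorem fx_exp (κ : ℝ) : ContDiff ℝ ((⊤ : ℕ∞) : WithTop ℕ∞)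
    (fun z : ℝ => ((Real.exp (κ * z) : ℝ) : ℂ)) :=
  Complex.ofRealCLM.contDiff.comp (contDiff_const.mul contDiff_id).exp

private theorem fx_dexp (κ z : ℝ) : HasDerivAt (fun z : ℝ => ((Real.exp (-(κ * z)) : ℝ) : ℂ))
    (-((κ : ℝ) : ℂ) * ((Real.exp (-(κ * z)) : ℝ) : ℂ)) z := by
  have h0 : HasDerivAt (fun z : ℝ => κ * z) κ z := by
    have := (hasDerivAt_id z).const_mul κ
    rw [mul_one] at this
    exact this
  have h1 : HasDerivAt (fun z : ℝ => Real.exp (-(κ * z))) (Real.exp (-(κ * z)) * -κ) z := h0.neg.exp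
  have h2 := h1.ofReal_comp
  refine h2.congr_deriv ?_
  push_cast
  ring

private theorem fxE_deriv (κ : ℝ) {f : ℝ → ℂ} (hf : Continuous f) (z : ℝ) :
    HasDerivAt (fxE κ f) (f z - ((κ : ℝ) : ℂ) * fxE κ f z) z := by
  have hc : Continuous fun s : ℝ => ((Real.exp (κ * s) : ℝ) : ℂ) * f s :=
    (fx_exp κ).continuous.mul hf
  have h2 : HasDerivAt (fun z => ∫ s in (0:ℝ)..z, ((Real.exp (κ * s) : ℝ) : ℂ) * f s)
      (((Real.exp (κ * z) : ℝ) : ℂ) * f z) z := (hc.integral_hasStrictDerivAt 0 z).hasDerivAt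
  have h3 := (fx_dexp κ z).mul h2
  rw [fxE_eq]
  refine h3.congr_deriv ?_
  have e : ((Real.exp (-(κ * z)) : ℝ) : ℂ) * ((Real.exp (κ * z) : ℝ) : ℂ) = 1 := by
    rw [← Complex.ofReal_mul, ← Real.exp_add]
    simp
  linear_combination f z * e

private theorem fxE_smooth (κ : ℝ) {f : ℝ → ℂ} (hf : ContDiff ℝ ((⊤ : ℕ∞) : WithTop ℕ∞) f) :
    ContDiff ℝ ((⊤ : ℕ∞) : WithTop ℕ∞) (fxE κ f) := by
  have hs : ContDiff ℝ ((⊤ : ℕ∞) : WithTop ℕ∞) fun s : ℝ => ((Real.exp (κ * s) : ℝ) : ℂ) * f s :=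
    (fx_exp κ).mul hf
  have h2 : ∀ z, HasDerivAt (fun z => ∫ s in (0:ℝ)..z, ((Real.exp (κ * s) : ℝ) : ℂ) * f s)
      (((Real.exp (κ * z) : ℝ) : ℂ) * f z) z := fun z =>
    (hs.continuous.integral_hasStrictDerivAt 0 z).hasDerivAt
  have h3 : ContDiff ℝ ((⊤ : ℕ∞) : WithTop ℕ∞)
      (fun z => ∫ s in (0:ℝ)..z, ((Real.exp (κ * s) : ℝ) : ℂ) * f s) := by
    rw [contDiff_infty_iff_deriv]
    refine ⟨fun z => (h2 z).differentiableAt, ?_⟩
    rw [show deriv (fun z => ∫ s in (0:ℝ)..z, ((Real.exp (κ * s) : ℝ) : ℂ) * f s) =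
      fun s : ℝ => ((Real.exp (κ * s) : ℝ) : ℂ) * f s from funext fun z => (h2 z).deriv]
    exact hs
  have h4 : ContDiff ℝ ((⊤ : ℕ∞) : WithTop ℕ∞) (fun z : ℝ => ((Real.exp (-(κ * z)) : ℝ) : ℂ)) := by
    have := fx_exp (-κ)
    simpa only [neg_mul] using this
  rw [fxE_eq]
  exact h4.mul h3

private theorem fxE_zero (κ : ℝ) {f : ℝ → ℂ} {ε : ℝ} (hε : ∀ z, z < ε → f z = 0) {z : ℝ}
    (h0 : 0 ≤ z) (hz : z < ε) : fxE κ f z = 0 := by
  unfold fxE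
  have h1 : ∫ s in (0:ℝ)..z, ((Real.exp (-(κ * (z - s))) : ℝ) : ℂ) * f s = ∫ s in (0:ℝ)..z, (0:ℂ) := by
    refine intervalIntegral.integral_congr fun s hs => ?_
    rw [uIcc_of_le h0] at hs
    show ((Real.exp (-(κ * (z - s))) : ℝ) : ℂ) * f s = 0
    rw [hε s (lt_of_le_of_lt hs.2 hz), mul_zero]
  rw [h1]
  simp

/-! ### `∂_z E` and `∂_y E` -/

private theorem fx_E2 {θ : ℝ × ℝ → ℂ} (h : PC H θ) (h0 : ∀ y, θ (y, 0) = 0) (n : ℤ) :
    E2 (Real.pi / H * n) ((bHc θ : HH H) n) = (iota (fmc θ n : CI H) : Z2 H) := by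
  rw [← EE_apply, EE_bHc h h0, fHc_apply h]

private theorem fx_Yz {θ : ℝ × ℝ → ℂ} (h : PC H θ) (h0 : ∀ y, θ (y, 0) = 0) :
    Yz (Real.pi / H) (bHc θ) = (fHc (dZc θ) : HH H) := by
  refine lp.ext (funext fun n => ?_)
  rw [Yz_apply, tZ, fx_E2 h h0, bHc_apply h, fHc_apply h.zz, map_add, map_smul]
  abel

private theorem fx_Yy {θ : ℝ × ℝ → ℂ} (h : PC H θ) (h0 : ∀ y, θ (y, 0) = 0) :
    Yy (Real.pi / H) (bHc θ) = (fHc (dYc θ) : HH H) := by
  refine lp.ext (funext fun n => ?_)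
  rw [Yy_apply, tY, fx_E2 h h0, fHc_apply h.yy, fmc_yy h, map_smul]

/-- the mode of `B*` -/
private theorem fx_bHc {n : ℤ} {f : ℝ → ℂ} (hf : ContDiff ℝ ((⊤ : ℕ∞) : WithTop ℕ∞) f) {f₀ : CI H}
    (hf₀ : ∀ z ∈ Icc (0:ℝ) H, ex f₀ z = f z) :
    (bHc (mth H n f) : HH H) = lp.single 2 n (iota f₀ : Z2 H) := by
  have hE := fxE_smooth |Real.pi / H * n| hf
  have hP : PC H (mth H n f) := fx_PC n hE
  have hE0 : ContinuousOn (fxE |Real.pi / H * n| f) (Icc 0 H) := hE.continuous.continuousOn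
  have e1 : (fHc (mth H n f) : HH H) = lp.single 2 n (iota (mkCI _ hE0) : Z2 H) :=
    fx_fHc n hE fun z hz => ex_mkCI hE0 hz
  have hs2 : ContDiff ℝ ((⊤ : ℕ∞) : WithTop ℕ∞)
      (fun z => f z - ((|Real.pi / H * n| : ℝ) : ℂ) * fxE |Real.pi / H * n| f z) :=
    hf.sub (contDiff_const.mul hE)
  have e2 : (fHc (dZc (mth H n f)) : HH H) = lp.single 2 n
      (iota (f₀ - ((|Real.pi / H * n| : ℝ) : ℂ) • mkCI _ hE0) : Z2 H) := by
    rw [fx_mth, fx_dz n (fxE_deriv |Real.pi / H * n| hf.continuous)]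
    refine fx_fHc n hs2 fun z hz => ?_
    rw [ex_sub, ex_smul, ex_mkCI hE0 hz, hf₀ z hz]
  refine lp.ext (funext fun m => ?_)
  have e3 : (bHc (mth H n f) : HH H) m = ka (Real.pi / H) m • (fHc (mth H n f) : HH H) m +
      (fHc (dZc (mth H n f)) : HH H) m := by
    rw [bHc_apply hP, fHc_apply hP, fHc_apply hP.zz, map_add, map_smul]
  rw [e3, e1, e2]
  by_cases hmn : m = n
  · subst hmn
    rw [lp.single_apply_self, lp.single_apply_self, lp.single_apply_self, map_sub, map_smul]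
    show ((|Real.pi / H * m| : ℝ) : ℂ) • _ + _ = _
    abel
  · rw [lp.single_apply_ne _ _ _ hmn, lp.single_apply_ne _ _ _ hmn, lp.single_apply_ne _ _ _ hmn,
      smul_zero, add_zero]

private theorem fx_TT {n : ℤ} {f : ℝ → ℂ} (hf : ContDiff ℝ ((⊤ : ℕ∞) : WithTop ℕ∞) f)
    (hc : f H = 0) {Φ : CI H}
    (hΦ : ∀ z ∈ Icc (0:ℝ) H, ex Φ z = -deriv f z + ((|Real.pi / H * n| : ℝ) : ℂ) * f z) {f₀ : CI H}
    (hf₀ : ∀ z ∈ Icc (0:ℝ) H, ex f₀ z = f z) :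
    SC.TT (Real.pi / H) (lp.single 2 n (iota Φ : Z2 H)) = (lp.single 2 n (iota f₀ : Z2 H) : HH H) := by
  have hd : ContDiff ℝ ((⊤ : ℕ∞) : WithTop ℕ∞) (deriv f) := (contDiff_infty_iff_deriv.1 hf).2
  have hd0 : ContinuousOn (deriv f) (Icc 0 H) := hd.continuous.continuousOn
  have h1 : IsD f₀ (mkCI (deriv f) hd0) := by
    intro z hz
    rw [ex_mkCI hd0 hz]
    have h2 : HasDerivAt f (deriv f z) z := (hf.differentiable (by simp) z).hasDerivAt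
    exact h2.hasDerivWithinAt.congr (fun x hx => hf₀ x hx) (hf₀ z hz)
  have h2 : f₀ = Tz (Real.pi / H * n) (iota Φ) := by
    refine Tz_unique ?_ ?_
    · have e : ((|Real.pi / H * n| : ℝ) : ℂ) • (iota f₀ : Z2 H) - iota Φ =
          iota (mkCI (deriv f) hd0) := by
        rw [← map_smul, ← map_sub]
        congr 1
        refine ci_ext fun z hz => ?_
        rw [ex_sub, ex_smul, ex_mkCI hd0 hz, hΦ z hz, hf₀ z hz]
        ring
      rw [e]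
      exact IsD.dz h1
    · rw [hf₀ H H_memI, hc]
  refine lp.ext (funext fun m => ?_)
  rw [SC.TT_apply]
  by_cases hmn : m = n
  · subst hmn
    rw [lp.single_apply_self, lp.single_apply_self, T2_apply, ← h2]
  · rw [lp.single_apply_ne _ _ _ hmn, lp.single_apply_ne _ _ _ hmn, map_zero]

private theorem fx_ll {n : ℤ} {f : ℝ → ℂ} (hf : ContDiff ℝ ((⊤ : ℕ∞) : WithTop ℕ∞) f) {Φ : CI H}
    (hΦ : ∀ z ∈ Icc (0:ℝ) H, ex Φ z = -deriv f z + ((|Real.pi / H * n| : ℝ) : ℂ) * f z) :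
    (fHc (dLc (mth H n f)) : HH H) = lp.single 2 n (iota Φ : Z2 H) := by
  have hd : ContDiff ℝ ((⊤ : ℕ∞) : WithTop ℕ∞) (deriv f) := (contDiff_infty_iff_deriv.1 hf).2
  have hF : ContDiff ℝ ((⊤ : ℕ∞) : WithTop ℕ∞)
      (fun z => -deriv f z + ((|Real.pi / H * n| : ℝ) : ℂ) * f z) :=
    hd.neg.add (contDiff_const.mul hf)
  have hE := fxE_deriv |Real.pi / H * n| hf.continuous
  have hf1 : ∀ z, HasDerivAt f (deriv f z) z := fun z => (hf.differentiable (by simp) z).hasDerivAt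
  have e1 : dLc (mth H n f) =
      fxa H n (fun z => -deriv f z + ((|Real.pi / H * n| : ℝ) : ℂ) * f z) := by
    funext q
    have hz2 : dZc (fxa H n fun z => f z - ((|Real.pi / H * n| : ℝ) : ℂ) *
        fxE |Real.pi / H * n| f z) = fxa H n (fun z => deriv f z - ((|Real.pi / H * n| : ℝ) : ℂ) *
        (f z - ((|Real.pi / H * n| : ℝ) : ℂ) * fxE |Real.pi / H * n| f z)) :=
      fx_dz n (fun z => (hf1 z).sub ((hE z).const_mul ((|Real.pi / H * n| : ℝ) : ℂ)))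
    unfold dLc
    rw [fx_mth, fx_dy n hE, fx_dy n (fun z => (hE z).const_mul (kI (Real.pi / H) n)), fx_dz n hE,
      hz2]
    show -(kI (Real.pi / H) n * (kI (Real.pi / H) n * fxE |Real.pi / H * n| f q.2) * _ +
      (deriv f q.2 - ((|Real.pi / H * n| : ℝ) : ℂ) *
        (f q.2 - ((|Real.pi / H * n| : ℝ) : ℂ) * fxE |Real.pi / H * n| f q.2)) * _) =
      (-deriv f q.2 + ((|Real.pi / H * n| : ℝ) : ℂ) * f q.2) * _
    have e2 : kI (Real.pi / H) n * kI (Real.pi / H) n =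
        -(((|Real.pi / H * n| : ℝ) : ℂ) * ((|Real.pi / H * n| : ℝ) : ℂ)) :=
      kI_mul_kI (Real.pi / H) n
    linear_combination (-(fxE |Real.pi / H * n| f q.2 * ee (Real.pi / H) n q.1)) * e2
  rw [e1]
  exact fx_fHc n hF hΦ

/-- **One mode.** `f ∈ C_c^∞(0,H)`, `F = -f' + |k| f` on `[0,H]`, `φ` = the mode `n` with value `F`: `T φ` = the mode `f`,
`E (T φ) = θ`, `θ = mth` smooth, `2H`-periodic, `0` near `z = 0`, `-Δθ = φ`. The formulas with cut-offs: for `g` smooth,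
`fHc (g θ) = Ms g (E T φ)`, `fHc (∂_z (g θ)) = Ms g' (E T φ) + Ms g (Yz T φ)`, `fHc (∂_y (g θ)) = Ms g (Yy T φ)`,
`fHc (-Δ(g θ)) = Ms g φ - 2 Ms g' (Yz T φ) - Ms g'' (E T φ)`. -/
theorem mode_fHc {n : ℤ} {f : ℝ → ℂ} (hf : ContDiff ℝ ((⊤ : ℕ∞) : WithTop ℕ∞) f) (hc : CptI H f) {Φ : CI H}
    (hΦ : ∀ z ∈ Icc (0:ℝ) H, ex Φ z = -deriv f z + ((|Real.pi / H * n| : ℝ) : ℂ) * f z) {f₀ : CI H}
    (hf₀ : ∀ z ∈ Icc (0:ℝ) H, ex f₀ z = f z) {g : ℝ → ℝ}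
    (hg : ContDiff ℝ ((⊤ : ℕ∞) : WithTop ℕ∞) g) (c1 : Continuous (deriv g)) (c2 : Continuous (deriv (deriv g))) :
    PC H (fun q => (g q.2 : ℂ) * mth H n f q) ∧ (∃ ε > 0, ∀ y z, 0 ≤ z → z ≤ ε → mth H n f (y, z) = 0) ∧
    SC.TT (Real.pi / H) (lp.single 2 n (iota Φ : Z2 H)) = lp.single 2 n (iota f₀ : Z2 H) ∧
    (fHc (fun q => (g q.2 : ℂ) * mth H n f q) : HH H) =
      Ms (Pool.Agent.Lib.MP_79abb3_an.FW.rc g hg.continuous)
        (SC.EE (Real.pi / H) (SC.TT (Real.pi / H) (lp.single 2 n (iota Φ : Z2 H)))) ∧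
    (fHc (dZc fun q => (g q.2 : ℂ) * mth H n f q) : HH H) =
      Ms (Pool.Agent.Lib.MP_79abb3_an.FW.rc (deriv g) c1)
        (SC.EE (Real.pi / H) (SC.TT (Real.pi / H) (lp.single 2 n (iota Φ : Z2 H)))) +
      Ms (Pool.Agent.Lib.MP_79abb3_an.FW.rc g hg.continuous)
        (Yz (Real.pi / H) (SC.TT (Real.pi / H) (lp.single 2 n (iota Φ : Z2 H)))) ∧
    (fHc (dYc fun q => (g q.2 : ℂ) * mth H n f q) : HH H) =
      Ms (Pool.Agent.Lib.MP_79abb3_an.FW.rc g hg.continuous)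
        (Yy (Real.pi / H) (SC.TT (Real.pi / H) (lp.single 2 n (iota Φ : Z2 H)))) ∧
    (fHc (dLc fun q => (g q.2 : ℂ) * mth H n f q) : HH H) =
      Ms (Pool.Agent.Lib.MP_79abb3_an.FW.rc g hg.continuous) (lp.single 2 n (iota Φ : Z2 H)) -
      (2 : ℂ) • Ms (Pool.Agent.Lib.MP_79abb3_an.FW.rc (deriv g) c1)
        (Yz (Real.pi / H) (SC.TT (Real.pi / H) (lp.single 2 n (iota Φ : Z2 H)))) -
      Ms (Pool.Agent.Lib.MP_79abb3_an.FW.rc (deriv (deriv g)) c2)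
        (SC.EE (Real.pi / H) (SC.TT (Real.pi / H) (lp.single 2 n (iota Φ : Z2 H)))) := by
  obtain ⟨ε, hε, hc0⟩ := hc
  have hg1 : ContDiff ℝ ((⊤ : ℕ∞) : WithTop ℕ∞) (deriv g) := (contDiff_infty_iff_deriv.1 hg).2
  have hg2 : ContDiff ℝ ((⊤ : ℕ∞) : WithTop ℕ∞) (deriv (deriv g)) :=
    (contDiff_infty_iff_deriv.1 hg1).2
  have hP : PC H (mth H n f) := fx_PC n (fxE_smooth |Real.pi / H * n| hf)
  have hT := fx_TT hf (hc0 H (Or.inr (by linarith))) hΦ hf₀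
  have hB := fx_bHc (n := n) hf hf₀
  have hL := fx_ll hf hΦ
  have h0 : ∀ y, mth H n f (y, 0) = 0 := fun y => by
    rw [fx_mth]
    show fxE _ f 0 * _ = 0
    rw [fxE_zero _ (fun z hz => hc0 z (Or.inl hz)) le_rfl hε, zero_mul]
  have hT' : SC.TT (Real.pi / H) (lp.single 2 n (iota Φ : Z2 H)) = (bHc (mth H n f) : HH H) := by
    rw [hT, hB]
  have hM : ∀ {k : ℝ → ℝ} (_ : ContDiff ℝ ((⊤ : ℕ∞) : WithTop ℕ∞) k) {θ : ℝ × ℝ → ℂ} (_ : PC H θ),
      PC H (fun q => (k q.2 : ℂ) * θ q) := fun hk _ h => PC.mulR (PY.of_z H hk) h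
  refine ⟨hM hg hP, ⟨ε / 2, by linarith, fun y z hz0 hz => ?_⟩, hT, ?_, ?_, ?_, ?_⟩
  · rw [fx_mth]
    show fxE _ f z * _ = 0
    rw [fxE_zero _ (fun z hz => hc0 z (Or.inl hz)) hz0 (by linarith), zero_mul]
  · rw [hT', EE_bHc hP h0, Ms_fHc hg hP]
  · rw [hT', EE_bHc hP h0, fx_Yz hP h0, Ms_fHc hg hP.zz, Ms_fHc hg1 hP,
      ← fHc_add (hM hg1 hP) (hM hg hP.zz)]
    congr 1
    exact funext fun q => PC.zz_mul_z hg hP q
  · rw [hT', fx_Yy hP h0, Ms_fHc hg hP.yy]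
    congr 1
    exact funext fun q => PC.yy_mul_z hg hP q
  · rw [hT', EE_bHc hP h0, fx_Yz hP h0, ← hL, Ms_fHc hg hP.ll, Ms_fHc hg1 hP.zz, Ms_fHc hg2 hP,
      ← fHc_smul 2 (hM hg1 hP.zz), ← fHc_sub (hM hg hP.ll) ((hM hg1 hP.zz).cmul 2),
      ← fHc_sub ((hM hg hP.ll).sub ((hM hg1 hP.zz).cmul 2)) (hM hg2 hP)]
    congr 1
    refine funext fun q => ?_
    rw [PC.ll_mul_z hg hP q, mul_assoc]

end

end Pool.Agent.Lib.MP_79abb3_an.PD
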