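import Pool.Agent.Lib.MP_79abb3_an.PD.FeR3a
import Pool.Agent.Lib.MP_79abb3_an.PD.CoC5
import Pool.Agent.Lib.MP_79abb3_an.PD.StX
import Pool.Agent.Lib.MP_79abb3_an.PD.FeXa

/-!
Theorem D, block F: regularity in the strips, `θ = K_s φ`.
-/

set_option autoImplicit false
set_option linter.unusedSectionVars false

open MeasureTheory Set Filter Topology Function
open scoped ENNReal InnerProductSpace ComplexConjugate

namespace Pool.Agent.Lib.MP_79abb3_an.PD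

open Pool.Agent.Lib.MP_79abb3_an.SC Pool.Agent.Lib.MP_79abb3_an.P25


/-! ### Cut-offs -/

private theorem r3b_ex (a b : ℝ) {z : ℝ} (hz : z ∈ Icc (0:ℝ) Real.pi) :
    ex (ctC a b) z = ((ctf a b z : ℝ) : ℂ) := by
  unfold ctC
  rw [Pool.Agent.Lib.MP_79abb3_an.FW.ex_rc _ _ hz]

private theorem r3b_ex1 (a b : ℝ) {z : ℝ} (hz : z ∈ Icc (0:ℝ) Real.pi) :
    ex (ctC1 a b) z = ((deriv (ctf a b) z : ℝ) : ℂ) := by
  unfold ctC1
  rw [Pool.Agent.Lib.MP_79abb3_an.FW.ex_rc _ _ hz]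

private theorem r3b_ex2 (a b : ℝ) {z : ℝ} (hz : z ∈ Icc (0:ℝ) Real.pi) :
    ex (ctC2 a b) z = ((deriv (deriv (ctf a b)) z : ℝ) : ℂ) := by
  unfold ctC2
  rw [Pool.Agent.Lib.MP_79abb3_an.FW.ex_rc _ _ hz]

private theorem r3b_star (f : ℝ → ℝ) (hf : Continuous f) :
    star (Pool.Agent.Lib.MP_79abb3_an.FW.rc f hf : CI Real.pi) = Pool.Agent.Lib.MP_79abb3_an.FW.rc f hf := by
  refine ci_ext fun z hz => ?_
  rw [ex_star, Pool.Agent.Lib.MP_79abb3_an.FW.ex_rc _ _ hz]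
  exact Complex.conj_ofReal _

private theorem r3b_TTr (ω : ℝ) (f y : HP) : ⟪f, SC.TT ω y⟫_ℂ = ⟪SC.EE ω f, y⟫_ℂ := by
  rw [← inner_conj_symm, inner_TT, inner_conj_symm]

private theorem r3b_ctf1 {a a' : ℝ} (h : a < a') {z : ℝ} (hz : a' ≤ z) : deriv (ctf a a') z = 0 := by
  have h1 : ∀ y, a' < y → deriv (ctf a a') y = 0 := by
    intro y hy
    have h2 : ctf a a' =ᶠ[𝓝 y] fun _ => 0 := by
      filter_upwards [Ioi_mem_nhds hy] with x hx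
      exact ctf_zero h (le_of_lt hx)
    rw [h2.deriv_eq, deriv_const]
  have hc : Continuous (deriv (ctf a a')) := (ctf_smooth a a').continuous_deriv (by simp)
  have h3 : Tendsto (deriv (ctf a a')) (𝓝[>] z) (𝓝 (deriv (ctf a a') z)) := hc.continuousWithinAt
  have h4 : Tendsto (deriv (ctf a a')) (𝓝[>] z) (𝓝 0) := by
    refine tendsto_const_nhds.congr' ?_
    filter_upwards [self_mem_nhdsWithin] with y hy
    exact (h1 y (hz.trans_lt hy)).symm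
  exact tendsto_nhds_unique h3 h4

private theorem r3b_ctf2 {a a' : ℝ} (h : a < a') {z : ℝ} (hz : a' ≤ z) : deriv (deriv (ctf a a')) z = 0 := by
  have h1 : ∀ y, a' < y → deriv (deriv (ctf a a')) y = 0 := by
    intro y hy
    have h2 : deriv (ctf a a') =ᶠ[𝓝 y] fun _ => 0 := by
      filter_upwards [Ioi_mem_nhds hy] with x hx
      exact r3b_ctf1 h (le_of_lt hx)
    rw [h2.deriv_eq, deriv_const]
  have hc : Continuous (deriv (deriv (ctf a a'))) := (ctf_smooth1 a a').continuous_deriv (by simp)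
  have h3 : Tendsto (deriv (deriv (ctf a a'))) (𝓝[>] z) (𝓝 (deriv (deriv (ctf a a')) z)) := hc.continuousWithinAt
  have h4 : Tendsto (deriv (deriv (ctf a a'))) (𝓝[>] z) (𝓝 0) := by
    refine tendsto_const_nhds.congr' ?_
    filter_upwards [self_mem_nhdsWithin] with y hy
    exact (h1 y (hz.trans_lt hy)).symm
  exact tendsto_nhds_unique h3 h4

private theorem r3b_ctf1' {a a' : ℝ} (h : a < a') {z : ℝ} (hz : z ≤ a) : deriv (ctf a a') z = 0 := by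
  have h1 : ∀ y, y < a → deriv (ctf a a') y = 0 := by
    intro y hy
    have h2 : ctf a a' =ᶠ[𝓝 y] fun _ => 1 := by
      filter_upwards [Iio_mem_nhds hy] with x hx
      exact ctf_one h (le_of_lt hx)
    rw [h2.deriv_eq, deriv_const]
  have hc : Continuous (deriv (ctf a a')) := (ctf_smooth a a').continuous_deriv (by simp)
  have h3 : Tendsto (deriv (ctf a a')) (𝓝[<] z) (𝓝 (deriv (ctf a a') z)) := hc.continuousWithinAt
  have h4 : Tendsto (deriv (ctf a a')) (𝓝[<] z) (𝓝 0) := by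
    refine tendsto_const_nhds.congr' ?_
    filter_upwards [self_mem_nhdsWithin] with y hy
    exact (h1 y (lt_of_lt_of_le hy hz)).symm
  exact tendsto_nhds_unique h3 h4

/-- `n c = κ c` for `n = κ` where `c ≠ 0`. -/
private theorem r3b_mul {n c : CI Real.pi} {κ : ℂ} {b : ℝ} (hc : ∀ z ∈ Icc (0:ℝ) Real.pi, b ≤ z → ex c z = 0)
    (hn : ∀ z ∈ Icc (0:ℝ) Real.pi, z < b → ex n z = κ) : n * c = κ • c := by
  refine ci_ext fun z hz => ?_
  rw [ex_mul, ex_smul]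
  by_cases h : z < b
  · rw [hn z hz h]
  · rw [hc z hz (not_lt.1 h), mul_zero, mul_zero]

private theorem r3b_MsMs {n c : CI Real.pi} {κ : ℂ} {b : ℝ} (hc : ∀ z ∈ Icc (0:ℝ) Real.pi, b ≤ z → ex c z = 0)
    (hn : ∀ z ∈ Icc (0:ℝ) Real.pi, z < b → ex n z = κ) (x : HP) : Ms n (Ms c x) = κ • Ms c x := by
  rw [Ms_Ms, r3b_mul hc hn, Ms_smul]

private theorem r3b_T0 (k : ℝ) {c : CI Real.pi} {b : ℝ} (hc : ∀ z ∈ Icc (0:ℝ) Real.pi, b ≤ z → ex c z = 0)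
    {g : Z2 Real.pi} (hg : mz c g = g) {z : ℝ} (hz : z ∈ Icc (0:ℝ) Real.pi) (hb : b ≤ z) : ex (Tz k g) z = 0 := by
  rw [Tz_apply k g hz]
  have h1 : ∫ x in z..Real.pi, ((Real.exp (-|k| * (x - z)) : ℝ) : ℂ) * (g : Z2 Real.pi) x =
      ∫ x in z..Real.pi, (0 : ℂ) := by
    rw [intervalIntegral.integral_of_le hz.2, intervalIntegral.integral_of_le hz.2]
    have hsub : Ioc z Real.pi ⊆ Ioc (0:ℝ) Real.pi := fun x hx => ⟨lt_of_le_of_lt hz.1 hx.1, hx.2⟩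
    have hle : volume.restrict (Ioc z Real.pi) ≤ mH Real.pi := Measure.restrict_mono hsub le_rfl
    refine integral_congr_ae ?_
    have c1 := coe_mz c g
    rw [hg] at c1
    filter_upwards [Measure.absolutelyContinuous_of_le hle |>.ae_le c1, ae_restrict_mem measurableSet_Ioc] with x x1 x2
    have h2 : ex c x = 0 := hc x ⟨(hsub x2).1.le, x2.2⟩ (hb.trans x2.1.le)
    show ((Real.exp (-|k| * (x - z)) : ℝ) : ℂ) * (g : Z2 Real.pi) x = 0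
    rw [x1, h2, zero_mul, mul_zero]
  rw [h1]
  simp

private theorem r3b_T {c n : CI Real.pi} {κ : ℂ} {b : ℝ} (hc : ∀ z ∈ Icc (0:ℝ) Real.pi, b ≤ z → ex c z = 0)
    (hn : ∀ z ∈ Icc (0:ℝ) Real.pi, z < b → ex n z = κ) (ω : ℝ) {g : HP} (hg : Ms c g = g) :
    Ms n (SC.TT ω g) = κ • SC.TT ω g := by
  refine lp.ext (funext fun m => ?_)
  have h1 : mz c (g m) = g m := by rw [← Ms_apply, hg]
  rw [Ms_apply, lp.coeFn_smul, Pi.smul_apply, SC.TT_apply, T2_apply, mz_iota, ← map_smul]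
  congr 1
  refine ci_ext fun z hz => ?_
  rw [ex_mul, ex_smul]
  by_cases h : z < b
  · rw [hn z hz h]
  · rw [r3b_T0 (ω * m) hc h1 hz (not_lt.1 h), mul_zero, mul_zero]

private theorem r3b_zero (Y : HP) (h : ∀ (n : ℤ) (f : ℝ → ℝ), ContDiff ℝ ((⊤ : ℕ∞) : WithTop ℕ∞) f →
    CptI Real.pi f → ∀ f₀ : CI Real.pi, (∀ z ∈ Icc (0:ℝ) Real.pi, ex f₀ z = ((f z : ℝ) : ℂ)) →
    ⟪(lp.single 2 n (iota f₀ : Z2 Real.pi) : HP), Y⟫_ℂ = 0) : Y = 0 := by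
  refine lp.ext (funext fun n => ?_)
  have hi : Integrable (Y n : Z2 Real.pi) (mH Real.pi) := (Lp.memLp (Y n)).integrable (by norm_num)
  have key : ∀ᵐ z ∂(mH Real.pi), z ∈ Ioo (0:ℝ) Real.pi → (Y n : Z2 Real.pi) z = 0 := by
    refine isOpen_Ioo.ae_eq_zero_of_integral_contDiff_smul_eq_zero
      (hi.locallyIntegrable.locallyIntegrableOn _) fun χ hχ hc hs => ?_
    have hcpt : CptI Real.pi χ := by
      have hK : IsCompact (tsupport χ) := hc.isCompact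
      rcases (tsupport χ).eq_empty_or_nonempty with h0 | h0
      · exact ⟨1, one_pos, fun z _ => image_eq_zero_of_notMem_tsupport (by rw [h0]; exact notMem_empty z)⟩
      · have p1 := (hs (hK.sInf_mem h0)).1
        have p2 := (hs (hK.sSup_mem h0)).2
        refine ⟨min (sInf (tsupport χ)) (Real.pi - sSup (tsupport χ)), lt_min p1 (by linarith), fun z hz => ?_⟩
        refine image_eq_zero_of_notMem_tsupport fun h2 => ?_
        have q1 := csInf_le hK.bddBelow h2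
        have q2 := le_csSup hK.bddAbove h2
        rcases hz with hz | hz
        · linarith [min_le_left (sInf (tsupport χ)) (Real.pi - sSup (tsupport χ))]
        · linarith [min_le_right (sInf (tsupport χ)) (Real.pi - sSup (tsupport χ))]
    have h1 := h n χ hχ hcpt (Pool.Agent.Lib.MP_79abb3_an.FW.rc χ hχ.continuous)
      (fun z hz => Pool.Agent.Lib.MP_79abb3_an.FW.ex_rc χ hχ.continuous hz)
    rw [lp.inner_single_left, inner_Z2, intervalIntegral.integral_of_le Real.pi_pos.le] at h1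
    rw [← h1]
    refine integral_congr_ae ?_
    filter_upwards [coe_iota (Pool.Agent.Lib.MP_79abb3_an.FW.rc χ hχ.continuous : CI Real.pi),
      ae_restrict_mem measurableSet_Ioc] with z hz hz2
    rw [hz, Pool.Agent.Lib.MP_79abb3_an.FW.ex_rc χ hχ.continuous ⟨hz2.1.le, hz2.2⟩, Complex.real_smul]
    congr 1
    exact (Complex.conj_ofReal _).symm
  refine (Lp.eq_zero_iff_ae_eq_zero).2 ?_
  have hne : ∀ᵐ z ∂(mH Real.pi), z ≠ Real.pi := by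
    refine ae_restrict_of_ae ?_
    rw [ae_iff]
    simp
  filter_upwards [key, hne, ae_restrict_mem measurableSet_Ioc] with z h1 h2 h3
  exact h1 ⟨h3.1, lt_of_le_of_ne h3.2 h2⟩

/-! ### Functions of the strip -/

private theorem r3b_Yz {θ : ℝ × ℝ → ℂ} (h : PC Real.pi θ) (h0 : ∀ y, θ (y, 0) = 0) :
    Yz (Real.pi / Real.pi) (bHc θ) = (fHc (dZc θ) : HP) := by
  refine lp.ext (funext fun n => ?_)
  have h1 : E2 (Real.pi / Real.pi * n) ((bHc θ : HP) n) = (iota (fmc θ n : CI Real.pi) : Z2 Real.pi) := by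
    rw [← EE_apply, EE_bHc h h0, fHc_apply h]
  rw [Yz_apply, tZ, h1, bHc_apply h, fHc_apply h.zz, map_add, map_smul]
  abel

private theorem r3b_inner {θ η : ℝ × ℝ → ℂ} (hθ : PC Real.pi θ) (h0 : ∀ y, θ (y, 0) = 0) (hη : PC Real.pi η)
    (hv : VanC Real.pi η) : ⟪(bHc θ : HP), bHc η⟫_ℂ = ⟪(fHc θ : HP), fHc (dLc η)⟫_ℂ := by
  rw [← TT_ll hη hv, r3b_TTr, EE_bHc hθ h0]

private theorem r3b_ll {e e' : ℝ} {Θ : ℝ × ℝ → ℂ} (h : PC Real.pi Θ) :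
    (fHc (dLc fun q => ((ctf e e' q.2 : ℝ) : ℂ) * Θ q) : HP) = Ms (ctC e e') (fHc (dLc Θ)) -
      (2 : ℂ) • Ms (ctC1 e e') (fHc (dZc Θ)) - Ms (ctC2 e e') (fHc Θ) := by
  have hg := ctf_smooth e e'
  have hg1 := ctf_smooth1 e e'
  have hg2 : ContDiff ℝ ((⊤ : ℕ∞) : WithTop ℕ∞) (deriv (deriv (ctf e e'))) :=
    ((contDiff_infty_iff_deriv (𝕜 := ℝ)).1 hg1).2
  have hM : ∀ {k : ℝ → ℝ} (_ : ContDiff ℝ ((⊤ : ℕ∞) : WithTop ℕ∞) k) {θ : ℝ × ℝ → ℂ} (_ : PC Real.pi θ),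
      PC Real.pi (fun q => (k q.2 : ℂ) * θ q) := fun hk _ h => PC.mulR (PY.of_z Real.pi hk) h
  have a1 : (Ms (ctC e e') (fHc (dLc Θ)) : HP) = _ := Ms_fHc hg h.ll
  have a2 : (Ms (ctC1 e e') (fHc (dZc Θ)) : HP) = _ := Ms_fHc hg1 h.zz
  have a3 : (Ms (ctC2 e e') (fHc Θ) : HP) = _ := Ms_fHc hg2 h
  rw [a1, a2, a3, ← fHc_smul 2 (hM hg1 h.zz), ← fHc_sub (hM hg h.ll) ((hM hg1 h.zz).cmul 2),
    ← fHc_sub ((hM hg h.ll).sub ((hM hg1 h.zz).cmul 2)) (hM hg2 h)]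
  congr 1
  refine funext fun q => ?_
  rw [PC.ll_mul_z hg h q, mul_assoc]

private theorem r3b_up {θ : ℝ × ℝ → ℂ} {e1 e2 : ℝ} (hθ : TfS Real.pi e1 e2 θ) (k1 : 0 < e1) (y : ℝ) :
    θ (y, 0) = 0 := hθ.low y 0 k1

namespace FD
variable {D : Set ℂ} (F : FD D)

private theorem r3b_J (j : Fin F.n) {e : ℝ} (h : e ≤ 15 * F.u) : IsJ Real.pi (F.X j) e (F.J j) :=
  ⟨(F.hJ j).py, (F.hJ j).pos, fun q h0 h1 => (F.hJ j).eq q h0 (h1.trans h)⟩

private theorem r3b_supp (j : Fin F.n) {e e' : ℝ} (h0 : 0 < e) (h1 : e < e') (h2 : e' ≤ 13 * F.u)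
    {B : L2c →L[ℂ] HP} (hB : IsPB (F.X j) e e' (F.J j) B) (f : L2c) :
    Ms (ctC (13 * F.u) (14 * F.u)) (B f) = B f := by
  have hu := F.u0
  have hπ := F.uπ
  refine hB.supp (F.hX j) (F.r3b_J j (by linarith)) h0 h1 (by linarith) (fun z hz => ?_) f
  rw [r3b_ex _ _ ⟨hz.1, by linarith [hz.2]⟩, ctf_one (by linarith) (by linarith [hz.2]), Complex.ofReal_one]

private theorem r3b_pair (j : Fin F.n) {e e' : ℝ} (h0 : 0 < e) (h1 : e < e') (h2 : e' ≤ 13 * F.u)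
    {B : L2c →L[ℂ] HP} (hB : IsPB (F.X j) e e' (F.J j) B) {θ : ℝ × ℝ → ℂ} {e1 e2 : ℝ} (hθ : TfS Real.pi e1 e2 θ)
    (k1 : 0 < e1) (f : L2c) :
    ⟪cl2 (psh Real.pi (16 * F.u) (F.X j) fun q => ((ctf e e' q.2 : ℝ) : ℂ) * θ q), f⟫_ℂ =
      (2 * Real.pi : ℂ) * ⟪(fHc θ : HP), B f⟫_ℂ := by
  have hu := F.u0
  have hJ : IsJ Real.pi (F.X j) e' (F.J j) := F.r3b_J j (by linarith)
  have hχ : TfS Real.pi e1 (14 * F.u) (fun q => ((ctf (13 * F.u) (14 * F.u) q.2 : ℝ) : ℂ) * θ q) :=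
    ⟨PC.mulR (PY.of_z Real.pi (ctf_smooth _ _)) hθ.pc, fun y z hz => by rw [hθ.low y z hz, mul_zero],
      fun y z hz => by
        rw [ctf_zero (by linarith) (le_of_lt hz), Complex.ofReal_zero, zero_mul]⟩
  have e3 : (fun q : ℝ × ℝ => ((ctf e e' q.2 : ℝ) : ℂ) * θ q) =
      fun q => ((ctf e e' q.2 : ℝ) : ℂ) * (((ctf (13 * F.u) (14 * F.u) q.2 : ℝ) : ℂ) * θ q) := by
    funext q
    by_cases hq : q.2 < e'
    · rw [ctf_one (ρ := 13 * F.u) (ρ' := 14 * F.u) (z := q.2) (by linarith) (by linarith), Complex.ofReal_one, one_mul]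
    · rw [ctf_zero h1 (not_lt.1 hq), Complex.ofReal_zero, zero_mul, zero_mul]
  rw [e3, hB.pair (F.hX j) hJ h0 h1 (by linarith) hχ k1 (by linarith) f, ← Ms_fHc (ctf_smooth _ _) hθ.pc,
    innerMs (r3b_star _ _)]
  have e4 := F.r3b_supp j h0 h1 h2 hB f
  unfold ctC at e4
  rw [e4]

private theorem r3b_sx (ϕ : AdmS D) : sx D (gpV D ϕ) =
    gpX D ⟨(ϕ : ℂ → ℂ), ϕ.2.1, (tsupport_fderiv_subset ℝ).trans ϕ.2.2⟩ := by
  apply Subtype.ext
  rfl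

private theorem r3b_key (j : Fin F.n) {e e' : ℝ} (h0 : 0 < e) (h1 : e < e') (h2 : e' ≤ 13 * F.u) {L : XD D →L[ℂ] HP}
    {B : L2c →L[ℂ] HP} (hL : IsLa D (F.X j) e e' L) (hB : IsPB (F.X j) e e' (F.J j) B) {θ : ℝ × ℝ → ℂ} {e1 e2 : ℝ}
    (hθ : TfS Real.pi e1 e2 θ) (k1 : 0 < e1) (P : AdmS D)
    (hP : (P : ℂ → ℂ) = psh Real.pi (16 * F.u) (F.X j) fun q => ((ctf e e' q.2 : ℝ) : ℂ) * θ q) (q : SV D) :
    (2 * Real.pi : ℂ) * ⟪(bHc θ : HP), L (sx D q)⟫_ℂ = ⟪gpV D P, q⟫_ℂ -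
      (2 * Real.pi : ℂ) * ⟪(fHc θ : HP), (2 : ℂ) • Ms (ctC1 e e') (Yz (F.G j).ω (F.La j (sx D q))) +
        Ms (ctC2 e e') (SC.EE (F.G j).ω (F.La j (sx D q)))⟫_ℂ := by
  have hu := F.u0
  have c0 : Continuous fun q : SV D => F.La j (sx D q) := (F.La j).continuous.comp (sx D).continuous
  have hcl : IsClosed {q : SV D | (2 * Real.pi : ℂ) * ⟪(bHc θ : HP), L (sx D q)⟫_ℂ = ⟪gpV D P, q⟫_ℂ -
      (2 * Real.pi : ℂ) * ⟪(fHc θ : HP), (2 : ℂ) • Ms (ctC1 e e') (Yz (F.G j).ω (F.La j (sx D q))) +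
        Ms (ctC2 e e') (SC.EE (F.G j).ω (F.La j (sx D q)))⟫_ℂ} := by
    have c1 : Continuous fun q : SV D => L (sx D q) := L.continuous.comp (sx D).continuous
    have c2 : Continuous fun q : SV D => Ms (ctC1 e e') (Yz (F.G j).ω (F.La j (sx D q))) :=
      (Ms (ctC1 e e')).continuous.comp ((Yz (F.G j).ω).continuous.comp c0)
    have c3 : Continuous fun q : SV D => Ms (ctC2 e e') (SC.EE (F.G j).ω (F.La j (sx D q))) :=
      (Ms (ctC2 e e')).continuous.comp ((SC.EE (F.G j).ω).continuous.comp c0)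
    exact isClosed_eq (continuous_const.mul (continuous_const.inner c1))
      ((continuous_const.inner continuous_id).sub
        (continuous_const.mul (continuous_const.inner ((c2.const_smul (2 : ℂ)).add c3))))
  refine isClosed_property (gpV_dense D) hcl (fun ϕ => ?_) q
  show (2 * Real.pi : ℂ) * ⟪(bHc θ : HP), L (sx D (gpV D ϕ))⟫_ℂ = ⟪gpV D P, gpV D ϕ⟫_ℂ -
      (2 * Real.pi : ℂ) * ⟪(fHc θ : HP), (2 : ℂ) • Ms (ctC1 e e') (Yz (F.G j).ω (F.La j (sx D (gpV D ϕ)))) +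
        Ms (ctC2 e e') (SC.EE (F.G j).ω (F.La j (sx D (gpV D ϕ))))⟫_ℂ
  obtain ⟨ψ, hψ⟩ : ∃ ψ : Adm D, ψ = ⟨(ϕ : ℂ → ℂ), ϕ.2.1, (tsupport_fderiv_subset ℝ).trans ϕ.2.2⟩ := ⟨_, rfl⟩
  have hψc : (ψ : ℂ → ℂ) = (ϕ : ℂ → ℂ) := by rw [hψ]
  have h13 : 13 * F.u < 14 * F.u := by linarith
  obtain ⟨Θ, hΘ⟩ : ∃ Θ : ℝ × ℝ → ℂ, Θ = gaF (F.X j) (13 * F.u) (14 * F.u) (ψ : ℂ → ℂ) := ⟨_, rfl⟩
  have hpc : PC Real.pi Θ := by
    rw [hΘ]
    exact gaF_pc (F.hX j) h13 (Adm.cc ψ).smo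
  have hΘ0 : ∀ y, Θ (y, 0) = 0 := fun y => by
    obtain ⟨ε, hε, h3⟩ := gaF_con (F.hX j) F.hD.op (by linarith : 0 < 13 * F.u) h13 ψ
    rw [hΘ]
    exact h3 y 0 le_rfl hε
  have hη : gaF (F.X j) e e' (ψ : ℂ → ℂ) = fun q => ((ctf e e' q.2 : ℝ) : ℂ) * Θ q := by
    rw [hΘ]
    funext q
    unfold gaF
    by_cases hq : q.2 < e'
    · rw [ctf_one (ρ := 13 * F.u) (ρ' := 14 * F.u) (z := q.2) h13 (by linarith), Complex.ofReal_one, one_mul]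
    · rw [ctf_zero h1 (not_lt.1 hq), Complex.ofReal_zero, zero_mul, zero_mul]
  have hηpc : PC Real.pi (gaF (F.X j) e e' (ψ : ℂ → ℂ)) := gaF_pc (F.hX j) h1 (Adm.cc ψ).smo
  have hηv : VanC Real.pi (gaF (F.X j) e e' (ψ : ℂ → ℂ)) := gaF_van (F.hX j) h1 (by linarith) _
  have eB : B (cu (ψ : ℂ → ℂ)) = Ms (ctC e e') (fHc (dLc Θ)) := by
    have h3 := hB.Ga (F.hGa j) (F.hX j) (F.r3b_J j (by linarith)) h0 h1 h2 h13 (by linarith) (cuV D ψ)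
    rw [(F.hGa j).eq ψ, ← hΘ] at h3
    exact h3
  have eω : (F.G j).ω = Real.pi / Real.pi := (F.G j).hω
  have hg : ⟪gpV D P, gpV D ϕ⟫_ℂ = (2 * Real.pi : ℂ) * ⟪(fHc θ : HP), B (cu (ψ : ℂ → ℂ))⟫_ℂ := by
    rw [← F.r3b_pair j h0 h1 h2 hB hθ k1, ← hP, hψc]
    show ⟪gp (P : ℂ → ℂ), gp (ϕ : ℂ → ℂ)⟫_ℂ = _
    rw [← inner_conj_symm, ip_gp ϕ.2.1 P.2.1, inner_conj_symm]
  rw [hg, r3b_sx, ← hψ, hL.eq, (F.hLa j).eq, ← hΘ, r3b_inner hθ.pc (r3b_up hθ k1) hηpc hηv, hη, r3b_ll hpc, eB,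
    eω, r3b_Yz hpc hΘ0, EE_bHc hpc hΘ0, ← mul_sub, ← inner_sub_right]
  congr 2
  abel

/-- **The weak equation in the strip**: for `θ' ∈ TfS`, `φ ∈ XS D`:
`⟨B* θ', L_ω (js† φ)⟩ = ⟨θ', -Δ(ω θ)⟩`. For all `q ∈ SV D` (density, smooth `q = gpV ϕ`, integration by parts):
`2π ⟨B* θ', L_ω q⟩ = ⟨gpV (psh (ω θ')), q⟩ - 2π ⟨θ', 2 ω' θ_z + ω'' θ⟩`; for `q = js† φ` the first term is `⟨psh (ω θ'), φ⟩`
`= 2π ⟨θ', B φ⟩` (`IsPB.pair`). -/
theorem weak_gx (j : Fin F.n) {e e' : ℝ} (h0 : 0 < e) (h1 : e < e') (h2 : e' ≤ 13 * F.u) {L : XD D →L[ℂ] HP}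
    {B : L2c →L[ℂ] HP} (hL : IsLa D (F.X j) e e' L) (hB : IsPB (F.X j) e e' (F.J j) B) (φ : XS D)
    {θ : ℝ × ℝ → ℂ} {e1 e2 : ℝ} (hθ : TfS Real.pi e1 e2 θ) (k1 : 0 < e1) (k2 : e2 < Real.pi) :
    ⟪(bHc θ : HP), L (sx D (ja D φ))⟫_ℂ = ⟪(fHc θ : HP), F.gx j e e' B φ⟫_ℂ := by
  have hu := F.u0
  have hπ : (2 * Real.pi : ℂ) ≠ 0 := mul_ne_zero two_ne_zero (Complex.ofReal_ne_zero.2 Real.pi_pos.ne')
  have hω : TfS Real.pi e1 e' (fun q => ((ctf e e' q.2 : ℝ) : ℂ) * θ q) :=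
    ⟨PC.mulR (PY.of_z Real.pi (ctf_smooth _ _)) hθ.pc, fun y z hz => by rw [hθ.low y z hz, mul_zero],
      fun y z hz => by
        rw [ctf_zero h1 (le_of_lt hz), Complex.ofReal_zero, zero_mul]⟩
  have he : e' < 16 * F.u := by linarith
  obtain ⟨P, hP⟩ : ∃ P : AdmS D, (P : ℂ → ℂ) =
      psh Real.pi (16 * F.u) (F.X j) fun q => ((ctf e e' q.2 : ℝ) : ℂ) * θ q :=
    ⟨⟨_, ((F.hX j).psh_mem hω k1 he).1, ((F.hX j).psh_mem hω k1 he).2.trans ((F.hX j).image_sub k1 he)⟩, rfl⟩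
  have hk := F.r3b_key j h0 h1 h2 hL hB hθ k1 P hP (ja D φ)
  have e3 : ⟪gpV D P, ja D φ⟫_ℂ = (2 * Real.pi : ℂ) * ⟪(fHc θ : HP), B (φ : L2c)⟫_ℂ := by
    unfold ja
    rw [ContinuousLinearMap.adjoint_inner_right, js_gpV F.hD.bdd, ← F.r3b_pair j h0 h1 h2 hB hθ k1 (φ : L2c), ← hP]
    rfl
  refine mul_left_cancel₀ hπ ?_
  rw [hk, e3, ← mul_sub, ← inner_sub_right]
  rfl

/-- **Regularity**: `T (-Δ(ω θ)) = B* (ω θ)`. Let `y = T (gx φ) - L (js† φ)`. By `weak_gx` and `E (B* θ') = θ'`: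
`⟨B* θ', y⟩ = 0` for all `θ' ∈ TfS`, so every mode `y_n` is a multiple of `exp (|k_n| z)` (weak form of `B y = 0`: `DZ`-calculus, or
`mode_orth` in PD/StX); `y_n = 0` for `z ≥ e'` (`T` and `Ms ω`), hence `y = 0`. -/
theorem TT_gx (j : Fin F.n) {e e' : ℝ} (h0 : 0 < e) (h1 : e < e') (h2 : e' ≤ 13 * F.u) {L : XD D →L[ℂ] HP}
    {B : L2c →L[ℂ] HP} (hL : IsLa D (F.X j) e e' L) (hB : IsPB (F.X j) e e' (F.J j) B) (φ : XS D) :
    SC.TT (F.G j).ω (F.gx j e e' B φ) = L (sx D (ja D φ)) := by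
  have hu := F.u0
  have hπ := F.uπ
  have eω : (F.G j).ω = Real.pi / Real.pi := (F.G j).hω
  have h1314 : 13 * F.u < 14 * F.u := by linarith
  have h1415 : 14 * F.u < 15 * F.u := by linarith
  obtain ⟨y, hy⟩ : ∃ y : HP, y = SC.TT (F.G j).ω (F.gx j e e' B φ) - L (sx D (ja D φ)) := ⟨_, rfl⟩
  have hw : ∀ {θ : ℝ × ℝ → ℂ} {e1 e2 : ℝ}, TfS Real.pi e1 e2 θ → 0 < e1 → e2 < Real.pi → ⟪(bHc θ : HP), y⟫_ℂ = 0 := by
    intro θ e1 e2 hθ k1 k2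
    rw [hy, inner_sub_right, r3b_TTr, eω, EE_bHc hθ.pc (r3b_up hθ k1), F.weak_gx j h0 h1 h2 hL hB φ hθ k1 k2,
      sub_self]
  -- supports
  have c13 : ∀ z ∈ Icc (0:ℝ) Real.pi, 14 * F.u ≤ z → ex (ctC (13 * F.u) (14 * F.u)) z = 0 := fun z hz hz' => by
    rw [r3b_ex _ _ hz, ctf_zero h1314 hz', Complex.ofReal_zero]
  have cω : ∀ z ∈ Icc (0:ℝ) Real.pi, 14 * F.u ≤ z → ex (ctC e e') z = 0 := fun z hz hz' => by
    rw [r3b_ex _ _ hz, ctf_zero h1 (by linarith), Complex.ofReal_zero]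
  have cω1 : ∀ z ∈ Icc (0:ℝ) Real.pi, 14 * F.u ≤ z → ex (ctC1 e e') z = 0 := fun z hz hz' => by
    rw [r3b_ex1 _ _ hz, r3b_ctf1 h1 (by linarith), Complex.ofReal_zero]
  have m13 : ∀ z ∈ Icc (0:ℝ) Real.pi, z < e' → ex (ctC (13 * F.u) (14 * F.u)) z = 1 := fun z hz hz' => by
    rw [r3b_ex _ _ hz, ctf_one h1314 (by linarith), Complex.ofReal_one]
  have cω1' : ∀ z ∈ Icc (0:ℝ) Real.pi, e' ≤ z → ex (ctC1 e e') z = 0 := fun z hz hz' => by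
    rw [r3b_ex1 _ _ hz, r3b_ctf1 h1 hz', Complex.ofReal_zero]
  have cω2' : ∀ z ∈ Icc (0:ℝ) Real.pi, e' ≤ z → ex (ctC2 e e') z = 0 := fun z hz hz' => by
    rw [r3b_ex2 _ _ hz, r3b_ctf2 h1 hz', Complex.ofReal_zero]
  have hgx : Ms (ctC (13 * F.u) (14 * F.u)) (F.gx j e e' B φ) = F.gx j e e' B φ := by
    show Ms (ctC (13 * F.u) (14 * F.u)) (B (φ : L2c) -
      ((2 : ℂ) • Ms (ctC1 e e') (Yz (F.G j).ω (F.La j (sx D (ja D φ)))) +
        Ms (ctC2 e e') (SC.EE (F.G j).ω (F.La j (sx D (ja D φ)))))) = _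
    rw [map_sub, map_add, map_smul, F.r3b_supp j h0 h1 h2 hB, r3b_MsMs cω1' m13, r3b_MsMs cω2' m13, one_smul, one_smul]
    rfl
  have hyn : ∀ {n : CI Real.pi} {κ : ℂ}, (∀ z ∈ Icc (0:ℝ) Real.pi, z < 14 * F.u → ex n z = κ) → Ms n y = κ • y := by
    intro n κ hn
    rw [hy, map_sub, smul_sub, r3b_T c13 hn _ hgx, F.La_cut j h0 h1 h2 hL, map_add, smul_add, r3b_MsMs cω hn,
      r3b_MsMs cω1 hn]
  have hg1 : Ms (ctC (14 * F.u) (15 * F.u)) y = y := by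
    rw [hyn (κ := 1) fun z hz hz' => by rw [r3b_ex _ _ hz, ctf_one h1415 hz'.le, Complex.ofReal_one], one_smul]
  have hg0 : Ms (ctC1 (14 * F.u) (15 * F.u)) y = 0 := by
    rw [hyn (κ := 0) fun z hz hz' => by rw [r3b_ex1 _ _ hz, r3b_ctf1' h1415 hz'.le, Complex.ofReal_zero], zero_smul]
  have hy0 : y = 0 := by
    refine r3b_zero y fun n f hf hc f₀ hf₀ => ?_
    have hfc : ContDiff ℝ ((⊤ : ℕ∞) : WithTop ℕ∞) fun z : ℝ => ((f z : ℝ) : ℂ) :=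
      Complex.ofRealCLM.contDiff.comp hf
    have hcc : CptI Real.pi fun z : ℝ => ((f z : ℝ) : ℂ) := by
      obtain ⟨ε, hε, h3⟩ := hc
      exact ⟨ε, hε, fun z hz => by show ((f z : ℝ) : ℂ) = 0; rw [h3 z hz, Complex.ofReal_zero]⟩
    have hf1 : Continuous (deriv f) := hf.continuous_deriv (by simp)
    have hΦc : Continuous fun z : ℝ => -deriv f z + |Real.pi / Real.pi * n| * f z :=
      hf1.neg.add (continuous_const.mul hf.continuous)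
    have hΦ : ∀ z ∈ Icc (0:ℝ) Real.pi, ex (Pool.Agent.Lib.MP_79abb3_an.FW.rc _ hΦc : CI Real.pi) z =
        -deriv (fun z : ℝ => ((f z : ℝ) : ℂ)) z + ((|Real.pi / Real.pi * n| : ℝ) : ℂ) * ((f z : ℝ) : ℂ) := by
      intro z hz
      rw [Pool.Agent.Lib.MP_79abb3_an.FW.ex_rc _ _ hz,
        ((hf.differentiable (by simp) z).hasDerivAt.ofReal_comp).deriv]
      push_cast
      ring
    obtain ⟨h3, -, h4, h5, h6, -, -⟩ := mode_fHc (H := Real.pi) (n := n) hfc hcc hΦ hf₀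
      (ctf_smooth (14 * F.u) (15 * F.u)) ((ctf_smooth (14 * F.u) (15 * F.u)).continuous_deriv (by simp))
      ((ctf_smooth1 (14 * F.u) (15 * F.u)).continuous_deriv (by simp))
    rw [h4] at h5 h6
    obtain ⟨ε, hε, hcz⟩ := hcc
    have hT : TfS Real.pi ε (15 * F.u) (fun q => ((ctf (14 * F.u) (15 * F.u) q.2 : ℝ) : ℂ) *
        mth Real.pi n (fun z : ℝ => ((f z : ℝ) : ℂ)) q) := by
      refine ⟨h3, fun y z hz => ?_, fun y z hz => ?_⟩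
      · have h7 : mth Real.pi n (fun z : ℝ => ((f z : ℝ) : ℂ)) (y, z) = 0 := by
          unfold mth
          have h8 : ∫ s in (0:ℝ)..z, ((Real.exp (-(|Real.pi / Real.pi * n| * (z - s))) : ℝ) : ℂ) *
              ((f s : ℝ) : ℂ) = 0 := by
            rw [intervalIntegral.integral_congr (g := fun _ => (0 : ℂ))]
            · simp
            · intro s hs
              have h9 : s < ε := lt_of_le_of_lt hs.2 (max_lt hε hz)
              have h10 : ((f s : ℝ) : ℂ) = 0 := hcz s (Or.inl h9)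
              show _ * ((f s : ℝ) : ℂ) = 0
              rw [h10, mul_zero]
          show (∫ s in (0:ℝ)..z, ((Real.exp (-(|Real.pi / Real.pi * n| * (z - s))) : ℝ) : ℂ) *
              ((f s : ℝ) : ℂ)) * _ = 0
          rw [h8, zero_mul]
        rw [h7, mul_zero]
      · rw [ctf_zero h1415 (le_of_lt hz), Complex.ofReal_zero, zero_mul]
    have hb := hw hT hε (by linarith)
    obtain ⟨S, hS⟩ : ∃ S : HP, S = lp.single 2 n (iota f₀ : Z2 Real.pi) := ⟨_, rfl⟩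
    have hbH : (bHc (fun q => ((ctf (14 * F.u) (15 * F.u) q.2 : ℝ) : ℂ) *
        mth Real.pi n (fun z : ℝ => ((f z : ℝ) : ℂ)) q) : HP) =
        Ms (ctC (14 * F.u) (15 * F.u)) S + Ms (ctC1 (14 * F.u) (15 * F.u)) (SC.EE (Real.pi / Real.pi) S) := by
      refine lp.ext (funext fun m => ?_)
      have e3 : (bHc (fun q => ((ctf (14 * F.u) (15 * F.u) q.2 : ℝ) : ℂ) *
          mth Real.pi n (fun z : ℝ => ((f z : ℝ) : ℂ)) q) : HP) m =
          ka (Real.pi / Real.pi) m • (fHc (fun q => ((ctf (14 * F.u) (15 * F.u) q.2 : ℝ) : ℂ) *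
            mth Real.pi n (fun z : ℝ => ((f z : ℝ) : ℂ)) q) : HP) m +
          (fHc (dZc fun q => ((ctf (14 * F.u) (15 * F.u) q.2 : ℝ) : ℂ) *
            mth Real.pi n (fun z : ℝ => ((f z : ℝ) : ℂ)) q) : HP) m := by
        rw [bHc_apply h3, fHc_apply h3, fHc_apply h3.zz, map_add, map_smul]
      rw [e3, h5, h6, ← hS, lp.coeFn_add, Pi.add_apply, lp.coeFn_add, Pi.add_apply, Ms_apply, Ms_apply, Ms_apply,
        Ms_apply, Ms_apply, Yz_apply, tZ, EE_apply, map_sub, map_smul]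
      unfold ctC ctC1
      abel
    have s0 : star (ctC (14 * F.u) (15 * F.u)) = ctC (14 * F.u) (15 * F.u) := r3b_star _ _
    have s1 : star (ctC1 (14 * F.u) (15 * F.u)) = ctC1 (14 * F.u) (15 * F.u) := r3b_star _ _
    rw [hbH, inner_add_left, innerMs s0, hg1, innerMs s1, hg0, inner_zero_right, add_zero, hS] at hb
    exact hb
  rw [hy] at hy0
  exact sub_eq_zero.1 hy0

theorem TT_gs (j : Fin F.n) (φ : XS D) : SC.TT (F.G j).ω (F.gs j φ) = F.Lp j (sx D (ja D φ)) :=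
  F.TT_gx j (by linarith [F.u0]) (by linarith [F.u0]) (by linarith [F.u0]) (F.hLp j) (F.hBp j) φ

theorem TT_ge (j : Fin F.n) (φ : XS D) : SC.TT (F.G j).ω (F.ge j φ) = F.Le j (sx D (ja D φ)) :=
  F.TT_gx j (by linarith [F.u0]) (by linarith [F.u0]) (by linarith [F.u0]) (F.hLe j) (F.hBe j) φ

/-- `-Δ((η - η⁺) θ)` is admissible for the layers: `T (ge - gs) = B*((η - η⁺) θ)` vanishes for `z < 2u`, so its trace is `0`. -/
theorem PP_ge_gs (j : Fin F.n) (φ : XS D) : SC.PP (F.G j).ω (F.ge j φ - F.gs j φ) = F.ge j φ - F.gs j φ := by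
  have hu := F.u0
  have hπ := F.uπ
  have h3 : SC.TT (F.G j).ω (F.ge j φ - F.gs j φ) = F.Le j (sx D (ja D φ)) - F.Lp j (sx D (ja D φ)) := by
    rw [map_sub, F.TT_ge j φ, F.TT_gs j φ]
  have hm : ∀ z ∈ Icc (0:ℝ) Real.pi, 2 * F.u ≤ z → ex (ctC (1 * F.u) (2 * F.u)) z = 0 := fun z hz hz' => by
    rw [r3b_ex _ _ hz, ctf_zero (by linarith) hz', Complex.ofReal_zero]
  have hMs : ∀ {n : CI Real.pi} {κ : ℂ}, (∀ z ∈ Icc (0:ℝ) Real.pi, z < 2 * F.u → ex n z = κ) → ∀ x : HP,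
      Ms (ctC (1 * F.u) (2 * F.u)) (Ms n x) = κ • Ms (ctC (1 * F.u) (2 * F.u)) x := by
    intro n κ hn x
    rw [Ms_comm, r3b_MsMs hm hn]
  have hL : ∀ {a a' : ℝ}, 2 * F.u ≤ a → a < a' → a' ≤ 13 * F.u → ∀ {L : XD D →L[ℂ] HP},
      IsLa D (F.X j) a a' L → Ms (ctC (1 * F.u) (2 * F.u)) (L (sx D (ja D φ))) =
        Ms (ctC (1 * F.u) (2 * F.u)) (F.La j (sx D (ja D φ))) := by
    intro a a' k1 k2 k3 L hL
    rw [F.La_cut j (by linarith) k2 k3 hL, map_add,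
      hMs (κ := 1) fun z hz hz' => by rw [r3b_ex _ _ hz, ctf_one k2 (by linarith), Complex.ofReal_one],
      hMs (κ := 0) fun z hz hz' => by rw [r3b_ex1 _ _ hz, r3b_ctf1' k2 (by linarith), Complex.ofReal_zero],
      one_smul, zero_smul, add_zero]
  have h4 : Ms (ctC (1 * F.u) (2 * F.u)) (SC.TT (F.G j).ω (F.ge j φ - F.gs j φ)) = 0 := by
    rw [h3, map_sub, hL (by linarith) (by linarith) (by linarith) (F.hLe j),
      hL (by linarith) (by linarith) (by linarith) (F.hLp j), sub_self]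
  refine lp.ext (funext fun n => ?_)
  rw [PP_apply, P2_iff]
  have h5 : mz (ctC (1 * F.u) (2 * F.u)) ((SC.TT (F.G j).ω (F.ge j φ - F.gs j φ) : HP) n) = 0 := by
    rw [← Ms_apply, h4]
    rfl
  rw [SC.TT_apply, T2_apply, mz_iota] at h5
  have h6 : ctC (1 * F.u) (2 * F.u) * Tz ((F.G j).ω * n) ((F.ge j φ - F.gs j φ : HP) n) = 0 :=
    iota_injective (by rw [map_zero]; exact h5)
  have h7 := congrArg (fun f : CI Real.pi => ex f 0) h6
  simp only [ex_mul, ex_zero] at h7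
  rw [r3b_ex _ _ zero_memI, ctf_one (by linarith) (by linarith), Complex.ofReal_one, one_mul] at h7
  exact h7

end FD

end Pool.Agent.Lib.MP_79abb3_an.PD
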