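import Pool.Agent.Lib.MP_79abb3_an.PD.FeR2
import Pool.Agent.Lib.MP_79abb3_an.PD.FeR3b

/-!
Theorem D, block F: the diffusion identity of the partition.
-/

set_option autoImplicit false
set_option linter.unusedSectionVars false

open MeasureTheory Set Filter Topology Function
open scoped ENNReal InnerProductSpace ComplexConjugate

namespace Pool.Agent.Lib.MP_79abb3_an.PD

open Pool.Agent.Lib.MP_79abb3_an.SC Pool.Agent.Lib.MP_79abb3_an.P25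

section
variable {D : Set ℂ}

private theorem fer3_bm {f : ℂ → ℂ} (h : Cc f) : ∃ c, Bm f c := by
  obtain ⟨c, hc⟩ := h.smo.continuous.bounded_above_of_compact_support h.cpt
  exact ⟨c, h.smo.continuous.aestronglyMeasurable, hc⟩

private theorem fer3_dense_Cc {P : L2c → Prop} (hP : IsClosed {f | P f}) (h : ∀ g : ℂ → ℂ, Cc g → P (cl2 g))
    (f : L2c) : P f := by
  have hc : f ∈ closure {f : L2c | P f} := by
    rw [Metric.mem_closure_iff]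
    intro ε hε
    obtain ⟨g, hg, h1⟩ := cl2_dense f (half_pos hε)
    exact ⟨cl2 g, h g hg, by rw [dist_eq_norm]; linarith⟩
  rw [hP.closure_eq] at hc
  exact hc

private theorem fer3_cel {c : ℝ} (G : ℝ × ℝ → ℂ) (hc : c < Real.pi)
    (h0 : ∀ q ∈ Cel Real.pi, ¬(0 < q.2 ∧ q.2 < c) → G q = 0) : ∫ q in Cel Real.pi, G q = ∫ q in Rc Real.pi c, G q := by
  have h1 : ∫ q in Cel Real.pi, G q = ∫ q in Icc (-Real.pi) Real.pi ×ˢ Ioo 0 c, G q := by
    refine setIntegral_eq_of_subset_of_forall_sdiff_eq_zero (measurableSet_Icc.prod measurableSet_Icc) ?_ ?_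
    · exact Set.prod_mono le_rfl (fun z hz => ⟨hz.1.le, (hz.2.trans hc).le⟩)
    · rintro q ⟨hq, hq'⟩
      exact h0 q hq (fun h => hq' ⟨hq.1, h⟩)
  rw [h1]
  exact setIntegral_congr_set (Measure.set_prod_ae_eq Ioc_ae_eq_Icc.symm (ae_eq_refl _))

private theorem fer3_ev {f g : ℂ → ℂ} {x : ℂ} (h : f =ᶠ[𝓝 x] g) : px f x = px g x ∧ py f x = py g x ∧
    lap f x = lap g x := by
  have key : ∀ {f g : ℂ → ℂ} (v : ℂ), f =ᶠ[𝓝 x] g → (fun y => fderiv ℝ f y v) =ᶠ[𝓝 x] fun y => fderiv ℝ g y v := by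
    intro f g v hg
    filter_upwards [eventually_eventually_nhds.2 hg] with p hp
    rw [Filter.EventuallyEq.fderiv_eq hp]
  refine ⟨(key 1 h).eq_of_nhds, (key Complex.I h).eq_of_nhds, ?_⟩
  show px (px f) x + py (py f) x = px (px g) x + py (py g) x
  have h1 : px (px f) x = px (px g) x := (key 1 (key 1 h)).eq_of_nhds
  have h2 : py (py f) x = py (py g) x := (key Complex.I (key Complex.I h)).eq_of_nhds
  rw [h1, h2]

private theorem fer3_cst (a x : ℂ) : px (fun _ => a) x = 0 ∧ py (fun _ => a) x = 0 ∧ lap (fun _ => a) x = 0 := by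
  have e1 : px (fun _ : ℂ => a) = fun _ => 0 := by
    funext y
    unfold px
    rw [fderiv_fun_const]
    rfl
  have e2 : py (fun _ : ℂ => a) = fun _ => 0 := by
    funext y
    unfold py
    rw [fderiv_fun_const]
    rfl
  have e3 : px (fun _ : ℂ => (0 : ℂ)) x = 0 := by
    unfold px
    rw [fderiv_fun_const]
    rfl
  have e4 : py (fun _ : ℂ => (0 : ℂ)) x = 0 := by
    unfold py
    rw [fderiv_fun_const]
    rfl
  refine ⟨by rw [e1], by rw [e2], ?_⟩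
  unfold lap
  rw [e1, e2, e3, e4, add_zero]

private theorem fer3_dev {θ η : ℝ × ℝ → ℂ} {q : ℝ × ℝ} (h : θ =ᶠ[𝓝 q] η) : dYc θ q = dYc η q ∧ dZc θ q = dZc η q ∧
    dLc θ q = dLc η q := by
  have key : ∀ {θ η : ℝ × ℝ → ℂ} (v : ℝ × ℝ), θ =ᶠ[𝓝 q] η →
      (fun q => fderiv ℝ θ q v) =ᶠ[𝓝 q] fun q => fderiv ℝ η q v := by
    intro θ η v hg
    filter_upwards [eventually_eventually_nhds.2 hg] with p hp
    rw [Filter.EventuallyEq.fderiv_eq hp]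
  have e1 : dYc θ =ᶠ[𝓝 q] dYc η := key (1, 0) h
  have e2 : dZc θ =ᶠ[𝓝 q] dZc η := key (0, 1) h
  have e3 : dYc (dYc θ) =ᶠ[𝓝 q] dYc (dYc η) := key (1, 0) e1
  have e4 : dZc (dZc θ) =ᶠ[𝓝 q] dZc (dZc η) := key (0, 1) e2
  refine ⟨e1.eq_of_nhds, e2.eq_of_nhds, ?_⟩
  unfold dLc
  rw [e3.eq_of_nhds, e4.eq_of_nhds]

private theorem fer3_lt {a : ℝ} {q : ℝ × ℝ} (h : q.2 < a) : ∀ᶠ p : ℝ × ℝ in 𝓝 q, p.2 < a :=
  (isOpen_lt continuous_snd continuous_const).mem_nhds h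

private theorem fer3_gt {a : ℝ} {q : ℝ × ℝ} (h : a < q.2) : ∀ᶠ p : ℝ × ℝ in 𝓝 q, a < p.2 :=
  (isOpen_lt continuous_const continuous_snd).mem_nhds h

/-- derivatives of `1 - g(z)` -/
private theorem fer3_dz {g : ℝ → ℝ} (hg : ContDiff ℝ ((⊤ : ℕ∞) : WithTop ℕ∞) g)
    (hg1 : ContDiff ℝ ((⊤ : ℕ∞) : WithTop ℕ∞) (deriv g)) (q : ℝ × ℝ) :
    dYc (fun q => ((1 - g q.2 : ℝ) : ℂ)) q = 0 ∧ dZc (fun q => ((1 - g q.2 : ℝ) : ℂ)) q = -((deriv g q.2 : ℝ) : ℂ) ∧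
    dLc (fun q => ((1 - g q.2 : ℝ) : ℂ)) q = ((deriv (deriv g) q.2 : ℝ) : ℂ) := by
  have key : ∀ {f : ℝ → ℝ}, ContDiff ℝ ((⊤ : ℕ∞) : WithTop ℕ∞) f → ∀ (q v : ℝ × ℝ),
      fderiv ℝ (fun q : ℝ × ℝ => ((f q.2 : ℝ) : ℂ)) q v = ((deriv f q.2 * v.2 : ℝ) : ℂ) := by
    intro f hf q v
    have h1 : HasDerivAt f (deriv f q.2) q.2 := ((hf.differentiable (by simp)) q.2).hasDerivAt
    have h2 : HasFDerivAt (fun q : ℝ × ℝ => f q.2) (deriv f q.2 • ContinuousLinearMap.snd ℝ ℝ ℝ) q :=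
      h1.comp_hasFDerivAt q hasFDerivAt_snd
    have h3 : HasFDerivAt (fun q : ℝ × ℝ => ((f q.2 : ℝ) : ℂ))
        (Complex.ofRealCLM.comp (deriv f q.2 • ContinuousLinearMap.snd ℝ ℝ ℝ)) q :=
      Complex.ofRealCLM.hasFDerivAt.comp q h2
    rw [h3.fderiv]
    rfl
  have hg0 : ContDiff ℝ ((⊤ : ℕ∞) : WithTop ℕ∞) fun z => 1 - g z := contDiff_const.sub hg
  have hd : deriv (fun z => 1 - g z) = fun z => -deriv g z := by
    funext z
    rw [deriv_const_sub]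
  have hd1 : deriv (fun z => -deriv g z) = fun z => -deriv (deriv g) z := by
    funext z
    exact deriv.fun_neg
  have e1 : dYc (fun q => ((1 - g q.2 : ℝ) : ℂ)) = fun _ => 0 := by
    funext q
    show fderiv ℝ (fun q : ℝ × ℝ => (((fun z => 1 - g z) q.2 : ℝ) : ℂ)) q (1, 0) = 0
    rw [key hg0]
    simp
  have e2 : dZc (fun q => ((1 - g q.2 : ℝ) : ℂ)) = fun q => (((fun z => -deriv g z) q.2 : ℝ) : ℂ) := by
    funext q
    show fderiv ℝ (fun q : ℝ × ℝ => (((fun z => 1 - g z) q.2 : ℝ) : ℂ)) q (0, 1) = _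
    rw [key hg0, hd]
    simp
  refine ⟨by rw [e1], by rw [e2]; simp, ?_⟩
  unfold dLc
  rw [e1, e2]
  have e3 : dYc (fun _ : ℝ × ℝ => (0 : ℂ)) q = 0 := by
    unfold dYc
    rw [fderiv_fun_const]
    rfl
  have e4 : dZc (fun q : ℝ × ℝ => (((fun z => -deriv g z) q.2 : ℝ) : ℂ)) q = -((deriv (deriv g) q.2 : ℝ) : ℂ) := by
    show fderiv ℝ (fun q : ℝ × ℝ => (((fun z => -deriv g z) q.2 : ℝ) : ℂ)) q (0, 1) = _
    rw [key hg1.neg, hd1]
    simp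
  rw [e3, e4]
  ring

private theorem fer3_bHc {θ : ℝ × ℝ → ℂ} (h : PC Real.pi θ) (n : ℤ) :
    bHc θ n = ka (Real.pi / Real.pi) n • (fHc θ : HP) n + (fHc (dZc θ) : HP) n := by
  rw [bHc_apply h, fHc_apply h, fHc_apply h.zz, map_add, map_smul]

end

namespace FD
variable {D : Set ℂ} (F : FD D)

private theorem fer3_ring (j : Fin F.n) : Wc (F.X j) (16 * F.u) ⊆ F.F j '' ringc F.ρ := by
  rintro _ ⟨q, ⟨h0, h1⟩, rfl⟩
  refine ⟨Complex.exp (Complex.I * cxp q), ?_, (F.eX j q).symm⟩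
  have hre : (Complex.I * cxp q).re = -q.2 := by
    rw [cxp]
    simp
  have hn : ‖Complex.exp (Complex.I * cxp q)‖ = Real.exp (-q.2) := by rw [Complex.norm_exp, hre]
  have hρ := F.fl.cols.h0
  constructor
  · rw [hn]
    have h2 : q.2 < Real.log (1 / F.ρ) := lt_of_lt_of_le h1 F.uρ
    rw [one_div, Real.log_inv] at h2
    have h3 : Real.log F.ρ < -q.2 := by linarith
    calc F.ρ = Real.exp (Real.log F.ρ) := (Real.exp_log hρ).symm
      _ < Real.exp (-q.2) := Real.exp_lt_exp.2 h3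
  · rw [hn]
    exact Real.exp_le_one_iff.2 (by linarith)

private theorem fer3_dis : Pairwise (Disjoint on fun j => Wc (F.X j) (16 * F.u)) := by
  intro i j hij
  exact (F.fl.cols.dis hij).mono (F.fer3_ring i) (F.fer3_ring j)

private theorem fer3_meas (j : Fin F.n) : MeasurableSet (Wc (F.X j) (16 * F.u)) :=
  ((F.hX j).isOpen_Wc le_rfl).measurableSet

private theorem fer3_cc_im (x : ℂ) : (F.cc x).im = 0 := by
  have h := F.cc_cc.real x
  have h1 := congrArg Complex.im h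
  rw [Complex.conj_im] at h1
  linarith

private noncomputable def fer3_M (j : Fin F.n) : ℂ → ℂ :=
  (Wc (F.X j) (16 * F.u)).indicator fun x => 1 - F.cc x

private theorem fer3_Mb (j : Fin F.n) : Bm (F.fer3_M j) 2 := by
  refine ⟨((continuous_const.sub F.cc_cc.cc.smo.continuous).aestronglyMeasurable).indicator (F.fer3_meas j), fun x => ?_⟩
  unfold fer3_M
  by_cases hx : x ∈ Wc (F.X j) (16 * F.u)
  · rw [indicator_of_mem hx]
    have h1 := F.cc_01 x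
    have h2 : (1 - F.cc x).re = 1 - (F.cc x).re := by simp
    have h3 : (1 - F.cc x).im = 0 := by simp [F.fer3_cc_im x]
    have h4 := Complex.norm_le_abs_re_add_abs_im (1 - F.cc x)
    rw [h2, h3, abs_of_nonneg (by linarith [h1.2]), abs_zero] at h4
    linarith [h1.1]
  · rw [indicator_of_notMem hx, norm_zero]
    norm_num

private theorem fer3_two (j : Fin F.n) (f g : L2c) :
    (2 * Real.pi : ℂ) * ⟪F.Bp j f, SC.cm (F.G j).a (F.Be j g)⟫_ℂ = ⟪mm (F.fer3_M j) f, g⟫_ℂ := by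
  have hu := F.u0
  have hJ : IsJ Real.pi (F.X j) (8 * F.u) (F.J j) :=
    ⟨(F.hJ j).py, (F.hJ j).pos, fun q h0 h1 => (F.hJ j).eq q h0 (by linarith)⟩
  rw [F.G_a j]
  refine IsPB.two (F.hBp j) (F.hBe j) (F.hX j) hJ (by linarith) (by linarith) le_rfl (by linarith) (by linarith)
    (F.fer3_Mb j) (fun q h0 h1 => ?_) (fun x hx => ?_) f g
  · unfold fer3_M
    rw [indicator_of_mem (show F.X j q ∈ Wc (F.X j) (16 * F.u) from ⟨q, ⟨h0, h1⟩, rfl⟩), F.cc_X j q h0 h1]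
    push_cast
    ring
  · unfold fer3_M
    exact indicator_of_notMem hx _

private theorem fer3_sum (x : ℂ) (hx : x ∈ D) : F.cc x + ∑ j, F.fer3_M j x = 1 := by
  by_cases h : ∃ j, x ∈ Wc (F.X j) (16 * F.u)
  · obtain ⟨j, hj⟩ := h
    rw [Finset.sum_eq_single j]
    · unfold fer3_M
      rw [indicator_of_mem hj]
      ring
    · intro i _ hij
      unfold fer3_M
      exact indicator_of_notMem (fun hi => Set.disjoint_left.1 (F.fer3_dis hij) hi hj) _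
    · intro h
      exact absurd (Finset.mem_univ j) h
  · push Not at h
    have h1 : F.cc x = 1 := F.cc_1 x hx fun j hj => h j (by
      obtain ⟨q, ⟨h0, h1⟩, rfl⟩ := hj
      exact ⟨q, ⟨h0, by linarith [F.u0]⟩, rfl⟩)
    have h2 : ∑ j, F.fer3_M j x = 0 := Finset.sum_eq_zero fun j _ => indicator_of_notMem (h j) _
    rw [h1, h2, add_zero]

private theorem fer3_dec (φ : XS D) : (φ : L2c) = mm F.cc (φ : L2c) + ∑ j, mm (F.fer3_M j) (φ : L2c) := by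
  obtain ⟨c, hc⟩ := fer3_bm F.cc_cc.cc
  have h0 := (mem_XS_iff D F.hD.op (φ : L2c)).1 φ.2
  have hM : ∀ᵐ x ∂(volume : Measure ℂ), ∀ j, (mm (F.fer3_M j) (φ : L2c) : ℂ → ℂ) x = F.fer3_M j x * (φ : L2c) x :=
    ae_all_iff.2 fun j => mm_coe (F.fer3_Mb j) (φ : L2c)
  refine Lp.ext ?_
  filter_upwards [h0, hM, mm_coe hc (φ : L2c),
    Lp.coeFn_add (mm F.cc (φ : L2c)) (∑ j, mm (F.fer3_M j) (φ : L2c)),
    Lp.coeFn_finsetSum Finset.univ fun j => mm (F.fer3_M j) (φ : L2c)] with x e0 eM ec ea es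
  rw [ea, Pi.add_apply, ec, es, Finset.sum_apply]
  simp only [eM]
  rw [← Finset.sum_mul, ← add_mul]
  by_cases hx : x ∈ D
  · rw [F.fer3_sum x hx, one_mul]
  · rw [e0 hx, mul_zero]

/-! ### The commutator on smooth functions -/

private theorem fer3_off {ϕ : ℂ → ℂ} (hϕ : tsupport ϕ ⊆ D) (x : ℂ) (hx : ∀ j, x ∉ Wc (F.X j) (16 * F.u)) :
    2 * (py F.cc x * py ϕ x + px F.cc x * px ϕ x) + lap F.cc x * ϕ x = 0 := by
  by_cases hxD : x ∈ D
  · have hcp : ∀ j, IsCompact (F.X j '' (Icc (-Real.pi) Real.pi ×ˢ Icc 0 (4 * F.u))) := fun j =>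
      (isCompact_Icc.prod isCompact_Icc).image (F.hX j).smooth.continuous
    have hn : ∀ j, x ∉ F.X j '' (Icc (-Real.pi) Real.pi ×ˢ Icc 0 (4 * F.u)) := by
      rintro j ⟨q, hq, rfl⟩
      rcases hq.2.1.eq_or_lt with h | h
      · have h2 := (F.hX j).bdry q.1
        rw [frontier, F.hD.op.interior_eq] at h2
        have h3 : F.X j q = F.X j (q.1, 0) := by rw [show q = (q.1, 0) from Prod.ext rfl h.symm]
        rw [h3] at hxD
        exact h2.2 hxD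
      · exact hx j ⟨q, ⟨h, by linarith [hq.2.2, F.u0]⟩, rfl⟩
    have hev : F.cc =ᶠ[𝓝 x] fun _ => 1 := by
      have h1 : ∀ᶠ y in 𝓝 x, ∀ j, y ∉ F.X j '' (Icc (-Real.pi) Real.pi ×ˢ Icc 0 (4 * F.u)) :=
        eventually_all.2 fun j => (hcp j).isClosed.isOpen_compl.mem_nhds (hn j)
      filter_upwards [h1, F.hD.op.mem_nhds hxD] with y hy hyD
      refine F.cc_1 y hyD fun j hj => hy j ?_
      rw [(F.hX j).Wc_eq] at hj
      obtain ⟨q, hq, rfl⟩ := hj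
      exact ⟨q, ⟨⟨hq.1.1.le, hq.1.2⟩, ⟨hq.2.1.le, hq.2.2.le⟩⟩, rfl⟩
    obtain ⟨e1, e2, e3⟩ := fer3_ev hev
    obtain ⟨c1, c2, c3⟩ := fer3_cst 1 x
    rw [e1, e2, e3, c1, c2, c3]
    ring
  · have hev : ϕ =ᶠ[𝓝 x] fun _ => 0 := notMem_tsupport_iff_eventuallyEq.1 fun h => hxD (hϕ h)
    obtain ⟨e1, e2, e3⟩ := fer3_ev hev
    obtain ⟨c1, c2, c3⟩ := fer3_cst 0 x
    rw [e1, e2, c1, c2, hev.eq_of_nhds]
    ring

private theorem fer3_strip (j : Fin F.n) {ϕ : ℂ → ℂ} (hϕ : Smo ϕ) {q : ℝ × ℝ} (h0 : 0 < q.2) (h1 : q.2 < 16 * F.u) :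
    (mJ (F.X j) q : ℂ) * (2 * (py F.cc (F.X j q) * py ϕ (F.X j q) + px F.cc (F.X j q) * px ϕ (F.X j q)) +
      lap F.cc (F.X j q) * ϕ (F.X j q)) =
      -(2 * (((deriv (ctf (2 * F.u) (4 * F.u)) q.2 : ℝ) : ℂ) * dZc (fun q => ϕ (F.X j q)) q) +
        ((deriv (deriv (ctf (2 * F.u) (4 * F.u))) q.2 : ℝ) : ℂ) * ϕ (F.X j q)) := by
  have hs := F.cc_cc.cc.smo
  have hev : (fun q => F.cc (F.X j q)) =ᶠ[𝓝 q] fun q => ((1 - ctf (2 * F.u) (4 * F.u) q.2 : ℝ) : ℂ) := by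
    filter_upwards [fer3_gt h0, fer3_lt h1] with p hp0 hp1
    exact F.cc_X j p hp0 hp1
  obtain ⟨e1, e2, e3⟩ := fer3_dev hev
  obtain ⟨d1, d2, d3⟩ := fer3_dz (ctf_smooth (2 * F.u) (4 * F.u)) (ctf_smooth1 _ _) q
  have k1 := (F.hX j).grad_mul hs hϕ h0.le h1
  have k2 := (F.hX j).dLc_comp hs h0.le h1
  rw [e1, e2, d1, d2] at k1
  rw [e3, d3] at k2
  linear_combination (-2 : ℂ) * k1 + ϕ (F.X j q) * k2

private theorem fer3_gaF (j : Fin F.n) (ϕ : AdmS D) :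
    gaF (F.X j) (13 * F.u) (14 * F.u) (ϕ : ℂ → ℂ) =
      fun q => ((ctf (13 * F.u) (14 * F.u) q.2 : ℝ) : ℂ) * (ϕ : ℂ → ℂ) (F.X j q) := by
  funext q
  unfold gaF
  have h1 : F.X j (0, 0) ∉ D := fun h => by
    have h2 := (F.hX j).bdry 0
    rw [frontier, F.hD.op.interior_eq] at h2
    exact h2.2 h
  rw [image_eq_zero_of_notMem_tsupport fun h => h1 (ϕ.2.2 h), sub_zero]

private theorem fer3_La (j : Fin F.n) (ϕ : AdmS D) :
    F.La j (sx D (gpV D ϕ)) = bHc (gaF (F.X j) (13 * F.u) (14 * F.u) (ϕ : ℂ → ℂ)) :=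
  (F.hLa j).eq ⟨(ϕ : ℂ → ℂ), ϕ.2.1, (tsupport_fderiv_subset ℝ).trans ϕ.2.2⟩

private theorem fer3_EE (j : Fin F.n) (ϕ : AdmS D) :
    SC.EE (F.G j).ω (bHc (gaF (F.X j) (13 * F.u) (14 * F.u) (ϕ : ℂ → ℂ))) =
      (fHc (gaF (F.X j) (13 * F.u) (14 * F.u) (ϕ : ℂ → ℂ)) : HP) := by
  rw [(F.G j).hω]
  refine EE_bHc (gaF_pc (F.hX j) (by linarith [F.u0]) ϕ.2.1.smo) fun y => ?_
  rw [F.fer3_gaF j ϕ]
  have h1 : F.X j (y, 0) ∉ D := fun h => by
    have h2 := (F.hX j).bdry y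
    rw [frontier, F.hD.op.interior_eq] at h2
    exact h2.2 h
  show ((ctf (13 * F.u) (14 * F.u) 0 : ℝ) : ℂ) * (ϕ : ℂ → ℂ) (F.X j (y, 0)) = 0
  rw [image_eq_zero_of_notMem_tsupport fun h => h1 (ϕ.2.2 h), mul_zero]

private theorem fer3_Yz (j : Fin F.n) (ϕ : AdmS D) :
    Yz (F.G j).ω (bHc (gaF (F.X j) (13 * F.u) (14 * F.u) (ϕ : ℂ → ℂ))) =
      (fHc (dZc (gaF (F.X j) (13 * F.u) (14 * F.u) (ϕ : ℂ → ℂ))) : HP) := by
  have hp := gaF_pc (F.hX j) (e := 13 * F.u) (e' := 14 * F.u) (by linarith [F.u0]) ϕ.2.1.smo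
  refine lp.ext (funext fun n => ?_)
  rw [Yz_apply]
  unfold tZ
  have h1 : E2 ((F.G j).ω * n) (bHc (gaF (F.X j) (13 * F.u) (14 * F.u) (ϕ : ℂ → ℂ)) n) =
      (fHc (gaF (F.X j) (13 * F.u) (14 * F.u) (ϕ : ℂ → ℂ)) : HP) n := by
    rw [← EE_apply, F.fer3_EE j ϕ]
  rw [h1, fer3_bHc hp n, (F.G j).hω]
  abel


/-- Commutator terms of the partition `1 = χ + ∑ η⁺` cancel: both sides are continuous in `q ∈ SV D` and `y ∈ L²`; on smooth
functions change of variables, `∇χ·∇θ = a χ_z θ_z`. -/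
theorem part_comm (q : SV D) (y : L2c) :
    ⟪(2 : ℂ) • (mm (py F.cc) (q : Y2).fst - mm (px F.cc) (q : Y2).snd) + mm (lap F.cc) ((js D q : XS D) : L2c), y⟫_ℂ =
      -∑ j, (2 * Real.pi : ℂ) * ⟪(2 : ℂ) • Ms (ctC1 (2 * F.u) (4 * F.u)) (Yz (F.G j).ω (F.La j (sx D q))) +
        Ms (ctC2 (2 * F.u) (4 * F.u)) (SC.EE (F.G j).ω (F.La j (sx D q))), SC.cm (F.G j).a (F.Be j y)⟫_ℂ := by
  have hu := F.u0
  have c1 : ∀ j, Continuous fun q : SV D => F.La j (sx D q) := fun j => (F.La j).continuous.comp (sx D).continuous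
  have hcl : IsClosed {q : SV D | ∀ y : L2c,
      ⟪(2 : ℂ) • (mm (py F.cc) (q : Y2).fst - mm (px F.cc) (q : Y2).snd) + mm (lap F.cc) ((js D q : XS D) : L2c), y⟫_ℂ =
      -∑ j, (2 * Real.pi : ℂ) * ⟪(2 : ℂ) • Ms (ctC1 (2 * F.u) (4 * F.u)) (Yz (F.G j).ω (F.La j (sx D q))) +
        Ms (ctC2 (2 * F.u) (4 * F.u)) (SC.EE (F.G j).ω (F.La j (sx D q))), SC.cm (F.G j).a (F.Be j y)⟫_ℂ} := by
    rw [ofPred_forall]
    refine isClosed_iInter fun y => isClosed_eq ?_ ?_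
    · have c2 : Continuous fun q : SV D => (q : Y2).fst :=
        (WithLp.fstL 2 ℂ L2c L2c).continuous.comp continuous_subtype_val
      have c3 : Continuous fun q : SV D => (q : Y2).snd :=
        (WithLp.sndL 2 ℂ L2c L2c).continuous.comp continuous_subtype_val
      exact (((((mm (py F.cc)).continuous.comp c2).sub ((mm (px F.cc)).continuous.comp c3)).const_smul (2 : ℂ)).add
        ((mm (lap F.cc)).continuous.comp (continuous_subtype_val.comp (js D).continuous))).inner continuous_const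
    · refine (continuous_finsetSum _ fun j _ => continuous_const.mul (Continuous.inner ?_ continuous_const)).neg
      exact (((Ms (ctC1 (2 * F.u) (4 * F.u))).continuous.comp ((Yz (F.G j).ω).continuous.comp (c1 j))).const_smul
        (2 : ℂ)).add ((Ms (ctC2 (2 * F.u) (4 * F.u))).continuous.comp ((SC.EE (F.G j).ω).continuous.comp (c1 j)))
  refine isClosed_property (gpV_dense D) hcl (fun ϕ => ?_) q y
  intro y
  refine fer3_dense_Cc (P := fun y => ⟪(2 : ℂ) • (mm (py F.cc) (gpV D ϕ : Y2).fst - mm (px F.cc) (gpV D ϕ : Y2).snd) +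
      mm (lap F.cc) ((js D (gpV D ϕ) : XS D) : L2c), y⟫_ℂ =
      -∑ j, (2 * Real.pi : ℂ) * ⟪(2 : ℂ) • Ms (ctC1 (2 * F.u) (4 * F.u)) (Yz (F.G j).ω (F.La j (sx D (gpV D ϕ)))) +
        Ms (ctC2 (2 * F.u) (4 * F.u)) (SC.EE (F.G j).ω (F.La j (sx D (gpV D ϕ)))),
        SC.cm (F.G j).a (F.Be j y)⟫_ℂ) ?_ (fun f hf => ?_) y
  · refine isClosed_eq (continuous_const.inner continuous_id) ?_
    exact (continuous_finsetSum _ fun j _ => continuous_const.mul (continuous_const.inner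
      ((SC.cm (F.G j).a).continuous.comp (F.Be j).continuous))).neg
  · have hϕ := ϕ.2.1
    have hcc := F.cc_cc.cc
    obtain ⟨k1, hk1⟩ := fer3_bm hcc.px
    obtain ⟨k2, hk2⟩ := fer3_bm hcc.py
    obtain ⟨k3, hk3⟩ := fer3_bm hcc.lap
    have m1 : Cc fun x => px F.cc x * px (ϕ : ℂ → ℂ) x := hcc.px.mul_smo hϕ.px.smo
    have m2 : Cc fun x => py F.cc x * py (ϕ : ℂ → ℂ) x := hcc.py.mul_smo hϕ.py.smo
    have m3 : Cc fun x => lap F.cc x * (ϕ : ℂ → ℂ) x := hcc.lap.mul_smo hϕ.smo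
    have m12 : Cc fun x => 2 * (py F.cc x * py (ϕ : ℂ → ℂ) x + px F.cc x * px (ϕ : ℂ → ℂ) x) :=
      (m2.add m1).cmul 2
    have mh : Cc fun x => 2 * (py F.cc x * py (ϕ : ℂ → ℂ) x + px F.cc x * px (ϕ : ℂ → ℂ) x) +
      lap F.cc x * (ϕ : ℂ → ℂ) x := m12.add m3
    have e0 : (2 : ℂ) • (mm (py F.cc) (gpV D ϕ : Y2).fst - mm (px F.cc) (gpV D ϕ : Y2).snd) +
        mm (lap F.cc) ((js D (gpV D ϕ) : XS D) : L2c) =
        cl2 fun x => 2 * (py F.cc x * py (ϕ : ℂ → ℂ) x + px F.cc x * px (ϕ : ℂ → ℂ) x) +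
          lap F.cc x * (ϕ : ℂ → ℂ) x := by
      have g1 : (gpV D ϕ : Y2).fst = cl2 (py (ϕ : ℂ → ℂ)) := rfl
      have g2 : (gpV D ϕ : Y2).snd = -cl2 (px (ϕ : ℂ → ℂ)) := rfl
      rw [g1, g2, js_gpV F.hD.bdd, clX_coe, map_neg, sub_neg_eq_add, mm_cl2 hk2 (hϕ.py.memLp 2),
        mm_cl2 hk1 (hϕ.px.memLp 2), mm_cl2 hk3 (hϕ.memLp 2), ← cl2_add (m2.memLp 2) (m1.memLp 2),
        ← cl2_smul 2 ((m2.add m1).memLp 2), ← cl2_add (m12.memLp 2) (m3.memLp 2)]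
    rw [e0, Cc.inner mh hf]
    have hint : Integrable fun x => conj (2 * (py F.cc x * py (ϕ : ℂ → ℂ) x + px F.cc x * px (ϕ : ℂ → ℂ) x) +
        lap F.cc x * (ϕ : ℂ → ℂ) x) * f x := (mh.conj.mul_smo hf.smo).integrable
    rw [← setIntegral_eq_integral_of_forall_compl_eq_zero (s := ⋃ j, Wc (F.X j) (16 * F.u))
      (fun x hx => by
        rw [F.fer3_off ϕ.2.2 x fun j hj => hx (mem_iUnion.2 ⟨j, hj⟩), map_zero, zero_mul]),
      integral_iUnion_fintype F.fer3_meas F.fer3_dis fun j => hint.integrableOn, ← Finset.sum_neg_distrib]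
    refine Finset.sum_congr rfl fun j _ => ?_
    rw [(F.hX j).integral le_rfl]
    have hJ := F.hJ j
    have hp := gaF_pc (F.hX j) (e := 13 * F.u) (e' := 14 * F.u) (by linarith) hϕ.smo
    have hi : PY Real.pi fun q => (F.J j q)⁻¹ := hJ.py.inv hJ.pos
    have hw : PY Real.pi fun q : ℝ × ℝ => ctf (4 * F.u) (8 * F.u) q.2 * F.J j q :=
      (PY.of_z Real.pi (ctf_smooth _ _)).mul hJ.py
    have hfX : PC Real.pi fun q => f (F.X j q) := (F.hX j).pc hf.smo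
    have hc2 : ContDiff ℝ ((⊤ : ℕ∞) : WithTop ℕ∞) (deriv (deriv (ctf (2 * F.u) (4 * F.u)))) :=
      ((contDiff_infty_iff_deriv (𝕜 := ℝ)).1 (ctf_smooth1 _ _)).2
    have e1 : Ms (ctC1 (2 * F.u) (4 * F.u)) (fHc (dZc (gaF (F.X j) (13 * F.u) (14 * F.u) (ϕ : ℂ → ℂ))) : HP) =
        fHc fun q => ((deriv (ctf (2 * F.u) (4 * F.u)) q.2 : ℝ) : ℂ) *
          dZc (gaF (F.X j) (13 * F.u) (14 * F.u) (ϕ : ℂ → ℂ)) q := Ms_fHc (ctf_smooth1 _ _) hp.zz
    have e2 : Ms (ctC2 (2 * F.u) (4 * F.u)) (fHc (gaF (F.X j) (13 * F.u) (14 * F.u) (ϕ : ℂ → ℂ)) : HP) =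
        fHc fun q => ((deriv (deriv (ctf (2 * F.u) (4 * F.u))) q.2 : ℝ) : ℂ) *
          gaF (F.X j) (13 * F.u) (14 * F.u) (ϕ : ℂ → ℂ) q := Ms_fHc hc2 hp
    have n1 : PC Real.pi fun q => ((deriv (ctf (2 * F.u) (4 * F.u)) q.2 : ℝ) : ℂ) *
        dZc (gaF (F.X j) (13 * F.u) (14 * F.u) (ϕ : ℂ → ℂ)) q := PC.mulR (PY.of_z Real.pi (ctf_smooth1 _ _)) hp.zz
    have n2 : PC Real.pi fun q => ((deriv (deriv (ctf (2 * F.u) (4 * F.u))) q.2 : ℝ) : ℂ) *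
        gaF (F.X j) (13 * F.u) (14 * F.u) (ϕ : ℂ → ℂ) q := PC.mulR (PY.of_z Real.pi hc2) hp
    rw [F.fer3_La j ϕ, F.fer3_Yz j ϕ, F.fer3_EE j ϕ, e1, e2, ← fHc_smul 2 n1, ← fHc_add (n1.cmul 2) n2,
      (F.hBe j).eq f hf, F.G_a j, cm_fHc hi (PC.mulR hw hfX), inner_fHc ((n1.cmul 2).add n2)
      (PC.mulR hi (PC.mulR hw hfX))]
    have hpi : (2 * Real.pi : ℂ) ≠ 0 := mul_ne_zero two_ne_zero (Complex.ofReal_ne_zero.2 Real.pi_pos.ne')
    rw [mul_inv_cancel_left₀ hpi]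
    have z1 : ∀ z : ℝ, 4 * F.u < z → deriv (ctf (2 * F.u) (4 * F.u)) z = 0 ∧
        deriv (deriv (ctf (2 * F.u) (4 * F.u))) z = 0 := by
      intro z hz
      have hev : ∀ w, 4 * F.u < w → ctf (2 * F.u) (4 * F.u) =ᶠ[𝓝 w] fun _ => 0 := fun w hw => by
        filter_upwards [isOpen_Ioi.mem_nhds hw] with v hv
        exact ctf_zero (by linarith) (le_of_lt hv)
      have hd : deriv (ctf (2 * F.u) (4 * F.u)) =ᶠ[𝓝 z] fun _ => 0 := by
        filter_upwards [isOpen_Ioi.mem_nhds hz] with v hv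
        rw [(hev v hv).deriv_eq, deriv_const]
      exact ⟨hd.eq_of_nhds, by rw [hd.deriv_eq, deriv_const]⟩
    have z0 : ∀ z : ℝ, z < 2 * F.u → deriv (ctf (2 * F.u) (4 * F.u)) z = 0 ∧
        deriv (deriv (ctf (2 * F.u) (4 * F.u))) z = 0 := by
      intro z hz
      have hev : ∀ w, w < 2 * F.u → ctf (2 * F.u) (4 * F.u) =ᶠ[𝓝 w] fun _ => 1 := fun w hw => by
        filter_upwards [isOpen_Iio.mem_nhds hw] with v hv
        exact ctf_one (by linarith) (le_of_lt hv)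
      have hd : deriv (ctf (2 * F.u) (4 * F.u)) =ᶠ[𝓝 z] fun _ => 0 := by
        filter_upwards [isOpen_Iio.mem_nhds hz] with v hv
        rw [(hev v hv).deriv_eq, deriv_const]
      exact ⟨hd.eq_of_nhds, by rw [hd.deriv_eq, deriv_const]⟩
    rw [fer3_cel (c := 16 * F.u) _ F.uπ (fun q _ hq => ?_), ← integral_neg]
    · refine setIntegral_congr_fun (measurableSet_Rc Real.pi (16 * F.u)) fun q hq => ?_
      have hs := F.fer3_strip j hϕ.smo hq.2.1 hq.2.2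
      rw [Complex.real_smul, ← mul_assoc, ← Complex.conj_ofReal (mJ (F.X j) q), ← map_mul, hs]
      by_cases hz : q.2 ≤ 4 * F.u
      · have hev : gaF (F.X j) (13 * F.u) (14 * F.u) (ϕ : ℂ → ℂ) =ᶠ[𝓝 q] fun q => (ϕ : ℂ → ℂ) (F.X j q) := by
          rw [F.fer3_gaF j ϕ]
          filter_upwards [fer3_lt (show q.2 < 13 * F.u by linarith)] with p hp
          rw [ctf_one (by linarith) hp.le, Complex.ofReal_one, one_mul]
        have hd := (fer3_dev hev).2.1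
        rw [hd, hev.eq_of_nhds, ctf_one (by linarith) hz, one_mul, map_neg]
        have h3 : ((F.J j q : ℝ) : ℂ) ≠ 0 := Complex.ofReal_ne_zero.2 (hJ.pos q).ne'
        push_cast
        field_simp
      · obtain ⟨y1, y2⟩ := z1 q.2 (not_le.1 hz)
        rw [y1, y2]
        simp
    · have h4 : q.2 < 2 * F.u ∨ 4 * F.u < q.2 := by
        by_contra h
        push Not at h
        exact hq ⟨by linarith [h.1], by linarith [h.2]⟩
      have h5 : deriv (ctf (2 * F.u) (4 * F.u)) q.2 = 0 ∧ deriv (deriv (ctf (2 * F.u) (4 * F.u))) q.2 = 0 := by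
        rcases h4 with h4 | h4
        · exact z0 _ h4
        · exact z1 _ h4
      rw [h5.1, h5.2]
      simp

/-- `φ = χ φ + ∑ η⁺ φ` (`IsPB.two`). -/
theorem part_id (φ : XS D) (y : L2c) : ⟪(φ : L2c), y⟫_ℂ = ⟪mm F.cc (φ : L2c), y⟫_ℂ +
    ∑ j, (2 * Real.pi : ℂ) * ⟪F.Bp j (φ : L2c), SC.cm (F.G j).a (F.Be j y)⟫_ℂ := by
  rw [Finset.sum_congr rfl fun j _ => F.fer3_two j (φ : L2c) y, ← sum_inner, ← inner_add_left, ← F.fer3_dec φ]

/-- **The diffusion identity** (`IsVx.vo`, `part_id`, `part_comm` for `q = js† φ`). -/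
theorem diff_id (φ : XS D) (y : L2c) : ⟪(φ : L2c), y⟫_ℂ = ⟪(F.Vc φ : L2c), y⟫_ℂ +
    ∑ j, (2 * Real.pi : ℂ) * ⟪F.gs j φ, SC.cm (F.G j).a (F.Be j y)⟫_ℂ := by
  have h1 := F.part_id φ y
  have h2 := F.part_comm (ja D φ) y
  have e1 : ∀ j, F.gs j φ = F.Bp j (φ : L2c) -
      ((2 : ℂ) • Ms (ctC1 (2 * F.u) (4 * F.u)) (Yz (F.G j).ω (F.La j (sx D (ja D φ)))) +
        Ms (ctC2 (2 * F.u) (4 * F.u)) (SC.EE (F.G j).ω (F.La j (sx D (ja D φ))))) := fun j => rfl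
  have e2 : (F.Vc φ : L2c) = mm F.cc (φ : L2c) -
      ((2 : ℂ) • (mm (py F.cc) (ja D φ : Y2).fst - mm (px F.cc) (ja D φ : Y2).snd) +
      mm (lap F.cc) ((js D (ja D φ) : XS D) : L2c)) := by
    rw [F.hVc.vo φ]
    abel
  rw [e2, inner_sub_left, h2]
  simp only [e1, inner_sub_left, mul_sub, Finset.sum_sub_distrib]
  rw [h1]
  ring

end FD

end Pool.Agent.Lib.MP_79abb3_an.PD
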