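import Pool.Agent.Lib.MP_79abb3_an.PD.SpEb

/-!
Theorem D, block S: the total flow of the flush (system (U) of block F).
-/

set_option autoImplicit false
set_option linter.unusedSectionVars false

open MeasureTheory Set Filter Topology Function
open scoped ENNReal InnerProductSpace ComplexConjugate

namespace Pool.Agent.Lib.MP_79abb3_an.PD

open Pool.Agent.Lib.MP_79abb3_an.SC

section
variable {D : Set ℂ}

/-- real valued test functions supported in `D` -/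
structure CcR (D : Set ℂ) (f : ℂ → ℂ) : Prop where
  cc : Cc f
  supp : tsupport f ⊆ D
  real : ∀ x, conj (f x) = f x

/-- The vorticity `v - A c₀ - m β`. -/
noncomputable def vt (c0 β : ℂ → ℂ) (A : ℝ → ℝ) (v : ℝ → VD D) (m : ℝ → ℝ) (t : ℝ) : L2c :=
  (v t : L2c) - (A t : ℂ) • cl2 c0 - (m t : ℂ) • cl2 β

/-- The total flow. -/
structure USys (D : Set ℂ) (c0 β d : ℂ → ℂ) (lam : ℝ) (A A' : ℝ → ℝ) (b : ℝ) (v₀ : VD D) (v : ℝ → VD D)
    (m m' : ℝ → ℝ) : Prop where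
  cv : ContinuousOn v (Icc 0 b)
  iv : v 0 = v₀
  rv : ∀ t ∈ Icc 0 b, cVD D (v t) = v t
  im : m 0 = 0
  dm : ∀ t ∈ Icc 0 b, HasDerivWithinAt m (m' t) (Icc 0 b) t
  cm : ContinuousOn m' (Icc 0 b)
  em : ∀ t ∈ Icc 0 b, (m' t : ℂ) = lam * ⟪cl2 d, vt c0 β A v m t⟫_ℂ
  eq : ∀ ψ : Adm D, ∀ s t, 0 ≤ s → s ≤ t → t ≤ b →
    ⟪gpX D ψ, iot D (v t)⟫_ℂ - ⟪gpX D ψ, iot D (v s)⟫_ℂ = ∫ r in s..t,
      (-⟪cu ψ, vt c0 β A v m r⟫_ℂ + NL (jj D (v r)) (vt c0 β A v m r) (jj D (cuV D ψ)) -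
        lam * ⟪cl2 (fun x => d x * (ψ : ℂ → ℂ) x), vt c0 β A v m r⟫_ℂ + (m' r : ℂ) * ⟪cl2 ψ, cl2 β⟫_ℂ +
        (A' r : ℂ) * ⟪cl2 ψ, cl2 c0⟫_ℂ)

/-! ### auxiliary operators -/

private theorem CcR.conjEq {f : ℂ → ℂ} (h : CcR D f) : (fun x => conj (f x)) = f := funext h.real

private theorem CcR.ex_bm {f : ℂ → ℂ} (h : CcR D f) : ∃ c, Bm f c := by
  obtain ⟨c, hc⟩ := h.cc.cpt.exists_bound_of_continuous h.cc.smo.continuous
  exact ⟨c, h.cc.smo.continuous.aestronglyMeasurable, hc⟩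

private theorem CcR.cL2 {f : ℂ → ℂ} (h : CcR D f) : PD.cL2 (cl2 f) = cl2 f := by
  rw [cl2_conj (h.cc.memLp 2), h.conjEq]

private theorem CcR.mm_conj {f : ℂ → ℂ} (h : CcR D f) (g : L2c) : PD.cL2 (mm f g) = mm f (PD.cL2 g) := by
  obtain ⟨c, hc⟩ := h.ex_bm
  rw [PD.mm_conj hc, h.conjEq]

private theorem CcR.mm_inner {f : ℂ → ℂ} (h : CcR D f) (u v : L2c) :
    ⟪mm f u, v⟫_ℂ = ⟪u, mm f v⟫_ℂ := by
  obtain ⟨c, hc⟩ := h.ex_bm
  rw [PD.mm_inner hc, h.conjEq]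

/-- the admissible stream function of a test function -/
private noncomputable def CcR.adm {f : ℂ → ℂ} (h : CcR D f) : Adm D :=
  ⟨f, h.cc, (tsupport_fderiv_subset ℝ).trans h.supp⟩

private theorem CcR.cXD_adm {f : ℂ → ℂ} (h : CcR D f) : cXD D (gpX D h.adm) = gpX D h.adm := by
  rw [cXD_gpX]
  congr 1
  exact Subtype.ext h.conjEq

private theorem inner_cL2_real {f : L2c} (hf : PD.cL2 f = f) (v : L2c) :
    conj ⟪f, v⟫_ℂ = ⟪f, PD.cL2 v⟫_ℂ := by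
  have h : ⟪PD.cL2 f, PD.cL2 v⟫_ℂ = ⟪v, f⟫_ℂ := Cnj_cL2.inner f v
  rw [hf] at h
  rw [h, inner_conj_symm]

private theorem cYy_rot {f : ℂ → ℂ} (h : CcR D f) (u : Y2) : cYy (rot f u) = rot f (cYy u) := by
  apply WithLp.ofLp_injective
  refine Prod.ext ?_ ?_
  · show PD.cL2 (mm f u.snd) = mm f (PD.cL2 u.snd)
    exact h.mm_conj _
  · show PD.cL2 (-mm f u.fst) = -mm f (PD.cL2 u.fst)
    rw [map_neg, h.mm_conj]

private noncomputable def mkX (P : VE D →L[ℂ] XD D) (q : VE D →L[ℂ] ℂ) : VE D →L[ℂ] XE D :=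
  ((WithLp.prodContinuousLinearEquiv 2 ℂ (XD D) ℂ).symm : (XD D × ℂ) →L[ℂ] XE D).comp (P.prod q)

private theorem mkX_fst (P : VE D →L[ℂ] XD D) (q : VE D →L[ℂ] ℂ) (w : VE D) : (mkX P q w).fst = P w := rfl
private theorem mkX_snd (P : VE D →L[ℂ] XD D) (q : VE D →L[ℂ] ℂ) (w : VE D) : (mkX P q w).snd = q w := rfl

private noncomputable def q0 (D : Set ℂ) (β d : ℂ → ℂ) (lam : ℝ) : VE D →L[ℂ] ℂ :=
  (lam : ℂ) • ((innerSL ℂ (cl2 d)).comp ((VD D).subtypeL.comp (fsE D))) -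
    ((lam : ℂ) * ⟪cl2 d, cl2 β⟫_ℂ) • snE D

private theorem q0_apply (β d : ℂ → ℂ) (lam : ℝ) (w : VE D) : q0 D β d lam w =
    (lam : ℂ) * ⟪cl2 d, (w.fst : L2c)⟫_ℂ - (lam : ℂ) * ⟪cl2 d, cl2 β⟫_ℂ * w.snd := rfl

private noncomputable def sA (D : Set ℂ) : L2c →L[ℂ] XD D := ContinuousLinearMap.adjoint (str D)

private noncomputable def P0 {β : ℂ → ℂ} (hβ : CcR D β) (d : ℂ → ℂ) (lam : ℝ) : VE D →L[ℂ] XD D :=
  (snE D).smulRight (gpX D hβ.adm + (lam : ℂ) • sA D (mm d (cl2 β))) -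
    (lam : ℂ) • ((sA D).comp ((mm d).comp ((VD D).subtypeL.comp (fsE D)))) +
    (q0 D β d lam).smulRight (sA D (cl2 β))

private theorem P0_apply {β : ℂ → ℂ} (hβ : CcR D β) (d : ℂ → ℂ) (lam : ℝ) (w : VE D) : P0 hβ d lam w =
    w.snd • (gpX D hβ.adm + (lam : ℂ) • sA D (mm d (cl2 β))) - (lam : ℂ) • sA D (mm d (w.fst : L2c)) +
      q0 D β d lam w • sA D (cl2 β) := rfl

private noncomputable def P1 (D : Set ℂ) (c0 : ℂ → ℂ) : VE D →L[ℂ] XD D :=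
  -((PX D).comp ((rot c0).comp ((XD D).subtypeL.comp ((iot D).comp (fsE D)))))

private theorem P1_apply (c0 : ℂ → ℂ) (w : VE D) : P1 D c0 w =
    -PX D (rot c0 ((iot D w.fst : XD D) : Y2)) := rfl

private noncomputable def B0 {β : ℂ → ℂ} (hβ : CcR D β) (d : ℂ → ℂ) (lam : ℝ) : VE D →L[ℂ] XE D :=
  mkX (P0 hβ d lam) (snE D + q0 D β d lam)

private noncomputable def B1 (D : Set ℂ) (c0 : ℂ → ℂ) : VE D →L[ℂ] XE D := mkX (P1 D c0) 0

private noncomputable def F0 {c0 : ℂ → ℂ} (h0 : CcR D c0) (β d : ℂ → ℂ) (lam : ℝ) : XE D :=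
  WithLp.toLp 2 (gpX D h0.adm + (lam : ℂ) • sA D (mm d (cl2 c0)) -
    ((lam : ℂ) * ⟪cl2 d, cl2 c0⟫_ℂ) • sA D (cl2 β), -((lam : ℂ) * ⟪cl2 d, cl2 c0⟫_ℂ))

private noncomputable def F1 (D : Set ℂ) (c0 : ℂ → ℂ) : XE D := WithLp.toLp 2 (sA D (cl2 c0), 0)

private theorem cXE_def (x : XE D) : cXE D x = WithLp.toLp 2 (cXD D x.fst, conj x.snd) := rfl
private theorem cVE_def (x : VE D) : cVE D x = WithLp.toLp 2 (cVD D x.fst, conj x.snd) := rfl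

private theorem cXD_smul (hD : Bornology.IsBounded D) (c : ℂ) (x : XD D) : cXD D (c • x) = conj c • cXD D x :=
  (FCj_D hD).X.anti c x

private theorem cXD_sA (hD : Bornology.IsBounded D) (g : L2c) : cXD D (sA D g) = sA D (cL2 g) :=
  str_adj_conj hD g

private theorem q0_conj {β d : ℂ → ℂ} (hβ : CcR D β) (hd : CcR D d) (lam : ℝ) (w : VE D) :
    conj (q0 D β d lam w) = q0 D β d lam (cVE D w) := by
  rw [q0_apply, q0_apply, cVE_def]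
  simp only [WithLp.toLp_fst, WithLp.toLp_snd, map_sub, map_mul, Complex.conj_ofReal, cVD_coe]
  rw [inner_cL2_real hd.cL2, inner_cL2_real hd.cL2, hβ.cL2]

private theorem cXE_B0 (hD : Bornology.IsBounded D) {β d : ℂ → ℂ} (hβ : CcR D β) (hd : CcR D d) (lam : ℝ)
    (w : VE D) : cXE D (B0 hβ d lam w) = B0 hβ d lam (cVE D w) := by
  apply WithLp.ofLp_injective
  refine Prod.ext ?_ ?_
  · show cXD D (P0 hβ d lam w) = P0 hβ d lam (cVE D w)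
    rw [P0_apply, P0_apply, ← q0_conj hβ hd]
    simp only [map_add, map_sub, cXD_smul hD, cXD_sA hD, hd.mm_conj, hβ.cL2, hβ.cXD_adm,
      Complex.conj_ofReal]
    rfl
  · show conj (w.snd + q0 D β d lam w) = conj w.snd + q0 D β d lam (cVE D w)
    rw [map_add, q0_conj hβ hd]

private theorem cXE_B1 (hD : Bornology.IsBounded D) {c0 : ℂ → ℂ} (h0 : CcR D c0) (w : VE D) :
    cXE D (B1 D c0 w) = B1 D c0 (cVE D w) := by
  apply WithLp.ofLp_injective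
  refine Prod.ext ?_ ?_
  · show cXD D (-PX D (rot c0 ((iot D w.fst : XD D) : Y2))) =
      -PX D (rot c0 ((iot D (cVD D w.fst) : XD D) : Y2))
    have e : cXD D (iot D w.fst) = iot D (cVD D w.fst) := (FCj_D hD).ι w.fst
    rw [map_neg, PX_conj, cYy_rot h0, ← cXD_coe, e]
  · show conj (0 : ℂ) = 0
    exact map_zero _

private theorem cXE_F0 (hD : Bornology.IsBounded D) {c0 β d : ℂ → ℂ} (h0 : CcR D c0) (hβ : CcR D β)
    (hd : CcR D d) (lam : ℝ) : cXE D (F0 h0 β d lam) = F0 h0 β d lam := by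
  have e : conj ⟪cl2 d, cl2 c0⟫_ℂ = ⟪cl2 d, cl2 c0⟫_ℂ := by
    rw [inner_cL2_real hd.cL2, h0.cL2]
  apply WithLp.ofLp_injective
  refine Prod.ext ?_ ?_
  · show cXD D (gpX D h0.adm + (lam : ℂ) • sA D (mm d (cl2 c0)) -
      ((lam : ℂ) * ⟪cl2 d, cl2 c0⟫_ℂ) • sA D (cl2 β)) = _
    simp only [map_add, map_sub, cXD_smul hD, cXD_sA hD, hd.mm_conj, hβ.cL2, h0.cL2, h0.cXD_adm,
      Complex.conj_ofReal, map_mul, e]
    rfl
  · show conj (-((lam : ℂ) * ⟪cl2 d, cl2 c0⟫_ℂ)) = -((lam : ℂ) * ⟪cl2 d, cl2 c0⟫_ℂ)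
    rw [map_neg, map_mul, Complex.conj_ofReal, e]

private theorem cXE_F1 (hD : Bornology.IsBounded D) {c0 : ℂ → ℂ} (h0 : CcR D c0) :
    cXE D (F1 D c0) = F1 D c0 := by
  apply WithLp.ofLp_injective
  refine Prod.ext ?_ ?_
  · show cXD D (sA D (cl2 c0)) = sA D (cl2 c0)
    rw [cXD_sA hD, h0.cL2]
  · show conj (0 : ℂ) = 0
    exact map_zero _

private theorem ism (x y : XD D) (a : ℂ) : ⟪x, a • y⟫_ℂ = a * ⟪x, y⟫_ℂ := by
  show ⟪(x : Y2), ((a • y : XD D) : Y2)⟫_ℂ = a * ⟪(x : Y2), (y : Y2)⟫_ℂ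
  rw [Submodule.coe_smul, inner_smul_right]

private theorem inn (x y : XD D) : ⟪x, -y⟫_ℂ = -⟪x, y⟫_ℂ := inner_neg_right _ _

private theorem inner_gpX_sA (hD : Bornology.IsBounded D) (ψ : Adm D) (g : L2c) :
    ⟪gpX D ψ, sA D g⟫_ℂ = ⟪cl2 ψ, g⟫_ℂ := by
  unfold sA
  rw [ContinuousLinearMap.adjoint_inner_right, str_gpX hD]

private theorem inner_gpX_adm {f : ℂ → ℂ} (h : CcR D f) (ψ : Adm D) :
    ⟪gpX D ψ, gpX D h.adm⟫_ℂ = ⟪cu ψ, cl2 f⟫_ℂ := by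
  show ⟪gp (ψ : ℂ → ℂ), gp f⟫_ℂ = _
  exact ip_gp (Adm.cc ψ) h.cc

private theorem inner_mm_d {d : ℂ → ℂ} (h : CcR D d) (ψ : Adm D) (g : L2c) :
    ⟪cl2 (fun x => d x * (ψ : ℂ → ℂ) x), g⟫_ℂ = ⟪cl2 ψ, mm d g⟫_ℂ := by
  obtain ⟨c, hc⟩ := h.ex_bm
  rw [← mm_cl2 hc ((Adm.cc ψ).memLp 2), h.mm_inner]

/-- the pointwise identity of the right sides -/
private theorem rhs_eq (hD : Bornology.IsBounded D) {c0 β d : ℂ → ℂ} (h0 : CcR D c0) (hβ : CcR D β)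
    (hd : CcR D d) (lam : ℝ) (a a' : ℂ) (v : VD D) (m : ℂ) (ψ : Adm D) :
    -⟪cu ψ, (v : L2c)⟫_ℂ + NL (jj D v) ((v : L2c) - m • cl2 β) (jj D (cuV D ψ)) +
      ⟪gpX D ψ, ((a • F0 h0 β d lam + a' • F1 D c0) +
        (B0 hβ d lam + a • B1 D c0) (WithLp.toLp 2 (v, m))).fst⟫_ℂ =
    -⟪cu ψ, (v : L2c) - a • cl2 c0 - m • cl2 β⟫_ℂ +
      NL (jj D v) ((v : L2c) - a • cl2 c0 - m • cl2 β) (jj D (cuV D ψ)) -
      (lam : ℂ) * ⟪cl2 (fun x => d x * (ψ : ℂ → ℂ) x), (v : L2c) - a • cl2 c0 - m • cl2 β⟫_ℂ +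
      ((lam : ℂ) * ⟪cl2 d, (v : L2c) - a • cl2 c0 - m • cl2 β⟫_ℂ) * ⟪cl2 ψ, cl2 β⟫_ℂ +
      a' * ⟪cl2 ψ, cl2 c0⟫_ℂ := by
  obtain ⟨c, hc⟩ := h0.ex_bm
  have hrot := NL_rot hD hc (h0.cc.memLp 2) v (cuV D ψ)
  rw [iot_cuV hD] at hrot
  have e1 : ((a • F0 h0 β d lam + a' • F1 D c0) +
        (B0 hβ d lam + a • B1 D c0) (WithLp.toLp 2 (v, m))).fst =
      (a • (gpX D h0.adm + (lam : ℂ) • sA D (mm d (cl2 c0)) -
        ((lam : ℂ) * ⟪cl2 d, cl2 c0⟫_ℂ) • sA D (cl2 β)) + a' • sA D (cl2 c0)) +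
      ((m • (gpX D hβ.adm + (lam : ℂ) • sA D (mm d (cl2 β))) - (lam : ℂ) • sA D (mm d (v : L2c)) +
      ((lam : ℂ) * ⟪cl2 d, (v : L2c)⟫_ℂ - (lam : ℂ) * ⟪cl2 d, cl2 β⟫_ℂ * m) • sA D (cl2 β)) +
      a • (-PX D (rot c0 ((iot D v : XD D) : Y2)))) := rfl
  rw [e1, inner_mm_d hd]
  simp only [inner_add_right, inner_sub_right, inner_smul_right, ism, inn,
    inner_gpX_sA hD, inner_gpX_adm, ← hrot, map_sub, map_smul, sub_apply, smul_apply, smul_eq_mul]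
  ring

private theorem cXE_smul (hD : Bornology.IsBounded D) (c : ℂ) (x : XE D) : cXE D (c • x) = conj c • cXE D x :=
  (FCj_E hD).X.anti c x

private theorem cVE_Qv (hD : Bornology.IsBounded D) (x : XE D) :
    cVE D (Qv (iotE D) x) = Qv (iotE D) (cXE D x) := (FCj_E hD).Qv (fdomE hD) x

private theorem cL2_smul (c : ℂ) (f : L2c) : PD.cL2 (c • f) = conj c • PD.cL2 f := Cnj_cL2.anti c f

private theorem Qv_injE (hD : Bornology.IsBounded D) (y z : XE D) (h : Qv (iotE D) y = Qv (iotE D) z) :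
    y = z := by
  have h1 : ‖Qv (iotE D) (y - z)‖ = ‖y - z‖ := (fdomE hD).norm_Qv (y - z)
  rw [map_sub, h, sub_self, norm_zero] at h1
  exact sub_eq_zero.1 (norm_eq_zero.1 h1.symm)

private theorem cont_comp {X V : Type} [NormedAddCommGroup X] [InnerProductSpace ℂ X] [NormedAddCommGroup V]
    [InnerProductSpace ℂ V] (P Q : V →L[ℂ] X) (R : X →L[ℂ] V) {a : ℝ → ℂ} {s : Set ℝ} (ha : ContinuousOn a s) :
    ContinuousOn (fun t => (P + a t • Q).comp R) s :=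
  (continuousOn_const.add (ha.smul continuousOn_const)).clm_comp continuousOn_const

private theorem cont_add {X : Type} [NormedAddCommGroup X] [InnerProductSpace ℂ X] (P Q : X) {a a' : ℝ → ℂ}
    {s : Set ℝ} (ha : ContinuousOn a s) (ha' : ContinuousOn a' s) :
    ContinuousOn (fun t => a t • P + a' t • Q) s :=
  (ha.smul continuousOn_const).add (ha'.smul continuousOn_const)

/-- **Existence of the total flow.** Proof. `NSA.global` for the extended system: with `w = Qv (iotE D) (x t)`, `v = w.fst`,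
`m = w.snd` (`m` is real because `x` is real, `FCj.Qv`). The right side of `eq` is `-⟪cuV ψ, v⟫ + NL (jj v) (v - m β) (jj (cuV ψ)) +
⟪gpX ψ, F + B w⟫` with (`ip_gp`, `str_gpX`, `NL_rot`)
`F = A gpX c₀ + A' str†(c₀) + lam A str†(d c₀) - lam A ⟪d, c₀⟫ str†(β)`,
`B w = m gpX β - A PX (rot c₀ (iot v)) - lam str†(mm d v) + lam m str†(d β) + lam ⟪d, v⟫ str†(β) - lam m ⟪d, β⟫ str†(β)`,
second component: `m' = -m + (m + lam ⟪d, v⟫ - lam m ⟪d, β⟫) - lam A ⟪d, c₀⟫`. So `f t = A t • F₀ + A' t • F₁`,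
`B t = (B₀ + A t • B₁) ∘ Qv (iotE D)` with fixed `F₀ F₁ ∈ XE D`, `B₀ B₁ : VE D → XE D`. Then `Slv.weakV` with
`w = (cuV ψ, 0)` and `w = (0, 1)` (which gives `m t - m s = ∫ m'`, so `m` is differentiable: `hasDerivWithinAt_prim`). -/
theorem exists_USys (hD : Bornology.IsBounded D) {c0 β d : ℂ → ℂ} (h0 : CcR D c0) (hβ : CcR D β) (hd : CcR D d)
    (lam : ℝ) {A A' : ℝ → ℝ} {b : ℝ} (hb : 0 ≤ b)
    (hA : ∀ t ∈ Icc 0 b, HasDerivWithinAt A (A' t) (Icc 0 b) t) (hA' : ContinuousOn A' (Icc 0 b))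
    {v₀ : VD D} (hv : cVD D v₀ = v₀) : ∃ v m m', USys D c0 β d lam A A' b v₀ v m m' := by
  have cA : ContinuousOn A (Icc 0 b) := fun t ht => (hA t ht).continuousWithinAt
  have cAc : ContinuousOn (fun t => (A t : ℂ)) (Icc 0 b) :=
    Complex.continuous_ofReal.comp_continuousOn cA
  have cAc' : ContinuousOn (fun t => (A' t : ℂ)) (Icc 0 b) :=
    Complex.continuous_ofReal.comp_continuousOn hA'
  let f : ℝ → XE D := fun t => (A t : ℂ) • F0 h0 β d lam + (A' t : ℂ) • F1 D c0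
  let Bw : ℝ → VE D →L[ℂ] XE D := fun t => B0 hβ d lam + (A t : ℂ) • B1 D c0
  let B : ℝ → XE D →L[ℂ] XE D := fun t => (Bw t).comp (Qv (iotE D))
  have cf : ContinuousOn f (Icc 0 b) := cont_add _ _ cAc cAc'
  have cB : ContinuousOn B (Icc 0 b) := cont_comp _ _ _ cAc
  have hfd := fdomE hD
  have hfr : ∀ t ∈ Icc 0 b, cXE D (f t) = f t := by
    intro t _
    show cXE D ((A t : ℂ) • F0 h0 β d lam + (A' t : ℂ) • F1 D c0) =
      (A t : ℂ) • F0 h0 β d lam + (A' t : ℂ) • F1 D c0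
    rw [map_add, cXE_smul hD, cXE_smul hD, cXE_F0 hD h0 hβ hd, cXE_F1 hD h0, Complex.conj_ofReal,
      Complex.conj_ofReal]
  have hBr : ∀ t ∈ Icc 0 b, ∀ x, cXE D (B t x) = B t (cXE D x) := by
    intro t _ x
    show cXE D (B0 hβ d lam (Qv (iotE D) x) + (A t : ℂ) • B1 D c0 (Qv (iotE D) x)) =
      B0 hβ d lam (Qv (iotE D) (cXE D x)) + (A t : ℂ) • B1 D c0 (Qv (iotE D) (cXE D x))
    rw [map_add, cXE_smul hD, cXE_B0 hD hβ hd, cXE_B1 hD h0, cVE_Qv hD, Complex.conj_ofReal]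
  obtain ⟨x₀, hx₀⟩ := hfd.Qv_surj (WithLp.toLp 2 (v₀, (0 : ℂ)))
  have hx0r : cXE D x₀ = x₀ := by
    apply Qv_injE hD
    rw [← cVE_Qv hD, hx₀, cVE_def]
    show WithLp.toLp 2 (cVD D v₀, conj (0 : ℂ)) = _
    rw [hv, map_zero]
  obtain ⟨C, hC⟩ := exists_NSA_E hD β
  obtain ⟨x, hx, hxr⟩ := hC.global (NSR_E hD hβ.real) hb cf cB hfr hBr hx0r
  have hxr' : ∀ t ∈ Icc 0 b, cXE D (x t) = x t := hxr
  have hx0 : x 0 = x₀ := Mild.init hC.ker hx hb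
  let w : ℝ → VE D := fun t => Qv (iotE D) (x t)
  have cw : ContinuousOn w (Icc 0 b) := (Qv (iotE D)).continuous.comp_continuousOn hx.cont
  have hwr : ∀ t ∈ Icc 0 b, cVE D (w t) = w t := by
    intro t ht
    show cVE D (Qv (iotE D) (x t)) = Qv (iotE D) (x t)
    rw [cVE_Qv hD, hxr' t ht]
  let v : ℝ → VD D := fun t => (w t).fst
  let m : ℝ → ℝ := fun t => (w t).snd.re
  have hvr : ∀ t ∈ Icc 0 b, cVD D (v t) = v t := fun t ht => congrArg (fun z : VE D => z.fst) (hwr t ht)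
  have hmr : ∀ t ∈ Icc 0 b, (m t : ℂ) = (w t).snd := fun t ht => by
    have h1 : conj (w t).snd = (w t).snd := congrArg (fun z : VE D => z.snd) (hwr t ht)
    exact Complex.conj_eq_iff_re.1 h1
  have cv : ContinuousOn v (Icc 0 b) := (fsE D).continuous.comp_continuousOn cw
  have cm0 : ContinuousOn m (Icc 0 b) :=
    Complex.continuous_re.comp_continuousOn ((snE D).continuous.comp_continuousOn cw)
  have cvt : ContinuousOn (vt c0 β A v m) (Icc 0 b) :=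
    (((VD D).subtypeL.continuous.comp_continuousOn cv).sub (cAc.smul continuousOn_const)).sub
      ((Complex.continuous_ofReal.comp_continuousOn cm0).smul continuousOn_const)
  let m' : ℝ → ℝ := fun t => lam * (⟪cl2 d, vt c0 β A v m t⟫_ℂ).re
  have cm' : ContinuousOn m' (Icc 0 b) := continuousOn_const.mul
    (Complex.continuous_re.comp_continuousOn ((innerSL ℂ (cl2 d)).continuous.comp_continuousOn cvt))
  have hem : ∀ t ∈ Icc 0 b, (m' t : ℂ) = lam * ⟪cl2 d, vt c0 β A v m t⟫_ℂ := by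
    intro t ht
    have h1 : PD.cL2 (vt c0 β A v m t) = vt c0 β A v m t := by
      show PD.cL2 ((v t : L2c) - (A t : ℂ) • cl2 c0 - (m t : ℂ) • cl2 β) =
        (v t : L2c) - (A t : ℂ) • cl2 c0 - (m t : ℂ) • cl2 β
      rw [map_sub, map_sub, cL2_smul, cL2_smul, h0.cL2, hβ.cL2, ← cVD_coe, hvr t ht,
        Complex.conj_ofReal, Complex.conj_ofReal]
    have h2 := inner_cL2_real hd.cL2 (vt c0 β A v m t)
    rw [h1] at h2
    have h3 := Complex.conj_eq_iff_re.1 h2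
    show ((lam * (⟪cl2 d, vt c0 β A v m t⟫_ℂ).re : ℝ) : ℂ) = _
    rw [Complex.ofReal_mul, h3]
  have hmi : ∀ s ∈ Icc 0 b, m s = ∫ r in (0 : ℝ)..s, m' r := by
    intro s hs
    have h1 := Slv.weakV hfd hC cf cB hx (WithLp.toLp 2 ((0 : VD D), (1 : ℂ))) le_rfl hs.1 hs.2
    have e1 : ∀ t, ⟪iotE D (WithLp.toLp 2 ((0 : VD D), (1 : ℂ))), iotE D (Qv (iotE D) (x t))⟫_ℂ =
        (w t).snd := by
      intro t
      rw [WithLp.prod_inner_apply]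
      show ⟪iot D 0, iot D (w t).fst⟫_ℂ + ⟪(1 : ℂ), (w t).snd⟫_ℂ = _
      rw [map_zero, inner_zero_left, zero_add]
      simp
    have e2 : (w 0).snd = 0 := by
      show (Qv (iotE D) (x 0)).snd = 0
      rw [hx0, hx₀]
      rfl
    have e3 : ∀ r ∈ uIcc 0 s, (-⟪(WithLp.toLp 2 ((0 : VD D), (1 : ℂ)) : VE D), Qv (iotE D) (x r)⟫_ℂ +
        NE D β (x r) (x r) (jE D (WithLp.toLp 2 ((0 : VD D), (1 : ℂ)))) +
        ⟪iotE D (WithLp.toLp 2 ((0 : VD D), (1 : ℂ))), f r + B r (x r)⟫_ℂ) = (m' r : ℂ) := by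
      intro r hr
      rw [uIcc_of_le hs.1] at hr
      have hr' : r ∈ Icc 0 b := ⟨hr.1, hr.2.trans hs.2⟩
      have j0 : jE D (WithLp.toLp 2 ((0 : VD D), (1 : ℂ))) = 0 := by
        show jj D 0 = 0
        exact map_zero _
      rw [j0, map_zero, hem r hr', WithLp.prod_inner_apply, WithLp.prod_inner_apply]
      show -(⟪(0 : VD D), (w r).fst⟫_ℂ + ⟪(1 : ℂ), (w r).snd⟫_ℂ) + 0 +
        (⟪iot D 0, (f r + B r (x r)).fst⟫_ℂ + ⟪(1 : ℂ), (f r + B r (x r)).snd⟫_ℂ) =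
        lam * ⟪cl2 d, (v r : L2c) - (A r : ℂ) • cl2 c0 - (m r : ℂ) • cl2 β⟫_ℂ
      have e4 : (f r + B r (x r)).snd = ((A r : ℂ) * (-((lam : ℂ) * ⟪cl2 d, cl2 c0⟫_ℂ)) +
          (A' r : ℂ) * 0) + (((w r).snd + ((lam : ℂ) * ⟪cl2 d, (v r : L2c)⟫_ℂ -
          (lam : ℂ) * ⟪cl2 d, cl2 β⟫_ℂ * (w r).snd)) + (A r : ℂ) * 0) := rfl
      rw [e4, map_zero, inner_zero_left, inner_zero_left, hmr r hr']
      simp only [inner_sub_right, inner_smul_right, RCLike.inner_apply, map_one]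
      ring
    rw [e1, e1, e2, sub_zero, intervalIntegral.integral_congr e3, intervalIntegral.integral_ofReal,
      ← hmr s hs] at h1
    exact Complex.ofReal_injective h1
  refine ⟨v, m, m', cv, ?_, hvr, ?_, ?_, cm', hem, ?_⟩
  · show (Qv (iotE D) (x 0)).fst = v₀
    rw [hx0, hx₀]
    rfl
  · show (Qv (iotE D) (x 0)).snd.re = 0
    rw [hx0, hx₀]
    rfl
  · intro t ht
    exact (hasDerivWithinAt_prim cm' ht).congr hmi (hmi t ht)
  · intro ψ s t hs hst ht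
    have h1 := Slv.weakV hfd hC cf cB hx (WithLp.toLp 2 (cuV D ψ, (0 : ℂ))) hs hst ht
    have e1 : ∀ t, ⟪iotE D (WithLp.toLp 2 (cuV D ψ, (0 : ℂ))), iotE D (Qv (iotE D) (x t))⟫_ℂ =
        ⟪gpX D ψ, iot D (v t)⟫_ℂ := by
      intro t
      rw [WithLp.prod_inner_apply]
      show ⟪iot D (cuV D ψ), iot D (w t).fst⟫_ℂ + ⟪(0 : ℂ), (w t).snd⟫_ℂ = _
      rw [iot_cuV hD, inner_zero_left, add_zero]
    rw [e1, e1] at h1
    rw [h1]
    apply intervalIntegral.integral_congr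
    intro r hr
    rw [uIcc_of_le hst] at hr
    have hr' : r ∈ Icc 0 b := ⟨hs.trans hr.1, hr.2.trans ht⟩
    have h2 := rhs_eq hD h0 hβ hd lam (A r) (A' r) (v r) (m r) ψ
    have e3 : (WithLp.toLp 2 (v r, (m r : ℂ)) : VE D) = w r := by
      rw [hmr r hr']
      rfl
    rw [e3] at h2
    have e4 : ⟪(WithLp.toLp 2 (cuV D ψ, (0 : ℂ)) : VE D), Qv (iotE D) (x r)⟫_ℂ =
        ⟪cu ψ, (v r : L2c)⟫_ℂ := by
      rw [WithLp.prod_inner_apply]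
      show ⟪cu (ψ : ℂ → ℂ), (v r : L2c)⟫_ℂ + ⟪(0 : ℂ), (w r).snd⟫_ℂ = _
      rw [inner_zero_left, add_zero]
    have e5 : NE D β (x r) (x r) (jE D (WithLp.toLp 2 (cuV D ψ, (0 : ℂ)))) =
        NL (jj D (v r)) ((v r : L2c) - (m r : ℂ) • cl2 β) (jj D (cuV D ψ)) := by
      rw [NE_apply, hmr r hr']
      rfl
    have e6 : ⟪iotE D (WithLp.toLp 2 (cuV D ψ, (0 : ℂ))), f r + B r (x r)⟫_ℂ =
        ⟪gpX D ψ, (((A r : ℂ) • F0 h0 β d lam + (A' r : ℂ) • F1 D c0) +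
          (B0 hβ d lam + (A r : ℂ) • B1 D c0) (w r)).fst⟫_ℂ := by
      rw [WithLp.prod_inner_apply]
      show ⟪iot D (cuV D ψ), (f r + B r (x r)).fst⟫_ℂ + ⟪(0 : ℂ), (f r + B r (x r)).snd⟫_ℂ = _
      rw [iot_cuV hD, inner_zero_left, add_zero]
      rfl
    show -⟪(WithLp.toLp 2 (cuV D ψ, (0 : ℂ)) : VE D), Qv (iotE D) (x r)⟫_ℂ +
        NE D β (x r) (x r) (jE D (WithLp.toLp 2 (cuV D ψ, (0 : ℂ)))) +
        ⟪iotE D (WithLp.toLp 2 (cuV D ψ, (0 : ℂ))), f r + B r (x r)⟫_ℂ = _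
    rw [e4, e5, e6, h2]
    beta_reduce
    rw [hem r hr']
    rfl

end

end Pool.Agent.Lib.MP_79abb3_an.PD
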