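import Pool.Agent.Lib.MP_79abb3_an.PD.FdB2
import Pool.Agent.Lib.MP_79abb3_an.PD.SpEc

/-!
Theorem D, block F: the equation of the total flow tested with all vorticities.
-/

set_option autoImplicit false
set_option linter.unusedSectionVars false

open MeasureTheory Set Filter Topology Function
open scoped ENNReal InnerProductSpace ComplexConjugate

namespace Pool.Agent.Lib.MP_79abb3_an.PD

open Pool.Agent.Lib.MP_79abb3_an.SC

section
variable {D : Set ℂ}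

/-- `⟨str x, v⟩ = ⟨x, iot v⟩` (density: `x = gpX ψ`, `v = cuV φ`, `str_gpX`, Green). -/
theorem inner_str (hD : Bornology.IsBounded D) (x : XD D) (v : VD D) : ⟪str D x, (v : L2c)⟫_ℂ = ⟪x, iot D v⟫_ℂ := by
  refine (gpX_dense D).induction
    (P := fun x : XD D => ⟪str D x, (v : L2c)⟫_ℂ = ⟪x, iot D v⟫_ℂ) ?_ ?_ x
  · rintro _ ⟨ψ, rfl⟩
    rw [str_gpX hD]
    exact (inner_iot_gp hD v (Adm.cc ψ)).symm
  · have c1 : Continuous fun x : XD D => ⟪(x : Y2), ((iot D v : XD D) : Y2)⟫_ℂ := by fun_prop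
    exact isClosed_eq (by fun_prop) c1

variable {c0 β d : ℂ → ℂ} {A A' : ℝ → ℝ} {b lam : ℝ} {v₀ : VD D} {v : ℝ → VD D} {mu mu' : ℝ → ℝ}

theorem vt_cont (hU : USys D c0 β d lam A A' b v₀ v mu mu') (hA : ContinuousOn A (Icc 0 b)) :
    ContinuousOn (vt c0 β A v mu) (Icc 0 b) := by
  have cA : ContinuousOn (fun t => (A t : ℂ)) (Icc 0 b) :=
    Complex.continuous_ofReal.comp_continuousOn hA
  have cm0 : ContinuousOn mu (Icc 0 b) := fun t ht => (hU.dm t ht).continuousWithinAt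
  have cm : ContinuousOn (fun t => (mu t : ℂ)) (Icc 0 b) :=
    Complex.continuous_ofReal.comp_continuousOn cm0
  exact (((VD D).subtypeL.continuous.comp_continuousOn hU.cv).sub
    (cA.smul continuousOn_const)).sub (cm.smul continuousOn_const)

private theorem feu_cL2_cl2 {f : ℂ → ℂ} (h : CcR D f) : cL2 (cl2 f) = cl2 f := by
  have e : (fun x => conj (f x)) = f := funext h.real
  rw [cl2_conj (h.cc.memLp 2), e]

private theorem feu_cL2_smul (a : ℝ) {f : ℂ → ℂ} (h : CcR D f) : cL2 ((a : ℂ) • cl2 f) = (a : ℂ) • cl2 f := by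
  have e : cL2 ((a : ℂ) • cl2 f) = conj (a : ℂ) • cL2 (cl2 f) := Cnj_cL2.anti (a : ℂ) (cl2 f)
  rw [e, feu_cL2_cl2 h, Complex.conj_ofReal]

theorem vt_real (h0 : CcR D c0) (hβ : CcR D β) (hU : USys D c0 β d lam A A' b v₀ v mu mu') {t : ℝ}
    (ht : t ∈ Icc 0 b) : cL2 (vt c0 β A v mu t) = vt c0 β A v mu t := by
  have h1 : cL2 (v t : L2c) = (v t : L2c) := by
    rw [← cVD_coe, hU.rv t ht]
  show cL2 ((v t : L2c) - (A t : ℂ) • cl2 c0 - (mu t : ℂ) • cl2 β) =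
    (v t : L2c) - (A t : ℂ) • cl2 c0 - (mu t : ℂ) • cl2 β
  rw [map_sub, map_sub, feu_cL2_smul _ h0, feu_cL2_smul _ hβ, h1]

private theorem feu_mem {f : ℂ → ℂ} (h : CcR D f) : cl2 f ∈ XS D :=
  Submodule.le_topologicalClosure _ (LinearMap.mem_range_self (clS D) ⟨f, h.cc, h.supp⟩)

/-- `ṽ ∈ L²(D)` (`mem_XS_iff`, `VD_off`). -/
theorem vt_mem (hO : IsOpen D) (h0 : CcR D c0) (hβ : CcR D β) (t : ℝ) : vt c0 β A v mu t ∈ XS D := by
  have h1 : (v t : L2c) ∈ XS D := (mem_XS_iff D hO _).2 (VD_zero (v t))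
  exact (XS D).sub_mem ((XS D).sub_mem h1 ((XS D).smul_mem _ (feu_mem h0)))
    ((XS D).smul_mem _ (feu_mem hβ))

private theorem feu_ftc {f f' : ℝ → ℝ} {b : ℝ} (hf : ∀ t ∈ Icc 0 b, HasDerivWithinAt f (f' t) (Icc 0 b) t)
    (hf' : ContinuousOn f' (Icc 0 b)) {s t : ℝ} (hs : 0 ≤ s) (hst : s ≤ t) (ht : t ≤ b) :
    ∫ r in s..t, (f' r : ℂ) = (f t : ℂ) - (f s : ℂ) := by
  have hsub : Icc s t ⊆ Icc 0 b := Icc_subset_Icc hs ht
  have h1 : ∫ r in s..t, f' r = f t - f s := by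
    refine intervalIntegral.integral_eq_sub_of_hasDeriv_right_of_le hst
      (fun x hx => (hf x (hsub hx)).continuousWithinAt.mono hsub) (fun x hx => ?_)
      ((hf'.mono (by rw [uIcc_of_le hst]; exact hsub)).intervalIntegrable)
    have h2 : Icc 0 b ∈ 𝓝 x := Icc_mem_nhds (lt_of_le_of_lt hs hx.1) (lt_of_lt_of_le hx.2 ht)
    exact ((hf x (hsub (Ioo_subset_Icc_self hx))).hasDerivAt h2).hasDerivWithinAt
  rw [intervalIntegral.integral_ofReal, h1, Complex.ofReal_sub]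

/-- **The equation tested with `w ∈ VD D`**: `USys.eq` for `w = cuV ψ`; both sides are continuous in `w` (the integrand is bounded
on `[0,b]` by `C |w|`). Then `⟨str iot w, ṽ⟩ = ⟨iot w, iot v⟩ - A ⟨str iot w, c₀⟩ - μ ⟨str iot w, β⟩`; `A' ` and `mu'` cancel
(`intervalIntegral.integral_eq_sub_of_hasDerivAt`-type theorem for derivatives within `[0,b]`). -/
theorem USys.eqV (hD : Bornology.IsBounded D) (h0 : CcR D c0) (hβ : CcR D β) (hd : CcR D d)
    (hA : ∀ t ∈ Icc 0 b, HasDerivWithinAt A (A' t) (Icc 0 b) t) (hA' : ContinuousOn A' (Icc 0 b))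
    (hU : USys D c0 β d lam A A' b v₀ v mu mu') (w : VD D) {s t : ℝ} (hs : 0 ≤ s) (hst : s ≤ t) (ht : t ≤ b) :
    ⟪str D (iot D w), vt c0 β A v mu t⟫_ℂ - ⟪str D (iot D w), vt c0 β A v mu s⟫_ℂ = ∫ r in s..t,
      (-⟪(w : L2c), vt c0 β A v mu r⟫_ℂ + PD.NL (jj D (v r)) (vt c0 β A v mu r) (jj D w) -
        lam * ⟪mm d (str D (iot D w)), vt c0 β A v mu r⟫_ℂ) := by
  have _ := h0
  have _ := hβ
  have hsub : uIcc s t ⊆ Icc 0 b := by rw [uIcc_of_le hst]; exact Icc_subset_Icc hs ht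
  have cA : ContinuousOn A (Icc 0 b) := fun r hr => (hA r hr).continuousWithinAt
  have cV := (vt_cont hU cA).mono hsub
  have iV : IntervalIntegrable (vt c0 β A v mu) volume s t := cV.intervalIntegrable
  have cY : ContinuousOn (fun r => PD.NL (jj D (v r)) (vt c0 β A v mu r)) (uIcc s t) := by
    have c1 : ContinuousOn (fun r => PD.NL (jj D (v r))) (uIcc s t) :=
      PD.NL.continuous.comp_continuousOn ((jj D).continuous.comp_continuousOn (hU.cv.mono hsub))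
    exact c1.clm_apply cV
  have iY : IntervalIntegrable (fun r => PD.NL (jj D (v r)) (vt c0 β A v mu r)) volume s t :=
    cY.intervalIntegrable
  obtain ⟨V, hVe⟩ : ∃ V : L2c, V = ∫ r in s..t, vt c0 β A v mu r := ⟨_, rfl⟩
  obtain ⟨Y, hYe⟩ : ∃ Y : Yd (L4c × L4c), Y = ∫ r in s..t, PD.NL (jj D (v r)) (vt c0 β A v mu r) :=
    ⟨_, rfl⟩
  have hV : ∀ x : L2c, ∫ r in s..t, ⟪x, vt c0 β A v mu r⟫_ℂ = ⟪x, V⟫_ℂ := fun x => by
    rw [hVe]
    exact (innerSL ℂ x).intervalIntegral_comp_comm iV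
  have hY : ∀ z : L4c × L4c, ∫ r in s..t, PD.NL (jj D (v r)) (vt c0 β A v mu r) z = Y z := fun z => by
    rw [hYe]
    exact (ContinuousLinearMap.apply' ℂ (starRingEnd ℂ) z).intervalIntegral_comp_comm iY
  have ci : ∀ x : L2c, IntervalIntegrable (fun r => ⟪x, vt c0 β A v mu r⟫_ℂ) volume s t := fun x =>
    ((innerSL ℂ x).continuous.comp_continuousOn cV).intervalIntegrable
  have cz : ∀ z : L4c × L4c, IntervalIntegrable (fun r => PD.NL (jj D (v r)) (vt c0 β A v mu r) z)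
      volume s t := fun z =>
    ((ContinuousLinearMap.apply' ℂ (starRingEnd ℂ) z).continuous.comp_continuousOn cY).intervalIntegrable
  have ca : ∀ (x : L2c) (z : L4c × L4c), IntervalIntegrable (fun r => -⟪x, vt c0 β A v mu r⟫_ℂ +
      PD.NL (jj D (v r)) (vt c0 β A v mu r) z) volume s t := fun x z => (ci x).neg.add (cz z)
  have cn : ∀ x : L2c, IntervalIntegrable (fun r => -⟪x, vt c0 β A v mu r⟫_ℂ) volume s t :=
    fun x => (ci x).neg
  have cb : ∀ (x : L2c) (z : L4c × L4c) (y : L2c), IntervalIntegrable (fun r =>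
      -⟪x, vt c0 β A v mu r⟫_ℂ + PD.NL (jj D (v r)) (vt c0 β A v mu r) z -
        lam * ⟪y, vt c0 β A v mu r⟫_ℂ) volume s t := fun x z y => (ca x z).sub ((ci y).const_mul _)
  have hR : ∀ (x y : L2c) (z : L4c × L4c), ∫ r in s..t, (-⟪x, vt c0 β A v mu r⟫_ℂ +
      PD.NL (jj D (v r)) (vt c0 β A v mu r) z - lam * ⟪y, vt c0 β A v mu r⟫_ℂ) =
      -⟪x, V⟫_ℂ + Y z - lam * ⟪y, V⟫_ℂ := fun x y z => by
    rw [intervalIntegral.integral_sub (ca x z) ((ci y).const_mul _),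
      intervalIntegral.integral_add (cn x) (cz z), intervalIntegral.integral_neg,
      intervalIntegral.integral_const_mul, hV, hV, hY]
  rw [hR]
  refine (cuV_dense D).induction (P := fun w : VD D =>
    ⟪str D (iot D w), vt c0 β A v mu t⟫_ℂ - ⟪str D (iot D w), vt c0 β A v mu s⟫_ℂ =
      -⟪(w : L2c), V⟫_ℂ + Y (jj D w) - lam * ⟪mm d (str D (iot D w)), V⟫_ℂ) ?_ ?_ w
  · rintro _ ⟨ψ, rfl⟩
    have e1 := hU.eq ψ s t hs hst ht
    have e2 := feu_ftc hA hA' hs hst ht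
    have e3 := feu_ftc hU.dm hU.cm hs hst ht
    have iA : IntervalIntegrable (fun r => (A' r : ℂ)) volume s t :=
      ((Complex.continuous_ofReal.comp_continuousOn hA').mono hsub).intervalIntegrable
    have im : IntervalIntegrable (fun r => (mu' r : ℂ)) volume s t :=
      ((Complex.continuous_ofReal.comp_continuousOn hU.cm).mono hsub).intervalIntegrable
    have cd : IntervalIntegrable (fun r =>
        -⟪cu ψ, vt c0 β A v mu r⟫_ℂ + PD.NL (jj D (v r)) (vt c0 β A v mu r) (jj D (cuV D ψ)) -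
        lam * ⟪cl2 (fun x => d x * (ψ : ℂ → ℂ) x), vt c0 β A v mu r⟫_ℂ + (mu' r : ℂ) * ⟪cl2 ψ, cl2 β⟫_ℂ)
        volume s t := (cb _ _ _).add (im.mul_const _)
    rw [intervalIntegral.integral_add cd (iA.mul_const _),
      intervalIntegral.integral_add (cb _ _ _) (im.mul_const _), hR, intervalIntegral.integral_mul_const, intervalIntegral.integral_mul_const, e2, e3] at e1
    obtain ⟨c, hc⟩ := hd.cc.cpt.exists_bound_of_continuous hd.cc.smo.continuous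
    have hb : Bm d c := ⟨hd.cc.smo.continuous.aestronglyMeasurable, hc⟩
    have e4 : ∀ r, ⟪cl2 ψ, (v r : L2c)⟫_ℂ = ⟪gpX D ψ, iot D (v r)⟫_ℂ := fun r =>
      (inner_iot_gp hD (v r) (Adm.cc ψ)).symm
    have e5 : ∀ r, ⟪cl2 ψ, vt c0 β A v mu r⟫_ℂ = ⟪gpX D ψ, iot D (v r)⟫_ℂ -
        (A r : ℂ) * ⟪cl2 ψ, cl2 c0⟫_ℂ - (mu r : ℂ) * ⟪cl2 ψ, cl2 β⟫_ℂ := fun r => by
      show ⟪cl2 ψ, (v r : L2c) - (A r : ℂ) • cl2 c0 - (mu r : ℂ) • cl2 β⟫_ℂ = _
      rw [inner_sub_right, inner_sub_right, inner_smul_right, inner_smul_right, e4]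
    have e6 : ((cuV D ψ : VD D) : L2c) = cu ψ := rfl
    rw [iot_cuV hD, str_gpX hD, mm_cl2 hb ((Adm.cc ψ).memLp 2), e5, e5, e6]
    linear_combination e1
  · exact isClosed_eq (by fun_prop) (by fun_prop)

private theorem feu_cut (hD : Bornology.IsBounded D) : ∃ η : ℂ → ℂ, Cc η ∧
    ∀ x ∈ D, η x = 1 ∧ px η x = 0 ∧ py η x = 0 := by
  obtain ⟨R, hR, h⟩ := exists_radius hD
  let f : ContDiffBump (0 : ℂ) := ⟨R + 1, R + 2, by linarith, by linarith⟩
  have h1 : ∀ x : ℂ, ‖x‖ < R + 1 → ((f x : ℝ) : ℂ) = 1 := fun x hx => by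
    rw [f.one_of_mem_closedBall (by rw [mem_closedBall_zero_iff]; exact hx.le), Complex.ofReal_one]
  have h2 : ∀ x ∈ D, fderiv ℝ (fun x => ((f x : ℝ) : ℂ)) x = 0 := fun x hx => by
    have e : (fun x => ((f x : ℝ) : ℂ)) =ᶠ[𝓝 x] fun _ => 1 := by
      have ho : IsOpen {y : ℂ | ‖y‖ < R + 1} := isOpen_lt continuous_norm continuous_const
      filter_upwards [ho.mem_nhds (show ‖x‖ < R + 1 by linarith [h x hx])] with y hy
      exact h1 y hy
    rw [e.fderiv_eq]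
    exact fderiv_const_apply (1 : ℂ)
  refine ⟨fun x => ((f x : ℝ) : ℂ), ⟨Complex.ofRealCLM.contDiff.comp f.contDiff, ?_⟩, fun x hx =>
    ⟨h1 x (by linarith [h x hx]), ?_, ?_⟩⟩
  · exact f.hasCompactSupport.comp_left (g := fun r : ℝ => (r : ℂ)) (by simp)
  · unfold px
    rw [h2 x hx]
    rfl
  · unfold py
    rw [h2 x hx]
    rfl

/-- `μ = -∫ ṽ`. -/
theorem mu_eq (hD : Bornology.IsBounded D) (hβ1 : ∫ x, β x = 1) (hc : ∫ x, c0 x = 0) (h0 : CcR D c0) (hβ : CcR D β)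
    (t : ℝ) : ((mu t : ℝ) : ℂ) = -∫ x, (vt c0 β A v mu t : ℂ → ℂ) x := by
  obtain ⟨η, hη, h1⟩ := feu_cut hD
  have z1 : ∫ x, (v t : L2c) x * η x = 0 := by
    rw [pair_VD hD (v t) hη]
    refine integral_eq_zero_of_ae ?_
    filter_upwards [XD_zero (iot D (v t))] with x hx
    rw [Pi.zero_apply]
    by_cases hxD : x ∈ D
    · rw [(h1 x hxD).2.1, (h1 x hxD).2.2, mul_zero, mul_zero, sub_zero]
    · rw [(hx hxD).1, (hx hxD).2, zero_mul, zero_mul, sub_zero]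
  have i1 : Integrable fun x => (v t : L2c) x * η x :=
    (Lp.memLp (v t : L2c)).integrable_mul (hη.memLp 2)
  have e1 : (vt c0 β A v mu t : ℂ → ℂ) =ᵐ[volume] fun x => (v t : L2c) x * η x -
      (A t : ℂ) * c0 x - (mu t : ℂ) * β x := by
    have a1 : (vt c0 β A v mu t : ℂ → ℂ) =ᵐ[volume]
        (((v t : L2c) - (A t : ℂ) • cl2 c0 : L2c) : ℂ → ℂ) - (((mu t : ℂ) • cl2 β : L2c) : ℂ → ℂ) :=
      Lp.coeFn_sub _ _
    have a2 : (((v t : L2c) - (A t : ℂ) • cl2 c0 : L2c) : ℂ → ℂ) =ᵐ[volume]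
        ((v t : L2c) : ℂ → ℂ) - (((A t : ℂ) • cl2 c0 : L2c) : ℂ → ℂ) := Lp.coeFn_sub _ _
    have a3 : (((A t : ℂ) • cl2 c0 : L2c) : ℂ → ℂ) =ᵐ[volume] (A t : ℂ) • (cl2 c0 : ℂ → ℂ) :=
      Lp.coeFn_smul _ _
    have a4 : (((mu t : ℂ) • cl2 β : L2c) : ℂ → ℂ) =ᵐ[volume] (mu t : ℂ) • (cl2 β : ℂ → ℂ) :=
      Lp.coeFn_smul _ _
    filter_upwards [a1, a2, a3, a4, cl2_coe (h0.cc.memLp 2), cl2_coe (hβ.cc.memLp 2),
      VD_zero (v t)] with x b1 b2 b3 b4 b5 b6 b7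
    have b8 : (v t : L2c) x = (v t : L2c) x * η x := by
      by_cases hxD : x ∈ D
      · rw [(h1 x hxD).1, mul_one]
      · rw [b7 hxD, zero_mul]
    rw [b1, Pi.sub_apply, b2, Pi.sub_apply, b3, b4, Pi.smul_apply, Pi.smul_apply, b5, b6, ← b8]
    rfl
  have i2 : Integrable fun x => (v t : L2c) x * η x - (A t : ℂ) * c0 x :=
    i1.sub (h0.cc.integrable.const_mul _)
  rw [integral_congr_ae e1, integral_sub i2
    (hβ.cc.integrable.const_mul _), integral_sub i1 (h0.cc.integrable.const_mul _),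
    integral_const_mul, integral_const_mul, z1, hc, hβ1]
  ring

end

end Pool.Agent.Lib.MP_79abb3_an.PD
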