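import Pool.Agent.Lib.MP_79abb3_an.PD.FeA
import Pool.Agent.Lib.MP_79abb3_an.PD.FeR3
import Pool.Agent.Lib.MP_79abb3_an.PD.FeU
import Pool.Agent.Lib.MP_79abb3_an.PD.FeX2

/-!
Theorem D, block F: the outer vorticity.
-/

set_option autoImplicit false
set_option linter.unusedSectionVars false

open MeasureTheory Set Filter Topology Function
open scoped ENNReal InnerProductSpace ComplexConjugate

namespace Pool.Agent.Lib.MP_79abb3_an.PD

open Pool.Agent.Lib.MP_79abb3_an.SC Pool.Agent.Lib.MP_79abb3_an.P25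

/-! ### auxiliary facts -/

private theorem feo_fHc0 {θ : ℝ × ℝ → ℂ} (h : PC Real.pi θ) (h0 : ∀ q ∈ Cel Real.pi, θ q = 0) :
    (fHc θ : HP) = 0 := by
  rw [fHc_congr h (h.cmul 0) fun q hq => by rw [h0 q hq, mul_zero], fHc_smul 0 h, zero_smul]

private theorem feo_cl20 {f : ℂ → ℂ} (hf : MemLp f 2 (volume : Measure ℂ)) : cl2 (fun x => 0 * f x) = 0 := by
  rw [cl2_smul 0 hf, zero_smul]

private theorem feo_mul {θ : ℝ × ℝ → ℂ} {e1 e2 : ℝ} (e e' : ℝ) (hθ : TfS Real.pi e1 e2 θ) :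
    TfS Real.pi e1 e2 (fun q => ((ctf e e' q.2 : ℝ) : ℂ) * θ q) :=
  ⟨PC.mulR (PY.of_z Real.pi (ctf_smooth e e')) hθ.pc, fun y z hz => by rw [hθ.low y z hz, mul_zero],
    fun y z hz => by rw [hθ.up y z hz, mul_zero]⟩

private theorem feo_Ms {a a' b b' : ℝ} (h1 : a < a') (h2 : a' ≤ b) (h3 : b < b') (x : HP) :
    Ms (ctC b b') (Ms (ctC a a') x) = Ms (ctC a a') x := by
  rw [Ms_Ms]
  congr 2
  refine ci_ext fun z hz => ?_
  unfold ctC
  rw [ex_mul, Pool.Agent.Lib.MP_79abb3_an.FW.ex_rc _ _ hz, Pool.Agent.Lib.MP_79abb3_an.FW.ex_rc _ _ hz]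
  by_cases hz' : z ≤ b
  · rw [ctf_one h3 hz', Complex.ofReal_one, one_mul]
  · rw [ctf_zero h1 (h2.trans (not_le.1 hz').le), Complex.ofReal_zero, mul_zero]

/-- the test functions are dense -/
private theorem feo_inj {g : HP} {b b' c : ℝ} (hb0 : 0 < b) (hb : b < b') (hc : b' < c) (hc' : c ≤ Real.pi)
    (hs : Ms (ctC b b') g = g)
    (hg : ∀ e e' θ, 0 < e → e' < c → TfS Real.pi e e' θ → ⟪(fHc θ : HP), g⟫_ℂ = 0) : g = 0 := by
  have hcz : Continuous fun z : ℝ => z * ctf b b' z := continuous_id.mul (ctf_smooth b b').continuous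
  have h1 : Ms (Pool.Agent.Lib.MP_79abb3_an.FW.rc (fun z => z * ctf b b' z) hcz : CI Real.pi) g = 0 := by
    refine fHc_dense (le_refl (0 : ℝ)) (by linarith) hc' hg fun z hz h => ?_
    rw [Pool.Agent.Lib.MP_79abb3_an.FW.ex_rc _ _ hz]
    rcases h with h | h
    · have : z = 0 := le_antisymm h hz.1
      rw [this, zero_mul, Complex.ofReal_zero]
    · rw [ctf_zero hb (by linarith), mul_zero, Complex.ofReal_zero]
  refine lp.ext (funext fun n => Z2_ext ?_)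
  have e1 : mz (Pool.Agent.Lib.MP_79abb3_an.FW.rc (fun z => z * ctf b b' z) hcz : CI Real.pi) (g n) = 0 := by
    rw [← Ms_apply, h1]
    rfl
  have e2 : mz (ctC b b') (g n) = g n := by rw [← Ms_apply, hs]
  have c1 := coe_mz (Pool.Agent.Lib.MP_79abb3_an.FW.rc (fun z => z * ctf b b' z) hcz : CI Real.pi) (g n)
  have c2 := coe_mz (ctC b b') (g n)
  rw [e1] at c1
  rw [e2] at c2
  filter_upwards [c1, c2, Lp.coeFn_zero ℂ 2 (mH Real.pi), ae_restrict_mem measurableSet_Ioc] with z z1 z2 z3 z4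
  show (g n : Z2 Real.pi) z = (0 : Z2 Real.pi) z
  rw [z3, Pi.zero_apply]
  rw [z3, Pi.zero_apply, Pool.Agent.Lib.MP_79abb3_an.FW.ex_rc _ _ ⟨z4.1.le, z4.2⟩] at z1
  unfold ctC at z2
  rw [Pool.Agent.Lib.MP_79abb3_an.FW.ex_rc _ _ ⟨z4.1.le, z4.2⟩] at z2
  by_cases hz : z < b'
  · have h3 : 0 < ctf b b' z := Real.smoothTransition.pos_of_pos (div_pos (by linarith) (by linarith))
    have h4 : ((z * ctf b b' z : ℝ) : ℂ) ≠ 0 := Complex.ofReal_ne_zero.2 (mul_pos z4.1 h3).ne'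
    exact (mul_eq_zero.1 z1.symm).resolve_left h4
  · rw [z2, ctf_zero hb (not_lt.1 hz), Complex.ofReal_zero, zero_mul]

namespace FD
variable {D : Set ℂ} (F : FD D)

private theorem feo_J (j : Fin F.n) {e : ℝ} (h : e ≤ 15 * F.u) : IsJ Real.pi (F.X j) e (F.J j) :=
  ⟨(F.hJ j).py, (F.hJ j).pos, fun q h0 h1 => (F.hJ j).eq q h0 (h1.trans h)⟩

private theorem feo_out (j : Fin F.n) (y : ℝ) : F.X j (y, 0) ∉ D := by
  intro h
  have h1 := (F.hX j).bdry y
  have h2 : F.X j (y, 0) ∈ D ∩ frontier D := ⟨h, h1⟩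
  rw [F.hD.op.inter_frontier_eq] at h2
  exact h2

private theorem feo_away (j : Fin F.n) {q : ℝ × ℝ} (h0 : 0 ≤ q.2) (h1 : q.2 < 16 * F.u) :
    F.t < dist (F.X j q) F.x := by
  rcases h0.lt_or_eq with h | h
  · exact F.X_away j h h1
  · by_contra hc
    rw [not_lt] at hc
    have h2 : F.X j (q.1, q.2) ∈ D := F.fl.ball (Metric.mem_closedBall.2 hc)
    rw [← h] at h2
    exact F.feo_out j q.1 h2

/-- push forwards in strip coordinates -/
private theorem feo_pshX (j : Fin F.n) {θ : ℝ × ℝ → ℂ} {e1 e2 : ℝ} (hθ : TfS Real.pi e1 e2 θ) (h1 : 0 < e1)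
    {q : ℝ × ℝ} (hq : q ∈ Cel Real.pi) (hq2 : q.2 < 16 * F.u) :
    psh Real.pi (16 * F.u) (F.X j) θ (F.X j q) = θ q := by
  have hX := F.hX j
  rcases hq.2.1.lt_or_eq with h | h
  · rcases hq.1.1.lt_or_eq with h3 | h3
    · exact hX.psh_X θ ⟨⟨h3, hq.1.2⟩, h, hq2⟩
    · obtain ⟨r1, r0, r2⟩ := hθ.pc.re.per
      obtain ⟨i1, i0, i2⟩ := hθ.pc.im.per
      have e3 : -Real.pi + 2 * Real.pi = Real.pi := by ring
      have e4 : θ (Real.pi, q.2) = θ (-Real.pi, q.2) := by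
        have k1 := r2 (-Real.pi) q.2 (by rw [neg_add_cancel, abs_zero]; exact r0)
        have k2 := i2 (-Real.pi) q.2 (by rw [neg_add_cancel, abs_zero]; exact i0)
        rw [e3] at k1 k2
        exact Complex.ext k1 k2
      have e5 : F.X j (Real.pi, q.2) = F.X j (-Real.pi, q.2) := by
        have k1 := hX.per (-Real.pi) q.2
        rw [e3] at k1
        exact k1
      have e6 : q = (-Real.pi, q.2) := Prod.ext h3.symm rfl
      rw [e6, ← e4, ← e5]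
      refine hX.psh_X θ ⟨⟨?_, le_rfl⟩, h, hq2⟩
      have := Real.pi_pos
      show -Real.pi < Real.pi
      linarith
  · have e6 : q = (q.1, 0) := Prod.ext rfl h.symm
    rw [e6, hX.psh_out θ fun hc => F.feo_out j q.1 (hX.Wc_sub le_rfl hc)]
    exact (hθ.low q.1 0 h1).symm

private theorem feo_pc (j : Fin F.n) {a a' : ℝ} {f : ℂ → ℂ} (hf : Smo f) :
    PC Real.pi fun q => ((ctf a a' q.2 * F.J j q : ℝ) : ℂ) * f (F.X j q) :=
  PC.mulR ((PY.of_z Real.pi (ctf_smooth a a')).mul (F.hJ j).py) ((F.hX j).pc hf)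

/-- functions which vanish in the strip -/
private theorem feo_B0 (j : Fin F.n) {a a' : ℝ} (h1 : a < a') {B : L2c →L[ℂ] HP}
    (hB : IsPB (F.X j) a a' (F.J j) B) {f : ℂ → ℂ} (hf : Cc f)
    (h0 : ∀ q : ℝ × ℝ, 0 ≤ q.2 → q.2 < a' → f (F.X j q) = 0) : B (cl2 f) = 0 := by
  rw [hB.eq f hf]
  refine feo_fHc0 (F.feo_pc j hf.smo) fun q hq => ?_
  by_cases hz : q.2 < a'
  · rw [h0 q hq.2.1 hz, mul_zero]
  · rw [ctf_zero h1 (not_lt.1 hz), zero_mul, Complex.ofReal_zero, zero_mul]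

/-- push forwards -/
private theorem feo_Bpsh (j : Fin F.n) {a a' : ℝ} (h1 : a < a') (h2 : a' ≤ 14 * F.u) {B : L2c →L[ℂ] HP}
    (hB : IsPB (F.X j) a a' (F.J j) B) {θ : ℝ × ℝ → ℂ} {e1 e2 : ℝ} (hθ : TfS Real.pi e1 e2 θ) (h3 : 0 < e1)
    (h4 : e2 < 16 * F.u) : B (cl2 (psh Real.pi (16 * F.u) (F.X j) θ)) =
      Ms (ctC a a') (SC.cm (F.G j).J (fHc θ)) := by
  have hm := (F.hX j).psh_mem hθ h3 h4
  have hu := F.u0
  have e : (Ms (ctC a a') (SC.cm (F.G j).J (fHc θ)) : HP) =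
      fHc fun q => ((ctf a a' q.2 : ℝ) : ℂ) * ((F.J j q : ℂ) * θ q) := by
    rw [F.G_J, cm_fHc (F.hJ j).py hθ.pc]
    exact Ms_fHc (ctf_smooth a a') (PC.mulR (F.hJ j).py hθ.pc)
  rw [hB.eq _ hm.1, e]
  refine fHc_congr (F.feo_pc j hm.1.smo) (PC.mulR (PY.of_z Real.pi (ctf_smooth a a'))
    (PC.mulR (F.hJ j).py hθ.pc)) fun q hq => ?_
  by_cases hz : q.2 < a'
  · rw [F.feo_pshX j hθ h3 hq (by linarith)]
    push_cast
    ring
  · rw [ctf_zero h1 (not_lt.1 hz)]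
    simp

/-- `B y = 0` if `y` is orthogonal to all push forwards -/
private theorem feo_Bg0 (j : Fin F.n) {a a' : ℝ} (a0 : 0 < a) (h1 : a < a') (h2 : a' ≤ 14 * F.u)
    {B : L2c →L[ℂ] HP} (hB : IsPB (F.X j) a a' (F.J j) B) (g : L2c)
    (hg : ∀ e e' θ, 0 < e → e' < 16 * F.u → TfS Real.pi e e' θ →
      ⟪cl2 (psh Real.pi (16 * F.u) (F.X j) fun q => ((ctf a a' q.2 : ℝ) : ℂ) * θ q), g⟫_ℂ = 0) : B g = 0 := by
  have hu := F.u0
  refine feo_inj (b := 14 * F.u) (b' := 15 * F.u) (c := 16 * F.u) (by linarith) (by linarith) (by linarith)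
    F.uπ.le ?_ fun e e' θ he he' hθ => ?_
  · refine hB.supp (F.hX j) (F.feo_J j (by linarith)) a0 h1 (by linarith) (fun z hz => ?_) g
    unfold ctC
    have hz2 : z ≤ Real.pi := by
      have := hz.2
      have := F.uπ
      linarith
    rw [Pool.Agent.Lib.MP_79abb3_an.FW.ex_rc _ _ ⟨hz.1, hz2⟩, ctf_one (by linarith) (hz.2.trans h2),
      Complex.ofReal_one]
  · have h3 := hB.pair (F.hX j) (F.feo_J j (by linarith)) a0 h1 (by linarith) hθ he he' g
    rw [hg e e' θ he he' hθ] at h3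
    have h4 : (2 * Real.pi : ℂ) ≠ 0 := mul_ne_zero two_ne_zero (Complex.ofReal_ne_zero.2 Real.pi_pos.ne')
    exact (mul_eq_zero.1 h3.symm).resolve_left h4

private theorem feo_AdmS (j : Fin F.n) {θ : ℝ × ℝ → ℂ} {e1 e2 : ℝ} (hθ : TfS Real.pi e1 e2 θ) (h3 : 0 < e1)
    (h4 : e2 < 16 * F.u) : psh Real.pi (16 * F.u) (F.X j) θ ∈ AdmS D :=
  ⟨((F.hX j).psh_mem hθ h3 h4).1, ((F.hX j).psh_mem hθ h3 h4).2.trans ((F.hX j).image_sub h3 h4)⟩

/-- the region of a strip is contained in its ring -/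
private theorem feo_ring (j : Fin F.n) {q : ℝ × ℝ} (h0 : 0 < q.2) (h1 : q.2 < 16 * F.u) :
    F.X j q ∈ F.F j '' ringc F.ρ := by
  rw [F.eX]
  refine ⟨_, ⟨?_, ?_⟩, rfl⟩
  · have h2 : ‖Complex.exp (Complex.I * cxp q)‖ = Real.exp (-q.2) := by
      rw [Complex.norm_exp]
      congr 1
      simp
    rw [h2]
    have h3 := F.uρ
    rw [one_div, Real.log_inv] at h3
    exact (Real.log_lt_iff_lt_exp F.fl.cols.h0).1 (by linarith)
  · have h2 : ‖Complex.exp (Complex.I * cxp q)‖ = Real.exp (-q.2) := by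
      rw [Complex.norm_exp]
      congr 1
      simp
    rw [h2]
    exact Real.exp_le_one_iff.2 (by linarith)

/-- `B (2π B'† y) = ω ω' J y` in the same strip (`IsPB.pair` for both, or test functions). -/
theorem PB_adj (j : Fin F.n) {a a' e e' : ℝ} (a0 : 0 < a) (h1 : a < a') (h2 : a' ≤ 14 * F.u) (e0 : 0 < e) (h3 : e < e')
    (h4 : e' ≤ 14 * F.u) {B B' : L2c →L[ℂ] HP} (hB : IsPB (F.X j) a a' (F.J j) B)
    (hB' : IsPB (F.X j) e e' (F.J j) B') (y : HP) :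
    B ((2 * Real.pi : ℂ) • ContinuousLinearMap.adjoint B' y) =
      Ms (ctC a a') (Ms (ctC e e') (SC.cm (F.G j).J y)) := by
  have hu := F.u0
  rw [← sub_eq_zero]
  refine feo_inj (b := 14 * F.u) (b' := 15 * F.u) (c := 16 * F.u) (by linarith) (by linarith) (by linarith)
    F.uπ.le ?_ fun ε ε' θ h5 h6 hθ => ?_
  · rw [map_sub, feo_Ms h1 h2 (by linarith)]
    congr 1
    refine hB.supp (F.hX j) (F.feo_J j (by linarith)) a0 h1 (by linarith) (fun z hz => ?_) _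
    unfold ctC
    have hz2 : z ≤ Real.pi := by
      have := hz.2
      have := F.uπ
      linarith
    rw [Pool.Agent.Lib.MP_79abb3_an.FW.ex_rc _ _ ⟨hz.1, hz2⟩, ctf_one (by linarith) (hz.2.trans h2),
      Complex.ofReal_one]
  · have h7 := hB.pair (F.hX j) (F.feo_J j (by linarith)) a0 h1 (by linarith) hθ h5 h6
      (ContinuousLinearMap.adjoint B' y)
    have h8 : (fHc (fun q => ((ctf a a' q.2 : ℝ) : ℂ) * θ q) : HP) = Ms (ctC a a') (fHc θ) :=
      (Ms_fHc (ctf_smooth a a') hθ.pc).symm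
    have hJs : Summable fun n => ‖(F.G j).J n‖ := (F.G j).hJ.c.s0
    have hJi : ∀ x y : HP, ⟪SC.cm (F.G j).J x, y⟫_ℂ = ⟪x, SC.cm (F.G j).J y⟫_ℂ := fun x y => by
      rw [F.G_J]
      exact inner_cm_fam (F.hJ j).py x y
    have hr : ∀ s t : ℝ, star (ctC s t) = ctC s t := fun s t => star_rc _ _
    rw [ContinuousLinearMap.adjoint_inner_right,
      F.feo_Bpsh j h3 h4 hB' (feo_mul a a' hθ) h5 h6, h8, innerMs (hr _ _), hJi, innerMs (hr _ _)] at h7
    rw [inner_sub_right, map_smul, inner_smul_right, ← h7, ← MsCm hJs, sub_self]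

/-- Different strips are disjoint (`IsCols.dis`). -/
theorem PB_dis {i j : Fin F.n} (hij : i ≠ j) {a a' e e' : ℝ} (a0 : 0 < a) (h1 : a < a') (h2 : a' ≤ 14 * F.u)
    (e0 : 0 < e) (h3 : e < e') (h4 : e' ≤ 14 * F.u) {B B' : L2c →L[ℂ] HP} (hB : IsPB (F.X i) a a' (F.J i) B)
    (hB' : IsPB (F.X j) e e' (F.J j) B') (y : HP) : B (ContinuousLinearMap.adjoint B' y) = 0 := by
  have hu := F.u0
  refine F.feo_Bg0 i a0 h1 h2 hB _ fun ε ε' θ h5 h6 hθ => ?_
  have hm := feo_mul a a' hθ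
  rw [ContinuousLinearMap.adjoint_inner_right, F.feo_B0 j h3 hB' ((F.hX i).psh_mem hm h5 h6).1
    (fun q hq1 hq2 => ?_), inner_zero_left]
  refine (F.hX i).psh_out _ fun hc => ?_
  rcases hq1.lt_or_eq with h | h
  · obtain ⟨p, hp, hpq⟩ := hc
    have k1 := F.feo_ring i hp.1 hp.2
    have k2 := F.feo_ring j h (by linarith)
    rw [hpq] at k1
    exact Set.disjoint_left.1 (F.fl.cols.dis hij) k1 k2
  · have k1 : F.X j (q.1, q.2) ∈ D := (F.hX i).Wc_sub le_rfl hc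
    rw [← h] at k1
    exact F.feo_out j q.1 k1

/-- `Be† y ∈ L²(D)`, supported in the strip, where `c₀`, `β`, `d` vanish. -/
theorem Be_adj_mem (j : Fin F.n) (y : HP) : ContinuousLinearMap.adjoint (F.Be j) y ∈ XS D ∧
    mm F.d (ContinuousLinearMap.adjoint (F.Be j) y) = 0 := by
  have hu := F.u0
  constructor
  · show ContinuousLinearMap.adjoint (F.Be j) y ∈ (LinearMap.range (clS D)).topologicalClosure
    rw [← Submodule.orthogonal_orthogonal_eq_closure, Submodule.mem_orthogonal]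
    intro g hg
    rw [ContinuousLinearMap.adjoint_inner_right]
    rw [F.feo_Bg0 j (by linarith) (by linarith) (by linarith) (F.hBe j) g fun ε ε' θ h5 h6 hθ => ?_,
      inner_zero_left]
    exact (Submodule.mem_orthogonal _ _).1 hg (clS D ⟨_, F.feo_AdmS j (feo_mul _ _ hθ) h5 h6⟩)
      (LinearMap.mem_range_self _ _)
  · obtain ⟨c, hc⟩ := F.hd.cc.cpt.exists_bound_of_continuous F.hd.cc.smo.continuous
    have hb : Bm F.d c := ⟨F.hd.cc.smo.continuous.aestronglyMeasurable, hc⟩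
    have hsym : ∀ u v : L2c, ⟪mm F.d u, v⟫_ℂ = ⟪u, mm F.d v⟫_ℂ := fun u v => by
      have e : (fun x => conj (F.d x)) = F.d := funext F.hd.real
      rw [mm_inner hb, e]
    refine ext_inner_left ℂ fun g => ?_
    rw [← hsym, ContinuousLinearMap.adjoint_inner_right, inner_zero_right]
    rw [F.feo_Bg0 j (by linarith) (by linarith) (by linarith) (F.hBe j) _ fun ε ε' θ h5 h6 hθ => ?_,
      inner_zero_left]
    have hm := (F.hX j).psh_mem (feo_mul (4 * F.u) (8 * F.u) hθ) h5 h6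
    have e0 : (fun x => F.d x * psh Real.pi (16 * F.u) (F.X j)
        (fun q => ((ctf (4 * F.u) (8 * F.u) q.2 : ℝ) : ℂ) * θ q) x) =
        fun x => 0 * psh Real.pi (16 * F.u) (F.X j)
          (fun q => ((ctf (4 * F.u) (8 * F.u) q.2 : ℝ) : ℂ) * θ q) x := by
      funext x
      by_cases hx : x ∈ Wc (F.X j) (16 * F.u)
      · obtain ⟨q, hq, rfl⟩ := hx
        rw [F.d0 _ (F.X_away j hq.1 hq.2).le]
      · rw [(F.hX j).psh_out _ hx, mul_zero, mul_zero]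
    rw [← hsym, mm_cl2 hb (hm.1.memLp 2), e0, feo_cl20 (hm.1.memLp 2), inner_zero_left]

/-- `B ṽ = ω Ga v` (`IsPB.Ga`; `c₀`, `β` vanish in the strips). -/
theorem B_vt (j : Fin F.n) {m : ℕ} (hm : 1 ≤ m) {a a' : ℝ} (a0 : 0 < a) (h1 : a < a') (h2 : a' ≤ 13 * F.u)
    {B : L2c →L[ℂ] HP} (hB : IsPB (F.X j) a a' (F.J j) B) (A : ℝ → ℝ) (v : ℝ → VD D) (mu : ℝ → ℝ) (t : ℝ) :
    B (vt (F.c0 m) F.β A v mu t) = Ms (ctC a a') (F.Ga j (v t)) := by
  have hu := F.u0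
  have c1 : B (cl2 (F.c0 m)) = 0 := F.feo_B0 j h1 hB (F.c0_cc hm).1.cc fun q hq1 hq2 =>
    (F.c0_cc hm).2.1 _ (F.h3.le.trans (F.feo_away j hq1 (by linarith)).le)
  have c2 : B (cl2 F.β) = 0 := F.feo_B0 j h1 hB F.hβ.cc fun q hq1 hq2 =>
    F.β0 _ ((F.h2.le.trans F.h3.le).trans (F.feo_away j hq1 (by linarith)).le)
  unfold vt
  rw [map_sub, map_sub, map_smul, map_smul, c1, c2, smul_zero, smul_zero, sub_zero, sub_zero]
  exact hB.Ga (F.hGa j) (F.hX j) (F.feo_J j (by linarith)) a0 h1 h2 (by linarith) (by linarith) (v t)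

variable {F} {m : ℕ} {A A' : ℝ → ℝ} {b lam : ℝ} {v₀ : VD D} {v : ℝ → VD D} {mu mu' : ℝ → ℝ} {p : Fin F.n → ℝ → HP}

/-- `B o = ω (Ga v - η g)`: `PB_adj` with `J a = 1`, `PB_dis`, `B_vt`. In particular `B o = ω p` for cut-offs supported in `z ≤ 4u`
and `B o = ω ω~` beyond `8u`. -/
theorem B_ov (hm : 1 ≤ m) (j : Fin F.n) {a a' : ℝ} (a0 : 0 < a) (h1 : a < a') (h2 : a' ≤ 13 * F.u)
    {B : L2c →L[ℂ] HP} (hB : IsPB (F.X j) a a' (F.J j) B) (t : ℝ) :
    B (F.ov m A v mu p t) = Ms (ctC a a') (F.Ga j (v t) - Ms (ctC (4 * F.u) (8 * F.u)) (F.gg m A v p j t)) := by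
  have hu := F.u0
  unfold FD.ov FD.oo
  rw [map_sub, F.B_vt j hm a0 h1 h2 hB, map_sub (Ms (ctC a a')), map_sum]
  congr 1
  rw [Finset.sum_eq_single j]
  · rw [F.PB_adj j a0 h1 (by linarith) (by linarith) (by linarith) (by linarith) hB (F.hBe j), (F.G j).Ja]
  · intro i _ hij
    rw [map_smul, F.PB_dis (Ne.symm hij) a0 h1 (by linarith) (by linarith) (by linarith) (by linarith) hB (F.hBe i),
      smul_zero]
  · intro h
    exact absurd (Finset.mem_univ j) h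

theorem ov_mem (hm : 1 ≤ m) (t : ℝ) : F.ov m A v mu p t ∈ XS D := by
  unfold FD.ov FD.oo
  refine Submodule.sub_mem _ (vt_mem F.hD.op (F.c0_cc hm).1 F.hβ t) (Submodule.sum_mem _ fun j _ => ?_)
  exact Submodule.smul_mem _ _ (F.Be_adj_mem j _).1

theorem Fst.ov_cont (st : F.Fst m lam A A' b v₀ v mu mu' p) : ContinuousOn (F.ov m A v mu p) (Icc 0 b) := by
  unfold FD.ov FD.oo
  refine (vt_cont st.U st.contA).sub (continuousOn_finsetSum _ fun j _ => ?_)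
  exact ((((ContinuousLinearMap.adjoint (F.Be j)).continuous.comp
    (SC.cm (F.G j).a).continuous).comp_continuousOn (st.contg j)).const_smul (2 * Real.pi : ℂ))

theorem Fst.ov_real (st : F.Fst m lam A A' b v₀ v mu mu' p) {t : ℝ} (ht : t ∈ Icc 0 b) :
    cL2 (F.ov m A v mu p t) = F.ov m A v mu p t := by
  have hu := F.u0
  unfold FD.ov FD.oo
  rw [map_sub, vt_real (F.c0_cc st.m1).1 F.hβ st.U ht, map_sum]
  congr 1
  refine Finset.sum_congr rfl fun j _ => ?_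
  have i1 : ∀ x : L2c, cL2 (cL2 x) = x := Cnj_cL2.inv
  have i2 : ∀ x y : L2c, ⟪cL2 x, cL2 y⟫_ℂ = ⟪y, x⟫_ℂ := Cnj_cL2.inner
  have i3 : ∀ x : HP, cjX (cjX x) = x := cjX_cnj.inv
  have i4 : ∀ x y : HP, ⟪(cjX x : HP), cjX y⟫_ℂ = ⟪y, x⟫_ℂ := cjX_cnj.inner
  have i5 : ∀ (c : ℂ) (x : L2c), cL2 (c • x) = star c • cL2 x := Cnj_cL2.anti
  have hadj : ∀ y : HP, cL2 (ContinuousLinearMap.adjoint (F.Be j) y) =
      ContinuousLinearMap.adjoint (F.Be j) (cjX y) := by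
    intro y
    refine ext_inner_left ℂ fun f => ?_
    have k1 := (F.hBe j).real (F.hX j) (F.feo_J j (by linarith)) (by linarith) (by linarith) (by linarith) f
    rw [ContinuousLinearMap.adjoint_inner_right]
    have k2 : ⟪f, cL2 (ContinuousLinearMap.adjoint (F.Be j) y)⟫_ℂ =
        ⟪ContinuousLinearMap.adjoint (F.Be j) y, cL2 f⟫_ℂ := by
      have k3 := i2 (cL2 f) (ContinuousLinearMap.adjoint (F.Be j) y)
      rw [i1] at k3
      exact k3
    rw [k2, ContinuousLinearMap.adjoint_inner_left, ← k1]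
    have k5 := i4 (cjX y) (F.Be j f)
    rw [i3] at k5
    exact k5
  have hg := st.realg j ht
  have hr : (star (2 * Real.pi : ℂ) : ℂ) = 2 * Real.pi := by
    rw [Complex.star_def, map_mul, Complex.conj_ofReal]
    congr 1
    exact Complex.conj_ofNat 2
  rw [i5, hadj, cj_cm (F.G j).ha.c, hg, hr]

end FD

end Pool.Agent.Lib.MP_79abb3_an.PD
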