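import Pool.Agent.Lib.MP_79abb3_an.PD.FbV2
import Pool.Agent.Lib.MP_79abb3_an.PD.FbU
import Pool.Agent.Lib.MP_79abb3_an.PD.FeO

/-!
Theorem D, block F, bounds (7.2): the data of the flush, approximation of the outer vorticity.
-/

set_option autoImplicit false
set_option linter.unusedSectionVars false

open MeasureTheory Set Filter Topology Function
open scoped ENNReal InnerProductSpace ComplexConjugate

namespace Pool.Agent.Lib.MP_79abb3_an.PD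

open Pool.Agent.Lib.MP_79abb3_an.SC Pool.Agent.Lib.MP_79abb3_an.P25 Pool.Agent.Lib.MP_79abb3_an.FW

/-- Operators which do not increase norms with nondecreasing weights. -/
def Wmon (R : HP →L[ℂ] HP) : Prop :=
  ∀ (th : CI Real.pi) (θ : ℝ → ℝ), (∀ z ∈ Icc (0:ℝ) Real.pi, ex th z = (θ z : ℂ)) →
    (∀ z ∈ Icc (0:ℝ) Real.pi, 0 ≤ θ z) → MonotoneOn θ (Icc (0:ℝ) Real.pi) →
    ∀ x : HP, ‖Ms th (R x)‖ ≤ ‖Ms th x‖

namespace FD
variable {D : Set ℂ} (F : FD D)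

/-- **The regularised problems** (5.3): `q n` solves the linear problem with the regularised sources, `js (q n) → o` weakly. -/
structure Apx (m : ℕ) (lam : ℝ) (A : ℝ → ℝ) (b : ℝ) (v : ℝ → VD D) (mu : ℝ → ℝ) (p : Fin F.n → ℝ → HP)
    (R P : ℕ → (HP →L[ℂ] HP)) (s1 : ℕ → ℝ → L2c) (q : ℕ → ℝ → SV D) : Prop where
  R1 : ∀ n, Wmon (R n)
  P1 : ∀ n, Wmon (P n)
  R2 : ∀ x, Tendsto (fun n => R n x) atTop (𝓝 x)
  P2 : ∀ x, Tendsto (fun n => P n x) atTop (𝓝 x)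
  dat : ∀ n, LprD D v (fun _ x => (lam : ℂ) * F.d x) (s1 n) (fun _ => 0) 0 b
  src : ∀ n, ∀ t ∈ Icc 0 b, ∀ q' : SV D, ⟪((js D q' : XS D) : L2c), s1 n t⟫_ℂ =
    ∑ j, (2 * Real.pi : ℂ) * F.src m j (A t) (v t) (F.gg m A v p j t)
      (R n (SC.cm (F.G j).a (F.gg m A v p j t))) (P n (SC.cm (F.G j).a (F.gg m A v p j t))) q'
  sol : ∀ n, Lpr D v (fun _ x => (lam : ℂ) * F.d x) (s1 n) (fun _ => 0) 0 b (q n)
  re : ∀ n, ∀ t ∈ Icc 0 b, cXS D (js D (q n t)) = js D (q n t)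
  ini : Tendsto (fun n => ((js D (q n 0) : XS D) : L2c)) atTop (𝓝 (F.ov m A v mu p 0))
  lim : ∀ t ∈ Icc 0 b, ∀ y : L2c, Tendsto (fun n => ⟪y, ((js D (q n t) : XS D) : L2c)⟫_ℂ) atTop
    (𝓝 ⟪y, F.ov m A v mu p t⟫_ℂ)

/-- Existence of the regularised problems. -/
def HasApx : Prop := ∀ {m : ℕ} {lam : ℝ} {A A' : ℝ → ℝ} {b : ℝ} {v₀ : VD D} {v : ℝ → VD D} {mu mu' : ℝ → ℝ}
  {p : Fin F.n → ℝ → HP}, F.Fst m lam A A' b v₀ v mu mu' p →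
  ∃ (R P : ℕ → (HP →L[ℂ] HP)) (s1 : ℕ → ℝ → L2c) (q : ℕ → ℝ → SV D), F.Apx m lam A b v mu p R P s1 q

variable {F} {m : ℕ} {lam : ℝ} {A A' : ℝ → ℝ} {b : ℝ} {v₀ : VD D} {v : ℝ → VD D} {mu mu' : ℝ → ℝ}
  {p : Fin F.n → ℝ → HP}

theorem Fst.restr (st : F.Fst m lam A A' b v₀ v mu mu' p) {t : ℝ} (ht : t ∈ Icc 0 b) :
    F.Fst m lam A A' t v₀ v mu mu' p := by
  have hsub : Icc 0 t ⊆ Icc 0 b := Icc_subset_Icc_right ht.2
  refine ⟨st.m1, ht.1, st.l0, ?_, fun s hs => (st.dA s (hsub hs)).mono hsub, st.cA.mono hsub,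
    fun s hs => st.A0 s (hsub hs), fun j => ?_, fun j s hs => st.rp j s (hsub hs)⟩
  · have U := st.U
    exact ⟨U.cv.mono hsub, U.iv, fun s hs => U.rv s (hsub hs), U.im, fun s hs => (U.dm s (hsub hs)).mono hsub,
      U.cm.mono hsub, fun s hs => U.em s (hsub hs), fun ψ s r hs hsr hr => U.eq ψ s r hs hsr (hr.trans ht.2)⟩
  · have Pj := st.P j
    exact ⟨Pj.cont.mono hsub, Pj.init, fun φ s r hs hsr hr => Pj.eq φ s r hs hsr (hr.trans ht.2)⟩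

end FD

end Pool.Agent.Lib.MP_79abb3_an.PD
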