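import Pool.Agent.Lib.MP_79abb3_an.PD.ScE

/-!
Theorem D, scalar theory: convergence of the regularised solutions (section 5.3 of the paper D-F).
-/

set_option autoImplicit false
set_option linter.unusedSectionVars false

open MeasureTheory Set Filter Topology Function
open scoped ENNReal InnerProductSpace ComplexConjugate

namespace Pool.Agent.Lib.MP_79abb3_an.PD

open Pool.Agent.Lib.MP_79abb3_an.SC

section
variable {X V : Type} [NormedAddCommGroup X] [InnerProductSpace ℂ X] [CompleteSpace X]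
  [NormedAddCommGroup V] [InnerProductSpace ℂ V] [CompleteSpace V] {ι : V →L[ℂ] X} {a b : ℝ}

/-- Weak convergence of bounded sequences from convergence in the negative norm. -/
theorem FDom.weak (hd : FDom ι) {xn : ℕ → X} {x : X} {Bd : ℝ} (hb : ∀ n, ‖xn n‖ ≤ Bd)
    (h : Tendsto (fun n => ContinuousLinearMap.adjoint ι (xn n)) atTop
      (𝓝 (ContinuousLinearMap.adjoint ι x))) (y : X) :
    Tendsto (fun n => ⟪y, xn n⟫_ℂ) atTop (𝓝 ⟪y, x⟫_ℂ) := by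
  have hB0 : 0 ≤ Bd := (norm_nonneg _).trans (hb 0)
  rw [Metric.tendsto_atTop]
  intro ε hε
  obtain ⟨v, hv⟩ : ∃ v, ‖y - ι v‖ < ε / (2 * (Bd + ‖x‖ + 1)) := by
    obtain ⟨v, hv⟩ := hd.dense.exists_dist_lt y (show 0 < ε / (2 * (Bd + ‖x‖ + 1)) by positivity)
    exact ⟨v, by rw [← dist_eq_norm]; exact hv⟩
  have h1 : Tendsto (fun n => ⟪v, ContinuousLinearMap.adjoint ι (xn n)⟫_ℂ) atTop
      (𝓝 ⟪v, ContinuousLinearMap.adjoint ι x⟫_ℂ) := tendsto_const_nhds.inner h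
  obtain ⟨N, hN⟩ := Metric.tendsto_atTop.1 h1 (ε / 2) (half_pos hε)
  refine ⟨N, fun n hn => ?_⟩
  have h2 := hN n hn
  rw [ContinuousLinearMap.adjoint_inner_right, ContinuousLinearMap.adjoint_inner_right, dist_eq_norm,
    ← inner_sub_right] at h2
  rw [dist_eq_norm, ← inner_sub_right]
  have e : ⟪y, xn n - x⟫_ℂ = ⟪y - ι v, xn n - x⟫_ℂ + ⟪ι v, xn n - x⟫_ℂ := by
    rw [← inner_add_left, sub_add_cancel]
  have h3 : ‖⟪y - ι v, xn n - x⟫_ℂ‖ ≤ ε / 2 := by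
    refine (norm_inner_le_norm _ _).trans ?_
    have h4 : ‖xn n - x‖ ≤ Bd + ‖x‖ + 1 := (norm_sub_le _ _).trans (by linarith [hb n])
    calc ‖y - ι v‖ * ‖xn n - x‖ ≤ ε / (2 * (Bd + ‖x‖ + 1)) * (Bd + ‖x‖ + 1) := by
          gcongr
      _ = ε / 2 := by field_simp
  rw [e]
  calc ‖⟪y - ι v, xn n - x⟫_ℂ + ⟪ι v, xn n - x⟫_ℂ‖ ≤ ‖⟪y - ι v, xn n - x⟫_ℂ‖ + ‖⟪ι v, xn n - x⟫_ℂ‖ := norm_add_le _ _
    _ < ε / 2 + ε / 2 := add_lt_add_of_le_of_lt h3 h2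
    _ = ε := by ring

theorem norm_le_of_weak {xn : ℕ → X} {x : X} {R : ℝ} (h : Tendsto (fun n => ⟪x, xn n⟫_ℂ) atTop (𝓝 ⟪x, x⟫_ℂ))
    (hb : ∀ᶠ n in atTop, ‖xn n‖ ≤ R) : ‖x‖ ≤ R := by
  have h1 : ‖⟪x, x⟫_ℂ‖ ≤ ‖x‖ * R := by
    refine le_of_tendsto h.norm (hb.mono fun n hn => ?_)
    exact (norm_inner_le_norm _ _).trans (mul_le_mul_of_nonneg_left hn (norm_nonneg _))
  have h2 : ‖⟪x, x⟫_ℂ‖ = ‖x‖ * ‖x‖ := by
    rw [inner_self_eq_norm_sq_to_K]; simp [pow_two]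
  rw [h2] at h1
  rcases eq_or_ne x 0 with h0 | h0
  · obtain ⟨n, hn⟩ := hb.exists
    rw [h0, norm_zero]
    exact (norm_nonneg _).trans hn
  · exact le_of_mul_le_mul_left h1 (norm_pos_iff.2 h0)

/-- `⟪P y, y⟫ ≥ 2 Re ⟪P x, y⟫ - ⟪P x, x⟫` -/
theorem form_low {P : X →L[ℂ] X} (hP : ∀ x y, ⟪P x, y⟫_ℂ = ⟪x, P y⟫_ℂ) (hp : ∀ x, 0 ≤ (⟪P x, x⟫_ℂ).re)
    (x y : X) : 2 * (⟪P x, y⟫_ℂ).re - (⟪P x, x⟫_ℂ).re ≤ (⟪P y, y⟫_ℂ).re := by
  have h1 := hp (y - x)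
  rw [map_sub, inner_sub_left, inner_sub_right, inner_sub_right] at h1
  have h2 : (⟪P y, x⟫_ℂ).re = (⟪P x, y⟫_ℂ).re := by
    rw [hP, ← inner_conj_symm, Complex.conj_re]
  simp only [Complex.sub_re] at h1
  linarith

/-- Lower semicontinuity of a nonnegative form. -/
theorem form_lsc {P : X →L[ℂ] X} (hP : ∀ x y, ⟪P x, y⟫_ℂ = ⟪x, P y⟫_ℂ) (hp : ∀ x, 0 ≤ (⟪P x, x⟫_ℂ).re)
    {xn : ℕ → X} {x : X} (h : ∀ y, Tendsto (fun n => ⟪y, xn n⟫_ℂ) atTop (𝓝 ⟪y, x⟫_ℂ)) {R : ℝ}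
    (hb : ∀ᶠ n in atTop, (⟪P (xn n), xn n⟫_ℂ).re ≤ R) : (⟪P x, x⟫_ℂ).re ≤ R := by
  have h1 : Tendsto (fun n => 2 * (⟪P x, xn n⟫_ℂ).re - (⟪P x, x⟫_ℂ).re) atTop
      (𝓝 (2 * (⟪P x, x⟫_ℂ).re - (⟪P x, x⟫_ℂ).re)) :=
    (((Complex.continuous_re.tendsto _).comp (h (P x))).const_mul 2).sub_const _
  have h2 := le_of_tendsto h1 (hb.mono fun n hn => (form_low hP hp x (xn n)).trans hn)
  linarith

/-- Lower semicontinuity of the time integral of a nonnegative form. -/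
theorem form_lsc_int {P : X →L[ℂ] X} (hP : ∀ x y, ⟪P x, y⟫_ℂ = ⟪x, P y⟫_ℂ) (hp : ∀ x, 0 ≤ (⟪P x, x⟫_ℂ).re)
    {xn : ℕ → ℝ → X} {x : ℝ → X} {s t Bd : ℝ} (hst : s ≤ t) (hx : ContinuousOn x (Icc s t))
    (hxn : ∀ n, ContinuousOn (xn n) (Icc s t)) (hb : ∀ n, ∀ r ∈ Icc s t, ‖xn n r‖ ≤ Bd)
    (h : ∀ r ∈ Icc s t, ∀ y, Tendsto (fun n => ⟪y, xn n r⟫_ℂ) atTop (𝓝 ⟪y, x r⟫_ℂ)) {R : ℝ}
    (hR : ∀ᶠ n in atTop, ∫ r in s..t, (⟪P (xn n r), xn n r⟫_ℂ).re ≤ R) :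
    ∫ r in s..t, (⟪P (x r), x r⟫_ℂ).re ≤ R := by
  have hB0 : 0 ≤ Bd := (norm_nonneg _).trans (hb 0 s ⟨le_rfl, hst⟩)
  have hu : uIcc s t = Icc s t := uIcc_of_le hst
  have cP : ContinuousOn (fun r => P (x r)) (Icc s t) := P.continuous.comp_continuousOn hx
  have c1 : ContinuousOn (fun r => (⟪P (x r), x r⟫_ℂ).re) (uIcc s t) := by
    rw [hu]; exact Complex.continuous_re.comp_continuousOn (cP.inner hx)
  have c2 : ∀ n, ContinuousOn (fun r => (⟪P (x r), xn n r⟫_ℂ).re) (uIcc s t) := fun n => by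
    rw [hu]; exact Complex.continuous_re.comp_continuousOn (cP.inner (hxn n))
  have c3 : ∀ n, ContinuousOn (fun r => (⟪P (xn n r), xn n r⟫_ℂ).re) (uIcc s t) := fun n => by
    rw [hu]
    exact Complex.continuous_re.comp_continuousOn ((P.continuous.comp_continuousOn (hxn n)).inner (hxn n))
  obtain ⟨Mx, hMx⟩ : ∃ Mx, ∀ r ∈ Icc s t, ‖P (x r)‖ ≤ Mx := by
    obtain ⟨m, _, hm⟩ := isCompact_Icc.exists_isMaxOn ⟨s, le_rfl, hst⟩ cP.norm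
    exact ⟨_, fun r hr => hm hr⟩
  have lim : Tendsto (fun n => ∫ r in s..t, (⟪P (x r), xn n r⟫_ℂ).re) atTop
      (𝓝 (∫ r in s..t, (⟪P (x r), x r⟫_ℂ).re)) := by
    refine intervalIntegral.tendsto_integral_filter_of_dominated_convergence (fun _ => Mx * Bd)
      (Eventually.of_forall fun n => ?_) (Eventually.of_forall fun n => ?_) intervalIntegrable_const ?_
    · have h1 : IntervalIntegrable (fun r => (⟪P (x r), xn n r⟫_ℂ).re) volume s t := (c2 n).intervalIntegrable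
      exact h1.def'.aestronglyMeasurable
    · refine Eventually.of_forall fun r hr => ?_
      rw [uIoc_of_le hst] at hr
      have hr' : r ∈ Icc s t := ⟨hr.1.le, hr.2⟩
      refine (Complex.abs_re_le_norm _).trans ((norm_inner_le_norm _ _).trans ?_)
      have h1 := hMx r hr'
      have h2 := hb n r hr'
      have h3 : 0 ≤ Mx := (norm_nonneg _).trans h1
      gcongr
    · refine Eventually.of_forall fun r hr => ?_
      rw [uIoc_of_le hst] at hr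
      exact (Complex.continuous_re.tendsto _).comp (h r ⟨hr.1.le, hr.2⟩ (P (x r)))
  have h2 : Tendsto (fun n => 2 * (∫ r in s..t, (⟪P (x r), xn n r⟫_ℂ).re) - ∫ r in s..t, (⟪P (x r), x r⟫_ℂ).re)
      atTop (𝓝 (2 * (∫ r in s..t, (⟪P (x r), x r⟫_ℂ).re) - ∫ r in s..t, (⟪P (x r), x r⟫_ℂ).re)) :=
    (lim.const_mul 2).sub_const _
  have h3 := le_of_tendsto h2 (hR.mono fun n hn => by
    refine le_trans ?_ hn
    have i1 : IntervalIntegrable (fun r => 2 * (⟪P (x r), xn n r⟫_ℂ).re) volume s t :=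
      (c2 n).intervalIntegrable.const_mul 2
    have i2 : IntervalIntegrable (fun r => (⟪P (x r), x r⟫_ℂ).re) volume s t := c1.intervalIntegrable
    have i3 : IntervalIntegrable (fun r => (⟪P (xn n r), xn n r⟫_ℂ).re) volume s t := (c3 n).intervalIntegrable
    rw [← intervalIntegral.integral_const_mul, ← intervalIntegral.integral_sub i1 i2]
    exact intervalIntegral.integral_mono_on hst (i1.sub i2) i3 fun r _ => form_low hP hp (x r) (xn n r))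
  linarith

end

section
variable {D : Set ℂ} {B : VD D →L[ℂ] XS D →L[ℂ] XS D} {v : ℝ → VD D} {W : ℝ → ℂ → ℂ} {ρ : ℝ → XS D}
  {a b C : ℝ} {o : ℝ → XS D}

/-- **5.3** Convergence in the negative norm. -/
theorem KEq.lim (hD : Bornology.IsBounded D) (hB : IsKB D C B) (hv : ContinuousOn v (Icc a b))
    (hW : ContinuousOn (fun t => mm (W t)) (Icc a b)) (h : KEq D B v W ρ a b o)
    {q : ℕ → ℝ → SV D} {s1 : ℕ → ℝ → L2c} {s2 : ℕ → ℝ → Yd L4c} (hd : ∀ n, LprD D v W (s1 n) (s2 n) a b)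
    (hq : ∀ n, Lpr D v W (s1 n) (s2 n) a b (q n))
    (hρ : ∀ ε, 0 < ε → ∀ᶠ n in atTop, ∀ t ∈ Icc a b, ‖rS D (s1 n t) (s2 n t) - ρ t‖ ≤ ε)
    (h0 : Tendsto (fun n => js D (q n a)) atTop (𝓝 (o a))) {t : ℝ} (ht : t ∈ Icc a b) :
    Tendsto (fun n => jsA D (js D (q n t))) atTop (𝓝 (jsA D (o t))) := by
  have hab : a ≤ b := ht.1.trans ht.2
  obtain ⟨m, _, hm⟩ := isCompact_Icc.exists_isMaxOn ⟨a, le_rfl, hab⟩ hv.norm
  obtain ⟨m', _, hm'⟩ := isCompact_Icc.exists_isMaxOn ⟨a, le_rfl, hab⟩ hW.norm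
  obtain ⟨Cu, hCu, hb⟩ := exists_neg_bound hB hv hW (U := ‖v m‖) (cW := ‖mm (W m')‖) (fun t ht => hm ht)
    (fun t ht => hm' ht)
  have h1 : ∀ n, KEq D B v W (fun t => rS D (s1 n t) (s2 n t) - ρ t) a b (fun t => js D (q n t) - o t) :=
    fun n => ((hq n).keq hD hB (hd n)).sub h hv hW
  have h2 : Tendsto (fun n => ‖jsA D (js D (q n a) - o a)‖ ^ 2) atTop (𝓝 0) := by
    have e1 : Tendsto (fun n => js D (q n a) - o a) atTop (𝓝 (o a - o a)) := h0.sub_const _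
    rw [sub_self] at e1
    have e2 := (((jsA D).continuous.tendsto 0).comp e1).norm.pow 2
    rw [map_zero, norm_zero, zero_pow two_ne_zero] at e2
    exact e2
  rw [tendsto_iff_norm_sub_tendsto_zero]
  have key : Tendsto (fun n => ‖jsA D (js D (q n t)) - jsA D (o t)‖ ^ 2) atTop (𝓝 0) := by
    rw [Metric.tendsto_atTop]
    intro ε hε
    obtain ⟨δ, hδ⟩ : ∃ δ, δ = √(ε / (2 * (Cu + 1))) := ⟨_, rfl⟩
    have hδ0 : 0 < δ := by rw [hδ]; positivity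
    have hδ2 : δ ^ 2 = ε / (2 * (Cu + 1)) := by rw [hδ, Real.sq_sqrt (by positivity)]
    obtain ⟨N1, hN1⟩ := eventually_atTop.1 (hρ δ hδ0)
    obtain ⟨N2, hN2⟩ := Metric.tendsto_atTop.1 h2 (ε / (2 * (Cu + 1))) (by positivity)
    refine ⟨max N1 N2, fun n hn => ?_⟩
    have h3 := hb _ _ (h1 n) δ (hN1 n (le_of_max_le_left hn)) t ht
    have h4 := hN2 n (le_of_max_le_right hn)
    rw [Real.dist_eq, sub_zero, abs_of_nonneg (sq_nonneg _)] at h4 ⊢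
    rw [map_sub, hδ2] at h3
    refine h3.trans_lt ?_
    have h5 : Cu * (‖jsA D (js D (q n a) - o a)‖ ^ 2 + ε / (2 * (Cu + 1))) ≤
        Cu * (ε / (2 * (Cu + 1)) + ε / (2 * (Cu + 1))) := by gcongr
    refine h5.trans_lt ?_
    have h6 : Cu * (ε / (2 * (Cu + 1)) + ε / (2 * (Cu + 1))) = ε * (Cu / (Cu + 1)) := by
      field_simp; ring
    rw [h6]
    have h7 : Cu / (Cu + 1) < 1 := by rw [div_lt_one (by positivity)]; linarith
    nlinarith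
  have h8 := (Real.continuous_sqrt.tendsto 0).comp key
  rw [Real.sqrt_zero] at h8
  refine h8.congr fun n => ?_
  exact Real.sqrt_sq (norm_nonneg _)

/-- **5.3** Weak convergence of the regularised solutions. -/
theorem KEq.weak (hD : Bornology.IsBounded D) (hB : IsKB D C B) (hv : ContinuousOn v (Icc a b))
    (hW : ContinuousOn (fun t => mm (W t)) (Icc a b)) (h : KEq D B v W ρ a b o)
    {q : ℕ → ℝ → SV D} {s1 : ℕ → ℝ → L2c} {s2 : ℕ → ℝ → Yd L4c} (hd : ∀ n, LprD D v W (s1 n) (s2 n) a b)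
    (hq : ∀ n, Lpr D v W (s1 n) (s2 n) a b (q n))
    (hρ : ∀ ε, 0 < ε → ∀ᶠ n in atTop, ∀ t ∈ Icc a b, ‖rS D (s1 n t) (s2 n t) - ρ t‖ ≤ ε)
    (h0 : Tendsto (fun n => js D (q n a)) atTop (𝓝 (o a))) {t Bd : ℝ} (ht : t ∈ Icc a b)
    (hb : ∀ n, ‖js D (q n t)‖ ≤ Bd) (y : XS D) :
    Tendsto (fun n => ⟪y, js D (q n t)⟫_ℂ) atTop (𝓝 ⟪y, o t⟫_ℂ) :=
  (fdomS hD).weak hb (h.lim hD hB hv hW hd hq hρ h0 ht) y

end

/-! ### Weights -/

section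
variable {D : Set ℂ}

/-- multiplication by a bounded real weight, compressed to `L²(D)` -/
noncomputable def mP (D : Set ℂ) (p : ℂ → ℝ) : XS D →L[ℂ] XS D :=
  (PS D).comp ((mm (fun x => (p x : ℂ))).comp (XS D).subtypeL)

/-- bounded nonnegative measurable weights -/
structure PwS (p : ℂ → ℝ) (c : ℝ) : Prop where
  m : AEStronglyMeasurable p volume
  p0 : ∀ x, 0 ≤ p x
  p1 : ∀ x, p x ≤ c

theorem PwS.bm {p : ℂ → ℝ} {c : ℝ} (h : PwS p c) : Bm (fun x => (p x : ℂ)) c :=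
  ⟨Complex.continuous_ofReal.comp_aestronglyMeasurable h.m, fun x => by
    rw [Complex.norm_real, Real.norm_eq_abs, abs_of_nonneg (h.p0 x)]
    exact h.p1 x⟩

theorem inner_mP {p : ℂ → ℝ} (x y : XS D) : ⟪x, mP D p y⟫_ℂ =
    ⟪(x : L2c), mm (fun x => (p x : ℂ)) (y : L2c)⟫_ℂ := inner_PS D x _

private theorem mm_symm {p : ℂ → ℝ} {c : ℝ} (h : PwS p c) (u v : L2c) :
    ⟪mm (fun x => (p x : ℂ)) u, v⟫_ℂ = ⟪u, mm (fun x => (p x : ℂ)) v⟫_ℂ := by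
  rw [mm_inner h.bm]
  simp only [Complex.conj_ofReal]

theorem mP_symm {p : ℂ → ℝ} {c : ℝ} (h : PwS p c) (x y : XS D) : ⟪mP D p x, y⟫_ℂ = ⟪x, mP D p y⟫_ℂ := by
  have e1 : ⟪mP D p x, y⟫_ℂ = conj ⟪y, mP D p x⟫_ℂ := (inner_conj_symm (mP D p x) y).symm
  rw [e1, inner_mP, inner_mP, inner_conj_symm, mm_symm h]

theorem mP_re {p : ℂ → ℝ} {c : ℝ} (h : PwS p c) (x : XS D) :
    (⟪mP D p x, x⟫_ℂ).re = ∫ y, p y * ‖((x : XS D) : L2c) y‖ ^ 2 := by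
  rw [mP_symm h, inner_mP]
  have e1 : ⟪(x : L2c), mm (fun x => (p x : ℂ)) (x : L2c)⟫_ℂ =
      ((∫ y, p y * ‖((x : XS D) : L2c) y‖ ^ 2 : ℝ) : ℂ) := by
    rw [L2.inner_def, ← integral_complex_ofReal]
    refine integral_congr_ae ?_
    filter_upwards [mm_coe h.bm (x : L2c)] with y hy
    rw [hy]
    show ⟪((x : XS D) : L2c) y, (p y : ℂ) • (((x : XS D) : L2c) y)⟫_ℂ = _
    rw [inner_smul_right, inner_self_eq_norm_sq_to_K]
    push_cast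
    rfl
  rw [e1, Complex.ofReal_re]

private theorem mP_pos {p : ℂ → ℝ} {c : ℝ} (h : PwS p c) (x : XS D) : 0 ≤ (⟪mP D p x, x⟫_ℂ).re := by
  rw [mP_re h]
  exact integral_nonneg fun y => mul_nonneg (h.p0 y) (by positivity)

/-- Weighted norms at a time. -/
theorem weight_lsc {p : ℂ → ℝ} {c : ℝ} (h : PwS p c) {xn : ℕ → XS D} {x : XS D}
    (hw : ∀ y : XS D, Tendsto (fun n => ⟪y, xn n⟫_ℂ) atTop (𝓝 ⟪y, x⟫_ℂ)) {R : ℝ}
    (hb : ∀ᶠ n in atTop, ∫ y, p y * ‖((xn n : XS D) : L2c) y‖ ^ 2 ≤ R) :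
    ∫ y, p y * ‖((x : XS D) : L2c) y‖ ^ 2 ≤ R := by
  rw [← mP_re h]
  exact form_lsc (mP_symm h) (mP_pos h) hw (hb.mono fun n hn => by rw [mP_re h]; exact hn)

/-- Time integrals of weighted norms. -/
theorem weight_lsc_int {p : ℂ → ℝ} {c : ℝ} (h : PwS p c) {xn : ℕ → ℝ → XS D} {x : ℝ → XS D} {s t Bd : ℝ}
    (hst : s ≤ t) (hx : ContinuousOn x (Icc s t)) (hxn : ∀ n, ContinuousOn (xn n) (Icc s t))
    (hb : ∀ n, ∀ r ∈ Icc s t, ‖xn n r‖ ≤ Bd)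
    (hw : ∀ r ∈ Icc s t, ∀ y : XS D, Tendsto (fun n => ⟪y, xn n r⟫_ℂ) atTop (𝓝 ⟪y, x r⟫_ℂ)) {R : ℝ}
    (hR : ∀ᶠ n in atTop, ∫ r in s..t, ∫ y, p y * ‖((xn n r : XS D) : L2c) y‖ ^ 2 ≤ R) :
    ∫ r in s..t, ∫ y, p y * ‖((x r : XS D) : L2c) y‖ ^ 2 ≤ R := by
  simp only [← mP_re h] at hR ⊢
  exact form_lsc_int (mP_symm h) (mP_pos h) hst hx hxn hb hw hR

end

end Pool.Agent.Lib.MP_79abb3_an.PD
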