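import Pool.Agent.Lib.MP_79abb3_an.PD.FbW
import Pool.Agent.Lib.MP_79abb3_an.PD.ScF

/-!
Theorem D, block F, bounds (7.2): the energy inequality of the outer vorticity.
-/

set_option autoImplicit false
set_option linter.unusedSectionVars false

open MeasureTheory Set Filter Topology Function
open scoped ENNReal InnerProductSpace ComplexConjugate

namespace Pool.Agent.Lib.MP_79abb3_an.PD

open Pool.Agent.Lib.MP_79abb3_an.SC Pool.Agent.Lib.MP_79abb3_an.P25 Pool.Agent.Lib.MP_79abb3_an.FW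

namespace FD
variable {D : Set ℂ}

/-- **7.1** in the limit. Proof: `apr_o` for the regularised problems (`Wmon` for `th`, `‖Ms th (cm a g)‖ ≤ C ‖Ms th g‖`), then
`n → ∞`: `ini`, `lim` (`norm_le_of_weak`). -/
theorem ov_energy (F : FD D) {Y : ℝ} (hY : 0 ≤ Y) : ∃ (m₀ : ℕ) (C : ℝ), 1 ≤ m₀ ∧ 0 ≤ C ∧ ∀ {m : ℕ} (_ : m₀ ≤ m)
    {lam : ℝ} {A A' : ℝ → ℝ} {b : ℝ} {v₀ : VD D} {v : ℝ → VD D} {mu mu' : ℝ → ℝ} {p : Fin F.n → ℝ → HP}
    (_ : F.Fst m lam A A' b v₀ v mu mu' p) {R P : ℕ → (HP →L[ℂ] HP)} {s1 : ℕ → ℝ → L2c} {q : ℕ → ℝ → SV D}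
    (_ : F.Apx m lam A b v mu p R P s1 q)
    (_ : ∀ t ∈ Icc 0 b, ∀ j, F.k j * A t ≤ 1 ∧ ‖LT (F.G j).ω (F.G j).lam (3 / 8) (F.ht m j (A t) (v t))‖ ≤ Y),
    ∀ t ∈ Icc 0 b, ‖F.ov m A v mu p t‖ ^ 2 ≤ ‖F.ov m A v mu p 0‖ ^ 2 + C * ∫ r in (0:ℝ)..t, ∑ j,
      ((F.G j).srR (F.N m j) (F.k j * A r) (4 * F.u) (8 * F.u) (F.gg m A v p j r)) ^ 2 := by
  obtain ⟨S, hS⟩ : ∃ S : Fin F.n → ℝ, S = fun j => ∑' n, ‖(F.G j).a n‖ := ⟨_, rfl⟩
  have hS0 : ∀ j, 0 ≤ S j := fun j => by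
    rw [hS]
    exact tsum_nonneg fun n => norm_nonneg _
  have hSs : ∀ j, S j ≤ ∑ i, S i := fun j =>
    Finset.single_le_sum (f := S) (fun i _ => hS0 i) (Finset.mem_univ j)
  obtain ⟨m₀, C, hm₀, hC, key⟩ := F.apr_o (Finset.sum_nonneg fun i _ => hS0 i : (0:ℝ) ≤ ∑ i, S i) hY
  refine ⟨m₀, C, hm₀, hC, ?_⟩
  intro m hm lam A A' b v₀ v mu mu' p st R P s1 q ap hb t ht
  have hw : ∀ (L : HP →L[ℂ] HP), Wmon L → ∀ j (g : HP),
      ‖Ms (F.thw m j) (L (SC.cm (F.G j).a g))‖ ≤ (∑ i, S i) * ‖Ms (F.thw m j) g‖ := by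
    intro L hL j g
    have hN : 1 ≤ F.N m j := Nat.one_le_iff_ne_zero.2
      (Nat.mul_ne_zero (Nat.one_le_iff_ne_zero.1 (F.fl.kpos j)) (Nat.one_le_iff_ne_zero.1 st.m1))
    have hN' : (1:ℝ) ≤ (F.N m j : ℝ) := by exact_mod_cast hN
    have hpos : 0 < (F.G j).ω * (F.N m j : ℝ) := by
      rw [Pool.Agent.Lib.MP_79abb3_an.PD.Geo.om_pi (F.G j), one_mul]
      linarith
    have wg := SC.tht_wgt (H := Real.pi) hpos
    have h1 := hL (F.thw m j) (tht (zl ((F.G j).ω * F.N m j)) (4 * ((F.G j).ω * F.N m j)))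
      (fun z hz => Pool.Agent.Lib.MP_79abb3_an.FW.ex_rc _ _ hz) (fun z hz => wg.nn z hz)
      (fun x hx z hz hxz => wg.mono x hx z hz hxz) (SC.cm (F.G j).a g)
    refine h1.trans ?_
    rw [SC.Ms_cm _ (F.G j).sa]
    have h2 := SC.norm_cm_apply_le (F.G j).sa (Ms (F.thw m j) g)
    have h3 : (∑' n, ‖(F.G j).a n‖) = S j := by rw [hS]
    rw [h3] at h2
    exact h2.trans (mul_le_mul_of_nonneg_right (hSs j) (norm_nonneg _))
  obtain ⟨I, hI⟩ : ∃ I : ℝ, I = ∫ r in (0:ℝ)..t, ∑ j,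
      ((F.G j).srR (F.N m j) (F.k j * A r) (4 * F.u) (8 * F.u) (F.gg m A v p j r)) ^ 2 := ⟨_, rfl⟩
  have hE : ∀ n, ‖js D (q n t)‖ ^ 2 ≤ ‖js D (q n 0)‖ ^ 2 + C * I := by
    intro n
    have h1 := key hm (ap.dat n) (ap.sol n) st.contA (fun j => st.contg j) (ap.src n)
      (fun r hr => ⟨st.A0 r hr, fun j => ⟨(hb r hr j).1, (hb r hr j).2, hw _ (ap.R1 n) j _,
        hw _ (ap.P1 n) j _⟩⟩) le_rfl ht.1 ht.2
    rw [← hI] at h1
    have h2 : 0 ≤ ∫ r in (0:ℝ)..t, ‖q n r‖ ^ 2 :=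
      intervalIntegral.integral_nonneg ht.1 fun r _ => by positivity
    have h3 : 0 ≤ 2 * lam * (∫ r in (0:ℝ)..t, ∫ x, (F.d x).re * ‖((js D (q n r) : XS D) : L2c) x‖ ^ 2) := by
      refine mul_nonneg (mul_nonneg zero_le_two st.l0) ?_
      refine intervalIntegral.integral_nonneg ht.1 fun r _ => ?_
      exact integral_nonneg fun x => mul_nonneg (F.d01 x).1 (by positivity)
    linarith
  have hini : Tendsto (fun n => ‖js D (q n 0)‖ ^ 2) atTop (𝓝 (‖F.ov m A v mu p 0‖ ^ 2)) :=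
    (ap.ini.norm).pow 2
  rw [← hI]
  refine le_of_forall_pos_le_add fun ε hε => ?_
  have hev : ∀ᶠ n in atTop, ‖((js D (q n t) : XS D) : L2c)‖ ≤ √(‖F.ov m A v mu p 0‖ ^ 2 + C * I + ε) := by
    filter_upwards [hini.eventually (gt_mem_nhds (show ‖F.ov m A v mu p 0‖ ^ 2 <
      ‖F.ov m A v mu p 0‖ ^ 2 + ε by linarith))] with n hn
    have h1 := hE n
    exact Real.le_sqrt_of_sq_le (by
      show ‖js D (q n t)‖ ^ 2 ≤ _
      linarith)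
  have h0 : 0 ≤ ‖F.ov m A v mu p 0‖ ^ 2 + C * I + ε := by
    obtain ⟨n, hn⟩ := (hini.eventually (gt_mem_nhds (show ‖F.ov m A v mu p 0‖ ^ 2 <
      ‖F.ov m A v mu p 0‖ ^ 2 + ε by linarith))).exists
    have h1 := hE n
    have h2 := sq_nonneg ‖js D (q n t)‖
    linarith
  have h4 := norm_le_of_weak (ap.lim t ht (F.ov m A v mu p t)) hev
  calc ‖F.ov m A v mu p t‖ ^ 2 ≤ √(‖F.ov m A v mu p 0‖ ^ 2 + C * I + ε) ^ 2 := by gcongr
    _ = _ := Real.sq_sqrt h0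

end FD

end Pool.Agent.Lib.MP_79abb3_an.PD
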