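import Pool.Agent.Lib.MP_79abb3_an.PD.FeDef
import Pool.Agent.Lib.MP_79abb3_an.PD.CoC5

/-!
Theorem D, block F: functions of `H¹₀(D)` in the strips, cut-offs.
-/

set_option autoImplicit false
set_option linter.unusedSectionVars false

open MeasureTheory Set Filter Topology Function
open scoped ENNReal InnerProductSpace ComplexConjugate

namespace Pool.Agent.Lib.MP_79abb3_an.PD

open Pool.Agent.Lib.MP_79abb3_an.SC Pool.Agent.Lib.MP_79abb3_an.P25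

section
variable {D : Set ℂ}

private theorem fer3a_sx (ϕ : AdmS D) :
    sx D (gpV D ϕ) = gpX D ⟨(ϕ : ℂ → ℂ), ϕ.2.1, (tsupport_fderiv_subset ℝ).trans ϕ.2.2⟩ := by
  apply Subtype.ext
  rfl

variable {H : ℝ} [hH : Fact (0 < H)] {θ : ℝ × ℝ → ℂ}

private theorem fer3a_bHc (h : PC H θ) (n : ℤ) :
    bHc θ n = ka (Real.pi / H) n • (fHc θ : HH H) n + (fHc (dZc θ) : HH H) n := by
  rw [bHc_apply h, fHc_apply h, fHc_apply h.zz, map_add, map_smul]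

/-- `B* (g θ) = g B* θ + g' θ` -/
private theorem fer3a_mul {g : ℝ → ℝ} (hg : ContDiff ℝ ((⊤ : ℕ∞) : WithTop ℕ∞) g) (h : PC H θ)
    (hg1 : ContDiff ℝ ((⊤ : ℕ∞) : WithTop ℕ∞) (deriv g)) :
    (bHc (fun q => (g q.2 : ℂ) * θ q) : HH H) =
      Ms (Pool.Agent.Lib.MP_79abb3_an.FW.rc g hg.continuous) (bHc θ) +
      Ms (Pool.Agent.Lib.MP_79abb3_an.FW.rc (deriv g) hg1.continuous) (fHc θ) := by
  have hp : PC H fun q => (g q.2 : ℂ) * θ q := PC.mulR (PY.of_z H hg) h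
  have hp1 : PC H fun q => ((deriv g q.2 : ℝ) : ℂ) * θ q := PC.mulR (PY.of_z H hg1) h
  have hp2 : PC H fun q => (g q.2 : ℂ) * dZc θ q := PC.mulR (PY.of_z H hg) h.zz
  have e1 : dZc (fun q => (g q.2 : ℂ) * θ q) = fun q => ((deriv g q.2 : ℝ) : ℂ) * θ q + (g q.2 : ℂ) * dZc θ q := by
    funext q
    exact PC.zz_mul_z hg h q
  refine lp.ext (funext fun n => ?_)
  rw [fer3a_bHc hp, e1, fHc_add hp1 hp2, ← Ms_fHc hg h, ← Ms_fHc hg1 h, ← Ms_fHc hg h.zz, lp.coeFn_add, Pi.add_apply,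
    lp.coeFn_add, Pi.add_apply, Ms_apply, Ms_apply, Ms_apply, Ms_apply, fer3a_bHc h, map_add, map_smul]
  abel

end

namespace FD
variable {D : Set ℂ} (F : FD D)

private theorem fer3a_zero (j : Fin F.n) (ϕ : AdmS D) (y : ℝ) : (ϕ : ℂ → ℂ) (F.X j (y, 0)) = 0 := by
  have h1 : F.X j (y, 0) ∉ D := fun h => by
    have h2 := (F.hX j).bdry y
    rw [frontier, F.hD.op.interior_eq] at h2
    exact h2.2 h
  exact image_eq_zero_of_notMem_tsupport fun h => h1 (ϕ.2.2 h)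

private theorem fer3a_gaF (j : Fin F.n) (e e' : ℝ) (ϕ : AdmS D) :
    gaF (F.X j) e e' (ϕ : ℂ → ℂ) = fun q => ((ctf e e' q.2 : ℝ) : ℂ) * (ϕ : ℂ → ℂ) (F.X j q) := by
  funext q
  unfold gaF
  rw [F.fer3a_zero j ϕ 0, sub_zero]

private theorem fer3a_y0 (j : Fin F.n) (e e' : ℝ) (ϕ : AdmS D) (y : ℝ) : gaF (F.X j) e e' (ϕ : ℂ → ℂ) (y, 0) = 0 := by
  rw [F.fer3a_gaF j e e' ϕ]
  show ((ctf e e' 0 : ℝ) : ℂ) * (ϕ : ℂ → ℂ) (F.X j (y, 0)) = 0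
  rw [F.fer3a_zero j ϕ y, mul_zero]

private theorem fer3a_EE (j : Fin F.n) {e e' : ℝ} (h1 : e < e') (ϕ : AdmS D) :
    SC.EE (F.G j).ω (bHc (gaF (F.X j) e e' (ϕ : ℂ → ℂ))) = (fHc (gaF (F.X j) e e' (ϕ : ℂ → ℂ)) : HP) := by
  rw [(F.G j).hω]
  exact EE_bHc (gaF_pc (F.hX j) h1 ϕ.2.1.smo) fun y => F.fer3a_y0 j e e' ϕ y

private theorem fer3a_cut (j : Fin F.n) {e e' : ℝ} (h1 : e < e') (h2 : e' ≤ 13 * F.u) (ϕ : AdmS D) :
    gaF (F.X j) e e' (ϕ : ℂ → ℂ) =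
      fun q => ((ctf e e' q.2 : ℝ) : ℂ) * gaF (F.X j) (13 * F.u) (14 * F.u) (ϕ : ℂ → ℂ) q := by
  rw [F.fer3a_gaF j e e' ϕ, F.fer3a_gaF j _ _ ϕ]
  funext q
  beta_reduce
  by_cases hq : q.2 < e'
  · have h3 : ctf (13 * F.u) (14 * F.u) q.2 = 1 := ctf_one (by linarith [F.u0]) (by linarith)
    rw [h3, Complex.ofReal_one, one_mul]
  · rw [ctf_zero h1 (not_lt.1 hq), Complex.ofReal_zero, zero_mul, zero_mul]

/-- `E (B* (ω θ)) = ω θ_s = a B θ` for `q = gp θ ∈ SV D` (density: `q = gpV ϕ`, `ϕ ∈ C_c^∞(D)`, then `gaF = ω (ϕ ∘ X)` because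
`ϕ (X (0,0)) = 0`; `EE_bHc`, `cm_fHc`). -/
theorem EE_La (j : Fin F.n) {e e' : ℝ} (h0 : 0 < e) (h1 : e < e') (h2 : e' ≤ 14 * F.u) {L : XD D →L[ℂ] HP}
    {B : L2c →L[ℂ] HP} (hL : IsLa D (F.X j) e e' L) (hB : IsPB (F.X j) e e' (F.J j) B) (q : SV D) :
    SC.EE (F.G j).ω (L (sx D q)) = SC.cm (F.G j).a (B ((js D q : XS D) : L2c)) := by
  have hcl : IsClosed {q : SV D | SC.EE (F.G j).ω (L (sx D q)) =
      SC.cm (F.G j).a (B ((js D q : XS D) : L2c))} :=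
    isClosed_eq ((SC.EE (F.G j).ω).continuous.comp (L.continuous.comp (sx D).continuous))
      ((SC.cm (F.G j).a).continuous.comp (B.continuous.comp (continuous_subtype_val.comp (js D).continuous)))
  refine isClosed_property (gpV_dense D) hcl (fun ϕ => ?_) q
  show SC.EE (F.G j).ω (L (sx D (gpV D ϕ))) = SC.cm (F.G j).a (B ((js D (gpV D ϕ) : XS D) : L2c))
  have hJ := F.hJ j
  have hp : PC Real.pi fun q => (ϕ : ℂ → ℂ) (F.X j q) := (F.hX j).pc ϕ.2.1.smo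
  have hi : PY Real.pi fun q => (F.J j q)⁻¹ := hJ.py.inv hJ.pos
  have hw : PY Real.pi fun q : ℝ × ℝ => ctf e e' q.2 * F.J j q := (PY.of_z Real.pi (ctf_smooth e e')).mul hJ.py
  rw [fer3a_sx, hL.eq, js_gpV F.hD.bdd, clX_coe, hB.eq _ ϕ.2.1, F.G_a j, cm_fHc hi (PC.mulR hw hp)]
  rw [show ((⟨(ϕ : ℂ → ℂ), ϕ.2.1, (tsupport_fderiv_subset ℝ).trans ϕ.2.2⟩ : Adm D) : ℂ → ℂ) = (ϕ : ℂ → ℂ) from rfl,
    F.fer3a_EE j h1 ϕ, F.fer3a_gaF j e e' ϕ]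
  congr 1
  funext q
  have h3 : ((F.J j q : ℝ) : ℂ) ≠ 0 := Complex.ofReal_ne_zero.2 (hJ.pos q).ne'
  push_cast
  field_simp

/-- Cut-offs: `L_ω q = B*(ω θ) = ω B*(θ) + ω' θ`; for `ω = 1` on `z ≤ e`, `e' ≤ 13 u`. -/
theorem La_cut (j : Fin F.n) {e e' : ℝ} (h0 : 0 < e) (h1 : e < e') (h2 : e' ≤ 13 * F.u) {L : XD D →L[ℂ] HP}
    (hL : IsLa D (F.X j) e e' L) (q : SV D) :
    L (sx D q) = Ms (ctC e e') (F.La j (sx D q)) + Ms (ctC1 e e') (SC.EE (F.G j).ω (F.La j (sx D q))) := by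
  have hcl : IsClosed {q : SV D | L (sx D q) =
      Ms (ctC e e') (F.La j (sx D q)) + Ms (ctC1 e e') (SC.EE (F.G j).ω (F.La j (sx D q)))} := by
    have c1 : Continuous fun q : SV D => F.La j (sx D q) := (F.La j).continuous.comp (sx D).continuous
    exact isClosed_eq (L.continuous.comp (sx D).continuous)
      (((Ms (ctC e e')).continuous.comp c1).add
        ((Ms (ctC1 e e')).continuous.comp ((SC.EE (F.G j).ω).continuous.comp c1)))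
  refine isClosed_property (gpV_dense D) hcl (fun ϕ => ?_) q
  show L (sx D (gpV D ϕ)) = Ms (ctC e e') (F.La j (sx D (gpV D ϕ))) +
    Ms (ctC1 e e') (SC.EE (F.G j).ω (F.La j (sx D (gpV D ϕ))))
  have h13 : 13 * F.u < 14 * F.u := by linarith [F.u0]
  rw [fer3a_sx, hL.eq, (F.hLa j).eq]
  rw [show ((⟨(ϕ : ℂ → ℂ), ϕ.2.1, (tsupport_fderiv_subset ℝ).trans ϕ.2.2⟩ : Adm D) : ℂ → ℂ) = (ϕ : ℂ → ℂ) from rfl,
    F.fer3a_EE j h13 ϕ, F.fer3a_cut j h1 h2 ϕ]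
  exact fer3a_mul (ctf_smooth e e') (gaF_pc (F.hX j) h13 ϕ.2.1.smo) (ctf_smooth1 e e')

theorem EE_cut (j : Fin F.n) {e e' : ℝ} (h0 : 0 < e) (h1 : e < e') (h2 : e' ≤ 13 * F.u) {L : XD D →L[ℂ] HP}
    (hL : IsLa D (F.X j) e e' L) (q : SV D) :
    SC.EE (F.G j).ω (L (sx D q)) = Ms (ctC e e') (SC.EE (F.G j).ω (F.La j (sx D q))) ∧
    Yz (F.G j).ω (L (sx D q)) = Ms (ctC e e') (Yz (F.G j).ω (F.La j (sx D q))) +
      Ms (ctC1 e e') (SC.EE (F.G j).ω (F.La j (sx D q))) ∧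
    Yy (F.G j).ω (L (sx D q)) = Ms (ctC e e') (Yy (F.G j).ω (F.La j (sx D q))) := by
  have key : SC.EE (F.G j).ω (L (sx D q)) = Ms (ctC e e') (SC.EE (F.G j).ω (F.La j (sx D q))) := by
    have hcl : IsClosed {q : SV D | SC.EE (F.G j).ω (L (sx D q)) =
        Ms (ctC e e') (SC.EE (F.G j).ω (F.La j (sx D q)))} := by
      have c1 : Continuous fun q : SV D => F.La j (sx D q) := (F.La j).continuous.comp (sx D).continuous
      exact isClosed_eq ((SC.EE (F.G j).ω).continuous.comp (L.continuous.comp (sx D).continuous))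
        ((Ms (ctC e e')).continuous.comp ((SC.EE (F.G j).ω).continuous.comp c1))
    refine isClosed_property (gpV_dense D) hcl (fun ϕ => ?_) q
    show SC.EE (F.G j).ω (L (sx D (gpV D ϕ))) = Ms (ctC e e') (SC.EE (F.G j).ω (F.La j (sx D (gpV D ϕ))))
    have h13 : 13 * F.u < 14 * F.u := by linarith [F.u0]
    rw [fer3a_sx, hL.eq, (F.hLa j).eq]
    rw [show ((⟨(ϕ : ℂ → ℂ), ϕ.2.1, (tsupport_fderiv_subset ℝ).trans ϕ.2.2⟩ : Adm D) : ℂ → ℂ) = (ϕ : ℂ → ℂ) from rfl,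
      F.fer3a_EE j h13 ϕ, F.fer3a_EE j h1 ϕ, F.fer3a_cut j h1 h2 ϕ]
    exact (Ms_fHc (ctf_smooth e e') (gaF_pc (F.hX j) h13 ϕ.2.1.smo)).symm
  have keyn : ∀ n : ℤ, E2 ((F.G j).ω * n) (L (sx D q) n) =
      mz (ctC e e') (E2 ((F.G j).ω * n) (F.La j (sx D q) n)) := fun n => by
    rw [← EE_apply, key, Ms_apply, EE_apply]
  have hc := F.La_cut j h0 h1 h2 hL q
  refine ⟨key, lp.ext (funext fun n => ?_), lp.ext (funext fun n => ?_)⟩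
  · rw [lp.coeFn_add, Pi.add_apply, Ms_apply, Ms_apply, Yz_apply, Yz_apply, EE_apply]
    unfold tZ
    rw [keyn n]
    have h3 : L (sx D q) n = mz (ctC e e') (F.La j (sx D q) n) +
        mz (ctC1 e e') (E2 ((F.G j).ω * n) (F.La j (sx D q) n)) := by
      rw [hc, lp.coeFn_add, Pi.add_apply, Ms_apply, Ms_apply, EE_apply]
    rw [h3, map_sub, map_smul]
    abel
  · rw [Ms_apply, Yy_apply, Yy_apply]
    unfold tY
    rw [keyn n, map_smul]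

end FD

end Pool.Agent.Lib.MP_79abb3_an.PD
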