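import Pool.Agent.Lib.MP_79abb3_an.PD.FgA
import Pool.Agent.Lib.MP_79abb3_an.PD.FeU
import Pool.Agent.Lib.MP_79abb3_an.PD.FeR3a

/-!
Theorem D, block F, bounds (6.2, 6.3): the velocity is controlled by the outer vorticity, the layers and the circulations.
-/

set_option autoImplicit false
set_option linter.unusedSectionVars false

open MeasureTheory Set Filter Topology Function
open scoped ENNReal InnerProductSpace ComplexConjugate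

namespace Pool.Agent.Lib.MP_79abb3_an.PD

open Pool.Agent.Lib.MP_79abb3_an.SC Pool.Agent.Lib.MP_79abb3_an.P25

private theorem fgb_Bm {S : Set ℂ} (hS : MeasurableSet S) : Bm (S.indicator fun _ => (1:ℂ)) 1 := by
  refine ⟨aestronglyMeasurable_const.indicator hS, fun x => ?_⟩
  by_cases hx : x ∈ S
  · simp [hx]
  · simp [hx]

private theorem fgb_norm {S : Set ℂ} (hS : MeasurableSet S) (f : L2c) :
    ‖mm (S.indicator fun _ => (1:ℂ)) f‖ = √(∫ x in S, ‖(f : ℂ → ℂ) x‖ ^ 2) := by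
  have e : ∫ x in S, ‖(f : ℂ → ℂ) x‖ ^ 2 = ‖mm (S.indicator fun _ => (1:ℂ)) f‖ ^ 2 := by
    rw [L2_norm_sq, ← integral_indicator hS]
    apply integral_congr_ae
    filter_upwards [mm_coe (fgb_Bm hS) f] with x hx
    rw [hx]
    by_cases h : x ∈ S
    · simp [h]
    · simp [h]
  rw [e, Real.sqrt_sq (norm_nonneg _)]

/-- `|∫ conj f o| ≤ |f|₂ |o|_{L²(Sᶜ)} + |f|₄ |o|₂ |S|^{1/4}` -/
theorem inner_small {S : Set ℂ} (hS : MeasurableSet S) (hf : volume S ≠ ⊤) {f : ℂ → ℂ} (h2 : MemLp f 2 (volume : Measure ℂ))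
    (h4 : MemLp f 4 (volume : Measure ℂ)) (o : L2c) :
    ‖⟪cl2 f, o⟫_ℂ‖ ≤ ‖cl2 f‖ * √(∫ x in Sᶜ, ‖(o : ℂ → ℂ) x‖ ^ 2) +
      ‖cl4 f‖ * ‖o‖ * (volume S).toReal ^ (1 / 4 : ℝ) := by
  have e1 : mm (S.indicator fun _ => (1:ℂ)) o + mm (Sᶜ.indicator fun _ => (1:ℂ)) o = o := by
    refine Lp.ext ?_
    filter_upwards [Lp.coeFn_add (mm (S.indicator fun _ => (1:ℂ)) o) (mm (Sᶜ.indicator fun _ => (1:ℂ)) o),
      mm_coe (fgb_Bm hS) o, mm_coe (fgb_Bm hS.compl) o] with x a1 a2 a3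
    rw [a1, Pi.add_apply, a2, a3]
    by_cases h : x ∈ S
    · simp [h]
    · simp [h]
  have e2 : ⟪cl2 f, mm (S.indicator fun _ => (1:ℂ)) o⟫_ℂ = ⟪mm (S.indicator fun _ => (1:ℂ)) (cl2 f), o⟫_ℂ := by
    rw [mm_inner (fgb_Bm hS)]
    have e : (fun x => conj (S.indicator (fun _ => (1:ℂ)) x)) = S.indicator fun _ => (1:ℂ) := by
      funext x
      by_cases h : x ∈ S
      · simp [h]
      · simp [h]
    rw [e]
  have e3 : mm (S.indicator fun _ => (1:ℂ)) (cl2 f) = m44 (indicatorConstLp 4 hS hf (1:ℂ)) (cl4 f) := by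
    refine Lp.ext ?_
    filter_upwards [mm_coe (fgb_Bm hS) (cl2 f), m44_coe (indicatorConstLp 4 hS hf (1:ℂ)) (cl4 f), cl2_coe h2,
      cl4_coe h4, indicatorConstLp_coeFn (p := 4) (hs := hS) (hμs := hf) (c := (1:ℂ))] with x a1 a2 a3 a4 a5
    rw [a1, a2, a3, a4, a5]
  have n3 : ‖mm (S.indicator fun _ => (1:ℂ)) (cl2 f)‖ ≤ (volume S).toReal ^ (1 / 4 : ℝ) * ‖cl4 f‖ := by
    rw [e3]
    refine (m44_norm _ _).trans ?_
    rw [norm_indicatorConstLp (by norm_num) (by norm_num), norm_one, one_mul]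
    refine le_of_eq ?_
    simp [Measure.real]
  have n1 : ‖⟪cl2 f, mm (Sᶜ.indicator fun _ => (1:ℂ)) o⟫_ℂ‖ ≤ ‖cl2 f‖ * √(∫ x in Sᶜ, ‖(o : ℂ → ℂ) x‖ ^ 2) := by
    refine (norm_inner_le_norm _ _).trans ?_
    rw [fgb_norm hS.compl]
  have n2 : ‖⟪mm (S.indicator fun _ => (1:ℂ)) (cl2 f), o⟫_ℂ‖ ≤ ‖cl4 f‖ * ‖o‖ * (volume S).toReal ^ (1 / 4 : ℝ) := by
    refine (norm_inner_le_norm _ _).trans ?_
    refine (mul_le_mul_of_nonneg_right n3 (norm_nonneg o)).trans (le_of_eq ?_)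
    ring
  have e4 : ⟪cl2 f, o⟫_ℂ = ⟪mm (S.indicator fun _ => (1:ℂ)) (cl2 f), o⟫_ℂ +
      ⟪cl2 f, mm (Sᶜ.indicator fun _ => (1:ℂ)) o⟫_ℂ := by
    rw [← e2, ← inner_add_right, e1]
  rw [e4]
  refine (norm_add_le _ _).trans ?_
  rw [add_comm (‖cl2 f‖ * √(∫ x in Sᶜ, ‖(o : ℂ → ℂ) x‖ ^ 2))]
  exact add_le_add n2 n1

private theorem fgb_cut {D : Set ℂ} (hD : Bornology.IsBounded D) : ∃ η : ℂ → ℂ, Cc η ∧ (∀ x ∈ closure D, η x = 1) ∧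
    ∀ x, conj (η x) = η x := by
  obtain ⟨R, hR, h⟩ := exists_radius hD
  let f : ContDiffBump (0 : ℂ) := ⟨R + 1, R + 2, by linarith, by linarith⟩
  refine ⟨fun x => ((f x : ℝ) : ℂ), ⟨Complex.ofRealCLM.contDiff.comp f.contDiff, ?_⟩, fun x hx => ?_,
    fun x => Complex.conj_ofReal _⟩
  · exact f.hasCompactSupport.comp_left (g := fun r : ℝ => (r : ℂ)) (by simp)
  · have h1 : closure D ⊆ Metric.closedBall (0 : ℂ) (R + 1) := by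
      refine closure_minimal (fun y hy => ?_) Metric.isClosed_closedBall
      rw [mem_closedBall_zero_iff]
      linarith [h y hy]
    show ((f x : ℝ) : ℂ) = 1
    rw [f.one_of_mem_closedBall (h1 hx), Complex.ofReal_one]

/-- the integral of a function which vanishes off `D` -/
private theorem fgb_int {D : Set ℂ} (hO : IsOpen D) {η : ℂ → ℂ} (hη : Cc η) (h1 : ∀ x ∈ closure D, η x = 1)
    {y : L2c} (hy : y ∈ XS D) : ∫ x, (y : ℂ → ℂ) x = ⟪cl2 η, y⟫_ℂ := by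
  rw [L2.inner_def]
  refine integral_congr_ae ?_
  filter_upwards [cl2_coe (hη.memLp 2), (mem_XS_iff D hO y).1 hy] with x e1 e2
  rw [RCLike.inner_apply, e1]
  by_cases hx : x ∈ D
  · rw [h1 x (subset_closure hx), map_one, mul_one]
  · rw [e2 hx, zero_mul]

namespace FD
variable {D : Set ℂ} (F : FD D)

/-- The size of `o`: `|o|_{L²(Sᶜ)} + |o| |S|^{1/4}`. -/
noncomputable def sz (S : Set ℂ) (o : L2c) : ℝ :=
  √(∫ x in Sᶜ, ‖(o : ℂ → ℂ) x‖ ^ 2) + ‖o‖ * (volume S).toReal ^ (1 / 4 : ℝ)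

private theorem fgb_cm (j : Fin F.n) (x y : HP) : ⟪SC.cm (F.G j).a x, y⟫_ℂ = ⟪x, SC.cm (F.G j).a y⟫_ℂ := by
  rw [F.G_a]
  exact inner_cm_fam ((F.hJ j).py.inv (F.hJ j).pos) x y

private theorem fgb_et : PC Real.pi fun q : ℝ × ℝ => ((ctf (4 * F.u) (8 * F.u) q.2 : ℝ) : ℂ) :=
  PC.ofPY (PY.of_z Real.pi (ctf_smooth _ _))

/-- `a Be f = η (f ∘ X)` -/
private theorem fgb_aBe (j : Fin F.n) {f : ℂ → ℂ} (hf : Cc f) : SC.cm (F.G j).a (F.Be j (cl2 f)) =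
    (fHc fun q => ((ctf (4 * F.u) (8 * F.u) q.2 : ℝ) : ℂ) * f (F.X j q) : HP) := by
  have hJ := F.hJ j
  have hi : PY Real.pi fun q => (F.J j q)⁻¹ := hJ.py.inv hJ.pos
  have hw : PY Real.pi fun q : ℝ × ℝ => ctf (4 * F.u) (8 * F.u) q.2 * F.J j q :=
    (PY.of_z Real.pi (ctf_smooth _ _)).mul hJ.py
  rw [(F.hBe j).eq _ hf, F.G_a j, cm_fHc hi (PC.mulR hw ((F.hX j).pc hf.smo))]
  congr 1
  funext q
  have h3 : ((F.J j q : ℝ) : ℂ) ≠ 0 := Complex.ofReal_ne_zero.2 (hJ.pos q).ne'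
  push_cast
  field_simp

/-- Pairing of a stream function with the layers: `⟨Be ψ, a g⟩ = ⟨η ψ_s, g⟩ = ⟨Le (gpX ψ), T g⟩ + conj c M`, `c = ψ (X (0,0))`
(`inner_bHc0` for `η (ψ_s - c)`). -/
theorem pair_layer (j : Fin F.n) (ψ : Adm D) (g : HP) :
    ⟪F.Be j (cl2 ψ), SC.cm (F.G j).a g⟫_ℂ =
      ⟪F.Le j (gpX D ψ), SC.TT (F.G j).ω g⟫_ℂ + conj ((ψ : ℂ → ℂ) (F.X j (0, 0))) * ⟪F.et, g⟫_ℂ := by
  have hu := F.u0
  have h1 : 4 * F.u < 8 * F.u := by linarith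
  have hψ := Adm.cc ψ
  have hga := gaF_pc (F.hX j) h1 hψ.smo
  have he := F.fgb_et
  have hg0 : ∀ y, gaF (F.X j) (4 * F.u) (8 * F.u) (ψ : ℂ → ℂ) (y, 0) = 0 := fun y => by
    obtain ⟨ε, h2, h3⟩ := gaF_con (F.hX j) F.hD.op (e := 4 * F.u) (e' := 8 * F.u) (by linarith) h1 ψ
    exact h3 y 0 le_rfl h2
  have e1 : SC.cm (F.G j).a (F.Be j (cl2 ψ)) = (fHc (gaF (F.X j) (4 * F.u) (8 * F.u) (ψ : ℂ → ℂ)) : HP) +
      (ψ : ℂ → ℂ) (F.X j (0, 0)) • F.et := by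
    rw [F.fgb_aBe j hψ]
    unfold et
    rw [← fHc_smul _ he, ← fHc_add hga (he.cmul _)]
    congr 1
    funext q
    unfold gaF
    ring
  rw [← F.fgb_cm j, e1, inner_add_left, inner_smul_left]
  congr 1
  rw [(F.hLe j).eq, (F.G j).hω, ← inner_conj_symm, inner_bHc0 hga hg0 g, inner_conj_symm]

/-- `∫ 2π Be† (a g) = 2π ⟨η, g⟩` (test with a function which is `1` on `D`; the function vanishes off `D`). -/
theorem int_layer (j : Fin F.n) (g : HP) :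
    ∫ x, (ContinuousLinearMap.adjoint (F.Be j) (SC.cm (F.G j).a g) : L2c) x = ⟪F.et, g⟫_ℂ := by
  have hu := F.u0
  obtain ⟨η, hη, h1, _⟩ := fgb_cut F.hD.bdd
  rw [fgb_int F.hD.op hη h1 (F.Be_adj_mem j _).1, ContinuousLinearMap.adjoint_inner_right, ← F.fgb_cm j,
    F.fgb_aBe j hη]
  congr 1
  refine fHc_congr (PC.mulR (PY.of_z Real.pi (ctf_smooth _ _)) ((F.hX j).pc hη.smo)) F.fgb_et fun q hq => ?_
  by_cases hz : q.2 < 8 * F.u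
  · have h2 : F.X j q ∈ closure D := by
      rcases hq.2.1.lt_or_eq with h | h
      · exact subset_closure ((F.hX j).sub q.1 q.2 h (by linarith))
      · have h3 := frontier_subset_closure ((F.hX j).bdry q.1)
        rw [h] at h3
        exact h3
    rw [h1 _ h2, mul_one]
  · rw [ctf_zero (by linarith) (not_lt.1 hz), Complex.ofReal_zero, zero_mul]

/-- the outer vorticity and the layers -/
private theorem fgb_vt {m : ℕ} (A : ℝ → ℝ) (v : ℝ → VD D) (mu : ℝ → ℝ) (p : Fin F.n → ℝ → HP) (t : ℝ) (x : L2c) :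
    ⟪x, vt (F.c0 m) F.β A v mu t⟫_ℂ = ⟪x, F.ov m A v mu p t⟫_ℂ + ∑ j, (2 * Real.pi : ℂ) *
      ⟪F.Be j x, SC.cm (F.G j).a (F.gg m A v p j t)⟫_ℂ := by
  have e : vt (F.c0 m) F.β A v mu t = F.ov m A v mu p t + ∑ j, (2 * Real.pi : ℂ) •
      ContinuousLinearMap.adjoint (F.Be j) (SC.cm (F.G j).a (F.gg m A v p j t)) := by
    unfold FD.ov FD.oo
    rw [sub_add_cancel]
  rw [e, inner_add_right, inner_sum]
  congr 1
  refine Finset.sum_congr rfl fun j _ => ?_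
  rw [inner_smul_right, ContinuousLinearMap.adjoint_inner_right]

/-- `μ` is controlled: `mu_eq`, `int_layer`, `|∫_D o| ≤ |D|^{1/2} |o|_{L²(Sᶜ)} + |S|^{1/2} |o|`. -/
theorem mu_bd : ∃ C : ℝ, 0 ≤ C ∧ ∀ {m : ℕ} (_ : 1 ≤ m) {A : ℝ → ℝ} {v : ℝ → VD D} {mu : ℝ → ℝ}
    {p : Fin F.n → ℝ → HP} {S : Set ℂ} (_ : MeasurableSet S) (_ : S ⊆ D) (t : ℝ),
    |mu t| ≤ C * (sz S (F.ov m A v mu p t) + ∑ j, ‖F.MM m A v p j t‖) := by
  obtain ⟨η, hη, h1, _⟩ := fgb_cut F.hD.bdd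
  refine ⟨‖cl2 η‖ + ‖cl4 η‖ + 2 * Real.pi, by positivity, ?_⟩
  intro m hm A v mu p S hS hSD t
  have hvol : volume S ≠ ⊤ := (F.hD.bdd.subset hSD).measure_lt_top.ne
  have e1 : ((mu t : ℝ) : ℂ) = -∫ x, (vt (F.c0 m) F.β A v mu t : ℂ → ℂ) x :=
    mu_eq F.hD.bdd F.β1 (F.c0_int hm) (F.c0_cc hm).1 F.hβ t
  have e2 : ∫ x, (vt (F.c0 m) F.β A v mu t : ℂ → ℂ) x = ⟪cl2 η, vt (F.c0 m) F.β A v mu t⟫_ℂ :=
    fgb_int F.hD.op hη h1 (vt_mem F.hD.op (F.c0_cc hm).1 F.hβ t)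
  have e3 : ∀ j, ⟪F.Be j (cl2 η), SC.cm (F.G j).a (F.gg m A v p j t)⟫_ℂ = F.MM m A v p j t := fun j => by
    have k1 := F.int_layer j (F.gg m A v p j t)
    rw [fgb_int F.hD.op hη h1 (F.Be_adj_mem j _).1, ContinuousLinearMap.adjoint_inner_right] at k1
    exact k1
  have n1 : |mu t| = ‖((mu t : ℝ) : ℂ)‖ := by rw [Complex.norm_real, Real.norm_eq_abs]
  rw [n1, e1, norm_neg, e2, F.fgb_vt A v mu p t]
  simp only [e3]
  have n2 := inner_small hS hvol (hη.memLp 2) (hη.memLp 4) (F.ov m A v mu p t)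
  have n3 : ‖∑ j, (2 * Real.pi : ℂ) * F.MM m A v p j t‖ ≤ 2 * Real.pi * ∑ j, ‖F.MM m A v p j t‖ := by
    refine (norm_sum_le _ _).trans ?_
    rw [Finset.mul_sum]
    refine Finset.sum_le_sum fun j _ => ?_
    rw [norm_mul, norm_mul, Complex.norm_ofNat, Complex.norm_real, Real.norm_of_nonneg Real.pi_pos.le]
  refine (norm_add_le _ _).trans ((add_le_add n2 n3).trans ?_)
  unfold sz
  obtain ⟨x, hx⟩ : ∃ x, x = √(∫ x in Sᶜ, ‖(F.ov m A v mu p t : ℂ → ℂ) x‖ ^ 2) := ⟨_, rfl⟩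
  obtain ⟨y, hy⟩ : ∃ y, y = ‖F.ov m A v mu p t‖ * (volume S).toReal ^ (1 / 4 : ℝ) := ⟨_, rfl⟩
  obtain ⟨z, hz⟩ : ∃ z, z = ∑ j, ‖F.MM m A v p j t‖ := ⟨_, rfl⟩
  have x0 : 0 ≤ x := hx ▸ Real.sqrt_nonneg _
  have y0 : 0 ≤ y := hy ▸ by positivity
  have z0 : 0 ≤ z := hz ▸ Finset.sum_nonneg fun j _ => norm_nonneg _
  rw [mul_assoc ‖cl4 η‖, ← hx, ← hy, ← hz]
  have a0 := norm_nonneg (cl2 η)
  have b0 := norm_nonneg (cl4 η)
  have p0 := Real.pi_pos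
  have q1 := mul_nonneg a0 y0
  have q2 := mul_nonneg a0 z0
  have q3 := mul_nonneg b0 x0
  have q4 := mul_nonneg b0 z0
  have q5 := mul_nonneg p0.le x0
  have q6 := mul_nonneg p0.le y0
  have q7 : (‖cl2 η‖ + ‖cl4 η‖ + 2 * Real.pi) * (x + y + z) = ‖cl2 η‖ * x + ‖cl4 η‖ * y + 2 * Real.pi * z +
      (‖cl2 η‖ * y + ‖cl2 η‖ * z + ‖cl4 η‖ * x + ‖cl4 η‖ * z + 2 * (Real.pi * x) + 2 * (Real.pi * y)) := by ring
  rw [q7]
  linarith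

private theorem fgb_alg {N C1 L W C3 Cm b s g M a t1 t2 t3 t4 μ : ℝ} (N0 : 0 ≤ N) (C10 : 0 ≤ C1)
    (b0 : 0 ≤ b) (s0 : 0 ≤ s) (g0 : 0 ≤ g) (M0 : 0 ≤ M) (a0 : 0 ≤ a) (L0 : 0 ≤ L) (W0 : 0 ≤ W) (C30 : 0 ≤ C3)
    (Cm0 : 0 ≤ Cm) (h1 : t1 ≤ C1 * N * s) (h2 : t2 ≤ 2 * Real.pi * ((L + W) * N * (g + M))) (h3 : t3 ≤ a * (C3 * N))
    (hμ : μ ≤ Cm * (s + M)) (h4 : t4 ≤ μ * (C1 * N * b)) :
    t1 + t2 + t3 + t4 ≤ (C1 + 2 * Real.pi * (L + W) + C3 + Cm * C1 * b) * (s + (g + M) + a) * N := by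
  have p0 := Real.pi_pos
  have k1 : C1 * N * s ≤ C1 * (s + (g + M) + a) * N := by
    have : C1 * (s + (g + M) + a) * N = C1 * N * s + C1 * N * (g + M + a) := by ring
    rw [this]
    have := mul_nonneg (mul_nonneg C10 N0) (by linarith : 0 ≤ g + M + a)
    linarith
  have k2 : 2 * Real.pi * ((L + W) * N * (g + M)) ≤ 2 * Real.pi * (L + W) * (s + (g + M) + a) * N := by
    have : 2 * Real.pi * (L + W) * (s + (g + M) + a) * N = 2 * Real.pi * ((L + W) * N * (g + M)) +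
      2 * Real.pi * ((L + W) * N * (s + a)) := by ring
    rw [this]
    have := mul_nonneg (mul_nonneg (by norm_num : (0:ℝ) ≤ 2) p0.le)
      (mul_nonneg (mul_nonneg (add_nonneg L0 W0) N0) (add_nonneg s0 a0))
    linarith
  have k3 : a * (C3 * N) ≤ C3 * (s + (g + M) + a) * N := by
    have : C3 * (s + (g + M) + a) * N = a * (C3 * N) + C3 * N * (s + g + M) := by ring
    rw [this]
    have := mul_nonneg (mul_nonneg C30 N0) (by linarith : 0 ≤ s + g + M)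
    linarith
  have k4 : μ * (C1 * N * b) ≤ Cm * C1 * b * (s + (g + M) + a) * N := by
    have q0 := mul_nonneg (mul_nonneg C10 N0) b0
    have q1 := mul_le_mul_of_nonneg_right hμ q0
    have : Cm * C1 * b * (s + (g + M) + a) * N = Cm * (s + M) * (C1 * N * b) + Cm * (C1 * N * b) * (g + a) := by ring
    rw [this]
    have := mul_nonneg (mul_nonneg Cm0 q0) (add_nonneg g0 a0)
    linarith
  have e : (C1 + 2 * Real.pi * (L + W) + C3 + Cm * C1 * b) * (s + (g + M) + a) * N =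
      C1 * (s + (g + M) + a) * N + 2 * Real.pi * (L + W) * (s + (g + M) + a) * N + C3 * (s + (g + M) + a) * N +
        Cm * C1 * b * (s + (g + M) + a) * N := by ring
  rw [e]
  linarith

/-- **6.2, 6.3.** For `ψ ∈ Adm D`: `⟨gpX ψ, w⟩ = ⟨ψ, v⟩ - a ⟨gpX ψ, gPs⟩ = ⟨ψ, ṽ⟩ + μ ⟨ψ, β⟩ + a (⟨ψ, c₀⟩ - ⟨gp ψ, gp Ψ⟩)` (`c0_Ps`),
`⟨ψ, ṽ⟩ = ⟨ψ, o⟩ + ∑ 2π ⟨Be ψ, a g_j⟩` (`pair_layer`), `adm_poinc`, `wall_bd`, `inner_small`, `mu_bd`; density of `gpX`. -/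
theorem ww_bd : ∃ (m₀ : ℕ) (C : ℝ), 1 ≤ m₀ ∧ 0 ≤ C ∧ ∀ {m : ℕ} (_ : m₀ ≤ m) {A : ℝ → ℝ} {v : ℝ → VD D}
    {mu : ℝ → ℝ} {p : Fin F.n → ℝ → HP} {S : Set ℂ} (_ : MeasurableSet S) (_ : S ⊆ D) (t : ℝ),
    ‖F.ww m (A t) (v t)‖ ≤ C * (sz S (F.ov m A v mu p t) +
      ∑ j, (‖SC.TT (F.G j).ω (F.gg m A v p j t)‖ + ‖F.MM m A v p j t‖) + |A t|) := by
  obtain ⟨C3, m3, C30, h3⟩ := F.c0_Ps
  obtain ⟨C1, C10, h1⟩ := adm_poinc F.hD.bdd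
  obtain ⟨Cm, Cm0, hmu⟩ := F.mu_bd
  have hwall := fun j => wall_bd (F.hX j) F.hD.op F.hD.bdd
  choose W W0 hW using hwall
  have L0 : ∀ j, 0 ≤ ‖F.Le j‖ := fun j => (F.Le j).opNorm_nonneg
  refine ⟨max m3 1, C1 + 2 * Real.pi * (∑ j, ‖F.Le j‖ + ∑ j, W j) + C3 + Cm * C1 * ‖cl2 F.β‖, le_max_right _ _, ?_, ?_⟩
  · have a1 : 0 ≤ ∑ j, ‖F.Le j‖ := Finset.sum_nonneg fun j _ => L0 j
    have a2 : 0 ≤ ∑ j, W j := Finset.sum_nonneg fun j _ => W0 j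
    positivity
  intro m hm A v mu p S hS hSD t
  have hm3 : m3 ≤ m := (le_max_left _ _).trans hm
  have hm1 : 1 ≤ m := (le_max_right _ _).trans hm
  have hvol : volume S ≠ ⊤ := (F.hD.bdd.subset hSD).measure_lt_top.ne
  obtain ⟨w, hw⟩ : ∃ w, w = F.ww m (A t) (v t) := ⟨_, rfl⟩
  obtain ⟨s, hs⟩ : ∃ s, s = sz S (F.ov m A v mu p t) := ⟨_, rfl⟩
  obtain ⟨K, hK⟩ : ∃ K, K = (C1 + 2 * Real.pi * (∑ j, ‖F.Le j‖ + ∑ j, W j) + C3 + Cm * C1 * ‖cl2 F.β‖) *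
      (s + ∑ j, (‖SC.TT (F.G j).ω (F.gg m A v p j t)‖ + ‖F.MM m A v p j t‖) + |A t|) := ⟨_, rfl⟩
  rw [← hw, ← hs, ← hK]
  have key : ∀ ψ : Adm D, ‖⟪gp ψ, (w : Y2)⟫_ℂ‖ ≤ K * ‖gp (ψ : ℂ → ℂ)‖ := by
    intro ψ
    obtain ⟨N, hN⟩ : ∃ N, N = ‖gp (ψ : ℂ → ℂ)‖ := ⟨_, rfl⟩
    have hN' : ‖gpX D ψ‖ = N := by rw [hN]; rfl
    have N0 : 0 ≤ N := hN ▸ norm_nonneg _
    have i1 : ⟪gp ψ, ((iot D (v t) : XD D) : Y2)⟫_ℂ = ⟪cl2 ψ, ((v t : VD D) : L2c)⟫_ℂ :=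
      inner_iot_gp F.hD.bdd (v t) (Adm.cc ψ)
    have i2 : ⟪gp ψ, ((F.gPs m : XD D) : Y2)⟫_ℂ = ⟪gp ψ, gp (F.Ps m)⟫_ℂ := by
      rw [F.gPs_coe hm1]
    have i3 : ⟪cl2 ψ, ((v t : VD D) : L2c)⟫_ℂ = ⟪cl2 ψ, vt (F.c0 m) F.β A v mu t⟫_ℂ +
        (A t : ℂ) * ⟪cl2 ψ, cl2 (F.c0 m)⟫_ℂ + (mu t : ℂ) * ⟪cl2 ψ, cl2 F.β⟫_ℂ := by
      unfold vt
      rw [inner_sub_right, inner_sub_right, inner_smul_right, inner_smul_right]
      ring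
    have i4 : ⟪gp ψ, (w : Y2)⟫_ℂ = ⟪cl2 ψ, F.ov m A v mu p t⟫_ℂ + (∑ j, (2 * Real.pi : ℂ) *
        (⟪F.Le j (gpX D ψ), SC.TT (F.G j).ω (F.gg m A v p j t)⟫_ℂ +
          conj ((ψ : ℂ → ℂ) (F.X j (0, 0))) * F.MM m A v p j t)) +
        (A t : ℂ) * (⟪cl2 ψ, cl2 (F.c0 m)⟫_ℂ - ⟪gp ψ, gp (F.Ps m)⟫_ℂ) + (mu t : ℂ) * ⟪cl2 ψ, cl2 F.β⟫_ℂ := by
      rw [hw]
      unfold ww
      show ⟪gp ψ, ((iot D (v t) : XD D) : Y2) - (A t : ℂ) • ((F.gPs m : XD D) : Y2)⟫_ℂ = _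
      rw [inner_sub_right, inner_smul_right, i1, i2, i3, F.fgb_vt A v mu p t]
      simp only [F.pair_layer]
      unfold MM
      ring
    have n1 : ‖⟪cl2 ψ, F.ov m A v mu p t⟫_ℂ‖ ≤ C1 * N * s := by
      refine (inner_small hS hvol ((Adm.cc ψ).memLp 2) ((Adm.cc ψ).memLp 4) (F.ov m A v mu p t)).trans ?_
      obtain ⟨k1, k2⟩ := h1 ψ
      rw [← hN] at k1 k2
      rw [hs, mul_assoc ‖cl4 (ψ : ℂ → ℂ)‖]
      unfold sz
      rw [mul_add (C1 * N)]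
      exact add_le_add (mul_le_mul_of_nonneg_right k1 (Real.sqrt_nonneg _))
        (mul_le_mul_of_nonneg_right k2 (by positivity))
    have n2 : ‖∑ j, (2 * Real.pi : ℂ) *
        (⟪F.Le j (gpX D ψ), SC.TT (F.G j).ω (F.gg m A v p j t)⟫_ℂ +
          conj ((ψ : ℂ → ℂ) (F.X j (0, 0))) * F.MM m A v p j t)‖ ≤
        2 * Real.pi * ((∑ j, ‖F.Le j‖ + ∑ j, W j) * N *
          ∑ j, (‖SC.TT (F.G j).ω (F.gg m A v p j t)‖ + ‖F.MM m A v p j t‖)) := by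
      refine (norm_sum_le _ _).trans ?_
      rw [Finset.mul_sum (a := (∑ j, ‖F.Le j‖ + ∑ j, W j) * N), Finset.mul_sum]
      refine Finset.sum_le_sum fun j _ => ?_
      rw [norm_mul, norm_mul, Complex.norm_ofNat, Complex.norm_real, Real.norm_of_nonneg Real.pi_pos.le]
      refine mul_le_mul_of_nonneg_left ?_ (by positivity)
      have k1 : ‖⟪F.Le j (gpX D ψ), SC.TT (F.G j).ω (F.gg m A v p j t)⟫_ℂ‖ ≤
          ‖F.Le j‖ * N * ‖SC.TT (F.G j).ω (F.gg m A v p j t)‖ := by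
        refine (norm_inner_le_norm _ _).trans (mul_le_mul_of_nonneg_right ?_ (norm_nonneg _))
        rw [← hN']
        exact (F.Le j).le_opNorm _
      have k2 : ‖conj ((ψ : ℂ → ℂ) (F.X j (0, 0))) * F.MM m A v p j t‖ ≤ W j * N * ‖F.MM m A v p j t‖ := by
        rw [norm_mul, RCLike.norm_conj]
        refine mul_le_mul_of_nonneg_right ?_ (norm_nonneg _)
        rw [hN]
        exact hW j ψ
      refine (norm_add_le _ _).trans ((add_le_add k1 k2).trans ?_)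
      have q1 : ‖F.Le j‖ ≤ ∑ j, ‖F.Le j‖ := Finset.single_le_sum (f := fun j => ‖F.Le j‖) (fun i _ => L0 i) (Finset.mem_univ j)
      have q2 : W j ≤ ∑ j, W j := Finset.single_le_sum (f := W) (fun i _ => W0 i) (Finset.mem_univ j)
      have q3 : 0 ≤ ∑ j, ‖F.Le j‖ := Finset.sum_nonneg fun j _ => L0 j
      have q4 : 0 ≤ ∑ j, W j := Finset.sum_nonneg fun j _ => W0 j
      obtain ⟨x, hx⟩ : ∃ x, x = ‖SC.TT (F.G j).ω (F.gg m A v p j t)‖ := ⟨_, rfl⟩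
      obtain ⟨y, hy⟩ : ∃ y, y = ‖F.MM m A v p j t‖ := ⟨_, rfl⟩
      have x0 : 0 ≤ x := hx ▸ norm_nonneg _
      have y0 : 0 ≤ y := hy ▸ norm_nonneg _
      rw [← hx, ← hy]
      have r1 : ‖F.Le j‖ * N * x ≤ (∑ j, ‖F.Le j‖ + ∑ j, W j) * N * x :=
        mul_le_mul_of_nonneg_right (mul_le_mul_of_nonneg_right (by linarith) N0) x0
      have r2 : W j * N * y ≤ (∑ j, ‖F.Le j‖ + ∑ j, W j) * N * y :=
        mul_le_mul_of_nonneg_right (mul_le_mul_of_nonneg_right (by linarith) N0) y0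
      rw [mul_add]
      exact add_le_add r1 r2
    have n3 : ‖(A t : ℂ) * (⟪cl2 ψ, cl2 (F.c0 m)⟫_ℂ - ⟪gp ψ, gp (F.Ps m)⟫_ℂ)‖ ≤ |A t| * (C3 * N) := by
      rw [norm_mul, Complex.norm_real, Real.norm_eq_abs, hN]
      exact mul_le_mul_of_nonneg_left (h3 m hm3 ψ) (abs_nonneg _)
    have n4 : ‖(mu t : ℂ) * ⟪cl2 ψ, cl2 F.β⟫_ℂ‖ ≤ |mu t| * (C1 * N * ‖cl2 F.β‖) := by
      rw [norm_mul, Complex.norm_real, Real.norm_eq_abs]
      refine mul_le_mul_of_nonneg_left ((norm_inner_le_norm _ _).trans ?_) (abs_nonneg _)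
      refine mul_le_mul_of_nonneg_right ?_ (norm_nonneg _)
      rw [hN]
      exact (h1 ψ).1
    have hm5 : |mu t| ≤ Cm * (s + ∑ j, ‖F.MM m A v p j t‖) := by
      rw [hs]
      exact hmu hm1 hS hSD t
    have hsum : ∑ j, (‖SC.TT (F.G j).ω (F.gg m A v p j t)‖ + ‖F.MM m A v p j t‖) =
        ∑ j, ‖SC.TT (F.G j).ω (F.gg m A v p j t)‖ + ∑ j, ‖F.MM m A v p j t‖ := Finset.sum_add_distrib
    rw [hsum] at n2 hK
    rw [i4, ← hN, hK]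
    refine (norm_add_le _ _).trans ((add_le_add ((norm_add_le _ _).trans (add_le_add (norm_add_le _ _) le_rfl)) le_rfl).trans ?_)
    exact fgb_alg N0 C10 (norm_nonneg _) (hs ▸ add_nonneg (Real.sqrt_nonneg _) (by positivity))
      (Finset.sum_nonneg fun j _ => norm_nonneg _) (Finset.sum_nonneg fun j _ => norm_nonneg _) (abs_nonneg _)
      (Finset.sum_nonneg fun j _ => L0 j) (Finset.sum_nonneg fun j _ => W0 j) C30 Cm0 n1 n2 n3 hm5 n4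
  have hall : ∀ x : XD D, ‖⟪(x : Y2), (w : Y2)⟫_ℂ‖ ≤ K * ‖(x : Y2)‖ := by
    intro x
    have hcl : IsClosed {x : XD D | ‖⟪(x : Y2), (w : Y2)⟫_ℂ‖ ≤ K * ‖(x : Y2)‖} :=
      isClosed_le (by fun_prop) (by fun_prop)
    exact isClosed_property (gpX_dense D) hcl key x
  have hfin := hall w
  rw [inner_self_eq_norm_sq_to_K] at hfin
  have h5 : ‖w‖ ^ 2 ≤ K * ‖w‖ := by
    have h6 : ‖(w : Y2)‖ ^ 2 ≤ K * ‖(w : Y2)‖ := by simpa using hfin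
    exact h6
  rcases (norm_nonneg w).eq_or_lt with h6 | h6
  · rw [← h6, hK]
    have q3 : 0 ≤ ∑ j, ‖F.Le j‖ := Finset.sum_nonneg fun j _ => L0 j
    have q4 : 0 ≤ ∑ j, W j := Finset.sum_nonneg fun j _ => W0 j
    have q5 : 0 ≤ s := hs ▸ add_nonneg (Real.sqrt_nonneg _) (by positivity)
    have q6 : 0 ≤ ∑ j, (‖SC.TT (F.G j).ω (F.gg m A v p j t)‖ + ‖F.MM m A v p j t‖) :=
      Finset.sum_nonneg fun j _ => by positivity
    positivity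
  · have h7 : ‖w‖ * ‖w‖ ≤ K * ‖w‖ := by rw [← pow_two]; exact h5
    exact le_of_mul_le_mul_right h7 h6

end FD

end Pool.Agent.Lib.MP_79abb3_an.PD
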