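import Pool.Agent.Lib.MP_79abb3_an.PD.FgC3
import Pool.Agent.Lib.MP_79abb3_an.PD.FeX2

/-!
Theorem D, block F, bounds: the initial values of the layers.
-/

set_option autoImplicit false
set_option linter.unusedSectionVars false

open MeasureTheory Set Filter Topology Function
open scoped ENNReal InnerProductSpace ComplexConjugate

namespace Pool.Agent.Lib.MP_79abb3_an.PD

open Pool.Agent.Lib.MP_79abb3_an.SC Pool.Agent.Lib.MP_79abb3_an.P25 Pool.Agent.Lib.MP_79abb3_an.FW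

private theorem fgd_star (a b : ℝ) : star (ctC a b) = ctC a b := SC.star_rc _ _

private theorem fgd_ex {a b z : ℝ} (hz : z ∈ Icc (0:ℝ) Real.pi) : ex (ctC a b) z = ((ctf a b z : ℝ) : ℂ) :=
  ex_rc _ _ hz

private theorem fgd_norm (a b : ℝ) : ‖ctC a b‖ ≤ 1 := by
  refine ci_norm_le zero_le_one fun z hz => ?_
  rw [fgd_ex hz, Complex.norm_real, Real.norm_eq_abs]
  unfold ctf
  rw [abs_of_nonneg (Real.smoothTransition.nonneg _)]
  exact Real.smoothTransition.le_one _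

private theorem fgd_Ms (a b : ℝ) (x : HP) : ‖Ms (ctC a b) x‖ ≤ ‖x‖ := by
  refine (norm_Ms_apply_le _ _).trans ?_
  calc ‖ctC a b‖ * ‖x‖ ≤ 1 * ‖x‖ := mul_le_mul_of_nonneg_right (fgd_norm a b) (norm_nonneg _)
    _ = ‖x‖ := one_mul _

private theorem fgd_alg {C c x G v S : ℝ} (hC : 0 ≤ C) (hc : 0 ≤ c) (hv : 0 ≤ v) (h1 : x ≤ G * v)
    (h2 : C * G ≤ S) : C * c * x ≤ S * c * v := by
  have h3 : C * c * x ≤ C * c * (G * v) := mul_le_mul_of_nonneg_left h1 (mul_nonneg hC hc)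
  have h4 : C * G * (c * v) ≤ S * (c * v) := mul_le_mul_of_nonneg_right h2 (mul_nonneg hc hv)
  linarith

namespace FD
variable {D : Set ℂ} (F : FD D)

theorem p0_real (m : ℕ) {v₀ : VD D} (hv : cVD D v₀ = v₀) (j : Fin F.n) : cjX (F.p0 m v₀ j) = F.p0 m v₀ j := by
  have hu := F.u0
  have hΓ : cjX (F.Ga j v₀) = F.Ga j v₀ := by
    have h1 := (F.hGa j).real (F.hX j) F.hD.op (by linarith) (by linarith) (by linarith) v₀
    rwa [hv] at h1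
  unfold FD.p0 FD.ci
  rw [map_sub, cj_Ms (fgd_star _ _), cj_Ms (fgd_star _ _), cj_Ms (fgd_star _ _), hΓ]

variable {F} {m : ℕ} {A A' : ℝ → ℝ} {b lam : ℝ} {v₀ : VD D} {v : ℝ → VD D} {mu mu' : ℝ → ℝ} {p : Fin F.n → ℝ → HP}

theorem gg_init (st : F.Fst m lam A A' b v₀ v mu mu' p) (hp : ∀ j, p j 0 = F.p0 m v₀ j) (j : Fin F.n) :
    F.gg m A v p j 0 = Ms (F.ci m j) (Ms (ctC (9 * F.u) (10 * F.u)) (F.Ga j v₀)) := by
  show Ms (ctC (9 * F.u) (10 * F.u)) (F.Ga j (v 0)) - p j 0 = _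
  rw [hp j, st.U.iv]
  exact sub_sub_cancel _ _

private theorem fgd_z1 {m : ℕ} (hm : 1 ≤ m) (j : Fin F.n) : 0 < F.z1 m j := by
  have hN : 1 ≤ F.N m j := Nat.one_le_iff_ne_zero.2
    (Nat.mul_ne_zero (Nat.one_le_iff_ne_zero.1 (F.fl.kpos j)) (Nat.one_le_iff_ne_zero.1 hm))
  have hN' : (0:ℝ) < F.N m j := by exact_mod_cast hN
  unfold FD.z1 FW.zl
  rw [Pool.Agent.Lib.MP_79abb3_an.PD.Geo.om_pi (F.G j), one_mul]
  positivity

/-- `strip_init` with `c = z₁`, `e = ci` -/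
theorem init_y (F : FD D) : ∃ C : ℝ, 0 ≤ C ∧ ∀ {m : ℕ} (_ : 1 ≤ m) (j : Fin F.n) (v₀ : VD D), F.z1 m j ≤ 1 →
    ‖LT (F.G j).ω (F.G j).lam (3 / 8) (Ms (F.ci m j) (Ms (ctC (9 * F.u) (10 * F.u)) (F.Ga j v₀)))‖ ≤
      C * F.z1 m j ^ (5 / 8 : ℝ) * ‖v₀‖ ∧
    Ms (F.thw m j) (SC.TT (F.G j).ω (Ms (F.ci m j) (Ms (ctC (9 * F.u) (10 * F.u)) (F.Ga j v₀)))) = 0 := by
  choose C hC0 hC using fun j => strip_init (F.G j)
  refine ⟨∑ j, C j * ‖F.Ga j‖, Finset.sum_nonneg fun j _ => mul_nonneg (hC0 j) (norm_nonneg (F.Ga j)),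
    fun {m} hm j v₀ hz => ?_⟩
  have z0 := fgd_z1 (F := F) hm j
  obtain ⟨h1, h2⟩ := hC j z0 hz (F.ci m j) (fun z hzI hle => by
    unfold FD.ci
    rw [fgd_ex hzI, ctf_zero (by linarith) hle, Complex.ofReal_zero]) (fgd_norm _ _)
    (Ms (ctC (9 * F.u) (10 * F.u)) (F.Ga j v₀))
  constructor
  · refine h1.trans (fgd_alg (hC0 j) (Real.rpow_nonneg z0.le _) (norm_nonneg _)
      ((fgd_Ms _ _ _).trans ((F.Ga j).le_opNorm v₀)) ?_)
    exact Finset.single_le_sum (f := fun j => C j * ‖F.Ga j‖)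
      (fun i _ => mul_nonneg (hC0 i) (norm_nonneg (F.Ga i))) (Finset.mem_univ j)
  · refine h2 (F.thw m j) fun z hzI => ?_
    have hpi := Real.pi_gt_three
    unfold FD.thw
    rw [ex_rc _ _ ⟨hzI.1, hzI.2.trans (by linarith)⟩]
    unfold tht
    have h3 : (z - zl ((F.G j).ω * F.N m j)) / zl ((F.G j).ω * F.N m j) ≤ 0 :=
      div_nonpos_of_nonpos_of_nonneg (sub_nonpos.2 hzI.2) (le_of_lt z0)
    rw [max_eq_left h3]
    norm_num

/-- `|o(0)| ≤ C |v₀|` if `A 0 = 0`. -/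
theorem init_o (F : FD D) : ∃ C : ℝ, 0 ≤ C ∧ ∀ {m : ℕ} {A A' : ℝ → ℝ} {b lam : ℝ} {v₀ : VD D} {v : ℝ → VD D}
    {mu mu' : ℝ → ℝ} {p : Fin F.n → ℝ → HP} (_ : F.Fst m lam A A' b v₀ v mu mu' p) (_ : A 0 = 0)
    (_ : ∀ j, p j 0 = F.p0 m v₀ j), ‖F.ov m A v mu p 0‖ ≤ C * ‖v₀‖ := by
  refine ⟨1 + ∑ j, (2 * Real.pi) * (‖ContinuousLinearMap.adjoint (F.Be j)‖ *
    (‖(SC.cm (F.G j).a : HP →L[ℂ] HP)‖ * ‖F.Ga j‖)), ?_, ?_⟩
  · have hpi := Real.pi_pos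
    exact add_nonneg zero_le_one (Finset.sum_nonneg fun j _ => by positivity)
  intro m A A' b lam v₀ v mu mu' p st hA hp
  have hpi := Real.pi_pos
  have e1 : vt (F.c0 m) F.β A v mu 0 = (v₀ : L2c) := by
    unfold vt
    rw [st.U.iv, hA, st.U.im, Complex.ofReal_zero, zero_smul, zero_smul, sub_zero, sub_zero]
  unfold FD.ov FD.oo
  rw [e1]
  refine (norm_sub_le _ _).trans ?_
  rw [add_mul, one_mul, Finset.sum_mul]
  refine add_le_add le_rfl ((norm_sum_le _ _).trans (Finset.sum_le_sum fun j _ => ?_))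
  rw [norm_smul]
  have e2 : ‖(2 * Real.pi : ℂ)‖ = 2 * Real.pi := by
    rw [norm_mul, Complex.norm_real, Real.norm_of_nonneg hpi.le]
    norm_num
  rw [e2, mul_assoc (2 * Real.pi)]
  refine mul_le_mul_of_nonneg_left ?_ (by positivity)
  rw [mul_assoc]
  refine ((ContinuousLinearMap.adjoint (F.Be j)).le_opNorm _).trans
    (mul_le_mul_of_nonneg_left ?_ (norm_nonneg _))
  rw [mul_assoc]
  refine ((SC.cm (F.G j).a : HP →L[ℂ] HP).le_opNorm _).trans (mul_le_mul_of_nonneg_left ?_ (norm_nonneg _))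
  show ‖F.gg m A v p j 0‖ ≤ _
  rw [gg_init st hp j]
  exact (fgd_Ms _ _ _).trans ((fgd_Ms _ _ _).trans ((F.Ga j).le_opNorm v₀))

end FD

end Pool.Agent.Lib.MP_79abb3_an.PD
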