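import Pool.Agent.Lib.MP_79abb3_an.PD.FbW3
import Pool.Agent.Lib.MP_79abb3_an.PD.FbU2
import Pool.Agent.Lib.MP_79abb3_an.PD.FbT
import Pool.Agent.Lib.MP_79abb3_an.PD.FgB
import Pool.Agent.Lib.MP_79abb3_an.PD.FgD

/-!
Theorem D, block F, bounds (7.2): the continuity argument.
-/

set_option autoImplicit false
set_option linter.unusedSectionVars false

open MeasureTheory Set Filter Topology Function
open scoped ENNReal InnerProductSpace ComplexConjugate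

namespace Pool.Agent.Lib.MP_79abb3_an.PD

open Pool.Agent.Lib.MP_79abb3_an.SC Pool.Agent.Lib.MP_79abb3_an.P25 Pool.Agent.Lib.MP_79abb3_an.FW

namespace FD
variable {D : Set ℂ} (F : FD D)

private theorem fbx_TT (G : Geo Real.pi) (g : HP) : ‖SC.TT G.ω g‖ ≤ ‖LT G.ω G.lam (3 / 8) g‖ := by
  have h := G.lamOK
  refine (sq_le_sq₀ (norm_nonneg _) (norm_nonneg _)).1 ?_
  rw [l2_norm_sq, l2_norm_sq]
  refine (l2_summable _).tsum_le_tsum (fun n => ?_) (l2_summable _)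
  rw [h.LT_apply (by norm_num), norm_smul, Complex.norm_real,
    Real.norm_of_nonneg (Real.rpow_nonneg (by linarith [h.one n]) _), SC.TT_apply, mul_pow]
  have h1 : 1 ≤ G.lam n ^ (3 / 8 : ℝ) := Real.one_le_rpow (h.one n) (by norm_num)
  exact le_mul_of_one_le_left (sq_nonneg _) (one_le_pow₀ h1)

private theorem fbx_StB {G : Geo Real.pi} {N : ℕ} {C C' ε ε' : ℝ} {A : ℝ → ℝ} {g : ℝ → HP} {t : ℝ}
    (h : StB G N C ε A g t) (hC : C ≤ C') (hε : ε ≤ ε') : StB G N C' ε' A g t := by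
  have he : 0 ≤ Real.exp (-√(G.ω * N)) := (Real.exp_pos _).le
  have hm := mul_le_mul_of_nonneg_right hC he
  exact ⟨h.y.trans (by linarith), h.e.trans hC, h.k0.trans hm, h.k1.trans hm, h.k2.trans hm⟩

private theorem fbx_Ms {S : Set ℝ} {k : ℝ → CI Real.pi} {y : ℝ → HP} (hk : ContinuousOn k S)
    (hy : ContinuousOn y S) : ContinuousOn (fun t => Ms (k t) (y t)) S := by
  have a1 : ContinuousOn (fun t => MsB Real.pi (k t) (y t)) S :=
    ((MsB Real.pi).continuous.comp_continuousOn hk).clm_apply hy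
  exact a1

/-- `srR` is continuous in time. -/
private theorem fbx_sr {m : ℕ} {A : ℝ → ℝ} {g : ℝ → HP} {b : ℝ} (j : Fin F.n) (hA : ContinuousOn A (Icc 0 b))
    (hg : ContinuousOn g (Icc 0 b)) : ContinuousOn (fun r =>
      ((F.G j).srR (F.N m j) (F.k j * A r) (4 * F.u) (8 * F.u) (g r)) ^ 2) (Icc 0 b) := by
  have h1 : ContinuousOn (fun r => ‖Ms (F.kp m j (A r)) (SC.TT (F.G j).ω (g r))‖) (Icc 0 b) := by
    have hk : ContinuousOn (fun r => F.kp m j (A r)) (Icc 0 b) := (F.kp_cont m j).comp_continuousOn hA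
    have hy : ContinuousOn (fun r => SC.TT (F.G j).ω (g r)) (Icc 0 b) :=
      (SC.TT (F.G j).ω).continuous.comp_continuousOn hg
    exact (fbx_Ms hk hy).norm
  have h2 : ContinuousOn (fun r => ‖Ms (F.thw m j) (g r)‖) (Icc 0 b) :=
    ((Ms (F.thw m j)).continuous.comp_continuousOn hg).norm
  exact (h1.add (continuousOn_const.mul h2)).pow 2

private theorem fbx_szS (o : L2c) : sz (∅ : Set ℂ) o = ‖o‖ := by
  unfold sz
  rw [compl_empty, Measure.restrict_univ, ← L2_norm_sq, Real.sqrt_sq (norm_nonneg _), measure_empty,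
    ENNReal.toReal_zero, Real.zero_rpow (by norm_num), mul_zero, add_zero]

/-- **7.2.** Continuity argument (`boot_fam`) for `‖o‖² < (C₀ Θ)² + 1`, `‖w‖ < W`, `y_j < ε`: as long as these hold on `[0,t]`,
`‖h_j‖ ≤ Q` (`hh_bd`), `StV.apriori`, `|M_j| ≤ ε` (`MM_bd`), `‖w(t)‖ < W` (`ww_bd` with `S = ∅`),
`‖o(t)‖² ≤ ‖o(0)‖² + C ∫ ∑ srR²` (`ov_energy`, `src_int`). -/
theorem apri_of (ha : F.HasApx) {Θ : ℝ} (hΘ : 0 ≤ Θ) : ∃ R : ℝ, 0 ≤ R ∧ ∀ ε : ℝ, 0 < ε → ∃ m₀ : ℕ, 1 ≤ m₀ ∧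
    ∀ m : ℕ, m₀ ≤ m →
    ∀ {A A' : ℝ → ℝ} {b lam : ℝ} {v₀ : VD D} {v : ℝ → VD D} {mu mu' : ℝ → ℝ} {p : Fin F.n → ℝ → HP}
    (_ : F.Fst m lam A A' b v₀ v mu mu' p) (_ : b ≤ F.bm m) (_ : ∀ t ∈ Icc 0 b, A t ≤ F.A0 m) (_ : A 0 = 0)
    (_ : ∀ j, p j 0 = F.p0 m v₀ j) (_ : ‖v₀‖ ≤ Θ), ∀ t ∈ Icc 0 b, F.FB m R ε A v mu p t := by
  obtain ⟨mh, C1, _, hC1, hH⟩ := F.hh_bd
  obtain ⟨mw, C2, _, hC2, hW⟩ := F.ww_bd
  obtain ⟨Ct, hCt, hT⟩ := F.ht_le
  obtain ⟨Cy, hCy, hyi⟩ := F.init_y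
  obtain ⟨Co, hCo, hoi⟩ := F.init_o
  obtain ⟨R0, hR0⟩ : ∃ R0 : ℝ, R0 = Co * Θ + 1 := ⟨_, rfl⟩
  have hCoΘ : 0 ≤ Co * Θ := by positivity
  have hR00 : 0 ≤ R0 := by rw [hR0]; linarith
  obtain ⟨W, hWd⟩ : ∃ W : ℝ, W = C2 * (R0 + 2 * F.n + 1) + ‖iot D‖ * Θ + 1 := ⟨_, rfl⟩
  have hW0 : 0 ≤ W := by rw [hWd]; positivity
  obtain ⟨Q, hQd⟩ : ∃ Q : ℝ, Q = R0 + W + C1 * (R0 + W) := ⟨_, rfl⟩
  have hQ0 : 0 ≤ Q := by rw [hQd]; positivity
  have hQ1 : R0 + W ≤ Q := by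
    rw [hQd]; have : 0 ≤ C1 * (R0 + W) := by positivity
    linarith
  have hQ2 : C1 * (R0 + W) ≤ Q := by rw [hQd]; linarith
  have hap := fun j => StV.apriori (F.G j) (F.G_big j) (F.cutOK j) hQ0 le_rfl
  choose CB hCB0 hCB using hap
  obtain ⟨C, hCd⟩ : ∃ C : ℝ, C = Q + ∑ j, CB j := ⟨_, rfl⟩
  have hCQ : Q ≤ C := by
    rw [hCd]; linarith [Finset.sum_nonneg fun j (_ : j ∈ (Finset.univ : Finset (Fin F.n))) => hCB0 j]
  have hCBC : ∀ j, CB j ≤ C := fun j => by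
    rw [hCd]
    have := Finset.single_le_sum (fun j (_ : j ∈ (Finset.univ : Finset (Fin F.n))) => hCB0 j) (Finset.mem_univ j)
    linarith
  have hC0 : 0 ≤ C := hQ0.trans hCQ
  obtain ⟨me, Ce, _, hCe, hE⟩ := F.ov_energy (Y := Ct * (1 + Q)) (by positivity)
  refine ⟨C, hC0, fun ε' hε' => ?_⟩
  obtain ⟨ε, hεd⟩ : ∃ ε : ℝ, ε = min ε' 1 := ⟨_, rfl⟩
  have hε : 0 < ε := by rw [hεd]; exact lt_min hε' one_pos
  have hε1 : ε ≤ 1 := by rw [hεd]; exact min_le_right _ _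
  have hεε : ε ≤ ε' := by rw [hεd]; exact min_le_left _ _
  obtain ⟨δ, hδd⟩ : ∃ δ : ℝ, δ = 1 / (2 * (Ce * F.n + 1)) := ⟨_, rfl⟩
  have hδ : 0 < δ := by rw [hδd]; positivity
  -- thresholds
  choose mb hmb1 hmb using fun j => hCB j (ε / 2) (half_pos hε)
  obtain ⟨mM, _, hmM⟩ := F.MM_bd hΘ hC0 hε
  obtain ⟨c0, hc00, hc0⟩ : ∃ c : ℝ, 0 < c ∧ Cy * c ^ (5 / 8 : ℝ) * Θ ≤ ε / 4 := by
    have hl : Tendsto (fun c : ℝ => Cy * c ^ (5 / 8 : ℝ) * Θ) (𝓝[>] 0) (𝓝 (Cy * 0 * Θ)) := by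
      have h5 : Tendsto (fun c : ℝ => c ^ (5 / 8 : ℝ)) (𝓝[>] 0) (𝓝 0) := by
        have := (Real.continuousAt_rpow_const (0:ℝ) (5 / 8 : ℝ) (Or.inr (by norm_num))).tendsto
        rw [Real.zero_rpow (by norm_num)] at this
        exact this.mono_left nhdsWithin_le_nhds
      exact (h5.const_mul Cy).mul_const Θ
    have h6 : Cy * 0 * Θ < ε / 4 := by rw [mul_zero, zero_mul]; positivity
    obtain ⟨c, hc1, hc2⟩ := ((hl.eventually (gt_mem_nhds h6)).and self_mem_nhdsWithin).exists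
    exact ⟨c, hc2, hc1.le⟩
  obtain ⟨mz, _, hmz⟩ := F.z1_small (lt_min hc00 one_pos)
  obtain ⟨rA, hrA⟩ := eventually_atTop.1 (F.A0_tend.eventually (gt_mem_nhds
    (show (0:ℝ) < 1 / (F.K + 1) by positivity)))
  choose ms hms1 hms using fun j => src_int (F.G j) (c₁ := 4 * F.u) (c₂ := 8 * F.u) (by linarith [F.u0])
    (by linarith) (hCB0 j) δ hδ
  have ev : ∀ᶠ m : ℕ in atTop, 1 ≤ m ∧ me ≤ m ∧ mM ≤ m ∧ mh ≤ m ∧ mw ≤ m ∧ mz ≤ m ∧ rA ≤ m ∧
      ∀ j, mb j ≤ (F.G j).ω * F.N m j ∧ ms j ≤ (F.G j).ω * F.N m j := by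
    have e1 : ∀ᶠ m : ℕ in atTop, ∀ j, mb j ≤ (m:ℝ) ∧ ms j ≤ (m:ℝ) := by
      rw [eventually_all]
      intro j
      filter_upwards [tendsto_natCast_atTop_atTop.eventually (eventually_ge_atTop (mb j)),
        tendsto_natCast_atTop_atTop.eventually (eventually_ge_atTop (ms j))] with m h1 h2
      exact ⟨h1, h2⟩
    filter_upwards [eventually_ge_atTop 1, eventually_ge_atTop me, eventually_ge_atTop mM, eventually_ge_atTop mh,
      eventually_ge_atTop mw, eventually_ge_atTop mz, eventually_ge_atTop rA, e1] with m a1 a2 a3 a4 a5 a6 a7 a8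
    exact ⟨a1, a2, a3, a4, a5, a6, a7, fun j => ⟨(a8 j).1.trans (F.par a1 j).2.1, (a8 j).2.trans (F.par a1 j).2.1⟩⟩
  obtain ⟨m₀, hm₀⟩ := eventually_atTop.1 ev
  refine ⟨max 1 m₀, le_max_left _ _, ?_⟩
  intro m hm A A' b lam v₀ v mu mu' p st hbm hAm hA00 hp0 hv0
  obtain ⟨g1, g2, g3, g4, g5, g6, g7, g8⟩ := hm₀ m ((le_max_right _ _).trans hm)
  have hb0 : 0 ≤ b := st.b0
  have h0b : (0:ℝ) ∈ Icc 0 b := ⟨le_rfl, hb0⟩
  have hcA := st.contA
  have hAs := hrA m g7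
  have hA0K : F.A0 m ≤ 1 ∧ ∀ j, F.k j * F.A0 m ≤ 1 := by
    have hK0 : (0:ℝ) < F.K + 1 := by positivity
    rw [lt_div_iff₀ hK0] at hAs
    by_cases hp : 0 ≤ F.A0 m
    · refine ⟨?_, fun j => ?_⟩
      · have : F.A0 m * 1 ≤ F.A0 m * (F.K + 1) := mul_le_mul_of_nonneg_left (by
          have : (0:ℝ) ≤ F.K := Nat.cast_nonneg _
          linarith) hp
        linarith
      · have h5 : (F.k j : ℝ) ≤ F.K + 1 := by
          have : F.k j ≤ F.K := F.hK j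
          have : (F.k j : ℝ) ≤ F.K := by exact_mod_cast this
          linarith
        have := mul_le_mul_of_nonneg_right h5 hp
        linarith
    · exact ⟨by linarith, fun j => by
        have : (F.k j : ℝ) * F.A0 m ≤ 0 := mul_nonpos_of_nonneg_of_nonpos (Nat.cast_nonneg _) (not_le.1 hp).le
        linarith⟩
  have hAj : ∀ s ∈ Icc 0 b, ∀ j, F.k j * A s ≤ F.k j * F.A0 m := fun s hs j =>
    mul_le_mul_of_nonneg_left (hAm s hs) (Nat.cast_nonneg _)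
  -- initial values
  have io : ‖F.ov m A v mu p 0‖ ≤ Co * Θ :=
    (hoi st hA00 hp0).trans (mul_le_mul_of_nonneg_left hv0 hCo)
  have io2 : ‖F.ov m A v mu p 0‖ ^ 2 ≤ (Co * Θ) ^ 2 := pow_le_pow_left₀ (norm_nonneg _) io 2
  have iw : ‖F.ww m (A 0) (v 0)‖ ≤ ‖iot D‖ * Θ := by
    have e : F.ww m (A 0) (v 0) = iot D v₀ := by
      unfold ww
      rw [hA00, Complex.ofReal_zero, zero_smul, sub_zero, st.U.iv]
    rw [e]
    exact ((iot D).le_opNorm v₀).trans (mul_le_mul_of_nonneg_left hv0 (iot D).opNorm_nonneg)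
  have ig : ∀ j, ‖LT (F.G j).ω (F.G j).lam (3 / 8) (F.gg m A v p j 0)‖ ≤ ε / 4 ∧
      Ms (F.thw m j) (SC.TT (F.G j).ω (F.gg m A v p j 0)) = 0 := by
    intro j
    obtain ⟨z0, z1, _⟩ := hmz m g6 j
    have h5 := hyi g1 j v₀ (z1.trans (min_le_right _ _))
    rw [gg_init st hp0 j]
    refine ⟨h5.1.trans (le_trans ?_ hc0), h5.2⟩
    have h6 : F.z1 m j ^ (5 / 8 : ℝ) ≤ c0 ^ (5 / 8 : ℝ) :=
      Real.rpow_le_rpow z0.le (z1.trans (min_le_left _ _)) (by norm_num)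
    have h7 : Cy * F.z1 m j ^ (5 / 8 : ℝ) ≤ Cy * c0 ^ (5 / 8 : ℝ) := mul_le_mul_of_nonneg_left h6 hCy
    exact mul_le_mul h7 hv0 (norm_nonneg _) (mul_nonneg hCy (Real.rpow_nonneg hc00.le _))
  -- the step
  have key : ∀ t ∈ Icc 0 b, (∀ s ∈ Icc 0 t, ‖F.ov m A v mu p s‖ ^ 2 ≤ (Co * Θ) ^ 2 + 1 ∧
      ‖F.ww m (A s) (v s)‖ ≤ W ∧ ∀ j, ‖LT (F.G j).ω (F.G j).lam (3 / 8) (F.gg m A v p j s)‖ ≤ ε) →
      (‖F.ov m A v mu p t‖ ^ 2 < (Co * Θ) ^ 2 + 1 ∧ ‖F.ww m (A t) (v t)‖ < W ∧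
      ∀ j, ‖LT (F.G j).ω (F.G j).lam (3 / 8) (F.gg m A v p j t)‖ < ε) ∧ F.FB m C ε' A v mu p t := by
    intro t ht hs
    have rt := st.restr ht
    have htt : t ∈ Icc 0 t := ⟨ht.1, le_rfl⟩
    have hsb : ∀ s ∈ Icc 0 t, s ∈ Icc 0 b := fun s hs' => ⟨hs'.1, hs'.2.trans ht.2⟩
    have bo : ∀ s ∈ Icc 0 t, ‖F.ov m A v mu p s‖ ≤ R0 := by
      intro s hs'
      refine (sq_le_sq₀ (norm_nonneg _) hR00).1 ((hs s hs').1.trans ?_)
      rw [hR0]; nlinarith
    have bh : ∀ s ∈ Icc 0 t, ∀ j, ‖F.hh m A v p j s‖ ≤ Q := by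
      intro s hs' j
      refine (hH m g4 A v mu p j s).trans (le_trans ?_ hQ2)
      exact mul_le_mul_of_nonneg_left (add_le_add (bo s hs') (hs s hs').2.1) hC1
    have bB : ∀ j, ∀ s ∈ Icc 0 t, StB (F.G j) (F.N m j) (CB j) (ε / 2) (fun s => F.k j * A s) (F.gg m A v p j) s := by
      intro j
      obtain ⟨ℓ, hℓ⟩ := rt.StV j
      refine hmb j hℓ (g8 j).1 ((ht.2.trans hbm).trans (F.par g1 j).2.2.2.2.1)
        (fun s hs' => (hAj s (hsb s hs') j).trans (F.par g1 j).2.2.2.1) (fun s hs' => bh s hs' j)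
        (fun s hs' => ((hs s hs').2.2 j).trans hε1) ?_
      exact (norm_eq_zero.2 (ig j).2).le
    have bB' : ∀ j, ∀ s ∈ Icc 0 t, StB (F.G j) (F.N m j) C 1 (fun s => F.k j * A s) (F.gg m A v p j) s :=
      fun j s hs' => fbx_StB (bB j s hs') (hCBC j) (by linarith)
    have bM : ∀ j, ‖F.MM m A v p j t‖ ≤ ε := by
      refine hmM m g3 st hbm hAm hp0 hv0 ht (fun s hs' => ⟨?_, fun j => ⟨?_, ?_, bB' j s hs'⟩⟩)
      · linarith [bo s hs']
      · linarith [bh s hs' j]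
      · exact ((hs s hs').2.2 j).trans hε1
    have bw : ‖F.ww m (A t) (v t)‖ < W := by
      have h5 := hW g5 (A := A) (mu := mu) (v := v) (p := p) MeasurableSet.empty (empty_subset D) t
      rw [fbx_szS] at h5
      have h6 : ∑ j, (‖SC.TT (F.G j).ω (F.gg m A v p j t)‖ + ‖F.MM m A v p j t‖) ≤ 2 * F.n := by
        have : ∑ j : Fin F.n, (‖SC.TT (F.G j).ω (F.gg m A v p j t)‖ + ‖F.MM m A v p j t‖) ≤ ∑ _j : Fin F.n, (2:ℝ) := by
          refine Finset.sum_le_sum fun j _ => ?_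
          have h7 := (fbx_TT (F.G j) (F.gg m A v p j t)).trans (((hs t htt).2.2 j).trans hε1)
          have h8 := (bM j).trans hε1
          linarith
        simpa [mul_comm] using this
      have hAt : |A t| ≤ 1 := by
        rw [abs_of_nonneg (st.A0 t ht)]
        exact (hAm t ht).trans hA0K.1
      have h9 : C2 * (‖F.ov m A v mu p t‖ + ∑ j, (‖SC.TT (F.G j).ω (F.gg m A v p j t)‖ + ‖F.MM m A v p j t‖) + |A t|) ≤
          C2 * (R0 + 2 * F.n + 1) := by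
        refine mul_le_mul_of_nonneg_left ?_ hC2
        linarith [bo t htt]
      have h10 : 0 ≤ ‖iot D‖ * Θ := by positivity
      rw [hWd]; linarith
    have by' : ∀ j, ‖LT (F.G j).ω (F.G j).lam (3 / 8) (F.gg m A v p j t)‖ < ε := by
      intro j
      have h5 := (bB j t htt).y
      have h6 := (ig j).1
      linarith
    have boo : ‖F.ov m A v mu p t‖ ^ 2 < (Co * Θ) ^ 2 + 1 := by
      obtain ⟨R, P, s1, q, hq⟩ := ha rt
      have h5 := hE g2 rt hq (fun s hs' j => ⟨(hAj s (hsb s hs') j).trans (hA0K.2 j), by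
        refine (hT (m := m) (A := A) (v := v) (p := p) j s).trans (mul_le_mul_of_nonneg_left ?_ hCt)
        exact add_le_add (((hs s hs').2.2 j).trans hε1) (bh s hs' j)⟩) t htt
      have hi : ∀ j, ContinuousOn (fun r =>
          ((F.G j).srR (F.N m j) (F.k j * A r) (4 * F.u) (8 * F.u) (F.gg m A v p j r)) ^ 2) (Icc 0 t) :=
        fun j => F.fbx_sr j rt.contA (rt.contg j)
      rw [intervalIntegral.integral_finsetSum fun j _ => (hi j).intervalIntegrable_of_Icc ht.1] at h5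
      have h6 : ∀ j, ∫ r in (0:ℝ)..t, ((F.G j).srR (F.N m j) (F.k j * A r) (4 * F.u) (8 * F.u)
          (F.gg m A v p j r)) ^ 2 ≤ δ := by
        intro j
        have hb1 : t ≤ 1 := (ht.2.trans hbm).trans (F.par g1 j).2.2.2.2.2.1
        refine hms j (g := F.gg m A v p j) (A := fun s => F.k j * A s) (b := t) (g8 j).2 ht.1 hb1 (rt.contg j)
          (fun s hs' => fbx_StB (bB j s hs') le_rfl (by linarith)) (continuousOn_const.mul rt.contA) t htt
      have h7 : ∑ j : Fin F.n, ∫ r in (0:ℝ)..t, ((F.G j).srR (F.N m j) (F.k j * A r) (4 * F.u) (8 * F.u)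
          (F.gg m A v p j r)) ^ 2 ≤ F.n * δ := by
        refine (Finset.sum_le_sum fun j _ => h6 j).trans (le_of_eq ?_)
        simp
      have h8 : Ce * (F.n * δ) < 1 := by
        rw [hδd]
        have h9 : 0 < 2 * (Ce * F.n + 1) := by positivity
        rw [← mul_assoc, mul_div_assoc', div_lt_iff₀ h9]
        have h10 : 0 ≤ Ce * F.n := by positivity
        nlinarith
      have h9 := mul_le_mul_of_nonneg_left h7 hCe
      linarith
    refine ⟨⟨boo, bw, by'⟩, ?_, ?_, fun j => (by' j).le.trans hεε, fun j => (bM j).trans hεε,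
      fun j => bB' j t htt⟩
    · linarith [bo t htt]
    · linarith
  -- continuity argument
  have hcont : ∀ i : Option (Option (Fin F.n)), ContinuousOn (fun s => match i with
      | none => ‖F.ov m A v mu p s‖ ^ 2
      | some none => ‖F.ww m (A s) (v s)‖
      | some (some j) => ‖LT (F.G j).ω (F.G j).lam (3 / 8) (F.gg m A v p j s)‖) (Icc 0 b) := by
    rintro (_ | _ | j)
    · exact st.ov_cont.norm.pow 2
    · refine ContinuousOn.norm ?_
      have c1 : ContinuousOn (fun s => iot D (v s)) (Icc 0 b) := (iot D).continuous.comp_continuousOn st.U.cv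
      exact c1.sub ((Complex.continuous_ofReal.comp_continuousOn hcA).smul continuousOn_const)
    · exact ((LT (F.G j).ω (F.G j).lam (3 / 8)).continuous.comp_continuousOn (st.contg j)).norm
  have boot := boot_fam (f := fun (i : Option (Option (Fin F.n))) s => match i with
      | none => ‖F.ov m A v mu p s‖ ^ 2
      | some none => ‖F.ww m (A s) (v s)‖
      | some (some j) => ‖LT (F.G j).ω (F.G j).lam (3 / 8) (F.gg m A v p j s)‖)
    (K := fun i => match i with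
      | none => (Co * Θ) ^ 2 + 1
      | some none => W
      | some (some _) => ε) hcont (by
      rintro (_ | _ | j)
      · show ‖F.ov m A v mu p 0‖ ^ 2 < (Co * Θ) ^ 2 + 1
        linarith
      · show ‖F.ww m (A 0) (v 0)‖ < W
        have : 0 ≤ C2 * (R0 + 2 * F.n + 1) := by positivity
        rw [hWd]; linarith
      · show ‖LT (F.G j).ω (F.G j).lam (3 / 8) (F.gg m A v p j 0)‖ < ε
        linarith [(ig j).1]) (by
      intro t ht hs
      have k := (key t ht fun s hs' => ⟨hs s hs' none, hs s hs' (some none), fun j => hs s hs' (some (some j))⟩).1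
      rintro (_ | _ | j)
      · exact k.1
      · exact k.2.1
      · exact k.2.2 j)
  intro t ht
  refine (key t ht fun s hs' => ?_).2
  have hsb : s ∈ Icc 0 b := ⟨hs'.1, hs'.2.trans ht.2⟩
  exact ⟨(boot s hsb none).le, (boot s hsb (some none)).le, fun j => (boot s hsb (some (some j))).le⟩

end FD

end Pool.Agent.Lib.MP_79abb3_an.PD
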