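import Pool.Agent.Lib.MP_79abb3_an.PD.GA3

/-!
Theorem D, block G, part A4: regularity of weak solutions of `∂u/∂ζ̄ = f` (Weyl's lemma).
-/

set_option autoImplicit false
set_option linter.unusedSectionVars false

open MeasureTheory Set Filter Topology Function
open scoped ENNReal ComplexConjugate

namespace Pool.Agent.Lib.MP_79abb3_an.PD

/-- Local representatives glue: if every point of the open set `D` has a neighbourhood `B ⊆ D` on which `u` agrees
a.e. with a function continuous on `B`, then there is `u₀` continuous on `D` with `u = u₀` a.e. on `D`; moreover every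
local representative agrees with `u₀` on its neighbourhood. Proof: two continuous functions which agree a.e. on an
open set agree there (`Continuous.ae_eq_iff_eq`-type lemma, `Measure.eqOn_open_of_ae_eq`); `u₀ x` := value at `x` of
the local representative at `x`; a.e. equality by `MeasureTheory.null_of_locally_null` / Lindelöf. -/
theorem glue_ae {D : Set ℂ} (hD : IsOpen D) {u : ℂ → ℂ}
    (h : ∀ x ∈ D, ∃ B, IsOpen B ∧ x ∈ B ∧ B ⊆ D ∧ ∃ v : ℂ → ℂ, ContinuousOn v B ∧
      u =ᵐ[volume.restrict B] v) :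
    ∃ u₀ : ℂ → ℂ, ContinuousOn u₀ D ∧ u =ᵐ[volume.restrict D] u₀ ∧
      ∀ B : Set ℂ, IsOpen B → B ⊆ D → ∀ v : ℂ → ℂ, ContinuousOn v B → u =ᵐ[volume.restrict B] v →
        EqOn u₀ v B := by
  classical
  choose B hBo hxB hBD v hv huv using h
  let u₀ : ℂ → ℂ := fun x => if hx : x ∈ D then v x hx x else 0
  have key : ∀ B' : Set ℂ, IsOpen B' → B' ⊆ D → ∀ v' : ℂ → ℂ, ContinuousOn v' B' →
      u =ᵐ[volume.restrict B'] v' → EqOn u₀ v' B' := by
    intro B' hB' hBD' v' hv' huv' x hx
    have hxD := hBD' hx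
    have e1 : u₀ x = v x hxD x := dif_pos hxD
    rw [e1]
    have ho : IsOpen (B' ∩ B x hxD) := hB'.inter (hBo x hxD)
    have h1 : u =ᵐ[volume.restrict (B' ∩ B x hxD)] v' :=
      ae_restrict_of_ae_restrict_of_subset inter_subset_left huv'
    have h2 : u =ᵐ[volume.restrict (B' ∩ B x hxD)] v x hxD :=
      ae_restrict_of_ae_restrict_of_subset inter_subset_right (huv x hxD)
    have h3 := Measure.eqOn_open_of_ae_eq (h2.symm.trans h1) ho
      ((hv x hxD).mono inter_subset_right) (hv'.mono inter_subset_left)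
    exact h3 ⟨hx, hxB x hxD⟩
  refine ⟨u₀, ?_, ?_, key⟩
  · intro x hx
    have h1 := key (B x hx) (hBo x hx) (hBD x hx) (v x hx) (hv x hx) (huv x hx)
    have h2 : ContinuousOn u₀ (B x hx) := (hv x hx).congr h1
    exact (h2.continuousAt ((hBo x hx).mem_nhds (hxB x hx))).continuousWithinAt
  · have h0 : volume {x | x ∈ D ∧ u x ≠ u₀ x} = 0 := by
      refine measure_null_of_locally_null _ ?_
      rintro x ⟨hx, -⟩
      refine ⟨{x | x ∈ D ∧ u x ≠ u₀ x} ∩ B x hx,
        inter_mem_nhdsWithin _ ((hBo x hx).mem_nhds (hxB x hx)), ?_⟩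
      have h1 := key (B x hx) (hBo x hx) (hBD x hx) (v x hx) (hv x hx) (huv x hx)
      have h2 := huv x hx
      have h3 : ∀ᵐ y ∂volume, y ∈ B x hx → u y = v x hx y :=
        (ae_restrict_iff' (hBo x hx).measurableSet).1 h2
      have h4 : volume {y | ¬ (y ∈ B x hx → u y = v x hx y)} = 0 := h3
      refine measure_mono_null ?_ h4
      rintro y ⟨⟨-, hy⟩, hyB⟩ hcon
      exact hy ((hcon hyB).trans (h1 hyB).symm)
    refine (ae_restrict_iff' hD.measurableSet).2 ?_
    have h5 : {x | ¬ (x ∈ D → u x = u₀ x)} = {x | x ∈ D ∧ u x ≠ u₀ x} := by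
      ext x
      simp
    rw [ae_iff, h5]
    exact h0

private theorem ga4_dbar_eq_zero {φ : ℂ → ℂ} {c : ℂ} {x : ℂ} (h : φ =ᶠ[𝓝 x] fun _ => c) :
    dbar φ x = 0 := by
  rw [dbar, h.fderiv_eq]
  simp

private theorem ga4_dbar_holo {g : ℂ → ℂ} {x : ℂ} (h : DifferentiableAt ℂ g x) : dbar g x = 0 := by
  have h1 : fderiv ℝ g x = (fderiv ℂ g x).restrictScalars ℝ :=
    (h.hasFDerivAt.restrictScalars ℝ).fderiv
  rw [dbar, h1]
  simp only [ContinuousLinearMap.coe_restrictScalars']
  have h2 : fderiv ℂ g x Complex.I = Complex.I * fderiv ℂ g x 1 := by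
    rw [← smul_eq_mul, ← (fderiv ℂ g x).map_smul, smul_eq_mul, mul_one]
  rw [h2, ← mul_assoc, Complex.I_mul_I]
  ring

private theorem ga4_dbar_cont {φ : ℂ → ℂ} (h : ContDiff ℝ ((⊤ : ℕ∞) : WithTop ℕ∞) φ) :
    Continuous (dbar φ) := by
  have h1 : Continuous (fderiv ℝ φ) := h.continuous_fderiv (by simp)
  unfold dbar
  fun_prop

private theorem ga4_supp {φ : ℂ → ℂ} : support (dbar φ) ⊆ tsupport φ := by
  intro x hx
  by_contra hcon
  refine hx (ga4_dbar_eq_zero (c := 0) ?_)
  exact notMem_tsupport_iff_eventuallyEq.1 hcon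

/-- cut-off function -/
private theorem ga4_cut {D : Set ℂ} (hD : IsOpen D) {x : ℂ} (hx : x ∈ D) :
    ∃ (η : ℂ → ℂ) (B : Set ℂ), IsTe D η ∧ IsOpen B ∧ x ∈ B ∧ B ⊆ D ∧ ∀ y ∈ B, η y = 1 := by
  obtain ⟨δ, hδ, hb⟩ := Metric.isOpen_iff.1 hD x hx
  let f : ContDiffBump x := ⟨δ / 4, δ / 2, by positivity, by linarith⟩
  have hs : tsupport (fun y => ((f y : ℝ) : ℂ)) ⊆ Metric.closedBall x (δ / 2) := by
    have h1 : support (fun y => ((f y : ℝ) : ℂ)) = support f := by
      ext y
      simp
    rw [tsupport, h1, ← tsupport, f.tsupport_eq]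
  refine ⟨fun y => (f y : ℂ), Metric.ball x (δ / 4), ⟨?_, ?_, ?_⟩, Metric.isOpen_ball,
    Metric.mem_ball_self (by positivity), ?_, ?_⟩
  · exact Complex.ofRealCLM.contDiff.comp f.contDiff
  · exact IsCompact.of_isClosed_subset (isCompact_closedBall _ _) (isClosed_tsupport _) hs
  · refine hs.trans ((Metric.closedBall_subset_ball (by linarith)).trans hb)
  · exact (Metric.ball_subset_ball (by linarith)).trans hb
  · intro y hy
    have : f y = 1 := f.one_of_mem_closedBall (Metric.ball_subset_closedBall hy)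
    simp [this]

private theorem ga4_int {D : Set ℂ} {u η ζ : ℂ → ℂ} (hu : LocallyIntegrableOn u D) (hη : IsTe D η)
    (hζ : Continuous ζ) (hs : support ζ ⊆ tsupport η) : Integrable (fun z => u z * ζ z) := by
  have h1 : IntegrableOn u (tsupport η) := hu.integrableOn_compact_subset hη.supp hη.cpt
  have h2 : IntegrableOn (fun z => u z * ζ z) (tsupport η) :=
    h1.mul_continuousOn hζ.continuousOn hη.cpt
  refine (integrableOn_iff_integrable_of_support_subset ?_).1 h2
  intro z hz
  refine hs ?_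
  intro h0
  exact hz (by simp [h0])

private theorem ga4_int_off {g : ℂ → ℂ} (hg : Integrable g) {B : Set ℂ} (hB : IsOpen B) {w : ℂ}
    (hw : w ∈ B) (h0 : ∀ z ∈ B, g z = 0) : Integrable fun z => g z / (w - z) := by
  obtain ⟨δ, hδ, hb⟩ := Metric.isOpen_iff.1 hB w hw
  refine Integrable.mono' (hg.norm.const_mul δ⁻¹) ?_ ?_
  · simp_rw [div_eq_mul_inv]
    exact hg.aestronglyMeasurable.mul
      (((measurable_const.sub measurable_id).inv).aestronglyMeasurable)
  · refine Filter.Eventually.of_forall fun z => ?_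
    by_cases hz : z ∈ B
    · rw [h0 z hz, zero_div, norm_zero]
      positivity
    · have h1 : δ ≤ ‖w - z‖ := by
        by_contra hcon
        refine hz (hb ?_)
        rw [Metric.mem_ball, dist_comm, dist_eq_norm]
        exact not_le.1 hcon
      rw [norm_div, div_eq_mul_inv, mul_comm]
      gcongr

private theorem ga4_int_on {g : ℂ → ℂ} (hg : Continuous g) (hc : HasCompactSupport g) (w : ℂ) :
    Integrable fun z => g z / (w - z) := by
  rw [← integrable_comp_sub_left _ w]
  have hc' : HasCompactSupport fun t => g (w - t) :=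
    hc.comp_homeomorph (Homeomorph.subLeft w)
  have h1 : IntegrableOn (fun z : ℂ => z⁻¹) (tsupport fun t => g (w - t)) :=
    inv_locInt.integrableOn_isCompact hc'
  have h2 : IntegrableOn (fun z : ℂ => z⁻¹ * g (w - z)) (tsupport fun t => g (w - t)) :=
    h1.mul_continuousOn (hg.comp (continuous_const.sub continuous_id)).continuousOn hc'
  have h3 : Integrable fun z : ℂ => z⁻¹ * g (w - z) := by
    refine (integrableOn_iff_integrable_of_support_subset ?_).1 h2
    intro z hz
    refine subset_tsupport _ ?_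
    intro h0
    exact hz (by simp only at h0; simp [h0])
  refine h3.congr (Filter.Eventually.of_forall fun z => ?_)
  simp only [sub_sub_cancel]
  ring

/-- **Weyl's lemma.** Near `x ∈ D` choose a test function `η` of `D` which is `1` on a ball `B` around `x`
(`exists_contDiff_tsupport_subset`, `ContDiffBump`); by `WD.repr` `u = CT (u dbar η)` a.e. on `B`, and this is holomorphic
on `B` by `CT_holo` (`dbar η = 0` on `B`; `S = Bᶜ`). Glue (`glue_ae`). -/
theorem WD.weyl {D : Set ℂ} (hD : IsOpen D) {u : ℂ → ℂ} (h : WD D u 0) :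
    ∃ g : ℂ → ℂ, DifferentiableOn ℂ g D ∧ u =ᵐ[volume.restrict D] g := by
  have loc : ∀ x ∈ D, ∃ B, IsOpen B ∧ x ∈ B ∧ B ⊆ D ∧ ∃ v : ℂ → ℂ, DifferentiableOn ℂ v B ∧
      u =ᵐ[volume.restrict B] v := by
    intro x hx
    obtain ⟨η, B, hη, hB, hxB, hBD, h1⟩ := ga4_cut hD hx
    have hz : ∀ z ∈ B, dbar η z = 0 := fun z hz =>
      ga4_dbar_eq_zero (c := 1) (Filter.eventuallyEq_of_mem (hB.mem_nhds hz) h1)
    refine ⟨B, hB, hxB, hBD, CT (fun z => u z * dbar η z), ?_, ?_⟩
    · have h2 := CT_holo (ga4_int h.iu hη (ga4_dbar_cont hη.smooth) ga4_supp)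
        (S := Bᶜ) hB.isClosed_compl (fun z hz' => by
          rw [hz z (not_not.1 hz'), mul_zero])
      rwa [compl_compl] at h2
    · have h3 := h.repr hη hB h1
      filter_upwards [h3] with w hw
      rw [hw]
      congr 1
      funext z
      simp
  obtain ⟨g, hg, hug, hgl⟩ := glue_ae hD (u := u) (fun x hx => by
    obtain ⟨B, hB, hxB, hBD, v, hv, huv⟩ := loc x hx
    exact ⟨B, hB, hxB, hBD, v, hv.continuousOn, huv⟩)
  refine ⟨g, fun x hx => ?_, hug⟩
  obtain ⟨B, hB, hxB, hBD, v, hv, huv⟩ := loc x hx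
  have h4 := hgl B hB hBD v hv.continuousOn huv
  exact ((hv.congr h4).differentiableAt (hB.mem_nhds hxB)).differentiableWithinAt

/-- **Regularity.** As `weyl`: `CT (u dbar η + f η) = CT (u dbar η) + CT (f₀ η)` on `B`, the first is holomorphic on
`B`, the second is smooth by `CT_smooth` with `∂/∂ζ̄ = f₀ η` (`dbar_CT`). -/
theorem WD.reg {D : Set ℂ} (hD : IsOpen D) {u f f₀ : ℂ → ℂ} (h : WD D u f)
    (hf : ContDiffOn ℝ ((⊤ : ℕ∞) : WithTop ℕ∞) f₀ D) (hff : f =ᵐ[volume.restrict D] f₀) :
    ∃ u₀ : ℂ → ℂ, ContDiffOn ℝ ((⊤ : ℕ∞) : WithTop ℕ∞) u₀ D ∧ u =ᵐ[volume.restrict D] u₀ ∧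
      ∀ x ∈ D, dbar u₀ x = f₀ x := by
  have loc : ∀ x ∈ D, ∃ B, IsOpen B ∧ x ∈ B ∧ B ⊆ D ∧ ∃ v : ℂ → ℂ,
      ContDiffOn ℝ ((⊤ : ℕ∞) : WithTop ℕ∞) v B ∧ (∀ y ∈ B, dbar v y = f₀ y) ∧
      u =ᵐ[volume.restrict B] v := by
    intro x hx
    obtain ⟨η, B, hη, hB, hxB, hBD, h1⟩ := ga4_cut hD hx
    have hz : ∀ z ∈ B, dbar η z = 0 := fun z hz =>
      ga4_dbar_eq_zero (c := 1) (Filter.eventuallyEq_of_mem (hB.mem_nhds hz) h1)
    have hi := ga4_int h.iu hη (ga4_dbar_cont hη.smooth) ga4_supp
    have hsm : ContDiff ℝ ((⊤ : ℕ∞) : WithTop ℕ∞) (fun z => f₀ z * η z) := by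
      refine contDiff_iff_contDiffAt.2 fun y => ?_
      by_cases hy' : y ∈ tsupport η
      · have hyD := hη.supp hy'
        exact (hf.contDiffAt (hD.mem_nhds hyD)).mul hη.smooth.contDiffAt
      · have h2 : (fun z => f₀ z * η z) =ᶠ[𝓝 y] fun _ => 0 := by
          filter_upwards [notMem_tsupport_iff_eventuallyEq.1 hy'] with z hz'
          rw [hz']
          simp
        exact contDiffAt_const.congr_of_eventuallyEq h2
    have hcs : HasCompactSupport (fun z => f₀ z * η z) := hη.cpt.mul_left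
    have hae : (fun z => f z * η z) =ᵐ[volume] fun z => f₀ z * η z := by
      have h2 := (ae_restrict_iff' hD.measurableSet).1 hff
      filter_upwards [h2] with z hz
      by_cases hzD : z ∈ D
      · rw [hz hzD]
      · have : η z = 0 := by
          by_contra hcon
          exact hzD (hη.supp (subset_tsupport η hcon))
        rw [this, mul_zero, mul_zero]
    have hH : DifferentiableOn ℂ (CT fun z => u z * dbar η z) B := by
      have h2 := CT_holo hi (S := Bᶜ) hB.isClosed_compl (fun z hz' => by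
          rw [hz z (not_not.1 hz'), mul_zero])
      rwa [compl_compl] at h2
    have hS : ContDiff ℝ ((⊤ : ℕ∞) : WithTop ℕ∞) (CT fun z => f₀ z * η z) := CT_smooth hsm hcs
    refine ⟨B, hB, hxB, hBD, fun w => CT (fun z => u z * dbar η z) w + CT (fun z => f₀ z * η z) w,
      ?_, ?_, ?_⟩
    · exact ((hH.contDiffOn hB).restrict_scalars ℝ).add hS.contDiffOn
    · intro y hy
      have hHy := hH.differentiableAt (hB.mem_nhds hy)
      have hSy : DifferentiableAt ℝ (CT fun z => f₀ z * η z) y :=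
        hS.differentiable (by simp) y
      have e1 : dbar (fun w => CT (fun z => u z * dbar η z) w + CT (fun z => f₀ z * η z) w) y =
          dbar (CT fun z => u z * dbar η z) y + dbar (CT fun z => f₀ z * η z) y := by
        have e2 := fderiv_add (hHy.restrictScalars ℝ) hSy
        have e3 : (fun w => CT (fun z => u z * dbar η z) w + CT (fun z => f₀ z * η z) w) =
          (CT fun z => u z * dbar η z) + (CT fun z => f₀ z * η z) := rfl
        rw [dbar, dbar, dbar, e3, e2]
        simp only [add_apply]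
        ring
      rw [e1, ga4_dbar_holo hHy, dbar_CT (hsm.of_le (by simp)) hcs, zero_add, h1 y hy, mul_one]
    · have h3 := h.repr hη hB h1
      filter_upwards [h3, ae_restrict_mem hB.measurableSet] with w hw hwB
      rw [hw]
      have e1 : CT (fun z => u z * dbar η z + f z * η z) w =
          CT (fun z => u z * dbar η z + f₀ z * η z) w := by
        rw [CT, CT]
        congr 1
        refine integral_congr_ae ?_
        filter_upwards [hae] with z hz'
        rw [hz']
      rw [e1, CT, CT, CT, ← mul_add, ← integral_add]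
      · congr 1
        refine integral_congr_ae (Filter.Eventually.of_forall fun z => ?_)
        show (u z * dbar η z + f₀ z * η z) / (w - z) = _
        ring
      · exact ga4_int_off hi hB hwB fun z hz' => by rw [hz z hz', mul_zero]
      · exact ga4_int_on hsm.continuous hcs w
  obtain ⟨g, hg, hug, hgl⟩ := glue_ae hD (u := u) (fun x hx => by
    obtain ⟨B, hB, hxB, hBD, v, hv, -, huv⟩ := loc x hx
    exact ⟨B, hB, hxB, hBD, v, hv.continuousOn, huv⟩)
  refine ⟨g, fun x hx => ?_, hug, fun x hx => ?_⟩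
  · obtain ⟨B, hB, hxB, hBD, v, hv, -, huv⟩ := loc x hx
    have h4 := hgl B hB hBD v hv.continuousOn huv
    exact ((hv.congr h4).contDiffAt (hB.mem_nhds hxB)).contDiffWithinAt
  · obtain ⟨B, hB, hxB, hBD, v, hv, hd, huv⟩ := loc x hx
    have h4 := hgl B hB hBD v hv.continuousOn huv
    have h5 : g =ᶠ[𝓝 x] v := Filter.eventuallyEq_of_mem (hB.mem_nhds hxB) h4
    rw [← hd x hxB, dbar, dbar, h5.fderiv_eq]

end Pool.Agent.Lib.MP_79abb3_an.PD
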