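import Pool.Agent.Lib.MP_79abb3_an.PD.GB2
import Pool.Agent.Lib.MP_79abb3_an.PD.GA4

/-!
Theorem D, block G, part B3: curl free fields, harmonic parts.
-/

set_option autoImplicit false
set_option linter.unusedSectionVars false

open MeasureTheory Set Filter Topology Function
open scoped ENNReal ComplexConjugate

namespace Pool.Agent.Lib.MP_79abb3_an.PD

private theorem gb3_diff {D : Set ℂ} {φ : ℂ → ℝ} (h : IsTe D φ) : Differentiable ℝ φ :=
  h.smooth.differentiable (by simp)

private theorem gb3_out {E : Type} [NormedAddCommGroup E] [NormedSpace ℝ E] {D : Set ℂ} {φ : ℂ → E}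
    (h : IsTe D φ) {x : ℂ} (hx : x ∉ D) : φ x = 0 := by
  by_contra h0
  exact hx (h.supp (subset_tsupport _ h0))

private theorem gb3_int {D : Set ℂ} {u ζ : ℂ → ℂ} (hu : LocallyIntegrableOn u D) (hζ : IsTe D ζ) :
    Integrable (fun z => u z * ζ z) := by
  have h1 : IntegrableOn u (tsupport ζ) := hu.integrableOn_compact_subset hζ.supp hζ.cpt
  have h2 : IntegrableOn (fun z => u z * ζ z) (tsupport ζ) :=
    h1.mul_continuousOn hζ.smooth.continuous.continuousOn hζ.cpt
  refine (integrableOn_iff_integrable_of_support_subset ?_).1 h2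
  intro z hz
  refine subset_tsupport _ ?_
  intro h0
  exact hz (by simp [h0])

private theorem gb3_mk {E : Type} [NormedAddCommGroup E] [NormedSpace ℝ E] {D : Set ℂ} {f : ℂ → E}
    (hs : ContDiff ℝ ((⊤ : ℕ∞) : WithTop ℕ∞) f) {A : Set ℂ} (hA : IsCompact A) (hAD : A ⊆ D)
    (hf : ∀ x, x ∉ A → f x = 0) : IsTe D f := by
  have h1 : tsupport f ⊆ A := by
    refine closure_minimal ?_ hA.isClosed
    intro x hx
    by_contra h
    exact hx (hf x h)
  exact ⟨hs, hA.of_isClosed_subset (isClosed_tsupport f) h1, h1.trans hAD⟩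

private theorem gb3_dbar {D : Set ℂ} {ψ : ℂ → ℂ} (h : IsTe D ψ) : IsTe D (dbar ψ) := by
  refine gb3_mk ?_ h.cpt h.supp fun x hx => ?_
  · have h1 : ContDiff ℝ ((⊤ : ℕ∞) : WithTop ℕ∞) (fderiv ℝ ψ) := h.smooth.fderiv_right (by norm_cast)
    have h2 : ∀ c : ℂ, ContDiff ℝ ((⊤ : ℕ∞) : WithTop ℕ∞) fun x => fderiv ℝ ψ x c :=
      fun c => h1.clm_apply contDiff_const
    unfold dbar
    exact ((h2 1).add (contDiff_const.mul (h2 Complex.I))).div_const 2
  · have h0 : fderiv ℝ ψ x = 0 :=
      image_eq_zero_of_notMem_tsupport fun h' => hx (tsupport_fderiv_subset ℝ h')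
    unfold dbar
    rw [h0]
    simp

private theorem gb3_star {D : Set ℂ} {ψ : ℂ → ℂ} (h : IsTe D ψ) : IsTe D (fun x => conj (ψ x)) := by
  refine gb3_mk ((Complex.conjCLE : ℂ →L[ℝ] ℂ).contDiff.comp h.smooth) h.cpt h.supp fun x hx => ?_
  rw [image_eq_zero_of_notMem_tsupport hx, map_zero]

private theorem gb3_ofReal {D : Set ℂ} {φ : ℂ → ℝ} (h : IsTe D φ) :
    IsTe D (fun x => ((φ x : ℝ) : ℂ)) := by
  refine gb3_mk (Complex.ofRealCLM.contDiff.comp h.smooth) h.cpt h.supp fun x hx => ?_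
  rw [image_eq_zero_of_notMem_tsupport hx, Complex.ofReal_zero]

/-- `dbar (gr φ)` is real -/
private theorem gb3_real {φ : ℂ → ℝ} (h : ContDiff ℝ ((⊤ : ℕ∞) : WithTop ℕ∞) φ) (x : ℂ) :
    (dbar (gr φ) x).im = 0 := by
  have hd : ContDiff ℝ ((⊤ : ℕ∞) : WithTop ℕ∞) (fderiv ℝ φ) := h.fderiv_right (by norm_cast)
  have hdx : DifferentiableAt ℝ (fderiv ℝ φ) x := hd.differentiable (by simp) x
  have e1 : gr φ = fun x =>
      Complex.ofRealCLM (fderiv ℝ φ x 1) - Complex.I * Complex.ofRealCLM (fderiv ℝ φ x Complex.I) := by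
    funext x
    unfold gr
    apply Complex.ext
    · simp
    · simp
  have h1 : ∀ c : ℂ, HasFDerivAt (fun x => fderiv ℝ φ x c)
      ((ContinuousLinearMap.apply ℝ ℝ c).comp (fderiv ℝ (fderiv ℝ φ) x)) x := by
    intro c
    exact (ContinuousLinearMap.apply ℝ ℝ c).hasFDerivAt.comp x hdx.hasFDerivAt
  have h2 : ∀ c : ℂ, HasFDerivAt (fun x => Complex.ofRealCLM (fderiv ℝ φ x c))
      (Complex.ofRealCLM.comp ((ContinuousLinearMap.apply ℝ ℝ c).comp (fderiv ℝ (fderiv ℝ φ) x))) x := by
    intro c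
    exact Complex.ofRealCLM.hasFDerivAt.comp x (h1 c)
  have h3 : HasFDerivAt (gr φ)
      (Complex.ofRealCLM.comp ((ContinuousLinearMap.apply ℝ ℝ 1).comp (fderiv ℝ (fderiv ℝ φ) x)) -
        Complex.I • Complex.ofRealCLM.comp
          ((ContinuousLinearMap.apply ℝ ℝ Complex.I).comp (fderiv ℝ (fderiv ℝ φ) x))) x := by
    rw [e1]
    exact (h2 1).sub ((h2 Complex.I).const_mul Complex.I)
  have hsym : fderiv ℝ (fderiv ℝ φ) x 1 Complex.I = fderiv ℝ (fderiv ℝ φ) x Complex.I 1 := by
    have h2t : (2 : WithTop ℕ∞) ≤ ((⊤ : ℕ∞) : WithTop ℕ∞) := by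
      have h2u : ((2 : ℕ∞) : WithTop ℕ∞) ≤ ((⊤ : ℕ∞) : WithTop ℕ∞) := WithTop.coe_le_coe.2 le_top
      exact h2u
    have := ((h.of_le h2t).contDiffAt (x := x)).isSymmSndFDerivAt (by simp)
    exact this 1 Complex.I
  rw [dbar, h3.fderiv]
  simp only [sub_apply, smul_apply, ContinuousLinearMap.comp_apply,
    ContinuousLinearMap.apply_apply, Complex.ofRealCLM_apply, smul_eq_mul]
  rw [hsym]
  simp

/-- the complex integral of `conj α · gr φ` -/
private theorem gb3_zero {α : ℂ → ℂ} {φ : ℂ → ℝ}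
    (hi : Integrable fun x => conj (α x) * gr φ x)
    (h1 : ∫ x, (conj (α x) * gr φ x).re = 0) (h2 : ∫ x, (conj (α x) * gr φ x).im = 0) :
    ∫ x, α x * conj (gr φ x) = 0 := by
  have e : ∫ x, α x * conj (gr φ x) = conj (∫ x, conj (α x) * gr φ x) := by
    rw [← integral_conj]
    refine integral_congr_ae (Eventually.of_forall fun x => ?_)
    simp
  rw [e]
  have e2 : ∫ x, conj (α x) * gr φ x = 0 := by
    apply Complex.ext
    · have := integral_re hi
      simp only [RCLike.re_to_complex] at this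
      rw [← this, h1]
      rfl
    · have := integral_im hi
      simp only [RCLike.im_to_complex] at this
      rw [← this, h2]
      rfl
  rw [e2, map_zero]

private theorem gb3_conj {D : Set ℂ} {α : ℂ → ℂ} (h : LocallyIntegrableOn α D) :
    LocallyIntegrableOn (fun x => conj (α x)) D := by
  intro x hx
  obtain ⟨s, hs, hi⟩ := h x hx
  refine ⟨s, hs, ?_⟩
  exact (Complex.conjCLE : ℂ →L[ℝ] ℂ).integrable_comp hi

/-- Gradients are curl free, weak form: if `∂u/∂ζ̄ = conj γ / 2` weakly with real `u`, then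
`Im ∫ conj γ · gr φ = 0`. Proof: test with `ψ = gr φ`: `dbar (gr φ)` is real (`= Δφ/2`, symmetry of second
derivatives), so `∫ conj γ gr φ = -2 ∫ u dbar (gr φ)` is real. -/
theorem WD.curl {D : Set ℂ} {u : ℂ → ℝ} {γ : ℂ → ℂ}
    (h : WD D (fun x => ((u x : ℝ) : ℂ)) (fun x => conj (γ x) / 2)) {φ : ℂ → ℝ} (hφ : IsTe D φ) :
    ∫ x, (conj (γ x) * gr φ x).im = 0 := by
  have hi : Integrable fun x => conj (γ x) / 2 * gr φ x := gb3_int h.iF hφ.gr
  have hd : Integrable fun x => ((u x : ℝ) : ℂ) * dbar (gr φ) x := by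
    have hc : IsTe D (dbar (gr φ)) := gb3_dbar hφ.gr
    exact gb3_int h.iu hc
  have e := h.eq (gr φ) hφ.gr
  have e1 : (∫ x, ((u x : ℝ) : ℂ) * dbar (gr φ) x).im = 0 := by
    have := integral_im hd
    simp only [RCLike.im_to_complex] at this
    rw [← this]
    rw [integral_eq_zero_of_ae]
    refine Eventually.of_forall fun x => ?_
    show (((u x : ℝ) : ℂ) * dbar (gr φ) x).im = 0
    rw [Complex.im_ofReal_mul, gb3_real hφ.smooth, mul_zero]
  rw [e, Complex.neg_im, neg_eq_zero] at e1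
  have e2 := integral_im hi
  simp only [RCLike.im_to_complex] at e2
  rw [← e2] at e1
  have e3 : ∫ x, (conj (γ x) * gr φ x).im = 2 * ∫ x, (conj (γ x) / 2 * gr φ x).im := by
    rw [← integral_const_mul]
    refine integral_congr_ae (Eventually.of_forall fun x => ?_)
    show (conj (γ x) * gr φ x).im = 2 * (conj (γ x) / 2 * gr φ x).im
    have : conj (γ x) * gr φ x = ((2 : ℝ) : ℂ) * (conj (γ x) / 2 * gr φ x) := by
      push_cast
      ring
    rw [this, Complex.im_ofReal_mul]
  rw [e3, e1, mul_zero]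

/-- A field which is curl free and divergence free is weakly holomorphic: `∫ conj α · gr φ = 0` for real `φ`,
so `∫ α · dbar φ = 0` (`dbar_ofReal`), then complex `ψ` by `dbar_reim`. -/
theorem WD.of_div_curl {D : Set ℂ} {α : ℂ → ℂ} (ha : LocallyIntegrableOn α D)
    (h1 : ∀ φ : ℂ → ℝ, IsTe D φ → ∫ x, (conj (α x) * gr φ x).re = 0)
    (h2 : ∀ φ : ℂ → ℝ, IsTe D φ → ∫ x, (conj (α x) * gr φ x).im = 0) : WD D α 0 := by
  refine ⟨ha, (locallyIntegrable_zero).locallyIntegrableOn D, fun ψ hψ => ?_⟩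
  have key : ∀ φ : ℂ → ℝ, IsTe D φ → ∫ x, α x * conj (gr φ x) = 0 := fun φ hφ =>
    gb3_zero (gb3_int (gb3_conj ha) hφ.gr) (h1 φ hφ) (h2 φ hφ)
  have hi : ∀ φ : ℂ → ℝ, IsTe D φ → Integrable fun x => α x * conj (gr φ x) := fun φ hφ =>
    gb3_int ha (gb3_star hφ.gr)
  have hψd : Differentiable ℝ ψ := hψ.smooth.differentiable (by simp)
  have e : (fun x => α x * dbar ψ x) = fun x =>
      (1 / 2 : ℂ) * (α x * conj (gr (fun x => (ψ x).re) x)) +
        (Complex.I / 2) * (α x * conj (gr (fun x => (ψ x).im) x)) := by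
    funext x
    rw [dbar_reim (hψd x)]
    ring
  rw [e, integral_add ((hi _ hψ.re).const_mul _) ((hi _ hψ.im).const_mul _),
    integral_const_mul, integral_const_mul, key _ hψ.re, key _ hψ.im]
  simp

/-- **Harmonic part.** `β` smooth on `D` and curl free there (`dbar β` real), `(u, γ)` the projection of `1_D β`.
Then `γ = β - g` a.e. on `D` with `g` holomorphic, and `u` has a smooth representative on `D`.
Proof: `α = β - γ` is curl free (`WD.curl` for `γ`; for `β`: `green`) and divergence free (projection), so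
`WD.of_div_curl`, `WD.weyl`; then `WD.reg` for `u` (with `f₀ = conj (β - g)/2`), real part of the representative,
`dbar_ofReal`. -/
theorem exists_harm {D : Set ℂ} (hD : IsOpen D) (hb : Bornology.IsBounded D) {β : ℂ → ℂ}
    (hβ : ContDiffOn ℝ ((⊤ : ℕ∞) : WithTop ℕ∞) β D) (hr : ∀ x ∈ D, (dbar β x).im = 0)
    (h2 : MemLp (D.indicator β) 2 volume) :
    ∃ (u : ℂ → ℝ) (g : ℂ → ℂ), ContDiffOn ℝ ((⊤ : ℕ∞) : WithTop ℕ∞) u D ∧ (∀ x ∉ D, u x = 0) ∧
      DifferentiableOn ℂ g D ∧ (∀ x ∈ D, gr u x = β x - g x) ∧ IsW D u (D.indicator (gr u)) ∧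
      ∀ φ : ℂ → ℝ, IsTe D φ → ∫ x in D, (conj (β x - gr u x) * gr φ x).re = 0 := by
  classical
  have hDm := hD.measurableSet
  obtain ⟨v, γ, hW, hproj⟩ := exists_proj hb h2
  have hβl : LocallyIntegrable (D.indicator β) volume := h2.locallyIntegrable (by norm_num)
  have hγl : LocallyIntegrable γ volume := hW.mγ.locallyIntegrable (by norm_num)
  have hαl : LocallyIntegrable (fun x => D.indicator β x - γ x) volume := hβl.sub hγl
  -- curl of `γ`
  have c1 : ∀ φ : ℂ → ℝ, IsTe D φ → ∫ x, (conj (γ x) * gr φ x).im = 0 := fun φ hφ =>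
    WD.curl hW.wd (hφ.mono (subset_univ D))
  -- curl of `β`
  have c2 : ∀ φ : ℂ → ℝ, IsTe D φ → ∫ x, (conj (D.indicator β x) * gr φ x).im = 0 := by
    intro φ hφ
    have hφc : IsTe D (fun x => ((φ x : ℝ) : ℂ)) := gb3_ofReal hφ
    have hg := green hD (hβ.of_le (by simp)) hφc
    have hi : Integrable fun x => D.indicator β x * dbar (fun x => ((φ x : ℝ) : ℂ)) x :=
      gb3_int (hβl.locallyIntegrableOn D) (gb3_dbar hφc)
    have e1 : (fun x => β x * dbar (fun x => ((φ x : ℝ) : ℂ)) x) =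
        fun x => D.indicator β x * dbar (fun x => ((φ x : ℝ) : ℂ)) x := by
      funext x
      by_cases hx : x ∈ D
      · rw [indicator_of_mem hx]
      · rw [gb3_out (gb3_dbar hφc) hx, mul_zero, mul_zero]
    have e2 : (∫ x, dbar β x * ((φ x : ℝ) : ℂ)).im = 0 := by
      by_cases hint : Integrable fun x => dbar β x * ((φ x : ℝ) : ℂ)
      · have := integral_im hint
        simp only [RCLike.im_to_complex] at this
        rw [← this, integral_eq_zero_of_ae]
        refine Eventually.of_forall fun x => ?_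
        show (dbar β x * ((φ x : ℝ) : ℂ)).im = 0
        rw [Complex.im_mul_ofReal]
        by_cases hx : x ∈ D
        · rw [hr x hx, zero_mul]
        · rw [gb3_out hφ hx, mul_zero]
      · rw [integral_undef hint, Complex.zero_im]
    rw [e1] at hg
    have e3 : (∫ x, D.indicator β x * dbar (fun x => ((φ x : ℝ) : ℂ)) x).im = 0 := by
      rw [hg, Complex.neg_im, e2, neg_zero]
    have e4 := integral_im hi
    simp only [RCLike.im_to_complex] at e4
    rw [← e4] at e3
    have e5 : ∫ x, (conj (D.indicator β x) * gr φ x).im =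
        (-2) * ∫ x, (D.indicator β x * dbar (fun x => ((φ x : ℝ) : ℂ)) x).im := by
      rw [← integral_const_mul]
      refine integral_congr_ae (Eventually.of_forall fun x => ?_)
      show (conj (D.indicator β x) * gr φ x).im =
        -2 * (D.indicator β x * dbar (fun x => ((φ x : ℝ) : ℂ)) x).im
      rw [dbar_ofReal (gb3_diff hφ x)]
      have e6 : conj (D.indicator β x) * gr φ x =
          ((2 : ℝ) : ℂ) * conj (D.indicator β x * (conj (gr φ x) / 2)) := by
        rw [map_mul, map_div₀, Complex.conj_conj, Complex.conj_ofNat]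
        push_cast
        ring
      rw [e6, Complex.im_ofReal_mul, Complex.conj_im]
      ring
    rw [e5, e3, mul_zero]
  have hcj : ∀ φ : ℂ → ℝ, IsTe D φ →
      ∫ x, (conj (D.indicator β x - γ x) * gr φ x).im = 0 := by
    intro φ hφ
    have i1 : Integrable fun x => conj (D.indicator β x) * gr φ x :=
      gb3_int (gb3_conj (hβl.locallyIntegrableOn D)) hφ.gr
    have i2 : Integrable fun x => conj (γ x) * gr φ x :=
      gb3_int (gb3_conj (hγl.locallyIntegrableOn D)) hφ.gr
    have e : (fun x => (conj (D.indicator β x - γ x) * gr φ x).im) = fun x =>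
        (conj (D.indicator β x) * gr φ x).im - (conj (γ x) * gr φ x).im := by
      funext x
      rw [map_sub, sub_mul, Complex.sub_im]
    have j1 : Integrable fun x => (conj (D.indicator β x) * gr φ x).im := i1.im
    have j2 : Integrable fun x => (conj (γ x) * gr φ x).im := i2.im
    rw [e, integral_sub j1 j2, c2 φ hφ, c1 φ hφ, sub_zero]
  obtain ⟨g, hg, hag⟩ := WD.weyl hD (WD.of_div_curl (hαl.locallyIntegrableOn D) hproj hcj)
  -- regularity of `v`
  have hgs : ContDiffOn ℝ ((⊤ : ℕ∞) : WithTop ℕ∞) g D := (hg.contDiffOn hD).restrict_scalars ℝ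
  have hfs : ContDiffOn ℝ ((⊤ : ℕ∞) : WithTop ℕ∞) (fun x => conj (β x - g x) / 2) D := by
    have h1 : ContDiffOn ℝ ((⊤ : ℕ∞) : WithTop ℕ∞) (fun x => conj (β x - g x)) D :=
      (Complex.conjCLE : ℂ →L[ℝ] ℂ).contDiff.comp_contDiffOn (hβ.sub hgs)
    exact h1.div_const 2
  have hff : (fun x => conj (γ x) / 2) =ᵐ[volume.restrict D] fun x => conj (β x - g x) / 2 := by
    filter_upwards [hag, ae_restrict_mem hDm] with x hx hxD
    rw [indicator_of_mem hxD] at hx
    rw [← hx]
    simp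
  have hWD : WD D (fun x => ((v x : ℝ) : ℂ)) (fun x => conj (γ x) / 2) := by
    have h3 := hW.wd
    exact ⟨h3.iu.mono_set (subset_univ D), h3.iF.mono_set (subset_univ D), fun ψ hψ =>
      h3.eq ψ (hψ.mono (subset_univ D))⟩
  obtain ⟨u₀, hu₀, hvu, hdb⟩ := WD.reg hD hWD hfs hff
  have hreal : EqOn u₀ (fun x => (((u₀ x).re : ℝ) : ℂ)) D := by
    refine Measure.eqOn_open_of_ae_eq (μ := volume) ?_ hD hu₀.continuousOn
      (Complex.continuous_ofReal.comp_continuousOn
        (Complex.continuous_re.comp_continuousOn hu₀.continuousOn))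
    filter_upwards [hvu] with x hx
    rw [← hx, Complex.ofReal_re]
  let u : ℂ → ℝ := D.indicator fun x => (u₀ x).re
  have huD : ∀ x ∈ D, u x = (u₀ x).re := fun x hx => indicator_of_mem hx _
  have hus : ContDiffOn ℝ ((⊤ : ℕ∞) : WithTop ℕ∞) u D :=
    (Complex.reCLM.contDiff.comp_contDiffOn hu₀).congr huD
  have hgr : ∀ x ∈ D, gr u x = β x - g x := by
    intro x hx
    have hux : DifferentiableAt ℝ u x :=
      (hus.contDiffAt (hD.mem_nhds hx)).differentiableAt (by simp)
    have h3 := dbar_ofReal hux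
    have h4 : (fun x => ((u x : ℝ) : ℂ)) =ᶠ[𝓝 x] u₀ := by
      filter_upwards [hD.mem_nhds hx] with y hy
      rw [huD y hy]
      exact (hreal hy).symm
    have h5 : dbar (fun x => ((u x : ℝ) : ℂ)) x = dbar u₀ x := by
      rw [dbar, dbar, h4.fderiv_eq]
    rw [h5, hdb x hx] at h3
    have h6 : conj (gr u x) = conj (β x - g x) := by
      have := congrArg (fun z => 2 * z) h3
      simp only [mul_div_cancel₀ _ (two_ne_zero' ℂ)] at this
      exact this.symm
    exact (starRingEnd ℂ).injective h6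
  have hz := hW.zero hDm
  have ev : v =ᵐ[volume] u := by
    have h3 := (ae_restrict_iff' hDm).1 hvu
    have h4 := (ae_restrict_iff' hDm.compl).1 hz.1
    filter_upwards [h3, h4] with x h5 h6
    by_cases hx : x ∈ D
    · rw [huD x hx, ← h5 hx, Complex.ofReal_re]
    · rw [h6 hx]
      exact (indicator_of_notMem hx _).symm
  have eγ : γ =ᵐ[volume] D.indicator (gr u) := by
    have h3 := (ae_restrict_iff' hDm).1 hag
    have h4 := (ae_restrict_iff' hDm.compl).1 hz.2
    filter_upwards [h3, h4] with x h5 h6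
    by_cases hx : x ∈ D
    · have h7 := h5 hx
      rw [indicator_of_mem hx] at h7
      rw [indicator_of_mem hx, hgr x hx, ← h7]
      ring
    · rw [h6 hx, indicator_of_notMem hx]
  refine ⟨u, g, hus, fun x hx => indicator_of_notMem hx _, hg, hgr, hW.congr ev eγ, fun φ hφ => ?_⟩
  rw [← hproj φ hφ, setIntegral_eq_integral_of_forall_compl_eq_zero]
  · refine integral_congr_ae ?_
    filter_upwards [eγ] with x hx
    by_cases hxD : x ∈ D
    · rw [hx, indicator_of_mem hxD, indicator_of_mem hxD]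
    · rw [gb3_out hφ.gr hxD, mul_zero, mul_zero]
  · intro x hx
    rw [gb3_out hφ.gr hx, mul_zero, Complex.zero_re]

end Pool.Agent.Lib.MP_79abb3_an.PD
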