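import Pool.Agent.Lib.MP_79abb3_an.PD.GB1b

/-!
Theorem D, block G, part B2: the class `H¹₀(D)`, projection.
-/

set_option autoImplicit false
set_option linter.unusedSectionVars false

open MeasureTheory Set Filter Topology Function
open scoped ENNReal ComplexConjugate

namespace Pool.Agent.Lib.MP_79abb3_an.PD

/-- Hölder inequality for the exponents `2`, `2`. -/
private theorem gb2_holder {E F : Type*} [NormedAddCommGroup E] [NormedAddCommGroup F] {f : ℂ → E}
    {g : ℂ → F} (hf : AEStronglyMeasurable f volume) (hg : AEStronglyMeasurable g volume) :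
    ∫⁻ x, ‖f x‖ₑ * ‖g x‖ₑ ≤ eLpNorm f 2 volume * eLpNorm g 2 volume := by
  have h := ENNReal.lintegral_mul_le_Lp_mul_Lq (volume : Measure ℂ) Real.HolderConjugate.two_two
    hf.enorm hg.enorm
  rw [eLpNorm_eq_lintegral_rpow_enorm_toReal (by norm_num) (by norm_num),
    eLpNorm_eq_lintegral_rpow_enorm_toReal (by norm_num) (by norm_num)]
  simpa using h

private theorem gb2_small {a C : ℝ≥0∞} (hC : C ≠ ∞) (h : ∀ ε : ℝ≥0∞, 0 < ε → a ≤ C * ε) :
    a = 0 := by
  by_contra h0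
  have h1 : 0 < a := pos_iff_ne_zero.2 h0
  by_cases ha : a = ∞
  · have h2 := h 1 one_pos
    rw [mul_one, ha, top_le_iff] at h2
    exact hC h2
  · have h3 : 0 < a / (2 * (C + 1)) := by
      refine ENNReal.div_pos h0 ?_
      exact ENNReal.mul_ne_top (by norm_num) (ENNReal.add_ne_top.2 ⟨hC, by norm_num⟩)
    have h4 := h _ h3
    have h5 : C * (a / (2 * (C + 1))) ≤ a / 2 := by
      rw [← mul_div_assoc]
      refine ENNReal.div_le_of_le_mul ?_
      have h6 : a / 2 * (2 * (C + 1)) = a * (C + 1) := by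
        rw [← mul_assoc, ENNReal.div_mul_cancel (by norm_num) (by norm_num)]
      rw [h6, mul_comm C a]
      exact mul_le_mul_right le_self_add _
    exact absurd (h4.trans h5) (not_le.2 (ENNReal.half_lt_self h0 ha))

private theorem gb2_diff {D : Set ℂ} {φ : ℂ → ℝ} (h : IsTe D φ) : Differentiable ℝ φ :=
  h.smooth.differentiable (by simp)

private theorem gb2_out {E : Type} [NormedAddCommGroup E] [NormedSpace ℝ E] {D : Set ℂ} {φ : ℂ → E}
    (h : IsTe D φ) {x : ℂ} (hx : x ∉ D) : φ x = 0 := by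
  by_contra h0
  exact hx (h.supp (subset_tsupport _ h0))

/-- **Projection.** `K` = closure in the real Hilbert space `Lp ℂ 2 volume` of the subspace of the classes of `gr φ`,
`φ` a test function of `D` (`gr_add`, `gr_smul`), `γ` = orthogonal projection of `β` on `K`. `γ` is the limit of
`gr φ_n`; by `poinc0` (`D ⊆ ball 0 R`) the `φ_n` are Cauchy in `L²`, `u` = their limit. The real inner product
is `∫ Re (conj a · b)`. -/
theorem exists_proj {D : Set ℂ} (hD : Bornology.IsBounded D) {β : ℂ → ℂ} (hβ : MemLp β 2 volume) :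
    ∃ (u : ℂ → ℝ) (γ : ℂ → ℂ), IsW D u γ ∧
      ∀ φ : ℂ → ℝ, IsTe D φ → ∫ x, (conj (β x - γ x) * gr φ x).re = 0 := by
  obtain ⟨R, hR⟩ := hD.subset_ball 0
  obtain ⟨C, hC, hP⟩ := poinc0 R
  -- the subspace of gradients
  let S : Submodule ℝ (Lp ℂ 2 (volume : Measure ℂ)) :=
    { carrier := {f | ∃ φ : ℂ → ℝ, IsTe D φ ∧ (f : ℂ → ℂ) =ᵐ[volume] gr φ}
      add_mem' := by
        rintro f g ⟨φ, a1, a2⟩ ⟨ψ, b1, b2⟩
        refine ⟨fun x => φ x + ψ x, a1.add b1, ?_⟩
        filter_upwards [a2, b2, Lp.coeFn_add f g] with x h1 h2 h3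
        rw [h3, gr_add (gb2_diff a1 x) (gb2_diff b1 x), ← h1, ← h2]
        rfl
      zero_mem' := by
        refine ⟨fun _ => 0, ⟨contDiff_const, HasCompactSupport.zero, ?_⟩, ?_⟩
        · have : tsupport (fun _ : ℂ => (0 : ℝ)) = ∅ := tsupport_zero
          rw [this]
          exact empty_subset _
        · filter_upwards [Lp.coeFn_zero ℂ 2 (volume : Measure ℂ)] with x hx
          rw [hx]
          unfold gr
          simp
          rfl
      smul_mem' := by
        rintro c f ⟨φ, a1, a2⟩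
        refine ⟨fun x => c * φ x, a1.smul c, ?_⟩
        filter_upwards [a2, Lp.coeFn_smul c f] with x h1 h2
        rw [h2, gr_smul (gb2_diff a1 x), ← h1]
        simp }
  obtain ⟨v, hv, w, hw, hb⟩ := S.topologicalClosure.exists_add_mem_mem_orthogonal (hβ.toLp β)
  have hv' : v ∈ closure (S : Set (Lp ℂ 2 (volume : Measure ℂ))) := hv
  obtain ⟨f, hfS, hfv⟩ := mem_closure_iff_seq_limit.1 hv'
  choose φ hφ hfφ using hfS
  -- the potentials converge
  let p : ℕ → Lp ℝ 2 (volume : Measure ℂ) := fun n => ((hφ n).memLp 2).toLp (φ n)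
  have hdist : ∀ m n, edist (p m) (p n) ≤ C * edist (f m) (f n) := by
    intro m n
    have h1 : edist (p m) (p n) = eLpNorm (fun x => φ m x - φ n x) 2 volume := by
      show edist (((hφ m).memLp 2).toLp (φ m)) (((hφ n).memLp 2).toLp (φ n)) = _
      rw [Lp.edist_toLp_toLp]
      rfl
    have h2 : edist (f m) (f n) = eLpNorm (gr fun x => φ m x - φ n x) 2 volume := by
      rw [Lp.edist_def]
      refine eLpNorm_congr_ae ?_
      filter_upwards [hfφ m, hfφ n] with x h3 h4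
      rw [gr_sub (gb2_diff (hφ m) x) (gb2_diff (hφ n) x), ← h3, ← h4]
      rfl
    rw [h1, h2]
    exact hP _ (((hφ m).sub (hφ n)).mono hR)
  have hcf : CauchySeq f := hfv.cauchySeq
  have hcp : CauchySeq p := by
    rw [EMetric.cauchySeq_iff] at hcf ⊢
    intro ε hε
    have hpos : 0 < ε / (C + 1) := ENNReal.div_pos hε.ne' (ENNReal.add_ne_top.2 ⟨hC, by norm_num⟩)
    obtain ⟨N, hN⟩ := hcf _ hpos
    refine ⟨N, fun m hm n hn => ?_⟩
    have h1 := hN m hm n hn
    have h0 : C + 1 ≠ 0 := by simp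
    have h3 : C + 1 ≠ ∞ := ENNReal.add_ne_top.2 ⟨hC, by norm_num⟩
    calc edist (p m) (p n) ≤ C * edist (f m) (f n) := hdist m n
      _ ≤ (C + 1) * edist (f m) (f n) := mul_le_mul_left le_self_add _
      _ < (C + 1) * (ε / (C + 1)) := ENNReal.mul_lt_mul_right h0 h3 h1
      _ = ε := ENNReal.mul_div_cancel h0 h3
  obtain ⟨u, hu⟩ := cauchySeq_tendsto_of_complete hcp
  refine ⟨u, v, ⟨Lp.memLp u, Lp.memLp v, fun ε hε => ?_⟩, fun ψ hψ => ?_⟩
  · have t1 : ∀ᶠ n in atTop, edist (p n) u < ε := by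
      have := EMetric.tendsto_nhds.1 hu ε hε
      exact this
    have t2 : ∀ᶠ n in atTop, edist (f n) v < ε := by
      have := EMetric.tendsto_nhds.1 hfv ε hε
      exact this
    obtain ⟨n, hn1, hn2⟩ := (t1.and t2).exists
    refine ⟨φ n, hφ n, ?_, ?_⟩
    · rw [edist_comm, Lp.edist_def] at hn1
      refine le_trans (le_of_eq (eLpNorm_congr_ae ?_)) hn1.le
      filter_upwards [((hφ n).memLp 2).coeFn_toLp] with x hx
      show u x - φ n x = u x - (p n) x
      rw [← hx]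
    · rw [edist_comm, Lp.edist_def] at hn2
      refine le_trans (le_of_eq (eLpNorm_congr_ae ?_)) hn2.le
      filter_upwards [hfφ n] with x hx
      show v x - gr (φ n) x = v x - (f n) x
      rw [← hx]
  · have hgm : MemLp (gr ψ) 2 volume := hψ.gr.memLp 2
    have hmem : hgm.toLp (gr ψ) ∈ S.topologicalClosure :=
      S.le_topologicalClosure ⟨ψ, hψ, hgm.coeFn_toLp⟩
    have h1 := (Submodule.mem_orthogonal' _ _).1 hw _ hmem
    rw [L2.inner_def] at h1
    rw [← h1]
    refine integral_congr_ae ?_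
    have hwe : (w : ℂ → ℂ) =ᵐ[volume] fun x => β x - v x := by
      have : w = hβ.toLp β - v := by rw [hb]; abel
      rw [this]
      filter_upwards [Lp.coeFn_sub (hβ.toLp β) v, hβ.coeFn_toLp] with x h2 h3
      rw [h2, Pi.sub_apply, h3]
    filter_upwards [hwe, hgm.coeFn_toLp] with x h2 h3
    rw [h2, h3, Complex.inner, mul_comm]

theorem IsW.of_test {D : Set ℂ} {φ : ℂ → ℝ} (h : IsTe D φ) : IsW D φ (gr φ) := by
  refine ⟨h.memLp 2, h.gr.memLp 2, fun ε hε => ⟨φ, h, ?_, ?_⟩⟩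
  · simp
  · simp

theorem IsW.add {D : Set ℂ} {u v : ℂ → ℝ} {γ δ : ℂ → ℂ} (h1 : IsW D u γ) (h2 : IsW D v δ) :
    IsW D (fun x => u x + v x) (fun x => γ x + δ x) := by
  refine ⟨h1.mu.add h2.mu, h1.mγ.add h2.mγ, fun ε hε => ?_⟩
  obtain ⟨φ, a1, a2, a3⟩ := h1.ap (ε / 2) (ENNReal.half_pos hε.ne')
  obtain ⟨ψ, b1, b2, b3⟩ := h2.ap (ε / 2) (ENNReal.half_pos hε.ne')
  refine ⟨fun x => φ x + ψ x, a1.add b1, ?_, ?_⟩
  · have e : (fun x => u x + v x - (φ x + ψ x)) = (fun x => u x - φ x) + fun x => v x - ψ x := by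
      funext x
      simp only [Pi.add_apply]
      ring
    rw [e]
    refine (eLpNorm_add_le ((h1.mu.sub (a1.memLp 2)).1) ((h2.mu.sub (b1.memLp 2)).1)
      (by norm_num)).trans ?_
    exact (add_le_add a2 b2).trans (ENNReal.add_halves ε).le
  · have e : (fun x => γ x + δ x - gr (fun x => φ x + ψ x) x) =
        (fun x => γ x - gr φ x) + fun x => δ x - gr ψ x := by
      funext x
      rw [gr_add (gb2_diff a1 x) (gb2_diff b1 x)]
      simp only [Pi.add_apply]
      ring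
    rw [e]
    refine (eLpNorm_add_le ((h1.mγ.sub (a1.gr.memLp 2)).1) ((h2.mγ.sub (b1.gr.memLp 2)).1)
      (by norm_num)).trans ?_
    exact (add_le_add a3 b3).trans (ENNReal.add_halves ε).le

theorem IsW.smul {D : Set ℂ} {u : ℂ → ℝ} {γ : ℂ → ℂ} (h1 : IsW D u γ) (c : ℝ) :
    IsW D (fun x => c * u x) (fun x => c * γ x) := by
  refine ⟨h1.mu.const_mul c, h1.mγ.const_mul (c : ℂ), fun ε hε => ?_⟩
  have hpos : 0 < ε / (‖c‖ₑ + 1) := ENNReal.div_pos hε.ne' (by simp)
  have hle : ‖c‖ₑ * (ε / (‖c‖ₑ + 1)) ≤ ε := by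
    rw [← mul_div_assoc]
    refine ENNReal.div_le_of_le_mul ?_
    rw [mul_comm]
    exact mul_le_mul_right le_self_add _
  obtain ⟨φ, a1, a2, a3⟩ := h1.ap _ hpos
  refine ⟨fun x => c * φ x, ?_, ?_, ?_⟩
  · exact a1.smul c
  · have e : (fun x => c * u x - c * φ x) = c • fun x => u x - φ x := by
      funext x
      simp only [Pi.smul_apply, smul_eq_mul]
      ring
    rw [e, eLpNorm_const_smul]
    exact (mul_le_mul_right a2 _).trans hle
  · have e : (fun x => c * γ x - gr (fun x => c * φ x) x) = (c : ℂ) • fun x => γ x - gr φ x := by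
      funext x
      rw [gr_smul (gb2_diff a1 x)]
      simp only [Pi.smul_apply, smul_eq_mul]
      ring
    have e2 : ‖(c : ℂ)‖ₑ = ‖c‖ₑ := by
      rw [← ofReal_norm, ← ofReal_norm, Complex.norm_real]
    rw [e, eLpNorm_const_smul, e2]
    exact (mul_le_mul_right a3 _).trans hle

theorem IsW.congr {D : Set ℂ} {u v : ℂ → ℝ} {γ δ : ℂ → ℂ} (h1 : IsW D u γ) (h2 : u =ᵐ[volume] v)
    (h3 : γ =ᵐ[volume] δ) : IsW D v δ := by
  refine ⟨h1.mu.ae_eq h2, h1.mγ.ae_eq h3, fun ε hε => ?_⟩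
  obtain ⟨φ, a1, a2, a3⟩ := h1.ap ε hε
  refine ⟨φ, a1, ?_, ?_⟩
  · refine (eLpNorm_congr_ae ?_).trans_le a2
    filter_upwards [h2] with x hx
    rw [hx]
  · refine (eLpNorm_congr_ae ?_).trans_le a3
    filter_upwards [h3] with x hx
    rw [hx]

/-- `u = 0`, `γ = 0` a.e. outside `D`: the approximating functions vanish there. -/
theorem IsW.zero {D : Set ℂ} (hD : MeasurableSet D) {u : ℂ → ℝ} {γ : ℂ → ℂ} (h1 : IsW D u γ) :
    (∀ᵐ x ∂(volume.restrict Dᶜ), u x = 0) ∧ ∀ᵐ x ∂(volume.restrict Dᶜ), γ x = 0 := by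
  constructor
  · have h0 : eLpNorm u 2 (volume.restrict Dᶜ) = 0 := by
      refine gb2_small (C := 1) (by norm_num) fun ε hε => ?_
      obtain ⟨φ, a1, a2, -⟩ := h1.ap ε hε
      rw [one_mul]
      have e : eLpNorm u 2 (volume.restrict Dᶜ) =
          eLpNorm (fun x => u x - φ x) 2 (volume.restrict Dᶜ) := by
        refine eLpNorm_congr_ae ?_
        filter_upwards [ae_restrict_mem hD.compl] with x hx
        rw [gb2_out a1 hx, sub_zero]
      rw [e]
      exact (eLpNorm_mono_measure _ Measure.restrict_le_self).trans a2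
    exact (eLpNorm_eq_zero_iff (h1.mu.1.mono_measure Measure.restrict_le_self)
      (by norm_num)).1 h0
  · have h0 : eLpNorm γ 2 (volume.restrict Dᶜ) = 0 := by
      refine gb2_small (C := 1) (by norm_num) fun ε hε => ?_
      obtain ⟨φ, a1, -, a2⟩ := h1.ap ε hε
      rw [one_mul]
      have e : eLpNorm γ 2 (volume.restrict Dᶜ) =
          eLpNorm (fun x => γ x - gr φ x) 2 (volume.restrict Dᶜ) := by
        refine eLpNorm_congr_ae ?_
        filter_upwards [ae_restrict_mem hD.compl] with x hx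
        rw [gb2_out a1.gr hx, sub_zero]
      rw [e]
      exact (eLpNorm_mono_measure _ Measure.restrict_le_self).trans a2
    exact (eLpNorm_eq_zero_iff (h1.mγ.1.mono_measure Measure.restrict_le_self)
      (by norm_num)).1 h0

/-- Limits in pairings: a continuous linear identity for test functions extends to `H¹₀(D)`. -/
theorem IsW.pair {D : Set ℂ} {u : ℂ → ℝ} {γ : ℂ → ℂ} (h1 : IsW D u γ) {β : ℂ → ℂ} {m : ℂ → ℝ}
    (hβ : MemLp β 2 volume) (hm : MemLp m 2 volume)
    (h : ∀ φ : ℂ → ℝ, IsTe D φ → ∫ x, (conj (β x) * gr φ x).re = ∫ x, m x * φ x) :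
    ∫ x, (conj (β x) * γ x).re = ∫ x, m x * u x := by
  have i1 : ∀ {δ : ℂ → ℂ}, MemLp δ 2 volume → Integrable fun x => (conj (β x) * δ x).re := by
    intro δ hδ
    have : Integrable fun x => conj (β x) * δ x := by
      have hc : MemLp (fun x => conj (β x)) 2 volume := hβ.star
      exact hc.integrable_mul hδ
    exact this.re
  have i2 : ∀ {δ : ℂ → ℝ}, MemLp δ 2 volume → Integrable fun x => m x * δ x :=
    fun hδ => hm.integrable_mul hδ
  have key : ‖(∫ x, (conj (β x) * γ x).re) - ∫ x, m x * u x‖ₑ = 0 := by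
    refine gb2_small (C := eLpNorm β 2 volume + eLpNorm m 2 volume)
      (ENNReal.add_ne_top.2 ⟨hβ.2.ne, hm.2.ne⟩) fun ε hε => ?_
    obtain ⟨φ, a1, a2, a3⟩ := h1.ap ε hε
    have m1 : MemLp (fun x => γ x - gr φ x) 2 volume := h1.mγ.sub (a1.gr.memLp 2)
    have m2 : MemLp (fun x => u x - φ x) 2 volume := h1.mu.sub (a1.memLp 2)
    have e : (∫ x, (conj (β x) * γ x).re) - ∫ x, m x * u x =
        (∫ x, (conj (β x) * (γ x - gr φ x)).re) - ∫ x, m x * (u x - φ x) := by
      have e1 : ∫ x, (conj (β x) * (γ x - gr φ x)).re =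
          (∫ x, (conj (β x) * γ x).re) - ∫ x, (conj (β x) * gr φ x).re := by
        rw [← integral_sub (i1 h1.mγ) (i1 (a1.gr.memLp 2))]
        congr 1
        funext x
        rw [mul_sub, Complex.sub_re]
      have e2 : ∫ x, m x * (u x - φ x) = (∫ x, m x * u x) - ∫ x, m x * φ x := by
        rw [← integral_sub (i2 h1.mu) (i2 (a1.memLp 2))]
        congr 1
        funext x
        rw [mul_sub]
      rw [e1, e2, h φ a1]
      ring
    rw [e]
    refine (enorm_sub_le).trans ?_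
    rw [add_mul]
    refine add_le_add ?_ ?_
    · refine (enorm_integral_le_lintegral_enorm _).trans ?_
      refine (lintegral_mono (g := fun x => ‖β x‖ₑ * ‖γ x - gr φ x‖ₑ) fun x => ?_).trans
        ((gb2_holder hβ.1 m1.1).trans (mul_le_mul_right a3 _))
      show ‖(conj (β x) * (γ x - gr φ x)).re‖ₑ ≤ ‖β x‖ₑ * ‖γ x - gr φ x‖ₑ
      rw [← enorm_mul, ← ofReal_norm, ← ofReal_norm]
      refine ENNReal.ofReal_le_ofReal ?_
      rw [Real.norm_eq_abs]
      refine (Complex.abs_re_le_norm _).trans ?_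
      rw [norm_mul, norm_mul, RCLike.norm_conj]
    · refine (enorm_integral_le_lintegral_enorm _).trans ?_
      refine (lintegral_mono (g := fun x => ‖m x‖ₑ * ‖u x - φ x‖ₑ) fun x => ?_).trans
        ((gb2_holder hm.1 m2.1).trans (mul_le_mul_right a2 _))
      exact (enorm_mul _ _).le
  rw [enorm_eq_zero, sub_eq_zero] at key
  exact key

/-- The weak equation `∂u/∂ζ̄ = conj γ / 2` in the whole plane: `green` for the approximating functions
(`dbar_ofReal`), Cauchy-Schwarz. -/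
theorem IsW.wd {D : Set ℂ} {u : ℂ → ℝ} {γ : ℂ → ℂ} (h1 : IsW D u γ) :
    WD univ (fun x => ((u x : ℝ) : ℂ)) (fun x => conj (γ x) / 2) := by
  have hu : MemLp (fun x => ((u x : ℝ) : ℂ)) 2 volume := h1.mu.ofReal
  have hγ : ∀ {δ : ℂ → ℂ}, MemLp δ 2 volume → MemLp (fun x => conj (δ x) / 2) 2 volume := by
    intro δ hδ
    have hc : MemLp (fun x => conj (δ x)) 2 volume := hδ.star
    have hc2 := hc.const_mul (2 : ℂ)⁻¹
    refine hc2.ae_eq (Eventually.of_forall fun x => ?_)
    show (2 : ℂ)⁻¹ * conj (δ x) = conj (δ x) / 2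
    rw [div_eq_mul_inv, mul_comm]
  refine ⟨(hu.locallyIntegrable (by norm_num)).locallyIntegrableOn _,
    ((hγ h1.mγ).locallyIntegrable (by norm_num)).locallyIntegrableOn _, fun ψ hψ => ?_⟩
  have hd : MemLp (dbar ψ) 2 volume := by
    have hψd : Differentiable ℝ ψ := hψ.smooth.differentiable (by simp)
    have e : dbar ψ = fun x => conj (gr (fun x => (ψ x).re) x) / 2 +
        Complex.I * (conj (gr (fun x => (ψ x).im) x) / 2) := by
      funext x
      rw [dbar_reim (hψd x)]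
      ring
    rw [e]
    exact (hγ (hψ.re.gr.memLp 2)).add ((hγ (hψ.im.gr.memLp 2)).const_mul Complex.I)
  have hψ2 : MemLp ψ 2 volume := hψ.memLp 2
  have key : ‖(∫ x, ((u x : ℝ) : ℂ) * dbar ψ x) + ∫ x, conj (γ x) / 2 * ψ x‖ₑ = 0 := by
    refine gb2_small (C := eLpNorm (dbar ψ) 2 volume + eLpNorm ψ 2 volume)
      (ENNReal.add_ne_top.2 ⟨hd.2.ne, hψ2.2.ne⟩) fun ε hε => ?_
    obtain ⟨φ, a1, a2, a3⟩ := h1.ap ε hε
    have m1 : MemLp (fun x => γ x - gr φ x) 2 volume := h1.mγ.sub (a1.gr.memLp 2)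
    have m2 : MemLp (fun x => u x - φ x) 2 volume := h1.mu.sub (a1.memLp 2)
    have hφ : MemLp (fun x => ((φ x : ℝ) : ℂ)) 2 volume := (a1.memLp 2).ofReal
    have g1 : ∫ x, ((φ x : ℝ) : ℂ) * dbar ψ x = -∫ x, conj (gr φ x) / 2 * ψ x := by
      have hs : ContDiff ℝ 1 (fun x => ((φ x : ℝ) : ℂ)) :=
        Complex.ofRealCLM.contDiff.comp (a1.smooth.of_le (by simp))
      rw [green isOpen_univ hs.contDiffOn hψ]
      congr 1
      refine integral_congr_ae (Eventually.of_forall fun x => ?_)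
      simp only
      rw [dbar_ofReal (gb2_diff a1 x)]
    have j1 : ∀ {δ : ℂ → ℂ}, MemLp δ 2 volume → Integrable fun x => δ x * dbar ψ x :=
      fun hδ => hδ.integrable_mul hd
    have j2 : ∀ {δ : ℂ → ℂ}, MemLp δ 2 volume → Integrable fun x => conj (δ x) / 2 * ψ x :=
      fun hδ => (hγ hδ).integrable_mul hψ2
    have e : (∫ x, ((u x : ℝ) : ℂ) * dbar ψ x) + ∫ x, conj (γ x) / 2 * ψ x =
        (∫ x, ((u x - φ x : ℝ) : ℂ) * dbar ψ x) + ∫ x, conj (γ x - gr φ x) / 2 * ψ x := by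
      have e1 : ∫ x, ((u x - φ x : ℝ) : ℂ) * dbar ψ x =
          (∫ x, ((u x : ℝ) : ℂ) * dbar ψ x) - ∫ x, ((φ x : ℝ) : ℂ) * dbar ψ x := by
        rw [← integral_sub (j1 hu) (j1 hφ)]
        congr 1
        funext x
        push_cast
        ring
      have e2 : ∫ x, conj (γ x - gr φ x) / 2 * ψ x =
          (∫ x, conj (γ x) / 2 * ψ x) - ∫ x, conj (gr φ x) / 2 * ψ x := by
        rw [← integral_sub (j2 h1.mγ) (j2 (a1.gr.memLp 2))]
        congr 1
        funext x
        rw [map_sub]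
        ring
      rw [e1, e2, g1]
      ring
    rw [e]
    refine (enorm_add_le _ _).trans ?_
    rw [add_mul]
    refine add_le_add ?_ ?_
    · refine (enorm_integral_le_lintegral_enorm _).trans ?_
      refine (lintegral_mono (g := fun x => ‖dbar ψ x‖ₑ * ‖u x - φ x‖ₑ) fun x => ?_).trans
        ((gb2_holder hd.1 m2.1).trans (mul_le_mul_right a2 _))
      rw [enorm_mul, mul_comm, ← ofReal_norm (((u x - φ x : ℝ) : ℂ)), Complex.norm_real,
        ofReal_norm]
    · refine (enorm_integral_le_lintegral_enorm _).trans ?_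
      refine (lintegral_mono (g := fun x => ‖ψ x‖ₑ * ‖γ x - gr φ x‖ₑ) fun x => ?_).trans
        ((gb2_holder hψ2.1 m1.1).trans (mul_le_mul_right a3 _))
      rw [enorm_mul, mul_comm]
      refine mul_le_mul_right ?_ _
      rw [← ofReal_norm, ← ofReal_norm]
      refine ENNReal.ofReal_le_ofReal ?_
      rw [norm_div, RCLike.norm_conj, Complex.norm_ofNat]
      linarith [norm_nonneg (γ x - gr φ x)]
  rw [enorm_eq_zero, add_eq_zero_iff_eq_neg] at key
  exact key

/-- If the gradient part is zero, the function is zero (`poinc0`). -/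
theorem IsW.eq_zero {D : Set ℂ} (hD : Bornology.IsBounded D) {u : ℂ → ℝ} {γ : ℂ → ℂ} (h1 : IsW D u γ)
    (h0 : γ =ᵐ[volume] 0) : u =ᵐ[volume] 0 := by
  obtain ⟨R, hR⟩ := hD.subset_ball 0
  obtain ⟨C, hC, hP⟩ := poinc0 R
  rw [← eLpNorm_eq_zero_iff h1.mu.1 (by norm_num : (2 : ℝ≥0∞) ≠ 0)]
  refine gb2_small (C := 1 + C) (ENNReal.add_ne_top.2 ⟨by norm_num, hC⟩) fun ε hε => ?_
  obtain ⟨φ, a1, a2, a3⟩ := h1.ap ε hε
  have b1 : eLpNorm (gr φ) 2 volume ≤ ε := by
    refine le_trans (le_of_eq ?_) a3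
    rw [← eLpNorm_neg]
    refine eLpNorm_congr_ae ?_
    filter_upwards [h0] with x hx
    rw [hx]
    simp
  have b2 := hP φ (a1.mono hR)
  have e : u = (fun x => u x - φ x) + φ := by
    funext x
    simp
  calc eLpNorm u 2 volume = eLpNorm ((fun x => u x - φ x) + φ) 2 volume := by rw [← e]
    _ ≤ eLpNorm (fun x => u x - φ x) 2 volume + eLpNorm φ 2 volume :=
        eLpNorm_add_le (h1.mu.sub (a1.memLp 2)).1 (a1.memLp 2).1 (by norm_num)
    _ ≤ ε + C * ε := add_le_add a2 (b2.trans (mul_le_mul_right b1 _))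
    _ = (1 + C) * ε := by rw [add_mul, one_mul]

end Pool.Agent.Lib.MP_79abb3_an.PD
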