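import Pool.Agent.Lib.MP_79abb3_an.PD.GD2
import Pool.Agent.Lib.MP_79abb3_an.PD.GB2

/-!
Theorem D, block G, part D2b: the weak gradient of the reflected function.
-/

set_option autoImplicit false
set_option linter.unusedSectionVars false

open MeasureTheory Set Filter Topology Function
open scoped ENNReal ComplexConjugate

namespace Pool.Agent.Lib.MP_79abb3_an.PD

open Pool.Agent.Lib.MP_79abb3_an.SC

private theorem gd2b_sq {E : Type*} [NormedAddCommGroup E] {μ : Measure ℂ} (f : ℂ → E) :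
    eLpNorm f 2 μ ^ 2 = ∫⁻ x, ‖f x‖ₑ ^ 2 ∂μ := by
  have h1 := eLpNorm_nnreal_pow_eq_lintegral (f := f) (μ := μ) (p := 2) two_ne_zero
  have h2 : ((2 : NNReal) : ℝ≥0∞) = 2 := rfl
  have h3 : ((2 : NNReal) : ℝ) = 2 := rfl
  rw [h2, h3] at h1
  rw [← ENNReal.rpow_natCast]
  calc eLpNorm f 2 μ ^ ((2 : ℕ) : ℝ) = eLpNorm f 2 μ ^ (2 : ℝ) := by norm_num
    _ = ∫⁻ x, ‖f x‖ₑ ^ (2 : ℝ) ∂μ := h1
    _ = _ := lintegral_congr fun x => by exact_mod_cast ENNReal.rpow_natCast (‖f x‖ₑ) 2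

private theorem gd2b_le {E E' : Type*} [NormedAddCommGroup E] [NormedAddCommGroup E'] {K D : Set ℂ}
    {C : ℝ≥0∞} {f : ℂ → E} {g : ℂ → E'} (h : ∫⁻ x in K, ‖f x‖ₑ ^ 2 ≤ C * ∫⁻ x in D, ‖g x‖ₑ ^ 2) :
    eLpNorm f 2 (volume.restrict K) ≤ (C + 1) * eLpNorm g 2 volume := by
  rw [← gd2b_sq, ← gd2b_sq] at h
  have h1 : eLpNorm f 2 (volume.restrict K) ^ 2 ≤ ((C + 1) * eLpNorm g 2 volume) ^ 2 := by
    refine h.trans ?_
    rw [mul_pow]
    refine mul_le_mul' ?_ (pow_le_pow_left' (eLpNorm_mono_measure g Measure.restrict_le_self) 2)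
    calc C ≤ C + 1 := le_self_add
      _ = (C + 1) * 1 := (mul_one _).symm
      _ ≤ (C + 1) * (C + 1) := mul_le_mul' le_rfl le_add_self
      _ = (C + 1) ^ 2 := (sq _).symm
  exact le_of_not_gt fun h' => absurd h1 (not_le.2 (ENNReal.pow_right_strictMono two_ne_zero h'))

private theorem gd2b_holder {μ : Measure ℂ} {f g : ℂ → ℂ} (hf : AEStronglyMeasurable f μ)
    (hg : AEStronglyMeasurable g μ) :
    ∫⁻ x, ‖f x * g x‖ₑ ∂μ ≤ eLpNorm f 2 μ * eLpNorm g 2 μ := by
  have h := ENNReal.lintegral_mul_le_Lp_mul_Lq μ Real.HolderConjugate.two_two hf.enorm hg.enorm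
  rw [eLpNorm_eq_lintegral_rpow_enorm_toReal (by norm_num) (by norm_num),
    eLpNorm_eq_lintegral_rpow_enorm_toReal (by norm_num) (by norm_num)]
  simp only [enorm_mul]
  simpa using h

private theorem gd2b_small {a C : ℝ≥0∞} (hC : C ≠ ∞) (h : ∀ ε : ℝ≥0∞, 0 < ε → a ≤ C * ε) :
    a = 0 := by
  by_contra h0
  have h1 : 0 < a := pos_iff_ne_zero.2 h0
  by_cases ha : a = ∞
  · have h2 := h 1 one_pos
    rw [mul_one, ha, top_le_iff] at h2
    exact hC h2
  · have h3 : 0 < a / (2 * (C + 1)) := by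
      refine ENNReal.div_pos h0 ?_
      exact ENNReal.mul_ne_top (by norm_num) (ENNReal.add_ne_top.2 ⟨hC, by norm_num⟩)
    have h4 := h _ h3
    have h5 : C * (a / (2 * (C + 1))) ≤ a / 2 := by
      rw [← mul_div_assoc]
      refine ENNReal.div_le_of_le_mul ?_
      have h6 : a / 2 * (2 * (C + 1)) = a * (C + 1) := by
        rw [← mul_assoc, ENNReal.div_mul_cancel (by norm_num) (by norm_num)]
      rw [h6, mul_comm C a]
      exact mul_le_mul_right le_self_add _
    exact absurd (h4.trans h5) (not_le.2 (ENNReal.half_lt_self h0 ha))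

private theorem gd2b_cinv : Measurable cinv := by
  have : cinv = fun ξ => (conj ξ)⁻¹ := rfl
  rw [this]
  exact (Complex.continuous_conj.measurable).inv

private theorem gd2b_ball : MeasurableSet {ξ : ℂ | ‖ξ‖ < 1} :=
  (isOpen_lt continuous_norm continuous_const).measurableSet

private theorem gd2b_m0 {F : ℂ → ℂ} (hF : Continuous F) {v : ℂ → ℝ} (hv : Measurable v) :
    Measurable (rfl0 F v) := by
  classical
  have : rfl0 F v = fun ξ => if ‖ξ‖ < 1 then v (F ξ) else -v (F (cinv ξ)) := by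
    funext ξ
    unfold rfl0
    split_ifs <;> rfl
  rw [this]
  exact Measurable.ite gd2b_ball (hv.comp hF.measurable)
    (hv.comp (hF.measurable.comp gd2b_cinv)).neg

private theorem gd2b_m1 {F : ℂ → ℂ} (hF : Continuous F) (hF' : Continuous fun ξ => fderiv ℝ F ξ 1)
    {v : ℂ → ℂ} (hv : Measurable v) : Measurable (rfl1 F v) := by
  classical
  have : rfl1 F v = fun ξ => if ‖ξ‖ < 1 then v (F ξ) * fderiv ℝ F ξ 1
    else conj (v (F (cinv ξ)) * fderiv ℝ F (cinv ξ) 1) / ξ ^ 2 := by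
    funext ξ
    unfold rfl1
    split_ifs <;> rfl
  rw [this]
  refine Measurable.ite gd2b_ball ((hv.comp hF.measurable).mul hF'.measurable) ?_
  refine Measurable.div ?_ (measurable_id.pow_const 2)
  exact Complex.continuous_conj.measurable.comp
    ((hv.comp (hF.measurable.comp gd2b_cinv)).mul (hF'.measurable.comp gd2b_cinv))

/-- Null sets pull back to null sets. -/
private theorem gd2b_ae {D : Set ℂ} {ρ : ℝ} (h0 : 0 < ρ) (h1 : ρ < 1) {F : ℂ → ℂ}
    (h : IsCollar D ρ F) {K : Set ℂ} (hK : IsCompact K) (hKr : K ⊆ dring ρ) {p : ℂ → Prop}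
    (hp : ∀ᵐ x : ℂ, p x) :
    ∀ᵐ ξ ∂(volume.restrict K), (‖ξ‖ < 1 → p (F ξ)) ∧ (¬ ‖ξ‖ < 1 → p (F (cinv ξ))) := by
  obtain ⟨N, hN1, hN2, hN3⟩ := exists_measurable_superset_of_null (ae_iff.1 hp)
  obtain ⟨C, hC, hb, -⟩ := h.bound h0 h1 hK hKr
  have h2 := hb (N.indicator fun _ => (1 : ℝ))
  have h3 : ∫⁻ x in D, ‖N.indicator (fun _ => (1 : ℝ)) x‖ₑ ^ 2 = 0 := by
    have h4 : ∀ᵐ x ∂(volume.restrict D), ‖N.indicator (fun _ => (1 : ℝ)) x‖ₑ ^ 2 = 0 := by
      refine ae_restrict_of_ae ?_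
      have h5 : ∀ᵐ x : ℂ, x ∉ N := measure_eq_zero_iff_ae_notMem.1 hN3
      filter_upwards [h5] with x hx
      rw [indicator_of_notMem hx, enorm_zero, zero_pow two_ne_zero]
    rw [lintegral_congr_ae h4]
    simp
  rw [h3, mul_zero, nonpos_iff_eq_zero] at h2
  have hm : Measurable fun ξ => ‖rfl0 F (N.indicator fun _ => (1 : ℝ)) ξ‖ₑ ^ 2 :=
    (gd2b_m0 h.smooth.continuous (measurable_const.indicator hN2)).enorm.pow_const 2
  rw [lintegral_eq_zero_iff hm] at h2
  filter_upwards [h2] with ξ hξ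
  have h6 : rfl0 F (N.indicator fun _ => (1 : ℝ)) ξ = 0 := by
    have := (pow_eq_zero_iff two_ne_zero).1 hξ
    exact enorm_eq_zero.1 this
  refine ⟨fun h7 => ?_, fun h7 => ?_⟩
  · by_contra hq
    have h8 : F ξ ∈ N := hN1 hq
    unfold rfl0 at h6
    rw [if_pos h7, indicator_of_mem h8] at h6
    exact one_ne_zero h6
  · by_contra hq
    have h8 : F (cinv ξ) ∈ N := hN1 hq
    unfold rfl0 at h6
    rw [if_neg h7, indicator_of_mem h8, neg_eq_zero] at h6
    exact one_ne_zero h6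

private theorem gd2b_fd {F : ℂ → ℂ} (hF : ContDiff ℝ ((⊤ : ℕ∞) : WithTop ℕ∞) F) :
    Continuous fun ξ => fderiv ℝ F ξ 1 :=
  (hF.continuous_fderiv (by simp)).clm_apply continuous_const

private theorem gd2b_ms0 {D : Set ℂ} {ρ : ℝ} (h0 : 0 < ρ) (h1 : ρ < 1) {F : ℂ → ℂ}
    (h : IsCollar D ρ F) {K : Set ℂ} (hK : IsCompact K) (hKr : K ⊆ dring ρ) {u : ℂ → ℝ}
    (hu : AEStronglyMeasurable u volume) :
    AEStronglyMeasurable (rfl0 F u) (volume.restrict K) := by
  obtain ⟨v, hv, huv⟩ := hu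
  refine ((gd2b_m0 h.smooth.continuous hv.measurable).aestronglyMeasurable).congr ?_
  filter_upwards [gd2b_ae h0 h1 h hK hKr huv] with ξ hξ
  unfold rfl0
  split_ifs with h2
  · exact (hξ.1 h2).symm
  · rw [hξ.2 h2]

private theorem gd2b_ms1 {D : Set ℂ} {ρ : ℝ} (h0 : 0 < ρ) (h1 : ρ < 1) {F : ℂ → ℂ}
    (h : IsCollar D ρ F) {K : Set ℂ} (hK : IsCompact K) (hKr : K ⊆ dring ρ) {u : ℂ → ℂ}
    (hu : AEStronglyMeasurable u volume) :
    AEStronglyMeasurable (rfl1 F u) (volume.restrict K) := by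
  obtain ⟨v, hv, huv⟩ := hu
  refine ((gd2b_m1 h.smooth.continuous (gd2b_fd h.smooth) hv.measurable).aestronglyMeasurable).congr ?_
  filter_upwards [gd2b_ae h0 h1 h hK hKr huv] with ξ hξ
  unfold rfl1
  split_ifs with h2
  · rw [hξ.1 h2]
  · rw [hξ.2 h2]

private theorem gd2b_sub0 (F : ℂ → ℂ) (u v : ℂ → ℝ) (ξ : ℂ) :
    rfl0 F (fun x => u x - v x) ξ = rfl0 F u ξ - rfl0 F v ξ := by
  unfold rfl0
  split_ifs <;> ring

private theorem gd2b_sub1 (F : ℂ → ℂ) (u v : ℂ → ℂ) (ξ : ℂ) :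
    rfl1 F (fun x => u x - v x) ξ = rfl1 F u ξ - rfl1 F v ξ := by
  unfold rfl1
  split_ifs
  · ring
  · rw [map_mul, map_mul, map_mul, map_sub]
    ring

/-- **Weak gradient** of the reflected function: limit of `rfl_test` (`IsW.ap`, `IsCollar.bound`, `green` on
`dring ρ` for the smooth approximations). Measurability of `rfl0 F u`: `u` agrees a.e. with a measurable function,
and null sets pull back to null sets under `F` on the ring (compare `SC.IsChart.ae_comp`, `aesm_comp` in SC/L2Gd). -/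
theorem rfl_wd {D : Set ℂ} (hD : IsOpen D) {ρ : ℝ} (h0 : 0 < ρ) (h1 : ρ < 1) {F : ℂ → ℂ}
    (h : IsCollar D ρ F) {u : ℂ → ℝ} {γ : ℂ → ℂ} (hw : IsW D u γ) :
    WD (dring ρ) (fun ξ => ((rfl0 F u ξ : ℝ) : ℂ)) (fun ξ => conj (rfl1 F γ ξ) / 2) := by
  have hop : IsOpen (dring ρ) :=
    (isOpen_lt continuous_const continuous_norm).inter (isOpen_lt continuous_norm continuous_const)
  -- square integrability on compact sets
  have hm0 : ∀ (w : ℂ → ℝ), MemLp w 2 volume → ∀ K, IsCompact K → K ⊆ dring ρ →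
      MemLp (fun ξ => ((rfl0 F w ξ : ℝ) : ℂ)) 2 (volume.restrict K) := by
    intro w hw K hK hKr
    obtain ⟨C, hC, hb, -⟩ := h.bound h0 h1 hK hKr
    refine ⟨Complex.continuous_ofReal.comp_aestronglyMeasurable (gd2b_ms0 h0 h1 h hK hKr hw.1), ?_⟩
    have h2 := gd2b_le (hb w)
    have h3 : eLpNorm (fun ξ => ((rfl0 F w ξ : ℝ) : ℂ)) 2 (volume.restrict K) =
        eLpNorm (rfl0 F w) 2 (volume.restrict K) :=
      eLpNorm_congr_norm_ae (Eventually.of_forall fun ξ => by simp)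
    rw [h3]
    exact h2.trans_lt (ENNReal.mul_lt_top (ENNReal.add_lt_top.2 ⟨hC.lt_top, ENNReal.one_lt_top⟩) hw.2)
  have hm1 : ∀ (w : ℂ → ℂ), MemLp w 2 volume → ∀ K, IsCompact K → K ⊆ dring ρ →
      MemLp (fun ξ => conj (rfl1 F w ξ) / 2) 2 (volume.restrict K) := by
    intro w hw K hK hKr
    obtain ⟨C, hC, -, hb⟩ := h.bound h0 h1 hK hKr
    have h4 : MemLp (rfl1 F w) 2 (volume.restrict K) :=
      ⟨gd2b_ms1 h0 h1 h hK hKr hw.1, (gd2b_le (hb w)).trans_lt
        (ENNReal.mul_lt_top (ENNReal.add_lt_top.2 ⟨hC.lt_top, ENNReal.one_lt_top⟩) hw.2)⟩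
    have h5 : MemLp (fun ξ => conj (rfl1 F w ξ)) 2 (volume.restrict K) := by
      refine MemLp.of_le h4 (Complex.continuous_conj.comp_aestronglyMeasurable h4.1)
        (Eventually.of_forall fun ξ => ?_)
      rw [RCLike.norm_conj]
    simp only [div_eq_mul_inv]
    exact h5.mul_const _
  refine ⟨?_, ?_, ?_⟩
  · rw [locallyIntegrableOn_iff hop.isLocallyClosed]
    intro K hKr hK
    have : IsFiniteMeasure (volume.restrict K) := ⟨by
      rw [Measure.restrict_apply_univ]; exact hK.measure_lt_top⟩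
    exact (hm0 u hw.mu K hK hKr).integrable one_le_two
  · rw [locallyIntegrableOn_iff hop.isLocallyClosed]
    intro K hKr hK
    have : IsFiniteMeasure (volume.restrict K) := ⟨by
      rw [Measure.restrict_apply_univ]; exact hK.measure_lt_top⟩
    exact (hm1 γ hw.mγ K hK hKr).integrable one_le_two
  · intro ψ hψ
    set K := tsupport ψ with hKdef
    have hK : IsCompact K := hψ.cpt
    have hKr : K ⊆ dring ρ := hψ.supp
    have hfin : IsFiniteMeasure (volume.restrict K) := ⟨by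
      rw [Measure.restrict_apply_univ]; exact hK.measure_lt_top⟩
    obtain ⟨C, hC, hb0, hb1⟩ := h.bound h0 h1 hK hKr
    -- the test function and its derivative
    have hdb : Continuous (dbar ψ) := by
      have h2 : Continuous (fderiv ℝ ψ) := hψ.smooth.continuous_fderiv (by simp)
      unfold dbar
      exact ((h2.clm_apply continuous_const).add
        (continuous_const.mul (h2.clm_apply continuous_const))).div_const 2
    have hdz : ∀ x, x ∉ K → dbar ψ x = 0 := by
      intro x hx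
      have h2 : fderiv ℝ ψ x = 0 :=
        image_eq_zero_of_notMem_tsupport fun h' => hx (tsupport_fderiv_subset ℝ h')
      unfold dbar
      rw [h2]
      simp
    have hpz : ∀ x, x ∉ K → ψ x = 0 := fun x hx => image_eq_zero_of_notMem_tsupport hx
    have hdc : HasCompactSupport (dbar ψ) := HasCompactSupport.intro hK hdz
    have hdm : MemLp (dbar ψ) 2 volume := hdb.memLp_of_hasCompactSupport hdc
    have hpm : MemLp ψ 2 volume := hψ.memLp 2
    have hrestr : ∀ f : ℂ → ℂ, (∀ x, x ∉ K → f x = 0) → ∫ x, f x = ∫ x in K, f x := fun f hf =>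
      (setIntegral_eq_integral_of_forall_compl_eq_zero hf).symm
    have hI0 : ∀ w : ℂ → ℝ, MemLp w 2 volume →
        Integrable (fun x => ((rfl0 F w x : ℝ) : ℂ) * dbar ψ x) (volume.restrict K) := fun w hw =>
      MemLp.integrable_mul (hm0 w hw K hK hKr) (hdm.restrict K)
    have hI1 : ∀ w : ℂ → ℂ, MemLp w 2 volume →
        Integrable (fun x => (conj (rfl1 F w x) / 2) * ψ x) (volume.restrict K) := fun w hw =>
      MemLp.integrable_mul (hm1 w hw K hK hKr) (hpm.restrict K)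
    set J : ℂ := (∫ x in K, ((rfl0 F u x : ℝ) : ℂ) * dbar ψ x) +
      ∫ x in K, (conj (rfl1 F γ x) / 2) * ψ x with hJ
    have key : ‖J‖ₑ = 0 := by
      refine gd2b_small (C := (C + 1) * (eLpNorm (dbar ψ) 2 volume + eLpNorm ψ 2 volume)) ?_ ?_
      · exact ENNReal.mul_ne_top (ENNReal.add_ne_top.2 ⟨hC, ENNReal.one_ne_top⟩)
          (ENNReal.add_ne_top.2 ⟨hdm.2.ne, hpm.2.ne⟩)
      intro ε hε
      obtain ⟨φ, hφ, h2, h3⟩ := hw.ap ε hε
      obtain ⟨h4, h5⟩ := rfl_test hD h0 h1 h hφ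
      -- the smooth identity
      have h6 : (∫ x in K, ((rfl0 F φ x : ℝ) : ℂ) * dbar ψ x) +
          ∫ x in K, (conj (rfl1 F (gr φ) x) / 2) * ψ x = 0 := by
        have h7 : ContDiffOn ℝ 1 (fun x => ((rfl0 F φ x : ℝ) : ℂ)) (dring ρ) :=
          Complex.ofRealCLM.contDiff.comp_contDiffOn (h4.of_le (by exact_mod_cast le_top))
        have h8 := green hop h7 hψ
        rw [hrestr _ (fun x hx => by rw [hdz x hx, mul_zero]),
          hrestr _ (fun x hx => by rw [hpz x hx, mul_zero])] at h8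
        rw [h8, neg_add_eq_zero]
        refine setIntegral_congr_fun (isClosed_tsupport ψ).measurableSet fun x hx => ?_
        have h9 : x ∈ dring ρ := hKr hx
        have h10 : DifferentiableAt ℝ (rfl0 F φ) x :=
          ((h4.differentiableOn (by simp)) x h9).differentiableAt (hop.mem_nhds h9)
        show dbar (fun x => ((rfl0 F φ x : ℝ) : ℂ)) x * ψ x = _
        rw [dbar_ofReal h10, h5 x h9]
      have h7 : MemLp (fun x => u x - φ x) 2 volume := hw.mu.sub (hφ.memLp 2)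
      have h8 : MemLp (fun x => γ x - gr φ x) 2 volume := hw.mγ.sub (hφ.gr.memLp 2)
      have h9 : J = (∫ x in K, ((rfl0 F (fun x => u x - φ x) x : ℝ) : ℂ) * dbar ψ x) +
          ∫ x in K, (conj (rfl1 F (fun x => γ x - gr φ x) x) / 2) * ψ x := by
        have e1 : (∫ x in K, ((rfl0 F (fun x => u x - φ x) x : ℝ) : ℂ) * dbar ψ x) =
            (∫ x in K, ((rfl0 F u x : ℝ) : ℂ) * dbar ψ x) -
              ∫ x in K, ((rfl0 F φ x : ℝ) : ℂ) * dbar ψ x := by
          rw [← integral_sub (hI0 u hw.mu) (hI0 φ (hφ.memLp 2))]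
          refine integral_congr_ae (Eventually.of_forall fun x => ?_)
          show ((rfl0 F (fun x => u x - φ x) x : ℝ) : ℂ) * dbar ψ x =
            ((rfl0 F u x : ℝ) : ℂ) * dbar ψ x - ((rfl0 F φ x : ℝ) : ℂ) * dbar ψ x
          rw [gd2b_sub0]
          push_cast
          ring
        have e2 : (∫ x in K, (conj (rfl1 F (fun x => γ x - gr φ x) x) / 2) * ψ x) =
            (∫ x in K, (conj (rfl1 F γ x) / 2) * ψ x) -
              ∫ x in K, (conj (rfl1 F (gr φ) x) / 2) * ψ x := by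
          rw [← integral_sub (hI1 γ hw.mγ) (hI1 (gr φ) (hφ.gr.memLp 2))]
          refine integral_congr_ae (Eventually.of_forall fun x => ?_)
          show (conj (rfl1 F (fun x => γ x - gr φ x) x) / 2) * ψ x =
            (conj (rfl1 F γ x) / 2) * ψ x - (conj (rfl1 F (gr φ) x) / 2) * ψ x
          rw [gd2b_sub1, map_sub]
          ring
        rw [e1, e2, hJ]
        linear_combination h6
      have h10 : ‖∫ x in K, ((rfl0 F (fun x => u x - φ x) x : ℝ) : ℂ) * dbar ψ x‖ₑ ≤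
          (C + 1) * ε * eLpNorm (dbar ψ) 2 volume := by
        refine (enorm_integral_le_lintegral_enorm _).trans ?_
        refine (gd2b_holder (hm0 _ h7 K hK hKr).1 (hdm.restrict K).1).trans ?_
        refine mul_le_mul' ?_ (eLpNorm_mono_measure _ Measure.restrict_le_self)
        have h3 : eLpNorm (fun ξ => ((rfl0 F (fun x => u x - φ x) ξ : ℝ) : ℂ)) 2 (volume.restrict K) =
            eLpNorm (rfl0 F (fun x => u x - φ x)) 2 (volume.restrict K) :=
          eLpNorm_congr_norm_ae (Eventually.of_forall fun ξ => by simp)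
        rw [h3]
        exact (gd2b_le (hb0 _)).trans (mul_le_mul' le_rfl h2)
      have h11 : ‖∫ x in K, (conj (rfl1 F (fun x => γ x - gr φ x) x) / 2) * ψ x‖ₑ ≤
          (C + 1) * ε * eLpNorm ψ 2 volume := by
        refine (enorm_integral_le_lintegral_enorm _).trans ?_
        refine (gd2b_holder (hm1 _ h8 K hK hKr).1 (hpm.restrict K).1).trans ?_
        refine mul_le_mul' ?_ (eLpNorm_mono_measure _ Measure.restrict_le_self)
        refine le_trans ?_ ((gd2b_le (hb1 (fun x => γ x - gr φ x))).trans (mul_le_mul' le_rfl h3))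
        refine eLpNorm_mono fun ξ => ?_
        rw [norm_div, RCLike.norm_conj]
        have : ‖(2 : ℂ)‖ = 2 := by simp
        rw [this]
        linarith [norm_nonneg (rfl1 F (fun x => γ x - gr φ x) ξ)]
      rw [h9]
      refine (enorm_add_le _ _).trans ((add_le_add h10 h11).trans (le_of_eq ?_))
      ring
    have hJ0 : J = 0 := enorm_eq_zero.1 key
    rw [hrestr _ (fun x hx => by rw [hdz x hx, mul_zero]),
      hrestr _ (fun x hx => by rw [hpz x hx, mul_zero])]
    exact eq_neg_of_add_eq_zero_left hJ0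

end Pool.Agent.Lib.MP_79abb3_an.PD
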