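import Pool.Agent.Lib.MP_79abb3_an.PD.GD3
import Pool.Agent.Lib.MP_79abb3_an.PD.GD2b
import Pool.Agent.Lib.MP_79abb3_an.PD.GB3

/-!
Theorem D, block G, part D4: reflection of harmonic functions of class `H¹₀` in the collars.
-/

set_option autoImplicit false
set_option linter.unusedSectionVars false

open MeasureTheory Set Filter Topology Function
open scoped ENNReal ComplexConjugate

namespace Pool.Agent.Lib.MP_79abb3_an.PD

open Pool.Agent.Lib.MP_79abb3_an.SC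

private theorem gd4_open (ρ : ℝ) : IsOpen (dring ρ) :=
  (isOpen_lt continuous_const continuous_norm).inter (isOpen_lt continuous_norm continuous_const)

private theorem gd4_openO (ρ : ℝ) : IsOpen (dring ρ \ Metric.sphere 0 1) :=
  (gd4_open ρ).sdiff Metric.isClosed_sphere

private theorem gd4_ae : ∀ᵐ x : ℂ ∂volume, x ∉ Metric.sphere (0 : ℂ) 1 := by
  have h : volume (Metric.sphere (0 : ℂ) 1) = 0 := Measure.addHaar_sphere _ _ _
  exact measure_eq_zero_iff_ae_notMem.1 h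

/-- continuous functions which agree off the circle agree -/
private theorem gd4_dense {E : Type*} [TopologicalSpace E] [T2Space E] {ρ : ℝ} {f g : ℂ → E}
    (hf : ContinuousOn f (dring ρ)) (hg : ContinuousOn g (dring ρ))
    (h : ∀ ξ ∈ dring ρ \ Metric.sphere 0 1, f ξ = g ξ) : EqOn f g (dring ρ) := by
  refine Measure.eqOn_open_of_ae_eq (μ := volume) ?_ (gd4_open ρ) hf hg
  rw [Filter.EventuallyEq, ae_restrict_iff' (gd4_open ρ).measurableSet]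
  filter_upwards [gd4_ae] with x hx hxA
  exact h x ⟨hxA, hx⟩

private theorem gd4_cinv_mem {ρ : ℝ} (h0 : 0 < ρ) {ξ : ℂ} (h : ξ ∈ dring ρ) : cinv ξ ∈ dring ρ := by
  have hp : 0 < ‖ξ‖ := h0.trans h.1
  refine ⟨?_, ?_⟩
  · rw [norm_cinv]
    exact (lt_inv_comm₀ h0 hp).2 h.2
  · rw [norm_cinv]
    exact (inv_lt_inv₀ hp h0).2 h.1

private theorem gd4_ne {ρ : ℝ} (h0 : 0 < ρ) {ξ : ℂ} (h : ξ ∈ dring ρ) : ξ ≠ 0 := by
  rintro rfl
  have := h.1
  rw [norm_zero] at this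
  linarith

private theorem gd4_ring {ρ : ℝ} (h1 : ρ < 1) (h0 : 0 < ρ) {ξ : ℂ} (h : ξ ∈ ring ρ) :
    ξ ∈ dring ρ \ Metric.sphere 0 1 := by
  refine ⟨⟨h.1, h.2.trans (one_lt_inv₀ h0 |>.2 h1)⟩, ?_⟩
  rw [mem_sphere_zero_iff_norm]
  exact h.2.ne

private theorem gd4_ring' {ρ : ℝ} (h0 : 0 < ρ) {ξ : ℂ} (h : ξ ∈ dring ρ \ Metric.sphere 0 1)
    (h' : ¬ ‖ξ‖ < 1) : cinv ξ ∈ ring ρ := by
  have h2 : ‖ξ‖ ≠ 1 := by
    have := h.2
    rwa [mem_sphere_zero_iff_norm] at this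
  have h3 : 1 < ‖ξ‖ := lt_of_le_of_ne (not_lt.1 h') (Ne.symm h2)
  refine ⟨(gd4_cinv_mem h0 h.1).1, ?_⟩
  rw [norm_cinv]
  exact inv_lt_one_of_one_lt₀ h3

private theorem gd4_rfl1 {D : Set ℂ} {ρ : ℝ} (h0 : 0 < ρ) {F : ℂ → ℂ}
    (h : IsCollar D ρ F) (γ : ℂ → ℂ) {ξ : ℂ} (hξ : ξ ∈ dring ρ \ Metric.sphere 0 1) :
    rfl1 F (D.indicator γ) ξ = rfl1 F γ ξ := by
  unfold rfl1
  split_ifs with h2
  · rw [indicator_of_mem (h.sub ⟨ξ, ⟨hξ.1.1, h2⟩, rfl⟩)]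
  · rw [indicator_of_mem (h.sub ⟨cinv ξ, gd4_ring' h0 hξ h2, rfl⟩)]

private theorem gd4_loc {A : Set ℂ} {α : ℂ → ℂ} (h : LocallyIntegrableOn (fun x => conj (α x) / 2) A) :
    LocallyIntegrableOn α A := by
  intro x hx
  obtain ⟨s, hs, hi⟩ := h x hx
  refine ⟨s, hs, ?_⟩
  have h1 := (((2 : ℝ) • (Complex.conjCLE : ℂ →L[ℝ] ℂ))).integrable_comp hi
  refine h1.congr (Filter.Eventually.of_forall fun y => ?_)
  simp only [FunLike.coe_smul, Pi.smul_apply, ContinuousLinearEquiv.coe_coe,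
    Complex.conjCLE_apply, map_div₀, Complex.conj_conj]
  rw [Complex.real_smul]
  have : conj (2 : ℂ) = 2 := Complex.conj_ofReal 2
  rw [this]
  push_cast
  ring

/-- **Reflection.** `rfl1 F (gr u)` is weakly holomorphic (`rfl_wd`, `WD.curl`, `rfl_div`, `WD.of_div_curl`), so it is
a.e. a holomorphic `g` (`WD.weyl`), and `rfl0 F u` has a smooth representative `U₀` (`WD.reg`), which is equal to
`rfl0 F u` off the circle (both continuous there, `rfl_smooth`). `U` = `Re U₀`. The odd symmetry extends by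
continuity to the circle (`rfl0 F u (cinv ξ) = -rfl0 F u ξ` for `|ξ| ≠ 1`, `cinv_cinv`), `gr U = g`. -/
theorem reflect {D : Set ℂ} (hD : IsOpen D) {ρ : ℝ} (h0 : 0 < ρ) (h1 : ρ < 1) {F : ℂ → ℂ}
    (h : IsCollar D ρ F) {u : ℂ → ℝ} (hs : ContDiffOn ℝ ((⊤ : ℕ∞) : WithTop ℕ∞) u D)
    (hw : IsW D u (D.indicator (gr u))) (hh : DifferentiableOn ℂ (gr u) (F '' ring ρ)) :
    ∃ U : ℂ → ℝ, ContDiffOn ℝ ((⊤ : ℕ∞) : WithTop ℕ∞) U (dring ρ) ∧ (∀ ξ ∈ ring ρ, U ξ = u (F ξ)) ∧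
      (∀ ξ ∈ dring ρ, U (cinv ξ) = -U ξ) ∧ DifferentiableOn ℂ (gr U) (dring ρ) := by
  set α : ℂ → ℂ := rfl1 F (D.indicator (gr u)) with hα
  have hA := gd4_open ρ
  have wd1 : WD (dring ρ) (fun ξ => ((rfl0 F u ξ : ℝ) : ℂ)) (fun ξ => conj (α ξ) / 2) :=
    rfl_wd hD h0 h1 h hw
  have hdiv : ∀ φ : ℂ → ℝ, IsTe (dring ρ) φ → ∫ x, (conj (α x) * gr φ x).re = 0 := by
    intro φ hφ
    rw [← rfl_div hD h0 h1 h hw.mγ hh hφ]
    rw [← setIntegral_eq_integral_of_forall_compl_eq_zero (s := dring ρ)]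
    · refine setIntegral_congr_ae hA.measurableSet ?_
      filter_upwards [gd4_ae] with x hx hxA
      rw [hα, gd4_rfl1 h0 h (gr u) ⟨hxA, hx⟩]
    · intro x hx
      have h3 : gr φ x = 0 := image_eq_zero_of_notMem_tsupport fun h' => hx (hφ.gr.supp h')
      rw [h3, mul_zero, Complex.zero_re]
  have wd2 : WD (dring ρ) α 0 := WD.of_div_curl (gd4_loc wd1.iF) hdiv fun φ hφ => wd1.curl hφ
  obtain ⟨g, hg, hag⟩ := wd2.weyl hA
  have hgs : ContDiffOn ℝ ((⊤ : ℕ∞) : WithTop ℕ∞) g (dring ρ) :=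
    (hg.contDiffOn hA).restrict_scalars ℝ
  have hf0 : ContDiffOn ℝ ((⊤ : ℕ∞) : WithTop ℕ∞) (fun x => conj (g x) / 2) (dring ρ) :=
    (Complex.conjCLE.contDiff.comp_contDiffOn hgs).div_const 2
  obtain ⟨U₀, hU, hae, hdb⟩ := wd1.reg hA hf0 (by
    filter_upwards [hag] with x hx
    rw [hx])
  have hO := gd4_openO ρ
  have hsm := (rfl_smooth hD h0 h1 h hs).1
  have heq : EqOn (fun ξ => ((rfl0 F u ξ : ℝ) : ℂ)) U₀ (dring ρ \ Metric.sphere 0 1) :=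
    Measure.eqOn_open_of_ae_eq (μ := volume) (ae_restrict_of_ae_restrict_of_subset sdiff_subset hae) hO
      (Complex.continuous_ofReal.comp_continuousOn hsm.continuousOn) (hU.continuousOn.mono sdiff_subset)
  have hre : EqOn (fun ξ => (((U₀ ξ).re : ℝ) : ℂ)) U₀ (dring ρ) := by
    refine gd4_dense (Complex.continuous_ofReal.comp_continuousOn
      (Complex.continuous_re.comp_continuousOn hU.continuousOn)) hU.continuousOn fun ξ hξ => ?_
    have h3 := heq hξ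
    simp only at h3
    rw [← h3, Complex.ofReal_re]
  have hUr : ∀ ξ ∈ dring ρ \ Metric.sphere 0 1, (U₀ ξ).re = rfl0 F u ξ := fun ξ hξ => by
    have h3 := heq hξ
    simp only at h3
    rw [← h3, Complex.ofReal_re]
  have hUs : ContDiffOn ℝ ((⊤ : ℕ∞) : WithTop ℕ∞) (fun ξ => (U₀ ξ).re) (dring ρ) :=
    Complex.reCLM.contDiff.comp_contDiffOn hU
  refine ⟨fun ξ => (U₀ ξ).re, hUs, fun ξ hξ => ?_, ?_, ?_⟩
  · show (U₀ ξ).re = u (F ξ)
    rw [hUr ξ (gd4_ring h1 h0 hξ), rfl0, if_pos hξ.2]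
  · have hc : ContinuousOn cinv (dring ρ) := fun ξ hξ =>
      (cinv_contDiffAt (gd4_ne h0 hξ)).continuousAt.continuousWithinAt
    refine gd4_dense (hUs.continuousOn.comp hc fun ξ hξ => gd4_cinv_mem h0 hξ)
      hUs.continuousOn.neg fun ξ hξ => ?_
    show (U₀ (cinv ξ)).re = -(U₀ ξ).re
    have hξ' : cinv ξ ∈ dring ρ \ Metric.sphere 0 1 := by
      refine ⟨gd4_cinv_mem h0 hξ.1, fun h3 => hξ.2 ?_⟩
      rw [mem_sphere_zero_iff_norm, norm_cinv, inv_eq_one] at h3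
      rwa [mem_sphere_zero_iff_norm]
    rw [hUr _ hξ, hUr _ hξ']
    by_cases h3 : ‖ξ‖ < 1
    · have h4 : ¬ ‖cinv ξ‖ < 1 := by
        rw [norm_cinv, not_lt]
        exact (one_lt_inv₀ (h0.trans hξ.1.1) |>.2 h3).le
      rw [rfl0, if_neg h4, rfl0, if_pos h3, cinv_cinv]
    · rw [rfl0, if_pos (gd4_ring' h0 hξ h3).2, rfl0, if_neg h3, neg_neg]
  · refine hg.congr fun ξ hξ => ?_
    have h3 : DifferentiableAt ℝ (fun ξ => (U₀ ξ).re) ξ :=
      ((hUs ξ hξ).contDiffAt (hA.mem_nhds hξ)).differentiableAt (by simp)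
    have h4 : dbar (fun ξ => (((U₀ ξ).re : ℝ) : ℂ)) ξ = dbar U₀ ξ := by
      have h5 : (fun ξ => (((U₀ ξ).re : ℝ) : ℂ)) =ᶠ[𝓝 ξ] U₀ :=
        Filter.eventuallyEq_of_mem (hA.mem_nhds hξ) hre
      rw [dbar, dbar, h5.fderiv_eq]
    rw [dbar_ofReal h3, hdb ξ hξ] at h4
    have h5 : conj (gr (fun ξ => (U₀ ξ).re) ξ) = conj (g ξ) := by
      have h6 : (2 : ℂ) ≠ 0 := two_ne_zero
      field_simp at h4
      exact h4
    exact (starRingEnd ℂ).injective h5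

/-- `u ∘ F` is small near the circle. (`reflect` on a smaller ring; `U = 0` on the circle, uniform continuity.) -/
theorem small_near {D : Set ℂ} (hD : IsOpen D) {ρ : ℝ} (h0 : 0 < ρ) (h1 : ρ < 1) {F : ℂ → ℂ}
    (h : IsCollar D ρ F) {u : ℂ → ℝ} (hs : ContDiffOn ℝ ((⊤ : ℕ∞) : WithTop ℕ∞) u D)
    (hw : IsW D u (D.indicator (gr u))) (hh : DifferentiableOn ℂ (gr u) (F '' ring ρ)) {ε : ℝ}
    (hε : 0 < ε) : ∃ r, ρ < r ∧ r < 1 ∧ ∀ ξ ∈ ring r, |u (F ξ)| < ε := by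
  obtain ⟨U, hU, hUF, hodd, -⟩ := reflect hD h0 h1 h hs hw hh
  have hc : ContinuousOn (fun ξ => |U ξ|) (dring ρ) := hU.continuousOn.abs
  have hV : IsOpen (dring ρ ∩ (fun ξ => |U ξ|) ⁻¹' Iio ε) := hc.isOpen_inter_preimage (gd4_open ρ) isOpen_Iio
  have hsub : Metric.sphere (0 : ℂ) 1 ⊆ dring ρ ∩ (fun ξ => |U ξ|) ⁻¹' Iio ε := by
    intro ξ hξ
    rw [mem_sphere_zero_iff_norm] at hξ
    have hm : ξ ∈ dring ρ := by
      refine ⟨by rw [hξ]; exact h1, ?_⟩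
      rw [hξ]
      exact one_lt_inv₀ h0 |>.2 h1
    refine ⟨hm, ?_⟩
    have h2 : cinv ξ = ξ := by
      have h3 : ξ * conj ξ = 1 := by
        rw [Complex.mul_conj, Complex.normSq_eq_norm_sq, hξ]
        simp
      rw [cinv]
      exact inv_eq_of_mul_eq_one_left h3
    have h3 := hodd ξ hm
    rw [h2] at h3
    have h4 : U ξ = 0 := by linarith
    show |U ξ| < ε
    rw [h4, abs_zero]
    exact hε
  obtain ⟨δ, hδ, ht⟩ := (isCompact_sphere (0 : ℂ) 1).exists_thickening_subset_open hV hsub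
  refine ⟨max ((ρ + 1) / 2) (1 - δ), lt_max_of_lt_left (by linarith), max_lt (by linarith) (by linarith),
    fun ξ hξ => ?_⟩
  have h2 : (ρ + 1) / 2 < ‖ξ‖ := (le_max_left _ _).trans_lt hξ.1
  have h3 : 1 - δ < ‖ξ‖ := (le_max_right _ _).trans_lt hξ.1
  have hp : 0 < ‖ξ‖ := by linarith
  have hring : ξ ∈ ring ρ := ⟨by linarith, hξ.2⟩
  rw [← hUF ξ hring]
  refine (ht ?_).2
  rw [Metric.mem_thickening_iff]
  refine ⟨((‖ξ‖⁻¹ : ℝ) : ℂ) * ξ, ?_, ?_⟩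
  · rw [mem_sphere_zero_iff_norm, norm_mul, Complex.norm_real, norm_inv, norm_norm,
      inv_mul_cancel₀ hp.ne']
  · rw [dist_eq_norm]
    have h4 : ξ - ((‖ξ‖⁻¹ : ℝ) : ℂ) * ξ = ((1 - ‖ξ‖⁻¹ : ℝ) : ℂ) * ξ := by
      push_cast
      ring
    rw [h4, norm_mul, Complex.norm_real, Real.norm_eq_abs, abs_of_neg, neg_sub, sub_mul,
      inv_mul_cancel₀ hp.ne', one_mul]
    · linarith
    · have : 1 < ‖ξ‖⁻¹ := one_lt_inv₀ hp |>.2 hξ.2
      linarith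

end Pool.Agent.Lib.MP_79abb3_an.PD
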