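import Pool.Agent.Lib.MP_79abb3_an.PD.GDef
import Pool.Agent.Lib.MP_79abb3_an.SC.L2Ge

/-!
Theorem D, block G: definitions for the reflection in the circle (`cinv ξ = (conj ξ)⁻¹`, see SC/L2Ge).
-/

set_option autoImplicit false

open MeasureTheory Set Filter Topology Function
open scoped ENNReal ComplexConjugate

namespace Pool.Agent.Lib.MP_79abb3_an.PD

open Pool.Agent.Lib.MP_79abb3_an.SC

/-- The doubled ring. -/
def dring (ρ : ℝ) : Set ℂ := {ξ | ρ < ‖ξ‖ ∧ ‖ξ‖ < ρ⁻¹}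

/-- Odd reflection of `u ∘ F`. -/
noncomputable def rfl0 (F : ℂ → ℂ) (u : ℂ → ℝ) (ξ : ℂ) : ℝ :=
  open Classical in if ‖ξ‖ < 1 then u (F ξ) else -u (F (cinv ξ))

/-- The corresponding gradient (`gr (u ∘ F) = (gr u ∘ F) · F'` where `F` is holomorphic). -/
noncomputable def rfl1 (F : ℂ → ℂ) (γ : ℂ → ℂ) (ξ : ℂ) : ℂ :=
  open Classical in if ‖ξ‖ < 1 then γ (F ξ) * fderiv ℝ F ξ 1
    else conj (γ (F (cinv ξ)) * fderiv ℝ F (cinv ξ) 1) / ξ ^ 2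

end Pool.Agent.Lib.MP_79abb3_an.PD
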