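import Pool.Agent.Lib.MP_79abb3_an.PD.GB1
import Pool.Agent.Lib.MP_79abb3_an.PD.GDef2

/-!
Theorem D, block G, part E1: the minimum principle.
-/

set_option autoImplicit false
set_option linter.unusedSectionVars false

open MeasureTheory Set Filter Topology Function
open scoped ENNReal ComplexConjugate

namespace Pool.Agent.Lib.MP_79abb3_an.PD

open Pool.Agent.Lib.MP_79abb3_an.SC

private theorem ge1_one : ((⊤ : ℕ∞) : WithTop ℕ∞) ≠ 0 := by simp

private theorem ge1_le : ((⊤ : ℕ∞) : WithTop ℕ∞) + 1 ≤ ((⊤ : ℕ∞) : WithTop ℕ∞) := by norm_cast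

private theorem ge1_gr_eq (u : ℂ → ℝ) : gr u = fun x =>
    Complex.ofRealCLM (fderiv ℝ u x 1) - Complex.I * Complex.ofRealCLM (fderiv ℝ u x Complex.I) := by
  funext x
  unfold gr
  apply Complex.ext
  · simp
  · simp

private theorem ge1_smooth {D : Set ℂ} (hD : IsOpen D) {u : ℂ → ℝ}
    (hu : ContDiffOn ℝ ((⊤ : ℕ∞) : WithTop ℕ∞) u D) (e : ℂ) :
    ContDiffOn ℝ ((⊤ : ℕ∞) : WithTop ℕ∞) (fun y => fderiv ℝ u y e) D :=
  (hu.fderiv_of_isOpen hD ge1_le).clm_apply contDiffOn_const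

private theorem ge1_diff {E : Type*} [NormedAddCommGroup E] [NormedSpace ℝ E] {D : Set ℂ}
    (hD : IsOpen D) {u : ℂ → E} (hu : ContDiffOn ℝ ((⊤ : ℕ∞) : WithTop ℕ∞) u D) {x : ℂ}
    (hx : x ∈ D) : DifferentiableAt ℝ u x :=
  (hu.differentiableOn ge1_one).differentiableAt (hD.mem_nhds hx)

/-- The real part of `dbar (gr u)` is half the Laplacian. -/
private theorem ge1_re {D : Set ℂ} (hD : IsOpen D) {u : ℂ → ℝ}
    (hu : ContDiffOn ℝ ((⊤ : ℕ∞) : WithTop ℕ∞) u D) {x : ℂ} (hx : x ∈ D) :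
    (dbar (gr u) x).re = (fderiv ℝ (fun y => fderiv ℝ u y 1) x 1 +
      fderiv ℝ (fun y => fderiv ℝ u y Complex.I) x Complex.I) / 2 := by
  have h1 := ge1_diff hD (ge1_smooth hD hu 1) hx
  have h2 := ge1_diff hD (ge1_smooth hD hu Complex.I) hx
  have h3 : HasFDerivAt (gr u) (Complex.ofRealCLM.comp (fderiv ℝ (fun y => fderiv ℝ u y 1) x) -
      Complex.I • Complex.ofRealCLM.comp (fderiv ℝ (fun y => fderiv ℝ u y Complex.I) x)) x := by
    rw [ge1_gr_eq]
    exact (Complex.ofRealCLM.hasFDerivAt.comp x h1.hasFDerivAt).sub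
      ((Complex.ofRealCLM.hasFDerivAt.comp x h2.hasFDerivAt).const_mul Complex.I)
  unfold dbar
  rw [h3.fderiv]
  simp

/-- The second derivative test in one variable. -/
private theorem ge1_test {g : ℝ → ℝ} {t : ℝ} (hm : IsLocalMin g t) (hc : ContinuousAt g t) :
    0 ≤ deriv (deriv g) t := by
  by_contra h
  push Not at h
  have h1 := isLocalMax_of_deriv_deriv_neg h hm.deriv_eq_zero hc
  have h2 : g =ᶠ[𝓝 t] fun _ => g t := by
    filter_upwards [h1, hm] with s hs1 hs2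
    exact le_antisymm hs1 hs2
  have h3 : deriv g =ᶠ[𝓝 t] deriv (fun _ => g t) := h2.deriv
  have h4 : deriv (deriv g) t = 0 := by
    rw [h3.deriv_eq]
    simp
  exact absurd h4 h.ne

private theorem ge1_dir {D : Set ℂ} (hD : IsOpen D) {u : ℂ → ℝ}
    (hu : ContDiffOn ℝ ((⊤ : ℕ∞) : WithTop ℕ∞) u D) {x : ℂ} (hx : x ∈ D) (hm : IsLocalMin u x)
    (e : ℂ) : 0 ≤ fderiv ℝ (fun y => fderiv ℝ u y e) x e := by
  have hl : ∀ t : ℝ, HasDerivAt (fun t : ℝ => x + (t : ℂ) * e) e t := by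
    intro t
    have h1 : HasDerivAt (fun t : ℝ => (t : ℂ)) 1 t := Complex.ofRealCLM.hasDerivAt
    simpa using (h1.mul_const e).const_add x
  have h0 : x + ((0 : ℝ) : ℂ) * e = x := by simp
  have hcont : ContinuousAt (fun t : ℝ => x + (t : ℂ) * e) 0 := (hl 0).continuousAt
  have hnear : ∀ᶠ t : ℝ in 𝓝 0, x + (t : ℂ) * e ∈ D := by
    have hDn : D ∈ 𝓝 (x + ((0 : ℝ) : ℂ) * e) := by
      rw [h0]
      exact hD.mem_nhds hx
    exact hcont hDn
  have hd1 : ∀ᶠ t : ℝ in 𝓝 0, deriv (fun t : ℝ => u (x + (t : ℂ) * e)) t =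
      fderiv ℝ u (x + (t : ℂ) * e) e := by
    filter_upwards [hnear] with t ht
    exact ((ge1_diff hD hu ht).hasFDerivAt.comp_hasDerivAt t (hl t)).deriv
  have hd2 : deriv (deriv (fun t : ℝ => u (x + (t : ℂ) * e))) 0 =
      fderiv ℝ (fun y => fderiv ℝ u y e) x e := by
    rw [Filter.EventuallyEq.deriv_eq hd1]
    have h2 : DifferentiableAt ℝ (fun y => fderiv ℝ u y e) (x + ((0 : ℝ) : ℂ) * e) := by
      rw [h0]; exact ge1_diff hD (ge1_smooth hD hu e) hx
    have h3 := (h2.hasFDerivAt.comp_hasDerivAt (0 : ℝ) (hl 0)).deriv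
    rw [h0] at h3
    exact h3
  rw [← hd2]
  apply ge1_test
  · have hm' : ∀ᶠ y in 𝓝 (x + ((0 : ℝ) : ℂ) * e), u x ≤ u y := by rw [h0]; exact hm
    have h5 := hcont.eventually hm'
    filter_upwards [h5] with t ht
    rw [h0]
    exact ht
  · have h6 : ContinuousAt u (x + ((0 : ℝ) : ℂ) * e) := by
      rw [h0]; exact (ge1_diff hD hu hx).continuousAt
    exact ContinuousAt.comp (f := fun t : ℝ => x + (t : ℂ) * e) (g := u) h6 hcont

/-- The second derivative test: at a local minimum `Δu ≥ 0` (`dbar (gr u) = Δu/2`). Proof: one variable functions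
`t ↦ u (x + t)` and `t ↦ u (x + t i)` have a local minimum at `0`, so their second derivatives are `≥ 0`. -/
theorem laplace_min {D : Set ℂ} (hD : IsOpen D) {u : ℂ → ℝ}
    (hu : ContDiffOn ℝ ((⊤ : ℕ∞) : WithTop ℕ∞) u D) {x : ℂ} (hx : x ∈ D) (hm : IsLocalMin u x) :
    0 ≤ (dbar (gr u) x).re := by
  rw [ge1_re hD hu hx]
  have h1 := ge1_dir hD hu hx hm 1
  have h2 := ge1_dir hD hu hx hm Complex.I
  linarith

/-- `Δ |x|² = 4`. -/
theorem laplace_sq (x : ℂ) : dbar (gr fun x => ‖x‖ ^ 2) x = 2 := by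
  have h1 : ∀ y v : ℂ, fderiv ℝ (fun x : ℂ => ‖x‖ ^ 2) y v = 2 * (y.re * v.re + y.im * v.im) := by
    intro y v
    rw [(hasStrictFDerivAt_norm_sq y).hasFDerivAt.fderiv]
    simp [Complex.inner, innerSL_apply_apply]
    ring
  have h2 : gr (fun x : ℂ => ‖x‖ ^ 2) = fun y => 2 * Complex.conjCLE y := by
    funext y
    unfold gr
    rw [h1, h1]
    apply Complex.ext <;> simp
  have h3 : HasFDerivAt (fun y : ℂ => 2 * Complex.conjCLE y)
      ((2 : ℂ) • (Complex.conjCLE : ℂ →L[ℝ] ℂ)) x :=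
    (Complex.conjCLE.hasFDerivAt (x := x)).const_mul 2
  rw [h2]
  unfold dbar
  rw [h3.fderiv]
  apply Complex.ext <;> simp

/-- **Minimum principle** for superharmonic functions. Proof: if `u (x₀) < 0`, let `v = u - δ |x|²` with small
`δ > 0`: its minimum on the compact `closure O` is attained in `O`, but there `dbar (gr v) ≤ -2δ < 0`, against
`laplace_min`. -/
theorem min_principle {O : Set ℂ} (hO : IsOpen O) (hb : Bornology.IsBounded O) {u : ℂ → ℝ}
    (hc : ContinuousOn u (closure O)) (hu : ContDiffOn ℝ ((⊤ : ℕ∞) : WithTop ℕ∞) u O)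
    (hl : ∀ x ∈ O, (dbar (gr u) x).re ≤ 0) (h0 : ∀ x ∈ frontier O, 0 ≤ u x) : ∀ x ∈ O, 0 ≤ u x := by
  intro x₀ hx₀
  by_contra hneg
  push Not at hneg
  have hcpt : IsCompact (closure O) := hb.isCompact_closure
  have hxc : x₀ ∈ closure O := subset_closure hx₀
  have hnc : ContinuousOn (fun x : ℂ => ‖x‖ ^ 2) (closure O) := by fun_prop
  obtain ⟨M, hM⟩ : ∃ M : ℝ, ∀ x ∈ closure O, ‖x‖ ^ 2 ≤ M := by
    obtain ⟨y, -, hy⟩ := hcpt.exists_isMaxOn ⟨x₀, hxc⟩ hnc
    exact ⟨_, fun x hx => hy hx⟩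
  have hM0 : 0 ≤ M := (by positivity : (0 : ℝ) ≤ ‖x₀‖ ^ 2).trans (hM x₀ hxc)
  obtain ⟨δ, hδ, hδM⟩ : ∃ δ : ℝ, 0 < δ ∧ δ * M < -u x₀ := by
    refine ⟨-u x₀ / (M + 1) , div_pos (by linarith) (by linarith), ?_⟩
    rw [div_mul_eq_mul_div, div_lt_iff₀ (by linarith)]
    nlinarith
  let v : ℂ → ℝ := fun x => u x - δ * ‖x‖ ^ 2
  have hvc : ContinuousOn v (closure O) := hc.sub (hnc.const_mul δ)
  obtain ⟨x₁, hx₁, hmin⟩ := hcpt.exists_isMinOn ⟨x₀, hxc⟩ hvc
  have hx₁O : x₁ ∈ O := by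
    by_contra hn
    have hf : x₁ ∈ frontier O := by
      rw [frontier, hO.interior_eq]
      exact ⟨hx₁, hn⟩
    have h1 : v x₁ ≤ v x₀ := hmin hxc
    have h2 : 0 ≤ u x₁ := h0 x₁ hf
    have h3 := hM x₁ hx₁
    have h4 : δ * ‖x₁‖ ^ 2 ≤ δ * M := by gcongr
    have h5 : 0 ≤ δ * ‖x₀‖ ^ 2 := by positivity
    simp only [v] at h1
    linarith
  have hsq : ContDiffOn ℝ ((⊤ : ℕ∞) : WithTop ℕ∞) (fun x : ℂ => ‖x‖ ^ 2) O :=
    (contDiff_norm_sq ℝ).contDiffOn
  have hv : ContDiffOn ℝ ((⊤ : ℕ∞) : WithTop ℕ∞) v O := hu.sub (contDiffOn_const.mul hsq)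
  have hlm : IsLocalMin v x₁ := by
    filter_upwards [hO.mem_nhds hx₁O] with y hy
    exact hmin (subset_closure hy)
  have h1 := laplace_min hO hv hx₁O hlm
  have h2 : ∀ e : ℂ, fderiv ℝ (fun y => fderiv ℝ v y e) x₁ e =
      fderiv ℝ (fun y => fderiv ℝ u y e) x₁ e -
        δ * fderiv ℝ (fun y => fderiv ℝ (fun x : ℂ => ‖x‖ ^ 2) y e) x₁ e := by
    intro e
    have h3 : (fun y => fderiv ℝ v y e) =ᶠ[𝓝 x₁] fun y => fderiv ℝ u y e -
        δ * fderiv ℝ (fun x : ℂ => ‖x‖ ^ 2) y e := by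
      filter_upwards [hO.mem_nhds hx₁O] with y hy
      have d1 := ge1_diff hO hu hy
      have d2 := ge1_diff hO hsq hy
      simp only [v]
      rw [fderiv_fun_sub d1 (d2.const_mul δ), fderiv_const_mul d2]
      simp
    rw [h3.fderiv_eq]
    have d1 := ge1_diff hO (ge1_smooth hO hu e) hx₁O
    have d2 := ge1_diff hO (ge1_smooth hO hsq e) hx₁O
    rw [fderiv_fun_sub d1 (d2.const_mul δ), fderiv_const_mul d2]
    simp
  have h4 := hl x₁ hx₁O
  have h5 : (dbar (gr fun x : ℂ => ‖x‖ ^ 2) x₁).re = 2 := by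
    rw [laplace_sq]; rfl
  rw [ge1_re hO hv hx₁O, h2, h2] at h1
  rw [ge1_re hO hu hx₁O] at h4
  rw [ge1_re hO hsq hx₁O] at h5
  nlinarith

/-- `log |ξ|` is harmonic off `0`. -/
theorem gr_log {ξ : ℂ} (h : ξ ≠ 0) : gr (fun ξ => Real.log ‖ξ‖) ξ = ξ⁻¹ := by
  have hn : 0 < ‖ξ‖ := norm_pos_iff.mpr h
  have h1 : HasFDerivAt (fun x : ℂ => ‖x‖ ^ 2) (2 • (innerSL ℝ ξ)) ξ :=
    (hasStrictFDerivAt_norm_sq ξ).hasFDerivAt
  have h2 : HasFDerivAt (fun x : ℂ => (1 / 2 : ℝ) * Real.log (‖x‖ ^ 2))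
      ((1 / 2 : ℝ) • ((‖ξ‖ ^ 2)⁻¹ • (2 • (innerSL ℝ ξ)))) ξ :=
    (h1.log (by positivity)).const_mul (1 / 2)
  have h3 : (fun ξ : ℂ => Real.log ‖ξ‖) = fun x : ℂ => (1 / 2 : ℝ) * Real.log (‖x‖ ^ 2) := by
    funext x
    rw [Real.log_pow]
    push_cast
    ring
  unfold gr
  rw [h3, h2.fderiv]
  apply Complex.ext
  · rw [Complex.inv_re, Complex.normSq_eq_norm_sq]
    simp [Complex.inner, innerSL_apply_apply]
    ring
  · rw [Complex.inv_im, Complex.normSq_eq_norm_sq]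
    simp [Complex.inner, innerSL_apply_apply]
    ring

/-- **Hopf lemma** at the unit circle. Proof: `m = min U` on `|ξ| = r₁`, `ρ < r₁ < 1`; by `min_principle` on
`r₁ < |ξ| < 1`: `U(ξ) ≥ m log|ξ| / log r₁`; so `U(tξ) ≥ m log t / log r₁` for `r₁ < t < 1`, `U(ξ) = 0`: the derivative
at `t = 1` is `≤ m / log r₁ < 0`. -/
theorem hopf {ρ : ℝ} (h0 : 0 < ρ) (h1 : ρ < 1) {U : ℂ → ℝ}
    (hU : ContDiffOn ℝ ((⊤ : ℕ∞) : WithTop ℕ∞) U (dring ρ)) (hh : DifferentiableOn ℂ (gr U) (dring ρ))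
    (hz : ∀ ξ, ‖ξ‖ = 1 → U ξ = 0) (hp : ∀ ξ ∈ ring ρ, 0 < U ξ) {ξ : ℂ} (hξ : ‖ξ‖ = 1) :
    fderiv ℝ U ξ ξ < 0 := by
  obtain ⟨r₁, hr1, hr2⟩ := exists_between h1
  have hr0 : 0 < r₁ := h0.trans hr1
  have hρi : 1 < ρ⁻¹ := (one_lt_inv₀ h0).mpr h1
  have hopen : IsOpen (dring ρ) :=
    (isOpen_lt continuous_const continuous_norm).inter (isOpen_lt continuous_norm continuous_const)
  have hlog : Real.log r₁ < 0 := Real.log_neg hr0 hr2
  -- the minimum on the circle of radius `r₁`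
  have hsub : Metric.sphere (0 : ℂ) r₁ ⊆ dring ρ := by
    intro y hy
    rw [mem_sphere_zero_iff_norm] at hy
    exact ⟨by rw [hy]; exact hr1, by rw [hy]; linarith⟩
  obtain ⟨y₀, hy₀, hmin⟩ := (isCompact_sphere (0 : ℂ) r₁).exists_isMinOn
    ((NormedSpace.sphere_nonempty).mpr hr0.le) (hU.continuousOn.mono hsub)
  have hm0 : 0 < U y₀ := by
    apply hp
    rw [mem_sphere_zero_iff_norm] at hy₀
    exact ⟨by rw [hy₀]; exact hr1, by rw [hy₀]; exact hr2⟩
  set m := U y₀ with hm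
  set O : Set ℂ := {ξ | r₁ < ‖ξ‖ ∧ ‖ξ‖ < 1} with hOdef
  have hO : IsOpen O :=
    (isOpen_lt continuous_const continuous_norm).inter (isOpen_lt continuous_norm continuous_const)
  have hOc : closure O ⊆ {ξ | r₁ ≤ ‖ξ‖ ∧ ‖ξ‖ ≤ 1} := by
    apply closure_minimal
    · intro y hy
      exact ⟨hy.1.le, hy.2.le⟩
    · exact (isClosed_le continuous_const continuous_norm).inter
        (isClosed_le continuous_norm continuous_const)
  have hOcd : closure O ⊆ dring ρ := by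
    intro y hy
    have := hOc hy
    exact ⟨lt_of_lt_of_le hr1 this.1, lt_of_le_of_lt this.2 hρi⟩
  have hOd : O ⊆ dring ρ := subset_closure.trans hOcd
  have hOb : Bornology.IsBounded O := by
    apply (Metric.isBounded_closedBall (x := (0 : ℂ)) (r := 1)).subset
    intro y hy
    rw [mem_closedBall_zero_iff]
    exact hy.2.le
  let c : ℝ := m / Real.log r₁
  have hc : c < 0 := div_neg_of_pos_of_neg hm0 hlog
  have hlogs : ∀ y ∈ dring ρ, ContDiffAt ℝ ((⊤ : ℕ∞) : WithTop ℕ∞) (fun y : ℂ => Real.log ‖y‖) y := by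
    intro y hy
    have hy0 : y ≠ 0 := by
      intro h
      have := hy.1
      rw [h, norm_zero] at this
      linarith
    exact (contDiffAt_norm ℝ hy0).log (norm_ne_zero_iff.mpr hy0)
  have hlogs' : ContDiffOn ℝ ((⊤ : ℕ∞) : WithTop ℕ∞) (fun y : ℂ => Real.log ‖y‖) (dring ρ) :=
    fun y hy => (hlogs y hy).contDiffWithinAt
  have hw : ContDiffOn ℝ ((⊤ : ℕ∞) : WithTop ℕ∞) (fun y => U y - c * Real.log ‖y‖) (dring ρ) :=
    hU.sub (contDiffOn_const.mul hlogs')
  have hpos : ∀ y ∈ O, 0 ≤ U y - c * Real.log ‖y‖ := by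
    apply min_principle hO hOb (hw.continuousOn.mono hOcd) (hw.mono hOd)
    · intro y hy
      have hyd := hOd hy
      have e : gr (fun y => U y - c * Real.log ‖y‖) =ᶠ[𝓝 y] fun y => gr U y - c * y⁻¹ := by
        filter_upwards [hopen.mem_nhds hyd] with z hz
        have hz0 : z ≠ 0 := by
          intro h
          have := hz.1
          rw [h, norm_zero] at this
          linarith
        have d1 := ge1_diff hopen hU hz
        have d2 := ge1_diff hopen hlogs' hz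
        rw [gr_sub d1 (d2.const_mul c), gr_smul d2, gr_log hz0]
      have hy0 : y ≠ 0 := by
        intro h
        have := hyd.1
        rw [h, norm_zero] at this
        linarith
      have d3 : DifferentiableAt ℂ (fun y => gr U y - c * y⁻¹) y :=
        (hh.differentiableAt (hopen.mem_nhds hyd)).sub ((differentiableAt_inv hy0).const_mul _)
      have d4 := dbar_of_differentiableAt d3
      have d5 : dbar (gr (fun y => U y - c * Real.log ‖y‖)) y = dbar (fun y => gr U y - c * y⁻¹) y := by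
        unfold dbar
        rw [e.fderiv_eq]
      rw [d5, d4]
      exact le_rfl
    · intro y hy
      have hy1 : y ∈ closure O := frontier_subset_closure hy
      have hy2 : y ∉ O := by
        have := hy.2
        rwa [hO.interior_eq] at this
      have hy3 := hOc hy1
      have hcases : ‖y‖ = r₁ ∨ ‖y‖ = 1 := by
        rcases eq_or_lt_of_le hy3.1 with h | h
        · exact Or.inl h.symm
        · rcases eq_or_lt_of_le hy3.2 with h' | h'
          · exact Or.inr h'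
          · exact absurd ⟨h, h'⟩ hy2
      rcases hcases with h | h
      · have h5 : m ≤ U y := hmin (mem_sphere_zero_iff_norm.mpr h)
        have h6 : c * Real.log r₁ = m := div_mul_cancel₀ _ hlog.ne
        rw [h, h6]
        linarith
      · rw [h, Real.log_one, mul_zero, sub_zero, hz y h]
  -- the derivative along the radius
  have hξd : ξ ∈ dring ρ := ⟨by rw [hξ]; exact h1, by rw [hξ]; exact hρi⟩
  have hl : HasDerivAt (fun t : ℝ => (t : ℂ) * ξ) ξ 1 := by
    have h2 : HasDerivAt (fun t : ℝ => (t : ℂ)) 1 1 := Complex.ofRealCLM.hasDerivAt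
    simpa using h2.mul_const ξ
  have e1 : ((1 : ℝ) : ℂ) * ξ = ξ := by simp
  have hU1 : HasDerivAt (fun t : ℝ => U ((t : ℂ) * ξ)) (fderiv ℝ U ξ ξ) 1 := by
    have h2 : HasFDerivAt U (fderiv ℝ U ξ) (((1 : ℝ) : ℂ) * ξ) := by
      rw [e1]; exact (ge1_diff hopen hU hξd).hasFDerivAt
    exact h2.comp_hasDerivAt (1 : ℝ) hl
  have hL1 : HasDerivAt (fun t : ℝ => c * Real.log t) c 1 := by
    simpa using (Real.hasDerivAt_log one_ne_zero).const_mul c
  have hH := hU1.sub hL1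
  have hle : fderiv ℝ U ξ ξ - c ≤ 0 := by
    have hH' := hH.hasDerivWithinAt (s := Set.Iio 1)
    rw [hasDerivWithinAt_iff_tendsto_slope' (by simp)] at hH'
    have hne : (𝓝[<] (1 : ℝ)).NeBot := inferInstance
    apply le_of_tendsto hH'
    have hev : ∀ᶠ t : ℝ in 𝓝[<] 1, r₁ < t ∧ t < 1 := by
      have h3 : Set.Ioo r₁ 1 ∈ 𝓝[<] (1 : ℝ) := Ioo_mem_nhdsLT hr2
      exact h3
    filter_upwards [hev] with t ht
    have ht0 : 0 < t := hr0.trans ht.1
    have hn : ‖(t : ℂ) * ξ‖ = t := by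
      rw [norm_mul, hξ, mul_one, Complex.norm_real, Real.norm_eq_abs, abs_of_pos ht0]
    have h4 := hpos ((t : ℂ) * ξ) ⟨by rw [hn]; exact ht.1, by rw [hn]; exact ht.2⟩
    rw [hn] at h4
    rw [slope_def_field]
    simp only [Pi.sub_apply]
    rw [e1, hz ξ hξ, Real.log_one, mul_zero, sub_zero, sub_zero]
    exact div_nonpos_of_nonneg_of_nonpos h4 (by linarith [ht.2])
  linarith

private theorem ge1_const {O : Set ℂ} (hO : IsOpen O) (hc : IsPreconnected O) {u : ℂ → ℝ}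
    (hu : ContDiffOn ℝ ((⊤ : ℕ∞) : WithTop ℕ∞) u O) (h0 : ∀ x ∈ O, gr u x = 0) :
    ∀ x ∈ O, ∀ y ∈ O, u x = u y := by
  intro x hx y hy
  apply hO.is_const_of_fderiv_eq_zero (𝕜 := ℝ) hc (hu.differentiableOn ge1_one) _ hx hy
  intro z hz
  have h1 := gr_norm u z
  rw [h0 z hz, norm_zero] at h1
  exact norm_eq_zero.mp h1.symm

/-- A nonnegative harmonic function with a zero is zero near it. Proof: on a ball `gr u = P'` with `P` holomorphic
(`DifferentiableOn.isExactOn_ball`), so `u - Re P` is constant there, `|exp (-P)| = c exp (-u)` has a local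
maximum, so `P` is locally constant (`Complex.eventually_eq_of_isLocalMax_norm`). -/
theorem harm_zero {O : Set ℂ} (hO : IsOpen O) {u : ℂ → ℝ}
    (hu : ContDiffOn ℝ ((⊤ : ℕ∞) : WithTop ℕ∞) u O) (hh : DifferentiableOn ℂ (gr u) O)
    (hp : ∀ x ∈ O, 0 ≤ u x) {x : ℂ} (hx : x ∈ O) (h0 : u x = 0) : ∀ᶠ y in 𝓝 x, u y = 0 := by
  obtain ⟨r, hr, hball⟩ := Metric.isOpen_iff.mp hO x hx
  obtain ⟨P, hP⟩ := (hh.mono hball).isExactOn_ball
  have hxb : x ∈ Metric.ball x r := Metric.mem_ball_self hr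
  have hPd : ∀ z ∈ Metric.ball x r, DifferentiableAt ℂ P z := fun z hz => (hP z hz).differentiableAt
  have hPR : ∀ z ∈ Metric.ball x r, HasFDerivAt (fun z => (P z).re)
      (Complex.reCLM.comp ((gr u z) • (1 : ℂ →L[ℝ] ℂ))) z := by
    intro z hz
    have h1 : HasFDerivAt P ((gr u z) • (1 : ℂ →L[ℝ] ℂ)) z := (hP z hz).complexToReal_fderiv
    exact Complex.reCLM.hasFDerivAt.comp z h1
  have hPs : ContDiffOn ℝ ((⊤ : ℕ∞) : WithTop ℕ∞) (fun z => (P z).re) (Metric.ball x r) := by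
    have h1 : DifferentiableOn ℂ P (Metric.ball x r) := fun z hz => (hPd z hz).differentiableWithinAt
    have h2 : ContDiffOn ℂ ((⊤ : ℕ∞) : WithTop ℕ∞) P (Metric.ball x r) :=
      h1.contDiffOn Metric.isOpen_ball
    exact Complex.reCLM.contDiff.comp_contDiffOn (h2.restrict_scalars ℝ)
  have hgr : ∀ z ∈ Metric.ball x r, gr (fun z => u z - (P z).re) z = 0 := by
    intro z hz
    have h2 : gr (fun z => (P z).re) z = gr u z := by
      unfold gr
      rw [(hPR z hz).fderiv]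
      apply Complex.ext
      · simp
        rfl
      · simp
        rfl
    rw [gr_sub (ge1_diff hO hu (hball hz)) (hPR z hz).differentiableAt, h2, sub_self]
  have hconst := ge1_const Metric.isOpen_ball (convex_ball x r).isPreconnected
    ((hu.mono hball).sub hPs) hgr x hxb
  have hmax : IsLocalMax (norm ∘ fun z => Complex.exp (-P z)) x := by
    filter_upwards [Metric.ball_mem_nhds x hr] with z hz
    have h3 := hconst z hz
    have h4 := hp z (hball hz)
    simp only [Function.comp_apply, Complex.norm_exp, Complex.neg_re]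
    apply Real.exp_le_exp.mpr
    simp only [h0] at h3
    linarith
  have hd : ∀ᶠ z in 𝓝 x, DifferentiableAt ℂ (fun z => Complex.exp (-P z)) z := by
    filter_upwards [Metric.ball_mem_nhds x hr] with z hz
    exact (hPd z hz).neg.cexp
  filter_upwards [Complex.eventually_eq_of_isLocalMax_norm hd hmax, Metric.ball_mem_nhds x hr]
    with z hz1 hz2
  have h3 := hconst z hz2
  have h4 := congrArg norm hz1
  rw [Complex.norm_exp, Complex.norm_exp, Complex.neg_re, Complex.neg_re, Real.exp_eq_exp] at h4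
  simp only [h0] at h3
  linarith

/-- A function with gradient zero on a connected open set is constant. -/
theorem const_of_gr {O : Set ℂ} (hO : IsOpen O) (hc : IsPreconnected O) {u : ℂ → ℝ}
    (hu : ContDiffOn ℝ ((⊤ : ℕ∞) : WithTop ℕ∞) u O) (h0 : ∀ x ∈ O, gr u x = 0) :
    ∀ x ∈ O, ∀ y ∈ O, u x = u y := by
  exact ge1_const hO hc hu h0

end Pool.Agent.Lib.MP_79abb3_an.PD
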