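import Pool.Agent.Lib.MP_79abb3_an.PD.GF2
import Pool.Agent.Lib.MP_79abb3_an.PD.GD4
import Pool.Agent.Lib.MP_79abb3_an.PD.GE1

/-!
Theorem D, block G, part F3: integral fluxes.
-/

set_option autoImplicit false
set_option linter.unusedSectionVars false

open MeasureTheory Set Filter Topology Function
open scoped ENNReal ComplexConjugate

namespace Pool.Agent.Lib.MP_79abb3_an.PD

open Pool.Agent.Lib.MP_79abb3_an.SC

private theorem gf3_gr_zero (x : ℂ) : gr (fun _ => (0 : ℝ)) x = 0 := by
  rw [gr]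
  simp only [fderiv_fun_const, Pi.zero_apply, zero_apply, neg_zero]
  rfl

private theorem gf3_gr_const {u : ℂ → ℝ} {c : ℝ} {x : ℂ} (h : ∀ᶠ y in 𝓝 x, u y = c) : gr u x = 0 := by
  have h' : u =ᶠ[𝓝 x] fun _ => c := h
  rw [gr_congr h', gr]
  simp only [fderiv_fun_const, Pi.zero_apply, zero_apply, neg_zero]
  rfl

private theorem gf3_gr_sum {ι : Type*} (S : Finset ι) {f : ι → ℂ → ℝ} (c : ι → ℝ) {x : ℂ}
    (hf : ∀ j ∈ S, DifferentiableAt ℝ (f j) x) :
    gr (fun y => ∑ j ∈ S, c j * f j y) x = ∑ j ∈ S, (c j : ℂ) * gr (f j) x := by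
  classical
  induction S using Finset.induction_on with
  | empty => simp only [Finset.sum_empty, gf3_gr_zero]
  | insert a S ha ih =>
    simp only [Finset.sum_insert ha]
    have h1 : DifferentiableAt ℝ (fun y => c a * f a y) x :=
      (hf a (Finset.mem_insert_self a S)).const_mul (c a)
    have h2 : DifferentiableAt ℝ (fun y => ∑ j ∈ S, c j * f j y) x :=
      DifferentiableAt.fun_sum fun j hj => (hf j (Finset.mem_insert_of_mem hj)).const_mul (c j)
    rw [gr_add h1 h2, gr_smul (hf a (Finset.mem_insert_self a S)),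
      ih fun j hj => hf j (Finset.mem_insert_of_mem hj)]

private theorem gf3_isW_sum {D : Set ℂ} {ι : Type*} (S : Finset ι) {f : ι → ℂ → ℝ} {γ : ι → ℂ → ℂ}
    (c : ι → ℝ) (hf : ∀ j ∈ S, IsW D (f j) (γ j)) :
    IsW D (fun y => ∑ j ∈ S, c j * f j y) (fun y => ∑ j ∈ S, (c j : ℂ) * γ j y) := by
  classical
  induction S using Finset.induction_on with
  | empty =>
    simp only [Finset.sum_empty]
    have h : IsTe D (fun _ : ℂ => (0 : ℝ)) := by
      refine ⟨contDiff_const, HasCompactSupport.zero, ?_⟩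
      have h1 : tsupport (fun _ : ℂ => (0 : ℝ)) = ∅ := by
        rw [tsupport_eq_empty_iff]
        rfl
      rw [h1]
      exact empty_subset _
    have h2 := IsW.of_test h
    refine h2.congr (Filter.EventuallyEq.refl _ _) (Filter.Eventually.of_forall fun x => ?_)
    exact gf3_gr_zero x
  | insert a S ha ih =>
    simp only [Finset.sum_insert ha]
    exact ((hf a (Finset.mem_insert_self a S)).smul (c a)).add
      (ih fun j hj => hf j (Finset.mem_insert_of_mem hj))

/-- **Linear independence** of the harmonic parts on a ball. If `∑ c_j w_j = 0` on the ball, `k = ∑ c_j (w_j - χ_j)`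
has a holomorphic `gr k` on `D` which vanishes on the ball (`χ_j = 0` there), so `gr k = 0` on `D` (identity theorem),
`k = 0` on `D` (`const_of_gr`), so `∑ c_j w_j = ∑ c_j χ_j` on `D`, which is `c_i` on `F_i '' ring b`; but it belongs to
`H¹₀(D)`, so it is small near the circle (`small_near`): `c_i = 0`. -/
theorem hm_indep {D : Set ℂ} (hD : IsOpen D) (hc : IsPreconnected D) {n : ℕ} {ρ : ℝ}
    {F : Fin n → ℂ → ℂ} (hF : IsCols D n ρ F) {a b : ℝ} (ha : ρ < a) (hab : a < b) (hb : b < 1)
    {χ w : Fin n → ℂ → ℝ} (hχ : ∀ j, IsChi D ρ (F j) a b (χ j))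
    (hs : ∀ j, ContDiffOn ℝ ((⊤ : ℕ∞) : WithTop ℕ∞) (w j) D)
    (hg : ∀ j, DifferentiableOn ℂ (fun x => gr (χ j) x - gr (w j) x) D)
    (hw : ∀ j, IsW D (w j) (D.indicator (gr (w j)))) {x : ℂ} {s : ℝ} (hs0 : 0 < s)
    (hbD : Metric.ball x s ⊆ D) (hd : ∀ j, Disjoint (Metric.ball x s) (F j '' ring ρ)) {c : Fin n → ℝ}
    (h : ∀ y ∈ Metric.ball x s, ∑ j, c j * w j y = 0) : c = 0 := by
  have hwd : ∀ j, ∀ y ∈ D, DifferentiableAt ℝ (w j) y := fun j y hy =>
    (((hs j) y hy).contDiffAt (hD.mem_nhds hy)).differentiableAt (by simp)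
  have hχd : ∀ j, ∀ y ∈ D, DifferentiableAt ℝ (χ j) y := fun j y hy =>
    ((((hχ j).smooth) y hy).contDiffAt (hD.mem_nhds hy)).differentiableAt (by simp)
  set k : ℂ → ℝ := fun y => ∑ j, c j * (w j y - χ j y) with hk
  have hks : ContDiffOn ℝ ((⊤ : ℕ∞) : WithTop ℕ∞) k D :=
    ContDiffOn.sum fun j _ => contDiffOn_const.mul ((hs j).sub (hχ j).smooth)
  have hgk : ∀ y ∈ D, gr k y = -∑ j, (c j : ℂ) * (gr (χ j) y - gr (w j) y) := by
    intro y hy
    rw [hk, gf3_gr_sum Finset.univ (f := fun j y => w j y - χ j y) c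
      fun j _ => (hwd j y hy).sub (hχd j y hy), ← Finset.sum_neg_distrib]
    refine Finset.sum_congr rfl fun j _ => ?_
    rw [gr_sub (hwd j y hy) (hχd j y hy)]
    ring
  have hkh : DifferentiableOn ℂ (gr k) D := by
    refine DifferentiableOn.congr (f := fun y => -∑ j, (c j : ℂ) * (gr (χ j) y - gr (w j) y)) ?_ hgk
    exact (DifferentiableOn.fun_sum fun j _ => (hg j).const_mul _).neg
  have hkb : ∀ y ∈ Metric.ball x s, k y = 0 := by
    intro y hy
    rw [← h y hy]
    refine Finset.sum_congr rfl fun j _ => ?_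
    rw [(hχ j).off y (hbD hy) (Set.disjoint_left.1 (hd j) hy), sub_zero]
  have hx : x ∈ D := hbD (Metric.mem_ball_self hs0)
  have hgk0 : EqOn (gr k) 0 D := by
    refine (hkh.analyticOnNhd hD).eqOn_zero_of_preconnected_of_eventuallyEq_zero hc hx ?_
    filter_upwards [Metric.isOpen_ball.mem_nhds (Metric.mem_ball_self hs0 : x ∈ Metric.ball x s)] with y hy
    exact gf3_gr_const (Filter.eventually_of_mem (Metric.isOpen_ball.mem_nhds hy) hkb)
  have hk0 : ∀ y ∈ D, k y = 0 := fun y hy => by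
    rw [const_of_gr hD hc hks hgk0 y hy x hx]
    exact hkb x (Metric.mem_ball_self hs0)
  -- the combination in `H¹₀`
  set W : ℂ → ℝ := fun y => ∑ j, c j * w j y with hW
  have hWs : ContDiffOn ℝ ((⊤ : ℕ∞) : WithTop ℕ∞) W D :=
    ContDiffOn.sum fun j _ => contDiffOn_const.mul (hs j)
  have hWw : IsW D W (D.indicator (gr W)) := by
    refine (gf3_isW_sum Finset.univ c fun j _ => hw j).congr (Filter.EventuallyEq.refl _ _)
      (Filter.Eventually.of_forall fun y => ?_)
    simp only
    by_cases hy : y ∈ D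
    · simp only [indicator_of_mem hy]
      rw [hW, gf3_gr_sum Finset.univ c fun j _ => hwd j y hy]
    · simp only [indicator_of_notMem hy, mul_zero, Finset.sum_const_zero]
  funext i
  by_contra hci
  have hb0 : 0 < b := hF.h0.trans (ha.trans hab)
  have hρb : ρ ≤ b := (ha.trans hab).le
  have hbring : ring b ⊆ ring ρ := fun ξ hξ => ⟨lt_of_le_of_lt hρb hξ.1, hξ.2⟩
  have hWc : ∀ ξ ∈ ring b, W (F i ξ) = c i := by
    intro ξ hξ
    have hξρ : ξ ∈ ring ρ := hbring hξ
    have hD' : F i ξ ∈ D := (hF.col i).sub ⟨ξ, hξρ, rfl⟩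
    have h1 : W (F i ξ) = ∑ j, c j * χ j (F i ξ) := by
      have h2 := hk0 _ hD'
      rw [hk] at h2
      simp only [mul_sub, Finset.sum_sub_distrib] at h2
      rw [hW]
      linarith
    rw [h1, Finset.sum_eq_single i]
    · rw [(hχ i).val ξ hξρ, prof_one hab hξ.1.le, mul_one]
    · intro j _ hj
      have h3 : F i ξ ∉ F j '' ring ρ := by
        rintro ⟨η, hη, he⟩
        have h5 : Disjoint (F j '' ringc ρ) (F i '' ringc ρ) := hF.dis hj
        exact Set.disjoint_left.1 h5 ⟨η, ⟨hη.1, hη.2.le⟩, he⟩ ⟨ξ, ⟨hξρ.1, hξρ.2.le⟩, rfl⟩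
      rw [(hχ j).off _ hD' h3, mul_zero]
    · intro h4
      exact absurd (Finset.mem_univ i) h4
  have hropen : IsOpen (ring b) :=
    (isOpen_lt continuous_const continuous_norm).inter (isOpen_lt continuous_norm continuous_const)
  have hopen : IsOpen (F i '' ring b) := (hF.col i).open_ring hF.h0 hropen hbring
  have hgW : ∀ y ∈ F i '' ring b, gr W y = 0 := by
    intro y hy
    refine gf3_gr_const (c := c i) (Filter.eventually_of_mem (hopen.mem_nhds hy) ?_)
    rintro z ⟨ξ, hξ, rfl⟩
    exact hWc ξ hξ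
  have hh : DifferentiableOn ℂ (gr W) (F i '' ring b) :=
    (differentiableOn_const (c := (0 : ℂ))).congr hgW
  obtain ⟨r, hr, hr1, hsm⟩ := small_near hD hb0 hb ((hF.col i).mono hρb) hWs hWw hh
    (abs_pos.2 hci)
  have hm : (((r + 1) / 2 : ℝ) : ℂ) ∈ ring r := by
    refine ⟨?_, ?_⟩
    · rw [Complex.norm_real, Real.norm_eq_abs, abs_of_pos (by linarith)]
      linarith
    · rw [Complex.norm_real, Real.norm_eq_abs, abs_of_pos (by linarith)]
      linarith
  have h5 := hsm _ hm
  rw [hWc _ ⟨hr.trans hm.1, hm.2⟩] at h5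
  exact lt_irrefl _ h5

private theorem gf3_int {w : ℂ → ℝ} {B : Set ℂ} (hc : ContinuousOn w B) {μ : ℂ → ℝ} (hμ : IsTe B μ) :
    Integrable (fun y => μ y * w y) := by
  have h1 : IntegrableOn (fun y => μ y * w y) (tsupport μ) :=
    (hμ.smooth.continuous.continuousOn.mul (hc.mono hμ.supp)).integrableOn_compact hμ.cpt
  refine (integrableOn_iff_integrable_of_support_subset fun y hy => ?_).1 h1
  by_contra h2
  exact hy (by
    show μ y * w y = 0
    rw [image_eq_zero_of_notMem_tsupport h2, zero_mul])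

/-- the space of test functions -/
private def gf3_V (B : Set ℂ) : Submodule ℝ (ℂ → ℝ) where
  carrier := {μ | IsTe B μ}
  add_mem' := fun h1 h2 => h1.add h2
  zero_mem' := by
    show IsTe B (fun _ : ℂ => (0 : ℝ))
    refine ⟨contDiff_const, HasCompactSupport.zero, ?_⟩
    have h1 : tsupport (fun _ : ℂ => (0 : ℝ)) = ∅ := by
      rw [tsupport_eq_empty_iff]
      rfl
    rw [h1]
    exact empty_subset _
  smul_mem' := fun c _ h1 => h1.smul c

/-- Linear algebra: functions `w_j` continuous and linearly independent on a ball have bounded dual test functions.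
(The subspace `{(∫ μ w_j)_j}` of `ℝⁿ` has trivial orthogonal complement.) -/
theorem exists_dual {n : ℕ} {w : Fin n → ℂ → ℝ} {x : ℂ} {s : ℝ} (hs : 0 < s)
    (hc : ∀ j, ContinuousOn (w j) (Metric.ball x s))
    (hi : ∀ c : Fin n → ℝ, (∀ y ∈ Metric.ball x s, ∑ j, c j * w j y = 0) → c = 0) (i : Fin n) :
    ∃ μ : ℂ → ℝ, IsTe (Metric.ball x s) μ ∧ ∀ j, ∫ y, μ y * w j y = if j = i then 1 else 0 := by
  classical
  let T : gf3_V (Metric.ball x s) →ₗ[ℝ] (Fin n → ℝ) :=
    { toFun := fun μ j => ∫ y, μ.1 y * w j y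
      map_add' := by
        intro μ ν
        funext j
        have h1 := gf3_int (hc j) μ.2
        have h2 := gf3_int (hc j) ν.2
        show ∫ y, (μ.1 y + ν.1 y) * w j y = (∫ y, μ.1 y * w j y) + ∫ y, ν.1 y * w j y
        rw [← integral_add h1 h2]
        refine integral_congr_ae (Filter.Eventually.of_forall fun y => ?_)
        simp only
        ring
      map_smul' := by
        intro c μ
        funext j
        show ∫ y, (c * μ.1 y) * w j y = c * ∫ y, μ.1 y * w j y
        rw [← integral_const_mul]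
        refine integral_congr_ae (Filter.Eventually.of_forall fun y => ?_)
        simp only
        ring }
  have hT : LinearMap.range T = ⊤ := by
    by_contra hne
    obtain ⟨f, hf0, hfk⟩ := Submodule.exists_le_ker_of_lt_top _ (lt_top_iff_ne_top.2 hne)
    set c : Fin n → ℝ := fun j => f (Pi.single j 1) with hcdef
    have hfc : ∀ v : Fin n → ℝ, f v = ∑ j, c j * v j := by
      intro v
      have h1 : v = ∑ j, v j • (Pi.single j (1 : ℝ) : Fin n → ℝ) := by
        funext l
        rw [Finset.sum_apply]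
        simp [Pi.single_apply]
      conv_lhs => rw [h1]
      rw [map_sum]
      refine Finset.sum_congr rfl fun j _ => ?_
      rw [map_smul, smul_eq_mul, mul_comm]
    have hW : ContinuousOn (fun y => ∑ j, c j * w j y) (Metric.ball x s) :=
      continuousOn_finsetSum _ fun j _ => continuousOn_const.mul (hc j)
    have hae : ∀ᵐ y ∂(volume : Measure ℂ), y ∈ Metric.ball x s → ∑ j, c j * w j y = 0 := by
      refine IsOpen.ae_eq_zero_of_integral_contDiff_smul_eq_zero Metric.isOpen_ball
        (hW.locallyIntegrableOn Metric.isOpen_ball.measurableSet) fun g hg1 hg2 hg3 => ?_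
      have hg : IsTe (Metric.ball x s) g := ⟨hg1, hg2, hg3⟩
      have h2 : f (T ⟨g, hg⟩) = 0 := hfk ⟨⟨g, hg⟩, rfl⟩
      rw [hfc] at h2
      have h3 : ∀ j, T ⟨g, hg⟩ j = ∫ y, g y * w j y := fun j => rfl
      simp only [h3] at h2
      simp only [smul_eq_mul, Finset.mul_sum]
      rw [integral_finsetSum _ fun j _ => ?_]
      · rw [← h2]
        refine Finset.sum_congr rfl fun j _ => ?_
        rw [← integral_const_mul]
        refine integral_congr_ae (Filter.Eventually.of_forall fun y => ?_)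
        simp only
        ring
      · have h4 := (gf3_int (hc j) hg).const_mul (c j)
        refine h4.congr (Filter.Eventually.of_forall fun y => ?_)
        simp only
        ring
    have h0 : EqOn (fun y => ∑ j, c j * w j y) (fun _ => 0) (Metric.ball x s) := by
      refine Measure.eqOn_open_of_ae_eq (μ := volume) ?_ Metric.isOpen_ball hW continuousOn_const
      rw [Filter.EventuallyEq, ae_restrict_iff' Metric.isOpen_ball.measurableSet]
      exact hae
    have hc0 := hi c fun y hy => h0 hy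
    refine hf0 (LinearMap.ext fun v => ?_)
    rw [hfc, hc0]
    simp
  obtain ⟨μ, hμ⟩ := LinearMap.range_eq_top.1 hT (fun j => if j = i then 1 else 0)
  exact ⟨μ.1, μ.2, fun j => congrFun hμ j⟩

/-- **Integral fluxes.** `μ₀` a bump equal to `1` on `ball x (s/2)`, `μ_i` dual functions in `ball x (s/2)`;
`μ = N (μ₀ + ∑ ε_i μ_i)` with small `ε_i` such that the numbers `-∫ μ₀ w_j - ε_j` are rational with common denominator
`N`. -/
theorem exists_mu {n : ℕ} {w : Fin n → ℂ → ℝ} {x : ℂ} {s : ℝ} (hs : 0 < s)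
    (hc : ∀ j, ContinuousOn (w j) (Metric.ball x s))
    (hi : ∀ c : Fin n → ℝ, (∀ y ∈ Metric.ball x (s / 2), ∑ j, c j * w j y = 0) → c = 0) :
    ∃ (μ : ℂ → ℝ) (q : Fin n → ℤ), IsTe (Metric.ball x s) μ ∧ (∀ y, 0 ≤ μ y) ∧ (∃ y, μ y ≠ 0) ∧
      ∀ j, -∫ y, μ y * w j y = q j := by
  classical
  have hsub : Metric.ball x (s / 2) ⊆ Metric.ball x s := Metric.ball_subset_ball (by linarith)
  have hdual := exists_dual (half_pos hs) (fun j => (hc j).mono hsub) hi
  choose m hm1 hm2 using hdual
  have hbd : ∀ i, ∃ C, ∀ y, ‖m i y‖ ≤ C := fun i =>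
    (hm1 i).smooth.continuous.bounded_above_of_compact_support (hm1 i).cpt
  choose C hC using hbd
  let f : ContDiffBump x := ⟨s / 2, 3 * s / 4, by positivity, by linarith⟩
  have hf : IsTe (Metric.ball x s) (fun z => f z) := by
    refine ⟨f.contDiff, f.hasCompactSupport, ?_⟩
    show tsupport f ⊆ Metric.ball x s
    rw [f.tsupport_eq]
    intro z hz
    rw [Metric.mem_closedBall] at hz
    rw [Metric.mem_ball]
    have : f.rOut = 3 * s / 4 := rfl
    linarith
  obtain ⟨N, hN⟩ := exists_nat_gt (max 1 (∑ i, C i))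
  have hN1 : (1 : ℝ) < N := (le_max_left _ _).trans_lt hN
  have hN2 : ∑ i, C i < N := (le_max_right _ _).trans_lt hN
  have hN0 : (0 : ℝ) < N := by linarith
  set A : Fin n → ℝ := fun j => -∫ y, f y * w j y with hA
  set e : Fin n → ℝ := fun j => A j - (round ((N : ℝ) * A j) : ℝ) / N with he
  have he1 : ∀ j, |e j| ≤ (2 * N : ℝ)⁻¹ := by
    intro j
    have h1 : e j = ((N : ℝ) * A j - (round ((N : ℝ) * A j) : ℝ)) / N := by
      rw [he]
      field_simp
    rw [h1, abs_div, abs_of_pos hN0, div_le_iff₀ hN0]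
    have h2 := abs_sub_round ((N : ℝ) * A j)
    have h3 : (2 * (N : ℝ))⁻¹ * N = 1 / 2 := by field_simp
    rw [h3]
    exact h2
  have hsum : ∀ y, |∑ i, e i * m i y| ≤ 1 / 2 := by
    intro y
    calc |∑ i, e i * m i y| ≤ ∑ i, |e i * m i y| := Finset.abs_sum_le_sum_abs _ _
      _ ≤ ∑ i, (2 * N : ℝ)⁻¹ * C i := by
        refine Finset.sum_le_sum fun i _ => ?_
        rw [abs_mul]
        exact mul_le_mul (he1 i) (hC i y) (abs_nonneg _) (by positivity)
      _ = (2 * N : ℝ)⁻¹ * ∑ i, C i := by rw [Finset.mul_sum]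
      _ ≤ (2 * N : ℝ)⁻¹ * N := mul_le_mul_of_nonneg_left hN2.le (by positivity)
      _ = 1 / 2 := by field_simp
  set μ : ℂ → ℝ := fun y => (N : ℝ) * (f y + ∑ i, e i * m i y) with hμ
  have hsumte : ∀ S : Finset (Fin n), IsTe (Metric.ball x s) (fun y => ∑ i ∈ S, e i * m i y) := by
    intro S
    induction S using Finset.induction_on with
    | empty =>
      simp only [Finset.sum_empty]
      exact (gf3_V (Metric.ball x s)).zero_mem
    | insert a S ha ih =>
      simp only [Finset.sum_insert ha]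
      exact (((hm1 a).smul (e a)).mono hsub).add ih
  have hμt : IsTe (Metric.ball x s) μ := (hf.add (hsumte Finset.univ)).smul (N : ℝ)
  refine ⟨μ, fun j => round ((N : ℝ) * A j), hμt, fun y => ?_, ⟨x, ?_⟩, fun j => ?_⟩
  · by_cases hy : y ∈ Metric.closedBall x (s / 2)
    · have h1 : f y = 1 := f.one_of_mem_closedBall hy
      have h2 := (abs_le.1 (hsum y)).1
      rw [hμ]
      simp only [h1]
      refine mul_nonneg hN0.le ?_
      linarith
    · have h1 : ∀ i, m i y = 0 := fun i =>
        image_eq_zero_of_notMem_tsupport fun h2 => hy (Metric.ball_subset_closedBall ((hm1 i).supp h2))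
      rw [hμ]
      simp only [h1, mul_zero, Finset.sum_const_zero, add_zero]
      exact mul_nonneg hN0.le f.nonneg
  · have h1 : f x = 1 := f.one_of_mem_closedBall (Metric.mem_closedBall_self (by
      show (0 : ℝ) ≤ s / 2
      linarith))
    have h2 := (abs_le.1 (hsum x)).1
    have h3 : 0 < μ x := by
      rw [hμ]
      simp only [h1]
      refine mul_pos hN0 ?_
      linarith
    exact h3.ne'
  · have h1 : ∀ i, Integrable (fun y => m i y * w j y) := fun i => gf3_int (hc j) ((hm1 i).mono hsub)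
    have h2 : Integrable (fun y => f y * w j y) := gf3_int (hc j) hf
    have h3 : ∫ y, μ y * w j y = N * ((∫ y, f y * w j y) + ∑ i, e i * ∫ y, m i y * w j y) := by
      have h4 : (fun y => μ y * w j y) =
          fun y => (N : ℝ) * (f y * w j y + ∑ i, e i * (m i y * w j y)) := by
        funext y
        rw [hμ]
        simp only
        rw [mul_assoc, add_mul, Finset.sum_mul]
        congr 2
        refine Finset.sum_congr rfl fun i _ => ?_
        ring
      rw [h4, integral_const_mul, integral_add h2 (integrable_finsetSum _ fun i _ => (h1 i).const_mul _),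
        integral_finsetSum _ fun i _ => (h1 i).const_mul _]
      congr 2
      refine Finset.sum_congr rfl fun i _ => ?_
      rw [integral_const_mul]
    have h5 : ∑ i, e i * ∫ y, m i y * w j y = e j := by
      simp only [hm2, mul_ite, mul_one, mul_zero]
      rw [Finset.sum_ite_eq Finset.univ j e]
      simp
    rw [h3, h5]
    have h6 : (∫ y, f y * w j y) = -A j := by
      rw [hA]
      ring
    rw [h6, he]
    field_simp
    ring

/-- **Solutions with integral fluxes.** -/
theorem exists_int_sol {D : Set ℂ} (hD : IsOpen D) (hc : IsPreconnected D) (hb : Bornology.IsBounded D)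
    {n : ℕ} {ρ : ℝ} {F : Fin n → ℂ → ℂ} (hF : IsCols D n ρ F) {x : ℂ} {s : ℝ} (hs : 0 < s)
    (hbD : Metric.closedBall x s ⊆ D) (hd : ∀ j, Disjoint (Metric.closedBall x s) (F j '' ring ρ)) :
    ∃ (μ u : ℂ → ℝ) (q : Fin n → ℤ), IsTe (Metric.ball x s) μ ∧ (∀ y, 0 ≤ μ y) ∧ (∃ y, μ y ≠ 0) ∧
      IsSol D μ u ∧ ∀ j, ∀ a b χ, ρ < a → a < b → b < 1 → IsChi D ρ (F j) a b χ → flux D u χ = q j := by
  have h0 := hF.h0
  have h1 := hF.h1
  have ha : ρ < (2 * ρ + 1) / 3 := by linarith
  have hab : (2 * ρ + 1) / 3 < (ρ + 2) / 3 := by linarith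
  have hb1 : (ρ + 2) / 3 < 1 := by linarith
  have hχ : ∀ j, ∃ χ : ℂ → ℝ, IsChi D ρ (F j) ((2 * ρ + 1) / 3) ((ρ + 2) / 3) χ := fun j =>
    exists_chi hD h0 (hF.col j) ha hab hb1
  choose χ hχ using hχ
  have hw := fun j => exists_hm hD hb h0 (hF.col j) ha hab hb1 (hχ j)
  choose w hws hw0 hwg hww hwp using hw
  have hbb : Metric.ball x s ⊆ D := Metric.ball_subset_closedBall.trans hbD
  have hb2 : Metric.ball x (s / 2) ⊆ Metric.closedBall x s :=
    (Metric.ball_subset_ball (by linarith)).trans Metric.ball_subset_closedBall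
  have hi : ∀ c : Fin n → ℝ, (∀ y ∈ Metric.ball x (s / 2), ∑ j, c j * w j y = 0) → c = 0 := fun c hc' =>
    hm_indep hD hc hF ha hab hb1 hχ hws hwg hww (half_pos hs) (hb2.trans hbD)
      (fun j => (hd j).mono_left hb2) hc'
  obtain ⟨μ, q, hμ, hμ0, hμne, hq⟩ := exists_mu hs (fun j => (hws j).continuousOn.mono hbb) hi
  have hμD : IsTe D μ := hμ.mono hbb
  obtain ⟨u, hu⟩ := exists_sol hD hb (hμ.mono (subset_univ _))
  refine ⟨μ, u, q, hμ, hμ0, hμne, hu, fun j a b χ' ha' hab' hb' hχ' => ?_⟩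
  have hdis : Disjoint (tsupport μ) (F j '' ring ρ) :=
    (hd j).mono_left (hμ.supp.trans Metric.ball_subset_closedBall)
  rw [flux_indep hD h0 (hF.col j) ha' hab' hb' ha hab hb1 hχ' (hχ j) hu hdis,
    flux_eq hD hb h0 (hF.col j) ha hab hb1 (hχ j) (hww j) (hwp j) hu hμD]
  exact hq j

end Pool.Agent.Lib.MP_79abb3_an.PD
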