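import Pool.Agent.Lib.MP_79abb3_an.PD.GB3

/-!
Theorem D, block G, part C1: potentials, solutions of `-Δu = 2πμ` in `H¹₀(D)`.
-/

set_option autoImplicit false
set_option linter.unusedSectionVars false

open MeasureTheory Set Filter Topology Function
open scoped ENNReal ComplexConjugate

namespace Pool.Agent.Lib.MP_79abb3_an.PD

/-- `2 ∂/∂ζ` of the logarithmic potential of `μ`: `-∫ μ(x)/(w - x) dx`. -/
noncomputable def bet (μ : ℂ → ℝ) (w : ℂ) : ℂ := -((Real.pi : ℝ) : ℂ) * CT (fun x => ((μ x : ℝ) : ℂ)) w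

private theorem gc1_of {D : Set ℂ} {μ : ℂ → ℝ} (h : IsTe D μ) : IsTe D (fun x => ((μ x : ℝ) : ℂ)) := by
  have h1 : support (fun x => ((μ x : ℝ) : ℂ)) = support μ := by
    ext y
    simp
  have h2 : tsupport (fun x => ((μ x : ℝ) : ℂ)) = tsupport μ := by
    rw [tsupport, h1, ← tsupport]
  refine ⟨Complex.ofRealCLM.contDiff.comp h.smooth, ?_, ?_⟩
  · have h3 : IsCompact (tsupport (fun x => ((μ x : ℝ) : ℂ))) := by
      rw [h2]
      exact h.cpt
    exact h3
  · rw [h2]
    exact h.supp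

private theorem gc1_congr {φ ψ : ℂ → ℂ} {x : ℂ} (h : φ =ᶠ[𝓝 x] ψ) : dbar φ x = dbar ψ x := by
  rw [dbar, dbar, h.fderiv_eq]

private theorem gc1_add {φ ψ : ℂ → ℂ} {x : ℂ} (h1 : DifferentiableAt ℝ φ x)
    (h2 : DifferentiableAt ℝ ψ x) : dbar (fun y => φ y + ψ y) x = dbar φ x + dbar ψ x := by
  have h3 : fderiv ℝ (fun y => φ y + ψ y) x = fderiv ℝ φ x + fderiv ℝ ψ x :=
    (h1.hasFDerivAt.add h2.hasFDerivAt).fderiv
  rw [dbar, dbar, dbar, h3]
  simp only [ContinuousLinearMap.add_apply]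
  ring

private theorem gc1_sub {φ ψ : ℂ → ℂ} {x : ℂ} (h1 : DifferentiableAt ℝ φ x)
    (h2 : DifferentiableAt ℝ ψ x) : dbar (fun y => φ y - ψ y) x = dbar φ x - dbar ψ x := by
  have h3 : fderiv ℝ (fun y => φ y - ψ y) x = fderiv ℝ φ x - fderiv ℝ ψ x :=
    (h1.hasFDerivAt.sub h2.hasFDerivAt).fderiv
  rw [dbar, dbar, dbar, h3]
  simp only [ContinuousLinearMap.sub_apply]
  ring

private theorem gc1_mul {φ : ℂ → ℂ} {x : ℂ} (h1 : DifferentiableAt ℝ φ x) (c : ℂ) :
    dbar (fun y => c * φ y) x = c * dbar φ x := by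
  have h3 : fderiv ℝ (fun y => c * φ y) x = c • fderiv ℝ φ x :=
    (h1.hasFDerivAt.const_mul c).fderiv
  rw [dbar, dbar, h3]
  simp only [ContinuousLinearMap.smul_apply, smul_eq_mul]
  ring

theorem bet_smooth {μ : ℂ → ℝ} (hμ : IsTe univ μ) : ContDiff ℝ ((⊤ : ℕ∞) : WithTop ℕ∞) (bet μ) := by
  have h1 := gc1_of hμ
  exact contDiff_const.mul (CT_smooth h1.smooth h1.cpt)

theorem dbar_bet {μ : ℂ → ℝ} (hμ : IsTe univ μ) (w : ℂ) :
    dbar (bet μ) w = ((-(Real.pi * μ w) : ℝ) : ℂ) := by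
  have h1 := gc1_of hμ
  have h2 : DifferentiableAt ℝ (CT (fun x => ((μ x : ℝ) : ℂ))) w :=
    (CT_smooth h1.smooth h1.cpt).differentiable (by simp) w
  have h3 : dbar (bet μ) w =
      -((Real.pi : ℝ) : ℂ) * dbar (CT (fun x => ((μ x : ℝ) : ℂ))) w := gc1_mul h2 _
  rw [h3, dbar_CT (h1.smooth.of_le (by simp)) h1.cpt]
  push_cast
  ring

/-- `u ∈ H¹₀(D)` smooth in `D` with `-Δu = 2πμ` (`dbar (gr u) = Δu/2`). -/
structure IsSol (D : Set ℂ) (μ u : ℂ → ℝ) : Prop where
  smooth : ContDiffOn ℝ ((⊤ : ℕ∞) : WithTop ℕ∞) u D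
  zero : ∀ x ∉ D, u x = 0
  w : IsW D u (D.indicator (gr u))
  eq : ∀ x ∈ D, dbar (gr u) x = ((-(Real.pi * μ x) : ℝ) : ℂ)

private theorem gc1_memLp {D : Set ℂ} (hD : IsOpen D) (hb : Bornology.IsBounded D) {β : ℂ → ℂ}
    (hβ : Continuous β) : MemLp (D.indicator β) 2 volume := by
  have hK : IsCompact (closure D) := hb.isCompact_closure
  obtain ⟨C, hC⟩ := hK.exists_bound_of_continuousOn hβ.continuousOn
  have hfin : volume D < ∞ := lt_of_le_of_lt (measure_mono subset_closure) hK.measure_lt_top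
  rw [memLp_indicator_iff_restrict hD.measurableSet]
  have : IsFiniteMeasure (volume.restrict D) := ⟨by rwa [Measure.restrict_apply_univ]⟩
  refine MemLp.of_bound hβ.aestronglyMeasurable C ?_
  filter_upwards [ae_restrict_mem hD.measurableSet] with x hx
  exact hC x (subset_closure hx)

/-- Existence: `exists_harm` with `β = bet μ` (bounded on the bounded set `D`); `gr u = bet μ - g`. -/
theorem exists_sol {D : Set ℂ} (hD : IsOpen D) (hb : Bornology.IsBounded D) {μ : ℂ → ℝ} (hμ : IsTe univ μ) :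
    ∃ u, IsSol D μ u := by
  have hsm := bet_smooth hμ
  obtain ⟨u, g, hu, hu0, hg, hgr, hw, -⟩ := exists_harm hD hb (β := bet μ) hsm.contDiffOn
    (fun x _ => by rw [dbar_bet hμ, Complex.ofReal_im]) (gc1_memLp hD hb hsm.continuous)
  refine ⟨u, hu, hu0, hw, fun x hx => ?_⟩
  have h1 : gr u =ᶠ[𝓝 x] fun y => bet μ y - g y := by
    filter_upwards [hD.mem_nhds hx] with y hy
    exact hgr y hy
  have h2 : DifferentiableAt ℂ g x := hg.differentiableAt (hD.mem_nhds hx)
  rw [gc1_congr h1, gc1_sub (hsm.differentiable (by simp) x) (h2.restrictScalars ℝ), dbar_bet hμ,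
    dbar_of_differentiableAt h2, sub_zero]

private theorem gc1_diff {D : Set ℂ} (hD : IsOpen D) {u : ℂ → ℝ}
    (hu : ContDiffOn ℝ ((⊤ : ℕ∞) : WithTop ℕ∞) u D) {x : ℂ} (hx : x ∈ D) : DifferentiableAt ℝ u x :=
  (hu.contDiffAt (hD.mem_nhds hx)).differentiableAt (by simp)

private theorem gc1_diffgr {D : Set ℂ} (hD : IsOpen D) {u : ℂ → ℝ}
    (hu : ContDiffOn ℝ ((⊤ : ℕ∞) : WithTop ℕ∞) u D) {x : ℂ} (hx : x ∈ D) :
    DifferentiableAt ℝ (gr u) x :=
  ((gr_smoothOn hD hu).contDiffAt (hD.mem_nhds hx)).differentiableAt (by simp)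

theorem IsSol.add {D : Set ℂ} (hD : IsOpen D) {μ ν u v : ℂ → ℝ} (h1 : IsSol D μ u) (h2 : IsSol D ν v) :
    IsSol D (fun x => μ x + ν x) (fun x => u x + v x) := by
  have hgr : ∀ x ∈ D, gr (fun x => u x + v x) x = gr u x + gr v x := fun x hx =>
    gr_add (gc1_diff hD h1.smooth hx) (gc1_diff hD h2.smooth hx)
  refine ⟨h1.smooth.add h2.smooth, fun x hx => by rw [h1.zero x hx, h2.zero x hx, add_zero], ?_, ?_⟩
  · refine (h1.w.add h2.w).congr (Eventually.of_forall fun x => rfl) (Eventually.of_forall fun x => ?_)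
    by_cases hx : x ∈ D
    · simp only [indicator_of_mem hx, hgr x hx]
    · simp only [indicator_of_notMem hx, add_zero]
  · intro x hx
    have h3 : gr (fun x => u x + v x) =ᶠ[𝓝 x] fun y => gr u y + gr v y := by
      filter_upwards [hD.mem_nhds hx] with y hy
      exact hgr y hy
    rw [gc1_congr h3, gc1_add (gc1_diffgr hD h1.smooth hx) (gc1_diffgr hD h2.smooth hx), h1.eq x hx,
      h2.eq x hx]
    push_cast
    ring

theorem IsSol.smul {D : Set ℂ} (hD : IsOpen D) {μ u : ℂ → ℝ} (h1 : IsSol D μ u) (c : ℝ) :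
    IsSol D (fun x => c * μ x) (fun x => c * u x) := by
  have hgr : ∀ x ∈ D, gr (fun x => c * u x) x = c * gr u x := fun x hx =>
    gr_smul (gc1_diff hD h1.smooth hx) c
  refine ⟨contDiffOn_const.mul h1.smooth, fun x hx => by rw [h1.zero x hx, mul_zero], ?_, ?_⟩
  · refine (h1.w.smul c).congr (Eventually.of_forall fun x => rfl) (Eventually.of_forall fun x => ?_)
    by_cases hx : x ∈ D
    · simp only [indicator_of_mem hx, hgr x hx]
    · simp only [indicator_of_notMem hx, mul_zero]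
  · intro x hx
    have h3 : gr (fun x => c * u x) =ᶠ[𝓝 x] fun y => (c : ℂ) * gr u y := by
      filter_upwards [hD.mem_nhds hx] with y hy
      exact hgr y hy
    rw [gc1_congr h3, gc1_mul (gc1_diffgr hD h1.smooth hx), h1.eq x hx]
    push_cast
    ring

private theorem gc1_int {D : Set ℂ} (hD : IsOpen D) {a b : ℂ → ℂ} (ha : ContinuousOn a D)
    (hb : Continuous b) (hc : HasCompactSupport b) (hs : tsupport b ⊆ D) :
    Integrable (fun x => a x * b x) := by
  have h1 : IntegrableOn (fun x => a x * b x) (tsupport b) :=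
    ContinuousOn.integrableOn_compact hc ((ha.mono hs).mul hb.continuousOn)
  rw [← integrableOn_iff_integrable_of_support_subset (s := tsupport b)]
  · exact h1
  · intro x hx
    refine subset_tsupport b ?_
    intro h0
    exact hx (by simp [h0])

/-- Weak form (`green` with `φ = gr u`, `dbar_ofReal`). -/
theorem IsSol.weak {D : Set ℂ} (hD : IsOpen D) {μ u : ℂ → ℝ} (h1 : IsSol D μ u) {φ : ℂ → ℝ}
    (hφ : IsTe D φ) : ∫ x in D, (conj (gr u x) * gr φ x).re = 2 * Real.pi * ∫ x in D, μ x * φ x := by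
  have hψ := gc1_of hφ
  have hsm := gr_smoothOn hD h1.smooth
  have hg := green hD (φ := gr u) (ψ := fun x => ((φ x : ℝ) : ℂ)) (hsm.of_le (by simp)) hψ
  have hd : ∀ x, dbar (fun x => ((φ x : ℝ) : ℂ)) x = conj (gr φ x) / 2 := fun x =>
    dbar_ofReal (hφ.smooth.differentiable (by simp) x)
  have hgr := hφ.gr
  -- integrability
  have hint : Integrable (fun x => gr u x * (conj (gr φ x) / 2)) := by
    refine gc1_int hD hsm.continuousOn ?_ ?_ ?_
    · have := hgr.smooth.continuous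
      fun_prop
    · exact hgr.cpt.comp_left (g := fun z => conj z / 2) (by simp)
    · refine (closure_mono ?_).trans hgr.supp
      intro x hx
      intro h0
      exact hx (by simp [h0])
  have hzero : ∀ x ∉ D, gr φ x = 0 := fun x hx =>
    image_eq_zero_of_notMem_tsupport fun h => hx (hgr.supp h)
  have hzero' : ∀ x ∉ D, φ x = 0 := fun x hx =>
    image_eq_zero_of_notMem_tsupport fun h => hx (hφ.supp h)
  have e1 : ∫ x in D, (conj (gr u x) * gr φ x).re = ∫ x, (conj (gr u x) * gr φ x).re := by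
    refine setIntegral_eq_integral_of_forall_compl_eq_zero fun x hx => ?_
    rw [hzero x hx, mul_zero, Complex.zero_re]
  have e2 : ∫ x in D, μ x * φ x = ∫ x, μ x * φ x := by
    refine setIntegral_eq_integral_of_forall_compl_eq_zero fun x hx => ?_
    rw [hzero' x hx, mul_zero]
  have e3 : ∫ x, (conj (gr u x) * gr φ x).re = 2 * (∫ x, gr u x * (conj (gr φ x) / 2)).re := by
    have h2 : (∫ x, gr u x * (conj (gr φ x) / 2)).re = ∫ x, (gr u x * (conj (gr φ x) / 2)).re :=
      (integral_re hint).symm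
    rw [h2, ← integral_const_mul]
    refine integral_congr_ae (Eventually.of_forall fun x => ?_)
    simp only [Complex.mul_re, Complex.conj_re, Complex.conj_im, Complex.div_ofNat_re,
      Complex.div_ofNat_im]
    ring
  have e4 : ∫ x, dbar (gr u) x * ((φ x : ℝ) : ℂ) = ((-Real.pi * ∫ x, μ x * φ x : ℝ) : ℂ) := by
    rw [← integral_const_mul, ← integral_complex_ofReal]
    refine integral_congr_ae (Eventually.of_forall fun x => ?_)
    by_cases hx : x ∈ D
    · simp only [h1.eq x hx]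
      push_cast
      ring
    · simp only [hzero' x hx]
      simp
  simp only [hd] at hg
  rw [e4] at hg
  rw [e1, e2, e3, hg, ← Complex.ofReal_neg, Complex.ofReal_re]
  ring

/-- `gr u` is holomorphic off the support of `μ`. -/
theorem IsSol.holo {D : Set ℂ} (hD : IsOpen D) {μ u : ℂ → ℝ} (h1 : IsSol D μ u) :
    DifferentiableOn ℂ (gr u) (D \ tsupport μ) := by
  intro x hx
  refine (differentiableAt_of_dbar (gc1_diffgr hD h1.smooth hx.1) ?_).differentiableWithinAt
  rw [h1.eq x hx.1, image_eq_zero_of_notMem_tsupport hx.2]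
  simp

end Pool.Agent.Lib.MP_79abb3_an.PD
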