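import Pool.Agent.Lib.MP_79abb3_an.PD.GDef3
import Pool.Agent.Lib.MP_79abb3_an.PD.GD1

/-!
Theorem D, block G, part E2: connectedness.
-/

set_option autoImplicit false
set_option linter.unusedSectionVars false

open MeasureTheory Set Filter Topology Function
open scoped ENNReal ComplexConjugate

namespace Pool.Agent.Lib.MP_79abb3_an.PD

open Pool.Agent.Lib.MP_79abb3_an.SC

/-- If `A` is removed from the connected open set `D` and `A` has an open neighbourhood `V ⊆ D` with `V \ A` connected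
and nonempty, then `D \ A` is connected. Proof: a partition of `D \ A` into open sets `U₁, U₂` with
`V \ A ⊆ U₁` gives the partition `U₁ ∪ V, U₂` of `D`. -/
theorem conn_remove {D A V : Set ℂ} (hD : IsOpen D) (hc : IsPreconnected D) (hA : IsOpen (D \ A))
    (hV : IsOpen V) (hVD : V ⊆ D) (hAV : A ∩ D ⊆ V) (hVA : IsConnected (V \ A)) :
    IsConnected (D \ A) := by
  refine ⟨hVA.nonempty.mono (sdiff_subset_sdiff_left hVD), ?_⟩
  rw [isPreconnected_iff_subset_of_disjoint]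
  have key : ∀ u v : Set ℂ, IsOpen u → IsOpen v → D \ A ⊆ u ∪ v → (D \ A) ∩ (u ∩ v) = ∅ →
      V \ A ⊆ u → D \ A ⊆ u ∨ D \ A ⊆ v := by
    intro u v hu hv huv hdis hVu
    have h1 := isPreconnected_iff_subset_of_disjoint.1 hc (((D \ A) ∩ u) ∪ V) ((D \ A) ∩ v)
      ((hA.inter hu).union hV) (hA.inter hv) ?_ ?_
    · rcases h1 with h1 | h1
      · left
        intro x hx
        rcases h1 hx.1 with h2 | h2
        · exact h2.2
        · exact hVu ⟨h2, hx.2⟩
      · right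
        intro x hx
        exact (h1 hx.1).2
    · intro x hx
      by_cases hxA : x ∈ A
      · exact Or.inl (Or.inr (hAV ⟨hxA, hx⟩))
      · rcases huv ⟨hx, hxA⟩ with h2 | h2
        · exact Or.inl (Or.inl ⟨⟨hx, hxA⟩, h2⟩)
        · exact Or.inr ⟨⟨hx, hxA⟩, h2⟩
    · rw [eq_empty_iff_forall_notMem]
      rintro x ⟨hx, h2, h3⟩
      have h4 : x ∈ u := by
        rcases h2 with h2 | h2
        · exact h2.2
        · exact hVu ⟨h2, h3.1.2⟩
      have : x ∈ (D \ A) ∩ (u ∩ v) := ⟨h3.1, h4, h3.2⟩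
      rw [hdis] at this
      exact this
  intro u v hu hv huv hdis
  have h5 : V \ A ⊆ D \ A := sdiff_subset_sdiff_left hVD
  have h6 := isPreconnected_iff_subset_of_disjoint.1 hVA.isPreconnected u v hu hv (h5.trans huv) (by
    rw [eq_empty_iff_forall_notMem]
    rintro x ⟨hx, h2⟩
    have : x ∈ (D \ A) ∩ (u ∩ v) := ⟨h5 hx, h2⟩
    rw [hdis] at this
    exact this)
  rcases h6 with h6 | h6
  · exact key u v hu hv huv hdis h6
  · rw [union_comm] at huv
    rw [inter_comm u v] at hdis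
    exact (key v u hv hu huv hdis h6).symm

theorem conn_annulus {r s : ℝ} (hr : 0 ≤ r) (h : r < s) (x : ℂ) :
    IsConnected {ξ : ℂ | r < ‖ξ - x‖ ∧ ‖ξ - x‖ < s} := by
  have h1 : {ξ : ℂ | r < ‖ξ - x‖ ∧ ‖ξ - x‖ < s} =
      (fun p : ℝ × ℝ => x + (p.1 : ℂ) * Complex.exp (p.2 * Complex.I)) '' (Ioo r s ×ˢ univ) := by
    ext ξ
    constructor
    · rintro ⟨h2, h3⟩
      refine ⟨(‖ξ - x‖, Complex.arg (ξ - x)), ⟨⟨h2, h3⟩, mem_univ _⟩, ?_⟩
      simp only
      rw [Complex.norm_mul_exp_arg_mul_I]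
      ring
    · rintro ⟨⟨t, θ⟩, ⟨⟨h2, h3⟩, -⟩, rfl⟩
      simp only at h2 h3
      have h4 : ‖x + (t : ℂ) * Complex.exp (θ * Complex.I) - x‖ = t := by
        rw [add_sub_cancel_left, norm_mul, Complex.norm_exp_ofReal_mul_I, mul_one, Complex.norm_real,
          Real.norm_eq_abs, abs_of_nonneg (hr.trans h2.le)]
      simp only [mem_ofPred_eq, h4]
      exact ⟨h2, h3⟩
  rw [h1]
  refine IsConnected.image ?_ _ ?_
  · exact (isConnected_Ioo h).prod isConnected_univ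
  · exact Continuous.continuousOn (by fun_prop)

theorem conn_diff_ball {D : Set ℂ} (hD : IsOpen D) (hc : IsPreconnected D) {x : ℂ} {s : ℝ} (hs : 0 ≤ s)
    (hb : Metric.closedBall x s ⊆ D) : IsConnected (D \ Metric.closedBall x s) := by
  obtain ⟨δ, hδ, hsub⟩ := (isCompact_closedBall x s).exists_thickening_subset_open hD hb
  rw [thickening_closedBall hδ hs] at hsub
  refine conn_remove hD hc (hD.sdiff Metric.isClosed_closedBall) (V := Metric.ball x (δ + s))
    Metric.isOpen_ball hsub ?_ ?_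
  · intro y hy
    have := Metric.mem_closedBall.1 hy.1
    rw [Metric.mem_ball]
    linarith
  · have h1 : Metric.ball x (δ + s) \ Metric.closedBall x s =
        {ξ : ℂ | s < ‖ξ - x‖ ∧ ‖ξ - x‖ < δ + s} := by
      ext ξ
      simp only [Set.mem_sdiff, Metric.mem_ball, Metric.mem_closedBall, dist_eq_norm, not_le, mem_ofPred_eq]
      exact and_comm
    rw [h1]
    exact conn_annulus hs (by linarith) x

private theorem ge2_ring_open (ρ : ℝ) : IsOpen (ring ρ) :=
  (isOpen_lt continuous_const continuous_norm).inter (isOpen_lt continuous_norm continuous_const)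

private theorem ge2_ring_sub {ρ : ℝ} : ring ρ ⊆ ringc ρ := fun _ h => ⟨h.1, h.2.le⟩

private theorem ge2_ringe_sub {ρ r : ℝ} (hr : ρ < r) : ringe r ⊆ ring ρ :=
  fun _ h => ⟨hr.trans_le h.1, h.2⟩

/-- `F '' ring r` is open (holomorphic, injective; `AnalyticOnNhd.is_constant_or_isOpen` or the inverse function
theorem). -/
theorem IsCollar.open_ring {D : Set ℂ} {ρ : ℝ} {F : ℂ → ℂ} (h : IsCollar D ρ F) (h0 : 0 < ρ) {O : Set ℂ}
    (hO : IsOpen O) (hOr : O ⊆ ring ρ) : IsOpen (F '' O) := by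
  have han : AnalyticOnNhd ℂ F (ring ρ) := h.holo.analyticOnNhd (ge2_ring_open ρ)
  rw [isOpen_iff_mem_nhds]
  rintro _ ⟨z, hz, rfl⟩
  have hzr := hOr hz
  rcases (han z hzr).eventually_constant_or_nhds_le_map_nhds with h1 | h1
  · exfalso
    have h2 : ∀ᶠ y in 𝓝 z, y ∈ ring ρ := (ge2_ring_open ρ).mem_nhds hzr
    have h3 : ∀ᶠ y in 𝓝 z, y = z := by
      filter_upwards [h1, h2] with y hy1 hy2
      exact h.inj (ge2_ring_sub hy2) (ge2_ring_sub hzr) hy1
    have h4 : ∃ᶠ y in 𝓝[≠] z, y = z :=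
      (eventually_nhdsWithin_of_eventually_nhds h3).frequently
    obtain ⟨y, hy1, hy2⟩ := (h4.and_eventually self_mem_nhdsWithin).exists
    exact hy2 hy1
  · exact h1 (image_mem_map (hO.mem_nhds hz))

/-- `D \ F '' {r ≤ |ξ| < 1}` is open: `F '' {r ≤ |ξ| ≤ 1}` is compact and `F (circle)` is disjoint from `D`. -/
theorem IsCollar.open_diff {D : Set ℂ} (hD : IsOpen D) {ρ : ℝ} {F : ℂ → ℂ} (h : IsCollar D ρ F)
    {r : ℝ} (hr : ρ < r) : IsOpen (D \ F '' ringe r) := by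
  have hK : IsCompact {ξ : ℂ | r ≤ ‖ξ‖ ∧ ‖ξ‖ ≤ 1} := by
    refine (isCompact_closedBall (0 : ℂ) 1).of_isClosed_subset ?_ ?_
    · exact (isClosed_le continuous_const continuous_norm).inter
        (isClosed_le continuous_norm continuous_const)
    · intro ξ hξ
      rw [mem_closedBall_zero_iff]
      exact hξ.2
  have hFK : IsCompact (F '' {ξ : ℂ | r ≤ ‖ξ‖ ∧ ‖ξ‖ ≤ 1}) := hK.image h.smooth.continuous
  have h1 : D \ F '' ringe r = D \ F '' {ξ : ℂ | r ≤ ‖ξ‖ ∧ ‖ξ‖ ≤ 1} := by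
    ext x
    constructor
    · rintro ⟨hx, hx2⟩
      refine ⟨hx, ?_⟩
      rintro ⟨ξ, ⟨h2, h3⟩, rfl⟩
      rcases h3.lt_or_eq with h4 | h4
      · exact hx2 ⟨ξ, ⟨h2, h4⟩, rfl⟩
      · have h5 : F ξ ∈ frontier D := h.bdry ⟨ξ, by rwa [mem_sphere_zero_iff_norm], rfl⟩
        rw [hD.frontier_eq] at h5
        exact h5.2 hx
    · rintro ⟨hx, hx2⟩
      refine ⟨hx, ?_⟩
      rintro ⟨ξ, ⟨h2, h3⟩, rfl⟩
      exact hx2 ⟨ξ, ⟨h2, h3.le⟩, rfl⟩
  rw [h1]
  exact hD.sdiff hFK.isClosed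

private theorem ge2_open {D : Set ℂ} (hD : IsOpen D) {n : ℕ} {ρ : ℝ} {F : Fin n → ℂ → ℂ}
    (h : IsCols D n ρ F) {r : ℝ} (hr : ρ < r) (S : Finset (Fin n)) :
    IsOpen (D \ ⋃ j ∈ S, F j '' ringe r) := by
  classical
  induction S using Finset.induction_on with
  | empty => simpa using hD
  | insert a S _ ih =>
    have h1 : D \ ⋃ j ∈ insert a S, F j '' ringe r =
        (D \ F a '' ringe r) ∩ (D \ ⋃ j ∈ S, F j '' ringe r) := by
      rw [Finset.set_biUnion_insert]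
      ext x
      simp only [Set.mem_sdiff, mem_union, mem_inter_iff]
      tauto
    rw [h1]
    exact ((h.col a).open_diff hD hr).inter ih

theorem core_open {D : Set ℂ} (hD : IsOpen D) {n : ℕ} {ρ : ℝ} {F : Fin n → ℂ → ℂ} (h : IsCols D n ρ F)
    {r : ℝ} (hr : ρ < r) (x : ℂ) (t : ℝ) : IsOpen (core D F r x t) := by
  have h1 := ge2_open hD h hr Finset.univ
  simp only [Finset.mem_univ, iUnion_true] at h1
  exact h1.sdiff Metric.isClosed_closedBall

private theorem ge2_conn {D : Set ℂ} (hD : IsOpen D) (hc : IsConnected D) {n : ℕ} {ρ : ℝ}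
    {F : Fin n → ℂ → ℂ} (h : IsCols D n ρ F) {r : ℝ} (hr : ρ < r) (hr1 : r < 1)
    (S : Finset (Fin n)) : IsConnected (D \ ⋃ j ∈ S, F j '' ringe r) := by
  classical
  induction S using Finset.induction_on with
  | empty => simpa using hc
  | insert a S haS ih =>
    have h1 : D \ ⋃ j ∈ insert a S, F j '' ringe r =
        (D \ ⋃ j ∈ S, F j '' ringe r) \ F a '' ringe r := by
      rw [Finset.set_biUnion_insert]
      ext x
      simp only [Set.mem_sdiff, mem_union]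
      tauto
    have hop := ge2_open hD h hr (insert a S)
    rw [h1] at hop ⊢
    refine conn_remove (V := F a '' ring ρ) (ge2_open hD h hr S) ih.isPreconnected hop
      ((h.col a).open_ring h.h0 (ge2_ring_open ρ) subset_rfl) ?_ ?_ ?_
    · rintro _ ⟨ξ, hξ, rfl⟩
      refine ⟨(h.col a).sub ⟨ξ, hξ, rfl⟩, ?_⟩
      rw [mem_iUnion₂]
      rintro ⟨j, hj, hj2⟩
      have hja : j ≠ a := by
        rintro rfl
        exact haS hj
      have h2 := h.dis hja
      have h3 : F a ξ ∈ F j '' ringc ρ :=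
        image_mono ((ge2_ringe_sub hr).trans ge2_ring_sub) hj2
      exact (disjoint_left.1 h2) h3 ⟨ξ, ge2_ring_sub hξ, rfl⟩
    · rintro x ⟨hx, -⟩
      exact image_mono (ge2_ringe_sub hr) hx
    · have h4 : F a '' ring ρ \ F a '' ringe r = F a '' {ξ : ℂ | ρ < ‖ξ - 0‖ ∧ ‖ξ - 0‖ < r} := by
        ext x
        constructor
        · rintro ⟨⟨ξ, hξ, rfl⟩, hx⟩
          refine ⟨ξ, ⟨by rw [sub_zero]; exact hξ.1, ?_⟩, rfl⟩
          rw [sub_zero]
          by_contra h5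
          exact hx ⟨ξ, ⟨not_lt.1 h5, hξ.2⟩, rfl⟩
        · rintro ⟨ξ, ⟨h5, h6⟩, rfl⟩
          rw [sub_zero] at h5 h6
          have hξ : ξ ∈ ring ρ := ⟨h5, h6.trans hr1⟩
          refine ⟨⟨ξ, hξ, rfl⟩, ?_⟩
          rintro ⟨η, hη, h7⟩
          have h8 := (h.col a).inj (ge2_ring_sub (ge2_ringe_sub hr hη)) (ge2_ring_sub hξ) h7
          rw [h8] at hη
          exact absurd hη.1 (not_le.2 h6)
      rw [h4]
      exact (conn_annulus h.h0.le hr 0).image _ (h.col a).smooth.continuous.continuousOn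

/-- Remove the rings one after the other (`conn_remove` with `A = F j '' ringe r`, `V = F j '' ring ρ`,
`V \ A = F j '' {ρ < |ξ| < r}` connected), then the ball. -/
theorem core_conn {D : Set ℂ} (hD : IsOpen D) (hc : IsPreconnected D) {n : ℕ} {ρ : ℝ}
    {F : Fin n → ℂ → ℂ} (h : IsCols D n ρ F) {r : ℝ} (hr : ρ < r) (hr1 : r < 1) {x : ℂ} {t t' : ℝ}
    (ht : 0 < t) (htt : t < t') (hb : Metric.closedBall x t' ⊆ D)
    (hbr : ∀ j, Disjoint (Metric.closedBall x t') (F j '' ring ρ)) :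
    IsConnected (core D F r x t) := by
  have hne : IsConnected D := ⟨⟨x, hb (Metric.mem_closedBall_self (ht.trans htt).le)⟩, hc⟩
  have h1 := ge2_conn hD hne h hr hr1 Finset.univ
  have h2 := ge2_open hD h hr Finset.univ
  simp only [Finset.mem_univ, iUnion_true] at h1 h2
  refine conn_diff_ball h2 h1.isPreconnected ht.le ?_
  intro y hy
  have hy' : y ∈ Metric.closedBall x t' := Metric.closedBall_subset_closedBall htt.le hy
  refine ⟨hb hy', ?_⟩
  rw [mem_iUnion]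
  rintro ⟨j, hj⟩
  exact (disjoint_left.1 (hbr j)) hy' (image_mono (ge2_ringe_sub hr) hj)

/-- The closure of the core is contained in `D` and disjoint from `F j '' {r < |ξ| ≤ 1}`. -/
theorem core_closure {D : Set ℂ} (hD : IsOpen D) {n : ℕ} {ρ : ℝ} {F : Fin n → ℂ → ℂ}
    (h : IsCols D n ρ F) {r : ℝ} (hr : ρ < r) (hr1 : r < 1) (x : ℂ) (t : ℝ) :
    closure (core D F r x t) ⊆ D ∧ Disjoint (closure (core D F r x t)) (Metric.ball x t) ∧
      ∀ j, Disjoint (F j '' {ξ | r < ‖ξ‖ ∧ ‖ξ‖ < 1}) (closure (core D F r x t)) := by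
  have h1 : core D F r x t ⊆ D \ ⋃ j, F j '' ring r := by
    rintro y ⟨⟨hy, hy2⟩, -⟩
    refine ⟨hy, fun hy3 => hy2 ?_⟩
    rw [mem_iUnion] at hy3 ⊢
    obtain ⟨j, hj⟩ := hy3
    obtain ⟨ξ, hξ, hξ2⟩ := hj
    exact ⟨j, ξ, ⟨hξ.1.le, hξ.2⟩, hξ2⟩
  have h2 : closure (core D F r x t) ⊆ D \ ⋃ j, F j '' ring r :=
    closure_minimal h1 (h.cpt r hr hr1).isClosed
  refine ⟨h2.trans sdiff_subset, ?_, ?_⟩
  · have h3 : closure (core D F r x t) ⊆ (Metric.ball x t)ᶜ := by
      refine closure_minimal ?_ Metric.isOpen_ball.isClosed_compl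
      intro y hy hy2
      exact hy.2 (Metric.ball_subset_closedBall hy2)
    exact disjoint_left.2 fun y hy hy2 => h3 hy hy2
  · intro j
    refine disjoint_left.2 fun y hy hy2 => ?_
    exact (h2 hy2).2 (mem_iUnion.2 ⟨j, hy⟩)

/-- Shrinking of collars. -/
theorem IsCols.mono {D : Set ℂ} {n : ℕ} {ρ ρ' : ℝ} {F : Fin n → ℂ → ℂ} (h : IsCols D n ρ F)
    (h' : ρ ≤ ρ') (h1 : ρ' < 1) : IsCols D n ρ' F where
  h0 := h.h0.trans_le h'
  h1 := h1
  col j := (h.col j).mono h'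
  dis := by
    intro i j hij
    have hs : ringc ρ' ⊆ ringc ρ := fun ξ hξ => ⟨h'.trans_lt hξ.1, hξ.2⟩
    exact (h.dis hij).mono (image_mono hs) (image_mono hs)
  cpt r hr hr1 := h.cpt r (h'.trans_lt hr) hr1

/-- Collars avoid a compact subset of `D` after shrinking (`IsCollar.avoid`, finitely many `j`). -/
theorem IsCols.avoid {D : Set ℂ} (hD : IsOpen D) {n : ℕ} {ρ : ℝ} {F : Fin n → ℂ → ℂ}
    (h : IsCols D n ρ F) {T : Set ℂ} (hT : IsCompact T) (hTD : T ⊆ D) :
    ∃ ρ', ρ < ρ' ∧ ρ' < 1 ∧ ∀ j, Disjoint T (F j '' ring ρ') := by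
  classical
  choose r hr1 hr2 hr3 using fun j => (h.col j).avoid hD h.h0 h.h1 hT hTD
  set s : Finset ℝ := insert ((ρ + 1) / 2) (Finset.univ.image r) with hs
  have hsne : s.Nonempty := Finset.insert_nonempty _ _
  have hmem := s.max'_mem hsne
  have hρ1 := h.h1
  have hb : ρ < s.max' hsne ∧ s.max' hsne < 1 := by
    have hmem' : s.max' hsne = (ρ + 1) / 2 ∨ s.max' hsne ∈ Finset.univ.image r :=
      Finset.mem_insert.1 hmem
    rw [Finset.mem_image] at hmem'
    rcases hmem' with h5 | ⟨j, -, h5⟩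
    · rw [h5]
      constructor <;> linarith
    · rw [← h5]
      exact ⟨hr1 j, hr2 j⟩
  refine ⟨s.max' hsne, hb.1, hb.2, fun j => ?_⟩
  have hj : r j ≤ s.max' hsne := s.le_max' _ (by
    rw [hs, Finset.mem_insert, Finset.mem_image]
    exact Or.inr ⟨j, Finset.mem_univ _, rfl⟩)
  refine disjoint_left.2 fun y hy hy2 => ?_
  obtain ⟨ξ, hξ, rfl⟩ := hy2
  exact hr3 j ξ (hj.trans hξ.1.le) hξ.2.le hy

end Pool.Agent.Lib.MP_79abb3_an.PD
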