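import Pool.Agent.Lib.MP_79abb3_an.PD.GE1
import Pool.Agent.Lib.MP_79abb3_an.PD.GE2
import Pool.Agent.Lib.MP_79abb3_an.PD.GD4
import Pool.Agent.Lib.MP_79abb3_an.PD.GC1

/-!
Theorem D, block G, part E3: positivity of solutions.
-/

set_option autoImplicit false
set_option linter.unusedSectionVars false

open MeasureTheory Set Filter Topology Function
open scoped ENNReal ComplexConjugate

namespace Pool.Agent.Lib.MP_79abb3_an.PD

open Pool.Agent.Lib.MP_79abb3_an.SC

/-- Solutions are small near the boundary (`small_near` in every collar, after shrinking the collars so that they avoid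
the support of `μ`: there `gr u` is holomorphic by `IsSol.holo`). -/
theorem IsSol.small {D : Set ℂ} (hD : IsOpen D) {n : ℕ} {ρ : ℝ} {F : Fin n → ℂ → ℂ}
    (hF : IsCols D n ρ F) {μ u : ℂ → ℝ} (h : IsSol D μ u) (hμ : IsTe D μ) {ε : ℝ} (hε : 0 < ε) :
    ∃ K : Set ℂ, IsCompact K ∧ K ⊆ D ∧ ∀ x, x ∉ K → |u x| < ε := by
  obtain ⟨ρ', hρ, hρ1, hdis⟩ := hF.avoid hD hμ.cpt hμ.supp
  have hF' : IsCols D n ρ' F := hF.mono hρ.le hρ1
  have hsm : ∀ j, ∃ r, ρ' < r ∧ r < 1 ∧ ∀ ξ ∈ ring r, |u (F j ξ)| < ε := by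
    intro j
    refine small_near hD hF'.h0 hF'.h1 (hF'.col j) h.smooth h.w ?_ hε
    refine (h.holo hD).mono fun y hy => ⟨(hF'.col j).sub hy, fun hy' => ?_⟩
    exact (Set.disjoint_left.1 (hdis j)) hy' hy
  choose r hr hr1 hru using hsm
  have hR : ∃ R, ρ' < R ∧ R < 1 ∧ ∀ j, r j < R := by
    have h2 : ∀ᶠ R in 𝓝[<] (1 : ℝ), R < 1 := self_mem_nhdsWithin
    have h3 : ∀ᶠ R in 𝓝[<] (1 : ℝ), ρ' < R :=
      Filter.Eventually.filter_mono nhdsWithin_le_nhds (eventually_gt_nhds hρ1)
    have h4 : ∀ᶠ R in 𝓝[<] (1 : ℝ), ∀ j, r j < R :=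
      eventually_all.2 fun j =>
        Filter.Eventually.filter_mono nhdsWithin_le_nhds (eventually_gt_nhds (hr1 j))
    obtain ⟨R, h5, h6, h7⟩ := (h2.and (h3.and h4)).exists
    exact ⟨R, h6, h5, h7⟩
  obtain ⟨R, hR, hR1, hrR⟩ := hR
  refine ⟨D \ ⋃ j, F j '' ring R, hF'.cpt R hR hR1, sdiff_subset, fun x hx => ?_⟩
  by_cases hxD : x ∈ D
  · have h2 : x ∈ ⋃ j, F j '' ring R := by
      by_contra h3
      exact hx ⟨hxD, h3⟩
    obtain ⟨j, ξ, hξ, rfl⟩ := mem_iUnion.1 h2
    exact hru j ξ ⟨(hrR j).trans hξ.1, hξ.2⟩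
  · rw [h.zero x hxD, abs_zero]
    exact hε

theorem IsSol.cont {D : Set ℂ} (hD : IsOpen D) {n : ℕ} {ρ : ℝ} {F : Fin n → ℂ → ℂ}
    (hF : IsCols D n ρ F) {μ u : ℂ → ℝ} (h : IsSol D μ u) (hμ : IsTe D μ) : Continuous u := by
  rw [continuous_iff_continuousAt]
  intro x
  by_cases hxD : x ∈ D
  · exact (h.smooth.continuousOn).continuousAt (hD.mem_nhds hxD)
  · rw [Metric.continuousAt_iff']
    intro ε hε
    obtain ⟨K, hK, hKD, hu⟩ := h.small hD hF hμ hε
    filter_upwards [hK.isClosed.isOpen_compl.mem_nhds fun hx => hxD (hKD hx)] with y hy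
    rw [h.zero x hxD, Real.dist_eq, sub_zero]
    exact hu y hy

theorem IsSol.nonneg {D : Set ℂ} (hD : IsOpen D) (hb : Bornology.IsBounded D) {n : ℕ} {ρ : ℝ}
    {F : Fin n → ℂ → ℂ} (hF : IsCols D n ρ F) {μ u : ℂ → ℝ} (h : IsSol D μ u) (hμ : IsTe D μ)
    (h0 : ∀ x, 0 ≤ μ x) : ∀ x, 0 ≤ u x := by
  have h1 : ∀ x ∈ D, 0 ≤ u x := by
    refine min_principle hD hb (h.cont hD hF hμ).continuousOn h.smooth (fun x hx => ?_) fun x hx => ?_
    · rw [h.eq x hx, Complex.ofReal_re]
      have := mul_nonneg Real.pi_pos.le (h0 x)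
      linarith
    · have hx' : x ∉ D := fun h' => (hD.frontier_eq ▸ hx).2 h'
      rw [h.zero x hx']
  intro x
  by_cases hx : x ∈ D
  · exact h1 x hx
  · rw [h.zero x hx]

/-- Strict positivity off the ball: the zero set in `X = D \ closedBall x s` is open (`harm_zero`) and closed, `X` is
connected (`conn_diff_ball`); if `u = 0` on `X`, then `2π ∫ μ = 0` by `IsSol.weak` with a test function `φ` equal to
`1` near the closed ball, so `μ = 0`. -/
theorem IsSol.pos {D : Set ℂ} (hD : IsOpen D) (hc : IsPreconnected D) (hb : Bornology.IsBounded D) {n : ℕ}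
    {ρ : ℝ} {F : Fin n → ℂ → ℂ} (hF : IsCols D n ρ F) {μ u : ℂ → ℝ} (h : IsSol D μ u) {x : ℂ} {s : ℝ}
    (hs : 0 < s) (hbD : Metric.closedBall x s ⊆ D) (hμ : IsTe (Metric.ball x s) μ) (h0 : ∀ x, 0 ≤ μ x)
    (hne : ∃ y, μ y ≠ 0) : ∀ y ∈ D \ Metric.closedBall x s, 0 < u y := by
  have hμD : IsTe D μ := hμ.mono (Metric.ball_subset_closedBall.trans hbD)
  have hnn := h.nonneg hD hb hF hμD h0
  have hcu := h.cont hD hF hμD
  set X : Set ℂ := D \ Metric.closedBall x s with hX
  have hXo : IsOpen X := hD.sdiff Metric.isClosed_closedBall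
  have hXc : IsConnected X := conn_diff_ball hD hc hs.le hbD
  have hXh : DifferentiableOn ℂ (gr u) X :=
    (h.holo hD).mono fun y hy => ⟨hy.1, fun hy' => hy.2 (Metric.ball_subset_closedBall (hμ.supp hy'))⟩
  intro y hy
  refine lt_of_le_of_ne (hnn y) fun hy0 => ?_
  -- the zero set
  set Z : Set ℂ := X ∩ {z | u z = 0} with hZ
  have hZo : IsOpen Z := by
    rw [isOpen_iff_mem_nhds]
    intro z hz
    have h2 := harm_zero hXo (h.smooth.mono sdiff_subset) hXh (fun w _ => hnn w) hz.1 hz.2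
    exact Filter.inter_mem (hXo.mem_nhds hz.1) h2
  have hZc : closure Z ∩ X ⊆ Z := by
    rintro z ⟨hz1, hz2⟩
    refine ⟨hz2, ?_⟩
    have h3 : closure Z ⊆ {z | u z = 0} :=
      closure_minimal inter_subset_right (isClosed_eq hcu continuous_const)
    exact h3 hz1
  have hXZ : X ⊆ Z := hXc.isPreconnected.subset_of_closure_inter_subset hZo ⟨y, hy, hy, hy0.symm⟩ hZc
  have hu0 : ∀ z ∈ X, u z = 0 := fun z hz => (hXZ hz).2
  -- the test function
  obtain ⟨δ, hδ, hδD⟩ := (isCompact_closedBall x s).exists_cthickening_subset_open hD hbD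
  rw [cthickening_closedBall hδ.le hs.le] at hδD
  let f : ContDiffBump x := ⟨s + δ / 2, s + δ, by positivity, by linarith⟩
  have hf : IsTe D (fun z => f z) := by
    refine ⟨f.contDiff, f.hasCompactSupport, ?_⟩
    show tsupport f ⊆ D
    rw [f.tsupport_eq]
    intro z hz
    refine hδD ?_
    rw [Metric.mem_closedBall] at hz ⊢
    have : f.rOut = s + δ := rfl
    linarith
  have hweak := h.weak hD hf
  have hl : ∫ z in D, (conj (gr u z) * gr (fun z => f z) z).re = 0 := by
    rw [← integral_zero (α := ℂ) (μ := volume.restrict D) (G := ℝ)]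
    refine setIntegral_congr_fun hD.measurableSet fun z hz => ?_
    by_cases h4 : z ∈ Metric.ball x (s + δ / 2)
    · have h5 : gr (fun z => f z) z = 0 := by
        have h6 : (fun z => f z) =ᶠ[𝓝 z] fun _ => (1 : ℝ) :=
          Filter.eventuallyEq_of_mem (Metric.isOpen_ball.mem_nhds h4) fun w hw =>
            f.one_of_mem_closedBall (Metric.ball_subset_closedBall hw)
        rw [gr_congr h6, gr]
        simp only [fderiv_fun_const, Pi.zero_apply, zero_apply, neg_zero]
        rfl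
      simp only [h5, mul_zero, Complex.zero_re]
    · have h7 : z ∈ X := by
        refine ⟨hz, fun h8 => h4 ?_⟩
        rw [Metric.mem_closedBall] at h8
        rw [Metric.mem_ball]
        linarith
      have h5 : gr u z = 0 := by
        have h6 : u =ᶠ[𝓝 z] fun _ => (0 : ℝ) := Filter.eventuallyEq_of_mem (hXo.mem_nhds h7) hu0
        rw [gr_congr h6, gr]
        simp only [fderiv_fun_const, Pi.zero_apply, zero_apply, neg_zero]
        rfl
      simp only [h5, map_zero, zero_mul, Complex.zero_re]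
  have hrr : ∫ z in D, μ z * f z = ∫ z, μ z := by
    rw [setIntegral_eq_integral_of_forall_compl_eq_zero]
    · refine integral_congr_ae (Filter.Eventually.of_forall fun z => ?_)
      by_cases h4 : z ∈ Metric.closedBall x (s + δ / 2)
      · have h5 : f z = 1 := f.one_of_mem_closedBall h4
        simp only [h5, mul_one]
      · have h5 : μ z = 0 := by
          refine image_eq_zero_of_notMem_tsupport fun h6 => h4 ?_
          refine Metric.ball_subset_closedBall (Metric.ball_subset_ball ?_ (hμ.supp h6))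
          linarith
        simp only [h5, zero_mul]
    · intro z hz
      rw [image_eq_zero_of_notMem_tsupport fun h6 => hz (hμD.supp h6), zero_mul]
  obtain ⟨w, hw⟩ := hne
  have hpos : 0 < ∫ z, μ z :=
    hμ.smooth.continuous.integral_pos_of_hasCompactSupport_nonneg_nonzero hμ.cpt (fun z => h0 z) hw
  rw [hl, hrr] at hweak
  have := mul_pos (mul_pos two_pos Real.pi_pos) hpos
  linarith

end Pool.Agent.Lib.MP_79abb3_an.PD
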