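import Pool.Agent.Lib.MP_79abb3_an.PD.GG2
import Pool.Agent.Lib.MP_79abb3_an.PD.GE3

/-!
Theorem D, block G, part G3: gluing; the function E on the domain.
-/

set_option autoImplicit false
set_option linter.unusedSectionVars false

open MeasureTheory Set Filter Topology Function
open scoped ENNReal ComplexConjugate

namespace Pool.Agent.Lib.MP_79abb3_an.PD

open Pool.Agent.Lib.MP_79abb3_an.SC

/-- Two solutions of `E' = -g E` on a connected open set are proportional. -/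
theorem E_unique {C : Set ℂ} (hC : IsOpen C) (hc : IsPreconnected C) {g E E' : ℂ → ℂ}
    (h : ∀ z ∈ C, E z ≠ 0 ∧ HasDerivAt E (-(g z) * E z) z)
    (h' : ∀ z ∈ C, E' z ≠ 0 ∧ HasDerivAt E' (-(g z) * E' z) z) : ∃ c : ℂ, c ≠ 0 ∧ ∀ z ∈ C, E z = c * E' z := by
  have hd : ∀ z ∈ C, HasDerivAt (fun w => E w / E' w) 0 z := by
    intro z hz
    have h1 := (h z hz).2.div (h' z hz).2 (h' z hz).1
    refine h1.congr_deriv ?_
    have h2 := (h' z hz).1
    field_simp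
    ring
  rcases C.eq_empty_or_nonempty with rfl | ⟨x₀, hx₀⟩
  · exact ⟨1, one_ne_zero, fun z hz => absurd hz (notMem_empty z)⟩
  · refine ⟨E x₀ / E' x₀, div_ne_zero (h x₀ hx₀).1 (h' x₀ hx₀).1, fun z hz => ?_⟩
    have h1 : E z / E' z = E x₀ / E' x₀ := by
      refine hC.is_const_of_deriv_eq_zero hc
        (fun w hw => (hd w hw).differentiableAt.differentiableWithinAt) (fun w hw => ?_) hz hx₀
      exact (hd w hw).deriv
    rw [← h1, div_mul_cancel₀ _ (h' z hz).1]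

/-- **Gluing** over an increasing sequence of connected open sets: normalise `E_m (x₀) = 1` at a point `x₀ ∈ C 0`. -/
theorem E_glue {C : ℕ → Set ℂ} (hC : ∀ m, IsOpen (C m)) (hc : ∀ m, IsPreconnected (C m)) (hm : Monotone C)
    (h0 : (C 0).Nonempty) {g : ℂ → ℂ}
    (h : ∀ m, ∃ E : ℂ → ℂ, ∀ z ∈ C m, E z ≠ 0 ∧ HasDerivAt E (-(g z) * E z) z) :
    ∃ E : ℂ → ℂ, ∀ z ∈ ⋃ m, C m, E z ≠ 0 ∧ HasDerivAt E (-(g z) * E z) z := by
  classical
  obtain ⟨x₀, hx₀⟩ := h0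
  choose E hE using h
  have hx : ∀ m, x₀ ∈ C m := fun m => hm (Nat.zero_le m) hx₀
  let e : ℕ → ℂ → ℂ := fun m z => E m z / E m x₀
  have he : ∀ m, ∀ z ∈ C m, e m z ≠ 0 ∧ HasDerivAt (e m) (-(g z) * e m z) z := by
    intro m z hz
    refine ⟨div_ne_zero (hE m z hz).1 (hE m x₀ (hx m)).1, ?_⟩
    refine ((hE m z hz).2.div_const (E m x₀)).congr_deriv ?_
    show -(g z) * E m z / E m x₀ = -(g z) * (E m z / E m x₀)
    ring
  have he0 : ∀ m, e m x₀ = 1 := fun m => div_self (hE m x₀ (hx m)).1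
  have hcons : ∀ m m', m ≤ m' → ∀ z ∈ C m, e m z = e m' z := by
    intro m m' hmm z hz
    obtain ⟨c, -, h2⟩ := E_unique (hC m) (hc m) (he m) (fun w hw => he m' w (hm hmm hw))
    have h3 := h2 x₀ (hx m)
    rw [he0, he0, mul_one] at h3
    rw [h2 z hz, ← h3, one_mul]
  let G : ℂ → ℂ := fun z => if hz : ∃ m, z ∈ C m then e (Nat.find hz) z else 0
  have hG : ∀ m, ∀ z ∈ C m, G z = e m z := by
    intro m z hz
    have hz' : ∃ m, z ∈ C m := ⟨m, hz⟩
    have h1 : G z = e (Nat.find hz') z := dif_pos hz'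
    rw [h1]
    exact hcons _ _ (Nat.find_min' hz' hz) z (Nat.find_spec hz')
  refine ⟨G, fun z hz => ?_⟩
  obtain ⟨m, hzm⟩ := mem_iUnion.1 hz
  rw [hG m z hzm]
  refine ⟨(he m z hzm).1, (he m z hzm).2.congr_of_eventuallyEq ?_⟩
  filter_upwards [(hC m).mem_nhds hzm] with w hw
  exact hG m w hw

/-- The modulus: `|E| exp u` is locally constant (`d log|E| = Re (E'/E dz)`, `du = Re (gr u dz)`). -/
theorem E_norm {X : Set ℂ} (hX : IsOpen X) (hc : IsPreconnected X) (hne : X.Nonempty) {u : ℂ → ℝ}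
    (hu : ContDiffOn ℝ ((⊤ : ℕ∞) : WithTop ℕ∞) u X) {E : ℂ → ℂ}
    (h : ∀ z ∈ X, E z ≠ 0 ∧ HasDerivAt E (-(gr u z) * E z) z) :
    ∃ c : ℝ, 0 < c ∧ ∀ z ∈ X, ‖E z‖ = c * Real.exp (-u z) := by
  have hN : ∀ z ∈ X, HasFDerivAt (fun w => ‖E w‖ ^ 2 * Real.exp (2 * u w)) (0 : ℂ →L[ℝ] ℝ) z := by
    intro z hz
    obtain ⟨-, h2⟩ := h z hz
    have h3 : HasFDerivAt E (((1 : ℂ →L[ℂ] ℂ).smulRight (-(gr u z) * E z)).restrictScalars ℝ) z :=
      h2.hasFDerivAt.restrictScalars ℝ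
    have h4 := h3.norm_sq
    have hu1 : HasFDerivAt u (fderiv ℝ u z) z :=
      ((hu.contDiffAt (hX.mem_nhds hz)).differentiableAt (by simp)).hasFDerivAt
    have h5 := ((hu1.const_mul 2).exp)
    refine (h4.mul h5).congr_fderiv ?_
    ext v
    have hlin : fderiv ℝ u z v = (v * gr u z).re := by
      have hv : v = v.re • (1 : ℂ) + v.im • Complex.I := by
        apply Complex.ext <;> simp
      conv_lhs => rw [hv]
      rw [map_add, map_smul, map_smul, gr, Complex.mul_re]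
      simp only [smul_eq_mul]
      ring
    simp only [add_apply, smul_apply, ContinuousLinearMap.comp_apply, innerSL_apply_apply,
      ContinuousLinearMap.coe_restrictScalars', ContinuousLinearMap.smulRight_apply,
      one_apply_eq_self, Complex.inner, smul_eq_mul, hlin, zero_apply, nsmul_eq_mul]
    have h6 : ‖E z‖ ^ 2 = (E z).re ^ 2 + (E z).im ^ 2 := by
      rw [← Complex.normSq_eq_norm_sq, Complex.normSq_apply]
      ring
    rw [h6]
    simp only [Complex.mul_re, Complex.mul_im, Complex.conj_re, Complex.conj_im, Complex.neg_re,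
      Complex.neg_im]
    push_cast
    ring
  obtain ⟨x₀, hx₀⟩ := hne
  have hpos : 0 < ‖E x₀‖ ^ 2 * Real.exp (2 * u x₀) :=
    mul_pos (pow_pos (norm_pos_iff.2 (h x₀ hx₀).1) 2) (Real.exp_pos _)
  refine ⟨Real.sqrt (‖E x₀‖ ^ 2 * Real.exp (2 * u x₀)), Real.sqrt_pos.2 hpos, fun z hz => ?_⟩
  have h1 : ‖E z‖ ^ 2 * Real.exp (2 * u z) = ‖E x₀‖ ^ 2 * Real.exp (2 * u x₀) := by
    refine hX.is_const_of_fderiv_eq_zero (𝕜 := ℝ) hc
      (fun w hw => (hN w hw).differentiableAt.differentiableWithinAt) (fun w hw => ?_) hz hx₀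
    exact (hN w hw).fderiv
  rw [← h1]
  have h2 : ‖E z‖ ^ 2 * Real.exp (2 * u z) = (‖E z‖ * Real.exp (u z)) ^ 2 := by
    rw [mul_pow, ← Real.exp_nat_mul]
    norm_num
  rw [h2, Real.sqrt_sq (by positivity), mul_assoc, ← Real.exp_add, add_neg_cancel, Real.exp_zero,
    mul_one]

/-- The cores exhaust `X = D \ closedBall x s`: `r_m → 1`, `t_m → s`. -/
theorem core_exhaust {D : Set ℂ} {n : ℕ} {ρ : ℝ} {F : Fin n → ℂ → ℂ} (hF : IsCols D n ρ F) (x : ℂ)
    {s t : ℝ} (hst : s < t) : ∃ (r : ℕ → ℝ) (τ : ℕ → ℝ), (∀ m, ρ < r m ∧ r m < 1) ∧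
      (∀ m, s < τ m ∧ τ m < t) ∧ Monotone (fun m => core D F (r m) x (τ m)) ∧
      ⋃ m, core D F (r m) x (τ m) = D \ Metric.closedBall x s := by
  have hρ := hF.h0
  have hρ1 := hF.h1
  let r : ℕ → ℝ := fun m => 1 - (1 - ρ) / (m + 2)
  let τ : ℕ → ℝ := fun m => s + (t - s) / (m + 2)
  have hr : ∀ m, ρ < r m ∧ r m < 1 := by
    intro m
    have h1 : (0 : ℝ) < (m : ℝ) + 2 := by positivity
    have h2 : (1 - ρ) / ((m : ℝ) + 2) < 1 - ρ := by
      rw [div_lt_iff₀ h1]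
      have : (1 - ρ) * 1 < (1 - ρ) * ((m : ℝ) + 2) := by
        have : (0 : ℝ) ≤ m := Nat.cast_nonneg m
        nlinarith
      linarith
    have h3 : 0 < (1 - ρ) / ((m : ℝ) + 2) := div_pos (by linarith) h1
    exact ⟨by show ρ < 1 - (1 - ρ) / (m + 2); linarith, by show 1 - (1 - ρ) / ((m : ℝ) + 2) < 1; linarith⟩
  have hτ : ∀ m, s < τ m ∧ τ m < t := by
    intro m
    have h1 : (0 : ℝ) < (m : ℝ) + 2 := by positivity
    have h2 : (t - s) / ((m : ℝ) + 2) < t - s := by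
      rw [div_lt_iff₀ h1]
      have : (0 : ℝ) ≤ m := Nat.cast_nonneg m
      nlinarith
    have h3 : 0 < (t - s) / ((m : ℝ) + 2) := div_pos (by linarith) h1
    exact ⟨by show s < s + (t - s) / (m + 2); linarith, by show s + (t - s) / ((m : ℝ) + 2) < t; linarith⟩
  have hrm : ∀ m m', m ≤ m' → r m ≤ r m' := by
    intro m m' hmm
    have h1 : (m : ℝ) ≤ m' := by exact_mod_cast hmm
    have h2 : (1 - ρ) / ((m' : ℝ) + 2) ≤ (1 - ρ) / ((m : ℝ) + 2) :=
      div_le_div_of_nonneg_left (by linarith) (by positivity) (by linarith)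
    show 1 - (1 - ρ) / ((m : ℝ) + 2) ≤ 1 - (1 - ρ) / ((m' : ℝ) + 2)
    linarith
  have hτm : ∀ m m', m ≤ m' → τ m' ≤ τ m := by
    intro m m' hmm
    have h1 : (m : ℝ) ≤ m' := by exact_mod_cast hmm
    have h2 : (t - s) / ((m' : ℝ) + 2) ≤ (t - s) / ((m : ℝ) + 2) :=
      div_le_div_of_nonneg_left (by linarith) (by positivity) (by linarith)
    show s + (t - s) / ((m' : ℝ) + 2) ≤ s + (t - s) / ((m : ℝ) + 2)
    linarith
  have hinv : Tendsto (fun m : ℕ => ((m : ℝ) + 2)⁻¹) atTop (𝓝 0) :=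
    (tendsto_natCast_atTop_atTop.atTop_add (tendsto_const_nhds (x := (2 : ℝ)))).inv_tendsto_atTop
  have hrl : Tendsto r atTop (𝓝 1) := by
    have h1 := (hinv.const_mul (1 - ρ)).const_sub 1
    rw [mul_zero, sub_zero] at h1
    exact h1.congr fun m => by simp only [r, div_eq_mul_inv]
  have hτl : Tendsto τ atTop (𝓝 s) := by
    have h1 := (hinv.const_mul (t - s)).const_add s
    rw [mul_zero, add_zero] at h1
    exact h1.congr fun m => by simp only [τ, div_eq_mul_inv]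
  refine ⟨r, τ, hr, hτ, ?_, ?_⟩
  · intro m m' hmm z hz
    obtain ⟨⟨h1, h2⟩, h3⟩ := hz
    refine ⟨⟨h1, fun h4 => h2 ?_⟩, fun h4 => h3 ?_⟩
    · obtain ⟨j, ξ, hξ, hz⟩ := mem_iUnion.1 h4
      exact mem_iUnion.2 ⟨j, ξ, ⟨(hrm m m' hmm).trans hξ.1, hξ.2⟩, hz⟩
    · exact Metric.closedBall_subset_closedBall (hτm m m' hmm) h4
  · ext z
    constructor
    · intro hz
      obtain ⟨m, ⟨h1, h2⟩, h3⟩ := mem_iUnion.1 hz
      exact ⟨h1, fun h4 => h3 (Metric.closedBall_subset_closedBall (hτ m).1.le h4)⟩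
    · rintro ⟨h1, h2⟩
      have h3 : s < dist z x := not_le.1 h2
      have h4 : ∀ᶠ m in atTop, τ m < dist z x := hτl.eventually (gt_mem_nhds h3)
      have h5 : ∀ᶠ m in atTop, ∀ j, z ∉ F j '' ringe (r m) := by
        refine eventually_all.2 fun j => ?_
        by_cases hz : z ∈ F j '' ring ρ
        · obtain ⟨ξ, hξ, rfl⟩ := hz
          filter_upwards [hrl.eventually (lt_mem_nhds hξ.2)] with m hm
          rintro ⟨ξ', hξ', he⟩
          have h6 : ξ' = ξ := by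
            refine (hF.col j).inj ⟨(hr m).1.trans_le hξ'.1, hξ'.2.le⟩ ⟨hξ.1, hξ.2.le⟩ he
          rw [h6] at hξ'
          exact absurd hξ'.1 (not_le.2 hm)
        · refine Eventually.of_forall fun m hm => hz ?_
          obtain ⟨ξ, hξ, he⟩ := hm
          exact ⟨ξ, ⟨(hr m).1.trans_le hξ.1, hξ.2⟩, he⟩
      obtain ⟨m, h6, h7⟩ := (h4.and h5).exists
      refine mem_iUnion.2 ⟨m, ⟨h1, fun h8 => ?_⟩, not_le.2 h6⟩
      obtain ⟨j, hj⟩ := mem_iUnion.1 h8
      exact h7 j hj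

/-- **The function E.** -/
theorem exists_E {D : Set ℂ} (hD : IsOpen D) (hc : IsPreconnected D) (hbd : Bornology.IsBounded D) {n : ℕ}
    {ρ : ℝ} {F : Fin n → ℂ → ℂ} (hF : IsCols D n ρ F) {x : ℂ} {s t' : ℝ} (hs : 0 < s) (hst : s < t')
    (hbD : Metric.closedBall x t' ⊆ D) (hd : ∀ j, Disjoint (Metric.closedBall x t') (F j '' ring ρ))
    {μ u : ℂ → ℝ} (hu : IsSol D μ u) (hμ : IsTe (Metric.ball x s) μ) {q : Fin n → ℤ}
    (hq : ∀ j, ∀ a b χ, ρ < a → a < b → b < 1 → IsChi D ρ (F j) a b χ → flux D u χ = q j) :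
    ∃ E : ℂ → ℂ, ∀ z ∈ D \ Metric.closedBall x s, HasDerivAt E (-(gr u z) * E z) z ∧
      ‖E z‖ = Real.exp (-u z) := by
  obtain ⟨r, τ, hr, hτ, hmono, hun⟩ := core_exhaust hF x hst
  have hcon : ∀ m, IsConnected (core D F (r m) x (τ m)) := fun m =>
    core_conn hD hc hF (hr m).1 (hr m).2 (hs.trans (hτ m).1) (hτ m).2 hbD hd
  obtain ⟨E, hE⟩ := E_glue (C := fun m => core D F (r m) x (τ m)) (g := gr u)
    (fun m => core_open hD hF (hr m).1 x (τ m)) (fun m => (hcon m).isPreconnected) hmono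
    (hcon 0).nonempty
    (fun m => core_E hD hbd hF hs (hτ m).1 (hτ m).2 hbD hd hu hμ hq (hr m).1 (hr m).2)
  rw [hun] at hE
  have hsD : Metric.closedBall x s ⊆ D := (Metric.closedBall_subset_closedBall hst.le).trans hbD
  have hXc : IsConnected (D \ Metric.closedBall x s) := conn_diff_ball hD hc hs.le hsD
  have hXo : IsOpen (D \ Metric.closedBall x s) := hD.sdiff Metric.isClosed_closedBall
  obtain ⟨c, hc0, hcE⟩ := E_norm hXo hXc.isPreconnected hXc.nonempty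
    (hu.smooth.mono sdiff_subset) hE
  refine ⟨fun z => E z / c, fun z hz => ⟨?_, ?_⟩⟩
  · refine ((hE z hz).2.div_const (c : ℂ)).congr_deriv ?_
    ring
  · rw [norm_div, hcE z hz, Complex.norm_real, Real.norm_eq_abs, abs_of_pos hc0,
      mul_div_cancel_left₀ _ hc0.ne']

end Pool.Agent.Lib.MP_79abb3_an.PD
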