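import Pool.Agent.Lib.MP_79abb3_an.PD.GH4
import Pool.Agent.Lib.MP_79abb3_an.PD.GG3
import Pool.Agent.Lib.MP_79abb3_an.PD.GF3
import Pool.Agent.Lib.MP_79abb3_an.PD.GD4

/-!
Theorem D, block G, final part: the flush data of a planar domain.
-/

set_option autoImplicit false
set_option linter.unusedSectionVars false

open MeasureTheory Set Filter Topology Function
open scoped ENNReal ComplexConjugate

namespace Pool.Agent.Lib.MP_79abb3_an.PD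

open Pool.Agent.Lib.MP_79abb3_an.SC

private theorem gm_ring_open (ρ : ℝ) : IsOpen (ring ρ) :=
  (isOpen_lt continuous_const continuous_norm).inter (isOpen_lt continuous_norm continuous_const)

/-- The collar equation for `G = E ∘ F`: `G' = -(gr U) G` on the ring, for `U` with `U = u ∘ F` on the ring. -/
theorem ring_der {D : Set ℂ} (hD : IsOpen D) {ρ : ℝ} (h0 : 0 < ρ) {F : ℂ → ℂ} (h : IsCollar D ρ F)
    {u U : ℂ → ℝ} (hu : ContDiffOn ℝ ((⊤ : ℕ∞) : WithTop ℕ∞) u D) (hU : ∀ ξ ∈ ring ρ, U ξ = u (F ξ)) {E : ℂ → ℂ}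
    {ξ : ℂ} (hξ : ξ ∈ ring ρ) (hE : HasDerivAt E (-(gr u (F ξ)) * E (F ξ)) (F ξ)) :
    HasDerivAt (fun ξ => E (F ξ)) (-(gr U ξ) * E (F ξ)) ξ := by
  have hξc : ξ ∈ ringc ρ := ⟨hξ.1, hξ.2.le⟩
  have hFD : F ξ ∈ D := h.sub ⟨ξ, hξ, rfl⟩
  have hdF : HasDerivAt F (fderiv ℝ F ξ 1) ξ := by
    have h1 := (h.holo.differentiableAt ((gm_ring_open ρ).mem_nhds hξ)).hasDerivAt
    have h2 : fderiv ℝ F ξ 1 = deriv F ξ := by
      rw [(h1.hasFDerivAt.restrictScalars ℝ).fderiv]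
      simp
    rw [h2]
    exact h1
  have hdu : HasFDerivAt u (fderiv ℝ u (F ξ)) (F ξ) :=
    ((hu.contDiffAt (hD.mem_nhds hFD)).differentiableAt (by simp)).hasFDerivAt
  have h3 : gr U ξ = gr u (F ξ) * fderiv ℝ F ξ 1 := by
    have h4 : U =ᶠ[𝓝 ξ] fun ξ => u (F ξ) := by
      filter_upwards [(gm_ring_open ρ).mem_nhds hξ] with z hz
      exact hU z hz
    have h5 : HasFDerivAt (fun ξ => u (F ξ)) ((fderiv ℝ u (F ξ)).comp (fderiv ℝ F ξ)) ξ := by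
      have h6 : HasFDerivAt F (fderiv ℝ F ξ) ξ :=
        (h.smooth.differentiable (by simp) ξ).hasFDerivAt
      exact hdu.comp ξ h6
    rw [gr_congr h4, gr, h5.fderiv]
    have h7 : fderiv ℝ F ξ Complex.I = fderiv ℝ F ξ 1 * Complex.I := h.fderiv_eq hξc Complex.I
    simp only [ContinuousLinearMap.comp_apply, h7, gr]
    set a := fderiv ℝ F ξ 1
    have h8 : ∀ v : ℂ, fderiv ℝ u (F ξ) v = v.re * fderiv ℝ u (F ξ) 1 + v.im * fderiv ℝ u (F ξ) Complex.I := by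
      intro v
      conv_lhs => rw [show v = v.re • (1:ℂ) + v.im • Complex.I by
        rw [Complex.real_smul, Complex.real_smul, mul_one]; exact (Complex.re_add_im v).symm]
      rw [map_add, map_smul, map_smul, smul_eq_mul, smul_eq_mul]
    apply Complex.ext
    · rw [h8 a]
      simp [Complex.mul_re]
      ring
    · rw [h8 (a * Complex.I)]
      simp [Complex.mul_im, Complex.mul_re]
      ring
  have h9 := hE.comp ξ hdF
  have h10 : -(gr u (F ξ)) * E (F ξ) * fderiv ℝ F ξ 1 = -(gr U ξ) * E (F ξ) := by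
    rw [h3]; ring
  rw [h10] at h9
  exact h9

/-- **Theorem (flush data).** Assembly: `IsPlanar` gives `IsCols`; `IsCols.avoid` for `closedBall x t`, `IsCols.mono`;
`exists_int_sol`; `IsSol.nonneg`, `IsSol.pos`, `IsSol.cont`; `exists_E`; in every collar `reflect`, `exists_lift` for
`G = E ∘ F_j` (`ring_der`), `exists_root`, `exists_inv`; `IsCols.comp`. -/
theorem exists_flush {D : Set ℂ} (hD : IsPlanar D) {x : ℂ} {s t : ℝ} (hs : 0 < s) (hst : s < t)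
    (hb : Metric.closedBall x t ⊆ D) :
    ∃ (n : ℕ) (ρ : ℝ) (F : Fin n → ℂ → ℂ) (k : Fin n → ℕ) (μ h : ℂ → ℝ) (E : ℂ → ℂ),
      IsFlush D x s t n ρ F k μ h E := by
  obtain ⟨n, ρ₀, F, h00, h01, hcol, hdis, hcpt⟩ := hD.col
  have hF0 : IsCols D n ρ₀ F := ⟨h00, h01, hcol, hdis, hcpt⟩
  obtain ⟨ρ, hρ0, hρ1, hav⟩ := hF0.avoid hD.op (isCompact_closedBall x t) hb
  have hF : IsCols D n ρ F := hF0.mono hρ0.le hρ1
  have hsb : Metric.closedBall x s ⊆ Metric.closedBall x t := Metric.closedBall_subset_closedBall hst.le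
  have hc : IsPreconnected D := hD.conn.isPreconnected
  obtain ⟨μ, u, q, hμ, hμ0, hμne, hsol, hq⟩ := exists_int_sol hD.op hc hD.bdd hF hs (hsb.trans hb)
    (fun j => (hav j).mono_left hsb)
  have hμD : IsTe D μ := ⟨hμ.smooth, hμ.cpt, hμ.supp.trans (Metric.ball_subset_closedBall.trans (hsb.trans hb))⟩
  obtain ⟨E, hE⟩ := exists_E hD.op hc hD.bdd hF hs hst hb hav hsol hμ hq
  have hpos := hsol.pos hD.op hc hD.bdd hF hs (hsb.trans hb) hμ hμ0 hμne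
  have hX : ∀ j, ∀ ξ ∈ ring ρ, F j ξ ∈ D \ Metric.closedBall x s := fun j ξ hξ =>
    ⟨(hF.col j).sub ⟨ξ, hξ, rfl⟩, fun h => disjoint_left.1 (hav j) (hsb h) ⟨ξ, hξ, rfl⟩⟩
  have hhol : ∀ j, DifferentiableOn ℂ (gr u) (F j '' ring ρ) := by
    intro j
    refine (hsol.holo hD.op).mono ?_
    rintro _ ⟨ξ, hξ, rfl⟩
    exact ⟨(hX j ξ hξ).1, fun h => (hX j ξ hξ).2 (Metric.ball_subset_closedBall (hμ.supp h))⟩
  have key : ∀ j, ∃ (ρ₁ : ℝ) (S T : ℂ → ℂ) (k : ℕ), IsInv ρ ρ₁ S T ∧ 1 ≤ k ∧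
      ∀ ξ ∈ ring ρ, S ξ ^ k = E (F j ξ) := by
    intro j
    obtain ⟨U, hU1, hU2, hU3, hU4⟩ := reflect hD.op hF.h0 hF.h1 (hF.col j) hsol.smooth hsol.w (hhol j)
    have hR : IsRefl ρ U := ⟨hF.h0, hF.h1, hU1, hU3, hU4, fun ξ hξ => by
      rw [hU2 ξ hξ]; exact hpos _ (hX j ξ hξ)⟩
    obtain ⟨f, k, hf, hf2⟩ := exists_lift hR (G := fun ξ => E (F j ξ))
      (fun ξ hξ => ring_der hD.op hF.h0 (hF.col j) hsol.smooth hU2 hξ (hE _ (hX j ξ hξ)).1)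
      (fun ξ hξ => by rw [hU2 ξ hξ]; exact (hE _ (hX j ξ hξ)).2)
    obtain ⟨S, hS, hS2⟩ := exists_root (G := fun ξ => E (F j ξ)) hR hf hf2
    obtain ⟨ρ₁, T, hT⟩ := exists_inv hR hS
    exact ⟨ρ₁, S, T, k, hT, hf.kpos, hS2⟩
  choose ρ₁ S T k hT hk hSE using key
  obtain ⟨ρ₂, F', h2, hF', hF2, hsub⟩ := hF.comp hD.op hT
  refine ⟨n, ρ₂, F', k, μ, u, E, ⟨hs, hst, hb, hF', fun j => (hav j).mono_right (hsub j), hk, hμ, hμ0,
    hsol.smooth, hsol.cont hD.op hF hμD, hsol.zero, hsol.nonneg hD.op hD.bdd hF hμD hμ0, hpos, hsol.eq,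
    fun y hy => (hE y hy).1, fun y hy => (hE y hy).2, fun j ξ hξ => ?_⟩⟩
  have h3 : ξ ∈ ring (ρ₁ j) := ⟨(h2 j).trans hξ.1, hξ.2⟩
  have h4 : ξ ∈ dring (ρ₁ j) := ⟨h3.1, lt_trans hξ.2 ((one_lt_inv₀ (hF.h0.trans_le (hT j).h01)).2 (hT j).h1)⟩
  rw [hF2 j ξ hξ, ← hSE j _ ((hT j).maps h3), (hT j).inv ξ h4]

end Pool.Agent.Lib.MP_79abb3_an.PD
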