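import Pool.Agent.Lib.MP_79abb3_an.PD.FdDef
import Pool.Agent.Lib.MP_79abb3_an.PD.GM

/-!
Theorem D, block F: existence of the geometric data.
-/

set_option autoImplicit false
set_option linter.unusedSectionVars false

open MeasureTheory Set Filter Topology Function
open scoped ENNReal InnerProductSpace ComplexConjugate

namespace Pool.Agent.Lib.MP_79abb3_an.PD

open Pool.Agent.Lib.MP_79abb3_an.SC Pool.Agent.Lib.MP_79abb3_an.P25

/-- `exists_geo_big` with a general cut-off (repeat the proofs of `exists_geo` (SC/ChGeo) and `exists_geo_big` with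
`ctf ρ ρ'` in place of `ctf ρ ((ρ+H)/2)`). -/
theorem exists_geoC {H : ℝ} [hH : Fact (0 < H)] {J : ℝ × ℝ → ℝ} (hJ : PY H J) (h0 : ∀ q, 0 < J q) {a b : ℝ}
    (ha : 0 < a) (hab : a < b) (hb : b < H) : ∃ G : Geo H, G.a = fam (fun q => (J q)⁻¹) ∧ G.J = fam J ∧
      G.Big ∧ G.ρ = a ∧ G.ζ = Pool.Agent.Lib.MP_79abb3_an.FW.rc (ctf a b) (ctf_smooth a b).continuous := by
  obtain ⟨G, g1, g2, -, g4, -, g6, -, -, -⟩ := exists_geo_big (hJ.inv h0) (fun q => inv_pos.2 (h0 q)) 1 ha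
    (hab.trans hb)
  have e : (fun q => ((J q)⁻¹)⁻¹) = J := funext fun q => inv_inv _
  rw [e] at g6
  have hfs : ContDiff ℝ ((⊤ : ℕ∞) : WithTop ℕ∞) (ctf a b) := ctf_smooth a b
  have hfs1 : ContDiff ℝ ((⊤ : ℕ∞) : WithTop ℕ∞) (deriv (ctf a b)) :=
    ((contDiff_infty_iff_deriv (𝕜 := ℝ)).1 hfs).2
  have hR : star (Pool.Agent.Lib.MP_79abb3_an.FW.rc (ctf a b) hfs.continuous : CI H) =
      Pool.Agent.Lib.MP_79abb3_an.FW.rc (ctf a b) hfs.continuous := by
    refine ci_ext fun z hz => ?_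
    rw [ex_star, Pool.Agent.Lib.MP_79abb3_an.FW.ex_rc _ _ hz]
    exact Complex.conj_ofReal _
  have h1 : ∀ z ∈ Icc (0:ℝ) G.ρ,
      ex (Pool.Agent.Lib.MP_79abb3_an.FW.rc (ctf a b) hfs.continuous : CI H) z = 1 := by
    intro z hz
    rw [g4] at hz
    rw [Pool.Agent.Lib.MP_79abb3_an.FW.ex_rc _ _ ⟨hz.1, hz.2.trans (hab.trans hb).le⟩, ctf_one hab hz.2,
      Complex.ofReal_one]
  have h2 : ∃ ρ' < H, ∀ z ∈ Icc ρ' H,
      ex (Pool.Agent.Lib.MP_79abb3_an.FW.rc (ctf a b) hfs.continuous : CI H) z = 0 := by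
    refine ⟨b, hb, fun z hz => ?_⟩
    rw [Pool.Agent.Lib.MP_79abb3_an.FW.ex_rc _ _ ⟨by linarith [hz.1], hz.2⟩, ctf_zero hab hz.1,
      Complex.ofReal_zero]
  exact ⟨{ G with
    ζ := Pool.Agent.Lib.MP_79abb3_an.FW.rc (ctf a b) hfs.continuous
    ζ1 := Pool.Agent.Lib.MP_79abb3_an.FW.rc (deriv (ctf a b)) hfs1.continuous
    ζ2 := Pool.Agent.Lib.MP_79abb3_an.FW.rc (deriv (deriv (ctf a b))) (hfs1.continuous_deriv (by simp))
    ζ_d := rc_isD hfs
    ζ1_d := rc_isD hfs1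
    ζ_real := hR
    ζ_one := h1
    ζ_zero := h2 }, g1, g6, g2, g4, rfl⟩

/-- Cut-offs of balls. -/
theorem exists_cut (x : ℂ) {a b : ℝ} (ha : 0 < a) (hab : a < b) : ∃ g : ℂ → ℝ,
    ContDiff ℝ ((⊤ : ℕ∞) : WithTop ℕ∞) g ∧ (∀ y, 0 ≤ g y ∧ g y ≤ 1) ∧ (∀ y, dist y x ≤ a → g y = 1) ∧
      ∀ y, b ≤ dist y x → g y = 0 := by
  have h2 : a ^ 2 < b ^ 2 := by nlinarith
  refine ⟨fun y => ctf (a ^ 2) (b ^ 2) (‖y - x‖ ^ 2), ?_, fun y => ?_, fun y hy => ?_, fun y hy => ?_⟩
  · exact (ctf_smooth _ _).comp ((contDiff_id.sub contDiff_const).norm_sq ℝ)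
  · exact ⟨Real.smoothTransition.nonneg _, Real.smoothTransition.le_one _⟩
  · rw [dist_eq_norm] at hy
    exact ctf_one h2 (pow_le_pow_left₀ (norm_nonneg _) hy 2)
  · rw [dist_eq_norm] at hy
    exact ctf_zero h2 (pow_le_pow_left₀ (ha.trans hab).le hy 2)

private theorem fda_cpt {E : Type} [NormedAddCommGroup E] {x : ℂ} {r : ℝ} {g : ℂ → E}
    (h : ∀ y, r ≤ dist y x → g y = 0) : HasCompactSupport g := by
  refine HasCompactSupport.intro (isCompact_closedBall x r) fun y hy => h y ?_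
  rw [Metric.mem_closedBall, not_le] at hy
  exact hy.le

private theorem fda_tsup {E : Type} [NormedAddCommGroup E] {x : ℂ} {r : ℝ} {g : ℂ → E}
    (h : ∀ y, r ≤ dist y x → g y = 0) : tsupport g ⊆ Metric.closedBall x r := by
  refine closure_minimal (fun y hy => ?_) Metric.isClosed_closedBall
  rw [Metric.mem_closedBall]
  by_contra h1
  exact hy (h y (not_le.1 h1).le)

theorem exists_bump (x : ℂ) {a : ℝ} (ha : 0 < a) : ∃ g : ℂ → ℝ,
    ContDiff ℝ ((⊤ : ℕ∞) : WithTop ℕ∞) g ∧ (∀ y, 0 ≤ g y) ∧ (∀ y, a ≤ dist y x → g y = 0) ∧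
      ∫ y, g y = 1 := by
  obtain ⟨g, h1, h2, h3, h4⟩ := exists_cut x (half_pos ha) (half_lt_self ha)
  have h5 : 0 < ∫ y, g y := by
    refine h1.continuous.integral_pos_of_hasCompactSupport_nonneg_nonzero (fda_cpt h4)
      (fun y => (h2 y).1) (x := x) ?_
    rw [h3 x (by rw [dist_self]; exact (half_pos ha).le)]
    exact one_ne_zero
  refine ⟨fun y => (∫ y, g y)⁻¹ * g y, contDiff_const.mul h1, fun y =>
    mul_nonneg (inv_pos.2 h5).le (h2 y).1, fun y hy => ?_, ?_⟩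
  · show (∫ y, g y)⁻¹ * g y = 0
    rw [h4 y hy, mul_zero]
  · rw [integral_const_mul]
    exact inv_mul_cancel₀ h5.ne'

private theorem fda_ccr {D : Set ℂ} {x : ℂ} {r : ℝ} {g : ℂ → ℝ} (hD : Metric.closedBall x r ⊆ D)
    (h1 : ContDiff ℝ ((⊤ : ℕ∞) : WithTop ℕ∞) g) (h : ∀ y, r ≤ dist y x → g y = 0) :
    CcR D fun y => ((g y : ℝ) : ℂ) := by
  have h2 : ∀ y, r ≤ dist y x → (fun y => ((g y : ℝ) : ℂ)) y = 0 := fun y hy => by
    show ((g y : ℝ) : ℂ) = 0
    rw [h y hy, Complex.ofReal_zero]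
  exact ⟨⟨Complex.ofRealCLM.contDiff.comp h1, fda_cpt h2⟩, (fda_tsup h2).trans hD,
    fun y => Complex.conj_ofReal _⟩

private theorem fda_chX (F : ℂ → ℂ) : chX F 1 = fun q => F (Complex.exp (Complex.I * cxp q)) := by
  funext q
  unfold chX
  rw [Nat.cast_one, div_one]

/-- **Existence of the geometric data.** `exists_flush` with `s = t/4`, `s1 = t/2`, `s2 = 3t/4`; `16 u` smaller than `π` and
`log (1/ρ)`; `IsCollar.isStrip` with `k = 1` (`chX F 1`, `Real.pi * 1`), `IsStrip.exists_J` (`e = 15u`), `exists_geoC`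
(`11u`, `12u`), `exists_Ga`, `exists_La`, `exists_PB` (the metric factor restricts: `IsJ` for smaller heights), `exists_cut`,
`exists_bump`, `K = 1 + ∑ k_j`. -/
theorem exists_FD {D : Set ℂ} (hD : IsPlanar D) {x : ℂ} {t : ℝ} (ht : 0 < t)
    (hb : Metric.closedBall x t ⊆ D) : ∃ F : FD D, F.x = x ∧ F.t = t := by
  obtain ⟨n, ρ, F, k, μ, h, E, hfl⟩ := exists_flush hD (s := t / 4) (by linarith) (by linarith) hb
  have hr0 : 0 < ρ := hfl.cols.h0
  have hr1 : ρ < 1 := hfl.cols.h1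
  have hlog : 0 < Real.log (1 / ρ) := Real.log_pos (by rw [lt_div_iff₀ hr0]; linarith)
  obtain ⟨u, hu0, hu1, hu2⟩ : ∃ u : ℝ, 0 < u ∧ 16 * u < Real.pi ∧ 16 * u ≤ Real.log (1 / ρ) := by
    refine ⟨min (Real.pi / 2) (Real.log (1 / ρ)) / 16,
      div_pos (lt_min (half_pos Real.pi_pos) hlog) (by norm_num), ?_, ?_⟩
    · have h1 := min_le_left (Real.pi / 2) (Real.log (1 / ρ))
      have h2 := Real.pi_pos
      linarith
    · have h1 := min_le_right (Real.pi / 2) (Real.log (1 / ρ))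
      linarith
  have hX : ∀ j, IsStrip D Real.pi (16 * u) (fun q => F j (Complex.exp (Complex.I * cxp q))) := by
    intro j
    have h1 := (hfl.cols.col j).isStrip hr0 hr1 (k := 1) one_pos (c := 16 * u) (by linarith)
      (by rw [Nat.cast_one, one_mul]; exact hu2) (by rw [Nat.cast_one, mul_one]; exact hu1)
    rw [fda_chX, Nat.cast_one, mul_one] at h1
    exact h1
  have hJ : ∀ j, ∃ J : ℝ × ℝ → ℝ,
      IsJ Real.pi (fun q => F j (Complex.exp (Complex.I * cxp q))) (15 * u) J := by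
    intro j
    obtain ⟨J, h1, h2, h3⟩ := (hX j).exists_J (e := 15 * u) (by linarith)
    exact ⟨J, h1, h2, h3⟩
  choose J hJ using hJ
  have hJr : ∀ j, ∀ e, e ≤ 15 * u →
      IsJ Real.pi (fun q => F j (Complex.exp (Complex.I * cxp q))) e (J j) := fun j e he =>
    ⟨(hJ j).py, (hJ j).pos, fun q h1 h2 => (hJ j).eq q h1 (h2.trans he)⟩
  have hG : ∀ j, ∃ G : Geo Real.pi, G.a = fam (fun q => (J j q)⁻¹) ∧ G.J = fam (J j) ∧
      G.Big ∧ G.ρ = 11 * u ∧ G.ζ = ctC (11 * u) (12 * u) := fun j =>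
    exists_geoC (hJ j).py (hJ j).pos (by linarith) (by linarith) (by linarith)
  choose G g1 g2 g3 g4 g5 using hG
  have hGa : ∀ j, ∃ Γ : VD D →L[ℂ] HP,
      IsGa D (fun q => F j (Complex.exp (Complex.I * cxp q))) (13 * u) (14 * u) Γ := fun j =>
    exists_Ga (hX j) hD.op hD.bdd (by linarith) (by linarith) (by linarith)
  choose Ga hGa using hGa
  have hLa : ∀ j, ∃ Λ : XD D →L[ℂ] HP,
      IsLa D (fun q => F j (Complex.exp (Complex.I * cxp q))) (13 * u) (14 * u) Λ := fun j =>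
    exists_La (hX j) hD.op (by linarith) (by linarith) (by linarith)
  choose La hLa using hLa
  have hBz : ∀ j, ∃ B : L2c →L[ℂ] HP,
      IsPB (fun q => F j (Complex.exp (Complex.I * cxp q))) (13 * u) (14 * u) (J j) B := fun j =>
    exists_PB (hX j) (hJr j _ (by linarith)) (by linarith) (by linarith) (by linarith)
  choose Bz hBz using hBz
  have hBe : ∀ j, ∃ B : L2c →L[ℂ] HP,
      IsPB (fun q => F j (Complex.exp (Complex.I * cxp q))) (4 * u) (8 * u) (J j) B := fun j =>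
    exists_PB (hX j) (hJr j _ (by linarith)) (by linarith) (by linarith) (by linarith)
  choose Be hBe using hBe
  have hBp : ∀ j, ∃ B : L2c →L[ℂ] HP,
      IsPB (fun q => F j (Complex.exp (Complex.I * cxp q))) (2 * u) (4 * u) (J j) B := fun j =>
    exists_PB (hX j) (hJr j _ (by linarith)) (by linarith) (by linarith) (by linarith)
  choose Bp hBp using hBp
  obtain ⟨χ, c1, c2, c3, c4⟩ := exists_cut x (a := t / 2) (b := 3 * t / 4) (by linarith) (by linarith)
  obtain ⟨d, d1, d2, d3, d4⟩ := exists_cut x (a := 3 * t / 4) (b := t) (by linarith) (by linarith)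
  obtain ⟨β, b1, -, b3, b4⟩ := exists_bump x (a := t / 2) (by linarith)
  refine ⟨{
    x := x
    s := t / 4
    s1 := t / 2
    s2 := 3 * t / 4
    t := t
    n := n
    ρ := ρ
    F := F
    k := k
    μ := μ
    h := h
    E := E
    K := 1 + ∑ j, k j
    u := u
    X := fun j q => F j (Complex.exp (Complex.I * cxp q))
    J := J
    G := G
    Ga := Ga
    La := La
    Bz := Bz
    Be := Be
    Bp := Bp
    χ := fun y => 1 - χ y
    d := fun y => ((d y : ℝ) : ℂ)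
    β := fun y => ((β y : ℝ) : ℂ)
    hD := hD
    fl := hfl
    h1 := by linarith
    h2 := by linarith
    h3 := by linarith
    hK := fun j => by
      have h1 := Finset.single_le_sum (f := k) (fun i _ => Nat.zero_le _) (Finset.mem_univ j)
      omega
    K1 := by omega
    u0 := hu0
    uπ := hu1
    uρ := hu2
    hX := hX
    eX := fun j q => rfl
    hJ := hJ
    G_a := g1
    G_J := g2
    G_ζ := g5
    G_big := g3
    hGa := hGa
    hLa := hLa
    hBz := hBz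
    hBe := hBe
    hBp := hBp
    χs := contDiff_const.sub c1
    χ01 := fun y => by
      have := c2 y
      constructor <;> linarith
    χ0 := fun y hy => by rw [c3 y hy, sub_self]
    χ1 := fun y hy => by rw [c4 y hy, sub_zero]
    hd := fda_ccr hb d1 d4
    d01 := fun y => by
      rw [Complex.ofReal_re]
      exact d2 y
    d1 := fun y hy => by rw [d3 y hy, Complex.ofReal_one]
    d0 := fun y hy => by rw [d4 y hy, Complex.ofReal_zero]
    hβ := fda_ccr ((Metric.closedBall_subset_closedBall (by linarith)).trans hb) b1 b3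
    β0 := fun y hy => by rw [b3 y hy, Complex.ofReal_zero]
    β1 := by rw [integral_complex_ofReal, b4, Complex.ofReal_one] }, rfl, rfl⟩

end Pool.Agent.Lib.MP_79abb3_an.PD
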