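import Pool.Agent.Lib.MP_79abb3_an.PD.GDef3

/-!
Theorem D, block G: definitions for the new collars and the exported structure `IsFlush`.
-/

set_option autoImplicit false
set_option linter.unusedSectionVars false

open MeasureTheory Set Filter Topology Function
open scoped ENNReal ComplexConjugate

namespace Pool.Agent.Lib.MP_79abb3_an.PD

open Pool.Agent.Lib.MP_79abb3_an.SC

/-- The strip `|Im ζ| < δ`. -/
def strip (δ : ℝ) : Set ℂ := {ζ | |ζ.im| < δ}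

/-- The reflected function `U = u ∘ F` of a positive harmonic function which vanishes on the circle. -/
structure IsRefl (ρ : ℝ) (U : ℂ → ℝ) : Prop where
  h0 : 0 < ρ
  h1 : ρ < 1
  smooth : ContDiffOn ℝ ((⊤ : ℕ∞) : WithTop ℕ∞) U (dring ρ)
  odd : ∀ ξ ∈ dring ρ, U (cinv ξ) = -U ξ
  holo : DifferentiableOn ℂ (gr U) (dring ρ)
  pos : ∀ ξ ∈ ring ρ, 0 < U ξ

/-- `exp (i f(ζ)) = G (exp (i ζ))`, `Im f(ζ) = U (exp (i ζ))`. -/
structure IsLift (ρ : ℝ) (U : ℂ → ℝ) (f : ℂ → ℂ) (k : ℕ) : Prop where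
  der : ∀ ζ ∈ strip (-Real.log ρ), HasDerivAt f
    (-(Complex.exp (Complex.I * ζ) * gr U (Complex.exp (Complex.I * ζ)))) ζ
  im : ∀ ζ ∈ strip (-Real.log ρ), (f ζ).im = U (Complex.exp (Complex.I * ζ))
  per : ∀ ζ ∈ strip (-Real.log ρ), f (ζ + ((2 * Real.pi : ℝ) : ℂ)) = f ζ + ((2 * Real.pi * k : ℝ) : ℂ)
  pos : ∀ t : ℝ, 0 < (deriv f t).re
  kpos : 1 ≤ k

/-- A `k`-th root `S` of `G` near the circle, conformal at the circle. -/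
structure IsRoot (ρ : ℝ) (U : ℂ → ℝ) (S : ℂ → ℂ) (k : ℕ) : Prop where
  kpos : 1 ≤ k
  holo : DifferentiableOn ℂ S (dring ρ)
  norm : ∀ ξ ∈ dring ρ, ‖S ξ‖ = Real.exp (-U ξ / k)
  der : ∀ ξ, ‖ξ‖ = 1 → deriv S ξ ≠ 0
  inj : InjOn S (Metric.sphere 0 1)
  surj : S '' Metric.sphere 0 1 = Metric.sphere 0 1

/-- The inverse `T` of `S` near the circle. -/
structure IsInv (ρ ρ₁ : ℝ) (S T : ℂ → ℂ) : Prop where
  h1 : ρ₁ < 1
  h01 : ρ ≤ ρ₁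
  holo : DifferentiableOn ℂ T (dring ρ₁)
  der : ∀ ξ ∈ dring ρ₁, deriv T ξ ≠ 0
  inv : ∀ ξ ∈ dring ρ₁, S (T ξ) = ξ
  maps : MapsTo T (ring ρ₁) (ring ρ)
  circ : MapsTo T (Metric.sphere 0 1) (Metric.sphere 0 1)
  fill : ∀ r, ρ₁ < r → r < 1 → ∃ r', ρ < r' ∧ r' < 1 ∧ ring r' ⊆ T '' ring r

/-- **The flush data** of a planar domain `D` (source in `ball x s`, collars disjoint from `closedBall x t`):
`h` is the solution of `-Δh = 2πμ`, `|E| = exp (-h)`, `E' = -(gr h) E`, `E (F_j ξ) = ξ ^ k_j`. -/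
structure IsFlush (D : Set ℂ) (x : ℂ) (s t : ℝ) (n : ℕ) (ρ : ℝ) (F : Fin n → ℂ → ℂ) (k : Fin n → ℕ)
    (μ h : ℂ → ℝ) (E : ℂ → ℂ) : Prop where
  s0 : 0 < s
  st : s < t
  ball : Metric.closedBall x t ⊆ D
  cols : IsCols D n ρ F
  away : ∀ j, Disjoint (Metric.closedBall x t) (F j '' ring ρ)
  kpos : ∀ j, 1 ≤ k j
  src : IsTe (Metric.ball x s) μ
  src0 : ∀ y, 0 ≤ μ y
  smooth : ContDiffOn ℝ ((⊤ : ℕ∞) : WithTop ℕ∞) h D
  cont : Continuous h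
  zero : ∀ y ∉ D, h y = 0
  nonneg : ∀ y, 0 ≤ h y
  pos : ∀ y ∈ D \ Metric.closedBall x s, 0 < h y
  lap : ∀ y ∈ D, dbar (gr h) y = ((-(Real.pi * μ y) : ℝ) : ℂ)
  holo : ∀ y ∈ D \ Metric.closedBall x s, HasDerivAt E (-(gr h y) * E y) y
  norm : ∀ y ∈ D \ Metric.closedBall x s, ‖E y‖ = Real.exp (-h y)
  root : ∀ j, ∀ ξ ∈ ring ρ, E (F j ξ) = ξ ^ k j

end Pool.Agent.Lib.MP_79abb3_an.PD
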