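import Pool.Agent.Lib.MP_79abb3_an.PD.GE1
import Pool.Agent.Lib.MP_79abb3_an.PD.GE2
import Pool.Agent.Lib.MP_79abb3_an.PD.GE3
import Pool.Agent.Lib.MP_79abb3_an.PD.GDef4

/-!
Theorem D, block G: consequences of `IsFlush`.
-/

set_option autoImplicit false
set_option linter.unusedSectionVars false

open MeasureTheory Set Filter Topology Function
open scoped ENNReal ComplexConjugate

namespace Pool.Agent.Lib.MP_79abb3_an.PD

open Pool.Agent.Lib.MP_79abb3_an.SC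

variable {D : Set ℂ} {x : ℂ} {s t : ℝ} {n : ℕ} {ρ : ℝ} {F : Fin n → ℂ → ℂ} {k : Fin n → ℕ} {μ h : ℂ → ℝ}
  {E : ℂ → ℂ}

private theorem gm2_mem (H : IsFlush D x s t n ρ F k μ h E) (j : Fin n) {ξ : ℂ} (hξ : ξ ∈ ring ρ) :
    F j ξ ∈ D \ Metric.closedBall x s := by
  refine ⟨(H.cols.col j).sub ⟨ξ, hξ, rfl⟩, fun h1 => ?_⟩
  exact Set.disjoint_left.1 (H.away j) (Metric.closedBall_subset_closedBall H.st.le h1) ⟨ξ, hξ, rfl⟩

private theorem gm2_open (ρ : ℝ) : IsOpen (ring ρ) :=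
  (isOpen_lt continuous_const continuous_norm).inter (isOpen_lt continuous_norm continuous_const)

private theorem gm2_mid (H : IsFlush D x s t n ρ F k μ h E) : ρ < (ρ + 1) / 2 ∧ (ρ + 1) / 2 < 1 := by
  have := H.cols.h1
  constructor <;> linarith

private theorem gm2_ne (H : IsFlush D x s t n ρ F k μ h E) {ξ : ℂ} (hξ : ξ ∈ ring ρ) : ξ ≠ 0 :=
  norm_pos_iff.1 (H.cols.h0.trans hξ.1)

private theorem gm2_cpt (H : IsFlush D x s t n ρ F k μ h E) {r : ℝ} (h1 : ρ < r) (h2 : r < 1) (s' : ℝ) :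
    IsCompact ((D \ ⋃ j, F j '' ring r) ∩ {y | s' ≤ dist y x}) :=
  (H.cols.cpt r h1 h2).inter_right (isClosed_le continuous_const (continuous_id.dist continuous_const))

/-- In the collars `h (F ξ) = -k log |ξ|`. -/
theorem IsFlush.h_ring (H : IsFlush D x s t n ρ F k μ h E) (j : Fin n) {ξ : ℂ} (hξ : ξ ∈ ring ρ) :
    h (F j ξ) = -(k j * Real.log ‖ξ‖) := by
  have h1 := H.norm _ (gm2_mem H j hξ)
  rw [H.root j ξ hξ, norm_pow] at h1
  have h3 := congrArg Real.log h1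
  rw [Real.log_pow, Real.log_exp] at h3
  linarith

/-- In the collars `gr h (F ξ) F'(ξ) = -k/ξ`. (Derivative of `root`.) -/
theorem IsFlush.gr_ring (H : IsFlush D x s t n ρ F k μ h E) (j : Fin n) {ξ : ℂ} (hξ : ξ ∈ ring ρ) :
    gr h (F j ξ) * fderiv ℝ (F j) ξ 1 = -(k j / ξ) := by
  have hy := gm2_mem H j hξ
  have hRo := gm2_open ρ
  have hξ0 := gm2_ne H hξ
  have hF : HasDerivAt (F j) (fderiv ℝ (F j) ξ 1) ξ := by
    have e3 : HasDerivAt (F j) (deriv (F j) ξ) ξ :=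
      (((H.cols.col j).holo ξ hξ).differentiableAt (hRo.mem_nhds hξ)).hasDerivAt
    have e4 : fderiv ℝ (F j) ξ = ((fderiv ℂ (F j) ξ).restrictScalars ℝ) :=
      (e3.differentiableAt.hasFDerivAt.restrictScalars ℝ).fderiv
    have e5 : fderiv ℝ (F j) ξ 1 = deriv (F j) ξ := by
      rw [e4, ContinuousLinearMap.coe_restrictScalars', fderiv_apply_one_eq_deriv]
    rw [e5]
    exact e3
  have h1 : HasDerivAt (fun ξ => E (F j ξ)) (-(gr h (F j ξ)) * E (F j ξ) * fderiv ℝ (F j) ξ 1) ξ :=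
    (H.holo _ hy).comp ξ hF
  have h2 : HasDerivAt (fun ξ : ℂ => ξ ^ k j) ((k j : ℂ) * ξ ^ (k j - 1)) ξ := hasDerivAt_pow _ _
  have h3 : (fun ξ => ξ ^ k j) =ᶠ[𝓝 ξ] fun ξ => E (F j ξ) := by
    filter_upwards [hRo.mem_nhds hξ] with z hz
    exact (H.root j z hz).symm
  have h4 := (h1.congr_of_eventuallyEq h3).unique h2
  rw [H.root j ξ hξ, ← pow_sub_one_mul (Nat.one_le_iff_ne_zero.1 (H.kpos j)) ξ] at h4
  have hp : ξ ^ (k j - 1) ≠ 0 := pow_ne_zero _ hξ0
  have h6 : gr h (F j ξ) * fderiv ℝ (F j) ξ 1 * ξ = -(k j : ℂ) := by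
    apply mul_left_cancel₀ hp
    linear_combination -h4
  rw [← neg_div, ← h6, mul_div_cancel_right₀ _ hξ0]

theorem IsFlush.holo_gr (H : IsFlush D x s t n ρ F k μ h E) (hD : IsOpen D) :
    DifferentiableOn ℂ (gr h) (D \ Metric.closedBall x s) := by
  intro y hy
  have hyD := hy.1
  have h1 : DifferentiableAt ℝ (gr h) y :=
    ((gr_smoothOn hD H.smooth).differentiableOn (by simp)).differentiableAt (hD.mem_nhds hyD)
  have h2 : μ y = 0 := image_eq_zero_of_notMem_tsupport fun h' =>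
    hy.2 (Metric.ball_subset_closedBall (H.src.supp h'))
  have h3 := H.lap y hyD
  rw [h2, mul_zero, neg_zero, Complex.ofReal_zero] at h3
  exact (differentiableAt_of_dbar h1 h3).differentiableWithinAt

/-- There is a boundary component (a nonempty bounded open set is not compact). -/
theorem IsFlush.npos (H : IsFlush D x s t n ρ F k μ h E) (hD : IsPlanar D) : 1 ≤ n := by
  by_contra hn
  have hn0 : n = 0 := by omega
  subst hn0
  have h1 := H.cols.cpt _ (gm2_mid H).1 (gm2_mid H).2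
  rw [iUnion_of_empty, sdiff_empty] at h1
  have h2 : D = univ := IsClopen.eq_univ ⟨h1.isClosed, hD.op⟩ hD.conn.nonempty
  rw [h2] at h1
  exact noncompact_univ ℂ h1

/-- `E'/E = -gr h` is bounded off `ball x s'`: in the collars by `gr_ring` on a smaller ring `{r < |ξ| < 1}`
(`F' ≠ 0` on the compact `{r ≤ |ξ| ≤ 1}`), the rest `D \ ⋃ F j '' ring r` is compact. -/
theorem IsFlush.gr_bdd (H : IsFlush D x s t n ρ F k μ h E) (hD : IsPlanar D) :
    ∃ C, ∀ y ∈ D, ‖gr h y‖ ≤ C := by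
  set r := (ρ + 1) / 2 with hr
  have hr1 : ρ < r := (gm2_mid H).1
  have hr2 : r < 1 := (gm2_mid H).2
  have hr0 : 0 < r := H.cols.h0.trans hr1
  obtain ⟨C₀, hC₀⟩ := (H.cols.cpt r hr1 hr2).exists_bound_of_continuousOn
    ((gr_smoothOn hD.op H.smooth).continuousOn.mono sdiff_subset)
  have hK : IsCompact {ξ : ℂ | r ≤ ‖ξ‖ ∧ ‖ξ‖ ≤ 1} := by
    refine (isCompact_closedBall (0 : ℂ) 1).of_isClosed_subset ?_ ?_
    · exact (isClosed_le continuous_const continuous_norm).inter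
        (isClosed_le continuous_norm continuous_const)
    · intro ξ hξ
      rw [mem_closedBall_zero_iff]
      exact hξ.2
  have hCj : ∀ j, ∃ C, ∀ ξ ∈ ring r, ‖gr h (F j ξ)‖ ≤ C := by
    intro j
    have hdc : Continuous (fderiv ℝ (F j)) := (H.cols.col j).smooth.continuous_fderiv (by simp)
    have hne : ∀ ξ ∈ {ξ : ℂ | r ≤ ‖ξ‖ ∧ ‖ξ‖ ≤ 1}, fderiv ℝ (F j) ξ 1 ≠ 0 := fun ξ hξ =>
      (H.cols.col j).der1 ⟨hr1.trans_le hξ.1, hξ.2⟩
    have hc : ContinuousOn (fun ξ => -((k j : ℂ) / ξ) * (fderiv ℝ (F j) ξ 1)⁻¹)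
        {ξ : ℂ | r ≤ ‖ξ‖ ∧ ‖ξ‖ ≤ 1} := by
      refine ContinuousOn.mul (ContinuousOn.neg (continuousOn_const.div continuousOn_id fun ξ hξ => ?_))
        (ContinuousOn.inv₀ (hdc.clm_apply continuous_const).continuousOn hne)
      exact norm_pos_iff.1 (hr0.trans_le hξ.1)
    obtain ⟨C, hC⟩ := hK.exists_bound_of_continuousOn hc
    refine ⟨C, fun ξ hξ => ?_⟩
    have e1 : ξ ∈ ring ρ := ⟨hr1.trans hξ.1, hξ.2⟩
    have e2 := H.gr_ring j e1
    have e3 : ξ ∈ {ξ : ℂ | r ≤ ‖ξ‖ ∧ ‖ξ‖ ≤ 1} := ⟨hξ.1.le, hξ.2.le⟩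
    have e4 : gr h (F j ξ) = -((k j : ℂ) / ξ) * (fderiv ℝ (F j) ξ 1)⁻¹ := by
      rw [← e2, mul_inv_cancel_right₀ (hne ξ e3)]
    rw [e4]
    exact hC ξ e3
  choose C hC using hCj
  obtain ⟨M, hM⟩ := Finite.exists_le C
  refine ⟨max C₀ M, fun y hy => ?_⟩
  by_cases h1 : y ∈ ⋃ j, F j '' ring r
  · obtain ⟨j, ξ, hξ, rfl⟩ := mem_iUnion.1 h1
    exact ((hC j ξ hξ).trans (hM j)).trans (le_max_right _ _)
  · exact (hC₀ y ⟨hy, h1⟩).trans (le_max_left _ _)

/-- `E'` has finitely many zeros off `ball x s'`: none in the collars, the rest is a compact subset of the connected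
open set `D \ closedBall x s`, where `gr h` is holomorphic and not identically zero. -/
theorem IsFlush.fin_zero (H : IsFlush D x s t n ρ F k μ h E) (hD : IsPlanar D) {s' : ℝ} (hs : s < s') :
    {y | y ∈ D ∧ s' ≤ dist y x ∧ gr h y = 0}.Finite := by
  obtain ⟨hr1, hr2⟩ := gm2_mid H
  set r := (ρ + 1) / 2 with hr
  have hnz : ∀ j, ∀ ξ ∈ ring ρ, gr h (F j ξ) ≠ 0 := by
    intro j ξ hξ h1
    have h2 := H.gr_ring j hξ
    rw [h1, zero_mul, eq_comm, neg_eq_zero, div_eq_zero_iff] at h2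
    rcases h2 with h2 | h2
    · have := H.kpos j
      rw [Nat.cast_eq_zero] at h2
      omega
    · exact gm2_ne H hξ h2
  have hA := gm2_cpt H hr1 hr2 s'
  set A : Set ℂ := (D \ ⋃ j, F j '' ring r) ∩ {y | s' ≤ dist y x} with hAdef
  have hsub : {y | y ∈ D ∧ s' ≤ dist y x ∧ gr h y = 0} ⊆ A := by
    rintro y ⟨hy, hys, hy0⟩
    refine ⟨⟨hy, fun h1 => ?_⟩, hys⟩
    obtain ⟨j, ξ, hξ, rfl⟩ := mem_iUnion.1 h1
    exact hnz j ξ ⟨hr1.trans hξ.1, hξ.2⟩ hy0
  by_contra hinf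
  obtain ⟨a, haA, hacc⟩ := Set.Infinite.exists_accPt_of_subset_isCompact hinf hA hsub
  have hU : IsConnected (D \ Metric.closedBall x s) :=
    conn_diff_ball hD.op hD.conn.isPreconnected H.s0.le
      ((Metric.closedBall_subset_closedBall H.st.le).trans H.ball)
  have hUo : IsOpen (D \ Metric.closedBall x s) := hD.op.sdiff Metric.isClosed_closedBall
  have haU : a ∈ D \ Metric.closedBall x s := by
    refine ⟨haA.1.1, fun h1 => ?_⟩
    have h2 : s' ≤ dist a x := haA.2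
    rw [Metric.mem_closedBall] at h1
    linarith
  have hfr : ∃ᶠ z in 𝓝[≠] a, gr h z = 0 := by
    rw [accPt_iff_frequently_nhdsNE] at hacc
    exact hacc.mono fun y hy => hy.2.2
  have hz := AnalyticOnNhd.eqOn_zero_of_preconnected_of_frequently_eq_zero
    ((H.holo_gr hD.op).analyticOnNhd hUo) hU.isPreconnected haU hfr
  have hn := H.npos hD
  have hrn : ‖((r : ℝ) : ℂ)‖ = r := by
    rw [Complex.norm_real, Real.norm_eq_abs, abs_of_pos (H.cols.h0.trans hr1)]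
  have hrr : ((r : ℝ) : ℂ) ∈ ring ρ := by
    constructor
    · rw [hrn]; exact hr1
    · rw [hrn]; exact hr2
  exact hnz ⟨0, hn⟩ _ hrr (hz (gm2_mem H ⟨0, hn⟩ hrr))

/-- `h` is small only near the boundary: bounded below off the smaller collars. -/
theorem IsFlush.h_low (H : IsFlush D x s t n ρ F k μ h E) (hD : IsPlanar D) {r : ℝ} (h1 : ρ < r) (h2 : r < 1)
    {s' : ℝ} (hs : s < s') : ∃ c > 0, ∀ y ∈ D, s' ≤ dist y x → (∀ j, y ∉ F j '' ring r) → c ≤ h y := by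
  have hA := gm2_cpt H h1 h2 s'
  have hpos : ∀ y ∈ (D \ ⋃ j, F j '' ring r) ∩ {y | s' ≤ dist y x}, 0 < h y := by
    intro y hy
    refine H.pos y ⟨hy.1.1, fun h3 => ?_⟩
    have h4 : s' ≤ dist y x := hy.2
    rw [Metric.mem_closedBall] at h3
    linarith
  rcases ((D \ ⋃ j, F j '' ring r) ∩ {y | s' ≤ dist y x}).eq_empty_or_nonempty with hE | hE
  · refine ⟨1, one_pos, fun y hy hys hyn => ?_⟩
    have : y ∈ (D \ ⋃ j, F j '' ring r) ∩ {y | s' ≤ dist y x} :=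
      ⟨⟨hy, fun h3 => by
        obtain ⟨j, hj⟩ := mem_iUnion.1 h3
        exact hyn j hj⟩, hys⟩
    rw [hE] at this
    exact absurd this (notMem_empty y)
  · obtain ⟨a, ha, hmin⟩ := hA.exists_isMinOn hE H.cont.continuousOn
    refine ⟨h a, hpos a ha, fun y hy hys hyn => ?_⟩
    exact hmin ⟨⟨hy, fun h3 => by
        obtain ⟨j, hj⟩ := mem_iUnion.1 h3
        exact hyn j hj⟩, hys⟩

theorem IsFlush.h_bdd (H : IsFlush D x s t n ρ F k μ h E) (hD : IsPlanar D) : ∃ C, ∀ y, h y ≤ C := by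
  obtain ⟨C, hC⟩ := hD.bdd.isCompact_closure.exists_bound_of_continuousOn H.cont.continuousOn
  refine ⟨max C 0, fun y => ?_⟩
  by_cases hy : y ∈ D
  · exact ((le_abs_self _).trans (hC y (subset_closure hy))).trans (le_max_left _ _)
  · rw [H.zero y hy]
    exact le_max_right _ _

/-- All derivatives: `E` is the restriction of a function smooth up to the boundary: for every `j`, `E ∘ F_j` is smooth.
On `D \ ball x s'` all powers `E ^ m`, `m ∈ ℤ`, are holomorphic. -/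
theorem IsFlush.zpow (H : IsFlush D x s t n ρ F k μ h E) {y : ℂ} (hy : y ∈ D \ Metric.closedBall x s) (m : ℤ) :
    HasDerivAt (fun y => E y ^ m) (-(m * gr h y) * E y ^ m) y := by
  have hE : E y ≠ 0 := by
    rw [← norm_pos_iff, H.norm y hy]
    exact Real.exp_pos _
  have h1 : HasDerivAt (fun y => E y ^ m) ((m : ℂ) * E y ^ (m - 1) * (-(gr h y) * E y)) y :=
    (hasDerivAt_zpow m (E y) (Or.inl hE)).comp y (H.holo y hy)
  have h2 : (m : ℂ) * E y ^ (m - 1) * (-(gr h y) * E y) = -(m * gr h y) * E y ^ m := by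
    rw [zpow_sub_one₀ hE]
    field_simp
  rw [← h2]
  exact h1

end Pool.Agent.Lib.MP_79abb3_an.PD
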