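import Pool.Agent.Lib.MP_79abb3_an.PD.FdDef
import Pool.Agent.Lib.MP_79abb3_an.PD.GM2

/-!
Theorem D, block F: the cellular potential `F_m = (E^m + E^{-m})/(2m) = φ_m + i ψ_m` and its cut off versions.
-/

set_option autoImplicit false
set_option linter.unusedSectionVars false

open MeasureTheory Set Filter Topology Function
open scoped ENNReal InnerProductSpace ComplexConjugate

namespace Pool.Agent.Lib.MP_79abb3_an.PD

open Pool.Agent.Lib.MP_79abb3_an.SC Pool.Agent.Lib.MP_79abb3_an.P25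

namespace FD
variable {D : Set ℂ} (F : FD D) (m : ℕ)

/-- `F_m = (E^m + E^{-m})/(2m)` -/
noncomputable def Fm (y : ℂ) : ℂ := (F.E y ^ m + ((F.E y)⁻¹) ^ m) / (2 * m)

/-- `χ ψ_m` -/
noncomputable def P0 (y : ℂ) : ℂ := ((F.χ y * (F.Fm m y).im : ℝ) : ℂ)

/-- The bump `c₀ = -Δ(χ ψ_m)`, supported in `s1 ≤ |y - x*| ≤ s2`. -/
noncomputable def c0 (y : ℂ) : ℂ := open scoped Classical in if y ∈ D then -lap (F.P0 m) y else 0

/-- `Ψ = χ ψ_m (1 - κ)`, `κ = 1` for `h ≤ 1/(2m)`, `κ = 0` for `h ≥ 1/m`. -/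
noncomputable def Ps (y : ℂ) : ℂ :=
  ((F.χ y * Real.smoothTransition (2 * m * F.h y - 1) * (F.Fm m y).im : ℝ) : ℂ)

/-- `z* = √(K/m)` -/
noncomputable def zs : ℝ := √((F.K : ℝ) / m)

/-- `φ~ = χ φ_m g`, `g = 0` for `h ≤ z*`, `g = 1` for `h ≥ 2 z*`. -/
noncomputable def Ph (y : ℂ) : ℝ := F.χ y * Real.smoothTransition (F.h y / F.zs m - 1) * (F.Fm m y).re

/-- The stream function of the cell flow in the strip `j`. -/
noncomputable def cs (j : Fin F.n) (q : ℝ × ℝ) : ℝ :=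
  -(Real.sin (m * F.k j * q.1) * Real.sinh (m * F.k j * q.2) / m)

variable {m}

private theorem fdb_ring {ρ u : ℝ} (h0 : 0 < ρ) (hu : u ≤ Real.log (1 / ρ)) {q : ℝ × ℝ} (hq0 : 0 < q.2)
    (hq1 : q.2 < u) : Complex.exp (Complex.I * cxp q) ∈ ring ρ ∧
      Real.log ‖Complex.exp (Complex.I * cxp q)‖ = -q.2 := by
  have h1 : ‖Complex.exp (Complex.I * cxp q)‖ = Real.exp (-q.2) := by
    rw [Complex.norm_exp]
    congr 1
    simp
  refine ⟨⟨?_, ?_⟩, ?_⟩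
  · rw [h1]
    have h2 : Real.log ρ < -q.2 := by
      rw [one_div, Real.log_inv] at hu
      linarith
    exact (Real.log_lt_iff_lt_exp h0).1 h2
  · rw [h1]
    exact Real.exp_lt_one_iff.2 (by linarith)
  · rw [h1, Real.log_exp]

/-- `h = k z` in the strips (`IsFlush.h_ring`) -/
theorem h_X (j : Fin F.n) {q : ℝ × ℝ} (h0 : 0 < q.2) (h1 : q.2 < 16 * F.u) : F.h (F.X j q) = F.k j * q.2 := by
  obtain ⟨h2, h3⟩ := fdb_ring F.fl.cols.h0 F.uρ h0 h1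
  rw [F.eX, F.fl.h_ring j h2, h3]
  ring

/-- `E = exp (i k (y + i z))` in the strips (`IsFlush.root`) -/
theorem E_X (j : Fin F.n) {q : ℝ × ℝ} (h0 : 0 < q.2) (h1 : q.2 < 16 * F.u) :
    F.E (F.X j q) = Complex.exp (Complex.I * (F.k j * cxp q)) := by
  obtain ⟨h2, h3⟩ := fdb_ring F.fl.cols.h0 F.uρ h0 h1
  rw [F.eX, F.fl.root j _ h2, ← Complex.exp_nat_mul]
  congr 1
  ring

theorem Fm_X (hm : 1 ≤ m) (j : Fin F.n) {q : ℝ × ℝ} (h0 : 0 < q.2) (h1 : q.2 < 16 * F.u) :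
    (F.Fm m (F.X j q)).im = F.cs m j q ∧
      (F.Fm m (F.X j q)).re = Real.cos (m * F.k j * q.1) * Real.cosh (m * F.k j * q.2) / m := by
  have hm0 : (m : ℝ) ≠ 0 := by
    have : m ≠ 0 := by omega
    exact_mod_cast this
  have e1 := F.E_X j h0 h1
  have e2 : F.E (F.X j q) ^ m = Complex.exp (((((m * F.k j * q.1 : ℝ) : ℂ) +
      ((m * F.k j * q.2 : ℝ) : ℂ) * Complex.I)) * Complex.I) := by
    rw [e1, ← Complex.exp_nat_mul]
    congr 1
    apply Complex.ext <;> simp [cxp] <;> ring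
  have e3 : (F.E (F.X j q))⁻¹ ^ m = Complex.exp (-(((m * F.k j * q.1 : ℝ) : ℂ) +
      ((m * F.k j * q.2 : ℝ) : ℂ) * Complex.I) * Complex.I) := by
    rw [inv_pow, e2, neg_mul, Complex.exp_neg]
  have e4 : F.Fm m (F.X j q) = Complex.cos (((m * F.k j * q.1 : ℝ) : ℂ) +
      ((m * F.k j * q.2 : ℝ) : ℂ) * Complex.I) / ((m : ℝ) : ℂ) := by
    unfold Fm
    rw [e2, e3, Complex.cos]
    push_cast
    field_simp
  have e5 : F.Fm m (F.X j q) = ((Real.cos (m * F.k j * q.1) * Real.cosh (m * F.k j * q.2) / m : ℝ) : ℂ) +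
      ((-(Real.sin (m * F.k j * q.1) * Real.sinh (m * F.k j * q.2) / m) : ℝ) : ℂ) * Complex.I := by
    rw [e4, Complex.cos_add_mul_I, ← Complex.ofReal_cos, ← Complex.ofReal_sin, ← Complex.ofReal_cosh,
      ← Complex.ofReal_sinh]
    push_cast
    ring
  rw [e5]
  constructor
  · rw [Complex.add_im, Complex.ofReal_im, zero_add, Complex.im_ofReal_mul, Complex.I_im, mul_one]
    rfl
  · rw [Complex.add_re, Complex.ofReal_re, Complex.re_ofReal_mul, Complex.I_re, mul_zero, add_zero]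

/-- the strips are disjoint from `closedBall x t` -/
theorem X_away (j : Fin F.n) {q : ℝ × ℝ} (h0 : 0 < q.2) (h1 : q.2 < 16 * F.u) : F.t < dist (F.X j q) F.x := by
  obtain ⟨h2, h3⟩ := fdb_ring F.fl.cols.h0 F.uρ h0 h1
  by_contra hc
  rw [not_lt] at hc
  rw [F.eX] at hc
  exact Set.disjoint_left.1 (F.fl.away j) (Metric.mem_closedBall.2 hc) ⟨_, h2, rfl⟩

/-- **The gradient of `F_m`**: `F_m' = -(gr h) (E^m - E^{-m})/2` off `closedBall x s`. -/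
theorem Fm_der (hm : 1 ≤ m) {y : ℂ} (hy : y ∈ D \ Metric.closedBall F.x F.s) :
    HasDerivAt (F.Fm m) (-(gr F.h y) * (F.E y ^ m - ((F.E y)⁻¹) ^ m) / 2) y := by
  have hm0 : (m : ℂ) ≠ 0 := by
    have : m ≠ 0 := by omega
    exact_mod_cast this
  have k1 := F.fl.zpow hy (m : ℤ)
  have k2 := F.fl.zpow hy (-(m : ℤ))
  have k3 := (k1.add k2).div_const (2 * (m : ℂ))
  have e1 : ∀ y, F.E y ^ (m : ℤ) = F.E y ^ m := fun y => zpow_natCast _ _
  have e2 : ∀ y, F.E y ^ (-(m : ℤ)) = ((F.E y)⁻¹) ^ m := fun y => by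
    rw [zpow_neg, zpow_natCast, inv_pow]
  have e3 : (fun x => ((fun y => F.E y ^ (m : ℤ)) + fun y => F.E y ^ (-(m : ℤ))) x / (2 * (m : ℂ))) = F.Fm m := by
    funext z
    show (F.E z ^ (m : ℤ) + F.E z ^ (-(m : ℤ))) / (2 * (m : ℂ)) = _
    rw [e1, e2]
    rfl
  rw [e3] at k3
  refine k3.congr_deriv ?_
  rw [e1, e2]
  push_cast
  field_simp
  ring

theorem Fm_bd (hm : 1 ≤ m) {y : ℂ} (hy : y ∈ D \ Metric.closedBall F.x F.s) :
    ‖gr F.h y‖ * Real.sinh (m * F.h y) ≤ ‖deriv (F.Fm m) y‖ ∧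
      ‖deriv (F.Fm m) y‖ ≤ ‖gr F.h y‖ * Real.cosh (m * F.h y) ∧
      |(F.Fm m y).re| ≤ Real.cosh (m * F.h y) / m ∧ |(F.Fm m y).im| ≤ Real.cosh (m * F.h y) / m := by
  have hm0 : (0:ℝ) < m := by
    have : 0 < m := by omega
    exact_mod_cast this
  have n1 : ‖F.E y ^ m‖ = Real.exp (-(m * F.h y)) := by
    rw [norm_pow, F.fl.norm y hy, ← Real.exp_nat_mul]
    congr 1
    ring
  have n2 : ‖((F.E y)⁻¹) ^ m‖ = Real.exp (m * F.h y) := by
    rw [inv_pow, norm_inv, n1, ← Real.exp_neg, neg_neg]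
  have d1 : ‖deriv (F.Fm m) y‖ = ‖gr F.h y‖ * ‖F.E y ^ m - ((F.E y)⁻¹) ^ m‖ / 2 := by
    rw [(F.Fm_der hm hy).deriv, norm_div, norm_mul, norm_neg, Complex.norm_ofNat]
  have s1 : 2 * Real.sinh (m * F.h y) ≤ ‖F.E y ^ m - ((F.E y)⁻¹) ^ m‖ := by
    have k := norm_sub_norm_le (((F.E y)⁻¹) ^ m) (F.E y ^ m)
    rw [norm_sub_rev, n1, n2] at k
    rw [Real.sinh_eq]
    linarith
  have s2 : ‖F.E y ^ m - ((F.E y)⁻¹) ^ m‖ ≤ 2 * Real.cosh (m * F.h y) := by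
    have k := norm_sub_le (F.E y ^ m) (((F.E y)⁻¹) ^ m)
    rw [n1, n2] at k
    rw [Real.cosh_eq]
    linarith
  have s3 : ‖F.Fm m y‖ ≤ Real.cosh (m * F.h y) / m := by
    have k := norm_add_le (F.E y ^ m) (((F.E y)⁻¹) ^ m)
    rw [n1, n2] at k
    unfold Fm
    rw [norm_div, norm_mul, Complex.norm_ofNat, Complex.norm_natCast, Real.cosh_eq, div_div]
    exact div_le_div_of_nonneg_right (by linarith) (by positivity)
  have g0 := norm_nonneg (gr F.h y)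
  refine ⟨?_, ?_, (Complex.abs_re_le_norm _).trans s3, (Complex.abs_im_le_norm _).trans s3⟩
  · rw [d1]
    nlinarith
  · rw [d1]
    nlinarith

end FD

end Pool.Agent.Lib.MP_79abb3_an.PD
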