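import Pool.Agent.Lib.MP_79abb3_an.PD.FdB2
import Pool.Agent.Lib.MP_79abb3_an.PD.CoC4

/-!
Theorem D, block F: the bump `c₀` against stream functions.
-/

set_option autoImplicit false
set_option linter.unusedSectionVars false

open MeasureTheory Set Filter Topology Function
open scoped ENNReal InnerProductSpace ComplexConjugate

namespace Pool.Agent.Lib.MP_79abb3_an.PD

open Pool.Agent.Lib.MP_79abb3_an.SC Pool.Agent.Lib.MP_79abb3_an.P25

/-! ### calculus -/

private theorem fb3_st_smooth : ContDiff ℝ ((⊤ : ℕ∞) : WithTop ℕ∞) Real.smoothTransition :=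
  Real.smoothTransition.contDiff

private theorem fb3_st_zero {x : ℝ} (hx : 1 < x) : deriv Real.smoothTransition x = 0 := by
  have h1 : Real.smoothTransition =ᶠ[𝓝 x] fun _ => (1 : ℝ) := by
    filter_upwards [Ioi_mem_nhds hx] with y hy
    exact Real.smoothTransition.one_of_one_le (le_of_lt hy)
  rw [h1.deriv_eq, deriv_const]

private theorem fb3_st_zero' {x : ℝ} (hx : x < 0) : deriv Real.smoothTransition x = 0 := by
  have h1 : Real.smoothTransition =ᶠ[𝓝 x] fun _ => (0 : ℝ) := by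
    filter_upwards [Iio_mem_nhds hx] with y hy
    exact Real.smoothTransition.zero_of_nonpos (le_of_lt hy)
  rw [h1.deriv_eq, deriv_const]

private theorem fb3_st_bd : ∃ C : ℝ, 0 ≤ C ∧ ∀ x, |deriv Real.smoothTransition x| ≤ C := by
  have hc : Continuous (deriv Real.smoothTransition) :=
    fb3_st_smooth.continuous_deriv (by simp)
  obtain ⟨C, hC⟩ := (isCompact_Icc (a := (0 : ℝ)) (b := 1)).exists_bound_of_continuousOn
    hc.continuousOn
  refine ⟨max C 0, le_max_right _ _, fun x => ?_⟩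
  by_cases h : x ∈ Icc (0 : ℝ) 1
  · exact (hC x h).trans (le_max_left _ _)
  · have h0 : deriv Real.smoothTransition x = 0 := by
      by_cases h1 : x < 0
      · exact fb3_st_zero' h1
      · refine fb3_st_zero ?_
        by_contra h2
        exact h ⟨not_lt.1 h1, not_lt.1 h2⟩
    rw [h0, abs_zero]
    exact le_max_right _ _

private theorem fb3_fd {f g : ℝ → ℝ} (hf : Differentiable ℝ f) (hg : Differentiable ℝ g)
    (q v : ℝ × ℝ) : fderiv ℝ (fun q : ℝ × ℝ => ((g q.2 * f q.1 : ℝ) : ℂ)) q v =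
      ((deriv g q.2 * v.2 * f q.1 + g q.2 * (deriv f q.1 * v.1) : ℝ) : ℂ) := by
  have h1 : HasFDerivAt (fun q : ℝ × ℝ => g q.2)
      (deriv g q.2 • ContinuousLinearMap.snd ℝ ℝ ℝ) q :=
    (hg _).hasDerivAt.comp_hasFDerivAt q hasFDerivAt_snd
  have h2 : HasFDerivAt (fun q : ℝ × ℝ => f q.1)
      (deriv f q.1 • ContinuousLinearMap.fst ℝ ℝ ℝ) q :=
    (hf _).hasDerivAt.comp_hasFDerivAt q hasFDerivAt_fst
  have h3 : HasFDerivAt (fun q : ℝ × ℝ => ((g q.2 * f q.1 : ℝ) : ℂ)) _ q :=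
    Complex.ofRealCLM.hasFDerivAt.comp q (h1.mul h2)
  rw [h3.fderiv]
  simp
  ring

theorem fb3_dY {f g : ℝ → ℝ} (hf : Differentiable ℝ f) (hg : Differentiable ℝ g) :
    dYc (fun q : ℝ × ℝ => ((g q.2 * f q.1 : ℝ) : ℂ)) =
      fun q => ((g q.2 * deriv f q.1 : ℝ) : ℂ) := by
  funext q
  unfold dYc
  rw [fb3_fd hf hg]
  simp

theorem fb3_dZ {f g : ℝ → ℝ} (hf : Differentiable ℝ f) (hg : Differentiable ℝ g) :
    dZc (fun q : ℝ × ℝ => ((g q.2 * f q.1 : ℝ) : ℂ)) =
      fun q => ((deriv g q.2 * f q.1 : ℝ) : ℂ) := by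
  funext q
  unfold dZc
  rw [fb3_fd hf hg]
  simp

private theorem fb3_int_sin (a : ℝ) : ∫ y in Ioc (-Real.pi) Real.pi, Real.sin (a * y) = 0 := by
  rw [← intervalIntegral.integral_of_le (by linarith [Real.pi_pos])]
  have h1 := intervalIntegral.integral_comp_neg (a := -Real.pi) (b := Real.pi)
    (fun y => Real.sin (a * y))
  rw [neg_neg] at h1
  have h2 : ∀ y, Real.sin (a * -y) = -Real.sin (a * y) := fun y => by
    rw [mul_neg, Real.sin_neg]
  simp_rw [h2] at h1
  rw [intervalIntegral.integral_neg] at h1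
  linarith

/-! ### Laplacians -/

private theorem fb3_px_congr {f g : ℂ → ℂ} {y : ℂ} (h : f =ᶠ[𝓝 y] g) : PD.px f =ᶠ[𝓝 y] PD.px g := by
  filter_upwards [h.fderiv (𝕜 := ℝ)] with z hz
  unfold PD.px
  rw [hz]

private theorem fb3_py_congr {f g : ℂ → ℂ} {y : ℂ} (h : f =ᶠ[𝓝 y] g) : PD.py f =ᶠ[𝓝 y] PD.py g := by
  filter_upwards [h.fderiv (𝕜 := ℝ)] with z hz
  unfold PD.py
  rw [hz]

private theorem fb3_lap_congr {f g : ℂ → ℂ} {y : ℂ} (h : f =ᶠ[𝓝 y] g) :
    PD.lap f y = PD.lap g y := by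
  unfold PD.lap
  rw [(fb3_px_congr (fb3_px_congr h)).eq_of_nhds, (fb3_py_congr (fb3_py_congr h)).eq_of_nhds]

private theorem fb3_int_px {f : ℂ → ℂ} (h : Cc f) : ∫ x, PD.px f x = 0 := by
  have h0 : Integrable (fun x => fderiv ℝ f x 1) (volume : Measure ℂ) := h.px.integrable
  have h1 := integral_mul_fderiv_eq_neg_fderiv_mul_of_integrable (μ := (volume : Measure ℂ))
    (v := (1 : ℂ)) (f := fun _ : ℂ => (1 : ℂ)) (g := f) (by simp) (by
      simpa using h0) (by simpa using h.integrable)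
    (fun x _ => differentiableAt_const _) (fun x _ => h.smo.differentiable x)
  simpa [PD.px] using h1

private theorem fb3_int_py {f : ℂ → ℂ} (h : Cc f) : ∫ x, PD.py f x = 0 := by
  have h0 : Integrable (fun x => fderiv ℝ f x Complex.I) (volume : Measure ℂ) := h.py.integrable
  have h1 := integral_mul_fderiv_eq_neg_fderiv_mul_of_integrable (μ := (volume : Measure ℂ))
    (v := Complex.I) (f := fun _ : ℂ => (1 : ℂ)) (g := f) (by simp) (by
      simpa using h0) (by simpa using h.integrable)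
    (fun x _ => differentiableAt_const _) (fun x _ => h.smo.differentiable x)
  simpa [PD.py] using h1

private theorem fb3_int_lap {f : ℂ → ℂ} (h : Cc f) : ∫ x, PD.lap f x = 0 := by
  unfold PD.lap
  rw [integral_add h.px.px.integrable h.py.py.integrable, fb3_int_px h.px, fb3_int_py h.py,
    add_zero]

/-! ### the strip -/

private theorem fb3_dLc_congr {f g : ℝ × ℝ → ℂ} {q : ℝ × ℝ} (h : f =ᶠ[𝓝 q] g) :
    dLc f q = dLc g q := by
  have hY : ∀ {f g : ℝ × ℝ → ℂ}, f =ᶠ[𝓝 q] g → dYc f =ᶠ[𝓝 q] dYc g := by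
    intro f g h
    filter_upwards [h.fderiv (𝕜 := ℝ)] with z hz
    unfold dYc
    rw [hz]
  have hZ : ∀ {f g : ℝ × ℝ → ℂ}, f =ᶠ[𝓝 q] g → dZc f =ᶠ[𝓝 q] dZc g := by
    intro f g h
    filter_upwards [h.fderiv (𝕜 := ℝ)] with z hz
    unfold dZc
    rw [hz]
  unfold dLc
  rw [(hY (hY h)).eq_of_nhds, (hZ (hZ h)).eq_of_nhds]

/-- the profile of the cut off cell flow -/
private noncomputable def fb3_g (k m : ℕ) (b : ℝ) (z : ℝ) : ℝ :=
  Real.smoothTransition (b * (k * z) - 1) * -(Real.sinh (m * k * z) / m)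

private theorem fb3_g_smooth (k m : ℕ) (b : ℝ) :
    ContDiff ℝ ((⊤ : ℕ∞) : WithTop ℕ∞) (fb3_g k m b) := by
  have h1 : ContDiff ℝ ((⊤ : ℕ∞) : WithTop ℕ∞) fun z : ℝ => b * (k * z) - 1 :=
    (contDiff_const.mul (contDiff_const.mul contDiff_id)).sub contDiff_const
  have h2 : ContDiff ℝ ((⊤ : ℕ∞) : WithTop ℕ∞) fun z : ℝ => Real.sinh (m * k * z) :=
    Real.contDiff_sinh.comp (contDiff_const.mul contDiff_id)
  exact (fb3_st_smooth.comp h1).mul (h2.div_const _).neg

private theorem fb3_dL (k m : ℕ) (b : ℝ) (q : ℝ × ℝ) :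
    dLc (fun q : ℝ × ℝ => ((fb3_g k m b q.2 * Real.sin (m * k * q.1) : ℝ) : ℂ)) q =
      ((Real.sin (m * k * q.1) * (((m : ℝ) * k) ^ 2 * fb3_g k m b q.2 -
        deriv (deriv (fb3_g k m b)) q.2) : ℝ) : ℂ) := by
  have hs : ∀ x : ℝ, HasDerivAt (fun y : ℝ => Real.sin (m * k * y))
      (m * k * Real.cos (m * k * x)) x := by
    intro x
    have h1 : HasDerivAt (fun y : ℝ => (m : ℝ) * k * y) (m * k) x := by
      simpa using (hasDerivAt_id x).const_mul ((m : ℝ) * k)
    have h2 := h1.sin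
    rw [mul_comm (Real.cos ((m : ℝ) * k * x))] at h2
    exact h2
  have hc : ∀ x : ℝ, HasDerivAt (fun y : ℝ => m * k * Real.cos (m * k * y))
      (m * k * (m * k * -Real.sin (m * k * x))) x := by
    intro x
    have h1 : HasDerivAt (fun y : ℝ => (m : ℝ) * k * y) (m * k) x := by
      simpa using (hasDerivAt_id x).const_mul ((m : ℝ) * k)
    have h2 := h1.cos.const_mul ((m : ℝ) * k)
    rw [mul_comm (-Real.sin ((m : ℝ) * k * x))] at h2
    exact h2
  have ds : deriv (fun y : ℝ => Real.sin (m * k * y)) = fun y => m * k * Real.cos (m * k * y) :=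
    funext fun x => (hs x).deriv
  have dc : deriv (fun y : ℝ => m * k * Real.cos (m * k * y)) =
      fun x => m * k * (m * k * -Real.sin (m * k * x)) := funext fun x => (hc x).deriv
  have hsd : Differentiable ℝ fun y : ℝ => Real.sin (m * k * y) := fun x => (hs x).differentiableAt
  have hcd : Differentiable ℝ fun y : ℝ => m * k * Real.cos (m * k * y) :=
    fun x => (hc x).differentiableAt
  have hg := fb3_g_smooth k m b
  have hgd : Differentiable ℝ (fb3_g k m b) := hg.differentiable (by simp)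
  have hg' : ContDiff ℝ ((⊤ : ℕ∞) : WithTop ℕ∞) (deriv (fb3_g k m b)) :=
    ((contDiff_infty_iff_deriv (𝕜 := ℝ)).1 hg).2
  have hgd' : Differentiable ℝ (deriv (fb3_g k m b)) := hg'.differentiable (by simp)
  unfold dLc
  rw [fb3_dY hsd hgd, ds, fb3_dY hcd hgd, dc, fb3_dZ hsd hgd, fb3_dZ hsd hgd']
  simp only
  push_cast
  ring

private theorem fb3_sinh {T : ℝ} (h0 : 0 ≤ T) (h1 : T ≤ 1) :
    Real.sinh T ≤ T * Real.cosh 1 := by
  have h2 := Convex.norm_image_sub_le_of_norm_deriv_le (𝕜 := ℝ) (f := Real.sinh)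
    (C := Real.cosh 1) (s := Icc 0 1) (x := 0) (y := T)
    (fun x _ => Real.differentiable_sinh x) (fun x hx => by
      rw [Real.deriv_sinh, Real.norm_eq_abs, abs_of_pos (Real.cosh_pos x)]
      exact Real.cosh_le_cosh.2 (by rw [abs_of_nonneg hx.1, abs_one]; exact hx.2))
    (convex_Icc 0 1) ⟨le_rfl, zero_le_one⟩ ⟨h0, h1⟩
  rw [Real.sinh_zero, sub_zero, sub_zero, Real.norm_eq_abs, Real.norm_eq_abs, abs_of_nonneg h0,
    abs_of_nonneg (Real.sinh_nonneg_iff.2 h0)] at h2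
  linarith

private theorem fb3_g_der (k : ℕ) {m : ℕ} (hm : 1 ≤ m) (b z : ℝ) : HasDerivAt (fb3_g k m b)
    (b * k * deriv Real.smoothTransition (b * (k * z) - 1) * -(Real.sinh (m * k * z) / m) +
      Real.smoothTransition (b * (k * z) - 1) * -(k * Real.cosh (m * k * z))) z := by
  have hm' : (m : ℝ) ≠ 0 := by
    have : (1 : ℝ) ≤ m := by exact_mod_cast hm
    linarith
  have h1 : HasDerivAt (fun z : ℝ => b * (k * z) - 1) (b * k) z := by
    have := (((hasDerivAt_id z).const_mul (k : ℝ)).const_mul b).sub_const 1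
    simpa using this
  have h2 : HasDerivAt (fun z : ℝ => Real.smoothTransition (b * (k * z) - 1))
      (b * k * deriv Real.smoothTransition (b * (k * z) - 1)) z := by
    have h3 := ((fb3_st_smooth.differentiable (by simp)) (b * (k * z) - 1)).hasDerivAt.comp z h1
    rw [mul_comm] at h3
    exact h3
  have h4 : HasDerivAt (fun z : ℝ => (m : ℝ) * k * z) (m * k) z := by
    simpa using (hasDerivAt_id z).const_mul ((m : ℝ) * k)
  have h5 : HasDerivAt (fun z : ℝ => -(Real.sinh (m * k * z) / m))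
      (-(k * Real.cosh (m * k * z))) z := by
    have h6 := (h4.sinh.div_const (m : ℝ)).neg
    refine h6.congr_deriv ?_
    field_simp
  exact h2.mul h5

private theorem fb3_gbd (K : ℕ) : ∃ C : ℝ, 0 ≤ C ∧ ∀ k m : ℕ, 1 ≤ m → k ≤ K →
    ∀ b : ℝ, 2 * m ≤ b → ∀ z : ℝ, 0 < z →
      |fb3_g k m b z - fb3_g k m (2 * m) z| * (m * k) ≤ C ∧
      |deriv (fb3_g k m b) z - deriv (fb3_g k m (2 * m)) z| ≤ C := by
  obtain ⟨S, hS0, hS⟩ := fb3_st_bd
  have hc1 : 0 < Real.cosh 1 := Real.cosh_pos 1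
  have hs1 : 0 ≤ Real.sinh 1 := Real.sinh_nonneg_iff.2 zero_le_one
  refine ⟨4 * K * S * Real.cosh 1 + K * Real.cosh 1 + K * Real.sinh 1, by positivity, ?_⟩
  intro k m hm hk b hb z hz
  have hm' : (1 : ℝ) ≤ m := by exact_mod_cast hm
  have hm0 : (0 : ℝ) < m := by linarith
  have hk' : (k : ℝ) ≤ K := by exact_mod_cast hk
  have hk0 : (0 : ℝ) ≤ k := Nat.cast_nonneg k
  have hK0 : (0 : ℝ) ≤ K := Nat.cast_nonneg K
  obtain ⟨T, hT⟩ : ∃ T : ℝ, T = m * k * z := ⟨_, rfl⟩
  have hT0 : 0 ≤ T := by rw [hT]; positivity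
  have hkz : 0 ≤ (k : ℝ) * z := by positivity
  have e1 : 2 * (m : ℝ) * (k * z) = 2 * T := by rw [hT]; ring
  have e2 : 2 * T ≤ b * (k * z) := by
    rw [← e1]
    exact mul_le_mul_of_nonneg_right hb hkz
  -- the cut-off difference
  obtain ⟨w, hw⟩ : ∃ w : ℝ, w = Real.smoothTransition (b * (k * z) - 1) -
    Real.smoothTransition (2 * m * (k * z) - 1) := ⟨_, rfl⟩
  have hw1 : |w| ≤ 1 := by
    have a1 := Real.smoothTransition.nonneg (b * (k * z) - 1)
    have a2 := Real.smoothTransition.le_one (b * (k * z) - 1)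
    have a3 := Real.smoothTransition.nonneg (2 * m * (k * z) - 1)
    have a4 := Real.smoothTransition.le_one (2 * m * (k * z) - 1)
    rw [hw, abs_le]
    constructor <;> linarith
  have hwT : 1 ≤ T → w = 0 := by
    intro h
    rw [hw, Real.smoothTransition.one_of_one_le (by linarith),
      Real.smoothTransition.one_of_one_le (by rw [e1]; linarith), sub_self]
  have hwc : |w| * Real.cosh T ≤ Real.cosh 1 := by
    by_cases h : 1 ≤ T
    · rw [hwT h, abs_zero, zero_mul]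
      exact hc1.le
    · have h2 : Real.cosh T ≤ Real.cosh 1 :=
        Real.cosh_le_cosh.2 (by rw [abs_of_nonneg hT0, abs_one]; exact (not_le.1 h).le)
      calc |w| * Real.cosh T ≤ 1 * Real.cosh T :=
            mul_le_mul_of_nonneg_right hw1 (Real.cosh_pos T).le
        _ ≤ Real.cosh 1 := by rw [one_mul]; exact h2
  have hws : |w| * Real.sinh T ≤ Real.sinh 1 := by
    by_cases h : 1 ≤ T
    · rw [hwT h, abs_zero, zero_mul]
      exact hs1
    · have h2 : Real.sinh T ≤ Real.sinh 1 := Real.sinh_le_sinh.2 (not_le.1 h).le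
      calc |w| * Real.sinh T ≤ 1 * Real.sinh T :=
            mul_le_mul_of_nonneg_right hw1 (Real.sinh_nonneg_iff.2 hT0)
        _ ≤ Real.sinh 1 := by rw [one_mul]; exact h2
  -- the terms with the derivative of the cut-off
  have hder : ∀ α : ℝ, 2 * m ≤ α →
      |α * k * deriv Real.smoothTransition (α * (k * z) - 1) * -(Real.sinh T / m)| ≤
        2 * K * S * Real.cosh 1 := by
    intro α hα
    have hα0 : 0 ≤ α := by linarith
    by_cases h : 2 < α * (k * z)
    · rw [fb3_st_zero (by linarith), mul_zero, zero_mul, abs_zero]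
      positivity
    · have h2 : 2 * T ≤ α * (k * z) := by
        rw [← e1]
        exact mul_le_mul_of_nonneg_right hα hkz
      have h3 : T ≤ 1 := by linarith [not_lt.1 h]
      have h4 := fb3_sinh hT0 h3
      have h5 : Real.sinh T / m ≤ k * z * Real.cosh 1 := by
        rw [div_le_iff₀ hm0]
        have : T * Real.cosh 1 = k * z * Real.cosh 1 * m := by rw [hT]; ring
        linarith
      have h6 : 0 ≤ Real.sinh T / m := div_nonneg (Real.sinh_nonneg_iff.2 hT0) hm0.le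
      rw [abs_mul, abs_mul, abs_neg, abs_of_nonneg h6, abs_of_nonneg (mul_nonneg hα0 hk0)]
      calc α * k * |deriv Real.smoothTransition (α * (k * z) - 1)| * (Real.sinh T / m)
          ≤ α * k * S * (k * z * Real.cosh 1) := by
            refine mul_le_mul (mul_le_mul_of_nonneg_left (hS _) (mul_nonneg hα0 hk0)) h5 h6 ?_
            positivity
        _ = (α * (k * z)) * (k * (S * Real.cosh 1)) := by ring
        _ ≤ 2 * (K * (S * Real.cosh 1)) := by
            refine mul_le_mul (not_lt.1 h) (mul_le_mul_of_nonneg_right hk' (by positivity))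
              (by positivity) (by norm_num)
        _ = 2 * K * S * Real.cosh 1 := by ring
  refine ⟨?_, ?_⟩
  · have h1 : fb3_g k m b z - fb3_g k m (2 * m) z = w * -(Real.sinh T / m) := by
      unfold fb3_g
      rw [hw, hT]
      ring
    have h6 : 0 ≤ Real.sinh T / m := div_nonneg (Real.sinh_nonneg_iff.2 hT0) hm0.le
    rw [h1, abs_mul, abs_neg, abs_of_nonneg h6]
    have h2 : |w| * (Real.sinh T / m) * (m * k) = |w| * Real.sinh T * k := by
      field_simp
    rw [h2]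
    have h3 : |w| * Real.sinh T * k ≤ Real.sinh 1 * K := mul_le_mul hws hk' hk0 hs1
    have h4 : 0 ≤ 4 * K * S * Real.cosh 1 + K * Real.cosh 1 := by positivity
    linarith
  · rw [(fb3_g_der k hm b z).deriv, (fb3_g_der k hm (2 * m) z).deriv]
    have h1 := hder b hb
    have h2 := hder (2 * m) le_rfl
    rw [← hT]
    obtain ⟨A, hA⟩ : ∃ A : ℝ, A = b * k * deriv Real.smoothTransition (b * (k * z) - 1) *
      -(Real.sinh T / m) := ⟨_, rfl⟩
    obtain ⟨B, hB⟩ : ∃ B : ℝ, B = 2 * m * k *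
      deriv Real.smoothTransition (2 * m * (k * z) - 1) * -(Real.sinh T / m) := ⟨_, rfl⟩
    rw [← hA] at h1 ⊢
    rw [← hB] at h2 ⊢
    have h3 : A + Real.smoothTransition (b * (k * z) - 1) * -(k * Real.cosh T) -
        (B + Real.smoothTransition (2 * m * (k * z) - 1) * -(k * Real.cosh T)) =
        (A - B) - k * (w * Real.cosh T) := by
      rw [hw]
      ring
    rw [h3]
    have h4 : |k * (w * Real.cosh T)| ≤ K * Real.cosh 1 := by
      rw [abs_mul, abs_mul, abs_of_nonneg hk0, abs_of_pos (Real.cosh_pos T)]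
      exact mul_le_mul hk' hwc (by positivity) hK0
    have h5 : 0 ≤ K * Real.sinh 1 := by positivity
    calc |A - B - k * (w * Real.cosh T)| ≤ |A - B| + |k * (w * Real.cosh T)| := abs_sub _ _
      _ ≤ (|A| + |B|) + |k * (w * Real.cosh T)| := by
          have := abs_sub A B
          linarith
      _ ≤ _ := by linarith

namespace FD
variable {D : Set ℂ} (F : FD D) {m : ℕ}

/-- `χ ψ_m` cut off at the height `h = 1/b` -/
noncomputable def fb3_P (m : ℕ) (b : ℝ) (y : ℂ) : ℂ :=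
  ((F.χ y * Real.smoothTransition (b * F.h y - 1) * (F.Fm m y).im : ℝ) : ℂ)

theorem fb3_Ps : F.Ps m = fb3_P F m (2 * m) := rfl

theorem fb3_cc (hm : 1 ≤ m) (b : ℝ) :
    Cc (fb3_P F m b) ∧ tsupport (fb3_P F m b) ⊆ D := by
  have hDo := F.hD.op
  obtain ⟨K, hK⟩ : ∃ K : Set ℂ, K = {y | 1 ≤ b * F.h y} := ⟨_, rfl⟩
  have hKc : IsClosed K := by
    rw [hK]
    exact isClosed_le continuous_const (continuous_const.mul F.fl.cont)
  have hKD : K ⊆ D := by
    intro y hy
    by_contra h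
    rw [hK] at hy
    have h1 : 1 ≤ b * F.h y := hy
    rw [F.fl.zero y h, mul_zero] at h1
    linarith
  have h0 : ∀ y, y ∉ K → fb3_P F m b y = 0 := by
    intro y hy
    have h1 : b * F.h y < 1 := by
      rw [hK] at hy
      exact not_le.1 hy
    unfold fb3_P
    rw [Real.smoothTransition.zero_of_nonpos (by linarith), mul_zero, zero_mul,
      Complex.ofReal_zero]
  have hts : tsupport (fb3_P F m b) ⊆ K := by
    refine closure_minimal (fun y hy => ?_) hKc
    by_contra h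
    exact hy (h0 y h)
  have hKb : IsCompact K := by
    refine Metric.isCompact_of_isClosed_isBounded hKc (F.hD.bdd.subset hKD)
  refine ⟨⟨?_, hKb.of_isClosed_subset (isClosed_tsupport _) hts⟩, hts.trans hKD⟩
  show ContDiff ℝ ((⊤ : ℕ∞) : WithTop ℕ∞) (fb3_P F m b)
  rw [contDiff_iff_contDiffAt]
  intro y
  by_cases hy : y ∈ K
  · by_cases hd : dist y F.x < F.s1
    · have h1 : fb3_P F m b =ᶠ[𝓝 y] fun _ => (0 : ℂ) := by
        have ho : IsOpen {y : ℂ | dist y F.x < F.s1} :=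
          isOpen_lt (continuous_id.dist continuous_const) continuous_const
        filter_upwards [ho.mem_nhds hd] with z hz
        unfold fb3_P
        rw [F.χ0 z (le_of_lt hz), zero_mul, zero_mul, Complex.ofReal_zero]
      exact contDiffAt_const.congr_of_eventuallyEq h1
    · have hyD : y ∈ D \ Metric.closedBall F.x F.s := by
        refine ⟨hKD hy, fun h2 => ?_⟩
        rw [Metric.mem_closedBall] at h2
        exact hd (h2.trans_lt F.h1)
      have hUo : IsOpen (D \ Metric.closedBall F.x F.s) := hDo.sdiff Metric.isClosed_closedBall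
      have c1 : ContDiffAt ℝ ((⊤ : ℕ∞) : WithTop ℕ∞) F.h y :=
        (F.fl.smooth y hyD.1).contDiffAt (hDo.mem_nhds hyD.1)
      have c2 : ContDiffAt ℝ ((⊤ : ℕ∞) : WithTop ℕ∞) (F.Fm m) y := by
        have d1 : DifferentiableOn ℂ (F.Fm m) (D \ Metric.closedBall F.x F.s) := fun z hz =>
          (F.Fm_der hm hz).differentiableAt.differentiableWithinAt
        have d2 : AnalyticAt ℂ (F.Fm m) y := d1.analyticAt (hUo.mem_nhds hyD)
        exact (d2.contDiffAt (n := ((⊤ : ℕ∞) : WithTop ℕ∞))).restrict_scalars ℝ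
      have c3 : ContDiffAt ℝ ((⊤ : ℕ∞) : WithTop ℕ∞) (fun y => (F.Fm m y).im) y :=
        Complex.imCLM.contDiff.contDiffAt.comp y c2
      have c4 : ContDiffAt ℝ ((⊤ : ℕ∞) : WithTop ℕ∞)
          (fun y => Real.smoothTransition (b * F.h y - 1)) y :=
        fb3_st_smooth.contDiffAt.comp y ((contDiffAt_const.mul c1).sub contDiffAt_const)
      have c5 : ContDiffAt ℝ ((⊤ : ℕ∞) : WithTop ℕ∞)
          (fun y => F.χ y * Real.smoothTransition (b * F.h y - 1) * (F.Fm m y).im) y :=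
        (F.χs.contDiffAt.mul c4).mul c3
      exact Complex.ofRealCLM.contDiff.contDiffAt.comp y c5
  · have h1 : fb3_P F m b =ᶠ[𝓝 y] fun _ => (0 : ℂ) := by
      filter_upwards [hKc.isOpen_compl.mem_nhds hy] with z hz
      exact h0 z hz
    exact contDiffAt_const.congr_of_eventuallyEq h1

private noncomputable def fb3_A (hm : 1 ≤ m) (b : ℝ) : Adm D :=
  ⟨fb3_P F m b, (fb3_cc F hm b).1, (tsupport_fderiv_subset ℝ).trans (fb3_cc F hm b).2⟩

private theorem fb3_val (hm : 1 ≤ m) (b : ℝ) (j : Fin F.n) {q : ℝ × ℝ} (h0 : 0 < q.2)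
    (h1 : q.2 < 16 * F.u) : fb3_P F m b (F.X j q) =
      ((Real.smoothTransition (b * (F.k j * q.2) - 1) * F.cs m j q : ℝ) : ℂ) := by
  unfold fb3_P
  have h2 := F.X_away j h0 h1
  rw [F.χ1 _ (F.h3.le.trans h2.le), F.h_X j h0 h1, (F.Fm_X hm j h0 h1).1, one_mul]

private theorem fb3_c0_X (hm : 1 ≤ m) (j : Fin F.n) {q : ℝ × ℝ} (h0 : 0 < q.2)
    (h1 : q.2 < 16 * F.u) : F.c0 m (F.X j q) = 0 :=
  (F.c0_cc hm).2.1 _ (F.h3.le.trans (F.X_away j h0 h1).le)

/-- `c₀ + Δ P_b` vanishes away from the boundary -/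
private theorem fb3_R (hm : 1 ≤ m) (b : ℝ) {y : ℂ}
    (hy : y ∈ D → dist y F.x < F.s1 ∨ 2 < b * F.h y) :
    F.c0 m y + PD.lap (fb3_P F m b) y = 0 := by
  by_cases hyD : y ∈ D
  · have h1 : fb3_P F m b =ᶠ[𝓝 y] F.P0 m := by
      rcases hy hyD with h | h
      · have ho : IsOpen {y : ℂ | dist y F.x < F.s1} :=
          isOpen_lt (continuous_id.dist continuous_const) continuous_const
        filter_upwards [ho.mem_nhds h] with z hz
        unfold fb3_P P0
        rw [F.χ0 z (le_of_lt hz), zero_mul, zero_mul]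
      · have ho : IsOpen {y : ℂ | 2 < b * F.h y} :=
          isOpen_lt continuous_const (continuous_const.mul F.fl.cont)
        filter_upwards [ho.mem_nhds h] with z hz
        have hz' : 2 < b * F.h z := hz
        unfold fb3_P P0
        rw [Real.smoothTransition.one_of_one_le (by linarith), mul_one]
    have h2 : F.c0 m y = -PD.lap (F.P0 m) y := by
      unfold c0
      rw [if_pos hyD]
    rw [h2, fb3_lap_congr h1, neg_add_cancel]
  · have h1 : F.c0 m y = 0 := by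
      unfold c0
      rw [if_neg hyD]
    have h2 : PD.lap (fb3_P F m b) y = 0 := lap_zero (fb3_A F hm b) hyD
    rw [h1, h2, add_zero]

private theorem fb3_ev (hm : 1 ≤ m) (b : ℝ) (j : Fin F.n) {q : ℝ × ℝ} (h0 : 0 < q.2)
    (h1 : q.2 < 16 * F.u) : (fun q => fb3_P F m b (F.X j q)) =ᶠ[𝓝 q]
      fun q : ℝ × ℝ => ((fb3_g (F.k j) m b q.2 * Real.sin (m * F.k j * q.1) : ℝ) : ℂ) := by
  have ho : IsOpen {q : ℝ × ℝ | 0 < q.2 ∧ q.2 < 16 * F.u} :=
    (isOpen_lt continuous_const continuous_snd).inter (isOpen_lt continuous_snd continuous_const)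
  filter_upwards [ho.mem_nhds ⟨h0, h1⟩] with p hp
  rw [fb3_val F hm b j hp.1 hp.2]
  unfold fb3_g cs
  congr 1
  ring

/-- the integral of the Laplacian over a strip vanishes -/
private theorem fb3_int0 (hm : 1 ≤ m) (b : ℝ) (j : Fin F.n) {e : ℝ} (he : e ≤ 16 * F.u) :
    ∫ x in Wc (F.X j) e, PD.lap (fb3_P F m b) x = 0 := by
  rw [(F.hX j).integral he]
  have h1 : ∀ q ∈ Rc Real.pi e, mJ (F.X j) q • PD.lap (fb3_P F m b) (F.X j q) =
      ((Real.sin (m * F.k j * q.1) * (deriv (deriv (fb3_g (F.k j) m b)) q.2 -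
        ((m : ℝ) * F.k j) ^ 2 * fb3_g (F.k j) m b q.2) : ℝ) : ℂ) := by
    intro q hq
    have h2 := (F.hX j).dLc_comp (fb3_cc F hm b).1.smo (q := q) hq.2.1.le (hq.2.2.trans_le he)
    rw [fb3_dLc_congr (fb3_ev F hm b j hq.2.1 (hq.2.2.trans_le he)), fb3_dL] at h2
    rw [Complex.real_smul]
    have h3 : (mJ (F.X j) q : ℂ) * PD.lap (fb3_P F m b) (F.X j q) =
        -((mJ (F.X j) q : ℂ) * -PD.lap (fb3_P F m b) (F.X j q)) := by ring
    rw [h3, ← h2]
    push_cast
    ring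
  rw [setIntegral_congr_fun (measurableSet_Rc Real.pi e) h1]
  refine (integral_ofReal (𝕜 := ℂ) (f := fun q : ℝ × ℝ => Real.sin (m * F.k j * q.1) *
    (deriv (deriv (fb3_g (F.k j) m b)) q.2 -
      ((m : ℝ) * F.k j) ^ 2 * fb3_g (F.k j) m b q.2))).trans ?_
  unfold Rc
  rw [Measure.volume_eq_prod, setIntegral_prod_mul (fun y : ℝ => Real.sin (m * F.k j * y))
    (fun z : ℝ => deriv (deriv (fb3_g (F.k j) m b)) z -
        ((m : ℝ) * F.k j) ^ 2 * fb3_g (F.k j) m b z), fb3_int_sin, zero_mul]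
  exact Complex.ofReal_zero

private theorem fb3_rho {e : ℝ} (he : e < 16 * F.u) : F.ρ < Real.exp (-e) := by
  have h0 := F.fl.cols.h0
  have h1 := F.uρ
  rw [← Real.log_lt_iff_lt_exp h0]
  rw [one_div, Real.log_inv] at h1
  linarith

theorem fb3_cover {e : ℝ} (he0 : 0 < e) (he : e < 16 * F.u) :
    ∃ δ > 0, ∀ y ∈ D, F.s1 ≤ dist y F.x → F.h y < δ → ∃ j, y ∈ Wc (F.X j) e := by
  obtain ⟨c, hc, h⟩ := F.fl.h_low F.hD (r := Real.exp (-e)) (fb3_rho F he)
    (Real.exp_lt_one_iff.2 (by linarith)) (s' := F.s1) F.h1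
  refine ⟨c, hc, fun y hy hys hyh => ?_⟩
  by_contra hcon
  push Not at hcon
  refine absurd (h y hy hys fun j => ?_) (not_le.2 hyh)
  rintro ⟨ξ, hξ, rfl⟩
  refine hcon j ⟨(Complex.arg ξ, -Real.log ‖ξ‖), ?_, ?_⟩
  · have h0 : 0 < ‖ξ‖ := (Real.exp_pos _).trans hξ.1
    refine ⟨?_, ?_⟩
    · have := Real.log_neg h0 hξ.2
      show 0 < -Real.log ‖ξ‖
      linarith
    · have := (Real.lt_log_iff_exp_lt h0).2 hξ.1
      show -Real.log ‖ξ‖ < e
      linarith
  · rw [F.eX]
    congr 1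
    have h0 : ξ ≠ 0 := norm_pos_iff.1 ((Real.exp_pos _).trans hξ.1)
    have h1 : Complex.I * cxp (Complex.arg ξ, -Real.log ‖ξ‖) = Complex.log ξ := by
      apply Complex.ext
      · simp [Complex.log_re]
      · simp [Complex.log_im]
    rw [h1, Complex.exp_log h0]

theorem fb3_disj {e : ℝ} (he : e ≤ 16 * F.u) :
    Pairwise (Disjoint on fun j => Wc (F.X j) e) := by
  intro i j hij
  have hsub : ∀ j, Wc (F.X j) e ⊆ F.F j '' ringc F.ρ := by
    rintro j _ ⟨q, hq, rfl⟩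
    refine ⟨Complex.exp (Complex.I * cxp q), ?_, (F.eX j q).symm⟩
    have h1 : ‖Complex.exp (Complex.I * cxp q)‖ = Real.exp (-q.2) := by
      rw [Complex.norm_exp]
      simp
    refine ⟨?_, ?_⟩
    · rw [h1]
      exact fb3_rho F (hq.2.trans_le he)
    · rw [h1, Real.exp_le_one_iff]
      linarith [hq.1]
  exact (F.fl.cols.dis hij).mono (hsub i) (hsub j)

theorem fb3_sum {E : Type} [NormedAddCommGroup E] [NormedSpace ℝ E] {e : ℝ}
    (he : e ≤ 16 * F.u) {f : ℂ → E} (hf : Integrable f)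
    (h : ∀ y, (∀ j, y ∉ Wc (F.X j) e) → f y = 0) :
    ∫ y, f y = ∑ j, ∫ y in Wc (F.X j) e, f y := by
  rw [← integral_iUnion_fintype (fun j => ((F.hX j).isOpen_Wc he).measurableSet) (fb3_disj F he)
    (fun j => hf.integrableOn)]
  symm
  refine setIntegral_eq_integral_of_forall_compl_eq_zero fun y hy => h y fun j hj => ?_
  exact hy (mem_iUnion.2 ⟨j, hj⟩)

/-- `∫ c₀ = 0`. Take a smooth cut-off `κ(h)`, `κ = 1` for `h ≤ ε/2`, `κ = 0` for `h ≥ ε`, with `{0 < h < ε}` inside the strips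
(`IsFlush.h_low`); then `c₀ - cu (χ ψ_m (1 - κ)) = -Δ(κ ψ_m)` is supported in the strips, where its integral
(`IsStrip.integral`) is `∫ ∂_z (κ cs)(y,0) dy = 0` (`cs` is a multiple of `sin (m k y)`), and `∫ cu φ = 0` for `φ ∈ C_c^∞(D)`. -/
theorem c0_int (hm : 1 ≤ m) : ∫ y, F.c0 m y = 0 := by
  have hu := F.u0
  obtain ⟨δ, hδ, hcov⟩ := fb3_cover F (e := 8 * F.u) (by linarith) (by linarith)
  have hc0 := (F.c0_cc hm).1.cc
  have hP := (fb3_cc F hm (3 / δ)).1
  have h1 : ∫ y, (F.c0 m y + PD.lap (fb3_P F m (3 / δ)) y) = ∫ y, F.c0 m y := by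
    rw [integral_add hc0.integrable hP.lap.integrable, fb3_int_lap hP, add_zero]
  rw [← h1]
  refine (fb3_sum F (e := 8 * F.u) (by linarith)
    (f := fun y => F.c0 m y + PD.lap (fb3_P F m (3 / δ)) y)
    (hc0.integrable.add hP.lap.integrable) ?_).trans ?_
  swap
  · refine Finset.sum_eq_zero fun j _ => ?_
    rw [← fb3_int0 F hm (3 / δ) j (e := 8 * F.u) (by linarith)]
    refine setIntegral_congr_fun ((F.hX j).isOpen_Wc (by linarith)).measurableSet ?_
    rintro y ⟨q, hq, rfl⟩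
    show F.c0 m (F.X j q) + _ = _
    rw [fb3_c0_X F hm j hq.1 (by linarith [hq.2]), zero_add]
  · intro y hy
    refine fb3_R F hm _ fun hyD => ?_
    by_contra hcon
    push Not at hcon
    obtain ⟨j, hj⟩ := hcov y hyD hcon.1 (by
      have h2 := hcon.2
      rw [div_mul_eq_mul_div, div_le_iff₀ hδ] at h2
      nlinarith [F.fl.nonneg y])
    exact hy j hj

/-- `⟪ψ, c₀⟫ = ⟪∇ψ, ∇P_b⟫` for large `b` -/
private theorem fb3_key (hm : 1 ≤ m) (ψ : Adm D) : ∃ b₀ : ℝ, ∀ b, b₀ ≤ b →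
    ⟪cl2 ψ, cl2 (F.c0 m)⟫_ℂ = ⟪gp ψ, gp (fb3_P F m b)⟫_ℂ := by
  have hu := F.u0
  have had := fun j => (F.hX j).adm_const F.hD.op ψ
  choose ε hε0 hεc hε using had
  obtain ⟨M, hM⟩ := Finite.exists_le (fun j => (ε j)⁻¹)
  obtain ⟨e, he⟩ : ∃ e : ℝ, e = min (8 * F.u) (max M 1)⁻¹ := ⟨_, rfl⟩
  have hM1 : 0 < max M 1 := lt_of_lt_of_le one_pos (le_max_right _ _)
  have he0 : 0 < e := by
    rw [he]
    exact lt_min (by linarith) (inv_pos.2 hM1)
  have heu : e < 16 * F.u := by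
    have : e ≤ 8 * F.u := by rw [he]; exact min_le_left _ _
    linarith
  have heε : ∀ j, e ≤ ε j := by
    intro j
    have h1 : e ≤ (max M 1)⁻¹ := by rw [he]; exact min_le_right _ _
    refine h1.trans ?_
    rw [inv_le_comm₀ hM1 (hε0 j)]
    exact (hM j).trans (le_max_left _ _)
  obtain ⟨δ, hδ, hcov⟩ := fb3_cover F he0 heu
  refine ⟨3 / δ, fun b hb => ?_⟩
  have hψ := Adm.cc ψ
  have hc0 := (F.c0_cc hm).1.cc
  have hP := (fb3_cc F hm b).1
  have h1 : ⟪gp ψ, gp (fb3_P F m b)⟫_ℂ = -⟪cl2 ψ, cl2 (PD.lap (fb3_P F m b))⟫_ℂ := by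
    have a1 := congrArg (starRingEnd ℂ) (ip_gp hP hψ)
    rw [inner_conj_symm, inner_conj_symm] at a1
    rw [a1]
    unfold cu
    rw [inner_neg_right]
  have hR : Cc fun x => F.c0 m x + PD.lap (fb3_P F m b) x := hc0.add hP.lap
  have h2 : ⟪cl2 ψ, cl2 (F.c0 m)⟫_ℂ + ⟪cl2 ψ, cl2 (PD.lap (fb3_P F m b))⟫_ℂ =
      ∫ x, (starRingEnd ℂ) ((ψ : ℂ → ℂ) x) * (F.c0 m x + PD.lap (fb3_P F m b) x) := by
    have a1 : cl2 (F.c0 m) + cl2 (PD.lap (fb3_P F m b)) =
        cl2 fun x => F.c0 m x + PD.lap (fb3_P F m b) x :=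
      (cl2_add (hc0.memLp 2) (hP.lap.memLp 2)).symm
    have a2 := inner_add_right (𝕜 := ℂ) (cl2 (ψ : ℂ → ℂ)) (cl2 (F.c0 m))
      (cl2 (PD.lap (fb3_P F m b)))
    rw [← a2, a1]
    exact Cc.inner hψ hR
  have h3 : ∫ x, (starRingEnd ℂ) ((ψ : ℂ → ℂ) x) * (F.c0 m x + PD.lap (fb3_P F m b) x) = 0 := by
    refine (fb3_sum F heu.le (f := fun x => (starRingEnd ℂ) ((ψ : ℂ → ℂ) x) *
      (F.c0 m x + PD.lap (fb3_P F m b) x)) ((hψ.conj.mul_smo hR.smo).integrable) ?_).trans ?_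
    · intro y hy
      rw [fb3_R F hm b, mul_zero]
      intro hyD
      by_contra hcon
      push Not at hcon
      obtain ⟨j, hj⟩ := hcov y hyD hcon.1 (by
        have h4 := hcon.2
        have h5 := F.fl.nonneg y
        have h6 : 3 / δ * F.h y ≤ 2 := (mul_le_mul_of_nonneg_right hb h5).trans h4
        rw [div_mul_eq_mul_div, div_le_iff₀ hδ] at h6
        nlinarith)
      exact hy j hj
    · refine Finset.sum_eq_zero fun j _ => ?_
      have h4 : ∫ y in Wc (F.X j) e, (starRingEnd ℂ) ((ψ : ℂ → ℂ) y) *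
          (F.c0 m y + PD.lap (fb3_P F m b) y) =
          ∫ y in Wc (F.X j) e, (starRingEnd ℂ) ((ψ : ℂ → ℂ) (F.X j (0, 0))) *
          PD.lap (fb3_P F m b) y := by
        refine setIntegral_congr_fun ((F.hX j).isOpen_Wc heu.le).measurableSet ?_
        rintro y ⟨q, hq, rfl⟩
        show (starRingEnd ℂ) ((ψ : ℂ → ℂ) (F.X j q)) * (F.c0 m (F.X j q) + _) = _
        rw [fb3_c0_X F hm j hq.1 (hq.2.trans heu), zero_add]
        have h5 := hε j q.1 q.2 hq.1.le (hq.2.trans_le (heε j))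
        have h6 : (ψ : ℂ → ℂ) (F.X j q) = (ψ : ℂ → ℂ) (F.X j (0, 0)) := h5
        rw [h6]
      rw [h4, integral_const_mul, fb3_int0 F hm b j heu.le, mul_zero]
  rw [h1, eq_neg_iff_add_eq_zero, h2, h3]

/-- the gradients of the cut off potentials near the wall -/
theorem fb3_gp : ∃ (C : ℝ) (m₀ : ℕ), 0 ≤ C ∧ 1 ≤ m₀ ∧ ∀ m : ℕ, m₀ ≤ m → ∀ b : ℝ, 2 * m ≤ b →
    ‖gp (fb3_P F m b) - gp (F.Ps m)‖ ≤ C := by
  have hu := F.u0
  obtain ⟨e, he⟩ : ∃ e : ℝ, e = 8 * F.u := ⟨_, rfl⟩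
  have he0 : 0 < e := by rw [he]; linarith
  have heu : e < 16 * F.u := by rw [he]; linarith
  obtain ⟨δ, hδ, hcov⟩ := fb3_cover F he0 heu
  obtain ⟨C1, hC10, hC1⟩ := fb3_gbd F.K
  obtain ⟨V, hV⟩ : ∃ V : ℝ, V = volume.real (Rc Real.pi e) := ⟨_, rfl⟩
  have hV0 : 0 ≤ V := by rw [hV]; exact measureReal_nonneg
  refine ⟨√(F.n * (2 * C1 ^ 2 * V)), ⌈1 / δ⌉₊ + 1, Real.sqrt_nonneg _, by omega, ?_⟩
  intro m hm b hb
  have hm1 : 1 ≤ m := by omega
  have hmδ : 1 < m * δ := by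
    have h1 : (1 / δ : ℝ) ≤ ⌈1 / δ⌉₊ := Nat.le_ceil _
    have h2 : ((⌈1 / δ⌉₊ + 1 : ℕ) : ℝ) ≤ m := by exact_mod_cast hm
    push_cast at h2
    have h3 : 1 / δ < m := by linarith
    rwa [div_lt_iff₀ hδ] at h3
  have hP := (fb3_cc F hm1 b).1
  have hP' := (fb3_cc F hm1 (2 * m)).1
  obtain ⟨f, hf⟩ : ∃ f : ℂ → ℂ, f = fun x => fb3_P F m b x + (-1) * fb3_P F m (2 * m) x := ⟨_, rfl⟩
  have hfc : Cc f := by
    rw [hf]
    exact hP.add (hP'.cmul (-1))
  have hgp : gp (fb3_P F m b) - gp (F.Ps m) = gp f := by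
    rw [hf, gp_add hP (hP'.cmul (-1)), gp_cmul (-1) hP', fb3_Ps, neg_one_smul, sub_eq_add_neg]
  -- f vanishes away from the strips
  have hf0 : ∀ y, (∀ j, y ∉ Wc (F.X j) e) → f =ᶠ[𝓝 y] fun _ => (0 : ℂ) := by
    intro y hy
    by_cases hyD : y ∈ D
    · by_cases hd : dist y F.x < F.s1
      · have ho : IsOpen {y : ℂ | dist y F.x < F.s1} :=
          isOpen_lt (continuous_id.dist continuous_const) continuous_const
        filter_upwards [ho.mem_nhds hd] with z hz
        rw [hf]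
        unfold fb3_P
        simp only [F.χ0 z (le_of_lt hz), zero_mul, Complex.ofReal_zero, mul_zero, add_zero]
      · have hh : δ ≤ F.h y := by
          by_contra hcon
          obtain ⟨j, hj⟩ := hcov y hyD (not_lt.1 hd) (not_le.1 hcon)
          exact hy j hj
        have h2 : 2 < 2 * m * F.h y := by
          have : (m : ℝ) * δ ≤ m * F.h y := mul_le_mul_of_nonneg_left hh (Nat.cast_nonneg m)
          linarith
        have ho : IsOpen {y : ℂ | 2 < 2 * m * F.h y} :=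
          isOpen_lt continuous_const (continuous_const.mul F.fl.cont)
        filter_upwards [ho.mem_nhds h2] with z hz
        have hz' : 2 < 2 * m * F.h z := hz
        have hz'' : 2 * m * F.h z ≤ b * F.h z := mul_le_mul_of_nonneg_right hb (F.fl.nonneg z)
        rw [hf]
        unfold fb3_P
        simp only
        rw [Real.smoothTransition.one_of_one_le (by linarith : 1 ≤ b * F.h z - 1),
          Real.smoothTransition.one_of_one_le (by linarith : 1 ≤ 2 * (m : ℝ) * F.h z - 1)]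
        ring
    · have h1 : y ∉ tsupport (fb3_P F m b) := fun h => hyD ((fb3_cc F hm1 b).2 h)
      have h2 : y ∉ tsupport (fb3_P F m (2 * m)) := fun h => hyD ((fb3_cc F hm1 (2 * m)).2 h)
      rw [notMem_tsupport_iff_eventuallyEq] at h1 h2
      filter_upwards [h1, h2] with z hz1 hz2
      rw [hf]
      simp only [hz1, hz2, Pi.zero_apply, mul_zero, add_zero]
  have hpx0 : PD.px (fun _ : ℂ => (0 : ℂ)) = fun _ => 0 := by
    funext y
    simp [PD.px]
  have hpy0 : PD.py (fun _ : ℂ => (0 : ℂ)) = fun _ => 0 := by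
    funext y
    simp [PD.py]
  have i1 : Integrable (fun x => ‖PD.px f x‖ ^ 2) (volume : Measure ℂ) :=
    (hfc.px.memLp 2).integrable_norm_pow (by norm_num)
  have i2 : Integrable (fun x => ‖PD.py f x‖ ^ 2) (volume : Measure ℂ) :=
    (hfc.py.memLp 2).integrable_norm_pow (by norm_num)
  have hnorm : ‖gp f‖ ^ 2 = ∫ x, (‖PD.px f x‖ ^ 2 + ‖PD.py f x‖ ^ 2) := by
    rw [norm_gp_sq hfc, hfc.px.norm_sq, hfc.py.norm_sq, ← integral_add i1 i2]
  have hsum : ∫ x, (‖PD.px f x‖ ^ 2 + ‖PD.py f x‖ ^ 2) =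
      ∑ j, ∫ x in Wc (F.X j) e, (‖PD.px f x‖ ^ 2 + ‖PD.py f x‖ ^ 2) := by
    refine fb3_sum F heu.le (i1.add i2) fun y hy => ?_
    have h1 := (fb3_px_congr (hf0 y hy)).eq_of_nhds
    have h2 := (fb3_py_congr (hf0 y hy)).eq_of_nhds
    rw [h1, h2, hpx0, hpy0]
    simp
  have hj : ∀ j : Fin F.n, ∫ x in Wc (F.X j) e, (‖PD.px f x‖ ^ 2 + ‖PD.py f x‖ ^ 2) ≤
      2 * C1 ^ 2 * V := by
    intro j
    rw [(F.hX j).integral heu.le]
    refine (le_abs_self _).trans ?_
    rw [hV, ← Real.norm_eq_abs]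
    refine norm_setIntegral_le_of_norm_le_const ?_ fun q hq => ?_
    · have hb : Bornology.IsBounded (Rc Real.pi e) := by
        unfold Rc
        exact (Metric.isBounded_Ioc _ _).prod (Metric.isBounded_Ioo _ _)
      exact hb.measure_lt_top
    · have hq2 : q.2 < 16 * F.u := hq.2.2.trans heu
      have h1 := (F.hX j).grad_sq hfc.smo (q := q) hq.2.1.le hq2
      rw [smul_eq_mul, ← h1]
      have hg1 := fb3_g_smooth (F.k j) m b
      have hg2 := fb3_g_smooth (F.k j) m (2 * m)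
      have hd1 : Differentiable ℝ (fb3_g (F.k j) m b) := hg1.differentiable (by simp)
      have hd2 : Differentiable ℝ (fb3_g (F.k j) m (2 * m)) := hg2.differentiable (by simp)
      have hdG : Differentiable ℝ fun z => fb3_g (F.k j) m b z - fb3_g (F.k j) m (2 * m) z :=
        hd1.sub hd2
      have hsn : ∀ x : ℝ, HasDerivAt (fun y : ℝ => Real.sin (m * F.k j * y))
          (m * F.k j * Real.cos (m * F.k j * x)) x := by
        intro x
        have h1 : HasDerivAt (fun y : ℝ => (m : ℝ) * F.k j * y) (m * F.k j) x := by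
          simpa using (hasDerivAt_id x).const_mul ((m : ℝ) * F.k j)
        have h2 := h1.sin
        rw [mul_comm (Real.cos ((m : ℝ) * F.k j * x))] at h2
        exact h2
      have hsd : Differentiable ℝ fun y : ℝ => Real.sin (m * F.k j * y) :=
        fun x => (hsn x).differentiableAt
      have hev : (fun q => f (F.X j q)) =ᶠ[𝓝 q] fun q : ℝ × ℝ =>
          (((fb3_g (F.k j) m b q.2 - fb3_g (F.k j) m (2 * m) q.2) *
            Real.sin (m * F.k j * q.1) : ℝ) : ℂ) := by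
        filter_upwards [fb3_ev F hm1 b j hq.2.1 hq2, fb3_ev F hm1 (2 * m) j hq.2.1 hq2] with p p1 p2
        rw [hf]
        simp only
        rw [p1, p2]
        push_cast
        ring
      have hY : dYc (fun q => f (F.X j q)) q =
          (((fb3_g (F.k j) m b q.2 - fb3_g (F.k j) m (2 * m) q.2) *
            (m * F.k j * Real.cos (m * F.k j * q.1)) : ℝ) : ℂ) := by
        have h2 : dYc (fun q => f (F.X j q)) q = dYc (fun q : ℝ × ℝ =>
          (((fb3_g (F.k j) m b q.2 - fb3_g (F.k j) m (2 * m) q.2) *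
            Real.sin (m * F.k j * q.1) : ℝ) : ℂ)) q := by
          unfold dYc
          rw [hev.fderiv_eq]
        rw [h2, fb3_dY (f := fun y => Real.sin (m * F.k j * y))
          (g := fun z => fb3_g (F.k j) m b z - fb3_g (F.k j) m (2 * m) z) hsd hdG]
        simp only
        rw [(hsn q.1).deriv]
      have hZ : dZc (fun q => f (F.X j q)) q =
          (((deriv (fb3_g (F.k j) m b) q.2 - deriv (fb3_g (F.k j) m (2 * m)) q.2) *
            Real.sin (m * F.k j * q.1) : ℝ) : ℂ) := by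
        have h2 : dZc (fun q => f (F.X j q)) q = dZc (fun q : ℝ × ℝ =>
          (((fb3_g (F.k j) m b q.2 - fb3_g (F.k j) m (2 * m) q.2) *
            Real.sin (m * F.k j * q.1) : ℝ) : ℂ)) q := by
          unfold dZc
          rw [hev.fderiv_eq]
        rw [h2, fb3_dZ (f := fun y => Real.sin (m * F.k j * y))
          (g := fun z => fb3_g (F.k j) m b z - fb3_g (F.k j) m (2 * m) z) hsd hdG]
        simp only
        rw [deriv_fun_sub (hd1 _) (hd2 _)]
      obtain ⟨b1, b2⟩ := hC1 (F.k j) m hm1 (F.hK j) b hb q.2 hq.2.1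
      have n1 : ‖dYc (fun q => f (F.X j q)) q‖ ≤ C1 := by
        rw [hY, Complex.norm_real, norm_mul, norm_mul, Real.norm_eq_abs, Real.norm_eq_abs,
          Real.norm_eq_abs]
        have h3 := Real.abs_cos_le_one (m * F.k j * q.1)
        have h4 : |(m : ℝ) * F.k j| = m * F.k j := abs_of_nonneg (by positivity)
        rw [h4, ← mul_assoc]
        calc _ ≤ |fb3_g (F.k j) m b q.2 - fb3_g (F.k j) m (2 * m) q.2| * (m * F.k j) * 1 :=
              mul_le_mul_of_nonneg_left h3 (by positivity)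
          _ ≤ C1 := by rw [mul_one]; exact b1
      have n2 : ‖dZc (fun q => f (F.X j q)) q‖ ≤ C1 := by
        rw [hZ, Complex.norm_real, norm_mul, Real.norm_eq_abs, Real.norm_eq_abs]
        have h3 := Real.abs_sin_le_one (m * F.k j * q.1)
        calc _ ≤ |deriv (fb3_g (F.k j) m b) q.2 - deriv (fb3_g (F.k j) m (2 * m)) q.2| * 1 :=
              mul_le_mul_of_nonneg_left h3 (abs_nonneg _)
          _ ≤ C1 := by rw [mul_one]; exact b2
      have n3 := pow_le_pow_left₀ (norm_nonneg _) n1 2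
      have n4 := pow_le_pow_left₀ (norm_nonneg _) n2 2
      rw [Real.norm_eq_abs, abs_of_nonneg (by positivity)]
      linarith
  rw [hgp]
  refine Real.le_sqrt_of_sq_le ?_
  rw [hnorm, hsum]
  refine (Finset.sum_le_sum fun j _ => hj j).trans ?_
  rw [Finset.sum_const, Finset.card_univ, Fintype.card_fin, nsmul_eq_mul]

/-- **`c₀` against stream functions.** `c₀ - cu Ψ = -Δ(κ χ ψ_m)`, supported in the strips `k z ≤ 1/m`; in the strip
`∫ conj ψ (-Δ)(κ cs) = ∫ ∇(conj ψ)·∇(κ cs) + conj c ∫ ∂_z cs(y,0) dy` with the wall value `c`, the last integral vanishes;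
`|∇ (κ cs)| ≤ C` for `z ≤ 1/(m k)`. For `m` large so that `1/m < 16u`. -/
theorem c0_Ps : ∃ C m₀, 0 ≤ C ∧ ∀ m : ℕ, m₀ ≤ m → ∀ ψ : Adm D,
    ‖⟪cl2 ψ, cl2 (F.c0 m)⟫_ℂ - ⟪gp ψ, gp (F.Ps m)⟫_ℂ‖ ≤ C * ‖gp ψ‖ := by
  obtain ⟨C, m₀, hC, hm₀, h⟩ := fb3_gp F
  refine ⟨C, m₀, hC, fun m hm ψ => ?_⟩
  have hm1 : 1 ≤ m := hm₀.trans hm
  obtain ⟨b₀, hb₀⟩ := fb3_key F hm1 ψ
  have h1 := h m hm (max b₀ (2 * m)) (le_max_right _ _)
  rw [hb₀ _ (le_max_left b₀ (2 * m)), ← inner_sub_right]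
  refine (norm_inner_le_norm _ _).trans ?_
  rw [mul_comm]
  exact mul_le_mul_of_nonneg_right h1 (norm_nonneg _)

end FD

end Pool.Agent.Lib.MP_79abb3_an.PD
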