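import Pool.Agent.Lib.MP_79abb3_an.PD.ScA

/-!
Theorem D, scalar theory: `XS D = L²(D)`, `SV D = H¹₀(D)` (as the space of the rotated gradients `gp φ`).
-/

set_option autoImplicit false
set_option linter.unusedSectionVars false

open MeasureTheory Set Filter Topology Function
open scoped ENNReal InnerProductSpace ComplexConjugate

namespace Pool.Agent.Lib.MP_79abb3_an.PD

open Pool.Agent.Lib.MP_79abb3_an.SC

private theorem sca2_lim {f : ℕ → L4c} {F : L4c} {g : ℕ → L2c} {G : L2c} (hf : Tendsto f atTop (𝓝 F))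
    (hg : Tendsto g atTop (𝓝 G)) (h : ∀ n, (f n : ℂ → ℂ) =ᵐ[volume] g n) : (F : ℂ → ℂ) =ᵐ[volume] G := by
  have h1 := tendstoInMeasure_of_tendsto_Lp hf
  have h2 := tendstoInMeasure_of_tendsto_Lp hg
  exact tendstoInMeasure_ae_unique h1 (h2.congr_left fun n => (h n).symm)

private theorem sca2_inner {f : ℂ → ℂ} (hf : MemLp f 2 (volume : Measure ℂ)) (u : L2c) :
    ⟪cl2 f, u⟫_ℂ = ∫ x, u x * (starRingEnd ℂ) (f x) := by
  rw [L2.inner_def]
  refine integral_congr_ae ?_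
  filter_upwards [cl2_coe hf] with x hx
  rw [hx, RCLike.inner_apply]

/-- integration against a test function is an inner product -/
private theorem sca2_int {f : ℂ → ℂ} (hf : Cc f) (u : L2c) :
    ∫ x, (u : ℂ → ℂ) x * f x = ⟪cl2 (fun x => conj (f x)), u⟫_ℂ := by
  rw [sca2_inner (hf.conj.memLp 2)]
  simp only [Complex.conj_conj]

private theorem sca2_conj {D : Set ℂ} (φ : AdmS D) : (fun x => conj ((φ : ℂ → ℂ) x)) ∈ AdmS D :=
  ⟨φ.2.1.conj, (tsupport_comp_subset (g := fun z : ℂ => conj z) (map_zero _) _).trans φ.2.2⟩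

section
variable {D : Set ℂ} (hD : Bornology.IsBounded D)
include hD

private theorem sca2_poi : ∃ C, 0 ≤ C ∧ ∀ φ : AdmS D, ‖clX D φ‖ ≤ C * ‖gpV D φ‖ := by
  obtain ⟨R, hR, h⟩ := exists_radius hD
  refine ⟨2 * R, by positivity, fun φ => ?_⟩
  have h1 := φ.2.1.poincare hR (fun x hx => image_eq_zero_of_notMem_tsupport fun h' =>
    absurd (h x (φ.2.2 h')) (not_lt.2 hx))
  rw [← φ.2.1.norm_sq, ← φ.2.1.px.norm_sq] at h1
  have h2 := norm_gp_sq φ.2.1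
  have e1 : ‖clX D φ‖ = ‖cl2 φ‖ := rfl
  have e2 : ‖gpV D φ‖ = ‖gp φ‖ := rfl
  rw [e1, e2]
  refine le_of_sq_le_sq ?_ (by positivity)
  rw [mul_pow, h2]
  have h3 : 0 ≤ 4 * R ^ 2 * ‖cl2 (py φ)‖ ^ 2 := by positivity
  nlinarith [h1]

/-- Proof: Poincaré (`Cc.poincare`). -/
theorem js_gpV (φ : AdmS D) : js D (gpV D φ) = clX D φ := by
  obtain ⟨C, -, h⟩ := sca2_poi hD
  exact LinearMap.extendOfNorm_eq (f := clX D) (e := gpV D) (gpV_dense D) ⟨C, h⟩ φ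

private theorem sca2_lady : ∃ C, 0 ≤ C ∧ ∀ φ : AdmS D,
    ‖cl4 φ‖ ^ 2 ≤ C * (‖clX D φ‖ * ‖gpV D φ‖) := by
  obtain ⟨C, hC, h⟩ := exists_lady
  refine ⟨2 * C, by positivity, fun φ => (h φ φ.2.1).trans ?_⟩
  have h2 := norm_gp_sq φ.2.1
  have gx : ‖cl2 (px φ)‖ ≤ ‖gp φ‖ := by
    refine le_of_sq_le_sq ?_ (norm_nonneg _)
    rw [h2]; nlinarith [sq_nonneg ‖cl2 (py φ)‖]
  have gy : ‖cl2 (py φ)‖ ≤ ‖gp φ‖ := by
    refine le_of_sq_le_sq ?_ (norm_nonneg _)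
    rw [h2]; nlinarith [sq_nonneg ‖cl2 (px φ)‖]
  have e1 : ‖clX D φ‖ = ‖cl2 φ‖ := rfl
  have e2 : ‖gpV D φ‖ = ‖gp φ‖ := rfl
  rw [e1, e2]
  have : ‖cl2 φ‖ * (‖cl2 (px φ)‖ + ‖cl2 (py φ)‖) ≤ ‖cl2 φ‖ * (‖gp φ‖ + ‖gp φ‖) := by gcongr
  nlinarith [mul_le_mul_of_nonneg_left this hC]

/-- Proof: `exists_lady`. -/
theorem j4_gpV (φ : AdmS D) : j4 D (gpV D φ) = cl4 φ := by
  obtain ⟨C, hC, h⟩ := sca2_lady hD
  obtain ⟨B, hB, h'⟩ := sca2_poi hD
  refine LinearMap.extendOfNorm_eq (f := c4S D) (e := gpV D) (gpV_dense D) ⟨√(C * B), fun χ => ?_⟩ φ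
  have e : c4S D χ = cl4 χ := rfl
  rw [e]
  refine le_of_sq_le_sq ?_ (by positivity)
  rw [mul_pow, Real.sq_sqrt (mul_nonneg hC hB)]
  calc ‖cl4 χ‖ ^ 2 ≤ C * (‖clX D χ‖ * ‖gpV D χ‖) := h χ
    _ ≤ C * ((B * ‖gpV D χ‖) * ‖gpV D χ‖) := by
      have := h' χ
      gcongr
    _ = C * B * ‖gpV D χ‖ ^ 2 := by ring

/-- the weak form, private version -/
private theorem sca2_weak (q : SV D) {χ : ℂ → ℂ} (hχ : Cc χ) :
    ∫ x, (q : Y2).fst x * χ x = -∫ x, ((js D q : XS D) : L2c) x * py χ x ∧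
    ∫ x, (q : Y2).snd x * χ x = ∫ x, ((js D q : XS D) : L2c) x * px χ x := by
  rw [sca2_int hχ, sca2_int hχ.py, sca2_int hχ, sca2_int hχ.px]
  have cl : IsClosed {q : SV D | ⟪cl2 (fun x => conj (χ x)), (q : Y2).fst⟫_ℂ =
      -⟪cl2 (fun x => conj (py χ x)), ((js D q : XS D) : L2c)⟫_ℂ ∧
      ⟪cl2 (fun x => conj (χ x)), (q : Y2).snd⟫_ℂ =
      ⟪cl2 (fun x => conj (px χ x)), ((js D q : XS D) : L2c)⟫_ℂ} := by
    have c1 : Continuous fun q : SV D => (q : Y2).fst := by fun_prop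
    have c2 : Continuous fun q : SV D => (q : Y2).snd := by fun_prop
    have c3 : Continuous fun q : SV D => ((js D q : XS D) : L2c) := by fun_prop
    exact (isClosed_eq (continuous_const.inner c1) (continuous_const.inner c3).neg).inter
      (isClosed_eq (continuous_const.inner c2) (continuous_const.inner c3))
  refine isClosed_property (gpV_dense D) cl (fun φ => ?_) q
  show ⟪cl2 (fun x => conj (χ x)), cl2 (py φ)⟫_ℂ =
      -⟪cl2 (fun x => conj (py χ x)), ((js D (gpV D φ) : XS D) : L2c)⟫_ℂ ∧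
      ⟪cl2 (fun x => conj (χ x)), -cl2 (px φ)⟫_ℂ =
      ⟪cl2 (fun x => conj (px χ x)), ((js D (gpV D φ) : XS D) : L2c)⟫_ℂ
  rw [js_gpV hD, clX_coe, inner_neg_right, hχ.conj.inner φ.2.1.py, hχ.py.conj.inner φ.2.1,
    hχ.conj.inner φ.2.1.px, hχ.px.conj.inner φ.2.1]
  simp only [Complex.conj_conj]
  have i1 := φ.2.1.ibpy hχ
  have i2 := φ.2.1.ibpx hχ
  constructor
  · have e1 : ∫ x, χ x * py (φ : ℂ → ℂ) x = ∫ x, py (φ : ℂ → ℂ) x * χ x := by
      congr 1; funext x; ring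
    have e2 : ∫ x, py χ x * (φ : ℂ → ℂ) x = ∫ x, (φ : ℂ → ℂ) x * py χ x := by
      congr 1; funext x; ring
    rw [e1, e2, i1]
  · have e1 : ∫ x, χ x * px (φ : ℂ → ℂ) x = ∫ x, px (φ : ℂ → ℂ) x * χ x := by
      congr 1; funext x; ring
    have e2 : ∫ x, px χ x * (φ : ℂ → ℂ) x = ∫ x, (φ : ℂ → ℂ) x * px χ x := by
      congr 1; funext x; ring
    rw [e1, e2, i2, neg_neg]

omit hD in
private theorem sca2_zero {u : L2c} (h : ∀ χ : ℂ → ℂ, Cc χ → ∫ x, (u : ℂ → ℂ) x * χ x = 0) :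
    u = 0 := by
  have hae : ∀ᵐ x ∂(volume : Measure ℂ), (u : ℂ → ℂ) x = 0 := by
    refine ae_eq_zero_of_integral_contDiff_smul_eq_zero
      ((Lp.memLp u).locallyIntegrable (by norm_num)) fun g hg hc => ?_
    have hG : Cc (fun x => (g x : ℂ)) := by
      refine ⟨Complex.ofRealCLM.contDiff.comp hg, ?_⟩
      exact hc.comp_left (g := fun r : ℝ => (r : ℂ)) (by simp)
    have := h _ hG
    rw [← this]
    refine integral_congr_ae (Eventually.of_forall fun x => ?_)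
    simp [mul_comm]
  exact Lp.eq_zero_iff_ae_eq_zero.2 hae

/-- Injectivity: if `gp φ_n → q` and `φ_n → 0` in `L²`, then `∫ q χ = lim -∫ φ_n χ' = 0` for all test functions `χ`. -/
theorem fdomS : FDom (js D) := by
  constructor
  · intro q hq
    have h1 : (q : Y2).fst = 0 := sca2_zero fun χ hχ => by
      have e : ((js D q : XS D) : L2c) = 0 := by rw [hq]; rfl
      rw [(sca2_weak hD q hχ).1, sca2_int hχ.py, e, inner_zero_right, neg_zero]
    have h2 : (q : Y2).snd = 0 := sca2_zero fun χ hχ => by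
      have e : ((js D q : XS D) : L2c) = 0 := by rw [hq]; rfl
      rw [(sca2_weak hD q hχ).2, sca2_int hχ.px, e, inner_zero_right]
    apply Subtype.ext
    apply (WithLp.equiv 2 (L2c × L2c)).injective
    exact Prod.ext h1 h2
  · refine (clX_dense D).mono ?_
    rintro _ ⟨φ, rfl⟩
    exact ⟨gpV D φ, js_gpV hD φ⟩

theorem exists_LadS : ∃ C, Lad (js D) (j4 D) C := by
  obtain ⟨C, hC, h⟩ := sca2_lady hD
  refine ⟨√C, fdomS hD, Real.sqrt_nonneg _, fun v => ?_⟩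
  rw [Real.sq_sqrt hC]
  have cl : IsClosed {v : SV D | ‖j4 D v‖ ^ 2 ≤ C * (‖js D v‖ * ‖v‖)} := by
    have k1 : Continuous fun v : SV D => ‖j4 D v‖ ^ 2 := by fun_prop
    have k3 : Continuous fun v : SV D => C * (‖js D v‖ * ‖v‖) := by fun_prop
    exact isClosed_le k1 k3
  refine isClosed_property (gpV_dense D) cl (fun φ => ?_) v
  show ‖j4 D (gpV D φ)‖ ^ 2 ≤ C * (‖js D (gpV D φ)‖ * ‖gpV D φ‖)
  rw [j4_gpV hD, js_gpV hD]
  exact h φ

theorem FCjS : FCj (js D) (j4 D) (cXS D) (cSV D) cL4 := by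
  have hX : ∀ φ : AdmS D, cXS D (clX D φ) = clX D ⟨_, sca2_conj φ⟩ := fun φ =>
    Subtype.ext (cl2_conj (φ.2.1.memLp 2))
  have hV : ∀ φ : AdmS D, cSV D (gpV D φ) = gpV D ⟨_, sca2_conj φ⟩ := fun φ =>
    Subtype.ext (gp_conj φ.2.1)
  refine ⟨⟨fun x => Subtype.ext (Cnj_cL2.inv _), fun c x => Subtype.ext (Cnj_cL2.anti c _),
      fun x y => Cnj_cL2.inner _ _⟩,
    ⟨fun x => Subtype.ext (Cnj_cYy.inv _), fun c x => Subtype.ext (Cnj_cYy.anti c _),
      fun x y => Cnj_cYy.inner _ _⟩, fun z => ?_, fun c z => ?_, fun z => ?_, fun v => ?_, fun v => ?_⟩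
  · exact congrArg Prod.fst (cZ4_inv (z, 0))
  · exact congrArg Prod.fst (cZ4_anti c (z, 0))
  · have h1 := cZ4_norm (z, 0)
    have e : cZ4 (z, 0) = (cL4 z, 0) := Prod.ext rfl (map_zero cL4)
    rw [e, Prod.norm_mk, Prod.norm_mk, norm_zero, max_eq_left (norm_nonneg _),
      max_eq_left (norm_nonneg _)] at h1
    exact h1
  · have cl : IsClosed {v : SV D | cXS D (js D v) = js D (cSV D v)} :=
      isClosed_eq (by fun_prop) (by fun_prop)
    refine isClosed_property (gpV_dense D) cl (fun φ => ?_) v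
    show cXS D (js D (gpV D φ)) = js D (cSV D (gpV D φ))
    rw [js_gpV hD, hX, hV, js_gpV hD]
  · have cl : IsClosed {v : SV D | cL4 (j4 D v) = j4 D (cSV D v)} :=
      isClosed_eq (by fun_prop) (by fun_prop)
    refine isClosed_property (gpV_dense D) cl (fun φ => ?_) v
    show cL4 (j4 D (gpV D φ)) = j4 D (cSV D (gpV D φ))
    rw [j4_gpV hD, hV, j4_gpV hD]
    exact cl4_conj (φ.2.1.memLp 4)

/-- the `L⁴` class is the `L²` class -/
theorem j4_ae (q : SV D) : (j4 D q : ℂ → ℂ) =ᵐ[volume] ((js D q : XS D) : L2c) := by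
  have c1 : Continuous fun v : SV D => j4 D v := by fun_prop
  have c2 : Continuous fun v : SV D => ((js D v : XS D) : L2c) := by fun_prop
  have cl : IsClosed {v : SV D | (j4 D v : ℂ → ℂ) =ᵐ[volume] ((js D v : XS D) : L2c)} := by
    apply IsSeqClosed.isClosed
    intro f g hf hg
    exact sca2_lim ((c1.tendsto g).comp hg) ((c2.tendsto g).comp hg) hf
  refine isClosed_property (gpV_dense D) cl (fun φ => ?_) q
  show (j4 D (gpV D φ) : ℂ → ℂ) =ᵐ[volume] ((js D (gpV D φ) : XS D) : L2c)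
  rw [j4_gpV hD, js_gpV hD]
  show (cl4 φ : ℂ → ℂ) =ᵐ[volume] cl2 φ
  exact (cl4_coe (φ.2.1.memLp 4)).trans (cl2_coe (φ.2.1.memLp 2)).symm

/-- The weak form of `q = gp o`: `∫ q₁ χ = -∫ o χ_y`, `∫ q₂ χ = ∫ o χ_x`. -/
theorem SV_weak (q : SV D) {χ : ℂ → ℂ} (hχ : Cc χ) :
    ∫ x, (q : Y2).fst x * χ x = -∫ x, ((js D q : XS D) : L2c) x * py χ x ∧
    ∫ x, (q : Y2).snd x * χ x = ∫ x, ((js D q : XS D) : L2c) x * px χ x := sca2_weak hD q hχ

end

end Pool.Agent.Lib.MP_79abb3_an.PD
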