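import Pool.Agent.Lib.MP_79abb3_an.PD.CoC2
import Pool.Agent.Lib.MP_79abb3_an.PD.GDef4
import Pool.Agent.Lib.MP_79abb3_an.PD.SpEc
import Pool.Agent.Lib.MP_79abb3_an.PD.ScA2
import Pool.Agent.Lib.MP_79abb3_an.SC.ChGeoB

/-!
Theorem D, block F: the geometric data. All strips have the half period `π`: `X_j(y,z) = F_j (exp (i (y + i z)))`,
so `E (X_j (y,z)) = exp (i k_j (y + i z))` and `h = k_j z`. Heights in multiples of `u`: `η` (4,8), `η⁺` (2,4),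
`ζ` (9,10), `G.ζ` (11,12), `ζ⁺` (13,14), the strips have height `16 u`.
-/

set_option autoImplicit false
set_option linter.unusedSectionVars false

open MeasureTheory Set Filter Topology Function
open scoped ENNReal InnerProductSpace ComplexConjugate

namespace Pool.Agent.Lib.MP_79abb3_an.PD

open Pool.Agent.Lib.MP_79abb3_an.SC Pool.Agent.Lib.MP_79abb3_an.P25

instance factPi : Fact (0 < Real.pi) := ⟨Real.pi_pos⟩

/-- modes of the strips of block F -/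
abbrev HP : Type := HH Real.pi

/-- the cut-off `1` for `z ≤ a`, `0` for `z ≥ b`, as an element of `CI` -/
noncomputable def ctC (a b : ℝ) : CI Real.pi := Pool.Agent.Lib.MP_79abb3_an.FW.rc (ctf a b) (ctf_smooth a b).continuous

/-- its derivatives -/
noncomputable def ctC1 (a b : ℝ) : CI Real.pi := Pool.Agent.Lib.MP_79abb3_an.FW.rc (deriv (ctf a b))
  ((ctf_smooth a b).continuous_deriv (by simp))

theorem ctf_smooth1 (a b : ℝ) : ContDiff ℝ ((⊤ : ℕ∞) : WithTop ℕ∞) (deriv (ctf a b)) :=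
  ((contDiff_infty_iff_deriv (𝕜 := ℝ)).1 (ctf_smooth a b)).2

noncomputable def ctC2 (a b : ℝ) : CI Real.pi := Pool.Agent.Lib.MP_79abb3_an.FW.rc (deriv (deriv (ctf a b)))
  ((ctf_smooth1 a b).continuous_deriv (by simp))

/-- **The geometric data of block F.** -/
structure FD (D : Set ℂ) where
  x : ℂ
  s : ℝ
  s1 : ℝ
  s2 : ℝ
  t : ℝ
  n : ℕ
  ρ : ℝ
  F : Fin n → ℂ → ℂ
  k : Fin n → ℕ
  μ : ℂ → ℝ
  h : ℂ → ℝ
  E : ℂ → ℂ
  K : ℕ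
  u : ℝ
  X : Fin n → ℝ × ℝ → ℂ
  J : Fin n → ℝ × ℝ → ℝ
  G : Fin n → Geo Real.pi
  Ga : Fin n → (VD D →L[ℂ] HP)
  La : Fin n → (XD D →L[ℂ] HP)
  /-- pull back with the cut-off `ζ⁺` -/
  Bz : Fin n → (L2c →L[ℂ] HP)
  /-- pull back with the cut-off `η` -/
  Be : Fin n → (L2c →L[ℂ] HP)
  /-- pull back with the cut-off `η⁺` -/
  Bp : Fin n → (L2c →L[ℂ] HP)
  /-- `c₀ = -Δ(χ ψ_m)` is supported in `s1 ≤ |x - x*| ≤ s2`, `χ` the cut-off `0` on `ball s1`, `1` off `ball s2` -/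
  χ : ℂ → ℝ
  /-- the damping region: `1` on `ball s2` -/
  d : ℂ → ℂ
  /-- the bump -/
  β : ℂ → ℂ
  hD : IsPlanar D
  fl : IsFlush D x s t n ρ F k μ h E
  h1 : s < s1
  h2 : s1 < s2
  h3 : s2 < t
  hK : ∀ j, k j ≤ K
  K1 : 1 ≤ K
  u0 : 0 < u
  uπ : 16 * u < Real.pi
  uρ : 16 * u ≤ Real.log (1 / ρ)
  hX : ∀ j, IsStrip D Real.pi (16 * u) (X j)
  eX : ∀ j q, X j q = F j (Complex.exp (Complex.I * cxp q))
  hJ : ∀ j, IsJ Real.pi (X j) (15 * u) (J j)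
  G_a : ∀ j, (G j).a = fam fun q => (J j q)⁻¹
  G_J : ∀ j, (G j).J = fam (J j)
  G_ζ : ∀ j, (G j).ζ = ctC (11 * u) (12 * u)
  G_big : ∀ j, (G j).Big
  hGa : ∀ j, IsGa D (X j) (13 * u) (14 * u) (Ga j)
  hLa : ∀ j, IsLa D (X j) (13 * u) (14 * u) (La j)
  hBz : ∀ j, IsPB (X j) (13 * u) (14 * u) (J j) (Bz j)
  hBe : ∀ j, IsPB (X j) (4 * u) (8 * u) (J j) (Be j)
  hBp : ∀ j, IsPB (X j) (2 * u) (4 * u) (J j) (Bp j)
  χs : ContDiff ℝ ((⊤ : ℕ∞) : WithTop ℕ∞) χ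
  χ01 : ∀ y, 0 ≤ χ y ∧ χ y ≤ 1
  χ0 : ∀ y, dist y x ≤ s1 → χ y = 0
  χ1 : ∀ y, s2 ≤ dist y x → χ y = 1
  hd : CcR D d
  d01 : ∀ y, 0 ≤ (d y).re ∧ (d y).re ≤ 1
  d1 : ∀ y, dist y x ≤ s2 → d y = 1
  d0 : ∀ y, t ≤ dist y x → d y = 0
  hβ : CcR D β
  β0 : ∀ y, s1 ≤ dist y x → β y = 0
  β1 : ∫ y, β y = 1

/-- `ω = 1` in the strips. -/
theorem Geo.om_pi (G : Geo Real.pi) : G.ω = 1 := by
  rw [G.hω]
  exact div_self Real.pi_pos.ne'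

end Pool.Agent.Lib.MP_79abb3_an.PD
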