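import Pool.Agent.Lib.MP_79abb3_an.PD.FeR2
import Pool.Agent.Lib.MP_79abb3_an.SC.ExT

/-!
Theorem D, block F: the transport form `∫ (u·∇ conj θ) o`, `u = iot v`, `θ = K_s φ`, for square integrable `o`.
-/

set_option autoImplicit false
set_option linter.unusedSectionVars false

open MeasureTheory Set Filter Topology Function
open scoped ENNReal InnerProductSpace ComplexConjugate

namespace Pool.Agent.Lib.MP_79abb3_an.PD

open Pool.Agent.Lib.MP_79abb3_an.SC Pool.Agent.Lib.MP_79abb3_an.P25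

private structure FeaT {V O Z : Type} [NormedAddCommGroup V] [NormedSpace ℂ V] [NormedAddCommGroup O] [NormedSpace ℂ O]
    [NormedAddCommGroup Z] [NormedSpace ℂ Z] (f : V → O → Z → ℂ) (C : ℝ) : Prop where
  hC : 0 ≤ C
  a1 : ∀ v v' o z, f (v + v') o z = f v o z + f v' o z
  s1 : ∀ (c : ℂ) v o z, f (c • v) o z = c * f v o z
  a2 : ∀ v o o' z, f v (o + o') z = f v o z + f v o' z
  s2 : ∀ (c : ℂ) v o z, f v (c • o) z = c * f v o z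
  a3 : ∀ v o z z', f v o (z + z') = f v o z + f v o z'
  s3 : ∀ (c : ℂ) v o z, f v o (c • z) = conj c * f v o z
  hb : ∀ v o z, ‖f v o z‖ ≤ C * ‖v‖ * ‖o‖ * ‖z‖

private theorem FeaT.sum {V O Z : Type} [NormedAddCommGroup V] [NormedSpace ℂ V] [NormedAddCommGroup O] [NormedSpace ℂ O]
    [NormedAddCommGroup Z] [NormedSpace ℂ Z] {ι : Type} [Fintype ι] {f0 : V → O → Z → ℂ} {C0 : ℝ}
    {f : ι → V → O → Z → ℂ} {C : ι → ℝ} (c : ℂ) (h0 : FeaT f0 C0) (h : ∀ j, FeaT (f j) (C j)) :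
    FeaT (fun v o z => f0 v o z + ∑ j, c * f j v o z) (C0 + ∑ j, ‖c‖ * C j) where
  hC := add_nonneg h0.hC (Finset.sum_nonneg fun j _ => mul_nonneg (norm_nonneg _) (h j).hC)
  a1 v v' o z := by
    simp only [h0.a1, (h _).a1, mul_add, Finset.sum_add_distrib]
    ring
  s1 a v o z := by
    simp only [h0.s1, (h _).s1, mul_add, Finset.mul_sum]
    congr 1
    exact Finset.sum_congr rfl fun j _ => by ring
  a2 v o o' z := by
    simp only [h0.a2, (h _).a2, mul_add, Finset.sum_add_distrib]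
    ring
  s2 a v o z := by
    simp only [h0.s2, (h _).s2, mul_add, Finset.mul_sum]
    congr 1
    exact Finset.sum_congr rfl fun j _ => by ring
  a3 v o z z' := by
    simp only [h0.a3, (h _).a3, mul_add, Finset.sum_add_distrib]
    ring
  s3 a v o z := by
    simp only [h0.s3, (h _).s3, mul_add, Finset.mul_sum]
    congr 1
    exact Finset.sum_congr rfl fun j _ => by ring
  hb v o z := by
    refine (norm_add_le _ _).trans ?_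
    rw [add_mul, add_mul, add_mul, Finset.sum_mul, Finset.sum_mul, Finset.sum_mul]
    refine add_le_add (h0.hb v o z) (norm_sum_le_of_le _ fun j _ => ?_)
    rw [norm_mul]
    refine (mul_le_mul_of_nonneg_left ((h j).hb v o z) (norm_nonneg c)).trans (le_of_eq ?_)
    ring

private theorem FeaT.mk3 {V O Z : Type} [NormedAddCommGroup V] [NormedSpace ℂ V] [NormedAddCommGroup O] [NormedSpace ℂ O]
    [NormedAddCommGroup Z] [NormedSpace ℂ Z] {f : V → O → Z → ℂ} {C : ℝ} (h : FeaT f C) :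
    ∃ T : V →L[ℂ] O →L[ℂ] Yd Z, ∀ v o z, T v o z = f v o z := by
  obtain ⟨hC, a1, s1, a2, s2, a3, s3, hb⟩ := h
  obtain ⟨g, hg, hn⟩ : ∃ g : V → O → Yd Z, (∀ v o z, g v o z = f v o z) ∧ ∀ v o, ‖g v o‖ ≤ C * ‖v‖ * ‖o‖ :=
    ⟨fun v o => LinearMap.mkContinuous
      { toFun := fun z => f v o z
        map_add' := fun z z' => a3 v o z z'
        map_smul' := fun c z => s3 c v o z } (C * ‖v‖ * ‖o‖) (fun z => hb v o z),
      fun v o z => rfl, fun v o => LinearMap.mkContinuous_norm_le _ (by positivity) _⟩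
  let g2 : V →ₗ[ℂ] O →ₗ[ℂ] Yd Z := LinearMap.mk₂ ℂ g
    (fun v v' o => by
      ext z
      show g (v + v') o z = g v o z + g v' o z
      rw [hg, hg, hg, a1])
    (fun c v o => by
      ext z
      show g (c • v) o z = c * g v o z
      rw [hg, hg, s1])
    (fun v o o' => by
      ext z
      show g v (o + o') z = g v o z + g v o' z
      rw [hg, hg, hg, a2])
    (fun c v o => by
      ext z
      show g v (c • o) z = c * g v o z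
      rw [hg, hg, s2])
  exact ⟨LinearMap.mkContinuous₂ g2 C fun v o => hn v o, fun v o z => hg v o z⟩

private theorem fea_bf (G : Geo Real.pi) (y g g' : HP) :
    bf G.ω (⇑y) (uV G.ω (Vf G.ω (⇑g'))) (wV G.ω (Vf G.ω (⇑g'))) (⇑(SC.TT G.ω g)) =
    ⟪LT G.ω G.lam (1 / 4) g, G.Pw y (UV G.ω G.lam g') (UW G.ω G.lam g')⟫_ℂ := by
  have e1 : hf G.lam (UV G.ω G.lam g') = uV G.ω (Vf G.ω g') := by funext n; rw [Geo.hf_UV]
  have e2 : hf G.lam (UW G.ω G.lam g') = wV G.ω (Vf G.ω g') := by funext n; rw [Geo.hf_UW]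
  rw [inner_LT_Pw, e1, e2]

private theorem fea_prd_le {lam : ℤ → ℝ} (pw : PrW lam 0 (1 / 2) (1 / 4)) (y : HP) (v : l2 (CI Real.pi)) :
    ‖prd pw y v‖ ≤ CP lam (0 + 1 / 2 + 1 / 4) * ‖y‖ * ‖v‖ := by
  have h := pr_bound ((mz : CI Real.pi →L[ℂ] Z2 Real.pi →L[ℂ] Z2 Real.pi).flip) zero_le_one
    (fun e f => mz_bd e f) pw y v
  rw [mul_one] at h
  exact h

private theorem fea_Pw_bd (G : Geo Real.pi) : ∃ C : ℝ, 0 ≤ C ∧ ∀ (y : HP) (U W : l2 (CI Real.pi)),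
    ‖G.Pw y U W‖ ≤ C * ‖y‖ * (‖U‖ + ‖W‖) := by
  have h0 := CP_nonneg (lam := G.lam) (0 + 1 / 2 + 1 / 4)
  refine ⟨(‖(Xz G.ω : HP →L[ℂ] HP)‖ + ‖(Xy G.ω : HP →L[ℂ] HP)‖) * CP G.lam (0 + 1 / 2 + 1 / 4), by positivity,
    fun y U W => ?_⟩
  have h1 := fea_prd_le G.pw y W
  have h2 := fea_prd_le G.pw y U
  have h3 := (Xz G.ω : HP →L[ℂ] HP).le_opNorm (prd G.pw y W)
  have h4 := (Xy G.ω : HP →L[ℂ] HP).le_opNorm (prd G.pw y U)
  have h5 : ‖(Xz G.ω : HP →L[ℂ] HP)‖ * ‖prd G.pw y W‖ ≤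
      ‖(Xz G.ω : HP →L[ℂ] HP)‖ * (CP G.lam (0 + 1 / 2 + 1 / 4) * ‖y‖ * ‖W‖) :=
    mul_le_mul_of_nonneg_left h1 (norm_nonneg _)
  have h6 : ‖(Xy G.ω : HP →L[ℂ] HP)‖ * ‖prd G.pw y U‖ ≤
      ‖(Xy G.ω : HP →L[ℂ] HP)‖ * (CP G.lam (0 + 1 / 2 + 1 / 4) * ‖y‖ * ‖U‖) :=
    mul_le_mul_of_nonneg_left h2 (norm_nonneg _)
  have h7 : ‖G.Pw y U W‖ ≤ ‖Xz G.ω (prd G.pw y W)‖ + ‖Xy G.ω (prd G.pw y U)‖ := by
    show ‖-(Xz G.ω (prd G.pw y W) + Xy G.ω (prd G.pw y U))‖ ≤ _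
    rw [norm_neg]
    exact norm_add_le _ _
  have k1 : 0 ≤ ‖(Xz G.ω : HP →L[ℂ] HP)‖ * (CP G.lam (0 + 1 / 2 + 1 / 4) * ‖y‖ * ‖U‖) := by positivity
  have k2 : 0 ≤ ‖(Xy G.ω : HP →L[ℂ] HP)‖ * (CP G.lam (0 + 1 / 2 + 1 / 4) * ‖y‖ * ‖W‖) := by positivity
  calc _ ≤ _ := h7
    _ ≤ ‖(Xz G.ω : HP →L[ℂ] HP)‖ * (CP G.lam (0 + 1 / 2 + 1 / 4) * ‖y‖ * ‖W‖) +
        ‖(Xy G.ω : HP →L[ℂ] HP)‖ * (CP G.lam (0 + 1 / 2 + 1 / 4) * ‖y‖ * ‖U‖) :=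
      add_le_add (h3.trans h5) (h4.trans h6)
    _ ≤ (‖(Xz G.ω : HP →L[ℂ] HP)‖ * (CP G.lam (0 + 1 / 2 + 1 / 4) * ‖y‖ * ‖W‖) +
        ‖(Xy G.ω : HP →L[ℂ] HP)‖ * (CP G.lam (0 + 1 / 2 + 1 / 4) * ‖y‖ * ‖U‖)) +
        (‖(Xz G.ω : HP →L[ℂ] HP)‖ * (CP G.lam (0 + 1 / 2 + 1 / 4) * ‖y‖ * ‖U‖) +
        ‖(Xy G.ω : HP →L[ℂ] HP)‖ * (CP G.lam (0 + 1 / 2 + 1 / 4) * ‖y‖ * ‖W‖)) :=
      le_add_of_nonneg_right (add_nonneg k1 k2)
    _ = _ := by ring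

private theorem fea_LT (G : Geo Real.pi) : ∃ C : ℝ, 0 ≤ C ∧ ∀ g : HP,
    ‖LT G.ω G.lam (1 / 4) g‖ ≤ C * √(‖SC.TT G.ω g‖ * ‖g‖) := by
  have hC : 0 ≤ (G.N₀ + G.ω) * (Real.pi + G.ω⁻¹) := by
    have h1 := G.ω_pos
    have h2 : 0 < G.N₀ := lt_of_lt_of_le one_pos G.hN
    have h3 := Real.pi_pos
    positivity
  refine ⟨√((G.N₀ + G.ω) * (Real.pi + G.ω⁻¹)), Real.sqrt_nonneg _, fun g => ?_⟩
  have h1 := LT_half G.lamOK g
  have h2 : ‖LT G.ω G.lam (1 / 4) g‖ ≤ ‖LT G.ω G.lam (1 / 2) g‖ := by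
    rw [← N2_TT G (by norm_num) g, ← N2_TT G (by norm_num) g]
    exact (S2_mono G.lw.h1 (by norm_num) (S2_TT' G (by norm_num) g)).2
  refine h2.trans ?_
  rw [← Real.sqrt_mul hC]
  refine Real.le_sqrt_of_sq_le (h1.trans (le_of_eq ?_))
  ring

private theorem fea_Pw_add (G : Geo Real.pi) (y : HP) (U U' W W' : l2 (CI Real.pi)) :
    G.Pw y (U + U') (W + W') = G.Pw y U W + G.Pw y U' W' := by
  show -(Xz G.ω (prd G.pw y (W + W')) + Xy G.ω (prd G.pw y (U + U'))) =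
    -(Xz G.ω (prd G.pw y W) + Xy G.ω (prd G.pw y U)) + -(Xz G.ω (prd G.pw y W') + Xy G.ω (prd G.pw y U'))
  rw [map_add, map_add, map_add, map_add]
  abel

private theorem fea_Pw_smul (G : Geo Real.pi) (c : ℂ) (y : HP) (U W : l2 (CI Real.pi)) :
    G.Pw y (c • U) (c • W) = c • G.Pw y U W := by
  show -(Xz G.ω (prd G.pw y (c • W)) + Xy G.ω (prd G.pw y (c • U))) =
    c • -(Xz G.ω (prd G.pw y W) + Xy G.ω (prd G.pw y U))
  rw [map_smul, map_smul, map_smul, map_smul, ← smul_add, smul_neg]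

private theorem fea_Pw_add1 (G : Geo Real.pi) (y y' : HP) (U W : l2 (CI Real.pi)) :
    G.Pw (y + y') U W = G.Pw y U W + G.Pw y' U W := by
  show -(Xz G.ω (prd G.pw (y + y') W) + Xy G.ω (prd G.pw (y + y') U)) =
    -(Xz G.ω (prd G.pw y W) + Xy G.ω (prd G.pw y U)) + -(Xz G.ω (prd G.pw y' W) + Xy G.ω (prd G.pw y' U))
  rw [map_add, add_apply, add_apply, map_add, map_add]
  abel

private theorem fea_Pw_smul1 (G : Geo Real.pi) (c : ℂ) (y : HP) (U W : l2 (CI Real.pi)) :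
    G.Pw (c • y) U W = c • G.Pw y U W := by
  show -(Xz G.ω (prd G.pw (c • y) W) + Xy G.ω (prd G.pw (c • y) U)) =
    c • -(Xz G.ω (prd G.pw y W) + Xy G.ω (prd G.pw y U))
  rw [map_smul, smul_apply, smul_apply, map_smul, map_smul, ← smul_add, smul_neg]

/-- the strip part -/
private noncomputable def feaS {D : Set ℂ} (F : FD D) (j : Fin F.n) (v : VD D) (o : L2c) (φ : XS D) : ℂ :=
  ⟪LT (F.G j).ω (F.G j).lam (1 / 4) (F.gs j φ), (F.G j).Pw (SC.cm (F.G j).a (F.Be j o))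
    (UV (F.G j).ω (F.G j).lam (F.Ga j v)) (UW (F.G j).ω (F.G j).lam (F.Ga j v))⟫_ℂ

private theorem feaS_bd {D : Set ℂ} (F : FD D) (j : Fin F.n) : ∃ C : ℝ, 0 ≤ C ∧ ∀ (v : VD D) (o : L2c) (φ : XS D),
    ‖feaS F j v o φ‖ ≤ C * ‖v‖ * ‖o‖ * ‖LT (F.G j).ω (F.G j).lam (1 / 4) (F.gs j φ)‖ := by
  obtain ⟨C, hC, h⟩ := fea_Pw_bd (F.G j)
  refine ⟨C * ‖(SC.cm (F.G j).a : HP →L[ℂ] HP).comp (F.Be j)‖ *
    (‖(UV (F.G j).ω (F.G j).lam : HP →L[ℂ] l2 (CI Real.pi)).comp (F.Ga j)‖ +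
      ‖(UW (F.G j).ω (F.G j).lam : HP →L[ℂ] l2 (CI Real.pi)).comp (F.Ga j)‖), by positivity, fun v o φ => ?_⟩
  have h1 : ‖feaS F j v o φ‖ ≤ ‖LT (F.G j).ω (F.G j).lam (1 / 4) (F.gs j φ)‖ *
    ‖(F.G j).Pw (SC.cm (F.G j).a (F.Be j o)) (UV (F.G j).ω (F.G j).lam (F.Ga j v))
      (UW (F.G j).ω (F.G j).lam (F.Ga j v))‖ := norm_inner_le_norm _ _
  have h2 := h (SC.cm (F.G j).a (F.Be j o)) (UV (F.G j).ω (F.G j).lam (F.Ga j v))
    (UW (F.G j).ω (F.G j).lam (F.Ga j v))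
  have h3 : ‖SC.cm (F.G j).a (F.Be j o)‖ ≤ ‖(SC.cm (F.G j).a : HP →L[ℂ] HP).comp (F.Be j)‖ * ‖o‖ :=
    ((SC.cm (F.G j).a : HP →L[ℂ] HP).comp (F.Be j)).le_opNorm o
  have h4 : ‖UV (F.G j).ω (F.G j).lam (F.Ga j v)‖ ≤
    ‖(UV (F.G j).ω (F.G j).lam : HP →L[ℂ] l2 (CI Real.pi)).comp (F.Ga j)‖ * ‖v‖ :=
    ((UV (F.G j).ω (F.G j).lam : HP →L[ℂ] l2 (CI Real.pi)).comp (F.Ga j)).le_opNorm v
  have h5 : ‖UW (F.G j).ω (F.G j).lam (F.Ga j v)‖ ≤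
    ‖(UW (F.G j).ω (F.G j).lam : HP →L[ℂ] l2 (CI Real.pi)).comp (F.Ga j)‖ * ‖v‖ :=
    ((UW (F.G j).ω (F.G j).lam : HP →L[ℂ] l2 (CI Real.pi)).comp (F.Ga j)).le_opNorm v
  have h6 : C * ‖SC.cm (F.G j).a (F.Be j o)‖ ≤ C * (‖(SC.cm (F.G j).a : HP →L[ℂ] HP).comp (F.Be j)‖ * ‖o‖) :=
    mul_le_mul_of_nonneg_left h3 hC
  have h7 := h2.trans (mul_le_mul h6 (add_le_add h4 h5) (by positivity) (by positivity))
  refine (h1.trans (mul_le_mul_of_nonneg_left h7 (norm_nonneg _))).trans (le_of_eq ?_)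
  ring

private theorem feaS_op {D : Set ℂ} (F : FD D) (j : Fin F.n) : ∃ C : ℝ, FeaT (feaS F j) C := by
  obtain ⟨C, hC, h⟩ := feaS_bd F j
  refine ⟨C * ‖(LT (F.G j).ω (F.G j).lam (1 / 4) : HP →L[ℂ] HP).comp (F.gs j)‖, by positivity,
    fun v v' o φ => ?_, fun c v o φ => ?_, fun v o o' φ => ?_, fun c v o φ => ?_, fun v o φ φ' => ?_,
    fun c v o φ => ?_, fun v o φ => ?_⟩
  · unfold feaS
    rw [map_add, map_add, map_add, fea_Pw_add, inner_add_right]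
  · unfold feaS
    rw [map_smul, map_smul, map_smul, fea_Pw_smul, inner_smul_right]
  · unfold feaS
    rw [map_add, map_add, fea_Pw_add1, inner_add_right]
  · unfold feaS
    rw [map_smul, map_smul, fea_Pw_smul1, inner_smul_right]
  · unfold feaS
    rw [map_add, map_add, inner_add_left]
  · unfold feaS
    rw [map_smul, map_smul, inner_smul_left]
  · have h1 : ‖LT (F.G j).ω (F.G j).lam (1 / 4) (F.gs j φ)‖ ≤
      ‖(LT (F.G j).ω (F.G j).lam (1 / 4) : HP →L[ℂ] HP).comp (F.gs j)‖ * ‖φ‖ :=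
      ((LT (F.G j).ω (F.G j).lam (1 / 4) : HP →L[ℂ] HP).comp (F.gs j)).le_opNorm φ
    refine ((h v o φ).trans (mul_le_mul_of_nonneg_left h1 (by positivity))).trans (le_of_eq ?_)
    ring

private theorem feaN_op {D : Set ℂ} (F : FD D) :
    FeaT (fun (v : VD D) (o : L2c) (φ : XS D) => PD.NL (jj D v) o (jj D (F.Vc φ))) (2 * ‖jj D‖ * ‖(jj D).comp F.Vc‖) := by
  refine ⟨by positivity, fun v v' o φ => ?_, fun c v o φ => ?_, fun v o o' φ => ?_, fun c v o φ => ?_,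
    fun v o φ φ' => ?_, fun c v o φ => ?_, fun v o φ => ?_⟩
  · show PD.NL (jj D (v + v')) o (jj D (F.Vc φ)) = PD.NL (jj D v) o (jj D (F.Vc φ)) + PD.NL (jj D v') o (jj D (F.Vc φ))
    rw [map_add, map_add, add_apply, add_apply]
  · show PD.NL (jj D (c • v)) o (jj D (F.Vc φ)) = c * PD.NL (jj D v) o (jj D (F.Vc φ))
    rw [map_smul, map_smul, smul_apply, smul_apply, smul_eq_mul]
  · show PD.NL (jj D v) (o + o') (jj D (F.Vc φ)) = PD.NL (jj D v) o (jj D (F.Vc φ)) + PD.NL (jj D v) o' (jj D (F.Vc φ))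
    rw [map_add, add_apply]
  · show PD.NL (jj D v) (c • o) (jj D (F.Vc φ)) = c * PD.NL (jj D v) o (jj D (F.Vc φ))
    rw [map_smul, smul_apply, smul_eq_mul]
  · show PD.NL (jj D v) o (jj D (F.Vc (φ + φ'))) = PD.NL (jj D v) o (jj D (F.Vc φ)) + PD.NL (jj D v) o (jj D (F.Vc φ'))
    rw [map_add, map_add, map_add]
  · show PD.NL (jj D v) o (jj D (F.Vc (c • φ))) = conj c * PD.NL (jj D v) o (jj D (F.Vc φ))
    rw [map_smul, map_smul, map_smulₛₗ, smul_eq_mul]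
  · show ‖PD.NL (jj D v) o (jj D (F.Vc φ))‖ ≤ _
    have h1 := (PD.NL (jj D v) o).le_opNorm (jj D (F.Vc φ))
    have h2 := NL_norm (jj D v) o
    have h3 := (jj D).le_opNorm v
    have h4 : ‖jj D (F.Vc φ)‖ ≤ ‖(jj D).comp F.Vc‖ * ‖φ‖ := ((jj D).comp F.Vc).le_opNorm φ
    have h5 : 2 * ‖jj D v‖ * ‖o‖ ≤ 2 * (‖jj D‖ * ‖v‖) * ‖o‖ := by gcongr
    refine (h1.trans (mul_le_mul (h2.trans h5) h4 (norm_nonneg _) (by positivity))).trans (le_of_eq ?_)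
    ring

namespace FD
variable {D : Set ℂ} (F : FD D)

/-- `∫ (u·∇ conj θ) o`, `u = iot v`, `θ = K_s φ`: interior part `χ θ` (stream function of `Vc φ`), and the parts `η⁺ θ` in the strips
(`T (gs φ) = B* (η⁺ θ)`, `a Be o = η o_s`, velocity of `T Ga v`). -/
noncomputable def adv (v : VD D) (φ : XS D) (o : L2c) : ℂ :=
  PD.NL (jj D v) o (jj D (F.Vc φ)) + ∑ j, (2 * Real.pi : ℂ) *
    bf (F.G j).ω (⇑(SC.cm (F.G j).a (F.Be j o))) (uV (F.G j).ω (Vf (F.G j).ω (⇑(F.Ga j v))))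
      (wV (F.G j).ω (Vf (F.G j).ω (⇑(F.Ga j v)))) (⇑(SC.TT (F.G j).ω (F.gs j φ)))

/-- `adv` is a bounded trilinear form: `inner_LT_Pw`: the strip part is `⟪LT (1/4) (gs φ), Pw (a Be o) (UV Ga v) (UW Ga v)⟫`
(`hf_UV`, `hf_UW`), `Geo.Pw` bilinear and bounded. -/
theorem adv_op : ∃ T : VD D →L[ℂ] L2c →L[ℂ] Yd (XS D), ∀ (v : VD D) (φ : XS D) (o : L2c), T v o φ = F.adv v φ o := by
  choose C hC using feaS_op F
  obtain ⟨T, hT⟩ := (FeaT.sum (2 * Real.pi : ℂ) (feaN_op F) hC).mk3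
  refine ⟨T, fun v φ o => ?_⟩
  rw [hT]
  unfold FD.adv
  congr 1
  refine Finset.sum_congr rfl fun j _ => ?_
  rw [fea_bf]
  rfl

/-- **The bound**: interior: `NL_norm`, `jj_bd`, `IsVx.bd`: `|v| |o| (|iot V φ| |V φ|)^{1/2} ≤ C |v| |o| (|js† φ| |φ|)^{1/2}`. Strips:
`|LT (1/4) g| ≤ C |T g|^{3/4} |g|^{1/4}` (mode by mode: `lam^{1/4} |T g_n| = (|T g_n|)^{3/4} (lam |T g_n|)^{1/4}`, Hölder for sums),
`T (gs φ) = Lp (js† φ)`, so `|T gs φ| ≤ C |js† φ|`, `|gs φ| ≤ C |φ|`, and `|js† φ| ≤ C |φ|`. -/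
theorem adv_bd (hT : ∀ j, ∀ φ : XS D, SC.TT (F.G j).ω (F.gs j φ) = F.Lp j (sx D (ja D φ))) : ∃ C : ℝ, 0 ≤ C ∧
    ∀ (v : VD D) (φ : XS D) (o : L2c), ‖F.adv v φ o‖ ≤ C * ‖v‖ * ‖o‖ * √(‖ja D φ‖ * ‖φ‖) := by
  obtain ⟨C1, hC1, hj⟩ := jj_bd (D := D) F.hD.bdd
  obtain ⟨C2, hC2, hV⟩ := F.hVc.bd F.cc_cc
  choose CS hCS hS using feaS_bd F
  choose CL hCL hL using fun j => fea_LT (F.G j)
  have key : ∀ j, ∃ c : ℝ, 0 ≤ c ∧ ∀ (v : VD D) (φ : XS D) (o : L2c),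
      ‖(2 * Real.pi : ℂ) * feaS F j v o φ‖ ≤ c * ‖v‖ * ‖o‖ * √(‖ja D φ‖ * ‖φ‖) := fun j => by
    have hpi := Real.pi_pos
    refine ⟨2 * Real.pi * (CS j * (CL j * √(‖F.Lp j‖ * ‖F.gs j‖))), by
      have := hCS j; have := hCL j; positivity, fun v φ o => ?_⟩
    have a1 : ‖SC.TT (F.G j).ω (F.gs j φ)‖ ≤ ‖F.Lp j‖ * ‖ja D φ‖ := by
      rw [hT j φ]
      exact (F.Lp j).le_opNorm _
    have a2 : ‖F.gs j φ‖ ≤ ‖F.gs j‖ * ‖φ‖ := (F.gs j).le_opNorm φ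
    have a3 : √(‖SC.TT (F.G j).ω (F.gs j φ)‖ * ‖F.gs j φ‖) ≤ √(‖F.Lp j‖ * ‖F.gs j‖) * √(‖ja D φ‖ * ‖φ‖) := by
      rw [← Real.sqrt_mul (by positivity)]
      refine Real.sqrt_le_sqrt ((mul_le_mul a1 a2 (norm_nonneg _) (by positivity)).trans (le_of_eq ?_))
      ring
    have a4 := (hL j (F.gs j φ)).trans (mul_le_mul_of_nonneg_left a3 (hCL j))
    have a5 := (hS j v o φ).trans (mul_le_mul_of_nonneg_left a4 (by have := hCS j; positivity))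
    have a6 : ‖(2 * Real.pi : ℂ)‖ = 2 * Real.pi := by
      rw [norm_mul, Complex.norm_real, Real.norm_of_nonneg hpi.le]
      norm_num
    rw [norm_mul, a6]
    refine (mul_le_mul_of_nonneg_left a5 (by positivity)).trans (le_of_eq ?_)
    ring
  choose c hc hb using key
  refine ⟨2 * ‖jj D‖ * (C1 * C2) + ∑ j, c j, add_nonneg (by positivity) (Finset.sum_nonneg fun j _ => hc j),
    fun v φ o => ?_⟩
  have e1 : F.adv v φ o = PD.NL (jj D v) o (jj D (F.Vc φ)) + ∑ j, (2 * Real.pi : ℂ) * feaS F j v o φ := by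
    unfold FD.adv
    congr 1
    refine Finset.sum_congr rfl fun j _ => ?_
    rw [fea_bf]
    rfl
  have b1 := (PD.NL (jj D v) o).le_opNorm (jj D (F.Vc φ))
  have b2 := NL_norm (jj D v) o
  have b3 := (jj D).le_opNorm v
  have b4 := hj (F.Vc φ)
  obtain ⟨v1, v2⟩ := hV φ
  have b5 : √(‖iot D (F.Vc φ)‖ * ‖F.Vc φ‖) ≤ C2 * √(‖ja D φ‖ * ‖φ‖) := by
    have : ‖iot D (F.Vc φ)‖ * ‖F.Vc φ‖ ≤ C2 ^ 2 * (‖ja D φ‖ * ‖φ‖) :=
      (mul_le_mul v1 v2 (norm_nonneg _) (by positivity)).trans (le_of_eq (by ring))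
    refine (Real.sqrt_le_sqrt this).trans (le_of_eq ?_)
    rw [Real.sqrt_mul (by positivity), Real.sqrt_sq hC2]
  have b6 := b4.trans (mul_le_mul_of_nonneg_left b5 hC1)
  have b7 : 2 * ‖jj D v‖ * ‖o‖ ≤ 2 * (‖jj D‖ * ‖v‖) * ‖o‖ := by gcongr
  have b8 := b1.trans (mul_le_mul (b2.trans b7) b6 (norm_nonneg _) (by positivity))
  have b9 : ‖∑ j, (2 * Real.pi : ℂ) * feaS F j v o φ‖ ≤ ∑ j, c j * ‖v‖ * ‖o‖ * √(‖ja D φ‖ * ‖φ‖) :=
    norm_sum_le_of_le _ fun j _ => hb j v φ o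
  rw [← Finset.sum_mul, ← Finset.sum_mul, ← Finset.sum_mul] at b9
  rw [e1]
  refine ((norm_add_le _ _).trans (add_le_add b8 b9)).trans (le_of_eq ?_)
  ring

end FD

end Pool.Agent.Lib.MP_79abb3_an.PD
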