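import Pool.Agent.Lib.MP_79abb3_an.PD.FeA
import Pool.Agent.Lib.MP_79abb3_an.PD.FeR3
import Pool.Agent.Lib.MP_79abb3_an.PD.FeXa
import Pool.Agent.Lib.MP_79abb3_an.PD.CoC3
import Pool.Agent.Lib.MP_79abb3_an.PD.CoC5

/-!
Theorem D, block F: the transport form on `H¹₀(D)`.
-/

set_option autoImplicit false
set_option linter.unusedSectionVars false

open MeasureTheory Set Filter Topology Function
open scoped ENNReal InnerProductSpace ComplexConjugate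

namespace Pool.Agent.Lib.MP_79abb3_an.PD

open Pool.Agent.Lib.MP_79abb3_an.SC Pool.Agent.Lib.MP_79abb3_an.P25

section
variable {D : Set ℂ}

/-- `F₀ = u·∇ϕ` for `u = gp ψ`. -/
noncomputable def uf (ψ ϕ : ℂ → ℂ) (x : ℂ) : ℂ := py ψ x * px ϕ x - px ψ x * py ϕ x

private theorem fea2_pxm {f g : ℂ → ℂ} (hf : Smo f) (hg : Smo g) (x : ℂ) :
    px (fun x => f x * g x) x = f x * px g x + px f x * g x := by
  unfold px
  rw [fderiv_fun_mul (hf.differentiable x) (hg.differentiable x)]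
  simp only [_root_.add_apply, _root_.smul_apply, smul_eq_mul]
  ring

private theorem fea2_pym {f g : ℂ → ℂ} (hf : Smo f) (hg : Smo g) (x : ℂ) :
    py (fun x => f x * g x) x = f x * py g x + py f x * g x := by
  unfold py
  rw [fderiv_fun_mul (hf.differentiable x) (hg.differentiable x)]
  simp only [_root_.add_apply, _root_.smul_apply, smul_eq_mul]
  ring

private theorem fea2_NL (hD : Bornology.IsBounded D) (ψ φ : Adm D) (o : L2c) :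
    PD.NL (jj D (cuV D ψ)) o (jj D (cuV D φ)) =
      ⟪cl2 (fun x => px φ x * conj (py ψ x) - py φ x * conj (px ψ x)), o⟫_ℂ := by
  have k1 : Cc (fun x => conj (py ψ x)) := (Adm.cc ψ).py.conj
  have k2 : Cc (fun x => conj (px ψ x)) := (Adm.cc ψ).px.conj
  have m1 : MemLp (fun x => px φ x * conj (py ψ x) - py φ x * conj (px ψ x)) 2 (volume : Measure ℂ) := by
    have a1 := (((Adm.cc φ).px.mul_smo k1.smo).memLp 2)
    have a2 := (((Adm.cc φ).py.mul_smo k2.smo).memLp 2)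
    exact a1.sub a2
  have e1 : jj D (cuV D ψ) = (cl4 (py ψ), -cl4 (px ψ)) := Prod.ext (j1_cuV hD ψ) (j2_cuV hD ψ)
  have e2 : jj D (cuV D φ) = (cl4 (py φ), -cl4 (px φ)) := Prod.ext (j1_cuV hD φ) (j2_cuV hD φ)
  rw [e1, e2, NL_apply, L2.inner_def]
  refine integral_congr_ae ?_
  filter_upwards [cl2_coe m1, cl4_coe ((Adm.cc ψ).py.memLp 4), cl4_coe ((Adm.cc ψ).px.memLp 4),
    cl4_coe ((Adm.cc φ).py.memLp 4), cl4_coe ((Adm.cc φ).px.memLp 4), Lp.coeFn_neg (cl4 (px ψ)),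
    Lp.coeFn_neg (cl4 (px φ))] with x n1 n2 n3 n4 n5 n6 n7
  have r1 : ((-cl4 (px ψ) : L4c) : ℂ → ℂ) x = -px ψ x := by rw [n6, Pi.neg_apply, n3]
  have r2 : ((-cl4 (px φ) : L4c) : ℂ → ℂ) x = -px φ x := by rw [n7, Pi.neg_apply, n5]
  show conj ((cl4 (py φ) : ℂ → ℂ) x) * ((o : ℂ → ℂ) x * ((-cl4 (px ψ) : L4c) : ℂ → ℂ) x) -
    conj (((-cl4 (px φ) : L4c) : ℂ → ℂ) x) * ((o : ℂ → ℂ) x * (cl4 (py ψ) : ℂ → ℂ) x) =
    ⟪(cl2 (fun x => px φ x * conj (py ψ x) - py φ x * conj (px ψ x)) : ℂ → ℂ) x, (o : ℂ → ℂ) x⟫_ℂ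
  rw [r1, r2, n2, n4, n1, RCLike.inner_apply]
  simp only [map_sub, map_mul, map_neg, Complex.conj_conj]
  ring

/-- Interior: for all `w ∈ VD D` and `ϕ ∈ C_c^∞(D)`, `u = gp ψ`: `∫ (u·∇ conj (str iot w)) ϕ = -∫ conj (str iot w) u·∇ϕ`
(density, `w = cuV ψ'`, integration by parts, `div u = 0`). -/
theorem NL_uf (hD : Bornology.IsBounded D) (ψ : Adm D) {ϕ : ℂ → ℂ} (hϕ : Cc ϕ) (w : VD D) :
    PD.NL (jj D (cuV D ψ)) (cl2 ϕ) (jj D w) = -⟪str D (iot D w), cl2 (uf ψ ϕ)⟫_ℂ := by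
  have hcl : IsClosed {w : VD D | PD.NL (jj D (cuV D ψ)) (cl2 ϕ) (jj D w) =
      -⟪str D (iot D w), cl2 (uf ψ ϕ)⟫_ℂ} :=
    isClosed_eq ((PD.NL (jj D (cuV D ψ)) (cl2 ϕ)).continuous.comp (jj D).continuous)
      (((str D).continuous.comp (iot D).continuous).inner continuous_const).neg
  refine isClosed_property (cuV_dense D) hcl (fun φ => ?_) w
  show PD.NL (jj D (cuV D ψ)) (cl2 ϕ) (jj D (cuV D φ)) = -⟪str D (iot D (cuV D φ)), cl2 (uf ψ ϕ)⟫_ℂ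
  have hψ := Adm.cc ψ
  have hφ := Adm.cc φ
  rw [fea2_NL hD, iot_cuV hD, str_gpX hD]
  have kφ : Cc fun x => conj ((φ : ℂ → ℂ) x) := hφ.conj
  have k1 : Cc (fun x => px φ x * conj (py ψ x) - py φ x * conj (px ψ x)) := by
    have a1 := hφ.px.mul_smo hψ.py.conj.smo
    have a2 := (hφ.py.mul_smo hψ.px.conj.smo).neg
    have a3 := a1.add a2
    simpa only [sub_eq_add_neg] using a3
  have k2 : Cc (uf ψ ϕ) := by
    have a1 := hψ.py.mul_smo hϕ.px.smo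
    have a2 := (hψ.px.mul_smo hϕ.py.smo).neg
    have a3 := a1.add a2
    have e : uf ψ ϕ = fun x => py ψ x * px ϕ x + -(px ψ x * py ϕ x) := by
      funext x
      unfold uf
      ring
    rw [e]
    exact a3
  rw [Cc.inner k1 hϕ, Cc.inner hφ k2]
  have m1 : Cc fun x => conj ((φ : ℂ → ℂ) x) * py ψ x := kφ.mul_smo hψ.py.smo
  have m2 : Cc fun x => conj ((φ : ℂ → ℂ) x) * px ψ x := kφ.mul_smo hψ.px.smo
  have i1 := Cc.ibpx hϕ m1
  have i2 := Cc.ibpy hϕ m2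
  have e1 : ∀ x, PD.px (fun x => conj ((φ : ℂ → ℂ) x) * py ψ x) x =
      conj ((φ : ℂ → ℂ) x) * px (py ψ) x + conj (px φ x) * py ψ x := fun x => by
    rw [fea2_pxm kφ.smo hψ.py.smo, hφ.smo.px_conj]
  have e2 : ∀ x, PD.py (fun x => conj ((φ : ℂ → ℂ) x) * px ψ x) x =
      conj ((φ : ℂ → ℂ) x) * px (py ψ) x + conj (py φ x) * px ψ x := fun x => by
    rw [fea2_pym kφ.smo hψ.px.smo, hφ.smo.py_conj, ← hψ.smo.pxy]
  simp only [e1] at i1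
  simp only [e2] at i2
  have c1 : Integrable fun x => px ϕ x * (conj ((φ : ℂ → ℂ) x) * py ψ x) := (hϕ.px.mul_smo m1.smo).integrable
  have c2 : Integrable fun x => py ϕ x * (conj ((φ : ℂ → ℂ) x) * px ψ x) := (hϕ.py.mul_smo m2.smo).integrable
  have c3 : Integrable fun x => ϕ x * (conj ((φ : ℂ → ℂ) x) * px (py ψ) x + conj (px φ x) * py ψ x) :=
    (hϕ.mul_smo ((kφ.mul_smo hψ.py.px.smo).add (hφ.px.conj.mul_smo hψ.py.smo)).smo).integrable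
  have c4 : Integrable fun x => ϕ x * (conj ((φ : ℂ → ℂ) x) * px (py ψ) x + conj (py φ x) * px ψ x) :=
    (hϕ.mul_smo ((kφ.mul_smo hψ.py.px.smo).add (hφ.py.conj.mul_smo hψ.px.smo)).smo).integrable
  have f1 : ∫ x, conj ((φ : ℂ → ℂ) x) * uf ψ ϕ x =
      (∫ x, px ϕ x * (conj ((φ : ℂ → ℂ) x) * py ψ x)) - ∫ x, py ϕ x * (conj ((φ : ℂ → ℂ) x) * px ψ x) := by
    rw [← integral_sub c1 c2]
    refine integral_congr_ae (Eventually.of_forall fun x => ?_)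
    show conj ((φ : ℂ → ℂ) x) * uf ψ ϕ x = _
    unfold uf
    ring
  have f2 : ∫ x, conj (px φ x * conj (py ψ x) - py φ x * conj (px ψ x)) * ϕ x =
      (∫ x, ϕ x * (conj ((φ : ℂ → ℂ) x) * px (py ψ) x + conj (px φ x) * py ψ x)) -
      ∫ x, ϕ x * (conj ((φ : ℂ → ℂ) x) * px (py ψ) x + conj (py φ x) * px ψ x) := by
    rw [← integral_sub c3 c4]
    refine integral_congr_ae (Eventually.of_forall fun x => ?_)
    show conj (px φ x * conj (py ψ x) - py φ x * conj (px ψ x)) * ϕ x = _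
    simp only [map_sub, map_mul, Complex.conj_conj]
    ring
  rw [f1, f2, i1, i2]
  ring

/-- `TR (u) (gp ϕ) θ = -∫ conj θ u·∇ϕ` -/
theorem TR_uf (hD : Bornology.IsBounded D) (ψ : Adm D) (ϕ : AdmS D) (q : SV D) :
    TR (jj D (cuV D ψ)) (gp ϕ) (j4 D q) = -⟪((js D q : XS D) : L2c), cl2 (uf ψ ϕ)⟫_ℂ := by
  have hψ := Adm.cc ψ
  have hϕ := ϕ.2.1
  have k2 : MemLp (uf ψ ϕ) 2 (volume : Measure ℂ) := by
    have a1 := (hψ.py.mul_smo hϕ.px.smo).memLp 2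
    have a2 := (hψ.px.mul_smo hϕ.py.smo).memLp 2
    exact a1.sub a2
  have e1 : jj D (cuV D ψ) = (cl4 (py ψ), -cl4 (px ψ)) := Prod.ext (j1_cuV hD ψ) (j2_cuV hD ψ)
  rw [e1, TR_apply, L2.inner_def]
  congr 1
  refine integral_congr_ae ?_
  have g1 : (gp (ϕ : ℂ → ℂ)).fst = cl2 (py (ϕ : ℂ → ℂ)) := rfl
  have g2 : (gp (ϕ : ℂ → ℂ)).snd = -cl2 (px (ϕ : ℂ → ℂ)) := rfl
  rw [g1, g2]
  filter_upwards [j4_ae hD q, cl4_coe (hψ.py.memLp 4), cl4_coe (hψ.px.memLp 4), Lp.coeFn_neg (cl4 (px ψ)),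
    cl2_coe (hϕ.py.memLp 2), cl2_coe (hϕ.px.memLp 2), Lp.coeFn_neg (cl2 (px (ϕ : ℂ → ℂ))), cl2_coe k2]
    with x n1 n2 n3 n4 n5 n6 n7 n8
  have r1 : ((-cl4 (px ψ) : L4c) : ℂ → ℂ) x = -px ψ x := by rw [n4, Pi.neg_apply, n3]
  have r2 : ((-cl2 (px (ϕ : ℂ → ℂ)) : L2c) : ℂ → ℂ) x = -px (ϕ : ℂ → ℂ) x := by rw [n7, Pi.neg_apply, n6]
  show conj ((j4 D q : ℂ → ℂ) x) * (((-cl4 (px ψ) : L4c) : ℂ → ℂ) x * (cl2 (py (ϕ : ℂ → ℂ)) : ℂ → ℂ) x -
    (cl4 (py ψ) : ℂ → ℂ) x * ((-cl2 (px (ϕ : ℂ → ℂ)) : L2c) : ℂ → ℂ) x) = _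
  rw [r1, r2, n1, n2, n5, n8, RCLike.inner_apply]
  unfold uf
  ring

end

section
variable {H : ℝ} [hH : Fact (0 < H)]

private theorem fea2_zero (Y : HH H) (h : ∀ (n : ℤ) (f : ℝ → ℝ), ContDiff ℝ ((⊤ : ℕ∞) : WithTop ℕ∞) f →
    CptI H f → ∀ f₀ : CI H, (∀ z ∈ Icc (0:ℝ) H, ex f₀ z = ((f z : ℝ) : ℂ)) →
    ⟪(lp.single 2 n (iota f₀ : Z2 H) : HH H), Y⟫_ℂ = 0) : Y = 0 := by
  have hH0 := hH.out
  refine lp.ext (funext fun n => ?_)
  have hi : Integrable (Y n : Z2 H) (mH H) := (Lp.memLp (Y n)).integrable (by norm_num)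
  have key : ∀ᵐ z ∂(mH H), z ∈ Ioo (0:ℝ) H → (Y n : Z2 H) z = 0 := by
    refine isOpen_Ioo.ae_eq_zero_of_integral_contDiff_smul_eq_zero
      (hi.locallyIntegrable.locallyIntegrableOn _) fun χ hχ hc hs => ?_
    have hcpt : CptI H χ := by
      have hK : IsCompact (tsupport χ) := hc.isCompact
      rcases (tsupport χ).eq_empty_or_nonempty with h0 | h0
      · exact ⟨1, one_pos, fun z _ => image_eq_zero_of_notMem_tsupport (by rw [h0]; exact notMem_empty z)⟩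
      · have p1 := (hs (hK.sInf_mem h0)).1
        have p2 := (hs (hK.sSup_mem h0)).2
        refine ⟨min (sInf (tsupport χ)) (H - sSup (tsupport χ)), lt_min p1 (by linarith), fun z hz => ?_⟩
        refine image_eq_zero_of_notMem_tsupport fun h2 => ?_
        have q1 := csInf_le hK.bddBelow h2
        have q2 := le_csSup hK.bddAbove h2
        rcases hz with hz | hz
        · linarith [min_le_left (sInf (tsupport χ)) (H - sSup (tsupport χ))]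
        · linarith [min_le_right (sInf (tsupport χ)) (H - sSup (tsupport χ))]
    have h1 := h n χ hχ hcpt (Pool.Agent.Lib.MP_79abb3_an.FW.rc χ hχ.continuous)
      (fun z hz => Pool.Agent.Lib.MP_79abb3_an.FW.ex_rc χ hχ.continuous hz)
    rw [lp.inner_single_left, inner_Z2, intervalIntegral.integral_of_le hH.out.le] at h1
    rw [← h1]
    refine integral_congr_ae ?_
    filter_upwards [coe_iota (Pool.Agent.Lib.MP_79abb3_an.FW.rc χ hχ.continuous : CI H),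
      ae_restrict_mem measurableSet_Ioc] with z hz hz2
    rw [hz, Pool.Agent.Lib.MP_79abb3_an.FW.ex_rc χ hχ.continuous ⟨hz2.1.le, hz2.2⟩, Complex.real_smul]
    congr 1
    exact (Complex.conj_ofReal _).symm
  refine (Lp.eq_zero_iff_ae_eq_zero).2 ?_
  have hne : ∀ᵐ z ∂(mH H), z ≠ H := by
    refine ae_restrict_of_ae ?_
    rw [ae_iff]
    simp
  filter_upwards [key, hne, ae_restrict_mem measurableSet_Ioc] with z h1 h2 h3
  exact h1 ⟨h3.1, lt_of_le_of_ne h3.2 h2⟩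

private theorem fea2_pz {p u : ℝ × ℝ → ℂ} (hp : PC H p) (hu : PC H u) :
    pz (⇑(fHc p : HH H)) (fmc u : ℤ → CI H) = ⇑(fHc (fun q => p q * u q) : HH H) := by
  have e : (SC.cm (fam fun q => (u q).re) (fHc p) + Complex.I • SC.cm (fam fun q => (u q).im) (fHc p) : HH H) =
      fHc fun q => p q * u q := by
    have e1 : (fun q => p q * u q) = fun q => ((u q).re : ℂ) * p q + Complex.I * (((u q).im : ℂ) * p q) := by
      funext q
      have h := Complex.re_add_im (u q)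
      calc p q * u q = p q * (((u q).re : ℂ) + ((u q).im : ℂ) * Complex.I) := by rw [h]
        _ = _ := by ring
    rw [cm_fHc hu.re hp, cm_fHc hu.im hp, e1, fHc_add (PC.mulR hu.re hp) (PC.cmul _ (PC.mulR hu.im hp)),
      fHc_smul _ (PC.mulR hu.im hp)]
  rw [← e]
  funext n
  have h3 := (cm_hasSum (pz_fam_sum0 hu.re) (fHc p : HH H) n).add
    ((cm_hasSum (pz_fam_sum0 hu.im) (fHc p : HH H) n).const_smul Complex.I)
  rw [lp.coeFn_add, Pi.add_apply, lp.coeFn_smul, Pi.smul_apply, ← h3.tsum_eq]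
  show ∑' j, mz (fmc u (n - j)) ((fHc p : HH H) j) = _
  refine tsum_congr fun j => ?_
  unfold fmc
  rw [map_add, map_smul]
  rfl

private theorem fea2_pzn (y : ℤ → Z2 H) (U : ℤ → CI H) : pz y (fun n => -U n) = fun n => -pz y U n := by
  funext n
  show ∑' j, mz (-(U (n - j)) : CI H) (y j) = -∑' j, mz (U (n - j) : CI H) (y j)
  rw [← tsum_neg]
  refine tsum_congr fun j => ?_
  rw [map_neg, neg_apply]

private theorem fea2_dpn (x : ℤ → Z2 H) (y : ℤ → Z2 H) : dp x (fun n => -y n) = -dp x y := by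
  unfold dp
  rw [← tsum_neg]
  refine tsum_congr fun n => ?_
  rw [inner_neg_right]

private theorem fea2_tZ (ω : ℝ) (f : HH H) : tZ ω (⇑f) = ⇑(Yz ω f) := funext fun n => (Yz_apply ω f n).symm
private theorem fea2_tY (ω : ℝ) (f : HH H) : tY ω (⇑f) = ⇑(Yy ω f) := funext fun n => (Yy_apply ω f n).symm

private theorem fea2_bf (ω : ℝ) {p u w : ℝ × ℝ → ℂ} (hp : PC H p) (hu : PC H u) (hw : PC H w) (f : HH H) :
    bf ω (⇑(fHc p : HH H)) (fmc u : ℤ → CI H) (fun n => (-(fmc w n) : CI H)) (⇑f) =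
      -⟪Yz ω f, (fHc (fun q => p q * w q) : HH H)⟫_ℂ + ⟪Yy ω f, (fHc (fun q => p q * u q) : HH H)⟫_ℂ := by
  unfold bf
  rw [fea2_pzn, fea2_dpn, fea2_pz hp hu, fea2_pz hp hw, fea2_tZ, fea2_tY, inner_dp, inner_dp]

end

namespace FD
variable {D : Set ℂ} (F : FD D)

private theorem fea2_mth {n : ℤ} {f : ℝ → ℂ} {ε : ℝ} (hε : 0 < ε) (hf : ∀ z, z < ε → f z = 0) (y z : ℝ) (hz : z < ε) :
    mth Real.pi n f (y, z) = 0 := by
  unfold mth
  have h1 : ∫ s in (0:ℝ)..z, ((Real.exp (-(|Real.pi / Real.pi * n| * (z - s))) : ℝ) : ℂ) * f s = 0 := by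
    rw [intervalIntegral.integral_congr (g := fun _ => (0 : ℂ))]
    · simp
    · intro s hs
      have h2 : s < ε := lt_of_le_of_lt hs.2 (max_lt hε hz)
      show _ * f s = 0
      rw [hf s h2, mul_zero]
  show (∫ s in (0:ℝ)..z, ((Real.exp (-(|Real.pi / Real.pi * n| * (z - s))) : ℝ) : ℂ) * f s) * _ = 0
  rw [h1, zero_mul]

/-- the main identity on one mode -/
private theorem fea2_mode (j : Fin F.n) (ψ : Adm D) (ϕ : AdmS D) (n : ℤ) {χ : ℝ → ℝ}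
    (hχ : ContDiff ℝ ((⊤ : ℕ∞) : WithTop ℕ∞) χ) (hc : CptI Real.pi χ) {f₀ : CI Real.pi}
    (hf₀ : ∀ z ∈ Icc (0:ℝ) Real.pi, ex f₀ z = ((χ z : ℝ) : ℂ)) :
    bf (F.G j).ω (⇑(SC.cm (F.G j).a (F.Be j (cl2 ϕ))))
      (uV (F.G j).ω (Vf (F.G j).ω (⇑(F.Ga j (cuV D ψ))))) (wV (F.G j).ω (Vf (F.G j).ω (⇑(F.Ga j (cuV D ψ)))))
      (⇑(lp.single 2 n (iota f₀ : Z2 Real.pi) : HP)) =
    -⟪SC.EE (F.G j).ω (lp.single 2 n (iota f₀ : Z2 Real.pi) : HP), F.Be j (cl2 (uf ψ ϕ))⟫_ℂ +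
      ⟪Ms (ctC1 (4 * F.u) (8 * F.u)) (SC.EE (F.G j).ω (lp.single 2 n (iota f₀ : Z2 Real.pi) : HP)),
        (fHc (fun q => (((ctf (13 * F.u) (14 * F.u) q.2 : ℝ) : ℂ) * (ϕ : ℂ → ℂ) (F.X j q)) *
          dYc (gaF (F.X j) (13 * F.u) (14 * F.u) ψ) q) : HP)⟫_ℂ := by
  have hu := F.u0
  have hπ := F.uπ
  have hψ := Adm.cc ψ
  have hϕ := ϕ.2.1
  have hJ := F.hJ j
  have hS := F.hX j
  have hi : PY Real.pi fun q => (F.J j q)⁻¹ := hJ.py.inv hJ.pos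
  have hϕX : PC Real.pi fun q => (ϕ : ℂ → ℂ) (F.X j q) := hS.pc hϕ.smo
  have h13 : 13 * F.u < 14 * F.u := by linarith
  have hg : PC Real.pi (gaF (F.X j) (13 * F.u) (14 * F.u) ψ) := gaF_pc hS h13 hψ.smo
  have hv : VanC Real.pi (gaF (F.X j) (13 * F.u) (14 * F.u) ψ) := gaF_van hS h13 (by linarith) ψ
  have hcon : ConC (gaF (F.X j) (13 * F.u) (14 * F.u) ψ) := by
    obtain ⟨ε, hε, h3⟩ := gaF_con hS F.hD.op (by linarith) h13 ψ
    exact ⟨ε, hε, 0, h3⟩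
  have eu : uV (F.G j).ω (Vf (F.G j).ω (⇑(F.Ga j (cuV D ψ)))) =
      (fmc (dZc (gaF (F.X j) (13 * F.u) (14 * F.u) ψ)) : ℤ → CI Real.pi) := by
    rw [(F.hGa j).eq ψ, (F.G j).hω]
    exact funext fun n => uV_ll hg hv hcon n
  have ew : wV (F.G j).ω (Vf (F.G j).ω (⇑(F.Ga j (cuV D ψ)))) =
      fun n => (-(fmc (dYc (gaF (F.X j) (13 * F.u) (14 * F.u) ψ)) n) : CI Real.pi) := by
    rw [(F.hGa j).eq ψ, (F.G j).hω]
    exact funext fun n => wV_ll hg hv hcon n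
  have key : ∀ {e e' : ℝ} {B : L2c →L[ℂ] HP}, e < e' → IsPB (F.X j) e e' (F.J j) B →
      SC.cm (F.G j).a (B (cl2 ϕ)) = fHc fun q => ((ctf e e' q.2 : ℝ) : ℂ) * (ϕ : ℂ → ℂ) (F.X j q) := by
    intro e e' B _ hB
    have hw : PY Real.pi fun q : ℝ × ℝ => ctf e e' q.2 * F.J j q := (PY.of_z Real.pi (ctf_smooth e e')).mul hJ.py
    rw [hB.eq _ hϕ, F.G_a j, cm_fHc hi (PC.mulR hw hϕX)]
    congr 1
    funext q
    have h3 : ((F.J j q : ℝ) : ℂ) ≠ 0 := Complex.ofReal_ne_zero.2 (hJ.pos q).ne'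
    push_cast
    field_simp
  have pη : PC Real.pi fun q => ((ctf (4 * F.u) (8 * F.u) q.2 : ℝ) : ℂ) * (ϕ : ℂ → ℂ) (F.X j q) :=
    PC.mulR (PY.of_z Real.pi (ctf_smooth _ _)) hϕX
  have pζ : PC Real.pi fun q => ((ctf (13 * F.u) (14 * F.u) q.2 : ℝ) : ℂ) * (ϕ : ℂ → ℂ) (F.X j q) :=
    PC.mulR (PY.of_z Real.pi (ctf_smooth _ _)) hϕX
  rw [key (by linarith) (F.hBe j), eu, ew, fea2_bf _ pη hg.zz hg.yy]
  -- the mode
  obtain ⟨ε, hε, hcz⟩ := hc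
  have hf1 : ContDiff ℝ ((⊤ : ℕ∞) : WithTop ℕ∞) fun z => ((χ z : ℝ) : ℂ) := Complex.ofRealCLM.contDiff.comp hχ
  have hcC : CptI Real.pi fun z => ((χ z : ℝ) : ℂ) := ⟨ε, hε, fun z hz => by
    show ((χ z : ℝ) : ℂ) = 0
    rw [hcz z hz, Complex.ofReal_zero]⟩
  have hdχ : Continuous (deriv χ) := hχ.continuous_deriv (by simp)
  have hΦc : Continuous fun z => -deriv χ z + |Real.pi / Real.pi * n| * χ z :=
    hdχ.neg.add (continuous_const.mul hχ.continuous)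
  have hΦ : ∀ z ∈ Icc (0:ℝ) Real.pi, ex (Pool.Agent.Lib.MP_79abb3_an.FW.rc
      (fun z => -deriv χ z + |Real.pi / Real.pi * n| * χ z) hΦc : CI Real.pi) z =
      -deriv (fun z => ((χ z : ℝ) : ℂ)) z + ((|Real.pi / Real.pi * n| : ℝ) : ℂ) * ((χ z : ℝ) : ℂ) := fun z hz => by
    have h1 : HasDerivAt (fun z => ((χ z : ℝ) : ℂ)) ((deriv χ z : ℝ) : ℂ) z :=
      ((hχ.differentiable (by simp)) z).hasDerivAt.ofReal_comp
    rw [Pool.Agent.Lib.MP_79abb3_an.FW.ex_rc _ hΦc hz, h1.deriv]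
    push_cast
    ring
  have c1 : ∀ a b : ℝ, Continuous (deriv (ctf a b)) := fun a b => (ctf_smooth1 a b).continuous
  have c2 : ∀ a b : ℝ, Continuous (deriv (deriv (ctf a b))) := fun a b =>
    (ctf_smooth1 a b).continuous_deriv (by simp)
  obtain ⟨P1, _, T1, A1, A2, A3, _⟩ := mode_fHc hf1 hcC hΦ hf₀ (ctf_smooth (4 * F.u) (8 * F.u)) (c1 _ _) (c2 _ _)
  obtain ⟨P2, _, _, B1, _, _, _⟩ := mode_fHc hf1 hcC hΦ hf₀ (ctf_smooth (9 * F.u) (10 * F.u)) (c1 _ _) (c2 _ _)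
  rw [T1] at A1 A2 A3 B1
  rw [← (F.G j).hω] at A1 A2 A3 B1
  have hm0 : ∀ y z, z < ε → mth Real.pi n (fun z => ((χ z : ℝ) : ℂ)) (y, z) = 0 := fun y z hz =>
    fea2_mth hε (fun z hz => by
      show ((χ z : ℝ) : ℂ) = 0
      rw [hcz z (Or.inl hz), Complex.ofReal_zero]) y z hz
  have t1 : TfS Real.pi ε (8 * F.u) fun q => ((ctf (4 * F.u) (8 * F.u) q.2 : ℝ) : ℂ) *
      mth Real.pi n (fun z => ((χ z : ℝ) : ℂ)) q :=
    ⟨P1, fun y z hz => by rw [hm0 y z hz, mul_zero],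
      fun y z hz => by
        show ((ctf (4 * F.u) (8 * F.u) z : ℝ) : ℂ) * _ = 0
        rw [ctf_zero (by linarith) hz.le, Complex.ofReal_zero, zero_mul]⟩
  have t2 : TfS Real.pi ε (10 * F.u) fun q => ((ctf (9 * F.u) (10 * F.u) q.2 : ℝ) : ℂ) *
      mth Real.pi n (fun z => ((χ z : ℝ) : ℂ)) q :=
    ⟨P2, fun y z hz => by rw [hm0 y z hz, mul_zero],
      fun y z hz => by
        show ((ctf (9 * F.u) (10 * F.u) z : ℝ) : ℂ) * _ = 0
        rw [ctf_zero (by linarith) hz.le, Complex.ofReal_zero, zero_mul]⟩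
  have hJ14 : IsJ Real.pi (F.X j) (14 * F.u) (F.J j) :=
    ⟨hJ.py, hJ.pos, fun q h0 h1 => hJ.eq q h0 (by linarith)⟩
  have hJ8 : IsJ Real.pi (F.X j) (8 * F.u) (F.J j) :=
    ⟨hJ.py, hJ.pos, fun q h0 h1 => hJ.eq q h0 (by linarith)⟩
  have hNL := IsPB.NL (F.hBz j) (F.hGa j) hS F.hD.op F.hD.bdd hJ14 (by linarith) h13 (by linarith) (by linarith) h13
    (by linarith) t1 hε (by linarith) (by linarith) (cuV D ψ) (cl2 ϕ)
  have hNL2 := NL_uf F.hD.bdd ψ hϕ (cuV D (pshA hS t1 hε (by linarith)))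
  rw [iot_cuV F.hD.bdd, str_gpX F.hD.bdd, pshA_coe] at hNL2
  have hpr := IsPB.pair (F.hBe j) hS hJ8 (by linarith) (by linarith) (by linarith) t2 hε (by linarith)
    (cl2 (uf ψ ϕ))
  have e48 : (fun q : ℝ × ℝ => ((ctf (4 * F.u) (8 * F.u) q.2 : ℝ) : ℂ) *
      (((ctf (9 * F.u) (10 * F.u) q.2 : ℝ) : ℂ) * mth Real.pi n (fun z => ((χ z : ℝ) : ℂ)) q)) =
      fun q => ((ctf (4 * F.u) (8 * F.u) q.2 : ℝ) : ℂ) * mth Real.pi n (fun z => ((χ z : ℝ) : ℂ)) q := by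
    funext q
    by_cases hz : q.2 ≤ 9 * F.u
    · rw [ctf_one (by linarith) hz, Complex.ofReal_one, one_mul]
    · rw [ctf_zero (by linarith) (by linarith : 8 * F.u ≤ q.2), Complex.ofReal_zero, zero_mul, zero_mul]
  rw [e48] at hpr
  have hsup : Ms (ctC (9 * F.u) (10 * F.u)) (F.Be j (cl2 (uf ψ ϕ))) = F.Be j (cl2 (uf ψ ϕ)) :=
    IsPB.supp (F.hBe j) hS hJ8 (by linarith) (by linarith) (by linarith) (fun z hz => by
      unfold ctC
      rw [Pool.Agent.Lib.MP_79abb3_an.FW.ex_rc _ _ ⟨hz.1, by linarith [hz.2]⟩, ctf_one (by linarith) (by linarith [hz.2]),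
        Complex.ofReal_one]) _
  have sr : ∀ (g : ℝ → ℝ) (hg : Continuous g), star (Pool.Agent.Lib.MP_79abb3_an.FW.rc g hg : CI Real.pi) =
      Pool.Agent.Lib.MP_79abb3_an.FW.rc g hg := fun g hg => SC.star_rc g hg
  rw [B1, inner_Ms, sr] at hpr
  have hsup' : Ms (Pool.Agent.Lib.MP_79abb3_an.FW.rc (ctf (9 * F.u) (10 * F.u)) (ctf_smooth (9 * F.u) (10 * F.u)).continuous)
      (F.Be j (cl2 (uf ψ ϕ))) = F.Be j (cl2 (uf ψ ϕ)) := hsup
  rw [hsup'] at hpr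
  rw [← F.G_a j, key h13 (F.hBz j), ← (F.G j).hω, eu, ew, fea2_pzn, fea2_dpn, fea2_pz pζ hg.yy, fea2_pz pζ hg.zz,
    ← inner_dp, ← inner_dp, A2, A3, inner_add_left, inner_Ms, inner_Ms, inner_Ms, sr, sr] at hNL
  have pm1 : PC Real.pi fun q => (((ctf (13 * F.u) (14 * F.u) q.2 : ℝ) : ℂ) * (ϕ : ℂ → ℂ) (F.X j q)) *
      dYc (gaF (F.X j) (13 * F.u) (14 * F.u) ψ) q := pζ.mul hg.yy
  have pm2 : PC Real.pi fun q => (((ctf (13 * F.u) (14 * F.u) q.2 : ℝ) : ℂ) * (ϕ : ℂ → ℂ) (F.X j q)) *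
      dZc (gaF (F.X j) (13 * F.u) (14 * F.u) ψ) q := pζ.mul hg.zz
  have m1 : Ms (Pool.Agent.Lib.MP_79abb3_an.FW.rc (ctf (4 * F.u) (8 * F.u)) (ctf_smooth (4 * F.u) (8 * F.u)).continuous)
      (fHc (fun q => (((ctf (13 * F.u) (14 * F.u) q.2 : ℝ) : ℂ) * (ϕ : ℂ → ℂ) (F.X j q)) *
      dYc (gaF (F.X j) (13 * F.u) (14 * F.u) ψ) q) : HP) =
      fHc fun q => (((ctf (4 * F.u) (8 * F.u) q.2 : ℝ) : ℂ) * (ϕ : ℂ → ℂ) (F.X j q)) *
      dYc (gaF (F.X j) (13 * F.u) (14 * F.u) ψ) q := by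
    rw [Ms_fHc (ctf_smooth (4 * F.u) (8 * F.u)) pm1]
    congr 1
    funext q
    by_cases hz : q.2 ≤ 13 * F.u
    · rw [ctf_one h13 hz, Complex.ofReal_one, one_mul, mul_assoc]
    · rw [ctf_zero (by linarith) (by linarith : 8 * F.u ≤ q.2), Complex.ofReal_zero, zero_mul, zero_mul, zero_mul]
  have m2 : Ms (Pool.Agent.Lib.MP_79abb3_an.FW.rc (ctf (4 * F.u) (8 * F.u)) (ctf_smooth (4 * F.u) (8 * F.u)).continuous)
      (fHc (fun q => (((ctf (13 * F.u) (14 * F.u) q.2 : ℝ) : ℂ) * (ϕ : ℂ → ℂ) (F.X j q)) *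
      dZc (gaF (F.X j) (13 * F.u) (14 * F.u) ψ) q) : HP) =
      fHc fun q => (((ctf (4 * F.u) (8 * F.u) q.2 : ℝ) : ℂ) * (ϕ : ℂ → ℂ) (F.X j q)) *
      dZc (gaF (F.X j) (13 * F.u) (14 * F.u) ψ) q := by
    rw [Ms_fHc (ctf_smooth (4 * F.u) (8 * F.u)) pm2]
    congr 1
    funext q
    by_cases hz : q.2 ≤ 13 * F.u
    · rw [ctf_one h13 hz, Complex.ofReal_one, one_mul, mul_assoc]
    · rw [ctf_zero (by linarith) (by linarith : 8 * F.u ≤ q.2), Complex.ofReal_zero, zero_mul, zero_mul, zero_mul]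
  rw [m1, m2] at hNL
  have hpi : (2 * Real.pi : ℂ) ≠ 0 := mul_ne_zero two_ne_zero (Complex.ofReal_ne_zero.2 Real.pi_pos.ne')
  have hfin := hNL.symm.trans (hNL2.trans (congrArg Neg.neg hpr))
  rw [← mul_neg] at hfin
  have hfin2 := mul_left_cancel₀ hpi hfin
  have e5 : ⟪Ms (ctC1 (4 * F.u) (8 * F.u)) (SC.EE (F.G j).ω (lp.single 2 n (iota f₀ : Z2 Real.pi) : HP)),
        (fHc (fun q => (((ctf (13 * F.u) (14 * F.u) q.2 : ℝ) : ℂ) * (ϕ : ℂ → ℂ) (F.X j q)) *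
          dYc (gaF (F.X j) (13 * F.u) (14 * F.u) ψ) q) : HP)⟫_ℂ =
      ⟪SC.EE (F.G j).ω (lp.single 2 n (iota f₀ : Z2 Real.pi) : HP),
        Ms (Pool.Agent.Lib.MP_79abb3_an.FW.rc (deriv (ctf (4 * F.u) (8 * F.u))) (c1 _ _))
        (fHc (fun q => (((ctf (13 * F.u) (14 * F.u) q.2 : ℝ) : ℂ) * (ϕ : ℂ → ℂ) (F.X j q)) *
          dYc (gaF (F.X j) (13 * F.u) (14 * F.u) ψ) q) : HP)⟫_ℂ := by
    have h1 := inner_Ms (Pool.Agent.Lib.MP_79abb3_an.FW.rc (deriv (ctf (4 * F.u) (8 * F.u))) (c1 _ _) : CI Real.pi)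
      (SC.EE (F.G j).ω (lp.single 2 n (iota f₀ : Z2 Real.pi) : HP))
      (fHc (fun q => (((ctf (13 * F.u) (14 * F.u) q.2 : ℝ) : ℂ) * (ϕ : ℂ → ℂ) (F.X j q)) *
          dYc (gaF (F.X j) (13 * F.u) (14 * F.u) ψ) q) : HP)
    rw [sr] at h1
    exact h1
  rw [e5]
  linear_combination hfin2

/-- the main identity for all `f` -/
private theorem fea2_all (j : Fin F.n) (ψ : Adm D) (ϕ : AdmS D) (f : HP) :
    bf (F.G j).ω (⇑(SC.cm (F.G j).a (F.Be j (cl2 ϕ))))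
      (uV (F.G j).ω (Vf (F.G j).ω (⇑(F.Ga j (cuV D ψ))))) (wV (F.G j).ω (Vf (F.G j).ω (⇑(F.Ga j (cuV D ψ)))))
      (⇑f) =
    -⟪SC.EE (F.G j).ω f, F.Be j (cl2 (uf ψ ϕ))⟫_ℂ +
      ⟪Ms (ctC1 (4 * F.u) (8 * F.u)) (SC.EE (F.G j).ω f),
        (fHc (fun q => (((ctf (13 * F.u) (14 * F.u) q.2 : ℝ) : ℂ) * (ϕ : ℂ → ℂ) (F.X j q)) *
          dYc (gaF (F.X j) (13 * F.u) (14 * F.u) ψ) q) : HP)⟫_ℂ := by
  have hu := F.u0
  have hπ := F.uπ
  have hJ := F.hJ j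
  have hi : PY Real.pi fun q => (F.J j q)⁻¹ := hJ.py.inv hJ.pos
  have hϕX : PC Real.pi fun q => (ϕ : ℂ → ℂ) (F.X j q) := (F.hX j).pc ϕ.2.1.smo
  have h13 : 13 * F.u < 14 * F.u := by linarith
  have hg : PC Real.pi (gaF (F.X j) (13 * F.u) (14 * F.u) ψ) := gaF_pc (F.hX j) h13 (Adm.cc ψ).smo
  have hv : VanC Real.pi (gaF (F.X j) (13 * F.u) (14 * F.u) ψ) := gaF_van (F.hX j) h13 (by linarith) ψ
  have hcon : ConC (gaF (F.X j) (13 * F.u) (14 * F.u) ψ) := by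
    obtain ⟨ε, hε, h3⟩ := gaF_con (F.hX j) F.hD.op (by linarith) h13 ψ
    exact ⟨ε, hε, 0, h3⟩
  have eu : uV (F.G j).ω (Vf (F.G j).ω (⇑(F.Ga j (cuV D ψ)))) =
      (fmc (dZc (gaF (F.X j) (13 * F.u) (14 * F.u) ψ)) : ℤ → CI Real.pi) := by
    rw [(F.hGa j).eq ψ, (F.G j).hω]
    exact funext fun n => uV_ll hg hv hcon n
  have ew : wV (F.G j).ω (Vf (F.G j).ω (⇑(F.Ga j (cuV D ψ)))) =
      fun n => (-(fmc (dYc (gaF (F.X j) (13 * F.u) (14 * F.u) ψ)) n) : CI Real.pi) := by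
    rw [(F.hGa j).eq ψ, (F.G j).hω]
    exact funext fun n => wV_ll hg hv hcon n
  have hw : PY Real.pi fun q : ℝ × ℝ => ctf (4 * F.u) (8 * F.u) q.2 * F.J j q :=
    (PY.of_z Real.pi (ctf_smooth _ _)).mul hJ.py
  have key : SC.cm (F.G j).a (F.Be j (cl2 ϕ)) =
      fHc fun q => (((F.J j q)⁻¹ : ℝ) : ℂ) * (((ctf (4 * F.u) (8 * F.u) q.2 * F.J j q : ℝ) : ℂ) *
        (ϕ : ℂ → ℂ) (F.X j q)) := by
    rw [(F.hBe j).eq _ ϕ.2.1, F.G_a j, cm_fHc hi (PC.mulR hw hϕX)]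
  have hp := PC.mulR hi (PC.mulR hw hϕX)
  have hall : ∀ f : HP, bf (F.G j).ω (⇑(SC.cm (F.G j).a (F.Be j (cl2 ϕ))))
      (uV (F.G j).ω (Vf (F.G j).ω (⇑(F.Ga j (cuV D ψ))))) (wV (F.G j).ω (Vf (F.G j).ω (⇑(F.Ga j (cuV D ψ)))))
      (⇑f) = -⟪Yz (F.G j).ω f, (fHc (fun q => ((((F.J j q)⁻¹ : ℝ) : ℂ) *
        (((ctf (4 * F.u) (8 * F.u) q.2 * F.J j q : ℝ) : ℂ) * (ϕ : ℂ → ℂ) (F.X j q))) *
        dYc (gaF (F.X j) (13 * F.u) (14 * F.u) ψ) q) : HP)⟫_ℂ +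
      ⟪Yy (F.G j).ω f, (fHc (fun q => ((((F.J j q)⁻¹ : ℝ) : ℂ) *
        (((ctf (4 * F.u) (8 * F.u) q.2 * F.J j q : ℝ) : ℂ) * (ϕ : ℂ → ℂ) (F.X j q))) *
        dZc (gaF (F.X j) (13 * F.u) (14 * F.u) ψ) q) : HP)⟫_ℂ := fun f => by
    rw [key, eu, ew]
    exact fea2_bf _ hp hg.zz hg.yy f
  generalize hW1 : (fHc (fun q => ((((F.J j q)⁻¹ : ℝ) : ℂ) *
        (((ctf (4 * F.u) (8 * F.u) q.2 * F.J j q : ℝ) : ℂ) * (ϕ : ℂ → ℂ) (F.X j q))) *
        dYc (gaF (F.X j) (13 * F.u) (14 * F.u) ψ) q) : HP) = W1 at hall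
  generalize hW2 : (fHc (fun q => ((((F.J j q)⁻¹ : ℝ) : ℂ) *
        (((ctf (4 * F.u) (8 * F.u) q.2 * F.J j q : ℝ) : ℂ) * (ϕ : ℂ → ℂ) (F.X j q))) *
        dZc (gaF (F.X j) (13 * F.u) (14 * F.u) ψ) q) : HP) = W2 at hall
  have hmode := fun (n : ℤ) (χ : ℝ → ℝ) (hχ : ContDiff ℝ ((⊤ : ℕ∞) : WithTop ℕ∞) χ) (hc : CptI Real.pi χ)
    (f₀ : CI Real.pi) (hf₀ : ∀ z ∈ Icc (0:ℝ) Real.pi, ex f₀ z = ((χ z : ℝ) : ℂ)) =>
    F.fea2_mode j ψ ϕ n hχ hc hf₀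
  generalize hR : (fHc (fun q => (((ctf (13 * F.u) (14 * F.u) q.2 : ℝ) : ℂ) * (ϕ : ℂ → ℂ) (F.X j q)) *
          dYc (gaF (F.X j) (13 * F.u) (14 * F.u) ψ) q) : HP) = R at hmode ⊢
  have hY : -(ContinuousLinearMap.adjoint (Yz (F.G j).ω) W1) + ContinuousLinearMap.adjoint (Yy (F.G j).ω) W2 +
      ContinuousLinearMap.adjoint (SC.EE (F.G j).ω) (F.Be j (cl2 (uf ψ ϕ))) -
      ContinuousLinearMap.adjoint ((Ms (ctC1 (4 * F.u) (8 * F.u))).comp (SC.EE (F.G j).ω)) R = 0 := by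
    refine fea2_zero _ fun n χ hχ hc f₀ hf₀ => ?_
    have h1 := hmode n χ hχ hc f₀ hf₀
    rw [hall] at h1
    rw [inner_sub_right, inner_add_right, inner_add_right, inner_neg_right, ContinuousLinearMap.adjoint_inner_right,
      ContinuousLinearMap.adjoint_inner_right, ContinuousLinearMap.adjoint_inner_right,
      ContinuousLinearMap.adjoint_inner_right, ContinuousLinearMap.comp_apply, h1]
    ring
  have h2 : ⟪f, -(ContinuousLinearMap.adjoint (Yz (F.G j).ω) W1) + ContinuousLinearMap.adjoint (Yy (F.G j).ω) W2 +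
      ContinuousLinearMap.adjoint (SC.EE (F.G j).ω) (F.Be j (cl2 (uf ψ ϕ))) -
      ContinuousLinearMap.adjoint ((Ms (ctC1 (4 * F.u) (8 * F.u))).comp (SC.EE (F.G j).ω)) R⟫_ℂ = 0 := by
    rw [hY, inner_zero_right]
  rw [inner_sub_right, inner_add_right, inner_add_right, inner_neg_right, ContinuousLinearMap.adjoint_inner_right,
      ContinuousLinearMap.adjoint_inner_right, ContinuousLinearMap.adjoint_inner_right,
      ContinuousLinearMap.adjoint_inner_right, ContinuousLinearMap.comp_apply] at h2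
  rw [hall]
  linear_combination h2

/-- Strips: for `x ∈ HP` with `E (T x)` supported in `z ≤ 4u` (where `η = 1`), `ϕ ∈ C_c^∞(D)`, `u = gp ψ`:
`b(a Be ϕ, u; T x) = -⟨E T x, modes of (u·∇ϕ) J η⟩`. Both sides are continuous in `x`; write `x` as a limit of finite sums of smooth
modes `Φ` and multiply by a cut-off: it is enough to show for all `x ∈ HP`
`b(a Be ϕ, u; T x) = -⟨E T x, Be (u·∇ϕ)⟩ - ⟨E T x, η' w ϕ_s⟩` (`w` the second velocity component), which on smooth modes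
(`mode_fHc`, multiplied by a cut-off which is `1` on the support of `η (ϕ ∘ X)`, so that the test function is in `TfS`) is an
integration by parts in the strip (`dp_fHc`, `uV_ll`, `wV_ll`, `psh_adv`). -/
theorem bf_uf (j : Fin F.n) (ψ : Adm D) (ϕ : AdmS D) (x : HP)
    (hx : ∀ m : CI Real.pi, (∀ z ∈ Icc (0:ℝ) (4 * F.u), ex m z = 0) →
      Ms m (SC.EE (F.G j).ω (SC.TT (F.G j).ω x)) = 0) :
    bf (F.G j).ω (⇑(SC.cm (F.G j).a (F.Be j (cl2 ϕ))))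
      (uV (F.G j).ω (Vf (F.G j).ω (⇑(F.Ga j (cuV D ψ))))) (wV (F.G j).ω (Vf (F.G j).ω (⇑(F.Ga j (cuV D ψ)))))
      (⇑(SC.TT (F.G j).ω x)) = -⟪SC.EE (F.G j).ω (SC.TT (F.G j).ω x), F.Be j (cl2 (uf ψ ϕ))⟫_ℂ := by
  have hu := F.u0
  have hπ := F.uπ
  have h0 : Ms (ctC1 (4 * F.u) (8 * F.u)) (SC.EE (F.G j).ω (SC.TT (F.G j).ω x)) = 0 := by
    refine hx _ fun z hz => ?_
    unfold ctC1
    rw [Pool.Agent.Lib.MP_79abb3_an.FW.ex_rc _ _ ⟨hz.1, by linarith [hz.2]⟩]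
    have hd : deriv (ctf (4 * F.u) (8 * F.u)) z = 0 := by
      refine IsLocalMax.deriv_eq_zero (Eventually.of_forall fun w => ?_)
      rw [ctf_one (by linarith) hz.2]
      exact Real.smoothTransition.le_one _
    rw [hd, Complex.ofReal_zero]
  rw [F.fea2_all j ψ ϕ, h0, inner_zero_left, add_zero]

/-- **The transport form of `H¹₀(D)`-functions.** Density in `q` and `v` (`adv_op`, `TR`, `j4`): `q = gpV ϕ`, `v = cuV ψ`;
`TR_uf`, `NL_uf` with `str iot Vc φ = χ θ`, `bf_uf` with `E T gs φ = E Lp (js† φ) = a Bp θ` (`EE_La`), and the partition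
`⟨θ, F₀⟩ = ⟨χ θ, F₀⟩ + ∑ 2π ⟨a Bp θ, Be F₀⟩` (`part_id` for the element `θ` of `XS D`). -/
theorem adv_TR (v : VD D) (φ : XS D) (q : SV D) :
    TR (jj D v) (q : Y2) (j4 D (ja D φ)) = F.adv v φ ((js D q : XS D) : L2c) := by
  obtain ⟨T, hT⟩ := F.adv_op
  have hu := F.u0
  have hπ := F.uπ
  rw [← hT]
  have hcl1 : IsClosed {v : VD D | ∀ q : SV D, TR (jj D v) (q : Y2) (j4 D (ja D φ)) =
      T v ((js D q : XS D) : L2c) φ} := by
    rw [ofPred_forall]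
    refine isClosed_iInter fun q => isClosed_eq ?_ ?_
    · have c1 : Continuous fun v : VD D => TR (jj D v) (q : Y2) :=
        ((TR.flip (q : Y2)).continuous).comp (jj D).continuous
      exact (continuous_eval_const (j4 D (ja D φ))).comp c1
    · have c1 : Continuous fun v : VD D => T v ((js D q : XS D) : L2c) := by fun_prop
      exact (continuous_eval_const φ).comp c1
  refine isClosed_property (cuV_dense D) hcl1 (fun ψ => ?_) v q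
  intro q
  have hcl2 : IsClosed {q : SV D | TR (jj D (cuV D ψ)) (q : Y2) (j4 D (ja D φ)) =
      T (cuV D ψ) ((js D q : XS D) : L2c) φ} := by
    refine isClosed_eq ?_ ?_
    · have c1 : Continuous fun q : SV D => TR (jj D (cuV D ψ)) (q : Y2) :=
        (TR (jj D (cuV D ψ))).continuous.comp continuous_subtype_val
      exact (continuous_eval_const (j4 D (ja D φ))).comp c1
    · have c1 : Continuous fun q : SV D => T (cuV D ψ) ((js D q : XS D) : L2c) :=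
        (T (cuV D ψ)).continuous.comp (continuous_subtype_val.comp (js D).continuous)
      exact (continuous_eval_const φ).comp c1
  refine isClosed_property (gpV_dense D) hcl2 (fun ϕ => ?_) q
  show TR (jj D (cuV D ψ)) (gp ϕ) (j4 D (ja D φ)) = T (cuV D ψ) ((js D (gpV D ϕ) : XS D) : L2c) φ
  rw [hT, TR_uf F.hD.bdd ψ ϕ, js_gpV F.hD.bdd, clX_coe]
  unfold adv
  rw [NL_uf F.hD.bdd ψ ϕ.2.1 (F.Vc φ), F.hVc.st φ]
  have hJ4 : ∀ j, IsJ Real.pi (F.X j) (4 * F.u) (F.J j) := fun j =>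
    ⟨(F.hJ j).py, (F.hJ j).pos, fun q h0 h1 => (F.hJ j).eq q h0 (by linarith)⟩
  have hE : ∀ j, SC.EE (F.G j).ω (SC.TT (F.G j).ω (F.gs j φ)) =
      SC.cm (F.G j).a (F.Bp j ((js D (ja D φ) : XS D) : L2c)) := fun j => by
    rw [F.TT_gs j φ]
    exact F.EE_La j (by linarith) (by linarith) (by linarith) (F.hLp j) (F.hBp j) (ja D φ)
  have hb : ∀ j, bf (F.G j).ω (⇑(SC.cm (F.G j).a (F.Be j (cl2 ϕ))))
      (uV (F.G j).ω (Vf (F.G j).ω (⇑(F.Ga j (cuV D ψ))))) (wV (F.G j).ω (Vf (F.G j).ω (⇑(F.Ga j (cuV D ψ)))))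
      (⇑(SC.TT (F.G j).ω (F.gs j φ))) =
      -⟪F.Bp j ((js D (ja D φ) : XS D) : L2c), SC.cm (F.G j).a (F.Be j (cl2 (uf ψ ϕ)))⟫_ℂ := fun j => by
    rw [F.bf_uf j ψ ϕ (F.gs j φ) fun m hm => ?_, hE j]
    · rw [F.G_a j, inner_cm_fam ((F.hJ j).py.inv (F.hJ j).pos)]
    · rw [hE j, F.G_a j, Ms_cm m (pz_fam_sum0 ((F.hJ j).py.inv (F.hJ j).pos))]
      have h1 := IsPB.supp (F.hBp j) (F.hX j) (hJ4 j) (by linarith) (by linarith) (by linarith) (m := 1 - m)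
        (fun z hz => by rw [ex_sub, hm z hz, ex_one, sub_zero]) ((js D (ja D φ) : XS D) : L2c)
      have h2 : Ms m (F.Bp j ((js D (ja D φ) : XS D) : L2c)) = 0 := by
        have h3 : Ms (1 - m) (F.Bp j ((js D (ja D φ) : XS D) : L2c)) =
            F.Bp j ((js D (ja D φ) : XS D) : L2c) - Ms m (F.Bp j ((js D (ja D φ) : XS D) : L2c)) := by
          refine lp.ext (funext fun n => ?_)
          rw [lp.coeFn_sub, Pi.sub_apply, Ms_apply, Ms_apply, map_sub, sub_apply, mz_one]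
        rw [h3] at h1
        exact sub_eq_self.1 h1
      rw [h2, map_zero]
  simp only [hb]
  rw [F.part_id (js D (ja D φ)) (cl2 (uf ψ ϕ))]
  simp only [mul_neg, Finset.sum_neg_distrib]
  ring

end FD

end Pool.Agent.Lib.MP_79abb3_an.PD
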