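import Pool.Agent.Lib.MP_79abb3_an.PD.FeDef
import Pool.Agent.Lib.MP_79abb3_an.SC.ApX

/-!
Theorem D, block F: regularisation operators on the modes: `R_n = n T_n` on every mode.
-/

set_option autoImplicit false
set_option linter.unusedSectionVars false

open MeasureTheory Set Filter Topology Function
open scoped ENNReal InnerProductSpace

namespace Pool.Agent.Lib.MP_79abb3_an.SC

open Pool.Agent.Lib.MP_79abb3_an.P25 Pool.Agent.Lib.MP_79abb3_an.FW

/-- Equibounded operators converging strongly to the identity converge uniformly on compact sets. -/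
theorem unif_cpt {X : Type} [NormedAddCommGroup X] [NormedSpace ℂ X] {T : ℕ → X →L[ℂ] X} {M : ℝ}
    (hM : ∀ n, ‖T n‖ ≤ M) (h : ∀ x, Tendsto (fun n => T n x) atTop (𝓝 x)) {x : ℝ → X} {a b : ℝ}
    (hx : ContinuousOn x (Icc a b)) {ε : ℝ} (hε : 0 < ε) :
    ∀ᶠ n in atTop, ∀ t ∈ Icc a b, ‖T n (x t) - x t‖ ≤ ε := by
  have hM0 : 0 ≤ M := (norm_nonneg _).trans (hM 0)
  obtain ⟨δ, hδ⟩ : ∃ δ, δ = ε / (2 * (M + 1)) := ⟨_, rfl⟩
  have hδ0 : 0 < δ := by rw [hδ]; positivity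
  have hK : IsCompact (x '' Icc a b) := isCompact_Icc.image_of_continuousOn hx
  obtain ⟨S, hSK, hSf, hS⟩ := hK.finite_cover_balls hδ0
  have h1 : ∀ᶠ n in atTop, ∀ y ∈ S, ‖T n y - y‖ ≤ ε / 2 := by
    rw [eventually_all_finite hSf]
    intro y _
    have h2 := (tendsto_iff_norm_sub_tendsto_zero.1 (h y))
    exact (h2.eventually_lt_const (half_pos hε)).mono fun n hn => hn.le
  filter_upwards [h1] with n hn t ht
  obtain ⟨y, hy, hty⟩ := mem_iUnion₂.1 (hS (mem_image_of_mem x ht))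
  rw [Metric.mem_ball, dist_eq_norm] at hty
  have e : T n (x t) - x t = T n (x t - y) + (T n y - y) - (x t - y) := by
    rw [map_sub]; abel
  have h3 : ‖T n (x t - y)‖ ≤ M * δ := by
    refine ((T n).le_opNorm _).trans ?_
    exact mul_le_mul (hM n) hty.le (norm_nonneg _) hM0
  have h4 : M * δ + δ = ε / 2 := by rw [hδ]; field_simp
  calc ‖T n (x t) - x t‖ ≤ ‖T n (x t - y) + (T n y - y)‖ + ‖x t - y‖ := by rw [e]; exact norm_sub_le _ _
    _ ≤ ‖T n (x t - y)‖ + ‖T n y - y‖ + ‖x t - y‖ := by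
        gcongr; exact norm_add_le _ _
    _ ≤ ε := by linarith [hn y hy]

section
variable {H : ℝ} [hH : Fact (0 < H)]

theorem norm_RnT_fam (n : ℕ) : ‖((n : ℝ) : ℂ) • (T2 (n : ℝ) : Z2 H →L[ℂ] Z2 H)‖ ≤ 1 := by
  refine ContinuousLinearMap.opNorm_le_bound _ zero_le_one fun f => ?_
  rw [smul_apply, norm_smul, Complex.norm_real, Real.norm_eq_abs, one_mul]
  exact norm_kT2_le _ f

/-- `n T_n` on every mode -/
noncomputable def RnT (n : ℕ) : HH H →L[ℂ] HH H := dg fun _ : ℤ => ((n : ℝ) : ℂ) • T2 (n : ℝ)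

theorem RnT_apply (n : ℕ) (x : HH H) (k : ℤ) : RnT n x k = ((n : ℝ) : ℂ) • T2 (n : ℝ) (x k) :=
  dg_apply (fun _ => norm_RnT_fam n) x k

theorem norm_RnT_le (n : ℕ) : ‖(RnT n : HH H →L[ℂ] HH H)‖ ≤ 1 := norm_dg_le fun _ => norm_RnT_fam n

theorem cj_RnT (n : ℕ) (x : HH H) : cjX (RnT n x) = RnT n (cjX x) :=
  cjX_dg (fun _ => norm_RnT_fam n) (fun k f => by
    rw [smul_apply, smul_apply, cz_smul, cz_T2, Complex.star_def, Complex.conj_ofReal]) x

/-- Weighted bound of `T_k` for nondecreasing weights: `|th T f| ≤ T |th f|`. -/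
theorem wT2_le {th : ℝ → ℝ} (hw : Wgt H th) (k : ℝ) (f : Z2 H) :
    |k| * ‖mz (rc th hw.c) (T2 k f)‖ ≤ ‖mz (rc th hw.c) f‖ := by
  have hm : MemLp (fun z => ((‖(mz (rc th hw.c) f : Z2 H) z‖ : ℝ) : ℂ)) 2 (mH H) :=
    (Lp.memLp (mz (rc th hw.c) f)).norm.ofReal
  obtain ⟨g, hg⟩ : ∃ g : Z2 H, g = hm.toLp _ := ⟨_, rfl⟩
  have hgc : (g : ℝ → ℂ) =ᵐ[mH H] fun z => ((‖(mz (rc th hw.c) f : Z2 H) z‖ : ℝ) : ℂ) := by
    rw [hg]; exact hm.coeFn_toLp
  have hgn : ‖g‖ = ‖mz (rc th hw.c) f‖ := by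
    apply le_antisymm
    · apply Lp.norm_le_norm_of_ae_le
      filter_upwards [hgc] with z hz
      rw [hz, Complex.norm_real, norm_norm]
    · apply Lp.norm_le_norm_of_ae_le
      filter_upwards [hgc] with z hz
      rw [hz, Complex.norm_real, norm_norm]
  have hfth : ∀ᵐ z ∂(mH H), ‖(mz (rc th hw.c) f : Z2 H) z‖ = th z * ‖f z‖ := by
    filter_upwards [coe_mz (rc th hw.c) f, ae_restrict_mem measurableSet_Ioc] with z h1 h2
    have hz : z ∈ Icc (0:ℝ) H := ⟨h2.1.le, h2.2⟩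
    rw [h1, norm_mul, norm_ex_rc hw hz]
  -- pointwise bound
  have key : ∀ z ∈ Icc (0:ℝ) H, ‖ex (rc th hw.c : CI H) z * ex (Tz k f) z‖ ≤ ‖ex (Tz k g) z‖ := by
    intro z hz
    have hsub : Ioc z H ⊆ Ioc (0:ℝ) H := Ioc_subset_Ioc_left hz.1
    have e1 : ex (Tz k g) z = ((∫ x in z..H, Real.exp (-|k| * (x - z)) *
        ‖(mz (rc th hw.c) f : Z2 H) x‖ : ℝ) : ℂ) := by
      rw [Tz_apply k g hz, ← intervalIntegral.integral_ofReal]
      refine ii_congr ?_ hz H_memI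
      filter_upwards [hgc] with x hx
      rw [hx]; push_cast; ring
    have i1 : IntervalIntegrable (fun x => Real.exp (-|k| * (x - z)) *
        ‖(mz (rc th hw.c) f : Z2 H) x‖) volume z H := by
      have h1 := (ii_Z2 (mz (rc th hw.c) f) hz H_memI).norm
      exact h1.continuousOn_mul (by fun_prop)
    have h0 : 0 ≤ ∫ x in z..H, Real.exp (-|k| * (x - z)) * ‖(mz (rc th hw.c) f : Z2 H) x‖ :=
      intervalIntegral.integral_nonneg hz.2 fun x _ => by positivity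
    rw [e1, Complex.norm_real, Real.norm_of_nonneg h0, norm_mul, norm_ex_rc hw hz, Tz_apply k f hz]
    have h2 : ‖∫ x in z..H, ((Real.exp (-|k| * (x - z)) : ℝ) : ℂ) * f x‖ ≤
        ∫ x in z..H, Real.exp (-|k| * (x - z)) * ‖f x‖ := by
      refine (intervalIntegral.norm_integral_le_integral_norm hz.2).trans (le_of_eq ?_)
      refine intervalIntegral.integral_congr fun x _ => ?_
      show ‖((Real.exp (-|k| * (x - z)) : ℝ) : ℂ) * f x‖ = _
      rw [norm_mul, Complex.norm_real, Real.norm_of_nonneg (Real.exp_pos _).le]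
    have i2 : IntervalIntegrable (fun x => Real.exp (-|k| * (x - z)) * ‖f x‖) volume z H := by
      have h1 := (ii_Z2 f hz H_memI).norm
      exact h1.continuousOn_mul (by fun_prop)
    refine (mul_le_mul_of_nonneg_left h2 (hw.nn z hz)).trans ?_
    rw [← intervalIntegral.integral_const_mul]
    rw [intervalIntegral.integral_of_le hz.2, intervalIntegral.integral_of_le hz.2]
    have i1' : IntegrableOn (fun x => Real.exp (-|k| * (x - z)) *
        ‖(mz (rc th hw.c) f : Z2 H) x‖) (Ioc z H) volume := (intervalIntegrable_iff_integrableOn_Ioc_of_le hz.2).1 i1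
    have i2' : IntegrableOn (fun x => th z * (Real.exp (-|k| * (x - z)) * ‖f x‖)) (Ioc z H) volume :=
      ((intervalIntegrable_iff_integrableOn_Ioc_of_le hz.2).1 i2).const_mul _
    refine integral_mono_ae i2' i1' ?_
    have hae : ∀ᵐ x ∂(volume.restrict (Ioc z H)), ‖(mz (rc th hw.c) f : Z2 H) x‖ = th x * ‖f x‖ :=
      ae_restrict_of_ae_restrict_of_subset hsub hfth
    filter_upwards [hae, ae_restrict_mem measurableSet_Ioc] with x h3 h4
    have hx : x ∈ Icc (0:ℝ) H := ⟨hz.1.trans h4.1.le, h4.2⟩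
    rw [h3]
    have h5 := hw.mono z hz x hx h4.1.le
    calc th z * (Real.exp (-|k| * (x - z)) * ‖f x‖) ≤ th x * (Real.exp (-|k| * (x - z)) * ‖f x‖) := by
          gcongr
      _ = _ := by ring
  have h1 : ‖mz (rc th hw.c) (T2 k f)‖ ≤ ‖T2 k g‖ := by
    apply Lp.norm_le_norm_of_ae_le
    filter_upwards [coe_mz (rc th hw.c) (T2 k f), coe_iota (Tz k f), coe_iota (Tz k g),
      ae_restrict_mem measurableSet_Ioc] with z h1 h2 h3 h4
    have e1 : (T2 k f : Z2 H) z = ex (Tz k f) z := h2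
    have e2 : (T2 k g : Z2 H) z = ex (Tz k g) z := h3
    rw [h1, e1, e2]
    exact key z ⟨h4.1.le, h4.2⟩
  calc |k| * ‖mz (rc th hw.c) (T2 k f)‖ ≤ |k| * ‖T2 k g‖ := by gcongr
    _ ≤ ‖g‖ := norm_kT2_le k g
    _ = _ := hgn

theorem l2_norm_mono {x y : HH H} (h : ∀ n, ‖x n‖ ≤ ‖y n‖) : ‖x‖ ≤ ‖y‖ := by
  refine l2_norm_le (norm_nonneg _) fun S => ?_
  refine (Finset.sum_le_sum fun n _ => pow_le_pow_left₀ (norm_nonneg _) (h n) 2).trans (l2_sum_le y S)

/-- **Weights.** -/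
theorem RnT_wgt {th : ℝ → ℝ} (hw : Wgt H th) (n : ℕ) (x : HH H) :
    ‖Ms (rc th hw.c) (RnT n x)‖ ≤ ‖Ms (rc th hw.c) x‖ := by
  refine l2_norm_mono fun k => ?_
  rw [Ms_apply, Ms_apply, RnT_apply, map_smul, norm_smul, Complex.norm_real, Real.norm_eq_abs]
  exact wT2_le hw _ _

/-- Strong convergence: on the range of `T`: `n T_n F = F + T_n F'`. -/
theorem RnT_TT (n : ℕ) (ω : ℝ) (y : HH H) (k : ℤ) :
    RnT n (TT ω y) k - TT ω y k = T2 (n : ℝ) (Xz ω y k) := by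
  rw [RnT_apply, TT_apply, Xz_apply]
  obtain ⟨F, hF⟩ : ∃ F : CI H, F = Tz (ω * k) (y k) := ⟨_, rfl⟩
  have h1 : DZ F (((|ω * k| : ℝ) : ℂ) • iota F - y k) := by rw [hF]; exact Tz_dz _ _
  have h2 : ex F H = 0 := by rw [hF]; exact Tz_H _ _
  have h3 : T2 (ω * k) (y k) = (iota F : Z2 H) := by rw [hF]; rfl
  rw [h3]
  have h4 : F = Tz (n : ℝ) (((|(n : ℝ)| : ℝ) : ℂ) • iota F - (((|ω * k| : ℝ) : ℂ) • iota F - y k)) := by
    refine Tz_unique ?_ h2
    have e : ((|(n : ℝ)| : ℝ) : ℂ) • (iota F : Z2 H) - (((|(n : ℝ)| : ℝ) : ℂ) • iota F -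
        (((|ω * k| : ℝ) : ℂ) • iota F - y k)) = ((|ω * k| : ℝ) : ℂ) • iota F - y k := by abel
    rw [e]
    exact h1
  have h5 : (iota F : Z2 H) = T2 (n : ℝ) (((|(n : ℝ)| : ℝ) : ℂ) • iota F -
      (((|ω * k| : ℝ) : ℂ) • iota F - y k)) := congrArg iota h4
  have hn : |(n : ℝ)| = n := abs_of_nonneg (Nat.cast_nonneg n)
  rw [map_sub, map_smul, hn] at h5
  have h6 : ∀ a b c : Z2 H, a = b - c → b - a = c := fun a b c h => by rw [h]; abel
  exact h6 _ _ _ h5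

theorem TT_dense (ω : ℝ) : DenseRange (TT ω : HH H →L[ℂ] HH H) := by
  have h4 : (TT ω : HH H →L[ℂ] HH H).rangeᗮ = ⊥ := by
    rw [eq_bot_iff]
    intro v hv
    rw [Submodule.mem_bot]
    refine EE_injective ω v (ext_inner_left ℂ fun y => ?_)
    rw [← inner_TT, inner_zero_right]
    exact (Submodule.mem_orthogonal _ _).1 hv _ ⟨y, rfl⟩
  have h5 := Submodule.topologicalClosure_eq_top_iff.2 h4
  intro x
  have h6 : x ∈ (TT ω : HH H →L[ℂ] HH H).range.topologicalClosure := by rw [h5]; trivial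
  exact h6

/-- Equibounded operators converge strongly if they do on a dense set. -/
theorem strong_of_dense {X Y : Type} [NormedAddCommGroup X] [NormedSpace ℂ X] {T : ℕ → X →L[ℂ] X} {M : ℝ}
    (hM : ∀ n, ‖T n‖ ≤ M) {e : Y → X} (he : DenseRange e)
    (h : ∀ y, Tendsto (fun n => T n (e y)) atTop (𝓝 (e y))) (x : X) :
    Tendsto (fun n => T n x) atTop (𝓝 x) := by
  have hM0 : 0 ≤ M := (norm_nonneg _).trans (hM 0)
  rw [Metric.tendsto_atTop]
  intro ε hε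
  obtain ⟨y, hy⟩ := he.exists_dist_lt x (show 0 < ε / (2 * (M + 1)) by positivity)
  rw [dist_eq_norm] at hy
  obtain ⟨N, hN⟩ := Metric.tendsto_atTop.1 (h y) (ε / 2) (half_pos hε)
  refine ⟨N, fun n hn => ?_⟩
  have h2 := hN n hn
  rw [dist_eq_norm] at h2 ⊢
  have e1 : T n x - x = T n (x - e y) + (T n (e y) - e y) - (x - e y) := by
    rw [map_sub]; abel
  have h3 : ‖T n (x - e y)‖ ≤ M * (ε / (2 * (M + 1))) :=
    ((T n).le_opNorm _).trans (mul_le_mul (hM n) hy.le (norm_nonneg _) hM0)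
  have h4 : M * (ε / (2 * (M + 1))) + ε / (2 * (M + 1)) = ε / 2 := by field_simp
  calc ‖T n x - x‖ ≤ ‖T n (x - e y) + (T n (e y) - e y)‖ + ‖x - e y‖ := by rw [e1]; exact norm_sub_le _ _
    _ ≤ ‖T n (x - e y)‖ + ‖T n (e y) - e y‖ + ‖x - e y‖ := by
        gcongr; exact norm_add_le _ _
    _ < ε := by linarith

/-- **Strong convergence.** -/
theorem RnT_tendsto (x : HH H) : Tendsto (fun n => RnT n x) atTop (𝓝 x) := by
  refine strong_of_dense (fun n => norm_RnT_le n) (TT_dense (0:ℝ)) (fun y => ?_) x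
  rw [tendsto_iff_norm_sub_tendsto_zero]
  have h1 : ∀ n : ℕ, (n : ℝ) * ‖RnT n (TT 0 y) - TT 0 y‖ ≤ ‖Xz 0 y‖ := by
    intro n
    have e : (n : ℝ) * ‖RnT n (TT 0 y) - TT 0 y‖ = ‖((n : ℝ) : ℂ) • (RnT n (TT 0 y) - TT 0 y)‖ := by
      rw [norm_smul, Complex.norm_real, Real.norm_of_nonneg (Nat.cast_nonneg n)]
    rw [e]
    refine l2_norm_mono fun k => ?_
    rw [lp.coeFn_smul, Pi.smul_apply, lp.coeFn_sub, Pi.sub_apply, RnT_TT, norm_smul, Complex.norm_real,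
      Real.norm_eq_abs]
    exact norm_kT2_le _ _
  have h2 : Tendsto (fun n : ℕ => ‖Xz 0 y‖ / (n : ℝ)) atTop (𝓝 0) :=
    tendsto_const_nhds.div_atTop tendsto_natCast_atTop_atTop
  refine squeeze_zero' (Eventually.of_forall fun _ => norm_nonneg _) ?_ h2
  filter_upwards [eventually_gt_atTop 0] with n hn
  have hn' : (0:ℝ) < n := Nat.cast_pos.2 hn
  rw [le_div_iff₀ hn', mul_comm]
  exact h1 n

/-- **Integration by parts.** -/
theorem RnT_ibp {η1 η2 : CI H} (h : IsD η1 η2) (h0 : ex η1 0 = 0) (h1 : ex η1 H = 0) (ω : ℝ) (n : ℕ)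
    (f x : HH H) : ⟪Yz ω f, Ms η1 (RnT n x)⟫_ℂ =
      -⟪EE ω f, Ms η2 (RnT n x) + Ms η1 (((n : ℝ) : ℂ) • (RnT n x - x))⟫_ℂ := by
  rw [inner_dp, inner_dp]
  unfold dp
  rw [← tsum_neg]
  refine tsum_congr fun k => ?_
  have e1 : (Yz ω f) k = f k - ((|ω * k| : ℝ) : ℂ) • iota (Ez (ω * k) (f k)) := Yz_apply ω f k
  have e2 : (EE ω f) k = iota (Ez (ω * k) (f k)) := EE_apply ω f k
  have hn : |(n : ℝ)| = n := abs_of_nonneg (Nat.cast_nonneg n)
  obtain ⟨F, hF⟩ : ∃ F : CI H, F = ((n : ℝ) : ℂ) • Tz (n : ℝ) (x k) := ⟨_, rfl⟩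
  have hFi : (iota F : Z2 H) = RnT n x k := by rw [hF, RnT_apply, map_smul]; rfl
  have hFd : DZ F (((n : ℝ) : ℂ) • (iota F - x k)) := by
    have h2 := (Tz_dz (n : ℝ) (x k)).smul ((n : ℝ) : ℂ)
    rw [hn] at h2
    rw [hF, map_smul]
    exact h2
  have h3 := (IsD.dz h).mul hFd
  have h4 := (Ez_dz (ω * k) (f k)).ibp h3
  rw [ex_mul, ex_mul, h0, h1, zero_mul, mul_zero, zero_mul, mul_zero, sub_zero] at h4
  have e3 : (iota (η1 * F) : Z2 H) = (Ms η1 (RnT n x)) k := by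
    rw [Ms_apply, ← hFi, mz_iota]
  have e4 : mz F (iota η2 : Z2 H) = mz η2 (iota F) := by rw [mz_iota, mz_iota, mul_comm]
  have e5 : (Ms η2 (RnT n x) + Ms η1 (((n : ℝ) : ℂ) • (RnT n x - x))) k =
      mz F (iota η2 : Z2 H) + mz η1 (((n : ℝ) : ℂ) • (iota F - x k)) := by
    rw [lp.coeFn_add, Pi.add_apply, Ms_apply, Ms_apply, lp.coeFn_smul, Pi.smul_apply, lp.coeFn_sub,
      Pi.sub_apply, e4, hFi]
  rw [e1, e2, ← e3, e5]
  exact eq_neg_of_add_eq_zero_right h4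

/-! ### Truncation of the modes -/

/-- `1` for `|k| ≤ n` -/
noncomputable def trw (n : ℕ) (k : ℤ) : ℝ := if |k| ≤ (n : ℤ) then 1 else 0

theorem abs_trw_le (n : ℕ) (k : ℤ) : |trw n k| ≤ 1 := by
  unfold trw; split_ifs <;> simp

noncomputable def Tr (n : ℕ) : HH H →L[ℂ] HH H := wd (trw n)

theorem Tr_apply (n : ℕ) (x : HH H) (k : ℤ) : Tr n x k = ((trw n k : ℝ) : ℂ) • x k :=
  wd_apply (abs_trw_le n) x k

theorem norm_Tr_le (n : ℕ) : ‖(Tr n : HH H →L[ℂ] HH H)‖ ≤ 1 := norm_wd_le (abs_trw_le n)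

theorem Ms_Tr (m : CI H) (n : ℕ) (x : HH H) : Ms m (Tr n x) = Tr n (Ms m x) := by
  refine lp.ext (funext fun k => ?_)
  rw [Ms_apply, Tr_apply, Tr_apply, Ms_apply, map_smul]

theorem Tr_wgt (m : CI H) (n : ℕ) (x : HH H) : ‖Ms m (Tr n x)‖ ≤ ‖Ms m x‖ := by
  rw [Ms_Tr]
  refine ((Tr n).le_opNorm _).trans ?_
  exact (mul_le_mul_of_nonneg_right (norm_Tr_le n) (norm_nonneg _)).trans (by rw [one_mul])

theorem cj_Tr (n : ℕ) (x : HH H) : cjX (Tr n x) = Tr n (cjX x) :=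
  cjX_dg (fun k => norm_wd_fam (abs_trw_le n) k) (fun k f => by
    have e : trw n (-k) = trw n k := by unfold trw; rw [abs_neg]
    show cz (((trw n (-k) : ℝ) : ℂ) • f) = ((trw n k : ℝ) : ℂ) • cz f
    rw [e, cz_smul, Complex.star_def, Complex.conj_ofReal]) x

theorem Tr_tendsto (x : HH H) : Tendsto (fun n => Tr n x) atTop (𝓝 x) := by
  rw [tendsto_iff_norm_sub_tendsto_zero]
  have h1 : ∀ n : ℕ, ‖Tr n x - x‖ ^ 2 = ∑' k : ℤ, ‖((trw n k - 1 : ℝ) : ℂ) • x k‖ ^ 2 := by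
    intro n
    rw [l2_norm_sq]
    refine tsum_congr fun k => ?_
    rw [lp.coeFn_sub, Pi.sub_apply, Tr_apply]
    congr 2
    push_cast
    rw [sub_smul, one_smul]
  have h2 : Tendsto (fun n : ℕ => ‖Tr n x - x‖ ^ 2) atTop (𝓝 (∑' _ : ℤ, (0:ℝ))) := by
    simp only [h1]
    refine tendsto_tsum_of_dominated_convergence (bound := fun k => ‖x k‖ ^ 2) (l2_summable x) (fun k => ?_)
      (Eventually.of_forall fun n k => ?_)
    · refine tendsto_const_nhds.congr' ?_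
      filter_upwards [eventually_ge_atTop k.natAbs] with n hn
      have e : trw n k = 1 := by
        unfold trw
        rw [if_pos]
        rw [Int.abs_eq_natAbs]
        exact_mod_cast hn
      rw [e, sub_self, Complex.ofReal_zero, zero_smul, norm_zero, zero_pow two_ne_zero]
    · rw [Real.norm_of_nonneg (by positivity), norm_smul, Complex.norm_real, mul_pow]
      have e : ‖trw n k - 1‖ ≤ 1 := by
        unfold trw; split_ifs <;> simp
      have e2 : ‖trw n k - 1‖ ^ 2 ≤ 1 := by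
        have := norm_nonneg (trw n k - 1)
        nlinarith
      exact mul_le_of_le_one_left (by positivity) e2
  rw [tsum_zero] at h2
  have h3 := (Real.continuous_sqrt.tendsto 0).comp h2
  rw [Real.sqrt_zero] at h3
  refine h3.congr fun n => ?_
  exact Real.sqrt_sq (norm_nonneg _)

end

end Pool.Agent.Lib.MP_79abb3_an.SC
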