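import Pool.Agent.Lib.MP_79abb3_an.P25.FieldAt
import Pool.Agent.Lib.MP_79abb3_an.PD.FeG1
import Pool.Agent.Lib.MP_79abb3_an.PD.FeX2
import Pool.Agent.Lib.MP_79abb3_an.PD.FeR3a
import Pool.Agent.Lib.MP_79abb3_an.SC.ExRb

/-!
Theorem D, block F: the source functional as an element of `SV D`; truncated products.
-/

set_option autoImplicit false
set_option linter.unusedSectionVars false

open MeasureTheory Set Filter Topology Function
open scoped ENNReal InnerProductSpace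

namespace Pool.Agent.Lib.MP_79abb3_an.SC

open Pool.Agent.Lib.MP_79abb3_an.P25 Pool.Agent.Lib.MP_79abb3_an.FW

section
variable {H : ℝ} [hH : Fact (0 < H)]

namespace Geo
variable (G : Geo H)

theorem pw2 : PrW G.lam (1 / 4) (1 / 2) 0 := G.prW (by norm_num) (by norm_num) le_rfl (by norm_num)

/-- the weights `1_{|k| ≤ n} lam^{1/4}` -/
noncomputable def trl (n : ℕ) (k : ℤ) : ℝ := trw n k * G.lam k ^ (1 / 4 : ℝ)

theorem abs_trl_le (n : ℕ) (k : ℤ) : |G.trl n k| ≤ G.N₀ + G.ω * n := by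
  have hω := G.ω_pos.le
  have hN := G.hN
  have h0 : 0 ≤ G.N₀ + G.ω * n := by positivity
  unfold trl trw
  split_ifs with h
  · rw [one_mul, abs_of_nonneg (Real.rpow_nonneg (G.lw.pos k).le _)]
    have h1 : G.lam k ^ (1 / 4 : ℝ) ≤ G.lam k ^ (1 : ℝ) :=
      Real.rpow_le_rpow_of_exponent_le (G.lw.h1 k) (by norm_num)
    rw [Real.rpow_one] at h1
    refine h1.trans ?_
    unfold Geo.lam
    have h2 : |(k:ℝ)| ≤ n := by exact_mod_cast h
    rw [abs_mul, abs_of_nonneg hω]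
    gcongr
  · rw [zero_mul, abs_zero]; exact h0

/-- The product of the truncation of `x` with `Λ^{-1/2} v`, as an element of `HH`. -/
noncomputable def PQ (n : ℕ) : HH H →L[ℂ] l2 (CI H) →L[ℂ] HH H :=
  (pr (mz : CI H →L[ℂ] Z2 H →L[ℂ] Z2 H).flip G.pw2).comp (wd (G.trl n))

theorem PQ_apply (n : ℕ) (x : HH H) (v : l2 (CI H)) (k : ℤ) :
    G.PQ n x v k = pz (⇑(Tr n x)) (hf G.lam v) k := by
  show prF G.lam (1 / 4) (1 / 2) 0 (fun e f => mz f e) (⇑(wd (G.trl n) x)) (⇑v) k = _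
  have e : SC.uw G.lam (1 / 4) (⇑(wd (G.trl n) x)) = ⇑(Tr n x) := by
    funext j
    unfold SC.uw
    rw [wd_apply (G.abs_trl_le n), Tr_apply, smul_smul]
    congr 1
    unfold trl
    have h1 : G.lam j ^ (-(1 / 4 : ℝ)) * G.lam j ^ (1 / 4 : ℝ) = 1 := by
      rw [← Real.rpow_add (G.lw.pos j)]; simp
    rw [← Complex.ofReal_mul]
    congr 1
    calc G.lam j ^ (-(1 / 4 : ℝ)) * (trw n j * G.lam j ^ (1 / 4 : ℝ)) =
        trw n j * (G.lam j ^ (-(1 / 4 : ℝ)) * G.lam j ^ (1 / 4 : ℝ)) := by ring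
      _ = _ := by rw [h1, mul_one]
  unfold prF
  rw [e]
  have e0 : ∀ y : ℤ → Z2 H, SC.uw G.lam 0 y = y := fun y => by
    funext j
    unfold SC.uw
    rw [neg_zero, Real.rpow_zero, Complex.ofReal_one, one_smul]
  rw [e0]
  rfl

theorem dp_PQ (n : ℕ) (f x : HH H) (v : l2 (CI H)) :
    dp (⇑f) (pz (⇑(Tr n x)) (hf G.lam v)) = ⟪f, G.PQ n x v⟫_ℂ := by
  rw [inner_dp]
  exact tsum_congr fun k => by rw [PQ_apply]

theorem cj_PQ (n : ℕ) (x : HH H) (v : l2 (CI H)) :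
    cjX (G.PQ n x v) = G.PQ n (cjX x) (cjC v) := by
  refine lp.ext (funext fun k => ?_)
  have hs : ∀ n', Summable fun j => ‖mz (hf G.lam v (n' - j)) (Tr n x j)‖ := by
    obtain ⟨c1, -, -⟩ := cvm_bd zero_le_one mz_bd G.pw.h1 G.pw.ha G.pw.hb G.pw.hc G.pw.hs
      (S2_l2 G.lam (Tr n x)) (S2_hf G.lw.h1 v).1
    exact c1
  rw [cjX_apply, PQ_apply, PQ_apply, ← cj_Tr, pz_cj (Tr n x) (hf_cj G.lw.neg v) hs]

/-- The transport part of the source as an inner product: `η E f = T (Bz f)`. -/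
theorem dp_Bz {η1 η2 : CI H} (h : IsD η1 η2) (h1 : ex η1 H = 0) (f x g : HH H) :
    dp (⇑(Ms η1 (EE G.ω f))) (pz (⇑x) (wV G.ω (Vf G.ω (⇑g)))) =
      ⟪LT G.ω G.lam (1 / 4) (SC.Bz G.ω η1 η2 f), prd G.pw x (UW G.ω G.lam g)⟫_ℂ := by
  rw [inner_LT_prd G.lamOK, TT_Bz G.ω h h1, show hf G.lam (UW G.ω G.lam g) = wV G.ω (Vf G.ω g) by
    funext n; exact G.hf_UW g n]

end Geo

end

end Pool.Agent.Lib.MP_79abb3_an.SC

namespace Pool.Agent.Lib.MP_79abb3_an.PD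

open Pool.Agent.Lib.MP_79abb3_an.SC Pool.Agent.Lib.MP_79abb3_an.P25

theorem inner_svG {E K : Type} [NormedAddCommGroup E] [InnerProductSpace ℂ E] [CompleteSpace E]
    [NormedAddCommGroup K] [InnerProductSpace ℂ K] [CompleteSpace K] (A1 A2 A3 A4 : E →L[ℂ] K) (q : E)
    (y1 y2 y3 y4 : K) : ⟪q, ContinuousLinearMap.adjoint A1 y1 - ((2 : ℂ) • ContinuousLinearMap.adjoint A2 y2 +
      ContinuousLinearMap.adjoint A3 y3 + ContinuousLinearMap.adjoint A4 y4)⟫_ℂ =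
      ⟪A1 q, y1⟫_ℂ - (2 * ⟪A2 q, y2⟫_ℂ + ⟪A3 q, y3⟫_ℂ + ⟪A4 q, y4⟫_ℂ) := by
  rw [inner_sub_right, inner_add_right, inner_add_right, inner_smul_right, ContinuousLinearMap.adjoint_inner_right,
    ContinuousLinearMap.adjoint_inner_right, ContinuousLinearMap.adjoint_inner_right,
    ContinuousLinearMap.adjoint_inner_right]

namespace FD
variable {D : Set ℂ} (F : FD D)

theorem isD_ctC (a b : ℝ) : IsD (ctC a b) (ctC1 a b) := rc_isD (ctf_smooth _ _)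

theorem isD_ctC1 (a b : ℝ) : IsD (ctC1 a b) (ctC2 a b) := rc_isD (ctf_smooth1 _ _)

/-- `η'` vanishes at both ends (`ctf (4u) (8u)` is constant for `z ≤ 4u` and for `z ≥ 8u`) -/
theorem e1_ends : ex (ctC1 (4 * F.u) (8 * F.u)) 0 = 0 ∧ ex (ctC1 (4 * F.u) (8 * F.u)) Real.pi = 0 := by
  have hu := F.u0
  have hπ := F.uπ
  have h48 : 4 * F.u < 8 * F.u := by linarith
  constructor
  · unfold ctC1
    rw [FW.ex_rc _ _ ⟨le_rfl, Real.pi_pos.le⟩]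
    have h1 : ctf (4 * F.u) (8 * F.u) =ᶠ[𝓝 0] fun _ => (1:ℝ) := by
      filter_upwards [Iio_mem_nhds (show (0:ℝ) < 4 * F.u by linarith)] with z hz
      exact ctf_one h48 (le_of_lt hz)
    rw [h1.deriv_eq, deriv_const, Complex.ofReal_zero]
  · unfold ctC1
    rw [FW.ex_rc _ _ ⟨Real.pi_pos.le, le_rfl⟩]
    have h1 : ctf (4 * F.u) (8 * F.u) =ᶠ[𝓝 Real.pi] fun _ => (0:ℝ) := by
      filter_upwards [Ioi_mem_nhds (show 8 * F.u < Real.pi by linarith)] with z hz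
      exact ctf_zero h48 (le_of_lt hz)
    rw [h1.deriv_eq, deriv_const, Complex.ofReal_zero]

theorem e_real : star (ctC1 (4 * F.u) (8 * F.u)) = ctC1 (4 * F.u) (8 * F.u) ∧
    star (ctC2 (4 * F.u) (8 * F.u)) = ctC2 (4 * F.u) (8 * F.u) :=
  ⟨SC.star_rc _ _, SC.star_rc _ _⟩

/-- `κ` is differentiable in `z`; its derivative depends continuously on the amplitude. -/
theorem exists_kp1 (m : ℕ) (j : Fin F.n) : ∃ k1 : ℝ → CI Real.pi, (∀ a, IsD (F.kp m j a) (k1 a)) ∧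
    Continuous k1 ∧ ∀ a, star (k1 a) = k1 a := by
  have hs : ContDiff ℝ ((⊤ : ℕ∞) : WithTop ℕ∞) ((F.G j).kF ((F.G j).ω * F.N m j) (F.k j * 1)) := by
    unfold Geo.kF chF
    fun_prop
  have hs1 : ContDiff ℝ ((⊤ : ℕ∞) : WithTop ℕ∞) (deriv ((F.G j).kF ((F.G j).ω * F.N m j) (F.k j * 1))) :=
    (contDiff_infty_iff_deriv.1 hs).2
  have h1 : ∀ a : ℝ, F.kp m j a = ((a ^ 2 : ℝ) : ℂ) • F.kp m j 1 := by
    intro a
    refine ci_ext fun z hz => ?_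
    rw [ex_smul]
    unfold kp
    rw [FW.ex_rc _ _ hz, FW.ex_rc _ _ hz, ← Complex.ofReal_mul]
    congr 1
    unfold Geo.kF chF
    ring
  have h2 : IsD (F.kp m j 1) (Pool.Agent.Lib.MP_79abb3_an.FW.rc
      (deriv ((F.G j).kF ((F.G j).ω * F.N m j) (F.k j * 1))) hs1.continuous) := rc_isD hs
  refine ⟨fun a => ((a ^ 2 : ℝ) : ℂ) • Pool.Agent.Lib.MP_79abb3_an.FW.rc
      (deriv ((F.G j).kF ((F.G j).ω * F.N m j) (F.k j * 1))) hs1.continuous, fun a => ?_, ?_, fun a => ?_⟩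
  · rw [h1 a]
    exact h2.fa_csmul _
  · exact (Complex.continuous_ofReal.comp (continuous_id.pow 2)).smul continuous_const
  · rw [star_smul, SC.star_rc, Complex.star_def, Complex.conj_ofReal]

noncomputable def kp1 (m : ℕ) (j : Fin F.n) : ℝ → CI Real.pi := (F.exists_kp1 m j).choose
theorem kp1_d (m : ℕ) (j : Fin F.n) (a : ℝ) : IsD (F.kp m j a) (F.kp1 m j a) := (F.exists_kp1 m j).choose_spec.1 a
theorem kp1_c (m : ℕ) (j : Fin F.n) : Continuous (F.kp1 m j) := (F.exists_kp1 m j).choose_spec.2.1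
theorem kp1_r (m : ℕ) (j : Fin F.n) (a : ℝ) : star (F.kp1 m j a) = F.kp1 m j a :=
  (F.exists_kp1 m j).choose_spec.2.2 a

/-! ### The source as an element of `SV D` -/

/-- `La` on `SV D` -/
noncomputable def Ls (j : Fin F.n) : SV D →L[ℂ] HP := (F.La j).comp (sx D)

/-- The source functional: `⟪q, sv⟫ = src q`. -/
noncomputable def sv (m : ℕ) (j : Fin F.n) (a : ℝ) (v : VD D) (g q1 q2 : HP) : SV D :=
  ContinuousLinearMap.adjoint ((F.Le j).comp (sx D)) (Ms (F.kp m j a) (SC.TT (F.G j).ω g)) -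
    ((2 : ℂ) • ContinuousLinearMap.adjoint ((Yz (F.G j).ω).comp (F.Ls j)) (Ms (ctC1 (4 * F.u) (8 * F.u)) q1) +
      ContinuousLinearMap.adjoint ((SC.EE (F.G j).ω).comp (F.Ls j))
        (Ms (ctC2 (4 * F.u) (8 * F.u)) (SC.cm (F.G j).a g)) +
      ContinuousLinearMap.adjoint ((LT (F.G j).ω (F.G j).lam (1 / 4)).comp
        ((SC.Bz (F.G j).ω (ctC1 (4 * F.u) (8 * F.u)) (ctC2 (4 * F.u) (8 * F.u))).comp (F.Ls j)))
        (prd (F.G j).pw q2 (UW (F.G j).ω (F.G j).lam (F.Ga j v))))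

theorem inner_sv (m : ℕ) (j : Fin F.n) (a : ℝ) (v : VD D) (g q1 q2 : HP) (q : SV D) :
    ⟪q, F.sv m j a v g q1 q2⟫_ℂ = F.src m j a v g q1 q2 q := by
  unfold sv src
  rw [inner_svG]
  congr 1
  congr 1
  exact ((F.G j).dp_Bz (isD_ctC1 _ _) F.e1_ends.2 (F.La j (sx D q)) q2 (F.Ga j v)).symm

/-- `sv` is continuous along continuous data. -/
theorem sv_cont (m : ℕ) (j : Fin F.n) {A : ℝ → ℝ} {v : ℝ → VD D} {g q1 q2 : ℝ → HP} {s : Set ℝ}
    (hA : ContinuousOn A s) (hv : ContinuousOn v s) (hg : ContinuousOn g s) (h1 : ContinuousOn q1 s)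
    (h2 : ContinuousOn q2 s) : ContinuousOn (fun t => F.sv m j (A t) (v t) (g t) (q1 t) (q2 t)) s := by
  have a1 : ContinuousOn (fun t => Ms (F.kp m j (A t)) (SC.TT (F.G j).ω (g t))) s :=
    ((MsB Real.pi).continuous.comp_continuousOn ((F.kp_cont m j).comp_continuousOn hA)).clm_apply
      ((SC.TT (F.G j).ω).continuous.comp_continuousOn hg)
  have a2 : ContinuousOn (fun t => Ms (ctC1 (4 * F.u) (8 * F.u)) (q1 t)) s :=
    (Ms (ctC1 (4 * F.u) (8 * F.u))).continuous.comp_continuousOn h1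
  have a3 : ContinuousOn (fun t => Ms (ctC2 (4 * F.u) (8 * F.u)) (SC.cm (F.G j).a (g t))) s :=
    (Ms (ctC2 (4 * F.u) (8 * F.u))).continuous.comp_continuousOn ((SC.cm (F.G j).a).continuous.comp_continuousOn hg)
  have a4 : ContinuousOn (fun t => prd (F.G j).pw (q2 t) (UW (F.G j).ω (F.G j).lam (F.Ga j (v t)))) s :=
    ((prd (F.G j).pw).continuous.comp_continuousOn h2).clm_apply
      ((UW (F.G j).ω (F.G j).lam).continuous.comp_continuousOn ((F.Ga j).continuous.comp_continuousOn hv))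
  have c2 : ContinuousOn (fun t => (2 : ℂ) • ContinuousLinearMap.adjoint ((Yz (F.G j).ω).comp (F.Ls j))
      (Ms (ctC1 (4 * F.u) (8 * F.u)) (q1 t))) s :=
    ((ContinuousLinearMap.continuous _).comp_continuousOn a2).const_smul (2 : ℂ)
  unfold sv
  refine ContinuousOn.sub ((ContinuousLinearMap.continuous _).comp_continuousOn a1) ?_
  refine ContinuousOn.add (ContinuousOn.add c2 ?_) ?_
  · exact (ContinuousLinearMap.continuous _).comp_continuousOn a3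
  · exact (ContinuousLinearMap.continuous _).comp_continuousOn a4

/-- Difference of two sources which differ only in `q1`, `q2`. -/
theorem sv_diff (j : Fin F.n) : ∃ C, 0 ≤ C ∧ ∀ (m : ℕ) (a : ℝ) (v : VD D) (g q1 q2 q1' q2' : HP),
    ‖F.sv m j a v g q1 q2 - F.sv m j a v g q1' q2'‖ ≤ C * (‖q1 - q1'‖ + ‖v‖ * ‖q2 - q2'‖) := by
  obtain ⟨L1, hL1⟩ : ∃ L1 : HP →L[ℂ] SV D, L1 =
      (ContinuousLinearMap.adjoint ((Yz (F.G j).ω).comp (F.Ls j))).comp (Ms (ctC1 (4 * F.u) (8 * F.u))) := ⟨_, rfl⟩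
  obtain ⟨L2, hL2⟩ : ∃ L2 : HP →L[ℂ] SV D, L2 =
      ContinuousLinearMap.adjoint ((LT (F.G j).ω (F.G j).lam (1 / 4)).comp
        ((SC.Bz (F.G j).ω (ctC1 (4 * F.u) (8 * F.u)) (ctC2 (4 * F.u) (8 * F.u))).comp (F.Ls j))) := ⟨_, rfl⟩
  obtain ⟨P, hP⟩ : ∃ P : HP →L[ℂ] l2 (CI Real.pi) →L[ℂ] HP, P = prd (F.G j).pw := ⟨_, rfl⟩
  obtain ⟨c, hc0, hc⟩ : ∃ c : ℝ, 0 ≤ c ∧ ∀ x w, ‖P x w‖ ≤ c * (‖x‖ * ‖w‖) := by
    refine ⟨CP (F.G j).lam (0 + 1 / 2 + 1 / 4), CP_nonneg _, fun x w => ?_⟩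
    rw [hP, ← mul_assoc]
    exact Geo.prd_le (F.G j).pw x w
  obtain ⟨U, hU⟩ : ∃ U : VD D →L[ℂ] l2 (CI Real.pi), U = (UW (F.G j).ω (F.G j).lam).comp (F.Ga j) := ⟨_, rfl⟩
  refine ⟨2 * ‖L1‖ + ‖L2‖ * c * ‖U‖, by positivity, fun m a v g q1 q2 q1' q2' => ?_⟩
  have e : F.sv m j a v g q1 q2 - F.sv m j a v g q1' q2' =
      -((2 : ℂ) • L1 (q1 - q1') + L2 (P (q2 - q2') (U v))) := by
    rw [map_sub, map_sub P, sub_apply, map_sub L2, hL1, hL2, hP, hU]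
    unfold sv
    show (_ : SV D) = -((2 : ℂ) • (ContinuousLinearMap.adjoint ((Yz (F.G j).ω).comp (F.Ls j))
        (Ms (ctC1 (4 * F.u) (8 * F.u)) q1) - ContinuousLinearMap.adjoint ((Yz (F.G j).ω).comp (F.Ls j))
        (Ms (ctC1 (4 * F.u) (8 * F.u)) q1')) + (_ - _))
    rw [smul_sub]
    simp only [ContinuousLinearMap.comp_apply]
    abel
  rw [e, norm_neg]
  have h1 : ‖(2 : ℂ) • L1 (q1 - q1')‖ ≤ 2 * ‖L1‖ * ‖q1 - q1'‖ := by
    rw [norm_smul, Complex.norm_ofNat, mul_assoc]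
    gcongr
    exact L1.le_opNorm _
  have h2 : ‖L2 (P (q2 - q2') (U v))‖ ≤ ‖L2‖ * (c * (‖q2 - q2'‖ * (‖U‖ * ‖v‖))) := by
    refine (L2.le_opNorm _).trans ?_
    gcongr
    refine (hc _ _).trans ?_
    gcongr
    exact U.le_opNorm _
  have h3 : 0 ≤ ‖q1 - q1'‖ := norm_nonneg _
  have h4 : 0 ≤ ‖v‖ * ‖q2 - q2'‖ := by positivity
  calc ‖(2 : ℂ) • L1 (q1 - q1') + L2 (P (q2 - q2') (U v))‖
      ≤ 2 * ‖L1‖ * ‖q1 - q1'‖ + ‖L2‖ * (c * (‖q2 - q2'‖ * (‖U‖ * ‖v‖))) :=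
        (norm_add_le _ _).trans (add_le_add h1 h2)
    _ = 2 * ‖L1‖ * ‖q1 - q1'‖ + ‖L2‖ * c * ‖U‖ * (‖v‖ * ‖q2 - q2'‖) := by ring
    _ ≤ 2 * ‖L1‖ * ‖q1 - q1'‖ + ‖L2‖ * c * ‖U‖ * (‖v‖ * ‖q2 - q2'‖) +
        (2 * ‖L1‖ * (‖v‖ * ‖q2 - q2'‖) + ‖L2‖ * c * ‖U‖ * ‖q1 - q1'‖) := by
        have : 0 ≤ 2 * ‖L1‖ * (‖v‖ * ‖q2 - q2'‖) + ‖L2‖ * c * ‖U‖ * ‖q1 - q1'‖ := by positivity
        linarith
    _ = _ := by ring

/-! ### The regularised source as an `L²` functional -/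

/-- `y₁ = B(κ T g)` -/
noncomputable def y1 (m : ℕ) (j : Fin F.n) (a : ℝ) (g : HP) : HP :=
  Pool.Agent.Lib.MP_79abb3_an.SC.Bm (F.G j).ω (F.kp m j a) (F.kp1 m j a) g

/-- `y₂ = 2 (η'' R_n x + η' n (R_n x - x)) - η'' x - η' (P_n x) w`, `x = a g` -/
noncomputable def y2 (n : ℕ) (j : Fin F.n) (v : VD D) (g : HP) : HP :=
  (2 : ℂ) • (Ms (ctC2 (4 * F.u) (8 * F.u)) (RnT n (SC.cm (F.G j).a g)) +
      Ms (ctC1 (4 * F.u) (8 * F.u)) (((n : ℝ) : ℂ) • (RnT n (SC.cm (F.G j).a g) - SC.cm (F.G j).a g))) -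
    Ms (ctC2 (4 * F.u) (8 * F.u)) (SC.cm (F.G j).a g) -
    Ms (ctC1 (4 * F.u) (8 * F.u)) ((F.G j).PQ n (SC.cm (F.G j).a g) (UW (F.G j).ω (F.G j).lam (F.Ga j v)))

/-- The regularised source in one strip. -/
noncomputable def sj (n m : ℕ) (j : Fin F.n) (a : ℝ) (v : VD D) (g : HP) : L2c :=
  ContinuousLinearMap.adjoint (F.Be j) (SC.cm (F.G j).a (F.y1 m j a g)) +
    ContinuousLinearMap.adjoint (F.Bz j) (SC.cm (F.G j).a (F.y2 n j v g))

/-- `EE_La` for `(Le, Be)` and `(La, Bz)`; `TT_Bm`, `RnT_ibp`, `dp_PQ`. -/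
theorem inner_sj (n m : ℕ) (j : Fin F.n) (a : ℝ) (v : VD D) (g : HP) (q : SV D) :
    ⟪((js D q : XS D) : L2c), F.sj n m j a v g⟫_ℂ =
      F.src m j a v g (RnT n (SC.cm (F.G j).a g)) (Tr n (SC.cm (F.G j).a g)) q := by
  have hu := F.u0
  obtain ⟨x, hx⟩ : ∃ x : HP, x = SC.cm (F.G j).a g := ⟨_, rfl⟩
  obtain ⟨f, hfd⟩ : ∃ f : HP, f = F.La j (sx D q) := ⟨_, rfl⟩
  have e1 : SC.EE (F.G j).ω (F.Le j (sx D q)) = SC.cm (F.G j).a (F.Be j ((js D q : XS D) : L2c)) :=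
    F.EE_La j (by linarith) (by linarith) (by linarith) (F.hLe j) (F.hBe j) q
  have e2 : SC.EE (F.G j).ω f = SC.cm (F.G j).a (F.Bz j ((js D q : XS D) : L2c)) := by
    rw [hfd]
    exact F.EE_La j (by linarith) (by linarith) (by linarith) (F.hLa j) (F.hBz j) q
  unfold sj src
  rw [inner_add_right, ContinuousLinearMap.adjoint_inner_right, ContinuousLinearMap.adjoint_inner_right,
    ← inner_cm (F.G j).ha.c, ← inner_cm (F.G j).ha.c, ← e1, ← e2, ← Geo.inner_TT']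
  have k1 : SC.TT (F.G j).ω (F.y1 m j a g) = Ms (F.kp m j a) (SC.TT (F.G j).ω g) :=
    TT_Bm _ (F.kp1_d m j a) g
  rw [k1]
  have r1 := F.e_real.1
  have r2 := F.e_real.2
  have k2 : ⟪Yz (F.G j).ω f, Ms (ctC1 (4 * F.u) (8 * F.u)) (RnT n x)⟫_ℂ =
      -⟪SC.EE (F.G j).ω f, Ms (ctC2 (4 * F.u) (8 * F.u)) (RnT n x) +
        Ms (ctC1 (4 * F.u) (8 * F.u)) (((n : ℝ) : ℂ) • (RnT n x - x))⟫_ℂ :=
    RnT_ibp (isD_ctC1 _ _) F.e1_ends.1 F.e1_ends.2 _ n f x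
  have k3 : dp (⇑(Ms (ctC1 (4 * F.u) (8 * F.u)) (SC.EE (F.G j).ω f)))
      (pz (⇑(Tr n x)) (wV (F.G j).ω (Vf (F.G j).ω (⇑(F.Ga j v))))) =
      ⟪SC.EE (F.G j).ω f, Ms (ctC1 (4 * F.u) (8 * F.u)) ((F.G j).PQ n x (UW (F.G j).ω (F.G j).lam (F.Ga j v)))⟫_ℂ := by
    rw [show wV (F.G j).ω (Vf (F.G j).ω (⇑(F.Ga j v))) = hf (F.G j).lam (UW (F.G j).ω (F.G j).lam (F.Ga j v)) from
      (funext fun k => ((F.G j).hf_UW (F.Ga j v) k)).symm, (F.G j).dp_PQ, inner_Ms, r1]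
  rw [← hx, ← hfd, k2, k3]
  have k4 : F.y2 n j v g = (2 : ℂ) • (Ms (ctC2 (4 * F.u) (8 * F.u)) (RnT n x) +
      Ms (ctC1 (4 * F.u) (8 * F.u)) (((n : ℝ) : ℂ) • (RnT n x - x))) -
    Ms (ctC2 (4 * F.u) (8 * F.u)) x -
    Ms (ctC1 (4 * F.u) (8 * F.u)) ((F.G j).PQ n x (UW (F.G j).ω (F.G j).lam (F.Ga j v))) := by
    rw [hx]; rfl
  rw [k4, inner_sub_right, inner_sub_right, inner_smul_right]
  ring

theorem sj_cont (n m : ℕ) (j : Fin F.n) {A : ℝ → ℝ} {v : ℝ → VD D} {g : ℝ → HP} {s : Set ℝ}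
    (hA : ContinuousOn A s) (hv : ContinuousOn v s) (hg : ContinuousOn g s) :
    ContinuousOn (fun t => F.sj n m j (A t) (v t) (g t)) s := by
  have hx : ContinuousOn (fun t => SC.cm (F.G j).a (g t)) s := (SC.cm (F.G j).a).continuous.comp_continuousOn hg
  have b1 : ContinuousOn (fun t => F.y1 m j (A t) (g t)) s := by
    have c1 : ContinuousOn (fun t => Ms (F.kp m j (A t)) (g t)) s :=
      ((MsB Real.pi).continuous.comp_continuousOn ((F.kp_cont m j).comp_continuousOn hA)).clm_apply hg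
    have c2 : ContinuousOn (fun t => Ms (F.kp1 m j (A t)) (SC.TT (F.G j).ω (g t))) s :=
      ((MsB Real.pi).continuous.comp_continuousOn ((F.kp1_c m j).comp_continuousOn hA)).clm_apply
        ((SC.TT (F.G j).ω).continuous.comp_continuousOn hg)
    exact c1.sub c2
  have hW : ContinuousOn (fun t => UW (F.G j).ω (F.G j).lam (F.Ga j (v t))) s :=
    (UW (F.G j).ω (F.G j).lam).continuous.comp_continuousOn ((F.Ga j).continuous.comp_continuousOn hv)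
  have b2 : ContinuousOn (fun t => F.y2 n j (v t) (g t)) s := by
    have c1 : ContinuousOn (fun t => RnT n (SC.cm (F.G j).a (g t))) s :=
      (RnT n).continuous.comp_continuousOn hx
    have c2 : ContinuousOn (fun t => (F.G j).PQ n (SC.cm (F.G j).a (g t))
        (UW (F.G j).ω (F.G j).lam (F.Ga j (v t)))) s :=
      (((F.G j).PQ n).continuous.comp_continuousOn hx).clm_apply hW
    have c3 : ContinuousOn (fun t => Ms (ctC2 (4 * F.u) (8 * F.u)) (RnT n (SC.cm (F.G j).a (g t))) +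
        Ms (ctC1 (4 * F.u) (8 * F.u)) (((n : ℝ) : ℂ) • (RnT n (SC.cm (F.G j).a (g t)) - SC.cm (F.G j).a (g t)))) s :=
      ((Ms (ctC2 (4 * F.u) (8 * F.u))).continuous.comp_continuousOn c1).add
        ((Ms (ctC1 (4 * F.u) (8 * F.u))).continuous.comp_continuousOn ((c1.sub hx).const_smul ((n : ℝ) : ℂ)))
    have c4 : ContinuousOn (fun t => (2 : ℂ) • (Ms (ctC2 (4 * F.u) (8 * F.u)) (RnT n (SC.cm (F.G j).a (g t))) +
        Ms (ctC1 (4 * F.u) (8 * F.u)) (((n : ℝ) : ℂ) • (RnT n (SC.cm (F.G j).a (g t)) - SC.cm (F.G j).a (g t))))) s :=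
      c3.const_smul (2 : ℂ)
    unfold y2
    refine ContinuousOn.sub (ContinuousOn.sub c4 ?_) ?_
    · exact (Ms (ctC2 (4 * F.u) (8 * F.u))).continuous.comp_continuousOn hx
    · exact (Ms (ctC1 (4 * F.u) (8 * F.u))).continuous.comp_continuousOn c2
  unfold sj
  refine ContinuousOn.add ?_ ?_
  · exact (ContinuousLinearMap.continuous _).comp_continuousOn
      ((SC.cm (F.G j).a).continuous.comp_continuousOn b1)
  · exact (ContinuousLinearMap.continuous _).comp_continuousOn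
      ((SC.cm (F.G j).a).continuous.comp_continuousOn b2)

/-- the adjoint of a pull back commutes with conjugations -/
theorem cL2_adj {B : L2c →L[ℂ] HP} (hB : ∀ f, cjX (B f) = B (cL2 f)) (y : HP) :
    cL2 (ContinuousLinearMap.adjoint B y) = ContinuousLinearMap.adjoint B (cjX y) := by
  refine ext_inner_left ℂ fun f => ?_
  have h0 : cL2 (cL2 f) = f := Cnj_cL2.inv f
  have h1 : ⟪cL2 (cL2 f), cL2 (ContinuousLinearMap.adjoint B y)⟫_ℂ = ⟪ContinuousLinearMap.adjoint B y, cL2 f⟫_ℂ :=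
    Cnj_cL2.inner (cL2 f) (ContinuousLinearMap.adjoint B y)
  have h2 : ⟪cjX (B (cL2 f)), cjX y⟫_ℂ = ⟪y, B (cL2 f)⟫_ℂ := cjX_cnj.inner (B (cL2 f)) y
  have h3 : cjX (B (cL2 f)) = B f := (hB _).trans (congrArg B h0)
  have h4 := (congrArg (fun z => ⟪z, cL2 (ContinuousLinearMap.adjoint B y)⟫_ℂ) h0).symm.trans h1
  refine h4.trans ?_
  rw [ContinuousLinearMap.adjoint_inner_left, ContinuousLinearMap.adjoint_inner_right, ← h2, h3]

/-- `IsPB.real`, `IsGa.real`, `cj_*`. -/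
theorem sj_real (n m : ℕ) (j : Fin F.n) (a : ℝ) {v : VD D} (hv : cVD D v = v) {g : HP} (hg : cjX g = g) :
    cL2 (F.sj n m j a v g) = F.sj n m j a v g := by
  have hu := F.u0
  have rB : ∀ f, cjX (F.Be j f) = F.Be j (cL2 f) :=
    (F.hBe j).real (F.hX j) ⟨(F.hJ j).py, (F.hJ j).pos, fun q h1 h2 => (F.hJ j).eq q h1 (by linarith)⟩ (by linarith) (by linarith) (by linarith)
  have rZ : ∀ f, cjX (F.Bz j f) = F.Bz j (cL2 f) :=
    (F.hBz j).real (F.hX j) ⟨(F.hJ j).py, (F.hJ j).pos, fun q h1 h2 => (F.hJ j).eq q h1 (by linarith)⟩ (by linarith) (by linarith) (by linarith)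
  have hx : cjX (SC.cm (F.G j).a g) = SC.cm (F.G j).a g := by rw [cj_cm (F.G j).ha.c, hg]
  have hΓ : cjX (F.Ga j v) = F.Ga j v := by
    have h1 := (F.hGa j).real (F.hX j) F.hD.op (by linarith) (by linarith) (by linarith) v
    rwa [hv] at h1
  have hW : cjC (UW (F.G j).ω (F.G j).lam (F.Ga j v)) = UW (F.G j).ω (F.G j).lam (F.Ga j v) := by
    rw [(F.G j).cj_UW, hΓ]
  have r1 : cjX (F.y1 m j a g) = F.y1 m j a g := by
    show cjX (Ms (F.kp m j a) g - Ms (F.kp1 m j a) (SC.TT (F.G j).ω g)) = _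
    rw [map_sub, cj_Ms (F.kp_real m j a), cj_Ms (F.kp1_r m j a), cj_TT, hg]
    rfl
  have r2 : cjX (F.y2 n j v g) = F.y2 n j v g := by
    unfold y2
    rw [map_sub, map_sub, cjX_smul, map_add, cj_Ms F.e_real.2, cj_Ms F.e_real.1, cj_Ms F.e_real.2,
      cj_Ms F.e_real.1, cjX_smul, map_sub, cj_RnT, hx, (F.G j).cj_PQ, hx, hW, Complex.star_def,
      Complex.conj_ofReal, Complex.conj_ofNat]
  unfold sj
  rw [map_add, cL2_adj rB, cL2_adj rZ, cj_cm (F.G j).ha.c, cj_cm (F.G j).ha.c, r1, r2]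

end FD

end Pool.Agent.Lib.MP_79abb3_an.PD
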