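import Pool.Agent.Lib.MP_79abb3_an.PD.FeL1

/-!
Theorem D, block F: approximation of the outer vorticity by regularised linear problems (5.3).
-/

set_option autoImplicit false
set_option linter.unusedSectionVars false

open MeasureTheory Set Filter Topology Function
open scoped ENNReal InnerProductSpace ComplexConjugate

namespace Pool.Agent.Lib.MP_79abb3_an.PD

open Pool.Agent.Lib.MP_79abb3_an.SC Pool.Agent.Lib.MP_79abb3_an.P25

private theorem re_le_gen {E : Type} [NormedAddCommGroup E] [InnerProductSpace ℂ E] (x y : E) :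
    (⟪x, y⟫_ℂ).re ≤ ‖x‖ * ‖y‖ := (Complex.re_le_norm _).trans (norm_inner_le_norm x y)

/-- A real element of `L²(D)` is the limit of real elements of `H¹₀(D)`. -/
theorem exists_real_seq {D : Set ℂ} (hD : Bornology.IsBounded D) (x : XS D) (hx : cXS D x = x) :
    ∃ w : ℕ → SV D, (∀ n, cSV D (w n) = w n) ∧ Tendsto (fun n => js D (w n)) atTop (𝓝 x) := by
  have hF := FCjS hD
  have h0 : ∀ n : ℕ, ∃ w : SV D, ‖js D w - x‖ ≤ 1 / ((n : ℝ) + 1) := by
    intro n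
    obtain ⟨w, hw⟩ := (fdomS hD).dense.exists_dist_lt x (show (0:ℝ) < 1 / ((n : ℝ) + 1) by positivity)
    refine ⟨w, ?_⟩
    rw [dist_comm, dist_eq_norm] at hw
    exact hw.le
  choose w hw using h0
  refine ⟨fun n => (2⁻¹ : ℝ) • (w n + cSV D (w n)), fun n => ?_, ?_⟩
  · have h1 : cSV D (cSV D (w n)) = w n := hF.V.inv _
    rw [map_smul, map_add, h1, add_comm]
  · rw [tendsto_iff_norm_sub_tendsto_zero]
    refine squeeze_zero (fun _ => norm_nonneg _) (fun n => ?_) tendsto_one_div_add_atTop_nhds_zero_nat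
    have h1 : js D ((2⁻¹ : ℝ) • (w n + cSV D (w n))) - x =
        (2⁻¹ : ℝ) • ((js D (w n) - x) + cXS D (js D (w n) - x)) := by
      have e1 : js D ((2⁻¹ : ℝ) • (w n + cSV D (w n))) = (2⁻¹ : ℝ) • (js D (w n) + js D (cSV D (w n))) := by
        rw [← map_add]
        exact (js D).map_smul_of_tower _ _
      have e2 : cXS D (js D (w n)) = js D (cSV D (w n)) := hF.ι _
      have e3 : cXS D (js D (w n) - x) = js D (cSV D (w n)) - x := by rw [map_sub, e2, hx]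
      rw [e1, e3]
      have e4 : x = (2⁻¹ : ℝ) • (x + x) := by
        rw [← two_smul ℝ x, smul_smul]; norm_num
      have e5 : ∀ a c : XS D, (2⁻¹ : ℝ) • (a + c) - (2⁻¹ : ℝ) • (x + x) = (2⁻¹ : ℝ) • ((a - x) + (c - x)) :=
        fun a c => by rw [← smul_sub]; congr 1; abel
      exact (congrArg (fun z => (2⁻¹ : ℝ) • (js D (w n) + js D (cSV D (w n))) - z) e4).trans (e5 _ _)
    rw [h1]
    have h2 : ‖cXS D (js D (w n) - x)‖ = ‖js D (w n) - x‖ := hF.X.norm _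
    have h3 : ‖(2⁻¹ : ℝ) • ((js D (w n) - x) + cXS D (js D (w n) - x))‖ ≤
        2⁻¹ * (‖js D (w n) - x‖ + ‖cXS D (js D (w n) - x)‖) := by
      rw [norm_smul, Real.norm_of_nonneg (by norm_num : (0:ℝ) ≤ 2⁻¹)]
      exact mul_le_mul_of_nonneg_left (norm_add_le _ _) (by norm_num)
    rw [h2] at h3
    linarith [hw n]

namespace FD
variable {D : Set ℂ} {F : FD D} {m : ℕ} {lam : ℝ} {A A' : ℝ → ℝ} {b : ℝ} {v₀ : VD D} {v : ℝ → VD D} {mu mu' : ℝ → ℝ}
  {p : Fin F.n → ℝ → HP}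

/-- Uniform convergence of the regularised sources. -/
theorem Fst.sn_lim (st : F.Fst m lam A A' b v₀ v mu mu' p) {ε : ℝ} (hε : 0 < ε) :
    ∀ᶠ n in atTop, ∀ t ∈ Icc 0 b, ‖F.sn n m A v p t - F.sS m A v p t‖ ≤ ε := by
  obtain ⟨V, hV0, hV⟩ : ∃ V, 0 ≤ V ∧ ∀ t ∈ Icc 0 b, ‖v t‖ ≤ V := by
    obtain ⟨s, _, hs⟩ := isCompact_Icc.exists_isMaxOn ⟨0, le_rfl, st.b0⟩ st.U.cv.norm
    exact ⟨‖v s‖, norm_nonneg _, fun t ht => hs ht⟩
  have h1 : ∀ j, ∃ C, 0 ≤ C ∧ ∀ (m : ℕ) (a : ℝ) (v : VD D) (g q1 q2 q1' q2' : HP),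
    ‖F.sv m j a v g q1 q2 - F.sv m j a v g q1' q2'‖ ≤ C * (‖q1 - q1'‖ + ‖v‖ * ‖q2 - q2'‖) := fun j => F.sv_diff j
  choose C hC0 hC using h1
  obtain ⟨S, hS⟩ : ∃ S, S = ∑ j, 2 * Real.pi * C j := ⟨_, rfl⟩
  have hS0 : 0 ≤ S := by
    rw [hS]
    exact Finset.sum_nonneg fun j _ => by have := hC0 j; positivity
  obtain ⟨δ, hδ⟩ : ∃ δ, δ = ε / ((S + 1) * (1 + V)) := ⟨_, rfl⟩
  have hδ0 : 0 < δ := by rw [hδ]; positivity
  have hR : ∀ᶠ n in atTop, ∀ j, ∀ t ∈ Icc 0 b, ‖RnT n (SC.cm (F.G j).a (F.gg m A v p j t)) -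
      SC.cm (F.G j).a (F.gg m A v p j t)‖ ≤ δ := by
    rw [eventually_all]
    intro j
    exact unif_cpt (fun n => norm_RnT_le n) RnT_tendsto
      ((SC.cm (F.G j).a).continuous.comp_continuousOn (st.contg j)) hδ0
  have hT : ∀ᶠ n in atTop, ∀ j, ∀ t ∈ Icc 0 b, ‖Tr n (SC.cm (F.G j).a (F.gg m A v p j t)) -
      SC.cm (F.G j).a (F.gg m A v p j t)‖ ≤ δ := by
    rw [eventually_all]
    intro j
    exact unif_cpt (fun n => norm_Tr_le n) Tr_tendsto
      ((SC.cm (F.G j).a).continuous.comp_continuousOn (st.contg j)) hδ0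
  filter_upwards [hR, hT] with n h2 h3 t ht
  have e : F.sn n m A v p t - F.sS m A v p t = ∑ j, (2 * Real.pi : ℂ) •
      (F.sv m j (A t) (v t) (F.gg m A v p j t) (RnT n (SC.cm (F.G j).a (F.gg m A v p j t)))
        (Tr n (SC.cm (F.G j).a (F.gg m A v p j t))) -
      F.sv m j (A t) (v t) (F.gg m A v p j t) (SC.cm (F.G j).a (F.gg m A v p j t))
        (SC.cm (F.G j).a (F.gg m A v p j t))) := by
    unfold sn sS
    rw [← Finset.sum_sub_distrib]
    exact Finset.sum_congr rfl fun j _ => (smul_sub _ _ _).symm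
  rw [e]
  have h4 : ∀ j, ‖(2 * Real.pi : ℂ) •
      (F.sv m j (A t) (v t) (F.gg m A v p j t) (RnT n (SC.cm (F.G j).a (F.gg m A v p j t)))
        (Tr n (SC.cm (F.G j).a (F.gg m A v p j t))) -
      F.sv m j (A t) (v t) (F.gg m A v p j t) (SC.cm (F.G j).a (F.gg m A v p j t))
        (SC.cm (F.G j).a (F.gg m A v p j t)))‖ ≤ 2 * Real.pi * C j * ((1 + V) * δ) := by
    intro j
    have e1 : ‖(2 * Real.pi : ℂ)‖ = 2 * Real.pi := by
      rw [norm_mul, Complex.norm_ofNat, Complex.norm_real, Real.norm_of_nonneg Real.pi_pos.le]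
    have e2 := hC j m (A t) (v t) (F.gg m A v p j t) (RnT n (SC.cm (F.G j).a (F.gg m A v p j t)))
      (Tr n (SC.cm (F.G j).a (F.gg m A v p j t))) (SC.cm (F.G j).a (F.gg m A v p j t))
      (SC.cm (F.G j).a (F.gg m A v p j t))
    refine (norm_smul_le _ _).trans ?_
    rw [e1]
    have e3 := h2 j t ht
    have e4 := h3 j t ht
    have e5 := hC0 j
    calc 2 * Real.pi * _ ≤ 2 * Real.pi * (C j * (δ + V * δ)) := by
          refine mul_le_mul_of_nonneg_left (e2.trans ?_) (by positivity)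
          refine mul_le_mul_of_nonneg_left ?_ e5
          exact add_le_add e3 (mul_le_mul (hV t ht) e4 (norm_nonneg _) hV0)
      _ = _ := by ring
  refine (norm_sum_le _ _).trans ((Finset.sum_le_sum fun j _ => h4 j).trans ?_)
  rw [← Finset.sum_mul, ← hS]
  have h5 : (S + 1) * ((1 + V) * δ) = ε := by
    rw [hδ]; field_simp
  calc S * ((1 + V) * δ) ≤ (S + 1) * ((1 + V) * δ) := by gcongr; linarith
    _ = ε := h5

/-- **5.3, 7.1: approximation of the outer vorticity.** -/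
theorem Fst.approx (st : F.Fst m lam A A' b v₀ v mu mu' p) :
    ∃ (R P : ℕ → (HP →L[ℂ] HP)) (s1 : ℕ → ℝ → L2c) (q : ℕ → ℝ → SV D), F.Apx m lam A b v mu p R P s1 q := by
  have hD := F.hD.bdd
  obtain ⟨C, B, hB, hBa⟩ := F.exists_Badv
  have hk := st.keq hBa
  obtain ⟨oX', hoX⟩ : ∃ o : ℝ → XS D, o = oX (F := F) (A := A) (v := v) (mu := mu) (p := p) st.m1 := ⟨_, rfl⟩
  rw [← hoX] at hk
  have hcoe : ∀ t, ((oX' t : XS D) : L2c) = F.ov m A v mu p t := fun t => by rw [hoX]; rfl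
  have hr0 : cXS D (oX' 0) = oX' 0 := by
    apply Subtype.ext
    show cL2 ((oX' 0 : XS D) : L2c) = _
    rw [hcoe]
    exact st.ov_real ⟨le_rfl, st.b0⟩
  obtain ⟨w, hwr, hwl⟩ := exists_real_seq hD (oX' 0) hr0
  have hex : ∀ n, ∃ q : ℝ → SV D, Lpr D v (fun _ x => (lam : ℂ) * F.d x) (F.s1n n m A v p) (fun _ => 0) 0 b q ∧
      q 0 = w n ∧ ∀ t ∈ Icc 0 b, cSV D (q t) = q t := fun n => exists_Lpr hD st.b0 (st.dat n) (hwr n)
  choose q hq hq0 hqr using hex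
  -- the initial data
  have hini : Tendsto (fun n => js D (q n 0)) atTop (𝓝 (oX' 0)) := by
    simp only [hq0]; exact hwl
  -- uniform bound of the sources
  obtain ⟨M, hM0, hM⟩ : ∃ M, 0 ≤ M ∧ ∀ n, ∀ t ∈ Icc 0 b, ‖F.sn n m A v p t‖ ≤ M := by
    obtain ⟨s0, _, hs0⟩ := isCompact_Icc.exists_isMaxOn ⟨0, le_rfl, st.b0⟩ st.sS_cont.norm
    obtain ⟨N, hN⟩ := eventually_atTop.1 (st.sn_lim (zero_lt_one : (0:ℝ) < 1))
    have h1 : ∀ n, ∃ c, ∀ t ∈ Icc 0 b, ‖F.sn n m A v p t‖ ≤ c := fun n => by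
      obtain ⟨s, _, hs⟩ := isCompact_Icc.exists_isMaxOn ⟨0, le_rfl, st.b0⟩ (st.sn_cont n).norm
      exact ⟨‖F.sn n m A v p s‖, fun t ht => hs ht⟩
    choose c hc using h1
    refine ⟨‖F.sS m A v p s0‖ + 1 + ∑ n ∈ Finset.range N, |c n|, by positivity, fun n t ht => ?_⟩
    rcases lt_or_ge n N with h | h
    · have h2 : |c n| ≤ ∑ n ∈ Finset.range N, |c n| :=
        Finset.single_le_sum (f := fun n => |c n|) (fun i _ => abs_nonneg _) (Finset.mem_range.2 h)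
      have h3 := (hc n t ht).trans (le_abs_self _)
      have h4 := norm_nonneg (F.sS m A v p s0)
      linarith
    · have h2 : ‖F.sn n m A v p t - F.sS m A v p t‖ ≤ 1 := hN n h t ht
      have h3 : ‖F.sS m A v p t‖ ≤ ‖F.sS m A v p s0‖ := hs0 ht
      have h4 : 0 ≤ ∑ n ∈ Finset.range N, |c n| := Finset.sum_nonneg fun i _ => abs_nonneg _
      have h5 : ‖F.sn n m A v p t‖ ≤ ‖F.sn n m A v p t - F.sS m A v p t‖ + ‖F.sS m A v p t‖ := by
        have := norm_add_le (F.sn n m A v p t - F.sS m A v p t) (F.sS m A v p t)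
        rwa [sub_add_cancel] at this
      linarith
  -- boundedness of the solutions
  obtain ⟨Bd, hBd⟩ : ∃ Bd, ∀ n, ∀ t ∈ Icc 0 b, ‖js D (q n t)‖ ≤ Bd := by
    obtain ⟨c, hc⟩ : ∃ c, ∀ n, ‖js D (q n 0)‖ ≤ c := by
      obtain ⟨c, hc⟩ := (hini.norm).bddAbove_range
      exact ⟨c, fun n => hc ⟨n, rfl⟩⟩
    have hc0 : 0 ≤ c := (norm_nonneg _).trans (hc 0)
    refine ⟨√(c ^ 2 + b * M ^ 2), fun n t ht => ?_⟩
    have hsrc : ∀ r ∈ Icc 0 b, (⟪((js D (q n r) : XS D) : L2c), F.s1n n m A v p r⟫_ℂ).re +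
        ((0 : Yd L4c) (j4 D (q n r))).re ≤ M * ‖q n r‖ := by
      intro r hr
      have h1 : ⟪((js D (q n r) : XS D) : L2c), F.s1n n m A v p r⟫_ℂ = ⟪q n r, F.sn n m A v p r⟫_ℂ :=
        (F.inner_s1n n m A v p r (q n r)).trans (F.inner_sn n m A v p r (q n r)).symm
      have h2 : ((0 : Yd L4c) (j4 D (q n r))).re = 0 := rfl
      have h3 : (⟪q n r, F.sn n m A v p r⟫_ℂ).re ≤ ‖q n r‖ * ‖F.sn n m A v p r‖ :=
        re_le_gen (q n r) (F.sn n m A v p r)
      rw [h1, h2, add_zero]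
      refine h3.trans ?_
      rw [mul_comm]
      exact mul_le_mul_of_nonneg_right (hM n r hr) (norm_nonneg (q n r))
    have h1 := (hq n).apriori hD (st.dat n) (R := fun _ => M) continuousOn_const hsrc le_rfl ht.1 ht.2
    have h2 : 0 ≤ ∫ r in (0:ℝ)..t, ‖q n r‖ ^ 2 :=
      intervalIntegral.integral_nonneg ht.1 fun r _ => sq_nonneg _
    have h3 : 0 ≤ 2 * ∫ r in (0:ℝ)..t, ∫ x, ((lam : ℂ) * F.d x).re * ‖((js D (q n r) : XS D) : L2c) x‖ ^ 2 := by
      refine mul_nonneg zero_le_two (intervalIntegral.integral_nonneg ht.1 fun r _ =>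
        integral_nonneg fun x => mul_nonneg ?_ (sq_nonneg _))
      rw [Complex.re_ofReal_mul]
      exact mul_nonneg st.l0 (F.d01 x).1
    have h4 : ∫ _ in (0:ℝ)..t, M ^ 2 = t * M ^ 2 := by simp
    have h5 : ‖js D (q n t)‖ ^ 2 ≤ c ^ 2 + b * M ^ 2 := by
      have h6 : ‖js D (q n 0)‖ ^ 2 ≤ c ^ 2 := pow_le_pow_left₀ (norm_nonneg (js D (q n 0))) (hc n) 2
      have h7 : t * M ^ 2 ≤ b * M ^ 2 := mul_le_mul_of_nonneg_right ht.2 (sq_nonneg _)
      linarith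
    exact Real.le_sqrt_of_sq_le h5
  -- convergence of the sources
  have hρ : ∀ ε, 0 < ε → ∀ᶠ n in atTop, ∀ t ∈ Icc 0 b, ‖rS D (F.s1n n m A v p t) 0 - js D (F.sS m A v p t)‖ ≤ ε := by
    intro ε hε
    obtain ⟨k, hk0, hk⟩ : ∃ k, 0 ≤ k ∧ ∀ w : SV D, ‖js D w‖ ≤ k * ‖w‖ :=
      ⟨‖js D‖, norm_nonneg (js D), fun w => (js D).le_opNorm w⟩
    filter_upwards [st.sn_lim (show 0 < ε / (k + 1) by positivity)] with n hn t ht
    have e1 : rS D (F.s1n n m A v p t) 0 - js D (F.sS m A v p t) = js D (F.sn n m A v p t - F.sS m A v p t) := by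
      rw [F.rS_s1n, map_sub]
    rw [e1]
    refine (hk _).trans ?_
    have h1 := hn t ht
    calc k * ‖F.sn n m A v p t - F.sS m A v p t‖ ≤ (k + 1) * (ε / (k + 1)) :=
          mul_le_mul (by linarith) h1 (norm_nonneg _) (by linarith)
      _ = ε := by field_simp
  have hW : ContinuousOn (fun _ : ℝ => mm (fun x => (lam : ℂ) * F.d x)) (Icc 0 b) := continuousOn_const
  refine ⟨RnT, Tr, fun n => F.s1n n m A v p, q, ?_⟩
  exact
    { R1 := wmon_RnT
      P1 := wmon_Tr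
      R2 := RnT_tendsto
      P2 := Tr_tendsto
      dat := st.dat
      src := fun n t _ q' => F.inner_s1n n m A v p t q'
      sol := hq
      re := fun n t ht => by
        have h1 : cXS D (js D (q n t)) = js D (cSV D (q n t)) := (FCjS hD).ι _
        rw [h1, hqr n t ht]
      ini := by
        have h1 : Tendsto (fun n => ((js D (q n 0) : XS D) : L2c)) atTop (𝓝 ((oX' 0 : XS D) : L2c)) :=
          (continuous_subtype_val.tendsto _).comp hini
        rwa [hcoe] at h1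
      lim := fun t ht y => by
        have h1 := hk.weak hD hB st.U.cv hW st.dat hq hρ hini ht (fun n => hBd n t ht) (PS D y)
        have e1 : ∀ z : XS D, ⟪PS D y, z⟫_ℂ = ⟪y, (z : L2c)⟫_ℂ := fun z => by
          have h2 : ⟪z, PS D y⟫_ℂ = ⟪(z : L2c), y⟫_ℂ := inner_PS D z y
          have h3 := congrArg conj h2
          have h4 : conj ⟪z, PS D y⟫_ℂ = ⟪PS D y, z⟫_ℂ := inner_conj_symm (𝕜 := ℂ) (PS D y) z
          have h5 : conj ⟪(z : L2c), y⟫_ℂ = ⟪y, (z : L2c)⟫_ℂ := inner_conj_symm (𝕜 := ℂ) y (z : L2c)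
          exact h4.symm.trans (h3.trans h5)
        have h2 : ⟪PS D y, oX' t⟫_ℂ = ⟪y, F.ov m A v mu p t⟫_ℂ := (e1 _).trans (by rw [hcoe])
        rw [← h2]
        exact h1.congr fun n => e1 _ }

end FD

end Pool.Agent.Lib.MP_79abb3_an.PD
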