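import Pool.Agent.Lib.MP_79abb3_an.PD.FeO2c

/-!
Theorem D, block F: the equation of the outer vorticity tested with `θ = K_s φ`. In the comments `θ_s = θ ∘ X_j`,
`⟨.,.⟩_j = 2π ⟨.,.⟩`.
-/

set_option autoImplicit false
set_option linter.unusedSectionVars false

open MeasureTheory Set Filter Topology Function
open scoped ENNReal InnerProductSpace ComplexConjugate

namespace Pool.Agent.Lib.MP_79abb3_an.PD

open Pool.Agent.Lib.MP_79abb3_an.SC Pool.Agent.Lib.MP_79abb3_an.P25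

section
variable {H : ℝ} [hH : Fact (0 < H)]

private theorem fo2_fun (a b : ℂ) : a * b = (b.re : ℂ) * a + Complex.I * ((b.im : ℂ) * a) := by
  have h := Complex.re_add_im b
  calc a * b = a * ((b.re : ℂ) + (b.im : ℂ) * Complex.I) := by rw [h]
    _ = _ := by ring

private theorem fo2_pz {u : ℝ × ℝ → ℂ} (hu : PC H u) (x : HH H) : pz (⇑x) (fmc u : ℤ → CI H) =
    ⇑(SC.cm (fam fun q => (u q).re) x + Complex.I • SC.cm (fam fun q => (u q).im) x : HH H) := by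
  funext n
  have h3 := (cm_hasSum (pz_fam_sum0 hu.re) x n).add
    ((cm_hasSum (pz_fam_sum0 hu.im) x n).const_smul Complex.I)
  rw [lp.coeFn_add, Pi.add_apply, lp.coeFn_smul, Pi.smul_apply, ← h3.tsum_eq]
  show ∑' j, mz (fmc u (n - j)) (x j) = _
  refine tsum_congr fun j => ?_
  unfold fmc
  rw [map_add, map_smul]
  rfl

private theorem fo2_dpin {η u : ℝ × ℝ → ℂ} (hη : PC H η) (hu : PC H u) (y : HH H) :
    dp (⇑(fHc η : HH H)) (pz (⇑y) (fmc u : ℤ → CI H)) = ⟪(fHc (fun q => conj (u q) * η q) : HH H), y⟫_ℂ := by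
  have e1 : (fun q => conj (u q) * η q) =
      fun q => ((u q).re : ℂ) * η q + (-Complex.I) * (((u q).im : ℂ) * η q) := by
    funext q
    have h2 : conj (u q) = ((u q).re : ℂ) - ((u q).im : ℂ) * Complex.I := by
      apply Complex.ext
      · simp
      · simp
    rw [h2]
    ring
  rw [fo2_pz hu, e1, fHc_add (PC.mulR hu.re hη) (PC.cmul _ (PC.mulR hu.im hη)),
    fHc_smul _ (PC.mulR hu.im hη), ← cm_fHc hu.re hη, ← cm_fHc hu.im hη, inner_add_left, inner_smul_left,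
    inner_cm_fam hu.re, inner_cm_fam hu.im, map_neg, Complex.conj_I, neg_neg, ← inner_smul_right,
    ← inner_add_right, lp.inner_eq_tsum]
  rfl

private theorem fo2_neg {η u : ℝ × ℝ → ℂ} (hη : PC H η) (hu : PC H u) (y : HH H) :
    dp (⇑(fHc η : HH H)) (pz (⇑y) fun n => (-(fmc u n) : CI H)) =
      -⟪(fHc (fun q => conj (u q) * η q) : HH H), y⟫_ℂ := by
  rw [← fo2_dpin hη hu]
  have e3 : ∀ n, pz (⇑y) (fun n => (-(fmc u n) : CI H)) n = -pz (⇑y) (fmc u : ℤ → CI H) n := by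
    intro n
    show ∑' j, mz (-(fmc u (n - j) : CI H)) (y j) = -∑' j, mz (fmc u (n - j) : CI H) (y j)
    rw [← tsum_neg]
    refine tsum_congr fun j => ?_
    rw [map_neg, neg_apply]
  unfold dp
  rw [← tsum_neg]
  refine tsum_congr fun n => ?_
  rw [e3, inner_neg_right]

private theorem fo2_Y {θ : ℝ × ℝ → ℂ} (h : PC H θ) (h0 : ∀ y, θ (y, 0) = 0) :
    Yz (Real.pi / H) (bHc θ : HH H) = fHc (dZc θ) ∧ Yy (Real.pi / H) (bHc θ : HH H) = fHc (dYc θ) := by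
  have hE : ∀ n : ℤ, E2 (Real.pi / H * n) ((bHc θ : HH H) n) = (iota (fmc θ n : CI H) : Z2 H) := fun n => by
    rw [← EE_apply, EE_bHc h h0, fHc_apply h]
  constructor
  · refine lp.ext (funext fun n => ?_)
    rw [Yz_apply, fHc_apply h.zz]
    unfold tZ
    rw [hE, bHc_apply h, map_add, map_smul]
    abel
  · refine lp.ext (funext fun n => ?_)
    rw [Yy_apply, fHc_apply h.yy]
    unfold tY
    rw [hE, fmc_yy h, map_smul]

/-! ### products of the modes -/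

private theorem fo2_mz_pz (G : Geo H) (m : CI H) (x : HH H) {v : ℤ → CI H} (sv : S2 G.lam (1 / 2) v) (n : ℤ) :
    mz m (pz (⇑x) v n) = pz (⇑(Ms m x)) v n := by
  have pw := G.pw
  obtain ⟨c1, -, -⟩ := cvm_bd zero_le_one mz_bd pw.h1 pw.ha pw.hb pw.hc pw.hs (S2_l2 G.lam x) sv
  have h1 := ((c1 n).of_norm).hasSum.mapL (mz m)
  have h2 : mz m (pz (⇑x) v n) = ∑' j, mz m (mz (v (n - j)) (x j)) := h1.tsum_eq.symm
  rw [h2]
  refine tsum_congr fun j => ?_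
  rw [mz_comm, Ms_apply]

/-- a real function of `z` moves through the form -/
private theorem fo2_move (G : Geo H) {m : CI H} (mr : star m = m) (f x : HH H) {v : ℤ → CI H}
    (sv : S2 G.lam (1 / 2) v) : dp (⇑f) (pz (⇑(Ms m x)) v) = dp (⇑(Ms m f)) (pz (⇑x) v) := by
  rw [dp_Ms, mr]
  refine tsum_congr fun n => ?_
  show ⟪f n, pz (⇑(Ms m x)) v n⟫_ℂ = ⟪f n, mz m (pz (⇑x) v n)⟫_ℂ
  rw [fo2_mz_pz G m x sv]

private theorem fo2_s1 (G : Geo H) (x k : HH H) (w : l2 (CI H)) :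
    (Summable fun n => ⟪Yz G.ω (TT G.ω k) n, pz (⇑x) (hf G.lam w) n⟫_ℂ) ∧
    (Summable fun n => ⟪Yy G.ω (TT G.ω k) n, pz (⇑x) (hf G.lam w) n⟫_ℂ) := by
  have e : ∀ n, LT G.ω G.lam (1 / 4) k n = ((G.lam n ^ (1 / 4 : ℝ) : ℝ) : ℂ) • TT G.ω k n := fun n => by
    rw [G.lamOK.LT_apply (by norm_num), SC.TT_apply]
  constructor
  · refine (lp.summable_inner (𝕜 := ℂ) (Yz G.ω (LT G.ω G.lam (1 / 4) k)) (prd G.pw x w)).congr fun n => ?_
    have e1 : Yz G.ω (LT G.ω G.lam (1 / 4) k) n = ((G.lam n ^ (1 / 4 : ℝ) : ℝ) : ℂ) • Yz G.ω (TT G.ω k) n := by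
      rw [Yz_apply, Yz_apply]
      unfold tZ
      rw [e, map_smul, smul_sub, smul_comm]
    rw [e1, prd_apply]
    exact lam_cancel (G.lw.pos n) _ _ _
  · refine (lp.summable_inner (𝕜 := ℂ) (Yy G.ω (LT G.ω G.lam (1 / 4) k)) (prd G.pw x w)).congr fun n => ?_
    have e1 : Yy G.ω (LT G.ω G.lam (1 / 4) k) n = ((G.lam n ^ (1 / 4 : ℝ) : ℝ) : ℂ) • Yy G.ω (TT G.ω k) n := by
      rw [Yy_apply, Yy_apply]
      unfold tY
      rw [e, map_smul, smul_comm]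
    rw [e1, prd_apply]
    exact lam_cancel (G.lw.pos n) _ _ _

private theorem fo2_t2 (G : Geo H) {e1 : CI H} (h1 : star e1 = e1) (q f : HH H) (w : l2 (CI H)) (n : ℤ) :
    ⟪f n, LT G.ω G.lam (1 / 4) (Ms e1 (prd G.pw q w)) n⟫_ℂ = ⟪Ms e1 (EE G.ω f) n, pz (⇑q) (hf G.lam w) n⟫_ℂ := by
  rw [G.lamOK.LT_apply (by norm_num), Ms_apply, Ms_apply, EE_apply, prd_apply, map_smul,
    map_smul, inner_mz, h1, smul_smul, ← Complex.ofReal_mul, ← Real.rpow_add (G.lw.pos n),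
    add_neg_cancel, Real.rpow_zero, Complex.ofReal_one, one_smul,
    ← inner_conj_symm (f n), inner_T2, inner_conj_symm]

private theorem fo2_s2 (G : Geo H) {e1 : CI H} (h1 : star e1 = e1) (q f : HH H) (w : l2 (CI H)) :
    Summable fun n => ⟪Ms e1 (EE G.ω f) n, pz (⇑q) (hf G.lam w) n⟫_ℂ :=
  (lp.summable_inner (𝕜 := ℂ) f (LT G.ω G.lam (1 / 4) (Ms e1 (prd G.pw q w)))).congr fun n => fo2_t2 G h1 q f w n

private theorem fo2_dp_inner (G : Geo H) {e1 : CI H} (h1 : star e1 = e1) (q f : HH H) (w : l2 (CI H)) :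
    dp (⇑(Ms e1 (EE G.ω f))) (pz (⇑q) (hf G.lam w)) = ⟪f, LT G.ω G.lam (1 / 4) (Ms e1 (prd G.pw q w))⟫_ℂ := by
  rw [inner_dp]
  exact tsum_congr fun n => (fo2_t2 G h1 q f w n).symm

private theorem fo2_dsub {f g : HH H} {r : ℤ → Z2 H} (h1 : Summable fun n => ⟪f n, r n⟫_ℂ)
    (h2 : Summable fun n => ⟪g n, r n⟫_ℂ) : dp (⇑(f - g)) r = dp (⇑f) r - dp (⇑g) r := by
  unfold dp
  rw [← h1.tsum_sub h2]
  refine tsum_congr fun n => ?_
  rw [lp.coeFn_sub, Pi.sub_apply, inner_sub_left]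

private theorem fo2_hU (G : Geo H) (g : HH H) : hf G.lam (UV G.ω G.lam g) = uV G.ω (Vf G.ω (⇑g)) := by
  funext n
  rw [G.hf_UV]

private theorem fo2_hW (G : Geo H) (g : HH H) : hf G.lam (UW G.ω G.lam g) = wV G.ω (Vf G.ω (⇑g)) := by
  funext n
  rw [G.hf_UW]

/-! ### the transport term of `B† y` -/

private theorem fo2_NL0 {D : Set ℂ} (hD : Bornology.IsBounded D) (ψ φ : Adm D) (o : L2c) :
    PD.NL (jj D (cuV D ψ)) o (jj D (cuV D φ)) =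
      ⟪cl2 (fun x => px φ x * conj (py ψ x) - py φ x * conj (px ψ x)), o⟫_ℂ := by
  have k1 : Cc (fun x => conj (py ψ x)) := (Adm.cc ψ).py.conj
  have k2 : Cc (fun x => conj (px ψ x)) := (Adm.cc ψ).px.conj
  have m1 : MemLp (fun x => px φ x * conj (py ψ x) - py φ x * conj (px ψ x)) 2 (volume : Measure ℂ) := by
    have a1 := (((Adm.cc φ).px.mul_smo k1.smo).memLp 2)
    have a2 := (((Adm.cc φ).py.mul_smo k2.smo).memLp 2)
    exact a1.sub a2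
  have e1 : jj D (cuV D ψ) = (cl4 (py ψ), -cl4 (px ψ)) := Prod.ext (j1_cuV hD ψ) (j2_cuV hD ψ)
  have e2 : jj D (cuV D φ) = (cl4 (py φ), -cl4 (px φ)) := Prod.ext (j1_cuV hD φ) (j2_cuV hD φ)
  rw [e1, e2, NL_apply, L2.inner_def]
  refine integral_congr_ae ?_
  filter_upwards [cl2_coe m1, cl4_coe ((Adm.cc ψ).py.memLp 4), cl4_coe ((Adm.cc ψ).px.memLp 4),
    cl4_coe ((Adm.cc φ).py.memLp 4), cl4_coe ((Adm.cc φ).px.memLp 4), Lp.coeFn_neg (cl4 (px ψ)),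
    Lp.coeFn_neg (cl4 (px φ))] with x n1 n2 n3 n4 n5 n6 n7
  have r1 : ((-cl4 (px ψ) : L4c) : ℂ → ℂ) x = -px ψ x := by rw [n6, Pi.neg_apply, n3]
  have r2 : ((-cl4 (px φ) : L4c) : ℂ → ℂ) x = -px φ x := by rw [n7, Pi.neg_apply, n5]
  show conj ((cl4 (py φ) : ℂ → ℂ) x) * ((o : ℂ → ℂ) x * ((-cl4 (px ψ) : L4c) : ℂ → ℂ) x) -
    conj (((-cl4 (px φ) : L4c) : ℂ → ℂ) x) * ((o : ℂ → ℂ) x * (cl4 (py ψ) : ℂ → ℂ) x) =
    ⟪(cl2 (fun x => px φ x * conj (py ψ x) - py φ x * conj (px ψ x)) : ℂ → ℂ) x, (o : ℂ → ℂ) x⟫_ℂ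
  rw [r1, r2, n2, n4, n1, RCLike.inner_apply]
  simp only [map_sub, map_mul, map_neg, Complex.conj_conj]
  ring

section
variable {D : Set ℂ} {c e e' a a' e₁ : ℝ} {X : ℝ × ℝ → ℂ} {J : ℝ × ℝ → ℝ} {Γ : VD D →L[ℂ] HH H}
  {B : L2c →L[ℂ] HH H}

/-- derivatives of the cut off stream function where the cut-off is one -/
private theorem fo2_ga (h : IsStrip D H c X) (he : e < e') (ψ : Adm D) {q : ℝ × ℝ} (hq : q.2 < e) :
    (dYc (gaF X e e' ψ) q = dYc (fun q => (ψ : ℂ → ℂ) (X q)) q ∧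
      dZc (gaF X e e' ψ) q = dZc (fun q => (ψ : ℂ → ℂ) (X q)) q) ∧
    conj (dYc (gaF X e e' ψ) q) = dYc (fun q => (cA ψ : ℂ → ℂ) (X q)) q ∧
      conj (dZc (gaF X e e' ψ) q) = dZc (fun q => (cA ψ : ℂ → ℂ) (X q)) q := by
  have hs : ContDiff ℝ ((⊤ : ℕ∞) : WithTop ℕ∞) fun q => (ψ : ℂ → ℂ) (X q) := (h.pc (Adm.cc ψ).smo).smooth
  have h1 : gaF X e e' ψ =ᶠ[𝓝 q] fun p => (ψ : ℂ → ℂ) (X p) - (ψ : ℂ → ℂ) (X (0, 0)) := by
    filter_upwards [(isOpen_lt continuous_snd continuous_const).mem_nhds hq] with p hp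
    have hp' : p.2 < e := hp
    unfold gaF
    rw [ctf_one he hp'.le, Complex.ofReal_one, one_mul]
  have h2 : HasFDerivAt (fun q => (ψ : ℂ → ℂ) (X q)) (fderiv ℝ (fun q => (ψ : ℂ → ℂ) (X q)) q) q :=
    (hs.differentiable (by simp) q).hasFDerivAt
  have h3 : fderiv ℝ (gaF X e e' ψ) q = fderiv ℝ (fun q => (ψ : ℂ → ℂ) (X q)) q := by
    rw [h1.fderiv_eq, fderiv_sub_const]
  have h4 : HasFDerivAt (fun q => (cA ψ : ℂ → ℂ) (X q))
      ((Complex.conjCLE : ℂ →L[ℝ] ℂ).comp (fderiv ℝ (fun q => (ψ : ℂ → ℂ) (X q)) q)) q :=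
    (Complex.conjCLE : ℂ →L[ℝ] ℂ).hasFDerivAt.comp q h2
  unfold dYc dZc
  rw [h3, h4.fderiv]
  exact ⟨⟨rfl, rfl⟩, rfl, rfl⟩

private theorem fo2_sm (hΓ : IsGa D X e e' Γ) (hB : IsPB X a a' J B) (h : IsStrip D H c X) (hO : IsOpen D)
    (hD : Bornology.IsBounded D) (hJ : IsJ H X e₁ J) (haa : a < a') (hae : a' < e) (hae₁ : a' ≤ e₁)
    (he0 : 0 < e) (he : e < e') (he' : e' < c) {G : Geo H} (hω : G.ω = Real.pi / H) (ψ φ : Adm D) (y : HH H) :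
    PD.NL (jj D (cuV D ψ)) ((2 * H : ℂ) • ContinuousLinearMap.adjoint B y) (jj D (cuV D φ)) =
      (2 * H : ℂ) * bf G.ω
        (⇑(Ms (Pool.Agent.Lib.MP_79abb3_an.FW.rc (ctf a a') (ctf_smooth a a').continuous) y))
        (uV G.ω (Vf G.ω (⇑(Γ (cuV D ψ))))) (wV G.ω (Vf G.ω (⇑(Γ (cuV D ψ)))))
        (⇑(TT G.ω (Γ (cuV D φ)))) := by
  obtain ⟨m, hm⟩ : ∃ m : CI H, m = Pool.Agent.Lib.MP_79abb3_an.FW.rc (ctf a a') (ctf_smooth a a').continuous :=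
    ⟨_, rfl⟩
  have mr : star m = m := by rw [hm]; exact star_rc _ _
  have hψ : PC H (gaF X e e' ψ) := gaF_pc h he (Adm.cc ψ).smo
  have hφ : PC H (gaF X e e' φ) := gaF_pc h he (Adm.cc φ).smo
  have vψ : VanC H (gaF X e e' ψ) := gaF_van h he he' ψ
  have vφ : VanC H (gaF X e e' φ) := gaF_van h he he' φ
  have cψ : ConC (gaF X e e' ψ) := by
    obtain ⟨ε, hε, h3⟩ := gaF_con (e' := e') h hO he0 he ψ
    exact ⟨ε, hε, 0, h3⟩
  have zφ : ∀ y, gaF X e e' φ (y, 0) = 0 := by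
    obtain ⟨ε, hε, h3⟩ := gaF_con (e' := e') h hO he0 he φ
    exact fun y => h3 y 0 le_rfl hε
  have eu : uV G.ω (Vf G.ω (⇑(Γ (cuV D ψ)))) = (fmc (dZc (gaF X e e' ψ)) : ℤ → CI H) := by
    rw [hΓ.eq ψ, hω]
    exact funext fun n => uV_ll hψ vψ cψ n
  have ew : wV G.ω (Vf G.ω (⇑(Γ (cuV D ψ)))) = fun n => (-(fmc (dYc (gaF X e e' ψ)) n) : CI H) := by
    rw [hΓ.eq ψ, hω]
    exact funext fun n => wV_ll hψ vψ cψ n
  have eT : TT G.ω (Γ (cuV D φ)) = bHc (gaF X e e' φ) := by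
    rw [hΓ.eq φ, hω]
    exact TT_ll hφ vφ
  obtain ⟨y1, y2⟩ := fo2_Y hφ zφ
  rw [eu, ew, eT, ← hm, G.bf_eq, hω, y1, y2, fo2_neg hφ.zz hψ.yy, fo2_dpin hφ.yy hψ.zz]
  have pA : PC H fun q => conj (dZc (gaF X e e' ψ) q) * dYc (gaF X e e' φ) q := hψ.zz.star.mul hφ.yy
  have pB : PC H fun q => conj (dYc (gaF X e e' ψ) q) * dZc (gaF X e e' φ) q := hψ.yy.star.mul hφ.zz
  have e1 : -⟪(fHc (fun q => conj (dYc (gaF X e e' ψ) q) * dZc (gaF X e e' φ) q) : HH H), Ms m y⟫_ℂ +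
      ⟪(fHc (fun q => conj (dZc (gaF X e e' ψ) q) * dYc (gaF X e e' φ) q) : HH H), Ms m y⟫_ℂ =
      ⟪Ms m (fHc fun q => conj (dZc (gaF X e e' ψ) q) * dYc (gaF X e e' φ) q -
        conj (dYc (gaF X e e' ψ) q) * dZc (gaF X e e' φ) q : HH H), y⟫_ℂ := by
    rw [fHc_sub pA pB, inner_Ms, mr, inner_sub_left]
    ring
  rw [e1, hm, Ms_fHc (ctf_smooth a a') (pA.sub pB)]
  -- the left side
  have k1 : Cc (fun x => conj (py ψ x)) := (Adm.cc ψ).py.conj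
  have k2 : Cc (fun x => conj (px ψ x)) := (Adm.cc ψ).px.conj
  have hg : Cc (fun x => px φ x * conj (py ψ x) - py φ x * conj (px ψ x)) := by
    have h1 := ((Adm.cc φ).px.mul_smo k1.smo).add ((Adm.cc φ).py.mul_smo k2.smo).neg
    refine ⟨?_, ?_⟩
    · have h2 := h1.smo
      simp only [← sub_eq_add_neg] at h2
      exact h2
    · have h2 := h1.cpt
      simp only [← sub_eq_add_neg] at h2
      exact h2
  rw [fo2_NL0 hD, inner_smul_right, ContinuousLinearMap.adjoint_inner_right, hB.eq _ hg]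
  congr 2
  have pJ : PY H fun q => ctf a a' q.2 * J q := (PY.of_z H (ctf_smooth a a')).mul hJ.py
  refine fHc_congr (PC.mulR pJ (h.pc hg.smo)) (PC.mulR (PY.of_z H (ctf_smooth a a')) (pA.sub pB)) fun q hq => ?_
  by_cases hqa : a' ≤ q.2
  · rw [ctf_zero haa hqa, zero_mul, Complex.ofReal_zero, zero_mul, zero_mul]
  · rw [not_le] at hqa
    obtain ⟨-, g1, g2⟩ := fo2_ga h he ψ (hqa.trans hae)
    obtain ⟨⟨g3, g4⟩, -⟩ := fo2_ga h he φ (hqa.trans hae)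
    have hc2 := h.curl_mul (Adm.cc φ).smo (Adm.cc (cA ψ)).smo (q := q) hq.2.1 (by linarith)
    have c1 : py (cA ψ : ℂ → ℂ) (X q) = conj (py ψ (X q)) := congrFun (Adm.cc ψ).smo.py_conj (X q)
    have c2 : px (cA ψ : ℂ → ℂ) (X q) = conj (px ψ (X q)) := congrFun (Adm.cc ψ).smo.px_conj (X q)
    rw [c1, c2, ← g1, ← g2, ← g3, ← g4] at hc2
    rw [hJ.eq q hq.2.1 (hqa.le.trans hae₁)]
    push_cast
    linear_combination (-(ctf a a' q.2 : ℂ)) * hc2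

private theorem fo2_A (hΓ : IsGa D X e e' Γ) (hB : IsPB X a a' J B) (h : IsStrip D H c X) (hO : IsOpen D)
    (hD : Bornology.IsBounded D) (hJ : IsJ H X e₁ J) (haa : a < a') (hae : a' < e) (hae₁ : a' ≤ e₁)
    (he0 : 0 < e) (he : e < e') (he' : e' < c) {G : Geo H} (hω : G.ω = Real.pi / H) (v w : VD D) (y : HH H) :
    PD.NL (jj D v) ((2 * H : ℂ) • ContinuousLinearMap.adjoint B y) (jj D w) =
      (2 * H : ℂ) * bf G.ω
        (⇑(Ms (Pool.Agent.Lib.MP_79abb3_an.FW.rc (ctf a a') (ctf_smooth a a').continuous) y))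
        (uV G.ω (Vf G.ω (⇑(Γ v)))) (wV G.ω (Vf G.ω (⇑(Γ v)))) (⇑(TT G.ω (Γ w))) := by
  obtain ⟨z, hz⟩ : ∃ z : HH H, z = Ms (Pool.Agent.Lib.MP_79abb3_an.FW.rc (ctf a a') (ctf_smooth a a').continuous) y :=
    ⟨_, rfl⟩
  obtain ⟨o, ho⟩ : ∃ o : L2c, o = (2 * H : ℂ) • ContinuousLinearMap.adjoint B y := ⟨_, rfl⟩
  have key : ∀ v w : VD D, PD.NL (jj D v) o (jj D w) = (2 * H : ℂ) *
      ⟪LT G.ω G.lam (1 / 4) (Γ w), G.Pw z (UV G.ω G.lam (Γ v)) (UW G.ω G.lam (Γ v))⟫_ℂ := by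
    intro v w
    have c1 : ∀ v : VD D, IsClosed {w : VD D | PD.NL (jj D v) o (jj D w) = (2 * H : ℂ) *
        ⟪LT G.ω G.lam (1 / 4) (Γ w), G.Pw z (UV G.ω G.lam (Γ v)) (UW G.ω G.lam (Γ v))⟫_ℂ} := fun v =>
      isClosed_eq ((PD.NL (jj D v) o).continuous.comp (jj D).continuous)
        (continuous_const.mul (((LT G.ω G.lam (1 / 4)).continuous.comp Γ.continuous).inner continuous_const))
    have hP : Continuous fun v : VD D => G.Pw z (UV G.ω G.lam (Γ v)) (UW G.ω G.lam (Γ v)) := by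
      have p1 : Continuous fun v : VD D => prd G.pw z (UW G.ω G.lam (Γ v)) :=
        (prd G.pw z).continuous.comp ((UW G.ω G.lam).continuous.comp Γ.continuous)
      have p2 : Continuous fun v : VD D => prd G.pw z (UV G.ω G.lam (Γ v)) :=
        (prd G.pw z).continuous.comp ((UV G.ω G.lam).continuous.comp Γ.continuous)
      exact (((Xz G.ω).continuous.comp p1).add ((Xy G.ω).continuous.comp p2)).neg
    have c2 : ∀ w : VD D, IsClosed {v : VD D | PD.NL (jj D v) o (jj D w) = (2 * H : ℂ) *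
        ⟪LT G.ω G.lam (1 / 4) (Γ w), G.Pw z (UV G.ω G.lam (Γ v)) (UW G.ω G.lam (Γ v))⟫_ℂ} := fun w =>
      isClosed_eq ((((PD.NL.continuous.comp (jj D).continuous).clm_apply continuous_const)).eval_const (jj D w))
        (continuous_const.mul (continuous_const.inner hP))
    refine isClosed_property (cuV_dense D) (c1 v) (fun φ => ?_) w
    refine isClosed_property (cuV_dense D) (c2 (cuV D φ)) (fun ψ => ?_) v
    show PD.NL (jj D (cuV D ψ)) o (jj D (cuV D φ)) = _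
    rw [ho, fo2_sm hΓ hB h hO hD hJ haa hae hae₁ he0 he he' hω ψ φ y, ← hz, inner_LT_Pw, fo2_hU, fo2_hW]
  rw [← hz, ← ho, key, inner_LT_Pw, fo2_hU, fo2_hW]

end

end

/-! ### cut-offs of block F -/

section
variable {D : Set ℂ}

private theorem fo2_ctc {a b a' b' : ℝ} (h1 : a < b) (h2 : b ≤ a') (h3 : a' < b') :
    ctC a' b' * ctC a b = ctC a b := by
  refine ci_ext fun z hz => ?_
  rw [ex_mul]
  unfold ctC
  rw [Pool.Agent.Lib.MP_79abb3_an.FW.ex_rc _ _ hz, Pool.Agent.Lib.MP_79abb3_an.FW.ex_rc _ _ hz]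
  by_cases h : z ≤ a'
  · rw [ctf_one h3 h, Complex.ofReal_one, one_mul]
  · rw [ctf_zero h1 (h2.trans (not_le.1 h).le), Complex.ofReal_zero, mul_zero]

private theorem fo2_d0 {a b z : ℝ} (h1 : a < b) (hz : b < z) : deriv (ctf a b) z = 0 ∧ deriv (deriv (ctf a b)) z = 0 := by
  have e : ctf a b =ᶠ[𝓝 z] fun _ => 0 := by
    filter_upwards [isOpen_Ioi.mem_nhds hz] with t ht using ctf_zero h1 (le_of_lt ht)
  have e1 : ∀ᶠ t in 𝓝 z, deriv (ctf a b) t = 0 := by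
    filter_upwards [e.eventually_nhds] with t ht
    rw [Filter.EventuallyEq.deriv_eq ht, deriv_const]
  refine ⟨e1.self_of_nhds, ?_⟩
  have e2 : deriv (ctf a b) =ᶠ[𝓝 z] fun _ => 0 := e1
  rw [e2.deriv_eq, deriv_const]

private theorem fo2_ctc1 {a b a' b' : ℝ} (h1 : a < b) (h2 : b ≤ a') (h3 : a' < b') :
    ctC a' b' * ctC1 a b = ctC1 a b := by
  refine ci_ext fun z hz => ?_
  rw [ex_mul]
  unfold ctC ctC1
  rw [Pool.Agent.Lib.MP_79abb3_an.FW.ex_rc _ _ hz, Pool.Agent.Lib.MP_79abb3_an.FW.ex_rc _ _ hz]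
  by_cases h : z ≤ a'
  · rw [ctf_one h3 h, Complex.ofReal_one, one_mul]
  · rw [(fo2_d0 h1 (lt_of_le_of_lt h2 (not_le.1 h))).1, Complex.ofReal_zero, mul_zero]

private theorem fo2_ctc2 {a b a' b' : ℝ} (h1 : a < b) (h2 : b ≤ a') (h3 : a' < b') :
    ctC a' b' * ctC2 a b = ctC2 a b := by
  refine ci_ext fun z hz => ?_
  rw [ex_mul]
  unfold ctC ctC2
  rw [Pool.Agent.Lib.MP_79abb3_an.FW.ex_rc _ _ hz, Pool.Agent.Lib.MP_79abb3_an.FW.ex_rc _ _ hz]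
  by_cases h : z ≤ a'
  · rw [ctf_one h3 h, Complex.ofReal_one, one_mul]
  · rw [(fo2_d0 h1 (lt_of_le_of_lt h2 (not_le.1 h))).2, Complex.ofReal_zero, mul_zero]

private theorem fo2_st (a b : ℝ) : star (ctC a b) = ctC a b := star_rc _ _
private theorem fo2_st1 (a b : ℝ) : star (ctC1 a b) = ctC1 a b := star_rc _ _
private theorem fo2_st2 (a b : ℝ) : star (ctC2 a b) = ctC2 a b := star_rc _ _

end

namespace FD
variable {D : Set ℂ} {F : FD D} {m : ℕ} {A A' : ℝ → ℝ} {b lam : ℝ} {v₀ : VD D} {v : ℝ → VD D} {mu mu' : ℝ → ℝ}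
  {p : Fin F.n → ℝ → HP}

private theorem fo2_J (j : Fin F.n) {e : ℝ} (he : e ≤ 15 * F.u) : IsJ Real.pi (F.X j) e (F.J j) :=
  ⟨(F.hJ j).py, (F.hJ j).pos, fun q h0 h1 => (F.hJ j).eq q h0 (h1.trans he)⟩

private theorem fo2_bm {f : ℂ → ℂ} (hf : Cc f) : ∃ c, Bm f c := by
  obtain ⟨C, hC⟩ := hf.smo.continuous.bounded_above_of_compact_support hf.cpt
  exact ⟨C, hf.smo.continuous.aestronglyMeasurable, hC⟩

private theorem fo2_mul {χ χ' : ℂ → ℂ} (hχ : CcR D χ) (h' : Smo χ') : (fun x => χ x * χ' x) ∈ AdmS D :=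
  ⟨hχ.cc.mul_smo h', (tsupport_mul_subset_left (f := χ) (g := χ')).trans hχ.supp⟩

private theorem fo2_adm0 (ϕ : AdmS D) {x : ℂ} (hx : x ∉ D) : (ϕ : ℂ → ℂ) x = 0 :=
  image_eq_zero_of_notMem_tsupport fun h => hx (ϕ.2.2 h)

private theorem fo2_bdry (j : Fin F.n) (y : ℝ) : F.X j (y, 0) ∉ D := by
  intro h
  have h4 := (F.hX j).bdry y
  rw [frontier, F.hD.op.interior_eq] at h4
  exact h4.2 h

/-- `B (χ θ) = B θ - Bp θ` -/
private theorem fo2_Bcc (j : Fin F.n) {e e' : ℝ} (h0 : 4 * F.u ≤ e) (h1 : e < e') (h2 : e' ≤ 14 * F.u)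
    {B : L2c →L[ℂ] HP} (hB : IsPB (F.X j) e e' (F.J j) B) (θ : XS D) :
    B (mm F.cc (θ : L2c)) = B (θ : L2c) - F.Bp j (θ : L2c) := by
  have hu := F.u0
  have cl : IsClosed {θ : XS D | B (mm F.cc (θ : L2c)) = B (θ : L2c) - F.Bp j (θ : L2c)} :=
    isClosed_eq (B.continuous.comp ((mm F.cc).continuous.comp continuous_subtype_val))
      ((B.continuous.comp continuous_subtype_val).sub ((F.Bp j).continuous.comp continuous_subtype_val))
  refine isClosed_property (clX_dense D) cl (fun ϕ => ?_) θ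
  obtain ⟨c0, b0⟩ := fo2_bm F.cc_cc.cc
  have hm := fo2_mul F.cc_cc ϕ.2.1.smo
  show B (mm F.cc (cl2 (ϕ : ℂ → ℂ))) = B (cl2 (ϕ : ℂ → ℂ)) - F.Bp j (cl2 (ϕ : ℂ → ℂ))
  have pJ : ∀ a b : ℝ, PY Real.pi fun q => ctf a b q.2 * F.J j q := fun a b =>
    (PY.of_z Real.pi (ctf_smooth a b)).mul (F.hJ j).py
  have p1 := PC.mulR (pJ e e') ((F.hX j).pc hm.1.smo)
  have p2 := PC.mulR (pJ e e') ((F.hX j).pc ϕ.2.1.smo)
  have p3 := PC.mulR (pJ (2 * F.u) (4 * F.u)) ((F.hX j).pc ϕ.2.1.smo)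
  rw [mm_cl2 b0 (ϕ.2.1.memLp 2), hB.eq _ hm.1, hB.eq _ ϕ.2.1, (F.hBp j).eq _ ϕ.2.1, ← fHc_sub p2 p3]
  refine fHc_congr p1 (p2.sub p3) fun q hq => ?_
  show ((ctf e e' q.2 * F.J j q : ℝ) : ℂ) * (F.cc (F.X j q) * (ϕ : ℂ → ℂ) (F.X j q)) =
    ((ctf e e' q.2 * F.J j q : ℝ) : ℂ) * (ϕ : ℂ → ℂ) (F.X j q) -
      ((ctf (2 * F.u) (4 * F.u) q.2 * F.J j q : ℝ) : ℂ) * (ϕ : ℂ → ℂ) (F.X j q)
  rcases hq.2.1.eq_or_lt with h3 | h3
  · have h4 : F.X j q = F.X j (q.1, 0) := by rw [h3]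
    rw [h4, fo2_adm0 ϕ (fo2_bdry j q.1)]
    ring
  · by_cases h4 : q.2 < 16 * F.u
    · rw [F.cc_X j q h3 h4]
      by_cases h5 : q.2 ≤ e
      · rw [ctf_one h1 h5]
        push_cast
        ring
      · rw [ctf_zero (by linarith : 2 * F.u < 4 * F.u) (h0.trans (not_le.1 h5).le)]
        push_cast
        ring
    · have h5 : 16 * F.u ≤ q.2 := not_lt.1 h4
      rw [ctf_zero h1 (by linarith), ctf_zero (by linarith : 2 * F.u < 4 * F.u) (by linarith)]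
      push_cast
      ring

private theorem fo2_gx (j : Fin F.n) (e e' : ℝ) (B : L2c →L[ℂ] HP) (φ : XS D) : F.gx j e e' B φ = B (φ : L2c) -
    ((2 : ℂ) • Ms (ctC1 e e') (Yz (F.G j).ω (F.La j (sx D (ja D φ)))) +
      Ms (ctC2 e e') (SC.EE (F.G j).ω (F.La j (sx D (ja D φ))))) := rfl

private theorem fo2_msgs (j : Fin F.n) (φ : XS D) :
    Ms (ctC (4 * F.u) (8 * F.u) * ctC (4 * F.u) (8 * F.u)) (F.gs j φ) = F.gs j φ := by
  have hu := F.u0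
  have e0 : ∀ x : HP, Ms (ctC (4 * F.u) (8 * F.u)) (Ms (ctC1 (2 * F.u) (4 * F.u)) x) =
      Ms (ctC1 (2 * F.u) (4 * F.u)) x := fun x => by
    rw [Ms_Ms, fo2_ctc1 (by linarith) le_rfl (by linarith)]
  have e1 : ∀ x : HP, Ms (ctC (4 * F.u) (8 * F.u)) (Ms (ctC2 (2 * F.u) (4 * F.u)) x) =
      Ms (ctC2 (2 * F.u) (4 * F.u)) x := fun x => by
    rw [Ms_Ms, fo2_ctc2 (by linarith) le_rfl (by linarith)]
  have e2 : Ms (ctC (4 * F.u) (8 * F.u)) (F.Bp j (φ : L2c)) = F.Bp j (φ : L2c) := by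
    refine (F.hBp j).supp (F.hX j) (fo2_J j (by linarith)) (by linarith) (by linarith) (by linarith) (fun z hz => ?_) _
    have hz' : z ∈ Icc (0:ℝ) Real.pi := ⟨hz.1, by linarith [hz.2, F.uπ]⟩
    unfold ctC
    rw [Pool.Agent.Lib.MP_79abb3_an.FW.ex_rc _ _ hz', ctf_one (by linarith) hz.2, Complex.ofReal_one]
  have e3 : Ms (ctC (4 * F.u) (8 * F.u)) (F.gs j φ) = F.gs j φ := by
    show Ms (ctC (4 * F.u) (8 * F.u)) (F.gx j (2 * F.u) (4 * F.u) (F.Bp j) φ) = F.gx j (2 * F.u) (4 * F.u) (F.Bp j) φ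
    rw [fo2_gx, map_sub, map_add, map_smul, e0, e1, e2]
  rw [← Ms_Ms, e3, e3]

private theorem fo2_key (j : Fin F.n) (z : HP) (x : Fin F.n → HP)
    (hx : Ms (ctC (4 * F.u) (8 * F.u) * ctC (4 * F.u) (8 * F.u)) (x j) = x j) :
    ∑ i, (2 * Real.pi : ℂ) * ⟪x i, SC.cm (F.G i).a (F.Be i ((2 * Real.pi : ℂ) •
      ContinuousLinearMap.adjoint (F.Be j) z))⟫_ℂ = (2 * Real.pi : ℂ) * ⟪x j, z⟫_ℂ := by
  have hu := F.u0
  rw [Finset.sum_eq_single j]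
  · have h1 := F.PB_adj j (by linarith) (by linarith : 4 * F.u < 8 * F.u) (by linarith)
      (by linarith) (by linarith : 4 * F.u < 8 * F.u) (by linarith) (F.hBe j) (F.hBe j) z
    rw [h1, Ms_Ms, (F.G j).cm_a_Ms_J]
    have h2 : star (ctC (4 * F.u) (8 * F.u) * ctC (4 * F.u) (8 * F.u)) =
        ctC (4 * F.u) (8 * F.u) * ctC (4 * F.u) (8 * F.u) := by
      rw [star_mul, fo2_st]
    have h3 := inner_Ms (ctC (4 * F.u) (8 * F.u) * ctC (4 * F.u) (8 * F.u)) (x j) z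
    rw [h2, hx] at h3
    rw [h3]
  · intro i _ hij
    have h1 := F.PB_dis hij (by linarith) (by linarith : 4 * F.u < 8 * F.u) (by linarith)
      (by linarith) (by linarith : 4 * F.u < 8 * F.u) (by linarith) (F.hBe i) (F.hBe j) z
    rw [map_smul, h1, smul_zero, map_zero, inner_zero_right, mul_zero]
  · intro h
    exact absurd (Finset.mem_univ j) h

private theorem fo2_Bv (j : Fin F.n) (φ : XS D) : F.Be j (F.Vc φ : L2c) = F.Be j (φ : L2c) - F.gs j φ := by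
  have hpi : (2 * Real.pi : ℂ) ≠ 0 := by
    have : (Real.pi : ℂ) ≠ 0 := Complex.ofReal_ne_zero.2 Real.pi_ne_zero
    simp [this]
  refine ext_inner_right ℂ fun z => ?_
  have h1 := F.diff_id φ ((2 * Real.pi : ℂ) • ContinuousLinearMap.adjoint (F.Be j) z)
  rw [fo2_key j z (fun i => F.gs i φ) (fo2_msgs j φ), inner_smul_right, inner_smul_right,
    ContinuousLinearMap.adjoint_inner_right, ContinuousLinearMap.adjoint_inner_right] at h1
  rw [inner_sub_left]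
  have h2 : (2 * Real.pi : ℂ) * ⟪F.Be j (φ : L2c), z⟫_ℂ =
      (2 * Real.pi : ℂ) * (⟪F.Be j (F.Vc φ : L2c), z⟫_ℂ + ⟪F.gs j φ, z⟫_ℂ) := by
    rw [h1]; ring
  rw [mul_left_cancel₀ hpi h2]
  ring

private theorem fo2_wg : ∃ c, Wg F.cc c := by
  obtain ⟨c0, b0⟩ := fo2_bm F.cc_cc.cc
  obtain ⟨c1, b1⟩ := fo2_bm F.cc_cc.cc.px
  obtain ⟨c2, b2⟩ := fo2_bm F.cc_cc.cc.py
  obtain ⟨c3, b3⟩ := fo2_bm F.cc_cc.cc.lap
  exact ⟨max (max c0 c1) (max c2 c3), F.cc_cc.cc.smo, F.cc_cc.real, fun x =>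
    ⟨(b0.2 x).trans ((le_max_left _ _).trans (le_max_left _ _)),
      (b1.2 x).trans ((le_max_right _ _).trans (le_max_left _ _)),
      (b2.2 x).trans ((le_max_left _ _).trans (le_max_right _ _)),
      (b3.2 x).trans ((le_max_right _ _).trans (le_max_right _ _))⟩⟩

private theorem fo2_pxm {f g : ℂ → ℂ} (hf : Smo f) (hg : Smo g) :
    px (fun x => f x * g x) = fun x => f x * px g x + px f x * g x := by
  funext x
  unfold px
  rw [fderiv_fun_mul (hf.differentiable x) (hg.differentiable x)]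
  simp only [_root_.add_apply, _root_.smul_apply, smul_eq_mul]
  ring

private theorem fo2_pym {f g : ℂ → ℂ} (hf : Smo f) (hg : Smo g) :
    py (fun x => f x * g x) = fun x => f x * py g x + py f x * g x := by
  funext x
  unfold py
  rw [fderiv_fun_mul (hf.differentiable x) (hg.differentiable x)]
  simp only [_root_.add_apply, _root_.smul_apply, smul_eq_mul]
  ring

/-- `iot (V φ) = gp (χ θ)` -/
private theorem fo2_iot {c : ℝ} (hM : Wg F.cc c) (φ : XS D) :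
    iot D (F.Vc φ) = sx D (mS F.hD.bdd hM (ja D φ)) := by
  obtain ⟨c0, b0⟩ := fo2_bm F.cc_cc.cc
  obtain ⟨c1, b1⟩ := fo2_bm F.cc_cc.cc.px
  obtain ⟨c2, b2⟩ := fo2_bm F.cc_cc.cc.py
  have k1 : Continuous fun q : SV D => (q : Y2).fst := by fun_prop
  have k2 : Continuous fun q : SV D => (q : Y2).snd := by fun_prop
  have k3 : Continuous fun q : SV D => ((js D q : XS D) : L2c) := by fun_prop
  have k4 : Continuous fun q : SV D => mS F.hD.bdd hM q := (mS F.hD.bdd hM).continuous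
  have key : ∀ q : SV D, (mS F.hD.bdd hM q : Y2).fst = mm F.cc (q : Y2).fst + mm (py F.cc) ((js D q : XS D) : L2c) ∧
      (mS F.hD.bdd hM q : Y2).snd = mm F.cc (q : Y2).snd - mm (px F.cc) ((js D q : XS D) : L2c) := by
    intro q
    have cl : IsClosed {q : SV D | (mS F.hD.bdd hM q : Y2).fst = mm F.cc (q : Y2).fst +
        mm (py F.cc) ((js D q : XS D) : L2c) ∧
        (mS F.hD.bdd hM q : Y2).snd = mm F.cc (q : Y2).snd - mm (px F.cc) ((js D q : XS D) : L2c)} :=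
      (isClosed_eq (k1.comp k4) (((mm F.cc).continuous.comp k1).add ((mm (py F.cc)).continuous.comp k3))).inter
        (isClosed_eq (k2.comp k4) (((mm F.cc).continuous.comp k2).sub ((mm (px F.cc)).continuous.comp k3)))
    refine isClosed_property (gpV_dense D) cl (fun ϕ => ?_) q
    show (mS F.hD.bdd hM (gpV D ϕ) : Y2).fst = mm F.cc (gpV D ϕ : Y2).fst +
        mm (py F.cc) ((js D (gpV D ϕ) : XS D) : L2c) ∧
        (mS F.hD.bdd hM (gpV D ϕ) : Y2).snd = mm F.cc (gpV D ϕ : Y2).snd -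
          mm (px F.cc) ((js D (gpV D ϕ) : XS D) : L2c)
    rw [mS_gpV, js_gpV F.hD.bdd, clX_coe]
    have m1 := F.cc_cc.cc.mul_smo ϕ.2.1.py.smo
    have m2 := F.cc_cc.cc.py.mul_smo ϕ.2.1.smo
    have m3 := F.cc_cc.cc.mul_smo ϕ.2.1.px.smo
    have m4 := F.cc_cc.cc.px.mul_smo ϕ.2.1.smo
    constructor
    · show cl2 (py fun x => F.cc x * (ϕ : ℂ → ℂ) x) = mm F.cc (cl2 (py (ϕ : ℂ → ℂ))) + mm (py F.cc) (cl2 (ϕ : ℂ → ℂ))
      rw [mm_cl2 b0 (ϕ.2.1.py.memLp 2), mm_cl2 b2 (ϕ.2.1.memLp 2), fo2_pym F.cc_cc.cc.smo ϕ.2.1.smo,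
        cl2_add (m1.memLp 2) (m2.memLp 2)]
    · show -cl2 (px fun x => F.cc x * (ϕ : ℂ → ℂ) x) = mm F.cc (-cl2 (px (ϕ : ℂ → ℂ))) - mm (px F.cc) (cl2 (ϕ : ℂ → ℂ))
      rw [map_neg, mm_cl2 b0 (ϕ.2.1.px.memLp 2), mm_cl2 b1 (ϕ.2.1.memLp 2), fo2_pxm F.cc_cc.cc.smo ϕ.2.1.smo,
        cl2_add (m3.memLp 2) (m4.memLp 2)]
      abel
  apply Subtype.ext
  rw [sx_coe]
  apply (WithLp.equiv 2 (L2c × L2c)).injective
  exact Prod.ext ((F.hVc.fs φ).trans (key _).1.symm) ((F.hVc.sn φ).trans (key _).2.symm)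

private theorem fo2_La (j : Fin F.n) (φ : XS D) :
    SC.TT (F.G j).ω (F.Ga j (F.Vc φ)) = F.La j (sx D (ja D φ)) - F.Lp j (sx D (ja D φ)) := by
  have hu := F.u0
  obtain ⟨c, hM⟩ := fo2_wg (F := F)
  have h1 : SC.TT (F.G j).ω (F.Ga j (F.Vc φ)) = F.La j (iot D (F.Vc φ)) := by
    rw [(F.G j).hω]
    exact (F.hGa j).TT (F.hLa j) (F.hX j) F.hD.op F.hD.bdd (by linarith) (by linarith) (by linarith) _
  rw [h1, fo2_iot hM φ, ← sub_eq_zero]
  apply EE_injective (F.G j).ω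
  have e1 := F.EE_La j (by linarith) (by linarith) le_rfl (F.hLa j) (F.hBz j) (mS F.hD.bdd hM (ja D φ))
  have e2 := F.EE_La j (by linarith) (by linarith) le_rfl (F.hLa j) (F.hBz j) (ja D φ)
  have e3 := F.EE_La j (by linarith) (by linarith) (by linarith) (F.hLp j) (F.hBp j) (ja D φ)
  rw [map_sub, map_sub, e1, e2, e3, js_mS, fo2_Bcc j (by linarith) (by linarith) le_rfl (F.hBz j), map_sub]
  abel

/-- Pairing of the stream function `χ θ` with `Be†`: `Be (χ θ) = J (η - η⁺) θ_s = J E T (ge φ - gs φ)` (`TT_ge`, `TT_gs`, `EE_La`). -/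
theorem pair_int (φ : XS D) (j : Fin F.n) (g : HP) :
    (2 * Real.pi : ℂ) * ⟪str D (iot D (F.Vc φ)), ContinuousLinearMap.adjoint (F.Be j) (SC.cm (F.G j).a g)⟫_ℂ =
      (2 * Real.pi : ℂ) * ⟪SC.TT (F.G j).ω (F.ge j φ - F.gs j φ), SC.TT (F.G j).ω g⟫_ℂ := by
  have hu := F.u0
  congr 1
  rw [F.hVc.st, ContinuousLinearMap.adjoint_inner_right, fo2_Bcc j le_rfl (by linarith) (by linarith) (F.hBe j),
    map_sub, F.TT_ge, F.TT_gs]
  have e1 := F.EE_La j (by linarith) (by linarith) (by linarith) (F.hLe j) (F.hBe j) (ja D φ)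
  have e2 := F.EE_La j (by linarith) (by linarith) (by linarith) (F.hLp j) (F.hBp j) (ja D φ)
  have hJi : PY Real.pi fun q => (F.J j q)⁻¹ := by
    have := (PY.const Real.pi 1).div (F.hJ j).py (fun p => ((F.hJ j).pos p).ne')
    simpa only [one_div] using this
  rw [Geo.inner_TT', map_sub, e1, e2, ← map_sub, (F.G_a j), inner_cm_fam hJi]

/-- Diffusion: `⟨V φ, Be† (a g)⟩_j = ⟨ge φ - gs φ, a g⟩ + ⟨2 η' θ_z + η'' θ, a g⟩`, `η' , η''` live where `χ = 1`: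
`Be (V φ) = J η (-Δ(χ θ))∘X = η (-Δ_s)((1 - η⁺) θ_s)`. (From `IsVx.vo`, `gx`, `La`-formulas; density is not needed: `Be` of the three
terms of `IsVx.vo`; `Be (mm (py χ) q.fst - mm (px χ) q.snd) = η χ_z θ_z` by density in `q`.) -/
theorem pair_dif (φ : XS D) (j : Fin F.n) (g : HP) :
    ⟪F.Be j (F.Vc φ : L2c), SC.cm (F.G j).a g⟫_ℂ =
      ⟪F.ge j φ - F.gs j φ, SC.cm (F.G j).a g⟫_ℂ +
      2 * ⟪Yz (F.G j).ω (F.La j (sx D (ja D φ))), Ms (ctC1 (4 * F.u) (8 * F.u)) (SC.cm (F.G j).a g)⟫_ℂ +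
      ⟪SC.EE (F.G j).ω (F.La j (sx D (ja D φ))), Ms (ctC2 (4 * F.u) (8 * F.u)) (SC.cm (F.G j).a g)⟫_ℂ := by
  have h1 : F.Be j (F.Vc φ : L2c) = (F.ge j φ - F.gs j φ) +
      ((2 : ℂ) • Ms (ctC1 (4 * F.u) (8 * F.u)) (Yz (F.G j).ω (F.La j (sx D (ja D φ)))) +
      Ms (ctC2 (4 * F.u) (8 * F.u)) (SC.EE (F.G j).ω (F.La j (sx D (ja D φ))))) := by
    rw [fo2_Bv]
    have h2 : F.ge j φ = F.gx j (4 * F.u) (8 * F.u) (F.Be j) φ := rfl
    rw [h2, fo2_gx]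
    abel
  rw [h1, inner_add_left, inner_add_left, inner_smul_left, inner_Ms, inner_Ms, fo2_st1, fo2_st2, Complex.conj_ofNat]
  ring

/-- Transport: `NL v (2π Be† (a g)) (V φ) = 2π (b(ζ a g, u; T (ge φ - gs φ)) - dp (η' θ) (a g w))`. By density in `w = V φ`: for
`w ∈ VD D` arbitrary: `NL (jj v) (2π Be† y) (jj w) = 2π dp-form of (η y) with the modes of str iot w` (`Ga`, `La`: velocity
`(uV, wV)(T Ga w)`: `∂_z ψ = uV`, `-∂_y ψ = wV`), then the product rule for `η (χ θ)_s = E T (ge φ - gs φ)`, `η' χ = η'`. -/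
theorem pair_NL (φ : XS D) (j : Fin F.n) (v : VD D) (g : HP) :
    PD.NL (jj D v) ((2 * Real.pi : ℂ) • ContinuousLinearMap.adjoint (F.Be j) (SC.cm (F.G j).a g)) (jj D (F.Vc φ)) =
      (2 * Real.pi : ℂ) * (bf (F.G j).ω (⇑(Ms (F.G j).ζ (SC.cm (F.G j).a g)))
        (uV (F.G j).ω (Vf (F.G j).ω (⇑(F.Ga j v)))) (wV (F.G j).ω (Vf (F.G j).ω (⇑(F.Ga j v))))
        (⇑(SC.TT (F.G j).ω (F.ge j φ - F.gs j φ))) -
      dp (⇑(Ms (ctC1 (4 * F.u) (8 * F.u)) (SC.EE (F.G j).ω (F.La j (sx D (ja D φ))))))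
        (pz (⇑(SC.cm (F.G j).a g)) (wV (F.G j).ω (Vf (F.G j).ω (⇑(F.Ga j v)))))) := by
  have hu := F.u0
  have hpi := F.uπ
  obtain ⟨y, hy⟩ : ∃ y : HP, y = SC.cm (F.G j).a g := ⟨_, rfl⟩
  have A := fo2_A (F.hGa j) (F.hBe j) (F.hX j) F.hD.op F.hD.bdd (F.hJ j) (by linarith) (by linarith)
    (by linarith) (by linarith) (by linarith) (by linarith) (G := F.G j) (F.G j).hω v (F.Vc φ) y
  rw [← hy, A, fo2_La j φ]
  congr 1
  have hc : Pool.Agent.Lib.MP_79abb3_an.FW.rc (ctf (4 * F.u) (8 * F.u)) (ctf_smooth (4 * F.u) (8 * F.u)).continuous =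
    ctC (4 * F.u) (8 * F.u) := rfl
  obtain ⟨su, sw⟩ := (F.G j).S2_huv (F.Ga j v)
  have hT : SC.TT (F.G j).ω (F.ge j φ - F.gs j φ) = F.Le j (sx D (ja D φ)) - F.Lp j (sx D (ja D φ)) := by
    rw [map_sub, F.TT_ge, F.TT_gs]
  obtain ⟨-, z1, y1⟩ := F.EE_cut j (by linarith) (by linarith) (by linarith) (F.hLe j) (ja D φ)
  obtain ⟨-, z2, y2⟩ := F.EE_cut j (by linarith) (by linarith) (by linarith) (F.hLp j) (ja D φ)
  have c1 : ∀ x : HP, Ms (ctC (4 * F.u) (8 * F.u)) (Ms (ctC (2 * F.u) (4 * F.u)) x) =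
      Ms (ctC (2 * F.u) (4 * F.u)) x := fun x => by rw [Ms_Ms, fo2_ctc (by linarith) le_rfl (by linarith)]
  have c2 : ∀ x : HP, Ms (ctC (4 * F.u) (8 * F.u)) (Ms (ctC1 (2 * F.u) (4 * F.u)) x) =
      Ms (ctC1 (2 * F.u) (4 * F.u)) x := fun x => by rw [Ms_Ms, fo2_ctc1 (by linarith) le_rfl (by linarith)]
  have c3 : ∀ x : HP, Ms (F.G j).ζ (Ms (ctC (2 * F.u) (4 * F.u)) x) = Ms (ctC (2 * F.u) (4 * F.u)) x := fun x => by
    rw [F.G_ζ j, Ms_Ms, fo2_ctc (by linarith) (by linarith) (by linarith)]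
  have c4 : ∀ x : HP, Ms (F.G j).ζ (Ms (ctC1 (2 * F.u) (4 * F.u)) x) = Ms (ctC1 (2 * F.u) (4 * F.u)) x := fun x => by
    rw [F.G_ζ j, Ms_Ms, fo2_ctc1 (by linarith) (by linarith) (by linarith)]
  have c5 : ∀ x : HP, Ms (F.G j).ζ (Ms (ctC (4 * F.u) (8 * F.u)) x) = Ms (ctC (4 * F.u) (8 * F.u)) x := fun x => by
    rw [F.G_ζ j, Ms_Ms, fo2_ctc (by linarith) (by linarith) (by linarith)]
  have c6 : ∀ x : HP, Ms (F.G j).ζ (Ms (ctC1 (4 * F.u) (8 * F.u)) x) = Ms (ctC1 (4 * F.u) (8 * F.u)) x := fun x => by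
    rw [F.G_ζ j, Ms_Ms, fo2_ctc1 (by linarith) (by linarith) (by linarith)]
  have E1 : Ms (ctC (4 * F.u) (8 * F.u)) (Yz (F.G j).ω (F.La j (sx D (ja D φ)) - F.Lp j (sx D (ja D φ)))) =
      Yz (F.G j).ω (SC.TT (F.G j).ω (F.ge j φ - F.gs j φ)) -
        Ms (ctC1 (4 * F.u) (8 * F.u)) (SC.EE (F.G j).ω (F.La j (sx D (ja D φ)))) := by
    rw [hT, map_sub, map_sub, map_sub, z1, z2, map_add, c1, c2]
    abel
  have E2 : Ms (ctC (4 * F.u) (8 * F.u)) (Yy (F.G j).ω (F.La j (sx D (ja D φ)) - F.Lp j (sx D (ja D φ)))) =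
      Yy (F.G j).ω (SC.TT (F.G j).ω (F.ge j φ - F.gs j φ)) := by
    rw [hT, map_sub, map_sub, map_sub, y1, y2, c1]
  have E3 : Ms (F.G j).ζ (Yz (F.G j).ω (SC.TT (F.G j).ω (F.ge j φ - F.gs j φ))) =
      Yz (F.G j).ω (SC.TT (F.G j).ω (F.ge j φ - F.gs j φ)) := by
    rw [hT, map_sub, map_sub, z1, z2, map_add, map_add, c3, c4, c5, c6]
  have E4 : Ms (F.G j).ζ (Yy (F.G j).ω (SC.TT (F.G j).ω (F.ge j φ - F.gs j φ))) =
      Yy (F.G j).ω (SC.TT (F.G j).ω (F.ge j φ - F.gs j φ)) := by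
    rw [hT, map_sub, map_sub, y1, y2, c3, c5]
  rw [hc, (F.G j).bf_eq, (F.G j).bf_eq, fo2_move (F.G j) (fo2_st _ _) _ y sw, fo2_move (F.G j) (fo2_st _ _) _ y su,
    fo2_move (F.G j) (F.G j).ζ_real _ y sw, fo2_move (F.G j) (F.G j).ζ_real _ y su, E1, E2, E3, E4]
  have s1 := (fo2_s1 (F.G j) y (F.ge j φ - F.gs j φ) (UW (F.G j).ω (F.G j).lam (F.Ga j v))).1
  have s2 := fo2_s2 (F.G j) (fo2_st1 (4 * F.u) (8 * F.u)) y (F.La j (sx D (ja D φ)))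
    (UW (F.G j).ω (F.G j).lam (F.Ga j v))
  rw [fo2_hW] at s1 s2
  rw [fo2_dsub s1 s2]
  ring

/-- `d` vanishes in the strips: `⟨d χ θ, o⟩ = ⟨d θ, o⟩` (`χ = 1` on `tsupport d`) and `⟨d χ θ, Be† y⟩ = 0`. -/
theorem pair_d (φ : XS D) (o : L2c) : ⟪mm F.d (mm F.cc ((js D (ja D φ) : XS D) : L2c)), o⟫_ℂ =
    ⟪mm F.d ((js D (ja D φ) : XS D) : L2c), o⟫_ℂ := by
  obtain ⟨c0, b0⟩ := fo2_bm F.cc_cc.cc
  obtain ⟨c1, b1⟩ := fo2_bm F.hd.cc
  congr 1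
  refine Lp.ext ?_
  filter_upwards [mm_coe b1 (mm F.cc ((js D (ja D φ) : XS D) : L2c)), mm_coe b0 ((js D (ja D φ) : XS D) : L2c),
    mm_coe b1 ((js D (ja D φ) : XS D) : L2c)] with x h1 h2 h3
  rw [h1, h2, h3]
  by_cases hx : F.t ≤ dist x F.x
  · rw [F.d0 x hx, zero_mul, zero_mul]
  · have h4 : F.cc x = 1 := by
      refine F.cc_1 x (F.fl.ball (Metric.mem_closedBall.2 (not_le.1 hx).le)) fun j => ?_
      rintro ⟨q, ⟨q0, q1⟩, rfl⟩
      exact hx (F.X_away j q0 (by linarith [F.u0])).le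
    rw [h4, one_mul]

private theorem feo2_NL_cont {v1 : ℝ → VD D} {o1 : ℝ → L2c} {b1 : ℝ} (h1 : ContinuousOn v1 (Icc 0 b1))
    (h2 : ContinuousOn o1 (Icc 0 b1)) (w : VD D) :
    ContinuousOn (fun r => PD.NL (jj D (v1 r)) (o1 r) (jj D w)) (Icc 0 b1) := by
  have h3 : ContinuousOn (fun r => PD.NL (jj D (v1 r)) (o1 r)) (Icc 0 b1) :=
    (PD.NL.continuous.comp_continuousOn ((jj D).continuous.comp_continuousOn h1)).clm_apply h2
  exact (ContinuousLinearMap.apply' ℂ (starRingEnd ℂ) (jj D w)).continuous.comp_continuousOn h3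

/-- the integrand of the total flow -/
private noncomputable def fU (F : FD D) (m : ℕ) (lam : ℝ) (A : ℝ → ℝ) (v : ℝ → VD D) (mu : ℝ → ℝ) (φ : XS D)
    (r : ℝ) : ℂ :=
  -⟪(F.Vc φ : L2c), vt (F.c0 m) F.β A v mu r⟫_ℂ +
    PD.NL (jj D (v r)) (vt (F.c0 m) F.β A v mu r) (jj D (F.Vc φ)) -
    lam * ⟪mm F.d (str D (iot D (F.Vc φ))), vt (F.c0 m) F.β A v mu r⟫_ℂ

private theorem feo2_fU_cont (st : F.Fst m lam A A' b v₀ v mu mu' p) (φ : XS D) :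
    ContinuousOn (fU F m lam A v mu φ) (Icc 0 b) := by
  have h1 := vt_cont st.U st.contA
  unfold fU
  exact ((continuousOn_const.inner h1).neg.add (feo2_NL_cont st.U.cv h1 (F.Vc φ))).sub
    (continuousOn_const.mul (continuousOn_const.inner h1))

private theorem feo2_mm_d (x y : L2c) : ⟪mm F.d x, y⟫_ℂ = ⟪x, mm F.d y⟫_ℂ := by
  obtain ⟨c, hc⟩ := F.hd.cc.cpt.exists_bound_of_continuous F.hd.cc.smo.continuous
  have hb : Bm F.d c := ⟨F.hd.cc.smo.continuous.aestronglyMeasurable, hc⟩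
  rw [PD.mm_inner hb, show (fun x => conj (F.d x)) = F.d from funext F.hd.real]

/-- the integrand of the interior part -/
private noncomputable def fI (F : FD D) (m : ℕ) (lam : ℝ) (A : ℝ → ℝ) (v : ℝ → VD D) (mu : ℝ → ℝ)
    (p : Fin F.n → ℝ → HP) (φ : XS D) (r : ℝ) : ℂ :=
      (-⟪(F.Vc φ : L2c), F.ov m A v mu p r⟫_ℂ + PD.NL (jj D (v r)) (F.ov m A v mu p r) (jj D (F.Vc φ)) -
        lam * ⟪mm F.d ((js D (ja D φ) : XS D) : L2c), F.ov m A v mu p r⟫_ℂ +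
        ∑ j, (2 * Real.pi : ℂ) * (⟪SC.TT (F.G j).ω (F.ge j φ - F.gs j φ),
            Ms (F.kp m j (A r)) (SC.TT (F.G j).ω (F.gg m A v p j r))⟫_ℂ -
          (2 * ⟪Yz (F.G j).ω (F.La j (sx D (ja D φ))),
              Ms (ctC1 (4 * F.u) (8 * F.u)) (SC.cm (F.G j).a (F.gg m A v p j r))⟫_ℂ +
            ⟪SC.EE (F.G j).ω (F.La j (sx D (ja D φ))),
              Ms (ctC2 (4 * F.u) (8 * F.u)) (SC.cm (F.G j).a (F.gg m A v p j r))⟫_ℂ +
            dp (⇑(Ms (ctC1 (4 * F.u) (8 * F.u)) (SC.EE (F.G j).ω (F.La j (sx D (ja D φ))))))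
              (pz (⇑(SC.cm (F.G j).a (F.gg m A v p j r)))
                (wV (F.G j).ω (Vf (F.G j).ω (⇑(F.Ga j (v r)))))))))

private theorem feo2_fI_eq (φ : XS D) (r : ℝ) : fI F m lam A v mu p φ r = fU F m lam A v mu φ r -
    ∑ j, (2 * Real.pi : ℂ) * rV (F.G j) (F.sd m A v j) r (F.gg m A v p j r) (F.ge j φ - F.gs j φ) := by
  have e0 : vt (F.c0 m) F.β A v mu r = F.ov m A v mu p r +
      ∑ j, (2 * Real.pi : ℂ) • ContinuousLinearMap.adjoint (F.Be j) (SC.cm (F.G j).a (F.gg m A v p j r)) := by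
    show _ = F.oo _ _ + _
    unfold FD.oo
    rw [sub_add_cancel]
  have e1 : ⟪(F.Vc φ : L2c), vt (F.c0 m) F.β A v mu r⟫_ℂ = ⟪(F.Vc φ : L2c), F.ov m A v mu p r⟫_ℂ +
      ∑ j, (2 * Real.pi : ℂ) * ⟪F.Be j (F.Vc φ : L2c), SC.cm (F.G j).a (F.gg m A v p j r)⟫_ℂ := by
    rw [e0, inner_add_right, inner_sum]
    congr 1
    refine Finset.sum_congr rfl fun j _ => ?_
    rw [inner_smul_right, ContinuousLinearMap.adjoint_inner_right]
  have e2 : PD.NL (jj D (v r)) (vt (F.c0 m) F.β A v mu r) (jj D (F.Vc φ)) =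
      PD.NL (jj D (v r)) (F.ov m A v mu p r) (jj D (F.Vc φ)) +
      ∑ j, PD.NL (jj D (v r)) ((2 * Real.pi : ℂ) • ContinuousLinearMap.adjoint (F.Be j)
        (SC.cm (F.G j).a (F.gg m A v p j r))) (jj D (F.Vc φ)) := by
    rw [e0, map_add, map_sum]
    show _ + (∑ j, PD.NL (jj D (v r)) ((2 * Real.pi : ℂ) • ContinuousLinearMap.adjoint (F.Be j)
        (SC.cm (F.G j).a (F.gg m A v p j r)))) (jj D (F.Vc φ)) = _
    rw [sum_apply]
    rfl
  have e3 : ⟪mm F.d (str D (iot D (F.Vc φ))), vt (F.c0 m) F.β A v mu r⟫_ℂ =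
      ⟪mm F.d ((js D (ja D φ) : XS D) : L2c), F.ov m A v mu p r⟫_ℂ := by
    rw [e0, inner_add_right, inner_sum]
    have z : ∀ j, ⟪mm F.d (str D (iot D (F.Vc φ))), (2 * Real.pi : ℂ) • ContinuousLinearMap.adjoint (F.Be j)
        (SC.cm (F.G j).a (F.gg m A v p j r))⟫_ℂ = 0 := by
      intro j
      rw [inner_smul_right, feo2_mm_d, (F.Be_adj_mem j _).2, inner_zero_right, mul_zero]
    simp only [z, Finset.sum_const_zero, add_zero]
    rw [F.hVc.st φ, pair_d]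
  unfold fI fU
  rw [e1, e2, e3]
  have e4 : ∀ j, PD.NL (jj D (v r)) ((2 * Real.pi : ℂ) • ContinuousLinearMap.adjoint (F.Be j)
        (SC.cm (F.G j).a (F.gg m A v p j r))) (jj D (F.Vc φ)) =
      (2 * Real.pi : ℂ) * (rV (F.G j) (F.sd m A v j) r (F.gg m A v p j r) (F.ge j φ - F.gs j φ) +
        ⟪F.ge j φ - F.gs j φ, SC.cm (F.G j).a (F.gg m A v p j r)⟫_ℂ +
        ⟪SC.TT (F.G j).ω (F.ge j φ - F.gs j φ),
          Ms (F.kp m j (A r)) (SC.TT (F.G j).ω (F.gg m A v p j r))⟫_ℂ -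
        dp (⇑(Ms (ctC1 (4 * F.u) (8 * F.u)) (SC.EE (F.G j).ω (F.La j (sx D (ja D φ))))))
              (pz (⇑(SC.cm (F.G j).a (F.gg m A v p j r)))
                (wV (F.G j).ω (Vf (F.G j).ω (⇑(F.Ga j (v r))))))) := by
    intro j
    rw [pair_NL]
    congr 1
    have h1 : rV (F.G j) (F.sd m A v j) r (F.gg m A v p j r) (F.ge j φ - F.gs j φ) =
        -⟪F.ge j φ - F.gs j φ, SC.cm (F.G j).a (F.gg m A v p j r)⟫_ℂ +
        bf (F.G j).ω (⇑(Ms (F.G j).ζ (SC.cm (F.G j).a (F.gg m A v p j r))))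
          (uV (F.G j).ω (Vf (F.G j).ω (⇑(F.Ga j (v r))))) (wV (F.G j).ω (Vf (F.G j).ω (⇑(F.Ga j (v r)))))
          (⇑(SC.TT (F.G j).ω (F.ge j φ - F.gs j φ))) -
        ⟪SC.TT (F.G j).ω (F.ge j φ - F.gs j φ),
          Ms (F.kp m j (A r)) (SC.TT (F.G j).ω (F.gg m A v p j r))⟫_ℂ := by
      unfold rV
      rw [hf_ve, hf_we]
      rfl
    rw [h1]
    ring
  have e5 : (∑ j, (2 * Real.pi : ℂ) * (⟪SC.TT (F.G j).ω (F.ge j φ - F.gs j φ),
            Ms (F.kp m j (A r)) (SC.TT (F.G j).ω (F.gg m A v p j r))⟫_ℂ -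
          (2 * ⟪Yz (F.G j).ω (F.La j (sx D (ja D φ))),
              Ms (ctC1 (4 * F.u) (8 * F.u)) (SC.cm (F.G j).a (F.gg m A v p j r))⟫_ℂ +
            ⟪SC.EE (F.G j).ω (F.La j (sx D (ja D φ))),
              Ms (ctC2 (4 * F.u) (8 * F.u)) (SC.cm (F.G j).a (F.gg m A v p j r))⟫_ℂ +
            dp (⇑(Ms (ctC1 (4 * F.u) (8 * F.u)) (SC.EE (F.G j).ω (F.La j (sx D (ja D φ))))))
              (pz (⇑(SC.cm (F.G j).a (F.gg m A v p j r)))
                (wV (F.G j).ω (Vf (F.G j).ω (⇑(F.Ga j (v r))))))))) =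
      -(∑ j, (2 * Real.pi : ℂ) * ⟪F.Be j (F.Vc φ : L2c), SC.cm (F.G j).a (F.gg m A v p j r)⟫_ℂ) +
      (∑ j, PD.NL (jj D (v r)) ((2 * Real.pi : ℂ) • ContinuousLinearMap.adjoint (F.Be j)
        (SC.cm (F.G j).a (F.gg m A v p j r))) (jj D (F.Vc φ))) -
      ∑ j, (2 * Real.pi : ℂ) * rV (F.G j) (F.sd m A v j) r (F.gg m A v p j r) (F.ge j φ - F.gs j φ) := by
    rw [← Finset.sum_neg_distrib, ← Finset.sum_add_distrib, ← Finset.sum_sub_distrib]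
    refine Finset.sum_congr rfl fun j _ => ?_
    rw [e4, pair_dif]
    ring
  rw [e5]
  ring

private theorem feo2_fI_cont (st : F.Fst m lam A A' b v₀ v mu mu' p) (φ : XS D) :
    ContinuousOn (fI F m lam A v mu p φ) (Icc 0 b) := by
  have h1 : ContinuousOn (fun r => fU F m lam A v mu φ r - ∑ j, (2 * Real.pi : ℂ) *
      rV (F.G j) (F.sd m A v j) r (F.gg m A v p j r) (F.ge j φ - F.gs j φ)) (Icc 0 b) := by
    refine (feo2_fU_cont st φ).sub (continuousOn_finsetSum _ fun j _ => continuousOn_const.mul ?_)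
    exact rV_contOn (F.G j) (F.sd_cont j st.U.cv st.contA) (st.contg j) _
  exact h1.congr fun r _ => feo2_fI_eq φ r

private theorem feo2_fS_cont (st : F.Fst m lam A A' b v₀ v mu mu' p) (φ : XS D) (j : Fin F.n) :
    ContinuousOn (fun r => rP (F.G j) (F.sd m A v j) r (p j r) (F.gs j φ)) (Icc 0 b) :=
  rP_contOn (F.G j) (F.sd_cont j st.U.cv st.contA) (st.P j).cont _

/-- **Interior part**: `USys.eqV` with `w = Vc φ` minus `∑ 2π V_eq` with `ge φ - gs φ` (`PP_ge_gs`); `pair_int`, `pair_dif`,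
`pair_NL`, `pair_d`, `rV` (`hf_UV`, `hf_UW`). -/
theorem Fst.int_eq (st : F.Fst m lam A A' b v₀ v mu mu' p) (φ : XS D) {s t : ℝ} (hs : 0 ≤ s) (hst : s ≤ t)
    (ht : t ≤ b) :
    ⟪mm F.cc ((js D (ja D φ) : XS D) : L2c), F.ov m A v mu p t⟫_ℂ -
      ⟪mm F.cc ((js D (ja D φ) : XS D) : L2c), F.ov m A v mu p s⟫_ℂ = ∫ r in s..t,
      (-⟪(F.Vc φ : L2c), F.ov m A v mu p r⟫_ℂ + PD.NL (jj D (v r)) (F.ov m A v mu p r) (jj D (F.Vc φ)) -
        lam * ⟪mm F.d ((js D (ja D φ) : XS D) : L2c), F.ov m A v mu p r⟫_ℂ +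
        ∑ j, (2 * Real.pi : ℂ) * (⟪SC.TT (F.G j).ω (F.ge j φ - F.gs j φ),
            Ms (F.kp m j (A r)) (SC.TT (F.G j).ω (F.gg m A v p j r))⟫_ℂ -
          (2 * ⟪Yz (F.G j).ω (F.La j (sx D (ja D φ))),
              Ms (ctC1 (4 * F.u) (8 * F.u)) (SC.cm (F.G j).a (F.gg m A v p j r))⟫_ℂ +
            ⟪SC.EE (F.G j).ω (F.La j (sx D (ja D φ))),
              Ms (ctC2 (4 * F.u) (8 * F.u)) (SC.cm (F.G j).a (F.gg m A v p j r))⟫_ℂ +
            dp (⇑(Ms (ctC1 (4 * F.u) (8 * F.u)) (SC.EE (F.G j).ω (F.La j (sx D (ja D φ))))))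
              (pz (⇑(SC.cm (F.G j).a (F.gg m A v p j r)))
                (wV (F.G j).ω (Vf (F.G j).ω (⇑(F.Ga j (v r))))))))) := by
  have ii : ∀ {f : ℝ → ℂ}, ContinuousOn f (Icc 0 b) → IntervalIntegrable f volume s t := fun hf =>
    (hf.mono (Icc_subset_Icc hs ht)).intervalIntegrable_of_Icc hst
  show _ = ∫ r in s..t, fI F m lam A v mu p φ r
  have h0 : ∀ r, ⟪mm F.cc ((js D (ja D φ) : XS D) : L2c), F.ov m A v mu p r⟫_ℂ =
      ⟪str D (iot D (F.Vc φ)), vt (F.c0 m) F.β A v mu r⟫_ℂ - ∑ j, (2 * Real.pi : ℂ) *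
        ⟪SC.TT (F.G j).ω (F.ge j φ - F.gs j φ), SC.TT (F.G j).ω (F.gg m A v p j r)⟫_ℂ := by
    intro r
    rw [← F.hVc.st φ]
    show ⟪str D (iot D (F.Vc φ)), F.oo _ _⟫_ℂ = _
    unfold FD.oo
    rw [inner_sub_right, inner_sum]
    congr 1
    refine Finset.sum_congr rfl fun j _ => ?_
    rw [inner_smul_right, pair_int]
  have h1 := USys.eqV F.hD.bdd ((F.c0_cc st.m1).1) F.hβ F.hd st.dA st.cA st.U (F.Vc φ) hs hst ht
  have h2 : ∀ j, ⟪SC.TT (F.G j).ω (F.ge j φ - F.gs j φ), SC.TT (F.G j).ω (F.gg m A v p j t)⟫_ℂ -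
      ⟪SC.TT (F.G j).ω (F.ge j φ - F.gs j φ), SC.TT (F.G j).ω (F.gg m A v p j s)⟫_ℂ =
      ∫ r in s..t, rV (F.G j) (F.sd m A v j) r (F.gg m A v p j r) (F.ge j φ - F.gs j φ) := fun j =>
    st.V_eq j (F.PP_ge_gs j φ) hs hst ht
  have h3 : (∫ r in s..t, fI F m lam A v mu p φ r) = (∫ r in s..t, fU F m lam A v mu φ r) -
      ∑ j, (2 * Real.pi : ℂ) *
        ∫ r in s..t, rV (F.G j) (F.sd m A v j) r (F.gg m A v p j r) (F.ge j φ - F.gs j φ) := by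
    have k : ∀ j ∈ Finset.univ, IntervalIntegrable (fun r => (2 * Real.pi : ℂ) *
        rV (F.G j) (F.sd m A v j) r (F.gg m A v p j r) (F.ge j φ - F.gs j φ)) volume s t := fun j _ =>
      ii (continuousOn_const.mul (rV_contOn (F.G j) (F.sd_cont j st.U.cv st.contA) (st.contg j) _))
    have k2 : IntervalIntegrable (fun r => ∑ j, (2 * Real.pi : ℂ) *
        rV (F.G j) (F.sd m A v j) r (F.gg m A v p j r) (F.ge j φ - F.gs j φ)) volume s t :=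
      ii (continuousOn_finsetSum _ fun j _ => continuousOn_const.mul
        (rV_contOn (F.G j) (F.sd_cont j st.U.cv st.contA) (st.contg j) _))
    rw [intervalIntegral.integral_congr (g := fun r => fU F m lam A v mu φ r - ∑ j, (2 * Real.pi : ℂ) *
      rV (F.G j) (F.sd m A v j) r (F.gg m A v p j r) (F.ge j φ - F.gs j φ)) (fun r _ => feo2_fI_eq φ r),
      intervalIntegral.integral_sub (ii (feo2_fU_cont st φ)) k2, intervalIntegral.integral_finsetSum k]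
    congr 1
    refine Finset.sum_congr rfl fun j _ => ?_
    rw [intervalIntegral.integral_const_mul]
  rw [h3, h0, h0]
  have h4 : (∫ r in s..t, fU F m lam A v mu φ r) = ⟪str D (iot D (F.Vc φ)), vt (F.c0 m) F.β A v mu t⟫_ℂ -
      ⟪str D (iot D (F.Vc φ)), vt (F.c0 m) F.β A v mu s⟫_ℂ := h1.symm
  rw [h4]
  have h5 : (∑ j, (2 * Real.pi : ℂ) *
        ∫ r in s..t, rV (F.G j) (F.sd m A v j) r (F.gg m A v p j r) (F.ge j φ - F.gs j φ)) =
      (∑ j, (2 * Real.pi : ℂ) *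
        ⟪SC.TT (F.G j).ω (F.ge j φ - F.gs j φ), SC.TT (F.G j).ω (F.gg m A v p j t)⟫_ℂ) -
      ∑ j, (2 * Real.pi : ℂ) *
        ⟪SC.TT (F.G j).ω (F.ge j φ - F.gs j φ), SC.TT (F.G j).ω (F.gg m A v p j s)⟫_ℂ := by
    rw [← Finset.sum_sub_distrib]
    refine Finset.sum_congr rfl fun j _ => ?_
    rw [← h2 j]
    ring
  rw [h5]
  ring

/-- **Strip part**: `SolP.eq` with `φ' = gs φ`: `E T gs φ` is supported in `z ≤ 4u`, where `p = Be o`; `S = 0` there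
(`inner_sgm`), `⟨gs φ, a p⟩ = ⟨gs φ, a Be o⟩`, `b(ζ a p; T gs) = b(a Be o; T gs)`. -/
theorem Fst.str_eq (st : F.Fst m lam A A' b v₀ v mu mu' p) (φ : XS D) (j : Fin F.n) {s t : ℝ} (hs : 0 ≤ s)
    (hst : s ≤ t) (ht : t ≤ b) :
    ⟪F.Bp j ((js D (ja D φ) : XS D) : L2c), SC.cm (F.G j).a (F.Be j (F.ov m A v mu p t))⟫_ℂ -
      ⟪F.Bp j ((js D (ja D φ) : XS D) : L2c), SC.cm (F.G j).a (F.Be j (F.ov m A v mu p s))⟫_ℂ = ∫ r in s..t,
      (-⟪F.gs j φ, SC.cm (F.G j).a (F.Be j (F.ov m A v mu p r))⟫_ℂ +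
        bf (F.G j).ω (⇑(SC.cm (F.G j).a (F.Be j (F.ov m A v mu p r))))
          (uV (F.G j).ω (Vf (F.G j).ω (⇑(F.Ga j (v r))))) (wV (F.G j).ω (Vf (F.G j).ω (⇑(F.Ga j (v r)))))
          (⇑(SC.TT (F.G j).ω (F.gs j φ))) +
        ⟪SC.TT (F.G j).ω (F.gs j φ), Ms (F.kp m j (A r)) (SC.TT (F.G j).ω (F.gg m A v p j r))⟫_ℂ) := by
  rw [str_lhs st.m1, str_lhs st.m1, (st.P j).eq (F.gs j φ) s t hs hst ht]
  exact intervalIntegral.integral_congr fun r _ => str_pt st.m1 φ j r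

/-- **The equation of the outer vorticity**, tested with `θ = K_s φ`: `part_id` for `θ`, `Fst.int_eq + ∑ 2π Fst.str_eq`,
`diff_id`, the definition of `adv`, `TT_ge`. -/
theorem Fst.o_eq (st : F.Fst m lam A A' b v₀ v mu mu' p) (φ : XS D) {s t : ℝ} (hs : 0 ≤ s) (hst : s ≤ t)
    (ht : t ≤ b) :
    ⟪((js D (ja D φ) : XS D) : L2c), F.ov m A v mu p t⟫_ℂ -
      ⟪((js D (ja D φ) : XS D) : L2c), F.ov m A v mu p s⟫_ℂ = ∫ r in s..t,
      (-⟪(φ : L2c), F.ov m A v mu p r⟫_ℂ + F.adv (v r) φ (F.ov m A v mu p r) -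
        lam * ⟪mm F.d ((js D (ja D φ) : XS D) : L2c), F.ov m A v mu p r⟫_ℂ +
        ∑ j, (2 * Real.pi : ℂ) * F.src m j (A r) (v r) (F.gg m A v p j r)
          (SC.cm (F.G j).a (F.gg m A v p j r)) (SC.cm (F.G j).a (F.gg m A v p j r)) (ja D φ)) := by
  have ii : ∀ {f : ℝ → ℂ}, ContinuousOn f (Icc 0 b) → IntervalIntegrable f volume s t := fun hf =>
    (hf.mono (Icc_subset_Icc hs ht)).intervalIntegrable_of_Icc hst
  have h1 : ⟪mm F.cc ((js D (ja D φ) : XS D) : L2c), F.ov m A v mu p t⟫_ℂ -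
      ⟪mm F.cc ((js D (ja D φ) : XS D) : L2c), F.ov m A v mu p s⟫_ℂ =
      ∫ r in s..t, fI F m lam A v mu p φ r := st.int_eq φ hs hst ht
  have h2 : ∀ j, ⟪F.Bp j ((js D (ja D φ) : XS D) : L2c), SC.cm (F.G j).a (F.Be j (F.ov m A v mu p t))⟫_ℂ -
      ⟪F.Bp j ((js D (ja D φ) : XS D) : L2c), SC.cm (F.G j).a (F.Be j (F.ov m A v mu p s))⟫_ℂ =
      ∫ r in s..t, rP (F.G j) (F.sd m A v j) r (p j r) (F.gs j φ) := fun j => by
    rw [str_lhs st.m1, str_lhs st.m1, (st.P j).eq (F.gs j φ) s t hs hst ht]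
  have k : ∀ j ∈ Finset.univ, IntervalIntegrable (fun r => (2 * Real.pi : ℂ) *
      rP (F.G j) (F.sd m A v j) r (p j r) (F.gs j φ)) volume s t := fun j _ =>
    ii (continuousOn_const.mul (feo2_fS_cont st φ j))
  have k2 : IntervalIntegrable (fun r => ∑ j, (2 * Real.pi : ℂ) *
      rP (F.G j) (F.sd m A v j) r (p j r) (F.gs j φ)) volume s t :=
    ii (continuousOn_finsetSum _ fun j _ => continuousOn_const.mul (feo2_fS_cont st φ j))
  have h3 : ⟪((js D (ja D φ) : XS D) : L2c), F.ov m A v mu p t⟫_ℂ -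
      ⟪((js D (ja D φ) : XS D) : L2c), F.ov m A v mu p s⟫_ℂ = (∫ r in s..t, fI F m lam A v mu p φ r) +
      ∑ j, (2 * Real.pi : ℂ) * ∫ r in s..t, rP (F.G j) (F.sd m A v j) r (p j r) (F.gs j φ) := by
    rw [F.part_id (js D (ja D φ)) (F.ov m A v mu p t), F.part_id (js D (ja D φ)) (F.ov m A v mu p s), ← h1]
    have h4 : (∑ j, (2 * Real.pi : ℂ) * ∫ r in s..t, rP (F.G j) (F.sd m A v j) r (p j r) (F.gs j φ)) =
        (∑ j, (2 * Real.pi : ℂ) * ⟪F.Bp j ((js D (ja D φ) : XS D) : L2c),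
          SC.cm (F.G j).a (F.Be j (F.ov m A v mu p t))⟫_ℂ) -
        ∑ j, (2 * Real.pi : ℂ) * ⟪F.Bp j ((js D (ja D φ) : XS D) : L2c),
          SC.cm (F.G j).a (F.Be j (F.ov m A v mu p s))⟫_ℂ := by
      rw [← Finset.sum_sub_distrib]
      refine Finset.sum_congr rfl fun j _ => ?_
      rw [← h2 j]
      ring
    rw [h4]
    ring
  rw [h3]
  have h5 : (∑ j, (2 * Real.pi : ℂ) * ∫ r in s..t, rP (F.G j) (F.sd m A v j) r (p j r) (F.gs j φ)) =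
      ∫ r in s..t, ∑ j, (2 * Real.pi : ℂ) * rP (F.G j) (F.sd m A v j) r (p j r) (F.gs j φ) := by
    rw [intervalIntegral.integral_finsetSum k]
    refine Finset.sum_congr rfl fun j _ => ?_
    rw [intervalIntegral.integral_const_mul]
  rw [h5, ← intervalIntegral.integral_add (ii (feo2_fI_cont st φ)) k2]
  refine intervalIntegral.integral_congr fun r _ => ?_
  show fI F m lam A v mu p φ r + (∑ j, (2 * Real.pi : ℂ) *
    rP (F.G j) (F.sd m A v j) r (p j r) (F.gs j φ)) = _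
  have e1 : ∀ j, rP (F.G j) (F.sd m A v j) r (p j r) (F.gs j φ) = _ := fun j =>
    str_pt (A := A) (v := v) (mu := mu) (p := p) st.m1 φ j r
  simp only [e1]
  rw [F.diff_id φ (F.ov m A v mu p r)]
  unfold fI FD.adv
  have e2 : (∑ j, (2 * Real.pi : ℂ) * (⟪SC.TT (F.G j).ω (F.ge j φ - F.gs j φ),
            Ms (F.kp m j (A r)) (SC.TT (F.G j).ω (F.gg m A v p j r))⟫_ℂ -
          (2 * ⟪Yz (F.G j).ω (F.La j (sx D (ja D φ))),
              Ms (ctC1 (4 * F.u) (8 * F.u)) (SC.cm (F.G j).a (F.gg m A v p j r))⟫_ℂ +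
            ⟪SC.EE (F.G j).ω (F.La j (sx D (ja D φ))),
              Ms (ctC2 (4 * F.u) (8 * F.u)) (SC.cm (F.G j).a (F.gg m A v p j r))⟫_ℂ +
            dp (⇑(Ms (ctC1 (4 * F.u) (8 * F.u)) (SC.EE (F.G j).ω (F.La j (sx D (ja D φ))))))
              (pz (⇑(SC.cm (F.G j).a (F.gg m A v p j r)))
                (wV (F.G j).ω (Vf (F.G j).ω (⇑(F.Ga j (v r))))))))) +
      (∑ j, (2 * Real.pi : ℂ) * (-⟪F.gs j φ, SC.cm (F.G j).a (F.Be j (F.ov m A v mu p r))⟫_ℂ +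
        bf (F.G j).ω (⇑(SC.cm (F.G j).a (F.Be j (F.ov m A v mu p r))))
          (uV (F.G j).ω (Vf (F.G j).ω (⇑(F.Ga j (v r))))) (wV (F.G j).ω (Vf (F.G j).ω (⇑(F.Ga j (v r)))))
          (⇑(SC.TT (F.G j).ω (F.gs j φ))) +
        ⟪SC.TT (F.G j).ω (F.gs j φ), Ms (F.kp m j (A r)) (SC.TT (F.G j).ω (F.gg m A v p j r))⟫_ℂ)) =
      -(∑ j, (2 * Real.pi : ℂ) * ⟪F.gs j φ, SC.cm (F.G j).a (F.Be j (F.ov m A v mu p r))⟫_ℂ) +
      (∑ j, (2 * Real.pi : ℂ) * bf (F.G j).ω (⇑(SC.cm (F.G j).a (F.Be j (F.ov m A v mu p r))))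
          (uV (F.G j).ω (Vf (F.G j).ω (⇑(F.Ga j (v r))))) (wV (F.G j).ω (Vf (F.G j).ω (⇑(F.Ga j (v r)))))
          (⇑(SC.TT (F.G j).ω (F.gs j φ)))) +
      ∑ j, (2 * Real.pi : ℂ) * F.src m j (A r) (v r) (F.gg m A v p j r)
          (SC.cm (F.G j).a (F.gg m A v p j r)) (SC.cm (F.G j).a (F.gg m A v p j r)) (ja D φ) := by
    rw [← Finset.sum_neg_distrib, ← Finset.sum_add_distrib, ← Finset.sum_add_distrib, ← Finset.sum_add_distrib]
    refine Finset.sum_congr rfl fun j _ => ?_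
    unfold FD.src
    rw [← TT_ge, map_sub, inner_sub_left]
    ring
  linear_combination e2

end FD

end Pool.Agent.Lib.MP_79abb3_an.PD
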