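import Pool.Agent.Lib.MP_79abb3_an.PD.FeG2
import Pool.Agent.Lib.MP_79abb3_an.PD.FeA2
import Pool.Agent.Lib.MP_79abb3_an.PD.FeO2
import Pool.Agent.Lib.MP_79abb3_an.PD.FbW
import Pool.Agent.Lib.MP_79abb3_an.PD.FbH
import Pool.Agent.Lib.MP_79abb3_an.PD.ScF

/-!
Theorem D, block F: the equation of the outer vorticity in the negative norm; the regularised sources.
-/

set_option autoImplicit false
set_option linter.unusedSectionVars false

open MeasureTheory Set Filter Topology Function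
open scoped ENNReal InnerProductSpace ComplexConjugate

namespace Pool.Agent.Lib.MP_79abb3_an.PD

open Pool.Agent.Lib.MP_79abb3_an.SC Pool.Agent.Lib.MP_79abb3_an.P25

/-! ### The operators -/

theorem wmon_RnT (n : ℕ) : Wmon (RnT n) := by
  intro th θ hθ h0 hm x
  have hw : Wgt Real.pi fun z => (ex th z).re :=
    ⟨Complex.continuous_re.comp (continuous_ex th), fun z hz => by
      rw [hθ z hz, Complex.ofReal_re]; exact h0 z hz, fun x hx z hz hxz => by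
      rw [hθ z hz, hθ x hx, Complex.ofReal_re, Complex.ofReal_re]; exact hm hx hz hxz⟩
  have e : th = Pool.Agent.Lib.MP_79abb3_an.FW.rc (fun z => (ex th z).re) hw.c := by
    refine ci_ext fun z hz => ?_
    rw [Pool.Agent.Lib.MP_79abb3_an.FW.ex_rc _ _ hz, hθ z hz, Complex.ofReal_re]
  have h1 := RnT_wgt hw n x
  rwa [← e] at h1

theorem wmon_Tr (n : ℕ) : Wmon (Tr n) := fun th _ _ _ _ x => Tr_wgt th n x

theorem sqrt_le_wR {x y : ℝ} (hx : 0 ≤ x) (hy : 0 ≤ y) : √(y * x) ≤ wR x y := by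
  unfold wR
  have h1 : √(y * x) = y ^ (1 / 4 : ℝ) * (y ^ (1 / 4 : ℝ) * x ^ (1 / 2 : ℝ)) := by
    rw [Real.sqrt_eq_rpow, Real.mul_rpow hy hx, ← mul_assoc, ← Real.rpow_add_of_nonneg hy (by norm_num) (by norm_num)]
    norm_num
  have h2 : (x + y) ^ (3 / 4 : ℝ) = (x + y) ^ (1 / 4 : ℝ) * (x + y) ^ (1 / 2 : ℝ) := by
    rw [← Real.rpow_add_of_nonneg (by positivity) (by norm_num) (by norm_num)]
    norm_num
  rw [h1, h2]
  have h3 : y ^ (1 / 4 : ℝ) ≤ (x + y) ^ (1 / 4 : ℝ) := Real.rpow_le_rpow hy (by linarith) (by norm_num)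
  have h4 : x ^ (1 / 2 : ℝ) ≤ (x + y) ^ (1 / 2 : ℝ) := Real.rpow_le_rpow hx (by linarith) (by norm_num)
  gcongr

theorem inner_sumG {E ι : Type} [NormedAddCommGroup E] [InnerProductSpace ℂ E] [Fintype ι] (q : E) (c : ℂ) (x : ι → E) :
    ⟪q, ∑ j, c • x j⟫_ℂ = ∑ j, c * ⟪q, x j⟫_ℂ := by
  rw [inner_sum]
  exact Finset.sum_congr rfl fun j _ => inner_smul_right _ _ _

namespace FD
variable {D : Set ℂ} (F : FD D)

/-- The transport operator of 4.4 is the one of the form `adv`. -/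
theorem exists_Badv : ∃ (C : ℝ) (B : VD D →L[ℂ] XS D →L[ℂ] XS D), IsKB D C B ∧
    ∀ (v : VD D) (φ o : XS D), ⟪φ, B v o⟫_ℂ = F.adv v φ (o : L2c) := by
  obtain ⟨C, hC, hb⟩ := F.adv_bd (fun j φ => F.TT_gs j φ)
  have hR : RegT D C := by
    refine ⟨hC, fun v q φ => ?_⟩
    have h1 : TR (jj D v) (q : Y2) (j4 D (jsA D φ)) = F.adv v φ ((js D q : XS D) : L2c) := F.adv_TR v φ q
    rw [h1]
    refine (hb v φ _).trans ?_
    have h2 : √(‖ja D φ‖ * ‖φ‖) ≤ wR ‖φ‖ ‖jsA D φ‖ := sqrt_le_wR (norm_nonneg φ) (norm_nonneg (ja D φ))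
    exact mul_le_mul_of_nonneg_left h2 (by positivity)
  obtain ⟨B, hB⟩ := exists_KB F.hD.bdd hR
  refine ⟨C, B, hB, fun v φ o => ?_⟩
  obtain ⟨T, hT⟩ := F.adv_op
  have hcl : IsClosed {o : XS D | ⟪φ, B v o⟫_ℂ = F.adv v φ (o : L2c)} := by
    have c1 : Continuous fun o : XS D => ⟪φ, B v o⟫_ℂ := Continuous.inner continuous_const (B v).continuous
    have c2 : Continuous fun o : XS D => T v (o : L2c) φ := by
      have c3 : Continuous fun o : XS D => T v (o : L2c) := (T v).continuous.comp continuous_subtype_val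
      exact (continuous_eval_const φ).comp c3
    simp only [← hT]
    exact isClosed_eq c1 c2
  refine isClosed_property (fdomS F.hD.bdd).dense hcl (fun q => ?_) o
  show ⟪φ, B v (js D q)⟫_ℂ = F.adv v φ ((js D q : XS D) : L2c)
  rw [hB.tr]
  exact F.adv_TR v φ q

/-! ### The sources -/

/-- The source of `o`. -/
noncomputable def sS (m : ℕ) (A : ℝ → ℝ) (v : ℝ → VD D) (p : Fin F.n → ℝ → HP) (t : ℝ) : SV D :=
  ∑ j, (2 * Real.pi : ℂ) • F.sv m j (A t) (v t) (F.gg m A v p j t) (SC.cm (F.G j).a (F.gg m A v p j t))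
    (SC.cm (F.G j).a (F.gg m A v p j t))

/-- The regularised source as an element of `SV D`. -/
noncomputable def sn (n m : ℕ) (A : ℝ → ℝ) (v : ℝ → VD D) (p : Fin F.n → ℝ → HP) (t : ℝ) : SV D :=
  ∑ j, (2 * Real.pi : ℂ) • F.sv m j (A t) (v t) (F.gg m A v p j t)
    (RnT n (SC.cm (F.G j).a (F.gg m A v p j t))) (Tr n (SC.cm (F.G j).a (F.gg m A v p j t)))

/-- The regularised source as an element of `L²`. -/
noncomputable def s1n (n m : ℕ) (A : ℝ → ℝ) (v : ℝ → VD D) (p : Fin F.n → ℝ → HP) (t : ℝ) : L2c :=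
  ∑ j, (2 * Real.pi : ℂ) • F.sj n m j (A t) (v t) (F.gg m A v p j t)

theorem inner_sS (m : ℕ) (A : ℝ → ℝ) (v : ℝ → VD D) (p : Fin F.n → ℝ → HP) (t : ℝ) (q : SV D) :
    ⟪q, F.sS m A v p t⟫_ℂ = ∑ j, (2 * Real.pi : ℂ) * F.src m j (A t) (v t) (F.gg m A v p j t)
      (SC.cm (F.G j).a (F.gg m A v p j t)) (SC.cm (F.G j).a (F.gg m A v p j t)) q :=
  (inner_sumG q _ _).trans (Finset.sum_congr rfl fun j _ => congrArg _ (F.inner_sv _ _ _ _ _ _ _ _))

theorem inner_sn (n m : ℕ) (A : ℝ → ℝ) (v : ℝ → VD D) (p : Fin F.n → ℝ → HP) (t : ℝ) (q : SV D) :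
    ⟪q, F.sn n m A v p t⟫_ℂ = ∑ j, (2 * Real.pi : ℂ) * F.src m j (A t) (v t) (F.gg m A v p j t)
      (RnT n (SC.cm (F.G j).a (F.gg m A v p j t))) (Tr n (SC.cm (F.G j).a (F.gg m A v p j t))) q :=
  (inner_sumG q _ _).trans (Finset.sum_congr rfl fun j _ => congrArg _ (F.inner_sv _ _ _ _ _ _ _ _))

theorem inner_s1n (n m : ℕ) (A : ℝ → ℝ) (v : ℝ → VD D) (p : Fin F.n → ℝ → HP) (t : ℝ) (q : SV D) :
    ⟪((js D q : XS D) : L2c), F.s1n n m A v p t⟫_ℂ = ∑ j, (2 * Real.pi : ℂ) * F.src m j (A t) (v t) (F.gg m A v p j t)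
      (RnT n (SC.cm (F.G j).a (F.gg m A v p j t))) (Tr n (SC.cm (F.G j).a (F.gg m A v p j t))) q :=
  (inner_sumG _ _ _).trans (Finset.sum_congr rfl fun j _ => congrArg _ (F.inner_sj _ _ _ _ _ _ _))

theorem rS_s1n (n m : ℕ) (A : ℝ → ℝ) (v : ℝ → VD D) (p : Fin F.n → ℝ → HP) (t : ℝ) :
    rS D (F.s1n n m A v p t) 0 = js D (F.sn n m A v p t) := by
  refine ext_inner_left ℂ fun φ => ?_
  have h1 : ⟪φ, rS D (F.s1n n m A v p t) 0⟫_ℂ = ⟪((KS D φ : XS D) : L2c), F.s1n n m A v p t⟫_ℂ + 0 :=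
    inner_rS F.hD.bdd φ _ _
  have h2 : ⟪φ, js D (F.sn n m A v p t)⟫_ℂ = ⟪jsA D φ, F.sn n m A v p t⟫_ℂ := (inner_jsA φ _).symm
  have h3 : ⟪((KS D φ : XS D) : L2c), F.s1n n m A v p t⟫_ℂ = ⟪jsA D φ, F.sn n m A v p t⟫_ℂ :=
    (F.inner_s1n n m A v p t (jsA D φ)).trans (F.inner_sn n m A v p t (jsA D φ)).symm
  rw [h1, h2, h3, add_zero]

variable {F} {m : ℕ} {lam : ℝ} {A A' : ℝ → ℝ} {b : ℝ} {v₀ : VD D} {v : ℝ → VD D} {mu mu' : ℝ → ℝ}
  {p : Fin F.n → ℝ → HP}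

theorem Fst.sS_cont (st : F.Fst m lam A A' b v₀ v mu mu' p) : ContinuousOn (F.sS m A v p) (Icc 0 b) := by
  unfold sS
  refine continuousOn_finsetSum _ fun j _ => ?_
  have hx := (SC.cm (F.G j).a).continuous.comp_continuousOn (st.contg j)
  exact (F.sv_cont m j st.contA st.U.cv (st.contg j) hx hx).const_smul (2 * Real.pi : ℂ)

theorem Fst.sn_cont (st : F.Fst m lam A A' b v₀ v mu mu' p) (n : ℕ) : ContinuousOn (F.sn n m A v p) (Icc 0 b) := by
  unfold sn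
  refine continuousOn_finsetSum _ fun j _ => ?_
  have hx := (SC.cm (F.G j).a).continuous.comp_continuousOn (st.contg j)
  exact (F.sv_cont m j st.contA st.U.cv (st.contg j) ((RnT n).continuous.comp_continuousOn hx)
    ((Tr n).continuous.comp_continuousOn hx)).const_smul (2 * Real.pi : ℂ)

theorem Fst.s1n_cont (st : F.Fst m lam A A' b v₀ v mu mu' p) (n : ℕ) : ContinuousOn (F.s1n n m A v p) (Icc 0 b) := by
  unfold s1n
  refine continuousOn_finsetSum _ fun j _ => ?_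
  exact (F.sj_cont n m j st.contA st.U.cv (st.contg j)).const_smul (2 * Real.pi : ℂ)

theorem Fst.s1n_real (st : F.Fst m lam A A' b v₀ v mu mu' p) (n : ℕ) {t : ℝ} (ht : t ∈ Icc 0 b) :
    cL2 (F.s1n n m A v p t) = F.s1n n m A v p t := by
  unfold s1n
  rw [map_sum]
  refine Finset.sum_congr rfl fun j _ => ?_
  have h1 : cL2 ((2 * Real.pi : ℂ) • F.sj n m j (A t) (v t) (F.gg m A v p j t)) =
      star (2 * Real.pi : ℂ) • cL2 (F.sj n m j (A t) (v t) (F.gg m A v p j t)) := Cnj_cL2.anti _ _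
  have h2 : star (2 * Real.pi : ℂ) = 2 * Real.pi := by
    rw [Complex.star_def, map_mul, Complex.conj_ofNat, Complex.conj_ofReal]
  rw [h1, h2, F.sj_real n m j (A t) (st.U.rv t ht) (st.realg j ht)]

/-- bounded damping -/
theorem d_Bm (F : FD D) (lam : ℝ) : ∃ c, Bm (fun x => (lam : ℂ) * F.d x) c := by
  obtain ⟨c, hc⟩ := F.hd.cc.cpt.exists_bound_of_continuous F.hd.cc.smo.continuous
  refine ⟨‖(lam : ℂ)‖ * c, (F.hd.cc.smo.continuous.aestronglyMeasurable).const_mul _, fun x => ?_⟩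
  rw [norm_mul]
  exact mul_le_mul_of_nonneg_left (hc x) (norm_nonneg _)

theorem Fst.dat (st : F.Fst m lam A A' b v₀ v mu mu' p) (n : ℕ) :
    LprD D v (fun _ x => (lam : ℂ) * F.d x) (F.s1n n m A v p) (fun _ => 0) 0 b where
  cv := st.U.cv
  rv := st.U.rv
  bW _ _ := d_Bm F lam
  cW := continuousOn_const
  rW _ _ x := by rw [map_mul, Complex.conj_ofReal, F.hd.real]
  c1 := st.s1n_cont n
  r1 _ ht := st.s1n_real n ht
  c2 := continuousOn_const
  r2 _ _ := map_zero _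

/-- The outer vorticity as an element of `L²(D)`. -/
noncomputable def oX (hm : 1 ≤ m) (t : ℝ) : XS D := ⟨F.ov m A v mu p t, ov_mem hm t⟩

/-- **The equation of the outer vorticity in the negative norm.** -/
theorem Fst.keq (st : F.Fst m lam A A' b v₀ v mu mu' p) {B : VD D →L[ℂ] XS D →L[ℂ] XS D}
    (hB : ∀ (v : VD D) (φ o : XS D), ⟪φ, B v o⟫_ℂ = F.adv v φ (o : L2c)) :
    KEq D B v (fun _ x => (lam : ℂ) * F.d x) (fun t => js D (F.sS m A v p t)) 0 b
      (oX (F := F) (A := A) (v := v) (mu := mu) (p := p) st.m1) where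
  co := Topology.IsInducing.subtypeVal.continuousOn_iff.2 st.ov_cont
  cρ := (js D).continuous.comp_continuousOn st.sS_cont
  eq φ s t hs hst ht := by
    refine (st.o_eq φ hs hst ht).trans (intervalIntegral.integral_congr fun r _ => ?_)
    obtain ⟨c, hc⟩ := F.hd.cc.cpt.exists_bound_of_continuous F.hd.cc.smo.continuous
    have hc' : Bm F.d c := ⟨F.hd.cc.smo.continuous.aestronglyMeasurable, hc⟩
    have e1 : ⟪((KS D φ : XS D) : L2c), mm (fun x => (lam : ℂ) * F.d x)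
        ((oX (F := F) (A := A) (v := v) (mu := mu) (p := p) st.m1 r : XS D) : L2c)⟫_ℂ =
        lam * ⟪mm F.d ((js D (ja D φ) : XS D) : L2c), F.ov m A v mu p r⟫_ℂ := by
      have e2 : ((oX (F := F) (A := A) (v := v) (mu := mu) (p := p) st.m1 r : XS D) : L2c) =
          F.ov m A v mu p r := rfl
      have e3 : (fun x => conj (F.d x)) = F.d := funext F.hd.real
      rw [e2, mm_smul _ hc', _root_.smul_apply, inner_smul_right, mm_inner hc', e3]
      rfl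
    have e4 : ⟪φ, js D (F.sS m A v p r)⟫_ℂ = ∑ j, (2 * Real.pi : ℂ) * F.src m j (A r) (v r) (F.gg m A v p j r)
          (SC.cm (F.G j).a (F.gg m A v p j r)) (SC.cm (F.G j).a (F.gg m A v p j r)) (ja D φ) :=
      (inner_jsA φ _).symm.trans (F.inner_sS m A v p r (ja D φ))
    have e5 : ⟪φ, B (v r) (oX (F := F) (A := A) (v := v) (mu := mu) (p := p) st.m1 r)⟫_ℂ =
        F.adv (v r) φ (F.ov m A v mu p r) := hB _ _ _
    show -⟪(φ : L2c), F.ov m A v mu p r⟫_ℂ + F.adv (v r) φ (F.ov m A v mu p r) -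
        lam * ⟪mm F.d ((js D (ja D φ) : XS D) : L2c), F.ov m A v mu p r⟫_ℂ +
        ∑ j, (2 * Real.pi : ℂ) * F.src m j (A r) (v r) (F.gg m A v p j r)
          (SC.cm (F.G j).a (F.gg m A v p j r)) (SC.cm (F.G j).a (F.gg m A v p j r)) (ja D φ) = _
    rw [← e1, ← e4, ← e5]
    rfl

end FD

end Pool.Agent.Lib.MP_79abb3_an.PD
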