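import Pool.Agent.Lib.MP_79abb3_an.PD.FeO

/-!
Theorem D, block F: auxiliary facts for the equation of the outer vorticity (time continuity of the right-hand sides,
cut-offs, the outer vorticity in the strips).
-/

set_option autoImplicit false
set_option linter.unusedSectionVars false

open MeasureTheory Set Filter Topology Function
open scoped ENNReal InnerProductSpace ComplexConjugate

namespace Pool.Agent.Lib.MP_79abb3_an.SC

open Pool.Agent.Lib.MP_79abb3_an.P25 Pool.Agent.Lib.MP_79abb3_an.FW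

section
variable {H : ℝ} [hH : Fact (0 < H)]

private theorem feo2_Pw_cont (G : Geo H) {S : Set ℝ} {om : ℝ → HH H} {v w : ℝ → l2 (CI H)}
    (h1 : ContinuousOn om S) (h2 : ContinuousOn v S) (h3 : ContinuousOn w S) :
    ContinuousOn (fun t => G.Pw (om t) (v t) (w t)) S := by
  have a1 : ContinuousOn (fun t => prd G.pw (om t) (w t)) S :=
    ((prd G.pw).continuous.comp_continuousOn h1).clm_apply h3
  have a2 : ContinuousOn (fun t => prd G.pw (om t) (v t)) S :=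
    ((prd G.pw).continuous.comp_continuousOn h1).clm_apply h2
  exact (((Xz G.ω).continuous.comp_continuousOn a1).add
    ((Xy G.ω).continuous.comp_continuousOn a2)).neg

private theorem feo2_Ms_cont {S : Set ℝ} {k : ℝ → CI H} {y : ℝ → HH H}
    (h1 : ContinuousOn k S) (h2 : ContinuousOn y S) :
    ContinuousOn (fun t => Ms (k t) (y t)) S := by
  have a1 : ContinuousOn (fun t => MsB H (k t) (y t)) S :=
    ((MsB H).continuous.comp_continuousOn h1).clm_apply h2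
  exact a1

/-- The right side of `(V)` is continuous in time. -/
theorem rV_contOn (G : Geo H) {D : SDt H} {b : ℝ} (hD : D.Cont b) {g : ℝ → HH H}
    (hg : ContinuousOn g (Icc 0 b)) (φ : HH H) : ContinuousOn (fun t => rV G D t (g t) φ) (Icc 0 b) := by
  have h1 : ContinuousOn (fun t => cm G.a (g t)) (Icc 0 b) := (cm G.a).continuous.comp_continuousOn hg
  have h1' : ContinuousOn (fun t => Ms G.ζ (cm G.a (g t))) (Icc 0 b) :=
    (Ms G.ζ).continuous.comp_continuousOn h1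
  have h2 := feo2_Pw_cont G h1' hD.ve hD.we
  have h3 : ContinuousOn (fun t => TT G.ω (g t)) (Icc 0 b) := (TT G.ω).continuous.comp_continuousOn hg
  have h4 := feo2_Ms_cont hD.κ h3
  unfold rV
  simp only [← inner_LT_Pw]
  exact (((continuousOn_const.inner h1).neg).add (continuousOn_const.inner h2)).sub
    (continuousOn_const.inner h4)

/-- The right side of `(P)` is continuous in time. -/
theorem rP_contOn (G : Geo H) {D : SDt H} {b : ℝ} (hD : D.Cont b) {p : ℝ → HH H}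
    (hp : ContinuousOn p (Icc 0 b)) (φ : HH H) : ContinuousOn (fun t => rP G D t (p t) φ) (Icc 0 b) := by
  have h1 : ContinuousOn (fun t => cm G.a (p t)) (Icc 0 b) :=
    (cm G.a).continuous.comp_continuousOn hp
  have h1' : ContinuousOn (fun t => Ms G.ζ (cm G.a (p t))) (Icc 0 b) :=
    (Ms G.ζ).continuous.comp_continuousOn h1
  have h2 := feo2_Pw_cont G h1' hD.ve hD.we
  have h3 : ContinuousOn (fun t => TT G.ω (D.x t - p t)) (Icc 0 b) :=
    (TT G.ω).continuous.comp_continuousOn (hD.x.sub hp)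
  have h4 := feo2_Ms_cont hD.κ h3
  unfold rP
  simp only [← inner_LT_Pw]
  exact ((((continuousOn_const.inner h1).neg).add (continuousOn_const.inner h2)).add
    (continuousOn_const.inner h4)).add (continuousOn_const.inner hD.σ)

/-- The form `dp x (om v)` only depends on `m om`, `m1 om` if `x = m Z1 + m1 Z2`. -/
theorem dp_cut (G : Geo H) {x Z1 Z2 : HH H} {m m1 : CI H} (hm : star m = m) (hm1 : star m1 = m1)
    (hx : x = Ms m Z1 + Ms m1 Z2) {om om' : HH H} (e1 : Ms m om = Ms m om') (e2 : Ms m1 om = Ms m1 om')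
    {v : ℤ → CI H} (sv : S2 G.lam (1 / 2) v) : dp (⇑x) (pz (⇑om) v) = dp (⇑x) (pz (⇑om') v) := by
  have k : ∀ (y : HH H) (n : ℤ), ⟪x n, pz (⇑y) v n⟫_ℂ =
      ⟪Z1 n, pz (⇑(Ms m y)) v n⟫_ℂ + ⟪Z2 n, pz (⇑(Ms m1 y)) v n⟫_ℂ := by
    intro y n
    rw [hx, lp.coeFn_add, Pi.add_apply, inner_add_left, Ms_apply, Ms_apply, inner_mz, inner_mz, hm, hm1,
      G.mz_pz0 m y sv, G.mz_pz0 m1 y sv]
  unfold dp
  refine tsum_congr fun n => ?_
  rw [k, k, e1, e2]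

end

end Pool.Agent.Lib.MP_79abb3_an.SC

namespace Pool.Agent.Lib.MP_79abb3_an.PD

open Pool.Agent.Lib.MP_79abb3_an.SC Pool.Agent.Lib.MP_79abb3_an.P25

/-! ### cut-offs -/

private theorem feo2_ctf1 {a a' : ℝ} (h : a < a') {z : ℝ} (hz : a' ≤ z) : deriv (ctf a a') z = 0 := by
  have h1 : ∀ y, a' < y → deriv (ctf a a') y = 0 := by
    intro y hy
    have h2 : ctf a a' =ᶠ[𝓝 y] fun _ => 0 := by
      filter_upwards [Ioi_mem_nhds hy] with x hx
      exact ctf_zero h hx.le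
    rw [h2.deriv_eq, deriv_const]
  have hc : Continuous (deriv (ctf a a')) := (ctf_smooth a a').continuous_deriv (by simp)
  have h3 : Tendsto (deriv (ctf a a')) (𝓝[>] z) (𝓝 (deriv (ctf a a') z)) := hc.continuousWithinAt
  have h4 : Tendsto (deriv (ctf a a')) (𝓝[>] z) (𝓝 0) := by
    refine tendsto_const_nhds.congr' ?_
    filter_upwards [self_mem_nhdsWithin] with y hy
    exact (h1 y (hz.trans_lt hy)).symm
  exact tendsto_nhds_unique h3 h4

private theorem feo2_ctf2 {a a' : ℝ} (h : a < a') {z : ℝ} (hz : a' ≤ z) : deriv (deriv (ctf a a')) z = 0 := by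
  have h1 : ∀ y, a' < y → deriv (deriv (ctf a a')) y = 0 := by
    intro y hy
    have h2 : deriv (ctf a a') =ᶠ[𝓝 y] fun _ => 0 := by
      filter_upwards [Ioi_mem_nhds hy] with x hx
      exact feo2_ctf1 h (le_of_lt hx)
    rw [h2.deriv_eq, deriv_const]
  have hc : Continuous (deriv (deriv (ctf a a'))) := (ctf_smooth1 a a').continuous_deriv (by simp)
  have h3 : Tendsto (deriv (deriv (ctf a a'))) (𝓝[>] z) (𝓝 (deriv (deriv (ctf a a')) z)) := hc.continuousWithinAt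
  have h4 : Tendsto (deriv (deriv (ctf a a'))) (𝓝[>] z) (𝓝 0) := by
    refine tendsto_const_nhds.congr' ?_
    filter_upwards [self_mem_nhdsWithin] with y hy
    exact (h1 y (hz.trans_lt hy)).symm
  exact tendsto_nhds_unique h3 h4

private theorem feo2_ctf1' {a a' : ℝ} (h : a < a') {z : ℝ} (hz : z ≤ a) : deriv (ctf a a') z = 0 := by
  have h1 : ∀ y, y < a → deriv (ctf a a') y = 0 := by
    intro y hy
    have h2 : ctf a a' =ᶠ[𝓝 y] fun _ => 1 := by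
      filter_upwards [Iio_mem_nhds hy] with x hx
      exact ctf_one h (le_of_lt hx)
    rw [h2.deriv_eq, deriv_const]
  have hc : Continuous (deriv (ctf a a')) := (ctf_smooth a a').continuous_deriv (by simp)
  have h3 : Tendsto (deriv (ctf a a')) (𝓝[<] z) (𝓝 (deriv (ctf a a') z)) := hc.continuousWithinAt
  have h4 : Tendsto (deriv (ctf a a')) (𝓝[<] z) (𝓝 0) := by
    refine tendsto_const_nhds.congr' ?_
    filter_upwards [self_mem_nhdsWithin] with y hy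
    exact (h1 y (lt_of_lt_of_le hy hz)).symm
  exact tendsto_nhds_unique h3 h4

private theorem feo2_ctf2' {a a' : ℝ} (h : a < a') {z : ℝ} (hz : z ≤ a) : deriv (deriv (ctf a a')) z = 0 := by
  have h1 : ∀ y, y < a → deriv (deriv (ctf a a')) y = 0 := by
    intro y hy
    have h2 : deriv (ctf a a') =ᶠ[𝓝 y] fun _ => 0 := by
      filter_upwards [Iio_mem_nhds hy] with x hx
      exact feo2_ctf1' h (le_of_lt hx)
    rw [h2.deriv_eq, deriv_const]
  have hc : Continuous (deriv (deriv (ctf a a'))) := (ctf_smooth1 a a').continuous_deriv (by simp)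
  have h3 : Tendsto (deriv (deriv (ctf a a'))) (𝓝[<] z) (𝓝 (deriv (deriv (ctf a a')) z)) := hc.continuousWithinAt
  have h4 : Tendsto (deriv (deriv (ctf a a'))) (𝓝[<] z) (𝓝 0) := by
    refine tendsto_const_nhds.congr' ?_
    filter_upwards [self_mem_nhdsWithin] with y hy
    exact (h1 y (lt_of_lt_of_le hy hz)).symm
  exact tendsto_nhds_unique h3 h4

private theorem feo2_star (f : ℝ → ℝ) (hf : Continuous f) :
    star (Pool.Agent.Lib.MP_79abb3_an.FW.rc f hf : CI Real.pi) = Pool.Agent.Lib.MP_79abb3_an.FW.rc f hf := by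
  refine ci_ext fun z hz => ?_
  rw [ex_star, Pool.Agent.Lib.MP_79abb3_an.FW.ex_rc _ _ hz]
  exact Complex.conj_ofReal _

theorem ctC_star (a a' : ℝ) : star (ctC a a') = ctC a a' := feo2_star _ _
theorem ctC1_star (a a' : ℝ) : star (ctC1 a a') = ctC1 a a' := feo2_star _ _
theorem ctC2_star (a a' : ℝ) : star (ctC2 a a') = ctC2 a a' := feo2_star _ _

private theorem feo2_mul1 {f : CI Real.pi} {a' b b' : ℝ} (hf : ∀ z ∈ Icc (0:ℝ) Real.pi, a' ≤ z → ex f z = 0)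
    (h1 : a' ≤ b) (h2 : b < b') : f * ctC b b' = f := by
  refine ci_ext fun z hz => ?_
  rw [ex_mul]
  by_cases hz' : a' ≤ z
  · rw [hf z hz hz', zero_mul]
  · have e : ex (ctC b b') z = 1 := by
      unfold ctC
      rw [Pool.Agent.Lib.MP_79abb3_an.FW.ex_rc _ _ hz, ctf_one h2 (by linarith), Complex.ofReal_one]
    rw [e, mul_one]

private theorem feo2_c0 {a a' : ℝ} (h : a < a') : ∀ z ∈ Icc (0:ℝ) Real.pi, a' ≤ z → ex (ctC a a') z = 0 := by
  intro z hz hz'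
  unfold ctC
  rw [Pool.Agent.Lib.MP_79abb3_an.FW.ex_rc _ _ hz, ctf_zero h hz', Complex.ofReal_zero]

private theorem feo2_c1 {a a' : ℝ} (h : a < a') : ∀ z ∈ Icc (0:ℝ) Real.pi, a' ≤ z → ex (ctC1 a a') z = 0 := by
  intro z hz hz'
  unfold ctC1
  rw [Pool.Agent.Lib.MP_79abb3_an.FW.ex_rc _ _ hz, feo2_ctf1 h hz', Complex.ofReal_zero]

private theorem feo2_c2 {a a' : ℝ} (h : a < a') : ∀ z ∈ Icc (0:ℝ) Real.pi, a' ≤ z → ex (ctC2 a a') z = 0 := by
  intro z hz hz'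
  unfold ctC2
  rw [Pool.Agent.Lib.MP_79abb3_an.FW.ex_rc _ _ hz, feo2_ctf2 h hz', Complex.ofReal_zero]

/-- A cut-off supported in `z ≤ a'` absorbs a cut-off which is `1` on `z ≤ b`, `a' ≤ b`. -/
theorem ctC_mul {a a' b b' : ℝ} (h : a < a') (h1 : a' ≤ b) (h2 : b < b') : ctC a a' * ctC b b' = ctC a a' :=
  feo2_mul1 (feo2_c0 h) h1 h2
theorem ctC1_mul {a a' b b' : ℝ} (h : a < a') (h1 : a' ≤ b) (h2 : b < b') : ctC1 a a' * ctC b b' = ctC1 a a' :=
  feo2_mul1 (feo2_c1 h) h1 h2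
theorem ctC2_mul {a a' b b' : ℝ} (h : a < a') (h1 : a' ≤ b) (h2 : b < b') : ctC2 a a' * ctC b b' = ctC2 a a' :=
  feo2_mul1 (feo2_c2 h) h1 h2

private theorem feo2_mul0 {f g : CI Real.pi} {a' b : ℝ} (hf : ∀ z ∈ Icc (0:ℝ) Real.pi, a' ≤ z → ex f z = 0)
    (hg : ∀ z ∈ Icc (0:ℝ) Real.pi, z ≤ b → ex g z = 0) (h1 : a' ≤ b) : g * f = 0 := by
  refine ci_ext fun z hz => ?_
  rw [ex_mul, ex_zero]
  by_cases hz' : a' ≤ z
  · rw [hf z hz hz', mul_zero]
  · rw [hg z hz (by linarith), zero_mul]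

private theorem feo2_d1 {b b' : ℝ} (h : b < b') : ∀ z ∈ Icc (0:ℝ) Real.pi, z ≤ b → ex (ctC1 b b') z = 0 := by
  intro z hz hz'
  unfold ctC1
  rw [Pool.Agent.Lib.MP_79abb3_an.FW.ex_rc _ _ hz, feo2_ctf1' h hz', Complex.ofReal_zero]

private theorem feo2_d2 {b b' : ℝ} (h : b < b') : ∀ z ∈ Icc (0:ℝ) Real.pi, z ≤ b → ex (ctC2 b b') z = 0 := by
  intro z hz hz'
  unfold ctC2
  rw [Pool.Agent.Lib.MP_79abb3_an.FW.ex_rc _ _ hz, feo2_ctf2' h hz', Complex.ofReal_zero]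

theorem ctC1_ctC {a a' b b' : ℝ} (h : a < a') (h1 : a' ≤ b) (h2 : b < b') : ctC1 b b' * ctC a a' = 0 :=
  feo2_mul0 (feo2_c0 h) (feo2_d1 h2) h1
theorem ctC1_ctC1 {a a' b b' : ℝ} (h : a < a') (h1 : a' ≤ b) (h2 : b < b') : ctC1 b b' * ctC1 a a' = 0 :=
  feo2_mul0 (feo2_c1 h) (feo2_d1 h2) h1
theorem ctC2_ctC {a a' b b' : ℝ} (h : a < a') (h1 : a' ≤ b) (h2 : b < b') : ctC2 b b' * ctC a a' = 0 :=
  feo2_mul0 (feo2_c0 h) (feo2_d2 h2) h1

private theorem feo2_dense {P : L2c → Prop} (hP : IsClosed {f | P f}) (h : ∀ g : ℂ → ℂ, Cc g → P (cl2 g))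
    (f : L2c) : P f := by
  have hc : f ∈ closure {f : L2c | P f} := by
    rw [Metric.mem_closure_iff]
    intro ε hε
    obtain ⟨g, hg, h1⟩ := cl2_dense f (half_pos hε)
    exact ⟨cl2 g, h g hg, by rw [dist_eq_norm]; linarith⟩
  rw [hP.closure_eq] at hc
  exact hc

/-- Pull backs with two cut-offs. -/
theorem PB_cut {D : Set ℂ} {c e e' a a' : ℝ} {X : ℝ × ℝ → ℂ} {J : ℝ × ℝ → ℝ}
    {B B' : L2c →L[ℂ] HP} (hB : IsPB X e e' J B) (hB' : IsPB X a a' J B')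
    (h : IsStrip D Real.pi c X) {k : ℝ} (hJ : IsJ Real.pi X k J) (he : e < e') (h1 : e' ≤ a) (ha : a < a') (f : L2c) :
    B f = Ms (ctC e e') (B' f) := by
  refine feo2_dense (P := fun f => B f = Ms (ctC e e') (B' f))
    (isClosed_eq B.continuous ((Ms (ctC e e')).continuous.comp B'.continuous)) (fun g hg => ?_) f
  have hpc : PC Real.pi fun q => ((ctf a a' q.2 * J q : ℝ) : ℂ) * g (X q) :=
    PC.mulR ((PY.of_z Real.pi (ctf_smooth a a')).mul hJ.py) (h.pc hg.smo)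
  rw [hB.eq g hg, hB'.eq g hg]
  unfold ctC
  rw [Ms_fHc (ctf_smooth e e') hpc]
  congr 1
  funext q
  by_cases hq : e' ≤ q.2
  · rw [ctf_zero he hq]; simp
  · rw [ctf_one ha (by linarith : q.2 ≤ a)]
    push_cast
    ring

end Pool.Agent.Lib.MP_79abb3_an.PD

namespace Pool.Agent.Lib.MP_79abb3_an.PD

open Pool.Agent.Lib.MP_79abb3_an.SC Pool.Agent.Lib.MP_79abb3_an.P25

namespace FD
variable {D : Set ℂ} {F : FD D} {m : ℕ} {A A' : ℝ → ℝ} {b lam : ℝ} {v₀ : VD D} {v : ℝ → VD D} {mu mu' : ℝ → ℝ}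
  {p : Fin F.n → ℝ → HP}

/-- In the region where both cut-offs are `1`, `Be o = p`. -/
theorem Ms_Be_ov (hm : 1 ≤ m) (j : Fin F.n) {e : CI Real.pi} (e1 : e * ctC (4 * F.u) (8 * F.u) = e)
    (e2 : e * ctC (9 * F.u) (10 * F.u) = e) (t : ℝ) :
    Ms e (F.Be j (F.ov m A v mu p t)) = Ms e (p j t) := by
  have hu := F.u0
  have h1 := B_ov (A := A) (v := v) (mu := mu) (p := p) hm j (by linarith : 0 < 4 * F.u)
    (by linarith : 4 * F.u < 8 * F.u) (by linarith) (F.hBe j) t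
  have h2 : F.gg m A v p j t = Ms (ctC (9 * F.u) (10 * F.u)) (F.Ga j (v t)) - p j t := rfl
  have k1 : ∀ y : HP, Ms e (Ms (ctC (4 * F.u) (8 * F.u)) y) = Ms e y := fun y => by rw [Ms_Ms, e1]
  have k2 : ∀ y : HP, Ms e (Ms (ctC (9 * F.u) (10 * F.u)) y) = Ms e y := fun y => by rw [Ms_Ms, e2]
  rw [h1, h2, k1, map_sub, k1, map_sub, k2]
  abel

/-- the three cut-offs of `gs` -/
theorem cut_Be_ov (hm : 1 ≤ m) (j : Fin F.n) (t : ℝ) :
    Ms (ctC (2 * F.u) (4 * F.u)) (F.Be j (F.ov m A v mu p t)) = Ms (ctC (2 * F.u) (4 * F.u)) (p j t) ∧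
    Ms (ctC1 (2 * F.u) (4 * F.u)) (F.Be j (F.ov m A v mu p t)) = Ms (ctC1 (2 * F.u) (4 * F.u)) (p j t) ∧
    Ms (ctC2 (2 * F.u) (4 * F.u)) (F.Be j (F.ov m A v mu p t)) = Ms (ctC2 (2 * F.u) (4 * F.u)) (p j t) := by
  have hu := F.u0
  exact ⟨Ms_Be_ov hm j (ctC_mul (by linarith) (by linarith) (by linarith))
      (ctC_mul (by linarith) (by linarith) (by linarith)) t,
    Ms_Be_ov hm j (ctC1_mul (by linarith) (by linarith) (by linarith))
      (ctC1_mul (by linarith) (by linarith) (by linarith)) t,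
    Ms_Be_ov hm j (ctC2_mul (by linarith) (by linarith) (by linarith))
      (ctC2_mul (by linarith) (by linarith) (by linarith)) t⟩

theorem Bp_cut (j : Fin F.n) (f : L2c) : F.Bp j f = Ms (ctC (2 * F.u) (4 * F.u)) (F.Be j f) := by
  have hu := F.u0
  exact PB_cut (F.hBp j) (F.hBe j) (F.hX j) (F.hJ j) (by linarith) (by linarith) (by linarith) f

theorem Geo_Ms_cm (j : Fin F.n) (e : CI Real.pi) (y : HP) :
    Ms e (SC.cm (F.G j).a y) = SC.cm (F.G j).a (Ms e y) := Ms_cm e (F.G j).ha.c.s0 y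

theorem inner_Bp (j : Fin F.n) (f : L2c) {y y' : HP}
    (h : Ms (ctC (2 * F.u) (4 * F.u)) y = Ms (ctC (2 * F.u) (4 * F.u)) y') :
    ⟪F.Bp j f, SC.cm (F.G j).a y⟫_ℂ = ⟪F.Bp j f, SC.cm (F.G j).a y'⟫_ℂ := by
  rw [Bp_cut, inner_Ms, inner_Ms, ctC_star, Geo_Ms_cm, Geo_Ms_cm, h]

theorem gs_apply (j : Fin F.n) (φ : XS D) : F.gs j φ = F.Bp j (φ : L2c) -
    ((2 : ℂ) • Ms (ctC1 (2 * F.u) (4 * F.u)) (Yz (F.G j).ω (F.La j (sx D (ja D φ)))) +
      Ms (ctC2 (2 * F.u) (4 * F.u)) (SC.EE (F.G j).ω (F.La j (sx D (ja D φ))))) := rfl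

theorem inner_gs (j : Fin F.n) (φ : XS D) {y y' : HP}
    (h : Ms (ctC (2 * F.u) (4 * F.u)) y = Ms (ctC (2 * F.u) (4 * F.u)) y')
    (h1 : Ms (ctC1 (2 * F.u) (4 * F.u)) y = Ms (ctC1 (2 * F.u) (4 * F.u)) y')
    (h2 : Ms (ctC2 (2 * F.u) (4 * F.u)) y = Ms (ctC2 (2 * F.u) (4 * F.u)) y') :
    ⟪F.gs j φ, SC.cm (F.G j).a y⟫_ℂ = ⟪F.gs j φ, SC.cm (F.G j).a y'⟫_ℂ := by
  rw [gs_apply, inner_sub_left, inner_sub_left, inner_Bp j _ h, inner_add_left, inner_add_left, inner_smul_left,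
    inner_smul_left, inner_Ms, inner_Ms, inner_Ms, inner_Ms, ctC1_star, ctC2_star, Geo_Ms_cm, Geo_Ms_cm,
    Geo_Ms_cm, Geo_Ms_cm, h1, h2]

theorem ζ_cut (j : Fin F.n) {e : CI Real.pi} (h : e * ctC (11 * F.u) (12 * F.u) = e) (y : HP) :
    Ms e (Ms (F.G j).ζ y) = Ms e y := by
  rw [Ms_Ms, F.G_ζ, h]

/-- The transport form in the strip near the wall. -/
theorem bf_gs (j : Fin F.n) (φ : XS D) {y y' : HP} (g : HP)
    (h : Ms (ctC (2 * F.u) (4 * F.u)) y = Ms (ctC (2 * F.u) (4 * F.u)) y')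
    (h1 : Ms (ctC1 (2 * F.u) (4 * F.u)) y = Ms (ctC1 (2 * F.u) (4 * F.u)) y') :
    bf (F.G j).ω (⇑(SC.cm (F.G j).a y)) (uV (F.G j).ω (Vf (F.G j).ω (⇑g))) (wV (F.G j).ω (Vf (F.G j).ω (⇑g)))
        (⇑(SC.TT (F.G j).ω (F.gs j φ))) =
      bf (F.G j).ω (⇑(Ms (F.G j).ζ (SC.cm (F.G j).a y'))) (uV (F.G j).ω (Vf (F.G j).ω (⇑g)))
        (wV (F.G j).ω (Vf (F.G j).ω (⇑g))) (⇑(SC.TT (F.G j).ω (F.gs j φ))) := by
  have hu := F.u0
  obtain ⟨-, c2, c3⟩ := F.EE_cut j (by linarith : 0 < 2 * F.u) (by linarith : 2 * F.u < 4 * F.u) (by linarith)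
    (F.hLp j) (ja D φ)
  rw [TT_gs, (F.G j).bf_eq, (F.G j).bf_eq]
  have c3' : Yy (F.G j).ω (F.Lp j (sx D (ja D φ))) =
      Ms (ctC (2 * F.u) (4 * F.u)) (Yy (F.G j).ω (F.La j (sx D (ja D φ)))) +
        Ms (ctC1 (2 * F.u) (4 * F.u)) 0 := by rw [c3, map_zero, add_zero]
  have k0 : Ms (ctC (2 * F.u) (4 * F.u)) (SC.cm (F.G j).a y) =
      Ms (ctC (2 * F.u) (4 * F.u)) (Ms (F.G j).ζ (SC.cm (F.G j).a y')) := by
    rw [ζ_cut j (ctC_mul (by linarith) (by linarith) (by linarith)), Geo_Ms_cm, Geo_Ms_cm, h]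
  have k1 : Ms (ctC1 (2 * F.u) (4 * F.u)) (SC.cm (F.G j).a y) =
      Ms (ctC1 (2 * F.u) (4 * F.u)) (Ms (F.G j).ζ (SC.cm (F.G j).a y')) := by
    rw [ζ_cut j (ctC1_mul (by linarith) (by linarith) (by linarith)), Geo_Ms_cm, Geo_Ms_cm, h1]
  rw [dp_cut (F.G j) (ctC_star _ _) (ctC1_star _ _) c2 k0 k1 ((F.G j).S2_huv g).2,
    dp_cut (F.G j) (ctC_star _ _) (ctC1_star _ _) c3' k0 k1 ((F.G j).S2_huv g).1]

/-- The source of the strip equation vanishes near the wall. -/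
theorem inner_sgm_gs (j : Fin F.n) (φ : XS D) (q : HP) (w : l2 (CI Real.pi)) :
    ⟪SC.TT (F.G j).ω (F.gs j φ), sgm (F.G j) (ctC1 (9 * F.u) (10 * F.u)) (ctC2 (9 * F.u) (10 * F.u)) q w⟫_ℂ = 0 := by
  have hu := F.u0
  obtain ⟨c1, c2, -⟩ := F.EE_cut j (by linarith : 0 < 2 * F.u) (by linarith : 2 * F.u < 4 * F.u) (by linarith)
    (F.hLp j) (ja D φ)
  have z1 : Ms (ctC1 (9 * F.u) (10 * F.u)) (SC.EE (F.G j).ω (F.Lp j (sx D (ja D φ)))) = 0 := by
    rw [c1, Ms_Ms, ctC1_ctC (by linarith) (by linarith) (by linarith), Ms_zero']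
  have z2 : Ms (ctC2 (9 * F.u) (10 * F.u)) (SC.EE (F.G j).ω (F.Lp j (sx D (ja D φ)))) = 0 := by
    rw [c1, Ms_Ms, ctC2_ctC (by linarith) (by linarith) (by linarith), Ms_zero']
  have z3 : Ms (ctC1 (9 * F.u) (10 * F.u)) (Yz (F.G j).ω (F.Lp j (sx D (ja D φ)))) = 0 := by
    rw [c2, map_add, Ms_Ms, Ms_Ms, ctC1_ctC (by linarith) (by linarith) (by linarith),
      ctC1_ctC1 (by linarith) (by linarith) (by linarith), Ms_zero', Ms_zero', add_zero]
  rw [TT_gs, inner_sgm (F.G j) (ctC1_star _ _)]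
  have a1 : ⟪Yz (F.G j).ω (F.Lp j (sx D (ja D φ))), Ms (ctC1 (9 * F.u) (10 * F.u)) q⟫_ℂ = 0 := by
    have h := inner_Ms (ctC1 (9 * F.u) (10 * F.u)) (Yz (F.G j).ω (F.Lp j (sx D (ja D φ)))) q
    rw [ctC1_star] at h
    rw [← h, z3, inner_zero_left]
  have a2 : ⟪SC.EE (F.G j).ω (F.Lp j (sx D (ja D φ))), Ms (ctC2 (9 * F.u) (10 * F.u)) q⟫_ℂ = 0 := by
    have h := inner_Ms (ctC2 (9 * F.u) (10 * F.u)) (SC.EE (F.G j).ω (F.Lp j (sx D (ja D φ)))) q
    rw [ctC2_star] at h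
    rw [← h, z2, inner_zero_left]
  rw [a1, a2, z1, mul_zero, zero_add, zero_add]
  unfold dp
  simp only [lp.coeFn_zero, Pi.zero_apply, inner_zero_left, tsum_zero]

theorem hf_ve (j : Fin F.n) (r : ℝ) : hf (F.G j).lam ((F.sd m A v j).ve r) =
    uV (F.G j).ω (Vf (F.G j).ω (⇑(F.Ga j (v r)))) := funext fun n => (F.G j).hf_UV _ n

theorem hf_we (j : Fin F.n) (r : ℝ) : hf (F.G j).lam ((F.sd m A v j).we r) =
    wV (F.G j).ω (Vf (F.G j).ω (⇑(F.Ga j (v r)))) := funext fun n => (F.G j).hf_UW _ n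

/-- The right side of the strip equation. -/
theorem str_pt (hm : 1 ≤ m) (φ : XS D) (j : Fin F.n) (r : ℝ) :
    rP (F.G j) (F.sd m A v j) r (p j r) (F.gs j φ) =
      -⟪F.gs j φ, SC.cm (F.G j).a (F.Be j (F.ov m A v mu p r))⟫_ℂ +
        bf (F.G j).ω (⇑(SC.cm (F.G j).a (F.Be j (F.ov m A v mu p r))))
          (uV (F.G j).ω (Vf (F.G j).ω (⇑(F.Ga j (v r))))) (wV (F.G j).ω (Vf (F.G j).ω (⇑(F.Ga j (v r)))))
          (⇑(SC.TT (F.G j).ω (F.gs j φ))) +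
        ⟪SC.TT (F.G j).ω (F.gs j φ), Ms (F.kp m j (A r)) (SC.TT (F.G j).ω (F.gg m A v p j r))⟫_ℂ := by
  obtain ⟨h0, h1, h2⟩ := cut_Be_ov (A := A) (v := v) (mu := mu) (p := p) hm j r
  rw [inner_gs j φ h0 h1 h2, bf_gs j φ (F.Ga j (v r)) h0 h1]
  have hs : ⟪SC.TT (F.G j).ω (F.gs j φ), (F.sd m A v j).σ r⟫_ℂ = 0 := inner_sgm_gs j φ _ _
  unfold rP
  rw [hs, add_zero, hf_ve, hf_we]
  rfl

/-- The left side of the strip equation. -/
theorem str_lhs (hm : 1 ≤ m) (φ : XS D) (j : Fin F.n) (t : ℝ) :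
    ⟪F.Bp j ((js D (ja D φ) : XS D) : L2c), SC.cm (F.G j).a (F.Be j (F.ov m A v mu p t))⟫_ℂ =
      ⟪SC.TT (F.G j).ω (F.gs j φ), SC.TT (F.G j).ω (p j t)⟫_ℂ := by
  have hu := F.u0
  obtain ⟨h0, -, -⟩ := cut_Be_ov (A := A) (v := v) (mu := mu) (p := p) hm j t
  rw [inner_Bp j _ h0, ← inner_cm (F.G j).ha.c, ← F.EE_La j (by linarith : 0 < 2 * F.u)
    (by linarith : 2 * F.u < 4 * F.u) (by linarith) (F.hLp j) (F.hBp j) (ja D φ), ← TT_gs, ← Geo.inner_TT']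

end FD

end Pool.Agent.Lib.MP_79abb3_an.PD
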