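import Pool.Agent.Lib.MP_79abb3_an.PD.ScA2

/-!
Theorem D, scalar theory: the transport term, multiplication by smooth functions on `H¹₀(D)`.
-/

set_option autoImplicit false
set_option linter.unusedSectionVars false

open MeasureTheory Set Filter Topology Function
open scoped ENNReal InnerProductSpace ComplexConjugate

namespace Pool.Agent.Lib.MP_79abb3_an.PD

open Pool.Agent.Lib.MP_79abb3_an.SC

private instance ht442 : ENNReal.HolderTriple 4 4 2 := ⟨by
  have : (4 : ℝ≥0∞)⁻¹ = 2⁻¹ * 2⁻¹ := by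
    rw [← ENNReal.mul_inv (by norm_num) (by norm_num)]; norm_num
  rw [this, ← two_mul, ← mul_assoc, ENNReal.mul_inv_cancel (by norm_num) (by norm_num), one_mul]⟩

/-- the product of two `L⁴` functions -/
private noncomputable def p44 : L4c →L[ℂ] L4c →L[ℂ] L2c :=
  (ContinuousLinearMap.mul ℂ ℂ).holderL volume 4 4 2

private theorem p44_coe (f g : L4c) : (p44 f g : ℂ → ℂ) =ᵐ[volume] fun x => f x * g x :=
  (ContinuousLinearMap.mul ℂ ℂ).coeFn_holder (r := 2) f g

private theorem p44_norm (f g : L4c) : ‖p44 f g‖ ≤ ‖f‖ * ‖g‖ := by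
  have h := (ContinuousLinearMap.mul ℂ ℂ).norm_holder_apply_apply_le (r := 2) f g
  have h1 : ‖ContinuousLinearMap.mul ℂ ℂ‖ ≤ 1 := ContinuousLinearMap.opNorm_mul_le ℂ ℂ
  refine h.trans ?_
  have := mul_nonneg (norm_nonneg f) (norm_nonneg g)
  nlinarith [norm_nonneg f, norm_nonneg g]

theorem cL4_anti (c : ℂ) (z : L4c) : cL4 (c • z) = star c • cL4 z := by
  apply Lp.ext
  filter_upwards [cL4_coe (c • z), Lp.coeFn_smul c z, Lp.coeFn_smul (star c) (cL4 z), cL4_coe z]
    with x h1 h2 h3 h4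
  rw [h1, h3, h2, Pi.smul_apply, Pi.smul_apply, h4, smul_eq_mul, smul_eq_mul, map_mul]
  rfl

private theorem cL4_norm (z : L4c) : ‖cL4 z‖ = ‖z‖ := by
  have h := cZ4_norm (z, 0)
  have h1 : cZ4 (z, (0 : L4c)) = (cL4 z, 0) := by
    show (cL4 z, cL4 0) = _
    rw [map_zero]
  rw [h1, Prod.norm_mk, Prod.norm_mk, norm_zero, max_eq_left (norm_nonneg _),
    max_eq_left (norm_nonneg _)] at h
  exact h

private theorem inner_p44 (φ a : L4c) (b : L2c) : ⟪p44 φ (cL4 a), b⟫_ℂ =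
    ∫ x, conj ((φ : ℂ → ℂ) x) * ((a : ℂ → ℂ) x * (b : ℂ → ℂ) x) := by
  rw [L2.inner_def]
  apply integral_congr_ae
  filter_upwards [p44_coe φ (cL4 a), cL4_coe a] with x h1 h2
  rw [h1, h2]
  simp only [RCLike.inner_apply, map_mul, Complex.conj_conj]
  ring

private theorem int_p44 (φ a : L4c) (b : L2c) :
    Integrable fun x => conj ((φ : ℂ → ℂ) x) * ((a : ℂ → ℂ) x * (b : ℂ → ℂ) x) := by
  have h := L2.integrable_inner (𝕜 := ℂ) (p44 φ (cL4 a)) b
  refine h.congr ?_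
  filter_upwards [p44_coe φ (cL4 a), cL4_coe a] with x h1 h2
  rw [h1, h2]
  simp only [RCLike.inner_apply, map_mul, Complex.conj_conj]
  ring

/-- `φ ↦ ∫ conj φ a b` -/
private noncomputable def tri (a : L4c) (b : L2c) : Yd L4c :=
  LinearMap.mkContinuous
    { toFun := fun φ => ⟪p44 φ (cL4 a), b⟫_ℂ
      map_add' := fun φ ψ => by
        rw [map_add, _root_.add_apply, inner_add_left]
      map_smul' := fun c φ => by
        rw [map_smul, _root_.smul_apply, inner_smul_left]; rfl }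
    (‖a‖ * ‖b‖) (fun φ => by
      show ‖⟪p44 φ (cL4 a), b⟫_ℂ‖ ≤ _
      refine (norm_inner_le_norm _ _).trans ?_
      have h := p44_norm φ (cL4 a)
      rw [cL4_norm] at h
      calc ‖p44 φ (cL4 a)‖ * ‖b‖ ≤ (‖φ‖ * ‖a‖) * ‖b‖ := by gcongr
        _ = ‖a‖ * ‖b‖ * ‖φ‖ := by ring)

private theorem tri_apply (a : L4c) (b : L2c) (φ : L4c) : tri a b φ = ⟪p44 φ (cL4 a), b⟫_ℂ := rfl

private theorem tri_norm (a : L4c) (b : L2c) : ‖tri a b‖ ≤ ‖a‖ * ‖b‖ :=
  LinearMap.mkContinuous_norm_le _ (by positivity) _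

private theorem tri_add_left (a a' : L4c) (b : L2c) : tri (a + a') b = tri a b + tri a' b := by
  ext φ
  rw [_root_.add_apply, tri_apply, tri_apply, tri_apply, map_add, map_add,
    inner_add_left]

private theorem tri_smul_left (c : ℂ) (a : L4c) (b : L2c) : tri (c • a) b = c • tri a b := by
  ext φ
  rw [_root_.smul_apply, tri_apply, tri_apply, cL4_anti, map_smul, inner_smul_left]
  simp

private theorem tri_add_right (a : L4c) (b b' : L2c) : tri a (b + b') = tri a b + tri a b' := by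
  ext φ
  rw [_root_.add_apply, tri_apply, tri_apply, tri_apply, inner_add_right]

private theorem tri_smul_right (c : ℂ) (a : L4c) (b : L2c) : tri a (c • b) = c • tri a b := by
  ext φ
  rw [_root_.smul_apply, tri_apply, tri_apply, inner_smul_right]; rfl

private theorem fst_norm_le (q : Y2) : ‖q.fst‖ ≤ ‖q‖ := by
  have h := WithLp.prod_norm_sq_eq_of_L2 q
  have h1 : ‖q.fst‖ ^ 2 ≤ ‖q‖ ^ 2 := by rw [h]; nlinarith [sq_nonneg ‖q.snd‖]
  exact (pow_le_pow_iff_left₀ (norm_nonneg _) (norm_nonneg _) two_ne_zero).1 h1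

private theorem snd_norm_le (q : Y2) : ‖q.snd‖ ≤ ‖q‖ := by
  have h := WithLp.prod_norm_sq_eq_of_L2 q
  have h1 : ‖q.snd‖ ^ 2 ≤ ‖q‖ ^ 2 := by rw [h]; nlinarith [sq_nonneg ‖q.fst‖]
  exact (pow_le_pow_iff_left₀ (norm_nonneg _) (norm_nonneg _) two_ne_zero).1 h1

/-- The transport form `-∫ conj φ u·∇o`, `q = gp o = (o_y, -o_x)`, so `u·∇o = u₂ q₁ - u₁ q₂`. Proof: Hölder `L⁴ L⁴ L²`. -/
theorem exists_TR : ∃ TR : (L4c × L4c) →L[ℂ] Y2 →L[ℂ] Yd L4c,
    (∀ u q φ, TR u q φ = -∫ x, conj ((φ : ℂ → ℂ) x) * ((u.2 : ℂ → ℂ) x * (q.fst : ℂ → ℂ) x -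
      (u.1 : ℂ → ℂ) x * (q.snd : ℂ → ℂ) x)) ∧ ∀ u q, ‖TR u q‖ ≤ 2 * ‖u‖ * ‖q‖ := by
  let T0 : (L4c × L4c) →ₗ[ℂ] Y2 →ₗ[ℂ] Yd L4c := LinearMap.mk₂ ℂ
    (fun (u : L4c × L4c) (q : Y2) => tri u.1 q.snd - tri u.2 q.fst)
    (fun u u' q => by
      show tri (u.1 + u'.1) q.snd - tri (u.2 + u'.2) q.fst = _
      rw [tri_add_left, tri_add_left]; abel)
    (fun c u q => by
      show tri (c • u.1) q.snd - tri (c • u.2) q.fst = _
      rw [tri_smul_left, tri_smul_left, smul_sub])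
    (fun u q q' => by
      show tri u.1 (q.snd + q'.snd) - tri u.2 (q.fst + q'.fst) = _
      rw [tri_add_right, tri_add_right]; abel)
    (fun c u q => by
      show tri u.1 (c • q.snd) - tri u.2 (c • q.fst) = _
      rw [tri_smul_right, tri_smul_right, smul_sub])
  have hb : ∀ u q, ‖T0 u q‖ ≤ 2 * ‖u‖ * ‖q‖ := by
    intro u q
    show ‖tri u.1 q.snd - tri u.2 q.fst‖ ≤ _
    refine (norm_sub_le _ _).trans ?_
    have h1 := tri_norm u.1 q.snd
    have h2 := tri_norm u.2 q.fst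
    have h3 : ‖u.1‖ * ‖q.snd‖ ≤ ‖u‖ * ‖q‖ := by
      gcongr
      · exact norm_fst_le u
      · exact snd_norm_le q
    have h4 : ‖u.2‖ * ‖q.fst‖ ≤ ‖u‖ * ‖q‖ := by
      gcongr
      · exact norm_snd_le u
      · exact fst_norm_le q
    linarith
  refine ⟨LinearMap.mkContinuous₂ T0 2 hb, ?_, hb⟩
  intro u q φ
  show tri u.1 q.snd φ - tri u.2 q.fst φ = _
  rw [tri_apply, tri_apply, inner_p44, inner_p44, ← integral_sub (int_p44 _ _ _) (int_p44 _ _ _),
    ← integral_neg]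
  congr 1
  funext x
  ring

noncomputable def TR : (L4c × L4c) →L[ℂ] Y2 →L[ℂ] Yd L4c := exists_TR.choose

theorem TR_apply (u : L4c × L4c) (q : Y2) (φ : L4c) : TR u q φ =
    -∫ x, conj ((φ : ℂ → ℂ) x) * ((u.2 : ℂ → ℂ) x * (q.fst : ℂ → ℂ) x -
      (u.1 : ℂ → ℂ) x * (q.snd : ℂ → ℂ) x) := exists_TR.choose_spec.1 u q φ

private theorem TR_inner (u : L4c × L4c) (q : Y2) (φ : L4c) : TR u q φ =
    ⟪p44 φ (cL4 u.1), q.snd⟫_ℂ - ⟪p44 φ (cL4 u.2), q.fst⟫_ℂ := by
  rw [TR_apply, inner_p44, inner_p44, ← integral_sub (int_p44 _ _ _) (int_p44 _ _ _),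
    ← integral_neg]
  congr 1
  funext x
  ring

theorem TR_norm (u : L4c × L4c) (q : Y2) : ‖TR u q‖ ≤ 2 * ‖u‖ * ‖q‖ := exists_TR.choose_spec.2 u q

theorem TR_conj (u : L4c × L4c) (q : Y2) : cY cL4 cL4_anti (TR u q) = TR (cZ4 u) (cYy q) := by
  ext φ
  have h0 : (cY cL4 cL4_anti (TR u q)) φ = conj (TR u q (cL4 φ)) := rfl
  rw [h0, TR_apply, TR_apply, map_neg]
  congr 1
  rw [← integral_conj]
  apply integral_congr_ae
  have e1 : (cZ4 u).1 = cL4 u.1 := rfl
  have e2 : (cZ4 u).2 = cL4 u.2 := rfl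
  rw [e1, e2, cYy_fst, cYy_snd]
  filter_upwards [cL4_coe φ, cL4_coe u.1, cL4_coe u.2, cL2_coe q.fst, cL2_coe q.snd]
    with x h1 h2 h3 h4 h5
  rw [h1, h2, h3, h4, h5]
  simp only [map_mul, map_sub, Complex.conj_conj]

/-- smooth real weights, bounded with their derivatives -/
structure Wg (M : ℂ → ℂ) (c : ℝ) : Prop where
  smo : Smo M
  real : ∀ x, conj (M x) = M x
  bd : ∀ x, ‖M x‖ ≤ c ∧ ‖px M x‖ ≤ c ∧ ‖py M x‖ ≤ c ∧ ‖lap M x‖ ≤ c

section aux
variable {f g M : ℂ → ℂ} {c : ℝ}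

private theorem px_mul' (hf : Smo f) (hg : Smo g) (x : ℂ) :
    px (fun x => f x * g x) x = f x * px g x + px f x * g x := by
  unfold px
  rw [fderiv_fun_mul (hf.differentiable x) (hg.differentiable x)]
  simp only [_root_.add_apply, _root_.smul_apply, smul_eq_mul]
  ring

private theorem py_mul' (hf : Smo f) (hg : Smo g) (x : ℂ) :
    py (fun x => f x * g x) x = f x * py g x + py f x * g x := by
  unfold py
  rw [fderiv_fun_mul (hf.differentiable x) (hg.differentiable x)]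
  simp only [_root_.add_apply, _root_.smul_apply, smul_eq_mul]
  ring

private theorem ibpx' (h : Cc f) (h' : Smo g) : ∫ x, px f x * g x = -∫ x, f x * px g x := by
  have h1 := integral_mul_fderiv_eq_neg_fderiv_mul_of_integrable (μ := (volume : Measure ℂ))
    (v := (1 : ℂ)) (h.px.mul_smo h').integrable (h.mul_smo h'.px).integrable
    (h.mul_smo h').integrable (fun x _ => h.smo.differentiable x)
    (fun x _ => h'.differentiable x)
  exact (neg_eq_iff_eq_neg.2 h1).symm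

private theorem ibpy' (h : Cc f) (h' : Smo g) : ∫ x, py f x * g x = -∫ x, f x * py g x := by
  have h1 := integral_mul_fderiv_eq_neg_fderiv_mul_of_integrable (μ := (volume : Measure ℂ))
    (v := Complex.I) (h.py.mul_smo h').integrable (h.mul_smo h'.py).integrable
    (h.mul_smo h').integrable (fun x _ => h.smo.differentiable x)
    (fun x _ => h'.differentiable x)
  exact (neg_eq_iff_eq_neg.2 h1).symm

private theorem Wg.fun_conj (h : Wg M c) : (fun x => (starRingEnd ℂ) (M x)) = M :=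
  funext h.real

private theorem Wg.px_real (h : Wg M c) (x : ℂ) : conj (px M x) = px M x := by
  have h1 := congrFun h.smo.px_conj x
  rw [h.fun_conj] at h1
  exact h1.symm

private theorem Wg.py_real (h : Wg M c) (x : ℂ) : conj (py M x) = py M x := by
  have h1 := congrFun h.smo.py_conj x
  rw [h.fun_conj] at h1
  exact h1.symm

private theorem Wg.lap_real (h : Wg M c) (x : ℂ) : conj (lap M x) = lap M x := by
  have h1 := congrFun h.smo.px.px_conj x
  have h2 := congrFun h.smo.py.py_conj x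
  have e1 : (fun x => (starRingEnd ℂ) (px M x)) = px M := funext h.px_real
  have e2 : (fun x => (starRingEnd ℂ) (py M x)) = py M := funext h.py_real
  rw [e1] at h1
  rw [e2] at h2
  unfold lap
  rw [map_add, ← h1, ← h2]

private theorem Wg.bm (h : Wg M c) : Bm M c :=
  ⟨h.smo.continuous.aestronglyMeasurable, fun x => (h.bd x).1⟩

private theorem Wg.bmx (h : Wg M c) : Bm (px M) c :=
  ⟨h.smo.px.continuous.aestronglyMeasurable, fun x => (h.bd x).2.1⟩

private theorem Wg.bmy (h : Wg M c) : Bm (py M) c :=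
  ⟨h.smo.py.continuous.aestronglyMeasurable, fun x => (h.bd x).2.2.1⟩

private theorem Wg.bml (h : Wg M c) : Bm (lap M) c :=
  ⟨h.smo.lap.continuous.aestronglyMeasurable, fun x => (h.bd x).2.2.2⟩

private theorem Wg.c0 (h : Wg M c) : 0 ≤ c := (norm_nonneg _).trans (h.bd 0).1

private theorem mulCc (hM : Smo M) (hf : Cc f) : Cc fun x => M x * f x := by
  have : (fun x => M x * f x) = fun x => f x * M x := funext fun x => mul_comm _ _
  rw [this]; exact hf.mul_smo hM

private theorem gp_mul (hM : Wg M c) (hf : Cc f) : gp (fun x => M x * f x) =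
    WithLp.toLp 2 (mm M (cl2 (py f)) + mm (py M) (cl2 f), -(mm M (cl2 (px f)) + mm (px M) (cl2 f))) := by
  unfold gp
  rw [mm_cl2 hM.bm (hf.py.memLp 2), mm_cl2 hM.bmy (hf.memLp 2), mm_cl2 hM.bm (hf.px.memLp 2),
    mm_cl2 hM.bmx (hf.memLp 2), ← cl2_add ((mulCc hM.smo hf.py).memLp 2)
    ((mulCc hM.smo.py hf).memLp 2), ← cl2_add ((mulCc hM.smo hf.px).memLp 2)
    ((mulCc hM.smo.px hf).memLp 2)]
  have e1 : py (fun x => M x * f x) = fun x => M x * py f x + py M x * f x :=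
    funext (py_mul' hM.smo hf.smo)
  have e2 : px (fun x => M x * f x) = fun x => M x * px f x + px M x * f x :=
    funext (px_mul' hM.smo hf.smo)
  rw [e1, e2]

private theorem re_mm (h : Bm g c) (u : L2c) :
    (⟪u, mm g u⟫_ℂ).re = ∫ x, (g x).re * ‖(u : ℂ → ℂ) x‖ ^ 2 ∧
      Integrable fun x => (g x).re * ‖(u : ℂ → ℂ) x‖ ^ 2 := by
  have e : (fun x => ⟪(u : ℂ → ℂ) x, (mm g u : ℂ → ℂ) x⟫_ℂ) =ᵐ[volume]
      fun x => g x * ((‖(u : ℂ → ℂ) x‖ ^ 2 : ℝ) : ℂ) := by
    filter_upwards [mm_coe h u] with x hx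
    rw [hx, RCLike.inner_apply]
    push_cast
    rw [← Complex.conj_mul']
    ring
  have hi := L2.integrable_inner (𝕜 := ℂ) u (mm g u)
  have hi2 : Integrable fun x => g x * ((‖(u : ℂ → ℂ) x‖ ^ 2 : ℝ) : ℂ) := hi.congr e
  have e3 : ∀ x, (g x * ((‖(u : ℂ → ℂ) x‖ ^ 2 : ℝ) : ℂ)).re = (g x).re * ‖(u : ℂ → ℂ) x‖ ^ 2 :=
    fun x => Complex.re_mul_ofReal _ _
  constructor
  · rw [L2.inner_def, integral_congr_ae e]
    have h2 := integral_re hi2
    simp only [RCLike.re_eq_complex_re] at h2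
    rw [← h2]
    exact integral_congr_ae (Eventually.of_forall e3)
  · have h2 := hi2.re
    refine h2.congr (Eventually.of_forall fun x => ?_)
    simp only [RCLike.re_eq_complex_re]
    exact e3 x

/-- the square of the modulus -/
private theorem sqCc (hf : Cc f) : Cc fun x => f x * conj (f x) := hf.mul_smo hf.conj.smo

private theorem px_sq (hf : Cc f) (x : ℂ) :
    px (fun x => f x * conj (f x)) x = f x * conj (px f x) + px f x * conj (f x) := by
  rw [px_mul' hf.smo hf.conj.smo]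
  have := congrFun hf.smo.px_conj x
  rw [this]

private theorem py_sq (hf : Cc f) (x : ℂ) :
    py (fun x => f x * conj (f x)) x = f x * conj (py f x) + py f x * conj (f x) := by
  rw [py_mul' hf.smo hf.conj.smo]
  have := congrFun hf.smo.py_conj x
  rw [this]

private theorem wg_self (hM : Wg M c) (hf : Cc f) :
    2 * (⟪gp (fun x => M x * f x), gp f⟫_ℂ).re = 2 * ((⟪cl2 (py f), mm M (cl2 (py f))⟫_ℂ).re +
      (⟪cl2 (px f), mm M (cl2 (px f))⟫_ℂ).re) - (⟪cl2 f, mm (lap M) (cl2 f)⟫_ℂ).re := by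
  have hF := mulCc hM.smo hf
  have a1 : ⟪gp (fun x => M x * f x), gp f⟫_ℂ =
      (∫ x, conj (py (fun x => M x * f x) x) * py f x) +
      ∫ x, conj (px (fun x => M x * f x) x) * px f x := by
    unfold gp
    rw [WithLp.prod_inner_apply]
    have e1 : ⟪-cl2 (px fun x => M x * f x), -cl2 (px f)⟫_ℂ =
        ⟪cl2 (px fun x => M x * f x), cl2 (px f)⟫_ℂ := by
      rw [inner_neg_left, inner_neg_right, neg_neg]
    show ⟪cl2 (py fun x => M x * f x), cl2 (py f)⟫_ℂ +
      ⟪-cl2 (px fun x => M x * f x), -cl2 (px f)⟫_ℂ = _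
    rw [e1, Cc.inner hF.py hf.py, Cc.inner hF.px hf.px]
  have a2 : ⟪cl2 (py f), mm M (cl2 (py f))⟫_ℂ = ∫ x, conj (py f x) * (M x * py f x) := by
    rw [mm_cl2 hM.bm (hf.py.memLp 2), Cc.inner hf.py (mulCc hM.smo hf.py)]
  have a3 : ⟪cl2 (px f), mm M (cl2 (px f))⟫_ℂ = ∫ x, conj (px f x) * (M x * px f x) := by
    rw [mm_cl2 hM.bm (hf.px.memLp 2), Cc.inner hf.px (mulCc hM.smo hf.px)]
  have a4 : ⟪cl2 f, mm (lap M) (cl2 f)⟫_ℂ = ∫ x, conj (f x) * (lap M x * f x) := by
    rw [mm_cl2 hM.bml (hf.memLp 2), Cc.inner hf (mulCc hM.smo.lap hf)]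
  have b1 : ∀ x, conj (py (fun x => M x * f x) x) * py f x =
      conj (py f x) * (M x * py f x) + py M x * (conj (f x) * py f x) := fun x => by
    rw [py_mul' hM.smo hf.smo, map_add, map_mul, map_mul, hM.real, hM.py_real]; ring
  have b2 : ∀ x, conj (px (fun x => M x * f x) x) * px f x =
      conj (px f x) * (M x * px f x) + px M x * (conj (f x) * px f x) := fun x => by
    rw [px_mul' hM.smo hf.smo, map_add, map_mul, map_mul, hM.real, hM.px_real]; ring
  have i1 : Integrable fun x => conj (py f x) * (M x * py f x) :=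
    (hf.py.conj.mul_smo (mulCc hM.smo hf.py).smo).integrable
  have i2 : Integrable fun x => conj (px f x) * (M x * px f x) :=
    (hf.px.conj.mul_smo (mulCc hM.smo hf.px).smo).integrable
  have i3 : Integrable fun x => py M x * (conj (f x) * py f x) :=
    (mulCc hM.smo.py (hf.conj.mul_smo hf.py.smo)).integrable
  have i4 : Integrable fun x => px M x * (conj (f x) * px f x) :=
    (mulCc hM.smo.px (hf.conj.mul_smo hf.px.smo)).integrable
  set J1 := ∫ x, py M x * (conj (f x) * py f x) with hJ1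
  set J2 := ∫ x, px M x * (conj (f x) * px f x) with hJ2
  have c1 : ⟪gp (fun x => M x * f x), gp f⟫_ℂ = ⟪cl2 (py f), mm M (cl2 (py f))⟫_ℂ + J1 +
      (⟪cl2 (px f), mm M (cl2 (px f))⟫_ℂ + J2) := by
    rw [a1, a2, a3, hJ1, hJ2, ← integral_add i1 i3, ← integral_add i2 i4]
    congr 1
    · exact integral_congr_ae (Eventually.of_forall b1)
    · exact integral_congr_ae (Eventually.of_forall b2)
  -- the divergence
  have d1 : J1 + conj J1 = -∫ x, (f x * conj (f x)) * py (py M) x := by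
    rw [← ibpy' (sqCc hf) hM.smo.py, hJ1, ← integral_conj, ← integral_add i3 (by
      have := i3.norm
      exact (Complex.conjCLE : ℂ →L[ℝ] ℂ).integrable_comp i3)]
    apply integral_congr_ae
    refine Eventually.of_forall fun x => ?_
    show py M x * (conj (f x) * py f x) + conj (py M x * (conj (f x) * py f x)) =
      py (fun x => f x * conj (f x)) x * py M x
    rw [py_sq hf, map_mul, map_mul, hM.py_real, Complex.conj_conj]; ring
  have d2 : J2 + conj J2 = -∫ x, (f x * conj (f x)) * px (px M) x := by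
    rw [← ibpx' (sqCc hf) hM.smo.px, hJ2, ← integral_conj, ← integral_add i4 (by
      exact (Complex.conjCLE : ℂ →L[ℝ] ℂ).integrable_comp i4)]
    apply integral_congr_ae
    refine Eventually.of_forall fun x => ?_
    show px M x * (conj (f x) * px f x) + conj (px M x * (conj (f x) * px f x)) =
      px (fun x => f x * conj (f x)) x * px M x
    rw [px_sq hf, map_mul, map_mul, hM.px_real, Complex.conj_conj]; ring
  have d3 : (J1 + conj J1) + (J2 + conj J2) = -⟪cl2 f, mm (lap M) (cl2 f)⟫_ℂ := by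
    rw [d1, d2, a4, ← neg_add, ← integral_add ((sqCc hf).mul_smo hM.smo.py.py).integrable
      ((sqCc hf).mul_smo hM.smo.px.px).integrable]
    congr 1
    apply integral_congr_ae
    refine Eventually.of_forall fun x => ?_
    show f x * conj (f x) * py (py M) x + f x * conj (f x) * px (px M) x =
      conj (f x) * ((px (px M) x + py (py M) x) * f x)
    ring
  have d4 : 2 * (J1.re + J2.re) = -(⟪cl2 f, mm (lap M) (cl2 f)⟫_ℂ).re := by
    have := congrArg Complex.re d3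
    simp only [Complex.add_re, Complex.conj_re, Complex.neg_re] at this
    linarith
  rw [c1]
  simp only [Complex.add_re]
  linarith

private theorem vec_norm (a b : L2c) : ‖(WithLp.toLp 2 (a, b) : Y2)‖ ≤ ‖a‖ + ‖b‖ := by
  have h := WithLp.prod_norm_sq_eq_of_L2 (WithLp.toLp 2 (a, b) : Y2)
  have h1 : ‖(WithLp.toLp 2 (a, b) : Y2)‖ ^ 2 ≤ (‖a‖ + ‖b‖) ^ 2 := by
    rw [h]
    show ‖a‖ ^ 2 + ‖b‖ ^ 2 ≤ _
    nlinarith [mul_nonneg (norm_nonneg a) (norm_nonneg b)]
  exact (pow_le_pow_iff_left₀ (norm_nonneg _) (by positivity) two_ne_zero).1 h1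

private theorem wg_norm (hM : Wg M c) (hf : Cc f) :
    ‖gp (fun x => M x * f x)‖ ≤ c * ‖gp f‖ + 2 * c * ‖cl2 f‖ := by
  have hc := hM.c0
  have e : gp (fun x => M x * f x) =
      (WithLp.toLp 2 (mm M (cl2 (py f)), mm M (-cl2 (px f))) : Y2) +
      WithLp.toLp 2 (mm (py M) (cl2 f), -mm (px M) (cl2 f)) := by
    rw [gp_mul hM hf, ← WithLp.toLp_add, Prod.mk_add_mk, map_neg]
    congr 2
    abel
  rw [e]
  refine (norm_add_le _ _).trans (add_le_add ?_ ?_)
  · have h := WithLp.prod_norm_sq_eq_of_L2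
      (WithLp.toLp 2 (mm M (cl2 (py f)), mm M (-cl2 (px f))) : Y2)
    have h' := WithLp.prod_norm_sq_eq_of_L2 (gp f)
    have h2 : ‖(WithLp.toLp 2 (mm M (cl2 (py f)), mm M (-cl2 (px f))) : Y2)‖ ^ 2 ≤
        (c * ‖gp f‖) ^ 2 := by
      rw [h, mul_pow, h']
      show ‖mm M (cl2 (py f))‖ ^ 2 + ‖mm M (-cl2 (px f))‖ ^ 2 ≤
        c ^ 2 * (‖cl2 (py f)‖ ^ 2 + ‖-cl2 (px f)‖ ^ 2)
      have k1 := (mm M).le_of_opNorm_le (mm_norm hM.bm) (cl2 (py f))
      have k2 := (mm M).le_of_opNorm_le (mm_norm hM.bm) (-cl2 (px f))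
      have k3 := pow_le_pow_left₀ (norm_nonneg _) k1 2
      have k4 := pow_le_pow_left₀ (norm_nonneg _) k2 2
      rw [mul_pow] at k3 k4
      linarith
    exact (pow_le_pow_iff_left₀ (norm_nonneg _) (by positivity) two_ne_zero).1 h2
  · refine (vec_norm _ _).trans ?_
    rw [norm_neg]
    have k1 := (mm (py M)).le_of_opNorm_le (mm_norm hM.bmy) (cl2 f)
    have k2 := (mm (px M)).le_of_opNorm_le (mm_norm hM.bmx) (cl2 f)
    linarith

private theorem inner_cl2' {f : ℂ → ℂ} (hf : MemLp f 2 (volume : Measure ℂ)) (u : L2c) :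
    ⟪cl2 f, u⟫_ℂ = ∫ x, u x * (starRingEnd ℂ) (f x) := by
  rw [L2.inner_def]
  refine integral_congr_ae ?_
  filter_upwards [cl2_coe hf] with x hx
  rw [hx, RCLike.inner_apply]

private theorem int_UCc (U : L2c) {η : ℂ → ℂ} (hη : Cc η) :
    Integrable fun x => (U : ℂ → ℂ) x * η x :=
  (Lp.memLp U).integrable_mul (hη.memLp 2)

/-- velocities are divergence free -/
private theorem XD_div {D : Set ℂ} (y : XD D) {η : ℂ → ℂ} (hη : Cc η) :
    ∫ x, ((y : Y2).fst x * px η x + (y : Y2).snd x * py η x) = 0 := by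
  have key : ∀ U : Y2, ∫ x, (U.fst x * px η x + U.snd x * py η x) =
      ⟪cl2 (fun x => conj (px η x)), U.fst⟫_ℂ + ⟪cl2 (fun x => conj (py η x)), U.snd⟫_ℂ := by
    intro U
    rw [inner_cl2' (hη.px.conj.memLp 2), inner_cl2' (hη.py.conj.memLp 2),
      integral_add (int_UCc U.fst hη.px) (int_UCc U.snd hη.py)]
    simp only [Complex.conj_conj]
  rw [key]
  have hcl : IsClosed {y : XD D | ⟪cl2 (fun x => conj (px η x)), (y : Y2).fst⟫_ℂ +
      ⟪cl2 (fun x => conj (py η x)), (y : Y2).snd⟫_ℂ = 0} :=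
    isClosed_eq (by fun_prop) continuous_const
  refine isClosed_property (gpX_dense D) hcl (fun ψ => ?_) y
  show ⟪cl2 (fun x => conj (px η x)), ((gpX D ψ : XD D) : Y2).fst⟫_ℂ +
      ⟪cl2 (fun x => conj (py η x)), ((gpX D ψ : XD D) : Y2).snd⟫_ℂ = 0
  have hψ := Adm.cc ψ
  have e1 : ((gpX D ψ : XD D) : Y2).fst = cl2 (py ψ) := rfl
  have e2 : ((gpX D ψ : XD D) : Y2).snd = -cl2 (px ψ) := rfl
  rw [e1, e2, inner_neg_right, Cc.inner hη.px.conj hψ.py, Cc.inner hη.py.conj hψ.px]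
  simp only [Complex.conj_conj]
  have h1 := hψ.ibpy hη.px
  have h2 := hψ.ibpx hη.py
  have h3 : ∫ x, px η x * py (ψ : ℂ → ℂ) x = ∫ x, py (ψ : ℂ → ℂ) x * px η x := by
    simp only [mul_comm]
  have h4 : ∫ x, py η x * px (ψ : ℂ → ℂ) x = ∫ x, px (ψ : ℂ → ℂ) x * py η x := by
    simp only [mul_comm]
  rw [h3, h4, h1, h2, hη.smo.pxy]
  ring

private theorem real_of_fix {y : Y2} (h : cYy y = y) :
    (∀ᵐ x ∂(volume : Measure ℂ), conj (y.fst x) = y.fst x) ∧
    ∀ᵐ x ∂(volume : Measure ℂ), conj (y.snd x) = y.snd x := by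
  constructor
  · have h1 : cL2 y.fst = y.fst := by rw [← cYy_fst, h]
    have h2 := cL2_coe y.fst
    rw [h1] at h2
    filter_upwards [h2] with x hx
    exact hx.symm
  · have h1 : cL2 y.snd = y.snd := by rw [← cYy_snd, h]
    have h2 := cL2_coe y.snd
    rw [h1] at h2
    filter_upwards [h2] with x hx
    exact hx.symm

/-- the transport form on test functions -/
private theorem wg_tr {D : Set ℂ} (hM : Wg M c) (hf : Cc f) (y : XD D) (hy : cYy (y : Y2) = y) :
    2 * (-∫ x, conj (M x * f x) * ((y : Y2).snd x * py f x + (y : Y2).fst x * px f x)).re =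
      ∫ x, (((y : Y2).fst x * px M x + (y : Y2).snd x * py M x).re) * ‖f x‖ ^ 2 := by
  obtain ⟨r1, r2⟩ := real_of_fix hy
  set u1 : L2c := (y : Y2).fst with hu1
  set u2 : L2c := (y : Y2).snd with hu2
  have hΦ := sqCc hf
  have hMΦ := mulCc hM.smo hΦ
  have hdiv := XD_div y hMΦ
  rw [← hu1, ← hu2] at hdiv
  -- the complex integral
  set J := ∫ x, conj (M x * f x) * ((u2 : ℂ → ℂ) x * py f x + (u1 : ℂ → ℂ) x * px f x) with hJ
  have hCA : ∀ {g : ℂ → ℂ}, Cc g → Cc fun x => conj (M x * f x) * g x := fun hg =>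
    (mulCc hM.smo hf).conj.mul_smo hg.smo
  have iJ : Integrable fun x => conj (M x * f x) * ((u2 : ℂ → ℂ) x * py f x + (u1 : ℂ → ℂ) x * px f x) := by
    have := (int_UCc u2 (hCA hf.py)).add (int_UCc u1 (hCA hf.px))
    refine this.congr (Eventually.of_forall fun x => ?_)
    show (u2 : ℂ → ℂ) x * (conj (M x * f x) * py f x) + (u1 : ℂ → ℂ) x * (conj (M x * f x) * px f x) = _
    ring
  have iJc : Integrable fun x => conj (conj (M x * f x) *
      ((u2 : ℂ → ℂ) x * py f x + (u1 : ℂ → ℂ) x * px f x)) :=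
    (Complex.conjCLE : ℂ →L[ℝ] ℂ).integrable_comp iJ
  have iW1 : Integrable fun x => (u1 : ℂ → ℂ) x * (px M x * (f x * conj (f x))) :=
    int_UCc u1 (mulCc hM.smo.px hΦ)
  have iW2 : Integrable fun x => (u2 : ℂ → ℂ) x * (py M x * (f x * conj (f x))) :=
    int_UCc u2 (mulCc hM.smo.py hΦ)
  have iD : Integrable fun x => (u1 : ℂ → ℂ) x * px (fun x => M x * (f x * conj (f x))) x +
      (u2 : ℂ → ℂ) x * py (fun x => M x * (f x * conj (f x))) x :=
    (int_UCc u1 hMΦ.px).add (int_UCc u2 hMΦ.py)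
  have iA : Integrable fun x => conj (M x * f x) *
      ((u2 : ℂ → ℂ) x * py f x + (u1 : ℂ → ℂ) x * px f x) + conj (conj (M x * f x) *
      ((u2 : ℂ → ℂ) x * py f x + (u1 : ℂ → ℂ) x * px f x)) := iJ.add iJc
  have iB : Integrable fun x => (u1 : ℂ → ℂ) x * (px M x * (f x * conj (f x))) +
      (u2 : ℂ → ℂ) x * (py M x * (f x * conj (f x))) := iW1.add iW2
  have h1 : J + conj J + ∫ x, ((u1 : ℂ → ℂ) x * (px M x * (f x * conj (f x))) +
      (u2 : ℂ → ℂ) x * (py M x * (f x * conj (f x)))) = 0 := by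
    rw [← hdiv, hJ, ← integral_conj,
      ← integral_add iJ iJc, ← integral_add iA iB]
    apply integral_congr_ae
    filter_upwards [r1, r2] with x hx1 hx2
    show conj (M x * f x) * ((u2 : ℂ → ℂ) x * py f x + (u1 : ℂ → ℂ) x * px f x) +
      conj (conj (M x * f x) * ((u2 : ℂ → ℂ) x * py f x + (u1 : ℂ → ℂ) x * px f x)) +
      ((u1 : ℂ → ℂ) x * (px M x * (f x * conj (f x))) +
      (u2 : ℂ → ℂ) x * (py M x * (f x * conj (f x)))) =
      (u1 : ℂ → ℂ) x * px (fun x => M x * (f x * conj (f x))) x +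
      (u2 : ℂ → ℂ) x * py (fun x => M x * (f x * conj (f x))) x
    rw [px_mul' hM.smo hΦ.smo, py_mul' hM.smo hΦ.smo, px_sq hf, py_sq hf]
    simp only [map_mul, map_add, Complex.conj_conj, hM.real, hx1, hx2]
    ring
  have h2 : (∫ x, ((u1 : ℂ → ℂ) x * (px M x * (f x * conj (f x))) +
      (u2 : ℂ → ℂ) x * (py M x * (f x * conj (f x))))).re =
      ∫ x, (((u1 : ℂ → ℂ) x * px M x + (u2 : ℂ → ℂ) x * py M x).re) * ‖f x‖ ^ 2 := by
    have h3 := integral_re (iW1.add iW2)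
    simp only [RCLike.re_eq_complex_re] at h3
    rw [← show ∫ x, ((u1 : ℂ → ℂ) x * (px M x * (f x * conj (f x))) +
      (u2 : ℂ → ℂ) x * (py M x * (f x * conj (f x)))) = ∫ x, ((fun x => (u1 : ℂ → ℂ) x *
        (px M x * (f x * conj (f x)))) + fun x => (u2 : ℂ → ℂ) x *
        (py M x * (f x * conj (f x)))) x from rfl] at h3
    rw [← h3]
    apply integral_congr_ae
    refine Eventually.of_forall fun x => ?_
    show ((u1 : ℂ → ℂ) x * (px M x * (f x * conj (f x))) +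
      (u2 : ℂ → ℂ) x * (py M x * (f x * conj (f x)))).re = _
    have e : (u1 : ℂ → ℂ) x * (px M x * (f x * conj (f x))) +
      (u2 : ℂ → ℂ) x * (py M x * (f x * conj (f x))) =
      ((u1 : ℂ → ℂ) x * px M x + (u2 : ℂ → ℂ) x * py M x) * ((‖f x‖ ^ 2 : ℝ) : ℂ) := by
      push_cast
      rw [← Complex.mul_conj']
      ring
    rw [e, Complex.re_mul_ofReal]
  have h3 := congrArg Complex.re h1
  simp only [Complex.add_re, Complex.conj_re, Complex.zero_re] at h3
  rw [h2] at h3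
  rw [Complex.neg_re]
  linarith

end aux

section
variable {D : Set ℂ} (hD : Bornology.IsBounded D) {M : ℂ → ℂ} {c : ℝ}

/-- `φ ↦ gp (M φ)` on test functions -/
theorem Wg.mul_mem (hM : Smo M) (φ : AdmS D) : (fun x => M x * (φ : ℂ → ℂ) x) ∈ AdmS D := by
  refine ⟨mulCc hM φ.2.1, ?_⟩
  exact (tsupport_mul_subset_right (f := M) (g := (φ : ℂ → ℂ))).trans φ.2.2

include hD

/-- Multiplication by `M` on `H¹₀(D)`. Proof: `gp (M φ) = M gp φ + φ gp M`, Poincaré, `extendOfNorm`. -/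
theorem exists_mS (hM : Wg M c) : ∃ m : SV D →L[ℂ] SV D,
    (∀ φ : AdmS D, m (gpV D φ) = gpV D ⟨_, Wg.mul_mem hM.smo φ⟩) ∧
    (∀ q : SV D, ((js D (m q) : XS D) : L2c) = mm M ((js D q : XS D) : L2c)) ∧
    (∀ q : SV D, ‖m q‖ ≤ c * ‖q‖ + 2 * c * ‖js D q‖) ∧
    (∀ q : SV D, 2 * (⟪m q, q⟫_ℂ).re = 2 * (∫ x, (M x).re * (‖(q : Y2).fst x‖ ^ 2 + ‖(q : Y2).snd x‖ ^ 2)) -
      ∫ x, (lap M x).re * ‖((js D q : XS D) : L2c) x‖ ^ 2) ∧
    (∀ (v : VD D) (q : SV D), cVD D v = v → 2 * (TR (jj D v) (q : Y2) (j4 D (m q))).re =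
      ∫ x, ((((iot D v : XD D) : Y2).fst x * px M x + ((iot D v : XD D) : Y2).snd x * py M x).re) *
        ‖((js D q : XS D) : L2c) x‖ ^ 2) := by
  have hc := hM.c0
  let mL : AdmS D →ₗ[ℂ] SV D :=
    { toFun := fun φ => gpV D ⟨_, Wg.mul_mem hM.smo φ⟩
      map_add' := fun φ χ => by
        rw [← map_add]
        congr 1
        apply Subtype.ext
        funext x
        show M x * ((φ : ℂ → ℂ) x + (χ : ℂ → ℂ) x) = M x * (φ : ℂ → ℂ) x + M x * (χ : ℂ → ℂ) x
        ring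
      map_smul' := fun k φ => by
        rw [RingHom.id_apply, ← map_smul]
        congr 1
        apply Subtype.ext
        funext x
        show M x * (k * (φ : ℂ → ℂ) x) = k * (M x * (φ : ℂ → ℂ) x)
        ring }
  have hnorm : ∀ φ : AdmS D, ‖mL φ‖ ≤ c * ‖gpV D φ‖ + 2 * c * ‖js D (gpV D φ)‖ := by
    intro φ
    rw [js_gpV hD]
    exact wg_norm hM φ.2.1
  have hex : ∃ C, ∀ φ, ‖mL φ‖ ≤ C * ‖gpV D φ‖ := by
    refine ⟨c + 2 * c * ‖js D‖, fun φ => (hnorm φ).trans ?_⟩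
    have h1 := (js D).le_opNorm (gpV D φ)
    have h2 : 2 * c * ‖js D (gpV D φ)‖ ≤ 2 * c * (‖js D‖ * ‖gpV D φ‖) := by gcongr
    linarith
  let m : SV D →L[ℂ] SV D := mL.extendOfNorm (gpV D)
  have hm : ∀ φ : AdmS D, m (gpV D φ) = gpV D ⟨_, Wg.mul_mem hM.smo φ⟩ := fun φ =>
    LinearMap.extendOfNorm_eq (gpV_dense D) hex φ
  refine ⟨m, hm, ?_, ?_, ?_, ?_⟩
  · intro q
    have hcl : IsClosed {q : SV D | ((js D (m q) : XS D) : L2c) = mm M ((js D q : XS D) : L2c)} :=
      isClosed_eq (by fun_prop) (by fun_prop)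
    refine isClosed_property (gpV_dense D) hcl (fun φ => ?_) q
    show ((js D (m (gpV D φ)) : XS D) : L2c) = mm M ((js D (gpV D φ) : XS D) : L2c)
    rw [hm, js_gpV hD, js_gpV hD, clX_coe, clX_coe, mm_cl2 hM.bm (φ.2.1.memLp 2)]
  · intro q
    have hcl : IsClosed {q : SV D | ‖m q‖ ≤ c * ‖q‖ + 2 * c * ‖js D q‖} :=
      isClosed_le (by fun_prop) (by fun_prop)
    refine isClosed_property (gpV_dense D) hcl (fun φ => ?_) q
    show ‖m (gpV D φ)‖ ≤ c * ‖gpV D φ‖ + 2 * c * ‖js D (gpV D φ)‖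
    rw [hm]
    exact hnorm φ
  · intro q
    have e1 : ∫ x, (M x).re * (‖(q : Y2).fst x‖ ^ 2 + ‖(q : Y2).snd x‖ ^ 2) =
        (⟪(q : Y2).fst, mm M (q : Y2).fst⟫_ℂ).re + (⟪(q : Y2).snd, mm M (q : Y2).snd⟫_ℂ).re := by
      rw [(re_mm hM.bm (q : Y2).fst).1, (re_mm hM.bm (q : Y2).snd).1,
        ← integral_add (re_mm hM.bm (q : Y2).fst).2 (re_mm hM.bm (q : Y2).snd).2]
      congr 1
      funext x
      ring
    rw [e1, ← (re_mm hM.bml ((js D q : XS D) : L2c)).1]
    have hcl : IsClosed {q : SV D | 2 * (⟪m q, q⟫_ℂ).re =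
        2 * ((⟪(q : Y2).fst, mm M (q : Y2).fst⟫_ℂ).re + (⟪(q : Y2).snd, mm M (q : Y2).snd⟫_ℂ).re) -
        (⟪((js D q : XS D) : L2c), mm (lap M) ((js D q : XS D) : L2c)⟫_ℂ).re} := by
      have k0 : Continuous fun q : SV D => m q := m.continuous
      have k1 : Continuous fun q : SV D => (q : Y2).fst := by fun_prop
      have k2 : Continuous fun q : SV D => (q : Y2).snd := by fun_prop
      have k3 : Continuous fun q : SV D => ((js D q : XS D) : L2c) := by fun_prop
      apply isClosed_eq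
      · exact continuous_const.mul (Complex.continuous_re.comp (k0.inner continuous_id))
      · exact (continuous_const.mul ((Complex.continuous_re.comp
          (k1.inner ((mm M).continuous.comp k1))).add (Complex.continuous_re.comp
          (k2.inner ((mm M).continuous.comp k2))))).sub (Complex.continuous_re.comp
          (k3.inner ((mm (lap M)).continuous.comp k3)))
    refine isClosed_property (gpV_dense D) hcl (fun φ => ?_) q
    show 2 * (⟪m (gpV D φ), gpV D φ⟫_ℂ).re =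
        2 * ((⟪((gpV D φ : SV D) : Y2).fst, mm M ((gpV D φ : SV D) : Y2).fst⟫_ℂ).re +
          (⟪((gpV D φ : SV D) : Y2).snd, mm M ((gpV D φ : SV D) : Y2).snd⟫_ℂ).re) -
        (⟪((js D (gpV D φ) : XS D) : L2c), mm (lap M) ((js D (gpV D φ) : XS D) : L2c)⟫_ℂ).re
    rw [hm, js_gpV hD, clX_coe]
    have h := wg_self hM φ.2.1
    have e2 : ((gpV D φ : SV D) : Y2).fst = cl2 (py φ) := rfl
    have e3 : ((gpV D φ : SV D) : Y2).snd = -cl2 (px φ) := rfl
    rw [e2, e3, map_neg, inner_neg_left, inner_neg_right, neg_neg]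
    exact h
  · intro v q hv
    -- the weight
    set y : XD D := iot D v with hy
    have hyr : cYy (y : Y2) = y := by
      have h : cXD D (iot D v) = iot D v := ((FCj_D hD).ι v).trans (congrArg (iot D) hv)
      rw [hy, ← cXD_coe, h]
    set W : L2c := mm (px M) (y : Y2).fst + mm (py M) (y : Y2).snd with hW
    have hWc : (W : ℂ → ℂ) =ᵐ[volume] fun x => (y : Y2).fst x * px M x + (y : Y2).snd x * py M x := by
      rw [hW]
      filter_upwards [Lp.coeFn_add (mm (px M) (y : Y2).fst) (mm (py M) (y : Y2).snd),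
        mm_coe hM.bmx (y : Y2).fst, mm_coe hM.bmy (y : Y2).snd] with x h1 h2 h3
      rw [h1, Pi.add_apply, h2, h3]
      ring
    have hR : ∀ q : SV D, (∫ x, (((y : Y2).fst x * px M x + (y : Y2).snd x * py M x).re) *
        ‖((js D q : XS D) : L2c) x‖ ^ 2) = (⟪p44 (j4 D q) (cL4 (j4 D q)), W⟫_ℂ).re := by
      intro q
      rw [inner_p44]
      have h3 := integral_re (int_p44 (j4 D q) (j4 D q) W)
      simp only [RCLike.re_eq_complex_re] at h3
      rw [← h3]
      apply integral_congr_ae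
      filter_upwards [hWc, j4_ae hD q] with x h1 h2
      rw [h1, h2]
      have e : conj (((js D q : XS D) : L2c) x) * (((js D q : XS D) : L2c) x *
          ((y : Y2).fst x * px M x + (y : Y2).snd x * py M x)) =
          ((y : Y2).fst x * px M x + (y : Y2).snd x * py M x) *
            ((‖((js D q : XS D) : L2c) x‖ ^ 2 : ℝ) : ℂ) := by
        push_cast
        rw [← Complex.mul_conj']
        ring
      rw [e, Complex.re_mul_ofReal]
    rw [hR]
    have hcl : IsClosed {q : SV D | 2 * (TR (jj D v) (q : Y2) (j4 D (m q))).re =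
        (⟪p44 (j4 D q) (cL4 (j4 D q)), W⟫_ℂ).re} := by
      apply isClosed_eq
      · simp only [TR_inner]
        have h1 : Continuous fun q : SV D => p44 (j4 D (m q)) := by fun_prop
        have k1 : Continuous fun q : SV D => (q : Y2).fst := by fun_prop
        have k2 : Continuous fun q : SV D => (q : Y2).snd := by fun_prop
        exact continuous_const.mul (Complex.continuous_re.comp
          (((h1.clm_apply continuous_const).inner k2).sub
            ((h1.clm_apply continuous_const).inner k1)))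
      · have h1 : Continuous fun q : SV D => p44 (j4 D q) := by fun_prop
        have h2 : Continuous fun q : SV D => cL4 (j4 D q) := by fun_prop
        exact Complex.continuous_re.comp ((h1.clm_apply h2).inner continuous_const)
    refine isClosed_property (gpV_dense D) hcl (fun φ => ?_) q
    show 2 * (TR (jj D v) ((gpV D φ : SV D) : Y2) (j4 D (m (gpV D φ)))).re =
        (⟪p44 (j4 D (gpV D φ)) (cL4 (j4 D (gpV D φ))), W⟫_ℂ).re
    rw [← hR, hm, j4_gpV hD, js_gpV hD, clX_coe, TR_apply]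
    have h := wg_tr hM φ.2.1 y hyr
    have e1 : ∫ x, (((y : Y2).fst x * px M x + (y : Y2).snd x * py M x).re) *
        ‖(cl2 (φ : ℂ → ℂ) : ℂ → ℂ) x‖ ^ 2 =
        ∫ x, (((y : Y2).fst x * px M x + (y : Y2).snd x * py M x).re) * ‖(φ : ℂ → ℂ) x‖ ^ 2 := by
      apply integral_congr_ae
      filter_upwards [cl2_coe (φ.2.1.memLp 2)] with x hx
      rw [hx]
    rw [e1, ← h]
    congr 3
    apply integral_congr_ae
    have f1 : (jj D v).1 = j1 D v := rfl
    have f2 : (jj D v).2 = j2 D v := rfl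
    have f3 : ((gpV D φ : SV D) : Y2).fst = cl2 (py φ) := rfl
    have f4 : ((gpV D φ : SV D) : Y2).snd = -cl2 (px φ) := rfl
    rw [f1, f2, f3, f4]
    filter_upwards [j1_ae hD v, j2_ae hD v, cl2_coe (φ.2.1.py.memLp 2), cl2_coe (φ.2.1.px.memLp 2),
      Lp.coeFn_neg (cl2 (px (φ : ℂ → ℂ))), cl4_coe ((mulCc hM.smo φ.2.1).memLp 4)]
      with x h1 h2 h3 h4 h5 h6
    rw [h1, h2, h3, h5, Pi.neg_apply, h4, h6]
    ring

/-- multiplication by `M` on `H¹₀(D)` -/
noncomputable def mS (hM : Wg M c) : SV D →L[ℂ] SV D := (exists_mS hD hM).choose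

theorem mS_gpV (hM : Wg M c) (φ : AdmS D) : mS hD hM (gpV D φ) = gpV D ⟨_, Wg.mul_mem hM.smo φ⟩ :=
  (exists_mS hD hM).choose_spec.1 φ

theorem js_mS (hM : Wg M c) (q : SV D) : ((js D (mS hD hM q) : XS D) : L2c) = mm M ((js D q : XS D) : L2c) :=
  (exists_mS hD hM).choose_spec.2.1 q

theorem mS_norm (hM : Wg M c) (q : SV D) : ‖mS hD hM q‖ ≤ c * ‖q‖ + 2 * c * ‖js D q‖ :=
  (exists_mS hD hM).choose_spec.2.2.1 q

theorem mS_self (hM : Wg M c) (q : SV D) : 2 * (⟪mS hD hM q, q⟫_ℂ).re =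
    2 * (∫ x, (M x).re * (‖(q : Y2).fst x‖ ^ 2 + ‖(q : Y2).snd x‖ ^ 2)) -
      ∫ x, (lap M x).re * ‖((js D q : XS D) : L2c) x‖ ^ 2 := (exists_mS hD hM).choose_spec.2.2.2.1 q

theorem TR_mS (hM : Wg M c) {v : VD D} (hv : cVD D v = v) (q : SV D) :
    2 * (TR (jj D v) (q : Y2) (j4 D (mS hD hM q))).re =
      ∫ x, ((((iot D v : XD D) : Y2).fst x * px M x + ((iot D v : XD D) : Y2).snd x * py M x).re) *
        ‖((js D q : XS D) : L2c) x‖ ^ 2 := (exists_mS hD hM).choose_spec.2.2.2.2 v q hv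

end

end Pool.Agent.Lib.MP_79abb3_an.PD
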