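import Pool.Agent.Lib.MP_79abb3_an.PD.SpEa2
import Pool.Agent.Lib.MP_79abb3_an.PD.SpEc
import Pool.Agent.Lib.MP_79abb3_an.PD.ScB

/-!
Theorem D, block F: interior regularity. `θ = js (js† φ)` is the solution of `-Δθ = φ` in `D`, `θ = 0` on the boundary; for
`χ ∈ C_c^∞(D)` the product `χ θ` is a stream function with a square integrable vorticity.
-/

set_option autoImplicit false
set_option linter.unusedSectionVars false

open MeasureTheory Set Filter Topology Function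
open scoped ENNReal InnerProductSpace ComplexConjugate

namespace Pool.Agent.Lib.MP_79abb3_an.PD

open Pool.Agent.Lib.MP_79abb3_an.SC

section
variable {D : Set ℂ}

/-! ### Mollifiers of the plane -/

/-- a smooth bump of radius `1/(n+1)` -/
private noncomputable def feR_b (n : ℕ) : ContDiffBump (0 : ℂ) where
  rIn := (1 / ((n : ℝ) + 1)) / 2
  rOut := 1 / ((n : ℝ) + 1)
  rIn_pos := by positivity
  rIn_lt_rOut := half_lt_self (by positivity)

/-- the mollifying kernel -/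
private noncomputable def feR_r (n : ℕ) : ℂ → ℝ := (feR_b n).normed volume

private theorem feR_r_smo (n : ℕ) : ContDiff ℝ ((⊤ : ℕ∞) : WithTop ℕ∞) (feR_r n) := (feR_b n).contDiff_normed
private theorem feR_r_hcs (n : ℕ) : HasCompactSupport (feR_r n) := (feR_b n).hasCompactSupport_normed
private theorem feR_r_supp (n : ℕ) : tsupport (feR_r n) ⊆ Metric.closedBall 0 (1 / ((n : ℝ) + 1)) :=
  ((feR_b n).tsupport_normed_eq (μ := volume)).subset
private theorem feR_r_nonneg (n : ℕ) (x : ℂ) : 0 ≤ feR_r n x := (feR_b n).nonneg_normed x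
private theorem feR_r_int (n : ℕ) : ∫ x, feR_r n x = 1 := (feR_b n).integral_normed

private theorem feR_r_zero (n : ℕ) {x : ℂ} (hx : 1 / ((n : ℝ) + 1) < ‖x‖) : feR_r n x = 0 := by
  by_contra h
  have h1 := feR_r_supp n (subset_tsupport _ h)
  rw [mem_closedBall_zero_iff] at h1
  linarith

/-- `ρ_n * f` -/
private noncomputable def feR_m (n : ℕ) (f : ℂ → ℂ) (x : ℂ) : ℂ := ∫ y, feR_r n y • f (x - y)

private theorem feR_conv (n : ℕ) (f : ℂ → ℂ) :
    feR_m n f = convolution (feR_r n) f (ContinuousLinearMap.lsmul ℝ ℝ) volume := rfl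

private theorem feR_eq (n : ℕ) (f : ℂ → ℂ) (x : ℂ) : feR_m n f x = ∫ y, feR_r n (x - y) • f y := by
  have h := integral_sub_left_eq_self (fun y => feR_r n (x - y) • f y) (volume : Measure ℂ) x
  rw [← h]
  simp only [sub_sub_cancel]
  rfl

private theorem feR_congr (n : ℕ) {f g : ℂ → ℂ} (h : f =ᵐ[volume] g) : feR_m n f = feR_m n g := by
  ext1 x
  rw [feR_eq, feR_eq]
  refine integral_congr_ae ?_
  filter_upwards [h] with y hy
  rw [hy]

private theorem feR_smo (n : ℕ) {f : ℂ → ℂ} (hf : LocallyIntegrable f) : Smo (feR_m n f) := by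
  rw [feR_conv]
  exact (feR_r_hcs n).contDiff_convolution_left _ (feR_r_smo n) hf

private theorem feR_integrable (n : ℕ) {f : ℂ → ℂ} (hf : LocallyIntegrable f) (x : ℂ) :
    Integrable (fun y => feR_r n y • f (x - y)) :=
  (feR_r_hcs n).convolutionExists_left (ContinuousLinearMap.lsmul ℝ ℝ) (feR_r_smo n).continuous hf x

private theorem feR_add (n : ℕ) {f g : ℂ → ℂ} (hf : LocallyIntegrable f) (hg : LocallyIntegrable g) :
    feR_m n (fun x => f x + g x) = fun x => feR_m n f x + feR_m n g x := by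
  ext1 x
  show ∫ y, feR_r n y • (f (x - y) + g (x - y)) = _
  simp only [smul_add]
  rw [integral_add (feR_integrable n hf x) (feR_integrable n hg x)]
  rfl

private theorem feR_supp (n : ℕ) {f : ℂ → ℂ} {K : Set ℂ} (hK : ∀ᵐ x, x ∉ K → f x = 0) {x : ℂ}
    (hx : ∀ y ∈ K, 1 / ((n : ℝ) + 1) < dist x y) : feR_m n f x = 0 := by
  rw [feR_eq]
  refine integral_eq_zero_of_ae ?_
  filter_upwards [hK] with y hy
  by_cases hyK : y ∈ K
  · have h1 := hx y hyK
    rw [dist_eq_norm] at h1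
    rw [feR_r_zero n h1, zero_smul]
    rfl
  · rw [hy hyK, smul_zero]
    rfl

private theorem feR_psi (n : ℕ) (x : ℂ) : ContDiff ℝ ((⊤ : ℕ∞) : WithTop ℕ∞) (fun y => feR_r n (x - y)) :=
  (feR_r_smo n).comp (contDiff_const.sub contDiff_id)

private theorem feR_psi_hcs (n : ℕ) (x : ℂ) : HasCompactSupport fun y => feR_r n (x - y) :=
  (feR_r_hcs n).comp_isClosedEmbedding (Homeomorph.subLeft x).isClosedEmbedding

private theorem feR_psi_Cc (n : ℕ) (x : ℂ) : Cc fun y => ((feR_r n (x - y) : ℝ) : ℂ) :=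
  ⟨Complex.ofRealCLM.contDiff.comp (feR_psi n x),
    (feR_psi_hcs n x).comp_left (g := fun t : ℝ => (t : ℂ)) Complex.ofReal_zero⟩

private theorem feR_psi_fd (n : ℕ) (x y e : ℂ) : fderiv ℝ (fun y => ((feR_r n (x - y) : ℝ) : ℂ)) y e =
    -((fderiv ℝ (feR_r n) (x - y) e : ℝ) : ℂ) := by
  have h7 : HasFDerivAt (fun y : ℂ => x - y) (-ContinuousLinearMap.id ℝ ℂ) y := (hasFDerivAt_id y).const_sub x
  have h8 : HasFDerivAt (feR_r n) (fderiv ℝ (feR_r n) (x - y)) (x - y) :=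
    (((feR_r_smo n).differentiable (by norm_num)) (x - y)).hasFDerivAt
  have h6 : HasFDerivAt (fun y => ((feR_r n (x - y) : ℝ) : ℂ)) (Complex.ofRealCLM.comp
      ((fderiv ℝ (feR_r n) (x - y)).comp (-ContinuousLinearMap.id ℝ ℂ))) y :=
    Complex.ofRealCLM.hasFDerivAt.comp y (h8.comp y h7)
  rw [h6.fderiv]
  simp

/-- the derivative on the kernel -/
private theorem feR_fd (n : ℕ) {f : ℂ → ℂ} (hf : LocallyIntegrable f) (x e : ℂ) :
    fderiv ℝ (feR_m n f) x e = -∫ y, f y * fderiv ℝ (fun y => ((feR_r n (x - y) : ℝ) : ℂ)) y e := by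
  have h1 : HasFDerivAt (feR_m n f) (convolution (fderiv ℝ (feR_r n)) f
      ((ContinuousLinearMap.lsmul ℝ ℝ).precompL ℂ) volume x) x := by
    rw [feR_conv]
    exact (feR_r_hcs n).hasFDerivAt_convolution_left _ ((feR_r_smo n).of_le (by exact_mod_cast le_top)) hf x
  have hfd : Continuous (fderiv ℝ (feR_r n)) :=
    (ContDiff.fderiv_right (m := 0) (feR_r_smo n) (by norm_num)).continuous
  have h2 : ConvolutionExistsAt (fderiv ℝ (feR_r n)) f x
      ((ContinuousLinearMap.lsmul ℝ ℝ).precompL ℂ) (volume : Measure ℂ) :=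
    ((feR_r_hcs n).fderiv ℝ).convolutionExists_left _ hfd hf x
  rw [h1.fderiv, convolution_def, ContinuousLinearMap.integral_apply h2]
  have h3 : ∀ y, (((ContinuousLinearMap.lsmul ℝ ℝ).precompL ℂ) (fderiv ℝ (feR_r n) y)
      (f (x - y))) e = fderiv ℝ (feR_r n) y e • f (x - y) := fun y => rfl
  simp only [h3, feR_psi_fd]
  have h4 : ∫ y, fderiv ℝ (feR_r n) y e • f (x - y) = ∫ y, fderiv ℝ (feR_r n) (x - y) e • f y := by
    have h := integral_sub_left_eq_self (fun y => fderiv ℝ (feR_r n) (x - y) e • f y) (volume : Measure ℂ) x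
    rw [← h]
    simp only [sub_sub_cancel]
  rw [h4, ← integral_neg]
  refine integral_congr_ae (Eventually.of_forall fun y => ?_)
  show fderiv ℝ (feR_r n) (x - y) e • f y = -(f y * -((fderiv ℝ (feR_r n) (x - y) e : ℝ) : ℂ))
  rw [Complex.real_smul]
  ring

private theorem feR_val (n : ℕ) (f : ℂ → ℂ) (x : ℂ) :
    ∫ y, f y * ((feR_r n (x - y) : ℝ) : ℂ) = feR_m n f x := by
  rw [feR_eq]
  refine integral_congr_ae (Eventually.of_forall fun y => ?_)
  show f y * ((feR_r n (x - y) : ℝ) : ℂ) = feR_r n (x - y) • f y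
  rw [Complex.real_smul]
  ring

/-! ### Convergence in `L²` -/

private noncomputable def feR_nu (n : ℕ) : Measure ℂ :=
  (volume : Measure ℂ).withDensity fun y => ENNReal.ofReal (feR_r n y)

private theorem feR_meas (n : ℕ) : Measurable fun y : ℂ => ENNReal.ofReal (feR_r n y) :=
  (feR_r_smo n).continuous.measurable.ennreal_ofReal

private theorem feR_prob (n : ℕ) : IsProbabilityMeasure (feR_nu n) := by
  constructor
  unfold feR_nu
  rw [withDensity_apply _ MeasurableSet.univ, Measure.restrict_univ,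
    ← ofReal_integral_eq_lintegral_ofReal
      ((feR_r_smo n).continuous.integrable_of_hasCompactSupport (feR_r_hcs n))
      (Eventually.of_forall fun y => feR_r_nonneg n y), feR_r_int, ENNReal.ofReal_one]

private theorem feR_enorm (n : ℕ) {f : ℂ → ℂ} (hf : StronglyMeasurable f) (x : ℂ) :
    ‖feR_m n f x‖ₑ ≤ ∫⁻ y, ‖f (x - y)‖ₑ ∂(feR_nu n) := by
  have hm : Measurable fun y : ℂ => ‖f (x - y)‖ₑ :=
    (hf.comp_measurable (measurable_const.sub measurable_id)).enorm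
  unfold feR_nu
  rw [lintegral_withDensity_eq_lintegral_mul _ (feR_meas n) hm]
  refine (enorm_integral_le_lintegral_enorm _).trans_eq ?_
  refine lintegral_congr fun y => ?_
  rw [enorm_smul, Pi.mul_apply, Real.enorm_eq_ofReal (feR_r_nonneg n y)]

private theorem feR_L2_aux (n : ℕ) {f : ℂ → ℂ} (hf : StronglyMeasurable f) :
    eLpNorm (feR_m n f) 2 (volume : Measure ℂ) ≤ eLpNorm f 2 (volume : Measure ℂ) := by
  have := feR_prob n
  have hsm : ∀ x, StronglyMeasurable fun y : ℂ => f (x - y) := fun x =>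
    hf.comp_measurable (measurable_const.sub measurable_id)
  have hp0 : (2 : ℝ≥0∞) ≠ 0 := two_ne_zero
  have hp' : (2 : ℝ≥0∞) ≠ ∞ := ENNReal.ofNat_ne_top
  have hpr : 0 < (2 : ℝ≥0∞).toReal := ENNReal.toReal_pos hp0 hp'
  rw [eLpNorm_eq_lintegral_rpow_enorm_toReal hp0 hp', eLpNorm_eq_lintegral_rpow_enorm_toReal hp0 hp']
  refine ENNReal.rpow_le_rpow ?_ (by positivity)
  have h1 : ∀ x, ‖feR_m n f x‖ₑ ^ (2 : ℝ≥0∞).toReal ≤ ∫⁻ y, ‖f (x - y)‖ₑ ^ (2 : ℝ≥0∞).toReal ∂(feR_nu n) := by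
    intro x
    have h2 : ‖feR_m n f x‖ₑ ≤ eLpNorm (fun y => f (x - y)) 2 (feR_nu n) := by
      refine (feR_enorm n hf x).trans ?_
      rw [← eLpNorm_one_eq_lintegral_enorm]
      exact eLpNorm_le_eLpNorm_of_exponent_le one_le_two (hsm x).aestronglyMeasurable
    refine (ENNReal.rpow_le_rpow h2 hpr.le).trans ?_
    rw [eLpNorm_eq_lintegral_rpow_enorm_toReal hp0 hp', ← ENNReal.rpow_mul, one_div,
      inv_mul_cancel₀ hpr.ne', ENNReal.rpow_one]
  refine (lintegral_mono h1).trans ?_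
  have hmeas : Measurable (uncurry fun x y : ℂ => ‖f (x - y)‖ₑ ^ (2 : ℝ≥0∞).toReal) := by
    have h3 : Measurable fun q : ℂ × ℂ => ‖f (q.1 - q.2)‖ₑ :=
      (hf.comp_measurable (measurable_fst.sub measurable_snd)).enorm
    exact h3.pow_const _
  rw [lintegral_lintegral_swap hmeas.aemeasurable]
  have h4 : ∀ y, ∫⁻ x, ‖f (x - y)‖ₑ ^ (2 : ℝ≥0∞).toReal = ∫⁻ x, ‖f x‖ₑ ^ (2 : ℝ≥0∞).toReal := fun y =>
    lintegral_sub_right_eq_self (fun x => ‖f x‖ₑ ^ (2 : ℝ≥0∞).toReal) y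
  simp only [h4]
  rw [lintegral_const, measure_univ, mul_one]

private theorem feR_L2 (n : ℕ) {f : ℂ → ℂ} (hf : MemLp f 2 (volume : Measure ℂ)) :
    eLpNorm (feR_m n f) 2 (volume : Measure ℂ) ≤ eLpNorm f 2 (volume : Measure ℂ) := by
  obtain ⟨f', hf', h1⟩ : ∃ f' : ℂ → ℂ, StronglyMeasurable f' ∧ f =ᵐ[volume] f' :=
    ⟨hf.1.mk f, hf.1.stronglyMeasurable_mk, hf.1.ae_eq_mk⟩
  rw [feR_congr n h1, eLpNorm_congr_ae h1]
  exact feR_L2_aux n hf'

private theorem feR_memLp (n : ℕ) {f : ℂ → ℂ} (hf : MemLp f 2 (volume : Measure ℂ)) :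
    MemLp (feR_m n f) 2 (volume : Measure ℂ) :=
  ⟨(feR_smo n (hf.locallyIntegrable one_le_two)).continuous.aestronglyMeasurable, (feR_L2 n hf).trans_lt hf.2⟩

private theorem feR_close (n : ℕ) {f : ℂ → ℂ} (hf : Continuous f) (x : ℂ) {ε : ℝ}
    (h : ∀ y, dist y x < 1 / ((n : ℝ) + 1) → dist (f y) (f x) ≤ ε) : ‖feR_m n f x - f x‖ ≤ ε := by
  rw [← dist_eq_norm]
  exact ContDiffBump.dist_normed_convolution_le (φ := feR_b n) hf.aestronglyMeasurable fun y hy => h y hy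

private theorem feR_lim_aux {f : ℂ → ℂ} (hf : Continuous f) (hc : HasCompactSupport f) :
    Tendsto (fun n => eLpNorm (fun x => feR_m n f x - f x) 2 (volume : Measure ℂ)) atTop (𝓝 0) := by
  obtain ⟨R, hR⟩ := hc.isCompact.isBounded.subset_closedBall 0
  set K : Set ℂ := Metric.closedBall 0 (R + 1) with hK
  have hKc : volume K ≠ ∞ := (isCompact_closedBall _ _).measure_lt_top.ne
  have hUC : UniformContinuous f := hc.uniformContinuous_of_continuous hf
  set M : ℝ≥0∞ := volume K ^ (2 : ℝ≥0∞).toReal⁻¹ with hM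
  have hMt : M ≠ ∞ := ENNReal.rpow_ne_top_of_nonneg (by positivity) hKc
  have hfz : ∀ x : ℂ, R < ‖x‖ → f x = 0 := by
    intro x hx
    by_contra h1
    have := hR (subset_tsupport f h1)
    rw [mem_closedBall_zero_iff] at this
    linarith
  have hzero : ∀ n, ∀ x : ℂ, x ∉ K → feR_m n f x - f x = 0 := by
    intro n x hx
    rw [hK, mem_closedBall_zero_iff, not_le] at hx
    have h1 : feR_m n f x = 0 := by
      refine feR_supp n (K := Metric.closedBall 0 R) (Eventually.of_forall fun y hy => ?_) ?_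
      · rw [mem_closedBall_zero_iff, not_le] at hy
        exact hfz y hy
      · intro y hy
        rw [mem_closedBall_zero_iff] at hy
        rw [dist_eq_norm]
        have h2 : ‖x‖ ≤ ‖x - y‖ + ‖y‖ := by
          have := norm_add_le (x - y) y
          rwa [sub_add_cancel] at this
        have h3 : 1 / ((n : ℝ) + 1) ≤ 1 := by
          rw [div_le_one (by positivity)]
          linarith [(Nat.cast_nonneg n : (0 : ℝ) ≤ n)]
        linarith
    rw [h1, hfz x (by linarith), sub_zero]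
  rw [ENNReal.tendsto_atTop_zero]
  intro ε hε
  obtain ⟨δ, hδ, hδε⟩ : ∃ δ : ℝ, 0 < δ ∧ M * ENNReal.ofReal δ ≤ ε := by
    have h1 : Tendsto (fun t : ℝ => M * ENNReal.ofReal t) (𝓝[>] 0) (𝓝 (M * ENNReal.ofReal 0)) :=
      (ENNReal.Tendsto.const_mul (ENNReal.continuous_ofReal.tendsto 0) (Or.inr hMt)).mono_left
        nhdsWithin_le_nhds
    rw [ENNReal.ofReal_zero, mul_zero] at h1
    have h2 := (h1.eventually (ge_mem_nhds hε)).and self_mem_nhdsWithin
    obtain ⟨δ, h3, h4⟩ := h2.exists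
    exact ⟨δ, h4, h3⟩
  obtain ⟨η, hη, hη'⟩ := Metric.uniformContinuous_iff.1 hUC δ hδ
  obtain ⟨N, hN⟩ := (tendsto_one_div_add_atTop_nhds_zero_nat (𝕜 := ℝ)).eventually
    (gt_mem_nhds hη) |>.exists_forall_of_atTop
  refine ⟨N, fun n hn => ?_⟩
  have hb : ∀ x, ‖feR_m n f x - f x‖ ≤ δ := by
    intro x
    refine feR_close n hf x fun y hy => (hη' ?_).le
    exact hy.trans (hN n hn)
  have hsupp : (fun x => feR_m n f x - f x).support ⊆ K := by
    intro x hx
    by_contra h1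
    exact hx (hzero n x h1)
  rw [← eLpNorm_restrict_eq_of_support_subset hsupp]
  refine (eLpNorm_le_of_ae_bound (Eventually.of_forall hb)).trans ?_
  rw [Measure.restrict_apply_univ]
  exact hδε

private theorem feR_lim {f : ℂ → ℂ} (hf : MemLp f 2 (volume : Measure ℂ)) :
    Tendsto (fun n => eLpNorm (fun x => feR_m n f x - f x) 2 (volume : Measure ℂ)) atTop (𝓝 0) := by
  rw [ENNReal.tendsto_atTop_zero]
  intro ε hε
  have hε3 : ε / 3 ≠ 0 := by
    simpa using hε.ne'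
  obtain ⟨g, hgc, hfg, hg, hgm⟩ := hf.exists_hasCompactSupport_eLpNorm_sub_le ENNReal.ofNat_ne_top hε3
  have h1 := feR_lim_aux hg hgc
  rw [ENNReal.tendsto_atTop_zero] at h1
  obtain ⟨N, hN⟩ := h1 (ε / 3) (pos_iff_ne_zero.2 hε3)
  refine ⟨N, fun n hn => ?_⟩
  have hfl := hf.locallyIntegrable one_le_two
  have hgl := hgm.locallyIntegrable one_le_two
  have hsub : MemLp (f - g) 2 (volume : Measure ℂ) := hf.sub hgm
  have hmo : feR_m n f = fun x => feR_m n (f - g) x + feR_m n g x := by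
    rw [← feR_add n (hsub.locallyIntegrable one_le_two) hgl]
    congr 1
    ext1 x
    show f x = (f x - g x) + g x
    abel
  have hsplit : (fun x => feR_m n f x - f x) =
      (feR_m n (f - g) + fun x => feR_m n g x - g x) + (g - f) := by
    ext1 x
    show feR_m n f x - f x = (feR_m n (f - g) x + (feR_m n g x - g x)) + (g x - f x)
    rw [hmo]
    show feR_m n (f - g) x + feR_m n g x - f x = (feR_m n (f - g) x + (feR_m n g x - g x)) + (g x - f x)
    generalize feR_m n (f - g) x = a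
    generalize feR_m n g x = b
    show a + b - f x = a + (b - g x) + (g x - f x)
    abel
  have hm1 : MemLp (feR_m n (f - g)) 2 (volume : Measure ℂ) := feR_memLp n hsub
  have hm2 : MemLp (fun x => feR_m n g x - g x) 2 (volume : Measure ℂ) := (feR_memLp n hgm).sub hgm
  have hm3 : MemLp (g - f) 2 (volume : Measure ℂ) := hgm.sub hf
  rw [hsplit]
  refine (eLpNorm_add_le (hm1.add hm2).1 hm3.1 one_le_two).trans ?_
  refine (add_le_add (eLpNorm_add_le hm1.1 hm2.1 one_le_two) le_rfl).trans ?_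
  have h2 : eLpNorm (feR_m n (f - g)) 2 (volume : Measure ℂ) ≤ ε / 3 := (feR_L2 n hsub).trans hfg
  have h3 : eLpNorm (g - f) 2 (volume : Measure ℂ) ≤ ε / 3 := by
    rw [eLpNorm_sub_comm]
    exact hfg
  refine (add_le_add (add_le_add h2 (hN n hn)) h3).trans_eq ?_
  exact ENNReal.add_thirds ε

/-- convergence of the classes -/
private theorem feR_cl (f : L2c) {ε : ℝ} (hε : 0 < ε) :
    ∀ᶠ n in atTop, ‖cl2 (feR_m n (f : ℂ → ℂ)) - f‖ ≤ ε := by
  have h1 := feR_lim (Lp.memLp f)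
  rw [ENNReal.tendsto_atTop_zero] at h1
  obtain ⟨N, hN⟩ := h1 (ENNReal.ofReal ε) (ENNReal.ofReal_pos.2 hε)
  filter_upwards [eventually_ge_atTop N] with n hn
  rw [Lp.norm_def]
  refine ENNReal.toReal_le_of_le_ofReal hε.le (le_trans (le_of_eq ?_) (hN n hn))
  refine eLpNorm_congr_ae ?_
  filter_upwards [Lp.coeFn_sub (cl2 (feR_m n (f : ℂ → ℂ))) f, cl2_coe (feR_memLp n (Lp.memLp f))] with x h2 h3
  rw [h2, Pi.sub_apply, h3]

/-- **Mollification.** `w ∈ L²` with support in the compact set `K ⊆ D`, weak derivatives `w1`, `w2`, weak Laplacian `-v`: there are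
`ψ ∈ C_c^∞(D)` with `ψ → w`, `∇ψ → (w1, w2)`, `-Δψ → v` in `L²` (`ψ = ρ_n * w` with a smooth bump `ρ_n`,
`ContDiffBump.normed`, `ContDiffBump.convolution_tendsto`-type facts in `L²`: density of continuous functions and Young;
`∂(ρ_n * w) = ρ_n * w1`). -/
theorem exists_moll (hO : IsOpen D) {w w1 w2 v : L2c} {K : Set ℂ} (hK : IsCompact K) (hKD : K ⊆ D)
    (h0 : ∀ᵐ x ∂volume, x ∉ K → (w : ℂ → ℂ) x = 0)
    (h1 : ∀ χ : ℂ → ℂ, Cc χ → ∫ x, (w : ℂ → ℂ) x * px χ x = -∫ x, (w1 : ℂ → ℂ) x * χ x)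
    (h2 : ∀ χ : ℂ → ℂ, Cc χ → ∫ x, (w : ℂ → ℂ) x * py χ x = -∫ x, (w2 : ℂ → ℂ) x * χ x)
    (h3 : ∀ χ : ℂ → ℂ, Cc χ → ∫ x, (w : ℂ → ℂ) x * lap χ x = -∫ x, (v : ℂ → ℂ) x * χ x) {ε : ℝ} (hε : 0 < ε) :
    ∃ ψ : ℂ → ℂ, Cc ψ ∧ tsupport ψ ⊆ D ∧ ‖cl2 ψ - w‖ ≤ ε ∧ ‖cl2 (px ψ) - w1‖ ≤ ε ∧ ‖cl2 (py ψ) - w2‖ ≤ ε ∧
      ‖cu ψ - v‖ ≤ ε := by
  have hwl : LocallyIntegrable (w : ℂ → ℂ) := (Lp.memLp w).locallyIntegrable one_le_two
  have hw1l : LocallyIntegrable (w1 : ℂ → ℂ) := (Lp.memLp w1).locallyIntegrable one_le_two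
  have hw2l : LocallyIntegrable (w2 : ℂ → ℂ) := (Lp.memLp w2).locallyIntegrable one_le_two
  obtain ⟨δ, hδ, hδD⟩ := hK.exists_cthickening_subset_open hO hKD
  have hn1 : ∀ᶠ n : ℕ in atTop, 1 / ((n : ℝ) + 1) < δ :=
    (tendsto_one_div_add_atTop_nhds_zero_nat (𝕜 := ℝ)).eventually (gt_mem_nhds hδ)
  obtain ⟨n, hn, e0, e1, e2, e3⟩ :=
    (hn1.and ((feR_cl w hε).and ((feR_cl w1 hε).and ((feR_cl w2 hε).and (feR_cl v hε))))).exists
  -- derivatives
  have d1 : px (feR_m n (w : ℂ → ℂ)) = feR_m n (w1 : ℂ → ℂ) := by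
    ext1 x
    show fderiv ℝ (feR_m n (w : ℂ → ℂ)) x 1 = _
    rw [feR_fd n hwl x 1]
    have h4 := h1 _ (feR_psi_Cc n x)
    rw [feR_val] at h4
    have h5 : (∫ y, (w : ℂ → ℂ) y * fderiv ℝ (fun y => ((feR_r n (x - y) : ℝ) : ℂ)) y 1) = -feR_m n (w1 : ℂ → ℂ) x := h4
    rw [h5, neg_neg]
  have d2 : py (feR_m n (w : ℂ → ℂ)) = feR_m n (w2 : ℂ → ℂ) := by
    ext1 x
    show fderiv ℝ (feR_m n (w : ℂ → ℂ)) x Complex.I = _
    rw [feR_fd n hwl x Complex.I]
    have h4 := h2 _ (feR_psi_Cc n x)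
    rw [feR_val] at h4
    have h5 : (∫ y, (w : ℂ → ℂ) y * fderiv ℝ (fun y => ((feR_r n (x - y) : ℝ) : ℂ)) y Complex.I) =
      -feR_m n (w2 : ℂ → ℂ) x := h4
    rw [h5, neg_neg]
  have d3 : lap (feR_m n (w : ℂ → ℂ)) = fun x => -feR_m n (v : ℂ → ℂ) x := by
    ext1 x
    show px (px (feR_m n (w : ℂ → ℂ))) x + py (py (feR_m n (w : ℂ → ℂ))) x = _
    rw [d1, d2]
    show fderiv ℝ (feR_m n (w1 : ℂ → ℂ)) x 1 + fderiv ℝ (feR_m n (w2 : ℂ → ℂ)) x Complex.I = _
    rw [feR_fd n hw1l x 1, feR_fd n hw2l x Complex.I]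
    have hC := feR_psi_Cc n x
    have h4 := h1 _ hC.px
    have h5 := h2 _ hC.py
    have h6 := h3 _ hC
    rw [feR_val] at h6
    have i1 : Integrable fun y => (w : ℂ → ℂ) y * px (px fun y => ((feR_r n (x - y) : ℝ) : ℂ)) y :=
      (Lp.memLp w).integrable_mul (hC.px.px.memLp 2)
    have i2 : Integrable fun y => (w : ℂ → ℂ) y * py (py fun y => ((feR_r n (x - y) : ℝ) : ℂ)) y :=
      (Lp.memLp w).integrable_mul (hC.py.py.memLp 2)
    have h7 : ∫ y, (w : ℂ → ℂ) y * lap (fun y => ((feR_r n (x - y) : ℝ) : ℂ)) y =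
        (∫ y, (w : ℂ → ℂ) y * px (px fun y => ((feR_r n (x - y) : ℝ) : ℂ)) y) +
        ∫ y, (w : ℂ → ℂ) y * py (py fun y => ((feR_r n (x - y) : ℝ) : ℂ)) y := by
      rw [← integral_add i1 i2]
      refine integral_congr_ae (Eventually.of_forall fun y => ?_)
      show (w : ℂ → ℂ) y * (_ + _) = _
      rw [mul_add]
    have h8 : (∫ y, (w1 : ℂ → ℂ) y * fderiv ℝ (fun y => ((feR_r n (x - y) : ℝ) : ℂ)) y 1) =
        -∫ y, (w : ℂ → ℂ) y * px (px fun y => ((feR_r n (x - y) : ℝ) : ℂ)) y := by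
      rw [h4, neg_neg]
      rfl
    have h9 : (∫ y, (w2 : ℂ → ℂ) y * fderiv ℝ (fun y => ((feR_r n (x - y) : ℝ) : ℂ)) y Complex.I) =
        -∫ y, (w : ℂ → ℂ) y * py (py fun y => ((feR_r n (x - y) : ℝ) : ℂ)) y := by
      rw [h5, neg_neg]
      rfl
    rw [h8, h9, neg_neg, neg_neg, ← h7, h6]
  -- support
  have hsupp : support (feR_m n (w : ℂ → ℂ)) ⊆ Metric.cthickening δ K := by
    intro x hx
    by_contra h4
    refine hx (feR_supp n h0 fun y hy => ?_)
    by_contra h5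
    exact h4 (Metric.mem_cthickening_of_dist_le x y δ K hy ((not_lt.1 h5).trans hn.le))
  have hCc : Cc (feR_m n (w : ℂ → ℂ)) :=
    ⟨feR_smo n hwl, HasCompactSupport.of_support_subset_isCompact hK.cthickening hsupp⟩
  refine ⟨feR_m n (w : ℂ → ℂ), hCc, (closure_minimal hsupp Metric.isClosed_cthickening).trans hδD, e0, ?_, ?_, ?_⟩
  · rw [d1]; exact e1
  · rw [d2]; exact e2
  · have h4 : cu (feR_m n (w : ℂ → ℂ)) = cl2 (feR_m n (v : ℂ → ℂ)) := by
      show -cl2 (lap (feR_m n (w : ℂ → ℂ))) = _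
      have h5 : (fun x => -feR_m n (v : ℂ → ℂ) x) = fun x => (-1 : ℂ) * feR_m n (v : ℂ → ℂ) x := by
        ext1 x
        ring
      rw [d3, h5, cl2_smul (-1) (feR_memLp n (Lp.memLp v)), neg_smul, one_smul, neg_neg]
    rw [h4]
    exact e3

end

end Pool.Agent.Lib.MP_79abb3_an.PD
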