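import Pool.Agent.Lib.MP_79abb3_an.PD.FeR
import Pool.Agent.Lib.MP_79abb3_an.PD.FeDef

/-!
Theorem D, block F: interior regularity, the operator `φ ↦ curl curl (χ K_s φ)`.
-/

set_option autoImplicit false
set_option linter.unusedSectionVars false

open MeasureTheory Set Filter Topology Function
open scoped ENNReal InnerProductSpace ComplexConjugate

namespace Pool.Agent.Lib.MP_79abb3_an.PD

open Pool.Agent.Lib.MP_79abb3_an.SC Pool.Agent.Lib.MP_79abb3_an.P25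

section
variable {D : Set ℂ}

/-- `V φ` is the vorticity of the stream function `χ θ`, `θ = K_s φ`, `q = js† φ = gp θ = (θ_y, -θ_x)`:
`V φ = χ φ - 2 ∇χ·∇θ - θ Δχ`. -/
structure IsVx (D : Set ℂ) (χ : ℂ → ℂ) (V : XS D →L[ℂ] VD D) : Prop where
  st : ∀ φ : XS D, str D (iot D (V φ)) = mm χ ((js D (ja D φ) : XS D) : L2c)
  fs : ∀ φ : XS D, ((iot D (V φ) : XD D) : Y2).fst =
    mm χ (ja D φ : Y2).fst + mm (py χ) ((js D (ja D φ) : XS D) : L2c)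
  sn : ∀ φ : XS D, ((iot D (V φ) : XD D) : Y2).snd =
    mm χ (ja D φ : Y2).snd - mm (px χ) ((js D (ja D φ) : XS D) : L2c)
  vo : ∀ φ : XS D, (V φ : L2c) = mm χ (φ : L2c) -
    (2 : ℂ) • (mm (py χ) (ja D φ : Y2).fst - mm (px χ) (ja D φ : Y2).snd) -
    mm (lap χ) ((js D (ja D φ) : XS D) : L2c)

private theorem fr2_bm {f : ℂ → ℂ} (hf : Cc f) : ∃ c, Bm f c := by
  obtain ⟨C, hC⟩ := hf.smo.continuous.bounded_above_of_compact_support hf.cpt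
  exact ⟨C, hf.smo.continuous.aestronglyMeasurable, hC⟩

/-- the pairing with a test function -/
private noncomputable def fr2P (f : ℂ → ℂ) (u : L2c) : ℂ := ∫ x, (u : ℂ → ℂ) x * f x

private theorem fr2_int {f : ℂ → ℂ} (hf : Cc f) (u : L2c) : Integrable fun x => (u : ℂ → ℂ) x * f x :=
  MemLp.integrable_mul (Lp.memLp u) (hf.memLp 2)

private theorem fr2P_eq {f : ℂ → ℂ} (hf : Cc f) (u : L2c) : fr2P f u = ⟪cl2 (fun x => conj (f x)), u⟫_ℂ := by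
  rw [L2.inner_def]
  refine integral_congr_ae ?_
  filter_upwards [cl2_coe (hf.conj.memLp 2)] with x hx
  rw [hx, RCLike.inner_apply, Complex.conj_conj]

private theorem fr2P_add {f : ℂ → ℂ} (hf : Cc f) (u v : L2c) : fr2P f (u + v) = fr2P f u + fr2P f v := by
  rw [fr2P_eq hf, fr2P_eq hf, fr2P_eq hf, inner_add_right]

private theorem fr2P_sub {f : ℂ → ℂ} (hf : Cc f) (u v : L2c) : fr2P f (u - v) = fr2P f u - fr2P f v := by
  rw [fr2P_eq hf, fr2P_eq hf, fr2P_eq hf, inner_sub_right]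

private theorem fr2P_smul {f : ℂ → ℂ} (hf : Cc f) (c : ℂ) (u : L2c) : fr2P f (c • u) = c * fr2P f u := by
  rw [fr2P_eq hf, fr2P_eq hf, inner_smul_right]

private theorem fr2P_mm {f g : ℂ → ℂ} {c : ℝ} (hg : Bm g c) (u : L2c) :
    fr2P f (mm g u) = fr2P (fun x => g x * f x) u := by
  refine integral_congr_ae ?_
  filter_upwards [mm_coe hg u] with x hx
  rw [hx]
  ring

private theorem fr2P_fadd {f g : ℂ → ℂ} (hf : Cc f) (hg : Cc g) (u : L2c) :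
    fr2P (fun x => f x + g x) u = fr2P f u + fr2P g u := by
  have h := integral_add (fr2_int hf u) (fr2_int hg u)
  have e : fr2P (fun x => f x + g x) u = ∫ x, ((u : ℂ → ℂ) x * f x + (u : ℂ → ℂ) x * g x) :=
    integral_congr_ae (Eventually.of_forall fun x => by ring)
  rw [e, h]
  rfl

private theorem fr2_px {f g : ℂ → ℂ} (hf : Smo f) (hg : Smo g) :
    px (fun x => f x * g x) = fun x => f x * px g x + px f x * g x := by
  funext x
  unfold px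
  rw [fderiv_fun_mul (hf.differentiable x) (hg.differentiable x)]
  simp only [_root_.add_apply, _root_.smul_apply, smul_eq_mul]
  ring

private theorem fr2_py {f g : ℂ → ℂ} (hf : Smo f) (hg : Smo g) :
    py (fun x => f x * g x) = fun x => f x * py g x + py f x * g x := by
  funext x
  unfold py
  rw [fderiv_fun_mul (hf.differentiable x) (hg.differentiable x)]
  simp only [_root_.add_apply, _root_.smul_apply, smul_eq_mul]
  ring

/-- `js†` is the solution operator: `∫ ϕ_y q₁ - ϕ_x q₂ = ∫ ϕ φ` -/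
private theorem fr2_ja (hD : Bornology.IsBounded D) (φ : XS D) {f : ℂ → ℂ} (hf : f ∈ AdmS D) :
    fr2P (py f) (ja D φ : Y2).fst - fr2P (px f) (ja D φ : Y2).snd = fr2P f (φ : L2c) := by
  have hc : (fun x => conj (f x)) ∈ AdmS D :=
    ⟨hf.1.conj, (tsupport_comp_subset (g := fun z : ℂ => conj z) (map_zero _) _).trans hf.2⟩
  have h1 : ⟪gpV D ⟨_, hc⟩, ja D φ⟫_ℂ = ⟪js D (gpV D ⟨_, hc⟩), φ⟫_ℂ :=
    ContinuousLinearMap.adjoint_inner_right _ _ _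
  rw [js_gpV hD] at h1
  have h2 : ⟪clX D ⟨_, hc⟩, φ⟫_ℂ = fr2P f (φ : L2c) := (fr2P_eq hf.1 _).symm
  have h3 : ⟪gpV D ⟨_, hc⟩, ja D φ⟫_ℂ = ⟪gp (fun x => conj (f x)), (ja D φ : Y2)⟫_ℂ := rfl
  rw [← h2, ← h1, h3, WithLp.prod_inner_apply]
  have e1 : (gp (fun x => conj (f x))).fst = cl2 (fun x => conj (py f x)) :=
    congrArg cl2 hf.1.smo.py_conj
  have e2 : (gp (fun x => conj (f x))).snd = -cl2 (fun x => conj (px f x)) :=
    congrArg (fun g => -cl2 g) hf.1.smo.px_conj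
  show _ = ⟪(gp (fun x => conj (f x))).fst, (ja D φ : Y2).fst⟫_ℂ + ⟪(gp (fun x => conj (f x))).snd, (ja D φ : Y2).snd⟫_ℂ
  rw [e1, e2, inner_neg_left, fr2P_eq hf.1.py, fr2P_eq hf.1.px, sub_eq_add_neg]

private theorem fr2_mul {χ χ' : ℂ → ℂ} (hχ : CcR D χ) (h' : Smo χ') : (fun x => χ x * χ' x) ∈ AdmS D :=
  ⟨hχ.cc.mul_smo h', (tsupport_mul_subset_left (f := χ) (g := χ')).trans hχ.supp⟩

private theorem fr2_main (hO : IsOpen D) (hD : Bornology.IsBounded D) {χ : ℂ → ℂ} (hχ : CcR D χ) (φ : XS D) :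
    ∃ v : VD D, str D (iot D v) = mm χ ((js D (ja D φ) : XS D) : L2c) ∧
      ((iot D v : XD D) : Y2).fst = mm χ (ja D φ : Y2).fst + mm (py χ) ((js D (ja D φ) : XS D) : L2c) ∧
      ((iot D v : XD D) : Y2).snd = mm χ (ja D φ : Y2).snd - mm (px χ) ((js D (ja D φ) : XS D) : L2c) ∧
      (v : L2c) = mm χ (φ : L2c) -
        (2 : ℂ) • (mm (py χ) (ja D φ : Y2).fst - mm (px χ) (ja D φ : Y2).snd) -
        mm (lap χ) ((js D (ja D φ) : XS D) : L2c) := by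
  set q : SV D := ja D φ with hq
  set θ : L2c := ((js D q : XS D) : L2c) with hθ
  set v : L2c := mm χ (φ : L2c) - (2 : ℂ) • (mm (py χ) (q : Y2).fst - mm (px χ) (q : Y2).snd) - mm (lap χ) θ with hv
  obtain ⟨c0, b0⟩ := fr2_bm hχ.cc
  obtain ⟨c1, b1⟩ := fr2_bm hχ.cc.px
  obtain ⟨c2, b2⟩ := fr2_bm hχ.cc.py
  obtain ⟨c3, b3⟩ := fr2_bm hχ.cc.lap
  have wk : ∀ {g : ℂ → ℂ}, Cc g → fr2P g (q : Y2).fst = -fr2P (py g) θ ∧ fr2P g (q : Y2).snd = fr2P (px g) θ :=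
    fun hg => SV_weak hD q hg
  have cm : ∀ {f g : ℂ → ℂ}, Cc f → Cc g → Cc fun x => f x * g x := fun hf hg => hf.mul_smo hg.smo
  have h0 : ∀ᵐ x ∂volume, x ∉ tsupport χ → (mm χ θ : ℂ → ℂ) x = 0 := by
    filter_upwards [mm_coe b0 θ] with x hx hxs
    rw [hx, image_eq_zero_of_notMem_tsupport hxs, zero_mul]
  have h1 : ∀ g : ℂ → ℂ, Cc g → ∫ x, (mm χ θ : ℂ → ℂ) x * px g x =
      -∫ x, (mm (px χ) θ - mm χ (q : Y2).snd : L2c) x * g x := by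
    intro g hg
    show fr2P (px g) (mm χ θ) = -fr2P g (mm (px χ) θ - mm χ (q : Y2).snd)
    rw [fr2P_sub hg, fr2P_mm b0, fr2P_mm b1, fr2P_mm b0, (wk (cm hχ.cc hg)).2, fr2_px hχ.cc.smo hg.smo,
      fr2P_fadd (cm hχ.cc hg.px) (cm hχ.cc.px hg)]
    ring
  have h2 : ∀ g : ℂ → ℂ, Cc g → ∫ x, (mm χ θ : ℂ → ℂ) x * py g x =
      -∫ x, (mm (py χ) θ + mm χ (q : Y2).fst : L2c) x * g x := by
    intro g hg
    show fr2P (py g) (mm χ θ) = -fr2P g (mm (py χ) θ + mm χ (q : Y2).fst)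
    rw [fr2P_add hg, fr2P_mm b0, fr2P_mm b2, fr2P_mm b0, (wk (cm hχ.cc hg)).1, fr2_py hχ.cc.smo hg.smo,
      fr2P_fadd (cm hχ.cc hg.py) (cm hχ.cc.py hg)]
    ring
  have h3 : ∀ g : ℂ → ℂ, Cc g → ∫ x, (mm χ θ : ℂ → ℂ) x * lap g x = -∫ x, (v : ℂ → ℂ) x * g x := by
    intro g hg
    show fr2P (lap g) (mm χ θ) = -fr2P g v
    have a1 := fr2_ja hD φ (fr2_mul hχ hg.smo)
    rw [← hq, fr2_py hχ.cc.smo hg.smo, fr2_px hχ.cc.smo hg.smo, fr2P_fadd (cm hχ.cc hg.py) (cm hχ.cc.py hg),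
      fr2P_fadd (cm hχ.cc hg.px) (cm hχ.cc.px hg)] at a1
    have a2 := (wk (cm hχ.cc hg.py)).1
    have a3 := (wk (cm hχ.cc hg.px)).2
    have a4 := (wk (cm hχ.cc.py hg)).1
    have a5 := (wk (cm hχ.cc.px hg)).2
    rw [fr2_py hχ.cc.smo hg.smo.py, fr2P_fadd (cm hχ.cc hg.py.py) (cm hχ.cc.py hg.py)] at a2
    rw [fr2_px hχ.cc.smo hg.smo.px, fr2P_fadd (cm hχ.cc hg.px.px) (cm hχ.cc.px hg.px)] at a3
    rw [fr2_py hχ.cc.smo.py hg.smo, fr2P_fadd (cm hχ.cc.py hg.py) (cm hχ.cc.py.py hg)] at a4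
    rw [fr2_px hχ.cc.smo.px hg.smo, fr2P_fadd (cm hχ.cc.px hg.px) (cm hχ.cc.px.px hg)] at a5
    have e1 : fr2P (fun x => χ x * lap g x) θ = fr2P (fun x => χ x * px (px g) x) θ +
        fr2P (fun x => χ x * py (py g) x) θ := by
      rw [← fr2P_fadd (cm hχ.cc hg.px.px) (cm hχ.cc hg.py.py)]
      congr 1
      funext x
      unfold lap
      ring
    have e2 : fr2P (fun x => lap χ x * g x) θ = fr2P (fun x => px (px χ) x * g x) θ +
        fr2P (fun x => py (py χ) x * g x) θ := by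
      rw [← fr2P_fadd (cm hχ.cc.px.px hg) (cm hχ.cc.py.py hg)]
      congr 1
      funext x
      unfold lap
      ring
    rw [hv, fr2P_sub hg, fr2P_sub hg, fr2P_smul hg, fr2P_sub hg, fr2P_mm b0, fr2P_mm b0, fr2P_mm b2, fr2P_mm b1,
      fr2P_mm b3, e1, e2]
    linear_combination -a1 + a2 - a3 - a4 + a5
  have hε : ∀ n : ℕ, (0 : ℝ) < 1 / ((n : ℝ) + 1) := fun n => by positivity
  choose ψ p1 p2 p3 p4 p5 p6 using fun n : ℕ =>
    exists_moll hO hχ.cc.cpt.isCompact hχ.supp h0 h1 h2 h3 (hε n)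
  have hψ : ∀ n, ψ n ∈ Adm D := fun n => ⟨p1 n, (tsupport_fderiv_subset ℝ).trans (p2 n)⟩
  have lim : ∀ {f : ℕ → L2c} {g : L2c}, (∀ n, ‖f n - g‖ ≤ 1 / ((n : ℝ) + 1)) → Tendsto f atTop (𝓝 g) := by
    intro f g h
    rw [tendsto_iff_norm_sub_tendsto_zero]
    exact squeeze_zero (fun n => norm_nonneg _) h tendsto_one_div_add_atTop_nhds_zero_nat
  have l0 := lim p3
  have l1 := lim p4
  have l2 := lim p5
  have l3 := lim p6
  have hvm : v ∈ VD D := by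
    refine (LinearMap.range (cuL D)).isClosed_topologicalClosure.mem_of_tendsto l3 (Eventually.of_forall fun n => ?_)
    exact (cuV D ⟨ψ n, hψ n⟩).2
  have l4 : Tendsto (fun n => cuV D ⟨ψ n, hψ n⟩) atTop (𝓝 (⟨v, hvm⟩ : VD D)) := tendsto_subtype_rng.2 l3
  have l5 : Tendsto (fun n => gpX D ⟨ψ n, hψ n⟩) atTop (𝓝 (iot D ⟨v, hvm⟩)) := by
    have h := ((iot D).continuous.tendsto _).comp l4
    refine h.congr fun n => ?_
    exact iot_cuV hD _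
  have k1 : Continuous fun x : XD D => (x : Y2).fst := by fun_prop
  have k2 : Continuous fun x : XD D => (x : Y2).snd := by fun_prop
  refine ⟨⟨v, hvm⟩, ?_, ?_, ?_, rfl⟩
  · have h := ((str D).continuous.tendsto _).comp l5
    refine tendsto_nhds_unique h (l0.congr fun n => ?_)
    exact (str_gpX hD ⟨ψ n, hψ n⟩).symm
  · have h := (k1.tendsto _).comp l5
    rw [add_comm]
    exact tendsto_nhds_unique h l2
  · have h := (k2.tendsto _).comp l5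
    have e : mm χ (q : Y2).snd - mm (px χ) θ = -(mm (px χ) θ - mm χ (q : Y2).snd) := by abel
    rw [e]
    exact tendsto_nhds_unique h l1.neg

private noncomputable def fr2F : Y2 →L[ℂ] L2c :=
  (ContinuousLinearMap.fst ℂ L2c L2c).comp ((WithLp.prodContinuousLinearEquiv 2 ℂ L2c L2c) : Y2 →L[ℂ] (L2c × L2c))

private noncomputable def fr2S : Y2 →L[ℂ] L2c :=
  (ContinuousLinearMap.snd ℂ L2c L2c).comp ((WithLp.prodContinuousLinearEquiv 2 ℂ L2c L2c) : Y2 →L[ℂ] (L2c × L2c))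

private noncomputable def fr2L (D : Set ℂ) (χ : ℂ → ℂ) : XS D →L[ℂ] L2c :=
  (mm χ).comp (XS D).subtypeL -
    (2 : ℂ) • ((mm (py χ)).comp (fr2F.comp ((SV D).subtypeL.comp (ja D))) -
      (mm (px χ)).comp (fr2S.comp ((SV D).subtypeL.comp (ja D)))) -
    (mm (lap χ)).comp ((XS D).subtypeL.comp ((js D).comp (ja D)))

private theorem fr2L_eq (χ : ℂ → ℂ) (φ : XS D) : fr2L D χ φ = mm χ (φ : L2c) -
      (2 : ℂ) • (mm (py χ) (ja D φ : Y2).fst - mm (px χ) (ja D φ : Y2).snd) -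
      mm (lap χ) ((js D (ja D φ) : XS D) : L2c) := rfl

/-- **Interior regularity.** The formula for `V φ` is a bounded linear map `XS D → L²`. Its values are in `VD D` and the other
relations hold: `exists_moll` for `w = χ θ`, `w1 = χ θ_x + χ_x θ`, `w2 = χ θ_y + χ_y θ`, `v` = the formula, `K = tsupport χ`; weak
relations from `SV_weak` and `⟨gp ϕ, js† φ⟩ = ⟨ϕ, φ⟩` for `ϕ ∈ AdmS D` (adjoint), applied to `ϕ = χ χ'` and `SV_weak` for `∂χ χ'`;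
the `ψ_n` of `exists_moll` are in `Adm D`, `cuV ψ_n → v`, `iot (cuV ψ_n) = gpX ψ_n`, `str_gpX`. -/
theorem exists_Vx (hO : IsOpen D) (hD : Bornology.IsBounded D) {χ : ℂ → ℂ} (hχ : CcR D χ) :
    ∃ V : XS D →L[ℂ] VD D, IsVx D χ V := by
  have hm : ∀ φ : XS D, fr2L D χ φ ∈ VD D := fun φ => by
    obtain ⟨v, -, -, -, hv⟩ := fr2_main hO hD hχ φ
    rw [fr2L_eq, ← hv]
    exact v.2
  have he : ∀ (φ : XS D) (v : VD D), (v : L2c) = mm χ (φ : L2c) -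
      (2 : ℂ) • (mm (py χ) (ja D φ : Y2).fst - mm (px χ) (ja D φ : Y2).snd) -
      mm (lap χ) ((js D (ja D φ) : XS D) : L2c) → (fr2L D χ).codRestrict (VD D) hm φ = v := fun φ v h =>
    Subtype.ext h.symm
  refine ⟨(fr2L D χ).codRestrict (VD D) hm, ⟨fun φ => ?_, fun φ => ?_, fun φ => ?_, fun φ => rfl⟩⟩
  · obtain ⟨v, h1, h2, h3, hv⟩ := fr2_main hO hD hχ φ
    rw [he φ v hv]
    exact h1
  · obtain ⟨v, h1, h2, h3, hv⟩ := fr2_main hO hD hχ φ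
    rw [he φ v hv]
    exact h2
  · obtain ⟨v, h1, h2, h3, hv⟩ := fr2_main hO hD hχ φ
    rw [he φ v hv]
    exact h3

variable {χ : ℂ → ℂ} {V : XS D →L[ℂ] VD D}

private theorem fr2_nf (q : Y2) : ‖q.fst‖ ≤ ‖q‖ := by
  have h := WithLp.prod_norm_sq_eq_of_L2 q
  have h1 : ‖q.fst‖ ^ 2 ≤ ‖q‖ ^ 2 := by rw [h]; nlinarith [sq_nonneg ‖q.snd‖]
  exact (pow_le_pow_iff_left₀ (norm_nonneg _) (norm_nonneg _) two_ne_zero).1 h1

private theorem fr2_ns (q : Y2) : ‖q.snd‖ ≤ ‖q‖ := by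
  have h := WithLp.prod_norm_sq_eq_of_L2 q
  have h1 : ‖q.snd‖ ^ 2 ≤ ‖q‖ ^ 2 := by rw [h]; nlinarith [sq_nonneg ‖q.fst‖]
  exact (pow_le_pow_iff_left₀ (norm_nonneg _) (norm_nonneg _) two_ne_zero).1 h1

private theorem fr2_nle (q : Y2) : ‖q‖ ≤ ‖q.fst‖ + ‖q.snd‖ := by
  have h := WithLp.prod_norm_sq_eq_of_L2 q
  have h1 : ‖q‖ ^ 2 ≤ (‖q.fst‖ + ‖q.snd‖) ^ 2 := by
    rw [h]; nlinarith [mul_nonneg (norm_nonneg q.fst) (norm_nonneg q.snd)]
  exact (pow_le_pow_iff_left₀ (norm_nonneg _) (by positivity) two_ne_zero).1 h1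

/-- `|iot V φ| ≤ C |js† φ|`, `|V φ| ≤ C |φ|`. -/
theorem IsVx.bd (hV : IsVx D χ V) (hχ : CcR D χ) : ∃ C : ℝ, 0 ≤ C ∧ ∀ φ : XS D,
    ‖iot D (V φ)‖ ≤ C * ‖ja D φ‖ ∧ ‖V φ‖ ≤ C * ‖φ‖ := by
  set C : ℝ := 2 * ‖mm χ‖ + (‖mm (px χ)‖ + ‖mm (py χ)‖) * ‖js D‖ + ‖V‖ with hC
  have b0 := norm_nonneg (mm χ)
  have b1 := norm_nonneg (mm (px χ))
  have b2 := norm_nonneg (mm (py χ))
  have b3 := norm_nonneg (js D)
  have b4 := norm_nonneg V
  refine ⟨C, by positivity, fun φ => ⟨?_, ?_⟩⟩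
  · have hq := norm_nonneg (ja D φ)
    have hj : ‖((js D (ja D φ) : XS D) : L2c)‖ ≤ ‖js D‖ * ‖ja D φ‖ := (js D).le_opNorm _
    have hf : ‖(ja D φ : Y2).fst‖ ≤ ‖ja D φ‖ := fr2_nf _
    have hs : ‖(ja D φ : Y2).snd‖ ≤ ‖ja D φ‖ := fr2_ns _
    have e1 : ‖((iot D (V φ) : XD D) : Y2).fst‖ ≤ ‖mm χ‖ * ‖ja D φ‖ + ‖mm (py χ)‖ * (‖js D‖ * ‖ja D φ‖) := by
      rw [hV.fs]
      refine (norm_add_le _ _).trans (add_le_add ?_ ?_)
      · exact ((mm χ).le_opNorm _).trans (mul_le_mul_of_nonneg_left hf b0)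
      · exact ((mm (py χ)).le_opNorm _).trans (mul_le_mul_of_nonneg_left hj b2)
    have e2 : ‖((iot D (V φ) : XD D) : Y2).snd‖ ≤ ‖mm χ‖ * ‖ja D φ‖ + ‖mm (px χ)‖ * (‖js D‖ * ‖ja D φ‖) := by
      rw [hV.sn]
      refine (norm_sub_le _ _).trans (add_le_add ?_ ?_)
      · exact ((mm χ).le_opNorm _).trans (mul_le_mul_of_nonneg_left hs b0)
      · exact ((mm (px χ)).le_opNorm _).trans (mul_le_mul_of_nonneg_left hj b1)
    have e3 : ‖iot D (V φ)‖ ≤ ‖((iot D (V φ) : XD D) : Y2).fst‖ + ‖((iot D (V φ) : XD D) : Y2).snd‖ := fr2_nle _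
    have e4 : 0 ≤ ‖V‖ * ‖ja D φ‖ := by positivity
    calc ‖iot D (V φ)‖ ≤ (‖mm χ‖ * ‖ja D φ‖ + ‖mm (py χ)‖ * (‖js D‖ * ‖ja D φ‖)) +
        (‖mm χ‖ * ‖ja D φ‖ + ‖mm (px χ)‖ * (‖js D‖ * ‖ja D φ‖)) := e3.trans (add_le_add e1 e2)
      _ ≤ C * ‖ja D φ‖ := by rw [hC]; linarith
  · have e1 : ‖V φ‖ ≤ ‖V‖ * ‖φ‖ := V.le_opNorm φ
    have e2 : 0 ≤ (2 * ‖mm χ‖ + (‖mm (px χ)‖ + ‖mm (py χ)‖) * ‖js D‖) * ‖φ‖ := by positivity
    calc ‖V φ‖ ≤ ‖V‖ * ‖φ‖ := e1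
      _ ≤ C * ‖φ‖ := by rw [hC]; linarith

private theorem fr2_real {f : ℂ → ℂ} (hf : Smo f) (h : ∀ x, conj (f x) = f x) :
    (∀ x, conj (px f x) = px f x) ∧ ∀ x, conj (py f x) = py f x := by
  have e : (fun x => (starRingEnd ℂ) (f x)) = f := funext h
  have h1 := hf.px_conj
  have h2 := hf.py_conj
  rw [e] at h1 h2
  exact ⟨fun x => (congrFun h1 x).symm, fun x => (congrFun h2 x).symm⟩

private theorem fr2_cm {f : ℂ → ℂ} (hf : Cc f) (h : ∀ x, conj (f x) = f x) (u : L2c) :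
    cL2 (mm f u) = mm f (cL2 u) := by
  obtain ⟨c, hc⟩ := fr2_bm hf
  rw [mm_conj hc u, show (fun x => (starRingEnd ℂ) (f x)) = f from funext h]

private theorem fr2_sm (c : ℂ) (u : L2c) : cL2 (c • u) = star c • cL2 u := Cnj_cL2.anti c u

theorem IsVx.real (hV : IsVx D χ V) (hχ : CcR D χ) (hD : Bornology.IsBounded D) (φ : XS D) :
    cVD D (V φ) = V (cXS D φ) := by
  have h1 : ja D (cXS D φ) = cSV D (ja D φ) := ((FCjS hD).adj (fdomS hD) φ).symm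
  have h2 : js D (cSV D (ja D φ)) = cXS D (js D (ja D φ)) := ((FCjS hD).ι (ja D φ)).symm
  obtain ⟨r1, r2⟩ := fr2_real hχ.cc.smo hχ.real
  have r3 := (fr2_real hχ.cc.smo.px r1).1
  have r4 := (fr2_real hχ.cc.smo.py r2).2
  have r5 : ∀ x, conj (lap χ x) = lap χ x := fun x => by
    unfold lap
    rw [map_add, r3, r4]
  apply Subtype.ext
  rw [cVD_coe, hV.vo, hV.vo, h1, h2]
  have e1 : ((cXS D φ : XS D) : L2c) = cL2 (φ : L2c) := rfl
  have e2 : ((cSV D (ja D φ) : SV D) : Y2).fst = cL2 (ja D φ : Y2).fst := rfl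
  have e3 : ((cSV D (ja D φ) : SV D) : Y2).snd = cL2 (ja D φ : Y2).snd := rfl
  have e4 : ((cXS D (js D (ja D φ)) : XS D) : L2c) = cL2 ((js D (ja D φ) : XS D) : L2c) := rfl
  rw [e1, e2, e3, e4, map_sub, map_sub, fr2_sm, map_sub, fr2_cm hχ.cc hχ.real, fr2_cm hχ.cc.py r2,
    fr2_cm hχ.cc.px r1, fr2_cm hχ.cc.lap r5]
  have e5 : star (2 : ℂ) = 2 := by
    rw [RCLike.star_def, Complex.conj_ofNat]
  rw [e5]

/-- `|jj w|₄ ≤ C |iot w|^{1/2} |w|^{1/2}` for `w ∈ VD D` (`Lad` for `iot`, SpDa2). -/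
theorem jj_bd (hD : Bornology.IsBounded D) : ∃ C : ℝ, 0 ≤ C ∧ ∀ w : VD D, ‖jj D w‖ ≤ C * √(‖iot D w‖ * ‖w‖) := by
  obtain ⟨C, hC⟩ := exists_Lad hD
  refine ⟨C, hC.C0, fun w => ?_⟩
  have h1 := hC.le w
  have h2 : 0 ≤ ‖iot D w‖ * ‖w‖ := by positivity
  have h3 : ‖jj D w‖ ^ 2 ≤ (C * √(‖iot D w‖ * ‖w‖)) ^ 2 := by
    rw [mul_pow, Real.sq_sqrt h2]
    exact h1
  exact (pow_le_pow_iff_left₀ (norm_nonneg _) (mul_nonneg hC.C0 (Real.sqrt_nonneg _)) two_ne_zero).1 h3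

end

namespace FD
variable {D : Set ℂ} (F : FD D)

/-- the factors of the cut-off -/
private noncomputable def fr2f (j : Fin F.n) (x : ℂ) : ℝ :=
  open scoped Classical in
  if x ∈ Wc (F.X j) (16 * F.u) then 1 - ctf (2 * F.u) (4 * F.u) (F.h x / F.k j) else 1

private noncomputable def fr2c (x : ℂ) : ℝ :=
  open scoped Classical in if x ∈ D then ∏ j, F.fr2f j x else 0

private theorem fr2_ctf (a b z : ℝ) : 0 ≤ ctf a b z ∧ ctf a b z ≤ 1 :=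
  ⟨Real.smoothTransition.nonneg _, Real.smoothTransition.le_one _⟩

private theorem fr2f_01 (j : Fin F.n) (x : ℂ) : 0 ≤ F.fr2f j x ∧ F.fr2f j x ≤ 1 := by
  unfold fr2f
  split_ifs
  · have h := fr2_ctf (2 * F.u) (4 * F.u) (F.h x / F.k j)
    exact ⟨by linarith [h.2], by linarith [h.1]⟩
  · exact ⟨zero_le_one, le_rfl⟩

private theorem fr2c_01 (x : ℂ) : 0 ≤ F.fr2c x ∧ F.fr2c x ≤ 1 := by
  unfold fr2c
  split_ifs
  · exact ⟨Finset.prod_nonneg fun j _ => (F.fr2f_01 j x).1,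
      Finset.prod_le_one (fun j _ => (F.fr2f_01 j x).1) fun j _ => (F.fr2f_01 j x).2⟩
  · exact ⟨le_rfl, zero_le_one⟩

private theorem fr2_hX (j : Fin F.n) {q : ℝ × ℝ} (h0 : 0 < q.2) (h1 : q.2 < 16 * F.u) :
    F.h (F.X j q) / F.k j = q.2 := by
  have hk : (F.k j : ℝ) ≠ 0 := by
    have : 1 ≤ F.k j := F.fl.kpos j
    positivity
  rw [F.h_X j h0 h1]
  field_simp

private theorem fr2_norm (q : ℝ × ℝ) : ‖Complex.exp (Complex.I * cxp q)‖ = Real.exp (-q.2) := by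
  rw [Complex.norm_exp]
  congr 1
  simp

private theorem fr2_ringc {q : ℝ × ℝ} (h0 : 0 ≤ q.2) (h1 : q.2 < 16 * F.u) :
    Complex.exp (Complex.I * cxp q) ∈ ringc F.ρ := by
  refine ⟨?_, ?_⟩
  · rw [fr2_norm]
    have h2 : Real.log F.ρ < -q.2 := by
      have hu := F.uρ
      rw [one_div, Real.log_inv] at hu
      linarith
    exact (Real.log_lt_iff_lt_exp F.fl.cols.h0).1 h2
  · rw [fr2_norm]
    exact Real.exp_le_one_iff.2 (by linarith)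

private theorem fr2_dis {i j : Fin F.n} (hij : i ≠ j) {q : ℝ × ℝ} (h0 : 0 < q.2) (h1 : q.2 < 16 * F.u) :
    F.X j q ∉ Wc (F.X i) (16 * F.u) := by
  rintro ⟨p, ⟨hp0, hp1⟩, hp⟩
  have h2 : Disjoint (F.F i '' ringc F.ρ) (F.F j '' ringc F.ρ) := F.fl.cols.dis hij
  refine Set.disjoint_left.1 h2 (?_ : F.X j q ∈ F.F i '' ringc F.ρ) ?_
  · rw [← hp, F.eX]
    exact ⟨_, F.fr2_ringc hp0.le hp1, rfl⟩
  · rw [F.eX]
    exact ⟨_, F.fr2_ringc h0.le h1, rfl⟩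

private theorem fr2c_D {j : Fin F.n} {x : ℂ} (hx : x ∈ Wc (F.X j) (16 * F.u)) :
    F.fr2c x = 1 - ctf (2 * F.u) (4 * F.u) (F.h x / F.k j) := by
  classical
  have hxD : x ∈ D := (F.hX j).Wc_sub le_rfl hx
  obtain ⟨q, ⟨h0, h1⟩, rfl⟩ := hx
  unfold fr2c
  rw [if_pos hxD, Finset.prod_eq_single j]
  · unfold fr2f
    rw [if_pos ⟨q, ⟨h0, h1⟩, rfl⟩]
  · intro i _ hij
    unfold fr2f
    rw [if_neg (F.fr2_dis hij h0 h1)]
  · intro h
    exact absurd (Finset.mem_univ j) h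

private theorem fr2c_one {x : ℂ} (hx : x ∈ D) (h : ∀ j, x ∉ Wc (F.X j) (4 * F.u)) : F.fr2c x = 1 := by
  classical
  unfold fr2c
  rw [if_pos hx]
  refine Finset.prod_eq_one fun j _ => ?_
  unfold fr2f
  split_ifs with hj
  · obtain ⟨q, ⟨h0, h1⟩, rfl⟩ := hj
    have h2 : 4 * F.u ≤ q.2 := by
      by_contra hc
      exact h j ⟨q, ⟨h0, not_le.1 hc⟩, rfl⟩
    rw [F.fr2_hX j h0 h1, ctf_zero (by linarith [F.u0]) h2, sub_zero]
  · rfl

/-- the compact set which carries the cut-off -/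
private def fr2K : Set ℂ := D \ ⋃ j, F.F j '' ring (Real.exp (-(2 * F.u)))

private theorem fr2K_cpt : IsCompact F.fr2K := by
  refine F.fl.cols.cpt _ ?_ (Real.exp_lt_one_iff.2 (by linarith [F.u0]))
  have h2 : Real.log F.ρ < -(2 * F.u) := by
    have hu := F.uρ
    rw [one_div, Real.log_inv] at hu
    linarith [F.u0]
  exact (Real.log_lt_iff_lt_exp F.fl.cols.h0).1 h2

private theorem fr2c_zero {x : ℂ} (hx : x ∉ F.fr2K) : F.fr2c x = 0 := by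
  by_cases hxD : x ∈ D
  · have h1 : x ∈ ⋃ j, F.F j '' ring (Real.exp (-(2 * F.u))) := by
      by_contra h
      exact hx ⟨hxD, h⟩
    obtain ⟨j, ξ, ⟨h2, h3⟩, rfl⟩ := mem_iUnion.1 h1
    have hξ : ξ ≠ 0 := by
      intro h
      rw [h, norm_zero] at h2
      exact absurd h2 (not_lt.2 (Real.exp_pos _).le)
    have hn : 0 < ‖ξ‖ := norm_pos_iff.2 hξ
    set q : ℝ × ℝ := (Complex.arg ξ, -Real.log ‖ξ‖) with hq
    have e1 : Complex.exp (Complex.I * cxp q) = ξ := by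
      have h4 : Complex.I * cxp q = Complex.log ξ := by
        apply Complex.ext
        · simp [hq, Complex.log_re]
        · simp [hq, Complex.log_im]
      rw [h4, Complex.exp_log hξ]
    have q0 : 0 < q.2 := by
      show 0 < -Real.log ‖ξ‖
      rw [neg_pos]
      exact Real.log_neg hn h3
    have q1 : q.2 < 2 * F.u := by
      show -Real.log ‖ξ‖ < 2 * F.u
      have h5 := Real.log_lt_log (Real.exp_pos _) h2
      rw [Real.log_exp] at h5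
      linarith
    have q2 : q.2 < 16 * F.u := by linarith [F.u0]
    have e2 : F.F j ξ = F.X j q := by rw [F.eX, e1]
    rw [e2, F.fr2c_D ⟨q, ⟨q0, q2⟩, rfl⟩, F.fr2_hX j q0 q2, ctf_one (by linarith [F.u0]) q1.le, sub_self]
  · unfold fr2c
    rw [if_neg hxD]

/-- the closed part of a strip -/
private def fr2S (j : Fin F.n) : Set ℂ := F.X j '' (Icc (-Real.pi) Real.pi ×ˢ Icc 0 (4 * F.u))

private theorem fr2S_closed (j : Fin F.n) : IsClosed (F.fr2S j) :=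
  ((isCompact_Icc.prod isCompact_Icc).image (F.hX j).smooth.continuous).isClosed

private theorem fr2S_out {j : Fin F.n} {x : ℂ} (hx : x ∉ F.fr2S j) : x ∉ Wc (F.X j) (4 * F.u) := by
  rw [(F.hX j).Wc_eq]
  rintro ⟨q, ⟨h1, h2⟩, rfl⟩
  exact hx ⟨q, ⟨⟨h1.1.le, h1.2⟩, ⟨h2.1.le, h2.2.le⟩⟩, rfl⟩

private theorem fr2S_mem {j : Fin F.n} {x : ℂ} (hxD : x ∈ D) (hx : x ∉ Wc (F.X j) (16 * F.u)) : x ∉ F.fr2S j := by
  rintro ⟨q, ⟨h1, h2⟩, rfl⟩
  rcases h2.1.eq_or_lt with h3 | h3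
  · have h4 := (F.hX j).bdry q.1
    have h5 : (q.1, (0 : ℝ)) = q := Prod.ext rfl h3
    rw [h5, frontier, F.hD.op.interior_eq] at h4
    exact h4.2 hxD
  · exact hx ⟨q, ⟨h3, by linarith [h2.2, F.u0]⟩, rfl⟩

private theorem fr2c_smo : ContDiff ℝ ((⊤ : ℕ∞) : WithTop ℕ∞) F.fr2c := by
  rw [contDiff_iff_contDiffAt]
  intro x
  by_cases hx : x ∈ D
  · by_cases hj : ∃ j, x ∈ Wc (F.X j) (16 * F.u)
    · obtain ⟨j, hj⟩ := hj
      have h1 : F.fr2c =ᶠ[𝓝 x] fun y => 1 - ctf (2 * F.u) (4 * F.u) (F.h y / F.k j) := by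
        filter_upwards [((F.hX j).isOpen_Wc le_rfl).mem_nhds hj] with y hy using F.fr2c_D hy
      refine ContDiffAt.congr_of_eventuallyEq ?_ h1
      have h2 : ContDiffAt ℝ ((⊤ : ℕ∞) : WithTop ℕ∞) F.h x := F.fl.smooth.contDiffAt (F.hD.op.mem_nhds hx)
      exact contDiffAt_const.sub ((ctf_smooth _ _).contDiffAt.comp x (h2.div_const _))
    · have h1 : F.fr2c =ᶠ[𝓝 x] fun _ => 1 := by
        have h2 : ∀ᶠ y in 𝓝 x, ∀ j, y ∉ F.fr2S j := by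
          rw [eventually_all]
          intro j
          exact (F.fr2S_closed j).isOpen_compl.mem_nhds (F.fr2S_mem hx fun h => hj ⟨j, h⟩)
        filter_upwards [F.hD.op.mem_nhds hx, h2] with y hy h3
        exact F.fr2c_one hy fun j => F.fr2S_out (h3 j)
      exact contDiffAt_const.congr_of_eventuallyEq h1
  · have h1 : F.fr2c =ᶠ[𝓝 x] fun _ => 0 := by
      have h2 : x ∉ F.fr2K := fun h => hx h.1
      filter_upwards [F.fr2K_cpt.isClosed.isOpen_compl.mem_nhds h2] with y hy using F.fr2c_zero hy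
    exact contDiffAt_const.congr_of_eventuallyEq h1

/-- The interior cut-off: `1 - η⁺` in the strips, `1` on the rest of `D`, `0` off `D`. (`x ↦ 1 - psh (η⁺)` in the strips; smooth
because the closed sets `X_j {2u ≤ z ≤ 4u}` are compact, `IsCols.cpt`, `IsCols.dis`.) -/
theorem exists_cc : ∃ χ : ℂ → ℂ, CcR D χ ∧ (∀ x, 0 ≤ (χ x).re ∧ (χ x).re ≤ 1) ∧
    (∀ j, ∀ q : ℝ × ℝ, 0 < q.2 → q.2 < 16 * F.u → χ (F.X j q) = ((1 - ctf (2 * F.u) (4 * F.u) q.2 : ℝ) : ℂ)) ∧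
    ∀ x ∈ D, (∀ j, x ∉ Wc (F.X j) (4 * F.u)) → χ x = 1 := by
  have hs : ∀ x, x ∉ F.fr2K → ((F.fr2c x : ℝ) : ℂ) = 0 := fun x hx => by rw [F.fr2c_zero hx, Complex.ofReal_zero]
  refine ⟨fun x => (F.fr2c x : ℂ), ⟨⟨Complex.ofRealCLM.contDiff.comp F.fr2c_smo,
    HasCompactSupport.intro F.fr2K_cpt hs⟩, ?_, fun x => Complex.conj_ofReal _⟩, fun x => ?_, fun j q h0 h1 => ?_,
    fun x hx h => ?_⟩
  · have h1 : tsupport (fun x => ((F.fr2c x : ℝ) : ℂ)) ⊆ F.fr2K := by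
      refine closure_minimal (fun x hx => ?_) F.fr2K_cpt.isClosed
      by_contra h
      exact hx (hs x h)
    exact h1.trans sdiff_subset
  · rw [Complex.ofReal_re]
    exact F.fr2c_01 x
  · show ((F.fr2c (F.X j q) : ℝ) : ℂ) = _
    rw [F.fr2c_D ⟨q, ⟨h0, h1⟩, rfl⟩, F.fr2_hX j h0 h1]
  · show ((F.fr2c x : ℝ) : ℂ) = 1
    rw [F.fr2c_one hx h, Complex.ofReal_one]

noncomputable def cc : ℂ → ℂ := F.exists_cc.choose

theorem cc_cc : CcR D F.cc := F.exists_cc.choose_spec.1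
theorem cc_01 (x : ℂ) : 0 ≤ (F.cc x).re ∧ (F.cc x).re ≤ 1 := F.exists_cc.choose_spec.2.1 x
theorem cc_X (j : Fin F.n) (q : ℝ × ℝ) (h0 : 0 < q.2) (h1 : q.2 < 16 * F.u) :
    F.cc (F.X j q) = ((1 - ctf (2 * F.u) (4 * F.u) q.2 : ℝ) : ℂ) := F.exists_cc.choose_spec.2.2.1 j q h0 h1
theorem cc_1 (x : ℂ) (hx : x ∈ D) (h : ∀ j, x ∉ Wc (F.X j) (4 * F.u)) : F.cc x = 1 :=
  F.exists_cc.choose_spec.2.2.2 x hx h

/-- The vorticity of `χ θ`. -/
noncomputable def Vc : XS D →L[ℂ] VD D := (exists_Vx F.hD.op F.hD.bdd F.cc_cc).choose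
theorem hVc : IsVx D F.cc F.Vc := (exists_Vx F.hD.op F.hD.bdd F.cc_cc).choose_spec

end FD

end Pool.Agent.Lib.MP_79abb3_an.PD
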