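import Pool.Agent.Lib.MP_79abb3_an.PD.FeDef
import Pool.Agent.Lib.MP_79abb3_an.PD.FdB2
import Pool.Agent.Lib.MP_79abb3_an.PD.CoC5

/-!
Theorem D, block F: test functions of the strips do not see the sink.
-/

set_option autoImplicit false
set_option linter.unusedSectionVars false

open MeasureTheory Set Filter Topology Function
open scoped ENNReal InnerProductSpace ComplexConjugate

namespace Pool.Agent.Lib.MP_79abb3_an.PD

open Pool.Agent.Lib.MP_79abb3_an.SC Pool.Agent.Lib.MP_79abb3_an.P25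

private theorem fexb_inner {f g : ℂ → ℂ} (hf : MemLp f 2 (volume : Measure ℂ))
    (hg : MemLp g 2 (volume : Measure ℂ)) (h : ∀ x, f x = 0 ∨ g x = 0) : ⟪cl2 f, cl2 g⟫_ℂ = 0 := by
  rw [MeasureTheory.L2.inner_def]
  refine (integral_congr_ae ?_).trans (integral_zero ℂ ℂ)
  filter_upwards [cl2_coe hf, cl2_coe hg] with x h1 h2
  rw [h1, h2]
  rcases h x with h3 | h3
  · rw [h3, inner_zero_left]
  · rw [h3, inner_zero_right]

private theorem fexb_zero {f : ℂ → ℂ} (h : ∀ x, f x = 0) : cl2 f = 0 := by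
  have e : f = fun x => (0:ℂ) * f x := by
    funext x
    rw [h x, mul_zero]
  have h0 : MemLp f 2 (volume : Measure ℂ) := by
    have e0 : f = fun _ => 0 := funext h
    rw [e0]
    exact MemLp.zero
  rw [e, cl2_smul 0 h0, zero_smul]

private theorem fexb_fd {f : ℂ → ℂ} {x : ℂ} (h : x ∉ tsupport f) (v : ℂ) : fderiv ℝ f x v = 0 := by
  have h1 : fderiv ℝ f x = 0 := by
    by_contra h2
    exact h (support_fderiv_subset ℝ h2)
  rw [h1]
  rfl

namespace FD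
variable {D : Set ℂ} (F : FD D) {m : ℕ} {A A' : ℝ → ℝ} {b lam : ℝ} {v₀ : VD D} {v : ℝ → VD D} {mu mu' : ℝ → ℝ}

/-- Test functions of the strip do not see the sink. `θ` supported in `e1 ≤ z ≤ e2 < 16 u`, `ψ = psh θ`: the functions `c₀`, `β`,
`d` vanish on the support of `ψ` (`X_away`). -/
theorem psh_c0 (hm : 1 ≤ m) (j : Fin F.n) {θ : ℝ × ℝ → ℂ} {e1 e2 : ℝ} (hθ : TfS Real.pi e1 e2 θ) (h1 : 0 < e1)
    (h2 : e2 < 16 * F.u) (v : VD D) (w : L2c) :
    ⟪cl2 (psh Real.pi (16 * F.u) (F.X j) θ), cl2 (F.c0 m)⟫_ℂ = 0 ∧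
    ⟪cl2 (psh Real.pi (16 * F.u) (F.X j) θ), cl2 F.β⟫_ℂ = 0 ∧
    ⟪cu (psh Real.pi (16 * F.u) (F.X j) θ), cl2 (F.c0 m)⟫_ℂ = 0 ∧
    ⟪cu (psh Real.pi (16 * F.u) (F.X j) θ), cl2 F.β⟫_ℂ = 0 ∧
    ⟪cl2 (fun x => F.d x * psh Real.pi (16 * F.u) (F.X j) θ x), w⟫_ℂ = 0 ∧
    PD.NL (jj D v) (cl2 (F.c0 m)) (jj D (cuV D (pshA (F.hX j) hθ h1 h2))) = 0 ∧
    PD.NL (jj D v) (cl2 F.β) (jj D (cuV D (pshA (F.hX j) hθ h1 h2))) = 0 := by
  obtain ⟨hcc, hts⟩ := (F.hX j).psh_mem hθ h1 h2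
  obtain ⟨hc1, hc2, -⟩ := F.c0_cc hm
  have haway : ∀ x, x ∈ tsupport (psh Real.pi (16 * F.u) (F.X j) θ) → F.t < dist x F.x := by
    intro x hx
    obtain ⟨q, hq, rfl⟩ := hts hx
    exact F.X_away j (lt_of_lt_of_le h1 hq.2.1) (lt_of_le_of_lt hq.2.2 h2)
  have hnot : ∀ x, dist x F.x ≤ F.t → x ∉ tsupport (psh Real.pi (16 * F.u) (F.X j) θ) :=
    fun x hx h => absurd (haway x h) (not_lt.2 hx)
  have hps : ∀ x, dist x F.x ≤ F.t → psh Real.pi (16 * F.u) (F.X j) θ x = 0 :=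
    fun x hx => image_eq_zero_of_notMem_tsupport (hnot x hx)
  have hpx : ∀ x, dist x F.x ≤ F.t → px (psh Real.pi (16 * F.u) (F.X j) θ) x = 0 :=
    fun x hx => fexb_fd (hnot x hx) 1
  have hpy : ∀ x, dist x F.x ≤ F.t → py (psh Real.pi (16 * F.u) (F.X j) θ) x = 0 :=
    fun x hx => fexb_fd (hnot x hx) Complex.I
  have hlap : ∀ x, dist x F.x ≤ F.t → lap (psh Real.pi (16 * F.u) (F.X j) θ) x = 0 := by
    intro x hx
    have e1 : x ∉ tsupport (px (psh Real.pi (16 * F.u) (F.X j) θ)) := fun h3 =>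
      hnot x hx (tsupport_fderiv_apply_subset ℝ (1 : ℂ) h3)
    have e2 : x ∉ tsupport (py (psh Real.pi (16 * F.u) (F.X j) θ)) := fun h3 =>
      hnot x hx (tsupport_fderiv_apply_subset ℝ Complex.I h3)
    show fderiv ℝ (px (psh Real.pi (16 * F.u) (F.X j) θ)) x 1 +
      fderiv ℝ (py (psh Real.pi (16 * F.u) (F.X j) θ)) x Complex.I = 0
    rw [fexb_fd e1, fexb_fd e2, add_zero]
  have hc0 : ∀ x, F.c0 m x = 0 ∨ dist x F.x ≤ F.t := by
    intro x
    rcases le_or_gt F.t (dist x F.x) with h3 | h3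
    · exact Or.inl (hc2 x (F.h3.le.trans h3))
    · exact Or.inr h3.le
  have hb0 : ∀ x, F.β x = 0 ∨ dist x F.x ≤ F.t := by
    intro x
    rcases le_or_gt F.t (dist x F.x) with h3 | h3
    · exact Or.inl (F.β0 x ((F.h2.trans F.h3).le.trans h3))
    · exact Or.inr h3.le
  have mps : MemLp (psh Real.pi (16 * F.u) (F.X j) θ) 2 (volume : Measure ℂ) := hcc.memLp 2
  have mlap : MemLp (lap (psh Real.pi (16 * F.u) (F.X j) θ)) 2 (volume : Measure ℂ) := hcc.lap.memLp 2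
  have mc : MemLp (F.c0 m) 2 (volume : Measure ℂ) := hc1.cc.memLp 2
  have mb : MemLp F.β 2 (volume : Measure ℂ) := F.hβ.cc.memLp 2
  refine ⟨?_, ?_, ?_, ?_, ?_, ?_, ?_⟩
  · exact fexb_inner mps mc fun x => (hc0 x).elim Or.inr fun h3 => Or.inl (hps x h3)
  · exact fexb_inner mps mb fun x => (hb0 x).elim Or.inr fun h3 => Or.inl (hps x h3)
  · unfold cu
    rw [inner_neg_left, fexb_inner mlap mc fun x => (hc0 x).elim Or.inr fun h3 => Or.inl (hlap x h3),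
      neg_zero]
  · unfold cu
    rw [inner_neg_left, fexb_inner mlap mb fun x => (hb0 x).elim Or.inr fun h3 => Or.inl (hlap x h3),
      neg_zero]
  · rw [fexb_zero (f := fun x => F.d x * psh Real.pi (16 * F.u) (F.X j) θ x) (fun x => ?_), inner_zero_left]
    rcases le_or_gt F.t (dist x F.x) with h3 | h3
    · rw [F.d0 x h3, zero_mul]
    · rw [hps x h3.le, mul_zero]
  · exact NL_disj F.hD.bdd mc (pshA (F.hX j) hθ h1 h2)
      (fun x => (hc0 x).elim Or.inl fun h3 => Or.inr ⟨hpx x h3, hpy x h3⟩) v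
  · exact NL_disj F.hD.bdd mb (pshA (F.hX j) hθ h1 h2)
      (fun x => (hb0 x).elim Or.inl fun h3 => Or.inr ⟨hpx x h3, hpy x h3⟩) v

end FD

end Pool.Agent.Lib.MP_79abb3_an.PD
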