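import Pool.Agent.Lib.MP_79abb3_an.PD.FeXa
import Pool.Agent.Lib.MP_79abb3_an.PD.FeXb
import Pool.Agent.Lib.MP_79abb3_an.PD.FeX2a

/-!
Theorem D, block F: the strip data of the total flow satisfy the equation `(X)`.
-/

set_option autoImplicit false
set_option linter.unusedSectionVars false

open MeasureTheory Set Filter Topology Function
open scoped ENNReal InnerProductSpace ComplexConjugate

namespace Pool.Agent.Lib.MP_79abb3_an.PD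

open Pool.Agent.Lib.MP_79abb3_an.SC Pool.Agent.Lib.MP_79abb3_an.P25

section aux
variable {H : ℝ} [hH : Fact (0 < H)]

private theorem fex_dp_add {n : ℤ} {x y : HH H} (hx : ∀ k, k ≠ n → x k = 0) (hy : ∀ k, k ≠ n → y k = 0)
    (g : ℤ → Z2 H) : dp (⇑(x + y)) g = dp (⇑x) g + dp (⇑y) g := by
  have key : ∀ z : HH H, (∀ k, k ≠ n → z k = 0) → dp (⇑z) g = ⟪z n, g n⟫_ℂ := fun z hz =>
    tsum_eq_single n (fun k hk => by rw [hz k hk, inner_zero_left])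
  rw [key _ (fun k hk => by rw [lp.coeFn_add, Pi.add_apply, hx k hk, hy k hk, add_zero]), key x hx, key y hy,
    lp.coeFn_add, Pi.add_apply, inner_add_left]

private theorem fex_star (F : ℝ → ℝ) (hF : Continuous F) :
    star (Pool.Agent.Lib.MP_79abb3_an.FW.rc F hF : CI H) = Pool.Agent.Lib.MP_79abb3_an.FW.rc F hF :=
  ContinuousMap.ext fun _ => Complex.conj_ofReal _

private theorem fex_dp_Ms (G : Geo H) {m : CI H} (mr : star m = m) (x q : HH H) {v : ℤ → CI H}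
    (sv : S2 G.lam (1 / 2) v) : dp (⇑(Ms m x)) (pz (⇑q) v) = dp (⇑x) (pz (⇑(Ms m q)) v) := by
  rw [dp_Ms, mr]
  refine tsum_congr fun n => ?_
  show ⟪x n, mz m (pz (⇑q) v n)⟫_ℂ = ⟪x n, pz (⇑(Ms m q)) v n⟫_ℂ
  rw [G.mz_pz0 m q sv]

/-- the identity of the integrands -/
private theorem fex_key (G : Geo H) {e0 e1 e2 : CI H} (h0 : star e0 = e0) (h1 : star e1 = e1) (h2 : star e2 = e2)
    {n : ℤ} {φ : HH H} (hφ : ∀ k, k ≠ n → φ k = 0) (Γ : HH H) (D : SDt H) (t : ℝ)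
    (hx : D.x t = Ms e0 Γ)
    (hσ : D.σ t = sgm G e1 e2 (SC.cm G.a Γ) (UW G.ω G.lam Γ))
    (hve : D.ve t = UV G.ω G.lam Γ) (hwe : D.we t = UW G.ω G.lam Γ) :
    -⟪Ms e0 φ - (2:ℂ) • Ms e1 (Yz G.ω (SC.TT G.ω φ)) - Ms e2 (SC.EE G.ω (SC.TT G.ω φ)), SC.cm G.a Γ⟫_ℂ +
      (dp (⇑(Ms e1 (SC.EE G.ω (SC.TT G.ω φ)) + Ms e0 (Yz G.ω (SC.TT G.ω φ))))
          (pz (⇑(SC.cm G.a Γ)) (wV G.ω (Vf G.ω (⇑Γ)))) +
        dp (⇑(Ms e0 (Yy G.ω (SC.TT G.ω φ)))) (pz (⇑(SC.cm G.a Γ)) (uV G.ω (Vf G.ω (⇑Γ))))) = rX G D t φ := by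
  have hT : ∀ k, k ≠ n → SC.TT G.ω φ k = 0 := fun k hk => by rw [SC.TT_apply, hφ k hk, map_zero]
  have hE : ∀ k, k ≠ n → SC.EE G.ω (SC.TT G.ω φ) k = 0 := fun k hk => by rw [EE_apply, hT k hk, map_zero]
  have hY : ∀ k, k ≠ n → Yz G.ω (SC.TT G.ω φ) k = 0 := fun k hk => by
    rw [Yz_apply]
    unfold tZ
    rw [hT k hk, map_zero, smul_zero, sub_zero]
  have hu : uV G.ω (Vf G.ω (⇑Γ)) = hf G.lam (UV G.ω G.lam Γ) := funext fun k => (G.hf_UV Γ k).symm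
  have hw : wV G.ω (Vf G.ω (⇑Γ)) = hf G.lam (UW G.ω G.lam Γ) := funext fun k => (G.hf_UW Γ k).symm
  have sv : S2 G.lam (1 / 2) (hf G.lam (UV G.ω G.lam Γ)) := (S2_hf G.lw.h1 _).1
  have sw : S2 G.lam (1 / 2) (hf G.lam (UW G.ω G.lam Γ)) := (S2_hf G.lw.h1 _).1
  have ha : Summable fun k => ‖G.a k‖ :=
    G.ha.c.s0
  rw [hu, hw, fex_dp_add (n := n) (fun k hk => by rw [Ms_apply, hE k hk, map_zero])
    (fun k hk => by rw [Ms_apply, hY k hk, map_zero]), fex_dp_Ms G h0 _ _ sw, fex_dp_Ms G h0 _ _ sv]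
  unfold rX
  rw [hx, hσ, hve, hwe, inner_sgm G h1, G.bf_eq, ← Ms_cm e0 ha, inner_sub_left, inner_sub_left, inner_smul_left,
    inner_Ms, inner_Ms, inner_Ms, h0, h1, h2]
  simp only [map_ofNat]
  ring

end aux

namespace FD
variable {D : Set ℂ} (F : FD D) {m : ℕ} {A A' : ℝ → ℝ} {b lam : ℝ} {v₀ : VD D} {v : ℝ → VD D} {mu mu' : ℝ → ℝ}

/-- **The equation `(X)`.** `EqX_of_modes`: let `f`, `Φ`, `φ` as in `mode_fHc`, `θ = ζ (mth f)` with `ζ = ctf (9u) (10u)`: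
`θ` is in `TfS Real.pi ε (10u)`; `USys.eq` with `ψ = pshA θ`, divided by `2π`:
`⟨gp ψ, iot v⟩ = ⟨ψ, v⟩ = 2π ⟨θ, Ga v⟩ = 2π ⟨E T φ, x⟩ = 2π ⟨Tφ, T x⟩` (`IsGa.pair`);
`-⟨cu ψ, v⟩ = -2π ⟨-Δθ, a Ga v⟩` (`IsGa.pair_cu`) `= 2π (-⟨φ, a x⟩ + 2⟨Yz Tφ, ζ' a Ga v⟩ + ⟨E Tφ, ζ'' a Ga v⟩)`;
`NL = 2π (dp θ_z .. + dp θ_y ..)` (`IsGa.NL`), `θ_z = ζ' E Tφ + ζ Yz Tφ`, `bf` is defined by `tZ = Yz`, `tY = Yy`;
`inner_sgm`. The other terms vanish (`psh_c0`). -/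
theorem sd_EqX (hm : 1 ≤ m) (j : Fin F.n) (hA : ContinuousOn A (Icc 0 b))
    (hU : USys D (F.c0 m) F.β F.d lam A A' b v₀ v mu mu') : EqX (F.G j) (F.sd m A v j) b := by
  have u0 := F.u0
  set a1 : ℝ := 9 * F.u with ha1
  set a2 : ℝ := 10 * F.u with ha2
  have h12 : a1 < a2 := by rw [ha1, ha2]; linarith
  have hb := F.hD.bdd
  have hO := F.hD.op
  have hX := F.hX j
  have hΓ := F.hGa j
  have hJ : IsJ Real.pi (F.X j) (13 * F.u) (F.J j) :=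
    ⟨(F.hJ j).py, (F.hJ j).pos, fun q h0 h1 => (F.hJ j).eq q h0 (by linarith)⟩
  refine EqX_of_modes (F.G j) (F.sd_cont j hU.cv hA) fun n f hf hc Φ hΦ s t hs hst ht => ?_
  have hω : Real.pi / Real.pi = (F.G j).ω := (F.G j).hω.symm
  have hΦ' : ∀ z ∈ Icc (0:ℝ) Real.pi,
      ex Φ z = -deriv f z + ((|Real.pi / Real.pi * n| : ℝ) : ℂ) * f z := fun z hz => by rw [hω]; exact hΦ z hz
  have hf₀ : ∀ z ∈ Icc (0:ℝ) Real.pi,
      ex (⟨fun z : Icc (0:ℝ) Real.pi => f z, hf.continuous.comp continuous_subtype_val⟩ : CI Real.pi) z = f z :=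
    fun z hz => by
      show f ((projIcc 0 Real.pi Real.pi_pos.le z : Icc (0:ℝ) Real.pi) : ℝ) = f z
      rw [projIcc_of_mem Real.pi_pos.le hz]
  obtain ⟨hpc, -, -, m0, mz', my, ml⟩ := mode_fHc hf hc hΦ' hf₀ (ctf_smooth a1 a2)
    ((ctf_smooth a1 a2).continuous_deriv (by simp)) ((ctf_smooth1 a1 a2).continuous_deriv (by simp))
  rw [hω] at m0 mz' my ml
  set φ : HP := lp.single 2 n (iota Φ : Z2 Real.pi) with hφd
  obtain ⟨ε, hε, hfε⟩ := hc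
  set θ : ℝ × ℝ → ℂ := fun q => (ctf a1 a2 q.2 : ℂ) * mth Real.pi n f q with hθd
  have hθ : TfS Real.pi ε a2 θ := by
    refine ⟨hpc, fun y z hz => ?_, fun y z hz => ?_⟩
    · have h1 : mth Real.pi n f (y, z) = 0 := by
        unfold mth
        have h2 : (∫ s in (0:ℝ)..z, ((Real.exp (-(|Real.pi / Real.pi * n| * (z - s))) : ℝ) : ℂ) * f s) = 0 := by
          rw [intervalIntegral.integral_congr (g := fun _ => (0:ℂ)) (fun x hx => ?_)]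
          · simp
          · have h3 : x < ε := by
              have h4 := hx.2
              exact lt_of_le_of_lt h4 (max_lt hε hz)
            show _ * f x = 0
            rw [hfε x (Or.inl h3), mul_zero]
        rw [h2, zero_mul]
      show _ * mth Real.pi n f (y, z) = 0
      rw [h1, mul_zero]
    · show ((ctf a1 a2 z : ℝ) : ℂ) * _ = 0
      rw [ctf_zero h12 hz.le, Complex.ofReal_zero, zero_mul]
  have e2c : a2 < 16 * F.u := by rw [ha2]; linarith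
  have e2e : a2 ≤ 13 * F.u := by rw [ha2]; linarith
  have e13 : (13:ℝ) * F.u < 14 * F.u := by linarith
  have e14 : (14:ℝ) * F.u < 16 * F.u := by linarith
  have e0 : 0 < (13:ℝ) * F.u := by linarith
  have hφ : ∀ k, k ≠ n → φ k = 0 := fun k hk => lp.single_apply_ne 2 n _ hk
  have hcc : Cc (psh Real.pi (16 * F.u) (F.X j) θ) := Adm.cc (pshA hX hθ hε e2c)
  have heq := hU.eq (pshA hX hθ hε e2c) s t hs hst ht
  have hL : ∀ r : ℝ, ⟪gpX D (pshA hX hθ hε e2c), iot D (v r)⟫_ℂ =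
      (2 * Real.pi : ℂ) * ⟪SC.TT (F.G j).ω φ, SC.TT (F.G j).ω ((F.sd m A v j).x r)⟫_ℂ := by
    intro r
    show ⟪gp (psh Real.pi (16 * F.u) (F.X j) θ), ((iot D (v r) : XD D) : Y2)⟫_ℂ = _
    rw [inner_iot_gp hb (v r) hcc, hΓ.pair hX e13 e14 hθ hε e2e (v r), m0,
      inner_Ms, fex_star, ← Geo.inner_TT']
    rfl
  have hR : ∀ r : ℝ, (-⟪cu (pshA hX hθ hε e2c), vt (F.c0 m) F.β A v mu r⟫_ℂ +
      PD.NL (jj D (v r)) (vt (F.c0 m) F.β A v mu r) (jj D (cuV D (pshA hX hθ hε e2c))) -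
        lam * ⟪cl2 (fun x => F.d x * (pshA hX hθ hε e2c : ℂ → ℂ) x), vt (F.c0 m) F.β A v mu r⟫_ℂ +
        (mu' r : ℂ) * ⟪cl2 (pshA hX hθ hε e2c), cl2 F.β⟫_ℂ +
        (A' r : ℂ) * ⟪cl2 (pshA hX hθ hε e2c), cl2 (F.c0 m)⟫_ℂ) =
      (2 * Real.pi : ℂ) * rX (F.G j) (F.sd m A v j) r φ := by
    intro r
    obtain ⟨z1, z2, z3, z4, z5, z6, z7⟩ := F.psh_c0 hm j hθ hε e2c (v r) (vt (F.c0 m) F.β A v mu r)
    have hvt : vt (F.c0 m) F.β A v mu r =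
      (v r : L2c) - (A r : ℂ) • cl2 (F.c0 m) - (mu r : ℂ) • cl2 F.β := rfl
    have a3 : ⟪cu (psh Real.pi (16 * F.u) (F.X j) θ), vt (F.c0 m) F.β A v mu r⟫_ℂ =
        ⟪cu (psh Real.pi (16 * F.u) (F.X j) θ), (v r : L2c)⟫_ℂ := by
      rw [hvt, inner_sub_right, inner_sub_right, inner_smul_right, inner_smul_right, z3, z4]; ring
    have a4 : PD.NL (jj D (v r)) (vt (F.c0 m) F.β A v mu r) (jj D (cuV D (pshA hX hθ hε e2c))) =
        PD.NL (jj D (v r)) (v r : L2c) (jj D (cuV D (pshA hX hθ hε e2c))) := by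
      have b1 : PD.NL (jj D (v r)) (vt (F.c0 m) F.β A v mu r) =
          PD.NL (jj D (v r)) (v r : L2c) - (A r : ℂ) • PD.NL (jj D (v r)) (cl2 (F.c0 m)) -
            (mu r : ℂ) • PD.NL (jj D (v r)) (cl2 F.β) := by
        rw [hvt, map_sub, map_sub, map_smul, map_smul]
      rw [b1]
      show PD.NL (jj D (v r)) (v r : L2c) (jj D (cuV D (pshA hX hθ hε e2c))) -
        (A r : ℂ) * PD.NL (jj D (v r)) (cl2 (F.c0 m)) (jj D (cuV D (pshA hX hθ hε e2c))) -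
        (mu r : ℂ) * PD.NL (jj D (v r)) (cl2 F.β) (jj D (cuV D (pshA hX hθ hε e2c))) = _
      rw [z6, z7]; ring
    rw [pshA_coe, a3, a4, z1, z2, z5, hΓ.pair_cu hX hJ e13 e14 hθ hε e2e (v r),
      hΓ.NL hX hO hb hJ e0 e13 e14 hθ hε e2e (v r) (v r), ← F.G_a j, hω, mz', my, ml,
      ← fex_key (F.G j) (fex_star _ _) (fex_star _ _) (fex_star _ _) hφ (F.Ga j (v r)) (F.sd m A v j) r rfl rfl rfl rfl]
    ring
  rw [hL, hL] at heq
  rw [intervalIntegral.integral_congr (fun r _ => hR r), intervalIntegral.integral_const_mul, ← mul_sub] at heq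
  have hpi : (2 * Real.pi : ℂ) ≠ 0 := by
    have := Real.pi_ne_zero
    simp [this]
  exact mul_left_cancel₀ hpi heq

end FD

end Pool.Agent.Lib.MP_79abb3_an.PD
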