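import Pool.Agent.Lib.MP_79abb3_an.PD.FgDef
import Pool.Agent.Lib.MP_79abb3_an.PD.FeO
import Pool.Agent.Lib.MP_79abb3_an.PD.FbU
import Pool.Agent.Lib.MP_79abb3_an.PD.FdB3

/-!
Theorem D, block F, bounds (6.1): `|h_j| ≤ C (|o| + |w|)`.
-/

set_option autoImplicit false
set_option linter.unusedSectionVars false

open MeasureTheory Set Filter Topology Function
open scoped ENNReal InnerProductSpace ComplexConjugate

namespace Pool.Agent.Lib.MP_79abb3_an.PD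

open Pool.Agent.Lib.MP_79abb3_an.SC Pool.Agent.Lib.MP_79abb3_an.P25

/-! ### auxiliary facts -/

private theorem fga_s2 (a b : ℝ) : ContDiff ℝ ((⊤ : ℕ∞) : WithTop ℕ∞) (deriv (deriv (ctf a b))) :=
  (contDiff_infty_iff_deriv.1 (ctf_smooth1 a b)).2

private theorem fga_up {a b z : ℝ} (h : a < b) (hz : b < z) : deriv (ctf a b) z = 0 ∧
    deriv (deriv (ctf a b)) z = 0 := by
  have h0 : ctf a b =ᶠ[𝓝 z] fun _ => (0:ℝ) := by
    filter_upwards [Ioi_mem_nhds hz] with x hx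
    exact ctf_zero h (le_of_lt hx)
  have h1 : deriv (ctf a b) =ᶠ[𝓝 z] fun _ => (0:ℝ) := by
    have k := h0.deriv
    rw [deriv_const'] at k
    exact k
  have h2 : deriv (deriv (ctf a b)) =ᶠ[𝓝 z] fun _ => (0:ℝ) := by
    have k := h1.deriv
    rw [deriv_const'] at k
    exact k
  exact ⟨h1.self_of_nhds, h2.self_of_nhds⟩

private theorem fga_lo {a b z : ℝ} (h : a < b) (hz : z < a) : deriv (ctf a b) z = 0 ∧
    deriv (deriv (ctf a b)) z = 0 := by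
  have h0 : ctf a b =ᶠ[𝓝 z] fun _ => (1:ℝ) := by
    filter_upwards [Iio_mem_nhds hz] with x hx
    exact ctf_one h (le_of_lt hx)
  have h1 : deriv (ctf a b) =ᶠ[𝓝 z] fun _ => (0:ℝ) := by
    have k := h0.deriv
    rw [deriv_const'] at k
    exact k
  have h2 : deriv (deriv (ctf a b)) =ᶠ[𝓝 z] fun _ => (0:ℝ) := by
    have k := h1.deriv
    rw [deriv_const'] at k
    exact k
  exact ⟨h1.self_of_nhds, h2.self_of_nhds⟩

private theorem fga_Ms1 {a b : ℝ} {θ : ℝ × ℝ → ℂ} (h : PC Real.pi θ) :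
    (Ms (ctC1 a b) (fHc θ) : HP) = fHc fun q => ((deriv (ctf a b) q.2 : ℝ) : ℂ) * θ q :=
  Ms_fHc (ctf_smooth1 a b) h

private theorem fga_Ms2 {a b : ℝ} {θ : ℝ × ℝ → ℂ} (h : PC Real.pi θ) :
    (Ms (ctC2 a b) (fHc θ) : HP) = fHc fun q => ((deriv (deriv (ctf a b)) q.2 : ℝ) : ℂ) * θ q :=
  Ms_fHc (fga_s2 a b) h

private theorem fga_Yz {θ : ℝ × ℝ → ℂ} (h : PC Real.pi θ) (h0 : ∀ y, θ (y, 0) = 0) :
    (Yz (Real.pi / Real.pi) (bHc θ) : HP) = fHc (dZc θ) := by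
  refine lp.ext (funext fun n => ?_)
  rw [Yz_apply]
  unfold tZ
  have e1 : E2 (Real.pi / Real.pi * n) ((bHc θ : HP) n) = (fHc θ : HP) n := by
    rw [← EE_apply, EE_bHc h h0]
  have e2 : ((bHc θ : HP) n : Z2 Real.pi) = ka (Real.pi / Real.pi) n • (fHc θ : HP) n +
      (fHc (dZc θ) : HP) n := by
    rw [bHc_apply h, fHc_apply h, fHc_apply h.zz, map_add, map_smul]
  rw [e1, e2]
  abel

private theorem fga_dzsub (θ : ℝ × ℝ → ℂ) (a : ℂ) : dZc (fun q => θ q - a) = dZc θ := by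
  funext q
  show fderiv ℝ (fun q => θ q - a) q (0, 1) = _
  rw [fderiv_sub_const]
  rfl

private theorem fga_dysub (θ : ℝ × ℝ → ℂ) (a : ℂ) : dYc (fun q => θ q - a) = dYc θ := by
  funext q
  show fderiv ℝ (fun q => θ q - a) q (1, 0) = _
  rw [fderiv_sub_const]
  rfl

private theorem fga_dlsub (θ : ℝ × ℝ → ℂ) (a : ℂ) : dLc (fun q => θ q - a) = dLc θ := by
  funext q
  unfold dLc
  rw [fga_dysub, fga_dzsub]

private theorem fga_zz {X : ℝ × ℝ → ℂ} {e e' : ℝ} {ψ : ℂ → ℂ} (hp : PC Real.pi fun q => ψ (X q)) (q : ℝ × ℝ) :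
    dZc (gaF X e e' ψ) q = ((deriv (ctf e e') q.2 : ℝ) : ℂ) * (ψ (X q) - ψ (X (0, 0))) +
      ((ctf e e' q.2 : ℝ) : ℂ) * dZc (fun q => ψ (X q)) q := by
  have k := PC.zz_mul_z (ctf_smooth e e') (hp.sub (PC.const Real.pi (ψ (X (0, 0))))) q
  rw [fga_dzsub] at k
  exact k

private theorem fga_ll {X : ℝ × ℝ → ℂ} {e e' : ℝ} {ψ : ℂ → ℂ} (hp : PC Real.pi fun q => ψ (X q)) (q : ℝ × ℝ) :
    dLc (gaF X e e' ψ) q = ((ctf e e' q.2 : ℝ) : ℂ) * dLc (fun q => ψ (X q)) q -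
      2 * ((deriv (ctf e e') q.2 : ℝ) : ℂ) * dZc (fun q => ψ (X q)) q -
      ((deriv (deriv (ctf e e')) q.2 : ℝ) : ℂ) * (ψ (X q) - ψ (X (0, 0))) := by
  have k := PC.ll_mul_z (ctf_smooth e e') (hp.sub (PC.const Real.pi (ψ (X (0, 0))))) q
  rw [fga_dlsub, fga_dzsub] at k
  exact k

/-- the function of `exists_Rz` -/
private noncomputable def fga_R (X : ℝ × ℝ → ℂ) (u : ℝ) (ψ : ℂ → ℂ) (q : ℝ × ℝ) : ℂ :=
  2 * ((deriv (ctf (13 * u) (14 * u)) q.2 : ℝ) : ℂ) * dZc (fun q => ψ (X q)) q +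
    ((deriv (deriv (ctf (13 * u) (14 * u))) q.2 : ℝ) : ℂ) * (ψ (X q) - ψ (X (0, 0)))

private theorem fga_Rpc {X : ℝ × ℝ → ℂ} (u : ℝ) {ψ : ℂ → ℂ} (hp : PC Real.pi fun q => ψ (X q)) :
    PC Real.pi (fga_R X u ψ) := by
  have h1 : PC Real.pi fun q => ((deriv (ctf (13 * u) (14 * u)) q.2 : ℝ) : ℂ) * dZc (fun q => ψ (X q)) q :=
    PC.mulR (PY.of_z Real.pi (ctf_smooth1 _ _)) hp.zz
  have h2 : PC Real.pi fun q => ((deriv (deriv (ctf (13 * u) (14 * u))) q.2 : ℝ) : ℂ) * (ψ (X q) - ψ (X (0, 0))) :=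
    PC.mulR (PY.of_z Real.pi (fga_s2 _ _)) (hp.sub (PC.const Real.pi (ψ (X (0, 0)))))
  have e : fga_R X u ψ = fun q => 2 * (((deriv (ctf (13 * u) (14 * u)) q.2 : ℝ) : ℂ) *
      dZc (fun q => ψ (X q)) q) + ((deriv (deriv (ctf (13 * u) (14 * u))) q.2 : ℝ) : ℂ) *
        (ψ (X q) - ψ (X (0, 0))) := by
    funext q
    unfold fga_R
    ring
  rw [e]
  exact (h1.cmul 2).add h2

namespace FD
variable {D : Set ℂ} (F : FD D)

private theorem fga_J (j : Fin F.n) {e : ℝ} (h : e ≤ 15 * F.u) : IsJ Real.pi (F.X j) e (F.J j) :=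
  ⟨(F.hJ j).py, (F.hJ j).pos, fun q h0 h1 => (F.hJ j).eq q h0 (h1.trans h)⟩

/-- The commutator with `ζ⁺`: `Rz (gpX ψ) = 2 ζ⁺' ∂_z ψ_s + ζ⁺'' (ψ_s - c)` (`extendOfNorm`, `strip_bd`). -/
theorem exists_Rz (j : Fin F.n) : ∃ R : XD D →L[ℂ] HP, ∀ ψ : Adm D, R (gpX D ψ) =
    fHc fun q => 2 * ((deriv (ctf (13 * F.u) (14 * F.u)) q.2 : ℝ) : ℂ) *
      dZc (fun q => (ψ : ℂ → ℂ) (F.X j q)) q +
      ((deriv (deriv (ctf (13 * F.u) (14 * F.u))) q.2 : ℝ) : ℂ) *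
        ((ψ : ℂ → ℂ) (F.X j q) - (ψ : ℂ → ℂ) (F.X j (0, 0))) := by
  have hu := F.u0
  have h1 : 29 / 2 * F.u < 15 * F.u := by linarith
  obtain ⟨L, hL⟩ := exists_La (F.hX j) F.hD.op (e := 29 / 2 * F.u) (e' := 15 * F.u) (by linarith) h1 (by linarith)
  refine ⟨(2 : ℂ) • ((Ms (ctC1 (13 * F.u) (14 * F.u))).comp ((Yz (Real.pi / Real.pi)).comp L)) +
    (Ms (ctC2 (13 * F.u) (14 * F.u))).comp ((SC.EE (Real.pi / Real.pi)).comp L), fun ψ => ?_⟩
  have hp : PC Real.pi fun q => (ψ : ℂ → ℂ) (F.X j q) := (F.hX j).pc (Adm.cc ψ).smo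
  have hg : PC Real.pi (gaF (F.X j) (29 / 2 * F.u) (15 * F.u) (ψ : ℂ → ℂ)) := gaF_pc (F.hX j) h1 (Adm.cc ψ).smo
  have hg0 : ∀ y, gaF (F.X j) (29 / 2 * F.u) (15 * F.u) (ψ : ℂ → ℂ) (y, 0) = 0 := fun y => by
    obtain ⟨ε, h2, h3⟩ := gaF_con (F.hX j) F.hD.op (e := 29 / 2 * F.u) (e' := 15 * F.u) (by linarith) h1 ψ
    exact h3 y 0 le_rfl h2
  have e1 : PC Real.pi fun q => ((deriv (ctf (13 * F.u) (14 * F.u)) q.2 : ℝ) : ℂ) *
      dZc (gaF (F.X j) (29 / 2 * F.u) (15 * F.u) (ψ : ℂ → ℂ)) q :=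
    PC.mulR (PY.of_z Real.pi (ctf_smooth1 _ _)) hg.zz
  have e2 : PC Real.pi fun q => ((deriv (deriv (ctf (13 * F.u) (14 * F.u))) q.2 : ℝ) : ℂ) *
      gaF (F.X j) (29 / 2 * F.u) (15 * F.u) (ψ : ℂ → ℂ) q :=
    PC.mulR (PY.of_z Real.pi (fga_s2 _ _)) hg
  show (2 : ℂ) • Ms (ctC1 (13 * F.u) (14 * F.u)) (Yz (Real.pi / Real.pi) (L (gpX D ψ))) +
    Ms (ctC2 (13 * F.u) (14 * F.u)) (SC.EE (Real.pi / Real.pi) (L (gpX D ψ))) = _
  rw [hL.eq, fga_Yz hg hg0, EE_bHc hg hg0, fga_Ms1 hg.zz, fga_Ms2 hg, ← fHc_smul 2 e1,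
    ← fHc_add (e1.cmul 2) e2]
  refine fHc_congr ((e1.cmul 2).add e2) (fga_Rpc F.u hp) fun q _ => ?_
  by_cases hq : q.2 < 29 / 2 * F.u
  · rw [fga_zz hp, (fga_lo h1 hq).1, ctf_one h1 hq.le]
    unfold gaF
    rw [ctf_one h1 hq.le]
    push_cast
    ring
  · have h2 : 13 * F.u < 14 * F.u := by linarith
    have h3 := fga_up h2 (z := q.2) (by linarith)
    rw [h3.1, h3.2]
    push_cast
    ring

noncomputable def Rz (j : Fin F.n) : XD D →L[ℂ] HP := (F.exists_Rz j).choose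

theorem Rz_gp (j : Fin F.n) (ψ : Adm D) : F.Rz j (gpX D ψ) =
    fHc fun q => 2 * ((deriv (ctf (13 * F.u) (14 * F.u)) q.2 : ℝ) : ℂ) *
      dZc (fun q => (ψ : ℂ → ℂ) (F.X j q)) q +
      ((deriv (deriv (ctf (13 * F.u) (14 * F.u))) q.2 : ℝ) : ℂ) *
        ((ψ : ℂ → ℂ) (F.X j q) - (ψ : ℂ → ℂ) (F.X j (0, 0))) := (F.exists_Rz j).choose_spec ψ

/-- `Ga v = Bz v - Rz (iot v)` (`ll_mul_z`, `dLc_comp`, density). -/
theorem Ga_Rz (j : Fin F.n) (v : VD D) : F.Ga j v = F.Bz j (v : L2c) - F.Rz j (iot D v) := by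
  have hu := F.u0
  have h2 : 13 * F.u < 14 * F.u := by linarith
  have hcl : IsClosed {v : VD D | F.Ga j v = F.Bz j (v : L2c) - F.Rz j (iot D v)} :=
    isClosed_eq (F.Ga j).continuous (((F.Bz j).continuous.comp continuous_subtype_val).sub
      ((F.Rz j).continuous.comp (iot D).continuous))
  refine isClosed_property (cuV_dense D) hcl (fun ψ => ?_) v
  show F.Ga j (cuV D ψ) = F.Bz j ((cuV D ψ : VD D) : L2c) - F.Rz j (iot D (cuV D ψ))
  have hψ := Adm.cc ψ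
  have hp : PC Real.pi fun q => (ψ : ℂ → ℂ) (F.X j q) := (F.hX j).pc hψ.smo
  have hJ := F.hJ j
  have hw : PC Real.pi fun q : ℝ × ℝ => ((ctf (13 * F.u) (14 * F.u) q.2 * F.J j q : ℝ) : ℂ) *
      lap (ψ : ℂ → ℂ) (F.X j q) :=
    PC.mulR ((PY.of_z Real.pi (ctf_smooth _ _)).mul hJ.py) ((F.hX j).pc hψ.lap.smo)
  have hRz : F.Rz j (gpX D ψ) = fHc (fga_R (F.X j) F.u (ψ : ℂ → ℂ)) := F.Rz_gp j ψ
  rw [(F.hGa j).eq, iot_cuV F.hD.bdd, hRz, cuV_coe]
  unfold cu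
  rw [map_neg, (F.hBz j).eq _ hψ.lap, ← neg_one_smul ℂ, ← fHc_smul (-1) hw,
    ← fHc_sub (hw.cmul (-1)) (fga_Rpc F.u hp)]
  refine fHc_congr (gaF_pc (F.hX j) h2 hψ.smo).ll ((hw.cmul (-1)).sub (fga_Rpc F.u hp)) fun q hq => ?_
  rw [fga_ll hp]
  unfold fga_R
  by_cases hq2 : q.2 < 14 * F.u
  · rw [(F.hX j).dLc_comp hψ.smo hq.2.1 (by linarith), hJ.eq q hq.2.1 (by linarith)]
    push_cast
    ring
  · rw [ctf_zero h2 (not_lt.1 hq2)]
    push_cast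
    ring

/-- the stream function of the cell flow is a smooth periodic function -/
private theorem fga_cs {m : ℕ} (hm : 1 ≤ m) (j : Fin F.n) : PC Real.pi fun q => ((F.cs m j q : ℝ) : ℂ) :=
  (F.P0_str hm j).pc

/-- it is harmonic -/
private theorem fga_harm (m : ℕ) (j : Fin F.n) (q : ℝ × ℝ) : dLc (fun q => ((F.cs m j q : ℝ) : ℂ)) q = 0 := by
  have hs1 : ∀ a y : ℝ, HasDerivAt (fun y : ℝ => Real.sin (a * y)) (a * Real.cos (a * y)) y := fun a y => by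
    have := (Real.hasDerivAt_sin (a * y)).comp y ((hasDerivAt_id y).const_mul a)
    refine this.congr_deriv ?_
    ring
  have hs2 : ∀ a y : ℝ, HasDerivAt (fun y : ℝ => a * Real.cos (a * y)) (-(a ^ 2 * Real.sin (a * y))) y := fun a y => by
    have := ((Real.hasDerivAt_cos (a * y)).comp y ((hasDerivAt_id y).const_mul a)).const_mul a
    refine this.congr_deriv ?_
    ring
  have hh1 : ∀ a b z : ℝ, HasDerivAt (fun z : ℝ => -(Real.sinh (a * z) / b)) (-(a * Real.cosh (a * z) / b)) z :=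
    fun a b z => by
      have := (((Real.hasDerivAt_sinh (a * z)).comp z ((hasDerivAt_id z).const_mul a)).div_const b).neg
      refine this.congr_deriv ?_
      ring
  have hh2 : ∀ a b z : ℝ, HasDerivAt (fun z : ℝ => -(a * Real.cosh (a * z) / b)) (-(a ^ 2 * Real.sinh (a * z) / b)) z :=
    fun a b z => by
      have := ((((Real.hasDerivAt_cosh (a * z)).comp z ((hasDerivAt_id z).const_mul a)).const_mul a).div_const b).neg
      refine this.congr_deriv ?_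
      ring
  have e0 : (fun q : ℝ × ℝ => ((F.cs m j q : ℝ) : ℂ)) = fun q : ℝ × ℝ =>
      (((-(Real.sinh (m * F.k j * q.2) / m)) * Real.sin (m * F.k j * q.1) : ℝ) : ℂ) := by
    funext q
    unfold cs
    congr 1
    ring
  have f1 : deriv (fun y : ℝ => Real.sin (m * F.k j * y)) = fun y => m * F.k j * Real.cos (m * F.k j * y) :=
    funext fun y => (hs1 _ y).deriv
  have f2 : deriv (fun y : ℝ => m * F.k j * Real.cos (m * F.k j * y)) = fun y =>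
      -((m * F.k j : ℝ) ^ 2 * Real.sin (m * F.k j * y)) := funext fun y => (hs2 _ y).deriv
  have g1 : deriv (fun z : ℝ => -(Real.sinh (m * F.k j * z) / m)) = fun z =>
      -(m * F.k j * Real.cosh (m * F.k j * z) / m) := funext fun z => (hh1 _ _ z).deriv
  have g2 : deriv (fun z : ℝ => -(m * F.k j * Real.cosh (m * F.k j * z) / m)) = fun z =>
      -((m * F.k j : ℝ) ^ 2 * Real.sinh (m * F.k j * z) / m) := funext fun z => (hh2 _ _ z).deriv
  have df : Differentiable ℝ fun y : ℝ => Real.sin (m * F.k j * y) := fun y => (hs1 _ y).differentiableAt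
  have df1 : Differentiable ℝ fun y : ℝ => m * F.k j * Real.cos (m * F.k j * y) := fun y => (hs2 _ y).differentiableAt
  have dg : Differentiable ℝ fun z : ℝ => -(Real.sinh (m * F.k j * z) / m) := fun z => (hh1 _ _ z).differentiableAt
  have dg1 : Differentiable ℝ fun z : ℝ => -(m * F.k j * Real.cosh (m * F.k j * z) / m) :=
    fun z => (hh2 _ _ z).differentiableAt
  unfold dLc
  rw [e0, fb3_dY (f := fun y => Real.sin (m * F.k j * y)) (g := fun z => -(Real.sinh (m * F.k j * z) / m)) df dg,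
    fb3_dZ (f := fun y => Real.sin (m * F.k j * y)) (g := fun z => -(Real.sinh (m * F.k j * z) / m)) df dg, f1, g1,
    fb3_dY (f := fun y => m * F.k j * Real.cos (m * F.k j * y)) (g := fun z => -(Real.sinh (m * F.k j * z) / m)) df1 dg,
    fb3_dZ (f := fun y => Real.sin (m * F.k j * y)) (g := fun z => -(m * F.k j * Real.cosh (m * F.k j * z) / m)) df dg1,
    f2, g2]
  push_cast
  ring

/-- `γ = -Rz (gPs m)` for large `m`: `cs` is harmonic, `Ψ ∘ X = cs` on the support of `ζ⁺'` (`z ≥ 13 u`, `k z ≥ 1/m`), `Ψ = 0` near the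
boundary. -/
theorem ga_Rz : ∃ m₀ : ℕ, 1 ≤ m₀ ∧ ∀ m : ℕ, m₀ ≤ m → ∀ j : Fin F.n, F.ga m j = -F.Rz j (F.gPs m) := by
  have hu := F.u0
  have h2 : 13 * F.u < 14 * F.u := by linarith
  refine ⟨⌈1 / (12 * F.u)⌉₊ + 1, by omega, fun m hm j => ?_⟩
  have hm1 : 1 ≤ m := by omega
  have hmu : 1 < (m : ℝ) * (12 * F.u) := by
    have h1 : (1 / (12 * F.u) : ℝ) ≤ ⌈1 / (12 * F.u)⌉₊ := Nat.le_ceil _
    have h3 : ((⌈1 / (12 * F.u)⌉₊ + 1 : ℕ) : ℝ) ≤ m := by exact_mod_cast hm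
    push_cast at h3
    have h4 : 1 / (12 * F.u) < m := by linarith
    rwa [div_lt_iff₀ (by linarith)] at h4
  have hk : (1 : ℝ) ≤ F.k j := by exact_mod_cast F.fl.kpos j
  have hm0 : (0 : ℝ) < m := by exact_mod_cast hm1
  have hc := F.fga_cs hm1 j
  have hψ := (F.Ps_mem hm1).2.1.1
  have hp : PC Real.pi fun q => F.Ps m (F.X j q) := (F.hX j).pc hψ.smo
  -- `Ψ ∘ X = cs`
  have hev : ∀ q : ℝ × ℝ, 12 * F.u < q.2 → q.2 < 16 * F.u → F.Ps m (F.X j q) = ((F.cs m j q : ℝ) : ℂ) := by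
    intro q h3 h4
    have h5 : (1 : ℝ) < m * (F.k j * q.2) := by
      have h6 : 12 * F.u ≤ F.k j * q.2 := by nlinarith
      have h7 := mul_le_mul_of_nonneg_left h6 hm0.le
      linarith
    unfold Ps
    rw [F.χ1 _ (F.h3.le.trans (F.X_away j (by linarith) h4).le), F.h_X j (by linarith) h4,
      (F.Fm_X hm1 j (by linarith) h4).1, Real.smoothTransition.one_of_one_le (by linarith), one_mul, one_mul]
  have h00 : F.Ps m (F.X j (0, 0)) = 0 := by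
    have h3 : F.X j (0, 0) ∉ D := by
      intro h
      have h4 := (F.hX j).bdry 0
      have h5 : F.X j (0, 0) ∈ D ∩ frontier D := ⟨h, h4⟩
      rw [F.hD.op.inter_frontier_eq] at h5
      exact h5
    exact image_eq_zero_of_notMem_tsupport fun h => h3 ((F.Ps_mem hm1).1.2 h)
  rw [F.gPs_eq hm1, F.Rz_gp]
  have hR : PC Real.pi (fga_R (F.X j) F.u (F.Ps m)) := fga_Rpc F.u hp
  have e1 : -(fHc (fga_R (F.X j) F.u (F.Ps m)) : HP) = fHc fun q => (-1) * fga_R (F.X j) F.u (F.Ps m) q := by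
    rw [fHc_smul (-1) hR, neg_one_smul]
  refine Eq.trans ?_ e1.symm
  have hg : PC Real.pi (F.gaf m j) := by
    have e : F.gaf m j = fun q : ℝ × ℝ => ((ctf (13 * F.u) (14 * F.u) q.2 : ℝ) : ℂ) * ((F.cs m j q : ℝ) : ℂ) := by
      funext q
      unfold gaf
      push_cast
      ring
    rw [e]
    exact PC.mulR (PY.of_z Real.pi (ctf_smooth _ _)) hc
  refine fHc_congr hg.ll (hR.cmul (-1)) fun q hq => ?_
  have e : F.gaf m j = fun q : ℝ × ℝ => ((ctf (13 * F.u) (14 * F.u) q.2 : ℝ) : ℂ) * ((F.cs m j q : ℝ) : ℂ) := by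
    funext q
    unfold gaf
    push_cast
    ring
  rw [e, PC.ll_mul_z (ctf_smooth _ _) hc q, F.fga_harm m j q]
  unfold fga_R
  by_cases h3 : 12 * F.u < q.2 ∧ q.2 < 16 * F.u
  · have h4 : (fun q => F.Ps m (F.X j q)) =ᶠ[𝓝 q] fun q => ((F.cs m j q : ℝ) : ℂ) := by
      have ho : IsOpen {p : ℝ × ℝ | 12 * F.u < p.2 ∧ p.2 < 16 * F.u} :=
        (isOpen_lt continuous_const continuous_snd).inter (isOpen_lt continuous_snd continuous_const)
      filter_upwards [ho.mem_nhds h3] with p hp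
      exact hev p hp.1 hp.2
    have h5 : dZc (fun q => F.Ps m (F.X j q)) q = dZc (fun q => ((F.cs m j q : ℝ) : ℂ)) q := by
      unfold dZc
      rw [h4.fderiv_eq]
    rw [h5, hev q h3.1 h3.2, h00]
    ring
  · have h4 : deriv (ctf (13 * F.u) (14 * F.u)) q.2 = 0 ∧ deriv (deriv (ctf (13 * F.u) (14 * F.u))) q.2 = 0 := by
      by_cases h5 : q.2 < 13 * F.u
      · exact fga_lo h2 h5
      · refine fga_up h2 ?_
        by_contra h6
        exact h3 ⟨by linarith, by linarith⟩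
    rw [h4.1, h4.2]
    push_cast
    ring

/-- `h^tot = Bz v - Rz w`. -/
theorem ht_Rz : ∃ m₀ : ℕ, 1 ≤ m₀ ∧ ∀ m : ℕ, m₀ ≤ m → ∀ (j : Fin F.n) (a : ℝ) (v : VD D),
    F.ht m j a v = F.Bz j (v : L2c) - F.Rz j (F.ww m a v) := by
  obtain ⟨m₀, h0, h1⟩ := F.ga_Rz
  refine ⟨m₀, h0, fun m hm j a v => ?_⟩
  unfold ht ww
  rw [h1 m hm j, F.Ga_Rz j v, map_sub, map_smul, smul_neg]
  abel

private theorem fga_fHc0 {θ : ℝ × ℝ → ℂ} (h : PC Real.pi θ) (h0 : ∀ q ∈ Cel Real.pi, θ q = 0) :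
    (fHc θ : HP) = 0 := by
  rw [fHc_congr h (h.cmul 0) fun q hq => by rw [h0 q hq, mul_zero], fHc_smul 0 h, zero_smul]

private theorem fga_away (j : Fin F.n) {q : ℝ × ℝ} (h0 : 0 ≤ q.2) (h1 : q.2 < 16 * F.u) :
    F.t < dist (F.X j q) F.x := by
  rcases h0.lt_or_eq with h | h
  · exact F.X_away j h h1
  · by_contra hc
    rw [not_lt] at hc
    have h2 : F.X j (q.1, q.2) ∈ D := F.fl.ball (Metric.mem_closedBall.2 hc)
    rw [← h] at h2
    have h4 := (F.hX j).bdry q.1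
    have h5 : F.X j (q.1, 0) ∈ D ∩ frontier D := ⟨h2, h4⟩
    rw [F.hD.op.inter_frontier_eq] at h5
    exact h5

/-- functions which vanish in the strip -/
private theorem fga_B0 (j : Fin F.n) {f : ℂ → ℂ} (hf : Cc f)
    (h0 : ∀ q : ℝ × ℝ, 0 ≤ q.2 → q.2 < 14 * F.u → f (F.X j q) = 0) : F.Bz j (cl2 f) = 0 := by
  have hu := F.u0
  have h1 : 13 * F.u < 14 * F.u := by linarith
  rw [(F.hBz j).eq f hf]
  refine fga_fHc0 (PC.mulR ((PY.of_z Real.pi (ctf_smooth _ _)).mul (F.hJ j).py) ((F.hX j).pc hf.smo)) fun q hq => ?_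
  by_cases hz : q.2 < 14 * F.u
  · rw [h0 q hq.2.1 hz, mul_zero]
  · rw [ctf_zero h1 (not_lt.1 hz), zero_mul, Complex.ofReal_zero, zero_mul]

private theorem fga_Ms (x : HP) : Ms (ctC (13 * F.u) (14 * F.u)) (Ms (ctC (4 * F.u) (8 * F.u)) x) =
    Ms (ctC (4 * F.u) (8 * F.u)) x := by
  have hu := F.u0
  rw [Ms_Ms]
  congr 2
  refine ci_ext fun z hz => ?_
  unfold ctC
  rw [ex_mul, Pool.Agent.Lib.MP_79abb3_an.FW.ex_rc _ _ hz, Pool.Agent.Lib.MP_79abb3_an.FW.ex_rc _ _ hz]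
  by_cases hz' : z ≤ 13 * F.u
  · rw [ctf_one (by linarith) hz', Complex.ofReal_one, one_mul]
  · rw [ctf_zero (ρ := 4 * F.u) (by linarith) (by linarith : 8 * F.u ≤ z), Complex.ofReal_zero, mul_zero]

/-- `h_j = Bz o - Rz w`: `Bz o = Bz ṽ - η g` (`PB_adj`, `PB_dis`, `J a = 1`, `ζ⁺ η = η`), `Bz ṽ = Bz v` (the supports of `c₀`, `β` do
not meet the strips). -/
theorem hh_Rz : ∃ m₀ : ℕ, 1 ≤ m₀ ∧ ∀ m : ℕ, m₀ ≤ m → ∀ (A : ℝ → ℝ) (v : ℝ → VD D) (mu : ℝ → ℝ)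
    (p : Fin F.n → ℝ → HP) (j : Fin F.n) (t : ℝ),
    F.hh m A v p j t = F.Bz j (F.ov m A v mu p t) - F.Rz j (F.ww m (A t) (v t)) := by
  have hu := F.u0
  obtain ⟨m₀, h0, h1⟩ := F.ht_Rz
  refine ⟨m₀, h0, fun m hm A v mu p j t => ?_⟩
  have hm1 : 1 ≤ m := h0.trans hm
  have c1 : F.Bz j (cl2 (F.c0 m)) = 0 := F.fga_B0 j (F.c0_cc hm1).1.cc fun q hq1 hq2 =>
    (F.c0_cc hm1).2.1 _ (F.h3.le.trans (F.fga_away j hq1 (by linarith)).le)
  have c2 : F.Bz j (cl2 F.β) = 0 := F.fga_B0 j F.hβ.cc fun q hq1 hq2 =>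
    F.β0 _ ((F.h2.le.trans F.h3.le).trans (F.fga_away j hq1 (by linarith)).le)
  have e1 : F.Bz j (F.ov m A v mu p t) = F.Bz j ((v t : VD D) : L2c) -
      Ms (ctC (4 * F.u) (8 * F.u)) (F.gg m A v p j t) := by
    unfold FD.ov FD.oo vt
    rw [map_sub, map_sub, map_sub, map_smul, map_smul, c1, c2, smul_zero, smul_zero, sub_zero, sub_zero, map_sum]
    congr 1
    rw [Finset.sum_eq_single j]
    · rw [F.PB_adj j (by linarith) (by linarith) (le_refl _) (by linarith) (by linarith) (by linarith) (F.hBz j)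
        (F.hBe j), (F.G j).Ja, F.fga_Ms]
    · intro i _ hij
      rw [map_smul, F.PB_dis (Ne.symm hij) (by linarith) (by linarith) (le_refl _) (by linarith) (by linarith)
        (by linarith) (F.hBz j) (F.hBe i), smul_zero]
    · intro h
      exact absurd (Finset.mem_univ j) h
  unfold FD.hh
  rw [h1 m hm j (A t) (v t), e1]
  abel

/-- **6.1.** -/
theorem hh_bd : ∃ (m₀ : ℕ) (C : ℝ), 1 ≤ m₀ ∧ 0 ≤ C ∧ ∀ m : ℕ, m₀ ≤ m → ∀ (A : ℝ → ℝ) (v : ℝ → VD D) (mu : ℝ → ℝ)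
    (p : Fin F.n → ℝ → HP) (j : Fin F.n) (t : ℝ),
    ‖F.hh m A v p j t‖ ≤ C * (‖F.ov m A v mu p t‖ + ‖F.ww m (A t) (v t)‖) := by
  obtain ⟨m₀, h0, h1⟩ := F.hh_Rz
  refine ⟨m₀, ∑ j, (‖F.Bz j‖ + ‖F.Rz j‖), h0, Finset.sum_nonneg fun j _ => by positivity,
    fun m hm A v mu p j t => ?_⟩
  rw [h1 m hm A v mu p j t]
  have k1 := (F.Bz j).le_opNorm (F.ov m A v mu p t)
  have k2 := (F.Rz j).le_opNorm (F.ww m (A t) (v t))
  have k3 : ‖F.Bz j‖ + ‖F.Rz j‖ ≤ ∑ j, (‖F.Bz j‖ + ‖F.Rz j‖) :=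
    Finset.single_le_sum (f := fun j => ‖F.Bz j‖ + ‖F.Rz j‖) (fun i _ => by positivity) (Finset.mem_univ j)
  have k4 := norm_sub_le (F.Bz j (F.ov m A v mu p t)) (F.Rz j (F.ww m (A t) (v t)))
  obtain ⟨x, hx⟩ : ∃ x, x = ‖F.ov m A v mu p t‖ := ⟨_, rfl⟩
  obtain ⟨y, hy⟩ : ∃ y, y = ‖F.ww m (A t) (v t)‖ := ⟨_, rfl⟩
  have x0 : 0 ≤ x := hx ▸ norm_nonneg _
  have y0 : 0 ≤ y := hy ▸ norm_nonneg _
  rw [← hx] at k1
  rw [← hy] at k2
  rw [← hx, ← hy]
  have b0 := norm_nonneg (F.Bz j)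
  have r0 := norm_nonneg (F.Rz j)
  have k5 : (‖F.Bz j‖ + ‖F.Rz j‖) * (x + y) ≤ (∑ j, (‖F.Bz j‖ + ‖F.Rz j‖)) * (x + y) :=
    mul_le_mul_of_nonneg_right k3 (by linarith)
  refine k4.trans ?_
  have k6 : ‖F.Bz j‖ * x + ‖F.Rz j‖ * y ≤ (‖F.Bz j‖ + ‖F.Rz j‖) * (x + y) := by
    have a1 := mul_nonneg b0 y0
    have a2 := mul_nonneg r0 x0
    have a3 : (‖F.Bz j‖ + ‖F.Rz j‖) * (x + y) = ‖F.Bz j‖ * x + ‖F.Rz j‖ * y +
      (‖F.Bz j‖ * y + ‖F.Rz j‖ * x) := by ring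
    rw [a3]
    linarith
  linarith

/-- the potentials agree eventually -/
private theorem fga_ev {m : ℕ} {x : ℂ} (hx : x ∈ D) : ∃ b₀ : ℝ, ∀ b : ℝ, b₀ ≤ b →
    fb3_P F m b =ᶠ[𝓝 x] F.P0 m := by
  by_cases hd : dist x F.x < F.s1
  · refine ⟨0, fun b _ => ?_⟩
    have ho : IsOpen {y : ℂ | dist y F.x < F.s1} :=
      isOpen_lt (continuous_id.dist continuous_const) continuous_const
    filter_upwards [ho.mem_nhds hd] with z hz
    unfold fb3_P P0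
    rw [F.χ0 z (le_of_lt hz), zero_mul, zero_mul]
  · have h1 : 0 < F.h x := F.fl.pos x ⟨hx, fun h => by
      rw [Metric.mem_closedBall] at h
      exact hd (lt_of_le_of_lt h F.h1)⟩
    refine ⟨3 / F.h x, fun b hb => ?_⟩
    have h2 : 2 < b * F.h x := by
      rw [div_le_iff₀ h1] at hb
      linarith
    have ho : IsOpen {y : ℂ | 2 < b * F.h y} :=
      isOpen_lt continuous_const (continuous_const.mul F.fl.cont)
    filter_upwards [ho.mem_nhds h2] with z hz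
    have hz' : 2 < b * F.h z := hz
    unfold fb3_P P0
    rw [Real.smoothTransition.one_of_one_le (by linarith), mul_one]

/-- the integrand of the difference of the potentials -/
private noncomputable def fga_G (m : ℕ) (b : ℝ) (x : ℂ) : ℝ :=
  ‖PD.px (fb3_P F m b) x - PD.px (F.Ps m) x‖ ^ 2 + ‖PD.py (fb3_P F m b) x - PD.py (F.Ps m) x‖ ^ 2

private theorem fga_gp {m : ℕ} (hm : 1 ≤ m) (b : ℝ) :
    Continuous (fga_G F m b) ∧ Integrable (fga_G F m b) ∧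
      ∫ x, fga_G F m b x = ‖gp (fb3_P F m b) - gp (F.Ps m)‖ ^ 2 := by
  have hP := (fb3_cc F hm b).1
  have hP' : Cc (F.Ps m) := (F.Ps_mem hm).2.1.1
  have hfc : Cc fun x => fb3_P F m b x + (-1) * F.Ps m x := hP.add (hP'.cmul (-1))
  have hgp : gp (fb3_P F m b) - gp (F.Ps m) = gp fun x => fb3_P F m b x + (-1) * F.Ps m x := by
    rw [gp_add hP (hP'.cmul (-1)), gp_cmul (-1) hP', neg_one_smul, sub_eq_add_neg]
  have i1 : Integrable (fun x => ‖PD.px (fun x => fb3_P F m b x + (-1) * F.Ps m x) x‖ ^ 2) (volume : Measure ℂ) :=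
    (hfc.px.memLp 2).integrable_norm_pow (by norm_num)
  have i2 : Integrable (fun x => ‖PD.py (fun x => fb3_P F m b x + (-1) * F.Ps m x) x‖ ^ 2) (volume : Measure ℂ) :=
    (hfc.py.memLp 2).integrable_norm_pow (by norm_num)
  have e : fga_G F m b = fun x => ‖PD.px (fun x => fb3_P F m b x + (-1) * F.Ps m x) x‖ ^ 2 +
      ‖PD.py (fun x => fb3_P F m b x + (-1) * F.Ps m x) x‖ ^ 2 := by
    funext x
    unfold fga_G
    rw [px_add hP.smo (hP'.cmul (-1)).smo, py_add hP.smo (hP'.cmul (-1)).smo, px_cmul (-1) hP'.smo,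
      py_cmul (-1) hP'.smo, neg_one_mul, neg_one_mul, sub_eq_add_neg, sub_eq_add_neg]
  rw [hgp, norm_gp_sq hfc, hfc.px.norm_sq, hfc.py.norm_sq, ← integral_add i1 i2, e]
  exact ⟨(hfc.px.smo.continuous.norm.pow 2).add (hfc.py.smo.continuous.norm.pow 2), i1.add i2, rfl⟩

/-- `|w' - w| ≤ C |a|`: `χ ψ_m - Ψ = κ χ ψ_m` lives in the strips `k z ≤ 1/m`, where `|∇(κ ψ_m)| ≤ C` (`Fm_X`; `κ' ≤ C m`,
`|cs| ≤ C/m`, `|∇ cs| ≤ C`). -/
theorem wp_ww : ∃ (m₀ : ℕ) (C : ℝ), 1 ≤ m₀ ∧ 0 ≤ C ∧ ∀ m : ℕ, m₀ ≤ m → ∀ (a : ℝ) (v : VD D),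
    ‖F.wp m a v - ((F.ww m a v : XD D) : Y2)‖ ≤ C * |a| := by
  obtain ⟨C, m₀, hC, h0, hb⟩ := fb3_gp F
  refine ⟨m₀, C, h0, hC, fun m hm a v => ?_⟩
  have hm1 : 1 ≤ m := h0.trans hm
  have key : ‖gpI D (F.P0 m) - gp (F.Ps m)‖ ≤ C := by
    obtain ⟨B, _, hB⟩ := F.P0_bg hm1
    have hO := F.hD.op
    have hbd := F.hD.bdd
    have hP' : Cc (F.Ps m) := (F.Ps_mem hm1).2.1.1
    obtain ⟨G, hG⟩ : ∃ G : ℂ → ℝ, G = fun x => ‖D.indicator (PD.px (F.P0 m)) x - PD.px (F.Ps m) x‖ ^ 2 +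
      ‖D.indicator (PD.py (F.P0 m)) x - PD.py (F.Ps m) x‖ ^ 2 := ⟨_, rfl⟩
    -- pointwise convergence
    have hlim : ∀ x, Tendsto (fun n : ℕ => ENNReal.ofReal (fga_G F m (2 * m + n) x)) atTop
        (𝓝 (ENNReal.ofReal (G x))) := by
      intro x
      refine tendsto_const_nhds.congr' ?_
      by_cases hx : x ∈ D
      · obtain ⟨b₀, hb₀⟩ := fga_ev F (m := m) hx
        obtain ⟨N, hN⟩ := exists_nat_ge b₀
        filter_upwards [eventually_ge_atTop N] with n hn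
        have h1 : b₀ ≤ 2 * m + n := by
          have h2 : (N : ℝ) ≤ n := by exact_mod_cast hn
          have h3 : (0 : ℝ) ≤ 2 * m := by positivity
          linarith
        have h4 := (hb₀ _ h1).fderiv_eq (𝕜 := ℝ)
        rw [hG]
        unfold fga_G
        simp only [indicator_of_mem hx]
        have e1 : PD.px (fb3_P F m (2 * m + n)) x = PD.px (F.P0 m) x := by
          unfold PD.px
          rw [h4]
        have e2 : PD.py (fb3_P F m (2 * m + n)) x = PD.py (F.P0 m) x := by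
          unfold PD.py
          rw [h4]
        rw [e1, e2]
      · refine Eventually.of_forall fun n => ?_
        have h1 : x ∉ tsupport (fderiv ℝ (fb3_P F m (2 * m + n))) := fun h =>
          hx ((fb3_cc F hm1 _).2 (tsupport_fderiv_subset ℝ h))
        have h2 : fderiv ℝ (fb3_P F m (2 * m + n)) x = 0 := image_eq_zero_of_notMem_tsupport h1
        rw [hG]
        unfold fga_G
        simp only [indicator_of_notMem hx]
        have e1 : PD.px (fb3_P F m (2 * m + n)) x = 0 := by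
          unfold PD.px
          rw [h2]
          rfl
        have e2 : PD.py (fb3_P F m (2 * m + n)) x = 0 := by
          unfold PD.py
          rw [h2]
          rfl
        rw [e1, e2]
    have hG0 : ∀ x, 0 ≤ G x := fun x => by rw [hG]; positivity
    have hF : ∫⁻ x, ENNReal.ofReal (G x) ≤ ENNReal.ofReal (C ^ 2) := by
      have e1 : ∫⁻ x, ENNReal.ofReal (G x) = ∫⁻ x, liminf (fun n : ℕ => ENNReal.ofReal (fga_G F m (2 * m + n) x)) atTop :=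
        lintegral_congr fun x => ((hlim x).liminf_eq).symm
      rw [e1]
      refine (lintegral_liminf_le fun n => ?_).trans ?_
      · exact (fga_gp F hm1 _).1.measurable.ennreal_ofReal
      · refine (liminf_le_liminf (v := fun _ : ℕ => ENNReal.ofReal (C ^ 2)) ?_).trans (le_of_eq (by simp))
        refine Eventually.of_forall fun n => ?_
        obtain ⟨k1, k2, k3⟩ := fga_gp F hm1 (2 * m + n)
        rw [← ofReal_integral_eq_lintegral_ofReal k2 (Eventually.of_forall fun x => by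
          show 0 ≤ fga_G F m (2 * m + n) x
          unfold fga_G
          positivity), k3]
        refine ENNReal.ofReal_le_ofReal (pow_le_pow_left₀ (norm_nonneg _) (hb m hm _ ?_) 2)
        have h3 : (0 : ℝ) ≤ n := Nat.cast_nonneg n
        linarith
    -- the norm
    have m1 := hB.mem hO hbd 2
    have a1 : (((gpI D (F.P0 m) - gp (F.Ps m) : Y2)).fst : ℂ → ℂ) =ᵐ[volume]
        fun x => D.indicator (PD.py (F.P0 m)) x - PD.py (F.Ps m) x := by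
      show (((gpI D (F.P0 m)).fst - (gp (F.Ps m)).fst : L2c) : ℂ → ℂ) =ᵐ[volume] _
      filter_upwards [Lp.coeFn_sub (gpI D (F.P0 m)).fst (gp (F.Ps m)).fst, gpI_fst hB hO hbd,
        cl2_coe (hP'.py.memLp 2)] with x e1 e2 e3
      rw [e1, Pi.sub_apply, e2]
      congr 1
    have a2 : (((gpI D (F.P0 m) - gp (F.Ps m) : Y2)).snd : ℂ → ℂ) =ᵐ[volume]
        fun x => -(D.indicator (PD.px (F.P0 m)) x - PD.px (F.Ps m) x) := by
      show (((gpI D (F.P0 m)).snd - (gp (F.Ps m)).snd : L2c) : ℂ → ℂ) =ᵐ[volume] _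
      have e0 : ((gp (F.Ps m)).snd : ℂ → ℂ) =ᵐ[volume] fun x => -PD.px (F.Ps m) x := by
        show ((-cl2 (PD.px (F.Ps m)) : L2c) : ℂ → ℂ) =ᵐ[volume] _
        filter_upwards [Lp.coeFn_neg (cl2 (PD.px (F.Ps m))), cl2_coe (hP'.px.memLp 2)] with x h1 h2
        rw [h1, Pi.neg_apply, h2]
      filter_upwards [Lp.coeFn_sub (gpI D (F.P0 m)).snd (gp (F.Ps m)).snd, gpI_snd hB hO hbd, e0] with x e1 e2 e3
      rw [e1, Pi.sub_apply, e2, e3]
      ring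
    have n1 : ‖gpI D (F.P0 m) - gp (F.Ps m)‖ ^ 2 = ∫ x, G x := by
      rw [WithLp.prod_norm_sq_eq_of_L2, L2_norm_sq, L2_norm_sq, ← integral_add (L2_sq_int _) (L2_sq_int _)]
      refine integral_congr_ae ?_
      filter_upwards [a1, a2] with x e1 e2
      rw [e1, e2, norm_neg, hG, add_comm]
    have n2 : ∫ x, G x ≤ C ^ 2 := by
      by_cases hint : AEStronglyMeasurable G volume
      · rw [integral_eq_lintegral_of_nonneg_ae (Eventually.of_forall hG0) hint]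
        exact ENNReal.toReal_le_of_le_ofReal (sq_nonneg C) hF
      · rw [integral_non_aestronglyMeasurable hint]
        exact sq_nonneg C
    have n3 := abs_le_of_sq_le_sq (n1.le.trans n2) hC
    exact (le_abs_self _).trans (by simpa using n3)
  have e1 : F.wp m a v - ((F.ww m a v : XD D) : Y2) = (-(a : ℂ)) • (gpI D (F.P0 m) - gp (F.Ps m)) := by
    unfold wp ww
    show ((iot D v : XD D) : Y2) - (a : ℂ) • gpI D (F.P0 m) - (((iot D v : XD D) : Y2) -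
      (a : ℂ) • ((F.gPs m : XD D) : Y2)) = _
    rw [F.gPs_coe hm1, smul_sub, neg_smul, neg_smul]
    abel
  rw [e1, norm_smul, norm_neg, Complex.norm_real, Real.norm_eq_abs, mul_comm]
  exact mul_le_mul_of_nonneg_right key (abs_nonneg a)

end FD

end Pool.Agent.Lib.MP_79abb3_an.PD
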