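import Pool.Agent.Lib.MP_79abb3_an.PD.FgDef
import Pool.Agent.Lib.MP_79abb3_an.PD.CoC5
import Pool.Agent.Lib.MP_79abb3_an.PD.FeXb

/-!
Theorem D, block F, bounds (6.4): the equation of the circulation of `v` around a boundary component.
-/

set_option autoImplicit false
set_option linter.unusedSectionVars false

open MeasureTheory Set Filter Topology Function
open scoped ENNReal InnerProductSpace ComplexConjugate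

namespace Pool.Agent.Lib.MP_79abb3_an.PD

open Pool.Agent.Lib.MP_79abb3_an.SC Pool.Agent.Lib.MP_79abb3_an.P25

section
variable {D : Set ℂ}

/-- Divergence free fields with compact support in `D` have a stream function in `Adm D`:
`ψ(x + i y) = ∫_{-∞}^y f1(x + i s) ds`; it vanishes for large `y` because `d/dx ∫ f1(x + i s) ds = -∫ ∂_s f2 = 0`. -/
theorem exists_adm {f1 f2 : ℂ → ℂ} (h1 : Cc f1) (h2 : Cc f2) (s1 : tsupport f1 ⊆ D) (s2 : tsupport f2 ⊆ D)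
    (hd : ∀ x, px f1 x + py f2 x = 0) : ∃ ψ : Adm D, (∀ x, py (ψ : ℂ → ℂ) x = f1 x) ∧
      ∀ x, px (ψ : ℂ → ℂ) x = -f2 x := by
  sorry

variable {H c e e' : ℝ} [hH : Fact (0 < H)] {X : ℝ × ℝ → ℂ} {J : ℝ × ℝ → ℝ} {Γ : VD D →L[ℂ] HH H}

/-- `IsGa.pair_cu` and `IsGa.NL` for a stream function whose gradient lives in `e1 ≤ z ≤ e2` (same proofs; `θ` need not vanish
near `z = 0`). -/
theorem IsGa.grad_pair (hΓ : IsGa D X e e' Γ) (h : IsStrip D H c X) (hO : IsOpen D) (hD : Bornology.IsBounded D)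
    (hJ : IsJ H X e J) (he0 : 0 < e) (he : e < e') (he' : e' < c) {θ : ℝ × ℝ → ℂ} (hθ : PC H θ) {e1 e2 : ℝ} (h1 : 0 < e1)
    (h2 : e2 ≤ e) (hz : ∀ q : ℝ × ℝ, q.2 < e1 ∨ e2 < q.2 → dYc θ q = 0 ∧ dZc θ q = 0) (ψ : Adm D)
    (hψ : ∀ q : ℝ × ℝ, 0 < q.2 → q.2 < c → (ψ : ℂ → ℂ) (X q) = θ q)
    (hψ0 : ∀ x ∉ X '' {q | e1 ≤ q.2 ∧ q.2 ≤ e2}, px (ψ : ℂ → ℂ) x = 0 ∧ py (ψ : ℂ → ℂ) x = 0) (v v' : VD D) :
    ⟪cu ψ, (v' : L2c)⟫_ℂ = (2 * H : ℂ) * ⟪(fHc (dLc θ) : HH H), SC.cm (fam fun q => (J q)⁻¹) (Γ v')⟫_ℂ ∧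
    PD.NL (jj D v) (v' : L2c) (jj D (cuV D ψ)) = (2 * H : ℂ) *
      (dp (⇑(fHc (dZc θ) : HH H)) (pz (⇑(SC.cm (fam fun q => (J q)⁻¹) (Γ v')))
          (wV (Real.pi / H) (Vf (Real.pi / H) (⇑(Γ v))))) +
        dp (⇑(fHc (dYc θ) : HH H)) (pz (⇑(SC.cm (fam fun q => (J q)⁻¹) (Γ v')))
          (uV (Real.pi / H) (Vf (Real.pi / H) (⇑(Γ v)))))) := by
  sorry

end

namespace FD
variable {D : Set ℂ} (F : FD D)

/-- The stream function of the circulation: `ψ = ζ(z) + c` in the strip `j`, `ψ = c` on the rest of `D` (`exists_adm` for the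
field `∇^⊥ ζ`; `D` is connected). -/
theorem exists_zad (j : Fin F.n) : ∃ (ψ : Adm D) (c : ℂ),
    (∀ q : ℝ × ℝ, 0 < q.2 → q.2 < 16 * F.u → (ψ : ℂ → ℂ) (F.X j q) = ((ctf (9 * F.u) (10 * F.u) q.2 : ℝ) : ℂ) + c) ∧
    (∀ x ∈ D, x ∉ Wc (F.X j) (10 * F.u) → (ψ : ℂ → ℂ) x = c) ∧
    ∀ x ∉ F.X j '' {q | 9 * F.u ≤ q.2 ∧ q.2 ≤ 10 * F.u}, px (ψ : ℂ → ℂ) x = 0 ∧ py (ψ : ℂ → ℂ) x = 0 := by
  sorry

variable {F} {m : ℕ} {A A' : ℝ → ℝ} {b lam : ℝ} {v₀ : VD D} {v : ℝ → VD D} {mu mu' : ℝ → ℝ}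

/-- **The equation of the circulation.** `USys.eq` with `ψ` of `exists_zad`: `⟨gpX ψ, iot v⟩ = ⟨ψ, v⟩ = ∫ v (ζ + conj c) =
2π ⟨1, x⟩` (`VD_int`, `VD_off`; `∫_D v ζ = 2π ⟨1, ζ Ga v⟩`: for `v = cuV φ` change of variables, density); `IsGa.grad_pair`; the terms
with `d`, `β` cancel by `USys.em` and `∫ β = 1`, `ψ = c` there; `⟨ψ, c₀⟩ = conj c ∫ c₀ = 0`. -/
theorem one_eq (hm : 1 ≤ m) (hc : ∫ x, F.c0 m x = 0) (j : Fin F.n)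
    (hU : USys D (F.c0 m) F.β F.d lam A A' b v₀ v mu mu') {s t : ℝ} (hs : 0 ≤ s) (hst : s ≤ t) (ht : t ≤ b) :
    ⟪on1, (F.sd m A v j).x t⟫_ℂ - ⟪on1, (F.sd m A v j).x s⟫_ℂ = ∫ r in s..t,
      (⟪on1, Ms (ctC2 (9 * F.u) (10 * F.u)) (SC.cm (F.G j).a (F.Ga j (v r)))⟫_ℂ +
        dp (⇑(Ms (ctC1 (9 * F.u) (10 * F.u)) on1)) (pz (⇑(SC.cm (F.G j).a (F.Ga j (v r))))
          (wV (F.G j).ω (Vf (F.G j).ω (⇑(F.Ga j (v r))))))) := by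
  sorry

end FD

end Pool.Agent.Lib.MP_79abb3_an.PD
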