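import Pool.Agent.Lib.MP_79abb3_an.SC.FlAp
import Pool.Agent.Lib.MP_79abb3_an.SC.LaTF
import Pool.Agent.Lib.MP_79abb3_an.SC.ExRb

/-!
MP_79abb3_an, Theorem D, block F, strip module: definitions.

`G : Geo H`, `G.ζ` is the cut-off `ζ_2` of the paper. The strip data: `x = ζ om'` (modes), the velocity
modes `Λ^{1/2} u`, the source `σ` (`S(E f) = ⟨f, σ⟩`), the damping `κ`.
`(P)` `d/dt ⟨f, T p⟩ = -⟨Bf, a p⟩ + b(ζ_2 a p, u; f) + ⟨f, κ V⟩ + ⟨f, σ⟩`, `f = T φ`, all `φ`,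
`(X)` `d/dt ⟨f, T x⟩ = -⟨Bf, a x⟩ + b(a x, u; f) + ⟨f, σ⟩`, `f = T φ`, `P φ = φ`,
`V = T (x - p)`.
-/

set_option autoImplicit false
set_option linter.unusedSectionVars false

open MeasureTheory Set Filter Topology Function
open scoped ENNReal InnerProductSpace

namespace Pool.Agent.Lib.MP_79abb3_an.SC

open Pool.Agent.Lib.MP_79abb3_an.P25 Pool.Agent.Lib.MP_79abb3_an.FW

section
variable {H : ℝ} [hH : Fact (0 < H)]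

theorem EE_injective (ω : ℝ) (x : HH H) (h : EE ω x = 0) : x = 0 :=
  PPEE_injective ω x (by rw [h, map_zero])

/-- The operator `B* a B` with the natural condition at `z = 0`: `K = T J E`. -/
noncomputable def nD (G : Geo H) : OD (HH H) where
  T := TT G.ω
  E := EE G.ω
  P := ContinuousLinearMap.id ℂ (HH H)
  a := cm G.a
  b := ContinuousLinearMap.id ℂ (HH H)
  bi := ContinuousLinearMap.id ℂ (HH H)
  c₀ := G.c₀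
  c₀_pos := G.hc
  adjT := inner_TT G.ω
  adjP := fun _ _ => rfl
  adja := inner_cm G.ha.c
  adjb := fun _ _ => rfl
  PP := fun _ => rfl
  coer := G.coer
  bbi := fun _ => rfl
  bib := fun _ => rfl
  injT := TT_injective G.ω
  injE := EE_injective G.ω

variable (H) in
/-- Data of the strip problem. -/
structure SDt where
  x : ℝ → HH H
  σ : ℝ → HH H
  ve : ℝ → l2 (CI H)
  we : ℝ → l2 (CI H)
  κ : ℝ → CI H

/-- continuity in time -/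
structure SDt.Cont (D : SDt H) (b : ℝ) : Prop where
  x : ContinuousOn D.x (Icc 0 b)
  σ : ContinuousOn D.σ (Icc 0 b)
  ve : ContinuousOn D.ve (Icc 0 b)
  we : ContinuousOn D.we (Icc 0 b)
  κ : ContinuousOn D.κ (Icc 0 b)

/-- reality -/
structure SDt.Re (D : SDt H) (t : ℝ) : Prop where
  x : cjX (D.x t) = D.x t
  σ : cjX (D.σ t) = D.σ t
  ve : cjC (D.ve t) = D.ve t
  we : cjC (D.we t) = D.we t
  κ : star (D.κ t) = D.κ t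

/-- right-hand side of `(P)`, `f = T φ` -/
noncomputable def rP (G : Geo H) (D : SDt H) (t : ℝ) (p φ : HH H) : ℂ :=
  -⟪φ, cm G.a p⟫_ℂ +
    bf G.ω (⇑(Ms G.ζ (cm G.a p))) (hf G.lam (D.ve t)) (hf G.lam (D.we t)) (⇑(TT G.ω φ)) +
    ⟪TT G.ω φ, Ms (D.κ t) (TT G.ω (D.x t - p))⟫_ℂ + ⟪TT G.ω φ, D.σ t⟫_ℂ

/-- right-hand side of `(X)`, `f = T φ` -/
noncomputable def rX (G : Geo H) (D : SDt H) (t : ℝ) (φ : HH H) : ℂ :=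
  -⟪φ, cm G.a (D.x t)⟫_ℂ +
    bf G.ω (⇑(cm G.a (D.x t))) (hf G.lam (D.ve t)) (hf G.lam (D.we t)) (⇑(TT G.ω φ)) +
    ⟪TT G.ω φ, D.σ t⟫_ℂ

/-- right-hand side of `(V)`, `f = T φ` -/
noncomputable def rV (G : Geo H) (D : SDt H) (t : ℝ) (g φ : HH H) : ℂ :=
  -⟪φ, cm G.a g⟫_ℂ +
    bf G.ω (⇑(Ms G.ζ (cm G.a g))) (hf G.lam (D.ve t)) (hf G.lam (D.we t)) (⇑(TT G.ω φ)) -
    ⟪TT G.ω φ, Ms (D.κ t) (TT G.ω g)⟫_ℂ

/-- solutions of `(P)` on `[0, b]` -/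
structure SolP (G : Geo H) (D : SDt H) (b : ℝ) (p₀ : HH H) (p : ℝ → HH H) : Prop where
  cont : ContinuousOn p (Icc 0 b)
  init : p 0 = p₀
  eq : ∀ φ : HH H, ∀ s t, 0 ≤ s → s ≤ t → t ≤ b →
    ⟪TT G.ω φ, TT G.ω (p t)⟫_ℂ - ⟪TT G.ω φ, TT G.ω (p s)⟫_ℂ = ∫ r in s..t, rP G D r (p r) φ

/-- the equation `(X)` -/
def EqX (G : Geo H) (D : SDt H) (b : ℝ) : Prop :=
  ∀ φ : HH H, PP G.ω φ = φ → ∀ s t, 0 ≤ s → s ≤ t → t ≤ b →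
    ⟪TT G.ω φ, TT G.ω (D.x t)⟫_ℂ - ⟪TT G.ω φ, TT G.ω (D.x s)⟫_ℂ = ∫ r in s..t, rX G D r φ

/-- The boundary layer in the strip on `[0, b]`: `V = T g`,
`d/dt ⟨f, V⟩ = -⟨Bf, a g⟩ + b(ζ a g, u; f) - ⟨f, κ V⟩` for `f = T (Qd φ)`, with
`u = (cell flow) + u[T (η g)] + u[T h]`; the total tangential velocity vanishes at `z = 0`. -/
structure StV (G : Geo H) (N : ℕ) (A : ℝ → ℝ) (η : CI H) (b : ℝ) (g h ℓ : ℝ → HH H) : Prop where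
  N1 : 1 ≤ N
  b0 : 0 ≤ b
  A0 : ∀ t ∈ Icc 0 b, 0 ≤ A t
  gc : ContinuousOn g (Icc 0 b)
  tst : Tst G.D.K 0 b (fun t => TT G.ω (g t)) ℓ
  eq : ∀ t ∈ Icc 0 b, ∀ φ : HH H, ⟪φ, ℓ t⟫_ℂ = -⟪G.Qd φ, cm G.a (g t)⟫_ℂ +
    bf G.ω (⇑(Ms G.ζ (cm G.a (g t)))) (G.tv N (A t) (h t) (Ms η (g t)))
      (G.tw N (A t) (h t) (Ms η (g t))) (⇑(TT G.ω (G.Qd φ))) -
    ⟪TT G.ω (G.Qd φ), Ms (rc (G.kF (G.ω * N) (A t)) (G.kF_c _ _)) (TT G.ω (g t))⟫_ℂ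
  tr : ∀ t ∈ Icc 0 b, ∀ n : ℤ, ex (Vf G.ω (⇑(Ms η (g t) + h t)) n : CI H) 0 =
    -(Complex.I * ((A t / 2 * sN N n : ℝ) : ℂ))

/-- `η` is a real smooth cut-off with `ζ η = η`, `η = 1` near `0`, `η = 0` near `H`. -/
structure CutOK (G : Geo H) (η η1 η2 : CI H) : Prop where
  d1 : IsD η η1
  d2 : IsD η1 η2
  re : star η = η
  sup : G.ζ * η = η
  one : ∃ r, 0 < r ∧ r < H ∧ ∀ z ∈ Icc (0:ℝ) r, ex η z = 1
  zero : ∃ r < H, ∀ z ∈ Icc r H, ex η z = 0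

end

end Pool.Agent.Lib.MP_79abb3_an.SC
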