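import Pool.Agent.Lib.MP_79abb3_an.SC.ExM
import Pool.Agent.Lib.MP_79abb3_an.PD.StDef

/-!
MP_79abb3_an, Theorem D, block F, strip module: initial values.
-/

set_option autoImplicit false
set_option linter.unusedSectionVars false

open MeasureTheory Set Filter Topology Function
open scoped ENNReal InnerProductSpace

namespace Pool.Agent.Lib.MP_79abb3_an.SC

open Pool.Agent.Lib.MP_79abb3_an.P25 Pool.Agent.Lib.MP_79abb3_an.FW

section
variable {H : ℝ} [hH : Fact (0 < H)]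

private theorem tail_zero (k : ℝ) {c : ℝ} {e : CI H}
    (he : ∀ z ∈ Icc (0:ℝ) H, c ≤ z → ex e z = 0) (f : Z2 H) {z : ℝ} (hz : z ∈ Icc (0:ℝ) H)
    (hcz : c ≤ z) : ∫ x in z..H, ((Real.exp (-|k| * (x - z)) : ℝ) : ℂ) * (mz e f : Z2 H) x = 0 := by
  have h1 : ∫ x in z..H, ((Real.exp (-|k| * (x - z)) : ℝ) : ℂ) * (mz e f : Z2 H) x =
      ∫ _x in z..H, (0 : ℂ) := by
    apply intervalIntegral.integral_congr_ae
    have h2 : ∀ᵐ x ∂volume, x ∈ Ioc (0:ℝ) H → (mz e f : Z2 H) x = ex e x * f x :=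
      (ae_restrict_iff' measurableSet_Ioc).1 (coe_mz e f)
    filter_upwards [h2] with x hx hx2
    rw [uIoc_of_le hz.2] at hx2
    have hx3 : 0 < x := lt_of_le_of_lt hz.1 hx2.1
    rw [hx ⟨hx3, hx2.2⟩, he x ⟨hx3.le, hx2.2⟩ (hcz.trans hx2.1.le), zero_mul, mul_zero]
  rw [h1, intervalIntegral.integral_zero]

private theorem Tz_tail (k : ℝ) {c : ℝ} {e : CI H}
    (he : ∀ z ∈ Icc (0:ℝ) H, c ≤ z → ex e z = 0) (f : Z2 H) {z : ℝ} (hz : z ∈ Icc (0:ℝ) H)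
    (hcz : c ≤ z) : ex (Tz k (mz e f)) z = 0 := by
  rw [Tz_apply k _ hz, tail_zero k he f hz hcz]

private theorem Tz_head (k : ℝ) {c : ℝ} (hc : 0 < c) (hcH : c ≤ H) {e : CI H}
    (he : ∀ z ∈ Icc (0:ℝ) H, c ≤ z → ex e z = 0) (f : Z2 H) {z : ℝ} (hz : z ∈ Icc (0:ℝ) c) :
    ‖ex (Tz k (mz e f)) z‖ ^ 2 ≤ c * ‖(mz e f : Z2 H)‖ ^ 2 := by
  have h0 := hH.out
  have hzI : z ∈ Icc (0:ℝ) H := ⟨hz.1, hz.2.trans hcH⟩
  have hcI : c ∈ Icc (0:ℝ) H := ⟨hc.le, hcH⟩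
  have e1 : ex (Tz k (mz e f)) z = ∫ x in z..c, ex (((Real.exp (|k| * z) : ℝ) : ℂ) •
      fe (-|k|) : CI H) x * (mz e f : Z2 H) x := by
    have e0 : ex (Tz k (mz e f)) z = ∫ x in z..H, ex (((Real.exp (|k| * z) : ℝ) : ℂ) •
        fe (-|k|) : CI H) x * (mz e f : Z2 H) x := by
      rw [Tz_apply k _ hzI]
      refine ii_congr ?_ hzI H_memI
      filter_upwards [ae_restrict_mem measurableSet_Ioc] with x h2
      rw [ex_smul, ex_fe _ ⟨h2.1.le, h2.2⟩, ← Complex.ofReal_mul, ← Real.exp_add]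
      congr 3
      ring
    have h3 : ∫ x in c..H, ex (((Real.exp (|k| * z) : ℝ) : ℂ) •
        fe (-|k|) : CI H) x * (mz e f : Z2 H) x = 0 := by
      have h1 : ∫ x in c..H, ex (((Real.exp (|k| * z) : ℝ) : ℂ) •
          fe (-|k|) : CI H) x * (mz e f : Z2 H) x = ∫ _x in c..H, (0 : ℂ) := by
        apply intervalIntegral.integral_congr_ae
        have h2 : ∀ᵐ x ∂volume, x ∈ Ioc (0:ℝ) H → (mz e f : Z2 H) x = ex e x * f x :=
          (ae_restrict_iff' measurableSet_Ioc).1 (coe_mz e f)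
        filter_upwards [h2] with x hx hx2
        rw [uIoc_of_le hcH] at hx2
        have hx3 : 0 < x := lt_trans hc hx2.1
        rw [hx ⟨hx3, hx2.2⟩, he x ⟨hx3.le, hx2.2⟩ hx2.1.le, zero_mul, mul_zero]
      rw [h1, intervalIntegral.integral_zero]
    have hii : ∀ a b : ℝ, a ∈ Icc (0:ℝ) H → b ∈ Icc (0:ℝ) H →
        IntervalIntegrable (fun x => ex (((Real.exp (|k| * z) : ℝ) : ℂ) •
        fe (-|k|) : CI H) x * (mz e f : Z2 H) x) volume a b := fun a b ha hb =>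
      (ii_Z2 (mz e f : Z2 H) ha hb).continuousOn_mul (continuous_ex _).continuousOn
    rw [e0, ← intervalIntegral.integral_add_adjacent_intervals (hii z c hzI hcI)
      (hii c H hcI H_memI), h3, add_zero]
  have h2 := cs_loc (((Real.exp (|k| * z) : ℝ) : ℂ) • fe (-|k|) : CI H) (mz e f : Z2 H)
    hzI hcI hz.2
  rw [← e1] at h2
  have h3 : ∫ x in z..c, ‖ex (((Real.exp (|k| * z) : ℝ) : ℂ) • fe (-|k|) : CI H) x‖ ^ 2 ≤ c := by
    have h4 : ∫ x in z..c, ‖ex (((Real.exp (|k| * z) : ℝ) : ℂ) • fe (-|k|) : CI H) x‖ ^ 2 ≤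
        ∫ _x in z..c, (1 : ℝ) := by
      apply intervalIntegral.integral_mono_on hz.2
      · exact Continuous.intervalIntegrable ((continuous_ex _).norm.pow 2) _ _
      · exact continuous_const.intervalIntegrable _ _
      · intro x hx
        have hxI : x ∈ Icc (0:ℝ) H := ⟨hz.1.trans hx.1, hx.2.trans hcH⟩
        rw [ex_smul, ex_fe _ hxI, ← Complex.ofReal_mul, ← Real.exp_add,
          Complex.norm_real, Real.norm_eq_abs, abs_of_pos (Real.exp_pos _)]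
        refine pow_le_one₀ (Real.exp_pos _).le ?_
        rw [Real.exp_le_one_iff]
        nlinarith [abs_nonneg k, hx.1]
    refine h4.trans ?_
    rw [intervalIntegral.integral_const, smul_eq_mul, mul_one]
    linarith [hz.1]
  calc ‖ex (Tz k (mz e f)) z‖ ^ 2 ≤
        (√(∫ x in z..c, ‖ex (((Real.exp (|k| * z) : ℝ) : ℂ) • fe (-|k|) : CI H) x‖ ^ 2) *
          ‖(mz e f : Z2 H)‖) ^ 2 := pow_le_pow_left₀ (norm_nonneg _) h2 2
    _ = (∫ x in z..c, ‖ex (((Real.exp (|k| * z) : ℝ) : ℂ) • fe (-|k|) : CI H) x‖ ^ 2) *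
          ‖(mz e f : Z2 H)‖ ^ 2 := by
        rw [mul_pow, Real.sq_sqrt]
        exact intervalIntegral.integral_nonneg hz.2 fun x _ => by positivity
    _ ≤ c * ‖(mz e f : Z2 H)‖ ^ 2 := by gcongr

private theorem T2_small (k : ℝ) {c : ℝ} (hc : 0 < c) {e : CI H}
    (he : ∀ z ∈ Icc (0:ℝ) H, c ≤ z → ex e z = 0) (f : Z2 H) :
    ‖T2 k (mz e f)‖ ≤ c * ‖(mz e f : Z2 H)‖ := by
  have h0 := hH.out
  rcases le_total H c with hHc | hcH
  · refine ((T2 k).le_of_opNorm_le (norm_T2_le k) _).trans ?_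
    gcongr
  · refine (sq_le_sq₀ (norm_nonneg _) (by positivity)).1 ?_
    rw [T2_apply, norm_sq_iota]
    have hcI : c ∈ Icc (0:ℝ) H := ⟨hc.le, hcH⟩
    have hI : ∀ a b : ℝ, IntervalIntegrable (fun z => ‖ex (Tz k (mz e f)) z‖ ^ 2) volume a b :=
      fun a b => Continuous.intervalIntegrable ((continuous_ex _).norm.pow 2) _ _
    rw [← intervalIntegral.integral_add_adjacent_intervals (hI 0 c) (hI c H)]
    have h1 : ∫ z in (0:ℝ)..c, ‖ex (Tz k (mz e f)) z‖ ^ 2 ≤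
        ∫ _z in (0:ℝ)..c, c * ‖(mz e f : Z2 H)‖ ^ 2 := by
      apply intervalIntegral.integral_mono_on hc.le (hI 0 c)
      · exact continuous_const.intervalIntegrable _ _
      · intro z hz
        exact Tz_head k hc hcH he f hz
    have h2 : ∫ z in c..H, ‖ex (Tz k (mz e f)) z‖ ^ 2 = 0 := by
      rw [intervalIntegral.integral_congr (g := fun _ => (0:ℝ)), intervalIntegral.integral_zero]
      intro z hz
      rw [uIcc_of_le hcH] at hz
      simp only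
      rw [Tz_tail k he f ⟨hc.le.trans hz.1, hz.2⟩ hz.1]
      simp
    rw [intervalIntegral.integral_const, smul_eq_mul, sub_zero] at h1
    rw [h2, add_zero]
    refine h1.trans (le_of_eq ?_)
    ring

/-- **3.4** For `e` supported in `[0, c]`: `T_k (e x)` vanishes for `z ≥ c`, `‖T_k g‖ ≤ min(c, 1/|k|) ‖g‖` for
`g` supported in `[0, c]`, so `lam^{3/8} ‖T_k (e x)‖ ≤ (N₀+1)^{3/8} c^{5/8} ‖x‖`: if `|k| ≤ 1/c` then
`(N₀ + 1/c)^{3/8} c ≤ (N₀+1)^{3/8} c^{5/8}`, if `|k| ≥ 1/c ≥ 1` then `(N₀+|k|)^{3/8}/|k| ≤ (N₀+1)^{3/8} c^{5/8}`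
(`norm_kT2_le`). Tools: `Tz`, `ex`-formulas for `T` in LaD/LaE (search `Tz`), or approximate by continuous
functions; similar estimates are in FlEl.lean, FlIn.lean, PzC.lean. -/
theorem strip_init (G : Geo H) : ∃ C, 0 ≤ C ∧ ∀ {c : ℝ} (_ : 0 < c) (_ : c ≤ 1) (e : CI H)
    (_ : ∀ z ∈ Icc (0:ℝ) H, c ≤ z → ex e z = 0) (_ : ‖e‖ ≤ 1) (x : HH H),
    (‖LT G.ω G.lam (3 / 8) (Ms e x)‖ ≤ C * c ^ (5 / 8 : ℝ) * ‖x‖) ∧
    ∀ th : CI H, (∀ z ∈ Icc (0:ℝ) c, ex th z = 0) → Ms th (TT G.ω (Ms e x)) = 0 := by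
  have hN := G.hN
  refine ⟨(G.N₀ + 1) ^ (3 / 8 : ℝ), by positivity, ?_⟩
  intro c hc hc1 e he he1 x
  constructor
  · refine l2_norm_le (by positivity) fun S => ?_
    have key : ∀ n : ℤ, ‖LT G.ω G.lam (3 / 8) (Ms e x) n‖ ≤
        (G.N₀ + 1) ^ (3 / 8 : ℝ) * c ^ (5 / 8 : ℝ) * ‖x n‖ := by
      intro n
      have hl := G.lw.h1 n
      have hlam : G.lam n = G.N₀ + |G.ω * n| := rfl
      rw [G.lamOK.LT_apply (by norm_num), norm_smul, Complex.norm_real,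
        Real.norm_of_nonneg (Real.rpow_nonneg (by linarith) _), Ms_apply]
      set t : ℝ := ‖T2 (G.ω * n) (mz e (x n))‖ with ht
      have ht0 : 0 ≤ t := norm_nonneg _
      have hm : ‖(mz e (x n) : Z2 H)‖ ≤ ‖x n‖ := by
        refine (norm_mz_apply_le e (x n)).trans ?_
        calc ‖e‖ * ‖x n‖ ≤ 1 * ‖x n‖ := by gcongr
          _ = ‖x n‖ := one_mul _
      have h1 : t ≤ c * ‖x n‖ := (T2_small _ hc he (x n)).trans (by gcongr)
      have h2 : |G.ω * n| * t ≤ ‖x n‖ := (norm_kT2_le _ _).trans hm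
      have h3 : G.lam n * t ≤ (G.N₀ + 1) * ‖x n‖ := by
        rw [hlam, add_mul, add_mul, one_mul]
        have h4 : G.N₀ * t ≤ G.N₀ * ‖x n‖ := by
          have : t ≤ ‖x n‖ := h1.trans (by
            calc c * ‖x n‖ ≤ 1 * ‖x n‖ := by gcongr
              _ = ‖x n‖ := one_mul _)
          gcongr
        linarith
      calc G.lam n ^ (3 / 8 : ℝ) * t = (G.lam n * t) ^ (3 / 8 : ℝ) * t ^ (5 / 8 : ℝ) := by
            rw [Real.mul_rpow (by linarith) ht0, mul_assoc, ← Real.rpow_add_of_nonneg ht0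
              (by norm_num) (by norm_num)]
            norm_num
        _ ≤ ((G.N₀ + 1) * ‖x n‖) ^ (3 / 8 : ℝ) * (c * ‖x n‖) ^ (5 / 8 : ℝ) := by
            gcongr
        _ = (G.N₀ + 1) ^ (3 / 8 : ℝ) * c ^ (5 / 8 : ℝ) *
              (‖x n‖ ^ (3 / 8 : ℝ) * ‖x n‖ ^ (5 / 8 : ℝ)) := by
            rw [Real.mul_rpow (by linarith) (norm_nonneg _), Real.mul_rpow hc.le (norm_nonneg _)]
            ring
        _ = _ := by
            rw [← Real.rpow_add_of_nonneg (norm_nonneg _) (by norm_num) (by norm_num)]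
            norm_num
    calc ∑ n ∈ S, ‖LT G.ω G.lam (3 / 8) (Ms e x) n‖ ^ 2 ≤
          ∑ n ∈ S, ((G.N₀ + 1) ^ (3 / 8 : ℝ) * c ^ (5 / 8 : ℝ)) ^ 2 * ‖x n‖ ^ 2 := by
          refine Finset.sum_le_sum fun n _ => ?_
          rw [← mul_pow]
          exact pow_le_pow_left₀ (norm_nonneg _) (key n) 2
      _ = ((G.N₀ + 1) ^ (3 / 8 : ℝ) * c ^ (5 / 8 : ℝ)) ^ 2 * ∑ n ∈ S, ‖x n‖ ^ 2 := by
          rw [Finset.mul_sum]
      _ ≤ ((G.N₀ + 1) ^ (3 / 8 : ℝ) * c ^ (5 / 8 : ℝ)) ^ 2 * ‖x‖ ^ 2 := by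
          gcongr
          exact l2_sum_le x S
      _ = _ := by ring
  · intro th hth
    refine lp.ext (funext fun n => ?_)
    show Ms th (TT G.ω (Ms e x)) n = 0
    rw [Ms_apply, TT_apply, Ms_apply, T2_apply]
    refine mz_iota_zero fun z hz => ?_
    rcases le_total z c with h1 | h1
    · exact Or.inl (hth z ⟨hz.1, h1⟩)
    · exact Or.inr (Tz_tail _ he (x n) hz h1)

end

end Pool.Agent.Lib.MP_79abb3_an.SC
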