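import Pool.Agent.Lib.MP_79abb3_an.PD.FgC
import Pool.Agent.Lib.MP_79abb3_an.PD.FeO
import Pool.Agent.Lib.MP_79abb3_an.PD.FeO2c
import Pool.Agent.Lib.MP_79abb3_an.PD.StG

/-!
Theorem D, block F, bounds (6.4): the circulations of the layers.
-/

set_option autoImplicit false
set_option linter.unusedSectionVars false

open MeasureTheory Set Filter Topology Function
open scoped ENNReal InnerProductSpace ComplexConjugate

namespace Pool.Agent.Lib.MP_79abb3_an.PD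

open Pool.Agent.Lib.MP_79abb3_an.SC Pool.Agent.Lib.MP_79abb3_an.P25 Pool.Agent.Lib.MP_79abb3_an.FW

/-! ### Functions of `z` -/

section
variable {g : ℝ → ℝ}

/-- a smooth function of `z` -/
private theorem pcz (hg : ContDiff ℝ ((⊤ : ℕ∞) : WithTop ℕ∞) g) : PC Real.pi fun q : ℝ × ℝ => ((g q.2 : ℝ) : ℂ) :=
  PC.ofPY (PY.of_z Real.pi hg)

private theorem fgc2_sm1 (hg : ContDiff ℝ ((⊤ : ℕ∞) : WithTop ℕ∞) g) :
    ContDiff ℝ ((⊤ : ℕ∞) : WithTop ℕ∞) (deriv g) := ((contDiff_infty_iff_deriv (𝕜 := ℝ)).1 hg).2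

private theorem fgc2_fd (hg : ContDiff ℝ ((⊤ : ℕ∞) : WithTop ℕ∞) g) (q v : ℝ × ℝ) :
    fderiv ℝ (fun q : ℝ × ℝ => ((g q.2 : ℝ) : ℂ)) q v = ((v.2 * deriv g q.2 : ℝ) : ℂ) := by
  have h1 : HasFDerivAt (fun q : ℝ × ℝ => g q.2) (deriv g q.2 • ContinuousLinearMap.snd ℝ ℝ ℝ) q :=
    (hg.differentiable (by simp) _).hasDerivAt.comp_hasFDerivAt q hasFDerivAt_snd
  have h2 := (Complex.ofRealCLM.hasFDerivAt (x := g q.2)).comp q h1
  have h3 : fderiv ℝ (fun q : ℝ × ℝ => ((g q.2 : ℝ) : ℂ)) q =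
      Complex.ofRealCLM.comp (deriv g q.2 • ContinuousLinearMap.snd ℝ ℝ ℝ) := h2.fderiv
  rw [h3]
  show ((deriv g q.2 * v.2 : ℝ) : ℂ) = _
  rw [mul_comm]

private theorem dYc_z (hg : ContDiff ℝ ((⊤ : ℕ∞) : WithTop ℕ∞) g) :
    dYc (fun q : ℝ × ℝ => ((g q.2 : ℝ) : ℂ)) = fun _ => 0 := by
  funext q
  unfold dYc
  rw [fgc2_fd hg]
  simp

private theorem dZc_z (hg : ContDiff ℝ ((⊤ : ℕ∞) : WithTop ℕ∞) g) :
    dZc (fun q : ℝ × ℝ => ((g q.2 : ℝ) : ℂ)) = fun q => ((deriv g q.2 : ℝ) : ℂ) := by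
  funext q
  unfold dZc
  rw [fgc2_fd hg]
  simp

private theorem dLc_z (hg : ContDiff ℝ ((⊤ : ℕ∞) : WithTop ℕ∞) g) :
    dLc (fun q : ℝ × ℝ => ((g q.2 : ℝ) : ℂ)) = fun q => ((-deriv (deriv g) q.2 : ℝ) : ℂ) := by
  funext q
  unfold dLc
  rw [dYc_z hg, dZc_z hg, dZc_z (fgc2_sm1 hg)]
  have h1 : dYc (fun _ : ℝ × ℝ => (0 : ℂ)) q = 0 := by
    unfold dYc
    rw [fderiv_const_apply]
    rfl
  rw [h1, zero_add, Complex.ofReal_neg]

private theorem fmc_z (hg : ContDiff ℝ ((⊤ : ℕ∞) : WithTop ℕ∞) g) {n : ℤ} (hn : n ≠ 0) :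
    (fmc (fun q : ℝ × ℝ => ((g q.2 : ℝ) : ℂ)) n : CI Real.pi) = 0 := by
  have h1 := fmc_yy (pcz hg) n
  rw [dYc_z hg] at h1
  have h0 : (fmc (fun _ : ℝ × ℝ => (0 : ℂ)) n : CI Real.pi) = 0 := by
    have h2 : (fam (fun _ : ℝ × ℝ => (0 : ℝ)) n : CI Real.pi) = 0 := by
      have h3 := fam_z (H := Real.pi) (g := fun _ => 0) continuous_const n
      rw [if_neg hn] at h3
      exact h3
    unfold fmc
    have e1 : (fun q : ℝ × ℝ => ((fun _ : ℝ × ℝ => (0 : ℂ)) q).re) = fun _ => 0 := rfl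
    have e2 : (fun q : ℝ × ℝ => ((fun _ : ℝ × ℝ => (0 : ℂ)) q).im) = fun _ => 0 := rfl
    rw [e1, e2, h2]
    exact ci_ext fun z _ => by rw [ex_add, ex_smul, ex_zero, mul_zero, add_zero]
  rw [h0] at h1
  have h4 : kI (Real.pi / Real.pi) n ≠ 0 := by
    unfold kI
    rw [div_self Real.pi_pos.ne', one_mul]
    refine mul_ne_zero Complex.I_ne_zero ?_
    exact_mod_cast hn
  refine ci_ext fun z _ => ?_
  have h5 := congrArg (fun f : CI Real.pi => ex f z) h1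
  simp only [ex_smul, ex_zero] at h5
  rw [ex_zero]
  rcases mul_eq_zero.1 h5.symm with h6 | h6
  · exact absurd h6 h4
  · exact h6

private theorem fHc_z_apply (hg : ContDiff ℝ ((⊤ : ℕ∞) : WithTop ℕ∞) g) {n : ℤ} (hn : n ≠ 0) :
    (fHc (fun q : ℝ × ℝ => ((g q.2 : ℝ) : ℂ)) : HP) n = 0 := by
  rw [fHc_apply (pcz hg), fmc_z hg hn, map_zero]

private theorem fgc2_ka (ω : ℝ) : ka ω 0 = 0 := by
  unfold ka
  rw [Int.cast_zero, mul_zero, abs_zero, Complex.ofReal_zero]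

private theorem bHc_z (hg : ContDiff ℝ ((⊤ : ℕ∞) : WithTop ℕ∞) g) :
    (bHc (fun q : ℝ × ℝ => ((g q.2 : ℝ) : ℂ)) : HP) = fHc fun q => ((deriv g q.2 : ℝ) : ℂ) := by
  refine lp.ext (funext fun n => ?_)
  rw [bHc_apply (pcz hg), fHc_apply (pcz (fgc2_sm1 hg)), dZc_z hg]
  congr 1
  by_cases hn : n = 0
  · subst hn
    rw [fgc2_ka]
    exact ci_ext fun z _ => by rw [ex_add, ex_smul, zero_mul, zero_add]
  · rw [fmc_z hg hn]
    exact ci_ext fun z _ => by rw [ex_add, ex_smul, ex_zero, mul_zero, zero_add]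

/-- `T (-g'') = g'` if `g = 0` near the top -/
private theorem TT_z (G : Geo Real.pi) (hg : ContDiff ℝ ((⊤ : ℕ∞) : WithTop ℕ∞) g)
    (ht : ∃ ε > 0, ∀ z, Real.pi - ε ≤ z → g z = 0) :
    SC.TT G.ω (fHc fun q : ℝ × ℝ => ((-deriv (deriv g) q.2 : ℝ) : ℂ)) =
      (fHc fun q : ℝ × ℝ => ((deriv g q.2 : ℝ) : ℂ) : HP) := by
  obtain ⟨ε, hε, h⟩ := ht
  have h1 : VanC Real.pi fun q : ℝ × ℝ => ((g q.2 : ℝ) : ℂ) :=
    ⟨ε, hε, fun y z hz => by show ((g z : ℝ) : ℂ) = 0; rw [h z hz, Complex.ofReal_zero]⟩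
  have h2 := TT_ll (pcz hg) h1
  rw [bHc_z hg, dLc_z hg] at h2
  rw [G.hω]
  exact h2

/-- `E (g') = g` if `g(0) = 0` -/
private theorem EE_z (G : Geo Real.pi) (hg : ContDiff ℝ ((⊤ : ℕ∞) : WithTop ℕ∞) g) (h0 : g 0 = 0) :
    SC.EE G.ω (fHc fun q : ℝ × ℝ => ((deriv g q.2 : ℝ) : ℂ)) =
      (fHc fun q : ℝ × ℝ => ((g q.2 : ℝ) : ℂ) : HP) := by
  have h2 := EE_bHc (pcz hg) fun y => by show ((g 0 : ℝ) : ℂ) = 0; rw [h0, Complex.ofReal_zero]
  rw [bHc_z hg] at h2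
  rw [G.hω]
  exact h2

private theorem Yz_z (ω : ℝ) (hg : ContDiff ℝ ((⊤ : ℕ∞) : WithTop ℕ∞) g) :
    Yz ω (fHc fun q : ℝ × ℝ => ((g q.2 : ℝ) : ℂ)) = (fHc fun q : ℝ × ℝ => ((g q.2 : ℝ) : ℂ) : HP) := by
  refine lp.ext (funext fun n => ?_)
  rw [Yz_apply]
  unfold tZ
  by_cases hn : n = 0
  · subst hn
    rw [fgc2_ka, zero_smul, sub_zero]
  · rw [fHc_z_apply hg hn, map_zero, smul_zero, sub_zero]

private theorem Yy_z (ω : ℝ) (hg : ContDiff ℝ ((⊤ : ℕ∞) : WithTop ℕ∞) g) :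
    Yy ω (fHc fun q : ℝ × ℝ => ((g q.2 : ℝ) : ℂ)) = (0 : HP) := by
  refine lp.ext (funext fun n => ?_)
  rw [Yy_apply]
  unfold tY
  by_cases hn : n = 0
  · subst hn
    have : kI ω 0 = 0 := by
      unfold kI
      rw [Int.cast_zero, mul_zero, Complex.ofReal_zero, mul_zero]
    rw [this, zero_smul]
    rfl
  · rw [fHc_z_apply hg hn, map_zero, smul_zero]
    rfl

private theorem fHc_z_congr {f : ℝ → ℝ} (hg : ContDiff ℝ ((⊤ : ℕ∞) : WithTop ℕ∞) g)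
    (hf : ContDiff ℝ ((⊤ : ℕ∞) : WithTop ℕ∞) f) (h : ∀ z ∈ Icc (0:ℝ) Real.pi, g z = f z) :
    (fHc fun q : ℝ × ℝ => ((g q.2 : ℝ) : ℂ) : HP) = fHc fun q : ℝ × ℝ => ((f q.2 : ℝ) : ℂ) :=
  fHc_congr (pcz hg) (pcz hf) fun q hq => by
    show ((g q.2 : ℝ) : ℂ) = ((f q.2 : ℝ) : ℂ)
    rw [h q.2 hq.2]

private theorem fHc_z_neg (hg : ContDiff ℝ ((⊤ : ℕ∞) : WithTop ℕ∞) g) :
    (fHc fun q : ℝ × ℝ => ((-g q.2 : ℝ) : ℂ) : HP) = -fHc fun q : ℝ × ℝ => ((g q.2 : ℝ) : ℂ) := by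
  have h := fHc_smul (-1) (pcz hg)
  rw [neg_smul, one_smul] at h
  rw [← h]
  congr 1
  funext q
  push_cast
  ring

private theorem fHc_z_zero : (fHc fun _ : ℝ × ℝ => ((0 : ℝ) : ℂ) : HP) = 0 := by
  have h := fHc_smul (0 : ℂ) (pcz (g := fun _ => 0) contDiff_const)
  rw [zero_smul] at h
  rw [← h]
  congr 1
  funext q
  push_cast
  ring

private theorem Ms_z {f : ℝ → ℝ} (hf : ContDiff ℝ ((⊤ : ℕ∞) : WithTop ℕ∞) f)
    (hg : ContDiff ℝ ((⊤ : ℕ∞) : WithTop ℕ∞) g) :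
    Ms (rc f hf.continuous) (fHc fun q : ℝ × ℝ => ((g q.2 : ℝ) : ℂ)) =
      (fHc fun q : ℝ × ℝ => ((f q.2 * g q.2 : ℝ) : ℂ) : HP) := by
  rw [Ms_fHc hf (pcz hg)]
  congr 1
  funext q
  push_cast
  ring

/-- `|g| ≤ A` and `g = 0` for `z ≥ c` -/
private theorem norm_fHc_z (hg : ContDiff ℝ ((⊤ : ℕ∞) : WithTop ℕ∞) g) {A c : ℝ} (hA : 0 ≤ A) (hc : 0 ≤ c)
    (h : ∀ z ∈ Icc (0:ℝ) Real.pi, |g z| ≤ A) (h0 : ∀ z, c < z → g z = 0) :
    ‖(fHc fun q : ℝ × ℝ => ((g q.2 : ℝ) : ℂ) : HP)‖ ≤ A * √c := by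
  have hpi := Real.pi_pos
  refine (sq_le_sq₀ (norm_nonneg _) (by positivity)).1 ?_
  rw [norm_fHc_sq (pcz hg), mul_pow, Real.sq_sqrt hc]
  have hsub : Icc (-Real.pi) Real.pi ×ˢ Icc 0 (min c Real.pi) ⊆ Cel Real.pi := by
    intro q hq
    exact ⟨hq.1, hq.2.1, hq.2.2.trans (min_le_right _ _)⟩
  have e1 : ∫ q in Cel Real.pi, ‖((g q.2 : ℝ) : ℂ)‖ ^ 2 =
      ∫ q in Icc (-Real.pi) Real.pi ×ˢ Icc 0 (min c Real.pi), ‖((g q.2 : ℝ) : ℂ)‖ ^ 2 := by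
    refine setIntegral_eq_of_subset_of_forall_sdiff_eq_zero isCompact_Cel.measurableSet hsub ?_
    intro q hq
    have h1 : c < q.2 := by
      by_contra h2
      exact hq.2 ⟨hq.1.1, hq.1.2.1, le_min (not_lt.1 h2) hq.1.2.2⟩
    rw [h0 q.2 h1, Complex.ofReal_zero, norm_zero]
    ring
  have hv : (volume : Measure (ℝ × ℝ)) (Icc (-Real.pi) Real.pi ×ˢ Icc 0 (min c Real.pi)) =
      ENNReal.ofReal (2 * Real.pi) * ENNReal.ofReal (min c Real.pi) := by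
    rw [Measure.volume_eq_prod, Measure.prod_prod, Real.volume_Icc, Real.volume_Icc, sub_zero]
    congr 2
    ring
  have h3 : ‖∫ q in Icc (-Real.pi) Real.pi ×ˢ Icc 0 (min c Real.pi), ‖((g q.2 : ℝ) : ℂ)‖ ^ 2‖ ≤
      A ^ 2 * (volume : Measure (ℝ × ℝ)).real (Icc (-Real.pi) Real.pi ×ˢ Icc 0 (min c Real.pi)) := by
    refine norm_setIntegral_le_of_norm_le_const ?_ fun q hq => ?_
    · rw [hv]
      exact ENNReal.mul_lt_top ENNReal.ofReal_lt_top ENNReal.ofReal_lt_top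
    · rw [norm_pow, norm_norm, Complex.norm_real, Real.norm_eq_abs]
      exact pow_le_pow_left₀ (abs_nonneg _) (h q.2 (hsub hq).2) 2
  have h4 : (volume : Measure (ℝ × ℝ)).real (Icc (-Real.pi) Real.pi ×ˢ Icc 0 (min c Real.pi)) =
      2 * Real.pi * min c Real.pi := by
    rw [Measure.real, hv, ENNReal.toReal_mul, ENNReal.toReal_ofReal (by positivity),
      ENNReal.toReal_ofReal (le_min hc hpi.le)]
  rw [h4] at h3
  rw [e1]
  have h5 := (le_abs_self _).trans h3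
  have h6 : min c Real.pi ≤ c := min_le_left _ _
  have h7 : (2 * Real.pi)⁻¹ * (A ^ 2 * (2 * Real.pi * min c Real.pi)) = A ^ 2 * min c Real.pi := by
    field_simp
  calc (2 * Real.pi)⁻¹ * ∫ q in Icc (-Real.pi) Real.pi ×ˢ Icc 0 (min c Real.pi), ‖((g q.2 : ℝ) : ℂ)‖ ^ 2 ≤
        (2 * Real.pi)⁻¹ * (A ^ 2 * (2 * Real.pi * min c Real.pi)) :=
        mul_le_mul_of_nonneg_left h5 (by positivity)
    _ = A ^ 2 * min c Real.pi := h7
    _ ≤ A ^ 2 * c := mul_le_mul_of_nonneg_left h6 (by positivity)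

end

private theorem fgc2_on1 : (on1 : HP) = fHc fun q : ℝ × ℝ => (((fun _ : ℝ => (1:ℝ)) q.2 : ℝ) : ℂ) := by
  have e : (fun q : ℝ × ℝ => (((fun _ : ℝ => (1:ℝ)) q.2 : ℝ) : ℂ)) = fun _ => 1 :=
    funext fun _ => Complex.ofReal_one
  rw [e]
  rfl

/-! ### The cut-off -/

private theorem fgc2_st : ContDiff ℝ ((⊤ : ℕ∞) : WithTop ℕ∞) Real.smoothTransition :=
  Real.smoothTransition.contDiff

private theorem fgc2_st1 : ContDiff ℝ ((⊤ : ℕ∞) : WithTop ℕ∞) (deriv Real.smoothTransition) :=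
  fgc2_sm1 fgc2_st

private theorem fgc2_z1 {x : ℝ} (hx : 1 < x) : deriv Real.smoothTransition x = 0 := by
  have h1 : Real.smoothTransition =ᶠ[𝓝 x] fun _ => (1 : ℝ) := by
    filter_upwards [Ioi_mem_nhds hx] with y hy
    exact Real.smoothTransition.one_of_one_le (le_of_lt hy)
  rw [h1.deriv_eq, deriv_const]

private theorem fgc2_z1' {x : ℝ} (hx : x < 0) : deriv Real.smoothTransition x = 0 := by
  have h1 : Real.smoothTransition =ᶠ[𝓝 x] fun _ => (0 : ℝ) := by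
    filter_upwards [Iio_mem_nhds hx] with y hy
    exact Real.smoothTransition.zero_of_nonpos (le_of_lt hy)
  rw [h1.deriv_eq, deriv_const]

private theorem fgc2_z2 {x : ℝ} (hx : 1 < x) : deriv (deriv Real.smoothTransition) x = 0 := by
  have h1 : deriv Real.smoothTransition =ᶠ[𝓝 x] fun _ => (0 : ℝ) := by
    filter_upwards [Ioi_mem_nhds hx] with y hy
    exact fgc2_z1 hy
  rw [h1.deriv_eq, deriv_const]

private theorem fgc2_z2' {x : ℝ} (hx : x < 0) : deriv (deriv Real.smoothTransition) x = 0 := by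
  have h1 : deriv Real.smoothTransition =ᶠ[𝓝 x] fun _ => (0 : ℝ) := by
    filter_upwards [Iio_mem_nhds hx] with y hy
    exact fgc2_z1' hy
  rw [h1.deriv_eq, deriv_const]

private theorem fgc2_bd {f : ℝ → ℝ} (hc : Continuous f) (h1 : ∀ x, 1 < x → f x = 0) (h2 : ∀ x, x < 0 → f x = 0) :
    ∃ C : ℝ, 0 ≤ C ∧ ∀ x, |f x| ≤ C := by
  obtain ⟨C, hC⟩ := (isCompact_Icc (a := (0 : ℝ)) (b := 1)).exists_bound_of_continuousOn hc.continuousOn
  refine ⟨max C 0, le_max_right _ _, fun x => ?_⟩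
  by_cases h : x ∈ Icc (0 : ℝ) 1
  · exact (hC x h).trans (le_max_left _ _)
  · have h0 : f x = 0 := by
      by_cases h3 : x < 0
      · exact h2 x h3
      · refine h1 x ?_
        by_contra h4
        exact h ⟨not_lt.1 h3, not_lt.1 h4⟩
    rw [h0, abs_zero]
    exact le_max_right _ _

private theorem fgc2_in (a b z : ℝ) : HasDerivAt (fun z => (b - z) / (b - a)) (-1 / (b - a)) z :=
  ((hasDerivAt_id z).const_sub b).div_const (b - a)

private theorem fgc2_d1 (a b z : ℝ) : deriv (ctf a b) z =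
    deriv Real.smoothTransition ((b - z) / (b - a)) * (-1 / (b - a)) := by
  have h2 : HasDerivAt Real.smoothTransition (deriv Real.smoothTransition ((b - z) / (b - a)))
      ((b - z) / (b - a)) := (fgc2_st.differentiable (by simp) _).hasDerivAt
  exact (h2.comp z (fgc2_in a b z)).deriv

private theorem fgc2_d2 (a b z : ℝ) : deriv (deriv (ctf a b)) z =
    deriv (deriv Real.smoothTransition) ((b - z) / (b - a)) * (-1 / (b - a)) * (-1 / (b - a)) := by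
  have e : deriv (ctf a b) = fun z => deriv Real.smoothTransition ((b - z) / (b - a)) * (-1 / (b - a)) :=
    funext fun z => fgc2_d1 a b z
  rw [e]
  have h2 : HasDerivAt (deriv Real.smoothTransition) (deriv (deriv Real.smoothTransition) ((b - z) / (b - a)))
      ((b - z) / (b - a)) := (fgc2_st1.differentiable (by simp) _).hasDerivAt
  exact ((h2.comp z (fgc2_in a b z)).mul_const _).deriv

private theorem fgc2_c1 {a b z : ℝ} (h : a < b) (hz : b < z) : deriv (ctf a b) z = 0 := by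
  have h2 : ctf a b =ᶠ[𝓝 z] fun _ => 0 := by
    filter_upwards [Ioi_mem_nhds hz] with x hx
    exact ctf_zero h (le_of_lt hx)
  rw [h2.deriv_eq, deriv_const]

private theorem fgc2_c2 {a b z : ℝ} (h : a < b) (hz : b < z) : deriv (deriv (ctf a b)) z = 0 := by
  have h2 : deriv (ctf a b) =ᶠ[𝓝 z] fun _ => 0 := by
    filter_upwards [Ioi_mem_nhds hz] with x hx
    exact fgc2_c1 h hx
  rw [h2.deriv_eq, deriv_const]

/-- the derivatives of the cut-offs -/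
private theorem ctf_deriv_bd : ∃ C : ℝ, 0 ≤ C ∧ ∀ a b z : ℝ, a < b → |deriv (ctf a b) z| ≤ C / (b - a) ∧
    |deriv (deriv (ctf a b)) z| ≤ C / (b - a) ^ 2 := by
  obtain ⟨C1, h1, k1⟩ := fgc2_bd fgc2_st1.continuous (fun x => fgc2_z1) (fun x => fgc2_z1')
  obtain ⟨C2, h2, k2⟩ := fgc2_bd (fgc2_sm1 fgc2_st1).continuous (fun x => fgc2_z2) (fun x => fgc2_z2')
  refine ⟨C1 + C2, by positivity, fun a b z hab => ?_⟩
  have hp : 0 < b - a := by linarith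
  constructor
  · rw [fgc2_d1, abs_mul, abs_div, abs_neg, abs_one, abs_of_pos hp, mul_one_div]
    exact div_le_div_of_nonneg_right ((k1 _).trans (by linarith)) hp.le
  · rw [fgc2_d2, abs_mul, abs_mul, abs_div, abs_neg, abs_one, abs_of_pos hp]
    have e : |deriv (deriv Real.smoothTransition) ((b - z) / (b - a))| * (1 / (b - a)) * (1 / (b - a)) =
        |deriv (deriv Real.smoothTransition) ((b - z) / (b - a))| / (b - a) ^ 2 := by
      field_simp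
    rw [e]
    exact div_le_div_of_nonneg_right ((k2 _).trans (by linarith)) (by positivity)

namespace FD
variable {D : Set ℂ} (F : FD D)

/-- `θ~ = 1 - ctf (z/4) (z/2)`: `0` for `z' ≤ z/4`, `1` for `z' ≥ z/2`. -/
noncomputable def tw (z : ℝ) : HP := fHc fun q => ((1 - ctf (z / 4) (z / 2) q.2 : ℝ) : ℂ)
/-- `θ~'` -/
noncomputable def tw1 (z : ℝ) : HP := fHc fun q => ((-deriv (ctf (z / 4) (z / 2)) q.2 : ℝ) : ℂ)
/-- `θ~''` -/
noncomputable def tw2 (z : ℝ) : HP := fHc fun q => ((-deriv (deriv (ctf (z / 4) (z / 2))) q.2 : ℝ) : ℂ)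

private theorem fgc2_s (a b : ℝ) : ContDiff ℝ ((⊤ : ℕ∞) : WithTop ℕ∞) fun z => 1 - ctf a b z :=
  contDiff_const.sub (ctf_smooth a b)

private theorem fgc2_ds (a b : ℝ) : deriv (fun z => 1 - ctf a b z) = fun z => -deriv (ctf a b) z := by
  funext z
  rw [deriv_const_sub]

private theorem fgc2_dn (a b : ℝ) : deriv (fun z => -ctf a b z) = fun z => -deriv (ctf a b) z := by
  funext z
  rw [deriv.fun_neg]

/-- Zero mode: `T (-θ~'') = θ~'`, `E (θ~') = θ~`, `Yz (θ~') = θ~'`, `Yy (θ~') = 0`. -/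
theorem tw_T (j : Fin F.n) {z : ℝ} (h0 : 0 < z) (h1 : z ≤ 1) : SC.TT (F.G j).ω (-tw2 z) = tw1 z ∧
    SC.EE (F.G j).ω (tw1 z) = tw z ∧ Yz (F.G j).ω (tw1 z) = tw1 z ∧ Yy (F.G j).ω (tw1 z) = 0 := by
  have hz : z / 4 < z / 2 := by linarith
  have s1 : ContDiff ℝ ((⊤ : ℕ∞) : WithTop ℕ∞) fun z' => -deriv (ctf (z / 4) (z / 2)) z' := (ctf_smooth1 _ _).neg
  refine ⟨?_, ?_, Yz_z _ s1, Yy_z _ s1⟩
  · have h2 := TT_z (F.G j) (g := fun z' => -ctf (z / 4) (z / 2) z') (ctf_smooth _ _).neg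
      ⟨1, one_pos, fun z' hz' => by
        have hpi := Real.pi_gt_three
        show -ctf (z / 4) (z / 2) z' = 0
        rw [ctf_zero hz (by linarith), neg_zero]⟩
    rw [fgc2_dn] at h2
    have e1 : (-tw2 z : HP) = fHc fun q : ℝ × ℝ =>
        ((-deriv (fun z' => -deriv (ctf (z / 4) (z / 2)) z') q.2 : ℝ) : ℂ) := by
      unfold tw2
      rw [fHc_z_neg (g := fun z' => deriv (deriv (ctf (z / 4) (z / 2))) z') (fgc2_sm1 (ctf_smooth1 _ _)), neg_neg]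
      congr 1
      funext q
      rw [deriv.fun_neg, neg_neg]
    rw [e1]
    exact h2
  · have h2 := EE_z (F.G j) (fgc2_s (z / 4) (z / 2)) (by
      show 1 - ctf (z / 4) (z / 2) 0 = 0
      rw [ctf_one hz (by linarith), sub_self])
    rw [fgc2_ds] at h2
    exact h2

/-- `|θ~''| ≤ C z^{-2}`, `|θ~'| ≤ C z^{-1}`, `|1 - θ~| ≤ C z^{1/2}` in `HP`, and `|Ms (ctC (z/2) z) 1| ≤ C z^{1/2}` (support of length
`≤ z`, `ctf (z/4) (z/2) = st (..)`, `deriv` bounds of `Real.smoothTransition`). -/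
theorem tw_bd : ∃ C : ℝ, 0 ≤ C ∧ ∀ z : ℝ, 0 < z → z ≤ 1 → ‖tw2 z‖ ≤ C * z ^ (-2 : ℝ) ∧ ‖tw1 z‖ ≤ C * z ^ (-1 : ℝ) ∧
    ‖on1 - tw z‖ ≤ C * z ^ (1 / 2 : ℝ) ∧
    ‖Ms (ctC (z / 2) z) on1‖ ≤ C * z ^ (1 / 2 : ℝ) := by
  obtain ⟨C, hC, hb⟩ := ctf_deriv_bd
  refine ⟨16 * C + 1, by positivity, fun z h0 h1 => ?_⟩
  have hz : z / 4 < z / 2 := by linarith
  have hz2 : z / 2 < z := by linarith
  have hq : √(z / 2) ≤ 1 := Real.sqrt_le_one.2 (by linarith)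
  have hq2 : √(z / 2) ≤ √z := Real.sqrt_le_sqrt (by linarith)
  have hq0 : 0 ≤ √z := Real.sqrt_nonneg z
  have e2 : z ^ (-2 : ℝ) = 1 / z ^ 2 := by
    rw [Real.rpow_neg h0.le, Real.rpow_two, one_div]
  have e1 : z ^ (-1 : ℝ) = 1 / z := by
    rw [Real.rpow_neg_one, one_div]
  have eh : z ^ (1 / 2 : ℝ) = √z := (Real.sqrt_eq_rpow z).symm
  have k01 : ∀ a b z' : ℝ, |ctf a b z'| ≤ 1 := fun a b z' => by
    unfold ctf
    rw [abs_of_nonneg (Real.smoothTransition.nonneg _)]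
    exact Real.smoothTransition.le_one _
  refine ⟨?_, ?_, ?_, ?_⟩
  · have h2 := norm_fHc_z (g := fun z' => -deriv (deriv (ctf (z / 4) (z / 2))) z')
      (fgc2_sm1 (ctf_smooth1 _ _)).neg (A := 16 * C / z ^ 2) (c := z / 2) (by positivity) (by positivity)
      (fun z' _ => by
        show |-deriv (deriv (ctf (z / 4) (z / 2))) z'| ≤ _
        rw [abs_neg]
        refine ((hb (z / 4) (z / 2) z' hz).2).trans (le_of_eq ?_)
        field_simp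
        ring)
      (fun z' hz' => by
        show -deriv (deriv (ctf (z / 4) (z / 2))) z' = 0
        rw [fgc2_c2 hz hz', neg_zero])
    refine h2.trans ?_
    rw [e2]
    calc 16 * C / z ^ 2 * √(z / 2) ≤ 16 * C / z ^ 2 * 1 := mul_le_mul_of_nonneg_left hq (by positivity)
      _ ≤ (16 * C + 1) * (1 / z ^ 2) := by
        rw [mul_one, mul_one_div]
        exact div_le_div_of_nonneg_right (by linarith) (by positivity)
  · have h2 := norm_fHc_z (g := fun z' => -deriv (ctf (z / 4) (z / 2)) z')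
      (ctf_smooth1 _ _).neg (A := 4 * C / z) (c := z / 2) (by positivity) (by positivity)
      (fun z' _ => by
        show |-deriv (ctf (z / 4) (z / 2)) z'| ≤ _
        rw [abs_neg]
        refine ((hb (z / 4) (z / 2) z' hz).1).trans (le_of_eq ?_)
        field_simp
        ring)
      (fun z' hz' => by
        show -deriv (ctf (z / 4) (z / 2)) z' = 0
        rw [fgc2_c1 hz hz', neg_zero])
    refine h2.trans ?_
    rw [e1]
    calc 4 * C / z * √(z / 2) ≤ 4 * C / z * 1 := mul_le_mul_of_nonneg_left hq (by positivity)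
      _ ≤ (16 * C + 1) * (1 / z) := by
        rw [mul_one, mul_one_div]
        exact div_le_div_of_nonneg_right (by linarith) h0.le
  · have e3 : (on1 - tw z : HP) = fHc fun q : ℝ × ℝ => ((ctf (z / 4) (z / 2) q.2 : ℝ) : ℂ) := by
      unfold tw
      rw [fgc2_on1, ← fHc_sub (pcz contDiff_const) (pcz (fgc2_s _ _))]
      congr 1
      funext q
      push_cast
      ring
    rw [e3]
    have h2 := norm_fHc_z (ctf_smooth (z / 4) (z / 2)) (A := 1) (c := z / 2) zero_le_one (by positivity)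
      (fun z' _ => k01 _ _ z') (fun z' hz' => ctf_zero hz hz'.le)
    refine h2.trans ?_
    rw [eh, one_mul]
    nlinarith
  · have e3 : (Ms (ctC (z / 2) z) on1 : HP) = fHc fun q : ℝ × ℝ => ((ctf (z / 2) z q.2 * 1 : ℝ) : ℂ) := by
      rw [fgc2_on1]
      exact Ms_z (ctf_smooth (z / 2) z) contDiff_const
    rw [e3]
    have h2 := norm_fHc_z (g := fun z' => ctf (z / 2) z z' * 1) ((ctf_smooth (z / 2) z).mul contDiff_const)
      (A := 1) (c := z) zero_le_one h0.le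
      (fun z' _ => by
        show |ctf (z / 2) z z' * 1| ≤ 1
        rw [mul_one]
        exact k01 _ _ z')
      (fun z' hz' => by
        show ctf (z / 2) z z' * 1 = 0
        rw [ctf_zero hz2 hz'.le, zero_mul])
    refine h2.trans ?_
    rw [eh, one_mul]
    nlinarith

variable {F} {m : ℕ} {A A' : ℝ → ℝ} {b lam : ℝ} {v₀ : VD D} {v : ℝ → VD D} {mu mu' : ℝ → ℝ} {p : Fin F.n → ℝ → HP}

/-- `Q = ⟨1, x⟩ - ⟨θ~, p⟩` -/
noncomputable def QQ (F : FD D) (m : ℕ) (A : ℝ → ℝ) (v : ℝ → VD D) (p : Fin F.n → ℝ → HP) (j : Fin F.n) (z t : ℝ) : ℂ :=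
  ⟪on1, (F.sd m A v j).x t⟫_ℂ - ⟪tw z, p j t⟫_ℂ

private theorem fgc2_dp0 (x : ℤ → Z2 Real.pi) : dp (⇑(0 : HP)) x = 0 := by
  unfold dp
  simp only [lp.coeFn_zero, Pi.zero_apply, inner_zero_left, tsum_zero]

private theorem fgc2_m1 {z : ℝ} (h0 : 0 < z) (h1 : z ≤ 4 * F.u) :
    Ms (ctC1 (9 * F.u) (10 * F.u)) (tw1 z) = 0 := by
  have hu := F.u0
  have hz : z / 4 < z / 2 := by linarith
  have h2 := Ms_z (ctf_smooth1 (9 * F.u) (10 * F.u)) (g := fun z' => -deriv (ctf (z / 4) (z / 2)) z')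
    (ctf_smooth1 _ _).neg
  refine (show Ms (ctC1 (9 * F.u) (10 * F.u)) (tw1 z) = _ from h2).trans ?_
  rw [fHc_z_congr (f := fun _ => 0) ((ctf_smooth1 _ _).mul (ctf_smooth1 _ _).neg) contDiff_const ?_]
  · exact fHc_z_zero
  · intro z' _
    show deriv (ctf (9 * F.u) (10 * F.u)) z' * -deriv (ctf (z / 4) (z / 2)) z' = 0
    rcases le_or_gt z' (z / 2) with h3 | h3
    · have h4 : ctf (9 * F.u) (10 * F.u) =ᶠ[𝓝 z'] fun _ => 1 := by
        filter_upwards [Iio_mem_nhds (show z' < 9 * F.u by linarith)] with x hx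
        exact ctf_one (by linarith) (le_of_lt hx)
      rw [h4.deriv_eq, deriv_const, zero_mul]
    · rw [fgc2_c1 hz h3, neg_zero, mul_zero]

private theorem fgc2_m2 {z : ℝ} (h0 : 0 < z) (h1 : z ≤ 4 * F.u) {f : ℝ → ℝ}
    (hf : ContDiff ℝ ((⊤ : ℕ∞) : WithTop ℕ∞) f) (hf0 : ∀ z', z' ≤ 8 * F.u → f z' = 0) :
    (Ms (rc f hf.continuous) (tw z) : HP) = Ms (rc f hf.continuous) on1 := by
  have hu := F.u0
  have hz : z / 4 < z / 2 := by linarith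
  rw [fgc2_on1, Ms_z hf contDiff_const]
  refine (Ms_z hf (fgc2_s (z / 4) (z / 2))).trans ?_
  refine fHc_z_congr (g := fun z' => f z' * (1 - ctf (z / 4) (z / 2) z')) (f := fun z' => f z' * 1)
    (hf.mul (fgc2_s _ _)) (hf.mul contDiff_const) ?_
  intro z' _
  show f z' * (1 - ctf (z / 4) (z / 2) z') = f z' * 1
  rcases le_or_gt z' (8 * F.u) with h3 | h3
  · rw [hf0 z' h3, zero_mul, zero_mul]
  · rw [ctf_zero hz (by linarith), sub_zero]

private theorem fgc2_e1 {z' : ℝ} (h : z' ≤ 8 * F.u) : deriv (ctf (9 * F.u) (10 * F.u)) z' = 0 := by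
  have hu := F.u0
  have h4 : ctf (9 * F.u) (10 * F.u) =ᶠ[𝓝 z'] fun _ => 1 := by
    filter_upwards [Iio_mem_nhds (show z' < 9 * F.u by linarith)] with x hx
    exact ctf_one (by linarith) (le_of_lt hx)
  rw [h4.deriv_eq, deriv_const]

private theorem fgc2_e2 {z' : ℝ} (h : z' ≤ 8 * F.u) : deriv (deriv (ctf (9 * F.u) (10 * F.u))) z' = 0 := by
  have hu := F.u0
  have h4 : deriv (ctf (9 * F.u) (10 * F.u)) =ᶠ[𝓝 z'] fun _ => 0 := by
    filter_upwards [Iio_mem_nhds (show z' < 9 * F.u by linarith)] with x hx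
    have h5 : ctf (9 * F.u) (10 * F.u) =ᶠ[𝓝 x] fun _ => 1 := by
      filter_upwards [Iio_mem_nhds hx] with y hy
      exact ctf_one (by linarith) (le_of_lt hy)
    rw [h5.deriv_eq, deriv_const]
  rw [h4.deriv_eq, deriv_const]

/-- the integrand of `one_eq` -/
private theorem fgc2_sig (j : Fin F.n) {z : ℝ} (h0 : 0 < z) (h1 : z ≤ 4 * F.u) (h2 : z ≤ 1) (r : ℝ) :
    ⟪tw1 z, (F.sd m A v j).σ r⟫_ℂ =
      ⟪on1, Ms (ctC2 (9 * F.u) (10 * F.u)) (SC.cm (F.G j).a (F.Ga j (v r)))⟫_ℂ +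
        dp (⇑(Ms (ctC1 (9 * F.u) (10 * F.u)) on1)) (pz (⇑(SC.cm (F.G j).a (F.Ga j (v r))))
          (wV (F.G j).ω (Vf (F.G j).ω (⇑(F.Ga j (v r)))))) := by
  obtain ⟨t1, t2, t3, t4⟩ := F.tw_T j h0 h2
  have e1 : (Ms (ctC1 (9 * F.u) (10 * F.u)) (tw z) : HP) = Ms (ctC1 (9 * F.u) (10 * F.u)) on1 :=
    fgc2_m2 h0 h1 (ctf_smooth1 _ _) fun z' h => fgc2_e1 h
  have e2 : (Ms (ctC2 (9 * F.u) (10 * F.u)) (tw z) : HP) = Ms (ctC2 (9 * F.u) (10 * F.u)) on1 :=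
    fgc2_m2 h0 h1 (fgc2_sm1 (ctf_smooth1 _ _)) fun z' h => fgc2_e2 h
  show ⟪tw1 z, sgm (F.G j) (ctC1 (9 * F.u) (10 * F.u)) (ctC2 (9 * F.u) (10 * F.u))
    (SC.cm (F.G j).a (F.Ga j (v r))) (UW (F.G j).ω (F.G j).lam (F.Ga j (v r)))⟫_ℂ = _
  rw [inner_sgm (F.G j) (ctC1_star _ _), t2, t3]
  have a1 : ⟪tw1 z, Ms (ctC1 (9 * F.u) (10 * F.u)) (SC.cm (F.G j).a (F.Ga j (v r)))⟫_ℂ = 0 := by
    have h := inner_Ms (ctC1 (9 * F.u) (10 * F.u)) (tw1 z) (SC.cm (F.G j).a (F.Ga j (v r)))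
    rw [ctC1_star] at h
    rw [← h, fgc2_m1 h0 h1, inner_zero_left]
  have a2 : ⟪tw z, Ms (ctC2 (9 * F.u) (10 * F.u)) (SC.cm (F.G j).a (F.Ga j (v r)))⟫_ℂ =
      ⟪on1, Ms (ctC2 (9 * F.u) (10 * F.u)) (SC.cm (F.G j).a (F.Ga j (v r)))⟫_ℂ := by
    have h := inner_Ms (ctC2 (9 * F.u) (10 * F.u)) (tw z) (SC.cm (F.G j).a (F.Ga j (v r)))
    have h' := inner_Ms (ctC2 (9 * F.u) (10 * F.u)) on1 (SC.cm (F.G j).a (F.Ga j (v r)))
    rw [ctC2_star] at h h'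
    rw [← h, ← h', e2]
  have a3 : hf (F.G j).lam (UW (F.G j).ω (F.G j).lam (F.Ga j (v r))) =
      wV (F.G j).ω (Vf (F.G j).ω (⇑(F.Ga j (v r)))) := funext fun n => (F.G j).hf_UW _ n
  rw [a1, a2, a3, e1, mul_zero, zero_add]

/-- `Q' = -⟨θ~'', a p⟩ - ⟨θ~', ζ a p w⟩ - ⟨θ~', κ T g⟩`: `one_eq` minus `SolP.eq` with `φ = -θ~''` (`tw_T`); the sources
`S` agree because `θ~ = 1` on the support of `ζ'` (`z/2 ≤ 9u`), `inner_sgm`. -/
theorem Fst.QQ_eq (st : F.Fst m lam A A' b v₀ v mu mu' p) (hc : ∫ x, F.c0 m x = 0) (j : Fin F.n) {z : ℝ} (h0 : 0 < z)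
    (h1 : z ≤ 4 * F.u) (h2 : z ≤ 1) {s t : ℝ} (hs : 0 ≤ s) (hst : s ≤ t) (ht : t ≤ b) :
    F.QQ m A v p j z t - F.QQ m A v p j z s = ∫ r in s..t,
      (-⟪tw2 z, SC.cm (F.G j).a (p j r)⟫_ℂ -
        dp (⇑(tw1 z)) (pz (⇑(Ms (F.G j).ζ (SC.cm (F.G j).a (p j r)))) (wV (F.G j).ω (Vf (F.G j).ω (⇑(F.Ga j (v r)))))) -
        ⟪tw1 z, Ms (F.kp m j (A r)) (SC.TT (F.G j).ω (F.gg m A v p j r))⟫_ℂ) := by
  obtain ⟨t1, t2, t3, t4⟩ := F.tw_T j h0 h2
  have hA := one_eq st.m1 hc j st.U hs hst ht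
  have hB := (st.P j).eq (-tw2 z) s t hs hst ht
  have hD := F.sd_cont (m := m) j st.U.cv st.contA
  have hsub : Icc s t ⊆ Icc 0 b := Icc_subset_Icc hs ht
  have hp : ∀ r, ⟪SC.TT (F.G j).ω (-tw2 z), SC.TT (F.G j).ω (p j r)⟫_ℂ = ⟪tw z, p j r⟫_ℂ := fun r => by
    rw [t1, Geo.inner_TT', t2]
  rw [hp, hp] at hB
  have hA' : ⟪on1, (F.sd m A v j).x t⟫_ℂ - ⟪on1, (F.sd m A v j).x s⟫_ℂ =
      ∫ r in s..t, ⟪tw1 z, (F.sd m A v j).σ r⟫_ℂ := by
    rw [hA]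
    refine intervalIntegral.integral_congr fun r _ => ?_
    exact (fgc2_sig j h0 h1 h2 r).symm
  have i1 : IntervalIntegrable (fun r => ⟪tw1 z, (F.sd m A v j).σ r⟫_ℂ) volume s t :=
    ((continuousOn_const.inner hD.σ).mono hsub).intervalIntegrable_of_Icc hst
  have i2 : IntervalIntegrable (fun r => rP (F.G j) (F.sd m A v j) r (p j r) (-tw2 z)) volume s t :=
    ((rP_contOn (F.G j) hD (st.P j).cont _).mono hsub).intervalIntegrable_of_Icc hst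
  have hQ : F.QQ m A v p j z t - F.QQ m A v p j z s =
      (⟪on1, (F.sd m A v j).x t⟫_ℂ - ⟪on1, (F.sd m A v j).x s⟫_ℂ) - (⟪tw z, p j t⟫_ℂ - ⟪tw z, p j s⟫_ℂ) := by
    unfold FD.QQ
    ring
  rw [hQ, hA', hB, ← intervalIntegral.integral_sub i1 i2]
  refine intervalIntegral.integral_congr fun r _ => ?_
  show ⟪tw1 z, (F.sd m A v j).σ r⟫_ℂ - rP (F.G j) (F.sd m A v j) r (p j r) (-tw2 z) = _
  unfold rP
  rw [t1, Geo.bf_eq, t3, t4, fgc2_dp0, hf_we, inner_neg_left]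
  show _ - (_ + _ + ⟪tw1 z, Ms (F.kp m j (A r)) (SC.TT (F.G j).ω (F.gg m A v p j r))⟫_ℂ + _) = _
  ring

/-- `M = Q - ⟨1 - θ~, p⟩ - ⟨-η', T g⟩` -/
theorem MM_QQ (j : Fin F.n) {z : ℝ} (h0 : 0 < z) (h1 : z ≤ 4 * F.u) (t : ℝ) : F.MM m A v p j t =
    F.QQ m A v p j z t - ⟪on1 - tw z, p j t⟫_ℂ +
      ⟪Ms (ctC1 (4 * F.u) (8 * F.u)) on1, SC.TT (F.G j).ω (F.gg m A v p j t)⟫_ℂ := by
  have hu := F.u0
  have e1 : (Ms (ctC1 (4 * F.u) (8 * F.u)) on1 : HP) =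
      -fHc fun q : ℝ × ℝ => ((deriv (fun z => 1 - ctf (4 * F.u) (8 * F.u) z) q.2 : ℝ) : ℂ) := by
    rw [fgc2_on1]
    refine (Ms_z (ctf_smooth1 (4 * F.u) (8 * F.u)) contDiff_const).trans ?_
    rw [fgc2_ds, ← fHc_z_neg (ctf_smooth1 (4 * F.u) (8 * F.u)).neg]
    congr 1
    funext q
    push_cast
    ring
  have e2 := EE_z (F.G j) (fgc2_s (4 * F.u) (8 * F.u)) (by
    show 1 - ctf (4 * F.u) (8 * F.u) 0 = 0
    rw [ctf_one (by linarith) (by linarith), sub_self])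
  have e3 : (F.et : HP) = on1 - fHc fun q : ℝ × ℝ => ((1 - ctf (4 * F.u) (8 * F.u) q.2 : ℝ) : ℂ) := by
    unfold FD.et
    rw [fgc2_on1, ← fHc_sub (pcz contDiff_const) (pcz (fgc2_s _ _))]
    congr 1
    funext q
    push_cast
    ring
  have e4 : F.gg m A v p j t = (F.sd m A v j).x t - p j t := rfl
  unfold FD.MM FD.QQ
  rw [e1, Geo.inner_TT', map_neg, e2, e3, e4, inner_sub_left, inner_sub_left, inner_neg_left, inner_sub_right]
  ring

/-- Near the wall `p = Be o` (`B_ov` with `Be`; `η = 1`, `ζ = 1` for `z ≤ 4u`). -/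
theorem p_near (hm : 1 ≤ m) (j : Fin F.n) {e : CI Real.pi} (he : ∀ z ∈ Icc (0:ℝ) Real.pi, 4 * F.u ≤ z → ex e z = 0)
    (t : ℝ) : Ms e (p j t) = Ms e (F.Be j (F.ov m A v mu p t)) := by
  have hu := F.u0
  have key : ∀ b b' : ℝ, b < b' → 4 * F.u ≤ b → e * ctC b b' = e := by
    intro b b' hb h4
    refine ci_ext fun z hz => ?_
    rw [ex_mul]
    rcases le_or_gt (4 * F.u) z with h | h
    · rw [he z hz h, zero_mul]
    · unfold ctC
      rw [ex_rc _ _ hz, ctf_one hb (by linarith), Complex.ofReal_one, mul_one]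
  exact (Ms_Be_ov hm j (key _ _ (by linarith) le_rfl) (key _ _ (by linarith) (by linarith)) t).symm

end FD

end Pool.Agent.Lib.MP_79abb3_an.PD
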