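import Pool.Agent.Lib.MP_79abb3_an.PD.FgC2
import Pool.Agent.Lib.MP_79abb3_an.PD.FdB3
import Pool.Agent.Lib.MP_79abb3_an.PD.FbV
import Pool.Agent.Lib.MP_79abb3_an.PD.FbG2

/-!
Theorem D, block F, bounds: parameters; the circulations are small (6.4).
-/

set_option autoImplicit false
set_option linter.unusedSectionVars false

open MeasureTheory Set Filter Topology Function
open scoped ENNReal InnerProductSpace ComplexConjugate

namespace Pool.Agent.Lib.MP_79abb3_an.PD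

open Pool.Agent.Lib.MP_79abb3_an.SC Pool.Agent.Lib.MP_79abb3_an.P25 Pool.Agent.Lib.MP_79abb3_an.FW

namespace FD
variable {D : Set ℂ} (F : FD D)

private theorem fgc3_N (m : ℕ) (j : Fin F.n) : (F.G j).ω * F.N m j = (F.k j : ℝ) * m := by
  rw [Geo.om_pi, one_mul]
  unfold N
  push_cast
  ring

private theorem fgc3_k (j : Fin F.n) : (1:ℝ) ≤ F.k j ∧ (F.k j : ℝ) ≤ F.K := by
  refine ⟨?_, ?_⟩
  · exact_mod_cast F.fl.kpos j
  · exact_mod_cast F.hK j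

/-- The parameters in the strips (`ω = 1`, `1 ≤ k_j ≤ K`). -/
theorem par {m : ℕ} (hm : 1 ≤ m) (j : Fin F.n) : 1 ≤ F.N m j ∧ (m : ℝ) ≤ (F.G j).ω * F.N m j ∧
    (F.G j).ω * F.N m j ≤ F.K * m ∧ F.k j * F.A0 m ≤ FW.A0 ((F.G j).ω * F.N m j) ∧
    F.bm m ≤ 1 / (8 * ((F.G j).ω * F.N m j) ^ 2) ∧ F.bm m ≤ 1 ∧ 0 < F.bm m ∧ 0 < F.A0 m := by
  obtain ⟨hk1, hkK⟩ := F.fgc3_k j
  have hm1 : (1:ℝ) ≤ m := by exact_mod_cast hm
  have hm0 : (0:ℝ) < m := by linarith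
  have hkm : (F.k j : ℝ) * m ≤ F.K * m := mul_le_mul_of_nonneg_right hkK hm0.le
  have hmk : (m : ℝ) ≤ F.k j * m := le_mul_of_one_le_left hm0.le hk1
  have hkm1 : (1:ℝ) ≤ F.k j * m := hm1.trans hmk
  have hKm1 : (1:ℝ) ≤ F.K * m := hkm1.trans hkm
  have hKm2 : (1:ℝ) ≤ (F.K * m) ^ 2 := one_le_pow₀ hKm1
  rw [F.fgc3_N m j]
  refine ⟨?_, hmk, hkm, ?_, ?_, ?_, ?_, ?_⟩
  · unfold N
    exact Nat.one_le_iff_ne_zero.2
      (Nat.mul_ne_zero (Nat.one_le_iff_ne_zero.1 (F.fl.kpos j)) (Nat.one_le_iff_ne_zero.1 hm))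
  · unfold A0 FW.A0
    have h1 : Real.exp (-√((F.K : ℝ) * m)) ≤ Real.exp (-√((F.k j : ℝ) * m)) :=
      Real.exp_le_exp.2 (neg_le_neg (Real.sqrt_le_sqrt hkm))
    calc (F.k j : ℝ) * (32 * m * Real.exp (-√((F.K : ℝ) * m)))
        = 32 * (F.k j * m) * Real.exp (-√((F.K : ℝ) * m)) := by ring
      _ ≤ 32 * (F.k j * m) * Real.exp (-√((F.k j : ℝ) * m)) :=
          mul_le_mul_of_nonneg_left h1 (by positivity)
  · unfold bm
    refine one_div_le_one_div_of_le (by positivity) ?_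
    have h1 : ((F.k j : ℝ) * m) ^ 2 ≤ (F.K * m) ^ 2 := pow_le_pow_left₀ (by positivity) hkm 2
    linarith
  · unfold bm
    rw [div_le_one (by positivity)]
    linarith
  · unfold bm
    positivity
  · unfold A0
    positivity

theorem A0_tend : Tendsto (fun m : ℕ => F.A0 m) atTop (𝓝 0) := by
  have h1 : Tendsto (fun x : ℝ => x ^ 2 * Real.exp (-x)) atTop (𝓝 0) :=
    Real.tendsto_pow_mul_exp_neg_atTop_nhds_zero 2
  have h2 : Tendsto (fun m : ℕ => 32 * (√(m : ℝ) ^ 2 * Real.exp (-√(m : ℝ)))) atTop (𝓝 0) := by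
    have h3 := ((h1.comp Real.tendsto_sqrt_atTop).comp tendsto_natCast_atTop_atTop).const_mul (32:ℝ)
    rw [mul_zero] at h3
    exact h3
  refine squeeze_zero (fun m => ?_) (fun m => ?_) h2
  · unfold A0
    positivity
  · unfold A0
    have hm0 : (0:ℝ) ≤ m := Nat.cast_nonneg m
    have hK : (1:ℝ) ≤ F.K := by exact_mod_cast F.K1
    have h4 : Real.exp (-√((F.K : ℝ) * m)) ≤ Real.exp (-√(m : ℝ)) :=
      Real.exp_le_exp.2 (neg_le_neg (Real.sqrt_le_sqrt (le_mul_of_one_le_left hm0 hK)))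
    rw [Real.sq_sqrt hm0]
    calc 32 * (m : ℝ) * Real.exp (-√((F.K : ℝ) * m)) ≤ 32 * (m : ℝ) * Real.exp (-√(m : ℝ)) :=
          mul_le_mul_of_nonneg_left h4 (by positivity)
      _ = _ := by ring

private theorem fgc3_zl {m n : ℝ} (hm : 1 ≤ m) (h : m ≤ n) : 0 < zl n ∧ zl n ≤ 1 / (16 * √m) ∧
    zl n ^ (-2 : ℝ) = 256 * n ∧ zl n ≤ 1 := by
  have hm0 : 0 < m := by linarith
  have hn0 : 0 < n := by linarith
  have hsm : 0 < √m := Real.sqrt_pos.2 hm0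
  have hsn : 0 < √n := Real.sqrt_pos.2 hn0
  have h1 : √m ≤ √n := Real.sqrt_le_sqrt h
  have h2 : (1:ℝ) ≤ √m := by
    rw [Real.one_le_sqrt]; exact hm
  refine ⟨by unfold zl; positivity, ?_, ?_, ?_⟩
  · unfold zl
    exact one_div_le_one_div_of_le (by positivity) (by linarith)
  · have h0 : 0 < zl n := by unfold zl; positivity
    rw [Real.rpow_neg h0.le, Real.rpow_two]
    unfold zl
    rw [one_div, inv_pow, inv_inv, mul_pow, Real.sq_sqrt hn0.le]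
    norm_num
  · unfold zl
    rw [div_le_one (by positivity)]
    linarith

/-- `z₁ = 1/(16 √N) → 0` -/
theorem z1_small {ε : ℝ} (hε : 0 < ε) : ∃ m₀ : ℕ, 1 ≤ m₀ ∧ ∀ m : ℕ, m₀ ≤ m → ∀ j, 0 < F.z1 m j ∧ F.z1 m j ≤ ε ∧
    F.z1 m j ^ (-2 : ℝ) ≤ 256 * (F.K * m) := by
  have h1 : Tendsto (fun m : ℕ => 1 / (16 * √(m : ℝ))) atTop (𝓝 0) := by
    have h2 : Tendsto (fun m : ℕ => 16 * √(m : ℝ)) atTop atTop :=
      (Real.tendsto_sqrt_atTop.comp tendsto_natCast_atTop_atTop).const_mul_atTop (by norm_num)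
    refine h2.inv_tendsto_atTop.congr fun m => ?_
    rw [Pi.inv_apply, one_div]
  obtain ⟨m₀, hm₀⟩ := eventually_atTop.1 (h1.eventually (gt_mem_nhds hε))
  refine ⟨max 1 m₀, le_max_left _ _, fun m hm j => ?_⟩
  have hm1 : 1 ≤ m := (le_max_left _ _).trans hm
  obtain ⟨-, p2, p3, -⟩ := F.par hm1 j
  obtain ⟨a1, a2, a3, -⟩ := fgc3_zl (by exact_mod_cast hm1 : (1:ℝ) ≤ m) p2
  refine ⟨a1, a2.trans (hm₀ m ((le_max_right _ _).trans hm)).le, ?_⟩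
  unfold z1
  rw [a3]
  linarith


private theorem fgc3_st : ∃ M : ℝ, 0 ≤ M ∧ ∀ z : ℝ, 0 < z → ∀ t, |deriv (ctf (z / 4) (z / 2)) t| ≤ M * z ^ (-1 : ℝ) := by
  have hc : Continuous (deriv Real.smoothTransition) :=
    (Real.smoothTransition.contDiff (n := 1)).continuous_deriv le_rfl
  obtain ⟨M, hM⟩ := (isCompact_Icc (a := (0 : ℝ)) (b := 1)).exists_bound_of_continuousOn
    hc.continuousOn
  have hst : ∀ x, |deriv Real.smoothTransition x| ≤ max M 0 := fun x => by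
    by_cases hx : x ∈ Icc (0 : ℝ) 1
    · exact (hM x hx).trans (le_max_left _ _)
    · have h0 : deriv Real.smoothTransition x = 0 := by
        rw [mem_Icc, not_and_or, not_le, not_le] at hx
        rcases hx with hx | hx
        · have h1 : Real.smoothTransition =ᶠ[𝓝 x] fun _ => 0 := by
            filter_upwards [Iio_mem_nhds hx] with z hz
            exact Real.smoothTransition.zero_of_nonpos (le_of_lt hz)
          rw [h1.deriv_eq]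
          exact deriv_const _ _
        · have h1 : Real.smoothTransition =ᶠ[𝓝 x] fun _ => 1 := by
            filter_upwards [Ioi_mem_nhds hx] with z hz
            exact Real.smoothTransition.one_of_one_le (le_of_lt hz)
          rw [h1.deriv_eq]
          exact deriv_const _ _
      rw [h0, abs_zero]
      exact le_max_right _ _
  refine ⟨4 * max M 0, by positivity, fun z hz t => ?_⟩
  have h1 : HasDerivAt (fun t : ℝ => (z / 2 - t) / (z / 2 - z / 4)) (-1 / (z / 2 - z / 4)) t := by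
    have h2 := ((hasDerivAt_id t).const_sub (z / 2)).div_const (z / 2 - z / 4)
    exact h2
  have h3 : HasDerivAt Real.smoothTransition (deriv Real.smoothTransition ((z / 2 - t) / (z / 2 - z / 4)))
      ((z / 2 - t) / (z / 2 - z / 4)) :=
    ((Real.smoothTransition.contDiff (n := 1)).differentiable (by norm_num) _).hasDerivAt
  have h4 : HasDerivAt (ctf (z / 4) (z / 2))
      (deriv Real.smoothTransition ((z / 2 - t) / (z / 2 - z / 4)) * (-1 / (z / 2 - z / 4))) t := h3.comp t h1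
  rw [h4.deriv, abs_mul]
  have h5 : |-1 / (z / 2 - z / 4)| = 4 * z ^ (-1 : ℝ) := by
    rw [Real.rpow_neg_one, abs_div, abs_neg, abs_one, show z / 2 - z / 4 = z / 4 by ring,
      abs_of_pos (by positivity)]
    field_simp
  rw [h5]
  have h6 : 0 ≤ 4 * z ^ (-1 : ℝ) := by positivity
  calc _ ≤ max M 0 * (4 * z ^ (-1 : ℝ)) := mul_le_mul_of_nonneg_right (hst _) h6
    _ = _ := by ring

private theorem fgc3_mode {h e e' w : CI Real.pi} (p : Z2 Real.pi)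
    (he : star e = e) (he' : star e' = e') (hh : h * e * e' = h) :
    ‖⟪(iota h : Z2 Real.pi), mz w p⟫_ℂ‖ ≤ ‖h‖ * (‖(iota (e * w) : Z2 Real.pi)‖ * ‖mz e' p‖) := by
  have h1 : (iota h : Z2 Real.pi) = mz e' (mz e (iota h)) := by
    rw [mz_iota, mz_iota]
    congr 1
    rw [← hh]
    calc h * e * e' = h * e * e' * e * e' := by rw [hh, hh]
      _ = _ := by ring
  have h2 : mz e (mz e' (mz w p)) = mz (star (star (e * w))) (mz e' p) := by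
    rw [star_star, mz_mul, mz_comm e' w]
  have h3 : (iota (star (e * w) * h) : Z2 Real.pi) = mz h (iota (star (e * w))) := by
    rw [mz_iota, mul_comm]
  rw [h1, inner_mz, inner_mz, he, he', h2, ← inner_mz, mz_iota, h3]
  refine (norm_inner_le_norm _ _).trans ?_
  rw [← mul_assoc]
  refine mul_le_mul_of_nonneg_right ?_ (norm_nonneg _)
  refine (norm_mz_apply_le _ _).trans (le_of_eq ?_)
  rw [← cz_iota, norm_cz]

private theorem fgc3_dp (G : Geo Real.pi) {x : HP} {h e e' : CI Real.pi} (hx0 : x 0 = iota h)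
    (hxn : ∀ n : ℤ, n ≠ 0 → x n = 0) (he : star e = e) (he' : star e' = e') (hh : h * e * e' = h) (y : HP)
    {w : ℤ → CI Real.pi} (sw : S2 G.lam (1 / 2) w) {W : ℝ} (hW : 0 ≤ W)
    (hs : Summable fun n => ‖(iota (e * w n) : Z2 Real.pi)‖ ^ 2)
    (hb : ∑' n, ‖(iota (e * w n) : Z2 Real.pi)‖ ^ 2 ≤ W ^ 2) :
    ‖dp (⇑x) (pz (⇑y) w)‖ ≤ ‖h‖ * (W * ‖Ms e' y‖) := by
  obtain ⟨c1, -, -⟩ := cvm_bd zero_le_one mz_bd G.pw.h1 G.pw.ha G.pw.hb G.pw.hc G.pw.hs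
    (S2_l2 G.lam y) sw
  have e0 : dp (⇑x) (pz (⇑y) w) = ⟪x 0, pz (⇑y) w 0⟫_ℂ := by
    refine tsum_eq_single 0 fun n hn => ?_
    show ⟪x n, pz (⇑y) w n⟫_ℂ = 0
    rw [hxn n hn, inner_zero_left]
  have h1 : HasSum (fun j => ⟪x 0, mz (w (0 - j)) (y j)⟫_ℂ) ⟪x 0, pz (⇑y) w 0⟫_ℂ :=
    ((c1 0).of_norm).hasSum.mapL (innerSL ℂ (x 0))
  rw [e0, ← h1.tsum_eq]
  have hre : Summable fun j : ℤ => ‖(iota (e * w (0 - j)) : Z2 Real.pi)‖ ^ 2 :=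
    (Equiv.subLeft (0:ℤ)).summable_iff.2 hs
  have hrt : ∑' j : ℤ, ‖(iota (e * w (0 - j)) : Z2 Real.pi)‖ ^ 2 ≤ W ^ 2 := by
    have h2 := (Equiv.subLeft (0:ℤ)).tsum_eq fun n => ‖(iota (e * w n) : Z2 Real.pi)‖ ^ 2
    exact (le_of_eq h2).trans hb
  obtain ⟨z1, z2⟩ := cs_tsum (x := fun j : ℤ => ‖(iota (e * w (0 - j)) : Z2 Real.pi)‖)
    (y := fun j => ‖Ms e' y j‖) (fun n => norm_nonneg _) (fun n => norm_nonneg _) hre
    (l2_summable (Ms e' y))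
  have key : ∀ j, ‖⟪x 0, mz (w (0 - j)) (y j)⟫_ℂ‖ ≤
      ‖h‖ * (‖(iota (e * w (0 - j)) : Z2 Real.pi)‖ * ‖Ms e' y j‖) := by
    intro j
    rw [hx0, Ms_apply]
    exact fgc3_mode (y j) he he' hh
  have hsum : Summable fun j => ‖⟪x 0, mz (w (0 - j)) (y j)⟫_ℂ‖ :=
    Summable.of_nonneg_of_le (fun _ => norm_nonneg _) key (z1.mul_left _)
  refine (norm_tsum_le_tsum_norm hsum).trans ((hsum.tsum_le_tsum key (z1.mul_left _)).trans ?_)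
  rw [tsum_mul_left]
  refine mul_le_mul_of_nonneg_left (z2.trans ?_) (norm_nonneg _)
  have h3 : √(∑' j : ℤ, ‖(iota (e * w (0 - j)) : Z2 Real.pi)‖ ^ 2) ≤ W := by
    rw [Real.sqrt_le_left hW]
    exact hrt
  have h4 : √(∑' j, ‖Ms e' y j‖ ^ 2) = ‖Ms e' y‖ := by
    rw [← l2_norm_sq, Real.sqrt_sq (norm_nonneg _)]
  rw [h4]
  exact mul_le_mul_of_nonneg_right h3 (norm_nonneg _)

private theorem fgc3_exp {t : ℝ} (ht : 0 ≤ t) : 32 * t ^ 2 * Real.exp (-t) * Real.exp (t / 16) ≤ 256 := by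
  have h1 : t ^ 2 ≤ 8 * Real.exp (t / 2) := by
    have h2 := Real.quadratic_le_exp_of_nonneg (x := t / 2) (by linarith)
    nlinarith
  have h3 : Real.exp (t / 2) * (Real.exp (-t) * Real.exp (t / 16)) ≤ 1 := by
    rw [← Real.exp_add, ← Real.exp_add, ← Real.exp_zero]
    exact Real.exp_le_exp.2 (by linarith)
  have h4 : 0 ≤ Real.exp (-t) * Real.exp (t / 16) := by positivity
  calc 32 * t ^ 2 * Real.exp (-t) * Real.exp (t / 16) = 32 * (t ^ 2 * (Real.exp (-t) * Real.exp (t / 16))) := by ring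
    _ ≤ 32 * (8 * Real.exp (t / 2) * (Real.exp (-t) * Real.exp (t / 16))) := by
        have := mul_le_mul_of_nonneg_right h1 h4
        linarith
    _ = 256 * (Real.exp (t / 2) * (Real.exp (-t) * Real.exp (t / 16))) := by ring
    _ ≤ 256 := by linarith

private theorem fgc3_ch {m α z : ℝ} (hm : 1 ≤ m) (hα : 0 ≤ α) (hA : α ≤ FW.A0 m) (hz0 : 0 ≤ z) (hz : z ≤ zl m) :
    chF m α z ≤ 256 := by
  have hm0 : 0 < m := by linarith
  have hs : 0 < √m := Real.sqrt_pos.2 hm0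
  have h1 : m * z ≤ √m / 16 := by
    have h2 : m * z ≤ m * zl m := mul_le_mul_of_nonneg_left hz hm0.le
    have h3 : m * zl m = √m / 16 := by
      unfold zl
      have h5 : m = √m * √m := (Real.mul_self_sqrt hm0.le).symm
      field_simp
      nlinarith
    linarith
  have h4 : Real.cosh (m * z) ≤ Real.exp (√m / 16) := by
    have h5 : Real.cosh (m * z) ≤ Real.exp (m * z) := by
      rw [Real.cosh_eq]
      have h6 : Real.exp (-(m * z)) ≤ Real.exp (m * z) := by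
        refine Real.exp_le_exp.2 ?_
        have := mul_nonneg hm0.le hz0
        linarith
      linarith
    exact h5.trans (Real.exp_le_exp.2 h1)
  have h7 := fgc3_exp hs.le
  rw [Real.sq_sqrt hm0.le] at h7
  unfold chF
  calc α * Real.cosh (m * z) ≤ FW.A0 m * Real.exp (√m / 16) :=
        mul_le_mul hA h4 (Real.cosh_pos _).le (hα.trans hA)
    _ ≤ 256 := h7

private theorem fgc3_ctf01 (a b t : ℝ) : |ctf a b t| ≤ 1 := by
  unfold ctf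
  rw [abs_of_nonneg (Real.smoothTransition.nonneg _)]
  exact Real.smoothTransition.le_one _

private theorem fgc3_ctC1 (a b : ℝ) : ‖(ctC a b : CI Real.pi)‖ ≤ 1 := by
  refine ci_norm_le zero_le_one fun t ht => ?_
  unfold ctC
  rw [Pool.Agent.Lib.MP_79abb3_an.FW.ex_rc _ _ ht, Complex.norm_real, Real.norm_eq_abs]
  exact fgc3_ctf01 _ _ _

private theorem fgc3_ctCs (a b : ℝ) : star (ctC a b : CI Real.pi) = ctC a b := SC.star_rc _ _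

private theorem fgc3_ctCm {a b a' b' : ℝ} (h1 : a < b) (h2 : b ≤ a') (h3 : a' < b') :
    ctC a b * ctC a' b' = ctC a b := by
  refine ci_ext fun t ht => ?_
  unfold ctC
  rw [ex_mul, Pool.Agent.Lib.MP_79abb3_an.FW.ex_rc _ _ ht, Pool.Agent.Lib.MP_79abb3_an.FW.ex_rc _ _ ht]
  rcases le_total b t with h | h
  · rw [ctf_zero h1 h, Complex.ofReal_zero, zero_mul]
  · rw [ctf_one h3 (h.trans h2), Complex.ofReal_one, mul_one]

private theorem fgc3_sq {x b t : ℝ} (hx : 0 ≤ x) (h : x ≤ b + t) : x ^ 2 ≤ 2 * b ^ 2 + 2 * t ^ 2 := by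
  have h1 : x ^ 2 ≤ (b + t) ^ 2 := pow_le_pow_left₀ hx h 2
  nlinarith [sq_nonneg (b - t)]

/-- the velocity near the wall -/
private theorem fgc3_W {N : ℕ} {ω α : ℝ} (hN : 1 ≤ N) (hm : 1 ≤ ω * N) (hα : 0 ≤ α) (hA : α ≤ FW.A0 (ω * N)) (g : HP)
    {w : ℤ → CI Real.pi} (hw : ∀ n, ctC (zl (ω * N) / 2) (zl (ω * N)) * w n =
      ctC (zl (ω * N) / 2) (zl (ω * N)) * (cellW (ω * N) N α n + wV ω (Vf ω (⇑g)) n)) :
    (Summable fun n => ‖(iota (ctC (zl (ω * N) / 2) (zl (ω * N)) * w n) : Z2 Real.pi)‖ ^ 2) ∧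
      ∑' n, ‖(iota (ctC (zl (ω * N) / 2) (zl (ω * N)) * w n) : Z2 Real.pi)‖ ^ 2 ≤
        ((256 * √Real.pi + 2) * (1 + ‖SC.TT ω g‖)) ^ 2 := by
  have hz0 : 0 < zl (ω * N) := (fgc3_zl hm le_rfl).1
  obtain ⟨z, hz⟩ : ∃ z, z = zl (ω * N) := ⟨_, rfl⟩
  rw [← hz] at hw hz0 ⊢
  obtain ⟨β, hβ⟩ : ∃ β, β = 128 * √Real.pi := ⟨_, rfl⟩
  have hβ0 : 0 ≤ β := by rw [hβ]; positivity
  obtain ⟨b, hb⟩ : ∃ b : ℤ → ℝ, b = fun n : ℤ => if n = (N : ℤ) ∨ n = -(N : ℤ) then β else 0 := ⟨_, rfl⟩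
  have hb0 : ∀ n, 0 ≤ b n := by
    intro n
    rw [hb]
    show 0 ≤ if n = (N : ℤ) ∨ n = -(N : ℤ) then β else 0
    split_ifs
    · exact hβ0
    · exact le_rfl
  have hbz : ∀ n ∉ ({(N:ℤ), -(N:ℤ)} : Finset ℤ), b n ^ 2 = 0 := by
    intro n hn
    rw [Finset.mem_insert, Finset.mem_singleton] at hn
    have h1 : b n = 0 := by rw [hb]; exact if_neg hn
    rw [h1]
    norm_num
  have hbs : Summable fun n => b n ^ 2 := summable_of_ne_finset_zero (s := ({(N:ℤ), -(N:ℤ)} : Finset ℤ)) hbz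
  have hne : (N : ℤ) ≠ -(N : ℤ) := by omega
  have hbt : ∑' n, b n ^ 2 = 2 * β ^ 2 := by
    rw [tsum_eq_sum (s := ({(N:ℤ), -(N:ℤ)} : Finset ℤ)) hbz, Finset.sum_pair hne, hb]
    show (if (N:ℤ) = N ∨ (N:ℤ) = -N then β else 0) ^ 2 + (if -(N:ℤ) = N ∨ -(N:ℤ) = -N then β else 0) ^ 2 = 2 * β ^ 2
    rw [if_pos (Or.inl rfl), if_pos (Or.inr rfl)]
    ring
  have hc : ∀ n, ‖(iota (ctC (z / 2) z * cellW (ω * N) N α n) : Z2 Real.pi)‖ ≤ b n := by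
    intro n
    by_cases hn : n = (N : ℤ) ∨ n = -(N : ℤ)
    · have h1 : b n = √Real.pi * 128 := by
        rw [hb]
        exact (if_pos hn).trans (hβ.trans (mul_comm _ _))
      rw [h1]
      refine (norm_iota_le _).trans (mul_le_mul_of_nonneg_left ?_ (Real.sqrt_nonneg _))
      refine ci_norm_le (by norm_num) fun t ht => ?_
      rw [ex_mul, norm_mul]
      unfold ctC
      rw [Pool.Agent.Lib.MP_79abb3_an.FW.ex_rc _ _ ht, Complex.norm_real, Real.norm_eq_abs]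
      rcases le_total z t with h | h
      · rw [ctf_zero (by linarith) h, abs_zero, zero_mul]
        norm_num
      · have h2 := cellW_le (m := ω * N) hα N n ht
        have h3 := fgc3_ch hm hα hA ht.1 (h.trans hz.le)
        have h4 := fgc3_ctf01 (z / 2) z t
        calc |ctf (z / 2) z t| * ‖ex (cellW (ω * N) N α n : CI Real.pi) t‖ ≤ 1 * 128 :=
              mul_le_mul h4 (by linarith) (norm_nonneg _) zero_le_one
          _ = 128 := by norm_num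
    · have h0 : (cellW (ω * N) N α n : CI Real.pi) = 0 := by
        rw [not_or] at hn
        exact cellW_zero hn.1 hn.2
      rw [h0, mul_zero, map_zero, norm_zero]
      exact hb0 n
  have hv : ∀ n, ‖(iota (ctC (z / 2) z * wV ω (Vf ω (⇑g)) n) : Z2 Real.pi)‖ ≤ ‖SC.TT ω g n‖ := by
    intro n
    rw [← mz_iota]
    have h0 : (io (Vf ω (⇑g)) n : Z2 Real.pi) = SC.TT ω g n := congrFun (io_Vf ω g) n
    have h1 : ‖(iota (wV ω (Vf ω (⇑g)) n) : Z2 Real.pi)‖ ≤ 1 * ‖SC.TT ω g n‖ := by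
      rw [← h0]
      exact norm_iwV_le ω (Vf ω (⇑g)) n
    have h2 := fgc3_ctC1 (z / 2) z
    refine (norm_mz_apply_le _ _).trans ?_
    calc ‖(ctC (z / 2) z : CI Real.pi)‖ * ‖(iota (wV ω (Vf ω (⇑g)) n) : Z2 Real.pi)‖
        ≤ 1 * (1 * ‖SC.TT ω g n‖) := mul_le_mul h2 h1 (norm_nonneg _) zero_le_one
      _ = _ := by ring
  have key : ∀ n, ‖(iota (ctC (z / 2) z * w n) : Z2 Real.pi)‖ ^ 2 ≤ 2 * b n ^ 2 + 2 * ‖SC.TT ω g n‖ ^ 2 := by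
    intro n
    refine fgc3_sq (norm_nonneg _) ?_
    rw [hw, mul_add, map_add]
    exact (norm_add_le _ _).trans (add_le_add (hc n) (hv n))
  have s1 : Summable fun n => 2 * b n ^ 2 + 2 * ‖SC.TT ω g n‖ ^ 2 :=
    (hbs.mul_left 2).add ((l2_summable (SC.TT ω g)).mul_left 2)
  have s2 : Summable fun n => ‖(iota (ctC (z / 2) z * w n) : Z2 Real.pi)‖ ^ 2 :=
    Summable.of_nonneg_of_le (fun n => sq_nonneg _) key s1
  refine ⟨s2, (s2.tsum_le_tsum key s1).trans ?_⟩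
  rw [Summable.tsum_add (hbs.mul_left 2) ((l2_summable (SC.TT ω g)).mul_left 2), tsum_mul_left,
    tsum_mul_left, hbt, ← l2_norm_sq]
  have hT : 0 ≤ ‖SC.TT ω g‖ := norm_nonneg _
  have e1 : 256 * √Real.pi = 2 * β := by rw [hβ]; ring
  rw [e1]
  generalize ‖SC.TT ω g‖ = T at hT ⊢
  nlinarith [mul_nonneg hβ0 hT, mul_nonneg (mul_nonneg hβ0 hT) hT, mul_nonneg (mul_nonneg hβ0 hβ0) hT,
    mul_nonneg (mul_nonneg (mul_nonneg hβ0 hβ0) hT) hT, mul_nonneg (mul_nonneg (mul_nonneg hβ0 hT) hT) hT]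

private theorem fgc3_tw1 (z : ℝ) : (tw1 z : HP) 0 = iota (-ctC1 (z / 4) (z / 2)) ∧
    ∀ n : ℤ, n ≠ 0 → (tw1 z : HP) n = 0 := by
  have hc : Continuous fun t : ℝ => -deriv (ctf (z / 4) (z / 2)) t :=
    ((ctf_smooth (z / 4) (z / 2)).continuous_deriv (by simp)).neg
  have hPY : PY Real.pi (fun q : ℝ × ℝ => -deriv (ctf (z / 4) (z / 2)) q.2) :=
    PY.of_z Real.pi (g := fun t => -deriv (ctf (z / 4) (z / 2)) t) (ctf_smooth1 (z / 4) (z / 2)).neg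
  have h1 : tw1 z = fH hPY := fHc_ofPY hPY
  have h2 : ∀ n : ℤ, tw1 z n = iota (if n = 0 then rc (fun t : ℝ => -deriv (ctf (z / 4) (z / 2)) t) hc else 0) := by
    intro n
    rw [h1, fH_apply, ← fam_z hc n]
  constructor
  · rw [h2 0, if_pos rfl]
    congr 1
    refine ci_ext fun t ht => ?_
    unfold ctC1
    rw [ex_neg, Pool.Agent.Lib.MP_79abb3_an.FW.ex_rc _ _ ht, Pool.Agent.Lib.MP_79abb3_an.FW.ex_rc _ _ ht]
    push_cast
    rfl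
  · intro n hn
    rw [h2 n, if_neg hn, map_zero]

private theorem fgc3_hh {z c c' : ℝ} (hz : 0 < z) (h1 : z / 2 ≤ c) (h2 : c < c') :
    (-ctC1 (z / 4) (z / 2)) * ctC (z / 2) z * ctC c c' = (-ctC1 (z / 4) (z / 2) : CI Real.pi) := by
  refine ci_ext fun t ht => ?_
  unfold ctC1 ctC
  rw [ex_mul, ex_mul, ex_neg, Pool.Agent.Lib.MP_79abb3_an.FW.ex_rc _ _ ht,
    Pool.Agent.Lib.MP_79abb3_an.FW.ex_rc _ _ ht, Pool.Agent.Lib.MP_79abb3_an.FW.ex_rc _ _ ht]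
  rcases le_or_gt t (z / 2) with h | h
  · rw [ctf_one (by linarith) h, ctf_one h2 (h.trans h1), Complex.ofReal_one, mul_one, mul_one]
  · have h3 : deriv (ctf (z / 4) (z / 2)) t = 0 := by
      have h4 : ctf (z / 4) (z / 2) =ᶠ[𝓝 t] fun _ => 0 := by
        filter_upwards [Ioi_mem_nhds h] with s hs
        exact ctf_zero (by linarith) (le_of_lt hs)
      rw [h4.deriv_eq]
      exact deriv_const _ _
    rw [h3, Complex.ofReal_zero, neg_zero, zero_mul, zero_mul]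

/-- The velocity near the wall: for `z ≤ z₁` the cell flow is bounded (`A₀ sinh (N z₁) ≤ C`), so
`|dp (tw1 z) (pz (ζ a p) w)| ≤ C z^{-1} |p|_{z' ≤ z/2} (1 + |T ht|)`: the function `θ~'` has one mode, `Ms e (tw1) = tw1`; Cauchy and
Schwarz in `HP`: `|⟨θ~' , p w⟩| ≤ sup |θ~'| |a p| |io w|`, `w = cellW + wV (Vf ht)` on `supp ζ` (`vel` with `g = 0`). -/
theorem dp_wall : ∃ C : ℝ, 0 ≤ C ∧ ∀ {m : ℕ} (_ : 1 ≤ m) (j : Fin F.n) {a : ℝ} (_ : 0 ≤ a) (_ : a ≤ F.A0 m)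
    (_ : F.z1 m j ≤ 1) (_ : F.z1 m j ≤ 4 * F.u) (v : VD D) (p : HP),
    ‖dp (⇑(tw1 (F.z1 m j))) (pz (⇑(Ms (F.G j).ζ (SC.cm (F.G j).a p))) (wV (F.G j).ω (Vf (F.G j).ω (⇑(F.Ga j v)))))‖ ≤
      C * F.z1 m j ^ (-1 : ℝ) * ‖Ms (ctC (2 * F.u) (4 * F.u)) p‖ *
        (1 + ‖SC.TT (F.G j).ω (F.ht m j a v)‖) := by
  have hu := F.u0
  obtain ⟨M, hM0, hM⟩ := fgc3_st
  obtain ⟨B, hB⟩ : ∃ B : ℝ, B = ∑ j, ∑' n, ‖(F.G j).a n‖ := ⟨_, rfl⟩
  have hBj : ∀ j, ∑' n, ‖(F.G j).a n‖ ≤ B := fun j => by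
    rw [hB]
    exact Finset.single_le_sum (f := fun j => ∑' n, ‖(F.G j).a n‖)
      (fun i _ => tsum_nonneg fun _ => norm_nonneg _) (Finset.mem_univ j)
  obtain ⟨E, hE⟩ : ∃ E : ℝ, E = 256 * √Real.pi + 2 := ⟨_, rfl⟩
  have hE0 : 0 ≤ E := by rw [hE]; positivity
  have hB0 : ∀ _ : Fin F.n, 0 ≤ B := fun j => (tsum_nonneg fun _ => norm_nonneg _).trans (hBj j)
  refine ⟨M * E * max B 0, by positivity, fun {m} hm j {a} ha haA hz1 hz4 v p => ?_⟩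
  obtain ⟨p1, p2, p3, p4, -, -, -, -⟩ := F.par hm j
  have hm1 : (1:ℝ) ≤ m := by exact_mod_cast hm
  have hk := (F.fgc3_k j).1
  have hz0 : 0 < F.z1 m j := (fgc3_zl (hm1.trans p2) le_rfl).1
  obtain ⟨g, hg⟩ : ∃ g, g = F.ht m j a v := ⟨_, rfl⟩
  have hw : ∀ n, ctC (F.z1 m j / 2) (F.z1 m j) * wV (F.G j).ω (Vf (F.G j).ω (⇑(F.Ga j v))) n =
      ctC (F.z1 m j / 2) (F.z1 m j) * (cellW ((F.G j).ω * F.N m j) (F.N m j) (F.k j * a) n +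
        wV (F.G j).ω (Vf (F.G j).ω (⇑g)) n) := by
    intro n
    have h1 : ctC (F.z1 m j / 2) (F.z1 m j) = ctC (F.z1 m j / 2) (F.z1 m j) * (F.G j).ζ := by
      rw [F.G_ζ j]
      exact (fgc3_ctCm (by linarith) (by linarith) (by linarith)).symm
    have h2 := (F.vel hm j a v 0 n).2
    have h3 : (F.G j).tw (F.N m j) (F.k j * a) (F.ht m j a v - 0) 0 n =
        cellW ((F.G j).ω * F.N m j) (F.N m j) (F.k j * a) n + wV (F.G j).ω (Vf (F.G j).ω (⇑g)) n := by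
      unfold Geo.tw
      rw [← wV_add', sub_add_cancel, hg]
    rw [h3] at h2
    rw [h1, mul_assoc, h2, mul_assoc]
  have hka : 0 ≤ (F.k j : ℝ) * a := mul_nonneg (by linarith) ha
  have hkA : (F.k j : ℝ) * a ≤ FW.A0 ((F.G j).ω * F.N m j) :=
    (mul_le_mul_of_nonneg_left haA (by linarith)).trans p4
  obtain ⟨w1, w2⟩ := fgc3_W p1 (hm1.trans p2) hka hkA g hw
  obtain ⟨t1, t2⟩ := fgc3_tw1 (F.z1 m j)
  have h1 := fgc3_dp (F.G j) t1 t2 (fgc3_ctCs (F.z1 m j / 2) (F.z1 m j)) (fgc3_ctCs (2 * F.u) (4 * F.u))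
    (fgc3_hh hz0 (by linarith) (by linarith)) (Ms (F.G j).ζ (SC.cm (F.G j).a p))
    ((F.G j).S2_huv (F.Ga j v)).2 (by positivity) w1 w2
  refine h1.trans ?_
  have h2 : ‖(-ctC1 (F.z1 m j / 4) (F.z1 m j / 2) : CI Real.pi)‖ ≤ M * F.z1 m j ^ (-1 : ℝ) := by
    rw [norm_neg]
    refine ci_norm_le (by positivity) fun t ht => ?_
    unfold ctC1
    rw [Pool.Agent.Lib.MP_79abb3_an.FW.ex_rc _ _ ht, Complex.norm_real, Real.norm_eq_abs]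
    exact hM _ hz0 t
  have h3 : ‖Ms (ctC (2 * F.u) (4 * F.u)) (Ms (F.G j).ζ (SC.cm (F.G j).a p))‖ ≤
      max B 0 * ‖Ms (ctC (2 * F.u) (4 * F.u)) p‖ := by
    rw [Ms_comm, MsCm (F.G j).ha.c.s0]
    have h4 : ‖(F.G j).ζ‖ ≤ 1 := by rw [F.G_ζ j]; exact fgc3_ctC1 _ _
    have h5 := norm_Ms_apply_le (F.G j).ζ (SC.cm (F.G j).a (Ms (ctC (2 * F.u) (4 * F.u)) p))
    have h6 := norm_cm_apply_le (F.G j).ha.c.s0 (Ms (ctC (2 * F.u) (4 * F.u)) p)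
    have h7 : ‖(F.G j).ζ‖ * ‖SC.cm (F.G j).a (Ms (ctC (2 * F.u) (4 * F.u)) p)‖ ≤
        1 * ‖SC.cm (F.G j).a (Ms (ctC (2 * F.u) (4 * F.u)) p)‖ := mul_le_mul_of_nonneg_right h4 (norm_nonneg _)
    have h8 : (∑' n, ‖(F.G j).a n‖) * ‖Ms (ctC (2 * F.u) (4 * F.u)) p‖ ≤
        max B 0 * ‖Ms (ctC (2 * F.u) (4 * F.u)) p‖ :=
      mul_le_mul_of_nonneg_right ((hBj j).trans (le_max_left _ _)) (norm_nonneg _)
    linarith
  rw [← hE, ← hg]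
  have hT : 0 ≤ ‖SC.TT (F.G j).ω g‖ := norm_nonneg _
  generalize ‖SC.TT (F.G j).ω g‖ = T at hT ⊢
  generalize hq : ‖Ms (ctC (2 * F.u) (4 * F.u)) (Ms (F.G j).ζ (SC.cm (F.G j).a p))‖ = q at h3 ⊢
  have hq0 : 0 ≤ q := by rw [← hq]; exact norm_nonneg _
  generalize hr : ‖Ms (ctC (2 * F.u) (4 * F.u)) p‖ = r at h3 ⊢
  have hET : 0 ≤ E * (1 + T) := by positivity
  have h9 : E * (1 + T) * q ≤ E * (1 + T) * (max B 0 * r) := mul_le_mul_of_nonneg_left h3 hET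
  calc _ ≤ M * F.z1 m j ^ (-1 : ℝ) * (E * (1 + T) * (max B 0 * r)) :=
        mul_le_mul h2 h9 (mul_nonneg hET hq0) (by positivity)
    _ = _ := by ring

/-! ### Circulations -/

private theorem fgc3_d0 {a b t : ℝ} (h : a < b) (ht : t ≤ a) : deriv (ctf a b) t = 0 := by
  have h1 : IsLocalMax (ctf a b) t := Eventually.of_forall fun s => by
    rw [ctf_one h ht]
    exact (le_abs_self _).trans (fgc3_ctf01 a b s)
  exact h1.deriv_eq_zero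

private theorem fgc3_z {g : ℝ → ℝ} (hg : ContDiff ℝ ((⊤ : ℕ∞) : WithTop ℕ∞) g) (n : ℤ) :
    (fHc (fun q : ℝ × ℝ => ((g q.2 : ℝ) : ℂ)) : HP) n = iota (if n = 0 then rc g hg.continuous else 0) := by
  have hPY : PY Real.pi (fun q : ℝ × ℝ => g q.2) := PY.of_z Real.pi hg
  have h1 : (fHc (fun q : ℝ × ℝ => ((g q.2 : ℝ) : ℂ)) : HP) = fH hPY := fHc_ofPY hPY
  rw [h1, fH_apply, ← fam_z hg.continuous n]

private theorem fgc3_on1 (n : ℤ) : (on1 : HP) n = iota (if n = 0 then rc (fun _ => (1:ℝ)) continuous_const else 0) := by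
  have h1 : (on1 : HP) = fHc fun q : ℝ × ℝ => (((fun _ : ℝ => (1:ℝ)) q.2 : ℝ) : ℂ) := by
    unfold on1
    congr 1
  rw [h1]
  exact fgc3_z (g := fun _ => (1:ℝ)) contDiff_const n

private theorem fgc3_smt (z : ℝ) : ContDiff ℝ ((⊤ : ℕ∞) : WithTop ℕ∞) fun t => 1 - ctf (z / 4) (z / 2) t :=
  contDiff_const.sub (ctf_smooth _ _)

private theorem fgc3_Msx {x : HP} {h e' : CI Real.pi} (hx0 : x 0 = iota h) (hxn : ∀ n : ℤ, n ≠ 0 → x n = 0)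
    (hh : e' * h = h) : Ms e' x = x := by
  refine lp.ext (funext fun n => ?_)
  rw [Ms_apply]
  by_cases hn : n = 0
  · rw [hn, hx0, mz_iota, hh]
  · rw [hxn n hn, map_zero]

/-- support near the wall -/
private theorem fgc3_e {c c' : ℝ} (hc : c < c') {g : CI Real.pi} (h : ∀ t ∈ Icc (0:ℝ) Real.pi, c < t → ex g t = 0) :
    ctC c c' * g = g := by
  refine ci_ext fun t ht => ?_
  unfold ctC
  rw [ex_mul, Pool.Agent.Lib.MP_79abb3_an.FW.ex_rc _ _ ht]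
  rcases le_or_gt t c with h1 | h1
  · rw [ctf_one hc h1, Complex.ofReal_one, one_mul]
  · rw [h t ht h1, mul_zero]

private theorem fgc3_Ms_tw2 {z c c' : ℝ} (hz : 0 < z) (h1 : z / 2 ≤ c) (h2 : c < c') :
    Ms (ctC c c') (tw2 z) = tw2 z := by
  have hg : ContDiff ℝ ((⊤ : ℕ∞) : WithTop ℕ∞) fun t => -deriv (deriv (ctf (z / 4) (z / 2))) t :=
    (((contDiff_infty_iff_deriv (𝕜 := ℝ)).1 (ctf_smooth1 (z / 4) (z / 2))).2).neg
  refine fgc3_Msx (h := rc (fun t => -deriv (deriv (ctf (z / 4) (z / 2))) t) hg.continuous) ?_ ?_ ?_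
  · exact (fgc3_z hg 0).trans (by rw [if_pos rfl])
  · intro n hn
    exact (fgc3_z hg n).trans (by rw [if_neg hn, map_zero])
  · refine fgc3_e h2 fun t ht hct => ?_
    rw [Pool.Agent.Lib.MP_79abb3_an.FW.ex_rc _ _ ht]
    have h3 : deriv (ctf (z / 4) (z / 2)) =ᶠ[𝓝 t] fun _ => 0 := by
      filter_upwards [Ioi_mem_nhds (h1.trans_lt hct)] with s hs
      have h4 : ctf (z / 4) (z / 2) =ᶠ[𝓝 s] fun _ => 0 := by
        filter_upwards [Ioi_mem_nhds hs] with r hr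
        exact ctf_zero (by linarith) (le_of_lt hr)
      rw [h4.deriv_eq]
      exact deriv_const _ _
    rw [h3.deriv_eq, deriv_const, neg_zero, Complex.ofReal_zero]

private theorem fgc3_Ms_tw {z c c' : ℝ} (hz : 0 < z) (h1 : z / 2 ≤ c) (h2 : c < c') :
    Ms (ctC c c') (on1 - tw z) = on1 - tw z := by
  have hg := fgc3_smt z
  refine fgc3_Msx (h := rc (fun _ => (1:ℝ)) continuous_const - rc (fun t => 1 - ctf (z / 4) (z / 2) t) hg.continuous) ?_ ?_ ?_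
  · have e1 : (on1 : HP) 0 = iota (rc (fun _ => (1:ℝ)) continuous_const) := by
      rw [fgc3_on1, if_pos rfl]
    have e2 : (tw z : HP) 0 = iota (rc (fun t => 1 - ctf (z / 4) (z / 2) t) hg.continuous) :=
      (fgc3_z hg 0).trans (by rw [if_pos rfl])
    rw [lp.coeFn_sub, Pi.sub_apply, e1, e2, map_sub]
  · intro n hn
    have e1 : (on1 : HP) n = 0 := by rw [fgc3_on1, if_neg hn, map_zero]
    have e2 : (tw z : HP) n = 0 := (fgc3_z hg n).trans (by rw [if_neg hn, map_zero])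
    rw [lp.coeFn_sub, Pi.sub_apply, e1, e2, sub_zero]
  · refine fgc3_e h2 fun t ht hct => ?_
    rw [ex_sub, Pool.Agent.Lib.MP_79abb3_an.FW.ex_rc _ _ ht, Pool.Agent.Lib.MP_79abb3_an.FW.ex_rc _ _ ht,
      ctf_zero (by linarith) (h1.trans hct.le), sub_zero, sub_self]

private theorem fgc3_TTη (ω a b : ℝ) (g : HP) :
    ‖SC.TT ω (Ms (ctC a b) g)‖ ≤ (1 + Real.pi * ‖(ctC1 a b : CI Real.pi)‖) * ‖SC.TT ω g‖ := by
  have e1 : SC.TT ω (Ms (ctC a b) g) = Ms (ctC a b) (SC.TT ω g) + SC.TT ω (Ms (ctC1 a b) (SC.TT ω g)) := by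
    refine lp.ext (funext fun n => ?_)
    have h1 := T2_mul (ω * n) (rc_isD (H := Real.pi) (ctf_smooth a b)) (g n)
    rw [map_sub, sub_eq_iff_eq_add] at h1
    rw [lp.coeFn_add, Pi.add_apply, SC.TT_apply, Ms_apply, SC.TT_apply, Ms_apply, Ms_apply, SC.TT_apply]
    exact h1
  have h2 := norm_Ms_apply_le (ctC a b) (SC.TT ω g)
  have h3 : ‖SC.TT ω (Ms (ctC1 a b) (SC.TT ω g))‖ ≤ Real.pi * ‖Ms (ctC1 a b) (SC.TT ω g)‖ :=
    (SC.TT ω).le_of_opNorm_le (SC.norm_TT_le ω) _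
  have h4 := norm_Ms_apply_le (ctC1 a b) (SC.TT ω g)
  have h5 := mul_le_mul_of_nonneg_left h4 Real.pi_pos.le
  have h6 := mul_le_mul_of_nonneg_right (fgc3_ctC1 a b) (norm_nonneg (SC.TT ω g))
  rw [e1]
  have h7 := norm_add_le (Ms (ctC a b) (SC.TT ω g)) (SC.TT ω (Ms (ctC1 a b) (SC.TT ω g)))
  linarith

/-- the layer near the wall -/
private theorem fgc3_near {m : ℕ} (hm : 1 ≤ m) (j : Fin F.n) {A : ℝ → ℝ} {v : ℝ → VD D} {mu : ℝ → ℝ}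
    {p : Fin F.n → ℝ → HP} {R s : ℝ} (h : ‖F.ov m A v mu p s‖ ≤ R) :
    ‖Ms (ctC (2 * F.u) (4 * F.u)) (p j s)‖ ≤ ‖F.Be j‖ * R := by
  have hu := F.u0
  have h1 : Ms (ctC (2 * F.u) (4 * F.u)) (p j s) =
      Ms (ctC (2 * F.u) (4 * F.u)) (F.Be j (F.ov m A v mu p s)) := by
    refine p_near hm j (fun z hz hz' => ?_) s
    unfold ctC
    rw [Pool.Agent.Lib.MP_79abb3_an.FW.ex_rc _ _ hz, ctf_zero (by linarith) hz', Complex.ofReal_zero]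
  rw [h1]
  have h2 := norm_Ms_apply_le (ctC (2 * F.u) (4 * F.u)) (F.Be j (F.ov m A v mu p s))
  have h3 := mul_le_mul_of_nonneg_right (fgc3_ctC1 (2 * F.u) (4 * F.u))
    (norm_nonneg (F.Be j (F.ov m A v mu p s)))
  have h4 := (F.Be j).le_opNorm (F.ov m A v mu p s)
  have h5 := mul_le_mul_of_nonneg_left h (norm_nonneg (F.Be j))
  linarith

private theorem fgc3_sq1 {x R : ℝ} (h : x ^ 2 ≤ R) : x ≤ 1 + R := by
  nlinarith [sq_nonneg (x - 1)]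

private theorem fgc3_inn {x y : HP} {a b : ℝ} (hx : ‖x‖ ≤ a) (hy : ‖y‖ ≤ b) : ‖⟪x, y⟫_ℂ‖ ≤ a * b :=
  (norm_inner_le_norm x y).trans (mul_le_mul hx hy (norm_nonneg _) ((norm_nonneg _).trans hx))

private theorem fgc3_TT (G : Geo Real.pi) (g : HP) : ‖SC.TT G.ω g‖ ≤ ‖LT G.ω G.lam (3 / 8) g‖ := by
  have h := G.lamOK
  refine (sq_le_sq₀ (norm_nonneg _) (norm_nonneg _)).1 ?_
  rw [l2_norm_sq, l2_norm_sq]
  refine (l2_summable _).tsum_le_tsum (fun n => ?_) (l2_summable _)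
  rw [h.LT_apply (by norm_num), norm_smul, Complex.norm_real,
    Real.norm_of_nonneg (Real.rpow_nonneg (by linarith [h.one n]) _), SC.TT_apply, mul_pow]
  have h1 : 1 ≤ G.lam n ^ (3 / 8 : ℝ) := Real.one_le_rpow (h.one n) (by norm_num)
  exact le_mul_of_one_le_left (sq_nonneg _) (one_le_pow₀ h1)

private theorem fgc3_Tht (j : Fin F.n) {m : ℕ} {R : ℝ} {A : ℝ → ℝ} {v : ℝ → VD D} {p : Fin F.n → ℝ → HP} {s : ℝ}
    (h1 : ‖F.hh m A v p j s‖ ≤ R) (h2 : ‖LT (F.G j).ω (F.G j).lam (3 / 8) (F.gg m A v p j s)‖ ≤ 1) :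
    ‖SC.TT (F.G j).ω (F.ht m j (A s) (v s))‖ ≤
      Real.pi * R + (1 + Real.pi * ‖(ctC1 (4 * F.u) (8 * F.u) : CI Real.pi)‖) := by
  have e1 : F.ht m j (A s) (v s) = F.hh m A v p j s + Ms (ctC (4 * F.u) (8 * F.u)) (F.gg m A v p j s) := by
    unfold hh
    rw [sub_add_cancel]
  have h3 := fgc3_TTη (F.G j).ω (4 * F.u) (8 * F.u) (F.gg m A v p j s)
  have h4 : ‖SC.TT (F.G j).ω (F.gg m A v p j s)‖ ≤ 1 := (fgc3_TT (F.G j) _).trans h2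
  have h5 : ‖SC.TT (F.G j).ω (F.hh m A v p j s)‖ ≤ Real.pi * ‖F.hh m A v p j s‖ :=
    (SC.TT (F.G j).ω).le_of_opNorm_le (SC.norm_TT_le (F.G j).ω) _
  have h6 := mul_le_mul_of_nonneg_left h1 Real.pi_pos.le
  have h7 : 0 ≤ 1 + Real.pi * ‖(ctC1 (4 * F.u) (8 * F.u) : CI Real.pi)‖ :=
    add_nonneg zero_le_one (mul_nonneg Real.pi_pos.le (norm_nonneg _))
  have h8 := mul_le_mul_of_nonneg_left h4 h7
  rw [e1, map_add]
  have h9 := norm_add_le (SC.TT (F.G j).ω (F.hh m A v p j s))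
    (SC.TT (F.G j).ω (Ms (ctC (4 * F.u) (8 * F.u)) (F.gg m A v p j s)))
  linarith

private theorem fgc3_ar {C1 C2 B P Tb R z1 z2 : ℝ} (hC1 : 0 ≤ C1) (hC2 : 0 ≤ C2) (hP : 0 ≤ P)
    (hT : 0 ≤ Tb) (hR : 0 ≤ R) (hz : z1 ≤ z2) :
    C2 * z2 * (B * P) + C1 * z1 * P * (1 + Tb) + C2 * z1 * (1 + R) ≤
      (C2 * (B * P) + C1 * P * (1 + Tb) + C2 * (1 + R)) * z2 := by
  have h1 : 0 ≤ C1 * P * (1 + Tb) + C2 * (1 + R) := by positivity
  have h2 := mul_le_mul_of_nonneg_left hz h1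
  nlinarith

private theorem fgc3_I (j : Fin F.n) {R : ℝ} (hR : 0 ≤ R) : ∃ K : ℝ, 0 ≤ K ∧ ∀ {m : ℕ} (_ : 1 ≤ m)
    (_ : F.z1 m j ≤ 1) (_ : F.z1 m j ≤ 4 * F.u) {A : ℝ → ℝ} {v : ℝ → VD D} {mu : ℝ → ℝ}
    {p : Fin F.n → ℝ → HP} {s : ℝ} (_ : 0 ≤ A s) (_ : A s ≤ F.A0 m)
    (_ : ‖F.ov m A v mu p s‖ ≤ R) (_ : ‖F.hh m A v p j s‖ ≤ R)
    (_ : ‖LT (F.G j).ω (F.G j).lam (3 / 8) (F.gg m A v p j s)‖ ≤ 1)
    (_ : StB (F.G j) (F.N m j) R 1 (fun t => F.k j * A t) (F.gg m A v p j) s),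
    ‖-⟪tw2 (F.z1 m j), SC.cm (F.G j).a (p j s)⟫_ℂ -
        dp (⇑(tw1 (F.z1 m j))) (pz (⇑(Ms (F.G j).ζ (SC.cm (F.G j).a (p j s))))
          (wV (F.G j).ω (Vf (F.G j).ω (⇑(F.Ga j (v s)))))) -
        ⟪tw1 (F.z1 m j), Ms (F.kp m j (A s)) (SC.TT (F.G j).ω (F.gg m A v p j s))⟫_ℂ‖ ≤
      K * F.z1 m j ^ (-2 : ℝ) := by
  have hu := F.u0
  obtain ⟨C1, hC1, hd⟩ := F.dp_wall
  obtain ⟨C2, hC2, ht⟩ := tw_bd
  obtain ⟨B, hB⟩ : ∃ B : ℝ, B = ∑' n, ‖(F.G j).a n‖ := ⟨_, rfl⟩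
  have hB0 : 0 ≤ B := by rw [hB]; exact tsum_nonneg fun _ => norm_nonneg _
  obtain ⟨P, hP⟩ : ∃ P : ℝ, P = ‖F.Be j‖ * R := ⟨_, rfl⟩
  have hP0 : 0 ≤ P := by rw [hP]; exact mul_nonneg (norm_nonneg (F.Be j)) hR
  obtain ⟨Tb, hTb⟩ : ∃ Tb : ℝ, Tb = Real.pi * R + (1 + Real.pi * ‖(ctC1 (4 * F.u) (8 * F.u) : CI Real.pi)‖) :=
    ⟨_, rfl⟩
  have hTb0 : 0 ≤ Tb := by
    rw [hTb]
    exact add_nonneg (mul_nonneg Real.pi_pos.le hR)
      (add_nonneg zero_le_one (mul_nonneg Real.pi_pos.le (norm_nonneg _)))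
  refine ⟨C2 * (B * P) + C1 * P * (1 + Tb) + C2 * (1 + R), by positivity, ?_⟩
  intro m hm hz1 hz4 A v mu p s hA0 hA hov hhh hg hst
  have hm1 : (1:ℝ) ≤ m := by exact_mod_cast hm
  have hz0 : 0 < F.z1 m j := (fgc3_zl (hm1.trans (F.par hm j).2.1) le_rfl).1
  obtain ⟨t2, t1, -, -⟩ := ht (F.z1 m j) hz0 hz1
  have hn : ‖Ms (ctC (2 * F.u) (4 * F.u)) (p j s)‖ ≤ P := by
    rw [hP]; exact F.fgc3_near hm j hov
  -- the three terms
  have b1 : ‖⟪tw2 (F.z1 m j), SC.cm (F.G j).a (p j s)⟫_ℂ‖ ≤ C2 * F.z1 m j ^ (-2 : ℝ) * (B * P) := by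
    rw [← fgc3_Ms_tw2 (c := 2 * F.u) (c' := 4 * F.u) hz0 (by linarith) (by linarith),
      innerMs (fgc3_ctCs _ _), MsCm (F.G j).ha.c.s0]
    refine fgc3_inn t2 ?_
    refine (norm_cm_apply_le (F.G j).ha.c.s0 _).trans ?_
    rw [← hB]
    exact mul_le_mul_of_nonneg_left hn hB0
  have b2 : ‖dp (⇑(tw1 (F.z1 m j))) (pz (⇑(Ms (F.G j).ζ (SC.cm (F.G j).a (p j s))))
      (wV (F.G j).ω (Vf (F.G j).ω (⇑(F.Ga j (v s))))))‖ ≤ C1 * F.z1 m j ^ (-1 : ℝ) * P * (1 + Tb) := by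
    refine (hd hm j hA0 hA hz1 hz4 (v s) (p j s)).trans ?_
    have h1 : ‖SC.TT (F.G j).ω (F.ht m j (A s) (v s))‖ ≤ Tb := by
      rw [hTb]; exact F.fgc3_Tht j hhh hg
    have h2 : 0 ≤ C1 * F.z1 m j ^ (-1 : ℝ) := mul_nonneg hC1 (Real.rpow_nonneg hz0.le _)
    have h3 := mul_le_mul_of_nonneg_left hn h2
    have h4 : 1 + ‖SC.TT (F.G j).ω (F.ht m j (A s) (v s))‖ ≤ 1 + Tb := by linarith
    exact mul_le_mul h3 h4 (add_nonneg zero_le_one (norm_nonneg _)) (mul_nonneg h2 hP0)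
  have b3 : ‖⟪tw1 (F.z1 m j), Ms (F.kp m j (A s)) (SC.TT (F.G j).ω (F.gg m A v p j s))⟫_ℂ‖ ≤
      C2 * F.z1 m j ^ (-1 : ℝ) * (1 + R) := by
    refine fgc3_inn t1 (fgc3_sq1 ?_)
    have h1 : ‖Ms (F.kp m j (A s)) (SC.TT (F.G j).ω (F.gg m A v p j s))‖ ^ 2 ≤
        R * Real.exp (-√((F.G j).ω * F.N m j)) := hst.k1
    have h2 : Real.exp (-√((F.G j).ω * F.N m j)) ≤ 1 := by
      rw [← Real.exp_zero]
      exact Real.exp_le_exp.2 (neg_nonpos.2 (Real.sqrt_nonneg _))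
    have h3 := mul_le_mul_of_nonneg_left h2 hR
    linarith
  have hz12 : F.z1 m j ^ (-1 : ℝ) ≤ F.z1 m j ^ (-2 : ℝ) :=
    Real.rpow_le_rpow_of_exponent_ge hz0 hz1 (by norm_num)
  refine le_trans ?_ (fgc3_ar hC1 hC2 hP0 hTb0 hR hz12)
  refine (norm_sub_le _ _).trans (add_le_add ((norm_sub_le _ _).trans (add_le_add ?_ b2)) b3)
  rw [norm_neg]
  exact b1

private theorem fgc3_Q {z C : ℝ} (h3 : ‖on1 - tw z‖ ≤ C * z ^ (1 / 2 : ℝ))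
    (h4 : ‖Ms (ctC (z / 2) z) on1‖ ≤ C * z ^ (1 / 2 : ℝ)) (x : HP) :
    ‖⟪on1, x⟫_ℂ - ⟪tw z, x - Ms (ctC (z / 2) z) x⟫_ℂ‖ ≤ 3 * (C * z ^ (1 / 2 : ℝ)) * ‖x‖ := by
  have e1 : ⟪on1, x⟫_ℂ - ⟪tw z, x - Ms (ctC (z / 2) z) x⟫_ℂ =
      ⟪on1 - tw z, x⟫_ℂ + (⟪Ms (ctC (z / 2) z) on1, x⟫_ℂ - ⟪Ms (ctC (z / 2) z) (on1 - tw z), x⟫_ℂ) := by
    rw [inner_sub_right, ← innerMs (fgc3_ctCs (z / 2) z), map_sub, inner_sub_left, inner_sub_left]
    ring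
  have h5 : ‖Ms (ctC (z / 2) z) (on1 - tw z)‖ ≤ C * z ^ (1 / 2 : ℝ) := by
    refine (norm_Ms_apply_le _ _).trans ?_
    have h6 := mul_le_mul_of_nonneg_right (fgc3_ctC1 (z / 2) z) (norm_nonneg (on1 - tw z : HP))
    linarith
  rw [e1]
  have a1 := fgc3_inn h3 (le_refl ‖x‖)
  have a2 := fgc3_inn h4 (le_refl ‖x‖)
  have a3 := fgc3_inn h5 (le_refl ‖x‖)
  have a4 := norm_add_le ⟪on1 - tw z, x⟫_ℂ
    (⟪Ms (ctC (z / 2) z) on1, x⟫_ℂ - ⟪Ms (ctC (z / 2) z) (on1 - tw z), x⟫_ℂ)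
  have a5 := norm_sub_le ⟪Ms (ctC (z / 2) z) on1, x⟫_ℂ ⟪Ms (ctC (z / 2) z) (on1 - tw z), x⟫_ℂ
  linarith

private theorem fgc3_exp2 {u x : ℝ} (hu : 0 < u) (hx : 1 ≤ x) (h : zl x ≤ u / 2) :
    Real.exp (-(4 * x * (4 * u)) + √x) ≤ 1 / (8 * u * x) := by
  have hx0 : 0 < x := by linarith
  obtain ⟨s, hs⟩ : ∃ s, s = √x := ⟨_, rfl⟩
  have hs0 : 0 < s := by rw [hs]; exact Real.sqrt_pos.2 hx0
  have hss : s * s = x := by rw [hs]; exact Real.mul_self_sqrt hx0.le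
  have h1 : 1 ≤ 8 * u * s := by
    unfold zl at h
    rw [← hs, div_le_iff₀ (by positivity)] at h
    linarith
  have h2 : s ≤ 8 * u * x := by
    have h3 := mul_le_mul_of_nonneg_left h1 hs0.le
    rw [← hss]
    linarith
  rw [← hs]
  have hy : 0 < 8 * u * x := by positivity
  have h4 : Real.exp (-(4 * x * (4 * u)) + s) ≤ Real.exp (-(8 * u * x)) := Real.exp_le_exp.2 (by linarith)
  refine h4.trans ?_
  rw [Real.exp_neg, ← one_div]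
  have h5 := Real.add_one_le_exp (8 * u * x)
  exact one_div_le_one_div_of_le hy (by linarith)

private theorem fgc3_ile {K a m z2 t : ℝ} (hK : 0 ≤ K) (hm : 1 ≤ m) (ha : m ≤ a) (hz2 : z2 ≤ 256 * a)
    (ht0 : 0 ≤ t) (ht : t ≤ 1 / (8 * a ^ 2)) : K * z2 * t ≤ 32 * K / m := by
  have hm0 : 0 < m := by linarith
  have ha0 : 0 < a := by linarith
  have h1 : z2 * t ≤ 256 * a * (1 / (8 * a ^ 2)) :=
    (mul_le_mul_of_nonneg_right hz2 ht0).trans (mul_le_mul_of_nonneg_left ht (by positivity))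
  have h2 : 256 * a * (1 / (8 * a ^ 2)) = 32 / a := by
    field_simp
    norm_num
  have h3 : 32 / a ≤ 32 / m := div_le_div_of_nonneg_left (by norm_num) hm0 ha
  calc K * z2 * t = K * (z2 * t) := by ring
    _ ≤ K * (32 / m) := mul_le_mul_of_nonneg_left (by linarith) hK
    _ = _ := by ring

private theorem fgc3_fin {S ε z : ℝ} (hS : 0 ≤ S) (hε : 0 < ε) (hz : z ≤ (ε / (3 * (S + 1))) ^ 2) :
    S * z ^ (1 / 2 : ℝ) ≤ ε / 3 := by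
  have h1 : 0 < 3 * (S + 1) := by linarith
  have h2 : z ^ (1 / 2 : ℝ) ≤ ε / (3 * (S + 1)) := by
    rw [← Real.sqrt_eq_rpow]
    refine (Real.sqrt_le_sqrt hz).trans (le_of_eq ?_)
    exact Real.sqrt_sq (by positivity)
  calc S * z ^ (1 / 2 : ℝ) ≤ S * (ε / (3 * (S + 1))) := mul_le_mul_of_nonneg_left h2 hS
    _ ≤ ε / 3 := by
        rw [mul_div_assoc', div_le_div_iff₀ h1 (by norm_num)]
        nlinarith

private theorem fgc3_sum {q0 i n f C X P w K L ε m u : ℝ} (hq : q0 ≤ 3 * (C * w) * X) (hi : i ≤ 32 * K / m)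
    (hn : n ≤ C * w * P) (hf : f ≤ L * (1 / (8 * u * m))) (h1 : (3 * C * X + C * P) * w ≤ ε / 3)
    (hm0 : 0 < m) (hu : 0 < u) (hε : 0 < ε) (h2 : 96 * K / ε ≤ m) (h3 : 3 * L / (8 * u * ε) ≤ m) :
    q0 + i + n + f ≤ ε := by
  have a1 : 32 * K / m ≤ ε / 3 := by
    rw [div_le_iff₀ hε] at h2
    rw [div_le_div_iff₀ hm0 (by norm_num)]
    linarith
  have a2 : L * (1 / (8 * u * m)) ≤ ε / 3 := by
    rw [div_le_iff₀ (by positivity)] at h3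
    rw [mul_one_div, div_le_div_iff₀ (by positivity) (by norm_num)]
    linarith
  linarith

private theorem fgc3_MM (j : Fin F.n) {Θ R : ℝ} (hΘ : 0 ≤ Θ) (hR : 0 ≤ R) {ε : ℝ} (hε : 0 < ε) :
    ∃ m₀ : ℕ, 1 ≤ m₀ ∧ ∀ m : ℕ, m₀ ≤ m →
    ∀ {A A' : ℝ → ℝ} {b lam : ℝ} {v₀ : VD D} {v : ℝ → VD D} {mu mu' : ℝ → ℝ} {p : Fin F.n → ℝ → HP}
    (_ : F.Fst m lam A A' b v₀ v mu mu' p) (_ : b ≤ F.bm m) (_ : ∀ t ∈ Icc 0 b, A t ≤ F.A0 m)
    (_ : ∀ j, p j 0 = F.p0 m v₀ j) (_ : ‖v₀‖ ≤ Θ) {t : ℝ} (_ : t ∈ Icc 0 b)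
    (_ : ∀ s ∈ Icc 0 t, ‖F.ov m A v mu p s‖ ≤ R ∧ ∀ j, ‖F.hh m A v p j s‖ ≤ R ∧
      ‖LT (F.G j).ω (F.G j).lam (3 / 8) (F.gg m A v p j s)‖ ≤ 1 ∧
      StB (F.G j) (F.N m j) R 1 (fun t => F.k j * A t) (F.gg m A v p j) s),
    ‖F.MM m A v p j t‖ ≤ ε := by
  have hu := F.u0
  obtain ⟨K, hK, hI⟩ := F.fgc3_I j hR
  obtain ⟨C, hC, ht⟩ := tw_bd
  obtain ⟨Cf, hCf, hfar⟩ := far_le (e := ctC1 (4 * F.u) (8 * F.u)) (c₁ := 4 * F.u) (by linarith)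
    (fun z hz hz4 => by
      unfold ctC1
      rw [Pool.Agent.Lib.MP_79abb3_an.FW.ex_rc _ _ hz, fgc3_d0 (by linarith) hz4, Complex.ofReal_zero])
  obtain ⟨X, hX⟩ : ∃ X : ℝ, X = ‖F.Ga j‖ * Θ := ⟨_, rfl⟩
  have hX0 : 0 ≤ X := by rw [hX]; exact mul_nonneg (norm_nonneg (F.Ga j)) hΘ
  obtain ⟨P, hP⟩ : ∃ P : ℝ, P = ‖F.Be j‖ * R := ⟨_, rfl⟩
  have hP0 : 0 ≤ P := by rw [hP]; exact mul_nonneg (norm_nonneg (F.Be j)) hR
  obtain ⟨L, hL⟩ : ∃ L : ℝ, L = ‖(on1 : HP)‖ * (Cf * (1 + R)) := ⟨_, rfl⟩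
  have hL0 : 0 ≤ L := by
    rw [hL]; exact mul_nonneg (norm_nonneg _) (mul_nonneg hCf (by linarith))
  have hS0 : 0 ≤ 3 * C * X + C * P := by positivity
  obtain ⟨δ, hδ⟩ : ∃ δ : ℝ, δ = min (min 1 (F.u / 2)) ((ε / (3 * (3 * C * X + C * P + 1))) ^ 2) := ⟨_, rfl⟩
  have hδ0 : 0 < δ := by
    rw [hδ]
    exact lt_min (lt_min one_pos (by linarith)) (by positivity)
  obtain ⟨m₁, hm₁, hz⟩ := F.z1_small hδ0
  obtain ⟨m₂, hm₂⟩ := exists_nat_ge (96 * K / ε)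
  obtain ⟨m₃, hm₃⟩ := exists_nat_ge (3 * L / (8 * F.u * ε))
  refine ⟨max m₁ (max m₂ m₃), hm₁.trans (le_max_left _ _), fun m hm A A' b lam v₀ v mu mu' p st hb hA hp hv t htb h => ?_⟩
  have hmm1 : m₁ ≤ m := (le_max_left _ _).trans hm
  have hmm2 : m₂ ≤ m := ((le_max_left _ _).trans (le_max_right _ _)).trans hm
  have hmm3 : m₃ ≤ m := ((le_max_right _ _).trans (le_max_right _ _)).trans hm
  have hm1 : (1:ℝ) ≤ m := by exact_mod_cast hm₁.trans hmm1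
  have hm2 : 96 * K / ε ≤ m := hm₂.trans (by exact_mod_cast hmm2)
  have hm3 : 3 * L / (8 * F.u * ε) ≤ m := hm₃.trans (by exact_mod_cast hmm3)
  have hm0 : (0:ℝ) < m := by linarith
  obtain ⟨p1, p2, p3, -, -, -, -, -⟩ := F.par st.m1 j
  obtain ⟨z0, zδ, z2⟩ := hz m hmm1 j
  have zd := zδ
  rw [hδ] at zd
  have zi1 : F.z1 m j ≤ 1 := zd.trans ((min_le_left _ _).trans (min_le_left _ _))
  have ziu : F.z1 m j ≤ F.u / 2 := zd.trans ((min_le_left _ _).trans (min_le_right _ _))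
  have zis := zd.trans (min_le_right _ _)
  have zi4 : F.z1 m j ≤ 4 * F.u := by linarith
  obtain ⟨-, -, t3, t4⟩ := ht (F.z1 m j) z0 zi1
  -- the equation
  have e1 := MM_QQ (F := F) (m := m) (A := A) (v := v) (p := p) j z0 zi4 t
  have e2 := st.QQ_eq (F.c0_int st.m1) j z0 zi4 zi1 le_rfl htb.1 htb.2
  -- initial value
  have b1 : ‖F.QQ m A v p j (F.z1 m j) 0‖ ≤ 3 * (C * F.z1 m j ^ (1 / 2 : ℝ)) * X := by
    have e3 : F.QQ m A v p j (F.z1 m j) 0 = ⟪on1, Ms (ctC (9 * F.u) (10 * F.u)) (F.Ga j v₀)⟫_ℂ -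
        ⟪tw (F.z1 m j), Ms (ctC (9 * F.u) (10 * F.u)) (F.Ga j v₀) -
          Ms (ctC (F.z1 m j / 2) (F.z1 m j)) (Ms (ctC (9 * F.u) (10 * F.u)) (F.Ga j v₀))⟫_ℂ := by
      show ⟪on1, Ms (ctC (9 * F.u) (10 * F.u)) (F.Ga j (v 0))⟫_ℂ - ⟪tw (F.z1 m j), p j 0⟫_ℂ = _
      rw [hp j, st.U.iv]
      rfl
    rw [e3]
    refine (fgc3_Q t3 t4 _).trans (mul_le_mul_of_nonneg_left ?_ (by positivity))
    have h1 := norm_Ms_apply_le (ctC (9 * F.u) (10 * F.u)) (F.Ga j v₀)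
    have h2 := mul_le_mul_of_nonneg_right (fgc3_ctC1 (9 * F.u) (10 * F.u)) (norm_nonneg (F.Ga j v₀))
    have h3 := (F.Ga j).le_opNorm v₀
    have h4 := mul_le_mul_of_nonneg_left hv (norm_nonneg (F.Ga j))
    rw [hX]
    linarith
  -- the integral
  have b2 : ‖F.QQ m A v p j (F.z1 m j) t - F.QQ m A v p j (F.z1 m j) 0‖ ≤ 32 * K / m := by
    rw [e2]
    have h1 : ∀ r ∈ uIoc (0:ℝ) t, ‖-⟪tw2 (F.z1 m j), SC.cm (F.G j).a (p j r)⟫_ℂ -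
        dp (⇑(tw1 (F.z1 m j))) (pz (⇑(Ms (F.G j).ζ (SC.cm (F.G j).a (p j r))))
          (wV (F.G j).ω (Vf (F.G j).ω (⇑(F.Ga j (v r)))))) -
        ⟪tw1 (F.z1 m j), Ms (F.kp m j (A r)) (SC.TT (F.G j).ω (F.gg m A v p j r))⟫_ℂ‖ ≤
        K * F.z1 m j ^ (-2 : ℝ) := by
      intro r hr
      rw [uIoc_of_le htb.1] at hr
      have hr1 : r ∈ Icc 0 t := ⟨hr.1.le, hr.2⟩
      have hr2 : r ∈ Icc 0 b := ⟨hr.1.le, hr.2.trans htb.2⟩
      obtain ⟨g1, g2⟩ := h r hr1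
      obtain ⟨g3, g4, g5⟩ := g2 j
      exact hI st.m1 zi1 zi4 (st.A0 r hr2) (hA r hr2) g1 g3 g4 g5
    refine (intervalIntegral.norm_integral_le_of_norm_le_const h1).trans ?_
    rw [sub_zero, abs_of_nonneg htb.1]
    refine fgc3_ile hK hm1 (p2.trans p3) z2 htb.1 ?_
    exact htb.2.trans hb
  -- near the wall
  have b3 : ‖⟪on1 - tw (F.z1 m j), p j t⟫_ℂ‖ ≤ C * F.z1 m j ^ (1 / 2 : ℝ) * P := by
    rw [← fgc3_Ms_tw (c := 2 * F.u) (c' := 4 * F.u) z0 (by linarith) (by linarith), innerMs (fgc3_ctCs _ _)]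
    refine fgc3_inn t3 ?_
    rw [hP]
    exact F.fgc3_near st.m1 j (h t ⟨htb.1, le_rfl⟩).1
  -- far from the wall
  have b4 : ‖⟪Ms (ctC1 (4 * F.u) (8 * F.u)) on1, SC.TT (F.G j).ω (F.gg m A v p j t)⟫_ℂ‖ ≤
      L * (1 / (8 * F.u * m)) := by
    have hs : star (ctC1 (4 * F.u) (8 * F.u) : CI Real.pi) = ctC1 (4 * F.u) (8 * F.u) := SC.star_rc _ _
    rw [innerMs hs]
    have he := ((h t ⟨htb.1, le_rfl⟩).2 j).2.2.e
    have h1 : ‖Ms (rc (tht (zl ((F.G j).ω * F.N m j)) (4 * ((F.G j).ω * F.N m j))) (tht_cont _ _))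
        (SC.TT (F.G j).ω (F.gg m A v p j t))‖ ≤ 1 + R := by
      refine fgc3_sq1 ?_
      have h2 : 0 ≤ ∫ r in (0:ℝ)..t, ‖Ms (rc (tht (zl ((F.G j).ω * F.N m j)) (4 * ((F.G j).ω * F.N m j)))
          (tht_cont _ _)) (F.gg m A v p j r)‖ ^ 2 :=
        intervalIntegral.integral_nonneg htb.1 fun _ _ => sq_nonneg _
      linarith
    have h3 : 1 / (8 * √((F.G j).ω * F.N m j)) ≤ 4 * F.u := by
      have h4 : 1 / (8 * √((F.G j).ω * F.N m j)) = 2 * F.z1 m j := by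
        have h5 : 0 < √((F.G j).ω * F.N m j) := Real.sqrt_pos.2 (by linarith)
        unfold z1 zl
        field_simp
        norm_num
      linarith
    have h6 := hfar ((F.G j).ω * F.N m j) (hm1.trans p2) h3 (SC.TT (F.G j).ω (F.gg m A v p j t))
    have h7 : Real.exp (-(4 * ((F.G j).ω * F.N m j) * (4 * F.u)) + √((F.G j).ω * F.N m j)) ≤
        1 / (8 * F.u * m) := by
      refine (fgc3_exp2 hu (hm1.trans p2) ziu).trans ?_
      exact one_div_le_one_div_of_le (by positivity) (mul_le_mul_of_nonneg_left p2 (by positivity))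
    have h8 : ‖Ms (ctC1 (4 * F.u) (8 * F.u)) (SC.TT (F.G j).ω (F.gg m A v p j t))‖ ≤
        Cf * (1 / (8 * F.u * m)) * (1 + R) := by
      refine h6.trans (mul_le_mul (mul_le_mul_of_nonneg_left h7 hCf) h1 (norm_nonneg _) ?_)
      exact mul_nonneg hCf (by positivity)
    refine (fgc3_inn (le_refl ‖(on1 : HP)‖) h8).trans (le_of_eq ?_)
    rw [hL]
    ring
  have hfin := fgc3_fin hS0 hε zis
  rw [e1]
  have c1 := norm_add_le (F.QQ m A v p j (F.z1 m j) t - ⟪on1 - tw (F.z1 m j), p j t⟫_ℂ)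
    ⟪Ms (ctC1 (4 * F.u) (8 * F.u)) on1, SC.TT (F.G j).ω (F.gg m A v p j t)⟫_ℂ
  have c2 := norm_sub_le (F.QQ m A v p j (F.z1 m j) t) ⟪on1 - tw (F.z1 m j), p j t⟫_ℂ
  have c3 : ‖F.QQ m A v p j (F.z1 m j) t‖ ≤ ‖F.QQ m A v p j (F.z1 m j) 0‖ +
      ‖F.QQ m A v p j (F.z1 m j) t - F.QQ m A v p j (F.z1 m j) 0‖ := by
    have c4 := norm_add_le (F.QQ m A v p j (F.z1 m j) 0)
      (F.QQ m A v p j (F.z1 m j) t - F.QQ m A v p j (F.z1 m j) 0)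
    rwa [add_sub_cancel] at c4
  have c5 := fgc3_sum b1 b2 b3 b4 hfin hm0 hu hε hm2 hm3
  linarith

/-- **6.4.** `MM_QQ` with `z = z₁`; `QQ_eq` on `[0,t]`, `t ≤ bm m = 1/(8 K² m²)`: the integrand is at most
`C z₁^{-2} (1 + R)²` (`tw_bd`, `p_near`, `dp_wall`, `StB.k1`, `|T ht| ≤ |T h| + |T η g|`), so the integral is `≤ C (1+R)² / m`;
`Q(0) = ⟨1, ci x₀⟩` (because `θ~ (1 - ci) = 1 - ci`), `≤ C z₁^{1/2} Θ`; `⟨1 - θ~, p⟩ ≤ C z₁^{1/2} R`;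
`|⟨η', T g⟩| ≤ C |Ms (η') T g|` small by `far_le` and `StB.e`. -/
theorem MM_bd {Θ R : ℝ} (hΘ : 0 ≤ Θ) (hR : 0 ≤ R) {ε : ℝ} (hε : 0 < ε) : ∃ m₀ : ℕ, 1 ≤ m₀ ∧ ∀ m : ℕ, m₀ ≤ m →
    ∀ {A A' : ℝ → ℝ} {b lam : ℝ} {v₀ : VD D} {v : ℝ → VD D} {mu mu' : ℝ → ℝ} {p : Fin F.n → ℝ → HP}
    (_ : F.Fst m lam A A' b v₀ v mu mu' p) (_ : b ≤ F.bm m) (_ : ∀ t ∈ Icc 0 b, A t ≤ F.A0 m)
    (_ : ∀ j, p j 0 = F.p0 m v₀ j) (_ : ‖v₀‖ ≤ Θ) {t : ℝ} (_ : t ∈ Icc 0 b)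
    (_ : ∀ s ∈ Icc 0 t, ‖F.ov m A v mu p s‖ ≤ R ∧ ∀ j, ‖F.hh m A v p j s‖ ≤ R ∧
      ‖LT (F.G j).ω (F.G j).lam (3 / 8) (F.gg m A v p j s)‖ ≤ 1 ∧
      StB (F.G j) (F.N m j) R 1 (fun t => F.k j * A t) (F.gg m A v p j) s),
    ∀ j, ‖F.MM m A v p j t‖ ≤ ε := by
  choose m₁ h1 h2 using fun j => F.fgc3_MM j hΘ hR hε
  refine ⟨1 + ∑ j, m₁ j, Nat.le_add_right _ _,
    fun m hm A A' b lam v₀ v mu mu' p st hb hA hp hv t ht h j => ?_⟩
  refine h2 j m (le_trans ?_ hm) st hb hA hp hv ht h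
  exact (Finset.single_le_sum (f := m₁) (fun _ _ => Nat.zero_le _) (Finset.mem_univ j)).trans (Nat.le_add_left _ _)

end FD

end Pool.Agent.Lib.MP_79abb3_an.PD
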