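import Pool.Agent.Lib.MP_79abb3_an.PD.FeDef
import Pool.Agent.Lib.MP_79abb3_an.PD.FdB2

/-!
Theorem D, block F, bounds: the field `w = u - a ∇^⊥Ψ`, `Ψ = χ ψ_m (1 - κ) ∈ C_c^∞(D)`, the circulations, the initial values.
-/

set_option autoImplicit false
set_option linter.unusedSectionVars false

open MeasureTheory Set Filter Topology Function
open scoped ENNReal InnerProductSpace ComplexConjugate

namespace Pool.Agent.Lib.MP_79abb3_an.PD

open Pool.Agent.Lib.MP_79abb3_an.SC Pool.Agent.Lib.MP_79abb3_an.P25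

/-- the function `1` of the strip -/
noncomputable def on1 : HP := fHc fun _ => 1

namespace FD
variable {D : Set ℂ} (F : FD D)

/-- `∇^⊥ Ψ` -/
noncomputable def gPs (m : ℕ) : XD D :=
  open scoped Classical in if h : 1 ≤ m then gpX D ⟨F.Ps m, (F.Ps_mem h).2.1⟩ else 0

theorem gPs_eq {m : ℕ} (h : 1 ≤ m) : F.gPs m = gpX D ⟨F.Ps m, (F.Ps_mem h).2.1⟩ := dif_pos h

theorem gPs_coe {m : ℕ} (h : 1 ≤ m) : ((F.gPs m : XD D) : Y2) = gp (F.Ps m) := by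
  rw [F.gPs_eq h]; rfl

/-- `w = u - a ∇^⊥ Ψ` -/
noncomputable def ww (m : ℕ) (a : ℝ) (v : VD D) : XD D := iot D v - (a : ℂ) • F.gPs m

/-- the modes of `η` -/
noncomputable def et : HP := fHc fun q => ((ctf (4 * F.u) (8 * F.u) q.2 : ℝ) : ℂ)

/-- the circulation in the strip `j`: `M_j = ⟨1, η g_j⟩` -/
noncomputable def MM (m : ℕ) (A : ℝ → ℝ) (v : ℝ → VD D) (p : Fin F.n → ℝ → HP) (j : Fin F.n) (t : ℝ) : ℂ :=
  ⟪F.et, F.gg m A v p j t⟫_ℂ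

/-- the scale `z₁ = 1/(16 √N)` -/
noncomputable def z1 (m : ℕ) (j : Fin F.n) : ℝ :=
  Pool.Agent.Lib.MP_79abb3_an.FW.zl ((F.G j).ω * F.N m j)

/-- the cut-off which separates the initial values: `1` for `z ≤ z₁/2`, `0` for `z ≥ z₁` -/
noncomputable def ci (m : ℕ) (j : Fin F.n) : CI Real.pi := ctC (F.z1 m j / 2) (F.z1 m j)

/-- initial value of the layer: `p(0) = (1 - ci) x(0)` -/
noncomputable def p0 (m : ℕ) (v₀ : VD D) (j : Fin F.n) : HP :=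
  Ms (ctC (9 * F.u) (10 * F.u)) (F.Ga j v₀) - Ms (F.ci m j) (Ms (ctC (9 * F.u) (10 * F.u)) (F.Ga j v₀))

/-! ### Parameters -/

/-- the amplitude -/
noncomputable def A0 (m : ℕ) : ℝ := 32 * m * Real.exp (-√((F.K : ℝ) * m))

/-- the length of the stage -/
noncomputable def bm (m : ℕ) : ℝ := 1 / (8 * ((F.K : ℝ) * m) ^ 2)

/-- The bounds at time `t`. -/
structure FB (m : ℕ) (R ε : ℝ) (A : ℝ → ℝ) (v : ℝ → VD D) (mu : ℝ → ℝ) (p : Fin F.n → ℝ → HP) (t : ℝ) : Prop where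
  o : ‖F.ov m A v mu p t‖ ≤ R
  w : ‖F.ww m (A t) (v t)‖ ≤ R
  y : ∀ j, ‖LT (F.G j).ω (F.G j).lam (3 / 8) (F.gg m A v p j t)‖ ≤ ε
  M : ∀ j, ‖F.MM m A v p j t‖ ≤ ε
  s : ∀ j, StB (F.G j) (F.N m j) R 1 (fun t => F.k j * A t) (F.gg m A v p j) t

end FD

end Pool.Agent.Lib.MP_79abb3_an.PD
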