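import Pool.Agent.Lib.MP_79abb3_an.PD.FbX
import Pool.Agent.Lib.MP_79abb3_an.PD.FeL

/-!
Theorem D, block F, bounds (7.2): the a priori estimates of the flush.
-/

set_option autoImplicit false
set_option linter.unusedSectionVars false

open MeasureTheory Set Filter Topology Function
open scoped ENNReal InnerProductSpace ComplexConjugate

namespace Pool.Agent.Lib.MP_79abb3_an.PD

open Pool.Agent.Lib.MP_79abb3_an.SC Pool.Agent.Lib.MP_79abb3_an.P25 Pool.Agent.Lib.MP_79abb3_an.FW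

namespace FD
variable {D : Set ℂ} (F : FD D)

theorem hasApx : F.HasApx := fun st => st.approx

/-- **7.2, the a priori estimates.** Continuity argument (`boot_fam`) for `‖o‖`, `‖w‖`, `y_j`, `‖M_j‖` with the thresholds
`Θ' + 1`, `W₀`, `1`, `1`: `hh_bd` gives `‖h_j‖ ≤ Q`, `StV.apriori` (`Fst.StV`, `cutOK`, `par`, `init_y`) gives `StB` and
`y_j ≤ y_j(0) + ε`, `MM_bd` gives the circulations, `apr_o` for the approximations of `Fst.approx` (limit of the norms) and `src_int` give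
`‖o(t)‖² ≤ ‖o(0)‖² + ε` (`init_o`), `ww_bd` with `S = ∅` gives `‖w‖`. -/
theorem apri {Θ : ℝ} (hΘ : 0 ≤ Θ) : ∃ R : ℝ, 0 ≤ R ∧ ∀ ε : ℝ, 0 < ε → ∃ m₀ : ℕ, 1 ≤ m₀ ∧ ∀ m : ℕ, m₀ ≤ m →
    ∀ {A A' : ℝ → ℝ} {b lam : ℝ} {v₀ : VD D} {v : ℝ → VD D} {mu mu' : ℝ → ℝ} {p : Fin F.n → ℝ → HP}
    (_ : F.Fst m lam A A' b v₀ v mu mu' p) (_ : b ≤ F.bm m) (_ : ∀ t ∈ Icc 0 b, A t ≤ F.A0 m) (_ : A 0 = 0)
    (_ : ∀ j, p j 0 = F.p0 m v₀ j) (_ : ‖v₀‖ ≤ Θ), ∀ t ∈ Icc 0 b, F.FB m R ε A v mu p t :=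
  F.apri_of F.hasApx hΘ

end FD

end Pool.Agent.Lib.MP_79abb3_an.PD
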