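import Pool.Agent.Lib.MP_79abb3_an.PD.FgDef
import Pool.Agent.Lib.MP_79abb3_an.PD.FdB4
import Pool.Agent.Lib.MP_79abb3_an.PD.ScB

/-!
Theorem D, block F, flush: the weight `M = π - arctan (μ φ~)`, `φ~ = χ φ_m g`.
-/

set_option autoImplicit false
set_option linter.unusedSectionVars false

open MeasureTheory Set Filter Topology Function
open scoped ENNReal InnerProductSpace ComplexConjugate

namespace Pool.Agent.Lib.MP_79abb3_an.PD

open Pool.Agent.Lib.MP_79abb3_an.SC Pool.Agent.Lib.MP_79abb3_an.P25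

/-- derivatives of real functions -/
noncomputable def rdx (f : ℂ → ℝ) (y : ℂ) : ℝ := fderiv ℝ f y 1
noncomputable def rdy (f : ℂ → ℝ) (y : ℂ) : ℝ := fderiv ℝ f y Complex.I
noncomputable def rlp (f : ℂ → ℝ) (y : ℂ) : ℝ := rdx (rdx f) y + rdy (rdy f) y

private theorem fha_ofReal {g : ℂ → ℝ} {y : ℂ} (hg : DifferentiableAt ℝ g y) (e : ℂ) :
    fderiv ℝ (fun y => ((g y : ℝ) : ℂ)) y e = ((fderiv ℝ g y e : ℝ) : ℂ) := by
  have h1 : HasFDerivAt (fun y => ((g y : ℝ) : ℂ)) (Complex.ofRealCLM.comp (fderiv ℝ g y)) y :=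
    Complex.ofRealCLM.hasFDerivAt.comp y hg.hasFDerivAt
  rw [h1.fderiv]
  rfl

private theorem fha_arc {f : ℂ → ℝ} (hf : Differentiable ℝ f) (μ : ℝ) (y : ℂ) :
    HasFDerivAt (fun y => Real.pi - Real.arctan (μ * f y)) (-((1 / (1 + (μ * f y) ^ 2)) • (μ • fderiv ℝ f y))) y :=
  (((hf y).hasFDerivAt.const_mul μ).arctan).const_sub Real.pi

private theorem fha_d1 {f : ℂ → ℝ} (hf : Differentiable ℝ f) (μ : ℝ) (y e : ℂ) :
    fderiv ℝ (fun y => ((Real.pi - Real.arctan (μ * f y) : ℝ) : ℂ)) y e =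
      ((-(μ * fderiv ℝ f y e) / (1 + (μ * f y) ^ 2) : ℝ) : ℂ) := by
  rw [fha_ofReal (fha_arc hf μ y).differentiableAt, (fha_arc hf μ y).fderiv]
  congr 1
  simp only [FunLike.coe_neg, Pi.neg_apply, FunLike.coe_smul, Pi.smul_apply, smul_eq_mul]
  ring

private theorem fha_d2 {f g : ℂ → ℝ} (hf : Differentiable ℝ f) (hg : Differentiable ℝ g) (μ : ℝ) (y e : ℂ) :
    fderiv ℝ (fun y => ((-(μ * g y) / (1 + (μ * f y) ^ 2) : ℝ) : ℂ)) y e =
      ((-(μ * fderiv ℝ g y e) / (1 + (μ * f y) ^ 2) +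
        2 * μ ^ 3 * f y * (g y * fderiv ℝ f y e) / (1 + (μ * f y) ^ 2) ^ 2 : ℝ) : ℂ) := by
  have hQ : 1 + (μ * f y) ^ 2 ≠ 0 := by positivity
  have h1 : HasFDerivAt (fun y => μ * f y) (μ • fderiv ℝ f y) y := (hf y).hasFDerivAt.const_mul μ
  have h2 : HasFDerivAt (fun y => 1 + (μ * f y) ^ 2) ((2 * (μ * f y)) • (μ • fderiv ℝ f y)) y := by
    have h3 : HasDerivAt (fun t : ℝ => 1 + t ^ 2) (2 * (μ * f y)) (μ * f y) := by
      have := (hasDerivAt_pow 2 (μ * f y)).const_add 1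
      simpa using this
    exact HasDerivAt.comp_hasFDerivAt (h₂ := fun t : ℝ => 1 + t ^ 2) (f := fun y => μ * f y) y h3 h1
  have h4 : HasFDerivAt (fun y => (1 + (μ * f y) ^ 2)⁻¹)
      ((-((1 + (μ * f y) ^ 2) ^ 2)⁻¹) • ((2 * (μ * f y)) • (μ • fderiv ℝ f y))) y :=
    (hasDerivAt_inv hQ).comp_hasFDerivAt y h2
  have h5 : HasFDerivAt (fun y => -(μ * g y)) (-(μ • fderiv ℝ g y)) y :=
    ((hg y).hasFDerivAt.const_mul μ).neg
  have h6 := h5.mul h4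
  have h7 : HasFDerivAt (fun y => -(μ * g y) / (1 + (μ * f y) ^ 2)) _ y := h6
  rw [fha_ofReal h7.differentiableAt, h7.fderiv]
  congr 1
  simp only [FunLike.coe_neg, Pi.neg_apply, FunLike.coe_smul, Pi.smul_apply, smul_eq_mul, FunLike.coe_add,
    Pi.add_apply]
  field_simp
  ring

/-- Derivatives of `π - arctan (μ f)`. -/
theorem arc_d {f : ℂ → ℝ} (hf : ContDiff ℝ ((⊤ : ℕ∞) : WithTop ℕ∞) f) (μ : ℝ) (y : ℂ) :
    px (fun y => ((Real.pi - Real.arctan (μ * f y) : ℝ) : ℂ)) y =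
      ((-(μ * rdx f y) / (1 + (μ * f y) ^ 2) : ℝ) : ℂ) ∧
    py (fun y => ((Real.pi - Real.arctan (μ * f y) : ℝ) : ℂ)) y =
      ((-(μ * rdy f y) / (1 + (μ * f y) ^ 2) : ℝ) : ℂ) ∧
    lap (fun y => ((Real.pi - Real.arctan (μ * f y) : ℝ) : ℂ)) y =
      ((-(μ * rlp f y) / (1 + (μ * f y) ^ 2) +
        2 * μ ^ 3 * f y * (rdx f y ^ 2 + rdy f y ^ 2) / (1 + (μ * f y) ^ 2) ^ 2 : ℝ) : ℂ) := by
  have hd : Differentiable ℝ f := hf.differentiable (by norm_num)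
  have hdir : ∀ e : ℂ, Differentiable ℝ fun y => fderiv ℝ f y e := by
    intro e
    have h1 : ContDiff ℝ ((⊤ : ℕ∞) : WithTop ℕ∞) (fderiv ℝ f) :=
      ContDiff.fderiv_right hf (by exact_mod_cast le_top)
    exact (h1.clm_apply contDiff_const).differentiable (by norm_num)
  have hx : px (fun y => ((Real.pi - Real.arctan (μ * f y) : ℝ) : ℂ)) = fun y =>
      ((-(μ * rdx f y) / (1 + (μ * f y) ^ 2) : ℝ) : ℂ) := funext fun y => fha_d1 hd μ y 1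
  have hy : py (fun y => ((Real.pi - Real.arctan (μ * f y) : ℝ) : ℂ)) = fun y =>
      ((-(μ * rdy f y) / (1 + (μ * f y) ^ 2) : ℝ) : ℂ) := funext fun y => fha_d1 hd μ y Complex.I
  refine ⟨congrFun hx y, congrFun hy y, ?_⟩
  have hxx : px (fun y => ((-(μ * rdx f y) / (1 + (μ * f y) ^ 2) : ℝ) : ℂ)) y =
      ((-(μ * rdx (rdx f) y) / (1 + (μ * f y) ^ 2) +
        2 * μ ^ 3 * f y * (rdx f y * rdx f y) / (1 + (μ * f y) ^ 2) ^ 2 : ℝ) : ℂ) :=
    fha_d2 (g := rdx f) hd (hdir 1) μ y 1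
  have hyy : py (fun y => ((-(μ * rdy f y) / (1 + (μ * f y) ^ 2) : ℝ) : ℂ)) y =
      ((-(μ * rdy (rdy f) y) / (1 + (μ * f y) ^ 2) +
        2 * μ ^ 3 * f y * (rdy f y * rdy f y) / (1 + (μ * f y) ^ 2) ^ 2 : ℝ) : ℂ) :=
    fha_d2 (g := rdy f) hd (hdir Complex.I) μ y Complex.I
  unfold lap
  rw [hx, hy, hxx, hyy, ← Complex.ofReal_add]
  congr 1
  unfold rlp
  ring

/-- The algebra of the weight: `2 μ P ≤ Q`, `w M' ≤ w² + M'²/4`, `Q = 1 + (μ P)² ≥ 1`. -/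
theorem wt_alg {μ a P P1 P2 L f1 f2 w1 w2 : ℝ} (hμ : 0 ≤ μ) :
    (-(μ * L) / (1 + (μ * P) ^ 2) + 2 * μ ^ 3 * P * (P1 ^ 2 + P2 ^ 2) / (1 + (μ * P) ^ 2) ^ 2) +
      ((a * f1 + w1) * (-(μ * P1) / (1 + (μ * P) ^ 2)) + (a * f2 + w2) * (-(μ * P2) / (1 + (μ * P) ^ 2))) ≤
    (w1 ^ 2 + w2 ^ 2) + (μ * |L| + 5 / 4 * μ ^ 2 * (P1 ^ 2 + P2 ^ 2) - a * μ * (f1 * P1 + f2 * P2)) /
      (1 + (μ * P) ^ 2) := by
  set Q : ℝ := 1 + (μ * P) ^ 2 with hQ
  have hQ1 : 1 ≤ Q := by rw [hQ]; nlinarith [sq_nonneg (μ * P)]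
  have hQ0 : 0 < Q := by linarith
  have h2 : 2 * (μ * P) ≤ Q := by rw [hQ]; nlinarith [sq_nonneg (μ * P - 1)]
  have e1 : 2 * μ ^ 3 * P * (P1 ^ 2 + P2 ^ 2) / Q ^ 2 ≤ μ ^ 2 * (P1 ^ 2 + P2 ^ 2) / Q := by
    rw [div_le_div_iff₀ (by positivity) hQ0]
    have h3 : 0 ≤ μ ^ 2 * (P1 ^ 2 + P2 ^ 2) * Q := by positivity
    nlinarith [mul_le_mul_of_nonneg_left h2 h3]
  have e2 : ∀ w p : ℝ, w * (-(μ * p) / Q) ≤ w ^ 2 + μ ^ 2 * p ^ 2 / (4 * Q) := by
    intro w p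
    have h4 : (μ * p / Q) ^ 2 / 4 ≤ μ ^ 2 * p ^ 2 / (4 * Q) := by
      rw [div_pow, div_div, div_le_div_iff₀ (by positivity) (by positivity)]
      have h5 : 0 ≤ μ ^ 2 * p ^ 2 * Q := by positivity
      nlinarith [mul_le_mul_of_nonneg_left hQ1 h5]
    have h6 : -(μ * p) / Q = -(μ * p / Q) := by ring
    rw [h6]
    nlinarith [sq_nonneg (w + μ * p / Q / 2)]
  have e3 : -(μ * L) / Q ≤ μ * |L| / Q := by
    gcongr
    nlinarith [neg_abs_le L]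
  have e4 : (a * f1 + w1) * (-(μ * P1) / Q) + (a * f2 + w2) * (-(μ * P2) / Q) =
      -(a * μ * (f1 * P1 + f2 * P2)) / Q + (w1 * (-(μ * P1) / Q) + w2 * (-(μ * P2) / Q)) := by ring
  have e5 : (μ * |L| + 5 / 4 * μ ^ 2 * (P1 ^ 2 + P2 ^ 2) - a * μ * (f1 * P1 + f2 * P2)) / Q =
      μ * |L| / Q + μ ^ 2 * (P1 ^ 2 + P2 ^ 2) / Q + (μ ^ 2 * P1 ^ 2 / (4 * Q) + μ ^ 2 * P2 ^ 2 / (4 * Q)) +
        -(a * μ * (f1 * P1 + f2 * P2)) / Q := by
    field_simp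
    ring
  rw [e4, e5]
  linarith [e2 w1 P1, e2 w2 P2]

/-- `smoothTransition` has bounded derivatives; it is positive at `1/4` and increasing. -/
theorem st_bd : ∃ M g₀ : ℝ, 0 ≤ M ∧ 0 < g₀ ∧ (∀ t, |deriv Real.smoothTransition t| ≤ M) ∧
    (∀ t, |deriv (deriv Real.smoothTransition) t| ≤ M) ∧ ∀ t, 1 / 4 ≤ t → g₀ ≤ Real.smoothTransition t := by
  have key : ∀ g : ℝ → ℝ, Continuous g → (∀ t, t < 0 → g t = 0) → (∀ t, 1 < t → g t = 0) →
      ∃ M : ℝ, 0 ≤ M ∧ ∀ t, |g t| ≤ M := by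
    intro g hg h0 h1
    obtain ⟨C, hC⟩ := (isCompact_Icc (a := (0 : ℝ)) (b := 1)).exists_bound_of_continuousOn hg.continuousOn
    refine ⟨max C 0, le_max_right _ _, fun t => ?_⟩
    rcases lt_or_ge t 0 with ht | ht
    · rw [h0 t ht, abs_zero]
      exact le_max_right _ _
    · rcases lt_or_ge 1 t with ht1 | ht1
      · rw [h1 t ht1, abs_zero]
        exact le_max_right _ _
      · exact (hC t ⟨ht, ht1⟩).trans (le_max_left _ _)
  have hs : ContDiff ℝ ((⊤ : ℕ∞) : WithTop ℕ∞) Real.smoothTransition := Real.smoothTransition.contDiff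
  have hs1 : ContDiff ℝ ((⊤ : ℕ∞) : WithTop ℕ∞) (deriv Real.smoothTransition) :=
    (contDiff_infty_iff_deriv.1 hs).2
  have hs2 : ContDiff ℝ ((⊤ : ℕ∞) : WithTop ℕ∞) (deriv (deriv Real.smoothTransition)) :=
    (contDiff_infty_iff_deriv.1 hs1).2
  have a0 : ∀ t, t < 0 → deriv Real.smoothTransition t = 0 := by
    intro t ht
    have h1 : Real.smoothTransition =ᶠ[𝓝 t] fun _ => (0 : ℝ) := by
      filter_upwards [Iio_mem_nhds ht] with s hs
      exact Real.smoothTransition.zero_of_nonpos (le_of_lt hs)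
    rw [h1.deriv_eq, deriv_const]
  have a1 : ∀ t, 1 < t → deriv Real.smoothTransition t = 0 := by
    intro t ht
    have h1 : Real.smoothTransition =ᶠ[𝓝 t] fun _ => (1 : ℝ) := by
      filter_upwards [Ioi_mem_nhds ht] with s hs
      exact Real.smoothTransition.one_of_one_le (le_of_lt hs)
    rw [h1.deriv_eq, deriv_const]
  have b0 : ∀ t, t < 0 → deriv (deriv Real.smoothTransition) t = 0 := by
    intro t ht
    have h1 : deriv Real.smoothTransition =ᶠ[𝓝 t] fun _ => (0 : ℝ) := by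
      filter_upwards [Iio_mem_nhds ht] with s hs
      exact a0 s hs
    rw [h1.deriv_eq, deriv_const]
  have b1 : ∀ t, 1 < t → deriv (deriv Real.smoothTransition) t = 0 := by
    intro t ht
    have h1 : deriv Real.smoothTransition =ᶠ[𝓝 t] fun _ => (0 : ℝ) := by
      filter_upwards [Ioi_mem_nhds ht] with s hs
      exact a1 s hs
    rw [h1.deriv_eq, deriv_const]
  obtain ⟨M1, hM1, H1⟩ := key _ hs1.continuous a0 a1
  obtain ⟨M2, hM2, H2⟩ := key _ hs2.continuous b0 b1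
  refine ⟨max M1 M2, Real.smoothTransition (1 / 4), le_max_of_le_left hM1,
    Real.smoothTransition.pos_of_pos (by norm_num), fun t => (H1 t).trans (le_max_left _ _),
    fun t => (H2 t).trans (le_max_right _ _), fun t ht => Real.smoothTransition.monotone ht⟩

namespace FD
variable {D : Set ℂ} (F : FD D)

/-- `μ = 2 m e^{-2√(K m)}` -/
noncomputable def mw (m : ℕ) : ℝ := 2 * m * Real.exp (-(2 * √((F.K : ℝ) * m)))

/-- **The weight.** -/
noncomputable def Mw (m : ℕ) (y : ℂ) : ℂ := ((Real.pi - Real.arctan (F.mw m * F.Ph m y) : ℝ) : ℂ)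

/-- the region of the flush -/
def R0 (m : ℕ) : Set ℂ := {y | y ∈ D ∧ F.s2 ≤ dist y F.x ∧ 2 * F.zs m ≤ F.h y}

/-- `ΔM + (A₀ ∇^⊥(χ ψ_m) + w)·∇M` -/
noncomputable def LM (m : ℕ) (y : ℂ) (w1 w2 : ℝ) : ℝ :=
  (lap (F.Mw m) y).re + ((F.A0 m * (py (F.P0 m) y).re + w1) * (px (F.Mw m) y).re +
    (-(F.A0 m * (px (F.P0 m) y).re) + w2) * (py (F.Mw m) y).re)

variable {m : ℕ}

/-- `Ph_mem`: `Ph` is smooth with compact support; so are the derivatives of `Mw` (`arc_d`). -/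
theorem Wg_Mw (hm : 1 ≤ m) : ∃ c, Wg (F.Mw m) c := by
  obtain ⟨hs, hc, _⟩ := F.Ph_mem hm
  have hR : ContDiff ℝ ((⊤ : ℕ∞) : WithTop ℕ∞) fun y => -Real.arctan (F.mw m * F.Ph m y) :=
    (Real.contDiff_arctan.comp (contDiff_const.mul hs)).neg
  have hN : Cc fun y => ((-Real.arctan (F.mw m * F.Ph m y) : ℝ) : ℂ) := by
    refine ⟨Complex.ofRealCLM.contDiff.comp hR, ?_⟩
    exact hc.comp_left (g := fun t : ℝ => ((-Real.arctan (F.mw m * t) : ℝ) : ℂ)) (by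
      simp only [mul_zero, Real.arctan_zero, neg_zero, Complex.ofReal_zero])
  have hM : F.Mw m = fun y => ((-Real.arctan (F.mw m * F.Ph m y) : ℝ) : ℂ) + ((Real.pi : ℝ) : ℂ) := by
    funext y
    unfold Mw
    push_cast
    ring
  have hS : Smo (F.Mw m) := by
    rw [hM]
    exact hN.smo.add (Smo.const _)
  have hx : px (F.Mw m) = px fun y => ((-Real.arctan (F.mw m * F.Ph m y) : ℝ) : ℂ) := by
    funext y
    rw [hM, px_add hN.smo (Smo.const _)]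
    have : px (fun _ : ℂ => ((Real.pi : ℝ) : ℂ)) y = 0 := by
      unfold px
      rw [fderiv_fun_const]
      rfl
    rw [this, add_zero]
  have hy : py (F.Mw m) = py fun y => ((-Real.arctan (F.mw m * F.Ph m y) : ℝ) : ℂ) := by
    funext y
    rw [hM, py_add hN.smo (Smo.const _)]
    have : py (fun _ : ℂ => ((Real.pi : ℝ) : ℂ)) y = 0 := by
      unfold py
      rw [fderiv_fun_const]
      rfl
    rw [this, add_zero]
  have hl : lap (F.Mw m) = lap fun y => ((-Real.arctan (F.mw m * F.Ph m y) : ℝ) : ℂ) := by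
    funext y
    unfold lap
    rw [hx, hy]
  obtain ⟨C1, H1⟩ := hN.cpt.exists_bound_of_continuous hN.smo.continuous
  obtain ⟨C2, H2⟩ := hN.px.cpt.exists_bound_of_continuous hN.px.smo.continuous
  obtain ⟨C3, H3⟩ := hN.py.cpt.exists_bound_of_continuous hN.py.smo.continuous
  obtain ⟨C4, H4⟩ := hN.lap.cpt.exists_bound_of_continuous hN.lap.smo.continuous
  have n1 : 0 ≤ C1 := (norm_nonneg _).trans (H1 0)
  have n2 : 0 ≤ C2 := (norm_nonneg _).trans (H2 0)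
  have n3 : 0 ≤ C3 := (norm_nonneg _).trans (H3 0)
  have n4 : 0 ≤ C4 := (norm_nonneg _).trans (H4 0)
  have n5 := Real.pi_pos
  refine ⟨Real.pi + C1 + C2 + C3 + C4, hS, fun y => ?_, fun y => ⟨?_, ?_, ?_, ?_⟩⟩
  · unfold Mw
    rw [Complex.conj_ofReal]
  · rw [hM]
    refine (norm_add_le _ _).trans ?_
    have h5 : ‖((Real.pi : ℝ) : ℂ)‖ = Real.pi := by
      rw [Complex.norm_real, Real.norm_eq_abs, abs_of_pos n5]
    rw [h5]
    linarith [H1 y]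
  · rw [hx]
    linarith [H2 y]
  · rw [hy]
    linarith [H3 y]
  · rw [hl]
    linarith [H4 y]

theorem Mw_re (m : ℕ) (y : ℂ) : Real.pi / 2 ≤ (F.Mw m y).re ∧ (F.Mw m y).re ≤ 3 * Real.pi / 2 ∧
    ‖F.Mw m y‖ ≤ 5 := by
  have h1 := Real.arctan_lt_pi_div_two (F.mw m * F.Ph m y)
  have h2 := Real.neg_pi_div_two_lt_arctan (F.mw m * F.Ph m y)
  have h3 := Real.pi_lt_d2
  have e : (F.Mw m y).re = Real.pi - Real.arctan (F.mw m * F.Ph m y) := Complex.ofReal_re _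
  have e2 : ‖F.Mw m y‖ = |Real.pi - Real.arctan (F.mw m * F.Ph m y)| := by
    unfold Mw
    rw [Complex.norm_real, Real.norm_eq_abs]
  rw [e, e2, abs_of_pos (by linarith)]
  refine ⟨by linarith, by linarith, by linarith⟩

end FD

end Pool.Agent.Lib.MP_79abb3_an.PD
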