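import Pool.Agent.Lib.MP_79abb3_an.PD.FhA

/-!
Theorem D, block F, flush: the weight outside of the ball.
-/

set_option autoImplicit false
set_option linter.unusedSectionVars false

open MeasureTheory Set Filter Topology Function
open scoped ENNReal InnerProductSpace ComplexConjugate

namespace Pool.Agent.Lib.MP_79abb3_an.PD

open Pool.Agent.Lib.MP_79abb3_an.SC Pool.Agent.Lib.MP_79abb3_an.P25

private theorem fha1_d {U : Set ℂ} {G : ℂ → ℂ} (hU : IsOpen U) (hG : DifferentiableOn ℂ G U)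
    {y : ℂ} (hy : y ∈ U) : DifferentiableAt ℝ G y ∧ ∀ v, fderiv ℝ G y v = v * deriv G y := by
  have h1 : HasDerivAt G (deriv G y) y := (hG.differentiableAt (hU.mem_nhds hy)).hasDerivAt
  have h2 := h1.hasFDerivAt.restrictScalars ℝ
  refine ⟨h2.differentiableAt, fun v => ?_⟩
  rw [h2.fderiv]
  simp

private theorem fha1_re {U : Set ℂ} {G : ℂ → ℂ} (hU : IsOpen U) (hG : DifferentiableOn ℂ G U)
    {y : ℂ} (hy : y ∈ U) : DifferentiableAt ℝ (fun z => (G z).re) y ∧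
      ∀ v, fderiv ℝ (fun z => (G z).re) y v = (v * deriv G y).re := by
  obtain ⟨h1, h2⟩ := fha1_d hU hG hy
  have h3 := Complex.reCLM.hasFDerivAt.comp y h1.hasFDerivAt
  have h4 : HasFDerivAt (fun z => (G z).re) (Complex.reCLM.comp (fderiv ℝ G y)) y := h3
  refine ⟨h4.differentiableAt, fun v => ?_⟩
  rw [h4.fderiv]
  show (fderiv ℝ G y v).re = _
  rw [h2]

private theorem fha1_im {U : Set ℂ} {G : ℂ → ℂ} (hU : IsOpen U) (hG : DifferentiableOn ℂ G U)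
    {y : ℂ} (hy : y ∈ U) : DifferentiableAt ℝ (fun z => (G z).im) y ∧
      ∀ v, fderiv ℝ (fun z => (G z).im) y v = (v * deriv G y).im := by
  obtain ⟨h1, h2⟩ := fha1_d hU hG hy
  have h3 := Complex.imCLM.hasFDerivAt.comp y h1.hasFDerivAt
  have h4 : HasFDerivAt (fun z => (G z).im) (Complex.imCLM.comp (fderiv ℝ G y)) y := h3
  refine ⟨h4.differentiableAt, fun v => ?_⟩
  rw [h4.fderiv]
  show (fderiv ℝ G y v).im = _
  rw [h2]

private theorem fha1_mul {f g : ℂ → ℝ} {y : ℂ} (hf : DifferentiableAt ℝ f y) (hg : DifferentiableAt ℝ g y) :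
    DifferentiableAt ℝ (fun z => f z * g z) y ∧
      ∀ v, fderiv ℝ (fun z => f z * g z) y v = f y * fderiv ℝ g y v + g y * fderiv ℝ f y v := by
  refine ⟨hf.mul hg, fun v => ?_⟩
  rw [fderiv_fun_mul hf hg]
  rfl

private theorem fha1_add {f g : ℂ → ℝ} {y : ℂ} (hf : DifferentiableAt ℝ f y) (hg : DifferentiableAt ℝ g y) :
    ∀ v, fderiv ℝ (fun z => f z + g z) y v = fderiv ℝ f y v + fderiv ℝ g y v := by
  intro v
  rw [fderiv_fun_add hf hg]
  rfl

private theorem fha1_comp {φ : ℝ → ℝ} (hφ : Differentiable ℝ φ) {h : ℂ → ℝ} {y : ℂ} (hh : DifferentiableAt ℝ h y)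
    (c : ℝ) : DifferentiableAt ℝ (fun z => φ (h z / c - 1)) y ∧
      ∀ v, fderiv ℝ (fun z => φ (h z / c - 1)) y v = deriv φ (h y / c - 1) * (fderiv ℝ h y v / c) := by
  have h1 : HasFDerivAt (fun z => h z / c - 1) (c⁻¹ • fderiv ℝ h y) y := by
    have h2 := (hh.hasFDerivAt.const_smul c⁻¹).sub_const 1
    refine h2.congr_of_eventuallyEq (Eventually.of_forall fun z => ?_)
    show h z / c - 1 = c⁻¹ • h z - 1
    rw [smul_eq_mul, div_eq_inv_mul]
  have h3 : HasFDerivAt (fun z => φ (h z / c - 1)) (deriv φ (h y / c - 1) • (c⁻¹ • fderiv ℝ h y)) y :=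
    (hφ (h y / c - 1)).hasDerivAt.comp_hasFDerivAt y h1
  refine ⟨h3.differentiableAt, fun v => ?_⟩
  rw [h3.fderiv]
  show deriv φ (h y / c - 1) * (c⁻¹ * fderiv ℝ h y v) = _
  rw [div_eq_inv_mul (fderiv ℝ h y v) c]

private theorem fha1_st : ContDiff ℝ ((⊤ : ℕ∞) : WithTop ℕ∞) Real.smoothTransition :=
  Real.smoothTransition.contDiff

private theorem fha1_st1 : ContDiff ℝ ((⊤ : ℕ∞) : WithTop ℕ∞) (deriv Real.smoothTransition) :=
  ((contDiff_infty_iff_deriv (𝕜 := ℝ)).1 fha1_st).2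

namespace FD
variable {D : Set ℂ} (F : FD D) {m : ℕ}

private theorem fha1_open : IsOpen (D \ Metric.closedBall F.x F.s) :=
  F.hD.op.sdiff Metric.isClosed_closedBall

private theorem fha1_Fm (hm : 1 ≤ m) : DifferentiableOn ℂ (F.Fm m) (D \ Metric.closedBall F.x F.s) := fun y hy =>
  (F.Fm_der hm hy).differentiableAt.differentiableWithinAt

private theorem fha1_mem {y : ℂ} (hy : y ∈ D) (h2 : F.s2 < dist y F.x) : y ∈ D \ Metric.closedBall F.x F.s :=
  ⟨hy, fun h => absurd (Metric.mem_closedBall.1 h) (not_le.2 (F.h1.trans (F.h2.trans h2)))⟩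

private theorem fha1_nhds {y₀ : ℂ} (hy : y₀ ∈ D) (h2 : F.s2 < dist y₀ F.x) :
    {z | z ∈ D ∧ F.s2 < dist z F.x} ∈ 𝓝 y₀ :=
  (F.hD.op.inter (isOpen_lt continuous_const (continuous_id.dist continuous_const))).mem_nhds ⟨hy, h2⟩

private theorem fha1_first (hm : 1 ≤ m) {y : ℂ} (hy : y ∈ D) (h2 : F.s2 < dist y F.x) (v : ℂ) :
    fderiv ℝ (F.Ph m) y v = Real.smoothTransition (F.h y / F.zs m - 1) * (v * deriv (F.Fm m) y).re +
      (F.Fm m y).re * (deriv Real.smoothTransition (F.h y / F.zs m - 1) / F.zs m) * fderiv ℝ F.h y v := by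
  have e0 : F.Ph m =ᶠ[𝓝 y] fun z => Real.smoothTransition (F.h z / F.zs m - 1) * (F.Fm m z).re := by
    filter_upwards [F.fha1_nhds hy h2] with z hz
    show F.χ z * Real.smoothTransition (F.h z / F.zs m - 1) * (F.Fm m z).re = _
    rw [F.χ1 z hz.2.le, one_mul]
  have hh : DifferentiableAt ℝ F.h y := (F.fl.smooth.differentiableOn (by simp)).differentiableAt (F.hD.op.mem_nhds hy)
  obtain ⟨a1, a2⟩ := fha1_comp (fha1_st.differentiable (by simp)) hh (F.zs m)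
  obtain ⟨b1, b2⟩ := fha1_re F.fha1_open (F.fha1_Fm hm) (F.fha1_mem hy h2)
  rw [e0.fderiv_eq, (fha1_mul a1 b1).2 v, a2, b2]
  ring

/-- The cell potential and its product with the cut-off near a point outside of the ball: `χ = 1` near `y`, `F_m` is holomorphic
(`Fm_der`), `φ = Re F_m` and `h` are harmonic (`F.fl.lap`, `F.fl.src`; `gr h` is holomorphic: `holo_gr`), `∇φ = (Re F_m', -Im F_m')`. -/
theorem Ph_loc (hm : 1 ≤ m) {y : ℂ} (hy : y ∈ D) (h2 : F.s2 < dist y F.x) :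
    F.Ph m y = Real.smoothTransition (F.h y / F.zs m - 1) * (F.Fm m y).re ∧
    rdx (F.Ph m) y = Real.smoothTransition (F.h y / F.zs m - 1) * (deriv (F.Fm m) y).re +
      (F.Fm m y).re * (deriv Real.smoothTransition (F.h y / F.zs m - 1) / F.zs m) * rdx F.h y ∧
    rdy (F.Ph m) y = Real.smoothTransition (F.h y / F.zs m - 1) * (-(deriv (F.Fm m) y).im) +
      (F.Fm m y).re * (deriv Real.smoothTransition (F.h y / F.zs m - 1) / F.zs m) * rdy F.h y ∧
    rlp (F.Ph m) y = 2 * (deriv Real.smoothTransition (F.h y / F.zs m - 1) / F.zs m) *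
        ((deriv (F.Fm m) y).re * rdx F.h y - (deriv (F.Fm m) y).im * rdy F.h y) +
      (F.Fm m y).re * (deriv (deriv Real.smoothTransition) (F.h y / F.zs m - 1) / F.zs m ^ 2) *
        (rdx F.h y ^ 2 + rdy F.h y ^ 2) := by
  have hy' := F.fha1_mem hy h2
  have hFm := F.fha1_Fm hm
  have hFm1 : DifferentiableOn ℂ (deriv (F.Fm m)) (D \ Metric.closedBall F.x F.s) := hFm.deriv F.fha1_open
  have hgr := F.fl.holo_gr F.hD.op
  have hh : DifferentiableAt ℝ F.h y := (F.fl.smooth.differentiableOn (by simp)).differentiableAt (F.hD.op.mem_nhds hy)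
  have i1 : (Complex.I * deriv (F.Fm m) y).re = -(deriv (F.Fm m) y).im := by simp
  refine ⟨?_, ?_, ?_, ?_⟩
  · show F.χ y * Real.smoothTransition (F.h y / F.zs m - 1) * (F.Fm m y).re = _
    rw [F.χ1 y h2.le, one_mul]
  · show fderiv ℝ (F.Ph m) y 1 = _
    rw [F.fha1_first hm hy h2, one_mul]
    rfl
  · show fderiv ℝ (F.Ph m) y Complex.I = _
    rw [F.fha1_first hm hy h2, i1]
    rfl
  · have ex : rdx (F.Ph m) =ᶠ[𝓝 y] fun z => Real.smoothTransition (F.h z / F.zs m - 1) * (deriv (F.Fm m) z).re +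
        (F.Fm m z).re * (deriv Real.smoothTransition (F.h z / F.zs m - 1) * ((F.zs m)⁻¹ * (gr F.h z).re)) := by
      filter_upwards [F.fha1_nhds hy h2] with z hz
      show fderiv ℝ (F.Ph m) z 1 = _
      rw [F.fha1_first hm hz.1 hz.2, one_mul]
      show _ + _ * fderiv ℝ F.h z 1 = _ + _ * (_ * (_ * fderiv ℝ F.h z 1))
      ring
    have ey : rdy (F.Ph m) =ᶠ[𝓝 y] fun z => Real.smoothTransition (F.h z / F.zs m - 1) * (-1 * (deriv (F.Fm m) z).im) +
        (F.Fm m z).re * (deriv Real.smoothTransition (F.h z / F.zs m - 1) * (-(F.zs m)⁻¹ * (gr F.h z).im)) := by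
      filter_upwards [F.fha1_nhds hy h2] with z hz
      show fderiv ℝ (F.Ph m) z Complex.I = _
      have i2 : (Complex.I * deriv (F.Fm m) z).re = -(deriv (F.Fm m) z).im := by simp
      rw [F.fha1_first hm hz.1 hz.2, i2]
      show _ + _ * fderiv ℝ F.h z Complex.I = _ + _ * (_ * (_ * -fderiv ℝ F.h z Complex.I))
      ring
    obtain ⟨a1, a2⟩ := fha1_comp (fha1_st.differentiable (by simp)) hh (F.zs m)
    obtain ⟨c1, c2⟩ := fha1_comp (fha1_st1.differentiable (by simp)) hh (F.zs m)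
    obtain ⟨f1, f2⟩ := fha1_re F.fha1_open hFm hy'
    obtain ⟨p1, p2⟩ := fha1_re F.fha1_open hFm1 hy'
    obtain ⟨q1, q2⟩ := fha1_im F.fha1_open hFm1 hy'
    obtain ⟨x1, x2⟩ := fha1_re F.fha1_open hgr hy'
    obtain ⟨y1, y2⟩ := fha1_im F.fha1_open hgr hy'
    have k1 : ∀ (c : ℝ) (v : ℂ), fderiv ℝ (fun _ : ℂ => c) y v = 0 := fun c v => by
      rw [fderiv_fun_const]; rfl
    have dq := fha1_mul (f := fun _ => (-1 : ℝ)) (differentiableAt_const _) q1
    have dx := fha1_mul (f := fun _ => (F.zs m)⁻¹) (differentiableAt_const _) x1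
    have dy := fha1_mul (f := fun _ => -(F.zs m)⁻¹) (differentiableAt_const _) y1
    have dcx := fha1_mul c1 dx.1
    have dcy := fha1_mul c1 dy.1
    have dfx := fha1_mul f1 dcx.1
    have dfy := fha1_mul f1 dcy.1
    have dax := fha1_mul a1 p1
    have day := fha1_mul a1 dq.1
    show fderiv ℝ (rdx (F.Ph m)) y 1 + fderiv ℝ (rdy (F.Ph m)) y Complex.I = _
    rw [ex.fderiv_eq, ey.fderiv_eq, fha1_add dax.1 dfx.1, fha1_add day.1 dfy.1, dax.2, dfx.2, day.2, dfy.2,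
      dcx.2, dcy.2, dx.2, dy.2, dq.2, a2, a2, c2, c2, f2, f2, p2, q2, x2, y2, k1, k1, k1]
    have g1 : (gr F.h y).re = rdx F.h y := rfl
    have g2 : (gr F.h y).im = -rdy F.h y := rfl
    have g3 : fderiv ℝ F.h y 1 = rdx F.h y := rfl
    have g4 : fderiv ℝ F.h y Complex.I = rdy F.h y := rfl
    rw [g1, g2, g3, g4]
    simp only [one_mul, Complex.I_mul_re, Complex.I_mul_im]
    ring

/-- `∇^⊥(χ ψ_m) = ∇ φ_m` outside of the ball. -/
theorem P0_loc (hm : 1 ≤ m) {y : ℂ} (hy : y ∈ D) (h2 : F.s2 < dist y F.x) :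
    py (F.P0 m) y = (((deriv (F.Fm m) y).re : ℝ) : ℂ) ∧ px (F.P0 m) y = (((deriv (F.Fm m) y).im : ℝ) : ℂ) := by
  have hy' := F.fha1_mem hy h2
  have hFm := F.fha1_Fm hm
  obtain ⟨q1, q2⟩ := fha1_im F.fha1_open hFm hy'
  have e0 : F.P0 m =ᶠ[𝓝 y] fun z => (((F.Fm m z).im : ℝ) : ℂ) := by
    filter_upwards [F.fha1_nhds hy h2] with z hz
    show ((F.χ z * (F.Fm m z).im : ℝ) : ℂ) = _
    rw [F.χ1 z hz.2.le, one_mul]
  have h3 := Complex.ofRealCLM.hasFDerivAt.comp y q1.hasFDerivAt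
  have h4 : HasFDerivAt (fun z => (((F.Fm m z).im : ℝ) : ℂ))
    (Complex.ofRealCLM.comp (fderiv ℝ (fun z => (F.Fm m z).im) y)) y := h3
  have h5 : ∀ v, fderiv ℝ (F.P0 m) y v = (((v * deriv (F.Fm m) y).im : ℝ) : ℂ) := fun v => by
    rw [e0.fderiv_eq, h4.fderiv]
    show ((fderiv ℝ (fun z => (F.Fm m z).im) y v : ℝ) : ℂ) = _
    rw [q2]
  constructor
  · show fderiv ℝ (F.P0 m) y Complex.I = _
    rw [h5]
    simp
  · show fderiv ℝ (F.P0 m) y 1 = _
    rw [h5, one_mul]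

/-- `wt_alg` with `Ph_loc`, `P0_loc`, `arc_d`. -/
theorem LM_le (hm : 1 ≤ m) {y : ℂ} (hy : y ∈ D) (h2 : F.s2 < dist y F.x) (w1 w2 : ℝ) :
    F.LM m y w1 w2 ≤ (w1 ^ 2 + w2 ^ 2) + (F.mw m * |rlp (F.Ph m) y| +
      5 / 4 * F.mw m ^ 2 * (rdx (F.Ph m) y ^ 2 + rdy (F.Ph m) y ^ 2) -
      F.A0 m * F.mw m * ((deriv (F.Fm m) y).re * rdx (F.Ph m) y - (deriv (F.Fm m) y).im * rdy (F.Ph m) y)) /
        (1 + (F.mw m * F.Ph m y) ^ 2) := by
  obtain ⟨p1, p2⟩ := F.P0_loc hm hy h2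
  obtain ⟨a1, a2, a3⟩ := arc_d (F.Ph_mem hm).1 (F.mw m) y
  have e1 : px (F.Mw m) y = ((-(F.mw m * rdx (F.Ph m) y) / (1 + (F.mw m * F.Ph m y) ^ 2) : ℝ) : ℂ) := a1
  have e2 : py (F.Mw m) y = ((-(F.mw m * rdy (F.Ph m) y) / (1 + (F.mw m * F.Ph m y) ^ 2) : ℝ) : ℂ) := a2
  have e3 : lap (F.Mw m) y = ((-(F.mw m * rlp (F.Ph m) y) / (1 + (F.mw m * F.Ph m y) ^ 2) +
        2 * F.mw m ^ 3 * F.Ph m y * (rdx (F.Ph m) y ^ 2 + rdy (F.Ph m) y ^ 2) /
          (1 + (F.mw m * F.Ph m y) ^ 2) ^ 2 : ℝ) : ℂ) := a3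
  have hμ : 0 ≤ F.mw m := by unfold mw; positivity
  have key := wt_alg (μ := F.mw m) (a := F.A0 m) (P := F.Ph m y) (P1 := rdx (F.Ph m) y) (P2 := rdy (F.Ph m) y)
    (L := rlp (F.Ph m) y) (f1 := (deriv (F.Fm m) y).re) (f2 := -(deriv (F.Fm m) y).im) (w1 := w1) (w2 := w2) hμ
  unfold LM
  rw [e1, e2, e3, p1, p2]
  simp only [Complex.ofReal_re]
  have e4 : (deriv (F.Fm m) y).re * rdx (F.Ph m) y - (deriv (F.Fm m) y).im * rdy (F.Ph m) y =
      (deriv (F.Fm m) y).re * rdx (F.Ph m) y + -(deriv (F.Fm m) y).im * rdy (F.Ph m) y := by ring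
  have e5 : -(F.A0 m * (deriv (F.Fm m) y).im) + w2 = F.A0 m * -(deriv (F.Fm m) y).im + w2 := by ring
  rw [e4, e5]
  exact key

end FD

end Pool.Agent.Lib.MP_79abb3_an.PD
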