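import Pool.Agent.Lib.MP_79abb3_an.PD.FhA1

/-!
Theorem D, block F, flush: the inequality for the weight.
-/

set_option autoImplicit false
set_option linter.unusedSectionVars false

open MeasureTheory Set Filter Topology Function
open scoped ENNReal InnerProductSpace ComplexConjugate

namespace Pool.Agent.Lib.MP_79abb3_an.PD

open Pool.Agent.Lib.MP_79abb3_an.SC Pool.Agent.Lib.MP_79abb3_an.P25

private theorem fhA2_alg {m e G N c sh φ μ A : ℝ} (hm : 0 < m) (he : 1 ≤ e) (hμ : μ = 2 * m * (e⁻¹) ^ 2)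
    (hA : A = 32 * m * e⁻¹) (hG : 0 ≤ G) (hN : G * sh ≤ N) (hsh : 0 ≤ sh) (hcs : sh ^ 2 = c ^ 2 - 1)
    (hc : e ^ 2 / 2 ≤ c) (hc2 : 2 ≤ c ^ 2) (hφ : |φ| ≤ c / m) :
    (5 / 4 * μ ^ 2 * N ^ 2 - A * μ * N ^ 2) / (1 + (μ * φ) ^ 2) ≤ -(m ^ 2 * e * G ^ 2) := by
  have he0 : 0 < e := by linarith
  have hμ0 : 0 < μ := by rw [hμ]; positivity
  have hA0 : 0 < A := by rw [hA]; positivity
  have hQ0 : 0 < 1 + (μ * φ) ^ 2 := by positivity
  have hc0 : 0 < c := by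
    have : 0 < e ^ 2 / 2 := by positivity
    linarith
  have h8 : 8 * e * μ ≤ A := by
    rw [hμ, hA]
    have : 8 * e * (2 * m * (e⁻¹) ^ 2) = 16 * m * e⁻¹ := by field_simp; ring
    rw [this]
    have h0 : 0 < m * e⁻¹ := by positivity
    nlinarith
  have h9 : 8 * μ ≤ A := by nlinarith
  have h1 : 1 ≤ μ * c / m := by
    rw [hμ, le_div_iff₀ hm, one_mul]
    have h2 : m = 2 * m * (e⁻¹) ^ 2 * (e ^ 2 / 2) := by field_simp
    calc m = 2 * m * (e⁻¹) ^ 2 * (e ^ 2 / 2) := h2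
      _ ≤ 2 * m * (e⁻¹) ^ 2 * c := mul_le_mul_of_nonneg_left hc (by positivity)
  have h3 : (μ * φ) ^ 2 ≤ (μ * c / m) ^ 2 := by
    rw [← sq_abs (μ * φ), abs_mul, abs_of_pos hμ0]
    have h4 : μ * |φ| ≤ μ * (c / m) := mul_le_mul_of_nonneg_left hφ hμ0.le
    have h5 : μ * (c / m) = μ * c / m := by ring
    rw [h5] at h4
    exact pow_le_pow_left₀ (by positivity) h4 2
  have h6 : 1 + (μ * φ) ^ 2 ≤ 2 * (μ * c / m) ^ 2 := by nlinarith
  have h7 : m ^ 2 * e * G ^ 2 * (1 + (μ * φ) ^ 2) ≤ 2 * e * μ ^ 2 * (G ^ 2 * c ^ 2) := by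
    have h71 : m ^ 2 * e * G ^ 2 * (1 + (μ * φ) ^ 2) ≤ m ^ 2 * e * G ^ 2 * (2 * (μ * c / m) ^ 2) :=
      mul_le_mul_of_nonneg_left h6 (by positivity)
    have h72 : m ^ 2 * e * G ^ 2 * (2 * (μ * c / m) ^ 2) = 2 * e * μ ^ 2 * (G ^ 2 * c ^ 2) := by
      field_simp
    linarith
  have hN2 : G ^ 2 * c ^ 2 / 2 ≤ N ^ 2 := by
    have h10 : (G * sh) ^ 2 ≤ N ^ 2 := pow_le_pow_left₀ (by positivity) hN 2
    have h11 : (G * sh) ^ 2 = G ^ 2 * (c ^ 2 - 1) := by rw [mul_pow, hcs]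
    have h12 : G ^ 2 * (c ^ 2 / 2) ≤ G ^ 2 * (c ^ 2 - 1) := mul_le_mul_of_nonneg_left (by linarith) (sq_nonneg G)
    linarith
  have h13 : A * μ / 2 ≤ A * μ - 5 / 4 * μ ^ 2 := by nlinarith
  have h14 : A * μ / 2 * (G ^ 2 * c ^ 2 / 2) ≤ (A * μ - 5 / 4 * μ ^ 2) * N ^ 2 :=
    mul_le_mul h13 hN2 (by positivity) (le_trans (by positivity) h13)
  have h15 : 2 * e * μ ^ 2 * (G ^ 2 * c ^ 2) ≤ A * μ / 2 * (G ^ 2 * c ^ 2 / 2) := by
    have h16 : 0 ≤ μ * (G ^ 2 * c ^ 2) := by positivity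
    nlinarith [mul_le_mul_of_nonneg_right h8 h16]
  rw [div_le_iff₀ hQ0]
  nlinarith

private theorem fhA2_st1 {T : ℝ} (hT : 1 ≤ T) : Real.smoothTransition T = 1 := Real.smoothTransition.one_of_one_le hT

private theorem fhA2_zero {f : ℝ → ℝ} (hf : Continuous f) (h : ∀ t, 1 < t → f t = 0) {T : ℝ} (hT : 1 ≤ T) : f T = 0 := by
  have h1 : IsClosed {t | f t = 0} := isClosed_eq hf continuous_const
  have h2 : closure (Ioi (1:ℝ)) ⊆ {t | f t = 0} := closure_minimal (fun t ht => h t ht) h1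
  rw [closure_Ioi] at h2
  exact h2 hT

private theorem fhA2_d1 {T : ℝ} (hT : 1 ≤ T) : deriv Real.smoothTransition T = 0 := by
  have hs : ContDiff ℝ ((⊤ : ℕ∞) : WithTop ℕ∞) Real.smoothTransition := Real.smoothTransition.contDiff
  refine fhA2_zero (hs.continuous_deriv (by simp)) (fun t ht => ?_) hT
  have h1 : Real.smoothTransition =ᶠ[𝓝 t] fun _ => 1 := by
    filter_upwards [isOpen_Ioi.mem_nhds ht] with z hz
    exact Real.smoothTransition.one_of_one_le (le_of_lt hz)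
  rw [h1.deriv_eq]
  simp

private theorem fhA2_d2 {T : ℝ} (hT : 1 ≤ T) : deriv (deriv Real.smoothTransition) T = 0 := by
  have hs : ContDiff ℝ ((⊤ : ℕ∞) : WithTop ℕ∞) Real.smoothTransition := Real.smoothTransition.contDiff
  have hs1 : ContDiff ℝ ((⊤ : ℕ∞) : WithTop ℕ∞) (deriv Real.smoothTransition) :=
    ((contDiff_infty_iff_deriv (𝕜 := ℝ)).1 hs).2
  refine fhA2_zero (hs1.continuous_deriv (by simp)) (fun t ht => ?_) hT
  have h1 : deriv Real.smoothTransition =ᶠ[𝓝 t] fun _ => 0 := by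
    filter_upwards [isOpen_Ioi.mem_nhds ht] with z hz
    exact fhA2_d1 (le_of_lt hz)
  rw [h1.deriv_eq]
  simp

namespace FD
variable {D : Set ℂ} (F : FD D)

/-- Above the near-wall region: `g = 1`, `g' = g'' = 0` (if `h = 2 z*`: the derivatives of `smoothTransition` vanish on `[1, ∞)`).
`LM_le`: `μ ≤ A₀/16`, so the last term is at most `-(A₀ μ - 5/4 μ²) |F_m'|² / Q ≤ -(A₀ μ/2) |F_m'|² / Q`;
`|F_m'| ≥ |gr h| sinh (m h)`, `φ² ≤ cosh² (m h)/m²` (`Fm_bd`); `(μ/m) cosh (m h) ≥ 1` (`m h ≥ 2 m z* = 2√(K m)`), so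
`Q ≤ 2 (μ/m)² cosh²`, `sinh² ≥ cosh²/2` (`m h ≥ 2`): `|F_m'|²/Q ≥ |gr h|² m²/(4 μ²)` and `A₀ m²/(8 μ) = 2 m² exp √(K m)`. -/
theorem wt_high {m : ℕ} (hm : 1 ≤ m) {y : ℂ} (hy : y ∈ D) (h2 : F.s2 < dist y F.x) (h3 : 2 * F.zs m ≤ F.h y) (w1 w2 : ℝ) :
    F.LM m y w1 w2 ≤ (w1 ^ 2 + w2 ^ 2) - m ^ 2 * Real.exp √((F.K : ℝ) * m) * ‖gr F.h y‖ ^ 2 := by
  have hm0 : (0 : ℝ) < m := by exact_mod_cast hm
  have hK1 : (1 : ℝ) ≤ F.K := by exact_mod_cast F.K1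
  have hK0 : (0 : ℝ) < F.K := by linarith
  have hz : 0 < F.zs m := Real.sqrt_pos.2 (div_pos hK0 hm0)
  have hT : 1 ≤ F.h y / F.zs m - 1 := by
    have : 2 ≤ F.h y / F.zs m := (le_div_iff₀ hz).2 h3
    linarith
  obtain ⟨q1, q2, q3, q4⟩ := F.Ph_loc hm hy h2
  rw [fhA2_st1 hT, one_mul] at q1
  rw [fhA2_st1 hT, fhA2_d1 hT, zero_div, mul_zero, zero_mul, add_zero, one_mul] at q2 q3
  rw [fhA2_d1 hT, fhA2_d2 hT, zero_div, zero_div, mul_zero, mul_zero, zero_mul, zero_mul, add_zero] at q4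
  have key := F.LM_le hm hy h2 w1 w2
  rw [q1, q2, q3, q4, abs_zero, mul_zero, zero_add] at key
  have hy' : y ∈ D \ Metric.closedBall F.x F.s :=
    ⟨hy, fun h => absurd (Metric.mem_closedBall.1 h) (not_le.2 (F.h1.trans (F.h2.trans h2)))⟩
  obtain ⟨b1, -, b3, -⟩ := F.Fm_bd hm hy'
  have hn : (deriv (F.Fm m) y).re ^ 2 + (-(deriv (F.Fm m) y).im) ^ 2 = ‖deriv (F.Fm m) y‖ ^ 2 := by
    rw [← Complex.normSq_eq_norm_sq, Complex.normSq_apply]
    ring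
  have hn2 : (deriv (F.Fm m) y).re * (deriv (F.Fm m) y).re - (deriv (F.Fm m) y).im * -(deriv (F.Fm m) y).im =
      ‖deriv (F.Fm m) y‖ ^ 2 := by
    rw [← hn]
    ring
  rw [hn, hn2] at key
  set s : ℝ := √((F.K : ℝ) * m) with hs
  have hs1 : 1 ≤ s := by
    rw [hs]
    refine Real.one_le_sqrt.2 ?_
    have h4 : (1 : ℝ) ≤ m := by exact_mod_cast hm
    nlinarith
  have hH : 2 * s ≤ m * F.h y := by
    have h5 : (m : ℝ) * F.zs m = s := by
      unfold zs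
      rw [hs]
      have h6 : (m : ℝ) = √((m : ℝ) ^ 2) := (Real.sqrt_sq hm0.le).symm
      rw [h6, ← Real.sqrt_mul (by positivity), ← h6]
      congr 1
      field_simp
    have h7 : (m : ℝ) * (2 * F.zs m) ≤ m * F.h y := mul_le_mul_of_nonneg_left h3 hm0.le
    linarith
  have hμ : F.mw m = 2 * m * ((Real.exp s)⁻¹) ^ 2 := by
    unfold mw
    rw [← hs, ← Real.exp_neg, ← Real.exp_nat_mul]
    congr 2
    push_cast
    ring
  have hA : F.A0 m = 32 * m * (Real.exp s)⁻¹ := by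
    unfold A0
    rw [← hs, ← Real.exp_neg]
  have he : 1 ≤ Real.exp s := Real.one_le_exp (by linarith)
  have hsh : 0 ≤ Real.sinh (m * F.h y) := Real.sinh_nonneg_iff.2 (by linarith)
  have hcs : Real.sinh (m * F.h y) ^ 2 = Real.cosh (m * F.h y) ^ 2 - 1 := by
    rw [Real.cosh_sq]
    ring
  have hc : Real.exp s ^ 2 / 2 ≤ Real.cosh (m * F.h y) := by
    have h80 : Real.exp s ^ 2 = Real.exp (2 * s) := by
      rw [← Real.exp_nat_mul]
      norm_num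
    rw [Real.cosh_eq, h80]
    have h8 : Real.exp (2 * s) ≤ Real.exp (m * F.h y) := Real.exp_le_exp.2 (by linarith)
    have h9 := Real.exp_pos (-(m * F.h y))
    linarith
  have hc2 : 2 ≤ Real.cosh (m * F.h y) ^ 2 := by
    have h10 : 2 ≤ Real.exp s := by
      have := Real.add_one_le_exp s
      linarith
    have h11 : 2 ≤ Real.cosh (m * F.h y) := by nlinarith
    nlinarith
  have fin := fhA2_alg (φ := (F.Fm m y).re) hm0 he hμ hA (norm_nonneg (gr F.h y)) b1 hsh hcs hc hc2 b3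
  linarith

end FD

end Pool.Agent.Lib.MP_79abb3_an.PD
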