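import Pool.Agent.Lib.MP_79abb3_an.PD.FhA1

/-!
Theorem D, block F, flush: the inequality for the weight.
-/

set_option autoImplicit false
set_option linter.unusedSectionVars false

open MeasureTheory Set Filter Topology Function
open scoped ENNReal InnerProductSpace ComplexConjugate

namespace Pool.Agent.Lib.MP_79abb3_an.PD

open Pool.Agent.Lib.MP_79abb3_an.SC Pool.Agent.Lib.MP_79abb3_an.P25

private theorem fh3_cs {F Γ a b h1 h2 : ℝ} (hF0 : 0 ≤ F) (hFe : F ^ 2 = a ^ 2 + b ^ 2) (hΓ0 : 0 ≤ Γ)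
    (hΓe : Γ ^ 2 = h1 ^ 2 + h2 ^ 2) : |a * h1 - b * h2| ≤ F * Γ := by
  apply abs_le_of_sq_le_sq _ (mul_nonneg hF0 hΓ0)
  rw [mul_pow, hFe, hΓe]
  nlinarith [sq_nonneg (a * h2 + b * h1)]

private theorem fh3_a {μ m p c M G F Γ g q r φ a b h1 h2 : ℝ} (hμ : 0 ≤ μ) (hm : 1 ≤ m) (hp0 : 0 ≤ p)
    (hp : p ≤ m) (hp2 : p ^ 2 ≤ m) (hc : 0 ≤ c) (hM : 0 ≤ M) (hG : 0 ≤ G) (hF0 : 0 ≤ F)
    (hFe : F ^ 2 = a ^ 2 + b ^ 2) (hΓ0 : 0 ≤ Γ) (hΓe : Γ ^ 2 = h1 ^ 2 + h2 ^ 2) (hΓ : Γ ≤ G)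
    (hF : F ≤ Γ * c) (hφ : |φ| * m ≤ c) (hq : |q| ≤ M * p) (hr : |r| ≤ M * p ^ 2) (hg0 : 0 ≤ g)
    (hg1 : g ≤ 1) (hμc : μ * c ≤ 2 * m) :
    μ * |2 * q * (a * h1 - b * h2) + φ * r * (h1 ^ 2 + h2 ^ 2)| ≤ 6 * M * G ^ 2 * m ^ 2 ∧
      5 / 4 * μ ^ 2 * ((g * a + φ * q * h1) ^ 2 + (g * (-b) + φ * q * h2) ^ 2) ≤
        10 * G ^ 2 * (1 + M ^ 2) * m ^ 2 := by
  have hX := fh3_cs hF0 hFe hΓ0 hΓe
  have hΓ2 : Γ ^ 2 ≤ G ^ 2 := pow_le_pow_left₀ hΓ0 hΓ 2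
  have hFG : F * Γ ≤ Γ ^ 2 * c := by
    have j1 := mul_le_mul_of_nonneg_right hF hΓ0
    linarith [show Γ * c * Γ = Γ ^ 2 * c by ring]
  have hφ0 := abs_nonneg φ
  have hm0 : 0 ≤ m := by linarith
  constructor
  · have e1 : |2 * q * (a * h1 - b * h2) + φ * r * (h1 ^ 2 + h2 ^ 2)| ≤
        2 * (|q| * |a * h1 - b * h2|) + |φ| * |r| * Γ ^ 2 := by
      refine (abs_add_le _ _).trans (add_le_add (le_of_eq ?_) (le_of_eq ?_))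
      · rw [abs_mul, abs_mul, abs_two]; ring
      · rw [abs_mul, abs_mul, ← hΓe, abs_of_nonneg (sq_nonneg Γ)]
    have e2 : |q| * |a * h1 - b * h2| ≤ (M * p) * (Γ ^ 2 * c) :=
      mul_le_mul hq (hX.trans hFG) (abs_nonneg _) (mul_nonneg hM hp0)
    have e3 : |φ| * |r| ≤ M * c := by
      have k1 : |φ| * |r| ≤ |φ| * (M * p ^ 2) := mul_le_mul_of_nonneg_left hr hφ0
      have k2 : |φ| * p ^ 2 ≤ |φ| * m := mul_le_mul_of_nonneg_left hp2 hφ0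
      have k3 := mul_le_mul_of_nonneg_left (k2.trans hφ) hM
      linarith [show |φ| * (M * p ^ 2) = M * (|φ| * p ^ 2) by ring]
    have e4 : |φ| * |r| * Γ ^ 2 ≤ M * c * Γ ^ 2 := mul_le_mul_of_nonneg_right e3 (sq_nonneg _)
    have hMc : 0 ≤ M * c := mul_nonneg hM hc
    have e5 : |2 * q * (a * h1 - b * h2) + φ * r * (h1 ^ 2 + h2 ^ 2)| ≤ (M * c * Γ ^ 2) * (3 * m) := by
      have k3 : 0 ≤ M * c * Γ ^ 2 := mul_nonneg hMc (sq_nonneg _)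
      have k4 : (M * c * Γ ^ 2) * (2 * p + 1) ≤ (M * c * Γ ^ 2) * (3 * m) :=
        mul_le_mul_of_nonneg_left (by linarith) k3
      linarith [show 2 * ((M * p) * (Γ ^ 2 * c)) + M * c * Γ ^ 2 = (M * c * Γ ^ 2) * (2 * p + 1) by ring]
    have e6 : (M * c * Γ ^ 2) * (3 * m) ≤ (M * c * G ^ 2) * (3 * m) := by
      have := mul_le_mul_of_nonneg_left hΓ2 hMc
      exact mul_le_mul_of_nonneg_right this (by linarith)
    calc μ * |2 * q * (a * h1 - b * h2) + φ * r * (h1 ^ 2 + h2 ^ 2)|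
        ≤ μ * ((M * c * G ^ 2) * (3 * m)) := mul_le_mul_of_nonneg_left (e5.trans e6) hμ
      _ = (μ * c) * (3 * M * G ^ 2 * m) := by ring
      _ ≤ (2 * m) * (3 * M * G ^ 2 * m) := mul_le_mul_of_nonneg_right hμc (by positivity)
      _ = 6 * M * G ^ 2 * m ^ 2 := by ring
  · have f1 : F ^ 2 ≤ Γ ^ 2 * c ^ 2 := by
      rw [← mul_pow]; exact pow_le_pow_left₀ hF0 hF 2
    have f2 : (φ * q) ^ 2 ≤ M ^ 2 * c ^ 2 := by
      have k1 : |φ * q| ≤ M * c := by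
        rw [abs_mul]
        have k2 : |φ| * |q| ≤ |φ| * (M * p) := mul_le_mul_of_nonneg_left hq hφ0
        have k3 : |φ| * p ≤ |φ| * m := mul_le_mul_of_nonneg_left hp hφ0
        have k4 := mul_le_mul_of_nonneg_left (k3.trans hφ) hM
        linarith [show |φ| * (M * p) = M * (|φ| * p) by ring]
      rw [← mul_pow, ← sq_abs (φ * q)]
      exact pow_le_pow_left₀ (abs_nonneg _) k1 2
    have f3 : (g * a + φ * q * h1) ^ 2 + (g * (-b) + φ * q * h2) ^ 2 ≤ 2 * F ^ 2 + 2 * ((φ * q) ^ 2 * Γ ^ 2) := by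
      have hg2 : g ^ 2 ≤ 1 := pow_le_one₀ hg0 hg1
      have k1 : g ^ 2 * F ^ 2 ≤ F ^ 2 := mul_le_of_le_one_left (sq_nonneg _) hg2
      rw [hFe] at k1 ⊢
      rw [hΓe]
      have j1 : (g * a + φ * q * h1) ^ 2 + (g * (-b) + φ * q * h2) ^ 2 = 2 * (g ^ 2 * (a ^ 2 + b ^ 2)) +
          2 * ((φ * q) ^ 2 * (h1 ^ 2 + h2 ^ 2)) -
          ((g * a - φ * q * h1) ^ 2 + (g * (-b) - φ * q * h2) ^ 2) := by ring
      have j2 := sq_nonneg (g * a - φ * q * h1)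
      have j3 := sq_nonneg (g * (-b) - φ * q * h2)
      linarith
    have f4 : (φ * q) ^ 2 * Γ ^ 2 ≤ M ^ 2 * c ^ 2 * Γ ^ 2 := mul_le_mul_of_nonneg_right f2 (sq_nonneg _)
    have f5 : (g * a + φ * q * h1) ^ 2 + (g * (-b) + φ * q * h2) ^ 2 ≤ 2 * (1 + M ^ 2) * c ^ 2 * G ^ 2 := by
      have k3 : 0 ≤ 2 * (1 + M ^ 2) * c ^ 2 := by positivity
      have k4 := mul_le_mul_of_nonneg_left hΓ2 k3
      have k5 : 2 * (Γ ^ 2 * c ^ 2) + 2 * (M ^ 2 * c ^ 2 * Γ ^ 2) = 2 * (1 + M ^ 2) * c ^ 2 * Γ ^ 2 := by ring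
      linarith
    have f6 : (μ * c) ^ 2 ≤ (2 * m) ^ 2 := pow_le_pow_left₀ (mul_nonneg hμ hc) hμc 2
    calc 5 / 4 * μ ^ 2 * ((g * a + φ * q * h1) ^ 2 + (g * (-b) + φ * q * h2) ^ 2)
        ≤ 5 / 4 * μ ^ 2 * (2 * (1 + M ^ 2) * c ^ 2 * G ^ 2) := mul_le_mul_of_nonneg_left f5 (by positivity)
      _ = (5 / 2 * (1 + M ^ 2) * G ^ 2) * (μ * c) ^ 2 := by ring
      _ ≤ (5 / 2 * (1 + M ^ 2) * G ^ 2) * (2 * m) ^ 2 := mul_le_mul_of_nonneg_left f6 (by positivity)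
      _ = 10 * G ^ 2 * (1 + M ^ 2) * m ^ 2 := by ring

private theorem fh3_id (a b h1 h2 g q φ : ℝ) : a * (g * a + φ * q * h1) - b * (g * (-b) + φ * q * h2) =
    g * (a ^ 2 + b ^ 2) + φ * q * (a * h1 - b * h2) := by ring

/-- the far part -/
private theorem fh3_b {m p c s M F Γ g g₀ q φ a b h1 h2 : ℝ} (hm : 1 ≤ m) (hp0 : 0 ≤ p)
    (hc : 0 ≤ c) (hM : 0 ≤ M) (hF0 : 0 ≤ F)
    (hFe : F ^ 2 = a ^ 2 + b ^ 2) (hΓ0 : 0 ≤ Γ) (hΓe : Γ ^ 2 = h1 ^ 2 + h2 ^ 2)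
    (hs : Γ * s ≤ F) (hsc : c / 2 ≤ s) (hφ : |φ| * m ≤ c) (hq : |q| ≤ M * p) (hg₀ : 0 < g₀) (hg : g₀ ≤ g)
    (hpm : 2 * M * p ≤ g₀ * m) :
    0 ≤ a * (g * a + φ * q * h1) - b * (g * (-b) + φ * q * h2) := by
  rw [fh3_id, ← hFe]
  have hX := fh3_cs hF0 hFe hΓ0 hΓe
  have hφ0 := abs_nonneg φ
  have hm0 : 0 < m := by linarith
  have k1 : |φ * q * (a * h1 - b * h2)| ≤ (|φ| * (M * p)) * (F * Γ) := by
    rw [abs_mul, abs_mul]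
    exact mul_le_mul (mul_le_mul_of_nonneg_left hq hφ0) hX (abs_nonneg _)
      (mul_nonneg hφ0 (mul_nonneg hM hp0))
  have k2 : |φ| * (M * p) ≤ g₀ * (c / 2) := by
    have j1 : (|φ| * (M * p)) * 2 ≤ |φ| * (g₀ * m) := by
      have := mul_le_mul_of_nonneg_left hpm hφ0
      linarith [show |φ| * (2 * M * p) = (|φ| * (M * p)) * 2 by ring]
    have j2 : |φ| * (g₀ * m) ≤ g₀ * c := by
      have := mul_le_mul_of_nonneg_left hφ hg₀.le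
      linarith [show |φ| * (g₀ * m) = g₀ * (|φ| * m) by ring]
    linarith
  have k3 : g₀ * (c / 2) * Γ ≤ g₀ * F := by
    have j0 := mul_le_mul_of_nonneg_right hsc hΓ0
    have j1 : (c / 2) * Γ ≤ F := by linarith [show s * Γ = Γ * s by ring]
    have j2 := mul_le_mul_of_nonneg_left j1 hg₀.le
    linarith [show g₀ * (c / 2 * Γ) = g₀ * (c / 2) * Γ by ring]
  have k4 : (|φ| * (M * p)) * (F * Γ) ≤ g₀ * F ^ 2 := by
    have j1 : (|φ| * (M * p)) * Γ ≤ g₀ * F := (mul_le_mul_of_nonneg_right k2 hΓ0).trans k3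
    have j2 := mul_le_mul_of_nonneg_right j1 hF0
    linarith [show (|φ| * (M * p)) * Γ * F = (|φ| * (M * p)) * (F * Γ) by ring,
      show g₀ * F * F = g₀ * F ^ 2 by ring]
  have k5 : g₀ * F ^ 2 ≤ g * F ^ 2 := mul_le_mul_of_nonneg_right hg (sq_nonneg _)
  have := (abs_le.1 (k1.trans (k4.trans k5))).1
  linarith

/-- the near part -/
private theorem fh3_c {m p c M G F Γ g q φ a b h1 h2 B : ℝ} (hm : 1 ≤ m) (hp0 : 0 ≤ p) (hp : p ≤ m)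
    (hc : 0 ≤ c) (hM : 0 ≤ M) (hF0 : 0 ≤ F)
    (hFe : F ^ 2 = a ^ 2 + b ^ 2) (hΓ0 : 0 ≤ Γ) (hΓe : Γ ^ 2 = h1 ^ 2 + h2 ^ 2) (hΓ : Γ ≤ G)
    (hF : F ≤ Γ * c) (hφ : |φ| * m ≤ c) (hq : |q| ≤ M * p) (hg0 : 0 ≤ g) (hB : 0 ≤ B)
    (hBc : B * c ^ 2 ≤ 64 * m ^ 2) :
    -(B * (a * (g * a + φ * q * h1) - b * (g * (-b) + φ * q * h2))) ≤ 64 * M * G ^ 2 * m ^ 2 := by
  rw [fh3_id, ← hFe]
  have hX := fh3_cs hF0 hFe hΓ0 hΓe
  have hφ0 := abs_nonneg φ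
  have hm0 : 0 < m := by linarith
  have hΓ2 : Γ ^ 2 ≤ G ^ 2 := pow_le_pow_left₀ hΓ0 hΓ 2
  have k1 : |φ * q * (a * h1 - b * h2)| ≤ (|φ| * (M * p)) * (F * Γ) := by
    rw [abs_mul, abs_mul]
    exact mul_le_mul (mul_le_mul_of_nonneg_left hq hφ0) hX (abs_nonneg _)
      (mul_nonneg hφ0 (mul_nonneg hM hp0))
  have k2 : |φ| * (M * p) ≤ M * c := by
    have k3 : |φ| * p ≤ |φ| * m := mul_le_mul_of_nonneg_left hp hφ0
    have k4 := mul_le_mul_of_nonneg_left (k3.trans hφ) hM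
    linarith [show |φ| * (M * p) = M * (|φ| * p) by ring]
  have k3 : F * Γ ≤ c * G ^ 2 := by
    have j1 := mul_le_mul_of_nonneg_right hF hΓ0
    have j2 := mul_le_mul_of_nonneg_left hΓ2 hc
    linarith [show Γ * c * Γ = c * Γ ^ 2 by ring]
  have k4 : (|φ| * (M * p)) * (F * Γ) ≤ (M * c) * (c * G ^ 2) :=
    mul_le_mul k2 k3 (mul_nonneg hF0 hΓ0) (mul_nonneg hM hc)
  have k5 := (abs_le.1 (k1.trans k4)).1
  have k6 : 0 ≤ g * F ^ 2 := mul_nonneg hg0 (sq_nonneg _)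
  have k7 : B * (-((M * c) * (c * G ^ 2))) ≤ B * (g * F ^ 2 + φ * q * (a * h1 - b * h2)) :=
    mul_le_mul_of_nonneg_left (by linarith) hB
  have k8 : (B * c ^ 2) * (M * G ^ 2) ≤ (64 * m ^ 2) * (M * G ^ 2) :=
    mul_le_mul_of_nonneg_right hBc (by positivity)
  linarith [show B * (-((M * c) * (c * G ^ 2))) = -((B * c ^ 2) * (M * G ^ 2)) by ring]

private theorem fh3_ch {x : ℝ} (hx : 0 ≤ x) : Real.cosh x ≤ Real.exp x := by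
  rw [Real.cosh_eq]
  have : Real.exp (-x) ≤ Real.exp x := Real.exp_le_exp.2 (by linarith)
  linarith

private theorem fh3_sh {x : ℝ} (hx : 1 ≤ x) : Real.cosh x / 2 ≤ Real.sinh x := by
  rw [Real.cosh_eq, Real.sinh_eq]
  have h1 : 3 ≤ Real.exp (2 * x) := by
    have := Real.add_one_le_exp (2 * x)
    linarith
  have h2 : Real.exp x = Real.exp (2 * x) * Real.exp (-x) := by
    rw [← Real.exp_add]; congr 1; ring
  have h3 := Real.exp_pos (-x)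
  nlinarith

namespace FD
variable {D : Set ℂ} (F : FD D)

/-- Near the wall (`h < 2 z*`): `LM_le`, `Ph_loc`, `Fm_bd`, `gr_bdd`, `st_bd`. With `c = cosh (m h) ≤ exp (2 √(K m))`, `μ c ≤ 2 m`,
`m z* = √(K m) ≥ 1`, `1/z* ≤ √m`, `G = sup |gr h|`: `μ |ΔPh| ≤ μ c (2 M G²/z* + M G²/(m z*²)) ≤ C m²`,
`μ² |∇Ph|² ≤ μ² c² G² (1 + M/(m z*))² ≤ C m²`. The term `-A₀ μ (g |F_m'|² + φ g' F_m'·∇h / z*)`: if `h ≥ 5/4 z*`:
`g ≥ g₀`, `|F_m'| ≥ |gr h| c/2` (`m h ≥ 5/4`), so `|φ g' ∇h / z*| ≤ 2 M/(m z*) |F_m'| ≤ g₀ |F_m'|` for large `m`: the term is `≤ 0`. If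
`h < 5/4 z*` it is at most `A₀ μ (c²/m) (M/z*) G² ≤ C m²` because `c ≤ exp (5/4 √(K m))`, `A₀ μ = 64 m² exp (-3√(K m))`.
Everything is divided by `Q ≥ 1`. -/
theorem wt_low : ∃ (C : ℝ) (m₀ : ℕ), 0 ≤ C ∧ 1 ≤ m₀ ∧ ∀ m : ℕ, m₀ ≤ m → ∀ y ∈ D, F.s2 < dist y F.x → F.h y < 2 * F.zs m →
    ∀ w1 w2 : ℝ, F.LM m y w1 w2 ≤ C * m ^ 2 + (w1 ^ 2 + w2 ^ 2) := by
  obtain ⟨M, g₀, hM, hg₀, hM1, hM2, hst⟩ := st_bd
  obtain ⟨G₀, hG₀⟩ := F.fl.gr_bdd F.hD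
  obtain ⟨G, hG0, hG⟩ : ∃ G, 0 ≤ G ∧ ∀ y ∈ D, ‖gr F.h y‖ ≤ G :=
    ⟨max G₀ 0, le_max_right _ _, fun y hy => (hG₀ y hy).trans (le_max_left _ _)⟩
  refine ⟨6 * M * G ^ 2 + 10 * G ^ 2 * (1 + M ^ 2) + 64 * M * G ^ 2, ⌈4 * M ^ 2 / g₀ ^ 2⌉₊ + 1,
    by positivity, by omega, ?_⟩
  intro m hm y hy h2 h3 w1 w2
  have hm1' : 1 ≤ m := by omega
  have hm1 : (1 : ℝ) ≤ m := by exact_mod_cast hm1'
  have hm0 : (0 : ℝ) < m := by linarith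
  have hK1 : (1 : ℝ) ≤ F.K := by exact_mod_cast F.K1
  have hK0 : (0 : ℝ) < F.K := by linarith
  have hmM : 4 * M ^ 2 ≤ g₀ ^ 2 * m := by
    have k1 : 4 * M ^ 2 / g₀ ^ 2 ≤ m := by
      refine (Nat.le_ceil _).trans ?_
      have : ⌈4 * M ^ 2 / g₀ ^ 2⌉₊ ≤ m := by omega
      exact_mod_cast this
    rw [div_le_iff₀ (by positivity)] at k1
    linarith
  obtain ⟨z, hz⟩ : ∃ z, z = F.zs m := ⟨_, rfl⟩
  obtain ⟨R, hR⟩ : ∃ R, R = √((F.K : ℝ) * m) := ⟨_, rfl⟩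
  have hzs : z = √((F.K : ℝ) / m) := hz
  have hz0 : 0 < z := by rw [hzs]; exact Real.sqrt_pos.2 (div_pos hK0 hm0)
  have hz2 : z ^ 2 * m = F.K := by
    rw [hzs, Real.sq_sqrt (by positivity)]
    field_simp
  have hR0 : 0 ≤ R := by rw [hR]; exact Real.sqrt_nonneg _
  have hR2 : R ^ 2 = F.K * m := by rw [hR, Real.sq_sqrt (by positivity)]
  have hmz : m * z = R := by
    have k1 : (m * z) ^ 2 = R ^ 2 := by rw [hR2, mul_pow, ← hz2]; ring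
    exact (pow_left_inj₀ (by positivity) hR0 two_ne_zero).1 k1
  have hR1 : 1 ≤ R := by
    have k1 : (1 : ℝ) ≤ F.K * m := one_le_mul_of_one_le_of_one_le hK1 hm1
    rw [hR]
    exact Real.one_le_sqrt.2 k1
  obtain ⟨p, hp⟩ : ∃ p, p = z⁻¹ := ⟨_, rfl⟩
  have hp0 : 0 < p := by rw [hp]; exact inv_pos.2 hz0
  have hpz : p * z = 1 := by rw [hp]; exact inv_mul_cancel₀ hz0.ne'
  have hp2K : p ^ 2 * (F.K : ℝ) = (m : ℝ) := by
    have k1 : p ^ 2 * (z ^ 2 * (m : ℝ)) = (p * z) ^ 2 * (m : ℝ) := by ring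
    rw [← hz2, k1, hpz]
    ring
  have hp2 : p ^ 2 ≤ m := by
    have k1 := mul_le_mul_of_nonneg_left hK1 (sq_nonneg p)
    linarith
  have hpm : p ≤ m := by
    have k1 : (m : ℝ) ≤ (m : ℝ) ^ 2 := le_self_pow₀ hm1 two_ne_zero
    exact (pow_le_pow_iff_left₀ hp0.le hm0.le two_ne_zero).1 (hp2.trans k1)
  have hpM : 2 * M * p ≤ g₀ * m := by
    have k1 : (2 * M * p) ^ 2 ≤ (g₀ * m) ^ 2 := by
      calc (2 * M * p) ^ 2 = (4 * M ^ 2) * p ^ 2 := by ring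
        _ ≤ (g₀ ^ 2 * m) * m := mul_le_mul hmM hp2 (sq_nonneg _) (by positivity)
        _ = (g₀ * m) ^ 2 := by ring
    exact (pow_le_pow_iff_left₀ (by positivity) (by positivity) two_ne_zero).1 k1
  have hyB : y ∈ D \ Metric.closedBall F.x F.s :=
    ⟨hy, fun h => absurd (Metric.mem_closedBall.1 h) (not_le.2 ((F.h1.trans F.h2).trans h2))⟩
  obtain ⟨b1, b2, b3, -⟩ := F.Fm_bd hm1' hyB
  obtain ⟨l0, l1, l2, l3⟩ := F.Ph_loc hm1' hy h2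
  have hh0 : 0 ≤ F.h y := F.fl.nonneg y
  refine (F.LM_le hm1' hy h2 w1 w2).trans ?_
  rw [l1, l2, l3]
  obtain ⟨g, hg⟩ : ∃ g, g = Real.smoothTransition (F.h y / F.zs m - 1) := ⟨_, rfl⟩
  obtain ⟨q, hq⟩ : ∃ q, q = deriv Real.smoothTransition (F.h y / F.zs m - 1) / F.zs m := ⟨_, rfl⟩
  obtain ⟨r, hr⟩ : ∃ r, r = deriv (deriv Real.smoothTransition) (F.h y / F.zs m - 1) / F.zs m ^ 2 := ⟨_, rfl⟩
  obtain ⟨φ, hφe⟩ : ∃ φ, φ = (F.Fm m y).re := ⟨_, rfl⟩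
  obtain ⟨a, ha⟩ : ∃ a, a = (deriv (F.Fm m) y).re := ⟨_, rfl⟩
  obtain ⟨b, hb⟩ : ∃ b, b = (deriv (F.Fm m) y).im := ⟨_, rfl⟩
  obtain ⟨h1', hh1⟩ : ∃ h1', h1' = rdx F.h y := ⟨_, rfl⟩
  obtain ⟨h2', hh2⟩ : ∃ h2', h2' = rdy F.h y := ⟨_, rfl⟩
  obtain ⟨Γ, hΓ⟩ : ∃ Γ, Γ = ‖gr F.h y‖ := ⟨_, rfl⟩
  obtain ⟨N, hN⟩ : ∃ N, N = ‖deriv (F.Fm m) y‖ := ⟨_, rfl⟩
  obtain ⟨c, hc⟩ : ∃ c, c = Real.cosh (m * F.h y) := ⟨_, rfl⟩
  obtain ⟨sh, hsh⟩ : ∃ sh, sh = Real.sinh (m * F.h y) := ⟨_, rfl⟩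
  obtain ⟨μ, hμe⟩ : ∃ μ, μ = F.mw m := ⟨_, rfl⟩
  obtain ⟨A, hAe⟩ : ∃ A, A = F.A0 m := ⟨_, rfl⟩
  have hΓe : Γ ^ 2 = h1' ^ 2 + h2' ^ 2 := by
    rw [hΓ, Complex.sq_norm, Complex.normSq_apply, hh1, hh2]
    show fderiv ℝ F.h y 1 * fderiv ℝ F.h y 1 + -fderiv ℝ F.h y Complex.I * -fderiv ℝ F.h y Complex.I = _
    unfold rdx rdy
    ring
  have hNe : N ^ 2 = a ^ 2 + b ^ 2 := by
    rw [hN, Complex.sq_norm, Complex.normSq_apply, ha, hb]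
    ring
  have hΓ0 : 0 ≤ Γ := by rw [hΓ]; exact norm_nonneg _
  have hN0 : 0 ≤ N := by rw [hN]; exact norm_nonneg _
  have hΓG : Γ ≤ G := by rw [hΓ]; exact hG y hy
  rw [← hΓ, ← hN, ← hsh] at b1
  rw [← hΓ, ← hN, ← hc] at b2
  rw [← hφe, ← hc] at b3
  have hφm : |φ| * m ≤ c := by rwa [le_div_iff₀ hm0] at b3
  have hc0 : 0 ≤ c := by rw [hc]; exact (Real.cosh_pos _).le
  have hmh0 : 0 ≤ m * F.h y := mul_nonneg hm0.le hh0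
  have hg0 : 0 ≤ g := by rw [hg]; exact Real.smoothTransition.nonneg _
  have hg1 : g ≤ 1 := by rw [hg]; exact Real.smoothTransition.le_one _
  have hq' : |q| ≤ M * p := by
    rw [hq, ← hz, abs_div, abs_of_pos hz0, hp, div_eq_mul_inv]
    exact mul_le_mul_of_nonneg_right (hM1 _) (inv_nonneg.2 hz0.le)
  have hr' : |r| ≤ M * p ^ 2 := by
    rw [hr, ← hz, abs_div, abs_of_pos (pow_pos hz0 2), hp, div_eq_mul_inv, inv_pow]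
    exact mul_le_mul_of_nonneg_right (hM2 _) (inv_nonneg.2 (pow_pos hz0 2).le)
  have hμ0 : 0 ≤ μ := by rw [hμe]; unfold mw; positivity
  have hA0 : 0 ≤ A := by rw [hAe]; unfold A0; positivity
  have hcR : c ≤ Real.exp (2 * R) := by
    rw [hc]
    refine (fh3_ch hmh0).trans (Real.exp_le_exp.2 ?_)
    have : m * F.h y ≤ m * (2 * z) := mul_le_mul_of_nonneg_left (by rw [hz]; exact h3.le) hm0.le
    linarith
  have hμR : μ = 2 * m * Real.exp (-(2 * R)) := by rw [hμe, hR]; rfl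
  have hAR : A = 32 * m * Real.exp (-R) := by rw [hAe, hR]; rfl
  have hμc : μ * c ≤ 2 * m := by
    calc μ * c ≤ μ * Real.exp (2 * R) := mul_le_mul_of_nonneg_left hcR hμ0
      _ = 2 * m * (Real.exp (-(2 * R)) * Real.exp (2 * R)) := by rw [hμR]; ring
      _ = 2 * m := by rw [← Real.exp_add]; simp
  obtain ⟨t1, t2⟩ := fh3_a (r := r) hμ0 hm1 hp0.le hpm hp2 hc0 hM hG0 hN0 hNe hΓ0 hΓe hΓG b2 hφm hq' hr' hg0 hg1 hμc
  have t3 : -(A * μ * (a * (g * a + φ * q * h1') - b * (g * (-b) + φ * q * h2'))) ≤ 64 * M * G ^ 2 * m ^ 2 := by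
    rcases le_or_gt (5 / 4 * z) (F.h y) with hcase | hcase
    · have k1 : 1 / 4 ≤ F.h y / F.zs m - 1 := by
        rw [← hz]
        have : 5 / 4 ≤ F.h y / z := by rw [le_div_iff₀ hz0]; exact hcase
        linarith
      have k2 : g₀ ≤ g := by rw [hg]; exact hst _ k1
      have k3 : 1 ≤ m * F.h y := by
        have : m * (5 / 4 * z) ≤ m * F.h y := mul_le_mul_of_nonneg_left hcase hm0.le
        linarith
      have k4 : c / 2 ≤ sh := by rw [hc, hsh]; exact fh3_sh k3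
      have k5 := fh3_b hm1 hp0.le hc0 hM hN0 hNe hΓ0 hΓe b1 k4 hφm hq' hg₀ k2 hpM
      have k6 : 0 ≤ A * μ * (a * (g * a + φ * q * h1') - b * (g * (-b) + φ * q * h2')) :=
        mul_nonneg (mul_nonneg hA0 hμ0) k5
      have k7 : 0 ≤ 64 * M * G ^ 2 * (m : ℝ) ^ 2 := by positivity
      linarith
    · refine fh3_c hm1 hp0.le hpm hc0 hM hN0 hNe hΓ0 hΓe hΓG b2 hφm hq' hg0 (mul_nonneg hA0 hμ0) ?_
      have k1 : c ≤ Real.exp (5 / 4 * R) := by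
        rw [hc]
        refine (fh3_ch hmh0).trans (Real.exp_le_exp.2 ?_)
        have : m * F.h y ≤ m * (5 / 4 * z) := mul_le_mul_of_nonneg_left hcase.le hm0.le
        linarith
      have k2 : c ^ 2 ≤ Real.exp (5 / 2 * R) := by
        refine (pow_le_pow_left₀ hc0 k1 2).trans (le_of_eq ?_)
        rw [← Real.exp_nat_mul]; congr 1; push_cast; ring
      calc A * μ * c ^ 2 ≤ A * μ * Real.exp (5 / 2 * R) :=
            mul_le_mul_of_nonneg_left k2 (mul_nonneg hA0 hμ0)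
        _ = 64 * m ^ 2 * (Real.exp (-R) * Real.exp (-(2 * R)) * Real.exp (5 / 2 * R)) := by
            rw [hAR, hμR]; ring
        _ = 64 * m ^ 2 * Real.exp (-(R / 2)) := by
            rw [← Real.exp_add, ← Real.exp_add]; congr 2; ring
        _ ≤ 64 * m ^ 2 * 1 := mul_le_mul_of_nonneg_left (Real.exp_le_one_iff.2 (by linarith)) (by positivity)
        _ = 64 * m ^ 2 := by ring
  rw [← hg, ← hq, ← hr, ← hφe, ← ha, ← hb, ← hh1, ← hh2, ← hμe, ← hAe]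
  have hQ : 1 ≤ 1 + (μ * F.Ph m y) ^ 2 := le_add_of_nonneg_right (sq_nonneg _)
  have t4 : μ * |2 * q * (a * h1' - b * h2') + φ * r * (h1' ^ 2 + h2' ^ 2)| +
      5 / 4 * μ ^ 2 * ((g * a + φ * q * h1') ^ 2 + (g * (-b) + φ * q * h2') ^ 2) -
      A * μ * (a * (g * a + φ * q * h1') - b * (g * (-b) + φ * q * h2')) ≤
      (6 * M * G ^ 2 + 10 * G ^ 2 * (1 + M ^ 2) + 64 * M * G ^ 2) * m ^ 2 := by
    have k1 : (6 * M * G ^ 2 + 10 * G ^ 2 * (1 + M ^ 2) + 64 * M * G ^ 2) * (m : ℝ) ^ 2 =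
      6 * M * G ^ 2 * m ^ 2 + 10 * G ^ 2 * (1 + M ^ 2) * m ^ 2 + 64 * M * G ^ 2 * m ^ 2 := by ring
    rw [k1]
    linarith
  have t5 : (0 : ℝ) ≤ (6 * M * G ^ 2 + 10 * G ^ 2 * (1 + M ^ 2) + 64 * M * G ^ 2) * m ^ 2 := by positivity
  have t6 := (div_le_div_of_nonneg_right t4 (by linarith : (0:ℝ) ≤ 1 + (μ * F.Ph m y) ^ 2)).trans
    (div_le_self t5 hQ)
  linarith

end FD

end Pool.Agent.Lib.MP_79abb3_an.PD
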