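import Pool.Agent.Lib.MP_79abb3_an.PD.FhA1

/-!
Theorem D, block F, flush: the inequality for the weight.
-/

set_option autoImplicit false
set_option linter.unusedSectionVars false

open MeasureTheory Set Filter Topology Function
open scoped ENNReal InnerProductSpace ComplexConjugate

namespace Pool.Agent.Lib.MP_79abb3_an.PD

open Pool.Agent.Lib.MP_79abb3_an.SC Pool.Agent.Lib.MP_79abb3_an.P25

/-! ### calculus -/

private theorem fhA4_dir {f : ℂ → ℝ} {U : Set ℂ} (hU : IsOpen U)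
    (h : ContDiffOn ℝ ((⊤ : ℕ∞) : WithTop ℕ∞) f U) (e : ℂ) :
    ContDiffOn ℝ ((⊤ : ℕ∞) : WithTop ℕ∞) (fun x => fderiv ℝ f x e) U := by
  have h1 : ContDiffOn ℝ ((⊤ : ℕ∞) : WithTop ℕ∞) (fderiv ℝ f) U :=
    h.fderiv_of_isOpen hU (by exact_mod_cast le_top)
  exact h1.clm_apply contDiffOn_const

private theorem fhA4_mul1 {f g : ℂ → ℝ} {y : ℂ} (hf : DifferentiableAt ℝ f y)
    (hg : DifferentiableAt ℝ g y) (e : ℂ) :
    fderiv ℝ (fun z => f z * g z) y e = f y * fderiv ℝ g y e + g y * fderiv ℝ f y e := by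
  have h := (hf.hasFDerivAt.mul hg.hasFDerivAt).fderiv
  have h2 : fderiv ℝ (fun z => f z * g z) y = f y • fderiv ℝ g y + g y • fderiv ℝ f y := h
  rw [h2]
  rfl

private theorem fhA4_mul2 {f g : ℂ → ℝ} {U : Set ℂ} (hU : IsOpen U)
    (hf : ContDiffOn ℝ ((⊤ : ℕ∞) : WithTop ℕ∞) f U)
    (hg : ContDiffOn ℝ ((⊤ : ℕ∞) : WithTop ℕ∞) g U) {y : ℂ} (hy : y ∈ U) (e : ℂ) :
    fderiv ℝ (fun z => fderiv ℝ (fun z => f z * g z) z e) y e =
      f y * fderiv ℝ (fun z => fderiv ℝ g z e) y e + 2 * (fderiv ℝ f y e * fderiv ℝ g y e) +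
        g y * fderiv ℝ (fun z => fderiv ℝ f z e) y e := by
  have da : ∀ {k : ℂ → ℝ}, ContDiffOn ℝ ((⊤ : ℕ∞) : WithTop ℕ∞) k U → ∀ {z : ℂ}, z ∈ U →
      DifferentiableAt ℝ k z := fun hk z hz =>
    (hk.differentiableOn (by simp)).differentiableAt (hU.mem_nhds hz)
  have e1 : (fun z => fderiv ℝ (fun z => f z * g z) z e) =ᶠ[𝓝 y]
      fun z => f z * fderiv ℝ g z e + g z * fderiv ℝ f z e := by
    filter_upwards [hU.mem_nhds hy] with z hz
    exact fhA4_mul1 (da hf hz) (da hg hz) e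
  have hf' := fhA4_dir hU hf e
  have hg' := fhA4_dir hU hg e
  have h1 : HasFDerivAt (fun z => f z * fderiv ℝ g z e + g z * fderiv ℝ f z e) _ y :=
    ((da hf hy).hasFDerivAt.mul (da hg' hy).hasFDerivAt).add
      ((da hg hy).hasFDerivAt.mul (da hf' hy).hasFDerivAt)
  rw [e1.fderiv_eq, h1.fderiv]
  simp only [add_apply, smul_apply, smul_eq_mul]
  ring

private theorem fhA4_mul {f g : ℂ → ℝ} {U : Set ℂ} (hU : IsOpen U)
    (hf : ContDiffOn ℝ ((⊤ : ℕ∞) : WithTop ℕ∞) f U)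
    (hg : ContDiffOn ℝ ((⊤ : ℕ∞) : WithTop ℕ∞) g U) {y : ℂ} (hy : y ∈ U) :
    rlp (fun z => f z * g z) y = f y * rlp g y + 2 * (rdx f y * rdx g y + rdy f y * rdy g y) +
      g y * rlp f y := by
  have h1 := fhA4_mul2 hU hf hg hy 1
  have h2 := fhA4_mul2 hU hf hg hy Complex.I
  have e1 : rdx (rdx fun z => f z * g z) y =
      fderiv ℝ (fun z => fderiv ℝ (fun z => f z * g z) z 1) y 1 := rfl
  have e2 : rdy (rdy fun z => f z * g z) y =
      fderiv ℝ (fun z => fderiv ℝ (fun z => f z * g z) z Complex.I) y Complex.I := rfl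
  have e3 : rlp g y = fderiv ℝ (fun z => fderiv ℝ g z 1) y 1 +
      fderiv ℝ (fun z => fderiv ℝ g z Complex.I) y Complex.I := rfl
  have e4 : rlp f y = fderiv ℝ (fun z => fderiv ℝ f z 1) y 1 +
      fderiv ℝ (fun z => fderiv ℝ f z Complex.I) y Complex.I := rfl
  show rdx (rdx fun z => f z * g z) y + rdy (rdy fun z => f z * g z) y = _
  rw [e1, e2, h1, h2, e3, e4]
  show _ = f y * _ + 2 * (fderiv ℝ f y 1 * fderiv ℝ g y 1 +
    fderiv ℝ f y Complex.I * fderiv ℝ g y Complex.I) + g y * _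
  ring

private theorem fhA4_congr {f g : ℂ → ℝ} {y : ℂ} (h : f =ᶠ[𝓝 y] g) : rlp f y = rlp g y := by
  have h1 : rdx f =ᶠ[𝓝 y] rdx g := by
    filter_upwards [h.fderiv (𝕜 := ℝ)] with z hz
    show fderiv ℝ f z 1 = fderiv ℝ g z 1
    rw [hz]
  have h2 : rdy f =ᶠ[𝓝 y] rdy g := by
    filter_upwards [h.fderiv (𝕜 := ℝ)] with z hz
    show fderiv ℝ f z Complex.I = fderiv ℝ g z Complex.I
    rw [hz]
  show fderiv ℝ (rdx f) y 1 + fderiv ℝ (rdy f) y Complex.I =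
    fderiv ℝ (rdx g) y 1 + fderiv ℝ (rdy g) y Complex.I
  rw [h1.fderiv_eq, h2.fderiv_eq]

private theorem fhA4_re {G : ℂ → ℂ} {y : ℂ} (hG : DifferentiableAt ℂ G y) :
    rdx (fun z => (G z).re) y = (deriv G y).re ∧ rdy (fun z => (G z).re) y = -(deriv G y).im ∧
      rdy (fun z => (G z).im) y = (deriv G y).re := by
  have h1 := hG.hasDerivAt.hasFDerivAt.restrictScalars ℝ
  have h2 : fderiv ℝ (fun z => (G z).re) y = _ := (Complex.reCLM.hasFDerivAt.comp y h1).fderiv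
  have h3 : fderiv ℝ (fun z => (G z).im) y = _ := (Complex.imCLM.hasFDerivAt.comp y h1).fderiv
  refine ⟨?_, ?_, ?_⟩
  · show fderiv ℝ (fun z => (G z).re) y 1 = _
    rw [h2]
    simp
  · show fderiv ℝ (fun z => (G z).re) y Complex.I = _
    rw [h2]
    simp
  · show fderiv ℝ (fun z => (G z).im) y Complex.I = _
    rw [h3]
    simp

private theorem fhA4_neg (f : ℂ → ℝ) (y e : ℂ) :
    fderiv ℝ (fun z => -f z) y e = -fderiv ℝ f y e := by
  have h : fderiv ℝ (fun z => -f z) y = -fderiv ℝ f y := fderiv_fun_neg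
  rw [h]
  rfl

private theorem fhA4_harm {G : ℂ → ℂ} {U : Set ℂ} (hU : IsOpen U) (hG : DifferentiableOn ℂ G U) {y : ℂ}
    (hy : y ∈ U) : rlp (fun z => (G z).re) y = 0 := by
  have hG' : DifferentiableOn ℂ (deriv G) U := hG.deriv hU
  have e1 : rdx (fun z => (G z).re) =ᶠ[𝓝 y] fun z => (deriv G z).re := by
    filter_upwards [hU.mem_nhds hy] with z hz
    exact (fhA4_re (hG.differentiableAt (hU.mem_nhds hz))).1
  have e2 : rdy (fun z => (G z).re) =ᶠ[𝓝 y] fun z => -(deriv G z).im := by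
    filter_upwards [hU.mem_nhds hy] with z hz
    exact (fhA4_re (hG.differentiableAt (hU.mem_nhds hz))).2.1
  obtain ⟨k1, k2, k3⟩ := fhA4_re (hG'.differentiableAt (hU.mem_nhds hy))
  show fderiv ℝ (rdx fun z => (G z).re) y 1 + fderiv ℝ (rdy fun z => (G z).re) y Complex.I = 0
  rw [e1.fderiv_eq, e2.fderiv_eq, fhA4_neg]
  have k1' : fderiv ℝ (fun z => (deriv G z).re) y 1 = (deriv (deriv G) y).re := k1
  have k3' : fderiv ℝ (fun z => (deriv G z).im) y Complex.I = (deriv (deriv G) y).re := k3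
  rw [k1', k3']
  ring

/-! ### real algebra -/

private theorem fhA4_alg {μ a L P1 P2 f1 f2 Q E : ℝ} (hμ0 : 0 ≤ μ) (ha0 : 0 ≤ a) (hE : 5 ≤ E) (hQ : 1 ≤ Q)
    (hμ : μ ≤ E) (ha : a ≤ E) (hL : |L| ≤ E) (h1 : |P1| ≤ E) (h2 : |P2| ≤ E) (k1 : |f1| ≤ E)
    (k2 : |f2| ≤ E) :
    (μ * |L| + 5 / 4 * μ ^ 2 * (P1 ^ 2 + P2 ^ 2) - a * μ * (f1 * P1 + f2 * P2)) / Q ≤ E ^ 5 := by
  have hE0 : 0 ≤ E := by linarith
  have hE1 : 1 ≤ E := by linarith
  have b1 : μ * |L| ≤ E * E := mul_le_mul hμ hL (abs_nonneg _) hE0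
  have b2 : P1 ^ 2 ≤ E ^ 2 := by
    rw [← sq_abs P1]
    exact pow_le_pow_left₀ (abs_nonneg _) h1 2
  have b3 : P2 ^ 2 ≤ E ^ 2 := by
    rw [← sq_abs P2]
    exact pow_le_pow_left₀ (abs_nonneg _) h2 2
  have b4 : μ ^ 2 ≤ E ^ 2 := pow_le_pow_left₀ hμ0 hμ 2
  have b5 : μ ^ 2 * (P1 ^ 2 + P2 ^ 2) ≤ E ^ 2 * (E ^ 2 + E ^ 2) :=
    mul_le_mul b4 (add_le_add b2 b3) (by positivity) (by positivity)
  have b6 : |f1 * P1| ≤ E * E := by
    rw [abs_mul]
    exact mul_le_mul k1 h1 (abs_nonneg _) hE0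
  have b7 : |f2 * P2| ≤ E * E := by
    rw [abs_mul]
    exact mul_le_mul k2 h2 (abs_nonneg _) hE0
  have b8 : -(f1 * P1 + f2 * P2) ≤ E * E + E * E := by
    have c1 := neg_abs_le (f1 * P1)
    have c2 := neg_abs_le (f2 * P2)
    linarith
  have b9 : a * μ ≤ E * E := mul_le_mul ha hμ hμ0 hE0
  have b10 : a * μ * -(f1 * P1 + f2 * P2) ≤ E * E * (E * E + E * E) :=
    (mul_le_mul_of_nonneg_left b8 (mul_nonneg ha0 hμ0)).trans
      (mul_le_mul_of_nonneg_right b9 (by positivity))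
  have b11 : E * E ≤ E ^ 4 / 4 := by
    have : 1 * 4 ≤ E * E := by nlinarith
    have h0 : 0 ≤ E * E := by positivity
    nlinarith
  have b12 : 5 * E ^ 4 ≤ E ^ 5 := by
    have h0 : 0 ≤ E ^ 4 := by positivity
    nlinarith
  have hN : μ * |L| + 5 / 4 * μ ^ 2 * (P1 ^ 2 + P2 ^ 2) - a * μ * (f1 * P1 + f2 * P2) ≤ E ^ 5 := by
    nlinarith
  have hE5 : 0 ≤ E ^ 5 := by positivity
  rw [div_le_iff₀ (by linarith)]
  nlinarith

namespace FD
variable {D : Set ℂ} (F : FD D)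

/-- The Laplacian of `Ph` in the ball. -/
private theorem fhA4_lap : ∃ (C : ℝ) (m₀ : ℕ), 0 ≤ C ∧ 1 ≤ m₀ ∧ ∀ m : ℕ, m₀ ≤ m → ∀ y ∈ D,
    dist y F.x ≤ F.s2 → |rlp (F.Ph m) y| ≤ Real.exp (C * m) := by
  obtain ⟨H₀, hH₀⟩ := F.fl.h_bdd F.hD
  obtain ⟨G₀, hG₀⟩ := F.fl.gr_bdd F.hD
  obtain ⟨H, hH0, hH⟩ : ∃ H, 0 ≤ H ∧ ∀ y, F.h y ≤ H :=
    ⟨max H₀ 0, le_max_right _ _, fun y => (hH₀ y).trans (le_max_left _ _)⟩
  obtain ⟨G, hG0, hG⟩ : ∃ G, 0 ≤ G ∧ ∀ y ∈ D, ‖gr F.h y‖ ≤ G :=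
    ⟨max G₀ 0, le_max_right _ _, fun y hy => (hG₀ y hy).trans (le_max_left _ _)⟩
  have hcb : IsCompact (Metric.closedBall F.x F.s2) := isCompact_closedBall _ _
  have hcx : ContDiff ℝ ((⊤ : ℕ∞) : WithTop ℕ∞) (rdx F.χ) :=
    contDiffOn_univ.1 (fhA4_dir isOpen_univ F.χs.contDiffOn 1)
  have hcy : ContDiff ℝ ((⊤ : ℕ∞) : WithTop ℕ∞) (rdy F.χ) :=
    contDiffOn_univ.1 (fhA4_dir isOpen_univ F.χs.contDiffOn Complex.I)
  have hcl : Continuous (rlp F.χ) :=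
    (contDiffOn_univ.1 (fhA4_dir isOpen_univ hcx.contDiffOn 1)).continuous.add
      (contDiffOn_univ.1 (fhA4_dir isOpen_univ hcy.contDiffOn Complex.I)).continuous
  obtain ⟨A₁, hA₁⟩ := hcb.exists_bound_of_continuousOn hcx.continuous.continuousOn
  obtain ⟨A₂, hA₂⟩ := hcb.exists_bound_of_continuousOn hcy.continuous.continuousOn
  obtain ⟨A₃, hA₃⟩ := hcb.exists_bound_of_continuousOn hcl.continuousOn
  obtain ⟨A, hA0, hA1, hA2, hA3⟩ : ∃ A : ℝ, 0 ≤ A ∧ A₁ ≤ A ∧ A₂ ≤ A ∧ A₃ ≤ A :=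
    ⟨max 0 (max A₁ (max A₂ A₃)), le_max_left _ _, (le_max_left _ _).trans (le_max_right _ _),
      ((le_max_left _ _).trans (le_max_right _ _)).trans (le_max_right _ _),
      ((le_max_right _ _).trans (le_max_right _ _)).trans (le_max_right _ _)⟩
  have hO : IsOpen (D \ Metric.closedBall F.x F.s) := F.hD.op.sdiff Metric.isClosed_closedBall
  have hKc : IsCompact (Metric.closedBall F.x F.s2 \ Metric.ball F.x F.s1) := hcb.diff Metric.isOpen_ball
  have hKs : ∀ y ∈ Metric.closedBall F.x F.s2 \ Metric.ball F.x F.s1,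
      y ∈ D \ Metric.closedBall F.x F.s := fun y hy => by
    refine ⟨F.fl.ball (Metric.closedBall_subset_closedBall F.h3.le hy.1), fun h => hy.2 ?_⟩
    exact Metric.mem_ball.2 ((Metric.mem_closedBall.1 h).trans_lt F.h1)
  obtain ⟨δ, hδ0, hδ⟩ := hKc.exists_forall_le' F.fl.cont.continuousOn (a := 0)
    (fun y hy => F.fl.pos y (hKs y hy))
  obtain ⟨m₁, hm₁⟩ := exists_nat_gt (4 * (F.K : ℝ) / δ ^ 2)
  refine ⟨A + 4 * A * G + H, max 1 m₁, by positivity, le_max_left _ _, fun m hm y hy hs => ?_⟩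
  have hm1 : 1 ≤ m := (le_max_left _ _).trans hm
  have hm1' : (1 : ℝ) ≤ m := by exact_mod_cast hm1
  have hm0 : (0 : ℝ) < m := by linarith
  by_cases hys : dist y F.x < F.s1
  · have e3 : F.Ph m =ᶠ[𝓝 y] fun _ => 0 := by
      filter_upwards [Metric.isOpen_ball.mem_nhds (Metric.mem_ball.2 hys)] with z hz
      simp [FD.Ph, F.χ0 z (Metric.mem_ball.1 hz).le]
    have e4 : rlp (fun _ : ℂ => (0 : ℝ)) y = 0 := by
      have h1 : rdx (fun _ : ℂ => (0 : ℝ)) = fun _ => 0 := by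
        funext z
        show fderiv ℝ (fun _ : ℂ => (0 : ℝ)) z 1 = 0
        simp
      have h2 : rdy (fun _ : ℂ => (0 : ℝ)) = fun _ => 0 := by
        funext z
        show fderiv ℝ (fun _ : ℂ => (0 : ℝ)) z Complex.I = 0
        simp
      show rdx (rdx fun _ : ℂ => (0 : ℝ)) y + rdy (rdy fun _ : ℂ => (0 : ℝ)) y = 0
      rw [h1, h2, h1, h2]
      norm_num
    rw [fhA4_congr e3, e4, abs_zero]
    exact (Real.exp_pos _).le
  · have hyK : y ∈ Metric.closedBall F.x F.s2 \ Metric.ball F.x F.s1 :=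
      ⟨Metric.mem_closedBall.2 hs, fun h => hys (Metric.mem_ball.1 h)⟩
    have hyO := hKs y hyK
    have hyB : y ∈ Metric.closedBall F.x F.s2 := hyK.1
    have hδy := hδ y hyK
    have hmδ : 4 * (F.K : ℝ) / δ ^ 2 < m := hm₁.trans_le (by exact_mod_cast (le_max_right _ _).trans hm)
    have hzs : 2 * F.zs m < δ := by
      rw [div_lt_iff₀ (by positivity)] at hmδ
      have h1 : F.zs m ^ 2 = F.K / m := Real.sq_sqrt (by positivity)
      have h2 : (2 * F.zs m) ^ 2 < δ ^ 2 := by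
        rw [mul_pow, h1]
        have h3 : (2 : ℝ) ^ 2 * (F.K / m) = 4 * F.K / m := by ring
        rw [h3, div_lt_iff₀ hm0]
        linarith
      exact lt_of_pow_lt_pow_left₀ 2 hδ0.le h2
    have hzs0 : 0 < F.zs m := Real.sqrt_pos.2 (div_pos (by exact_mod_cast F.K1) hm0)
    have ev : F.Ph m =ᶠ[𝓝 y] fun z => F.χ z * (F.Fm m z).re := by
      have h1 : {z | 2 * F.zs m < F.h z} ∈ 𝓝 y :=
        (isOpen_lt continuous_const F.fl.cont).mem_nhds (hzs.trans_le hδy)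
      filter_upwards [h1] with z hz
      have h2 : Real.smoothTransition (F.h z / F.zs m - 1) = 1 := by
        refine Real.smoothTransition.one_of_one_le ?_
        have h3 : 2 ≤ F.h z / F.zs m := by
          rw [le_div_iff₀ hzs0]
          exact le_of_lt hz
        linarith
      show F.χ z * Real.smoothTransition (F.h z / F.zs m - 1) * (F.Fm m z).re = _
      rw [h2, mul_one]
    have hG1 : DifferentiableOn ℂ (F.Fm m) (D \ Metric.closedBall F.x F.s) := fun z hz =>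
      (F.Fm_der hm1 hz).differentiableAt.differentiableWithinAt
    have hsm : ContDiffOn ℝ ((⊤ : ℕ∞) : WithTop ℕ∞) (fun z => (F.Fm m z).re)
        (D \ Metric.closedBall F.x F.s) :=
      Complex.reCLM.contDiff.comp_contDiffOn ((hG1.contDiffOn hO).restrict_scalars ℝ)
    have hmul := fhA4_mul hO F.χs.contDiffOn hsm hyO
    obtain ⟨r1, r2, -⟩ := fhA4_re (hG1.differentiableAt (hO.mem_nhds hyO))
    rw [fhA4_congr ev, hmul, fhA4_harm hO hG1 hyO, r1, r2, mul_zero, zero_add]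
    obtain ⟨-, d2, d3, -⟩ := F.Fm_bd hm1 hyO
    have hcosh : Real.cosh (m * F.h y) ≤ Real.exp (H * m) := by
      have h0 : 0 ≤ m * F.h y := mul_nonneg hm0.le (F.fl.nonneg y)
      have h1 : m * F.h y ≤ H * m := by
        rw [mul_comm H]
        exact mul_le_mul_of_nonneg_left (hH y) hm0.le
      rw [Real.cosh_eq]
      have h2 : Real.exp (-(m * F.h y)) ≤ Real.exp (m * F.h y) := Real.exp_le_exp.2 (by linarith)
      have h3 : Real.exp (m * F.h y) ≤ Real.exp (H * m) := Real.exp_le_exp.2 h1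
      linarith
    obtain ⟨T, hT⟩ : ∃ T : ℝ, T = Real.exp (H * m) := ⟨_, rfl⟩
    rw [← hT] at hcosh
    have hT0 : 0 ≤ T := by rw [hT]; exact (Real.exp_pos _).le
    have q1 : |(F.Fm m y).re| ≤ T := d3.trans ((div_le_self (Real.cosh_pos _).le hm1').trans hcosh)
    have q2 : ‖deriv (F.Fm m) y‖ ≤ G * T :=
      d2.trans (mul_le_mul (hG y hy) hcosh (Real.cosh_pos _).le hG0)
    have q3 : |(deriv (F.Fm m) y).re| ≤ G * T := (Complex.abs_re_le_norm _).trans q2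
    have q4 : |-(deriv (F.Fm m) y).im| ≤ G * T := by
      rw [abs_neg]
      exact (Complex.abs_im_le_norm _).trans q2
    have p1 : |rdx F.χ y| ≤ A := (hA₁ y hyB).trans hA1
    have p2 : |rdy F.χ y| ≤ A := (hA₂ y hyB).trans hA2
    have p3 : |rlp F.χ y| ≤ A := (hA₃ y hyB).trans hA3
    have s1 : |rdx F.χ y * (deriv (F.Fm m) y).re| ≤ A * (G * T) := by
      rw [abs_mul]
      exact mul_le_mul p1 q3 (abs_nonneg _) hA0
    have s2 : |rdy F.χ y * -(deriv (F.Fm m) y).im| ≤ A * (G * T) := by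
      rw [abs_mul]
      exact mul_le_mul p2 q4 (abs_nonneg _) hA0
    have s3 : |(F.Fm m y).re * rlp F.χ y| ≤ T * A := by
      rw [abs_mul]
      exact mul_le_mul q1 p3 (abs_nonneg _) hT0
    have s4 : |2 * (rdx F.χ y * (deriv (F.Fm m) y).re + rdy F.χ y * -(deriv (F.Fm m) y).im) +
        (F.Fm m y).re * rlp F.χ y| ≤ (A + 4 * A * G) * T := by
      refine (abs_add_le _ _).trans ?_
      rw [abs_mul, abs_two]
      have s5 := abs_add_le (rdx F.χ y * (deriv (F.Fm m) y).re) (rdy F.χ y * -(deriv (F.Fm m) y).im)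
      have s6 : (A + 4 * A * G) * T = T * A + 2 * (A * (G * T) + A * (G * T)) := by ring
      rw [s6]
      linarith
    refine s4.trans ?_
    have t1 : (A + 4 * A * G) ≤ Real.exp ((A + 4 * A * G) * m) := by
      have h1 := Real.add_one_le_exp ((A + 4 * A * G) * m)
      have h2 : 0 ≤ A + 4 * A * G := by positivity
      have h3 : (A + 4 * A * G) * 1 ≤ (A + 4 * A * G) * m := mul_le_mul_of_nonneg_left hm1' h2
      linarith
    have t2 : Real.exp ((A + 4 * A * G + H) * m) = Real.exp ((A + 4 * A * G) * m) * T := by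
      rw [hT, ← Real.exp_add]
      congr 1
      ring
    rw [t2]
    exact mul_le_mul_of_nonneg_right t1 hT0

/-- In the ball: a crude bound. `|LM| ≤ |ΔM| + (A₀ |∇(χ ψ_m)| + |w|) |∇M| ≤ |ΔM| + A₀ |∇P0| |∇M| + |∇M|² + |w|²` and `arc_d`: it is enough to bound
`|∇P0|`, `|∇Ph|` (`P0_bd`) and `|ΔPh|` by `exp (C m)`. `Ph = 0` near `y` if `dist y x < s1`; on the compact set
`s1 ≤ dist y x ≤ s2` (contained in `D \ closedBall x s`) `h ≥ δ > 0`, so `2 z* < h` for large `m` and `Ph = χ φ_m` near `y`,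
`ΔPh = Δχ φ_m + 2 ∇χ·∇φ_m` (`φ_m` harmonic), `Fm_bd`, `cosh (m h) ≤ exp (m H)` (`h_bdd`). -/
theorem wt_in : ∃ (C : ℝ) (m₀ : ℕ), 0 ≤ C ∧ 1 ≤ m₀ ∧ ∀ m : ℕ, m₀ ≤ m → ∀ y ∈ D, dist y F.x ≤ F.s2 →
    ∀ w1 w2 : ℝ, F.LM m y w1 w2 ≤ Real.exp (C * m) + (w1 ^ 2 + w2 ^ 2) := by
  obtain ⟨C₁, hC₁, hP⟩ := F.P0_bd
  obtain ⟨C₂, m₀, hC₂, hm₀, hL⟩ := F.fhA4_lap
  obtain ⟨c, hc⟩ : ∃ c : ℝ, c = C₁ + C₂ + 40 := ⟨_, rfl⟩
  refine ⟨5 * c, m₀, by rw [hc]; positivity, hm₀, fun m hm y hy hs w1 w2 => ?_⟩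
  have hm1 : 1 ≤ m := hm₀.trans hm
  have hm1' : (1 : ℝ) ≤ m := by exact_mod_cast hm1
  have hm0' : (0 : ℝ) ≤ m := by linarith
  obtain ⟨b1, -, b3⟩ := hP m hm1 y hy
  have b4 := hL m hm y hy hs
  obtain ⟨E, hE⟩ : ∃ E : ℝ, E = Real.exp (c * m) := ⟨_, rfl⟩
  have mono : ∀ a : ℝ, a ≤ c → Real.exp (a * m) ≤ E := fun a ha => by
    rw [hE]
    exact Real.exp_le_exp.2 (mul_le_mul_of_nonneg_right ha hm0')
  have lin : ∀ a : ℝ, a ≤ c → a * m ≤ E := fun a ha => by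
    have := Real.add_one_le_exp (a * m)
    linarith [mono a ha]
  have hE5 : 5 ≤ E := by
    have := lin 5 (by rw [hc]; linarith)
    linarith
  have hexp : ∀ a : ℝ, 0 ≤ a → Real.exp (-a) ≤ 1 := fun a ha => Real.exp_le_one_iff.2 (by linarith)
  have hμ0 : 0 ≤ F.mw m := by unfold mw; positivity
  have ha0 : 0 ≤ F.A0 m := by unfold A0; positivity
  have hμ : F.mw m ≤ E := by
    refine le_trans ?_ (lin 2 (by rw [hc]; linarith))
    unfold mw
    exact mul_le_of_le_one_right (by positivity) (hexp _ (by positivity))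
  have ha : F.A0 m ≤ E := by
    refine le_trans ?_ (lin 32 (by rw [hc]; linarith))
    unfold A0
    exact mul_le_of_le_one_right (by positivity) (hexp _ (by positivity))
  have n1 : |(py (F.P0 m) y).re| ≤ E := by
    refine ((Complex.abs_re_le_norm _).trans ?_).trans (mono C₁ (by rw [hc]; linarith))
    refine ((fderiv ℝ (F.P0 m) y).le_opNorm Complex.I).trans ?_
    rw [Complex.norm_I, mul_one]
    exact b1
  have n2 : |-(px (F.P0 m) y).re| ≤ E := by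
    rw [abs_neg]
    refine ((Complex.abs_re_le_norm _).trans ?_).trans (mono C₁ (by rw [hc]; linarith))
    refine ((fderiv ℝ (F.P0 m) y).le_opNorm 1).trans ?_
    rw [norm_one, mul_one]
    exact b1
  have n3 : |rdx (F.Ph m) y| ≤ E := by
    have h1 := abs_nonneg (fderiv ℝ (F.Ph m) y Complex.I)
    have h2 := mono C₁ (by rw [hc]; linarith)
    show |fderiv ℝ (F.Ph m) y 1| ≤ E
    linarith
  have n4 : |rdy (F.Ph m) y| ≤ E := by
    have h1 := abs_nonneg (fderiv ℝ (F.Ph m) y 1)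
    have h2 := mono C₁ (by rw [hc]; linarith)
    show |fderiv ℝ (F.Ph m) y Complex.I| ≤ E
    linarith
  have n5 : |rlp (F.Ph m) y| ≤ E := b4.trans (mono C₂ (by rw [hc]; linarith))
  obtain ⟨a1, a2, a3⟩ := arc_d (F.Ph_mem hm1).1 (F.mw m) y
  have e1 : px (F.Mw m) y = ((-(F.mw m * rdx (F.Ph m) y) / (1 + (F.mw m * F.Ph m y) ^ 2) : ℝ) : ℂ) := a1
  have e2 : py (F.Mw m) y = ((-(F.mw m * rdy (F.Ph m) y) / (1 + (F.mw m * F.Ph m y) ^ 2) : ℝ) : ℂ) := a2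
  have e3 : lap (F.Mw m) y = ((-(F.mw m * rlp (F.Ph m) y) / (1 + (F.mw m * F.Ph m y) ^ 2) +
        2 * F.mw m ^ 3 * F.Ph m y * (rdx (F.Ph m) y ^ 2 + rdy (F.Ph m) y ^ 2) /
          (1 + (F.mw m * F.Ph m y) ^ 2) ^ 2 : ℝ) : ℂ) := a3
  have key := wt_alg (μ := F.mw m) (a := F.A0 m) (P := F.Ph m y) (P1 := rdx (F.Ph m) y) (P2 := rdy (F.Ph m) y)
    (L := rlp (F.Ph m) y) (f1 := (py (F.P0 m) y).re) (f2 := -(px (F.P0 m) y).re) (w1 := w1) (w2 := w2) hμ0
  have key2 := fhA4_alg hμ0 ha0 hE5 (Q := 1 + (F.mw m * F.Ph m y) ^ 2)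
    (by linarith [sq_nonneg (F.mw m * F.Ph m y)]) hμ ha n5 n3 n4 n1 n2
  have hE' : Real.exp (5 * c * m) = E ^ 5 := by
    rw [hE, ← Real.exp_nat_mul]
    congr 1
    push_cast
    ring
  rw [hE']
  unfold LM
  rw [e1, e2, e3]
  simp only [Complex.ofReal_re]
  have e5 : -(F.A0 m * (px (F.P0 m) y).re) + w2 = F.A0 m * -(px (F.P0 m) y).re + w2 := by ring
  rw [e5]
  linarith

end FD

end Pool.Agent.Lib.MP_79abb3_an.PD
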