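import Pool.Agent.Lib.MP_79abb3_an.PD.FhA2
import Pool.Agent.Lib.MP_79abb3_an.PD.FhA3
import Pool.Agent.Lib.MP_79abb3_an.PD.FhA4

/-!
Theorem D, block F, flush: the inequality for the weight.
-/

set_option autoImplicit false
set_option linter.unusedSectionVars false

open MeasureTheory Set Filter Topology Function
open scoped ENNReal InnerProductSpace ComplexConjugate

namespace Pool.Agent.Lib.MP_79abb3_an.PD

open Pool.Agent.Lib.MP_79abb3_an.SC Pool.Agent.Lib.MP_79abb3_an.P25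

namespace FD
variable {D : Set ℂ} (F : FD D)

/-- the density of the flush -/
noncomputable def rho (m : ℕ) : ℂ → ℝ :=
  (F.R0 m).indicator fun y => (m : ℝ) ^ 2 * Real.exp √((F.K : ℝ) * m) * ‖gr F.h y‖ ^ 2

/-- the ball `dist y x ≤ s2` -/
noncomputable def bl : ℂ → ℝ := (Metric.closedBall F.x F.s2).indicator fun _ => 1

private theorem fhA5_exp {m : ℕ} (hm : 1 ≤ m) {G C1 : ℝ} (hG : 0 ≤ G) (hC1 : 0 ≤ C1) :
    Real.exp (C1 * m) + (m : ℝ) ^ 2 * Real.exp √((F.K : ℝ) * m) * G ≤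
      Real.exp ((C1 + 2 + F.K + G) * m) := by
  have hm1 : (1:ℝ) ≤ m := by exact_mod_cast hm
  have hK1 : (1:ℝ) ≤ F.K := by exact_mod_cast F.K1
  have h1 : √((F.K : ℝ) * m) ≤ F.K * m := by
    rw [Real.sqrt_le_left (by positivity)]
    have : 1 ≤ (F.K : ℝ) * m := by nlinarith
    nlinarith
  have h2 : (m : ℝ) ^ 2 ≤ Real.exp (2 * m) := by
    have h3 : (m : ℝ) ≤ Real.exp m := by linarith [Real.add_one_le_exp (m : ℝ)]
    have h4 : Real.exp (2 * m) = Real.exp m ^ 2 := by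
      rw [← Real.exp_nat_mul]
      norm_num
    rw [h4]
    gcongr
  have h5 : G + 1 ≤ Real.exp (G * m) := by
    have h6 := Real.add_one_le_exp (G * m)
    nlinarith
  have h7 : Real.exp ((C1 + 2 + F.K + G) * m) =
      Real.exp (C1 * m) * (Real.exp (2 * m) * Real.exp (F.K * m) * Real.exp (G * m)) := by
    rw [← Real.exp_add, ← Real.exp_add, ← Real.exp_add]
    ring_nf
  have h8 : 1 ≤ Real.exp (C1 * m) := Real.one_le_exp (by positivity)
  have h9 : 1 ≤ Real.exp (2 * (m:ℝ)) := Real.one_le_exp (by positivity)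
  have h10 : 1 ≤ Real.exp (F.K * (m:ℝ)) := Real.one_le_exp (by positivity)
  have h11 : (m : ℝ) ^ 2 * Real.exp √((F.K : ℝ) * m) ≤ Real.exp (2 * m) * Real.exp (F.K * m) := by
    gcongr
  have h12 : 1 ≤ Real.exp (2 * (m:ℝ)) * Real.exp (F.K * (m:ℝ)) := by nlinarith
  rw [h7]
  set a := Real.exp (C1 * m)
  set B := Real.exp (2 * (m:ℝ)) * Real.exp (F.K * (m:ℝ))
  have h13 : (m : ℝ) ^ 2 * Real.exp √((F.K : ℝ) * m) * G ≤ B * G := by gcongr
  have h14 : B * (G + 1) ≤ B * Real.exp (G * m) := by gcongr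
  have h15 : a * (B * (G + 1)) ≤ a * (B * Real.exp (G * m)) := by gcongr
  have h16 : 0 ≤ (a - 1) * (B * G) := by
    have : 0 ≤ a - 1 := by linarith
    positivity
  have h17 : a ≤ a * B := by nlinarith
  nlinarith

/-- **The weight inequality.** -/
theorem wt_all : ∃ (C : ℝ) (m₀ : ℕ), 0 ≤ C ∧ 1 ≤ m₀ ∧ ∀ m : ℕ, m₀ ≤ m → ∀ y ∈ D, ∀ w1 w2 : ℝ,
    F.LM m y w1 w2 ≤ -(F.rho m y) + C * m ^ 2 + Real.exp (C * m) * F.bl y + (w1 ^ 2 + w2 ^ 2) := by
  obtain ⟨C1, m1, hC1, hm1, k1⟩ := F.wt_low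
  obtain ⟨C2, m2, hC2, hm2, k2⟩ := F.wt_in
  obtain ⟨G, hG⟩ := F.fl.gr_bdd F.hD
  refine ⟨C1 + (C2 + 2 + F.K + (max G 0) ^ 2), max m1 m2, by positivity, hm1.trans (le_max_left _ _), ?_⟩
  intro m hm y hy w1 w2
  have hma : m1 ≤ m := (le_max_left _ _).trans hm
  have hmb : m2 ≤ m := (le_max_right _ _).trans hm
  have hm1' : 1 ≤ m := hm1.trans hma
  have hmr : (1:ℝ) ≤ m := by exact_mod_cast hm1'
  set C3 := C2 + 2 + F.K + (max G 0) ^ 2 with hC3
  have hC30 : 0 ≤ C3 := by positivity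
  rcases le_or_gt (dist y F.x) F.s2 with h | h
  · have e1 : F.bl y = 1 := by
      unfold bl
      rw [indicator_of_mem (Metric.mem_closedBall.2 h)]
    have h1 := k2 m hmb y hy h w1 w2
    have h2 : F.rho m y ≤ (m : ℝ) ^ 2 * Real.exp √((F.K : ℝ) * m) * (max G 0) ^ 2 := by
      unfold rho
      refine indicator_le' (f := fun y => (m : ℝ) ^ 2 * Real.exp √((F.K : ℝ) * m) * ‖gr F.h y‖ ^ 2)
        (g := fun _ => (m : ℝ) ^ 2 * Real.exp √((F.K : ℝ) * m) * (max G 0) ^ 2) ?_ ?_ y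
      · intro z hz
        have h3 : ‖gr F.h z‖ ≤ max G 0 := (hG z hz.1).trans (le_max_left _ _)
        have h4 : ‖gr F.h z‖ ^ 2 ≤ (max G 0) ^ 2 := by gcongr
        exact mul_le_mul_of_nonneg_left h4 (by positivity)
      · intro z _
        positivity
    have h3 := F.fhA5_exp hm1' (G := (max G 0) ^ 2) (C1 := C2) (by positivity) hC2
    have h4 : Real.exp (C3 * m) ≤ Real.exp ((C1 + C3) * m) := by
      refine Real.exp_le_exp.2 ?_
      have : 0 ≤ C1 * (m : ℝ) := by positivity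
      linarith
    have h5 : 0 ≤ (C1 + C3) * (m:ℝ) ^ 2 := by positivity
    rw [e1, mul_one]
    linarith
  · have e1 : F.bl y = 0 := by
      unfold bl
      rw [indicator_of_notMem (fun h' => absurd (Metric.mem_closedBall.1 h') (not_le.2 h))]
    rw [e1, mul_zero, add_zero]
    rcases lt_or_ge (F.h y) (2 * F.zs m) with h3 | h3
    · have e2 : F.rho m y = 0 := by
        unfold rho
        rw [indicator_of_notMem (fun h' => absurd h'.2.2 (not_le.2 h3))]
      have h4 := k1 m hma y hy h h3 w1 w2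
      rw [e2, neg_zero, zero_add]
      have h5 : 0 ≤ C3 * (m:ℝ) ^ 2 := by positivity
      linarith
    · have e2 : F.rho m y = (m : ℝ) ^ 2 * Real.exp √((F.K : ℝ) * m) * ‖gr F.h y‖ ^ 2 := by
        unfold rho
        rw [indicator_of_mem (show y ∈ F.R0 m from ⟨hy, h.le, h3⟩)]
      have h4 := F.wt_high hm1' hy h h3 w1 w2
      rw [e2]
      have h5 : 0 ≤ (C1 + C3) * (m:ℝ) ^ 2 := by positivity
      linarith

end FD

end Pool.Agent.Lib.MP_79abb3_an.PD
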