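import Pool.Agent.Lib.MP_79abb3_an.PD.FbG
import Pool.Agent.Lib.MP_79abb3_an.PD.FbG2
import Pool.Agent.Lib.MP_79abb3_an.PD.FdDef

/-!
Theorem D, block F, flush: the source tested with a weighted function (strip estimates).
-/

set_option autoImplicit false
set_option linter.unusedSectionVars false

open MeasureTheory Set Filter Topology Function
open scoped ENNReal InnerProductSpace

namespace Pool.Agent.Lib.MP_79abb3_an.PD

open Pool.Agent.Lib.MP_79abb3_an.SC Pool.Agent.Lib.MP_79abb3_an.P25 Pool.Agent.Lib.MP_79abb3_an.FW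

section
variable {H : ℝ} [hH : Fact (0 < H)]

private theorem fhb_pow_bound {m s : ℝ} (hs : 1 ≤ s) (hms : m = s * s) {z : ℝ} (hz : s ≤ 2 * (m * z)) :
    m ^ 3 * Real.exp (-(2 * s) + 2 * (m * z)) ≤ 720 * (Real.exp (-s) * Real.exp (4 * (m * z) - s / 2)) := by
  have h1 : s ^ 6 ≤ 720 * Real.exp s := by
    have h2 := Real.pow_div_factorial_le_exp s (by linarith) 6
    have h3 : ((Nat.factorial 6 : ℕ) : ℝ) = 720 := by norm_num [Nat.factorial]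
    rw [h3, div_le_iff₀ (by norm_num)] at h2
    linarith
  have h4 : m ^ 3 = s ^ 6 := by rw [hms]; ring
  have h5 : Real.exp (-s) * Real.exp (4 * (m * z) - s / 2) =
      Real.exp s * Real.exp (-(2 * s) + 2 * (m * z)) * Real.exp (2 * (m * z) - s / 2) := by
    rw [← Real.exp_add, ← Real.exp_add, ← Real.exp_add]
    congr 1
    ring
  have h6 : 1 ≤ Real.exp (2 * (m * z) - s / 2) := Real.one_le_exp (by linarith)
  rw [h4, h5]
  have h7 := Real.exp_pos (-(2 * s) + 2 * (m * z))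
  calc s ^ 6 * Real.exp (-(2 * s) + 2 * (m * z)) ≤ 720 * Real.exp s * Real.exp (-(2 * s) + 2 * (m * z)) :=
        mul_le_mul_of_nonneg_right h1 h7.le
    _ ≤ 720 * Real.exp s * Real.exp (-(2 * s) + 2 * (m * z)) * Real.exp (2 * (m * z) - s / 2) := by
        refine le_mul_of_one_le_right (by positivity) h6
    _ = _ := by ring

private theorem fhb_kap_real {m s Ck α z T : ℝ} (hs : 1 ≤ s) (hms : m = s * s) (hα : 0 ≤ α)
    (hα' : α ≤ 32 * m * Real.exp (-s)) (hC : 0 ≤ Ck) (hz : s ≤ 2 * (m * z))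
    (hT : Real.exp (4 * (m * z) - s / 2) ≤ T) :
    |Ck * (α * Real.cosh (m * z)) ^ 2| ≤ 2048 * 720 * Ck * Real.exp (-s) * T ∧
    |Ck * (α ^ 2 * (2 * (Real.cosh (m * z) * (Real.sinh (m * z) * m))))| ≤
      2048 * 720 * Ck * Real.exp (-s) * T := by
  have hm1 : 1 ≤ m := by rw [hms]; nlinarith
  have hmz : 0 ≤ m * z := by linarith
  have hc0 := Real.cosh_pos (m * z)
  have hc1 : Real.cosh (m * z) ≤ Real.exp (m * z) := by
    rw [Real.cosh_eq]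
    have : Real.exp (-(m * z)) ≤ Real.exp (m * z) := Real.exp_le_exp.2 (by linarith)
    linarith
  have hs0 : 0 ≤ Real.sinh (m * z) := Real.sinh_nonneg_iff.2 hmz
  have hs1 : Real.sinh (m * z) ≤ Real.cosh (m * z) := (Real.sinh_lt_cosh _).le
  have hc2 : Real.cosh (m * z) ^ 2 ≤ Real.exp (2 * (m * z)) := by
    have h1 : Real.exp (2 * (m * z)) = Real.exp (m * z) ^ 2 := by
      rw [← Real.exp_nat_mul]
      norm_num
    rw [h1]
    exact pow_le_pow_left₀ hc0.le hc1 2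
  have ha2 : α ^ 2 ≤ 1024 * m ^ 2 * Real.exp (-(2 * s)) := by
    have h1 : Real.exp (-(2 * s)) = Real.exp (-s) ^ 2 := by
      rw [← Real.exp_nat_mul]
      congr 1
      push_cast
      ring
    rw [h1]
    calc α ^ 2 ≤ (32 * m * Real.exp (-s)) ^ 2 := pow_le_pow_left₀ hα hα' 2
      _ = _ := by ring
  have hb : α ^ 2 * Real.cosh (m * z) ^ 2 ≤ 1024 * m ^ 2 * Real.exp (-(2 * s) + 2 * (m * z)) := by
    rw [Real.exp_add]
    calc α ^ 2 * Real.cosh (m * z) ^ 2 ≤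
          (1024 * m ^ 2 * Real.exp (-(2 * s))) * Real.exp (2 * (m * z)) :=
          mul_le_mul ha2 hc2 (by positivity) (by positivity)
      _ = _ := by ring
  have hp := fhb_pow_bound hs hms hz
  have hT' : 720 * (Real.exp (-s) * Real.exp (4 * (m * z) - s / 2)) ≤ 720 * (Real.exp (-s) * T) := by
    have := Real.exp_pos (-s)
    gcongr
  have hE := Real.exp_pos (-(2 * s) + 2 * (m * z))
  have key : 2 * m * (α ^ 2 * Real.cosh (m * z) ^ 2) ≤ 2048 * 720 * (Real.exp (-s) * T) := by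
    calc 2 * m * (α ^ 2 * Real.cosh (m * z) ^ 2) ≤
          2 * m * (1024 * m ^ 2 * Real.exp (-(2 * s) + 2 * (m * z))) := by gcongr
      _ = 2048 * (m ^ 3 * Real.exp (-(2 * s) + 2 * (m * z))) := by ring
      _ ≤ 2048 * (720 * (Real.exp (-s) * T)) := by linarith
      _ = _ := by ring
  have hq : 0 ≤ α ^ 2 * Real.cosh (m * z) ^ 2 := by positivity
  constructor
  · rw [abs_of_nonneg (by positivity)]
    calc Ck * (α * Real.cosh (m * z)) ^ 2 = Ck * (1 * (α ^ 2 * Real.cosh (m * z) ^ 2)) := by ring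
      _ ≤ Ck * (2 * m * (α ^ 2 * Real.cosh (m * z) ^ 2)) := by
          refine mul_le_mul_of_nonneg_left ?_ hC
          exact mul_le_mul_of_nonneg_right (by linarith) hq
      _ ≤ Ck * (2048 * 720 * (Real.exp (-s) * T)) := mul_le_mul_of_nonneg_left key hC
      _ = _ := by ring
  · rw [abs_of_nonneg (by positivity)]
    calc Ck * (α ^ 2 * (2 * (Real.cosh (m * z) * (Real.sinh (m * z) * m)))) =
          Ck * (2 * m * (α ^ 2 * (Real.cosh (m * z) * Real.sinh (m * z)))) := by ring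
      _ ≤ Ck * (2 * m * (α ^ 2 * (Real.cosh (m * z) * Real.cosh (m * z)))) := by gcongr
      _ = Ck * (2 * m * (α ^ 2 * Real.cosh (m * z) ^ 2)) := by ring
      _ ≤ Ck * (2048 * 720 * (Real.exp (-s) * T)) := mul_le_mul_of_nonneg_left key hC
      _ = _ := by ring

private theorem fhb_S2_EE (G : Geo H) (f : HH H) : S2 G.lam (1 / 4) (⇑(SC.EE G.ω f)) := by
  have hH0 := hH.out
  have hN := G.hN
  have key : ∀ n, (G.lam n ^ (1:ℝ) * ‖SC.EE G.ω f n‖) ^ 2 ≤ (G.N₀ * H + 1) ^ 2 * ‖f n‖ ^ 2 := by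
    intro n
    rw [Real.rpow_one, EE_apply, ← mul_pow]
    refine pow_le_pow_left₀ (mul_nonneg (G.lw.pos n).le (norm_nonneg _)) ?_ 2
    have h1 : ‖E2 (G.ω * n) (f n)‖ ≤ H * ‖f n‖ := (E2 (G.ω * n)).le_of_opNorm_le (norm_E2_le _) _
    have h2 := norm_kE2_le (G.ω * n) (f n)
    unfold Geo.lam
    rw [add_mul, add_mul, one_mul]
    refine add_le_add ?_ h2
    rw [mul_assoc]
    exact mul_le_mul_of_nonneg_left h1 (by linarith)
  have hs : Summable fun n => (G.N₀ * H + 1) ^ 2 * ‖f n‖ ^ 2 := (l2_summable f).mul_left _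
  have h2 : S2 G.lam 1 (⇑(SC.EE G.ω f)) := Summable.of_nonneg_of_le (fun n => sq_nonneg _) key hs
  exact (S2_mono G.lw.h1 (by norm_num) h2).1

private theorem fhb_split (G : Geo H) (f x : HH H) {v v' : ℤ → CI H} (sv : S2 G.lam (1 / 2) v)
    (sv' : S2 G.lam (1 / 2) v') :
    dp (⇑(SC.EE G.ω f)) (pz (⇑x) (fun n => v n + v' n)) =
      dp (⇑(SC.EE G.ω f)) (pz (⇑x) v) + dp (⇑(SC.EE G.ω f)) (pz (⇑x) v') := by
  have sx : S2 G.lam 0 (⇑x) := S2_l2 _ x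
  have sf := fhb_S2_EE G f
  rw [dp_pz G.pw sx sv sf, dp_pz G.pw sx sv' sf,
    dp_pz G.pw sx (S2_add G.lw.h1 sv sv').1 sf, T3_add_mid G.pw sx sv sv' sf]

private theorem fhb_arith {Y C f F a b c u v : ℝ} (hY : 0 ≤ Y) (hC : 0 ≤ C) (hf : 0 ≤ f)
    (hF : 0 ≤ F) (ha : 0 ≤ a) (hb : 0 ≤ b) (hc : 0 ≤ c) (hu : 0 ≤ u) (hv : 0 ≤ v) :
    2 * Y * f * a + F * b + (u * (F * c) + C * (c * (v * f))) ≤
      (2 * Y + C + 1) * (f * (a + c * v) + F * (b + u * c)) := by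
  have t1 : 0 ≤ (C + 1) * (f * a) := by positivity
  have t2 : 0 ≤ (2 * Y + 1) * (f * (c * v)) := by positivity
  have t3 : 0 ≤ (2 * Y + C) * (F * (b + u * c)) := by positivity
  have e : (2 * Y + C + 1) * (f * (a + c * v) + F * (b + u * c)) =
      2 * Y * f * a + F * b + (u * (F * c) + C * (c * (v * f))) +
        ((C + 1) * (f * a) + (2 * Y + 1) * (f * (c * v)) + (2 * Y + C) * (F * (b + u * c))) := by
    ring
  rw [e]
  linarith

/-- a multiplier tested with a function vanishing near the wall -/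
private theorem fhb_far {m : ℝ} (hm : 0 < m) {k : ℝ → ℝ} (hk : Continuous k) {K : ℝ} (hK : 0 ≤ K)
    (hb : ∀ z, 8 * zl m ≤ z → |k z| ≤ K * tht (zl m) (4 * m) z) {E : HH H}
    (hE : Ms (rc (ctf (8 * zl m) (16 * zl m)) (ctf_smooth _ _).continuous) E = 0) (y : HH H) :
    ‖⟪E, Ms (rc k hk) y⟫_ℂ‖ ≤ K * ‖E‖ * ‖Ms (rc (tht (zl m) (4 * m)) (tht_cont _ _)) y‖ := by
  have hzl : 0 < zl m := (by unfold zl; positivity)
  have hlt : 8 * zl m < 16 * zl m := by linarith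
  obtain ⟨e, he⟩ : ∃ e : CI H, e = rc (ctf (8 * zl m) (16 * zl m)) (ctf_smooth _ _).continuous := ⟨_, rfl⟩
  rw [← he] at hE
  have hcc : Continuous fun z => (1 - ctf (8 * zl m) (16 * zl m) z) * k z :=
    (continuous_const.sub (ctf_smooth _ _).continuous).mul hk
  obtain ⟨b, hbd⟩ : ∃ b : CI H, b = rc (fun z => (1 - ctf (8 * zl m) (16 * zl m) z) * k z) hcc := ⟨_, rfl⟩
  have hsum : (rc k hk : CI H) = b + e * rc k hk := by
    refine ci_ext fun z hz => ?_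
    rw [ex_add, ex_mul, hbd, he, ex_rc _ _ hz, ex_rc _ _ hz, ex_rc _ _ hz, ← Complex.ofReal_mul,
      ← Complex.ofReal_add]
    congr 1
    ring
  have hse : star e = e := by rw [he]; exact SC.star_rc _ _
  have h1 : ⟪E, Ms (rc k hk) y⟫_ℂ = ⟪E, Ms b y⟫_ℂ := by
    rw [hsum, Ms_add, inner_add_right, ← Ms_Ms, ← innerMs hse, hE, inner_zero_left, add_zero]
  have hdom : ∀ z ∈ Icc (0:ℝ) H, ‖ex b z‖ ≤
      ‖ex (((K : ℝ) : ℂ) • (rc (tht (zl m) (4 * m)) (tht_cont _ _) : CI H)) z‖ := by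
    intro z hz
    rw [ex_smul, hbd, ex_rc _ _ hz, ex_rc _ _ hz, norm_mul, Complex.norm_real, Complex.norm_real,
      Complex.norm_real, Real.norm_of_nonneg hK, Real.norm_of_nonneg (tht_nonneg _ _ _),
      Real.norm_eq_abs]
    rcases le_total z (8 * zl m) with h | h
    · rw [ctf_one hlt h, sub_self, zero_mul, abs_zero]
      exact mul_nonneg hK (tht_nonneg _ _ _)
    · rw [abs_mul]
      have h2 : |1 - ctf (8 * zl m) (16 * zl m) z| ≤ 1 := by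
        have h3 : 0 ≤ ctf (8 * zl m) (16 * zl m) z := Real.smoothTransition.nonneg _
        have h4 : ctf (8 * zl m) (16 * zl m) z ≤ 1 := Real.smoothTransition.le_one _
        rw [abs_of_nonneg (by linarith)]
        linarith
      calc |1 - ctf (8 * zl m) (16 * zl m) z| * |k z| ≤ 1 * |k z| :=
            mul_le_mul_of_nonneg_right h2 (abs_nonneg _)
        _ = |k z| := one_mul _
        _ ≤ _ := hb z h
  rw [h1]
  have h5 : ‖Ms b y‖ ≤ K * ‖Ms (rc (tht (zl m) (4 * m)) (tht_cont _ _)) y‖ := by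
    refine (norm_Ms_mono hdom y).trans (le_of_eq ?_)
    rw [Ms_smul, norm_smul, Complex.norm_real, Real.norm_of_nonneg hK]
  refine (Geo.inner_le le_rfl h5).trans (le_of_eq ?_)
  ring

/-- the two sizes of the damping far from the wall -/
private theorem fhb_size {Ck m α : ℝ} (hC : 0 ≤ Ck) (hm : 1 ≤ m) (hα : 0 ≤ α) (hα' : α ≤ FW.A0 m)
    {z : ℝ} (hz : 8 * zl m ≤ z) :
    |Ck * (α * Real.cosh (m * z)) ^ 2| ≤ 2048 * 720 * Ck * Real.exp (-√m) * tht (zl m) (4 * m) z ∧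
    |Ck * (α ^ 2 * (2 * (Real.cosh (m * z) * (Real.sinh (m * z) * m))))| ≤
      2048 * 720 * Ck * Real.exp (-√m) * tht (zl m) (4 * m) z := by
  have hm0 : 0 < m := by linarith
  have hzl : 0 < zl m := (by unfold zl; positivity)
  have hs : 1 ≤ √m := Real.one_le_sqrt.2 hm
  have hms : m = √m * √m := (Real.mul_self_sqrt hm0.le).symm
  have hs0 : 0 < √m := by linarith
  have e8 : 8 * m * zl m = √m / 2 := by
    unfold zl
    field_simp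
    nlinarith
  have h1 : √m ≤ 2 * (m * z) := by
    have h2 : 2 * m * (8 * zl m) ≤ 2 * m * z := mul_le_mul_of_nonneg_left hz (by linarith)
    linarith
  have h3 : Real.exp (4 * (m * z) - √m / 2) ≤ tht (zl m) (4 * m) z := by
    have h4 := tht_ge (M := 4 * m) hzl (show 2 * zl m ≤ z by linarith)
    refine le_trans (le_of_eq ?_) h4
    congr 1
    linarith
  exact fhb_kap_real hs hms hα hα' hC h1 h3

/-- `SC.src_bd` with the two sizes `‖f‖`, `‖E f‖` kept apart (the same proof: `b1`, `b4` use `‖f‖`; `b2`, `b3` use `‖EE f‖`). -/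
theorem src_bd2 (G : Geo H) : ∃ C : ℝ, 0 ≤ C ∧ ∀ {e1 e2 : CI H} (_ : star e1 = e1) (_ : G.ζ * e1 = e1) {c₂ : ℝ}
    (_ : 0 ≤ c₂) (_ : ∀ z ∈ Icc (0:ℝ) H, c₂ ≤ z → ex e1 z = 0) {N : ℕ} (_ : 1 ≤ N) {α : ℝ} (_ : 0 ≤ α)
    {w : ℤ → CI H} (_ : S2 G.lam (1 / 2) w) (k : HH H)
    (_ : ∀ n, G.ζ * w n = G.ζ * (cellW (G.ω * N) N α n + wV G.ω (Vf G.ω k) n)) (q q1 q2 f : HH H),
    ‖2 * ⟪Yz G.ω f, Ms e1 q1⟫_ℂ + ⟪SC.EE G.ω f, Ms e2 q⟫_ℂ + dp (⇑(Ms e1 (SC.EE G.ω f))) (pz (⇑q2) w)‖ ≤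
      C * (‖f‖ * (‖Ms e1 q1‖ + ‖Ms e1 q2‖ * ‖LT G.ω G.lam (3 / 8) k‖) +
        ‖SC.EE G.ω f‖ * (‖Ms e2 q‖ + α * Real.exp (G.ω * N * c₂) * ‖Ms e1 q2‖)) := by
  obtain ⟨C, hC, hu⟩ := dp_EE_u G
  obtain ⟨Y, hY⟩ : ∃ Y : ℝ, Y = ‖(Yz G.ω : HH H →L[ℂ] HH H)‖ := ⟨_, rfl⟩
  have hY0 : 0 ≤ Y := by rw [hY]; exact norm_nonneg _
  refine ⟨2 * Y + C + 1, by positivity, ?_⟩
  intro e1 e2 h1 hz c₂ hc he N hN α hα w sw k hw q q1 q2 f
  have sW : S2 G.lam (1 / 2) (cellW (G.ω * N) N α : ℤ → CI H) :=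
    S2_fin (N := (N:ℤ)) fun l h1 h2 => cellW_zero h1 h2
  have sk := (G.S2_huv k).2
  rw [dp_Ms_ζ G h1 hz (SC.EE G.ω f) q2
    (w' := fun n => cellW (G.ω * N) N α n + wV G.ω (Vf G.ω k) n) hw sw, fhb_split G f (Ms e1 q2) sW sk]
  have b1 : ‖2 * ⟪Yz G.ω f, Ms e1 q1⟫_ℂ‖ ≤ 2 * Y * ‖f‖ * ‖Ms e1 q1‖ := by
    rw [norm_mul]
    have h2 : ‖(2:ℂ)‖ = 2 := by norm_num
    rw [h2]
    have h3 : ‖⟪Yz G.ω f, Ms e1 q1⟫_ℂ‖ ≤ (Y * ‖f‖) * ‖Ms e1 q1‖ := by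
      rw [hY]
      exact Geo.inner_le (ContinuousLinearMap.le_opNorm _ _) le_rfl
    linarith
  have b2 : ‖⟪SC.EE G.ω f, Ms e2 q⟫_ℂ‖ ≤ ‖SC.EE G.ω f‖ * ‖Ms e2 q‖ := Geo.inner_le le_rfl le_rfl
  have b3 : ‖dp (⇑(SC.EE G.ω f)) (pz (⇑(Ms e1 q2)) (cellW (G.ω * N) N α))‖ ≤
      α * Real.exp (G.ω * N * c₂) * (‖SC.EE G.ω f‖ * ‖Ms e1 q2‖) := dp_EE_cell G hc he hN hα f q2
  have b4 : ‖dp (⇑(SC.EE G.ω f)) (pz (⇑(Ms e1 q2)) (wV G.ω (Vf G.ω k)))‖ ≤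
      C * (‖Ms e1 q2‖ * (‖LT G.ω G.lam (3 / 8) k‖ * ‖f‖)) := hu f (Ms e1 q2) k
  have b5 := norm_add_le (2 * ⟪Yz G.ω f, Ms e1 q1⟫_ℂ) ⟪SC.EE G.ω f, Ms e2 q⟫_ℂ
  have b6 := norm_add_le (dp (⇑(SC.EE G.ω f)) (pz (⇑(Ms e1 q2)) (cellW (G.ω * N) N α)))
    (dp (⇑(SC.EE G.ω f)) (pz (⇑(Ms e1 q2)) (wV G.ω (Vf G.ω k))))
  have b7 := norm_add_le (2 * ⟪Yz G.ω f, Ms e1 q1⟫_ℂ + ⟪SC.EE G.ω f, Ms e2 q⟫_ℂ)
    (dp (⇑(SC.EE G.ω f)) (pz (⇑(Ms e1 q2)) (cellW (G.ω * N) N α)) +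
      dp (⇑(SC.EE G.ω f)) (pz (⇑(Ms e1 q2)) (wV G.ω (Vf G.ω k))))
  refine b7.trans (((add_le_add b5 b6).trans
    (add_le_add (add_le_add b1 b2) (add_le_add b3 b4))).trans ?_)
  have p0 : 0 ≤ ‖f‖ := norm_nonneg _
  have p00 : 0 ≤ ‖SC.EE G.ω f‖ := norm_nonneg _
  have p1 : 0 ≤ ‖Ms e1 q1‖ := norm_nonneg _
  have p2 : 0 ≤ ‖Ms e2 q‖ := norm_nonneg _
  have p3 : 0 ≤ ‖Ms e1 q2‖ := norm_nonneg _
  have p4 : 0 ≤ ‖LT G.ω G.lam (3 / 8) k‖ := norm_nonneg _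
  have p5 : 0 ≤ α * Real.exp (G.ω * N * c₂) := mul_nonneg hα (Real.exp_pos _).le
  exact fhb_arith hY0 hC p0 p00 p1 p2 p3 p5 p4

/-- **The damping tested far from the wall** (`z ≥ 8 z₁`, `z₁ = zl (ω N)`). `Ms κ (T g) = T (Ms κ g - Ms κ' (T g))` (`Tc_weight`), so the left
side is `⟪E f, Ms κ g - Ms κ' (T g)⟫ = ⟪E f, Ms ((1 - e) κ) g - Ms ((1 - e) κ') (T g)⟫`, `e` the cut-off. For `z ≥ 8 z₁`:
`κ = Ck α² cosh² (m z)`, `|κ'| ≤ 2 m κ`, `tht (zl m) (4m) z ≥ exp (4 m z - √m/2)` (`tht_ge`, `8 m zl m = √m / 2`), `α ≤ A0 m = 32 m exp (-√m)`,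
`2 m z ≥ √m`: `κ, |κ'| ≤ C m³ exp (-5/2 √m) tht ≤ C' exp (-√m) tht`; `norm_Ms_mono`. -/
theorem kap_far (G : Geo H) : ∃ C : ℝ, 0 ≤ C ∧ ∀ {N : ℕ} (_ : 1 ≤ G.ω * N) {α : ℝ} (_ : 0 ≤ α)
    (_ : α ≤ FW.A0 (G.ω * N)) (g f : HH H)
    (_ : Ms (rc (ctf (8 * zl (G.ω * N)) (16 * zl (G.ω * N))) (ctf_smooth _ _).continuous) (SC.EE G.ω f) = 0),
    ‖⟪f, Ms (rc (G.kF (G.ω * N) α) (G.kF_c _ _)) (SC.TT G.ω g)⟫_ℂ‖ ≤
      C * Real.exp (-√(G.ω * N)) * ‖SC.EE G.ω f‖ *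
        (‖Ms (rc (tht (zl (G.ω * N)) (4 * (G.ω * N))) (tht_cont _ _)) g‖ +
          ‖Ms (rc (tht (zl (G.ω * N)) (4 * (G.ω * N))) (tht_cont _ _)) (SC.TT G.ω g)‖) := by
  refine ⟨2048 * 720 * G.Ck, mul_nonneg (by norm_num) G.Ck_nonneg, ?_⟩
  intro N hm α hα hα' g f hE
  obtain ⟨m, hmd⟩ : ∃ m : ℝ, m = G.ω * N := ⟨_, rfl⟩
  rw [← hmd] at hm hα' hE ⊢
  have hm0 : 0 < m := by linarith
  have hK : 0 ≤ 2048 * 720 * G.Ck * Real.exp (-√m) :=
    mul_nonneg (mul_nonneg (by norm_num) G.Ck_nonneg) (Real.exp_pos _).le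
  have hk1 : Continuous fun z : ℝ =>
      G.Ck * (α ^ 2 * (2 * (Real.cosh (m * z) * (Real.sinh (m * z) * m)))) := by fun_prop
  have hD : IsD (rc (G.kF m α) (G.kF_c _ _) : CI H) (rc _ hk1) := by
    intro z hz
    have h2 : HasDerivAt (fun z : ℝ => m * z) m z := by
      simpa using (hasDerivAt_id z).const_mul m
    have h3 := (((h2.cosh.pow 2).const_mul (α ^ 2)).const_mul G.Ck)
    have h4 : HasDerivAt (fun z : ℝ => ((G.kF m α z : ℝ) : ℂ))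
        ((G.Ck * (α ^ 2 * (2 * (Real.cosh (m * z) * (Real.sinh (m * z) * m)))) : ℝ) : ℂ) z := by
      refine HasDerivAt.ofReal_comp ?_
      refine (h3.congr_deriv ?_).congr_of_eventuallyEq (Eventually.of_forall fun y => ?_)
      · simp only [Nat.cast_ofNat]; ring
      · show G.kF m α y = G.Ck * (α ^ 2 * Real.cosh (m * y) ^ 2)
        unfold Geo.kF chF; ring
    rw [ex_rc _ _ hz]
    exact (h4.hasDerivWithinAt).congr (fun x hx => ex_rc _ _ hx) (ex_rc _ _ hz)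
  rw [← Tc_weight G.ω hD g, ← inner_conj_symm, inner_TT, inner_conj_symm, inner_sub_right]
  have b1 := fhb_far hm0 (G.kF_c m α) hK (fun z hz => by
    have h1 := (fhb_size (z := z) G.Ck_nonneg hm hα hα' hz).1
    unfold Geo.kF chF
    exact h1) hE g
  have b2 := fhb_far hm0 hk1 hK
    (fun z hz => (fhb_size (z := z) G.Ck_nonneg hm hα hα' hz).2) hE (SC.TT G.ω g)
  refine (norm_sub_le _ _).trans ((add_le_add b1 b2).trans (le_of_eq ?_))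
  ring

end

end Pool.Agent.Lib.MP_79abb3_an.PD
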