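import Pool.Agent.Lib.MP_79abb3_an.PD.FeR3a
import Pool.Agent.Lib.MP_79abb3_an.PD.ScC

/-!
Theorem D, block F, flush: weights in the strips.
-/

set_option autoImplicit false
set_option linter.unusedSectionVars false

open MeasureTheory Set Filter Topology Function
open scoped ENNReal InnerProductSpace ComplexConjugate

namespace Pool.Agent.Lib.MP_79abb3_an.PD

open Pool.Agent.Lib.MP_79abb3_an.SC Pool.Agent.Lib.MP_79abb3_an.P25

section aux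
variable {f M : ℂ → ℂ} {c c0 c1 : ℝ}

private theorem fhb1_px (hf : Smo f) (hg : Smo M) (x : ℂ) :
    px (fun x => f x * M x) x = f x * px M x + px f x * M x := by
  unfold px
  rw [fderiv_fun_mul (hf.differentiable x) (hg.differentiable x)]
  simp only [_root_.add_apply, _root_.smul_apply, smul_eq_mul]
  ring

private theorem fhb1_py (hf : Smo f) (hg : Smo M) (x : ℂ) :
    py (fun x => f x * M x) x = f x * py M x + py f x * M x := by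
  unfold py
  rw [fderiv_fun_mul (hf.differentiable x) (hg.differentiable x)]
  simp only [_root_.add_apply, _root_.smul_apply, smul_eq_mul]
  ring

private theorem fhb1_Cc (hM : Smo M) (hf : Cc f) : Cc fun x => M x * f x := by
  have : (fun x => M x * f x) = fun x => f x * M x := funext fun x => mul_comm _ _
  rw [this]; exact hf.mul_smo hM

private theorem fhb1_vec (a b : L2c) : ‖(WithLp.toLp 2 (a, b) : Y2)‖ ≤ ‖a‖ + ‖b‖ := by
  have h := WithLp.prod_norm_sq_eq_of_L2 (WithLp.toLp 2 (a, b) : Y2)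
  have h1 : ‖(WithLp.toLp 2 (a, b) : Y2)‖ ^ 2 ≤ (‖a‖ + ‖b‖) ^ 2 := by
    rw [h]
    show ‖a‖ ^ 2 + ‖b‖ ^ 2 ≤ _
    nlinarith [mul_nonneg (norm_nonneg a) (norm_nonneg b)]
  exact (pow_le_pow_iff_left₀ (norm_nonneg _) (by positivity) two_ne_zero).1 h1

private theorem fhb1_gp (hM : Smo M) (h0 : Bm M c0) (hx : Bm (px M) c1) (hy : Bm (py M) c1) (hf : Cc f) :
    gp (fun x => M x * f x) =
    WithLp.toLp 2 (mm M (cl2 (py f)) + mm (py M) (cl2 f), -(mm M (cl2 (px f)) + mm (px M) (cl2 f))) := by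
  unfold gp
  rw [mm_cl2 h0 (hf.py.memLp 2), mm_cl2 hy (hf.memLp 2), mm_cl2 h0 (hf.px.memLp 2),
    mm_cl2 hx (hf.memLp 2), ← cl2_add ((fhb1_Cc hM hf.py).memLp 2)
    ((fhb1_Cc hM.py hf).memLp 2), ← cl2_add ((fhb1_Cc hM hf.px).memLp 2)
    ((fhb1_Cc hM.px hf).memLp 2)]
  have e1 : py (fun x => M x * f x) = fun x => M x * py f x + py M x * f x :=
    funext (fhb1_py hM hf.smo)
  have e2 : px (fun x => M x * f x) = fun x => M x * px f x + px M x * f x :=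
    funext (fhb1_px hM hf.smo)
  rw [e1, e2]

private theorem fhb1_norm (hM : Smo M) (h0 : ∀ y, ‖M y‖ ≤ c0) (h1 : ∀ y, ‖px M y‖ ≤ c1 ∧ ‖py M y‖ ≤ c1)
    (hf : Cc f) : ‖gp (fun x => M x * f x)‖ ≤ c0 * ‖gp f‖ + 2 * c1 * ‖cl2 f‖ := by
  have hc0 : 0 ≤ c0 := (norm_nonneg _).trans (h0 0)
  have hc1 : 0 ≤ c1 := (norm_nonneg _).trans (h1 0).1
  have b0 : Bm M c0 := ⟨hM.continuous.aestronglyMeasurable, h0⟩
  have bx : Bm (px M) c1 := ⟨hM.px.continuous.aestronglyMeasurable, fun y => (h1 y).1⟩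
  have bY : Bm (py M) c1 := ⟨hM.py.continuous.aestronglyMeasurable, fun y => (h1 y).2⟩
  have e : gp (fun x => M x * f x) =
      (WithLp.toLp 2 (mm M (cl2 (py f)), mm M (-cl2 (px f))) : Y2) +
      WithLp.toLp 2 (mm (py M) (cl2 f), -mm (px M) (cl2 f)) := by
    rw [fhb1_gp hM b0 bx bY hf, ← WithLp.toLp_add, Prod.mk_add_mk, map_neg]
    congr 2
    abel
  rw [e]
  refine (norm_add_le _ _).trans (add_le_add ?_ ?_)
  · have h := WithLp.prod_norm_sq_eq_of_L2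
      (WithLp.toLp 2 (mm M (cl2 (py f)), mm M (-cl2 (px f))) : Y2)
    have h' := WithLp.prod_norm_sq_eq_of_L2 (gp f)
    have h2 : ‖(WithLp.toLp 2 (mm M (cl2 (py f)), mm M (-cl2 (px f))) : Y2)‖ ^ 2 ≤
        (c0 * ‖gp f‖) ^ 2 := by
      rw [h, mul_pow, h']
      show ‖mm M (cl2 (py f))‖ ^ 2 + ‖mm M (-cl2 (px f))‖ ^ 2 ≤
        c0 ^ 2 * (‖cl2 (py f)‖ ^ 2 + ‖-cl2 (px f)‖ ^ 2)
      have k1 := (mm M).le_of_opNorm_le (mm_norm b0) (cl2 (py f))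
      have k2 := (mm M).le_of_opNorm_le (mm_norm b0) (-cl2 (px f))
      have k3 := pow_le_pow_left₀ (norm_nonneg _) k1 2
      have k4 := pow_le_pow_left₀ (norm_nonneg _) k2 2
      rw [mul_pow] at k3 k4
      linarith
    exact (pow_le_pow_iff_left₀ (norm_nonneg _) (by positivity) two_ne_zero).1 h2
  · refine (fhb1_vec _ _).trans ?_
    rw [norm_neg]
    have k1 := (mm (py M)).le_of_opNorm_le (mm_norm bY) (cl2 f)
    have k2 := (mm (px M)).le_of_opNorm_le (mm_norm bx) (cl2 f)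
    linarith

end aux

/-- `mS_norm` with the sizes of `M` and of `∇M` kept apart: `gp (M f) = M gp f + (py M f, -px M f)`, density. -/
theorem mS_norm2 {D : Set ℂ} (hD : Bornology.IsBounded D) {M : ℂ → ℂ} {c c0 c1 : ℝ} (hM : Wg M c)
    (h0 : ∀ y, ‖M y‖ ≤ c0) (h1 : ∀ y, ‖px M y‖ ≤ c1 ∧ ‖py M y‖ ≤ c1) (q : SV D) :
    ‖mS hD hM q‖ ≤ c0 * ‖q‖ + 2 * c1 * ‖js D q‖ := by
  have hcl : IsClosed {q : SV D | ‖mS hD hM q‖ ≤ c0 * ‖q‖ + 2 * c1 * ‖js D q‖} :=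
    isClosed_le (by fun_prop) (by fun_prop)
  refine isClosed_property (gpV_dense D) hcl (fun φ => ?_) q
  show ‖mS hD hM (gpV D φ)‖ ≤ c0 * ‖gpV D φ‖ + 2 * c1 * ‖js D (gpV D φ)‖
  rw [mS_gpV, js_gpV hD]
  exact fhb1_norm hM.smo h0 h1 φ.2.1

/-- The weight is affine in `M`. -/
theorem mS_add_const {D : Set ℂ} (hD : Bornology.IsBounded D) {M P : ℂ → ℂ} {c c' : ℝ} (hM : Wg M c) (hP : Wg P c')
    {r : ℂ} (h : ∀ y, M y = r + P y) (q : SV D) : mS hD hM q = r • q + mS hD hP q := by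
  have hcl : IsClosed {q : SV D | mS hD hM q = r • q + mS hD hP q} :=
    isClosed_eq (by fun_prop) (by fun_prop)
  refine isClosed_property (gpV_dense D) hcl (fun φ => ?_) q
  show mS hD hM (gpV D φ) = r • gpV D φ + mS hD hP (gpV D φ)
  rw [mS_gpV, mS_gpV, ← map_smul, ← map_add]
  congr 1
  apply Subtype.ext
  funext x
  show M x * (φ : ℂ → ℂ) x = r * (φ : ℂ → ℂ) x + P x * (φ : ℂ → ℂ) x
  rw [h x]
  ring

section
variable {D : Set ℂ}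

private theorem fhb1_sx (ϕ : AdmS D) :
    sx D (gpV D ϕ) = gpX D ⟨(ϕ : ℂ → ℂ), ϕ.2.1, (tsupport_fderiv_subset ℝ).trans ϕ.2.2⟩ := by
  apply Subtype.ext
  rfl

variable {H : ℝ} [hH : Fact (0 < H)] {θ η : ℝ × ℝ → ℂ}

private theorem fhb1_bHc (h : PC H θ) (n : ℤ) :
    bHc θ n = ka (Real.pi / H) n • (fHc θ : HH H) n + (fHc (dZc θ) : HH H) n := by
  rw [bHc_apply h, fHc_apply h, fHc_apply h.zz, map_add, map_smul]

private theorem fhb1_Yz (h : PC H θ) (hE : SC.EE (Real.pi / H) (bHc θ) = (fHc θ : HH H)) :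
    Yz (Real.pi / H) (bHc θ) = (fHc (dZc θ) : HH H) := by
  refine lp.ext (funext fun n => ?_)
  have hn : E2 (Real.pi / H * n) ((bHc θ : HH H) n) = (fHc θ : HH H) n := by
    rw [← EE_apply, hE]
  rw [Yz_apply]
  unfold tZ
  rw [hn, fhb1_bHc h]
  abel

private theorem fhb1_fam {F : ℝ × ℝ → ℝ} (hF : Continuous F) {z : ℝ} (hz : z ∈ Icc (0:ℝ) H)
    (h : ∀ y, F (y, z) = 0) (n : ℤ) : ex (fam F n : CI H) z = 0 := by
  rw [ex_fam hF n hz, fco]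
  simp only [h, Complex.ofReal_zero, zero_mul, intervalIntegral.integral_zero, mul_zero]

private theorem fhb1_fmc (h : PC H θ) {z : ℝ} (hz : z ∈ Icc (0:ℝ) H) (h0 : ∀ y, θ (y, z) = 0) (n : ℤ) :
    ex (fmc θ n : CI H) z = 0 := by
  unfold fmc
  rw [ex_add, ex_smul, fhb1_fam h.re.smooth.continuous hz (fun y => by rw [h0 y]; rfl),
    fhb1_fam h.im.smooth.continuous hz (fun y => by rw [h0 y]; rfl), mul_zero, add_zero]

private theorem fhb1_Ms0 (h : PC H θ) {e₁ : ℝ} (h0 : ∀ y z, 0 ≤ z → z < e₁ → θ (y, z) = 0) {e : CI H}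
    (he : ∀ z ∈ Icc (0:ℝ) H, e₁ ≤ z → ex e z = 0) : Ms e (fHc θ : HH H) = 0 := by
  refine lp.ext (funext fun n => ?_)
  rw [Ms_apply, fHc_apply h, mz_iota, lp.coeFn_zero, Pi.zero_apply]
  have h1 : e * (fmc θ n : CI H) = 0 := by
    refine ci_ext fun z hz => ?_
    rw [ex_mul]
    rcases lt_or_ge z e₁ with hz' | hz'
    · rw [fhb1_fmc h hz (fun y => h0 y z hz.1 hz') n, mul_zero]
      simp [ex]
    · rw [he z hz hz', zero_mul]
      simp [ex]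
  rw [h1, map_zero]

private theorem fhb1_Ms (h : PC H θ) (h' : PC H η) {e₁ : ℝ}
    (h0 : ∀ y z, 0 ≤ z → z < e₁ → θ (y, z) = η (y, z)) {e : CI H}
    (he : ∀ z ∈ Icc (0:ℝ) H, e₁ ≤ z → ex e z = 0) : Ms e (fHc θ : HH H) = Ms e (fHc η) := by
  have h1 := fhb1_Ms0 (h.sub h') (fun y z hz hz' => by
    show θ (y, z) - η (y, z) = 0
    rw [h0 y z hz hz', sub_self]) he
  rw [fHc_sub h h', map_sub] at h1
  exact sub_eq_zero.1 h1

end

namespace FD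
variable {D : Set ℂ} (F : FD D)

private theorem fhb1_zero (j : Fin F.n) (ϕ : AdmS D) (y : ℝ) : F.X j (y, 0) ∉ tsupport (ϕ : ℂ → ℂ) := by
  intro h
  have h1 : F.X j (y, 0) ∈ D := ϕ.2.2 h
  have h2 := (F.hX j).bdry y
  rw [frontier, F.hD.op.interior_eq] at h2
  exact h2.2 h1

private theorem fhb1_gaF (j : Fin F.n) (e e' : ℝ) (ϕ : AdmS D) :
    gaF (F.X j) e e' (ϕ : ℂ → ℂ) = fun q => ((ctf e e' q.2 : ℝ) : ℂ) * (ϕ : ℂ → ℂ) (F.X j q) := by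
  funext q
  unfold gaF
  rw [image_eq_zero_of_notMem_tsupport (F.fhb1_zero j ϕ 0), sub_zero]

private theorem fhb1_EE (j : Fin F.n) {e e' : ℝ} (h1 : e < e') (ϕ : AdmS D) :
    SC.EE (F.G j).ω (bHc (gaF (F.X j) e e' (ϕ : ℂ → ℂ))) = (fHc (gaF (F.X j) e e' (ϕ : ℂ → ℂ)) : HP) := by
  rw [(F.G j).hω]
  refine EE_bHc (gaF_pc (F.hX j) h1 ϕ.2.1.smo) fun y => ?_
  rw [F.fhb1_gaF j e e' ϕ]
  show ((ctf e e' 0 : ℝ) : ℂ) * (ϕ : ℂ → ℂ) (F.X j (y, 0)) = 0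
  rw [image_eq_zero_of_notMem_tsupport (F.fhb1_zero j ϕ y), mul_zero]

private theorem fhb1_Yzj (j : Fin F.n) {e e' : ℝ} (h1 : e < e') (ϕ : AdmS D) :
    Yz (F.G j).ω (bHc (gaF (F.X j) e e' (ϕ : ℂ → ℂ))) =
      (fHc (dZc (gaF (F.X j) e e' (ϕ : ℂ → ℂ))) : HP) := by
  have h2 := F.fhb1_EE j h1 ϕ
  rw [(F.G j).hω] at h2 ⊢
  exact fhb1_Yz (gaF_pc (F.hX j) h1 ϕ.2.1.smo) h2

/-- the functions agree near the points `0 ≤ z < e₁` -/
private theorem fhb1_ev (j : Fin F.n) (e e' : ℝ) (ϕ : AdmS D) {M M' : ℂ → ℂ} (sM : Smo M) (sM' : Smo M')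
    {e₁ : ℝ} (h : ∀ y ∈ Wc (F.X j) e₁, M' y = M y) {y z : ℝ} (h0 : 0 ≤ z) (h1 : z < e₁) :
    gaF (F.X j) e e' ((⟨_, Wg.mul_mem sM ϕ⟩ : AdmS D) : ℂ → ℂ) =ᶠ[𝓝 (y, z)]
      gaF (F.X j) e e' ((⟨_, Wg.mul_mem sM' ϕ⟩ : AdmS D) : ℂ → ℂ) := by
  rw [F.fhb1_gaF j e e', F.fhb1_gaF j e e']
  have key : ∀ᶠ p in 𝓝 ((y, z) : ℝ × ℝ), M (F.X j p) * (ϕ : ℂ → ℂ) (F.X j p) =
      M' (F.X j p) * (ϕ : ℂ → ℂ) (F.X j p) := by
    rcases h0.lt_or_eq with h0 | h0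
    · have e1 : ∀ᶠ p : ℝ × ℝ in 𝓝 ((y, z) : ℝ × ℝ), 0 < p.2 :=
        (isOpen_lt continuous_const continuous_snd).mem_nhds h0
      have e2 : ∀ᶠ p : ℝ × ℝ in 𝓝 ((y, z) : ℝ × ℝ), p.2 < e₁ :=
        (isOpen_lt continuous_snd continuous_const).mem_nhds h1
      filter_upwards [e1, e2] with p hp1 hp2
      rw [h (F.X j p) ⟨p, ⟨hp1, hp2⟩, rfl⟩]
    · subst h0
      have e1 : ∀ᶠ p : ℝ × ℝ in 𝓝 ((y, 0) : ℝ × ℝ), F.X j p ∈ (tsupport (ϕ : ℂ → ℂ))ᶜ :=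
        (F.hX j).smooth.continuous.continuousAt.eventually_mem
          ((isClosed_tsupport _).isOpen_compl.mem_nhds (F.fhb1_zero j ϕ y))
      filter_upwards [e1] with p hp
      rw [image_eq_zero_of_notMem_tsupport hp, mul_zero, mul_zero]
  filter_upwards [key] with p hp
  show ((ctf e e' p.2 : ℝ) : ℂ) * (M (F.X j p) * (ϕ : ℂ → ℂ) (F.X j p)) =
    ((ctf e e' p.2 : ℝ) : ℂ) * (M' (F.X j p) * (ϕ : ℂ → ℂ) (F.X j p))
  rw [hp]

/-- Weights which agree on `Wc (8u)`: for `q = gpV φ` the functions `ζ⁺ M φ`, `ζ⁺ M' φ` agree for `z < 8u`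
(`IsLa.eq`, `Yz (bHc θ) = fHc (dZc θ)`, `EE_bHc`, `Ms e (fHc θ) = fHc (e θ)`-type lemma); density, continuity in `q`. -/
theorem La_loc (j : Fin F.n) {M M' : ℂ → ℂ} {c c' : ℝ} (hM : Wg M c) (hM' : Wg M' c')
    (h : ∀ y ∈ Wc (F.X j) (8 * F.u), M' y = M y) {e : CI Real.pi}
    (he : ∀ z ∈ Icc (0:ℝ) Real.pi, 8 * F.u ≤ z → ex e z = 0) (q : SV D) :
    Ms e (Yz (F.G j).ω (F.La j (sx D (mS F.hD.bdd hM q)))) =
      Ms e (Yz (F.G j).ω (F.La j (sx D (mS F.hD.bdd hM' q)))) ∧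
    Ms e (SC.EE (F.G j).ω (F.La j (sx D (mS F.hD.bdd hM q)))) =
      Ms e (SC.EE (F.G j).ω (F.La j (sx D (mS F.hD.bdd hM' q)))) := by
  have h13 : 13 * F.u < 14 * F.u := by linarith [F.u0]
  have c1 : ∀ {P : ℂ → ℂ} {c : ℝ} (hP : Wg P c), Continuous fun q : SV D =>
      F.La j (sx D (mS F.hD.bdd hP q)) := fun hP =>
    (F.La j).continuous.comp ((sx D).continuous.comp (mS F.hD.bdd hP).continuous)
  constructor
  · have hcl : IsClosed {q : SV D | Ms e (Yz (F.G j).ω (F.La j (sx D (mS F.hD.bdd hM q)))) =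
        Ms e (Yz (F.G j).ω (F.La j (sx D (mS F.hD.bdd hM' q))))} :=
      isClosed_eq ((Ms e).continuous.comp ((Yz (F.G j).ω).continuous.comp (c1 hM)))
        ((Ms e).continuous.comp ((Yz (F.G j).ω).continuous.comp (c1 hM')))
    refine isClosed_property (gpV_dense D) hcl (fun ϕ => ?_) q
    show Ms e (Yz (F.G j).ω (F.La j (sx D (mS F.hD.bdd hM (gpV D ϕ))))) =
      Ms e (Yz (F.G j).ω (F.La j (sx D (mS F.hD.bdd hM' (gpV D ϕ)))))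
    rw [mS_gpV, mS_gpV, fhb1_sx, fhb1_sx, (F.hLa j).eq, (F.hLa j).eq]
    have e1 := F.fhb1_Yzj j h13 ⟨_, Wg.mul_mem hM.smo ϕ⟩
    have e2 := F.fhb1_Yzj j h13 ⟨_, Wg.mul_mem hM'.smo ϕ⟩
    refine (congrArg (Ms e) e1).trans (Eq.trans ?_ (congrArg (Ms e) e2).symm)
    refine fhb1_Ms (gaF_pc (F.hX j) h13 (Subtype.prop
      (⟨_, Wg.mul_mem hM.smo ϕ⟩ : AdmS D)).1.smo).zz
      (gaF_pc (F.hX j) h13 (Subtype.prop (⟨_, Wg.mul_mem hM'.smo ϕ⟩ : AdmS D)).1.smo).zz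
      (fun y z hz hz' => ?_) he
    have h2 := F.fhb1_ev j (13 * F.u) (14 * F.u) ϕ hM.smo hM'.smo h (y := y) hz hz'
    unfold dZc
    rw [h2.fderiv_eq]
  · have hcl : IsClosed {q : SV D | Ms e (SC.EE (F.G j).ω (F.La j (sx D (mS F.hD.bdd hM q)))) =
        Ms e (SC.EE (F.G j).ω (F.La j (sx D (mS F.hD.bdd hM' q))))} :=
      isClosed_eq ((Ms e).continuous.comp ((SC.EE (F.G j).ω).continuous.comp (c1 hM)))
        ((Ms e).continuous.comp ((SC.EE (F.G j).ω).continuous.comp (c1 hM')))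
    refine isClosed_property (gpV_dense D) hcl (fun ϕ => ?_) q
    show Ms e (SC.EE (F.G j).ω (F.La j (sx D (mS F.hD.bdd hM (gpV D ϕ))))) =
      Ms e (SC.EE (F.G j).ω (F.La j (sx D (mS F.hD.bdd hM' (gpV D ϕ)))))
    rw [mS_gpV, mS_gpV, fhb1_sx, fhb1_sx, (F.hLa j).eq, (F.hLa j).eq]
    have e1 := F.fhb1_EE j h13 ⟨_, Wg.mul_mem hM.smo ϕ⟩
    have e2 := F.fhb1_EE j h13 ⟨_, Wg.mul_mem hM'.smo ϕ⟩
    refine (congrArg (Ms e) e1).trans (Eq.trans ?_ (congrArg (Ms e) e2).symm)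
    refine fhb1_Ms (gaF_pc (F.hX j) h13 (Subtype.prop
      (⟨_, Wg.mul_mem hM.smo ϕ⟩ : AdmS D)).1.smo)
      (gaF_pc (F.hX j) h13 (Subtype.prop (⟨_, Wg.mul_mem hM'.smo ϕ⟩ : AdmS D)).1.smo)
      (fun y z hz hz' => ?_) he
    exact (F.fhb1_ev j (13 * F.u) (14 * F.u) ϕ hM.smo hM'.smo h (y := y) hz hz').self_of_nhds

/-- A weight which vanishes on `Wc e₁`: `E (Le (P q)) = η P θ` vanishes for `z ≤ e₁` (`EE_La` with `hLe`, `hBe`, `js_mS`; for `q = gpV φ`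
`EE_bHc`, `Ms e (fHc θ) = 0` if `e θ = 0`). -/
theorem Le_van (j : Fin F.n) {P : ℂ → ℂ} {c : ℝ} (hP : Wg P c) {e₁ : ℝ} (h1 : 0 < e₁)
    (h : ∀ y ∈ Wc (F.X j) e₁, P y = 0) {e : CI Real.pi}
    (he : ∀ z ∈ Icc (0:ℝ) Real.pi, e₁ ≤ z → ex e z = 0) (q : SV D) :
    Ms e (SC.EE (F.G j).ω (F.Le j (sx D (mS F.hD.bdd hP q)))) = 0 := by
  have h48 : 4 * F.u < 8 * F.u := by linarith [F.u0]
  have hcl : IsClosed {q : SV D | Ms e (SC.EE (F.G j).ω (F.Le j (sx D (mS F.hD.bdd hP q)))) = 0} :=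
    isClosed_eq ((Ms e).continuous.comp ((SC.EE (F.G j).ω).continuous.comp
      ((F.Le j).continuous.comp ((sx D).continuous.comp (mS F.hD.bdd hP).continuous))))
      continuous_const
  refine isClosed_property (gpV_dense D) hcl (fun ϕ => ?_) q
  show Ms e (SC.EE (F.G j).ω (F.Le j (sx D (mS F.hD.bdd hP (gpV D ϕ))))) = 0
  rw [mS_gpV, fhb1_sx, (F.hLe j).eq]
  have e1 := F.fhb1_EE j h48 ⟨_, Wg.mul_mem hP.smo ϕ⟩
  refine (congrArg (Ms e) e1).trans ?_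
  refine fhb1_Ms0 (gaF_pc (F.hX j) h48 (Subtype.prop (⟨_, Wg.mul_mem hP.smo ϕ⟩ : AdmS D)).1.smo)
    (fun y z hz hz' => ?_) he
  have h2 := (F.fhb1_ev j (4 * F.u) (8 * F.u) ϕ hP.smo (Smo.const 0) (fun y hy => (h y hy).symm)
    (y := y) hz hz').self_of_nhds
  refine h2.trans ?_
  rw [F.fhb1_gaF j]
  show ((ctf (4 * F.u) (8 * F.u) z : ℝ) : ℂ) * (0 * (ϕ : ℂ → ℂ) (F.X j (y, z))) = 0
  rw [zero_mul, mul_zero]

end FD

end Pool.Agent.Lib.MP_79abb3_an.PD
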