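import Pool.Agent.Lib.MP_79abb3_an.PD.FhA1

/-!
Theorem D, block F, flush: the weight in the strips.
-/

set_option autoImplicit false
set_option linter.unusedSectionVars false

open MeasureTheory Set Filter Topology Function
open scoped ENNReal InnerProductSpace ComplexConjugate

namespace Pool.Agent.Lib.MP_79abb3_an.PD

open Pool.Agent.Lib.MP_79abb3_an.SC Pool.Agent.Lib.MP_79abb3_an.P25

private theorem fhb2_ctf {M u : ℝ} (hu : 0 < u) (hM : ∀ t, |deriv Real.smoothTransition t| ≤ M) (t : ℝ) :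
    |deriv (ctf (8 * u) (9 * u)) t| ≤ M / u := by
  have h1 : HasDerivAt (fun t : ℝ => (9 * u - t) / (9 * u - 8 * u)) (-1 / (9 * u - 8 * u)) t :=
    ((hasDerivAt_id t).const_sub (9 * u)).div_const (9 * u - 8 * u)
  have h3 : HasDerivAt Real.smoothTransition (deriv Real.smoothTransition ((9 * u - t) / (9 * u - 8 * u)))
      ((9 * u - t) / (9 * u - 8 * u)) :=
    ((Real.smoothTransition.contDiff (n := 1)).differentiable (by norm_num) _).hasDerivAt
  have h4 : HasDerivAt (ctf (8 * u) (9 * u))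
      (deriv Real.smoothTransition ((9 * u - t) / (9 * u - 8 * u)) * (-1 / (9 * u - 8 * u))) t := h3.comp t h1
  rw [h4.deriv, abs_mul]
  have h5 : |-1 / (9 * u - 8 * u)| = 1 / u := by
    rw [abs_div, abs_neg, abs_one, show 9 * u - 8 * u = u by ring, abs_of_pos hu]
  rw [h5]
  calc _ ≤ M * (1 / u) := mul_le_mul_of_nonneg_right (hM _) (by positivity)
    _ = _ := by ring

private theorem fhb2_ctf0 {u t : ℝ} (hu : 0 < u) (ht : 9 * u ≤ t) : deriv (ctf (8 * u) (9 * u)) t = 0 := by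
  have h1 : IsLocalMin (ctf (8 * u) (9 * u)) t := Eventually.of_forall fun s => by
    rw [ctf_zero (by linarith) ht]
    exact Real.smoothTransition.nonneg _
  exact h1.deriv_eq_zero

private theorem fhb2_c01 (a b t : ℝ) : |ctf a b t| ≤ 1 := by
  unfold ctf
  rw [abs_of_nonneg (Real.smoothTransition.nonneg _)]
  exact Real.smoothTransition.le_one _

/-- `m z* = √(K m)` -/
private theorem fhb2_zs {K m : ℝ} (hK : 1 ≤ K) (hm : 1 ≤ m) : 0 < √(K / m) ∧ 1 ≤ m * √(K / m) := by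
  have hm0 : 0 < m := by linarith
  have hK0 : 0 < K := by linarith
  have h1 : 0 < √(K / m) := Real.sqrt_pos.2 (by positivity)
  refine ⟨h1, ?_⟩
  have h2 : (m * √(K / m)) ^ 2 = K * m := by
    rw [mul_pow, Real.sq_sqrt (by positivity)]
    field_simp
  have h3 : (1:ℝ) ^ 2 ≤ (m * √(K / m)) ^ 2 := by rw [h2]; nlinarith
  exact (pow_le_pow_iff_left₀ zero_le_one (by positivity) (by norm_num)).1 h3

/-- the size of the gradient -/
private theorem fhb2_ar {g d φ s' zs r c G M m : ℝ} (hm : 0 < m) (hG : 0 ≤ G) (hM : 0 ≤ M) (hc : 0 ≤ c)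
    (hg : |g| ≤ 1) (hd : |d| ≤ G * c) (hφ : |φ| ≤ c / m) (hs : |s'| ≤ M) (hzs : 0 < zs) (hmz : 1 ≤ m * zs)
    (hr : |r| ≤ G) : |g * d + φ * (s' / zs) * r| ≤ G * (1 + M) * c := by
  have h1 : |g * d| ≤ 1 * (G * c) := by
    rw [abs_mul]
    exact mul_le_mul hg hd (abs_nonneg _) zero_le_one
  have h2 : |φ * (s' / zs) * r| ≤ c / m * (M / zs) * G := by
    rw [abs_mul, abs_mul, abs_div, abs_of_pos hzs]
    have h3 : |s'| / zs ≤ M / zs := div_le_div_of_nonneg_right hs hzs.le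
    exact mul_le_mul (mul_le_mul hφ h3 (by positivity) (by positivity)) hr (abs_nonneg _) (by positivity)
  have h4 : c / m * (M / zs) * G ≤ G * M * c := by
    have h5 : c / m * (M / zs) * G = G * M * c * (1 / (m * zs)) := by
      field_simp
    rw [h5]
    have h6 : 1 / (m * zs) ≤ 1 := by
      rw [div_le_one (by linarith)]
      exact hmz
    exact mul_le_of_le_one_right (by positivity) h6
  have h7 := abs_add_le (g * d) (φ * (s' / zs) * r)
  linarith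

private theorem fhb2_fin {μ m N u Q c a b χ P d G M k x : ℝ} (hu : 0 < u) (hm : 0 < m) (hmN : m ≤ N) (hμ0 : 0 ≤ μ)
    (hμ : μ ≤ 2 * m) (hQ : 1 ≤ Q) (hG : 0 ≤ G) (hM : 0 ≤ M) (hk : 1 ≤ k) (ha : |a| ≤ G * (1 + M) * c)
    (hc0 : 0 ≤ c) (hc : c ≤ Real.exp (N * (9 * u))) (hχ : |χ| ≤ 1) (hP : |P| ≤ 2) (hd : |d| ≤ M / u) (hb : |b| ≤ G)
    (hx : x = μ * a / Q * χ + P * (d * (b / k))) :
    |x| ≤ (2 * G * (1 + M) / u + 2 * (M / u) * G) * Real.exp (N * (10 * u)) := by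
  have hN0 : 0 < N := by linarith
  have h1 : |μ * a / Q * χ| ≤ μ * |a| := by
    rw [abs_mul, abs_div, abs_mul, abs_of_nonneg hμ0, abs_of_pos (by linarith : 0 < Q)]
    have h2 : μ * |a| / Q ≤ μ * |a| := div_le_self (by positivity) hQ
    calc μ * |a| / Q * |χ| ≤ μ * |a| * 1 := mul_le_mul h2 hχ (abs_nonneg _) (by positivity)
      _ = _ := mul_one _
  have h3 : μ * |a| ≤ 2 * m * (G * (1 + M) * c) := mul_le_mul hμ ha (abs_nonneg _) (by positivity)
  have h4 : 2 * m * (G * (1 + M) * c) ≤ 2 * G * (1 + M) / u * Real.exp (N * (10 * u)) := by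
    have h5 : N * u ≤ Real.exp (N * u) := by
      have := Real.add_one_le_exp (N * u)
      linarith
    have h6 : m * c ≤ Real.exp (N * (10 * u)) / u := by
      rw [le_div_iff₀ hu]
      have h7 : Real.exp (N * (10 * u)) = Real.exp (N * u) * Real.exp (N * (9 * u)) := by
        rw [← Real.exp_add]
        congr 1
        ring
      rw [h7]
      calc m * c * u = (m * u) * c := by ring
        _ ≤ Real.exp (N * u) * Real.exp (N * (9 * u)) := by
            refine mul_le_mul ?_ hc hc0 (Real.exp_pos _).le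
            exact (mul_le_mul_of_nonneg_right hmN hu.le).trans h5
    calc 2 * m * (G * (1 + M) * c) = 2 * G * (1 + M) * (m * c) := by ring
      _ ≤ 2 * G * (1 + M) * (Real.exp (N * (10 * u)) / u) := mul_le_mul_of_nonneg_left h6 (by positivity)
      _ = _ := by ring
  have h8 : |P * (d * (b / k))| ≤ 2 * (M / u) * G := by
    rw [abs_mul, abs_mul, abs_div, abs_of_pos (by linarith : 0 < k)]
    have h9 : |b| / k ≤ G := (div_le_self (abs_nonneg _) hk).trans hb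
    calc |P| * (|d| * (|b| / k)) ≤ 2 * (M / u * G) :=
          mul_le_mul hP (mul_le_mul hd h9 (by positivity) (by positivity)) (by positivity) (by norm_num)
      _ = _ := by ring
  have h10 : 2 * (M / u) * G ≤ 2 * (M / u) * G * Real.exp (N * (10 * u)) :=
    le_mul_of_one_le_right (by positivity) (Real.one_le_exp (by positivity))
  rw [hx]
  have h11 := abs_add_le (μ * a / Q * χ) (P * (d * (b / k)))
  rw [add_mul]
  linarith

namespace FD
variable {D : Set ℂ} (F : FD D)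

/-- `M = π` near the wall: `h = k z ≤ z*` for `z ≤ 16 z₁ = 1/√N`, `N = k m`, `k ≤ K` (`h_X`, `G_.om_pi`). -/
theorem Mw_wall {m : ℕ} (hm : 1 ≤ m) (j : Fin F.n) (hz : F.z1 m j ≤ F.u) :
    ∀ y ∈ Wc (F.X j) (16 * F.z1 m j), F.Mw m y = (Real.pi : ℂ) := by
  rintro y ⟨q, ⟨h0, h1⟩, rfl⟩
  have hm1 : (1:ℝ) ≤ m := by exact_mod_cast hm
  have hm0 : (0:ℝ) < m := by linarith
  have hk1 : (1:ℝ) ≤ F.k j := by exact_mod_cast F.fl.kpos j
  have hk0 : (0:ℝ) < F.k j := by linarith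
  have hkK : (F.k j : ℝ) ≤ F.K := by exact_mod_cast F.hK j
  have hzs := fhb2_zs (by exact_mod_cast F.K1 : (1:ℝ) ≤ F.K) hm1
  have hN : (F.G j).ω * F.N m j = (F.k j : ℝ) * m := by
    rw [Geo.om_pi, one_mul]
    unfold N
    push_cast
    ring
  have e1 := F.h_X j h0 (lt_of_lt_of_le h1 (by linarith))
  have hle : F.h (F.X j q) ≤ F.zs m := by
    rw [e1]
    unfold zs
    refine Real.le_sqrt_of_sq_le ?_
    have h2 : q.2 ^ 2 ≤ 1 / (F.k j * m) := by
      have h3 : 16 * F.z1 m j = 1 / √((F.k j : ℝ) * m) := by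
        unfold z1 Pool.Agent.Lib.MP_79abb3_an.FW.zl
        rw [hN]
        have h4 : 0 < √((F.k j : ℝ) * m) := Real.sqrt_pos.2 (by positivity)
        field_simp
      rw [h3] at h1
      have h5 : q.2 ^ 2 ≤ (1 / √((F.k j : ℝ) * m)) ^ 2 := pow_le_pow_left₀ h0.le h1.le 2
      rwa [div_pow, one_pow, Real.sq_sqrt (by positivity)] at h5
    rw [mul_pow]
    calc (F.k j : ℝ) ^ 2 * q.2 ^ 2 ≤ (F.k j : ℝ) ^ 2 * (1 / (F.k j * m)) := mul_le_mul_of_nonneg_left h2 (by positivity)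
      _ = F.k j / m := by field_simp
      _ ≤ F.K / m := div_le_div_of_nonneg_right hkK hm0.le
  have h3 : Real.smoothTransition (F.h (F.X j q) / F.zs m - 1) = 0 := by
    refine Real.smoothTransition.zero_of_nonpos ?_
    have h4 : F.h (F.X j q) / F.zs m ≤ 1 := (div_le_one hzs.1).2 hle
    linarith
  have h4 : F.Ph m (F.X j q) = 0 := by
    unfold Ph
    rw [h3, mul_zero, zero_mul]
  unfold Mw
  rw [h4, mul_zero, Real.arctan_zero, sub_zero]

/-- the cut-off in the collar -/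
private noncomputable def fhb2_x (j : Fin F.n) (y : ℂ) : ℝ :=
  open scoped Classical in if y ∈ Wc (F.X j) (16 * F.u) then ctf (8 * F.u) (9 * F.u) (F.h y / F.k j) else 0

private theorem fhb2_x_in (j : Fin F.n) {y : ℂ} (hy : y ∈ Wc (F.X j) (16 * F.u)) :
    F.fhb2_x j y = ctf (8 * F.u) (9 * F.u) (F.h y / F.k j) := if_pos hy

private theorem fhb2_x_out (j : Fin F.n) {y : ℂ} (hy : y ∉ Wc (F.X j) (16 * F.u)) : F.fhb2_x j y = 0 := if_neg hy

private theorem fhb2_x01 (j : Fin F.n) (y : ℂ) : |F.fhb2_x j y| ≤ 1 := by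
  by_cases h : y ∈ Wc (F.X j) (16 * F.u)
  · rw [F.fhb2_x_in j h]
    exact fhb2_c01 _ _ _
  · rw [F.fhb2_x_out j h, abs_zero]
    exact zero_le_one

private theorem fhb2_hk (j : Fin F.n) {q : ℝ × ℝ} (h0 : 0 < q.2) (h1 : q.2 < 16 * F.u) :
    F.h (F.X j q) / F.k j = q.2 := by
  have hk0 : (F.k j : ℝ) ≠ 0 := by
    have := F.fl.kpos j
    have h : F.k j ≠ 0 := by omega
    exact_mod_cast h
  rw [F.h_X j h0 h1]
  field_simp

/-- off the collar the cut-off vanishes in a neighbourhood -/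
private theorem fhb2_off (j : Fin F.n) {y : ℂ} (hy : y ∈ D) (hy' : y ∉ Wc (F.X j) (16 * F.u)) :
    F.fhb2_x j =ᶠ[𝓝 y] fun _ => 0 := by
  have hu := F.u0
  have hK : IsCompact (F.X j '' (Icc (-Real.pi) Real.pi ×ˢ Icc (0:ℝ) (9 * F.u))) :=
    (isCompact_Icc.prod isCompact_Icc).image (F.hX j).smooth.continuous
  have hyK : y ∉ F.X j '' (Icc (-Real.pi) Real.pi ×ˢ Icc (0:ℝ) (9 * F.u)) := by
    rintro ⟨q, hq, rfl⟩
    rcases hq.2.1.lt_or_eq with h | h
    · exact hy' ⟨q, ⟨h, by linarith [hq.2.2]⟩, rfl⟩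
    · have h1 : F.X j (q.1, 0) ∈ frontier D := (F.hX j).bdry q.1
      have h2 : (q.1, (0:ℝ)) = q := Prod.ext rfl h
      rw [h2, F.hD.op.frontier_eq] at h1
      exact h1.2 hy
  filter_upwards [hK.isClosed.isOpen_compl.mem_nhds hyK] with z hz
  by_cases h : z ∈ Wc (F.X j) (16 * F.u)
  · rw [F.fhb2_x_in j h]
    rw [(F.hX j).Wc_eq] at h
    obtain ⟨q, hq, rfl⟩ := h
    rw [F.fhb2_hk j hq.2.1 hq.2.2]
    refine ctf_zero (by linarith) ?_
    by_contra hc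
    rw [not_le] at hc
    exact hz ⟨q, ⟨⟨hq.1.1.le, hq.1.2⟩, ⟨hq.2.1.le, hc.le⟩⟩, rfl⟩
  · exact F.fhb2_x_out j h

private theorem fhb2_on (j : Fin F.n) {y : ℂ} (hy : y ∈ Wc (F.X j) (16 * F.u)) :
    F.fhb2_x j =ᶠ[𝓝 y] fun z => ctf (8 * F.u) (9 * F.u) (F.h z / F.k j) := by
  filter_upwards [((F.hX j).isOpen_Wc le_rfl).mem_nhds hy] with z hz
  exact F.fhb2_x_in j hz

private theorem fhb2_sm (j : Fin F.n) {y : ℂ} (hy : y ∈ D) : ContDiffAt ℝ ((⊤ : ℕ∞) : WithTop ℕ∞) (F.fhb2_x j) y := by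
  by_cases h : y ∈ Wc (F.X j) (16 * F.u)
  · have h1 : ContDiffAt ℝ ((⊤ : ℕ∞) : WithTop ℕ∞) F.h y := F.fl.smooth.contDiffAt (F.hD.op.mem_nhds hy)
    have h2 : ContDiffAt ℝ ((⊤ : ℕ∞) : WithTop ℕ∞) (fun z => ctf (8 * F.u) (9 * F.u) (F.h z / F.k j)) y :=
      (ctf_smooth (8 * F.u) (9 * F.u)).contDiffAt.comp y (h1.div_const _)
    exact h2.congr_of_eventuallyEq (F.fhb2_on j h)
  · exact contDiffAt_const.congr_of_eventuallyEq (F.fhb2_off j hy h)

/-- `arctan (μ Ph)` -/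
private noncomputable def fhb2_P (m : ℕ) (y : ℂ) : ℝ := Real.arctan (F.mw m * F.Ph m y)

private theorem fhb2_Pmem {m : ℕ} (hm : 1 ≤ m) : ContDiff ℝ ((⊤ : ℕ∞) : WithTop ℕ∞) (F.fhb2_P m) ∧
    HasCompactSupport (F.fhb2_P m) ∧ tsupport (F.fhb2_P m) ⊆ D := by
  obtain ⟨h1, h2, h3⟩ := F.Ph_mem hm
  have hs : tsupport (F.fhb2_P m) ⊆ tsupport (F.Ph m) := by
    refine closure_mono fun y hy => ?_
    intro h0
    apply hy
    show Real.arctan (F.mw m * F.Ph m y) = 0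
    rw [h0, mul_zero, Real.arctan_zero]
  exact ⟨Real.contDiff_arctan.comp (contDiff_const.mul h1), h2.of_isClosed_subset (isClosed_tsupport _) hs,
    hs.trans h3⟩

private theorem fhb2_Pbd (m : ℕ) (y : ℂ) : |F.fhb2_P m y| ≤ Real.pi / 2 := by
  rw [abs_le]
  exact ⟨(Real.neg_pi_div_two_lt_arctan _).le, (Real.arctan_lt_pi_div_two _).le⟩

/-- the product -/
private noncomputable def fhb2_Q (m : ℕ) (j : Fin F.n) (y : ℂ) : ℝ := F.fhb2_P m y * F.fhb2_x j y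

private theorem fhb2_Qmem {m : ℕ} (hm : 1 ≤ m) (j : Fin F.n) : ContDiff ℝ ((⊤ : ℕ∞) : WithTop ℕ∞) (F.fhb2_Q m j) ∧
    HasCompactSupport (F.fhb2_Q m j) := by
  obtain ⟨h1, h2, h3⟩ := F.fhb2_Pmem hm
  have hs : tsupport (F.fhb2_Q m j) ⊆ tsupport (F.fhb2_P m) := by
    refine closure_mono fun y hy => ?_
    intro h0
    apply hy
    show F.fhb2_P m y * F.fhb2_x j y = 0
    rw [h0, zero_mul]
  refine ⟨contDiff_iff_contDiffAt.2 fun y => ?_, h2.of_isClosed_subset (isClosed_tsupport _) hs⟩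
  by_cases hy : y ∈ D
  · exact h1.contDiffAt.mul (F.fhb2_sm j hy)
  · have h4 : y ∉ tsupport (F.fhb2_P m) := fun h => hy (h3 h)
    have h5 : F.fhb2_Q m j =ᶠ[𝓝 y] fun _ => 0 := by
      filter_upwards [notMem_tsupport_iff_eventuallyEq.1 h4] with z hz
      show F.fhb2_P m z * F.fhb2_x j z = 0
      rw [hz]
      exact zero_mul _
    exact contDiffAt_const.congr_of_eventuallyEq h5

/-- the new weight -/
private noncomputable def fhb2_M (m : ℕ) (j : Fin F.n) (y : ℂ) : ℂ := ((Real.pi - F.fhb2_Q m j y : ℝ) : ℂ)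

private theorem fhb2_fd {f : ℂ → ℝ} (hf : ContDiff ℝ ((⊤ : ℕ∞) : WithTop ℕ∞) f) (r : ℝ) (y e : ℂ) :
    fderiv ℝ (fun y => ((r - f y : ℝ) : ℂ)) y e = ((-(fderiv ℝ f y e) : ℝ) : ℂ) := by
  have h1 : HasFDerivAt (fun y => r - f y) (-(fderiv ℝ f y)) y :=
    ((hf.differentiable (by simp) y).hasFDerivAt).const_sub r
  have h2 : HasFDerivAt (fun y => ((r - f y : ℝ) : ℂ)) (Complex.ofRealCLM.comp (-(fderiv ℝ f y))) y :=
    Complex.ofRealCLM.hasFDerivAt.comp y h1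
  rw [h2.fderiv]
  rfl

/-- derivatives of the new weight vanish off the collar -/
private theorem fhb2_d0 {m : ℕ} (hm : 1 ≤ m) (j : Fin F.n) {y : ℂ} (hy : y ∉ Wc (F.X j) (16 * F.u)) (e : ℂ) :
    fderiv ℝ (F.fhb2_Q m j) y e = 0 := by
  obtain ⟨h1, h2, h3⟩ := F.fhb2_Pmem hm
  have h5 : F.fhb2_Q m j =ᶠ[𝓝 y] fun _ => 0 := by
    by_cases hD : y ∈ D
    · filter_upwards [F.fhb2_off j hD hy] with z hz
      show F.fhb2_P m z * F.fhb2_x j z = 0
      rw [hz]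
      exact mul_zero _
    · have h4 : y ∉ tsupport (F.fhb2_P m) := fun h => hD (h3 h)
      filter_upwards [notMem_tsupport_iff_eventuallyEq.1 h4] with z hz
      show F.fhb2_P m z * F.fhb2_x j z = 0
      rw [hz]
      exact zero_mul _
  rw [h5.fderiv_eq, fderiv_fun_const]
  rfl

/-- derivatives of the new weight in the collar -/
private theorem fhb2_d1 {m : ℕ} (hm : 1 ≤ m) (j : Fin F.n) {y : ℂ} (hy : y ∈ Wc (F.X j) (16 * F.u)) (e : ℂ) :
    fderiv ℝ (F.fhb2_Q m j) y e = fderiv ℝ (F.fhb2_P m) y e * ctf (8 * F.u) (9 * F.u) (F.h y / F.k j) +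
      F.fhb2_P m y * (deriv (ctf (8 * F.u) (9 * F.u)) (F.h y / F.k j) * (fderiv ℝ F.h y e / F.k j)) := by
  obtain ⟨h1, h2, h3⟩ := F.fhb2_Pmem hm
  have hD : y ∈ D := (F.hX j).Wc_sub le_rfl hy
  have k1 : HasFDerivAt (F.fhb2_P m) (fderiv ℝ (F.fhb2_P m) y) y := (h1.differentiable (by simp) y).hasFDerivAt
  have k2 : HasFDerivAt F.h (fderiv ℝ F.h y) y :=
    ((F.fl.smooth.contDiffAt (F.hD.op.mem_nhds hD)).differentiableAt (by simp)).hasFDerivAt
  have k3 : HasFDerivAt (fun z => F.h z / F.k j) ((F.k j : ℝ)⁻¹ • fderiv ℝ F.h y) y := by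
    have k4 := k2.const_smul ((F.k j : ℝ)⁻¹)
    have e1 : (fun z => F.h z / F.k j) = fun z => (F.k j : ℝ)⁻¹ • F.h z := by
      funext z
      rw [smul_eq_mul, div_eq_inv_mul]
    rw [e1]
    exact k4
  have k5 : HasDerivAt (ctf (8 * F.u) (9 * F.u)) (deriv (ctf (8 * F.u) (9 * F.u)) (F.h y / F.k j))
      (F.h y / F.k j) := ((ctf_smooth (8 * F.u) (9 * F.u)).differentiable (by simp) _).hasDerivAt
  have k6 : HasFDerivAt (ctf (8 * F.u) (9 * F.u) ∘ fun z => F.h z / F.k j)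
      (deriv (ctf (8 * F.u) (9 * F.u)) (F.h y / F.k j) • ((F.k j : ℝ)⁻¹ • fderiv ℝ F.h y)) y :=
    k5.comp_hasFDerivAt y k3
  have k7 : HasFDerivAt (F.fhb2_x j)
      (deriv (ctf (8 * F.u) (9 * F.u)) (F.h y / F.k j) • ((F.k j : ℝ)⁻¹ • fderiv ℝ F.h y)) y :=
    k6.congr_of_eventuallyEq (F.fhb2_on j hy)
  have k8 := k1.mul k7
  have k9 : fderiv ℝ (F.fhb2_Q m j) y = F.fhb2_P m y • (deriv (ctf (8 * F.u) (9 * F.u)) (F.h y / F.k j) •
      ((F.k j : ℝ)⁻¹ • fderiv ℝ F.h y)) + F.fhb2_x j y • fderiv ℝ (F.fhb2_P m) y := k8.fderiv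
  rw [k9, F.fhb2_x_in j hy]
  show F.fhb2_P m y * (deriv (ctf (8 * F.u) (9 * F.u)) (F.h y / F.k j) * ((F.k j : ℝ)⁻¹ * fderiv ℝ F.h y e)) +
    ctf (8 * F.u) (9 * F.u) (F.h y / F.k j) * fderiv ℝ (F.fhb2_P m) y e = _
  rw [div_eq_inv_mul (fderiv ℝ F.h y e)]
  ring

end FD

private theorem fhb2_grx (f : ℂ → ℝ) (y : ℂ) : |fderiv ℝ f y 1| ≤ ‖gr f y‖ := Complex.abs_re_le_norm (gr f y)

private theorem fhb2_gry (f : ℂ → ℝ) (y : ℂ) : |fderiv ℝ f y Complex.I| ≤ ‖gr f y‖ := by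
  have h := Complex.abs_im_le_norm (gr f y)
  have e : (gr f y).im = -fderiv ℝ f y Complex.I := rfl
  rwa [e, abs_neg] at h

namespace FD
variable {D : Set ℂ} (F : FD D)

/-- **The localised weight** `M' = π + (M - π) χ_j`, `χ_j (X_j (y,z)) = ctf (8u) (9u) z` (`z = h/k` in the collar `Wc (16u)`), `M' = π` off the
collar `Wc (9u)` (a set closed in `D`; `M = π` near the boundary). `|∇M'| ≤ |∇M| + 2 |∇χ_j|`, `|∇χ_j| ≤ C |∇h|` (`gr_bdd`), and in the collar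
`Wc (9u)`, `|∇M| ≤ μ |∇Ph| ≤ μ cosh (m h) G (1 + M₀/(m z*)) ≤ C m exp (9 u N)` (`arc_d`, `Ph_loc`, `Fm_bd`, `X_away`, `h3`), `m ≤ exp (u N)/u`. -/
theorem exists_Ml : ∃ C : ℝ, 0 ≤ C ∧ ∀ m : ℕ, 1 ≤ m → ∀ j : Fin F.n, ∃ (M' : ℂ → ℂ) (c : ℝ), Wg M' c ∧
    (∀ y ∈ Wc (F.X j) (8 * F.u), M' y = F.Mw m y) ∧ (∀ y, ‖M' y‖ ≤ 5) ∧
    ∀ y, ‖px M' y‖ ≤ C * Real.exp ((F.G j).ω * F.N m j * (10 * F.u)) ∧
      ‖py M' y‖ ≤ C * Real.exp ((F.G j).ω * F.N m j * (10 * F.u)) := by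
  have hu := F.u0
  obtain ⟨G₀, hG₀⟩ := F.fl.gr_bdd F.hD
  obtain ⟨G, hG0, hG⟩ : ∃ G, 0 ≤ G ∧ ∀ y ∈ D, ‖gr F.h y‖ ≤ G :=
    ⟨max G₀ 0, le_max_right _ _, fun y hy => (hG₀ y hy).trans (le_max_left _ _)⟩
  obtain ⟨M, -, hM0, -, hM, -, -⟩ := st_bd
  refine ⟨2 * G * (1 + M) / F.u + 2 * (M / F.u) * G, by positivity, fun m hm j => ?_⟩
  obtain ⟨q1, q2⟩ := F.fhb2_Qmem hm j
  obtain ⟨p1, p2, p3⟩ := F.fhb2_Pmem hm
  have hm1 : (1:ℝ) ≤ m := by exact_mod_cast hm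
  have hm0 : (0:ℝ) < m := by linarith
  have hk1 : (1:ℝ) ≤ F.k j := by exact_mod_cast F.fl.kpos j
  have hzs := fhb2_zs (by exact_mod_cast F.K1 : (1:ℝ) ≤ F.K) hm1
  have hN : (F.G j).ω * F.N m j = (F.k j : ℝ) * m := by
    rw [Geo.om_pi, one_mul]
    unfold N
    push_cast
    ring
  -- smoothness and bounds
  have hcc : Cc fun y => ((F.fhb2_Q m j y : ℝ) : ℂ) :=
    ⟨Complex.ofRealCLM.contDiff.comp q1, q2.comp_left (g := fun r : ℝ => (r : ℂ)) Complex.ofReal_zero⟩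
  have hMe : F.fhb2_M m j = fun y => ((Real.pi : ℝ) : ℂ) - ((F.fhb2_Q m j y : ℝ) : ℂ) := by
    funext y
    exact Complex.ofReal_sub _ _
  have hsm : Smo (F.fhb2_M m j) := by
    rw [hMe]
    exact contDiff_const.sub hcc.smo
  have hpx : px (F.fhb2_M m j) = fun y => -px (fun y => ((F.fhb2_Q m j y : ℝ) : ℂ)) y := by
    funext y
    rw [hMe]
    show fderiv ℝ (fun y => ((Real.pi : ℝ) : ℂ) - ((F.fhb2_Q m j y : ℝ) : ℂ)) y 1 = _
    rw [fderiv_const_sub]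
    rfl
  have hpy : py (F.fhb2_M m j) = fun y => -py (fun y => ((F.fhb2_Q m j y : ℝ) : ℂ)) y := by
    funext y
    rw [hMe]
    show fderiv ℝ (fun y => ((Real.pi : ℝ) : ℂ) - ((F.fhb2_Q m j y : ℝ) : ℂ)) y Complex.I = _
    rw [fderiv_const_sub]
    rfl
  have hb : ∀ y, ‖F.fhb2_M m j y‖ ≤ 5 := by
    intro y
    show ‖((Real.pi - F.fhb2_P m y * F.fhb2_x j y : ℝ) : ℂ)‖ ≤ 5
    rw [Complex.norm_real, Real.norm_eq_abs]
    have h1 := abs_sub Real.pi (F.fhb2_P m y * F.fhb2_x j y)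
    have h2 : |F.fhb2_P m y * F.fhb2_x j y| ≤ Real.pi / 2 * 1 := by
      rw [abs_mul]
      exact mul_le_mul (F.fhb2_Pbd m y) (F.fhb2_x01 j y) (abs_nonneg _) (by positivity)
    have h3 := Real.pi_lt_d2
    rw [abs_of_pos Real.pi_pos] at h1
    linarith
  have hcx : Cc (px (F.fhb2_M m j)) := by
    rw [hpx]
    exact hcc.px.neg
  have hcy : Cc (py (F.fhb2_M m j)) := by
    rw [hpy]
    exact hcc.py.neg
  obtain ⟨b1, hb1⟩ := hcx.cpt.exists_bound_of_continuous hcx.smo.continuous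
  obtain ⟨b2, hb2⟩ := hcy.cpt.exists_bound_of_continuous hcy.smo.continuous
  have hcl : Cc (lap (F.fhb2_M m j)) := hcx.px.add hcy.py
  obtain ⟨b3, hb3⟩ := hcl.cpt.exists_bound_of_continuous hcl.smo.continuous
  refine ⟨F.fhb2_M m j, max 5 (max b1 (max b2 b3)), ⟨hsm, fun y => Complex.conj_ofReal _, fun y =>
    ⟨(hb y).trans (le_max_left _ _), (hb1 y).trans ((le_max_left _ _).trans (le_max_right _ _)),
      (hb2 y).trans (((le_max_left _ _).trans (le_max_right _ _)).trans (le_max_right _ _)),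
      (hb3 y).trans (((le_max_right _ _).trans (le_max_right _ _)).trans (le_max_right _ _))⟩⟩, ?_, hb, ?_⟩
  · rintro y ⟨q, ⟨h0, h1⟩, rfl⟩
    have h2 : F.X j q ∈ Wc (F.X j) (16 * F.u) := ⟨q, ⟨h0, by linarith⟩, rfl⟩
    show ((Real.pi - F.fhb2_P m (F.X j q) * F.fhb2_x j (F.X j q) : ℝ) : ℂ) = _
    rw [F.fhb2_x_in j h2, F.fhb2_hk j h0 (by linarith), ctf_one (by linarith) h1.le, mul_one]
    rfl
  · -- the gradient
    have key : ∀ y e : ℂ, (∀ y ∈ D, |fderiv ℝ F.h y e| ≤ G) →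
        (∀ y ∈ D, F.s2 < dist y F.x → ∃ Q a : ℝ, 1 ≤ Q ∧ fderiv ℝ (F.fhb2_P m) y e = F.mw m * a / Q ∧
          |a| ≤ G * (1 + M) * Real.cosh (m * F.h y)) →
        |fderiv ℝ (F.fhb2_Q m j) y e| ≤ (2 * G * (1 + M) / F.u + 2 * (M / F.u) * G) *
          Real.exp ((F.G j).ω * F.N m j * (10 * F.u)) := by
      intro y e he hP
      by_cases hy : y ∈ Wc (F.X j) (16 * F.u)
      · obtain ⟨q, ⟨h0, h1⟩, rfl⟩ := hy
        have hy : F.X j q ∈ Wc (F.X j) (16 * F.u) := ⟨q, ⟨h0, h1⟩, rfl⟩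
        have hD : F.X j q ∈ D := (F.hX j).Wc_sub le_rfl hy
        rw [F.fhb2_d1 hm j hy e]
        rcases lt_or_ge q.2 (9 * F.u) with h9 | h9
        · obtain ⟨Q, a, hQ, ha1, ha2⟩ := hP _ hD (F.h3.trans (F.X_away j h0 h1))
          rw [ha1]
          have hμ0 : 0 ≤ F.mw m := by unfold mw; positivity
          have hμ : F.mw m ≤ 2 * m := by
            unfold mw
            have h2 : Real.exp (-(2 * √((F.K : ℝ) * m))) ≤ 1 := by
              rw [← Real.exp_zero]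
              exact Real.exp_le_exp.2 (by linarith [Real.sqrt_nonneg ((F.K : ℝ) * m)])
            exact mul_le_of_le_one_right (by positivity) h2
          have hc : Real.cosh (m * F.h (F.X j q)) ≤ Real.exp ((F.G j).ω * F.N m j * (9 * F.u)) := by
            rw [hN, F.h_X j h0 h1]
            have h2 : (m : ℝ) * (F.k j * q.2) ≤ F.k j * m * (9 * F.u) := by
              have h3 : (F.k j : ℝ) * m * q.2 ≤ F.k j * m * (9 * F.u) := mul_le_mul_of_nonneg_left h9.le (by positivity)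
              linarith
            have h4 : 0 ≤ (m : ℝ) * (F.k j * q.2) := by positivity
            have h5 : Real.cosh ((m : ℝ) * (F.k j * q.2)) ≤ Real.exp ((m : ℝ) * (F.k j * q.2)) := by
              rw [Real.cosh_eq]
              have h6 : Real.exp (-((m : ℝ) * (F.k j * q.2))) ≤ Real.exp ((m : ℝ) * (F.k j * q.2)) :=
                Real.exp_le_exp.2 (by linarith)
              linarith
            exact h5.trans (Real.exp_le_exp.2 h2)
          refine fhb2_fin hu hm0 ?_ hμ0 hμ hQ hG0 hM0 hk1 ha2 (Real.cosh_pos _).le hc (fhb2_c01 _ _ _)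
            ((F.fhb2_Pbd m _).trans ?_) (fhb2_ctf hu hM _) (he _ hD) rfl
          · rw [hN]
            exact le_mul_of_one_le_left hm0.le hk1
          · have := Real.pi_lt_d2
            linarith
        · rw [F.fhb2_hk j h0 h1, ctf_zero (by linarith) h9, fhb2_ctf0 hu h9, mul_zero, zero_mul, mul_zero, add_zero,
            abs_zero]
          positivity
      · rw [F.fhb2_d0 hm j hy e, abs_zero]
        positivity
    have hPd : ∀ y e : ℂ, fderiv ℝ (F.Mw m) y e = ((-(fderiv ℝ (F.fhb2_P m) y e) : ℝ) : ℂ) :=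
      fun y e => fhb2_fd p1 Real.pi y e
    have hQd : ∀ y e : ℂ, fderiv ℝ (F.fhb2_M m j) y e = ((-(fderiv ℝ (F.fhb2_Q m j) y e) : ℝ) : ℂ) :=
      fun y e => fhb2_fd q1 Real.pi y e
    have hloc : ∀ y ∈ D, F.s2 < dist y F.x → |rdx (F.Ph m) y| ≤ G * (1 + M) * Real.cosh (m * F.h y) ∧
        |rdy (F.Ph m) y| ≤ G * (1 + M) * Real.cosh (m * F.h y) := by
      intro y hy h2
      obtain ⟨-, e2, e3, -⟩ := F.Ph_loc hm hy h2
      have hy' : y ∈ D \ Metric.closedBall F.x F.s :=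
        ⟨hy, fun h => absurd (Metric.mem_closedBall.1 h) (not_le.2 (F.h1.trans (F.h2.trans h2)))⟩
      obtain ⟨-, f2, f3, -⟩ := F.Fm_bd hm hy'
      have f4 : ‖deriv (F.Fm m) y‖ ≤ G * Real.cosh (m * F.h y) :=
        f2.trans (mul_le_mul_of_nonneg_right (hG y hy) (Real.cosh_pos _).le)
      have st1 : |Real.smoothTransition (F.h y / F.zs m - 1)| ≤ 1 := by
        rw [abs_of_nonneg (Real.smoothTransition.nonneg _)]
        exact Real.smoothTransition.le_one _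
      constructor
      · rw [e2]
        exact fhb2_ar hm0 hG0 hM0 (Real.cosh_pos _).le st1 ((Complex.abs_re_le_norm _).trans f4) f3 (hM _) hzs.1
          hzs.2 ((fhb2_grx F.h y).trans (hG y hy))
      · rw [e3]
        refine fhb2_ar hm0 hG0 hM0 (Real.cosh_pos _).le st1 ?_ f3 (hM _) hzs.1
          hzs.2 ((fhb2_gry F.h y).trans (hG y hy))
        rw [abs_neg]
        exact (Complex.abs_im_le_norm _).trans f4
    intro y
    constructor
    · show ‖fderiv ℝ (F.fhb2_M m j) y 1‖ ≤ _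
      rw [hQd, Complex.norm_real, Real.norm_eq_abs, abs_neg]
      refine key y 1 (fun y hy => (fhb2_grx F.h y).trans (hG y hy)) fun y hy h2 => ?_
      refine ⟨1 + (F.mw m * F.Ph m y) ^ 2, rdx (F.Ph m) y, ?_, ?_, (hloc y hy h2).1⟩
      · linarith [sq_nonneg (F.mw m * F.Ph m y)]
      · have a1 := (arc_d (F.Ph_mem hm).1 (F.mw m) y).1
        have a2 : px (F.Mw m) y = ((-(fderiv ℝ (F.fhb2_P m) y 1) : ℝ) : ℂ) := hPd y 1
        have a3 : px (F.Mw m) y = ((-(F.mw m * rdx (F.Ph m) y) / (1 + (F.mw m * F.Ph m y) ^ 2) : ℝ) : ℂ) := a1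
        rw [a2] at a3
        have a4 := Complex.ofReal_injective a3
        rw [neg_div] at a4
        exact neg_injective a4
    · show ‖fderiv ℝ (F.fhb2_M m j) y Complex.I‖ ≤ _
      rw [hQd, Complex.norm_real, Real.norm_eq_abs, abs_neg]
      refine key y Complex.I (fun y hy => (fhb2_gry F.h y).trans (hG y hy)) fun y hy h2 => ?_
      refine ⟨1 + (F.mw m * F.Ph m y) ^ 2, rdy (F.Ph m) y, ?_, ?_, (hloc y hy h2).2⟩
      · linarith [sq_nonneg (F.mw m * F.Ph m y)]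
      · have a1 := (arc_d (F.Ph_mem hm).1 (F.mw m) y).2.1
        have a2 : py (F.Mw m) y = ((-(fderiv ℝ (F.fhb2_P m) y Complex.I) : ℝ) : ℂ) := hPd y Complex.I
        have a3 : py (F.Mw m) y = ((-(F.mw m * rdy (F.Ph m) y) / (1 + (F.mw m * F.Ph m y) ^ 2) : ℝ) : ℂ) := a1
        rw [a2] at a3
        have a4 := Complex.ofReal_injective a3
        rw [neg_div] at a4
        exact neg_injective a4

end FD

end Pool.Agent.Lib.MP_79abb3_an.PD
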