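import Pool.Agent.Lib.MP_79abb3_an.PD.FhB
import Pool.Agent.Lib.MP_79abb3_an.PD.FhB1
import Pool.Agent.Lib.MP_79abb3_an.PD.FhB2
import Pool.Agent.Lib.MP_79abb3_an.PD.FgC3

/-!
Theorem D, block F, flush: the weighted source.
-/

set_option autoImplicit false
set_option linter.unusedSectionVars false

open MeasureTheory Set Filter Topology Function
open scoped ENNReal InnerProductSpace ComplexConjugate

namespace Pool.Agent.Lib.MP_79abb3_an.PD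

open Pool.Agent.Lib.MP_79abb3_an.SC Pool.Agent.Lib.MP_79abb3_an.P25 Pool.Agent.Lib.MP_79abb3_an.FW

/-! ### Real variables -/

private theorem fhb3_der {f : ℝ → ℝ} (hf : Differentiable ℝ f) {z : ℝ} (h : ∀ t, z ≤ t → f t = f z) :
    deriv f z = 0 := by
  have h1 : HasDerivWithinAt f (deriv f z) (Ici z) z := (hf z).hasDerivAt.hasDerivWithinAt
  have h2 : HasDerivWithinAt f 0 (Ici z) z :=
    (hasDerivWithinAt_const z (Ici z) (f z)).congr (fun t ht => h t ht) rfl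
  exact (uniqueDiffWithinAt_Ici z).eq_deriv _ h1 h2

private theorem fhb3_der' {f : ℝ → ℝ} (hf : Differentiable ℝ f) {z : ℝ} (h : ∀ t, t ≤ z → f t = f z) :
    deriv f z = 0 := by
  have h1 : HasDerivWithinAt f (deriv f z) (Iic z) z := (hf z).hasDerivAt.hasDerivWithinAt
  have h2 : HasDerivWithinAt f 0 (Iic z) z :=
    (hasDerivWithinAt_const z (Iic z) (f z)).congr (fun t ht => h t ht) rfl
  exact (uniqueDiffWithinAt_Iic z).eq_deriv _ h1 h2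

private theorem fhb3_up {a b : ℝ} (h : a < b) {z : ℝ} (hz : b ≤ z) :
    deriv (ctf a b) z = 0 ∧ deriv (deriv (ctf a b)) z = 0 := by
  have key : ∀ t, b ≤ t → deriv (ctf a b) t = 0 := fun t ht =>
    fhb3_der ((ctf_smooth a b).differentiable (by simp)) fun s hs => by
      rw [ctf_zero h (ht.trans hs), ctf_zero h ht]
  exact ⟨key z hz, fhb3_der ((ctf_smooth1 a b).differentiable (by simp)) fun s hs => by
    rw [key s (hz.trans hs), key z hz]⟩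

private theorem fhb3_lo {a b : ℝ} (h : a < b) {z : ℝ} (hz : z ≤ a) :
    deriv (ctf a b) z = 0 ∧ deriv (deriv (ctf a b)) z = 0 := by
  have key : ∀ t, t ≤ a → deriv (ctf a b) t = 0 := fun t ht =>
    fhb3_der' ((ctf_smooth a b).differentiable (by simp)) fun s hs => by
      rw [ctf_one h (hs.trans ht), ctf_one h ht]
  exact ⟨key z hz, fhb3_der' ((ctf_smooth1 a b).differentiable (by simp)) fun s hs => by
    rw [key s (hs.trans hz), key z hz]⟩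

private theorem fhb3_ar {Cb L Q S Cl X10 Cf E C1 T Y Ac Bz Cg α X8 R : ℝ} (hCb : 0 ≤ Cb) (hL : 0 ≤ L)
    (hQ : 0 ≤ Q) (hS : 0 ≤ S) (hCl : 0 ≤ Cl) (hCf : 0 ≤ Cf) (hE : 0 ≤ E) (hC1 : 0 ≤ C1)
    (hT : 0 ≤ T) (hY : 0 ≤ Y) (hAc : 0 ≤ Ac) (hBz : 0 ≤ Bz) (hCg : 0 ≤ Cg) (_ : 0 ≤ α) (hX8 : 0 ≤ X8)
    (h1 : X10 * E ≤ R) (h2 : X8 * E ≤ R) (h3 : E ≤ R) (hα : α ≤ 64) :
    Cb * ((L * (5 * Q + 2 * (Cl * X10) * S)) * (Cf * E * (C1 * T) + Cf * E * (C1 * T) * Y) +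
      (Ac * (Bz * (5 * S))) * (Cg * E * (Ac * T) + α * X8 * (Cf * E * (C1 * T)))) ≤
    (Cb * (L * (5 + 2 * Cl) * (Cf * C1 * (1 + Y)) + Ac * Bz * 5 * (Cg * Ac + 64 * Cf * C1))) * (Q + S) *
      (R * T) := by
  have hR : 0 ≤ R := hE.trans h3
  have a1 : 5 * Q * E + 2 * Cl * (X10 * E) * S ≤ (5 + 2 * Cl) * (Q + S) * R := by
    have b1 : 5 * Q * E ≤ 5 * Q * R := mul_le_mul_of_nonneg_left h3 (by positivity)
    have b2 : 2 * Cl * (X10 * E) * S ≤ 2 * Cl * R * S := by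
      refine mul_le_mul_of_nonneg_right (mul_le_mul_of_nonneg_left h1 (by positivity)) hS
    have b3 : 0 ≤ 5 * S * R + 2 * Cl * Q * R := by positivity
    calc _ ≤ 5 * Q * R + 2 * Cl * R * S + (5 * S * R + 2 * Cl * Q * R) := by linarith
      _ = _ := by ring
  have a2 : Cg * Ac * E + Cf * C1 * (α * (X8 * E)) ≤ (Cg * Ac + 64 * Cf * C1) * R := by
    have b1 : Cg * Ac * E ≤ Cg * Ac * R := mul_le_mul_of_nonneg_left h3 (by positivity)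
    have b2 : α * (X8 * E) ≤ 64 * R := mul_le_mul hα h2 (by positivity) (by norm_num)
    have b3 : Cf * C1 * (α * (X8 * E)) ≤ Cf * C1 * (64 * R) := mul_le_mul_of_nonneg_left b2 (by positivity)
    calc _ ≤ Cg * Ac * R + Cf * C1 * (64 * R) := by linarith
      _ = _ := by ring
  have c1 : Cb * ((L * (5 * Q + 2 * (Cl * X10) * S)) * (Cf * E * (C1 * T) + Cf * E * (C1 * T) * Y)) ≤
      Cb * (L * (5 + 2 * Cl) * (Cf * C1 * (1 + Y))) * (Q + S) * (R * T) := by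
    calc _ = (Cb * L * Cf * C1 * (1 + Y) * T) * (5 * Q * E + 2 * Cl * (X10 * E) * S) := by ring
      _ ≤ (Cb * L * Cf * C1 * (1 + Y) * T) * ((5 + 2 * Cl) * (Q + S) * R) :=
          mul_le_mul_of_nonneg_left a1 (by positivity)
      _ = _ := by ring
  have c2 : Cb * ((Ac * (Bz * (5 * S))) * (Cg * E * (Ac * T) + α * X8 * (Cf * E * (C1 * T)))) ≤
      Cb * (Ac * Bz * 5 * (Cg * Ac + 64 * Cf * C1)) * (Q + S) * (R * T) := by
    calc _ = (Cb * Ac * Bz * 5 * T) * S * (Cg * Ac * E + Cf * C1 * (α * (X8 * E))) := by ring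
      _ ≤ (Cb * Ac * Bz * 5 * T) * S * ((Cg * Ac + 64 * Cf * C1) * R) :=
          mul_le_mul_of_nonneg_left a2 (by positivity)
      _ ≤ (Cb * Ac * Bz * 5 * T) * (Q + S) * ((Cg * Ac + 64 * Cf * C1) * R) := by
          refine mul_le_mul_of_nonneg_right ?_ (by positivity)
          exact mul_le_mul_of_nonneg_left (by linarith) (by positivity)
      _ = _ := by ring
  calc _ = Cb * ((L * (5 * Q + 2 * (Cl * X10) * S)) * (Cf * E * (C1 * T) + Cf * E * (C1 * T) * Y)) +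
      Cb * ((Ac * (Bz * (5 * S))) * (Cg * E * (Ac * T) + α * X8 * (Cf * E * (C1 * T)))) := by ring
    _ ≤ _ := add_le_add c1 c2
    _ = _ := by ring

private theorem fhb3_ar1 {p L C A B q s K T X E : ℝ} (hp : 0 ≤ p) (hL : 0 ≤ L) (hC : 0 ≤ C) (hA : 0 ≤ A)
    (hB : 0 ≤ B) (hq : 0 ≤ q) (hs : 0 ≤ s) (hK : 0 ≤ K) (hT : 0 ≤ T) (hX : 0 ≤ X)
    (hE : E ≤ A * (B * (9 * s))) :
    p * (L * q) * K + C * X * E * T ≤ (p * L + C * (A * (B * 9))) * (q + s) * (K + X * T) := by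
  have h1 : C * X * E * T ≤ C * X * (A * (B * (9 * s))) * T :=
    mul_le_mul_of_nonneg_right (mul_le_mul_of_nonneg_left hE (by positivity)) hT
  have h2 : 0 ≤ p * L * s * K + p * L * (q + s) * (X * T) + C * (A * (B * 9)) * (q + s) * K +
      C * (A * (B * 9)) * q * (X * T) := by positivity
  calc _ ≤ p * (L * q) * K + C * X * (A * (B * (9 * s))) * T + (p * L * s * K + p * L * (q + s) * (X * T) +
      C * (A * (B * 9)) * (q + s) * K + C * (A * (B * 9)) * q * (X * T)) := by linarith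
    _ = _ := by ring

private theorem fhb3_mono {Cb f F a b c w l f' F' a' b' c' l' : ℝ} (hCb : 0 ≤ Cb) (hf : 0 ≤ f) (hF : 0 ≤ F)
    (ha : 0 ≤ a) (hb : 0 ≤ b) (hc : 0 ≤ c) (hw : 0 ≤ w) (hl : 0 ≤ l) (_ : 0 ≤ l')
    (h1 : f ≤ f') (h2 : F ≤ F') (h3 : a ≤ a') (h4 : b ≤ b') (h5 : c ≤ c') (h6 : l ≤ l') :
    Cb * (f * (a + b * l) + F * (c + w * b)) ≤ Cb * (f' * (a' + b' * l') + F' * (c' + w * b')) := by
  have k1 : b * l ≤ b' * l' := mul_le_mul h4 h6 hl (hb.trans h4)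
  have k2 : w * b ≤ w * b' := mul_le_mul_of_nonneg_left h4 hw
  have k3 : f * (a + b * l) ≤ f' * (a' + b' * l') :=
    mul_le_mul h1 (add_le_add h3 k1) (add_nonneg ha (mul_nonneg hb hl)) (hf.trans h1)
  have k4 : F * (c + w * b) ≤ F' * (c' + w * b') :=
    mul_le_mul h2 (add_le_add h5 k2) (add_nonneg hc (mul_nonneg hw hb)) (hF.trans h2)
  exact mul_le_mul_of_nonneg_left (add_le_add k3 k4) hCb

/-- the exponentials -/
private theorem fhb3_exp {u x : ℝ} (hu : 0 < u) (hx : 1 ≤ x) (h : 1 / (3 * u) ≤ √x) :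
    Real.exp (x * (10 * u)) * Real.exp (-(4 * x * (4 * u)) + √x) ≤ Real.exp (-√x) ∧
    Real.exp (x * (8 * u)) * Real.exp (-(4 * x * (4 * u)) + √x) ≤ Real.exp (-√x) ∧
    Real.exp (-(4 * x * (4 * u)) + √x) ≤ Real.exp (-√x) ∧ 1 / (8 * √x) ≤ 4 * u ∧ zl x ≤ u := by
  have hx0 : 0 < x := by linarith
  obtain ⟨s, hs⟩ : ∃ s, s = √x := ⟨_, rfl⟩
  have hs1 : 1 ≤ s := by rw [hs]; exact Real.one_le_sqrt.2 hx
  have hss : x = s * s := by rw [hs]; exact (Real.mul_self_sqrt hx0.le).symm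
  unfold zl
  rw [← hs] at h ⊢
  have hs0 : 0 < s := by linarith
  have h1 : 1 ≤ 3 * u * s := by
    rw [div_le_iff₀ (by positivity)] at h
    linarith
  have h2 : 2 * s ≤ 6 * u * x := by
    have h3 := mul_le_mul_of_nonneg_left h1 (by linarith : (0:ℝ) ≤ 2 * s)
    rw [hss]
    nlinarith
  have h4 : 0 ≤ u * x := by positivity
  refine ⟨?_, ?_, ?_, ?_, ?_⟩
  · rw [← Real.exp_add]
    exact Real.exp_le_exp.2 (by nlinarith)
  · rw [← Real.exp_add]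
    exact Real.exp_le_exp.2 (by nlinarith)
  · exact Real.exp_le_exp.2 (by nlinarith)
  · rw [div_le_iff₀ (by positivity)]
    nlinarith
  · rw [div_le_iff₀ (by positivity)]
    nlinarith

private theorem fhb3_A0 {x : ℝ} (hx : 1 ≤ x) : FW.A0 x ≤ 64 := by
  have hx0 : 0 ≤ x := by linarith
  have h1 := Real.pow_div_factorial_le_exp (√x) (Real.sqrt_nonneg x) 2
  rw [Real.sq_sqrt hx0] at h1
  have h2 : ((Nat.factorial 2 : ℕ) : ℝ) = 2 := by norm_num [Nat.factorial]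
  rw [h2] at h1
  unfold FW.A0
  have h3 : Real.exp (√x) * Real.exp (-√x) = 1 := by
    rw [← Real.exp_add, add_neg_cancel, Real.exp_zero]
  have h4 := Real.exp_pos (-√x)
  nlinarith [mul_le_mul_of_nonneg_right h1 h4.le]

namespace FD
variable {D : Set ℂ} (F : FD D)

/-- The size of the weighted source: `‖κ T g‖ + e^{-√N} (‖th g‖ + ‖th T g‖)`. -/
noncomputable def sW (m : ℕ) (j : Fin F.n) (a : ℝ) (g : HP) : ℝ :=
  ‖Ms (F.kp m j a) (SC.TT (F.G j).ω g)‖ + Real.exp (-√((F.G j).ω * F.N m j)) *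
    (‖Ms (F.thw m j) g‖ + ‖Ms (F.thw m j) (SC.TT (F.G j).ω g)‖)

private theorem fhb3_sW0 (m : ℕ) (j : Fin F.n) (a : ℝ) (g : HP) : 0 ≤ F.sW m j a g :=
  add_nonneg (norm_nonneg _) (mul_nonneg (Real.exp_pos _).le (add_nonneg (norm_nonneg _) (norm_nonneg _)))

private theorem fhb3_sx (q : SV D) : ‖sx D q‖ = ‖q‖ := rfl

private theorem fhb3_mm {P : ℂ → ℂ} {c b : ℝ} (hP : Wg P c) (hb : ∀ y, ‖P y‖ ≤ b) (q : SV D) :
    ‖((js D (mS F.hD.bdd hP q) : XS D) : L2c)‖ ≤ b * ‖js D q‖ := by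
  rw [js_mS]
  exact (mm P).le_of_opNorm_le (mm_norm ⟨hP.smo.continuous.aestronglyMeasurable, hb⟩) _

private theorem fhb3_EE (j : Fin F.n) {e e' : ℝ} (h0 : 0 < e) (h1 : e < e') (h2 : e' ≤ 14 * F.u) {L : XD D →L[ℂ] HP}
    {B : L2c →L[ℂ] HP} (hL : IsLa D (F.X j) e e' L) (hB : IsPB (F.X j) e e' (F.J j) B) {P : ℂ → ℂ} {c b : ℝ}
    (hP : Wg P c) (hb : ∀ y, ‖P y‖ ≤ b) (q : SV D) :
    ‖SC.EE (F.G j).ω (L (sx D (mS F.hD.bdd hP q)))‖ ≤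
      ‖(SC.cm (F.G j).a : HP →L[ℂ] HP)‖ * (‖B‖ * (b * ‖js D q‖)) := by
  rw [F.EE_La j h0 h1 h2 hL hB]
  refine (ContinuousLinearMap.le_opNorm _ _).trans (mul_le_mul_of_nonneg_left ?_ (norm_nonneg _))
  refine (ContinuousLinearMap.le_opNorm _ _).trans (mul_le_mul_of_nonneg_left ?_ (norm_nonneg _))
  exact F.fhb3_mm hP hb q

private theorem fhb3_Wg {P : ℂ → ℂ} {c : ℝ} (hP : Wg P c) : Wg (fun y => P y + ((-Real.pi : ℝ) : ℂ)) (c + Real.pi) := by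
  have hc : Smo fun _ : ℂ => ((-Real.pi : ℝ) : ℂ) := Smo.const _
  have hpi := Real.pi_pos
  have ex : px (fun y => P y + ((-Real.pi : ℝ) : ℂ)) = px P := by
    funext y
    unfold px
    rw [fderiv_add_const]
  have ey : py (fun y => P y + ((-Real.pi : ℝ) : ℂ)) = py P := by
    funext y
    unfold py
    rw [fderiv_add_const]
  have el : lap (fun y => P y + ((-Real.pi : ℝ) : ℂ)) = lap P := by
    funext y
    unfold lap
    rw [ex, ey]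
  refine ⟨hP.smo.add hc, fun y => ?_, fun y => ?_⟩
  · rw [map_add, hP.real, Complex.conj_ofReal]
  · obtain ⟨b0, b1, b2, b3⟩ := hP.bd y
    rw [ex, ey, el]
    refine ⟨(norm_add_le _ _).trans ?_, by linarith, by linarith, by linarith⟩
    rw [Complex.norm_real, norm_neg, Real.norm_of_nonneg hpi.le]
    linarith

/-- the damping term -/
private theorem fhb3_T1 (j : Fin F.n) : ∃ C : ℝ, 0 ≤ C ∧ ∀ {m : ℕ} (_ : 1 ≤ m) (_ : F.z1 m j ≤ F.u) {a : ℝ} (_ : 0 ≤ a)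
    (_ : a ≤ F.A0 m) (g : HP) {c : ℝ} (hM : Wg (F.Mw m) c) (q : SV D),
    ‖⟪F.Le j (sx D (mS F.hD.bdd hM q)), Ms (F.kp m j a) (SC.TT (F.G j).ω g)⟫_ℂ‖ ≤
      C * (‖q‖ + ‖js D q‖) * F.sW m j a g := by
  obtain ⟨C, hC, hk⟩ := kap_far (F.G j)
  obtain ⟨Ac, hAc⟩ : ∃ x : ℝ, x = ‖(SC.cm (F.G j).a : HP →L[ℂ] HP)‖ := ⟨_, rfl⟩
  have hAc0 : 0 ≤ Ac := by rw [hAc]; exact norm_nonneg _
  have hpi := Real.pi_pos
  refine ⟨Real.pi * ‖F.Le j‖ + C * (Ac * (‖F.Be j‖ * 9)), by positivity, ?_⟩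
  intro m hm hz a ha haA g c hM q
  obtain ⟨p1, p2, p3, p4, -, -, -, -⟩ := F.par hm j
  have hm1 : (1:ℝ) ≤ m := by exact_mod_cast hm
  have hx1 : 1 ≤ (F.G j).ω * F.N m j := hm1.trans p2
  have hk0 : (0:ℝ) ≤ F.k j := Nat.cast_nonneg _
  have hka : 0 ≤ (F.k j : ℝ) * a := mul_nonneg hk0 ha
  have hkA : (F.k j : ℝ) * a ≤ FW.A0 ((F.G j).ω * F.N m j) :=
    (mul_le_mul_of_nonneg_left haA hk0).trans p4
  have hP := fhb3_Wg hM
  have hzl : 0 < zl ((F.G j).ω * F.N m j) := by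
    have : 0 < √((F.G j).ω * F.N m j) := Real.sqrt_pos.2 (by linarith)
    unfold zl; positivity
  have e1 : mS F.hD.bdd hM q = ((Real.pi : ℝ) : ℂ) • q + mS F.hD.bdd hP q :=
    mS_add_const F.hD.bdd hM hP (fun y => by push_cast; ring) q
  have hvan := F.Le_van j hP (e₁ := 16 * F.z1 m j) (by unfold z1; linarith) (fun y hy => by
    show F.Mw m y + ((-Real.pi : ℝ) : ℂ) = 0
    rw [F.Mw_wall hm j hz y hy]
    push_cast
    ring) (e := rc (ctf (8 * zl ((F.G j).ω * F.N m j)) (16 * zl ((F.G j).ω * F.N m j)))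
      (ctf_smooth _ _).continuous) (fun z hz hz' => by
    rw [FW.ex_rc _ _ hz, ctf_zero (by linarith) (show 16 * zl ((F.G j).ω * F.N m j) ≤ z from hz'),
      Complex.ofReal_zero]) q
  have b2 := hk hx1 hka hkA g (F.Le j (sx D (mS F.hD.bdd hP q))) hvan
  have b3 := F.fhb3_EE j (by linarith [F.u0]) (by linarith [F.u0]) (by linarith [F.u0]) (F.hLe j) (F.hBe j) hP
    (b := 9) (fun y => by
      refine (norm_add_le _ _).trans ?_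
      have h1 := (F.Mw_re m y).2.2
      have h2 := Real.pi_lt_d2
      rw [Complex.norm_real, norm_neg, Real.norm_of_nonneg hpi.le]
      linarith) q
  rw [← hAc] at b3
  have b1 : ‖⟪((Real.pi : ℝ) : ℂ) • F.Le j (sx D q), Ms (F.kp m j a) (SC.TT (F.G j).ω g)⟫_ℂ‖ ≤
      (Real.pi * (‖F.Le j‖ * ‖q‖)) * ‖Ms (F.kp m j a) (SC.TT (F.G j).ω g)‖ := by
    refine Geo.inner_le ?_ le_rfl
    rw [norm_smul, Complex.norm_real, Real.norm_of_nonneg hpi.le]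
    exact mul_le_mul_of_nonneg_left ((F.Le j).le_opNorm (sx D q)) hpi.le
  rw [e1, map_add, map_smul, map_add, map_smul, inner_add_left]
  refine (norm_add_le _ _).trans ((add_le_add b1 b2).trans ?_)
  have q0 : 0 ≤ ‖q‖ := norm_nonneg _
  have s0 : 0 ≤ ‖js D q‖ := norm_nonneg _
  have hEx := Real.exp_pos (-√((F.G j).ω * F.N m j))
  unfold sW
  obtain ⟨K, hK⟩ : ∃ K, K = ‖Ms (F.kp m j a) (SC.TT (F.G j).ω g)‖ := ⟨_, rfl⟩
  obtain ⟨T, hT⟩ : ∃ T, T = ‖Ms (F.thw m j) g‖ + ‖Ms (F.thw m j) (SC.TT (F.G j).ω g)‖ := ⟨_, rfl⟩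
  have hK0 : 0 ≤ K := by rw [hK]; exact norm_nonneg _
  have hT0 : 0 ≤ T := by rw [hT]; exact add_nonneg (norm_nonneg _) (norm_nonneg _)
  have e2 : ‖Ms (rc (tht (zl ((F.G j).ω * F.N m j)) (4 * ((F.G j).ω * F.N m j))) (tht_cont _ _)) g‖ +
      ‖Ms (rc (tht (zl ((F.G j).ω * F.N m j)) (4 * ((F.G j).ω * F.N m j))) (tht_cont _ _))
        (SC.TT (F.G j).ω g)‖ = T := hT.symm
  rw [e2, ← hK, ← hT]
  obtain ⟨E, hE⟩ : ∃ E, E = ‖SC.EE (F.G j).ω (F.Le j (sx D (mS F.hD.bdd hP q)))‖ := ⟨_, rfl⟩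
  rw [← hE] at b3 ⊢
  obtain ⟨X, hX⟩ : ∃ X, X = Real.exp (-√((F.G j).ω * F.N m j)) := ⟨_, rfl⟩
  rw [← hX] at hEx ⊢
  exact fhb3_ar1 hpi.le (norm_nonneg (F.Le j)) hC hAc0 (norm_nonneg (F.Be j)) q0 s0 hK0 hT0 hEx.le b3

private theorem fhb3_c1s (a b : ℝ) : star (ctC1 a b : CI Real.pi) = ctC1 a b := SC.star_rc _ _

private theorem fhb3_c2s (a b : ℝ) : star (ctC2 a b : CI Real.pi) = ctC2 a b := SC.star_rc _ _

private theorem fhb3_c1up {a b : ℝ} (h : a < b) : ∀ z ∈ Icc (0:ℝ) Real.pi, b ≤ z → ex (ctC1 a b : CI Real.pi) z = 0 := by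
  intro z hz hb
  unfold ctC1
  rw [FW.ex_rc _ _ hz, (fhb3_up h hb).1, Complex.ofReal_zero]

private theorem fhb3_c2up {a b : ℝ} (h : a < b) : ∀ z ∈ Icc (0:ℝ) Real.pi, b ≤ z → ex (ctC2 a b : CI Real.pi) z = 0 := by
  intro z hz hb
  unfold ctC2
  rw [FW.ex_rc _ _ hz, (fhb3_up h hb).2, Complex.ofReal_zero]

private theorem fhb3_c1lo {a b : ℝ} (h : a < b) : ∀ z ∈ Icc (0:ℝ) Real.pi, z ≤ a → ex (ctC1 a b : CI Real.pi) z = 0 := by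
  intro z hz hb
  unfold ctC1
  rw [FW.ex_rc _ _ hz, (fhb3_lo h hb).1, Complex.ofReal_zero]

private theorem fhb3_c2lo {a b : ℝ} (h : a < b) : ∀ z ∈ Icc (0:ℝ) Real.pi, z ≤ a → ex (ctC2 a b : CI Real.pi) z = 0 := by
  intro z hz hb
  unfold ctC2
  rw [FW.ex_rc _ _ hz, (fhb3_lo h hb).2, Complex.ofReal_zero]

private theorem fhb3_ζ (j : Fin F.n) : (F.G j).ζ * ctC1 (4 * F.u) (8 * F.u) = ctC1 (4 * F.u) (8 * F.u) := by
  have hu := F.u0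
  rw [F.G_ζ j]
  refine ci_ext fun z hz => ?_
  rw [ex_mul]
  rcases le_total (8 * F.u) z with h | h
  · rw [fhb3_c1up (by linarith) z hz h, mul_zero]
  · unfold ctC
    rw [FW.ex_rc _ _ hz, ctf_one (by linarith) (by linarith), Complex.ofReal_one, one_mul]

private theorem fhb3_w {m : ℕ} (hm : 1 ≤ m) (j : Fin F.n) (a : ℝ) (v : VD D) (n : ℤ) :
    (F.G j).ζ * wV (F.G j).ω (Vf (F.G j).ω (⇑(F.Ga j v))) n =
      (F.G j).ζ * (cellW ((F.G j).ω * F.N m j) (F.N m j) (F.k j * a) n +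
        wV (F.G j).ω (Vf (F.G j).ω (⇑(F.ht m j a v))) n) := by
  have h2 := (F.vel hm j a v 0 n).2
  have h3 : (F.G j).tw (F.N m j) (F.k j * a) (F.ht m j a v - 0) 0 n =
      cellW ((F.G j).ω * F.N m j) (F.N m j) (F.k j * a) n + wV (F.G j).ω (Vf (F.G j).ω (⇑(F.ht m j a v))) n := by
    unfold Geo.tw
    rw [← wV_add', sub_add_cancel]
  rw [h2, h3]

private theorem fhb3_cs (G : Geo Real.pi) : Summable fun n => ‖G.a n‖ := G.ha.c.s0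

/-- the commutator term -/
private theorem fhb3_T2 (j : Fin F.n) {C₁ Y : ℝ} (h1 : 0 ≤ C₁) (hY : 0 ≤ Y) : ∃ C : ℝ, 0 ≤ C ∧
    ∀ {m : ℕ} (_ : 1 ≤ m) (_ : 1 / (3 * F.u) ≤ √((F.G j).ω * F.N m j)) {a : ℝ} (_ : 0 ≤ a)
    (_ : a ≤ F.A0 m) (v : VD D) (_ : ‖LT (F.G j).ω (F.G j).lam (3 / 8) (F.ht m j a v)‖ ≤ Y) (g q1 q2 : HP)
    (_ : ‖Ms (F.thw m j) q1‖ ≤ C₁ * ‖Ms (F.thw m j) g‖) (_ : ‖Ms (F.thw m j) q2‖ ≤ C₁ * ‖Ms (F.thw m j) g‖)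
    {c : ℝ} (hM : Wg (F.Mw m) c) (q : SV D),
    ‖2 * ⟪Yz (F.G j).ω (F.La j (sx D (mS F.hD.bdd hM q))), Ms (ctC1 (4 * F.u) (8 * F.u)) q1⟫_ℂ +
      ⟪SC.EE (F.G j).ω (F.La j (sx D (mS F.hD.bdd hM q))), Ms (ctC2 (4 * F.u) (8 * F.u)) (SC.cm (F.G j).a g)⟫_ℂ +
      dp (⇑(Ms (ctC1 (4 * F.u) (8 * F.u)) (SC.EE (F.G j).ω (F.La j (sx D (mS F.hD.bdd hM q))))))
        (pz (⇑q2) (wV (F.G j).ω (Vf (F.G j).ω (⇑(F.Ga j v)))))‖ ≤
      C * (‖q‖ + ‖js D q‖) * (Real.exp (-√((F.G j).ω * F.N m j)) * ‖Ms (F.thw m j) g‖) := by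
  have hu := F.u0
  have h48 : 4 * F.u < 8 * F.u := by linarith
  obtain ⟨Cb, hCb, hb⟩ := src_bd2 (F.G j)
  obtain ⟨Cl, hCl, hMl⟩ := F.exists_Ml
  obtain ⟨Cf, hCf, hf⟩ := far_le (e := ctC1 (4 * F.u) (8 * F.u)) (c₁ := 4 * F.u) (by linarith) (fhb3_c1lo h48)
  obtain ⟨Cg, hCg, hg⟩ := far_le (e := ctC2 (4 * F.u) (8 * F.u)) (c₁ := 4 * F.u) (by linarith) (fhb3_c2lo h48)
  obtain ⟨Ac, hAc⟩ : ∃ x : ℝ, x = ‖(SC.cm (F.G j).a : HP →L[ℂ] HP)‖ := ⟨_, rfl⟩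
  have hAc0 : 0 ≤ Ac := by rw [hAc]; exact norm_nonneg _
  obtain ⟨L, hL⟩ : ∃ x : ℝ, x = ‖F.La j‖ := ⟨_, rfl⟩
  have hL0 : 0 ≤ L := by rw [hL]; exact norm_nonneg (F.La j)
  obtain ⟨Bz, hBz⟩ : ∃ x : ℝ, x = ‖F.Bz j‖ := ⟨_, rfl⟩
  have hBz0 : 0 ≤ Bz := by rw [hBz]; exact norm_nonneg (F.Bz j)
  refine ⟨Cb * (L * (5 + 2 * Cl) * (Cf * C₁ * (1 + Y)) + Ac * Bz * 5 * (Cg * Ac + 64 * Cf * C₁)),
    by positivity, ?_⟩
  intro m hm hx a ha haA v hv g q1 q2 hq1 hq2 c hM q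
  obtain ⟨p1, p2, p3, p4, -, -, -, -⟩ := F.par hm j
  have hm1 : (1:ℝ) ≤ m := by exact_mod_cast hm
  have hx1 : 1 ≤ (F.G j).ω * F.N m j := hm1.trans p2
  have hk0 : (0:ℝ) ≤ F.k j := Nat.cast_nonneg _
  have hka : 0 ≤ (F.k j : ℝ) * a := mul_nonneg hk0 ha
  have hk64 : (F.k j : ℝ) * a ≤ 64 :=
    ((mul_le_mul_of_nonneg_left haA hk0).trans p4).trans (fhb3_A0 hx1)
  obtain ⟨x1, x2, x3, x4, -⟩ := fhb3_exp hu hx1 hx
  obtain ⟨M', c', hM', hloc, hM5, hMx⟩ := hMl m hm j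
  obtain ⟨l1, l1'⟩ := F.La_loc j hM hM' hloc (fhb3_c1up h48) q
  obtain ⟨-, l2⟩ := F.La_loc j hM hM' hloc (fhb3_c2up h48) q
  -- the localised weight
  have e1 : ⟪Yz (F.G j).ω (F.La j (sx D (mS F.hD.bdd hM q))), Ms (ctC1 (4 * F.u) (8 * F.u)) q1⟫_ℂ =
      ⟪Yz (F.G j).ω (F.La j (sx D (mS F.hD.bdd hM' q))), Ms (ctC1 (4 * F.u) (8 * F.u)) q1⟫_ℂ := by
    rw [← innerMs (fhb3_c1s _ _), ← innerMs (fhb3_c1s _ _), l1]
  have e2 : ⟪SC.EE (F.G j).ω (F.La j (sx D (mS F.hD.bdd hM q))),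
        Ms (ctC2 (4 * F.u) (8 * F.u)) (SC.cm (F.G j).a g)⟫_ℂ =
      ⟪SC.EE (F.G j).ω (F.La j (sx D (mS F.hD.bdd hM' q))),
        Ms (ctC2 (4 * F.u) (8 * F.u)) (SC.cm (F.G j).a g)⟫_ℂ := by
    rw [← innerMs (fhb3_c2s _ _), ← innerMs (fhb3_c2s _ _), l2]
  rw [e1, e2, l1']
  have b0 := hb (e1 := ctC1 (4 * F.u) (8 * F.u)) (e2 := ctC2 (4 * F.u) (8 * F.u)) (fhb3_c1s _ _) (F.fhb3_ζ j)
    (c₂ := 8 * F.u) (by linarith) (fhb3_c1up h48) p1 hka ((F.G j).S2_huv (F.Ga j v)).2 (F.ht m j a v)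
    (F.fhb3_w hm j a v) (SC.cm (F.G j).a g) q1 q2 (F.La j (sx D (mS F.hD.bdd hM' q)))
  refine b0.trans ?_
  -- sizes
  have s1 : ‖F.La j (sx D (mS F.hD.bdd hM' q))‖ ≤
      L * (5 * ‖q‖ + 2 * (Cl * Real.exp ((F.G j).ω * F.N m j * (10 * F.u))) * ‖js D q‖) := by
    have h2 := mS_norm2 F.hD.bdd hM' hM5 hMx q
    have h3 := (F.La j).le_opNorm (sx D (mS F.hD.bdd hM' q))
    rw [← hL] at h3
    exact h3.trans (mul_le_mul_of_nonneg_left h2 hL0)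
  have s2 : ‖SC.EE (F.G j).ω (F.La j (sx D (mS F.hD.bdd hM' q)))‖ ≤ Ac * (Bz * (5 * ‖js D q‖)) := by
    have h2 := F.fhb3_EE j (by linarith) (by linarith) le_rfl (F.hLa j) (F.hBz j) hM' hM5 q
    rw [← hAc, ← hBz] at h2
    exact h2
  obtain ⟨E, hE⟩ : ∃ E, E = Real.exp (-(4 * ((F.G j).ω * F.N m j) * (4 * F.u)) + √((F.G j).ω * F.N m j)) := ⟨_, rfl⟩
  have hE0 : 0 ≤ E := by rw [hE]; exact (Real.exp_pos _).le
  have t1 : ‖Ms (ctC1 (4 * F.u) (8 * F.u)) q1‖ ≤ Cf * E * (C₁ * ‖Ms (F.thw m j) g‖) := by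
    have h2 := hf ((F.G j).ω * F.N m j) hx1 x4 q1
    rw [← hE] at h2
    exact h2.trans (mul_le_mul_of_nonneg_left hq1 (mul_nonneg hCf hE0))
  have t2 : ‖Ms (ctC1 (4 * F.u) (8 * F.u)) q2‖ ≤ Cf * E * (C₁ * ‖Ms (F.thw m j) g‖) := by
    have h2 := hf ((F.G j).ω * F.N m j) hx1 x4 q2
    rw [← hE] at h2
    exact h2.trans (mul_le_mul_of_nonneg_left hq2 (mul_nonneg hCf hE0))
  have t3 : ‖Ms (ctC2 (4 * F.u) (8 * F.u)) (SC.cm (F.G j).a g)‖ ≤ Cg * E * (Ac * ‖Ms (F.thw m j) g‖) := by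
    have h2 := hg ((F.G j).ω * F.N m j) hx1 x4 (SC.cm (F.G j).a g)
    rw [← hE] at h2
    refine h2.trans (mul_le_mul_of_nonneg_left ?_ (mul_nonneg hCg hE0))
    have h3 : Ms (rc (tht (zl ((F.G j).ω * F.N m j)) (4 * ((F.G j).ω * F.N m j))) (tht_cont _ _))
        (SC.cm (F.G j).a g) = SC.cm (F.G j).a (Ms (F.thw m j) g) := MsCm (fhb3_cs (F.G j)) _ g
    rw [h3, hAc]
    exact ContinuousLinearMap.le_opNorm _ _
  rw [← hE] at x1 x2 x3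
  obtain ⟨T, hT⟩ : ∃ T, T = ‖Ms (F.thw m j) g‖ := ⟨_, rfl⟩
  have hT0 : 0 ≤ T := by rw [hT]; exact norm_nonneg _
  rw [← hT] at t1 t2 t3 ⊢
  have q0 : 0 ≤ ‖q‖ := norm_nonneg _
  have j0 : 0 ≤ ‖js D q‖ := norm_nonneg _
  refine le_trans ?_ (fhb3_ar hCb hL0 q0 j0 hCl hCf hE0 h1 hT0 hY hAc0 hBz0 hCg hka
    (Real.exp_pos ((F.G j).ω * F.N m j * (8 * F.u))).le x1 x2 x3 hk64)
  exact fhb3_mono hCb (norm_nonneg _) (norm_nonneg _) (norm_nonneg _) (norm_nonneg _) (norm_nonneg _)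
    (mul_nonneg hka (Real.exp_pos _).le) (norm_nonneg _) hY s1 s2 t1 t2 t3 hv

/-- **The weighted source.** First term of `src`: `mS M q = π q + mS (M - π) q` (`mS_add_const`), `‖Le q‖ ≤ C ‖q‖` and `kap_far` with
`Le_van`, `Mw_wall`, `EE_La` with `hLe`, `hBe` (`‖EE Le (P q)‖ ≤ C ‖js (P q)‖ ≤ 5 C ‖js q‖`), `par`. The other terms: replace `M` by `M'` of `exists_Ml`
(`La_loc` with `e = η', η''`), `src_bd2` with `f = La_j (mS M' q)`, `‖f‖ ≤ C ‖mS M' q‖ ≤ C (5 ‖q‖ + 2 C e^{10 u N} ‖js q‖)` (`mS_norm2`),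
`‖EE f‖ ≤ C ‖js (M' q)‖ ≤ 5 C ‖js q‖` (`EE_La` with `hLa`, `hBz`, `js_mS`), `w` and `k = h^tot` as in the proof of `src_le` (FbV), `far_le` with `c₁ = 4u`:
`‖Ms η' q₁‖ ≤ C e^{-16 u N + √N} ‖th q₁‖` etc., `cm` commutes with `Ms th` up to a bound; `e^{10uN} e^{-16uN+√N} ≤ e^{-√N}`,
`e^{8uN} e^{-16uN+√N} ≤ e^{-√N}` for large `m`. -/
theorem src_wt {C₁ Y : ℝ} (h1 : 0 ≤ C₁) (hY : 0 ≤ Y) : ∃ (m₀ : ℕ) (C : ℝ), 1 ≤ m₀ ∧ 0 ≤ C ∧ ∀ {m : ℕ} (_ : m₀ ≤ m)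
    (j : Fin F.n) {a : ℝ} (_ : 0 ≤ a) (_ : a ≤ F.A0 m) (v : VD D)
    (_ : ‖LT (F.G j).ω (F.G j).lam (3 / 8) (F.ht m j a v)‖ ≤ Y) (g q1 q2 : HP)
    (_ : ‖Ms (F.thw m j) q1‖ ≤ C₁ * ‖Ms (F.thw m j) g‖) (_ : ‖Ms (F.thw m j) q2‖ ≤ C₁ * ‖Ms (F.thw m j) g‖)
    {c : ℝ} (hM : Wg (F.Mw m) c) (q : SV D),
    ‖F.src m j a v g q1 q2 (mS F.hD.bdd hM q)‖ ≤ C * (‖q‖ + ‖js D q‖) * F.sW m j a g := by
  choose C2 hC2 h2 using fun j => F.fhb3_T2 j h1 hY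
  choose C3 hC3 h3 using fun j => F.fhb3_T1 j
  obtain ⟨m₀, hm₀⟩ := exists_nat_ge ((1 / (3 * F.u)) ^ 2)
  have hu := F.u0
  refine ⟨max 1 m₀, ∑ j, (C3 j + C2 j), le_max_left _ _,
    Finset.sum_nonneg fun j _ => add_nonneg (hC3 j) (hC2 j), ?_⟩
  intro m hm j a ha haA v hv g q1 q2 hq1 hq2 c hM q
  have hm1 : 1 ≤ m := (le_max_left _ _).trans hm
  have hm2 : (1 / (3 * F.u)) ^ 2 ≤ m := hm₀.trans (by exact_mod_cast (le_max_right _ _).trans hm)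
  obtain ⟨p1, p2, p3, p4, -, -, -, -⟩ := F.par hm1 j
  have hm1' : (1:ℝ) ≤ m := by exact_mod_cast hm1
  have hx : 1 / (3 * F.u) ≤ √((F.G j).ω * F.N m j) := Real.le_sqrt_of_sq_le (hm2.trans p2)
  obtain ⟨-, -, -, -, x5⟩ := fhb3_exp hu (hm1'.trans p2) hx
  have b1 := h3 j hm1 x5 ha haA g hM q
  have b2 := h2 j hm1 hx ha haA v hv g q1 q2 hq1 hq2 hM q
  have hq0 : 0 ≤ ‖q‖ + ‖js D q‖ := add_nonneg (norm_nonneg _) (norm_nonneg _)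
  have hs : Real.exp (-√((F.G j).ω * F.N m j)) * ‖Ms (F.thw m j) g‖ ≤ F.sW m j a g := by
    unfold sW
    have h4 := (Real.exp_pos (-√((F.G j).ω * F.N m j))).le
    have h5 : 0 ≤ ‖Ms (F.kp m j a) (SC.TT (F.G j).ω g)‖ := norm_nonneg _
    have h6 : 0 ≤ ‖Ms (F.thw m j) (SC.TT (F.G j).ω g)‖ := norm_nonneg _
    have h7 := mul_nonneg h4 h6
    linarith
  unfold src
  have hsW := F.fhb3_sW0 m j a g
  have b3 := b2.trans (mul_le_mul_of_nonneg_left hs (mul_nonneg (hC2 j) hq0))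
  refine (norm_sub_le _ _).trans ((add_le_add b1 b3).trans ?_)
  rw [← add_mul, ← add_mul]
  refine mul_le_mul_of_nonneg_right (mul_le_mul_of_nonneg_right ?_ hq0) hsW
  exact Finset.single_le_sum (f := fun j => C3 j + C2 j)
    (fun i _ => add_nonneg (hC3 i) (hC2 i)) (Finset.mem_univ j)

end FD

end Pool.Agent.Lib.MP_79abb3_an.PD
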