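import Pool.Agent.Lib.MP_79abb3_an.PD.FhA5
import Pool.Agent.Lib.MP_79abb3_an.PD.FbU2
import Pool.Agent.Lib.MP_79abb3_an.PD.ScF

/-!
Theorem D, block F, flush: the drift term of the weighted energy.
-/

set_option autoImplicit false
set_option linter.unusedSectionVars false

open MeasureTheory Set Filter Topology Function
open scoped ENNReal InnerProductSpace ComplexConjugate

namespace Pool.Agent.Lib.MP_79abb3_an.PD

open Pool.Agent.Lib.MP_79abb3_an.SC Pool.Agent.Lib.MP_79abb3_an.P25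

namespace FD
variable {D : Set ℂ} (F : FD D)

/-- `gr h` is bounded on `D` (`gr_bdd`), `h` and `fderiv h` are measurable. -/
theorem rho_PwS (m : ℕ) : ∃ c, PwS (F.rho m) c := by
  obtain ⟨G, hG⟩ := F.fl.gr_bdd F.hD
  have hS : MeasurableSet (F.R0 m) := by
    have e : F.R0 m = D ∩ ({y | F.s2 ≤ dist y F.x} ∩ {y | 2 * F.zs m ≤ F.h y}) := rfl
    rw [e]
    exact F.hD.op.measurableSet.inter
      ((isClosed_le continuous_const (continuous_id.dist continuous_const)).measurableSet.inter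
        (isClosed_le continuous_const F.fl.cont).measurableSet)
  have hg : Measurable fun y => ‖gr F.h y‖ ^ 2 := by
    have e : (fun y => ‖gr F.h y‖ ^ 2) =
        fun y => (fderiv ℝ F.h y 1) ^ 2 + (fderiv ℝ F.h y Complex.I) ^ 2 := by
      funext y
      rw [Complex.sq_norm, Complex.normSq_apply]
      show fderiv ℝ F.h y 1 * fderiv ℝ F.h y 1 +
        (-fderiv ℝ F.h y Complex.I) * (-fderiv ℝ F.h y Complex.I) = _
      ring
    rw [e]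
    exact ((measurable_fderiv_apply_const ℝ F.h 1).pow_const 2).add
      ((measurable_fderiv_apply_const ℝ F.h Complex.I).pow_const 2)
  refine ⟨(m : ℝ) ^ 2 * Real.exp √((F.K : ℝ) * m) * (max G 0) ^ 2, ⟨?_, fun y => ?_, fun y => ?_⟩⟩
  · exact ((hg.const_mul ((m : ℝ) ^ 2 * Real.exp √((F.K : ℝ) * m))).indicator hS).aestronglyMeasurable
  · exact indicator_nonneg (fun y _ => by positivity) y
  · unfold rho
    refine indicator_le' (f := fun y => (m : ℝ) ^ 2 * Real.exp √((F.K : ℝ) * m) * ‖gr F.h y‖ ^ 2)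
      (g := fun _ => (m : ℝ) ^ 2 * Real.exp √((F.K : ℝ) * m) * (max G 0) ^ 2) ?_ ?_ y
    · intro z hz
      have h3 : ‖gr F.h z‖ ≤ max G 0 := (hG z hz.1).trans (le_max_left _ _)
      have h4 : ‖gr F.h z‖ ^ 2 ≤ (max G 0) ^ 2 := by gcongr
      exact mul_le_mul_of_nonneg_left h4 (by positivity)
    · intro z _
      positivity

theorem bl_PwS : PwS F.bl 1 := by
  refine ⟨?_, fun y => ?_, fun y => ?_⟩
  · exact (measurable_const.indicator Metric.isClosed_closedBall.measurableSet).aestronglyMeasurable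
  · exact indicator_nonneg (fun y _ => zero_le_one) y
  · exact indicator_le' (f := fun _ => (1:ℝ)) (g := fun _ => (1:ℝ)) (fun z _ => le_rfl)
      (fun z _ => zero_le_one) y

/-- the weight of the flush -/
noncomputable def wP (m : ℕ) (lam : ℝ) (y : ℂ) : ℝ := F.rho m y + lam * F.bl y

theorem wP_PwS (m : ℕ) {lam : ℝ} (hl : 0 ≤ lam) : ∃ c, PwS (F.wP m lam) c := by
  obtain ⟨c, hc⟩ := F.rho_PwS m
  have h1 := F.bl_PwS
  refine ⟨c + lam * 1, ⟨hc.m.add (h1.m.const_mul lam), fun x => ?_, fun x => ?_⟩⟩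
  · have := mul_nonneg hl (h1.p0 x)
    have := hc.p0 x
    unfold wP
    linarith
  · have := mul_le_mul_of_nonneg_left (h1.p1 x) hl
    have := hc.p1 x
    unfold wP
    linarith

private theorem fhc_i1 {g : ℂ → ℂ} {c : ℝ} (hg : Bm g c) (f : L2c) :
    Integrable fun x => (g x).re * ‖(f : ℂ → ℂ) x‖ ^ 2 := by
  refine (L2_sq_int f).bdd_mul (c := c) (Complex.continuous_re.comp_aestronglyMeasurable hg.1) ?_
  filter_upwards with x
  exact (RCLike.norm_re_le_norm (g x)).trans (hg.2 x)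

private theorem fhc_i2 {g : ℂ → ℂ} {c : ℝ} (hg : Bm g c) (u f : L2c) {f4 : L4c}
    (hf : (f4 : ℂ → ℂ) =ᵐ[volume] f) :
    Integrable fun x => ((u : ℂ → ℂ) x * g x).re * ‖(f : ℂ → ℂ) x‖ ^ 2 := by
  have h1 : MemLp (fun x => ‖(f : ℂ → ℂ) x‖ ^ (2 : ℝ)) 2 (volume : Measure ℂ) := by
    have h2 := (Lp.memLp f4).norm_rpow_div 2
    have h3 : (4 : ℝ≥0∞) / 2 = 2 := by
      rw [show (4 : ℝ≥0∞) = 2 * 2 by norm_num]
      exact ENNReal.mul_div_cancel_right (by norm_num) (by norm_num)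
    rw [h3] at h2
    refine h2.ae_eq ?_
    filter_upwards [hf] with x e
    rw [e, ENNReal.toReal_ofNat]
  have h2 : MemLp (fun x => ((mm g u : L2c) : ℂ → ℂ) x) 2 (volume : Measure ℂ) := Lp.memLp _
  have h3 : Integrable (fun x => (((mm g u : L2c) : ℂ → ℂ) x).re * ‖(f : ℂ → ℂ) x‖ ^ (2 : ℝ)) := by
    have h4 : MemLp (fun x => (((mm g u : L2c) : ℂ → ℂ) x).re) 2 (volume : Measure ℂ) := h2.re
    exact h4.integrable_mul h1
  refine h3.congr ?_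
  filter_upwards [mm_coe hg u] with x e
  rw [e, mul_comm (g x)]
  norm_cast

private theorem fhc_i3 {p : ℂ → ℝ} {c : ℝ} (hp : PwS p c) (f : L2c) :
    Integrable fun x => p x * ‖(f : ℂ → ℂ) x‖ ^ 2 := by
  refine (L2_sq_int f).bdd_mul (c := c) hp.m ?_
  filter_upwards with x
  rw [Real.norm_eq_abs, abs_of_nonneg (hp.p0 x)]
  exact hp.p1 x

private theorem fhc_lap {M : ℂ → ℂ} {c : ℝ} (h : Wg M c) : Bm (px M) c ∧ Bm (py M) c ∧ Bm (lap M) c := by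
  have hx : Smo (px M) := h.smo.px
  have hy : Smo (py M) := h.smo.py
  refine ⟨⟨hx.continuous.aestronglyMeasurable, fun x => (h.bd x).2.1⟩,
    ⟨hy.continuous.aestronglyMeasurable, fun x => (h.bd x).2.2.1⟩,
    ⟨(hx.px.continuous.add hy.py.continuous).aestronglyMeasurable, fun x => (h.bd x).2.2.2⟩⟩

/-- **The drift term.** Almost everywhere in `D` (`gpI_fst`, `gpI_snd` with `P0_bg`; `wp = iot v - A₀ gpI P0`; `px M`, `py M` are real) the integrand is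
`LM m x w1 w2 |o|²` with `w1 = Re w'_1`, `w2 = Re w'_2` (`wt_all`); off `D`, `o = 0` (`mem_XS_iff`). Integrability: `px M`, `py M`, `lap M` are bounded
(`Wg_Mw`), `|o|²` is integrable and `o ∈ L⁴` (`j4_ae`; see `scC_i1`, `scC_i2` in ScC), `prI_integrable` with the `L⁴` representatives of `w'`
(`jj`; `IsBgF.mem`). -/
theorem drift_le : ∃ (C : ℝ) (m₀ : ℕ), 0 ≤ C ∧ 1 ≤ m₀ ∧ ∀ m : ℕ, m₀ ≤ m → ∀ (v : VD D) (q : SV D),
    (∫ x, ((lap (F.Mw m) x).re + (((iot D v : XD D) : Y2).fst x * px (F.Mw m) x +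
          ((iot D v : XD D) : Y2).snd x * py (F.Mw m) x).re) * ‖((js D q : XS D) : L2c) x‖ ^ 2) ≤
      -(∫ x, F.rho m x * ‖((js D q : XS D) : L2c) x‖ ^ 2) + C * m ^ 2 * ‖js D q‖ ^ 2 +
        Real.exp (C * m) * (∫ x, F.bl x * ‖((js D q : XS D) : L2c) x‖ ^ 2) +
        prI D (F.wp m (F.A0 m) v) ((js D q : XS D) : L2c) := by
  obtain ⟨C, m₀, hC, hm₀, hw⟩ := F.wt_all
  refine ⟨C, m₀, hC, hm₀, fun m hm v q => ?_⟩
  have hm1 : 1 ≤ m := hm₀.trans hm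
  have hO := F.hD.op
  have hD := F.hD.bdd
  obtain ⟨cM, hM⟩ := F.Wg_Mw hm1
  obtain ⟨bx, by', bl'⟩ := fhc_lap hM
  obtain ⟨cρ, hρ⟩ := F.rho_PwS m
  have hbl := F.bl_PwS
  obtain ⟨B, hB0, hB⟩ := F.P0_bg hm1
  obtain ⟨w, hwd⟩ : ∃ w : Y2, w = F.wp m (F.A0 m) v := ⟨_, rfl⟩
  obtain ⟨Ψ, hΨ⟩ : ∃ Ψ : ℂ → ℂ, Ψ = fun x => ((F.A0 m : ℝ) : ℂ) * F.P0 m x := ⟨_, rfl⟩
  have hB' : IsBgF D Ψ (‖((F.A0 m : ℝ) : ℂ)‖ * B) := by
    rw [hΨ]
    exact hB.cmul hO ((F.A0 m : ℝ) : ℂ)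
  have ew : w = ((iot D v : XD D) : Y2) - gpI D Ψ := by
    rw [hwd, hΨ, gpI_cmul hB hO hD]
    rfl
  have I4 : Integrable fun x => (‖(w.fst : ℂ → ℂ) x‖ ^ 2 + ‖(w.snd : ℂ → ℂ) x‖ ^ 2) *
      ‖(((js D q : XS D) : L2c) : ℂ → ℂ) x‖ ^ 2 := by
    rw [ew]
    exact prI_intble hB' hO hD v q
  have hq4 := j4_ae hD q
  have hz : ∀ᵐ x ∂(volume : Measure ℂ), x ∉ D → (((js D q : XS D) : L2c) : ℂ → ℂ) x = 0 :=
    (mem_XS_iff D hO _).1 (js D q).2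
  have hn : ‖js D q‖ ^ 2 = ∫ x, ‖(((js D q : XS D) : L2c) : ℂ → ℂ) x‖ ^ 2 := L2_norm_sq _
  obtain ⟨o, ho⟩ : ∃ o : L2c, o = ((js D q : XS D) : L2c) := ⟨_, rfl⟩
  rw [← ho] at I4 hq4 hz hn
  rw [← ho, ← hwd, hn]
  obtain ⟨u, hu⟩ : ∃ u : Y2, u = ((iot D v : XD D) : Y2) := ⟨_, rfl⟩
  rw [← hu] at ew ⊢
  have f1 : ∀ᵐ x ∂(volume : Measure ℂ), (u.fst : ℂ → ℂ) x =
      (w.fst : ℂ → ℂ) x + ((F.A0 m : ℝ) : ℂ) * D.indicator (py (F.P0 m)) x := by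
    have e : w.fst = u.fst - (gpI D Ψ).fst := by rw [ew]; rfl
    rw [e]
    filter_upwards [Lp.coeFn_sub u.fst (gpI D Ψ).fst, gpI_fst hB' hO hD] with x e1 e2
    rw [e1, Pi.sub_apply, e2, hΨ, hB.ind_py hO]
    ring
  have f2 : ∀ᵐ x ∂(volume : Measure ℂ), (u.snd : ℂ → ℂ) x =
      (w.snd : ℂ → ℂ) x - ((F.A0 m : ℝ) : ℂ) * D.indicator (px (F.P0 m)) x := by
    have e : w.snd = u.snd - (gpI D Ψ).snd := by rw [ew]; rfl
    rw [e]
    filter_upwards [Lp.coeFn_sub u.snd (gpI D Ψ).snd, gpI_snd hB' hO hD] with x e1 e2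
    rw [e1, Pi.sub_apply, e2, hΨ, hB.ind_px hO]
    ring
  have hPh := (F.Ph_mem hm1).1
  have px0 : ∀ x, (px (F.Mw m) x).im = 0 := fun x => by
    have e : px (F.Mw m) x = _ := (arc_d hPh (F.mw m) x).1
    rw [e, Complex.ofReal_im]
  have py0 : ∀ x, (py (F.Mw m) x).im = 0 := fun x => by
    have e : py (F.Mw m) x = _ := (arc_d hPh (F.mw m) x).2.1
    rw [e, Complex.ofReal_im]
  have key : ∀ᵐ x ∂(volume : Measure ℂ),
      ((lap (F.Mw m) x).re + ((u.fst : ℂ → ℂ) x * px (F.Mw m) x + (u.snd : ℂ → ℂ) x * py (F.Mw m) x).re) *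
        ‖(o : ℂ → ℂ) x‖ ^ 2 ≤
      -(F.rho m x * ‖(o : ℂ → ℂ) x‖ ^ 2) + C * m ^ 2 * ‖(o : ℂ → ℂ) x‖ ^ 2 +
        Real.exp (C * m) * (F.bl x * ‖(o : ℂ → ℂ) x‖ ^ 2) +
        (‖(w.fst : ℂ → ℂ) x‖ ^ 2 + ‖(w.snd : ℂ → ℂ) x‖ ^ 2) * ‖(o : ℂ → ℂ) x‖ ^ 2 := by
    filter_upwards [f1, f2, hz] with x e1 e2 e3
    by_cases hx : x ∈ D
    · have h1 := hw m hm x hx ((w.fst : ℂ → ℂ) x).re ((w.snd : ℂ → ℂ) x).re
      have h2 : (lap (F.Mw m) x).re +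
          ((u.fst : ℂ → ℂ) x * px (F.Mw m) x + (u.snd : ℂ → ℂ) x * py (F.Mw m) x).re =
          F.LM m x ((w.fst : ℂ → ℂ) x).re ((w.snd : ℂ → ℂ) x).re := by
        rw [e1, e2, indicator_of_mem hx, indicator_of_mem hx]
        unfold LM
        simp only [Complex.add_re, Complex.sub_re, Complex.mul_re, Complex.add_im, Complex.sub_im,
          Complex.mul_im, Complex.ofReal_re, Complex.ofReal_im, px0, py0]
        ring
      have h3 : ((w.fst : ℂ → ℂ) x).re ^ 2 ≤ ‖(w.fst : ℂ → ℂ) x‖ ^ 2 := by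
        rw [← sq_abs]
        exact pow_le_pow_left₀ (abs_nonneg _) (Complex.abs_re_le_norm _) 2
      have h4 : ((w.snd : ℂ → ℂ) x).re ^ 2 ≤ ‖(w.snd : ℂ → ℂ) x‖ ^ 2 := by
        rw [← sq_abs]
        exact pow_le_pow_left₀ (abs_nonneg _) (Complex.abs_re_le_norm _) 2
      rw [h2]
      have h5 : F.LM m x ((w.fst : ℂ → ℂ) x).re ((w.snd : ℂ → ℂ) x).re ≤ -(F.rho m x) + C * m ^ 2 +
          Real.exp (C * m) * F.bl x + (‖(w.fst : ℂ → ℂ) x‖ ^ 2 + ‖(w.snd : ℂ → ℂ) x‖ ^ 2) := by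
        linarith
      refine (mul_le_mul_of_nonneg_right h5 (sq_nonneg ‖(o : ℂ → ℂ) x‖)).trans (le_of_eq ?_)
      ring
    · rw [e3 hx, norm_zero]
      simp
  have I1 := fhc_i3 hρ o
  have I2 := L2_sq_int o
  have I3 := fhc_i3 hbl o
  have J1 := fhc_i1 bl' o
  have J2 := fhc_i2 bx u.fst o hq4
  have J3 := fhc_i2 by' u.snd o hq4
  have JL : Integrable fun x => ((lap (F.Mw m) x).re +
      ((u.fst : ℂ → ℂ) x * px (F.Mw m) x + (u.snd : ℂ → ℂ) x * py (F.Mw m) x).re) *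
        ‖(o : ℂ → ℂ) x‖ ^ 2 := by
    refine (J1.add (J2.add J3)).congr (ae_of_all _ fun x => ?_)
    simp only [Pi.add_apply, Complex.add_re]
    ring
  have K1 : Integrable fun x => -(F.rho m x * ‖(o : ℂ → ℂ) x‖ ^ 2) := I1.neg
  have K2 : Integrable fun x => C * m ^ 2 * ‖(o : ℂ → ℂ) x‖ ^ 2 := I2.const_mul _
  have K3 : Integrable fun x => Real.exp (C * m) * (F.bl x * ‖(o : ℂ → ℂ) x‖ ^ 2) := I3.const_mul _
  have K12 : Integrable fun x => -(F.rho m x * ‖(o : ℂ → ℂ) x‖ ^ 2) + C * m ^ 2 * ‖(o : ℂ → ℂ) x‖ ^ 2 :=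
    K1.add K2
  have K123 : Integrable fun x => -(F.rho m x * ‖(o : ℂ → ℂ) x‖ ^ 2) + C * m ^ 2 * ‖(o : ℂ → ℂ) x‖ ^ 2 +
      Real.exp (C * m) * (F.bl x * ‖(o : ℂ → ℂ) x‖ ^ 2) := K12.add K3
  have KR : Integrable fun x => -(F.rho m x * ‖(o : ℂ → ℂ) x‖ ^ 2) + C * m ^ 2 * ‖(o : ℂ → ℂ) x‖ ^ 2 +
      Real.exp (C * m) * (F.bl x * ‖(o : ℂ → ℂ) x‖ ^ 2) +
      (‖(w.fst : ℂ → ℂ) x‖ ^ 2 + ‖(w.snd : ℂ → ℂ) x‖ ^ 2) * ‖(o : ℂ → ℂ) x‖ ^ 2 := K123.add I4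
  have hpr : prI D w o = ∫ x, (‖(w.fst : ℂ → ℂ) x‖ ^ 2 + ‖(w.snd : ℂ → ℂ) x‖ ^ 2) *
      ‖(o : ℂ → ℂ) x‖ ^ 2 := by
    unfold prI
    refine setIntegral_eq_integral_of_ae_compl_eq_zero ?_
    filter_upwards [hz] with x e hx
    rw [e hx, norm_zero]
    simp
  refine (integral_mono_ae JL KR key).trans (le_of_eq ?_)
  rw [integral_add K123 I4, integral_add K12 K3, integral_add K1 K2, integral_neg, integral_const_mul,
    integral_const_mul, hpr]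

end FD

end Pool.Agent.Lib.MP_79abb3_an.PD
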