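import Pool.Agent.Lib.MP_79abb3_an.PD.FgB
import Pool.Agent.Lib.MP_79abb3_an.PD.FhB3
import Pool.Agent.Lib.MP_79abb3_an.PD.FbU2

/-!
Theorem D, block F, flush: consequences of the a priori bounds.
-/

set_option autoImplicit false
set_option linter.unusedSectionVars false

open MeasureTheory Set Filter Topology Function
open scoped ENNReal InnerProductSpace ComplexConjugate

namespace Pool.Agent.Lib.MP_79abb3_an.PD

open Pool.Agent.Lib.MP_79abb3_an.SC Pool.Agent.Lib.MP_79abb3_an.P25 Pool.Agent.Lib.MP_79abb3_an.FW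

namespace FD
variable {D : Set ℂ} (F : FD D)

/-- bounds at a time -/
structure FC (m : ℕ) (R : ℝ) (A : ℝ → ℝ) (v : ℝ → VD D) (mu : ℝ → ℝ) (p : Fin F.n → ℝ → HP) (t : ℝ) : Prop where
  o : ‖F.ov m A v mu p t‖ ≤ R
  w : ‖F.wp m (A t) (v t)‖ ≤ R
  u : |mu t| ≤ R
  y : ∀ j, ‖LT (F.G j).ω (F.G j).lam (3 / 8) (F.gg m A v p j t)‖ ≤ R
  h : ∀ j, ‖F.hh m A v p j t‖ ≤ R
  ht : ∀ j, ‖LT (F.G j).ω (F.G j).lam (3 / 8) (F.ht m j (A t) (v t))‖ ≤ R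

/-- `hh_bd`, `wp_ww`, `mu_bd` with `S = ∅` (`sz ∅ o = ‖o‖`), `ht_le`, `A0_tend` (`A₀ ≤ 1`). -/
theorem FB.fc {R : ℝ} (hR : 0 ≤ R) : ∃ (R' : ℝ) (m₀ : ℕ), 0 ≤ R' ∧ 1 ≤ m₀ ∧ ∀ m : ℕ, m₀ ≤ m →
    ∀ {A : ℝ → ℝ} {v : ℝ → VD D} {mu : ℝ → ℝ} {p : Fin F.n → ℝ → HP} {t : ℝ} (_ : F.FB m R 1 A v mu p t)
    (_ : 0 ≤ A t) (_ : A t ≤ F.A0 m), F.FC m R' A v mu p t := by
  obtain ⟨m1, C1, _, hC1, H1⟩ := F.hh_bd
  obtain ⟨m2, C2, _, hC2, H2⟩ := F.wp_ww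
  obtain ⟨C3, hC3, H3⟩ := F.mu_bd
  obtain ⟨C4, hC4, H4⟩ := F.ht_le
  obtain ⟨m5, H5⟩ := eventually_atTop.1 (F.A0_tend.eventually (gt_mem_nhds one_pos))
  have hn : (0:ℝ) ≤ F.n := Nat.cast_nonneg _
  obtain ⟨R1, hR1⟩ : ∃ x : ℝ, x = C2 + R := ⟨_, rfl⟩
  obtain ⟨R2, hR2⟩ : ∃ x : ℝ, x = C3 * (R + F.n) := ⟨_, rfl⟩
  obtain ⟨R3, hR3⟩ : ∃ x : ℝ, x = C1 * (R + R) := ⟨_, rfl⟩
  obtain ⟨R4, hR4⟩ : ∃ x : ℝ, x = C4 * (1 + R3) := ⟨_, rfl⟩
  have k1 : 0 ≤ R1 := by rw [hR1]; positivity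
  have k2 : 0 ≤ R2 := by rw [hR2]; positivity
  have k3 : 0 ≤ R3 := by rw [hR3]; positivity
  have k4 : 0 ≤ R4 := by rw [hR4]; positivity
  refine ⟨R + R1 + R2 + 1 + R3 + R4, max (max m1 m2) (max m5 1), by positivity,
    (le_max_right _ _).trans (le_max_right _ _), ?_⟩
  intro m hm A v mu p t hB hA0 hA
  have hm1 : m1 ≤ m := (le_max_left _ _).trans ((le_max_left _ _).trans hm)
  have hm2 : m2 ≤ m := (le_max_right _ _).trans ((le_max_left _ _).trans hm)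
  have hm5 : m5 ≤ m := (le_max_left _ _).trans ((le_max_right _ _).trans hm)
  have hm6 : 1 ≤ m := (le_max_right _ _).trans ((le_max_right _ _).trans hm)
  have hA1 : A t ≤ 1 := hA.trans (H5 m hm5).le
  have hw := hB.w
  have ho := hB.o
  have e1 : ‖F.wp m (A t) (v t)‖ ≤ R1 := by
    have q1 := H2 m hm2 (A t) (v t)
    rw [abs_of_nonneg hA0] at q1
    have q2 : C2 * A t ≤ C2 * 1 := mul_le_mul_of_nonneg_left hA1 hC2
    have q3 : ‖F.wp m (A t) (v t)‖ ≤ ‖F.wp m (A t) (v t) - ((F.ww m (A t) (v t) : XD D) : Y2)‖ +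
        ‖((F.ww m (A t) (v t) : XD D) : Y2)‖ := by
      have q4 := norm_add_le (F.wp m (A t) (v t) - ((F.ww m (A t) (v t) : XD D) : Y2))
        ((F.ww m (A t) (v t) : XD D) : Y2)
      rwa [sub_add_cancel] at q4
    have q5 : ‖((F.ww m (A t) (v t) : XD D) : Y2)‖ ≤ R := hw
    rw [hR1]
    linarith
  have e2 : |mu t| ≤ R2 := by
    have q1 := H3 hm6 (A := A) (v := v) (mu := mu) (p := p) MeasurableSet.empty (empty_subset D) t
    have q2 : sz (∅ : Set ℂ) (F.ov m A v mu p t) = ‖F.ov m A v mu p t‖ := by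
      unfold sz
      rw [compl_empty, Measure.restrict_univ, ← L2_norm_sq, Real.sqrt_sq (norm_nonneg _), measure_empty,
        ENNReal.toReal_zero, Real.zero_rpow (by norm_num), mul_zero, add_zero]
    rw [q2] at q1
    have q3 : ∑ j, ‖F.MM m A v p j t‖ ≤ F.n := by
      have q4 := Finset.sum_le_card_nsmul (Finset.univ : Finset (Fin F.n)) (fun j => ‖F.MM m A v p j t‖) 1
        (fun j _ => hB.M j)
      rwa [Finset.card_univ, Fintype.card_fin, nsmul_eq_mul, mul_one] at q4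
    refine q1.trans ?_
    rw [hR2]
    exact mul_le_mul_of_nonneg_left (add_le_add ho q3) hC3
  have e3 : ∀ j, ‖F.hh m A v p j t‖ ≤ R3 := fun j => by
    refine (H1 m hm1 A v mu p j t).trans ?_
    rw [hR3]
    exact mul_le_mul_of_nonneg_left (add_le_add ho hw) hC1
  have e4 : ∀ j, ‖LT (F.G j).ω (F.G j).lam (3 / 8) (F.ht m j (A t) (v t))‖ ≤ R4 := fun j => by
    refine (H4 (m := m) (A := A) (v := v) (p := p) j t).trans ?_
    rw [hR4]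
    exact mul_le_mul_of_nonneg_left (add_le_add (hB.y j) (e3 j)) hC4
  exact ⟨ho.trans (by linarith), e1.trans (by linarith), e2.trans (by linarith),
    fun j => (hB.y j).trans (by linarith), fun j => (e3 j).trans (by linarith),
    fun j => (e4 j).trans (by linarith)⟩

/-- `sW` is continuous along a continuous amplitude and a continuous `g` (`kp_cont`; as `fbV2_cont` in FbV2). -/
theorem sW_cont (m : ℕ) (j : Fin F.n) {a b : ℝ} {A : ℝ → ℝ} {g : ℝ → HP}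
    (hA : ContinuousOn A (Icc a b)) (hg : ContinuousOn g (Icc a b)) :
    ContinuousOn (fun r => F.sW m j (A r) (g r)) (Icc a b) := by
  have h1 : ContinuousOn (fun r => F.kp m j (A r)) (Icc a b) := (F.kp_cont m j).comp_continuousOn hA
  have hT : ContinuousOn (fun r => SC.TT (F.G j).ω (g r)) (Icc a b) :=
    (SC.TT (F.G j).ω).continuous.comp_continuousOn hg
  have h2 : ContinuousOn (fun r => MsB Real.pi (F.kp m j (A r)) (SC.TT (F.G j).ω (g r))) (Icc a b) :=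
    ((MsB Real.pi).continuous.comp_continuousOn h1).clm_apply hT
  have h3 : ContinuousOn (fun r => ‖Ms (F.thw m j) (g r)‖) (Icc a b) :=
    ((Ms (F.thw m j)).continuous.comp_continuousOn hg).norm
  have h4 : ContinuousOn (fun r => ‖Ms (F.thw m j) (SC.TT (F.G j).ω (g r))‖) (Icc a b) :=
    ((Ms (F.thw m j)).continuous.comp_continuousOn hT).norm
  exact h2.norm.add (continuousOn_const.mul (h3.add h4))

private theorem fhc1_ar {x y z e : ℝ} (hx : 0 ≤ x) (hy : 0 ≤ y) (hz : 0 ≤ z) (he : 0 ≤ e) (he1 : e ≤ 1) :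
    (x + e * (y + z)) ^ 2 ≤ 3 * (x ^ 2 + y ^ 2 + z ^ 2) := by
  have h1 : e * (y + z) ≤ 1 * (y + z) := mul_le_mul_of_nonneg_right he1 (by linarith)
  have h2 : 0 ≤ e * (y + z) := mul_nonneg he (by linarith)
  have h3 : (x + e * (y + z)) ^ 2 ≤ (x + (y + z)) ^ 2 := pow_le_pow_left₀ (by linarith) (by linarith) 2
  refine h3.trans ?_
  have h4 : 3 * (x ^ 2 + y ^ 2 + z ^ 2) - (x + (y + z)) ^ 2 = (x - y) ^ 2 + (x - z) ^ 2 + (y - z) ^ 2 := by ring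
  have h5 : 0 ≤ (x - y) ^ 2 + (x - z) ^ 2 + (y - z) ^ 2 := by positivity
  linarith

private theorem fhc1_pt (m : ℕ) (j : Fin F.n) {R : ℝ} (hR : 0 ≤ R) {A : ℝ → ℝ} {g : ℝ → HP} {t : ℝ} (ht : 0 ≤ t)
    (hs : StB (F.G j) (F.N m j) R 1 (fun t => F.k j * A t) g t) :
    F.sW m j (A t) (g t) ^ 2 ≤ 3 * (2 * R + ‖Ms (F.thw m j) (g t)‖ ^ 2) := by
  have h1 : ‖Ms (F.kp m j (A t)) (SC.TT (F.G j).ω (g t))‖ ^ 2 ≤ R := by
    refine hs.k1.trans ?_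
    have e1 : Real.exp (-√((F.G j).ω * F.N m j)) ≤ 1 := by
      rw [Real.exp_le_one_iff]
      linarith [Real.sqrt_nonneg ((F.G j).ω * F.N m j)]
    exact mul_le_of_le_one_right hR e1
  have h2 : ‖Ms (F.thw m j) (SC.TT (F.G j).ω (g t))‖ ^ 2 ≤ R := by
    have e1 := hs.e
    have e2 : 0 ≤ ∫ r in (0:ℝ)..t, ‖Ms (F.thw m j) (g r)‖ ^ 2 :=
      intervalIntegral.integral_nonneg ht fun r _ => sq_nonneg _
    have e3 : ‖Ms (F.thw m j) (SC.TT (F.G j).ω (g t))‖ ^ 2 + ∫ r in (0:ℝ)..t, ‖Ms (F.thw m j) (g r)‖ ^ 2 ≤ R := e1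
    linarith
  have h3 := fhc1_ar (norm_nonneg (Ms (F.kp m j (A t)) (SC.TT (F.G j).ω (g t))))
    (norm_nonneg (Ms (F.thw m j) (g t))) (norm_nonneg (Ms (F.thw m j) (SC.TT (F.G j).ω (g t))))
    (Real.exp_pos (-√((F.G j).ω * F.N m j))).le (by
      rw [Real.exp_le_one_iff]
      linarith [Real.sqrt_nonneg ((F.G j).ω * F.N m j)])
  refine h3.trans ?_
  linarith

/-- the bound for one strip -/
private theorem fhc1_one (m : ℕ) (j : Fin F.n) {R : ℝ} (hR : 0 ≤ R) {A : ℝ → ℝ} {g : ℝ → HP} {b : ℝ} (hb : b ≤ 1)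
    (hA : ContinuousOn A (Icc 0 b)) (hg : ContinuousOn g (Icc 0 b))
    (hs : ∀ t ∈ Icc 0 b, StB (F.G j) (F.N m j) R 1 (fun t => F.k j * A t) g t) {s t : ℝ} (h0 : 0 ≤ s) (hst : s ≤ t)
    (ht : t ≤ b) : ∫ r in s..t, F.sW m j (A r) (g r) ^ 2 ≤ 9 * R := by
  have hI : Icc s t ⊆ Icc 0 b := Icc_subset_Icc h0 ht
  have hIu : uIcc s t ⊆ Icc 0 b := by rwa [uIcc_of_le hst]
  have hI0 : uIcc 0 t ⊆ Icc 0 b := by
    rw [uIcc_of_le (h0.trans hst)]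
    exact Icc_subset_Icc le_rfl ht
  have hc : ContinuousOn (fun r => ‖Ms (F.thw m j) (g r)‖ ^ 2) (Icc 0 b) :=
    (((Ms (F.thw m j)).continuous.comp_continuousOn hg).norm).pow 2
  have hc2 : ContinuousOn (fun r => F.sW m j (A r) (g r) ^ 2) (Icc 0 b) := (F.sW_cont m j hA hg).pow 2
  have i1 : IntervalIntegrable (fun r => ‖Ms (F.thw m j) (g r)‖ ^ 2) volume s t := (hc.mono hIu).intervalIntegrable
  have i2 : IntervalIntegrable (fun r => F.sW m j (A r) (g r) ^ 2) volume s t := (hc2.mono hIu).intervalIntegrable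
  have i3 : IntervalIntegrable (fun r => ‖Ms (F.thw m j) (g r)‖ ^ 2) volume 0 t := (hc.mono hI0).intervalIntegrable
  have h1 : ∫ r in s..t, F.sW m j (A r) (g r) ^ 2 ≤ ∫ r in s..t, 3 * (2 * R + ‖Ms (F.thw m j) (g r)‖ ^ 2) :=
    intervalIntegral.integral_mono_on hst i2 ((intervalIntegrable_const.add i1).const_mul 3) fun r hr =>
      F.fhc1_pt m j hR (hI hr).1 (hs r (hI hr))
  have h2 : ∫ r in s..t, 3 * (2 * R + ‖Ms (F.thw m j) (g r)‖ ^ 2) =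
      3 * ((t - s) * (2 * R) + ∫ r in s..t, ‖Ms (F.thw m j) (g r)‖ ^ 2) := by
    rw [intervalIntegral.integral_const_mul, intervalIntegral.integral_add intervalIntegrable_const i1,
      intervalIntegral.integral_const, smul_eq_mul]
  have h3 : ∫ r in s..t, ‖Ms (F.thw m j) (g r)‖ ^ 2 ≤ ∫ r in (0:ℝ)..t, ‖Ms (F.thw m j) (g r)‖ ^ 2 :=
    intervalIntegral.integral_mono_interval h0 hst le_rfl (ae_of_all _ fun r => sq_nonneg _) i3
  have h4 : ∫ r in (0:ℝ)..t, ‖Ms (F.thw m j) (g r)‖ ^ 2 ≤ R := by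
    have e1 : ‖Ms (F.thw m j) (SC.TT (F.G j).ω (g t))‖ ^ 2 + ∫ r in (0:ℝ)..t, ‖Ms (F.thw m j) (g r)‖ ^ 2 ≤ R :=
      (hs t (hI (right_mem_Icc.2 hst))).e
    have e2 : 0 ≤ ‖Ms (F.thw m j) (SC.TT (F.G j).ω (g t))‖ ^ 2 := sq_nonneg _
    linarith
  have h5 : (t - s) * (2 * R) ≤ 1 * (2 * R) := mul_le_mul_of_nonneg_right (by linarith) (by linarith)
  rw [h2] at h1
  linarith

/-- `sW² ≤ 3 (‖κ T g‖² + ‖th g‖² + ‖th T g‖²)`; `StB.k1`, `StB.e` (at `r` and at the end point). -/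
theorem sW_int {R : ℝ} (hR : 0 ≤ R) : ∃ C : ℝ, 0 ≤ C ∧ ∀ {m : ℕ} {A A' : ℝ → ℝ} {b lam : ℝ} {v₀ : VD D} {v : ℝ → VD D}
    {mu mu' : ℝ → ℝ} {p : Fin F.n → ℝ → HP} (_ : F.Fst m lam A A' b v₀ v mu mu' p) (_ : b ≤ 1)
    (_ : ∀ t ∈ Icc 0 b, F.FB m R 1 A v mu p t) {s t : ℝ} (_ : 0 ≤ s) (_ : s ≤ t) (_ : t ≤ b),
    ∫ r in s..t, ∑ j, (F.sW m j (A r) (F.gg m A v p j r)) ^ 2 ≤ C := by
  refine ⟨∑ _j : Fin F.n, 9 * R, by positivity, ?_⟩
  intro m A A' b lam v₀ v mu mu' p st hb hB s t h0 hst ht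
  have hIu : uIcc s t ⊆ Icc 0 b := by
    rw [uIcc_of_le hst]
    exact Icc_subset_Icc h0 ht
  have hi : ∀ j ∈ (Finset.univ : Finset (Fin F.n)),
      IntervalIntegrable (fun r => F.sW m j (A r) (F.gg m A v p j r) ^ 2) volume s t := fun j _ =>
    (((F.sW_cont m j st.contA (st.contg j)).pow 2).mono hIu).intervalIntegrable
  rw [intervalIntegral.integral_finsetSum hi]
  refine Finset.sum_le_sum fun j _ => ?_
  exact F.fhc1_one m j hR hb st.contA (st.contg j) (fun r hr => (hB r hr).s j) h0 hst ht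

end FD

end Pool.Agent.Lib.MP_79abb3_an.PD
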