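import Pool.Agent.Lib.MP_79abb3_an.PD.FhC
import Pool.Agent.Lib.MP_79abb3_an.PD.FhC1

/-!
Theorem D, block F, flush: the weighted energy inequality.
-/

set_option autoImplicit false
set_option linter.unusedSectionVars false

open MeasureTheory Set Filter Topology Function
open scoped ENNReal InnerProductSpace ComplexConjugate

namespace Pool.Agent.Lib.MP_79abb3_an.PD

open Pool.Agent.Lib.MP_79abb3_an.SC Pool.Agent.Lib.MP_79abb3_an.P25 Pool.Agent.Lib.MP_79abb3_an.FW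


private theorem fhc2_bm {M : ℂ → ℂ} {c : ℝ} (h : Wg M c) : Bm M c :=
  ⟨h.smo.continuous.aestronglyMeasurable, fun x => (h.bd x).1⟩

private theorem fhc2_sq (f : L2c) : Integrable fun x => ‖(f : ℂ → ℂ) x‖ ^ 2 :=
  (Lp.memLp f).norm.integrable_sq

private theorem fhc2_n2 (f : L2c) : ∫ x, ‖(f : ℂ → ℂ) x‖ ^ 2 = ‖f‖ ^ 2 := by
  have h2 : (⟪f, f⟫_ℂ).re = ‖f‖ ^ 2 := inner_self_eq_norm_sq (𝕜 := ℂ) f
  rw [← h2, L2.inner_def]
  have h1 := integral_re (L2.integrable_inner (𝕜 := ℂ) f f)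
  refine Eq.trans (integral_congr_ae (Eventually.of_forall fun x => ?_)) h1
  show ‖(f : ℂ → ℂ) x‖ ^ 2 = (⟪(f : ℂ → ℂ) x, (f : ℂ → ℂ) x⟫_ℂ).re
  exact (inner_self_eq_norm_sq (𝕜 := ℂ) _).symm

private theorem fhc2_re {M W : ℂ → ℂ} {c c' : ℝ} (h : Bm M c) (h' : Bm W c')
    (hr : ∀ x, conj (M x) = M x) (hr' : ∀ x, conj (W x) = W x) (f : L2c) :
    (⟪mm M f, mm W f⟫_ℂ).re = ∫ x, (M x).re * (W x).re * ‖(f : ℂ → ℂ) x‖ ^ 2 := by
  rw [L2.inner_def]
  have h1 := integral_re (L2.integrable_inner (𝕜 := ℂ) (mm M f) (mm W f))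
  refine h1.symm.trans (integral_congr_ae ?_)
  filter_upwards [mm_coe h f, mm_coe h' f] with x e1 e2
  show (⟪(mm M f : ℂ → ℂ) x, (mm W f : ℂ → ℂ) x⟫_ℂ).re = _
  rw [e1, e2]
  have e3 : (M x) = ((M x).re : ℂ) := (Complex.conj_eq_iff_re.1 (hr x)).symm
  have e4 : (W x) = ((W x).re : ℂ) := (Complex.conj_eq_iff_re.1 (hr' x)).symm
  rw [e3, e4]
  simp only [RCLike.inner_apply, map_mul, Complex.conj_ofReal, Complex.ofReal_re]
  have e5 : (f : ℂ → ℂ) x * conj ((f : ℂ → ℂ) x) = ((‖(f : ℂ → ℂ) x‖ ^ 2 : ℝ) : ℂ) := by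
    rw [Complex.mul_conj, Complex.normSq_eq_norm_sq]
  have e6 : ((W x).re : ℂ) * (f : ℂ → ℂ) x * (((M x).re : ℂ) * conj ((f : ℂ → ℂ) x)) =
      (((M x).re * (W x).re * ‖(f : ℂ → ℂ) x‖ ^ 2 : ℝ) : ℂ) := by
    rw [show ((W x).re : ℂ) * (f : ℂ → ℂ) x * (((M x).re : ℂ) * conj ((f : ℂ → ℂ) x)) =
      ((M x).re : ℂ) * ((W x).re : ℂ) * ((f : ℂ → ℂ) x * conj ((f : ℂ → ℂ) x)) by ring, e5]
    push_cast
    ring
  rw [e6, Complex.ofReal_re]

private theorem fhc2_i0 {g : ℂ → ℝ} {c : ℝ} (hg : AEStronglyMeasurable g volume) (hc : ∀ x, |g x| ≤ c) (f : L2c) :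
    Integrable fun x => g x * ‖(f : ℂ → ℂ) x‖ ^ 2 := by
  refine (fhc2_sq f).bdd_mul (c := c) hg ?_
  filter_upwards with x
  exact hc x

private theorem fhc2_i1 {g : ℂ → ℂ} {c : ℝ} (hg : Bm g c) (f : L2c) :
    Integrable fun x => (g x).re * ‖(f : ℂ → ℂ) x‖ ^ 2 := by
  refine (fhc2_sq f).bdd_mul (c := c) (Complex.continuous_re.comp_aestronglyMeasurable hg.1) ?_
  filter_upwards with x
  exact (RCLike.norm_re_le_norm (g x)).trans (hg.2 x)

private theorem fhc2_i2 {g : ℂ → ℂ} {c : ℝ} (hg : Bm g c) (u f : L2c) {f4 : L4c}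
    (hf : (f4 : ℂ → ℂ) =ᵐ[volume] f) :
    Integrable fun x => ((u : ℂ → ℂ) x * g x).re * ‖(f : ℂ → ℂ) x‖ ^ 2 := by
  have h1 : MemLp (fun x => ‖(f : ℂ → ℂ) x‖ ^ (2 : ℝ)) 2 (volume : Measure ℂ) := by
    have h2 := (Lp.memLp f4).norm_rpow_div 2
    have h3 : (4 : ℝ≥0∞) / 2 = 2 := by
      rw [show (4 : ℝ≥0∞) = 2 * 2 by norm_num]
      exact ENNReal.mul_div_cancel_right (by norm_num) (by norm_num)
    rw [h3] at h2
    refine h2.ae_eq ?_
    filter_upwards [hf] with x e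
    rw [e, ENNReal.toReal_ofNat]
  have h2 : MemLp (fun x => ((mm g u : L2c) : ℂ → ℂ) x) 2 (volume : Measure ℂ) := Lp.memLp _
  have h3 : Integrable (fun x => (((mm g u : L2c) : ℂ → ℂ) x).re * ‖(f : ℂ → ℂ) x‖ ^ (2 : ℝ)) := by
    have h4 : MemLp (fun x => (((mm g u : L2c) : ℂ → ℂ) x).re) 2 (volume : Measure ℂ) := h2.re
    exact h4.integrable_mul h1
  refine h3.congr ?_
  filter_upwards [mm_coe hg u] with x e
  rw [e, mul_comm (g x)]
  norm_cast

/-- the integrand of the weighted energy in terms of forms -/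
private theorem fhc2_form {D : Set ℂ} (hD : Bornology.IsBounded D) {M : ℂ → ℂ} {c : ℝ} (hM : Wg M c) {v : VD D}
    (hv : cVD D v = v) (q : SV D) :
    -2 * (∫ x, (M x).re * (‖(q : Y2).fst x‖ ^ 2 + ‖(q : Y2).snd x‖ ^ 2)) +
        (∫ x, ((lap M x).re + (((iot D v : XD D) : Y2).fst x * px M x +
          ((iot D v : XD D) : Y2).snd x * py M x).re) * ‖((js D q : XS D) : L2c) x‖ ^ 2) =
      -(2 * (⟪mS hD hM q, q⟫_ℂ).re) + 2 * (TR (jj D v) (q : Y2) (j4 D (mS hD hM q))).re := by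
  have t1 := mS_self hD hM q
  have t2 := TR_mS hD hM hv q
  have hsum : (∫ x, ((lap M x).re + (((iot D v : XD D) : Y2).fst x * px M x +
          ((iot D v : XD D) : Y2).snd x * py M x).re) * ‖((js D q : XS D) : L2c) x‖ ^ 2) =
      (∫ x, (lap M x).re * ‖((js D q : XS D) : L2c) x‖ ^ 2) +
        ∫ x, ((((iot D v : XD D) : Y2).fst x * px M x +
          ((iot D v : XD D) : Y2).snd x * py M x).re) * ‖((js D q : XS D) : L2c) x‖ ^ 2 := by
    have i1 := fhc2_i1 (g := lap M) (c := c) ⟨hM.smo.lap.continuous.aestronglyMeasurable,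
      fun x => (hM.bd x).2.2.2⟩ ((js D q : XS D) : L2c)
    have i2 := fhc2_i2 (g := px M) (c := c) ⟨hM.smo.px.continuous.aestronglyMeasurable,
      fun x => (hM.bd x).2.1⟩ ((iot D v : XD D) : Y2).fst _ (j4_ae hD q)
    have i3 := fhc2_i2 (g := py M) (c := c) ⟨hM.smo.py.continuous.aestronglyMeasurable,
      fun x => (hM.bd x).2.2.1⟩ ((iot D v : XD D) : Y2).snd _ (j4_ae hD q)
    rw [← integral_add i1]
    · refine integral_congr_ae (Eventually.of_forall fun x => ?_)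
      show _ = _
      ring
    · refine (i2.add i3).congr (Eventually.of_forall fun x => ?_)
      simp only [Pi.add_apply, Complex.add_re, add_mul]
  rw [hsum, t2]
  linarith [t1]

private theorem fhc2_int {f g h : ℝ → ℝ} {s t A B : ℝ} (hf : IntervalIntegrable f volume s t)
    (hg : IntervalIntegrable g volume s t) (hh : IntervalIntegrable h volume s t) :
    IntervalIntegrable (fun r => -(f r) + A * g r + B * h r) volume s t ∧
      (∫ r in s..t, (-(f r) + A * g r + B * h r)) = -(∫ r in s..t, f r) + A * (∫ r in s..t, g r) +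
        B * ∫ r in s..t, h r := by
  have hf' : IntervalIntegrable (fun r => -(f r)) volume s t := hf.neg
  have hg' : IntervalIntegrable (fun r => A * g r) volume s t := hg.const_mul A
  have hh' : IntervalIntegrable (fun r => B * h r) volume s t := hh.const_mul B
  have hfg : IntervalIntegrable (fun r => -(f r) + A * g r) volume s t := hf'.add hg'
  refine ⟨hfg.add hh', ?_⟩
  rw [intervalIntegral.integral_add hfg hh', intervalIntegral.integral_add hf' hg', intervalIntegral.integral_neg,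
    intervalIntegral.integral_const_mul, intervalIntegral.integral_const_mul]

/-- Young for the transport term -/
private theorem fhc2_young {K x y : ℝ} (hx : 0 ≤ x) (hy : 0 ≤ y) :
    K * √(x * y ^ 3) ≤ y ^ 2 / 2 + K ^ 4 * x ^ 2 := by
  have e1 : √(x * y ^ 3) = y * √(x * y) := by
    rw [show x * y ^ 3 = y ^ 2 * (x * y) by ring, Real.sqrt_mul (sq_nonneg y), Real.sqrt_sq hy]
  have e2 : √(x * y) ^ 2 = x * y := Real.sq_sqrt (mul_nonneg hx hy)
  rw [e1]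
  have h1 : K * (y * √(x * y)) ≤ y ^ 2 / 4 + K ^ 2 * (x * y) := by
    nlinarith [sq_nonneg (y / 2 - K * √(x * y)), e2]
  have h2 : K ^ 2 * (x * y) ≤ y ^ 2 / 4 + K ^ 4 * x ^ 2 := by
    nlinarith [sq_nonneg (y / 2 - K ^ 2 * x)]
  linarith

/-- Young for the source -/
private theorem fhc2_src {K x y S : ℝ} : K * (y + x) * S ≤ y ^ 2 / 2 + x ^ 2 / 2 + K ^ 2 * S ^ 2 := by
  nlinarith [sq_nonneg (y - K * S), sq_nonneg (x - K * S)]

/-- the final comparison at a time -/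
private theorem fhc2_alg {E G dr pr ds so x y S rb bb lam C1 K Ks m eC : ℝ} (hm : 1 ≤ m)
    (hx : 0 ≤ x) (hy : 0 ≤ y) (hbb : 0 ≤ bb)
    (hE : E = -2 * G + dr - 2 * ds + 2 * so) (hG : Real.pi / 2 * y ^ 2 ≤ G)
    (hdr : dr ≤ -rb + C1 * m ^ 2 * x ^ 2 + eC * bb + pr) (hpr : pr ≤ K * √(x * y ^ 3))
    (heC : eC ≤ lam) (hlam : 0 ≤ lam) (hds : Real.pi / 2 * (lam * bb) ≤ ds) (hso : 2 * so ≤ Ks * (y + x) * S) :
    E ≤ -(rb + lam * bb) + (C1 + K ^ 4 + 1) * m ^ 2 * x ^ 2 + Ks ^ 2 * S ^ 2 := by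
  have hpi := Real.pi_gt_three
  have h1 := fhc2_young (K := K) hx hy
  have h2 := fhc2_src (K := Ks) (x := x) (y := y) (S := S)
  have h3 : 3 * y ^ 2 ≤ 2 * G := by nlinarith [sq_nonneg y]
  have h4 : 3 * (lam * bb) ≤ 2 * ds := by nlinarith [mul_nonneg hlam hbb]
  have h5 : eC * bb ≤ lam * bb := mul_le_mul_of_nonneg_right heC hbb
  have h6 : (K ^ 4 + 1) * x ^ 2 ≤ (K ^ 4 + 1) * x ^ 2 * m ^ 2 := by
    have h7 : 0 ≤ (K ^ 4 + 1) * x ^ 2 := by positivity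
    have h8 : (1:ℝ) ≤ m ^ 2 := one_le_pow₀ hm
    nlinarith
  have h9 : (C1 + K ^ 4 + 1) * m ^ 2 * x ^ 2 = C1 * m ^ 2 * x ^ 2 + (K ^ 4 + 1) * x ^ 2 * m ^ 2 := by ring
  rw [h9, hE]
  have h10 := mul_nonneg hlam hbb
  have h11 := sq_nonneg x
  have h12 := sq_nonneg y
  nlinarith

namespace FD
variable {D : Set ℂ} (F : FD D)

/-- **The weighted energy inequality** for a regularised problem with the full amplitude. `Lpr.energy` with `M = Mw` (`Wg_Mw`, `π/2 ≤ M ≤ 5`):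
`-2 ∫ M |∇o|² ≤ -π ‖q‖²`; `drift_le`; `prod_le`: `prI ≤ C R² √(‖o‖ ‖q‖³) ≤ ‖q‖²/2 + C' ‖o‖²` (Young); `-2 lam ∫ M d |o|² ≤ -π lam ∫ bl |o|²`
(`d1`, `d01`), `exp (C m) ≤ lam`; the source: `⟪js (mS M q), s1⟫ = ∑ 2π src (mS M q)` (`js_mS`), `src_wt`:
`≤ C (‖q‖ + ‖o‖) ∑ sW ≤ ‖q‖²/2 + ‖o‖² + C ∑ sW²`. -/
theorem flush_en {R C₁ : ℝ} (hR : 0 ≤ R) (h1 : 0 ≤ C₁) : ∃ (m₀ : ℕ) (C : ℝ), 1 ≤ m₀ ∧ 1 ≤ C ∧ ∀ {m : ℕ} (_ : m₀ ≤ m)
    {a b lam : ℝ} {A : ℝ → ℝ} {v : ℝ → VD D} {mu : ℝ → ℝ} {p q1 q2 : Fin F.n → ℝ → HP} {s1 : ℝ → L2c} {q : ℝ → SV D}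
    (_ : Real.exp (C * m) ≤ lam)
    (_ : LprD D v (fun _ x => (lam : ℂ) * F.d x) s1 (fun _ => 0) a b)
    (_ : Lpr D v (fun _ x => (lam : ℂ) * F.d x) s1 (fun _ => 0) a b q)
    (_ : ContinuousOn A (Icc a b)) (_ : ∀ j, ContinuousOn (F.gg m A v p j) (Icc a b))
    (_ : ∀ t ∈ Icc a b, A t = F.A0 m) (_ : ∀ t ∈ Icc a b, F.FC m R A v mu p t)
    (_ : ∀ t ∈ Icc a b, ∀ q' : SV D, ⟪((js D q' : XS D) : L2c), s1 t⟫_ℂ =
      ∑ j, (2 * Real.pi : ℂ) * F.src m j (A t) (v t) (F.gg m A v p j t) (q1 j t) (q2 j t) q')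
    (_ : ∀ t ∈ Icc a b, ∀ j, ‖Ms (F.thw m j) (q1 j t)‖ ≤ C₁ * ‖Ms (F.thw m j) (F.gg m A v p j t)‖ ∧
      ‖Ms (F.thw m j) (q2 j t)‖ ≤ C₁ * ‖Ms (F.thw m j) (F.gg m A v p j t)‖)
    {s t : ℝ} (_ : a ≤ s) (_ : s ≤ t) (_ : t ≤ b),
    (∫ r in s..t, ∫ x, F.wP m lam x * ‖((js D (q r) : XS D) : L2c) x‖ ^ 2) ≤
      5 * ‖js D (q s)‖ ^ 2 + C * m ^ 2 * (∫ r in s..t, ‖js D (q r)‖ ^ 2) +
        C * ∫ r in s..t, ∑ j, (F.sW m j (A r) (F.gg m A v p j r)) ^ 2 := by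
  obtain ⟨Cd, md, hCd, hmd, kd⟩ := F.drift_le
  obtain ⟨Cp, hCp, kp⟩ := F.prod_le
  obtain ⟨ms, Cs, hms, hCs, ks⟩ := F.src_wt h1 hR
  obtain ⟨K, hK⟩ : ∃ K : ℝ, K = Cp * ((3 + 2 * F.n) * R ^ 2) := ⟨_, rfl⟩
  obtain ⟨Ks, hKs⟩ : ∃ Ks : ℝ, Ks = 4 * Real.pi * Cs := ⟨_, rfl⟩
  have hKs0 : 0 ≤ Ks := by rw [hKs]; positivity
  have hK4 : 0 ≤ K ^ 4 := by positivity
  refine ⟨max md ms, Cd + K ^ 4 + 1 + Ks ^ 2 * F.n, hmd.trans (le_max_left _ _), ?_, ?_⟩
  · have : 0 ≤ Ks ^ 2 * (F.n : ℝ) := by positivity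
    linarith
  intro m hm a b lam A v mu p q1 q2 s1 q hlam hdat hsol hA hg hA0 hFC hs1 hq12 s t hs hst ht
  have hmd' : md ≤ m := (le_max_left _ _).trans hm
  have hms' : ms ≤ m := (le_max_right _ _).trans hm
  have hm1 : 1 ≤ m := hmd.trans hmd'
  have hmr : (1:ℝ) ≤ m := by exact_mod_cast hm1
  have hm0 : (0:ℝ) < m := by linarith
  have hn0 : 0 ≤ Ks ^ 2 * (F.n : ℝ) := by positivity
  have hbd := F.hD.bdd
  obtain ⟨c, hW⟩ := F.Wg_Mw hm1
  have hlam1 : 1 ≤ lam := by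
    refine le_trans ?_ hlam
    exact Real.one_le_exp (mul_nonneg (by linarith) hm0.le)
  have hlam0 : 0 ≤ lam := by linarith
  have hexp : Real.exp (Cd * m) ≤ lam := by
    refine le_trans (Real.exp_le_exp.2 ?_) hlam
    exact mul_le_mul_of_nonneg_right (by linarith) hm0.le
  have hsub : Icc s t ⊆ Icc a b := Icc_subset_Icc hs ht
  have hA00 : 0 ≤ F.A0 m := by unfold FD.A0; positivity
  -- abbreviations
  obtain ⟨o, ho⟩ : ∃ o : ℝ → L2c, o = fun r => ((js D (q r) : XS D) : L2c) := ⟨_, rfl⟩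
  have ho' : ∀ r, ((js D (q r) : XS D) : L2c) = o r := fun r => by rw [ho]
  have hon : ∀ r, ‖js D (q r)‖ = ‖o r‖ := fun r => by rw [← ho']; rfl
  have co : ContinuousOn o (Icc a b) := by
    rw [ho]
    exact continuous_subtype_val.comp_continuousOn ((js D).continuous.comp_continuousOn hsol.cq)
  have hbM := fhc2_bm hW
  -- the energy integrand
  obtain ⟨E, hE⟩ : ∃ E : ℝ → ℝ, E = fun r => (-2 * (∫ x, (F.Mw m x).re * (‖(q r : Y2).fst x‖ ^ 2 + ‖(q r : Y2).snd x‖ ^ 2)) +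
        (∫ x, ((lap (F.Mw m) x).re + (((iot D (v r) : XD D) : Y2).fst x * px (F.Mw m) x +
          ((iot D (v r) : XD D) : Y2).snd x * py (F.Mw m) x).re) * ‖((js D (q r) : XS D) : L2c) x‖ ^ 2) -
        2 * (∫ x, (F.Mw m x).re * ((lam : ℂ) * F.d x).re * ‖((js D (q r) : XS D) : L2c) x‖ ^ 2) +
        2 * (⟪mm (F.Mw m) ((js D (q r) : XS D) : L2c), s1 r⟫_ℂ).re +
        2 * (((fun _ => 0 : ℝ → Yd L4c) r) (j4 D (mS hbd hW (q r)))).re) := ⟨_, rfl⟩
  have key := hsol.energy hbd hdat hW hs hst ht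
  have keyE : (∫ x, (F.Mw m x).re * ‖((js D (q t) : XS D) : L2c) x‖ ^ 2) -
      ∫ x, (F.Mw m x).re * ‖((js D (q s) : XS D) : L2c) x‖ ^ 2 = ∫ r in s..t, E r := by
    rw [key, hE]
  have hz : ∀ r, (((fun _ => 0 : ℝ → Yd L4c) r) (j4 D (mS hbd hW (q r)))).re = 0 := fun r => by
    show ((0 : Yd L4c) (j4 D (mS hbd hW (q r)))).re = 0
    rfl
  -- continuity of the integrand
  have cE : ContinuousOn E (Icc a b) := by
    have c1 : ContinuousOn (fun r => (⟪mS hbd hW (q r), q r⟫_ℂ).re) (Icc a b) :=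
      Complex.continuous_re.comp_continuousOn (ContinuousOn.inner (𝕜 := ℂ)
        ((mS hbd hW).continuous.comp_continuousOn hsol.cq) hsol.cq)
    have c2 : ContinuousOn (fun r => TR (jj D (v r)) ((q r : SV D) : Y2)) (Icc a b) :=
      (TR.continuous.comp_continuousOn ((jj D).continuous.comp_continuousOn hdat.cv)).clm_apply
        (continuous_subtype_val.comp_continuousOn hsol.cq)
    have cj : ContinuousOn (fun r => j4 D (mS hbd hW (q r))) (Icc a b) :=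
      (j4 D).continuous.comp_continuousOn ((mS hbd hW).continuous.comp_continuousOn hsol.cq)
    have c3 : ContinuousOn (fun r => TR (jj D (v r)) ((q r : SV D) : Y2) (j4 D (mS hbd hW (q r)))) (Icc a b) :=
      ContinuousOn.clm_apply
        ((ContinuousLinearMap.apply' ℂ (starRingEnd ℂ) (E := L4c)).continuous.comp_continuousOn cj) c2
    have c4 : ContinuousOn (fun r => (⟪mm (F.Mw m) (o r), mm (fun x => (lam : ℂ) * F.d x) (o r)⟫_ℂ).re) (Icc a b) :=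
      Complex.continuous_re.comp_continuousOn (ContinuousOn.inner (𝕜 := ℂ)
        ((mm (F.Mw m)).continuous.comp_continuousOn co) ((mm _).continuous.comp_continuousOn co))
    have c5 : ContinuousOn (fun r => (⟪mm (F.Mw m) (o r), s1 r⟫_ℂ).re) (Icc a b) :=
      Complex.continuous_re.comp_continuousOn (ContinuousOn.inner (𝕜 := ℂ)
        ((mm (F.Mw m)).continuous.comp_continuousOn co) hdat.c1)
    have cc : ContinuousOn (fun r => -(2 * (⟪mS hbd hW (q r), q r⟫_ℂ).re) +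
        2 * (TR (jj D (v r)) ((q r : SV D) : Y2) (j4 D (mS hbd hW (q r)))).re -
        2 * (⟪mm (F.Mw m) (o r), mm (fun x => (lam : ℂ) * F.d x) (o r)⟫_ℂ).re +
        2 * (⟪mm (F.Mw m) (o r), s1 r⟫_ℂ).re) (Icc a b) :=
      (((continuousOn_const.mul c1).neg.add (continuousOn_const.mul
        (Complex.continuous_re.comp_continuousOn c3))).sub (continuousOn_const.mul c4)).add
        (continuousOn_const.mul c5)
    refine cc.congr fun r hr => ?_
    rw [hE]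
    beta_reduce
    rw [fhc2_form hbd hW (hdat.rv r hr) (q r)]
    obtain ⟨c', hc'⟩ := hdat.bW r hr
    rw [hz r, mul_zero, add_zero, ho', fhc2_re hbM hc' hW.real (hdat.rW r hr) (o r)]
  -- the right side
  obtain ⟨S, hS⟩ : ∃ S : Fin F.n → ℝ → ℝ, S = fun j r => F.sW m j (A r) (F.gg m A v p j r) := ⟨_, rfl⟩
  have hSr : ∀ r, (∑ j, (F.sW m j (A r) (F.gg m A v p j r)) ^ 2) = ∑ j, S j r ^ 2 := fun r => by rw [hS]
  have hSc : ∀ j, ContinuousOn (S j) (Icc a b) := fun j => by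
    rw [hS]
    exact F.sW_cont m j hA (hg j)
  obtain ⟨cP, hP⟩ := F.wP_PwS m hlam0
  have cw : ContinuousOn (fun r => ∫ x, F.wP m lam x * ‖((js D (q r) : XS D) : L2c) x‖ ^ 2) (Icc a b) := by
    have cx : ContinuousOn (fun r => js D (q r)) (Icc a b) := (js D).continuous.comp_continuousOn hsol.cq
    have c0 : ContinuousOn (fun r => (⟪mP D (F.wP m lam) (js D (q r)), js D (q r)⟫_ℂ).re) (Icc a b) :=
      Complex.continuous_re.comp_continuousOn (ContinuousOn.inner (𝕜 := ℂ)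
        ((mP D (F.wP m lam)).continuous.comp_continuousOn cx) cx)
    exact c0.congr fun r _ => (mP_re hP _).symm
  have cn : ContinuousOn (fun r => ‖js D (q r)‖ ^ 2) (Icc a b) :=
    ((js D).continuous.comp_continuousOn hsol.cq).norm.pow 2
  have cS : ContinuousOn (fun r => ∑ j, S j r ^ 2) (Icc a b) :=
    continuousOn_finsetSum _ fun j _ => (hSc j).pow 2
  obtain ⟨C, hC⟩ : ∃ C : ℝ, C = Cd + K ^ 4 + 1 + Ks ^ 2 * F.n := ⟨_, rfl⟩
  -- the pointwise bound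
  have hpt : ∀ r ∈ Icc s t, E r ≤ -(∫ x, F.wP m lam x * ‖((js D (q r) : XS D) : L2c) x‖ ^ 2) +
      C * m ^ 2 * ‖js D (q r)‖ ^ 2 + C * ∑ j, S j r ^ 2 := by
    intro r hr
    have hr' := hsub hr
    have hFCr := hFC r hr'
    have hAr := hA0 r hr'
    obtain ⟨c', hc'⟩ := hdat.bW r hr'
    obtain ⟨rb, hrb⟩ : ∃ rb : ℝ, rb = ∫ x, F.rho m x * ‖((js D (q r) : XS D) : L2c) x‖ ^ 2 := ⟨_, rfl⟩
    obtain ⟨bb, hbb⟩ : ∃ bb : ℝ, bb = ∫ x, F.bl x * ‖((js D (q r) : XS D) : L2c) x‖ ^ 2 := ⟨_, rfl⟩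
    have hbl := F.bl_PwS
    obtain ⟨cr, hrho⟩ := F.rho_PwS m
    have irho : Integrable fun x => F.rho m x * ‖(o r : ℂ → ℂ) x‖ ^ 2 :=
      fhc2_i0 hrho.m (fun x => by rw [abs_of_nonneg (hrho.p0 x)]; exact hrho.p1 x) (o r)
    have ibl : Integrable fun x => F.bl x * ‖(o r : ℂ → ℂ) x‖ ^ 2 :=
      fhc2_i0 hbl.m (fun x => by rw [abs_of_nonneg (hbl.p0 x)]; exact hbl.p1 x) (o r)
    have hwP : (∫ x, F.wP m lam x * ‖((js D (q r) : XS D) : L2c) x‖ ^ 2) = rb + lam * bb := by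
      rw [hrb, hbb, ho', ← integral_const_mul, ← integral_add irho (ibl.const_mul lam)]
      refine integral_congr_ae (Eventually.of_forall fun x => ?_)
      show F.wP m lam x * ‖(o r : ℂ → ℂ) x‖ ^ 2 = _
      unfold FD.wP
      ring
    have hbb0 : 0 ≤ bb := by
      rw [hbb]
      exact integral_nonneg fun x => mul_nonneg (hbl.p0 x) (by positivity)
    -- the gradient term
    have hG : Real.pi / 2 * ‖q r‖ ^ 2 ≤
        ∫ x, (F.Mw m x).re * (‖(q r : Y2).fst x‖ ^ 2 + ‖(q r : Y2).snd x‖ ^ 2) := by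
      have e0 : ‖q r‖ ^ 2 = ∫ x, (‖(q r : Y2).fst x‖ ^ 2 + ‖(q r : Y2).snd x‖ ^ 2) := by
        rw [integral_add (fhc2_sq _) (fhc2_sq _), fhc2_n2, fhc2_n2]
        exact WithLp.prod_norm_sq_eq_of_L2 (q r : Y2)
      rw [e0, ← integral_const_mul]
      have i0 : Integrable fun x => (‖(q r : Y2).fst x‖ ^ 2 + ‖(q r : Y2).snd x‖ ^ 2) :=
        (fhc2_sq _).add (fhc2_sq _)
      have i1 : Integrable fun x => (F.Mw m x).re * (‖(q r : Y2).fst x‖ ^ 2 + ‖(q r : Y2).snd x‖ ^ 2) := by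
        refine ((fhc2_i1 hbM (q r : Y2).fst).add (fhc2_i1 hbM (q r : Y2).snd)).congr
          (Eventually.of_forall fun x => ?_)
        simp only [Pi.add_apply, mul_add]
      refine integral_mono (i0.const_mul _) i1 fun x => ?_
      exact mul_le_mul_of_nonneg_right (F.Mw_re m x).1 (by positivity)
    -- the drift
    have hdr := kd m hmd' (v r) (q r)
    rw [← hrb, ← hbb] at hdr
    -- the transport term
    have hpr : prI D (F.wp m (F.A0 m) (v r)) ((js D (q r) : XS D) : L2c) ≤ K * √(‖js D (q r)‖ * ‖q r‖ ^ 3) := by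
      have h2 := kp hm1 (A := A) (v := v) (mu := mu) (p := p) r (q r)
      rw [hAr] at h2
      refine h2.trans (mul_le_mul_of_nonneg_right ?_ (Real.sqrt_nonneg _))
      rw [hK]
      refine mul_le_mul_of_nonneg_left ?_ hCp
      have hw := hFCr.w
      rw [hAr] at hw
      have b1 : ‖F.wp m (F.A0 m) (v r)‖ ^ 2 ≤ R ^ 2 := by gcongr
      have b2 : ‖F.ov m A v mu p r‖ ^ 2 ≤ R ^ 2 := by
        have := hFCr.o
        gcongr
      have b3 : |mu r| ^ 2 ≤ R ^ 2 := by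
        have := hFCr.u
        gcongr
      have b4 : (∑ j, (‖LT (F.G j).ω (F.G j).lam (3 / 8) (F.gg m A v p j r)‖ ^ 2 + ‖F.hh m A v p j r‖ ^ 2)) ≤
          ∑ _j : Fin F.n, 2 * R ^ 2 := by
        refine Finset.sum_le_sum fun j _ => ?_
        have c1 : ‖LT (F.G j).ω (F.G j).lam (3 / 8) (F.gg m A v p j r)‖ ^ 2 ≤ R ^ 2 := by
          have := hFCr.y j
          gcongr
        have c2 : ‖F.hh m A v p j r‖ ^ 2 ≤ R ^ 2 := by
          have := hFCr.h j
          gcongr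
        linarith
      rw [Finset.sum_const, Finset.card_univ, Fintype.card_fin, nsmul_eq_mul] at b4
      linarith
    -- the damping
    have hds : Real.pi / 2 * (lam * bb) ≤
        ∫ x, (F.Mw m x).re * ((lam : ℂ) * F.d x).re * ‖((js D (q r) : XS D) : L2c) x‖ ^ 2 := by
      rw [hbb, ho', ← integral_const_mul, ← integral_const_mul]
      have i1 : Integrable fun x => (F.Mw m x).re * ((lam : ℂ) * F.d x).re * ‖(o r : ℂ → ℂ) x‖ ^ 2 := by
        refine fhc2_i0 (c := c * c') ((Complex.continuous_re.comp_aestronglyMeasurable hbM.1).mul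
          (Complex.continuous_re.comp_aestronglyMeasurable hc'.1)) (fun x => ?_) (o r)
        show |(F.Mw m x).re * ((lam : ℂ) * F.d x).re| ≤ c * c'
        rw [abs_mul]
        exact mul_le_mul ((Complex.abs_re_le_norm _).trans (hbM.2 x)) ((Complex.abs_re_le_norm _).trans (hc'.2 x))
          (abs_nonneg _) ((norm_nonneg _).trans (hbM.2 x))
      refine integral_mono ((ibl.const_mul lam).const_mul _) i1 fun x => ?_
      have hM1 := (F.Mw_re m x).1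
      have hd01 := F.d01 x
      have hsq : 0 ≤ ‖(o r : ℂ → ℂ) x‖ ^ 2 := by positivity
      have hpi := Real.pi_pos
      have e1 : ((lam : ℂ) * F.d x).re = lam * (F.d x).re := Complex.re_ofReal_mul _ _
      have hblx : F.bl x ≤ (F.d x).re := by
        unfold FD.bl
        by_cases hx : x ∈ Metric.closedBall F.x F.s2
        · rw [indicator_of_mem hx, F.d1 x (Metric.mem_closedBall.1 hx)]
          simp
        · rw [indicator_of_notMem hx]
          exact hd01.1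
      have hbl0 := hbl.p0 x
      show Real.pi / 2 * (lam * (F.bl x * ‖(o r : ℂ → ℂ) x‖ ^ 2)) ≤ _
      rw [e1]
      have k1 : Real.pi / 2 * (lam * F.bl x) ≤ (F.Mw m x).re * (lam * (F.d x).re) :=
        mul_le_mul hM1 (mul_le_mul_of_nonneg_left hblx hlam0) (mul_nonneg hlam0 hbl0) (by linarith)
      have k2 := mul_le_mul_of_nonneg_right k1 hsq
      linarith
    -- the source
    have hso : 2 * (⟪mm (F.Mw m) ((js D (q r) : XS D) : L2c), s1 r⟫_ℂ).re ≤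
        Ks * (‖q r‖ + ‖js D (q r)‖) * ∑ j, S j r := by
      rw [← js_mS hbd hW (q r), hs1 r hr' (mS hbd hW (q r))]
      have e2 : ‖(2 * Real.pi : ℂ)‖ = 2 * Real.pi := by
        rw [norm_mul, Complex.norm_real, Real.norm_of_nonneg Real.pi_pos.le]
        norm_num
      have k1 : (∑ j, (2 * Real.pi : ℂ) * F.src m j (A r) (v r) (F.gg m A v p j r) (q1 j r) (q2 j r)
          (mS hbd hW (q r))).re ≤ ∑ j, 2 * Real.pi * (Cs * (‖q r‖ + ‖js D (q r)‖) * S j r) := by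
        refine (Complex.re_le_norm _).trans ((norm_sum_le _ _).trans (Finset.sum_le_sum fun j _ => ?_))
        rw [norm_mul, e2]
        refine mul_le_mul_of_nonneg_left ?_ (by positivity)
        have k2 := ks hms' j (a := A r) (by rw [hAr]; exact hA00) (by rw [hAr]) (v r) (hFCr.ht j)
          (F.gg m A v p j r) (q1 j r) (q2 j r) (hq12 r hr' j).1 (hq12 r hr' j).2 hW (q r)
        rw [hS]
        exact k2
      have k5 : (∑ j, 2 * Real.pi * (Cs * (‖q r‖ + ‖js D (q r)‖) * S j r)) =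
          2 * Real.pi * Cs * (‖q r‖ + ‖js D (q r)‖) * ∑ j, S j r := by
        rw [Finset.mul_sum]
        refine Finset.sum_congr rfl fun j _ => ?_
        ring
      rw [k5] at k1
      rw [hKs]
      linarith
    have hEr : E r = -2 * (∫ x, (F.Mw m x).re * (‖(q r : Y2).fst x‖ ^ 2 + ‖(q r : Y2).snd x‖ ^ 2)) +
        (∫ x, ((lap (F.Mw m) x).re + (((iot D (v r) : XD D) : Y2).fst x * px (F.Mw m) x +
          ((iot D (v r) : XD D) : Y2).snd x * py (F.Mw m) x).re) * ‖((js D (q r) : XS D) : L2c) x‖ ^ 2) -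
        2 * (∫ x, (F.Mw m x).re * ((lam : ℂ) * F.d x).re * ‖((js D (q r) : XS D) : L2c) x‖ ^ 2) +
        2 * (⟪mm (F.Mw m) ((js D (q r) : XS D) : L2c), s1 r⟫_ℂ).re := by
      rw [hE]
      beta_reduce
      rw [hz r, mul_zero, add_zero]
    have hfin := fhc2_alg (m := (m:ℝ)) hmr (norm_nonneg (js D (q r))) (norm_nonneg (q r)) hbb0 hEr hG hdr hpr
      hexp hlam0 hds hso
    rw [hwP]
    have hS2 : (∑ j, S j r) ^ 2 ≤ F.n * ∑ j, S j r ^ 2 := by
      have := sq_sum_le_card_mul_sum_sq (s := (Finset.univ : Finset (Fin F.n))) (f := fun j => S j r)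
      rwa [Finset.card_univ, Fintype.card_fin] at this
    have hS0 : 0 ≤ ∑ j, S j r ^ 2 := Finset.sum_nonneg fun j _ => sq_nonneg _
    have k3 : Ks ^ 2 * (∑ j, S j r) ^ 2 ≤ C * ∑ j, S j r ^ 2 := by
      calc Ks ^ 2 * (∑ j, S j r) ^ 2 ≤ Ks ^ 2 * (F.n * ∑ j, S j r ^ 2) :=
            mul_le_mul_of_nonneg_left hS2 (sq_nonneg _)
        _ = (Ks ^ 2 * F.n) * ∑ j, S j r ^ 2 := by ring
        _ ≤ C * ∑ j, S j r ^ 2 := by
            refine mul_le_mul_of_nonneg_right ?_ hS0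
            rw [hC]
            linarith
    have k4 : (Cd + K ^ 4 + 1) * (m:ℝ) ^ 2 * ‖js D (q r)‖ ^ 2 ≤ C * (m:ℝ) ^ 2 * ‖js D (q r)‖ ^ 2 := by
      have k5 : Cd + K ^ 4 + 1 ≤ C := by rw [hC]; linarith
      gcongr
    linarith
  -- integration
  have ii : ∀ {f : ℝ → ℝ}, ContinuousOn f (Icc a b) → IntervalIntegrable f volume s t := fun hf =>
    (hf.mono hsub).intervalIntegrable_of_Icc hst
  have hint : (∫ r in s..t, E r) ≤ -(∫ r in s..t, ∫ x, F.wP m lam x * ‖((js D (q r) : XS D) : L2c) x‖ ^ 2) +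
      C * m ^ 2 * (∫ r in s..t, ‖js D (q r)‖ ^ 2) + C * ∫ r in s..t, ∑ j, S j r ^ 2 := by
    rw [← (fhc2_int (A := C * m ^ 2) (B := C) (ii cw) (ii cn) (ii cS)).2]
    exact intervalIntegral.integral_mono_on hst (ii cE) (fhc2_int (ii cw) (ii cn) (ii cS)).1 hpt
  have hpos : 0 ≤ ∫ x, (F.Mw m x).re * ‖((js D (q t) : XS D) : L2c) x‖ ^ 2 :=
    integral_nonneg fun x => mul_nonneg (by have := (F.Mw_re m x).1; have := Real.pi_pos; linarith) (by positivity)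
  have hup : (∫ x, (F.Mw m x).re * ‖((js D (q s) : XS D) : L2c) x‖ ^ 2) ≤ 5 * ‖js D (q s)‖ ^ 2 := by
    have e0 : ‖js D (q s)‖ ^ 2 = ∫ x, ‖((js D (q s) : XS D) : L2c) x‖ ^ 2 := (fhc2_n2 _).symm
    rw [e0, ← integral_const_mul]
    refine integral_mono (fhc2_i1 hbM _) ((fhc2_sq _).const_mul 5) fun x => ?_
    refine mul_le_mul_of_nonneg_right ?_ (by positivity)
    exact (Complex.re_le_norm _).trans (F.Mw_re m x).2.2
  have hSI : (∫ r in s..t, ∑ j, (F.sW m j (A r) (F.gg m A v p j r)) ^ 2) = ∫ r in s..t, ∑ j, S j r ^ 2 := by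
    rw [hS]
  rw [hSI, ← hC]
  linarith

end FD

end Pool.Agent.Lib.MP_79abb3_an.PD
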