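import Pool.Agent.Lib.MP_79abb3_an.PD.FhC2
import Pool.Agent.Lib.MP_79abb3_an.PD.FbW3
import Pool.Agent.Lib.MP_79abb3_an.PD.FgM

/-!
Theorem D, block F, flush: the outer vorticity is small at some time.
-/

set_option autoImplicit false
set_option linter.unusedSectionVars false

open MeasureTheory Set Filter Topology Function
open scoped ENNReal InnerProductSpace ComplexConjugate

namespace Pool.Agent.Lib.MP_79abb3_an.PD

open Pool.Agent.Lib.MP_79abb3_an.SC Pool.Agent.Lib.MP_79abb3_an.P25 Pool.Agent.Lib.MP_79abb3_an.FW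

namespace FD
variable {D : Set ℂ} (F : FD D)

/-- **Section 8.** For the approximations (`Apx`; `Wmon` and `Ms th (cm a g) = cm a (Ms th g)` as in `ov_energy`): `‖js q_n(t)‖² ≤ R₁` for large `n`
(`apr_o` on `[0,t]`, `ini`, `src_int` or `srR ≤ ..`; `FB.fc`), `flush_en` on `[b/2, b]`, `C m² b ≤ C`, `sW_int`; `n → ∞`: `weight_lsc_int` for `wP`
(`wP_PwS`; `ov ∈ XS D`: `ov_mem`, `ov_cont`; shift the sequence so that the bound holds for all `n`). So `∫_{b/2}^b ∫ wP |o|² ≤ C`, hence at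
some `t₁ ∈ [b/2, b]` the (continuous) integrand is at most `2 C / b = 16 C K² m²`. -/
theorem flush_L2 {R : ℝ} (hR : 0 ≤ R) : ∃ (C : ℝ) (m₀ : ℕ), 1 ≤ C ∧ 1 ≤ m₀ ∧ ∀ m : ℕ, m₀ ≤ m →
    ∀ {A A' : ℝ → ℝ} {lam : ℝ} {v₀ : VD D} {v : ℝ → VD D} {mu mu' : ℝ → ℝ} {p : Fin F.n → ℝ → HP}
    (_ : F.Fst m lam A A' (F.bm m) v₀ v mu mu' p) {Rn Pn : ℕ → (HP →L[ℂ] HP)} {s1 : ℕ → ℝ → L2c} {q : ℕ → ℝ → SV D}
    (_ : F.Apx m lam A (F.bm m) v mu p Rn Pn s1 q) (_ : Real.exp (C * m) ≤ lam)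
    (_ : ∀ t ∈ Icc 0 (F.bm m), A t ≤ F.A0 m) (_ : ∀ t ∈ Icc (F.bm m / 2) (F.bm m), A t = F.A0 m)
    (_ : ∀ t ∈ Icc 0 (F.bm m), F.FB m R 1 A v mu p t),
    ∃ t ∈ Icc (F.bm m / 2) (F.bm m), ∫ x, F.wP m lam x * ‖((F.ov m A v mu p t : L2c) : ℂ → ℂ) x‖ ^ 2 ≤ C * m ^ 2 := by
  obtain ⟨S, hS⟩ : ∃ S : Fin F.n → ℝ, S = fun j => ∑' n, ‖(F.G j).a n‖ := ⟨_, rfl⟩
  have hS0 : ∀ j, 0 ≤ S j := fun j => by
    rw [hS]
    exact tsum_nonneg fun n => norm_nonneg _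
  have hSs : ∀ j, S j ≤ ∑ i, S i := fun j =>
    Finset.single_le_sum (f := S) (fun i _ => hS0 i) (Finset.mem_univ j)
  have hSS : (0:ℝ) ≤ ∑ i, S i := Finset.sum_nonneg fun i _ => hS0 i
  obtain ⟨R', mf, hR', hmf, kf⟩ := FB.fc F hR
  obtain ⟨ma, Ca, hma, hCa, ka⟩ := F.apr_o hSS hR'
  obtain ⟨me, Ce, hme, hCe, ke⟩ := F.flush_en hR' hSS
  obtain ⟨Cw, hCw, kw⟩ := F.sW_int hR
  choose ms hms1 hms using fun j => src_int (F.G j) (c₁ := 4 * F.u) (c₂ := 8 * F.u) (by linarith [F.u0])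
    (by linarith) hR 1 one_pos
  obtain ⟨rA, hrA⟩ := eventually_atTop.1 (F.A0_tend.eventually (gt_mem_nhds
    (show (0:ℝ) < 1 / (F.K + 1) by positivity)))
  have ev : ∀ᶠ m : ℕ in atTop, 1 ≤ m ∧ mf ≤ m ∧ ma ≤ m ∧ me ≤ m ∧ rA ≤ m ∧ ∀ j, ms j ≤ (F.G j).ω * F.N m j := by
    have e1 : ∀ᶠ m : ℕ in atTop, ∀ j, ms j ≤ (m:ℝ) := by
      rw [eventually_all]
      intro j
      exact tendsto_natCast_atTop_atTop.eventually (eventually_ge_atTop (ms j))
    filter_upwards [eventually_ge_atTop 1, eventually_ge_atTop mf, eventually_ge_atTop ma, eventually_ge_atTop me,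
      eventually_ge_atTop rA, e1] with m a1 a2 a3 a4 a5 a6
    exact ⟨a1, a2, a3, a4, a5, fun j => (a6 j).trans (F.par a1 j).2.1⟩
  obtain ⟨m₀, hm₀⟩ := eventually_atTop.1 ev
  obtain ⟨R1, hR1⟩ : ∃ R1 : ℝ, R1 = R ^ 2 + 1 + Ca * F.n := ⟨_, rfl⟩
  have hR10 : 0 ≤ R1 := by rw [hR1]; positivity
  obtain ⟨W1, hW1⟩ : ∃ W1 : ℝ, W1 = 5 * R1 + Ce * R1 + Ce * Cw := ⟨_, rfl⟩
  have hW10 : 0 ≤ W1 := by rw [hW1]; positivity
  refine ⟨Ce + 16 * (F.K : ℝ) ^ 2 * W1, max 1 m₀, ?_, le_max_left _ _, ?_⟩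
  · have : 0 ≤ 16 * (F.K : ℝ) ^ 2 * W1 := by positivity
    linarith
  intro m hm A A' lam v₀ v mu mu' p st Rn Pn s1 q ap hlam hAm hAeq hFB
  obtain ⟨g1, g2, g3, g4, g5, g6⟩ := hm₀ m ((le_max_right _ _).trans hm)
  have hmr : (1:ℝ) ≤ m := by exact_mod_cast g1
  have hm0 : (0:ℝ) < m := by linarith
  have hKr : (1:ℝ) ≤ F.K := by exact_mod_cast F.K1
  have hK0 : (0:ℝ) < F.K := by linarith
  obtain ⟨b, hb⟩ : ∃ b : ℝ, b = F.bm m := ⟨_, rfl⟩
  have hbe : b = 1 / (8 * ((F.K : ℝ) * m) ^ 2) := hb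
  rw [← hb] at st ap hAm hAeq hFB ⊢
  have hb0 : 0 < b := by rw [hbe]; positivity
  have hmb : (m:ℝ) ^ 2 * b ≤ 1 := by
    have hk2 : (1:ℝ) ≤ (F.K : ℝ) ^ 2 := one_le_pow₀ hKr
    have hm2 : 0 < (m:ℝ) ^ 2 := by positivity
    rw [hbe, mul_one_div, div_le_one (by positivity), mul_pow]
    nlinarith
  have hb1 : b ≤ 1 := by
    have hm2 : (1:ℝ) ≤ (m:ℝ) ^ 2 := one_le_pow₀ hmr
    nlinarith
  have hexp : Real.exp (Ce * m) ≤ lam := by
    refine le_trans (Real.exp_le_exp.2 ?_) hlam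
    refine mul_le_mul_of_nonneg_right ?_ hm0.le
    have : 0 ≤ 16 * (F.K : ℝ) ^ 2 * W1 := by positivity
    linarith
  have hA0K : ∀ j, F.k j * F.A0 m ≤ 1 := by
    have hAs := hrA m g5
    have hK1 : (0:ℝ) < F.K + 1 := by positivity
    rw [lt_div_iff₀ hK1] at hAs
    intro j
    have hA00 : 0 ≤ F.A0 m := by unfold FD.A0; positivity
    have h5 : (F.k j : ℝ) ≤ F.K + 1 := by
      have : F.k j ≤ F.K := F.hK j
      have : (F.k j : ℝ) ≤ F.K := by exact_mod_cast this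
      linarith
    have := mul_le_mul_of_nonneg_right h5 hA00
    linarith
  have hFC : ∀ r ∈ Icc 0 b, F.FC m R' A v mu p r := fun r hr => kf m g2 (hFB r hr) (st.A0 r hr) (hAm r hr)
  -- monotone weights
  have hw : ∀ (L : HP →L[ℂ] HP), Wmon L → ∀ j (g : HP),
      ‖Ms (F.thw m j) (L (SC.cm (F.G j).a g))‖ ≤ (∑ i, S i) * ‖Ms (F.thw m j) g‖ := by
    intro L hL j g
    have hN : 1 ≤ F.N m j := Nat.one_le_iff_ne_zero.2
      (Nat.mul_ne_zero (Nat.one_le_iff_ne_zero.1 (F.fl.kpos j)) (Nat.one_le_iff_ne_zero.1 st.m1))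
    have hN' : (1:ℝ) ≤ (F.N m j : ℝ) := by exact_mod_cast hN
    have hpos : 0 < (F.G j).ω * (F.N m j : ℝ) := by
      rw [Pool.Agent.Lib.MP_79abb3_an.PD.Geo.om_pi (F.G j), one_mul]
      linarith
    have wg := SC.tht_wgt (H := Real.pi) hpos
    have h1 := hL (F.thw m j) (tht (zl ((F.G j).ω * F.N m j)) (4 * ((F.G j).ω * F.N m j)))
      (fun z hz => Pool.Agent.Lib.MP_79abb3_an.FW.ex_rc _ _ hz) (fun z hz => wg.nn z hz)
      (fun x hx z hz hxz => wg.mono x hx z hz hxz) (SC.cm (F.G j).a g)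
    refine h1.trans ?_
    rw [SC.Ms_cm _ (F.G j).sa]
    have h2 := SC.norm_cm_apply_le (F.G j).sa (Ms (F.thw m j) g)
    have h3 : (∑' n, ‖(F.G j).a n‖) = S j := by rw [hS]
    rw [h3] at h2
    exact h2.trans (mul_le_mul_of_nonneg_right (hSs j) (norm_nonneg _))
  -- the bound of the approximations
  have hsr : ∀ r ∈ Icc 0 b, (∫ r in (0:ℝ)..r, ∑ j,
      ((F.G j).srR (F.N m j) (F.k j * A r) (4 * F.u) (8 * F.u) (F.gg m A v p j r)) ^ 2) ≤ F.n := by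
    intro r hr
    have hi : ∀ j, ContinuousOn (fun r =>
        ((F.G j).srR (F.N m j) (F.k j * A r) (4 * F.u) (8 * F.u) (F.gg m A v p j r)) ^ 2) (Icc 0 b) := by
      intro j
      have c1 : ContinuousOn (fun r => F.kp m j (A r)) (Icc 0 b) := (F.kp_cont m j).comp_continuousOn st.contA
      have c2 : ContinuousOn (fun r => MsB Real.pi (F.kp m j (A r)) (SC.TT (F.G j).ω (F.gg m A v p j r))) (Icc 0 b) :=
        ((MsB Real.pi).continuous.comp_continuousOn c1).clm_apply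
          ((SC.TT (F.G j).ω).continuous.comp_continuousOn (st.contg j))
      have c3 : ContinuousOn (fun r => ‖Ms (rc (tht (zl ((F.G j).ω * F.N m j)) (4 * ((F.G j).ω * F.N m j)))
          (tht_cont _ _) : CI Real.pi) (F.gg m A v p j r)‖) (Icc 0 b) :=
        ((Ms (rc (tht (zl ((F.G j).ω * F.N m j)) (4 * ((F.G j).ω * F.N m j)))
          (tht_cont _ _) : CI Real.pi)).continuous.comp_continuousOn (st.contg j)).norm
      exact (c2.norm.add (continuousOn_const.mul c3)).pow 2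
    have hsub : Icc 0 r ⊆ Icc 0 b := Icc_subset_Icc_right hr.2
    rw [intervalIntegral.integral_finsetSum fun j _ => ((hi j).mono hsub).intervalIntegrable_of_Icc hr.1]
    have h6 : ∀ j, ∫ r in (0:ℝ)..r, ((F.G j).srR (F.N m j) (F.k j * A r) (4 * F.u) (8 * F.u)
        (F.gg m A v p j r)) ^ 2 ≤ 1 := by
      intro j
      exact hms j (g := F.gg m A v p j) (A := fun s => F.k j * A s) (b := b) (g6 j) hb0.le hb1 (st.contg j)
        (fun s hs' => (hFB s hs').s j) (continuousOn_const.mul st.contA) r hr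
    refine (Finset.sum_le_sum fun j _ => h6 j).trans (le_of_eq ?_)
    simp
  have hE : ∀ n, ∀ r ∈ Icc 0 b, ‖js D (q n r)‖ ^ 2 ≤ ‖js D (q n 0)‖ ^ 2 + Ca * F.n := by
    intro n r hr
    have h1 := ka g3 (ap.dat n) (ap.sol n) st.contA (fun j => st.contg j) (ap.src n)
      (fun r hr => ⟨st.A0 r hr, fun j => ⟨(mul_le_mul_of_nonneg_left (hAm r hr) (Nat.cast_nonneg _)).trans (hA0K j),
        (hFC r hr).ht j, hw _ (ap.R1 n) j _, hw _ (ap.P1 n) j _⟩⟩) le_rfl hr.1 hr.2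
    have h2 : 0 ≤ ∫ r in (0:ℝ)..r, ‖q n r‖ ^ 2 :=
      intervalIntegral.integral_nonneg hr.1 fun r _ => by positivity
    have h3 : 0 ≤ 2 * lam * (∫ r in (0:ℝ)..r, ∫ x, (F.d x).re * ‖((js D (q n r) : XS D) : L2c) x‖ ^ 2) := by
      refine mul_nonneg (mul_nonneg zero_le_two st.l0) ?_
      refine intervalIntegral.integral_nonneg hr.1 fun r _ => ?_
      exact integral_nonneg fun x => mul_nonneg (F.d01 x).1 (by positivity)
    have h4 := mul_le_mul_of_nonneg_left (hsr r hr) hCa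
    linarith
  have hini : Tendsto (fun n => ‖js D (q n 0)‖ ^ 2) atTop (𝓝 (‖F.ov m A v mu p 0‖ ^ 2)) :=
    (ap.ini.norm).pow 2
  have h0b : (0:ℝ) ∈ Icc 0 b := ⟨le_rfl, hb0.le⟩
  have hov0 : ‖F.ov m A v mu p 0‖ ^ 2 ≤ R ^ 2 := by
    have := (hFB 0 h0b).o
    gcongr
  obtain ⟨N0, hN0⟩ := eventually_atTop.1 (hini.eventually (gt_mem_nhds (show ‖F.ov m A v mu p 0‖ ^ 2 <
      R ^ 2 + 1 by linarith)))
  have hbd : ∀ n, ∀ r ∈ Icc 0 b, ‖js D (q (n + N0) r)‖ ^ 2 ≤ R1 := by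
    intro n r hr
    have h1 := hE (n + N0) r hr
    have h2 := hN0 (n + N0) (Nat.le_add_left _ _)
    rw [hR1]
    linarith
  -- the half interval
  have hsub : Icc (b / 2) b ⊆ Icc 0 b := Icc_subset_Icc_left (by linarith)
  have hb2 : b / 2 ≤ b := by linarith
  have hflush : ∀ n, (∫ r in (b/2)..b, ∫ x, F.wP m lam x * ‖((js D (q (n + N0) r) : XS D) : L2c) x‖ ^ 2) ≤ W1 := by
    intro n
    have hdat := ap.dat (n + N0)
    have hsol := ap.sol (n + N0)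
    have hdat' : LprD D v (fun _ x => (lam : ℂ) * F.d x) (s1 (n + N0)) (fun _ => 0) (b / 2) b :=
      ⟨hdat.cv.mono hsub, fun t ht => hdat.rv t (hsub ht), fun t ht => hdat.bW t (hsub ht), hdat.cW.mono hsub,
        fun t ht => hdat.rW t (hsub ht), hdat.c1.mono hsub, fun t ht => hdat.r1 t (hsub ht), hdat.c2.mono hsub,
        fun t ht => hdat.r2 t (hsub ht)⟩
    have hsol' : Lpr D v (fun _ x => (lam : ℂ) * F.d x) (s1 (n + N0)) (fun _ => 0) (b / 2) b (q (n + N0)) :=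
      ⟨hsol.cq.mono hsub, fun φ s t hs hst ht => hsol.eq φ s t (le_trans (by linarith) hs) hst ht⟩
    have h1 := ke g4 (mu := mu) hexp hdat' hsol' (st.contA.mono hsub) (fun j => (st.contg j).mono hsub)
      (fun t ht => hAeq t ht) (fun t ht => hFC t (hsub ht))
      (fun t ht => ap.src (n + N0) t (hsub ht)) (fun t ht j => ⟨hw _ (ap.R1 _) j _, hw _ (ap.P1 _) j _⟩)
      (le_refl (b / 2)) hb2 (le_refl b)
    have h2 := hbd n (b / 2) (hsub ⟨le_rfl, hb2⟩)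
    have h3 : (∫ r in (b/2)..b, ‖js D (q (n + N0) r)‖ ^ 2) ≤ b * R1 := by
      have c1 : ContinuousOn (fun r => ‖js D (q (n + N0) r)‖ ^ 2) (Icc (b / 2) b) :=
        (((js D).continuous.comp_continuousOn hsol'.cq).norm.pow 2)
      have h4 := intervalIntegral.integral_mono_on (μ := volume) hb2 (c1.intervalIntegrable_of_Icc hb2)
        (intervalIntegrable_const (c := R1)) fun r hr => hbd n r (hsub hr)
      rw [intervalIntegral.integral_const, smul_eq_mul] at h4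
      refine h4.trans ?_
      have : b - b / 2 ≤ b := by linarith
      exact mul_le_mul_of_nonneg_right this hR10
    have h5 : Ce * m ^ 2 * (∫ r in (b/2)..b, ‖js D (q (n + N0) r)‖ ^ 2) ≤ Ce * R1 := by
      have h6 : Ce * (m:ℝ) ^ 2 * (∫ r in (b/2)..b, ‖js D (q (n + N0) r)‖ ^ 2) ≤ Ce * (m:ℝ) ^ 2 * (b * R1) :=
        mul_le_mul_of_nonneg_left h3 (by positivity)
      have h7 : Ce * (m:ℝ) ^ 2 * (b * R1) = Ce * R1 * ((m:ℝ) ^ 2 * b) := by ring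
      have h8 : Ce * R1 * ((m:ℝ) ^ 2 * b) ≤ Ce * R1 * 1 := mul_le_mul_of_nonneg_left hmb (by positivity)
      linarith
    have h9 := kw st hb1 hFB (s := b / 2) (t := b) (by linarith) hb2 le_rfl
    have h10 := mul_le_mul_of_nonneg_left h9 (show 0 ≤ Ce by linarith)
    rw [hW1]
    linarith
  -- the limit
  have hl0 : 0 ≤ lam := st.l0
  obtain ⟨cP, hP⟩ := F.wP_PwS m hl0
  obtain ⟨x, hx⟩ : ∃ x : ℝ → XS D, x = fun r => ⟨F.ov m A v mu p r, ov_mem st.m1 r⟩ := ⟨_, rfl⟩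
  have hxc : ∀ r, ((x r : XS D) : L2c) = F.ov m A v mu p r := fun r => by rw [hx]
  have cx : ContinuousOn x (Icc 0 b) := by
    refine Topology.IsInducing.subtypeVal.continuousOn_iff.2 ?_
    rw [hx]
    exact st.ov_cont
  have hlim := weight_lsc_int hP (xn := fun n r => js D (q (n + N0) r)) (x := x) (s := b / 2) (t := b)
    (Bd := √R1) hb2 (cx.mono hsub)
    (fun n => (js D).continuous.comp_continuousOn ((ap.sol (n + N0)).cq.mono hsub))
    (fun n r hr => Real.le_sqrt_of_sq_le (hbd n r (hsub hr)))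
    (fun r hr y => by
      have h1 := (tendsto_add_atTop_iff_nat N0).2 (ap.lim r (hsub hr) (y : L2c))
      rw [← hxc r] at h1
      exact h1) (R := W1) (Eventually.of_forall hflush)
  -- a good time
  have cf : ContinuousOn (fun r => ∫ y, F.wP m lam y * ‖((x r : XS D) : L2c) y‖ ^ 2) (Icc (b / 2) b) := by
    have c0 : ContinuousOn (fun r => (⟪mP D (F.wP m lam) (x r), x r⟫_ℂ).re) (Icc (b / 2) b) :=
      Complex.continuous_re.comp_continuousOn (ContinuousOn.inner (𝕜 := ℂ)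
        ((mP D (F.wP m lam)).continuous.comp_continuousOn (cx.mono hsub)) (cx.mono hsub))
    exact c0.congr fun r _ => (mP_re hP _).symm
  obtain ⟨t1, ht1, hmin⟩ := isCompact_Icc.exists_isMinOn ⟨b, hb2, le_rfl⟩ cf
  refine ⟨t1, ht1, ?_⟩
  have h1 := intervalIntegral.integral_mono_on (μ := volume) hb2
    (intervalIntegrable_const (c := ∫ y, F.wP m lam y * ‖((x t1 : XS D) : L2c) y‖ ^ 2))
    (cf.intervalIntegrable_of_Icc hb2) fun r hr => hmin hr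
  rw [intervalIntegral.integral_const, smul_eq_mul] at h1
  rw [← hxc t1]
  obtain ⟨f1, hf1⟩ : ∃ f1 : ℝ, f1 = ∫ y, F.wP m lam y * ‖((x t1 : XS D) : L2c) y‖ ^ 2 := ⟨_, rfl⟩
  rw [← hf1] at h1 ⊢
  have h2 : (b - b / 2) * f1 ≤ W1 := h1.trans hlim
  have h3 : b * (16 * (F.K : ℝ) ^ 2 * (m:ℝ) ^ 2) = 2 := by
    rw [hbe]
    field_simp
    norm_num
  have h4 : f1 ≤ 16 * (F.K : ℝ) ^ 2 * W1 * (m:ℝ) ^ 2 := by
    have h5 : 0 ≤ 16 * (F.K : ℝ) ^ 2 * (m:ℝ) ^ 2 := by positivity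
    have h6 := mul_le_mul_of_nonneg_right h2 h5
    have h7 : (b - b / 2) * f1 * (16 * (F.K : ℝ) ^ 2 * (m:ℝ) ^ 2) = f1 := by
      have : (b - b / 2) * f1 * (16 * (F.K : ℝ) ^ 2 * (m:ℝ) ^ 2) =
          (b * (16 * (F.K : ℝ) ^ 2 * (m:ℝ) ^ 2)) * f1 / 2 := by ring
      rw [this, h3]
      ring
    rw [h7] at h6
    linarith
  refine h4.trans ?_
  have h8 : 0 ≤ Ce * (m:ℝ) ^ 2 := by positivity
  linarith

end FD

end Pool.Agent.Lib.MP_79abb3_an.PD
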