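import Pool.Agent.Lib.MP_79abb3_an.PD.FhC
import Pool.Agent.Lib.MP_79abb3_an.PD.FgB

/-!
Theorem D, block F, flush: small sets.
-/

set_option autoImplicit false
set_option linter.unusedSectionVars false

open MeasureTheory Set Filter Topology Function
open scoped ENNReal InnerProductSpace ComplexConjugate

namespace Pool.Agent.Lib.MP_79abb3_an.PD

open Pool.Agent.Lib.MP_79abb3_an.SC Pool.Agent.Lib.MP_79abb3_an.P25

private theorem fhD_lim {S : ℕ → Set ℂ} (h1 : ∀ k, NullMeasurableSet (S k) volume) (h2 : Antitone S)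
    (h3 : ∀ k, volume (S k) ≠ ⊤) (h4 : volume (⋂ k, S k) = 0) {δ : ℝ} (hδ : 0 < δ) :
    ∃ k, (volume (S k)).toReal ≤ δ := by
  have h5 := tendsto_measure_iInter_atTop h1 h2 ⟨0, h3 0⟩
  rw [h4] at h5
  have h6 : ∀ᶠ k in atTop, (volume ∘ S) k < ENNReal.ofReal δ :=
    h5.eventually_lt_const (ENNReal.ofReal_pos.2 hδ)
  obtain ⟨k, hk⟩ := h6.exists
  refine ⟨k, ?_⟩
  have h7 := ENNReal.toReal_mono ENNReal.ofReal_ne_top hk.le
  rw [ENNReal.toReal_ofReal hδ.le] at h7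
  exact h7

private theorem fhD_anti {k l : ℕ} (h : k ≤ l) : 1 / ((l : ℝ) + 1) ≤ 1 / ((k : ℝ) + 1) := by
  have h1 : (k : ℝ) ≤ l := by exact_mod_cast h
  exact one_div_le_one_div_of_le (by positivity) (by linarith)

private theorem fhD_le {a : ℝ} (h : ∀ k : ℕ, a < 1 / ((k : ℝ) + 1)) : a ≤ 0 :=
  ge_of_tendsto' tendsto_one_div_add_atTop_nhds_zero_nat fun k => (h k).le

private theorem fhD_pt {lam E w n : ℝ} (hn : 0 ≤ n) (h : (0 < lam ∧ lam ≤ w) ∨ (0 < E ∧ E ≤ w))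
    (hl : 0 ≤ 1 / lam) (hE : 0 ≤ E⁻¹) : n ≤ (1 / lam + E⁻¹) * (w * n) := by
  rcases h with ⟨h1, h2⟩ | ⟨h1, h2⟩
  · have h3 : 0 ≤ w := h1.le.trans h2
    have h4 : 1 ≤ 1 / lam * w := by
      rw [one_div, inv_mul_eq_div, le_div_iff₀ h1, one_mul]
      exact h2
    have h5 : 0 ≤ E⁻¹ * w := mul_nonneg hE h3
    nlinarith
  · have h3 : 0 ≤ w := h1.le.trans h2
    have h4 : 1 ≤ E⁻¹ * w := by
      rw [inv_mul_eq_div, le_div_iff₀ h1, one_mul]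
      exact h2
    have h5 : 0 ≤ 1 / lam * w := mul_nonneg hl h3
    nlinarith

private theorem fhD_small {C ε η : ℝ} (hη : 0 < η) : ∃ m₂ : ℕ, ∀ m : ℕ, m₂ ≤ m → 1 ≤ m → ∀ K : ℝ, 1 ≤ K →
    ∀ {lam : ℝ}, Real.exp (C * m) ≤ lam → 1 ≤ C → 0 < ε →
    (1 / lam + ((m : ℝ) ^ 2 * Real.exp √(K * m) * ε ^ 2)⁻¹) * (C * m ^ 2) ≤ η := by
  have h1 : Tendsto (fun x : ℝ => x ^ 2 * Real.exp (-x)) atTop (𝓝 0) :=
    Real.tendsto_pow_mul_exp_neg_atTop_nhds_zero 2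
  have h2 : Tendsto (fun x : ℝ => Real.exp (-√x)) atTop (𝓝 0) :=
    Real.tendsto_exp_neg_atTop_nhds_zero.comp Real.tendsto_sqrt_atTop
  have h3 : Tendsto (fun m : ℕ => C * ((m : ℝ) ^ 2 * Real.exp (-m)) + C * (ε ^ 2)⁻¹ * Real.exp (-√(m : ℝ))) atTop
      (𝓝 (C * 0 + C * (ε ^ 2)⁻¹ * 0)) :=
    ((h1.comp tendsto_natCast_atTop_atTop).const_mul C).add
      ((h2.comp tendsto_natCast_atTop_atTop).const_mul _)
  rw [mul_zero, mul_zero, add_zero] at h3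
  obtain ⟨m₂, hm₂⟩ := eventually_atTop.1 (h3.eventually_lt_const hη)
  refine ⟨m₂, fun m hm hm1 K hK lam hlam hC hε => ?_⟩
  refine le_trans ?_ (hm₂ m hm).le
  have hm0 : (0 : ℝ) < m := by exact_mod_cast hm1
  have hC0 : 0 < C := by linarith
  have e1 : 1 / lam ≤ Real.exp (-m) := by
    rw [one_div, Real.exp_neg]
    refine inv_anti₀ (Real.exp_pos _) (le_trans (Real.exp_le_exp.2 ?_) hlam)
    nlinarith
  have e2 : (Real.exp √(K * m))⁻¹ ≤ Real.exp (-√(m : ℝ)) := by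
    rw [Real.exp_neg]
    refine inv_anti₀ (Real.exp_pos _) (Real.exp_le_exp.2 (Real.sqrt_le_sqrt ?_))
    nlinarith
  have e3 : (1 / lam + ((m : ℝ) ^ 2 * Real.exp √(K * m) * ε ^ 2)⁻¹) * (C * m ^ 2) =
      C * (m ^ 2 * (1 / lam)) + C * (ε ^ 2)⁻¹ * (Real.exp √(K * m))⁻¹ := by
    have := Real.exp_pos √(K * m)
    field_simp
  rw [e3]
  have e4 := mul_le_mul_of_nonneg_left e1 (show 0 ≤ (m : ℝ) ^ 2 by positivity)
  have e5 := mul_le_mul_of_nonneg_left e4 hC0.le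
  have e6 := mul_le_mul_of_nonneg_left e2 (show 0 ≤ C * (ε ^ 2)⁻¹ by positivity)
  linarith

namespace FD
variable {D : Set ℂ} (F : FD D)

/-- The sets where the flush does not act are small. `{y ∈ D, s2 ≤ dist, ‖gr h‖ < ε}` decreases to a finite set as `ε → 0` (`fin_zero`), the set
`{y ∈ D, s2 ≤ dist, h < 2 z*}` decreases to `∅` as `m → ∞` (`F.fl.pos`; `z* = √(K/m) → 0`); `tendsto_measure_iInter`-type theorem (`D` is bounded). -/
theorem small_sets {δ : ℝ} (hδ : 0 < δ) : ∃ (ε : ℝ) (m₀ : ℕ), 0 < ε ∧ 1 ≤ m₀ ∧ ∀ m : ℕ, m₀ ≤ m →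
    (volume {y | y ∈ D ∧ F.s2 ≤ dist y F.x ∧ (F.h y < 2 * F.zs m ∨ ‖gr F.h y‖ < ε)}).toReal ≤ δ := by
  have hcl : IsClosed {y : ℂ | F.s2 ≤ dist y F.x} :=
    isClosed_le continuous_const (continuous_id.dist continuous_const)
  have hfin : ∀ s : Set ℂ, s ⊆ D → volume s ≠ ⊤ := fun s hs =>
    ((measure_mono hs).trans_lt F.hD.bdd.measure_lt_top).ne
  have hpos : ∀ k : ℕ, (0 : ℝ) < 1 / ((k : ℝ) + 1) := fun k => by positivity
  -- the gradient is small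
  obtain ⟨k, hk⟩ : ∃ k : ℕ, (volume {y | y ∈ D ∧ F.s2 ≤ dist y F.x ∧
      ‖gr F.h y‖ < 1 / ((k : ℝ) + 1)}).toReal ≤ δ / 2 := by
    refine fhD_lim (fun k => ?_) (fun k l hkl => ?_) (fun k => hfin _ fun y hy => hy.1) ?_ (half_pos hδ)
    · have h1 : IsOpen (D ∩ {y | ‖gr F.h y‖ < 1 / ((k : ℝ) + 1)}) :=
        ((gr_smoothOn F.hD.op F.fl.smooth).continuousOn.norm).isOpen_inter_preimage F.hD.op isOpen_Iio
      have h2 : {y | y ∈ D ∧ F.s2 ≤ dist y F.x ∧ ‖gr F.h y‖ < 1 / ((k : ℝ) + 1)} =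
          (D ∩ {y | ‖gr F.h y‖ < 1 / ((k : ℝ) + 1)}) ∩ {y : ℂ | F.s2 ≤ dist y F.x} := by
        ext y
        constructor
        · rintro ⟨a, b, c⟩
          exact ⟨⟨a, c⟩, b⟩
        · rintro ⟨⟨a, c⟩, b⟩
          exact ⟨a, b, c⟩
      rw [h2]
      exact (h1.measurableSet.inter hcl.measurableSet).nullMeasurableSet
    · rintro y ⟨a, b, c⟩
      exact ⟨a, b, c.trans_le (fhD_anti hkl)⟩
    · refine measure_mono_null ?_ ((F.fl.fin_zero F.hD (F.h1.trans F.h2)).measure_zero volume)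
      intro y hy
      rw [mem_iInter] at hy
      refine ⟨(hy 0).1, (hy 0).2.1, ?_⟩
      exact norm_le_zero_iff.1 (fhD_le fun k => (hy k).2.2)
  -- the height is small
  obtain ⟨l, hl⟩ : ∃ l : ℕ, (volume {y | y ∈ D ∧ F.s2 ≤ dist y F.x ∧
      F.h y < 1 / ((l : ℝ) + 1)}).toReal ≤ δ / 2 := by
    refine fhD_lim (fun k => ?_) (fun k l hkl => ?_) (fun k => hfin _ fun y hy => hy.1) ?_ (half_pos hδ)
    · exact (F.hD.op.measurableSet.inter (hcl.measurableSet.inter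
        (isOpen_lt F.fl.cont continuous_const).measurableSet)).nullMeasurableSet
    · rintro y ⟨a, b, c⟩
      exact ⟨a, b, c.trans_le (fhD_anti hkl)⟩
    · refine measure_mono_null (fun y hy => ?_) (measure_empty (μ := volume) (α := ℂ))
      rw [mem_iInter] at hy
      have h1 : F.h y ≤ 0 := fhD_le fun k => (hy k).2.2
      refine absurd (F.fl.pos y ⟨(hy 0).1, fun h => ?_⟩) (not_lt.2 h1)
      have h2 := (hy 0).2.1
      rw [Metric.mem_closedBall] at h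
      linarith [F.h1, F.h2]
  refine ⟨1 / ((k : ℝ) + 1), max 1 (F.K * (2 * (l + 1)) ^ 2), hpos k, le_max_left _ _, fun m hm => ?_⟩
  have hm1 : 1 ≤ m := (le_max_left _ _).trans hm
  have hm0 : (0 : ℝ) < m := by exact_mod_cast hm1
  have hz : 2 * F.zs m ≤ 1 / ((l : ℝ) + 1) := by
    have h1 : ((F.K * (2 * (l + 1)) ^ 2 : ℕ) : ℝ) ≤ m := by
      exact_mod_cast (le_max_right _ _).trans hm
    have h2 : F.zs m ≤ 1 / (2 * ((l : ℝ) + 1)) := by
      unfold zs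
      rw [Real.sqrt_le_left (by positivity), div_pow, one_pow, div_le_div_iff₀ hm0 (by positivity), one_mul]
      push_cast at h1
      exact h1
    have h3 : 2 * (1 / (2 * ((l : ℝ) + 1))) = 1 / ((l : ℝ) + 1) := by
      field_simp
    linarith
  have hsub : {y | y ∈ D ∧ F.s2 ≤ dist y F.x ∧ (F.h y < 2 * F.zs m ∨ ‖gr F.h y‖ < 1 / ((k : ℝ) + 1))} ⊆
      {y | y ∈ D ∧ F.s2 ≤ dist y F.x ∧ ‖gr F.h y‖ < 1 / ((k : ℝ) + 1)} ∪
        {y | y ∈ D ∧ F.s2 ≤ dist y F.x ∧ F.h y < 1 / ((l : ℝ) + 1)} := by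
    rintro y ⟨a, b, c | c⟩
    · exact Or.inr ⟨a, b, c.trans_le hz⟩
    · exact Or.inl ⟨a, b, c⟩
  refine (ENNReal.toReal_mono ?_ ((measure_mono hsub).trans (measure_union_le _ _))).trans ?_
  · exact ENNReal.add_ne_top.2 ⟨hfin _ fun y hy => hy.1, hfin _ fun y hy => hy.1⟩
  · rw [ENNReal.toReal_add (hfin _ fun y hy => hy.1) (hfin _ fun y hy => hy.1)]
    linarith

/-- `S` as in `small_sets`; off `S`, `|o|² ≤ bl |o|² + (m² e^{√(K m)} ε²)⁻¹ rho |o|²`, `lam ≥ e^{C m}`, `C ≥ 1`. -/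
theorem sz_small {R C δ : ℝ} (hR : 0 ≤ R) (hC : 1 ≤ C) (hδ : 0 < δ) : ∃ m₀ : ℕ, 1 ≤ m₀ ∧ ∀ m : ℕ, m₀ ≤ m →
    ∀ {lam : ℝ} (_ : Real.exp (C * m) ≤ lam) {o : L2c} (_ : o ∈ XS D) (_ : ‖o‖ ≤ R)
    (_ : ∫ x, F.wP m lam x * ‖(o : ℂ → ℂ) x‖ ^ 2 ≤ C * m ^ 2),
    ∃ S : Set ℂ, MeasurableSet S ∧ S ⊆ D ∧ sz S o ≤ δ := by
  obtain ⟨ε, m₁, hε, hm₁, hsm⟩ := F.small_sets (δ := (δ / (2 * (R + 1))) ^ 4) (by positivity)
  obtain ⟨m₂, hm₂⟩ := fhD_small (C := C) (ε := ε) (η := (δ / 2) ^ 2) (by positivity)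
  refine ⟨max m₁ m₂, hm₁.trans (le_max_left _ _), fun m hm lam hlam o hoX hoR hint => ?_⟩
  have hm1 : 1 ≤ m := hm₁.trans ((le_max_left _ _).trans hm)
  have hm0 : (0 : ℝ) < m := by exact_mod_cast hm1
  have hl0 : 0 < lam := (Real.exp_pos _).trans_le hlam
  have hK1 : (1 : ℝ) ≤ F.K := by exact_mod_cast F.K1
  have hSmeas : MeasurableSet {y | y ∈ D ∧ F.s2 ≤ dist y F.x ∧ (F.h y < 2 * F.zs m ∨ ‖gr F.h y‖ < ε)} := by
    have hcl : IsClosed {y : ℂ | F.s2 ≤ dist y F.x} :=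
      isClosed_le continuous_const (continuous_id.dist continuous_const)
    have h1 : IsOpen (D ∩ {y | ‖gr F.h y‖ < ε}) :=
      ((gr_smoothOn F.hD.op F.fl.smooth).continuousOn.norm).isOpen_inter_preimage F.hD.op isOpen_Iio
    have h2 : {y | y ∈ D ∧ F.s2 ≤ dist y F.x ∧ (F.h y < 2 * F.zs m ∨ ‖gr F.h y‖ < ε)} =
        (D ∩ ({y : ℂ | F.s2 ≤ dist y F.x} ∩ {y | F.h y < 2 * F.zs m})) ∪
          ((D ∩ {y | ‖gr F.h y‖ < ε}) ∩ {y : ℂ | F.s2 ≤ dist y F.x}) := by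
      ext y
      constructor
      · rintro ⟨a, b, c | c⟩
        · exact Or.inl ⟨a, b, c⟩
        · exact Or.inr ⟨⟨a, c⟩, b⟩
      · rintro (⟨a, b, c⟩ | ⟨⟨a, c⟩, b⟩)
        · exact ⟨a, b, Or.inl c⟩
        · exact ⟨a, b, Or.inr c⟩
    rw [h2]
    exact (F.hD.op.measurableSet.inter (hcl.measurableSet.inter
      (isOpen_lt F.fl.cont continuous_const).measurableSet)).union (h1.measurableSet.inter hcl.measurableSet)
  refine ⟨{y | y ∈ D ∧ F.s2 ≤ dist y F.x ∧ (F.h y < 2 * F.zs m ∨ ‖gr F.h y‖ < ε)}, hSmeas,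
    fun y hy => hy.1, ?_⟩
  · set S : Set ℂ := {y | y ∈ D ∧ F.s2 ≤ dist y F.x ∧ (F.h y < 2 * F.zs m ∨ ‖gr F.h y‖ < ε)} with hS
    have hvol : (volume S).toReal ≤ (δ / (2 * (R + 1))) ^ 4 := hsm m ((le_max_left _ _).trans hm)
    have hE : 0 < (m : ℝ) ^ 2 * Real.exp √((F.K : ℝ) * m) * ε ^ 2 := by positivity
    -- the pointwise bound
    have hpt : ∀ᵐ x ∂(volume.restrict Sᶜ), ‖(o : ℂ → ℂ) x‖ ^ 2 ≤
        (1 / lam + ((m : ℝ) ^ 2 * Real.exp √((F.K : ℝ) * m) * ε ^ 2)⁻¹) *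
          (F.wP m lam x * ‖(o : ℂ → ℂ) x‖ ^ 2) := by
      have h1 := (mem_XS_iff D F.hD.op o).1 hoX
      have hSm : ∀ᵐ x ∂(volume.restrict Sᶜ), x ∉ D → (o : ℂ → ℂ) x = 0 := ae_restrict_of_ae h1
      have hSmem : ∀ᵐ x ∂(volume.restrict Sᶜ), x ∈ Sᶜ := by
        exact ae_restrict_mem hSmeas.compl
      filter_upwards [hSm, hSmem] with x hx hxS
      by_cases hxD : x ∈ D
      · by_cases hxd : F.s2 ≤ dist x F.x
        · have hx2 : ¬(F.h x < 2 * F.zs m ∨ ‖gr F.h x‖ < ε) := fun h => hxS ⟨hxD, hxd, h⟩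
          rw [not_or, not_lt, not_lt] at hx2
          have hr : F.rho m x = (m : ℝ) ^ 2 * Real.exp √((F.K : ℝ) * m) * ‖gr F.h x‖ ^ 2 :=
            Set.indicator_of_mem (show x ∈ F.R0 m from ⟨hxD, hxd, hx2.1⟩) _
          have hb : 0 ≤ F.bl x := Set.indicator_nonneg (fun _ _ => zero_le_one) x
          have hg : ε ^ 2 ≤ ‖gr F.h x‖ ^ 2 := pow_le_pow_left₀ hε.le hx2.2 2
          have hw : (m : ℝ) ^ 2 * Real.exp √((F.K : ℝ) * m) * ε ^ 2 ≤ F.wP m lam x := by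
            unfold wP
            rw [hr]
            have h3 : 0 ≤ lam * F.bl x := mul_nonneg hl0.le hb
            have h4 : (m : ℝ) ^ 2 * Real.exp √((F.K : ℝ) * m) * ε ^ 2 ≤
                (m : ℝ) ^ 2 * Real.exp √((F.K : ℝ) * m) * ‖gr F.h x‖ ^ 2 :=
              mul_le_mul_of_nonneg_left hg (by positivity)
            linarith
          exact fhD_pt (sq_nonneg _) (Or.inr ⟨hE, hw⟩) (by positivity) (by positivity)
        · have hb : F.bl x = 1 := by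
            unfold bl
            rw [Set.indicator_of_mem (Metric.mem_closedBall.2 (not_le.1 hxd).le)]
          have hr : 0 ≤ F.rho m x := Set.indicator_nonneg (fun _ _ => by positivity) x
          have hw : lam ≤ F.wP m lam x := by
            unfold wP
            rw [hb]
            linarith
          exact fhD_pt (sq_nonneg _) (Or.inl ⟨hl0, hw⟩) (by positivity) (by positivity)
      · rw [hx hxD]
        simp
    obtain ⟨c, hc⟩ := F.wP_PwS m hl0.le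
    have hi : Integrable fun x => ‖(o : ℂ → ℂ) x‖ ^ 2 := (Lp.memLp o).norm.integrable_sq
    have hiw : Integrable fun x => F.wP m lam x * ‖(o : ℂ → ℂ) x‖ ^ 2 :=
      hi.bdd_mul hc.m (Filter.Eventually.of_forall fun x => by
        rw [Real.norm_eq_abs, abs_of_nonneg (hc.p0 x)]
        exact hc.p1 x)
    have h5 : ∫ x in Sᶜ, ‖(o : ℂ → ℂ) x‖ ^ 2 ≤ (δ / 2) ^ 2 := by
      calc ∫ x in Sᶜ, ‖(o : ℂ → ℂ) x‖ ^ 2
          ≤ ∫ x in Sᶜ, (1 / lam + ((m : ℝ) ^ 2 * Real.exp √((F.K : ℝ) * m) * ε ^ 2)⁻¹) *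
            (F.wP m lam x * ‖(o : ℂ → ℂ) x‖ ^ 2) :=
            integral_mono_ae hi.integrableOn (hiw.const_mul _).integrableOn hpt
        _ ≤ ∫ x, (1 / lam + ((m : ℝ) ^ 2 * Real.exp √((F.K : ℝ) * m) * ε ^ 2)⁻¹) *
            (F.wP m lam x * ‖(o : ℂ → ℂ) x‖ ^ 2) := by
            refine setIntegral_le_integral (hiw.const_mul _) (Filter.Eventually.of_forall fun x => ?_)
            have := mul_nonneg (hc.p0 x) (sq_nonneg ‖(o : ℂ → ℂ) x‖)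
            show 0 ≤ (1 / lam + ((m : ℝ) ^ 2 * Real.exp √((F.K : ℝ) * m) * ε ^ 2)⁻¹) *
              (F.wP m lam x * ‖(o : ℂ → ℂ) x‖ ^ 2)
            positivity
        _ = (1 / lam + ((m : ℝ) ^ 2 * Real.exp √((F.K : ℝ) * m) * ε ^ 2)⁻¹) *
            ∫ x, (F.wP m lam x * ‖(o : ℂ → ℂ) x‖ ^ 2) := integral_const_mul _ _
        _ ≤ (1 / lam + ((m : ℝ) ^ 2 * Real.exp √((F.K : ℝ) * m) * ε ^ 2)⁻¹) * (C * m ^ 2) :=
            mul_le_mul_of_nonneg_left hint (by positivity)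
        _ ≤ (δ / 2) ^ 2 := hm₂ m ((le_max_right _ _).trans hm) hm1 F.K hK1 hlam hC hε
    have h6 : √(∫ x in Sᶜ, ‖(o : ℂ → ℂ) x‖ ^ 2) ≤ δ / 2 := by
      rw [Real.sqrt_le_left (by positivity)]
      exact h5
    have h7 : ‖o‖ * (volume S).toReal ^ (1 / 4 : ℝ) ≤ δ / 2 := by
      have h8 : (volume S).toReal ^ (1 / 4 : ℝ) ≤ δ / (2 * (R + 1)) := by
        calc (volume S).toReal ^ (1 / 4 : ℝ) ≤ ((δ / (2 * (R + 1))) ^ 4) ^ (1 / 4 : ℝ) :=
              Real.rpow_le_rpow ENNReal.toReal_nonneg hvol (by norm_num)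
          _ = δ / (2 * (R + 1)) := by
              rw [← Real.rpow_natCast, ← Real.rpow_mul (by positivity)]
              norm_num
      calc ‖o‖ * (volume S).toReal ^ (1 / 4 : ℝ) ≤ R * (δ / (2 * (R + 1))) :=
            mul_le_mul hoR h8 (by positivity) hR
        _ ≤ (R + 1) * (δ / (2 * (R + 1))) := mul_le_mul_of_nonneg_right (by linarith) (by positivity)
        _ = δ / 2 := by field_simp
    unfold sz
    linarith

end FD

end Pool.Agent.Lib.MP_79abb3_an.PD
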