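import Pool.Agent.Lib.MP_79abb3_an.PD.SpDa2
import Pool.Agent.Lib.MP_79abb3_an.PD.AbNdc
import Pool.Agent.Lib.MP_79abb3_an.PD.AbNc

/-!
Theorem D, block S: the nonlinearity `-ω u^⊥ = (ω u₂, -ω u₁)` of the Navier-Stokes equations of `D`.
-/

set_option autoImplicit false
set_option linter.unusedSectionVars false

open MeasureTheory Set Filter Topology Function
open scoped ENNReal InnerProductSpace ComplexConjugate

namespace Pool.Agent.Lib.MP_79abb3_an.PD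

open Pool.Agent.Lib.MP_79abb3_an.SC

private theorem h442 : ENNReal.HolderTriple 4 4 2 := by
  constructor
  rw [← two_mul]
  rw [show (4 : ℝ≥0∞) = 2 * 2 by norm_num, ENNReal.mul_inv (by norm_num) (by norm_num), ← mul_assoc,
    ENNReal.mul_inv_cancel (by norm_num) (by norm_num), one_mul]

private theorem h221 : ENNReal.HolderTriple 2 2 1 := inferInstance

private theorem tri_aux {a b w : ℂ → ℂ} (ha : MemLp a 4 (volume : Measure ℂ)) (hb : MemLp b 4 (volume : Measure ℂ))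
    (hw : MemLp w 2 (volume : Measure ℂ)) :
    Integrable (fun x => conj (a x) * (w x * b x)) (volume : Measure ℂ) ∧
    ‖∫ x, conj (a x) * (w x * b x)‖ ≤ (eLpNorm a 4 volume).toReal * (eLpNorm w 2 volume).toReal *
      (eLpNorm b 4 volume).toReal := by
  have := h442
  have ha' : MemLp (fun x => conj (a x)) 4 (volume : Measure ℂ) := by
    refine ha.of_le ?_ ?_
    · exact (Complex.continuous_conj.comp_aestronglyMeasurable ha.1)
    · exact ae_of_all _ fun x => by rw [RCLike.norm_conj]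
  have h1 : MemLp (fun x => conj (a x) * b x) 2 (volume : Measure ℂ) := MemLp.mul' hb ha'
  have h2 : MemLp (fun x => (conj (a x) * b x) * w x) 1 (volume : Measure ℂ) := MemLp.mul' hw h1
  have e : (fun x => (conj (a x) * b x) * w x) = fun x => conj (a x) * (w x * b x) := by
    funext x; ring
  rw [e] at h2
  refine ⟨memLp_one_iff_integrable.1 h2, ?_⟩
  have n1 : eLpNorm (fun x => conj (a x) * b x) 2 (volume : Measure ℂ) ≤ eLpNorm a 4 volume * eLpNorm b 4 volume := by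
    have := eLpNorm_smul_le_mul_eLpNorm (p := 4) (q := 4) (r := 2) (μ := (volume : Measure ℂ)) hb.1 ha'.1
    refine le_trans (le_of_eq ?_) (this.trans (le_of_eq ?_))
    · rfl
    · congr 1
      exact eLpNorm_congr_norm_ae (ae_of_all _ fun x => by rw [RCLike.norm_conj])
  have n2 : eLpNorm (fun x => conj (a x) * (w x * b x)) 1 (volume : Measure ℂ) ≤
      eLpNorm a 4 volume * eLpNorm b 4 volume * eLpNorm w 2 volume := by
    have := eLpNorm_smul_le_mul_eLpNorm (p := 2) (q := 2) (r := 1) (μ := (volume : Measure ℂ)) hw.1 h1.1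
    rw [← e]
    refine le_trans (le_of_eq rfl) (this.trans ?_)
    gcongr
  have n3 : ‖∫ x, conj (a x) * (w x * b x)‖ ≤ (eLpNorm (fun x => conj (a x) * (w x * b x)) 1 (volume : Measure ℂ)).toReal := by
    rw [eLpNorm_one_eq_lintegral_enorm, ← integral_norm_eq_lintegral_enorm h2.1]
    exact norm_integral_le_integral_norm _
  refine n3.trans ((ENNReal.toReal_mono ?_ n2).trans (le_of_eq ?_))
  · exact ENNReal.mul_ne_top (ENNReal.mul_ne_top ha.2.ne hb.2.ne) hw.2.ne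
  · rw [ENNReal.toReal_mul, ENNReal.toReal_mul]; ring

private noncomputable def tr (a : L4c) (w : L2c) (b : L4c) : ℂ :=
  ∫ x, conj ((a : ℂ → ℂ) x) * ((w : ℂ → ℂ) x * (b : ℂ → ℂ) x)

private theorem tr_int (a : L4c) (w : L2c) (b : L4c) :
    Integrable (fun x => conj ((a : ℂ → ℂ) x) * ((w : ℂ → ℂ) x * (b : ℂ → ℂ) x)) (volume : Measure ℂ) :=
  (tri_aux (Lp.memLp a) (Lp.memLp b) (Lp.memLp w)).1

private theorem tr_norm (a : L4c) (w : L2c) (b : L4c) : ‖tr a w b‖ ≤ ‖a‖ * ‖w‖ * ‖b‖ := by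
  have := (tri_aux (Lp.memLp a) (Lp.memLp b) (Lp.memLp w)).2
  rwa [← Lp.norm_def, ← Lp.norm_def, ← Lp.norm_def] at this

private theorem tr_add1 (a a' : L4c) (w : L2c) (b : L4c) : tr (a + a') w b = tr a w b + tr a' w b := by
  unfold tr
  rw [← integral_add (tr_int a w b) (tr_int a' w b)]
  refine integral_congr_ae ?_
  filter_upwards [Lp.coeFn_add a a'] with x hx
  rw [hx, Pi.add_apply, map_add, add_mul]

private theorem tr_smul1 (c : ℂ) (a : L4c) (w : L2c) (b : L4c) : tr (c • a) w b = conj c * tr a w b := by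
  unfold tr
  rw [← integral_const_mul]
  refine integral_congr_ae ?_
  filter_upwards [Lp.coeFn_smul c a] with x hx
  rw [hx, Pi.smul_apply, smul_eq_mul, map_mul, mul_assoc]

private theorem tr_add2 (a : L4c) (w w' : L2c) (b : L4c) : tr a (w + w') b = tr a w b + tr a w' b := by
  unfold tr
  rw [← integral_add (tr_int a w b) (tr_int a w' b)]
  refine integral_congr_ae ?_
  filter_upwards [Lp.coeFn_add w w'] with x hx
  rw [hx, Pi.add_apply, add_mul, mul_add]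

private theorem tr_smul2 (c : ℂ) (a : L4c) (w : L2c) (b : L4c) : tr a (c • w) b = c * tr a w b := by
  unfold tr
  rw [← integral_const_mul]
  refine integral_congr_ae ?_
  filter_upwards [Lp.coeFn_smul c w] with x hx
  rw [hx, Pi.smul_apply, smul_eq_mul]; ring

private theorem tr_add3 (a : L4c) (w : L2c) (b b' : L4c) : tr a w (b + b') = tr a w b + tr a w b' := by
  unfold tr
  rw [← integral_add (tr_int a w b) (tr_int a w b')]
  refine integral_congr_ae ?_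
  filter_upwards [Lp.coeFn_add b b'] with x hx
  rw [hx, Pi.add_apply, mul_add, mul_add]

private theorem tr_smul3 (c : ℂ) (a : L4c) (w : L2c) (b : L4c) : tr a w (c • b) = c * tr a w b := by
  unfold tr
  rw [← integral_const_mul]
  refine integral_congr_ae ?_
  filter_upwards [Lp.coeFn_smul c b] with x hx
  rw [hx, Pi.smul_apply, smul_eq_mul]; ring

private noncomputable def nl1 (u : L4c × L4c) (w : L2c) : Yd (L4c × L4c) :=
  LinearMap.mkContinuous
    { toFun := fun z => tr z.1 w u.2 - tr z.2 w u.1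
      map_add' := fun z z' => by
        rw [Prod.fst_add, Prod.snd_add, tr_add1, tr_add1]; ring
      map_smul' := fun c z => by
        rw [Prod.smul_fst, Prod.smul_snd, tr_smul1, tr_smul1, smul_eq_mul]; ring } (2 * ‖u‖ * ‖w‖) (fun z => by
      show ‖tr z.1 w u.2 - tr z.2 w u.1‖ ≤ _
      have h1 := tr_norm z.1 w u.2
      have h2 := tr_norm z.2 w u.1
      have e1 : ‖z.1‖ * ‖w‖ * ‖u.2‖ ≤ ‖z‖ * ‖w‖ * ‖u‖ := by
        gcongr
        · exact norm_fst_le z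
        · exact norm_snd_le u
      have e2 : ‖z.2‖ * ‖w‖ * ‖u.1‖ ≤ ‖z‖ * ‖w‖ * ‖u‖ := by
        gcongr
        · exact norm_snd_le z
        · exact norm_fst_le u
      have := norm_sub_le (tr z.1 w u.2) (tr z.2 w u.1)
      nlinarith)

private theorem nl1_apply (u : L4c × L4c) (w : L2c) (z : L4c × L4c) :
    nl1 u w z = tr z.1 w u.2 - tr z.2 w u.1 := rfl

private noncomputable def nl2 : (L4c × L4c) →ₗ[ℂ] L2c →ₗ[ℂ] Yd (L4c × L4c) :=
  LinearMap.mk₂ ℂ nl1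
    (fun u u' w => by
      ext z
      show nl1 (u + u') w z = nl1 u w z + nl1 u' w z
      rw [nl1_apply, nl1_apply, nl1_apply, Prod.snd_add, Prod.fst_add, tr_add3, tr_add3]; ring)
    (fun c u w => by
      ext z
      show nl1 (c • u) w z = c * nl1 u w z
      rw [nl1_apply, nl1_apply, Prod.smul_snd, Prod.smul_fst, tr_smul3, tr_smul3]; ring)
    (fun u w w' => by
      ext z
      show nl1 u (w + w') z = nl1 u w z + nl1 u w' z
      rw [nl1_apply, nl1_apply, nl1_apply, tr_add2, tr_add2]; ring)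
    (fun c u w => by
      ext z
      show nl1 u (c • w) z = c * nl1 u w z
      rw [nl1_apply, nl1_apply, tr_smul2, tr_smul2]; ring)

private theorem nl1_norm (u : L4c × L4c) (w : L2c) : ‖nl1 u w‖ ≤ 2 * ‖u‖ * ‖w‖ :=
  LinearMap.mkContinuous_norm_le _ (by positivity) _

/-- The trilinear form. Proof: Hölder `L⁴ L² L⁴` (`MemLp`-products, `ENNReal.HolderTriple`), e.g. with
`LinearMap.mkContinuous₂` and `‖∫ conj w ω u‖ ≤ ‖w‖₄ ‖ω‖₂ ‖u‖₄`. -/
theorem exists_NL : ∃ NL : (L4c × L4c) →L[ℂ] L2c →L[ℂ] Yd (L4c × L4c),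
    (∀ u ω w, NL u ω w = ∫ x, (conj ((w.1 : ℂ → ℂ) x) * ((ω : ℂ → ℂ) x * (u.2 : ℂ → ℂ) x) -
      conj ((w.2 : ℂ → ℂ) x) * ((ω : ℂ → ℂ) x * (u.1 : ℂ → ℂ) x))) ∧
    ∀ u ω, ‖NL u ω‖ ≤ 2 * ‖u‖ * ‖ω‖ := by
  refine ⟨LinearMap.mkContinuous₂ nl2 2 nl1_norm, fun u ω w => ?_, fun u ω => nl1_norm u ω⟩
  rw [integral_sub (tr_int w.1 ω u.2) (tr_int w.2 ω u.1)]
  rfl

/-- `⟨NL u ω, w⟩ = ∫ conj w · (ω u₂, -ω u₁)` -/
noncomputable def NL : (L4c × L4c) →L[ℂ] L2c →L[ℂ] Yd (L4c × L4c) := exists_NL.choose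

theorem NL_apply (u : L4c × L4c) (ω : L2c) (w : L4c × L4c) : NL u ω w =
    ∫ x, (conj ((w.1 : ℂ → ℂ) x) * ((ω : ℂ → ℂ) x * (u.2 : ℂ → ℂ) x) -
      conj ((w.2 : ℂ → ℂ) x) * ((ω : ℂ → ℂ) x * (u.1 : ℂ → ℂ) x)) := exists_NL.choose_spec.1 u ω w

theorem NL_norm (u : L4c × L4c) (ω : L2c) : ‖NL u ω‖ ≤ 2 * ‖u‖ * ‖ω‖ := exists_NL.choose_spec.2 u ω

/-- `⟨NL u ω, u⟩ = 0` for real `u`. -/
theorem NL_self {u : L4c × L4c} (hu : cZ4 u = u) (ω : L2c) : NL u ω u = 0 := by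
  have h1 : cL4 u.1 = u.1 := congrArg Prod.fst hu
  have h2 : cL4 u.2 = u.2 := congrArg Prod.snd hu
  have e1 := cL4_coe u.1
  have e2 := cL4_coe u.2
  rw [h1] at e1
  rw [h2] at e2
  rw [NL_apply]
  refine integral_eq_zero_of_ae ?_
  filter_upwards [e1, e2] with x hx1 hx2
  rw [← hx1, ← hx2, Pi.zero_apply]
  ring

theorem NL_conj (u : L4c × L4c) (ω : L2c) : cY cZ4 cZ4_anti (NL u ω) = NL (cZ4 u) (cL2 ω) := by
  ext w
  show conj (NL u ω (cZ4 w)) = NL (cZ4 u) (cL2 ω) w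
  rw [NL_apply, NL_apply, ← integral_conj]
  refine integral_congr_ae ?_
  have e1 := cL4_coe u.1
  have e2 := cL4_coe u.2
  have e3 := cL2_coe ω
  have e4 := cL4_coe w.1
  have e5 := cL4_coe w.2
  filter_upwards [e1, e2, e3, e4, e5] with x h1 h2 h3 h4 h5
  show conj (conj ((cL4 w.1 : ℂ → ℂ) x) * ((ω : ℂ → ℂ) x * (u.2 : ℂ → ℂ) x) -
      conj ((cL4 w.2 : ℂ → ℂ) x) * ((ω : ℂ → ℂ) x * (u.1 : ℂ → ℂ) x)) =
    conj ((w.1 : ℂ → ℂ) x) * ((cL2 ω : ℂ → ℂ) x * (cL4 u.2 : ℂ → ℂ) x) -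
      conj ((w.2 : ℂ → ℂ) x) * ((cL2 ω : ℂ → ℂ) x * (cL4 u.1 : ℂ → ℂ) x)
  rw [h1, h2, h3, h4, h5]
  simp only [map_sub, map_mul, Complex.conj_conj]

section
variable (D : Set ℂ)

/-- The nonlinearity in the variable `x` (`u = K^{1/2} x`, `ω = Q x`). -/
noncomputable def ND : XD D →L[ℂ] XD D →L[ℂ] Yd (L4c × L4c) :=
  NL.bilinearComp ((jj D).comp (Qv (iot D))) ((VD D).subtypeL.comp (Qv (iot D)))

theorem ND_apply (x y : XD D) : ND D x y = NL (jj D (Qv (iot D) x)) ((Qv (iot D) y : VD D) : L2c) := rfl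

/-- the force functionals of `D` -/
noncomputable abbrev JD : Yd (L4c × L4c) →L[ℂ] XD D := J3 (iot D) (jj D)

variable {D} (hD : Bornology.IsBounded D)
include hD

/-- Proof: `exists_Lad`, `Lad.pair_J3`, `AS_J3`, `Kh_AS_J3`, `norm_j`, `NL_norm`, `KD_nonneg`, `KD_inj` (a common constant). -/
theorem exists_NSA : ∃ C, NSA (KD D) (JD D) (ND D) C := by
  obtain ⟨C, h⟩ := exists_Lad hD
  have hC := h.C0
  have hle : C ≤ 2 * C := by linarith
  refine ⟨2 * C, KD_nonneg hD, KD_inj hD, by linarith, fun x y => ?_, fun τ hτ y => ?_, fun τ hτ y => ?_,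
    fun x y => ?_⟩
  · refine (h.pair_J3 x y).trans ?_
    rw [KD_eq]
    gcongr
  · refine (h.AS_J3 hτ y).trans ?_
    gcongr
  · refine (h.Kh_AS_J3 hτ y).trans ?_
    gcongr
  · rw [ND_apply]
    have h1 := NL_norm (jj D (Qv (iot D) x)) ((Qv (iot D) y : VD D) : L2c)
    have h2 := h.norm_j x
    have h3 : ‖((Qv (iot D) y : VD D) : L2c)‖ = ‖y‖ := (fdom hD).norm_Qv y
    rw [h3] at h1
    rw [KD_eq]
    calc _ ≤ 2 * ‖jj D (Qv (iot D) x)‖ * ‖y‖ := h1
      _ ≤ 2 * (C * √(‖Kh (KF (iot D)) x‖ * ‖x‖)) * ‖y‖ := by gcongr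
      _ = _ := by ring

/-- Proof: `FCj_D`, `FCj.K`, `FCj.J3`, `FCj.Qv`, `NL_conj`, `NL_self`, `inner_J3`. -/
theorem NSR_D : NSR (KD D) (JD D) (ND D) (cXD D) (cY cZ4 cZ4_anti) := by
  have h := FCj_D hD
  have hd := fdom hD
  have key : ∀ x : XD D, cZ4 (jj D (Qv (iot D) x)) = jj D (Qv (iot D) (cXD D x)) := fun x =>
    (h.j (Qv (iot D) x)).trans (congrArg (jj D) (h.Qv hd x))
  refine ⟨h.X, h.K hd, h.J3 hd, fun x y => ?_, fun x y hx _ => ?_⟩
  · show cY cZ4 cZ4_anti (NL (jj D (Qv (iot D) x)) ((Qv (iot D) y : VD D) : L2c)) =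
      NL (jj D (Qv (iot D) (cXD D x))) ((Qv (iot D) (cXD D y) : VD D) : L2c)
    exact (NL_conj _ _).trans (congrArg₂ (fun u ω => NL u ω) (key x)
      (congrArg Subtype.val (h.Qv hd y)))
  · have e : ⟪x, JD D (ND D x y)⟫_ℂ = ND D x y (jj D (Qv (iot D) x)) := inner_J3 x _
    rw [e, ND_apply, NL_self, Complex.zero_re]
    exact (key x).trans (congrArg (fun z => jj D (Qv (iot D) z)) hx)

private theorem pair_aux {N : Yd (L4c × L4c)} {q : XD D} {ψ : Adm D} (hq : Qv (iot D) q = cuV D ψ) (u x : XD D) :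
    ⟪q, JD D N + Kh (KD D) u - x⟫_ℂ =
      -⟪cuV D ψ, Qv (iot D) x⟫_ℂ + N (jj D (cuV D ψ)) + ⟪gpX D ψ, u⟫_ℂ := by
  have hd := fdom hD
  have e1 : ⟪q, JD D N⟫_ℂ = N (jj D (Qv (iot D) q)) := inner_J3 q _
  have e2 : ⟪q, Kh (KD D) u⟫_ℂ = ⟪gpX D ψ, u⟫_ℂ := by
    rw [← Kh_inner, KD_eq, ← hd.ι_Qv, hq, iot_cuV hD]
  have e3 : ⟪q, x⟫_ℂ = ⟪cuV D ψ, Qv (iot D) x⟫_ℂ := by
    rw [← hd.inner_Qv, hq]
  rw [inner_sub_right, inner_add_right, e1, e2, e3, hq]
  ring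

private theorem pair_aux2 {q : XD D} {ψ : Adm D} (hq : Qv (iot D) q = cuV D ψ) (x : XD D) :
    ⟪q, Kh (KD D) (Kh (KD D) x)⟫_ℂ = ⟪gpX D ψ, iot D (Qv (iot D) x)⟫_ℂ := by
  have hd := fdom hD
  have e1 : Kh (KD D) q = gpX D ψ := by
    rw [KD_eq, ← hd.ι_Qv, hq, iot_cuV hD]
  rw [← Kh_inner, e1, hd.ι_Qv]; rfl

/-- The weak form of the equation in `D`. Proof: `Slv.tst` paired with `q`, `Q q = cuV ψ` (`Qv_surj`), `K^{1/2} q = gpX ψ`
(`ι_Qv`, `iot_cuV`), `inner_J3`, `inner_Qv`. -/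
theorem Slv.weak {C a b : ℝ} (h : NSA (KD D) (JD D) (ND D) C) {f : ℝ → XD D} {B : ℝ → XD D →L[ℂ] XD D}
    (hf : ContinuousOn f (Icc a b)) (hB : ContinuousOn B (Icc a b)) {x₀ : XD D} {x : ℝ → XD D}
    (hx : Slv (KD D) (JD D) (ND D) f B a b x₀ x) (ψ : Adm D) {s t : ℝ} (hs : a ≤ s) (hst : s ≤ t)
    (ht : t ≤ b) : ⟪gpX D ψ, iot D (Qv (iot D) (x t))⟫_ℂ - ⟪gpX D ψ, iot D (Qv (iot D) (x s))⟫_ℂ =
      ∫ r in s..t, (-⟪cuV D ψ, Qv (iot D) (x r)⟫_ℂ +
        NL (jj D (Qv (iot D) (x r))) ((Qv (iot D) (x r) : VD D) : L2c) (jj D (cuV D ψ)) +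
        ⟪gpX D ψ, f r + B r (x r)⟫_ℂ) := by
  obtain ⟨q, hq⟩ := (fdom hD).Qv_surj (cuV D ψ)
  have hT := Slv.tst h hf hB hx
  have h1 := hT.eq s t hs hst ht
  have hi : IntervalIntegrable (fun t => JD D (ND D (x t) (x t)) + Kh (KD D) (f t + B t (x t)) - x t)
      volume s t := by
    refine ContinuousOn.intervalIntegrable ?_
    rw [uIcc_of_le hst]
    exact hT.cl.mono (Icc_subset_Icc hs ht)
  have h2 := congrArg (fun v => ⟪q, v⟫_ℂ) h1
  simp only [inner_sub_right] at h2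
  rw [pair_aux2 hD hq, pair_aux2 hD hq] at h2
  refine h2.trans ((((innerSL ℂ q).intervalIntegral_comp_comm hi).symm).trans ?_)
  refine intervalIntegral.integral_congr fun r _ => ?_
  exact pair_aux hD hq _ _

/-- Converse: a weak solution is a solution. Proof: the identity holds for all `q ∈ X` in place of `ψ` (density of `cuV`
and continuity: both sides are continuous in `cuV ψ` for fixed `s`, `t`), so `Tst`, `Slv.of_tst`. -/
theorem Slv.of_weak {C a b : ℝ} (h : NSA (KD D) (JD D) (ND D) C) {f : ℝ → XD D} {B : ℝ → XD D →L[ℂ] XD D}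
    (hf : ContinuousOn f (Icc a b)) (hB : ContinuousOn B (Icc a b)) {x : ℝ → XD D}
    (hc : ContinuousOn x (Icc a b))
    (hx : ∀ ψ : Adm D, ∀ s t, a ≤ s → s ≤ t → t ≤ b →
      ⟪gpX D ψ, iot D (Qv (iot D) (x t))⟫_ℂ - ⟪gpX D ψ, iot D (Qv (iot D) (x s))⟫_ℂ =
      ∫ r in s..t, (-⟪cuV D ψ, Qv (iot D) (x r)⟫_ℂ +
        NL (jj D (Qv (iot D) (x r))) ((Qv (iot D) (x r) : VD D) : L2c) (jj D (cuV D ψ)) +
        ⟪gpX D ψ, f r + B r (x r)⟫_ℂ)) : Slv (KD D) (JD D) (ND D) f B a b (x a) x := by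
  have hd := fdom hD
  have cl : ContinuousOn (fun t => JD D (ND D (x t) (x t)) + Kh (KD D) (f t + B t (x t)) - x t)
      (Icc a b) := by
    have c1 : ContinuousOn (fun t => ND D (x t) (x t)) (Icc a b) :=
      ((ND D).continuous.comp_continuousOn hc).clm_apply hc
    have c2 : ContinuousOn (fun t => B t (x t)) (Icc a b) := hB.clm_apply hc
    exact (((JD D).continuous.comp_continuousOn c1).add
      ((Kh (KD D)).continuous.comp_continuousOn (hf.add c2))).sub hc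
  refine Slv.of_tst h hf hB hc ⟨(Kh (KD D)).continuous.comp_continuousOn hc, cl, fun s t hs hst ht => ?_⟩
  have hi : IntervalIntegrable (fun t => JD D (ND D (x t) (x t)) + Kh (KD D) (f t + B t (x t)) - x t)
      volume s t := by
    refine ContinuousOn.intervalIntegrable ?_
    rw [uIcc_of_le hst]
    exact cl.mono (Icc_subset_Icc hs ht)
  rw [← sub_eq_zero]
  set d : XD D := Kh (KD D) (Kh (KD D) (x t)) - Kh (KD D) (Kh (KD D) (x s)) -
    ∫ r in s..t, (JD D (ND D (x r) (x r)) + Kh (KD D) (f r + B r (x r)) - x r) with hdd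
  have key : ∀ ψ : Adm D, ⟪cuV D ψ, Qv (iot D) d⟫_ℂ = 0 := fun ψ => by
    obtain ⟨q, hq⟩ := hd.Qv_surj (cuV D ψ)
    rw [← hq, hd.inner_Qv, hdd, inner_sub_right, inner_sub_right, pair_aux2 hD hq, pair_aux2 hD hq,
      show ⟪q, ∫ r in s..t, (JD D (ND D (x r) (x r)) + Kh (KD D) (f r + B r (x r)) - x r)⟫_ℂ =
      ∫ r in s..t, ⟪q, JD D (ND D (x r) (x r)) + Kh (KD D) (f r + B r (x r)) - x r⟫_ℂ from
      ((innerSL ℂ q).intervalIntegral_comp_comm hi).symm, hx ψ s t hs hst ht, sub_eq_zero]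
    refine intervalIntegral.integral_congr fun r _ => ?_
    exact (pair_aux hD hq _ _).symm
  have hcont : Continuous fun v : VD D => ⟪v, Qv (iot D) d⟫_ℂ := by
    have : (fun v : VD D => ⟪v, Qv (iot D) d⟫_ℂ) = fun v : VD D => conj (innerSL ℂ (Qv (iot D) d) v) := by
      funext v
      exact (inner_conj_symm v (Qv (iot D) d)).symm
    rw [this]
    exact Complex.continuous_conj.comp (innerSL ℂ (Qv (iot D) d)).continuous
  have k2 : ∀ v : VD D, ⟪v, Qv (iot D) d⟫_ℂ = 0 := fun v =>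
    (cuV_dense D).induction (P := fun v => ⟪v, Qv (iot D) d⟫_ℂ = 0)
      (by rintro _ ⟨ψ, rfl⟩; exact key ψ)
      (isClosed_eq hcont continuous_const) v
  have k3 : Qv (iot D) d = 0 := inner_self_eq_zero.1 (k2 _)
  have k4 : ‖d‖ = 0 := by rw [← hd.norm_Qv, k3, norm_zero]
  exact norm_eq_zero.1 k4

end

end Pool.Agent.Lib.MP_79abb3_an.PD
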