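import Pool.Agent.Lib.MP_79abb3_an.PD.TotA2
import Pool.Agent.Lib.MP_79abb3_an.PD.SpDb
import Pool.Agent.Lib.MP_79abb3_an.SC.NcIter

/-!
Theorem D, last phases: null controllability from observability; free flow of small data.
-/

set_option autoImplicit false
set_option linter.unusedSectionVars false

open MeasureTheory Set Filter Topology Function
open scoped ENNReal InnerProductSpace ComplexConjugate

namespace Pool.Agent.Lib.MP_79abb3_an.PD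

open Pool.Agent.Lib.MP_79abb3_an.SC

/-- `∫_Z |u|²` -/
noncomputable def nZ (Z : Set ℂ) (u : Y2) : ℝ := ∫ x in Z, (‖(u.fst : ℂ → ℂ) x‖ ^ 2 + ‖(u.snd : ℂ → ℂ) x‖ ^ 2)

/-- **Observability** of the Stokes semigroup of `D` from `Z` (block N). -/
def ObsD (D Z : Set ℂ) : Prop := ∃ C0 : ℝ, 0 ≤ C0 ∧ ∀ T, 0 < T → T ≤ 1 → ∀ q : XD D,
  ‖Sg (KD D) T q‖ ^ 2 ≤ Real.exp (C0 / T ^ 2) * ∫ t in (0:ℝ)..T, kapT T t * nZ Z ((Sg (KD D) t q : XD D) : Y2)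

/-- **Flush** (block F): every state can be steered to an `L²`-small one in arbitrarily short time, the force acts
in `N`. -/
def FlushD (D N : Set ℂ) : Prop := ∀ v₀ : VD D, cVD D v₀ = v₀ → ∀ T', 0 < T' → ∀ δ, 0 < δ →
  ∃ t2, 0 < t2 ∧ t2 ≤ T' ∧ ∃ v : ℝ → VD D, Fl0 D (D \ N) v 0 t2 ∧ v 0 = v₀ ∧ ‖iot D (v t2)‖ ≤ δ

/-- **Local null controllability**, the force acts in `N`. -/
def NullD (D N : Set ℂ) : Prop := ∀ T, 0 < T → T ≤ 1 → ∃ ε, 0 < ε ∧ ∀ v₀ : VD D, cVD D v₀ = v₀ → ‖v₀‖ ≤ ε →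
  ∃ v : ℝ → VD D, Fl0 D (D \ N) v 0 T ∧ v 0 = v₀ ∧ v T = 0

section
variable {D Ω Z : Set ℂ} {v : ℝ → VD D} {a b : ℝ}

/-- The equation without lifting. Proof: `f_zero`. -/
theorem WEq_zero_iff : WEq D Ω (fun _ _ => 0) v a b ↔ ∀ ψ : ℂ → ℂ, ψ ∈ Adm Ω → ∀ s t, a ≤ s → s ≤ t → t ≤ b →
    ⟪gp ψ, ((iot D (v t) : XD D) : Y2)⟫_ℂ - ⟪gp ψ, ((iot D (v s) : XD D) : Y2)⟫_ℂ =
      ∫ r in s..t, (-⟪cu ψ, (v r : L2c)⟫_ℂ + NL (jj D (v r)) (v r : L2c) (g4 ψ)) := by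
  obtain ⟨h1, _, _, h4, h5⟩ := f_zero Ω
  unfold WEq
  simp only [h1, h4, h5, zero_add]

theorem Fl0.mono (h : Fl0 D Ω v a b) {Ω' : Set ℂ} (hs : Ω' ⊆ Ω) : Fl0 D Ω' v a b :=
  ⟨h.cv, h.rv, WEq_zero_iff.2 fun ψ hψ => WEq_zero_iff.1 h.eq ψ (Adm.mono hs hψ)⟩

/-- rest -/
theorem Fl0.rest (D Ω : Set ℂ) (a b : ℝ) : Fl0 D Ω (fun _ => (0 : VD D)) a b := by
  refine ⟨continuousOn_const, fun t _ => map_zero _, WEq_zero_iff.2 fun ψ hψ s t _ _ _ => ?_⟩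
  simp

end

end Pool.Agent.Lib.MP_79abb3_an.PD
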