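import Pool.Agent.Lib.MP_79abb3_an.PD.FgDef
import Pool.Agent.Lib.MP_79abb3_an.PD.FdB3
import Pool.Agent.Lib.MP_79abb3_an.PD.FinN
import Pool.Agent.Lib.MP_79abb3_an.PD.CoC5

/-!
Theorem D, block F, flush: the total flow is a flow with the force in `closedBall x t`.
-/

set_option autoImplicit false
set_option linter.unusedSectionVars false

open MeasureTheory Set Filter Topology Function
open scoped ENNReal InnerProductSpace ComplexConjugate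

namespace Pool.Agent.Lib.MP_79abb3_an.PD

open Pool.Agent.Lib.MP_79abb3_an.SC Pool.Agent.Lib.MP_79abb3_an.P25

namespace FD
variable {D : Set ℂ} (F : FD D)

/-- Stream functions of `D \ N`, `N = closedBall x t`, are constant on `N`: `ψ = c` on `N`, `∇ψ = 0`, `Δψ = 0` on `N`. -/
theorem adm_N {ψ : ℂ → ℂ} (hψ : ψ ∈ Adm (D \ Metric.closedBall F.x F.t)) : ψ ∈ Adm D ∧ ∃ c : ℂ,
    ∀ y ∈ Metric.closedBall F.x F.t, ψ y = c ∧ px ψ y = 0 ∧ py ψ y = 0 ∧ lap ψ y = 0 := by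
  have hN : ∀ y ∈ Metric.closedBall F.x F.t, fderiv ℝ ψ =ᶠ[𝓝 y] 0 := by
    intro y hy
    exact notMem_tsupport_iff_eventuallyEq.1 fun h => (hψ.2 h).2 hy
  have h0 : ∀ y ∈ Metric.closedBall F.x F.t, fderiv ℝ ψ y = 0 := fun y hy => (hN y hy).eq_of_nhds
  have hx : F.x ∈ Metric.closedBall F.x F.t := Metric.mem_closedBall_self (F.fl.s0.trans F.fl.st).le
  refine ⟨Adm.mono sdiff_subset hψ, ψ F.x, fun y hy => ⟨?_, ?_, ?_, ?_⟩⟩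
  · have h1 := (convex_closedBall F.x F.t).norm_image_sub_le_of_norm_fderiv_le (𝕜 := ℝ) (f := ψ) (C := 0)
      (fun z _ => hψ.1.smo.differentiable z) (fun z hz => by rw [h0 z hz, norm_zero]) hx hy
    rw [zero_mul] at h1
    exact sub_eq_zero.1 (norm_le_zero_iff.1 h1)
  · show fderiv ℝ ψ y 1 = 0
    rw [h0 y hy]
    rfl
  · show fderiv ℝ ψ y Complex.I = 0
    rw [h0 y hy]
    rfl
  · have h2 : ∀ e : ℂ, (fun z => fderiv ℝ ψ z e) =ᶠ[𝓝 y] fun _ => (0 : ℂ) := by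
      intro e
      filter_upwards [hN y hy] with z hz
      rw [hz]
      rfl
    show fderiv ℝ (fun z => fderiv ℝ ψ z 1) y 1 + fderiv ℝ (fun z => fderiv ℝ ψ z Complex.I) y Complex.I = 0
    rw [(h2 1).fderiv_eq, (h2 Complex.I).fderiv_eq]
    simp

/-- **`WEq_zero_iff` and `USys.eq`**: for `ψ ∈ Adm (D \ N)`, `ψ = c` on `N` (`adm_N`): `⟪cu ψ, c₀⟫ = ⟪cu ψ, β⟫ = 0` and
`NL (jj v) c₀ (g4 ψ) = NL (jj v) β (g4 ψ) = 0` (supports: `c0_cc`, `β0`, `h2`, `h3`); `⟪d ψ, ṽ⟫ = conj c ⟪d, ṽ⟫` (`d0`), `⟪ψ, β⟫ = conj c` (`β1`),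
`⟪ψ, c₀⟫ = conj c ∫ c₀ = 0` (`c0_int`), `em`; `jj (cuV ψ) = g4 ψ`. -/
theorem fl0 {m : ℕ} (hm : 1 ≤ m) {lam : ℝ} {A A' : ℝ → ℝ} {b : ℝ} {v₀ : VD D} {v : ℝ → VD D} {mu mu' : ℝ → ℝ}
    (hU : USys D (F.c0 m) F.β F.d lam A A' b v₀ v mu mu') : Fl0 D (D \ Metric.closedBall F.x F.t) v 0 b := by
  refine ⟨hU.cv, hU.rv, WEq_zero_iff.2 fun ψ hψ s t hs hst ht => ?_⟩
  obtain ⟨hψD, c, hc⟩ := F.adm_N hψ
  have h1 := hU.eq ⟨ψ, hψD⟩ s t hs hst ht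
  have hbd := F.hD.bdd
  have hcc : Cc ψ := hψ.1
  obtain ⟨hc0, hc0o, -⟩ := F.c0_cc hm
  have hin : ∀ {y : ℂ}, dist y F.x ≤ F.t → ψ y = c ∧ px ψ y = 0 ∧ py ψ y = 0 ∧ lap ψ y = 0 :=
    fun h => hc _ (Metric.mem_closedBall.2 h)
  -- the supports
  have hsu : ∀ y, dist y F.x ≤ F.t ∨ (F.c0 m y = 0 ∧ F.β y = 0 ∧ F.d y = 0) := by
    intro y
    rcases le_or_gt (dist y F.x) F.t with h | h
    · exact Or.inl h
    · exact Or.inr ⟨hc0o y (F.h3.le.trans h.le), F.β0 y ((F.h2.trans F.h3).le.trans h.le), F.d0 y h.le⟩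
  have e1 : ∀ f : ℂ → ℂ, Cc f → (∀ y, dist y F.x ≤ F.t ∨ f y = 0) → ⟪cu ψ, cl2 f⟫_ℂ = 0 := by
    intro f hf hf0
    have h2 : cu ψ = -cl2 (lap ψ) := rfl
    rw [h2, inner_neg_left, Cc.inner hcc.lap hf, neg_eq_zero]
    refine integral_eq_zero_of_ae (Eventually.of_forall fun y => ?_)
    rcases hf0 y with h | h
    · simp [(hin h).2.2.2]
    · simp [h]
  have e2 : ∀ f : ℂ → ℂ, Cc f → (∀ y, dist y F.x ≤ F.t ∨ f y = 0) → ∀ w : VD D,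
      PD.NL (jj D w) (cl2 f) (jj D (cuV D ⟨ψ, hψD⟩)) = 0 := by
    intro f hf hf0 w
    refine NL_disj hbd (hf.memLp 2) ⟨ψ, hψD⟩ (fun y => ?_) w
    rcases hf0 y with h | h
    · exact Or.inr ⟨(hin h).2.1, (hin h).2.2.1⟩
    · exact Or.inl h
  have e3 : ∀ f : ℂ → ℂ, Cc f → (∀ y, dist y F.x ≤ F.t ∨ f y = 0) →
      ⟪cl2 ψ, cl2 f⟫_ℂ = conj c * ∫ y, f y := by
    intro f hf hf0
    rw [Cc.inner hcc hf, ← integral_const_mul]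
    refine integral_congr_ae (Eventually.of_forall fun y => ?_)
    rcases hf0 y with h | h
    · show conj (ψ y) * f y = conj c * f y
      rw [(hin h).1]
    · show conj (ψ y) * f y = conj c * f y
      rw [h, mul_zero, mul_zero]
  have e4 : cl2 (fun x => F.d x * ψ x) = c • cl2 F.d := by
    rw [← cl2_smul c (F.hd.cc.memLp 2)]
    congr 1
    funext y
    rcases hsu y with h | h
    · rw [(hin h).1, mul_comm]
    · rw [h.2.2, zero_mul, mul_zero]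
  have hsc : ∀ y, dist y F.x ≤ F.t ∨ F.c0 m y = 0 := fun y => (hsu y).imp id fun h => h.1
  have hsb : ∀ y, dist y F.x ≤ F.t ∨ F.β y = 0 := fun y => (hsu y).imp id fun h => h.2.1
  have k1 := e1 _ hc0.cc hsc
  have k2 := e1 _ F.hβ.cc hsb
  have k3 : ⟪cl2 ψ, cl2 F.β⟫_ℂ = conj c := by rw [e3 _ F.hβ.cc hsb, F.β1, mul_one]
  have k4 : ⟪cl2 ψ, cl2 (F.c0 m)⟫_ℂ = 0 := by rw [e3 _ hc0.cc hsc, F.c0_int hm, mul_zero]
  refine h1.trans (intervalIntegral.integral_congr fun r hr => ?_)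
  rw [uIcc_of_le hst] at hr
  have hr' : r ∈ Icc 0 b := ⟨hs.trans hr.1, hr.2.trans ht⟩
  have k5 := hU.em r hr'
  have k6 : ⟪cu ψ, vt (F.c0 m) F.β A v mu r⟫_ℂ = ⟪cu ψ, (v r : L2c)⟫_ℂ := by
    show ⟪cu ψ, (v r : L2c) - (A r : ℂ) • cl2 (F.c0 m) - (mu r : ℂ) • cl2 F.β⟫_ℂ = _
    rw [inner_sub_right, inner_sub_right, inner_smul_right, inner_smul_right, k1, k2]
    ring
  have k7 : PD.NL (jj D (v r)) (vt (F.c0 m) F.β A v mu r) (jj D (cuV D ⟨ψ, hψD⟩)) =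
      PD.NL (jj D (v r)) (v r : L2c) (g4 ψ) := by
    have h2 : jj D (cuV D ⟨ψ, hψD⟩) = g4 ψ := jj_g4 hbd ⟨ψ, hψD⟩
    have h3 := e2 _ hc0.cc hsc (v r)
    have h4 := e2 _ F.hβ.cc hsb (v r)
    show PD.NL (jj D (v r)) ((v r : L2c) - (A r : ℂ) • cl2 (F.c0 m) - (mu r : ℂ) • cl2 F.β)
      (jj D (cuV D ⟨ψ, hψD⟩)) = _
    have h5 : ∀ (N : L2c →L[ℂ] Yd (L4c × L4c)) (a1 a2 a3 : L2c) (x y : ℂ) (w : L4c × L4c), N a2 w = 0 → N a3 w = 0 →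
        N (a1 - x • a2 - y • a3) w = N a1 w := by
      intro N a1 a2 a3 x y w h6 h7
      rw [map_sub, map_sub, map_smul, map_smul]
      show N a1 w - x • N a2 w - y • N a3 w = N a1 w
      rw [h6, h7, smul_zero, smul_zero, sub_zero, sub_zero]
    rw [h5 _ _ _ _ _ _ _ h3 h4, h2]
  have k8 : ⟪cl2 (fun x => F.d x * ψ x), vt (F.c0 m) F.β A v mu r⟫_ℂ =
      conj c * ⟪cl2 F.d, vt (F.c0 m) F.β A v mu r⟫_ℂ := by
    rw [e4, inner_smul_left]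
  show -⟪cu ψ, vt (F.c0 m) F.β A v mu r⟫_ℂ +
    PD.NL (jj D (v r)) (vt (F.c0 m) F.β A v mu r) (jj D (cuV D ⟨ψ, hψD⟩)) -
    lam * ⟪cl2 (fun x => F.d x * ψ x), vt (F.c0 m) F.β A v mu r⟫_ℂ + (mu' r : ℂ) * ⟪cl2 ψ, cl2 F.β⟫_ℂ +
    (A' r : ℂ) * ⟪cl2 ψ, cl2 (F.c0 m)⟫_ℂ = -⟪cu ψ, (v r : L2c)⟫_ℂ + PD.NL (jj D (v r)) (v r : L2c) (g4 ψ)
  rw [k6, k7, k8, k3, k4, k5]
  ring

end FD

/-- restriction -/
theorem Fl0.restr {D Ω : Set ℂ} {v : ℝ → VD D} {a b b' : ℝ} (h : Fl0 D Ω v a b) (hb : b' ≤ b) : Fl0 D Ω v a b' :=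
  ⟨h.cv.mono (Icc_subset_Icc_right hb), fun t ht => h.rv t ⟨ht.1, ht.2.trans hb⟩,
    WEq_zero_iff.2 fun ψ hψ s t hs hst ht => WEq_zero_iff.1 h.eq ψ hψ s t hs hst (ht.trans hb)⟩

end Pool.Agent.Lib.MP_79abb3_an.PD
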