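import Pool.Agent.Lib.MP_79abb3_an.PD.FhF
import Pool.Agent.Lib.MP_79abb3_an.PD.FhG
import Pool.Agent.Lib.MP_79abb3_an.PD.FdB2

/-!
Theorem D, block F, flush: the cell flow is switched off.
-/

set_option autoImplicit false
set_option linter.unusedSectionVars false

open MeasureTheory Set Filter Topology Function
open scoped ENNReal InnerProductSpace ComplexConjugate

namespace Pool.Agent.Lib.MP_79abb3_an.PD

open Pool.Agent.Lib.MP_79abb3_an.SC Pool.Agent.Lib.MP_79abb3_an.P25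

/-- Ramps: `st (t/s)` increases from `0` to `1` on `[0,s]`; its derivative is continuous, nonnegative, with integral `1`. -/
theorem exists_ramp {s : ℝ} (hs : 0 < s) : ∃ g g' : ℝ → ℝ, (∀ t, HasDerivAt g (g' t) t) ∧ Continuous g' ∧ (∀ t, 0 ≤ g' t) ∧
    (∀ t ≤ 0, g t = 0) ∧ (∀ t, s ≤ t → g t = 1) ∧ (∀ t, 0 ≤ g t ∧ g t ≤ 1) ∧
    ∫ r in (0:ℝ)..s, g' r = 1 := by
  have sm : ContDiff ℝ ((⊤ : ℕ∞) : WithTop ℕ∞) Real.smoothTransition := Real.smoothTransition.contDiff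
  have hd : ∀ t, HasDerivAt (fun t => Real.smoothTransition (t / s))
      (deriv Real.smoothTransition (t / s) * (1 / s)) t := fun t => by
    have h1 : HasDerivAt (fun t : ℝ => t / s) (1 / s) t := (hasDerivAt_id t).div_const s
    have h2 : HasDerivAt Real.smoothTransition (deriv Real.smoothTransition (t / s)) (t / s) :=
      (sm.differentiable (by simp) _).hasDerivAt
    exact h2.comp t h1
  have hc : Continuous fun t => deriv Real.smoothTransition (t / s) * (1 / s) :=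
    ((sm.continuous_deriv (by simp)).comp (continuous_id.div_const s)).mul continuous_const
  refine ⟨fun t => Real.smoothTransition (t / s), fun t => deriv Real.smoothTransition (t / s) * (1 / s), hd, hc,
    fun t => ?_, fun t ht => ?_, fun t ht => ?_,
    fun t => ⟨Real.smoothTransition.nonneg _, Real.smoothTransition.le_one _⟩, ?_⟩
  · exact mul_nonneg Real.smoothTransition.monotone.deriv_nonneg (by positivity)
  · exact Real.smoothTransition.zero_of_nonpos (div_nonpos_of_nonpos_of_nonneg ht hs.le)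
  · exact Real.smoothTransition.one_of_one_le ((one_le_div hs).2 ht)
  · rw [intervalIntegral.integral_eq_sub_of_hasDerivAt (fun t _ => hd t) (hc.intervalIntegrable _ _)]
    show Real.smoothTransition (s / s) - Real.smoothTransition (0 / s) = 1
    rw [div_self hs.ne', zero_div, Real.smoothTransition.one_of_one_le le_rfl,
      Real.smoothTransition.zero_of_nonpos le_rfl, sub_zero]

private theorem fhf_alg {Y y0 Cm s C A δ : ℝ} (hY : 0 ≤ Y) (hy0 : 0 ≤ y0) (hC : 0 ≤ C) (hA : 0 ≤ A) (hδ : 0 ≤ δ)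
    (h1 : s * Cm ≤ 1 / 4) (h2 : s * Cm ≤ δ ^ 2 / 2)
    (h : Y ^ 2 ≤ y0 ^ 2 + s * Cm * (1 + Y ^ 2) + 2 * C * (A * Y)) : Y ≤ 2 * y0 + 3 * C * A + δ := by
  have hCA : 0 ≤ C * A := mul_nonneg hC hA
  have a1 : s * Cm * (1 + Y ^ 2) ≤ δ ^ 2 / 2 + Y ^ 2 / 4 := by
    have h3 : s * Cm * Y ^ 2 ≤ 1 / 4 * Y ^ 2 := mul_le_mul_of_nonneg_right h1 (sq_nonneg Y)
    linarith
  have a2 : 2 * C * (A * Y) ≤ Y ^ 2 / 4 + 4 * (C * A) ^ 2 := by
    nlinarith [sq_nonneg (Y / 2 - 2 * (C * A))]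
  have a3 : Y ^ 2 ≤ 2 * y0 ^ 2 + δ ^ 2 + 8 * (C * A) ^ 2 := by linarith
  refine (sq_le_sq₀ hY (by positivity)).1 (a3.trans ?_)
  have p1 : 0 ≤ y0 * (C * A) := mul_nonneg hy0 hCA
  have p2 : 0 ≤ y0 * δ := mul_nonneg hy0 hδ
  have p3 : 0 ≤ (C * A) * δ := mul_nonneg hCA hδ
  nlinarith [sq_nonneg y0, sq_nonneg (C * A)]

private theorem fhf_s {Cm τ δ : ℝ} (hCm : 0 ≤ Cm) (hτ : 0 < τ) (hδ : 0 < δ) :
    ∃ s, 0 < s ∧ s ≤ τ ∧ s * Cm ≤ 1 / 4 ∧ s * Cm ≤ δ ^ 2 / 2 := by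
  have hp : 0 < Cm + 1 := by linarith
  refine ⟨min τ (min (1 / 4 / (Cm + 1)) (δ ^ 2 / 2 / (Cm + 1))), by positivity, min_le_left _ _, ?_, ?_⟩
  · have h1 : min τ (min (1 / 4 / (Cm + 1)) (δ ^ 2 / 2 / (Cm + 1))) ≤ 1 / 4 / (Cm + 1) :=
      (min_le_right _ _).trans (min_le_left _ _)
    calc min τ (min (1 / 4 / (Cm + 1)) (δ ^ 2 / 2 / (Cm + 1))) * Cm ≤ 1 / 4 / (Cm + 1) * (Cm + 1) :=
          mul_le_mul h1 (by linarith) hCm (by positivity)
      _ = 1 / 4 := by field_simp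
  · have h1 : min τ (min (1 / 4 / (Cm + 1)) (δ ^ 2 / 2 / (Cm + 1))) ≤ δ ^ 2 / 2 / (Cm + 1) :=
      (min_le_right _ _).trans (min_le_right _ _)
    calc min τ (min (1 / 4 / (Cm + 1)) (δ ^ 2 / 2 / (Cm + 1))) * Cm ≤ δ ^ 2 / 2 / (Cm + 1) * (Cm + 1) :=
          mul_le_mul h1 (by linarith) hCm (by positivity)
      _ = δ ^ 2 / 2 := by field_simp

/-- bounds of the integrals by the maximum -/
private theorem fhf_int {y g' : ℝ → ℝ} {s t Y a : ℝ} (ht : t ∈ Icc 0 s) (hy : ContinuousOn y (Icc 0 s))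
    (hy0 : ∀ r ∈ Icc 0 s, 0 ≤ y r) (hyY : ∀ r ∈ Icc 0 s, y r ≤ Y) (hg : Continuous g') (hg0 : ∀ r, 0 ≤ g' r)
    (hg1 : ∫ r in (0:ℝ)..s, g' r = 1) (ha : 0 ≤ a) (hY : 0 ≤ Y) :
    ∫ r in (0:ℝ)..t, (1 + y r ^ 2) ≤ s * (1 + Y ^ 2) ∧ ∫ r in (0:ℝ)..t, |-(a * g' r)| * y r ≤ a * Y := by
  have hsub : Icc 0 t ⊆ Icc 0 s := Icc_subset_Icc_right ht.2
  have hyt := hy.mono hsub
  constructor
  · have h1 : ∫ r in (0:ℝ)..t, (1 + y r ^ 2) ≤ ∫ _r in (0:ℝ)..t, (1 + Y ^ 2) := by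
      refine intervalIntegral.integral_mono_on ht.1
        ((continuousOn_const.add (hyt.pow 2)).intervalIntegrable_of_Icc ht.1)
        (continuous_const.intervalIntegrable _ _) fun r hr => ?_
      have h2 := pow_le_pow_left₀ (hy0 r (hsub hr)) (hyY r (hsub hr)) 2
      linarith
    rw [intervalIntegral.integral_const, sub_zero, smul_eq_mul] at h1
    exact h1.trans (mul_le_mul_of_nonneg_right ht.2 (by positivity))
  · have cg : Continuous fun r => |-(a * g' r)| := (continuous_const.mul hg).neg.abs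
    have h1 : ∫ r in (0:ℝ)..t, |-(a * g' r)| * y r ≤ ∫ r in (0:ℝ)..t, (a * Y) * g' r := by
      refine intervalIntegral.integral_mono_on ht.1
        ((cg.continuousOn.mul hyt).intervalIntegrable_of_Icc ht.1)
        ((continuous_const.mul hg).intervalIntegrable _ _) fun r hr => ?_
      rw [abs_neg, abs_of_nonneg (mul_nonneg ha (hg0 r))]
      have h2 := mul_le_mul_of_nonneg_left (hyY r (hsub hr)) (mul_nonneg ha (hg0 r))
      linarith
    have h3 : ∫ r in (0:ℝ)..t, (a * Y) * g' r ≤ ∫ r in (0:ℝ)..s, (a * Y) * g' r := by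
      have i1 : ∀ u w : ℝ, IntervalIntegrable (fun r => (a * Y) * g' r) volume u w := fun u w =>
        (continuous_const.mul hg).intervalIntegrable _ _
      rw [← intervalIntegral.integral_add_adjacent_intervals (i1 0 t) (i1 t s)]
      have h4 : 0 ≤ ∫ r in t..s, (a * Y) * g' r := intervalIntegral.integral_nonneg ht.2 fun r _ =>
        mul_nonneg (mul_nonneg ha hY) (hg0 r)
      linarith
    have h5 : ∫ r in (0:ℝ)..s, (a * Y) * g' r = a * Y := by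
      rw [intervalIntegral.integral_const_mul, hg1, mul_one]
    exact h1.trans (h3.trans_eq h5)

namespace FD
variable {D : Set ℂ} (F : FD D)

/-- **Switching off.** `A = A₀ (1 - g)` (`exists_ramp`), `exists_USys` with `lam = 0` (`c0_cc`), `fl0`; `A s = 0` so `ww m 0 v = iot v`. Let `Y` be the maximum
of the continuous function `‖ww (A t) (v t)‖` on `[0,s]`: `sw_en` gives `Y² ≤ y₀² + s Cm (1 + Y²) + 2 C A₀ Y`, with
`s Cm ≤ 1/4`, `s Cm ≤ δ²/2` and `2 C A₀ Y ≤ Y²/4 + 4 C² A₀²`: `Y² ≤ 2 y₀² + 2 s Cm + 8 C² A₀² ≤ (2 y₀ + δ + 3 C A₀)²`. -/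
theorem switch_off : ∃ (C : ℝ) (m₀ : ℕ), 0 ≤ C ∧ 1 ≤ m₀ ∧ ∀ m : ℕ, m₀ ≤ m → ∀ {v₁ : VD D} (_ : cVD D v₁ = v₁) {τ δ : ℝ}
    (_ : 0 < τ) (_ : 0 < δ), ∃ s, 0 < s ∧ s ≤ τ ∧ ∃ v : ℝ → VD D, Fl0 D (D \ Metric.closedBall F.x F.t) v 0 s ∧
      v 0 = v₁ ∧ ‖iot D (v s)‖ ≤ 2 * ‖F.ww m (F.A0 m) v₁‖ + C * F.A0 m + δ := by
  obtain ⟨C, m₀, hC, hm₀, hsw⟩ := F.sw_en
  refine ⟨3 * C, m₀, by positivity, hm₀, fun m hm v₁ hv τ δ hτ hδ => ?_⟩
  have hm1 : 1 ≤ m := hm₀.trans hm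
  obtain ⟨Cm, hCm, hen⟩ := hsw m hm
  obtain ⟨s, hs, hsτ, hs1, hs2⟩ := fhf_s hCm hτ hδ
  obtain ⟨g, g', gd, gc, g0, gz, go, g01, gI⟩ := exists_ramp hs
  have hA0 : 0 ≤ F.A0 m := by
    unfold FD.A0
    positivity
  have dA : ∀ t ∈ Icc 0 s, HasDerivWithinAt (fun t => F.A0 m * (1 - g t)) (-(F.A0 m * g' t)) (Icc 0 s) t := by
    intro t _
    have h1 := (((gd t).const_sub 1).const_mul (F.A0 m)).hasDerivWithinAt (s := Icc 0 s)
    refine h1.congr_deriv ?_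
    ring
  have cA' : ContinuousOn (fun t => -(F.A0 m * g' t)) (Icc 0 s) := ((continuous_const.mul gc).neg).continuousOn
  obtain ⟨v, mu, mu', hU⟩ := exists_USys F.hD.bdd (F.c0_cc hm1).1 F.hβ F.hd 0 hs.le dA cA' hv
  refine ⟨s, hs, hsτ, v, F.fl0 hm1 hU, hU.iv, ?_⟩
  have hAb : ∀ t ∈ Icc 0 s, 0 ≤ F.A0 m * (1 - g t) ∧ F.A0 m * (1 - g t) ≤ F.A0 m := by
    intro t _
    obtain ⟨h1, h2⟩ := g01 t
    exact ⟨mul_nonneg hA0 (by linarith), by nlinarith⟩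
  have hen' := hen hU dA cA' hAb
  -- continuity
  have cA : ContinuousOn (fun t => F.A0 m * (1 - g t)) (Icc 0 s) := fun t ht => (dA t ht).continuousWithinAt
  have cAc : ContinuousOn (fun t => ((F.A0 m * (1 - g t) : ℝ) : ℂ)) (Icc 0 s) :=
    Complex.continuous_ofReal.comp_continuousOn cA
  have cw : ContinuousOn (fun t => F.ww m (F.A0 m * (1 - g t)) (v t)) (Icc 0 s) := by
    unfold FD.ww
    exact ((iot D).continuous.comp_continuousOn hU.cv).sub (cAc.smul continuousOn_const)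
  have cy : ContinuousOn (fun t => ‖F.ww m (F.A0 m * (1 - g t)) (v t)‖) (Icc 0 s) := cw.norm
  obtain ⟨t₀, ht₀, hmax⟩ := isCompact_Icc.exists_isMaxOn (nonempty_Icc.2 hs.le) cy
  obtain ⟨Y, hYd⟩ : ∃ Y, Y = ‖F.ww m (F.A0 m * (1 - g t₀)) (v t₀)‖ := ⟨_, rfl⟩
  have hY : 0 ≤ Y := by rw [hYd]; exact norm_nonneg _
  have hyY : ∀ r ∈ Icc 0 s, ‖F.ww m (F.A0 m * (1 - g r)) (v r)‖ ≤ Y := fun r hr => by
    rw [hYd]
    exact hmax hr
  obtain ⟨k1, k2⟩ := fhf_int ht₀ cy (fun r _ => norm_nonneg _) hyY gc g0 gI hA0 hY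
  have h1 := hen' t₀ ht₀
  rw [← hYd] at h1
  have e0 : F.A0 m * (1 - g 0) = F.A0 m := by rw [gz 0 le_rfl, sub_zero, mul_one]
  rw [e0, hU.iv] at h1
  have h2 : Y ^ 2 ≤ ‖F.ww m (F.A0 m) v₁‖ ^ 2 + s * Cm * (1 + Y ^ 2) + 2 * C * (F.A0 m * Y) := by
    have h3 := mul_le_mul_of_nonneg_left k1 hCm
    have h4 := mul_le_mul_of_nonneg_left k2 (by positivity : 0 ≤ 2 * C)
    linarith
  have h5 := fhf_alg hY (norm_nonneg _) hC hA0 hδ.le hs1 hs2 h2
  have h6 := hyY s ⟨hs.le, le_rfl⟩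
  have e1 : F.ww m (F.A0 m * (1 - g s)) (v s) = iot D (v s) := by
    unfold FD.ww
    rw [go s le_rfl, sub_self, mul_zero, Complex.ofReal_zero, zero_smul, sub_zero]
  rw [e1] at h6
  exact h6.trans (h5.trans (le_of_eq (by ring)))

end FD

end Pool.Agent.Lib.MP_79abb3_an.PD
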