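import Pool.Agent.Lib.MP_79abb3_an.PD.FhC3
import Pool.Agent.Lib.MP_79abb3_an.PD.FbX
import Pool.Agent.Lib.MP_79abb3_an.PD.FhD
import Pool.Agent.Lib.MP_79abb3_an.PD.FhF1

/-!
Theorem D, block F, flush: the first stage.
-/

set_option autoImplicit false
set_option linter.unusedSectionVars false

open MeasureTheory Set Filter Topology Function
open scoped ENNReal InnerProductSpace ComplexConjugate

namespace Pool.Agent.Lib.MP_79abb3_an.PD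

open Pool.Agent.Lib.MP_79abb3_an.SC Pool.Agent.Lib.MP_79abb3_an.P25 Pool.Agent.Lib.MP_79abb3_an.FW

namespace FD
variable {D : Set ℂ} (F : FD D)

/-- **The first stage.** `b = bm m`, `A = A₀ g` with `exists_ramp` for `s = b/2`, `lam = exp (C m)` with `C` of `flush_L2`; `exists_USys`, `exists_p` with
`p₀ = F.p0 m v₀` (`p0_real`): `Fst` (`c0_cc`). `apri_of hA` (FbX, with `ε` and with `1`: `FB m R ε` implies `FB m R 1`), `flush_L2`, `sz_small` (`ov_mem`), `ww_bd` at `t₁`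
(`‖T g‖ ≤ ‖Λ^{3/8} T g‖ ≤ ε`, `A0_tend`); `fl0`, `Fl0.restr`. -/
theorem stage_one (hA : F.HasApx) {Θ : ℝ} (hΘ : 0 ≤ Θ) {δ : ℝ} (hδ : 0 < δ) : ∃ m₀ : ℕ, 1 ≤ m₀ ∧ ∀ m : ℕ, m₀ ≤ m →
    ∀ {v₀ : VD D} (_ : cVD D v₀ = v₀) (_ : ‖v₀‖ ≤ Θ), ∃ t, 0 < t ∧ t ≤ F.bm m ∧ ∃ v : ℝ → VD D,
      Fl0 D (D \ Metric.closedBall F.x F.t) v 0 t ∧ v 0 = v₀ ∧ ‖F.ww m (F.A0 m) (v t)‖ ≤ δ := by
  sorry

theorem bm_tend : Tendsto (fun m : ℕ => F.bm m) atTop (𝓝 0) := by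
  sorry

end FD

end Pool.Agent.Lib.MP_79abb3_an.PD
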