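import Pool.Agent.Lib.MP_79abb3_an.PD.FgDef
import Pool.Agent.Lib.MP_79abb3_an.PD.FdB3
import Pool.Agent.Lib.MP_79abb3_an.PD.FeU
import Pool.Agent.Lib.MP_79abb3_an.PD.ScC

/-!
Theorem D, block F, flush: the energy of `w = u - a ∇^⊥Ψ` without damping.
-/

set_option autoImplicit false
set_option linter.unusedSectionVars false

open MeasureTheory Set Filter Topology Function
open scoped ENNReal InnerProductSpace ComplexConjugate

namespace Pool.Agent.Lib.MP_79abb3_an.PD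

open Pool.Agent.Lib.MP_79abb3_an.SC Pool.Agent.Lib.MP_79abb3_an.P25

private theorem fhF_alg {x y s α γ N : ℝ} (hs : s ^ 2 ≤ x * y)
    (hN : N ≤ -x ^ 2 + γ * x + α * (x + γ) * s) :
    N ≤ (2 * α ^ 4 + 1 / 8) * y ^ 2 + (α * γ) ^ 2 + γ ^ 2 := by
  have h1 : γ * x ≤ x ^ 2 / 4 + γ ^ 2 := by nlinarith [sq_nonneg (x / 2 - γ)]
  have h2 : α * x * s ≤ x ^ 2 / 4 + α ^ 2 * s ^ 2 := by nlinarith [sq_nonneg (x / 2 - α * s)]
  have h3 : α ^ 2 * s ^ 2 ≤ α ^ 2 * (x * y) := mul_le_mul_of_nonneg_left hs (sq_nonneg α)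
  have h4 : α ^ 2 * (x * y) ≤ x ^ 2 / 8 + 2 * α ^ 4 * y ^ 2 := by
    nlinarith [sq_nonneg (x - 4 * α ^ 2 * y)]
  have h5 : α * γ * s ≤ (α * γ) ^ 2 + s ^ 2 / 4 := by nlinarith [sq_nonneg (α * γ - s / 2)]
  have h6 : x * y / 4 ≤ x ^ 2 / 8 + y ^ 2 / 8 := by nlinarith [sq_nonneg (x - y)]
  have h7 : α * (x + γ) * s = α * x * s + α * γ * s := by ring
  have h8 : (2 * α ^ 4 + 1 / 8) * y ^ 2 = 2 * α ^ 4 * y ^ 2 + y ^ 2 / 8 := by ring
  linarith [sq_nonneg x]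

private theorem fhF_ftc {f f' : ℝ → ℝ} {b : ℝ}
    (hf : ∀ t ∈ Icc 0 b, HasDerivWithinAt f (f' t) (Icc 0 b) t)
    (hf' : ContinuousOn f' (Icc 0 b)) {s t : ℝ} (hs : 0 ≤ s) (hst : s ≤ t) (ht : t ≤ b) :
    ∫ r in s..t, (f' r : ℂ) = (f t : ℂ) - (f s : ℂ) := by
  have hsub : Icc s t ⊆ Icc 0 b := Icc_subset_Icc hs ht
  have h1 : ∫ r in s..t, f' r = f t - f s := by
    refine intervalIntegral.integral_eq_sub_of_hasDeriv_right_of_le hst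
      (fun x hx => (hf x (hsub hx)).continuousWithinAt.mono hsub) (fun x hx => ?_)
      ((hf'.mono (by rw [uIcc_of_le hst]; exact hsub)).intervalIntegrable)
    have h2 : Icc 0 b ∈ 𝓝 x := Icc_mem_nhds (lt_of_le_of_lt hs hx.1) (lt_of_lt_of_le hx.2 ht)
    exact ((hf x (hsub (Ioo_subset_Icc_self hx))).hasDerivAt h2).hasDerivWithinAt
  rw [intervalIntegral.integral_ofReal, h1, Complex.ofReal_sub]

/-- the Riesz representative of the right side -/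
private noncomputable def fhF_F (D : Set ℂ) (o : ℝ → L2c) (v : ℝ → VD D) (A' : ℝ → ℝ) (z : XD D)
    (r : ℝ) : VD D :=
  -(ContinuousLinearMap.adjoint (VD D).subtypeL (o r)) +
    Qv (iot D) (J3 (iot D) (jj D) (PD.NL (jj D (v r)) (o r))) +
    ContinuousLinearMap.adjoint (iot D) ((A' r : ℂ) • z)

private theorem fhF_inner {D : Set ℂ} (hD : Bornology.IsBounded D) (o : ℝ → L2c) (v : ℝ → VD D)
    (A' : ℝ → ℝ) (z : XD D) (w : VD D) (r : ℝ) :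
    ⟪w, fhF_F D o v A' z r⟫_ℂ = -⟪(w : L2c), o r⟫_ℂ + PD.NL (jj D (v r)) (o r) (jj D w) +
      (A' r : ℂ) * ⟪iot D w, z⟫_ℂ := by
  unfold fhF_F
  rw [(fdom hD).riesz, ContinuousLinearMap.adjoint_inner_right]
  have e1 : ⟪iot D w, (A' r : ℂ) • z⟫_ℂ = (A' r : ℂ) * ⟪iot D w, z⟫_ℂ := by
    show ⟪((iot D w : XD D) : Y2), (((A' r : ℂ) • z : XD D) : Y2)⟫_ℂ = _
    rw [Submodule.coe_smul, inner_smul_right]
    rfl
  rw [e1]
  rfl

private theorem fhF_cont {D : Set ℂ} {o : ℝ → L2c} {v : ℝ → VD D} {A' : ℝ → ℝ} (z : XD D) {S : Set ℝ}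
    (ho : ContinuousOn o S) (hv : ContinuousOn v S) (hA' : ContinuousOn A' S) :
    ContinuousOn (fhF_F D o v A' z) S := by
  unfold fhF_F
  have h1 : ContinuousOn (fun r => PD.NL (jj D (v r)) (o r)) S :=
    (PD.NL.continuous.comp_continuousOn ((jj D).continuous.comp_continuousOn hv)).clm_apply ho
  have h2 : ContinuousOn (fun r => (A' r : ℂ) • z) S :=
    (Complex.continuous_ofReal.comp_continuousOn hA').smul continuousOn_const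
  refine (((ContinuousLinearMap.adjoint (VD D).subtypeL).continuous.comp_continuousOn ho).neg.add
    ?_).add ?_
  · exact (Qv (iot D)).continuous.comp_continuousOn
      ((J3 (iot D) (jj D)).continuous.comp_continuousOn h1)
  · exact (ContinuousLinearMap.adjoint (iot D)).continuous.comp_continuousOn h2

namespace FD
variable {D : Set ℂ} (F : FD D)

/-- The defect of the bump: `z = str† (cl2 c₀) - gPs`; `‖z‖ ≤ C` by `c0_Ps` and density of `gpX`. -/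
theorem exists_zd : ∃ (C : ℝ) (m₀ : ℕ), 0 ≤ C ∧ 1 ≤ m₀ ∧ ∀ m : ℕ, m₀ ≤ m → ∃ z : XD D, ‖z‖ ≤ C ∧
    ∀ ψ : Adm D, ⟪gpX D ψ, z⟫_ℂ = ⟪cl2 ψ, cl2 (F.c0 m)⟫_ℂ - ⟪gpX D ψ, F.gPs m⟫_ℂ := by
  obtain ⟨C, m₀, hC, h⟩ := F.c0_Ps
  refine ⟨C, max m₀ 1, hC, le_max_right _ _, fun m hm => ?_⟩
  have hm0 : m₀ ≤ m := (le_max_left _ _).trans hm
  have hm1 : 1 ≤ m := (le_max_right _ _).trans hm
  have hD := F.hD.bdd
  obtain ⟨z, hz⟩ : ∃ z : XD D, z = ContinuousLinearMap.adjoint (str D) (cl2 (F.c0 m)) - F.gPs m :=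
    ⟨_, rfl⟩
  have e1 : ∀ ψ : Adm D, ⟪gpX D ψ, z⟫_ℂ = ⟪cl2 ψ, cl2 (F.c0 m)⟫_ℂ - ⟪gpX D ψ, F.gPs m⟫_ℂ := by
    intro ψ
    rw [hz, inner_sub_right, ContinuousLinearMap.adjoint_inner_right, str_gpX hD]
  have e2 : ∀ ψ : Adm D, ‖⟪gpX D ψ, z⟫_ℂ‖ ≤ C * ‖gpX D ψ‖ := by
    intro ψ
    rw [e1]
    have e3 : ⟪gpX D ψ, F.gPs m⟫_ℂ = ⟪gp ψ, gp (F.Ps m)⟫_ℂ := by
      rw [F.gPs_eq hm1]
      rfl
    rw [e3]
    exact h m hm0 ψ
  have e4 : ∀ x : XD D, ‖⟪x, z⟫_ℂ‖ ≤ C * ‖x‖ := by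
    intro x
    refine (gpX_dense D).induction (P := fun x : XD D => ‖⟪x, z⟫_ℂ‖ ≤ C * ‖x‖) ?_ ?_ x
    · rintro _ ⟨ψ, rfl⟩
      exact e2 ψ
    · have c1 : Continuous fun x : XD D => ⟪(x : Y2), (z : Y2)⟫_ℂ := by fun_prop
      have c2 : Continuous fun x : XD D => C * ‖x‖ := continuous_const.mul continuous_norm
      exact isClosed_le c1.norm c2
  refine ⟨z, ?_, e1⟩
  have e5 := e4 z
  have e6 : ‖⟪z, z⟫_ℂ‖ = ‖z‖ * ‖z‖ := by
    rw [← inner_self_eq_norm_mul_norm (𝕜 := ℂ) z]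
    exact (inner_self_re_eq_norm (𝕜 := ℂ) z).symm
  rw [e6] at e5
  by_cases h0 : ‖z‖ = 0
  · rw [h0]; exact hC
  · exact le_of_mul_le_mul_right e5 (lt_of_le_of_ne (norm_nonneg z) (Ne.symm h0))

/-- **Energy inequality** for `W = v - A cuV Ψ`, `iot W = ww` (no damping: `mu' = 0` by `em`, so `mu = 0`). `W` satisfies
`⟪gpX ψ, iot W(t)⟫ - ⟪gpX ψ, iot W(s)⟫ = ∫ (-⟪cuV ψ, v - A c₀⟫ + NL (jj v) (v - A c₀) (jj cuV ψ) + A' ⟪gpX ψ, z⟫)`
(`USys.eq`; `A(t) gPs - A(s) gPs = ∫ A' gPs`), `gpX ψ = iot (cuV ψ)`. `FDom.energyM` with `M = M' = id` (`Riesz` representatives `F r ∈ VD D`: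
orthogonal projection of `v - A c₀` to `VD D`, `Qv (J3 (NL ..))`, `iot† z`, as in FeU, SpEc, ScC):
`‖iot W(t)‖² - ‖iot W(0)‖² = 2 ∫ Re (-⟪W, v - A c₀⟫ + NL (jj v) (v - A c₀) (jj W) + A' ⟪iot W, z⟫)`. With `v = W + A Q`, `Q = cuV Ψ`:
`-⟪W, v - A c₀⟫ ≤ -3/4 ‖W‖² + C_m`; `Re NL (jj W) o (jj W) = 0` (`W` real: `u^⊥·u = 0`), `|A NL (jj Q) (v - A c₀) (jj W)| ≤
C_m (1 + ‖W‖) ‖jj W‖ ≤ C_m (1 + ‖W‖) √(‖iot W‖ ‖W‖) ≤ ‖W‖²/4 + C_m (1 + ‖iot W‖²)` (`NL_norm`, `jj_bd`). -/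
theorem sw_en : ∃ (C : ℝ) (m₀ : ℕ), 0 ≤ C ∧ 1 ≤ m₀ ∧ ∀ m : ℕ, m₀ ≤ m → ∃ Cm : ℝ, 0 ≤ Cm ∧
    ∀ {A A' : ℝ → ℝ} {b : ℝ} {v₁ : VD D} {v : ℝ → VD D} {mu mu' : ℝ → ℝ}
    (_ : USys D (F.c0 m) F.β F.d 0 A A' b v₁ v mu mu')
    (_ : ∀ t ∈ Icc 0 b, HasDerivWithinAt A (A' t) (Icc 0 b) t) (_ : ContinuousOn A' (Icc 0 b))
    (_ : ∀ t ∈ Icc 0 b, 0 ≤ A t ∧ A t ≤ F.A0 m), ∀ t ∈ Icc 0 b,
    ‖F.ww m (A t) (v t)‖ ^ 2 ≤ ‖F.ww m (A 0) (v 0)‖ ^ 2 + Cm * (∫ r in (0:ℝ)..t, (1 + ‖F.ww m (A r) (v r)‖ ^ 2)) +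
      2 * C * ∫ r in (0:ℝ)..t, |A' r| * ‖F.ww m (A r) (v r)‖ := by
  obtain ⟨C, m₀, hC, hm₀, hzd⟩ := F.exists_zd
  have hD := F.hD.bdd
  obtain ⟨C₁, hL⟩ := exists_Lad hD
  refine ⟨C, m₀, hC, hm₀, fun m hm => ?_⟩
  have hm1 : 1 ≤ m := hm₀.trans hm
  obtain ⟨z, hz1, hz2⟩ := hzd m hm
  obtain ⟨Ψ, hΨ⟩ : ∃ Ψ : Adm D, Ψ = ⟨F.Ps m, (F.Ps_mem hm1).2.1⟩ := ⟨_, rfl⟩
  have hgP : F.gPs m = gpX D Ψ := by rw [hΨ]; exact F.gPs_eq hm1
  obtain ⟨Q, hQ⟩ : ∃ Q : VD D, Q = cuV D Ψ := ⟨_, rfl⟩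
  have hQi : iot D Q = F.gPs m := by rw [hQ, iot_cuV hD, hgP]
  have hQr : cVD D Q = Q := by
    rw [hQ, cVD_cuV]
    congr 1
    rw [hΨ]
    exact Subtype.ext (funext (F.Ps_mem hm1).2.2)
  obtain ⟨g, hg⟩ : ∃ g : L2c, g = (Q : L2c) - cl2 (F.c0 m) := ⟨_, rfl⟩
  obtain ⟨a0, ha0⟩ : ∃ a0 : ℝ, a0 = F.A0 m := ⟨_, rfl⟩
  have ha00 : 0 ≤ a0 := by
    rw [ha0]
    unfold FD.A0
    positivity
  obtain ⟨α, hα⟩ : ∃ α : ℝ, α = 2 * a0 * ‖jj D Q‖ * C₁ := ⟨_, rfl⟩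
  obtain ⟨γ, hγ⟩ : ∃ γ : ℝ, γ = a0 * ‖g‖ := ⟨_, rfl⟩
  have hγ0 : 0 ≤ γ := by rw [hγ]; exact mul_nonneg ha00 (norm_nonneg _)
  have hα0 : 0 ≤ α := by
    rw [hα]
    exact mul_nonneg (mul_nonneg (mul_nonneg (by norm_num) ha00) (norm_nonneg _)) hL.C0
  refine ⟨2 * ((2 * α ^ 4 + 1 / 8) + ((α * γ) ^ 2 + γ ^ 2)), by positivity, ?_⟩
  intro A A' b v₁ v mu mu' hU hA hA' hb t ht
  have hmu' : ∀ r ∈ Icc 0 b, mu' r = 0 := by
    intro r hr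
    have h1 := hU.em r hr
    rw [Complex.ofReal_zero, zero_mul] at h1
    exact_mod_cast h1
  have h0b : (0:ℝ) ≤ b := ht.1.trans ht.2
  have hmu : ∀ r ∈ Icc 0 b, mu r = 0 := by
    intro r hr
    have h1 := Convex.norm_image_sub_le_of_norm_hasDerivWithin_le (f := mu) (f' := mu') (C := 0)
      (s := Icc 0 b) (x := 0) (y := r) hU.dm (fun x hx => by rw [hmu' x hx, norm_zero])
      (convex_Icc 0 b) ⟨le_rfl, h0b⟩ hr
    rw [zero_mul, hU.im, sub_zero] at h1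
    exact norm_le_zero_iff.1 h1
  have cA : ContinuousOn A (Icc 0 b) := fun r hr => (hA r hr).continuousWithinAt
  have cAc : ContinuousOn (fun r => (A r : ℂ)) (Icc 0 b) :=
    Complex.continuous_ofReal.comp_continuousOn cA
  obtain ⟨o, ho⟩ : ∃ o : ℝ → L2c, o = fun r => (v r : L2c) - (A r : ℂ) • cl2 (F.c0 m) := ⟨_, rfl⟩
  have hvo : ∀ r ∈ Icc 0 b, vt (F.c0 m) F.β A v mu r = o r := by
    intro r hr
    rw [ho]
    unfold vt
    rw [hmu r hr, Complex.ofReal_zero, zero_smul, sub_zero]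
  have co : ContinuousOn o (Icc 0 b) := by
    rw [ho]
    exact ((VD D).subtypeL.continuous.comp_continuousOn hU.cv).sub (cAc.smul continuousOn_const)
  obtain ⟨W, hW⟩ : ∃ W : ℝ → VD D, W = fun r => v r - (A r : ℂ) • Q := ⟨_, rfl⟩
  have cW : ContinuousOn W (Icc 0 b) := by
    rw [hW]
    exact hU.cv.sub (cAc.smul continuousOn_const)
  have hWi : ∀ r, iot D (W r) = F.ww m (A r) (v r) := by
    intro r
    rw [hW]
    show iot D (v r - (A r : ℂ) • Q) = iot D (v r) - (A r : ℂ) • F.gPs m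
    rw [map_sub, map_smul, hQi]
  have hWv : ∀ r, v r = W r + (A r : ℂ) • Q := by
    intro r
    rw [hW]
    exact (sub_add_cancel _ _).symm
  have hoW : ∀ r, o r = (W r : L2c) + (A r : ℂ) • g := by
    intro r
    rw [ho, hW, hg]
    show (v r : L2c) - (A r : ℂ) • cl2 (F.c0 m) = ((v r : L2c) - (A r : ℂ) • (Q : L2c)) +
      (A r : ℂ) • ((Q : L2c) - cl2 (F.c0 m))
    rw [smul_sub]
    abel
  have hWr : ∀ r ∈ Icc 0 b, cVD D (W r) = W r := by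
    intro r hr
    rw [hW]
    show cVD D (v r - (A r : ℂ) • Q) = v r - (A r : ℂ) • Q
    have e1 : cVD D ((A r : ℂ) • Q) = conj (A r : ℂ) • cVD D Q := (FCj_D hD).V.anti _ _
    rw [map_sub, hU.rv r hr, e1, hQr, Complex.conj_ofReal]
  have hFc : ContinuousOn (fhF_F D o v A' z) (Icc 0 b) := fhF_cont z co hU.cv hA'
  have hsubI : ∀ {s t : ℝ}, 0 ≤ s → s ≤ t → t ≤ b → uIcc s t ⊆ Icc 0 b := by
    intro s t hs hst ht
    rw [uIcc_of_le hst]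
    exact Icc_subset_Icc hs ht
  have heq : ∀ ψ : Adm D, ∀ s t, 0 ≤ s → s ≤ t → t ≤ b →
      ⟪iot D (cuV D ψ), iot D (W t)⟫_ℂ - ⟪iot D (cuV D ψ), iot D (W s)⟫_ℂ =
        ∫ r in s..t, ⟪cuV D ψ, fhF_F D o v A' z r⟫_ℂ := by
    intro ψ s t hs hst ht
    have hsub := hsubI hs hst ht
    have e1 := hU.eq ψ s t hs hst ht
    have e2 := fhF_ftc hA hA' hs hst ht
    have e3 : ∀ r, ⟪gpX D ψ, iot D (W r)⟫_ℂ = ⟪gpX D ψ, iot D (v r)⟫_ℂ -
        (A r : ℂ) * ⟪gpX D ψ, F.gPs m⟫_ℂ := by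
      intro r
      rw [hWi]
      show ⟪((gpX D ψ : XD D) : Y2), ((iot D (v r) : XD D) : Y2) - (A r : ℂ) • ((F.gPs m : XD D) : Y2)⟫_ℂ = _
      rw [inner_sub_right, inner_smul_right]
      rfl
    have iA : IntervalIntegrable (fun r => (A' r : ℂ)) volume s t :=
      ((Complex.continuous_ofReal.comp_continuousOn hA').mono hsub).intervalIntegrable
    have iF : IntervalIntegrable (fun r => ⟪cuV D ψ, fhF_F D o v A' z r⟫_ℂ) volume s t :=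
      (((innerSL ℂ (cuV D ψ)).continuous.comp_continuousOn hFc).mono hsub).intervalIntegrable
    have e4 : ∫ r in s..t, (-⟪cu ψ, vt (F.c0 m) F.β A v mu r⟫_ℂ +
        PD.NL (jj D (v r)) (vt (F.c0 m) F.β A v mu r) (jj D (cuV D ψ)) -
        ((0 : ℝ) : ℂ) * ⟪cl2 (fun x => F.d x * (ψ : ℂ → ℂ) x), vt (F.c0 m) F.β A v mu r⟫_ℂ +
        (mu' r : ℂ) * ⟪cl2 ψ, cl2 F.β⟫_ℂ + (A' r : ℂ) * ⟪cl2 ψ, cl2 (F.c0 m)⟫_ℂ) =
        ∫ r in s..t, (⟪cuV D ψ, fhF_F D o v A' z r⟫_ℂ + (A' r : ℂ) * ⟪gpX D ψ, F.gPs m⟫_ℂ) := by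
      refine intervalIntegral.integral_congr fun r hr => ?_
      have hr' := hsub hr
      rw [fhF_inner hD, iot_cuV hD, hvo r hr', hmu' r hr', hz2 ψ, cuV_coe]
      simp only [Complex.ofReal_zero]
      ring
    rw [e4, intervalIntegral.integral_add iF (iA.mul_const _), intervalIntegral.integral_mul_const,
      e2] at e1
    rw [iot_cuV hD, e3, e3]
    linear_combination e1
  have key := (fdom hD).energyM (cuV_dense D) cW hFc heq (M := ContinuousLinearMap.id ℂ (XD D))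
    (M' := ContinuousLinearMap.id ℂ (VD D)) (fun x y => rfl) (fun v => rfl) le_rfl ht.1 ht.2
  have hn : ∀ x : XD D, (⟪(ContinuousLinearMap.id ℂ (XD D)) x, x⟫_ℂ).re = ‖x‖ ^ 2 := fun x =>
    inner_self_eq_norm_sq (𝕜 := ℂ) x
  rw [hn, hn, hWi, hWi] at key
  have hpt : ∀ r ∈ Icc 0 b, (⟪(ContinuousLinearMap.id ℂ (VD D)) (W r), fhF_F D o v A' z r⟫_ℂ).re ≤
      ((2 * α ^ 4 + 1 / 8) + ((α * γ) ^ 2 + γ ^ 2)) * (1 + ‖F.ww m (A r) (v r)‖ ^ 2) +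
        C * (|A' r| * ‖F.ww m (A r) (v r)‖) := by
    intro r hr
    obtain ⟨hA1, hA2⟩ := hb r hr
    rw [← ha0] at hA2
    obtain ⟨x, hx⟩ : ∃ x : ℝ, x = ‖W r‖ := ⟨_, rfl⟩
    obtain ⟨y, hy⟩ : ∃ y : ℝ, y = ‖F.ww m (A r) (v r)‖ := ⟨_, rfl⟩
    have hx0 : 0 ≤ x := by rw [hx]; exact norm_nonneg _
    have hy0 : 0 ≤ y := by rw [hy]; exact norm_nonneg _
    have hAn : ‖(A r : ℂ)‖ = A r := by rw [Complex.norm_real, Real.norm_eq_abs, abs_of_nonneg hA1]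
    -- the first term
    have t1 : -(⟪(W r : L2c), o r⟫_ℂ).re ≤ -x ^ 2 + γ * x := by
      rw [hoW, inner_add_right, inner_smul_right, Complex.add_re]
      have f1 : (⟪(W r : L2c), (W r : L2c)⟫_ℂ).re = x ^ 2 := by
        rw [hx]
        exact inner_self_eq_norm_sq (𝕜 := ℂ) (W r : L2c)
      have f2 : |((A r : ℂ) * ⟪(W r : L2c), g⟫_ℂ).re| ≤ γ * x := by
        refine (Complex.abs_re_le_norm _).trans ?_
        rw [norm_mul, hAn]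
        have f3 : ‖⟪(W r : L2c), g⟫_ℂ‖ ≤ x * ‖g‖ := by rw [hx]; exact norm_inner_le_norm _ _
        calc A r * ‖⟪(W r : L2c), g⟫_ℂ‖ ≤ a0 * (x * ‖g‖) :=
              mul_le_mul hA2 f3 (norm_nonneg _) ha00
          _ = γ * x := by rw [hγ]; ring
      rw [f1]
      linarith [neg_abs_le (((A r : ℂ) * ⟪(W r : L2c), g⟫_ℂ).re)]
    have t2 : (PD.NL (jj D (v r)) (o r) (jj D (W r))).re ≤ α * (x + γ) * √(x * y) := by
      have f1 : PD.NL (jj D (v r)) (o r) (jj D (W r)) =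
          (A r : ℂ) * PD.NL (jj D Q) (o r) (jj D (W r)) := by
        have f2 : cZ4 (jj D (W r)) = jj D (W r) :=
          ((FCj_D hD).j (W r)).trans (congrArg (jj D) (hWr r hr))
        have f3 := PD.NL_self f2 (o r)
        have f4 : jj D (v r) = jj D (W r) + (A r : ℂ) • jj D Q := by
          rw [← map_smul, ← map_add, ← hWv r]
        rw [f4, map_add, map_smul]
        show PD.NL (jj D (W r)) (o r) (jj D (W r)) +
          (A r : ℂ) • (PD.NL (jj D Q) (o r) (jj D (W r))) = _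
        rw [f3, zero_add, smul_eq_mul]
      rw [f1]
      refine (Complex.re_le_norm _).trans ?_
      rw [norm_mul, hAn]
      have g1 : ‖PD.NL (jj D Q) (o r) (jj D (W r))‖ ≤ 2 * ‖jj D Q‖ * ‖o r‖ * ‖jj D (W r)‖ :=
        ((PD.NL (jj D Q) (o r)).le_opNorm _).trans
          (mul_le_mul_of_nonneg_right (PD.NL_norm _ _) (norm_nonneg _))
      have g2 : ‖o r‖ ≤ x + γ := by
        rw [hoW]
        refine (norm_add_le _ _).trans ?_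
        rw [norm_smul, hAn, hx, hγ]
        have g3 : A r * ‖g‖ ≤ a0 * ‖g‖ := mul_le_mul_of_nonneg_right hA2 (norm_nonneg _)
        have g4 : ‖(W r : L2c)‖ = ‖W r‖ := rfl
        linarith
      have g3 : ‖jj D (W r)‖ ≤ C₁ * √(x * y) := by
        have g4 := hL.le (W r)
        rw [hWi, ← hx, ← hy] at g4
        refine abs_le_of_sq_le_sq' ?_ (mul_nonneg hL.C0 (Real.sqrt_nonneg _)) |>.2
        rw [mul_pow, Real.sq_sqrt (mul_nonneg hx0 hy0), mul_comm x y]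
        exact g4
      have g5 : 0 ≤ ‖o r‖ := norm_nonneg _
      have g6 : 0 ≤ ‖jj D (W r)‖ := norm_nonneg _
      have g7 : 0 ≤ ‖jj D Q‖ := norm_nonneg _
      calc A r * ‖PD.NL (jj D Q) (o r) (jj D (W r))‖
          ≤ a0 * (2 * ‖jj D Q‖ * ‖o r‖ * ‖jj D (W r)‖) := mul_le_mul hA2 g1 (norm_nonneg _) ha00
        _ ≤ a0 * (2 * ‖jj D Q‖ * (x + γ) * (C₁ * √(x * y))) := by
            refine mul_le_mul_of_nonneg_left ?_ ha00
            exact mul_le_mul (mul_le_mul_of_nonneg_left g2 (by linarith)) g3 g6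
              (mul_nonneg (by linarith) (by linarith))
        _ = α * (x + γ) * √(x * y) := by rw [hα]; ring
    have t3 : ((A' r : ℂ) * ⟪iot D (W r), z⟫_ℂ).re ≤ C * (|A' r| * y) := by
      refine (Complex.re_le_norm _).trans ?_
      rw [norm_mul, Complex.norm_real, Real.norm_eq_abs]
      have f1 : ‖⟪iot D (W r), z⟫_ℂ‖ ≤ y * ‖z‖ := by
        rw [hy, ← hWi]
        exact norm_inner_le_norm (𝕜 := ℂ) (iot D (W r)) z
      calc |A' r| * ‖⟪iot D (W r), z⟫_ℂ‖ ≤ |A' r| * (y * C) :=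
            mul_le_mul_of_nonneg_left (f1.trans (mul_le_mul_of_nonneg_left hz1 hy0)) (abs_nonneg _)
        _ = C * (|A' r| * y) := by ring
    have t4 := fhF_alg (x := x) (y := y) (s := √(x * y)) (α := α) (γ := γ)
      (N := -(⟪(W r : L2c), o r⟫_ℂ).re + (PD.NL (jj D (v r)) (o r) (jj D (W r))).re)
      (by rw [Real.sq_sqrt (mul_nonneg hx0 hy0)]) (by linarith)
    rw [← hy]
    have t5 : (⟪(ContinuousLinearMap.id ℂ (VD D)) (W r), fhF_F D o v A' z r⟫_ℂ).re =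
        -(⟪(W r : L2c), o r⟫_ℂ).re + (PD.NL (jj D (v r)) (o r) (jj D (W r))).re +
          ((A' r : ℂ) * ⟪iot D (W r), z⟫_ℂ).re := by
      rw [ContinuousLinearMap.id_apply, fhF_inner hD, Complex.add_re, Complex.add_re,
        Complex.neg_re]
    rw [t5]
    have t6 : 0 ≤ 2 * α ^ 4 + 1 / 8 := by positivity
    have t7 : 0 ≤ ((α * γ) ^ 2 + γ ^ 2) * y ^ 2 := by positivity
    nlinarith
  have hsub := hsubI le_rfl ht.1 ht.2
  have cy : ContinuousOn (fun r => ‖F.ww m (A r) (v r)‖) (Icc 0 b) := by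
    have h1 : ContinuousOn (fun r => ‖iot D (W r)‖) (Icc 0 b) :=
      ((iot D).continuous.comp_continuousOn cW).norm
    refine h1.congr fun r _ => ?_
    beta_reduce
    rw [hWi]
  have i1 : IntervalIntegrable (fun r => 1 + ‖F.ww m (A r) (v r)‖ ^ 2) volume 0 t :=
    ((continuousOn_const.add (cy.pow 2)).mono hsub).intervalIntegrable
  have i2 : IntervalIntegrable (fun r => |A' r| * ‖F.ww m (A r) (v r)‖) volume 0 t :=
    ((hA'.abs.mul cy).mono hsub).intervalIntegrable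
  have i3 : IntervalIntegrable (fun r =>
      (⟪(ContinuousLinearMap.id ℂ (VD D)) (W r), fhF_F D o v A' z r⟫_ℂ).re) volume 0 t := by
    have h1 : ContinuousOn (fun r => (⟪W r, fhF_F D o v A' z r⟫_ℂ).re) (Icc 0 b) :=
      Complex.continuous_re.comp_continuousOn (cW.inner hFc)
    exact (h1.mono hsub).intervalIntegrable
  have hint := intervalIntegral.integral_mono_on ht.1 i3
    ((i1.const_mul ((2 * α ^ 4 + 1 / 8) + ((α * γ) ^ 2 + γ ^ 2))).add (i2.const_mul C))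
    (fun r hr => hpt r ⟨hr.1, hr.2.trans ht.2⟩)
  rw [intervalIntegral.integral_add (i1.const_mul _) (i2.const_mul _),
    intervalIntegral.integral_const_mul, intervalIntegral.integral_const_mul] at hint
  linarith

end FD

end Pool.Agent.Lib.MP_79abb3_an.PD
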