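import Pool.Agent.Lib.MP_79abb3_an.PD.FinN

/-!
Theorem D: free flow of small data.
-/

set_option autoImplicit false
set_option linter.unusedSectionVars false

open MeasureTheory Set Filter Topology Function
open scoped ENNReal InnerProductSpace ComplexConjugate

namespace Pool.Agent.Lib.MP_79abb3_an.PD

open Pool.Agent.Lib.MP_79abb3_an.SC

section
variable {D Ω Z : Set ℂ} {v : ℝ → VD D} {a b : ℝ}

/-- **Free flow.** Proof: `NSA.global`, `Slv.smooth` with `f = 0`, `B = 0`; `Slv.weak`. -/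
theorem free_flow (hD : Bornology.IsBounded D) : ∃ δ, 0 < δ ∧ ∀ v₀ : VD D, cVD D v₀ = v₀ → ‖iot D v₀‖ ≤ δ →
    ∀ h, 0 < h → ∃ v : ℝ → VD D, Fl0 D D v 0 h ∧ v 0 = v₀ ∧ √h * ‖v h‖ ≤ 2 * ‖iot D v₀‖ := by
  obtain ⟨C, hA⟩ := exists_NSA hD
  have hR := NSR_D hD
  have hf := fdom hD
  obtain ⟨δ, hδ, hsm⟩ := Slv.smooth hA hR
  have hKh : ∀ x, ‖Kh (KD D) x‖ = ‖iot D (Qv (iot D) x)‖ := fun x => by rw [hf.ι_Qv]; rfl
  have hQ : ∀ x, cVD D (Qv (iot D) x) = Qv (iot D) (cXD D x) := fun x => (FCj_D hD).Qv hf x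
  refine ⟨δ, hδ, fun v₀ hv h0 h hh => ?_⟩
  obtain ⟨x₀, hx₀⟩ := hf.Qv_surj v₀
  have hc : cXD D x₀ = x₀ := by
    have h1 : Qv (iot D) (cXD D x₀ - x₀) = 0 := by
      rw [map_sub, ← hQ, hx₀, hv, sub_self]
    have h2 := hf.norm_Qv (cXD D x₀ - x₀)
    rw [h1, norm_zero] at h2
    exact sub_eq_zero.1 (norm_eq_zero.1 h2.symm)
  obtain ⟨x, hx, hr⟩ := hA.global hR (f := fun _ => 0) (B := fun _ => 0) hh.le continuousOn_const
    continuousOn_const (fun _ _ => map_zero _) (fun _ _ _ => map_zero _) hc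
  have hi : x 0 = x₀ := Mild.init hA.ker hx hh.le
  refine ⟨fun t => Qv (iot D) (x t), ⟨(Qv (iot D)).continuous.comp_continuousOn hx.cont,
    fun t ht => ?_, WEq_zero_iff.2 fun ψ hψ s t hs hst ht => ?_⟩, ?_, ?_⟩
  · exact (hQ _).trans (congrArg (Qv (iot D)) (hr t ht))
  · have h1 := Slv.weak hD hA (f := fun _ => 0) (B := fun _ => 0) continuousOn_const continuousOn_const hx
      ⟨ψ, hψ⟩ hs hst ht
    rw [jj_g4 hD] at h1
    refine h1.trans (intervalIntegral.integral_congr fun r _ => ?_)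
    show _ + _ + ⟪_, (0 : XD D) + (0 : XD D →L[ℂ] XD D) (x r)⟫_ℂ = _
    rw [zero_apply, add_zero, inner_zero_right, add_zero]
    rfl
  · show Qv (iot D) (x 0) = v₀
    rw [hi, hx₀]
  · have h1 := (hsm hx hr (by rw [hKh, hi, hx₀]; exact h0) h ⟨hh.le, le_rfl⟩).2
    rw [sub_zero, hKh, hi, hx₀] at h1
    show √h * ‖Qv (iot D) (x h)‖ ≤ _
    rw [hf.norm_Qv]
    exact h1

end

end Pool.Agent.Lib.MP_79abb3_an.PD
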