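import Pool.Agent.Lib.MP_79abb3_an.PD.FinN3
import Pool.Agent.Lib.MP_79abb3_an.PD.FinN4

/-!
Theorem D: from any state to rest.
-/

set_option autoImplicit false
set_option linter.unusedSectionVars false

open MeasureTheory Set Filter Topology Function
open scoped ENNReal InnerProductSpace ComplexConjugate

namespace Pool.Agent.Lib.MP_79abb3_an.PD

open Pool.Agent.Lib.MP_79abb3_an.SC

/-- Flows one after the other. -/
theorem Fl0.seq {D Ω : Set ℂ} {v w : ℝ → VD D} {c d : ℝ} (hc : 0 ≤ c) (hd : 0 ≤ d) (h : Fl0 D Ω v 0 c)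
    (h' : Fl0 D Ω w 0 d) (he : v c = w 0) :
    ∃ z : ℝ → VD D, Fl0 D Ω z 0 (c + d) ∧ z 0 = v 0 ∧ z (c + d) = w d := by
  have h1 := h'.shift c
  rw [zero_add, add_comm d c] at h1
  refine ⟨_, h.glue h1 (by rw [he, sub_self]) hc (by linarith), ?_, ?_⟩
  · simp [hc]
  · rcases hd.eq_or_lt with h0 | h0
    · subst h0
      simp [he]
    · have : ¬ c + d ≤ c := by linarith
      simp only [this, if_false, add_sub_cancel_left]

/-- Flush, free flow, null control: from any state to rest in time at most `T'`. Proof: `FlushD` with `δ` so small that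
`free_flow` applies and `2 δ / √h ≤ ε` (`ε` from `NullD`), times `T'/3` each; `Fl0.shift`, `Fl0.glue`, `Fl0.mono`. -/
theorem to_rest {D N : Set ℂ} (hD : Bornology.IsBounded D) (hF : FlushD D N) (hN : NullD D N) {v₀ : VD D}
    (hv : cVD D v₀ = v₀) {T' : ℝ} (hT : 0 < T') :
    ∃ v : ℝ → VD D, Fl0 D (D \ N) v 0 T' ∧ v 0 = v₀ ∧ v T' = 0 := by
  have hh : 0 < T' / 3 := by positivity
  have hTn : 0 < min (T' / 3) 1 := lt_min hh one_pos
  obtain ⟨ε, hε, hnull⟩ := hN (min (T' / 3) 1) hTn (min_le_right _ _)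
  obtain ⟨δ0, hδ0, hfree⟩ := free_flow hD
  have hs : 0 < √(T' / 3) := Real.sqrt_pos.2 hh
  obtain ⟨t2, ht2, ht2', v1, f1, i1, e1⟩ := hF v₀ hv (T' / 3) hh (min δ0 (ε * √(T' / 3) / 2))
    (lt_min hδ0 (by positivity))
  have r1 : cVD D (v1 t2) = v1 t2 := f1.rv t2 ⟨ht2.le, le_rfl⟩
  obtain ⟨v2, f2, i2, e2⟩ := hfree (v1 t2) r1 (e1.trans (min_le_left _ _)) (T' / 3) hh
  have r2 : cVD D (v2 (T' / 3)) = v2 (T' / 3) := f2.rv _ ⟨hh.le, le_rfl⟩
  have n2 : ‖v2 (T' / 3)‖ ≤ ε := by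
    have h1 : ‖iot D (v1 t2)‖ ≤ ε * √(T' / 3) / 2 := e1.trans (min_le_right _ _)
    have h2 : √(T' / 3) * ‖v2 (T' / 3)‖ ≤ √(T' / 3) * ε := by linarith
    exact le_of_mul_le_mul_left h2 hs
  obtain ⟨v3, f3, i3, e3⟩ := hnull (v2 (T' / 3)) r2 n2
  obtain ⟨z1, g1, j1, k1⟩ := Fl0.seq ht2.le hh.le f1 (f2.mono sdiff_subset) i2.symm
  obtain ⟨z2, g2, j2, k2⟩ := Fl0.seq (by positivity) hTn.le g1 f3 (k1.trans i3.symm)
  have hr : 0 ≤ T' - (t2 + T' / 3 + min (T' / 3) 1) := by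
    have := min_le_left (T' / 3) 1
    linarith
  obtain ⟨z3, g3, j3, k3⟩ := Fl0.seq (by positivity) hr g2
    (Fl0.rest D (D \ N) 0 (T' - (t2 + T' / 3 + min (T' / 3) 1))) (k2.trans e3)
  have e : t2 + T' / 3 + min (T' / 3) 1 + (T' - (t2 + T' / 3 + min (T' / 3) 1)) = T' := by ring
  rw [e] at g3 k3
  exact ⟨z3, g3, by rw [j3, j2, j1, i1], k3⟩

end Pool.Agent.Lib.MP_79abb3_an.PD
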