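import Pool.Agent.Lib.MP_79abb3_an.PD.FhE
import Pool.Agent.Lib.MP_79abb3_an.PD.FdA
import Pool.Agent.Lib.MP_79abb3_an.PD.FinR

/-!
Theorem D, block F: **the flush**.
-/

set_option autoImplicit false
set_option linter.unusedSectionVars false

open MeasureTheory Set Filter Topology Function
open scoped ENNReal InnerProductSpace ComplexConjugate

namespace Pool.Agent.Lib.MP_79abb3_an.PD

open Pool.Agent.Lib.MP_79abb3_an.SC Pool.Agent.Lib.MP_79abb3_an.P25

theorem FD.flush {D : Set ℂ} (F : FD D) (hA : F.HasApx) : FlushD D (Metric.closedBall F.x F.t) := by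
  intro v₀ hv T' hT δ hδ
  obtain ⟨C, m2, hC, hm2, hsw⟩ := F.switch_off
  obtain ⟨m1, hm1, hst⟩ := F.stage_one hA (norm_nonneg v₀) (δ := δ / 8) (by positivity)
  have e1 : ∀ᶠ m : ℕ in atTop, F.bm m < T' / 2 := F.bm_tend.eventually_lt_const (by positivity)
  have e2 : ∀ᶠ m : ℕ in atTop, C * F.A0 m < δ / 4 := by
    have h := F.A0_tend.const_mul C
    rw [mul_zero] at h
    exact h.eventually_lt_const (by positivity)
  obtain ⟨m, h1, h2, h3, h4⟩ := (e1.and (e2.and ((eventually_ge_atTop m1).and (eventually_ge_atTop m2)))).exists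
  obtain ⟨t1, ht1, htb, v, hv1, hv2, hv3⟩ := hst m h3 hv le_rfl
  have hr : cVD D (v t1) = v t1 := hv1.rv t1 ⟨ht1.le, le_rfl⟩
  obtain ⟨s, hs, hsT, w, hw1, hw2, hw3⟩ := hsw m h4 hr (τ := T' / 2) (δ := δ / 4) (by positivity) (by positivity)
  obtain ⟨z, hz1, hz2, hz3⟩ := Fl0.seq ht1.le hs.le hv1 hw1 hw2.symm
  refine ⟨t1 + s, by positivity, by linarith, z, hz1, hz2.trans hv2, ?_⟩
  rw [hz3]
  linarith

/-- **The flush** in planar domains, given the approximation of the outer vorticity (FeL). -/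
theorem flush_of (hA : ∀ {D : Set ℂ} (F : FD D), F.HasApx) {D : Set ℂ} (hD : IsPlanar D) {x : ℂ} {t : ℝ} (ht : 0 < t)
    (hb : Metric.closedBall x t ⊆ D) : FlushD D (Metric.closedBall x t) := by
  obtain ⟨F, rfl, rfl⟩ := exists_FD hD ht hb
  exact F.flush (hA F)

end Pool.Agent.Lib.MP_79abb3_an.PD
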