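import Pool.Agent.Lib.MP_79abb3_an.PD.PhB

/-!
Theorem D, block P: the equation of the total flow.
-/

set_option autoImplicit false
set_option linter.unusedSectionVars false

open MeasureTheory Set Filter Topology Function
open scoped ENNReal InnerProductSpace ComplexConjugate

namespace Pool.Agent.Lib.MP_79abb3_an.PD

open Pool.Agent.Lib.MP_79abb3_an.SC

section
variable {D Ω Γ : Set ℂ} {u₀ : ℂ → ℂ} {Lf : ℕ → ℂ → ℂ} {τ : ℕ → ℝ}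

/-- **The equation of the total flow.** Proof: `Slv.weak` for `ψ ∈ Adm Ω ⊆ Adm D`, `Lt_deriv` paired with `gp ψ`, `gp_fl`, `gp_qf`,
`gp_bf`, `inner_PX`, `jj_g4`. -/
theorem WEq_of_slv (hD : Bornology.IsBounded D) (hO : IsOpen Ω) (hs : Ω ⊆ D) (h : Tms τ) (hL : Lif Ω Γ u₀ Lf)
    {a : ℝ} (ha : 0 < a) (hab : a ≤ τ 0) {x₀ : XD D} {x : ℝ → XD D}
    (hx : Slv (KD D) (JD D) (ND D) (fP D Ω τ Lf) (BP D Ω τ Lf) a (τ 0) x₀ x) :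
    WEq D Ω (Lt τ Lf) (fun t => Qv (iot D) (x t)) a (τ 0) := by
  intro ψ hψ s t has hst htb
  have hΩ := hO.measurableSet
  have hψD : ψ ∈ Adm D := Adm.mono hs hψ
  have hsub : Icc a (τ 0) ⊆ Ioc 0 (τ 0) := fun r hr => ⟨ha.trans_le hr.1, hr.2⟩
  have hsub' : Icc s t ⊆ Icc a (τ 0) := Icc_subset_Icc has htb
  obtain ⟨C, hC⟩ := exists_NSA hD
  have hf := (fP_cont (D := D) hΩ h hL).mono hsub
  have hB := (BP_cont (D := D) hΩ h hL).mono hsub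
  have hw := Slv.weak hD hC hf hB hx ⟨ψ, hψD⟩ has hst htb
  have hco := Lt_FCo hΩ h hL
  have hcI : FCo Ω (Lt τ Lf) (Icc s t) :=
    ⟨hco.o.mono (hsub'.trans hsub), hco.x.mono (hsub'.trans hsub), hco.y.mono (hsub'.trans hsub),
      hco.w.mono (hsub'.trans hsub), hco.f.mono (hsub'.trans hsub)⟩
  have hvc : ContinuousOn (fun t => Qv (iot D) (x t)) (Icc s t) :=
    (Qv (iot D)).continuous.comp_continuousOn (hx.cont.mono hsub')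
  have hC1 := WEq.cont_rhs hcI hvc ψ
  have hC2 : ContinuousOn (fun r => ⟪gp ψ, fo Ω (Lt' τ Lf r)⟫_ℂ) (Icc s t) :=
    ContinuousOn.inner continuousOn_const ((Lt'_cont hΩ h hL).mono (hsub'.trans hsub))
  have hI1 : IntervalIntegrable (fun r => -⟪cu ψ, fw Ω (Lt τ Lf r) + (Qv (iot D) (x r) : L2c)⟫_ℂ +
      NL (f4 Ω (Lt τ Lf r) + jj D (Qv (iot D) (x r))) (fw Ω (Lt τ Lf r) + (Qv (iot D) (x r) : L2c))
        (g4 ψ)) volume s t := by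
    refine ContinuousOn.intervalIntegrable ?_
    rw [uIcc_of_le hst]
    exact hC1
  have hI2 : IntervalIntegrable (fun r => ⟪gp ψ, fo Ω (Lt' τ Lf r)⟫_ℂ) volume s t := by
    refine ContinuousOn.intervalIntegrable ?_
    rw [uIcc_of_le hst]
    exact hC2
  have hI3 : IntervalIntegrable (fun r => fo Ω (Lt' τ Lf r)) volume s t := by
    refine ContinuousOn.intervalIntegrable ?_
    rw [uIcc_of_le hst]
    exact (Lt'_cont hΩ h hL).mono (hsub'.trans hsub)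
  -- the derivative of the lifting
  have hder := Lt_deriv hΩ h hL (ha.trans_le has) hst htb
  have hder2 : ⟪gp ψ, fo Ω (Lt τ Lf t)⟫_ℂ - ⟪gp ψ, fo Ω (Lt τ Lf s)⟫_ℂ =
      ∫ r in s..t, ⟪gp ψ, fo Ω (Lt' τ Lf r)⟫_ℂ := by
    rw [← inner_sub_right, hder]
    exact ((innerSL ℂ (gp ψ)).intervalIntegral_comp_comm hI3).symm
  -- the integrand
  have hint : ∫ r in s..t, (-⟪cuV D ⟨ψ, hψD⟩, Qv (iot D) (x r)⟫_ℂ +
        NL (jj D (Qv (iot D) (x r))) ((Qv (iot D) (x r) : VD D) : L2c) (jj D (cuV D ⟨ψ, hψD⟩)) +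
        ⟪gpX D ⟨ψ, hψD⟩, fP D Ω τ Lf r + BP D Ω τ Lf r (x r)⟫_ℂ) =
      ∫ r in s..t, ((-⟪cu ψ, fw Ω (Lt τ Lf r) + (Qv (iot D) (x r) : L2c)⟫_ℂ +
        NL (f4 Ω (Lt τ Lf r) + jj D (Qv (iot D) (x r))) (fw Ω (Lt τ Lf r) + (Qv (iot D) (x r) : L2c))
          (g4 ψ)) - ⟪gp ψ, fo Ω (Lt' τ Lf r)⟫_ℂ) := by
    refine intervalIntegral.integral_congr fun r hr => ?_
    rw [uIcc_of_le hst] at hr
    have hr' := hsub (hsub' hr)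
    have hLF := Lt_LF h hL hr'
    have e1 : ⟪gpX D ⟨ψ, hψD⟩, fP D Ω τ Lf r⟫_ℂ = -⟪cu ψ, fw Ω (Lt τ Lf r)⟫_ℂ -
        ⟪gp ψ, fo Ω (Lt' τ Lf r)⟫_ℂ + NL (f4 Ω (Lt τ Lf r)) (fw Ω (Lt τ Lf r)) (g4 ψ) := by
      unfold fP
      rw [inner_PX]
      show ⟪gp ψ, fl Ω (Lt τ Lf r) - fo Ω (Lt' τ Lf r) + qf Ω (Lt τ Lf r)⟫_ℂ = _
      rw [inner_add_right, inner_sub_right, gp_fl hO hLF.cc hLF.dv hψ, gp_qf hΩ hLF.cc hψ.1]
    have e2 : ⟪gpX D ⟨ψ, hψD⟩, BP D Ω τ Lf r (x r)⟫_ℂ =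
        NL (f4 Ω (Lt τ Lf r)) ((Qv (iot D) (x r) : VD D) : L2c) (g4 ψ) +
          NL (jj D (Qv (iot D) (x r))) (fw Ω (Lt τ Lf r)) (g4 ψ) := by
      unfold BP
      have e3 : (((PX D).comp (bf Ω (Lt τ Lf r) D)).comp (Qv (iot D))) (x r) =
          PX D (bf Ω (Lt τ Lf r) D (Qv (iot D) (x r))) := rfl
      rw [e3, inner_PX]
      exact gp_bf hD hΩ hLF.cc _ hψ.1
    have e4 : ⟪cuV D ⟨ψ, hψD⟩, Qv (iot D) (x r)⟫_ℂ =
        ⟪cu ψ, ((Qv (iot D) (x r) : VD D) : L2c)⟫_ℂ := rfl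
    have e5 : jj D (cuV D ⟨ψ, hψD⟩) = g4 ψ := jj_g4 hD ⟨ψ, hψD⟩
    show -⟪cuV D ⟨ψ, hψD⟩, Qv (iot D) (x r)⟫_ℂ +
        NL (jj D (Qv (iot D) (x r))) ((Qv (iot D) (x r) : VD D) : L2c) (jj D (cuV D ⟨ψ, hψD⟩)) +
        ⟪gpX D ⟨ψ, hψD⟩, fP D Ω τ Lf r + BP D Ω τ Lf r (x r)⟫_ℂ =
      (-⟪cu ψ, fw Ω (Lt τ Lf r) + (Qv (iot D) (x r) : L2c)⟫_ℂ +
        NL (f4 Ω (Lt τ Lf r) + jj D (Qv (iot D) (x r))) (fw Ω (Lt τ Lf r) + (Qv (iot D) (x r) : L2c))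
          (g4 ψ)) - ⟪gp ψ, fo Ω (Lt' τ Lf r)⟫_ℂ
    rw [e5, e4, inner_add_right, e1, e2, inner_add_right]
    simp only [map_add, add_apply]
    ring
  rw [hint, intervalIntegral.integral_sub hI1 hI2] at hw
  have g1 : ∀ r, ⟪gpX D ⟨ψ, hψD⟩, iot D (Qv (iot D) (x r))⟫_ℂ =
      ⟪gp ψ, ((iot D (Qv (iot D) (x r)) : XD D) : Y2)⟫_ℂ := fun r => rfl
  rw [g1, g1] at hw
  rw [inner_add_right, inner_add_right]
  linear_combination hw + hder2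

end

end Pool.Agent.Lib.MP_79abb3_an.PD
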