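import Pool.Agent.Lib.MP_79abb3_an.PD.PhB2
import Pool.Agent.Lib.MP_79abb3_an.PD.PhB3

/-!
Theorem D, block P: phase P.
-/

set_option autoImplicit false
set_option linter.unusedSectionVars false

open MeasureTheory Set Filter Topology Function
open scoped ENNReal InnerProductSpace ComplexConjugate

namespace Pool.Agent.Lib.MP_79abb3_an.PD

open Pool.Agent.Lib.MP_79abb3_an.SC

section
variable {D Ω Γ : Set ℂ} {u₀ : ℂ → ℂ} {Lf : ℕ → ℂ → ℂ} {τ : ℕ → ℝ}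

/-- **Phase P.** Proof: `exists_Lif`, `exists_tau`, `St0.start`, `WEq_of_slv`; `v t = Qv (iot D) (x t)`, `iot v = Kh x`. -/
theorem phase_P (hD : Bornology.IsBounded D) (hO : IsOpen Ω) (hs : Ω ⊆ D) (hu : IsData Ω Γ u₀) {T' : ℝ}
    (hT : 0 < T') : ∃ b, 0 < b ∧ b ≤ T' ∧ ∃ (L : ℝ → ℂ → ℂ) (v : ℝ → VD D), Tot D Ω Γ b u₀ L v ∧
      L b = fun _ => 0 := by
  have hΩ := hO.measurableSet
  have hΩb : Bornology.IsBounded Ω := hD.subset hs
  obtain ⟨Lf, hL⟩ := exists_Lif hO hΩb hu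
  obtain ⟨τ, hτ, hτT, hst, hfi⟩ := exists_tau hD hΩ hL hT
  obtain ⟨C, hC⟩ := exists_NSA hD
  obtain ⟨x, hx, hr, hl, hi⟩ := hst.start hC (NSR_D hD)
  have hd := fdom hD
  have hτ0 : 0 < τ 0 := hτ.pos 0
  refine ⟨τ 0, hτ0, hτT, Lt τ Lf, fun t => Qv (iot D) (x t),
    ⟨fun t ht => Lt_LF hτ hL ht, Lt_FCo hΩ hτ hL, hfi, Lt_init hτ hL hu.1, ?_, ?_, ?_, ?_, ?_⟩,
    Lt_top hτ hL⟩
  · intro t ht
    have h1 : ContinuousOn x (Icc (t / 2) (τ 0)) :=
      (hx (t / 2) (half_pos ht.1) ((half_le_self ht.1.le).trans ht.2)).cont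
    have h2 : ContinuousWithinAt x (Icc (t / 2) (τ 0)) t := h1 t ⟨half_le_self ht.1.le, ht.2⟩
    have h3 : ContinuousWithinAt x (Ioc 0 (τ 0)) t := by
      refine h2.mono_of_mem_nhdsWithin ?_
      have h4 : Ioi (t / 2) ∈ 𝓝 t := Ioi_mem_nhds (half_lt_self ht.1)
      filter_upwards [mem_nhdsWithin_of_mem_nhds h4, self_mem_nhdsWithin] with r hr1 hr2
      exact ⟨le_of_lt hr1, hr2.2⟩
    exact (Qv (iot D)).continuous.continuousAt.comp_continuousWithinAt h3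
  · intro t ht
    exact ((FCj_D hD).Qv hd (x t)).trans (congrArg (Qv (iot D)) (hr t ht))
  · have e : (fun t => ‖Qv (iot D) (x t)‖ ^ 2) = fun t => ‖x t‖ ^ 2 := by
      funext t
      rw [hd.norm_Qv]
    rw [e]
    exact hi
  · have e : (fun t => ‖iot D (Qv (iot D) (x t))‖) = fun t => ‖Kh (KD D) (x t)‖ := by
      funext t
      rw [hd.ι_Qv, KD_eq]
    rw [e]
    exact hl
  · intro a ha hab
    exact WEq_of_slv hD hO hs hτ hL ha hab (hx a ha hab)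

end

end Pool.Agent.Lib.MP_79abb3_an.PD
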