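import Pool.Agent.Lib.MP_79abb3_an.PD.TfF

/-!
Theorem D, block A: the divergence and the equation of a representative.
-/

set_option autoImplicit false
set_option linter.unusedSectionVars false

open MeasureTheory Set Filter Topology Function
open scoped ENNReal InnerProductSpace ComplexConjugate

namespace Pool.Agent.Lib.MP_79abb3_an.PD

open Pool.Agent.Lib.MP_79abb3_an.SC

section
variable {D Ω Γ : Set ℂ} {T : ℝ} {u₀ : ℂ → ℂ} {L : ℝ → ℂ → ℂ} {v : ℝ → VD D}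
variable {hD : Bornology.IsBounded D} {u g h' : ℝ × ℂ → ℂ}

private theorem tff3_cd {E : Type*} [NormedAddCommGroup E] [NormedSpace ℝ E] {φ : ℝ × ℂ → E}
    (h : ContDiff ℝ ((⊤ : ℕ∞) : WithTop ℕ∞) φ) (w : ℝ × ℂ) :
    ContDiff ℝ ((⊤ : ℕ∞) : WithTop ℕ∞) (fun p => fderiv ℝ φ p w) := by
  have h1 : ContDiff ℝ ((⊤ : ℕ∞) : WithTop ℕ∞) (fderiv ℝ φ) :=
    ContDiff.fderiv_right h (by exact_mod_cast le_top)
  exact h1.clm_apply contDiff_const

private theorem tff3_sup {E : Type*} [NormedAddCommGroup E] [NormedSpace ℝ E] (φ : ℝ × ℂ → E)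
    (w : ℝ × ℂ) : tsupport (fun p => fderiv ℝ φ p w) ⊆ tsupport φ :=
  tsupport_fderiv_apply_subset ℝ w

private theorem tff3_zero {E : Type*} [NormedAddCommGroup E] [NormedSpace ℝ E] {φ : ℝ × ℂ → E}
    {p : ℝ × ℂ} (hp : p ∉ tsupport φ) (w : ℝ × ℂ) : fderiv ℝ φ p w = 0 := by
  by_contra hne
  exact hp (tff3_sup φ w (subset_tsupport _ hne))

private theorem tff3_mem {E : Type*} [NormedAddCommGroup E] [NormedSpace ℝ E] {φ : ℝ × ℂ → E}
    (h : Continuous φ) (hc : HasCompactSupport φ) (S : Set (ℝ × ℂ)) :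
    MemLp φ 2 (volume.restrict S) :=
  (h.memLp_of_hasCompactSupport hc).restrict S

private theorem tff3_memD {E : Type*} [NormedAddCommGroup E] [NormedSpace ℝ E] {φ : ℝ × ℂ → E}
    (h : ContDiff ℝ ((⊤ : ℕ∞) : WithTop ℕ∞) φ) (hc : HasCompactSupport φ) (w : ℝ × ℂ)
    (S : Set (ℝ × ℂ)) : MemLp (fun p => fderiv ℝ φ p w) 2 (volume.restrict S) :=
  tff3_mem (tff3_cd h w).continuous (hc.mono' ((subset_tsupport _).trans (tff3_sup φ w))) S

private theorem tff3_rf (U : Y2) (x : ℂ) : (rf U x).re = ((U.fst : ℂ → ℂ) x).re ∧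
    (rf U x).im = ((U.snd : ℂ → ℂ) x).re := by
  unfold rf
  constructor
  · simp
  · simp

private theorem tff3_ae {U : Y2} (hU : cYy U = U) : ∀ᵐ x ∂(volume : Measure ℂ),
    (((rf U x).re : ℝ) : ℂ) = (U.fst : ℂ → ℂ) x ∧ (((rf U x).im : ℝ) : ℂ) = (U.snd : ℂ → ℂ) x := by
  have h1 : cL2 U.fst = U.fst := congrArg (fun z : Y2 => z.fst) hU
  have h2 : cL2 U.snd = U.snd := congrArg (fun z : Y2 => z.snd) hU
  filter_upwards [cL2_coe U.fst, cL2_coe U.snd] with x h3 h4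
  rw [h1] at h3
  rw [h2] at h4
  obtain ⟨r1, r2⟩ := tff3_rf U x
  constructor
  · rw [r1]
    exact Complex.conj_eq_iff_re.1 h3.symm
  · rw [r2]
    exact Complex.conj_eq_iff_re.1 h4.symm

private theorem tff3_real (hD : Bornology.IsBounded D) (h : Tot D Ω Γ T u₀ L v) (hO : IsOpen Ω)
    {t : ℝ} (ht : t ∈ Ioc 0 T) : cYy (Uv Ω L v t) = Uv Ω L v t := by
  have h1 : cYy ((iot D (v t) : XD D) : Y2) = ((iot D (v t) : XD D) : Y2) := by
    have h2 := ((FCj_D hD).ι (v t)).trans (congrArg (fun z => iot D z) (h.rv t ht))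
    exact congrArg (fun z : XD D => (z : Y2)) h2
  unfold Uv
  rw [map_add, fo_real hO.measurableSet (h.lf t ht).cc, h1]

private theorem tff3_slsup {φ : ℝ × ℂ → ℝ} (hφ : IsTf T Ω φ) (t : ℝ) :
    tsupport (sl φ t) ⊆ Ω := by
  have h1 : tsupport (sl φ t) ⊆ (fun x : ℂ => (t, x)) ⁻¹' tsupport φ := by
    refine closure_minimal ?_ ((isClosed_tsupport φ).preimage (by fun_prop))
    intro x hx
    refine subset_tsupport φ ?_
    intro h0
    refine hx ?_
    unfold sl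
    rw [h0, Complex.ofReal_zero]
  intro x hx
  exact (hφ.supp (h1 hx)).2

private theorem tff3_slice (h : Tot D Ω Γ T u₀ L v) (hO : IsOpen Ω) {φ : ℝ × ℂ → ℝ}
    (hφ : IsTf T Ω φ) {t : ℝ} (ht : t ∈ Ioc 0 T) :
    ∫ x, (((Uv Ω L v t).fst : ℂ → ℂ) x * px (sl φ t) x +
      ((Uv Ω L v t).snd : ℂ → ℂ) x * py (sl φ t) x) = 0 := by
  have hη : Cc (sl φ t) := sl_Cc hφ.smooth hφ.cpt t
  have m1 : MemLp (px (sl φ t)) 2 (volume : Measure ℂ) := hη.px.memLp 2
  have m2 : MemLp (py (sl φ t)) 2 (volume : Measure ℂ) := hη.py.memLp 2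
  have k1 := fo_div hO (h.lf t ht).cc (h.lf t ht).dv hη (tff3_slsup hφ t)
  have k2 := XD_div (iot D (v t)) hη
  have e1 : (Uv Ω L v t).fst = (fo Ω (L t)).fst + ((iot D (v t) : XD D) : Y2).fst := rfl
  have e2 : (Uv Ω L v t).snd = (fo Ω (L t)).snd + ((iot D (v t) : XD D) : Y2).snd := rfl
  have i1 : ∀ U : Y2, Integrable fun x => (U.fst : ℂ → ℂ) x * px (sl φ t) x +
      (U.snd : ℂ → ℂ) x * py (sl φ t) x := fun U =>
    ((Lp.memLp U.fst).integrable_mul m1).add ((Lp.memLp U.snd).integrable_mul m2)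
  have e3 : ∫ x, (((Uv Ω L v t).fst : ℂ → ℂ) x * px (sl φ t) x +
      ((Uv Ω L v t).snd : ℂ → ℂ) x * py (sl φ t) x) =
      ∫ x, (((fo Ω (L t)).fst x * px (sl φ t) x + (fo Ω (L t)).snd x * py (sl φ t) x) +
        (((iot D (v t) : XD D) : Y2).fst x * px (sl φ t) x +
          ((iot D (v t) : XD D) : Y2).snd x * py (sl φ t) x)) := by
    refine integral_congr_ae ?_
    filter_upwards [Lp.coeFn_add (fo Ω (L t)).fst ((iot D (v t) : XD D) : Y2).fst,
      Lp.coeFn_add (fo Ω (L t)).snd ((iot D (v t) : XD D) : Y2).snd] with x h1 h2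
    rw [e1, e2, h1, h2, Pi.add_apply, Pi.add_apply]
    ring
  rw [e3, integral_add (i1 (fo Ω (L t))) (i1 ((iot D (v t) : XD D) : Y2)), k1, k2, add_zero]

/-- Proof: Fubini (the integrand is integrable: `u ∈ L²`, `φ` is smooth with compact support in `(0,T) × Ω`), on slices `fo_div`,
`XD_div` with `η = sl φ t`. -/
theorem Rep.div (r : Rep D Ω hD T u₀ L v u g h') (h : Tot D Ω Γ T u₀ L v) (hO : IsOpen Ω) {φ : ℝ × ℂ → ℝ}
    (hφ : IsTf T Ω φ) : ∫ p, ((u p).re * dS φ 1 p + (u p).im * dS φ Complex.I p) = 0 := by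
  have hΩ := hO.measurableSet
  have hQ : MeasurableSet (Ioo 0 T ×ˢ Ω) := measurableSet_Ioo.prod hΩ
  set F : ℝ × ℂ → ℝ := fun p => (u p).re * dS φ 1 p + (u p).im * dS φ Complex.I p with hF
  have h0 : ∀ p, p ∉ Ioo 0 T ×ˢ Ω → F p = 0 := by
    intro p hp
    have h1 : p ∉ tsupport φ := fun h => hp (hφ.supp h)
    simp only [hF, dS, tff3_zero h1, mul_zero, add_zero]
  have hi : IntegrableOn F (Ioo 0 T ×ˢ Ω) := by
    have m1 : MemLp (fun p => (u p).re) 2 (volume.restrict (Ioo 0 T ×ˢ Ω)) :=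
      Complex.reCLM.comp_memLp' r.mu
    have m2 : MemLp (fun p => (u p).im) 2 (volume.restrict (Ioo 0 T ×ˢ Ω)) :=
      Complex.imCLM.comp_memLp' r.mu
    exact (m1.integrable_mul (tff3_memD hφ.smooth hφ.cpt (0, 1) _)).add
      (m2.integrable_mul (tff3_memD hφ.smooth hφ.cpt (0, Complex.I) _))
  rw [← setIntegral_eq_integral_of_forall_compl_eq_zero h0, Measure.volume_eq_prod,
    setIntegral_prod F (by rwa [← Measure.volume_eq_prod])]
  refine setIntegral_eq_zero_of_forall_eq_zero fun t ht => ?_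
  have ht' : t ∈ Ioc 0 T := ⟨ht.1, ht.2.le⟩
  rw [setIntegral_eq_integral_of_forall_compl_eq_zero fun x hx => h0 (t, x) fun h => hx h.2]
  have hη : Cc (sl φ t) := sl_Cc hφ.smooth hφ.cpt t
  have m1 : MemLp (px (sl φ t)) 2 (volume : Measure ℂ) := hη.px.memLp 2
  have m2 : MemLp (py (sl φ t)) 2 (volume : Measure ℂ) := hη.py.memLp 2
  have i1 : Integrable fun x => ((Uv Ω L v t).fst : ℂ → ℂ) x * px (sl φ t) x +
      ((Uv Ω L v t).snd : ℂ → ℂ) x * py (sl φ t) x :=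
    ((Lp.memLp (Uv Ω L v t).fst).integrable_mul m1).add
      ((Lp.memLp (Uv Ω L v t).snd).integrable_mul m2)
  have e1 : ∫ x, F (t, x) = ∫ x, Complex.reCLM (((Uv Ω L v t).fst : ℂ → ℂ) x * px (sl φ t) x +
      ((Uv Ω L v t).snd : ℂ → ℂ) x * py (sl φ t) x) := by
    refine integral_congr_ae ?_
    filter_upwards [r.ru t ht'] with x hx
    obtain ⟨r1, r2⟩ := tff3_rf (Uv Ω L v t) x
    have hx' : u (t, x) = rf (Uv Ω L v t) x := hx
    rw [px_sl hφ.smooth, py_sl hφ.smooth]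
    simp only [hF, sl, hx', r1, r2, Complex.reCLM_apply, Complex.add_re, Complex.mul_re,
      Complex.ofReal_re, Complex.ofReal_im, mul_zero, sub_zero]
  rw [e1, ContinuousLinearMap.integral_comp_comm _ i1, tff3_slice h hO hφ ht', map_zero]

/-- Proof: Fubini (`|u|² |∇φ|` is integrable), `slice_eq`, `Tot.tested`, `exists_chiT`. -/
theorem Rep.ns (r : Rep D Ω hD T u₀ L v u g h') (h : Tot D Ω Γ T u₀ L v) (hT : 0 < T) (hO : IsOpen Ω)
    {φ : ℝ × ℂ → ℂ} (hφ : IsTf T Ω φ) (hd : ∀ p, divS φ p = 0) :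
    ∫ p, (⟪u p, dT φ p⟫_ℝ + ⟪u p, lapS φ p⟫_ℝ + ⟪u p, dS φ (u p) p⟫_ℝ) = 0 := by
  obtain ⟨χ, hχ⟩ := exists_chiT hφ hd
  have hΩ := hO.measurableSet
  have hQ : MeasurableSet (Ioo 0 T ×ˢ Ω) := measurableSet_Ioo.prod hΩ
  set G : ℝ × ℂ → ℝ :=
    fun p => ⟪u p, dT φ p⟫_ℝ + ⟪u p, lapS φ p⟫_ℝ + ⟪u p, dS φ (u p) p⟫_ℝ with hG
  have h0 : ∀ p, p ∉ Ioo 0 T ×ˢ Ω → G p = 0 := by
    intro p hp
    have h1 : p ∉ tsupport φ := fun h => hp (hφ.supp h)
    have h2 : ∀ e, p ∉ tsupport (dS φ e) := fun e h => h1 (tff3_sup φ (0, e) h)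
    have h3 : lapS φ p = 0 := by
      have k1 : dS (dS φ 1) 1 p = 0 := tff3_zero (h2 1) (0, 1)
      have k2 : dS (dS φ Complex.I) Complex.I p = 0 := tff3_zero (h2 Complex.I) (0, Complex.I)
      unfold lapS
      rw [k1, k2, add_zero]
    have h4 : dT φ p = 0 := tff3_zero h1 (1, 0)
    have h5 : dS φ (u p) p = 0 := tff3_zero h1 (0, u p)
    simp only [hG, h3, h4, h5, inner_zero_right, add_zero]
  have hin : ∀ ξ : ℝ × ℂ → ℂ, MemLp ξ 2 (volume.restrict (Ioo 0 T ×ˢ Ω)) →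
      IntegrableOn (fun p => ⟪u p, ξ p⟫_ℝ) (Ioo 0 T ×ˢ Ω) := by
    intro ξ hξ
    refine (r.mu.norm.integrable_mul hξ.norm).mono' (r.mu.1.inner hξ.1) ?_
    exact Eventually.of_forall fun p => norm_inner_le_norm _ _
  have hcD : ∀ w : ℝ × ℂ, HasCompactSupport (fun p => fderiv ℝ φ p w) := fun w =>
    hφ.cpt.mono' ((subset_tsupport _).trans (tff3_sup φ w))
  have hi : IntegrableOn G (Ioo 0 T ×ˢ Ω) := by
    refine ((hin _ (tff3_memD hφ.smooth hφ.cpt (1, 0) _)).add (hin _ ?_)).add ?_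
    · exact (tff3_memD (tff3_cd hφ.smooth (0, 1)) (hcD (0, 1)) (0, 1) _).add
        (tff3_memD (tff3_cd hφ.smooth (0, Complex.I)) (hcD (0, Complex.I)) (0, Complex.I) _)
    · obtain ⟨C, hC⟩ := (hφ.smooth.continuous_fderiv (by simp)).bounded_above_of_compact_support
        (hφ.cpt.fderiv ℝ)
      have hsq : IntegrableOn (fun p => C * ‖u p‖ ^ 2) (Ioo 0 T ×ˢ Ω) :=
        (r.mu.integrable_norm_pow (by norm_num)).const_mul C
      have hm : AEStronglyMeasurable (fun p => dS φ (u p) p) (volume.restrict (Ioo 0 T ×ˢ Ω)) := by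
        have m1 : AEStronglyMeasurable (fun p => fderiv ℝ φ p) (volume.restrict (Ioo 0 T ×ˢ Ω)) :=
          (hφ.smooth.continuous_fderiv (by simp)).aestronglyMeasurable
        have m2 : AEStronglyMeasurable (fun p => ((0 : ℝ), u p))
            (volume.restrict (Ioo 0 T ×ˢ Ω)) := aestronglyMeasurable_const.prodMk r.mu.1
        exact isBoundedBilinearMap_apply.continuous.comp_aestronglyMeasurable (m1.prodMk m2)
      refine hsq.mono' (r.mu.1.inner hm) (Eventually.of_forall fun p => ?_)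
      have h1 : ‖dS φ (u p) p‖ ≤ C * ‖u p‖ := by
        refine ((fderiv ℝ φ p).le_opNorm _).trans ?_
        refine mul_le_mul (hC p) ?_ (norm_nonneg _) ((norm_nonneg _).trans (hC p))
        rw [Prod.norm_def]
        simp
      calc ‖⟪u p, dS φ (u p) p⟫_ℝ‖ ≤ ‖u p‖ * ‖dS φ (u p) p‖ := norm_inner_le_norm _ _
        _ ≤ ‖u p‖ * (C * ‖u p‖) := mul_le_mul_of_nonneg_left h1 (norm_nonneg _)
        _ = C * ‖u p‖ ^ 2 := by ring
  rw [← setIntegral_eq_integral_of_forall_compl_eq_zero h0, Measure.volume_eq_prod,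
    setIntegral_prod G (by rwa [← Measure.volume_eq_prod])]
  have key : ∀ t ∈ Ioo 0 T, ((∫ x in Ω, G (t, x) : ℝ) : ℂ) =
      ⟪gp (sl (dT χ) t), Uv Ω L v t⟫_ℂ - ⟪cu (sl χ t), fw Ω (L t) + (v t : L2c)⟫_ℂ +
      NL (f4 Ω (L t) + jj D (v t)) (fw Ω (L t) + (v t : L2c)) (g4 (sl χ t)) := by
    intro t ht
    have ht' : t ∈ Ioc 0 T := ⟨ht.1, ht.2.le⟩
    rw [setIntegral_eq_integral_of_forall_compl_eq_zero fun x hx => h0 (t, x) fun h => hx h.2]
    have hre := tff3_ae (tff3_real hD h hO ht')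
    refine slice_eq (u := fun x => u (t, x)) hD hO (h.lf t ht') (v t) (h.rv t ht') hφ hχ ?_ ?_ t
    · filter_upwards [ae_restrict_of_ae hre, ae_restrict_of_ae (r.ru t ht')] with x h1 h2
      have h2' : u (t, x) = rf (Uv Ω L v t) x := h2
      rw [h2']
      exact h1.1
    · filter_upwards [ae_restrict_of_ae hre, ae_restrict_of_ae (r.ru t ht')] with x h1 h2
      have h2' : u (t, x) = rf (Uv Ω L v t) x := h2
      rw [h2']
      exact h1.2
  have h1 : ((∫ t in Ioo 0 T, ∫ x in Ω, G (t, x) : ℝ) : ℂ) = 0 := by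
    rw [← integral_complex_ofReal, setIntegral_congr_fun measurableSet_Ioo key,
      ← integral_Ioc_eq_integral_Ioo, ← intervalIntegral.integral_of_le hT.le]
    exact h.tested hT hφ hχ
  exact_mod_cast h1

end

end Pool.Agent.Lib.MP_79abb3_an.PD
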