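import Pool.Agent.Lib.MP_79abb3_an.PD.TfF2
import Pool.Agent.Lib.MP_79abb3_an.PD.TfF3

/-!
Theorem D, block A: from total flows to trajectories.
-/

set_option autoImplicit false
set_option linter.unusedSectionVars false

open MeasureTheory Set Filter Topology Function
open scoped ENNReal InnerProductSpace ComplexConjugate

namespace Pool.Agent.Lib.MP_79abb3_an.PD

open Pool.Agent.Lib.MP_79abb3_an.SC

section
variable {D Ω Γ : Set ℂ} {T : ℝ} {u₀ : ℂ → ℂ} {L : ℝ → ℂ → ℂ} {v : ℝ → VD D}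

/-- **From total flows to trajectories.** -/
theorem Tot.traj (h : Tot D Ω Γ T u₀ L v) (hR : IsReg D Ω Γ) (hT : 0 < T)
    (hu : MemLp u₀ 2 (volume.restrict Ω)) (hL : L T = fun _ => 0) (hv : v T = 0) :
    ∃ u, IsTrajD Ω Γ T u₀ u ∧ ∀ᵐ x ∂(volume.restrict Ω), u (T, x) = 0 := by
  obtain ⟨u, g, h', r⟩ := h.exists_rep hR.dom.bdd hT hR.op.measurableSet hu
  refine ⟨u, ⟨r.sq hu, r.cont h hR.op.measurableSet hu, ?_, ⟨g, h', r.mu, r.mg, r.mh, ?_⟩,
    fun φ hφ => r.div h hR.op hφ, fun φ hφ hd => r.ns h hT hR.op hφ hd⟩, ?_⟩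
  · exact Eventually.of_forall fun x => r.u0 x
  · rw [ae_restrict_iff' measurableSet_Ioo]
    exact Eventually.of_forall fun t ht => r.h0 h hR.op.measurableSet hR.dom.op hR.wall t ⟨ht.1, ht.2.le⟩
  · have h1 := r.ru T ⟨hT, le_rfl⟩
    have h2 : Uv Ω L v T = 0 := by
      unfold Uv
      rw [hL, hv, map_zero, (f_zero Ω).1]
      simp
    rw [h2] at h1
    have h3 : rf (0 : Y2) =ᵐ[volume] fun _ => 0 := by
      have e1 : ((0 : Y2).fst : ℂ → ℂ) =ᵐ[volume] 0 := Lp.coeFn_zero _ _ _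
      have e2 : ((0 : Y2).snd : ℂ → ℂ) =ᵐ[volume] 0 := Lp.coeFn_zero _ _ _
      filter_upwards [e1, e2] with x h1 h2
      unfold rf
      rw [h1, h2]
      simp
    exact ae_restrict_of_ae (h1.trans h3)

end

end Pool.Agent.Lib.MP_79abb3_an.PD
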