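import Pool.Agent.Lib.MP_79abb3_an.PD.FinR
import Pool.Agent.Lib.MP_79abb3_an.PD.PhB4
import Pool.Agent.Lib.MP_79abb3_an.PD.TfG

/-!
Theorem D: assembly.
-/

set_option autoImplicit false
set_option linter.unusedSectionVars false

open MeasureTheory Set Filter Topology Function
open scoped ENNReal InnerProductSpace ComplexConjugate

namespace Pool.Agent.Lib.MP_79abb3_an.PD

open Pool.Agent.Lib.MP_79abb3_an.SC

/-- **Assembly.** Proof: a closed ball `N` in `D \ closure Ω` (`IsReg.free`), so `Ω ⊆ D \ N`; `phase_P` with time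
`b ≤ T/2`, `to_rest` with `T' = T - b` shifted by `b`, `Tot.append`, `Tot.traj`. -/
theorem final_D (hF : ∀ D, IsPlanar D → ∀ x t, 0 < t → Metric.closedBall x t ⊆ D → FlushD D (Metric.closedBall x t))
    (hN : ∀ D, IsPlanar D → ∀ x t, 0 < t → Metric.closedBall x t ⊆ D → ObsD D (Metric.closedBall x t)) :
    TheoremD := by
  intro D Ω Γ hR T hT u₀ hu
  obtain ⟨x, hxD, hxΩ⟩ := hR.free
  have hop : IsOpen (D \ closure Ω) := hR.dom.op.sdiff isClosed_closure
  obtain ⟨t, ht, hball⟩ := Metric.nhds_basis_closedBall.mem_iff.1 (hop.mem_nhds ⟨hxD, hxΩ⟩)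
  have hN1 : Metric.closedBall x t ⊆ D := hball.trans sdiff_subset
  have hΩN : Ω ⊆ D \ Metric.closedBall x t :=
    fun y hy => ⟨hR.sub hy, fun h => (hball h).2 (subset_closure hy)⟩
  have hD := hR.dom.bdd
  obtain ⟨b, hb, hbT, L, v, hTot, hLb⟩ := phase_P hD hR.op hR.sub hu (T' := T / 2) (half_pos hT)
  have r := hTot.rv b ⟨hb, le_rfl⟩
  have hbT' : b < T := by linarith
  obtain ⟨w, f, i, e⟩ := to_rest hD (hF D hR.dom x t ht hN1)
    (nullD_of_obs hD Metric.isClosed_closedBall.measurableSet (hN D hR.dom x t ht hN1)) r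
    (T' := T - b) (by linarith)
  have f' := (f.mono hΩN).shift b
  rw [zero_add, sub_add_cancel] at f'
  have h := hTot.append hb hbT'.le hLb f' (by rw [sub_self, i])
  refine h.traj hR hT hu.1 ?_ ?_
  · show (if T ≤ b then L T else fun _ => 0) = fun _ => 0
    rw [if_neg (not_le.2 hbT')]
  · show (if T ≤ b then v T else w (T - b)) = 0
    rw [if_neg (not_le.2 hbT'), e]

end Pool.Agent.Lib.MP_79abb3_an.PD
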