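import Pool.Agent.Lib.MP_79abb3_an.PD.FinN

/-!
Theorem D: the control operator.
-/

set_option autoImplicit false
set_option linter.unusedSectionVars false

open MeasureTheory Set Filter Topology Function
open scoped ENNReal InnerProductSpace ComplexConjugate

namespace Pool.Agent.Lib.MP_79abb3_an.PD

open Pool.Agent.Lib.MP_79abb3_an.SC

section
variable {D Ω Z : Set ℂ} {v : ℝ → VD D} {a b : ℝ}

/-- multiplication by the indicator of `Z` and projection -/
noncomputable def GZ (D Z : Set ℂ) : XD D →L[ℂ] XD D :=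
  (PX D).comp ((((WithLp.prodContinuousLinearEquiv 2 ℂ L2c L2c).symm : (L2c × L2c) →L[ℂ] Y2).comp
    (((mm (Z.indicator fun _ => 1)).prodMap (mm (Z.indicator fun _ => 1))).comp
      ((WithLp.prodContinuousLinearEquiv 2 ℂ L2c L2c) : Y2 →L[ℂ] (L2c × L2c)))).comp (XD D).subtypeL)

private theorem bmZ (hZ : MeasurableSet Z) : Bm (Z.indicator fun _ => (1 : ℂ)) 1 := by
  refine ⟨(measurable_const.indicator hZ).aestronglyMeasurable, fun x => ?_⟩
  by_cases hx : x ∈ Z
  · rw [indicator_of_mem hx, norm_one]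
  · rw [indicator_of_notMem hx, norm_zero]; exact zero_le_one

private theorem GZ_apply (y : XD D) : GZ D Z y = PX D (WithLp.toLp 2
    (mm (Z.indicator fun _ => 1) (y : Y2).fst, mm (Z.indicator fun _ => 1) (y : Y2).snd)) := rfl

private theorem inner_mmZ (hZ : MeasurableSet Z) (f g : L2c) :
    ⟪f, mm (Z.indicator fun _ => 1) g⟫_ℂ = ∫ z in Z, conj ((f : ℂ → ℂ) z) * (g : ℂ → ℂ) z := by
  rw [L2.inner_def, ← integral_indicator hZ]
  refine integral_congr_ae ?_
  filter_upwards [mm_coe (bmZ hZ) g] with x hx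
  rw [hx]
  by_cases h : x ∈ Z
  · rw [indicator_of_mem h, indicator_of_mem h, one_mul, RCLike.inner_apply, mul_comm]
  · rw [indicator_of_notMem h, indicator_of_notMem h, zero_mul, inner_zero_right]

private theorem int_mulZ (f g : L2c) : Integrable (fun z => conj ((f : ℂ → ℂ) z) * (g : ℂ → ℂ) z)
    (volume.restrict Z) := by
  have h := (L2.integrable_inner (𝕜 := ℂ) f g).restrict (s := Z)
  refine h.congr (Eventually.of_forall fun z => ?_)
  show ⟪(f : ℂ → ℂ) z, (g : ℂ → ℂ) z⟫_ℂ = _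
  rw [RCLike.inner_apply, mul_comm]

theorem GZ_inner (hZ : MeasurableSet Z) (x y : XD D) : ⟪x, GZ D Z y⟫_ℂ =
    ∫ z in Z, (conj ((x : Y2).fst z) * (y : Y2).fst z + conj ((x : Y2).snd z) * (y : Y2).snd z) := by
  rw [GZ_apply, inner_PX, WithLp.prod_inner_apply]
  show ⟪(x : Y2).fst, mm (Z.indicator fun _ => 1) (y : Y2).fst⟫_ℂ +
    ⟪(x : Y2).snd, mm (Z.indicator fun _ => 1) (y : Y2).snd⟫_ℂ = _
  rw [inner_mmZ hZ, inner_mmZ hZ, ← integral_add (int_mulZ _ _) (int_mulZ _ _)]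

theorem GZ_self (hZ : MeasurableSet Z) (x : XD D) : ⟪x, GZ D Z x⟫_ℂ = ((nZ Z (x : Y2) : ℝ) : ℂ) := by
  rw [GZ_inner hZ, nZ, ← integral_complex_ofReal]
  refine integral_congr_ae (Eventually.of_forall fun z => ?_)
  show conj _ * _ + conj _ * _ = ((_ : ℝ) : ℂ)
  rw [Complex.ofReal_add, Complex.conj_mul', Complex.conj_mul']
  push_cast
  rfl

theorem GZ_nonneg (hZ : MeasurableSet Z) : 0 ≤ GZ D Z := by
  rw [ContinuousLinearMap.nonneg_iff_isPositive, ContinuousLinearMap.isPositive_def]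
  refine ⟨fun x y => ?_, fun x => ?_⟩
  · show ⟪GZ D Z x, y⟫_ℂ = ⟪x, GZ D Z y⟫_ℂ
    refine (inner_conj_symm (𝕜 := ℂ) (GZ D Z x) y).symm.trans ?_
    rw [GZ_inner hZ, GZ_inner hZ, ← integral_conj]
    refine integral_congr_ae (Eventually.of_forall fun z => ?_)
    show conj (conj _ * _ + conj _ * _) = _
    rw [map_add, map_mul, map_mul, Complex.conj_conj, Complex.conj_conj]
    ring
  · rw [ContinuousLinearMap.reApplyInnerSelf_apply, ← inner_conj_symm, RCLike.conj_re, GZ_self hZ]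
    show 0 ≤ (((nZ Z (x : Y2) : ℝ) : ℂ)).re
    rw [Complex.ofReal_re]
    exact integral_nonneg fun z => by positivity

theorem GZ_conj (hZ : MeasurableSet Z) (x : XD D) : cXD D (GZ D Z x) = GZ D Z (cXD D x) := by
  rw [GZ_apply, GZ_apply, PX_conj]
  have h1 : (fun z => conj ((Z.indicator fun _ => (1 : ℂ)) z)) = Z.indicator fun _ => 1 := by
    funext z
    by_cases h : z ∈ Z
    · rw [indicator_of_mem h, map_one]
    · rw [indicator_of_notMem h, map_zero]
  have h2 : ∀ f : L2c, cL2 (mm (Z.indicator fun _ => 1) f) = mm (Z.indicator fun _ => 1) (cL2 f) := fun f => by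
    rw [mm_conj (bmZ hZ), h1]
  refine congrArg (PX D) ?_
  show WithLp.toLp 2 (cL2 (mm (Z.indicator fun _ => 1) (x : Y2).fst),
    cL2 (mm (Z.indicator fun _ => 1) (x : Y2).snd)) = WithLp.toLp 2
    (mm (Z.indicator fun _ => 1) (cL2 (x : Y2).fst), mm (Z.indicator fun _ => 1) (cL2 (x : Y2).snd))
  rw [h2, h2]

/-- the control operator `χ = G^{1/2}` -/
noncomputable def chZ (D Z : Set ℂ) : XD D →L[ℂ] XD D := Kh (GZ D Z)

theorem chZ_sq (hZ : MeasurableSet Z) (x : XD D) : ‖chZ D Z x‖ ^ 2 = nZ Z (x : Y2) := by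
  have h1 : ⟪chZ D Z x, chZ D Z x⟫_ℂ = ⟪x, GZ D Z x⟫_ℂ := by
    unfold chZ
    rw [Kh_inner, Kh_Kh (GZ_nonneg hZ)]
  rw [GZ_self hZ] at h1
  have h2 := (inner_self_eq_norm_sq_to_K (𝕜 := ℂ) (chZ D Z x)).symm.trans h1
  have h3 : ((‖chZ D Z x‖ ^ 2 : ℝ) : ℂ) = ((nZ Z (x : Y2) : ℝ) : ℂ) := by
    rw [← h2]; push_cast; rfl
  exact Complex.ofReal_injective h3

end

end Pool.Agent.Lib.MP_79abb3_an.PD
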