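import Pool.Agent.Lib.MP_79abb3_an.PD.FinN2

/-!
Theorem D: null control from observability.
-/

set_option autoImplicit false
set_option linter.unusedSectionVars false

open MeasureTheory Set Filter Topology Function
open scoped ENNReal InnerProductSpace ComplexConjugate

namespace Pool.Agent.Lib.MP_79abb3_an.PD

open Pool.Agent.Lib.MP_79abb3_an.SC

section
variable {D Ω Z : Set ℂ} {v : ℝ → VD D} {a b : ℝ}

private theorem nZ_le (hZ : MeasurableSet Z) (x : XD D) : nZ Z (x : Y2) ≤ ‖x‖ ^ 2 := by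
  have hb : Bm (Z.indicator fun _ => (1 : ℂ)) 1 := by
    refine ⟨(measurable_const.indicator hZ).aestronglyMeasurable, fun x => ?_⟩
    by_cases hx : x ∈ Z
    · rw [indicator_of_mem hx, norm_one]
    · rw [indicator_of_notMem hx, norm_zero]; exact zero_le_one
  have hm : ∀ f : L2c, ‖mm (Z.indicator fun _ => 1) f‖ ≤ ‖f‖ := fun f => by
    refine ((mm (Z.indicator fun _ => 1)).le_of_opNorm_le (mm_norm hb) f).trans ?_
    rw [one_mul]
  obtain ⟨y, hy⟩ : ∃ y : Y2, y = WithLp.toLp 2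
    (mm (Z.indicator fun _ => 1) (x : Y2).fst, mm (Z.indicator fun _ => 1) (x : Y2).snd) := ⟨_, rfl⟩
  have h1 : ‖y‖ ≤ ‖(x : Y2)‖ := by
    have e1 := WithLp.prod_norm_sq_eq_of_L2 y
    have e2 := WithLp.prod_norm_sq_eq_of_L2 (x : Y2)
    have e3 : ‖y.fst‖ ≤ ‖(x : Y2).fst‖ := by rw [hy]; exact hm _
    have e4 : ‖y.snd‖ ≤ ‖(x : Y2).snd‖ := by rw [hy]; exact hm _
    refine abs_le_of_sq_le_sq' ?_ (norm_nonneg _) |>.2
    rw [e1, e2]
    gcongr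
  have h2 : ((nZ Z (x : Y2) : ℝ) : ℂ) = ⟪(x : Y2), y⟫_ℂ := by
    rw [← GZ_self hZ x, hy]
    exact inner_PX x _
  have h3 := norm_inner_le_norm (𝕜 := ℂ) (x : Y2) y
  rw [← h2, Complex.norm_real, Real.norm_eq_abs] at h3
  refine (le_abs_self _).trans (h3.trans ?_)
  have h4 : ‖(x : Y2)‖ = ‖x‖ := rfl
  rw [h4] at h1 ⊢
  rw [pow_two]
  gcongr

/-- Proof: `NSA.ker`, `KD_nonneg`, `KD_inj`, `Kh_inner`, `chZ_sq`. -/
theorem exists_NcSys (hD : Bornology.IsBounded D) (hZ : MeasurableSet Z) (h : ObsD D Z) :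
    ∃ CL C0, NcSys (KD D) (chZ D Z) (JD D) CL (3 / 4) C0 := by
  obtain ⟨C, hA⟩ := exists_NSA hD
  obtain ⟨C0, hC0, ho⟩ := h
  refine ⟨C + 1, C0, ⟨hA.hK, hA.hi, hA.ker, fun x y => Kh_inner _ x y, fun x => ?_, hC0,
    fun T hT hT1 q => ?_⟩⟩
  · refine abs_le_of_sq_le_sq' ?_ (norm_nonneg _) |>.2
    exact (chZ_sq hZ x).trans_le (nZ_le hZ x)
  · refine (ho T hT hT1 q).trans (le_of_eq ?_)
    congr 1
    refine intervalIntegral.integral_congr fun t _ => ?_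
    show _ * _ = _ * _
    rw [chZ_sq hZ]

/-- **Null control from observability.** Proof: `NcSys.null` with `N = ND D`, `J = cXD D`, `J' = cY cZ4 cZ4_anti` (hypotheses from
`NSR_D`, `GZ_conj`, `Cnj.Kh`, `Cnj.Sg`, `Cnj.AS`), for `x₀ = Q⁻¹ v₀`; `v t = Qv (iot D) (x t)`, equation from `Slv.weak`
with `B = 0`; for `ψ ∈ Adm (D \ Z)`: `⟪gpX ψ, χ g⟫ = ⟪χ (gpX ψ), g⟫ = 0`, since `‖χ (gpX ψ)‖² = ∫_Z |gp ψ|² = 0`. -/
theorem nullD_of_obs (hD : Bornology.IsBounded D) (hZ : MeasurableSet Z) (h : ObsD D Z) : NullD D Z := by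
  intro T hT hT1
  obtain ⟨CL, C0, hs⟩ := exists_NcSys hD hZ h
  obtain ⟨C, hA⟩ := exists_NSA hD
  obtain ⟨J', hR⟩ : ∃ J' : Yd (L4c × L4c) →L[ℝ] Yd (L4c × L4c),
    NSR (KD D) (JD D) (ND D) (cXD D) J' := ⟨_, NSR_D hD⟩
  have hf := fdom hD
  have hQ : ∀ x, cVD D (Qv (iot D) x) = Qv (iot D) (cXD D x) := fun x => (FCj_D hD).Qv hf x
  have hKh : ∀ x, cXD D (Kh (KD D) x) = Kh (KD D) (cXD D x) := fun x => hR.cj.Kh hA.hK hR.cK x
  obtain ⟨ε, hε, hn⟩ := hs.null (ND D) (cXD D) J'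
    (fun t x => by
      rcases le_or_gt 0 t with h0 | h0
      · exact hR.cj.Sg hA.hK hR.cK h0 x
      · rw [Sg_nonpos h0.le]; rfl)
    (fun x => hR.cj.Kh (GZ_nonneg hZ) (GZ_conj hZ) x) (fun x => hR.cj.Kh hA.hK hR.cK x)
    (fun t ht y u => (hR.cj.AS hA.hK hR.cK ht _).trans (congrArg (AS (KD D) t)
      ((map_add (cXD D) (JD D y) (Kh (KD D) u)).trans (congrArg₂ (· + ·) (hR.c3 y) (hKh u)))))
    (fun x => hR.cN x x) hT hT1
  refine ⟨ε, hε, fun v₀ hv h0 => ?_⟩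
  obtain ⟨x₀, hx₀⟩ := hf.Qv_surj v₀
  have hc : cXD D x₀ = x₀ := by
    have h1 : Qv (iot D) (cXD D x₀ - x₀) = 0 := by
      rw [map_sub, ← hQ, hx₀, hv, sub_self]
    have h2 := hf.norm_Qv (cXD D x₀ - x₀)
    rw [h1, norm_zero] at h2
    exact sub_eq_zero.1 (norm_eq_zero.1 h2.symm)
  have hn0 : ‖x₀‖ ≤ ε := by rw [← hf.norm_Qv, hx₀]; exact h0
  obtain ⟨f, fc, fχ, _, _, x, hx, hxT, hxr⟩ := hn x₀ hn0
  have e : Pb (ND D) f (fun _ => 0) = Pc (ND D) f := by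
    funext t x
    simp [Pb, Pc]
  have hx' : Slv (KD D) (JD D) (ND D) f (fun _ => 0) 0 T x₀ x := by
    unfold Slv
    rw [e]
    exact hx
  have hi : x 0 = x₀ := Mild.init hA.ker hx hT.le
  refine ⟨fun t => Qv (iot D) (x t), ⟨(Qv (iot D)).continuous.comp_continuousOn hx.cont,
    fun t ht => (hQ _).trans (congrArg (Qv (iot D)) (hxr hc t ht)),
    WEq_zero_iff.2 fun ψ hψ s t hs' hst ht => ?_⟩, ?_, ?_⟩
  · have h1 := Slv.weak hD hA fc.continuousOn (B := fun _ => 0) continuousOn_const hx'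
      ⟨ψ, Adm.mono sdiff_subset hψ⟩ hs' hst ht
    rw [jj_g4 hD] at h1
    refine h1.trans (intervalIntegral.integral_congr fun r _ => ?_)
    obtain ⟨g, hg⟩ := fχ r
    have h2 : chZ D Z (gpX D ⟨ψ, Adm.mono sdiff_subset hψ⟩) = 0 := by
      have h3 := chZ_sq (D := D) hZ (gpX D ⟨ψ, Adm.mono sdiff_subset hψ⟩)
      have h4 : nZ Z ((gpX D ⟨ψ, Adm.mono sdiff_subset hψ⟩ : XD D) : Y2) = 0 := by
        unfold nZ
        have c1 : Cc ψ := hψ.1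
        have m1 := cl2_coe (c1.py.memLp 2)
        have m2 := cl2_coe (c1.px.memLp 2)
        have m3 := Lp.coeFn_neg (cl2 (px ψ))
        refine integral_eq_zero_of_ae ?_
        rw [EventuallyEq, ae_restrict_iff' hZ]
        filter_upwards [m1, m2, m3] with z e1 e2 e3 hz
        have hz' : z ∉ D \ Z := fun h => h.2 hz
        have z1 : py ψ z = 0 := py_zero (⟨ψ, hψ⟩ : Adm (D \ Z)) hz'
        have z2 : px ψ z = 0 := px_zero (⟨ψ, hψ⟩ : Adm (D \ Z)) hz'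
        show ‖(cl2 (py ψ) : ℂ → ℂ) z‖ ^ 2 + ‖((-cl2 (px ψ) : L2c) : ℂ → ℂ) z‖ ^ 2 = 0
        rw [e3, Pi.neg_apply, e1, e2, z1, z2]
        simp
      rw [h4] at h3
      exact norm_eq_zero.1 (pow_eq_zero_iff (two_ne_zero) |>.1 h3)
    have h5 : ⟪gpX D ⟨ψ, Adm.mono sdiff_subset hψ⟩, f r⟫_ℂ = 0 := by
      have h6 : ⟪chZ D Z (gpX D ⟨ψ, Adm.mono sdiff_subset hψ⟩), g⟫_ℂ =
        ⟪gpX D ⟨ψ, Adm.mono sdiff_subset hψ⟩, chZ D Z g⟫_ℂ := Kh_inner _ _ _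
      rw [hg, ← h6, h2]
      exact inner_zero_left _
    show _ + _ + ⟪_, f r + (0 : XD D →L[ℂ] XD D) (x r)⟫_ℂ = _
    rw [zero_apply, add_zero, h5, add_zero]
    rfl
  · show Qv (iot D) (x 0) = v₀
    rw [hi, hx₀]
  · show Qv (iot D) (x T) = 0
    rw [hxT, map_zero]

end

end Pool.Agent.Lib.MP_79abb3_an.PD
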