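import Pool.Agent.Lib.MP_79abb3_an.PD.SpEa2

/-!
Theorem D, blocks P and A: smooth real vector fields restricted to `Ω`, as elements of the `L²` spaces.
-/

set_option autoImplicit false
set_option linter.unusedSectionVars false

open MeasureTheory Set Filter Topology Function
open scoped ENNReal InnerProductSpace ComplexConjugate

namespace Pool.Agent.Lib.MP_79abb3_an.PD

open Pool.Agent.Lib.MP_79abb3_an.SC

/-- the components of a real vector field (a field is a map `ℂ → ℂ`) -/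
noncomputable def l1 (L : ℂ → ℂ) (x : ℂ) : ℂ := ((L x).re : ℂ)
noncomputable def l2 (L : ℂ → ℂ) (x : ℂ) : ℂ := ((L x).im : ℂ)

/-- the vorticity `∂₁ L₂ - ∂₂ L₁` -/
noncomputable def cw (L : ℂ → ℂ) (x : ℂ) : ℂ := px (l2 L) x - py (l1 L) x

private noncomputable def clmRe : ℂ →L[ℝ] ℂ := Complex.ofRealCLM.comp Complex.reCLM
private noncomputable def clmIm : ℂ →L[ℝ] ℂ := Complex.ofRealCLM.comp Complex.imCLM

private theorem l1_eq (L : ℂ → ℂ) : l1 L = clmRe ∘ L := rfl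
private theorem l2_eq (L : ℂ → ℂ) : l2 L = clmIm ∘ L := rfl
private theorem cw_eq (L : ℂ → ℂ) : cw L = fun x => px (l2 L) x + -py (l1 L) x :=
  funext fun _ => sub_eq_add_neg _ _

theorem Smo.l1 {L : ℂ → ℂ} (h : Smo L) : Smo (l1 L) := by
  rw [l1_eq]
  exact ContDiff.comp clmRe.contDiff h
theorem Smo.l2 {L : ℂ → ℂ} (h : Smo L) : Smo (l2 L) := by
  rw [l2_eq]
  exact ContDiff.comp clmIm.contDiff h
theorem Cc.l1 {L : ℂ → ℂ} (h : Cc L) : Cc (l1 L) := by
  refine ⟨h.smo.l1, ?_⟩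
  rw [l1_eq]
  exact h.cpt.comp_left (map_zero clmRe)
theorem Cc.l2 {L : ℂ → ℂ} (h : Cc L) : Cc (l2 L) := by
  refine ⟨h.smo.l2, ?_⟩
  rw [l2_eq]
  exact h.cpt.comp_left (map_zero clmIm)
theorem Cc.cw {L : ℂ → ℂ} (h : Cc L) : Cc (cw L) := by
  rw [cw_eq]
  exact h.l2.px.add h.l1.py.neg

/-- The derivatives of the components. -/
theorem px_l1 {L : ℂ → ℂ} (h : Smo L) (x : ℂ) : px (l1 L) x = ((fderiv ℝ L x 1).re : ℂ) := by
  unfold px
  rw [l1_eq, ((clmRe.hasFDerivAt (x := L x)).comp x (h.differentiable x).hasFDerivAt).fderiv]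
  rfl
theorem px_l2 {L : ℂ → ℂ} (h : Smo L) (x : ℂ) : px (l2 L) x = ((fderiv ℝ L x 1).im : ℂ) := by
  unfold px
  rw [l2_eq, ((clmIm.hasFDerivAt (x := L x)).comp x (h.differentiable x).hasFDerivAt).fderiv]
  rfl
theorem py_l1 {L : ℂ → ℂ} (h : Smo L) (x : ℂ) : py (l1 L) x = ((fderiv ℝ L x Complex.I).re : ℂ) := by
  unfold py
  rw [l1_eq, ((clmRe.hasFDerivAt (x := L x)).comp x (h.differentiable x).hasFDerivAt).fderiv]
  rfl
theorem py_l2 {L : ℂ → ℂ} (h : Smo L) (x : ℂ) : py (l2 L) x = ((fderiv ℝ L x Complex.I).im : ℂ) := by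
  unfold py
  rw [l2_eq, ((clmIm.hasFDerivAt (x := L x)).comp x (h.differentiable x).hasFDerivAt).fderiv]
  rfl

/-- `1_Ω g` in `L²` -/
noncomputable def iO (Ω : Set ℂ) (g : ℂ → ℂ) : L2c := cl2 (Ω.indicator g)

section
variable (Ω : Set ℂ) (L : ℂ → ℂ)

/-- `L` on `Ω`, its first derivatives, Laplacian, vorticity, `L⁴` class, the quadratic force `-ω L^⊥` -/
noncomputable def fo : Y2 := WithLp.toLp 2 (iO Ω (l1 L), iO Ω (l2 L))
noncomputable def fx : Y2 := WithLp.toLp 2 (iO Ω (px (l1 L)), iO Ω (px (l2 L)))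
noncomputable def fy : Y2 := WithLp.toLp 2 (iO Ω (py (l1 L)), iO Ω (py (l2 L)))
noncomputable def fl : Y2 := WithLp.toLp 2 (iO Ω (lap (l1 L)), iO Ω (lap (l2 L)))
noncomputable def fw : L2c := iO Ω (cw L)
noncomputable def f4 : L4c × L4c := (cl4 (Ω.indicator (l1 L)), cl4 (Ω.indicator (l2 L)))
noncomputable def qf : Y2 := WithLp.toLp 2 (iO Ω (fun x => cw L x * l2 L x), -iO Ω (fun x => cw L x * l1 L x))

/-- The linear force `-(ω L^⊥ + ω_L u^⊥)` of a flow with velocity `iot v`, `ω = v`. -/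
noncomputable def bf (D : Set ℂ) : VD D →L[ℂ] Y2 :=
  (vot (Ω.indicator (l1 L)) (Ω.indicator (l2 L))).comp (VD D).subtypeL +
    (rot (Ω.indicator (cw L))).comp ((XD D).subtypeL.comp (iot D))

end

section
variable {Ω : Set ℂ} {L M : ℂ → ℂ} {s t : ℝ}

/-- `1_Ω g` is bounded and square integrable for a test function `g` (`Ω` measurable). -/
theorem Cc.ind_memLp {g : ℂ → ℂ} (h : Cc g) (hΩ : MeasurableSet Ω) (p : ℝ≥0∞) :
    MemLp (Ω.indicator g) p (volume : Measure ℂ) := by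
  exact (h.memLp p).indicator hΩ
theorem Cc.ind_Bm {g : ℂ → ℂ} (h : Cc g) (hΩ : MeasurableSet Ω) : ∃ c, Bm (Ω.indicator g) c := by
  obtain ⟨c, hc⟩ := h.smo.continuous.bounded_above_of_compact_support h.cpt
  exact ⟨c, h.smo.continuous.aestronglyMeasurable.indicator hΩ,
    fun x => (norm_indicator_le_norm_self _ _).trans (hc x)⟩

end

end Pool.Agent.Lib.MP_79abb3_an.PD
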