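import Pool.Agent.Lib.MP_79abb3_an.PD.FldA

/-!
Theorem D: fields on `Ω`: linearity.
-/

set_option autoImplicit false
set_option linter.unusedSectionVars false

open MeasureTheory Set Filter Topology Function
open scoped ENNReal InnerProductSpace ComplexConjugate

namespace Pool.Agent.Lib.MP_79abb3_an.PD

open Pool.Agent.Lib.MP_79abb3_an.SC

section
variable {Ω : Set ℂ} {L M : ℂ → ℂ} {s t : ℝ}

private theorem iO_add (hΩ : MeasurableSet Ω) {f g : ℂ → ℂ} (hf : Cc f) (hg : Cc g) :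
    iO Ω (fun x => f x + g x) = iO Ω f + iO Ω g := by
  unfold iO
  rw [← cl2_add (hf.ind_memLp hΩ 2) (hg.ind_memLp hΩ 2)]
  congr 1
  exact Set.indicator_add Ω f g

private theorem iO_smul (hΩ : MeasurableSet Ω) (c : ℂ) {f : ℂ → ℂ} (hf : Cc f) :
    iO Ω (fun x => c * f x) = c • iO Ω f := by
  unfold iO
  rw [← cl2_smul c (hf.ind_memLp hΩ 2)]
  congr 1
  funext x
  by_cases hx : x ∈ Ω
  · rw [Set.indicator_of_mem hx, Set.indicator_of_mem hx]
  · rw [Set.indicator_of_notMem hx, Set.indicator_of_notMem hx, mul_zero]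

private theorem iO_lin (hΩ : MeasurableSet Ω) (c d : ℂ) {f g : ℂ → ℂ} (hf : Cc f) (hg : Cc g) :
    iO Ω (fun x => c * f x + d * g x) = c • iO Ω f + d • iO Ω g := by
  rw [iO_add hΩ (hf.cmul c) (hg.cmul d), iO_smul hΩ c hf, iO_smul hΩ d hg]

private theorem toLp_lin (c d : ℂ) (a b a' b' : L2c) :
    (WithLp.toLp 2 (c • a + d • a', c • b + d • b') : Y2) =
      c • WithLp.toLp 2 (a, b) + d • WithLp.toLp 2 (a', b') := rfl

private theorem l1_lin (s t : ℝ) :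
    l1 (fun x => (s : ℂ) * L x + (t : ℂ) * M x) = fun x => (s : ℂ) * l1 L x + (t : ℂ) * l1 M x := by
  funext x
  simp [l1]

private theorem l2_lin (s t : ℝ) :
    l2 (fun x => (s : ℂ) * L x + (t : ℂ) * M x) = fun x => (s : ℂ) * l2 L x + (t : ℂ) * l2 M x := by
  funext x
  simp [l2]

private theorem px_lin (c d : ℂ) {f g : ℂ → ℂ} (hf : Smo f) (hg : Smo g) :
    px (fun x => c * f x + d * g x) = fun x => c * px f x + d * px g x := by
  funext x
  rw [px_add ((Smo.const c).mul hf) ((Smo.const d).mul hg), px_cmul c hf, px_cmul d hg]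

private theorem py_lin (c d : ℂ) {f g : ℂ → ℂ} (hf : Smo f) (hg : Smo g) :
    py (fun x => c * f x + d * g x) = fun x => c * py f x + d * py g x := by
  funext x
  rw [py_add ((Smo.const c).mul hf) ((Smo.const d).mul hg), py_cmul c hf, py_cmul d hg]

private theorem lap_lin (c d : ℂ) {f g : ℂ → ℂ} (hf : Smo f) (hg : Smo g) :
    lap (fun x => c * f x + d * g x) = fun x => c * lap f x + d * lap g x := by
  funext x
  rw [lap_add ((Smo.const c).mul hf) ((Smo.const d).mul hg), lap_cmul c hf, lap_cmul d hg]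

private theorem cw_lin (hL : Smo L) (hM : Smo M) (s t : ℝ) :
    cw (fun x => (s : ℂ) * L x + (t : ℂ) * M x) = fun x => (s : ℂ) * cw L x + (t : ℂ) * cw M x := by
  funext x
  unfold cw
  rw [l1_lin, l2_lin, px_lin _ _ hL.l2 hM.l2, py_lin _ _ hL.l1 hM.l1]
  ring

private theorem ind_lin (c d : ℂ) (f g : ℂ → ℂ) : Ω.indicator (fun x => c * f x + d * g x) =
    fun x => c * Ω.indicator f x + d * Ω.indicator g x := by
  funext x
  by_cases hx : x ∈ Ω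
  · rw [Set.indicator_of_mem hx, Set.indicator_of_mem hx, Set.indicator_of_mem hx]
  · rw [Set.indicator_of_notMem hx, Set.indicator_of_notMem hx, Set.indicator_of_notMem hx]
    ring

private theorem Bm_smul (k : ℂ) {g : ℂ → ℂ} {c : ℝ} (h : Bm g c) : Bm (fun x => k * g x) (‖k‖ * c) :=
  ⟨h.1.const_mul k, fun x => by
    rw [norm_mul]
    exact mul_le_mul_of_nonneg_left (h.2 x) (norm_nonneg _)⟩

private theorem mm_lin (k l : ℂ) {f g : ℂ → ℂ} {c d : ℝ} (hf : Bm f c) (hg : Bm g d) :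
    mm (fun x => k * f x + l * g x) = k • mm f + l • mm g := by
  have e : (fun x => k * f x + l * g x) = fun x => k * f x - (-l) * g x := by
    funext x
    ring
  rw [e, mm_sub (Bm_smul k hf) (Bm_smul (-l) hg), mm_smul k hf, mm_smul (-l) hg, neg_smul,
    sub_neg_eq_add]

/-- Linearity with real coefficients. -/
theorem fo_lin (hΩ : MeasurableSet Ω) (hL : Cc L) (hM : Cc M) (s t : ℝ) :
    fo Ω (fun x => (s : ℂ) * L x + (t : ℂ) * M x) = (s : ℂ) • fo Ω L + (t : ℂ) • fo Ω M := by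
  unfold fo
  rw [l1_lin, l2_lin, iO_lin hΩ _ _ hL.l1 hM.l1, iO_lin hΩ _ _ hL.l2 hM.l2, toLp_lin]
theorem fx_lin (hΩ : MeasurableSet Ω) (hL : Cc L) (hM : Cc M) (s t : ℝ) :
    fx Ω (fun x => (s : ℂ) * L x + (t : ℂ) * M x) = (s : ℂ) • fx Ω L + (t : ℂ) • fx Ω M := by
  unfold fx
  rw [l1_lin, l2_lin, px_lin _ _ hL.l1.smo hM.l1.smo, px_lin _ _ hL.l2.smo hM.l2.smo,
    iO_lin hΩ _ _ hL.l1.px hM.l1.px, iO_lin hΩ _ _ hL.l2.px hM.l2.px, toLp_lin]
theorem fy_lin (hΩ : MeasurableSet Ω) (hL : Cc L) (hM : Cc M) (s t : ℝ) :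
    fy Ω (fun x => (s : ℂ) * L x + (t : ℂ) * M x) = (s : ℂ) • fy Ω L + (t : ℂ) • fy Ω M := by
  unfold fy
  rw [l1_lin, l2_lin, py_lin _ _ hL.l1.smo hM.l1.smo, py_lin _ _ hL.l2.smo hM.l2.smo,
    iO_lin hΩ _ _ hL.l1.py hM.l1.py, iO_lin hΩ _ _ hL.l2.py hM.l2.py, toLp_lin]
theorem fl_lin (hΩ : MeasurableSet Ω) (hL : Cc L) (hM : Cc M) (s t : ℝ) :
    fl Ω (fun x => (s : ℂ) * L x + (t : ℂ) * M x) = (s : ℂ) • fl Ω L + (t : ℂ) • fl Ω M := by
  unfold fl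
  rw [l1_lin, l2_lin, lap_lin _ _ hL.l1.smo hM.l1.smo, lap_lin _ _ hL.l2.smo hM.l2.smo,
    iO_lin hΩ _ _ hL.l1.lap hM.l1.lap, iO_lin hΩ _ _ hL.l2.lap hM.l2.lap, toLp_lin]
theorem fw_lin (hΩ : MeasurableSet Ω) (hL : Cc L) (hM : Cc M) (s t : ℝ) :
    fw Ω (fun x => (s : ℂ) * L x + (t : ℂ) * M x) = (s : ℂ) • fw Ω L + (t : ℂ) • fw Ω M := by
  unfold fw
  rw [cw_lin hL.smo hM.smo, iO_lin hΩ _ _ hL.cw hM.cw]
theorem f4_lin (hΩ : MeasurableSet Ω) (hL : Cc L) (hM : Cc M) (s t : ℝ) :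
    f4 Ω (fun x => (s : ℂ) * L x + (t : ℂ) * M x) = (s : ℂ) • f4 Ω L + (t : ℂ) • f4 Ω M := by
  have key : ∀ {f g : ℂ → ℂ}, Cc f → Cc g → cl4 (Ω.indicator fun x => (s : ℂ) * f x + (t : ℂ) * g x) =
      (s : ℂ) • cl4 (Ω.indicator f) + (t : ℂ) • cl4 (Ω.indicator g) := by
    intro f g hf hg
    have hf' := hf.ind_memLp hΩ 4
    have hg' := hg.ind_memLp hΩ 4
    rw [ind_lin, cl4_add (hf'.const_mul (s : ℂ)) (hg'.const_mul (t : ℂ)), cl4_smul _ hf',
      cl4_smul _ hg']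
  unfold f4
  rw [l1_lin, l2_lin, key hL.l1 hM.l1, key hL.l2 hM.l2]
  rfl
theorem bf_lin (D : Set ℂ) (hΩ : MeasurableSet Ω) (hL : Cc L) (hM : Cc M) (s t : ℝ) :
    bf Ω (fun x => (s : ℂ) * L x + (t : ℂ) * M x) D = (s : ℂ) • bf Ω L D + (t : ℂ) • bf Ω M D := by
  have key : ∀ {f g : ℂ → ℂ}, Cc f → Cc g → mm (Ω.indicator fun x => (s : ℂ) * f x + (t : ℂ) * g x) =
      (s : ℂ) • mm (Ω.indicator f) + (t : ℂ) • mm (Ω.indicator g) := by
    intro f g hf hg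
    obtain ⟨c, hc⟩ := hf.ind_Bm hΩ
    obtain ⟨d, hd⟩ := hg.ind_Bm hΩ
    rw [ind_lin, mm_lin _ _ hc hd]
  ext1 v
  unfold bf
  rw [l1_lin, l2_lin, cw_lin hL.smo hM.smo]
  have ext2 : ∀ a b : Y2, a.fst = b.fst → a.snd = b.snd → a = b := by
    intro a b h1 h2
    exact (WithLp.equiv 2 (L2c × L2c)).injective (Prod.ext h1 h2)
  refine ext2 _ _ ?_ ?_
  · show mm (Ω.indicator fun x => (s : ℂ) * l2 L x + (t : ℂ) * l2 M x) (v : L2c) +
        mm (Ω.indicator fun x => (s : ℂ) * cw L x + (t : ℂ) * cw M x) ((iot D v : XD D) : Y2).snd =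
      (s : ℂ) • (mm (Ω.indicator (l2 L)) (v : L2c) +
          mm (Ω.indicator (cw L)) ((iot D v : XD D) : Y2).snd) +
        (t : ℂ) • (mm (Ω.indicator (l2 M)) (v : L2c) +
          mm (Ω.indicator (cw M)) ((iot D v : XD D) : Y2).snd)
    rw [key hL.l2 hM.l2, key hL.cw hM.cw]
    simp only [add_apply, smul_apply, smul_add]
    abel
  · show -mm (Ω.indicator fun x => (s : ℂ) * l1 L x + (t : ℂ) * l1 M x) (v : L2c) +
        -mm (Ω.indicator fun x => (s : ℂ) * cw L x + (t : ℂ) * cw M x) ((iot D v : XD D) : Y2).fst =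
      (s : ℂ) • (-mm (Ω.indicator (l1 L)) (v : L2c) +
          -mm (Ω.indicator (cw L)) ((iot D v : XD D) : Y2).fst) +
        (t : ℂ) • (-mm (Ω.indicator (l1 M)) (v : L2c) +
          -mm (Ω.indicator (cw M)) ((iot D v : XD D) : Y2).fst)
    rw [key hL.l1 hM.l1, key hL.cw hM.cw]
    simp only [add_apply, smul_apply, smul_add, smul_neg]
    abel

/-- The quadratic force on a segment: there is a mixed term `X`. -/
theorem qf_seg (hΩ : MeasurableSet Ω) (hL : Cc L) (hM : Cc M) : ∃ X : Y2, ∀ s t : ℝ,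
    qf Ω (fun x => (s : ℂ) * L x + (t : ℂ) * M x) =
      ((s : ℂ) ^ 2) • qf Ω L + ((t : ℂ) ^ 2) • qf Ω M + ((s : ℂ) * (t : ℂ)) • X := by
  have key : ∀ {f g : ℂ → ℂ}, Cc f → Cc g → ∀ s t : ℝ,
      iO Ω (fun x => ((s : ℂ) * cw L x + (t : ℂ) * cw M x) * ((s : ℂ) * f x + (t : ℂ) * g x)) =
        ((s : ℂ) ^ 2) • iO Ω (fun x => cw L x * f x) + ((t : ℂ) ^ 2) • iO Ω (fun x => cw M x * g x) +
          ((s : ℂ) * (t : ℂ)) • iO Ω (fun x => cw L x * g x + cw M x * f x) := by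
    intro f g hf hg s t
    have c1 : Cc fun x => cw L x * f x := hL.cw.mul_smo hf.smo
    have c2 : Cc fun x => cw M x * g x := hM.cw.mul_smo hg.smo
    have c3 : Cc fun x => cw L x * g x + cw M x * f x :=
      (hL.cw.mul_smo hg.smo).add (hM.cw.mul_smo hf.smo)
    rw [← iO_lin hΩ _ _ c1 c2, ← iO_smul hΩ _ c3, ← iO_add hΩ ((c1.cmul _).add (c2.cmul _)) (c3.cmul _)]
    congr 1
    funext x
    ring
  refine ⟨WithLp.toLp 2 (iO Ω (fun x => cw L x * l2 M x + cw M x * l2 L x),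
    -iO Ω (fun x => cw L x * l1 M x + cw M x * l1 L x)), fun s t => ?_⟩
  unfold qf
  rw [l1_lin, l2_lin, cw_lin hL.smo hM.smo, key hL.l2 hM.l2, key hL.l1 hM.l1]
  have ext2 : ∀ a b : Y2, a.fst = b.fst → a.snd = b.snd → a = b := by
    intro a b h1 h2
    exact (WithLp.equiv 2 (L2c × L2c)).injective (Prod.ext h1 h2)
  refine ext2 _ _ rfl ?_
  set A := iO Ω (fun x => cw L x * l1 L x)
  set B := iO Ω (fun x => cw M x * l1 M x)
  set E := iO Ω (fun x => cw L x * l1 M x + cw M x * l1 L x)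
  show -(((s : ℂ) ^ 2) • A + ((t : ℂ) ^ 2) • B + ((s : ℂ) * (t : ℂ)) • E) =
    ((s : ℂ) ^ 2) • (-A) + ((t : ℂ) ^ 2) • (-B) + ((s : ℂ) * (t : ℂ)) • (-E)
  simp only [smul_neg, neg_add]

end

end Pool.Agent.Lib.MP_79abb3_an.PD
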