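import Pool.Agent.Lib.MP_79abb3_an.PD.FldA2

/-!
Theorem D: fields on `Ω`: norms and reality.
-/

set_option autoImplicit false
set_option linter.unusedSectionVars false

open MeasureTheory Set Filter Topology Function
open scoped ENNReal InnerProductSpace ComplexConjugate

namespace Pool.Agent.Lib.MP_79abb3_an.PD

open Pool.Agent.Lib.MP_79abb3_an.SC

section
variable {Ω : Set ℂ} {L M : ℂ → ℂ} {s t : ℝ}

private theorem fld3_norm_sq {f : ℂ → ℂ} (hf : MemLp f 2 (volume : Measure ℂ)) :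
    ‖cl2 f‖ ^ 2 = ∫ x, ‖f x‖ ^ 2 := by
  have h1 : ⟪cl2 f, cl2 f⟫_ℂ = ∫ x, ((‖f x‖ ^ 2 : ℝ) : ℂ) := by
    rw [L2.inner_def]
    refine integral_congr_ae ?_
    filter_upwards [cl2_coe hf] with x hx
    rw [hx, inner_self_eq_norm_sq_to_K]
    push_cast
    rfl
  rw [inner_self_eq_norm_sq_to_K, integral_complex_ofReal] at h1
  have h3 : ((‖cl2 f‖ ^ 2 : ℝ) : ℂ) = ((∫ x, ‖f x‖ ^ 2 : ℝ) : ℂ) := by
    rw [← h1]
    push_cast
    rfl
  exact_mod_cast h3

private theorem fld3_conj_ind {g : ℂ → ℂ} (hr : ∀ x, conj (g x) = g x) (Ω : Set ℂ) :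
    (fun x => conj (Ω.indicator g x)) = Ω.indicator g := by
  funext x
  by_cases hx : x ∈ Ω
  · rw [indicator_of_mem hx, hr]
  · rw [indicator_of_notMem hx, map_zero]

private theorem fld3_iO (hΩ : MeasurableSet Ω) {g : ℂ → ℂ} (hg : Cc g)
    (hr : ∀ x, conj (g x) = g x) : cL2 (iO Ω g) = iO Ω g := by
  unfold iO
  rw [cl2_conj (hg.ind_memLp hΩ 2), fld3_conj_ind hr]

private theorem fld3_l1 (L : ℂ → ℂ) (x : ℂ) : conj (l1 L x) = l1 L x := Complex.conj_ofReal _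

private theorem fld3_l2 (L : ℂ → ℂ) (x : ℂ) : conj (l2 L x) = l2 L x := Complex.conj_ofReal _

private theorem fld3_px {g : ℂ → ℂ} (hg : Smo g) (hr : ∀ x, conj (g x) = g x) (x : ℂ) :
    conj (px g x) = px g x := by
  have h1 : (fun x => conj (g x)) = g := funext hr
  have h2 := hg.px_conj
  rw [h1] at h2
  exact (congrFun h2 x).symm

private theorem fld3_py {g : ℂ → ℂ} (hg : Smo g) (hr : ∀ x, conj (g x) = g x) (x : ℂ) :
    conj (py g x) = py g x := by
  have h1 : (fun x => conj (g x)) = g := funext hr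
  have h2 := hg.py_conj
  rw [h1] at h2
  exact (congrFun h2 x).symm

private theorem fld3_lap {g : ℂ → ℂ} (hg : Smo g) (hr : ∀ x, conj (g x) = g x) (x : ℂ) :
    conj (lap g x) = lap g x := by
  unfold lap
  rw [map_add, fld3_px hg.px (fld3_px hg hr), fld3_py hg.py (fld3_py hg hr)]

private theorem fld3_cw (hL : Cc L) (x : ℂ) : conj (cw L x) = cw L x := by
  unfold cw
  rw [map_sub, fld3_px hL.l2.smo (fld3_l2 L), fld3_py hL.l1.smo (fld3_l1 L)]

theorem fo_norm (hΩ : MeasurableSet Ω) (hL : Cc L) :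
    ENNReal.ofReal ‖fo Ω L‖ = eLpNorm L 2 (volume.restrict Ω) := by
  have m0 : MemLp (Ω.indicator L) 2 (volume : Measure ℂ) := hL.ind_memLp hΩ 2
  have m1 : MemLp (Ω.indicator (l1 L)) 2 (volume : Measure ℂ) := hL.l1.ind_memLp hΩ 2
  have m2 : MemLp (Ω.indicator (l2 L)) 2 (volume : Measure ℂ) := hL.l2.ind_memLp hΩ 2
  have h1 : ‖fo Ω L‖ = ‖cl2 (Ω.indicator L)‖ := by
    have h2 : ‖fo Ω L‖ ^ 2 = ‖cl2 (Ω.indicator L)‖ ^ 2 := by
      rw [WithLp.prod_norm_sq_eq_of_L2]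
      change ‖cl2 (Ω.indicator (l1 L))‖ ^ 2 + ‖cl2 (Ω.indicator (l2 L))‖ ^ 2 = _
      rw [fld3_norm_sq m0, fld3_norm_sq m1, fld3_norm_sq m2, ← integral_add]
      · refine integral_congr_ae (Eventually.of_forall fun x => ?_)
        by_cases hx : x ∈ Ω
        · simp only [indicator_of_mem hx, l1, l2, Complex.norm_real, Real.norm_eq_abs, sq_abs]
          rw [← Complex.normSq_eq_norm_sq, Complex.normSq_apply]
          ring
        · simp only [indicator_of_notMem hx]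
          simp
      · exact m1.integrable_norm_pow (by norm_num)
      · exact m2.integrable_norm_pow (by norm_num)
    exact (sq_eq_sq₀ (norm_nonneg _) (norm_nonneg _)).1 h2
  rw [h1, cl2_eq m0, Lp.norm_toLp, ENNReal.ofReal_toReal m0.2.ne,
    eLpNorm_indicator_eq_eLpNorm_restrict hΩ]

/-- reality -/
theorem fo_real (hΩ : MeasurableSet Ω) (hL : Cc L) : cYy (fo Ω L) = fo Ω L := by
  apply WithLp.ofLp_injective
  apply Prod.ext
  · exact fld3_iO hΩ hL.l1 (fld3_l1 L)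
  · exact fld3_iO hΩ hL.l2 (fld3_l2 L)
theorem fl_real (hΩ : MeasurableSet Ω) (hL : Cc L) : cYy (fl Ω L) = fl Ω L := by
  apply WithLp.ofLp_injective
  apply Prod.ext
  · exact fld3_iO hΩ hL.l1.lap (fld3_lap hL.l1.smo (fld3_l1 L))
  · exact fld3_iO hΩ hL.l2.lap (fld3_lap hL.l2.smo (fld3_l2 L))
theorem fw_real (hΩ : MeasurableSet Ω) (hL : Cc L) : cL2 (fw Ω L) = fw Ω L :=
  fld3_iO hΩ hL.cw (fld3_cw hL)
theorem qf_real (hΩ : MeasurableSet Ω) (hL : Cc L) : cYy (qf Ω L) = qf Ω L := by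
  apply WithLp.ofLp_injective
  apply Prod.ext
  · refine fld3_iO hΩ (hL.cw.mul_smo hL.l2.smo) fun x => ?_
    rw [map_mul, fld3_cw hL, fld3_l2]
  · change cL2 (-iO Ω (fun x => cw L x * l1 L x)) = -iO Ω (fun x => cw L x * l1 L x)
    refine (map_neg cL2 _).trans (congrArg (fun z => -z) ?_)
    refine fld3_iO hΩ (hL.cw.mul_smo hL.l1.smo) fun x => ?_
    rw [map_mul, fld3_cw hL, fld3_l1]
theorem f4_real (hΩ : MeasurableSet Ω) (hL : Cc L) : cZ4 (f4 Ω L) = f4 Ω L := by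
  apply Prod.ext
  · change cL4 (cl4 (Ω.indicator (l1 L))) = cl4 (Ω.indicator (l1 L))
    rw [cl4_conj (hL.l1.ind_memLp hΩ 4), fld3_conj_ind (fld3_l1 L)]
  · change cL4 (cl4 (Ω.indicator (l2 L))) = cl4 (Ω.indicator (l2 L))
    rw [cl4_conj (hL.l2.ind_memLp hΩ 4), fld3_conj_ind (fld3_l2 L)]

private theorem fld3_mm (hΩ : MeasurableSet Ω) {g : ℂ → ℂ} (hg : Cc g)
    (hr : ∀ x, conj (g x) = g x) (f : L2c) :
    cL2 (mm (Ω.indicator g) f) = mm (Ω.indicator g) (cL2 f) := by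
  obtain ⟨c, hc⟩ := hg.ind_Bm hΩ
  rw [mm_conj hc, fld3_conj_ind hr]

theorem bf_real {D : Set ℂ} (hD : Bornology.IsBounded D) (hΩ : MeasurableSet Ω) (hL : Cc L) (v : VD D) :
    cYy (bf Ω L D v) = bf Ω L D (cVD D v) := by
  have e1 : bf Ω L D v = vot (Ω.indicator (l1 L)) (Ω.indicator (l2 L)) (v : L2c) +
      rot (Ω.indicator (cw L)) ((iot D v : XD D) : Y2) := rfl
  have e2 : bf Ω L D (cVD D v) = vot (Ω.indicator (l1 L)) (Ω.indicator (l2 L)) (cL2 (v : L2c)) +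
      rot (Ω.indicator (cw L)) ((iot D (cVD D v) : XD D) : Y2) := rfl
  have e3 : ((iot D (cVD D v) : XD D) : Y2) = cYy ((iot D v : XD D) : Y2) := by
    have h := (FCj_D hD).ι v
    exact congrArg (fun z : XD D => (z : Y2)) h.symm
  rw [e1, e2, e3, map_add]
  congr 1
  · apply WithLp.ofLp_injective
    apply Prod.ext
    · exact fld3_mm hΩ hL.l2 (fld3_l2 L) _
    · refine (map_neg cL2 _).trans (congrArg (fun z => -z) ?_)
      exact fld3_mm hΩ hL.l1 (fld3_l1 L) _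
  · apply WithLp.ofLp_injective
    apply Prod.ext
    · exact fld3_mm hΩ hL.cw (fld3_cw hL) _
    · refine (map_neg cL2 _).trans (congrArg (fun z => -z) ?_)
      exact fld3_mm hΩ hL.cw (fld3_cw hL) _

end

end Pool.Agent.Lib.MP_79abb3_an.PD
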