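import Pool.Agent.Lib.MP_79abb3_an.PD.FldA3

/-!
Theorem D, blocks P and A: identities in `Ω` for a smooth field `L` and for `U = L + iot v`. The local stream functions
are the elements of `Adm Ω`.
-/

set_option autoImplicit false
set_option linter.unusedSectionVars false

open MeasureTheory Set Filter Topology Function
open scoped ENNReal InnerProductSpace ComplexConjugate

namespace Pool.Agent.Lib.MP_79abb3_an.PD

open Pool.Agent.Lib.MP_79abb3_an.SC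

private theorem fldB_inner {f : ℂ → ℂ} (hf : MemLp f 2 (volume : Measure ℂ)) (u : L2c) :
    ⟪cl2 f, u⟫_ℂ = ∫ x, conj (f x) * (u : ℂ → ℂ) x := by
  rw [L2.inner_def]
  refine integral_congr_ae ?_
  filter_upwards [cl2_coe hf] with x hx
  rw [hx, RCLike.inner_apply, mul_comm]

private theorem fldB_gp {ψ : ℂ → ℂ} (hψ : Cc ψ) (y : Y2) :
    ⟪gp ψ, y⟫_ℂ = ∫ x, (conj (py ψ x) * (y.fst : ℂ → ℂ) x -
      conj (px ψ x) * (y.snd : ℂ → ℂ) x) := by
  have i1 : MemLp (fun x => conj (py ψ x)) 2 (volume : Measure ℂ) := hψ.py.conj.memLp 2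
  have i2 : MemLp (fun x => conj (px ψ x)) 2 (volume : Measure ℂ) := hψ.px.conj.memLp 2
  rw [integral_sub]
  · have h3 : ⟪gp ψ, y⟫_ℂ = ⟪cl2 (py ψ), y.fst⟫_ℂ + ⟪-cl2 (px ψ), y.snd⟫_ℂ :=
      WithLp.prod_inner_apply _ _
    rw [h3, inner_neg_left, fldB_inner (hψ.py.memLp 2), fldB_inner (hψ.px.memLp 2),
      sub_eq_add_neg]
  · exact i1.integrable_mul (Lp.memLp y.fst)
  · exact i2.integrable_mul (Lp.memLp y.snd)

private theorem fldB_iO {Ω : Set ℂ} (hΩ : MeasurableSet Ω) {g : ℂ → ℂ} (hg : Cc g) :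
    (iO Ω g : ℂ → ℂ) =ᵐ[volume] Ω.indicator g := cl2_coe (hg.ind_memLp hΩ 2)

private theorem fldB_int {f g : ℂ → ℂ} (hf : Cc f) (hg : Cc g) : Integrable fun x => f x * g x :=
  (hf.mul_smo hg.smo).integrable

/-- `∇^⊥ψ` in `L⁴` -/
noncomputable def g4 (ψ : ℂ → ℂ) : L4c × L4c := (cl4 (py ψ), -cl4 (px ψ))

theorem Adm.mono {Ω D : Set ℂ} (h : Ω ⊆ D) {ψ : ℂ → ℂ} (hψ : ψ ∈ Adm Ω) : ψ ∈ Adm D :=
  ⟨hψ.1, hψ.2.trans h⟩

theorem jj_g4 {D : Set ℂ} (hD : Bornology.IsBounded D) (ψ : Adm D) : jj D (cuV D ψ) = g4 ψ :=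
  Prod.ext (j1_cuV hD ψ) (j2_cuV hD ψ)

section
variable {D Ω : Set ℂ} {L : ℂ → ℂ}

/-- `divC` in terms of the components. -/
theorem divC_eq (hL : Smo L) (x : ℂ) : ((divC L x : ℝ) : ℂ) = px (l1 L) x + py (l2 L) x := by
  rw [px_l1 hL, py_l2 hL, divC, Complex.ofReal_add]

private theorem fldB_div (hO : IsOpen Ω) (hL : Smo L) (hd : ∀ x ∈ Ω, divC L x = 0) {x : ℂ}
    (hx : x ∈ Ω) : lap (l1 L) x = -py (cw L) x ∧ lap (l2 L) x = px (cw L) x := by
  have e1 : px (l1 L) =ᶠ[𝓝 x] fun y => -py (l2 L) y := by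
    filter_upwards [hO.mem_nhds hx] with y hy
    have h1 := divC_eq hL y
    rw [hd y hy, Complex.ofReal_zero] at h1
    exact eq_neg_of_add_eq_zero_left h1.symm
  have e2 : py (l2 L) =ᶠ[𝓝 x] fun y => -px (l1 L) y := by
    filter_upwards [e1] with y hy
    rw [hy, neg_neg]
  have k1 : px (px (l1 L)) x = -px (py (l2 L)) x := by
    unfold px at e1 ⊢
    rw [e1.fderiv_eq, fderiv_fun_neg]
    rfl
  have k2 : py (py (l2 L)) x = -py (px (l1 L)) x := by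
    unfold py at e2 ⊢
    rw [e2.fderiv_eq, fderiv_fun_neg]
    rfl
  have c1 : py (cw L) x = py (px (l2 L)) x - py (py (l1 L)) x := by
    have h1 : cw L = fun x => px (l2 L) x + -py (l1 L) x := by
      funext y
      rw [cw, sub_eq_add_neg]
    rw [h1, py_add hL.l2.px hL.l1.py.neg]
    have h2 : py (fun x => -py (l1 L) x) x = -py (py (l1 L)) x := by
      conv_lhs => unfold py
      rw [fderiv_fun_neg]
      rfl
    rw [h2, sub_eq_add_neg]
  have c2 : px (cw L) x = px (px (l2 L)) x - px (py (l1 L)) x := by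
    have h1 : cw L = fun x => px (l2 L) x + -py (l1 L) x := by
      funext y
      rw [cw, sub_eq_add_neg]
    rw [h1, px_add hL.l2.px hL.l1.py.neg]
    have h2 : px (fun x => -py (l1 L) x) x = -px (py (l1 L)) x := by
      conv_lhs => unfold px
      rw [fderiv_fun_neg]
      rfl
    rw [h2, sub_eq_add_neg]
  have s1 := congrFun hL.l1.pxy x
  have s2 := congrFun hL.l2.pxy x
  constructor
  · unfold lap
    rw [k1, c1, s2]
    ring
  · unfold lap
    rw [k2, c2, s1]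
    ring

/-- `⟪∇^⊥ψ, ΔL⟫ = -⟪curl ∇^⊥ψ, curl L⟫` in `Ω`, for `div L = 0` in `Ω` (integration by parts; `dψ` has compact support in `Ω`,
in `Ω` `ΔL = (-∂₂ω, ∂₁ω)`). -/
theorem gp_fl (hO : IsOpen Ω) (hL : Cc L) (hd : ∀ x ∈ Ω, divC L x = 0) {ψ : ℂ → ℂ} (hψ : ψ ∈ Adm Ω) :
    ⟪gp ψ, fl Ω L⟫_ℂ = -⟪cu ψ, fw Ω L⟫_ℂ := by
  have hΩ := hO.measurableSet
  have hψc : Cc ψ := hψ.1
  have hφ : Cc (fun x => conj (ψ x)) := hψc.conj
  have hw : Cc (cw L) := hL.cw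
  have ey : (fun x => conj (py ψ x)) = py (fun x => conj (ψ x)) := hψc.smo.py_conj.symm
  have ex : (fun x => conj (px ψ x)) = px (fun x => conj (ψ x)) := hψc.smo.px_conj.symm
  have elap : ∀ x, conj (lap ψ x) = px (px (fun x => conj (ψ x))) x +
      py (py (fun x => conj (ψ x))) x := by
    intro x
    rw [← ex, ← ey, hψc.smo.px.px_conj, hψc.smo.py.py_conj]
    show conj (px (px ψ) x + py (py ψ) x) = _
    rw [map_add]
  have hR : -⟪cu ψ, fw Ω L⟫_ℂ = ∫ x, (px (px (fun x => conj (ψ x))) x * cw L x +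
      py (py (fun x => conj (ψ x))) x * cw L x) := by
    unfold cu
    rw [inner_neg_left, neg_neg, fldB_inner (hψc.lap.memLp 2)]
    refine integral_congr_ae ?_
    filter_upwards [fldB_iO hΩ hw] with x h1
    have h1' : (fw Ω L : ℂ → ℂ) x = Ω.indicator (cw L) x := h1
    rw [h1', elap]
    by_cases hx : x ∈ Ω
    · rw [indicator_of_mem hx]
      ring
    · have h2 := lap_zero (⟨ψ, hψ⟩ : Adm Ω) hx
      have h3 := elap x
      have h4 : lap ψ x = 0 := h2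
      rw [h4, map_zero] at h3
      rw [indicator_of_notMem hx, mul_zero, ← add_mul, ← h3, zero_mul]
  have hLft : ⟪gp ψ, fl Ω L⟫_ℂ = ∫ x, (-(py (fun x => conj (ψ x)) x * py (cw L) x) -
      px (fun x => conj (ψ x)) x * px (cw L) x) := by
    rw [fldB_gp hψc]
    refine integral_congr_ae ?_
    filter_upwards [fldB_iO hΩ hL.l1.lap, fldB_iO hΩ hL.l2.lap] with x h1 h2
    have h1' : ((fl Ω L).fst : ℂ → ℂ) x = Ω.indicator (lap (l1 L)) x := h1
    have h2' : ((fl Ω L).snd : ℂ → ℂ) x = Ω.indicator (lap (l2 L)) x := h2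
    rw [h1', h2', ← ey, ← ex]
    by_cases hx : x ∈ Ω
    · obtain ⟨k1, k2⟩ := fldB_div hO hL.smo hd hx
      rw [indicator_of_mem hx, indicator_of_mem hx, k1, k2]
      ring
    · have h3 : py ψ x = 0 := py_zero (⟨ψ, hψ⟩ : Adm Ω) hx
      have h4 : px ψ x = 0 := px_zero (⟨ψ, hψ⟩ : Adm Ω) hx
      simp only [h3, h4, map_zero, zero_mul, neg_zero, sub_zero]
  have b1 := hφ.py.ibpy hw
  have b2 := hφ.px.ibpx hw
  have i1 : Integrable fun x => -(py (fun x => conj (ψ x)) x * py (cw L) x) :=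
    (fldB_int hφ.py hw.py).neg
  rw [hR, hLft, integral_add (fldB_int hφ.px.px hw) (fldB_int hφ.py.py hw), b1, b2,
    integral_sub i1 (fldB_int hφ.px hw.px), integral_neg]
  ring

/-- `curl U = ω` in `Ω` in the weak sense. -/
theorem gp_fo (hO : IsOpen Ω) (hL : Cc L) {η : ℂ → ℂ} (hη : Cc η) (hs : tsupport η ⊆ Ω) :
    ⟪gp η, fo Ω L⟫_ℂ = ⟪cl2 η, fw Ω L⟫_ℂ := by
  have hΩ := hO.measurableSet
  have hφ : Cc (fun x => conj (η x)) := hη.conj
  have hw : Cc (cw L) := hL.cw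
  have hA : η ∈ Adm Ω := ⟨hη, (tsupport_fderiv_subset ℝ).trans hs⟩
  have ey : (fun x => conj (py η x)) = py (fun x => conj (η x)) := hη.smo.py_conj.symm
  have ex : (fun x => conj (px η x)) = px (fun x => conj (η x)) := hη.smo.px_conj.symm
  have hLft : ⟪gp η, fo Ω L⟫_ℂ = ∫ x, (py (fun x => conj (η x)) x * l1 L x -
      px (fun x => conj (η x)) x * l2 L x) := by
    rw [fldB_gp hη]
    refine integral_congr_ae ?_
    filter_upwards [fldB_iO hΩ hL.l1, fldB_iO hΩ hL.l2] with x h1 h2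
    have h1' : ((fo Ω L).fst : ℂ → ℂ) x = Ω.indicator (l1 L) x := h1
    have h2' : ((fo Ω L).snd : ℂ → ℂ) x = Ω.indicator (l2 L) x := h2
    rw [h1', h2', ← ey, ← ex]
    by_cases hx : x ∈ Ω
    · rw [indicator_of_mem hx, indicator_of_mem hx]
    · have h3 : py η x = 0 := py_zero (⟨η, hA⟩ : Adm Ω) hx
      have h4 : px η x = 0 := px_zero (⟨η, hA⟩ : Adm Ω) hx
      simp only [h3, h4, map_zero, zero_mul]
  have hR : ⟪cl2 η, fw Ω L⟫_ℂ = ∫ x, (conj (η x) * px (l2 L) x - conj (η x) * py (l1 L) x) := by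
    rw [fldB_inner (hη.memLp 2)]
    refine integral_congr_ae ?_
    filter_upwards [fldB_iO hΩ hw] with x h1
    have h1' : (fw Ω L : ℂ → ℂ) x = Ω.indicator (cw L) x := h1
    rw [h1']
    by_cases hx : x ∈ Ω
    · rw [indicator_of_mem hx, cw, mul_sub]
    · have h3 : η x = 0 := by
        by_contra h
        exact hx (hs (subset_tsupport _ h))
      simp only [h3, map_zero, zero_mul, sub_zero]
  have b1 := hφ.ibpy hL.l1
  have b2 := hφ.ibpx hL.l2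
  rw [hR, hLft, integral_sub (fldB_int hφ.py hL.l1) (fldB_int hφ.px hL.l2), b1, b2,
    integral_sub (fldB_int hφ hL.l2.px) (fldB_int hφ hL.l1.py)]
  ring

/-- `div L = 0` in `Ω` in the weak sense. -/
theorem fo_div (hO : IsOpen Ω) (hL : Cc L) (hd : ∀ x ∈ Ω, divC L x = 0) {η : ℂ → ℂ} (hη : Cc η)
    (hs : tsupport η ⊆ Ω) : ∫ x, ((fo Ω L).fst x * px η x + (fo Ω L).snd x * py η x) = 0 := by
  have hΩ := hO.measurableSet
  have hA : η ∈ Adm Ω := ⟨hη, (tsupport_fderiv_subset ℝ).trans hs⟩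
  have h0 : ∫ x, ((fo Ω L).fst x * px η x + (fo Ω L).snd x * py η x) =
      ∫ x, (px η x * l1 L x + py η x * l2 L x) := by
    refine integral_congr_ae ?_
    filter_upwards [fldB_iO hΩ hL.l1, fldB_iO hΩ hL.l2] with x h1 h2
    have h1' : ((fo Ω L).fst : ℂ → ℂ) x = Ω.indicator (l1 L) x := h1
    have h2' : ((fo Ω L).snd : ℂ → ℂ) x = Ω.indicator (l2 L) x := h2
    rw [h1', h2']
    by_cases hx : x ∈ Ω
    · rw [indicator_of_mem hx, indicator_of_mem hx]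
      ring
    · have h3 : py η x = 0 := py_zero (⟨η, hA⟩ : Adm Ω) hx
      have h4 : px η x = 0 := px_zero (⟨η, hA⟩ : Adm Ω) hx
      rw [h3, h4]
      ring
  have b1 := hη.ibpx hL.l1
  have b2 := hη.ibpy hL.l2
  rw [h0, integral_add (fldB_int hη.px hL.l1) (fldB_int hη.py hL.l2), b1, b2, ← neg_add,
    ← integral_add (fldB_int hη hL.l1.px) (fldB_int hη hL.l2.py), neg_eq_zero]
  refine integral_eq_zero_of_ae (Eventually.of_forall fun x => ?_)
  show η x * px (l1 L) x + η x * py (l2 L) x = 0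
  rw [← mul_add, ← divC_eq hL.smo]
  by_cases hx : x ∈ Ω
  · rw [hd x hx, Complex.ofReal_zero, mul_zero]
  · have h3 : η x = 0 := by
      by_contra h
      exact hx (hs (subset_tsupport _ h))
    rw [h3, zero_mul]

/-- `div u = 0` for `u ∈ XD` (density of `gpX`). -/
theorem XD_div (u : XD D) {η : ℂ → ℂ} (hη : Cc η) :
    ∫ x, ((u : Y2).fst x * px η x + (u : Y2).snd x * py η x) = 0 := by
  have i1 : MemLp (fun x => conj (px η x)) 2 (volume : Measure ℂ) := hη.px.conj.memLp 2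
  have i2 : MemLp (fun x => conj (py η x)) 2 (volume : Measure ℂ) := hη.py.conj.memLp 2
  have j1 : MemLp (fun x => px η x) 2 (volume : Measure ℂ) := hη.px.memLp 2
  have j2 : MemLp (fun x => py η x) 2 (volume : Measure ℂ) := hη.py.memLp 2
  have key : ∀ u : XD D, ∫ x, ((u : Y2).fst x * px η x + (u : Y2).snd x * py η x) =
      ⟪cl2 (fun x => conj (px η x)), (u : Y2).fst⟫_ℂ +
        ⟪cl2 (fun x => conj (py η x)), (u : Y2).snd⟫_ℂ := by
    intro u
    rw [fldB_inner i1, fldB_inner i2, integral_add]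
    · simp only [Complex.conj_conj]
      congr 1
      · exact integral_congr_ae (Eventually.of_forall fun x => mul_comm _ _)
      · exact integral_congr_ae (Eventually.of_forall fun x => mul_comm _ _)
    · exact (Lp.memLp (u : Y2).fst).integrable_mul j1
    · exact (Lp.memLp (u : Y2).snd).integrable_mul j2
  rw [key]
  refine (gpX_dense D).induction
    (P := fun u : XD D => ⟪cl2 (fun x => conj (px η x)), (u : Y2).fst⟫_ℂ +
        ⟪cl2 (fun x => conj (py η x)), (u : Y2).snd⟫_ℂ = 0) ?_ ?_ u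
  · rintro _ ⟨ψ, rfl⟩
    have hψ := Adm.cc ψ
    have e1 : ((gpX D ψ : XD D) : Y2).fst = cl2 (py ψ) := rfl
    have e2 : ((gpX D ψ : XD D) : Y2).snd = -cl2 (px ψ) := rfl
    rw [e1, e2, inner_neg_right, (hη.px.conj).inner hψ.py, (hη.py.conj).inner hψ.px]
    simp only [Complex.conj_conj]
    have b1 := hη.px.ibpy hψ
    have b2 := hη.py.ibpx hψ
    have s1 := hη.smo.pxy
    rw [s1] at b2
    rw [b1] at b2
    have h3 : ∫ x, px η x * py ψ x = ∫ x, py η x * px ψ x := neg_injective b2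
    rw [h3, add_neg_cancel]
  · exact isClosed_eq (by fun_prop) continuous_const

/-- the forces as values of `NL` -/
theorem gp_qf (hΩ : MeasurableSet Ω) (hL : Cc L) {ψ : ℂ → ℂ} (hψ : Cc ψ) :
    ⟪gp ψ, qf Ω L⟫_ℂ = NL (f4 Ω L) (fw Ω L) (g4 ψ) := by
  have hw : Cc (cw L) := hL.cw
  rw [fldB_gp hψ, NL_apply]
  refine integral_congr_ae ?_
  filter_upwards [fldB_iO hΩ (hw.mul_smo hL.l2.smo), fldB_iO hΩ (hw.mul_smo hL.l1.smo),
    fldB_iO hΩ hw, cl4_coe (hψ.py.memLp 4), cl4_coe (hψ.px.memLp 4), Lp.coeFn_neg (cl4 (px ψ)),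
    cl4_coe (hL.l1.ind_memLp hΩ 4), cl4_coe (hL.l2.ind_memLp hΩ 4),
    Lp.coeFn_neg (iO Ω (fun x => cw L x * l1 L x))] with x h1 h2 h3 h4 h5 h6 h7 h8 h9
  have k1 : ((qf Ω L).fst : ℂ → ℂ) x = Ω.indicator (fun x => cw L x * l2 L x) x := h1
  have k2 : ((qf Ω L).snd : ℂ → ℂ) x = -Ω.indicator (fun x => cw L x * l1 L x) x := by
    have : ((qf Ω L).snd : ℂ → ℂ) x = (-iO Ω (fun x => cw L x * l1 L x) : L2c) x := rfl
    rw [this, h9, Pi.neg_apply, h2]
  have k3 : (fw Ω L : ℂ → ℂ) x = Ω.indicator (cw L) x := h3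
  have k4 : ((g4 ψ).1 : ℂ → ℂ) x = py ψ x := h4
  have k5 : ((g4 ψ).2 : ℂ → ℂ) x = -px ψ x := by
    have : ((g4 ψ).2 : ℂ → ℂ) x = (-cl4 (px ψ) : L4c) x := rfl
    rw [this, h6, Pi.neg_apply, h5]
  have k7 : ((f4 Ω L).1 : ℂ → ℂ) x = Ω.indicator (l1 L) x := h7
  have k8 : ((f4 Ω L).2 : ℂ → ℂ) x = Ω.indicator (l2 L) x := h8
  rw [k1, k2, k3, k4, k5, k7, k8]
  by_cases hx : x ∈ Ω
  · simp only [indicator_of_mem hx, map_neg]
    ring
  · simp only [indicator_of_notMem hx, map_neg]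
    ring

theorem gp_bf (hD : Bornology.IsBounded D) (hΩ : MeasurableSet Ω) (hL : Cc L) (v : VD D) {ψ : ℂ → ℂ}
    (hψ : Cc ψ) : ⟪gp ψ, bf Ω L D v⟫_ℂ = NL (f4 Ω L) (v : L2c) (g4 ψ) + NL (jj D v) (fw Ω L) (g4 ψ) := by
  have hw : Cc (cw L) := hL.cw
  obtain ⟨c1, hc1⟩ := hL.l1.ind_Bm hΩ
  obtain ⟨c2, hc2⟩ := hL.l2.ind_Bm hΩ
  obtain ⟨c3, hc3⟩ := hw.ind_Bm hΩ
  have e : bf Ω L D v = vot (Ω.indicator (l1 L)) (Ω.indicator (l2 L)) (v : L2c) +
      rot (Ω.indicator (cw L)) ((iot D v : XD D) : Y2) := rfl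
  rw [e, inner_add_right]
  congr 1
  · rw [fldB_gp hψ, NL_apply, vot_fst, vot_snd]
    refine integral_congr_ae ?_
    filter_upwards [mm_coe hc2 (v : L2c), mm_coe hc1 (v : L2c),
      Lp.coeFn_neg (mm (Ω.indicator (l1 L)) (v : L2c)), cl4_coe (hψ.py.memLp 4),
      cl4_coe (hψ.px.memLp 4), Lp.coeFn_neg (cl4 (px ψ)),
      cl4_coe (hL.l1.ind_memLp hΩ 4), cl4_coe (hL.l2.ind_memLp hΩ 4)] with x h1 h2 h3 h4 h5 h6 h7 h8
    have k4 : ((g4 ψ).1 : ℂ → ℂ) x = py ψ x := h4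
    have k5 : ((g4 ψ).2 : ℂ → ℂ) x = -px ψ x := by
      have : ((g4 ψ).2 : ℂ → ℂ) x = (-cl4 (px ψ) : L4c) x := rfl
      rw [this, h6, Pi.neg_apply, h5]
    have k7 : ((f4 Ω L).1 : ℂ → ℂ) x = Ω.indicator (l1 L) x := h7
    have k8 : ((f4 Ω L).2 : ℂ → ℂ) x = Ω.indicator (l2 L) x := h8
    rw [h1, h3, Pi.neg_apply, h2, k4, k5, k7, k8, map_neg]
    ring
  · rw [fldB_gp hψ, NL_apply, rot_fst, rot_snd]
    refine integral_congr_ae ?_
    filter_upwards [mm_coe hc3 ((iot D v : XD D) : Y2).snd, mm_coe hc3 ((iot D v : XD D) : Y2).fst,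
      Lp.coeFn_neg (mm (Ω.indicator (cw L)) ((iot D v : XD D) : Y2).fst), cl4_coe (hψ.py.memLp 4),
      cl4_coe (hψ.px.memLp 4), Lp.coeFn_neg (cl4 (px ψ)), j1_ae hD v, j2_ae hD v,
      fldB_iO hΩ hw] with x h1 h2 h3 h4 h5 h6 h7 h8 h9
    have k4 : ((g4 ψ).1 : ℂ → ℂ) x = py ψ x := h4
    have k5 : ((g4 ψ).2 : ℂ → ℂ) x = -px ψ x := by
      have : ((g4 ψ).2 : ℂ → ℂ) x = (-cl4 (px ψ) : L4c) x := rfl
      rw [this, h6, Pi.neg_apply, h5]
    have k7 : ((jj D v).1 : ℂ → ℂ) x = (((iot D v : XD D) : Y2).fst : ℂ → ℂ) x := h7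
    have k8 : ((jj D v).2 : ℂ → ℂ) x = (((iot D v : XD D) : Y2).snd : ℂ → ℂ) x := h8
    have k9 : (fw Ω L : ℂ → ℂ) x = Ω.indicator (cw L) x := h9
    rw [h1, h3, Pi.neg_apply, h2, k4, k5, k7, k8, k9, map_neg]
    ring

end

end Pool.Agent.Lib.MP_79abb3_an.PD
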