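import Pool.Agent.Lib.MP_79abb3_an.PD.FldB

/-!
Theorem D: the nonlinear term in divergence form.
-/

set_option autoImplicit false
set_option linter.unusedSectionVars false

open MeasureTheory Set Filter Topology Function
open scoped ENNReal InnerProductSpace ComplexConjugate

namespace Pool.Agent.Lib.MP_79abb3_an.PD

open Pool.Agent.Lib.MP_79abb3_an.SC

section
variable {D Ω : Set ℂ} {L : ℂ → ℂ}

private theorem nlt_px_mul {f g : ℂ → ℂ} (hf : Smo f) (hg : Smo g) (x : ℂ) :
    px (fun x => f x * g x) x = px f x * g x + f x * px g x := by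
  unfold px
  rw [fderiv_fun_mul (hf.differentiable x) (hg.differentiable x)]
  simp only [_root_.add_apply, _root_.smul_apply, smul_eq_mul]
  ring

private theorem nlt_py_mul {f g : ℂ → ℂ} (hf : Smo f) (hg : Smo g) (x : ℂ) :
    py (fun x => f x * g x) x = py f x * g x + f x * py g x := by
  unfold py
  rw [fderiv_fun_mul (hf.differentiable x) (hg.differentiable x)]
  simp only [_root_.add_apply, _root_.smul_apply, smul_eq_mul]
  ring

private theorem nlt_int_px {G : ℂ → ℂ} (hG : Cc G) : ∫ x, px G x = 0 := by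
  have h0 : Integrable (fun x => fderiv ℝ G x 1) := hG.px.integrable
  have h1 := integral_mul_fderiv_eq_neg_fderiv_mul_of_integrable (μ := (volume : Measure ℂ))
    (v := (1 : ℂ)) (f := fun _ : ℂ => (1 : ℂ)) (g := G)
    (by simp) (by simpa using h0) (by simpa using hG.integrable)
    (fun x _ => differentiableAt_const _) (fun x _ => hG.smo.differentiable x)
  have h2 : ∫ x, px G x = ∫ x, (fun _ : ℂ => (1 : ℂ)) x * fderiv ℝ G x 1 := by
    simp [px]
  rw [h2, h1]
  simp

private theorem nlt_int_py {G : ℂ → ℂ} (hG : Cc G) : ∫ x, py G x = 0 := by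
  have h0 : Integrable (fun x => fderiv ℝ G x Complex.I) := hG.py.integrable
  have h1 := integral_mul_fderiv_eq_neg_fderiv_mul_of_integrable (μ := (volume : Measure ℂ))
    (v := Complex.I) (f := fun _ : ℂ => (1 : ℂ)) (g := G)
    (by simp) (by simpa using h0) (by simpa using hG.integrable)
    (fun x _ => differentiableAt_const _) (fun x _ => hG.smo.differentiable x)
  have h2 : ∫ x, py G x = ∫ x, (fun _ : ℂ => (1 : ℂ)) x * fderiv ℝ G x Complex.I := by
    simp [py]
  rw [h2, h1]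
  simp

private theorem nlt_smooth {a b φ : ℂ → ℂ} (ha : Smo a) (hb : Smo b) (hφ : Cc φ)
    (h0 : ∀ x, (px a x + py b x) * px φ x = 0) (h0' : ∀ x, (px a x + py b x) * py φ x = 0) :
    ∫ x, (py φ x * ((px b x - py a x) * b x) + px φ x * ((px b x - py a x) * a x)) =
      ∫ x, (a x * a x * px (py φ) x + a x * b x * (py (py φ) x - px (px φ) x) -
        b x * b x * py (px φ) x) := by
  set W : ℂ → ℂ := fun x => (1 / 2) * (b x * b x + (-1) * (a x * a x)) with hW
  set M : ℂ → ℂ := fun x => a x * b x with hM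
  have sW : Smo W := (Smo.const _).mul ((hb.mul hb).add ((Smo.const _).mul (ha.mul ha)))
  have sM : Smo M := ha.mul hb
  set G : ℂ → ℂ := fun x => py φ x * W x + px φ x * M x with hG
  set H : ℂ → ℂ := fun x => px φ x * W x + (-1) * (py φ x * M x) with hH
  have cG : Cc G := (hφ.py.mul_smo sW).add (hφ.px.mul_smo sM)
  have cH : Cc H := (hφ.px.mul_smo sW).add ((hφ.py.mul_smo sM).cmul _)
  have sb2 : Smo (fun x => b x * b x) := hb.mul hb
  have sa2 : Smo (fun x => a x * a x) := ha.mul ha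
  have sna2 : Smo (fun x => (-1) * (a x * a x)) := (Smo.const _).mul sa2
  have pW : ∀ x, px W x = (1 / 2) * (px b x * b x + b x * px b x + (-1) * (px a x * a x + a x * px a x)) := by
    intro x
    rw [hW, px_cmul (1 / 2) (sb2.add sna2), px_add sb2 sna2, px_cmul (-1) sa2, nlt_px_mul hb hb,
      nlt_px_mul ha ha]
  have qW : ∀ x, py W x = (1 / 2) * (py b x * b x + b x * py b x + (-1) * (py a x * a x + a x * py a x)) := by
    intro x
    rw [hW, py_cmul (1 / 2) (sb2.add sna2), py_add sb2 sna2, py_cmul (-1) sa2, nlt_py_mul hb hb,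
      nlt_py_mul ha ha]
  have pM : ∀ x, px M x = px a x * b x + a x * px b x := fun x => nlt_px_mul ha hb x
  have qM : ∀ x, py M x = py a x * b x + a x * py b x := fun x => nlt_py_mul ha hb x
  have pG : ∀ x, px G x = px (py φ) x * W x + py φ x * px W x + (px (px φ) x * M x + px φ x * px M x) := by
    intro x
    rw [hG, px_add (hφ.py.smo.mul sW) (hφ.px.smo.mul sM), nlt_px_mul hφ.py.smo sW,
      nlt_px_mul hφ.px.smo sM]
  have qH : ∀ x, py H x = py (px φ) x * W x + px φ x * py W x +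
      (-1) * (py (py φ) x * M x + py φ x * py M x) := by
    intro x
    rw [hH, py_add (hφ.px.smo.mul sW) ((Smo.const _).mul (hφ.py.smo.mul sM)),
      py_cmul (-1) (hφ.py.smo.mul sM), nlt_py_mul hφ.px.smo sW, nlt_py_mul hφ.py.smo sM]
  have hxy : ∀ x, px (py φ) x = py (px φ) x := fun x => congrFun hφ.smo.pxy x
  have i1 : Integrable (fun x => py φ x * ((px b x - py a x) * b x) +
      px φ x * ((px b x - py a x) * a x)) := by
    have s : Smo (fun x => px b x - py a x) := by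
      have := hb.px.add (ha.py.neg)
      simpa [sub_eq_add_neg] using this
    exact ((hφ.py.mul_smo (s.mul hb)).add (hφ.px.mul_smo (s.mul ha))).integrable
  have i2 : Integrable (fun x => a x * a x * px (py φ) x + a x * b x * (py (py φ) x - px (px φ) x) -
        b x * b x * py (px φ) x) := by
    have c1 : Cc (fun x => px (py φ) x * (a x * a x)) := hφ.py.px.mul_smo sa2
    have c2 : Cc (fun x => py (py φ) x * (a x * b x)) := hφ.py.py.mul_smo sM
    have c3 : Cc (fun x => px (px φ) x * (a x * b x)) := hφ.px.px.mul_smo sM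
    have c4 : Cc (fun x => py (px φ) x * (b x * b x)) := hφ.px.py.mul_smo sb2
    have := (((c1.integrable.add c2.integrable).sub c3.integrable).sub c4.integrable)
    refine this.congr (Eventually.of_forall fun x => ?_)
    simp only [Pi.add_apply, Pi.sub_apply]
    ring
  rw [← sub_eq_zero, ← integral_sub i1 i2]
  have key : ∀ x, (py φ x * ((px b x - py a x) * b x) + px φ x * ((px b x - py a x) * a x)) -
      (a x * a x * px (py φ) x + a x * b x * (py (py φ) x - px (px φ) x) -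
        b x * b x * py (px φ) x) = px G x + py H x := by
    intro x
    rw [pG, qH, pW, qW, pM, qM, hxy]
    have e1 := h0 x
    have e2 := h0' x
    simp only [hW, hM]
    linear_combination a x * e2 - b x * e1
  rw [integral_congr_ae (Eventually.of_forall key), integral_add cG.px.integrable cH.py.integrable,
    nlt_int_px cG, nlt_int_py cH, add_zero]

/-- second derivatives vanish outside the domain -/
private theorem nlt_dd_zero (ψ : Adm Ω) {x : ℂ} (hx : x ∉ Ω) (e e' : ℂ) :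
    fderiv ℝ (fun y => fderiv ℝ (ψ : ℂ → ℂ) y e) x e' = 0 := by
  have h0 : x ∉ tsupport (fderiv ℝ (ψ : ℂ → ℂ)) := fun h => hx (Adm.supp ψ h)
  have h1 : fderiv ℝ (ψ : ℂ → ℂ) =ᶠ[𝓝 x] 0 := notMem_tsupport_iff_eventuallyEq.1 h0
  have h2 : (fun y => fderiv ℝ (ψ : ℂ → ℂ) y e) =ᶠ[𝓝 x] fun _ => (0 : ℂ) := by
    filter_upwards [h1] with y hy
    rw [hy]; rfl
  rw [h2.fderiv_eq]
  simp

private theorem nlt_Bm {g : ℂ → ℂ} (h : Cc g) : ∃ c, Bm g c := by
  obtain ⟨c, hc⟩ := h.smo.continuous.bounded_above_of_compact_support h.cpt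
  exact ⟨c, h.smo.continuous.aestronglyMeasurable, hc⟩

private theorem nlt_pair {g : ℂ → ℂ} {c : ℝ} (h : Bm g c) (u v : L2c) :
    ⟪cL2 u, mm g v⟫_ℂ = ∫ x, (u : ℂ → ℂ) x * (v : ℂ → ℂ) x * g x := by
  rw [L2.inner_def]
  refine integral_congr_ae ?_
  filter_upwards [cL2_coe u, mm_coe h v] with x h1 h2
  rw [h1, h2, RCLike.inner_apply, Complex.conj_conj]
  ring

private theorem nlt_pair_int {g : ℂ → ℂ} {c : ℝ} (h : Bm g c) (u v : L2c) :
    Integrable fun x => (u : ℂ → ℂ) x * (v : ℂ → ℂ) x * g x := by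
  refine (L2.integrable_inner (𝕜 := ℂ) (cL2 u) (mm g v)).congr ?_
  filter_upwards [cL2_coe u, mm_coe h v] with x h1 h2
  rw [h1, h2, RCLike.inner_apply, Complex.conj_conj]
  ring

/-- the right side as a sum of inner products -/
private theorem nlt_rhs {g1 g2 g3 : ℂ → ℂ} (h1 : Cc g1) (h2 : Cc g2) (h3 : Cc g3) (u v : L2c) :
    ∫ x, ((u : ℂ → ℂ) x * (u : ℂ → ℂ) x * g1 x + (u : ℂ → ℂ) x * (v : ℂ → ℂ) x * g2 x -
      (v : ℂ → ℂ) x * (v : ℂ → ℂ) x * g3 x) =
    ⟪cL2 u, mm g1 u⟫_ℂ + ⟪cL2 u, mm g2 v⟫_ℂ - ⟪cL2 v, mm g3 v⟫_ℂ := by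
  obtain ⟨c1, b1⟩ := nlt_Bm h1
  obtain ⟨c2, b2⟩ := nlt_Bm h2
  obtain ⟨c3, b3⟩ := nlt_Bm h3
  have i12 : Integrable fun x => (u : ℂ → ℂ) x * (u : ℂ → ℂ) x * g1 x +
      (u : ℂ → ℂ) x * (v : ℂ → ℂ) x * g2 x := (nlt_pair_int b1 _ _).add (nlt_pair_int b2 _ _)
  rw [nlt_pair b1, nlt_pair b2, nlt_pair b3, ← integral_add (nlt_pair_int b1 _ _) (nlt_pair_int b2 _ _),
    ← integral_sub i12 (nlt_pair_int b3 _ _)]

/-- **The nonlinear term.** `∫ conj(∇^⊥ψ)·(-ω U^⊥) = ∫ U_i U_j conj(∂_j (∇^⊥ψ)_i)` for `U = L + iot v`, `ω = curl L + v`.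
Proof: for `v = cuV χ` everything is smooth in `Ω` and `-ω U^⊥ = -(U·∇)U + ∇|U|²/2`, `div U = 0`, integration by parts on the
compact support of `dψ`; then density of `cuV` (`U ∈ L⁴`, `ω ∈ L²` continuous in `v`, `j1_ae`, `j2_ae`). -/
theorem NL_tensor (hD : Bornology.IsBounded D) (hO : IsOpen Ω) (hL : Cc L) (hd : ∀ x ∈ Ω, divC L x = 0)
    (v : VD D) {ψ : ℂ → ℂ} (hψ : ψ ∈ Adm Ω) :
    NL (f4 Ω L + jj D v) (fw Ω L + (v : L2c)) (g4 ψ) =
      ∫ x, ((fo Ω L + ((iot D v : XD D) : Y2)).fst x * (fo Ω L + ((iot D v : XD D) : Y2)).fst x *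
          conj (px (py ψ) x) +
        (fo Ω L + ((iot D v : XD D) : Y2)).fst x * (fo Ω L + ((iot D v : XD D) : Y2)).snd x *
          conj (py (py ψ) x - px (px ψ) x) -
        (fo Ω L + ((iot D v : XD D) : Y2)).snd x * (fo Ω L + ((iot D v : XD D) : Y2)).snd x *
          conj (py (px ψ) x)) := by
  have cψ : Cc ψ := hψ.1
  have k1 : Cc (fun x => conj (px (py ψ) x)) := cψ.py.px.conj
  have k2 : Cc (fun x => conj (py (py ψ) x - px (px ψ) x)) := by
    have : Cc (fun x => py (py ψ) x + -px (px ψ) x) := cψ.py.py.add cψ.px.px.neg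
    simpa only [sub_eq_add_neg] using this.conj
  have k3 : Cc (fun x => conj (py (px ψ) x)) := cψ.px.py.conj
  refine (cuV_dense D).induction
    (P := fun v : VD D => NL (f4 Ω L + jj D v) (fw Ω L + (v : L2c)) (g4 ψ) =
      ∫ x, ((fo Ω L + ((iot D v : XD D) : Y2)).fst x * (fo Ω L + ((iot D v : XD D) : Y2)).fst x *
          conj (px (py ψ) x) +
        (fo Ω L + ((iot D v : XD D) : Y2)).fst x * (fo Ω L + ((iot D v : XD D) : Y2)).snd x *
          conj (py (py ψ) x - px (px ψ) x) -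
        (fo Ω L + ((iot D v : XD D) : Y2)).snd x * (fo Ω L + ((iot D v : XD D) : Y2)).snd x *
          conj (py (px ψ) x))) ?_ ?_ v
  · rintro _ ⟨χ, rfl⟩
    have cχ : Cc (χ : ℂ → ℂ) := Adm.cc χ
    have mO : MeasurableSet Ω := hO.measurableSet
    set a : ℂ → ℂ := fun x => l1 L x + py χ x with ha
    set b : ℂ → ℂ := fun x => l2 L x + -px χ x with hb
    set φ : ℂ → ℂ := fun x => conj (ψ x) with hφ
    have sa : Smo a := hL.l1.smo.add cχ.smo.py
    have sb : Smo b := hL.l2.smo.add cχ.smo.px.neg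
    have cφ : Cc φ := cψ.conj
    have pa : ∀ x, px a x = px (l1 L) x + px (py χ) x := fun x => px_add hL.l1.smo cχ.smo.py x
    have qa : ∀ x, py a x = py (l1 L) x + py (py χ) x := fun x => py_add hL.l1.smo cχ.smo.py x
    have en : (fun x => -px χ x) = fun x => (-1) * px χ x := by funext x; ring
    have pb : ∀ x, px b x = px (l2 L) x - px (px χ) x := by
      intro x
      rw [hb, px_add hL.l2.smo cχ.smo.px.neg, en, px_cmul (-1) cχ.smo.px]
      ring
    have qb : ∀ x, py b x = py (l2 L) x - py (px χ) x := by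
      intro x
      rw [hb, py_add hL.l2.smo cχ.smo.px.neg, en, py_cmul (-1) cχ.smo.px]
      ring
    have pφ : px φ = fun x => conj (px ψ x) := cψ.smo.px_conj
    have qφ : py φ = fun x => conj (py ψ x) := cψ.smo.py_conj
    have z1 : ∀ x, x ∉ Ω → px ψ x = 0 := fun x hx => px_zero (D := Ω) ⟨ψ, hψ⟩ hx
    have z2 : ∀ x, x ∉ Ω → py ψ x = 0 := fun x hx => py_zero (D := Ω) ⟨ψ, hψ⟩ hx
    have dv : ∀ x ∈ Ω, px a x + py b x = 0 := by
      intro x hx
      have h1 := divC_eq hL.smo x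
      rw [hd x hx] at h1
      have h2 : px (py χ) x = py (px χ) x := congrFun cχ.smo.pxy x
      rw [pa, qb, h2]
      push_cast at h1
      linear_combination -h1
    have h0 : ∀ x, (px a x + py b x) * px φ x = 0 := by
      intro x
      by_cases hx : x ∈ Ω
      · rw [dv x hx, zero_mul]
      · rw [pφ]; simp [z1 x hx]
    have h0' : ∀ x, (px a x + py b x) * py φ x = 0 := by
      intro x
      by_cases hx : x ∈ Ω
      · rw [dv x hx, zero_mul]
      · rw [qφ]; simp [z2 x hx]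
    have key := nlt_smooth sa sb cφ h0 h0'
    have e1 : px (py φ) = fun x => conj (px (py ψ) x) := by rw [qφ]; exact cψ.smo.py.px_conj
    have e2 : py (py φ) = fun x => conj (py (py ψ) x) := by rw [qφ]; exact cψ.smo.py.py_conj
    have e3 : px (px φ) = fun x => conj (px (px ψ) x) := by rw [pφ]; exact cψ.smo.px.px_conj
    have e4 : py (px φ) = fun x => conj (py (px ψ) x) := by rw [pφ]; exact cψ.smo.px.py_conj
    rw [e1, e2, e3, e4, pφ, qφ] at key
    have lhs : NL (f4 Ω L + jj D (cuV D χ)) (fw Ω L + (cuV D χ : L2c)) (g4 ψ) =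
        ∫ x, (conj (py ψ x) * ((px b x - py a x) * b x) + conj (px ψ x) * ((px b x - py a x) * a x)) := by
      rw [NL_apply, jj_g4 hD]
      refine integral_congr_ae ?_
      have m1 : MemLp (Ω.indicator (l1 L)) 4 (volume : Measure ℂ) := hL.l1.ind_memLp mO 4
      have m2 : MemLp (Ω.indicator (l2 L)) 4 (volume : Measure ℂ) := hL.l2.ind_memLp mO 4
      have m3 : MemLp (Ω.indicator (cw L)) 2 (volume : Measure ℂ) := hL.cw.ind_memLp mO 2
      filter_upwards [cl4_coe m1, cl4_coe m2, cl2_coe m3, cl4_coe (cψ.py.memLp 4),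
        cl4_coe (cψ.px.memLp 4), Lp.coeFn_neg (cl4 (px ψ)), cl4_coe (cχ.py.memLp 4),
        cl4_coe (cχ.px.memLp 4), Lp.coeFn_neg (cl4 (px χ)), cl2_coe (cχ.lap.memLp 2),
        Lp.coeFn_neg (cl2 (lap χ)),
        Lp.coeFn_add (cl4 (Ω.indicator (l1 L))) (cl4 (py χ)),
        Lp.coeFn_add (cl4 (Ω.indicator (l2 L))) (-cl4 (px χ)),
        Lp.coeFn_add (cl2 (Ω.indicator (cw L))) (-cl2 (lap χ))]
        with x n1 n2 n3 n4 n5 n6 n7 n8 n9 n10 n11 n12 n13 n14
      have r1 : ((g4 ψ).1 : ℂ → ℂ) x = py ψ x := n4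
      have r2 : ((g4 ψ).2 : ℂ → ℂ) x = -px ψ x := by
        show ((-cl4 (px ψ) : L4c) : ℂ → ℂ) x = _
        rw [n6, Pi.neg_apply, n5]
      have r3 : ((f4 Ω L + g4 χ).1 : ℂ → ℂ) x = Ω.indicator (l1 L) x + py χ x := by
        show ((cl4 (Ω.indicator (l1 L)) + cl4 (py χ) : L4c) : ℂ → ℂ) x = _
        rw [n12, Pi.add_apply, n1, n7]
      have r4 : ((f4 Ω L + g4 χ).2 : ℂ → ℂ) x = Ω.indicator (l2 L) x + -px χ x := by
        show ((cl4 (Ω.indicator (l2 L)) + -cl4 (px χ) : L4c) : ℂ → ℂ) x = _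
        rw [n13, Pi.add_apply, n2, n9, Pi.neg_apply, n8]
      have r5 : ((fw Ω L + (cuV D χ : L2c) : L2c) : ℂ → ℂ) x = Ω.indicator (cw L) x + -lap χ x := by
        show ((cl2 (Ω.indicator (cw L)) + -cl2 (lap χ) : L2c) : ℂ → ℂ) x = _
        rw [n14, Pi.add_apply, n3, n11, Pi.neg_apply, n10]
      rw [r1, r2, r3, r4, r5]
      by_cases hx : x ∈ Ω
      · rw [indicator_of_mem hx, indicator_of_mem hx, indicator_of_mem hx, pb, qa]
        show conj (py ψ x) * ((cw L x + -(px (px χ) x + py (py χ) x)) * (l2 L x + -px χ x)) -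
          conj (-px ψ x) * ((cw L x + -(px (px χ) x + py (py χ) x)) * (l1 L x + py χ x)) = _
        rw [map_neg]
        unfold cw
        simp only [ha, hb]
        ring
      · rw [z1 x hx, z2 x hx]
        simp
    rw [lhs, key, iot_cuV hD]
    refine integral_congr_ae ?_
    have m1 : MemLp (Ω.indicator (l1 L)) 2 (volume : Measure ℂ) := hL.l1.ind_memLp mO 2
    have m2 : MemLp (Ω.indicator (l2 L)) 2 (volume : Measure ℂ) := hL.l2.ind_memLp mO 2
    filter_upwards [cl2_coe m1, cl2_coe m2, cl2_coe (cχ.py.memLp 2),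
        cl2_coe (cχ.px.memLp 2), Lp.coeFn_neg (cl2 (px χ)),
        Lp.coeFn_add (cl2 (Ω.indicator (l1 L))) (cl2 (py χ)),
        Lp.coeFn_add (cl2 (Ω.indicator (l2 L))) (-cl2 (px χ))]
        with x n1 n2 n3 n4 n5 n6 n7
    have r1 : ((fo Ω L + ((gpX D χ : XD D) : Y2)).fst : ℂ → ℂ) x = Ω.indicator (l1 L) x + py χ x := by
      show ((cl2 (Ω.indicator (l1 L)) + cl2 (py χ) : L2c) : ℂ → ℂ) x = _
      rw [n6, Pi.add_apply, n1, n3]
    have r2 : ((fo Ω L + ((gpX D χ : XD D) : Y2)).snd : ℂ → ℂ) x = Ω.indicator (l2 L) x + -px χ x := by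
      show ((cl2 (Ω.indicator (l2 L)) + -cl2 (px χ) : L2c) : ℂ → ℂ) x = _
      rw [n7, Pi.add_apply, n2, n5, Pi.neg_apply, n4]
    rw [r1, r2]
    by_cases hx : x ∈ Ω
    · rw [indicator_of_mem hx, indicator_of_mem hx, map_sub]
    · have y1 : px (py ψ) x = 0 := nlt_dd_zero ⟨ψ, hψ⟩ hx _ _
      have y2 : py (py ψ) x = 0 := nlt_dd_zero ⟨ψ, hψ⟩ hx _ _
      have y3 : px (px ψ) x = 0 := nlt_dd_zero ⟨ψ, hψ⟩ hx _ _
      have y4 : py (px ψ) x = 0 := nlt_dd_zero ⟨ψ, hψ⟩ hx _ _
      rw [y1, y2, y3, y4]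
      simp
  · have ex : ∀ v : VD D, ∫ x, ((fo Ω L + ((iot D v : XD D) : Y2)).fst x * (fo Ω L + ((iot D v : XD D) : Y2)).fst x *
          conj (px (py ψ) x) +
        (fo Ω L + ((iot D v : XD D) : Y2)).fst x * (fo Ω L + ((iot D v : XD D) : Y2)).snd x *
          conj (py (py ψ) x - px (px ψ) x) -
        (fo Ω L + ((iot D v : XD D) : Y2)).snd x * (fo Ω L + ((iot D v : XD D) : Y2)).snd x *
          conj (py (px ψ) x)) = _ := fun v => nlt_rhs k1 k2 k3 _ _
    simp only [ex]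
    have c1 : Continuous fun v : VD D => (fo Ω L + ((iot D v : XD D) : Y2)).fst := by fun_prop
    have c2 : Continuous fun v : VD D => (fo Ω L + ((iot D v : XD D) : Y2)).snd := by fun_prop
    refine isClosed_eq ?_ ?_
    · have d1 : Continuous fun v : VD D => NL (f4 Ω L + jj D v) := by fun_prop
      have d2 : Continuous fun v : VD D => (fw Ω L + (v : L2c) : L2c) := by fun_prop
      exact (continuous_eval_const (g4 ψ)).comp (d1.clm_apply d2)
    · refine Continuous.sub (Continuous.add ?_ ?_) ?_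
      · exact (cL2.continuous.comp c1).inner ((mm _).continuous.comp c1)
      · exact (cL2.continuous.comp c1).inner ((mm _).continuous.comp c2)
      · exact (cL2.continuous.comp c2).inner ((mm _).continuous.comp c2)

end

end Pool.Agent.Lib.MP_79abb3_an.PD
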