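import Pool.Agent.Lib.MP_79abb3_an.PD.FldB

/-!
Theorem D: derivatives of the velocities of `V(D)`.
-/

set_option autoImplicit false
set_option linter.unusedSectionVars false

open MeasureTheory Set Filter Topology Function
open scoped ENNReal InnerProductSpace ComplexConjugate

namespace Pool.Agent.Lib.MP_79abb3_an.PD

open Pool.Agent.Lib.MP_79abb3_an.SC

section
variable {D Ω : Set ℂ} {L : ℂ → ℂ}

/-- `ψ ↦ ∇^⊥ ∂ₓψ` as a linear map -/
private noncomputable def fldb3_gx (D : Set ℂ) : Adm D →ₗ[ℂ] Y2 where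
  toFun ψ := gp (px ψ)
  map_add' f g := by
    have e : px ((f : ℂ → ℂ) + (g : ℂ → ℂ)) = fun x => px f x + px g x :=
      funext (px_add (Adm.cc f).smo (Adm.cc g).smo)
    show gp (px ((f : ℂ → ℂ) + (g : ℂ → ℂ))) = _
    rw [e]
    exact gp_add (Adm.cc f).px (Adm.cc g).px
  map_smul' c f := by
    have e : px (c • (f : ℂ → ℂ)) = fun x => c * px f x := funext (px_cmul c (Adm.cc f).smo)
    show gp (px (c • (f : ℂ → ℂ))) = _
    rw [e]
    exact gp_cmul c (Adm.cc f).px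

/-- `ψ ↦ ∇^⊥ ∂_yψ` as a linear map -/
private noncomputable def fldb3_gy (D : Set ℂ) : Adm D →ₗ[ℂ] Y2 where
  toFun ψ := gp (py ψ)
  map_add' f g := by
    have e : py ((f : ℂ → ℂ) + (g : ℂ → ℂ)) = fun x => py f x + py g x :=
      funext (py_add (Adm.cc f).smo (Adm.cc g).smo)
    show gp (py ((f : ℂ → ℂ) + (g : ℂ → ℂ))) = _
    rw [e]
    exact gp_add (Adm.cc f).py (Adm.cc g).py
  map_smul' c f := by
    have e : py (c • (f : ℂ → ℂ)) = fun x => c * py f x := funext (py_cmul c (Adm.cc f).smo)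
    show gp (py (c • (f : ℂ → ℂ))) = _
    rw [e]
    exact gp_cmul c (Adm.cc f).py

private theorem fldb3_le (a b c z : ℝ) (hc : 0 ≤ c) (ha : 0 ≤ a) (hb : 0 ≤ b) (h1 : a ≤ c) (h2 : b ≤ c)
    (hz : z ^ 2 = a ^ 2 + b ^ 2) : z ≤ 2 * c := by
  have h : z ^ 2 ≤ (2 * c) ^ 2 := by nlinarith
  exact le_of_sq_le_sq h (by linarith)

private theorem fldb3_bx (ψ : Adm D) : ‖fldb3_gx D ψ‖ ≤ 2 * ‖cuV D ψ‖ := by
  obtain ⟨h1, h2, h3, h4⟩ := norm_dd_le (Adm.cc ψ)
  exact fldb3_le _ _ _ _ (norm_nonneg _) (norm_nonneg _) (norm_nonneg _) h1 h3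
    (norm_gp_sq (Adm.cc ψ).px)

private theorem fldb3_by (ψ : Adm D) : ‖fldb3_gy D ψ‖ ≤ 2 * ‖cuV D ψ‖ := by
  obtain ⟨h1, h2, h3, h4⟩ := norm_dd_le (Adm.cc ψ)
  exact fldb3_le _ _ _ _ (norm_nonneg _) (norm_nonneg _) (norm_nonneg _) h2 h4
    (norm_gp_sq (Adm.cc ψ).py)

/-- derivatives of velocities: `∂₁`, `∂₂` of `iot v` -/
theorem exists_dV (hD : Bornology.IsBounded D) : ∃ dx dy : VD D →L[ℂ] Y2,
    (∀ ψ : Adm D, dx (cuV D ψ) = WithLp.toLp 2 (cl2 (px (py ψ)), -cl2 (px (px ψ))) ∧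
      dy (cuV D ψ) = WithLp.toLp 2 (cl2 (py (py ψ)), -cl2 (py (px ψ)))) ∧
    (∀ v, cVD D v = v → cYy (dx v) = dx v ∧ cYy (dy v) = dy v) := by
  have hx : ∀ ψ : Adm D, (fldb3_gx D).extendOfNorm (cuV D) (cuV D ψ) = gp (px ψ) := fun ψ =>
    LinearMap.extendOfNorm_eq (cuV_dense D) ⟨2, fldb3_bx⟩ ψ
  have hy : ∀ ψ : Adm D, (fldb3_gy D).extendOfNorm (cuV D) (cuV D ψ) = gp (py ψ) := fun ψ =>
    LinearMap.extendOfNorm_eq (cuV_dense D) ⟨2, fldb3_by⟩ ψ
  refine ⟨(fldb3_gx D).extendOfNorm (cuV D), (fldb3_gy D).extendOfNorm (cuV D), fun ψ => ⟨?_, ?_⟩,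
    fun v hv => ?_⟩
  · rw [hx, (Adm.cc ψ).smo.pxy]
    rfl
  · rw [hy, ← (Adm.cc ψ).smo.pxy]
    rfl
  · have kx : ∀ v : VD D, cYy ((fldb3_gx D).extendOfNorm (cuV D) v) =
        (fldb3_gx D).extendOfNorm (cuV D) (cVD D v) := by
      intro v
      have c1 : Continuous fun v : VD D => cYy ((fldb3_gx D).extendOfNorm (cuV D) v) :=
        cYy.continuous.comp ((fldb3_gx D).extendOfNorm (cuV D)).continuous
      have c2 : Continuous fun v : VD D => (fldb3_gx D).extendOfNorm (cuV D) (cVD D v) :=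
        ((fldb3_gx D).extendOfNorm (cuV D)).continuous.comp (cVD D).continuous
      refine isClosed_property (cuV_dense D) (isClosed_eq c1 c2) (fun ψ => ?_) v
      rw [hx, cVD_cuV, hx, gp_conj (Adm.cc ψ).px, ← (Adm.cc ψ).smo.px_conj]
      rfl
    have ky : ∀ v : VD D, cYy ((fldb3_gy D).extendOfNorm (cuV D) v) =
        (fldb3_gy D).extendOfNorm (cuV D) (cVD D v) := by
      intro v
      have c1 : Continuous fun v : VD D => cYy ((fldb3_gy D).extendOfNorm (cuV D) v) :=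
        cYy.continuous.comp ((fldb3_gy D).extendOfNorm (cuV D)).continuous
      have c2 : Continuous fun v : VD D => (fldb3_gy D).extendOfNorm (cuV D) (cVD D v) :=
        ((fldb3_gy D).extendOfNorm (cuV D)).continuous.comp (cVD D).continuous
      refine isClosed_property (cuV_dense D) (isClosed_eq c1 c2) (fun ψ => ?_) v
      rw [hy, cVD_cuV, hy, gp_conj (Adm.cc ψ).py, ← (Adm.cc ψ).smo.py_conj]
      rfl
    rw [kx, ky, hv]
    exact ⟨rfl, rfl⟩

noncomputable def dxV (hD : Bornology.IsBounded D) : VD D →L[ℂ] Y2 := (exists_dV hD).choose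
noncomputable def dyV (hD : Bornology.IsBounded D) : VD D →L[ℂ] Y2 := (exists_dV hD).choose_spec.choose

theorem dxV_cuV (hD : Bornology.IsBounded D) (ψ : Adm D) :
    dxV hD (cuV D ψ) = WithLp.toLp 2 (cl2 (px (py ψ)), -cl2 (px (px ψ))) ∧
      dyV hD (cuV D ψ) = WithLp.toLp 2 (cl2 (py (py ψ)), -cl2 (py (px ψ))) :=
  (exists_dV hD).choose_spec.choose_spec.1 ψ

theorem dxV_real (hD : Bornology.IsBounded D) {v : VD D} (hv : cVD D v = v) :
    cYy (dxV hD v) = dxV hD v ∧ cYy (dyV hD v) = dyV hD v := (exists_dV hD).choose_spec.choose_spec.2 v hv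

end

end Pool.Agent.Lib.MP_79abb3_an.PD
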