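import Pool.Agent.Lib.MP_79abb3_an.PD.GDef

/-!
Theorem D, block G, part A1: the Cauchy-Pompeiu formula for functions with compact support.
-/

set_option autoImplicit false
set_option linter.unusedSectionVars false

open MeasureTheory Set Filter Topology Function
open scoped ENNReal ComplexConjugate

namespace Pool.Agent.Lib.MP_79abb3_an.PD

section Aux

open Complex Metric

/-- the unit vector with angle `θ` -/
private noncomputable def ga1E (θ : ℝ) : ℂ := (Real.cos θ : ℂ) + (Real.sin θ : ℂ) * I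

private theorem ga1_E_cont : Continuous ga1E := by unfold ga1E; fun_prop

private theorem ga1_E_norm (θ : ℝ) : ‖ga1E θ‖ = 1 := by
  have : ga1E θ = Complex.exp (θ * I) := by
    rw [ga1E, Complex.exp_mul_I, Complex.ofReal_cos, Complex.ofReal_sin]
  rw [this, Complex.norm_exp_ofReal_mul_I]

private theorem ga1_E_ne (θ : ℝ) : ga1E θ ≠ 0 := by
  intro h
  have := ga1_E_norm θ
  rw [h, norm_zero] at this
  exact zero_ne_one this

private theorem ga1_E_deriv (θ : ℝ) : HasDerivAt ga1E (I * ga1E θ) θ := by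
  have h1 : HasDerivAt (fun θ : ℝ => ((Real.cos θ : ℝ) : ℂ)) ((-Real.sin θ : ℝ) : ℂ) θ :=
    (Real.hasDerivAt_cos θ).ofReal_comp
  have h2 : HasDerivAt (fun θ : ℝ => ((Real.sin θ : ℝ) : ℂ)) ((Real.cos θ : ℝ) : ℂ) θ :=
    (Real.hasDerivAt_sin θ).ofReal_comp
  refine (h1.add (h2.mul_const I)).congr_deriv ?_
  have : I * I = -1 := Complex.I_mul_I
  unfold ga1E
  push_cast
  linear_combination (-Complex.sin (θ : ℂ)) * this

private theorem ga1_dbar_div {L : ℂ →L[ℝ] ℂ} (θ : ℝ) :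
    (L 1 + I * L I) / ga1E θ = L (ga1E θ) + I * L (I * ga1E θ) := by
  rw [div_eq_iff (ga1_E_ne θ)]
  have e1 : L (ga1E θ) = (Real.cos θ : ℂ) * L 1 + (Real.sin θ : ℂ) * L I := by
    have : ga1E θ = Real.cos θ • (1 : ℂ) + Real.sin θ • I := by
      simp [ga1E]
    rw [this, map_add, map_smul, map_smul]
    simp
  have e2 : L (I * ga1E θ) = -(Real.sin θ : ℂ) * L 1 + (Real.cos θ : ℂ) * L I := by
    have : I * ga1E θ = (-Real.sin θ) • (1 : ℂ) + Real.cos θ • I := by
      have hI : I * I = -1 := Complex.I_mul_I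
      simp only [ga1E, real_smul]
      push_cast
      linear_combination (Complex.sin (θ : ℂ)) * hI
    rw [this, map_add, map_smul, map_smul]
    simp
  rw [e1, e2, ga1E]
  have hI : I * I = -1 := Complex.I_mul_I
  have hs : (Real.cos θ : ℂ) ^ 2 + (Real.sin θ : ℂ) ^ 2 = 1 := by
    have := Real.cos_sq_add_sin_sq θ
    exact_mod_cast this
  linear_combination (-(L 1) - I * L I) * hs + (Real.sin θ : ℂ) * (Real.sin θ : ℂ) * L 1 * hI -
    (Real.sin θ : ℂ) * (Real.cos θ : ℂ) * L I * hI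

private theorem ga1_support {φ : ℂ → ℂ} (hc : HasCompactSupport φ) :
    ∃ T : ℝ, 0 < T ∧ ∀ z, T ≤ ‖z‖ → φ z = 0 ∧ fderiv ℝ φ z = 0 := by
  obtain ⟨R, hR⟩ := hc.isCompact.isBounded.subset_closedBall 0
  refine ⟨max R 0 + 1, by positivity, fun z hz => ?_⟩
  have hz' : z ∉ tsupport φ := fun h => by
    have h1 := hR h
    rw [mem_closedBall_zero_iff] at h1
    have h2 := le_max_left R 0
    linarith
  exact ⟨image_eq_zero_of_notMem_tsupport hz',
    image_eq_zero_of_notMem_tsupport (fun h => hz' (tsupport_fderiv_subset ℝ h))⟩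

private theorem ga1_radial {φ : ℂ → ℂ} (hφ : ContDiff ℝ 1 φ) {T : ℝ} (hT0 : 0 < T)
    (hT : ∀ z, T ≤ ‖z‖ → φ z = 0 ∧ fderiv ℝ φ z = 0) (θ : ℝ) :
    ∫ r in Ioc 0 T, fderiv ℝ φ (r * ga1E θ) (ga1E θ) = -φ 0 := by
  have hd : ∀ r : ℝ, HasDerivAt (fun r : ℝ => φ (r * ga1E θ)) (fderiv ℝ φ (r * ga1E θ) (ga1E θ)) r := by
    intro r
    have h1 : HasDerivAt (fun r : ℝ => (r : ℂ) * ga1E θ) (ga1E θ) r := by
      simpa using (Complex.ofRealCLM.hasDerivAt (x := r)).mul_const (ga1E θ)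
    exact ((hφ.differentiable one_ne_zero) _).hasFDerivAt.comp_hasDerivAt r h1
  have hcont : Continuous (fun r : ℝ => fderiv ℝ φ (r * ga1E θ) (ga1E θ)) := by
    have := hφ.continuous_fderiv one_ne_zero
    exact (this.comp (by fun_prop)).clm_apply continuous_const
  rw [← intervalIntegral.integral_of_le hT0.le,
    intervalIntegral.integral_eq_sub_of_hasDerivAt (fun r _ => hd r) (hcont.intervalIntegrable _ _)]
  have h2 : φ ((T : ℂ) * ga1E θ) = 0 := (hT _ (by
    rw [norm_mul, ga1_E_norm, Complex.norm_real, Real.norm_eq_abs, abs_of_pos hT0, mul_one])).1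
  rw [h2]
  simp

private theorem ga1_angular {φ : ℂ → ℂ} (hφ : ContDiff ℝ 1 φ) {r : ℝ} (hr : 0 < r) :
    ∫ θ in Ioo (-Real.pi) Real.pi, fderiv ℝ φ (r * ga1E θ) (I * ga1E θ) = 0 := by
  have hd : ∀ θ : ℝ, HasDerivAt (fun θ : ℝ => (r⁻¹ : ℝ) • φ (r * ga1E θ))
      (fderiv ℝ φ (r * ga1E θ) (I * ga1E θ)) θ := by
    intro θ
    have h1 : HasDerivAt (fun θ : ℝ => (r : ℂ) * ga1E θ) ((r : ℝ) • (I * ga1E θ)) θ := by
      simpa using (ga1_E_deriv θ).const_mul (r : ℂ)
    have h2 := (((hφ.differentiable one_ne_zero) (r * ga1E θ)).hasFDerivAt.comp_hasDerivAt θ h1).const_smul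
      (r⁻¹ : ℝ)
    refine h2.congr_deriv ?_
    rw [map_smul, smul_smul, inv_mul_cancel₀ hr.ne', one_smul]
  have hcont : Continuous (fun θ : ℝ => fderiv ℝ φ (r * ga1E θ) (I * ga1E θ)) := by
    have h1 := hφ.continuous_fderiv one_ne_zero
    have h2 := ga1_E_cont
    exact (h1.comp (by fun_prop)).clm_apply (by fun_prop)
  have hpi := Real.pi_pos
  rw [← integral_Ioc_eq_integral_Ioo, ← intervalIntegral.integral_of_le (by linarith),
    intervalIntegral.integral_eq_sub_of_hasDerivAt (fun r _ => hd r) (hcont.intervalIntegrable _ _)]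
  have : ga1E Real.pi = ga1E (-Real.pi) := by simp [ga1E]
  rw [this, sub_self]

private theorem ga1_zero {φ : ℂ → ℂ} (hφ : ContDiff ℝ 1 φ) (hc : HasCompactSupport φ) :
    ∫ z, dbar φ z / z = -(Real.pi : ℂ) * φ 0 := by
  obtain ⟨T, hT0, hT⟩ := ga1_support hc
  have hpi := Real.pi_pos
  have h1 := hφ.continuous_fderiv one_ne_zero
  have h2 := ga1_E_cont
  set G1 : ℝ × ℝ → ℂ := fun p => fderiv ℝ φ (p.1 * ga1E p.2) (ga1E p.2) with hG1
  set G2 : ℝ × ℝ → ℂ := fun p => fderiv ℝ φ (p.1 * ga1E p.2) (I * ga1E p.2) with hG2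
  have c1 : Continuous G1 := (h1.comp (by fun_prop)).clm_apply (by fun_prop)
  have c2 : Continuous G2 := (h1.comp (by fun_prop)).clm_apply (by fun_prop)
  have hI : ∀ G : ℝ × ℝ → ℂ, Continuous G →
      IntegrableOn G (Ioc 0 T ×ˢ Ioo (-Real.pi) Real.pi) := by
    intro G cG
    refine (cG.continuousOn.integrableOn_compact (isCompact_Icc.prod isCompact_Icc)).mono_set
      (t := Icc 0 T ×ˢ Icc (-Real.pi) Real.pi) ?_
    exact prod_mono Ioc_subset_Icc_self Ioo_subset_Icc_self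
  rw [← Complex.integral_comp_polarCoord_symm]
  have e1 : ∫ p in polarCoord.target, p.1 • (dbar φ (Complex.polarCoord.symm p) /
      Complex.polarCoord.symm p) = ∫ p in Ioi (0:ℝ) ×ˢ Ioo (-Real.pi) Real.pi,
        (1 / 2 : ℂ) * (G1 p + I * G2 p) := by
    refine setIntegral_congr_fun (measurableSet_Ioi.prod measurableSet_Ioo) fun p hp => ?_
    have hp1 : (0:ℝ) < p.1 := hp.1
    have e2 : Complex.polarCoord.symm p = p.1 * ga1E p.2 := by
      rw [Complex.polarCoord_symm_apply, ga1E]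
    have e3 := ga1_dbar_div (L := fderiv ℝ φ (p.1 * ga1E p.2)) p.2
    simp only [e2, dbar, hG1, hG2, real_smul]
    rw [← e3]
    have hp2 : (p.1 : ℂ) ≠ 0 := by exact_mod_cast hp1.ne'
    have hp3 := ga1_E_ne p.2
    field_simp
  rw [e1]
  have e4 : ∫ p in Ioi (0:ℝ) ×ˢ Ioo (-Real.pi) Real.pi, (1 / 2 : ℂ) * (G1 p + I * G2 p) =
      ∫ p in Ioc 0 T ×ˢ Ioo (-Real.pi) Real.pi, (1 / 2 : ℂ) * (G1 p + I * G2 p) := by
    refine setIntegral_eq_of_subset_of_forall_sdiff_eq_zero (measurableSet_Ioi.prod measurableSet_Ioo)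
      (prod_mono Ioc_subset_Ioi_self subset_rfl) ?_
    intro p hp
    have hp1 : (0:ℝ) < p.1 := hp.1.1
    have hp2 : T ≤ p.1 := by
      by_contra hcon
      exact hp.2 ⟨⟨hp1, (not_le.1 hcon).le⟩, hp.1.2⟩
    have e5 : fderiv ℝ φ (p.1 * ga1E p.2) = 0 := (hT _ (by
      rw [norm_mul, ga1_E_norm, Complex.norm_real, Real.norm_eq_abs, abs_of_pos hp1, mul_one]
      exact hp2)).2
    simp [hG1, hG2, e5]
  have e6 : ∫ p in Ioc 0 T ×ˢ Ioo (-Real.pi) Real.pi, G1 p = -(2 * Real.pi : ℂ) * φ 0 := by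
    rw [Measure.volume_eq_prod, ← Measure.prod_restrict, integral_prod_symm]
    · have : ∀ θ : ℝ, ∫ r in Ioc 0 T, G1 (r, θ) = -φ 0 := fun θ => ga1_radial hφ hT0 hT θ
      simp_rw [this]
      rw [setIntegral_const, real_smul, Measure.real, Real.volume_Ioo,
        ENNReal.toReal_ofReal (by linarith)]
      push_cast
      ring
    · rw [Measure.prod_restrict]
      exact hI G1 c1
  have e7 : ∫ p in Ioc 0 T ×ˢ Ioo (-Real.pi) Real.pi, G2 p = 0 := by
    rw [Measure.volume_eq_prod, setIntegral_prod _ (hI G2 c2)]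
    refine (setIntegral_congr_fun measurableSet_Ioc fun r hr => ?_).trans (integral_zero _ _)
    exact ga1_angular hφ hr.1
  rw [e4, integral_const_mul, integral_add (hI G1 c1) ((hI G2 c2).const_mul I), e6,
    integral_const_mul, e7]
  ring

end Aux

/-- `1/z` is integrable on balls: polar coordinates (`Complex.lintegral_comp_polarCoord_symm`),
`∫⁻_{|z| ≤ R} |z|⁻¹ = ∫⁻_{0<r≤R} r · r⁻¹ ≤ 2 π R`. -/
theorem inv_integrableOn (R : ℝ) : IntegrableOn (fun z : ℂ => z⁻¹) (Metric.closedBall 0 R) := by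
  refine ⟨measurable_inv.aestronglyMeasurable, ?_⟩
  rw [hasFiniteIntegral_iff_enorm, ← lintegral_indicator Metric.isClosed_closedBall.measurableSet,
    ← Complex.lintegral_comp_polarCoord_symm]
  set S : Set (ℝ × ℝ) := Ioc 0 R ×ˢ Ioo (-Real.pi) Real.pi with hS
  have hSm : MeasurableSet S := measurableSet_Ioc.prod measurableSet_Ioo
  have h1 : ∫⁻ p in polarCoord.target, ENNReal.ofReal p.1 •
      (Metric.closedBall (0 : ℂ) R).indicator (fun z : ℂ => ‖z⁻¹‖ₑ) (Complex.polarCoord.symm p) ≤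
      ∫⁻ p, S.indicator 1 p := by
    refine (setLIntegral_mono' polarCoord.open_target.measurableSet ?_).trans
      (setLIntegral_le_lintegral _ _)
    intro p hp
    have hp1 : 0 < p.1 := hp.1
    have hp2 : p.2 ∈ Ioo (-Real.pi) Real.pi := hp.2
    have hn : ‖Complex.polarCoord.symm p‖ = p.1 := by
      rw [Complex.norm_polarCoord_symm, abs_of_pos hp1]
    by_cases hmem : Complex.polarCoord.symm p ∈ Metric.closedBall (0 : ℂ) R
    · have hpR : p.1 ≤ R := by
        rw [mem_closedBall_zero_iff, hn] at hmem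
        exact hmem
      have hpS : p ∈ S := ⟨⟨hp1, hpR⟩, hp2⟩
      rw [indicator_of_mem hmem, indicator_of_mem hpS, Pi.one_apply, smul_eq_mul,
        ← ofReal_norm, norm_inv, hn, ← ENNReal.ofReal_mul hp1.le,
        mul_inv_cancel₀ hp1.ne', ENNReal.ofReal_one]
    · rw [indicator_of_notMem hmem, smul_zero]
      exact zero_le
  refine lt_of_le_of_lt h1 ?_
  rw [lintegral_indicator_one hSm, hS, Measure.volume_eq_prod, Measure.prod_prod, Real.volume_Ioc,
    Real.volume_Ioo]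
  exact ENNReal.mul_lt_top ENNReal.ofReal_lt_top ENNReal.ofReal_lt_top

/-- From `inv_integrableOn`. -/
theorem inv_locInt : LocallyIntegrable (fun z : ℂ => z⁻¹) volume := by
  intro x
  refine ⟨Metric.closedBall 0 (‖x‖ + 1), ?_, inv_integrableOn _⟩
  have h : Metric.ball x 1 ⊆ Metric.closedBall 0 (‖x‖ + 1) := by
    intro y hy
    rw [mem_closedBall_zero_iff]
    rw [Metric.mem_ball, dist_eq_norm] at hy
    have : ‖y‖ ≤ ‖y - x‖ + ‖x‖ := by
      have := norm_add_le (y - x) x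
      rwa [sub_add_cancel] at this
    linarith
  exact mem_of_superset (Metric.ball_mem_nhds x one_pos) h

/-- **Cauchy-Pompeiu** for compactly supported functions: `∫ (∂φ/∂ζ̄)(w + z) z⁻¹ dz = -π φ(w)`.
Proof. Polar coordinates `Complex.integral_comp_polarCoord_symm`, `z = r e^{iθ}`, `f(r,θ) = φ(w + r e^{iθ})`:
`dbar φ = (e^{iθ}/2)(∂_r f + (i/r) ∂_θ f)` (chain rule, `fderiv ℝ φ` applied to `e^{iθ}` and `i e^{iθ}`), so
`r · dbar φ(w+z) · z⁻¹ = (1/2)(∂_r f + (i/r) ∂_θ f)`. `∫_0^∞ ∂_r f dr = -φ(w)` for every `θ`, and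
`∫_{-π}^{π} ∂_θ f dθ = 0` for every `r > 0`. (Fubini: the function `(r,θ) ↦ r · dbar φ(w + z) z⁻¹` is bounded with
bounded support in `r`; each of `∂_r f` and `(1/r) ∂_θ f = fderiv φ (..) (i e^{iθ})` is bounded with bounded
support in `r`, so both are integrable on `(0,∞) × (-π,π)`.) -/
theorem pompeiu {φ : ℂ → ℂ} (hφ : ContDiff ℝ 1 φ) (hc : HasCompactSupport φ) (w : ℂ) :
    ∫ z, dbar φ (w + z) * z⁻¹ = -(Real.pi : ℂ) * φ w := by
  have h := ga1_zero (φ := fun z => φ (w + z)) (hφ.comp (contDiff_const.add contDiff_id))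
    (hc.comp_homeomorph (Homeomorph.addLeft w))
  rw [add_zero] at h
  rw [← h]
  refine integral_congr_ae (ae_of_all _ fun z => ?_)
  simp only [dbar]
  rw [fderiv_comp_add_left, div_eq_mul_inv _ z]

/-- The same in terms of the Cauchy transform. Substitution `z ↦ z - w` (`integral_add_right_eq_self`). -/
theorem CT_dbar {φ : ℂ → ℂ} (hφ : ContDiff ℝ 1 φ) (hc : HasCompactSupport φ) (w : ℂ) :
    CT (dbar φ) w = φ w := by
  have hpi : ((Real.pi : ℝ) : ℂ) ≠ 0 := by exact_mod_cast Real.pi_ne_zero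
  have h := pompeiu hφ hc w
  have h2 : ∫ z, dbar φ z / (w - z) = -∫ z, dbar φ (w + z) * z⁻¹ := by
    rw [← integral_add_left_eq_self (μ := volume) (fun z => dbar φ z / (w - z)) w, ← integral_neg]
    refine integral_congr_ae (ae_of_all _ fun z => ?_)
    show dbar φ (w + z) / (w - (w + z)) = -(dbar φ (w + z) * z⁻¹)
    rw [show w - (w + z) = -z by ring, div_neg, div_eq_mul_inv]
  rw [CT, h2, h]
  field_simp

end Pool.Agent.Lib.MP_79abb3_an.PD
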