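import Pool.Agent.Lib.MP_79abb3_an.PD.GA1

/-!
Theorem D, block G, part A2: the Cauchy transform.
-/

set_option autoImplicit false
set_option linter.unusedSectionVars false

open MeasureTheory Set Filter Topology Function
open scoped ENNReal ComplexConjugate

namespace Pool.Agent.Lib.MP_79abb3_an.PD

/-- The Cauchy transform as a convolution: `CT ψ w = (1/π) ∫ ψ(w - z) z⁻¹ dz`
(`integral_sub_left_eq_self`). -/
theorem CT_conv (ψ : ℂ → ℂ) (w : ℂ) : CT ψ w = ((Real.pi : ℝ) : ℂ)⁻¹ * ∫ z, ψ (w - z) * z⁻¹ := by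
  unfold CT
  congr 1
  rw [← integral_sub_left_eq_self (fun z => ψ z / (w - z)) volume w]
  refine integral_congr_ae (Eventually.of_forall fun z => ?_)
  simp only [sub_sub_cancel, div_eq_mul_inv]

private theorem CT_conv'_h6 (ψ : ℂ → ℂ) :
    CT ψ = fun w => ((Real.pi : ℝ) : ℂ)⁻¹ *
      (MeasureTheory.convolution (fun z : ℂ => z⁻¹) ψ (ContinuousLinearMap.mul ℝ ℂ) volume) w := by
  funext w
  rw [CT_conv]
  congr 1
  rw [MeasureTheory.convolution_def]
  refine integral_congr_ae (Eventually.of_forall fun z => ?_)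
  simp only [ContinuousLinearMap.mul_apply']
  ring

/-- `CT ψ` is smooth. Proof: `CT_conv` and `HasCompactSupport.contDiff_convolution_left` (or `_right`) with
`inv_locInt`. -/
theorem CT_smooth {ψ : ℂ → ℂ} (hψ : ContDiff ℝ ((⊤ : ℕ∞) : WithTop ℕ∞) ψ) (hc : HasCompactSupport ψ) :
    ContDiff ℝ ((⊤ : ℕ∞) : WithTop ℕ∞) (CT ψ) := by
  rw [CT_conv'_h6]
  exact contDiff_const.mul
    (hc.contDiff_convolution_right (ContinuousLinearMap.mul ℝ ℂ) inv_locInt hψ)

/-- Derivatives of `CT ψ`: `HasCompactSupport.hasFDerivAt_convolution_left`. -/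
theorem CT_fderiv {ψ : ℂ → ℂ} (hψ : ContDiff ℝ 1 ψ) (hc : HasCompactSupport ψ) (w v : ℂ) :
    fderiv ℝ (CT ψ) w v = CT (fun x => fderiv ℝ ψ x v) w := by
  have h1 := hc.hasFDerivAt_convolution_right (ContinuousLinearMap.mul ℝ ℂ) inv_locInt hψ w
  have h2 := h1.const_mul (((Real.pi : ℝ) : ℂ)⁻¹)
  rw [CT_conv'_h6 ψ, h2.fderiv, CT_conv'_h6]
  simp only [smul_apply, smul_eq_mul]
  rw [MeasureTheory.convolution_precompR_apply (ContinuousLinearMap.mul ℝ ℂ) inv_locInt
    (hc.fderiv ℝ) (hψ.continuous_fderiv one_ne_zero)]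

private theorem CT_int_h6 {ψ : ℂ → ℂ} (hψ : Continuous ψ) (hc : HasCompactSupport ψ) (w : ℂ) :
    Integrable (fun z => ψ (w - z) * z⁻¹) := by
  have h := hc.convolutionExists_right (ContinuousLinearMap.mul ℝ ℂ) inv_locInt hψ w
  refine h.congr (Eventually.of_forall fun z => ?_)
  simp only [ContinuousLinearMap.mul_apply']
  ring

/-- `∂(CT ψ)/∂ζ̄ = ψ`. Proof: `CT_fderiv`, linearity of `CT` (integrability of `ψ(w-z) z⁻¹` from `inv_locInt`)
and `CT_dbar`. -/
theorem dbar_CT {ψ : ℂ → ℂ} (hψ : ContDiff ℝ 1 ψ) (hc : HasCompactSupport ψ) (w : ℂ) :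
    dbar (CT ψ) w = ψ w := by
  rw [← CT_dbar hψ hc w]
  unfold dbar
  rw [CT_fderiv hψ hc, CT_fderiv hψ hc, CT_conv, CT_conv, CT_conv]
  have hcont : ∀ v : ℂ, Continuous fun x => fderiv ℝ ψ x v := fun v =>
    (hψ.continuous_fderiv one_ne_zero).clm_apply continuous_const
  have hcpt : ∀ v : ℂ, HasCompactSupport fun x => fderiv ℝ ψ x v := fun v =>
    (hc.fderiv ℝ).comp_left (g := fun L : ℂ →L[ℝ] ℂ => L v) rfl
  have i1 := CT_int_h6 (hcont 1) (hcpt 1) w
  have i2 := CT_int_h6 (hcont Complex.I) (hcpt Complex.I) w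
  have e : ∫ z, (fderiv ℝ ψ (w - z) 1 + Complex.I * fderiv ℝ ψ (w - z) Complex.I) / 2 * z⁻¹
      = ((∫ z, fderiv ℝ ψ (w - z) 1 * z⁻¹) +
        Complex.I * ∫ z, fderiv ℝ ψ (w - z) Complex.I * z⁻¹) / 2 := by
    rw [← integral_const_mul, ← integral_add i1 (i2.const_mul _), ← integral_div]
    refine integral_congr_ae (Eventually.of_forall fun z => ?_)
    simp only
    ring
  rw [e]
  ring

/-- `CT f` is holomorphic off the closed set `S`, if `f = 0` off `S`. Proof: differentiation under the integral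
sign (`hasDerivAt_integral_of_dominated_loc_of_deriv_le`): for `w₀ ∉ S` with `ball w₀ (2δ) ∩ S = ∅` and
`w ∈ ball w₀ δ`: `|d/dw (f z/(w-z))| = |f z|/|w-z|² ≤ δ⁻² |f z|`. -/
theorem CT_holo {f : ℂ → ℂ} (hf : Integrable f) {S : Set ℂ} (hS : IsClosed S) (h0 : ∀ z ∉ S, f z = 0) :
    DifferentiableOn ℂ (CT f) Sᶜ := by
  intro w₀ hw₀
  refine DifferentiableAt.differentiableWithinAt ?_
  obtain ⟨ε, hε, hball⟩ := Metric.isOpen_iff.1 hS.isOpen_compl w₀ hw₀
  have hδ : (0 : ℝ) < ε / 2 := by positivity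
  -- distance bound
  have hdist : ∀ w ∈ Metric.ball w₀ (ε / 2), ∀ z ∈ S, ε / 2 ≤ ‖w - z‖ := by
    intro w hw z hz
    by_contra hcon
    push Not at hcon
    have h1 : z ∈ Metric.ball w₀ ε := by
      rw [Metric.mem_ball, dist_eq_norm]
      rw [Metric.mem_ball, dist_eq_norm] at hw
      calc ‖z - w₀‖ = ‖(w - w₀) - (w - z)‖ := by congr 1; ring
        _ ≤ ‖w - w₀‖ + ‖w - z‖ := norm_sub_le _ _
        _ < ε / 2 + ε / 2 := add_lt_add hw hcon
        _ = ε := by ring
    exact hball h1 hz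
  have hmeas : ∀ w : ℂ, AEStronglyMeasurable (fun z => f z / (w - z)) volume := by
    intro w
    have : Measurable fun z : ℂ => (w - z)⁻¹ := (measurable_const.sub measurable_id).inv
    simp only [div_eq_mul_inv]
    exact hf.aestronglyMeasurable.mul this.aestronglyMeasurable
  have hbd : ∀ w ∈ Metric.ball w₀ (ε / 2), ∀ z, ‖f z / (w - z)‖ ≤ (ε / 2)⁻¹ * ‖f z‖ := by
    intro w hw z
    by_cases hz : z ∈ S
    · have h1 := hdist w hw z hz
      have h2 : ‖w - z‖⁻¹ ≤ (ε / 2)⁻¹ := inv_anti₀ hδ h1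
      rw [norm_div, div_eq_mul_inv, mul_comm]
      exact mul_le_mul_of_nonneg_right h2 (norm_nonneg _)
    · rw [h0 z hz]; simp
  have hint : Integrable (fun z => f z / (w₀ - z)) := by
    refine Integrable.mono' (hf.norm.const_mul (ε / 2)⁻¹) (hmeas w₀) (Eventually.of_forall fun z => ?_)
    exact hbd w₀ (Metric.mem_ball_self hδ) z
  have key := hasDerivAt_integral_of_dominated_loc_of_deriv_le
    (μ := (volume : Measure ℂ)) (F := fun w z => f z / (w - z))
    (F' := fun w z => - (f z / (w - z) ^ 2)) (x₀ := w₀) (s := Metric.ball w₀ (ε / 2))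
    (bound := fun z => ((ε / 2)⁻¹) ^ 2 * ‖f z‖)
    (Metric.ball_mem_nhds _ hδ)
    (Eventually.of_forall hmeas) hint ?_ ?_ (hf.norm.const_mul _) ?_
  · have h2 : HasDerivAt (CT f) (((Real.pi : ℝ) : ℂ)⁻¹ * ∫ z, - (f z / (w₀ - z) ^ 2)) w₀ :=
      key.2.const_mul _
    exact h2.differentiableAt
  · have : Measurable fun z : ℂ => ((w₀ - z) ^ 2)⁻¹ :=
      ((measurable_const.sub measurable_id).pow_const 2).inv
    simp only [div_eq_mul_inv]
    exact (hf.aestronglyMeasurable.mul this.aestronglyMeasurable).neg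
  · refine Eventually.of_forall fun z w hw => ?_
    by_cases hz : z ∈ S
    · have h1 := hdist w hw z hz
      have h2 : ‖w - z‖⁻¹ ≤ (ε / 2)⁻¹ := inv_anti₀ hδ h1
      rw [norm_neg, norm_div, norm_pow, div_eq_mul_inv, mul_comm, ← inv_pow]
      exact mul_le_mul_of_nonneg_right
        (pow_le_pow_left₀ (inv_nonneg.2 (norm_nonneg _)) h2 2) (norm_nonneg _)
    · rw [h0 z hz]; simp
  · refine Eventually.of_forall fun z w hw => ?_
    by_cases hz : z ∈ S
    · have h1 := hdist w hw z hz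
      have hne : w - z ≠ 0 := by
        intro h
        rw [h, norm_zero] at h1
        linarith
      have h3 : HasDerivAt (fun x : ℂ => x - z) 1 w := (hasDerivAt_id w).sub_const z
      have h4 := (hasDerivAt_const w (f z)).div h3 hne
      refine h4.congr_deriv ?_
      simp only [zero_mul, mul_one, zero_sub]
      ring
    · have e : (fun x : ℂ => f z / (x - z)) = fun _ => 0 := by
        funext x; rw [h0 z hz]; simp
      rw [h0 z hz]
      simp only [zero_div, neg_zero]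
      exact hasDerivAt_const _ _

end Pool.Agent.Lib.MP_79abb3_an.PD
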