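import Pool.Agent.Lib.MP_79abb3_an.PD.GA2

/-!
Theorem D, block G, part A3: the representation formula for weak solutions of `∂u/∂ζ̄ = f`.
-/

set_option autoImplicit false
set_option linter.unusedSectionVars false

open MeasureTheory Set Filter Topology Function
open scoped ENNReal ComplexConjugate

namespace Pool.Agent.Lib.MP_79abb3_an.PD

/-- Product rule. -/
theorem dbar_mul {φ ψ : ℂ → ℂ} {x : ℂ} (h1 : DifferentiableAt ℝ φ x) (h2 : DifferentiableAt ℝ ψ x) :
    dbar (fun x => φ x * ψ x) x = dbar φ x * ψ x + φ x * dbar ψ x := by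
  have h := (h1.hasFDerivAt.mul h2.hasFDerivAt).fderiv
  unfold dbar
  rw [show (fun x => φ x * ψ x) = φ * ψ from rfl, h]
  simp only [ContinuousLinearMap.add_apply, ContinuousLinearMap.smul_apply, smul_eq_mul]
  ring

private theorem GA3_ker (R : ℝ) :
    Integrable ((Metric.closedBall (0 : ℂ) R).indicator (fun z : ℂ => z⁻¹)) := by
  rw [integrable_indicator_iff Metric.isClosed_closedBall.measurableSet]
  exact inv_locInt.integrableOn_isCompact (isCompact_closedBall 0 R)

private theorem GA3_ball {f : ℂ → ℂ} (hf : HasCompactSupport f) :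
    ∃ R : ℝ, 0 ≤ R ∧ ∀ z, f z ≠ 0 → ‖z‖ ≤ R := by
  obtain ⟨R, hR⟩ := hf.isCompact.isBounded.subset_closedBall (0 : ℂ)
  refine ⟨max R 0, le_max_right _ _, fun z hz => ?_⟩
  have h1 := hR (subset_tsupport f (mem_support.mpr hz))
  rw [Metric.mem_closedBall, dist_zero_right] at h1
  exact h1.trans (le_max_left _ _)

private theorem GA3_prod {g : ℂ → ℂ} (hg : Integrable g) (R : ℝ) :
    Integrable (fun p : ℂ × ℂ => g p.2 *
      (Metric.closedBall (0 : ℂ) R).indicator (fun z : ℂ => z⁻¹) (p.1 - p.2))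
      ((volume : Measure ℂ).prod volume) :=
  hg.convolution_integrand (ContinuousLinearMap.mul ℝ ℂ) (GA3_ker R)

private theorem GA3_loc {g : ℂ → ℂ} (hg : Integrable g) (hc : HasCompactSupport g) :
    LocallyIntegrable (CT g) := by
  rw [locallyIntegrable_iff]
  intro K hK
  obtain ⟨R2, hR2, hgz⟩ := GA3_ball hc
  obtain ⟨R1, hR1⟩ := hK.isBounded.subset_closedBall (0 : ℂ)
  have h1 : Integrable (fun w : ℂ => ∫ z, g z *
      (Metric.closedBall (0 : ℂ) (R1 + R2)).indicator (fun z : ℂ => z⁻¹) (w - z)) :=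
    Integrable.integral_prod_left (E := ℂ) (f := fun p : ℂ × ℂ => g p.2 *
      (Metric.closedBall (0 : ℂ) (R1 + R2)).indicator (fun z : ℂ => z⁻¹) (p.1 - p.2))
      (GA3_prod hg (R1 + R2))
  have h2 := (h1.const_mul (((Real.pi : ℝ) : ℂ)⁻¹)).integrableOn (s := K)
  refine h2.congr_fun ?_ hK.measurableSet
  intro w hw
  have e : ∫ z, g z * (Metric.closedBall (0 : ℂ) (R1 + R2)).indicator (fun z : ℂ => z⁻¹) (w - z) =
      ∫ z, g z / (w - z) := by
    refine integral_congr_ae (Eventually.of_forall fun z => ?_)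
    simp only
    by_cases hz : g z = 0
    · rw [hz]; simp
    · rw [indicator_of_mem, div_eq_mul_inv]
      rw [Metric.mem_closedBall, dist_zero_right]
      have h3 := hR1 hw
      rw [Metric.mem_closedBall, dist_zero_right] at h3
      have h4 := hgz z hz
      exact (norm_sub_le _ _).trans (add_le_add h3 h4)
  show ((Real.pi : ℝ) : ℂ)⁻¹ * _ = ((Real.pi : ℝ) : ℂ)⁻¹ * _
  rw [e]

private theorem GA3_fub {g ψ : ℂ → ℂ} (hg : Integrable g) (hc : HasCompactSupport g)
    (hψ : Continuous ψ) (hψc : HasCompactSupport ψ) :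
    ∫ w, ψ w * CT g w = -∫ z, g z * CT ψ z := by
  obtain ⟨R2, hR2, hgz⟩ := GA3_ball hc
  obtain ⟨R1, hR1, hψz⟩ := GA3_ball hψc
  obtain ⟨M, hM⟩ := hψc.exists_bound_of_continuous hψ
  have h1 := (GA3_prod hg (R1 + R2)).bdd_mul (f := fun p : ℂ × ℂ => ψ p.1) (c := M)
    (hψ.comp continuous_fst).aestronglyMeasurable
    (Eventually.of_forall fun p => hM p.1)
  have h2 : (fun p : ℂ × ℂ => ψ p.1 * (g p.2 *
      (Metric.closedBall (0 : ℂ) (R1 + R2)).indicator (fun z : ℂ => z⁻¹) (p.1 - p.2))) =
      uncurry (fun w z : ℂ => ψ w * (g z / (w - z))) := by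
    funext p
    simp only [uncurry]
    by_cases hz : g p.2 = 0
    · rw [hz]; simp
    by_cases hw : ψ p.1 = 0
    · rw [hw]; simp
    rw [indicator_of_mem, div_eq_mul_inv]
    rw [Metric.mem_closedBall, dist_zero_right]
    exact (norm_sub_le _ _).trans (add_le_add (hψz _ hw) (hgz _ hz))
  rw [h2] at h1
  have h3 := integral_integral_swap h1
  have e1 : ∫ w, ψ w * CT g w =
      ((Real.pi : ℝ) : ℂ)⁻¹ * ∫ w, ∫ z, ψ w * (g z / (w - z)) := by
    rw [← integral_const_mul]
    refine integral_congr_ae (Eventually.of_forall fun w => ?_)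
    simp only
    rw [integral_const_mul]
    unfold CT
    ring
  have e2 : ∫ z, g z * CT ψ z =
      -(((Real.pi : ℝ) : ℂ)⁻¹ * ∫ z, ∫ w, ψ w * (g z / (w - z))) := by
    rw [← mul_neg, ← integral_neg, ← integral_const_mul]
    refine integral_congr_ae (Eventually.of_forall fun z => ?_)
    simp only
    unfold CT
    rw [← integral_neg]
    have e3 : ∀ w : ℂ, -(ψ w * (g z / (w - z))) = g z * (ψ w / (z - w)) := by
      intro w
      rw [← neg_sub z w, div_neg, mul_neg, neg_neg]
      ring
    simp only [e3]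
    rw [integral_const_mul]
    ring
  rw [e1, e2, h3, neg_neg]

private theorem GA3_dbar_cont {η : ℂ → ℂ} (h : ContDiff ℝ ((⊤ : ℕ∞) : WithTop ℕ∞) η) :
    Continuous (dbar η) := by
  have h1 : Continuous (fderiv ℝ η) := h.continuous_fderiv (by simp)
  unfold dbar
  exact ((h1.clm_apply continuous_const).add
    (continuous_const.mul (h1.clm_apply continuous_const))).div_const 2

private theorem GA3_dbar_zero {η : ℂ → ℂ} {x : ℂ} (h : x ∉ tsupport η) : dbar η x = 0 := by
  have h1 : fderiv ℝ η x = 0 := by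
    by_contra h2
    exact h (support_fderiv_subset ℝ (mem_support.mpr h2))
  unfold dbar
  rw [h1]
  simp

private theorem GA3_int {D : Set ℂ} {u m : ℂ → ℂ} (hu : LocallyIntegrableOn u D) {K : Set ℂ}
    (hK : IsCompact K) (hKD : K ⊆ D) (hm : Continuous m) (hm0 : ∀ x ∉ K, m x = 0) :
    Integrable (fun x => u x * m x) := by
  have h1 : IntegrableOn u K := hu.integrableOn_compact_subset hKD hK
  have h2 : IntegrableOn (fun x => u x * m x) K := h1.mul_continuousOn hm.continuousOn hK
  rw [integrableOn_iff_integrable_of_support_subset] at h2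
  · exact h2
  · intro x hx
    by_contra hxK
    apply hx
    simp only [hm0 x hxK, mul_zero]

/-- **Representation.** With `Φ = CT ψ` (`ψ` a test function of `B`): `η Φ` is a test function of `D`,
`dbar (η Φ) = (dbar η) Φ + η ψ` (`dbar_mul`, `dbar_CT`), so `∫ u (dbar η Φ + η ψ) = -∫ f η Φ`; since `η = 1` on
`B ⊇ supp ψ`: `∫ u ψ = -∫ (u dbar η + f η) Φ`, and by Fubini (`(z,w) ↦ g(z) ψ(w)/(z-w)` is integrable for
`g = u dbar η + f η` integrable with compact support, `ψ` bounded with compact support, `inv_locInt`)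
`= ∫ ψ(w) CT g (w) dw`. So `∫ (u - CT g) ψ = 0` for all test functions `ψ` of `B`
(`IsOpen.ae_eq_zero_of_integral_contDiff_smul_eq_zero`; `CT g` is locally integrable by the same Fubini argument). -/
theorem WD.repr {D : Set ℂ} {u f : ℂ → ℂ} (h : WD D u f) {η : ℂ → ℂ} (hη : IsTe D η) {B : Set ℂ}
    (hB : IsOpen B) (h1 : ∀ x ∈ B, η x = 1) :
    ∀ᵐ w ∂(volume.restrict B), u w = CT (fun z => u z * dbar η z + f z * η z) w := by
  have hK : IsCompact (tsupport η) := hη.cpt
  have hBD : B ⊆ D := by
    intro x hx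
    apply hη.supp
    apply subset_tsupport
    rw [mem_support, h1 x hx]
    exact one_ne_zero
  set g : ℂ → ℂ := fun z => u z * dbar η z + f z * η z with hgdef
  have hi1 : Integrable (fun z => u z * dbar η z) :=
    GA3_int h.iu hK hη.supp (GA3_dbar_cont hη.smooth) (fun x hx => GA3_dbar_zero hx)
  have hi2 : Integrable (fun z => f z * η z) :=
    GA3_int h.iF hK hη.supp hη.smooth.continuous (fun x hx => image_eq_zero_of_notMem_tsupport hx)
  have hg : Integrable g := hi1.add hi2
  have hgc : HasCompactSupport g := by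
    refine HasCompactSupport.intro hK fun x hx => ?_
    rw [hgdef]
    simp only
    rw [GA3_dbar_zero hx, image_eq_zero_of_notMem_tsupport hx]
    ring
  have hloc : LocallyIntegrableOn (fun w => u w - CT g w) B := by
    refine (h.iu.mono_set hBD).sub ?_
    exact ((GA3_loc hg hgc).locallyIntegrableOn B)
  have key := hB.ae_eq_zero_of_integral_contDiff_smul_eq_zero (μ := (volume : Measure ℂ)) hloc ?_
  · rw [ae_restrict_iff' hB.measurableSet]
    filter_upwards [key] with w hw hwB
    exact sub_eq_zero.mp (hw hwB)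
  intro θ hθ hθc hθB
  set ψ : ℂ → ℂ := fun x => (θ x : ℂ) with hψdef
  have hψ : ContDiff ℝ ((⊤ : ℕ∞) : WithTop ℕ∞) ψ := Complex.ofRealCLM.contDiff.comp hθ
  have hψc : HasCompactSupport ψ := hθc.comp_left (g := fun r : ℝ => (r : ℂ)) Complex.ofReal_zero
  have hψ0 : ∀ x ∉ B, ψ x = 0 := by
    intro x hx
    have : θ x = 0 := image_eq_zero_of_notMem_tsupport fun h2 => hx (hθB h2)
    rw [hψdef]
    simp only
    rw [this, Complex.ofReal_zero]
  have hΦ : ContDiff ℝ ((⊤ : ℕ∞) : WithTop ℕ∞) (CT ψ) := CT_smooth hψ hψc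
  have hψ1 : ContDiff ℝ 1 ψ := hψ.of_le (by exact_mod_cast le_top)
  -- the test function
  have hte : IsTe D (fun x => η x * CT ψ x) := by
    refine ⟨hη.smooth.mul hΦ, hη.cpt.mul_right, ?_⟩
    exact (tsupport_mul_subset_left).trans hη.supp
  have e1 := h.eq _ hte
  have hdη : Differentiable ℝ η := hη.smooth.differentiable (by simp)
  have hdΦ : Differentiable ℝ (CT ψ) := hΦ.differentiable (by simp)
  have e2 : ∀ x, u x * dbar (fun x => η x * CT ψ x) x =
      u x * dbar η x * CT ψ x + u x * ψ x := by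
    intro x
    rw [dbar_mul (hdη x) (hdΦ x), dbar_CT hψ1 hψc x]
    by_cases hx : x ∈ B
    · rw [h1 x hx]; ring
    · rw [hψ0 x hx]; ring
  have hcΦ : Continuous (CT ψ) := hΦ.continuous
  have hI1 : Integrable (fun x => u x * dbar η x * CT ψ x) := by
    have h2 := GA3_int h.iu hK hη.supp (m := fun x => dbar η x * CT ψ x)
      ((GA3_dbar_cont hη.smooth).mul hcΦ) (fun x hx => by
        rw [GA3_dbar_zero hx, zero_mul])
    refine h2.congr (Eventually.of_forall fun x => ?_)
    simp only
    ring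
  have hI2 : Integrable (fun x => u x * ψ x) := by
    refine GA3_int h.iu hψc.isCompact ?_ hψ.continuous
      (fun x hx => image_eq_zero_of_notMem_tsupport hx)
    intro x hx
    apply hBD
    apply hθB
    have hsub : tsupport ψ ⊆ tsupport θ := by
      apply closure_mono
      intro y hy
      rw [mem_support] at hy ⊢
      intro h0
      apply hy
      rw [hψdef]
      simp only
      rw [h0, Complex.ofReal_zero]
    exact hsub hx
  have hI3 : Integrable (fun x => f x * (η x * CT ψ x)) :=
    GA3_int h.iF hK hη.supp (m := fun x => η x * CT ψ x) (hη.smooth.continuous.mul hcΦ)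
      (fun x hx => by
        rw [image_eq_zero_of_notMem_tsupport hx, zero_mul])
  simp only [e2] at e1
  rw [integral_add hI1 hI2] at e1
  have e3 : ∫ x, g x * CT ψ x = (∫ x, u x * dbar η x * CT ψ x) + ∫ x, f x * (η x * CT ψ x) := by
    rw [← integral_add hI1 hI3]
    refine integral_congr_ae (Eventually.of_forall fun x => ?_)
    simp only [hgdef]
    ring
  have e4 := GA3_fub hg hgc hψ.continuous hψc
  have hI4 : Integrable (fun w => ψ w * CT g w) := by
    have h2 := GA3_int (D := univ) ((GA3_loc hg hgc).locallyIntegrableOn univ) hψc.isCompact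
      (subset_univ _) hψ.continuous (fun x hx => image_eq_zero_of_notMem_tsupport hx)
    refine h2.congr (Eventually.of_forall fun x => ?_)
    simp only
    ring
  have e5 : ∫ x, θ x • (u x - CT g x) = (∫ x, u x * ψ x) - ∫ x, ψ x * CT g x := by
    rw [← integral_sub hI2 hI4]
    refine integral_congr_ae (Eventually.of_forall fun x => ?_)
    simp only [hψdef, Complex.real_smul]
    ring
  rw [e5, e4]
  linear_combination e1 + e3

end Pool.Agent.Lib.MP_79abb3_an.PD
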