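import Pool.Agent.Lib.MP_79abb3_an.PD.GB1
import Pool.Agent.Lib.MP_79abb3_an.SC.L2Ga
import Pool.Agent.Lib.MP_79abb3_an.SC.L2Gb

/-!
Theorem D, block G, part B1b: integration by parts, the Poincaré inequality.
-/

set_option autoImplicit false
set_option linter.unusedSectionVars false

open MeasureTheory Set Filter Topology Function
open scoped ENNReal ComplexConjugate

namespace Pool.Agent.Lib.MP_79abb3_an.PD

/-- A product with a continuous function with compact support in `D`. -/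
private theorem gb1b_int {D : Set ℂ} (hD : IsOpen D) {f g : ℂ → ℂ} (hf : ContinuousOn f D)
    (hg : Continuous g) {K : Set ℂ} (hK : IsCompact K) (hKD : K ⊆ D) (h0 : ∀ x, x ∉ K → g x = 0) :
    Integrable (fun x => f x * g x) volume := by
  have hsub : tsupport (fun x => f x * g x) ⊆ K := by
    refine closure_minimal ?_ hK.isClosed
    intro x hx
    by_contra h
    exact hx (by simp [h0 x h])
  have hc : Continuous fun x => f x * g x := by
    refine ContinuousOn.continuous_of_tsupport_subset (s := D) ?_ hD (hsub.trans hKD)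
    exact hf.mul hg.continuousOn
  exact hc.integrable_of_hasCompactSupport (hK.of_isClosed_subset (isClosed_tsupport _) hsub)

/-- Green: `∫ φ ∂ψ/∂ζ̄ = -∫ (∂φ/∂ζ̄) ψ` if `ψ` has compact support in the open set `D` and `φ` is smooth on `D`.
(`integral_mul_fderiv_eq_neg_fderiv_mul_of_integrable`; replace `φ` by `η φ`, `η = 1` near the support of `ψ`.) -/
theorem green {D : Set ℂ} (hD : IsOpen D) {φ ψ : ℂ → ℂ} (hφ : ContDiffOn ℝ 1 φ D) (hψ : IsTe D ψ) :
    ∫ x, φ x * dbar ψ x = -∫ x, dbar φ x * ψ x := by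
  have hK : IsCompact (tsupport ψ) := hψ.cpt
  have hψ1 : ContDiff ℝ 1 ψ := hψ.smooth.of_le (by norm_cast)
  have hdψ : Continuous (fderiv ℝ ψ) := hψ1.continuous_fderiv (by simp)
  have hdφ : ContinuousOn (fderiv ℝ φ) D := hφ.continuousOn_fderiv_of_isOpen hD le_rfl
  have hd0 : ∀ v x, x ∉ tsupport ψ → fderiv ℝ ψ x v = 0 := by
    intro v x hx
    have h0 : fderiv ℝ ψ x = 0 :=
      image_eq_zero_of_notMem_tsupport fun h' => hx (tsupport_fderiv_subset ℝ h')
    rw [h0]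
    rfl
  have hi1 : ∀ v, Integrable (fun x => φ x * fderiv ℝ ψ x v) volume := fun v =>
    gb1b_int hD hφ.continuousOn (hdψ.clm_apply continuous_const) hK hψ.supp (hd0 v)
  have hi2 : ∀ v, Integrable (fun x => fderiv ℝ φ x v * ψ x) volume := fun v =>
    gb1b_int hD (hdφ.clm_apply continuousOn_const) hψ1.continuous hK hψ.supp
      fun x hx => image_eq_zero_of_notMem_tsupport hx
  have hi3 : Integrable (fun x => φ x * ψ x) volume :=
    gb1b_int hD hφ.continuousOn hψ1.continuous hK hψ.supp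
      fun x hx => image_eq_zero_of_notMem_tsupport hx
  have key : ∀ v, ∫ x, φ x * fderiv ℝ ψ x v = -∫ x, fderiv ℝ φ x v * ψ x := by
    intro v
    refine integral_mul_fderiv_eq_neg_fderiv_mul_of_integrable (hi2 v) (hi1 v) hi3 ?_ ?_
    · intro x hx
      exact ((hφ x (hψ.supp hx)).contDiffAt (hD.mem_nhds (hψ.supp hx))).differentiableAt (by simp)
    · intro x _
      exact hψ1.differentiable (by simp) x
  have e1 : ∀ x, φ x * dbar ψ x
      = (1 / 2 : ℂ) * (φ x * fderiv ℝ ψ x 1) + (Complex.I / 2) * (φ x * fderiv ℝ ψ x Complex.I) := by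
    intro x
    unfold dbar
    ring
  have e2 : ∀ x, dbar φ x * ψ x
      = (1 / 2 : ℂ) * (fderiv ℝ φ x 1 * ψ x) + (Complex.I / 2) * (fderiv ℝ φ x Complex.I * ψ x) := by
    intro x
    unfold dbar
    ring
  simp only [e1, e2]
  rw [integral_add ((hi1 1).const_mul _) ((hi1 Complex.I).const_mul _),
    integral_add ((hi2 1).const_mul _) ((hi2 Complex.I).const_mul _)]
  simp only [integral_const_mul]
  rw [key 1, key Complex.I]
  ring

private theorem gb1b_coord (g : ℂ → ℝ≥0∞) (hg : Measurable g) :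
    ∫⁻ ζ, g ζ = ∫⁻ y : ℝ, ∫⁻ x : ℝ, g (SC.cxp (x, y)) := by
  have h1 := SC.lintegral_cxp MeasurableSet.univ g
  rw [preimage_univ, Measure.restrict_univ, Measure.restrict_univ] at h1
  rw [← h1]
  have hm : Measurable fun q : ℝ × ℝ => g (SC.cxp q) :=
    hg.comp Complex.measurableEquivRealProd.symm.measurable
  exact lintegral_prod_symm' _ hm

private theorem gb1b_line (φ : ℂ → ℝ) (hφ : ContDiff ℝ 1 φ) (y : ℝ) (x : ℝ) :
    HasDerivAt (fun t : ℝ => φ (SC.cxp (t, y))) (fderiv ℝ φ (SC.cxp (x, y)) 1) x := by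
  have h1 : HasDerivAt (fun t : ℝ => SC.cxp (t, y)) 1 x := by
    have h2 : (fun t : ℝ => SC.cxp (t, y)) = fun t : ℝ => (t : ℂ) + y * Complex.I := by
      funext t
      apply Complex.ext <;> simp
    rw [h2]
    exact (Complex.ofRealCLM.hasDerivAt (x := x)).add_const _
  exact ((hφ.differentiable (by simp) _).hasFDerivAt).comp_hasDerivAt x h1

/-- **Poincaré inequality**: for `D` in the ball of radius `R`, `‖φ‖₂ ≤ C_R ‖gr φ‖₂`.
Proof: `φ(x) = ∫_{-R}^{Re x} ∂_1 φ(t + i Im x) dt`, `|φ|² ≤ 2R ∫ |∂_1 φ|² dt`, integrate over `Re x ∈ [-R,R]` and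
`Im x` (`SC.gb_one` in SC/L2Gb is the one dimensional inequality; `SC.lintegral_cxp` in SC/L2Ga passes to `ℝ × ℝ`). -/
theorem poinc0 (R : ℝ) : ∃ C : ℝ≥0∞, C ≠ ∞ ∧ ∀ φ : ℂ → ℝ, IsTe (Metric.ball 0 R) φ →
    eLpNorm φ 2 volume ≤ C * eLpNorm (gr φ) 2 volume := by
  set M : ℝ≥0∞ := ENNReal.ofReal (2 * R) with hM
  have hM1 : M ≠ ∞ := ENNReal.ofReal_ne_top
  refine ⟨M, hM1, fun φ hφ => ?_⟩
  have hφ1 : ContDiff ℝ 1 φ := hφ.smooth.of_le (by norm_cast)
  have hdφ : Continuous (fderiv ℝ φ) := hφ1.continuous_fderiv (by simp)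
  have hout : ∀ x y : ℝ, R ≤ |x| → φ (SC.cxp (x, y)) = 0 := by
    intro x y hx
    apply image_eq_zero_of_notMem_tsupport
    intro h
    have h1 := hφ.supp h
    rw [mem_ball_zero_iff] at h1
    have h2 : |x| ≤ ‖SC.cxp (x, y)‖ := Complex.abs_re_le_norm (SC.cxp (x, y))
    linarith
  have hgm : Measurable fun ζ : ℂ => ‖fderiv ℝ φ ζ‖ₑ ^ 2 := hdφ.enorm.measurable.pow_const 2
  have hpm : Measurable fun ζ : ℂ => ‖φ ζ‖ₑ ^ 2 := hφ1.continuous.enorm.measurable.pow_const 2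
  -- one line
  have hline : ∀ y : ℝ, ∫⁻ x : ℝ, ‖φ (SC.cxp (x, y))‖ₑ ^ 2
      ≤ M ^ 2 * ∫⁻ x : ℝ, ‖fderiv ℝ φ (SC.cxp (x, y))‖ₑ ^ 2 := by
    intro y
    have hcx : Continuous fun t : ℝ => SC.cxp (t, y) := by
      have h2 : (fun t : ℝ => SC.cxp (t, y)) = fun t : ℝ => (t : ℂ) + y * Complex.I := by
        funext t
        apply Complex.ext <;> simp
      rw [h2]
      fun_prop
    have hc : Continuous fun t : ℝ => fderiv ℝ φ (SC.cxp (t, y)) 1 :=
      (hdφ.comp hcx).clm_apply continuous_const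
    have hb : ∀ s : ℝ, ‖φ (SC.cxp (s, y))‖ₑ ^ 2
        ≤ (Icc (-R) R).indicator (fun _ => M * ∫⁻ x : ℝ, ‖fderiv ℝ φ (SC.cxp (x, y))‖ₑ ^ 2) s := by
      intro s
      by_cases hs : s ∈ Icc (-R) R
      · rw [indicator_of_mem hs]
        have hR : 0 ≤ R := by linarith [hs.1, hs.2]
        have ht : -R ∈ Icc (-R) R := ⟨le_rfl, by linarith⟩
        have h1 := SC.gb_one (f := fun t => φ (SC.cxp (t, y)))
          (fun x => gb1b_line φ hφ1 y x) hc hs ht
        have h2 : φ (SC.cxp (-R, y)) = 0 := hout _ _ (by rw [abs_neg]; exact le_abs_self R)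
        simp only [h2, sub_zero] at h1
        refine h1.trans (mul_le_mul_right ?_ _)
        refine (setLIntegral_le_lintegral _ _).trans ?_
        refine lintegral_mono fun x => ?_
        have h3 : ‖fderiv ℝ φ (SC.cxp (x, y)) 1‖ₑ ≤ ‖fderiv ℝ φ (SC.cxp (x, y))‖ₑ := by
          rw [enorm_le_iff_norm_le]
          have := (fderiv ℝ φ (SC.cxp (x, y))).le_opNorm 1
          simpa using this
        exact pow_le_pow_left' h3 2
      · rw [indicator_of_notMem hs]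
        have h1 : R ≤ |s| := by
          by_contra h
          rw [not_le, abs_lt] at h
          exact hs ⟨h.1.le, h.2.le⟩
        rw [hout s y h1]
        simp
    refine (lintegral_mono hb).trans ?_
    rw [lintegral_indicator measurableSet_Icc, lintegral_const, Measure.restrict_apply_univ,
      Real.volume_Icc]
    have h4 : R - -R = 2 * R := by ring
    rw [h4, ← hM]
    apply le_of_eq
    ring
  have hsq : ∫⁻ ζ, ‖φ ζ‖ₑ ^ 2 ≤ M ^ 2 * ∫⁻ ζ, ‖gr φ ζ‖ₑ ^ 2 := by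
    have h5 : ∀ ζ, ‖gr φ ζ‖ₑ ^ 2 = ‖fderiv ℝ φ ζ‖ₑ ^ 2 := by
      intro ζ
      have h6 : ‖gr φ ζ‖ₑ = ‖fderiv ℝ φ ζ‖ₑ := by
        rw [← ofReal_norm_eq_enorm, ← ofReal_norm_eq_enorm, gr_norm]
      rw [h6]
    simp only [h5]
    rw [gb1b_coord _ hpm, gb1b_coord _ hgm]
    rw [← lintegral_const_mul' _ _ (ENNReal.pow_ne_top hM1)]
    exact lintegral_mono hline
  rw [eLpNorm_eq_lintegral_rpow_enorm_toReal (by norm_num) (by norm_num),
    eLpNorm_eq_lintegral_rpow_enorm_toReal (by norm_num) (by norm_num)]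
  have h2r : (2 : ℝ≥0∞).toReal = ((2 : ℕ) : ℝ) := by norm_num
  simp only [h2r, ENNReal.rpow_natCast]
  calc (∫⁻ x, ‖φ x‖ₑ ^ 2) ^ (1 / ((2 : ℕ) : ℝ))
      ≤ (M ^ 2 * ∫⁻ ζ, ‖gr φ ζ‖ₑ ^ 2) ^ (1 / ((2 : ℕ) : ℝ)) :=
        ENNReal.rpow_le_rpow hsq (by positivity)
    _ = M * (∫⁻ ζ, ‖gr φ ζ‖ₑ ^ 2) ^ (1 / ((2 : ℕ) : ℝ)) := by
        rw [ENNReal.mul_rpow_of_nonneg _ _ (by positivity), ← ENNReal.rpow_natCast M 2,
          ← ENNReal.rpow_mul]
        norm_num

end Pool.Agent.Lib.MP_79abb3_an.PD
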