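import Pool.Agent.Lib.MP_79abb3_an.PD.GD1
import Pool.Agent.Lib.MP_79abb3_an.PD.GB1

/-!
Theorem D, block G, part D2: the weak equations of the reflected function.
-/

set_option autoImplicit false
set_option linter.unusedSectionVars false

open MeasureTheory Set Filter Topology Function
open scoped ENNReal ComplexConjugate

namespace Pool.Agent.Lib.MP_79abb3_an.PD

open Pool.Agent.Lib.MP_79abb3_an.SC

private theorem gd2_key (u : ℂ → ℝ) (x z : ℂ) : fderiv ℝ u x z = (z * gr u x).re := by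
  have h1 : z = z.re • (1 : ℂ) + z.im • Complex.I := by
    apply Complex.ext <;> simp
  conv_lhs => rw [h1]
  rw [map_add, map_smul, map_smul]
  unfold gr
  rw [Complex.mul_re]
  simp only [smul_eq_mul]
  ring

private theorem gd2_gr {w : ℂ → ℝ} {L : ℂ →L[ℝ] ℝ} {G ξ : ℂ} (hw : HasFDerivAt w L ξ)
    (h : ∀ v, L v = (v * G).re) : gr w ξ = G := by
  unfold gr
  rw [hw.fderiv, h, h]
  apply Complex.ext <;> simp

private theorem gd2_in {D : Set ℂ} (hD : IsOpen D) {ρ : ℝ} {F : ℂ → ℂ}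
    (h : IsCollar D ρ F) {u : ℂ → ℝ} (hu : ContDiffOn ℝ ((⊤ : ℕ∞) : WithTop ℕ∞) u D) {ξ : ℂ}
    (hξ : ρ < ‖ξ‖) (hξ1 : ‖ξ‖ < 1) :
    ContDiffAt ℝ ((⊤ : ℕ∞) : WithTop ℕ∞) (rfl0 F u) ξ ∧ gr (rfl0 F u) ξ = rfl1 F (gr u) ξ := by
  have hF : F ξ ∈ D := h.sub ⟨ξ, ⟨hξ, hξ1⟩, rfl⟩
  have hev : rfl0 F u =ᶠ[𝓝 ξ] fun η => u (F η) := by
    have h2 : ∀ᶠ η in 𝓝 ξ, ‖η‖ < 1 := continuous_norm.continuousAt.eventually_lt_const hξ1
    filter_upwards [h2] with η hη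
    rw [rfl0, if_pos hη]
  have hud : ContDiffAt ℝ ((⊤ : ℕ∞) : WithTop ℕ∞) u (F ξ) := hu.contDiffAt (hD.mem_nhds hF)
  have hFd := h.smooth.contDiffAt (x := ξ)
  have hc : ContDiffAt ℝ ((⊤ : ℕ∞) : WithTop ℕ∞) (fun η => u (F η)) ξ := hud.comp ξ hFd
  refine ⟨hc.congr_of_eventuallyEq hev, ?_⟩
  rw [gr_congr hev, rfl1, if_pos hξ1]
  have hne : ((⊤ : ℕ∞) : WithTop ℕ∞) ≠ 0 := by simp
  have hd : HasFDerivAt (fun η => u (F η)) ((fderiv ℝ u (F ξ)).comp (fderiv ℝ F ξ)) ξ :=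
    (hud.differentiableAt hne).hasFDerivAt.comp ξ (hFd.differentiableAt hne).hasFDerivAt
  refine gd2_gr hd fun v => ?_
  rw [ContinuousLinearMap.comp_apply, h.fderiv_eq ⟨hξ, hξ1.le⟩ v, gd2_key]
  congr 1
  ring

private theorem gd2_out {D : Set ℂ} (hD : IsOpen D) {ρ : ℝ} (h0 : 0 < ρ) {F : ℂ → ℂ}
    (h : IsCollar D ρ F) {u : ℂ → ℝ} (hu : ContDiffOn ℝ ((⊤ : ℕ∞) : WithTop ℕ∞) u D) {ξ : ℂ}
    (hξ : 1 < ‖ξ‖) (hξ1 : ‖ξ‖ < ρ⁻¹) :
    ContDiffAt ℝ ((⊤ : ℕ∞) : WithTop ℕ∞) (rfl0 F u) ξ ∧ gr (rfl0 F u) ξ = rfl1 F (gr u) ξ := by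
  have hξ0 : ξ ≠ 0 := by
    rintro rfl
    rw [norm_zero] at hξ
    linarith
  have hn1 : ‖cinv ξ‖ < 1 := by
    rw [norm_cinv]
    exact inv_lt_one_of_one_lt₀ hξ
  have hn2 : ρ < ‖cinv ξ‖ := by
    rw [norm_cinv]
    exact (lt_inv_comm₀ h0 (by linarith)).2 hξ1
  have hF : F (cinv ξ) ∈ D := h.sub ⟨cinv ξ, ⟨hn2, hn1⟩, rfl⟩
  have hev : rfl0 F u =ᶠ[𝓝 ξ] fun η => -u (F (cinv η)) := by
    have h2 : ∀ᶠ η in 𝓝 ξ, 1 < ‖η‖ := continuous_norm.continuousAt.eventually_const_lt hξ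
    filter_upwards [h2] with η hη
    rw [rfl0, if_neg (not_lt.2 hη.le)]
  have hud : ContDiffAt ℝ ((⊤ : ℕ∞) : WithTop ℕ∞) u (F (cinv ξ)) :=
    hu.contDiffAt (hD.mem_nhds hF)
  have hFd := h.smooth.contDiffAt (x := cinv ξ)
  have hcd := cinv_contDiffAt hξ0
  have hc : ContDiffAt ℝ ((⊤ : ℕ∞) : WithTop ℕ∞) (fun η => -u (F (cinv η))) ξ :=
    (ContDiffAt.comp ξ (g := u) (f := fun η => F (cinv η)) hud
      (ContDiffAt.comp ξ (g := F) (f := cinv) hFd hcd)).neg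
  refine ⟨hc.congr_of_eventuallyEq hev, ?_⟩
  rw [gr_congr hev, rfl1, if_neg (not_lt.2 hξ.le)]
  have hne : ((⊤ : ℕ∞) : WithTop ℕ∞) ≠ 0 := by simp
  have hd1 : HasFDerivAt (fun η => F (cinv η)) ((fderiv ℝ F (cinv ξ)).comp (cinvD ξ)) ξ :=
    HasFDerivAt.comp ξ (hFd.differentiableAt hne).hasFDerivAt (cinv_hasFDerivAt hξ0)
  have hd : HasFDerivAt (fun η => -u (F (cinv η)))
      (-((fderiv ℝ u (F (cinv ξ))).comp ((fderiv ℝ F (cinv ξ)).comp (cinvD ξ)))) ξ :=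
    (HasFDerivAt.comp ξ (g := u) (f := fun η => F (cinv η))
      (hud.differentiableAt hne).hasFDerivAt hd1).neg
  refine gd2_gr hd fun v => ?_
  have hD' : cinvD ξ v = -((conj ξ) ^ 2)⁻¹ * conj v := rfl
  rw [ContinuousLinearMap.neg_apply, ContinuousLinearMap.comp_apply,
    ContinuousLinearMap.comp_apply, h.fderiv_eq ⟨hn2, hn1.le⟩ (cinvD ξ v), gd2_key, hD']
  have hre : ∀ z : ℂ, z.re = (conj z).re := fun z => (Complex.conj_re z).symm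
  rw [hre (v * _), ← Complex.neg_re]
  congr 1
  rw [map_mul, map_div₀, Complex.conj_conj, map_pow, div_eq_mul_inv]
  ring

/-- Test functions of `D`: the odd reflection of `φ ∘ F` is smooth on the doubled ring (it vanishes near the circle by
`IsCollar.avoid` for `T = tsupport φ`), with gradient `rfl1 F (gr φ)`. Chain rule: for `|ξ| < 1`
`gr (φ ∘ F) = (gr φ ∘ F) F'`; for `|ξ| > 1` the derivative of `-(φ ∘ F) ∘ cinv` (`SC.cinv_hasFDerivAt`). -/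
theorem rfl_test {D : Set ℂ} (hD : IsOpen D) {ρ : ℝ} (h0 : 0 < ρ) (h1 : ρ < 1) {F : ℂ → ℂ}
    (h : IsCollar D ρ F) {φ : ℂ → ℝ} (hφ : IsTe D φ) :
    ContDiffOn ℝ ((⊤ : ℕ∞) : WithTop ℕ∞) (rfl0 F φ) (dring ρ) ∧
      ∀ ξ ∈ dring ρ, gr (rfl0 F φ) ξ = rfl1 F (gr φ) ξ := by
  obtain ⟨r, hρr, hr1, hr⟩ := h.avoid hD h0 h1 hφ.cpt.isCompact hφ.supp
  have hr0 : 0 < r := h0.trans hρr
  have main : ∀ ξ ∈ dring ρ, ContDiffAt ℝ ((⊤ : ℕ∞) : WithTop ℕ∞) (rfl0 F φ) ξ ∧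
      gr (rfl0 F φ) ξ = rfl1 F (gr φ) ξ := by
    rintro ξ ⟨hξ1, hξ2⟩
    rcases lt_trichotomy ‖ξ‖ 1 with hlt | heq | hgt
    · exact gd2_in hD h hφ.smooth.contDiffOn hξ1 hlt
    · -- near the circle the reflected function vanishes
      have hev : rfl0 F φ =ᶠ[𝓝 ξ] fun _ => (0 : ℝ) := by
        have e1 : ∀ᶠ η in 𝓝 ξ, r < ‖η‖ :=
          continuous_norm.continuousAt.eventually_const_lt (by show r < ‖ξ‖; rw [heq]; exact hr1)
        have e2 : ∀ᶠ η in 𝓝 ξ, ‖η‖ < r⁻¹ :=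
          continuous_norm.continuousAt.eventually_lt_const
            (by show ‖ξ‖ < r⁻¹; rw [heq]; exact (one_lt_inv₀ hr0).2 hr1)
        filter_upwards [e1, e2] with η hη1 hη2
        by_cases hη : ‖η‖ < 1
        · rw [rfl0, if_pos hη]
          exact image_eq_zero_of_notMem_tsupport (hr η hη1.le hη.le)
        · rw [rfl0, if_neg hη]
          have hpos : 0 < ‖η‖ := hr0.trans hη1
          have h3 : r ≤ ‖cinv η‖ := by
            rw [norm_cinv]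
            exact ((lt_inv_comm₀ hr0 hpos).2 hη2).le
          have h4 : ‖cinv η‖ ≤ 1 := by
            rw [norm_cinv]
            exact inv_le_one_of_one_le₀ (not_lt.1 hη)
          rw [image_eq_zero_of_notMem_tsupport (hr (cinv η) h3 h4), neg_zero]
      refine ⟨contDiffAt_const.congr_of_eventuallyEq hev, ?_⟩
      have h5 : gr (fun _ : ℂ => (0 : ℝ)) ξ = 0 := by
        unfold gr
        rw [fderiv_fun_const]
        apply Complex.ext <;> simp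
      have h6 : gr φ (F (cinv ξ)) = 0 := by
        have h7 : F (cinv ξ) ∉ tsupport φ := by
          apply hr
          · rw [norm_cinv, heq, inv_one]
            exact hr1.le
          · rw [norm_cinv, heq, inv_one]
        have h8 : fderiv ℝ φ (F (cinv ξ)) = 0 :=
          image_eq_zero_of_notMem_tsupport fun h' => h7 (tsupport_fderiv_subset ℝ h')
        unfold gr
        rw [h8]
        apply Complex.ext <;> simp
      rw [gr_congr hev, h5, rfl1, if_neg (by rw [heq]; exact lt_irrefl 1), h6]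
      simp
    · exact gd2_out hD h0 h hφ.smooth.contDiffOn hgt hξ2
  exact ⟨fun ξ hξ => (main ξ hξ).1.contDiffWithinAt, fun ξ hξ => (main ξ hξ).2⟩

/-- The same chain rule for a function smooth on `D`, off the circle. -/
theorem rfl_smooth {D : Set ℂ} (hD : IsOpen D) {ρ : ℝ} (h0 : 0 < ρ) (h1 : ρ < 1) {F : ℂ → ℂ}
    (h : IsCollar D ρ F) {u : ℂ → ℝ} (hu : ContDiffOn ℝ ((⊤ : ℕ∞) : WithTop ℕ∞) u D) :
    ContDiffOn ℝ ((⊤ : ℕ∞) : WithTop ℕ∞) (rfl0 F u) (dring ρ \ Metric.sphere 0 1) ∧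
      ∀ ξ ∈ dring ρ \ Metric.sphere 0 1, gr (rfl0 F u) ξ = rfl1 F (gr u) ξ := by
  have main : ∀ ξ ∈ dring ρ \ Metric.sphere 0 1,
      ContDiffAt ℝ ((⊤ : ℕ∞) : WithTop ℕ∞) (rfl0 F u) ξ ∧
      gr (rfl0 F u) ξ = rfl1 F (gr u) ξ := by
    rintro ξ ⟨⟨hξ1, hξ2⟩, hξ3⟩
    rw [mem_sphere_zero_iff_norm] at hξ3
    rcases lt_or_gt_of_ne hξ3 with hlt | hgt
    · exact gd2_in hD h hu hξ1 hlt
    · exact gd2_out hD h0 h hu hgt hξ2
  exact ⟨fun ξ hξ => (main ξ hξ).1.contDiffWithinAt, fun ξ hξ => (main ξ hξ).2⟩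

end Pool.Agent.Lib.MP_79abb3_an.PD
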