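import Pool.Agent.Lib.MP_79abb3_an.PD.GDef2
import Pool.Agent.Lib.MP_79abb3_an.PD.GB1b

/-!
Theorem D, block G, part D2c: the pairing in the half ring.
-/

set_option autoImplicit false
set_option linter.unusedSectionVars false

open MeasureTheory Set Filter Topology Function
open scoped ENNReal ComplexConjugate

namespace Pool.Agent.Lib.MP_79abb3_an.PD

open Pool.Agent.Lib.MP_79abb3_an.SC

/-! ### the cut-off -/

private noncomputable def hpS (t : ℝ) : ℝ := Real.smoothTransition (t - 1)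

private theorem hpS_contDiff : ContDiff ℝ ((⊤ : ℕ∞) : WithTop ℕ∞) hpS :=
  Real.smoothTransition.contDiff.comp (contDiff_id.sub contDiff_const)

private theorem hpS_zero {t : ℝ} (h : t ≤ 1) : hpS t = 0 :=
  Real.smoothTransition.zero_of_nonpos (by linarith)

private theorem hpS_one {t : ℝ} (h : 2 ≤ t) : hpS t = 1 :=
  Real.smoothTransition.one_of_one_le (by linarith)

private theorem hpS_nonneg (t : ℝ) : 0 ≤ hpS t := Real.smoothTransition.nonneg _

private theorem hpS_le_one (t : ℝ) : hpS t ≤ 1 := Real.smoothTransition.le_one _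

private theorem hpS_diff (t : ℝ) : DifferentiableAt ℝ hpS t :=
  (hpS_contDiff.differentiable (by simp)) t

private theorem hpS_bound : ∃ M : ℝ, 0 ≤ M ∧ ∀ t : ℝ, |t * deriv hpS t| ≤ M := by
  have hc : Continuous fun t : ℝ => t * deriv hpS t :=
    continuous_id.mul (hpS_contDiff.continuous_deriv (by simp))
  obtain ⟨M, hM⟩ := (isCompact_Icc (a := (1 : ℝ)) (b := 2)).exists_bound_of_continuousOn hc.continuousOn
  refine ⟨max M 0, le_max_right _ _, fun t => ?_⟩
  by_cases h1 : t < 1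
  · have h2 : hpS =ᶠ[𝓝 t] fun _ => (0 : ℝ) := by
      filter_upwards [Iio_mem_nhds h1] with s hs
      exact hpS_zero (le_of_lt hs)
    rw [h2.deriv_eq, deriv_const, mul_zero, abs_zero]
    exact le_max_right _ _
  · by_cases h3 : 2 < t
    · have h2 : hpS =ᶠ[𝓝 t] fun _ => (1 : ℝ) := by
        filter_upwards [Ioi_mem_nhds h3] with s hs
        exact hpS_one (le_of_lt hs)
      rw [h2.deriv_eq, deriv_const, mul_zero, abs_zero]
      exact le_max_right _ _
    · have h4 := hM t ⟨not_lt.1 h1, not_lt.1 h3⟩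
      rw [Real.norm_eq_abs] at h4
      exact h4.trans (le_max_left _ _)

private noncomputable def hpE (ε : ℝ) (ξ : ℂ) : ℝ := hpS ((1 - ‖ξ‖ ^ 2) / ε)

private theorem hpE_contDiff (ε : ℝ) : ContDiff ℝ ((⊤ : ℕ∞) : WithTop ℕ∞) (hpE ε) :=
  hpS_contDiff.comp ((contDiff_const.sub (contDiff_norm_sq ℝ)).div_const ε)

private noncomputable def hpD (ξ : ℂ) : ℂ →L[ℝ] ℝ := (2 : ℕ) • (innerSL ℝ ξ)

private theorem hpE_fderiv (ε : ℝ) (ξ : ℂ) :
    HasFDerivAt (hpE ε) ((deriv hpS ((1 - ‖ξ‖ ^ 2) / ε)) • (ε⁻¹ • (-hpD ξ))) ξ := by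
  have h1 : HasFDerivAt (fun ξ : ℂ => ‖ξ‖ ^ 2) (hpD ξ) ξ :=
    (hasStrictFDerivAt_norm_sq ξ).hasFDerivAt
  have h2 : HasFDerivAt (fun ξ : ℂ => (1 - ‖ξ‖ ^ 2) / ε) (ε⁻¹ • (-hpD ξ)) ξ := by
    have := (h1.const_sub 1).const_smul ε⁻¹
    refine this.congr_of_eventuallyEq (Eventually.of_forall fun y => ?_)
    simp only [Pi.smul_apply, smul_eq_mul]
    rw [div_eq_inv_mul]
  exact (hpS_diff _).hasDerivAt.comp_hasFDerivAt ξ h2

private theorem hpE_norm (ε : ℝ) (hε : 0 < ε) (ξ : ℂ) (hξ : ‖ξ‖ ≤ 1) :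
    ‖fderiv ℝ (hpE ε) ξ‖ ≤ |deriv hpS ((1 - ‖ξ‖ ^ 2) / ε)| * (ε⁻¹ * 2) := by
  rw [(hpE_fderiv ε ξ).fderiv, norm_smul, norm_smul, norm_neg, Real.norm_eq_abs, Real.norm_eq_abs,
    abs_of_pos (inv_pos.2 hε)]
  have h1 : ‖hpD ξ‖ ≤ 2 := by
    refine (norm_nsmul_le).trans ?_
    rw [innerSL_apply_norm]
    push_cast
    linarith
  gcongr

/-- The holomorphic pairing in the half ring: if `g` is holomorphic and square integrable on the ring, `θ` is smooth,
real, with compact support in the doubled ring and `θ = 0` on the circle, then `∫_{ring} Re (conj g · gr θ) = 0`.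
Proof: cut off: `η_ε(ξ) = s((1 - |ξ|)/ε)`, `θ η_ε` is a test function of the ring, `∫ g dbar (θ η_ε) = 0` (`green`),
and `|θ| ≤ C (1 - |ξ|)`, `|gr η_ε| ≤ C/ε` on `ε ≤ 1 - |ξ| ≤ 2ε`, so the error is
`≤ C ∫_{1 - 2ε < |ξ| < 1} |g| → 0`. (`g` is square integrable on the support of `θ` only.) -/
theorem half_pair {ρ : ℝ} (h0 : 0 < ρ) (h1 : ρ < 1) {g : ℂ → ℂ} (hg : DifferentiableOn ℂ g (ring ρ))
    (h2 : ∀ K : Set ℂ, IsCompact K → K ⊆ dring ρ → ∫⁻ ξ in K ∩ ring ρ, ‖g ξ‖ₑ ^ 2 < ∞)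
    {θ : ℂ → ℝ} (hθ : IsTe (dring ρ) θ) (hz : ∀ ξ, ‖ξ‖ = 1 → θ ξ = 0) :
    ∫ ξ in ring ρ, (conj (g ξ) * gr θ ξ).re = 0 := by
  have hRo : IsOpen (ring ρ) := (isOpen_lt continuous_const continuous_norm).inter
    (isOpen_lt continuous_norm continuous_const)
  have hRm : MeasurableSet (ring ρ) := hRo.measurableSet
  have hθd : Differentiable ℝ θ := hθ.smooth.differentiable (by simp)
  -- the gradient of `θ` is bounded
  obtain ⟨L, hL0, hL⟩ : ∃ L : ℝ, 0 ≤ L ∧ ∀ ξ, ‖fderiv ℝ θ ξ‖ ≤ L := by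
    have hc : Continuous (fderiv ℝ θ) := hθ.smooth.continuous_fderiv (by simp)
    obtain ⟨L, hL⟩ := hc.bounded_above_of_compact_support (hθ.cpt.fderiv ℝ)
    exact ⟨max L 0, le_max_right _ _, fun ξ => (hL ξ).trans (le_max_left _ _)⟩
  obtain ⟨M, hM0, hM⟩ := hpS_bound
  -- `θ` near the circle
  have hθb : ∀ ξ ∈ ring ρ, |θ ξ| ≤ L * (1 - ‖ξ‖ ^ 2) := by
    intro ξ hξ
    have hn : 0 < ‖ξ‖ := h0.trans hξ.1
    set y : ℂ := ((‖ξ‖⁻¹ : ℝ) : ℂ) * ξ with hy
    have hy1 : ‖y‖ = 1 := by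
      rw [hy, norm_mul, Complex.norm_real, norm_inv, norm_norm, inv_mul_cancel₀ hn.ne']
    have h3 : ‖θ ξ - θ y‖ ≤ L * ‖ξ - y‖ :=
      Convex.norm_image_sub_le_of_norm_fderiv_le (𝕜 := ℝ) (fun x _ => hθd x) (fun x _ => hL x)
        convex_univ (mem_univ y) (mem_univ ξ)
    rw [hz y hy1, sub_zero, Real.norm_eq_abs] at h3
    have h4 : ‖ξ - y‖ = 1 - ‖ξ‖ := by
      have h5 : ξ - y = ((1 - ‖ξ‖⁻¹ : ℝ) : ℂ) * ξ := by
        rw [hy]; push_cast; ring
      have h6 : 1 ≤ ‖ξ‖⁻¹ := (one_le_inv₀ hn).2 hξ.2.le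
      rw [h5, norm_mul, Complex.norm_real, Real.norm_eq_abs, abs_of_nonpos (by linarith)]
      field_simp
      ring
    rw [h4] at h3
    refine h3.trans ?_
    have := hξ.2
    gcongr
    nlinarith
  set K := tsupport θ with hK
  have hKc : IsCompact K := hθ.cpt.isCompact
  -- the truncated functions
  set q : ℝ → ℂ → ℝ := fun ε ξ => θ ξ * hpE ε ξ with hq
  have hqs : ∀ ε, ContDiff ℝ ((⊤ : ℕ∞) : WithTop ℕ∞) (q ε) := fun ε => hθ.smooth.mul (hpE_contDiff ε)
  -- on the ring: a test function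
  have hsplit : ∀ ε, 0 < ε → IsTe (ring ρ) (fun ξ => (((open Classical in
      if ‖ξ‖ < 1 then q ε ξ else 0 : ℝ)) : ℂ)) := by
    intro ε hε
    classical
    set A : Set ℂ := K ∩ {ξ | ‖ξ‖ ^ 2 ≤ 1 - ε} with hA
    have hAc : IsCompact A := hKc.inter_right
      (isClosed_le (continuous_norm.pow 2) continuous_const)
    have hA1 : A ⊆ ring ρ := by
      intro ξ hξ
      refine ⟨(hθ.supp hξ.1).1, ?_⟩
      have h3 : ‖ξ‖ ^ 2 ≤ 1 - ε := hξ.2
      nlinarith [norm_nonneg ξ]
    have hzero : ∀ ξ, ξ ∉ A → (if ‖ξ‖ < 1 then q ε ξ else 0) = 0 := by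
      intro ξ hξ
      split_ifs with h3
      · by_cases h4 : ξ ∈ K
        · have h5 : ¬ ‖ξ‖ ^ 2 ≤ 1 - ε := fun h => hξ ⟨h4, h⟩
          rw [hq]
          simp only
          rw [hpE, hpS_zero, mul_zero]
          rw [div_le_one hε]
          linarith
        · rw [hq]
          simp only
          rw [image_eq_zero_of_notMem_tsupport h4, zero_mul]
      · rfl
    have hsm : ContDiff ℝ ((⊤ : ℕ∞) : WithTop ℕ∞) (fun ξ : ℂ => if ‖ξ‖ < 1 then q ε ξ else 0) := by
      rw [contDiff_iff_contDiffAt]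
      intro ξ
      by_cases h3 : ‖ξ‖ < 1
      · refine (hqs ε).contDiffAt.congr_of_eventuallyEq ?_
        filter_upwards [(isOpen_lt continuous_norm continuous_const).mem_nhds h3] with y hy
        exact if_pos hy
      · have h4 : ξ ∉ A := fun h => h3 (hA1 h).2
        refine (contDiffAt_const (c := (0 : ℝ))).congr_of_eventuallyEq ?_
        filter_upwards [hAc.isClosed.isOpen_compl.mem_nhds h4] with y hy
        exact hzero y hy
    have hts : tsupport (fun ξ : ℂ => (((if ‖ξ‖ < 1 then q ε ξ else 0 : ℝ)) : ℂ)) ⊆ A := by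
      refine closure_minimal ?_ hAc.isClosed
      intro x hx
      by_contra h
      exact hx (by simp only; rw [hzero x h, Complex.ofReal_zero])
    exact ⟨Complex.ofRealCLM.contDiff.comp hsm, hAc.of_isClosed_subset (isClosed_tsupport _) hts,
      hts.trans hA1⟩
  -- the pairing vanishes for the truncated functions
  have hpair : ∀ ε, 0 < ε → ∫ ξ in ring ρ, (conj (g ξ) * gr (q ε) ξ).re = 0 := by
    intro ε hε
    classical
    have h3 := green hRo ((hg.contDiffOn hRo).restrict_scalars ℝ) (hsplit ε hε)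
    set ψ : ℂ → ℂ := fun ξ => (((if ‖ξ‖ < 1 then q ε ξ else 0 : ℝ)) : ℂ) with hψ
    have hψ0 : ∀ x, x ∉ ring ρ → ψ x = 0 := fun x hx =>
      image_eq_zero_of_notMem_tsupport fun h => hx ((hsplit ε hε).supp h)
    have hψ1 : ∀ x, x ∉ ring ρ → dbar ψ x = 0 := by
      intro x hx
      have h4 : fderiv ℝ ψ x = 0 := image_eq_zero_of_notMem_tsupport fun h =>
        hx ((hsplit ε hε).supp (tsupport_fderiv_subset ℝ h))
      unfold dbar
      rw [h4]
      simp
    have h5 : ∫ x, dbar g x * ψ x = 0 := by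
      have : (fun x => dbar g x * ψ x) = fun _ => 0 := by
        funext x
        by_cases hx : x ∈ ring ρ
        · rw [dbar_of_differentiableAt ((hg x hx).differentiableAt (hRo.mem_nhds hx)), zero_mul]
        · rw [hψ0 x hx, mul_zero]
      rw [this, integral_zero]
    rw [h5, neg_zero] at h3
    have h6 : ∀ x ∈ ring ρ, (conj (g x) * gr (q ε) x).re = 2 * (g x * dbar ψ x).re := by
      intro x hx
      have h7 : ψ =ᶠ[𝓝 x] fun ξ => ((q ε ξ : ℝ) : ℂ) := by
        filter_upwards [(isOpen_lt continuous_norm continuous_const).mem_nhds hx.2] with y hy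
        rw [hψ]
        simp only
        rw [if_pos hy]
      have h8 : dbar ψ x = conj (gr (q ε) x) / 2 := by
        rw [← dbar_ofReal (((hqs ε).differentiable (by simp)) x)]
        unfold dbar
        rw [h7.fderiv_eq]
      rw [h8]
      have h9 : (g x * (conj (gr (q ε) x) / 2)) = (g x * conj (gr (q ε) x)) / 2 := by ring
      rw [h9, Complex.div_ofNat_re, Complex.mul_re, Complex.mul_re, Complex.conj_re, Complex.conj_im,
        Complex.conj_re, Complex.conj_im]
      ring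
    rw [setIntegral_congr_fun hRm h6, integral_const_mul]
    have h10 : ∫ x in ring ρ, (g x * dbar ψ x).re = ∫ x, (g x * dbar ψ x).re := by
      rw [setIntegral_eq_integral_of_forall_compl_eq_zero]
      intro x hx
      rw [hψ1 x hx, mul_zero, Complex.zero_re]
    by_cases hint : Integrable (fun x => g x * dbar ψ x) volume
    · have h11 : ∫ x, (g x * dbar ψ x).re = (∫ x, g x * dbar ψ x).re := by
        exact (integral_re hint)
      rw [h10, h11, h3, Complex.zero_re, mul_zero]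
    · exfalso
      apply hint
      have hcont : ContinuousOn (fun x => g x * dbar ψ x) (ring ρ) := by
        refine hg.continuousOn.mul ?_
        have hc : Continuous (fderiv ℝ ψ) := (hsplit ε hε).smooth.continuous_fderiv (by simp)
        unfold dbar
        exact (((hc.clm_apply continuous_const).add
          (continuous_const.mul (hc.clm_apply continuous_const))).div_const 2).continuousOn
      have hB : IsCompact (tsupport ψ) := (hsplit ε hε).cpt.isCompact
      have h12 : IntegrableOn (fun x => g x * dbar ψ x) (tsupport ψ) volume :=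
        (hcont.mono (hsplit ε hε).supp).integrableOn_compact hB
      rw [← integrableOn_univ]
      refine h12.of_forall_sdiff_eq_zero MeasurableSet.univ fun x hx => ?_
      have h4 : fderiv ℝ ψ x = 0 := image_eq_zero_of_notMem_tsupport fun h =>
        hx.2 (tsupport_fderiv_subset ℝ h)
      unfold dbar
      rw [h4]
      simp
  -- integrability of `g` on `K ∩ ring ρ`
  have hgi : IntegrableOn g (K ∩ ring ρ) volume := by
    have hfin : volume (K ∩ ring ρ) < ∞ := (measure_mono inter_subset_left).trans_lt hKc.measure_lt_top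
    have : IsFiniteMeasure (volume.restrict (K ∩ ring ρ)) := ⟨by rwa [Measure.restrict_apply_univ]⟩
    have hm : AEStronglyMeasurable g (volume.restrict (K ∩ ring ρ)) :=
      (hg.continuousOn.aestronglyMeasurable hRm).mono_measure
        (Measure.restrict_mono inter_subset_right le_rfl)
    have h3 : MemLp g 2 (volume.restrict (K ∩ ring ρ)) := by
      refine ⟨hm, ?_⟩
      rw [eLpNorm_lt_top_iff_lintegral_rpow_enorm_lt_top two_ne_zero ENNReal.ofNat_ne_top]
      have := h2 K hKc hθ.supp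
      simpa using this
    exact h3.integrable one_le_two
  -- the bound
  have hgrθ : ∀ ξ, ‖gr θ ξ‖ ≤ L := fun ξ => by rw [gr_norm]; exact hL ξ
  have hbd : ∀ ε, 0 < ε → ∀ ξ ∈ ring ρ, ‖gr (q ε) ξ‖ ≤ L + 2 * L * M := by
    intro ε hε ξ hξ
    have hEd : DifferentiableAt ℝ (hpE ε) ξ := (hpE_fderiv ε ξ).differentiableAt
    rw [hq]
    simp only
    rw [gr_mul (hθd ξ) hEd]
    have h3 : ‖(θ ξ : ℂ) * gr (hpE ε) ξ‖ ≤ 2 * L * M := by
      rw [norm_mul, Complex.norm_real, Real.norm_eq_abs, gr_norm]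
      have h4 := hpE_norm ε hε ξ hξ.2.le
      have h5 := hθb ξ hξ
      have h6 : 0 ≤ 1 - ‖ξ‖ ^ 2 := by nlinarith [hξ.2, norm_nonneg ξ]
      calc |θ ξ| * ‖fderiv ℝ (hpE ε) ξ‖ ≤ (L * (1 - ‖ξ‖ ^ 2)) *
            (|deriv hpS ((1 - ‖ξ‖ ^ 2) / ε)| * (ε⁻¹ * 2)) := by gcongr
        _ = 2 * L * |(1 - ‖ξ‖ ^ 2) / ε * deriv hpS ((1 - ‖ξ‖ ^ 2) / ε)| := by
            rw [abs_mul, abs_of_nonneg (div_nonneg h6 hε.le)]
            ring
        _ ≤ 2 * L * M := by
            have := hM ((1 - ‖ξ‖ ^ 2) / ε)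
            gcongr
    have h7 : ‖(hpE ε ξ : ℂ) * gr θ ξ‖ ≤ L := by
      have hE0 : 0 ≤ hpE ε ξ := hpS_nonneg _
      rw [norm_mul, Complex.norm_real, Real.norm_eq_abs, abs_of_nonneg hE0]
      calc hpE ε ξ * ‖gr θ ξ‖ ≤ 1 * L := by
            gcongr
            · exact hpS_le_one _
            · exact hgrθ ξ
        _ = L := one_mul L
    calc ‖(θ ξ : ℂ) * gr (hpE ε) ξ + (hpE ε ξ : ℂ) * gr θ ξ‖ ≤ _ := norm_add_le _ _
      _ ≤ 2 * L * M + L := add_le_add h3 h7
      _ = _ := by ring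
  have hsupp : ∀ ε, ∀ ξ, ξ ∉ K → gr (q ε) ξ = 0 := by
    intro ε ξ hξ
    have h3 : fderiv ℝ (q ε) ξ = 0 := by
      have h4 : q ε =ᶠ[𝓝 ξ] fun _ => (0 : ℝ) := by
        filter_upwards [(isClosed_tsupport θ).isOpen_compl.mem_nhds hξ] with y hy
        rw [hq]
        simp only
        rw [image_eq_zero_of_notMem_tsupport hy, zero_mul]
      rw [h4.fderiv_eq]
      simp
    unfold gr
    rw [h3]
    apply Complex.ext <;> simp
  -- dominated convergence
  have hlim : Tendsto (fun n : ℕ => ∫ ξ in ring ρ, (conj (g ξ) * gr (q (1 / ((n : ℝ) + 1))) ξ).re) atTop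
      (𝓝 (∫ ξ in ring ρ, (conj (g ξ) * gr θ ξ).re)) := by
    refine tendsto_integral_of_dominated_convergence
      (fun ξ => (L + 2 * L * M) * (K.indicator (fun ξ => ‖g ξ‖) ξ)) ?_ ?_ ?_ ?_
    · intro n
      have hc : Continuous (fderiv ℝ (q (1 / ((n : ℝ) + 1)))) :=
        (hqs _).continuous_fderiv (by simp)
      have hgc : Continuous (gr (q (1 / ((n : ℝ) + 1)))) := (gr_smooth (hqs _)).continuous
      have : ContinuousOn (fun ξ => (conj (g ξ) * gr (q (1 / ((n : ℝ) + 1))) ξ).re) (ring ρ) :=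
        Complex.continuous_re.comp_continuousOn
          ((Complex.continuous_conj.comp_continuousOn hg.continuousOn).mul hgc.continuousOn)
      exact this.aestronglyMeasurable hRm
    · refine Integrable.const_mul ?_ _
      have h3 : Integrable (K.indicator (fun ξ => ‖g ξ‖)) (volume.restrict (ring ρ)) := by
        rw [integrable_indicator_iff (isClosed_tsupport θ).measurableSet, IntegrableOn,
          Measure.restrict_restrict (isClosed_tsupport θ).measurableSet]
        exact hgi.norm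
      exact h3
    · intro n
      have hn : (0 : ℝ) < 1 / ((n : ℝ) + 1) := by positivity
      filter_upwards [ae_restrict_mem hRm] with ξ hξ
      by_cases h3 : ξ ∈ K
      · rw [indicator_of_mem h3]
        calc ‖(conj (g ξ) * gr (q (1 / ((n : ℝ) + 1))) ξ).re‖
            ≤ ‖conj (g ξ) * gr (q (1 / ((n : ℝ) + 1))) ξ‖ := Complex.abs_re_le_norm _
          _ = ‖g ξ‖ * ‖gr (q (1 / ((n : ℝ) + 1))) ξ‖ := by
              rw [norm_mul, RCLike.norm_conj]
          _ ≤ ‖g ξ‖ * (L + 2 * L * M) := by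
              have := hbd _ hn ξ hξ
              gcongr
          _ = _ := by ring
      · rw [hsupp _ ξ h3, mul_zero, Complex.zero_re, norm_zero, indicator_of_notMem h3, mul_zero]
    · filter_upwards [ae_restrict_mem hRm] with ξ hξ
      have h3 : 0 < 1 - ‖ξ‖ ^ 2 := by nlinarith [hξ.2, norm_nonneg ξ]
      have h4 : ∀ᶠ n : ℕ in atTop, 1 / ((n : ℝ) + 1) < (1 - ‖ξ‖ ^ 2) / 2 :=
        tendsto_one_div_add_atTop_nhds_zero_nat.eventually_lt_const (by positivity)
      refine tendsto_const_nhds.congr' ?_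
      filter_upwards [h4] with n hn
      have hn0 : (0 : ℝ) < 1 / ((n : ℝ) + 1) := by positivity
      have h5 : q (1 / ((n : ℝ) + 1)) =ᶠ[𝓝 ξ] θ := by
        have ho : IsOpen {y : ℂ | 1 / ((n : ℝ) + 1) < (1 - ‖y‖ ^ 2) / 2} :=
          isOpen_lt continuous_const ((continuous_const.sub (continuous_norm.pow 2)).div_const 2)
        filter_upwards [ho.mem_nhds hn] with y hy
        have hy' : 1 / ((n : ℝ) + 1) < (1 - ‖y‖ ^ 2) / 2 := hy
        rw [hq]
        simp only
        rw [hpE, hpS_one, mul_one]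
        rw [le_div_iff₀ hn0]
        linarith
      rw [gr_congr h5]
  have hzero : (fun n : ℕ => ∫ ξ in ring ρ, (conj (g ξ) * gr (q (1 / ((n : ℝ) + 1))) ξ).re) =
      fun _ => 0 := by
    funext n
    exact hpair _ (by positivity)
  rw [hzero] at hlim
  exact (tendsto_nhds_unique hlim tendsto_const_nhds)

end Pool.Agent.Lib.MP_79abb3_an.PD
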