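import Pool.Agent.Lib.MP_79abb3_an.PD.GD2
import Pool.Agent.Lib.MP_79abb3_an.PD.GD2c

/-!
Theorem D, block G, part D3: the reflected gradient is divergence free.
-/

set_option autoImplicit false
set_option linter.unusedSectionVars false

open MeasureTheory Set Filter Topology Function
open scoped ENNReal ComplexConjugate

namespace Pool.Agent.Lib.MP_79abb3_an.PD

open Pool.Agent.Lib.MP_79abb3_an.SC

/-! ### auxiliary facts -/

private theorem gd3_int {A K : Set ℂ} (hA : MeasurableSet A) (hK : IsCompact K) {g h : ℂ → ℂ}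
    (hg : ContinuousOn g A) (h2 : ∫⁻ ξ in K ∩ A, ‖g ξ‖ₑ ^ 2 < ∞) (hh : Continuous h)
    (h0 : ∀ ξ, ξ ∉ K → h ξ = 0) : IntegrableOn (fun ξ => (conj (g ξ) * h ξ).re) A volume := by
  have hfin : volume (K ∩ A) < ∞ := (measure_mono inter_subset_left).trans_lt hK.measure_lt_top
  have : IsFiniteMeasure (volume.restrict (K ∩ A)) := ⟨by rwa [Measure.restrict_apply_univ]⟩
  have hm : AEStronglyMeasurable g (volume.restrict (K ∩ A)) :=
    (hg.aestronglyMeasurable hA).mono_measure (Measure.restrict_mono inter_subset_right le_rfl)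
  have h3 : MemLp g 2 (volume.restrict (K ∩ A)) := by
    refine ⟨hm, ?_⟩
    rw [eLpNorm_lt_top_iff_lintegral_rpow_enorm_lt_top two_ne_zero ENNReal.ofNat_ne_top]
    simpa using h2
  have h4 : IntegrableOn g (K ∩ A) volume := h3.integrable one_le_two
  have hts : tsupport h ⊆ K := by
    refine closure_minimal ?_ hK.isClosed
    intro x hx
    by_contra h'
    exact hx (h0 x h')
  obtain ⟨L, hL⟩ := hh.bounded_above_of_compact_support
    (hK.of_isClosed_subset (isClosed_tsupport _) hts)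
  have hKm : MeasurableSet K := hK.isClosed.measurableSet
  have h5 : Integrable (fun ξ => L * (K.indicator (fun ξ => ‖g ξ‖) ξ)) (volume.restrict A) := by
    refine Integrable.const_mul ?_ _
    have h6 : Integrable (K.indicator (fun ξ => ‖g ξ‖)) (volume.restrict A) := by
      rw [integrable_indicator_iff hKm, IntegrableOn, Measure.restrict_restrict hKm]
      exact h4.norm
    exact h6
  refine h5.mono' ?_ ?_
  · have : ContinuousOn (fun ξ => (conj (g ξ) * h ξ).re) A :=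
      Complex.continuous_re.comp_continuousOn
        ((Complex.continuous_conj.comp_continuousOn hg).mul hh.continuousOn)
    exact this.aestronglyMeasurable hA
  · filter_upwards with ξ
    by_cases hξ : ξ ∈ K
    · rw [indicator_of_mem hξ]
      calc ‖(conj (g ξ) * h ξ).re‖ ≤ ‖conj (g ξ) * h ξ‖ := Complex.abs_re_le_norm _
        _ = ‖h ξ‖ * ‖g ξ‖ := by rw [norm_mul, RCLike.norm_conj, mul_comm]
        _ ≤ L * ‖g ξ‖ := mul_le_mul_of_nonneg_right (hL ξ) (norm_nonneg _)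
    · rw [h0 ξ hξ, mul_zero, Complex.zero_re, norm_zero, indicator_of_notMem hξ, mul_zero]

private theorem gd3_fderiv (θ : ℂ → ℝ) (w z : ℂ) : fderiv ℝ θ w z = (gr θ w * z).re := by
  have h1 : z = z.re • (1 : ℂ) + z.im • Complex.I := by
    rw [Complex.real_smul, Complex.real_smul, mul_one]
    exact (Complex.re_add_im z).symm
  conv_lhs => rw [h1]
  rw [map_add, map_smul, map_smul, smul_eq_mul, smul_eq_mul, Complex.mul_re]
  unfold gr
  simp only
  ring

private theorem gd3_gr_unique {u : ℂ → ℝ} {x : ℂ} {L : ℂ →L[ℝ] ℝ} (h : HasFDerivAt u L x) {g : ℂ}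
    (hg : ∀ v, L v = (g * v).re) : gr u x = g := by
  unfold gr
  rw [h.fderiv, hg, hg]
  apply Complex.ext
  · simp
  · simp

private theorem gd3_cinv_gr {θ : ℂ → ℝ} (hθ : Differentiable ℝ θ) {ξ : ℂ} (h : ξ ≠ 0) :
    gr (fun ξ => θ (cinv ξ)) ξ = -(conj (gr θ (cinv ξ)) * (ξ ^ 2)⁻¹) := by
  have h1 : HasFDerivAt (fun ξ => θ (cinv ξ)) ((fderiv ℝ θ (cinv ξ)).comp (cinvD ξ)) ξ :=
    (hθ (cinv ξ)).hasFDerivAt.comp ξ (cinv_hasFDerivAt h)
  refine gd3_gr_unique h1 fun v => ?_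
  rw [ContinuousLinearMap.comp_apply, gd3_fderiv]
  have h2 : cinvD ξ v = -((conj ξ) ^ 2)⁻¹ * conj v := rfl
  rw [h2, ← Complex.conj_re]
  congr 1
  rw [map_mul, map_mul, map_neg, map_inv₀, map_pow, Complex.conj_conj, Complex.conj_conj]
  ring

private theorem gd3_smooth {ρ : ℝ} (h0 : 0 < ρ) {θ : ℂ → ℝ} (hθ : IsTe (dring ρ) θ) :
    IsTe (dring ρ) (fun ξ => θ (cinv ξ)) := by
  have hK : IsCompact (tsupport θ) := hθ.cpt.isCompact
  have hne : ∀ x ∈ tsupport θ, x ≠ 0 := by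
    intro x hx hx0
    have := (hθ.supp hx).1
    rw [hx0, norm_zero] at this
    linarith
  have hcont : ContinuousOn cinv (tsupport θ) := fun x hx =>
    (cinv_hasFDerivAt (hne x hx)).continuousAt.continuousWithinAt
  have hKi : IsCompact (cinv '' tsupport θ) := hK.image_of_continuousOn hcont
  have hsub : tsupport (fun ξ => θ (cinv ξ)) ⊆ cinv '' tsupport θ := by
    refine closure_minimal ?_ hKi.isClosed
    intro x hx
    exact ⟨cinv x, subset_tsupport θ hx, cinv_cinv x⟩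
  refine ⟨?_, hKi.of_isClosed_subset (isClosed_tsupport _) hsub, ?_⟩
  · rw [contDiff_iff_contDiffAt]
    intro ξ
    by_cases hξ : ξ = 0
    · subst hξ
      refine (contDiffAt_const (c := (0 : ℝ))).congr_of_eventuallyEq ?_
      filter_upwards [Metric.ball_mem_nhds (0 : ℂ) h0] with y hy
      rw [Metric.mem_ball, dist_zero_right] at hy
      apply image_eq_zero_of_notMem_tsupport
      intro h
      have h1 := (hθ.supp h).2
      have h2 := (hθ.supp h).1
      rw [norm_cinv] at h1 h2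
      by_cases hy0 : ‖y‖ = 0
      · rw [hy0, inv_zero] at h2
        linarith
      · have h3 : 0 < ‖y‖ := lt_of_le_of_ne (norm_nonneg y) (Ne.symm hy0)
        have h4 := (inv_lt_inv₀ h3 h0).1 h1
        linarith
    · exact hθ.smooth.contDiffAt.comp ξ (cinv_contDiffAt hξ)
  · refine hsub.trans ?_
    rintro _ ⟨x, hx, rfl⟩
    have h1 := hθ.supp hx
    have hx0 : 0 < ‖x‖ := norm_pos_iff.2 (hne x hx)
    refine ⟨?_, ?_⟩
    · rw [norm_cinv, lt_inv_comm₀ h0 hx0]
      exact h1.2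
    · rw [norm_cinv]
      exact (inv_lt_inv₀ hx0 h0).2 h1.1

/-- The reflected gradient is divergence free: for a test function `θ` of the doubled ring, the part of the integral
over `|ξ| > 1` is transformed by `cinv` (real inner products of gradients are conformally invariant:
`∫_{|ξ|>1} Re (conj (rfl1) gr θ) = -∫_{|ξ|<1} Re (conj (γ_F) gr (θ ∘ cinv))`, with `γ_F = (γ ∘ F) F'`), so the total
is `∫_{ring} Re (conj γ_F gr (θ - θ ∘ cinv)) = 0` by `half_pair` (`θ - θ ∘ cinv` is smooth on the doubled ring, with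
compact support, zero on the circle). -/
theorem rfl_div {D : Set ℂ} (hD : IsOpen D) {ρ : ℝ} (h0 : 0 < ρ) (h1 : ρ < 1) {F : ℂ → ℂ}
    (h : IsCollar D ρ F) {γ : ℂ → ℂ} (hγ : MemLp (D.indicator γ) 2 volume)
    (hh : DifferentiableOn ℂ γ (F '' ring ρ)) {θ : ℂ → ℝ} (hθ : IsTe (dring ρ) θ) :
    ∫ ξ in dring ρ, (conj (rfl1 F γ ξ) * gr θ ξ).re = 0 := by
  have hRo : IsOpen (ring ρ) := (isOpen_lt continuous_const continuous_norm).inter
    (isOpen_lt continuous_norm continuous_const)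
  have hRm : MeasurableSet (ring ρ) := hRo.measurableSet
  set G : ℂ → ℂ := fun ξ => γ (F ξ) * fderiv ℝ F ξ 1 with hG
  set R' : Set ℂ := {ξ | 1 < ‖ξ‖ ∧ ‖ξ‖ < ρ⁻¹} with hR'
  have hR'o : IsOpen R' := (isOpen_lt continuous_const continuous_norm).inter
    (isOpen_lt continuous_norm continuous_const)
  have hpos : ∀ ξ ∈ ring ρ, 0 < ‖ξ‖ := fun ξ hξ => h0.trans hξ.1
  have hne : ∀ ξ ∈ ring ρ, ξ ≠ 0 := fun ξ hξ => norm_pos_iff.1 (hpos ξ hξ)
  -- the holomorphic function on the ring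
  have hGh : DifferentiableOn ℂ G (ring ρ) := by
    have e1 : DifferentiableOn ℂ (fun ξ => γ (F ξ)) (ring ρ) :=
      hh.comp h.holo (mapsTo_image F (ring ρ))
    have e2 : DifferentiableOn ℂ (deriv F) (ring ρ) := h.holo.deriv hRo
    refine (e1.mul e2).congr fun ξ hξ => ?_
    have e3 : HasDerivAt F (deriv F ξ) ξ :=
      ((h.holo ξ hξ).differentiableAt (hRo.mem_nhds hξ)).hasDerivAt
    have e4 : fderiv ℝ F ξ = ((fderiv ℂ F ξ).restrictScalars ℝ) :=
      (e3.differentiableAt.hasFDerivAt.restrictScalars ℝ).fderiv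
    have e5 : fderiv ℝ F ξ 1 = deriv F ξ := by
      rw [e4, ContinuousLinearMap.coe_restrictScalars', fderiv_apply_one_eq_deriv]
    show γ (F ξ) * fderiv ℝ F ξ 1 = γ (F ξ) * deriv F ξ
    rw [e5]
  have hin : ∀ ξ ∈ ring ρ, rfl1 F γ ξ = G ξ := by
    intro ξ hξ
    unfold rfl1
    rw [if_pos hξ.2]
  have hout : ∀ ξ, 1 < ‖ξ‖ → rfl1 F γ ξ = conj (G (cinv ξ)) / ξ ^ 2 := by
    intro ξ hξ
    unfold rfl1
    rw [if_neg (not_lt.2 hξ.le)]
  -- square integrability
  have hγ2 : ∫⁻ x in D, ‖γ x‖ₑ ^ 2 < ∞ := by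
    have e1 : MemLp γ 2 (volume.restrict D) := (memLp_indicator_iff_restrict hD.measurableSet).1 hγ
    have e2 := e1.2
    rw [eLpNorm_lt_top_iff_lintegral_rpow_enorm_lt_top two_ne_zero ENNReal.ofNat_ne_top] at e2
    simpa using e2
  have hb : ∀ K : Set ℂ, IsCompact K → K ⊆ dring ρ → ∫⁻ ξ in K, ‖rfl1 F γ ξ‖ₑ ^ 2 < ∞ := by
    intro K hK hKr
    obtain ⟨C, hC, -, hC2⟩ := h.bound h0 h1 hK hKr
    exact (hC2 γ).trans_lt (ENNReal.mul_lt_top hC.lt_top hγ2)
  have hb1 : ∀ K : Set ℂ, IsCompact K → K ⊆ dring ρ → ∫⁻ ξ in K ∩ ring ρ, ‖G ξ‖ₑ ^ 2 < ∞ := by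
    intro K hK hKr
    have e1 : ∫⁻ ξ in K ∩ ring ρ, ‖G ξ‖ₑ ^ 2 = ∫⁻ ξ in K ∩ ring ρ, ‖rfl1 F γ ξ‖ₑ ^ 2 :=
      setLIntegral_congr_fun (hK.isClosed.measurableSet.inter hRm) fun ξ hξ => by
        rw [hin ξ hξ.2]
    rw [e1]
    exact (lintegral_mono_set inter_subset_left).trans_lt (hb K hK hKr)
  have hθd : Differentiable ℝ θ := hθ.smooth.differentiable (by simp)
  have hθi := gd3_smooth h0 hθ
  have hθid : Differentiable ℝ (fun ξ => θ (cinv ξ)) := hθi.smooth.differentiable (by simp)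
  have hgc : ∀ {u : ℂ → ℝ}, IsTe (dring ρ) u → Continuous (gr u) := fun hu => (gr_smooth hu.smooth).continuous
  have hg0 : ∀ {u : ℂ → ℝ}, ∀ ξ, ξ ∉ tsupport u → gr u ξ = 0 := by
    intro u ξ hξ
    have h4 : fderiv ℝ u ξ = 0 := image_eq_zero_of_notMem_tsupport fun h =>
      hξ (tsupport_fderiv_subset ℝ h)
    unfold gr
    rw [h4]
    apply Complex.ext <;> simp
  -- integrability
  have hi1 : IntegrableOn (fun ξ => (conj (G ξ) * gr θ ξ).re) (ring ρ) volume :=
    gd3_int hRm hθ.cpt.isCompact hGh.continuousOn (hb1 _ hθ.cpt.isCompact hθ.supp) (hgc hθ) (hg0 (u := θ))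
  have hi2 : IntegrableOn (fun ξ => (conj (G ξ) * gr (fun ξ => θ (cinv ξ)) ξ).re) (ring ρ) volume :=
    gd3_int hRm hθi.cpt.isCompact hGh.continuousOn (hb1 _ hθi.cpt.isCompact hθi.supp) (hgc hθi)
      (hg0 (u := fun ξ => θ (cinv ξ)))
  have hi1' : IntegrableOn (fun ξ => (conj (rfl1 F γ ξ) * gr θ ξ).re) (ring ρ) volume :=
    hi1.congr_fun (fun ξ hξ => by simp only; rw [hin ξ hξ]) hRm
  have hmap : ∀ ξ ∈ R', cinv ξ ∈ ring ρ := by
    intro ξ hξ
    have e0 : 0 < ‖ξ‖ := zero_lt_one.trans hξ.1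
    refine ⟨?_, ?_⟩
    · rw [norm_cinv, lt_inv_comm₀ h0 e0]
      exact hξ.2
    · rw [norm_cinv]
      exact inv_lt_one_of_one_lt₀ hξ.1
  have hmap' : ∀ ξ ∈ ring ρ, cinv ξ ∈ R' := by
    intro ξ hξ
    have e0 := hpos ξ hξ
    refine ⟨?_, ?_⟩
    · rw [norm_cinv]
      exact (one_lt_inv₀ e0).2 hξ.2
    · rw [norm_cinv]
      exact (inv_lt_inv₀ e0 h0).2 hξ.1
  have hcont' : ContinuousOn (rfl1 F γ) R' := by
    have e1 : ContinuousOn cinv R' := fun ξ hξ =>
      (cinv_hasFDerivAt (norm_pos_iff.1 (zero_lt_one.trans hξ.1))).continuousAt.continuousWithinAt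
    have e2 : ContinuousOn (fun ξ => conj (G (cinv ξ)) / ξ ^ 2) R' := by
      refine ContinuousOn.div (Complex.continuous_conj.comp_continuousOn
        (hGh.continuousOn.comp e1 hmap)) (continuousOn_id.pow 2) fun ξ hξ => ?_
      exact pow_ne_zero 2 (norm_pos_iff.1 (zero_lt_one.trans hξ.1))
    exact e2.congr fun ξ hξ => hout ξ hξ.1
  have hi3 : IntegrableOn (fun ξ => (conj (rfl1 F γ ξ) * gr θ ξ).re) R' volume :=
    gd3_int hR'o.measurableSet hθ.cpt.isCompact hcont'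
      ((lintegral_mono_set inter_subset_left).trans_lt (hb _ hθ.cpt.isCompact hθ.supp)) (hgc hθ)
      (hg0 (u := θ))
  -- splitting of the doubled ring
  have hS : volume (Metric.sphere (0 : ℂ) 1) = 0 := Measure.addHaar_sphere _ _ _
  have hsplit : ∫ ξ in dring ρ, (conj (rfl1 F γ ξ) * gr θ ξ).re =
      ∫ ξ in ring ρ ∪ R', (conj (rfl1 F γ ξ) * gr θ ξ).re := by
    apply setIntegral_congr_set
    rw [ae_eq_set]
    constructor
    · refine measure_mono_null ?_ hS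
      rintro ξ ⟨hξ, hξ'⟩
      rw [mem_sphere_zero_iff_norm]
      rcases lt_trichotomy ‖ξ‖ 1 with h3 | h3 | h3
      · exact absurd (Or.inl ⟨hξ.1, h3⟩) hξ'
      · exact h3
      · exact absurd (Or.inr ⟨h3, hξ.2⟩) hξ'
    · have : (ring ρ ∪ R') \ dring ρ = ∅ := by
        rw [Set.sdiff_eq_empty]
        rintro ξ (hξ | hξ)
        · exact ⟨hξ.1, hξ.2.trans ((one_lt_inv₀ h0).2 h1)⟩
        · exact ⟨h1.trans hξ.1, hξ.2⟩
      rw [this, measure_empty]
  have hdisj : Disjoint (ring ρ) R' := by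
    rw [Set.disjoint_left]
    intro ξ hξ hξ'
    exact lt_asymm hξ.2 hξ'.1
  rw [hsplit, setIntegral_union hdisj hR'o.measurableSet hi1' hi3]
  -- change of variables
  have himg : cinv '' ring ρ = R' := by
    ext ξ
    constructor
    · rintro ⟨x, hx, rfl⟩
      exact hmap' x hx
    · intro hξ
      exact ⟨cinv ξ, hmap ξ hξ, cinv_cinv ξ⟩
  have hinj : InjOn cinv (ring ρ) := fun x _ y _ hxy => by
    rw [← cinv_cinv x, hxy, cinv_cinv]
  have hcv : ∫ ξ in R', (conj (rfl1 F γ ξ) * gr θ ξ).re =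
      ∫ ξ in ring ρ, |(cinvD ξ).det| • (conj (rfl1 F γ (cinv ξ)) * gr θ (cinv ξ)).re := by
    rw [← himg]
    exact integral_image_eq_integral_abs_det_fderiv_smul volume hRm
      (fun ξ hξ => (cinv_hasFDerivAt (hne ξ hξ)).hasFDerivWithinAt) hinj _
  have hcv2 : ∫ ξ in ring ρ, |(cinvD ξ).det| • (conj (rfl1 F γ (cinv ξ)) * gr θ (cinv ξ)).re =
      ∫ ξ in ring ρ, -(conj (G ξ) * gr (fun ξ => θ (cinv ξ)) ξ).re := by
    refine setIntegral_congr_fun hRm fun ξ hξ => ?_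
    have e0 := hne ξ hξ
    have e1 : conj ξ ≠ 0 := by rwa [Ne, map_eq_zero]
    rw [cinvD_det, hout _ (hmap' ξ hξ).1, cinv_cinv, gd3_cinv_gr hθd e0, smul_eq_mul]
    have e2 : conj (conj (G ξ) / cinv ξ ^ 2) = G ξ * ξ ^ 2 := by
      rw [map_div₀, Complex.conj_conj, map_pow]
      unfold cinv
      rw [map_inv₀, Complex.conj_conj]
      field_simp
    rw [e2]
    set w := gr θ (cinv ξ) with hw
    have e3 : (‖ξ‖ ^ 4 : ℝ) = (ξ ^ 2 * (conj ξ) ^ 2).re := by
      rw [← mul_pow, Complex.mul_conj, ← Complex.ofReal_pow, Complex.ofReal_re,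
        Complex.normSq_eq_norm_sq]
      ring
    have e4 : ((‖ξ‖ ^ 4 : ℝ) : ℂ) = ξ ^ 2 * (conj ξ) ^ 2 := by
      rw [← mul_pow, Complex.mul_conj, Complex.normSq_eq_norm_sq]
      push_cast
      ring
    have e5 : ((‖ξ‖ ^ 4)⁻¹ : ℝ) * (G ξ * ξ ^ 2 * w).re =
        (conj (G ξ * ((conj ξ) ^ 2)⁻¹ * w)).re := by
      rw [Complex.conj_re, ← Complex.re_ofReal_mul]
      congr 1
      rw [Complex.ofReal_inv, e4]
      field_simp
    rw [e5, ← Complex.neg_re]
    congr 1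
    rw [map_mul, map_mul, map_inv₀, map_pow, Complex.conj_conj]
    ring
  rw [hcv, hcv2, integral_neg, ← sub_eq_add_neg]
  have e1 : ∫ ξ in ring ρ, (conj (rfl1 F γ ξ) * gr θ ξ).re = ∫ ξ in ring ρ, (conj (G ξ) * gr θ ξ).re :=
    setIntegral_congr_fun hRm fun ξ hξ => by
      rw [hin ξ hξ]
  rw [e1, ← integral_sub hi1 hi2]
  have hp := half_pair h0 h1 hGh hb1 (hθ.sub hθi) (fun ξ hξ => by
    have e2 : cinv ξ = ξ := by
      unfold cinv
      rw [Complex.inv_def, Complex.conj_conj, Complex.normSq_conj, Complex.normSq_eq_norm_sq, hξ]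
      simp
    rw [e2, sub_self])
  rw [← hp]
  refine setIntegral_congr_fun hRm fun ξ _ => ?_
  rw [gr_sub (hθd ξ) (hθid ξ), mul_sub, Complex.sub_re]

end Pool.Agent.Lib.MP_79abb3_an.PD
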