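import Pool.Agent.Lib.MP_79abb3_an.PD.DefD

/-!
Theorem D, block G (the flush function of a planar domain): definitions.
-/

set_option autoImplicit false

open MeasureTheory Set Filter Topology Function
open scoped ENNReal ComplexConjugate

namespace Pool.Agent.Lib.MP_79abb3_an.PD

/-- Smooth functions with compact support in `D`. -/
structure IsTe {E : Type} [NormedAddCommGroup E] [NormedSpace ℝ E] (D : Set ℂ) (ψ : ℂ → E) : Prop where
  smooth : ContDiff ℝ ((⊤ : ℕ∞) : WithTop ℕ∞) ψ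
  cpt : HasCompactSupport ψ
  supp : tsupport ψ ⊆ D

/-- `∂φ/∂(conj z)` -/
noncomputable def dbar (φ : ℂ → ℂ) (x : ℂ) : ℂ :=
  (fderiv ℝ φ x 1 + Complex.I * fderiv ℝ φ x Complex.I) / 2

/-- `2 ∂u/∂z = u_x - i u_y` of a real function `u`. -/
noncomputable def gr (u : ℂ → ℝ) (x : ℂ) : ℂ := ⟨fderiv ℝ u x 1, -fderiv ℝ u x Complex.I⟩

/-- The weak equation `∂u/∂(conj z) = f` in `D`. -/
structure WD (D : Set ℂ) (u f : ℂ → ℂ) : Prop where
  iu : LocallyIntegrableOn u D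
  iF : LocallyIntegrableOn f D
  eq : ∀ ψ : ℂ → ℂ, IsTe D ψ → ∫ x, u x * dbar ψ x = -∫ x, f x * ψ x

/-- The Cauchy transform `(1/π) ∫ f(z)/(w - z) dz`. -/
noncomputable def CT (f : ℂ → ℂ) (w : ℂ) : ℂ := ((Real.pi : ℝ) : ℂ)⁻¹ * ∫ z, f z / (w - z)

/-- The class `H¹₀(D)`: `u ∈ L²` is a limit of test functions `φ` of `D` and `gr φ → γ` in `L²`. -/
structure IsW (D : Set ℂ) (u : ℂ → ℝ) (γ : ℂ → ℂ) : Prop where
  mu : MemLp u 2 volume
  mγ : MemLp γ 2 volume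
  ap : ∀ ε > 0, ∃ φ : ℂ → ℝ, IsTe D φ ∧ eLpNorm (fun x => u x - φ x) 2 volume ≤ ε ∧
    eLpNorm (fun x => γ x - gr φ x) 2 volume ≤ ε

end Pool.Agent.Lib.MP_79abb3_an.PD
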