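import Pool.Agent.Lib.MP_79abb3_an.PD.GDef2

/-!
Theorem D, block G: systems of collars.
-/

set_option autoImplicit false
set_option linter.unusedSectionVars false

open MeasureTheory Set Filter Topology Function
open scoped ENNReal ComplexConjugate

namespace Pool.Agent.Lib.MP_79abb3_an.PD

open Pool.Agent.Lib.MP_79abb3_an.SC

/-- The ring `{r ≤ |ξ| < 1}`. -/
def ringe (r : ℝ) : Set ℂ := {ξ | r ≤ ‖ξ‖ ∧ ‖ξ‖ < 1}

/-- A system of collars of `D`. -/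
structure IsCols (D : Set ℂ) (n : ℕ) (ρ : ℝ) (F : Fin n → ℂ → ℂ) : Prop where
  h0 : 0 < ρ
  h1 : ρ < 1
  col : ∀ j, IsCollar D ρ (F j)
  dis : Pairwise (Disjoint on fun j => F j '' ringc ρ)
  cpt : ∀ r, ρ < r → r < 1 → IsCompact (D \ ⋃ j, F j '' ring r)

/-- The core of `D`: without the rings `r ≤ |ξ| < 1` and without the closed ball. -/
def core (D : Set ℂ) {n : ℕ} (F : Fin n → ℂ → ℂ) (r : ℝ) (x : ℂ) (t : ℝ) : Set ℂ :=
  (D \ ⋃ j, F j '' ringe r) \ Metric.closedBall x t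

/-- Radial profile: `0` for `t ≤ a`, `1` for `t ≥ b`. -/
noncomputable def prof (a b t : ℝ) : ℝ := Real.smoothTransition ((t - a) / (b - a))

/-- `χ` is the cut-off of the collar `F`: `χ (F ξ) = prof a b |ξ|` on the ring, `0` on the rest of `D`. -/
structure IsChi (D : Set ℂ) (ρ : ℝ) (F : ℂ → ℂ) (a b : ℝ) (χ : ℂ → ℝ) : Prop where
  val : ∀ ξ ∈ ring ρ, χ (F ξ) = prof a b ‖ξ‖
  off : ∀ x ∈ D, x ∉ F '' ring ρ → χ x = 0
  smooth : ContDiffOn ℝ ((⊤ : ℕ∞) : WithTop ℕ∞) χ D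

/-- The flux of `u` into the boundary component of the cut-off `χ`. -/
noncomputable def flux (D : Set ℂ) (u χ : ℂ → ℝ) : ℝ :=
  -(2 * Real.pi)⁻¹ * ∫ x in D, (conj (gr u x) * gr χ x).re

end Pool.Agent.Lib.MP_79abb3_an.PD
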