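import Pool.Agent.Lib.MP_79abb3_an.PD.GDef3
import Pool.Agent.Lib.MP_79abb3_an.PD.GE2
import Pool.Agent.Lib.MP_79abb3_an.PD.GB1b

/-!
Theorem D, block G, part F1: cut-offs of the collars.
-/

set_option autoImplicit false
set_option linter.unusedSectionVars false

open MeasureTheory Set Filter Topology Function
open scoped ENNReal ComplexConjugate

namespace Pool.Agent.Lib.MP_79abb3_an.PD

open Pool.Agent.Lib.MP_79abb3_an.SC

theorem prof_smooth {a b : ℝ} : ContDiff ℝ ((⊤ : ℕ∞) : WithTop ℕ∞) (prof a b) := by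
  have h : ContDiff ℝ ((⊤ : ℕ∞) : WithTop ℕ∞) Real.smoothTransition :=
    Real.smoothTransition.contDiff
  exact h.comp ((contDiff_id.sub contDiff_const).div_const (b - a))

theorem prof_zero {a b t : ℝ} (hab : a < b) (h : t ≤ a) : prof a b t = 0 := by
  unfold prof
  apply Real.smoothTransition.zero_of_nonpos
  exact div_nonpos_of_nonpos_of_nonneg (by linarith) (by linarith)

theorem prof_one {a b t : ℝ} (hab : a < b) (h : b ≤ t) : prof a b t = 1 := by
  unfold prof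
  apply Real.smoothTransition.one_of_one_le
  rw [le_div_iff₀ (by linarith)]
  linarith

theorem prof_mem (a b t : ℝ) : prof a b t ∈ Icc (0:ℝ) 1 :=
  ⟨Real.smoothTransition.nonneg _, Real.smoothTransition.le_one _⟩

private theorem gf1_top : ((⊤ : ℕ∞) : WithTop ℕ∞) ≠ 0 := by simp

private theorem gf1_ring_open (ρ : ℝ) : IsOpen (ring ρ) :=
  (isOpen_lt continuous_const continuous_norm).inter (isOpen_lt continuous_norm continuous_const)

private theorem gf1_ring_sub {ρ : ℝ} : ring ρ ⊆ ringc ρ := fun _ h => ⟨h.1, h.2.le⟩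

private theorem gf1_inv {D : Set ℂ} {ρ : ℝ} {F : ℂ → ℂ} (h : IsCollar D ρ F) {ξ : ℂ}
    (hξ : ξ ∈ ring ρ) : ∃ G : ℂ → ℂ, ContDiffAt ℝ ((⊤ : ℕ∞) : WithTop ℕ∞) G (F ξ) ∧ G (F ξ) = ξ ∧
      ∀ᶠ y in 𝓝 (F ξ), F (G y) = y := by
  have hd : DifferentiableAt ℂ F ξ :=
    h.holo.differentiableAt ((gf1_ring_open ρ).mem_nhds hξ)
  have hd0 : deriv F ξ ≠ 0 := by
    intro h0
    have h1 : HasFDerivAt F (0 : ℂ →L[ℂ] ℂ) ξ := by
      have h2 := hd.hasDerivAt.hasFDerivAt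
      rw [h0] at h2
      have e : ContinuousLinearMap.toSpanSingleton ℂ (0 : ℂ) = (0 : ℂ →L[ℂ] ℂ) := by
        ext; simp
      rwa [e] at h2
    have h3 : fderiv ℝ F ξ = 0 := by
      rw [(h1.restrictScalars ℝ).fderiv]
      rfl
    exact h.der ξ (gf1_ring_sub hξ) h3
  have han : ContDiffAt ℂ ((⊤ : ℕ∞) : WithTop ℕ∞) F ξ :=
    ((h.holo.analyticOnNhd (gf1_ring_open ρ)) ξ hξ).contDiffAt
  have hF' := hd.hasDerivAt.hasFDerivAt_equiv hd0
  have hs := han.hasStrictFDerivAt' hF' gf1_top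
  refine ⟨han.localInverse hF' gf1_top, (han.to_localInverse hF' gf1_top).restrict_scalars ℝ,
    hs.localInverse_apply_image, hs.eventually_right_inverse⟩

private theorem gf1_cda {D : Set ℂ} {ρ : ℝ} (h0 : 0 < ρ) {F : ℂ → ℂ} (h : IsCollar D ρ F)
    {p : ℝ → ℝ} (hp : ContDiff ℝ ((⊤ : ℕ∞) : WithTop ℕ∞) p) {χ : ℂ → ℝ}
    (hχ : ∀ ξ ∈ ring ρ, χ (F ξ) = p ‖ξ‖) {ξ : ℂ} (hξ : ξ ∈ ring ρ) :
    ContDiffAt ℝ ((⊤ : ℕ∞) : WithTop ℕ∞) χ (F ξ) := by
  obtain ⟨G, hG, hGξ, hGr⟩ := gf1_inv h hξ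
  have hne : G (F ξ) ≠ 0 := by
    rw [hGξ]
    intro h1
    rw [h1] at hξ
    have := hξ.1
    rw [norm_zero] at this
    linarith
  have h1 : ContDiffAt ℝ ((⊤ : ℕ∞) : WithTop ℕ∞) (fun y => p ‖G y‖) (F ξ) :=
    hp.contDiffAt.comp (F ξ) ((contDiffAt_norm ℝ hne).comp (F ξ) hG)
  refine h1.congr_of_eventuallyEq ?_
  have h2 : ∀ᶠ y in 𝓝 (F ξ), G y ∈ ring ρ := by
    apply hG.continuousAt
    rw [hGξ]
    exact (gf1_ring_open ρ).mem_nhds hξ
  filter_upwards [hGr, h2] with y hy1 hy2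
  rw [← hχ _ hy2, hy1]

/-- values outside of the ring `ringe a` -/
private theorem gf1_zero {D : Set ℂ} {ρ : ℝ} {F : ℂ → ℂ}
    {a b : ℝ} (hab : a < b) {χ : ℂ → ℝ}
    (hval : ∀ ξ ∈ ring ρ, χ (F ξ) = prof a b ‖ξ‖) (hoff : ∀ x ∈ D, x ∉ F '' ring ρ → χ x = 0)
    {x : ℂ} (hx : x ∈ D) (hx2 : x ∉ F '' ringe a) : χ x = 0 := by
  by_cases h1 : x ∈ F '' ring ρ
  · obtain ⟨ξ, hξ, rfl⟩ := h1
    rw [hval ξ hξ]
    apply prof_zero hab
    by_contra h2
    push Not at h2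
    exact hx2 ⟨ξ, ⟨h2.le, hξ.2⟩, rfl⟩
  · exact hoff x hx h1

/-- Existence of the cut-off. `χ x := prof a b |F⁻¹ x|` on `F '' ring ρ` (open; `F` is a holomorphic diffeomorphism of the
ring onto it), `0` off it. Smooth on `F '' ring ρ` (inverse function theorem), and `χ = 0` near every point of
`D \ F '' ringe a` (`IsCollar.open_diff`). -/
theorem exists_chi {D : Set ℂ} (hD : IsOpen D) {ρ : ℝ} (h0 : 0 < ρ) {F : ℂ → ℂ} (h : IsCollar D ρ F)
    {a b : ℝ} (ha : ρ < a) (hab : a < b) (hb : b < 1) : ∃ χ : ℂ → ℝ, IsChi D ρ F a b χ := by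
  classical
  have hinj : InjOn F (ring ρ) := h.inj.mono gf1_ring_sub
  set χ : ℂ → ℝ := fun x => if x ∈ F '' ring ρ then prof a b ‖invFunOn F (ring ρ) x‖ else 0 with hχ
  have hval : ∀ ξ ∈ ring ρ, χ (F ξ) = prof a b ‖ξ‖ := by
    intro ξ hξ
    have h1 : invFunOn F (ring ρ) (F ξ) = ξ := hinj.leftInvOn_invFunOn hξ
    rw [hχ]
    simp only
    rw [if_pos ⟨ξ, hξ, rfl⟩, h1]
  have hoff : ∀ x ∈ D, x ∉ F '' ring ρ → χ x = 0 := by
    intro x _ hx2
    rw [hχ]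
    simp only
    rw [if_neg hx2]
  refine ⟨χ, hval, hoff, ?_⟩
  intro x hx
  apply ContDiffAt.contDiffWithinAt
  by_cases h1 : x ∈ F '' ring ρ
  · obtain ⟨ξ, hξ, rfl⟩ := h1
    exact gf1_cda h0 h prof_smooth hval hξ
  · have h2 : x ∈ D \ F '' ringe a := by
      refine ⟨hx, ?_⟩
      rintro ⟨ξ, hξ, rfl⟩
      exact h1 ⟨ξ, ⟨ha.trans_le hξ.1, hξ.2⟩, rfl⟩
    have h3 : χ =ᶠ[𝓝 x] fun _ => (0 : ℝ) := by
      filter_upwards [(h.open_diff hD ha).mem_nhds h2] with y hy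
      exact gf1_zero hab hval hoff hy.1 hy.2
    exact contDiffAt_const.congr_of_eventuallyEq h3

private theorem gf1_gr_const {u : ℂ → ℝ} {x : ℂ} {c : ℝ} (h : u =ᶠ[𝓝 x] fun _ => c) :
    gr u x = 0 := by
  have h1 : fderiv ℝ u x = 0 := by
    rw [h.fderiv_eq]
    simp
  unfold gr
  rw [h1]
  apply Complex.ext <;> simp

/-- `gr χ` vanishes off the compact set `F '' {a ≤ |ξ| ≤ b}`. -/
theorem IsChi.gr_zero {D : Set ℂ} (hD : IsOpen D) {ρ : ℝ} (h0 : 0 < ρ) {F : ℂ → ℂ}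
    (h : IsCollar D ρ F) {a b : ℝ} (ha : ρ < a) (hab : a < b) (hb : b < 1) {χ : ℂ → ℝ}
    (hχ : IsChi D ρ F a b χ) {x : ℂ} (hx : x ∈ D) (hx2 : x ∉ F '' {ξ | a ≤ ‖ξ‖ ∧ ‖ξ‖ ≤ b}) : gr χ x = 0 := by
  by_cases h1 : x ∈ F '' ringe a
  · obtain ⟨ξ, hξ, rfl⟩ := h1
    have hξb : b < ‖ξ‖ := by
      by_contra h2
      push Not at h2
      exact hx2 ⟨ξ, ⟨hξ.1, h2⟩, rfl⟩
    have hsub : ring b ⊆ ring ρ := fun η hη => ⟨(ha.trans hab).trans hη.1, hη.2⟩
    have hop : IsOpen (F '' ring b) := h.open_ring h0 (gf1_ring_open b) hsub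
    apply gf1_gr_const (c := 1)
    filter_upwards [hop.mem_nhds ⟨ξ, ⟨hξb, hξ.2⟩, rfl⟩] with y hy
    obtain ⟨η, hη, rfl⟩ := hy
    rw [hχ.val η (hsub hη), prof_one hab hη.1.le]
  · apply gf1_gr_const (c := 0)
    filter_upwards [(h.open_diff hD ha).mem_nhds ⟨hx, h1⟩] with y hy
    exact gf1_zero hab hχ.val hχ.off hy.1 hy.2

/-- extension by zero of a smooth function with compact support in `D` -/
private theorem gf1_te {E : Type} [NormedAddCommGroup E] [NormedSpace ℝ E] {D : Set ℂ}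
    (hD : IsOpen D) {f : ℂ → E} (hf : ContDiffOn ℝ ((⊤ : ℕ∞) : WithTop ℕ∞) f D) {K : Set ℂ}
    (hK : IsCompact K) (hKD : K ⊆ D) (h0 : ∀ x ∈ D, x ∉ K → f x = 0) : IsTe D (D.indicator f) := by
  have hz : ∀ x, x ∉ K → D.indicator f x = 0 := by
    intro x hx
    by_cases hxD : x ∈ D
    · rw [indicator_of_mem hxD, h0 x hxD hx]
    · rw [indicator_of_notMem hxD]
  have h1 : tsupport (D.indicator f) ⊆ K := by
    refine closure_minimal ?_ hK.isClosed
    intro x hx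
    by_contra h
    exact hx (hz x h)
  refine ⟨?_, hK.of_isClosed_subset (isClosed_tsupport _) h1, h1.trans hKD⟩
  rw [contDiff_iff_contDiffAt]
  intro x
  by_cases hx : x ∈ D
  · refine (hf.contDiffAt (hD.mem_nhds hx)).congr_of_eventuallyEq ?_
    filter_upwards [hD.mem_nhds hx] with y hy
    rw [indicator_of_mem hy]
  · have hxK : x ∉ K := fun h => hx (hKD h)
    refine (contDiffAt_const (c := (0 : E))).congr_of_eventuallyEq ?_
    filter_upwards [hK.isClosed.isOpen_compl.mem_nhds hxK] with y hy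
    exact hz y hy

private theorem gf1_gr_eq (u : ℂ → ℝ) : gr u = fun x =>
    Complex.ofRealCLM (fderiv ℝ u x 1) - Complex.I * Complex.ofRealCLM (fderiv ℝ u x Complex.I) := by
  funext x
  unfold gr
  apply Complex.ext
  · simp
  · simp

private theorem gf1_le : ((⊤ : ℕ∞) : WithTop ℕ∞) + 1 ≤ ((⊤ : ℕ∞) : WithTop ℕ∞) := by norm_cast

private theorem gf1_smooth {D : Set ℂ} (hD : IsOpen D) {u : ℂ → ℝ}
    (hu : ContDiffOn ℝ ((⊤ : ℕ∞) : WithTop ℕ∞) u D) (e : ℂ) :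
    ContDiffOn ℝ ((⊤ : ℕ∞) : WithTop ℕ∞) (fun y => fderiv ℝ u y e) D :=
  (hu.fderiv_of_isOpen hD gf1_le).clm_apply contDiffOn_const

private theorem gf1_gr_smooth {D : Set ℂ} (hD : IsOpen D) {u : ℂ → ℝ}
    (hu : ContDiffOn ℝ ((⊤ : ℕ∞) : WithTop ℕ∞) u D) :
    ContDiffOn ℝ ((⊤ : ℕ∞) : WithTop ℕ∞) (gr u) D := by
  rw [gf1_gr_eq]
  exact (Complex.ofRealCLM.contDiff.comp_contDiffOn (gf1_smooth hD hu 1)).sub
    (contDiffOn_const.mul (Complex.ofRealCLM.contDiff.comp_contDiffOn (gf1_smooth hD hu Complex.I)))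

private theorem gf1_cpt {D : Set ℂ} {ρ : ℝ} {F : ℂ → ℂ} (h : IsCollar D ρ F) {a b : ℝ}
    (ha : ρ < a) (hb : b < 1) : IsCompact (F '' {ξ | a ≤ ‖ξ‖ ∧ ‖ξ‖ ≤ b}) ∧
      F '' {ξ | a ≤ ‖ξ‖ ∧ ‖ξ‖ ≤ b} ⊆ D := by
  constructor
  · apply IsCompact.image _ h.smooth.continuous
    refine (isCompact_closedBall (0 : ℂ) b).of_isClosed_subset ?_ ?_
    · exact (isClosed_le continuous_const continuous_norm).inter
        (isClosed_le continuous_norm continuous_const)
    · intro ξ hξ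
      rw [mem_closedBall_zero_iff]
      exact hξ.2
  · rintro _ ⟨ξ, hξ, rfl⟩
    exact h.sub ⟨ξ, ⟨ha.trans_le hξ.1, hξ.2.trans_lt hb⟩, rfl⟩

/-- So `1_D gr χ` is a smooth function with compact support in `D`. -/
theorem IsChi.te {D : Set ℂ} (hD : IsOpen D) {ρ : ℝ} (h0 : 0 < ρ) {F : ℂ → ℂ}
    (h : IsCollar D ρ F) {a b : ℝ} (ha : ρ < a) (hab : a < b) (hb : b < 1) {χ : ℂ → ℝ}
    (hχ : IsChi D ρ F a b χ) : IsTe D (D.indicator (gr χ)) := by
  obtain ⟨h1, h2⟩ := gf1_cpt h ha hb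
  exact gf1_te hD (gf1_gr_smooth hD hχ.smooth) h1 h2
    (fun x hx hx2 => hχ.gr_zero hD h0 h ha hab hb hx hx2)

/-- `dbar (gr u)` is real -/
private theorem gf1_im {D : Set ℂ} (hD : IsOpen D) {u : ℂ → ℝ}
    (hu : ContDiffOn ℝ ((⊤ : ℕ∞) : WithTop ℕ∞) u D) {x : ℂ} (hx : x ∈ D) :
    (dbar (gr u) x).im = 0 := by
  have hd : ∀ e : ℂ, DifferentiableAt ℝ (fun y => fderiv ℝ u y e) x := fun e =>
    ((gf1_smooth hD hu e).differentiableOn gf1_top).differentiableAt (hD.mem_nhds hx)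
  have hdf : DifferentiableAt ℝ (fderiv ℝ u) x :=
    ((hu.fderiv_of_isOpen hD gf1_le).differentiableOn gf1_top).differentiableAt (hD.mem_nhds hx)
  have hF : ∀ v : ℂ, fderiv ℝ (gr u) x v =
      Complex.ofRealCLM (fderiv ℝ (fun y => fderiv ℝ u y 1) x v) -
        Complex.I * Complex.ofRealCLM (fderiv ℝ (fun y => fderiv ℝ u y Complex.I) x v) := by
    intro v
    rw [gf1_gr_eq]
    have e1 : HasFDerivAt (fun y => Complex.ofRealCLM (fderiv ℝ u y 1))
        (Complex.ofRealCLM.comp (fderiv ℝ (fun y => fderiv ℝ u y 1) x)) x :=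
      Complex.ofRealCLM.hasFDerivAt.comp x (hd 1).hasFDerivAt
    have e2 : HasFDerivAt (fun y => Complex.ofRealCLM (fderiv ℝ u y Complex.I))
        (Complex.ofRealCLM.comp (fderiv ℝ (fun y => fderiv ℝ u y Complex.I) x)) x :=
      Complex.ofRealCLM.hasFDerivAt.comp x (hd Complex.I).hasFDerivAt
    have e3 := e1.sub (e2.const_mul Complex.I)
    have e4 : (fun x => Complex.ofRealCLM (fderiv ℝ u x 1) -
        Complex.I * Complex.ofRealCLM (fderiv ℝ u x Complex.I)) =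
        ((fun y => Complex.ofRealCLM (fderiv ℝ u y 1)) - fun y =>
          Complex.I * Complex.ofRealCLM (fderiv ℝ u y Complex.I)) := rfl
    rw [e4, e3.fderiv]
    rfl
  have hsymm : fderiv ℝ (fun y => fderiv ℝ u y 1) x Complex.I =
      fderiv ℝ (fun y => fderiv ℝ u y Complex.I) x 1 := by
    have h1 : ∀ e v : ℂ, fderiv ℝ (fun y => fderiv ℝ u y e) x v =
        fderiv ℝ (fderiv ℝ u) x v e := by
      intro e v
      have h2 := hdf.hasFDerivAt.clm_apply (hasFDerivAt_const e x)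
      rw [h2.fderiv]
      simp
    rw [h1, h1]
    have h2t : (2 : WithTop ℕ∞) ≤ ((⊤ : ℕ∞) : WithTop ℕ∞) := by
      have h2u : ((2 : ℕ∞) : WithTop ℕ∞) ≤ ((⊤ : ℕ∞) : WithTop ℕ∞) := WithTop.coe_le_coe.2 le_top
      exact h2u
    have h3 : ContDiffAt ℝ 2 u x := (hu.contDiffAt (hD.mem_nhds hx)).of_le h2t
    exact h3.isSymmSndFDerivAt (by simp) Complex.I 1
  unfold dbar
  rw [hF, hF, hsymm]
  simp [Complex.div_im]

/-- Curl free: `Im ∫_D conj (gr χ) gr φ = 0` for test functions `φ` of `D`. (`dbar (gr χ)` is real; `green`.) -/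
theorem IsChi.curl {D : Set ℂ} (hD : IsOpen D) {ρ : ℝ} {F : ℂ → ℂ} {a b : ℝ} {χ : ℂ → ℝ}
    (hχ : IsChi D ρ F a b χ) {φ : ℂ → ℝ} (hφ : IsTe D φ) :
    ∫ x in D, (conj (gr χ x) * gr φ x).im = 0 := by
  set ψ : ℂ → ℂ := fun x => (φ x : ℂ) with hψ
  have hψt : IsTe D ψ := by
    have hsub : tsupport ψ ⊆ tsupport φ := by
      apply closure_mono
      intro y hy
      rw [mem_support] at hy ⊢
      intro h0
      apply hy
      rw [hψ]
      simp only
      rw [h0, Complex.ofReal_zero]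
    refine ⟨Complex.ofRealCLM.contDiff.comp hφ.smooth,
      hφ.cpt.comp_left (g := fun r : ℝ => (r : ℂ)) Complex.ofReal_zero, hsub.trans hφ.supp⟩
  have hφd : Differentiable ℝ φ := hφ.smooth.differentiable gf1_top
  have hdb : ∀ x, dbar ψ x = conj (gr φ x) / 2 := by
    intro x
    have h1 : HasFDerivAt ψ (Complex.ofRealCLM.comp (fderiv ℝ φ x)) x :=
      Complex.ofRealCLM.hasFDerivAt.comp x (hφd x).hasFDerivAt
    unfold dbar gr
    rw [h1.fderiv]
    apply Complex.ext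
    · simp
    · simp
  have hgs := gf1_gr_smooth hD hχ.smooth
  have hg1 : ContDiffOn ℝ 1 (gr χ) D := hgs.of_le (by exact_mod_cast le_top)
  have hgreen := green hD hg1 hψt
  -- right side is real
  have him : (∫ x, dbar (gr χ) x * ψ x).im = 0 := by
    have h1 : ∀ x, dbar (gr χ) x * ψ x = (((dbar (gr χ) x).re * φ x : ℝ) : ℂ) := by
      intro x
      by_cases hx : x ∈ D
      · apply Complex.ext
        · rw [hψ]
          simp
        · rw [hψ]
          simp [gf1_im hD hχ.smooth hx]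
      · have h2 : φ x = 0 := image_eq_zero_of_notMem_tsupport fun h3 => hx (hφ.supp h3)
        rw [hψ]
        simp [h2]
    simp only [h1]
    have h2 : ∫ x, (((dbar (gr χ) x).re * φ x : ℝ) : ℂ) =
        ((∫ x, (dbar (gr χ) x).re * φ x : ℝ) : ℂ) := integral_ofReal
    rw [h2, Complex.ofReal_im]
  have hgr0 : ∀ x, x ∉ tsupport φ → gr φ x = 0 := by
    intro x hx
    apply gf1_gr_const (c := 0)
    filter_upwards [(isClosed_tsupport φ).isOpen_compl.mem_nhds hx] with y hy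
    exact image_eq_zero_of_notMem_tsupport hy
  have hint : Integrable (fun x => gr χ x * dbar ψ x) := by
    have hc : Continuous (fun x => dbar ψ x) := by
      have h1 : Continuous (fderiv ℝ ψ) := hψt.smooth.continuous_fderiv (by simp)
      unfold dbar
      exact ((h1.clm_apply continuous_const).add
        (continuous_const.mul (h1.clm_apply continuous_const))).div_const 2
    have h1 : IntegrableOn (fun x => gr χ x * dbar ψ x) (tsupport φ) := by
      apply ContinuousOn.integrableOn_compact hφ.cpt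
      exact (hgs.continuousOn.mono hφ.supp).mul hc.continuousOn
    rw [integrableOn_iff_integrable_of_support_subset] at h1
    · exact h1
    · intro x hx
      by_contra h2
      apply hx
      simp only [hdb, hgr0 x h2]
      simp
  have h1 : (∫ x, gr χ x * dbar ψ x).im = 0 := by
    rw [hgreen, Complex.neg_im, him, neg_zero]
  have h2 : ∫ x in D, (conj (gr χ x) * gr φ x).im = ∫ x, (conj (gr χ x) * gr φ x).im := by
    apply setIntegral_eq_integral_of_forall_compl_eq_zero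
    intro x hx
    rw [hgr0 x fun h3 => hx (hφ.supp h3)]
    simp
  have h3 : ∫ x, (conj (gr χ x) * gr φ x).im = -2 * ∫ x, (gr χ x * dbar ψ x).im := by
    rw [← integral_const_mul]
    refine integral_congr_ae (Eventually.of_forall fun x => ?_)
    simp only [hdb]
    simp [Complex.mul_im, Complex.div_im]
    ring
  have h4 : ∫ x, (gr χ x * dbar ψ x).im = (∫ x, gr χ x * dbar ψ x).im := by
    exact integral_im hint
  rw [h2, h3, h4, h1, mul_zero]

/-- Differences of cut-offs of the same collar are test functions (extended by zero). -/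
theorem IsChi.sub_te {D : Set ℂ} (hD : IsOpen D) {ρ : ℝ} (h0 : 0 < ρ) {F : ℂ → ℂ}
    (h : IsCollar D ρ F) {a b a' b' : ℝ} (ha : ρ < a) (hab : a < b) (hb : b < 1) (ha' : ρ < a')
    (hab' : a' < b') (hb' : b' < 1) {χ χ' : ℂ → ℝ} (hχ : IsChi D ρ F a b χ)
    (hχ' : IsChi D ρ F a' b' χ') : IsTe D (D.indicator fun x => χ x - χ' x) := by
  obtain ⟨h1, h2⟩ := gf1_cpt h (lt_min ha ha') (max_lt hb hb')
  refine gf1_te hD (hχ.smooth.sub hχ'.smooth) h1 h2 ?_
  intro x hx hx2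
  by_cases h3 : x ∈ F '' ringe (min a a')
  · obtain ⟨ξ, hξ, rfl⟩ := h3
    have hξb : max b b' < ‖ξ‖ := by
      by_contra h4
      push Not at h4
      exact hx2 ⟨ξ, ⟨hξ.1, h4⟩, rfl⟩
    have hξr : ξ ∈ ring ρ := ⟨(lt_min ha ha').trans_le hξ.1, hξ.2⟩
    rw [hχ.val ξ hξr, hχ'.val ξ hξr, prof_one hab ((le_max_left _ _).trans hξb.le),
      prof_one hab' ((le_max_right _ _).trans hξb.le), sub_self]
  · have h4 : x ∉ F '' ringe a := by
      rintro ⟨ξ, hξ, rfl⟩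
      exact h3 ⟨ξ, ⟨(min_le_left _ _).trans hξ.1, hξ.2⟩, rfl⟩
    have h5 : x ∉ F '' ringe a' := by
      rintro ⟨ξ, hξ, rfl⟩
      exact h3 ⟨ξ, ⟨(min_le_right _ _).trans hξ.1, hξ.2⟩, rfl⟩
    rw [gf1_zero hab hχ.val hχ.off hx h4, gf1_zero hab' hχ'.val hχ'.off hx h5, sub_self]

/-- `1 - ∑ χ_j` is a test function of `D` (extended by zero), for disjoint collars: its support is contained in the
compact set `D \ ⋃ F_j '' ring b'` for `b' > b`. -/
theorem IsCols.one_sub_te {D : Set ℂ} (hD : IsOpen D) {n : ℕ} {ρ : ℝ} {F : Fin n → ℂ → ℂ}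
    (hF : IsCols D n ρ F) {a b : ℝ} (ha : ρ < a) (hab : a < b) (hb : b < 1) {χ : Fin n → ℂ → ℝ}
    (hχ : ∀ j, IsChi D ρ (F j) a b (χ j)) : IsTe D (D.indicator fun x => 1 - ∑ j, χ j x) := by
  refine gf1_te hD ?_ (hF.cpt b (ha.trans hab) hb) sdiff_subset ?_
  · exact contDiffOn_const.sub (ContDiffOn.sum fun j _ => (hχ j).smooth)
  · intro x hx hx2
    have h1 : x ∈ ⋃ j, F j '' ring b := by
      by_contra h3
      exact hx2 ⟨hx, h3⟩
    rw [mem_iUnion] at h1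
    obtain ⟨j, ξ, hξ, rfl⟩ := h1
    have hξr : ξ ∈ ring ρ := ⟨(ha.trans hab).trans hξ.1, hξ.2⟩
    have h4 : ∑ i, χ i (F j ξ) = 1 := by
      rw [Finset.sum_eq_single j]
      · rw [(hχ j).val ξ hξr, prof_one hab hξ.1.le]
      · intro i _ hij
        apply (hχ i).off _ hx
        intro h5
        have h6 := hF.dis hij
        exact (disjoint_left.1 h6) (image_mono gf1_ring_sub h5) ⟨ξ, gf1_ring_sub hξr, rfl⟩
      · intro h5
        exact absurd (Finset.mem_univ j) h5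
    rw [h4, sub_self]

end Pool.Agent.Lib.MP_79abb3_an.PD
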