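import Pool.Agent.Lib.MP_79abb3_an.PD.GF1
import Pool.Agent.Lib.MP_79abb3_an.PD.GC1

/-!
Theorem D, block G, part F2: fluxes.
-/

set_option autoImplicit false
set_option linter.unusedSectionVars false

open MeasureTheory Set Filter Topology Function
open scoped ENNReal ComplexConjugate

namespace Pool.Agent.Lib.MP_79abb3_an.PD

open Pool.Agent.Lib.MP_79abb3_an.SC

private theorem gf2_top : ((⊤ : ℕ∞) : WithTop ℕ∞) ≠ 0 := by simp

private theorem gf2_le : ((⊤ : ℕ∞) : WithTop ℕ∞) + 1 ≤ ((⊤ : ℕ∞) : WithTop ℕ∞) := by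
  exact le_refl _

private theorem gf2_diff {D : Set ℂ} (hD : IsOpen D) {u : ℂ → ℝ}
    (hu : ContDiffOn ℝ ((⊤ : ℕ∞) : WithTop ℕ∞) u D) {x : ℂ} (hx : x ∈ D) : DifferentiableAt ℝ u x :=
  (hu.differentiableOn gf2_top).differentiableAt (hD.mem_nhds hx)

/-- `dbar (gr u)` is real -/
private theorem gf2_im {D : Set ℂ} (hD : IsOpen D) {u : ℂ → ℝ}
    (hu : ContDiffOn ℝ ((⊤ : ℕ∞) : WithTop ℕ∞) u D) {x : ℂ} (hx : x ∈ D) :
    (dbar (gr u) x).im = 0 := by
  have hdf : DifferentiableAt ℝ (fderiv ℝ u) x :=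
    ((hu.fderiv_of_isOpen hD gf2_le).differentiableOn gf2_top).differentiableAt (hD.mem_nhds hx)
  have hd : ∀ e : ℂ, DifferentiableAt ℝ (fun y => fderiv ℝ u y e) x := fun e =>
    hdf.clm_apply (differentiableAt_const e)
  have hgr : gr u = fun x =>
      Complex.ofRealCLM (fderiv ℝ u x 1) - Complex.I * Complex.ofRealCLM (fderiv ℝ u x Complex.I) := by
    funext x
    unfold gr
    apply Complex.ext
    · simp
    · simp
  have hF : ∀ v : ℂ, fderiv ℝ (gr u) x v =
      Complex.ofRealCLM (fderiv ℝ (fun y => fderiv ℝ u y 1) x v) -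
        Complex.I * Complex.ofRealCLM (fderiv ℝ (fun y => fderiv ℝ u y Complex.I) x v) := by
    intro v
    rw [hgr]
    have e1 : HasFDerivAt (fun y => Complex.ofRealCLM (fderiv ℝ u y 1))
        (Complex.ofRealCLM.comp (fderiv ℝ (fun y => fderiv ℝ u y 1) x)) x :=
      Complex.ofRealCLM.hasFDerivAt.comp x (hd 1).hasFDerivAt
    have e2 : HasFDerivAt (fun y => Complex.ofRealCLM (fderiv ℝ u y Complex.I))
        (Complex.ofRealCLM.comp (fderiv ℝ (fun y => fderiv ℝ u y Complex.I) x)) x :=
      Complex.ofRealCLM.hasFDerivAt.comp x (hd Complex.I).hasFDerivAt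
    have e3 := e1.sub (e2.const_mul Complex.I)
    have e4 : (fun x => Complex.ofRealCLM (fderiv ℝ u x 1) -
        Complex.I * Complex.ofRealCLM (fderiv ℝ u x Complex.I)) =
        ((fun y => Complex.ofRealCLM (fderiv ℝ u y 1)) - fun y =>
          Complex.I * Complex.ofRealCLM (fderiv ℝ u y Complex.I)) := rfl
    rw [e4, e3.fderiv]
    rfl
  have hsymm : fderiv ℝ (fun y => fderiv ℝ u y 1) x Complex.I =
      fderiv ℝ (fun y => fderiv ℝ u y Complex.I) x 1 := by
    have h1 : ∀ e v : ℂ, fderiv ℝ (fun y => fderiv ℝ u y e) x v =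
        fderiv ℝ (fderiv ℝ u) x v e := by
      intro e v
      have h2 := hdf.hasFDerivAt.clm_apply (hasFDerivAt_const e x)
      rw [h2.fderiv]
      simp
    rw [h1, h1]
    have h2t : (2 : WithTop ℕ∞) ≤ ((⊤ : ℕ∞) : WithTop ℕ∞) := by
      have h2u : ((2 : ℕ∞) : WithTop ℕ∞) ≤ ((⊤ : ℕ∞) : WithTop ℕ∞) := WithTop.coe_le_coe.2 le_top
      exact h2u
    have h3 : ContDiffAt ℝ 2 u x := (hu.contDiffAt (hD.mem_nhds hx)).of_le h2t
    exact h3.isSymmSndFDerivAt (by simp) Complex.I 1
  unfold dbar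
  rw [hF, hF, hsymm]
  simp

private theorem gf2_fullre {D : Set ℂ} (hD : IsOpen D) (α β : ℂ → ℂ) :
    ∫ x in D, (conj (α x) * β x).re = ∫ x, (conj (D.indicator α x) * β x).re := by
  rw [← integral_indicator hD.measurableSet]
  congr 1
  funext x
  by_cases hx : x ∈ D
  · rw [indicator_of_mem hx, indicator_of_mem hx]
  · rw [indicator_of_notMem hx, indicator_of_notMem hx]
    simp

private theorem gf2_fullim {D : Set ℂ} (hD : IsOpen D) (α β : ℂ → ℂ) :
    ∫ x in D, (conj (α x) * β x).im = ∫ x, (conj (D.indicator α x) * β x).im := by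
  rw [← integral_indicator hD.measurableSet]
  congr 1
  funext x
  by_cases hx : x ∈ D
  · rw [indicator_of_mem hx, indicator_of_mem hx]
  · rw [indicator_of_notMem hx, indicator_of_notMem hx]
    simp

private theorem gf2_int {D : Set ℂ} (hD : IsOpen D) {α β : ℂ → ℂ}
    (h1 : MemLp (D.indicator α) 2 volume) (h2 : MemLp (D.indicator β) 2 volume) :
    IntegrableOn (fun x => (conj (α x) * β x).re) D := by
  have hc : MemLp (fun x => conj (D.indicator α x)) 2 volume := h1.star
  have h3 : Integrable (fun x => (conj (D.indicator α x) * D.indicator β x).re) := by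
    have : Integrable fun x => conj (D.indicator α x) * D.indicator β x := hc.integrable_mul h2
    exact this.re
  rw [← integrable_indicator_iff hD.measurableSet]
  refine h3.congr (Eventually.of_forall fun x => ?_)
  by_cases hx : x ∈ D
  · simp only [indicator_of_mem hx]
  · simp only [indicator_of_notMem hx]
    simp

/-- on `D` the gradient of the indicator of a function is the gradient of the function -/
private theorem gf2_gr_ind {D : Set ℂ} (hD : IsOpen D) (f : ℂ → ℝ) {x : ℂ} (hx : x ∈ D) :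
    gr (D.indicator f) x = gr f x := by
  apply gr_congr
  filter_upwards [hD.mem_nhds hx] with y hy
  rw [indicator_of_mem hy]

/-- The flux does not depend on the cut-off: `IsSol.weak` with `φ = χ - χ'` (`IsChi.sub_te`), which vanishes on the
support of `μ`, disjoint from the collar. -/
theorem flux_indep {D : Set ℂ} (hD : IsOpen D) {ρ : ℝ} (h0 : 0 < ρ) {F : ℂ → ℂ} (h : IsCollar D ρ F)
    {a b a' b' : ℝ} (ha : ρ < a) (hab : a < b) (hb : b < 1) (ha' : ρ < a') (hab' : a' < b') (hb' : b' < 1)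
    {χ χ' : ℂ → ℝ} (hχ : IsChi D ρ F a b χ) (hχ' : IsChi D ρ F a' b' χ') {μ u : ℂ → ℝ}
    (hu : IsSol D μ u) (hμ : Disjoint (tsupport μ) (F '' ring ρ)) : flux D u χ = flux D u χ' := by
  have hφ := hχ.sub_te hD h0 h ha hab hb ha' hab' hb' hχ'
  have hw := hu.weak hD hφ
  have hz : ∫ x in D, μ x * D.indicator (fun x => χ x - χ' x) x = 0 := by
    rw [setIntegral_congr_fun (g := fun _ => (0 : ℝ)) hD.measurableSet]
    · simp
    · intro x hx
      by_cases hxF : x ∈ F '' ring ρ
      · have : μ x = 0 := image_eq_zero_of_notMem_tsupport fun h' => disjoint_left.1 hμ h' hxF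
        simp only [this, zero_mul]
      · simp only [indicator_of_mem hx, hχ.off x hx hxF, hχ'.off x hx hxF, sub_zero, mul_zero]
  rw [hz, mul_zero] at hw
  have i1 := gf2_int hD hu.w.mγ ((hχ.te hD h0 h ha hab hb).memLp 2)
  have i2 := gf2_int hD hu.w.mγ ((hχ'.te hD h0 h ha' hab' hb').memLp 2)
  have e : ∫ x in D, (conj (gr u x) * gr (D.indicator fun x => χ x - χ' x) x).re =
      (∫ x in D, (conj (gr u x) * gr χ x).re) - ∫ x in D, (conj (gr u x) * gr χ' x).re := by
    rw [← integral_sub i1 i2]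
    apply setIntegral_congr_fun hD.measurableSet
    intro x hx
    simp only
    rw [gf2_gr_ind hD _ hx, gr_sub (gf2_diff hD hχ.smooth hx) (gf2_diff hD hχ'.smooth hx),
      mul_sub, Complex.sub_re]
  rw [e] at hw
  unfold flux
  rw [sub_eq_zero.1 hw]

/-- The other pairing is zero: `IsChi.curl` for the test functions approximating `u ∈ H¹₀(D)` (`IsW.pair` with
`β = i 1_D gr χ`, `m = 0`: `Re (conj (i α) γ) = Im (conj α γ)`). -/
theorem flux_im {D : Set ℂ} (hD : IsOpen D) {ρ : ℝ} (h0 : 0 < ρ) {F : ℂ → ℂ} (h : IsCollar D ρ F)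
    {a b : ℝ} (ha : ρ < a) (hab : a < b) (hb : b < 1) {χ : ℂ → ℝ} (hχ : IsChi D ρ F a b χ)
    {μ u : ℂ → ℝ} (hu : IsSol D μ u) : ∫ x in D, (conj (gr u x) * gr χ x).im = 0 := by
  have hm := (hχ.te hD h0 h ha hab hb).memLp 2
  have key := hu.w.pair (β := fun x => Complex.I * D.indicator (gr χ) x) (m := fun _ => (0 : ℝ))
    (hm.const_mul Complex.I) (by simp) ?_
  · simp only [zero_mul, integral_zero] at key
    have e1 : ∀ x, (conj (Complex.I * D.indicator (gr χ) x) * D.indicator (gr u) x).re =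
        -(conj (D.indicator (gr u) x) * gr χ x).im := by
      intro x
      by_cases hx : x ∈ D
      · rw [indicator_of_mem hx, indicator_of_mem hx]
        simp
        ring
      · rw [indicator_of_notMem hx, indicator_of_notMem hx]
        simp
    simp only [e1] at key
    rw [integral_neg, neg_eq_zero] at key
    rw [gf2_fullim hD]
    exact key
  · intro φ hφ
    simp only [zero_mul, integral_zero]
    have h1 := hχ.curl hD hφ
    rw [gf2_fullim hD] at h1
    rw [← h1]
    congr 1
    funext x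
    simp
    ring

/-- The sum of the fluxes is `∫ μ`: `IsSol.weak` with `φ = 1 - ∑ χ_j`. -/
theorem flux_sum {D : Set ℂ} (hD : IsOpen D) {n : ℕ} {ρ : ℝ} {F : Fin n → ℂ → ℂ}
    (hF : IsCols D n ρ F) {a b : ℝ} (ha : ρ < a) (hab : a < b) (hb : b < 1) {χ : Fin n → ℂ → ℝ}
    (hχ : ∀ j, IsChi D ρ (F j) a b (χ j)) {μ u : ℂ → ℝ} (hu : IsSol D μ u) (hμ : IsTe D μ)
    (hd : ∀ j, Disjoint (tsupport μ) (F j '' ring ρ)) : ∑ j, flux D u (χ j) = ∫ x, μ x := by
  have hφ := hF.one_sub_te hD ha hab hb hχ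
  have hw := hu.weak hD hφ
  have hz : ∫ x in D, μ x * D.indicator (fun x => 1 - ∑ j, χ j x) x = ∫ x, μ x := by
    rw [← integral_indicator hD.measurableSet]
    congr 1
    funext x
    by_cases hx : x ∈ D
    · rw [indicator_of_mem hx, indicator_of_mem hx]
      by_cases hx0 : μ x = 0
      · simp [hx0]
      · have h1 : ∀ j, χ j x = 0 := by
          intro j
          apply (hχ j).off x hx
          intro hxF
          exact disjoint_left.1 (hd j) (subset_tsupport _ hx0) hxF
        simp [h1]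
    · rw [indicator_of_notMem hx]
      symm
      by_contra h1
      exact hx (hμ.supp (subset_tsupport _ h1))
  rw [hz] at hw
  have i1 : ∀ j, IntegrableOn (fun x => (conj (gr u x) * gr (χ j) x).re) D := fun j =>
    gf2_int hD hu.w.mγ (((hχ j).te hD hF.h0 (hF.col j) ha hab hb).memLp 2)
  have hgr : ∀ x ∈ D, gr (D.indicator fun x => 1 - ∑ j, χ j x) x = -∑ j, gr (χ j) x := by
    intro x hx
    have hd' : ∀ j, DifferentiableAt ℝ (χ j) x := fun j => gf2_diff hD (hχ j).smooth hx
    rw [gf2_gr_ind hD _ hx]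
    have h1 : fderiv ℝ (fun x => 1 - ∑ j, χ j x) x = -∑ j, fderiv ℝ (χ j) x := by
      have h2 : HasFDerivAt (fun x => ∑ j, χ j x) (∑ j, fderiv ℝ (χ j) x) x :=
        HasFDerivAt.fun_sum fun j _ => (hd' j).hasFDerivAt
      exact (h2.const_sub 1).fderiv
    unfold gr
    rw [h1]
    apply Complex.ext
    · simp
    · simp
  have e : ∫ x in D, (conj (gr u x) * gr (D.indicator fun x => 1 - ∑ j, χ j x) x).re =
      -∑ j, ∫ x in D, (conj (gr u x) * gr (χ j) x).re := by
    rw [← integral_finsetSum _ fun j _ => i1 j, ← integral_neg]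
    apply setIntegral_congr_fun hD.measurableSet
    intro x hx
    simp only
    rw [hgr x hx, mul_neg, Complex.neg_re, Finset.mul_sum, Complex.re_sum]
  rw [e] at hw
  unfold flux
  rw [← Finset.mul_sum]
  have hpi : (2 * Real.pi) ≠ 0 := by positivity
  have h3 : ∑ j, ∫ x in D, (conj (gr u x) * gr (χ j) x).re = -(2 * Real.pi * ∫ x, μ x) := by
    linarith
  rw [h3]
  field_simp

/-- The harmonic part of a cut-off: `exists_harm` for `β = gr χ`. -/
theorem exists_hm {D : Set ℂ} (hD : IsOpen D) (hb : Bornology.IsBounded D) {ρ : ℝ} (h0 : 0 < ρ) {F : ℂ → ℂ}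
    (h : IsCollar D ρ F) {a b : ℝ} (ha : ρ < a) (hab : a < b) (hb : b < 1) {χ : ℂ → ℝ}
    (hχ : IsChi D ρ F a b χ) :
    ∃ (w : ℂ → ℝ), ContDiffOn ℝ ((⊤ : ℕ∞) : WithTop ℕ∞) w D ∧ (∀ x ∉ D, w x = 0) ∧
      DifferentiableOn ℂ (fun x => gr χ x - gr w x) D ∧ IsW D w (D.indicator (gr w)) ∧
      ∀ φ : ℂ → ℝ, IsTe D φ → ∫ x in D, (conj (gr χ x - gr w x) * gr φ x).re = 0 := by
  rename_i hbd
  obtain ⟨w, g, h1, h2, h3, h4, h5, h6⟩ := exists_harm hD hbd (β := gr χ)
    (gr_smoothOn hD hχ.smooth) (fun x hx => gf2_im hD hχ.smooth hx)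
    ((hχ.te hD h0 h ha hab hb).memLp 2)
  refine ⟨w, h1, h2, ?_, h5, h6⟩
  refine h3.congr fun x hx => ?_
  rw [h4 x hx]
  ring

/-- **Flux formula** `flux D u χ = -∫ μ w`: pair `gr χ - gr w` with `u ∈ H¹₀` (`IsW.pair`, `m = 0`) and `gr u` with
`w ∈ H¹₀` (`IsSol.weak`, `IsW.pair`, `m = 2π 1_D μ`). -/
theorem flux_eq {D : Set ℂ} (hD : IsOpen D) (hb : Bornology.IsBounded D) {ρ : ℝ} (h0 : 0 < ρ) {F : ℂ → ℂ}
    (h : IsCollar D ρ F) {a b : ℝ} (ha : ρ < a) (hab : a < b) (hb : b < 1) {χ : ℂ → ℝ}
    (hχ : IsChi D ρ F a b χ) {w : ℂ → ℝ} (hw : IsW D w (D.indicator (gr w)))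
    (hwχ : ∀ φ : ℂ → ℝ, IsTe D φ → ∫ x in D, (conj (gr χ x - gr w x) * gr φ x).re = 0)
    {μ u : ℂ → ℝ} (hu : IsSol D μ u) (hμ : IsTe D μ) : flux D u χ = -∫ x, μ x * w x := by
  have hχm := (hχ.te hD h0 h ha hab hb).memLp 2
  -- first pairing
  have p1 := hu.w.pair (β := fun x => D.indicator (gr χ) x - D.indicator (gr w) x)
    (m := fun _ => (0 : ℝ)) (hχm.sub hw.mγ) (by simp) ?_
  · simp only [zero_mul, integral_zero] at p1
    -- second pairing
    have p2 := hw.pair (β := D.indicator (gr u)) (m := fun x => 2 * Real.pi * μ x) hu.w.mγ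
      ((hμ.memLp 2).const_mul _) ?_
    · have i1 := gf2_int hD hχm hu.w.mγ
      have i2 := gf2_int hD hw.mγ hu.w.mγ
      have e1 : ∫ x, (conj (D.indicator (gr χ) x - D.indicator (gr w) x) *
          D.indicator (gr u) x).re =
          (∫ x in D, (conj (gr χ x) * gr u x).re) - ∫ x in D, (conj (gr w x) * gr u x).re := by
        rw [← integral_sub i1 i2, ← integral_indicator hD.measurableSet]
        congr 1
        funext x
        by_cases hx : x ∈ D
        · simp only [indicator_of_mem hx]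
          rw [map_sub, sub_mul, Complex.sub_re]
        · simp only [indicator_of_notMem hx]
          simp
      have e2 : ∫ x, (conj (D.indicator (gr u) x) * D.indicator (gr w) x).re =
          ∫ x in D, (conj (gr w x) * gr u x).re := by
        rw [← integral_indicator hD.measurableSet]
        congr 1
        funext x
        by_cases hx : x ∈ D
        · simp only [indicator_of_mem hx]
          simp
          ring
        · simp only [indicator_of_notMem hx]
          simp
      have e3 : ∫ x in D, (conj (gr u x) * gr χ x).re = ∫ x in D, (conj (gr χ x) * gr u x).re := by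
        congr 1
        funext x
        simp
        ring
      rw [e1] at p1
      rw [e2] at p2
      unfold flux
      rw [e3, sub_eq_zero.1 p1, p2]
      have hpi : (2 * Real.pi) ≠ 0 := by positivity
      have e4 : ∫ x, 2 * Real.pi * μ x * w x = 2 * Real.pi * ∫ x, μ x * w x := by
        rw [← integral_const_mul]
        congr 1
        funext x
        ring
      rw [e4]
      field_simp
    · intro φ hφ
      have h1 := hu.weak hD hφ
      rw [gf2_fullre hD] at h1
      rw [h1, ← integral_const_mul, ← integral_indicator hD.measurableSet]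
      congr 1
      funext x
      by_cases hx : x ∈ D
      · rw [indicator_of_mem hx]
        ring
      · rw [indicator_of_notMem hx]
        have : μ x = 0 := by
          by_contra h2
          exact hx (hμ.supp (subset_tsupport _ h2))
        rw [this]
        ring
  · intro φ hφ
    simp only [zero_mul, integral_zero]
    have h1 := hwχ φ hφ
    rw [gf2_fullre hD] at h1
    rw [← h1]
    congr 1
    funext x
    by_cases hx : x ∈ D
    · simp only [indicator_of_mem hx]
    · simp only [indicator_of_notMem hx]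
      simp

end Pool.Agent.Lib.MP_79abb3_an.PD
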