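import Pool.Agent.Lib.MP_79abb3_an.PD.GA2

/-!
Theorem D, block G, part G1: exactness of Cauchy transforms up to one pole.
-/

set_option autoImplicit false
set_option linter.unusedSectionVars false

open MeasureTheory Set Filter Topology Function
open scoped ENNReal ComplexConjugate

namespace Pool.Agent.Lib.MP_79abb3_an.PD

/-- Holomorphic logarithms of `(z - w)/(z - w')` on `C`. -/
def LogRel (C : Set ℂ) (w w' : ℂ) : Prop :=
  ∃ L : ℂ → ℂ, ∀ z ∈ C, HasDerivAt L ((z - w)⁻¹ - (z - w')⁻¹) z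

theorem LogRel.refl (C : Set ℂ) (w : ℂ) : LogRel C w w := by
  refine ⟨fun _ => 0, fun z _ => ?_⟩
  rw [sub_self]
  exact hasDerivAt_const z 0

theorem LogRel.symm {C : Set ℂ} {w w' : ℂ} (h : LogRel C w w') : LogRel C w' w := by
  obtain ⟨L, hL⟩ := h
  refine ⟨fun z => -L z, fun z hz => ?_⟩
  exact (hL z hz).neg.congr_deriv (by ring)

theorem LogRel.trans {C : Set ℂ} {w w' w'' : ℂ} (h : LogRel C w w') (h' : LogRel C w' w'') :
    LogRel C w w'' := by
  obtain ⟨L, hL⟩ := h
  obtain ⟨L', hL'⟩ := h'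
  refine ⟨fun z => L z + L' z, fun z hz => ?_⟩
  exact ((hL z hz).add (hL' z hz)).congr_deriv (by ring)

/-- the derivative of the local logarithm -/
private theorem gg1_log {z w w' : ℂ} (h1 : z ≠ w') (h : ‖w - w'‖ < ‖z - w'‖) :
    HasDerivAt (fun z => Complex.log (1 - (w - w') / (z - w'))) ((z - w)⁻¹ - (z - w')⁻¹) z := by
  have hz' : z - w' ≠ 0 := sub_ne_zero.2 h1
  have hn : 0 < ‖z - w'‖ := norm_pos_iff.2 hz'
  have hlt : ‖(w - w') / (z - w')‖ < 1 := by
    rw [norm_div, div_lt_one hn]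
    exact h
  have hz : z - w ≠ 0 := by
    intro h0
    have : z = w := sub_eq_zero.1 h0
    rw [this] at h
    exact lt_irrefl _ h
  have hslit : 1 - (w - w') / (z - w') ∈ Complex.slitPlane := by
    rw [sub_eq_add_neg]
    apply Complex.mem_slitPlane_of_norm_lt_one
    rwa [norm_neg]
  have h2 : HasDerivAt (fun z => (w - w') / (z - w')) (-(w - w') / (z - w') ^ 2) z := by
    have h3 : HasDerivAt (fun x : ℂ => x - w') 1 z := (hasDerivAt_id z).sub_const w'
    refine ((hasDerivAt_const z (w - w')).div h3 hz').congr_deriv ?_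
    simp only [zero_mul, mul_one, zero_sub]
  have h3 := (h2.const_sub 1).clog hslit
  refine h3.congr_deriv ?_
  have h4 : 1 - (w - w') / (z - w') = (z - w) / (z - w') := by
    field_simp
    ring
  rw [h4]
  field_simp
  ring

/-- Near points: `L z = log ((z - w)/(z - w')) = log (1 - (w - w')/(z - w'))` with the principal branch. -/
theorem LogRel.of_near {C : Set ℂ} {w w' : ℂ} {δ : ℝ} (hδ : ∀ z ∈ C, δ ≤ ‖z - w'‖) (h : ‖w - w'‖ < δ) :
    LogRel C w w' := by
  refine ⟨fun z => Complex.log (1 - (w - w') / (z - w')), fun z hz => ?_⟩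
  have h1 : ‖w - w'‖ < ‖z - w'‖ := h.trans_le (hδ z hz)
  have h2 : z ≠ w' := by
    rintro rfl
    rw [sub_self, norm_zero] at h1
    exact absurd h1 (not_lt.2 (norm_nonneg _))
  exact gg1_log h2 h1

/-- points off the closure have a positive distance -/
private theorem gg1_dist {C : Set ℂ} {w : ℂ} (h : w ∉ closure C) :
    ∃ δ : ℝ, 0 < δ ∧ ∀ z ∈ C, δ ≤ ‖z - w‖ := by
  obtain ⟨δ, h0, hδ⟩ := Metric.isOpen_iff.1 isClosed_closure.isOpen_compl w h
  refine ⟨δ, h0, fun z hz => ?_⟩
  by_contra hlt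
  have h1 : z ∈ Metric.ball w δ := by
    rw [Metric.mem_ball, dist_eq_norm]
    exact not_le.1 hlt
  exact hδ h1 (subset_closure hz)

/-- All points of a connected set `A` disjoint from the closure of `C` are related. -/
theorem LogRel.of_conn {C A : Set ℂ} (hA : IsPreconnected A) (hAC : Disjoint A (closure C)) {w w' : ℂ}
    (hw : w ∈ A) (hw' : w' ∈ A) : LogRel C w w' := by
  apply hA.induction₂ (LogRel C) ?_ (fun x y z _ _ _ h h' => h.trans h')
    (fun x y _ _ h => h.symm) hw hw'
  intro x hx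
  obtain ⟨δ, h0, hδ⟩ := gg1_dist (disjoint_left.1 hAC hx)
  have h1 : ∀ᶠ y in 𝓝 x, LogRel C x y := by
    filter_upwards [Metric.ball_mem_nhds x h0] with y hy
    rw [Metric.mem_ball, dist_eq_norm] at hy
    exact (LogRel.of_near hδ hy).symm
  exact h1.filter_mono nhdsWithin_le_nhds

/-- `f` integrable is good for `(C, a)` if its Cauchy integral is `(∫ f)/(z - a)` plus a derivative. -/
def ExAt (C : Set ℂ) (a : ℂ) (f : ℂ → ℂ) : Prop :=
  ∃ Q : ℂ → ℂ, ∀ z ∈ C, HasDerivAt Q ((∫ w, f w / (z - w)) - (∫ w, f w) / (z - a)) z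

/-- Functions supported near a point `w₀ ∉ closure C`: `Q z = ∫ f w · log ((z - w)/(z - w₀)) dw` has the derivative
`∫ f w ((z-w)⁻¹ - (z-w₀)⁻¹)` (principal branch, differentiation under the integral sign;
`|w - w₀| ≤ δ/2`, `|z - w₀| ≥ δ`), and `LogRel C w₀ a`. -/
theorem ExAt.of_near {C : Set ℂ} {a w₀ : ℂ} {δ : ℝ} (h0 : 0 < δ) (hδ : ∀ z ∈ C, δ ≤ ‖z - w₀‖)
    (ha : LogRel C w₀ a) {f : ℂ → ℂ} (hf : Integrable f)
    (hs : ∀ w, w ∉ Metric.ball w₀ (δ / 2) → f w = 0) : ExAt C a f := by
  obtain ⟨L, hL⟩ := ha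
  refine ⟨fun z => (∫ w, f w * Complex.log (1 - (w - w₀) / (z - w₀))) + (∫ w, f w) * L z,
    fun z₀ hz₀ => ?_⟩
  have hd0 := hδ z₀ hz₀
  -- bounds near `z₀`
  have hnear : ∀ z ∈ Metric.ball z₀ (δ / 4), 3 * δ / 4 ≤ ‖z - w₀‖ := by
    intro z hz
    rw [Metric.mem_ball, dist_eq_norm] at hz
    have h1 : ‖z₀ - w₀‖ ≤ ‖z - w₀‖ + ‖z - z₀‖ := by
      have := norm_sub_le (z - w₀) (z - z₀)
      have e : z - w₀ - (z - z₀) = z₀ - w₀ := by ring
      rwa [e] at this
    linarith
  have hnear2 : ∀ z ∈ Metric.ball z₀ (δ / 4), ∀ w ∈ Metric.ball w₀ (δ / 2), δ / 4 ≤ ‖z - w‖ := by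
    intro z hz w hw
    have h1 := hnear z hz
    rw [Metric.mem_ball, dist_eq_norm] at hw
    have h2 : ‖z - w₀‖ ≤ ‖z - w‖ + ‖w - w₀‖ := by
      have := norm_add_le (z - w) (w - w₀)
      rwa [sub_add_sub_cancel] at this
    linarith
  have hmeas : ∀ z : ℂ, AEStronglyMeasurable
      (fun w => f w * Complex.log (1 - (w - w₀) / (z - w₀))) volume := by
    intro z
    apply hf.aestronglyMeasurable.mul
    apply Measurable.aestronglyMeasurable
    exact Complex.measurable_log.comp
      (measurable_const.sub ((measurable_id.sub measurable_const).div_const _))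
  have hmeas' : AEStronglyMeasurable (fun w => f w * ((z₀ - w)⁻¹ - (z₀ - w₀)⁻¹)) volume := by
    apply hf.aestronglyMeasurable.mul
    apply Measurable.aestronglyMeasurable
    exact (measurable_const.sub measurable_id).inv.sub measurable_const
  have hint : Integrable (fun w => f w * Complex.log (1 - (w - w₀) / (z₀ - w₀))) := by
    refine Integrable.mono' (hf.norm.const_mul 2) (hmeas z₀) (Eventually.of_forall fun w => ?_)
    by_cases hw : w ∈ Metric.ball w₀ (δ / 2)
    · have h1 : ‖-((w - w₀) / (z₀ - w₀))‖ ≤ 1 / 2 := by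
        rw [Metric.mem_ball, dist_eq_norm] at hw
        rw [norm_neg, norm_div, div_le_iff₀ (by linarith)]
        linarith
      have h2 := Complex.norm_log_one_add_half_le_self h1
      rw [sub_eq_add_neg, norm_mul, mul_comm]
      apply mul_le_mul_of_nonneg_right _ (norm_nonneg _)
      linarith
    · rw [hs w hw]
      simp
  have key := hasDerivAt_integral_of_dominated_loc_of_deriv_le
    (μ := (volume : Measure ℂ))
    (F := fun z w => f w * Complex.log (1 - (w - w₀) / (z - w₀)))
    (F' := fun z w => f w * ((z - w)⁻¹ - (z - w₀)⁻¹)) (x₀ := z₀)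
    (s := Metric.ball z₀ (δ / 4)) (bound := fun w => (4 / δ + 4 / δ) * ‖f w‖)
    (Metric.ball_mem_nhds _ (by positivity)) (Eventually.of_forall hmeas) hint hmeas' ?_
    (hf.norm.const_mul _) ?_
  · have hI1 : Integrable (fun w => f w / (z₀ - w)) := by
      have hm : AEStronglyMeasurable (fun w => f w / (z₀ - w)) volume := by
        simp only [div_eq_mul_inv]
        exact hf.aestronglyMeasurable.mul
          (measurable_const.sub measurable_id).inv.aestronglyMeasurable
      refine Integrable.mono' (hf.norm.const_mul (4 / δ)) hm (Eventually.of_forall fun w => ?_)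
      by_cases hw : w ∈ Metric.ball w₀ (δ / 2)
      · have h1 := hnear2 z₀ (Metric.mem_ball_self (by positivity)) w hw
        rw [norm_div, div_eq_mul_inv, mul_comm]
        apply mul_le_mul_of_nonneg_right _ (norm_nonneg _)
        have h2 := inv_anti₀ (by positivity) h1
        rwa [inv_div] at h2
      · rw [hs w hw]
        simp
    have h1 := key.2.add ((hL z₀ hz₀).const_mul (∫ w, f w))
    refine h1.congr_deriv ?_
    have e1 : ∫ w, f w * ((z₀ - w)⁻¹ - (z₀ - w₀)⁻¹) =
        (∫ w, f w / (z₀ - w)) - (∫ w, f w) * (z₀ - w₀)⁻¹ := by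
      rw [← integral_mul_const, ← integral_sub hI1 (hf.mul_const _)]
      refine integral_congr_ae (Eventually.of_forall fun w => ?_)
      simp only
      ring
    rw [e1]
    ring
  · refine Eventually.of_forall fun w z hz => ?_
    by_cases hw : w ∈ Metric.ball w₀ (δ / 2)
    · rw [norm_mul, mul_comm]
      apply mul_le_mul_of_nonneg_right _ (norm_nonneg _)
      refine (norm_sub_le _ _).trans (add_le_add ?_ ?_)
      · rw [norm_inv]
        have h2 := inv_anti₀ (by positivity) (hnear2 z hz w hw)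
        rwa [inv_div] at h2
      · rw [norm_inv]
        have h1 := hnear z hz
        have h2 := inv_anti₀ (by positivity : (0:ℝ) < δ / 4) (by linarith : δ / 4 ≤ ‖z - w₀‖)
        rwa [inv_div] at h2
    · simp only [hs w hw, zero_mul, norm_zero, mul_zero, le_refl]
  · refine Eventually.of_forall fun w z hz => ?_
    by_cases hw : w ∈ Metric.ball w₀ (δ / 2)
    · have h1 := hnear z hz
      rw [Metric.mem_ball, dist_eq_norm] at hw
      have h2 : ‖w - w₀‖ < ‖z - w₀‖ := by linarith
      have h3 : z ≠ w₀ := by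
        rintro rfl
        rw [sub_self, norm_zero] at h1
        linarith
      exact (gg1_log h3 h2).const_mul (f w)
    · simp only [hs w hw, zero_mul]
      exact hasDerivAt_const _ _

/-- sums of good functions -/
private theorem gg1_add {C T T' : Set ℂ} {a : ℂ} {c c' : ℝ} (hc : 0 < c) (hc' : 0 < c')
    (hT : ∀ z ∈ C, ∀ w ∈ T, c ≤ ‖z - w‖) (hT' : ∀ z ∈ C, ∀ w ∈ T', c' ≤ ‖z - w‖)
    {f f' : ℂ → ℂ} (hf : Integrable f) (hf' : Integrable f') (h0 : ∀ w ∉ T, f w = 0)
    (h0' : ∀ w ∉ T', f' w = 0) (h : ExAt C a f) (h' : ExAt C a f') :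
    ExAt C a (fun w => f w + f' w) := by
  obtain ⟨Q, hQ⟩ := h
  obtain ⟨Q', hQ'⟩ := h'
  have hI : ∀ {T : Set ℂ} {c : ℝ} {f : ℂ → ℂ}, 0 < c → (∀ z ∈ C, ∀ w ∈ T, c ≤ ‖z - w‖) →
      Integrable f → (∀ w ∉ T, f w = 0) → ∀ z ∈ C, Integrable (fun w => f w / (z - w)) := by
    intro T c f hc hT hf h0 z hz
    have hm : AEStronglyMeasurable (fun w => f w / (z - w)) volume := by
      simp only [div_eq_mul_inv]
      exact hf.aestronglyMeasurable.mul
        (measurable_const.sub measurable_id).inv.aestronglyMeasurable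
    refine Integrable.mono' (hf.norm.const_mul c⁻¹) hm (Eventually.of_forall fun w => ?_)
    by_cases hw : w ∈ T
    · rw [norm_div, div_eq_mul_inv, mul_comm]
      exact mul_le_mul_of_nonneg_right (inv_anti₀ hc (hT z hz w hw)) (norm_nonneg _)
    · rw [h0 w hw]
      simp
  refine ⟨fun z => Q z + Q' z, fun z hz => ((hQ z hz).add (hQ' z hz)).congr_deriv ?_⟩
  have e1 : ∫ w, (f w + f' w) / (z - w) = (∫ w, f w / (z - w)) + ∫ w, f' w / (z - w) := by
    rw [← integral_add (hI hc hT hf h0 z hz) (hI hc' hT' hf' h0' z hz)]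
    refine integral_congr_ae (Eventually.of_forall fun w => ?_)
    simp only
    ring
  rw [e1, integral_add hf hf']
  ring

/-- **Exactness.** Compact induction (`IsCompact.induction_on`) over the compact set `S ⊆ A`: the property of `S` is
that there is a measurable (Borel) set `T ⊇ S` such that every integrable `f` vanishing off `T` is good. -/
theorem ExAt.of_compact {C A : Set ℂ} (hA : IsPreconnected A) (hAC : Disjoint A (closure C))
    {S : Set ℂ} (hS : IsCompact S) (hSA : S ⊆ A) {a : ℂ} (ha : a ∈ A) {f : ℂ → ℂ} (hf : Integrable f)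
    (hs : ∀ w, w ∉ S → f w = 0) : ExAt C a f := by
  have hind : ∃ T : Set ℂ, MeasurableSet T ∧ S ⊆ T ∧
      (∃ c : ℝ, 0 < c ∧ ∀ z ∈ C, ∀ w ∈ T, c ≤ ‖z - w‖) ∧
      ∀ f : ℂ → ℂ, Integrable f → (∀ w ∉ T, f w = 0) → ExAt C a f := by
    refine hS.induction_on (p := fun S => ∃ T : Set ℂ, MeasurableSet T ∧ S ⊆ T ∧
      (∃ c : ℝ, 0 < c ∧ ∀ z ∈ C, ∀ w ∈ T, c ≤ ‖z - w‖) ∧
      ∀ f : ℂ → ℂ, Integrable f → (∀ w ∉ T, f w = 0) → ExAt C a f) ?_ ?_ ?_ ?_
    · refine ⟨∅, MeasurableSet.empty, subset_rfl, ⟨1, one_pos, fun z _ w hw => absurd hw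
        (notMem_empty w)⟩, fun f _ h0 => ?_⟩
      have hf0 : f = fun _ => 0 := by
        funext w
        exact h0 w (notMem_empty w)
      rw [hf0]
      refine ⟨fun _ => 0, fun z _ => ?_⟩
      simp only [zero_div, integral_zero, sub_self]
      exact hasDerivAt_const z 0
    · rintro S S' hSS ⟨T, h1, h2, h3, h4⟩
      exact ⟨T, h1, hSS.trans h2, h3, h4⟩
    · rintro S S' ⟨T, h1, h2, ⟨c, hc, h3⟩, h4⟩ ⟨T', h1', h2', ⟨c', hc', h3'⟩, h4'⟩
      refine ⟨T ∪ T', h1.union h1', union_subset_union h2 h2', ⟨min c c', lt_min hc hc', ?_⟩, ?_⟩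
      · rintro z hz w (hw | hw)
        · exact (min_le_left _ _).trans (h3 z hz w hw)
        · exact (min_le_right _ _).trans (h3' z hz w hw)
      · intro f hf h0
        have i1 : Integrable (T.indicator f) := hf.indicator h1
        have i2 : Integrable ((T' \ T).indicator f) := hf.indicator (h1'.diff h1)
        have z1 : ∀ w ∉ T, T.indicator f w = 0 := fun w hw => indicator_of_notMem hw f
        have z2 : ∀ w ∉ T', (T' \ T).indicator f w = 0 := fun w hw =>
          indicator_of_notMem (fun h => hw h.1) f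
        have h5 := gg1_add hc hc' h3 h3' i1 i2 z1 z2 (h4 _ i1 z1) (h4' _ i2 z2)
        have e : f = fun w => T.indicator f w + (T' \ T).indicator f w := by
          funext w
          by_cases hw : w ∈ T
          · rw [indicator_of_mem hw, indicator_of_notMem (fun h => h.2 hw), add_zero]
          · by_cases hw' : w ∈ T'
            · rw [indicator_of_notMem hw, indicator_of_mem (show w ∈ T' \ T from ⟨hw', hw⟩),
                zero_add]
            · rw [indicator_of_notMem hw, indicator_of_notMem (fun h => hw' h.1), add_zero]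
              exact h0 w (fun h => h.elim hw hw')
        rw [e]
        exact h5
    · intro x hx
      obtain ⟨δ, hδ0, hδ⟩ := gg1_dist (disjoint_left.1 hAC (hSA hx))
      have hball : Metric.ball x (δ / 2) ∈ 𝓝 x := Metric.ball_mem_nhds x (by positivity)
      refine ⟨Metric.ball x (δ / 2), mem_nhdsWithin_of_mem_nhds hball, Metric.ball x (δ / 2),
        measurableSet_ball, subset_rfl, ⟨δ / 2, by positivity, ?_⟩, ?_⟩
      · intro z hz w hw
        rw [Metric.mem_ball, dist_eq_norm] at hw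
        have h1 := hδ z hz
        have h2 : ‖z - x‖ ≤ ‖z - w‖ + ‖w - x‖ := by
          have := norm_add_le (z - w) (w - x)
          rwa [sub_add_sub_cancel] at this
        linarith
      · intro f hf h0
        exact ExAt.of_near hδ0 hδ (LogRel.of_conn hA hAC (hSA hx) ha) hf h0
  obtain ⟨T, -, hST, -, h4⟩ := hind
  exact h4 f hf fun w hw => hs w fun h => hw (hST h)

end Pool.Agent.Lib.MP_79abb3_an.PD
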