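import Pool.Agent.Lib.MP_79abb3_an.PD.GG1
import Pool.Agent.Lib.MP_79abb3_an.PD.GF2

/-!
Theorem D, block G, part G2: the holomorphic function E on the cores.
-/

set_option autoImplicit false
set_option linter.unusedSectionVars false

open MeasureTheory Set Filter Topology Function
open scoped ENNReal ComplexConjugate

namespace Pool.Agent.Lib.MP_79abb3_an.PD

open Pool.Agent.Lib.MP_79abb3_an.SC

private theorem gg2_dist {D : Set ℂ} {φ : ℂ → ℝ} (h : IsTe D φ) (x : ℂ) : DifferentiableAt ℝ φ x :=
  h.smooth.differentiable (by simp) x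

private theorem gg2_const (c : ℝ) (w : ℂ) : gr (fun _ : ℂ => c) w = 0 := by
  unfold gr
  rw [fderiv_fun_const]
  simp only [Pi.zero_apply, zero_apply, neg_zero]
  rfl

/-- integrability of the Cauchy kernel against a continuous function with compact support -/
private theorem gg2_int {f : ℂ → ℂ} (hf : Continuous f) (hc : HasCompactSupport f) (z : ℂ) :
    Integrable (fun w => f w / (z - w)) := by
  have h := hc.convolutionExists_right (ContinuousLinearMap.mul ℝ ℂ) inv_locInt hf z
  have h1 : Integrable (fun w => f (z - w) * w⁻¹) := by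
    refine h.congr (Eventually.of_forall fun w => ?_)
    simp only [ContinuousLinearMap.mul_apply']
    ring
  have h2 := h1.comp_sub_left z
  refine h2.congr (Eventually.of_forall fun w => ?_)
  simp only [sub_sub_cancel, div_eq_mul_inv]

/-- products with functions with compact support in an open set -/
private theorem gg2_cont {X : Set ℂ} (hX : IsOpen X) {g G : ℂ → ℂ} (hg : ContinuousOn g X)
    (hG : Continuous G) (hGX : tsupport G ⊆ X) (c : ℂ) :
    Continuous (fun w => c * (g w * conj (G w))) := by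
  rw [continuous_iff_continuousAt]
  intro y
  by_cases hy : y ∈ X
  · have h1 : ContinuousAt g y := hg.continuousAt (hX.mem_nhds hy)
    have h2 : ContinuousAt (fun w => conj (G w)) y := (Complex.continuous_conj.comp hG).continuousAt
    exact continuousAt_const.mul (h1.mul h2)
  · have h1 : G =ᶠ[𝓝 y] 0 := notMem_tsupport_iff_eventuallyEq.1 fun h => hy (hGX h)
    have h2 : (fun w => c * (g w * conj (G w))) =ᶠ[𝓝 y] fun _ => 0 := by
      filter_upwards [h1] with w hw
      rw [hw]
      simp
    exact (continuousAt_congr h2).2 continuousAt_const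

private theorem gg2_cpt {g G : ℂ → ℂ} (hG : HasCompactSupport G) (c : ℂ) :
    HasCompactSupport (fun w => c * (g w * conj (G w))) := by
  refine hG.mono fun w hw => ?_
  rw [mem_support] at hw ⊢
  intro h0
  apply hw
  rw [h0]
  simp

/-- support of the gradient of a collar cut-off -/
private theorem gg2_supp_j {D : Set ℂ} {χ : ℂ → ℝ} {x : ℂ} {s t' : ℝ}
    (h : IsTe D (D.indicator (gr χ))) (hbD : Metric.closedBall x t' ⊆ D)
    (h0 : ∀ y ∈ Metric.ball x t', χ y = 0) (hs : Metric.closedBall x s ⊆ Metric.ball x t') :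
    tsupport (D.indicator (gr χ)) ⊆ D \ Metric.closedBall x s := by
  intro y hy
  refine ⟨h.supp hy, fun hys => ?_⟩
  have h3 : D.indicator (gr χ) =ᶠ[𝓝 y] 0 := by
    filter_upwards [Metric.isOpen_ball.mem_nhds (hs hys)] with w hw
    rw [indicator_of_mem (hbD (Metric.ball_subset_closedBall hw)), Pi.zero_apply]
    have h6 : χ =ᶠ[𝓝 w] fun _ => 0 := by
      filter_upwards [Metric.isOpen_ball.mem_nhds hw] with v hv
      exact h0 v hv
    rw [gr_congr h6]
    exact gg2_const 0 w
  exact notMem_tsupport_iff_eventuallyEq.2 h3 hy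

/-- support of the gradient of the cut-off of the ball -/
private theorem gg2_supp_B {D : Set ℂ} {χB : ℂ → ℝ} {x : ℂ} {s t : ℝ}
    (hB : IsTe (Metric.ball x t) χB) (hball : Metric.ball x t ⊆ D)
    (hB1 : ∀ y ∈ Metric.closedBall x s, χB =ᶠ[𝓝 y] fun _ => 1) :
    tsupport (gr χB) ⊆ D \ Metric.closedBall x s := by
  intro y hy
  refine ⟨hball (hB.gr.supp hy), fun hys => ?_⟩
  have h3 : gr χB =ᶠ[𝓝 y] 0 := by
    filter_upwards [(hB1 y hys).eventuallyEq_nhds] with w hw
    rw [gr_congr hw, Pi.zero_apply]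
    exact gg2_const 1 w
  exact notMem_tsupport_iff_eventuallyEq.2 h3 hy

private theorem gg2_ind {D : Set ℂ} {g G : ℂ → ℂ} {c : ℂ} (w : ℂ) :
    D.indicator (fun w => c * (g w * conj (G w))) w = c * (g w * conj (D.indicator G w)) := by
  by_cases hw : w ∈ D
  · simp only [indicator_of_mem hw]
  · simp only [indicator_of_notMem hw, map_zero, mul_zero]

/-- Representation on the core: for `g = gr u` holomorphic on `X = D \ closedBall x s`, `η = 1_D (1 - ∑ χ_j) - χ_B` is a
test function of `X` (`χ_B` a test function of `ball x t`, equal to `1` near `closedBall x s`), `η = 1` on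
`core D F a x t`, so `g = CT (dbar (η g)) = CT (g dbar η)` there (`CT_dbar`, `dbar_mul`), i.e.
`g(z) = -∑_j (2π)⁻¹ ∫ g conj (gr χ_j)/(z-w) dw - (2π)⁻¹ ∫ g conj (gr χ_B)/(z-w) dw` (`dbar_ofReal`). -/
theorem core_repr {D : Set ℂ} (hD : IsOpen D) {n : ℕ} {ρ : ℝ} {F : Fin n → ℂ → ℂ} (hF : IsCols D n ρ F)
    {a b : ℝ} (ha : ρ < a) (hab : a < b) (hb : b < 1) {χ : Fin n → ℂ → ℝ}
    (hχ : ∀ j, IsChi D ρ (F j) a b (χ j)) {x : ℂ} {s t t' : ℝ} (hs : 0 < s) (hst : s < t) (htt : t < t')
    (hbD : Metric.closedBall x t' ⊆ D) (hd : ∀ j, Disjoint (Metric.closedBall x t') (F j '' ring ρ))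
    {χB : ℂ → ℝ} (hB : IsTe (Metric.ball x t) χB) (hB1 : ∀ y ∈ Metric.closedBall x s, χB =ᶠ[𝓝 y] fun _ => 1)
    {g : ℂ → ℂ} (hg : DifferentiableOn ℂ g (D \ Metric.closedBall x s)) :
    ∀ z ∈ core D F a x t, g z =
      (∑ j, ∫ w, D.indicator (fun w => -(2 * Real.pi : ℂ)⁻¹ * (g w * conj (gr (χ j) w))) w / (z - w)) +
      ∫ w, (-(2 * Real.pi : ℂ)⁻¹ * (g w * conj (gr χB w))) / (z - w) := by
  classical
  intro z hz
  have ht0 : 0 < t := hs.trans hst
  have hXo : IsOpen (D \ Metric.closedBall x s) := hD.sdiff Metric.isClosed_closedBall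
  set X : Set ℂ := D \ Metric.closedBall x s with hX
  have hball : Metric.ball x t ⊆ D :=
    (Metric.ball_subset_ball htt.le).trans (Metric.ball_subset_closedBall.trans hbD)
  have hBD : IsTe D χB := hB.mono hball
  -- the collar cut-offs vanish on the ball
  have hχball : ∀ j, ∀ y ∈ Metric.ball x t', χ j y = 0 := by
    intro j y hy
    have hy' := Metric.ball_subset_closedBall hy
    exact (hχ j).off y (hbD hy') fun h => disjoint_left.1 (hd j) hy' h
  have hsball : Metric.closedBall x s ⊆ Metric.ball x t' :=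
    Metric.closedBall_subset_ball (hst.trans htt)
  -- the cut-off
  have h1 : IsTe D (D.indicator fun y => 1 - ∑ j, χ j y) := hF.one_sub_te hD ha hab hb hχ
  have h2 : IsTe D (fun y => D.indicator (fun y => 1 - ∑ j, χ j y) y - χB y) := h1.sub hBD
  set η : ℂ → ℝ := fun y => D.indicator (fun y => 1 - ∑ j, χ j y) y - χB y with hη
  have hηX : tsupport η ⊆ X := by
    intro y hy
    refine ⟨h2.supp hy, fun hys => ?_⟩
    have h3 : η =ᶠ[𝓝 y] 0 := by
      filter_upwards [hB1 y hys, Metric.isOpen_ball.mem_nhds (hsball hys)] with w hw1 hw2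
      have hwD : w ∈ D := hbD (Metric.ball_subset_closedBall hw2)
      simp only [hη, indicator_of_mem hwD, hw1, Pi.zero_apply]
      rw [Finset.sum_eq_zero fun j _ => hχball j w hw2]
      ring
    exact notMem_tsupport_iff_eventuallyEq.2 h3 hy
  have hgc : ContinuousOn g X := hg.continuousOn
  -- the test function `η g`
  set φ : ℂ → ℂ := fun w => ((η w : ℝ) : ℂ) * g w with hφ
  have hφ0 : ∀ y ∉ X, φ =ᶠ[𝓝 y] 0 := by
    intro y hy
    have h3 : η =ᶠ[𝓝 y] 0 := notMem_tsupport_iff_eventuallyEq.1 fun h => hy (hηX h)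
    filter_upwards [h3] with w hw
    simp only [hφ, hw, Pi.zero_apply, Complex.ofReal_zero, zero_mul]
  have hηsm : ContDiff ℝ 1 (fun w => ((η w : ℝ) : ℂ)) :=
    (Complex.ofRealCLM.contDiff.comp h2.smooth).of_le (by simp)
  have hφs : ContDiff ℝ 1 φ := by
    rw [contDiff_iff_contDiffAt]
    intro y
    by_cases hy : y ∈ X
    · have h3 : ContDiffAt ℂ 1 g y := (hg.contDiffOn hXo).contDiffAt (hXo.mem_nhds hy)
      exact hηsm.contDiffAt.mul (h3.restrict_scalars ℝ)
    · exact contDiffAt_const.congr_of_eventuallyEq (hφ0 y hy)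
  have hφc : HasCompactSupport φ := by
    refine h2.cpt.mono fun w hw => ?_
    rw [mem_support] at hw ⊢
    intro h0
    apply hw
    simp only [hφ]
    rw [h0]
    simp
  have hCT := CT_dbar hφs hφc z
  -- the value at `z`
  have hzD : z ∈ D := hz.1.1
  have hχz : ∀ j, χ j z = 0 := by
    intro j
    by_cases hzr : z ∈ F j '' ring ρ
    · obtain ⟨ξ, hξ, hξz⟩ := hzr
      rw [← hξz, (hχ j).val ξ hξ]
      apply prof_zero hab
      by_contra hcon
      apply hz.1.2
      rw [mem_iUnion]
      exact ⟨j, ξ, ⟨(not_le.1 hcon).le, hξ.2⟩, hξz⟩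
    · exact (hχ j).off z hzD hzr
  have hBz : χB z = 0 := image_eq_zero_of_notMem_tsupport fun h =>
    hz.2 (Metric.ball_subset_closedBall (hB.supp h))
  have hφz : φ z = g z := by
    simp only [hφ, hη, indicator_of_mem hzD, hBz]
    rw [Finset.sum_eq_zero fun j _ => hχz j]
    simp
  rw [hφz] at hCT
  -- the derivative
  have hdiffχ : ∀ j, ∀ w ∈ D, DifferentiableAt ℝ (χ j) w := fun j w hw =>
    ((hχ j).smooth.contDiffAt (hD.mem_nhds hw)).differentiableAt (by simp)
  have hgrη : ∀ w ∈ D, gr η w = -(∑ j, gr (χ j) w) - gr χB w := by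
    intro w hw
    have h3 : η =ᶠ[𝓝 w] fun y => (1 - ∑ j, χ j y) - χB y := by
      filter_upwards [hD.mem_nhds hw] with y hy
      simp only [hη, indicator_of_mem hy]
    have h4 : DifferentiableAt ℝ (fun y => ∑ j, χ j y) w :=
      DifferentiableAt.fun_sum fun j _ => hdiffχ j w hw
    have h5 : gr (fun y => ∑ j, χ j y) w = ∑ j, gr (χ j) w := by
      have e : fderiv ℝ (fun y => ∑ j, χ j y) w = ∑ j, fderiv ℝ (χ j) w :=
        fderiv_fun_sum fun j _ => hdiffχ j w hw
      apply Complex.ext
      · rw [Complex.re_sum]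
        simp only [gr, e, sum_apply]
      · rw [Complex.im_sum]
        simp only [gr, e, sum_apply, Finset.sum_neg_distrib]
    have h6 : gr (fun _ : ℂ => (1 : ℝ)) w = 0 := gg2_const 1 w
    have h7 : DifferentiableAt ℝ (fun y => 1 - ∑ j, χ j y) w :=
      (differentiableAt_const (1 : ℝ)).fun_sub h4
    have h8 : gr (fun y => 1 - ∑ j, χ j y) w = gr (fun _ : ℂ => (1 : ℝ)) w -
        gr (fun y => ∑ j, χ j y) w := gr_sub (differentiableAt_const (1 : ℝ)) h4
    rw [gr_congr h3, gr_sub h7 (gg2_dist hB w), h8, h5, h6, zero_sub]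
  have hgrB0 : ∀ w ∉ D, gr χB w = 0 := fun w hw =>
    image_eq_zero_of_notMem_tsupport fun h => hw (hball (hB.gr.supp h))
  have hdb : ∀ w, dbar φ w = (∑ j, D.indicator
      (fun w => -(1 / 2 : ℂ) * (g w * conj (gr (χ j) w))) w) +
      -(1 / 2 : ℂ) * (g w * conj (gr χB w)) := by
    intro w
    by_cases hw : w ∈ X
    · have hwD : w ∈ D := hw.1
      have h3 : DifferentiableAt ℂ g w := hg.differentiableAt (hXo.mem_nhds hw)
      have h4 : DifferentiableAt ℝ (fun w => ((η w : ℝ) : ℂ)) w :=
        hηsm.differentiable (by simp) w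
      have h5 : dbar φ w = dbar (fun w => ((η w : ℝ) : ℂ)) w * g w + ((η w : ℝ) : ℂ) * dbar g w :=
        dbar_mul h4 (h3.restrictScalars ℝ)
      rw [h5, dbar_of_differentiableAt h3, dbar_ofReal (gg2_dist h2 w), hgrη w hwD]
      simp only [indicator_of_mem hwD, map_sub, map_neg, map_sum]
      rw [← Finset.mul_sum, ← Finset.mul_sum]
      ring
    · have h3 : dbar φ w = 0 := by
        have h4 : fderiv ℝ φ w = 0 := by
          rw [(hφ0 w hw).fderiv_eq]
          exact fderiv_const_apply 0
        rw [dbar, h4]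
        simp
      rw [h3]
      by_cases hwD : w ∈ D
      · have hws : w ∈ Metric.closedBall x s := by
          by_contra hcon
          exact hw ⟨hwD, hcon⟩
        have h4 : gr χB w = 0 := by
          rw [gr_congr (hB1 w hws)]
          exact gg2_const 1 w
        have h5 : ∀ j, gr (χ j) w = 0 := by
          intro j
          have h6 : χ j =ᶠ[𝓝 w] fun _ => 0 := by
            filter_upwards [Metric.isOpen_ball.mem_nhds (hsball hws)] with y hy
            exact hχball j y hy
          rw [gr_congr h6]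
          exact gg2_const 0 w
        simp [h4, h5, indicator_of_mem hwD]
      · simp [hgrB0 w hwD, indicator_of_notMem hwD]
  -- supports of the gradients
  have hGte : ∀ j, IsTe D (D.indicator (gr (χ j))) := fun j =>
    (hχ j).te hD hF.h0 (hF.col j) ha hab hb
  have hGX : ∀ j, tsupport (D.indicator (gr (χ j))) ⊆ X := fun j =>
    gg2_supp_j (hGte j) hbD (hχball j) hsball
  have hBX : tsupport (gr χB) ⊆ X := gg2_supp_B hB hball hB1
  -- integrability of the pieces
  have hIj : ∀ j, Integrable (fun w => D.indicator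
      (fun w => -(1 / 2 : ℂ) * (g w * conj (gr (χ j) w))) w / (z - w)) := by
    intro j
    have h3 := gg2_int (gg2_cont hXo hgc (hGte j).smooth.continuous (hGX j) (-(1 / 2)))
      (gg2_cpt (g := g) (hGte j).cpt (-(1 / 2))) z
    refine h3.congr (Eventually.of_forall fun w => ?_)
    simp only
    rw [gg2_ind]
  have hIB : Integrable (fun w => (-(1 / 2 : ℂ) * (g w * conj (gr χB w))) / (z - w)) :=
    gg2_int (gg2_cont hXo hgc hB.gr.smooth.continuous hBX (-(1 / 2)))
      (gg2_cpt (g := g) hB.gr.cpt (-(1 / 2))) z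
  have hpi : (Real.pi : ℂ) ≠ 0 := by exact_mod_cast Real.pi_ne_zero
  rw [← hCT, CT]
  have e1 : ∫ w, dbar φ w / (z - w) = (∑ j, ∫ w, D.indicator
      (fun w => -(1 / 2 : ℂ) * (g w * conj (gr (χ j) w))) w / (z - w)) +
      ∫ w, (-(1 / 2 : ℂ) * (g w * conj (gr χB w))) / (z - w) := by
    rw [← integral_finset_sum _ (fun j _ => hIj j), ← integral_add
      (integrable_finset_sum _ fun j _ => hIj j) hIB]
    refine integral_congr_ae (Eventually.of_forall fun w => ?_)
    simp only
    rw [hdb w, add_div, Finset.sum_div]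
  rw [e1, mul_add, Finset.mul_sum]
  congr 1
  · apply Finset.sum_congr rfl
    intro j _
    rw [← integral_const_mul]
    refine integral_congr_ae (Eventually.of_forall fun w => ?_)
    simp only
    by_cases hw : w ∈ D
    · simp only [indicator_of_mem hw]
      field_simp
    · simp only [indicator_of_notMem hw, zero_div, mul_zero]
  · rw [← integral_const_mul]
    refine integral_congr_ae (Eventually.of_forall fun w => ?_)
    simp only
    field_simp

/-- a cut-off of a ball -/
private theorem gg2_bump {x : ℂ} {s t : ℝ} (hs : 0 < s) (hst : s < t) :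
    ∃ χB : ℂ → ℝ, IsTe (Metric.ball x t) χB ∧
      ∀ y ∈ Metric.closedBall x s, χB =ᶠ[𝓝 y] fun _ => 1 := by
  obtain ⟨s', hs', hst'⟩ := exists_between hst
  obtain ⟨t', ht', htt'⟩ := exists_between hst'
  let f : ContDiffBump x := ⟨s', t', hs.trans hs', ht'⟩
  refine ⟨f, ⟨f.contDiff, f.hasCompactSupport, ?_⟩, ?_⟩
  · rw [f.tsupport_eq]
    exact Metric.closedBall_subset_ball htt'
  · intro y hy
    have h1 : y ∈ Metric.ball x s' := Metric.closedBall_subset_ball hs' hy
    filter_upwards [Metric.isOpen_ball.mem_nhds h1] with w hw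
    exact f.one_of_mem_closedBall (Metric.ball_subset_closedBall hw)

private theorem gg2_zpow {z a : ℂ} (h : z ≠ a) (m : ℤ) :
    HasDerivAt (fun z => (z - a) ^ m) ((m : ℂ) / (z - a) * (z - a) ^ m) z := by
  have h0 : z - a ≠ 0 := sub_ne_zero.2 h
  have h1 := (hasDerivAt_zpow m (z - a) (Or.inl h0)).comp z ((hasDerivAt_id z).sub_const a)
  refine h1.congr_deriv ?_
  rw [mul_one, zpow_sub_one₀ h0]
  field_simp

private theorem gg2_prod {ι : Type*} [DecidableEq ι] (S : Finset ι) (p : ι → ℂ) (q : ι → ℤ) {z : ℂ}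
    (h : ∀ j ∈ S, z ≠ p j) :
    HasDerivAt (fun z => ∏ j ∈ S, (z - p j) ^ (-(q j)))
      (-(∑ j ∈ S, (q j : ℂ) / (z - p j)) * ∏ j ∈ S, (z - p j) ^ (-(q j))) z := by
  induction S using Finset.induction_on with
  | empty =>
    simp only [Finset.prod_empty, Finset.sum_empty, neg_zero, zero_mul]
    exact hasDerivAt_const z 1
  | insert i S hi ih =>
    have h1 := ih fun j hj => h j (Finset.mem_insert_of_mem hj)
    have h2 := gg2_zpow (h i (Finset.mem_insert_self i S)) (-(q i))
    simp only [Finset.prod_insert hi, Finset.sum_insert hi]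
    refine (h2.mul h1).congr_deriv ?_
    push_cast
    ring

/-- **E on the core**: `core_repr` with `a < a' < b < 1` (cut-offs with profile between `a'` and `b`, poles in
`F_j '' {a < |ξ| < 1}`), `ExAt.of_compact` for every term (`S = F_j '' {a' ≤ |ξ| ≤ b}`, `A = F_j '' {a < |ξ| < 1}`, resp.
`A = ball x t`; `core_closure`), the masses are `flux D u χ_j = q_j` (imaginary part zero by `flux_im`) and `-∫ μ` for
the ball (`IsSol.weak`; `χB = 1` on the support of `μ`; curl part zero), `∫ μ = ∑ q_j` by `flux_sum`. So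
`g = ∑ q_j/(z - a_j) - M/(z - x) + Q'` and `E = exp (-Q) ∏ (z - a_j)^(-q_j) (z - x)^M` satisfies `E' = -g E`. -/
theorem core_E {D : Set ℂ} (hD : IsOpen D) (hbd : Bornology.IsBounded D) {n : ℕ} {ρ : ℝ}
    {F : Fin n → ℂ → ℂ} (hF : IsCols D n ρ F) {x : ℂ} {s t t' : ℝ} (hs : 0 < s) (hst : s < t)
    (htt : t < t') (hbD : Metric.closedBall x t' ⊆ D)
    (hd : ∀ j, Disjoint (Metric.closedBall x t') (F j '' ring ρ)) {μ u : ℂ → ℝ} (hu : IsSol D μ u)
    (hμ : IsTe (Metric.ball x s) μ) {q : Fin n → ℤ}
    (hq : ∀ j, ∀ a b χ, ρ < a → a < b → b < 1 → IsChi D ρ (F j) a b χ → flux D u χ = q j) {r : ℝ}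
    (hr : ρ < r) (hr1 : r < 1) :
    ∃ E : ℂ → ℂ, ∀ z ∈ core D F r x t, E z ≠ 0 ∧ HasDerivAt E (-(gr u z) * E z) z := by
  classical
  obtain ⟨a, hra, ha1⟩ := exists_between hr1
  obtain ⟨b, hab, hb1⟩ := exists_between ha1
  have hρa : ρ < a := hr.trans hra
  choose χ hχ using fun j => exists_chi hD hF.h0 (hF.col j) hρa hab hb1
  have ht0 : 0 < t := hs.trans hst
  -- the cut-off of the ball
  obtain ⟨χB, hB, hB1⟩ := gg2_bump (x := x) hs hst
  have hball : Metric.ball x t ⊆ D :=
    (Metric.ball_subset_ball htt.le).trans (Metric.ball_subset_closedBall.trans hbD)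
  have hBD : IsTe D χB := hB.mono hball
  have hμs : tsupport μ ⊆ Metric.closedBall x s := hμ.supp.trans Metric.ball_subset_closedBall
  have hst' : Metric.closedBall x s ⊆ Metric.closedBall x t' :=
    Metric.closedBall_subset_closedBall (hst.trans htt).le
  have hμD : IsTe D μ := hμ.mono (Metric.ball_subset_closedBall.trans (hst'.trans hbD))
  have hμd : ∀ j, Disjoint (tsupport μ) (F j '' ring ρ) := fun j =>
    (hd j).mono_left (hμs.trans hst')
  have hg : DifferentiableOn ℂ (gr u) (D \ Metric.closedBall x s) :=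
    (hu.holo hD).mono (diff_subset_diff_right hμs)
  have hrep := core_repr hD hF hρa hab hb1 hχ hs hst htt hbD hd hB hB1 hg
  have hXo : IsOpen (D \ Metric.closedBall x s) := hD.sdiff Metric.isClosed_closedBall
  have hgc : ContinuousOn (gr u) (D \ Metric.closedBall x s) := hg.continuousOn
  have hsball : Metric.closedBall x s ⊆ Metric.ball x t' :=
    Metric.closedBall_subset_ball (hst.trans htt)
  have hχball : ∀ j, ∀ y ∈ Metric.ball x t', χ j y = 0 := by
    intro j y hy
    have hy' := Metric.ball_subset_closedBall hy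
    exact (hχ j).off y (hbD hy') fun h => disjoint_left.1 (hd j) hy' h
  have hGte : ∀ j, IsTe D (D.indicator (gr (χ j))) := fun j =>
    (hχ j).te hD hF.h0 (hF.col j) hρa hab hb1
  have hGX : ∀ j, tsupport (D.indicator (gr (χ j))) ⊆ D \ Metric.closedBall x s := fun j =>
    gg2_supp_j (hGte j) hbD (hχball j) hsball
  have hBX : tsupport (gr χB) ⊆ D \ Metric.closedBall x s := gg2_supp_B hB hball hB1
  set c : ℂ := -(2 * Real.pi : ℂ)⁻¹ with hc
  -- the pieces
  have hfj : ∀ j, Integrable (D.indicator fun w => c * (gr u w * conj (gr (χ j) w))) := by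
    intro j
    have h3 : Integrable (fun w => c * (gr u w * conj (D.indicator (gr (χ j)) w))) volume :=
      (gg2_cont hXo hgc (hGte j).smooth.continuous (hGX j) c).integrable_of_hasCompactSupport
        (gg2_cpt (g := gr u) (hGte j).cpt c)
    refine h3.congr (Eventually.of_forall fun w => ?_)
    simp only
    rw [gg2_ind]
  have hfB : Integrable (fun w => c * (gr u w * conj (gr χB w))) :=
    (gg2_cont hXo hgc hB.gr.smooth.continuous hBX c).integrable_of_hasCompactSupport
      (gg2_cpt (g := gr u) hB.gr.cpt c)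
  set C : Set ℂ := core D F r x t with hC
  obtain ⟨hcl1, hcl2, hcl3⟩ := core_closure hD hF hr hr1 x t
  -- poles in the collars
  obtain ⟨m, hrm, hm1⟩ := exists_between hr1
  have h0r : 0 ≤ r := (hF.h0.trans hr).le
  have hexj : ∀ j, ExAt C (F j m) (D.indicator fun w => c * (gr u w * conj (gr (χ j) w))) := by
    intro j
    refine ExAt.of_compact (A := F j '' {ξ | r < ‖ξ‖ ∧ ‖ξ‖ < 1}) ?_ (hcl3 j)
      (S := F j '' {ξ | a ≤ ‖ξ‖ ∧ ‖ξ‖ ≤ b}) ?_ ?_ ?_ (hfj j) ?_
    · have h3 := (conn_annulus h0r hr1 0).isPreconnected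
      simp only [sub_zero] at h3
      exact h3.image _ (hF.col j).smooth.continuous.continuousOn
    · apply IsCompact.image _ (hF.col j).smooth.continuous
      apply (isCompact_closedBall (0 : ℂ) b).of_isClosed_subset
      · exact (isClosed_le continuous_const continuous_norm).inter
          (isClosed_le continuous_norm continuous_const)
      · intro ξ hξ
        rw [mem_closedBall_zero_iff]
        exact hξ.2
    · apply image_mono
      intro ξ hξ
      exact ⟨hra.trans_le hξ.1, hξ.2.trans_lt hb1⟩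
    · refine ⟨(m : ℂ), ?_, rfl⟩
      have h3 : ‖(m : ℂ)‖ = m := by
        rw [Complex.norm_real, Real.norm_eq_abs, abs_of_pos (h0r.trans_lt hrm)]
      exact ⟨by rw [h3]; exact hrm, by rw [h3]; exact hm1⟩
    · intro w hw
      by_cases hwD : w ∈ D
      · rw [indicator_of_mem hwD, (hχ j).gr_zero hD hF.h0 (hF.col j) hρa hab hb1 hwD hw]
        simp
      · exact indicator_of_notMem hwD _
  have hexB : ExAt C x (fun w => c * (gr u w * conj (gr χB w))) := by
    refine ExAt.of_compact (A := Metric.ball x t) ?_ hcl2.symm (S := tsupport χB) hB.cpt hB.supp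
      (Metric.mem_ball_self ht0) hfB ?_
    · exact (convex_ball x t).isPreconnected
    · intro w hw
      have h3 : gr χB w = 0 := by
        have h4 : χB =ᶠ[𝓝 w] fun _ => 0 := notMem_tsupport_iff_eventuallyEq.1 hw
        rw [gr_congr h4]
        exact gg2_const 0 w
      rw [h3]
      simp
  choose Q hQ using hexj
  obtain ⟨QB, hQB⟩ := hexB
  -- the masses
  have hpi : (Real.pi : ℂ) ≠ 0 := by exact_mod_cast Real.pi_ne_zero
  have hmj : ∀ j, ∫ w, D.indicator (fun w => c * (gr u w * conj (gr (χ j) w))) w = (q j : ℂ) := by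
    intro j
    have h3 : ∫ w, D.indicator (fun w => c * (gr u w * conj (gr (χ j) w))) w =
        c * ∫ w in D, gr u w * conj (gr (χ j) w) := by
      rw [integral_indicator hD.measurableSet, integral_const_mul]
    have hI : Integrable (fun w => gr u w * conj (gr (χ j) w)) (volume.restrict D) := by
      have h4 : Integrable (fun w => 1 * (gr u w * conj (D.indicator (gr (χ j)) w))) volume :=
        (gg2_cont hXo hgc (hGte j).smooth.continuous (hGX j) 1).integrable_of_hasCompactSupport
          (gg2_cpt (g := gr u) (hGte j).cpt 1)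
      have h5 : IntegrableOn (fun w => 1 * (gr u w * conj (D.indicator (gr (χ j)) w))) D :=
        h4.integrableOn
      refine h5.congr_fun (fun w hw => ?_) hD.measurableSet
      simp only [indicator_of_mem hw, one_mul]
    have h4 : (∫ w in D, gr u w * conj (gr (χ j) w)).re =
        ∫ w in D, (conj (gr u w) * gr (χ j) w).re := by
      have h5 := integral_re (𝕜 := ℂ) hI
      simp only [RCLike.re_eq_complex_re] at h5
      rw [← h5]
      refine integral_congr_ae (Eventually.of_forall fun w => ?_)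
      simp only [Complex.mul_re, Complex.conj_re, Complex.conj_im]
      ring
    have h5 : (∫ w in D, gr u w * conj (gr (χ j) w)).im =
        -∫ w in D, (conj (gr u w) * gr (χ j) w).im := by
      have h6 := integral_im (𝕜 := ℂ) hI
      simp only [RCLike.im_eq_complex_im] at h6
      rw [← h6, ← integral_neg]
      refine integral_congr_ae (Eventually.of_forall fun w => ?_)
      simp only [Complex.mul_im, Complex.conj_re, Complex.conj_im]
      ring
    have h6 := flux_im hD hF.h0 (hF.col j) hρa hab hb1 (hχ j) hu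
    have h7 := hq j a b (χ j) hρa hab hb1 (hχ j)
    rw [h6, neg_zero] at h5
    unfold flux at h7
    rw [← h4] at h7
    rw [h3]
    have h8 : (∫ w in D, gr u w * conj (gr (χ j) w)) =
        (((∫ w in D, gr u w * conj (gr (χ j) w)).re : ℝ) : ℂ) := by
      apply Complex.ext
      · rw [Complex.ofReal_re]
      · rw [Complex.ofReal_im, h5]
    rw [h8, hc]
    have h9 : ((q j : ℝ) : ℂ) = (q j : ℂ) := by push_cast; rfl
    rw [← h9, ← h7]
    push_cast
    rfl
  have hmB : ∫ w, c * (gr u w * conj (gr χB w)) = -((∑ j, q j : ℤ) : ℂ) := by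
    have hI : Integrable (fun w => gr u w * conj (gr χB w)) := by
      have h4 : Integrable (fun w => 1 * (gr u w * conj (gr χB w))) volume :=
        (gg2_cont hXo hgc hB.gr.smooth.continuous hBX 1).integrable_of_hasCompactSupport
          (gg2_cpt (g := gr u) hB.gr.cpt 1)
      refine h4.congr (Eventually.of_forall fun w => ?_)
      simp only [one_mul]
    have hB0 : ∀ w ∉ D, gr χB w = 0 := fun w hw =>
      image_eq_zero_of_notMem_tsupport fun h => hw (hBD.gr.supp h)
    have h4 : (∫ w, gr u w * conj (gr χB w)).re = ∫ w in D, (conj (gr u w) * gr χB w).re := by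
      have h5 := integral_re (𝕜 := ℂ) hI
      simp only [RCLike.re_eq_complex_re] at h5
      rw [← h5, setIntegral_eq_integral_of_forall_compl_eq_zero]
      · refine integral_congr_ae (Eventually.of_forall fun w => ?_)
        simp only [Complex.mul_re, Complex.conj_re, Complex.conj_im]
        ring
      · intro w hw
        rw [hB0 w hw, mul_zero, Complex.zero_re]
    have h5 : (∫ w, gr u w * conj (gr χB w)).im = 0 := by
      have h6 := integral_im (𝕜 := ℂ) hI
      simp only [RCLike.im_eq_complex_im] at h6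
      have h7 := hu.w.wd.curl (hBD.mono (subset_univ D))
      rw [← h6, ← neg_zero, ← h7, ← integral_neg]
      refine integral_congr_ae (Eventually.of_forall fun w => ?_)
      by_cases hw : w ∈ D
      · simp only [indicator_of_mem hw, Complex.mul_im, Complex.conj_re, Complex.conj_im]
        ring
      · simp only [hB0 w hw, map_zero, mul_zero, Complex.zero_im, neg_zero]
    have h6 := hu.weak hD hBD
    have h7 : ∫ w in D, μ w * χB w = ∫ w, μ w := by
      rw [setIntegral_eq_integral_of_forall_compl_eq_zero]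
      · refine integral_congr_ae (Eventually.of_forall fun w => ?_)
        by_cases hw : w ∈ tsupport μ
        · simp only [(hB1 w (hμs hw)).self_of_nhds, mul_one]
        · simp only [image_eq_zero_of_notMem_tsupport hw, zero_mul]
      · intro w hw
        rw [image_eq_zero_of_notMem_tsupport fun h => hw (hμD.supp h), zero_mul]
    have h8 := flux_sum hD hF hρa hab hb1 hχ hu hμD hμd
    have h9 : ∫ w, μ w = ((∑ j, q j : ℤ) : ℝ) := by
      rw [← h8]
      push_cast
      exact Finset.sum_congr rfl fun j _ => hq j a b (χ j) hρa hab hb1 (hχ j)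
    rw [integral_const_mul]
    have h10 : (∫ w, gr u w * conj (gr χB w)) = (((2 * Real.pi * ((∑ j, q j : ℤ) : ℝ)) : ℝ) : ℂ) := by
      apply Complex.ext
      · rw [Complex.ofReal_re, h4, h6, h7, h9]
      · rw [Complex.ofReal_im, h5]
    rw [h10, hc]
    push_cast
    field_simp
  -- representation of `gr u`
  have hCa : C ⊆ core D F a x t := by
    intro z hz
    refine ⟨⟨hz.1.1, fun h => hz.1.2 ?_⟩, hz.2⟩
    rw [mem_iUnion] at h ⊢
    obtain ⟨j, ξ, hξ, hξz⟩ := h
    exact ⟨j, ξ, ⟨hra.le.trans hξ.1, hξ.2⟩, hξz⟩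
  have hzx : ∀ z ∈ C, z ≠ x := by
    rintro z hz rfl
    exact hz.2 (Metric.mem_closedBall_self ht0.le)
  have hzF : ∀ z ∈ C, ∀ j, z ≠ F j m := by
    intro z hz j hzj
    refine disjoint_left.1 (hcl3 j) ?_ (subset_closure hz)
    refine ⟨(m : ℂ), ?_, hzj.symm⟩
    have h3 : ‖(m : ℂ)‖ = m := by
      rw [Complex.norm_real, Real.norm_eq_abs, abs_of_pos (h0r.trans_lt hrm)]
    exact ⟨by rw [h3]; exact hrm, by rw [h3]; exact hm1⟩
  refine ⟨fun z => Complex.exp (-((∑ j, Q j z) + QB z)) *
    ((∏ j, (z - F j m) ^ (-(q j))) * (z - x) ^ (∑ j, q j)), fun z hz => ⟨?_, ?_⟩⟩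
  · refine mul_ne_zero (Complex.exp_ne_zero _) (mul_ne_zero ?_ ?_)
    · exact Finset.prod_ne_zero_iff.2 fun j _ => zpow_ne_zero _ (sub_ne_zero.2 (hzF z hz j))
    · exact zpow_ne_zero _ (sub_ne_zero.2 (hzx z hz))
  · have hrz := hrep z (hCa hz)
    have hd1 : HasDerivAt (fun z => (∑ j, Q j z) + QB z)
        ((∑ j, ((∫ w, D.indicator (fun w => c * (gr u w * conj (gr (χ j) w))) w / (z - w)) -
          (q j : ℂ) / (z - F j m))) +
          ((∫ w, c * (gr u w * conj (gr χB w)) / (z - w)) -
            (-((∑ j, q j : ℤ) : ℂ)) / (z - x))) z := by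
      have h3 : ∀ j, HasDerivAt (Q j)
          ((∫ w, D.indicator (fun w => c * (gr u w * conj (gr (χ j) w))) w / (z - w)) -
          (q j : ℂ) / (z - F j m)) z := by
        intro j
        have := hQ j z hz
        rwa [hmj j] at this
      have h4 := hQB z hz
      rw [hmB] at h4
      exact (HasDerivAt.fun_sum fun j _ => h3 j).add h4
    have hprod := gg2_prod (Finset.univ : Finset (Fin n)) (fun j => F j m) q
      (fun j _ => hzF z hz j)
    have hx2 := gg2_zpow (hzx z hz) (∑ j, q j)
    have hfin := (hd1.fun_neg.cexp).fun_mul (hprod.fun_mul hx2)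
    refine hfin.congr_deriv ?_
    rw [hrz, Finset.sum_sub_distrib]
    ring

end Pool.Agent.Lib.MP_79abb3_an.PD
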