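import Pool.Agent.Lib.MP_79abb3_an.PD.GDef4
import Pool.Agent.Lib.MP_79abb3_an.PD.GB1
import Pool.Agent.Lib.MP_79abb3_an.PD.GE1

/-!
Theorem D, block G, part H1: lifting to the strip.
-/

set_option autoImplicit false
set_option linter.unusedSectionVars false

open MeasureTheory Set Filter Topology Function
open scoped ENNReal ComplexConjugate

namespace Pool.Agent.Lib.MP_79abb3_an.PD

open Pool.Agent.Lib.MP_79abb3_an.SC

private theorem gh1_key (U : ℂ → ℝ) (ξ z : ℂ) : fderiv ℝ U ξ z = (z * gr U ξ).re := by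
  have h : z = z.re • (1 : ℂ) + z.im • Complex.I := by
    apply Complex.ext <;> simp
  have hg : gr U ξ = ⟨fderiv ℝ U ξ 1, -fderiv ℝ U ξ Complex.I⟩ := rfl
  conv_lhs => rw [h]
  rw [map_add, map_smul, map_smul, hg, Complex.mul_re]
  simp only [smul_eq_mul]
  ring

private theorem gh1_gr {u : ℂ → ℝ} {L : ℂ →L[ℝ] ℝ} {ζ w : ℂ} (h : HasFDerivAt u L ζ)
    (hL : ∀ v, L v = (v * w).re) : gr u ζ = w := by
  unfold gr
  rw [h.fderiv, hL, hL]
  apply Complex.ext <;> simp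

private theorem gh1_norm (ζ : ℂ) : ‖Complex.exp (Complex.I * ζ)‖ = Real.exp (-ζ.im) := by
  rw [Complex.norm_exp]
  simp

private theorem gh1_mem {ρ : ℝ} (h0 : 0 < ρ) {ζ : ℂ} (hζ : ζ ∈ strip (-Real.log ρ)) :
    Complex.exp (Complex.I * ζ) ∈ dring ρ := by
  have h := abs_lt.mp (show |ζ.im| < -Real.log ρ from hζ)
  constructor
  · rw [gh1_norm, ← Real.log_lt_iff_lt_exp h0]
    linarith [h.2]
  · rw [gh1_norm, ← Real.lt_log_iff_exp_lt (inv_pos.mpr h0), Real.log_inv]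
    linarith [h.1]

private theorem gh1_mem' {ρ : ℝ} (h0 : 0 < ρ) {ζ : ℂ} (hζ : 0 < ζ.im) (hζ' : ζ.im < -Real.log ρ) :
    Complex.exp (Complex.I * ζ) ∈ ring ρ := by
  constructor
  · rw [gh1_norm, ← Real.log_lt_iff_lt_exp h0]
    linarith
  · rw [gh1_norm, Real.exp_lt_one_iff]
    linarith

private theorem gh1_dopen (ρ : ℝ) : IsOpen (dring ρ) :=
  (isOpen_lt continuous_const continuous_norm).inter (isOpen_lt continuous_norm continuous_const)

private theorem gh1_sopen (δ : ℝ) : IsOpen (strip δ) :=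
  isOpen_lt (continuous_abs.comp Complex.continuous_im) continuous_const

private theorem gh1_sconv (δ : ℝ) : Convex ℝ (strip δ) := by
  have h : strip δ = {ζ : ℂ | -δ < ζ.im} ∩ {ζ : ℂ | ζ.im < δ} := by
    ext ζ
    exact abs_lt (a := ζ.im) (b := δ)
  rw [h]
  exact (convex_halfSpace_im_gt _).inter (convex_halfSpace_im_lt _)

private theorem gh1_diff {E : Type*} [NormedAddCommGroup E] [NormedSpace ℝ E] {D : Set ℂ}
    (hD : IsOpen D) {u : ℂ → E} (hu : ContDiffOn ℝ ((⊤ : ℕ∞) : WithTop ℕ∞) u D) {x : ℂ}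
    (hx : x ∈ D) : DifferentiableAt ℝ u x :=
  (hu.differentiableOn (by simp)).differentiableAt (hD.mem_nhds hx)

private theorem gh1_exp (ζ : ℂ) : HasDerivAt (fun ζ : ℂ => Complex.exp (Complex.I * ζ))
    (Complex.I * Complex.exp (Complex.I * ζ)) ζ := by
  have h := ((hasDerivAt_id ζ).const_mul Complex.I).cexp
  simp only [id, mul_one] at h
  rw [mul_comm Complex.I (Complex.exp _)]
  exact h

/-- The function `U` on the strip: `gr (U ∘ exp (i ·)) = gr U (exp (i ζ)) · i exp (i ζ)`. (Chain rule; `dring` open.) -/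
theorem gr_expI {ρ : ℝ} {U : ℂ → ℝ} (hU : IsRefl ρ U) {ζ : ℂ} (hζ : ζ ∈ strip (-Real.log ρ)) :
    gr (fun ζ => U (Complex.exp (Complex.I * ζ))) ζ =
      gr U (Complex.exp (Complex.I * ζ)) * (Complex.I * Complex.exp (Complex.I * ζ)) := by
  have h1 := (gh1_diff (gh1_dopen ρ) hU.smooth (gh1_mem hU.h0 hζ)).hasFDerivAt
  have h2 := (gh1_exp ζ).complexToReal_fderiv
  refine gh1_gr (h1.comp ζ h2) fun v => ?_
  rw [ContinuousLinearMap.comp_apply, gh1_key]
  simp only [smul_apply, one_apply_eq_self, smul_eq_mul]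
  congr 1
  ring

theorem gr_im {f : ℂ → ℂ} {f' ζ : ℂ} (hf : HasDerivAt f f' ζ) : gr (fun ζ => (f ζ).im) ζ = -Complex.I * f' := by
  refine gh1_gr (Complex.imCLM.hasFDerivAt.comp ζ hf.complexToReal_fderiv) fun v => ?_
  simp only [ContinuousLinearMap.comp_apply, smul_apply,
    one_apply_eq_self, smul_eq_mul, Complex.imCLM_apply]
  simp
  ring

theorem IsRefl.circle {ρ : ℝ} {U : ℂ → ℝ} (hU : IsRefl ρ U) {ξ : ℂ} (h : ‖ξ‖ = 1) : U ξ = 0 := by
  have h1 : ξ ∈ dring ρ := by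
    constructor
    · rw [h]; exact hU.h1
    · rw [h]; exact (one_lt_inv₀ hU.h0).mpr hU.h1
  have h2 := hU.odd ξ h1
  have h3 : cinv ξ = ξ := by
    have hne : ξ ≠ 0 := by
      intro h4
      rw [h4, norm_zero] at h
      exact zero_ne_one h
    have h4 : ξ * conj ξ = 1 := by
      rw [Complex.mul_conj, Complex.normSq_eq_norm_sq, h]
      simp
    rw [cinv, inv_eq_iff_eq_inv]
    exact eq_inv_of_mul_eq_one_right h4
  rw [h3] at h2
  linarith

theorem IsRefl.neg {ρ : ℝ} {U : ℂ → ℝ} (hU : IsRefl ρ U) {ξ : ℂ} (h : ξ ∈ dring ρ) (h1 : 1 < ‖ξ‖) : U ξ < 0 := by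
  have h2 : cinv ξ ∈ ring ρ := by
    constructor
    · rw [norm_cinv]
      exact (lt_inv_comm₀ hU.h0 (by linarith)).mpr h.2
    · rw [norm_cinv]
      exact inv_lt_one_of_one_lt₀ h1
  have h3 := hU.pos _ h2
  rw [hU.odd ξ h] at h3
  linarith

/-- **Lifting.** The strip is convex, `ψ(ζ) = -exp(iζ) gr U(exp(iζ))` is holomorphic there, so it has a primitive
`f₀` (`Convex.exists_forall_hasDerivWithinAt`). On the upper half strip (convex) `G(exp(iζ)) exp(-i f₀)` has derivative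
zero, so it is a constant `c ≠ 0`; `f = f₀ - i log c`. There `Im f = U(exp(iζ))` by the norms; both sides have the same
`gr` (`gr_expI`, `gr_im`) on the strip, so they agree on it. `f(ζ+2π) - f(ζ)` has derivative zero: a constant `c`, real
(`ζ = 0`), `exp(ic) = 1` (upper half strip), positive by the monotonicity of `Re f` on `ℝ`
(`f'(t) = -ξ gr U(ξ)`, `ξ = exp(it)`, has real part `-fderiv ℝ U ξ ξ > 0` by `hopf`). -/
theorem exists_lift {ρ : ℝ} {U : ℂ → ℝ} (hU : IsRefl ρ U) {G : ℂ → ℂ}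
    (hG : ∀ ξ ∈ ring ρ, HasDerivAt G (-(gr U ξ) * G ξ) ξ) (hn : ∀ ξ ∈ ring ρ, ‖G ξ‖ = Real.exp (-U ξ)) :
    ∃ (f : ℂ → ℂ) (k : ℕ), IsLift ρ U f k ∧ ∀ ζ : ℂ, 0 < ζ.im → ζ.im < -Real.log ρ →
      G (Complex.exp (Complex.I * ζ)) = Complex.exp (Complex.I * f ζ) := by
  have hδ : 0 < -Real.log ρ := by
    have := Real.log_neg hU.h0 hU.h1
    linarith
  set δ := -Real.log ρ with hδd
  have hSo := gh1_sopen δ
  have hSc := gh1_sconv δ
  have hmap : ∀ ζ ∈ strip δ, Complex.exp (Complex.I * ζ) ∈ dring ρ := fun ζ hζ => gh1_mem hU.h0 hζ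
  -- the primitive
  have hψ : DifferentiableOn ℂ
      (fun ζ => -(Complex.exp (Complex.I * ζ) * gr U (Complex.exp (Complex.I * ζ)))) (strip δ) := by
    have he : DifferentiableOn ℂ (fun ζ : ℂ => Complex.exp (Complex.I * ζ)) (strip δ) :=
      fun ζ _ => (gh1_exp ζ).differentiableAt.differentiableWithinAt
    exact (he.mul (hU.holo.comp he hmap)).neg
  obtain ⟨f₀, hf₀w⟩ := hSc.exists_forall_hasDerivWithinAt hψ
  have hf₀ : ∀ ζ ∈ strip δ, HasDerivAt f₀
      (-(Complex.exp (Complex.I * ζ) * gr U (Complex.exp (Complex.I * ζ)))) ζ :=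
    fun ζ hζ => (hf₀w ζ hζ).hasDerivAt (hSo.mem_nhds hζ)
  -- the upper half strip
  set P : Set ℂ := {ζ : ℂ | 0 < ζ.im} ∩ {ζ : ℂ | ζ.im < δ} with hP
  have hPo : IsOpen P :=
    (isOpen_lt continuous_const Complex.continuous_im).inter
      (isOpen_lt Complex.continuous_im continuous_const)
  have hPc : Convex ℝ P := (convex_halfSpace_im_gt _).inter (convex_halfSpace_im_lt _)
  have hPS : P ⊆ strip δ := fun ζ hζ => by
    have h1 : 0 < ζ.im := hζ.1
    exact (abs_lt (a := ζ.im) (b := δ)).mpr ⟨by linarith, hζ.2⟩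
  have hPr : ∀ ζ ∈ P, Complex.exp (Complex.I * ζ) ∈ ring ρ := fun ζ hζ => gh1_mem' hU.h0 hζ.1 hζ.2
  set ζ₁ : ℂ := ((δ / 2 : ℝ) : ℂ) * Complex.I with hζ₁
  have hζ₁im : ζ₁.im = δ / 2 := by simp [hζ₁]
  have hζ₁P : ζ₁ ∈ P := ⟨show 0 < ζ₁.im by rw [hζ₁im]; linarith, show ζ₁.im < δ by rw [hζ₁im]; linarith⟩
  have hq : ∀ ζ ∈ P, HasDerivAt (fun ζ => G (Complex.exp (Complex.I * ζ)) *
      Complex.exp (-Complex.I * f₀ ζ)) 0 ζ := by
    intro ζ hζ
    have h1 := (hG _ (hPr ζ hζ)).comp ζ (gh1_exp ζ)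
    have h2 := ((hf₀ ζ (hPS hζ)).const_mul (-Complex.I)).cexp
    refine (h1.mul h2).congr_deriv ?_
    simp only [Function.comp_apply]
    ring
  set c := G (Complex.exp (Complex.I * ζ₁)) * Complex.exp (-Complex.I * f₀ ζ₁) with hc
  have hconst : ∀ ζ ∈ P, G (Complex.exp (Complex.I * ζ)) * Complex.exp (-Complex.I * f₀ ζ) = c := by
    intro ζ hζ
    have h1 := hPo.is_const_of_deriv_eq_zero hPc.isPreconnected
      (f := fun ζ => G (Complex.exp (Complex.I * ζ)) * Complex.exp (-Complex.I * f₀ ζ))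
      (fun z hz => (hq z hz).differentiableAt.differentiableWithinAt)
      (fun z hz => (hq z hz).deriv) hζ hζ₁P
    exact h1
  have hcne : c ≠ 0 := by
    have h1 : G (Complex.exp (Complex.I * ζ₁)) ≠ 0 := by
      intro h2
      have h3 := hn _ (hPr ζ₁ hζ₁P)
      rw [h2, norm_zero] at h3
      exact (Real.exp_pos _).ne h3
    exact mul_ne_zero h1 (Complex.exp_ne_zero _)
  set f : ℂ → ℂ := fun ζ => f₀ ζ - Complex.I * Complex.log c with hf
  have hfd : ∀ ζ ∈ strip δ, HasDerivAt f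
      (-(Complex.exp (Complex.I * ζ) * gr U (Complex.exp (Complex.I * ζ)))) ζ :=
    fun ζ hζ => (hf₀ ζ hζ).sub_const _
  have hGf : ∀ ζ ∈ P, G (Complex.exp (Complex.I * ζ)) = Complex.exp (Complex.I * f ζ) := by
    intro ζ hζ
    have e1 : Complex.I * f ζ = Complex.I * f₀ ζ + Complex.log c := by
      simp only [hf]
      linear_combination (-Complex.log c) * Complex.I_mul_I
    rw [e1, Complex.exp_add, Complex.exp_log hcne, ← hconst ζ hζ, mul_comm (Complex.exp _), mul_assoc,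
      ← Complex.exp_add]
    simp
  -- the imaginary part
  have himP : ∀ ζ ∈ P, (f ζ).im = U (Complex.exp (Complex.I * ζ)) := by
    intro ζ hζ
    have h1 := hn _ (hPr ζ hζ)
    rw [hGf ζ hζ, gh1_norm, Real.exp_eq_exp] at h1
    linarith
  have hfs : ContDiffOn ℝ ((⊤ : ℕ∞) : WithTop ℕ∞) (fun ζ => (f ζ).im) (strip δ) := by
    have h1 : DifferentiableOn ℂ f (strip δ) :=
      fun ζ hζ => (hfd ζ hζ).differentiableAt.differentiableWithinAt
    have h2 : ContDiffOn ℂ ((⊤ : ℕ∞) : WithTop ℕ∞) f (strip δ) := h1.contDiffOn hSo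
    exact Complex.imCLM.contDiff.comp_contDiffOn (h2.restrict_scalars ℝ)
  have hUs : ContDiffOn ℝ ((⊤ : ℕ∞) : WithTop ℕ∞) (fun ζ => U (Complex.exp (Complex.I * ζ))) (strip δ) := by
    have h1 : ContDiff ℂ ((⊤ : ℕ∞) : WithTop ℕ∞) (fun ζ : ℂ => Complex.exp (Complex.I * ζ)) :=
      (contDiff_const.mul contDiff_id).cexp
    exact hU.smooth.comp (h1.restrict_scalars ℝ).contDiffOn hmap
  have him : ∀ ζ ∈ strip δ, (f ζ).im = U (Complex.exp (Complex.I * ζ)) := by
    intro ζ hζ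
    have h0 : ∀ z ∈ strip δ, gr (fun ζ => (f ζ).im - U (Complex.exp (Complex.I * ζ))) z = 0 := by
      intro z hz
      rw [gr_sub (gh1_diff hSo hfs hz) (gh1_diff hSo hUs hz), gr_expI hU hz, gr_im (hfd z hz)]
      ring
    have h1 := const_of_gr hSo hSc.isPreconnected (hfs.sub hUs) h0 ζ hζ ζ₁ (hPS hζ₁P)
    have h2 := himP ζ₁ hζ₁P
    linarith
  -- positivity
  have hreal : ∀ t : ℝ, (t : ℂ) ∈ strip δ := by
    intro t
    show |((t : ℂ)).im| < δ
    simpa using hδ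
  have hpos : ∀ t : ℝ, 0 < (-(Complex.exp (Complex.I * (t : ℂ)) *
      gr U (Complex.exp (Complex.I * (t : ℂ))))).re := by
    intro t
    have h1 : ‖Complex.exp (Complex.I * (t : ℂ))‖ = 1 := by
      rw [gh1_norm]
      simp
    have h2 := hopf hU.h0 hU.h1 hU.smooth hU.holo (fun ξ hξ => hU.circle hξ) hU.pos h1
    rw [gh1_key] at h2
    rw [Complex.neg_re]
    linarith
  have hmono : StrictMono fun t : ℝ => (f t).re := by
    apply strictMono_of_deriv_pos
    intro t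
    rw [(hfd t (hreal t)).real_of_complex.deriv]
    exact hpos t
  -- the period
  have hshift : ∀ ζ ∈ strip δ, ζ + ((2 * Real.pi : ℝ) : ℂ) ∈ strip δ := by
    intro ζ hζ
    show |(ζ + ((2 * Real.pi : ℝ) : ℂ)).im| < δ
    rw [Complex.add_im, Complex.ofReal_im, add_zero]
    exact hζ
  have hexp : ∀ ζ : ℂ, Complex.exp (Complex.I * (ζ + ((2 * Real.pi : ℝ) : ℂ))) =
      Complex.exp (Complex.I * ζ) := by
    intro ζ
    have e1 : Complex.I * (ζ + ((2 * Real.pi : ℝ) : ℂ)) =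
        Complex.I * ζ + 2 * Real.pi * Complex.I := by
      push_cast
      ring
    rw [e1, Complex.exp_add, Complex.exp_two_pi_mul_I, mul_one]
  have hd0 : ∀ ζ ∈ strip δ, HasDerivAt (fun ζ => f (ζ + ((2 * Real.pi : ℝ) : ℂ)) - f ζ) 0 ζ := by
    intro ζ hζ
    have h1 := (hfd _ (hshift ζ hζ)).comp_add_const ζ ((2 * Real.pi : ℝ) : ℂ)
    rw [hexp] at h1
    have h2 := h1.sub (hfd ζ hζ)
    rw [sub_self] at h2
    exact h2
  have hdc : ∀ ζ ∈ strip δ, f (ζ + ((2 * Real.pi : ℝ) : ℂ)) - f ζ =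
      f (((0 : ℝ) : ℂ) + ((2 * Real.pi : ℝ) : ℂ)) - f ((0 : ℝ) : ℂ) := by
    intro ζ hζ
    have h1 := hSo.is_const_of_deriv_eq_zero hSc.isPreconnected
      (f := fun ζ => f (ζ + ((2 * Real.pi : ℝ) : ℂ)) - f ζ)
      (fun z hz => (hd0 z hz).differentiableAt.differentiableWithinAt)
      (fun z hz => (hd0 z hz).deriv) hζ (hreal 0)
    exact h1
  set C := f (((0 : ℝ) : ℂ) + ((2 * Real.pi : ℝ) : ℂ)) - f ((0 : ℝ) : ℂ) with hC
  have hCexp : Complex.exp (Complex.I * C) = 1 := by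
    have h1 := hdc ζ₁ (hPS hζ₁P)
    have h2 : ζ₁ + ((2 * Real.pi : ℝ) : ℂ) ∈ P := by
      constructor
      · show 0 < (ζ₁ + ((2 * Real.pi : ℝ) : ℂ)).im
        rw [Complex.add_im, Complex.ofReal_im, add_zero]
        exact hζ₁P.1
      · show (ζ₁ + ((2 * Real.pi : ℝ) : ℂ)).im < δ
        rw [Complex.add_im, Complex.ofReal_im, add_zero]
        exact hζ₁P.2
    have h3 := hGf _ h2
    rw [hexp, hGf ζ₁ hζ₁P] at h3
    rw [← h1, mul_sub, Complex.exp_sub, ← h3]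
    exact div_self (Complex.exp_ne_zero _)
  obtain ⟨n, hn'⟩ := Complex.exp_eq_one_iff.mp hCexp
  have hCn : C = ((2 * Real.pi * n : ℝ) : ℂ) := by
    have h1 : C = n * (2 * Real.pi) := by
      apply mul_left_cancel₀ Complex.I_ne_zero
      rw [hn']
      ring
    rw [h1]
    push_cast
    ring
  have hCpos : 0 < C.re := by
    have h1 : (f ((0 : ℝ) : ℂ)).re < (f ((2 * Real.pi : ℝ) : ℂ)).re :=
      hmono (show (0 : ℝ) < 2 * Real.pi by positivity)
    rw [hC, Complex.sub_re]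
    have h2 : ((0 : ℝ) : ℂ) + ((2 * Real.pi : ℝ) : ℂ) = ((2 * Real.pi : ℝ) : ℂ) := by simp
    rw [h2]
    linarith
  have hnpos : 0 < n := by
    rw [hCn, Complex.ofReal_re] at hCpos
    have h1 : (0 : ℝ) < n := by
      by_contra h2
      push Not at h2
      have : 2 * Real.pi * (n : ℝ) ≤ 0 := mul_nonpos_of_nonneg_of_nonpos (by positivity) h2
      linarith
    exact_mod_cast h1
  refine ⟨f, n.toNat, ⟨hfd, him, ?_, ?_, ?_⟩, fun ζ h1 h2 => hGf ζ ⟨h1, h2⟩⟩
  · intro ζ hζ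
    have h1 := hdc ζ hζ
    have h2 : ((n.toNat : ℕ) : ℝ) = (n : ℝ) := by
      have := Int.toNat_of_nonneg hnpos.le
      exact_mod_cast this
    rw [h2, ← hCn, ← h1]
    ring
  · intro t
    rw [(hfd t (hreal t)).deriv]
    exact hpos t
  · omega

end Pool.Agent.Lib.MP_79abb3_an.PD
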