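import Pool.Agent.Lib.MP_79abb3_an.PD.GH1

/-!
Theorem D, block G, part H2: the root S.
-/

set_option autoImplicit false
set_option linter.unusedSectionVars false

open MeasureTheory Set Filter Topology Function
open scoped ENNReal ComplexConjugate

namespace Pool.Agent.Lib.MP_79abb3_an.PD

open Pool.Agent.Lib.MP_79abb3_an.SC

private theorem gh2_shift {δ : ℝ} {ζ : ℂ} (hζ : ζ ∈ strip δ) (x : ℝ) : ζ + (x : ℂ) ∈ strip δ := by
  show |(ζ + (x : ℂ)).im| < δ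
  rw [Complex.add_im, Complex.ofReal_im, add_zero]
  exact hζ

private theorem gh2_norm (ζ : ℂ) : ‖Complex.exp (Complex.I * ζ)‖ = Real.exp (-ζ.im) := by
  rw [Complex.norm_exp]
  simp

private theorem gh2_real {ρ : ℝ} (h0 : 0 < ρ) (h1 : ρ < 1) (t : ℝ) : (t : ℂ) ∈ strip (-Real.log ρ) := by
  show |((t : ℂ)).im| < -Real.log ρ
  have := Real.log_neg h0 h1
  rw [Complex.ofReal_im, abs_zero]
  linarith

theorem IsLift.per_int {ρ : ℝ} {U : ℂ → ℝ} {f : ℂ → ℂ} {k : ℕ} (h : IsLift ρ U f k) {ζ : ℂ}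
    (hζ : ζ ∈ strip (-Real.log ρ)) (m : ℤ) :
    f (ζ + ((2 * Real.pi * m : ℝ) : ℂ)) = f ζ + ((2 * Real.pi * k * m : ℝ) : ℂ) := by
  induction m using Int.induction_on with
  | zero => simp
  | succ n ih =>
    have h1 := h.per _ (gh2_shift hζ (2 * Real.pi * ((n : ℤ) : ℝ)))
    have e1 : ζ + ((2 * Real.pi * (((n : ℤ) + 1 : ℤ) : ℝ) : ℝ) : ℂ) =
        ζ + ((2 * Real.pi * ((n : ℤ) : ℝ) : ℝ) : ℂ) + ((2 * Real.pi : ℝ) : ℂ) := by
      push_cast
      ring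
    rw [e1, h1, ih]
    push_cast
    ring
  | pred n ih =>
    have h1 := h.per _ (gh2_shift hζ (2 * Real.pi * ((-(n : ℤ) - 1 : ℤ) : ℝ)))
    have e1 : ζ + ((2 * Real.pi * ((-(n : ℤ) - 1 : ℤ) : ℝ) : ℝ) : ℂ) + ((2 * Real.pi : ℝ) : ℂ) =
        ζ + ((2 * Real.pi * ((-(n : ℤ) : ℤ) : ℝ) : ℝ) : ℂ) := by
      push_cast
      ring
    rw [e1, ih] at h1
    have h2 : f (ζ + ((2 * Real.pi * ((-(n : ℤ) - 1 : ℤ) : ℝ) : ℝ) : ℂ)) =
        f ζ + ((2 * Real.pi * k * ((-(n : ℤ) : ℤ) : ℝ) : ℝ) : ℂ) - ((2 * Real.pi * k : ℝ) : ℂ) := by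
      rw [h1]
      ring
    rw [h2]
    push_cast
    ring

/-- `f` is real and strictly increasing on `ℝ`. -/
theorem IsLift.mono {ρ : ℝ} {U : ℂ → ℝ} (hU : IsRefl ρ U) {f : ℂ → ℂ} {k : ℕ} (h : IsLift ρ U f k) :
    (∀ t : ℝ, (f t).im = 0) ∧ StrictMono fun t : ℝ => (f t).re := by
  constructor
  · intro t
    rw [h.im t (gh2_real hU.h0 hU.h1 t)]
    apply hU.circle
    rw [gh2_norm]
    simp
  · apply strictMono_of_deriv_pos
    intro t
    have h1 := h.der t (gh2_real hU.h0 hU.h1 t)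
    have h2 := h.pos t
    rw [h1.deriv] at h2
    rw [h1.real_of_complex.deriv]
    exact h2

theorem IsLift.surj {ρ : ℝ} {U : ℂ → ℝ} (hU : IsRefl ρ U) {f : ℂ → ℂ} {k : ℕ} (h : IsLift ρ U f k) (c : ℝ) :
    ∃ t : ℝ, f t = c := by
  have hcont : Continuous fun t : ℝ => (f t).re := by
    rw [continuous_iff_continuousAt]
    intro t
    exact (h.der t (gh2_real hU.h0 hU.h1 t)).real_of_complex.continuousAt
  have hval : ∀ m : ℤ, (f ((2 * Real.pi * m : ℝ) : ℂ)).re = (f ((0 : ℝ) : ℂ)).re + 2 * Real.pi * k * m := by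
    intro m
    have h1 := h.per_int (gh2_real hU.h0 hU.h1 0) m
    have e1 : ((0 : ℝ) : ℂ) + ((2 * Real.pi * m : ℝ) : ℂ) = ((2 * Real.pi * m : ℝ) : ℂ) := by simp
    rw [e1] at h1
    rw [h1, Complex.add_re, Complex.ofReal_re]
  obtain ⟨v, hv⟩ : ∃ v, v = (f ((0 : ℝ) : ℂ)).re := ⟨_, rfl⟩
  rw [← hv] at hval
  have hk : (1 : ℝ) ≤ 2 * Real.pi * k := by
    have h1 : (1 : ℝ) ≤ k := by exact_mod_cast h.kpos
    have h2 : (1 : ℝ) ≤ 2 * Real.pi := by linarith [Real.pi_gt_three]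
    nlinarith
  obtain ⟨m, hm⟩ := exists_nat_ge |c - v|
  have hm' := abs_le.mp hm
  have hm0 : (0 : ℝ) ≤ m := Nat.cast_nonneg m
  have hmk : (m : ℝ) ≤ 2 * Real.pi * k * m := by nlinarith
  have hr : c ∈ range fun t : ℝ => (f t).re := by
    apply mem_range_of_exists_le_of_exists_ge hcont
    · refine ⟨2 * Real.pi * ((-(m : ℤ) : ℤ) : ℝ), ?_⟩
      show (f ((2 * Real.pi * ((-(m : ℤ) : ℤ) : ℝ) : ℝ) : ℂ)).re ≤ c
      rw [hval]
      push_cast
      linarith [hm'.1]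
    · refine ⟨2 * Real.pi * ((m : ℤ) : ℝ), ?_⟩
      show c ≤ (f ((2 * Real.pi * ((m : ℤ) : ℝ) : ℝ) : ℂ)).re
      rw [hval]
      push_cast
      linarith [hm'.2]
  obtain ⟨t, ht⟩ := hr
  refine ⟨t, ?_⟩
  apply Complex.ext
  · rw [Complex.ofReal_re]
    exact ht
  · rw [Complex.ofReal_im]
    exact (h.mono hU).1 t

/-- `ζ = -i log ξ` -/
private noncomputable def gh2_l (ξ : ℂ) : ℂ := -Complex.I * Complex.log ξ

private theorem gh2_l_exp {ξ : ℂ} (h : ξ ≠ 0) : Complex.exp (Complex.I * gh2_l ξ) = ξ := by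
  have e1 : Complex.I * gh2_l ξ = Complex.log ξ := by
    unfold gh2_l
    linear_combination (-Complex.log ξ) * Complex.I_mul_I
  rw [e1, Complex.exp_log h]

private theorem gh2_l_im (ξ : ℂ) : (gh2_l ξ).im = -Real.log ‖ξ‖ := by
  unfold gh2_l
  simp [Complex.log_re]

private theorem gh2_ne {ρ : ℝ} (h0 : 0 < ρ) {ξ : ℂ} (h : ξ ∈ dring ρ) : ξ ≠ 0 := by
  intro h1
  have h2 := h.1
  rw [h1, norm_zero] at h2
  linarith

private theorem gh2_l_mem {ρ : ℝ} (h0 : 0 < ρ) {ξ : ℂ} (h : ξ ∈ dring ρ) :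
    gh2_l ξ ∈ strip (-Real.log ρ) := by
  have hp : 0 < ‖ξ‖ := norm_pos_iff.mpr (gh2_ne h0 h)
  show |(gh2_l ξ).im| < -Real.log ρ
  rw [gh2_l_im, abs_neg, abs_lt, neg_neg]
  constructor
  · exact Real.log_lt_log h0 h.1
  · rw [← Real.log_inv]
    exact Real.log_lt_log hp h.2

private theorem gh2_circ {ρ : ℝ} (h0 : 0 < ρ) (h1 : ρ < 1) {ξ : ℂ} (h : ‖ξ‖ = 1) : ξ ∈ dring ρ := by
  constructor
  · rw [h]; exact h1
  · rw [h]; exact (one_lt_inv₀ h0).mpr h1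

private theorem gh2_l_real {ξ : ℂ} (h : ‖ξ‖ = 1) : gh2_l ξ = (((gh2_l ξ).re : ℝ) : ℂ) := by
  apply Complex.ext
  · rw [Complex.ofReal_re]
  · rw [Complex.ofReal_im, gh2_l_im, h, Real.log_one, neg_zero]

/-- The root. -/
private noncomputable def gh2_S (f : ℂ → ℂ) (k : ℕ) (ξ : ℂ) : ℂ :=
  Complex.exp (Complex.I * f (gh2_l ξ) / k)

private theorem gh2_S_exp {ρ : ℝ} {U : ℂ → ℝ} {f : ℂ → ℂ} {k : ℕ} (h : IsLift ρ U f k)
    {ζ : ℂ} (hζ : ζ ∈ strip (-Real.log ρ)) :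
    gh2_S f k (Complex.exp (Complex.I * ζ)) = Complex.exp (Complex.I * f ζ / k) := by
  have hk : (k : ℂ) ≠ 0 := by
    have := h.kpos
    exact_mod_cast (by omega : k ≠ 0)
  have h1 := gh2_l_exp (Complex.exp_ne_zero (Complex.I * ζ))
  rw [Complex.exp_eq_exp_iff_exists_int] at h1
  obtain ⟨n, hn⟩ := h1
  have h2 : gh2_l (Complex.exp (Complex.I * ζ)) = ζ + ((2 * Real.pi * n : ℝ) : ℂ) := by
    apply mul_left_cancel₀ Complex.I_ne_zero
    rw [hn]
    push_cast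
    ring
  unfold gh2_S
  rw [h2, h.per_int hζ n, Complex.exp_eq_exp_iff_exists_int]
  refine ⟨n, ?_⟩
  push_cast
  field_simp

private theorem gh2_S_der {ρ : ℝ} {U : ℂ → ℝ} (hU : IsRefl ρ U) {f : ℂ → ℂ} {k : ℕ} (h : IsLift ρ U f k)
    {ξ₀ : ℂ} (hξ : ξ₀ ∈ dring ρ) :
    HasDerivAt (gh2_S f k) (gh2_S f k ξ₀ * (deriv f (gh2_l ξ₀) / (k * ξ₀))) ξ₀ := by
  have hk : (k : ℂ) ≠ 0 := by
    have := h.kpos
    exact_mod_cast (by omega : k ≠ 0)
  have hne := gh2_ne hU.h0 hξ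
  have hmem := gh2_l_mem hU.h0 hξ
  have hl0 : -Complex.I * (Complex.log (ξ₀ / ξ₀) + Complex.log ξ₀) = gh2_l ξ₀ := by
    rw [div_self hne, Complex.log_one, zero_add]
    rfl
  have hl : HasDerivAt (fun ξ : ℂ => -Complex.I * (Complex.log (ξ / ξ₀) + Complex.log ξ₀))
      (-Complex.I * (ξ₀⁻¹)) ξ₀ := by
    have h1 : HasDerivAt (fun ξ : ℂ => ξ / ξ₀) (ξ₀⁻¹) ξ₀ := by
      have := (hasDerivAt_id ξ₀).div_const ξ₀
      rwa [one_div] at this
    have h2 : ξ₀ / ξ₀ ∈ Complex.slitPlane := by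
      rw [div_self hne]
      exact Complex.one_mem_slitPlane
    have h3 := h1.clog h2
    rw [div_self hne, div_one] at h3
    exact (h3.add_const _).const_mul _
  have hf : HasDerivAt f (deriv f (gh2_l ξ₀)) (gh2_l ξ₀) := (h.der _ hmem).differentiableAt.hasDerivAt
  have hopen : IsOpen (strip (-Real.log ρ)) :=
    isOpen_lt (continuous_abs.comp Complex.continuous_im) continuous_const
  have hev : ∀ᶠ ξ in 𝓝 ξ₀, gh2_S f k ξ =
      Complex.exp (Complex.I * f (-Complex.I * (Complex.log (ξ / ξ₀) + Complex.log ξ₀)) / k) := by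
    have h1 : ∀ᶠ ξ in 𝓝 ξ₀, -Complex.I * (Complex.log (ξ / ξ₀) + Complex.log ξ₀) ∈
        strip (-Real.log ρ) := by
      apply hl.continuousAt
      show strip (-Real.log ρ) ∈ 𝓝 (-Complex.I * (Complex.log (ξ₀ / ξ₀) + Complex.log ξ₀))
      rw [hl0]
      exact hopen.mem_nhds hmem
    have h2 : ∀ᶠ ξ in 𝓝 ξ₀, ξ ≠ 0 := isOpen_ne.mem_nhds hne
    filter_upwards [h1, h2] with ξ h3 h4
    rw [← gh2_S_exp h h3]
    congr 1
    have e1 : Complex.I * (-Complex.I * (Complex.log (ξ / ξ₀) + Complex.log ξ₀)) =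
        Complex.log (ξ / ξ₀) + Complex.log ξ₀ := by
      linear_combination (-(Complex.log (ξ / ξ₀) + Complex.log ξ₀)) * Complex.I_mul_I
    rw [e1, Complex.exp_add, Complex.exp_log (div_ne_zero h4 hne), Complex.exp_log hne,
      div_mul_cancel₀ _ hne]
  have hcomp : HasDerivAt (fun ξ : ℂ => f (-Complex.I * (Complex.log (ξ / ξ₀) + Complex.log ξ₀)))
      (deriv f (gh2_l ξ₀) * (-Complex.I * (ξ₀⁻¹))) ξ₀ :=
    HasDerivAt.comp ξ₀ (by rw [hl0]; exact hf) hl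
  have h5 := ((hcomp.const_mul Complex.I).div_const (k : ℂ)).cexp
  rw [hl0] at h5
  refine (h5.congr_of_eventuallyEq hev).congr_deriv ?_
  unfold gh2_S
  rw [mul_comm (Complex.exp _), mul_comm (Complex.exp _)]
  congr 1
  field_simp
  linear_combination (-deriv f (gh2_l ξ₀)) * Complex.I_sq

/-- **The root** `S(ξ) = exp(i f(-i log ξ)/k)`: it does not depend on the branch of the logarithm (`per_int`), so near
`ξ₀` it is `exp(i f(ℓ(ξ))/k)` with `ℓ(ξ) = -i(log(ξ/ξ₀) + log ξ₀)`. On the circle `S(exp(it)) = exp(i f(t)/k)`. -/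
theorem exists_root {ρ : ℝ} {U : ℂ → ℝ} (hU : IsRefl ρ U) {f : ℂ → ℂ} {k : ℕ} (h : IsLift ρ U f k) {G : ℂ → ℂ}
    (hG : ∀ ζ : ℂ, 0 < ζ.im → ζ.im < -Real.log ρ →
      G (Complex.exp (Complex.I * ζ)) = Complex.exp (Complex.I * f ζ)) :
    ∃ S : ℂ → ℂ, IsRoot ρ U S k ∧ ∀ ξ ∈ ring ρ, S ξ ^ k = G ξ := by
  have hk0 : k ≠ 0 := by
    have := h.kpos
    omega
  have hk : (k : ℂ) ≠ 0 := by exact_mod_cast hk0
  have hkr : (k : ℝ) ≠ 0 := by exact_mod_cast hk0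
  have hnorm : ∀ ξ ∈ dring ρ, ‖gh2_S f k ξ‖ = Real.exp (-U ξ / k) := by
    intro ξ hξ
    unfold gh2_S
    have e1 : Complex.I * f (gh2_l ξ) / k = Complex.I * (f (gh2_l ξ) / ((k : ℝ) : ℂ)) := by
      push_cast
      ring
    rw [e1, gh2_norm, Complex.div_ofReal_im, h.im _ (gh2_l_mem hU.h0 hξ),
      gh2_l_exp (gh2_ne hU.h0 hξ), neg_div]
  have hval : ∀ t : ℝ, gh2_S f k (Complex.exp (Complex.I * t)) = Complex.exp (Complex.I * f t / k) :=
    fun t => gh2_S_exp h (gh2_real hU.h0 hU.h1 t)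
  refine ⟨gh2_S f k, ⟨h.kpos, ?_, hnorm, ?_, ?_, ?_⟩, ?_⟩
  · intro ξ hξ
    exact (gh2_S_der hU h hξ).differentiableAt.differentiableWithinAt
  · intro ξ hξ
    have h1 := gh2_circ hU.h0 hU.h1 hξ
    rw [(gh2_S_der hU h h1).deriv]
    refine mul_ne_zero (Complex.exp_ne_zero _) (div_ne_zero ?_ (mul_ne_zero hk (gh2_ne hU.h0 h1)))
    rw [gh2_l_real hξ]
    intro h2
    have h3 := h.pos (gh2_l ξ).re
    rw [h2, Complex.zero_re] at h3
    exact lt_irrefl _ h3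
  · intro ξ hξ η hη hS
    rw [mem_sphere_zero_iff_norm] at hξ hη
    have h1 := gh2_circ hU.h0 hU.h1 hξ
    have h2 := gh2_circ hU.h0 hU.h1 hη
    set t := (gh2_l ξ).re with ht
    set s := (gh2_l η).re with hs
    have hSe : Complex.exp (Complex.I * f (t : ℂ) / k) = Complex.exp (Complex.I * f (s : ℂ) / k) := by
      rw [ht, hs, ← gh2_l_real hξ, ← gh2_l_real hη]
      exact hS
    rw [Complex.exp_eq_exp_iff_exists_int] at hSe
    obtain ⟨n, hn⟩ := hSe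
    have h3 : f (t : ℂ) = f ((s + 2 * Real.pi * n : ℝ) : ℂ) := by
      have h4 := h.per_int (gh2_real hU.h0 hU.h1 s) n
      rw [Complex.ofReal_add, h4]
      field_simp at hn
      push_cast
      linear_combination hn
    have h4 : t = s + 2 * Real.pi * n := (h.mono hU).2.injective (by
      show (f (t : ℂ)).re = (f ((s + 2 * Real.pi * n : ℝ) : ℂ)).re
      rw [h3])
    have h5 : ξ = Complex.exp (Complex.I * (t : ℂ)) := by
      rw [ht, ← gh2_l_real hξ, gh2_l_exp (gh2_ne hU.h0 h1)]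
    have h6 : η = Complex.exp (Complex.I * (s : ℂ)) := by
      rw [hs, ← gh2_l_real hη, gh2_l_exp (gh2_ne hU.h0 h2)]
    rw [h5, h6, Complex.exp_eq_exp_iff_exists_int]
    refine ⟨n, ?_⟩
    rw [h4]
    push_cast
    ring
  · apply Subset.antisymm
    · rintro _ ⟨ξ, hξ, rfl⟩
      rw [mem_sphere_zero_iff_norm] at hξ ⊢
      rw [hnorm ξ (gh2_circ hU.h0 hU.h1 hξ), hU.circle hξ]
      simp
    · intro η hη
      rw [mem_sphere_zero_iff_norm] at hη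
      have h2 := gh2_circ hU.h0 hU.h1 hη
      obtain ⟨t, ht⟩ := h.surj hU (k * (gh2_l η).re)
      refine ⟨Complex.exp (Complex.I * t), ?_, ?_⟩
      · rw [mem_sphere_zero_iff_norm, gh2_norm]
        simp
      · rw [hval t, ht]
        have e1 : Complex.I * ((k * (gh2_l η).re : ℝ) : ℂ) / k = Complex.I * gh2_l η := by
          rw [gh2_l_real hη]
          push_cast
          rw [Complex.ofReal_re]
          field_simp
        rw [e1, gh2_l_exp (gh2_ne hU.h0 h2)]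
  · intro ξ hξ
    have h1 : ξ ∈ dring ρ := ⟨hξ.1, hξ.2.trans ((one_lt_inv₀ hU.h0).mpr hU.h1)⟩
    have hne := gh2_ne hU.h0 h1
    have hp : 0 < ‖ξ‖ := norm_pos_iff.mpr hne
    have h2 := hG (gh2_l ξ) (by
      rw [gh2_l_im]
      have := Real.log_neg hp hξ.2
      linarith) (by
      rw [gh2_l_im]
      have := Real.log_lt_log hU.h0 hξ.1
      linarith)
    rw [gh2_l_exp hne] at h2
    rw [h2]
    unfold gh2_S
    rw [← Complex.exp_nat_mul]
    congr 1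
    field_simp

end Pool.Agent.Lib.MP_79abb3_an.PD
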