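import Pool.Agent.Lib.MP_79abb3_an.PD.GH2

/-!
Theorem D, block G, part H3: the inverse T.
-/

set_option autoImplicit false
set_option linter.unusedSectionVars false

open MeasureTheory Set Filter Topology Function
open scoped ENNReal ComplexConjugate

namespace Pool.Agent.Lib.MP_79abb3_an.PD

open Pool.Agent.Lib.MP_79abb3_an.SC

private theorem gh3_dring_open (ρ : ℝ) : IsOpen (dring ρ) :=
  (isOpen_lt continuous_const continuous_norm).inter (isOpen_lt continuous_norm continuous_const)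

private theorem gh3_sphere {ρ : ℝ} (h0 : 0 < ρ) (h1 : ρ < 1) : Metric.sphere (0 : ℂ) 1 ⊆ dring ρ := by
  intro ξ hξ
  rw [mem_sphere_zero_iff_norm] at hξ
  exact ⟨by rw [hξ]; exact h1, by rw [hξ]; exact (one_lt_inv₀ h0).2 h1⟩

private theorem gh3_dring_anti {ρ ρ' : ℝ} (h0 : 0 < ρ) (h : ρ ≤ ρ') : dring ρ' ⊆ dring ρ :=
  fun _ hξ => ⟨h.trans_lt hξ.1, hξ.2.trans_le (inv_anti₀ h0 h)⟩

private theorem gh3_strict {ρ : ℝ} {S : ℂ → ℂ} (hS : DifferentiableOn ℂ S (dring ρ)) {ξ : ℂ}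
    (hξ : ξ ∈ dring ρ) : HasStrictDerivAt S (deriv S ξ) ξ :=
  (hS.analyticOnNhd (gh3_dring_open ρ) ξ hξ).hasStrictDerivAt

/-- `S` is injective on an open neighbourhood `W ⊆ dring ρ` of the circle where `deriv S ≠ 0`
(`Set.InjOn.exists_mem_nhdsSet`; locally injective by `HasStrictDerivAt`). -/
theorem IsRoot.exists_nhd {ρ : ℝ} {U : ℂ → ℝ} (hU : IsRefl ρ U) {S : ℂ → ℂ} {k : ℕ} (hS : IsRoot ρ U S k) :
    ∃ W : Set ℂ, IsOpen W ∧ W ⊆ dring ρ ∧ Metric.sphere 0 1 ⊆ W ∧ InjOn S W ∧ ∀ ξ ∈ W, deriv S ξ ≠ 0 := by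
  have hsub := gh3_sphere hU.h0 hU.h1
  obtain ⟨t, ht, hinj⟩ := hS.inj.exists_mem_nhdsSet (isCompact_sphere 0 1)
    (fun x hx => (gh3_strict hS.holo (hsub hx)).hasDerivAt.continuousAt) (fun x hx => by
      have h1 := (gh3_strict hS.holo (hsub hx)).hasStrictFDerivAt_equiv
        (hS.der x (by rwa [mem_sphere_zero_iff_norm] at hx))
      refine ⟨(h1.toOpenPartialHomeomorph S).source, ?_, ?_⟩
      · exact (h1.toOpenPartialHomeomorph S).open_source.mem_nhds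
          h1.mem_toOpenPartialHomeomorph_source
      · exact (h1.toOpenPartialHomeomorph S).injOn)
  rw [mem_nhdsSet_iff_exists] at ht
  obtain ⟨V, hVo, hCV, hVt⟩ := ht
  have hdc : ContinuousOn (deriv S) (dring ρ) :=
    ((hS.holo.analyticOnNhd (gh3_dring_open ρ)).deriv).continuousOn
  have hO : IsOpen (dring ρ ∩ deriv S ⁻¹' {0}ᶜ) :=
    hdc.isOpen_inter_preimage (gh3_dring_open ρ) isOpen_compl_singleton
  refine ⟨V ∩ (dring ρ ∩ deriv S ⁻¹' {0}ᶜ), hVo.inter hO, ?_, ?_, ?_, ?_⟩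
  · exact fun ξ hξ => hξ.2.1
  · intro ξ hξ
    refine ⟨hCV hξ, hsub hξ, ?_⟩
    exact hS.der ξ (by rwa [mem_sphere_zero_iff_norm] at hξ)
  · exact hinj.mono fun ξ hξ => hVt hξ.1
  · exact fun ξ hξ => hξ.2.2

/-- Open sets containing the circle contain a ring (compactness). -/
theorem exists_dring {W : Set ℂ} (hW : IsOpen W) (h : Metric.sphere (0:ℂ) 1 ⊆ W) {ρ : ℝ} (h1 : ρ < 1) :
    ∃ r, 0 < r ∧ ρ ≤ r ∧ r < 1 ∧ dring r ⊆ W := by
  obtain ⟨δ, hδ, hsub⟩ := (isCompact_sphere (0 : ℂ) 1).exists_thickening_subset_open hW h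
  have h2 : (1 + δ)⁻¹ < 1 := inv_lt_one_of_one_lt₀ (by linarith)
  have h3 : 0 < (1 + δ)⁻¹ := inv_pos.2 (by linarith)
  refine ⟨max ρ (1 + δ)⁻¹, lt_max_of_lt_right h3, le_max_left _ _, max_lt h1 h2, ?_⟩
  refine (gh3_dring_anti h3 (le_max_right _ _)).trans ?_
  intro ξ hξ
  apply hsub
  have hn : 0 < ‖ξ‖ := h3.trans hξ.1
  have hξ0 : ξ ≠ 0 := norm_pos_iff.1 hn
  rw [Metric.mem_thickening_iff]
  refine ⟨(‖ξ‖⁻¹ : ℝ) * ξ, ?_, ?_⟩
  · rw [mem_sphere_zero_iff_norm, norm_mul, Complex.norm_real, norm_inv, norm_norm,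
      inv_mul_cancel₀ hn.ne']
  · rw [dist_eq_norm]
    have h4 : ξ - (‖ξ‖⁻¹ : ℝ) * ξ = ((1 - ‖ξ‖⁻¹ : ℝ) : ℂ) * ξ := by
      push_cast
      ring
    rw [h4, norm_mul, Complex.norm_real, Real.norm_eq_abs]
    have h5 : |1 - ‖ξ‖⁻¹| * ‖ξ‖ = |‖ξ‖ - 1| := by
      rw [← abs_of_pos hn, ← abs_mul, abs_of_pos hn, sub_mul, inv_mul_cancel₀ hn.ne', one_mul]
    rw [h5, abs_lt]
    have h6 := hξ.1
    have h7 := hξ.2
    rw [inv_inv] at h7
    constructor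
    · have h8 : 1 - δ < (1 + δ)⁻¹ := by
        have h9 : (1 + δ)⁻¹ - (1 - δ) = δ ^ 2 / (1 + δ) := by
          have : (1 + δ) ≠ 0 := by linarith
          field_simp
          ring
        have h10 : 0 < δ ^ 2 / (1 + δ) := by positivity
        linarith
      linarith
    · linarith

/-- **The inverse.** `S(W)` is open (`HasStrictDerivAt.map_nhds_eq`) and contains the circle, so it contains a ring
`dring ρ₁`; `T = invFunOn S W`, continuous because `S` is open on `W`, so it has a derivative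
(`HasStrictDerivAt.of_local_left_inverse` or `HasDerivAt.of_local_left_inverse`). `|S ξ| = exp(-U ξ/k)` is `< 1` iff
`|ξ| < 1`. `fill`: near the circle `S(ring r') ⊆ ring r` and `ring r' ⊆ W`, so `ξ = T (S ξ)`. -/
theorem exists_inv {ρ : ℝ} {U : ℂ → ℝ} (hU : IsRefl ρ U) {S : ℂ → ℂ} {k : ℕ} (hS : IsRoot ρ U S k) :
    ∃ (ρ₁ : ℝ) (T : ℂ → ℂ), IsInv ρ ρ₁ S T := by
  obtain ⟨W, hWo, hWr, hCW, hinj, hder⟩ := hS.exists_nhd hU
  have hk : (0 : ℝ) < k := Nat.cast_pos.2 hS.kpos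
  have hnhds : ∀ ξ ∈ W, Filter.map S (𝓝 ξ) = 𝓝 (S ξ) := fun ξ hξ =>
    (gh3_strict hS.holo (hWr hξ)).map_nhds_eq (hder ξ hξ)
  have hSW : IsOpen (S '' W) := by
    rw [isOpen_iff_mem_nhds]
    rintro _ ⟨ξ, hξ, rfl⟩
    rw [← hnhds ξ hξ]
    exact image_mem_map (hWo.mem_nhds hξ)
  have hCSW : Metric.sphere (0 : ℂ) 1 ⊆ S '' W := by
    rw [← hS.surj]
    exact image_mono hCW
  obtain ⟨ρ₁, h0, h01, h1, hring⟩ := exists_dring hSW hCSW hU.h1
  set T := invFunOn S W with hT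
  have hTW : ∀ η ∈ S '' W, T η ∈ W := fun η hη => invFunOn_mem hη
  have hTS : ∀ η ∈ S '' W, S (T η) = η := fun η hη => invFunOn_eq hη
  have hST : ∀ ξ ∈ W, T (S ξ) = ξ := fun ξ hξ =>
    hinj (hTW _ ⟨ξ, hξ, rfl⟩) hξ (hTS _ ⟨ξ, hξ, rfl⟩)
  have hcont : ∀ η ∈ S '' W, ContinuousAt T η := by
    rintro _ ⟨ξ, hξ, rfl⟩
    rw [ContinuousAt, hST ξ hξ]
    intro N hN
    rw [← hnhds ξ hξ]
    rw [Filter.mem_map, Filter.mem_map]
    filter_upwards [hN, hWo.mem_nhds hξ] with y hy hyW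
    rw [mem_preimage, mem_preimage, hST y hyW]
    exact hy
  have hderT : ∀ η ∈ S '' W, HasDerivAt T (deriv S (T η))⁻¹ η := by
    intro η hη
    refine HasDerivAt.of_local_left_inverse (hcont η hη)
      (gh3_strict hS.holo (hWr (hTW η hη))).hasDerivAt (hder _ (hTW η hη)) ?_
    filter_upwards [hSW.mem_nhds hη] with y hy
    exact hTS y hy
  have hexp1 : ∀ ξ ∈ dring ρ, ‖S ξ‖ < 1 → ‖ξ‖ < 1 := by
    intro ξ hξ hlt
    by_contra hge
    rw [not_lt] at hge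
    rw [hS.norm ξ hξ, Real.exp_lt_one_iff] at hlt
    have h3 : 0 < U ξ := by
      by_contra h4
      rw [not_lt] at h4
      have : 0 ≤ -U ξ / k := div_nonneg (neg_nonneg.2 h4) hk.le
      linarith
    rcases hge.lt_or_eq with h4 | h4
    · exact absurd (hU.neg hξ h4) (not_lt.2 h3.le)
    · exact absurd (hU.circle h4.symm) h3.ne'
  have hexp2 : ∀ ξ ∈ dring ρ, ‖S ξ‖ = 1 → ‖ξ‖ = 1 := by
    intro ξ hξ heq
    rw [hS.norm ξ hξ, Real.exp_eq_one_iff] at heq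
    have h3 : U ξ = 0 := by
      have h4 := (div_eq_zero_iff.1 heq).resolve_right hk.ne'
      linarith
    rcases lt_trichotomy ‖ξ‖ 1 with h4 | h4 | h4
    · exact absurd h3 (hU.pos ξ ⟨hξ.1, h4⟩).ne'
    · exact h4
    · exact absurd h3 (hU.neg hξ h4).ne
  refine ⟨ρ₁, T, h1, h01, ?_, ?_, ?_, ?_, ?_, ?_⟩
  · exact fun η hη => (hderT η (hring hη)).differentiableAt.differentiableWithinAt
  · intro η hη
    rw [(hderT η (hring hη)).deriv]
    exact inv_ne_zero (hder _ (hTW η (hring hη)))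
  · exact fun η hη => hTS η (hring hη)
  · intro η hη
    have hη' : η ∈ dring ρ₁ := ⟨hη.1, hη.2.trans ((one_lt_inv₀ h0).2 h1)⟩
    have h3 := hWr (hTW η (hring hη'))
    refine ⟨h3.1, hexp1 _ h3 ?_⟩
    rw [hTS η (hring hη')]
    exact hη.2
  · intro η hη
    have hη' := gh3_sphere h0 h1 hη
    have h3 := hWr (hTW η (hring hη'))
    rw [mem_sphere_zero_iff_norm] at hη ⊢
    refine hexp2 _ h3 ?_
    rw [hTS η (hring hη')]
    exact hη
  · intro r hr hr1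
    have hr0 : 0 < r := h0.trans hr
    have hW'o : IsOpen (W ∩ S ⁻¹' (dring r)) := by
      refine ContinuousOn.isOpen_inter_preimage ?_ hWo (gh3_dring_open r)
      exact hS.holo.continuousOn.mono hWr
    have hCW' : Metric.sphere (0 : ℂ) 1 ⊆ W ∩ S ⁻¹' (dring r) := by
      intro ξ hξ
      refine ⟨hCW hξ, ?_⟩
      have h3 : S ξ ∈ Metric.sphere (0 : ℂ) 1 := by
        rw [← hS.surj]
        exact ⟨ξ, hξ, rfl⟩
      exact gh3_sphere hr0 hr1 h3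
    have hρ := hU.h1
    obtain ⟨r', a0, a1, a2, a3⟩ := exists_dring hW'o hCW' (ρ := (ρ + 1) / 2) (by linarith)
    refine ⟨r', by linarith, a2, ?_⟩
    intro ξ hξ
    have hξ' : ξ ∈ dring r' := ⟨hξ.1, hξ.2.trans ((one_lt_inv₀ a0).2 a2)⟩
    have h4 := a3 hξ'
    refine ⟨S ξ, ⟨h4.2.1, ?_⟩, hST ξ h4.1⟩
    rw [hS.norm ξ (hWr h4.1), Real.exp_lt_one_iff]
    have h5 : 0 < U ξ := hU.pos ξ ⟨by linarith [hξ.1], hξ.2⟩
    exact div_neg_of_neg_of_pos (neg_neg_of_pos h5) hk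

/-- Shrinking. -/
theorem IsInv.mono {ρ ρ₁ ρ₂ : ℝ} {S T : ℂ → ℂ} (h : IsInv ρ ρ₁ S T) (h2 : ρ₁ ≤ ρ₂) (h3 : ρ₂ < 1) (h0 : 0 < ρ₁) :
    IsInv ρ ρ₂ S T where
  h1 := h3
  h01 := h.h01.trans h2
  holo := h.holo.mono (gh3_dring_anti h0 h2)
  der ξ hξ := h.der ξ (gh3_dring_anti h0 h2 hξ)
  inv ξ hξ := h.inv ξ (gh3_dring_anti h0 h2 hξ)
  maps _ hξ := h.maps ⟨h2.trans_lt hξ.1, hξ.2⟩
  circ := h.circ
  fill r hr hr1 := h.fill r (h2.trans_lt hr) hr1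

end Pool.Agent.Lib.MP_79abb3_an.PD
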