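import Pool.Agent.Lib.MP_79abb3_an.PD.GH3
import Pool.Agent.Lib.MP_79abb3_an.PD.GE2

/-!
Theorem D, block G, part H4: new collars.
-/

set_option autoImplicit false
set_option linter.unusedSectionVars false

open MeasureTheory Set Filter Topology Function
open scoped ENNReal ComplexConjugate

namespace Pool.Agent.Lib.MP_79abb3_an.PD

open Pool.Agent.Lib.MP_79abb3_an.SC

private theorem gh4_dring_open (ρ : ℝ) : IsOpen (dring ρ) :=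
  (isOpen_lt continuous_const continuous_norm).inter (isOpen_lt continuous_norm continuous_const)

private theorem gh4_ring_open (ρ : ℝ) : IsOpen (ring ρ) :=
  (isOpen_lt continuous_const continuous_norm).inter (isOpen_lt continuous_norm continuous_const)

open scoped Manifold in
private theorem gh4_cut {ρ₁ ρ₂ : ℝ} (h0 : 0 < ρ₁) (h2 : ρ₁ < ρ₂) (h3 : ρ₂ < 1) :
    ∃ χ : ℂ → ℝ, ContDiff ℝ ((⊤ : ℕ∞) : WithTop ℕ∞) χ ∧ (∀ ξ, ξ ∉ dring ρ₁ → χ =ᶠ[𝓝 ξ] fun _ => 0) ∧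
      ∀ ξ, ρ₂ ≤ ‖ξ‖ → ‖ξ‖ ≤ 1 → χ =ᶠ[𝓝 ξ] fun _ => 1 := by
  have hs : IsClosed (dring ρ₁)ᶜ := (gh4_dring_open ρ₁).isClosed_compl
  have ht : IsClosed {ξ : ℂ | ρ₂ ≤ ‖ξ‖ ∧ ‖ξ‖ ≤ 1} :=
    (isClosed_le continuous_const continuous_norm).inter
      (isClosed_le continuous_norm continuous_const)
  have hd : Disjoint (dring ρ₁)ᶜ {ξ : ℂ | ρ₂ ≤ ‖ξ‖ ∧ ‖ξ‖ ≤ 1} := by
    refine disjoint_left.2 fun ξ hξ hξ2 => hξ ⟨h2.trans_le hξ2.1, hξ2.2.trans_lt ?_⟩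
    exact (one_lt_inv₀ h0).2 (h2.trans h3)
  obtain ⟨f, hf0, hf1, -⟩ := exists_contMDiffMap_zero_one_nhds_of_isClosed (n := (⊤ : ℕ∞)) 𝓘(ℝ, ℂ) hs ht hd
  refine ⟨f, f.contMDiff.contDiff, ?_, ?_⟩
  · intro ξ hξ
    exact hf0.filter_mono (nhds_le_nhdsSet (mem_compl hξ))
  · intro ξ h4 h5
    exact hf1.filter_mono (nhds_le_nhdsSet (show ξ ∈ {ξ : ℂ | ρ₂ ≤ ‖ξ‖ ∧ ‖ξ‖ ≤ 1} from ⟨h4, h5⟩))

/-- **New collar**: `F' = χ · (F ∘ T)`, `χ` a smooth cut-off equal to `1` near `{ρ₂ ≤ |ξ| ≤ 1}` with compact support in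
`dring ρ₁`. -/
theorem IsCollar.comp {D : Set ℂ} {ρ ρ₁ ρ₂ : ℝ} {F S T : ℂ → ℂ} (h0 : 0 < ρ) (hF : IsCollar D ρ F)
    (hT : IsInv ρ ρ₁ S T) (h2 : ρ₁ < ρ₂) (h3 : ρ₂ < 1) :
    ∃ F' : ℂ → ℂ, IsCollar D ρ₂ F' ∧ ∀ ξ ∈ ringc ρ₂, F' ξ = F (T ξ) := by
  have h01 : 0 < ρ₁ := h0.trans_le hT.h01
  have hinv1 : 1 < ρ₁⁻¹ := (one_lt_inv₀ h01).2 (h2.trans h3)
  obtain ⟨χ, hχ, hχ0, hχ1⟩ := gh4_cut h01 h2 h3
  have hcd : ∀ ξ, ξ ∈ ringc ρ₂ → ξ ∈ dring ρ₁ := fun ξ hξ =>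
    ⟨h2.trans hξ.1, hξ.2.trans_lt hinv1⟩
  have hTa : ∀ ξ ∈ dring ρ₁, AnalyticAt ℂ T ξ := hT.holo.analyticOnNhd (gh4_dring_open ρ₁)
  have hTr : ∀ ξ ∈ ringc ρ₂, T ξ ∈ ringc ρ := by
    intro ξ hξ
    rcases hξ.2.lt_or_eq with h4 | h4
    · have h5 := hT.maps (show ξ ∈ ring ρ₁ from ⟨h2.trans hξ.1, h4⟩)
      exact ⟨h5.1, h5.2.le⟩
    · have h5 := hT.circ (show ξ ∈ Metric.sphere (0 : ℂ) 1 from mem_sphere_zero_iff_norm.2 h4)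
      rw [mem_sphere_zero_iff_norm] at h5
      exact ⟨by rw [h5]; exact (hT.h01.trans_lt (h2.trans h3)), h5.le⟩
  have hval : ∀ ξ ∈ ringc ρ₂, (χ ξ : ℂ) * F (T ξ) = F (T ξ) := by
    intro ξ hξ
    rw [(hχ1 ξ hξ.1.le hξ.2).eq_of_nhds]
    simp
  have hTinj : InjOn T (dring ρ₁) := by
    intro a ha b hb hab
    rw [← hT.inv a ha, hab, hT.inv b hb]
  refine ⟨fun ξ => (χ ξ : ℂ) * F (T ξ), ?_, hval⟩
  refine ⟨?_, ?_, ?_, ?_, ?_, ?_⟩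
  · rw [contDiff_iff_contDiffAt]
    intro ξ
    by_cases hξ : ξ ∈ dring ρ₁
    · have h4 : ContDiffAt ℝ ((⊤ : ℕ∞) : WithTop ℕ∞) T ξ := (hTa ξ hξ).contDiffAt.restrict_scalars ℝ
      have h5 : ContDiffAt ℝ ((⊤ : ℕ∞) : WithTop ℕ∞) (fun ξ => F (T ξ)) ξ :=
        hF.smooth.contDiffAt.comp ξ h4
      have h6 : ContDiffAt ℝ ((⊤ : ℕ∞) : WithTop ℕ∞) (fun ξ => (χ ξ : ℂ)) ξ :=
        Complex.ofRealCLM.contDiff.contDiffAt.comp ξ hχ.contDiffAt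
      exact h6.mul h5
    · have h4 : (fun ξ => (χ ξ : ℂ) * F (T ξ)) =ᶠ[𝓝 ξ] fun _ => 0 := by
        filter_upwards [hχ0 ξ hξ] with y hy
        rw [hy]
        simp
      exact contDiffAt_const.congr_of_eventuallyEq h4
  · intro ξ hξ
    have hξc : ξ ∈ ringc ρ₂ := ⟨hξ.1, hξ.2.le⟩
    have h4 : DifferentiableAt ℂ (fun ξ => F (T ξ)) ξ := by
      have h5 : DifferentiableAt ℂ F (T ξ) :=
        (hF.holo _ (hT.maps ⟨h2.trans hξ.1, hξ.2⟩)).differentiableAt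
          ((gh4_ring_open ρ).mem_nhds (hT.maps ⟨h2.trans hξ.1, hξ.2⟩))
      exact h5.comp ξ (hTa ξ (hcd ξ hξc)).differentiableAt
    refine (h4.differentiableWithinAt (s := ring ρ₂)).congr ?_ ?_
    · intro y hy
      exact hval y ⟨hy.1, hy.2.le⟩
    · exact hval ξ hξc
  · intro a ha b hb hab
    simp only [hval a ha, hval b hb] at hab
    exact hTinj (hcd a ha) (hcd b hb) (hF.inj (hTr a ha) (hTr b hb) hab)
  · intro ξ hξ h4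
    have h5 : (fun ξ => (χ ξ : ℂ) * F (T ξ)) =ᶠ[𝓝 ξ] fun ξ => F (T ξ) := by
      filter_upwards [hχ1 ξ hξ.1.le hξ.2] with y hy
      rw [hy]
      simp
    have h6 : HasFDerivAt (𝕜 := ℝ) T (deriv T ξ • (1 : ℂ →L[ℝ] ℂ)) ξ :=
      (hTa ξ (hcd ξ hξ)).differentiableAt.hasDerivAt.complexToReal_fderiv
    have h7 : HasFDerivAt (𝕜 := ℝ) F (fderiv ℝ F (T ξ)) (T ξ) :=
      (hF.smooth.differentiable (by simp)).differentiableAt.hasFDerivAt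
    have h8 := h7.comp ξ h6
    rw [h5.fderiv_eq] at h4
    have h9 := h8.fderiv
    rw [show F ∘ T = fun ξ => F (T ξ) from rfl, h4] at h9
    apply hF.der (T ξ) (hTr ξ hξ)
    have hd := hT.der ξ (hcd ξ hξ)
    ext w
    have h10 := congrArg (fun L : ℂ →L[ℝ] ℂ => L (w / deriv T ξ)) h9
    simp only [ContinuousLinearMap.zero_apply, ContinuousLinearMap.comp_apply,
      ContinuousLinearMap.smul_apply, ContinuousLinearMap.one_apply, smul_eq_mul] at h10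
    rw [mul_div_cancel₀ _ hd] at h10
    exact h10.symm
  · rintro _ ⟨ξ, hξ, rfl⟩
    simp only [hval ξ ⟨hξ.1, hξ.2.le⟩]
    exact hF.sub ⟨T ξ, hT.maps ⟨h2.trans hξ.1, hξ.2⟩, rfl⟩
  · rintro _ ⟨ξ, hξ, rfl⟩
    have hξ' := mem_sphere_zero_iff_norm.1 hξ
    simp only [hval ξ ⟨by rw [hξ']; exact h3, hξ'.le⟩]
    exact hF.bdry ⟨T ξ, hT.circ hξ, rfl⟩

private theorem gh4_max {n : ℕ} (a : Fin n → ℝ) {b : ℝ} (hb : b < 1) (ha : ∀ j, a j < 1) :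
    ∃ c, b ≤ c ∧ c < 1 ∧ ∀ j, a j ≤ c := by
  classical
  set s : Finset ℝ := insert b (Finset.univ.image a) with hs
  have hsne : s.Nonempty := Finset.insert_nonempty _ _
  have hmem := s.max'_mem hsne
  refine ⟨s.max' hsne, s.le_max' _ (Finset.mem_insert_self _ _), ?_, fun j => s.le_max' _ ?_⟩
  · have hmem' : s.max' hsne = b ∨ s.max' hsne ∈ Finset.univ.image a := Finset.mem_insert.1 hmem
    rw [Finset.mem_image] at hmem'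
    rcases hmem' with h5 | ⟨j, -, h5⟩
    · rw [h5]; exact hb
    · rw [← h5]; exact ha j
  · exact Finset.mem_insert_of_mem (Finset.mem_image_of_mem _ (Finset.mem_univ j))

/-- **New system of collars.** `ρ₂` = the same for all `j` (`IsInv.mono`). The images `F' j '' ringc ρ₂` are contained in
`F j '' ringc ρ`. Compactness of `D \ ⋃ F' j '' ring r`: it is `(D \ ⋃ F j '' ring r') \ ⋃ F' j '' ring r` (`fill`: a common
`r'`), the images are open (`IsCollar.open_ring`). -/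
theorem IsCols.comp {D : Set ℂ} (hD : IsOpen D) {n : ℕ} {ρ : ℝ} {F : Fin n → ℂ → ℂ} (hF : IsCols D n ρ F)
    {ρ₁ : Fin n → ℝ} {S T : Fin n → ℂ → ℂ} (hT : ∀ j, IsInv ρ (ρ₁ j) (S j) (T j)) :
    ∃ (ρ₂ : ℝ) (F' : Fin n → ℂ → ℂ), (∀ j, ρ₁ j < ρ₂) ∧ IsCols D n ρ₂ F' ∧
      (∀ j, ∀ ξ ∈ ring ρ₂, F' j ξ = F j (T j ξ)) ∧ ∀ j, F' j '' ring ρ₂ ⊆ F j '' ring ρ := by
  have hρ1 := hF.h1
  have hρ0 := hF.h0
  obtain ⟨ρ₂, hb, h1, ha⟩ := gh4_max (fun j => (ρ₁ j + 1) / 2) (b := (ρ + 1) / 2) (by linarith)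
    (fun j => by have := (hT j).h1; linarith)
  have hlt : ∀ j, ρ₁ j < ρ₂ := fun j => by
    have h4 := (hT j).h1
    have h5 := ha j
    linarith
  have hρ2 : ρ < ρ₂ := by linarith
  have h02 : 0 < ρ₂ := hρ0.trans hρ2
  choose F' hF' hval using fun j => IsCollar.comp hρ0 (hF.col j) (hT j) (hlt j) h1
  have hTr : ∀ j, ∀ ξ ∈ ringc ρ₂, T j ξ ∈ ringc ρ := by
    intro j ξ hξ
    rcases hξ.2.lt_or_eq with h4 | h4
    · have h5 := (hT j).maps (show ξ ∈ ring (ρ₁ j) from ⟨(hlt j).trans hξ.1, h4⟩)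
      exact ⟨h5.1, h5.2.le⟩
    · have h5 := (hT j).circ (show ξ ∈ Metric.sphere (0 : ℂ) 1 from mem_sphere_zero_iff_norm.2 h4)
      rw [mem_sphere_zero_iff_norm] at h5
      exact ⟨by rw [h5]; exact hρ1, h5.le⟩
  have hsubc : ∀ j, F' j '' ringc ρ₂ ⊆ F j '' ringc ρ := by
    rintro j _ ⟨ξ, hξ, rfl⟩
    exact ⟨T j ξ, hTr j ξ hξ, (hval j ξ hξ).symm⟩
  refine ⟨ρ₂, F', hlt, ⟨h02, h1, hF', ?_, ?_⟩, ?_, ?_⟩
  · intro i j hij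
    exact (hF.dis hij).mono (hsubc i) (hsubc j)
  · intro r hr hr1
    choose r' hr'1 hr'2 hr'3 using fun j => (hT j).fill r ((hlt j).trans hr) hr1
    obtain ⟨R, hR1, hR2, hR3⟩ := gh4_max r' (b := (ρ + 1) / 2) (by linarith) hr'2
    have hK := hF.cpt R (by linarith) hR2
    have hO : IsOpen (⋃ j, F' j '' ring r) := by
      refine isOpen_iUnion fun j => (hF' j).open_ring h02 (gh4_ring_open r) ?_
      exact fun ξ hξ => ⟨hr.trans hξ.1, hξ.2⟩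
    have hsub : (⋃ j, F j '' ring R) ⊆ ⋃ j, F' j '' ring r := by
      refine iUnion_mono fun j => ?_
      rintro _ ⟨ξ, hξ, rfl⟩
      obtain ⟨η, hη, hηξ⟩ := hr'3 j (show ξ ∈ ring (r' j) from ⟨(hR3 j).trans_lt hξ.1, hξ.2⟩)
      refine ⟨η, hη, ?_⟩
      rw [hval j η ⟨hr.trans hη.1, hη.2.le⟩, hηξ]
    have heq : D \ ⋃ j, F' j '' ring r = (D \ ⋃ j, F j '' ring R) \ ⋃ j, F' j '' ring r := by
      ext y
      constructor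
      · rintro ⟨hy, hy2⟩
        exact ⟨⟨hy, fun h => hy2 (hsub h)⟩, hy2⟩
      · rintro ⟨⟨hy, -⟩, hy2⟩
        exact ⟨hy, hy2⟩
    rw [heq]
    exact hK.diff hO
  · intro j ξ hξ
    exact hval j ξ ⟨hξ.1, hξ.2.le⟩
  · rintro j _ ⟨ξ, hξ, rfl⟩
    exact ⟨T j ξ, (hT j).maps ⟨(hlt j).trans hξ.1, hξ.2⟩, (hval j ξ ⟨hξ.1, hξ.2.le⟩).symm⟩

end Pool.Agent.Lib.MP_79abb3_an.PD
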