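import Pool.Agent.Lib.MP_79abb3_an.PD.SpC

/-!
Theorem D (MP_79abb3_an), block N: restrictions to sets, pairing.
-/

set_option autoImplicit false
set_option linter.unusedSectionVars false

open MeasureTheory Set Filter Topology Function
open scoped ENNReal InnerProductSpace

namespace Pool.Agent.Lib.MP_79abb3_an.PD

open Pool.Agent.Lib.MP_79abb3_an.SC

/-! ### Restriction to a set -/

private theorem naa_sq (f : L2c) : ‖f‖ ^ 2 = ∫ x, ‖(f : ℂ → ℂ) x‖ ^ 2 := by
  have h1 : ⟪f, f⟫_ℂ = ((‖f‖ ^ 2 : ℝ) : ℂ) := by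
    rw [inner_self_eq_norm_sq_to_K]
    push_cast
    rfl
  have h2 : ⟪f, f⟫_ℂ = ((∫ x, ‖(f : ℂ → ℂ) x‖ ^ 2 : ℝ) : ℂ) := by
    rw [L2.inner_def, ← integral_complex_ofReal]
    refine integral_congr_ae (Eventually.of_forall fun x => ?_)
    show ⟪(f : ℂ → ℂ) x, (f : ℂ → ℂ) x⟫_ℂ = _
    rw [inner_self_eq_norm_sq_to_K]
    push_cast
    rfl
  rw [h1] at h2
  exact_mod_cast h2

private theorem naa_int (f : L2c) : Integrable fun x => ‖(f : ℂ → ℂ) x‖ ^ 2 :=
  (Lp.memLp f).integrable_norm_pow (by norm_num)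

private theorem naa_ind_le (f : L2c) {S : Set ℂ} (h : MeasurableSet S) :
    ‖((Lp.memLp f).indicator h).toLp (S.indicator (f : ℂ → ℂ))‖ ≤ 1 * ‖f‖ := by
  rw [Lp.norm_toLp, Lp.norm_def, one_mul]
  exact ENNReal.toReal_mono (Lp.memLp f).2.ne (eLpNorm_indicator_le _)

/-- Multiplication by the indicator function of a measurable set. -/
noncomputable def ct (S : Set ℂ) : L2c →L[ℂ] L2c :=
  open scoped Classical in if h : MeasurableSet S then
    LinearMap.mkContinuous
      { toFun := fun f => ((Lp.memLp f).indicator h).toLp (S.indicator f)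
        map_add' := fun f g => by
          rw [← MemLp.toLp_add]
          refine MemLp.toLp_congr _ _ ?_
          filter_upwards [Lp.coeFn_add f g] with x hx
          by_cases hxS : x ∈ S
          · simp only [Set.indicator_of_mem hxS, Pi.add_apply, hx]
          · simp only [Set.indicator_of_notMem hxS, Pi.add_apply, add_zero]
        map_smul' := fun c f => by
          rw [RingHom.id_apply, ← MemLp.toLp_const_smul]
          refine MemLp.toLp_congr _ _ ?_
          filter_upwards [Lp.coeFn_smul c f] with x hx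
          by_cases hxS : x ∈ S
          · simp only [Set.indicator_of_mem hxS, Pi.smul_apply, hx]
          · simp only [Set.indicator_of_notMem hxS, Pi.smul_apply, smul_zero] } 1 (fun f => by
          exact naa_ind_le f h)
  else 0

variable {S S' : Set ℂ}

private theorem naa_eq (hS : MeasurableSet S) (f : L2c) :
    ct S f = ((Lp.memLp f).indicator hS).toLp (S.indicator (f : ℂ → ℂ)) := by
  unfold ct
  rw [dif_pos hS, LinearMap.mkContinuous_apply]
  rfl

theorem ct_coe (hS : MeasurableSet S) (f : L2c) : (ct S f : ℂ → ℂ) =ᵐ[volume] S.indicator f := by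
  have hm : MemLp (S.indicator (f : ℂ → ℂ)) 2 (volume : Measure ℂ) := (Lp.memLp f).indicator hS
  have h := hm.coeFn_toLp
  have e : ct S f = hm.toLp (S.indicator (f : ℂ → ℂ)) := naa_eq hS f
  rw [e]
  exact h

/-- `L2.norm_sq_eq_integral` or `L2.inner_def`; `integral_indicator`. -/
theorem norm_ct_sq (hS : MeasurableSet S) (f : L2c) : ‖ct S f‖ ^ 2 = ∫ x in S, ‖f x‖ ^ 2 := by
  rw [naa_sq, ← integral_indicator hS]
  refine integral_congr_ae ?_
  filter_upwards [ct_coe hS f] with x hx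
  rw [hx]
  by_cases hxS : x ∈ S
  · rw [Set.indicator_of_mem hxS, Set.indicator_of_mem hxS]
  · rw [Set.indicator_of_notMem hxS, Set.indicator_of_notMem hxS, norm_zero]
    norm_num

theorem norm_ct_le (S : Set ℂ) (f : L2c) : ‖ct S f‖ ≤ ‖f‖ := by
  by_cases hS : MeasurableSet S
  · rw [naa_eq hS]
    have h := naa_ind_le f hS
    rw [one_mul] at h
    exact h
  · unfold ct
    rw [dif_neg hS, zero_apply, norm_zero]
    exact norm_nonneg _

theorem norm_ct_mono (hS : MeasurableSet S) (hS' : MeasurableSet S') (h : S ⊆ S') (f : L2c) :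
    ‖ct S f‖ ≤ ‖ct S' f‖ := by
  refine le_of_sq_le_sq ?_ (norm_nonneg _)
  rw [norm_ct_sq hS, norm_ct_sq hS']
  exact setIntegral_mono_set (naa_int f).integrableOn
    (Eventually.of_forall fun x => by positivity) (Eventually.of_forall h)

theorem norm_ct_union_sq_le (hS : MeasurableSet S) (hS' : MeasurableSet S') (f : L2c) :
    ‖ct (S ∪ S') f‖ ^ 2 ≤ ‖ct S f‖ ^ 2 + ‖ct S' f‖ ^ 2 := by
  rw [norm_ct_sq (hS.union hS'), norm_ct_sq hS, norm_ct_sq hS', ← Set.union_sdiff_self,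
    setIntegral_union disjoint_sdiff_self_right (hS'.diff hS) (naa_int f).integrableOn
      (naa_int f).integrableOn]
  refine add_le_add le_rfl ?_
  exact setIntegral_mono_set (naa_int f).integrableOn
    (Eventually.of_forall fun x => by positivity)
    (Eventually.of_forall (Set.sdiff_subset : S' \ S ⊆ S'))

/-- Restriction of both components. -/
noncomputable def ctY (S : Set ℂ) : Y2 →L[ℂ] Y2 :=
  ((WithLp.prodContinuousLinearEquiv 2 ℂ L2c L2c).symm : (L2c × L2c) →L[ℂ] Y2) ∘L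
    ((ct S).prodMap (ct S)) ∘L
    ((WithLp.prodContinuousLinearEquiv 2 ℂ L2c L2c : Y2 ≃L[ℂ] (L2c × L2c)) : Y2 →L[ℂ] (L2c × L2c))

theorem ctY_fst (S : Set ℂ) (u : Y2) : (ctY S u).fst = ct S u.fst := rfl

theorem ctY_snd (S : Set ℂ) (u : Y2) : (ctY S u).snd = ct S u.snd := rfl

/-- `WithLp.prod_norm_sq_eq_of_L2` -/
theorem norm_ctY_sq (S : Set ℂ) (u : Y2) : ‖ctY S u‖ ^ 2 = ‖ct S u.fst‖ ^ 2 + ‖ct S u.snd‖ ^ 2 := by
  rw [WithLp.prod_norm_sq_eq_of_L2, ctY_fst, ctY_snd]

theorem norm_ctY_le (S : Set ℂ) (u : Y2) : ‖ctY S u‖ ≤ ‖u‖ := by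
  refine le_of_sq_le_sq ?_ (norm_nonneg _)
  rw [norm_ctY_sq, WithLp.prod_norm_sq_eq_of_L2]
  have h1 := norm_ct_le S u.fst
  have h2 := norm_ct_le S u.snd
  gcongr

theorem norm_ctY_mono (hS : MeasurableSet S) (hS' : MeasurableSet S') (h : S ⊆ S') (u : Y2) :
    ‖ctY S u‖ ≤ ‖ctY S' u‖ := by
  refine le_of_sq_le_sq ?_ (norm_nonneg _)
  rw [norm_ctY_sq, norm_ctY_sq]
  have h1 := norm_ct_mono hS hS' h u.fst
  have h2 := norm_ct_mono hS hS' h u.snd
  gcongr

theorem norm_ctY_union_sq_le (hS : MeasurableSet S) (hS' : MeasurableSet S') (u : Y2) :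
    ‖ctY (S ∪ S') u‖ ^ 2 ≤ ‖ctY S u‖ ^ 2 + ‖ctY S' u‖ ^ 2 := by
  rw [norm_ctY_sq, norm_ctY_sq, norm_ctY_sq]
  have h1 := norm_ct_union_sq_le hS hS' u.fst
  have h2 := norm_ct_union_sq_le hS hS' u.snd
  linarith

/-- Fields of `XD D` vanish outside `D` (`XD_zero`). -/
theorem ctY_D {D : Set ℂ} (hb : Bornology.IsBounded D) (hD : MeasurableSet D) (x : XD D) :
    ctY D (x : Y2) = x := by
  have key : ∀ f : L2c, (∀ᵐ y ∂(volume : Measure ℂ), y ∉ D → f y = 0) → ct D f = f := by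
    intro f hf
    apply Lp.ext
    filter_upwards [ct_coe hD f, hf] with y h1 h2
    rw [h1]
    by_cases hy : y ∈ D
    · rw [Set.indicator_of_mem hy]
    · rw [Set.indicator_of_notMem hy, h2 hy]
  have hz := XD_zero x
  have e1 : (ctY D (x : Y2)).fst = (x : Y2).fst := key _ (hz.mono fun y h hy => (h hy).1)
  have e2 : (ctY D (x : Y2)).snd = (x : Y2).snd := key _ (hz.mono fun y h hy => (h hy).2)
  apply (WithLp.equiv 2 (L2c × L2c)).injective
  exact Prod.ext e1 e2

/-! ### The bilinear pairing -/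

/-- `prL f g = ∫ f g` -/
noncomputable def prL : L2c →L[ℂ] L2c →L[ℂ] ℂ :=
  (ContinuousLinearMap.mul ℂ ℂ).lpPairing volume 2 2

/-- `lpPairing_eq_integral` -/
theorem prL_apply (f g : L2c) : prL f g = ∫ x, f x * g x := by
  unfold prL
  rw [ContinuousLinearMap.lpPairing_eq_integral]
  rfl

theorem norm_prL_le (f g : L2c) : ‖prL f g‖ ≤ ‖f‖ * ‖g‖ := by
  have h1 : prL f g = ⟪star f, g⟫_ℂ := by
    rw [prL_apply, L2.inner_def]
    refine integral_congr_ae ?_
    filter_upwards [Lp.coeFn_star f] with x hx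
    rw [hx, RCLike.inner_apply, Pi.star_apply]
    show _ = g x * (starRingEnd ℂ) ((starRingEnd ℂ) (f x))
    rw [Complex.conj_conj, mul_comm]
  have h2 : ‖(star f : L2c)‖ = ‖f‖ := by
    have h3 : ‖(star f : L2c)‖ ^ 2 = ‖f‖ ^ 2 := by
      rw [naa_sq, naa_sq]
      refine integral_congr_ae ?_
      filter_upwards [Lp.coeFn_star f] with x hx
      rw [hx, Pi.star_apply, norm_star]
    exact (sq_eq_sq₀ (norm_nonneg _) (norm_nonneg _)).1 h3
  rw [h1, ← h2]
  exact norm_inner_le_norm _ _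

/-- for a function `χ ∈ L²` and a class `g` -/
theorem prL_cl2 {χ : ℂ → ℂ} (hχ : MemLp χ 2 (volume : Measure ℂ)) (g : L2c) :
    prL (cl2 χ) g = ∫ x, χ x * g x := by
  rw [prL_apply]
  refine integral_congr_ae ?_
  filter_upwards [cl2_coe hχ] with x hx
  rw [hx]

/-- If `χ = 0` outside `S` then only `ct S g` matters: Cauchy and Schwarz on `S`. -/
theorem norm_int_mul_le {χ : ℂ → ℂ} (hχ : MemLp χ 2 (volume : Measure ℂ)) (hS : MeasurableSet S)
    (h0 : ∀ x ∉ S, χ x = 0) (g : L2c) : ‖∫ x, χ x * g x‖ ≤ ‖cl2 χ‖ * ‖ct S g‖ := by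
  have h1 : ∫ x, χ x * g x = prL (cl2 χ) (ct S g) := by
    rw [prL_cl2 hχ]
    refine integral_congr_ae ?_
    filter_upwards [ct_coe hS g] with x hx
    rw [hx]
    by_cases hxS : x ∈ S
    · rw [Set.indicator_of_mem hxS]
    · rw [h0 x hxS, zero_mul, zero_mul]
  rw [h1]
  exact norm_prL_le _ _

end Pool.Agent.Lib.MP_79abb3_an.PD
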