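import Pool.Agent.Lib.MP_79abb3_an.PD.NAa
import Pool.Agent.Lib.MP_79abb3_an.SC.NcL

/-!
Theorem D (MP_79abb3_an), block N: the evolution of the vorticity.
-/

set_option autoImplicit false
set_option linter.unusedSectionVars false

open MeasureTheory Set Filter Topology Function
open scoped ENNReal InnerProductSpace

namespace Pool.Agent.Lib.MP_79abb3_an.PD

open Pool.Agent.Lib.MP_79abb3_an.SC

/-! ### Weak solutions of the heat equation in `D` -/

/-- `w : (0,∞) → L²` is differentiable with derivative `w'` and `∂_t w = Δw` in `D` in the weak sense. -/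
structure IsHeat (D : Set ℂ) (w w' : ℝ → L2c) : Prop where
  hd : ∀ t, 0 < t → HasDerivAt w (w' t) t
  eq : ∀ t, 0 < t → ∀ χ : ℂ → ℂ, Cc χ → tsupport χ ⊆ D → ∫ x, χ x * w' t x = ∫ x, lap χ x * w t x

private theorem nab_int {f : ℂ → ℂ} (hf : Cc f) (u : L2c) :
    ∫ x, f x * (u : ℂ → ℂ) x = ⟪cl2 (fun x => (starRingEnd ℂ) (f x)), u⟫_ℂ := by
  rw [L2.inner_def]
  refine integral_congr_ae ?_
  filter_upwards [cl2_coe (hf.conj.memLp 2)] with x hx
  rw [hx, RCLike.inner_apply, Complex.conj_conj, mul_comm]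

private theorem nab_lap {f : ℂ → ℂ} (hf : Cc f) : lap (fun x => (starRingEnd ℂ) (f x)) =
    fun x => (starRingEnd ℂ) (lap f x) := by
  funext x
  unfold lap
  rw [hf.smo.px_conj, hf.smo.py_conj, hf.px.smo.px_conj, hf.py.smo.py_conj, map_add]

section
variable {D : Set ℂ}

/-- The vorticity of `Sg (KD D) t q`. -/
noncomputable def omq (D : Set ℂ) (t : ℝ) (q : XD D) : VD D :=
  (ContinuousLinearMap.adjoint (iot D)) (AS (KD D) t q)

theorem omq_def (t : ℝ) (q : XD D) : omq D t q = ContinuousLinearMap.adjoint (iot D) (AS (KD D) t q) := rfl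

variable (hD : Bornology.IsBounded D)
include hD

/-- `iot w(t) = u(t)` (`K_AS`). -/
theorem iot_omq {t : ℝ} (ht : 0 < t) (q : XD D) : iot D (omq D t q) = Sg (KD D) t q := by
  rw [← K_AS (KD_nonneg hD) ht]
  rfl

/-- `|w|² = ⟪AS q, K AS q⟫ = ⟪AS q, Sg q⟫ ≤ t⁻¹ |q|²`. -/
theorem norm_omq_sq_le {t : ℝ} (ht : 0 < t) (q : XD D) : ‖omq D t q‖ ^ 2 ≤ t⁻¹ * ‖q‖ ^ 2 := by
  have h1 : ‖omq D t q‖ ^ 2 = RCLike.re ⟪AS (KD D) t q, Sg (KD D) t q⟫_ℂ := by
    rw [← iot_omq hD ht, ← ContinuousLinearMap.adjoint_inner_left, ← omq_def,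
      inner_self_eq_norm_sq]
  rw [h1]
  have h2 : ‖AS (KD D) t q‖ ≤ t⁻¹ * ‖q‖ :=
    (ContinuousLinearMap.le_opNorm _ _).trans
      (mul_le_mul_of_nonneg_right (AS_norm (KD_nonneg hD) ht) (norm_nonneg _))
  have h3 : ‖Sg (KD D) t q‖ ≤ ‖q‖ := Sg_norm_apply (KD_nonneg hD) t q
  calc RCLike.re ⟪AS (KD D) t q, Sg (KD D) t q⟫_ℂ
      ≤ ‖AS (KD D) t q‖ * ‖Sg (KD D) t q‖ :=
        re_inner_le_norm (𝕜 := ℂ) (AS (KD D) t q) (Sg (KD D) t q)
    _ ≤ (t⁻¹ * ‖q‖) * ‖q‖ := by gcongr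
    _ = t⁻¹ * ‖q‖ ^ 2 := by ring

theorem Sg_hd {t : ℝ} (ht : 0 < t) (q : XD D) :
    HasDerivAt (fun t => (Sg (KD D) t q : XD D)) (-(AS (KD D) t q)) t :=
  Sg_hasDerivAt_apply (KD_nonneg hD) ht q

theorem omq_cont (q : XD D) : ContinuousOn (fun t => omq D t q) (Ioi 0) := by
  have h1 : ContinuousOn (fun t => AS (KD D) t q) (Ioi 0) :=
    (AS_continuousOn (KD_nonneg hD)).clm_apply continuousOn_const
  exact (ContinuousLinearMap.adjoint (iot D)).continuous.comp_continuousOn h1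

/-- Semigroup property. -/
theorem omq_add {s t : ℝ} (hs : 0 ≤ s) (ht : 0 < t) (q : XD D) :
    omq D (t + s) q = omq D t (Sg (KD D) s q) := by
  have h1 := Sg_AS (K := KD D) hs ht
  have h2 : AS (KD D) t * Sg (KD D) s = AS (KD D) (s + t) := by
    have h3 := congrArg star h1
    have e1 : star (AS (KD D) t) = AS (KD D) t := fA_selfAdjoint _ _
    have e2 : star (AS (KD D) (s + t)) = AS (KD D) (s + t) := fA_selfAdjoint _ _
    have e3 : star (Sg (KD D) s) = Sg (KD D) s := Sg_selfAdjoint _ _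
    rw [star_mul, e1, e2, e3] at h3
    exact h3
  rw [omq_def, omq_def, add_comm t s, ← h2]
  rfl

/-- The vorticity solves the heat equation: `w' = -ι† (h₂)` with `AS_hd` (`K h₂ = AS t q`), and for `χ ∈ Cc` with support in `D`
(then `χ`, `conj χ` are in `Adm D`): `∫ χ w(t) = ⟪cl2 (conj χ), w(t)⟫ = ⟪gp (conj χ), Sg t q⟫` (`inner_iot_gp`, `iot_omq`),
`∫ χ w' = -⟪cl2 (conj χ), ι† h₂⟫ = -⟪gpX (conj χ), ι ι† h₂⟫ = -⟪gpX (conj χ), AS t q⟫ = -⟪ι (cuV (conj χ)), AS t q⟫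
= -⟪cuV (conj χ), w(t)⟫ = ∫ lap χ w(t)` (`iot_cuV`, `cu = -lap`). -/
theorem isHeat_omq (hO : IsOpen D) (q : XD D) :
    ∃ w' : ℝ → L2c, IsHeat D (fun t => (omq D t q : L2c)) w' := by
  choose h2 hh2 using fun (t : {t : ℝ // 0 < t}) => AS_hd (KD_nonneg hD) t.2 q
  refine ⟨fun t => if h : 0 < t then
    -((ContinuousLinearMap.adjoint (iot D) (h2 ⟨t, h⟩) : VD D) : L2c) else 0, ?_, ?_⟩
  · intro t ht
    rw [dif_pos ht]
    let A : XD D →L[ℝ] L2c :=
      (((VD D).subtypeL).comp (ContinuousLinearMap.adjoint (iot D))).restrictScalars ℝ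
    have h3 := A.hasFDerivAt.comp_hasDerivAt t (hh2 ⟨t, ht⟩).1
    have h4 : A (-(h2 ⟨t, ht⟩)) =
        -((ContinuousLinearMap.adjoint (iot D) (h2 ⟨t, ht⟩) : VD D) : L2c) := by
      rw [map_neg]
      rfl
    rw [h4] at h3
    exact h3
  · intro t ht χ hχ hsupp
    rw [dif_pos ht]
    have hA : (fun x => (starRingEnd ℂ) (χ x)) ∈ Adm D :=
      ⟨hχ.conj, ((tsupport_fderiv_subset ℝ).trans
        (tsupport_comp_subset (g := fun z : ℂ => (starRingEnd ℂ) z) (map_zero _) _)).trans hsupp⟩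
    have e1 : ⟪cl2 (fun x => (starRingEnd ℂ) (χ x)),
        ((ContinuousLinearMap.adjoint (iot D) (h2 ⟨t, ht⟩) : VD D) : L2c)⟫_ℂ =
        -⟪cl2 (lap (fun x => (starRingEnd ℂ) (χ x))), (omq D t q : L2c)⟫_ℂ := by
      rw [← inner_iot_gp hD _ hχ.conj]
      have h5 : iot D (ContinuousLinearMap.adjoint (iot D) (h2 ⟨t, ht⟩)) = AS (KD D) t q :=
        (hh2 ⟨t, ht⟩).2
      rw [h5]
      have h6 : ⟪gp (fun x => (starRingEnd ℂ) (χ x)), ((AS (KD D) t q : XD D) : Y2)⟫_ℂ =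
          ⟪gpX D ⟨_, hA⟩, AS (KD D) t q⟫_ℂ := rfl
      rw [h6, ← iot_cuV hD, ← ContinuousLinearMap.adjoint_inner_right, ← omq_def]
      have h7 : ⟪cuV D ⟨_, hA⟩, omq D t q⟫_ℂ =
          ⟪cu (fun x => (starRingEnd ℂ) (χ x)), (omq D t q : L2c)⟫_ℂ := rfl
      rw [h7]
      unfold cu
      rw [inner_neg_left]
    have e2 : ∫ x, χ x * (-((ContinuousLinearMap.adjoint (iot D) (h2 ⟨t, ht⟩) : VD D) : L2c) : L2c) x =
        ⟪cl2 (fun x => (starRingEnd ℂ) (χ x)),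
          -((ContinuousLinearMap.adjoint (iot D) (h2 ⟨t, ht⟩) : VD D) : L2c)⟫_ℂ := nab_int hχ _
    rw [e2, inner_neg_right, e1, neg_neg, nab_lap hχ, ← nab_int hχ.lap]

/-- Weak divergence: `∫ (u₁ η_x + u₂ η_y) = 0` for all `η ∈ Cc` and `u ∈ XD D`. By density: for `u = gp ψ`
`∫ (ψ_y η_x - ψ_x η_y) = 0` (`Cc.ibpx`, `Cc.ibpy`, `Smo.pxy`). -/
theorem XD_divD (x : XD D) {η : ℂ → ℂ} (hη : Cc η) :
    ∫ y, ((x : Y2).fst y * px η y + (x : Y2).snd y * py η y) = 0 := by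
  have i1 : MemLp (fun y => px η y) 2 (volume : Measure ℂ) := hη.px.memLp 2
  have i2 : MemLp (fun y => py η y) 2 (volume : Measure ℂ) := hη.py.memLp 2
  have e : ∀ x : XD D, ∫ y, ((x : Y2).fst y * px η y + (x : Y2).snd y * py η y) =
      ⟪cl2 (fun y => (starRingEnd ℂ) (px η y)), (x : Y2).fst⟫_ℂ +
      ⟪cl2 (fun y => (starRingEnd ℂ) (py η y)), (x : Y2).snd⟫_ℂ := by
    intro x
    rw [integral_add, ← nab_int hη.px, ← nab_int hη.py]
    · congr 1
      · exact integral_congr_ae (Eventually.of_forall fun y => mul_comm _ _)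
      · exact integral_congr_ae (Eventually.of_forall fun y => mul_comm _ _)
    · exact (Lp.memLp (x : Y2).fst).integrable_mul i1
    · exact (Lp.memLp (x : Y2).snd).integrable_mul i2
  rw [e]
  have cl : IsClosed {x : XD D | ⟪cl2 (fun y => (starRingEnd ℂ) (px η y)), (x : Y2).fst⟫_ℂ +
      ⟪cl2 (fun y => (starRingEnd ℂ) (py η y)), (x : Y2).snd⟫_ℂ = 0} := by
    have c1 : Continuous fun q : XD D => (q : Y2).fst := by fun_prop
    have c2 : Continuous fun q : XD D => (q : Y2).snd := by fun_prop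
    exact isClosed_eq ((continuous_const.inner c1).add (continuous_const.inner c2))
      continuous_const
  refine isClosed_property (gpX_dense D) cl (fun ψ => ?_) x
  show ⟪cl2 (fun y => (starRingEnd ℂ) (px η y)), cl2 (py ψ)⟫_ℂ +
      ⟪cl2 (fun y => (starRingEnd ℂ) (py η y)), -cl2 (px ψ)⟫_ℂ = 0
  have hψ := Adm.cc ψ
  rw [inner_neg_right, hη.px.conj.inner hψ.py, hη.py.conj.inner hψ.px]
  simp only [Complex.conj_conj]
  have k1 := hψ.ibpy hη.px
  have k2 := hψ.ibpx hη.py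
  have k3 : px (py η) = py (px η) := hη.smo.pxy
  have m1 : ∫ y, px η y * py (ψ : ℂ → ℂ) y = ∫ y, py (ψ : ℂ → ℂ) y * px η y :=
    integral_congr_ae (Eventually.of_forall fun y => mul_comm _ _)
  have m2 : ∫ y, py η y * px (ψ : ℂ → ℂ) y = ∫ y, px (ψ : ℂ → ℂ) y * py η y :=
    integral_congr_ae (Eventually.of_forall fun y => mul_comm _ _)
  rw [m1, m2, k1, k2, k3, neg_neg, neg_add_cancel]

end

end Pool.Agent.Lib.MP_79abb3_an.PD
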