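import Pool.Agent.Lib.MP_79abb3_an.PD.NAb
import Pool.Agent.Lib.MP_79abb3_an.PD.GDef

/-!
Theorem D (MP_79abb3_an), block N: the complex velocities.
-/

set_option autoImplicit false
set_option linter.unusedSectionVars false

open MeasureTheory Set Filter Topology Function
open scoped ENNReal InnerProductSpace

namespace Pool.Agent.Lib.MP_79abb3_an.PD

open Pool.Agent.Lib.MP_79abb3_an.SC

variable {S : Set ℂ}

/-! ### The complex velocities -/

/-- `V₁ = u₁ - i u₂` -/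
noncomputable def cv1 (u : Y2) (x : ℂ) : ℂ := u.fst x - Complex.I * u.snd x

/-- `V₂ = conj (u₁ + i u₂)` -/
noncomputable def cv2 (u : Y2) (x : ℂ) : ℂ := (starRingEnd ℂ) (u.fst x + Complex.I * u.snd x)

theorem cv1_memLp (u : Y2) : MemLp (cv1 u) 2 (volume : Measure ℂ) := by
  exact (Lp.memLp u.fst).sub ((Lp.memLp u.snd).const_mul Complex.I)

theorem cv2_memLp (u : Y2) : MemLp (cv2 u) 2 (volume : Measure ℂ) := by
  have h : MemLp (fun x => u.fst x + Complex.I * u.snd x) 2 (volume : Measure ℂ) :=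
    (Lp.memLp u.fst).add ((Lp.memLp u.snd).const_mul Complex.I)
  exact h.star

/-- `|V₁|² + |V₂|² = 2 (|u₁|² + |u₂|²)` (parallelogram), integrated over `S`. -/
theorem cv_sq (hS : MeasurableSet S) (u : Y2) :
    (∫ x in S, ‖cv1 u x‖ ^ 2) + ∫ x in S, ‖cv2 u x‖ ^ 2 = 2 * ‖ctY S u‖ ^ 2 := by
  rw [norm_ctY_sq, norm_ct_sq hS, norm_ct_sq hS]
  have i1 : Integrable (fun x => ‖cv1 u x‖ ^ 2) (volume.restrict S) :=
    ((cv1_memLp u).restrict S).integrable_norm_pow (by norm_num)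
  have i2 : Integrable (fun x => ‖cv2 u x‖ ^ 2) (volume.restrict S) :=
    ((cv2_memLp u).restrict S).integrable_norm_pow (by norm_num)
  have i3 : Integrable (fun x => ‖u.fst x‖ ^ 2) (volume.restrict S) :=
    ((Lp.memLp u.fst).restrict S).integrable_norm_pow (by norm_num)
  have i4 : Integrable (fun x => ‖u.snd x‖ ^ 2) (volume.restrict S) :=
    ((Lp.memLp u.snd).restrict S).integrable_norm_pow (by norm_num)
  rw [← integral_add i1 i2, ← integral_add i3 i4, ← integral_const_mul]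
  congr 1
  funext x
  unfold cv1 cv2
  rw [RCLike.norm_conj]
  have h := parallelogram_law_with_norm ℝ ((u.fst : ℂ → ℂ) x) (Complex.I * (u.snd : ℂ → ℂ) x)
  rw [norm_mul, Complex.norm_I, one_mul] at h
  nlinarith [h]

private theorem locInt {f : ℂ → ℂ} (h : MemLp f 2 (volume : Measure ℂ)) : LocallyIntegrableOn f univ :=
  (h.locallyIntegrable (by norm_num)).locallyIntegrableOn univ

private theorem mulInt (U : L2c) {η : ℂ → ℂ} (hη : Cc η) : Integrable fun x => (U : ℂ → ℂ) x * η x :=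
  (Lp.memLp U).integrable_mul (hη.memLp 2)

/-- The weak equation for `V₁`: `∂V₁/∂z̄ = -(i/2) w`. `pair_VD` and `XD_divD`:
`∫ V₁ dbar η = ½ ∫ (u₁ η_x + u₂ η_y) + (i/2) ∫ (u₁ η_y - u₂ η_x) = (i/2) ∫ w η`. -/
theorem cv1_WD {D : Set ℂ} (hD : Bornology.IsBounded D) (v : VD D) :
    WD univ (cv1 ((iot D v : XD D) : Y2)) (fun x => -(Complex.I / 2) * (v : L2c) x) := by
  refine ⟨locInt (cv1_memLp _), locInt ((Lp.memLp (v : L2c)).const_mul _), fun ψ hψ => ?_⟩
  have hη : Cc ψ := ⟨hψ.smooth, hψ.cpt⟩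
  have h1 := XD_divD hD (iot D v) hη
  have h2 := pair_VD hD v hη
  set U : Y2 := ((iot D v : XD D) : Y2) with hU
  have iA : Integrable fun x => (U.fst : ℂ → ℂ) x * px ψ x + (U.snd : ℂ → ℂ) x * py ψ x :=
    (mulInt U.fst hη.px).add (mulInt U.snd hη.py)
  have iB : Integrable fun x => (U.fst : ℂ → ℂ) x * py ψ x - (U.snd : ℂ → ℂ) x * px ψ x :=
    (mulInt U.fst hη.py).sub (mulInt U.snd hη.px)
  have e : ∀ x, cv1 U x * dbar ψ x = (1 / 2 : ℂ) * ((U.fst : ℂ → ℂ) x * px ψ x + (U.snd : ℂ → ℂ) x * py ψ x) +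
      (Complex.I / 2) * ((U.fst : ℂ → ℂ) x * py ψ x - (U.snd : ℂ → ℂ) x * px ψ x) := by
    intro x
    unfold cv1 dbar px py
    linear_combination (-(1 / 2 : ℂ) * (U.snd : ℂ → ℂ) x * fderiv ℝ ψ x Complex.I) * Complex.I_mul_I
  have e2 : ∫ x, -(Complex.I / 2) * ((v : L2c) : ℂ → ℂ) x * ψ x =
      -(Complex.I / 2) * ∫ x, ((v : L2c) : ℂ → ℂ) x * ψ x := by
    rw [← integral_const_mul]
    congr 1
    funext x
    ring
  rw [e2, h2]
  simp only [e]
  rw [integral_add (iA.const_mul _) (iB.const_mul _), integral_const_mul, integral_const_mul, h1]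
  ring

/-- The weak equation for `V₂`: `∂V₂/∂z̄ = -(i/2) conj w`. For a test function `ψ`, `η = conj ψ`:
`∫ V₂ dbar ψ = conj ∫ (u₁ + i u₂) (η_x - i η_y)/2 = conj (-(i/2) ∫ w η) = (i/2) ∫ conj w ψ`. -/
theorem cv2_WD {D : Set ℂ} (hD : Bornology.IsBounded D) (v : VD D) :
    WD univ (cv2 ((iot D v : XD D) : Y2)) (fun x => -(Complex.I / 2) * (starRingEnd ℂ) ((v : L2c) x)) := by
  have hvc : MemLp (fun x => (starRingEnd ℂ) ((v : L2c) x)) 2 (volume : Measure ℂ) :=
    (Lp.memLp (v : L2c)).star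
  refine ⟨locInt (cv2_memLp _), locInt (hvc.const_mul _), fun ψ hψ => ?_⟩
  have hη0 : Cc ψ := ⟨hψ.smooth, hψ.cpt⟩
  have hη : Cc (fun x => (starRingEnd ℂ) (ψ x)) := hη0.conj
  have h1 := XD_divD hD (iot D v) hη
  have h2 := pair_VD hD v hη
  set U : Y2 := ((iot D v : XD D) : Y2) with hU
  set η : ℂ → ℂ := fun x => (starRingEnd ℂ) (ψ x) with hηd
  have iA : Integrable fun x => (U.fst : ℂ → ℂ) x * px η x + (U.snd : ℂ → ℂ) x * py η x :=
    (mulInt U.fst hη.px).add (mulInt U.snd hη.py)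
  have iB : Integrable fun x => (U.fst : ℂ → ℂ) x * py η x - (U.snd : ℂ → ℂ) x * px η x :=
    (mulInt U.fst hη.py).sub (mulInt U.snd hη.px)
  have ex : ∀ x, px η x = (starRingEnd ℂ) (px ψ x) := fun x => congrFun hη0.smo.px_conj x
  have ey : ∀ x, py η x = (starRingEnd ℂ) (py ψ x) := fun x => congrFun hη0.smo.py_conj x
  have e : ∀ x, cv2 U x * dbar ψ x = (starRingEnd ℂ) ((1 / 2 : ℂ) *
      ((U.fst : ℂ → ℂ) x * px η x + (U.snd : ℂ → ℂ) x * py η x) +
      (-(Complex.I / 2)) * ((U.fst : ℂ → ℂ) x * py η x - (U.snd : ℂ → ℂ) x * px η x)) := by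
    intro x
    have hd : dbar ψ x = (starRingEnd ℂ) ((px η x - Complex.I * py η x) / 2) := by
      rw [ex, ey]
      unfold dbar px py
      simp only [map_div₀, map_sub, map_mul, Complex.conj_conj, Complex.conj_I, map_ofNat]
      ring
    unfold cv2
    rw [hd, ← map_mul]
    congr 1
    linear_combination (-(1 / 2 : ℂ) * (U.snd : ℂ → ℂ) x * py η x) * Complex.I_mul_I
  have e2 : ∫ x, -(Complex.I / 2) * (starRingEnd ℂ) (((v : L2c) : ℂ → ℂ) x) * ψ x =
      -(Complex.I / 2) * (starRingEnd ℂ) (∫ x, ((v : L2c) : ℂ → ℂ) x * η x) := by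
    rw [← integral_conj, ← integral_const_mul]
    congr 1
    funext x
    rw [hηd, map_mul, Complex.conj_conj]
    ring
  rw [e2, h2]
  simp only [e]
  rw [integral_conj, integral_add (iA.const_mul _) (iB.const_mul _), integral_const_mul,
    integral_const_mul, h1]
  simp only [mul_zero, zero_add, map_mul, map_neg, map_div₀, Complex.conj_I, map_ofNat]
  ring

end Pool.Agent.Lib.MP_79abb3_an.PD
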