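import Pool.Agent.Lib.MP_79abb3_an.PD.SpBa

/-!
Theorem D (MP_79abb3_an), block N: the heat kernel of the plane with a complex shift.
-/

set_option autoImplicit false
set_option linter.unusedSectionVars false

open MeasureTheory Set Filter Topology Function
open scoped ENNReal InnerProductSpace

namespace Pool.Agent.Lib.MP_79abb3_an.PD

/-- first coordinate of the shifted difference -/
noncomputable def k1 (x e z y : ℂ) : ℂ := ((x.re - y.re : ℝ) : ℂ) + z * ((e.re : ℝ) : ℂ)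

/-- second coordinate of the shifted difference -/
noncomputable def k2 (x e z y : ℂ) : ℂ := ((x.im - y.im : ℝ) : ℂ) + z * ((e.im : ℝ) : ℂ)

/-- The heat kernel `(4πs)⁻¹ exp(-((x₁-y₁+z e₁)² + (x₂-y₂+z e₂)²)/(4s))`. -/
noncomputable def hk (s : ℝ) (x e z y : ℂ) : ℂ :=
  ((4 * Real.pi * s : ℝ) : ℂ)⁻¹ * Complex.exp (-(k1 x e z y ^ 2 + k2 x e z y ^ 2) / ((4 * s : ℝ) : ℂ))

variable {s : ℝ} {x e z y : ℂ}

/-- `Re ((x₁-y₁+z e₁)² + (x₂-y₂+z e₂)²) = |x + Re z e - y|² - (Im z)²` if `|e| = 1`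
(`e.re² + e.im² = 1`: `Complex.sq_norm`, `Complex.normSq_apply`); `Complex.norm_exp`. -/
theorem norm_hk (hs : 0 < s) (he : ‖e‖ = 1) (x z y : ℂ) :
    ‖hk s x e z y‖ = (4 * Real.pi * s)⁻¹ *
      Real.exp ((z.im ^ 2 - ‖x + (z.re : ℂ) * e - y‖ ^ 2) / (4 * s)) := by
  have he2 : e.re ^ 2 + e.im ^ 2 = 1 := by
    have h := Complex.sq_norm e
    rw [he, Complex.normSq_apply] at h
    nlinarith
  have h2 : ‖x + (z.re : ℂ) * e - y‖ ^ 2 = (x.re + z.re * e.re - y.re) ^ 2 +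
      (x.im + z.re * e.im - y.im) ^ 2 := by
    rw [Complex.sq_norm, Complex.normSq_apply]
    simp only [Complex.sub_re, Complex.add_re, Complex.mul_re, Complex.ofReal_re, Complex.ofReal_im,
      zero_mul, sub_zero, Complex.sub_im, Complex.add_im, Complex.mul_im, add_zero]
    ring
  have h3 : (k1 x e z y ^ 2 + k2 x e z y ^ 2).re =
      ‖x + (z.re : ℂ) * e - y‖ ^ 2 - z.im ^ 2 * (e.re ^ 2 + e.im ^ 2) := by
    rw [h2]
    simp only [k1, k2, pow_two, Complex.add_re, Complex.mul_re, Complex.add_im, Complex.mul_im,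
      Complex.ofReal_re, Complex.ofReal_im, mul_zero, sub_zero, zero_add]
    ring
  rw [he2, mul_one] at h3
  unfold hk
  rw [norm_mul, norm_inv, Complex.norm_real, Real.norm_of_nonneg (by positivity), Complex.norm_exp,
    Complex.div_ofReal_re, Complex.neg_re, h3, neg_sub]

/-- real shifts -/
theorem hk_shift (s a : ℝ) (x e z y : ℂ) : hk s (x + (a : ℂ) * e) e z y = hk s x e ((a : ℂ) + z) y := by
  have h1 : k1 (x + (a : ℂ) * e) e z y = k1 x e ((a : ℂ) + z) y := by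
    unfold k1
    simp only [Complex.add_re, Complex.mul_re, Complex.ofReal_re, Complex.ofReal_im, zero_mul, sub_zero]
    push_cast
    ring
  have h2 : k2 (x + (a : ℂ) * e) e z y = k2 x e ((a : ℂ) + z) y := by
    unfold k2
    simp only [Complex.add_im, Complex.mul_im, Complex.ofReal_re, Complex.ofReal_im, zero_mul, add_zero]
    push_cast
    ring
  unfold hk
  rw [h1, h2]

/-- without shift the direction does not matter -/
theorem hk_zero (s : ℝ) (x e e' y : ℂ) : hk s x e 0 y = hk s x e' 0 y := by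
  unfold hk k1 k2
  simp only [zero_mul, add_zero]

private theorem nb1_k1_smo (x e z : ℂ) : Smo (k1 x e z) := by
  have h1 : Smo fun y : ℂ => ((x.re - y.re : ℝ) : ℂ) :=
    Complex.ofRealCLM.contDiff.comp (contDiff_const.sub Complex.reCLM.contDiff)
  exact h1.add (Smo.const _)

private theorem nb1_k2_smo (x e z : ℂ) : Smo (k2 x e z) := by
  have h1 : Smo fun y : ℂ => ((x.im - y.im : ℝ) : ℂ) :=
    Complex.ofRealCLM.contDiff.comp (contDiff_const.sub Complex.imCLM.contDiff)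
  exact h1.add (Smo.const _)

private theorem nb1_k1_hd (x e z y : ℂ) :
    HasFDerivAt (𝕜 := ℝ) (k1 x e z) (-(Complex.ofRealCLM.comp Complex.reCLM)) y := by
  have h1 : HasFDerivAt (𝕜 := ℝ) (fun y : ℂ => ((y.re : ℝ) : ℂ))
      (Complex.ofRealCLM.comp Complex.reCLM) y := (Complex.ofRealCLM.comp Complex.reCLM).hasFDerivAt
  have h2 := (h1.const_sub ((x.re : ℝ) : ℂ)).add_const (z * ((e.re : ℝ) : ℂ))
  have e1 : k1 x e z = fun y : ℂ => ((x.re : ℝ) : ℂ) - ((y.re : ℝ) : ℂ) + z * ((e.re : ℝ) : ℂ) := by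
    funext y
    unfold k1
    push_cast
    rfl
  rw [e1]
  exact h2

private theorem nb1_k2_hd (x e z y : ℂ) :
    HasFDerivAt (𝕜 := ℝ) (k2 x e z) (-(Complex.ofRealCLM.comp Complex.imCLM)) y := by
  have h1 : HasFDerivAt (𝕜 := ℝ) (fun y : ℂ => ((y.im : ℝ) : ℂ))
      (Complex.ofRealCLM.comp Complex.imCLM) y := (Complex.ofRealCLM.comp Complex.imCLM).hasFDerivAt
  have h2 := (h1.const_sub ((x.im : ℝ) : ℂ)).add_const (z * ((e.im : ℝ) : ℂ))
  have e1 : k2 x e z = fun y : ℂ => ((x.im : ℝ) : ℂ) - ((y.im : ℝ) : ℂ) + z * ((e.im : ℝ) : ℂ) := by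
    funext y
    unfold k2
    push_cast
    rfl
  rw [e1]
  exact h2

private theorem nb1_px_k1 (x e z y : ℂ) : px (k1 x e z) y = -1 := by
  unfold px
  rw [(nb1_k1_hd x e z y).fderiv]
  simp

private theorem nb1_py_k1 (x e z y : ℂ) : py (k1 x e z) y = 0 := by
  unfold py
  rw [(nb1_k1_hd x e z y).fderiv]
  simp

private theorem nb1_px_k2 (x e z y : ℂ) : px (k2 x e z) y = 0 := by
  unfold px
  rw [(nb1_k2_hd x e z y).fderiv]
  simp

private theorem nb1_py_k2 (x e z y : ℂ) : py (k2 x e z) y = -1 := by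
  unfold py
  rw [(nb1_k2_hd x e z y).fderiv]
  simp

private theorem nb1_px_mul {f g : ℂ → ℂ} (hf : Smo f) (hg : Smo g) (x : ℂ) :
    px (fun x => f x * g x) x = f x * px g x + px f x * g x := by
  unfold px
  rw [fderiv_fun_mul (hf.differentiable x) (hg.differentiable x)]
  simp only [add_apply, smul_apply, smul_eq_mul]
  ring

private theorem nb1_py_mul {f g : ℂ → ℂ} (hf : Smo f) (hg : Smo g) (x : ℂ) :
    py (fun x => f x * g x) x = f x * py g x + py f x * g x := by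
  unfold py
  rw [fderiv_fun_mul (hf.differentiable x) (hg.differentiable x)]
  simp only [add_apply, smul_apply, smul_eq_mul]
  ring

/-- smooth in `y` -/
theorem hk_smo (s : ℝ) (x e z : ℂ) : Smo (hk s x e z) := by
  have h1 : Smo fun y => -(k1 x e z y ^ 2 + k2 x e z y ^ 2) / ((4 * s : ℝ) : ℂ) :=
    (((nb1_k1_smo x e z).pow 2).add ((nb1_k2_smo x e z).pow 2)).neg.div_const _
  have h2 : Smo fun y => Complex.exp (-(k1 x e z y ^ 2 + k2 x e z y ^ 2) / ((4 * s : ℝ) : ℂ)) := h1.cexp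
  exact (Smo.const _).mul h2

private theorem nb1_fd (s : ℝ) (x e z y v : ℂ) : fderiv ℝ (hk s x e z) y v =
    -(2 * (k1 x e z y * fderiv ℝ (k1 x e z) y v + k2 x e z y * fderiv ℝ (k2 x e z) y v)) /
      ((4 * s : ℝ) : ℂ) * hk s x e z y := by
  have d1 : HasFDerivAt (k1 x e z) (fderiv ℝ (k1 x e z) y) y :=
    ((nb1_k1_smo x e z).differentiable y).hasFDerivAt
  have d2 : HasFDerivAt (k2 x e z) (fderiv ℝ (k2 x e z) y) y :=
    ((nb1_k2_smo x e z).differentiable y).hasFDerivAt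
  have h1 := (((((d1.mul d1).add (d2.mul d2)).neg).mul_const (((4 * s : ℝ) : ℂ)⁻¹)).cexp).const_mul
    (((4 * Real.pi * s : ℝ) : ℂ)⁻¹)
  have e1 : hk s x e z = fun y => ((4 * Real.pi * s : ℝ) : ℂ)⁻¹ *
      Complex.exp (-(k1 x e z y * k1 x e z y + k2 x e z y * k2 x e z y) * ((4 * s : ℝ) : ℂ)⁻¹) := by
    funext y
    unfold hk
    rw [div_eq_mul_inv, pow_two, pow_two]
  rw [e1]
  have h2 : fderiv ℝ (fun y => ((4 * Real.pi * s : ℝ) : ℂ)⁻¹ *
      Complex.exp (-(k1 x e z y * k1 x e z y + k2 x e z y * k2 x e z y) * ((4 * s : ℝ) : ℂ)⁻¹)) y = _ :=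
    h1.fderiv
  rw [h2]
  generalize fderiv ℝ (k1 x e z) y = L1
  generalize fderiv ℝ (k2 x e z) y = L2
  simp only [Pi.neg_apply, Pi.add_apply, Pi.mul_apply]
  simp only [smul_apply, smul_eq_mul, neg_apply, add_apply]
  ring

theorem px_hk (hs : s ≠ 0) (x e z y : ℂ) : px (hk s x e z) y = k1 x e z y / ((2 * s : ℝ) : ℂ) * hk s x e z y := by
  have h1 : fderiv ℝ (k1 x e z) y 1 = -1 := nb1_px_k1 x e z y
  have h2 : fderiv ℝ (k2 x e z) y 1 = 0 := nb1_px_k2 x e z y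
  have hs' : (s : ℂ) ≠ 0 := Complex.ofReal_ne_zero.2 hs
  unfold px
  rw [nb1_fd, h1, h2]
  congr 1
  push_cast
  field_simp
  ring

theorem py_hk (hs : s ≠ 0) (x e z y : ℂ) : py (hk s x e z) y = k2 x e z y / ((2 * s : ℝ) : ℂ) * hk s x e z y := by
  have h1 : fderiv ℝ (k1 x e z) y Complex.I = 0 := nb1_py_k1 x e z y
  have h2 : fderiv ℝ (k2 x e z) y Complex.I = -1 := nb1_py_k2 x e z y
  have hs' : (s : ℂ) ≠ 0 := Complex.ofReal_ne_zero.2 hs
  unfold py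
  rw [nb1_fd, h1, h2]
  congr 1
  push_cast
  field_simp
  ring

theorem lap_hk (hs : s ≠ 0) (x e z y : ℂ) : lap (hk s x e z) y =
    ((k1 x e z y ^ 2 + k2 x e z y ^ 2) / ((4 * s ^ 2 : ℝ) : ℂ) - ((s : ℝ) : ℂ)⁻¹) * hk s x e z y := by
  have hs' : (s : ℂ) ≠ 0 := Complex.ofReal_ne_zero.2 hs
  have e1 : px (hk s x e z) = fun y => (((2 * s : ℝ) : ℂ)⁻¹ * k1 x e z y) * hk s x e z y := by
    funext y
    rw [px_hk hs, div_eq_mul_inv, mul_comm (k1 x e z y)]
  have e2 : py (hk s x e z) = fun y => (((2 * s : ℝ) : ℂ)⁻¹ * k2 x e z y) * hk s x e z y := by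
    funext y
    rw [py_hk hs, div_eq_mul_inv, mul_comm (k2 x e z y)]
  unfold lap
  rw [e1, e2, nb1_px_mul ((Smo.const _).mul (nb1_k1_smo x e z)) (hk_smo s x e z),
    nb1_py_mul ((Smo.const _).mul (nb1_k2_smo x e z)) (hk_smo s x e z),
    px_cmul _ (nb1_k1_smo x e z), py_cmul _ (nb1_k2_smo x e z), nb1_px_k1, nb1_py_k2, px_hk hs,
    py_hk hs]
  push_cast
  field_simp
  ring

/-- The heat equation. -/
theorem hk_hd (hs : 0 < s) (x e z y : ℂ) : HasDerivAt (fun s : ℝ => hk s x e z y) (lap (hk s x e z) y) s := by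
  have hs' : (s : ℂ) ≠ 0 := Complex.ofReal_ne_zero.2 hs.ne'
  have hpi : (Real.pi : ℂ) ≠ 0 := Complex.ofReal_ne_zero.2 Real.pi_ne_zero
  rw [lap_hk hs.ne']
  generalize hQ : k1 x e z y ^ 2 + k2 x e z y ^ 2 = Q
  have e1 : (fun s : ℝ => hk s x e z y) = fun s : ℝ =>
      ((s : ℂ)⁻¹ * (4 * Real.pi : ℂ)⁻¹) * Complex.exp ((s : ℂ)⁻¹ * (-Q / 4)) := by
    funext r
    unfold hk
    rw [hQ]
    push_cast
    congr 1
    · rw [mul_inv, mul_comm]
    · congr 1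
      rw [div_eq_mul_inv, mul_inv]
      ring
  have d1 : HasDerivAt (fun s : ℝ => (s : ℂ)⁻¹) (-((1 : ℝ) : ℂ) / (s : ℂ) ^ 2) s := by
    have h0 : HasDerivAt (fun s : ℝ => (s : ℂ)) ((1 : ℝ) : ℂ) s := (hasDerivAt_id s).ofReal_comp
    exact h0.fun_inv hs'
  have d2 := (d1.mul_const ((4 * Real.pi : ℂ)⁻¹)).mul ((d1.mul_const (-Q / 4)).cexp)
  rw [e1]
  refine d2.congr_deriv ?_
  have e2 : hk s x e z y = ((s : ℂ)⁻¹ * (4 * Real.pi : ℂ)⁻¹) * Complex.exp ((s : ℂ)⁻¹ * (-Q / 4)) :=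
    congrFun e1 s
  rw [e2]
  generalize Complex.exp ((s : ℂ)⁻¹ * (-Q / 4)) = X
  push_cast
  field_simp
  ring

/-- The derivative in the shift. -/
noncomputable def hkz (s : ℝ) (x e z y : ℂ) : ℂ :=
  -(2 * (k1 x e z y * ((e.re : ℝ) : ℂ) + k2 x e z y * ((e.im : ℝ) : ℂ))) / ((4 * s : ℝ) : ℂ) * hk s x e z y

theorem hk_hdz (hs : s ≠ 0) (x e z y : ℂ) : HasDerivAt (fun z => hk s x e z y) (hkz s x e z y) z := by
  have _h := hs
  have d1 : HasDerivAt (fun z => k1 x e z y) (1 * ((e.re : ℝ) : ℂ)) z :=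
    ((hasDerivAt_id z).mul_const ((e.re : ℝ) : ℂ)).const_add ((x.re - y.re : ℝ) : ℂ)
  have d2 : HasDerivAt (fun z => k2 x e z y) (1 * ((e.im : ℝ) : ℂ)) z :=
    ((hasDerivAt_id z).mul_const ((e.im : ℝ) : ℂ)).const_add ((x.im - y.im : ℝ) : ℂ)
  have h1 := (((((d1.mul d1).add (d2.mul d2)).neg).mul_const (((4 * s : ℝ) : ℂ)⁻¹)).cexp).const_mul
    (((4 * Real.pi * s : ℝ) : ℂ)⁻¹)
  have e1 : (fun z => hk s x e z y) = fun z => ((4 * Real.pi * s : ℝ) : ℂ)⁻¹ *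
      Complex.exp (-(k1 x e z y * k1 x e z y + k2 x e z y * k2 x e z y) * ((4 * s : ℝ) : ℂ)⁻¹) := by
    funext z
    unfold hk
    rw [div_eq_mul_inv, pow_two, pow_two]
  rw [e1]
  refine h1.congr_deriv ?_
  unfold hkz
  have e2 : hk s x e z y = ((4 * Real.pi * s : ℝ) : ℂ)⁻¹ *
      Complex.exp (-(k1 x e z y * k1 x e z y + k2 x e z y * k2 x e z y) * ((4 * s : ℝ) : ℂ)⁻¹) :=
    congrFun e1 z
  rw [e2]
  simp only [Pi.neg_apply, Pi.add_apply, Pi.mul_apply]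
  ring

private theorem nb1_k1_cont (x e z : ℂ) : Continuous (fun p : ℝ × ℂ => k1 x e z p.2) :=
  (nb1_k1_smo x e z).continuous.comp continuous_snd

private theorem nb1_k2_cont (x e z : ℂ) : Continuous (fun p : ℝ × ℂ => k2 x e z p.2) :=
  (nb1_k2_smo x e z).continuous.comp continuous_snd

private theorem nb1_inv_cont {c : ℝ → ℝ} (hc : Continuous c) (h0 : ∀ s : ℝ, 0 < s → c s ≠ 0) :
    ContinuousOn (fun p : ℝ × ℂ => ((c p.1 : ℝ) : ℂ)⁻¹) (Ioi 0 ×ˢ univ) := by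
  refine ContinuousOn.inv₀ ?_ ?_
  · exact (Complex.continuous_ofReal.comp (hc.comp continuous_fst)).continuousOn
  · rintro ⟨s, y⟩ ⟨hs, -⟩
    exact Complex.ofReal_ne_zero.2 (h0 s hs)

/-- joint continuity in `(s, y)`, `s > 0`, of the kernel, its first derivatives and its Laplacian -/
theorem hk_cont (x e z : ℂ) : ContinuousOn (fun p : ℝ × ℂ => hk p.1 x e z p.2) (Ioi 0 ×ˢ univ) := by
  have h1 : ContinuousOn (fun p : ℝ × ℂ => ((4 * Real.pi * p.1 : ℝ) : ℂ)⁻¹) (Ioi 0 ×ˢ univ) :=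
    nb1_inv_cont (c := fun s => 4 * Real.pi * s) (by fun_prop) fun s hs => by positivity
  have h2 : ContinuousOn (fun p : ℝ × ℂ => ((4 * p.1 : ℝ) : ℂ)⁻¹) (Ioi 0 ×ˢ univ) :=
    nb1_inv_cont (c := fun s => 4 * s) (by fun_prop) fun s hs => by positivity
  have h3 : Continuous (fun p : ℝ × ℂ => -(k1 x e z p.2 ^ 2 + k2 x e z p.2 ^ 2)) :=
    (((nb1_k1_cont x e z).pow 2).add ((nb1_k2_cont x e z).pow 2)).neg
  have h4 := h1.mul ((h3.continuousOn.mul h2).cexp)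
  refine h4.congr ?_
  rintro ⟨s, y⟩ -
  show hk s x e z y = _
  unfold hk
  rw [div_eq_mul_inv]
  rfl

theorem px_hk_cont (x e z : ℂ) : ContinuousOn (fun p : ℝ × ℂ => px (hk p.1 x e z) p.2) (Ioi 0 ×ˢ univ) := by
  have h2 : ContinuousOn (fun p : ℝ × ℂ => ((2 * p.1 : ℝ) : ℂ)⁻¹) (Ioi 0 ×ˢ univ) :=
    nb1_inv_cont (c := fun s => 2 * s) (by fun_prop) fun s hs => by positivity
  refine (((nb1_k1_cont x e z).continuousOn.mul h2).mul (hk_cont x e z)).congr ?_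
  rintro ⟨s, y⟩ ⟨hs, -⟩
  have hs' : (0 : ℝ) < s := hs
  show px (hk s x e z) y = _
  rw [px_hk hs'.ne', div_eq_mul_inv]
  rfl

theorem py_hk_cont (x e z : ℂ) : ContinuousOn (fun p : ℝ × ℂ => py (hk p.1 x e z) p.2) (Ioi 0 ×ˢ univ) := by
  have h2 : ContinuousOn (fun p : ℝ × ℂ => ((2 * p.1 : ℝ) : ℂ)⁻¹) (Ioi 0 ×ˢ univ) :=
    nb1_inv_cont (c := fun s => 2 * s) (by fun_prop) fun s hs => by positivity
  refine (((nb1_k2_cont x e z).continuousOn.mul h2).mul (hk_cont x e z)).congr ?_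
  rintro ⟨s, y⟩ ⟨hs, -⟩
  have hs' : (0 : ℝ) < s := hs
  show py (hk s x e z) y = _
  rw [py_hk hs'.ne', div_eq_mul_inv]
  rfl

theorem lap_hk_cont (x e z : ℂ) : ContinuousOn (fun p : ℝ × ℂ => lap (hk p.1 x e z) p.2) (Ioi 0 ×ˢ univ) := by
  have h1 : ContinuousOn (fun p : ℝ × ℂ => ((4 * p.1 ^ 2 : ℝ) : ℂ)⁻¹) (Ioi 0 ×ˢ univ) :=
    nb1_inv_cont (c := fun s => 4 * s ^ 2) (by fun_prop) fun s hs => by positivity
  have h2 : ContinuousOn (fun p : ℝ × ℂ => ((p.1 : ℝ) : ℂ)⁻¹) (Ioi 0 ×ˢ univ) :=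
    nb1_inv_cont (c := fun s => s) (by fun_prop) fun s hs => hs.ne'
  have h3 : Continuous (fun p : ℝ × ℂ => k1 x e z p.2 ^ 2 + k2 x e z p.2 ^ 2) :=
    ((nb1_k1_cont x e z).pow 2).add ((nb1_k2_cont x e z).pow 2)
  refine (((h3.continuousOn.mul h1).sub h2).mul (hk_cont x e z)).congr ?_
  rintro ⟨s, y⟩ ⟨hs, -⟩
  have hs' : (0 : ℝ) < s := hs
  show lap (hk s x e z) y = _
  rw [lap_hk hs'.ne', div_eq_mul_inv]
  rfl

/-- joint continuity in `(z, y)` and in `(x, y)` -/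
theorem hkz_cont (hs : s ≠ 0) (x e : ℂ) : Continuous (fun p : ℂ × ℂ => hkz s x e p.1 p.2) := by
  have _h := hs
  unfold hkz hk k1 k2
  fun_prop

theorem hk_cont_x (hs : s ≠ 0) (e z : ℂ) : Continuous (fun p : ℂ × ℂ => hk s p.1 e z p.2) := by
  have _h := hs
  unfold hk k1 k2
  fun_prop

/-! ### Product rule for the Laplacian and the commutator -/

theorem lap_mul {f g : ℂ → ℂ} (hf : Smo f) (hg : Smo g) (x : ℂ) : lap (fun x => f x * g x) x =
    f x * lap g x + (2 * (px f x * px g x + py f x * py g x) + lap f x * g x) := by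
  have e1 : px (fun x => f x * g x) = fun x => f x * px g x + px f x * g x := funext (nb1_px_mul hf hg)
  have e2 : py (fun x => f x * g x) = fun x => f x * py g x + py f x * g x := funext (nb1_py_mul hf hg)
  unfold lap
  rw [e1, e2, px_add (hf.mul hg.px) (hf.px.mul hg), py_add (hf.mul hg.py) (hf.py.mul hg),
    nb1_px_mul hf hg.px, nb1_px_mul hf.px hg, nb1_py_mul hf hg.py, nb1_py_mul hf.py hg]
  ring

/-- `2 ∇η·∇hk + Δη hk` -/
noncomputable def kap (η : ℂ → ℂ) (s : ℝ) (x e z y : ℂ) : ℂ :=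
  2 * (px η y * px (hk s x e z) y + py η y * py (hk s x e z) y) + lap η y * hk s x e z y

theorem lap_eta_hk {η : ℂ → ℂ} (hη : Smo η) (s : ℝ) (x e z y : ℂ) :
    lap (fun y => η y * hk s x e z y) y = η y * lap (hk s x e z) y + kap η s x e z y :=
  lap_mul hη (hk_smo s x e z) y

theorem kap_cont {η : ℂ → ℂ} (hη : Smo η) (x e z : ℂ) :
    ContinuousOn (fun p : ℝ × ℂ => kap η p.1 x e z p.2) (Ioi 0 ×ˢ univ) := by
  have c1 : Continuous (fun p : ℝ × ℂ => px η p.2) := hη.px.continuous.comp continuous_snd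
  have c2 : Continuous (fun p : ℝ × ℂ => py η p.2) := hη.py.continuous.comp continuous_snd
  have c3 : Continuous (fun p : ℝ × ℂ => lap η p.2) := hη.lap.continuous.comp continuous_snd
  exact (continuousOn_const.mul ((c1.continuousOn.mul (px_hk_cont x e z)).add
    (c2.continuousOn.mul (py_hk_cont x e z)))).add (c3.continuousOn.mul (hk_cont x e z))

end Pool.Agent.Lib.MP_79abb3_an.PD
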