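import Pool.Agent.Lib.MP_79abb3_an.PD.SpA

/-!
Theorem D (MP_79abb3_an), block N: families of functions with a common compact support, as curves in `L²`.
-/

set_option autoImplicit false
set_option linter.unusedSectionVars false

open MeasureTheory Set Filter Topology Function
open scoped ENNReal InnerProductSpace

namespace Pool.Agent.Lib.MP_79abb3_an.PD

/-- A continuous function which vanishes outside a compact set is square integrable. -/
theorem memLp_of_zero {K : Set ℂ} (hK : IsCompact K) {f : ℂ → ℂ} (hf : Continuous f)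
    (h0 : ∀ y ∉ K, f y = 0) : MemLp f 2 (volume : Measure ℂ) := by
  have hs : HasCompactSupport f :=
    HasCompactSupport.of_support_subset_isCompact hK fun y hy => by
      by_contra h
      exact hy (h0 y h)
  exact hf.memLp_of_hasCompactSupport hs

/-- `‖cl2 f‖ ≤ C √|K|` if `|f| ≤ C` on `K`, `f = 0` outside `K`. -/
theorem norm_cl2_le {K : Set ℂ} (hK : IsCompact K) {f : ℂ → ℂ} (hf : Continuous f)
    (h0 : ∀ y ∉ K, f y = 0) {C : ℝ} (hC : ∀ y ∈ K, ‖f y‖ ≤ C) (hC0 : 0 ≤ C) :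
    ‖cl2 f‖ ≤ C * √(volume.real K) := by
  have hm := memLp_of_zero hK hf h0
  rw [cl2_eq hm, Lp.norm_toLp]
  have e1 : K.indicator f = f := by
    funext y
    by_cases hy : y ∈ K
    · rw [indicator_of_mem hy]
    · rw [indicator_of_notMem hy, h0 y hy]
  have e2 : eLpNorm f 2 (volume : Measure ℂ) = eLpNorm f 2 (volume.restrict K) := by
    conv_lhs => rw [← e1]
    exact eLpNorm_indicator_eq_eLpNorm_restrict hK.measurableSet
  have h1 : eLpNorm f 2 (volume.restrict K) ≤ (volume.restrict K) Set.univ ^ (2 : ℝ≥0∞).toReal⁻¹ *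
      ENNReal.ofReal C := by
    refine eLpNorm_le_of_ae_bound ?_
    rw [ae_restrict_iff' hK.measurableSet]
    exact Eventually.of_forall hC
  rw [Measure.restrict_apply_univ] at h1
  have hfin : volume K ≠ ∞ := hK.measure_lt_top.ne
  rw [e2]
  have h2 : ((volume K) ^ (2 : ℝ≥0∞).toReal⁻¹ * ENNReal.ofReal C).toReal = C * √(volume.real K) := by
    rw [ENNReal.toReal_mul, ENNReal.toReal_ofReal hC0, mul_comm, ← ENNReal.toReal_rpow,
      Real.sqrt_eq_rpow]
    norm_num [Measure.real]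
  rw [← h2]
  refine ENNReal.toReal_mono ?_ h1
  exact ENNReal.mul_ne_top (ENNReal.rpow_ne_top_of_nonneg (by norm_num) hfin) ENNReal.ofReal_ne_top

private theorem nb2_sub {f g : ℂ → ℂ} (hf : MemLp f 2 (volume : Measure ℂ))
    (hg : MemLp g 2 (volume : Measure ℂ)) : cl2 (fun x => f x - g x) = cl2 f - cl2 g := by
  have h : MemLp (fun x => f x - g x) 2 (volume : Measure ℂ) := hf.sub hg
  rw [cl2_eq hf, cl2_eq hg, cl2_eq h]; rfl

private theorem nb2_smul {𝕜 : Type*} [RCLike 𝕜] [NormedSpace 𝕜 ℂ] (c : 𝕜) {f : ℂ → ℂ}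
    (hf : MemLp f 2 (volume : Measure ℂ)) : cl2 (fun x => c • f x) = c • cl2 f := by
  have h : MemLp (fun x => c • f x) 2 (volume : Measure ℂ) := hf.const_smul c
  rw [cl2_eq hf, cl2_eq h]; rfl

private theorem nb2_unif {α : Type*} [TopologicalSpace α] {S : Set α} {K : Set ℂ} (hK : IsCompact K)
    {F : α → ℂ → ℂ} (hF : ContinuousOn (uncurry F) (S ×ˢ univ)) {q : α} (hq : q ∈ S) {ε : ℝ}
    (hε : 0 < ε) : ∀ᶠ p in 𝓝[S] q, ∀ x ∈ K, ‖F p x - F q x‖ < ε := by
  obtain ⟨v, hv, h⟩ := hK.mem_uniformity_of_prod (hF.mono (prod_mono_right (subset_univ K))) hq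
    (Metric.dist_mem_uniformity hε)
  filter_upwards [hv] with p hp x hx
  have h1 := h p hp x hx
  rw [← dist_eq_norm]
  exact h1

private theorem nb2_slice {α : Type*} [TopologicalSpace α] {S : Set α}
    {F : α → ℂ → ℂ} (hF : ContinuousOn (uncurry F) (S ×ˢ univ)) {q : α} (hq : q ∈ S) :
    Continuous (F q) := by
  have h1 : Continuous fun y : ℂ => (q, y) := by fun_prop
  exact hF.comp_continuous h1 fun y => ⟨hq, mem_univ y⟩

/-- Continuity: `F` jointly continuous on `(a,b) × ℂ`, `F s = 0` outside the compact set `K`. Proof: `norm_cl2_le` for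
`F s' - F s`, and `F` is uniformly continuous on compact sets: `sup_K |F s' - F s| → 0` (e.g.
`ContinuousOn.tendstoUniformly..` or `IsCompact` and the tube lemma, or by contradiction with sequences). -/
theorem cl2_contOn {a b : ℝ} {K : Set ℂ} (hK : IsCompact K) {F : ℝ → ℂ → ℂ}
    (hF : ContinuousOn (uncurry F) (Ioo a b ×ˢ univ)) (h0 : ∀ s ∈ Ioo a b, ∀ y ∉ K, F s y = 0) :
    ContinuousOn (fun s => cl2 (F s)) (Ioo a b) := by
  intro s hs
  have hc : ∀ r ∈ Ioo a b, Continuous (F r) := fun r hr => nb2_slice hF hr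
  have hm : ∀ r ∈ Ioo a b, MemLp (F r) 2 (volume : Measure ℂ) := fun r hr =>
    memLp_of_zero hK (hc r hr) (h0 r hr)
  refine Metric.tendsto_nhds.2 fun ε hε => ?_
  have hV : 0 ≤ √(volume.real K) := Real.sqrt_nonneg _
  set V := √(volume.real K) with hVd
  have hδ : 0 < ε / (V + 1) := by positivity
  filter_upwards [nb2_unif hK hF hs hδ, self_mem_nhdsWithin] with r hr hrS
  rw [dist_eq_norm, ← nb2_sub (hm r hrS) (hm s hs)]
  have h1 : ‖cl2 (fun x => F r x - F s x)‖ ≤ ε / (V + 1) * V :=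
    norm_cl2_le (f := fun x => F r x - F s x) hK ((hc r hrS).sub (hc s hs))
      (fun y hy => by rw [h0 r hrS y hy, h0 s hs y hy, sub_zero])
      (fun y hy => (hr y hy).le) hδ.le
  refine h1.trans_lt ?_
  rw [div_mul_eq_mul_div, div_lt_iff₀ (by positivity)]
  nlinarith

private theorem nb2_core {𝕜 : Type*} [RCLike 𝕜] [NormedSpace 𝕜 ℂ] {O : Set 𝕜} (hO : IsOpen O)
    {K : Set ℂ} (hK : IsCompact K) {F F' : 𝕜 → ℂ → ℂ}
    (hd : ∀ z ∈ O, ∀ y, HasDerivAt (fun z => F z y) (F' z y) z)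
    (hF' : ContinuousOn (uncurry F') (O ×ˢ univ)) {z : 𝕜} (hz : z ∈ O) {ε : ℝ} (hε : 0 < ε) :
    ∀ᶠ w in 𝓝 z, ∀ y ∈ K, ‖F w y - F z y - (w - z) • F' z y‖ ≤ ε * ‖w - z‖ := by
  have h1 := nb2_unif hK hF' hz hε
  rw [hO.nhdsWithin_eq hz] at h1
  have h2 : ∀ᶠ w in 𝓝 z, w ∈ O ∧ ∀ x ∈ K, ‖F' w x - F' z x‖ < ε := (hO.eventually_mem hz).and h1
  obtain ⟨δ, hδ, hb⟩ := Metric.eventually_nhds_iff_ball.1 h2
  filter_upwards [Metric.ball_mem_nhds z hδ] with w hw y hy
  have hdg : ∀ r ∈ Metric.ball z δ, HasDerivWithinAt (fun r => F r y - r • F' z y)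
      (F' r y - (1 : 𝕜) • F' z y) (Metric.ball z δ) r := fun r hr =>
    ((hd r (hb r hr).1 y).sub ((hasDerivAt_id r).smul_const (F' z y))).hasDerivWithinAt
  have hbd : ∀ r ∈ Metric.ball z δ, ‖F' r y - (1 : 𝕜) • F' z y‖ ≤ ε := fun r hr => by
    rw [one_smul]
    exact ((hb r hr).2 y hy).le
  have h3 := Convex.norm_image_sub_le_of_norm_hasDerivWithin_le hdg hbd (convex_ball z δ)
    (Metric.mem_ball_self hδ) hw
  have e : F w y - F z y - (w - z) • F' z y = (F w y - w • F' z y) - (F z y - z • F' z y) := by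
    rw [sub_smul]
    abel
  rw [e]
  exact h3

private theorem nb2_zero {𝕜 : Type*} [RCLike 𝕜] [NormedSpace 𝕜 ℂ] {O : Set 𝕜} (hO : IsOpen O)
    {K : Set ℂ} {F F' : 𝕜 → ℂ → ℂ}
    (hd : ∀ z ∈ O, ∀ y, HasDerivAt (fun z => F z y) (F' z y) z)
    (h0 : ∀ z ∈ O, ∀ y ∉ K, F z y = 0) {z : 𝕜} (hz : z ∈ O) : ∀ y ∉ K, F' z y = 0 := by
  intro y hy
  have h1 : (fun z => F z y) =ᶠ[𝓝 z] fun _ => (0 : ℂ) := by
    filter_upwards [hO.mem_nhds hz] with w hw
    exact h0 w hw y hy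
  have h2 : HasDerivAt (fun z => F z y) 0 z := (hasDerivAt_const z (0 : ℂ)).congr_of_eventuallyEq h1
  exact (hd z hz y).unique h2

private theorem nb2_main {𝕜 : Type*} [RCLike 𝕜] [NormedSpace 𝕜 ℂ] {O : Set 𝕜} (hO : IsOpen O)
    {K : Set ℂ} (hK : IsCompact K) {F F' : 𝕜 → ℂ → ℂ}
    (hF : ∀ z ∈ O, Continuous (F z))
    (hd : ∀ z ∈ O, ∀ y, HasDerivAt (fun z => F z y) (F' z y) z)
    (hF' : ContinuousOn (uncurry F') (O ×ˢ univ)) (h0 : ∀ z ∈ O, ∀ y ∉ K, F z y = 0) {z : 𝕜}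
    (hz : z ∈ O) : HasDerivAt (fun z => cl2 (F z)) (cl2 (F' z)) z := by
  have hm : ∀ r ∈ O, MemLp (F r) 2 (volume : Measure ℂ) := fun r hr =>
    memLp_of_zero hK (hF r hr) (h0 r hr)
  have h0' : ∀ y ∉ K, F' z y = 0 := nb2_zero hO hd h0 hz
  have hc' : Continuous (F' z) := nb2_slice hF' hz
  have hm' : MemLp (F' z) 2 (volume : Measure ℂ) := memLp_of_zero hK hc' h0'
  rw [hasDerivAt_iff_isLittleO]
  refine Asymptotics.isLittleO_iff.2 fun c hc => ?_
  have hV : 0 ≤ √(volume.real K) := Real.sqrt_nonneg _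
  set V := √(volume.real K) with hVd
  have hδ : 0 < c / (V + 1) := by positivity
  filter_upwards [nb2_core hO hK hd hF' hz hδ, hO.mem_nhds hz] with w hw hwO
  have hsm : MemLp (fun x => (w - z) • F' z x) 2 (volume : Measure ℂ) := hm'.const_smul (w - z)
  have hs1 : MemLp (fun x => F w x - F z x) 2 (volume : Measure ℂ) := (hm w hwO).sub (hm z hz)
  rw [← nb2_smul (w - z) hm', ← nb2_sub (hm w hwO) (hm z hz), ← nb2_sub hs1 hsm]
  have h1 := norm_cl2_le (f := fun x => F w x - F z x - (w - z) • F' z x) hK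
    (((hF w hwO).sub (hF z hz)).sub (continuous_const.smul hc'))
    (fun y hy => by rw [h0 w hwO y hy, h0 z hz y hy, h0' y hy, smul_zero, sub_zero, sub_zero])
    hw (by positivity)
  refine h1.trans ?_
  have h2 : c / (V + 1) * V ≤ c := by
    rw [div_mul_eq_mul_div, div_le_iff₀ (by positivity)]
    nlinarith
  calc c / (V + 1) * ‖w - z‖ * V = c / (V + 1) * V * ‖w - z‖ := by ring
    _ ≤ c * ‖w - z‖ := mul_le_mul_of_nonneg_right h2 (norm_nonneg _)

/-- Differentiability with respect to a real parameter. Proof: `F s' y - F s y - (s'-s) F' s y = ∫_s^{s'} (F' r y - F' s y) dr`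
(or the mean value inequality `image_norm_le_of_norm_deriv_right_le_deriv_boundary`,
`Convex.norm_image_sub_le_of_norm_hasDerivWithin_le`), so its sup over `K` is `≤ |s'-s| sup_{r between, y ∈ K} |F' r y - F' s y|`
`= o(|s'-s|)` (uniform continuity on a compact set), and it vanishes outside `K`; `norm_cl2_le`. -/
theorem cl2_hasDerivAt {a b : ℝ} {K : Set ℂ} (hK : IsCompact K) {F F' : ℝ → ℂ → ℂ}
    (hF : ∀ s ∈ Ioo a b, Continuous (F s))
    (hd : ∀ s ∈ Ioo a b, ∀ y, HasDerivAt (fun s => F s y) (F' s y) s)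
    (hF' : ContinuousOn (uncurry F') (Ioo a b ×ˢ univ)) (h0 : ∀ s ∈ Ioo a b, ∀ y ∉ K, F s y = 0) :
    ∀ s ∈ Ioo a b, HasDerivAt (fun s => cl2 (F s)) (cl2 (F' s)) s := fun _ hs =>
  nb2_main isOpen_Ioo hK hF hd hF' h0 hs

/-- The same with a complex parameter in an open set `O`. -/
theorem cl2_hasDerivAt_c {O : Set ℂ} (hO : IsOpen O) {K : Set ℂ} (hK : IsCompact K) {F F' : ℂ → ℂ → ℂ}
    (hF : ∀ z ∈ O, Continuous (F z))
    (hd : ∀ z ∈ O, ∀ y, HasDerivAt (fun z => F z y) (F' z y) z)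
    (hF' : ContinuousOn (uncurry F') (O ×ˢ univ)) (h0 : ∀ z ∈ O, ∀ y ∉ K, F z y = 0) :
    ∀ z ∈ O, HasDerivAt (fun z => cl2 (F z)) (cl2 (F' z)) z := fun _ hz =>
  nb2_main hO hK hF hd hF' h0 hz

end Pool.Agent.Lib.MP_79abb3_an.PD
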