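import Pool.Agent.Lib.MP_79abb3_an.PD.NAb
import Pool.Agent.Lib.MP_79abb3_an.PD.NB1
import Pool.Agent.Lib.MP_79abb3_an.PD.NB2

/-!
Theorem D (MP_79abb3_an), block N: the localized heat kernel representation, for times before the singular time.
-/

set_option autoImplicit false
set_option linter.unusedSectionVars false

open MeasureTheory Set Filter Topology Function
open scoped ENNReal InnerProductSpace

namespace Pool.Agent.Lib.MP_79abb3_an.PD

/-- `Φ_s = ∫ η hk_{τ-s}(x,e,z,·) w(s)` -/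
noncomputable def Phi (η : ℂ → ℂ) (w : ℝ → L2c) (τ s : ℝ) (x e z : ℂ) : ℂ :=
  ∫ y, (η y * hk (τ - s) x e z y) * w s y

/-- the integrand in time: `∫ kap_{τ-s}(x,e,z,·) w(s)` -/
noncomputable def Gk (η : ℂ → ℂ) (w : ℝ → L2c) (τ s : ℝ) (x e z : ℂ) : ℂ :=
  ∫ y, kap η (τ - s) x e z y * w s y

variable {D : Set ℂ} {η : ℂ → ℂ} {w w' : ℝ → L2c} {τ : ℝ}

private theorem nb3a_loc {f : ℂ → ℂ} {U : Set ℂ} (hU : IsOpen U) {c : ℂ} (hc : ∀ y ∈ U, f y = c)
    {y : ℂ} (hy : y ∈ U) : fderiv ℝ f y = 0 := by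
  have h1 : f =ᶠ[𝓝 y] fun _ => c := by
    filter_upwards [hU.mem_nhds hy] with u hu
    exact hc u hu
  rw [h1.fderiv_eq]
  exact fderiv_const_apply c

private theorem nb3a_px {f : ℂ → ℂ} {U : Set ℂ} (hU : IsOpen U) {c : ℂ} (hc : ∀ y ∈ U, f y = c) :
    ∀ y ∈ U, px f y = 0 := fun y hy => by
  unfold px
  rw [nb3a_loc hU hc hy]
  rfl

private theorem nb3a_py {f : ℂ → ℂ} {U : Set ℂ} (hU : IsOpen U) {c : ℂ} (hc : ∀ y ∈ U, f y = c) :
    ∀ y ∈ U, py f y = 0 := fun y hy => by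
  unfold py
  rw [nb3a_loc hU hc hy]
  rfl

/-- `Cc` functions times smooth functions; `tsupport (η g) ⊆ tsupport η`. -/
theorem Phi_test (hη : Cc η) (s : ℝ) (x e z : ℂ) :
    Cc (fun y => η y * hk s x e z y) ∧ tsupport (fun y => η y * hk s x e z y) ⊆ tsupport η :=
  ⟨hη.mul_smo (hk_smo s x e z), closure_mono (support_mul_subset_left η (hk s x e z))⟩

/-- The commutator vanishes where `dη = 0` in a neighbourhood; in particular outside `tsupport η`, and on open sets where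
`η` is constant. -/
theorem kap_zero {U : Set ℂ} (hU : IsOpen U) {c : ℂ} (hc : ∀ y ∈ U, η y = c) {s : ℝ} {x e z y : ℂ} (hy : y ∈ U) :
    kap η s x e z y = 0 := by
  have h1 : px η y = 0 := nb3a_px hU hc y hy
  have h2 : py η y = 0 := nb3a_py hU hc y hy
  have h3 : lap η y = 0 := by
    unfold lap
    rw [nb3a_px hU (nb3a_px hU hc) y hy, nb3a_py hU (nb3a_py hU hc) y hy, add_zero]
  unfold kap
  rw [h1, h2, h3]
  ring

theorem kap_zero' {s : ℝ} {x e z y : ℂ} (hy : y ∉ tsupport η) : kap η s x e z y = 0 :=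
  kap_zero (U := (tsupport η)ᶜ) (isClosed_tsupport η).isOpen_compl (c := 0)
    (fun _ hu => image_eq_zero_of_notMem_tsupport hu) hy

private theorem nb3a_hkCc (hη : Cc η) (s : ℝ) (x e z : ℂ) :
    Cc (fun y => η y * lap (hk s x e z) y) := hη.mul_smo (hk_smo s x e z).lap

private theorem nb3a_kapCc (hη : Cc η) (s : ℝ) (x e z : ℂ) : Cc (kap η s x e z) := by
  have h1 : kap η s x e z = fun y => lap (fun y => η y * hk s x e z y) y +
      -(η y * lap (hk s x e z) y) := by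
    funext y
    rw [lap_eta_hk hη.smo]
    ring
  rw [h1]
  exact (Phi_test hη s x e z).1.lap.add (nb3a_hkCc hη s x e z).neg

private theorem nb3a_Gk (hη : Cc η) (s : ℝ) (x e z : ℂ) :
    Gk η w τ s x e z = prL (cl2 (kap η (τ - s) x e z)) (w s) := by
  rw [prL_cl2 ((nb3a_kapCc hη (τ - s) x e z).memLp 2)]
  rfl

private theorem nb3a_Phi (hη : Cc η) (s : ℝ) (x e z : ℂ) :
    Phi η w τ s x e z = prL (cl2 (fun y => η y * hk (τ - s) x e z y)) (w s) := by
  rw [prL_cl2 ((Phi_test hη (τ - s) x e z).1.memLp 2)]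
  rfl

private theorem nb3a_map : MapsTo (fun p : ℝ × ℂ => (τ - p.1, p.2)) (Ioo 0 τ ×ˢ univ)
    (Ioi 0 ×ˢ univ) := by
  rintro ⟨s, y⟩ ⟨hs, -⟩
  exact ⟨sub_pos.2 hs.2, mem_univ y⟩

private theorem nb3a_mapc : ContinuousOn (fun p : ℝ × ℂ => (τ - p.1, p.2)) (Ioo 0 τ ×ˢ univ) := by
  fun_prop

private theorem nb3a_kapco (hη : Cc η) (x e z : ℂ) :
    ContinuousOn (fun p : ℝ × ℂ => kap η (τ - p.1) x e z p.2) (Ioo 0 τ ×ˢ univ) :=
  ContinuousOn.comp (g := fun p : ℝ × ℂ => kap η p.1 x e z p.2)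
    (f := fun p : ℝ × ℂ => (τ - p.1, p.2)) (kap_cont hη.smo x e z) (nb3a_mapc (τ := τ))
    (nb3a_map (τ := τ))

private theorem nb3a_lapco (x e z : ℂ) :
    ContinuousOn (fun p : ℝ × ℂ => lap (hk (τ - p.1) x e z) p.2) (Ioo 0 τ ×ˢ univ) :=
  ContinuousOn.comp (g := fun p : ℝ × ℂ => lap (hk p.1 x e z) p.2)
    (f := fun p : ℝ × ℂ => (τ - p.1, p.2)) (lap_hk_cont x e z) (nb3a_mapc (τ := τ))
    (nb3a_map (τ := τ))

/-- continuity of the integrand in time (`cl2_contOn` for `kap`, continuity of `w`, `prL_cl2`) -/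
theorem Gk_cont (hw : IsHeat D w w') (hη : Cc η) (x e z : ℂ) :
    ContinuousOn (fun s => Gk η w τ s x e z) (Ioo 0 τ) := by
  have h1 : ContinuousOn (fun s => cl2 (kap η (τ - s) x e z)) (Ioo 0 τ) := by
    refine cl2_contOn hη.cpt.isCompact (F := fun s => kap η (τ - s) x e z) ?_
      fun s _ y hy => kap_zero' hy
    exact nb3a_kapco hη x e z
  have h2 : ContinuousOn w (Ioo 0 τ) := fun t ht => (hw.hd t ht.1).continuousAt.continuousWithinAt
  have h3 : (fun s => Gk η w τ s x e z) = fun s => prL (cl2 (kap η (τ - s) x e z)) (w s) :=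
    funext fun s => nb3a_Gk hη s x e z
  rw [h3]
  exact (prL.continuous.comp_continuousOn h1).clm_apply h2

/-- The derivative. `Φ_s = prL (cl2 (η hk_{τ-s})) (w s)`; `s ↦ cl2 (η hk_{τ-s})` has the derivative `-cl2 (η lap hk_{τ-s})`
(`cl2_hasDerivAt`, `hk_hd`, `lap_hk_cont`), `w` has the derivative `w'`, product rule for the bilinear map `prL`
(`HasDerivAt.clm_apply` or `ContinuousLinearMap.hasFDerivAt_of_bilinear`): `d/ds Φ = -∫ η lap hk w + ∫ η hk w'
= -∫ η lap hk w + ∫ lap (η hk) w = ∫ kap w` (`IsHeat.eq`, `lap_eta_hk`). -/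
theorem Phi_hasDerivAt (hw : IsHeat D w w') (hη : Cc η) (hs : tsupport η ⊆ D) {s : ℝ} (h0 : 0 < s)
    (hτ : s < τ) (x e z : ℂ) :
    HasDerivAt (fun s => Phi η w τ s x e z) (Gk η w τ s x e z) s := by
  have h1 : HasDerivAt (fun s => cl2 (fun y => η y * hk (τ - s) x e z y))
      (cl2 (fun y => -(η y * lap (hk (τ - s) x e z) y))) s := by
    refine cl2_hasDerivAt (a := 0) (b := τ) hη.cpt.isCompact
      (F := fun s y => η y * hk (τ - s) x e z y)
      (F' := fun s y => -(η y * lap (hk (τ - s) x e z) y)) ?_ ?_ ?_ ?_ s ⟨h0, hτ⟩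
    · intro s _
      exact (Phi_test hη (τ - s) x e z).1.smo.continuous
    · intro s hs y
      have h2 := (HasDerivAt.comp_const_sub τ s (hk_hd (sub_pos.2 hs.2) x e z y)).const_mul (η y)
      rw [mul_neg] at h2
      exact h2
    · have c1 : Continuous (fun p : ℝ × ℂ => η p.2) := hη.smo.continuous.comp continuous_snd
      exact (c1.continuousOn.mul (nb3a_lapco x e z)).neg
    · intro s _ y hy
      simp only [image_eq_zero_of_notMem_tsupport hy, zero_mul]
  have h2 := hw.hd s h0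
  let B : L2c →L[ℝ] L2c →L[ℝ] ℂ := ContinuousLinearMap.bilinearRestrictScalars ℝ prL
  have h3 : HasDerivAt (fun s => B (cl2 (fun y => η y * hk (τ - s) x e z y)) (w s))
      (B (cl2 (fun y => η y * hk (τ - s) x e z y)) (w' s) +
        B (cl2 (fun y => -(η y * lap (hk (τ - s) x e z) y))) (w s)) s :=
    ContinuousLinearMap.hasDerivAt_of_bilinear (fun _ => h1) (fun _ => h2)
  have h4 : (fun s => Phi η w τ s x e z) =
      fun s => B (cl2 (fun y => η y * hk (τ - s) x e z y)) (w s) :=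
    funext fun s => nb3a_Phi hη s x e z
  rw [h4]
  refine h3.congr_deriv ?_
  have t1 := Phi_test hη (τ - s) x e z
  have m1 : MemLp (fun y => η y * lap (hk (τ - s) x e z) y) 2 (volume : Measure ℂ) :=
    (nb3a_hkCc hη (τ - s) x e z).memLp 2
  have m2 : MemLp (kap η (τ - s) x e z) 2 (volume : Measure ℂ) :=
    (nb3a_kapCc hη (τ - s) x e z).memLp 2
  have e1 : prL (cl2 (fun y => η y * hk (τ - s) x e z y)) (w' s) =
      prL (cl2 (fun y => η y * lap (hk (τ - s) x e z) y)) (w s) +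
        prL (cl2 (kap η (τ - s) x e z)) (w s) := by
    rw [prL_cl2 (t1.1.memLp 2), hw.eq s h0 _ t1.1 (t1.2.trans hs),
      ← prL_cl2 (t1.1.lap.memLp 2)]
    have e2 : lap (fun y => η y * hk (τ - s) x e z y) =
        fun y => η y * lap (hk (τ - s) x e z) y + kap η (τ - s) x e z y :=
      funext fun y => lap_eta_hk hη.smo (τ - s) x e z y
    rw [e2, cl2_add m1 m2, map_add]
    rfl
  have e3 : cl2 (fun y => -(η y * lap (hk (τ - s) x e z) y)) =
      -cl2 (fun y => η y * lap (hk (τ - s) x e z) y) := by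
    have h5 := cl2_smul (-1) m1
    simp only [neg_one_mul, neg_one_smul] at h5
    exact h5
  have e4 : prL (cl2 (fun y => -(η y * lap (hk (τ - s) x e z) y))) (w s) =
      -prL (cl2 (fun y => η y * lap (hk (τ - s) x e z) y)) (w s) := by
    rw [e3, map_neg]
    rfl
  change prL (cl2 (fun y => η y * hk (τ - s) x e z y)) (w' s) +
    prL (cl2 (fun y => -(η y * lap (hk (τ - s) x e z) y))) (w s) = _
  rw [e1, e4, nb3a_Gk hη]
  ring

theorem Phi_sub (hw : IsHeat D w w') (hη : Cc η) (hs : tsupport η ⊆ D) {t1 t2 : ℝ} (h0 : 0 < t1)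
    (h12 : t1 ≤ t2) (hτ : t2 < τ) (x e z : ℂ) :
    Phi η w τ t2 x e z - Phi η w τ t1 x e z = ∫ s in t1..t2, Gk η w τ s x e z := by
  have hsub : uIcc t1 t2 ⊆ Ioo 0 τ := by
    rw [uIcc_of_le h12]
    intro t ht
    exact ⟨h0.trans_le ht.1, ht.2.trans_lt hτ⟩
  refine (intervalIntegral.integral_eq_sub_of_hasDerivAt (f := fun s => Phi η w τ s x e z)
    (f' := fun s => Gk η w τ s x e z) (fun t ht => ?_) ?_).symm
  · exact Phi_hasDerivAt hw hη hs (hsub ht).1 (hsub ht).2 x e z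
  · exact ((Gk_cont hw hη x e z).mono hsub).intervalIntegrable

end Pool.Agent.Lib.MP_79abb3_an.PD
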