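import Pool.Agent.Lib.MP_79abb3_an.PD.NB3a

/-!
Theorem D (MP_79abb3_an), block N: the localized heat kernel representation, dependence on the point.
-/

set_option autoImplicit false
set_option linter.unusedSectionVars false

open MeasureTheory Set Filter Topology Function
open scoped ENNReal InnerProductSpace

namespace Pool.Agent.Lib.MP_79abb3_an.PD

variable {D : Set ℂ} {η : ℂ → ℂ} {w w' : ℝ → L2c} {τ : ℝ}

private theorem nb3b_zero {η : ℂ → ℂ} (g : ℂ → ℂ) : ∀ y ∉ tsupport η, η y * g y = 0 := by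
  intro y hy
  rw [image_eq_zero_of_notMem_tsupport hy, zero_mul]

private theorem nb3b_mem (hη : Cc η) {g : ℂ → ℂ} (hg : Continuous g) :
    MemLp (fun y => η y * g y) 2 (volume : Measure ℂ) :=
  memLp_of_zero hη.cpt (hη.smo.continuous.mul hg) (nb3b_zero g)

private theorem nb3b_sub {f g : ℂ → ℂ} (hf : MemLp f 2 (volume : Measure ℂ))
    (hg : MemLp g 2 (volume : Measure ℂ)) : cl2 (fun x => f x - g x) = cl2 f - cl2 g := by
  have h : MemLp (fun x => f x - g x) 2 (volume : Measure ℂ) := hf.sub hg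
  rw [cl2_eq hf, cl2_eq hg, cl2_eq h]; rfl

private theorem nb3b_cont {K : Set ℂ} (hK : IsCompact K) {F : ℂ → ℂ → ℂ} (hF : Continuous (uncurry F))
    (h0 : ∀ x, ∀ y ∉ K, F x y = 0) : Continuous (fun x => cl2 (F x)) := by
  have hc : ∀ r, Continuous (F r) := fun r => hF.comp (by fun_prop : Continuous fun y : ℂ => (r, y))
  have hm : ∀ r, MemLp (F r) 2 (volume : Measure ℂ) := fun r => memLp_of_zero hK (hc r) (h0 r)
  rw [continuous_iff_continuousAt]
  intro q
  refine Metric.tendsto_nhds.2 fun ε hε => ?_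
  have hV : 0 ≤ √(volume.real K) := Real.sqrt_nonneg _
  set V := √(volume.real K) with hVd
  have hδ : 0 < ε / (V + 1) := by positivity
  obtain ⟨v, hv, h⟩ := hK.mem_uniformity_of_prod (s := univ)
    (hF.continuousOn (s := univ ×ˢ K)) (mem_univ q) (Metric.dist_mem_uniformity hδ)
  rw [nhdsWithin_univ] at hv
  filter_upwards [hv] with r hr
  rw [dist_eq_norm, ← nb3b_sub (hm r) (hm q)]
  have h1 : ‖cl2 (fun x => F r x - F q x)‖ ≤ ε / (V + 1) * V :=
    norm_cl2_le (f := fun x => F r x - F q x) hK ((hc r).sub (hc q))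
      (fun y hy => by rw [h0 r y hy, h0 q y hy, sub_zero])
      (fun y hy => by
        have h2 := h r hr y hy
        rw [← dist_eq_norm]
        exact le_of_lt h2) hδ.le
  refine h1.trans_lt ?_
  rw [div_mul_eq_mul_div, div_lt_iff₀ (by positivity)]
  nlinarith

private theorem nb3b_Phi (hη : Cc η) (s : ℝ) (x e z : ℂ) :
    Phi η w τ s x e z = prL.flip (w s) (cl2 (fun y => η y * hk (τ - s) x e z y)) := by
  rw [ContinuousLinearMap.flip_apply, prL_cl2 (nb3b_mem hη (hk_smo _ _ _ _).continuous)]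
  rfl

/-- `Φ_s` is entire in `z` (`cl2_hasDerivAt_c` with `O = univ`, `hk_hdz`, `hkz_cont`, then the continuous linear functional
`f ↦ prL f (w s)`). -/
theorem Phi_entire (hη : Cc η) {s : ℝ} (hτ : s < τ) (x e : ℂ) :
    Differentiable ℂ (fun z => Phi η w τ s x e z) := by
  have hs : τ - s ≠ 0 := (sub_pos.2 hτ).ne'
  have e1 : (fun z => Phi η w τ s x e z) =
      fun z => prL.flip (w s) (cl2 (fun y => η y * hk (τ - s) x e z y)) :=
    funext fun z => nb3b_Phi hη s x e z
  rw [e1]
  intro z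
  have h1 := cl2_hasDerivAt_c isOpen_univ (K := tsupport η) hη.cpt
    (F := fun z y => η y * hk (τ - s) x e z y) (F' := fun z y => η y * hkz (τ - s) x e z y)
    (fun z _ => hη.smo.continuous.mul (hk_smo _ _ _ _).continuous)
    (fun z _ y => (hk_hdz hs x e z y).const_mul (η y))
    (by
      have h2 : Continuous fun p : ℂ × ℂ => η p.2 * hkz (τ - s) x e p.1 p.2 :=
        (hη.smo.continuous.comp continuous_snd).mul (hkz_cont hs x e)
      exact h2.continuousOn)
    (fun z _ => nb3b_zero _) z (mem_univ z)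
  exact ((prL.flip (w s)).hasFDerivAt.comp_hasDerivAt z h1).differentiableAt

/-- `Φ_s` is continuous in `x` at `z = 0`. -/
theorem Phi_cont_x (hη : Cc η) {s : ℝ} (hτ : s < τ) (e z : ℂ) :
    Continuous (fun x => Phi η w τ s x e z) := by
  have hs : τ - s ≠ 0 := (sub_pos.2 hτ).ne'
  have e1 : (fun x => Phi η w τ s x e z) =
      fun x => prL.flip (w s) (cl2 (fun y => η y * hk (τ - s) x e z y)) :=
    funext fun x => nb3b_Phi hη s x e z
  rw [e1]
  refine (prL.flip (w s)).continuous.comp ?_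
  exact nb3b_cont (K := tsupport η) hη.cpt (F := fun x y => η y * hk (τ - s) x e z y)
    ((hη.smo.continuous.comp continuous_snd).mul (hk_cont_x hs e z)) (fun x => nb3b_zero _)

theorem Phi_shift (s : ℝ) (a : ℝ) (x e z : ℂ) :
    Phi η w τ s (x + (a : ℂ) * e) e z = Phi η w τ s x e ((a : ℂ) + z) := by
  unfold Phi
  simp only [hk_shift]

theorem Gk_shift (s : ℝ) (a : ℝ) (x e z : ℂ) :
    Gk η w τ s (x + (a : ℂ) * e) e z = Gk η w τ s x e ((a : ℂ) + z) := by
  have h : hk (τ - s) (x + (a : ℂ) * e) e z = hk (τ - s) x e ((a : ℂ) + z) :=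
    funext fun y => hk_shift _ _ _ _ _ _
  unfold Gk kap
  rw [h]

theorem Phi_dir (s : ℝ) (x e e' : ℂ) : Phi η w τ s x e 0 = Phi η w τ s x e' 0 := by
  unfold Phi
  simp only [hk_zero _ x e e']

theorem Gk_dir (s : ℝ) (x e e' : ℂ) : Gk η w τ s x e 0 = Gk η w τ s x e' 0 := by
  have h : hk (τ - s) x e 0 = hk (τ - s) x e' 0 := funext fun y => hk_zero _ _ _ _ _
  unfold Gk kap
  rw [h]

end Pool.Agent.Lib.MP_79abb3_an.PD
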