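import Pool.Agent.Lib.MP_79abb3_an.PD.NB3a

/-!
Theorem D (MP_79abb3_an), block N: bounds of the localized heat kernel.
-/

set_option autoImplicit false
set_option linter.unusedSectionVars false

open MeasureTheory Set Filter Topology Function
open scoped ENNReal InnerProductSpace

namespace Pool.Agent.Lib.MP_79abb3_an.PD

/-- `s^{-k} exp(-a/s)` is bounded for `s > 0` (`Real.pow_div_factorial_le_exp`). -/
theorem exp_div_bdd {a : ℝ} (ha : 0 < a) (k : ℕ) : ∃ C, 0 ≤ C ∧ ∀ s, 0 < s → (s⁻¹) ^ k * Real.exp (-(a / s)) ≤ C := by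
  refine ⟨(k.factorial : ℝ) / a ^ k, by positivity, fun s hs => ?_⟩
  have h1 := Real.pow_div_factorial_le_exp (a / s) (by positivity) k
  have hf : (0 : ℝ) < (k.factorial : ℝ) := by exact_mod_cast Nat.factorial_pos k
  rw [div_le_iff₀ hf] at h1
  rw [Real.exp_neg, ← div_eq_mul_inv, div_le_div_iff₀ (Real.exp_pos _) (by positivity), ← mul_pow]
  have e1 : s⁻¹ * a = a / s := by rw [div_eq_mul_inv, mul_comm]
  rw [e1, mul_comm (k.factorial : ℝ)]
  exact h1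

/-- The cut-off: `η = 1` on `ball x₁ (2R)`, support in `ball x₁ (3R)`. -/
structure Cutb (x₁ : ℂ) (R : ℝ) (η : ℂ → ℂ) : Prop where
  cc : Cc η
  one : ∀ y ∈ Metric.ball x₁ (2 * R), η y = 1
  sup : tsupport η ⊆ Metric.ball x₁ (3 * R)

/-- `ContDiffBump` -/
theorem exists_Cutb (x₁ : ℂ) {R : ℝ} (hR : 0 < R) : ∃ η, Cutb x₁ R η := by
  let f : ContDiffBump x₁ := ⟨2 * R, 5 / 2 * R, by positivity, by linarith⟩
  have hts : tsupport (fun y => ((f y : ℝ) : ℂ)) ⊆ Metric.closedBall x₁ (5 / 2 * R) := by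
    refine closure_minimal ?_ Metric.isClosed_closedBall
    intro y hy
    have hy' : f y ≠ 0 := fun h => hy (by simp only [h, Complex.ofReal_zero])
    have h1 : y ∈ Function.support f := hy'
    rw [f.support_eq] at h1
    exact Metric.ball_subset_closedBall h1
  refine ⟨fun y => ((f y : ℝ) : ℂ), ⟨?_, ?_⟩, ?_, ?_⟩
  · exact Complex.ofRealCLM.contDiff.comp f.contDiff
  · exact (isCompact_closedBall x₁ (5 / 2 * R)).of_isClosed_subset (isClosed_tsupport _) hts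
  · intro y hy
    have h1 : f y = 1 := f.one_of_mem_closedBall (Metric.ball_subset_closedBall hy)
    simp only [h1, Complex.ofReal_one]
  · exact hts.trans (Metric.closedBall_subset_ball (by linarith))

private theorem nb4_bd {f : ℂ → ℂ} (h : Cc f) : ∃ C, 0 ≤ C ∧ ∀ y, ‖f y‖ ≤ C := by
  obtain ⟨C, hC⟩ := h.cpt.exists_bound_of_continuous h.smo.continuous
  exact ⟨C, (norm_nonneg _).trans (hC 0), hC⟩

private theorem nb4_k1 {x e z y : ℂ} (he : ‖e‖ = 1) : ‖k1 x e z y‖ ≤ ‖x - y‖ + ‖z‖ := by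
  unfold k1
  refine (norm_add_le _ _).trans (add_le_add ?_ ?_)
  · rw [Complex.norm_real, Real.norm_eq_abs]
    have := Complex.abs_re_le_norm (x - y)
    rwa [Complex.sub_re] at this
  · rw [norm_mul, Complex.norm_real, Real.norm_eq_abs]
    have := Complex.abs_re_le_norm e
    rw [he] at this
    exact mul_le_of_le_one_right (norm_nonneg _) this

private theorem nb4_k2 {x e z y : ℂ} (he : ‖e‖ = 1) : ‖k2 x e z y‖ ≤ ‖x - y‖ + ‖z‖ := by
  unfold k2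
  refine (norm_add_le _ _).trans (add_le_add ?_ ?_)
  · rw [Complex.norm_real, Real.norm_eq_abs]
    have := Complex.abs_im_le_norm (x - y)
    rwa [Complex.sub_im] at this
  · rw [norm_mul, Complex.norm_real, Real.norm_eq_abs]
    have := Complex.abs_im_le_norm e
    rw [he] at this
    exact mul_le_of_le_one_right (norm_nonneg _) this

private theorem nb4_kap_cont {η : ℂ → ℂ} (hη : Smo η) (s : ℝ) (x e z : ℂ) :
    Continuous (kap η s x e z) := by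
  have h := hk_smo s x e z
  exact (continuous_const.mul ((hη.px.continuous.mul h.px.continuous).add
    (hη.py.continuous.mul h.py.continuous))).add (hη.lap.continuous.mul h.continuous)

private theorem nb4_pi : (4 * Real.pi)⁻¹ ≤ 1 := by
  have := Real.pi_gt_three
  exact inv_le_one_of_one_le₀ (by linarith)

variable {x₁ : ℂ} {R : ℝ} {η : ℂ → ℂ}

/-- Bound of the commutator: for `x ∈ ball x₁ R`, `|z| < R/4`, `0 < s ≤ 1`: `|kap η s x e z y| ≤ C`. Where `kap ≠ 0`: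
`2R ≤ |y - x₁| ≤ 3R` (`kap_zero`, `kap_zero'`), so `R ≤ |x - y|`, `|x + Re z e - y| ≥ 3R/4`, `|k1|, |k2| ≤ |x-y| + |z| ≤ 5R`,
`|hk| ≤ (4πs)⁻¹ exp(-R²/(8s))` (`norm_hk`), `|px hk|, |py hk| ≤ 5R/(2s) |hk|`; `exp_div_bdd` with `k = 1, 2`; `px η`, `py η`,
`lap η` are bounded. -/
theorem kap_bdd (hR : 0 < R) (hη : Cutb x₁ R η) : ∃ C, 0 ≤ C ∧ ∀ s, 0 < s → s ≤ 1 → ∀ x ∈ Metric.ball x₁ R,
    ∀ e : ℂ, ‖e‖ = 1 → ∀ z ∈ Metric.ball (0:ℂ) (R / 4), ∀ y, ‖kap η s x e z y‖ ≤ C := by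
  obtain ⟨P, hP0, hP⟩ := nb4_bd hη.cc.px
  obtain ⟨Q, hQ0, hQ⟩ := nb4_bd hη.cc.py
  obtain ⟨L, hL0, hL⟩ := nb4_bd hη.cc.lap
  have ha : 0 < R ^ 2 / 8 := by positivity
  obtain ⟨C1, hC10, hC1⟩ := exp_div_bdd ha 1
  obtain ⟨C2, hC20, hC2⟩ := exp_div_bdd ha 2
  refine ⟨2 * (P * (5 * R / 2 * C2) + Q * (5 * R / 2 * C2)) + L * C1, by positivity, ?_⟩
  intro s hs hs1 x hx e he z hz y
  have hC : 0 ≤ 2 * (P * (5 * R / 2 * C2) + Q * (5 * R / 2 * C2)) + L * C1 := by positivity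
  by_cases h1 : y ∈ Metric.ball x₁ (2 * R)
  · rw [kap_zero Metric.isOpen_ball hη.one h1, norm_zero]; exact hC
  by_cases h2 : y ∈ tsupport η
  swap
  · rw [kap_zero' h2, norm_zero]; exact hC
  have h3 : ‖y - x₁‖ < 3 * R := by
    have := hη.sup h2
    rwa [Metric.mem_ball, dist_eq_norm] at this
  have h1' : 2 * R ≤ ‖y - x₁‖ := by
    rw [Metric.mem_ball, dist_eq_norm, not_lt] at h1
    exact h1
  have hx' : ‖x - x₁‖ < R := by rwa [Metric.mem_ball, dist_eq_norm] at hx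
  have hz' : ‖z‖ < R / 4 := by rwa [mem_ball_zero_iff] at hz
  have hxy1 : R ≤ ‖x - y‖ := by
    have := norm_sub_norm_le (y - x₁) (x - x₁)
    rw [show y - x₁ - (x - x₁) = -(x - y) by ring, norm_neg] at this
    linarith
  have hxy2 : ‖x - y‖ ≤ 4 * R := by
    have := norm_sub_le (x - x₁) (y - x₁)
    rw [show x - x₁ - (y - x₁) = x - y by ring] at this
    linarith
  have hre : |z.re| ≤ ‖z‖ := Complex.abs_re_le_norm z
  have him : |z.im| ≤ ‖z‖ := Complex.abs_im_le_norm z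
  have hsh : 3 * R / 4 ≤ ‖x + (z.re : ℂ) * e - y‖ := by
    have h4 : ‖(z.re : ℂ) * e‖ ≤ ‖z‖ := by
      rw [norm_mul, he, mul_one, Complex.norm_real, Real.norm_eq_abs]; exact hre
    have h5 := norm_sub_norm_le (x - y) (-((z.re : ℂ) * e))
    rw [norm_neg, show x - y - -((z.re : ℂ) * e) = x + (z.re : ℂ) * e - y by ring] at h5
    linarith
  have hsq : z.im ^ 2 - ‖x + (z.re : ℂ) * e - y‖ ^ 2 ≤ -(R ^ 2 / 2) := by
    have h4 : z.im ^ 2 ≤ (R / 4) ^ 2 := by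
      rw [← sq_abs]; exact pow_le_pow_left₀ (abs_nonneg _) (him.trans hz'.le) 2
    have h5 : (3 * R / 4) ^ 2 ≤ ‖x + (z.re : ℂ) * e - y‖ ^ 2 :=
      pow_le_pow_left₀ (by positivity) hsh 2
    nlinarith
  have hhk : ‖hk s x e z y‖ ≤ s⁻¹ * Real.exp (-(R ^ 2 / 8 / s)) := by
    rw [norm_hk hs he]
    refine mul_le_mul ?_ (Real.exp_le_exp.2 ?_) (Real.exp_pos _).le (by positivity)
    · rw [mul_inv]
      exact mul_le_of_le_one_left (by positivity) nb4_pi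
    · rw [div_le_iff₀ (by positivity)]
      have : -(R ^ 2 / 8 / s) * (4 * s) = -(R ^ 2 / 2) := by field_simp; ring
      rw [this]; exact hsq
  have hb1 : ‖hk s x e z y‖ ≤ C1 := by
    have := hC1 s hs
    rw [pow_one] at this
    exact hhk.trans this
  have hder : ∀ k : ℂ, ‖k‖ ≤ ‖x - y‖ + ‖z‖ →
      ‖k / ((2 * s : ℝ) : ℂ) * hk s x e z y‖ ≤ 5 * R / 2 * C2 := by
    intro k hk'
    have h4 : ‖k‖ ≤ 5 * R := by linarith
    rw [norm_mul, norm_div, Complex.norm_real, Real.norm_eq_abs,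
      abs_of_pos (by positivity : (0:ℝ) < 2 * s)]
    calc ‖k‖ / (2 * s) * ‖hk s x e z y‖ ≤ 5 * R / (2 * s) * (s⁻¹ * Real.exp (-(R ^ 2 / 8 / s))) := by
          gcongr
      _ = 5 * R / 2 * (s⁻¹ ^ 2 * Real.exp (-(R ^ 2 / 8 / s))) := by field_simp
      _ ≤ _ := by
          have := hC2 s hs
          gcongr
  have hpx : ‖px (hk s x e z) y‖ ≤ 5 * R / 2 * C2 := by
    rw [px_hk hs.ne']; exact hder _ (nb4_k1 he)
  have hpy : ‖py (hk s x e z) y‖ ≤ 5 * R / 2 * C2 := by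
    rw [py_hk hs.ne']; exact hder _ (nb4_k2 he)
  unfold kap
  refine (norm_add_le _ _).trans (add_le_add ?_ ?_)
  · rw [norm_mul, Complex.norm_ofNat]
    refine mul_le_mul_of_nonneg_left ?_ (by norm_num)
    refine (norm_add_le _ _).trans (add_le_add ?_ ?_)
    · rw [norm_mul]; exact mul_le_mul (hP y) hpx (norm_nonneg _) hP0
    · rw [norm_mul]; exact mul_le_mul (hQ y) hpy (norm_nonneg _) hQ0
  · rw [norm_mul]; exact mul_le_mul (hL y) hb1 (norm_nonneg _) hL0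

/-- `|Gk| ≤ C |w(s)|` (`prL_cl2` or Cauchy-Schwarz, `norm_cl2_le`). -/
theorem Gk_bdd (hR : 0 < R) (hη : Cutb x₁ R η) : ∃ C, 0 ≤ C ∧ ∀ (w : ℝ → L2c) (τ s : ℝ), s < τ → τ - s ≤ 1 →
    ∀ x ∈ Metric.ball x₁ R, ∀ e : ℂ, ‖e‖ = 1 → ∀ z ∈ Metric.ball (0:ℂ) (R / 4),
      ‖Gk η w τ s x e z‖ ≤ C * ‖w s‖ := by
  obtain ⟨C, hC0, hC⟩ := kap_bdd hR hη
  refine ⟨C * √(volume.real (tsupport η)), by positivity, ?_⟩
  intro w τ s hs hs1 x hx e he z hz
  have hK : IsCompact (tsupport η) := hη.cc.cpt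
  have hkc := nb4_kap_cont hη.cc.smo (τ - s) x e z
  have hk0 : ∀ y ∉ tsupport η, kap η (τ - s) x e z y = 0 := fun y hy => kap_zero' hy
  have hm := memLp_of_zero hK hkc hk0
  unfold Gk
  rw [← prL_cl2 hm]
  refine (norm_prL_le _ _).trans (mul_le_mul_of_nonneg_right ?_ (norm_nonneg _))
  exact norm_cl2_le hK hkc hk0 (fun y _ => hC _ (sub_pos.2 hs) hs1 x hx e he z hz y) hC0

/-- `|Φ_{τ/2}| ≤ exp(C/τ) |w(τ/2)|`: `|hk_{τ/2}| ≤ (2πτ)⁻¹ exp(R²/(32 τ))` for `|z| < R/4` (`norm_hk`), `(2πτ)⁻¹ ≤ exp(1/τ)`. -/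
theorem Phi_bdd (hR : 0 < R) (hη : Cutb x₁ R η) : ∃ C, 0 ≤ C ∧ ∀ (w : ℝ → L2c) (τ : ℝ), 0 < τ → τ ≤ 1 →
    ∀ x ∈ Metric.ball x₁ R, ∀ e : ℂ, ‖e‖ = 1 → ∀ z ∈ Metric.ball (0:ℂ) (R / 4),
      ‖Phi η w τ (τ / 2) x e z‖ ≤ Real.exp (C / τ) * ‖w (τ / 2)‖ := by
  obtain ⟨A, hA0, hA⟩ := nb4_bd hη.cc
  obtain ⟨B, hB⟩ : ∃ B, B = A * √(volume.real (tsupport η)) := ⟨_, rfl⟩
  have hB0 : 0 ≤ B := by rw [hB]; positivity
  refine ⟨B + 1 + R ^ 2 / 32, by positivity, ?_⟩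
  intro w τ hτ hτ1 x hx e he z hz
  have hK : IsCompact (tsupport η) := hη.cc.cpt
  have hz' : ‖z‖ < R / 4 := by rwa [mem_ball_zero_iff] at hz
  have hcc := hη.cc.mul_smo (hk_smo (τ - τ / 2) x e z)
  have h0 : ∀ y ∉ tsupport η, η y * hk (τ - τ / 2) x e z y = 0 := fun y hy => by
    rw [image_eq_zero_of_notMem_tsupport hy, zero_mul]
  have hs : 0 < τ / 2 := by positivity
  have hsq : z.im ^ 2 ≤ (R / 4) ^ 2 := by
    rw [← sq_abs]
    exact pow_le_pow_left₀ (abs_nonneg _) ((Complex.abs_im_le_norm z).trans hz'.le) 2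
  have hhk : ∀ y, ‖hk (τ - τ / 2) x e z y‖ ≤ Real.exp (1 / τ) * Real.exp (R ^ 2 / 32 / τ) := by
    intro y
    rw [show τ - τ / 2 = τ / 2 by ring, norm_hk hs he]
    refine mul_le_mul ?_ (Real.exp_le_exp.2 ?_) (Real.exp_pos _).le (Real.exp_pos _).le
    · have h1 : (4 * Real.pi * (τ / 2))⁻¹ ≤ 1 / τ := by
        rw [one_div]
        have := Real.pi_gt_three
        exact inv_anti₀ hτ (by nlinarith)
      have h2 := Real.add_one_le_exp (1 / τ)
      linarith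
    · rw [div_le_iff₀ (by positivity)]
      have h3 : R ^ 2 / 32 / τ * (4 * (τ / 2)) = (R / 4) ^ 2 := by field_simp; ring
      rw [h3]
      have h4 : 0 ≤ ‖x + (z.re : ℂ) * e - y‖ ^ 2 := by positivity
      linarith
  have hE : 0 ≤ Real.exp (1 / τ) * Real.exp (R ^ 2 / 32 / τ) := by positivity
  have hn : ‖cl2 (fun y => η y * hk (τ - τ / 2) x e z y)‖ ≤
      A * (Real.exp (1 / τ) * Real.exp (R ^ 2 / 32 / τ)) * √(volume.real (tsupport η)) := by
    refine norm_cl2_le hK hcc.smo.continuous h0 (fun y _ => ?_) (by positivity)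
    rw [norm_mul]
    exact mul_le_mul (hA y) (hhk y) (norm_nonneg _) hA0
  unfold Phi
  rw [← prL_cl2 (hcc.memLp 2)]
  refine (norm_prL_le _ _).trans (mul_le_mul_of_nonneg_right (hn.trans ?_) (norm_nonneg _))
  have h5 : A * (Real.exp (1 / τ) * Real.exp (R ^ 2 / 32 / τ)) * √(volume.real (tsupport η)) =
      B * (Real.exp (1 / τ) * Real.exp (R ^ 2 / 32 / τ)) := by rw [hB]; ring
  rw [h5]
  have h6 : B ≤ Real.exp (B / τ) := by
    have h7 := Real.add_one_le_exp (B / τ)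
    have h8 : B ≤ B / τ := by
      rw [le_div_iff₀ hτ]
      exact mul_le_of_le_one_right hB0 hτ1
    linarith
  calc B * (Real.exp (1 / τ) * Real.exp (R ^ 2 / 32 / τ)) ≤
        Real.exp (B / τ) * (Real.exp (1 / τ) * Real.exp (R ^ 2 / 32 / τ)) :=
        mul_le_mul_of_nonneg_right h6 hE
    _ = Real.exp ((B + 1 + R ^ 2 / 32) / τ) := by
        rw [← Real.exp_add, ← Real.exp_add]
        congr 1
        ring

end Pool.Agent.Lib.MP_79abb3_an.PD
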