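import Pool.Agent.Lib.MP_79abb3_an.PD.NB1

/-!
Theorem D (MP_79abb3_an), block N: the heat kernel is an approximate identity.
-/

set_option autoImplicit false
set_option linter.unusedSectionVars false

open MeasureTheory Set Filter Topology Function
open scoped ENNReal InnerProductSpace

namespace Pool.Agent.Lib.MP_79abb3_an.PD

/-- `G_ε χ (y) = ∫ hk_ε(x,1,0,y) χ(x) dx` -/
noncomputable def Gh (ε : ℝ) (χ : ℂ → ℂ) (y : ℂ) : ℂ := ∫ x, hk ε x 1 0 y * χ x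

/-- `hk ε x 1 0 y = (4πε)⁻¹ exp(-|x-y|²/(4ε))`, a positive function of `x` with integral one
(`GaussianFourier.integral_rexp_neg_mul_sq_norm`, `finrank ℝ ℂ = 2`). -/
theorem hk_zero_eq {ε : ℝ} (hε : 0 < ε) (x y : ℂ) :
    hk ε x 1 0 y = (((4 * Real.pi * ε)⁻¹ * Real.exp (-(‖x - y‖ ^ 2) / (4 * ε)) : ℝ) : ℂ) := by
  have _h := hε
  have h2 : ‖x - y‖ ^ 2 = (x.re - y.re) ^ 2 + (x.im - y.im) ^ 2 := by
    rw [Complex.sq_norm, Complex.normSq_apply, Complex.sub_re, Complex.sub_im]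
    ring
  rw [h2]
  unfold hk k1 k2
  push_cast
  rw [zero_mul, zero_mul, add_zero, add_zero]

theorem integral_hk {ε : ℝ} (hε : 0 < ε) (y : ℂ) :
    ∫ x : ℂ, (4 * Real.pi * ε)⁻¹ * Real.exp (-(‖x - y‖ ^ 2) / (4 * ε)) = 1 := by
  have h1 := integral_sub_right_eq_self (μ := (volume : Measure ℂ))
    (fun x : ℂ => (4 * Real.pi * ε)⁻¹ * Real.exp (-(‖x‖ ^ 2) / (4 * ε))) y
  rw [h1, integral_const_mul]
  have hb : 0 < (4 * ε)⁻¹ := by positivity
  have h2 := GaussianFourier.integral_rexp_neg_mul_sq_norm (V := ℂ) hb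
  have e : (fun x : ℂ => Real.exp (-(‖x‖ ^ 2) / (4 * ε))) = fun v : ℂ => Real.exp (-(4 * ε)⁻¹ * ‖v‖ ^ 2) := by
    funext x
    congr 1
    rw [div_eq_mul_inv]
    ring
  rw [e, h2, Complex.finrank_real_complex]
  have e2 : ((2 : ℕ) : ℝ) / 2 = 1 := by norm_num
  rw [e2, Real.rpow_one]
  have := Real.pi_ne_zero
  field_simp

private theorem nb5a_integrable {ε : ℝ} (hε : 0 < ε) (y : ℂ) :
    Integrable fun x : ℂ => (4 * Real.pi * ε)⁻¹ * Real.exp (-(‖x - y‖ ^ 2) / (4 * ε)) :=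
  integrable_of_integral_eq_one (integral_hk hε y)

private theorem nb5a_norm {ε : ℝ} (hε : 0 < ε) (x y : ℂ) :
    ‖hk ε x 1 0 y‖ = (4 * Real.pi * ε)⁻¹ * Real.exp (-(‖x - y‖ ^ 2) / (4 * ε)) := by
  rw [hk_zero_eq hε, Complex.norm_real]
  exact Real.norm_of_nonneg (by positivity)

theorem Gh_bdd {ε : ℝ} (hε : 0 < ε) {χ : ℂ → ℂ} {C : ℝ} (hχ : ∀ x, ‖χ x‖ ≤ C) (hc : Continuous χ) (y : ℂ) :
    ‖Gh ε χ y‖ ≤ C := by
  have _h := hc
  have h1 : ‖∫ x, hk ε x 1 0 y * χ x‖ ≤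
      ∫ x : ℂ, ((4 * Real.pi * ε)⁻¹ * Real.exp (-(‖x - y‖ ^ 2) / (4 * ε))) * C := by
    refine norm_integral_le_of_norm_le ((nb5a_integrable hε y).mul_const C) ?_
    refine Eventually.of_forall fun x => ?_
    show ‖hk ε x 1 0 y * χ x‖ ≤ _
    rw [norm_mul, nb5a_norm hε]
    exact mul_le_mul_of_nonneg_left (hχ x) (by positivity)
  rw [integral_mul_const, integral_hk hε, one_mul] at h1
  exact h1

/-- `Real.tendsto_integral_gaussian_smul'` (Mathlib.Analysis.Fourier.Inversion) with `c = (4 π² ε)⁻¹`..., or directly: after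
the substitution `x = y + √ε u` dominated convergence. -/
theorem Gh_tendsto {χ : ℂ → ℂ} (hχ : Cc χ) (y : ℂ) : Tendsto (fun ε => Gh ε χ y) (𝓝[>] 0) (𝓝 (χ y)) := by
  have h1 := Real.tendsto_integral_gaussian_smul' (V := ℂ) hχ.integrable
    (v := y) hχ.smo.continuous.continuousAt
  have h2 : Tendsto (fun ε : ℝ => (4 * Real.pi ^ 2)⁻¹ * ε⁻¹) (𝓝[>] 0) atTop :=
    tendsto_inv_nhdsGT_zero.const_mul_atTop (by positivity)
  refine (h1.comp h2).congr' ?_
  filter_upwards [self_mem_nhdsWithin] with ε hε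
  have hε' : (0 : ℝ) < ε := hε
  have hεc : (ε : ℂ) ≠ 0 := Complex.ofReal_ne_zero.2 hε'.ne'
  have hpi : (Real.pi : ℂ) ≠ 0 := Complex.ofReal_ne_zero.2 Real.pi_ne_zero
  show _ = ∫ x, hk ε x 1 0 y * χ x
  refine integral_congr_ae (Eventually.of_forall fun x => ?_)
  show ((Real.pi * (((4 * Real.pi ^ 2)⁻¹ * ε⁻¹ : ℝ) : ℂ)) ^ (((Module.finrank ℝ ℂ : ℕ) : ℂ) / 2) *
    Complex.exp (-Real.pi ^ 2 * (((4 * Real.pi ^ 2)⁻¹ * ε⁻¹ : ℝ) : ℂ) * ((‖y - x‖ : ℝ) : ℂ) ^ 2)) • χ x =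
    hk ε x 1 0 y * χ x
  have e2 : ((2 : ℕ) : ℂ) / 2 = 1 := by norm_num
  rw [Complex.finrank_real_complex, e2, Complex.cpow_one, hk_zero_eq hε', smul_eq_mul,
    norm_sub_rev x y]
  congr 1
  push_cast
  congr 1
  · field_simp
  · congr 1
    field_simp

theorem Gh_cont {ε : ℝ} (hε : 0 < ε) {χ : ℂ → ℂ} (hχ : Cc χ) : Continuous (Gh ε χ) := by
  have hχc := hχ.smo.continuous
  have hcx : ∀ y, Continuous fun x => hk ε x 1 0 y := fun y => by
    have h1 : Continuous fun x : ℂ => (x, y) := by fun_prop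
    have h2 := (hk_cont_x hε.ne' 1 0).comp h1
    exact h2
  have hcy : ∀ x, Continuous fun y => hk ε x 1 0 y := fun x => by
    have h1 : Continuous fun y : ℂ => (x, y) := by fun_prop
    have h2 := (hk_cont_x hε.ne' 1 0).comp h1
    exact h2
  refine continuous_of_dominated (bound := fun x => (4 * Real.pi * ε)⁻¹ * ‖χ x‖) ?_ ?_ ?_ ?_
  · exact fun y => ((hcx y).mul hχc).aestronglyMeasurable
  · refine fun y => Eventually.of_forall fun x => ?_
    rw [norm_mul, nb5a_norm hε]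
    refine mul_le_mul_of_nonneg_right ?_ (norm_nonneg _)
    refine mul_le_of_le_one_right (by positivity) (Real.exp_le_one_iff.2 ?_)
    exact div_nonpos_of_nonpos_of_nonneg (neg_nonpos.2 (sq_nonneg _)) (by positivity)
  · exact hχ.integrable.norm.const_mul _
  · exact Eventually.of_forall fun x => (hcy x).mul continuous_const

end Pool.Agent.Lib.MP_79abb3_an.PD
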