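import Pool.Agent.Lib.MP_79abb3_an.PD.NB5a
import Pool.Agent.Lib.MP_79abb3_an.PD.NB3a

/-!
Theorem D (MP_79abb3_an), block N: the limit at the singular time.
-/

set_option autoImplicit false
set_option linter.unusedSectionVars false

open MeasureTheory Set Filter Topology Function
open scoped ENNReal InnerProductSpace

namespace Pool.Agent.Lib.MP_79abb3_an.PD

private theorem nb5b_hk_le {ε : ℝ} (hε : 0 < ε) (x y : ℂ) : ‖hk ε x 1 0 y‖ ≤ (4 * Real.pi * ε)⁻¹ := by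
  rw [norm_hk hε norm_one]
  have h1 : Real.exp (((0 : ℂ).im ^ 2 - ‖x + (((0 : ℂ).re : ℝ) : ℂ) * 1 - y‖ ^ 2) / (4 * ε)) ≤ 1 := by
    rw [Real.exp_le_one_iff]
    apply div_nonpos_of_nonpos_of_nonneg _ (by positivity)
    rw [Complex.zero_im]
    nlinarith [sq_nonneg ‖x + (((0 : ℂ).re : ℝ) : ℂ) * 1 - y‖]
  have h2 : 0 ≤ (4 * Real.pi * ε)⁻¹ := by positivity
  calc _ ≤ (4 * Real.pi * ε)⁻¹ * 1 := mul_le_mul_of_nonneg_left h1 h2
    _ = _ := mul_one _

private theorem nb5b_int {f : ℂ → ℂ} (hf : MemLp f 2 (volume : Measure ℂ)) (g : L2c) :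
    Integrable fun y => f y * g y := by
  have h : MemLp (fun y => (g : ℂ → ℂ) y) 2 (volume : Measure ℂ) := Lp.memLp g
  exact MemLp.integrable_mul hf h

/-- Fubini: `∫ χ(x) Φ_s(x,1,0) dx = ∫ η G_{τ-s} χ w(s)` (`η w(s)` is integrable: `η ∈ L²`, `w(s) ∈ L²`; the kernel is bounded and
`χ` is integrable). -/
theorem int_Phi {η : ℂ → ℂ} (hη : Cc η) {w : ℝ → L2c} {τ s : ℝ} (hτ : s < τ) {χ : ℂ → ℂ} (hχ : Cc χ) :
    ∫ x, χ x * Phi η w τ s x 1 0 = ∫ y, (η y * Gh (τ - s) χ y) * w s y := by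
  have hε : 0 < τ - s := sub_pos.2 hτ
  have hkc : Continuous fun p : ℂ × ℂ => hk (τ - s) p.1 1 0 p.2 := hk_cont_x hε.ne' 1 0
  have hi : Integrable (fun p : ℂ × ℂ => χ p.1 * (η p.2 * w s p.2))
      ((volume : Measure ℂ).prod (volume : Measure ℂ)) :=
    hχ.integrable.mul_prod (nb5b_int (hη.memLp 2) (w s))
  have hF : Integrable (fun p : ℂ × ℂ => hk (τ - s) p.1 1 0 p.2 * (χ p.1 * (η p.2 * w s p.2)))
      ((volume : Measure ℂ).prod (volume : Measure ℂ)) :=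
    hi.bdd_mul hkc.aestronglyMeasurable (Eventually.of_forall fun p => nb5b_hk_le hε p.1 p.2)
  have h1 : ∀ x, χ x * Phi η w τ s x 1 0 =
      ∫ y, hk (τ - s) x 1 0 y * (χ x * (η y * w s y)) := by
    intro x
    unfold Phi
    rw [← integral_const_mul]
    congr 1
    funext y
    ring
  have h2 : ∀ y, (η y * Gh (τ - s) χ y) * w s y =
      ∫ x, hk (τ - s) x 1 0 y * (χ x * (η y * w s y)) := by
    intro y
    unfold Gh
    have e : (η y * ∫ x, hk (τ - s) x 1 0 y * χ x) * w s y =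
        (η y * w s y) * ∫ x, hk (τ - s) x 1 0 y * χ x := by ring
    rw [e, ← integral_const_mul]
    congr 1
    funext x
    ring
  simp_rw [h1, h2]
  exact integral_integral_swap hF

/-- The limit `s → τ`: `∫ χ Φ_s → ∫ χ η w(τ)`, if `w` is continuous at `τ`. Proof: `int_Phi`;
`|∫ η G χ (w(s) - w(τ))| ≤ sup|χ| ‖η‖ ‖w(s) - w(τ)‖ → 0` and `∫ η (G_{τ-s} χ - χ) w(τ) → 0` by dominated convergence
(`Gh_bdd`, `Gh_tendsto`; along sequences `s_n → τ`, `s_n < τ`, or with the countably generated filter `𝓝[<] τ`). -/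
theorem int_Phi_tendsto {η : ℂ → ℂ} (hη : Cc η) {w : ℝ → L2c} {τ : ℝ} (hw : ContinuousAt w τ)
    {χ : ℂ → ℂ} (hχ : Cc χ) :
    Tendsto (fun s => ∫ x, χ x * Phi η w τ s x 1 0) (𝓝[<] τ) (𝓝 (∫ y, (χ y * η y) * w τ y)) := by
  obtain ⟨C, hC⟩ := hχ.smo.continuous.bounded_above_of_compact_support hχ.cpt
  have hC0 : 0 ≤ C := (norm_nonneg _).trans (hC 0)
  have hcont : ∀ ε : ℝ, 0 < ε → Continuous fun y => η y * Gh ε χ y := fun ε hε =>
    hη.smo.continuous.mul (Gh_cont hε hχ)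
  have hmem : ∀ ε : ℝ, 0 < ε → MemLp (fun y => η y * Gh ε χ y) 2 (volume : Measure ℂ) := fun ε hε =>
    (hcont ε hε).memLp_of_hasCompactSupport hη.cpt.mul_right
  have hnorm : ∀ ε : ℝ, 0 < ε → ‖cl2 (fun y => η y * Gh ε χ y)‖ ≤ C * ‖cl2 η‖ := by
    intro ε hε
    apply Lp.norm_le_mul_norm_of_ae_le_mul
    filter_upwards [cl2_coe (hmem ε hε), cl2_coe (hη.memLp 2)] with y h1 h2
    rw [h1, h2, norm_mul, mul_comm]
    exact mul_le_mul_of_nonneg_right (Gh_bdd hε hC hχ.smo.continuous y) (norm_nonneg _)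
  have hpos : ∀ᶠ s in 𝓝[<] τ, 0 < τ - s := by
    filter_upwards [self_mem_nhdsWithin] with s hs
    exact sub_pos.2 hs
  have hlim0 : Tendsto (fun s => τ - s) (𝓝[<] τ) (𝓝[>] 0) := by
    apply tendsto_nhdsWithin_iff.2
    refine ⟨?_, hpos⟩
    have h1 : Tendsto (fun s : ℝ => τ - s) (𝓝 τ) (𝓝 (τ - τ)) :=
      (continuous_const.sub continuous_id).tendsto τ
    rw [sub_self] at h1
    exact h1.mono_left nhdsWithin_le_nhds
  -- first part: `w(τ)` fixed
  have hA : Tendsto (fun s => ∫ y, (η y * Gh (τ - s) χ y) * w τ y) (𝓝[<] τ)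
      (𝓝 (∫ y, (η y * χ y) * w τ y)) := by
    refine tendsto_integral_filter_of_dominated_convergence
      (fun y => C * ‖η y * w τ y‖) ?_ ?_ ?_ ?_
    · filter_upwards [hpos] with s hs
      exact (nb5b_int (hmem _ hs) (w τ)).aestronglyMeasurable
    · filter_upwards [hpos] with s hs
      refine Eventually.of_forall fun y => ?_
      have e : (η y * Gh (τ - s) χ y) * w τ y = Gh (τ - s) χ y * (η y * w τ y) := by ring
      rw [e, norm_mul]
      exact mul_le_mul_of_nonneg_right (Gh_bdd hs hC hχ.smo.continuous y) (norm_nonneg _)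
    · exact (nb5b_int (hη.memLp 2) (w τ)).norm.const_mul C
    · refine Eventually.of_forall fun y => ?_
      have h1 : Tendsto (fun s => Gh (τ - s) χ y) (𝓝[<] τ) (𝓝 (χ y)) :=
        (Gh_tendsto hχ y).comp hlim0
      exact (h1.const_mul (η y)).mul_const _
  -- second part: the difference
  have hB : Tendsto (fun s => prL (cl2 (fun y => η y * Gh (τ - s) χ y)) (w s - w τ)) (𝓝[<] τ) (𝓝 0) := by
    have hw1 : Tendsto (fun s => C * ‖cl2 η‖ * ‖w s - w τ‖) (𝓝[<] τ) (𝓝 0) := by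
      have h1 : Tendsto (fun s => ‖w s - w τ‖) (𝓝[<] τ) (𝓝 0) := by
        have h2 : Tendsto w (𝓝[<] τ) (𝓝 (w τ)) := hw.tendsto.mono_left nhdsWithin_le_nhds
        exact tendsto_iff_norm_sub_tendsto_zero.1 h2
      simpa using h1.const_mul (C * ‖cl2 η‖)
    refine squeeze_zero_norm' ?_ hw1
    filter_upwards [hpos] with s hs
    exact (norm_prL_le _ _).trans (mul_le_mul_of_nonneg_right (hnorm _ hs) (norm_nonneg _))
  have hsum := hA.add hB
  rw [add_zero] at hsum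
  have e0 : ∫ y, (η y * χ y) * w τ y = ∫ y, (χ y * η y) * w τ y := by
    congr 1
    funext y
    ring
  rw [e0] at hsum
  refine hsum.congr' ?_
  filter_upwards [self_mem_nhdsWithin, hpos] with s hs hs'
  rw [int_Phi hη hs hχ, map_sub, prL_cl2 (hmem _ hs'), prL_cl2 (hmem _ hs')]
  ring

end Pool.Agent.Lib.MP_79abb3_an.PD
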