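import Pool.Agent.Lib.MP_79abb3_an.PD.NB3b
import Pool.Agent.Lib.MP_79abb3_an.PD.NB4

/-!
Theorem D (MP_79abb3_an), block N: the limit of the representations.
-/

set_option autoImplicit false
set_option linter.unusedSectionVars false

open MeasureTheory Set Filter Topology Function
open scoped ENNReal InnerProductSpace

namespace Pool.Agent.Lib.MP_79abb3_an.PD

/-- The function `v` extends holomorphically along all real lines from the points of `ball x₁ R`, to the disc `|z| < R/4`,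
with the bound `M`. -/
def Ana (M : ℝ) (x₁ : ℂ) (R : ℝ) (v : ℂ → ℂ) : Prop :=
  ∀ x ∈ Metric.ball x₁ R, ∀ e : ℂ, ‖e‖ = 1 → ∃ g : ℂ → ℂ, DifferentiableOn ℂ g (Metric.ball 0 (R / 4)) ∧
    (∀ z ∈ Metric.ball (0:ℂ) (R / 4), ‖g z‖ ≤ M) ∧ ∀ t : ℝ, |t| < R / 4 → g t = v (x + (t : ℂ) * e)

/-- `W = Φ_{τ/2} + ∫_{τ/2}^τ Gk ds` -/
noncomputable def Wk (η : ℂ → ℂ) (w : ℝ → L2c) (τ : ℝ) (x e z : ℂ) : ℂ :=
  Phi η w τ (τ / 2) x e z + ∫ s in (τ / 2)..τ, Gk η w τ s x e z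

variable {D : Set ℂ} {x₁ : ℂ} {R : ℝ} {η : ℂ → ℂ} {w w' : ℝ → L2c} {τ Q C : ℝ}

/-- The situation: `C` is the constant of `Gk_bdd` and `Phi_bdd`, `Q` bounds `w` on `[τ/2, τ]`. -/
structure Sit (D : Set ℂ) (x₁ : ℂ) (R : ℝ) (η : ℂ → ℂ) (w w' : ℝ → L2c) (τ Q C : ℝ) : Prop where
  R0 : 0 < R
  ball : Metric.closedBall x₁ (4 * R) ⊆ D
  cut : Cutb x₁ R η
  heat : IsHeat D w w'
  τ0 : 0 < τ
  τ1 : τ ≤ 1
  wQ : ∀ s ∈ Icc (τ / 2) τ, ‖w s‖ ≤ Q
  C0 : 0 ≤ C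
  G : ∀ s ∈ Ico (τ / 2) τ, ∀ x ∈ Metric.ball x₁ R, ∀ e : ℂ, ‖e‖ = 1 → ∀ z ∈ Metric.ball (0:ℂ) (R / 4),
    ‖Gk η w τ s x e z‖ ≤ C * Q
  P : ∀ x ∈ Metric.ball x₁ R, ∀ e : ℂ, ‖e‖ = 1 → ∀ z ∈ Metric.ball (0:ℂ) (R / 4),
    ‖Phi η w τ (τ / 2) x e z‖ ≤ Real.exp (C / τ) * Q

/-- `Gk_bdd`, `Phi_bdd` -/
theorem exists_Sit (D : Set ℂ) (x₁ : ℂ) {R : ℝ} (hR : 0 < R) (hb : Metric.closedBall x₁ (4 * R) ⊆ D) :
    ∃ (η : ℂ → ℂ) (C : ℝ), 0 ≤ C ∧ ∀ (w w' : ℝ → L2c) (τ Q : ℝ), IsHeat D w w' → 0 < τ → τ ≤ 1 →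
      (∀ s ∈ Icc (τ / 2) τ, ‖w s‖ ≤ Q) → Sit D x₁ R η w w' τ Q C := by
  obtain ⟨η, hη⟩ := exists_Cutb x₁ hR
  obtain ⟨C₁, hC₁, hG⟩ := Gk_bdd hR hη
  obtain ⟨C₂, hC₂, hP⟩ := Phi_bdd hR hη
  refine ⟨η, C₁ + C₂, by positivity, fun w w' τ Q hw h0 h1 hQ => ?_⟩
  have hQ0 : 0 ≤ Q := (norm_nonneg _).trans (hQ τ ⟨by linarith, le_rfl⟩)
  refine ⟨hR, hb, hη, hw, h0, h1, hQ, by positivity, ?_, ?_⟩
  · intro s hs x hx e he z hz
    refine (hG w τ s hs.2 (by linarith [hs.1]) x hx e he z hz).trans ?_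
    exact mul_le_mul (by linarith) (hQ s ⟨hs.1, hs.2.le⟩) (norm_nonneg _) (by positivity)
  · intro x hx e he z hz
    refine (hP w τ h0 h1 x hx e he z hz).trans ?_
    refine mul_le_mul (Real.exp_le_exp.2 ?_) (hQ _ ⟨le_rfl, by linarith⟩) (norm_nonneg _)
      (Real.exp_pos _).le
    exact div_le_div_of_nonneg_right (by linarith) h0.le

/-- integrability in time up to `τ` (`Gk_cont`, bounded on a bounded interval) -/
theorem Sit.int (h : Sit D x₁ R η w w' τ Q C) {x e z : ℂ} (hx : x ∈ Metric.ball x₁ R) (he : ‖e‖ = 1)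
    (hz : z ∈ Metric.ball (0:ℂ) (R / 4)) : IntervalIntegrable (fun s => Gk η w τ s x e z) volume (τ / 2) τ := by
  rw [intervalIntegrable_iff_integrableOn_Ico_of_le (by linarith [h.τ0])]
  have h1 : ContinuousOn (fun s => Gk η w τ s x e z) (Ico (τ / 2) τ) :=
    (Gk_cont h.heat h.cut.cc x e z).mono fun s hs => ⟨by linarith [hs.1, h.τ0], hs.2⟩
  refine Integrable.of_bound (h1.aestronglyMeasurable measurableSet_Ico) (C * Q) ?_
  refine (ae_restrict_iff' measurableSet_Ico).2 (Eventually.of_forall fun s hs => ?_)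
  exact h.G s hs x hx e he z hz

/-- `|W - Φ_s| ≤ C Q (τ - s)` (`Phi_sub`) -/
theorem Sit.sub_le (h : Sit D x₁ R η w w' τ Q C) {x e z : ℂ} (hx : x ∈ Metric.ball x₁ R) (he : ‖e‖ = 1)
    (hz : z ∈ Metric.ball (0:ℂ) (R / 4)) {s : ℝ} (hs : s ∈ Ico (τ / 2) τ) :
    ‖Wk η w τ x e z - Phi η w τ s x e z‖ ≤ C * Q * (τ - s) := by
  have hsD : tsupport η ⊆ D := by
    refine h.cut.sup.trans (Subset.trans ?_ h.ball)
    exact (Metric.ball_subset_ball (by linarith [h.R0])).trans Metric.ball_subset_closedBall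
  have h1 := Phi_sub h.heat h.cut.cc hsD (by linarith [h.τ0]) hs.1 hs.2 x e z
  have hi := h.int hx he hz
  have hi1 : IntervalIntegrable (fun s => Gk η w τ s x e z) volume (τ / 2) s :=
    hi.mono_set (by
      rw [uIcc_of_le hs.1, uIcc_of_le (by linarith [h.τ0])]
      exact Icc_subset_Icc_right hs.2.le)
  have hi2 : IntervalIntegrable (fun s => Gk η w τ s x e z) volume s τ :=
    hi.mono_set (by
      rw [uIcc_of_le hs.2.le, uIcc_of_le (by linarith [h.τ0])]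
      exact Icc_subset_Icc_left hs.1)
  have h2 : Wk η w τ x e z - Phi η w τ s x e z = ∫ r in s..τ, Gk η w τ r x e z := by
    rw [Wk, ← intervalIntegral.integral_add_adjacent_intervals hi1 hi2, ← h1]
    ring
  rw [h2]
  have h3 := intervalIntegral.norm_integral_le_of_norm_le_const_ae (a := s) (b := τ)
    (f := fun r => Gk η w τ r x e z) (C := C * Q) (by
      have h4 : ∀ᵐ r : ℝ ∂volume, r ≠ τ := by
        rw [ae_iff]
        simp
      filter_upwards [h4] with r hr hr'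
      rw [uIoc_of_le hs.2.le] at hr'
      exact h.G r ⟨hs.1.trans hr'.1.le, lt_of_le_of_ne hr'.2 hr⟩ x hx e he z hz)
  rwa [abs_of_nonneg (by linarith [hs.2])] at h3

/-- eventually close to the singular time -/
theorem Sit.nb6_ev (h : Sit D x₁ R η w w' τ Q C) {ε : ℝ} (hε : 0 < ε) :
    ∀ᶠ s in 𝓝[<] τ, s ∈ Ico (τ / 2) τ ∧ C * Q * (τ - s) < ε := by
  have h1 : Tendsto (fun s : ℝ => C * Q * (τ - s)) (𝓝[<] τ) (𝓝 0) := by
    have h2 : Tendsto (fun s : ℝ => C * Q * (τ - s)) (𝓝 τ) (𝓝 (C * Q * (τ - τ))) :=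
      Continuous.tendsto (by fun_prop) τ
    rw [sub_self, mul_zero] at h2
    exact h2.mono_left nhdsWithin_le_nhds
  filter_upwards [h1.eventually (gt_mem_nhds hε),
    Ico_mem_nhdsLT (show τ / 2 < τ by linarith [h.τ0])] with s h3 h4
  exact ⟨h4, h3⟩

theorem Sit.norm_le (h : Sit D x₁ R η w w' τ Q C) {x e z : ℂ} (hx : x ∈ Metric.ball x₁ R) (he : ‖e‖ = 1)
    (hz : z ∈ Metric.ball (0:ℂ) (R / 4)) : ‖Wk η w τ x e z‖ ≤ (C + Real.exp (C / τ)) * Q := by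
  have hQ0 : 0 ≤ Q := (norm_nonneg _).trans (h.wQ τ ⟨by linarith [h.τ0], le_rfl⟩)
  have h1 := h.sub_le hx he hz (s := τ / 2) ⟨le_rfl, by linarith [h.τ0]⟩
  have h2 := h.P x hx e he z hz
  have h3 : ‖Wk η w τ x e z‖ ≤ ‖Wk η w τ x e z - Phi η w τ (τ / 2) x e z‖ +
      ‖Phi η w τ (τ / 2) x e z‖ := by
    have := norm_add_le (Wk η w τ x e z - Phi η w τ (τ / 2) x e z) (Phi η w τ (τ / 2) x e z)
    rwa [sub_add_cancel] at this
  have h4 : C * Q * (τ - τ / 2) ≤ C * Q :=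
    mul_le_of_le_one_right (mul_nonneg h.C0 hQ0) (by linarith [h.τ1, h.τ0])
  linarith

/-- locally uniform limit of the entire functions `Φ_s` (`Phi_entire`, `TendstoLocallyUniformlyOn.differentiableOn`) -/
theorem Sit.holo (h : Sit D x₁ R η w w' τ Q C) {x e : ℂ} (hx : x ∈ Metric.ball x₁ R) (he : ‖e‖ = 1) :
    DifferentiableOn ℂ (fun z => Wk η w τ x e z) (Metric.ball 0 (R / 4)) := by
  have h1 : TendstoUniformlyOn (fun (s : ℝ) z => Phi η w τ s x e z) (fun z => Wk η w τ x e z)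
      (𝓝[<] τ) (Metric.ball 0 (R / 4)) := by
    rw [Metric.tendstoUniformlyOn_iff]
    intro ε hε
    filter_upwards [h.nb6_ev hε] with s hs z hz
    rw [dist_eq_norm]
    exact (h.sub_le hx he hz hs.1).trans_lt hs.2
  refine h1.tendstoLocallyUniformlyOn.differentiableOn ?_ Metric.isOpen_ball
  filter_upwards [self_mem_nhdsWithin] with s hs
  exact (Phi_entire h.cut.cc hs x e).differentiableOn

/-- uniform limit of the continuous functions `Φ_s` (`Phi_cont_x`) -/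
theorem Sit.cont (h : Sit D x₁ R η w w' τ Q C) :
    ContinuousOn (fun x => Wk η w τ x 1 0) (Metric.ball x₁ R) := by
  have h1 : TendstoUniformlyOn (fun (s : ℝ) x => Phi η w τ s x 1 0) (fun x => Wk η w τ x 1 0)
      (𝓝[<] τ) (Metric.ball x₁ R) := by
    rw [Metric.tendstoUniformlyOn_iff]
    intro ε hε
    filter_upwards [h.nb6_ev hε] with s hs x hx
    rw [dist_eq_norm]
    exact (h.sub_le hx norm_one (Metric.mem_ball_self (by linarith [h.R0])) hs.1).trans_lt hs.2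
  refine h1.continuousOn (Eventually.frequently ?_)
  filter_upwards [self_mem_nhdsWithin] with s hs
  exact (Phi_cont_x h.cut.cc hs 1 0).continuousOn

end Pool.Agent.Lib.MP_79abb3_an.PD
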