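import Pool.Agent.Lib.MP_79abb3_an.PD.NB6a
import Pool.Agent.Lib.MP_79abb3_an.PD.NB5b

/-!
Theorem D (MP_79abb3_an), block N: the vorticity is analytic inside the domain, with bounds.
-/

set_option autoImplicit false
set_option linter.unusedSectionVars false

open MeasureTheory Set Filter Topology Function
open scoped ENNReal InnerProductSpace

namespace Pool.Agent.Lib.MP_79abb3_an.PD

open Pool.Agent.Lib.MP_79abb3_an.SC

variable {D : Set ℂ} {x₁ : ℂ} {R : ℝ} {η : ℂ → ℂ} {w w' : ℝ → L2c} {τ Q C : ℝ}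

/-- The weak identity: `∫ χ W = lim ∫ χ Φ_s = ∫ χ η w(τ) = ∫ χ w(τ)` for `χ ∈ Cc` with support in `ball x₁ R`
(`int_Phi_tendsto`, `sub_le`); then `IsOpen.ae_eq_zero_of_integral_contDiff_smul_eq_zero` (or the version with an open
set) for the locally integrable function `W - w(τ)` on the ball. -/
theorem Sit.ae (h : Sit D x₁ R η w w' τ Q C) :
    ∀ᵐ x ∂(volume.restrict (Metric.ball x₁ R)), w τ x = Wk η w τ x 1 0 := by
  have hR0 := h.R0
  have hW := h.cont
  have hQ0 : 0 ≤ Q := (norm_nonneg _).trans (h.wQ τ ⟨by linarith [h.τ0], le_rfl⟩)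
  have hwl : LocallyIntegrable (fun x => w τ x) volume :=
    (Lp.memLp (w τ)).locallyIntegrable (by norm_num)
  have hf : LocallyIntegrableOn (fun x => w τ x - Wk η w τ x 1 0) (Metric.ball x₁ R) volume :=
    (hwl.locallyIntegrableOn _).sub (hW.locallyIntegrableOn measurableSet_ball)
  have key : ∀ g : ℂ → ℝ, ContDiff ℝ ((⊤ : ℕ∞) : WithTop ℕ∞) g → HasCompactSupport g → tsupport g ⊆ Metric.ball x₁ R →
      ∫ x, g x • (w τ x - Wk η w τ x 1 0) = 0 := by
    intro g hg1 hg2 hg3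
    have hχ : Cc (fun x => (g x : ℂ)) :=
      ⟨Complex.ofRealCLM.contDiff.comp hg1, hg2.comp_left Complex.ofReal_zero⟩
    have hz : ∀ x, x ∉ Metric.ball x₁ R → (g x : ℂ) = 0 := by
      intro x hx
      rw [image_eq_zero_of_notMem_tsupport fun h' => hx (hg3 h'), Complex.ofReal_zero]
    have hlim1 := int_Phi_tendsto h.cut.cc (h.heat.hd τ h.τ0).continuousAt hχ
    have e1 : ∫ y, ((g y : ℂ) * η y) * w τ y = ∫ y, (g y : ℂ) * w τ y := by
      congr 1
      funext y
      by_cases hy : y ∈ Metric.ball x₁ R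
      · rw [h.cut.one y (Metric.ball_subset_ball (by linarith) hy), mul_one]
      · rw [hz y hy, zero_mul]
    rw [e1] at hlim1
    have hi : Integrable (fun x => (g x : ℂ) * Wk η w τ x 1 0) := by
      rw [← integrableOn_iff_integrable_of_support_subset (s := tsupport g)]
      · exact (ContinuousOn.mul hχ.smo.continuous.continuousOn (hW.mono hg3)).integrableOn_compact hg2
      · intro x hx
        by_contra hx'
        apply hx
        simp only
        rw [image_eq_zero_of_notMem_tsupport hx', Complex.ofReal_zero, zero_mul]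
    have hlim2 : Tendsto (fun s => ∫ x, (g x : ℂ) * Phi η w τ s x 1 0) (𝓝[<] τ)
        (𝓝 (∫ x, (g x : ℂ) * Wk η w τ x 1 0)) := by
      rw [tendsto_iff_norm_sub_tendsto_zero]
      have h2 : Tendsto (fun s : ℝ => (∫ x, ‖(g x : ℂ)‖) * (C * Q * (τ - s))) (𝓝[<] τ) (𝓝 0) := by
        have h3 : Tendsto (fun s : ℝ => (∫ x, ‖(g x : ℂ)‖) * (C * Q * (τ - s))) (𝓝 τ)
            (𝓝 ((∫ x, ‖(g x : ℂ)‖) * (C * Q * (τ - τ)))) := Continuous.tendsto (by fun_prop) τ
        rw [sub_self, mul_zero, mul_zero] at h3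
        exact h3.mono_left nhdsWithin_le_nhds
      refine squeeze_zero' (Eventually.of_forall fun s => norm_nonneg _) ?_ h2
      filter_upwards [Ico_mem_nhdsLT (show τ / 2 < τ by linarith [h.τ0])] with s hs
      have hi2 : Integrable (fun x => (g x : ℂ) * Phi η w τ s x 1 0) :=
        (hχ.smo.continuous.mul (Phi_cont_x h.cut.cc hs.2 1 0)).integrable_of_hasCompactSupport
          hχ.cpt.mul_right
      rw [← integral_sub hi2 hi, ← integral_mul_const]
      refine norm_integral_le_of_norm_le (hχ.integrable.norm.mul_const _)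
        (Eventually.of_forall fun x => ?_)
      rw [← mul_sub, norm_mul]
      by_cases hx : x ∈ Metric.ball x₁ R
      · refine mul_le_mul_of_nonneg_left ?_ (norm_nonneg _)
        rw [norm_sub_rev]
        exact h.sub_le hx norm_one (Metric.mem_ball_self (by linarith)) hs
      · rw [hz x hx, norm_zero, zero_mul, zero_mul]
    have h4 := tendsto_nhds_unique hlim1 hlim2
    have hi3 : Integrable (fun x => (g x : ℂ) * w τ x) :=
      (hχ.memLp 2).integrable_mul (Lp.memLp (w τ))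
    have h5 : ∀ x, g x • (w τ x - Wk η w τ x 1 0) =
        (g x : ℂ) * w τ x - (g x : ℂ) * Wk η w τ x 1 0 := by
      intro x
      rw [Complex.real_smul, mul_sub]
    simp_rw [h5]
    rw [integral_sub hi3 hi, h4, sub_self]
  have h6 := Metric.isOpen_ball.ae_eq_zero_of_integral_contDiff_smul_eq_zero hf key
  rw [ae_restrict_iff' measurableSet_ball]
  filter_upwards [h6] with x hx hx'
  exact sub_eq_zero.1 (hx hx')

/-- **The vorticity is analytic inside `D`.** `v x = Wk η w τ x 1 0`, `g z = Wk η w τ x e z`; `Phi_shift`, `Gk_shift`,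
`Phi_dir`, `Gk_dir` give `g t = v (x + t e)`. -/
theorem Sit.ana (h : Sit D x₁ R η w w' τ Q C) :
    Ana ((C + Real.exp (C / τ)) * Q) x₁ R (fun x => Wk η w τ x 1 0) := by
  intro x hx e he
  refine ⟨fun z => Wk η w τ x e z, h.holo hx he, fun z hz => h.norm_le hx he hz, fun t ht => ?_⟩
  have h1 : ∀ s, Phi η w τ s (x + (t : ℂ) * e) 1 0 = Phi η w τ s x e t := fun s => by
    rw [Phi_dir s _ 1 e, Phi_shift, add_zero]
  have h2 : ∀ s, Gk η w τ s (x + (t : ℂ) * e) 1 0 = Gk η w τ s x e t := fun s => by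
    rw [Gk_dir s _ 1 e, Gk_shift, add_zero]
  simp only [Wk, h1, h2]

/-- **Result.** For the vorticity of the Stokes semigroup: `Q = √(2/τ) |q|` on `[τ/2, τ]` (`norm_omq_sq_le`), and
`(C + exp(C/τ)) √(2/τ) ≤ exp(C'/τ)`. -/
theorem exists_ana (hb : Bornology.IsBounded D) (hO : IsOpen D) (x₁ : ℂ) {R : ℝ} (hR : 0 < R)
    (hB : Metric.closedBall x₁ (4 * R) ⊆ D) : ∃ C, 0 ≤ C ∧ ∀ (q : XD D) (τ : ℝ), 0 < τ → τ ≤ 1 →
      ∃ v : ℂ → ℂ, (∀ᵐ x ∂(volume.restrict (Metric.ball x₁ R)), (omq D τ q : L2c) x = v x) ∧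
        Ana (Real.exp (C / τ) * ‖q‖) x₁ R v := by
  obtain ⟨η, C, hC, hS⟩ := exists_Sit D x₁ hR hB
  refine ⟨C + 2, by positivity, fun q τ h0 h1 => ?_⟩
  obtain ⟨w', hw⟩ := isHeat_omq hb hO q
  have hQ : ∀ s ∈ Icc (τ / 2) τ, ‖(omq D s q : L2c)‖ ≤ Real.sqrt (2 / τ) * ‖q‖ := by
    intro s hs
    have hs0 : 0 < s := by linarith [hs.1]
    have h2 : ‖omq D s q‖ ^ 2 ≤ s⁻¹ * ‖q‖ ^ 2 := norm_omq_sq_le hb hs0 q
    have h3 : s⁻¹ ≤ 2 / τ := by
      rw [inv_eq_one_div, div_le_div_iff₀ hs0 h0]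
      linarith [hs.1]
    have h4 : ‖omq D s q‖ ≤ Real.sqrt (2 / τ) * ‖q‖ := by
      refine le_of_sq_le_sq ?_ (by positivity)
      rw [mul_pow, Real.sq_sqrt (by positivity)]
      exact h2.trans (mul_le_mul_of_nonneg_right h3 (by positivity))
    exact h4
  have hs := hS (fun t => (omq D t q : L2c)) w' τ _ hw h0 h1 hQ
  refine ⟨fun x => Wk η (fun t => (omq D t q : L2c)) τ x 1 0, hs.ae, ?_⟩
  have hA := hs.ana
  have hle : (C + Real.exp (C / τ)) * (Real.sqrt (2 / τ) * ‖q‖) ≤ Real.exp ((C + 2) / τ) * ‖q‖ := by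
    rw [← mul_assoc]
    refine mul_le_mul_of_nonneg_right ?_ (norm_nonneg _)
    have h2 : C ≤ Real.exp (C / τ) := by
      have h3 : C ≤ C / τ := by
        rw [le_div_iff₀ h0]
        exact mul_le_of_le_one_right hC h1
      linarith [Real.add_one_le_exp (C / τ)]
    have h3 : (2 : ℝ) ≤ Real.exp (1 / τ) := by
      have h4 : 1 ≤ 1 / τ := by
        rw [le_div_iff₀ h0]
        linarith
      linarith [Real.add_one_le_exp (1 / τ)]
    have h4 : Real.sqrt (2 / τ) ≤ Real.exp (1 / τ) := by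
      rw [Real.sqrt_le_left (Real.exp_pos _).le, ← Real.exp_nat_mul]
      have h5 : ((2 : ℕ) : ℝ) * (1 / τ) = 2 / τ := by push_cast; ring
      rw [h5]
      linarith [Real.add_one_le_exp (2 / τ)]
    have h5 : Real.exp ((C + 2) / τ) = Real.exp (1 / τ) * Real.exp (C / τ) * Real.exp (1 / τ) := by
      rw [← Real.exp_add, ← Real.exp_add]
      congr 1
      ring
    rw [h5]
    refine mul_le_mul ?_ h4 (Real.sqrt_nonneg _) (by positivity)
    nlinarith [Real.exp_pos (C / τ)]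
  intro x hx e he
  obtain ⟨g, hg1, hg2, hg3⟩ := hA x hx e he
  exact ⟨g, hg1, fun z hz => (hg2 z hz).trans hle, hg3⟩

end Pool.Agent.Lib.MP_79abb3_an.PD
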