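import Pool.Agent.Lib.MP_79abb3_an.PD.NTel

/-!
Theorem D (MP_79abb3_an), block N: interpolation of numbers.
-/

set_option autoImplicit false
set_option linter.unusedSectionVars false

open MeasureTheory Set Filter Topology Function
open scoped ENNReal InnerProductSpace

namespace Pool.Agent.Lib.MP_79abb3_an.PD

/-- Interpolation of two numbers. -/
noncomputable def Pw (θ ε M : ℝ) : ℝ := ε ^ θ * M ^ (1 - θ)

variable {θ θ' ε ε' M M' C : ℝ}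

theorem Pw_nonneg (hε : 0 ≤ ε) (hM : 0 ≤ M) : 0 ≤ Pw θ ε M := by
  unfold Pw; positivity

/-- `ε ≤ Pw θ ε M ≤ M` if `0 ≤ ε ≤ M`, `0 ≤ θ ≤ 1`. -/
theorem Pw_le (hε : 0 ≤ ε) (h : ε ≤ M) (h0 : 0 ≤ θ) (h1 : θ ≤ 1) : Pw θ ε M ≤ M := by
  have hM : 0 ≤ M := hε.trans h
  have h2 : M ^ θ * M ^ (1 - θ) = M := by
    rw [← Real.rpow_add_of_nonneg hM h0 (by linarith)]
    norm_num
  calc Pw θ ε M ≤ M ^ θ * M ^ (1 - θ) :=
        mul_le_mul_of_nonneg_right (Real.rpow_le_rpow hε h h0) (Real.rpow_nonneg hM _)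
    _ = M := h2

theorem le_Pw (hε : 0 ≤ ε) (h : ε ≤ M) (h0 : 0 ≤ θ) (h1 : θ ≤ 1) : ε ≤ Pw θ ε M := by
  have hM : 0 ≤ M := hε.trans h
  have h2 : ε ^ θ * ε ^ (1 - θ) = ε := by
    rw [← Real.rpow_add_of_nonneg hε h0 (by linarith)]
    norm_num
  calc ε = ε ^ θ * ε ^ (1 - θ) := h2.symm
    _ ≤ Pw θ ε M :=
        mul_le_mul_of_nonneg_left (Real.rpow_le_rpow hε h (by linarith)) (Real.rpow_nonneg hε _)

theorem Pw_mono (hε : 0 ≤ ε) (hε' : ε ≤ ε') (hM : 0 ≤ M) (hM' : M ≤ M') (h0 : 0 ≤ θ) (h1 : θ ≤ 1) :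
    Pw θ ε M ≤ Pw θ ε' M' := by
  unfold Pw
  exact mul_le_mul (Real.rpow_le_rpow hε hε' h0) (Real.rpow_le_rpow hM hM' (by linarith))
    (Real.rpow_nonneg hM _) (Real.rpow_nonneg (hε.trans hε') _)

/-- smaller exponents give larger numbers -/
theorem Pw_anti (hε : 0 ≤ ε) (h : ε ≤ M) (h0 : 0 < θ') (h1 : θ' ≤ θ) (h2 : θ ≤ 1) : Pw θ ε M ≤ Pw θ' ε M := by
  have hM : 0 ≤ M := hε.trans h
  have e1 : ε ^ θ = ε ^ θ' * ε ^ (θ - θ') := by
    rw [← Real.rpow_add_of_nonneg hε h0.le (by linarith)]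
    congr 1
    ring
  have e2 : M ^ (1 - θ') = M ^ (θ - θ') * M ^ (1 - θ) := by
    rw [← Real.rpow_add_of_nonneg hM (by linarith) (by linarith)]
    congr 1
    ring
  unfold Pw
  rw [e1, e2, mul_assoc]
  exact mul_le_mul_of_nonneg_left (mul_le_mul_of_nonneg_right
    (Real.rpow_le_rpow hε h (by linarith)) (Real.rpow_nonneg hM _)) (Real.rpow_nonneg hε _)

private theorem nc1a_Pw_mul_aux (hC : 0 ≤ C) : C ^ θ * C ^ (1 - θ) = C := by
  rw [← Real.rpow_add' hC (by norm_num)]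
  norm_num

/-- `Pw θ (C ε) (C M) = C Pw θ ε M` -/
theorem Pw_mul (hε : 0 ≤ ε) (hM : 0 ≤ M) (hC : 0 ≤ C) : Pw θ (C * ε) (C * M) = C * Pw θ ε M := by
  unfold Pw
  rw [Real.mul_rpow hC hε, Real.mul_rpow hC hM]
  calc C ^ θ * ε ^ θ * (C ^ (1 - θ) * M ^ (1 - θ)) =
      C ^ θ * C ^ (1 - θ) * (ε ^ θ * M ^ (1 - θ)) := by ring
    _ = C * (ε ^ θ * M ^ (1 - θ)) := by rw [nc1a_Pw_mul_aux hC]

/-- composition: `Pw θ' (Pw θ ε M) M = Pw (θ θ') ε M` -/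
theorem Pw_comp (hε : 0 ≤ ε) (hM : 0 ≤ M) (h0 : 0 < θ) (h1 : θ ≤ 1) (h0' : 0 < θ') (h1' : θ' ≤ 1) :
    Pw θ' (Pw θ ε M) M = Pw (θ * θ') ε M := by
  unfold Pw
  rw [Real.mul_rpow (Real.rpow_nonneg hε _) (Real.rpow_nonneg hM _), ← Real.rpow_mul hε,
    ← Real.rpow_mul hM, mul_assoc, ← Real.rpow_add_of_nonneg hM (by nlinarith) (by linarith)]
  congr 2
  ring

theorem sqrt_eq_Pw (hε : 0 ≤ ε) (hM : 0 ≤ M) : √(ε * M) = Pw (1 / 2) ε M := by
  unfold Pw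
  rw [Real.sqrt_eq_rpow, Real.mul_rpow hε hM]
  norm_num

/-- Choice of `δ = d (ε/M)^{1/3}` (if `ε > 0`; `ε = 0`: let `δ → 0`). -/
theorem opt_third {a A B d : ℝ} (hd : 0 < d) (hA : 0 ≤ A) (hB : 0 ≤ B) (hε : 0 ≤ ε) (hM : ε ≤ M)
    (h : ∀ δ, 0 < δ → δ ≤ d → a ≤ A * M * δ + B * ε * (δ ^ 2)⁻¹) :
    a ≤ (A * d + B * (d ^ 2)⁻¹) * Pw (1 / 3) ε M := by
  rcases hε.eq_or_lt with h0 | h0
  · subst h0
    have hz : Pw (1 / 3) 0 M = 0 := by
      unfold Pw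
      rw [Real.zero_rpow (by norm_num), zero_mul]
    rw [hz, mul_zero]
    by_contra hneg
    rw [not_le] at hneg
    have hAM : 0 ≤ A * M := mul_nonneg hA hM
    have hδ : 0 < min d (a / (2 * (A * M + 1))) := lt_min hd (by positivity)
    have h1 := h _ hδ (min_le_left _ _)
    rw [mul_zero, zero_mul, add_zero] at h1
    have h2 : A * M * min d (a / (2 * (A * M + 1))) ≤ A * M * (a / (2 * (A * M + 1))) :=
      mul_le_mul_of_nonneg_left (min_le_right _ _) hAM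
    have h3 : A * M * (a / (2 * (A * M + 1))) < a := by
      rw [← mul_div_assoc, div_lt_iff₀ (by positivity)]
      nlinarith
    linarith
  · have hM0 : 0 < M := h0.trans_le hM
    obtain ⟨r, hr⟩ : ∃ r : ℝ, r = (ε / M) ^ (1 / 3 : ℝ) := ⟨_, rfl⟩
    have hq : 0 < ε / M := div_pos h0 hM0
    have hr0 : 0 < r := hr ▸ Real.rpow_pos_of_pos hq _
    have hr1 : r ≤ 1 := by
      rw [hr]
      exact Real.rpow_le_one hq.le ((div_le_one hM0).2 hM) (by norm_num)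
    have hr3 : r ^ 3 = ε / M := by
      rw [hr, ← Real.rpow_natCast, ← Real.rpow_mul hq.le]
      norm_num
    have he : ε = r ^ 3 * M := by
      rw [hr3]
      field_simp
    have hP : Pw (1 / 3) ε M = r * M := by
      have e1 : ε = ε / M * M := by field_simp
      unfold Pw
      rw [hr]
      conv_lhs => rw [e1]
      rw [Real.mul_rpow hq.le hM0.le, mul_assoc, ← Real.rpow_add hM0]
      norm_num
    have h1 := h (d * r) (by positivity) (by nlinarith)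
    refine h1.trans (le_of_eq ?_)
    rw [hP, he]
    field_simp

end Pool.Agent.Lib.MP_79abb3_an.PD
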