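import Mathlib

/-!
Theorem D (MP_79abb3_an), block N: propagation of smallness for holomorphic functions from a real segment
(three lines theorem and the map `r cosh w`).
-/

set_option autoImplicit false

open Set Filter Topology

namespace Pool.Agent.Lib.MP_79abb3_an.PD

section
variable {E : Type*} [NormedAddCommGroup E] [NormedSpace ℂ E]

theorem norm_cosh_le (w : ℂ) : ‖Complex.cosh w‖ ≤ Real.cosh w.re := by
  rw [Complex.cosh, norm_div, Real.cosh_eq]
  have h1 : ‖Complex.exp w + Complex.exp (-w)‖ ≤ Real.exp w.re + Real.exp (-w.re) := by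
    refine (norm_add_le _ _).trans ?_
    rw [Complex.norm_exp, Complex.norm_exp, Complex.neg_re]
  have h2 : ‖(2 : ℂ)‖ = 2 := by norm_num
  rw [h2]
  exact div_le_div_of_nonneg_right h1 (by norm_num)

/-- A holomorphic function, bounded by `M` for `|z| < ρ` and by `ε ≤ M` on the real segment `[-r, r]`, `7 r < ρ`, is
bounded by `√(ε M)` on `[-2r, 2r]`. -/
theorem two_seg {g : ℂ → E} {r ρ ε M : ℝ} (hr : 0 < r) (hρ : 7 * r < ρ)
    (hg : DifferentiableOn ℂ g (Metric.ball 0 ρ)) (hM : ∀ z ∈ Metric.ball (0:ℂ) ρ, ‖g z‖ ≤ M)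
    (hε : ∀ s : ℝ, |s| ≤ r → ‖g s‖ ≤ ε) (hεM : ε ≤ M) :
    ∀ s : ℝ, |s| ≤ 2 * r → ‖g s‖ ≤ √(ε * M) := by
  have hε0 : 0 ≤ ε := (norm_nonneg _).trans (hε 0 (by simpa using hr.le))
  have hM0 : 0 ≤ M := hε0.trans hεM
  -- the case of a nonnegative point
  have main : ∀ (g : ℂ → E), DifferentiableOn ℂ g (Metric.ball 0 ρ) →
      (∀ z ∈ Metric.ball (0:ℂ) ρ, ‖g z‖ ≤ M) → (∀ s : ℝ, |s| ≤ r → ‖g s‖ ≤ ε) →
      ∀ s : ℝ, 0 ≤ s → s ≤ 2 * r → ‖g s‖ ≤ √(ε * M) := by
    intro g hg hM hε s hs0 hs2
    have hεsq : ε ≤ √(ε * M) := by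
      rw [Real.le_sqrt hε0 (by positivity)]
      nlinarith
    rcases le_or_gt s r with hsr | hsr
    · exact (hε s (by rw [abs_of_nonneg hs0]; exact hsr)).trans hεsq
    obtain ⟨u, hu⟩ : ∃ u, u = Real.arcosh 7 := ⟨_, rfl⟩
    obtain ⟨p, hp⟩ : ∃ p, p = Real.arcosh 2 := ⟨_, rfl⟩
    obtain ⟨q, hq⟩ : ∃ q, q = Real.arcosh (s / r) := ⟨_, rfl⟩
    have hs1 : 1 ≤ s / r := by rw [le_div_iff₀ hr]; linarith
    have hcu : Real.cosh u = 7 := by rw [hu]; exact Real.cosh_arcosh (by norm_num)
    have hcp : Real.cosh p = 2 := by rw [hp]; exact Real.cosh_arcosh (by norm_num)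
    have hcq : Real.cosh q = s / r := by rw [hq]; exact Real.cosh_arcosh hs1
    have hp0 : 0 ≤ p := by rw [hp]; exact Real.arcosh_nonneg (by norm_num)
    have hq0 : 0 ≤ q := by rw [hq]; exact Real.arcosh_nonneg hs1
    have hu0 : 0 ≤ u := by rw [hu]; exact Real.arcosh_nonneg (by norm_num)
    have hup : u = 2 * p := by
      have h1 : Real.cosh (2 * p) = 7 := by
        have h2 := Real.cosh_sq' p
        rw [Real.cosh_two_mul]
        have h3 := Real.cosh_sq p
        rw [hcp] at h3 ⊢
        linarith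
      have h2 : Real.cosh u = Real.cosh (2 * p) := by rw [hcu, h1]
      have h3 : |u| = |2 * p| := le_antisymm (Real.cosh_le_cosh.1 h2.le) (Real.cosh_le_cosh.1 h2.ge)
      rwa [abs_of_nonneg hu0, abs_of_nonneg (by linarith)] at h3
    have hqp : q ≤ p := by
      have h1 : Real.cosh q ≤ Real.cosh p := by
        rw [hcq, hcp, div_le_iff₀ hr]
        linarith
      have h2 := Real.cosh_le_cosh.1 h1
      rwa [abs_of_nonneg hq0, abs_of_nonneg hp0] at h2
    have hupos : 0 < u := by
      rcases eq_or_lt_of_le hu0 with h | h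
      · rw [← h, Real.cosh_zero] at hcu; norm_num at hcu
      · exact h
    have hball : ∀ w : ℂ, 0 ≤ w.re → w.re ≤ u → (r : ℂ) * Complex.cosh w ∈ Metric.ball (0:ℂ) ρ := by
      intro w h0 h1
      rw [mem_ball_zero_iff, norm_mul, Complex.norm_real, Real.norm_of_nonneg hr.le]
      have h2 := norm_cosh_le w
      have h3 : Real.cosh w.re ≤ 7 := by
        rw [← hcu]
        exact Real.cosh_le_cosh.2 (by rw [abs_of_nonneg h0, abs_of_nonneg hu0]; exact h1)
      nlinarith
    have hdc : Differentiable ℂ fun w : ℂ => (r : ℂ) * Complex.cosh w :=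
      Complex.differentiable_cosh.const_mul _
    have hd : ∀ w : ℂ, 0 ≤ w.re → w.re ≤ u →
        DifferentiableAt ℂ (fun w => g ((r : ℂ) * Complex.cosh w)) w := by
      intro w h0 h1
      have h2 : DifferentiableAt ℂ g ((r : ℂ) * Complex.cosh w) :=
        (hg _ (hball w h0 h1)).differentiableAt (Metric.isOpen_ball.mem_nhds (hball w h0 h1))
      exact h2.comp w (hdc w)
    have hcl : closure (Complex.HadamardThreeLines.verticalStrip 0 u) ⊆
        Complex.HadamardThreeLines.verticalClosedStrip 0 u := by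
      refine closure_minimal (fun w hw => ⟨hw.1.le, hw.2.le⟩) ?_
      exact isClosed_Icc.preimage Complex.continuous_re
    have key := Complex.HadamardThreeLines.norm_le_interp_of_mem_verticalClosedStrip'
      (f := fun w => g ((r : ℂ) * Complex.cosh w)) (z := (q : ℂ)) (a := ε) (b := M) (l := 0) (u := u)
      hupos (by
        show (q : ℂ).re ∈ Icc 0 u
        rw [Complex.ofReal_re]
        exact ⟨hq0, by linarith⟩)
      (by
        refine ⟨fun w hw => (hd w hw.1.le hw.2.le).differentiableWithinAt, fun w hw => ?_⟩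
        have h1 := hcl hw
        exact (hd w h1.1 h1.2).continuousAt.continuousWithinAt)
      (by
        refine ⟨M, ?_⟩
        rintro x ⟨w, hw, rfl⟩
        exact hM _ (hball w hw.1 hw.2))
      (by
        intro w hw
        have hw0 : w.re = 0 := hw
        have h1 : w = (w.im : ℂ) * Complex.I := by
          apply Complex.ext <;> simp [hw0]
        have h2 : (r : ℂ) * Complex.cosh w = ((r * Real.cos w.im : ℝ) : ℂ) := by
          rw [h1, Complex.cosh_mul_I]
          push_cast
          simp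
        show ‖g ((r : ℂ) * Complex.cosh w)‖ ≤ ε
        rw [h2]
        refine hε _ ?_
        rw [abs_mul, abs_of_pos hr]
        have h3 := Real.abs_cos_le_one w.im
        nlinarith)
      (by
        intro w hw
        have hw0 : w.re = u := hw
        exact hM _ (hball w (by rw [hw0]; exact hu0) hw0.le))
    have e1 : (r : ℂ) * Complex.cosh (q : ℂ) = (s : ℂ) := by
      have hrC : (r : ℂ) ≠ 0 := by exact_mod_cast hr.ne'
      rw [← Complex.ofReal_cosh, hcq]
      push_cast
      field_simp
    simp only [Complex.ofReal_re, sub_zero] at key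
    rw [e1] at key
    refine key.trans ?_
    -- the exponents
    have hθ0 : 0 ≤ q / u := by positivity
    have hθ : q / u ≤ 1 / 2 := by
      rw [div_le_iff₀ hupos]
      linarith
    rw [Real.sqrt_eq_rpow]
    rcases eq_or_lt_of_le hε0 with h0 | h0
    · rw [← h0, Real.zero_rpow (by linarith), zero_mul]
      positivity
    · have hM1 : 0 < M := h0.trans_le hεM
      rw [Real.mul_rpow hε0 hM0]
      have e2 : ε ^ (1 - q / u) = ε ^ (1 / 2 : ℝ) * ε ^ (1 / 2 - q / u) := by
        rw [← Real.rpow_add h0]; congr 1; ring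
      have e3 : M ^ (1 / 2 : ℝ) = M ^ (1 / 2 - q / u) * M ^ (q / u) := by
        rw [← Real.rpow_add hM1]; congr 1; ring
      rw [e2, e3, mul_assoc]
      refine mul_le_mul_of_nonneg_left ?_ (Real.rpow_nonneg hε0 _)
      exact mul_le_mul_of_nonneg_right (Real.rpow_le_rpow hε0 hεM (by linarith))
        (Real.rpow_nonneg hM0 _)
  intro s hs
  rcases le_total 0 s with h | h
  · exact main g hg hM hε s h (by rwa [abs_of_nonneg h] at hs)
  · have h1 := main (fun z => g (-z))
      (hg.comp (differentiable_neg.differentiableOn) fun z hz => by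
        rw [mem_ball_zero_iff, norm_neg]; exact mem_ball_zero_iff.1 hz)
      (fun z hz => hM (-z) (by rw [mem_ball_zero_iff, norm_neg]; exact mem_ball_zero_iff.1 hz))
      (fun t ht => by
        have := hε (-t) (by rwa [abs_neg])
        simpa using this) (-s) (by linarith) (by rw [abs_of_nonpos h] at hs; exact hs)
    simpa using h1

end

end Pool.Agent.Lib.MP_79abb3_an.PD
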