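import Pool.Agent.Lib.MP_79abb3_an.PD.NC1a
import Pool.Agent.Lib.MP_79abb3_an.PD.NB6a
import Pool.Agent.Lib.MP_79abb3_an.PD.NTwo

/-!
Theorem D (MP_79abb3_an), block N: functions with analytic extension along lines.
-/

set_option autoImplicit false
set_option linter.unusedSectionVars false

open MeasureTheory Set Filter Topology Function
open scoped ENNReal InnerProductSpace

namespace Pool.Agent.Lib.MP_79abb3_an.PD

variable {θ θ' ε ε' M M' C : ℝ}

/-! ### Functions with analytic extension along lines -/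

variable {x₁ : ℂ} {R : ℝ} {v : ℂ → ℂ}

theorem Ana.norm_le (h : Ana M x₁ R v) (hR : 0 < R) {x : ℂ} (hx : x ∈ Metric.ball x₁ R) : ‖v x‖ ≤ M := by
  obtain ⟨g, -, h2, h3⟩ := h x hx 1 norm_one
  have h0 : g ((0 : ℝ) : ℂ) = v x := by
    rw [h3 0 (by rw [abs_zero]; positivity)]
    simp
  rw [← h0]
  exact h2 _ (by rw [Complex.ofReal_zero]; exact Metric.mem_ball_self (by positivity))

theorem Ana.conj (h : Ana M x₁ R v) : Ana M x₁ R (fun x => (starRingEnd ℂ) (v x)) := by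
  intro x hx e he
  obtain ⟨g, h1, h2, h3⟩ := h x hx e he
  have hc : ∀ z ∈ Metric.ball (0:ℂ) (R / 4), (starRingEnd ℂ) z ∈ Metric.ball (0:ℂ) (R / 4) := by
    intro z hz
    rw [mem_ball_zero_iff, RCLike.norm_conj]
    exact mem_ball_zero_iff.1 hz
  refine ⟨fun z => (starRingEnd ℂ) (g ((starRingEnd ℂ) z)), ?_, ?_, ?_⟩
  · intro z hz
    have h4 : DifferentiableAt ℂ g ((starRingEnd ℂ) z) :=
      (h1 _ (hc z hz)).differentiableAt (Metric.isOpen_ball.mem_nhds (hc z hz))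
    have h5 := h4.conj_conj
    rw [Complex.conj_conj] at h5
    exact h5.differentiableWithinAt
  · intro z hz
    show ‖(starRingEnd ℂ) (g ((starRingEnd ℂ) z))‖ ≤ M
    rw [RCLike.norm_conj]
    exact h2 _ (hc z hz)
  · intro t ht
    show (starRingEnd ℂ) (g ((starRingEnd ℂ) (t : ℂ))) = (starRingEnd ℂ) (v (x + (t : ℂ) * e))
    rw [Complex.conj_ofReal, h3 t ht]

/-- the point `y` on the line through `x` in the direction of `y - x` -/
private theorem nc1b_line {x y : ℂ} (hxy : y - x ≠ 0) :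
    ‖(y - x) / ((‖y - x‖ : ℝ) : ℂ)‖ = 1 ∧ x + ((‖y - x‖ : ℝ) : ℂ) * ((y - x) / ((‖y - x‖ : ℝ) : ℂ)) = y := by
  have h0 : ‖y - x‖ ≠ 0 := norm_ne_zero_iff.2 hxy
  have h1 : ((‖y - x‖ : ℝ) : ℂ) ≠ 0 := by exact_mod_cast h0
  constructor
  · rw [norm_div, Complex.norm_real, norm_norm, div_self h0]
  · rw [mul_div_cancel₀ _ h1]
    ring

/-- Lipschitz bound: `|g'| ≤ M/(R/8)` on `|z| < R/8` (`Complex.norm_deriv_le_of_forall_mem_sphere_norm_le` on discs of radius
slightly smaller than `R/8`) and the mean value inequality on the segment. -/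
theorem Ana.lip (h : Ana M x₁ R v) (hR : 0 < R) {x y : ℂ} (hx : x ∈ Metric.ball x₁ R) (hy : ‖y - x‖ < R / 8) :
    ‖v y - v x‖ ≤ 16 * M / R * ‖y - x‖ := by
  have hM : 0 ≤ M := (norm_nonneg _).trans (h.norm_le hR hx)
  by_cases hxy : y - x = 0
  · have : y = x := sub_eq_zero.1 hxy
    subst this
    simp
  obtain ⟨he, hy'⟩ := nc1b_line hxy
  obtain ⟨g, h1, h2, h3⟩ := h x hx _ he
  have hsub : ∀ z ∈ Metric.ball (0:ℂ) (R / 8), Metric.closedBall z (R / 8) ⊆ Metric.ball (0:ℂ) (R / 4) := by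
    intro z hz w hw
    rw [mem_ball_zero_iff] at hz ⊢
    rw [mem_closedBall_iff_norm] at hw
    have h4 := norm_add_le (w - z) z
    rw [sub_add_cancel] at h4
    linarith
  have hdiff : ∀ z ∈ Metric.ball (0:ℂ) (R / 8), DifferentiableAt ℂ g z := by
    intro z hz
    have hz' : z ∈ Metric.ball (0:ℂ) (R / 4) :=
      hsub z hz (Metric.mem_closedBall_self (by positivity))
    exact (h1 z hz').differentiableAt (Metric.isOpen_ball.mem_nhds hz')
  have hder : ∀ z ∈ Metric.ball (0:ℂ) (R / 8), ‖deriv g z‖ ≤ M / (R / 8) := by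
    intro z hz
    refine Complex.norm_deriv_le_of_forall_mem_sphere_norm_le (by positivity) ?_ ?_
    · exact DifferentiableOn.diffContOnCl
        (h1.mono (Metric.closure_ball_subset_closedBall.trans (hsub z hz)))
    · intro w hw
      exact h2 w (hsub z hz (Metric.sphere_subset_closedBall hw))
  have h0 : g ((0 : ℝ) : ℂ) = v x := by
    rw [h3 0 (by rw [abs_zero]; positivity)]
    simp
  have h5 : g ((‖y - x‖ : ℝ) : ℂ) = v y := by
    rw [h3 _ (by rw [abs_of_nonneg (norm_nonneg _)]; linarith), hy']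
  have h6 := (convex_ball (0:ℂ) (R / 8)).norm_image_sub_le_of_norm_deriv_le (f := g) hdiff hder
    (x := ((0 : ℝ) : ℂ)) (y := ((‖y - x‖ : ℝ) : ℂ))
    (by rw [Complex.ofReal_zero]; exact Metric.mem_ball_self (by positivity))
    (by rw [mem_ball_zero_iff, Complex.norm_real, norm_norm]; exact hy)
  rw [h0, h5, Complex.ofReal_zero, sub_zero, Complex.norm_real, norm_norm] at h6
  refine h6.trans (mul_le_mul_of_nonneg_right ?_ (norm_nonneg _))
  rw [div_le_div_iff₀ (by positivity) hR]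
  nlinarith [mul_nonneg hM hR.le]

/-- continuous on `ball x₁ R` (`Ana.lip`) -/
theorem Ana.continuousOn (h : Ana M x₁ R v) (hR : 0 < R) : ContinuousOn v (Metric.ball x₁ R) := by
  intro x hx
  refine (continuousAt_of_locally_lipschitz (r := R / 8) (by positivity) (16 * M / R) ?_).continuousWithinAt
  intro y hy
  rw [dist_eq_norm] at hy
  rw [dist_eq_norm, dist_eq_norm]
  exact h.lip hR hx hy

/-- **Doubling**: `two_seg` on the lines through `x₁`. For `y = x₁ + s e ∈ ball x₁ (2r)`: the segment `|t| ≤ s/2 < r`, `7 s/2 < R/4`. -/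
theorem Ana.double (h : Ana M x₁ R v) {r : ℝ} (hr : 0 < r) (hR : 28 * r ≤ R) (hε : ∀ y ∈ Metric.ball x₁ r, ‖v y‖ ≤ ε)
    (hM : ε ≤ M) : ∀ y ∈ Metric.ball x₁ (2 * r), ‖v y‖ ≤ Pw (1 / 2) ε M := by
  intro y hy
  have hR0 : 0 < R := by linarith
  have hε0 : 0 ≤ ε := (norm_nonneg _).trans (hε x₁ (Metric.mem_ball_self hr))
  rw [← sqrt_eq_Pw hε0 (hε0.trans hM)]
  by_cases hxy : y - x₁ = 0
  · have : y = x₁ := sub_eq_zero.1 hxy
    subst this
    refine (hε y (Metric.mem_ball_self hr)).trans ?_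
    rw [Real.le_sqrt hε0 (mul_nonneg hε0 (hε0.trans hM))]
    nlinarith
  obtain ⟨he, hy'⟩ := nc1b_line hxy
  rw [mem_ball_iff_norm] at hy
  have hs : 0 < ‖y - x₁‖ := norm_pos_iff.2 hxy
  obtain ⟨g, h1, h2, h3⟩ := h x₁ (Metric.mem_ball_self hR0) _ he
  have h4 : ∀ s : ℝ, |s| ≤ ‖y - x₁‖ / 2 → ‖g s‖ ≤ ε := by
    intro s hs'
    rw [h3 s (by linarith)]
    refine hε _ ?_
    rw [mem_ball_iff_norm, add_sub_cancel_left, norm_mul, he, mul_one, Complex.norm_real, Real.norm_eq_abs]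
    linarith
  have h5 := two_seg (g := g) (r := ‖y - x₁‖ / 2) (ρ := R / 4) (ε := ε) (M := M) (by positivity)
    (by linarith) h1 h2 h4 hM ‖y - x₁‖ (by rw [abs_of_nonneg hs.le]; linarith)
  rwa [h3 _ (by rw [abs_of_nonneg hs.le]; linarith), hy'] at h5

end Pool.Agent.Lib.MP_79abb3_an.PD
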