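import Pool.Agent.Lib.MP_79abb3_an.PD.NC1b
import Pool.Agent.Lib.MP_79abb3_an.PD.GDef

/-!
Theorem D (MP_79abb3_an), block N: a small velocity has a small vorticity.
-/

set_option autoImplicit false
set_option linter.unusedSectionVars false

open MeasureTheory Set Filter Topology Function
open scoped ENNReal InnerProductSpace

namespace Pool.Agent.Lib.MP_79abb3_an.PD

variable {R : ℝ}

/-! ### Small velocity gives small vorticity -/

/-- A fixed bump function: `ρ ∈ Cc`, `ρ ≥ 0` real, support in the unit ball, integral one. -/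
theorem exists_bumpN : ∃ ρ : ℂ → ℝ, ContDiff ℝ ((⊤ : ℕ∞) : WithTop ℕ∞) ρ ∧ (∀ x, 0 ≤ ρ x) ∧
    tsupport ρ ⊆ Metric.closedBall 0 1 ∧ ∫ x, ρ x = 1 := by
  let f : ContDiffBump (0 : ℂ) := ⟨1 / 2, 1, by norm_num, by norm_num⟩
  refine ⟨f.normed volume, f.contDiff_normed, f.nonneg_normed, ?_, f.integral_normed⟩
  rw [f.tsupport_normed_eq]

/-- The scaled functions `ρ_δ(y) = δ⁻² ρ((y-x)/δ)`: test functions with support in `closedBall x δ`, integral one and
`∫ |dbar ρ_δ|² = δ⁻⁴ ∫ |dbar ρ|²`. -/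
theorem exists_bumps : ∃ B : ℝ, 0 ≤ B ∧ ∀ (x : ℂ) (δ : ℝ), 0 < δ → ∃ ρ : ℂ → ℝ,
    ContDiff ℝ ((⊤ : ℕ∞) : WithTop ℕ∞) ρ ∧ (∀ y, 0 ≤ ρ y) ∧ tsupport ρ ⊆ Metric.closedBall x δ ∧ ∫ y, ρ y = 1 ∧
    √(∫ y, ‖dbar (fun y => (ρ y : ℂ)) y‖ ^ 2) ≤ B * (δ ^ 2)⁻¹ := by
  obtain ⟨ρ, h1, h2, h3, h4⟩ := exists_bumpN
  refine ⟨√(∫ y, ‖dbar (fun y => (ρ y : ℂ)) y‖ ^ 2), Real.sqrt_nonneg _, fun x δ hδ => ?_⟩
  have hδ' : δ ≠ 0 := hδ.ne'
  have hc : 0 ≤ (δ ^ 2)⁻¹ := by positivity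
  refine ⟨fun y => (δ ^ 2)⁻¹ * ρ (δ⁻¹ • (y - x)), ?_, fun y => mul_nonneg hc (h2 _), ?_, ?_, ?_⟩
  · exact contDiff_const.mul (h1.comp ((contDiff_id.sub contDiff_const).const_smul δ⁻¹))
  · refine closure_minimal ?_ Metric.isClosed_closedBall
    intro y hy
    have hy1 : ρ (δ⁻¹ • (y - x)) ≠ 0 := right_ne_zero_of_mul hy
    have hy2 := h3 (subset_tsupport _ hy1)
    rw [mem_closedBall_zero_iff, norm_smul, norm_inv, Real.norm_of_nonneg hδ.le,
      inv_mul_le_iff₀ hδ, mul_one] at hy2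
    rw [mem_closedBall_iff_norm]
    exact hy2
  · rw [integral_const_mul, integral_sub_right_eq_self (fun y => ρ (δ⁻¹ • y)) x,
      Measure.integral_comp_inv_smul, h4, Complex.finrank_real_complex]
    rw [abs_of_nonneg (by positivity)]
    simp
    field_simp
  · have hder : ∀ y, dbar (fun y => (((δ ^ 2)⁻¹ * ρ (δ⁻¹ • (y - x)) : ℝ) : ℂ)) y =
        (((δ ^ 2)⁻¹ * δ⁻¹ : ℝ) : ℂ) * dbar (fun y => (ρ y : ℂ)) (δ⁻¹ • (y - x)) := by
      intro y
      have hg : DifferentiableAt ℝ (fun y => (ρ y : ℂ)) (δ⁻¹ • (y - x)) :=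
        (Complex.ofRealCLM.differentiableAt).comp _ (h1.differentiable (by simp) _)
      have hA : HasFDerivAt (fun y : ℂ => δ⁻¹ • (y - x)) (δ⁻¹ • ContinuousLinearMap.id ℝ ℂ) y :=
        ((hasFDerivAt_id y).sub_const x).const_smul δ⁻¹
      have h5 := (hg.hasFDerivAt.comp y hA).const_mul (((δ ^ 2)⁻¹ : ℝ) : ℂ)
      have h6 : (fun y => (((δ ^ 2)⁻¹ * ρ (δ⁻¹ • (y - x)) : ℝ) : ℂ)) =
          fun y => (((δ ^ 2)⁻¹ : ℝ) : ℂ) * ((fun y => (ρ y : ℂ)) ∘ fun y : ℂ => δ⁻¹ • (y - x)) y := by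
        funext y
        simp
      have hL : ∀ w : ℂ, (fderiv ℝ (fun y => (ρ y : ℂ)) (δ⁻¹ • (y - x)) ∘SL
          (δ⁻¹ • ContinuousLinearMap.id ℝ ℂ)) w =
          ((δ⁻¹ : ℝ) : ℂ) * fderiv ℝ (fun y => (ρ y : ℂ)) (δ⁻¹ • (y - x)) w := by
        intro w
        rw [ContinuousLinearMap.comp_apply, smul_apply, ContinuousLinearMap.id_apply, map_smul,
          Complex.real_smul]
      unfold dbar
      rw [h6, h5.fderiv, smul_apply, smul_apply, hL, hL, smul_eq_mul, smul_eq_mul]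
      push_cast
      ring
    simp_rw [hder, norm_mul, mul_pow]
    rw [integral_const_mul, integral_sub_right_eq_self
      (fun y => ‖dbar (fun y => (ρ y : ℂ)) (δ⁻¹ • y)‖ ^ 2) x,
      Measure.integral_comp_inv_smul volume (fun y => ‖dbar (fun y => (ρ y : ℂ)) y‖ ^ 2) δ, Complex.finrank_real_complex]
    rw [abs_of_nonneg (by positivity), Complex.norm_real, smul_eq_mul, ← mul_assoc,
      Real.sqrt_mul (by positivity)]
    have h7 : √(‖(δ ^ 2)⁻¹ * δ⁻¹‖ ^ 2 * δ ^ 2) = (δ ^ 2)⁻¹ := by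
      rw [Real.norm_of_nonneg (by positivity), ← mul_pow, Real.sqrt_sq (by positivity)]
      field_simp
    rw [h7, mul_comm]

/-- **(L1)** If `∂V/∂z̄ = -(i/2) v` near `x₁` and `ε = |V|_{L²(ball x₁ r)}` then `|v| ≤ C ε^{1/3} M^{2/3}` on `ball x₁ (r/2)`. For `x` in this
ball and `0 < δ ≤ r/4`: `v(x) = ∫ ρ_δ (v(x) - v) + ∫ ρ_δ v`, `|…| ≤ (16M/R) δ + 2 |∫ V dbar ρ_δ| ≤ (16M/R) δ + 2 ε B δ⁻²`
(`Ana.lip`, Cauchy and Schwarz); `opt_third`. -/
theorem small_vort {r : ℝ} (hr : 0 < r) (hR : 8 * r ≤ R) : ∃ C, 0 ≤ C ∧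
    ∀ (x₁ : ℂ) (V f v : ℂ → ℂ) (ε M : ℝ), MemLp V 2 (volume : Measure ℂ) → WD (Metric.ball x₁ R) V f →
      (∀ᵐ x ∂(volume.restrict (Metric.ball x₁ R)), f x = -(Complex.I / 2) * v x) → Ana M x₁ R v →
      √(∫ x in Metric.ball x₁ r, ‖V x‖ ^ 2) ≤ ε → ε ≤ M → ∀ x ∈ Metric.ball x₁ (r / 2), ‖v x‖ ≤ C * Pw (1 / 3) ε M := by
  obtain ⟨B, hB, hbump⟩ := exists_bumps
  have hR0 : 0 < R := by linarith
  refine ⟨16 / R * (r / 4) + 2 * B * ((r / 4) ^ 2)⁻¹, by positivity, ?_⟩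
  intro x₁ V f v ε M hV hWD hf hA hVε hεM x hx
  have hε : 0 ≤ ε := (Real.sqrt_nonneg _).trans hVε
  have hM : 0 ≤ M := hε.trans hεM
  refine opt_third (by positivity) (by positivity) (by positivity) hε hεM fun δ hδ hδr => ?_
  obtain ⟨ρ, h1, h2, h3, h4, h5⟩ := hbump x δ hδ
  have hx' : ‖x - x₁‖ < r / 2 := by rwa [mem_ball_iff_norm] at hx
  have hsub : Metric.closedBall x δ ⊆ Metric.ball x₁ r := by
    intro y hy
    rw [mem_closedBall_iff_norm] at hy
    rw [mem_ball_iff_norm]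
    calc ‖y - x₁‖ = ‖(y - x) + (x - x₁)‖ := by congr 1; ring
      _ ≤ ‖y - x‖ + ‖x - x₁‖ := norm_add_le _ _
      _ < r := by linarith
  have hsubR : Metric.ball x₁ r ⊆ Metric.ball x₁ R := Metric.ball_subset_ball (by linarith)
  have hxR : x ∈ Metric.ball x₁ R := hsubR (hsub (Metric.mem_closedBall_self hδ.le))
  set ψ : ℂ → ℂ := fun y => (ρ y : ℂ) with hψ
  have hts : tsupport ψ ⊆ Metric.closedBall x δ := by
    refine (closure_mono ?_).trans h3
    intro y hy h0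
    exact hy (by simp [hψ, h0])
  have hψc : HasCompactSupport ψ := (isCompact_closedBall x δ).of_isClosed_subset
    (isClosed_tsupport _) hts
  have hψs : ContDiff ℝ ((⊤ : ℕ∞) : WithTop ℕ∞) ψ := Complex.ofRealCLM.contDiff.comp h1
  have hρ0 : ∀ y, y ∉ Metric.closedBall x δ → ρ y = 0 := fun y hy =>
    image_eq_zero_of_notMem_tsupport fun h => hy (h3 h)
  have hTe : IsTe (Metric.ball x₁ R) ψ := ⟨hψs, hψc, hts.trans (hsub.trans hsubR)⟩
  -- the equation
  have heq := hWD.eq ψ hTe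
  have hfv : ∫ y, f y * ψ y = -(Complex.I / 2) * ∫ y, v y * ψ y := by
    rw [← integral_const_mul]
    refine integral_congr_ae ?_
    rw [ae_restrict_iff' measurableSet_ball] at hf
    filter_upwards [hf] with y hy
    by_cases hyR : y ∈ Metric.ball x₁ R
    · simp only [hy hyR]
      ring
    · have h0 : ψ y = 0 := by
        simp only [hψ, hρ0 y fun h => hyR (hsubR (hsub h)), Complex.ofReal_zero]
      simp only [h0, mul_zero]
  have hn : ‖∫ y, v y * ψ y‖ = 2 * ‖∫ y, V y * dbar ψ y‖ := by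
    rw [heq, hfv, norm_neg, norm_mul, norm_neg, norm_div, Complex.norm_I, Complex.norm_ofNat]
    ring
  -- Cauchy and Schwarz
  have hdc : Continuous (dbar ψ) := by
    have h6 : ∀ w : ℂ, Continuous fun y => fderiv ℝ ψ y w := fun w =>
      (hψs.continuous_fderiv (by simp)).clm_apply continuous_const
    exact ((h6 1).add (continuous_const.mul (h6 Complex.I))).div_const 2
  have hd0 : ∀ y, y ∉ Metric.closedBall x δ → dbar ψ y = 0 := by
    intro y hy
    have h6 : fderiv ℝ ψ y = 0 := fderiv_of_notMem_tsupport ℝ fun h => hy (hts h)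
    simp [dbar, h6]
  have hdcs : HasCompactSupport (dbar ψ) :=
    HasCompactSupport.intro (isCompact_closedBall x δ) hd0
  have hdM : MemLp (dbar ψ) 2 (volume : Measure ℂ) := hdc.memLp_of_hasCompactSupport hdcs
  have hCS : ‖∫ y, V y * dbar ψ y‖ ≤ ε * (B * (δ ^ 2)⁻¹) := by
    have e1 : ∫ y, V y * dbar ψ y = ∫ y in Metric.ball x₁ r, V y * dbar ψ y := by
      symm
      refine setIntegral_eq_integral_of_forall_compl_eq_zero fun y hy => ?_
      rw [hd0 y fun h => hy (hsub h), mul_zero]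
    rw [e1]
    have hV' : MemLp (fun y => ‖V y‖) (ENNReal.ofReal 2) (volume.restrict (Metric.ball x₁ r)) := by
      rw [show ENNReal.ofReal 2 = 2 by norm_num]
      exact hV.norm.restrict _
    have hd' : MemLp (fun y => ‖dbar ψ y‖) (ENNReal.ofReal 2)
        (volume.restrict (Metric.ball x₁ r)) := by
      rw [show ENNReal.ofReal 2 = 2 by norm_num]
      exact hdM.norm.restrict _
    have h6 := integral_mul_le_Lp_mul_Lq_of_nonneg (Real.HolderConjugate.two_two)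
      (Eventually.of_forall fun y => norm_nonneg (V y))
      (Eventually.of_forall fun y => norm_nonneg (dbar ψ y)) hV' hd'
    have h7 : ∫ y in Metric.ball x₁ r, ‖dbar ψ y‖ ^ 2 ≤ ∫ y, ‖dbar ψ y‖ ^ 2 := by
      refine setIntegral_le_integral ?_ (Eventually.of_forall fun y => by positivity)
      exact (memLp_two_iff_integrable_sq_norm hdM.1).1 hdM
    simp only [Real.rpow_two, ← Real.sqrt_eq_rpow] at h6
    calc ‖∫ y in Metric.ball x₁ r, V y * dbar ψ y‖
        ≤ ∫ y in Metric.ball x₁ r, ‖V y * dbar ψ y‖ := norm_integral_le_integral_norm _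
      _ = ∫ y in Metric.ball x₁ r, ‖V y‖ * ‖dbar ψ y‖ := by simp_rw [norm_mul]
      _ ≤ √(∫ y in Metric.ball x₁ r, ‖V y‖ ^ 2) * √(∫ y in Metric.ball x₁ r, ‖dbar ψ y‖ ^ 2) := h6
      _ ≤ ε * (B * (δ ^ 2)⁻¹) :=
        mul_le_mul hVε ((Real.sqrt_le_sqrt h7).trans h5) (Real.sqrt_nonneg _) hε
  -- the mean value
  have hvc : Continuous fun y => v y * ψ y := by
    refine ContinuousOn.continuous_of_tsupport_subset
      ((hA.continuousOn hR0).mul hψs.continuous.continuousOn) Metric.isOpen_ball ?_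
    exact (tsupport_mul_subset_right).trans (hts.trans (hsub.trans hsubR))
  have hvi : Integrable fun y => v y * ψ y :=
    hvc.integrable_of_hasCompactSupport hψc.mul_left
  have hψi : Integrable ψ := hψs.continuous.integrable_of_hasCompactSupport hψc
  have hψ1 : ∫ y, ψ y = 1 := by
    rw [hψ, integral_complex_ofReal, h4, Complex.ofReal_one]
  have hmv : ‖v x - ∫ y, v y * ψ y‖ ≤ 16 / R * M * δ := by
    have e1 : v x - ∫ y, v y * ψ y = ∫ y, (v x - v y) * ψ y := by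
      have e2 : ∫ y, v x * ψ y = v x := by rw [integral_const_mul, hψ1, mul_one]
      rw [← e2, ← integral_sub (hψi.const_mul _) hvi]
      refine integral_congr_ae (Eventually.of_forall fun y => ?_)
      simp only [e2]
      ring
    have hρi : Integrable ρ := h1.continuous.integrable_of_hasCompactSupport
      ((isCompact_closedBall x δ).of_isClosed_subset (isClosed_tsupport _) h3)
    rw [e1]
    calc ‖∫ y, (v x - v y) * ψ y‖ ≤ ∫ y, 16 / R * M * δ * ρ y := by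
          refine norm_integral_le_of_norm_le (hρi.const_mul _) (Eventually.of_forall fun y => ?_)
          by_cases hy : y ∈ Metric.closedBall x δ
          · have hy' : ‖y - x‖ ≤ δ := by rwa [mem_closedBall_iff_norm] at hy
            rw [norm_mul, hψ, Complex.norm_real, Real.norm_of_nonneg (h2 y), norm_sub_rev]
            refine mul_le_mul_of_nonneg_right ?_ (h2 y)
            calc ‖v y - v x‖ ≤ 16 * M / R * ‖y - x‖ := hA.lip hR0 hxR (by linarith)
              _ ≤ 16 * M / R * δ := mul_le_mul_of_nonneg_left hy' (by positivity)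
              _ = 16 / R * M * δ := by ring
          · simp only [hψ, hρ0 y hy, Complex.ofReal_zero, mul_zero, norm_zero, le_refl]
      _ = 16 / R * M * δ := by rw [integral_const_mul, h4, mul_one]
  calc ‖v x‖ = ‖(v x - ∫ y, v y * ψ y) + ∫ y, v y * ψ y‖ := by rw [sub_add_cancel]
    _ ≤ ‖v x - ∫ y, v y * ψ y‖ + ‖∫ y, v y * ψ y‖ := norm_add_le _ _
    _ ≤ 16 / R * M * δ + 2 * (ε * (B * (δ ^ 2)⁻¹)) := by
      rw [hn]
      exact add_le_add hmv (mul_le_mul_of_nonneg_left hCS (by norm_num))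
    _ = 16 / R * M * δ + 2 * B * ε * (δ ^ 2)⁻¹ := by ring

end Pool.Agent.Lib.MP_79abb3_an.PD
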