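import Pool.Agent.Lib.MP_79abb3_an.PD.GA4
import Pool.Agent.Lib.MP_79abb3_an.PD.NC1b

/-!
Theorem D (MP_79abb3_an), block N: the Cauchy transform, bounds.
-/

set_option autoImplicit false
set_option linter.unusedSectionVars false

open MeasureTheory Set Filter Topology Function
open scoped ENNReal InnerProductSpace

namespace Pool.Agent.Lib.MP_79abb3_an.PD

/-- restriction of the weak equation to a smaller set -/
theorem WD.mono {D D' : Set ℂ} {u f : ℂ → ℂ} (h : WD D u f) (h' : D' ⊆ D) : WD D' u f :=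
  ⟨h.iu.mono_set h', h.iF.mono_set h', fun ψ hψ => h.eq ψ ⟨hψ.smooth, hψ.cpt, hψ.supp.trans h'⟩⟩

private theorem nc2a_dbar_cont {η : ℂ → ℂ} (h : ContDiff ℝ ((⊤ : ℕ∞) : WithTop ℕ∞) η) :
    Continuous (dbar η) := by
  have h1 : Continuous (fderiv ℝ η) := h.continuous_fderiv (by simp)
  unfold dbar
  exact ((h1.clm_apply continuous_const).add
    (continuous_const.mul (h1.clm_apply continuous_const))).div_const 2

private theorem nc2a_dbar_zero {η : ℂ → ℂ} {x : ℂ} (h : x ∉ tsupport η) : dbar η x = 0 := by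
  have h1 : fderiv ℝ η x = 0 := by
    by_contra h2
    exact h (support_fderiv_subset ℝ (mem_support.mpr h2))
  unfold dbar
  rw [h1]
  simp

private theorem nc2a_dbar_one {η : ℂ → ℂ} {S : Set ℂ} (hS : IsOpen S) (h : ∀ y ∈ S, η y = 1) {x : ℂ}
    (hx : x ∈ S) : dbar η x = 0 := by
  have h1 : η =ᶠ[𝓝 x] fun _ => 1 := by
    filter_upwards [hS.mem_nhds hx] with y hy
    exact h y hy
  have h2 : fderiv ℝ η x = 0 := by
    rw [h1.fderiv_eq]
    exact fderiv_const_apply _
  unfold dbar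
  rw [h2]
  simp

private theorem nc2a_dbar_sub (η : ℂ → ℂ) (x₁ y : ℂ) :
    dbar (fun z => η (z - x₁)) y = dbar η (y - x₁) := by
  unfold dbar
  rw [fderiv_comp_sub]

/-- Test functions equal to one on `ball x₁ a` with support in `ball x₁ b`; bound of `dbar η`, and `dbar η = 0` on `ball x₁ a`.
(`ContDiffBump` with center `0`, translated, so that the constant depends on `a`, `b` only.) -/
theorem exists_eta {a b : ℝ} (ha : 0 < a) (hab : a < b) : ∃ C, 0 ≤ C ∧ ∀ x₁ : ℂ, ∃ η : ℂ → ℂ,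
    IsTe (Metric.ball x₁ b) η ∧ (∀ y ∈ Metric.ball x₁ a, η y = 1) ∧ (∀ y, ‖η y‖ ≤ 1) ∧ (∀ y, ‖dbar η y‖ ≤ C) ∧
    (∀ y ∈ Metric.ball x₁ a, dbar η y = 0) ∧ ∀ y ∉ Metric.ball x₁ b, dbar η y = 0 := by
  have hab1 : a < (a + b) / 2 := by linarith
  have hab2 : (a + b) / 2 < b := by linarith
  let f : ContDiffBump (0 : ℂ) := ⟨a, (a + b) / 2, ha, hab1⟩
  let η₀ : ℂ → ℂ := fun z => ((f z : ℝ) : ℂ)
  have hs0 : ContDiff ℝ ((⊤ : ℕ∞) : WithTop ℕ∞) η₀ := Complex.ofRealCLM.contDiff.comp f.contDiff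
  have hz0 : ∀ z, (a + b) / 2 ≤ ‖z‖ → η₀ z = 0 := by
    intro z hz
    have h1 : f z = 0 := f.zero_of_le_dist (by rw [dist_zero_right]; exact hz)
    show ((f z : ℝ) : ℂ) = 0
    rw [h1, Complex.ofReal_zero]
  have ho0 : ∀ z, ‖z‖ < a → η₀ z = 1 := by
    intro z hz
    have h1 : f z = 1 := f.one_of_mem_closedBall (by
      rw [mem_closedBall_zero_iff]; exact hz.le)
    show ((f z : ℝ) : ℂ) = 1
    rw [h1, Complex.ofReal_one]
  have hc0 : HasCompactSupport η₀ :=
    HasCompactSupport.intro (isCompact_closedBall (0 : ℂ) ((a + b) / 2)) fun z hz => by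
      rw [mem_closedBall_zero_iff, not_le] at hz
      exact hz0 z hz.le
  have hdc : HasCompactSupport (dbar η₀) := by
    refine HasCompactSupport.intro hc0 fun z hz => nc2a_dbar_zero hz
  obtain ⟨C, hC⟩ := hdc.exists_bound_of_continuous (nc2a_dbar_cont hs0)
  refine ⟨C, (norm_nonneg _).trans (hC 0), fun x₁ => ⟨fun y => η₀ (y - x₁), ?_⟩⟩
  have hts : tsupport (fun y => η₀ (y - x₁)) ⊆ Metric.closedBall x₁ ((a + b) / 2) := by
    refine closure_minimal ?_ Metric.isClosed_closedBall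
    intro y hy
    by_contra hcon
    rw [Metric.mem_closedBall, not_le, dist_eq_norm] at hcon
    exact hy (hz0 _ hcon.le)
  have hts' : tsupport (fun y => η₀ (y - x₁)) ⊆ Metric.ball x₁ b :=
    hts.trans (Metric.closedBall_subset_ball hab2)
  have ho : ∀ y ∈ Metric.ball x₁ a, η₀ (y - x₁) = 1 := by
    intro y hy
    rw [Metric.mem_ball, dist_eq_norm] at hy
    exact ho0 _ hy
  refine ⟨⟨hs0.comp (contDiff_id.sub contDiff_const), ?_, hts'⟩, ho, ?_, ?_, ?_, ?_⟩
  · exact HasCompactSupport.of_support_subset_isCompact (isCompact_closedBall x₁ ((a + b) / 2))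
      (subset_closure.trans hts)
  · intro y
    show ‖((f (y - x₁) : ℝ) : ℂ)‖ ≤ 1
    rw [Complex.norm_real, Real.norm_of_nonneg f.nonneg]
    exact f.le_one
  · intro y
    rw [nc2a_dbar_sub]
    exact hC _
  · intro y hy
    exact nc2a_dbar_one Metric.isOpen_ball ho hy
  · intro y hy
    exact nc2a_dbar_zero fun h => hy (hts' h)

/-- Near field: `|g| ≤ ε` on `ball x₁ ρ`, `g = 0` outside. `inv_integrableOn`, `norm_integral_le_of_norm_le`. -/
theorem CT_near (ρ : ℝ) : ∃ C, 0 ≤ C ∧ ∀ (x₁ : ℂ) (g : ℂ → ℂ) (ε : ℝ), (∀ z ∈ Metric.ball x₁ ρ, ‖g z‖ ≤ ε) →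
    (∀ z ∉ Metric.ball x₁ ρ, g z = 0) → 0 ≤ ε → ∀ x ∈ Metric.ball x₁ ρ, ‖CT g x‖ ≤ C * ε := by
  set G : ℂ → ℝ := (Metric.closedBall (0 : ℂ) (2 * ρ)).indicator (fun z => ‖z⁻¹‖) with hG
  have hGi : Integrable G := by
    rw [hG, integrable_indicator_iff Metric.isClosed_closedBall.measurableSet]
    exact (inv_integrableOn (2 * ρ)).norm
  have hG0 : ∀ z, 0 ≤ G z := fun z => indicator_nonneg (fun _ _ => norm_nonneg _) z
  have hI0 : 0 ≤ ∫ z, G z := integral_nonneg hG0
  have hpi := Real.pi_pos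
  refine ⟨Real.pi⁻¹ * ∫ z, G z, by positivity, fun x₁ g ε h1 h0 hε x hx => ?_⟩
  unfold CT
  rw [norm_mul, norm_inv, Complex.norm_real, Real.norm_of_nonneg hpi.le, mul_assoc]
  refine mul_le_mul_of_nonneg_left ?_ (by positivity)
  have hb : ∀ z, ‖g z / (x - z)‖ ≤ ε * G (x - z) := by
    intro z
    by_cases hz : z ∈ Metric.ball x₁ ρ
    · have h2 : x - z ∈ Metric.closedBall (0 : ℂ) (2 * ρ) := by
        rw [mem_closedBall_zero_iff]
        rw [Metric.mem_ball, dist_eq_norm] at hz hx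
        calc ‖x - z‖ = ‖(x - x₁) - (z - x₁)‖ := by congr 1; ring
          _ ≤ ‖x - x₁‖ + ‖z - x₁‖ := norm_sub_le _ _
          _ ≤ 2 * ρ := by linarith
      rw [hG, indicator_of_mem h2, div_eq_mul_inv, norm_mul]
      exact mul_le_mul_of_nonneg_right (h1 z hz) (norm_nonneg _)
    · rw [h0 z hz, zero_div, norm_zero]
      exact mul_nonneg hε (hG0 _)
  have h3 := norm_integral_le_of_norm_le ((hGi.comp_sub_left x).const_mul ε)
    (Eventually.of_forall hb)
  rw [integral_const_mul, integral_sub_left_eq_self G volume x] at h3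
  linarith

/-- Far field: `g = 0` on `ball x d`. -/
theorem CT_far {g : ℂ → ℂ} (hg : Integrable g) {x : ℂ} {d : ℝ} (hd : 0 < d) (h0 : ∀ z ∈ Metric.ball x d, g z = 0) :
    ‖CT g x‖ ≤ (Real.pi * d)⁻¹ * ∫ z, ‖g z‖ := by
  have hpi := Real.pi_pos
  unfold CT
  rw [norm_mul, norm_inv, Complex.norm_real, Real.norm_of_nonneg hpi.le, mul_inv, mul_assoc]
  refine mul_le_mul_of_nonneg_left ?_ (by positivity)
  have hb : ∀ z, ‖g z / (x - z)‖ ≤ d⁻¹ * ‖g z‖ := by
    intro z
    by_cases hz : z ∈ Metric.ball x d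
    · rw [h0 z hz, zero_div, norm_zero]
      positivity
    · rw [Metric.mem_ball, not_lt, dist_comm, dist_eq_norm] at hz
      rw [norm_div, div_eq_mul_inv, mul_comm]
      exact mul_le_mul_of_nonneg_right (inv_anti₀ hd hz) (norm_nonneg _)
  have h3 := norm_integral_le_of_norm_le (hg.norm.const_mul d⁻¹) (Eventually.of_forall hb)
  rwa [integral_const_mul] at h3

/-- `∫_{ball x₁ ρ} |V| ≤ C |V|_{L²(ball x₁ ρ)}` (Cauchy and Schwarz). -/
theorem int_norm_le (ρ : ℝ) : ∃ C, 0 ≤ C ∧ ∀ (x₁ : ℂ) (V : ℂ → ℂ), MemLp V 2 (volume : Measure ℂ) →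
    ∫ x in Metric.ball x₁ ρ, ‖V x‖ ≤ C * √(∫ x in Metric.ball x₁ ρ, ‖V x‖ ^ 2) := by
  refine ⟨√(volume.real (Metric.ball (0 : ℂ) ρ)), Real.sqrt_nonneg _, fun x₁ V hV => ?_⟩
  set μ : Measure ℂ := volume.restrict (Metric.ball x₁ ρ) with hμ
  have hm : volume.real (Metric.ball (0 : ℂ) ρ) = volume.real (Metric.ball x₁ ρ) := by
    rw [measureReal_def, measureReal_def, Complex.volume_ball, Complex.volume_ball]
  have hfin : IsFiniteMeasure μ := ⟨by
    rw [hμ, Measure.restrict_apply_univ]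
    exact measure_ball_lt_top⟩
  have hV' : MemLp (fun x => ‖V x‖) 2 μ := (hV.restrict _).norm
  have hi1 : Integrable (fun x => ‖V x‖) μ := hV'.integrable (by norm_num)
  have hi2 : Integrable (fun x => ‖V x‖ ^ 2) μ := by
    have := (memLp_two_iff_integrable_sq hV'.1).1 hV'
    exact this
  have key : ∀ t : ℝ, 0 ≤ volume.real (Metric.ball x₁ ρ) * (t * t) + (-2 * ∫ x, ‖V x‖ ∂μ) * t +
      ∫ x, ‖V x‖ ^ 2 ∂μ := by
    intro t
    have h1 : 0 ≤ ∫ x, (‖V x‖ - t) ^ 2 ∂μ := integral_nonneg fun _ => sq_nonneg _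
    have h2 : ∫ x, (‖V x‖ - t) ^ 2 ∂μ = (∫ x, ‖V x‖ ^ 2 ∂μ) - 2 * t * (∫ x, ‖V x‖ ∂μ) +
        volume.real (Metric.ball x₁ ρ) * t ^ 2 := by
      have e : ∀ x, (‖V x‖ - t) ^ 2 = (‖V x‖ ^ 2 - 2 * t * ‖V x‖) + t ^ 2 := fun x => by ring
      simp only [e]
      have hi3 : Integrable (fun x => 2 * t * ‖V x‖) μ := hi1.const_mul _
      have hi4 : Integrable (fun x => ‖V x‖ ^ 2 - 2 * t * ‖V x‖) μ := hi2.sub hi3
      rw [integral_add hi4 (integrable_const _), integral_sub hi2 hi3, integral_const_mul,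
        integral_const, hμ, measureReal_restrict_apply_univ, smul_eq_mul]
    rw [h2] at h1
    linarith
  have hd := discrim_le_zero key
  unfold discrim at hd
  rw [hm, ← Real.sqrt_mul measureReal_nonneg]
  apply Real.le_sqrt_of_sq_le
  nlinarith

/-- the linearity of the Cauchy transform used below: both parts are integrable with compact support (`inv_locInt` and
boundedness for the second, `V` integrable and the kernel bounded for the first) at points of `ball x₁ a`, or: a.e. by Fubini. -/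
theorem CT_split {a b R : ℝ} (ha : 0 < a) (hab : a < b) (hbR : b ≤ R) {x₁ : ℂ} {V f v η : ℂ → ℂ}
    (hV : MemLp V 2 (volume : Measure ℂ)) (hW : WD (Metric.ball x₁ R) V f)
    (hf : ∀ᵐ x ∂(volume.restrict (Metric.ball x₁ R)), f x = -(Complex.I / 2) * v x)
    (hv : ContinuousOn v (Metric.ball x₁ R)) (hη : IsTe (Metric.ball x₁ b) η)
    (h1 : ∀ y ∈ Metric.ball x₁ a, η y = 1) :
    ∀ᵐ x ∂(volume.restrict (Metric.ball x₁ a)),
      V x = CT (fun z => V z * dbar η z) x + CT (fun z => (-(Complex.I / 2) * v z) * η z) x := by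
  have hbR' : Metric.ball x₁ b ⊆ Metric.ball x₁ R := Metric.ball_subset_ball hbR
  have hr := (hW.mono hbR').repr hη Metric.isOpen_ball h1
  have hη0 : ∀ z ∉ Metric.ball x₁ b, η z = 0 := fun z hz =>
    image_eq_zero_of_notMem_tsupport fun h => hz (hη.supp h)
  have hf' : ∀ᵐ z, z ∈ Metric.ball x₁ R → f z = -(Complex.I / 2) * v z :=
    (ae_restrict_iff' Metric.isOpen_ball.measurableSet).1 hf
  rw [ae_restrict_iff' Metric.isOpen_ball.measurableSet] at hr ⊢
  filter_upwards [hr] with w hw hwa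
  rw [hw hwa]
  -- the first part
  have hVi : LocallyIntegrable V := hV.locallyIntegrable (by norm_num)
  have hdc := nc2a_dbar_cont hη.smooth
  have hdK : HasCompactSupport (dbar η) := HasCompactSupport.intro hη.cpt fun z hz =>
    nc2a_dbar_zero hz
  have hi0 : Integrable (fun z => V z * dbar η z) := by
    have h2 : IntegrableOn V (tsupport η) := hVi.integrableOn_isCompact hη.cpt
    have h3 : IntegrableOn (fun z => V z * dbar η z) (tsupport η) :=
      h2.mul_continuousOn hdc.continuousOn hη.cpt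
    rw [integrableOn_iff_integrable_of_support_subset] at h3
    · exact h3
    · intro x hx
      by_contra hxK
      apply hx
      simp only [nc2a_dbar_zero hxK, mul_zero]
  have hd : 0 < a - ‖w - x₁‖ := by
    rw [Metric.mem_ball, dist_eq_norm] at hwa
    linarith
  have hi1 : Integrable (fun z => V z * dbar η z / (w - z)) := by
    have hmeas : AEStronglyMeasurable (fun z => V z * dbar η z / (w - z)) volume := by
      have h2 : Measurable fun z : ℂ => (w - z)⁻¹ := (measurable_const.sub measurable_id).inv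
      simp only [div_eq_mul_inv]
      exact hi0.aestronglyMeasurable.mul h2.aestronglyMeasurable
    refine (hi0.norm.const_mul (a - ‖w - x₁‖)⁻¹).mono' hmeas (Eventually.of_forall fun z => ?_)
    by_cases hz : z ∈ Metric.ball x₁ a
    · rw [nc2a_dbar_one Metric.isOpen_ball h1 hz]
      simp
    · have h2 : a - ‖w - x₁‖ ≤ ‖w - z‖ := by
        rw [Metric.mem_ball, dist_eq_norm, not_lt] at hz
        have h3 : ‖z - x₁‖ ≤ ‖w - x₁‖ + ‖w - z‖ := by
          have h4 : z - x₁ = (w - x₁) - (w - z) := by ring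
          rw [h4]
          exact norm_sub_le _ _
        linarith
      rw [norm_div, div_eq_mul_inv, mul_comm]
      exact mul_le_mul_of_nonneg_right (inv_anti₀ hd h2) (norm_nonneg _)
  -- the second part
  set g : ℂ → ℂ := fun z => (-(Complex.I / 2) * v z) * η z with hg
  have hgc : HasCompactSupport g := HasCompactSupport.intro hη.cpt fun z hz => by
    simp only [hg]
    rw [image_eq_zero_of_notMem_tsupport hz, mul_zero]
  have hgcont : Continuous g := by
    rw [continuous_iff_continuousAt]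
    intro x
    by_cases hx : x ∈ Metric.ball x₁ R
    · have h2 : ContinuousAt v x := hv.continuousAt (Metric.isOpen_ball.mem_nhds hx)
      exact (continuousAt_const.mul h2).mul hη.smooth.continuous.continuousAt
    · have h2 : x ∉ tsupport η := fun h => hx (hbR' (hη.supp h))
      have h3 : g =ᶠ[𝓝 x] fun _ => 0 := by
        filter_upwards [(isClosed_tsupport η).isOpen_compl.mem_nhds h2] with y hy
        simp only [hg]
        rw [image_eq_zero_of_notMem_tsupport hy, mul_zero]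
      exact (continuousAt_const.congr h3.symm)
  have hi2 : Integrable (fun z => g z / (w - z)) := by
    have h2 := hgc.convolutionExists_right (ContinuousLinearMap.mul ℝ ℂ) inv_locInt hgcont w
    have h3 : Integrable (fun z : ℂ => z⁻¹ * g (w - z)) := h2
    have h4 := h3.comp_sub_left w
    refine h4.congr (Eventually.of_forall fun z => ?_)
    simp only
    rw [sub_sub_cancel, div_eq_mul_inv, mul_comm]
  unfold CT
  rw [← mul_add, ← integral_add hi1 hi2]
  congr 1
  refine integral_congr_ae ?_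
  filter_upwards [hf'] with z hz
  have e : f z * η z = g z := by
    by_cases hzb : z ∈ Metric.ball x₁ b
    · rw [hz (hbR' hzb)]
    · simp only [hg]
      rw [hη0 z hzb, mul_zero, mul_zero]
  rw [e, add_div]

end Pool.Agent.Lib.MP_79abb3_an.PD
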