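import Pool.Agent.Lib.MP_79abb3_an.PD.NC2a

/-!
Theorem D (MP_79abb3_an), block N: the velocity from the vorticity.
-/

set_option autoImplicit false
set_option linter.unusedSectionVars false

open MeasureTheory Set Filter Topology Function
open scoped ENNReal InnerProductSpace

namespace Pool.Agent.Lib.MP_79abb3_an.PD

private theorem nc2b_dbar_cont {η : ℂ → ℂ} (h : ContDiff ℝ ((⊤ : ℕ∞) : WithTop ℕ∞) η) :
    Continuous (dbar η) := by
  have h1 : Continuous (fderiv ℝ η) := h.continuous_fderiv (by simp)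
  unfold dbar
  fun_prop

/-- integrability and norm of the first density -/
private theorem nc2b_far {Cη Ci ρ : ℝ} (hCη : 0 ≤ Cη) {x₁ : ℂ} {V η : ℂ → ℂ}
    (hi : ∫ x in Metric.ball x₁ ρ, ‖V x‖ ≤ Ci * √(∫ x in Metric.ball x₁ ρ, ‖V x‖ ^ 2))
    (hV : MemLp V 2 (volume : Measure ℂ)) (hη : IsTe (Metric.ball x₁ ρ) η)
    (hb : ∀ y, ‖dbar η y‖ ≤ Cη) (h0 : ∀ y ∉ Metric.ball x₁ ρ, dbar η y = 0) :
    Integrable (fun z => V z * dbar η z) ∧
      ∫ z, ‖V z * dbar η z‖ ≤ Cη * (Ci * √(∫ x in Metric.ball x₁ ρ, ‖V x‖ ^ 2)) := by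
  have hVi : IntegrableOn V (Metric.ball x₁ ρ) := by
    have h1 : MemLp V 2 (volume.restrict (Metric.ball x₁ ρ)) := hV.restrict _
    have : IsFiniteMeasure (volume.restrict (Metric.ball x₁ ρ)) :=
      ⟨by rw [Measure.restrict_apply_univ]; exact measure_ball_lt_top⟩
    exact h1.integrable (by norm_num)
  have hz : ∀ z ∉ Metric.ball x₁ ρ, V z * dbar η z = 0 := fun z hz => by
    rw [h0 z hz, mul_zero]
  have hIO : IntegrableOn (fun z => V z * dbar η z) (Metric.ball x₁ ρ) := by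
    refine Integrable.mul_bdd (c := Cη) hVi ?_ ?_
    · exact (nc2b_dbar_cont hη.smooth).aestronglyMeasurable
    · exact Filter.Eventually.of_forall hb
  have hI : Integrable (fun z => V z * dbar η z) :=
    (integrableOn_iff_integrable_of_support_subset (by
      intro z hz'
      by_contra hc
      exact hz' (hz z hc))).1 hIO
  refine ⟨hI, ?_⟩
  have h2 : ∫ z, ‖V z * dbar η z‖ = ∫ z in Metric.ball x₁ ρ, ‖V z * dbar η z‖ := by
    symm
    apply setIntegral_eq_integral_of_forall_compl_eq_zero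
    intro z hz'
    rw [hz z hz', norm_zero]
  rw [h2]
  calc ∫ z in Metric.ball x₁ ρ, ‖V z * dbar η z‖ ≤ ∫ z in Metric.ball x₁ ρ, Cη * ‖V z‖ := by
        apply integral_mono hIO.norm (hVi.norm.const_mul _)
        intro z
        show ‖V z * dbar η z‖ ≤ Cη * ‖V z‖
        rw [norm_mul, mul_comm]
        exact mul_le_mul_of_nonneg_right (hb z) (norm_nonneg _)
    _ = Cη * ∫ z in Metric.ball x₁ ρ, ‖V z‖ := integral_const_mul _ _
    _ ≤ _ := mul_le_mul_of_nonneg_left hi hCη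

/-- bound of the second density -/
private theorem nc2b_near {x₁ : ℂ} {ρ ε₂ : ℝ} {v η : ℂ → ℂ} (hη : IsTe (Metric.ball x₁ ρ) η)
    (h1 : ∀ y, ‖η y‖ ≤ 1) (hv : ∀ x ∈ Metric.ball x₁ ρ, ‖v x‖ ≤ ε₂) :
    (∀ z ∈ Metric.ball x₁ ρ, ‖(-(Complex.I / 2) * v z) * η z‖ ≤ ε₂) ∧
      ∀ z ∉ Metric.ball x₁ ρ, (-(Complex.I / 2) * v z) * η z = 0 := by
  constructor
  · intro z hz
    have h2 := hv z hz
    have h3 := h1 z
    have h4 : ‖(-(Complex.I / 2) * v z) * η z‖ = 1 / 2 * ‖v z‖ * ‖η z‖ := by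
      rw [norm_mul, norm_mul, norm_neg, norm_div, Complex.norm_I]
      norm_num
    rw [h4]
    have h5 : 0 ≤ ‖v z‖ := norm_nonneg _
    have h6 : 0 ≤ ‖η z‖ := norm_nonneg _
    nlinarith
  · intro z hz
    have : η z = 0 := image_eq_zero_of_notMem_tsupport (fun h => hz (hη.supp h))
    rw [this, mul_zero]

/-- **(L3a)** The velocity is bounded a.e. by its `L²` norm and the sup of the vorticity (`CT_split` for `a = r/2`, `b = r`;
`CT_far` with `d = r/4`, `CT_near` with `ρ = r`). -/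
theorem sup_vel {r : ℝ} (hr : 0 < r) : ∃ C, 0 ≤ C ∧ ∀ (R : ℝ) (x₁ : ℂ) (V f v : ℂ → ℂ) (ε₁ ε₂ : ℝ), r ≤ R →
    MemLp V 2 (volume : Measure ℂ) → WD (Metric.ball x₁ R) V f →
    (∀ᵐ x ∂(volume.restrict (Metric.ball x₁ R)), f x = -(Complex.I / 2) * v x) →
    ContinuousOn v (Metric.ball x₁ R) → (∀ x ∈ Metric.ball x₁ r, ‖v x‖ ≤ ε₂) →
    √(∫ x in Metric.ball x₁ r, ‖V x‖ ^ 2) ≤ ε₁ →
    ∀ᵐ x ∂(volume.restrict (Metric.ball x₁ (r / 4))), ‖V x‖ ≤ C * (ε₁ + ε₂) := by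
  obtain ⟨Cη, hCη, hη⟩ := exists_eta (a := r / 2) (b := r) (by positivity) (by linarith)
  obtain ⟨Cn, hCn, hnear⟩ := CT_near r
  obtain ⟨Ci, hCi, hint⟩ := int_norm_le r
  have hpi := Real.pi_pos
  refine ⟨(Real.pi * (r / 4))⁻¹ * (Cη * Ci) + Cn, by positivity, ?_⟩
  intro R x₁ V f v ε₁ ε₂ hrR hV hW hf hv hvb hVε
  obtain ⟨η, hηT, hη1, hηb, hdb, hdz, hdo⟩ := hη x₁
  have hε₂ : 0 ≤ ε₂ := (norm_nonneg _).trans (hvb x₁ (Metric.mem_ball_self hr))
  have hε₁ : 0 ≤ ε₁ := (Real.sqrt_nonneg _).trans hVε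
  obtain ⟨hI, hIb⟩ := nc2b_far hCη (hint x₁ V hV) hV hηT hdb hdo
  obtain ⟨hn1, hn2⟩ := nc2b_near hηT hηb hvb
  have hsplit := CT_split (a := r / 2) (b := r) (R := R) (by positivity) (by linarith) hrR hV hW hf hv hηT hη1
  have hsub : Metric.ball x₁ (r / 4) ⊆ Metric.ball x₁ (r / 2) := Metric.ball_subset_ball (by linarith)
  have hsplit' := ae_restrict_of_ae_restrict_of_subset hsub hsplit
  filter_upwards [hsplit', ae_restrict_mem Metric.isOpen_ball.measurableSet] with x hx hxb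
  rw [hx]
  have h1 := CT_far hI (x := x) (d := r / 4) (by positivity) (by
    intro z hz
    rw [hdz z, mul_zero]
    rw [Metric.mem_ball] at hz hxb ⊢
    calc dist z x₁ ≤ dist z x + dist x x₁ := dist_triangle _ _ _
      _ < r / 2 := by linarith)
  have h2 := hnear x₁ _ ε₂ hn1 hn2 hε₂ x (Metric.ball_subset_ball (by linarith) hxb)
  have h3 : ∫ z, ‖V z * dbar η z‖ ≤ Cη * (Ci * ε₁) :=
    hIb.trans (mul_le_mul_of_nonneg_left (mul_le_mul_of_nonneg_left hVε hCi) hCη)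
  have h4 : (Real.pi * (r / 4))⁻¹ * ∫ z, ‖V z * dbar η z‖ ≤ (Real.pi * (r / 4))⁻¹ * (Cη * (Ci * ε₁)) :=
    mul_le_mul_of_nonneg_left h3 (by positivity)
  have h5 : 0 ≤ (Real.pi * (r / 4))⁻¹ * (Cη * Ci) := by positivity
  calc ‖CT (fun z => V z * dbar η z) x + CT (fun z => (-(Complex.I / 2) * v z) * η z) x‖
      ≤ ‖CT (fun z => V z * dbar η z) x‖ + ‖CT (fun z => (-(Complex.I / 2) * v z) * η z) x‖ := norm_add_le _ _
    _ ≤ (Real.pi * (r / 4))⁻¹ * (Cη * Ci) * ε₁ + Cn * ε₂ := by linarith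
    _ ≤ ((Real.pi * (r / 4))⁻¹ * (Cη * Ci) + Cn) * (ε₁ + ε₂) := by nlinarith

/-- **(L3b)** Decomposition `V = g + h` on `ball x₁ (15 r)`: `g` holomorphic, bounded by `C M` on `ball x₁ (14 r)`; `h` small
(`CT_split` for `a = 15 r`, `b = 16 r`; `CT_holo` for `S = (ball x₁ (15 r))ᶜ`, `CT_far` with `d = r`, `CT_near` with `ρ = 16 r`). -/
theorem split_vel {r : ℝ} (hr : 0 < r) : ∃ C, 0 ≤ C ∧ ∀ (R : ℝ) (x₁ : ℂ) (V f v : ℂ → ℂ) (M ε₂ : ℝ), 16 * r ≤ R →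
    MemLp V 2 (volume : Measure ℂ) → WD (Metric.ball x₁ R) V f →
    (∀ᵐ x ∂(volume.restrict (Metric.ball x₁ R)), f x = -(Complex.I / 2) * v x) →
    ContinuousOn v (Metric.ball x₁ R) → (∀ x ∈ Metric.ball x₁ (16 * r), ‖v x‖ ≤ ε₂) →
    √(∫ x, ‖V x‖ ^ 2) ≤ M →
    ∃ g : ℂ → ℂ, DifferentiableOn ℂ g (Metric.ball x₁ (15 * r)) ∧ (∀ x ∈ Metric.ball x₁ (14 * r), ‖g x‖ ≤ C * M) ∧
      ∀ᵐ x ∂(volume.restrict (Metric.ball x₁ (15 * r))), ‖V x - g x‖ ≤ C * ε₂ := by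
  obtain ⟨Cη, hCη, hη⟩ := exists_eta (a := 15 * r) (b := 16 * r) (by positivity) (by linarith)
  obtain ⟨Cn, hCn, hnear⟩ := CT_near (16 * r)
  obtain ⟨Ci, hCi, hint⟩ := int_norm_le (16 * r)
  have hpi := Real.pi_pos
  refine ⟨(Real.pi * r)⁻¹ * (Cη * Ci) + Cn, by positivity, ?_⟩
  intro R x₁ V f v M ε₂ hrR hV hW hf hv hvb hVM
  obtain ⟨η, hηT, hη1, hηb, hdb, hdz, hdo⟩ := hη x₁
  have hε₂ : 0 ≤ ε₂ := (norm_nonneg _).trans (hvb x₁ (Metric.mem_ball_self (by positivity)))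
  have hM : 0 ≤ M := (Real.sqrt_nonneg _).trans hVM
  obtain ⟨hI, hIb⟩ := nc2b_far hCη (hint x₁ V hV) hV hηT hdb hdo
  obtain ⟨hn1, hn2⟩ := nc2b_near hηT hηb hvb
  have hsplit := CT_split (a := 15 * r) (b := 16 * r) (R := R) (by positivity) (by linarith) hrR hV hW hf hv hηT hη1
  have hV2 : √(∫ x in Metric.ball x₁ (16 * r), ‖V x‖ ^ 2) ≤ M := by
    refine (Real.sqrt_le_sqrt ?_).trans hVM
    apply setIntegral_le_integral
    · exact (memLp_two_iff_integrable_sq_norm hV.1).1 hV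
    · exact Filter.Eventually.of_forall (fun x => by positivity)
  refine ⟨CT (fun z => V z * dbar η z), ?_, ?_, ?_⟩
  · have h1 := CT_holo hI (S := (Metric.ball x₁ (15 * r))ᶜ) Metric.isOpen_ball.isClosed_compl (by
      intro z hz
      rw [Set.mem_compl_iff, not_not] at hz
      rw [hdz z hz, mul_zero])
    rwa [compl_compl] at h1
  · intro x hxb
    have h1 := CT_far hI (x := x) (d := r) hr (by
      intro z hz
      rw [hdz z, mul_zero]
      rw [Metric.mem_ball] at hz hxb ⊢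
      calc dist z x₁ ≤ dist z x + dist x x₁ := dist_triangle _ _ _
        _ < 15 * r := by linarith)
    have h3 : ∫ z, ‖V z * dbar η z‖ ≤ Cη * (Ci * M) :=
      hIb.trans (mul_le_mul_of_nonneg_left (mul_le_mul_of_nonneg_left hV2 hCi) hCη)
    have h4 : (Real.pi * r)⁻¹ * ∫ z, ‖V z * dbar η z‖ ≤ (Real.pi * r)⁻¹ * (Cη * (Ci * M)) :=
      mul_le_mul_of_nonneg_left h3 (by positivity)
    calc ‖CT (fun z => V z * dbar η z) x‖ ≤ (Real.pi * r)⁻¹ * (Cη * (Ci * M)) := h1.trans h4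
      _ = (Real.pi * r)⁻¹ * (Cη * Ci) * M := by ring
      _ ≤ ((Real.pi * r)⁻¹ * (Cη * Ci) + Cn) * M := by nlinarith
  · filter_upwards [hsplit, ae_restrict_mem Metric.isOpen_ball.measurableSet] with x hx hxb
    rw [hx, add_sub_cancel_left]
    have h2 := hnear x₁ _ ε₂ hn1 hn2 hε₂ x (Metric.ball_subset_ball (by linarith) hxb)
    have h5 : 0 ≤ (Real.pi * r)⁻¹ * (Cη * Ci) := by positivity
    refine h2.trans ?_
    nlinarith

end Pool.Agent.Lib.MP_79abb3_an.PD
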