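import Pool.Agent.Lib.MP_79abb3_an.PD.NC2b

/-!
Theorem D (MP_79abb3_an), block N: doubling for the velocity.
-/

set_option autoImplicit false
set_option linter.unusedSectionVars false

open MeasureTheory Set Filter Topology Function
open scoped ENNReal InnerProductSpace

namespace Pool.Agent.Lib.MP_79abb3_an.PD

/-- Doubling for a holomorphic function (`two_seg` on the lines through `x₁`), `7 ρ ≤ ρ'`. -/
theorem holo_double {x₁ : ℂ} {g : ℂ → ℂ} {ρ ρ' ε M : ℝ} (hρ : 0 < ρ) (h7 : 7 * ρ ≤ ρ')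
    (hg : DifferentiableOn ℂ g (Metric.ball x₁ ρ')) (hM : ∀ x ∈ Metric.ball x₁ ρ', ‖g x‖ ≤ M)
    (hε : ∀ x ∈ Metric.ball x₁ ρ, ‖g x‖ ≤ ε) (hεM : ε ≤ M) :
    ∀ x ∈ Metric.ball x₁ (2 * ρ), ‖g x‖ ≤ Pw (1 / 2) ε M := by
  intro x hx
  have hε0 : 0 ≤ ε := (norm_nonneg _).trans (hε x₁ (Metric.mem_ball_self hρ))
  have hM0 : 0 ≤ M := hε0.trans hεM
  rcases eq_or_ne x x₁ with h0 | h0
  · subst h0
    exact (hε x (Metric.mem_ball_self hρ)).trans (le_Pw hε0 hεM (by norm_num) (by norm_num))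
  have hd : 0 < ‖x - x₁‖ := norm_pos_iff.2 (sub_ne_zero.2 h0)
  have hd2 : ‖x - x₁‖ < 2 * ρ := by
    rw [Metric.mem_ball, dist_eq_norm] at hx
    exact hx
  obtain ⟨r, hr1, hr2⟩ : ∃ r, ‖x - x₁‖ / 2 < r ∧ r < ρ := exists_between (by linarith)
  have hr0 : 0 < r := by linarith
  set e : ℂ := (x - x₁) / ((‖x - x₁‖ : ℝ) : ℂ) with he
  have hd' : ((‖x - x₁‖ : ℝ) : ℂ) ≠ 0 := by exact_mod_cast hd.ne'
  have hen : ‖e‖ = 1 := by
    rw [he, norm_div, Complex.norm_real, norm_norm, div_self hd.ne']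
  have hmem : ∀ (z : ℂ) (R : ℝ), z ∈ Metric.ball (0 : ℂ) R → x₁ + z * e ∈ Metric.ball x₁ R := by
    intro z R hz
    rw [Metric.mem_ball, dist_eq_norm, add_sub_cancel_left, norm_mul, hen, mul_one]
    exact mem_ball_zero_iff.1 hz
  have hlin : Differentiable ℂ fun z : ℂ => x₁ + z * e :=
    (differentiable_id.mul_const e).const_add x₁
  have key := two_seg (g := fun z => g (x₁ + z * e)) (r := r) (ρ := ρ') (ε := ε) (M := M) hr0
    (by linarith)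
    (hg.comp hlin.differentiableOn fun z hz => hmem z _ hz)
    (fun z hz => hM _ (hmem z _ hz))
    (fun s hs => hε _ (hmem _ _ (by
      rw [mem_ball_zero_iff, Complex.norm_real, Real.norm_eq_abs]
      linarith)))
    hεM ‖x - x₁‖ (by rw [abs_of_pos hd]; linarith)
  have hx' : x₁ + ((‖x - x₁‖ : ℝ) : ℂ) * e = x := by
    rw [he, mul_div_cancel₀ _ hd']
    ring
  rw [← sqrt_eq_Pw hε0 hM0]
  simpa only [hx'] using key

/-- a continuous function bounded a.e. on an open set is bounded -/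
theorem bdd_of_ae {B : Set ℂ} (hB : IsOpen B) {g : ℂ → ℂ} (hg : ContinuousOn g B) {C : ℝ}
    (h : ∀ᵐ x ∂(volume.restrict B), ‖g x‖ ≤ C) : ∀ x ∈ B, ‖g x‖ ≤ C := by
  by_contra hcon
  push Not at hcon
  obtain ⟨x, hxB, hx⟩ := hcon
  have hU : IsOpen (B ∩ (fun x => ‖g x‖) ⁻¹' Ioi C) := hg.norm.isOpen_inter_preimage hB isOpen_Ioi
  have hpos : 0 < volume (B ∩ (fun x => ‖g x‖) ⁻¹' Ioi C) := hU.measure_pos volume ⟨x, hxB, hx⟩
  have h0 := ae_iff.1 h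
  have h1 : (volume.restrict B) (B ∩ (fun x => ‖g x‖) ⁻¹' Ioi C) = 0 := by
    refine measure_mono_null ?_ h0
    rintro y ⟨-, hy⟩
    exact not_le.2 hy
  rw [Measure.restrict_apply hU.measurableSet, inter_assoc, inter_comm _ B, ← inter_assoc,
    inter_self] at h1
  exact hpos.ne' h1

private theorem nc2c_cont {x₁ : ℂ} {V g : ℂ → ℂ} {r K ε M ε₂ : ℝ} (hr : 0 < r) (hK : 0 ≤ K)
    (hg : DifferentiableOn ℂ g (Metric.ball x₁ (15 * r)))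
    (hM : ∀ x ∈ Metric.ball x₁ (14 * r), ‖g x‖ ≤ K * M)
    (hs : ∀ᵐ x ∂(volume.restrict (Metric.ball x₁ (15 * r))), ‖V x - g x‖ ≤ K * ε₂)
    (hae : ∀ᵐ x ∂(volume.restrict (Metric.ball x₁ (r / 4))), ‖g x‖ ≤ K * ε)
    (hε0 : 0 ≤ ε) (hεM : ε ≤ M) (h2 : ε₂ ≤ ε) :
    ∀ᵐ x ∂(volume.restrict (Metric.ball x₁ (2 * r))), ‖V x‖ ≤ 2 * K * Pw (1 / 8) ε M := by
  have hM0 : 0 ≤ M := hε0.trans hεM
  have hg14 : DifferentiableOn ℂ g (Metric.ball x₁ (14 * r)) :=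
    hg.mono (Metric.ball_subset_ball (by linarith))
  have a0 : ∀ x ∈ Metric.ball x₁ (r / 4), ‖g x‖ ≤ K * ε :=
    bdd_of_ae Metric.isOpen_ball
      (hg.continuousOn.mono (Metric.ball_subset_ball (by linarith))) hae
  have a1 : ∀ x ∈ Metric.ball x₁ (r / 2), ‖g x‖ ≤ K * Pw (1 / 2) ε M := by
    have h := holo_double (x₁ := x₁) (ρ := r / 4) (by linarith) (by linarith) hg14 hM a0
      (mul_le_mul_of_nonneg_left hεM hK)
    rw [Pw_mul hε0 hM0 hK, show 2 * (r / 4) = r / 2 by ring] at h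
    exact h
  have b1 : Pw (1 / 2) ε M ≤ M := Pw_le hε0 hεM (by norm_num) (by norm_num)
  have b1' : 0 ≤ Pw (1 / 2) ε M := Pw_nonneg hε0 hM0
  have a2 : ∀ x ∈ Metric.ball x₁ r, ‖g x‖ ≤ K * Pw (1 / 4) ε M := by
    have h := holo_double (x₁ := x₁) (ρ := r / 2) (by linarith) (by linarith) hg14 hM a1
      (mul_le_mul_of_nonneg_left b1 hK)
    rw [Pw_mul b1' hM0 hK, Pw_comp hε0 hM0 (by norm_num) (by norm_num) (by norm_num) (by norm_num),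
      show 2 * (r / 2) = r by ring, show (1 : ℝ) / 2 * (1 / 2) = 1 / 4 by norm_num] at h
    exact h
  have b2 : Pw (1 / 4) ε M ≤ M := Pw_le hε0 hεM (by norm_num) (by norm_num)
  have b2' : 0 ≤ Pw (1 / 4) ε M := Pw_nonneg hε0 hM0
  have a3 : ∀ x ∈ Metric.ball x₁ (2 * r), ‖g x‖ ≤ K * Pw (1 / 8) ε M := by
    have h := holo_double (x₁ := x₁) (ρ := r) (by linarith) (by linarith) hg14 hM a2
      (mul_le_mul_of_nonneg_left b2 hK)
    rw [Pw_mul b2' hM0 hK, Pw_comp hε0 hM0 (by norm_num) (by norm_num) (by norm_num) (by norm_num),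
      show (1 : ℝ) / 4 * (1 / 2) = 1 / 8 by norm_num] at h
    exact h
  have b3 : ε ≤ Pw (1 / 8) ε M := le_Pw hε0 hεM (by norm_num) (by norm_num)
  have hs' : ∀ᵐ x ∂(volume.restrict (Metric.ball x₁ (2 * r))), ‖V x - g x‖ ≤ K * ε₂ :=
    ae_restrict_of_ae_restrict_of_subset (Metric.ball_subset_ball (by linarith)) hs
  filter_upwards [hs', ae_restrict_mem Metric.isOpen_ball.measurableSet] with x h3 h4
  have h5 : ‖V x‖ ≤ ‖V x - g x‖ + ‖g x‖ := by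
    calc ‖V x‖ = ‖(V x - g x) + g x‖ := by rw [sub_add_cancel]
      _ ≤ _ := norm_add_le _ _
  have h6 : K * ε₂ ≤ K * Pw (1 / 8) ε M := mul_le_mul_of_nonneg_left (h2.trans b3) hK
  linarith [a3 x h4]

/-- **(L3)** `|v| ≤ ε₂` on `ball x₁ (16 r)`, `|V|_{L²(ball x₁ r)} ≤ ε₁`, `ε₁ + ε₂ ≤ M`: `|V|_{L²(ball x₁ (2r))} ≤ C Pw (1/8) (ε₁+ε₂) M`.
`sup_vel` and `split_vel` (constants `C₁`, take a common one `≥ 1`): `|g| ≤ 2C₁(ε₁+ε₂)` on `ball x₁ (r/4)` (`bdd_of_ae`), `|g| ≤ 2C₁ M` on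
`ball x₁ (14 r)`; `holo_double` three times (`Pw_comp`, `Pw_mul`): `|g| ≤ 2C₁ Pw (1/8) (ε₁+ε₂) M` on `ball x₁ (2r)`;
`|V| ≤ |g| + C₁ ε₂`, `ε₂ ≤ Pw (1/8) (ε₁+ε₂) M` (`le_Pw`). -/
theorem double_vel {r : ℝ} (hr : 0 < r) : ∃ C, 0 ≤ C ∧ ∀ (R : ℝ) (x₁ : ℂ) (V f v : ℂ → ℂ) (M ε₁ ε₂ : ℝ), 16 * r ≤ R →
    MemLp V 2 (volume : Measure ℂ) → WD (Metric.ball x₁ R) V f →
    (∀ᵐ x ∂(volume.restrict (Metric.ball x₁ R)), f x = -(Complex.I / 2) * v x) →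
    ContinuousOn v (Metric.ball x₁ R) → (∀ x ∈ Metric.ball x₁ (16 * r), ‖v x‖ ≤ ε₂) →
    √(∫ x, ‖V x‖ ^ 2) ≤ M → √(∫ x in Metric.ball x₁ r, ‖V x‖ ^ 2) ≤ ε₁ → 0 ≤ ε₂ → ε₁ + ε₂ ≤ M →
    √(∫ x in Metric.ball x₁ (2 * r), ‖V x‖ ^ 2) ≤ C * Pw (1 / 8) (ε₁ + ε₂) M := by
  obtain ⟨C₁, hC₁, hsup⟩ := sup_vel hr
  obtain ⟨C₂, hC₂, hspl⟩ := split_vel hr
  set K : ℝ := C₁ + C₂ with hK
  have hK0 : 0 ≤ K := add_nonneg hC₁ hC₂
  set vol : ℝ := (volume (Metric.ball (0 : ℂ) (2 * r))).toReal with hvol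
  refine ⟨2 * K * √vol, by positivity, ?_⟩
  intro R x₁ V f v M ε₁ ε₂ hR hV hW hf hv hv2 hVM hV1 hε₂ hεM
  have hε₁ : 0 ≤ ε₁ := (Real.sqrt_nonneg _).trans hV1
  have hε0 : 0 ≤ ε₁ + ε₂ := add_nonneg hε₁ hε₂
  have hM0 : 0 ≤ M := hε0.trans hεM
  obtain ⟨g, hg1, hg2, hg3⟩ := hspl R x₁ V f v M ε₂ hR hV hW hf hv hv2 hVM
  have h1 := hsup R x₁ V f v ε₁ ε₂ (by linarith) hV hW hf hv
    (fun x hx => hv2 x (Metric.ball_subset_ball (by linarith) hx)) hV1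
  have hg3' : ∀ᵐ x ∂(volume.restrict (Metric.ball x₁ (15 * r))), ‖V x - g x‖ ≤ K * ε₂ := by
    filter_upwards [hg3] with x hx
    exact hx.trans (mul_le_mul_of_nonneg_right (by linarith) hε₂)
  have hae : ∀ᵐ x ∂(volume.restrict (Metric.ball x₁ (r / 4))), ‖g x‖ ≤ K * (ε₁ + ε₂) := by
    have h2 : ∀ᵐ x ∂(volume.restrict (Metric.ball x₁ (r / 4))), ‖V x - g x‖ ≤ C₂ * ε₂ :=
      ae_restrict_of_ae_restrict_of_subset (Metric.ball_subset_ball (by linarith)) hg3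
    filter_upwards [h1, h2] with x h3 h4
    have h5 : ‖g x‖ ≤ ‖V x‖ + ‖V x - g x‖ := by
      calc ‖g x‖ = ‖V x - (V x - g x)‖ := by rw [sub_sub_cancel]
        _ ≤ _ := norm_sub_le _ _
    have h6 : C₂ * ε₂ ≤ C₂ * (ε₁ + ε₂) := mul_le_mul_of_nonneg_left (by linarith) hC₂
    rw [hK]
    linarith
  have h2 := nc2c_cont hr hK0 hg1
    (fun x hx => (hg2 x hx).trans (mul_le_mul_of_nonneg_right (by linarith) hM0)) hg3' hae hε0 hεM
    (by linarith)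
  set P : ℝ := Pw (1 / 8) (ε₁ + ε₂) M with hP
  have hP0 : 0 ≤ P := Pw_nonneg hε0 hM0
  have hfin : IsFiniteMeasure (volume.restrict (Metric.ball x₁ (2 * r))) := ⟨by
    rw [Measure.restrict_apply_univ]; exact measure_ball_lt_top⟩
  have hint : Integrable (fun x => ‖V x‖ ^ 2) (volume.restrict (Metric.ball x₁ (2 * r))) :=
    ((memLp_two_iff_integrable_sq_norm hV.1).1 hV).integrableOn
  have h3 : ∫ x in Metric.ball x₁ (2 * r), ‖V x‖ ^ 2 ≤ vol * (2 * K * P) ^ 2 := by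
    calc ∫ x in Metric.ball x₁ (2 * r), ‖V x‖ ^ 2
        ≤ ∫ _ in Metric.ball x₁ (2 * r), (2 * K * P) ^ 2 := by
          refine integral_mono_ae hint (integrable_const _) ?_
          filter_upwards [h2] with x hx
          exact pow_le_pow_left₀ (norm_nonneg _) hx 2
      _ = vol * (2 * K * P) ^ 2 := by
          rw [integral_const, smul_eq_mul, measureReal_restrict_apply_univ, Measure.real,
            Measure.addHaar_ball_center]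
  calc √(∫ x in Metric.ball x₁ (2 * r), ‖V x‖ ^ 2) ≤ √(vol * (2 * K * P) ^ 2) :=
        Real.sqrt_le_sqrt h3
    _ = √vol * (2 * K * P) := by
        rw [Real.sqrt_mul ENNReal.toReal_nonneg, Real.sqrt_sq (by positivity)]
    _ = 2 * K * √vol * P := by ring

end Pool.Agent.Lib.MP_79abb3_an.PD
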