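import Pool.Agent.Lib.MP_79abb3_an.PD.NC2c
import Pool.Agent.Lib.MP_79abb3_an.PD.NC1c

/-!
Theorem D (MP_79abb3_an), block N: the local step.
-/

set_option autoImplicit false
set_option linter.unusedSectionVars false

open MeasureTheory Set Filter Topology Function
open scoped ENNReal InnerProductSpace

namespace Pool.Agent.Lib.MP_79abb3_an.PD

/-- iterated doubling -/
private theorem nc2d_iter {x₁ : ℂ} {R M e ρ : ℝ} {v : ℂ → ℂ} (h : Ana M x₁ R v) (hρ : 0 < ρ)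
    (he : ∀ y ∈ Metric.ball x₁ ρ, ‖v y‖ ≤ e) (heM : e ≤ M) :
    ∀ n : ℕ, 28 * (2 ^ n * ρ) ≤ R → ∀ y ∈ Metric.ball x₁ (2 ^ n * ρ), ‖v y‖ ≤ Pw ((1 / 2) ^ n) e M := by
  have he0 : 0 ≤ e := (norm_nonneg _).trans (he x₁ (Metric.mem_ball_self hρ))
  have hM0 : 0 ≤ M := he0.trans heM
  intro n
  induction n with
  | zero =>
    intro _ y hy
    rw [pow_zero, one_mul] at hy
    have : Pw ((1 / 2) ^ 0) e M = e := by
      unfold Pw
      rw [pow_zero, Real.rpow_one, sub_self, Real.rpow_zero, mul_one]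
    rw [this]
    exact he y hy
  | succ n ih =>
    intro hn y hy
    have hp : (0:ℝ) < (2:ℝ) ^ n * ρ := by positivity
    rw [pow_succ] at hn hy
    have ih' := ih (by nlinarith)
    have hle : Pw ((1 / 2) ^ n) e M ≤ M := Pw_le he0 heM (by positivity) (pow_le_one₀ (by norm_num) (by norm_num))
    have h1 := h.double hp (by nlinarith) ih' hle y (by
      rw [show 2 * (2 ^ n * ρ) = 2 ^ n * 2 * ρ by ring]; exact hy)
    rw [Pw_comp he0 hM0 (by positivity) (pow_le_one₀ (by norm_num) (by norm_num)) (by norm_num)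
      (by norm_num)] at h1
    rw [pow_succ]
    exact h1

/-- **Local step (LS).** From `ball x₁ r` to `ball x₁ (2r)`, for the velocity and the vorticity, `1000 r ≤ R`: `small_vort`
(vorticity on `ball x₁ (r/2)`), `Ana.double` five times (`ball x₁ (16 r)`), `double_vel`. All constants depend on `r`, `R` only.
`M` may be replaced by `C M` with `C ≥ 1` to have `ε ≤ M` in the intermediate steps (`Pw_mul`, `Pw_mono`). The exponent
`θ = (1/3)(1/32)(1/8)`. -/
theorem local_step {r R : ℝ} (hr : 0 < r) (hR : 1000 * r ≤ R) : ∃ C θ : ℝ, 0 ≤ C ∧ 0 < θ ∧ θ < 1 ∧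
    ∀ (x₁ : ℂ) (V f v : ℂ → ℂ) (ε M : ℝ), MemLp V 2 (volume : Measure ℂ) → WD (Metric.ball x₁ R) V f →
      (∀ᵐ x ∂(volume.restrict (Metric.ball x₁ R)), f x = -(Complex.I / 2) * v x) → Ana M x₁ R v →
      √(∫ x, ‖V x‖ ^ 2) ≤ M → √(∫ x in Metric.ball x₁ r, ‖V x‖ ^ 2) ≤ ε → ε ≤ M →
      √(∫ x in Metric.ball x₁ (2 * r), ‖V x‖ ^ 2) ≤ C * Pw θ ε M ∧
        ∀ x ∈ Metric.ball x₁ (2 * r), ‖v x‖ ≤ C * Pw θ ε M := by
  obtain ⟨C₁, hC₁, hsv⟩ := small_vort hr (R := R) (by linarith)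
  obtain ⟨C₂, hC₂, hdv⟩ := double_vel hr
  obtain ⟨K, hK⟩ : ∃ K, K = C₁ + 1 := ⟨_, rfl⟩
  have hK1 : 1 ≤ K := by rw [hK]; linarith
  have hK0 : 0 ≤ K := by linarith
  refine ⟨C₂ * (1 + K) + K, 1 / 768, by positivity, by norm_num, by norm_num, ?_⟩
  intro x₁ V f v ε M hV hW hf hA hVM hVε hεM
  have hR0 : 0 < R := by linarith
  have hε0 : 0 ≤ ε := (Real.sqrt_nonneg _).trans hVε
  have hM0 : 0 ≤ M := hε0.trans hεM
  -- the vorticity on the small ball
  have h1 : ∀ y ∈ Metric.ball x₁ (r / 2), ‖v y‖ ≤ K * Pw (1 / 3) ε M := by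
    intro y hy
    refine (hsv x₁ V f v ε M hV hW hf hA hVε hεM y hy).trans ?_
    exact mul_le_mul_of_nonneg_right (by rw [hK]; linarith) (Pw_nonneg hε0 hM0)
  have hA' : Ana (K * M) x₁ R v := by
    intro x hx e he
    obtain ⟨g, h2, h3, h4⟩ := hA x hx e he
    exact ⟨g, h2, fun z hz => (h3 z hz).trans (by nlinarith), h4⟩
  have h3le : Pw (1 / 3) ε M ≤ M := Pw_le hε0 hεM (by norm_num) (by norm_num)
  have h30 : 0 ≤ Pw (1 / 3) ε M := Pw_nonneg hε0 hM0
  have h2 := nc2d_iter hA' (ρ := r / 2) (by positivity) h1 (mul_le_mul_of_nonneg_left h3le hK0) 5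
    (by norm_num; linarith)
  have e1 : Pw ((1 / 2) ^ 5) (K * Pw (1 / 3) ε M) (K * M) = K * Pw (1 / 96) ε M := by
    rw [Pw_mul h30 hM0 hK0, Pw_comp hε0 hM0 (by norm_num) (by norm_num) (by norm_num) (by norm_num)]
    norm_num
  rw [e1] at h2
  have h16 : ∀ y ∈ Metric.ball x₁ (16 * r), ‖v y‖ ≤ K * Pw (1 / 96) ε M := by
    intro y hy
    refine h2 y ?_
    rw [show (2:ℝ) ^ 5 * (r / 2) = 16 * r by ring]
    exact hy
  have h960 : 0 ≤ Pw (1 / 96) ε M := Pw_nonneg hε0 hM0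
  have h96le : Pw (1 / 96) ε M ≤ M := Pw_le hε0 hεM (by norm_num) (by norm_num)
  have hε96 : ε ≤ Pw (1 / 96) ε M := le_Pw hε0 hεM (by norm_num) (by norm_num)
  have h7680 : 0 ≤ Pw (1 / 768) ε M := Pw_nonneg hε0 hM0
  have hanti : Pw (1 / 96) ε M ≤ Pw (1 / 768) ε M := Pw_anti hε0 hεM (by norm_num) (by norm_num) (by norm_num)
  constructor
  · have h4 := hdv R x₁ V f v ((1 + K) * M) ε (K * Pw (1 / 96) ε M) (by linarith) hV hW hf
      (hA.continuousOn hR0) h16 (hVM.trans (by nlinarith)) hVε (by positivity) (by nlinarith)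
    have h5 : Pw (1 / 8) (ε + K * Pw (1 / 96) ε M) ((1 + K) * M) ≤ (1 + K) * Pw (1 / 768) ε M := by
      have h6 : Pw (1 / 8) (ε + K * Pw (1 / 96) ε M) ((1 + K) * M) ≤
          Pw (1 / 8) ((1 + K) * Pw (1 / 96) ε M) ((1 + K) * M) :=
        Pw_mono (by positivity) (by nlinarith) (by positivity) le_rfl (by norm_num) (by norm_num)
      rw [Pw_mul h960 hM0 (by positivity), Pw_comp hε0 hM0 (by norm_num) (by norm_num) (by norm_num)
        (by norm_num)] at h6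
      refine h6.trans (le_of_eq ?_)
      norm_num
    have h7 := mul_le_mul_of_nonneg_left h5 hC₂
    refine (h4.trans h7).trans ?_
    nlinarith [mul_nonneg hK0 h7680]
  · intro x hx
    refine (h16 x (Metric.ball_subset_ball (by linarith) hx)).trans ?_
    have h8 : 0 ≤ C₂ * (1 + K) * Pw (1 / 768) ε M := by positivity
    nlinarith [mul_le_mul_of_nonneg_left hanti hK0]

end Pool.Agent.Lib.MP_79abb3_an.PD
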