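import Pool.Agent.Lib.MP_79abb3_an.PD.NC1a
import Pool.Agent.Lib.MP_79abb3_an.PD.NAc

/-!
Theorem D (MP_79abb3_an), block N: small velocity, small vorticity: definitions and rules.
-/

set_option autoImplicit false
set_option linter.unusedSectionVars false

open MeasureTheory Set Filter Topology Function
open scoped ENNReal InnerProductSpace

namespace Pool.Agent.Lib.MP_79abb3_an.PD

open Pool.Agent.Lib.MP_79abb3_an.SC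

theorem nd1_Pw_scale {θ N M a : ℝ} (ha : 0 ≤ a) (hM : 0 ≤ M) : Pw θ N (a * M) = a ^ (1 - θ) * Pw θ N M := by
  unfold Pw
  rw [Real.mul_rpow ha hM]
  ring

/-- Absorption of constants: `C₂` with `C₁ ≤ exp(C₂ (1-θ))`, `exp C₂ ≤ exp (C₂/τ)`. -/
theorem Pw_abs {θ : ℝ} (h0 : 0 < θ) (h1 : θ < 1) (C₁ C : ℝ) (hC₁ : 0 ≤ C₁) (hC : 0 ≤ C) : ∃ C', 0 ≤ C' ∧
    ∀ N Q τ : ℝ, 0 ≤ N → 0 ≤ Q → 0 < τ → τ ≤ 1 →
      C₁ * Pw θ N (Real.exp (C / τ) * Q) ≤ Pw θ N (Real.exp (C' / τ) * Q) := by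
  have h2 : 0 < 1 - θ := by linarith
  refine ⟨C + C₁ / (1 - θ), by positivity, ?_⟩
  intro N Q τ hN hQ hτ hτ1
  have e1 : Real.exp ((C + C₁ / (1 - θ)) / τ) * Q =
      Real.exp (C₁ / (1 - θ) / τ) * (Real.exp (C / τ) * Q) := by
    rw [← mul_assoc, ← Real.exp_add]
    congr 2
    ring
  have hM : 0 ≤ Real.exp (C / τ) * Q := by positivity
  rw [e1, nd1_Pw_scale (a := Real.exp (C₁ / (1 - θ) / τ)) (M := Real.exp (C / τ) * Q) (Real.exp_pos _).le hM]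
  refine mul_le_mul_of_nonneg_right ?_ (Pw_nonneg hN hM)
  rw [← Real.exp_mul]
  have e2 : C₁ / (1 - θ) / τ * (1 - θ) = C₁ / τ := by
    field_simp
  rw [e2]
  have e3 : C₁ ≤ C₁ / τ := by
    rw [le_div_iff₀ hτ]
    nlinarith
  calc C₁ ≤ C₁ / τ := e3
    _ ≤ C₁ / τ + 1 := by linarith
    _ ≤ Real.exp (C₁ / τ) := Real.add_one_le_exp _

theorem nd1_exp_mono {C C' τ Q : ℝ} (h : C ≤ C') (hτ : 0 < τ) (hQ : 0 ≤ Q) :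
    Real.exp (C / τ) * Q ≤ Real.exp (C' / τ) * Q :=
  mul_le_mul_of_nonneg_right (Real.exp_le_exp.2 (by gcongr)) hQ

/-- Composition: if `b ≤ Pw θ N (e^{C/τ} Q)` and `a ≤ C₁ Pw θ' b (e^{C'/τ} Q)` then `a ≤ Pw (θ θ') N (e^{C''/τ} Q)`
(`Pw_mono` to the maximum of the constants, `Pw_comp`, `Pw_abs`). -/
theorem Pw_chain {θ θ' : ℝ} (h0 : 0 < θ) (h1 : θ < 1) (h0' : 0 < θ') (h1' : θ' < 1) (C₁ C C' : ℝ)
    (hC₁ : 0 ≤ C₁) (hC : 0 ≤ C) (hC' : 0 ≤ C') : ∃ C'', 0 ≤ C'' ∧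
    ∀ a b N Q τ : ℝ, 0 ≤ b → 0 ≤ N → 0 ≤ Q → 0 < τ → τ ≤ 1 → b ≤ Pw θ N (Real.exp (C / τ) * Q) →
      a ≤ C₁ * Pw θ' b (Real.exp (C' / τ) * Q) → a ≤ Pw (θ * θ') N (Real.exp (C'' / τ) * Q) := by
  obtain ⟨C'', hC'', h⟩ := Pw_abs (θ := θ * θ') (mul_pos h0 h0') (by nlinarith) C₁ (max C C') hC₁
    (le_max_of_le_left hC)
  refine ⟨C'', hC'', ?_⟩
  intro a b N Q τ hb hN hQ hτ hτ1 h2 h3
  have hM : 0 ≤ Real.exp (max C C' / τ) * Q := by positivity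
  have h4 : b ≤ Pw θ N (Real.exp (max C C' / τ) * Q) :=
    h2.trans (Pw_mono hN le_rfl (by positivity) (nd1_exp_mono (le_max_left _ _) hτ hQ) h0.le h1.le)
  have h5 : Pw θ' b (Real.exp (C' / τ) * Q) ≤ Pw (θ * θ') N (Real.exp (max C C' / τ) * Q) := by
    rw [← Pw_comp hN hM h0 h1.le h0' h1'.le]
    exact Pw_mono hb h4 (by positivity) (nd1_exp_mono (le_max_right _ _) hτ hQ) h0'.le h1'.le
  calc a ≤ C₁ * Pw θ' b (Real.exp (C' / τ) * Q) := h3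
    _ ≤ C₁ * Pw (θ * θ') N (Real.exp (max C C' / τ) * Q) := mul_le_mul_of_nonneg_left h5 hC₁
    _ ≤ _ := h N Q τ hN hQ hτ hτ1

/-- The velocity is small on `S` if it is small on `Z`. -/
def SmU (D Z S : Set ℂ) : Prop := ∃ C θ : ℝ, 0 ≤ C ∧ 0 < θ ∧ θ < 1 ∧ ∀ (q : XD D) (τ : ℝ), 0 < τ → τ ≤ 1 →
  ‖ctY S ((Sg (KD D) τ q : XD D) : Y2)‖ ≤
    Pw θ ‖ctY Z ((Sg (KD D) τ q : XD D) : Y2)‖ (Real.exp (C / τ) * ‖q‖)

/-- The vorticity is small on `S` if the velocity is small on `Z`. -/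
def SmW (D Z S : Set ℂ) : Prop := ∃ C θ : ℝ, 0 ≤ C ∧ 0 < θ ∧ θ < 1 ∧ ∀ (q : XD D) (τ : ℝ), 0 < τ → τ ≤ 1 →
  ‖ct S (omq D τ q : L2c)‖ ≤ Pw θ ‖ctY Z ((Sg (KD D) τ q : XD D) : Y2)‖ (Real.exp (C / τ) * ‖q‖)

variable {D Z S S' : Set ℂ}

theorem SmU.mono (hS : MeasurableSet S) (hS' : MeasurableSet S') (h : S ⊆ S') (h' : SmU D Z S') : SmU D Z S := by
  obtain ⟨C, θ, hC, h0, h1, H⟩ := h'
  exact ⟨C, θ, hC, h0, h1, fun q τ hτ hτ1 => (norm_ctY_mono hS hS' h _).trans (H q τ hτ hτ1)⟩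

theorem SmW.mono (hS : MeasurableSet S) (hS' : MeasurableSet S') (h : S ⊆ S') (h' : SmW D Z S') : SmW D Z S := by
  obtain ⟨C, θ, hC, h0, h1, H⟩ := h'
  exact ⟨C, θ, hC, h0, h1, fun q τ hτ hτ1 => (norm_ct_mono hS hS' h _).trans (H q τ hτ hτ1)⟩

theorem nd1_le {C τ : ℝ} (hb : Bornology.IsBounded D) (hC : 0 ≤ C) (hτ : 0 < τ) (q : XD D) :
    ‖ctY Z ((Sg (KD D) τ q : XD D) : Y2)‖ ≤ Real.exp (C / τ) * ‖q‖ := by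
  have h1 : ‖ctY Z ((Sg (KD D) τ q : XD D) : Y2)‖ ≤ ‖q‖ :=
    (norm_ctY_le Z _).trans (Sg_norm_apply (KD_nonneg hb) τ q)
  have h2 : 1 ≤ Real.exp (C / τ) := Real.one_le_exp (by positivity)
  calc _ ≤ ‖q‖ := h1
    _ = 1 * ‖q‖ := (one_mul _).symm
    _ ≤ _ := mul_le_mul_of_nonneg_right h2 (norm_nonneg _)

theorem nd1_union (hb : Bornology.IsBounded D) {f f' f'' : XD D → ℝ → ℝ}
    (hf : ∀ q τ, 0 ≤ f q τ) (hf' : ∀ q τ, 0 ≤ f' q τ) (hf'' : ∀ q τ, 0 ≤ f'' q τ)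
    (hff : ∀ q τ, f'' q τ ^ 2 ≤ f q τ ^ 2 + f' q τ ^ 2)
    (h : ∃ C θ : ℝ, 0 ≤ C ∧ 0 < θ ∧ θ < 1 ∧ ∀ (q : XD D) (τ : ℝ), 0 < τ → τ ≤ 1 →
      f q τ ≤ Pw θ ‖ctY Z ((Sg (KD D) τ q : XD D) : Y2)‖ (Real.exp (C / τ) * ‖q‖))
    (h' : ∃ C θ : ℝ, 0 ≤ C ∧ 0 < θ ∧ θ < 1 ∧ ∀ (q : XD D) (τ : ℝ), 0 < τ → τ ≤ 1 →
      f' q τ ≤ Pw θ ‖ctY Z ((Sg (KD D) τ q : XD D) : Y2)‖ (Real.exp (C / τ) * ‖q‖)) :
    ∃ C θ : ℝ, 0 ≤ C ∧ 0 < θ ∧ θ < 1 ∧ ∀ (q : XD D) (τ : ℝ), 0 < τ → τ ≤ 1 →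
      f'' q τ ≤ Pw θ ‖ctY Z ((Sg (KD D) τ q : XD D) : Y2)‖ (Real.exp (C / τ) * ‖q‖) := by
  obtain ⟨C, θ, hC, h0, h1, H⟩ := h
  obtain ⟨C', θ', hC', h0', h1', H'⟩ := h'
  have hm0 : 0 < min θ θ' := lt_min h0 h0'
  have hm1 : min θ θ' < 1 := (min_le_left _ _).trans_lt h1
  have hCm : 0 ≤ max C C' := le_max_of_le_left hC
  obtain ⟨C'', hC'', K⟩ := Pw_abs hm0 hm1 2 (max C C') (by norm_num) hCm
  refine ⟨C'', min θ θ', hC'', hm0, hm1, ?_⟩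
  intro q τ hτ hτ1
  have hN := norm_nonneg (ctY Z ((Sg (KD D) τ q : XD D) : Y2))
  have hle := nd1_le (Z := Z) hb hCm hτ q
  have a1 : f q τ ≤ Pw (min θ θ') ‖ctY Z ((Sg (KD D) τ q : XD D) : Y2)‖
      (Real.exp (max C C' / τ) * ‖q‖) :=
    ((H q τ hτ hτ1).trans (Pw_mono hN le_rfl (by positivity)
      (nd1_exp_mono (le_max_left _ _) hτ (norm_nonneg _)) h0.le h1.le)).trans
      (Pw_anti hN hle hm0 (min_le_left _ _) h1.le)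
  have a2 : f' q τ ≤ Pw (min θ θ') ‖ctY Z ((Sg (KD D) τ q : XD D) : Y2)‖
      (Real.exp (max C C' / τ) * ‖q‖) :=
    ((H' q τ hτ hτ1).trans (Pw_mono hN le_rfl (by positivity)
      (nd1_exp_mono (le_max_right _ _) hτ (norm_nonneg _)) h0'.le h1'.le)).trans
      (Pw_anti hN hle hm0 (min_le_right _ _) h1'.le)
  have a3 : f'' q τ ≤ f q τ + f' q τ := by
    refine (abs_le_of_sq_le_sq' ?_ (add_nonneg (hf q τ) (hf' q τ))).2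
    nlinarith [hff q τ, hf q τ, hf' q τ, mul_nonneg (hf q τ) (hf' q τ)]
  have a4 := K ‖ctY Z ((Sg (KD D) τ q : XD D) : Y2)‖ ‖q‖ τ hN (norm_nonneg _) hτ hτ1
  linarith

/-- `norm_ctY_union_sq_le`, `√(a²+b²) ≤ a + b`, `Pw_anti` to the smaller exponent (`N ≤ ‖q‖ ≤ e^{C/τ}‖q‖`: `norm_ctY_le`,
`Sg_norm_apply`), `Pw_mono`, `Pw_abs`. -/
theorem SmU.union (hb : Bornology.IsBounded D) (hS : MeasurableSet S) (hS' : MeasurableSet S')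
    (h : SmU D Z S) (h' : SmU D Z S') : SmU D Z (S ∪ S') :=
  nd1_union (f := fun q τ => ‖ctY S ((Sg (KD D) τ q : XD D) : Y2)‖)
    (f' := fun q τ => ‖ctY S' ((Sg (KD D) τ q : XD D) : Y2)‖)
    (f'' := fun q τ => ‖ctY (S ∪ S') ((Sg (KD D) τ q : XD D) : Y2)‖) hb
    (fun _ _ => norm_nonneg _) (fun _ _ => norm_nonneg _) (fun _ _ => norm_nonneg _)
    (fun _ _ => norm_ctY_union_sq_le hS hS' _) h h'

theorem SmW.union (hb : Bornology.IsBounded D) (hS : MeasurableSet S) (hS' : MeasurableSet S')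
    (h : SmW D Z S) (h' : SmW D Z S') : SmW D Z (S ∪ S') :=
  nd1_union (f := fun q τ => ‖ct S (omq D τ q : L2c)‖) (f' := fun q τ => ‖ct S' (omq D τ q : L2c)‖)
    (f'' := fun q τ => ‖ct (S ∪ S') (omq D τ q : L2c)‖) hb
    (fun _ _ => norm_nonneg _) (fun _ _ => norm_nonneg _) (fun _ _ => norm_nonneg _)
    (fun _ _ => norm_ct_union_sq_le hS hS' _) h h'

theorem SmU.self (hb : Bornology.IsBounded D) : SmU D Z Z := by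
  refine ⟨0, 1 / 2, le_rfl, by norm_num, by norm_num, ?_⟩
  intro q τ hτ _
  exact le_Pw (norm_nonneg _) (nd1_le hb le_rfl hτ q) (by norm_num) (by norm_num)

/-- `√(∫_S |V_i|²) ≤ √2 |1_S u|` and `|1_S u| ≤ √(∫_S |V₁|²) + √(∫_S |V₂|²)` (`cv_sq`). -/
theorem cv_le (hS : MeasurableSet S) (u : Y2) : √(∫ x in S, ‖cv1 u x‖ ^ 2) ≤ √2 * ‖ctY S u‖ ∧
    √(∫ x in S, ‖cv2 u x‖ ^ 2) ≤ √2 * ‖ctY S u‖ ∧
    ‖ctY S u‖ ≤ √(∫ x in S, ‖cv1 u x‖ ^ 2) + √(∫ x in S, ‖cv2 u x‖ ^ 2) := by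
  have h := cv_sq hS u
  have h1 : 0 ≤ ∫ x in S, ‖cv1 u x‖ ^ 2 := integral_nonneg fun _ => by positivity
  have h2 : 0 ≤ ∫ x in S, ‖cv2 u x‖ ^ 2 := integral_nonneg fun _ => by positivity
  have h3 : √(2 * ‖ctY S u‖ ^ 2) = √2 * ‖ctY S u‖ := by
    rw [Real.sqrt_mul (by norm_num), Real.sqrt_sq (norm_nonneg _)]
  refine ⟨?_, ?_, ?_⟩
  · rw [← h3]; exact Real.sqrt_le_sqrt (by linarith)
  · rw [← h3]; exact Real.sqrt_le_sqrt (by linarith)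
  · have h4 := Real.sqrt_nonneg (∫ x in S, ‖cv1 u x‖ ^ 2)
    have h5 := Real.sqrt_nonneg (∫ x in S, ‖cv2 u x‖ ^ 2)
    have h6 := Real.sq_sqrt h1
    have h7 := Real.sq_sqrt h2
    refine (abs_le_of_sq_le_sq' ?_ (add_nonneg h4 h5)).2
    nlinarith [mul_nonneg h4 h5, sq_nonneg ‖ctY S u‖]

end Pool.Agent.Lib.MP_79abb3_an.PD
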