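import Pool.Agent.Lib.MP_79abb3_an.PD.ND1a
import Pool.Agent.Lib.MP_79abb3_an.PD.NC2d
import Pool.Agent.Lib.MP_79abb3_an.PD.NB6b

/-!
Theorem D (MP_79abb3_an), block N: the step of the propagation.
-/

set_option autoImplicit false
set_option linter.unusedSectionVars false

open MeasureTheory Set Filter Topology Function
open scoped ENNReal InnerProductSpace

namespace Pool.Agent.Lib.MP_79abb3_an.PD

open Pool.Agent.Lib.MP_79abb3_an.SC

variable {D Z S S' : Set ℂ}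

private theorem nd1b_ana_mono {M M' : ℝ} {x₁ : ℂ} {R : ℝ} {v : ℂ → ℂ} (h : Ana M x₁ R v) (hM : M ≤ M') :
    Ana M' x₁ R v := by
  intro x hx e he
  obtain ⟨g, h1, h2, h3⟩ := h x hx e he
  exact ⟨g, h1, fun z hz => (h2 z hz).trans hM, h3⟩

private theorem nd1b_ct {S : Set ℂ} (hS : MeasurableSet S) {w : L2c} {v : ℂ → ℂ} {A : ℝ} (hA : 0 ≤ A)
    (hfin : volume S ≠ ∞) (h : ∀ᵐ x ∂(volume.restrict S), w x = v x) (hv : ∀ x ∈ S, ‖v x‖ ≤ A) :
    ‖ct S w‖ ≤ √(volume.real S) * A := by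
  have h1 := norm_ct_sq hS w
  have h2 : ∫ x in S, ‖w x‖ ^ 2 ≤ ∫ _ in S, A ^ 2 := by
    apply integral_mono_of_nonneg
    · exact Eventually.of_forall fun x => by positivity
    · exact integrableOn_const hfin
    · filter_upwards [h, ae_restrict_mem hS] with x hx hxS
      rw [hx]
      have := hv x hxS
      gcongr
  rw [setIntegral_const, smul_eq_mul] at h2
  rw [← h1] at h2
  have h3 : (√(volume.real S) * A) ^ 2 = volume.real S * A ^ 2 := by
    rw [mul_pow, Real.sq_sqrt measureReal_nonneg]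
  rw [← h3] at h2
  exact (le_abs_self _).trans (abs_le_of_sq_le_sq h2 (by positivity))

/-- **Step.** `local_step` for `V = cv1 u`, `v` and for `V = cv2 u`, `conj v` (`cv1_WD`, `cv2_WD` for `omq D τ q`, `iot_omq`,
`WD.mono`; `exists_ana`, `Ana.conj`), `ε = √2 |1_{ball x r} u|`, `M = √2 e^{C/τ}|q|`; then `cv_le`, `Pw_mul`, `Pw_chain`. For the vorticity:
`|1_{ball x 2r} w| ≤ sup |v| √(area)`. -/
theorem SmU.step (hb : Bornology.IsBounded D) (hO : IsOpen D) {x : ℂ} {r R : ℝ} (hr : 0 < r) (hR : 1000 * r ≤ R)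
    (hB : Metric.closedBall x (4 * R) ⊆ D) (h : SmU D Z (Metric.ball x r)) :
    SmU D Z (Metric.ball x (2 * r)) ∧ SmW D Z (Metric.ball x (2 * r)) := by
  obtain ⟨C₀, θ₀, hC₀, hθ₀, hθ₀1, h₀⟩ := h
  have hR : 0 < R := by linarith
  obtain ⟨C₁, hC₁, h₁⟩ := exists_ana hb hO x hR hB
  obtain ⟨C₂, θ₂, hC₂, hθ₂, hθ₂1, h₂⟩ := local_step hr (R := R) (by linarith)
  have hs2 : (1 : ℝ) ≤ √2 := by
    rw [Real.one_le_sqrt]; norm_num
  have hs0 : (0 : ℝ) ≤ √2 := Real.sqrt_nonneg _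
  have hsub : Metric.ball x (2 * r) ⊆ Metric.ball x R := Metric.ball_subset_ball (by linarith)
  -- the bounds for a given state
  have key : ∀ (q : XD D) (τ : ℝ), 0 < τ → τ ≤ 1 →
      ‖ctY (Metric.ball x (2 * r)) ((Sg (KD D) τ q : XD D) : Y2)‖ ≤
        2 * (√2 * C₂) * Pw θ₂ ‖ctY (Metric.ball x r) ((Sg (KD D) τ q : XD D) : Y2)‖
          (Real.exp (C₁ / τ) * ‖q‖) ∧
      ‖ct (Metric.ball x (2 * r)) (omq D τ q : L2c)‖ ≤
        √(volume.real (Metric.ball x (2 * r))) * (√2 * C₂) *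
          Pw θ₂ ‖ctY (Metric.ball x r) ((Sg (KD D) τ q : XD D) : Y2)‖
          (Real.exp (C₁ / τ) * ‖q‖) := by
    intro q τ hτ hτ1
    obtain ⟨v, hv1, hv2⟩ := h₁ q τ hτ hτ1
    set u : Y2 := ((Sg (KD D) τ q : XD D) : Y2) with hu
    set b := ‖ctY (Metric.ball x r) u‖ with hbdef
    set m := Real.exp (C₁ / τ) * ‖q‖ with hm
    have hK : 0 ≤ KD D := KD_nonneg hb
    have huq : ‖u‖ ≤ ‖q‖ := Sg_norm_apply hK τ q
    have hm1 : ‖q‖ ≤ m := by
      have h5 : 1 ≤ Real.exp (C₁ / τ) := Real.one_le_exp (by positivity)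
      calc ‖q‖ = 1 * ‖q‖ := (one_mul _).symm
        _ ≤ m := mul_le_mul_of_nonneg_right h5 (norm_nonneg q)
    have hm0 : 0 ≤ m := (norm_nonneg q).trans hm1
    have hb0 : 0 ≤ b := norm_nonneg _
    have hbm : b ≤ m := (norm_ctY_le _ _).trans (huq.trans hm1)
    have hmM : m ≤ √2 * m := by
      calc m = 1 * m := (one_mul m).symm
        _ ≤ √2 * m := mul_le_mul_of_nonneg_right hs2 hm0
    have hiot : iot D (omq D τ q) = Sg (KD D) τ q := iot_omq hb hτ q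
    have hW1 : WD univ (cv1 u) (fun y => -(Complex.I / 2) * (omq D τ q : L2c) y) := by
      have := cv1_WD hb (omq D τ q)
      rwa [hiot] at this
    have hW2 : WD univ (cv2 u) (fun y => -(Complex.I / 2) * (starRingEnd ℂ) ((omq D τ q : L2c) y)) := by
      have := cv2_WD hb (omq D τ q)
      rwa [hiot] at this
    obtain ⟨g1, g2, -⟩ := cv_le (S := univ) MeasurableSet.univ u
    obtain ⟨k1, k2, -⟩ := cv_le (S := Metric.ball x r) measurableSet_ball u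
    obtain ⟨-, -, l3⟩ := cv_le (S := Metric.ball x (2 * r)) measurableSet_ball u
    rw [Measure.restrict_univ] at g1 g2
    have hall : √2 * ‖ctY univ u‖ ≤ √2 * m :=
      mul_le_mul_of_nonneg_left ((norm_ctY_le _ _).trans (huq.trans hm1)) hs0
    have hana : Ana (√2 * m) x R v := nd1b_ana_mono hv2 hmM
    have hεM : √2 * b ≤ √2 * m := mul_le_mul_of_nonneg_left hbm hs0
    have r1 := h₂ x (cv1 u) _ v (√2 * b) (√2 * m) (cv1_memLp u) (hW1.mono (subset_univ _))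
      (by filter_upwards [hv1] with y hy; rw [hy]) hana (g1.trans hall) k1 hεM
    have r2 := h₂ x (cv2 u) _ (fun y => (starRingEnd ℂ) (v y)) (√2 * b) (√2 * m) (cv2_memLp u)
      (hW2.mono (subset_univ _))
      (by filter_upwards [hv1] with y hy; rw [hy]) hana.conj (g2.trans hall) k2 hεM
    rw [Pw_mul hb0 hm0 hs0] at r1 r2
    have hP0 : 0 ≤ Pw θ₂ b m := Pw_nonneg hb0 hm0
    constructor
    · calc ‖ctY (Metric.ball x (2 * r)) u‖ ≤ C₂ * (√2 * Pw θ₂ b m) + C₂ * (√2 * Pw θ₂ b m) :=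
            l3.trans (add_le_add r1.1 r2.1)
        _ = 2 * (√2 * C₂) * Pw θ₂ b m := by ring
    · have h6 : ∀ᵐ y ∂(volume.restrict (Metric.ball x (2 * r))), (omq D τ q : L2c) y = v y :=
        ae_mono (Measure.restrict_mono hsub le_rfl) hv1
      have h7 := nd1b_ct measurableSet_ball (A := C₂ * (√2 * Pw θ₂ b m)) (by positivity)
        measure_ball_lt_top.ne h6 r1.2
      calc ‖ct (Metric.ball x (2 * r)) (omq D τ q : L2c)‖
          ≤ √(volume.real (Metric.ball x (2 * r))) * (C₂ * (√2 * Pw θ₂ b m)) := h7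
        _ = √(volume.real (Metric.ball x (2 * r))) * (√2 * C₂) * Pw θ₂ b m := by ring
  have hθ : 0 < θ₀ * θ₂ := mul_pos hθ₀ hθ₂
  have hθ1 : θ₀ * θ₂ < 1 := by nlinarith
  constructor
  · obtain ⟨C, hC, hfin⟩ := Pw_chain hθ₀ hθ₀1 hθ₂ hθ₂1 (2 * (√2 * C₂)) C₀ C₁ (by positivity) hC₀ hC₁
    refine ⟨C, θ₀ * θ₂, hC, hθ, hθ1, fun q τ hτ hτ1 => ?_⟩
    exact hfin _ _ _ _ τ (norm_nonneg _) (norm_nonneg _) (norm_nonneg q) hτ hτ1 (h₀ q τ hτ hτ1)
      (key q τ hτ hτ1).1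
  · obtain ⟨C, hC, hfin⟩ := Pw_chain hθ₀ hθ₀1 hθ₂ hθ₂1
      (√(volume.real (Metric.ball x (2 * r))) * (√2 * C₂)) C₀ C₁ (by positivity) hC₀ hC₁
    refine ⟨C, θ₀ * θ₂, hC, hθ, hθ1, fun q τ hτ hτ1 => ?_⟩
    exact hfin _ _ _ _ τ (norm_nonneg _) (norm_nonneg _) (norm_nonneg q) hτ hτ1 (h₀ q τ hτ hτ1)
      (key q τ hτ hτ1).2

end Pool.Agent.Lib.MP_79abb3_an.PD
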