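import Pool.Agent.Lib.MP_79abb3_an.PD.ND1b

/-!
Theorem D (MP_79abb3_an), block N: propagation of smallness in the interior of the domain.
-/

set_option autoImplicit false
set_option linter.unusedSectionVars false

open MeasureTheory Set Filter Topology Function
open scoped ENNReal InnerProductSpace

namespace Pool.Agent.Lib.MP_79abb3_an.PD

open Pool.Agent.Lib.MP_79abb3_an.SC

variable {D Z S S' : Set ℂ}

/-- Iteration: `r ≤ R/1000` without loss of generality, `2^k r ≥ R/1000 > 2^(k-1) r`. -/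
theorem SmU.grow (hb : Bornology.IsBounded D) (hO : IsOpen D) {x : ℂ} {r R : ℝ} (hr : 0 < r) (hR : 0 < R)
    (hB : Metric.closedBall x (4 * R) ⊆ D) (h : SmU D Z (Metric.ball x r)) :
    SmU D Z (Metric.ball x (R / 1000)) ∧ SmW D Z (Metric.ball x (R / 1000)) := by
  have hstep0 : ∀ r : ℝ, 0 < r → SmU D Z (Metric.ball x r) → R / 2000 ≤ r →
      SmU D Z (Metric.ball x (R / 1000)) ∧ SmW D Z (Metric.ball x (R / 1000)) := by
    intro r _ h1 h2
    have h3 : SmU D Z (Metric.ball x (R / 2000)) :=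
      SmU.mono measurableSet_ball measurableSet_ball (Metric.ball_subset_ball h2) h1
    have h4 := SmU.step hb hO (r := R / 2000) (R := R) (by positivity) (by linarith) hB h3
    have e : 2 * (R / 2000) = R / 1000 := by ring
    rw [e] at h4
    exact h4
  have key : ∀ k : ℕ, ∀ r : ℝ, 0 < r → SmU D Z (Metric.ball x r) → R / 2000 ≤ 2 ^ k * r →
      SmU D Z (Metric.ball x (R / 1000)) ∧ SmW D Z (Metric.ball x (R / 1000)) := by
    intro k
    induction k with
    | zero =>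
      intro r hr h1 h2
      rw [pow_zero, one_mul] at h2
      exact hstep0 r hr h1 h2
    | succ k ih =>
      intro r hr h1 h2
      by_cases h3 : R / 2000 ≤ r
      · exact hstep0 r hr h1 h3
      · push Not at h3
        have h4 := SmU.step hb hO (r := r) (R := R) hr (by linarith) hB h1
        refine ih (2 * r) (by positivity) h4.1 ?_
        calc R / 2000 ≤ 2 ^ (k + 1) * r := h2
          _ = 2 ^ k * (2 * r) := by ring
  obtain ⟨k, hk⟩ := pow_unbounded_of_one_lt (R / 2000 / r) (by norm_num : (1 : ℝ) < 2)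
  refine key k r hr h ?_
  rw [div_lt_iff₀ hr] at hk
  exact hk.le

/-- **Connectedness.** The set `A = {x ∈ D : ∃ r > 0, SmU D Z (ball x r)}` is open; it is closed in `D`: if `x* ∈ D`,
`closedBall x* (8R) ⊆ D` and `x ∈ A` with `|x - x*| < R/2000` then `closedBall x (4R) ⊆ D` and `SmU.grow` at `x` covers
`ball x* (R/2000)`. `IsConnected`: `IsPreconnected.subset_of_closure_inter_subset` or the like. -/
theorem SmU.all (hb : Bornology.IsBounded D) (hO : IsOpen D) (hc : IsConnected D) {x₀ : ℂ} {r₀ : ℝ} (hr : 0 < r₀)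
    (hx : x₀ ∈ D) (h : SmU D Z (Metric.ball x₀ r₀)) {x : ℂ} (hxD : x ∈ D) :
    ∃ r > 0, SmU D Z (Metric.ball x r) ∧ SmW D Z (Metric.ball x r) := by
  have hroom : ∀ y ∈ D, ∃ R > 0, Metric.closedBall y (8 * R) ⊆ D := by
    intro y hy
    obtain ⟨s, hs, hsD⟩ := Metric.isOpen_iff.mp hO y hy
    refine ⟨s / 16, by positivity, ?_⟩
    refine (Metric.closedBall_subset_ball ?_).trans hsD
    linarith
  let A : Set ℂ := {y | y ∈ D ∧ ∃ r > 0, SmU D Z (Metric.ball y r)}
  have hAo : IsOpen A := by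
    rw [Metric.isOpen_iff]
    rintro y ⟨hy, r, hr, h1⟩
    obtain ⟨s, hs, hsD⟩ := Metric.isOpen_iff.mp hO y hy
    refine ⟨min s (r / 2), lt_min hs (by positivity), ?_⟩
    intro w hw
    have hw1 : w ∈ Metric.ball y s := Metric.ball_subset_ball (min_le_left _ _) hw
    have hw2 : dist w y < r / 2 := lt_of_lt_of_le (Metric.mem_ball.mp hw) (min_le_right _ _)
    refine ⟨hsD hw1, r / 2, by positivity, ?_⟩
    refine SmU.mono measurableSet_ball measurableSet_ball ?_ h1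
    apply Metric.ball_subset_ball'
    linarith
  have hsub : D ⊆ A := by
    apply hc.isPreconnected.subset_of_closure_inter_subset hAo
    · exact ⟨x₀, hx, hx, r₀, hr, h⟩
    · rintro y ⟨hyc, hyD⟩
      obtain ⟨R, hR, hRD⟩ := hroom y hyD
      obtain ⟨w, ⟨hwD, r, hr', hw⟩, hwy⟩ := Metric.mem_closure_iff.mp hyc (R / 2000) (by positivity)
      have hB : Metric.closedBall w (4 * R) ⊆ D := by
        refine (Metric.closedBall_subset_closedBall' ?_).trans hRD
        rw [dist_comm]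
        linarith
      have h2 := SmU.grow hb hO hr' hR hB hw
      refine ⟨hyD, R / 2000, by positivity, ?_⟩
      refine SmU.mono measurableSet_ball measurableSet_ball ?_ h2.1
      apply Metric.ball_subset_ball'
      linarith
  obtain ⟨hxD', r, hr', h1⟩ := hsub hxD
  obtain ⟨R, hR, hRD⟩ := hroom x hxD
  have hB : Metric.closedBall x (4 * R) ⊆ D :=
    (Metric.closedBall_subset_closedBall (by linarith)).trans hRD
  exact ⟨R / 1000, by positivity, SmU.grow hb hO hr' hR hB h1⟩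

/-- **Interior estimate (INT).** `IsCompact.elim_nhds_subcover` and `union` (induction on the finite cover). -/
theorem SmU.compact (hb : Bornology.IsBounded D) (hO : IsOpen D) (hc : IsConnected D) {x₀ : ℂ} {r₀ : ℝ} (hr : 0 < r₀)
    (hZ : Metric.ball x₀ r₀ ⊆ D) {K : Set ℂ} (hK : IsCompact K) (hKD : K ⊆ D) :
    SmU D (Metric.ball x₀ r₀) K ∧ SmW D (Metric.ball x₀ r₀) K := by
  have hx₀ : x₀ ∈ D := hZ (Metric.mem_ball_self hr)
  have hself : SmU D (Metric.ball x₀ r₀) (Metric.ball x₀ r₀) := SmU.self hb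
  have hall : ∀ x ∈ D, ∃ r > 0, SmU D (Metric.ball x₀ r₀) (Metric.ball x r) ∧
      SmW D (Metric.ball x₀ r₀) (Metric.ball x r) := fun x hxD =>
    SmU.all hb hO hc hr hx₀ hself hxD
  have key : ∃ S', K ⊆ S' ∧ MeasurableSet S' ∧ SmU D (Metric.ball x₀ r₀) S' ∧
      SmW D (Metric.ball x₀ r₀) S' := by
    refine hK.induction_on (p := fun S => ∃ S', S ⊆ S' ∧ MeasurableSet S' ∧
      SmU D (Metric.ball x₀ r₀) S' ∧ SmW D (Metric.ball x₀ r₀) S') ?_ ?_ ?_ ?_
    · obtain ⟨r, _, h1, h2⟩ := hall x₀ hx₀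
      exact ⟨Metric.ball x₀ r, empty_subset _, measurableSet_ball, h1, h2⟩
    · rintro S T hST ⟨S', h1, h2⟩
      exact ⟨S', hST.trans h1, h2⟩
    · rintro S T ⟨S', h1, h2, h3, h4⟩ ⟨T', k1, k2, k3, k4⟩
      exact ⟨S' ∪ T', union_subset_union h1 k1, h2.union k2, SmU.union hb h2 k2 h3 k3,
        SmW.union hb h2 k2 h4 k4⟩
    · intro y hy
      obtain ⟨r, hr', h1, h2⟩ := hall y (hKD hy)
      exact ⟨Metric.ball y r, mem_nhdsWithin_of_mem_nhds (Metric.ball_mem_nhds y hr'),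
        Metric.ball y r, le_rfl, measurableSet_ball, h1, h2⟩
  obtain ⟨S', h1, h2, h3, h4⟩ := key
  exact ⟨SmU.mono hK.measurableSet h2 h1 h3, SmW.mono hK.measurableSet h2 h1 h4⟩

/-- The same for the time derivative: `AS K t q = Sg K (t/2) (AS K (t/2) q)` (`Sg_AS`), `|AS K (t/2) q| ≤ (2/t)|q| ≤ e^{2/t}|q|`
(`AS_norm`). -/
theorem SmU.dt (hb : Bornology.IsBounded D) (h : SmU D Z S) : ∃ C θ : ℝ, 0 ≤ C ∧ 0 < θ ∧ θ < 1 ∧
    ∀ (q : XD D) (τ : ℝ), 0 < τ → τ ≤ 1 → ‖ctY S ((AS (KD D) τ q : XD D) : Y2)‖ ≤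
      Pw θ ‖ctY Z ((AS (KD D) τ q : XD D) : Y2)‖ (Real.exp (C / τ) * ‖q‖) := by
  obtain ⟨C, θ, hC, h0, h1, hq⟩ := h
  refine ⟨2 * C + 2, θ, by positivity, h0, h1, fun q τ hτ hτ1 => ?_⟩
  have hK : 0 ≤ KD D := KD_nonneg hb
  have hτ2 : 0 < τ / 2 := by positivity
  have e : AS (KD D) τ q = Sg (KD D) (τ / 2) (AS (KD D) (τ / 2) q) := by
    have h2 := Sg_AS (K := KD D) hτ2.le hτ2
    rw [add_halves] at h2
    rw [← h2]
    rfl
  rw [e]
  refine (hq (AS (KD D) (τ / 2) q) (τ / 2) hτ2 (by linarith)).trans ?_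
  refine Pw_mono (norm_nonneg _) le_rfl (by positivity) ?_ h0.le h1.le
  have h3 : ‖AS (KD D) (τ / 2) q‖ ≤ Real.exp (2 / τ) * ‖q‖ := by
    have h4 : ‖AS (KD D) (τ / 2)‖ ≤ (τ / 2)⁻¹ := AS_norm hK hτ2
    have h5 : (τ / 2)⁻¹ ≤ Real.exp (2 / τ) := by
      have h6 : (τ / 2)⁻¹ = 2 / τ := by rw [inv_div]
      rw [h6]
      linarith [Real.add_one_le_exp (2 / τ)]
    exact (AS (KD D) (τ / 2)).le_of_opNorm_le (h4.trans h5) q
  calc Real.exp (C / (τ / 2)) * ‖AS (KD D) (τ / 2) q‖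
      ≤ Real.exp (C / (τ / 2)) * (Real.exp (2 / τ) * ‖q‖) := by gcongr
    _ = Real.exp ((2 * C + 2) / τ) * ‖q‖ := by
        rw [← mul_assoc, ← Real.exp_add]
        congr 2
        field_simp

end Pool.Agent.Lib.MP_79abb3_an.PD
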