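import Pool.Agent.Lib.MP_79abb3_an.SC.NcL

/-!
Theorem D (MP_79abb3_an), block N: the time derivative of a small observation is small.
-/

set_option autoImplicit false
set_option linter.unusedSectionVars false

open MeasureTheory Set Filter Topology Function
open scoped ENNReal InnerProductSpace

namespace Pool.Agent.Lib.MP_79abb3_an.PD

open Pool.Agent.Lib.MP_79abb3_an.SC

section
variable {E : Type} [NormedAddCommGroup E] [InnerProductSpace ℂ E] [CompleteSpace E]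

/-- the weight `p(t) = (8/T²)(t - T/4)(T - t)` -/
noncomputable def pwt (T t : ℝ) : ℝ := 8 / T ^ 2 * ((t - T / 4) * (T - t))

theorem pwt_facts {T : ℝ} (hT : 0 < T) : (∀ t ∈ Icc (T / 2) (3 * T / 4), 1 ≤ pwt T t) ∧
    (∀ t ∈ Icc (T / 4) T, 0 ≤ pwt T t ∧ pwt T t ≤ 2 ∧ |8 / T ^ 2 * (5 * T / 4 - 2 * t)| ≤ 6 / T) ∧
    (∀ t, HasDerivAt (pwt T) (8 / T ^ 2 * (5 * T / 4 - 2 * t)) t) ∧ pwt T (T / 4) = 0 ∧ pwt T T = 0 := by
  refine ⟨?_, ?_, ?_, ?_, ?_⟩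
  · rintro t ⟨h1, h2⟩
    have h3 : T ^ 2 / 8 ≤ (t - T / 4) * (T - t) := by nlinarith
    have h4 : 0 < 8 / T ^ 2 := by positivity
    calc (1:ℝ) = 8 / T ^ 2 * (T ^ 2 / 8) := by field_simp
      _ ≤ _ := mul_le_mul_of_nonneg_left h3 h4.le
  · rintro t ⟨h1, h2⟩
    have h4 : 0 < 8 / T ^ 2 := by positivity
    refine ⟨mul_nonneg h4.le (mul_nonneg (by linarith) (by linarith)), ?_, ?_⟩
    · have h3 : (t - T / 4) * (T - t) ≤ T ^ 2 / 4 := by nlinarith [sq_nonneg (2 * t - 5 * T / 4)]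
      calc pwt T t ≤ 8 / T ^ 2 * (T ^ 2 / 4) := mul_le_mul_of_nonneg_left h3 h4.le
        _ = 2 := by field_simp; norm_num
    · have h3 : |5 * T / 4 - 2 * t| ≤ 3 * T / 4 := by
        rw [abs_le]; constructor <;> linarith
      rw [abs_mul, abs_of_pos h4]
      calc 8 / T ^ 2 * |5 * T / 4 - 2 * t| ≤ 8 / T ^ 2 * (3 * T / 4) :=
            mul_le_mul_of_nonneg_left h3 h4.le
        _ = 6 / T := by field_simp; norm_num
  · intro t
    have h1 : HasDerivAt (fun t : ℝ => (t - T / 4) * (T - t)) (1 * (T - t) + (t - T / 4) * (-1)) t :=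
      ((hasDerivAt_id t).sub_const (T / 4)).mul ((hasDerivAt_id t).const_sub T)
    have h2 := h1.const_mul (8 / T ^ 2)
    refine HasDerivAt.congr_deriv h2 ?_
    ring
  · simp [pwt]
  · simp [pwt]

/-- The identity `d/dt (p² Re⟪g, g'⟫) = 2 p p' Re⟪g, g'⟫ + p² |g'|² + p² Re⟪g, g''⟫`, integrated over `[T/4, T]`, with
`2 p |p'| |g| |g'| ≤ ½ p² |g'|² + 2 p'² |g|²`: `½ ∫ p² |g'|² ≤ ∫ p² |g| |g''| + 2 ∫ p'² |g|²`. -/
theorem int_deriv_sq_le {T : ℝ} (hT : 0 < T) {g g' g'' : ℝ → E}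
    (h1 : ∀ t ∈ Icc (T / 4) T, HasDerivAt g (g' t) t) (h2 : ∀ t ∈ Icc (T / 4) T, HasDerivAt g' (g'' t) t)
    (h3 : ContinuousOn g'' (Icc (T / 4) T)) :
    ∫ t in (T / 2)..(3 * T / 4), ‖g' t‖ ^ 2 ≤
      8 * (∫ t in (T / 4)..T, ‖g t‖ * ‖g'' t‖) + 144 / T ^ 2 * ∫ t in (T / 4)..T, ‖g t‖ ^ 2 := by
  obtain ⟨p1, p2, p3, p4, p5⟩ := pwt_facts hT
  have hab : T / 4 ≤ T := by linarith
  have cg : ContinuousOn g (Icc (T / 4) T) := fun t ht => (h1 t ht).continuousAt.continuousWithinAt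
  have cg' : ContinuousOn g' (Icc (T / 4) T) := fun t ht => (h2 t ht).continuousAt.continuousWithinAt
  have cp : Continuous (pwt T) := by unfold pwt; fun_prop
  set p' : ℝ → ℝ := fun t => 8 / T ^ 2 * (5 * T / 4 - 2 * t) with hp'
  have cp' : Continuous p' := by rw [hp']; fun_prop
  -- the derivative
  set G : ℝ → ℝ := fun t => pwt T t ^ 2 * (⟪g t, g' t⟫_ℂ).re with hG
  set G' : ℝ → ℝ := fun t => 2 * pwt T t * p' t * (⟪g t, g' t⟫_ℂ).re +
    pwt T t ^ 2 * ((⟪g t, g'' t⟫_ℂ).re + ‖g' t‖ ^ 2) with hG'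
  have hd : ∀ t ∈ Icc (T / 4) T, HasDerivAt G (G' t) t := by
    intro t ht
    have e1 : HasDerivAt (fun t => ⟪g t, g' t⟫_ℂ) (⟪g t, g'' t⟫_ℂ + ⟪g' t, g' t⟫_ℂ) t :=
      (h1 t ht).inner ℂ (h2 t ht)
    have e2 : HasDerivAt (fun t => (⟪g t, g' t⟫_ℂ).re) (⟪g t, g'' t⟫_ℂ + ⟪g' t, g' t⟫_ℂ).re t :=
      Complex.reCLM.hasFDerivAt.comp_hasDerivAt t e1
    have e3 : HasDerivAt (fun t => pwt T t ^ 2) (2 * pwt T t * p' t) t := by
      have := (p3 t).pow 2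
      refine HasDerivAt.congr_deriv this ?_
      simp [hp']
    have e4 := e3.mul e2
    refine HasDerivAt.congr_deriv e4 ?_
    have e5 : (⟪g' t, g' t⟫_ℂ).re = ‖g' t‖ ^ 2 := inner_self_eq_norm_sq (𝕜 := ℂ) (g' t)
    simp only [hG', Complex.add_re, e5]
  have ci : ContinuousOn (fun t => (⟪g t, g' t⟫_ℂ).re) (Icc (T / 4) T) :=
    Complex.continuous_re.comp_continuousOn (cg.inner cg')
  have ci' : ContinuousOn (fun t => (⟪g t, g'' t⟫_ℂ).re) (Icc (T / 4) T) :=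
    Complex.continuous_re.comp_continuousOn (cg.inner h3)
  have cG' : ContinuousOn G' (Icc (T / 4) T) := by
    rw [hG']
    refine ContinuousOn.add (ContinuousOn.mul ?_ ci) (ContinuousOn.mul ?_ (ci'.add (cg'.norm.pow 2)))
    · exact ((continuous_const.mul cp).mul cp').continuousOn
    · exact (cp.pow 2).continuousOn
  have hu : uIcc (T / 4) T = Icc (T / 4) T := uIcc_of_le hab
  have iG' : IntervalIntegrable G' volume (T / 4) T := (hu ▸ cG').intervalIntegrable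
  have hzero : ∫ t in (T / 4)..T, G' t = 0 := by
    rw [intervalIntegral.integral_eq_sub_of_hasDerivAt (fun t ht => hd t (hu ▸ ht)) iG']
    simp [hG, p4, p5]
  have c1 : ContinuousOn (fun t => pwt T t ^ 2 * ‖g' t‖ ^ 2) (Icc (T / 4) T) :=
    (cp.pow 2).continuousOn.mul (cg'.norm.pow 2)
  have c2 : ContinuousOn (fun t => ‖g t‖ * ‖g'' t‖) (Icc (T / 4) T) := cg.norm.mul h3.norm
  have c3 : ContinuousOn (fun t => ‖g t‖ ^ 2) (Icc (T / 4) T) := cg.norm.pow 2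
  have i1 : IntervalIntegrable (fun t => pwt T t ^ 2 * ‖g' t‖ ^ 2) volume (T / 4) T :=
    (hu ▸ c1).intervalIntegrable
  have i2 : IntervalIntegrable (fun t => ‖g t‖ * ‖g'' t‖) volume (T / 4) T :=
    (hu ▸ c2).intervalIntegrable
  have i3 : IntervalIntegrable (fun t => ‖g t‖ ^ 2) volume (T / 4) T :=
    (hu ▸ c3).intervalIntegrable
  -- the pointwise inequality
  have hpt : ∀ t ∈ Icc (T / 4) T, pwt T t ^ 2 * ‖g' t‖ ^ 2 ≤
      2 * G' t + (8 * (‖g t‖ * ‖g'' t‖) + 144 / T ^ 2 * ‖g t‖ ^ 2) := by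
    intro t ht
    obtain ⟨q1, q2, q3⟩ := p2 t ht
    have r1 : |(⟪g t, g' t⟫_ℂ).re| ≤ ‖g t‖ * ‖g' t‖ :=
      (Complex.abs_re_le_norm _).trans (norm_inner_le_norm _ _)
    have r2 : |(⟪g t, g'' t⟫_ℂ).re| ≤ ‖g t‖ * ‖g'' t‖ :=
      (Complex.abs_re_le_norm _).trans (norm_inner_le_norm _ _)
    have s1 : -(2 * pwt T t * p' t * (⟪g t, g' t⟫_ℂ).re) ≤
        pwt T t ^ 2 * ‖g' t‖ ^ 2 / 2 + 2 * (|p' t| * ‖g t‖) ^ 2 := by
      have : |2 * pwt T t * p' t * (⟪g t, g' t⟫_ℂ).re| ≤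
          2 * pwt T t * |p' t| * (‖g t‖ * ‖g' t‖) := by
        rw [abs_mul, abs_mul, abs_mul, abs_of_nonneg q1, abs_of_pos (show (0:ℝ) < 2 by norm_num)]
        exact mul_le_mul_of_nonneg_left r1 (by positivity)
      have h5 := (abs_le.1 this).1
      nlinarith [sq_nonneg (pwt T t * ‖g' t‖ - 2 * (|p' t| * ‖g t‖))]
    have s2 : -(pwt T t ^ 2 * (⟪g t, g'' t⟫_ℂ).re) ≤ 4 * (‖g t‖ * ‖g'' t‖) := by
      have h5 : pwt T t ^ 2 ≤ 4 := by nlinarith
      have h6 : -(⟪g t, g'' t⟫_ℂ).re ≤ ‖g t‖ * ‖g'' t‖ := by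
        have := (abs_le.1 r2).1
        linarith
      calc -(pwt T t ^ 2 * (⟪g t, g'' t⟫_ℂ).re) = pwt T t ^ 2 * -(⟪g t, g'' t⟫_ℂ).re := by ring
        _ ≤ pwt T t ^ 2 * (‖g t‖ * ‖g'' t‖) := mul_le_mul_of_nonneg_left h6 (sq_nonneg _)
        _ ≤ 4 * (‖g t‖ * ‖g'' t‖) := mul_le_mul_of_nonneg_right h5 (by positivity)
    have s3 : 2 * (|p' t| * ‖g t‖) ^ 2 ≤ 72 / T ^ 2 * ‖g t‖ ^ 2 := by
      have h7 : |p' t| ^ 2 ≤ (6 / T) ^ 2 := pow_le_pow_left₀ (abs_nonneg _) q3 2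
      calc 2 * (|p' t| * ‖g t‖) ^ 2 = 2 * (|p' t| ^ 2) * ‖g t‖ ^ 2 := by ring
        _ ≤ 2 * ((6 / T) ^ 2) * ‖g t‖ ^ 2 := by gcongr
        _ = 72 / T ^ 2 * ‖g t‖ ^ 2 := by rw [div_pow]; ring
    have s4 : G' t = 2 * pwt T t * p' t * (⟪g t, g' t⟫_ℂ).re +
        pwt T t ^ 2 * (⟪g t, g'' t⟫_ℂ).re + pwt T t ^ 2 * ‖g' t‖ ^ 2 := by
      rw [hG']; ring
    have s5 : 144 / T ^ 2 * ‖g t‖ ^ 2 = 2 * (72 / T ^ 2 * ‖g t‖ ^ 2) := by ring
    rw [s4, s5]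
    linarith
  have hI : ∫ t in (T / 4)..T, pwt T t ^ 2 * ‖g' t‖ ^ 2 ≤
      ∫ t in (T / 4)..T, (2 * G' t + (8 * (‖g t‖ * ‖g'' t‖) + 144 / T ^ 2 * ‖g t‖ ^ 2)) :=
    intervalIntegral.integral_mono_on hab i1
      ((iG'.const_mul 2).add ((i2.const_mul 8).add (i3.const_mul _))) hpt
  rw [intervalIntegral.integral_add (iG'.const_mul 2) ((i2.const_mul 8).add (i3.const_mul _)),
    intervalIntegral.integral_add (i2.const_mul 8) (i3.const_mul _),
    intervalIntegral.integral_const_mul, intervalIntegral.integral_const_mul,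
    intervalIntegral.integral_const_mul, hzero, mul_zero, zero_add] at hI
  refine le_trans ?_ hI
  -- the smaller interval
  have hsub : Icc (T / 2) (3 * T / 4) ⊆ Icc (T / 4) T :=
    Icc_subset_Icc (by linarith) (by linarith)
  have hu2 : uIcc (T / 2) (3 * T / 4) = Icc (T / 2) (3 * T / 4) := uIcc_of_le (by linarith)
  have j1 : IntervalIntegrable (fun t => ‖g' t‖ ^ 2) volume (T / 2) (3 * T / 4) := by
    have : ContinuousOn (fun t => ‖g' t‖ ^ 2) (uIcc (T / 2) (3 * T / 4)) := by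
      rw [hu2]; exact (cg'.mono hsub).norm.pow 2
    exact this.intervalIntegrable
  have j2 : IntervalIntegrable (fun t => pwt T t ^ 2 * ‖g' t‖ ^ 2) volume (T / 2) (3 * T / 4) := by
    have : ContinuousOn (fun t => pwt T t ^ 2 * ‖g' t‖ ^ 2) (uIcc (T / 2) (3 * T / 4)) := by
      rw [hu2]; exact c1.mono hsub
    exact this.intervalIntegrable
  calc ∫ t in (T / 2)..(3 * T / 4), ‖g' t‖ ^ 2
      ≤ ∫ t in (T / 2)..(3 * T / 4), pwt T t ^ 2 * ‖g' t‖ ^ 2 := by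
        refine intervalIntegral.integral_mono_on (by linarith) j1 j2 fun t ht => ?_
        have := p1 t ht
        have h5 : 1 ≤ pwt T t ^ 2 := one_le_pow₀ this
        nlinarith [sq_nonneg ‖g' t‖]
    _ ≤ ∫ t in (T / 4)..T, pwt T t ^ 2 * ‖g' t‖ ^ 2 := by
        refine intervalIntegral.integral_mono_interval (by linarith) (by linarith) (by linarith) ?_ i1
        exact Filter.Eventually.of_forall fun t => by positivity

theorem ne_cs {a b : ℝ} (hab : a ≤ b) (hb : b ≤ a + 1) {f : ℝ → ℝ} (hf : ContinuousOn f (Icc a b)) :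
    (∫ t in a..b, f t) ^ 2 ≤ ∫ t in a..b, f t ^ 2 := by
  have hu : uIcc a b = Icc a b := uIcc_of_le hab
  have i1 : IntervalIntegrable f volume a b := (hu ▸ hf).intervalIntegrable
  have c2 : ContinuousOn (fun t => f t ^ 2) (Icc a b) := hf.pow 2
  have i2 : IntervalIntegrable (fun t => f t ^ 2) volume a b := (hu ▸ c2).intervalIntegrable
  set m := ∫ t in a..b, f t with hm
  have h0 : 0 ≤ ∫ t in a..b, (f t - m) ^ 2 :=
    intervalIntegral.integral_nonneg hab fun t _ => sq_nonneg _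
  have h1 : ∫ t in a..b, (f t - m) ^ 2 =
      (∫ t in a..b, f t ^ 2) - 2 * m * m + (b - a) * m ^ 2 := by
    have h2 : ∀ t, (f t - m) ^ 2 = f t ^ 2 - 2 * m * f t + m ^ 2 := fun t => by ring
    simp only [h2]
    rw [intervalIntegral.integral_add (i2.sub (i1.const_mul _)) intervalIntegrable_const,
      intervalIntegral.integral_sub i2 (i1.const_mul _), intervalIntegral.integral_const_mul,
      intervalIntegral.integral_const, smul_eq_mul, ← hm]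
  rw [h1] at h0
  nlinarith [sq_nonneg m]

/-- With `|g| ≤ Q`, `|g''| ≤ (16/T²) C Q` on `[T/4, T]`, `T ≤ 1`: Cauchy and Schwarz, `∫ |g|² ≤ Q (∫ |g|²)^{1/2}`. -/
theorem int_deriv_sq_le' {T C Q : ℝ} (hT : 0 < T) (hT1 : T ≤ 1) (hC : 0 ≤ C) {g g' g'' : ℝ → E}
    (h1 : ∀ t ∈ Icc (T / 4) T, HasDerivAt g (g' t) t) (h2 : ∀ t ∈ Icc (T / 4) T, HasDerivAt g' (g'' t) t)
    (h3 : ContinuousOn g'' (Icc (T / 4) T)) (h4 : ∀ t ∈ Icc (T / 4) T, ‖g t‖ ≤ Q)
    (h5 : ∀ t ∈ Icc (T / 4) T, ‖g'' t‖ ≤ C / T ^ 2 * Q) :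
    ∫ t in (T / 2)..(3 * T / 4), ‖g' t‖ ^ 2 ≤ (8 * C + 144) / T ^ 2 * Q * √(∫ t in (T / 4)..T, ‖g t‖ ^ 2) := by
  have hab : T / 4 ≤ T := by linarith
  have hQ : 0 ≤ Q := (norm_nonneg _).trans (h4 T ⟨hab, le_refl _⟩)
  have cg : ContinuousOn g (Icc (T / 4) T) := fun t ht => (h1 t ht).continuousAt.continuousWithinAt
  have hu : uIcc (T / 4) T = Icc (T / 4) T := uIcc_of_le hab
  have c0 : ContinuousOn (fun t => ‖g t‖) (Icc (T / 4) T) := cg.norm
  have c2 : ContinuousOn (fun t => ‖g t‖ * ‖g'' t‖) (Icc (T / 4) T) := cg.norm.mul h3.norm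
  have c3 : ContinuousOn (fun t => ‖g t‖ ^ 2) (Icc (T / 4) T) := cg.norm.pow 2
  have i0 : IntervalIntegrable (fun t => ‖g t‖) volume (T / 4) T := (hu ▸ c0).intervalIntegrable
  have i2 : IntervalIntegrable (fun t => ‖g t‖ * ‖g'' t‖) volume (T / 4) T :=
    (hu ▸ c2).intervalIntegrable
  have i3 : IntervalIntegrable (fun t => ‖g t‖ ^ 2) volume (T / 4) T :=
    (hu ▸ c3).intervalIntegrable
  set I := ∫ t in (T / 4)..T, ‖g t‖ ^ 2 with hI
  have hI0 : 0 ≤ I := intervalIntegral.integral_nonneg hab fun t _ => by positivity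
  have m1 : ∫ t in (T / 4)..T, ‖g t‖ ≤ √I := by
    apply Real.le_sqrt_of_sq_le
    exact ne_cs hab (by linarith) c0
  have m2 : ∫ t in (T / 4)..T, ‖g t‖ * ‖g'' t‖ ≤ C / T ^ 2 * Q * √I := by
    have hc : 0 ≤ C / T ^ 2 * Q := by positivity
    calc ∫ t in (T / 4)..T, ‖g t‖ * ‖g'' t‖
        ≤ ∫ t in (T / 4)..T, C / T ^ 2 * Q * ‖g t‖ := by
          refine intervalIntegral.integral_mono_on hab i2 (i0.const_mul _) fun t ht => ?_
          rw [mul_comm]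
          exact mul_le_mul_of_nonneg_right (h5 t ht) (norm_nonneg _)
      _ = C / T ^ 2 * Q * ∫ t in (T / 4)..T, ‖g t‖ := intervalIntegral.integral_const_mul _ _
      _ ≤ _ := mul_le_mul_of_nonneg_left m1 hc
  have m3 : I ≤ Q * √I := by
    have h6 : I ≤ Q ^ 2 := by
      calc I ≤ ∫ t in (T / 4)..T, Q ^ 2 := by
            refine intervalIntegral.integral_mono_on hab i3 intervalIntegrable_const fun t ht => ?_
            exact pow_le_pow_left₀ (norm_nonneg _) (h4 t ht) 2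
        _ = (T - T / 4) * Q ^ 2 := by rw [intervalIntegral.integral_const, smul_eq_mul]
        _ ≤ 1 * Q ^ 2 := mul_le_mul_of_nonneg_right (by linarith) (sq_nonneg _)
        _ = Q ^ 2 := one_mul _
    have h7 : √I ≤ Q := by
      rw [← Real.sqrt_sq hQ]
      exact Real.sqrt_le_sqrt h6
    calc I = √I * √I := (Real.mul_self_sqrt hI0).symm
      _ ≤ Q * √I := mul_le_mul_of_nonneg_right h7 (Real.sqrt_nonneg _)
  have main := int_deriv_sq_le hT h1 h2 h3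
  rw [← hI] at main
  have n1 : 144 / T ^ 2 * I ≤ 144 / T ^ 2 * (Q * √I) :=
    mul_le_mul_of_nonneg_left m3 (by positivity)
  calc ∫ t in (T / 2)..(3 * T / 4), ‖g' t‖ ^ 2 ≤ _ := main
    _ ≤ 8 * (C / T ^ 2 * Q * √I) + 144 / T ^ 2 * (Q * √I) := by linarith
    _ = (8 * C + 144) / T ^ 2 * Q * √I := by ring

theorem ne_AS_hd {K : E →L[ℂ] E} (hK : 0 ≤ K) {t : ℝ} (ht : 0 < t) (x : E) :
    HasDerivAt (fun t => AS K t x) (-(AS K (t / 2) (AS K (t / 2) x))) t := by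
  have h1 : HasDerivAt (fun r => Sg K r (AS K (t / 2) x)) (-(AS K (t - t / 2) (AS K (t / 2) x)))
      (t - t / 2) := Sg_hasDerivAt_apply hK (by linarith) _
  have h2 : HasDerivAt (fun r => Sg K (r - t / 2) (AS K (t / 2) x))
      (-(AS K (t - t / 2) (AS K (t / 2) x))) t := h1.comp_sub_const t (t / 2)
  rw [show t - t / 2 = t / 2 by ring] at h2
  refine h2.congr_of_eventuallyEq ?_
  filter_upwards [Ioi_mem_nhds (half_lt_self ht)] with r hr
  have hr' : t / 2 < r := hr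
  have h3 := Sg_AS (K := K) (s := r - t / 2) (t := t / 2) (by linarith) (by linarith)
  rw [sub_add_cancel] at h3
  rw [← h3]
  rfl

/-- For a semigroup and a bounded operator `B` with `‖B x‖ ≤ ‖x‖`: `g = B (Sg K t q)`, `g' = -B (AS K t q)`,
`g'' = B (A² S(t) q)`, `A² S(t) q = AS K (t/2) (AS K (t/2) q)` of norm `≤ 4 t⁻² |q| ≤ 64 T⁻² |q|`. (`Sg_hasDerivAt_apply`, `AS_hd`.) -/
theorem int_AS_sq_le {K : E →L[ℂ] E} (hK : 0 ≤ K) {F : Type} [NormedAddCommGroup F] [InnerProductSpace ℂ F]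
    [CompleteSpace F] (B : E →L[ℂ] F) (hB : ∀ x, ‖B x‖ ≤ ‖x‖) : ∃ C, 0 ≤ C ∧ ∀ (T : ℝ) (q : E), 0 < T → T ≤ 1 →
    ∫ t in (T / 2)..(3 * T / 4), ‖B (AS K t q)‖ ^ 2 ≤
      C / T ^ 2 * ‖q‖ * √(∫ t in (T / 4)..T, ‖B (Sg K t q)‖ ^ 2) := by
  refine ⟨8 * 64 + 144, by norm_num, ?_⟩
  intro T q hT hT1
  have hpos : ∀ t ∈ Icc (T / 4) T, 0 < t := fun t ht => by linarith [ht.1]
  let B' : E →L[ℝ] F := B.restrictScalars ℝ
  have d1 : ∀ t ∈ Icc (T / 4) T, HasDerivAt (fun t => B (Sg K t q)) (-(B (AS K t q))) t := by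
    intro t ht
    have := B'.hasFDerivAt.comp_hasDerivAt t (Sg_hasDerivAt_apply hK (hpos t ht) q)
    refine HasDerivAt.congr_deriv this ?_
    exact map_neg B _
  have d2 : ∀ t ∈ Icc (T / 4) T, HasDerivAt (fun t => -(B (AS K t q)))
      (B (AS K (t / 2) (AS K (t / 2) q))) t := by
    intro t ht
    have := (B'.hasFDerivAt.comp_hasDerivAt t (ne_AS_hd hK (hpos t ht) q)).fun_neg
    refine HasDerivAt.congr_deriv this ?_
    show -(B (-(AS K (t / 2) (AS K (t / 2) q)))) = _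
    rw [map_neg, neg_neg]
  have c1 : ContinuousOn (fun t => AS K (t / 2)) (Icc (T / 4) T) :=
    (AS_continuousOn hK).comp (by fun_prop) fun t ht => by
      have := hpos t ht
      show 0 < t / 2
      linarith
  have d3 : ContinuousOn (fun t => B (AS K (t / 2) (AS K (t / 2) q))) (Icc (T / 4) T) :=
    B.continuous.comp_continuousOn (c1.clm_apply (c1.clm_apply continuousOn_const))
  have d4 : ∀ t ∈ Icc (T / 4) T, ‖B (Sg K t q)‖ ≤ ‖q‖ := fun t _ =>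
    (hB _).trans (Sg_norm_apply hK t q)
  have d5 : ∀ t ∈ Icc (T / 4) T, ‖B (AS K (t / 2) (AS K (t / 2) q))‖ ≤ 64 / T ^ 2 * ‖q‖ := by
    intro t ht
    have h0 := hpos t ht
    have h1 : 0 < t / 2 := by linarith
    have h2 := AS_norm hK h1
    have h3 : (t / 2)⁻¹ ≤ 8 / T := by
      rw [inv_le_comm₀ h1 (by positivity), inv_div]
      linarith [ht.1]
    calc ‖B (AS K (t / 2) (AS K (t / 2) q))‖ ≤ ‖AS K (t / 2) (AS K (t / 2) q)‖ := hB _
      _ ≤ ‖AS K (t / 2)‖ * ‖AS K (t / 2) q‖ := ContinuousLinearMap.le_opNorm _ _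
      _ ≤ ‖AS K (t / 2)‖ * (‖AS K (t / 2)‖ * ‖q‖) := by
          gcongr
          exact ContinuousLinearMap.le_opNorm _ _
      _ ≤ (8 / T) * ((8 / T) * ‖q‖) := by
          have h4 : ‖AS K (t / 2)‖ ≤ 8 / T := h2.trans h3
          gcongr
      _ = 64 / T ^ 2 * ‖q‖ := by ring
  have main := int_deriv_sq_le' hT hT1 (by norm_num : (0:ℝ) ≤ 64) d1 d2 d3 d4 d5
  simpa only [norm_neg] using main

end

end Pool.Agent.Lib.MP_79abb3_an.PD
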