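import Pool.Agent.Lib.MP_79abb3_an.SC.PzA
import Pool.Agent.Lib.MP_79abb3_an.SC.RcA
import Pool.Agent.Lib.MP_79abb3_an.SC.L2P

/-!
Theorem D (MP_79abb3_an), block N: collars: complex valued periodic functions on the strip.
-/

set_option autoImplicit false
set_option linter.unusedSectionVars false

open MeasureTheory Set Filter Topology Function
open scoped ENNReal InnerProductSpace

namespace Pool.Agent.Lib.MP_79abb3_an.PD

open Pool.Agent.Lib.MP_79abb3_an.P25 Pool.Agent.Lib.MP_79abb3_an.SC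

instance factPiN : Fact (0 < Real.pi) := ⟨Real.pi_pos⟩

/-- Smooth functions of `(y, z)`, `2π`-periodic in `y`. -/
structure PCn (f : ℝ × ℝ → ℂ) : Prop where
  smooth : ContDiff ℝ ((⊤ : ℕ∞) : WithTop ℕ∞) f
  per : ∀ y z, f (y + 2 * Real.pi, z) = f (y, z)

/-- `∂_y f` -/
noncomputable def dyc (f : ℝ × ℝ → ℂ) (p : ℝ × ℝ) : ℂ := fderiv ℝ f p (1, 0)

/-- `∂_z f` -/
noncomputable def dzc (f : ℝ × ℝ → ℂ) (p : ℝ × ℝ) : ℂ := fderiv ℝ f p (0, 1)

/-- `-Δ f` -/
noncomputable def lpc (f : ℝ × ℝ → ℂ) (p : ℝ × ℝ) : ℂ := -(dyc (dyc f) p + dzc (dzc f) p)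

variable {f g : ℝ × ℝ → ℂ}

theorem PCn.add (hf : PCn f) (hg : PCn g) : PCn (fun p => f p + g p) :=
  ⟨hf.smooth.add hg.smooth, fun y z => by rw [hf.per, hg.per]⟩

theorem PCn.mul (hf : PCn f) (hg : PCn g) : PCn (fun p => f p * g p) :=
  ⟨hf.smooth.mul hg.smooth, fun y z => by rw [hf.per, hg.per]⟩

theorem PCn.const (c : ℂ) : PCn (fun _ => c) := ⟨contDiff_const, fun _ _ => rfl⟩

theorem PCn.neg (hf : PCn f) : PCn (fun p => -f p) := ⟨hf.smooth.neg, fun y z => by rw [hf.per]⟩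

theorem PCn.conj (hf : PCn f) : PCn (fun p => (starRingEnd ℂ) (f p)) :=
  ⟨Complex.conjCLE.contDiff.comp hf.smooth, fun y z => by rw [hf.per]⟩

/-- functions of `z` -/
theorem PCn.ofz {k : ℝ → ℂ} (hk : ContDiff ℝ ((⊤ : ℕ∞) : WithTop ℕ∞) k) : PCn (fun p => k p.2) :=
  ⟨hk.comp contDiff_snd, fun _ _ => rfl⟩

private theorem pc_fderiv_smooth (hf : PCn f) (v : ℝ × ℝ) :
    ContDiff ℝ ((⊤ : ℕ∞) : WithTop ℕ∞) (fun p => fderiv ℝ f p v) :=
  (hf.smooth.fderiv_right (m := ((⊤ : ℕ∞) : WithTop ℕ∞)) (by simp)).clm_apply contDiff_const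

private theorem pc_fderiv_per (hf : PCn f) (y z : ℝ) :
    fderiv ℝ f (y + 2 * Real.pi, z) = fderiv ℝ f (y, z) := by
  have h : (fun p : ℝ × ℝ => f (p + (2 * Real.pi, 0))) = f := by
    funext p
    obtain ⟨a, b⟩ := p
    rw [Prod.mk_add_mk, add_zero]
    exact hf.per a b
  have h2 := fderiv_comp_add_right (𝕜 := ℝ) (f := f) (x := ((y, z) : ℝ × ℝ)) (2 * Real.pi, 0)
  rw [h, Prod.mk_add_mk, add_zero] at h2
  exact h2.symm

theorem PCn.dy (hf : PCn f) : PCn (dyc f) :=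
  ⟨pc_fderiv_smooth hf _, fun y z => by
    show fderiv ℝ f (y + 2 * Real.pi, z) (1, 0) = fderiv ℝ f (y, z) (1, 0)
    rw [pc_fderiv_per hf]⟩

theorem PCn.dz (hf : PCn f) : PCn (dzc f) :=
  ⟨pc_fderiv_smooth hf _, fun y z => by
    show fderiv ℝ f (y + 2 * Real.pi, z) (0, 1) = fderiv ℝ f (y, z) (0, 1)
    rw [pc_fderiv_per hf]⟩

theorem PCn.lp (hf : PCn f) : PCn (lpc f) := (hf.dy.dy.add hf.dz.dz).neg

/-- real and imaginary parts are periodic functions in the sense of `PY` -/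
theorem PCn.re (hf : PCn f) : PY Real.pi (fun p => (f p).re) :=
  ⟨Complex.reCLM.contDiff.comp hf.smooth, 1, one_pos, fun y z _ => by rw [hf.per]⟩

theorem PCn.im (hf : PCn f) : PY Real.pi (fun p => (f p).im) :=
  ⟨Complex.imCLM.contDiff.comp hf.smooth, 1, one_pos, fun y z _ => by rw [hf.per]⟩

private theorem pc_clm (hf : PCn f) (L : ℂ →L[ℝ] ℝ) (p v : ℝ × ℝ) :
    fderiv ℝ (fun p => L (f p)) p v = L (fderiv ℝ f p v) := by
  have h1 : HasFDerivAt f (fderiv ℝ f p) p := (hf.smooth.differentiable (by simp) p).hasFDerivAt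
  have h2 : HasFDerivAt (fun p => L (f p)) (L.comp (fderiv ℝ f p)) p := L.hasFDerivAt.comp p h1
  rw [h2.fderiv]
  rfl

theorem PCn.re_dy (hf : PCn f) : (fun p => (dyc f p).re) = SC.pY (fun p => (f p).re) :=
  funext fun p => (pc_clm hf Complex.reCLM p (1, 0)).symm

theorem PCn.im_dy (hf : PCn f) : (fun p => (dyc f p).im) = SC.pY (fun p => (f p).im) :=
  funext fun p => (pc_clm hf Complex.imCLM p (1, 0)).symm

theorem PCn.re_dz (hf : PCn f) : (fun p => (dzc f p).re) = SC.pZ (fun p => (f p).re) :=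
  funext fun p => (pc_clm hf Complex.reCLM p (0, 1)).symm

theorem PCn.im_dz (hf : PCn f) : (fun p => (dzc f p).im) = SC.pZ (fun p => (f p).im) :=
  funext fun p => (pc_clm hf Complex.imCLM p (0, 1)).symm

theorem PCn.re_lp (hf : PCn f) : (fun p => (lpc f p).re) = lapN (fun p => (f p).re) := by
  funext p
  have h1 := congrFun hf.dy.re_dy p
  have h2 := congrFun hf.dz.re_dz p
  rw [hf.re_dy] at h1
  rw [hf.re_dz] at h2
  show (-(dyc (dyc f) p + dzc (dzc f) p)).re = -(pY (pY fun p => (f p).re) p + pZ (pZ fun p => (f p).re) p)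
  rw [Complex.neg_re, Complex.add_re, ← h1, ← h2]

theorem PCn.im_lp (hf : PCn f) : (fun p => (lpc f p).im) = lapN (fun p => (f p).im) := by
  funext p
  have h1 := congrFun hf.dy.im_dy p
  have h2 := congrFun hf.dz.im_dz p
  rw [hf.im_dy] at h1
  rw [hf.im_dz] at h2
  show (-(dyc (dyc f) p + dzc (dzc f) p)).im = -(pY (pY fun p => (f p).im) p + pZ (pZ fun p => (f p).im) p)
  rw [Complex.neg_im, Complex.add_im, ← h1, ← h2]

end Pool.Agent.Lib.MP_79abb3_an.PD
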