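import Pool.Agent.Lib.MP_79abb3_an.PD.NF1a

/-!
Theorem D (MP_79abb3_an), block N: collars: classes of periodic functions in `HH π`.
-/

set_option autoImplicit false
set_option linter.unusedSectionVars false

open MeasureTheory Set Filter Topology Function
open scoped ENNReal InnerProductSpace

namespace Pool.Agent.Lib.MP_79abb3_an.PD

open Pool.Agent.Lib.MP_79abb3_an.P25 Pool.Agent.Lib.MP_79abb3_an.SC

variable {f g : ℝ × ℝ → ℂ}

/-! ### The classes in `HH π` -/

/-- A periodic function as an element of `HH π` (`0` if not smooth periodic). -/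
noncomputable def fHn (f : ℝ × ℝ → ℂ) : HH Real.pi :=
  open scoped Classical in if h : PCn f then fH h.re + Complex.I • fH h.im else 0

/-- `∂_z f + |D| f` as an element of `HH π`. -/
noncomputable def bHn (f : ℝ × ℝ → ℂ) : HH Real.pi :=
  open scoped Classical in if h : PCn f then bsH h.re + Complex.I • bsH h.im else 0

theorem fHn_eq (h : PCn f) : fHn f = fH h.re + Complex.I • fH h.im := dif_pos h

theorem bHn_eq (h : PCn f) : bHn f = bsH h.re + Complex.I • bsH h.im := dif_pos h

/-- the Fourier coefficient as an element of `CI π` -/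
noncomputable def cfc (f : ℝ × ℝ → ℂ) (n : ℤ) : CI Real.pi :=
  fam (fun p => (f p).re) n + Complex.I • fam (fun p => (f p).im) n

private theorem nf1e_cfc_add (hf : PCn f) (hg : PCn g) (n : ℤ) :
    cfc (fun p => f p + g p) n = cfc f n + cfc g n := by
  have h1 : (fam (fun p => (f p + g p).re) n : CI Real.pi) =
      fam (fun p => (f p).re) n + fam (fun p => (g p).re) n :=
    fam_add hf.re.smooth.continuous hg.re.smooth.continuous n
  have h2 : (fam (fun p => (f p + g p).im) n : CI Real.pi) =
      fam (fun p => (f p).im) n + fam (fun p => (g p).im) n :=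
    fam_add hf.im.smooth.continuous hg.im.smooth.continuous n
  unfold cfc
  rw [h1, h2]
  refine ci_ext fun z _ => ?_
  simp only [ex_add, ex_smul]
  ring

private theorem nf1e_cfc_cmul (c : ℂ) (hf : PCn f) (n : ℤ) :
    cfc (fun p => c * f p) n = c • cfc f n := by
  have hr := hf.re.smooth.continuous
  have hi := hf.im.smooth.continuous
  have h1 : (fam (fun p => (c * f p).re) n : CI Real.pi) =
      (c.re : ℂ) • fam (fun p => (f p).re) n - (c.im : ℂ) • fam (fun p => (f p).im) n := by
    rw [← fam_smul c.re hr, ← fam_smul c.im hi, ← fam_sub (by fun_prop) (by fun_prop)]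
    rfl
  have h2 : (fam (fun p => (c * f p).im) n : CI Real.pi) =
      (c.re : ℂ) • fam (fun p => (f p).im) n + (c.im : ℂ) • fam (fun p => (f p).re) n := by
    rw [← fam_smul c.re hi, ← fam_smul c.im hr, ← fam_add (by fun_prop) (by fun_prop)]
    rfl
  unfold cfc
  rw [h1, h2]
  refine ci_ext fun z _ => ?_
  simp only [ex_add, ex_sub, ex_smul]
  have hI : Complex.I * Complex.I = -1 := Complex.I_mul_I
  have hc : c = (c.re : ℂ) + (c.im : ℂ) * Complex.I := (Complex.re_add_im c).symm
  conv_rhs => rw [hc]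
  linear_combination (-(c.im : ℂ) * ex (fam (fun p => (f p).im) n : CI Real.pi) z) * hI

theorem fHn_coef (hf : PCn f) (n : ℤ) : fHn f n = (iota (cfc f n) : Z2 Real.pi) := by
  rw [fHn_eq hf, lp.coeFn_add, Pi.add_apply, lp.coeFn_smul, Pi.smul_apply, fH_apply, fH_apply]
  unfold cfc
  rw [map_add, map_smul]

theorem bHn_coef (hf : PCn f) (n : ℤ) :
    bHn f n = (iota (ka (Real.pi / Real.pi) n • cfc f n + cfc (dzc f) n) : Z2 Real.pi) := by
  rw [bHn_eq hf, lp.coeFn_add, Pi.add_apply, lp.coeFn_smul, Pi.smul_apply, bsH_apply, bsH_apply]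
  unfold cfc
  rw [hf.re_dz, hf.im_dz, ← map_smul, ← map_add]
  congr 1
  unfold bsF
  module

private theorem nf1e_dzc_add (hf : PCn f) (hg : PCn g) :
    dzc (fun p => f p + g p) = fun p => dzc f p + dzc g p := by
  funext p
  unfold dzc
  rw [fderiv_fun_add ((hf.smooth.differentiable (by simp)) p) ((hg.smooth.differentiable (by simp)) p)]
  rfl

private theorem nf1e_dzc_cmul (c : ℂ) (hf : PCn f) :
    dzc (fun p => c * f p) = fun p => c * dzc f p := by
  funext p
  unfold dzc
  rw [fderiv_const_mul ((hf.smooth.differentiable (by simp)) p)]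
  rfl

theorem fHn_add (hf : PCn f) (hg : PCn g) : fHn (fun p => f p + g p) = fHn f + fHn g := by
  ext1
  funext n
  rw [lp.coeFn_add, Pi.add_apply, fHn_coef (hf.add hg), fHn_coef hf, fHn_coef hg,
    nf1e_cfc_add hf hg, map_add]

theorem bHn_add (hf : PCn f) (hg : PCn g) : bHn (fun p => f p + g p) = bHn f + bHn g := by
  ext1
  funext n
  rw [lp.coeFn_add, Pi.add_apply, bHn_coef (hf.add hg), bHn_coef hf, bHn_coef hg,
    nf1e_cfc_add hf hg, nf1e_dzc_add hf hg, nf1e_cfc_add hf.dz hg.dz, ← map_add]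
  congr 1
  module

/-- `re (c f) = re c re f - im c im f` etc., `fam_smul`, `fam_add`. -/
theorem fHn_cmul (c : ℂ) (hf : PCn f) : fHn (fun p => c * f p) = c • fHn f := by
  ext1
  funext n
  rw [lp.coeFn_smul, Pi.smul_apply, fHn_coef ((PCn.const c).mul hf), fHn_coef hf,
    nf1e_cfc_cmul c hf, map_smul]

theorem bHn_cmul (c : ℂ) (hf : PCn f) : bHn (fun p => c * f p) = c • bHn f := by
  ext1
  funext n
  rw [lp.coeFn_smul, Pi.smul_apply, bHn_coef ((PCn.const c).mul hf), bHn_coef hf,
    nf1e_cfc_cmul c hf, nf1e_dzc_cmul c hf, nf1e_cfc_cmul c hf.dz, ← map_smul]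
  congr 1
  module

/-- `(2π)⁻¹ ∫_{-π}^π f(y,z) e^{-iny} dy` (`ex_fam`, `fco`) -/
theorem ex_cfc (hf : PCn f) (n : ℤ) {z : ℝ} (hz : z ∈ Icc (0:ℝ) Real.pi) : ex (cfc f n) z =
    ((2 * Real.pi : ℝ) : ℂ)⁻¹ * ∫ y in (-Real.pi)..Real.pi, f (y, z) * star (ee (Real.pi / Real.pi) n y) := by
  have hr := hf.re.smooth.continuous
  have hi := hf.im.smooth.continuous
  have hee : Continuous fun y => star (ee (Real.pi / Real.pi) n y) :=
    (fo_ee_continuous _ n).star
  have c1 : Continuous fun y => (((f (y, z)).re : ℝ) : ℂ) * star (ee (Real.pi / Real.pi) n y) :=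
    (Complex.continuous_ofReal.comp (hr.comp (by fun_prop : Continuous fun y : ℝ => (y, z)))).mul hee
  have c2 : Continuous fun y => (((f (y, z)).im : ℝ) : ℂ) * star (ee (Real.pi / Real.pi) n y) :=
    (Complex.continuous_ofReal.comp (hi.comp (by fun_prop : Continuous fun y : ℝ => (y, z)))).mul hee
  unfold cfc
  rw [ex_add, ex_smul, ex_fam hr n hz, ex_fam hi n hz]
  unfold fco
  rw [mul_left_comm, ← mul_add, ← intervalIntegral.integral_const_mul]
  congr 1
  refine (intervalIntegral.integral_add (c1.intervalIntegrable _ _)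
      ((continuous_const.mul c2).intervalIntegrable _ _)).symm.trans ?_
  refine intervalIntegral.integral_congr fun y _ => ?_
  show (((f (y, z)).re : ℝ) : ℂ) * star (ee (Real.pi / Real.pi) n y) +
    Complex.I * ((((f (y, z)).im : ℝ) : ℂ) * star (ee (Real.pi / Real.pi) n y)) = _
  have hc : f (y, z) = ((f (y, z)).re : ℂ) + ((f (y, z)).im : ℂ) * Complex.I :=
    (Complex.re_add_im _).symm
  show _ = f (y, z) * star (ee (Real.pi / Real.pi) n y)
  conv_rhs => rw [hc]
  ring

end Pool.Agent.Lib.MP_79abb3_an.PD
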