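import Pool.Agent.Lib.MP_79abb3_an.SC.WkMb
import Pool.Agent.Lib.MP_79abb3_an.PD.NF1e

/-!
Theorem D (MP_79abb3_an), block N: collars: inner products and norms of periodic functions in `HH π`.
-/

set_option autoImplicit false
set_option linter.unusedSectionVars false

open MeasureTheory Set Filter Topology Function
open scoped ENNReal InnerProductSpace

namespace Pool.Agent.Lib.MP_79abb3_an.PD

open Pool.Agent.Lib.MP_79abb3_an.P25 Pool.Agent.Lib.MP_79abb3_an.SC

/-- the cell -/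
def cell : Set (ℝ × ℝ) := Icc (-Real.pi) Real.pi ×ˢ Icc 0 Real.pi

/-- a continuous function of `z` as an element of `CI π` -/
noncomputable def cI (k : ℝ → ℂ) : CI Real.pi :=
  open scoped Classical in if h : Continuous k then mkCI k h.continuousOn else 0

theorem ex_cI {k : ℝ → ℂ} (hk : Continuous k) {z : ℝ} (hz : z ∈ Icc (0:ℝ) Real.pi) : ex (cI k) z = k z := by
  unfold cI
  rw [dif_pos hk]
  exact ex_mkCI _ hz

private theorem nf1b_cell {Φ : ℝ × ℝ → ℂ} (hΦ : Continuous Φ) :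
    ∫ p in cell, Φ p = ∫ z in (0:ℝ)..Real.pi, ∫ y in (-Real.pi)..Real.pi, Φ (y, z) := by
  have hpi := Real.pi_pos
  set μ : Measure (ℝ × ℝ) := (volume.restrict (Ioc (-Real.pi) Real.pi)).prod
    (volume.restrict (Ioc (0:ℝ) Real.pi)) with hμ
  have hμ' : (volume : Measure (ℝ × ℝ)).restrict cell = μ := by
    rw [hμ, Measure.prod_restrict]
    refine Measure.restrict_congr_set ?_
    exact (Measure.set_prod_ae_eq Ioc_ae_eq_Icc Ioc_ae_eq_Icc).symm
  rw [hμ']
  have hi : Integrable Φ μ := by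
    rw [hμ, Measure.prod_restrict]
    have h1 : IntegrableOn Φ (Icc (-Real.pi) Real.pi ×ˢ Icc (0:ℝ) Real.pi)
        ((volume : Measure ℝ).prod volume) :=
      hΦ.continuousOn.integrableOn_compact (isCompact_Icc.prod isCompact_Icc)
    exact h1.mono_set (prod_mono Ioc_subset_Icc_self Ioc_subset_Icc_self)
  rw [hμ, integral_prod_symm _ hi, intervalIntegral.integral_of_le hpi.le]
  refine integral_congr_ae (Eventually.of_forall fun z => ?_)
  show ∫ y in Ioc (-Real.pi) Real.pi, Φ (y, z) = _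
  rw [← intervalIntegral.integral_of_le (by linarith)]

private theorem nf1b_int {Φ : ℝ × ℝ → ℂ} (hΦ : Continuous Φ) : IntegrableOn Φ cell :=
  hΦ.continuousOn.integrableOn_compact (isCompact_Icc.prod isCompact_Icc)

private theorem nf1b_ee (n : ℤ) : Continuous (ee (Real.pi / Real.pi) n) := fld_ee_continuous _ n

/-- the element `k(z) e^{iny}` -/
noncomputable def sgl (n : ℤ) (k : ℝ → ℂ) : HH Real.pi := lp.single 2 n (iota (cI k) : Z2 Real.pi)

theorem sgl_add (n : ℤ) {k l : ℝ → ℂ} (hk : Continuous k) (hl : Continuous l) :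
    sgl n (fun z => k z + l z) = sgl n k + sgl n l := by
  have h1 : cI (fun z => k z + l z) = cI k + cI l := by
    have hkl : Continuous fun z => k z + l z := hk.add hl
    refine ci_ext fun z hz => ?_
    rw [ex_add, ex_cI hk hz, ex_cI hl hz, ex_cI hkl hz]
  unfold sgl
  rw [h1, map_add, lp.single_add]

theorem sgl_cmul (n : ℤ) (c : ℂ) {k : ℝ → ℂ} (hk : Continuous k) : sgl n (fun z => c * k z) = c • sgl n k := by
  have h1 : cI (fun z => c * k z) = c • cI k := by
    have hck : Continuous fun z => c * k z := continuous_const.mul hk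
    refine ci_ext fun z hz => ?_
    rw [ex_smul, ex_cI hk hz, ex_cI hck hz]
  unfold sgl
  rw [h1, map_smul, lp.single_smul]

variable {f g : ℝ × ℝ → ℂ}

/-- Inner product with a single mode: `lp.inner_single_right`, `fHn_coef`, the inner product of `Z2` as an integral,
`ex_cfc`, Fubini. -/
theorem inner_sgl (hf : PCn f) (n : ℤ) {k : ℝ → ℂ} (hk : Continuous k) : ⟪fHn f, sgl n k⟫_ℂ =
    ((2 * Real.pi : ℝ) : ℂ)⁻¹ * ∫ p in cell, (starRingEnd ℂ) (f p) * (k p.2 * ee (Real.pi / Real.pi) n p.1) := by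
  have hpi := Real.pi_pos
  have hfc : Continuous f := hf.smooth.continuous
  have hc : Continuous fun p : ℝ × ℝ => (starRingEnd ℂ) (f p) *
      (k p.2 * ee (Real.pi / Real.pi) n p.1) :=
    (Complex.continuous_conj.comp hfc).mul ((hk.comp continuous_snd).mul
      ((nf1b_ee n).comp continuous_fst))
  have h0 : ⟪fHn f, sgl n k⟫_ℂ = ⟪fHn f n, (iota (cI k) : Z2 Real.pi)⟫_ℂ := by
    unfold sgl
    exact lp.inner_single_right n _ _
  rw [h0, nf1b_cell hc, fHn_coef hf, wk_inner_iota, ← intervalIntegral.integral_const_mul]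
  refine intervalIntegral.integral_congr fun z hz => ?_
  rw [uIcc_of_le hpi.le] at hz
  show star (ex (cfc f n) z) * ex (cI k) z = _
  rw [ex_cI hk hz, ex_cfc hf n hz, star_mul']
  simp only [Complex.star_def]
  rw [map_inv₀, Complex.conj_ofReal, ← intervalIntegral.intervalIntegral_conj, mul_assoc,
    ← intervalIntegral.integral_mul_const]
  congr 1
  refine intervalIntegral.integral_congr fun y _ => ?_
  show (starRingEnd ℂ) (f (y, z) * star (ee (Real.pi / Real.pi) n y)) * k z =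
    (starRingEnd ℂ) (f (y, z)) * (k z * ee (Real.pi / Real.pi) n y)
  rw [map_mul, Complex.star_def, Complex.conj_conj]
  ring

private theorem nf1b_sy {F : ℝ × ℝ → ℝ} (hF : PY Real.pi F) : Sy (fam F : ℤ → CI Real.pi) := by
  intro n
  rw [fam_neg_n hF.smooth.continuous n]

/-- Parseval for two fields. -/
private theorem nf1b_par {u v : ℤ → CI Real.pi} (hu : Summable fun n => ‖u n‖) (hs : Sy u)
    (hv : Summable fun n => ‖v n‖) (hs' : Sy v) :
    ((∫ q in cell, fld (Real.pi / Real.pi) u q.1 q.2 * fld (Real.pi / Real.pi) v q.1 q.2 : ℝ) : ℂ) =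
      ((2 * Real.pi : ℝ) : ℂ) * ∑' n, ⟪(iota (u n) : Z2 Real.pi), iota (v n)⟫_ℂ := by
  have hpi := Real.pi_pos
  set M : ℝ := ∑' n, ‖u n‖ with hM
  have hM0 : 0 ≤ M := tsum_nonneg fun n => norm_nonneg _
  have hfin : IsFiniteMeasure ((volume : Measure (ℝ × ℝ)).restrict cell) :=
    ⟨by
      rw [Measure.restrict_apply_univ]
      exact (isCompact_Icc.prod isCompact_Icc).measure_lt_top⟩
  rw [← integral_complex_ofReal]
  have e1 : ∀ q : ℝ × ℝ, ((fld (Real.pi / Real.pi) u q.1 q.2 * fld (Real.pi / Real.pi) v q.1 q.2 : ℝ) : ℂ) =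
      ∑' n : ℤ, ((fld (Real.pi / Real.pi) u q.1 q.2 : ℝ) : ℂ) *
        (ex (v n) q.2 * ee (Real.pi / Real.pi) n q.1) := fun q => by
    rw [tsum_mul_left, fld_real hv hs', Complex.ofReal_mul]
  simp only [e1]
  have hc : ∀ n : ℤ, Continuous fun q : ℝ × ℝ => ((fld (Real.pi / Real.pi) u q.1 q.2 : ℝ) : ℂ) *
      (ex (v n) q.2 * ee (Real.pi / Real.pi) n q.1) := fun n =>
    (Complex.continuous_ofReal.comp (fld_cont hu)).mul
      (((continuous_ex (v n)).comp continuous_snd).mul ((fld_ee_continuous _ n).comp continuous_fst))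
  have hb : ∀ (n : ℤ) (q : ℝ × ℝ), ‖((fld (Real.pi / Real.pi) u q.1 q.2 : ℝ) : ℂ) *
      (ex (v n) q.2 * ee (Real.pi / Real.pi) n q.1)‖ ≤ M * ‖v n‖ := fun n q => by
    rw [norm_mul, Complex.norm_real]
    exact mul_le_mul (fld_abs_le hu _ _) (fld_term_le v n q.1 q.2) (norm_nonneg _) hM0
  rw [tsum_int (C := fun n => M * ‖v n‖) (fun n => (hc n).aestronglyMeasurable) (hv.mul_left M) hb,
    ← tsum_mul_left]
  refine tsum_congr fun n => ?_
  rw [nf1b_cell (hc n), wk_inner_iota, ← intervalIntegral.integral_const_mul]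
  refine intervalIntegral.integral_congr fun z _ => ?_
  show ∫ y in (-Real.pi)..Real.pi, ((fld (Real.pi / Real.pi) u y z : ℝ) : ℂ) *
    (ex (v n) z * ee (Real.pi / Real.pi) n y) = ((2 * Real.pi : ℝ) : ℂ) * (star (ex (u n) z) * ex (v n) z)
  have h2 : ∀ y, ((fld (Real.pi / Real.pi) u y z : ℝ) : ℂ) * (ex (v n) z * ee (Real.pi / Real.pi) n y) =
      ex (v n) z * (((fld (Real.pi / Real.pi) u y z : ℝ) : ℂ) * ee (Real.pi / Real.pi) n y) := fun y => by ring
  simp only [h2]
  rw [intervalIntegral.integral_const_mul, int_fld_ee hu hs]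
  ring

/-- **Parseval**, for real functions: `⟪fH F, fH G⟫ = (2π)⁻¹ ∫ F G` (the proof of `parseval` in L2P.lean). -/
theorem parseval_fH {F G : ℝ × ℝ → ℝ} (hF : PY Real.pi F) (hG : PY Real.pi G) : ⟪fH hF, fH hG⟫_ℂ =
    (((2 * Real.pi)⁻¹ * ∫ p in cell, F p * G p : ℝ) : ℂ) := by
  have hpi := Real.pi_pos
  have h0 : ((2 * Real.pi : ℝ) : ℂ) ≠ 0 := by
    norm_cast
    positivity
  have h1 := nf1b_par (pz_fam_sum0 hF) (nf1b_sy hF) (pz_fam_sum0 hG) (nf1b_sy hG)
  have h2 : ∫ p in cell, F p * G p = ∫ q in cell, fld (Real.pi / Real.pi) (fam F : ℤ → CI Real.pi) q.1 q.2 *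
      fld (Real.pi / Real.pi) (fam G : ℤ → CI Real.pi) q.1 q.2 := by
    refine setIntegral_congr_fun (measurableSet_Icc.prod measurableSet_Icc) fun p hp => ?_
    obtain ⟨y, z⟩ := p
    show F (y, z) * G (y, z) = _
    rw [fld_fam hF hp.1 hp.2, fld_fam hG hp.1 hp.2]
  rw [lp.inner_eq_tsum, h2, Complex.ofReal_mul, h1, Complex.ofReal_inv, inv_mul_cancel_left₀ h0]
  rfl

/-- **Parseval** for complex functions. -/
theorem parseval_c (hf : PCn f) (hg : PCn g) : ⟪fHn f, fHn g⟫_ℂ =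
    ((2 * Real.pi : ℝ) : ℂ)⁻¹ * ∫ p in cell, (starRingEnd ℂ) (f p) * g p := by
  have hfc : Continuous f := hf.smooth.continuous
  have hgc : Continuous g := hg.smooth.continuous
  have hr : Continuous fun p => ((f p).re : ℂ) := Complex.continuous_ofReal.comp (Complex.continuous_re.comp hfc)
  have hi : Continuous fun p => ((f p).im : ℂ) := Complex.continuous_ofReal.comp (Complex.continuous_im.comp hfc)
  have hr' : Continuous fun p => ((g p).re : ℂ) := Complex.continuous_ofReal.comp (Complex.continuous_re.comp hgc)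
  have hi' : Continuous fun p => ((g p).im : ℂ) := Complex.continuous_ofReal.comp (Complex.continuous_im.comp hgc)
  have hP : ∀ {F G : ℝ × ℝ → ℝ} (hF : PY Real.pi F) (hG : PY Real.pi G), ⟪fH hF, fH hG⟫_ℂ =
      ((2 * Real.pi : ℝ) : ℂ)⁻¹ * ∫ p in cell, ((F p : ℝ) : ℂ) * ((G p : ℝ) : ℂ) := by
    intro F G hF hG
    rw [parseval_fH hF hG, Complex.ofReal_mul, Complex.ofReal_inv, ← integral_complex_ofReal]
    simp only [Complex.ofReal_mul]
  have e1 : ∀ p, (starRingEnd ℂ) (f p) * g p = (((f p).re : ℂ) * ((g p).re : ℂ) +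
      ((f p).im : ℂ) * ((g p).im : ℂ)) + (Complex.I * (((f p).re : ℂ) * ((g p).im : ℂ)) -
      Complex.I * (((f p).im : ℂ) * ((g p).re : ℂ))) := by
    intro p
    apply Complex.ext <;> simp <;> ring
  have i1 : IntegrableOn (fun p => ((f p).re : ℂ) * ((g p).re : ℂ)) cell := nf1b_int (hr.mul hr')
  have i2 : IntegrableOn (fun p => ((f p).im : ℂ) * ((g p).im : ℂ)) cell := nf1b_int (hi.mul hi')
  have i3 : IntegrableOn (fun p => Complex.I * (((f p).re : ℂ) * ((g p).im : ℂ))) cell :=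
    nf1b_int (continuous_const.mul (hr.mul hi'))
  have i4 : IntegrableOn (fun p => Complex.I * (((f p).im : ℂ) * ((g p).re : ℂ))) cell :=
    nf1b_int (continuous_const.mul (hi.mul hr'))
  have e2 : ∫ p in cell, (starRingEnd ℂ) (f p) * g p = ((∫ p in cell, ((f p).re : ℂ) * ((g p).re : ℂ)) +
      ∫ p in cell, ((f p).im : ℂ) * ((g p).im : ℂ)) +
      (Complex.I * (∫ p in cell, ((f p).re : ℂ) * ((g p).im : ℂ)) -
        Complex.I * ∫ p in cell, ((f p).im : ℂ) * ((g p).re : ℂ)) := by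
    rw [← integral_const_mul, ← integral_const_mul, ← integral_sub i3 i4, ← integral_add i1 i2]
    refine Eq.trans ?_ (integral_add (i1.add i2) (i3.sub i4))
    refine integral_congr_ae (Eventually.of_forall fun p => ?_)
    exact e1 p
  rw [e2, fHn_eq hf, fHn_eq hg, inner_add_left, inner_add_right,
    inner_add_right, inner_smul_left, inner_smul_left, inner_smul_right, inner_smul_right, hP, hP, hP, hP,
    Complex.conj_I]
  linear_combination (-((2 * Real.pi : ℝ) : ℂ)⁻¹ * ∫ p in cell, ((f p).im : ℂ) * ((g p).im : ℂ)) * Complex.I_mul_I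

theorem norm_fHn_sq (hf : PCn f) : ‖fHn f‖ ^ 2 = (2 * Real.pi)⁻¹ * ∫ p in cell, ‖f p‖ ^ 2 := by
  have h1 := parseval_c hf hf
  have h2 : ∀ p, (starRingEnd ℂ) (f p) * f p = ((‖f p‖ ^ 2 : ℝ) : ℂ) := by
    intro p
    rw [mul_comm, Complex.mul_conj, Complex.normSq_eq_norm_sq]
  simp only [h2] at h1
  rw [integral_complex_ofReal, inner_self_eq_norm_sq_to_K, ← Complex.ofReal_inv, ← Complex.ofReal_mul] at h1
  have h3 : ((‖fHn f‖ ^ 2 : ℝ) : ℂ) = (((2 * Real.pi)⁻¹ * ∫ p in cell, ‖f p‖ ^ 2 : ℝ) : ℂ) := by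
    rw [← h1, Complex.ofReal_pow]
    rfl
  exact Complex.ofReal_injective h3

end Pool.Agent.Lib.MP_79abb3_an.PD
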