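import Pool.Agent.Lib.MP_79abb3_an.PD.NF1a

/-!
Theorem D (MP_79abb3_an), block N: collars: product rules for periodic functions.
-/

set_option autoImplicit false
set_option linter.unusedSectionVars false

open MeasureTheory Set Filter Topology Function
open scoped ENNReal InnerProductSpace

namespace Pool.Agent.Lib.MP_79abb3_an.PD

open Pool.Agent.Lib.MP_79abb3_an.P25 Pool.Agent.Lib.MP_79abb3_an.SC

variable {f g : ℝ × ℝ → ℂ}

/-! ### Product rules -/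

private theorem pc_hasF (hf : PCn f) (p : ℝ × ℝ) : HasFDerivAt f (fderiv ℝ f p) p :=
  (hf.smooth.differentiable (by simp) p).hasFDerivAt

theorem dyc_add (hf : PCn f) (hg : PCn g) (p : ℝ × ℝ) : dyc (fun p => f p + g p) p = dyc f p + dyc g p := by
  have h : HasFDerivAt (fun p => f p + g p) (fderiv ℝ f p + fderiv ℝ g p) p :=
    (pc_hasF hf p).add (pc_hasF hg p)
  unfold dyc
  rw [h.fderiv]
  rfl

theorem dzc_add (hf : PCn f) (hg : PCn g) (p : ℝ × ℝ) : dzc (fun p => f p + g p) p = dzc f p + dzc g p := by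
  have h : HasFDerivAt (fun p => f p + g p) (fderiv ℝ f p + fderiv ℝ g p) p :=
    (pc_hasF hf p).add (pc_hasF hg p)
  unfold dzc
  rw [h.fderiv]
  rfl

private theorem pc_fderiv_mul (hf : PCn f) (hg : PCn g) (p v : ℝ × ℝ) :
    fderiv ℝ (fun p => f p * g p) p v = fderiv ℝ f p v * g p + f p * fderiv ℝ g p v := by
  have h := (pc_hasF hf p).mul (pc_hasF hg p)
  have h2 := h.fderiv
  have h3 : fderiv ℝ (fun p => f p * g p) p = f p • fderiv ℝ g p + g p • fderiv ℝ f p := h2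
  rw [h3]
  show f p * fderiv ℝ g p v + g p * fderiv ℝ f p v = _
  ring

theorem dyc_mul (hf : PCn f) (hg : PCn g) (p : ℝ × ℝ) :
    dyc (fun p => f p * g p) p = dyc f p * g p + f p * dyc g p := pc_fderiv_mul hf hg p (1, 0)

theorem dzc_mul (hf : PCn f) (hg : PCn g) (p : ℝ × ℝ) :
    dzc (fun p => f p * g p) p = dzc f p * g p + f p * dzc g p := pc_fderiv_mul hf hg p (0, 1)

private theorem pc_fderiv_ofz (k : ℝ → ℂ) (hk : ContDiff ℝ ((⊤ : ℕ∞) : WithTop ℕ∞) k) (p v : ℝ × ℝ) :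
    fderiv ℝ (fun p : ℝ × ℝ => k p.2) p v = v.2 • deriv k p.2 := by
  have h1 : HasDerivAt k (deriv k p.2) p.2 := (hk.differentiable (by simp) p.2).hasDerivAt
  have h2 : HasFDerivAt (fun p : ℝ × ℝ => p.2) (ContinuousLinearMap.snd ℝ ℝ ℝ) p := hasFDerivAt_snd
  have h3 := h1.hasFDerivAt.comp p h2
  have h4 : fderiv ℝ (fun p : ℝ × ℝ => k p.2) p = _ := h3.fderiv
  rw [h4]
  rfl

theorem dyc_ofz (k : ℝ → ℂ) (hk : ContDiff ℝ ((⊤ : ℕ∞) : WithTop ℕ∞) k) (p : ℝ × ℝ) :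
    dyc (fun p => k p.2) p = 0 := by
  unfold dyc
  rw [pc_fderiv_ofz k hk]
  exact zero_smul _ _

theorem dzc_ofz (k : ℝ → ℂ) (hk : ContDiff ℝ ((⊤ : ℕ∞) : WithTop ℕ∞) k) (p : ℝ × ℝ) :
    dzc (fun p => k p.2) p = deriv k p.2 := by
  unfold dzc
  rw [pc_fderiv_ofz k hk]
  exact one_smul _ _

private theorem dyc_const (c : ℂ) (p : ℝ × ℝ) : dyc (fun _ => c) p = 0 := by
  unfold dyc
  rw [fderiv_const_apply]
  rfl

private theorem dzc_const (c : ℂ) (p : ℝ × ℝ) : dzc (fun _ => c) p = 0 := by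
  unfold dzc
  rw [fderiv_const_apply]
  rfl

/-- `-Δ(f + g)`, `-Δ(c f)` -/
theorem lpc_add (hf : PCn f) (hg : PCn g) (p : ℝ × ℝ) : lpc (fun p => f p + g p) p = lpc f p + lpc g p := by
  unfold lpc
  rw [funext (dyc_add hf hg), funext (dzc_add hf hg), dyc_add hf.dy hg.dy, dzc_add hf.dz hg.dz]
  ring

theorem lpc_const (c : ℂ) (p : ℝ × ℝ) : lpc (fun _ => c) p = 0 := by
  unfold lpc
  rw [funext (dyc_const c), funext (dzc_const c), dyc_const, dzc_const, add_zero, neg_zero]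

theorem lpc_cmul (c : ℂ) (hf : PCn f) (p : ℝ × ℝ) : lpc (fun p => c * f p) p = c * lpc f p := by
  have h1 : ∀ {f : ℝ × ℝ → ℂ}, PCn f → dyc (fun p => c * f p) = fun p => c * dyc f p := fun {f} hf => by
    funext p
    rw [dyc_mul (PCn.const c) hf, dyc_const, zero_mul, zero_add]
  have h2 : ∀ {f : ℝ × ℝ → ℂ}, PCn f → dzc (fun p => c * f p) = fun p => c * dzc f p := fun {f} hf => by
    funext p
    rw [dzc_mul (PCn.const c) hf, dzc_const, zero_mul, zero_add]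
  unfold lpc
  rw [h1 hf, h2 hf, h1 hf.dy, h2 hf.dz]
  ring

/-- `-Δ(k(z) f) = k (-Δ f) - 2 k' ∂_z f - k'' f` -/
theorem lpc_ofz_mul {k : ℝ → ℂ} (hk : ContDiff ℝ ((⊤ : ℕ∞) : WithTop ℕ∞) k) (hf : PCn f) (p : ℝ × ℝ) :
    lpc (fun p => k p.2 * f p) p = k p.2 * lpc f p - 2 * (deriv k p.2 * dzc f p) - deriv (deriv k) p.2 * f p := by
  have hk1 : ContDiff ℝ ((⊤ : ℕ∞) : WithTop ℕ∞) (deriv k) := by
    have := (contDiff_infty_iff_deriv (f := k)).1 hk
    exact this.2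
  have h1 : ∀ {f : ℝ × ℝ → ℂ}, PCn f → dyc (fun p => k p.2 * f p) = fun p => k p.2 * dyc f p :=
    fun {f} hf => by
      funext p
      rw [dyc_mul (PCn.ofz hk) hf, dyc_ofz k hk, zero_mul, zero_add]
  have h2 : dzc (fun p => k p.2 * f p) = fun p => deriv k p.2 * f p + k p.2 * dzc f p := by
    funext p
    rw [dzc_mul (PCn.ofz hk) hf, dzc_ofz k hk]
  unfold lpc
  rw [h1 hf, h1 hf.dy, h2, dzc_add ((PCn.ofz hk1).mul hf) ((PCn.ofz hk).mul hf.dz),
    dzc_mul (PCn.ofz hk1) hf, dzc_mul (PCn.ofz hk) hf.dz, dzc_ofz k hk, dzc_ofz _ hk1]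
  ring

end Pool.Agent.Lib.MP_79abb3_an.PD
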