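import Pool.Agent.Lib.MP_79abb3_an.PD.NF1f
import Pool.Agent.Lib.MP_79abb3_an.PD.NF1d

/-!
Theorem D (MP_79abb3_an), block N: collars: `T (-Δ f)`, integration by parts, the Dirichlet norm.
-/

set_option autoImplicit false
set_option linter.unusedSectionVars false

open MeasureTheory Set Filter Topology Function
open scoped ENNReal InnerProductSpace

namespace Pool.Agent.Lib.MP_79abb3_an.PD

open Pool.Agent.Lib.MP_79abb3_an.P25 Pool.Agent.Lib.MP_79abb3_an.SC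

/-- zero near `z = π` -/
def VTc (f : ℝ × ℝ → ℂ) : Prop := ∃ ε > 0, ∀ y z, Real.pi - ε ≤ z → f (y, z) = 0

/-- constant near `z = 0` -/
def VBc (f : ℝ × ℝ → ℂ) : Prop := ∃ c : ℂ, ∃ ε > 0, ∀ y z, |z| ≤ ε → f (y, z) = c

variable {f g : ℝ × ℝ → ℂ}

private theorem nfc_congr {F G : ℝ × ℝ → ℝ} (h : F = G) (hF : PY Real.pi F) (hG : PY Real.pi G) :
    fH hF = fH hG := by
  subst h
  rfl

private theorem nfc_vt {h : ℂ → ℝ} (hh : h 0 = 0) (hf : VTc f) : VanT Real.pi (fun p => h (f p)) := by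
  obtain ⟨ε, hε, h1⟩ := hf
  exact ⟨ε, hε, fun y z hz => by
    show h (f (y, z)) = 0
    rw [h1 y z hz, hh]⟩

private theorem nfc_fd_zero {p : ℝ × ℝ} {c : ℂ} (h : f =ᶠ[𝓝 p] fun _ => c) (v : ℝ × ℝ) :
    fderiv ℝ f p v = 0 := by
  rw [h.fderiv_eq]
  simp

private theorem nfc_int {E : Type*} [NormedAddCommGroup E] {g : ℝ × ℝ → E} (hg : Continuous g) :
    IntegrableOn g cell :=
  hg.continuousOn.integrableOn_compact (isCompact_Icc.prod isCompact_Icc)

private theorem nfc_hasF (hf : PCn f) (p : ℝ × ℝ) : HasFDerivAt f (fderiv ℝ f p) p :=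
  (hf.smooth.differentiable (by simp) p).hasFDerivAt

/-- `TT_lapN` for the real and imaginary parts. -/
theorem TT_lpc (hf : PCn f) (h : VTc f) : TT (Real.pi / Real.pi) (fHn (lpc f)) = bHn f := by
  rw [fHn_eq hf.lp, bHn_eq hf, map_add, map_smul, nfc_congr hf.re_lp hf.lp.re hf.re.lapN,
    nfc_congr hf.im_lp hf.lp.im hf.im.lapN, TT_lapN hf.re (nfc_vt (h := Complex.re) rfl h),
    TT_lapN hf.im (nfc_vt (h := Complex.im) rfl h)]

private theorem nfc_vb (h0 : VBc f) : ∃ c : ℂ, (∀ y, f (y, 0) = c) ∧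
    ∀ y v, fderiv ℝ f (y, 0) v = 0 := by
  obtain ⟨c, ε, hε, hc⟩ := h0
  refine ⟨c, fun y => hc y 0 (by rw [abs_zero]; exact hε.le), fun y v => ?_⟩
  refine nfc_fd_zero (c := c) ?_ v
  have h3 : IsOpen {p : ℝ × ℝ | |p.2| < ε} := isOpen_lt continuous_snd.abs continuous_const
  filter_upwards [h3.mem_nhds (show (y, (0:ℝ)) ∈ {p : ℝ × ℝ | |p.2| < ε} by
    show |(0:ℝ)| < ε
    rwa [abs_zero])] with p hp
  exact hc p.1 p.2 (le_of_lt hp)

private theorem nfc_vt' (h0 : VTc f) : (∀ y, f (y, Real.pi) = 0) ∧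
    ∀ y v, fderiv ℝ f (y, Real.pi) v = 0 := by
  obtain ⟨ε, hε, hc⟩ := h0
  refine ⟨fun y => hc y Real.pi (by linarith), fun y v => ?_⟩
  refine nfc_fd_zero (c := 0) ?_ v
  have h3 : IsOpen {p : ℝ × ℝ | Real.pi - ε < p.2} := isOpen_lt continuous_const continuous_snd
  filter_upwards [h3.mem_nhds (show (y, Real.pi) ∈ {p : ℝ × ℝ | Real.pi - ε < p.2} by
    show Real.pi - ε < Real.pi
    linarith)] with p hp
  exact hc p.1 p.2 (le_of_lt hp)

private theorem nfc_ee (n : ℤ) (hn : n ≠ 0) :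
    ∫ y in (-Real.pi)..Real.pi, star (ee (Real.pi / Real.pi) n y) = 0 := by
  have h1 := int_ee (H := Real.pi) (-n)
  rw [if_neg (by simpa using hn)] at h1
  simpa only [ee_neg] using h1

/-- `P x = x` iff `(T x)(0) = 0`; all modes of `bHn f` vanish at `z = 0`: `f` is constant near `z = 0`, so `|n| f_n + f_n' = 0`
near `0` (`n ≠ 0`: `f_n = 0` there; `n = 0`: `f_0' = 0`). See `Zr_TT_zero`, `PP_apply`, `P2`, `ibp_B` for the characterization. -/
theorem PP_lpc (hf : PCn f) (h : VTc f) (h0 : VBc f) :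
    PP (Real.pi / Real.pi) (fHn (lpc f)) = fHn (lpc f) := by
  ext1
  funext n
  rw [PP_apply, P2_iff]
  have h1 : (iota (Tz (Real.pi / Real.pi * n) (fHn (lpc f) n)) : Z2 Real.pi) =
      iota (ka (Real.pi / Real.pi) n • cfc f n + cfc (dzc f) n) := by
    rw [← bHn_coef hf, ← T2_apply, ← SC.TT_apply, TT_lpc hf h]
  have z0 : (0:ℝ) ∈ Icc (0:ℝ) Real.pi := ⟨le_rfl, Real.pi_pos.le⟩
  obtain ⟨c, e1, e2⟩ := nfc_vb h0
  have e3 : ∀ y, dzc f (y, 0) = 0 := fun y => e2 y _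
  rw [iota_injective h1, ex_add, ex_smul, ex_cfc hf n z0, ex_cfc hf.dz n z0]
  simp only [e1, e3, zero_mul, intervalIntegral.integral_zero, mul_zero, add_zero]
  by_cases hn : n = 0
  · subst hn
    have h2 : ka (Real.pi / Real.pi) 0 = 0 := by
      unfold ka
      simp
    rw [h2, zero_mul]
  · rw [intervalIntegral.integral_const_mul, nfc_ee n hn, mul_zero, mul_zero, mul_zero]

/-- `inner_bsH`, by linearity. -/
theorem inner_bHn (hf : PCn f) {x : HH Real.pi} (hx : PP (Real.pi / Real.pi) x = x) :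
    ⟪x, fHn f⟫_ℂ = ⟪TT (Real.pi / Real.pi) x, bHn f⟫_ℂ := by
  rw [fHn_eq hf, bHn_eq hf, inner_add_right, inner_add_right, inner_smul_right, inner_smul_right,
    inner_bsH hf.re hx, inner_bsH hf.im hx]

theorem inner_bHn' (hf : PCn f) {x : HH Real.pi} (hx : PP (Real.pi / Real.pi) x = x) :
    ⟪fHn f, x⟫_ℂ = ⟪bHn f, TT (Real.pi / Real.pi) x⟫_ℂ := by
  rw [← inner_conj_symm, inner_bHn hf hx, inner_conj_symm]

/-- the divergence theorem on the cell -/
private theorem nfc_div {h1 h2 : ℝ × ℝ → ℂ} (p1 : PCn h1) (p2 : PCn h2)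
    (e : ∀ y, h2 (y, Real.pi) = h2 (y, 0)) : ∫ p in cell, (dyc h1 p + dzc h2 p) = 0 := by
  have hpi := Real.pi_pos
  have hc : cell = Icc ((-Real.pi, 0) : ℝ × ℝ) (Real.pi, Real.pi) := Icc_prod_Icc _ _ _ _
  have key := integral_divergence_prod_Icc_of_hasFDerivAt_of_le h1 h2 (fderiv ℝ h1) (fderiv ℝ h2)
    (-Real.pi, 0) (Real.pi, Real.pi) ⟨by show -Real.pi ≤ Real.pi; linarith, hpi.le⟩
    p1.smooth.continuous.continuousOn p2.smooth.continuous.continuousOn (fun x _ => nfc_hasF p1 x)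
    (fun x _ => nfc_hasF p2 x) (by
      rw [← hc]
      exact nfc_int (p1.dy.smooth.continuous.add p2.dz.smooth.continuous))
  have per : ∀ z, h1 (Real.pi, z) = h1 (-Real.pi, z) := fun z => by
    have := p1.per (-Real.pi) z
    rwa [show -Real.pi + 2 * Real.pi = Real.pi by ring] at this
  simp only [e, per] at key
  rw [hc]
  refine key.trans ?_
  ring

private theorem nfc_conj_dy (hf : PCn f) (v p : ℝ × ℝ) :
    fderiv ℝ (fun p => (starRingEnd ℂ) (f p)) p v = (starRingEnd ℂ) (fderiv ℝ f p v) := by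
  have h2 : HasFDerivAt (fun p => (starRingEnd ℂ) (f p))
      ((Complex.conjCLE : ℂ →L[ℝ] ℂ).comp (fderiv ℝ f p)) p :=
    (Complex.conjCLE : ℂ →L[ℝ] ℂ).hasFDerivAt.comp p (nfc_hasF hf p)
  rw [h2.fderiv]
  rfl

/-- Green's formula on the cell: the integrals of `∂_y (conj f ∂_y g)` and `∂_z (conj f ∂_z g)` vanish (periodicity; `g` constant near
`z = 0`, `f` zero near `z = π`). -/
theorem green_c (hf : PCn f) (hg : PCn g) (hf1 : VTc f) (hg0 : VBc g) :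
    ∫ p in cell, (starRingEnd ℂ) (f p) * lpc g p =
      ∫ p in cell, ((starRingEnd ℂ) (dyc f p) * dyc g p + (starRingEnd ℂ) (dzc f p) * dzc g p) := by
  obtain ⟨c, -, g1⟩ := nfc_vb hg0
  obtain ⟨f1, -⟩ := nfc_vt' hf1
  have key := nfc_div (hf.conj.mul hg.dy) (hf.conj.mul hg.dz) (fun y => by
    show (starRingEnd ℂ) (f (y, Real.pi)) * dzc g (y, Real.pi) =
      (starRingEnd ℂ) (f (y, 0)) * fderiv ℝ g (y, 0) (0, 1)
    rw [f1, g1, map_zero, zero_mul, mul_zero])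
  have e1 : ∀ p, dyc (fun p => (starRingEnd ℂ) (f p)) p = (starRingEnd ℂ) (dyc f p) :=
    fun p => nfc_conj_dy hf _ p
  have e2 : ∀ p, dzc (fun p => (starRingEnd ℂ) (f p)) p = (starRingEnd ℂ) (dzc f p) :=
    fun p => nfc_conj_dy hf _ p
  have e3 : ∀ p, (starRingEnd ℂ) (f p) * lpc g p =
      ((starRingEnd ℂ) (dyc f p) * dyc g p + (starRingEnd ℂ) (dzc f p) * dzc g p) -
      (dyc (fun p => (starRingEnd ℂ) (f p) * dyc g p) p +
        dzc (fun p => (starRingEnd ℂ) (f p) * dzc g p) p) := fun p => by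
    rw [dyc_mul hf.conj hg.dy, dzc_mul hf.conj hg.dz, e1, e2]
    unfold lpc
    ring
  have c1 : Continuous fun p => (starRingEnd ℂ) (dyc f p) * dyc g p + (starRingEnd ℂ) (dzc f p) * dzc g p :=
    ((hf.dy.conj.mul hg.dy).add (hf.dz.conj.mul hg.dz)).smooth.continuous
  have c2 : Continuous fun p => dyc (fun p => (starRingEnd ℂ) (f p) * dyc g p) p +
      dzc (fun p => (starRingEnd ℂ) (f p) * dzc g p) p :=
    ((hf.conj.mul hg.dy).dy.add (hf.conj.mul hg.dz).dz).smooth.continuous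
  simp only [e3]
  rw [integral_sub (nfc_int c1) (nfc_int c2), key, sub_zero]

/-- the integral of a Laplacian -/
theorem int_lpc_zero (hg : PCn g) (hg1 : VTc g) (hg0 : VBc g) : ∫ p in cell, lpc g p = 0 := by
  obtain ⟨c, -, g1⟩ := nfc_vb hg0
  obtain ⟨-, g2⟩ := nfc_vt' hg1
  have key := nfc_div hg.dy hg.dz (fun y => by
    show fderiv ℝ g (y, Real.pi) (0, 1) = fderiv ℝ g (y, 0) (0, 1)
    rw [g1, g2])
  unfold lpc
  rw [integral_neg, key, neg_zero]

/-- **The Dirichlet norm.** `‖bHn f‖² = ⟪TT x, bHn f⟫ = ⟪x, fHn f⟫`, `x = fHn (lpc f)`, `= (2π)⁻¹ ∫ conj (lpc f) f`. -/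
theorem norm_bHn_sq (hf : PCn f) (h : VTc f) (h0 : VBc f) :
    ‖bHn f‖ ^ 2 = (2 * Real.pi)⁻¹ * ∫ p in cell, (‖dyc f p‖ ^ 2 + ‖dzc f p‖ ^ 2) := by
  have h1 := inner_bHn' hf (PP_lpc hf h h0)
  rw [TT_lpc hf h, parseval_c hf hf.lp, green_c hf hf h h0, inner_self_eq_norm_sq_to_K] at h1
  have h2 : ∀ p, (starRingEnd ℂ) (dyc f p) * dyc f p + (starRingEnd ℂ) (dzc f p) * dzc f p =
      ((‖dyc f p‖ ^ 2 + ‖dzc f p‖ ^ 2 : ℝ) : ℂ) := fun p => by
    rw [Complex.conj_mul', Complex.conj_mul']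
    push_cast
    rfl
  have h3 : ∫ p in cell, ((starRingEnd ℂ) (dyc f p) * dyc f p + (starRingEnd ℂ) (dzc f p) * dzc f p) =
      ((∫ p in cell, (‖dyc f p‖ ^ 2 + ‖dzc f p‖ ^ 2) : ℝ) : ℂ) := by
    exact (integral_congr_ae (Eventually.of_forall h2)).trans integral_complex_ofReal
  rw [h3, ← Complex.ofReal_inv, ← Complex.ofReal_mul] at h1
  have h4 : (((2 * Real.pi)⁻¹ * ∫ p in cell, (‖dyc f p‖ ^ 2 + ‖dzc f p‖ ^ 2) : ℝ) : ℂ) =
      ((‖bHn f‖ ^ 2 : ℝ) : ℂ) := by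
    rw [h1, Complex.ofReal_pow]
    rfl
  exact (Complex.ofReal_injective h4).symm

end Pool.Agent.Lib.MP_79abb3_an.PD
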