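import Pool.Agent.Lib.MP_79abb3_an.PD.NF1b

/-!
Theorem D (MP_79abb3_an), block N: collars: norm of `bHn`, multiplication, supports.
-/

set_option autoImplicit false
set_option linter.unusedSectionVars false

open MeasureTheory Set Filter Topology Function
open scoped ENNReal InnerProductSpace

namespace Pool.Agent.Lib.MP_79abb3_an.PD

open Pool.Agent.Lib.MP_79abb3_an.P25 Pool.Agent.Lib.MP_79abb3_an.SC

variable {f g : ℝ × ℝ → ℂ}

private theorem nff_congr {F G : ℝ × ℝ → ℝ} (h : F = G) (hF : PY Real.pi F) (hG : PY Real.pi G) :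
    fH hF = fH hG := by
  subst h
  rfl

private theorem nff_cfc_dy (hf : PCn f) (n : ℤ) :
    cfc (dyc f) n = kI (Real.pi / Real.pi) n • cfc f n := by
  unfold cfc
  rw [hf.re_dy, hf.im_dy, fam_dy hf.re, fam_dy hf.im]
  refine ci_ext fun z _ => ?_
  rw [ex_add, ex_smul, ex_smul, ex_smul, ex_smul, ex_add, ex_smul]
  ring

private theorem nff_coef (hf : PCn f) (n : ℤ) :
    ‖bHn f n‖ ^ 2 ≤ 2 * (‖fHn (dyc f) n‖ ^ 2 + ‖fHn (dzc f) n‖ ^ 2) := by
  rw [bHn_coef hf, fHn_coef hf.dy, fHn_coef hf.dz, nff_cfc_dy hf, map_add, map_smul, map_smul]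
  have h1 : ‖ka (Real.pi / Real.pi) n • (iota (cfc f n) : Z2 Real.pi)‖ =
      ‖kI (Real.pi / Real.pi) n • (iota (cfc f n) : Z2 Real.pi)‖ := by
    rw [norm_smul, norm_smul, norm_ka, norm_kI]
  have h2 := norm_add_le (ka (Real.pi / Real.pi) n • (iota (cfc f n) : Z2 Real.pi))
    (iota (cfc (dzc f) n))
  rw [h1] at h2
  exact (pow_le_pow_left₀ (norm_nonneg _) h2 2).trans add_sq_le

private theorem nff_int {g : ℝ × ℝ → ℝ} (hg : Continuous g) : IntegrableOn g cell :=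
  hg.continuousOn.integrableOn_compact (isCompact_Icc.prod isCompact_Icc)

private theorem nff_fd_zero {p : ℝ × ℝ} {c : ℂ} (h : f =ᶠ[𝓝 p] fun _ => c) (v : ℝ × ℝ) :
    fderiv ℝ f p v = 0 := by
  rw [h.fderiv_eq]
  simp

/-- `‖|D| f‖ = ‖∂_y f‖` mode by mode (`fam_dy`), so `‖bHn f‖ ≤ ‖fHn ∂_y f‖ + ‖fHn ∂_z f‖`. -/
theorem norm_bHn_sq_le (hf : PCn f) : ‖bHn f‖ ^ 2 ≤ Real.pi⁻¹ * ∫ p in cell, (‖dyc f p‖ ^ 2 + ‖dzc f p‖ ^ 2) := by
  have s1 := l2_summable (fHn (dyc f))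
  have s2 := l2_summable (fHn (dzc f))
  have h1 : ∑' n, ‖bHn f n‖ ^ 2 ≤ ∑' n, 2 * (‖fHn (dyc f) n‖ ^ 2 + ‖fHn (dzc f) n‖ ^ 2) :=
    (l2_summable _).tsum_le_tsum (nff_coef hf) ((s1.add s2).mul_left 2)
  rw [tsum_mul_left, s1.tsum_add s2, ← l2_norm_sq, ← l2_norm_sq, ← l2_norm_sq, norm_fHn_sq hf.dy,
    norm_fHn_sq hf.dz] at h1
  refine h1.trans (le_of_eq ?_)
  have c1 : Continuous fun p => ‖dyc f p‖ ^ 2 := hf.dy.smooth.continuous.norm.pow 2
  have c2 : Continuous fun p => ‖dzc f p‖ ^ 2 := hf.dz.smooth.continuous.norm.pow 2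
  rw [integral_add (nff_int c1) (nff_int c2), mul_inv]
  ring

/-- multiplication by a real periodic function (`cm_fH`, `cm` is linear) -/
theorem cm_fHn {a : ℝ × ℝ → ℝ} (ha : PCn (fun p => (a p : ℂ))) (hf : PCn f) :
    SC.cm (fam a) (fHn f) = fHn (fun p => (a p : ℂ) * f p) := by
  have haR : PY Real.pi a := ha.re
  rw [fHn_eq hf, fHn_eq (ha.mul hf), map_add, map_smul, cm_fH haR hf.re, cm_fH haR hf.im]
  congr 1
  · exact nff_congr (funext fun p => (Complex.re_ofReal_mul _ _).symm) _ _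
  · congr 1
    exact nff_congr (funext fun p => (Complex.im_ofReal_mul _ _).symm) _ _

/-- Disjoint supports in `z`: all modes of `bHn f` vanish for `z ≥ b`. -/
theorem mb_bHn_zero (hf : PCn f) {b : ℝ} {χc : CI Real.pi} (hχ : ∀ z ∈ Icc (0:ℝ) Real.pi, z ≤ b → ex χc z = 0)
    (h0 : ∀ y z, b ≤ z → f (y, z) = 0) : mb χc (bHn f) = 0 := by
  ext1
  funext n
  rw [mb_apply, bHn_coef hf]
  refine mz_iota_zero fun z hz => ?_
  rcases le_or_gt z b with h | h
  · exact Or.inl (hχ z hz h)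
  right
  have hd : ∀ y, dzc f (y, z) = 0 := fun y => by
    refine nff_fd_zero (c := 0) ?_ _
    have h3 : IsOpen {p : ℝ × ℝ | b < p.2} := isOpen_lt continuous_const continuous_snd
    filter_upwards [h3.mem_nhds (show (y, z) ∈ {p : ℝ × ℝ | b < p.2} from h)] with p hp
    exact h0 p.1 p.2 (le_of_lt hp)
  have e0 : ∀ y, f (y, z) = 0 := fun y => h0 y z h.le
  have e1 : ex (cfc f n) z = 0 := by
    rw [ex_cfc hf n hz]
    simp only [e0, zero_mul, intervalIntegral.integral_zero, mul_zero]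
  have e2 : ex (cfc (dzc f) n) z = 0 := by
    rw [ex_cfc hf.dz n hz]
    simp only [hd, zero_mul, intervalIntegral.integral_zero, mul_zero]
  rw [ex_add, ex_smul, e1, e2, mul_zero, add_zero]

end Pool.Agent.Lib.MP_79abb3_an.PD
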