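import Pool.Agent.Lib.MP_79abb3_an.PD.NF1b

/-!
Theorem D (MP_79abb3_an), block N: collars: the test functions `(n² χ - χ'')(z) e^{iny}`.
-/

set_option autoImplicit false
set_option linter.unusedSectionVars false

open MeasureTheory Set Filter Topology Function
open scoped ENNReal InnerProductSpace

namespace Pool.Agent.Lib.MP_79abb3_an.PD

open Pool.Agent.Lib.MP_79abb3_an.P25 Pool.Agent.Lib.MP_79abb3_an.SC

/-- the frequency `ω = π/π = 1` -/
noncomputable abbrev om1 : ℝ := Real.pi / Real.pi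

/-- Profiles of test stream functions: zero near `z = 0`, decaying beyond `z = π`. -/
structure Tst (n : ℤ) (χ : ℝ → ℂ) : Prop where
  smooth : ContDiff ℝ ((⊤ : ℕ∞) : WithTop ℕ∞) χ
  zero : ∃ ε > 0, ∀ z, z ≤ ε → χ z = 0
  top : deriv χ Real.pi + (|(n : ℝ)| : ℝ) * χ Real.pi = 0

/-- the vorticity `n² χ - χ''` -/
noncomputable def tfk (n : ℤ) (χ : ℝ → ℂ) (z : ℝ) : ℂ := ((n : ℝ) ^ 2 : ℝ) * χ z - deriv (deriv χ) z

/-- the test element of `HH π` -/
noncomputable def tf (n : ℤ) (χ : ℝ → ℂ) : HH Real.pi := sgl n (tfk n χ)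

variable {n : ℤ} {χ : ℝ → ℂ}

private theorem nf2_om (n : ℤ) : om1 * (n : ℝ) = n := by
  rw [om1, div_self Real.pi_ne_zero, one_mul]

private theorem nf2_self (n : ℤ) (k : ℝ → ℂ) : sgl n k n = (iota (cI k) : Z2 Real.pi) :=
  lp.single_apply_self (E := fun _ : ℤ => Z2 Real.pi) 2 n _

private theorem nf2_ne {m n : ℤ} (h : m ≠ n) (k : ℝ → ℂ) : sgl n k m = (0 : Z2 Real.pi) :=
  lp.single_apply_ne (E := fun _ : ℤ => Z2 Real.pi) 2 n _ h

private theorem nf2_ext {x y : HH Real.pi} (h : ∀ m, x m = y m) : x = y := by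
  ext1
  funext m
  exact h m

private theorem nf2_isD {k k1 : ℝ → ℂ} (h : ∀ z, HasDerivAt k (k1 z) z) (h1 : Continuous k1) :
    IsD (cI k) (cI k1) := by
  have hk : Continuous k := continuous_iff_continuousAt.mpr fun z => (h z).continuousAt
  intro z hz
  rw [ex_cI h1 hz]
  exact (h z).hasDerivWithinAt.congr (fun y hy => ex_cI hk hy) (ex_cI hk hz)

private theorem nf2_d (h : Tst n χ) (z : ℝ) : HasDerivAt χ (deriv χ z) z :=
  ((h.smooth.differentiable (by norm_num)) z).hasDerivAt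

private theorem nf2_sm (h : Tst n χ) : ContDiff ℝ ((⊤ : ℕ∞) : WithTop ℕ∞) (deriv χ) :=
  (contDiff_infty_iff_deriv.mp h.smooth).2

private theorem nf2_d2 (h : Tst n χ) (z : ℝ) : HasDerivAt (deriv χ) (deriv (deriv χ) z) z :=
  (((nf2_sm h).differentiable (by norm_num)) z).hasDerivAt

private theorem nf2_c1 (h : Tst n χ) : Continuous (deriv χ) := (nf2_sm h).continuous

private theorem nf2_c2 (h : Tst n χ) : Continuous (deriv (deriv χ)) :=
  (contDiff_infty_iff_deriv.mp (nf2_sm h)).2.continuous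

private theorem nf2_c (h : Tst n χ) : Continuous χ := h.smooth.continuous

private theorem nf2_ct (h : Tst n χ) : Continuous (tfk n χ) :=
  (continuous_const.mul (nf2_c h)).sub (nf2_c2 h)

/-- the profile of `T f` -/
private noncomputable def nf2_G (n : ℤ) (χ : ℝ → ℂ) (z : ℝ) : ℂ := deriv χ z + (|(n : ℝ)| : ℝ) * χ z

private theorem nf2_cG (h : Tst n χ) : Continuous (nf2_G n χ) :=
  (nf2_c1 h).add (continuous_const.mul (nf2_c h))

private theorem nf2_Tz (h : Tst n χ) : Tz (n : ℝ) (iota (cI (tfk n χ))) = cI (nf2_G n χ) := by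
  have hc : Continuous fun z => deriv (deriv χ) z + (|(n : ℝ)| : ℝ) * deriv χ z :=
    (nf2_c2 h).add (continuous_const.mul (nf2_c1 h))
  refine (Tz_unique ?_ ?_).symm
  · have h1 : IsD (cI (nf2_G n χ)) (cI fun z => deriv (deriv χ) z + (|(n : ℝ)| : ℝ) * deriv χ z) :=
      nf2_isD (fun z => (nf2_d2 h z).add ((nf2_d h z).const_mul _)) hc
    have e : (cI fun z => deriv (deriv χ) z + (|(n : ℝ)| : ℝ) * deriv χ z) =
        ((|(n : ℝ)| : ℝ) : ℂ) • cI (nf2_G n χ) - cI (tfk n χ) := by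
      refine ci_ext fun z hz => ?_
      rw [ex_sub, ex_smul, ex_cI (nf2_cG h) hz, ex_cI (nf2_ct h) hz,
        ex_cI hc hz]
      unfold nf2_G tfk
      have e2 : ((|(n : ℝ)| : ℝ) : ℂ) * ((|(n : ℝ)| : ℝ) : ℂ) = (((n : ℝ) ^ 2 : ℝ) : ℂ) := by
        rw [← Complex.ofReal_mul, abs_mul_abs_self, sq]
      linear_combination (-(χ z)) * e2
    have h2 := IsD.dz h1
    rw [e, map_sub, map_smul] at h2
    exact h2
  · rw [ex_cI (nf2_cG h) H_memI]
    exact h.top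

private theorem nf2_zero (h : Tst n χ) : χ 0 = 0 ∧ deriv χ 0 = 0 := by
  obtain ⟨ε, hε, h1⟩ := h.zero
  refine ⟨h1 0 hε.le, ?_⟩
  have h2 : χ =ᶠ[𝓝 0] fun _ => 0 := by
    filter_upwards [gt_mem_nhds hε] with z hz
    exact h1 z (le_of_lt hz)
  rw [h2.deriv_eq]
  simp

private theorem nf2_Ez (h : Tst n χ) : Ez (n : ℝ) (iota (cI (nf2_G n χ))) = cI χ := by
  have h1 := Ez_bs (H := Real.pi) (n : ℝ) (nf2_isD (nf2_d h) (nf2_c1 h))
  have e : ((|(n : ℝ)| : ℝ) : ℂ) • cI χ + cI (deriv χ) = cI (nf2_G n χ) := by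
    refine ci_ext fun z hz => ?_
    rw [ex_add, ex_smul, ex_cI (nf2_cG h) hz, ex_cI (nf2_c h) hz, ex_cI (nf2_c1 h) hz]
    unfold nf2_G
    ring
  have e0 : ex (cI χ) 0 = 0 := by rw [ex_cI (nf2_c h) zero_memI, (nf2_zero h).1]
  have e1 : cI χ - ex (cI χ) 0 • (fe (-|(n : ℝ)|) : CI Real.pi) = cI χ := by
    refine ci_ext fun z _ => ?_
    rw [ex_sub, ex_smul, e0, zero_mul, sub_zero]
  rw [e, e1] at h1
  exact h1

/-- `T (n² χ - χ'') = χ' + |n| χ` (mode by mode: `Tz_test` or uniqueness for `Tz`: the function `χ' + |n| χ` vanishes at `π` and has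
derivative `|n| (χ' + |n| χ) - (n² χ - χ'')`). -/
theorem TT_tf (h : Tst n χ) : TT om1 (tf n χ) = sgl n (fun z => deriv χ z + (|(n : ℝ)| : ℝ) * χ z) := by
  refine nf2_ext fun m => ?_
  rw [SC.TT_apply, tf]
  by_cases hm : m = n
  · subst hm
    rw [nf2_self, nf2_self, T2_apply, nf2_om, nf2_Tz h]
    rfl
  · rw [nf2_ne hm, nf2_ne hm, map_zero]

/-- `E (χ' + |n| χ) = χ` (`Ez_bs`, `χ 0 = 0`) -/
theorem EE_tf (h : Tst n χ) : EE om1 (TT om1 (tf n χ)) = sgl n χ := by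
  rw [TT_tf h]
  refine nf2_ext fun m => ?_
  rw [EE_apply]
  by_cases hm : m = n
  · subst hm
    rw [nf2_self, nf2_self, E2_apply, nf2_om]
    exact congrArg _ (nf2_Ez h)
  · rw [nf2_ne hm, nf2_ne hm, map_zero]

/-- `T f - |D| E T f = χ'` -/
theorem DE_tf (h : Tst n χ) : TT om1 (tf n χ) - DEc om1 (TT om1 (tf n χ)) = sgl n (deriv χ) := by
  rw [TT_tf h]
  refine nf2_ext fun m => ?_
  rw [lp.coeFn_sub, Pi.sub_apply, DEc_apply]
  by_cases hm : m = n
  · subst hm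
    rw [nf2_self, nf2_self, E2_apply, nf2_om]
    have h1 : Ez (m : ℝ) (iota (cI fun z => deriv χ z + (|(m : ℝ)| : ℝ) * χ z)) = cI χ := nf2_Ez h
    rw [h1]
    have h2 : ka om1 m = ((|(m : ℝ)| : ℝ) : ℂ) := by
      rw [ka, nf2_om]
    rw [h2, ← map_smul, ← map_sub]
    congr 1
    refine ci_ext fun z hz => ?_
    rw [ex_sub, ex_smul, ex_cI (nf2_c h) hz, ex_cI (nf2_c1 h) hz]
    have h3 := ex_cI (nf2_cG h) hz
    unfold nf2_G at h3
    rw [h3]
    ring
  · rw [nf2_ne hm, nf2_ne hm, map_zero, smul_zero, sub_zero]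

theorem PP_tf (h : Tst n χ) : PP om1 (tf n χ) = tf n χ := by
  refine nf2_ext fun m => ?_
  rw [PP_apply, tf]
  by_cases hm : m = n
  · subst hm
    rw [nf2_self, nf2_om, P2_iff, nf2_Tz h, ex_cI (nf2_cG h) zero_memI]
    unfold nf2_G
    rw [(nf2_zero h).1, (nf2_zero h).2, mul_zero, add_zero]
  · rw [nf2_ne hm, map_zero]

end Pool.Agent.Lib.MP_79abb3_an.PD
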