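import Pool.Agent.Lib.MP_79abb3_an.PD.NF2a

/-!
Theorem D (MP_79abb3_an), block N: collars: density of the test functions.
-/

set_option autoImplicit false
set_option linter.unusedSectionVars false

open MeasureTheory Set Filter Topology Function
open scoped ENNReal InnerProductSpace

namespace Pool.Agent.Lib.MP_79abb3_an.PD

open Pool.Agent.Lib.MP_79abb3_an.P25 Pool.Agent.Lib.MP_79abb3_an.SC

private theorem nf2b_prim {f : ℝ → ℂ} (hf : ContDiff ℝ ((⊤ : ℕ∞) : WithTop ℕ∞) f) :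
    (∀ z, HasDerivAt (fun z => ∫ s in (0:ℝ)..z, f s) (f z) z) ∧
      ContDiff ℝ ((⊤ : ℕ∞) : WithTop ℕ∞) (fun z => ∫ s in (0:ℝ)..z, f s) := by
  have h1 : ∀ z, HasDerivAt (fun z => ∫ s in (0:ℝ)..z, f s) (f z) z := fun z =>
    (hf.continuous.integral_hasStrictDerivAt 0 z).hasDerivAt
  refine ⟨h1, ?_⟩
  rw [contDiff_infty_iff_deriv]
  refine ⟨fun z => (h1 z).differentiableAt, ?_⟩
  have h2 : deriv (fun z => ∫ s in (0:ℝ)..z, f s) = f := funext fun z => (h1 z).deriv
  rw [h2]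
  exact hf

private theorem nf2b_exp (κ : ℂ) : (∀ z : ℝ, HasDerivAt (fun z : ℝ => Complex.exp (κ * z))
    (κ * Complex.exp (κ * z)) z) ∧
      ContDiff ℝ ((⊤ : ℕ∞) : WithTop ℕ∞) (fun z : ℝ => Complex.exp (κ * z)) := by
  constructor
  · intro z
    have h1 : HasDerivAt (fun z : ℝ => κ * (z : ℂ)) (κ * 1) z :=
      (Complex.ofRealCLM.hasDerivAt (x := z)).const_mul κ
    have h2 := h1.cexp
    rw [mul_one, mul_comm] at h2
    exact h2
  · exact (contDiff_const.mul Complex.ofRealCLM.contDiff).cexp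

private theorem nf2b_eps {h : ℝ → ℂ} (hs : tsupport h ⊆ Ioo 0 Real.pi) :
    ∃ ε > 0, ∀ z, z ≤ ε → h z = 0 := by
  have hc : IsCompact (tsupport h) :=
    isCompact_Icc.of_isClosed_subset (isClosed_tsupport h) (hs.trans Ioo_subset_Icc_self)
  by_cases hne : (tsupport h).Nonempty
  · obtain ⟨x, hx, hl⟩ := hc.exists_isLeast hne
    refine ⟨x / 2, by linarith [(hs hx).1], fun z hz => ?_⟩
    refine image_eq_zero_of_notMem_tsupport fun h1 => ?_
    have h2 := hl h1
    linarith [(hs hx).1]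
  · refine ⟨1, one_pos, fun z _ => ?_⟩
    rw [not_nonempty_iff_eq_empty] at hne
    refine image_eq_zero_of_notMem_tsupport ?_
    rw [hne]
    exact notMem_empty z

private theorem nf2b_int0 {f : ℝ → ℂ} {ε : ℝ} (hε : 0 < ε) (hf : ∀ z, z ≤ ε → f z = 0) {z : ℝ}
    (hz : z ≤ ε) : ∫ s in (0:ℝ)..z, f s = 0 := by
  have h1 : EqOn f (fun _ => 0) (uIcc 0 z) := fun s hs => by
    have h2 : s ≤ max 0 z := hs.2
    exact hf s (h2.trans (max_le hε.le hz))
  rw [intervalIntegral.integral_congr h1, intervalIntegral.integral_zero]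

/-- Construction: every `h ∈ C_c^∞(0,π)` with `∫_0^π h e^{-|n|s} ds = 0` is `n² χ - χ''` on `[0,π]` for some profile:
`V(z) = ∫_z^π e^{-|n|(s-z)} h(s) ds`, `χ(z) = ∫_0^z e^{-|n|(z-s)} V(s) ds` (both smooth on `ℝ`: `V' = |n| V - h`, `χ' = V - |n| χ`; `V = 0` for
`z ≤ ε` because of the integral condition, so `χ = 0` for `z ≤ ε`; `V(π) = 0`). -/
theorem exists_Tst (n : ℤ) {h : ℝ → ℂ} (hh : ContDiff ℝ ((⊤ : ℕ∞) : WithTop ℕ∞) h)
    (hs : tsupport h ⊆ Ioo 0 Real.pi)
    (h0 : ∫ s in (0:ℝ)..Real.pi, h s * Complex.exp (-((|(n : ℝ)| : ℝ) * s : ℂ)) = 0) :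
    ∃ χ, Tst n χ ∧ ∀ z, tfk n χ z = h z := by
  set κ : ℂ := ((|(n : ℝ)| : ℝ) : ℂ) with hκ
  obtain ⟨dm, cm⟩ := nf2b_exp (-κ)
  obtain ⟨dp, cp⟩ := nf2b_exp κ
  set em : ℝ → ℂ := fun z => Complex.exp (-κ * z) with hem
  set ep : ℝ → ℂ := fun z => Complex.exp (κ * z) with hep
  have hpm : ∀ z, ep z * em z = 1 := fun z => by
    simp only [hem, hep]
    rw [← Complex.exp_add]
    have : κ * (z : ℂ) + -κ * z = 0 := by ring
    rw [this, Complex.exp_zero]
  obtain ⟨dA, cA⟩ := nf2b_prim (f := fun s => h s * em s) (hh.mul cm)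
  set A : ℝ → ℂ := fun z => ∫ s in (0:ℝ)..z, h s * em s with hA
  set V : ℝ → ℂ := fun z => -(ep z * A z) with hV
  have cV : ContDiff ℝ ((⊤ : ℕ∞) : WithTop ℕ∞) V := (cp.mul cA).neg
  have dV : ∀ z, HasDerivAt V (κ * V z - h z) z := fun z => by
    have h1 := ((dp z).mul (dA z)).neg
    refine h1.congr_deriv ?_
    have h2 := hpm z
    simp only [hV]
    have e : -(κ * ep z * A z + ep z * (h z * em z)) =
        κ * -(ep z * A z) - h z * (ep z * em z) := by ring
    rw [h2, mul_one] at e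
    exact e
  obtain ⟨dB, cB⟩ := nf2b_prim (f := fun s => ep s * V s) (cp.mul cV)
  set B : ℝ → ℂ := fun z => ∫ s in (0:ℝ)..z, ep s * V s with hB
  set χ : ℝ → ℂ := fun z => em z * B z with hχ
  have cχ : ContDiff ℝ ((⊤ : ℕ∞) : WithTop ℕ∞) χ := cm.mul cB
  have dχ : ∀ z, HasDerivAt χ (-κ * χ z + V z) z := fun z => by
    have h1 := (dm z).mul (dB z)
    refine h1.congr_deriv ?_
    have h2 := hpm z
    simp only [hχ]
    have e : -κ * em z * B z + em z * (ep z * V z) =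
        -κ * (em z * B z) + (ep z * em z) * V z := by ring
    rw [h2, one_mul] at e
    exact e
  have eχ : deriv χ = fun z => -κ * χ z + V z := funext fun z => (dχ z).deriv
  have eχ2 : ∀ z, deriv (deriv χ) z = κ ^ 2 * χ z - h z := fun z => by
    rw [eχ]
    have h1 : HasDerivAt (fun z => -κ * χ z + V z)
        (-κ * (-κ * χ z + V z) + (κ * V z - h z)) z := ((dχ z).const_mul (-κ)).add (dV z)
    rw [h1.deriv]
    ring
  have hκ2 : κ ^ 2 = (((n : ℝ) ^ 2 : ℝ) : ℂ) := by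
    rw [hκ, ← Complex.ofReal_pow, sq_abs]
  refine ⟨χ, ⟨cχ, ?_, ?_⟩, fun z => ?_⟩
  · obtain ⟨ε, hε, hz⟩ := nf2b_eps hs
    refine ⟨ε, hε, ?_⟩
    have hA0 : ∀ z, z ≤ ε → A z = 0 := fun z h1 =>
      nf2b_int0 hε (fun s hs => by rw [hz s hs, zero_mul]) h1
    have hB0 : ∀ z, z ≤ ε → B z = 0 := fun z h1 =>
      nf2b_int0 hε (fun s hs => by simp only [hV, hA0 s hs, mul_zero, neg_zero]) h1
    intro z h1
    simp only [hχ, hB0 z h1, mul_zero]
  · have hAp : A Real.pi = 0 := by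
      simp only [hA, hem]
      rw [← h0]
      refine intervalIntegral.integral_congr fun s _ => ?_
      simp only [neg_mul]
    have hVp : V Real.pi = 0 := by
      simp only [hV, hAp, mul_zero, neg_zero]
    rw [eχ]
    simp only [hVp]
    rw [← hκ]
    ring
  · unfold tfk
    rw [eχ2, hκ2]
    ring

private theorem nf2b_inner (x : Z2 Real.pi) {h : ℝ → ℂ} (hh : Continuous h) :
    ⟪x, (iota (cI h) : Z2 Real.pi)⟫_ℂ = ∫ z in (0:ℝ)..Real.pi, star (x z) * h z := by
  rw [inner_Z2]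
  refine ii_congr ?_ ⟨le_rfl, Real.pi_pos.le⟩ ⟨Real.pi_pos.le, le_rfl⟩
  filter_upwards [coe_iota (cI h), ae_restrict_mem measurableSet_Ioc] with z h1 h2
  rw [h1, ex_cI hh ⟨h2.1.le, h2.2⟩]

private theorem nf2b_tsup {E : Type*} [Zero E] {f : ℝ → ℂ} {g : ℝ → E}
    (h : ∀ s, g s = 0 → f s = 0) : tsupport f ⊆ tsupport g :=
  closure_mono fun s hs h0 => hs (h s h0)

/-- one fixed test function -/
private theorem nf2b_bump (κ : ℝ) : ∃ h₀ : ℝ → ℂ, ContDiff ℝ ((⊤ : ℕ∞) : WithTop ℕ∞) h₀ ∧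
    tsupport h₀ ⊆ Ioo 0 Real.pi ∧
    ∫ s in (0:ℝ)..Real.pi, h₀ s * Complex.exp (-((κ : ℂ) * s)) ≠ 0 := by
  have hpi := Real.pi_gt_three
  have hpi4 := Real.pi_lt_four
  let f : ContDiffBump (Real.pi / 2 : ℝ) := ⟨1 / 2, 1, by norm_num, by norm_num⟩
  refine ⟨fun s => ((f s : ℝ) : ℂ), ?_, ?_, ?_⟩
  · exact Complex.ofRealCLM.contDiff.comp f.contDiff
  · have h1 : tsupport (fun s => ((f s : ℝ) : ℂ)) ⊆ tsupport f :=
      nf2b_tsup fun s h0 => by rw [h0, Complex.ofReal_zero]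
    refine h1.trans ?_
    rw [f.tsupport_eq, Real.closedBall_eq_Icc]
    intro s hs
    have h2 : Real.pi / 2 - 1 ≤ s := hs.1
    have h3 : s ≤ Real.pi / 2 + 1 := hs.2
    exact ⟨by linarith, by linarith⟩
  · have e : ∀ s : ℝ, ((f s : ℝ) : ℂ) * Complex.exp (-((κ : ℂ) * s)) =
        ((f s * Real.exp (-(κ * s)) : ℝ) : ℂ) := fun s => by
      push_cast
      rfl
    simp only [e]
    rw [intervalIntegral.integral_ofReal, Complex.ofReal_ne_zero]
    refine (intervalIntegral.integral_pos Real.pi_pos ?_ ?_ ⟨Real.pi / 2, ?_, ?_⟩).ne'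
    · exact (f.continuous.mul (by fun_prop)).continuousOn
    · intro s _
      exact mul_nonneg f.nonneg (Real.exp_pos _).le
    · exact ⟨by linarith, by linarith⟩
    · refine mul_pos ?_ (Real.exp_pos _)
      exact f.pos_of_mem_ball (Metric.mem_ball_self f.rOut_pos)

private theorem nf2b_ii (x : Z2 Real.pi) {h : ℝ → ℂ} (hh : Continuous h) :
    IntervalIntegrable (fun z => star (x z) * h z) volume 0 Real.pi := by
  have h1 : IntervalIntegrable (fun z => star (x z)) volume 0 Real.pi := by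
    have h2 := ii_Z2 x (a := 0) (b := Real.pi) ⟨le_rfl, Real.pi_pos.le⟩ ⟨Real.pi_pos.le, le_rfl⟩
    rw [intervalIntegrable_iff] at h2 ⊢
    have h3 := Complex.conjCLE.integrable_comp_iff.2 h2
    exact h3
  exact h1.mul_continuousOn hh.continuousOn

/-- orthogonal to the weighted test functions: multiple of the exponential -/
private theorem nf2b_ae (n : ℤ) {x : Z2 Real.pi}
    (h : ∀ χ, Tst n χ → ⟪x, (iota (cI (tfk n χ)) : Z2 Real.pi)⟫_ℂ = 0) :
    ∃ lam : ℂ, ∀ᵐ z ∂(mH Real.pi), star (x z) = lam * Complex.exp (-((|(n : ℝ)| : ℝ) * z : ℂ)) := by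
  obtain ⟨h₀, c0, s0, i0⟩ := nf2b_bump |(n : ℝ)|
  set em : ℝ → ℂ := fun s => Complex.exp (-((|(n : ℝ)| : ℝ) * s : ℂ)) with hem
  have cem : Continuous em := by fun_prop
  set I₀ : ℂ := ∫ s in (0:ℝ)..Real.pi, h₀ s * em s with hI₀
  set P : ℂ := ∫ z in (0:ℝ)..Real.pi, star (x z) * h₀ z with hP
  refine ⟨P / I₀, ?_⟩
  have key : ∀ g : ℝ → ℂ, ContDiff ℝ ((⊤ : ℕ∞) : WithTop ℕ∞) g → tsupport g ⊆ Ioo 0 Real.pi →
      ∫ z in (0:ℝ)..Real.pi, star (x z) * g z =
        P / I₀ * ∫ z in (0:ℝ)..Real.pi, g z * em z := by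
    intro g hg hgs
    set J : ℂ := ∫ z in (0:ℝ)..Real.pi, g z * em z with hJ
    set h1 : ℝ → ℂ := fun s => g s - J / I₀ * h₀ s with hh1
    have ch1 : ContDiff ℝ ((⊤ : ℕ∞) : WithTop ℕ∞) h1 := hg.sub (contDiff_const.mul c0)
    have sh1 : tsupport h1 ⊆ Ioo 0 Real.pi := by
      refine (tsupport_sub g fun s => J / I₀ * h₀ s).trans (union_subset hgs ?_)
      exact (nf2b_tsup fun s h0 => by rw [h0, mul_zero]).trans s0
    have z1 : ∫ s in (0:ℝ)..Real.pi, h1 s * em s = 0 := by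
      have e : ∀ s, h1 s * em s = g s * em s - J / I₀ * (h₀ s * em s) := fun s => by
        simp only [hh1]
        ring
      simp only [e]
      rw [intervalIntegral.integral_sub, intervalIntegral.integral_const_mul, ← hJ, ← hI₀,
        div_mul_cancel₀ _ i0, sub_self]
      · exact (hg.continuous.mul cem).intervalIntegrable _ _
      · exact (continuous_const.mul (c0.continuous.mul cem)).intervalIntegrable _ _
    obtain ⟨χ, hχ, hχ2⟩ := exists_Tst n ch1 sh1 z1
    have h2 := h χ hχ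
    have h3 : tfk n χ = h1 := funext hχ2
    rw [h3, nf2b_inner x ch1.continuous] at h2
    have e : ∀ s, star (x s) * h1 s = star (x s) * g s - J / I₀ * (star (x s) * h₀ s) :=
      fun s => by
        simp only [hh1]
        ring
    simp only [e] at h2
    rw [intervalIntegral.integral_sub (nf2b_ii x hg.continuous)
      ((nf2b_ii x c0.continuous).const_mul _), intervalIntegral.integral_const_mul, ← hP,
      sub_eq_zero] at h2
    rw [h2]
    ring
  have hloc : ∀ᵐ z ∂(volume : Measure ℝ), z ∈ Ioo 0 Real.pi →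
      star (x z) - P / I₀ * em z = 0 := by
    refine isOpen_Ioo.ae_eq_zero_of_integral_contDiff_smul_eq_zero ?_ ?_
    · refine IntegrableOn.locallyIntegrableOn ?_
      have h1 := (nf2b_ii x (h := fun _ => 1) continuous_const).sub
        ((continuous_const.mul cem : Continuous fun z => P / I₀ * em z).intervalIntegrable
          0 Real.pi)
      simp only [mul_one] at h1
      rw [intervalIntegrable_iff_integrableOn_Ioo_of_le Real.pi_pos.le] at h1
      exact h1
    · intro g hg hgc hgs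
      have cg : ContDiff ℝ ((⊤ : ℕ∞) : WithTop ℕ∞) (fun s => ((g s : ℝ) : ℂ)) :=
        Complex.ofRealCLM.contDiff.comp hg
      have sg : tsupport (fun s => ((g s : ℝ) : ℂ)) ⊆ Ioo 0 Real.pi := by
        exact (nf2b_tsup fun s h0 => by rw [h0, Complex.ofReal_zero]).trans hgs
      have h1 := key _ cg sg
      have h2 : ∫ z, g z • (star (x z) - P / I₀ * em z) =
          ∫ z in (0:ℝ)..Real.pi, (star (x z) * ((g z : ℝ) : ℂ) -
            P / I₀ * (((g z : ℝ) : ℂ) * em z)) := by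
        rw [intervalIntegral.integral_of_le Real.pi_pos.le,
          ← setIntegral_eq_integral_of_forall_compl_eq_zero (s := Ioc 0 Real.pi)]
        · refine integral_congr_ae (Eventually.of_forall fun z => ?_)
          show g z • (star (x z) - P / I₀ * em z) = _
          rw [Complex.real_smul]
          ring
        · intro z hz
          have h3 : g z = 0 := image_eq_zero_of_notMem_tsupport fun h4 =>
            hz ⟨(hgs h4).1, (hgs h4).2.le⟩
          rw [h3, zero_smul]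
      rw [h2, intervalIntegral.integral_sub (nf2b_ii x cg.continuous), h1,
        intervalIntegral.integral_const_mul, sub_self]
      exact (continuous_const.mul (cg.continuous.mul cem)).intervalIntegrable _ _
  rw [ae_restrict_iff' measurableSet_Ioc]
  have h2 : ∀ᵐ z : ℝ, z ≠ Real.pi := by simp [ae_iff, measure_singleton]
  filter_upwards [hloc, h2] with z hz1 hz2 hz3
  exact sub_eq_zero.1 (hz1 ⟨hz3.1, lt_of_le_of_ne hz3.2 hz2⟩)

/-- One mode: an element of `Z2 π` in the range of `P2` which is orthogonal to all `iota (cI (tfk n χ))` is zero. Orthogonal to all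
`h` of `exists_Tst`; fix `h₀ ∈ C_c^∞(0,π)` with `∫ h₀ e^{-|n|s} = 1`; then `x - c e^{-|n|z}` is orthogonal to `C_c^∞(0,π)`
(`c` conjugate of `⟨x, h₀⟩`), so `x = c e^{-|n|z}`, and `P2 x = x` (orthogonal to `e^{-|n|z}`: `P2` removes this component) gives `x = 0`. -/
theorem mode_dense (n : ℤ) {x : Z2 Real.pi} (hx : P2 (om1 * n) x = x)
    (h : ∀ χ, Tst n χ → ⟪x, (iota (cI (tfk n χ)) : Z2 Real.pi)⟫_ℂ = 0) : x = 0 := by
  obtain ⟨lam, hlam⟩ := nf2b_ae n h
  have hom : om1 * (n : ℝ) = n := by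
    rw [om1, div_self Real.pi_ne_zero, one_mul]
  rw [hom] at hx
  have hxe : x = star lam • (iota (fe (-|(n : ℝ)|)) : Z2 Real.pi) := by
    apply Lp.ext
    filter_upwards [hlam, Lp.coeFn_smul (star lam) (iota (fe (-|(n : ℝ)|)) : Z2 Real.pi),
      coe_iota (fe (-|(n : ℝ)|) : CI Real.pi), ae_restrict_mem measurableSet_Ioc]
      with z h1 h2 h3 h4
    rw [h2, Pi.smul_apply, h3, ex_fe _ ⟨h4.1.le, h4.2⟩, smul_eq_mul]
    have h5 : x z = star (lam * Complex.exp (-((|(n : ℝ)| : ℝ) * z : ℂ))) := by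
      rw [← h1, star_star]
    rw [h5, star_mul']
    congr 1
    have h6 : Complex.exp (-((|(n : ℝ)| : ℝ) * z : ℂ)) =
        ((Real.exp (-|(n : ℝ)| * z) : ℝ) : ℂ) := by
      push_cast
      congr 1
      ring
    rw [h6]
    exact Complex.conj_ofReal _
  have hg : ⟪(gk (n : ℝ) : Z2 Real.pi), x⟫_ℂ = 0 := by
    have h1 := P2_range (n : ℝ) x
    rw [hx, sub_self] at h1
    have h2 := smul_eq_zero.1 h1.symm
    rcases h2 with h2 | h2
    · exact h2
    · exfalso
      have h3 := norm_gk (H := Real.pi) (n : ℝ)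
      rw [h2, norm_zero] at h3
      exact zero_ne_one h3
  have hr : (((‖(iota (fe (-|(n : ℝ)|)) : Z2 Real.pi)‖⁻¹ : ℝ) : ℂ)) ≠ 0 := by
    rw [Complex.ofReal_ne_zero]
    exact inv_ne_zero (norm_ne_zero_iff.2 (iota_fe_ne _))
  rw [hxe, gk, inner_smul_left, inner_smul_right, mul_eq_zero, mul_eq_zero] at hg
  rcases hg with hg | hg | hg
  · exact absurd ((map_eq_zero _).1 hg) hr
  · rw [hxe, hg, zero_smul]
  · exact absurd (inner_self_eq_zero.1 hg) (iota_fe_ne _)

/-- **Density.** A continuous linear functional which vanishes on all test elements vanishes on the range of `PP`. Riesz: `L f = ⟪x, f⟫`,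
`y = PP x` is orthogonal to the test elements (`PP` is selfadjoint: `adjP` of the `OD` structure or `inner_PP`, `PP_tf`), `mode_dense` for
`y n` (`lp.inner_single_right`), so `y = 0`, and `L f = ⟪x, PP f⟫ = ⟪PP x, f⟫ = 0`. -/
theorem tf_ext (L : HH Real.pi →L[ℂ] ℂ) (hL : ∀ n χ, Tst n χ → L (tf n χ) = 0) {f : HH Real.pi}
    (hf : PP om1 f = f) : L f = 0 := by
  set x : HH Real.pi := (InnerProductSpace.toDual ℂ (HH Real.pi)).symm L with hx
  have hxL : ∀ g : HH Real.pi, ⟪x, g⟫_ℂ = L g := fun g =>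
    InnerProductSpace.toDual_symm_apply
  have hy : PP om1 x = 0 := by
    ext1
    funext n
    show PP om1 x n = 0
    refine mode_dense n ?_ fun χ hχ => ?_
    · have h1 := PP_apply om1 (PP om1 x) n
      rw [PP_PP] at h1
      exact h1.symm
    · have h2 : ⟪PP om1 x, tf n χ⟫_ℂ = ⟪PP om1 x n, (iota (cI (tfk n χ)) : Z2 Real.pi)⟫_ℂ :=
        lp.inner_single_right (𝕜 := ℂ) n _ (PP om1 x)
      rw [← h2, inner_PP, PP_tf hχ, hxL, hL n χ hχ]
  rw [← hxL, ← hf, ← inner_PP, hy, inner_zero_left]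

end Pool.Agent.Lib.MP_79abb3_an.PD
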