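import Pool.Agent.Lib.MP_79abb3_an.PD.DefD

/-!
Theorem D (MP_79abb3_an): spaces of divergence free fields of a plane domain, given by stream functions.

Complexified velocity fields are pairs in `L²(ℂ)`. `gp ψ = ∇^⊥ ψ = (ψ_y, -ψ_x)`, `cu ψ = -Δψ` its vorticity.
`XD D`: the `L²` closure of the fields `gp ψ`, `ψ ∈ C_c^∞(ℂ)`, `dψ` supported in `D`; `VD D`: the `L²` closure of
the vorticities `cu ψ` (isometric to the `H¹₀` closure of the fields).
-/

set_option autoImplicit false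
set_option linter.unusedSectionVars false

open MeasureTheory Set Filter Topology Function
open scoped ENNReal InnerProductSpace

namespace Pool.Agent.Lib.MP_79abb3_an.PD

/-- complex valued square integrable functions of the plane -/
abbrev L2c : Type := Lp ℂ 2 (volume : Measure ℂ)

/-- complexified velocity fields -/
abbrev Y2 : Type := WithLp 2 (L2c × L2c)

/-- the class of a function in `L²`, `0` if it is not square integrable -/
noncomputable def cl2 (f : ℂ → ℂ) : L2c :=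
  open scoped Classical in if h : MemLp f 2 (volume : Measure ℂ) then h.toLp f else 0

theorem cl2_eq {f : ℂ → ℂ} (h : MemLp f 2 (volume : Measure ℂ)) : cl2 f = h.toLp f := dif_pos h

theorem cl2_coe {f : ℂ → ℂ} (h : MemLp f 2 (volume : Measure ℂ)) : (cl2 f : ℂ → ℂ) =ᵐ[volume] f := by
  rw [cl2_eq h]
  exact h.coeFn_toLp

theorem cl2_add {f g : ℂ → ℂ} (hf : MemLp f 2 (volume : Measure ℂ))
    (hg : MemLp g 2 (volume : Measure ℂ)) : cl2 (fun x => f x + g x) = cl2 f + cl2 g := by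
  have h : MemLp (fun x => f x + g x) 2 (volume : Measure ℂ) := hf.add hg
  rw [cl2_eq hf, cl2_eq hg, cl2_eq h]; rfl

theorem cl2_smul (c : ℂ) {f : ℂ → ℂ} (hf : MemLp f 2 (volume : Measure ℂ)) :
    cl2 (fun x => c * f x) = c • cl2 f := by
  have h : MemLp (fun x => c * f x) 2 (volume : Measure ℂ) := hf.const_mul c
  rw [cl2_eq hf, cl2_eq h]; rfl

/-- infinitely differentiable functions of the plane -/
def Smo (f : ℂ → ℂ) : Prop := ContDiff ℝ ((⊤ : ℕ∞) : WithTop ℕ∞) f

/-- derivative in the direction `x` -/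
noncomputable def px (f : ℂ → ℂ) (x : ℂ) : ℂ := fderiv ℝ f x 1
/-- derivative in the direction `y` -/
noncomputable def py (f : ℂ → ℂ) (x : ℂ) : ℂ := fderiv ℝ f x Complex.I
/-- the Laplacian -/
noncomputable def lap (f : ℂ → ℂ) (x : ℂ) : ℂ := px (px f) x + py (py f) x

theorem Smo.differentiable {f : ℂ → ℂ} (h : Smo f) : Differentiable ℝ f :=
  ContDiff.differentiable h (by norm_num)

theorem Smo.dir {f : ℂ → ℂ} (h : Smo f) (e : ℂ) : Smo fun x => fderiv ℝ f x e := by
  have h1 : ContDiff ℝ ((⊤ : ℕ∞) : WithTop ℕ∞) (fderiv ℝ f) :=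
    ContDiff.fderiv_right h (by exact_mod_cast le_top)
  exact h1.clm_apply contDiff_const

theorem Smo.px {f : ℂ → ℂ} (h : Smo f) : Smo (px f) := h.dir 1
theorem Smo.py {f : ℂ → ℂ} (h : Smo f) : Smo (py f) := h.dir Complex.I
theorem Smo.add {f g : ℂ → ℂ} (hf : Smo f) (hg : Smo g) : Smo fun x => f x + g x := ContDiff.add hf hg
theorem Smo.mul {f g : ℂ → ℂ} (hf : Smo f) (hg : Smo g) : Smo fun x => f x * g x := ContDiff.mul hf hg
theorem Smo.neg {f : ℂ → ℂ} (hf : Smo f) : Smo fun x => -f x := ContDiff.neg hf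
theorem Smo.const (c : ℂ) : Smo fun _ => c := contDiff_const
theorem Smo.continuous {f : ℂ → ℂ} (h : Smo f) : Continuous f := ContDiff.continuous h
theorem Smo.lap {f : ℂ → ℂ} (h : Smo f) : Smo (lap f) := h.px.px.add h.py.py

theorem px_add {f g : ℂ → ℂ} (hf : Smo f) (hg : Smo g) (x : ℂ) :
    px (fun x => f x + g x) x = px f x + px g x := by
  unfold px
  rw [fderiv_fun_add (hf.differentiable x) (hg.differentiable x)]; rfl

theorem py_add {f g : ℂ → ℂ} (hf : Smo f) (hg : Smo g) (x : ℂ) :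
    py (fun x => f x + g x) x = py f x + py g x := by
  unfold py
  rw [fderiv_fun_add (hf.differentiable x) (hg.differentiable x)]; rfl

theorem px_cmul (c : ℂ) {f : ℂ → ℂ} (hf : Smo f) (x : ℂ) : px (fun x => c * f x) x = c * px f x := by
  unfold px
  rw [fderiv_const_mul (hf.differentiable x)]; rfl

theorem py_cmul (c : ℂ) {f : ℂ → ℂ} (hf : Smo f) (x : ℂ) : py (fun x => c * f x) x = c * py f x := by
  unfold py
  rw [fderiv_const_mul (hf.differentiable x)]; rfl

theorem lap_add {f g : ℂ → ℂ} (hf : Smo f) (hg : Smo g) (x : ℂ) :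
    lap (fun x => f x + g x) x = lap f x + lap g x := by
  have e1 : px (fun x => f x + g x) = fun x => px f x + px g x := funext (px_add hf hg)
  have e2 : py (fun x => f x + g x) = fun x => py f x + py g x := funext (py_add hf hg)
  unfold lap
  rw [e1, e2, px_add hf.px hg.px, py_add hf.py hg.py]
  ring

theorem lap_cmul (c : ℂ) {f : ℂ → ℂ} (hf : Smo f) (x : ℂ) :
    lap (fun x => c * f x) x = c * lap f x := by
  have e1 : px (fun x => c * f x) = fun x => c * px f x := funext (px_cmul c hf)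
  have e2 : py (fun x => c * f x) = fun x => c * py f x := funext (py_cmul c hf)
  unfold lap
  rw [e1, e2, px_cmul c hf.px, py_cmul c hf.py]
  ring

/-- smooth functions with compact support -/
structure Cc (f : ℂ → ℂ) : Prop where
  smo : Smo f
  cpt : HasCompactSupport f

theorem Cc.px {f : ℂ → ℂ} (h : Cc f) : Cc (px f) := ⟨h.smo.px, h.cpt.fderiv_apply ℝ 1⟩
theorem Cc.py {f : ℂ → ℂ} (h : Cc f) : Cc (py f) := ⟨h.smo.py, h.cpt.fderiv_apply ℝ Complex.I⟩
theorem Cc.add {f g : ℂ → ℂ} (hf : Cc f) (hg : Cc g) : Cc fun x => f x + g x :=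
  ⟨hf.smo.add hg.smo, hf.cpt.add hg.cpt⟩
theorem Cc.cmul (c : ℂ) {f : ℂ → ℂ} (hf : Cc f) : Cc fun x => c * f x :=
  ⟨(Smo.const c).mul hf.smo, hf.cpt.mul_left⟩
theorem Cc.mul_smo {f g : ℂ → ℂ} (hf : Cc f) (hg : Smo g) : Cc fun x => f x * g x :=
  ⟨hf.smo.mul hg, hf.cpt.mul_right⟩
theorem Cc.neg {f : ℂ → ℂ} (hf : Cc f) : Cc fun x => -f x := ⟨hf.smo.neg, hf.cpt.neg⟩
theorem Cc.lap {f : ℂ → ℂ} (h : Cc f) : Cc (lap f) := h.px.px.add h.py.py
theorem Cc.memLp {f : ℂ → ℂ} (h : Cc f) (p : ℝ≥0∞) : MemLp f p (volume : Measure ℂ) :=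
  h.smo.continuous.memLp_of_hasCompactSupport h.cpt
theorem Cc.integrable {f : ℂ → ℂ} (h : Cc f) : Integrable f :=
  h.smo.continuous.integrable_of_hasCompactSupport h.cpt

/-- The stream functions of `D`: smooth with compact support, `dψ` is supported in `D`. -/
def Adm (D : Set ℂ) : Submodule ℂ (ℂ → ℂ) where
  carrier := {ψ | Cc ψ ∧ tsupport (fderiv ℝ ψ) ⊆ D}
  zero_mem' := by
    refine ⟨⟨contDiff_const, HasCompactSupport.zero⟩, ?_⟩
    have h : fderiv ℝ (0 : ℂ → ℂ) = 0 := by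
      funext x
      exact fderiv_const_apply (0 : ℂ)
    rw [h, tsupport_zero]
    exact empty_subset _
  add_mem' := by
    rintro f g ⟨hf, hf'⟩ ⟨hg, hg'⟩
    refine ⟨hf.add hg, ?_⟩
    have h : fderiv ℝ (f + g) = fderiv ℝ f + fderiv ℝ g := by
      funext x
      exact fderiv_add (hf.smo.differentiable x) (hg.smo.differentiable x)
    rw [h]
    exact (tsupport_add _ _).trans (union_subset hf' hg')
  smul_mem' := by
    rintro c f ⟨hf, hf'⟩
    refine ⟨hf.cmul c, ?_⟩
    have h : fderiv ℝ (c • f) = c • fderiv ℝ f := by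
      funext x
      exact fderiv_const_smul (hf.smo.differentiable x) c
    rw [h]
    exact (tsupport_smul_subset_right (fun _ => c) (fderiv ℝ f)).trans hf'

theorem Adm.cc {D : Set ℂ} (ψ : Adm D) : Cc (ψ : ℂ → ℂ) := ψ.2.1

theorem Adm.supp {D : Set ℂ} (ψ : Adm D) : tsupport (fderiv ℝ (ψ : ℂ → ℂ)) ⊆ D := ψ.2.2

/-- The velocity field `∇^⊥ ψ = (ψ_y, -ψ_x)`. -/
noncomputable def gp (ψ : ℂ → ℂ) : Y2 := WithLp.toLp 2 (cl2 (py ψ), -cl2 (px ψ))

/-- The vorticity `-Δψ`. -/
noncomputable def cu (ψ : ℂ → ℂ) : L2c := -cl2 (lap ψ)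

theorem gp_add {f g : ℂ → ℂ} (hf : Cc f) (hg : Cc g) : gp (fun x => f x + g x) = gp f + gp g := by
  have e1 : px (fun x => f x + g x) = fun x => px f x + px g x := funext (px_add hf.smo hg.smo)
  have e2 : py (fun x => f x + g x) = fun x => py f x + py g x := funext (py_add hf.smo hg.smo)
  unfold gp
  rw [e1, e2, cl2_add (hf.px.memLp 2) (hg.px.memLp 2), cl2_add (hf.py.memLp 2) (hg.py.memLp 2),
    ← WithLp.toLp_add]
  congr 1
  ext1
  · rfl
  · show -(cl2 (px f) + cl2 (px g)) = -cl2 (px f) + -cl2 (px g)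
    abel

theorem gp_cmul (c : ℂ) {f : ℂ → ℂ} (hf : Cc f) : gp (fun x => c * f x) = c • gp f := by
  have e1 : px (fun x => c * f x) = fun x => c * px f x := funext (px_cmul c hf.smo)
  have e2 : py (fun x => c * f x) = fun x => c * py f x := funext (py_cmul c hf.smo)
  unfold gp
  rw [e1, e2, cl2_smul c (hf.px.memLp 2), cl2_smul c (hf.py.memLp 2), ← WithLp.toLp_smul]
  congr 1
  ext1
  · rfl
  · show -(c • cl2 (px f)) = c • -cl2 (px f)
    rw [smul_neg]

theorem cu_add {f g : ℂ → ℂ} (hf : Cc f) (hg : Cc g) : cu (fun x => f x + g x) = cu f + cu g := by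
  have e1 : lap (fun x => f x + g x) = fun x => lap f x + lap g x := funext (lap_add hf.smo hg.smo)
  unfold cu
  rw [e1, cl2_add (hf.lap.memLp 2) (hg.lap.memLp 2)]
  abel

theorem cu_cmul (c : ℂ) {f : ℂ → ℂ} (hf : Cc f) : cu (fun x => c * f x) = c • cu f := by
  have e1 : lap (fun x => c * f x) = fun x => c * lap f x := funext (lap_cmul c hf.smo)
  unfold cu
  rw [e1, cl2_smul c (hf.lap.memLp 2), smul_neg]

/-- `ψ ↦ ∇^⊥ ψ` as a linear map -/
noncomputable def gpL (D : Set ℂ) : Adm D →ₗ[ℂ] Y2 where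
  toFun ψ := gp ψ
  map_add' f g := gp_add (Adm.cc f) (Adm.cc g)
  map_smul' c f := gp_cmul c (Adm.cc f)

/-- `ψ ↦ -Δψ` as a linear map -/
noncomputable def cuL (D : Set ℂ) : Adm D →ₗ[ℂ] L2c where
  toFun ψ := cu ψ
  map_add' f g := cu_add (Adm.cc f) (Adm.cc g)
  map_smul' c f := cu_cmul c (Adm.cc f)

/-- The space of divergence free `L²` fields of `D`. -/
noncomputable abbrev XD (D : Set ℂ) : Submodule ℂ Y2 := (LinearMap.range (gpL D)).topologicalClosure

/-- The space of the vorticities of divergence free `H¹₀` fields of `D`. -/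
noncomputable abbrev VD (D : Set ℂ) : Submodule ℂ L2c := (LinearMap.range (cuL D)).topologicalClosure

/-- `∇^⊥ ψ` in `XD D` -/
noncomputable def gpX (D : Set ℂ) : Adm D →ₗ[ℂ] XD D :=
  (gpL D).codRestrict (XD D) fun ψ => Submodule.le_topologicalClosure _ (LinearMap.mem_range_self _ ψ)

/-- `-Δψ` in `VD D` -/
noncomputable def cuV (D : Set ℂ) : Adm D →ₗ[ℂ] VD D :=
  (cuL D).codRestrict (VD D) fun ψ => Submodule.le_topologicalClosure _ (LinearMap.mem_range_self _ ψ)

theorem gpX_coe {D : Set ℂ} (ψ : Adm D) : ((gpX D ψ : XD D) : Y2) = gp ψ := rfl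

theorem cuV_coe {D : Set ℂ} (ψ : Adm D) : ((cuV D ψ : VD D) : L2c) = cu ψ := rfl

theorem gpX_dense (D : Set ℂ) : DenseRange (gpX D) := by
  intro x
  rw [closure_subtype]
  have h : ((↑) '' range (gpX D) : Set Y2) = (LinearMap.range (gpL D) : Set Y2) := by
    ext y
    constructor
    · rintro ⟨_, ⟨ψ, rfl⟩, rfl⟩
      exact ⟨ψ, rfl⟩
    · rintro ⟨ψ, rfl⟩
      exact ⟨_, ⟨ψ, rfl⟩, rfl⟩
  rw [h]
  exact x.2

theorem cuV_dense (D : Set ℂ) : DenseRange (cuV D) := by
  intro x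
  rw [closure_subtype]
  have h : ((↑) '' range (cuV D) : Set L2c) = (LinearMap.range (cuL D) : Set L2c) := by
    ext y
    constructor
    · rintro ⟨_, ⟨ψ, rfl⟩, rfl⟩
      exact ⟨ψ, rfl⟩
    · rintro ⟨ψ, rfl⟩
      exact ⟨_, ⟨ψ, rfl⟩, rfl⟩
  rw [h]
  exact x.2

/-- The embedding of the vorticities into the velocities (the Biot and Savart operator of `D`). -/
noncomputable def iot (D : Set ℂ) : VD D →L[ℂ] XD D := (gpX D).extendOfNorm (cuV D)

/-- The inverse of the Stokes operator. -/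
noncomputable def KD (D : Set ℂ) : XD D →L[ℂ] XD D := (iot D) ∘L (iot D).adjoint

end Pool.Agent.Lib.MP_79abb3_an.PD
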