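import Pool.Agent.Lib.MP_79abb3_an.PD.AbFD
import Pool.Agent.Lib.MP_79abb3_an.PD.SpA

/-!
Theorem D, block S: calculus of `C_c^∞` functions of the plane (integration by parts, conjugation).
-/

set_option autoImplicit false
set_option linter.unusedSectionVars false

open MeasureTheory Set Filter Topology Function
open scoped ENNReal InnerProductSpace

namespace Pool.Agent.Lib.MP_79abb3_an.PD

open Pool.Agent.Lib.MP_79abb3_an.SC

instance fact_one_le_four : Fact ((1 : ℝ≥0∞) ≤ 4) := ⟨by norm_num⟩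

/-- complex valued `L⁴` functions of the plane -/
abbrev L4c : Type := Lp ℂ 4 (volume : Measure ℂ)

/-- the class of a function in `L⁴`, `0` if it is not in `L⁴` -/
noncomputable def cl4 (f : ℂ → ℂ) : L4c :=
  open scoped Classical in if h : MemLp f 4 (volume : Measure ℂ) then h.toLp f else 0

theorem cl4_eq {f : ℂ → ℂ} (h : MemLp f 4 (volume : Measure ℂ)) : cl4 f = h.toLp f := dif_pos h

theorem cl4_coe {f : ℂ → ℂ} (h : MemLp f 4 (volume : Measure ℂ)) : (cl4 f : ℂ → ℂ) =ᵐ[volume] f := by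
  rw [cl4_eq h]
  exact h.coeFn_toLp

theorem cl4_add {f g : ℂ → ℂ} (hf : MemLp f 4 (volume : Measure ℂ))
    (hg : MemLp g 4 (volume : Measure ℂ)) : cl4 (fun x => f x + g x) = cl4 f + cl4 g := by
  have h : MemLp (fun x => f x + g x) 4 (volume : Measure ℂ) := hf.add hg
  rw [cl4_eq hf, cl4_eq hg, cl4_eq h]; rfl

theorem cl4_smul (c : ℂ) {f : ℂ → ℂ} (hf : MemLp f 4 (volume : Measure ℂ)) :
    cl4 (fun x => c * f x) = c • cl4 f := by
  have h : MemLp (fun x => c * f x) 4 (volume : Measure ℂ) := hf.const_mul c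
  rw [cl4_eq hf, cl4_eq h]; rfl

section
variable {f g : ℂ → ℂ}

private theorem spBa_inner (h : Cc f) (h' : Cc g) :
    ⟪cl2 f, cl2 g⟫_ℂ = ∫ x, (starRingEnd ℂ) (f x) * g x := by
  rw [L2.inner_def]
  refine integral_congr_ae ?_
  filter_upwards [cl2_coe (h.memLp 2), cl2_coe (h'.memLp 2)] with x h1 h2
  rw [h1, h2, RCLike.inner_apply, mul_comm]

theorem Cc.norm_sq (h : Cc f) : ‖cl2 f‖ ^ 2 = ∫ x, ‖f x‖ ^ 2 := by
  have h1 := spBa_inner h h
  rw [inner_self_eq_norm_sq_to_K] at h1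
  have h2 : ∀ x, (starRingEnd ℂ) (f x) * f x = ((‖f x‖ ^ 2 : ℝ) : ℂ) := fun x => by
    rw [Complex.conj_mul']
    push_cast
    rfl
  simp_rw [h2] at h1
  rw [integral_complex_ofReal] at h1
  have h3 : ((‖cl2 f‖ ^ 2 : ℝ) : ℂ) = ((∫ x, ‖f x‖ ^ 2 : ℝ) : ℂ) := by
    rw [← h1]
    push_cast
    rfl
  exact Complex.ofReal_injective h3

/-- Proof: `L2.inner_def`, `cl2_coe`. -/
theorem Cc.inner (h : Cc f) (h' : Cc g) : ⟪cl2 f, cl2 g⟫_ℂ = ∫ x, (starRingEnd ℂ) (f x) * g x :=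
  spBa_inner h h'

private theorem spBa_dir (h : Smo f) (e : ℂ) (x : ℂ) :
    HasFDerivAt (fun y => fderiv ℝ f y e) ((fderiv ℝ (fderiv ℝ f) x).flip e) x := by
  have h1 : ContDiff ℝ ((⊤ : ℕ∞) : WithTop ℕ∞) (fderiv ℝ f) :=
    ContDiff.fderiv_right h (by exact_mod_cast le_top)
  have h2 : Differentiable ℝ (fderiv ℝ f) := h1.differentiable (by norm_num)
  have h3 := (h2 x).hasFDerivAt.clm_apply (hasFDerivAt_const e x)
  simpa using h3

/-- The derivatives commute. Proof: `ContDiffAt.isSymmSndFDerivAt` or `second_derivative_symmetric`. -/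
theorem Smo.pxy (h : Smo f) : PD.px (PD.py f) = PD.py (PD.px f) := by
  funext x
  have h1 : PD.px (PD.py f) x = fderiv ℝ (fderiv ℝ f) x 1 Complex.I := by
    show fderiv ℝ (fun y => fderiv ℝ f y Complex.I) x 1 = _
    rw [(spBa_dir h Complex.I x).fderiv]
    rfl
  have h2 : PD.py (PD.px f) x = fderiv ℝ (fderiv ℝ f) x Complex.I 1 := by
    show fderiv ℝ (fun y => fderiv ℝ f y 1) x Complex.I = _
    rw [(spBa_dir h 1 x).fderiv]
    rfl
  have h3 : IsSymmSndFDerivAt ℝ f x := by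
    refine ContDiffAt.isSymmSndFDerivAt (ContDiff.contDiffAt h) ?_
    rw [minSmoothness_of_isRCLikeNormedField]
    show ((2 : ℕ∞) : WithTop ℕ∞) ≤ ((⊤ : ℕ∞) : WithTop ℕ∞)
    exact WithTop.coe_le_coe.2 le_top
  rw [h1, h2, h3.eq]

/-- Integration by parts. Proof: `integral_mul_fderiv_eq_neg_fderiv_mul_of_integrable` (or
`integral_bilinear_hasLineDerivAt_right_eq_neg_left_of_integrable`). -/
theorem Cc.ibpx (h : Cc f) (h' : Cc g) : ∫ x, PD.px f x * g x = -∫ x, f x * PD.px g x := by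
  have h1 := integral_mul_fderiv_eq_neg_fderiv_mul_of_integrable (μ := (volume : Measure ℂ))
    (v := (1 : ℂ)) (h.px.mul_smo h'.smo).integrable (h.mul_smo h'.smo.px).integrable
    (h.mul_smo h'.smo).integrable (fun x _ => h.smo.differentiable x)
    (fun x _ => h'.smo.differentiable x)
  exact (neg_eq_iff_eq_neg.2 h1).symm
theorem Cc.ibpy (h : Cc f) (h' : Cc g) : ∫ x, PD.py f x * g x = -∫ x, f x * PD.py g x := by
  have h1 := integral_mul_fderiv_eq_neg_fderiv_mul_of_integrable (μ := (volume : Measure ℂ))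
    (v := Complex.I) (h.py.mul_smo h'.smo).integrable (h.mul_smo h'.smo.py).integrable
    (h.mul_smo h'.smo).integrable (fun x _ => h.smo.differentiable x)
    (fun x _ => h'.smo.differentiable x)
  exact (neg_eq_iff_eq_neg.2 h1).symm

private theorem spBa_conj (h : Smo f) : Smo (fun x => (starRingEnd ℂ) (f x)) :=
  Complex.conjCLE.contDiff.comp h

private theorem spBa_fderiv (h : Smo f) (e x : ℂ) :
    fderiv ℝ (fun x => (starRingEnd ℂ) (f x)) x e = (starRingEnd ℂ) (fderiv ℝ f x e) := by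
  have h1 : HasFDerivAt (fun x => (starRingEnd ℂ) (f x))
      ((Complex.conjCLE : ℂ →L[ℝ] ℂ) ∘L fderiv ℝ f x) x :=
    (Complex.conjCLE : ℂ →L[ℝ] ℂ).hasFDerivAt.comp x (h.differentiable x).hasFDerivAt
  rw [h1.fderiv]
  rfl

/-- complex conjugate of a test function -/
theorem Cc.conj (h : Cc f) : Cc (fun x => (starRingEnd ℂ) (f x)) :=
  ⟨spBa_conj h.smo, h.cpt.comp_left (map_zero _)⟩
theorem Smo.px_conj (h : Smo f) : PD.px (fun x => (starRingEnd ℂ) (f x)) =
    fun x => (starRingEnd ℂ) (PD.px f x) :=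
  funext fun x => spBa_fderiv h 1 x
theorem Smo.py_conj (h : Smo f) : PD.py (fun x => (starRingEnd ℂ) (f x)) =
    fun x => (starRingEnd ℂ) (PD.py f x) :=
  funext fun x => spBa_fderiv h Complex.I x

end

end Pool.Agent.Lib.MP_79abb3_an.PD
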