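import Pool.Agent.Lib.MP_79abb3_an.PD.DefD
import Pool.Agent.Lib.MP_79abb3_an.PD.SpBa
import Pool.Agent.Lib.MP_79abb3_an.PD.NF1a

/-!
Theorem D (MP_79abb3_an), block N: collars: the conformal coordinates `x = F(exp(i(y+iz)))`.
-/

set_option autoImplicit false
set_option linter.unusedSectionVars false

open MeasureTheory Set Filter Topology Function
open scoped ENNReal InnerProductSpace

namespace Pool.Agent.Lib.MP_79abb3_an.PD

/-- `ξ = exp(i(y+iz))`, `|ξ| = e^{-z}` -/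
noncomputable def xi (p : ℝ × ℝ) : ℂ := Complex.exp (Complex.I * ((p.1 : ℂ) + Complex.I * (p.2 : ℂ)))

/-- `Φ(y,z) = F(ξ)` -/
noncomputable def Ph (F : ℂ → ℂ) (p : ℝ × ℝ) : ℂ := F (xi p)

/-- the conformal factor `|∂_y Φ|²` -/
noncomputable def JF (F : ℂ → ℂ) (p : ℝ × ℝ) : ℝ := ‖dyc (Ph F) p‖ ^ 2

variable {D : Set ℂ} {ρ : ℝ} {F : ℂ → ℂ}

private noncomputable def nf3a_L : ℝ × ℝ →L[ℝ] ℂ :=
  Complex.I • (Complex.ofRealCLM.comp (ContinuousLinearMap.fst ℝ ℝ ℝ) +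
    Complex.I • Complex.ofRealCLM.comp (ContinuousLinearMap.snd ℝ ℝ ℝ))

private theorem nf3a_L_apply (v : ℝ × ℝ) : nf3a_L v = Complex.I * ((v.1 : ℂ) + Complex.I * (v.2 : ℂ)) := rfl

private theorem nf3a_hd (p : ℝ × ℝ) : HasFDerivAt xi (xi p • nf3a_L) p := by
  have h := (nf3a_L.hasFDerivAt (x := p)).cexp
  exact h

theorem norm_xi (p : ℝ × ℝ) : ‖xi p‖ = Real.exp (-p.2) := by
  unfold xi
  rw [Complex.norm_exp]
  congr 1
  simp

theorem xi_smooth : ContDiff ℝ ((⊤ : ℕ∞) : WithTop ℕ∞) xi :=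
  nf3a_L.contDiff.cexp

theorem xi_per (y z : ℝ) : xi (y + 2 * Real.pi, z) = xi (y, z) := by
  unfold xi
  have e : Complex.I * (((y + 2 * Real.pi : ℝ) : ℂ) + Complex.I * (z : ℂ)) =
      Complex.I * ((y : ℂ) + Complex.I * (z : ℂ)) + 2 * Real.pi * Complex.I := by
    push_cast
    ring
  show Complex.exp (Complex.I * (((y + 2 * Real.pi : ℝ) : ℂ) + Complex.I * (z : ℂ))) = _
  rw [e, Complex.exp_add, Complex.exp_two_pi_mul_I, mul_one]

/-- every `ξ ≠ 0` is `xi (y, z)` with `y ∈ (-π, π]`, `z = -log |ξ|` -/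
theorem exists_xi {ξ : ℂ} (h : ξ ≠ 0) : ∃ y ∈ Ioc (-Real.pi) Real.pi, xi (y, -Real.log ‖ξ‖) = ξ := by
  refine ⟨Complex.arg ξ, Complex.arg_mem_Ioc ξ, ?_⟩
  have e : Complex.I * ((Complex.arg ξ : ℂ) + Complex.I * ((-Real.log ‖ξ‖ : ℝ) : ℂ)) = Complex.log ξ := by
    unfold Complex.log
    push_cast
    linear_combination (-(Real.log ‖ξ‖ : ℂ)) * Complex.I_mul_I
  show Complex.exp (Complex.I * ((Complex.arg ξ : ℂ) + Complex.I * ((-Real.log ‖ξ‖ : ℝ) : ℂ))) = ξ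
  rw [e, Complex.exp_log h]

/-- `xi` is injective on `(-π, π] × ℝ` -/
theorem xi_inj : InjOn xi (Ioc (-Real.pi) Real.pi ×ˢ univ) := by
  rintro ⟨y, z⟩ ⟨hy, -⟩ ⟨y', z'⟩ ⟨hy', -⟩ h
  have im : ∀ y z : ℝ, (Complex.I * ((y : ℂ) + Complex.I * (z : ℂ))).im = y := fun y z => by simp
  have h1 : Complex.I * ((y : ℂ) + Complex.I * (z : ℂ)) = Complex.I * ((y' : ℂ) + Complex.I * (z' : ℂ)) := by
    refine Complex.exp_inj_of_neg_pi_lt_of_le_pi ?_ ?_ ?_ ?_ h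
    · rw [im]; exact hy.1
    · rw [im]; exact hy.2
    · rw [im]; exact hy'.1
    · rw [im]; exact hy'.2
  have re : ∀ y z : ℝ, (Complex.I * ((y : ℂ) + Complex.I * (z : ℂ))).re = -z := fun y z => by simp
  have h2 := congrArg Complex.im h1
  have h3 := congrArg Complex.re h1
  rw [im, im] at h2
  rw [re, re] at h3
  rw [h2, neg_injective h3]

theorem Ph_pc (hF : IsCollar D ρ F) : PCn (Ph F) :=
  ⟨hF.smooth.comp xi_smooth, fun y z => by unfold Ph; rw [xi_per]⟩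

/-- `ψ ∘ Φ` is smooth and periodic -/
theorem comp_pc (hF : IsCollar D ρ F) {ψ : ℂ → ℂ} (hψ : Smo ψ) : PCn (fun p => ψ (Ph F p)) :=
  ⟨ContDiff.comp hψ (Ph_pc hF).smooth, fun y z => by rw [(Ph_pc hF).per]⟩

private theorem nf3a_lt (h0 : 0 < ρ) {p : ℝ × ℝ} (h2 : p.2 < -Real.log ρ) : ρ < ‖xi p‖ := by
  rw [norm_xi, ← Real.log_lt_iff_lt_exp h0]
  linarith

theorem xi_ring (h0 : 0 < ρ) {p : ℝ × ℝ} (h1 : 0 < p.2) (h2 : p.2 < -Real.log ρ) : xi p ∈ ring ρ :=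
  ⟨nf3a_lt h0 h2, by rw [norm_xi]; exact Real.exp_lt_one_iff.2 (neg_lt_zero.2 h1)⟩

theorem xi_ringc (h0 : 0 < ρ) {p : ℝ × ℝ} (h1 : 0 ≤ p.2) (h2 : p.2 < -Real.log ρ) : xi p ∈ ringc ρ :=
  ⟨nf3a_lt h0 h2, by rw [norm_xi]; exact Real.exp_le_one_iff.2 (neg_nonpos.2 h1)⟩

private theorem nf3a_dy (hF : IsCollar D ρ F) (p : ℝ × ℝ) :
    dyc (Ph F) p = fderiv ℝ F (xi p) (xi p * Complex.I) := by
  have h1 : HasFDerivAt F (fderiv ℝ F (xi p)) (xi p) :=
    (hF.smooth.differentiable (by norm_num) (xi p)).hasFDerivAt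
  have h2 : HasFDerivAt (Ph F) ((fderiv ℝ F (xi p)).comp (xi p • nf3a_L)) p := h1.comp p (nf3a_hd p)
  unfold dyc
  rw [h2.fderiv]
  show fderiv ℝ F (xi p) (xi p * nf3a_L (1, 0)) = _
  rw [nf3a_L_apply]
  congr 2
  simp

private theorem nf3a_dz (hF : IsCollar D ρ F) (p : ℝ × ℝ) :
    dzc (Ph F) p = fderiv ℝ F (xi p) (-xi p) := by
  have h1 : HasFDerivAt F (fderiv ℝ F (xi p)) (xi p) :=
    (hF.smooth.differentiable (by norm_num) (xi p)).hasFDerivAt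
  have h2 : HasFDerivAt (Ph F) ((fderiv ℝ F (xi p)).comp (xi p • nf3a_L)) p := h1.comp p (nf3a_hd p)
  unfold dzc
  rw [h2.fderiv]
  show fderiv ℝ F (xi p) (xi p * nf3a_L (0, 1)) = _
  rw [nf3a_L_apply]
  congr 1
  simp

private theorem nf3a_ring_open (ρ : ℝ) : IsOpen (ring ρ) :=
  (isOpen_lt continuous_const continuous_norm).inter (isOpen_lt continuous_norm continuous_const)

private theorem nf3a_cr (hF : IsCollar D ρ F) (h0 : 0 < ρ) {p : ℝ × ℝ} (h1 : 0 < p.2)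
    (h2 : p.2 < -Real.log ρ) : dzc (Ph F) p = Complex.I * dyc (Ph F) p := by
  have hd : DifferentiableAt ℂ F (xi p) :=
    hF.holo.differentiableAt ((nf3a_ring_open ρ).mem_nhds (xi_ring h0 h1 h2))
  have e : fderiv ℝ F (xi p) = (fderiv ℂ F (xi p)).restrictScalars ℝ := hd.fderiv_restrictScalars ℝ
  rw [nf3a_dy hF, nf3a_dz hF, e]
  show fderiv ℂ F (xi p) (-xi p) = Complex.I * fderiv ℂ F (xi p) (xi p * Complex.I)
  rw [← smul_eq_mul Complex.I (fderiv ℂ F (xi p) (xi p * Complex.I)), ← map_smul, smul_eq_mul]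
  congr 1
  linear_combination (-(xi p)) * Complex.I_mul_I

/-- `Φ` is a holomorphic function of `y + iz` for `0 < z < -log ρ`; for `z = 0` by continuity (`Ph_pc`). -/
theorem Ph_cr (hF : IsCollar D ρ F) (h0 : 0 < ρ) {p : ℝ × ℝ} (h1 : 0 ≤ p.2) (h2 : p.2 < -Real.log ρ) :
    dzc (Ph F) p = Complex.I * dyc (Ph F) p := by
  rcases h1.lt_or_eq with h | h
  · exact nf3a_cr hF h0 h h2
  · have hcl : IsClosed {p : ℝ × ℝ | dzc (Ph F) p = Complex.I * dyc (Ph F) p} :=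
      isClosed_eq (Ph_pc hF).dz.smooth.continuous (continuous_const.mul (Ph_pc hF).dy.smooth.continuous)
    have ht : Tendsto (fun t : ℝ => (p.1, t)) (𝓝[>] 0) (𝓝 (p.1, p.2)) := by
      rw [← h]
      have hc : Continuous fun t : ℝ => (p.1, t) := by fun_prop
      exact (hc.tendsto 0).mono_left nhdsWithin_le_nhds
    have hl : 0 < -Real.log ρ := h.trans_lt h2
    refine hcl.mem_of_tendsto ht ?_
    filter_upwards [Ioo_mem_nhdsGT hl] with t ht
    exact nf3a_cr hF h0 (p := (p.1, t)) ht.1 ht.2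

/-- `JF > 0`: if `dyc (Ph F) p = 0` then `dzc (Ph F) p = 0` (`Ph_cr`), so `fderiv F ξ` vanishes on `∂_y ξ = iξ`, `∂_z ξ = -ξ`, hence is
zero, against `IsCollar.der`. -/
theorem JF_pos (hF : IsCollar D ρ F) (h0 : 0 < ρ) {p : ℝ × ℝ} (h1 : 0 ≤ p.2) (h2 : p.2 < -Real.log ρ) :
    0 < JF F p := by
  have hne : dyc (Ph F) p ≠ 0 := by
    intro h
    have h3 := Ph_cr hF h0 h1 h2
    rw [h, mul_zero, nf3a_dz hF, map_neg, neg_eq_zero] at h3
    rw [nf3a_dy hF] at h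
    refine hF.der (xi p) (xi_ringc h0 h1 h2) (ContinuousLinearMap.ext fun v => ?_)
    have hx : xi p ≠ 0 := Complex.exp_ne_zero _
    have e : v = (v / xi p).re • xi p + (v / xi p).im • (xi p * Complex.I) := by
      have h4 : v = v / xi p * xi p := (div_mul_cancel₀ v hx).symm
      conv_lhs => rw [h4, ← Complex.re_add_im (v / xi p)]
      rw [Complex.real_smul, Complex.real_smul]
      ring
    rw [e, map_add, map_smul, map_smul, h3, h, smul_zero, smul_zero, add_zero]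
    rfl
  unfold JF
  exact pow_pos (norm_pos_iff.2 hne) 2

/-- `JF` is smooth and periodic (as a complex valued function) -/
theorem JF_pc (hF : IsCollar D ρ F) : PCn (fun p => (JF F p : ℂ)) := by
  have h := (Ph_pc hF).dy.mul (Ph_pc hF).dy.conj
  have e : (fun p => (JF F p : ℂ)) = fun p => dyc (Ph F) p * (starRingEnd ℂ) (dyc (Ph F) p) := by
    funext p
    rw [Complex.mul_conj']
    unfold JF
    push_cast
    rfl
  rw [e]
  exact h

end Pool.Agent.Lib.MP_79abb3_an.PD
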