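import Pool.Agent.Lib.MP_79abb3_an.PD.NF3a
import Pool.Agent.Lib.MP_79abb3_an.PD.NF1b

/-!
Theorem D (MP_79abb3_an), block N: collars: change of variables.
-/

set_option autoImplicit false
set_option linter.unusedSectionVars false

open MeasureTheory Set Filter Topology Function
open scoped ENNReal InnerProductSpace

namespace Pool.Agent.Lib.MP_79abb3_an.PD

variable {D : Set ℂ} {ρ : ℝ} {F : ℂ → ℂ}

/-- the part of the ring with `a < z < b` -/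
def rg (a b : ℝ) : Set ℂ := {ξ | Real.exp (-b) < ‖ξ‖ ∧ ‖ξ‖ < Real.exp (-a)}

theorem rg_subset (h0 : 0 < ρ) {a b : ℝ} (ha : 0 ≤ a) (hb : b ≤ -Real.log ρ) : rg a b ⊆ ring ρ := by
  rintro ξ ⟨h1, h2⟩
  refine ⟨lt_of_le_of_lt ?_ h1, lt_of_lt_of_le h2 ?_⟩
  · calc ρ = Real.exp (Real.log ρ) := (Real.exp_log h0).symm
      _ ≤ Real.exp (-b) := Real.exp_le_exp.mpr (by linarith)
  · exact Real.exp_le_one_iff.mpr (by linarith)

private theorem nf3b_log {ξ : ℂ} {a b : ℝ} (h : ξ ∈ rg a b) : ξ ≠ 0 ∧ a < -Real.log ‖ξ‖ ∧ -Real.log ‖ξ‖ < b := by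
  have hpos : 0 < ‖ξ‖ := (Real.exp_pos _).trans h.1
  refine ⟨norm_pos_iff.mp hpos, ?_, ?_⟩
  · have := (Real.log_lt_iff_lt_exp hpos).mpr h.2
    linarith
  · have := (Real.lt_log_iff_exp_lt hpos).mpr h.1
    linarith

private theorem nf3b_xi {p : ℝ × ℝ} {a b : ℝ} (h1 : a < p.2) (h2 : p.2 < b) : xi p ∈ rg a b := by
  refine ⟨?_, ?_⟩
  · rw [norm_xi]; exact Real.exp_lt_exp.mpr (by linarith)
  · rw [norm_xi]; exact Real.exp_lt_exp.mpr (by linarith)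

private theorem nf3b_fd (hF : IsCollar D ρ F) (h0 : 0 < ρ) {p : ℝ × ℝ} (h1 : 0 ≤ p.2) (h2 : p.2 < -Real.log ρ)
    (v : ℝ × ℝ) : fderiv ℝ (Ph F) p v = dyc (Ph F) p * ((v.1 : ℂ) + Complex.I * (v.2 : ℂ)) := by
  have hv : v = v.1 • ((1, 0) : ℝ × ℝ) + v.2 • ((0, 1) : ℝ × ℝ) := by ext <;> simp
  have h3 : fderiv ℝ (Ph F) p v = v.1 • dyc (Ph F) p + v.2 • dzc (Ph F) p := by
    conv_lhs => rw [hv]
    rw [map_add, map_smul, map_smul]
    rfl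
  rw [h3, Ph_cr hF h0 h1 h2, Complex.real_smul, Complex.real_smul]
  ring

private theorem nf3b_open (hF : IsCollar D ρ F) (h0 : 0 < ρ) {U : Set (ℝ × ℝ)} (hU : IsOpen U)
    (hs : ∀ p ∈ U, 0 ≤ p.2 ∧ p.2 < -Real.log ρ) : IsOpen (Ph F '' U) := by
  rw [isOpen_iff_mem_nhds]
  rintro x ⟨p, hp, rfl⟩
  have hs1 := hs p hp
  have hsd : HasStrictFDerivAt (Ph F) (fderiv ℝ (Ph F) p) p :=
    (Ph_pc hF).smooth.contDiffAt.hasStrictFDerivAt (by simp)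
  have hne : dyc (Ph F) p ≠ 0 := by
    have := JF_pos hF h0 hs1.1 hs1.2
    unfold JF at this
    intro h4
    rw [h4] at this
    simp at this
  have hsurj : (fderiv ℝ (Ph F) p).range = ⊤ := by
    rw [LinearMap.range_eq_top]
    intro w
    refine ⟨((w / dyc (Ph F) p).re, (w / dyc (Ph F) p).im), ?_⟩
    show fderiv ℝ (Ph F) p _ = w
    rw [nf3b_fd hF h0 hs1.1 hs1.2]
    have h5 : (((w / dyc (Ph F) p).re : ℝ) : ℂ) + Complex.I * (((w / dyc (Ph F) p).im : ℝ) : ℂ) =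
        w / dyc (Ph F) p := by
      rw [mul_comm Complex.I]
      exact Complex.re_add_im _
    show dyc (Ph F) p * ((((w / dyc (Ph F) p).re : ℝ) : ℂ) + Complex.I * (((w / dyc (Ph F) p).im : ℝ) : ℂ)) = w
    rw [h5]
    field_simp
  have hmap := hsd.map_nhds_eq_of_surj hsurj
  rw [← hmap]
  exact image_mem_map (hU.mem_nhds hp)

private theorem nf3b_img {a b : ℝ} : F '' rg a b = Ph F '' (Ioc (-Real.pi) Real.pi ×ˢ Ioo a b) := by
  apply Subset.antisymm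
  · rintro x ⟨ξ, hξ, rfl⟩
    obtain ⟨h1, h2, h3⟩ := nf3b_log hξ
    obtain ⟨y, hy, hxi⟩ := exists_xi h1
    refine ⟨(y, -Real.log ‖ξ‖), ⟨hy, h2, h3⟩, ?_⟩
    unfold Ph
    rw [hxi]
  · rintro x ⟨p, hp, rfl⟩
    exact ⟨xi p, nf3b_xi hp.2.1 hp.2.2, rfl⟩

private theorem nf3b_img2 {a b : ℝ} : F '' rg a b = Ph F '' (univ ×ˢ Ioo a b) := by
  apply Subset.antisymm
  · rw [nf3b_img]
    exact image_mono (prod_mono (subset_univ _) subset_rfl)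
  · rintro x ⟨p, hp, rfl⟩
    exact ⟨xi p, nf3b_xi hp.2.1 hp.2.2, rfl⟩

/-- the image is open (injective holomorphic map with nonzero derivative: inverse function theorem, or the open mapping
theorem); measurable -/
theorem isOpen_rg (hF : IsCollar D ρ F) (h0 : 0 < ρ) {a b : ℝ} (ha : 0 ≤ a) (hb : b ≤ -Real.log ρ) :
    IsOpen (F '' rg a b) := by
  rw [nf3b_img2]
  refine nf3b_open hF h0 (isOpen_univ.prod isOpen_Ioo) fun p hp => ?_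
  exact ⟨ha.trans hp.2.1.le, lt_of_lt_of_le hp.2.2 hb⟩

private theorem nf3b_det (w : ℂ) : (ContinuousLinearMap.mul ℝ ℂ w).det = ‖w‖ ^ 2 := by
  have h1 : ((ContinuousLinearMap.mul ℝ ℂ w : ℂ →L[ℝ] ℂ) : ℂ →ₗ[ℝ] ℂ) = LinearMap.mul ℝ ℂ w := by
    ext; simp
  have h2 : Algebra.norm ℝ w = LinearMap.det (LinearMap.mul ℝ ℂ w) := rfl
  rw [ContinuousLinearMap.det, h1, ← h2, Algebra.norm_complex_apply, Complex.normSq_eq_norm_sq]

/-- `|det DΦ| = |∂_yΦ|²` (`Ph_cr`; the determinant of `v ↦ v₁ w + v₂ i w` is `|w|²`, as a map `ℝ × ℝ → ℂ` composed with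
`Complex.equivRealProdCLM` ). -/
theorem det_Ph (hF : IsCollar D ρ F) (h0 : 0 < ρ) {p : ℝ × ℝ} (h1 : 0 ≤ p.2) (h2 : p.2 < -Real.log ρ) :
    |((Complex.equivRealProdCLM : ℂ →L[ℝ] ℝ × ℝ) ∘L (fderiv ℝ (Ph F) p)).det| = JF F p := by
  have h3 : (((Complex.equivRealProdCLM : ℂ →L[ℝ] ℝ × ℝ) ∘L (fderiv ℝ (Ph F) p) : ℝ × ℝ →L[ℝ] ℝ × ℝ) :
      ℝ × ℝ →ₗ[ℝ] ℝ × ℝ) =
      (Complex.equivRealProdCLM.toLinearEquiv : ℂ →ₗ[ℝ] ℝ × ℝ) ∘ₗ
        ((ContinuousLinearMap.mul ℝ ℂ (dyc (Ph F) p) : ℂ →L[ℝ] ℂ) : ℂ →ₗ[ℝ] ℂ) ∘ₗ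
        (Complex.equivRealProdCLM.toLinearEquiv.symm : ℝ × ℝ →ₗ[ℝ] ℂ) := by
    apply LinearMap.ext
    intro v
    show Complex.equivRealProdCLM (fderiv ℝ (Ph F) p v) =
      Complex.equivRealProdCLM (dyc (Ph F) p * Complex.equivRealProdCLM.symm v)
    rw [nf3b_fd hF h0 h1 h2]
    congr 2
    apply Complex.ext <;> simp
  have h4 : ((Complex.equivRealProdCLM : ℂ →L[ℝ] ℝ × ℝ) ∘L (fderiv ℝ (Ph F) p)).det =
      (ContinuousLinearMap.mul ℝ ℂ (dyc (Ph F) p)).det := by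
    rw [ContinuousLinearMap.det, h3, LinearMap.det_conj, ContinuousLinearMap.det]
  rw [h4, nf3b_det, abs_of_nonneg (by positivity)]
  rfl

private theorem nf3b_coimg {a b : ℝ} : (fun ζ : ℂ => Ph F (ζ.re, ζ.im)) ''
    (Complex.measurableEquivRealProd ⁻¹' (Ioc (-Real.pi) Real.pi ×ˢ Ioo a b)) = F '' rg a b := by
  rw [nf3b_img]
  apply Subset.antisymm
  · rintro x ⟨ζ, hζ, rfl⟩
    exact ⟨(ζ.re, ζ.im), hζ, rfl⟩
  · rintro x ⟨q, hq, rfl⟩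
    exact ⟨⟨q.1, q.2⟩, hq, rfl⟩

private theorem nf3b_inj (hF : IsCollar D ρ F) (h0 : 0 < ρ) {a b : ℝ} (ha : 0 ≤ a) (hb : b ≤ -Real.log ρ) :
    InjOn (fun ζ : ℂ => Ph F (ζ.re, ζ.im))
      (Complex.measurableEquivRealProd ⁻¹' (Ioc (-Real.pi) Real.pi ×ˢ Ioo a b)) := by
  intro ζ hζ ζ' hζ' hh
  have k1 : xi (ζ.re, ζ.im) ∈ ringc ρ :=
    xi_ringc h0 (p := (ζ.re, ζ.im)) (ha.trans hζ.2.1.le) (lt_of_lt_of_le hζ.2.2 hb)
  have k2 : xi (ζ'.re, ζ'.im) ∈ ringc ρ :=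
    xi_ringc h0 (p := (ζ'.re, ζ'.im)) (ha.trans hζ'.2.1.le) (lt_of_lt_of_le hζ'.2.2 hb)
  have k3 : xi (ζ.re, ζ.im) = xi (ζ'.re, ζ'.im) := hF.inj k1 k2 hh
  have m1 : (ζ.re, ζ.im) ∈ Ioc (-Real.pi) Real.pi ×ˢ (univ : Set ℝ) := ⟨hζ.1, mem_univ _⟩
  have m2 : (ζ'.re, ζ'.im) ∈ Ioc (-Real.pi) Real.pi ×ˢ (univ : Set ℝ) := ⟨hζ'.1, mem_univ _⟩
  have := xi_inj m1 m2 k3
  rw [Prod.mk.injEq] at this
  exact Complex.ext this.1 this.2

private theorem nf3b_der (hF : IsCollar D ρ F) (h0 : 0 < ρ) {a b : ℝ} (ha : 0 ≤ a) (hb : b ≤ -Real.log ρ)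
    (ζ : ℂ) (hζ : ζ ∈ Complex.measurableEquivRealProd ⁻¹' (Ioc (-Real.pi) Real.pi ×ˢ Ioo a b)) :
    HasFDerivWithinAt (fun ζ : ℂ => Ph F (ζ.re, ζ.im))
      (ContinuousLinearMap.mul ℝ ℂ (dyc (Ph F) (ζ.re, ζ.im)))
      (Complex.measurableEquivRealProd ⁻¹' (Ioc (-Real.pi) Real.pi ×ˢ Ioo a b)) ζ := by
  apply HasFDerivAt.hasFDerivWithinAt
  have hX : HasFDerivAt (Ph F) (fderiv ℝ (Ph F) (Complex.equivRealProdCLM ζ)) (Complex.equivRealProdCLM ζ) :=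
    ((Ph_pc hF).smooth.differentiable (by simp) _).hasFDerivAt
  have h2 := hX.comp ζ Complex.equivRealProdCLM.hasFDerivAt
  refine h2.congr_fderiv ?_
  ext w
  have hz : 0 ≤ (Complex.equivRealProdCLM ζ).2 := ha.trans hζ.2.1.le
  have hz' : (Complex.equivRealProdCLM ζ).2 < -Real.log ρ := lt_of_lt_of_le hζ.2.2 hb
  show fderiv ℝ (Ph F) (Complex.equivRealProdCLM ζ) (Complex.equivRealProdCLM w) = _
  rw [nf3b_fd hF h0 hz hz']
  show dyc (Ph F) (ζ.re, ζ.im) * ((w.re : ℂ) + Complex.I * (w.im : ℂ)) = dyc (Ph F) (ζ.re, ζ.im) * w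
  rw [mul_comm Complex.I, Complex.re_add_im]

/-- **Change of variables.** `Φ` maps `(-π,π) × (a,b)` injectively onto `F '' rg a b` minus a null set (the image of a slit:
`addHaar_image_eq_zero_of_differentiableOn_of_addHaar_eq_zero`), with Jacobian `JF`
(`integral_image_eq_integral_abs_det_fderiv_smul` for `Complex.equivRealProd ∘ Φ`, `Complex.volume_preserving_equiv_real_prod`). -/
theorem int_rg {E : Type} [NormedAddCommGroup E] [NormedSpace ℝ E] (hF : IsCollar D ρ F) (h0 : 0 < ρ) {a b : ℝ}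
    (ha : 0 ≤ a) (hab : a < b) (hb : b ≤ -Real.log ρ) (g : ℂ → E) :
    ∫ x in F '' rg a b, g x = ∫ p in Ioo (-Real.pi) Real.pi ×ˢ Ioo a b, JF F p • g (Ph F p) := by
  have _ := hab
  have hS : MeasurableSet (Ioc (-Real.pi) Real.pi ×ˢ Ioo a b) := measurableSet_Ioc.prod measurableSet_Ioo
  have hm : MeasurableSet (Complex.measurableEquivRealProd ⁻¹' (Ioc (-Real.pi) Real.pi ×ˢ Ioo a b)) :=
    hS.preimage Complex.measurableEquivRealProd.measurable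
  rw [← nf3b_coimg, integral_image_eq_integral_abs_det_fderiv_smul volume hm (nf3b_der hF h0 ha hb)
    (nf3b_inj hF h0 ha hb) g]
  have h2 := (Complex.volume_preserving_equiv_real_prod).setIntegral_preimage_emb
    Complex.measurableEquivRealProd.measurableEmbedding
    (fun p => JF F p • g (Ph F p)) (Ioc (-Real.pi) Real.pi ×ˢ Ioo a b)
  have h3 : (Ioo (-Real.pi) Real.pi ×ˢ Ioo a b : Set (ℝ × ℝ)) =ᵐ[volume] (Ioc (-Real.pi) Real.pi ×ˢ Ioo a b) := by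
    rw [Measure.volume_eq_prod]
    exact Measure.set_prod_ae_eq Ioo_ae_eq_Ioc (Filter.EventuallyEq.refl _ _)
  rw [setIntegral_congr_set h3, ← h2]
  refine setIntegral_congr_fun hm fun ζ _ => ?_
  show |(ContinuousLinearMap.mul ℝ ℂ (dyc (Ph F) (ζ.re, ζ.im))).det| • g (Ph F (ζ.re, ζ.im)) = _
  rw [nf3b_det, abs_of_nonneg (by positivity)]
  rfl

/-- The form used later: a function `h` on the cell which is `JF • g ∘ Φ` for `a < z < b` and zero outside. -/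
theorem int_cell {E : Type} [NormedAddCommGroup E] [NormedSpace ℝ E] (hF : IsCollar D ρ F) (h0 : 0 < ρ) {a b : ℝ}
    (ha : 0 ≤ a) (hab : a < b) (hb : b ≤ -Real.log ρ) (hbp : b ≤ Real.pi) (g : ℂ → E) {h : ℝ × ℝ → E}
    (h1 : ∀ y z, a < z → z < b → h (y, z) = JF F (y, z) • g (Ph F (y, z)))
    (h2 : ∀ y z, 0 < z → z < Real.pi → z ≤ a ∨ b ≤ z → h (y, z) = 0) :
    ∫ p in cell, h p = ∫ x in F '' rg a b, g x := by
  have h3 : (cell : Set (ℝ × ℝ)) =ᵐ[volume] (Ioo (-Real.pi) Real.pi ×ˢ Ioo 0 Real.pi : Set (ℝ × ℝ)) := by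
    rw [Measure.volume_eq_prod]
    exact Measure.set_prod_ae_eq Ioo_ae_eq_Icc.symm Ioo_ae_eq_Icc.symm
  rw [int_rg hF h0 ha hab hb g, setIntegral_congr_set h3]
  have h4 : ∫ p in Ioo (-Real.pi) Real.pi ×ˢ Ioo 0 Real.pi, h p =
      ∫ p in Ioo (-Real.pi) Real.pi ×ˢ Ioo a b, h p := by
    refine setIntegral_eq_of_subset_of_forall_sdiff_eq_zero (measurableSet_Ioo.prod measurableSet_Ioo)
      (prod_mono subset_rfl (Ioo_subset_Ioo ha hbp)) ?_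
    rintro ⟨y, z⟩ ⟨⟨hy, hz⟩, hn⟩
    refine h2 y z hz.1 hz.2 ?_
    by_contra hcon
    push Not at hcon
    exact hn ⟨hy, hcon.1, hcon.2⟩
  rw [h4]
  refine setIntegral_congr_fun (measurableSet_Ioo.prod measurableSet_Ioo) ?_
  rintro ⟨y, z⟩ ⟨_, hz⟩
  exact h1 y z hz.1 hz.2

end Pool.Agent.Lib.MP_79abb3_an.PD
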