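import Pool.Agent.Lib.MP_79abb3_an.PD.NF3a
import Pool.Agent.Lib.MP_79abb3_an.PD.NF1d

/-!
Theorem D (MP_79abb3_an), block N: collars: gradient and Laplacian in conformal coordinates.
-/

set_option autoImplicit false
set_option linter.unusedSectionVars false

open MeasureTheory Set Filter Topology Function
open scoped ENNReal InnerProductSpace

namespace Pool.Agent.Lib.MP_79abb3_an.PD

variable {D : Set ℂ} {ρ : ℝ} {F : ℂ → ℂ}

private theorem nf3d_lin {ψ : ℂ → ℂ} (x w : ℂ) :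
    fderiv ℝ ψ x w = (w.re : ℂ) * px ψ x + (w.im : ℂ) * py ψ x := by
  have e : w = w.re • (1 : ℂ) + w.im • Complex.I := by
    rw [Complex.real_smul, Complex.real_smul, mul_one]
    exact (Complex.re_add_im w).symm
  conv_lhs => rw [e]
  rw [map_add, map_smul, map_smul, Complex.real_smul, Complex.real_smul]
  rfl

private theorem nf3d_comp (hF : IsCollar D ρ F) {ψ : ℂ → ℂ} (hψ : Smo ψ) (p v : ℝ × ℝ) :
    fderiv ℝ (fun p => ψ (Ph F p)) p v = ((fderiv ℝ (Ph F) p v).re : ℂ) * px ψ (Ph F p) +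
      ((fderiv ℝ (Ph F) p v).im : ℂ) * py ψ (Ph F p) := by
  have h1 : HasFDerivAt ψ (fderiv ℝ ψ (Ph F p)) (Ph F p) := (hψ.differentiable _).hasFDerivAt
  have h2 : HasFDerivAt (Ph F) (fderiv ℝ (Ph F) p) p :=
    ((Ph_pc hF).smooth.differentiable (by norm_num) p).hasFDerivAt
  have h3 : HasFDerivAt (fun p => ψ (Ph F p)) ((fderiv ℝ ψ (Ph F p)).comp (fderiv ℝ (Ph F) p)) p :=
    h1.comp p h2
  rw [h3.fderiv]
  exact nf3d_lin _ _

private theorem nf3d_par (a b : ℝ) (X Y : ℂ) :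
    ‖(a : ℂ) * X + (b : ℂ) * Y‖ ^ 2 + ‖((-b : ℝ) : ℂ) * X + (a : ℂ) * Y‖ ^ 2 =
      (a ^ 2 + b ^ 2) * (‖X‖ ^ 2 + ‖Y‖ ^ 2) := by
  simp only [Complex.sq_norm, Complex.normSq_apply, Complex.add_re, Complex.add_im, Complex.mul_re,
    Complex.mul_im, Complex.ofReal_re, Complex.ofReal_im]
  ring

private theorem nf3d_JF (p : ℝ × ℝ) : JF F p = (dyc (Ph F) p).re ^ 2 + (dyc (Ph F) p).im ^ 2 := by
  unfold JF
  rw [Complex.sq_norm, Complex.normSq_apply]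
  ring

/-- **Gradient.** With `∂_yΦ = a + ib`, `∂_zΦ = -b + ia`: `∂_y(ψ∘Φ) = a ψ_x + b ψ_y`, `∂_z(ψ∘Φ) = -b ψ_x + a ψ_y`. -/
theorem grad_Ph (hF : IsCollar D ρ F) (h0 : 0 < ρ) {ψ : ℂ → ℂ} (hψ : Smo ψ) {p : ℝ × ℝ} (h1 : 0 ≤ p.2)
    (h2 : p.2 < -Real.log ρ) :
    ‖dyc (fun p => ψ (Ph F p)) p‖ ^ 2 + ‖dzc (fun p => ψ (Ph F p)) p‖ ^ 2 =
      JF F p * (‖px ψ (Ph F p)‖ ^ 2 + ‖py ψ (Ph F p)‖ ^ 2) := by
  have hcr := Ph_cr hF h0 h1 h2
  have e1 : dyc (fun p => ψ (Ph F p)) p = ((dyc (Ph F) p).re : ℂ) * px ψ (Ph F p) +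
      ((dyc (Ph F) p).im : ℂ) * py ψ (Ph F p) := nf3d_comp hF hψ p (1, 0)
  have e2 : dzc (fun p => ψ (Ph F p)) p = ((dzc (Ph F) p).re : ℂ) * px ψ (Ph F p) +
      ((dzc (Ph F) p).im : ℂ) * py ψ (Ph F p) := nf3d_comp hF hψ p (0, 1)
  have r1 : (dzc (Ph F) p).re = -(dyc (Ph F) p).im := by rw [hcr]; simp
  have r2 : (dzc (Ph F) p).im = (dyc (Ph F) p).re := by rw [hcr]; simp
  rw [e1, e2, r1, r2, nf3d_par, nf3d_JF]

/-- the second derivatives in the direction `v` -/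
private theorem nf3d_snd (hF : IsCollar D ρ F) {ψ : ℂ → ℂ} (hψ : Smo ψ) {G : ℝ × ℝ → ℂ}
    (hG : Differentiable ℝ G) (p v : ℝ × ℝ) :
    fderiv ℝ (fun p => ((G p).re : ℂ) * px ψ (Ph F p) + ((G p).im : ℂ) * py ψ (Ph F p)) p v =
      ((fderiv ℝ G p v).re : ℂ) * px ψ (Ph F p) + ((fderiv ℝ G p v).im : ℂ) * py ψ (Ph F p) +
      (((G p).re : ℂ) * (((fderiv ℝ (Ph F) p v).re : ℂ) * px (px ψ) (Ph F p) +
        ((fderiv ℝ (Ph F) p v).im : ℂ) * py (px ψ) (Ph F p)) +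
      ((G p).im : ℂ) * (((fderiv ℝ (Ph F) p v).re : ℂ) * px (py ψ) (Ph F p) +
        ((fderiv ℝ (Ph F) p v).im : ℂ) * py (py ψ) (Ph F p))) := by
  have hre : HasFDerivAt (fun p => ((G p).re : ℂ))
      ((Complex.ofRealCLM.comp Complex.reCLM).comp (fderiv ℝ G p)) p :=
    (Complex.ofRealCLM.comp Complex.reCLM).hasFDerivAt.comp p (hG p).hasFDerivAt
  have him : HasFDerivAt (fun p => ((G p).im : ℂ))
      ((Complex.ofRealCLM.comp Complex.imCLM).comp (fderiv ℝ G p)) p :=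
    (Complex.ofRealCLM.comp Complex.imCLM).hasFDerivAt.comp p (hG p).hasFDerivAt
  have hX : DifferentiableAt ℝ (fun p => px ψ (Ph F p)) p :=
    (comp_pc hF hψ.px).smooth.differentiable (by norm_num) p
  have hY : DifferentiableAt ℝ (fun p => py ψ (Ph F p)) p :=
    (comp_pc hF hψ.py).smooth.differentiable (by norm_num) p
  have h := (hre.mul hX.hasFDerivAt).add (him.mul hY.hasFDerivAt)
  have h' : HasFDerivAt (fun p => ((G p).re : ℂ) * px ψ (Ph F p) + ((G p).im : ℂ) * py ψ (Ph F p)) _ p := h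
  rw [h'.fderiv, ← nf3d_comp hF hψ.px p v, ← nf3d_comp hF hψ.py p v]
  simp only [add_apply, smul_apply, smul_eq_mul, ContinuousLinearMap.comp_apply,
    Complex.reCLM_apply, Complex.imCLM_apply, Complex.ofRealCLM_apply]
  ring

/-- **Laplacian.** `D²(ψ∘Φ)(v,v) = D²ψ(DΦ v, DΦ v) + Dψ(D²Φ(v,v))`, summed over `v = ∂_y, ∂_z`; `∂_zΦ = i ∂_yΦ` in the open set
`0 < z < -log ρ`, so `∂_y²Φ + ∂_z²Φ = 0` and `D²ψ(w,w) + D²ψ(iw,iw) = |w|² Δψ`. -/
theorem lpc_Ph (hF : IsCollar D ρ F) (h0 : 0 < ρ) {ψ : ℂ → ℂ} (hψ : Smo ψ) {p : ℝ × ℝ} (h1 : 0 < p.2)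
    (h2 : p.2 < -Real.log ρ) :
    lpc (fun p => ψ (Ph F p)) p = (JF F p : ℂ) * -(lap ψ (Ph F p)) := by
  have hPc := Ph_pc hF
  have hdy : Differentiable ℝ (dyc (Ph F)) := hPc.dy.smooth.differentiable (by norm_num)
  have hdz : Differentiable ℝ (dzc (Ph F)) := hPc.dz.smooth.differentiable (by norm_num)
  have ey : dyc (fun p => ψ (Ph F p)) = fun p => ((dyc (Ph F) p).re : ℂ) * px ψ (Ph F p) +
      ((dyc (Ph F) p).im : ℂ) * py ψ (Ph F p) := funext fun p => nf3d_comp hF hψ p (1, 0)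
  have ez : dzc (fun p => ψ (Ph F p)) = fun p => ((dzc (Ph F) p).re : ℂ) * px ψ (Ph F p) +
      ((dzc (Ph F) p).im : ℂ) * py ψ (Ph F p) := funext fun p => nf3d_comp hF hψ p (0, 1)
  have e1 := nf3d_snd hF hψ hdy p (1, 0)
  have e2 := nf3d_snd hF hψ hdz p (0, 1)
  rw [← ey] at e1
  rw [← ez] at e2
  have hcr := Ph_cr hF h0 h1.le h2
  -- second derivatives of the conformal map
  have hO : IsOpen {q : ℝ × ℝ | 0 < q.2 ∧ q.2 < -Real.log ρ} :=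
    (isOpen_lt continuous_const continuous_snd).inter (isOpen_lt continuous_snd continuous_const)
  have hev : dzc (Ph F) =ᶠ[𝓝 p] fun q => Complex.I * dyc (Ph F) q := by
    filter_upwards [hO.mem_nhds ⟨h1, h2⟩] with q hq
    exact Ph_cr hF h0 hq.1.le hq.2
  have ed : ∀ v : ℝ × ℝ, fderiv ℝ (dzc (Ph F)) p v = Complex.I * fderiv ℝ (dyc (Ph F)) p v := fun v => by
    rw [hev.fderiv_eq, fderiv_const_mul (hdy p)]
    rfl
  have hsym : fderiv ℝ (dyc (Ph F)) p (0, 1) = fderiv ℝ (dzc (Ph F)) p (1, 0) := by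
    have hs : IsSymmSndFDerivAt ℝ (Ph F) p := by
      refine ContDiffAt.isSymmSndFDerivAt hPc.smooth.contDiffAt ?_
      rw [minSmoothness_of_isRCLikeNormedField]
      exact WithTop.coe_le_coe.2 (le_top : (2 : ℕ∞) ≤ ⊤)
    have hdd : DifferentiableAt ℝ (fderiv ℝ (Ph F)) p := by
      have h3 : ContDiff ℝ ((⊤ : ℕ∞) : WithTop ℕ∞) (fderiv ℝ (Ph F)) :=
        hPc.smooth.fderiv_right (by exact_mod_cast le_top)
      exact h3.differentiable (by norm_num) p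
    have hk : ∀ u v : ℝ × ℝ, fderiv ℝ (fun q => fderiv ℝ (Ph F) q u) p v =
        fderiv ℝ (fderiv ℝ (Ph F)) p v u := fun u v => by
      rw [fderiv_clm_apply hdd (differentiableAt_const _)]
      simp
    have k1 := hk (1, 0) (0, 1)
    have k2 := hk (0, 1) (1, 0)
    show fderiv ℝ (fun q => fderiv ℝ (Ph F) q (1, 0)) p (0, 1) =
      fderiv ℝ (fun q => fderiv ℝ (Ph F) q (0, 1)) p (1, 0)
    rw [k1, k2]
    exact hs.eq _ _
  -- the Cauchy Riemann equations of the derivative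
  have f1 : fderiv ℝ (dzc (Ph F)) p (0, 1) = -fderiv ℝ (dyc (Ph F)) p (1, 0) := by
    rw [ed, hsym, ed, ← mul_assoc, Complex.I_mul_I]
    ring
  have r1 : (dzc (Ph F) p).re = -(dyc (Ph F) p).im := by rw [hcr]; simp
  have r2 : (dzc (Ph F) p).im = (dyc (Ph F) p).re := by rw [hcr]; simp
  unfold lpc lap
  show -(fderiv ℝ (dyc fun p => ψ (Ph F p)) p (1, 0) + fderiv ℝ (dzc fun p => ψ (Ph F p)) p (0, 1)) = _
  rw [e1, e2, f1, nf3d_JF]
  have g1 : fderiv ℝ (Ph F) p (1, 0) = dyc (Ph F) p := rfl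
  have g2 : fderiv ℝ (Ph F) p (0, 1) = dzc (Ph F) p := rfl
  rw [g1, g2, r1, r2, Complex.neg_re, Complex.neg_im]
  push_cast
  ring

end Pool.Agent.Lib.MP_79abb3_an.PD
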