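import Pool.Agent.Lib.MP_79abb3_an.PD.NF3b
import Pool.Agent.Lib.MP_79abb3_an.PD.NF3d

/-!
Theorem D (MP_79abb3_an), block N: collars: Dirichlet integrals.
-/

set_option autoImplicit false
set_option linter.unusedSectionVars false

open MeasureTheory Set Filter Topology Function
open scoped ENNReal InnerProductSpace

namespace Pool.Agent.Lib.MP_79abb3_an.PD

variable {D : Set ℂ} {ρ : ℝ} {F : ℂ → ℂ}

/-- Dirichlet integrals are conformally invariant: `∫_{cell ∩ {a<z<b}} |∇(ψ∘Φ)|² = ∫_{F(rg a b)} |∇ψ|²` (`grad_Ph`, `int_rg`). -/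
theorem int_grad (hF : IsCollar D ρ F) (h0 : 0 < ρ) {a b : ℝ} (ha : 0 ≤ a) (hab : a < b) (hb : b ≤ -Real.log ρ)
    {ψ : ℂ → ℂ} (hψ : Smo ψ) :
    ∫ p in Ioo (-Real.pi) Real.pi ×ˢ Ioo a b,
        (‖dyc (fun p => ψ (Ph F p)) p‖ ^ 2 + ‖dzc (fun p => ψ (Ph F p)) p‖ ^ 2) =
      ∫ x in F '' rg a b, (‖px ψ x‖ ^ 2 + ‖py ψ x‖ ^ 2) := by
  rw [int_rg hF h0 ha hab hb]
  refine setIntegral_congr_fun (measurableSet_Ioo.prod measurableSet_Ioo) fun p hp => ?_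
  exact grad_Ph hF h0 hψ (ha.trans hp.2.1.le) (lt_of_lt_of_le hp.2.2 hb)

private theorem nf3e_cont (hF : IsCollar D ρ F) : Continuous (JF F) := by
  have h1 : Continuous (fun p => (JF F p : ℂ)) := (JF_pc hF).smooth.continuous
  exact Complex.continuous_re.comp h1

/-- `∫_{cell ∩ {a<z<b}} |-Δ(ψ∘Φ)|² ≤ C ∫_{F(rg a b)} |Δψ|²` (`lpc_Ph`: `|-Δ(ψ∘Φ)|² = JF² |Δψ|²`, `JF ≤ C` on the compact set
`[-π,π] × [0,b]`). -/
theorem int_lp_le (hF : IsCollar D ρ F) (h0 : 0 < ρ) {b : ℝ} (hb0 : 0 < b) (hb : b ≤ -Real.log ρ) : ∃ C, 0 ≤ C ∧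
    ∀ (a : ℝ) (ψ : ℂ → ℂ), 0 ≤ a → a < b → Smo ψ →
    ∫ p in Ioo (-Real.pi) Real.pi ×ˢ Ioo a b, ‖lpc (fun p => ψ (Ph F p)) p‖ ^ 2 ≤
      C * ∫ x in F '' rg a b, ‖lap ψ x‖ ^ 2 := by
  have hK : IsCompact (Icc (-Real.pi) Real.pi ×ˢ Icc 0 b) := isCompact_Icc.prod isCompact_Icc
  have hne : (Icc (-Real.pi) Real.pi ×ˢ Icc 0 b).Nonempty :=
    ⟨(0, 0), ⟨by constructor <;> linarith [Real.pi_pos], ⟨le_rfl, hb0.le⟩⟩⟩
  obtain ⟨p₀, hp₀, hmax⟩ := hK.exists_isMaxOn hne (nf3e_cont hF).continuousOn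
  have hC : 0 ≤ JF F p₀ := by unfold JF; positivity
  refine ⟨JF F p₀, hC, fun a ψ ha hab hψ => ?_⟩
  rw [int_rg hF h0 ha hab hb, ← integral_const_mul]
  have hS : MeasurableSet (Ioo (-Real.pi) Real.pi ×ˢ Ioo a b) := measurableSet_Ioo.prod measurableSet_Ioo
  have hsub : (Ioo (-Real.pi) Real.pi ×ˢ Ioo a b : Set (ℝ × ℝ)) ⊆ Icc (-Real.pi) Real.pi ×ˢ Icc 0 b := by
    rintro p ⟨h1, h2⟩
    exact ⟨Ioo_subset_Icc_self h1, ha.trans h2.1.le, h2.2.le⟩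
  have hint : ∀ f : ℝ × ℝ → ℝ, Continuous f → IntegrableOn f (Ioo (-Real.pi) Real.pi ×ˢ Ioo a b) volume := by
    intro f hf
    exact (hf.continuousOn.integrableOn_compact hK).mono_set hsub
  have hPh : Continuous (Ph F) := (Ph_pc hF).smooth.continuous
  refine setIntegral_mono_on (hint _ ?_) (hint _ ?_) hS fun p hp => ?_
  · exact ((comp_pc hF hψ).lp.smooth.continuous.norm).pow 2
  · exact continuous_const.mul ((nf3e_cont hF).smul ((hψ.lap.continuous.comp hPh).norm.pow 2))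
  · rw [lpc_Ph hF h0 hψ (lt_of_le_of_lt ha hp.2.1) (lt_of_lt_of_le hp.2.2 hb), norm_mul, norm_neg, mul_pow]
    have h1 : JF F p ≤ JF F p₀ := hmax (hsub hp)
    have h2 : 0 ≤ JF F p := by unfold JF; positivity
    have h3 : ‖(JF F p : ℂ)‖ = JF F p := by
      rw [Complex.norm_real, Real.norm_eq_abs, abs_of_nonneg h2]
    rw [h3, smul_eq_mul, pow_two (JF F p), mul_assoc]
    exact mul_le_mul_of_nonneg_right h1 (mul_nonneg h2 (by positivity))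

end Pool.Agent.Lib.MP_79abb3_an.PD
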