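import Pool.Agent.Lib.MP_79abb3_an.PD.NF3b

/-!
Theorem D (MP_79abb3_an), block N: collars: stream functions are constant near the boundary curve.
-/

set_option autoImplicit false
set_option linter.unusedSectionVars false

open MeasureTheory Set Filter Topology Function
open scoped ENNReal InnerProductSpace

namespace Pool.Agent.Lib.MP_79abb3_an.PD

variable {D : Set ℂ} {ρ : ℝ} {F : ℂ → ℂ}

private theorem nf3f_rep (y z : ℝ) : ∃ y' ∈ Ioc (-Real.pi) Real.pi, xi (y', z) = xi (y, z) := by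
  have hne : xi (y, z) ≠ 0 := by
    rw [← norm_pos_iff, norm_xi]
    exact Real.exp_pos _
  obtain ⟨y', hy', h⟩ := exists_xi hne
  refine ⟨y', hy', ?_⟩
  rw [norm_xi, Real.log_exp, neg_neg] at h
  exact h

/-- **The stream function is constant near the boundary curve.** The circle `|ξ| = 1` is mapped into `frontier D`, disjoint from `D`
(open), so from the compact set `S = tsupport (fderiv ψ) ⊆ D`; the open set `{ξ : F ξ ∉ S}` contains an annulus
`e^{-ε} ≤ |ξ| ≤ e^{ε}`, and `ψ ∘ F` has derivative zero there, so `ψ ∘ Φ` has derivative zero on the convex set `ℝ × [-ε, ε]`. -/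
theorem Adm.const_near (hD : IsOpen D) (hF : IsCollar D ρ F) (ψ : Adm D) :
    ∃ ε > 0, ∀ y z, |z| ≤ ε → (ψ : ℂ → ℂ) (Ph F (y, z)) = (ψ : ℂ → ℂ) (F 1) := by
  have hPh : ContDiff ℝ ((⊤ : ℕ∞) : WithTop ℕ∞) (Ph F) := (Ph_pc hF).smooth
  have hopen : IsOpen {q : ℝ × ℝ | Ph F q ∉ tsupport (fderiv ℝ (ψ : ℂ → ℂ))} :=
    (isClosed_tsupport _).isOpen_compl.preimage hPh.continuous
  have hin : Icc (-Real.pi) Real.pi ×ˢ ({0} : Set ℝ) ⊆
      {q : ℝ × ℝ | Ph F q ∉ tsupport (fderiv ℝ (ψ : ℂ → ℂ))} := by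
    rintro ⟨y, z⟩ ⟨_, hz⟩
    rw [mem_singleton_iff] at hz
    simp only at hz
    subst hz
    intro hmem
    have h1 : Ph F (y, 0) ∈ D := Adm.supp ψ hmem
    have h2 : Ph F (y, 0) ∈ frontier D := by
      refine hF.bdry ⟨xi (y, 0), ?_, rfl⟩
      rw [mem_sphere_zero_iff_norm, norm_xi]
      simp
    rw [hD.frontier_eq] at h2
    exact h2.2 h1
  obtain ⟨u, v, -, hv, hu', hv', huv⟩ := generalized_tube_lemma isCompact_Icc isCompact_singleton hopen hin
  obtain ⟨δ, hδ, hball⟩ := Metric.isOpen_iff.mp hv 0 (hv' (mem_singleton 0))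
  refine ⟨δ / 2, by linarith, ?_⟩
  have hnot : ∀ y z : ℝ, z ∈ Ioo (-δ) δ → Ph F (y, z) ∉ tsupport (fderiv ℝ (ψ : ℂ → ℂ)) := by
    intro y z hz
    obtain ⟨y', hy', hX⟩ := nf3f_rep y z
    have hX' : Ph F (y, z) = Ph F (y', z) := by unfold Ph; rw [hX]
    rw [hX']
    refine huv (mk_mem_prod (hu' (Ioc_subset_Icc_self hy')) (hball ?_))
    rw [Metric.mem_ball, Real.dist_eq, sub_zero]
    exact abs_lt.mpr hz
  have hs : IsOpen ((univ : Set ℝ) ×ˢ Ioo (-δ) δ) := isOpen_univ.prod isOpen_Ioo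
  have hs' : IsPreconnected ((univ : Set ℝ) ×ˢ Ioo (-δ) δ) := isPreconnected_univ.prod isPreconnected_Ioo
  have hdiff : Differentiable ℝ (fun q => (ψ : ℂ → ℂ) (Ph F q)) :=
    (Adm.cc ψ).smo.differentiable.comp (hPh.differentiable (by simp))
  have hd : ((univ : Set ℝ) ×ˢ Ioo (-δ) δ).EqOn (fderiv ℝ (fun q => (ψ : ℂ → ℂ) (Ph F q))) 0 := by
    intro q hq
    have h1 : fderiv ℝ (fun q => (ψ : ℂ → ℂ) (Ph F q)) q =
        (fderiv ℝ (ψ : ℂ → ℂ) (Ph F q)).comp (fderiv ℝ (Ph F) q) :=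
      fderiv_comp q ((Adm.cc ψ).smo.differentiable _) (hPh.differentiable (by simp) q)
    rw [h1, image_eq_zero_of_notMem_tsupport (hnot q.1 q.2 hq.2)]
    simp
  intro y z hz
  have hz' : |z| < δ := by linarith
  have h1 : Ph F (0, 0) = F 1 := by
    unfold Ph xi
    simp
  rw [← h1]
  exact hs.is_const_of_fderiv_eq_zero hs' hdiff.differentiableOn hd
    (x := (y, z)) (y := (0, 0)) ⟨mem_univ _, abs_lt.mp hz'⟩
    ⟨mem_univ _, by show -δ < (0:ℝ); linarith, hδ⟩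

end Pool.Agent.Lib.MP_79abb3_an.PD
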