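import Pool.Agent.Lib.MP_79abb3_an.PD.NF3b
import Pool.Agent.Lib.MP_79abb3_an.PD.NF2a

/-!
Theorem D (MP_79abb3_an), block N: collars: test stream functions.
-/

set_option autoImplicit false
set_option linter.unusedSectionVars false

open MeasureTheory Set Filter Topology Function
open scoped ENNReal InnerProductSpace

namespace Pool.Agent.Lib.MP_79abb3_an.PD

open Pool.Agent.Lib.MP_79abb3_an.P25 Pool.Agent.Lib.MP_79abb3_an.SC

variable {D : Set ℂ} {ρ : ℝ} {F : ℂ → ℂ}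

/-- the test function in the ring -/
private noncomputable def nf3gT (n : ℤ) (k : ℝ → ℂ) (ξ : ℂ) : ℂ := k (-Real.log ‖ξ‖) * (ξ / ‖ξ‖) ^ n

private theorem nf3g_T (n : ℤ) (k : ℝ → ℂ) (p : ℝ × ℝ) : nf3gT n k (xi p) = k p.2 * ee om1 n p.1 := by
  unfold nf3gT
  rw [norm_xi, Real.log_exp, neg_neg]
  congr 1
  have h1 : xi p / ((Real.exp (-p.2) : ℝ) : ℂ) = Complex.exp (Complex.I * (p.1 : ℂ)) := by
    unfold xi
    rw [Complex.ofReal_exp, ← Complex.exp_sub]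
    congr 1
    have := Complex.I_mul_I
    push_cast
    linear_combination (p.2 : ℂ) * this
  rw [h1, ← Complex.exp_int_mul]
  unfold ee
  congr 1
  have h2 : (om1 : ℝ) = 1 := div_self Real.pi_pos.ne'
  rw [h2]
  push_cast
  ring

open scoped Classical in
/-- the push forward -/
private noncomputable def nf3gP (F : ℂ → ℂ) (ρ : ℝ) (n : ℤ) (k : ℝ → ℂ) (x : ℂ) : ℂ :=
  if h : ∃ ξ ∈ ring ρ, F ξ = x then nf3gT n k h.choose else 0

private theorem nf3g_sub : ring ρ ⊆ ringc ρ := fun _ h => ⟨h.1, h.2.le⟩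

private theorem nf3g_P (hF : IsCollar D ρ F) (n : ℤ) (k : ℝ → ℂ) {ξ : ℂ} (hξ : ξ ∈ ring ρ) :
    nf3gP F ρ n k (F ξ) = nf3gT n k ξ := by
  have hex : ∃ η ∈ ring ρ, F η = F ξ := ⟨ξ, hξ, rfl⟩
  have h1 : nf3gP F ρ n k (F ξ) = nf3gT n k hex.choose := by
    unfold nf3gP
    exact dif_pos hex
  have h2 := hex.choose_spec
  rw [h1, hF.inj (nf3g_sub h2.1) (nf3g_sub hξ) h2.2]

private theorem nf3g_Pout (n : ℤ) (k : ℝ → ℂ) {x : ℂ} (hx : x ∉ F '' ring ρ) : nf3gP F ρ n k x = 0 := by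
  unfold nf3gP
  refine dif_neg ?_
  rintro ⟨ξ, hξ, rfl⟩
  exact hx ⟨ξ, hξ, rfl⟩

private theorem nf3g_Ph (hF : IsCollar D ρ F) (h0 : 0 < ρ) (n : ℤ) (k : ℝ → ℂ) {p : ℝ × ℝ} (h1 : 0 < p.2)
    (h2 : p.2 < -Real.log ρ) : nf3gP F ρ n k (Ph F p) = k p.2 * ee om1 n p.1 := by
  unfold Ph
  rw [nf3g_P hF n k (xi_ring h0 h1 h2), nf3g_T]

private theorem nf3g_fd (hF : IsCollar D ρ F) (h0 : 0 < ρ) {p : ℝ × ℝ} (h1 : 0 ≤ p.2) (h2 : p.2 < -Real.log ρ)
    (v : ℝ × ℝ) : fderiv ℝ (Ph F) p v = dyc (Ph F) p * ((v.1 : ℂ) + Complex.I * (v.2 : ℂ)) := by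
  have hv : v = v.1 • ((1, 0) : ℝ × ℝ) + v.2 • ((0, 1) : ℝ × ℝ) := by ext <;> simp
  have h3 : fderiv ℝ (Ph F) p v = v.1 • dyc (Ph F) p + v.2 • dzc (Ph F) p := by
    conv_lhs => rw [hv]
    rw [map_add, map_smul, map_smul]
    rfl
  rw [h3, Ph_cr hF h0 h1 h2, Complex.real_smul, Complex.real_smul]
  ring

private theorem nf3g_equiv (hF : IsCollar D ρ F) (h0 : 0 < ρ) {p : ℝ × ℝ} (h1 : 0 ≤ p.2) (h2 : p.2 < -Real.log ρ) :
    ∃ f' : (ℝ × ℝ) ≃L[ℝ] ℂ, HasFDerivAt (Ph F) (f' : ℝ × ℝ →L[ℝ] ℂ) p := by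
  have hne : dyc (Ph F) p ≠ 0 := by
    have := JF_pos hF h0 h1 h2
    unfold JF at this
    intro h4
    rw [h4] at this
    simp at this
  have hinj : (fderiv ℝ (Ph F) p).ker = ⊥ := by
    rw [LinearMap.ker_eq_bot']
    intro v hv
    have hv' : fderiv ℝ (Ph F) p v = 0 := hv
    rw [nf3g_fd hF h0 h1 h2, mul_eq_zero] at hv'
    rcases hv' with hv' | hv'
    · exact absurd hv' hne
    · have h3 : ((v.1 : ℂ) + Complex.I * (v.2 : ℂ)).re = 0 := by rw [hv']; rfl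
      have h4 : ((v.1 : ℂ) + Complex.I * (v.2 : ℂ)).im = 0 := by rw [hv']; rfl
      simp at h3 h4
      exact Prod.ext h3 h4
  have hsurj : (fderiv ℝ (Ph F) p).range = ⊤ := by
    rw [LinearMap.range_eq_top]
    intro w
    refine ⟨((w / dyc (Ph F) p).re, (w / dyc (Ph F) p).im), ?_⟩
    show fderiv ℝ (Ph F) p _ = w
    rw [nf3g_fd hF h0 h1 h2]
    have h5 : (((w / dyc (Ph F) p).re : ℝ) : ℂ) + Complex.I * (((w / dyc (Ph F) p).im : ℝ) : ℂ) =
        w / dyc (Ph F) p := by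
      rw [mul_comm Complex.I]
      exact Complex.re_add_im _
    show dyc (Ph F) p * ((((w / dyc (Ph F) p).re : ℝ) : ℂ) + Complex.I * (((w / dyc (Ph F) p).im : ℝ) : ℂ)) = w
    rw [h5]
    field_simp
  refine ⟨ContinuousLinearEquiv.ofBijective (fderiv ℝ (Ph F) p) hinj hsurj, ?_⟩
  rw [ContinuousLinearEquiv.coe_ofBijective]
  exact ((Ph_pc hF).smooth.differentiable (by simp) p).hasFDerivAt

private theorem nf3g_smooth (n : ℤ) {k : ℝ → ℂ} (hk : ContDiff ℝ ((⊤ : ℕ∞) : WithTop ℕ∞) k) :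
    ContDiff ℝ ((⊤ : ℕ∞) : WithTop ℕ∞) (fun p : ℝ × ℝ => k p.2 * ee om1 n p.1) := by
  refine (hk.comp contDiff_snd).mul ?_
  unfold ee
  refine ContDiff.cexp (contDiff_const.mul (Complex.ofRealCLM.contDiff.comp ?_))
  exact contDiff_const.mul contDiff_fst

private theorem nf3g_at (hF : IsCollar D ρ F) (h0 : 0 < ρ) (n : ℤ) {k : ℝ → ℂ}
    (hk : ContDiff ℝ ((⊤ : ℕ∞) : WithTop ℕ∞) k) {q : ℝ × ℝ} (h1 : 0 < q.2) (h2 : q.2 < -Real.log ρ) :
    ContDiffAt ℝ ((⊤ : ℕ∞) : WithTop ℕ∞) (nf3gP F ρ n k) (Ph F q) := by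
  obtain ⟨f', hf'⟩ := nf3g_equiv hF h0 h1.le h2
  have hn : ((⊤ : ℕ∞) : WithTop ℕ∞) ≠ 0 := by simp
  have hX : ContDiffAt ℝ ((⊤ : ℕ∞) : WithTop ℕ∞) (Ph F) q := (Ph_pc hF).smooth.contDiffAt
  have k1 := hX.to_localInverse hf' hn
  have k2 := hX.localInverse_apply_image hf' hn
  have k3 : ∀ᶠ x in 𝓝 (Ph F q), Ph F (hX.localInverse hf' hn x) = x :=
    (hX.hasStrictFDerivAt' hf' hn).eventually_right_inverse
  have k4 : Tendsto (hX.localInverse hf' hn) (𝓝 (Ph F q)) (𝓝 q) := by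
    have := k1.continuousAt
    unfold ContinuousAt at this
    rwa [k2] at this
  have k5 : ∀ᶠ p : ℝ × ℝ in 𝓝 q, p.2 ∈ Ioo 0 (-Real.log ρ) :=
    continuous_snd.continuousAt.eventually (Ioo_mem_nhds h1 h2)
  have k6 : nf3gP F ρ n k =ᶠ[𝓝 (Ph F q)]
      fun x => (fun p : ℝ × ℝ => k p.2 * ee om1 n p.1) (hX.localInverse hf' hn x) := by
    filter_upwards [k3, k4.eventually k5] with x hx1 hx2
    have := nf3g_Ph hF h0 n k hx2.1 hx2.2
    rw [hx1] at this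
    exact this
  refine ContDiffAt.congr_of_eventuallyEq ?_ k6
  exact ContDiffAt.comp (Ph F q) (nf3g_smooth n hk).contDiffAt k1

/-- **Test stream functions.** `k : ℝ → ℂ` smooth with support in `(0, b)`, `b < -log ρ`: the function `k(z) e^{iny}` of the collar, extended
by zero, is in `Adm D`: as a function of `ξ` it is `T(ξ) = k(-log|ξ|) (ξ/|ξ|)^n`, smooth with compact support in the ring; the inverse of
`F` on the open set `F '' ring ρ` is smooth (`IsCollar.der`, `holo`, `inj`; inverse function theorem). -/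
theorem exists_push (hD : IsOpen D) (hF : IsCollar D ρ F) (h0 : 0 < ρ) (n : ℤ) {k : ℝ → ℂ}
    (hk : ContDiff ℝ ((⊤ : ℕ∞) : WithTop ℕ∞) k) {ε b : ℝ} (hε : 0 < ε) (hεb : ε < b) (hb : b < -Real.log ρ)
    (hk0 : ∀ z, z ≤ ε → k z = 0) (hk1 : ∀ z, b ≤ z → k z = 0) :
    ∃ φ : Adm D, (∀ y z, 0 ≤ z → z < -Real.log ρ → (φ : ℂ → ℂ) (Ph F (y, z)) = k z * ee om1 n y) ∧
      ∀ x ∉ F '' rg 0 b, (φ : ℂ → ℂ) x = 0 := by
  have _ := hεb
  have hring : ∀ ξ ∈ ring ρ, ∃ y ∈ Ioc (-Real.pi) Real.pi, xi (y, -Real.log ‖ξ‖) = ξ ∧ 0 < -Real.log ‖ξ‖ ∧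
      -Real.log ‖ξ‖ < -Real.log ρ := by
    intro ξ hξ
    have hpos : 0 < ‖ξ‖ := h0.trans hξ.1
    obtain ⟨y, hy, hxi⟩ := exists_xi (norm_pos_iff.mp hpos)
    refine ⟨y, hy, hxi, ?_, ?_⟩
    · have := Real.log_neg hpos hξ.2
      linarith
    · have := Real.log_lt_log h0 hξ.1
      linarith
  have hPh : Continuous (Ph F) := (Ph_pc hF).smooth.continuous
  set K : Set ℂ := Ph F '' (Icc (-Real.pi) Real.pi ×ˢ Icc ε b) with hKdef
  have hK : IsCompact K := (isCompact_Icc.prod isCompact_Icc).image hPh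
  have hKr : K ⊆ F '' ring ρ := by
    rintro x ⟨p, hp, rfl⟩
    exact ⟨xi p, xi_ring h0 (lt_of_lt_of_le hε hp.2.1) (lt_of_le_of_lt hp.2.2 hb), rfl⟩
  have hKD : K ⊆ D := hKr.trans hF.sub
  have hz : ∀ x, x ∉ K → nf3gP F ρ n k x = 0 := by
    intro x hx
    by_cases hW : x ∈ F '' ring ρ
    · obtain ⟨ξ, hξ, rfl⟩ := hW
      obtain ⟨y, hy, hxi, h1, h2⟩ := hring ξ hξ
      rw [nf3g_P hF n k hξ]
      unfold nf3gT
      by_cases h3 : -Real.log ‖ξ‖ ≤ ε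
      · rw [hk0 _ h3, zero_mul]
      · by_cases h4 : b ≤ -Real.log ‖ξ‖
        · rw [hk1 _ h4, zero_mul]
        · refine absurd ⟨(y, -Real.log ‖ξ‖), ⟨Ioc_subset_Icc_self hy, (not_le.mp h3).le, (not_le.mp h4).le⟩, ?_⟩ hx
          unfold Ph
          rw [hxi]
    · exact nf3g_Pout n k hW
  have hsub : tsupport (nf3gP F ρ n k) ⊆ K := by
    refine closure_minimal (fun x hx => ?_) hK.isClosed
    by_contra hx'
    exact hx (hz x hx')
  have hsmo : Smo (nf3gP F ρ n k) := by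
    refine contDiff_iff_contDiffAt.mpr fun x => ?_
    by_cases hx : x ∈ F '' ring ρ
    · obtain ⟨ξ, hξ, rfl⟩ := hx
      obtain ⟨y, -, hxi, h1, h2⟩ := hring ξ hξ
      have h3 := nf3g_at hF h0 n hk (q := (y, -Real.log ‖ξ‖)) h1 h2
      unfold Ph at h3
      rwa [hxi] at h3
    · have hx' : x ∉ K := fun h => hx (hKr h)
      have hev : nf3gP F ρ n k =ᶠ[𝓝 x] fun _ => 0 := by
        filter_upwards [hK.isClosed.isOpen_compl.mem_nhds hx'] with w hw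
        exact hz w hw
      exact ContDiffAt.congr_of_eventuallyEq contDiffAt_const hev
  have hcc : Cc (nf3gP F ρ n k) := ⟨hsmo, IsCompact.of_isClosed_subset hK (isClosed_tsupport _) hsub⟩
  refine ⟨⟨nf3gP F ρ n k, hcc, (tsupport_fderiv_subset ℝ).trans (hsub.trans hKD)⟩, ?_, ?_⟩
  · intro y z hz0 hz1
    rcases eq_or_lt_of_le hz0 with heq | hlt
    · subst heq
      have h1 : Ph F (y, 0) ∈ frontier D := by
        refine hF.bdry ⟨xi (y, 0), ?_, rfl⟩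
        rw [mem_sphere_zero_iff_norm, norm_xi]
        simp
      have h2 : Ph F (y, 0) ∉ F '' ring ρ := by
        intro h3
        rw [hD.frontier_eq] at h1
        exact h1.2 (hF.sub h3)
      show nf3gP F ρ n k (Ph F (y, 0)) = _
      rw [nf3g_Pout n k h2, hk0 0 hε.le, zero_mul]
    · exact nf3g_Ph hF h0 n k (p := (y, z)) hlt hz1
  · intro x hx
    show nf3gP F ρ n k x = 0
    by_cases hW : x ∈ F '' ring ρ
    · obtain ⟨ξ, hξ, rfl⟩ := hW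
      obtain ⟨y, hy, hxi, h1, h2⟩ := hring ξ hξ
      rw [nf3g_P hF n k hξ]
      unfold nf3gT
      have h3 : ξ ∉ rg 0 b := fun h => hx ⟨ξ, h, rfl⟩
      have h4 : b ≤ -Real.log ‖ξ‖ := by
        by_contra hcon
        refine h3 ⟨?_, ?_⟩
        · have hpos : 0 < ‖ξ‖ := h0.trans hξ.1
          rw [← Real.lt_log_iff_exp_lt hpos]
          linarith [not_le.mp hcon]
        · rw [neg_zero, Real.exp_zero]
          exact hξ.2
      rw [hk1 _ h4, zero_mul]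
    · exact nf3g_Pout n k hW

end Pool.Agent.Lib.MP_79abb3_an.PD
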