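import Pool.Agent.Lib.MP_79abb3_an.PD.NF3a

/-!
Theorem D (MP_79abb3_an), block N: collars: the weight.
-/

set_option autoImplicit false
set_option linter.unusedSectionVars false

open MeasureTheory Set Filter Topology Function
open scoped ENNReal InnerProductSpace

namespace Pool.Agent.Lib.MP_79abb3_an.PD

variable {D : Set ℂ} {ρ : ℝ} {F : ℂ → ℂ}

/-- **The weight.** A positive smooth periodic function `a` on the plane with `a JF = 1` for `0 ≤ z ≤ b`, `b < -log ρ`: `JF > 0` on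
`ℝ × [-δ, b + δ]` (`JF_pos`, compactness, periodicity), and `a(y,z) = 1/JF(y, s(z))` with a smooth `s : ℝ → (-δ, b + δ)`, `s(z) = z` on `[0,b]`
(`s(z) = ∫_0^z β`, `β = 1` on `[0,b]`, `0 ≤ β ≤ 1`, `β = 0` outside `(-δ/2, b + δ/2)`). -/
theorem exists_weight (hF : IsCollar D ρ F) (h0 : 0 < ρ) {b : ℝ} (hb0 : 0 < b) (hb : b < -Real.log ρ) :
    ∃ a : ℝ × ℝ → ℝ, PCn (fun p => (a p : ℂ)) ∧ (∀ p, 0 < a p) ∧
      ∀ y z, 0 ≤ z → z ≤ b → a (y, z) * JF F (y, z) = 1 := by
  have _hb := hb0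
  -- the cut-off: `η = 1` on `[0, b]`, `0 ≤ η < 1` elsewhere
  set η : ℝ → ℝ := fun z => (1 - Real.smoothTransition (-z)) * (1 - Real.smoothTransition (z - b)) with hη
  have hηs : ContDiff ℝ ((⊤ : ℕ∞) : WithTop ℕ∞) η :=
    (contDiff_const.sub (Real.smoothTransition.contDiff.comp contDiff_neg)).mul
      (contDiff_const.sub (Real.smoothTransition.contDiff.comp (contDiff_id.sub contDiff_const)))
  have h1 : ∀ z, 0 ≤ z → z ≤ b → η z = 1 := fun z hz hz' => by
    show (1 - Real.smoothTransition (-z)) * (1 - Real.smoothTransition (z - b)) = 1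
    rw [Real.smoothTransition.zero_of_nonpos (by linarith), Real.smoothTransition.zero_of_nonpos (by linarith)]
    ring
  have hn : ∀ z, 0 ≤ η z := fun z =>
    mul_nonneg (sub_nonneg.2 (Real.smoothTransition.le_one _)) (sub_nonneg.2 (Real.smoothTransition.le_one _))
  have hl : ∀ z, η z ≤ 1 := fun z =>
    mul_le_one₀ (sub_le_self _ (Real.smoothTransition.nonneg _))
      (sub_nonneg.2 (Real.smoothTransition.le_one _)) (sub_le_self _ (Real.smoothTransition.nonneg _))
  have hlt : ∀ z, ¬(0 ≤ z ∧ z ≤ b) → η z < 1 := fun z hz => by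
    have a1 := Real.smoothTransition.nonneg (-z)
    have a2 := Real.smoothTransition.nonneg (z - b)
    have a3 := Real.smoothTransition.le_one (-z)
    have a4 := Real.smoothTransition.le_one (z - b)
    show (1 - Real.smoothTransition (-z)) * (1 - Real.smoothTransition (z - b)) < 1
    by_cases h : 0 ≤ z
    · have h' : b < z := by
        by_contra h''
        exact hz ⟨h, not_lt.1 h''⟩
      have a5 := Real.smoothTransition.pos_of_pos (show 0 < z - b by linarith)
      nlinarith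
    · have a5 := Real.smoothTransition.pos_of_pos (show 0 < -z by linarith [not_le.1 h])
      nlinarith
  have hJs : ContDiff ℝ ((⊤ : ℕ∞) : WithTop ℕ∞) (JF F) := by
    have h2 : ContDiff ℝ ((⊤ : ℕ∞) : WithTop ℕ∞) fun p => ‖dyc (Ph F) p‖ ^ 2 :=
      (Ph_pc hF).dy.smooth.norm_sq ℝ
    exact h2
  have hJ0 : ∀ p, 0 ≤ JF F p := fun p => sq_nonneg _
  set δ : ℝ × ℝ → ℝ := fun p => η p.2 * JF F p + (1 - η p.2) with hδ
  have hpos : ∀ p, 0 < δ p := fun p => by
    by_cases h : 0 ≤ p.2 ∧ p.2 ≤ b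
    · have h3 := JF_pos hF h0 h.1 (h.2.trans_lt hb)
      show 0 < η p.2 * JF F p + (1 - η p.2)
      rw [h1 p.2 h.1 h.2, one_mul, sub_self, add_zero]
      exact h3
    · have h3 := hlt p.2 h
      exact add_pos_of_nonneg_of_pos (mul_nonneg (hn _) (hJ0 p)) (sub_pos.2 h3)
  have hδs : ContDiff ℝ ((⊤ : ℕ∞) : WithTop ℕ∞) δ :=
    ((hηs.comp contDiff_snd).mul hJs).add (contDiff_const.sub (hηs.comp contDiff_snd))
  refine ⟨fun p => (δ p)⁻¹, ⟨?_, ?_⟩, fun p => inv_pos.2 (hpos p), ?_⟩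
  · exact Complex.ofRealCLM.contDiff.comp (hδs.inv fun p => (hpos p).ne')
  · intro y z
    have e : JF F (y + 2 * Real.pi, z) = JF F (y, z) := by
      unfold JF
      rw [(Ph_pc hF).dy.per]
    show (((η z * JF F (y + 2 * Real.pi, z) + (1 - η z))⁻¹ : ℝ) : ℂ) = _
    rw [e]
  · intro y z hz hz'
    have h3 := JF_pos hF h0 (p := (y, z)) hz (hz'.trans_lt hb)
    show (η z * JF F (y, z) + (1 - η z))⁻¹ * JF F (y, z) = 1
    rw [h1 z hz hz', one_mul, sub_self, add_zero]
    exact inv_mul_cancel₀ h3.ne'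

end Pool.Agent.Lib.MP_79abb3_an.PD
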