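import Pool.Agent.Lib.MP_79abb3_an.PD.NF1a

/-!
Theorem D (MP_79abb3_an), block N: collars: Poincaré inequality on a rectangle.
-/

set_option autoImplicit false
set_option linter.unusedSectionVars false

open MeasureTheory Set Filter Topology Function
open scoped ENNReal InnerProductSpace

namespace Pool.Agent.Lib.MP_79abb3_an.PD

/-- Cauchy and Schwarz against the constant one -/
private theorem nf3i_cs {α : Type*} [MeasurableSpace α] {μ : Measure α} [IsFiniteMeasure μ] {g : α → ℝ}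
    (h1 : Integrable g μ) (h2 : Integrable (fun x => g x ^ 2) μ) :
    (∫ x, g x ∂μ) ^ 2 ≤ μ.real univ * ∫ x, g x ^ 2 ∂μ := by
  rcases eq_or_lt_of_le (measureReal_nonneg (μ := μ) (s := univ)) with h0 | h0
  · have hμ : μ = 0 := by
      rw [← Measure.measure_univ_eq_zero]
      exact (measureReal_eq_zero_iff (measure_ne_top μ univ)).1 h0.symm
    subst hμ
    simp
  · set c : ℝ := (μ.real univ)⁻¹ * ∫ x, g x ∂μ with hc
    have h3 : 0 ≤ ∫ x, (g x - c) ^ 2 ∂μ := integral_nonneg fun x => sq_nonneg _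
    have e1 : ∀ x, (g x - c) ^ 2 = g x ^ 2 - 2 * c * g x + c ^ 2 := fun x => by ring
    simp only [e1] at h3
    have hs : Integrable (fun x => g x ^ 2 - 2 * c * g x) μ := h2.sub (h1.const_mul _)
    rw [integral_add hs (integrable_const _), integral_sub h2 (h1.const_mul _), integral_const_mul,
      integral_const, smul_eq_mul] at h3
    have h4 : μ.real univ * c = ∫ x, g x ∂μ := by
      rw [hc, ← mul_assoc, mul_inv_cancel₀ h0.ne', one_mul]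
    have h5 : μ.real univ * c ^ 2 = c * ∫ x, g x ∂μ := by rw [pow_two, ← mul_assoc, h4]; ring
    rw [h5] at h3
    have h6 := mul_le_mul_of_nonneg_left h3 h0.le
    have h7 : μ.real univ * ((∫ x, g x ^ 2 ∂μ) - 2 * c * (∫ x, g x ∂μ) + c * ∫ x, g x ∂μ) =
        μ.real univ * (∫ x, g x ^ 2 ∂μ) - (μ.real univ * c) * ∫ x, g x ∂μ := by ring
    rw [h7, h4] at h6
    nlinarith

private theorem nf3i_csn {α : Type*} [MeasurableSpace α] {μ : Measure α} [IsFiniteMeasure μ] {g : α → ℂ}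
    (h1 : Integrable g μ) (h2 : Integrable (fun x => ‖g x‖ ^ 2) μ) :
    ‖∫ x, g x ∂μ‖ ^ 2 ≤ μ.real univ * ∫ x, ‖g x‖ ^ 2 ∂μ :=
  (pow_le_pow_left₀ (norm_nonneg _) (norm_integral_le_integral_norm _) 2).trans (nf3i_cs h1.norm h2)

private theorem nf3i_csq {α : Type*} [TopologicalSpace α] {g : α → ℂ} (hg : Continuous g) :
    Continuous fun x => ‖g x‖ ^ 2 := by
  fun_prop

/-- one dimensional estimate -/
private theorem nf3i_one {a b : ℝ} (hab : a ≤ b) {h h' : ℝ → ℂ} (hd : ∀ t, HasDerivAt h (h' t) t)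
    (hc : Continuous h') {s t : ℝ} (hs : s ∈ Icc a b) (ht : t ∈ Icc a b) :
    ‖h s - h t‖ ^ 2 ≤ (b - a) * ∫ r in Icc a b, ‖h' r‖ ^ 2 := by
  have h1 : h s - h t = ∫ r in t..s, h' r :=
    (intervalIntegral.integral_eq_sub_of_hasDerivAt (fun r _ => hd r) (hc.intervalIntegrable _ _)).symm
  have h2 : ‖h s - h t‖ ≤ ∫ r in Icc a b, ‖h' r‖ := by
    rw [h1]
    refine intervalIntegral.norm_integral_le_integral_norm_uIoc.trans ?_
    refine setIntegral_mono_set (hc.norm.continuousOn.integrableOn_compact isCompact_Icc)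
      (Eventually.of_forall fun r => norm_nonneg _) ?_
    refine LE.le.eventuallyLE ?_
    exact uIoc_subset_uIcc.trans ((convex_Icc a b).ordConnected.uIcc_subset ht hs)
  have h3 := nf3i_cs (μ := volume.restrict (Icc a b)) (g := fun r => ‖h' r‖)
    (hc.norm.continuousOn.integrableOn_compact isCompact_Icc)
    ((hc.norm.pow 2).continuousOn.integrableOn_compact isCompact_Icc)
  have h4 : (volume.restrict (Icc a b)).real univ = b - a := by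
    rw [measureReal_restrict_apply_univ, Real.volume_real_Icc_of_le hab]
  rw [h4] at h3
  exact (pow_le_pow_left₀ (norm_nonneg _) h2 2).trans h3

private theorem nf3i_dy {f : ℝ × ℝ → ℂ} (hf : ContDiff ℝ 1 f) (y z : ℝ) :
    HasDerivAt (fun t => f (t, z)) (dyc f (y, z)) y := by
  have h1 : HasFDerivAt f (fderiv ℝ f (y, z)) (y, z) :=
    (hf.differentiable (by norm_num) (y, z)).hasFDerivAt
  have h2 : HasDerivAt (fun t : ℝ => (t, z)) ((1 : ℝ), (0 : ℝ)) y :=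
    (hasDerivAt_id y).prodMk (hasDerivAt_const y z)
  exact h1.comp_hasDerivAt y h2

private theorem nf3i_dz {f : ℝ × ℝ → ℂ} (hf : ContDiff ℝ 1 f) (y z : ℝ) :
    HasDerivAt (fun t => f (y, t)) (dzc f (y, z)) z := by
  have h1 : HasFDerivAt f (fderiv ℝ f (y, z)) (y, z) :=
    (hf.differentiable (by norm_num) (y, z)).hasFDerivAt
  have h2 : HasDerivAt (fun t : ℝ => (y, t)) ((0 : ℝ), (1 : ℝ)) z :=
    (hasDerivAt_const z y).prodMk (hasDerivAt_id z)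
  exact h1.comp_hasDerivAt z h2

private theorem nf3i_fub {y₀ y₁ z₀ z₁ : ℝ} {F : Type*} [NormedAddCommGroup F] [NormedSpace ℝ F]
    {g : ℝ × ℝ → F} (hg : Continuous g) :
    ∫ p in Icc y₀ y₁ ×ˢ Icc z₀ z₁, g p = ∫ y in Icc y₀ y₁, ∫ z in Icc z₀ z₁, g (y, z) := by
  have hi : IntegrableOn g (Icc y₀ y₁ ×ˢ Icc z₀ z₁) :=
    hg.continuousOn.integrableOn_compact (isCompact_Icc.prod isCompact_Icc)
  rw [IntegrableOn, Measure.volume_eq_prod, ← Measure.prod_restrict] at hi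
  rw [Measure.volume_eq_prod, ← Measure.prod_restrict, integral_prod _ hi]

private theorem nf3i_fub' {y₀ y₁ z₀ z₁ : ℝ} {F : Type*} [NormedAddCommGroup F] [NormedSpace ℝ F]
    {g : ℝ × ℝ → F} (hg : Continuous g) :
    ∫ p in Icc y₀ y₁ ×ˢ Icc z₀ z₁, g p = ∫ z in Icc z₀ z₁, ∫ y in Icc y₀ y₁, g (y, z) := by
  have hi : IntegrableOn g (Icc y₀ y₁ ×ˢ Icc z₀ z₁) :=
    hg.continuousOn.integrableOn_compact (isCompact_Icc.prod isCompact_Icc)
  rw [IntegrableOn, Measure.volume_eq_prod, ← Measure.prod_restrict] at hi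
  rw [Measure.volume_eq_prod, ← Measure.prod_restrict, integral_prod_symm _ hi]

/-- Poincaré inequality on a rectangle: `|f(p) - f(q)|² ≤ 2 ℓ₁ ∫ |∂_y f(·, z_p)|² + 2 ℓ₂ ∫ |∂_z f(y_q, ·)|²`, integrated over `p`, `q`;
`|f(p) - m|² ≤ mean of |f(p) - f(q)|²`. -/
theorem poincare_rect {y₀ y₁ z₀ z₁ : ℝ} (hy : y₀ < y₁) (hz : z₀ < z₁) : ∃ C, 0 ≤ C ∧ ∀ f : ℝ × ℝ → ℂ, ContDiff ℝ 1 f →
    ∫ p in Icc y₀ y₁ ×ˢ Icc z₀ z₁,
        ‖f p - (((y₁ - y₀) * (z₁ - z₀) : ℝ) : ℂ)⁻¹ * ∫ q in Icc y₀ y₁ ×ˢ Icc z₀ z₁, f q‖ ^ 2 ≤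
      C * ∫ p in Icc y₀ y₁ ×ˢ Icc z₀ z₁, (‖dyc f p‖ ^ 2 + ‖dzc f p‖ ^ 2) := by
  set ℓ₁ := y₁ - y₀ with hℓ₁
  set ℓ₂ := z₁ - z₀ with hℓ₂
  have l1 : 0 < ℓ₁ := sub_pos.2 hy
  have l2 : 0 < ℓ₂ := sub_pos.2 hz
  set Q : Set (ℝ × ℝ) := Icc y₀ y₁ ×ˢ Icc z₀ z₁ with hQ
  have hQc : IsCompact Q := isCompact_Icc.prod isCompact_Icc
  have hQr : volume.real Q = ℓ₁ * ℓ₂ := by
    rw [hQ, Measure.volume_eq_prod, measureReal_prod_prod, Real.volume_real_Icc_of_le hy.le,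
      Real.volume_real_Icc_of_le hz.le]
  have : IsFiniteMeasure (volume.restrict Q) := ⟨by
    rw [Measure.restrict_apply_univ]
    exact hQc.measure_lt_top⟩
  refine ⟨2 * (ℓ₁ ^ 2 + ℓ₂ ^ 2), by positivity, fun f hf => ?_⟩
  have hfc : Continuous f := hf.continuous
  have hfd : Continuous (fderiv ℝ f) := hf.continuous_fderiv (by norm_num)
  have cy : Continuous (dyc f) := hfd.clm_apply continuous_const
  have cz : Continuous (dzc f) := hfd.clm_apply continuous_const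
  set U : ℝ → ℝ := fun z => ∫ t in Icc y₀ y₁, ‖dyc f (t, z)‖ ^ 2 with hU
  set W : ℝ → ℝ := fun y => ∫ t in Icc z₀ z₁, ‖dzc f (y, t)‖ ^ 2 with hW
  have cU : Continuous U :=
    continuous_parametric_integral_of_continuous (f := fun z t => ‖dyc f (t, z)‖ ^ 2)
      (nf3i_csq (g := fun p : ℝ × ℝ => dyc f (p.2, p.1)) (cy.comp (by fun_prop))) isCompact_Icc
  have cW : Continuous W :=
    continuous_parametric_integral_of_continuous (f := fun y t => ‖dzc f (y, t)‖ ^ 2)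
      (nf3i_csq (g := fun p : ℝ × ℝ => dzc f (p.1, p.2)) cz) isCompact_Icc
  have iy : ∫ z in Icc z₀ z₁, U z = ∫ p in Q, ‖dyc f p‖ ^ 2 := (nf3i_fub' (cy.norm.pow 2)).symm
  have iz : ∫ y in Icc y₀ y₁, W y = ∫ p in Q, ‖dzc f p‖ ^ 2 := (nf3i_fub (cz.norm.pow 2)).symm
  have int : ∀ {g : ℝ × ℝ → ℝ}, Continuous g → IntegrableOn g Q := fun hg =>
    hg.continuousOn.integrableOn_compact hQc
  have intc : ∀ {g : ℝ × ℝ → ℂ}, Continuous g → IntegrableOn g Q := fun hg =>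
    hg.continuousOn.integrableOn_compact hQc
  -- two points
  have h2 : ∀ p ∈ Q, ∀ q ∈ Q, ‖f p - f q‖ ^ 2 ≤ 2 * ℓ₁ * U p.2 + 2 * ℓ₂ * W q.1 := by
    rintro ⟨y, z⟩ ⟨hy1, hz1⟩ ⟨y', z'⟩ ⟨hy2, hz2⟩
    have a1 : ‖f (y, z) - f (y', z)‖ ^ 2 ≤ ℓ₁ * U z :=
      nf3i_one hy.le (h := fun t => f (t, z)) (h' := fun t => dyc f (t, z)) (fun t => nf3i_dy hf t z)
        (cy.comp (by fun_prop)) hy1 hy2
    have a2 : ‖f (y', z) - f (y', z')‖ ^ 2 ≤ ℓ₂ * W y' :=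
      nf3i_one hz.le (h := fun t => f (y', t)) (h' := fun t => dzc f (y', t)) (fun t => nf3i_dz hf y' t)
        (cz.comp (by fun_prop)) hz1 hz2
    have a3 : ‖f (y, z) - f (y', z')‖ ≤ ‖f (y, z) - f (y', z)‖ + ‖f (y', z) - f (y', z')‖ :=
      norm_sub_le_norm_sub_add_norm_sub _ _ _
    have a4 := pow_le_pow_left₀ (norm_nonneg _) a3 2
    have a5 := sq_nonneg (‖f (y, z) - f (y', z)‖ - ‖f (y', z) - f (y', z')‖)
    show ‖f (y, z) - f (y', z')‖ ^ 2 ≤ 2 * ℓ₁ * U z + 2 * ℓ₂ * W y'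
    nlinarith
  set Iz := ∫ p in Q, ‖dzc f p‖ ^ 2 with hIz
  set Iy := ∫ p in Q, ‖dyc f p‖ ^ 2 with hIy
  have jW : ∫ q in Q, W q.1 = ℓ₂ * Iz := by
    rw [← iz, hQ, nf3i_fub (g := fun p => W p.1) (cW.comp continuous_fst)]
    have e : ∀ y : ℝ, ∫ _ in Icc z₀ z₁, W y = ℓ₂ * W y := fun y => by
      rw [setIntegral_const, Real.volume_real_Icc_of_le hz.le, smul_eq_mul]
    show ∫ y in Icc y₀ y₁, ∫ _ in Icc z₀ z₁, W y = _
    simp only [e]
    rw [integral_const_mul]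
  have jU : ∫ q in Q, U q.2 = ℓ₁ * Iy := by
    rw [← iy, hQ, nf3i_fub' (g := fun p => U p.2) (cU.comp continuous_snd)]
    have e : ∀ z : ℝ, ∫ _ in Icc y₀ y₁, U z = ℓ₁ * U z := fun z => by
      rw [setIntegral_const, Real.volume_real_Icc_of_le hy.le, smul_eq_mul]
    show ∫ z in Icc z₀ z₁, ∫ _ in Icc y₀ y₁, U z = _
    simp only [e]
    rw [integral_const_mul]
  have hA : 0 < ℓ₁ * ℓ₂ := mul_pos l1 l2
  -- one point
  have h1 : ∀ p ∈ Q, ‖f p - ((ℓ₁ * ℓ₂ : ℝ) : ℂ)⁻¹ * ∫ q in Q, f q‖ ^ 2 ≤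
      2 * ℓ₁ * U p.2 + 2 * ℓ₂ * (ℓ₁⁻¹ * Iz) := by
    intro p hp
    have e1 : f p - ((ℓ₁ * ℓ₂ : ℝ) : ℂ)⁻¹ * ∫ q in Q, f q =
        ((ℓ₁ * ℓ₂ : ℝ) : ℂ)⁻¹ * ∫ q in Q, (f p - f q) := by
      have hAc : ((ℓ₁ * ℓ₂ : ℝ) : ℂ) ≠ 0 := Complex.ofReal_ne_zero.2 hA.ne'
      rw [integral_sub (intc continuous_const) (intc hfc), setIntegral_const, hQr, Complex.real_smul]
      generalize ((ℓ₁ * ℓ₂ : ℝ) : ℂ) = A at hAc
      generalize (∫ q in Q, f q) = J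
      field_simp
    rw [e1, norm_mul, norm_inv, Complex.norm_real, Real.norm_of_nonneg hA.le, mul_pow]
    have b1 := nf3i_csn (μ := volume.restrict Q) (g := fun q => f p - f q)
      (intc (continuous_const.sub hfc)) (int ((continuous_const.sub hfc).norm.pow 2))
    rw [measureReal_restrict_apply_univ, hQr] at b1
    have b2 : ∫ q in Q, ‖f p - f q‖ ^ 2 ≤ ∫ q in Q, (2 * ℓ₁ * U p.2 + 2 * ℓ₂ * W q.1) :=
      setIntegral_mono_on (int ((continuous_const.sub hfc).norm.pow 2))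
        (int (continuous_const.add (continuous_const.mul (cW.comp continuous_fst)))) hQc.measurableSet
        fun q hq => h2 p hp q hq
    have b3 : ∫ q in Q, (2 * ℓ₁ * U p.2 + 2 * ℓ₂ * W q.1) =
        ℓ₁ * ℓ₂ * (2 * ℓ₁ * U p.2) + 2 * ℓ₂ * (ℓ₂ * Iz) := by
      have c1 : IntegrableOn (fun q : ℝ × ℝ => 2 * ℓ₂ * W q.1) Q :=
        int (continuous_const.mul (cW.comp continuous_fst))
      rw [integral_add (int continuous_const) c1, setIntegral_const, hQr, integral_const_mul, jW, smul_eq_mul]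
    rw [b3] at b2
    have b4 := b1.trans (mul_le_mul_of_nonneg_left b2 hA.le)
    have b5 := mul_le_mul_of_nonneg_left b4 (sq_nonneg (ℓ₁ * ℓ₂)⁻¹)
    refine b5.trans (le_of_eq ?_)
    field_simp
  have h3 : ∫ p in Q, ‖f p - ((ℓ₁ * ℓ₂ : ℝ) : ℂ)⁻¹ * ∫ q in Q, f q‖ ^ 2 ≤
      ∫ p in Q, (2 * ℓ₁ * U p.2 + 2 * ℓ₂ * (ℓ₁⁻¹ * Iz)) :=
    setIntegral_mono_on (int ((hfc.sub continuous_const).norm.pow 2))
      (int ((continuous_const.mul (cU.comp continuous_snd)).add continuous_const)) hQc.measurableSet h1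
  refine h3.trans ?_
  have e3 : ∫ p in Q, (2 * ℓ₁ * U p.2 + 2 * ℓ₂ * (ℓ₁⁻¹ * Iz)) =
      2 * ℓ₁ * (ℓ₁ * Iy) + ℓ₁ * ℓ₂ * (2 * ℓ₂ * (ℓ₁⁻¹ * Iz)) := by
    have c1 : IntegrableOn (fun p : ℝ × ℝ => 2 * ℓ₁ * U p.2) Q :=
      int (continuous_const.mul (cU.comp continuous_snd))
    rw [integral_add c1 (int continuous_const), setIntegral_const, hQr, integral_const_mul, jU, smul_eq_mul]
  rw [e3, integral_add (int (nf3i_csq cy)) (int (nf3i_csq cz))]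
  have hIy0 : 0 ≤ Iy := integral_nonneg fun p => sq_nonneg _
  have hIz0 : 0 ≤ Iz := integral_nonneg fun p => sq_nonneg _
  have e4 : ℓ₁ * ℓ₂ * (2 * ℓ₂ * (ℓ₁⁻¹ * Iz)) = 2 * ℓ₂ ^ 2 * Iz := by
    field_simp
  rw [e4]
  have p1 : 0 ≤ ℓ₁ ^ 2 * Iz := by positivity
  have p2 : 0 ≤ ℓ₂ ^ 2 * Iy := by positivity
  show 2 * ℓ₁ * (ℓ₁ * Iy) + 2 * ℓ₂ ^ 2 * Iz ≤ 2 * (ℓ₁ ^ 2 + ℓ₂ ^ 2) * (Iy + Iz)
  nlinarith

end Pool.Agent.Lib.MP_79abb3_an.PD
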