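import Pool.Agent.Lib.MP_79abb3_an.PD.NF3e
import Pool.Agent.Lib.MP_79abb3_an.PD.NF3f
import Pool.Agent.Lib.MP_79abb3_an.PD.NF3h
import Pool.Agent.Lib.MP_79abb3_an.PD.NF1c

/-!
Theorem D (MP_79abb3_an), block N: collars: the data of a collar.
-/

set_option autoImplicit false
set_option linter.unusedSectionVars false

open MeasureTheory Set Filter Topology Function
open scoped ENNReal InnerProductSpace

namespace Pool.Agent.Lib.MP_79abb3_an.PD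

open Pool.Agent.Lib.MP_79abb3_an.P25 Pool.Agent.Lib.MP_79abb3_an.SC

/-- Data of a collar: the collar `F`, the depth `c`, the cut-off `ζ` (`1` for `z ≤ c/4`, `0` for `z ≥ c/2`), the weight `a`. -/
structure Cld (D : Set ℂ) (ρ : ℝ) (F : ℂ → ℂ) (c : ℝ) (ζ : ℝ → ℂ) (a : ℝ × ℝ → ℝ) : Prop where
  op : IsOpen D
  bdd : Bornology.IsBounded D
  col : IsCollar D ρ F
  ρ0 : 0 < ρ
  c0 : 0 < c
  cL : c < -Real.log ρ
  cpi : c < Real.pi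
  ζs : ContDiff ℝ ((⊤ : ℕ∞) : WithTop ℕ∞) ζ
  ζr : ∀ z, (starRingEnd ℂ) (ζ z) = ζ z
  ζ1 : ∀ z, z ≤ c / 4 → ζ z = 1
  ζ0 : ∀ z, c / 2 ≤ z → ζ z = 0
  apc : PCn (fun p => (a p : ℂ))
  a0 : ∀ p, 0 < a p
  aJ : ∀ y z, 0 ≤ z → z ≤ 3 * c / 4 → a (y, z) * JF F (y, z) = 1

/-- the ring `c/4 ≤ z ≤ c/2` -/
def Qr (c : ℝ) : Set (ℝ × ℝ) := Icc (-Real.pi) Real.pi ×ˢ Icc (c / 4) (c / 2)

/-- the ring in the domain, compact -/
def Rr (F : ℂ → ℂ) (c : ℝ) : Set ℂ := Ph F '' Qr c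

/-- the mean over the ring -/
noncomputable def mQ (F : ℂ → ℂ) (c : ℝ) (ψ : ℂ → ℂ) : ℂ :=
  (((Real.pi - -Real.pi) * (c / 2 - c / 4) : ℝ) : ℂ)⁻¹ * ∫ q in Qr c, ψ (Ph F q)

/-- `ψ ∘ Φ - m` -/
noncomputable def hat (F : ℂ → ℂ) (c : ℝ) (ψ : ℂ → ℂ) (p : ℝ × ℝ) : ℂ := ψ (Ph F p) - mQ F c ψ

/-- the localized stream function `ζ (ψ ∘ Φ - m)` -/
noncomputable def zhat (F : ℂ → ℂ) (c : ℝ) (ζ : ℝ → ℂ) (ψ : ℂ → ℂ) (p : ℝ × ℝ) : ℂ := ζ p.2 * hat F c ψ p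

variable {D : Set ℂ} {ρ : ℝ} {F : ℂ → ℂ} {c : ℝ} {ζ : ℝ → ℂ} {a : ℝ × ℝ → ℝ}

/-- existence: `c < min π (-log ρ)`, `Real.smoothTransition`, `exists_weight` -/
theorem exists_Cld (hO : IsOpen D) (hb : Bornology.IsBounded D) (hF : IsCollar D ρ F) (h0 : 0 < ρ) (h1 : ρ < 1) :
    ∃ c ζ a, Cld D ρ F c ζ a := by
  have hl : 0 < -Real.log ρ := neg_pos.2 (Real.log_neg h0 h1)
  obtain ⟨c, hc0, hcπ, hcl⟩ : ∃ c, 0 < c ∧ c < Real.pi ∧ c < -Real.log ρ := by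
    have hm : 0 < min Real.pi (-Real.log ρ) := lt_min Real.pi_pos hl
    obtain ⟨c, hc, hc'⟩ := exists_between hm
    exact ⟨c, hc, hc'.trans_le (min_le_left _ _), hc'.trans_le (min_le_right _ _)⟩
  obtain ⟨a, ha, ha0, haJ⟩ := exists_weight hF h0 (b := 3 * c / 4) (by positivity) (by linarith)
  refine ⟨c, fun z => ((Real.smoothTransition ((c / 2 - z) / (c / 4)) : ℝ) : ℂ), a, hO, hb, hF, h0, hc0, hcl,
    hcπ, ?_, ?_, ?_, ?_, ha, ha0, haJ⟩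
  · exact Complex.ofRealCLM.contDiff.comp
      (Real.smoothTransition.contDiff.comp ((contDiff_const.sub contDiff_id).div_const _))
  · exact fun z => Complex.conj_ofReal _
  · intro z hz
    have h2 : 1 ≤ (c / 2 - z) / (c / 4) := by
      rw [le_div_iff₀ (by positivity)]
      linarith
    show ((Real.smoothTransition ((c / 2 - z) / (c / 4)) : ℝ) : ℂ) = 1
    rw [Real.smoothTransition.one_of_one_le h2, Complex.ofReal_one]
  · intro z hz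
    have h2 : (c / 2 - z) / (c / 4) ≤ 0 := div_nonpos_of_nonpos_of_nonneg (by linarith) (by positivity)
    show ((Real.smoothTransition ((c / 2 - z) / (c / 4)) : ℝ) : ℂ) = 0
    rw [Real.smoothTransition.zero_of_nonpos h2, Complex.ofReal_zero]

theorem Cld.Rr_compact (h : Cld D ρ F c ζ a) : IsCompact (Rr F c) :=
  (isCompact_Icc.prod isCompact_Icc).image (Ph_pc h.col).smooth.continuous

theorem Cld.Rr_sub (h : Cld D ρ F c ζ a) : Rr F c ⊆ D := by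
  rintro _ ⟨p, ⟨-, hp⟩, rfl⟩
  have hc := h.c0
  have hl := h.cL
  exact h.col.sub ⟨xi p, xi_ring h.ρ0 (by linarith [hp.1]) (by linarith [hp.2]), rfl⟩

theorem Cld.rg_sub_Rr (h : Cld D ρ F c ζ a) : F '' rg (c / 4) (c / 2) ⊆ Rr F c := by
  have _h := h.c0
  rintro _ ⟨ξ, ⟨h1, h2⟩, rfl⟩
  have hpos : 0 < ‖ξ‖ := (Real.exp_pos _).trans h1
  obtain ⟨y, hy, hξ⟩ := exists_xi (norm_pos_iff.1 hpos)
  refine ⟨(y, -Real.log ‖ξ‖), ⟨⟨hy.1.le, hy.2⟩, ?_, ?_⟩, by unfold Ph; rw [hξ]⟩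
  · have h3 := (Real.log_lt_iff_lt_exp hpos).2 h2
    show c / 4 ≤ -Real.log ‖ξ‖
    linarith
  · have h3 := (Real.lt_log_iff_exp_lt hpos).2 h1
    show -Real.log ‖ξ‖ ≤ c / 2
    linarith

theorem Cld.hat_pc (h : Cld D ρ F c ζ a) {ψ : ℂ → ℂ} (hψ : Smo ψ) : PCn (hat F c ψ) := by
  have h1 := (comp_pc h.col hψ).add (PCn.const (-mQ F c ψ))
  have e : hat F c ψ = fun p => ψ (Ph F p) + -mQ F c ψ := funext fun p => sub_eq_add_neg _ _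
  rw [e]
  exact h1

theorem Cld.zhat_pc (h : Cld D ρ F c ζ a) {ψ : ℂ → ℂ} (hψ : Smo ψ) : PCn (zhat F c ζ ψ) :=
  (PCn.ofz h.ζs).mul (h.hat_pc hψ)

theorem Cld.zhat_VT (h : Cld D ρ F c ζ a) (ψ : ℂ → ℂ) : VTc (zhat F c ζ ψ) := by
  have h1 := h.c0
  have h2 := h.cpi
  refine ⟨Real.pi - c / 2, by linarith, fun y z hz => ?_⟩
  show ζ z * hat F c ψ (y, z) = 0
  rw [h.ζ0 z (by linarith), zero_mul]

/-- `Adm.const_near`, `ζ = 1` near `z = 0` -/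
theorem Cld.zhat_VB (h : Cld D ρ F c ζ a) (ψ : Adm D) : VBc (zhat F c ζ ψ) := by
  have h1 := h.c0
  obtain ⟨ε, hε, h2⟩ := Adm.const_near h.op h.col ψ
  refine ⟨(ψ : ℂ → ℂ) (F 1) - mQ F c ψ, min ε (c / 4), lt_min hε (by positivity), fun y z hz => ?_⟩
  show ζ z * ((ψ : ℂ → ℂ) (Ph F (y, z)) - mQ F c ψ) = _
  rw [h.ζ1 z ((le_abs_self z).trans (hz.trans (min_le_right _ _))), one_mul,
    h2 y z (hz.trans (min_le_left _ _))]

theorem Cld.hat_add (h : Cld D ρ F c ζ a) {ψ χ : ℂ → ℂ} (hψ : Smo ψ) (hχ : Smo χ) (p : ℝ × ℝ) :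
    hat F c (fun x => ψ x + χ x) p = hat F c ψ p + hat F c χ p := by
  have hi : ∀ {f : ℂ → ℂ}, Smo f → IntegrableOn (fun q => f (Ph F q)) (Qr c) := fun hf =>
    (comp_pc h.col hf).smooth.continuous.continuousOn.integrableOn_compact
      (isCompact_Icc.prod isCompact_Icc)
  unfold hat mQ
  rw [integral_add (hi hψ) (hi hχ)]
  ring

theorem Cld.hat_cmul (h : Cld D ρ F c ζ a) (e : ℂ) {ψ : ℂ → ℂ} (hψ : Smo ψ) (p : ℝ × ℝ) :
    hat F c (fun x => e * ψ x) p = e * hat F c ψ p := by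
  have _h := h.c0
  have _h' := hψ
  unfold hat mQ
  rw [integral_const_mul]
  ring

end Pool.Agent.Lib.MP_79abb3_an.PD
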