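import Pool.Agent.Lib.MP_79abb3_an.PD.NG1a

/-!
Theorem D (MP_79abb3_an), block N: collars: the localization maps on smooth stream functions.
-/

set_option autoImplicit false
set_option linter.unusedSectionVars false

open MeasureTheory Set Filter Topology Function
open scoped ENNReal InnerProductSpace

namespace Pool.Agent.Lib.MP_79abb3_an.PD

open Pool.Agent.Lib.MP_79abb3_an.P25 Pool.Agent.Lib.MP_79abb3_an.SC

variable {D : Set ℂ} {ρ : ℝ} {F : ℂ → ℂ} {c : ℝ} {ζ : ℝ → ℂ} {a : ℝ × ℝ → ℝ}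

/-! ### The linear maps on stream functions -/

/-- `k(z) (ψ ∘ Φ - m)` -/
noncomputable def khat (F : ℂ → ℂ) (c : ℝ) (k : ℝ → ℂ) (ψ : ℂ → ℂ) (p : ℝ × ℝ) : ℂ := k p.2 * hat F c ψ p

/-- `k(z) ∂_z (ψ ∘ Φ)` -/
noncomputable def kdz (F : ℂ → ℂ) (c : ℝ) (k : ℝ → ℂ) (ψ : ℂ → ℂ) (p : ℝ × ℝ) : ℂ := k p.2 * dzc (hat F c ψ) p

/-- `k(z) a (-Δ(ψ ∘ Φ))` -/
noncomputable def klp (F : ℂ → ℂ) (c : ℝ) (a : ℝ × ℝ → ℝ) (k : ℝ → ℂ) (ψ : ℂ → ℂ) (p : ℝ × ℝ) : ℂ :=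
  k p.2 * ((a p : ℂ) * lpc (hat F c ψ) p)

/-- smooth functions of `z` with support in the ring -/
structure Kz (c : ℝ) (k : ℝ → ℂ) : Prop where
  smooth : ContDiff ℝ ((⊤ : ℕ∞) : WithTop ℕ∞) k
  lo : ∀ z, z ≤ c / 4 → k z = 0
  hi : ∀ z, c / 2 ≤ z → k z = 0

private theorem ng1b_der {k : ℝ → ℂ} (hk : ContDiff ℝ ((⊤ : ℕ∞) : WithTop ℕ∞) k) :
    ContDiff ℝ ((⊤ : ℕ∞) : WithTop ℕ∞) (deriv k) :=
  (contDiff_infty_iff_deriv.1 hk).2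

private theorem ng1b_lo {k : ℝ → ℂ} (hk : ContDiff ℝ ((⊤ : ℕ∞) : WithTop ℕ∞) k) {b : ℝ} {e : ℂ}
    (h : ∀ z, z ≤ b → k z = e) : ∀ z, z ≤ b → deriv k z = 0 := by
  have hc : Continuous (deriv k) := (ng1b_der hk).continuous
  have h1 : ∀ z ∈ Iio b, deriv k z = 0 := fun z hz => by
    have h2 : k =ᶠ[𝓝 z] fun _ => e := by
      filter_upwards [isOpen_Iio.mem_nhds hz] with w hw
      exact h w (le_of_lt hw)
    rw [h2.deriv_eq, deriv_const]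
  have h2 : closure (Iio b) ⊆ {z | deriv k z = 0} :=
    closure_minimal h1 (isClosed_eq hc continuous_const)
  rw [closure_Iio] at h2
  exact fun z hz => h2 hz

private theorem ng1b_hi {k : ℝ → ℂ} (hk : ContDiff ℝ ((⊤ : ℕ∞) : WithTop ℕ∞) k) {b : ℝ} {e : ℂ}
    (h : ∀ z, b ≤ z → k z = e) : ∀ z, b ≤ z → deriv k z = 0 := by
  have hc : Continuous (deriv k) := (ng1b_der hk).continuous
  have h1 : ∀ z ∈ Ioi b, deriv k z = 0 := fun z hz => by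
    have h2 : k =ᶠ[𝓝 z] fun _ => e := by
      filter_upwards [isOpen_Ioi.mem_nhds hz] with w hw
      exact h w (le_of_lt hw)
    rw [h2.deriv_eq, deriv_const]
  have h2 : closure (Ioi b) ⊆ {z | deriv k z = 0} :=
    closure_minimal h1 (isClosed_eq hc continuous_const)
  rw [closure_Ioi] at h2
  exact fun z hz => h2 hz

theorem Cld.kz1 (h : Cld D ρ F c ζ a) : Kz c (deriv ζ) :=
  ⟨ng1b_der h.ζs, ng1b_lo h.ζs h.ζ1, ng1b_hi h.ζs h.ζ0⟩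

theorem Cld.kz2 (h : Cld D ρ F c ζ a) : Kz c (deriv (deriv ζ)) :=
  ⟨ng1b_der h.kz1.smooth, ng1b_lo h.kz1.smooth h.kz1.lo, ng1b_hi h.kz1.smooth h.kz1.hi⟩

theorem Cld.kz21 (h : Cld D ρ F c ζ a) : Kz c (fun z => 2 * deriv ζ z) :=
  ⟨contDiff_const.mul h.kz1.smooth, fun z hz => by rw [h.kz1.lo z hz, mul_zero],
    fun z hz => by rw [h.kz1.hi z hz, mul_zero]⟩

theorem Cld.khat_pc (h : Cld D ρ F c ζ a) {k : ℝ → ℂ} (hk : ContDiff ℝ ((⊤ : ℕ∞) : WithTop ℕ∞) k) {ψ : ℂ → ℂ} (hψ : Smo ψ) :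
    PCn (khat F c k ψ) :=
  (PCn.ofz hk).mul (h.hat_pc hψ)

theorem Cld.kdz_pc (h : Cld D ρ F c ζ a) {k : ℝ → ℂ} (hk : ContDiff ℝ ((⊤ : ℕ∞) : WithTop ℕ∞) k) {ψ : ℂ → ℂ} (hψ : Smo ψ) :
    PCn (kdz F c k ψ) :=
  (PCn.ofz hk).mul (h.hat_pc hψ).dz

theorem Cld.klp_pc (h : Cld D ρ F c ζ a) {k : ℝ → ℂ} (hk : ContDiff ℝ ((⊤ : ℕ∞) : WithTop ℕ∞) k) {ψ : ℂ → ℂ} (hψ : Smo ψ) :
    PCn (klp F c a k ψ) :=
  (PCn.ofz hk).mul (h.apc.mul (h.hat_pc hψ).lp)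

private theorem ng1b_fadd (h : Cld D ρ F c ζ a) {ψ χ : ℂ → ℂ} (hψ : Smo ψ) (hχ : Smo χ) :
    hat F c (ψ + χ) = fun p => hat F c ψ p + hat F c χ p :=
  funext fun p => h.hat_add hψ hχ p

private theorem ng1b_fmul (h : Cld D ρ F c ζ a) (e : ℂ) {ψ : ℂ → ℂ} (hψ : Smo ψ) :
    hat F c (e • ψ) = fun p => e * hat F c ψ p :=
  funext fun p => h.hat_cmul e hψ p

private theorem ng1b_zadd (h : Cld D ρ F c ζ a) {ψ χ : ℂ → ℂ} (hψ : Smo ψ) (hχ : Smo χ) (k : ℝ → ℂ) :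
    khat F c k (ψ + χ) = fun p => khat F c k ψ p + khat F c k χ p := by
  funext p
  unfold khat
  rw [ng1b_fadd h hψ hχ, mul_add]

private theorem ng1b_zmul (h : Cld D ρ F c ζ a) (e : ℂ) {ψ : ℂ → ℂ} (hψ : Smo ψ) (k : ℝ → ℂ) :
    khat F c k (e • ψ) = fun p => e * khat F c k ψ p := by
  funext p
  unfold khat
  rw [ng1b_fmul h e hψ]
  ring

/-- `ψ ↦ bHn (ζ (ψ∘Φ - m))` (`bHn_add`, `bHn_cmul`, `hat_add`, `hat_cmul`) -/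
noncomputable def LaL (h : Cld D ρ F c ζ a) : Adm D →ₗ[ℂ] HH Real.pi where
  toFun ψ := bHn (zhat F c ζ ψ)
  map_add' ψ χ := by
    have e : zhat F c ζ ((ψ : ℂ → ℂ) + (χ : ℂ → ℂ)) = fun p => zhat F c ζ ψ p + zhat F c ζ χ p :=
      ng1b_zadd h (Adm.cc ψ).smo (Adm.cc χ).smo ζ
    show bHn (zhat F c ζ ((ψ : ℂ → ℂ) + (χ : ℂ → ℂ))) = _
    rw [e, bHn_add (h.zhat_pc (Adm.cc ψ).smo) (h.zhat_pc (Adm.cc χ).smo)]
  map_smul' e ψ := by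
    have e1 : zhat F c ζ (e • (ψ : ℂ → ℂ)) = fun p => e * zhat F c ζ ψ p :=
      ng1b_zmul h e (Adm.cc ψ).smo ζ
    show bHn (zhat F c ζ (e • (ψ : ℂ → ℂ))) = _
    rw [e1, bHn_cmul e (h.zhat_pc (Adm.cc ψ).smo)]
    rfl

/-- `ψ ↦ fHn (-Δ(ζ (ψ∘Φ - m)))` -/
noncomputable def GaL (h : Cld D ρ F c ζ a) : Adm D →ₗ[ℂ] HH Real.pi where
  toFun ψ := fHn (lpc (zhat F c ζ ψ))
  map_add' ψ χ := by
    have hψ := h.zhat_pc (Adm.cc ψ).smo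
    have hχ := h.zhat_pc (Adm.cc χ).smo
    have e : zhat F c ζ ((ψ : ℂ → ℂ) + (χ : ℂ → ℂ)) = fun p => zhat F c ζ ψ p + zhat F c ζ χ p :=
      ng1b_zadd h (Adm.cc ψ).smo (Adm.cc χ).smo ζ
    have e2 : lpc (fun p => zhat F c ζ ψ p + zhat F c ζ χ p) =
        fun p => lpc (zhat F c ζ ψ) p + lpc (zhat F c ζ χ) p := funext fun p => lpc_add hψ hχ p
    show fHn (lpc (zhat F c ζ ((ψ : ℂ → ℂ) + (χ : ℂ → ℂ)))) = _
    rw [e, e2, fHn_add hψ.lp hχ.lp]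
  map_smul' e ψ := by
    have hψ := h.zhat_pc (Adm.cc ψ).smo
    have e1 : zhat F c ζ (e • (ψ : ℂ → ℂ)) = fun p => e * zhat F c ζ ψ p :=
      ng1b_zmul h e (Adm.cc ψ).smo ζ
    have e2 : lpc (fun p => e * zhat F c ζ ψ p) = fun p => e * lpc (zhat F c ζ ψ) p :=
      funext fun p => lpc_cmul e hψ p
    show fHn (lpc (zhat F c ζ (e • (ψ : ℂ → ℂ)))) = _
    rw [e1, e2, fHn_cmul e hψ.lp]
    rfl

/-- `ψ ↦ fHn (k (ψ∘Φ - m))` -/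
noncomputable def PkL (h : Cld D ρ F c ζ a) {k : ℝ → ℂ} (hk : Kz c k) : Adm D →ₗ[ℂ] HH Real.pi where
  toFun ψ := fHn (khat F c k ψ)
  map_add' ψ χ := by
    show fHn (khat F c k ((ψ : ℂ → ℂ) + (χ : ℂ → ℂ))) = _
    rw [ng1b_zadd h (Adm.cc ψ).smo (Adm.cc χ).smo k, fHn_add (h.khat_pc hk.smooth (Adm.cc ψ).smo)
      (h.khat_pc hk.smooth (Adm.cc χ).smo)]
  map_smul' e ψ := by
    show fHn (khat F c k (e • (ψ : ℂ → ℂ))) = _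
    rw [ng1b_zmul h e (Adm.cc ψ).smo k, fHn_cmul e (h.khat_pc hk.smooth (Adm.cc ψ).smo)]
    rfl

/-- `ψ ↦ fHn (k ∂_z(ψ∘Φ))` -/
noncomputable def DkL (h : Cld D ρ F c ζ a) {k : ℝ → ℂ} (hk : Kz c k) : Adm D →ₗ[ℂ] HH Real.pi where
  toFun ψ := fHn (kdz F c k ψ)
  map_add' ψ χ := by
    have hψ := h.hat_pc (Adm.cc ψ).smo
    have hχ := h.hat_pc (Adm.cc χ).smo
    have e1 : kdz F c k ((ψ : ℂ → ℂ) + (χ : ℂ → ℂ)) = fun p => kdz F c k ψ p + kdz F c k χ p := by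
      funext p
      unfold kdz
      rw [ng1b_fadd h (Adm.cc ψ).smo (Adm.cc χ).smo, dzc_add hψ hχ, mul_add]
    show fHn (kdz F c k ((ψ : ℂ → ℂ) + (χ : ℂ → ℂ))) = _
    rw [e1, fHn_add (h.kdz_pc hk.smooth (Adm.cc ψ).smo) (h.kdz_pc hk.smooth (Adm.cc χ).smo)]
  map_smul' e ψ := by
    have hψ := h.hat_pc (Adm.cc ψ).smo
    have e1 : kdz F c k (e • (ψ : ℂ → ℂ)) = fun p => e * kdz F c k ψ p := by
      funext p
      unfold kdz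
      rw [ng1b_fmul h e (Adm.cc ψ).smo, dzc_mul (PCn.const e) hψ]
      have e2 : dzc (fun _ : ℝ × ℝ => e) p = 0 := by
        unfold dzc
        rw [fderiv_const_apply]
        rfl
      rw [e2]
      ring
    show fHn (kdz F c k (e • (ψ : ℂ → ℂ))) = _
    rw [e1, fHn_cmul e (h.kdz_pc hk.smooth (Adm.cc ψ).smo)]
    rfl

/-- `ψ ↦ fHn (k a (-Δ(ψ∘Φ)))` -/
noncomputable def WkL (h : Cld D ρ F c ζ a) {k : ℝ → ℂ} (hk : Kz c k) : Adm D →ₗ[ℂ] HH Real.pi where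
  toFun ψ := fHn (klp F c a k ψ)
  map_add' ψ χ := by
    have hψ := h.hat_pc (Adm.cc ψ).smo
    have hχ := h.hat_pc (Adm.cc χ).smo
    have e1 : klp F c a k ((ψ : ℂ → ℂ) + (χ : ℂ → ℂ)) = fun p => klp F c a k ψ p + klp F c a k χ p := by
      funext p
      unfold klp
      rw [ng1b_fadd h (Adm.cc ψ).smo (Adm.cc χ).smo, lpc_add hψ hχ]
      ring
    show fHn (klp F c a k ((ψ : ℂ → ℂ) + (χ : ℂ → ℂ))) = _
    rw [e1, fHn_add (h.klp_pc hk.smooth (Adm.cc ψ).smo) (h.klp_pc hk.smooth (Adm.cc χ).smo)]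
  map_smul' e ψ := by
    have hψ := h.hat_pc (Adm.cc ψ).smo
    have e1 : klp F c a k (e • (ψ : ℂ → ℂ)) = fun p => e * klp F c a k ψ p := by
      funext p
      unfold klp
      rw [ng1b_fmul h e (Adm.cc ψ).smo, lpc_cmul e hψ]
      ring
    show fHn (klp F c a k (e • (ψ : ℂ → ℂ))) = _
    rw [e1, fHn_cmul e (h.klp_pc hk.smooth (Adm.cc ψ).smo)]
    rfl

end Pool.Agent.Lib.MP_79abb3_an.PD
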