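import Pool.Agent.Lib.MP_79abb3_an.PD.SpCa

/-!
Theorem D, block S: the weak form of the vorticity equation of `V(D)`, the form domain.
-/

set_option autoImplicit false
set_option linter.unusedSectionVars false

open MeasureTheory Set Filter Topology Function
open scoped ENNReal InnerProductSpace

namespace Pool.Agent.Lib.MP_79abb3_an.PD

open Pool.Agent.Lib.MP_79abb3_an.SC

variable {D : Set ℂ}

section
variable (hD : Bornology.IsBounded D)
include hD

/-- The weak form of `curl u = ω` (density, `ip_gp`). -/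
theorem inner_iot_gp (v : VD D) {φ : ℂ → ℂ} (hφ : Cc φ) :
    ⟪gp φ, ((iot D v : XD D) : Y2)⟫_ℂ = ⟪cl2 φ, (v : L2c)⟫_ℂ := by
  refine (cuV_dense D).induction
    (P := fun v : VD D => ⟪gp φ, ((iot D v : XD D) : Y2)⟫_ℂ = ⟪cl2 φ, (v : L2c)⟫_ℂ) ?_ ?_ v
  · rintro _ ⟨ψ, rfl⟩
    rw [iot_cuV hD, gpX_coe, cuV_coe, ← inner_conj_symm, ip_gp (Adm.cc ψ) hφ, inner_conj_symm]
  · exact isClosed_eq (by fun_prop) (by fun_prop)

omit hD in
private theorem inner_cl2 {f : ℂ → ℂ} (hf : MemLp f 2 (volume : Measure ℂ)) (u : L2c) :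
    ⟪cl2 f, u⟫_ℂ = ∫ x, u x * (starRingEnd ℂ) (f x) := by
  rw [L2.inner_def]
  refine integral_congr_ae ?_
  filter_upwards [cl2_coe hf] with x hx
  rw [hx, RCLike.inner_apply]

/-- The same in integral form (`inner_iot_gp` for `conj φ`). -/
theorem pair_VD (v : VD D) {η : ℂ → ℂ} (hη : Cc η) :
    ∫ x, (v : L2c) x * η x = ∫ x, (((iot D v : XD D) : Y2).fst x * py η x -
      ((iot D v : XD D) : Y2).snd x * px η x) := by
  have hc : Cc (fun x => (starRingEnd ℂ) (η x)) := hη.conj
  have h := inner_iot_gp hD v hc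
  have e1 : ⟪cl2 (fun x => (starRingEnd ℂ) (η x)), (v : L2c)⟫_ℂ = ∫ x, (v : L2c) x * η x := by
    rw [inner_cl2 (hc.memLp 2)]
    simp only [Complex.conj_conj]
  set U : Y2 := ((iot D v : XD D) : Y2) with hU
  have i1 : MemLp (fun x => py η x) 2 (volume : Measure ℂ) := hη.py.memLp 2
  have i2 : MemLp (fun x => px η x) 2 (volume : Measure ℂ) := hη.px.memLp 2
  have e2 : ⟪gp (fun x => (starRingEnd ℂ) (η x)), U⟫_ℂ =
      ∫ x, (U.fst x * py η x - U.snd x * px η x) := by
    unfold gp
    rw [WithLp.prod_inner_apply]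
    simp only [inner_neg_left]
    rw [hη.smo.py_conj, hη.smo.px_conj, inner_cl2, inner_cl2]
    · simp only [Complex.conj_conj]
      rw [integral_sub]
      · rw [← sub_eq_add_neg]; rfl
      · exact (Lp.memLp U.fst).integrable_mul i1
      · exact (Lp.memLp U.snd).integrable_mul i2
    · exact hη.px.conj.memLp 2
    · exact hη.py.conj.memLp 2
  rw [← e1, ← e2, h]

/-- Injectivity: `inner_iot_gp` with `iot v = 0` and density of `C_c^∞` in `L²`
(`ae_eq_zero_of_integral_contDiff_smul_eq_zero`); dense range: `iot_cuV`, `gpX_dense`. -/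
theorem fdom : FDom (iot D) := by
  constructor
  · intro v hv
    have hz : ∀ φ : ℂ → ℂ, Cc φ → ∫ x, (v : L2c) x * φ x = 0 := by
      intro φ hφ
      have h := inner_iot_gp hD v hφ.conj
      rw [hv] at h
      rw [inner_cl2 (hφ.conj.memLp 2)] at h
      simp only [Complex.conj_conj] at h
      rw [← h]
      simp
    have hae : ∀ᵐ x ∂(volume : Measure ℂ), (v : L2c) x = 0 := by
      refine ae_eq_zero_of_integral_contDiff_smul_eq_zero
        ((Lp.memLp (v : L2c)).locallyIntegrable (by norm_num)) fun g hg hc => ?_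
      have hG : Cc (fun x => (g x : ℂ)) := by
        refine ⟨Complex.ofRealCLM.contDiff.comp hg, ?_⟩
        exact hc.comp_left (g := fun r : ℝ => (r : ℂ)) (by simp)
      have := hz _ hG
      rw [← this]
      refine integral_congr_ae (Eventually.of_forall fun x => ?_)
      simp [mul_comm]
    apply Subtype.ext
    exact Lp.eq_zero_iff_ae_eq_zero.2 hae
  · refine (gpX_dense D).mono ?_
    rintro _ ⟨ψ, rfl⟩
    exact ⟨cuV D ψ, iot_cuV hD ψ⟩

theorem KD_nonneg : 0 ≤ KD D := KF_nonneg (iot D)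

theorem KD_inj (x : XD D) (hx : KD D x = 0) : x = 0 := (fdom hD).K_inj x hx

end

end Pool.Agent.Lib.MP_79abb3_an.PD
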