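import Pool.Agent.Lib.MP_79abb3_an.PD.NG1b
import Pool.Agent.Lib.MP_79abb3_an.PD.NF3i
import Pool.Agent.Lib.MP_79abb3_an.PD.NAa
import Pool.Agent.Lib.MP_79abb3_an.PD.SpC

/-!
Theorem D (MP_79abb3_an), block N: collars: bounds of the localization maps.
-/

set_option autoImplicit false
set_option linter.unusedSectionVars false

open MeasureTheory Set Filter Topology Function
open scoped ENNReal InnerProductSpace

namespace Pool.Agent.Lib.MP_79abb3_an.PD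

open Pool.Agent.Lib.MP_79abb3_an.P25 Pool.Agent.Lib.MP_79abb3_an.SC

variable {D : Set ℂ} {ρ : ℝ} {F : ℂ → ℂ} {c : ℝ} {ζ : ℝ → ℂ} {a : ℝ × ℝ → ℝ}

/-! ### Helpers -/

private theorem g2_ct {S : Set ℂ} (hS : MeasurableSet S) {f : ℂ → ℂ} (hf : Cc f) :
    ‖ct S (cl2 f)‖ ^ 2 = ∫ x in S, ‖f x‖ ^ 2 := by
  rw [norm_ct_sq hS]
  refine setIntegral_congr_ae hS ?_
  filter_upwards [cl2_coe (hf.memLp 2)] with x hx _
  rw [hx]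

private theorem g2_neg (S : Set ℂ) (f : L2c) : ‖ct S (-f)‖ = ‖ct S f‖ := by
  rw [map_neg, norm_neg]

private theorem g2_cint {f : ℂ → ℂ} (hf : Cc f) : Integrable fun x => ‖f x‖ ^ 2 :=
  Continuous.integrable_of_hasCompactSupport (f := fun x => ‖f x‖ ^ 2) (hf.smo.continuous.norm.pow 2)
    (hf.cpt.comp_left (g := fun z : ℂ => ‖z‖ ^ 2) (by simp))

/-- `∫_S |∇ψ|² = ‖ctY S (gp ψ)‖²`, `∫_S |Δψ|² = ‖ct S (cu ψ)‖²` -/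
theorem ctY_gp_sq {S : Set ℂ} (hS : MeasurableSet S) {ψ : ℂ → ℂ} (hψ : Cc ψ) :
    ‖ctY S (gp ψ)‖ ^ 2 = ∫ x in S, (‖px ψ x‖ ^ 2 + ‖py ψ x‖ ^ 2) := by
  have e1 : (gp ψ).fst = cl2 (py ψ) := rfl
  have e2 : (gp ψ).snd = -cl2 (px ψ) := rfl
  rw [norm_ctY_sq, e1, e2, g2_neg, g2_ct hS hψ.py, g2_ct hS hψ.px, add_comm]
  exact (integral_add (g2_cint hψ.px).integrableOn (g2_cint hψ.py).integrableOn).symm

theorem ct_cu_sq {S : Set ℂ} (hS : MeasurableSet S) {ψ : ℂ → ℂ} (hψ : Cc ψ) :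
    ‖ct S (cu ψ)‖ ^ 2 = ∫ x in S, ‖lap ψ x‖ ^ 2 := by
  have e1 : cu ψ = -cl2 (lap ψ) := rfl
  rw [e1, g2_neg, g2_ct hS hψ.lap]

/-! ### Integrals over rectangles -/

private theorem g2_box {E : Type} [NormedAddCommGroup E] [NormedSpace ℝ E] (a b a' b' : ℝ) (G : ℝ × ℝ → E) :
    ∫ p in Icc a b ×ˢ Icc a' b', G p = ∫ p in Ioo a b ×ˢ Ioo a' b', G p := by
  refine setIntegral_congr_set ?_
  rw [Measure.volume_eq_prod]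
  exact Measure.set_prod_ae_eq Ioo_ae_eq_Icc.symm Ioo_ae_eq_Icc.symm

private theorem g2_intOn {E : Type} [NormedAddCommGroup E] {G : ℝ × ℝ → E} (hG : Continuous G) (a b a' b' : ℝ) :
    IntegrableOn G (Icc a b ×ˢ Icc a' b') :=
  hG.continuousOn.integrableOn_compact (isCompact_Icc.prod isCompact_Icc)

private theorem g2_intOo {E : Type} [NormedAddCommGroup E] {G : ℝ × ℝ → E} (hG : Continuous G) (a b a' b' : ℝ) :
    IntegrableOn G (Ioo a b ×ˢ Ioo a' b') :=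
  (g2_intOn hG a b a' b').mono_set (prod_mono Ioo_subset_Icc_self Ioo_subset_Icc_self)

private theorem g2_meas (a b a' b' : ℝ) : MeasurableSet (Icc a b ×ˢ Icc a' b') :=
  measurableSet_Icc.prod measurableSet_Icc

private theorem g2_cell {G : ℝ × ℝ → ℝ} {a' b' : ℝ} (h0 : 0 ≤ a') (h1 : b' ≤ Real.pi)
    (hG : ∀ p ∈ cell, p.2 < a' ∨ b' < p.2 → G p = 0) :
    ∫ p in cell, G p = ∫ p in Icc (-Real.pi) Real.pi ×ˢ Icc a' b', G p := by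
  refine setIntegral_eq_of_subset_of_forall_sdiff_eq_zero (g2_meas _ _ _ _)
    (prod_mono subset_rfl (Icc_subset_Icc h0 h1)) fun p hp => hG p hp.1 ?_
  by_contra hc
  rw [not_or, not_lt, not_lt] at hc
  exact hp.2 ⟨hp.1.1, hc⟩

private theorem g2_dsub (f : ℝ × ℝ → ℂ) (m : ℂ) (p v : ℝ × ℝ) :
    fderiv ℝ (fun p => f p - m) p v = fderiv ℝ f p v := by
  rw [fderiv_sub_const]

private theorem g2_dy (F : ℂ → ℂ) (c : ℝ) (ψ : ℂ → ℂ) : dyc (hat F c ψ) = dyc (fun p => ψ (Ph F p)) :=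
  funext fun p => g2_dsub (fun p => ψ (Ph F p)) _ p (1, 0)

private theorem g2_dz (F : ℂ → ℂ) (c : ℝ) (ψ : ℂ → ℂ) : dzc (hat F c ψ) = dzc (fun p => ψ (Ph F p)) :=
  funext fun p => g2_dsub (fun p => ψ (Ph F p)) _ p (0, 1)

private theorem g2_lp (F : ℂ → ℂ) (c : ℝ) (ψ : ℂ → ℂ) : lpc (hat F c ψ) = lpc (fun p => ψ (Ph F p)) := by
  funext p
  unfold lpc
  rw [g2_dy, g2_dz]

private theorem g2_max3 {A B C x y : ℝ} (hA : 0 ≤ A) (hB : 0 ≤ B) (hC : 0 ≤ C) (hx : 0 ≤ x) :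
    (y ≤ A * x → y ≤ (A + B + C) * x) ∧ (y ≤ B * x → y ≤ (A + B + C) * x) ∧
      (y ≤ C * x → y ≤ (A + B + C) * x) := by
  have a := mul_nonneg hA hx
  have b := mul_nonneg hB hx
  have d := mul_nonneg hC hx
  refine ⟨fun h => ?_, fun h => ?_, fun h => ?_⟩ <;> nlinarith

/-- Poincaré on the ring: `∫_Q |ψ∘Φ - m|² ≤ C ∫_Q |∇(ψ∘Φ)|² = C ∫_{F(rg (c/4) (c/2))} |∇ψ|² ≤ C ‖ctY R (gp ψ)‖²` (`poincare_rect`, `int_grad`). -/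
theorem Cld.hat_le (h : Cld D ρ F c ζ a) : ∃ C, 0 ≤ C ∧ ∀ ψ : Adm D,
    ∫ p in Qr c, ‖hat F c ψ p‖ ^ 2 ≤ C * ‖ctY (Rr F c) (gp ψ)‖ ^ 2 ∧
    ∫ p in Qr c, (‖dyc (hat F c ψ) p‖ ^ 2 + ‖dzc (hat F c ψ) p‖ ^ 2) ≤ C * ‖ctY (Rr F c) (gp ψ)‖ ^ 2 ∧
    ∫ p in Qr c, ‖lpc (hat F c ψ) p‖ ^ 2 ≤ C * ‖ct (Rr F c) (cu ψ)‖ ^ 2 := by
  have hc0 := h.c0
  have hcL := h.cL
  have hpi := Real.pi_pos
  obtain ⟨C1, hC1, k1⟩ := poincare_rect (y₀ := -Real.pi) (y₁ := Real.pi) (z₀ := c / 4) (z₁ := c / 2)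
    (by linarith) (by linarith)
  obtain ⟨C2, hC2, k2⟩ := int_lp_le h.col h.ρ0 (b := c / 2) (by linarith) (by linarith)
  have hR : MeasurableSet (Rr F c) := h.Rr_compact.measurableSet
  refine ⟨C1 + 1 + C2, by positivity, fun ψ => ?_⟩
  have hψ := Adm.cc ψ
  have hp : PCn (fun p => (ψ : ℂ → ℂ) (Ph F p)) := comp_pc h.col hψ.smo
  have m1 : (∫ p in Qr c, (‖dyc (hat F c ψ) p‖ ^ 2 + ‖dzc (hat F c ψ) p‖ ^ 2)) ≤
      ‖ctY (Rr F c) (gp ψ)‖ ^ 2 := by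
    rw [g2_dy, g2_dz]
    unfold Qr
    rw [g2_box, int_grad h.col h.ρ0 (by linarith) (by linarith) (by linarith) hψ.smo, ctY_gp_sq hR hψ]
    exact setIntegral_mono_set ((g2_cint hψ.px).add (g2_cint hψ.py)).integrableOn
      (ae_of_all _ fun x => by positivity) (h.rg_sub_Rr).eventuallyLE
  have m2 : (∫ p in Qr c, ‖lpc (hat F c ψ) p‖ ^ 2) ≤ C2 * ‖ct (Rr F c) (cu ψ)‖ ^ 2 := by
    rw [g2_lp]
    unfold Qr
    rw [g2_box, ct_cu_sq hR hψ]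
    refine (k2 (c / 4) ψ (by linarith) (by linarith) hψ.smo).trans (mul_le_mul_of_nonneg_left ?_ hC2)
    exact setIntegral_mono_set (g2_cint hψ.lap).integrableOn
      (ae_of_all _ fun x => by positivity) (h.rg_sub_Rr).eventuallyLE
  have m3 : (∫ p in Qr c, ‖hat F c ψ p‖ ^ 2) ≤ C1 * ‖ctY (Rr F c) (gp ψ)‖ ^ 2 := by
    have k := k1 (fun p => (ψ : ℂ → ℂ) (Ph F p)) (hp.smooth.of_le (by exact_mod_cast le_top))
    rw [g2_dy, g2_dz] at m1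
    exact k.trans (mul_le_mul_of_nonneg_left m1 hC1)
  obtain ⟨n1, n2, n3⟩ := g2_max3 hC1 zero_le_one hC2 (sq_nonneg ‖ctY (Rr F c) (gp ψ)‖)
    (y := ∫ p in Qr c, ‖hat F c ψ p‖ ^ 2)
  obtain ⟨o1, o2, o3⟩ := g2_max3 hC1 zero_le_one hC2 (sq_nonneg ‖ctY (Rr F c) (gp ψ)‖)
    (y := ∫ p in Qr c, (‖dyc (hat F c ψ) p‖ ^ 2 + ‖dzc (hat F c ψ) p‖ ^ 2))
  obtain ⟨q1, q2, q3⟩ := g2_max3 hC1 zero_le_one hC2 (sq_nonneg ‖ct (Rr F c) (cu ψ)‖)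
    (y := ∫ p in Qr c, ‖lpc (hat F c ψ) p‖ ^ 2)
  exact ⟨n1 m3, o2 (by rw [one_mul]; exact m1), q3 m2⟩

/-! ### The three maps with a factor supported in the ring -/

private theorem g2_sqrt {K a b : ℝ} (hK : 0 ≤ K) (hb : 0 ≤ b) (h1 : a ^ 2 ≤ K * b ^ 2) :
    a ≤ Real.sqrt K * b := by
  have h6 : a ≤ Real.sqrt (K * b ^ 2) := Real.le_sqrt_of_sq_le h1
  rw [Real.sqrt_mul hK, Real.sqrt_sq hb] at h6
  exact h6

/-- the norm of a function which vanishes outside the ring -/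
private theorem g2_ring (h : Cld D ρ F c ζ a) {G : ℝ × ℝ → ℂ} (hG : PCn G) {g : ℝ × ℝ → ℝ} (hg : Continuous g)
    {A M : ℝ} (hA : 0 ≤ A) (h0 : ∀ p : ℝ × ℝ, p.2 < c / 4 ∨ c / 2 < p.2 → G p = 0)
    (h1 : ∀ p ∈ Qr c, ‖G p‖ ^ 2 ≤ A * g p) (h2 : (∫ p in Qr c, g p) ≤ M) :
    ‖fHn G‖ ^ 2 ≤ (2 * Real.pi)⁻¹ * A * M := by
  have hc0 := h.c0
  have hcp := h.cpi
  have hpi := Real.pi_pos
  rw [norm_fHn_sq hG, g2_cell (a' := c / 4) (b' := c / 2) (by linarith) (by linarith)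
    (fun p _ hp => by rw [h0 p hp, norm_zero, zero_pow two_ne_zero]), mul_assoc]
  refine mul_le_mul_of_nonneg_left ?_ (by positivity)
  have i1 : IntegrableOn (fun p => ‖G p‖ ^ 2) (Icc (-Real.pi) Real.pi ×ˢ Icc (c / 4) (c / 2)) :=
    g2_intOn (hG.smooth.continuous.norm.pow 2) _ _ _ _
  have i2 : IntegrableOn (fun p => A * g p) (Icc (-Real.pi) Real.pi ×ˢ Icc (c / 4) (c / 2)) :=
    g2_intOn (continuous_const.mul hg) _ _ _ _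
  refine (setIntegral_mono_on i1 i2 (g2_meas _ _ _ _) h1).trans ?_
  rw [integral_const_mul]
  exact mul_le_mul_of_nonneg_left h2 hA

private theorem g2_kbd {k : ℝ → ℂ} (hk : Continuous k) (b : ℝ) : ∃ A : ℝ, 0 ≤ A ∧ ∀ z ∈ Icc (0:ℝ) b, ‖k z‖ ≤ A := by
  obtain ⟨a0, h0⟩ := isCompact_Icc.exists_bound_of_continuousOn (s := Icc (0:ℝ) b) hk.continuousOn
  exact ⟨|a0|, abs_nonneg _, fun z hz => (h0 z hz).trans (le_abs_self a0)⟩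

private theorem g2_msq {x y : ℂ} {A : ℝ} (h : ‖x‖ ≤ A) : ‖x * y‖ ^ 2 ≤ A ^ 2 * ‖y‖ ^ 2 := by
  rw [norm_mul, mul_pow]
  exact mul_le_mul_of_nonneg_right (pow_le_pow_left₀ (norm_nonneg _) h 2) (sq_nonneg _)

private theorem g2_Qc {c : ℝ} (hc : 0 < c) {p : ℝ × ℝ} (hp : p ∈ Qr c) : p.2 ∈ Icc (0:ℝ) c := by
  have h1 := hp.2.1
  have h2 := hp.2.2
  constructor <;> linarith

/-- `norm_fHn_sq`; the functions vanish outside the ring, `k` and `a` are bounded. -/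
theorem Cld.PkL_le (h : Cld D ρ F c ζ a) {k : ℝ → ℂ} (hk : Kz c k) : ∃ C, 0 ≤ C ∧ ∀ ψ : Adm D,
    ‖PkL h hk ψ‖ ≤ C * ‖ctY (Rr F c) (gp ψ)‖ := by
  have hpi := Real.pi_pos
  obtain ⟨C, hC, hh⟩ := h.hat_le
  obtain ⟨A, hA, hkA⟩ := g2_kbd hk.smooth.continuous c
  refine ⟨Real.sqrt ((2 * Real.pi)⁻¹ * A ^ 2 * C), Real.sqrt_nonneg _, fun ψ => ?_⟩
  refine g2_sqrt (by positivity) (norm_nonneg _) ?_
  have hψ := (Adm.cc ψ).smo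
  have hc1 : Continuous fun p => ‖hat F c ψ p‖ ^ 2 := (h.hat_pc hψ).smooth.continuous.norm.pow 2
  rw [mul_assoc _ C]
  refine g2_ring h (h.khat_pc hk.smooth hψ) hc1 (sq_nonneg A) (fun p hp => ?_) (fun p hp => ?_) (hh ψ).1
  · have k0 : k p.2 = 0 := hp.elim (fun h1 => hk.lo _ h1.le) (fun h1 => hk.hi _ h1.le)
    show k p.2 * hat F c ψ p = 0
    rw [k0, zero_mul]
  · exact g2_msq (hkA _ (g2_Qc h.c0 hp))

theorem Cld.DkL_le (h : Cld D ρ F c ζ a) {k : ℝ → ℂ} (hk : Kz c k) : ∃ C, 0 ≤ C ∧ ∀ ψ : Adm D,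
    ‖DkL h hk ψ‖ ≤ C * ‖ctY (Rr F c) (gp ψ)‖ := by
  have hpi := Real.pi_pos
  obtain ⟨C, hC, hh⟩ := h.hat_le
  obtain ⟨A, hA, hkA⟩ := g2_kbd hk.smooth.continuous c
  refine ⟨Real.sqrt ((2 * Real.pi)⁻¹ * A ^ 2 * C), Real.sqrt_nonneg _, fun ψ => ?_⟩
  refine g2_sqrt (by positivity) (norm_nonneg _) ?_
  have hψ := (Adm.cc ψ).smo
  have hc1 : Continuous fun p => ‖dyc (hat F c ψ) p‖ ^ 2 + ‖dzc (hat F c ψ) p‖ ^ 2 :=
    ((h.hat_pc hψ).dy.smooth.continuous.norm.pow 2).add ((h.hat_pc hψ).dz.smooth.continuous.norm.pow 2)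
  rw [mul_assoc _ C]
  refine g2_ring h (h.kdz_pc hk.smooth hψ) hc1 (sq_nonneg A) (fun p hp => ?_) (fun p hp => ?_) (hh ψ).2.1
  · have k0 : k p.2 = 0 := hp.elim (fun h1 => hk.lo _ h1.le) (fun h1 => hk.hi _ h1.le)
    show k p.2 * dzc (hat F c ψ) p = 0
    rw [k0, zero_mul]
  · refine (g2_msq (hkA _ (g2_Qc h.c0 hp))).trans (mul_le_mul_of_nonneg_left ?_ (sq_nonneg A))
    exact le_add_of_nonneg_left (sq_nonneg _)

theorem Cld.WkL_le (h : Cld D ρ F c ζ a) {k : ℝ → ℂ} (hk : Kz c k) : ∃ C, 0 ≤ C ∧ ∀ ψ : Adm D,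
    ‖WkL h hk ψ‖ ≤ C * ‖ct (Rr F c) (cu ψ)‖ := by
  have hpi := Real.pi_pos
  obtain ⟨C, hC, hh⟩ := h.hat_le
  obtain ⟨A, hA, hkA⟩ := g2_kbd hk.smooth.continuous c
  obtain ⟨B, hB⟩ := (isCompact_Icc.prod isCompact_Icc).exists_bound_of_continuousOn
    (s := Icc (-Real.pi) Real.pi ×ˢ Icc (c / 4) (c / 2)) h.apc.smooth.continuous.continuousOn
  refine ⟨Real.sqrt ((2 * Real.pi)⁻¹ * (A ^ 2 * B ^ 2) * C), Real.sqrt_nonneg _, fun ψ => ?_⟩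
  refine g2_sqrt (by positivity) (norm_nonneg _) ?_
  have hψ := (Adm.cc ψ).smo
  have hc1 : Continuous fun p => ‖lpc (hat F c ψ) p‖ ^ 2 := (h.hat_pc hψ).lp.smooth.continuous.norm.pow 2
  rw [mul_assoc _ C]
  refine g2_ring h (h.klp_pc hk.smooth hψ) hc1 (by positivity) (fun p hp => ?_) (fun p hp => ?_) (hh ψ).2.2
  · have k0 : k p.2 = 0 := hp.elim (fun h1 => hk.lo _ h1.le) (fun h1 => hk.hi _ h1.le)
    show k p.2 * ((a p : ℂ) * lpc (hat F c ψ) p) = 0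
    rw [k0, zero_mul]
  · refine (g2_msq (hkA _ (g2_Qc h.c0 hp))).trans ?_
    rw [mul_assoc]
    exact mul_le_mul_of_nonneg_left (g2_msq (hB p hp)) (sq_nonneg A)

private theorem g2_zy (h : Cld D ρ F c ζ a) {ψ : ℂ → ℂ} (hψ : Smo ψ) (p : ℝ × ℝ) :
    dyc (zhat F c ζ ψ) p = ζ p.2 * dyc (hat F c ψ) p := by
  have k := dyc_mul (PCn.ofz h.ζs) (h.hat_pc hψ) p
  rw [dyc_ofz ζ h.ζs, zero_mul, zero_add] at k
  exact k

private theorem g2_zz (h : Cld D ρ F c ζ a) {ψ : ℂ → ℂ} (hψ : Smo ψ) (p : ℝ × ℝ) :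
    dzc (zhat F c ζ ψ) p = deriv ζ p.2 * hat F c ψ p + ζ p.2 * dzc (hat F c ψ) p := by
  have k := dzc_mul (PCn.ofz h.ζs) (h.hat_pc hψ) p
  rw [dzc_ofz ζ h.ζs] at k
  exact k

private theorem g2_zl (h : Cld D ρ F c ζ a) {ψ : ℂ → ℂ} (hψ : Smo ψ) (p : ℝ × ℝ) :
    lpc (zhat F c ζ ψ) p = ζ p.2 * lpc (hat F c ψ) p - 2 * (deriv ζ p.2 * dzc (hat F c ψ) p) -
      deriv (deriv ζ) p.2 * hat F c ψ p := lpc_ofz_mul h.ζs (h.hat_pc hψ) p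

private theorem g2_alg {A : ℝ} {g w y z : ℂ} (h0 : ‖g‖ ≤ A) :
    ‖g * w‖ ^ 2 + ‖z + g * y‖ ^ 2 ≤ 2 * A ^ 2 * (‖w‖ ^ 2 + ‖y‖ ^ 2) + 2 * ‖z‖ ^ 2 := by
  have k1 : ‖g * w‖ ≤ A * ‖w‖ := by
    rw [norm_mul]
    exact mul_le_mul_of_nonneg_right h0 (norm_nonneg _)
  have k2 : ‖z + g * y‖ ≤ ‖z‖ + A * ‖y‖ := by
    refine (norm_add_le _ _).trans (add_le_add le_rfl ?_)
    rw [norm_mul]
    exact mul_le_mul_of_nonneg_right h0 (norm_nonneg _)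
  have k3 : ‖g * w‖ ^ 2 ≤ (A * ‖w‖) ^ 2 := pow_le_pow_left₀ (norm_nonneg _) k1 2
  have k4 : ‖z + g * y‖ ^ 2 ≤ (‖z‖ + A * ‖y‖) ^ 2 := pow_le_pow_left₀ (norm_nonneg _) k2 2
  nlinarith [sq_nonneg (‖z‖ - A * ‖y‖), sq_nonneg (A * ‖w‖)]

private theorem g2_dir (h : Cld D ρ F c ζ a) (ψ : Adm D) :
    (∫ p in Icc (-Real.pi) Real.pi ×ˢ Icc 0 (c / 2), (‖dyc (hat F c ψ) p‖ ^ 2 + ‖dzc (hat F c ψ) p‖ ^ 2)) ≤
      ‖gp ψ‖ ^ 2 := by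
  have hc0 := h.c0
  have hcL := h.cL
  have hψ := Adm.cc ψ
  have hm : MeasurableSet (F '' rg 0 (c / 2)) := (isOpen_rg h.col h.ρ0 le_rfl (by linarith)).measurableSet
  rw [g2_dy, g2_dz, g2_box, int_grad h.col h.ρ0 le_rfl (by linarith) (by linarith) hψ.smo, ← ctY_gp_sq hm hψ]
  exact pow_le_pow_left₀ (norm_nonneg _) (norm_ctY_le _ _) 2

/-- `norm_bHn_sq_le`: `∇(ζ hat) = ζ ∇hat + ζ' hat e_z`; `∫_{z<c/2} |∇(ψ∘Φ)|² ≤ ‖gp ψ‖²` (`int_grad` for `a = 0`, `b = c/2`), `hat_le`. -/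
theorem Cld.LaL_le (h : Cld D ρ F c ζ a) : ∃ C, 0 ≤ C ∧ ∀ ψ : Adm D, ‖LaL h ψ‖ ≤ C * ‖gpX D ψ‖ := by
  have hc0 := h.c0
  have hcp := h.cpi
  have hpi := Real.pi_pos
  obtain ⟨C, hC, hP⟩ := h.PkL_le h.kz1
  obtain ⟨A, hA, hkA⟩ := g2_kbd h.ζs.continuous (c / 2)
  refine ⟨Real.sqrt (Real.pi⁻¹ * (2 * A ^ 2 + 2 * (2 * Real.pi * C ^ 2))), Real.sqrt_nonneg _, fun ψ => ?_⟩
  refine g2_sqrt (by positivity) (norm_nonneg _) ?_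
  have hψ := Adm.cc ψ
  have hz := h.zhat_pc hψ.smo
  have hh := h.hat_pc hψ.smo
  have hk := h.khat_pc h.kz1.smooth hψ.smo
  have e0 : ‖gpX D ψ‖ = ‖gp ψ‖ := rfl
  have e1 : ‖LaL h ψ‖ ^ 2 = ‖bHn (zhat F c ζ ψ)‖ ^ 2 := rfl
  have p1 : (∫ p in Icc (-Real.pi) Real.pi ×ˢ Icc 0 (c / 2), ‖khat F c (deriv ζ) ψ p‖ ^ 2) ≤
      2 * Real.pi * C ^ 2 * ‖gp ψ‖ ^ 2 := by
    have n1 := norm_fHn_sq hk
    rw [g2_cell (a' := 0) (b' := c / 2) le_rfl (by linarith)] at n1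
    · have n2 : ‖PkL h h.kz1 ψ‖ ≤ C * ‖gp ψ‖ :=
        (hP ψ).trans (mul_le_mul_of_nonneg_left (norm_ctY_le _ _) hC)
      have n3 : ‖fHn (khat F c (deriv ζ) ψ)‖ ^ 2 ≤ (C * ‖gp ψ‖) ^ 2 := pow_le_pow_left₀ (norm_nonneg _) n2 2
      rw [n1, mul_pow] at n3
      have n4 := mul_le_mul_of_nonneg_left n3 (by positivity : (0:ℝ) ≤ 2 * Real.pi)
      rw [← mul_assoc, mul_inv_cancel₀ (by positivity), one_mul] at n4
      linarith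
    · rintro p - (hp | hp)
      · show ‖deriv ζ p.2 * hat F c ψ p‖ ^ 2 = 0
        rw [h.kz1.lo _ (by linarith), zero_mul, norm_zero, zero_pow two_ne_zero]
      · show ‖deriv ζ p.2 * hat F c ψ p‖ ^ 2 = 0
        rw [h.kz1.hi _ hp.le, zero_mul, norm_zero, zero_pow two_ne_zero]
  have p2 := g2_dir h ψ
  rw [e1, e0]
  refine (norm_bHn_sq_le hz).trans ?_
  rw [mul_assoc]
  refine mul_le_mul_of_nonneg_left ?_ (by positivity)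
  have c1 : Continuous fun p => ‖dyc (hat F c ψ) p‖ ^ 2 + ‖dzc (hat F c ψ) p‖ ^ 2 :=
    (hh.dy.smooth.continuous.norm.pow 2).add (hh.dz.smooth.continuous.norm.pow 2)
  have c2 : Continuous fun p => ‖khat F c (deriv ζ) ψ p‖ ^ 2 := hk.smooth.continuous.norm.pow 2
  have c3 : Continuous fun p => ‖dyc (zhat F c ζ ψ) p‖ ^ 2 + ‖dzc (zhat F c ζ ψ) p‖ ^ 2 :=
    (hz.dy.smooth.continuous.norm.pow 2).add (hz.dz.smooth.continuous.norm.pow 2)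
  -- outside the strip everything vanishes: the function is replaced by one which does
  have p3 : (∫ p in cell, (‖dyc (zhat F c ζ ψ) p‖ ^ 2 + ‖dzc (zhat F c ζ ψ) p‖ ^ 2)) =
      ∫ p in Icc (-Real.pi) Real.pi ×ˢ Icc 0 (c / 2),
        (‖dyc (zhat F c ζ ψ) p‖ ^ 2 + ‖dzc (zhat F c ζ ψ) p‖ ^ 2) := by
    refine setIntegral_eq_of_subset_of_forall_sdiff_eq_zero (g2_meas _ _ _ _)
      (prod_mono subset_rfl (Icc_subset_Icc le_rfl (by linarith))) fun p hp => ?_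
    have hp2 : c / 2 < p.2 := by
      by_contra hc
      rw [not_lt] at hc
      exact hp.2 ⟨hp.1.1, hp.1.2.1, hc⟩
    rw [g2_zy h hψ.smo, g2_zz h hψ.smo, h.kz1.hi _ hp2.le, h.ζ0 _ hp2.le]
    simp
  rw [p3]
  have i1 : IntegrableOn (fun p => 2 * A ^ 2 * (‖dyc (hat F c ψ) p‖ ^ 2 + ‖dzc (hat F c ψ) p‖ ^ 2))
      (Icc (-Real.pi) Real.pi ×ˢ Icc 0 (c / 2)) := g2_intOn (continuous_const.mul c1) _ _ _ _
  have i2 : IntegrableOn (fun p => 2 * ‖khat F c (deriv ζ) ψ p‖ ^ 2)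
      (Icc (-Real.pi) Real.pi ×ˢ Icc 0 (c / 2)) := g2_intOn (continuous_const.mul c2) _ _ _ _
  have i12 : IntegrableOn (fun p => 2 * A ^ 2 * (‖dyc (hat F c ψ) p‖ ^ 2 + ‖dzc (hat F c ψ) p‖ ^ 2) +
      2 * ‖khat F c (deriv ζ) ψ p‖ ^ 2) (Icc (-Real.pi) Real.pi ×ˢ Icc 0 (c / 2)) := i1.add i2
  refine (setIntegral_mono_on (g2_intOn c3 _ _ _ _) i12 (g2_meas _ _ _ _) fun p hp => ?_).trans ?_
  · rw [g2_zy h hψ.smo, g2_zz h hψ.smo]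
    exact g2_alg (hkA _ hp.2)
  · have e3 : (∫ p in Icc (-Real.pi) Real.pi ×ˢ Icc 0 (c / 2),
        (2 * A ^ 2 * (‖dyc (hat F c ψ) p‖ ^ 2 + ‖dzc (hat F c ψ) p‖ ^ 2) +
          2 * ‖khat F c (deriv ζ) ψ p‖ ^ 2)) =
        2 * A ^ 2 * (∫ p in Icc (-Real.pi) Real.pi ×ˢ Icc 0 (c / 2),
          (‖dyc (hat F c ψ) p‖ ^ 2 + ‖dzc (hat F c ψ) p‖ ^ 2)) +
        2 * ∫ p in Icc (-Real.pi) Real.pi ×ˢ Icc 0 (c / 2), ‖khat F c (deriv ζ) ψ p‖ ^ 2 := by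
      rw [← integral_const_mul, ← integral_const_mul]
      exact integral_add i1 i2
    rw [e3]
    have q1 := mul_le_mul_of_nonneg_left p2 (by positivity : 0 ≤ 2 * A ^ 2)
    linarith

/-- `lpc_ofz_mul`; `int_lp_le` with `a = 0`, `b = c/2`; `hat_le`; `exists_gpX_le`. -/
theorem Cld.GaL_le (h : Cld D ρ F c ζ a) : ∃ C, 0 ≤ C ∧ ∀ ψ : Adm D, ‖GaL h ψ‖ ≤ C * ‖cuV D ψ‖ := by
  have hc0 := h.c0
  have hcL := h.cL
  have hcp := h.cpi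
  have hpi := Real.pi_pos
  obtain ⟨B, hB, hBg⟩ := exists_gpX_le h.bdd
  obtain ⟨C1, hC1, hP⟩ := h.PkL_le h.kz2
  obtain ⟨C2, hC2, hD⟩ := h.DkL_le h.kz21
  obtain ⟨C3, hC3, hL⟩ := int_lp_le h.col h.ρ0 (b := c / 2) (by linarith) (by linarith)
  obtain ⟨A, hA, hkA⟩ := g2_kbd h.ζs.continuous (c / 2)
  refine ⟨Real.sqrt ((2 * Real.pi)⁻¹ * (A ^ 2 * C3)) + C2 * B + C1 * B, by positivity, fun ψ => ?_⟩
  have hψ := Adm.cc ψ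
  have hh := h.hat_pc hψ.smo
  have hG : PCn (fun p => ζ p.2 * lpc (hat F c ψ) p) := (PCn.ofz h.ζs).mul hh.lp
  have hk1 := h.khat_pc h.kz2.smooth hψ.smo
  have hk2 := h.kdz_pc h.kz21.smooth hψ.smo
  have hk3 : PCn (fun p => (-1 : ℂ) * kdz F c (fun z => 2 * deriv ζ z) ψ p) := (PCn.const (-1)).mul hk2
  have hk4 : PCn (fun p => (-1 : ℂ) * khat F c (deriv (deriv ζ)) ψ p) := (PCn.const (-1)).mul hk1
  have e1 : lpc (zhat F c ζ ψ) = fun p => (ζ p.2 * lpc (hat F c ψ) p) +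
      ((-1 : ℂ) * kdz F c (fun z => 2 * deriv ζ z) ψ p + (-1 : ℂ) * khat F c (deriv (deriv ζ)) ψ p) := by
    funext p
    rw [g2_zl h hψ.smo]
    unfold kdz khat
    ring
  have e2 : GaL h ψ = fHn (fun p => ζ p.2 * lpc (hat F c ψ) p) +
      ((-1 : ℂ) • DkL h h.kz21 ψ + (-1 : ℂ) • PkL h h.kz2 ψ) := by
    show fHn (lpc (zhat F c ζ ψ)) = fHn (fun p => ζ p.2 * lpc (hat F c ψ) p) +
      ((-1 : ℂ) • fHn (kdz F c (fun z => 2 * deriv ζ z) ψ) + (-1 : ℂ) • fHn (khat F c (deriv (deriv ζ)) ψ))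
    rw [e1, fHn_add hG (hk3.add hk4), fHn_add hk3 hk4, fHn_cmul _ hk2, fHn_cmul _ hk1]
  have n0 : ‖gp ψ‖ ≤ B * ‖cuV D ψ‖ := hBg ψ
  have n1 : ‖PkL h h.kz2 ψ‖ ≤ C1 * (B * ‖cuV D ψ‖) :=
    (hP ψ).trans (mul_le_mul_of_nonneg_left ((norm_ctY_le _ _).trans n0) hC1)
  have n2 : ‖DkL h h.kz21 ψ‖ ≤ C2 * (B * ‖cuV D ψ‖) :=
    (hD ψ).trans (mul_le_mul_of_nonneg_left ((norm_ctY_le _ _).trans n0) hC2)
  have n3 : ‖fHn (fun p => ζ p.2 * lpc (hat F c ψ) p)‖ ≤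
      Real.sqrt ((2 * Real.pi)⁻¹ * (A ^ 2 * C3)) * ‖cuV D ψ‖ := by
    refine g2_sqrt (by positivity) (norm_nonneg _) ?_
    rw [norm_fHn_sq hG, g2_cell (a' := 0) (b' := c / 2) le_rfl (by linarith), mul_assoc]
    · refine mul_le_mul_of_nonneg_left ?_ (by positivity)
      have hm : MeasurableSet (F '' rg 0 (c / 2)) :=
        (isOpen_rg h.col h.ρ0 le_rfl (by linarith)).measurableSet
      have i1 : IntegrableOn (fun p => ‖ζ p.2 * lpc (hat F c ψ) p‖ ^ 2)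
          (Icc (-Real.pi) Real.pi ×ˢ Icc 0 (c / 2)) := g2_intOn (hG.smooth.continuous.norm.pow 2) _ _ _ _
      have i2 : IntegrableOn (fun p => A ^ 2 * ‖lpc (hat F c ψ) p‖ ^ 2)
          (Icc (-Real.pi) Real.pi ×ˢ Icc 0 (c / 2)) :=
        g2_intOn (continuous_const.mul (hh.lp.smooth.continuous.norm.pow 2)) _ _ _ _
      refine (setIntegral_mono_on i1 i2 (g2_meas _ _ _ _) fun p hp => g2_msq (hkA _ hp.2)).trans ?_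
      rw [integral_const_mul, mul_assoc, g2_lp, g2_box]
      refine mul_le_mul_of_nonneg_left ?_ (sq_nonneg A)
      refine (hL 0 ψ le_rfl (by linarith) hψ.smo).trans (mul_le_mul_of_nonneg_left ?_ hC3)
      rw [← ct_cu_sq hm hψ]
      exact pow_le_pow_left₀ (norm_nonneg _) (norm_ct_le _ _) 2
    · rintro p hpc (hp | hp)
      · exact absurd hp (not_lt.2 hpc.2.1)
      · rw [h.ζ0 _ hp.le, zero_mul, norm_zero, zero_pow two_ne_zero]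
  rw [e2]
  have t1 := norm_add_le (fHn (fun p => ζ p.2 * lpc (hat F c ψ) p))
    ((-1 : ℂ) • DkL h h.kz21 ψ + (-1 : ℂ) • PkL h h.kz2 ψ)
  have t2 := norm_add_le ((-1 : ℂ) • DkL h h.kz21 ψ) ((-1 : ℂ) • PkL h h.kz2 ψ)
  rw [norm_smul, norm_smul, norm_neg, norm_one, one_mul, one_mul] at t2
  linarith

/-- the part of the domain next to the curve -/
def Er (F : ℂ → ℂ) (c : ℝ) : Set ℂ := F '' rg 0 (c / 4)

/-- **Lower bound.** `ζ = 1` for `z ≤ c/4`: `‖ctY E (gp ψ)‖² = ∫_{0<z<c/4} |∇(ψ∘Φ)|² ≤ ∫_cell |∇(ζ hat)|² = 2π ‖LaL ψ‖²`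
(`int_grad`, `norm_bHn_sq`, `zhat_VT`, `zhat_VB`). -/
theorem Cld.Er_le (h : Cld D ρ F c ζ a) (ψ : Adm D) : ‖ctY (Er F c) (gp ψ)‖ ^ 2 ≤ 2 * Real.pi * ‖LaL h ψ‖ ^ 2 := by
  have hc0 := h.c0
  have hcL := h.cL
  have hcp := h.cpi
  have hpi := Real.pi_pos
  have hψ := Adm.cc ψ
  have hz := h.zhat_pc hψ.smo
  have hm : MeasurableSet (Er F c) := (isOpen_rg h.col h.ρ0 le_rfl (by linarith)).measurableSet
  have e1 : ‖LaL h ψ‖ ^ 2 = ‖bHn (zhat F c ζ ψ)‖ ^ 2 := rfl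
  have c3 : Continuous fun p => ‖dyc (zhat F c ζ ψ) p‖ ^ 2 + ‖dzc (zhat F c ζ ψ) p‖ ^ 2 :=
    (hz.dy.smooth.continuous.norm.pow 2).add (hz.dz.smooth.continuous.norm.pow 2)
  rw [e1, norm_bHn_sq hz (h.zhat_VT ψ) (h.zhat_VB ψ), ← mul_assoc, mul_inv_cancel₀ (by positivity), one_mul,
    ctY_gp_sq hm hψ]
  unfold Er
  rw [← int_grad h.col h.ρ0 le_rfl (by linarith) (by linarith) hψ.smo]
  have e2 : (∫ p in Ioo (-Real.pi) Real.pi ×ˢ Ioo 0 (c / 4),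
      (‖dyc (fun p => (ψ : ℂ → ℂ) (Ph F p)) p‖ ^ 2 + ‖dzc (fun p => (ψ : ℂ → ℂ) (Ph F p)) p‖ ^ 2)) =
      ∫ p in Ioo (-Real.pi) Real.pi ×ˢ Ioo 0 (c / 4),
        (‖dyc (zhat F c ζ ψ) p‖ ^ 2 + ‖dzc (zhat F c ζ ψ) p‖ ^ 2) := by
    refine setIntegral_congr_fun (measurableSet_Ioo.prod measurableSet_Ioo) fun p hp => ?_
    show _ = ‖dyc (zhat F c ζ ψ) p‖ ^ 2 + ‖dzc (zhat F c ζ ψ) p‖ ^ 2
    rw [g2_zy h hψ.smo, g2_zz h hψ.smo, h.kz1.lo _ hp.2.2.le, h.ζ1 _ hp.2.2.le, zero_mul, zero_add, one_mul,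
      one_mul, g2_dy, g2_dz]
  rw [e2]
  exact setIntegral_mono_set (g2_intOn c3 _ _ _ _) (ae_of_all _ fun p => by positivity)
    (Set.prod_mono Ioo_subset_Icc_self (Ioo_subset_Icc_self.trans (Icc_subset_Icc le_rfl (by linarith)))).eventuallyLE

end Pool.Agent.Lib.MP_79abb3_an.PD
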