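import Pool.Agent.Lib.MP_79abb3_an.PD.NG2a
import Pool.Agent.Lib.MP_79abb3_an.PD.NF2a

/-!
Theorem D (MP_79abb3_an), block N: collars: extension of the localization maps.
-/

set_option autoImplicit false
set_option linter.unusedSectionVars false

open MeasureTheory Set Filter Topology Function
open scoped ENNReal InnerProductSpace

namespace Pool.Agent.Lib.MP_79abb3_an.PD

open Pool.Agent.Lib.MP_79abb3_an.P25 Pool.Agent.Lib.MP_79abb3_an.SC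

variable {D : Set ℂ} {ρ : ℝ} {F : ℂ → ℂ} {c : ℝ} {ζ : ℝ → ℂ} {a : ℝ × ℝ → ℝ}

/-! ### Extension -/

/-- `La : XD D → HH π` -/
noncomputable def LaX (h : Cld D ρ F c ζ a) : XD D →L[ℂ] HH Real.pi := (LaL h).extendOfNorm (gpX D)
noncomputable def PkX (h : Cld D ρ F c ζ a) {k : ℝ → ℂ} (hk : Kz c k) : XD D →L[ℂ] HH Real.pi :=
  (PkL h hk).extendOfNorm (gpX D)
noncomputable def DkX (h : Cld D ρ F c ζ a) {k : ℝ → ℂ} (hk : Kz c k) : XD D →L[ℂ] HH Real.pi :=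
  (DkL h hk).extendOfNorm (gpX D)
noncomputable def GaV (h : Cld D ρ F c ζ a) : VD D →L[ℂ] HH Real.pi := (GaL h).extendOfNorm (cuV D)
noncomputable def WkV (h : Cld D ρ F c ζ a) {k : ℝ → ℂ} (hk : Kz c k) : VD D →L[ℂ] HH Real.pi :=
  (WkL h hk).extendOfNorm (cuV D)

private theorem ng2b_gp (S : Set ℂ) {C : ℝ} (hC : 0 ≤ C) (ψ : Adm D) :
    C * ‖ctY S (gp ψ)‖ ≤ C * ‖gpX D ψ‖ := by
  have e : ‖gpX D ψ‖ = ‖gp (ψ : ℂ → ℂ)‖ := rfl
  rw [e]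
  exact mul_le_mul_of_nonneg_left (norm_ctY_le S _) hC

private theorem ng2b_cu (S : Set ℂ) {C : ℝ} (hC : 0 ≤ C) (ψ : Adm D) :
    C * ‖ct S (cu ψ)‖ ≤ C * ‖cuV D ψ‖ := by
  have e : ‖cuV D ψ‖ = ‖cu (ψ : ℂ → ℂ)‖ := rfl
  rw [e]
  exact mul_le_mul_of_nonneg_left (norm_ct_le S _) hC

private theorem ng2b_ctY (S : Set ℂ) : Continuous fun u : XD D => ‖ctY S (u : Y2)‖ :=
  ((ctY S).continuous.comp continuous_subtype_val).norm

private theorem ng2b_ct (S : Set ℂ) : Continuous fun v : VD D => ‖ct S (v : L2c)‖ :=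
  ((ct S).continuous.comp continuous_subtype_val).norm

/-- `LinearMap.extendOfNorm_eq`, `gpX_dense`, `cuV_dense`; `‖ctY S (gp ψ)‖ ≤ ‖gpX D ψ‖`. -/
theorem LaX_gp (h : Cld D ρ F c ζ a) (ψ : Adm D) : LaX h (gpX D ψ) = bHn (zhat F c ζ ψ) := by
  obtain ⟨C, -, hC⟩ := h.LaL_le
  exact LinearMap.extendOfNorm_eq (f := LaL h) (e := gpX D) (gpX_dense D) ⟨C, hC⟩ ψ

theorem PkX_gp (h : Cld D ρ F c ζ a) {k : ℝ → ℂ} (hk : Kz c k) (ψ : Adm D) :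
    PkX h hk (gpX D ψ) = fHn (khat F c k ψ) := by
  obtain ⟨C, hC0, hC⟩ := h.PkL_le hk
  exact LinearMap.extendOfNorm_eq (f := PkL h hk) (e := gpX D) (gpX_dense D)
    ⟨C, fun φ => (hC φ).trans (ng2b_gp _ hC0 φ)⟩ ψ

theorem DkX_gp (h : Cld D ρ F c ζ a) {k : ℝ → ℂ} (hk : Kz c k) (ψ : Adm D) :
    DkX h hk (gpX D ψ) = fHn (kdz F c k ψ) := by
  obtain ⟨C, hC0, hC⟩ := h.DkL_le hk
  exact LinearMap.extendOfNorm_eq (f := DkL h hk) (e := gpX D) (gpX_dense D)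
    ⟨C, fun φ => (hC φ).trans (ng2b_gp _ hC0 φ)⟩ ψ

theorem GaV_cu (h : Cld D ρ F c ζ a) (ψ : Adm D) : GaV h (cuV D ψ) = fHn (lpc (zhat F c ζ ψ)) := by
  obtain ⟨C, -, hC⟩ := h.GaL_le
  exact LinearMap.extendOfNorm_eq (f := GaL h) (e := cuV D) (cuV_dense D) ⟨C, hC⟩ ψ

theorem WkV_cu (h : Cld D ρ F c ζ a) {k : ℝ → ℂ} (hk : Kz c k) (ψ : Adm D) :
    WkV h hk (cuV D ψ) = fHn (klp F c a k ψ) := by
  obtain ⟨C, hC0, hC⟩ := h.WkL_le hk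
  exact LinearMap.extendOfNorm_eq (f := WkL h hk) (e := cuV D) (cuV_dense D)
    ⟨C, fun φ => (hC φ).trans (ng2b_cu _ hC0 φ)⟩ ψ

/-- bounds on the whole space, by density and continuity -/
theorem PkX_le (h : Cld D ρ F c ζ a) {k : ℝ → ℂ} (hk : Kz c k) : ∃ C, 0 ≤ C ∧ ∀ u : XD D,
    ‖PkX h hk u‖ ≤ C * ‖ctY (Rr F c) (u : Y2)‖ := by
  obtain ⟨C, hC0, hC⟩ := h.PkL_le hk
  refine ⟨C, hC0, fun u => ?_⟩
  refine (gpX_dense D).induction_on (p := fun u : XD D => ‖PkX h hk u‖ ≤ C * ‖ctY (Rr F c) (u : Y2)‖) u ?_ ?_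
  · exact isClosed_le (PkX h hk).continuous.norm (continuous_const.mul (ng2b_ctY _))
  · intro ψ
    rw [PkX_gp]
    exact hC ψ

theorem DkX_le (h : Cld D ρ F c ζ a) {k : ℝ → ℂ} (hk : Kz c k) : ∃ C, 0 ≤ C ∧ ∀ u : XD D,
    ‖DkX h hk u‖ ≤ C * ‖ctY (Rr F c) (u : Y2)‖ := by
  obtain ⟨C, hC0, hC⟩ := h.DkL_le hk
  refine ⟨C, hC0, fun u => ?_⟩
  refine (gpX_dense D).induction_on (p := fun u : XD D => ‖DkX h hk u‖ ≤ C * ‖ctY (Rr F c) (u : Y2)‖) u ?_ ?_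
  · exact isClosed_le (DkX h hk).continuous.norm (continuous_const.mul (ng2b_ctY _))
  · intro ψ
    rw [DkX_gp]
    exact hC ψ

theorem WkV_le (h : Cld D ρ F c ζ a) {k : ℝ → ℂ} (hk : Kz c k) : ∃ C, 0 ≤ C ∧ ∀ v : VD D,
    ‖WkV h hk v‖ ≤ C * ‖ct (Rr F c) (v : L2c)‖ := by
  obtain ⟨C, hC0, hC⟩ := h.WkL_le hk
  refine ⟨C, hC0, fun v => ?_⟩
  refine (cuV_dense D).induction_on (p := fun v : VD D => ‖WkV h hk v‖ ≤ C * ‖ct (Rr F c) (v : L2c)‖) v ?_ ?_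
  · exact isClosed_le (WkV h hk).continuous.norm (continuous_const.mul (ng2b_ct _))
  · intro ψ
    rw [WkV_cu]
    exact hC ψ

theorem Er_le (h : Cld D ρ F c ζ a) (u : XD D) : ‖ctY (Er F c) (u : Y2)‖ ^ 2 ≤ 2 * Real.pi * ‖LaX h u‖ ^ 2 := by
  refine (gpX_dense D).induction_on
    (p := fun u : XD D => ‖ctY (Er F c) (u : Y2)‖ ^ 2 ≤ 2 * Real.pi * ‖LaX h u‖ ^ 2) u ?_ ?_
  · exact isClosed_le ((ng2b_ctY _).pow 2) (continuous_const.mul ((LaX h).continuous.norm.pow 2))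
  · intro ψ
    rw [LaX_gp]
    exact h.Er_le ψ

/-- `La ι = TT Ga`, `PP Ga = Ga` (`TT_lpc`, `PP_lpc`, `iot_cuV`, density) -/
theorem LaX_iot (h : Cld D ρ F c ζ a) (v : VD D) : LaX h (iot D v) = TT om1 (GaV h v) := by
  refine (cuV_dense D).induction_on (p := fun v : VD D => LaX h (iot D v) = TT om1 (GaV h v)) v ?_ ?_
  · exact isClosed_eq ((LaX h).continuous.comp (iot D).continuous) ((TT om1).continuous.comp (GaV h).continuous)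
  · intro ψ
    rw [iot_cuV h.bdd, LaX_gp, GaV_cu]
    exact (TT_lpc (h.zhat_pc (Adm.cc ψ).smo) (h.zhat_VT ψ)).symm

theorem PP_GaV (h : Cld D ρ F c ζ a) (v : VD D) : PP om1 (GaV h v) = GaV h v := by
  refine (cuV_dense D).induction_on (p := fun v : VD D => PP om1 (GaV h v) = GaV h v) v ?_ ?_
  · exact isClosed_eq ((PP om1).continuous.comp (GaV h).continuous) (GaV h).continuous
  · intro ψ
    rw [GaV_cu]
    exact PP_lpc (h.zhat_pc (Adm.cc ψ).smo) (h.zhat_VT ψ) (h.zhat_VB ψ)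

/-- `mb_bHn_zero`, density -/
theorem mb_LaX (h : Cld D ρ F c ζ a) {χc : CI Real.pi} (hχ : ∀ z ∈ Icc (0:ℝ) Real.pi, z ≤ c / 2 → ex χc z = 0)
    (u : XD D) : mb χc (LaX h u) = 0 := by
  refine (gpX_dense D).induction_on (p := fun u : XD D => mb χc (LaX h u) = 0) u ?_ ?_
  · exact isClosed_eq ((mb χc).continuous.comp (LaX h).continuous) continuous_const
  · intro ψ
    rw [LaX_gp]
    refine mb_bHn_zero (h.zhat_pc (Adm.cc ψ).smo) hχ fun y z hz => ?_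
    show ζ z * hat F c ψ (y, z) = 0
    rw [h.ζ0 z hz, zero_mul]

end Pool.Agent.Lib.MP_79abb3_an.PD
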