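import Pool.Agent.Lib.MP_79abb3_an.PD.NG2b
import Pool.Agent.Lib.MP_79abb3_an.PD.NF3g

/-!
Theorem D (MP_79abb3_an), block N: collars: test stream functions and the main terms.
-/

set_option autoImplicit false
set_option linter.unusedSectionVars false

open MeasureTheory Set Filter Topology Function
open scoped ENNReal InnerProductSpace

namespace Pool.Agent.Lib.MP_79abb3_an.PD

open Pool.Agent.Lib.MP_79abb3_an.P25 Pool.Agent.Lib.MP_79abb3_an.SC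

variable {D : Set ℂ} {ρ : ℝ} {F : ℂ → ℂ} {c : ℝ} {ζ : ℝ → ℂ} {a : ℝ × ℝ → ℝ}

/-- `X = χ(z) e^{iny}` -/
noncomputable def tX (n : ℤ) (χ : ℝ → ℂ) (p : ℝ × ℝ) : ℂ := χ p.2 * ee om1 n p.1

private noncomputable def ng3a_E (n : ℤ) (p : ℝ × ℝ) : ℂ := ee om1 n p.1

private theorem ng3a_om : om1 = 1 := div_self Real.pi_ne_zero

private theorem ng3a_E_pc (n : ℤ) : PCn (ng3a_E n) := by
  refine ⟨?_, fun y z => ?_⟩
  · have h1 : ContDiff ℝ ((⊤ : ℕ∞) : WithTop ℕ∞) fun p : ℝ × ℝ => ((om1 * n * p.1 : ℝ) : ℂ) :=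
      Complex.ofRealCLM.contDiff.comp (contDiff_const.mul contDiff_fst)
    exact (contDiff_const.mul h1).cexp
  · show ee om1 n (y + 2 * Real.pi) = ee om1 n y
    unfold ee
    refine Complex.exp_eq_exp_iff_exists_int.2 ⟨n, ?_⟩
    rw [ng3a_om]
    push_cast
    ring

private theorem ng3a_E_fd (n : ℤ) (p v : ℝ × ℝ) : fderiv ℝ (ng3a_E n) p v =
    (v.1 : ℂ) * (ng3a_E n p * (Complex.I * (n : ℂ))) := by
  have h1 := (fo_hasDerivAt_ee om1 n p.1).hasFDerivAt.comp p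
    (ContinuousLinearMap.fst ℝ ℝ ℝ).hasFDerivAt
  have h2 : HasFDerivAt (ng3a_E n) _ p := h1
  rw [h2.fderiv]
  have e : ((om1 * n : ℝ) : ℂ) = (n : ℂ) := by
    rw [ng3a_om, one_mul, Complex.ofReal_intCast]
  show v.1 • (ee om1 n p.1 * (Complex.I * ((om1 * n : ℝ) : ℂ))) = _
  rw [e, Complex.real_smul]
  rfl

private theorem ng3a_dy_E (n : ℤ) (p : ℝ × ℝ) : dyc (ng3a_E n) p = ng3a_E n p * (Complex.I * (n : ℂ)) := by
  have h := ng3a_E_fd n p (1, 0)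
  unfold dyc
  rw [h]
  show ((1 : ℝ) : ℂ) * _ = _
  rw [Complex.ofReal_one, one_mul]

private theorem ng3a_dz_E (n : ℤ) (p : ℝ × ℝ) : dzc (ng3a_E n) p = 0 := by
  have h := ng3a_E_fd n p (0, 1)
  unfold dzc
  rw [h]
  show ((0 : ℝ) : ℂ) * _ = _
  rw [Complex.ofReal_zero, zero_mul]

private theorem ng3a_tX (n : ℤ) (χ : ℝ → ℂ) : tX n χ = fun p => χ p.2 * ng3a_E n p := rfl

theorem tX_pc (n : ℤ) {χ : ℝ → ℂ} (hχ : ContDiff ℝ ((⊤ : ℕ∞) : WithTop ℕ∞) χ) : PCn (tX n χ) :=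
  (PCn.ofz hχ).mul (ng3a_E_pc n)

theorem dzc_tX (n : ℤ) {χ : ℝ → ℂ} (hχ : ContDiff ℝ ((⊤ : ℕ∞) : WithTop ℕ∞) χ) (p : ℝ × ℝ) :
    dzc (tX n χ) p = tX n (deriv χ) p := by
  rw [ng3a_tX, dzc_mul (PCn.ofz hχ) (ng3a_E_pc n), ng3a_dz_E, mul_zero, add_zero, dzc_ofz χ hχ]
  rfl

private theorem ng3a_dy_tX (n : ℤ) {χ : ℝ → ℂ} (hχ : ContDiff ℝ ((⊤ : ℕ∞) : WithTop ℕ∞) χ) (p : ℝ × ℝ) :
    dyc (tX n χ) p = tX n (fun z => (Complex.I * (n : ℂ)) * χ z) p := by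
  rw [ng3a_tX, dyc_mul (PCn.ofz hχ) (ng3a_E_pc n), ng3a_dy_E, dyc_ofz χ hχ, zero_mul, zero_add]
  show χ p.2 * (ee om1 n p.1 * (Complex.I * (n : ℂ))) = (Complex.I * (n : ℂ)) * χ p.2 * ee om1 n p.1
  ring

private theorem ng3a_der {k : ℝ → ℂ} (hk : ContDiff ℝ ((⊤ : ℕ∞) : WithTop ℕ∞) k) :
    ContDiff ℝ ((⊤ : ℕ∞) : WithTop ℕ∞) (deriv k) :=
  (contDiff_infty_iff_deriv.1 hk).2

private theorem ng3a_hi {k : ℝ → ℂ} (hk : ContDiff ℝ ((⊤ : ℕ∞) : WithTop ℕ∞) k) {b : ℝ}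
    (h : ∀ z, b ≤ z → k z = 0) : ∀ z, b ≤ z → deriv k z = 0 := by
  have hc : Continuous (deriv k) := (ng3a_der hk).continuous
  have h1 : ∀ z ∈ Ioi b, deriv k z = 0 := fun z hz => by
    have h2 : k =ᶠ[𝓝 z] fun _ => 0 := by
      filter_upwards [isOpen_Ioi.mem_nhds hz] with w hw
      exact h w (le_of_lt hw)
    rw [h2.deriv_eq, deriv_const]
  have h2 : closure (Ioi b) ⊆ {z | deriv k z = 0} :=
    closure_minimal h1 (isClosed_eq hc continuous_const)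
  rw [closure_Ioi] at h2
  exact fun z hz => h2 hz

/-- `-Δ(χ e_n) = (n² χ - χ'') e_n` -/
theorem lpc_tX (n : ℤ) {χ : ℝ → ℂ} (hχ : ContDiff ℝ ((⊤ : ℕ∞) : WithTop ℕ∞) χ) (p : ℝ × ℝ) :
    lpc (tX n χ) p = tX n (tfk n χ) p := by
  have e1 : dyc (tX n χ) = tX n (fun z => (Complex.I * (n : ℂ)) * χ z) := funext fun p => ng3a_dy_tX n hχ p
  have e2 : dzc (tX n χ) = tX n (deriv χ) := funext fun p => dzc_tX n hχ p
  unfold lpc
  rw [e1, e2, ng3a_dy_tX n (contDiff_const.mul hχ), dzc_tX n (ng3a_der hχ)]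
  unfold tX tfk
  push_cast
  linear_combination (-(n : ℂ) ^ 2 * χ p.2 * ee om1 n p.1) * Complex.I_mul_I

/-- `inner_sgl` in this notation -/
theorem inner_tX {f : ℝ × ℝ → ℂ} (hf : PCn f) (n : ℤ) {k : ℝ → ℂ} (hk : Continuous k) : ⟪fHn f, sgl n k⟫_ℂ =
    ((2 * Real.pi : ℝ) : ℂ)⁻¹ * ∫ p in cell, (starRingEnd ℂ) (f p) * tX n k p :=
  inner_sgl hf n hk

private theorem ng3a_congr {f g : ℝ × ℝ → ℂ} {p : ℝ × ℝ} (h : f =ᶠ[𝓝 p] g) : lpc f p = lpc g p := by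
  have h1 : fderiv ℝ f =ᶠ[𝓝 p] fderiv ℝ g := h.fderiv
  have h2 : dyc f =ᶠ[𝓝 p] dyc g := h1.fun_comp fun L => L (1, 0)
  have h3 : dzc f =ᶠ[𝓝 p] dzc g := h1.fun_comp fun L => L (0, 1)
  unfold lpc
  show -(fderiv ℝ (dyc f) p (1, 0) + fderiv ℝ (dzc f) p (0, 1)) =
    -(fderiv ℝ (dyc g) p (1, 0) + fderiv ℝ (dzc g) p (0, 1))
  rw [h2.fderiv_eq, h3.fderiv_eq]

private theorem ng3a_ks (h : Cld D ρ F c ζ a) {n : ℤ} {χ : ℝ → ℂ} (hχ : Tst n χ) :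
    ContDiff ℝ ((⊤ : ℕ∞) : WithTop ℕ∞) fun z => ζ z * χ z := h.ζs.mul hχ.smooth

/-- the Laplacian vanishes beyond the support of the cut-off -/
private theorem ng3a_zero (h : Cld D ρ F c ζ a) {n : ℤ} {χ : ℝ → ℂ} (hχ : Tst n χ) (y z : ℝ)
    (hz : c / 2 ≤ z) : lpc (tX n (fun z => ζ z * χ z)) (y, z) = 0 := by
  have hks := ng3a_ks h hχ
  have h1 : ∀ z, c / 2 ≤ z → ζ z * χ z = 0 := fun z hz => by rw [h.ζ0 z hz, zero_mul]
  have h2 := ng3a_hi (ng3a_der hks) (ng3a_hi hks h1) z hz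
  rw [lpc_tX n hks]
  show (((n : ℝ) ^ 2 : ℝ) * (ζ z * χ z) - deriv (deriv fun z => ζ z * χ z) z) * ee om1 n y = 0
  rw [h1 z hz, h2, mul_zero, sub_zero, zero_mul]

/-- The test stream function of the domain for the profile `χ`: `φ ∘ Φ = ζ χ e_n` (`exists_push` for `k = ζ χ`, `b = c/2`). -/
theorem Cld.push (h : Cld D ρ F c ζ a) {n : ℤ} {χ : ℝ → ℂ} (hχ : Tst n χ) : ∃ φ : Adm D,
    (∀ y z, 0 ≤ z → z < -Real.log ρ → (φ : ℂ → ℂ) (Ph F (y, z)) = tX n (fun z => ζ z * χ z) (y, z)) ∧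
      ∀ x ∉ F '' rg 0 (c / 2), (φ : ℂ → ℂ) x = 0 := by
  have hc := h.c0
  have hl := h.cL
  obtain ⟨ε, hε, h0⟩ := hχ.zero
  exact exists_push h.op h.col h.ρ0 n (k := fun z => ζ z * χ z) (ng3a_ks h hχ) (ε := min ε (c / 4))
    (lt_min hε (by positivity)) (lt_of_le_of_lt (min_le_right _ _) (by linarith)) (by linarith)
    (fun z hz => by
      show ζ z * χ z = 0
      rw [h0 z (hz.trans (min_le_left _ _)), mul_zero])
    (fun z hz => by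
      show ζ z * χ z = 0
      rw [h.ζ0 z hz, zero_mul])

/-- `-Δ(ζ X)` on the cell: `JF • (-Δφ) ∘ Φ` for `0 < z < c/2`, `0` for `z ≥ c/2` (`lpc_Ph` for `φ`). -/
theorem Cld.lpc_push (h : Cld D ρ F c ζ a) {n : ℤ} {χ : ℝ → ℂ} (hχ : Tst n χ) {φ : Adm D}
    (h1 : ∀ y z, 0 ≤ z → z < -Real.log ρ → (φ : ℂ → ℂ) (Ph F (y, z)) = tX n (fun z => ζ z * χ z) (y, z))
    (y z : ℝ) (hz : 0 < z) (hz2 : z < -Real.log ρ) :
    lpc (tX n (fun z => ζ z * χ z)) (y, z) = (JF F (y, z) : ℂ) * -(lap φ (Ph F (y, z))) := by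
  have _h := hχ
  rw [← lpc_Ph h.col h.ρ0 (Adm.cc φ).smo (p := (y, z)) hz hz2]
  have hO : IsOpen {q : ℝ × ℝ | 0 < q.2 ∧ q.2 < -Real.log ρ} :=
    (isOpen_lt continuous_const continuous_snd).inter (isOpen_lt continuous_snd continuous_const)
  refine ng3a_congr ?_
  filter_upwards [hO.mem_nhds (show (y, z) ∈ {q : ℝ × ℝ | 0 < q.2 ∧ q.2 < -Real.log ρ} from ⟨hz, hz2⟩)]
    with q hq
  exact (h1 q.1 q.2 hq.1.le hq.2).symm

/-- the Laplacian of the test stream function vanishes off the collar -/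
private theorem ng3a_lap (h : Cld D ρ F c ζ a) {n : ℤ} {χ : ℝ → ℂ} (hχ : Tst n χ) {φ : Adm D}
    (h1 : ∀ y z, 0 ≤ z → z < -Real.log ρ → (φ : ℂ → ℂ) (Ph F (y, z)) = tX n (fun z => ζ z * χ z) (y, z))
    (h2 : ∀ x ∉ F '' rg 0 (c / 2), (φ : ℂ → ℂ) x = 0) : ∀ x ∉ F '' rg 0 (c / 2), lap φ x = 0 := by
  have hc := h.c0
  have hl := h.cL
  obtain ⟨ε, hε, h0⟩ := hχ.zero
  set K : Set ℂ := Ph F '' (Icc (-Real.pi) Real.pi ×ˢ Icc ε (c / 2)) with hK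
  have hKc : IsCompact K := (isCompact_Icc.prod isCompact_Icc).image (Ph_pc h.col).smooth.continuous
  have hsub : tsupport (φ : ℂ → ℂ) ⊆ K := by
    refine closure_minimal (fun x hx => ?_) hKc.isClosed
    have hx1 : x ∈ F '' rg 0 (c / 2) := by
      by_contra h3
      exact hx (h2 x h3)
    obtain ⟨ξ, ⟨g1, g2⟩, rfl⟩ := hx1
    have hpos : 0 < ‖ξ‖ := (Real.exp_pos _).trans g1
    obtain ⟨y, hy, hξ⟩ := exists_xi (norm_pos_iff.1 hpos)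
    have g3 := (Real.log_lt_iff_lt_exp hpos).2 g2
    have g4 := (Real.lt_log_iff_exp_lt hpos).2 g1
    have e1 : Ph F (y, -Real.log ‖ξ‖) = F ξ := by unfold Ph; rw [hξ]
    have e2 := h1 y (-Real.log ‖ξ‖) (by linarith) (by linarith)
    rw [e1] at e2
    refine ⟨(y, -Real.log ‖ξ‖), ⟨⟨hy.1.le, hy.2⟩, ?_, by show -Real.log ‖ξ‖ ≤ c / 2; linarith⟩, e1⟩
    show ε ≤ -Real.log ‖ξ‖
    by_contra h3
    apply hx
    show (φ : ℂ → ℂ) (F ξ) = 0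
    rw [e2]
    show ζ (-Real.log ‖ξ‖) * χ (-Real.log ‖ξ‖) * ee om1 n y = 0
    rw [h0 _ (not_le.1 h3).le, mul_zero, zero_mul]
  intro x hx
  by_cases hxK : x ∈ K
  · obtain ⟨⟨y, z⟩, ⟨hy, hz⟩, rfl⟩ := hxK
    have hz1 : ε ≤ z := hz.1
    have hz2 : z ≤ c / 2 := hz.2
    have hz3 : z = c / 2 := by
      by_contra h3
      refine hx ⟨xi (y, z), ⟨?_, ?_⟩, rfl⟩
      · rw [norm_xi]
        exact Real.exp_lt_exp.2 (neg_lt_neg (lt_of_le_of_ne hz2 h3))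
      · rw [norm_xi]
        exact Real.exp_lt_exp.2 (neg_lt_neg (show 0 < z by linarith))
    have h3 := h.lpc_push hχ h1 y z (by linarith) (by linarith)
    rw [ng3a_zero h hχ y z hz3.ge] at h3
    have h4 := JF_pos h.col h.ρ0 (p := (y, z)) (show 0 ≤ z by linarith) (show z < -Real.log ρ by linarith)
    have h5 : ((JF F (y, z) : ℝ) : ℂ) ≠ 0 := Complex.ofReal_ne_zero.2 h4.ne'
    rcases mul_eq_zero.1 h3.symm with h6 | h6
    · exact absurd h6 h5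
    · exact neg_eq_zero.1 h6
  · have h3 : x ∉ tsupport (φ : ℂ → ℂ) := fun h4 => hxK (hsub h4)
    have h4 : (φ : ℂ → ℂ) =ᶠ[𝓝 x] fun _ => 0 := notMem_tsupport_iff_eventuallyEq.1 h3
    have h5 : fderiv ℝ (φ : ℂ → ℂ) =ᶠ[𝓝 x] fun _ => 0 := by
      refine h4.fderiv.trans (Eventually.of_forall fun y => ?_)
      show fderiv ℝ (fun _ : ℂ => (0 : ℂ)) y = 0
      rw [fderiv_const_apply]
    have h6 : px (φ : ℂ → ℂ) =ᶠ[𝓝 x] fun _ => 0 := h5.fun_comp fun L => L 1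
    have h7 : py (φ : ℂ → ℂ) =ᶠ[𝓝 x] fun _ => 0 := h5.fun_comp fun L => L Complex.I
    show fderiv ℝ (px φ) x 1 + fderiv ℝ (py φ) x Complex.I = 0
    rw [h6.fderiv_eq, h7.fderiv_eq, fderiv_const_apply]
    show (0 : ℂ) + 0 = 0
    rw [add_zero]

private theorem ng3a_hat (h : Cld D ρ F c ζ a) (ψ : Adm D) {y z : ℝ} (hz : 0 < z) (hz2 : z < -Real.log ρ) :
    lpc (hat F c ψ) (y, z) = (JF F (y, z) : ℂ) * -(lap ψ (Ph F (y, z))) := by
  have e1 : hat F c ψ = fun p => (ψ : ℂ → ℂ) (Ph F p) + -mQ F c ψ := funext fun p => sub_eq_add_neg _ _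
  rw [e1, lpc_add (comp_pc h.col (Adm.cc ψ).smo) (PCn.const _), lpc_const, add_zero]
  exact lpc_Ph h.col h.ρ0 (Adm.cc ψ).smo (p := (y, z)) hz hz2

private theorem ng3a_alg (A J : ℝ) (hAJ : A * J = 1) (X Y : ℂ) :
    (starRingEnd ℂ) ((A : ℂ) * ((J : ℂ) * -X)) * ((J : ℂ) * -Y) = J • ((starRingEnd ℂ) X * Y) := by
  have h : (A : ℂ) * (J : ℂ) = 1 := by exact_mod_cast hAJ
  rw [map_mul, map_mul, map_neg, Complex.conj_ofReal, Complex.conj_ofReal, Complex.real_smul]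
  linear_combination ((J : ℂ) * (starRingEnd ℂ) X * Y) * h

/-- **(i), main term.** `(2π)⁻¹ ∫ conj(a (-Δψ^)) (-Δ(ζX)) = (2π)⁻¹ ⟪cu ψ, cu φ⟫`: `int_cell` for `g = conj(-Δψ) (-Δφ)`, `a JF = 1` for `z < c/2`;
`-Δφ` vanishes outside `F '' rg 0 (c/2)` (closed support inside; `φ = 0` off this set and `lap φ = 0` in the open complement and, by
continuity, on its boundary; the boundary is a null set or: `tsupport φ`), `Cc.inner`. -/
theorem Cld.main_i (h : Cld D ρ F c ζ a) {n : ℤ} {χ : ℝ → ℂ} (hχ : Tst n χ) {φ : Adm D}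
    (h1 : ∀ y z, 0 ≤ z → z < -Real.log ρ → (φ : ℂ → ℂ) (Ph F (y, z)) = tX n (fun z => ζ z * χ z) (y, z))
    (h2 : ∀ x ∉ F '' rg 0 (c / 2), (φ : ℂ → ℂ) x = 0) (ψ : Adm D) :
    ∫ p in cell, (starRingEnd ℂ) ((a p : ℂ) * lpc (hat F c ψ) p) * lpc (tX n (fun z => ζ z * χ z)) p =
      ⟪cu ψ, cu φ⟫_ℂ := by
  have hc := h.c0
  have hl := h.cL
  have hπ := h.cpi
  have hlap := ng3a_lap h hχ h1 h2
  have e1 : ⟪cu ψ, cu φ⟫_ℂ = ∫ x in F '' rg 0 (c / 2), (starRingEnd ℂ) (lap ψ x) * lap φ x := by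
    unfold cu
    rw [inner_neg_neg, (Adm.cc ψ).lap.inner (Adm.cc φ).lap]
    refine (setIntegral_eq_integral_of_forall_compl_eq_zero fun x hx => ?_).symm
    rw [hlap x hx, mul_zero]
  rw [e1]
  refine int_cell h.col h.ρ0 le_rfl (by positivity) (by linarith) (by linarith)
    (fun x => (starRingEnd ℂ) (lap ψ x) * lap φ x) ?_ ?_
  · intro y z hz hz'
    show (starRingEnd ℂ) ((a (y, z) : ℂ) * lpc (hat F c ψ) (y, z)) *
      lpc (tX n (fun z => ζ z * χ z)) (y, z) = _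
    rw [ng3a_hat h ψ hz (by linarith), h.lpc_push hχ h1 y z hz (by linarith)]
    exact ng3a_alg _ _ (h.aJ y z hz.le (by linarith)) _ _
  · intro y z hz0 _ hz
    rcases hz with hz | hz
    · exact absurd hz0 (not_lt.2 hz)
    · show (starRingEnd ℂ) ((a (y, z) : ℂ) * lpc (hat F c ψ) (y, z)) *
        lpc (tX n (fun z => ζ z * χ z)) (y, z) = 0
      rw [ng3a_zero h hχ y z hz, mul_zero]

/-- **(ii), main term.** `∫ conj(ψ^ - m) (-Δ(ζX)) = ⟪cl2 ψ, cu φ⟫ = ⟪gp ψ, gp φ⟫` (`int_cell`, `int_lpc_zero`, `ip_gp` and its conjugate). -/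
theorem Cld.main_ii (h : Cld D ρ F c ζ a) {n : ℤ} {χ : ℝ → ℂ} (hχ : Tst n χ) {φ : Adm D}
    (h1 : ∀ y z, 0 ≤ z → z < -Real.log ρ → (φ : ℂ → ℂ) (Ph F (y, z)) = tX n (fun z => ζ z * χ z) (y, z))
    (h2 : ∀ x ∉ F '' rg 0 (c / 2), (φ : ℂ → ℂ) x = 0) (ψ : Adm D) :
    ∫ p in cell, (starRingEnd ℂ) (hat F c ψ p) * lpc (tX n (fun z => ζ z * χ z)) p = ⟪gp ψ, gp φ⟫_ℂ := by
  have hc := h.c0
  have hl := h.cL
  have hπ := h.cpi
  have hlap := ng3a_lap h hχ h1 h2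
  have hks := ng3a_ks h hχ
  have hX := tX_pc n hks
  obtain ⟨ε, hε, h0⟩ := hχ.zero
  -- the right hand side
  have e1 : ⟪gp ψ, gp φ⟫_ℂ = ∫ x in F '' rg 0 (c / 2), (starRingEnd ℂ) ((ψ : ℂ → ℂ) x) * -lap φ x := by
    have e2 : ⟪gp ψ, gp φ⟫_ℂ = ⟪cl2 (ψ : ℂ → ℂ), cu φ⟫_ℂ := by
      rw [← inner_conj_symm, ip_gp (Adm.cc φ) (Adm.cc ψ), inner_conj_symm]
    rw [e2]
    unfold cu
    rw [inner_neg_right, (Adm.cc ψ).inner (Adm.cc φ).lap, ← integral_neg]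
    have e3 : ∫ x, -((starRingEnd ℂ) ((ψ : ℂ → ℂ) x) * lap φ x) =
        ∫ x, (starRingEnd ℂ) ((ψ : ℂ → ℂ) x) * -lap φ x := by
      congr 1
      funext x
      ring
    rw [e3]
    refine (setIntegral_eq_integral_of_forall_compl_eq_zero fun x hx => ?_).symm
    rw [hlap x hx, neg_zero, mul_zero]
  -- the constant
  have e4 : ∫ p in cell, lpc (tX n (fun z => ζ z * χ z)) p = 0 := by
    refine int_lpc_zero hX ⟨Real.pi - c / 2, by linarith, fun y z hz => ?_⟩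
      ⟨0, min ε ε, lt_min hε hε, fun y z hz => ?_⟩
    · show ζ z * χ z * ee om1 n y = 0
      rw [h.ζ0 z (by linarith), zero_mul, zero_mul]
    · show ζ z * χ z * ee om1 n y = 0
      rw [h0 z ((le_abs_self z).trans (hz.trans (min_le_left _ _))), mul_zero, zero_mul]
  have hψc : Continuous fun p : ℝ × ℝ => (starRingEnd ℂ) ((ψ : ℂ → ℂ) (Ph F p)) :=
    (comp_pc h.col (Adm.cc ψ).smo).conj.smooth.continuous
  have hcell : IsCompact cell := isCompact_Icc.prod isCompact_Icc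
  have i1 : IntegrableOn (fun p : ℝ × ℝ => (starRingEnd ℂ) ((ψ : ℂ → ℂ) (Ph F p)) *
      lpc (tX n (fun z => ζ z * χ z)) p) cell :=
    (hψc.mul hX.lp.smooth.continuous).continuousOn.integrableOn_compact hcell
  have i2 : IntegrableOn (fun p : ℝ × ℝ => (starRingEnd ℂ) (mQ F c ψ) *
      lpc (tX n (fun z => ζ z * χ z)) p) cell :=
    (continuous_const.mul hX.lp.smooth.continuous).continuousOn.integrableOn_compact hcell
  have e5 : ∫ p in cell, (starRingEnd ℂ) (hat F c ψ p) * lpc (tX n (fun z => ζ z * χ z)) p =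
      ∫ p in cell, (starRingEnd ℂ) ((ψ : ℂ → ℂ) (Ph F p)) * lpc (tX n (fun z => ζ z * χ z)) p := by
    have e6 : (fun p => (starRingEnd ℂ) (hat F c ψ p) * lpc (tX n (fun z => ζ z * χ z)) p) = fun p =>
        (starRingEnd ℂ) ((ψ : ℂ → ℂ) (Ph F p)) * lpc (tX n (fun z => ζ z * χ z)) p -
          (starRingEnd ℂ) (mQ F c ψ) * lpc (tX n (fun z => ζ z * χ z)) p := by
      funext p
      unfold hat
      rw [map_sub]
      ring
    rw [e6, integral_sub i1 i2, integral_const_mul, e4, mul_zero, sub_zero]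
  rw [e5, e1]
  refine int_cell h.col h.ρ0 le_rfl (by positivity) (by linarith) (by linarith)
    (fun x => (starRingEnd ℂ) ((ψ : ℂ → ℂ) x) * -lap φ x) ?_ ?_
  · intro y z hz hz'
    show (starRingEnd ℂ) ((ψ : ℂ → ℂ) (Ph F (y, z))) * lpc (tX n (fun z => ζ z * χ z)) (y, z) = _
    rw [h.lpc_push hχ h1 y z hz (by linarith), Complex.real_smul]
    ring
  · intro y z hz0 _ hz
    rcases hz with hz | hz
    · exact absurd hz0 (not_lt.2 hz)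
    · show (starRingEnd ℂ) ((ψ : ℂ → ℂ) (Ph F (y, z))) * lpc (tX n (fun z => ζ z * χ z)) (y, z) = 0
      rw [ng3a_zero h hχ y z hz, mul_zero]

end Pool.Agent.Lib.MP_79abb3_an.PD
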