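import Pool.Agent.Lib.MP_79abb3_an.PD.NG3a

/-!
Theorem D (MP_79abb3_an), block N: collars: the two identities.
-/

set_option autoImplicit false
set_option linter.unusedSectionVars false

open MeasureTheory Set Filter Topology Function
open scoped ENNReal InnerProductSpace

namespace Pool.Agent.Lib.MP_79abb3_an.PD

open Pool.Agent.Lib.MP_79abb3_an.P25 Pool.Agent.Lib.MP_79abb3_an.SC

variable {D : Set ℂ} {ρ : ℝ} {F : ℂ → ℂ} {c : ℝ} {ζ : ℝ → ℂ} {a : ℝ × ℝ → ℝ}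

/-- The remainder on the ring: `ρ = 2ζ' ∂_z(ψ∘Φ) + ζ'' (ψ∘Φ - m)`. -/
noncomputable def rhoX (h : Cld D ρ F c ζ a) : XD D →L[ℂ] HH Real.pi := DkX h h.kz21 + PkX h h.kz2

private theorem ng3b_int {f : ℝ × ℝ → ℂ} (hf : PCn f) : Integrable f (volume.restrict cell) :=
  hf.smooth.continuous.continuousOn.integrableOn_compact (isCompact_Icc.prod isCompact_Icc)

private theorem ng3b_sum4 {f1 f2 f3 f4 g : ℝ × ℝ → ℂ} (h1 : PCn f1) (h2 : PCn f2) (h3 : PCn f3) (h4 : PCn f4)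
    (hg : ∀ p, g p = f1 p + 2 * f2 p + f3 p - f4 p) : ∫ p in cell, g p =
      (∫ p in cell, f1 p) + 2 * (∫ p in cell, f2 p) + (∫ p in cell, f3 p) - ∫ p in cell, f4 p := by
  have i1 := ng3b_int h1
  have i2 := (ng3b_int h2).const_mul 2
  have i3 := ng3b_int h3
  have i4 := ng3b_int h4
  have i12 : Integrable (fun p => f1 p + 2 * f2 p) (volume.restrict cell) := i1.add i2
  have i123 : Integrable (fun p => f1 p + 2 * f2 p + f3 p) (volume.restrict cell) := i12.add i3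
  simp_rw [hg]
  rw [integral_sub i123 i4, integral_add i12 i3, integral_add i1 i2, integral_const_mul]

private theorem ng3b_sum3 {f1 f2 f3 g : ℝ × ℝ → ℂ} (h1 : PCn f1) (h2 : PCn f2) (h3 : PCn f3)
    (hg : ∀ p, g p = f1 p - 2 * f2 p - f3 p) : ∫ p in cell, g p =
      (∫ p in cell, f1 p) - 2 * (∫ p in cell, f2 p) - ∫ p in cell, f3 p := by
  have i1 := ng3b_int h1
  have i2 := (ng3b_int h2).const_mul 2
  have i3 := ng3b_int h3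
  have i12 : Integrable (fun p => f1 p - 2 * f2 p) (volume.restrict cell) := i1.sub i2
  simp_rw [hg]
  rw [integral_sub i12 i3, integral_sub i1 i2, integral_const_mul]

private theorem ng3b_tfk {n : ℤ} {χ : ℝ → ℂ} (hχ : ContDiff ℝ ((⊤ : ℕ∞) : WithTop ℕ∞) χ) :
    ContDiff ℝ ((⊤ : ℕ∞) : WithTop ℕ∞) (tfk n χ) := by
  have h1 : ContDiff ℝ ((⊤ : ℕ∞) : WithTop ℕ∞) (deriv χ) := (contDiff_infty_iff_deriv.1 hχ).2
  have h2 : ContDiff ℝ ((⊤ : ℕ∞) : WithTop ℕ∞) (deriv (deriv χ)) := (contDiff_infty_iff_deriv.1 h1).2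
  exact (contDiff_const.mul hχ).sub h2

private theorem ng3b_conj {k : ℝ → ℂ} (hk : Differentiable ℝ k) (hr : ∀ z, (starRingEnd ℂ) (k z) = k z)
    (z : ℝ) : (starRingEnd ℂ) (deriv k z) = deriv k z := by
  have h1 : HasDerivAt ((Complex.conjCLE : ℂ →L[ℝ] ℂ) ∘ k) ((Complex.conjCLE : ℂ →L[ℝ] ℂ) (deriv k z)) z :=
    (Complex.conjCLE : ℂ →L[ℝ] ℂ).hasFDerivAt.comp_hasDerivAt z (hk z).hasDerivAt
  have h2 : ((Complex.conjCLE : ℂ →L[ℝ] ℂ) ∘ k) = k := funext hr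
  rw [h2] at h1
  exact h1.unique (hk z).hasDerivAt

/-- `ζ (-Δ X) = -Δ (ζ X) + 2 ζ' ∂_z X + ζ'' X` -/
private theorem ng3b_key {k χ : ℝ → ℂ} (hk : ContDiff ℝ ((⊤ : ℕ∞) : WithTop ℕ∞) k)
    (hχ : ContDiff ℝ ((⊤ : ℕ∞) : WithTop ℕ∞) χ) (n : ℤ) (p : ℝ × ℝ) :
    k p.2 * tX n (tfk n χ) p = lpc (tX n (fun z => k z * χ z)) p + 2 * (deriv k p.2 * tX n (deriv χ) p) +
      deriv (deriv k) p.2 * tX n χ p := by
  have h1 : (fun p : ℝ × ℝ => k p.2 * tX n χ p) = tX n (fun z => k z * χ z) := by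
    funext p
    unfold tX
    ring
  have h2 := lpc_ofz_mul hk (tX_pc n hχ) p
  rw [h1, dzc_tX n hχ, lpc_tX n hχ] at h2
  rw [h2]
  ring

/-- **(i)** for smooth fields. `-Δ(ζ hat) = ζ(-Δψ^) - (kdz (2ζ') + khat ζ'')`, `ζ lpc X = lpc (ζX) + 2ζ' ∂_z X + ζ'' X` (`lpc_ofz_mul`, `dzc_tX`),
`cm_fHn`, `inner_tX`, `main_i`. -/
theorem Cld.id_i (h : Cld D ρ F c ζ a) {n : ℤ} {χ : ℝ → ℂ} (hχ : Tst n χ) {φ : Adm D}
    (h1 : ∀ y z, 0 ≤ z → z < -Real.log ρ → (φ : ℂ → ℂ) (Ph F (y, z)) = tX n (fun z => ζ z * χ z) (y, z))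
    (h2 : ∀ x ∉ F '' rg 0 (c / 2), (φ : ℂ → ℂ) x = 0) (ψ : Adm D) :
    ⟪SC.cm (fam a) (GaV h (cuV D ψ)), tf n χ⟫_ℂ =
      ((2 * Real.pi : ℝ) : ℂ)⁻¹ * ⟪cuV D ψ, cuV D φ⟫_ℂ + 2 * ⟪WkV h h.kz1 (cuV D ψ), sgl n (deriv χ)⟫_ℂ +
        ⟪WkV h h.kz2 (cuV D ψ), sgl n χ⟫_ℂ - ⟪SC.cm (fam a) (rhoX h (gpX D ψ)), tf n χ⟫_ℂ := by
  have hs := (Adm.cc ψ).smo
  have hH : PCn (hat F c ψ) := h.hat_pc hs
  have hχs := hχ.smooth
  have hχ1 : ContDiff ℝ ((⊤ : ℕ∞) : WithTop ℕ∞) (deriv χ) := (contDiff_infty_iff_deriv.1 hχs).2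
  have hT := ng3b_tfk (n := n) hχs
  have hζχ : ContDiff ℝ ((⊤ : ℕ∞) : WithTop ℕ∞) (fun z => ζ z * χ z) := h.ζs.mul hχs
  have r1 := ng3b_conj (h.ζs.differentiable (by simp)) h.ζr
  have r2 := ng3b_conj (h.kz1.smooth.differentiable (by simp)) r1
  have p2 : PCn (fun p => kdz F c (fun z => 2 * deriv ζ z) ψ p + khat F c (deriv (deriv ζ)) ψ p) :=
    (h.kdz_pc h.kz21.smooth hs).add (h.khat_pc h.kz2.smooth hs)
  have e0 : rhoX h (gpX D ψ) =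
      fHn (fun p => kdz F c (fun z => 2 * deriv ζ z) ψ p + khat F c (deriv (deriv ζ)) ψ p) := by
    unfold rhoX
    rw [_root_.add_apply, DkX_gp, PkX_gp, fHn_add (h.kdz_pc h.kz21.smooth hs) (h.khat_pc h.kz2.smooth hs)]
  have e5 : ⟪cuV D ψ, cuV D φ⟫_ℂ = ⟪cu ψ, cu φ⟫_ℂ := rfl
  rw [e0, e5, ← h.main_i hχ h1 h2 ψ, GaV_cu, WkV_cu, WkV_cu, cm_fHn h.apc p2,
    cm_fHn h.apc (h.zhat_pc hs).lp]
  unfold tf
  rw [inner_tX (h.apc.mul (h.zhat_pc hs).lp) n hT.continuous,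
    inner_tX (h.klp_pc h.kz1.smooth hs) n hχ1.continuous,
    inner_tX (h.klp_pc h.kz2.smooth hs) n hχs.continuous, inner_tX (h.apc.mul p2) n hT.continuous]
  have q1 := (h.apc.mul hH.lp).conj.mul (tX_pc n hζχ).lp
  have q2 := (h.klp_pc h.kz1.smooth hs).conj.mul (tX_pc n hχ1)
  have q3 := (h.klp_pc h.kz2.smooth hs).conj.mul (tX_pc n hχs)
  have q4 := (h.apc.mul p2).conj.mul (tX_pc n hT)
  have key : ∫ p in cell, (starRingEnd ℂ) ((a p : ℂ) * lpc (zhat F c ζ ψ) p) * tX n (tfk n χ) p =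
      (∫ p in cell, (starRingEnd ℂ) ((a p : ℂ) * lpc (hat F c ψ) p) * lpc (tX n (fun z => ζ z * χ z)) p) +
      2 * (∫ p in cell, (starRingEnd ℂ) (klp F c a (deriv ζ) ψ p) * tX n (deriv χ) p) +
      (∫ p in cell, (starRingEnd ℂ) (klp F c a (deriv (deriv ζ)) ψ p) * tX n χ p) -
      ∫ p in cell, (starRingEnd ℂ) ((a p : ℂ) * (kdz F c (fun z => 2 * deriv ζ z) ψ p +
        khat F c (deriv (deriv ζ)) ψ p)) * tX n (tfk n χ) p := by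
    refine ng3b_sum4 q1 q2 q3 q4 fun p => ?_
    have k1 := ng3b_key h.ζs hχs n p
    have k2 := lpc_ofz_mul h.ζs hH p
    have k3 : lpc (zhat F c ζ ψ) p = ζ p.2 * lpc (hat F c ψ) p - 2 * (deriv ζ p.2 * dzc (hat F c ψ) p) -
        deriv (deriv ζ) p.2 * hat F c ψ p := k2
    unfold klp kdz khat
    rw [k3]
    simp only [map_mul, map_add, map_sub, h.ζr, r1, r2, Complex.conj_ofReal, map_ofNat]
    linear_combination ((a p : ℂ) * (starRingEnd ℂ) (lpc (hat F c ψ) p)) * k1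
  rw [key]
  ring

/-- **(ii)** for smooth fields: `⟪bHn (ζ hat), TT (tf n χ)⟫ = ⟪fHn (ζ hat), tf n χ⟫` (`inner_bHn'`, `PP_tf`), `ζ lpc X = …`, `main_ii`. -/
theorem Cld.id_ii (h : Cld D ρ F c ζ a) {n : ℤ} {χ : ℝ → ℂ} (hχ : Tst n χ) {φ : Adm D}
    (h1 : ∀ y z, 0 ≤ z → z < -Real.log ρ → (φ : ℂ → ℂ) (Ph F (y, z)) = tX n (fun z => ζ z * χ z) (y, z))
    (h2 : ∀ x ∉ F '' rg 0 (c / 2), (φ : ℂ → ℂ) x = 0) (ψ : Adm D) :
    ((2 * Real.pi : ℝ) : ℂ)⁻¹ * ⟪gpX D ψ, gpX D φ⟫_ℂ = ⟪LaX h (gpX D ψ), TT om1 (tf n χ)⟫_ℂ -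
      2 * ⟪PkX h h.kz1 (gpX D ψ), sgl n (deriv χ)⟫_ℂ - ⟪PkX h h.kz2 (gpX D ψ), sgl n χ⟫_ℂ := by
  have hs := (Adm.cc ψ).smo
  have hH : PCn (hat F c ψ) := h.hat_pc hs
  have hχs := hχ.smooth
  have hχ1 : ContDiff ℝ ((⊤ : ℕ∞) : WithTop ℕ∞) (deriv χ) := (contDiff_infty_iff_deriv.1 hχs).2
  have hT := ng3b_tfk (n := n) hχs
  have r1 := ng3b_conj (h.ζs.differentiable (by simp)) h.ζr
  have r2 := ng3b_conj (h.kz1.smooth.differentiable (by simp)) r1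
  have e5 : ⟪gpX D ψ, gpX D φ⟫_ℂ = ⟪gp ψ, gp φ⟫_ℂ := rfl
  have e6 := inner_bHn' (h.zhat_pc hs) (PP_tf hχ)
  rw [e5, ← h.main_ii hχ h1 h2 ψ, LaX_gp, PkX_gp, PkX_gp, ← e6]
  unfold tf
  rw [inner_tX (h.zhat_pc hs) n hT.continuous, inner_tX (h.khat_pc h.kz1.smooth hs) n hχ1.continuous,
    inner_tX (h.khat_pc h.kz2.smooth hs) n hχs.continuous]
  have q1 := (h.zhat_pc hs).conj.mul (tX_pc n hT)
  have q2 := (h.khat_pc h.kz1.smooth hs).conj.mul (tX_pc n hχ1)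
  have q3 := (h.khat_pc h.kz2.smooth hs).conj.mul (tX_pc n hχs)
  have key : ∫ p in cell, (starRingEnd ℂ) (hat F c ψ p) * lpc (tX n (fun z => ζ z * χ z)) p =
      (∫ p in cell, (starRingEnd ℂ) (zhat F c ζ ψ p) * tX n (tfk n χ) p) -
      2 * (∫ p in cell, (starRingEnd ℂ) (khat F c (deriv ζ) ψ p) * tX n (deriv χ) p) -
      ∫ p in cell, (starRingEnd ℂ) (khat F c (deriv (deriv ζ)) ψ p) * tX n χ p := by
    refine ng3b_sum3 q1 q2 q3 fun p => ?_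
    have k1 := ng3b_key h.ζs hχs n p
    unfold zhat khat
    simp only [map_mul, h.ζr, r1, r2]
    linear_combination -(starRingEnd ℂ) (hat F c ψ p) * k1
  rw [key]
  ring

end Pool.Agent.Lib.MP_79abb3_an.PD
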