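import Pool.Agent.Lib.MP_79abb3_an.PD.NG3b
import Pool.Agent.Lib.MP_79abb3_an.PD.NF2b

/-!
Theorem D (MP_79abb3_an), block N: collars: the localized weak Stokes equation.
-/

set_option autoImplicit false
set_option linter.unusedSectionVars false

open MeasureTheory Set Filter Topology Function
open scoped ENNReal InnerProductSpace

namespace Pool.Agent.Lib.MP_79abb3_an.PD

open Pool.Agent.Lib.MP_79abb3_an.P25 Pool.Agent.Lib.MP_79abb3_an.SC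

variable {D : Set ℂ} {ρ : ℝ} {F : ℂ → ℂ} {c : ℝ} {ζ : ℝ → ℂ} {a : ℝ × ℝ → ℝ}

/-- The right side of the localized equation: `h(A, v) = 2(1 - DT)(W_{ζ'} v - P_{ζ'} A) + TT (W_{ζ''} v - P_{ζ''} A)`. -/
noncomputable def hX (h : Cld D ρ F c ζ a) (A : XD D) (v : VD D) : HH Real.pi :=
  (2:ℂ) • ((WkV h h.kz1 v - PkX h h.kz1 A) - DT om1 (WkV h h.kz1 v - PkX h h.kz1 A)) +
    TT om1 (WkV h h.kz2 v - PkX h h.kz2 A)

theorem hX_le (h : Cld D ρ F c ζ a) : ∃ C, 0 ≤ C ∧ ∀ (A : XD D) (v : VD D),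
    ‖hX h A v‖ ≤ C * (‖ctY (Rr F c) (A : Y2)‖ + ‖ct (Rr F c) (v : L2c)‖) := by
  obtain ⟨C1, hC1, h1⟩ := PkX_le h h.kz1
  obtain ⟨C2, hC2, h2⟩ := PkX_le h h.kz2
  obtain ⟨C3, hC3, h3⟩ := WkV_le h h.kz1
  obtain ⟨C4, hC4, h4⟩ := WkV_le h h.kz2
  have hpi : 0 ≤ Real.pi := Real.pi_pos.le
  refine ⟨2 * ((C3 + C1) + (C3 + C1)) + Real.pi * (C4 + C2), by positivity, fun A v => ?_⟩
  set α := ‖ctY (Rr F c) (A : Y2)‖ with hα
  set β := ‖ct (Rr F c) (v : L2c)‖ with hβ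
  have hα0 : 0 ≤ α := norm_nonneg _
  have hβ0 : 0 ≤ β := norm_nonneg _
  have b1 : ‖WkV h h.kz1 v - PkX h h.kz1 A‖ ≤ (C3 + C1) * (α + β) := by
    refine (norm_sub_le _ _).trans ?_
    have := h1 A
    have := h3 v
    nlinarith [mul_nonneg hC1 hβ0, mul_nonneg hC3 hα0]
  have b2 : ‖WkV h h.kz2 v - PkX h h.kz2 A‖ ≤ (C4 + C2) * (α + β) := by
    refine (norm_sub_le _ _).trans ?_
    have := h2 A
    have := h4 v
    nlinarith [mul_nonneg hC2 hβ0, mul_nonneg hC4 hα0]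
  set B1 := WkV h h.kz1 v - PkX h h.kz1 A with hB1
  set B2 := WkV h h.kz2 v - PkX h h.kz2 A with hB2
  have b3 : ‖DT om1 B1‖ ≤ ‖B1‖ := by
    have := ContinuousLinearMap.le_of_opNorm_le _ (norm_DT_le (H := Real.pi) om1) B1
    rwa [one_mul] at this
  have b4 : ‖TT om1 B2‖ ≤ Real.pi * ‖B2‖ :=
    ContinuousLinearMap.le_of_opNorm_le _ (norm_TT_le (H := Real.pi) om1) B2
  have e1 : hX h A v = (2:ℂ) • (B1 - DT om1 B1) + TT om1 B2 := rfl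
  have b5 : ‖(2:ℂ) • (B1 - DT om1 B1)‖ ≤ 2 * (‖B1‖ + ‖DT om1 B1‖) := by
    rw [norm_smul]
    refine mul_le_mul (le_of_eq (by norm_num)) (norm_sub_le _ _) (norm_nonneg _) (by norm_num)
  rw [e1]
  refine (norm_add_le _ _).trans ?_
  have b6 : Real.pi * ‖B2‖ ≤ Real.pi * ((C4 + C2) * (α + β)) := mul_le_mul_of_nonneg_left b2 hpi
  calc ‖(2:ℂ) • (B1 - DT om1 B1)‖ + ‖TT om1 B2‖ ≤ 2 * (‖B1‖ + ‖B1‖) + Real.pi * ‖B2‖ := by linarith
    _ ≤ 2 * ((C3 + C1) * (α + β) + (C3 + C1) * (α + β)) + Real.pi * ((C4 + C2) * (α + β)) := by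
        linarith
    _ = (2 * ((C3 + C1) + (C3 + C1)) + Real.pi * (C4 + C2)) * (α + β) := by ring

theorem rhoX_le (h : Cld D ρ F c ζ a) : ∃ C, 0 ≤ C ∧ ∀ u : XD D,
    ‖rhoX h u‖ ≤ C * ‖ctY (Rr F c) (u : Y2)‖ := by
  obtain ⟨C1, hC1, h1⟩ := DkX_le h h.kz21
  obtain ⟨C2, hC2, h2⟩ := PkX_le h h.kz2
  refine ⟨C1 + C2, by positivity, fun u => ?_⟩
  refine (norm_add_le (DkX h h.kz21 u) (PkX h h.kz2 u)).trans ?_
  rw [add_mul]
  exact add_le_add (h1 u) (h2 u)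

private theorem ng3c_fam (k : ℝ) : ‖((|k| : ℝ) : ℂ) • (E2 k : Z2 Real.pi →L[ℂ] Z2 Real.pi)‖ ≤ 1 := by
  refine ContinuousLinearMap.opNorm_le_bound _ zero_le_one fun f => ?_
  rw [one_mul, smul_apply, norm_smul, Complex.norm_real, Real.norm_eq_abs, abs_abs]
  exact norm_kE2_le k f

/-- `⟪x, DEc y⟫ = ⟪DT x, y⟫` (`dg` and `inner_T2`; or `Dk_TT`-type lemmas). -/
theorem inner_DEc (x y : HH Real.pi) : ⟪x, DEc om1 y⟫_ℂ = ⟪DT om1 x, y⟫_ℂ := by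
  refine (inner_dg (fun n : ℤ => norm_kT2_fam (om1 * n)) (fun n : ℤ => ng3c_fam (om1 * n))
    (fun n f g => ?_) x y).symm
  show ⟪((|om1 * n| : ℝ) : ℂ) • T2 (om1 * n) f, g⟫_ℂ = ⟪f, ((|om1 * n| : ℝ) : ℂ) • E2 (om1 * n) g⟫_ℂ
  rw [inner_smul_left, inner_smul_right, Complex.conj_ofReal, inner_T2]

/-- **(E2)** The localized weak Stokes equation. For `f = tf n χ`: (i) extends to all `v`, (ii) to all `A` by density (both sides are
continuous and conjugate linear); `⟪v, cuV φ⟫ = ⟪A, iot (cuV φ)⟫ = ⟪A, gpX φ⟫`; `sgl n χ' = TT f - DEc (TT f)`, `sgl n χ = EE (TT f)` (`DE_tf`, `EE_tf`);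
`inner_TT'`, `inner_DEc`. Then `tf_ext` for the difference of both sides. -/
theorem Cld.weak (h : Cld D ρ F c ζ a) {A : XD D} {v : VD D} (hv : v = ContinuousLinearMap.adjoint (iot D) A)
    {f : HH Real.pi} (hf : PP om1 f = f) :
    ⟪SC.cm (fam a) (GaV h v), f⟫_ℂ =
      ⟪LaX h A + hX h A v, TT om1 f⟫_ℂ - ⟪SC.cm (fam a) (rhoX h (iot D v)), f⟫_ℂ := by
  let L : HH Real.pi →L[ℂ] ℂ := innerSL ℂ (SC.cm (fam a) (GaV h v)) -
    (innerSL ℂ (LaX h A + hX h A v)).comp (TT om1) + innerSL ℂ (SC.cm (fam a) (rhoX h (iot D v)))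
  have hL : ∀ g, L g = ⟪SC.cm (fam a) (GaV h v), g⟫_ℂ - ⟪LaX h A + hX h A v, TT om1 g⟫_ℂ +
      ⟪SC.cm (fam a) (rhoX h (iot D v)), g⟫_ℂ := fun g => rfl
  have key : ∀ n χ, Tst n χ → L (tf n χ) = 0 := by
    intro n χ hχ
    obtain ⟨φ, h1, h2⟩ := h.push hχ
    -- the first identity for all `v`
    have hi : ∀ w : VD D, ⟪SC.cm (fam a) (GaV h w), tf n χ⟫_ℂ =
        ((2 * Real.pi : ℝ) : ℂ)⁻¹ * ⟪w, cuV D φ⟫_ℂ + 2 * ⟪WkV h h.kz1 w, sgl n (deriv χ)⟫_ℂ +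
          ⟪WkV h h.kz2 w, sgl n χ⟫_ℂ - ⟪SC.cm (fam a) (rhoX h (iot D w)), tf n χ⟫_ℂ := by
      intro w
      refine (cuV_dense D).induction_on (p := fun w : VD D => ⟪SC.cm (fam a) (GaV h w), tf n χ⟫_ℂ =
        ((2 * Real.pi : ℝ) : ℂ)⁻¹ * ⟪w, cuV D φ⟫_ℂ + 2 * ⟪WkV h h.kz1 w, sgl n (deriv χ)⟫_ℂ +
          ⟪WkV h h.kz2 w, sgl n χ⟫_ℂ - ⟪SC.cm (fam a) (rhoX h (iot D w)), tf n χ⟫_ℂ) w ?_ fun ψ => ?_
      · refine isClosed_eq ?_ ?_
        · exact ((SC.cm (fam a)).continuous.comp (GaV h).continuous).inner continuous_const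
        · have c1 : Continuous fun w : VD D => ⟪w, cuV D φ⟫_ℂ :=
            Continuous.inner (𝕜 := ℂ) (E := VD D) (f := fun w : VD D => w) (g := fun _ => cuV D φ)
              continuous_id continuous_const
          have c2 : Continuous fun w : VD D => ⟪WkV h h.kz1 w, sgl n (deriv χ)⟫_ℂ :=
            (WkV h h.kz1).continuous.inner continuous_const
          have c3 : Continuous fun w : VD D => ⟪WkV h h.kz2 w, sgl n χ⟫_ℂ :=
            (WkV h h.kz2).continuous.inner continuous_const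
          have c4 : Continuous fun w : VD D => ⟪SC.cm (fam a) (rhoX h (iot D w)), tf n χ⟫_ℂ :=
            ((SC.cm (fam a)).continuous.comp ((rhoX h).continuous.comp (iot D).continuous)).inner
              continuous_const
          exact (((continuous_const.mul c1).add (continuous_const.mul c2)).add c3).sub c4
      · rw [iot_cuV h.bdd ψ]
        exact h.id_i hχ h1 h2 ψ
    have hii : ∀ B : XD D, ((2 * Real.pi : ℝ) : ℂ)⁻¹ * ⟪B, gpX D φ⟫_ℂ =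
        ⟪LaX h B, TT om1 (tf n χ)⟫_ℂ - 2 * ⟪PkX h h.kz1 B, sgl n (deriv χ)⟫_ℂ -
          ⟪PkX h h.kz2 B, sgl n χ⟫_ℂ := by
      intro B
      refine (gpX_dense D).induction_on (p := fun B : XD D => ((2 * Real.pi : ℝ) : ℂ)⁻¹ *
        ⟪B, gpX D φ⟫_ℂ = ⟪LaX h B, TT om1 (tf n χ)⟫_ℂ - 2 * ⟪PkX h h.kz1 B, sgl n (deriv χ)⟫_ℂ -
          ⟪PkX h h.kz2 B, sgl n χ⟫_ℂ) B ?_ fun ψ => h.id_ii hχ h1 h2 ψ
      have c1 : Continuous fun B : XD D => ⟪B, gpX D φ⟫_ℂ :=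
        Continuous.inner (𝕜 := ℂ) (E := XD D) (f := fun w : XD D => w) (g := fun _ => gpX D φ)
          continuous_id continuous_const
      have c2 : Continuous fun B : XD D => ⟪LaX h B, TT om1 (tf n χ)⟫_ℂ :=
        (LaX h).continuous.inner continuous_const
      have c3 : Continuous fun B : XD D => ⟪PkX h h.kz1 B, sgl n (deriv χ)⟫_ℂ :=
        (PkX h h.kz1).continuous.inner continuous_const
      have c4 : Continuous fun B : XD D => ⟪PkX h h.kz2 B, sgl n χ⟫_ℂ :=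
        (PkX h h.kz2).continuous.inner continuous_const
      exact isClosed_eq (continuous_const.mul c1) ((c2.sub (continuous_const.mul c3)).sub c4)
    have e1 : ⟪v, cuV D φ⟫_ℂ = ⟪A, gpX D φ⟫_ℂ := by
      rw [hv, ContinuousLinearMap.adjoint_inner_left, iot_cuV h.bdd]
    obtain ⟨B1, hB1⟩ : ∃ B1, B1 = WkV h h.kz1 v - PkX h h.kz1 A := ⟨_, rfl⟩
    obtain ⟨B2, hB2⟩ : ∃ B2, B2 = WkV h h.kz2 v - PkX h h.kz2 A := ⟨_, rfl⟩
    have e2 : hX h A v = (2:ℂ) • (B1 - DT om1 B1) + TT om1 B2 := by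
      rw [hB1, hB2]; rfl
    have e3 : ⟪hX h A v, TT om1 (tf n χ)⟫_ℂ =
        2 * ⟪B1, sgl n (deriv χ)⟫_ℂ + ⟪B2, sgl n χ⟫_ℂ := by
      have e4 : (starRingEnd ℂ) (2 : ℂ) = 2 := Complex.conj_ofNat 2
      rw [e2, inner_add_left, inner_smul_left, e4, inner_sub_left, inner_TT, EE_tf hχ,
        ← inner_DEc, ← inner_sub_right, DE_tf hχ]
    have e5 : ⟪B1, sgl n (deriv χ)⟫_ℂ = ⟪WkV h h.kz1 v, sgl n (deriv χ)⟫_ℂ -
        ⟪PkX h h.kz1 A, sgl n (deriv χ)⟫_ℂ := by rw [hB1, inner_sub_left]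
    have e6 : ⟪B2, sgl n χ⟫_ℂ = ⟪WkV h h.kz2 v, sgl n χ⟫_ℂ - ⟪PkX h h.kz2 A, sgl n χ⟫_ℂ := by
      rw [hB2, inner_sub_left]
    rw [hL, hi v, inner_add_left, e3, e5, e6, e1, hii A]
    ring
  have h3 := tf_ext L key hf
  rw [hL] at h3
  linear_combination h3

end Pool.Agent.Lib.MP_79abb3_an.PD
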