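import Pool.Agent.Lib.MP_79abb3_an.SC.NcO

/-!
Theorem D (MP_79abb3_an), block N: an inhomogeneous equation for `B* a B` with a weak right side, and observability.
-/

set_option autoImplicit false
set_option linter.unusedSectionVars false

open MeasureTheory Set Filter Topology Function
open scoped ENNReal InnerProductSpace

namespace Pool.Agent.Lib.MP_79abb3_an.PD

open Pool.Agent.Lib.MP_79abb3_an.P25 Pool.Agent.Lib.MP_79abb3_an.SC

section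
variable {H : ℝ} [hH : Fact (0 < H)]

/-- The data: `V = TT g`, `V' + A V = h + (weak term p)` on `[t1, t2]`. -/
structure Inh (G : Geo H) (t1 t2 : ℝ) (V V' g h p : ℝ → HH H) : Prop where
  lt : t1 < t2
  hd : ∀ t ∈ Icc t1 t2, HasDerivAt V (V' t) t
  ch : ContinuousOn h (Icc t1 t2)
  cp : ContinuousOn p (Icc t1 t2)
  VT : ∀ t ∈ Icc t1 t2, V t = TT G.ω (g t)
  Pg : ∀ t ∈ Icc t1 t2, PP G.ω (g t) = g t
  eq : ∀ t ∈ Icc t1 t2, ∀ f : HH H, PP G.ω f = f →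
    ⟪SC.cm G.a (g t), f⟫_ℂ = ⟪-V' t + h t, TT G.ω f⟫_ℂ - ⟪p t, f⟫_ℂ

variable {G : Geo H} {t1 t2 : ℝ} {V V' g h p : ℝ → HH H}

/-- Tested with `f = G x` (`OD.P_G`, `OD.inner_aG`, `G.D.K x = TT (G.D.G x)` by `rfl`): `⟪cm a g, G x⟫ = ⟪g, cm a (G x)⟫ =
conj ⟪a G x, g⟫ = conj ⟪x, T g⟫ = ⟪V, x⟫`. -/
theorem Inh.test (i : Inh G t1 t2 V V' g h p) {t : ℝ} (ht : t ∈ Icc t1 t2) (x : HH H) :
    ⟪V t, x⟫_ℂ = ⟪-V' t + h t, G.D.K x⟫_ℂ - ⟪p t, G.D.G x⟫_ℂ := by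
  have h1 := i.eq t ht (G.D.G x) (G.D.P_G x)
  have h2 : ⟪V t, x⟫_ℂ = ⟪SC.cm G.a (g t), G.D.G x⟫_ℂ := by
    have h3 : ⟪SC.cm G.a (G.D.G x), g t⟫_ℂ = ⟪x, TT G.ω (g t)⟫_ℂ := G.D.inner_aG x (g t) (i.Pg t ht)
    have h4 : ⟪SC.cm G.a (g t), G.D.G x⟫_ℂ = ⟪g t, SC.cm G.a (G.D.G x)⟫_ℂ := G.D.adja _ _
    rw [h4, ← inner_conj_symm (g t), h3, ← i.VT t ht, inner_conj_symm]
  rw [h2, h1]
  rfl

/-- The bounded operator `Q†`, `Q = G.D.Q (Kh G.D.K)`: `G.D.G (AS K t x) = Q (Kh (AS K t x)) = Q (HS K t x)`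
(`OD.IsKh.Q_Kh` for `OD.isKh`, `Kh_AS`), so `⟪p, G (AS K t x)⟫ = ⟪HS K t (Q† p), x⟫` (`HS_inner`). -/
theorem exists_Qd (G : Geo H) : ∃ Qd : HH H →L[ℂ] HH H, ∀ (p x : HH H) (t : ℝ), 0 < t →
    ⟪p, G.D.G (AS G.D.K t x)⟫_ℂ = ⟪HS G.D.K t (Qd p), x⟫_ℂ := by
  refine ⟨ContinuousLinearMap.adjoint (G.D.Q (SC.Kh G.D.K)), fun p x t ht => ?_⟩
  have e3 : SC.Kh G.D.K (AS G.D.K t x) = HS G.D.K t x := by
    rw [← Kh_AS G.D.K_nonneg ht]; rfl
  rw [← G.D.isKh.Q_Kh, e3, HS_inner, ContinuousLinearMap.adjoint_inner_left]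

/-- The derivative of `s ↦ ⟪V s, S(t-s) x⟫`, `t1 ≤ s < t ≤ t2`: `⟪V', S(t-s)x⟫ + ⟪V, AS(t-s)x⟫ = ⟪h, S(t-s)x⟫ - ⟪p, G (AS(t-s)x)⟫`
(`Inh.test` for `AS K (t-s) x`, `K AS = S` (`K_AS`), `Sg_hasDerivAt_apply`). -/
theorem Inh.deriv (i : Inh G t1 t2 V V' g h p) {t : ℝ} (ht : t ∈ Icc t1 t2) (x : HH H) {s : ℝ}
    (hs : s ∈ Ico t1 t) :
    HasDerivAt (fun s => ⟪V s, Sg G.D.K (t - s) x⟫_ℂ)
      (⟪h s, Sg G.D.K (t - s) x⟫_ℂ - ⟪p s, G.D.G (AS G.D.K (t - s) x)⟫_ℂ) s := by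
  have hs' : s ∈ Icc t1 t2 := ⟨hs.1, hs.2.le.trans ht.2⟩
  have hts : 0 < t - s := sub_pos.2 hs.2
  have h1 : HasDerivAt (fun s => Sg G.D.K (t - s) x) (AS G.D.K (t - s) x) s := by
    have h2 := Sg_hasDerivAt_apply G.D.K_nonneg hts x
    have h3 : HasDerivAt (fun s : ℝ => t - s) (-1) s := by
      simpa using (hasDerivAt_id s).const_sub t
    have h4 := h2.scomp s h3
    rw [neg_smul, one_smul, neg_neg] at h4
    exact h4
  have h2 := (i.hd s hs').inner ℂ h1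
  have e : ⟪V s, AS G.D.K (t - s) x⟫_ℂ + ⟪V' s, Sg G.D.K (t - s) x⟫_ℂ =
      ⟪h s, Sg G.D.K (t - s) x⟫_ℂ - ⟪p s, G.D.G (AS G.D.K (t - s) x)⟫_ℂ := by
    have e3 : G.D.K (AS G.D.K (t - s) x) = Sg G.D.K (t - s) x := by
      rw [← K_AS G.D.K_nonneg hts]; rfl
    rw [i.test hs', e3, inner_add_left, inner_neg_left]
    ring
  rw [← e]
  exact h2

/-- continuity of the Duhamel integrand -/
private theorem nm_Sg_cont {X : Type} [NormedAddCommGroup X] [InnerProductSpace ℂ X] [CompleteSpace X]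
    {K : X →L[ℂ] X} (hK : 0 ≤ K) (hi : ∀ x, K x = 0 → x = 0) {t a b : ℝ} {h : ℝ → X}
    (hh : ContinuousOn h (Icc a b)) : ContinuousOn (fun s => Sg K (t - s) (h s)) (Icc a b) := by
  intro s hs
  have h1 : Tendsto (fun r => Sg K (t - r) (h s)) (𝓝[Icc a b] s) (𝓝 (Sg K (t - s) (h s))) := by
    have h2 : Continuous fun r => Sg K (t - r) (h s) :=
      (Sg_continuousOn_apply hK hi (h s)).comp (continuous_const.sub continuous_id)
    exact (h2.tendsto s).mono_left nhdsWithin_le_nhds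
  have h3 : Tendsto (fun r => Sg K (t - r) (h r - h s)) (𝓝[Icc a b] s) (𝓝 0) := by
    have h4 : Tendsto (fun r => ‖h r - h s‖) (𝓝[Icc a b] s) (𝓝 0) := by
      have h5 := (hh s hs).tendsto.sub_const (h s)
      rw [sub_self] at h5
      simpa using h5.norm
    exact squeeze_zero_norm (fun r => Sg_norm_apply hK _ _) h4
  have h6 := h3.add h1
  rw [zero_add] at h6
  refine Tendsto.congr (fun r => ?_) h6
  rw [map_sub]
  abel

/-- integrability of the second Duhamel integrand -/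
private theorem nm_HS_int {X : Type} [NormedAddCommGroup X] [InnerProductSpace ℂ X] [CompleteSpace X]
    {K : X →L[ℂ] X} (hK : 0 ≤ K) {t a : ℝ} (hat : a ≤ t) {f : ℝ → X}
    (hf : ContinuousOn f (Icc a t)) : IntervalIntegrable (fun s => HS K (t - s) (f s)) volume a t := by
  have h1 : ContinuousOn (fun r => f (r + a)) (Icc 0 (t - a)) :=
    hf.comp (by fun_prop) fun r hr => ⟨by linarith [hr.1], by linarith [hr.2]⟩
  have h2 := (HS_conv_integrable hK (sub_nonneg.2 hat) h1).comp_sub_right a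
  rw [zero_add, sub_add_cancel] at h2
  have e : (fun s => HS K (t - a - (s - a)) (f (s - a + a))) = fun s => HS K (t - s) (f s) := by
    funext s
    rw [sub_add_cancel, sub_sub_sub_cancel_right]
  rw [← e]
  exact h2

/-- **Mild formula.** Integrate `Inh.deriv` from `t1` to `s < t` and let `s → t` (`V` and `S(·)x` are continuous:
`Sg_continuousOn_apply`; the integral of `HS K (t-s) (Qd (p s))` converges, `HS_conv_integrable`); then
`ext_inner_right`. The intervals `[0, t - t1]` of `HS_conv_integrable` are shifted by `t1`. -/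
theorem Inh.mild (i : Inh G t1 t2 V V' g h p) {Qd : HH H →L[ℂ] HH H}
    (hQ : ∀ (p x : HH H) (t : ℝ), 0 < t → ⟪p, G.D.G (AS G.D.K t x)⟫_ℂ = ⟪HS G.D.K t (Qd p), x⟫_ℂ)
    {t : ℝ} (ht : t ∈ Icc t1 t2) :
    V t = Sg G.D.K (t - t1) (V t1) + (∫ s in t1..t, Sg G.D.K (t - s) (h s)) -
      ∫ s in t1..t, HS G.D.K (t - s) (Qd (p s)) := by
  have hK := G.D.K_nonneg
  have hi := G.D.K_injective
  have hsub : Icc t1 t ⊆ Icc t1 t2 := Icc_subset_Icc le_rfl ht.2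
  have hcA : ContinuousOn (fun s => Sg G.D.K (t - s) (h s)) (Icc t1 t) := nm_Sg_cont hK hi (i.ch.mono hsub)
  have hIA : IntervalIntegrable (fun s => Sg G.D.K (t - s) (h s)) volume t1 t := by
    refine ContinuousOn.intervalIntegrable ?_
    rwa [uIcc_of_le ht.1]
  have hIB : IntervalIntegrable (fun s => HS G.D.K (t - s) (Qd (p s))) volume t1 t :=
    nm_HS_int hK ht.1 (Qd.continuous.comp_continuousOn (i.cp.mono hsub))
  have hcV : ContinuousOn V (Icc t1 t) := fun s hs =>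
    (i.hd s (hsub hs)).continuousAt.continuousWithinAt
  refine ext_inner_left ℂ fun x => ?_
  -- the function and its derivative
  have hd : ∀ s ∈ Ioo t1 t, HasDerivAt (fun s => ⟪Sg G.D.K (t - s) x, V s⟫_ℂ)
      (⟪x, Sg G.D.K (t - s) (h s)⟫_ℂ - ⟪x, HS G.D.K (t - s) (Qd (p s))⟫_ℂ) s := by
    intro s hs
    have h1 := (i.deriv ht x ⟨hs.1.le, hs.2⟩).star
    have e1 : (fun s => star ⟪V s, Sg G.D.K (t - s) x⟫_ℂ) = fun s => ⟪Sg G.D.K (t - s) x, V s⟫_ℂ := by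
      funext s
      exact inner_conj_symm _ _
    have e2 : star (⟪h s, Sg G.D.K (t - s) x⟫_ℂ - ⟪p s, G.D.G (AS G.D.K (t - s) x)⟫_ℂ) =
        ⟪x, Sg G.D.K (t - s) (h s)⟫_ℂ - ⟪x, HS G.D.K (t - s) (Qd (p s))⟫_ℂ := by
      rw [star_sub, hQ (p s) x (t - s) (sub_pos.2 hs.2), ← Sg_inner]
      have e3 : star ⟪Sg G.D.K (t - s) (h s), x⟫_ℂ = ⟪x, Sg G.D.K (t - s) (h s)⟫_ℂ := inner_conj_symm _ _
      have e4 : star ⟪HS G.D.K (t - s) (Qd (p s)), x⟫_ℂ = ⟪x, HS G.D.K (t - s) (Qd (p s))⟫_ℂ :=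
        inner_conj_symm _ _
      rw [e3, e4]
    rw [e2] at h1
    rw [← e1]
    exact h1
  have hc : ContinuousOn (fun s => ⟪Sg G.D.K (t - s) x, V s⟫_ℂ) (Icc t1 t) :=
    (nm_Sg_cont hK hi continuousOn_const).inner (𝕜 := ℂ) hcV
  have hIA' : IntervalIntegrable (fun s => ⟪x, Sg G.D.K (t - s) (h s)⟫_ℂ) volume t1 t :=
    intervalIntegrable_iff.2 ((innerSL ℂ x).integrable_comp (intervalIntegrable_iff.1 hIA))
  have hIB' : IntervalIntegrable (fun s => ⟪x, HS G.D.K (t - s) (Qd (p s))⟫_ℂ) volume t1 t :=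
    intervalIntegrable_iff.2 ((innerSL ℂ x).integrable_comp (intervalIntegrable_iff.1 hIB))
  have key := intervalIntegral.integral_eq_sub_of_hasDerivAt_of_le ht.1 hc hd (hIA'.sub hIB')
  rw [intervalIntegral.integral_sub hIA' hIB'] at key
  have eA : ∫ s in t1..t, ⟪x, Sg G.D.K (t - s) (h s)⟫_ℂ = ⟪x, ∫ s in t1..t, Sg G.D.K (t - s) (h s)⟫_ℂ :=
    (innerSL ℂ x).intervalIntegral_comp_comm hIA
  have eB : ∫ s in t1..t, ⟪x, HS G.D.K (t - s) (Qd (p s))⟫_ℂ =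
      ⟪x, ∫ s in t1..t, HS G.D.K (t - s) (Qd (p s))⟫_ℂ :=
    (innerSL ℂ x).intervalIntegral_comp_comm hIB
  rw [eA, eB, sub_self, Sg_zero, Sg_inner] at key
  rw [inner_sub_right, inner_add_right]
  have e5 : (1 : HH H →L[ℂ] HH H) x = x := rfl
  rw [e5] at key
  linear_combination -key

/-- The inhomogeneous part is small: `|∫ S h|² ≤ (t - t1) ∫ |h|²` (Cauchy-Schwarz), `|∫ HS Qd p|² ≤ ½ ∫ |Qd p|²` (`HS_conv_sq_le`,
shifted by `t1`). -/
theorem Inh.small (i : Inh G t1 t2 V V' g h p) {Qd : HH H →L[ℂ] HH H}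
    (hQ : ∀ (p x : HH H) (t : ℝ), 0 < t → ⟪p, G.D.G (AS G.D.K t x)⟫_ℂ = ⟪HS G.D.K t (Qd p), x⟫_ℂ)
    (h1 : t2 - t1 ≤ 1) {t : ℝ} (ht : t ∈ Icc t1 t2) :
    ‖V t - Sg G.D.K (t - t1) (V t1)‖ ^ 2 ≤
      (2 + ‖Qd‖ ^ 2) * ∫ s in t1..t2, (‖h s‖ ^ 2 + ‖p s‖ ^ 2) := by
  have hK := G.D.K_nonneg
  have hi := G.D.K_injective
  have hsub : Icc t1 t ⊆ Icc t1 t2 := Icc_subset_Icc le_rfl ht.2
  have hch := i.ch.mono hsub
  have hcp := i.cp.mono hsub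
  -- the first integral
  have hIh : IntervalIntegrable (fun s => ‖h s‖) volume t1 t := by
    refine ContinuousOn.intervalIntegrable ?_
    rw [uIcc_of_le ht.1]; exact hch.norm
  have hIh2 : IntervalIntegrable (fun s => ‖h s‖ ^ 2) volume t1 t := by
    refine ContinuousOn.intervalIntegrable ?_
    rw [uIcc_of_le ht.1]; exact hch.norm.pow 2
  have hIp2 : IntervalIntegrable (fun s => ‖p s‖ ^ 2) volume t1 t := by
    refine ContinuousOn.intervalIntegrable ?_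
    rw [uIcc_of_le ht.1]; exact hcp.norm.pow 2
  obtain ⟨I, hI⟩ : ∃ I, I = ∫ s in t1..t, ‖h s‖ := ⟨_, rfl⟩
  have hI0 : 0 ≤ I := by rw [hI]; exact intervalIntegral.integral_nonneg ht.1 fun s _ => norm_nonneg _
  have hI2 : I ^ 2 ≤ ∫ s in t1..t, ‖h s‖ ^ 2 := by
    have h1 : 0 ≤ ∫ s in t1..t, (‖h s‖ ^ 2 - (2 * I) * ‖h s‖ + I ^ 2) :=
      intervalIntegral.integral_nonneg ht.1 fun s _ => by nlinarith [sq_nonneg (‖h s‖ - I)]
    rw [intervalIntegral.integral_add (hIh2.sub (hIh.const_mul _)) intervalIntegrable_const,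
      intervalIntegral.integral_sub hIh2 (hIh.const_mul _), intervalIntegral.integral_const_mul,
      intervalIntegral.integral_const, ← hI, smul_eq_mul] at h1
    have h2 : t - t1 ≤ 1 := by linarith [ht.2]
    nlinarith [mul_le_mul_of_nonneg_right h2 (sq_nonneg I)]
  have hA : ‖∫ s in t1..t, Sg G.D.K (t - s) (h s)‖ ≤ I := by
    rw [hI]
    have hcA : ContinuousOn (fun s => Sg G.D.K (t - s) (h s)) (Icc t1 t) := nm_Sg_cont hK hi hch
    refine (intervalIntegral.norm_integral_le_integral_norm ht.1).trans ?_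
    refine intervalIntegral.integral_mono_on ht.1 ?_ hIh fun s _ => Sg_norm_apply hK _ _
    refine ContinuousOn.intervalIntegrable ?_
    rw [uIcc_of_le ht.1]; exact hcA.norm
  -- the second integral
  have hB : ‖∫ s in t1..t, HS G.D.K (t - s) (Qd (p s))‖ ^ 2 ≤
      1 / 2 * (‖Qd‖ ^ 2 * ∫ s in t1..t, ‖p s‖ ^ 2) := by
    have h1 : ContinuousOn (fun r => Qd (p (r + t1))) (Icc 0 (t - t1)) :=
      Qd.continuous.comp_continuousOn
        (hcp.comp (by fun_prop) fun r hr => ⟨by linarith [hr.1], by linarith [hr.2]⟩)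
    have h2 := HS_conv_sq_le hK hi (sub_nonneg.2 ht.1) h1
    have e1 : ∫ r in (0:ℝ)..(t - t1), HS G.D.K (t - t1 - r) (Qd (p (r + t1))) =
        ∫ s in t1..t, HS G.D.K (t - s) (Qd (p s)) := by
      have h3 := intervalIntegral.integral_comp_add_right (a := 0) (b := t - t1)
        (fun s => HS G.D.K (t - s) (Qd (p s))) t1
      rw [zero_add, sub_add_cancel] at h3
      rw [← h3]
      refine intervalIntegral.integral_congr fun r _ => ?_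
      show HS G.D.K (t - t1 - r) (Qd (p (r + t1))) = HS G.D.K (t - (r + t1)) (Qd (p (r + t1)))
      rw [show t - t1 - r = t - (r + t1) by ring]
    have e2 : ∫ r in (0:ℝ)..(t - t1), ‖Qd (p (r + t1))‖ ^ 2 = ∫ s in t1..t, ‖Qd (p s)‖ ^ 2 := by
      have h3 := intervalIntegral.integral_comp_add_right (a := 0) (b := t - t1)
        (fun s => ‖Qd (p s)‖ ^ 2) t1
      rw [zero_add, sub_add_cancel] at h3
      exact h3
    have h2' : ‖∫ s in t1..t, HS G.D.K (t - s) (Qd (p s))‖ ^ 2 ≤ 1 / 2 * ∫ s in t1..t, ‖Qd (p s)‖ ^ 2 := by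
      rw [← e1, ← e2]
      exact h2
    refine h2'.trans (mul_le_mul_of_nonneg_left ?_ (by norm_num))
    rw [← intervalIntegral.integral_const_mul]
    refine intervalIntegral.integral_mono_on ht.1 ?_ (hIp2.const_mul _) fun s _ => ?_
    · refine ContinuousOn.intervalIntegrable ?_
      rw [uIcc_of_le ht.1]
      exact (Qd.continuous.comp_continuousOn hcp).norm.pow 2
    · rw [← mul_pow]
      exact pow_le_pow_left₀ (norm_nonneg _) (Qd.le_opNorm _) 2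
  -- monotonicity in `t`
  have hmono : ∫ s in t1..t, (‖h s‖ ^ 2 + ‖p s‖ ^ 2) ≤ ∫ s in t1..t2, (‖h s‖ ^ 2 + ‖p s‖ ^ 2) := by
    refine intervalIntegral.integral_mono_interval le_rfl ht.1 ht.2 ?_ ?_
    · exact Filter.Eventually.of_forall fun s => by positivity
    · refine ContinuousOn.intervalIntegrable ?_
      rw [uIcc_of_le i.lt.le]
      exact (i.ch.norm.pow 2).add (i.cp.norm.pow 2)
  have hsum := intervalIntegral.integral_add hIh2 hIp2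
  have hp0 : 0 ≤ ∫ s in t1..t, ‖p s‖ ^ 2 := intervalIntegral.integral_nonneg ht.1 fun s _ => by positivity
  have hh0 : 0 ≤ ∫ s in t1..t, ‖h s‖ ^ 2 := intervalIntegral.integral_nonneg ht.1 fun s _ => by positivity
  have e : V t - Sg G.D.K (t - t1) (V t1) = (∫ s in t1..t, Sg G.D.K (t - s) (h s)) -
      ∫ s in t1..t, HS G.D.K (t - s) (Qd (p s)) := by
    rw [i.mild hQ ht]
    abel
  rw [e]
  have hn := norm_sub_le (∫ s in t1..t, Sg G.D.K (t - s) (h s)) (∫ s in t1..t, HS G.D.K (t - s) (Qd (p s)))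
  obtain ⟨A, hAe⟩ : ∃ A, A = ‖∫ s in t1..t, Sg G.D.K (t - s) (h s)‖ := ⟨_, rfl⟩
  obtain ⟨B, hBe⟩ : ∃ B, B = ‖∫ s in t1..t, HS G.D.K (t - s) (Qd (p s))‖ := ⟨_, rfl⟩
  rw [← hAe] at hA hn
  rw [← hBe] at hB hn
  have hA0 : 0 ≤ A := by rw [hAe]; exact norm_nonneg _
  have hB0 : 0 ≤ B := by rw [hBe]; exact norm_nonneg _
  have h5 : ‖(∫ s in t1..t, Sg G.D.K (t - s) (h s)) - ∫ s in t1..t, HS G.D.K (t - s) (Qd (p s))‖ ^ 2 ≤
      2 * A ^ 2 + 2 * B ^ 2 := by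
    have := pow_le_pow_left₀ (norm_nonneg _) hn 2
    nlinarith [sq_nonneg (A - B)]
  have h6 : A ^ 2 ≤ ∫ s in t1..t, ‖h s‖ ^ 2 := (pow_le_pow_left₀ hA0 hA 2).trans hI2
  refine h5.trans (le_trans ?_ (mul_le_mul_of_nonneg_left hmono (by positivity)))
  rw [hsum]
  nlinarith [mul_nonneg (sq_nonneg ‖Qd‖) hh0]

/-- **Observability with an inhomogeneous term** when `V` vanishes in the observation region. `Geo.obs` for `T = t2 - t1`,
`q = V t1`; `mb χc (Sg (t - t1) (V t1)) = -mb χc (V t - Sg (t - t1) (V t1))`, `‖mb χc x‖ ≤ ‖χc‖ ‖x‖`, `kapT ≤ 1` for `T ≤ 1`. -/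
theorem inh_obs (G : Geo H) {χc : CI H} {r : ℝ} (hr : r < H) (hχ : ∀ z ∈ Icc (0:ℝ) H, r ≤ z → ‖ex χc z‖ = 1) :
    ∃ C : ℝ, 0 ≤ C ∧ ∀ (t1 t2 : ℝ) (V V' g h p : ℝ → HH H), Inh G t1 t2 V V' g h p → t2 - t1 ≤ 1 →
      (∀ t ∈ Icc t1 t2, mb χc (V t) = 0) →
      ‖V t2‖ ^ 2 ≤ Real.exp (C / (t2 - t1) ^ 2) * ∫ s in t1..t2, (‖h s‖ ^ 2 + ‖p s‖ ^ 2) := by
  obtain ⟨C0, hC0, hobs⟩ := G.obs hr hχ
  obtain ⟨Qd, hQ⟩ := exists_Qd G
  obtain ⟨K0, hK0⟩ : ∃ K0, K0 = 2 + ‖Qd‖ ^ 2 := ⟨_, rfl⟩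
  have hK00 : 0 ≤ K0 := by rw [hK0]; positivity
  obtain ⟨K1, hK1⟩ : ∃ K1, K1 = 2 * K0 * (1 + ‖χc‖ ^ 2) := ⟨_, rfl⟩
  have hK10 : 0 ≤ K1 := by rw [hK1]; positivity
  refine ⟨C0 + K1, by positivity, ?_⟩
  intro t1 t2 V V' g h p i h1 hz
  obtain ⟨T, hT⟩ : ∃ T, T = t2 - t1 := ⟨_, rfl⟩
  obtain ⟨D, hD⟩ : ∃ D, D = ∫ s in t1..t2, (‖h s‖ ^ 2 + ‖p s‖ ^ 2) := ⟨_, rfl⟩
  have hT0 : 0 < T := by rw [hT]; exact sub_pos.2 i.lt
  have hT1 : T ≤ 1 := by rw [hT]; exact h1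
  have hD0 : 0 ≤ D := by
    rw [hD]
    exact intervalIntegral.integral_nonneg i.lt.le fun s _ => by positivity
  rw [← hT, ← hD]
  have hsm : ∀ t ∈ Icc t1 t2, ‖V t - Sg G.D.K (t - t1) (V t1)‖ ^ 2 ≤ K0 * D := by
    intro t ht
    rw [hK0, hD]
    exact i.small hQ h1 ht
  have hmb : ∀ t ∈ Icc t1 t2, ‖mb χc (Sg G.D.K (t - t1) (V t1))‖ ^ 2 ≤ ‖χc‖ ^ 2 * (K0 * D) := by
    intro t ht
    have e1 : mb χc (Sg G.D.K (t - t1) (V t1)) = -(mb χc (V t - Sg G.D.K (t - t1) (V t1))) := by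
      rw [map_sub, hz t ht, zero_sub, neg_neg]
    rw [e1, norm_neg]
    have h2 := pow_le_pow_left₀ (norm_nonneg _) (norm_mb_apply_le χc (V t - Sg G.D.K (t - t1) (V t1))) 2
    refine h2.trans ?_
    rw [mul_pow]
    exact mul_le_mul_of_nonneg_left (hsm t ht) (by positivity)
  have hint : ∫ t in (0:ℝ)..T, kapT T t * ‖mb χc (Sg G.D.K t (V t1))‖ ^ 2 ≤ ‖χc‖ ^ 2 * (K0 * D) := by
    have hc : Continuous fun t => kapT T t * ‖mb χc (Sg G.D.K t (V t1))‖ ^ 2 :=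
      (kapT_cont T).mul (((mb χc).continuous.comp
        (Sg_continuousOn_apply G.D.K_nonneg G.D.K_injective (V t1))).norm.pow 2)
    have h3 : ∫ t in (0:ℝ)..T, kapT T t * ‖mb χc (Sg G.D.K t (V t1))‖ ^ 2 ≤
        ∫ t in (0:ℝ)..T, ‖χc‖ ^ 2 * (K0 * D) := by
      refine intervalIntegral.integral_mono_on hT0.le (hc.intervalIntegrable _ _)
        intervalIntegrable_const fun t ht => ?_
      have h4 := hmb (t + t1) ⟨by linarith [ht.1], by linarith [ht.2, hT]⟩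
      rw [add_sub_cancel_right] at h4
      have h5 := kapT_le_one (t := t) hT0 hT1
      have h6 := kapT_nonneg T t
      have h7 : 0 ≤ ‖mb χc (Sg G.D.K t (V t1))‖ ^ 2 := by positivity
      nlinarith [mul_le_mul_of_nonneg_right h5 h7]
    rw [intervalIntegral.integral_const, sub_zero, smul_eq_mul] at h3
    refine h3.trans ?_
    have h8 : 0 ≤ ‖χc‖ ^ 2 * (K0 * D) := by positivity
    nlinarith [mul_le_mul_of_nonneg_right hT1 h8]
  have hS : ‖Sg G.D.K T (V t1)‖ ^ 2 ≤ Real.exp (C0 / T ^ 2) * (‖χc‖ ^ 2 * (K0 * D)) :=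
    (hobs T hT0 hT1 (V t1)).trans (mul_le_mul_of_nonneg_left hint (Real.exp_pos _).le)
  have h2 := hsm t2 ⟨i.lt.le, le_rfl⟩
  rw [← hT] at h2
  have h3 : ‖V t2‖ ^ 2 ≤ 2 * ‖V t2 - Sg G.D.K T (V t1)‖ ^ 2 + 2 * ‖Sg G.D.K T (V t1)‖ ^ 2 := by
    have h4 := norm_add_le (V t2 - Sg G.D.K T (V t1)) (Sg G.D.K T (V t1))
    rw [sub_add_cancel] at h4
    have h5 := pow_le_pow_left₀ (norm_nonneg _) h4 2
    nlinarith [sq_nonneg (‖V t2 - Sg G.D.K T (V t1)‖ - ‖Sg G.D.K T (V t1)‖)]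
  have hE1 : 1 ≤ Real.exp (C0 / T ^ 2) := Real.one_le_exp (by positivity)
  have hE2 : K1 ≤ Real.exp (K1 / T ^ 2) := by
    have h4 : K1 ≤ K1 / T ^ 2 := by
      rw [le_div_iff₀ (by positivity)]
      have : T ^ 2 ≤ 1 := pow_le_one₀ hT0.le hT1
      nlinarith
    have h5 := Real.add_one_le_exp (K1 / T ^ 2)
    linarith
  have e2 : Real.exp ((C0 + K1) / T ^ 2) = Real.exp (C0 / T ^ 2) * Real.exp (K1 / T ^ 2) := by
    rw [← Real.exp_add, ← add_div]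
  rw [e2]
  have hKD : 0 ≤ K0 * D := by positivity
  have h6 : ‖V t2‖ ^ 2 ≤ Real.exp (C0 / T ^ 2) * (K1 * D) := by
    have h7 : K0 * D ≤ Real.exp (C0 / T ^ 2) * (K0 * D) := by nlinarith
    have h8 : Real.exp (C0 / T ^ 2) * (K1 * D) = 2 * (Real.exp (C0 / T ^ 2) * (K0 * D)) +
        2 * (Real.exp (C0 / T ^ 2) * (‖χc‖ ^ 2 * (K0 * D))) := by rw [hK1]; ring
    rw [h8]
    linarith
  refine h6.trans ?_
  rw [mul_assoc]
  exact mul_le_mul_of_nonneg_left (mul_le_mul_of_nonneg_right hE2 hD0) (Real.exp_pos _).le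

end

end Pool.Agent.Lib.MP_79abb3_an.PD
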