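import Pool.Agent.Lib.MP_79abb3_an.PD.NG3c
import Pool.Agent.Lib.MP_79abb3_an.PD.NAb
import Pool.Agent.Lib.MP_79abb3_an.PD.NM
import Pool.Agent.Lib.MP_79abb3_an.SC.ChGeoB

/-!
Theorem D (MP_79abb3_an), block N, collars: the observability estimate of a collar.
-/

set_option autoImplicit false
set_option linter.unusedSectionVars false

open MeasureTheory Set Filter Topology Function
open scoped ENNReal InnerProductSpace

namespace Pool.Agent.Lib.MP_79abb3_an.PD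

open Pool.Agent.Lib.MP_79abb3_an.P25 Pool.Agent.Lib.MP_79abb3_an.SC

variable {D : Set ℂ} {ρ : ℝ} {F : ℂ → ℂ} {c : ℝ} {ζ : ℝ → ℂ} {a : ℝ × ℝ → ℝ}

/-- A cut-off `χc ∈ CI π`: `0` for `z ≤ c/2`, `1` for `z ≥ 3c/4` (`rci`, `stp` of SC). -/
theorem exists_chic (h : Cld D ρ F c ζ a) : ∃ χc : CI Real.pi, (∀ z ∈ Icc (0:ℝ) Real.pi, z ≤ c / 2 → ex χc z = 0) ∧
    ∀ z ∈ Icc (0:ℝ) Real.pi, 3 * c / 4 ≤ z → ‖ex χc z‖ = 1 := by
  have hc := h.c0
  have hlt : c / 2 < 3 * c / 4 := by linarith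
  refine ⟨rci Real.pi (stp (c / 2) (3 * c / 4)) (stp_contDiff _ _).continuous, fun z hz h1 => ?_, fun z hz h1 => ?_⟩
  · rw [ex_rci _ hz, stp_zero hlt h1, Complex.ofReal_zero]
  · rw [ex_rci _ hz, stp_one hlt h1, Complex.ofReal_one, norm_one]

/-- The geometric data with `G.a = fam a`, `G.ω = π/π` (`exists_geo_big`; `PCn.re` gives `PY π a`). -/
theorem exists_G (h : Cld D ρ F c ζ a) : ∃ G : Geo Real.pi, G.a = fam a ∧ G.ω = om1 := by
  have ha : PY Real.pi a := h.apc.re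
  obtain ⟨G, h1, -, -, -, h2, -⟩ := exists_geo_big ha h.a0 1 h.c0 h.cpi
  exact ⟨G, h1, h2⟩

private theorem ng4_cL (h : Cld D ρ F c ζ a) (L : XD D →L[ℂ] HH Real.pi) (q : XD D) {t1 t2 : ℝ} (h0 : 0 < t1) :
    ContinuousOn (fun t => L (Sg (KD D) t q)) (Icc t1 t2) := fun t ht =>
  (L.continuous.continuousAt.comp (Sg_hd h.bdd (h0.trans_le ht.1) q).continuousAt).continuousWithinAt

private theorem ng4_cA (h : Cld D ρ F c ζ a) (q : XD D) {t1 t2 : ℝ} (h0 : 0 < t1) :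
    ContinuousOn (fun t => AS (KD D) t q) (Icc t1 t2) :=
  ((AS_continuousOn (KD_nonneg h.bdd)).clm_apply continuousOn_const).mono fun _ ht => h0.trans_le ht.1

private theorem ng4_cw (h : Cld D ρ F c ζ a) (q : XD D) {t1 t2 : ℝ} (h0 : 0 < t1) :
    ContinuousOn (fun t => omq D t q) (Icc t1 t2) :=
  (omq_cont h.bdd q).mono fun _ ht => h0.trans_le ht.1

/-- **The inhomogeneous equation** for `V = La u(t)`: `V' = -La (AS t q)`, `g = Ga w(t)`, `h = hX (AS t q) w(t)`, `p = cm a (rhoX u(t))`. -/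
theorem Cld.inh (h : Cld D ρ F c ζ a) {G : Geo Real.pi} (ha : G.a = fam a) (hω : G.ω = om1) {t1 t2 : ℝ} (h0 : 0 < t1)
    (h12 : t1 < t2) (q : XD D) :
    Inh G t1 t2 (fun t => LaX h (Sg (KD D) t q)) (fun t => -LaX h (AS (KD D) t q)) (fun t => GaV h (omq D t q))
      (fun t => hX h (AS (KD D) t q) (omq D t q)) (fun t => SC.cm (fam a) (rhoX h (Sg (KD D) t q))) := by
  have hA := ng4_cA h q (t1 := t1) (t2 := t2) h0
  have hw := ng4_cw h q (t1 := t1) (t2 := t2) h0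
  refine ⟨h12, ?_, ?_, ?_, ?_, ?_, ?_⟩
  · intro t ht
    have h1 := Sg_hd h.bdd (h0.trans_le ht.1) q
    have h2 := ((LaX h).restrictScalars ℝ).hasFDerivAt.comp_hasDerivAt t h1
    have h3 : ((LaX h).restrictScalars ℝ) (-(AS (KD D) t q)) = -LaX h (AS (KD D) t q) := map_neg (LaX h) _
    rw [h3] at h2
    exact h2
  · unfold hX
    have e1 : ContinuousOn (fun t => WkV h h.kz1 (omq D t q) - PkX h h.kz1 (AS (KD D) t q)) (Icc t1 t2) :=
      ((WkV h h.kz1).continuous.comp_continuousOn hw).sub ((PkX h h.kz1).continuous.comp_continuousOn hA)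
    have e2 : ContinuousOn (fun t => WkV h h.kz2 (omq D t q) - PkX h h.kz2 (AS (KD D) t q)) (Icc t1 t2) :=
      ((WkV h h.kz2).continuous.comp_continuousOn hw).sub ((PkX h h.kz2).continuous.comp_continuousOn hA)
    exact ((e1.sub ((DT om1).continuous.comp_continuousOn e1)).const_smul (2:ℂ)).add
      ((TT om1).continuous.comp_continuousOn e2)
  · exact ng4_cL h ((SC.cm (fam a)).comp (rhoX h)) q h0
  · intro t ht
    show LaX h (Sg (KD D) t q) = TT G.ω (GaV h (omq D t q))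
    rw [hω, ← LaX_iot, iot_omq h.bdd (h0.trans_le ht.1)]
  · intro t ht
    rw [hω]
    exact PP_GaV h _
  · intro t ht f hf
    rw [hω] at hf
    have h1 := h.weak (omq_def (D := D) t q) hf
    rw [iot_omq h.bdd (h0.trans_le ht.1)] at h1
    rw [ha, hω]
    show ⟪SC.cm (fam a) (GaV h (omq D t q)), f⟫_ℂ =
      ⟪-(-LaX h (AS (KD D) t q)) + hX h (AS (KD D) t q) (omq D t q), TT om1 f⟫_ℂ -
        ⟪SC.cm (fam a) (rhoX h (Sg (KD D) t q)), f⟫_ℂ
    rw [neg_neg]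
    exact h1

/-- **(COL)** `inh_obs` with `h.inh`, `mb_LaX`, `Er_le`, `hX_le`, `rhoX_le`. -/
theorem Cld.obs (h : Cld D ρ F c ζ a) : ∃ C, 0 ≤ C ∧ ∀ (t1 t2 : ℝ) (q : XD D), 0 < t1 → t1 < t2 → t2 - t1 ≤ 1 →
    ‖ctY (Er F c) ((Sg (KD D) t2 q : XD D) : Y2)‖ ^ 2 ≤ Real.exp (C / (t2 - t1) ^ 2) *
      ∫ t in t1..t2, (‖ctY (Rr F c) ((Sg (KD D) t q : XD D) : Y2)‖ ^ 2 +
        ‖ctY (Rr F c) ((AS (KD D) t q : XD D) : Y2)‖ ^ 2 + ‖ct (Rr F c) (omq D t q : L2c)‖ ^ 2) := by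
  obtain ⟨G, hGa, hGω⟩ := exists_G h
  obtain ⟨χc, hχ0, hχ1⟩ := exists_chic h
  have hc0 := h.c0
  have hcpi := h.cpi
  obtain ⟨C1, hC1, hobs⟩ := inh_obs G (show 3 * c / 4 < Real.pi by linarith) hχ1
  obtain ⟨C2, hC2, hX2⟩ := hX_le h
  obtain ⟨C3, hC3, hρ3⟩ := rhoX_le h
  obtain ⟨N, hN⟩ : ∃ N, N = ‖SC.cm (H := Real.pi) (fam a)‖ := ⟨_, rfl⟩
  have hN0 : 0 ≤ N := by rw [hN]; exact norm_nonneg _
  obtain ⟨K, hK⟩ : ∃ K, K = 2 * C2 ^ 2 + (N * C3) ^ 2 := ⟨_, rfl⟩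
  have hK0 : 0 ≤ K := by rw [hK]; positivity
  have hpi := Real.pi_pos
  refine ⟨C1 + 2 * Real.pi * K, by positivity, ?_⟩
  intro t1 t2 q h0 h12 h21
  obtain ⟨T, hT⟩ : ∃ T, T = t2 - t1 := ⟨_, rfl⟩
  have hT0 : 0 < T := by rw [hT]; linarith
  have hT1 : T ≤ 1 := by rw [hT]; exact h21
  have key := hobs t1 t2 _ _ _ _ _ (h.inh hGa hGω h0 h12 q) h21 (fun t _ => mb_LaX h hχ0 _)
  have hcS : ContinuousOn (fun t => ‖ctY (Rr F c) ((Sg (KD D) t q : XD D) : Y2)‖ ^ 2) (Icc t1 t2) := by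
    have h1 : ContinuousOn (fun t => ((Sg (KD D) t q : XD D) : Y2)) (Icc t1 t2) := fun t ht =>
      (continuous_subtype_val.continuousAt.comp (Sg_hd h.bdd (h0.trans_le ht.1) q).continuousAt).continuousWithinAt
    exact ((ctY (Rr F c)).continuous.comp_continuousOn h1).norm.pow 2
  have hcA : ContinuousOn (fun t => ‖ctY (Rr F c) ((AS (KD D) t q : XD D) : Y2)‖ ^ 2) (Icc t1 t2) :=
    ((ctY (Rr F c)).continuous.comp_continuousOn
      (continuous_subtype_val.comp_continuousOn (ng4_cA h q h0))).norm.pow 2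
  have hcw : ContinuousOn (fun t => ‖ct (Rr F c) (omq D t q : L2c)‖ ^ 2) (Icc t1 t2) :=
    ((ct (Rr F c)).continuous.comp_continuousOn
      (continuous_subtype_val.comp_continuousOn (ng4_cw h q h0))).norm.pow 2
  have hinh := h.inh hGa hGω h0 h12 q
  have hint : ∫ s in t1..t2, (‖hX h (AS (KD D) s q) (omq D s q)‖ ^ 2 +
      ‖SC.cm (fam a) (rhoX h (Sg (KD D) s q))‖ ^ 2) ≤
      K * ∫ t in t1..t2, (‖ctY (Rr F c) ((Sg (KD D) t q : XD D) : Y2)‖ ^ 2 +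
        ‖ctY (Rr F c) ((AS (KD D) t q : XD D) : Y2)‖ ^ 2 + ‖ct (Rr F c) (omq D t q : L2c)‖ ^ 2) := by
    rw [← intervalIntegral.integral_const_mul]
    refine intervalIntegral.integral_mono_on h12.le ?_ ?_ fun t ht => ?_
    · refine ContinuousOn.intervalIntegrable ?_
      rw [uIcc_of_le h12.le]
      exact (hinh.ch.norm.pow 2).add (hinh.cp.norm.pow 2)
    · refine ContinuousOn.intervalIntegrable ?_
      rw [uIcc_of_le h12.le]
      exact continuousOn_const.mul ((hcS.add hcA).add hcw)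
    · have e1 := hX2 (AS (KD D) t q) (omq D t q)
      have e2 : ‖SC.cm (fam a) (rhoX h (Sg (KD D) t q))‖ ≤
          (N * C3) * ‖ctY (Rr F c) ((Sg (KD D) t q : XD D) : Y2)‖ := by
        refine ((SC.cm (H := Real.pi) (fam a)).le_opNorm _).trans ?_
        rw [← hN, mul_assoc]
        exact mul_le_mul_of_nonneg_left (hρ3 _) hN0
      have f1 := pow_le_pow_left₀ (norm_nonneg _) e1 2
      have f2 := pow_le_pow_left₀ (norm_nonneg _) e2 2
      obtain ⟨x, hx⟩ : ∃ x, x = ‖ctY (Rr F c) ((Sg (KD D) t q : XD D) : Y2)‖ := ⟨_, rfl⟩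
      obtain ⟨y, hy⟩ : ∃ y, y = ‖ctY (Rr F c) ((AS (KD D) t q : XD D) : Y2)‖ := ⟨_, rfl⟩
      obtain ⟨w, hw⟩ : ∃ w, w = ‖ct (Rr F c) (omq D t q : L2c)‖ := ⟨_, rfl⟩
      rw [← hy, ← hw] at f1
      rw [← hx] at f2
      rw [← hx, ← hy, ← hw, hK]
      have g1 : (C2 * (y + w)) ^ 2 ≤ 2 * C2 ^ 2 * (y ^ 2 + w ^ 2) := by
        nlinarith [mul_nonneg (sq_nonneg C2) (sq_nonneg (y - w))]
      have g2 : ((N * C3) * x) ^ 2 = (N * C3) ^ 2 * x ^ 2 := by ring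
      have g3 : 0 ≤ 2 * C2 ^ 2 * x ^ 2 := by positivity
      have g4 : 0 ≤ (N * C3) ^ 2 * (y ^ 2 + w ^ 2) := by positivity
      nlinarith
  obtain ⟨J, hJ⟩ : ∃ J, J = ∫ t in t1..t2, (‖ctY (Rr F c) ((Sg (KD D) t q : XD D) : Y2)‖ ^ 2 +
        ‖ctY (Rr F c) ((AS (KD D) t q : XD D) : Y2)‖ ^ 2 + ‖ct (Rr F c) (omq D t q : L2c)‖ ^ 2) := ⟨_, rfl⟩
  have hJ0 : 0 ≤ J := by
    rw [hJ]
    exact intervalIntegral.integral_nonneg h12.le fun t _ => by positivity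
  rw [← hJ] at hint ⊢
  rw [← hT] at key ⊢
  have h5 : ‖ctY (Er F c) ((Sg (KD D) t2 q : XD D) : Y2)‖ ^ 2 ≤
      2 * Real.pi * (Real.exp (C1 / T ^ 2) * (K * J)) := by
    have h6 := PD.Er_le h (Sg (KD D) t2 q)
    have h8 : ‖LaX h (Sg (KD D) t2 q)‖ ^ 2 ≤ Real.exp (C1 / T ^ 2) * (K * J) :=
      key.trans (mul_le_mul_of_nonneg_left hint (Real.exp_pos _).le)
    exact h6.trans (mul_le_mul_of_nonneg_left h8 (by positivity))
  refine h5.trans ?_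
  have hE2 : 2 * Real.pi * K ≤ Real.exp (2 * Real.pi * K / T ^ 2) := by
    have h4 : 2 * Real.pi * K ≤ 2 * Real.pi * K / T ^ 2 := by
      rw [le_div_iff₀ (by positivity)]
      have : T ^ 2 ≤ 1 := pow_le_one₀ hT0.le hT1
      have h6 : 0 ≤ 2 * Real.pi * K := by positivity
      nlinarith
    have h5 := Real.add_one_le_exp (2 * Real.pi * K / T ^ 2)
    linarith
  rw [add_div, Real.exp_add]
  have h7 : 2 * Real.pi * (Real.exp (C1 / T ^ 2) * (K * J)) = Real.exp (C1 / T ^ 2) * (2 * Real.pi * K) * J := by ring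
  rw [h7]
  exact mul_le_mul_of_nonneg_right (mul_le_mul_of_nonneg_left hE2 (Real.exp_pos _).le) hJ0

end Pool.Agent.Lib.MP_79abb3_an.PD
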