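import Pool.Agent.Lib.MP_79abb3_an.PD.NC1a

/-!
Theorem D (MP_79abb3_an), block N: inequalities for integrals in time.
-/

set_option autoImplicit false
set_option linter.unusedSectionVars false

open MeasureTheory Set Filter Topology Function
open scoped ENNReal InnerProductSpace

namespace Pool.Agent.Lib.MP_79abb3_an.PD

/-- Hölder in time: `∫ x^θ ≤ (∫ x)^θ` on an interval of length `≤ 1` (tangent line of the concave function `x^θ` at the mean). -/
theorem int_rpow_le {θ α β : ℝ} (h0 : 0 < θ) (h1 : θ < 1) (hab : α ≤ β) (hl : β - α ≤ 1) {x : ℝ → ℝ}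
    (hx : ContinuousOn x (Icc α β)) (hn : ∀ t ∈ Icc α β, 0 ≤ x t) :
    ∫ t in α..β, x t ^ θ ≤ (∫ t in α..β, x t) ^ θ := by
  have hI0 : 0 ≤ ∫ t in α..β, x t := intervalIntegral.integral_nonneg hab hn
  have hu : uIcc α β = Icc α β := uIcc_of_le hab
  have hxi : IntervalIntegrable x volume α β :=
    ContinuousOn.intervalIntegrable (by rw [hu]; exact hx)
  have hxc : ContinuousOn (fun t => x t ^ θ) (Icc α β) :=
    hx.rpow_const fun t _ => Or.inr h0.le
  have hxti : IntervalIntegrable (fun t => x t ^ θ) volume α β :=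
    ContinuousOn.intervalIntegrable (by rw [hu]; exact hxc)
  have key : ∀ ε : ℝ, 0 < ε → ∫ t in α..β, x t ^ θ ≤ ((∫ t in α..β, x t) + ε) ^ θ := by
    intro ε hε
    have hm : 0 < (∫ t in α..β, x t) + ε := by linarith
    have hI : ∫ t in α..β, x t ≤ (∫ t in α..β, x t) + ε := by linarith
    generalize (∫ t in α..β, x t) + ε = m at hm hI ⊢
    have a1 : ∫ t in α..β, x t ^ θ * m ^ (1 - θ) ≤ ∫ t in α..β, (θ * x t + (1 - θ) * m) := by
      refine intervalIntegral.integral_mono_on hab (hxti.mul_const _)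
        ((hxi.const_mul _).add (intervalIntegrable_const)) fun t ht => ?_
      exact Real.geom_mean_le_arith_mean2_weighted h0.le (by linarith) (hn t ht) hm.le (by ring)
    rw [intervalIntegral.integral_mul_const, intervalIntegral.integral_add (hxi.const_mul _)
      intervalIntegrable_const, intervalIntegral.integral_const_mul,
      intervalIntegral.integral_const, smul_eq_mul] at a1
    have a2 : θ * ∫ t in α..β, x t ≤ θ * m := mul_le_mul_of_nonneg_left hI h0.le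
    have a3 : (β - α) * ((1 - θ) * m) ≤ 1 * ((1 - θ) * m) :=
      mul_le_mul_of_nonneg_right hl (mul_nonneg (by linarith) hm.le)
    have a4 : m ^ θ * m ^ (1 - θ) = m := by
      rw [← Real.rpow_add hm]
      norm_num
    have a5 : (∫ t in α..β, x t ^ θ) * m ^ (1 - θ) ≤ m ^ θ * m ^ (1 - θ) := by
      rw [a4]
      linarith
    exact le_of_mul_le_mul_right a5 (Real.rpow_pos_of_pos hm _)
  have hcont : Tendsto (fun ε : ℝ => ((∫ t in α..β, x t) + ε) ^ θ) (𝓝[>] 0)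
      (𝓝 ((∫ t in α..β, x t) ^ θ)) := by
    have c1 : Continuous fun ε : ℝ => ((∫ t in α..β, x t) + ε) ^ θ :=
      (continuous_const.add continuous_id).rpow_const fun _ => Or.inr h0.le
    have c2 := c1.tendsto 0
    rw [add_zero] at c2
    exact c2.mono_left nhdsWithin_le_nhds
  exact ge_of_tendsto hcont (eventually_nhdsWithin_of_forall fun ε hε => key ε hε)

/-- `∫ (Pw θ N (e^{C/T} Q))² ≤ e^{2C/T} (∫ N²)^θ (Q²)^{1-θ}` -/
theorem int_Pw_sq_le {θ α β E Q : ℝ} (h0 : 0 < θ) (h1 : θ < 1) (hab : α ≤ β) (hl : β - α ≤ 1) (hE : 1 ≤ E) (hQ : 0 ≤ Q)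
    {N : ℝ → ℝ} (hN : ContinuousOn N (Icc α β)) (hn : ∀ t ∈ Icc α β, 0 ≤ N t) :
    ∫ t in α..β, (Pw θ (N t) (E * Q)) ^ 2 ≤ E ^ 2 * ((∫ t in α..β, N t ^ 2) ^ θ * (Q ^ 2) ^ (1 - θ)) := by
  have hu : uIcc α β = Icc α β := uIcc_of_le hab
  have hN2 : ContinuousOn (fun t => N t ^ 2) (Icc α β) := hN.pow 2
  have hE0 : (0:ℝ) ≤ E := by linarith
  have hxc : ContinuousOn (fun t => (N t ^ 2) ^ θ) (Icc α β) :=
    hN2.rpow_const fun t _ => Or.inr h0.le
  have e1 : ∀ t ∈ Icc α β, (Pw θ (N t) (E * Q)) ^ 2 =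
      (N t ^ 2) ^ θ * ((E ^ 2) ^ (1 - θ) * (Q ^ 2) ^ (1 - θ)) := by
    intro t ht
    unfold Pw
    rw [mul_pow, Real.mul_rpow hE0 hQ, mul_pow, ← Real.rpow_natCast (N t ^ θ), ← Real.rpow_mul (hn t ht),
      mul_comm θ, Real.rpow_mul (hn t ht), Real.rpow_natCast, ← Real.rpow_natCast (E ^ (1 - θ)),
      ← Real.rpow_mul hE0, mul_comm (1 - θ), Real.rpow_mul hE0, Real.rpow_natCast,
      ← Real.rpow_natCast (Q ^ (1 - θ)), ← Real.rpow_mul hQ, mul_comm (1 - θ), Real.rpow_mul hQ,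
      Real.rpow_natCast]
  have e2 : (E ^ 2) ^ (1 - θ) ≤ E ^ 2 := by
    have hE2 : 1 ≤ E ^ 2 := one_le_pow₀ hE
    calc (E ^ 2) ^ (1 - θ) ≤ (E ^ 2) ^ (1:ℝ) := Real.rpow_le_rpow_of_exponent_le hE2 (by linarith)
      _ = E ^ 2 := Real.rpow_one _
  have e3 : 0 ≤ (Q ^ 2) ^ (1 - θ) := Real.rpow_nonneg (sq_nonneg _) _
  rw [intervalIntegral.integral_congr (g := fun t => (N t ^ 2) ^ θ *
    ((E ^ 2) ^ (1 - θ) * (Q ^ 2) ^ (1 - θ))) (fun t ht => e1 t (by rwa [hu] at ht)),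
    intervalIntegral.integral_mul_const]
  have e4 := int_rpow_le h0 h1 hab hl hN2 (fun t _ => sq_nonneg _)
  have e5 : 0 ≤ (∫ t in α..β, N t ^ 2) ^ θ :=
    Real.rpow_nonneg (intervalIntegral.integral_nonneg hab fun t _ => sq_nonneg _) _
  calc (∫ t in α..β, (N t ^ 2) ^ θ) * ((E ^ 2) ^ (1 - θ) * (Q ^ 2) ^ (1 - θ))
      ≤ (∫ t in α..β, N t ^ 2) ^ θ * (E ^ 2 * (Q ^ 2) ^ (1 - θ)) :=
        mul_le_mul e4 (mul_le_mul_of_nonneg_right e2 e3)
          (mul_nonneg (Real.rpow_nonneg (sq_nonneg _) _) e3) e5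
    _ = _ := by ring

end Pool.Agent.Lib.MP_79abb3_an.PD
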