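import Pool.Agent.Lib.MP_79abb3_an.PD.NG4

/-!
Theorem D (MP_79abb3_an), block N: decomposition of the domain into a core and collars.
-/

set_option autoImplicit false
set_option linter.unusedSectionVars false

open MeasureTheory Set Filter Topology Function
open scoped ENNReal InnerProductSpace

namespace Pool.Agent.Lib.MP_79abb3_an.PD

open Pool.Agent.Lib.MP_79abb3_an.SC

variable {D : Set ℂ}

/-- The three terms on a set. -/
private noncomputable def nhb_f (D K : Set ℂ) (q : XD D) (t : ℝ) : ℝ :=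
  ‖ctY K ((Sg (KD D) t q : XD D) : Y2)‖ ^ 2 + ‖ctY K ((AS (KD D) t q : XD D) : Y2)‖ ^ 2 +
    ‖ct K (omq D t q : L2c)‖ ^ 2

private theorem nhb_f_cont (hb : Bornology.IsBounded D) (K : Set ℂ) (q : XD D) :
    ContinuousOn (nhb_f D K q) (Ioi 0) := by
  have h1 : ContinuousOn (fun t => (Sg (KD D) t q : XD D)) (Ioi 0) := fun t ht =>
    (Sg_hd hb ht q).continuousAt.continuousWithinAt
  have h2 : ContinuousOn (fun t => (AS (KD D) t q : XD D)) (Ioi 0) :=
    (AS_continuousOn (KD_nonneg hb)).clm_apply continuousOn_const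
  have h3 : ContinuousOn (fun t => omq D t q) (Ioi 0) := omq_cont hb q
  have c1 : ContinuousOn (fun t => ctY K ((Sg (KD D) t q : XD D) : Y2)) (Ioi 0) :=
    ((ctY K).continuous.comp continuous_subtype_val).comp_continuousOn h1
  have c2 : ContinuousOn (fun t => ctY K ((AS (KD D) t q : XD D) : Y2)) (Ioi 0) :=
    ((ctY K).continuous.comp continuous_subtype_val).comp_continuousOn h2
  have c3 : ContinuousOn (fun t => ct K (omq D t q : L2c)) (Ioi 0) :=
    ((ct K).continuous.comp continuous_subtype_val).comp_continuousOn h3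
  exact ((c1.norm.pow 2).add (c2.norm.pow 2)).add (c3.norm.pow 2)

private theorem nhb_f_int (hb : Bornology.IsBounded D) (K : Set ℂ) (q : XD D) {t1 t2 : ℝ} (h1 : 0 < t1)
    (h2 : t1 < t2) : IntervalIntegrable (nhb_f D K q) volume t1 t2 := by
  apply ContinuousOn.intervalIntegrable
  rw [uIcc_of_le h2.le]
  exact (nhb_f_cont hb K q).mono fun t ht => lt_of_lt_of_le h1 ht.1

private theorem nhb_f_mono {K K' : Set ℂ} (hK : MeasurableSet K) (hK' : MeasurableSet K') (h : K ⊆ K') (q : XD D)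
    (t : ℝ) : nhb_f D K q t ≤ nhb_f D K' q t := by
  have h1 := norm_ctY_mono hK hK' h ((Sg (KD D) t q : XD D) : Y2)
  have h2 := norm_ctY_mono hK hK' h ((AS (KD D) t q : XD D) : Y2)
  have h3 := norm_ct_mono hK hK' h (omq D t q : L2c)
  unfold nhb_f
  gcongr

/-- The decomposition of the domain: finitely many collars `E_j` and a compact core; all rings are in one compact set `K`. From
`IsPlanar.col` with `exists_Cld` for every `j` (the depths `c_j` differ); the core is contained in `D ∖ ⋃ F_j '' ring r` with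
`r = max exp(-c_j/4)`, `Er = F '' rg 0 (c/4) = F '' ring (exp(-c/4))`. -/
theorem exists_decomp (hD : IsPlanar D) : ∃ (n : ℕ) (E : Fin n → Set ℂ) (K : Set ℂ), IsCompact K ∧ K ⊆ D ∧
    (∀ j, MeasurableSet (E j)) ∧ D ⊆ K ∪ ⋃ j, E j ∧
    ∃ C, 0 ≤ C ∧ ∀ (j : Fin n) (t1 t2 : ℝ) (q : XD D), 0 < t1 → t1 < t2 → t2 - t1 ≤ 1 →
      ‖ctY (E j) ((Sg (KD D) t2 q : XD D) : Y2)‖ ^ 2 ≤ Real.exp (C / (t2 - t1) ^ 2) *
        ∫ t in t1..t2, (‖ctY K ((Sg (KD D) t q : XD D) : Y2)‖ ^ 2 +
          ‖ctY K ((AS (KD D) t q : XD D) : Y2)‖ ^ 2 + ‖ct K (omq D t q : L2c)‖ ^ 2) := by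
  obtain ⟨n, ρ, F, h0, h1, hF, -, hcore⟩ := hD.col
  choose c ζ a hC using fun j => exists_Cld hD.op hD.bdd (hF j) h0 h1
  choose C hC0 hCo using fun j => (hC j).obs
  -- the common radius
  have hr : ∃ r : ℝ, ρ < r ∧ r < 1 ∧ ∀ j, Real.exp (-(c j / 4)) ≤ r := by
    have hex : ∀ j, Real.exp (-(c j / 4)) < 1 := fun j => by
      rw [Real.exp_lt_one_iff]
      linarith [(hC j).c0]
    rcases isEmpty_or_nonempty (Fin n) with hn | hn
    · obtain ⟨r, h2, h3⟩ := exists_between h1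
      exact ⟨r, h2, h3, fun j => (hn.false j).elim⟩
    · obtain ⟨r, h2, h3⟩ := exists_between (max_lt h1
        ((Finset.sup'_lt_iff Finset.univ_nonempty).2 fun j _ => hex j))
      refine ⟨r, (le_max_left _ _).trans_lt h2, h3, fun j => ?_⟩
      exact (Finset.le_sup' (fun j => Real.exp (-(c j / 4))) (Finset.mem_univ j)).trans
        ((le_max_right _ _).trans h2.le)
  obtain ⟨r, hr1, hr2, hr3⟩ := hr
  have hK1 : IsCompact (D \ ⋃ j, F j '' ring r) := hcore r hr1 hr2
  have hK2 : IsCompact (⋃ j, Rr (F j) (c j)) := isCompact_iUnion fun j => (hC j).Rr_compact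
  set K : Set ℂ := (D \ ⋃ j, F j '' ring r) ∪ ⋃ j, Rr (F j) (c j) with hKdef
  have hK : IsCompact K := hK1.union hK2
  have hρe : ∀ j, ρ < Real.exp (-(c j / 4)) := fun j => by
    rw [← Real.log_lt_iff_lt_exp h0]
    have := (hC j).cL
    have := (hC j).c0
    linarith
  refine ⟨n, fun j => Er (F j) (c j), K, hK, ?_, fun j => ?_, ?_, ∑ j, C j,
    Finset.sum_nonneg fun j _ => hC0 j, ?_⟩
  · exact union_subset sdiff_subset (iUnion_subset fun j => (hC j).Rr_sub)
  · have hopen : IsOpen (rg 0 (c j / 4)) := by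
      unfold rg
      exact (isOpen_lt continuous_const continuous_norm).inter (isOpen_lt continuous_norm continuous_const)
    have hsub : rg 0 (c j / 4) ⊆ ringc ρ := by
      intro ξ hξ
      have h2 := hξ.1
      have h3 := hξ.2
      rw [neg_zero, Real.exp_zero] at h3
      exact ⟨(hρe j).trans h2, h3.le⟩
    exact hopen.measurableSet.image_of_continuousOn_injOn ((hF j).smooth.continuous.continuousOn)
      ((hF j).inj.mono hsub)
  · intro x hx
    by_cases hx2 : x ∈ ⋃ j, F j '' ring r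
    · right
      obtain ⟨j, ξ, hξ, rfl⟩ := mem_iUnion.1 hx2
      refine mem_iUnion.2 ⟨j, ξ, ⟨(hr3 j).trans_lt hξ.1, ?_⟩, rfl⟩
      rw [neg_zero, Real.exp_zero]
      exact hξ.2
    · exact Or.inl (Or.inl ⟨hx, hx2⟩)
  · intro j t1 t2 q ht1 ht12 ht
    have e1 := hCo j t1 t2 q ht1 ht12 ht
    have hRm : MeasurableSet (Rr (F j) (c j)) := (hC j).Rr_compact.isClosed.measurableSet
    have e2 : ∫ t in t1..t2, nhb_f D (Rr (F j) (c j)) q t ≤ ∫ t in t1..t2, nhb_f D K q t :=
      intervalIntegral.integral_mono_on ht12.le (nhb_f_int hD.bdd _ q ht1 ht12) (nhb_f_int hD.bdd _ q ht1 ht12)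
        fun t _ => nhb_f_mono hRm hK.isClosed.measurableSet
          ((subset_iUnion (fun j => Rr (F j) (c j)) j).trans subset_union_right) q t
    have e3 : 0 ≤ ∫ t in t1..t2, nhb_f D (Rr (F j) (c j)) q t :=
      intervalIntegral.integral_nonneg ht12.le fun t _ => by unfold nhb_f; positivity
    have e4 : Real.exp (C j / (t2 - t1) ^ 2) ≤ Real.exp ((∑ j, C j) / (t2 - t1) ^ 2) := by
      apply Real.exp_le_exp.2
      apply div_le_div_of_nonneg_right _ (sq_nonneg _)
      exact Finset.single_le_sum (fun i _ => hC0 i) (Finset.mem_univ j)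
    calc ‖ctY (Er (F j) (c j)) ((Sg (KD D) t2 q : XD D) : Y2)‖ ^ 2
        ≤ Real.exp (C j / (t2 - t1) ^ 2) * ∫ t in t1..t2, nhb_f D (Rr (F j) (c j)) q t := e1
      _ ≤ Real.exp ((∑ j, C j) / (t2 - t1) ^ 2) * ∫ t in t1..t2, nhb_f D K q t :=
          mul_le_mul e4 e2 e3 (Real.exp_pos _).le

end Pool.Agent.Lib.MP_79abb3_an.PD
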