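import Pool.Agent.Lib.MP_79abb3_an.PD.NHa
import Pool.Agent.Lib.MP_79abb3_an.PD.ND1c
import Pool.Agent.Lib.MP_79abb3_an.PD.NE

/-!
Theorem D (MP_79abb3_an), block N: the three terms on a compact set.
-/

set_option autoImplicit false
set_option linter.unusedSectionVars false

open MeasureTheory Set Filter Topology Function
open scoped ENNReal InnerProductSpace

namespace Pool.Agent.Lib.MP_79abb3_an.PD

open Pool.Agent.Lib.MP_79abb3_an.SC

variable {D : Set ℂ}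

theorem nhc_one {θ α β E Q : ℝ} (h0 : 0 < θ) (h1 : θ < 1) (hab : α ≤ β) (hl : β - α ≤ 1) (hE : 1 ≤ E) (hQ : 0 ≤ Q)
    {f N : ℝ → ℝ} (hf : ContinuousOn f (Icc α β)) (hf0 : ∀ t ∈ Icc α β, 0 ≤ f t)
    (hN : ContinuousOn N (Icc α β)) (hn : ∀ t ∈ Icc α β, 0 ≤ N t)
    (h : ∀ t ∈ Icc α β, f t ≤ Pw θ (N t) (E * Q)) :
    ∫ t in α..β, f t ^ 2 ≤ E ^ 2 * ((∫ t in α..β, N t ^ 2) ^ θ * (Q ^ 2) ^ (1 - θ)) := by
  have hu : uIcc α β = Icc α β := uIcc_of_le hab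
  have c1 : ContinuousOn (fun t => f t ^ 2) (Icc α β) := hf.pow 2
  have c2 : ContinuousOn (fun t => (Pw θ (N t) (E * Q)) ^ 2) (Icc α β) := by
    unfold Pw
    exact ((hN.rpow_const fun t _ => Or.inr h0.le).mul continuousOn_const).pow 2
  refine le_trans (intervalIntegral.integral_mono_on hab ?_ ?_ fun t ht => ?_)
    (int_Pw_sq_le h0 h1 hab hl hE hQ hN hn)
  · exact ContinuousOn.intervalIntegrable (by rw [hu]; exact c1)
  · exact ContinuousOn.intervalIntegrable (by rw [hu]; exact c2)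
  · exact pow_le_pow_left₀ (hf0 t ht) (h t ht) 2

/-- `a / T ≤ b` for the exponential factors -/
theorem nhc_exp {C T t : ℝ} (hC : 0 ≤ C) (hT : 0 < T) (ht : T / 2 ≤ t) : Real.exp (C / t) ≤ Real.exp (2 * C / T) := by
  apply Real.exp_le_exp.2
  have h1 : 0 < T / 2 := by linarith
  have h2 : C / t ≤ C / (T / 2) := div_le_div_of_nonneg_left hC h1 ht
  have h3 : C / (T / 2) = 2 * C / T := by field_simp
  rw [← h3]
  exact h2

/-- The integral over `[T/2, 3T/4]` of the three terms: `SmU.compact`, `SmU.dt`, `int_AS_sq_le` (with `B x = ctY Z x`), `int_Pw_sq_le`: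
`≤ exp(C/T) (∫_0^T |1_Z u|²)^θ (|q|²)^{1-θ}` for a common small `θ` (exponents `θ₁` for `u`, `w`; `θ₁/2` for `AS`; `∫_0^T |1_Z u|² ≤ |q|²` to lower
exponents, `Pw_anti`-like). -/
theorem int_terms_le (hD : IsPlanar D) {x₀ : ℂ} {r₀ : ℝ} (hr : 0 < r₀) (hZ : Metric.ball x₀ r₀ ⊆ D) {K : Set ℂ}
    (hK : IsCompact K) (hKD : K ⊆ D) : ∃ C θ : ℝ, 0 ≤ C ∧ 0 < θ ∧ θ < 1 ∧ ∀ (T : ℝ) (q : XD D), 0 < T → T ≤ 1 →
    ∫ t in (T / 2)..(3 * T / 4), (‖ctY K ((Sg (KD D) t q : XD D) : Y2)‖ ^ 2 +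
          ‖ctY K ((AS (KD D) t q : XD D) : Y2)‖ ^ 2 + ‖ct K (omq D t q : L2c)‖ ^ 2) ≤
      Real.exp (C / T) * ((∫ t in (0:ℝ)..T, ‖ctY (Metric.ball x₀ r₀) ((Sg (KD D) t q : XD D) : Y2)‖ ^ 2) ^ θ *
        (‖q‖ ^ 2) ^ (1 - θ)) := by
  obtain ⟨hU, hW⟩ := SmU.compact hD.bdd hD.op hD.conn hr hZ hK hKD
  obtain ⟨C₁, θ₁, hC₁, a1, b1, H1⟩ := id hU
  obtain ⟨C₂, θ₂, hC₂, a2, b2, H2⟩ := hW
  obtain ⟨C₃, θ₃, hC₃, a3, b3, H3⟩ := SmU.dt hD.bdd hU
  have hKn : 0 ≤ KD D := KD_nonneg hD.bdd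
  obtain ⟨C₄, hC₄, H4⟩ := int_AS_sq_le hKn ((ctY (Metric.ball x₀ r₀)).comp (XD D).subtypeL)
    (fun x => norm_ctY_le _ _)
  obtain ⟨θ, hθ⟩ : ∃ θ, θ = min θ₁ (min θ₂ θ₃) / 2 := ⟨_, rfl⟩
  have hm : 0 < min θ₁ (min θ₂ θ₃) := lt_min a1 (lt_min a2 a3)
  have hθ0 : 0 < θ := by rw [hθ]; linarith
  have hθ1 : 2 * θ ≤ θ₁ := by rw [hθ]; linarith [min_le_left θ₁ (min θ₂ θ₃)]
  have hθ2 : 2 * θ ≤ θ₂ := by
    rw [hθ]; linarith [min_le_right θ₁ (min θ₂ θ₃), min_le_left θ₂ θ₃]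
  have hθ3 : 2 * θ ≤ θ₃ := by
    rw [hθ]; linarith [min_le_right θ₁ (min θ₂ θ₃), min_le_right θ₂ θ₃]
  refine ⟨4 * C₁ + 4 * C₂ + (4 * C₃ + 4) + (C₄ + 4) + 3, θ, by positivity, hθ0, by linarith, ?_⟩
  intro T q hT hT1
  have hQ : 0 ≤ ‖q‖ := norm_nonneg q
  have hab : T / 2 ≤ 3 * T / 4 := by linarith
  have hl : 3 * T / 4 - T / 2 ≤ 1 := by linarith
  have hu : uIcc (T / 2) (3 * T / 4) = Icc (T / 2) (3 * T / 4) := uIcc_of_le hab
  have hpos : ∀ t ∈ Icc (T / 2) (3 * T / 4), 0 < t := fun t ht => by linarith [ht.1]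
  have hle1 : ∀ t ∈ Icc (T / 2) (3 * T / 4), t ≤ 1 := fun t ht => by linarith [ht.2]
  have hsub : Icc (T / 2) (3 * T / 4) ⊆ Ioi 0 := fun t ht => hpos t ht
  -- continuity
  have cS : ContinuousOn (fun t => ((Sg (KD D) t q : XD D) : Y2)) (Ioi 0) :=
    (XD D).subtypeL.continuous.comp_continuousOn ((Sg_continuousOn hKn).clm_apply continuousOn_const)
  have cA : ContinuousOn (fun t => ((AS (KD D) t q : XD D) : Y2)) (Ioi 0) :=
    (XD D).subtypeL.continuous.comp_continuousOn ((AS_continuousOn hKn).clm_apply continuousOn_const)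
  have cW : ContinuousOn (fun t => ((omq D t q : VD D) : L2c)) (Ioi 0) :=
    (VD D).subtypeL.continuous.comp_continuousOn (omq_cont hD.bdd q)
  have cSK : ContinuousOn (fun t => ‖ctY K ((Sg (KD D) t q : XD D) : Y2)‖) (Ioi 0) :=
    ((ctY K).continuous.comp_continuousOn cS).norm
  have cAK : ContinuousOn (fun t => ‖ctY K ((AS (KD D) t q : XD D) : Y2)‖) (Ioi 0) :=
    ((ctY K).continuous.comp_continuousOn cA).norm
  have cWK : ContinuousOn (fun t => ‖ct K (omq D t q : L2c)‖) (Ioi 0) :=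
    ((ct K).continuous.comp_continuousOn cW).norm
  have cSZ : ContinuousOn (fun t => ‖ctY (Metric.ball x₀ r₀) ((Sg (KD D) t q : XD D) : Y2)‖) (Ioi 0) :=
    ((ctY _).continuous.comp_continuousOn cS).norm
  have cAZ : ContinuousOn (fun t => ‖ctY (Metric.ball x₀ r₀) ((AS (KD D) t q : XD D) : Y2)‖) (Ioi 0) :=
    ((ctY _).continuous.comp_continuousOn cA).norm
  -- the observation
  obtain ⟨u, hu'⟩ : ∃ u : ℝ → ℝ, u = fun t => ‖ctY (Metric.ball x₀ r₀) ((Sg (KD D) t q : XD D) : Y2)‖ := ⟨_, rfl⟩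
  obtain ⟨v, hv'⟩ : ∃ v : ℝ → ℝ, v = fun t => ‖ctY (Metric.ball x₀ r₀) ((AS (KD D) t q : XD D) : Y2)‖ := ⟨_, rfl⟩
  have hu0 : ∀ t, 0 ≤ u t := fun t => by rw [hu']; exact norm_nonneg _
  have hv0 : ∀ t, 0 ≤ v t := fun t => by rw [hv']; exact norm_nonneg _
  have huq : ∀ t, u t ≤ ‖q‖ := fun t => by
    rw [hu']
    exact (norm_ctY_le _ _).trans (Sg_norm_apply hKn t q)
  have hvq : ∀ t ∈ Icc (T / 2) (3 * T / 4), v t ≤ Real.exp (2 / T) * ‖q‖ := fun t ht => by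
    rw [hv']
    have h4 : ‖AS (KD D) t‖ ≤ t⁻¹ := AS_norm hKn (hpos t ht)
    have h5 : t⁻¹ ≤ 2 / T := by
      rw [inv_le_comm₀ (hpos t ht) (by positivity), inv_div]
      exact ht.1
    have h6 : t⁻¹ ≤ Real.exp (2 / T) := by linarith [Real.add_one_le_exp (2 / T)]
    exact (norm_ctY_le _ _).trans ((AS (KD D) t).le_of_opNorm_le (h4.trans h6) q)
  have cu : ContinuousOn u (Ioi 0) := by rw [hu']; exact cSZ
  have cv : ContinuousOn v (Ioi 0) := by rw [hv']; exact cAZ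
  have hJe : ∫ t in (0:ℝ)..T, ‖ctY (Metric.ball x₀ r₀) ((Sg (KD D) t q : XD D) : Y2)‖ ^ 2 =
      ∫ t in (0:ℝ)..T, u t ^ 2 := by rw [hu']
  rw [hJe]
  obtain ⟨J, hJ⟩ : ∃ J : ℝ, J = ∫ t in (0:ℝ)..T, u t ^ 2 := ⟨_, rfl⟩
  rw [← hJ]
  have iu : IntervalIntegrable (fun t => u t ^ 2) volume 0 T := by
    rw [intervalIntegrable_iff_integrableOn_Ioc_of_le hT.le]
    have c : ContinuousOn (fun t => u t ^ 2) (Ioc 0 T) := (cu.pow 2).mono fun t ht => ht.1
    refine Integrable.of_bound (c.aestronglyMeasurable measurableSet_Ioc) (‖q‖ ^ 2) ?_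
    refine (ae_restrict_iff' measurableSet_Ioc).2 (Eventually.of_forall fun t _ => ?_)
    rw [Real.norm_eq_abs, abs_of_nonneg (sq_nonneg _)]
    exact pow_le_pow_left₀ (hu0 t) (huq t) 2
  have hJ0 : 0 ≤ J := by
    rw [hJ]
    exact intervalIntegral.integral_nonneg hT.le fun t _ => sq_nonneg _
  have hJs : ∀ a b, 0 ≤ a → a ≤ b → b ≤ T → ∫ t in a..b, u t ^ 2 ≤ J := by
    intro a b h1 h2 h3
    rw [hJ]
    exact intervalIntegral.integral_mono_interval h1 h2 h3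
      (Filter.Eventually.of_forall fun t => sq_nonneg _) iu
  have hQ2 : 0 ≤ (‖q‖ ^ 2) ^ (1 - θ) := Real.rpow_nonneg (sq_nonneg _) _
  have hJθ : 0 ≤ J ^ θ := Real.rpow_nonneg hJ0 _
  have hIu0 : 0 ≤ ∫ t in (T / 2)..(3 * T / 4), u t ^ 2 :=
    intervalIntegral.integral_nonneg hab fun t _ => sq_nonneg _
  have hIu : (∫ t in (T / 2)..(3 * T / 4), u t ^ 2) ^ θ ≤ J ^ θ :=
    Real.rpow_le_rpow hIu0 (hJs _ _ (by linarith) hab (by linarith)) hθ0.le
  -- reduction of the exponent and of the constant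
  have red : ∀ (C θ' : ℝ), 0 ≤ C → 2 * θ ≤ θ' → θ' < 1 → ∀ t ∈ Icc (T / 2) (3 * T / 4),
      Pw θ' (u t) (Real.exp (C / t) * ‖q‖) ≤ Pw θ (u t) (Real.exp (2 * C / T) * ‖q‖) := by
    intro C θ' hC h1 h2 t ht
    have e1 : Real.exp (C / t) * ‖q‖ ≤ Real.exp (2 * C / T) * ‖q‖ :=
      mul_le_mul_of_nonneg_right (nhc_exp hC hT ht.1) hQ
    have e2 : 1 ≤ Real.exp (2 * C / T) := Real.one_le_exp (by positivity)
    have e3 : u t ≤ Real.exp (2 * C / T) * ‖q‖ := (huq t).trans (by nlinarith)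
    exact (Pw_mono (hu0 t) le_rfl (by positivity) e1 (by linarith) h2.le).trans
      (Pw_anti (hu0 t) e3 hθ0 (by linarith) h2.le)
  -- velocity
  have m1 : ∫ t in (T / 2)..(3 * T / 4), ‖ctY K ((Sg (KD D) t q : XD D) : Y2)‖ ^ 2 ≤
      Real.exp (2 * C₁ / T) ^ 2 * (J ^ θ * (‖q‖ ^ 2) ^ (1 - θ)) := by
    refine (nhc_one (N := u) (E := Real.exp (2 * C₁ / T)) hθ0 (by linarith) hab hl (Real.one_le_exp (by positivity)) hQ
      (cSK.mono hsub)
      (fun t _ => norm_nonneg _) (cu.mono hsub) (fun t _ => hu0 t) (fun t ht => ?_)).trans ?_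
    · refine le_trans ?_ (red C₁ θ₁ hC₁ hθ1 b1 t ht)
      have := H1 q t (hpos t ht) (hle1 t ht)
      rw [hu']
      exact this
    · gcongr
  have m2 : ∫ t in (T / 2)..(3 * T / 4), ‖ct K (omq D t q : L2c)‖ ^ 2 ≤
      Real.exp (2 * C₂ / T) ^ 2 * (J ^ θ * (‖q‖ ^ 2) ^ (1 - θ)) := by
    refine (nhc_one (N := u) (E := Real.exp (2 * C₂ / T)) hθ0 (by linarith) hab hl (Real.one_le_exp (by positivity)) hQ
      (cWK.mono hsub)
      (fun t _ => norm_nonneg _) (cu.mono hsub) (fun t _ => hu0 t) (fun t ht => ?_)).trans ?_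
    · refine le_trans ?_ (red C₂ θ₂ hC₂ hθ2 b2 t ht)
      have := H2 q t (hpos t ht) (hle1 t ht)
      rw [hu']
      exact this
    · gcongr
  -- time derivative
  have m3 : ∫ t in (T / 2)..(3 * T / 4), ‖ctY K ((AS (KD D) t q : XD D) : Y2)‖ ^ 2 ≤
      Real.exp ((2 * C₃ + 2) / T) ^ 2 * (Real.exp ((C₄ + 4) / T) * (J ^ θ * (‖q‖ ^ 2) ^ (1 - θ))) := by
    refine (nhc_one (N := v) (θ := 2 * θ) (by linarith) (by linarith) hab hl
      (Real.one_le_exp (show 0 ≤ (2 * C₃ + 2) / T by positivity)) hQ (cAK.mono hsub)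
      (fun t _ => norm_nonneg _) (cv.mono hsub) (fun t _ => hv0 t) (fun t ht => ?_)).trans ?_
    · have h1 := H3 q t (hpos t ht) (hle1 t ht)
      have e1 : Real.exp (C₃ / t) * ‖q‖ ≤ Real.exp ((2 * C₃ + 2) / T) * ‖q‖ := by
        refine mul_le_mul_of_nonneg_right ((nhc_exp hC₃ hT ht.1).trans ?_) hQ
        apply Real.exp_le_exp.2
        gcongr
        linarith
      have e3 : v t ≤ Real.exp ((2 * C₃ + 2) / T) * ‖q‖ := by
        refine (hvq t ht).trans (mul_le_mul_of_nonneg_right ?_ hQ)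
        apply Real.exp_le_exp.2
        gcongr
        linarith
      have h2 : ‖ctY K ((AS (KD D) t q : XD D) : Y2)‖ ≤ Pw θ₃ (v t) (Real.exp (C₃ / t) * ‖q‖) := by
        rw [hv']
        exact h1
      exact h2.trans ((Pw_mono (hv0 t) le_rfl (by positivity) e1 a3.le b3.le).trans
        (Pw_anti (hv0 t) e3 (by linarith) hθ3 b3.le))
    · refine mul_le_mul_of_nonneg_left ?_ (by positivity)
      have h4 := H4 T q hT hT1
      have h5 : ∫ t in (T / 2)..(3 * T / 4), v t ^ 2 ≤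
          C₄ / T ^ 2 * ‖q‖ * √(∫ t in (T / 4)..T, u t ^ 2) := by
        rw [hu', hv']
        exact h4
      have h6 : √(∫ t in (T / 4)..T, u t ^ 2) ≤ √J :=
        Real.sqrt_le_sqrt (hJs _ _ (by linarith) (by linarith) le_rfl)
      have hIv0 : 0 ≤ ∫ t in (T / 2)..(3 * T / 4), v t ^ 2 :=
        intervalIntegral.integral_nonneg hab fun t _ => sq_nonneg _
      have h7 : ∫ t in (T / 2)..(3 * T / 4), v t ^ 2 ≤ Real.exp ((C₄ + 4) / T) * (‖q‖ * √J) := by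
        refine h5.trans ?_
        have h8 : C₄ / T ^ 2 ≤ Real.exp ((C₄ + 4) / T) := by
          have g1 : C₄ ≤ Real.exp (C₄ / T) := by
            have g2 : C₄ ≤ C₄ / T := by
              rw [le_div_iff₀ hT]
              nlinarith
            linarith [Real.add_one_le_exp (C₄ / T)]
          have g3 : 1 / T ≤ Real.exp (1 / T) := by linarith [Real.add_one_le_exp (1 / T)]
          have g4 : (1 / T) ^ 2 ≤ Real.exp (1 / T) ^ 2 := pow_le_pow_left₀ (by positivity) g3 2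
          calc C₄ / T ^ 2 = C₄ * (1 / T) ^ 2 := by ring
            _ ≤ Real.exp (C₄ / T) * Real.exp (1 / T) ^ 2 := mul_le_mul g1 g4 (by positivity) (Real.exp_pos _).le
            _ = Real.exp ((C₄ + 2) / T) := by
              rw [← Real.exp_nat_mul, ← Real.exp_add]
              congr 1
              push_cast
              ring
            _ ≤ _ := by
              apply Real.exp_le_exp.2
              gcongr
              linarith
        calc C₄ / T ^ 2 * ‖q‖ * √(∫ t in (T / 4)..T, u t ^ 2) ≤ C₄ / T ^ 2 * ‖q‖ * √J := by gcongr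
          _ = C₄ / T ^ 2 * (‖q‖ * √J) := by ring
          _ ≤ _ := mul_le_mul_of_nonneg_right h8 (by positivity)
      have h9 : (∫ t in (T / 2)..(3 * T / 4), v t ^ 2) ^ (2 * θ) ≤
          Real.exp ((C₄ + 4) / T) * ((‖q‖ ^ 2) ^ θ * J ^ θ) := by
        refine (Real.rpow_le_rpow hIv0 h7 (by linarith)).trans ?_
        rw [Real.mul_rpow (Real.exp_pos _).le (by positivity), Real.mul_rpow hQ (Real.sqrt_nonneg _)]
        have e1 : Real.exp ((C₄ + 4) / T) ^ (2 * θ) ≤ Real.exp ((C₄ + 4) / T) := by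
          have h10 : 1 ≤ Real.exp ((C₄ + 4) / T) := Real.one_le_exp (by positivity)
          calc Real.exp ((C₄ + 4) / T) ^ (2 * θ) ≤ Real.exp ((C₄ + 4) / T) ^ (1:ℝ) :=
                Real.rpow_le_rpow_of_exponent_le h10 (by linarith)
            _ = _ := Real.rpow_one _
        have e2 : ‖q‖ ^ (2 * θ) = (‖q‖ ^ 2) ^ θ := by
          rw [← Real.rpow_natCast ‖q‖ 2, ← Real.rpow_mul hQ]
          norm_num
        have e3 : √J ^ (2 * θ) = J ^ θ := by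
          rw [Real.rpow_mul (Real.sqrt_nonneg _)]
          congr 1
          rw [← Real.sq_sqrt hJ0]
          norm_num
        rw [e2, e3]
        exact mul_le_mul_of_nonneg_right e1 (by positivity)
      have h11 : (‖q‖ ^ 2) ^ θ * (‖q‖ ^ 2) ^ (1 - 2 * θ) = (‖q‖ ^ 2) ^ (1 - θ) := by
        rw [← Real.rpow_add_of_nonneg (sq_nonneg _) hθ0.le (by linarith)]
        congr 1
        ring
      calc (∫ t in (T / 2)..(3 * T / 4), v t ^ 2) ^ (2 * θ) * (‖q‖ ^ 2) ^ (1 - 2 * θ)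
          ≤ Real.exp ((C₄ + 4) / T) * ((‖q‖ ^ 2) ^ θ * J ^ θ) * (‖q‖ ^ 2) ^ (1 - 2 * θ) :=
            mul_le_mul_of_nonneg_right h9 (Real.rpow_nonneg (sq_nonneg _) _)
        _ = Real.exp ((C₄ + 4) / T) * (J ^ θ * ((‖q‖ ^ 2) ^ θ * (‖q‖ ^ 2) ^ (1 - 2 * θ))) := by ring
        _ = _ := by rw [h11]
  -- the sum
  have i1 : IntervalIntegrable (fun t => ‖ctY K ((Sg (KD D) t q : XD D) : Y2)‖ ^ 2) volume (T / 2) (3 * T / 4) :=
    ContinuousOn.intervalIntegrable (by rw [hu]; exact (cSK.mono hsub).pow 2)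
  have i2 : IntervalIntegrable (fun t => ‖ctY K ((AS (KD D) t q : XD D) : Y2)‖ ^ 2) volume (T / 2) (3 * T / 4) :=
    ContinuousOn.intervalIntegrable (by rw [hu]; exact (cAK.mono hsub).pow 2)
  have i3 : IntervalIntegrable (fun t => ‖ct K (omq D t q : L2c)‖ ^ 2) volume (T / 2) (3 * T / 4) :=
    ContinuousOn.intervalIntegrable (by rw [hu]; exact (cWK.mono hsub).pow 2)
  rw [intervalIntegral.integral_add (i1.add i2) i3, intervalIntegral.integral_add i1 i2]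
  obtain ⟨X, hX⟩ : ∃ X : ℝ, X = J ^ θ * (‖q‖ ^ 2) ^ (1 - θ) := ⟨_, rfl⟩
  have hX0 : 0 ≤ X := by rw [hX]; exact mul_nonneg hJθ hQ2
  rw [← hX] at m1 m2 m3 ⊢
  have n1 : Real.exp (2 * C₁ / T) ^ 2 ≤ Real.exp ((4 * C₁ + 4 * C₂ + (4 * C₃ + 4) + (C₄ + 4)) / T) := by
    rw [← Real.exp_nat_mul]
    apply Real.exp_le_exp.2
    rw [← mul_div_assoc]
    gcongr
    push_cast
    linarith
  have n2 : Real.exp (2 * C₂ / T) ^ 2 ≤ Real.exp ((4 * C₁ + 4 * C₂ + (4 * C₃ + 4) + (C₄ + 4)) / T) := by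
    rw [← Real.exp_nat_mul]
    apply Real.exp_le_exp.2
    rw [← mul_div_assoc]
    gcongr
    push_cast
    linarith
  have n3 : Real.exp ((2 * C₃ + 2) / T) ^ 2 * Real.exp ((C₄ + 4) / T) ≤
      Real.exp ((4 * C₁ + 4 * C₂ + (4 * C₃ + 4) + (C₄ + 4)) / T) := by
    rw [← Real.exp_nat_mul, ← Real.exp_add]
    apply Real.exp_le_exp.2
    rw [← mul_div_assoc, ← add_div]
    gcongr
    push_cast
    linarith
  have n4 : 3 * Real.exp ((4 * C₁ + 4 * C₂ + (4 * C₃ + 4) + (C₄ + 4)) / T) ≤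
      Real.exp ((4 * C₁ + 4 * C₂ + (4 * C₃ + 4) + (C₄ + 4) + 3) / T) := by
    rw [add_div _ (3:ℝ) T, Real.exp_add, mul_comm]
    refine mul_le_mul_of_nonneg_left ?_ (Real.exp_pos _).le
    have h3 : 3 ≤ 3 / T := by
      rw [le_div_iff₀ hT]
      nlinarith
    linarith [Real.add_one_le_exp (3 / T)]
  have m3' := m3
  rw [← mul_assoc] at m3'
  have k1 := mul_le_mul_of_nonneg_right n1 hX0
  have k2 := mul_le_mul_of_nonneg_right n2 hX0
  have k3 := mul_le_mul_of_nonneg_right n3 hX0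
  have k4 := mul_le_mul_of_nonneg_right n4 hX0
  linarith

end Pool.Agent.Lib.MP_79abb3_an.PD
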