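import Mathlib

/-!
Theorem D (MP_79abb3_an), block N: from an interpolation inequality on all intervals to observability
(telescoping).
-/

set_option autoImplicit false

open Set Filter Topology MeasureTheory

namespace Pool.Agent.Lib.MP_79abb3_an.PD

/-- Young's inequality in the form `A^θ B^{1-θ} ≤ η^{-(1-θ)/θ} A + η B`. -/
theorem young_eta {θ A B η : ℝ} (hθ : 0 < θ) (hθ1 : θ < 1) (hA : 0 ≤ A) (hB : 0 ≤ B) (hη : 0 < η) :
    A ^ θ * B ^ (1 - θ) ≤ η ^ (-((1 - θ) / θ)) * A + η * B := by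
  have h1 : 0 < η ^ (-((1 - θ) / θ)) := Real.rpow_pos_of_pos hη _
  have h2 := Real.geom_mean_le_arith_mean2_weighted hθ.le (by linarith : (0:ℝ) ≤ 1 - θ)
    (mul_nonneg h1.le hA) (mul_nonneg hη.le hB) (by ring)
  have e1 : (η ^ (-((1 - θ) / θ)) * A) ^ θ * (η * B) ^ (1 - θ) = A ^ θ * B ^ (1 - θ) := by
    rw [Real.mul_rpow h1.le hA, Real.mul_rpow hη.le hB, ← Real.rpow_mul hη.le]
    have e2 : -((1 - θ) / θ) * θ = -(1 - θ) := by field_simp
    rw [e2]
    have e3 : η ^ (-(1 - θ)) * η ^ (1 - θ) = 1 := by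
      rw [← Real.rpow_add hη]; simp
    calc η ^ (-(1 - θ)) * A ^ θ * (η ^ (1 - θ) * B ^ (1 - θ))
        = (η ^ (-(1 - θ)) * η ^ (1 - θ)) * (A ^ θ * B ^ (1 - θ)) := by ring
      _ = _ := by rw [e3, one_mul]
  rw [e1] at h2
  refine h2.trans ?_
  have h3 : 0 ≤ η ^ (-((1 - θ) / θ)) * A := mul_nonneg h1.le hA
  have h4 : 0 ≤ η * B := mul_nonneg hη.le hB
  nlinarith

/-- **Telescoping.** -/
theorem telescope {C θ : ℝ} (hC : 0 ≤ C) (hθ : 0 < θ) (hθ1 : θ < 1) :
    ∃ C', 0 ≤ C' ∧ ∀ (T : ℝ) (f o : ℝ → ℝ), 0 < T → T ≤ 1 → (∀ t, 0 ≤ f t) → (∀ t, 0 ≤ o t) →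
      IntervalIntegrable o volume 0 T → (∃ B, ∀ t ∈ Ioc 0 T, f t ≤ B) →
      (∀ s t, 0 < s → s < t → t ≤ T →
        f t ≤ (Real.exp (C / (t - s) ^ 2) * ∫ r in s..t, o r) ^ θ * (f s) ^ (1 - θ)) →
      f T ≤ Real.exp (C' / T ^ 2) * ∫ r in (0:ℝ)..T, o r := by
  obtain ⟨κ, hκ⟩ : ∃ κ, κ = θ / (2 * (1 - θ)) := ⟨_, rfl⟩
  have h1θ : 0 < 1 - θ := by linarith
  have hκ0 : 0 < κ := by rw [hκ]; positivity
  obtain ⟨μ, hμ⟩ : ∃ μ, μ = √(1 / (1 + κ)) := ⟨_, rfl⟩
  have hμsq : μ ^ 2 = 1 / (1 + κ) := by rw [hμ, Real.sq_sqrt (by positivity)]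
  have hμ0 : 0 < μ := by rw [hμ]; exact Real.sqrt_pos.2 (by positivity)
  have hμ1 : μ < 1 := by
    have : μ ^ 2 < 1 := by
      rw [hμsq, div_lt_one (by positivity)]; linarith
    nlinarith
  have h1μ : 0 < 1 - μ := by linarith
  obtain ⟨a, ha⟩ : ∃ a, a = 2 * C + 1 := ⟨_, rfl⟩
  have ha0 : 0 < a := by rw [ha]; linarith
  refine ⟨a / (1 - μ) ^ 2, by positivity, ?_⟩
  intro T f o hT hT1 hf ho hI hB hmain
  obtain ⟨B, hB⟩ := hB
  obtain ⟨t, ht⟩ : ∃ t : ℕ → ℝ, ∀ k, t k = T * μ ^ k := ⟨_, fun _ => rfl⟩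
  obtain ⟨d, hd⟩ : ∃ d : ℕ → ℝ, ∀ k, d k = T * μ ^ k * (1 - μ) := ⟨_, fun _ => rfl⟩
  have hμk : ∀ k : ℕ, 0 < μ ^ k := fun k => pow_pos hμ0 k
  have htpos : ∀ k, 0 < t k := fun k => by rw [ht]; exact mul_pos hT (hμk k)
  have htle : ∀ k, t k ≤ T := fun k => by
    rw [ht]
    exact mul_le_of_le_one_right hT.le (pow_le_one₀ hμ0.le hμ1.le)
  have hdpos : ∀ k, 0 < d k := fun k => by rw [hd]; exact mul_pos (mul_pos hT (hμk k)) h1μ
  have htd : ∀ k, t k - t (k + 1) = d k := fun k => by rw [ht, ht, hd, pow_succ]; ring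
  have hdd : ∀ k, d (k + 1) ^ 2 = d k ^ 2 / (1 + κ) := fun k => by
    rw [hd, hd]
    have : (T * μ ^ (k + 1) * (1 - μ)) ^ 2 = (T * μ ^ k * (1 - μ)) ^ 2 * μ ^ 2 := by ring
    rw [this, hμsq]; ring
  have hII : ∀ x y, x ∈ Icc 0 T → y ∈ Icc 0 T → IntervalIntegrable o volume x y := fun x y hx hy =>
    hI.mono_set (by rw [uIcc_of_le hT.le]; exact uIcc_subset_Icc hx hy)
  have htI : ∀ k, t k ∈ Icc 0 T := fun k => ⟨(htpos k).le, htle k⟩
  -- one step
  have step : ∀ k, Real.exp (-(a / d k ^ 2)) * f (t k) ≤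
      (∫ r in (t (k + 1))..(t k), o r) + Real.exp (-(a / d (k + 1) ^ 2)) * f (t (k + 1)) := by
    intro k
    have hlt : t (k + 1) < t k := by have := htd k; have := hdpos k; linarith
    have h1 := hmain (t (k + 1)) (t k) (htpos _) hlt (htle k)
    rw [htd k] at h1
    obtain ⟨I, hIdef⟩ : ∃ I, I = ∫ r in (t (k + 1))..(t k), o r := ⟨_, rfl⟩
    rw [← hIdef] at h1 ⊢
    have hI0 : 0 ≤ I := by
      rw [hIdef]
      exact intervalIntegral.integral_nonneg hlt.le fun r _ => ho r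
    obtain ⟨η, hη⟩ : ∃ η, η = Real.exp (-(a * κ / d k ^ 2)) := ⟨_, rfl⟩
    have hη0 : 0 < η := by rw [hη]; exact Real.exp_pos _
    have h2 := young_eta hθ hθ1 (mul_nonneg (Real.exp_pos (C / d k ^ 2)).le hI0) (hf (t (k + 1))) hη0
    have h3 := mul_le_mul_of_nonneg_left (h1.trans h2) (Real.exp_pos (-(a / d k ^ 2))).le
    refine h3.trans ?_
    rw [mul_add]
    refine add_le_add ?_ ?_
    · -- the coefficient of the integral
      have e1 : η ^ (-((1 - θ) / θ)) = Real.exp (a / 2 / d k ^ 2) := by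
        rw [hη, ← Real.exp_mul]
        congr 1
        rw [hκ]
        field_simp
      rw [e1]
      have e2 : Real.exp (-(a / d k ^ 2)) * (Real.exp (a / 2 / d k ^ 2) * (Real.exp (C / d k ^ 2) * I)) =
          Real.exp (-(a / d k ^ 2) + a / 2 / d k ^ 2 + C / d k ^ 2) * I := by
        rw [Real.exp_add, Real.exp_add]; ring
      rw [e2]
      have hdk : 0 < d k ^ 2 := pow_pos (hdpos k) 2
      have h4 : -(a / d k ^ 2) + a / 2 / d k ^ 2 + C / d k ^ 2 ≤ 0 := by
        have : -(a / d k ^ 2) + a / 2 / d k ^ 2 + C / d k ^ 2 = -((1 / 2) / d k ^ 2) := by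
          rw [ha]; field_simp; ring
        rw [this]
        have : 0 ≤ (1 / 2 : ℝ) / d k ^ 2 := by positivity
        linarith
      have h5 : Real.exp (-(a / d k ^ 2) + a / 2 / d k ^ 2 + C / d k ^ 2) ≤ 1 := Real.exp_le_one_iff.2 h4
      calc _ ≤ 1 * I := mul_le_mul_of_nonneg_right h5 hI0
        _ = I := one_mul I
    · -- the next term
      have e1 : Real.exp (-(a / d k ^ 2)) * (η * f (t (k + 1))) =
          Real.exp (-(a / d (k + 1) ^ 2)) * f (t (k + 1)) := by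
        rw [← mul_assoc, hη, ← Real.exp_add]
        congr 2
        rw [hdd k]
        have hdk : d k ^ 2 ≠ 0 := (pow_pos (hdpos k) 2).ne'
        field_simp
        ring
      exact e1.le
  -- sum of the steps
  have hsum : ∀ n, Real.exp (-(a / d 0 ^ 2)) * f (t 0) ≤
      (∫ r in (t n)..(t 0), o r) + Real.exp (-(a / d n ^ 2)) * f (t n) := by
    intro n
    induction n with
    | zero => rw [intervalIntegral.integral_same, zero_add]
    | succ n ih =>
      have h1 := step n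
      have h2 := intervalIntegral.integral_add_adjacent_intervals (hII _ _ (htI (n + 1)) (htI n))
        (hII _ _ (htI n) (htI 0))
      linarith
  have ht0 : t 0 = T := by rw [ht, pow_zero, mul_one]
  have hfin : Real.exp (-(a / d 0 ^ 2)) * f T ≤ ∫ r in (0:ℝ)..T, o r := by
    -- the remainder tends to zero
    have hd0 : Tendsto d atTop (𝓝 0) := by
      have h1 : Tendsto (fun k : ℕ => T * μ ^ k * (1 - μ)) atTop (𝓝 (T * 0 * (1 - μ))) :=
        ((tendsto_pow_atTop_nhds_zero_of_lt_one hμ0.le hμ1).const_mul T).mul_const _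
      rw [mul_zero, zero_mul] at h1
      exact h1.congr fun k => (hd k).symm
    have hexp : Tendsto (fun n => Real.exp (-(a / d n ^ 2)) * B) atTop (𝓝 0) := by
      have h1 : Tendsto (fun n => (d n ^ 2)⁻¹) atTop atTop := by
        refine tendsto_inv_nhdsGT_zero.comp ?_
        rw [tendsto_nhdsWithin_iff]
        refine ⟨?_, Eventually.of_forall fun n => pow_pos (hdpos n) 2⟩
        have := hd0.pow 2
        simpa using this
      have h2 : Tendsto (fun n => -(a / d n ^ 2)) atTop atBot := by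
        have h3 : Tendsto (fun n => a * (d n ^ 2)⁻¹) atTop atTop := h1.const_mul_atTop ha0
        have h4 := tendsto_neg_atTop_atBot.comp h3
        refine h4.congr fun n => ?_
        simp [div_eq_mul_inv]
      have h5 := (Real.tendsto_exp_atBot.comp h2).mul_const B
      rw [zero_mul] at h5
      exact h5
    have hle : ∀ n, Real.exp (-(a / d 0 ^ 2)) * f T ≤ (∫ r in (0:ℝ)..T, o r) +
        Real.exp (-(a / d n ^ 2)) * B := by
      intro n
      have h1 := hsum n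
      rw [ht0] at h1
      have h2 : ∫ r in (t n)..T, o r ≤ ∫ r in (0:ℝ)..T, o r := by
        have h3 := intervalIntegral.integral_add_adjacent_intervals
          (hII 0 (t n) ⟨le_rfl, hT.le⟩ (htI n)) (hII (t n) T (htI n) ⟨hT.le, le_rfl⟩)
        have h4 : 0 ≤ ∫ r in (0:ℝ)..(t n), o r :=
          intervalIntegral.integral_nonneg (htpos n).le fun r _ => ho r
        linarith
      have h3 : Real.exp (-(a / d n ^ 2)) * f (t n) ≤ Real.exp (-(a / d n ^ 2)) * B :=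
        mul_le_mul_of_nonneg_left (hB _ ⟨htpos n, htle n⟩) (Real.exp_pos _).le
      linarith
    have hlim := hexp.const_add (∫ r in (0:ℝ)..T, o r)
    rw [add_zero] at hlim
    exact ge_of_tendsto' hlim hle
  have hd00 : d 0 = T * (1 - μ) := by rw [hd, pow_zero, mul_one]
  have e1 : f T = Real.exp (a / d 0 ^ 2) * (Real.exp (-(a / d 0 ^ 2)) * f T) := by
    rw [← mul_assoc, ← Real.exp_add, add_neg_cancel, Real.exp_zero, one_mul]
  rw [e1]
  have e2 : a / d 0 ^ 2 = a / (1 - μ) ^ 2 / T ^ 2 := by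
    rw [hd00]; field_simp
  rw [← e2]
  exact mul_le_mul_of_nonneg_left hfin (Real.exp_pos _).le

end Pool.Agent.Lib.MP_79abb3_an.PD
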