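import Pool.Agent.Lib.MP_79abb3_an.PD.NHb
import Pool.Agent.Lib.MP_79abb3_an.PD.NHc
import Pool.Agent.Lib.MP_79abb3_an.PD.NTel

/-!
Theorem D (MP_79abb3_an), block N: **observability of the Stokes system of a planar domain**.
-/

set_option autoImplicit false
set_option linter.unusedSectionVars false

open MeasureTheory Set Filter Topology Function
open scoped ENNReal InnerProductSpace

namespace Pool.Agent.Lib.MP_79abb3_an.PD

open Pool.Agent.Lib.MP_79abb3_an.SC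

variable {D : Set ℂ}

private theorem ctY_iUnion_le {n : ℕ} (E : Fin n → Set ℂ) (hE : ∀ j, MeasurableSet (E j)) (u : Y2) :
    ‖ctY (⋃ j, E j) u‖ ^ 2 ≤ ∑ j, ‖ctY (E j) u‖ ^ 2 := by
  induction n with
  | zero =>
    rw [iUnion_of_empty, Finset.univ_eq_empty, Finset.sum_empty, norm_ctY_sq, norm_ct_sq MeasurableSet.empty,
      norm_ct_sq MeasurableSet.empty]
    simp
  | succ n ih =>
    have e : (⋃ j, E j) = E 0 ∪ ⋃ j : Fin n, E j.succ := by
      ext x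
      simp only [mem_iUnion, mem_union]
      constructor
      · rintro ⟨j, hj⟩
        induction j using Fin.cases with
        | zero => exact Or.inl hj
        | succ i => exact Or.inr ⟨i, hj⟩
      · rintro (h | ⟨i, hi⟩)
        · exact ⟨0, h⟩
        · exact ⟨i.succ, hi⟩
    rw [e, Fin.sum_univ_succ]
    have hE' : ∀ j : Fin n, MeasurableSet (E j.succ) := fun j => hE j.succ
    have h1 := norm_ctY_union_sq_le (hE 0) (MeasurableSet.iUnion hE') u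
    have h2 := ih (fun j => E j.succ) hE'
    linarith

private theorem sg_cont (hD : IsPlanar D) (q : XD D) : Continuous fun t => (Sg (KD D) t q : XD D) :=
  Sg_continuousOn_apply (KD_nonneg hD.bdd) (KD_inj hD.bdd) q

private theorem ct_cont (hD : IsPlanar D) (S : Set ℂ) (q : XD D) :
    Continuous fun t => ‖ctY S ((Sg (KD D) t q : XD D) : Y2)‖ ^ 2 :=
  ((ctY S).continuous.comp ((XD D).subtypeL.continuous.comp (sg_cont hD q))).norm.pow 2

private theorem t3_cont (hD : IsPlanar D) (K : Set ℂ) (q : XD D) :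
    ContinuousOn (fun t => ‖ctY K ((Sg (KD D) t q : XD D) : Y2)‖ ^ 2 +
      ‖ctY K ((AS (KD D) t q : XD D) : Y2)‖ ^ 2 + ‖ct K (omq D t q : L2c)‖ ^ 2) (Ioi 0) := by
  refine ((ct_cont hD K q).continuousOn.add ?_).add ?_
  · have h1 : ContinuousOn (fun t => AS (KD D) t q) (Ioi 0) :=
      (AS_continuousOn (KD_nonneg hD.bdd)).clm_apply continuousOn_const
    exact ((ctY K).continuous.comp_continuousOn ((XD D).subtypeL.continuous.comp_continuousOn h1)).norm.pow 2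
  · exact ((ct K).continuous.comp_continuousOn
      ((VD D).subtypeL.continuous.comp_continuousOn (omq_cont hD.bdd q))).norm.pow 2

private theorem Sg_Sg {s t : ℝ} (hs : 0 ≤ s) (ht : 0 ≤ t) (q : XD D) :
    Sg (KD D) s (Sg (KD D) t q) = Sg (KD D) (s + t) q := by
  rw [Sg_add hs ht]; rfl

/-- **Interpolation (I).** `|u(T)|² ≤ (8/T) ∫_{5T/8}^{3T/4} |u|²`; `|u|² ≤ |1_K u|² + ∑_j |1_{E_j} u|²` (`ctY_D`); for `t ∈ [5T/8, 3T/4]` the collar
estimate with `t1 = T/2`, `t2 = t`, `(t - T/2)² ≥ T²/64`. The constant goes into the first factor: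
`e^{C/T²} x^θ y^{1-θ} = (e^{C/(θT²)} x)^θ y^{1-θ}`. -/
theorem interpol (hD : IsPlanar D) {x₀ : ℂ} {r₀ : ℝ} (hr : 0 < r₀) (hZ : Metric.ball x₀ r₀ ⊆ D) : ∃ C θ : ℝ,
    0 ≤ C ∧ 0 < θ ∧ θ < 1 ∧ ∀ (T : ℝ) (q : XD D), 0 < T → T ≤ 1 → ‖Sg (KD D) T q‖ ^ 2 ≤
      (Real.exp (C / T ^ 2) * ∫ t in (0:ℝ)..T, ‖ctY (Metric.ball x₀ r₀) ((Sg (KD D) t q : XD D) : Y2)‖ ^ 2) ^ θ *
        (‖q‖ ^ 2) ^ (1 - θ) := by
  obtain ⟨n, E, K, hK, hKD, hE, hcov, C1, hC1, hcol⟩ := exists_decomp hD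
  obtain ⟨C2, θ, hC2, hθ, hθ1, hcore⟩ := int_terms_le hD hr hZ hK hKD
  refine ⟨(8 + n + 64 * C1 + C2) / θ, θ, by positivity, hθ, hθ1, fun T q hT hT1 => ?_⟩
  obtain ⟨W, hW⟩ : ∃ W : ℝ → ℝ, W = fun t => ‖ctY K ((Sg (KD D) t q : XD D) : Y2)‖ ^ 2 +
    ‖ctY K ((AS (KD D) t q : XD D) : Y2)‖ ^ 2 + ‖ct K (omq D t q : L2c)‖ ^ 2 := ⟨_, rfl⟩
  have hW0 : ∀ t, 0 ≤ W t := fun t => by rw [hW]; positivity
  have hWc : ContinuousOn W (Ioi 0) := by rw [hW]; exact t3_cont hD K q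
  have hWi : ∀ a b, 0 < a → a ≤ b → IntervalIntegrable W volume a b := fun a b ha hab =>
    (hWc.mono fun t ht => by
      rw [uIcc_of_le hab] at ht
      exact ha.trans_le ht.1).intervalIntegrable
  obtain ⟨I3, hI3⟩ : ∃ I3, I3 = ∫ t in (T / 2)..(3 * T / 4), W t := ⟨_, rfl⟩
  obtain ⟨e1, he1⟩ : ∃ e1, e1 = Real.exp (64 * C1 / T ^ 2) := ⟨_, rfl⟩
  have he1' : 1 ≤ e1 := by rw [he1]; exact Real.one_le_exp (by positivity)
  have hI30 : 0 ≤ I3 := by
    rw [hI3]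
    exact intervalIntegral.integral_nonneg (by linarith) fun t _ => hW0 t
  -- the collars
  have h1 : ∀ t ∈ Icc (5 * T / 8) (3 * T / 4), ∀ j, ‖ctY (E j) ((Sg (KD D) t q : XD D) : Y2)‖ ^ 2 ≤ e1 * I3 := by
    intro t ht j
    have h2 := hcol j (T / 2) t q (by linarith) (by linarith [ht.1]) (by linarith [ht.2])
    refine h2.trans ?_
    have h3 : Real.exp (C1 / (t - T / 2) ^ 2) ≤ e1 := by
      rw [he1]
      refine Real.exp_le_exp.2 ?_
      have h4 : T ^ 2 / 64 ≤ (t - T / 2) ^ 2 := by nlinarith [ht.1]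
      have h5 : (0:ℝ) < T ^ 2 / 64 := by positivity
      calc C1 / (t - T / 2) ^ 2 ≤ C1 / (T ^ 2 / 64) := div_le_div_of_nonneg_left hC1 h5 h4
        _ = 64 * C1 / T ^ 2 := by field_simp
    have h6 : ∫ r in (T / 2)..t, (‖ctY K ((Sg (KD D) r q : XD D) : Y2)‖ ^ 2 +
          ‖ctY K ((AS (KD D) r q : XD D) : Y2)‖ ^ 2 + ‖ct K (omq D r q : L2c)‖ ^ 2) ≤ I3 := by
      have h7 : ∫ r in (T / 2)..t, W r ≤ I3 := by
        rw [hI3, ← intervalIntegral.integral_add_adjacent_intervals (hWi (T / 2) t (by linarith) (by linarith [ht.1]))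
          (hWi t (3 * T / 4) (by linarith [ht.1]) ht.2)]
        have := intervalIntegral.integral_nonneg ht.2 (μ := volume) fun r _ => hW0 r
        linarith
      rw [hW] at h7
      exact h7
    have h8 : 0 ≤ ∫ r in (T / 2)..t, (‖ctY K ((Sg (KD D) r q : XD D) : Y2)‖ ^ 2 +
          ‖ctY K ((AS (KD D) r q : XD D) : Y2)‖ ^ 2 + ‖ct K (omq D r q : L2c)‖ ^ 2) :=
      intervalIntegral.integral_nonneg (by linarith [ht.1]) fun r _ => by positivity
    exact mul_le_mul h3 h6 h8 (by linarith)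
  -- the decomposition
  have h2 : ∀ t ∈ Icc (5 * T / 8) (3 * T / 4), ‖Sg (KD D) T q‖ ^ 2 ≤ W t + n * (e1 * I3) := by
    intro t ht
    have e1' : ‖Sg (KD D) T q‖ ≤ ‖Sg (KD D) t q‖ := by
      have h3 := Sg_norm_apply (KD_nonneg hD.bdd) (T - t) (Sg (KD D) t q)
      rw [Sg_Sg (by linarith [ht.2]) (by linarith [ht.1]), sub_add_cancel] at h3
      exact h3
    have e2 : ‖Sg (KD D) t q‖ ^ 2 ≤ ‖ctY K ((Sg (KD D) t q : XD D) : Y2)‖ ^ 2 +
        ∑ j, ‖ctY (E j) ((Sg (KD D) t q : XD D) : Y2)‖ ^ 2 := by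
      have h3 : ‖Sg (KD D) t q‖ = ‖ctY D ((Sg (KD D) t q : XD D) : Y2)‖ := by
        rw [ctY_D hD.bdd hD.op.measurableSet]; rfl
      have hEm : MeasurableSet (⋃ j, E j) := MeasurableSet.iUnion hE
      have h4 := norm_ctY_mono hD.op.measurableSet (hK.measurableSet.union hEm) hcov
        ((Sg (KD D) t q : XD D) : Y2)
      have h5 := norm_ctY_union_sq_le hK.measurableSet hEm ((Sg (KD D) t q : XD D) : Y2)
      have h6 := ctY_iUnion_le E hE ((Sg (KD D) t q : XD D) : Y2)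
      rw [h3]
      have h7 := pow_le_pow_left₀ (norm_nonneg _) h4 2
      linarith
    have e3 : ∑ j, ‖ctY (E j) ((Sg (KD D) t q : XD D) : Y2)‖ ^ 2 ≤ n * (e1 * I3) := by
      refine (Finset.sum_le_sum fun j _ => h1 t ht j).trans ?_
      simp
    have e4 : ‖ctY K ((Sg (KD D) t q : XD D) : Y2)‖ ^ 2 ≤ W t := by
      rw [hW]
      have : 0 ≤ ‖ctY K ((AS (KD D) t q : XD D) : Y2)‖ ^ 2 := by positivity
      have : 0 ≤ ‖ct K (omq D t q : L2c)‖ ^ 2 := by positivity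
      simp only
      linarith
    have e5 := pow_le_pow_left₀ (norm_nonneg _) e1' 2
    linarith
  have h3 : T / 8 * ‖Sg (KD D) T q‖ ^ 2 ≤ I3 + T / 8 * (n * (e1 * I3)) := by
    have e1' := intervalIntegral.integral_mono_on (a := 5 * T / 8) (b := 3 * T / 4) (μ := volume) (by linarith)
      (intervalIntegrable_const) ((hWi (5 * T / 8) (3 * T / 4) (by linarith) (by linarith)).add
        (intervalIntegrable_const)) h2
    rw [intervalIntegral.integral_add (hWi (5 * T / 8) (3 * T / 4) (by linarith) (by linarith))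
      intervalIntegrable_const, intervalIntegral.integral_const, intervalIntegral.integral_const,
      smul_eq_mul, smul_eq_mul] at e1'
    have e2 : ∫ r in (5 * T / 8)..(3 * T / 4), W r ≤ I3 := by
      rw [hI3, ← intervalIntegral.integral_add_adjacent_intervals (hWi (T / 2) (5 * T / 8) (by linarith)
        (by linarith)) (hWi (5 * T / 8) (3 * T / 4) (by linarith) (by linarith))]
      have := intervalIntegral.integral_nonneg (a := T / 2) (b := 5 * T / 8) (by linarith) (μ := volume)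
        fun r _ => hW0 r
      linarith
    have e3 : 3 * T / 4 - 5 * T / 8 = T / 8 := by ring
    rw [e3] at e1'
    linarith
  have h4 : ‖Sg (KD D) T q‖ ^ 2 ≤ 8 / T * (1 + n) * e1 * I3 := by
    have h5 : T / 8 * ‖Sg (KD D) T q‖ ^ 2 ≤ (1 + n) * e1 * I3 := by
      refine h3.trans ?_
      have a1 : I3 ≤ e1 * I3 := le_mul_of_one_le_left hI30 he1'
      have a2 : 0 ≤ (n : ℝ) * (e1 * I3) := by positivity
      have a3 : T / 8 * (n * (e1 * I3)) ≤ n * (e1 * I3) := mul_le_of_le_one_left a2 (by linarith)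
      nlinarith
    calc ‖Sg (KD D) T q‖ ^ 2 = 8 / T * (T / 8 * ‖Sg (KD D) T q‖ ^ 2) := by field_simp
      _ ≤ 8 / T * ((1 + n) * e1 * I3) := mul_le_mul_of_nonneg_left h5 (by positivity)
      _ = _ := by ring
  have h5 := hcore T q hT hT1
  have h5' : I3 ≤ Real.exp (C2 / T) *
      ((∫ t in (0:ℝ)..T, ‖ctY (Metric.ball x₀ r₀) ((Sg (KD D) t q : XD D) : Y2)‖ ^ 2) ^ θ *
        (‖q‖ ^ 2) ^ (1 - θ)) := by
    rw [hI3, hW]; exact h5
  obtain ⟨O, hO⟩ : ∃ O, O = ∫ t in (0:ℝ)..T, ‖ctY (Metric.ball x₀ r₀) ((Sg (KD D) t q : XD D) : Y2)‖ ^ 2 := ⟨_, rfl⟩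
  have hO0 : 0 ≤ O := by
    rw [hO]
    exact intervalIntegral.integral_nonneg hT.le fun t _ => by positivity
  rw [← hO] at h5' ⊢
  have hTT : (T ^ 2) ≤ T := by nlinarith
  have hT2 : 0 < T ^ 2 := by positivity
  have b1 : 8 / T ≤ Real.exp (8 / T ^ 2) := by
    have : 8 / T ≤ 8 / T ^ 2 := div_le_div_of_nonneg_left (by norm_num) hT2 hTT
    have := Real.add_one_le_exp (8 / T ^ 2)
    linarith
  have b2 : 1 + (n : ℝ) ≤ Real.exp (n / T ^ 2) := by
    have h6 : (n : ℝ) ≤ n / T ^ 2 := by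
      rw [le_div_iff₀ hT2]
      have : T ^ 2 ≤ 1 := by nlinarith
      have h7 : (0:ℝ) ≤ n := Nat.cast_nonneg n
      nlinarith
    have := Real.add_one_le_exp ((n : ℝ) / T ^ 2)
    linarith
  have b3 : Real.exp (C2 / T) ≤ Real.exp (C2 / T ^ 2) :=
    Real.exp_le_exp.2 (div_le_div_of_nonneg_left hC2 hT2 hTT)
  have b4 : 8 / T * (1 + n) * e1 * Real.exp (C2 / T) ≤ Real.exp ((8 + n + 64 * C1 + C2) / T ^ 2) := by
    have e2 : Real.exp ((8 + n + 64 * C1 + C2) / T ^ 2) =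
        Real.exp (8 / T ^ 2) * Real.exp (n / T ^ 2) * e1 * Real.exp (C2 / T ^ 2) := by
      rw [he1, ← Real.exp_add, ← Real.exp_add, ← Real.exp_add]
      congr 1
      ring
    rw [e2]
    gcongr
  have b5 : (Real.exp ((8 + n + 64 * C1 + C2) / θ / T ^ 2) * O) ^ θ =
      Real.exp ((8 + n + 64 * C1 + C2) / T ^ 2) * O ^ θ := by
    rw [Real.mul_rpow (Real.exp_pos _).le hO0, ← Real.exp_mul]
    congr 2
    field_simp
  rw [b5]
  have b6 : 0 ≤ O ^ θ * (‖q‖ ^ 2) ^ (1 - θ) := by positivity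
  calc ‖Sg (KD D) T q‖ ^ 2 ≤ 8 / T * (1 + n) * e1 * I3 := h4
    _ ≤ 8 / T * (1 + n) * e1 * (Real.exp (C2 / T) * (O ^ θ * (‖q‖ ^ 2) ^ (1 - θ))) := by
      refine mul_le_mul_of_nonneg_left h5' ?_
      have : 0 ≤ e1 := by linarith
      positivity
    _ = (8 / T * (1 + n) * e1 * Real.exp (C2 / T)) * (O ^ θ * (‖q‖ ^ 2) ^ (1 - θ)) := by ring
    _ ≤ Real.exp ((8 + n + 64 * C1 + C2) / T ^ 2) * (O ^ θ * (‖q‖ ^ 2) ^ (1 - θ)) :=
      mul_le_mul_of_nonneg_right b4 b6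
    _ = _ := by ring

/-- **Theorem N.** `interpol` for `Sg s q` gives the hypothesis of `telescope` (`f = |Sg t q|²`, `o = |1_Z Sg t q|²`, `Sg_add`); with the
weight: on `[3T/8, 5T/8]` (length `T/4`) `1 ≤ (4096/T⁴) kapT T t` (`kap_mid` in SC/NcL), applied to `Sg (3T/8) q`,
`|Sg T q| ≤ |Sg (5T/8) q|`. -/
theorem obs_ball (hD : IsPlanar D) {x₀ : ℂ} {r₀ : ℝ} (hr : 0 < r₀) (hZ : Metric.ball x₀ r₀ ⊆ D) : ∃ C0 : ℝ, 0 ≤ C0 ∧
    ∀ T, 0 < T → T ≤ 1 → ∀ q : XD D, ‖Sg (KD D) T q‖ ^ 2 ≤ Real.exp (C0 / T ^ 2) *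
      ∫ t in (0:ℝ)..T, kapT T t * ‖ctY (Metric.ball x₀ r₀) ((Sg (KD D) t q : XD D) : Y2)‖ ^ 2 := by
  obtain ⟨C, θ, hC, hθ, hθ1, hint⟩ := interpol hD hr hZ
  obtain ⟨C', hC', htel⟩ := telescope hC hθ hθ1
  -- without the weight
  have hobs : ∀ T, 0 < T → T ≤ 1 → ∀ q : XD D, ‖Sg (KD D) T q‖ ^ 2 ≤ Real.exp (C' / T ^ 2) *
      ∫ t in (0:ℝ)..T, ‖ctY (Metric.ball x₀ r₀) ((Sg (KD D) t q : XD D) : Y2)‖ ^ 2 := by
    intro T hT hT1 q
    refine htel T (fun t => ‖Sg (KD D) t q‖ ^ 2)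
      (fun t => ‖ctY (Metric.ball x₀ r₀) ((Sg (KD D) t q : XD D) : Y2)‖ ^ 2) hT hT1 (fun t => by positivity)
      (fun t => by positivity) ((ct_cont hD _ q).intervalIntegrable _ _) ⟨‖q‖ ^ 2, fun t _ => ?_⟩ ?_
    · have := Sg_norm_apply (KD_nonneg hD.bdd) t q
      gcongr
    · intro s t hs hst ht
      have h1 := hint (t - s) (Sg (KD D) s q) (by linarith) (by linarith)
      rw [Sg_Sg (by linarith) hs.le, sub_add_cancel] at h1
      refine h1.trans (le_of_eq ?_)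
      congr 3
      have h2 : ∫ r in (0:ℝ)..(t - s),
          ‖ctY (Metric.ball x₀ r₀) ((Sg (KD D) r (Sg (KD D) s q) : XD D) : Y2)‖ ^ 2 =
          ∫ r in (0:ℝ)..(t - s),
            (fun t => ‖ctY (Metric.ball x₀ r₀) ((Sg (KD D) t q : XD D) : Y2)‖ ^ 2) (r + s) := by
        refine intervalIntegral.integral_congr fun r hr' => ?_
        rw [uIcc_of_le (by linarith)] at hr'
        show ‖ctY (Metric.ball x₀ r₀) ((Sg (KD D) r (Sg (KD D) s q) : XD D) : Y2)‖ ^ 2 =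
          ‖ctY (Metric.ball x₀ r₀) ((Sg (KD D) (r + s) q : XD D) : Y2)‖ ^ 2
        rw [Sg_Sg hr'.1 hs.le]
      rw [h2, intervalIntegral.integral_comp_add_right (fun t =>
        ‖ctY (Metric.ball x₀ r₀) ((Sg (KD D) t q : XD D) : Y2)‖ ^ 2), zero_add, sub_add_cancel]
  refine ⟨16 * C' + 32, by positivity, fun T hT hT1 q => ?_⟩
  have h1 := hobs (T / 4) (by linarith) (by linarith) (Sg (KD D) (3 * T / 8) q)
  rw [Sg_Sg (by linarith) (by linarith)] at h1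
  have e0 : T / 4 + 3 * T / 8 = 5 * T / 8 := by ring
  rw [e0] at h1
  have h2 : ‖Sg (KD D) T q‖ ^ 2 ≤ ‖Sg (KD D) (5 * T / 8) q‖ ^ 2 := by
    have h3 := Sg_norm_apply (KD_nonneg hD.bdd) (3 * T / 8) (Sg (KD D) (5 * T / 8) q)
    rw [Sg_Sg (by linarith) (by linarith)] at h3
    have e1 : 3 * T / 8 + 5 * T / 8 = T := by ring
    rw [e1] at h3
    gcongr
  have h3 : ∫ r in (0:ℝ)..(T / 4),
      ‖ctY (Metric.ball x₀ r₀) ((Sg (KD D) r (Sg (KD D) (3 * T / 8) q) : XD D) : Y2)‖ ^ 2 =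
      ∫ r in (3 * T / 8)..(5 * T / 8), ‖ctY (Metric.ball x₀ r₀) ((Sg (KD D) r q : XD D) : Y2)‖ ^ 2 := by
    have h2 : ∫ r in (0:ℝ)..(T / 4),
        ‖ctY (Metric.ball x₀ r₀) ((Sg (KD D) r (Sg (KD D) (3 * T / 8) q) : XD D) : Y2)‖ ^ 2 =
        ∫ r in (0:ℝ)..(T / 4),
          (fun t => ‖ctY (Metric.ball x₀ r₀) ((Sg (KD D) t q : XD D) : Y2)‖ ^ 2) (r + 3 * T / 8) := by
      refine intervalIntegral.integral_congr fun r hr' => ?_
      rw [uIcc_of_le (by linarith)] at hr'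
      show ‖ctY (Metric.ball x₀ r₀) ((Sg (KD D) r (Sg (KD D) (3 * T / 8) q) : XD D) : Y2)‖ ^ 2 =
        ‖ctY (Metric.ball x₀ r₀) ((Sg (KD D) (r + 3 * T / 8) q : XD D) : Y2)‖ ^ 2
      rw [Sg_Sg hr'.1 (by linarith)]
    rw [h2, intervalIntegral.integral_comp_add_right (fun t =>
      ‖ctY (Metric.ball x₀ r₀) ((Sg (KD D) t q : XD D) : Y2)‖ ^ 2), zero_add, e0]
  rw [h3] at h1
  obtain ⟨o, ho⟩ : ∃ o : ℝ → ℝ, o = fun t => ‖ctY (Metric.ball x₀ r₀) ((Sg (KD D) t q : XD D) : Y2)‖ ^ 2 :=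
    ⟨_, rfl⟩
  have ho0 : ∀ t, 0 ≤ o t := fun t => by rw [ho]; positivity
  have hoc : Continuous o := by rw [ho]; exact ct_cont hD _ q
  have h4 : ∫ r in (3 * T / 8)..(5 * T / 8), o r ≤ 4096 / T ^ 4 * ∫ t in (0:ℝ)..T, kapT T t * o t := by
    have hkc : Continuous fun t => kapT T t * o t := (kapT_cont T).mul hoc
    have a1 : ∫ r in (3 * T / 8)..(5 * T / 8), o r ≤
        ∫ r in (3 * T / 8)..(5 * T / 8), 4096 / T ^ 4 * (kapT T r * o r) := by
      refine intervalIntegral.integral_mono_on (by linarith) (hoc.intervalIntegrable _ _)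
        ((hkc.const_mul _).intervalIntegrable _ _) fun r hr' => ?_
      have := mul_le_mul_of_nonneg_right (kap_mid hT hr') (ho0 r)
      rw [one_mul, mul_assoc] at this
      exact this
    rw [intervalIntegral.integral_const_mul] at a1
    refine a1.trans (mul_le_mul_of_nonneg_left ?_ (by positivity))
    have k0 : ∀ t, 0 ≤ kapT T t * o t := fun t => mul_nonneg (kapT_nonneg T t) (ho0 t)
    have a2 := intervalIntegral.integral_add_adjacent_intervals (a := 0) (b := 3 * T / 8) (c := 5 * T / 8)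
      (hkc.intervalIntegrable (μ := volume) _ _) (hkc.intervalIntegrable _ _)
    have a3 := intervalIntegral.integral_add_adjacent_intervals (a := 0) (b := 5 * T / 8) (c := T)
      (hkc.intervalIntegrable (μ := volume) _ _) (hkc.intervalIntegrable _ _)
    have a4 := intervalIntegral.integral_nonneg (a := 0) (b := 3 * T / 8) (by linarith) (μ := volume)
      fun r _ => k0 r
    have a5 := intervalIntegral.integral_nonneg (a := 5 * T / 8) (b := T) (by linarith) (μ := volume)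
      fun r _ => k0 r
    linarith
  have h5 : 4096 / T ^ 4 ≤ Real.exp (32 / T ^ 2) := by
    have a1 : 8 / T ≤ Real.exp (8 / T ^ 2) := by
      have a2 : 8 / T ≤ 8 / T ^ 2 := div_le_div_of_nonneg_left (by norm_num) (by positivity) (by nlinarith)
      have := Real.add_one_le_exp (8 / T ^ 2)
      linarith
    have a2 := pow_le_pow_left₀ (by positivity) a1 4
    rw [← Real.exp_nat_mul] at a2
    have a3 : (8 / T) ^ 4 = 4096 / T ^ 4 := by rw [div_pow]; norm_num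
    have a4 : ((4:ℕ) : ℝ) * (8 / T ^ 2) = 32 / T ^ 2 := by push_cast; ring
    rw [a3, a4] at a2
    exact a2
  have h6 : 0 ≤ ∫ t in (0:ℝ)..T, kapT T t * o t :=
    intervalIntegral.integral_nonneg hT.le fun t _ => mul_nonneg (kapT_nonneg T t) (ho0 t)
  have e3 : C' / (T / 4) ^ 2 = 16 * C' / T ^ 2 := by field_simp; norm_num
  have e4 : Real.exp ((16 * C' + 32) / T ^ 2) = Real.exp (16 * C' / T ^ 2) * Real.exp (32 / T ^ 2) := by
    rw [← Real.exp_add]; congr 1; ring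
  rw [e3] at h1
  have h7 : ‖Sg (KD D) T q‖ ^ 2 ≤ Real.exp (16 * C' / T ^ 2) * ∫ r in (3 * T / 8)..(5 * T / 8), o r := by
    rw [ho]; exact h2.trans h1
  have h8 : ‖Sg (KD D) T q‖ ^ 2 ≤ Real.exp ((16 * C' + 32) / T ^ 2) * ∫ t in (0:ℝ)..T, kapT T t * o t := by
    rw [e4]
    calc ‖Sg (KD D) T q‖ ^ 2 ≤ Real.exp (16 * C' / T ^ 2) * ∫ r in (3 * T / 8)..(5 * T / 8), o r := h7
      _ ≤ Real.exp (16 * C' / T ^ 2) * (4096 / T ^ 4 * ∫ t in (0:ℝ)..T, kapT T t * o t) := by gcongr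
      _ ≤ Real.exp (16 * C' / T ^ 2) * (Real.exp (32 / T ^ 2) * ∫ t in (0:ℝ)..T, kapT T t * o t) := by gcongr
      _ = _ := by ring
  rw [ho] at h8
  exact h8

end Pool.Agent.Lib.MP_79abb3_an.PD
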