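import Pool.Agent.Lib.MP_79abb3_an.PD.NHd
import Pool.Agent.Lib.MP_79abb3_an.PD.FinN

/-!
Theorem D (MP_79abb3_an), block N: observability in the form used by the null control.
-/

set_option autoImplicit false
set_option linter.unusedSectionVars false

open MeasureTheory Set Filter Topology Function
open scoped ENNReal InnerProductSpace

namespace Pool.Agent.Lib.MP_79abb3_an.PD

open Pool.Agent.Lib.MP_79abb3_an.SC

variable {D : Set ℂ}

theorem nZ_eq {Z : Set ℂ} (hZ : MeasurableSet Z) (u : Y2) : nZ Z u = ‖ctY Z u‖ ^ 2 := by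
  have h1 : Integrable (fun x => ‖(u.fst : ℂ → ℂ) x‖ ^ 2) (volume.restrict Z) :=
    ((Lp.memLp u.fst).restrict Z).integrable_norm_pow (by norm_num)
  have h2 : Integrable (fun x => ‖(u.snd : ℂ → ℂ) x‖ ^ 2) (volume.restrict Z) :=
    ((Lp.memLp u.snd).restrict Z).integrable_norm_pow (by norm_num)
  rw [norm_ctY_sq, norm_ct_sq hZ, norm_ct_sq hZ, ← integral_add h1 h2]
  rfl

/-- **Block N.** -/
theorem obs_D (hD : IsPlanar D) {x : ℂ} {t : ℝ} (ht : 0 < t) (h : Metric.closedBall x t ⊆ D) :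
    ObsD D (Metric.closedBall x t) := by
  obtain ⟨C0, h0, hC⟩ := obs_ball hD ht (Metric.ball_subset_closedBall.trans h)
  refine ⟨C0, h0, fun T hT hT1 q => (hC T hT hT1 q).trans ?_⟩
  refine mul_le_mul_of_nonneg_left ?_ (Real.exp_pos _).le
  have hc : ∀ S : Set ℂ, Continuous fun r => kapT T r * ‖ctY S ((Sg (KD D) r q : XD D) : Y2)‖ ^ 2 :=
    fun S => (kapT_cont T).mul (((ctY S).continuous.comp ((XD D).subtypeL.continuous.comp
      (Sg_continuousOn_apply (KD_nonneg hD.bdd) (KD_inj hD.bdd) q))).norm.pow 2)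
  have e : ∀ r, nZ (Metric.closedBall x t) ((Sg (KD D) r q : XD D) : Y2) =
      ‖ctY (Metric.closedBall x t) ((Sg (KD D) r q : XD D) : Y2)‖ ^ 2 :=
    fun r => nZ_eq Metric.isClosed_closedBall.measurableSet _
  simp only [e]
  refine intervalIntegral.integral_mono_on hT.le ((hc _).intervalIntegrable _ _)
    ((hc _).intervalIntegrable _ _) fun r _ => ?_
  refine mul_le_mul_of_nonneg_left ?_ (kapT_nonneg T r)
  have h1 := norm_ctY_mono (Metric.isOpen_ball (x := x) (ε := t)).measurableSet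
    (Metric.isClosed_closedBall (x := x) (ε := t)).measurableSet Metric.ball_subset_closedBall
    ((Sg (KD D) r q : XD D) : Y2)
  gcongr

end Pool.Agent.Lib.MP_79abb3_an.PD
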