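import Pool.Agent.Lib.MP_79abb3_an.PD.TotA
import Pool.Agent.Lib.MP_79abb3_an.SC.L2Ea

/-!
Theorem D, block P: lifting of the initial data, sums in time.
-/

set_option autoImplicit false
set_option linter.unusedSectionVars false

open MeasureTheory Set Filter Topology Function
open scoped ENNReal InnerProductSpace ComplexConjugate

namespace Pool.Agent.Lib.MP_79abb3_an.PD

open Pool.Agent.Lib.MP_79abb3_an.SC

/-- A sequence of lifts of the initial datum. -/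
structure Lif (Ω Γ : Set ℂ) (u₀ : ℂ → ℂ) (Lf : ℕ → ℂ → ℂ) : Prop where
  lf : ∀ k, LF Ω Γ (Lf k)
  z0 : Lf 0 = fun _ => 0
  su : Summable fun k => ‖fo Ω (Lf k) - fo Ω (Lf (k + 1))‖
  li : Tendsto (fun k => eLpNorm (fun x => u₀ x - Lf k x) 2 (volume.restrict Ω)) atTop (𝓝 0)

private theorem divC_lin {L M : ℂ → ℂ} (hL : Cc L) (hM : Cc M) (s t : ℝ) (x : ℂ) :
    divC (fun x => (s : ℂ) * L x + (t : ℂ) * M x) x = s * divC L x + t * divC M x := by
  have h1 : HasFDerivAt (fun x => (s : ℂ) * L x + (t : ℂ) * M x)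
      ((s : ℂ) • fderiv ℝ L x + (t : ℂ) • fderiv ℝ M x) x :=
    ((hL.smo.differentiable x).hasFDerivAt.const_mul (s : ℂ)).add
      ((hM.smo.differentiable x).hasFDerivAt.const_mul (t : ℂ))
  unfold divC
  rw [h1.fderiv]
  simp only [add_apply, smul_apply, smul_eq_mul,
    Complex.add_re, Complex.add_im, Complex.re_ofReal_mul, Complex.im_ofReal_mul]
  ring

private theorem LF_lin {Ω Γ : Set ℂ} {L M : ℂ → ℂ} (hL : LF Ω Γ L) (hM : LF Ω Γ M) (s t : ℝ) :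
    LF Ω Γ (fun x => (s : ℂ) * L x + (t : ℂ) * M x) := by
  refine ⟨(hL.cc.cmul (s : ℂ)).add (hM.cc.cmul (t : ℂ)), fun x hx => ?_, fun x hx => ?_⟩
  · rw [divC_lin hL.cc hM.cc, hL.dv x hx, hM.dv x hx, mul_zero, mul_zero, add_zero]
  · show (s : ℂ) * L x + (t : ℂ) * M x = 0
    rw [hL.wl x hx, hM.wl x hx, mul_zero, mul_zero, add_zero]

private theorem exists_G {Ω Γ : Set ℂ} (hb : Bornology.IsBounded Ω) {u₀ : ℂ → ℂ} (hO : IsOpen Ω)
    (h : IsData Ω Γ u₀) (ε : ℝ) (hε : 0 < ε) : ∃ L, LF Ω Γ L ∧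
      eLpNorm (fun x => u₀ x - L x) 2 (volume.restrict Ω) ≤ ENNReal.ofReal ε := by
  obtain ⟨L, hs, hd, hw, hn⟩ := h.2 (ENNReal.ofReal ε) (ENNReal.ofReal_pos.2 hε)
  obtain ⟨R, hR⟩ := hb.subset_ball (0 : ℂ)
  let χ : ContDiffBump (0 : ℂ) := ⟨max R 1, max R 1 + 1, by positivity, by linarith⟩
  have hχ : ∀ x ∈ Metric.ball (0 : ℂ) (max R 1), χ x = 1 := fun x hx =>
    χ.one_of_mem_closedBall (Metric.ball_subset_closedBall hx)
  have hsub : Ω ⊆ Metric.ball (0 : ℂ) (max R 1) :=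
    hR.trans (Metric.ball_subset_ball (le_max_left _ _))
  have hsm : ContDiff ℝ ((⊤ : ℕ∞) : WithTop ℕ∞) (fun x => ((χ x : ℝ) : ℂ)) :=
    Complex.ofRealCLM.contDiff.comp χ.contDiff
  have hcs : HasCompactSupport (fun x => ((χ x : ℝ) : ℂ)) :=
    χ.hasCompactSupport.comp_left (g := fun r : ℝ => (r : ℂ)) (by simp)
  refine ⟨fun x => ((χ x : ℝ) : ℂ) * L x, ⟨⟨ContDiff.mul hsm hs, hcs.mul_right⟩, fun x hx => ?_,
    fun x hx => ?_⟩, ?_⟩
  · have he : (fun x => ((χ x : ℝ) : ℂ) * L x) =ᶠ[𝓝 x] L := by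
      filter_upwards [Metric.isOpen_ball.mem_nhds (hsub hx)] with y hy
      rw [hχ y hy, Complex.ofReal_one, one_mul]
    unfold divC
    rw [he.fderiv_eq]
    exact hd x hx
  · show ((χ x : ℝ) : ℂ) * L x = 0
    rw [hw x hx, mul_zero]
  · refine le_trans (le_of_eq (eLpNorm_congr_ae ?_)) hn
    filter_upwards [ae_restrict_mem hO.measurableSet] with x hx
    rw [hχ x (hsub hx), Complex.ofReal_one, one_mul]

private theorem fo_diff {Ω : Set ℂ} (hm : MeasurableSet Ω) {L M u₀ : ℂ → ℂ} (hL : Cc L) (hM : Cc M)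
    (hu : AEStronglyMeasurable u₀ (volume.restrict Ω)) {a b : ℝ} (ha0 : 0 ≤ a) (hb0 : 0 ≤ b)
    (ha : eLpNorm (fun x => u₀ x - L x) 2 (volume.restrict Ω) ≤ ENNReal.ofReal a)
    (hb : eLpNorm (fun x => u₀ x - M x) 2 (volume.restrict Ω) ≤ ENNReal.ofReal b) :
    ‖fo Ω L - fo Ω M‖ ≤ a + b := by
  have h0 := fo_lin hm hL hM 1 (-1)
  have h1 : fo Ω L - fo Ω M = fo Ω (fun x => ((1 : ℝ) : ℂ) * L x + ((-1 : ℝ) : ℂ) * M x) := by
    rw [h0, Complex.ofReal_neg, Complex.ofReal_one, one_smul, neg_smul, one_smul, sub_eq_add_neg]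
  have h2 := fo_norm (L := fun x => ((1 : ℝ) : ℂ) * L x + ((-1 : ℝ) : ℂ) * M x) hm
    ((hL.cmul _).add (hM.cmul _))
  rw [← h1] at h2
  have h3 : (fun x => ((1 : ℝ) : ℂ) * L x + ((-1 : ℝ) : ℂ) * M x) =
      (fun x => u₀ x - M x) - (fun x => u₀ x - L x) := by
    funext x
    simp only [Pi.sub_apply]
    push_cast
    ring
  rw [h3] at h2
  have hL' : AEStronglyMeasurable L (volume.restrict Ω) := hL.smo.continuous.aestronglyMeasurable
  have hM' : AEStronglyMeasurable M (volume.restrict Ω) := hM.smo.continuous.aestronglyMeasurable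
  have h4 : eLpNorm ((fun x => u₀ x - M x) - (fun x => u₀ x - L x)) 2 (volume.restrict Ω) ≤
      ENNReal.ofReal (a + b) := by
    refine (eLpNorm_sub_le (hu.sub hM') (hu.sub hL') (by norm_num)).trans ?_
    refine (add_le_add hb ha).trans ?_
    rw [← ENNReal.ofReal_add hb0 ha0, add_comm]
  rw [← h2] at h4
  exact (ENNReal.ofReal_le_ofReal_iff (by positivity)).1 h4

/-- Proof: `ε = 2^{-k}` in `IsData`, multiply by a cut-off function `χ = 1` on a ball containing the closure of `Ω`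
(`exists_contDiff_tsupport_subset` or `ContDiffBump`); `fo_norm`, `fo_lin`. -/
theorem exists_Lif {Ω Γ : Set ℂ} (hO : IsOpen Ω) (hb : Bornology.IsBounded Ω) {u₀ : ℂ → ℂ}
    (h : IsData Ω Γ u₀) : ∃ Lf, Lif Ω Γ u₀ Lf := by
  choose G hG hn using fun k : ℕ => exists_G hb hO h ((1 / 2 : ℝ) ^ k) (by positivity)
  have h0 : LF Ω Γ (fun _ => 0) :=
    ⟨⟨contDiff_const, HasCompactSupport.zero⟩, fun x _ => by simp [divC], fun _ _ => rfl⟩
  let Lf : ℕ → ℂ → ℂ := fun k => Nat.casesOn k (fun _ => 0) (fun k => G (k + 1))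
  have e0 : Lf 0 = fun _ => 0 := rfl
  have e1 : ∀ k, Lf (k + 1) = G (k + 1) := fun k => rfl
  have hlf : ∀ k, LF Ω Γ (Lf k) := by
    intro k
    cases k with
    | zero => exact h0
    | succ k => exact hG (k + 1)
  have hn' : ∀ k, eLpNorm (fun x => u₀ x - Lf (k + 1) x) 2 (volume.restrict Ω) ≤
      ENNReal.ofReal ((1 / 2 : ℝ) ^ (k + 1)) := fun k => hn (k + 1)
  have hm : MeasurableSet Ω := hO.measurableSet
  have hu : AEStronglyMeasurable u₀ (volume.restrict Ω) := h.1.1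
  have hmL : ∀ k, AEStronglyMeasurable (Lf k) (volume.restrict Ω) := fun k =>
    (hlf k).cc.smo.continuous.aestronglyMeasurable
  refine ⟨Lf, hlf, e0, ?_, ?_⟩
  · rw [← summable_nat_add_iff 1]
    have hb1 : ∀ k, ‖fo Ω (Lf (k + 1)) - fo Ω (Lf (k + 1 + 1))‖ ≤ 2 * (1 / 2 : ℝ) ^ k := by
      intro k
      refine (fo_diff hm (hlf (k + 1)).cc (hlf (k + 1 + 1)).cc hu (by positivity) (by positivity)
        (hn' k) (hn' (k + 1))).trans ?_
      have : (0 : ℝ) < (1 / 2 : ℝ) ^ k := by positivity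
      rw [pow_succ (1 / 2 : ℝ) (k + 1), pow_succ (1 / 2 : ℝ) k]
      linarith
    refine Summable.of_nonneg_of_le (fun k => norm_nonneg _) hb1 ?_
    exact (summable_geometric_of_lt_one (by norm_num) (by norm_num)).mul_left 2
  · rw [← tendsto_add_atTop_iff_nat 1]
    refine tendsto_of_tendsto_of_tendsto_of_le_of_le tendsto_const_nhds ?_ (fun _ => zero_le) hn'
    have h1 : Tendsto (fun k : ℕ => (1 / 2 : ℝ) ^ (k + 1)) atTop (𝓝 0) :=
      (tendsto_pow_atTop_nhds_zero_of_lt_one (by norm_num) (by norm_num)).comp (tendsto_add_atTop_nat 1)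
    have h2 := ENNReal.tendsto_ofReal h1
    rwa [ENNReal.ofReal_zero] at h2

/-- The time dependent lifting and its time derivative. -/
noncomputable def Lt (τ : ℕ → ℝ) (Lf : ℕ → ℂ → ℂ) (t : ℝ) (x : ℂ) : ℂ := ∑' j, (pu τ j t : ℂ) * Lf j x
noncomputable def Lt' (τ : ℕ → ℝ) (Lf : ℕ → ℂ → ℂ) (t : ℝ) (x : ℂ) : ℂ := ∑' j, (pu' τ j t : ℂ) * Lf j x

section
variable {Ω Γ : Set ℂ} {u₀ : ℂ → ℂ} {Lf : ℕ → ℂ → ℂ} {τ : ℕ → ℝ} {t : ℝ} {k : ℕ}

/-- Proof: `Tms.tsum_pu`. -/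
theorem Lt_seg (h : Tms τ) (ht : t ∈ Icc (τ (k + 1)) (τ k)) :
    Lt τ Lf t = fun x => ((stj τ k t : ℝ) : ℂ) * Lf k x + ((1 - stj τ k t : ℝ) : ℂ) * Lf (k + 1) x := by
  funext x
  have h1 := h.tsum_pu ht (fun j => Lf j x)
  simp only [Complex.real_smul] at h1
  exact h1
theorem Lt'_seg (h : Tms τ) (ht : t ∈ Icc (τ (k + 1)) (τ k)) :
    Lt' τ Lf t = fun x => ((stj' τ k t : ℝ) : ℂ) * Lf k x + ((-stj' τ k t : ℝ) : ℂ) * Lf (k + 1) x := by
  funext x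
  have h1 := h.tsum_pu' ht (fun j => Lf j x)
  simp only [Complex.real_smul] at h1
  refine h1.trans ?_
  push_cast
  ring

theorem Lt_top (h : Tms τ) (hL : Lif Ω Γ u₀ Lf) : Lt τ Lf (τ 0) = fun _ => 0 := by
  rw [Lt_seg h (k := 0) ⟨(h.lt 0).le, le_rfl⟩, (h.stj_one (j := 0) le_rfl).1, hL.z0]
  funext x
  simp

theorem Lt_LF (h : Tms τ) (hL : Lif Ω Γ u₀ Lf) (ht : t ∈ Ioc 0 (τ 0)) : LF Ω Γ (Lt τ Lf t) := by
  obtain ⟨k, hk⟩ : ∃ k, t ∈ Icc (τ (k + 1)) (τ k) := by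
    obtain ⟨k, -, hk⟩ := h.exists_mem (J := 0) ht
    exact ⟨k, hk.1.le, hk.2⟩
  rw [Lt_seg h hk]
  exact LF_lin (hL.lf k) (hL.lf (k + 1)) _ _

end

end Pool.Agent.Lib.MP_79abb3_an.PD
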