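import Pool.Agent.Lib.MP_79abb3_an.PD.PhA

/-!
Theorem D, block P: continuity and derivative of the time dependent lifting.
-/

set_option autoImplicit false
set_option linter.unusedSectionVars false

open MeasureTheory Set Filter Topology Function
open scoped ENNReal InnerProductSpace ComplexConjugate

namespace Pool.Agent.Lib.MP_79abb3_an.PD

open Pool.Agent.Lib.MP_79abb3_an.SC

section
variable {Ω Γ : Set ℂ} {u₀ : ℂ → ℂ} {Lf : ℕ → ℂ → ℂ} {τ : ℕ → ℝ} {t : ℝ} {k : ℕ}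

/-- Continuity on the pieces gives continuity. -/
theorem Tms.cont_seg (h : Tms τ) {X : Type*} [TopologicalSpace X] {f : ℝ → X}
    (hf : ∀ k, ContinuousOn f (Icc (τ (k + 1)) (τ k))) : ContinuousOn f (Ioc 0 (τ 0)) := by
  have h1 : ∀ k, ContinuousOn f (Icc (τ k) (τ 0)) := by
    intro k
    induction k with
    | zero =>
      rw [Icc_self]
      exact continuousOn_singleton f _
    | succ k ih =>
      have h2 : Icc (τ (k + 1)) (τ 0) = Icc (τ (k + 1)) (τ k) ∪ Icc (τ k) (τ 0) :=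
        (Icc_union_Icc_eq_Icc (h.lt k).le (h.anti (Nat.zero_le k))).symm
      rw [h2]
      exact (hf k).union_of_isClosed ih isClosed_Icc isClosed_Icc
  intro x hx
  obtain ⟨K, _, hK⟩ := h.exists_le (half_pos hx.1) 0
  have h2 : τ K < x := hK.trans_lt (half_lt_self hx.1)
  refine (h1 K x ⟨h2.le, hx.2⟩).mono_of_mem_nhdsWithin ?_
  filter_upwards [inter_mem_nhdsWithin (Ioc 0 (τ 0)) (Ioi_mem_nhds h2)] with y hy
  exact ⟨hy.2.le, hy.1.2⟩

private theorem pha2_cont {X : Type*} [NormedAddCommGroup X] [NormedSpace ℂ X] (h : Tms τ)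
    (hL : Lif Ω Γ u₀ Lf) {F : (ℂ → ℂ) → X}
    (hF : ∀ L M : ℂ → ℂ, Cc L → Cc M → ∀ s t : ℝ,
      F (fun x => (s : ℂ) * L x + (t : ℂ) * M x) = (s : ℂ) • F L + (t : ℂ) • F M) :
    ContinuousOn (fun t => F (Lt τ Lf t)) (Ioc 0 (τ 0)) := by
  refine Tms.cont_seg h fun k => ?_
  have h1 : ContinuousOn (fun t => ((stj τ k t : ℝ) : ℂ) • F (Lf k) +
      ((1 - stj τ k t : ℝ) : ℂ) • F (Lf (k + 1))) (Icc (τ (k + 1)) (τ k)) :=
    (((Complex.continuous_ofReal.comp (stj_cont k)).smul continuous_const).add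
      ((Complex.continuous_ofReal.comp (continuous_const.sub (stj_cont k))).smul
        continuous_const)).continuousOn
  refine h1.congr fun t ht => ?_
  show F (Lt τ Lf t) = _
  rw [Lt_seg h ht, hF _ _ (hL.lf k).cc (hL.lf (k + 1)).cc]

private theorem pha2_cont' {X : Type*} [NormedAddCommGroup X] [NormedSpace ℂ X] (h : Tms τ)
    (hL : Lif Ω Γ u₀ Lf) {F : (ℂ → ℂ) → X}
    (hF : ∀ L M : ℂ → ℂ, Cc L → Cc M → ∀ s t : ℝ,
      F (fun x => (s : ℂ) * L x + (t : ℂ) * M x) = (s : ℂ) • F L + (t : ℂ) • F M) :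
    ContinuousOn (fun t => F (Lt' τ Lf t)) (Ioc 0 (τ 0)) := by
  refine Tms.cont_seg h fun k => ?_
  have h1 : ContinuousOn (fun t => ((stj' τ k t : ℝ) : ℂ) • F (Lf k) +
      ((-stj' τ k t : ℝ) : ℂ) • F (Lf (k + 1))) (Icc (τ (k + 1)) (τ k)) :=
    (((Complex.continuous_ofReal.comp (stj'_cont k)).smul continuous_const).add
      ((Complex.continuous_ofReal.comp (stj'_cont k).neg).smul
        continuous_const)).continuousOn
  refine h1.congr fun t ht => ?_
  show F (Lt' τ Lf t) = _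
  rw [Lt'_seg h ht, hF _ _ (hL.lf k).cc (hL.lf (k + 1)).cc]

/-- Proof: `Tms.cont_seg`, `Lt_seg`, `fo_lin`, ... -/
theorem Lt_FCo (hΩ : MeasurableSet Ω) (h : Tms τ) (hL : Lif Ω Γ u₀ Lf) : FCo Ω (Lt τ Lf) (Ioc 0 (τ 0)) := by
  exact ⟨pha2_cont h hL fun _ _ a b s t => fo_lin hΩ a b s t,
    pha2_cont h hL fun _ _ a b s t => fx_lin hΩ a b s t,
    pha2_cont h hL fun _ _ a b s t => fy_lin hΩ a b s t,
    pha2_cont h hL fun _ _ a b s t => fw_lin hΩ a b s t,
    pha2_cont h hL fun _ _ a b s t => f4_lin hΩ a b s t⟩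

/-- The time derivative, in integrated form. Proof: on a piece `fo (Lt t) = s • fo (Lf k) + (1-s) • fo (Lf (k+1))`, derivative of
`s = stj τ k t`; add the pieces between `s` and `t` (or: `HasDerivAt` of the locally finite sum `∑ pu j • fo (Lf j)`). -/
theorem Lt_deriv (hΩ : MeasurableSet Ω) (h : Tms τ) (hL : Lif Ω Γ u₀ Lf) {s t : ℝ} (hs : 0 < s) (hst : s ≤ t)
    (ht : t ≤ τ 0) : fo Ω (Lt τ Lf t) - fo Ω (Lt τ Lf s) = ∫ r in s..t, fo Ω (Lt' τ Lf r) := by
  obtain ⟨K, _, hK⟩ := h.exists_le (half_pos hs) 0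
  have hKs : τ K < s := hK.trans_lt (half_lt_self hs)
  have hmem : ∀ r ∈ Icc s t, ∃ k, k < K ∧ r ∈ Icc (τ (k + 1)) (τ k) := by
    intro r hr
    obtain ⟨k, _, hk⟩ := h.exists_mem (J := 0) (r := r) ⟨hs.trans_le hr.1, hr.2.trans ht⟩
    refine ⟨k, ?_, hk.1.le, hk.2⟩
    by_contra hcon
    have h1 := h.anti (not_lt.1 hcon)
    have h2 := hr.1
    have h3 := hk.2
    linarith
  have hsum : ∀ (c : ℕ → ℝ) (k : ℕ), k < K → (∀ j, j < k → c j = 0) → (∀ j, k + 2 ≤ j → c j = 0) →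
      ∑ j ∈ Finset.range (K + 1), ((c j : ℝ) : ℂ) • fo Ω (Lf j) =
        ((c k : ℝ) : ℂ) • fo Ω (Lf k) + ((c (k + 1) : ℝ) : ℂ) • fo Ω (Lf (k + 1)) := by
    intro c k hk h1 h2
    have h3 : ({k, k + 1} : Finset ℕ) ⊆ Finset.range (K + 1) := by
      intro j hj
      rw [Finset.mem_insert, Finset.mem_singleton] at hj
      rw [Finset.mem_range]
      omega
    rw [← Finset.sum_subset h3, Finset.sum_pair (by omega)]
    intro j _ hj
    rw [Finset.mem_insert, Finset.mem_singleton, not_or] at hj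
    have h4 : c j = 0 := by
      rcases lt_trichotomy j k with h5 | h5 | h5
      · exact h1 j h5
      · exact absurd h5 hj.1
      · exact h2 j (by omega)
    rw [h4, Complex.ofReal_zero, zero_smul]
  have hF : ∀ r ∈ Icc s t, fo Ω (Lt τ Lf r) =
      ∑ j ∈ Finset.range (K + 1), ((pu τ j r : ℝ) : ℂ) • fo Ω (Lf j) := by
    intro r hr
    obtain ⟨k, hk, hrk⟩ := hmem r hr
    rw [hsum (fun j => pu τ j r) k hk (fun j hj => (h.pu_small hrk.2 hj).1)
      (fun j hj => (h.pu_big hrk.1 hj).1), (h.pu_self hrk.2).1, (h.pu_next hrk.1).1,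
      Lt_seg h hrk, fo_lin hΩ (hL.lf k).cc (hL.lf (k + 1)).cc]
  have hG : ∀ r ∈ Icc s t, fo Ω (Lt' τ Lf r) =
      ∑ j ∈ Finset.range (K + 1), ((pu' τ j r : ℝ) : ℂ) • fo Ω (Lf j) := by
    intro r hr
    obtain ⟨k, hk, hrk⟩ := hmem r hr
    rw [hsum (fun j => pu' τ j r) k hk (fun j hj => (h.pu_small hrk.2 hj).2)
      (fun j hj => (h.pu_big hrk.1 hj).2), (h.pu_self hrk.2).2, (h.pu_next hrk.1).2,
      Lt'_seg h hrk, fo_lin hΩ (hL.lf k).cc (hL.lf (k + 1)).cc]
  have hd : ∀ r, HasDerivAt (fun r => ∑ j ∈ Finset.range (K + 1), ((pu τ j r : ℝ) : ℂ) • fo Ω (Lf j))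
      (∑ j ∈ Finset.range (K + 1), ((pu' τ j r : ℝ) : ℂ) • fo Ω (Lf j)) r := by
    intro r
    refine HasDerivAt.fun_sum fun j _ => ?_
    exact (pu_hasDerivAt j r).ofReal_comp.smul_const (fo Ω (Lf j))
  have hc : Continuous fun r => ∑ j ∈ Finset.range (K + 1), ((pu' τ j r : ℝ) : ℂ) • fo Ω (Lf j) := by
    refine continuous_finsetSum _ fun j _ => ?_
    exact (Complex.continuous_ofReal.comp (pu'_cont j)).smul continuous_const
  have h1 : ∫ r in s..t, fo Ω (Lt' τ Lf r) =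
      ∫ r in s..t, ∑ j ∈ Finset.range (K + 1), ((pu' τ j r : ℝ) : ℂ) • fo Ω (Lf j) := by
    refine intervalIntegral.integral_congr fun r hr => ?_
    rw [uIcc_of_le hst] at hr
    exact hG r hr
  rw [h1, intervalIntegral.integral_eq_sub_of_hasDerivAt (fun r _ => hd r)
    (hc.intervalIntegrable _ _), hF t ⟨hst, le_rfl⟩, hF s ⟨le_rfl, hst⟩]

theorem Lt'_cont (hΩ : MeasurableSet Ω) (h : Tms τ) (hL : Lif Ω Γ u₀ Lf) :
    ContinuousOn (fun t => fo Ω (Lt' τ Lf t)) (Ioc 0 (τ 0)) := by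
  exact pha2_cont' h hL fun _ _ a b s t => fo_lin hΩ a b s t

/-- The initial values. Proof: on the piece `k` the distance of `Lt t` to `u₀` is at most the maximum of the distances of
`Lf k`, `Lf (k+1)`. -/
theorem Lt_init (h : Tms τ) (hL : Lif Ω Γ u₀ Lf) (hu : MemLp u₀ 2 (volume.restrict Ω)) :
    Tendsto (fun t => eLpNorm (fun x => u₀ x - Lt τ Lf t x) 2 (volume.restrict Ω)) (𝓝[>] 0) (𝓝 0) := by
  rw [ENNReal.tendsto_nhds_zero]
  intro ε hε
  obtain ⟨K, hK⟩ := eventually_atTop.1 ((ENNReal.tendsto_nhds_zero.1 hL.li) ε hε)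
  filter_upwards [Ioo_mem_nhdsGT (h.pos K)] with t ht
  obtain ⟨k, hk, htk⟩ := h.exists_mem (J := K) (r := t) ⟨ht.1, ht.2.le⟩
  have htk' : t ∈ Icc (τ (k + 1)) (τ k) := ⟨htk.1.le, htk.2⟩
  have hm : ∀ j, AEStronglyMeasurable (fun x => u₀ x - Lf j x) (volume.restrict Ω) := fun j =>
    hu.1.sub (hL.lf j).cc.smo.continuous.aestronglyMeasurable
  obtain ⟨h0, h1⟩ := stj_mem (τ := τ) k t
  set c := stj τ k t with hc
  have e1 : (fun x => u₀ x - Lt τ Lf t x) =
      (fun x => c • (u₀ x - Lf k x)) + fun x => (1 - c) • (u₀ x - Lf (k + 1) x) := by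
    funext x
    rw [Lt_seg h htk', Pi.add_apply, Complex.real_smul, Complex.real_smul, ← hc]
    push_cast
    ring
  rw [e1]
  refine (eLpNorm_add_le ((hm k).const_smul c) ((hm (k + 1)).const_smul (1 - c))
    (by norm_num)).trans ?_
  have e2 : eLpNorm (c • fun x => u₀ x - Lf k x) 2 (volume.restrict Ω) =
      ENNReal.ofReal c * eLpNorm (fun x => u₀ x - Lf k x) 2 (volume.restrict Ω) := by
    have := eLpNorm_const_smul c (fun x => u₀ x - Lf k x) 2 (volume.restrict Ω)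
    rw [Real.enorm_of_nonneg h0] at this
    exact this
  have e3 : eLpNorm ((1 - c) • fun x => u₀ x - Lf (k + 1) x) 2 (volume.restrict Ω) =
      ENNReal.ofReal (1 - c) * eLpNorm (fun x => u₀ x - Lf (k + 1) x) 2 (volume.restrict Ω) := by
    have := eLpNorm_const_smul (1 - c) (fun x => u₀ x - Lf (k + 1) x) 2 (volume.restrict Ω)
    rw [Real.enorm_of_nonneg (by linarith)] at this
    exact this
  rw [e2, e3]
  calc ENNReal.ofReal c * eLpNorm (fun x => u₀ x - Lf k x) 2 (volume.restrict Ω) +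
        ENNReal.ofReal (1 - c) * eLpNorm (fun x => u₀ x - Lf (k + 1) x) 2 (volume.restrict Ω) ≤
      ENNReal.ofReal c * ε + ENNReal.ofReal (1 - c) * ε := by
        gcongr
        · exact hK k hk
        · exact hK (k + 1) (by omega)
    _ = ε := by
        rw [← add_mul, ← ENNReal.ofReal_add h0 (by linarith), add_sub_cancel, ENNReal.ofReal_one,
          one_mul]

end

end Pool.Agent.Lib.MP_79abb3_an.PD
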