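import Pool.Agent.Lib.MP_79abb3_an.PD.PhA2
import Pool.Agent.Lib.MP_79abb3_an.PD.AbNdc

/-!
Theorem D, block P: the forces of the flow which starts from the initial datum.
-/

set_option autoImplicit false
set_option linter.unusedSectionVars false

open MeasureTheory Set Filter Topology Function
open scoped ENNReal InnerProductSpace ComplexConjugate

namespace Pool.Agent.Lib.MP_79abb3_an.PD

open Pool.Agent.Lib.MP_79abb3_an.SC

section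
variable (D Ω : Set ℂ) (τ : ℕ → ℝ) (Lf : ℕ → ℂ → ℂ)

/-- the force -/
noncomputable def fP (t : ℝ) : XD D :=
  PX D (fl Ω (Lt τ Lf t) - fo Ω (Lt' τ Lf t) + qf Ω (Lt τ Lf t))

/-- the linear term -/
noncomputable def BP (t : ℝ) : XD D →L[ℂ] XD D :=
  ((PX D).comp (bf Ω (Lt τ Lf t) D)).comp (Qv (iot D))

end

section
variable {D Ω Γ : Set ℂ} {u₀ : ℂ → ℂ} {Lf : ℕ → ℂ → ℂ} {τ : ℕ → ℝ}

private theorem phb_lin {V : Type*} [NormedAddCommGroup V] [NormedSpace ℂ V] (A B : V) {s : ℝ}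
    (h0 : 0 ≤ s) (h1 : s ≤ 1) : ‖(s : ℂ) • A + ((1 - s : ℝ) : ℂ) • B‖ ≤ ‖A‖ + ‖B‖ := by
  refine (norm_add_le _ _).trans ?_
  rw [norm_smul, norm_smul, Complex.norm_real, Complex.norm_real, Real.norm_of_nonneg h0,
    Real.norm_of_nonneg (sub_nonneg.2 h1)]
  have hA := norm_nonneg A
  have hB := norm_nonneg B
  nlinarith

private theorem phb_sq {V : Type*} [NormedAddCommGroup V] [NormedSpace ℂ V] (A B : V) {s : ℝ}
    (h0 : 0 ≤ s) (h1 : s ≤ 1) :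
    ‖(s : ℂ) • A + ((1 - s : ℝ) : ℂ) • B‖ ^ 2 ≤ (‖A‖ + ‖B‖) ^ 2 :=
  pow_le_pow_left₀ (norm_nonneg _) (phb_lin A B h0 h1) 2

private theorem phb_quad {V : Type*} [NormedAddCommGroup V] [NormedSpace ℂ V] (A B X : V) {s : ℝ}
    (h0 : 0 ≤ s) (h1 : s ≤ 1) : ‖((s : ℂ) ^ 2) • A + (((1 - s : ℝ) : ℂ) ^ 2) • B +
      ((s : ℂ) * ((1 - s : ℝ) : ℂ)) • X‖ ≤ ‖A‖ + ‖B‖ + ‖X‖ := by
  have h2 : 0 ≤ 1 - s := sub_nonneg.2 h1
  refine (norm_add_le _ _).trans (add_le_add ((norm_add_le _ _).trans (add_le_add ?_ ?_)) ?_)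
  · rw [norm_smul, norm_pow, Complex.norm_real, Real.norm_of_nonneg h0]
    have : s ^ 2 ≤ 1 := by nlinarith
    nlinarith [norm_nonneg A]
  · rw [norm_smul, norm_pow, Complex.norm_real, Real.norm_of_nonneg h2]
    have : (1 - s) ^ 2 ≤ 1 := by nlinarith
    nlinarith [norm_nonneg B]
  · rw [norm_smul, norm_mul, Complex.norm_real, Complex.norm_real, Real.norm_of_nonneg h0,
      Real.norm_of_nonneg h2]
    have : s * (1 - s) ≤ 1 := by nlinarith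
    nlinarith [norm_nonneg X]

/-- Bounds on a piece: constants which depend on `Lf k`, `Lf (k+1)` only. Proof: `fl_lin`, `qf_seg`, `fx_lin`, `fy_lin`,
`bf_lin` with `s ∈ [0,1]`. -/
theorem exists_al (D : Set ℂ) (hΩ : MeasurableSet Ω) {L M : ℂ → ℂ} (hL : Cc L) (hM : Cc M) :
    ∃ α : ℝ, 0 ≤ α ∧ ∀ s : ℝ, 0 ≤ s → s ≤ 1 →
      ‖fl Ω (fun x => (s : ℂ) * L x + ((1 - s : ℝ) : ℂ) * M x)‖ +
        ‖qf Ω (fun x => (s : ℂ) * L x + ((1 - s : ℝ) : ℂ) * M x)‖ ≤ α ∧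
      ‖bf Ω (fun x => (s : ℂ) * L x + ((1 - s : ℝ) : ℂ) * M x) D‖ ^ 2 ≤ α ∧
      ‖fx Ω (fun x => (s : ℂ) * L x + ((1 - s : ℝ) : ℂ) * M x)‖ ^ 2 +
        ‖fy Ω (fun x => (s : ℂ) * L x + ((1 - s : ℝ) : ℂ) * M x)‖ ^ 2 ≤ α := by
  obtain ⟨X, hX⟩ := qf_seg hΩ hL hM
  have k1 : 0 ≤ (‖fl Ω L‖ + ‖fl Ω M‖) + (‖qf Ω L‖ + ‖qf Ω M‖ + ‖X‖) := by positivity
  have k2 : 0 ≤ (‖bf Ω L D‖ + ‖bf Ω M D‖) ^ 2 := by positivity
  have k3 : 0 ≤ (‖fx Ω L‖ + ‖fx Ω M‖) ^ 2 := by positivity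
  have k4 : 0 ≤ (‖fy Ω L‖ + ‖fy Ω M‖) ^ 2 := by positivity
  refine ⟨((‖fl Ω L‖ + ‖fl Ω M‖) + (‖qf Ω L‖ + ‖qf Ω M‖ + ‖X‖)) + (‖bf Ω L D‖ + ‖bf Ω M D‖) ^ 2 +
    (‖fx Ω L‖ + ‖fx Ω M‖) ^ 2 + (‖fy Ω L‖ + ‖fy Ω M‖) ^ 2, by positivity, fun s h0 h1 => ?_⟩
  rw [fl_lin hΩ hL hM, hX, bf_lin D hΩ hL hM, fx_lin hΩ hL hM, fy_lin hΩ hL hM]
  have e1 := phb_lin (fl Ω L) (fl Ω M) h0 h1
  have e2 := phb_quad (qf Ω L) (qf Ω M) X h0 h1
  have e3 := phb_sq (bf Ω L D) (bf Ω M D) h0 h1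
  have e4 := phb_sq (fx Ω L) (fx Ω M) h0 h1
  have e5 := phb_sq (fy Ω L) (fy Ω M) h0 h1
  refine ⟨?_, ?_, ?_⟩
  · linarith
  · linarith
  · linarith

/-- Continuity of the forces. Proof: `Tms.cont_seg`, linearity on the pieces. -/
theorem fP_cont (hΩ : MeasurableSet Ω) (h : Tms τ) (hL : Lif Ω Γ u₀ Lf) : ContinuousOn (fP D Ω τ Lf) (Ioc 0 (τ 0)) := by
  refine Tms.cont_seg h fun k => ?_
  obtain ⟨X, hX⟩ := qf_seg hΩ (hL.lf k).cc (hL.lf (k + 1)).cc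
  have c1 : Continuous fun t => ((stj τ k t : ℝ) : ℂ) := Complex.continuous_ofReal.comp (stj_cont k)
  have c2 : Continuous fun t => ((1 - stj τ k t : ℝ) : ℂ) :=
    Complex.continuous_ofReal.comp (continuous_const.sub (stj_cont k))
  have c3 : Continuous fun t => ((stj' τ k t : ℝ) : ℂ) := Complex.continuous_ofReal.comp (stj'_cont k)
  have c4 : Continuous fun t => ((-stj' τ k t : ℝ) : ℂ) :=
    Complex.continuous_ofReal.comp (stj'_cont k).neg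
  have hc : Continuous fun t => PX D ((((stj τ k t : ℝ) : ℂ) • fl Ω (Lf k) +
        ((1 - stj τ k t : ℝ) : ℂ) • fl Ω (Lf (k + 1))) -
      (((stj' τ k t : ℝ) : ℂ) • fo Ω (Lf k) + ((-stj' τ k t : ℝ) : ℂ) • fo Ω (Lf (k + 1))) +
      ((((stj τ k t : ℝ) : ℂ) ^ 2) • qf Ω (Lf k) + (((1 - stj τ k t : ℝ) : ℂ) ^ 2) • qf Ω (Lf (k + 1)) +
        (((stj τ k t : ℝ) : ℂ) * ((1 - stj τ k t : ℝ) : ℂ)) • X)) := by
    refine (PX D).continuous.comp ?_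
    exact (((c1.smul continuous_const).add (c2.smul continuous_const)).sub
      ((c3.smul continuous_const).add (c4.smul continuous_const))).add
      ((((c1.pow 2).smul continuous_const).add ((c2.pow 2).smul continuous_const)).add
        ((c1.mul c2).smul continuous_const))
  refine hc.continuousOn.congr fun t ht => ?_
  unfold fP
  rw [Lt_seg h ht, Lt'_seg h ht, fl_lin hΩ (hL.lf k).cc (hL.lf (k + 1)).cc, hX,
    fo_lin hΩ (hL.lf k).cc (hL.lf (k + 1)).cc]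

theorem BP_cont (hΩ : MeasurableSet Ω) (h : Tms τ) (hL : Lif Ω Γ u₀ Lf) : ContinuousOn (BP D Ω τ Lf) (Ioc 0 (τ 0)) := by
  refine Tms.cont_seg h fun k => ?_
  have c1 : Continuous fun t => ((stj τ k t : ℝ) : ℂ) := Complex.continuous_ofReal.comp (stj_cont k)
  have c2 : Continuous fun t => ((1 - stj τ k t : ℝ) : ℂ) :=
    Complex.continuous_ofReal.comp (continuous_const.sub (stj_cont k))
  have hc : Continuous fun t => ((PX D).comp (((stj τ k t : ℝ) : ℂ) • bf Ω (Lf k) D +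
      ((1 - stj τ k t : ℝ) : ℂ) • bf Ω (Lf (k + 1)) D)).comp (Qv (iot D)) :=
    (continuous_const.clm_comp
      ((c1.smul continuous_const).add (c2.smul continuous_const))).clm_comp continuous_const
  refine hc.continuousOn.congr fun t ht => ?_
  unfold BP
  rw [Lt_seg h ht, bf_lin D hΩ (hL.lf k).cc (hL.lf (k + 1)).cc]

end

end Pool.Agent.Lib.MP_79abb3_an.PD
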