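import Pool.Agent.Lib.MP_79abb3_an.PD.PhB

/-!
Theorem D, block P: choice of the times.
-/

set_option autoImplicit false
set_option linter.unusedSectionVars false

open MeasureTheory Set Filter Topology Function
open scoped ENNReal InnerProductSpace ComplexConjugate

namespace Pool.Agent.Lib.MP_79abb3_an.PD

open Pool.Agent.Lib.MP_79abb3_an.SC

section
variable {D Ω Γ : Set ℂ} {u₀ : ℂ → ℂ} {Lf : ℕ → ℂ → ℂ} {τ : ℕ → ℝ}

private theorem phb2_PX (D : Set ℂ) (y : Y2) : ‖PX D y‖ ≤ ‖y‖ := by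
  have h1 : ‖PX D y‖ ^ 2 = RCLike.re ⟪((PX D y : XD D) : Y2), y⟫_ℂ :=
    (inner_self_eq_norm_sq (𝕜 := ℂ) (PX D y)).symm.trans
      (congrArg RCLike.re (inner_PX (PX D y) y))
  have h2 : RCLike.re ⟪((PX D y : XD D) : Y2), y⟫_ℂ ≤ ‖((PX D y : XD D) : Y2)‖ * ‖y‖ :=
    re_inner_le_norm (𝕜 := ℂ) _ _
  have h3 : ‖((PX D y : XD D) : Y2)‖ = ‖PX D y‖ := rfl
  rw [h3] at h2
  rcases (norm_nonneg (PX D y)).eq_or_lt with h0 | h0
  · rw [← h0]; exact norm_nonneg y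
  · nlinarith

private theorem phb2_comp {V W X Z : Type*} [NormedAddCommGroup V] [NormedSpace ℂ V]
    [NormedAddCommGroup W] [NormedSpace ℂ W] [NormedAddCommGroup X] [NormedSpace ℂ X]
    [NormedAddCommGroup Z] [NormedSpace ℂ Z] {A : X →L[ℂ] Z} {B : W →L[ℂ] X} {C : V →L[ℂ] W}
    (hA : ∀ x, ‖A x‖ ≤ ‖x‖) (hC : ∀ x, ‖C x‖ = ‖x‖) : ‖(A.comp B).comp C‖ ≤ ‖B‖ := by
  refine ContinuousLinearMap.opNorm_le_bound _ (norm_nonneg _) fun x => ?_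
  have h1 := B.le_opNorm (C x)
  rw [hC] at h1
  exact (hA _).trans h1

private theorem phb2_sq {V W : Type*} [NormedAddCommGroup V] [NormedSpace ℂ V]
    [NormedAddCommGroup W] [NormedSpace ℂ W] {A : V →L[ℂ] W} {a b : ℝ} (h : ‖A‖ ≤ a)
    (h2 : a ^ 2 ≤ b) : ‖A‖ ^ 2 ≤ b :=
  (pow_le_pow_left₀ (norm_nonneg _) h 2).trans h2

private theorem phb2_Br (hD : Bornology.IsBounded D) (hΩ : MeasurableSet Ω) {L : ℂ → ℂ} (hL : Cc L)
    (x : XD D) : cXD D (((PX D).comp (bf Ω L D)).comp (Qv (iot D)) x) =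
      ((PX D).comp (bf Ω L D)).comp (Qv (iot D)) (cXD D x) := by
  have e1 : cXD D (PX D (bf Ω L D (Qv (iot D) x))) = PX D (cYy (bf Ω L D (Qv (iot D) x))) :=
    PX_conj _
  have e2 := bf_real hD hΩ hL (Qv (iot D) x)
  have e3 := (FCj_D hD).Qv (fdom hD) x
  have e4 : cXD D (PX D (bf Ω L D (Qv (iot D) x))) = PX D (bf Ω L D (Qv (iot D) (cXD D x))) := by
    rw [e1, e2]
    exact congrArg (fun v : VD D => PX D (bf Ω L D v)) e3
  exact e4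

/-- integrability at `0` from bounds on the pieces -/
private theorem phb2_int (h : Tms τ) {f : ℝ → ℝ} {w : ℕ → ℝ} (hw : Summable w) (hw0 : ∀ k, 0 ≤ w k)
    (hf : ContinuousOn f (Ioc 0 (τ 0))) (hf0 : ∀ r, 0 ≤ f r)
    (hb : ∀ k, ∀ r ∈ Icc (τ (k + 1)) (τ k), f r ≤ w k / τ k) : IntegrableOn f (Ioc 0 (τ 0)) := by
  have hτ := h.pos 0
  have hseq : Tendsto (fun n : ℕ => τ 0 / ((n : ℝ) + 2)) atTop (𝓝 0) := by
    apply Tendsto.div_atTop tendsto_const_nhds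
    exact tendsto_atTop_add_const_right _ _ tendsto_natCast_atTop_atTop
  have hpos : ∀ n : ℕ, 0 < τ 0 / ((n : ℝ) + 2) := fun n => by positivity
  have hle : ∀ n : ℕ, τ 0 / ((n : ℝ) + 2) ≤ τ 0 := fun n => by
    apply div_le_self hτ.le
    have : (0 : ℝ) ≤ n := Nat.cast_nonneg n
    linarith
  have hfI : ∀ a ∈ Ioc 0 (τ 0), ContinuousOn f (Icc a (τ 0)) := fun a ha =>
    hf.mono fun t ht => ⟨ha.1.trans_le ht.1, ht.2⟩
  refine integrableOn_Ioc_of_intervalIntegral_norm_bounded_left (I := ∑' k, w (k + 0))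
    (fun n : ℕ => ((hfI _ ⟨hpos n, hle n⟩).integrableOn_Icc).mono_set Ioc_subset_Icc_self) hseq
    (Eventually.of_forall fun n => ?_)
  have e1 : ∫ t in Ioc (τ 0 / ((n : ℝ) + 2)) (τ 0), ‖f t‖ = ∫ t in (τ 0 / ((n : ℝ) + 2))..τ 0, f t := by
    rw [intervalIntegral.integral_of_le (hle n)]
    refine setIntegral_congr_fun measurableSet_Ioc fun t _ => ?_
    show ‖f t‖ = f t
    rw [Real.norm_of_nonneg (hf0 t)]
  rw [e1]
  exact h.int hw hw0 hfI (fun r _ => hf0 r) hb 0 _ ⟨hpos n, hle n⟩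

private theorem phb2_iB {V W : Type*} [NormedAddCommGroup V] [NormedSpace ℂ V]
    [NormedAddCommGroup W] [NormedSpace ℂ W] (h : Tms τ) {B : ℝ → V →L[ℂ] W} {w : ℕ → ℝ}
    (hw : Summable w) (hw0 : ∀ k, 0 ≤ w k) (hB : ContinuousOn B (Ioc 0 (τ 0)))
    (hb : ∀ k, ∀ r ∈ Icc (τ (k + 1)) (τ k), ‖B r‖ ^ 2 ≤ w k / τ k) :
    IntegrableOn (fun t => ‖B t‖ ^ 2) (Ioc 0 (τ 0)) :=
  phb2_int h hw hw0 (hB.norm.pow 2) (fun r => sq_nonneg _) hb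

/-- **Choice of the times.** Proof: `exists_times` with `ρ_k = min (T'/1) (2^{-k} / (1 + α_k))`, `α_k` from `exists_al` for
`Lf k`, `Lf (k+1)`. `Tms.int` with `w_k = τ_k α_k + C ‖fo (Lf k) - fo (Lf (k+1))‖` (`Tms.stj'_le`, `‖PX‖ ≤ 1`,
`norm_Qv`), integrability on `(0, τ 0]` from the uniform bound of the integrals over `[a, τ 0]`
(`integrableOn_Ioc_of_intervalIntegral_norm_bounded`). Reality: `PX_conj`, `fl_real`, `qf_real`, `fo_real`, `bf_real`,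
`FCj.Qv`. -/
theorem exists_tau (hD : Bornology.IsBounded D) (hΩ : MeasurableSet Ω) (hL : Lif Ω Γ u₀ Lf) {T' : ℝ} (hT : 0 < T') :
    ∃ τ : ℕ → ℝ, Tms τ ∧ τ 0 ≤ T' ∧ St0 (fP D Ω τ Lf) (BP D Ω τ Lf) (τ 0) (cXD D) ∧
      IntegrableOn (fun t => ‖fx Ω (Lt τ Lf t)‖ ^ 2 + ‖fy Ω (Lt τ Lf t)‖ ^ 2) (Ioc 0 (τ 0)) := by
  choose α hα0 hα using fun k => exists_al D hΩ (hL.lf k).cc (hL.lf (k + 1)).cc
  obtain ⟨τ, hτ, hρ⟩ := exists_times (ρ := fun k => min T' ((1 / 2 : ℝ) ^ k / (1 + α k))) (fun k => by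
    have h1 : 0 < 1 + α k := by linarith [hα0 k]
    exact lt_min hT (by positivity))
  obtain ⟨C, hC, hstj⟩ := hτ.stj'_le
  have hτα : ∀ k, τ k * α k ≤ (1 / 2 : ℝ) ^ k := by
    intro k
    have h1 : 0 < 1 + α k := by linarith [hα0 k]
    have h2 : τ k ≤ (1 / 2 : ℝ) ^ k / (1 + α k) := (hρ k).trans (min_le_right _ _)
    have h3 := (le_div_iff₀ h1).1 h2
    have h4 := hτ.pos k
    nlinarith
  have hgeo : Summable fun k : ℕ => (1 / 2 : ℝ) ^ k :=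
    summable_geometric_of_lt_one (by norm_num) (by norm_num)
  -- the weights
  have hw1 : Summable fun k => τ k * α k :=
    Summable.of_nonneg_of_le (fun k => mul_nonneg (hτ.pos k).le (hα0 k)) hτα hgeo
  have hw2 : Summable fun k => τ k * α k + C * ‖fo Ω (Lf k) - fo Ω (Lf (k + 1))‖ :=
    hw1.add (hL.su.mul_left C)
  have hdiv : ∀ k, (τ k * α k) / τ k = α k := fun k => by
    have := (hτ.pos k).ne'
    field_simp
  have hs01 : ∀ k t, 0 ≤ stj τ k t ∧ stj τ k t ≤ 1 := fun k t => stj_mem k t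
  -- bounds on the pieces
  have hbf : ∀ k, ∀ r ∈ Icc (τ (k + 1)) (τ k), ‖fP D Ω τ Lf r‖ ≤
      (τ k * α k + C * ‖fo Ω (Lf k) - fo Ω (Lf (k + 1))‖) / τ k := by
    intro k r hr
    have h1 := (hα k (stj τ k r) (hs01 k r).1 (hs01 k r).2).1
    have e1 : fo Ω (Lt' τ Lf r) = ((stj' τ k r : ℝ) : ℂ) • (fo Ω (Lf k) - fo Ω (Lf (k + 1))) := by
      rw [Lt'_seg hτ hr, fo_lin hΩ (hL.lf k).cc (hL.lf (k + 1)).cc, smul_sub]
      push_cast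
      rw [neg_smul, sub_eq_add_neg]
    have h2 : ‖fo Ω (Lt' τ Lf r)‖ ≤ C / τ k * ‖fo Ω (Lf k) - fo Ω (Lf (k + 1))‖ := by
      rw [e1, norm_smul, Complex.norm_real, Real.norm_eq_abs]
      exact mul_le_mul_of_nonneg_right (hstj k r) (norm_nonneg _)
    have h3 : ‖fP D Ω τ Lf r‖ ≤ ‖fl Ω (Lt τ Lf r)‖ + ‖fo Ω (Lt' τ Lf r)‖ + ‖qf Ω (Lt τ Lf r)‖ := by
      unfold fP
      exact (phb2_PX D _).trans ((norm_add_le _ _).trans (add_le_add (norm_sub_le _ _) le_rfl))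
    rw [Lt_seg hτ hr] at h3
    rw [add_div, hdiv, mul_div_right_comm]
    linarith
  have hd := fdom hD
  have hbB : ∀ k, ∀ r ∈ Icc (τ (k + 1)) (τ k), ‖BP D Ω τ Lf r‖ ^ 2 ≤ (τ k * α k) / τ k := by
    intro k r hr
    have h1 := (hα k (stj τ k r) (hs01 k r).1 (hs01 k r).2).2.1
    have h2 : ‖BP D Ω τ Lf r‖ ≤ ‖bf Ω (Lt τ Lf r) D‖ :=
      phb2_comp (fun x => phb2_PX D x) (fun x => hd.norm_Qv x)
    rw [hdiv]
    rw [Lt_seg hτ hr] at h2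
    exact phb2_sq h2 h1
  have hbg : ∀ k, ∀ r ∈ Icc (τ (k + 1)) (τ k), ‖fx Ω (Lt τ Lf r)‖ ^ 2 + ‖fy Ω (Lt τ Lf r)‖ ^ 2 ≤
      (τ k * α k) / τ k := by
    intro k r hr
    rw [hdiv, Lt_seg hτ hr]
    exact (hα k (stj τ k r) (hs01 k r).1 (hs01 k r).2).2.2
  have hw10 : ∀ k, 0 ≤ τ k * α k := fun k => mul_nonneg (hτ.pos k).le (hα0 k)
  have hw20 : ∀ k, 0 ≤ τ k * α k + C * ‖fo Ω (Lf k) - fo Ω (Lf (k + 1))‖ := fun k =>
    add_nonneg (hw10 k) (mul_nonneg hC (norm_nonneg _))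
  have hcf := fP_cont (D := D) hΩ hτ hL
  have hcB := BP_cont (D := D) hΩ hτ hL
  have hco := Lt_FCo hΩ hτ hL
  have hFC := FCj_D hD
  refine ⟨τ, hτ, (hρ 0).trans (min_le_left _ _), ⟨hτ.pos 0, hcf, hcB, ?_, ?_, ?_, ?_⟩, ?_⟩
  · intro t ht
    have hLF := Lt_LF hτ hL ht
    obtain ⟨k, -, hk⟩ := hτ.exists_mem (J := 0) ht
    have hk' : t ∈ Icc (τ (k + 1)) (τ k) := Ioc_subset_Icc_self hk
    have e1 : fo Ω (Lt' τ Lf t) = fo Ω (fun x => ((stj' τ k t : ℝ) : ℂ) * Lf k x +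
        ((-stj' τ k t : ℝ) : ℂ) * Lf (k + 1) x) := by
      rw [Lt'_seg hτ hk']
    have hcc : Cc (fun x => ((stj' τ k t : ℝ) : ℂ) * Lf k x + ((-stj' τ k t : ℝ) : ℂ) * Lf (k + 1) x) :=
      ((hL.lf k).cc.cmul _).add ((hL.lf (k + 1)).cc.cmul _)
    have e2 : cYy (fl Ω (Lt τ Lf t) - fo Ω (Lt' τ Lf t) + qf Ω (Lt τ Lf t)) =
        fl Ω (Lt τ Lf t) - fo Ω (Lt' τ Lf t) + qf Ω (Lt τ Lf t) := by
      rw [e1, map_add, map_sub, fl_real hΩ hLF.cc, qf_real hΩ hLF.cc, fo_real hΩ hcc]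
    exact (PX_conj _).trans (congrArg (PX D) e2)
  · intro t ht x
    have hLF := Lt_LF hτ hL ht
    exact phb2_Br hD hΩ hLF.cc x
  · exact phb2_int hτ hw2 hw20 hcf.norm (fun r => norm_nonneg _) hbf
  · exact phb2_iB hτ hw1 hw10 hcB hbB
  · exact phb2_int hτ hw1 hw10 ((hco.x.norm.pow 2).add (hco.y.norm.pow 2))
      (fun r => by positivity) hbg

end

end Pool.Agent.Lib.MP_79abb3_an.PD
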