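import Pool.Agent.Lib.MP_79abb3_an.PD.SpEa2
import Pool.Agent.Lib.MP_79abb3_an.PD.AbWb

/-!
Theorem D, scalar theory: `XS D = L²(D)`, `SV D = H¹₀(D)` (as the space of the rotated gradients `gp φ`).
-/

set_option autoImplicit false
set_option linter.unusedSectionVars false

open MeasureTheory Set Filter Topology Function
open scoped ENNReal InnerProductSpace ComplexConjugate

namespace Pool.Agent.Lib.MP_79abb3_an.PD

open Pool.Agent.Lib.MP_79abb3_an.SC

/-- The test functions of `D`. -/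
def AdmS (D : Set ℂ) : Submodule ℂ (ℂ → ℂ) where
  carrier := {φ | Cc φ ∧ tsupport φ ⊆ D}
  zero_mem' := by
    refine ⟨⟨contDiff_const, HasCompactSupport.zero⟩, ?_⟩
    rw [tsupport_zero]
    exact empty_subset _
  add_mem' := by
    rintro f g ⟨hf, hf'⟩ ⟨hg, hg'⟩
    exact ⟨hf.add hg, (tsupport_add _ _).trans (union_subset hf' hg')⟩
  smul_mem' := by
    rintro c f ⟨hf, hf'⟩
    exact ⟨hf.cmul c, (tsupport_smul_subset_right (fun _ => c) f).trans hf'⟩

section
variable (D : Set ℂ)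

/-- `φ ↦ φ` with values in `L²` -/
noncomputable def clS : AdmS D →ₗ[ℂ] L2c where
  toFun φ := cl2 φ
  map_add' φ χ := cl2_add (φ.2.1.memLp 2) (χ.2.1.memLp 2)
  map_smul' c φ := cl2_smul c (φ.2.1.memLp 2)

/-- `φ ↦ gp φ` -/
noncomputable def gpS : AdmS D →ₗ[ℂ] Y2 where
  toFun φ := gp φ
  map_add' φ χ := gp_add φ.2.1 χ.2.1
  map_smul' c φ := gp_cmul c φ.2.1

/-- `φ ↦ φ` with values in `L⁴` -/
noncomputable def c4S : AdmS D →ₗ[ℂ] L4c where
  toFun φ := cl4 φ
  map_add' φ χ := cl4_add (φ.2.1.memLp 4) (χ.2.1.memLp 4)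
  map_smul' c φ := cl4_smul c (φ.2.1.memLp 4)

/-- `L²(D)` -/
noncomputable abbrev XS : Submodule ℂ L2c := (LinearMap.range (clS D)).topologicalClosure

/-- `H¹₀(D)` -/
noncomputable abbrev SV : Submodule ℂ Y2 := (LinearMap.range (gpS D)).topologicalClosure

noncomputable def clX : AdmS D →ₗ[ℂ] XS D :=
  (clS D).codRestrict (XS D) fun φ => Submodule.le_topologicalClosure _ (LinearMap.mem_range_self _ φ)

noncomputable def gpV : AdmS D →ₗ[ℂ] SV D :=
  (gpS D).codRestrict (SV D) fun φ => Submodule.le_topologicalClosure _ (LinearMap.mem_range_self _ φ)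

theorem clX_coe (φ : AdmS D) : ((clX D φ : XS D) : L2c) = cl2 φ := rfl
theorem gpV_coe (φ : AdmS D) : ((gpV D φ : SV D) : Y2) = gp φ := rfl

theorem clX_dense : DenseRange (clX D) := by
  intro x
  rw [closure_subtype]
  have h : ((↑) '' range (clX D) : Set L2c) = (LinearMap.range (clS D) : Set L2c) := by
    ext y
    constructor
    · rintro ⟨_, ⟨ψ, rfl⟩, rfl⟩
      exact ⟨ψ, rfl⟩
    · rintro ⟨ψ, rfl⟩
      exact ⟨_, ⟨ψ, rfl⟩, rfl⟩
  rw [h]
  exact x.2
theorem gpV_dense : DenseRange (gpV D) := by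
  intro x
  rw [closure_subtype]
  have h : ((↑) '' range (gpV D) : Set Y2) = (LinearMap.range (gpS D) : Set Y2) := by
    ext y
    constructor
    · rintro ⟨_, ⟨ψ, rfl⟩, rfl⟩
      exact ⟨ψ, rfl⟩
    · rintro ⟨ψ, rfl⟩
      exact ⟨_, ⟨ψ, rfl⟩, rfl⟩
  rw [h]
  exact x.2

/-- `js (gp φ) = φ` -/
noncomputable def js : SV D →L[ℂ] XS D := (clX D).extendOfNorm (gpV D)

/-- `j4 (gp φ) = φ` in `L⁴` -/
noncomputable def j4 : SV D →L[ℂ] L4c := (c4S D).extendOfNorm (gpV D)

private theorem sca_closed (D : Set ℂ) : IsClosed {f : L2c | ∀ᵐ y ∂volume, y ∉ D → f y = 0} := by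
  apply IsSeqClosed.isClosed
  intro f g hf hg
  obtain ⟨ns, -, h⟩ := (tendstoInMeasure_of_tendsto_Lp hg).exists_seq_tendsto_ae
  have h' : ∀ᵐ y ∂(volume : Measure ℂ), ∀ n, y ∉ D → f n y = 0 := ae_all_iff.2 hf
  filter_upwards [h, h'] with y h1 h2 hy
  refine tendsto_nhds_unique h1 ?_
  have e : (fun i => f (ns i) y) = fun _ => 0 := funext fun i => h2 (ns i) hy
  rw [e]
  exact tendsto_const_nhds

private theorem sca_inner {f : ℂ → ℂ} (hf : MemLp f 2 (volume : Measure ℂ)) (u : L2c) :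
    ⟪cl2 f, u⟫_ℂ = ∫ x, u x * (starRingEnd ℂ) (f x) := by
  rw [L2.inner_def]
  refine integral_congr_ae ?_
  filter_upwards [cl2_coe hf] with x hx
  rw [hx, RCLike.inner_apply]

/-- the conjugate of a test function -/
private theorem sca_conj (φ : AdmS D) : (fun x => conj ((φ : ℂ → ℂ) x)) ∈ AdmS D :=
  ⟨φ.2.1.conj, (tsupport_comp_subset (g := fun z : ℂ => conj z) (map_zero _) _).trans φ.2.2⟩

/-- `L²(D)` is the space of the functions which vanish outside `D`. Proof of `←`: cut off by compact subsets of `D`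
and density of `C_c^∞` (`MemLp.exists_contDiff...`, mollification), or orthogonality. Here `D` is open. -/
theorem mem_XS_iff (hO : IsOpen D) (f : L2c) : f ∈ XS D ↔ ∀ᵐ x ∂volume, x ∉ D → (f : ℂ → ℂ) x = 0 := by
  constructor
  · intro hf
    have c1 : Continuous fun v : XS D => (v : L2c) := by fun_prop
    refine isClosed_property (clX_dense D) ((sca_closed D).preimage c1) (fun ψ => ?_) ⟨f, hf⟩
    show ∀ᵐ y ∂volume, y ∉ D → (cl2 ψ : L2c) y = 0
    filter_upwards [cl2_coe (ψ.2.1.memLp 2)] with y h hy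
    rw [h]
    exact image_eq_zero_of_notMem_tsupport fun h' => hy (ψ.2.2 h')
  · intro hf
    show f ∈ (LinearMap.range (clS D)).topologicalClosure
    rw [← Submodule.orthogonal_orthogonal_eq_closure, Submodule.mem_orthogonal]
    intro g hg
    have hz : ∀ φ : AdmS D, ∫ x, (g : ℂ → ℂ) x * φ.1 x = 0 := by
      intro φ
      have h1 := (Submodule.mem_orthogonal _ _).1 hg (clS D ⟨_, sca_conj D φ⟩)
        (LinearMap.mem_range_self _ _)
      have h2 : ⟪cl2 (fun x => conj ((φ : ℂ → ℂ) x)), g⟫_ℂ = 0 := h1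
      rw [sca_inner (φ.2.1.conj.memLp 2)] at h2
      simpa only [Complex.conj_conj] using h2
    have hae : ∀ᵐ x ∂(volume : Measure ℂ), x ∈ D → (g : ℂ → ℂ) x = 0 := by
      refine hO.ae_eq_zero_of_integral_contDiff_smul_eq_zero
        (((Lp.memLp g).locallyIntegrable (by norm_num)).locallyIntegrableOn D) fun η hη hc hs => ?_
      have hG : (fun x => (η x : ℂ)) ∈ AdmS D := by
        refine ⟨⟨Complex.ofRealCLM.contDiff.comp hη, ?_⟩, ?_⟩
        · exact hc.comp_left (g := fun r : ℝ => (r : ℂ)) (by simp)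
        · exact (tsupport_comp_subset (g := fun r : ℝ => (r : ℂ)) (by simp) _).trans hs
      have := hz ⟨_, hG⟩
      rw [← this]
      refine integral_congr_ae (Eventually.of_forall fun x => ?_)
      simp [mul_comm]
    rw [L2.inner_def]
    have e : ∫ x, ⟪(g : ℂ → ℂ) x, (f : ℂ → ℂ) x⟫_ℂ ∂volume = ∫ _x : ℂ, (0 : ℂ) ∂volume := by
      refine integral_congr_ae ?_
      filter_upwards [hf, hae] with x h1 h2
      by_cases hx : x ∈ D
      · rw [h2 hx, inner_zero_left]
      · rw [h1 hx, inner_zero_right]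
    rw [e, integral_zero]

/-- `H¹₀(D)`-gradients are divergence free fields (rotated): `AdmS D ⊆ Adm D`. -/
theorem SV_le_XD : SV D ≤ XD D := by
  apply Submodule.topologicalClosure_mono
  rintro _ ⟨φ, rfl⟩
  exact ⟨⟨φ.1, φ.2.1, (tsupport_fderiv_subset ℝ).trans φ.2.2⟩, rfl⟩

/-- the projection onto `XS D` -/
noncomputable def PS : L2c →L[ℂ] XS D := (XS D).subtypeL.adjoint

theorem inner_PS (x : XS D) (y : L2c) : ⟪x, PS D y⟫_ℂ = ⟪(x : L2c), y⟫_ℂ := by
  unfold PS
  rw [ContinuousLinearMap.adjoint_inner_right]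
  rfl

/-- conjugations -/
theorem cL2_XS (x : XS D) : cL2 (x : L2c) ∈ XS D := by
  have cl : IsClosed {x : XS D | cL2 (x : L2c) ∈ XS D} := by
    have c1 : Continuous fun x : XS D => cL2 (x : L2c) := by fun_prop
    exact (LinearMap.range (clS D)).isClosed_topologicalClosure.preimage c1
  refine isClosed_property (clX_dense D) cl (fun φ => ?_) x
  show cL2 (cl2 φ) ∈ XS D
  rw [cl2_conj (φ.2.1.memLp 2)]
  exact (clX D ⟨_, sca_conj D φ⟩).2
theorem cYy_SV (q : SV D) : cYy (q : Y2) ∈ SV D := by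
  have cl : IsClosed {x : SV D | cYy (x : Y2) ∈ SV D} := by
    have c1 : Continuous fun x : SV D => cYy (x : Y2) := by fun_prop
    exact (LinearMap.range (gpS D)).isClosed_topologicalClosure.preimage c1
  refine isClosed_property (gpV_dense D) cl (fun φ => ?_) q
  show cYy (gp φ) ∈ SV D
  rw [gp_conj φ.2.1]
  exact (gpV D ⟨_, sca_conj D φ⟩).2

noncomputable def cXS : XS D →L[ℝ] XS D :=
  LinearMap.mkContinuous
    { toFun := fun x => ⟨cL2 (x : L2c), cL2_XS D x⟩
      map_add' := fun x y => Subtype.ext (map_add cL2 (x : L2c) (y : L2c))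
      map_smul' := fun c x => Subtype.ext (map_smul cL2 c (x : L2c)) } ‖cL2‖ (fun x => cL2.le_opNorm (x : L2c))

noncomputable def cSV : SV D →L[ℝ] SV D :=
  LinearMap.mkContinuous
    { toFun := fun x => ⟨cYy (x : Y2), cYy_SV D x⟩
      map_add' := fun x y => Subtype.ext (map_add cYy (x : Y2) (y : Y2))
      map_smul' := fun c x => Subtype.ext (map_smul cYy c (x : Y2)) } ‖cYy‖ (fun x => cYy.le_opNorm (x : Y2))

end

end Pool.Agent.Lib.MP_79abb3_an.PD
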