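import Pool.Agent.Lib.MP_79abb3_an.PD.ScC

/-!
Theorem D, scalar theory: the transport term in the negative norm (section 4.4 of the paper D-F).
-/

set_option autoImplicit false
set_option linter.unusedSectionVars false

open MeasureTheory Set Filter Topology Function
open scoped ENNReal InnerProductSpace ComplexConjugate

namespace Pool.Agent.Lib.MP_79abb3_an.PD

open Pool.Agent.Lib.MP_79abb3_an.SC

section
variable {X : Type} [NormedAddCommGroup X] [InnerProductSpace ℂ X] [CompleteSpace X] {a b : ℝ}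

theorem kr_aux (a b c d a' b' c' d' : X) :
    -(a - a') + (b - b') - (c - c') + (d - d') = -a + b - c + d - (-a' + b' - c' + d') := by
  abel

/-- A tested identity from its scalar form. -/
theorem tst_of_tested {K : X →L[ℂ] X} (hK : 0 ≤ K) (hs : ∀ x y, ⟪K x, y⟫_ℂ = ⟪x, K y⟫_ℂ) {o Φ : ℝ → X}
    (ho : ContinuousOn o (Icc a b)) (hΦ : ContinuousOn Φ (Icc a b))
    (h : ∀ φ, ∀ s t, a ≤ s → s ≤ t → t ≤ b → ⟪K φ, o t⟫_ℂ - ⟪K φ, o s⟫_ℂ = ∫ r in s..t, ⟪φ, Φ r⟫_ℂ) :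
    Tst K a b (fun t => Kh K (o t)) Φ where
  cV := (Kh K).continuous.comp_continuousOn ho
  cl := hΦ
  eq s t hs' hst ht := by
    have hc : ContinuousOn Φ (uIcc s t) :=
      hΦ.mono (by rw [uIcc_of_le hst]; exact Icc_subset_Icc hs' ht)
    have hi : IntervalIntegrable Φ volume s t := hc.intervalIntegrable
    refine ext_inner_left ℂ fun φ => ?_
    have e1 : ⟪φ, ∫ r in s..t, Φ r⟫_ℂ = ∫ r in s..t, ⟪φ, Φ r⟫_ℂ :=
      ((innerSL ℂ φ).intervalIntegral_comp_comm hi).symm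
    rw [e1, Kh_Kh hK, Kh_Kh hK, inner_sub_right, ← hs, ← hs, h φ s t hs' hst ht]

theorem tested_sub {K : X →L[ℂ] X} {o Φ o' Φ' Φ'' : ℝ → X}
    (hΦ : ContinuousOn Φ (Icc a b)) (hΦ' : ContinuousOn Φ' (Icc a b))
    (h : ∀ φ, ∀ s t, a ≤ s → s ≤ t → t ≤ b → ⟪K φ, o t⟫_ℂ - ⟪K φ, o s⟫_ℂ = ∫ r in s..t, ⟪φ, Φ r⟫_ℂ)
    (h' : ∀ φ, ∀ s t, a ≤ s → s ≤ t → t ≤ b → ⟪K φ, o' t⟫_ℂ - ⟪K φ, o' s⟫_ℂ = ∫ r in s..t, ⟪φ, Φ' r⟫_ℂ)
    (he : ∀ r, Φ'' r = Φ r - Φ' r) (φ : X) (s t : ℝ) (hs' : a ≤ s) (hst : s ≤ t) (ht : t ≤ b) :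
    ⟪K φ, o t - o' t⟫_ℂ - ⟪K φ, o s - o' s⟫_ℂ = ∫ r in s..t, ⟪φ, Φ'' r⟫_ℂ := by
  have hsub : uIcc s t ⊆ Icc a b := by rw [uIcc_of_le hst]; exact Icc_subset_Icc hs' ht
  have i1 : IntervalIntegrable (fun r => ⟪φ, Φ r⟫_ℂ) volume s t :=
    ((continuousOn_const.inner hΦ).mono hsub).intervalIntegrable
  have i2 : IntervalIntegrable (fun r => ⟪φ, Φ' r⟫_ℂ) volume s t :=
    ((continuousOn_const.inner hΦ').mono hsub).intervalIntegrable
  simp only [he, inner_sub_right]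
  rw [intervalIntegral.integral_sub i1 i2, ← h φ s t hs' hst ht, ← h' φ s t hs' hst ht]
  ring

end

section
variable {X V Z P : Type} [NormedAddCommGroup X] [InnerProductSpace ℂ X] [CompleteSpace X]
  [NormedAddCommGroup V] [InnerProductSpace ℂ V] [CompleteSpace V] [NormedAddCommGroup Z] [NormedSpace ℂ Z]
  [NormedAddCommGroup P] [NormedSpace ℂ P] {ι : V →L[ℂ] X} {j : V →L[ℂ] Z}

/-- Extension of a form `T v q (j (ι† φ))` which is bounded by `|ι q|`. -/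
theorem exists_KB_abs (hd : FDom ι) (T : P → V →L[ℂ] Yd Z) (hTa : ∀ v v', T (v + v') = T v + T v')
    (hTs : ∀ (a : ℂ) v, T (a • v) = a • T v) {w : X → ℝ} {C c : ℝ} (hC : 0 ≤ C) (hc : 0 ≤ c)
    (hw : ∀ φ, w φ ≤ c * ‖φ‖) (h : ∀ v q φ, ‖T v q (j (ContinuousLinearMap.adjoint ι φ))‖ ≤ C * ‖v‖ * ‖ι q‖ * w φ) :
    ∃ B : P →L[ℂ] X →L[ℂ] X,
      (∀ v q φ, ⟪φ, B v (ι q)⟫_ℂ = T v q (j (ContinuousLinearMap.adjoint ι φ))) ∧
      ∀ v o φ, ‖⟪φ, B v o⟫_ℂ‖ ≤ C * ‖v‖ * ‖o‖ * w φ := by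
  let R0 : P → V →L[ℂ] X := fun v => (Kh (KF ι)).comp ((J3 ι j).comp (T v))
  have hR0 : ∀ v q φ, ⟪φ, R0 v q⟫_ℂ = T v q (j (ContinuousLinearMap.adjoint ι φ)) := by
    intro v q φ
    show ⟪φ, Kh (KF ι) (J3 ι j (T v q))⟫_ℂ = _
    rw [← Kh_inner, inner_J3, hd.Qv_Kh]
  have hR0n : ∀ v q, ‖R0 v q‖ ≤ C * c * ‖v‖ * ‖ι q‖ := by
    intro v q
    rcases eq_or_ne (R0 v q) 0 with h0 | h0
    · rw [h0, norm_zero]; positivity
    · have h1 : ‖R0 v q‖ * ‖R0 v q‖ ≤ C * ‖v‖ * ‖ι q‖ * (c * ‖R0 v q‖) := by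
        have h2 := h v q (R0 v q)
        rw [← hR0] at h2
        have h3 : ‖⟪R0 v q, R0 v q⟫_ℂ‖ = ‖R0 v q‖ * ‖R0 v q‖ := by
          rw [inner_self_eq_norm_sq_to_K]; simp [pow_two]
        rw [h3] at h2
        exact h2.trans (mul_le_mul_of_nonneg_left (hw _) (by positivity))
      have h5 : 0 < ‖R0 v q‖ := norm_pos_iff.2 h0
      have h6 : ‖R0 v q‖ * ‖R0 v q‖ ≤ (C * c * ‖v‖ * ‖ι q‖) * ‖R0 v q‖ := by
        refine h1.trans (le_of_eq ?_); ring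
      exact le_of_mul_le_mul_right h6 h5
  let B0 : P → X →L[ℂ] X := fun v =>
    ((R0 v : V →L[ℂ] X) : V →ₗ[ℂ] X).extendOfNorm (ι : V →ₗ[ℂ] X)
  have hB0 : ∀ v q, B0 v (ι q) = R0 v q := by
    intro v q
    exact LinearMap.extendOfNorm_eq (f := ((R0 v : V →L[ℂ] X) : V →ₗ[ℂ] X))
      (e := (ι : V →ₗ[ℂ] X)) hd.dense ⟨C * c * ‖v‖, fun x => hR0n v x⟩ q
  have ext : ∀ {f g : X →L[ℂ] X}, (∀ q, f (ι q) = g (ι q)) → f = g := by
    intro f g h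
    ext x
    refine hd.dense.induction (P := fun x => f x = g x) ?_ (isClosed_eq (by fun_prop) (by fun_prop)) x
    rintro _ ⟨q, rfl⟩
    exact h q
  have hadd : ∀ v v' q, R0 (v + v') q = R0 v q + R0 v' q := by
    intro v v' q
    refine ext_inner_left ℂ fun φ => ?_
    rw [inner_add_right, hR0, hR0, hR0, hTa]
    rfl
  have hsmul : ∀ (a : ℂ) v q, R0 (a • v) q = a • R0 v q := by
    intro a v q
    refine ext_inner_left ℂ fun φ => ?_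
    rw [inner_smul_right, hR0, hR0, hTs]
    rfl
  have hB0n : ∀ v, ‖B0 v‖ ≤ C * c * ‖v‖ := by
    intro v
    refine ContinuousLinearMap.opNorm_le_bound _ (by positivity) fun x => ?_
    refine hd.dense.induction (P := fun x => ‖B0 v x‖ ≤ C * c * ‖v‖ * ‖x‖) ?_
      (isClosed_le (by fun_prop) (by fun_prop)) x
    rintro _ ⟨q, rfl⟩
    rw [hB0]
    exact hR0n v q
  let B : P →L[ℂ] X →L[ℂ] X := LinearMap.mkContinuous
    { toFun := B0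
      map_add' := fun v v' => ext fun q => by
        rw [hB0, hadd]
        show R0 v q + R0 v' q = B0 v (ι q) + B0 v' (ι q)
        rw [hB0, hB0]
      map_smul' := fun a v => ext fun q => by
        rw [hB0, hsmul]
        show a • R0 v q = a • B0 v (ι q)
        rw [hB0] } (C * c) hB0n
  have hB : ∀ v q, B v (ι q) = R0 v q := hB0
  refine ⟨B, fun v q φ => by rw [hB, hR0], fun v o φ => ?_⟩
  have k1 : Continuous fun o => ‖⟪φ, B v o⟫_ℂ‖ := (continuous_const.inner (B v).continuous).norm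
  refine hd.dense.induction (P := fun o => ‖⟪φ, B v o⟫_ℂ‖ ≤ C * ‖v‖ * ‖o‖ * w φ) ?_
    (isClosed_le k1 (by fun_prop)) o
  rintro _ ⟨q, rfl⟩
  rw [hB, hR0]
  exact h v q φ

end

section
variable (D : Set ℂ)

/-- `js†` -/
noncomputable def jsA : XS D →L[ℂ] SV D := ContinuousLinearMap.adjoint (js D)

/-- `K = js js†`, the inverse of the Dirichlet Laplacian -/
noncomputable abbrev KS : XS D →L[ℂ] XS D := KF (js D)

end

section
variable {D : Set ℂ}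

theorem jsA_def (φ : XS D) : jsA D φ = ContinuousLinearMap.adjoint (js D) φ := rfl

theorem KS_apply (φ : XS D) : KS D φ = js D (jsA D φ) := rfl

theorem inner_jsA (x : XS D) (w : SV D) : ⟪jsA D x, w⟫_ℂ = ⟪x, js D w⟫_ℂ :=
  ContinuousLinearMap.adjoint_inner_left _ _ _

theorem inner_jsA' (x : XS D) (w : SV D) : ⟪w, jsA D x⟫_ℂ = ⟪js D w, x⟫_ℂ :=
  ContinuousLinearMap.adjoint_inner_right _ _ _

theorem KS_inner (x y : XS D) : ⟪KS D x, y⟫_ℂ = ⟪jsA D x, jsA D y⟫_ℂ := KF_inner _ _ _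

theorem KS_symm (x y : XS D) : ⟪KS D x, y⟫_ℂ = ⟪x, KS D y⟫_ℂ := by
  rw [KS_inner, inner_jsA, KS_apply]

/-- the weight `|js† φ|^{1/4} (|φ| + |js† φ|)^{3/4}` -/
noncomputable def wR (x y : ℝ) : ℝ := y ^ (1 / 4 : ℝ) * (x + y) ^ (3 / 4 : ℝ)

/-- **Regularity of the Dirichlet problem in the form used here**: `|∫ (u·∇ conj θ) o| ≤ C |v| |o| |js† φ|^{1/4} (|φ| + |js† φ|)^{3/4}`
for `θ = K_S φ`, `u = iot v`, `o = js q`. -/
def RegT (D : Set ℂ) (C : ℝ) : Prop := 0 ≤ C ∧ ∀ (v : VD D) (q : SV D) (φ : XS D),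
  ‖TR (jj D v) (q : Y2) (j4 D (jsA D φ))‖ ≤ C * ‖v‖ * ‖js D q‖ * wR ‖φ‖ ‖jsA D φ‖

/-- The transport term `⟪φ, B v o⟫ = ∫ (u·∇ conj (K_S φ)) o`. -/
structure IsKB (D : Set ℂ) (C : ℝ) (B : VD D →L[ℂ] XS D →L[ℂ] XS D) : Prop where
  C0 : 0 ≤ C
  tr : ∀ (v : VD D) (q : SV D) (φ : XS D), ⟪φ, B v (js D q)⟫_ℂ = TR (jj D v) (q : Y2) (j4 D (jsA D φ))
  bd : ∀ (v : VD D) (o φ : XS D), ‖⟪φ, B v o⟫_ℂ‖ ≤ C * ‖v‖ * ‖o‖ * wR ‖φ‖ ‖jsA D φ‖

theorem wR_nonneg {x y : ℝ} (hx : 0 ≤ x) (hy : 0 ≤ y) : 0 ≤ wR x y := by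
  unfold wR; positivity

theorem wR_le {x y c : ℝ} (hx : 0 ≤ x) (hy : 0 ≤ y) (hc : 0 ≤ c) (h : y ≤ c * x) :
    wR x y ≤ (1 + c) * x := by
  have h1 : y ≤ (1 + c) * x := by linarith
  have h2 : x + y ≤ (1 + c) * x := by linarith
  have h3 : 0 ≤ (1 + c) * x := by positivity
  unfold wR
  calc y ^ (1 / 4 : ℝ) * (x + y) ^ (3 / 4 : ℝ) ≤ ((1 + c) * x) ^ (1 / 4 : ℝ) * ((1 + c) * x) ^ (3 / 4 : ℝ) := by
        gcongr
    _ = (1 + c) * x := by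
        rw [← Real.rpow_add' h3 (by norm_num)]
        norm_num

variable (hD : Bornology.IsBounded D)
include hD

private theorem js_dense : DenseRange (js D) := (fdomS hD).dense

/-- The operator of the transport term: `R v q = K^{1/2} J3 (TR (jj v) q)`, extended along `js`. -/
theorem exists_KB {C : ℝ} (hR : RegT D C) : ∃ B, IsKB D C B := by
  obtain ⟨c, hc0, hc⟩ : ∃ c, 0 ≤ c ∧ ∀ φ : XS D, ‖jsA D φ‖ ≤ c * ‖φ‖ :=
    ⟨‖jsA D‖, norm_nonneg (jsA D), fun φ => (jsA D).le_opNorm φ⟩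
  obtain ⟨B, h1, h2⟩ := exists_KB_abs (fdomS hD) (j := j4 D)
    (fun v : VD D => (TR (jj D v)).comp (SV D).subtypeL)
    (fun v v' => by rw [map_add, map_add]; rfl) (fun a v => by rw [map_smul, map_smul]; rfl)
    (w := fun φ => wR ‖φ‖ ‖jsA D φ‖) hR.1 (c := 1 + c) (by positivity)
    (fun φ => wR_le (norm_nonneg φ) (norm_nonneg (jsA D φ)) hc0 (hc φ)) (fun v q φ => hR.2 v q φ)
  exact ⟨B, hR.1, h1, h2⟩

end

section
variable {D : Set ℂ}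

/-- The `K_S`-tested equation: `o_t = Δ o - u·∇o - W o + source`, tested with `θ = K_S φ`, `φ ∈ L²`. -/
structure KEq (D : Set ℂ) (B : VD D →L[ℂ] XS D →L[ℂ] XS D) (v : ℝ → VD D) (W : ℝ → ℂ → ℂ) (ρ : ℝ → XS D)
    (a b : ℝ) (o : ℝ → XS D) : Prop where
  co : ContinuousOn o (Icc a b)
  cρ : ContinuousOn ρ (Icc a b)
  eq : ∀ φ : XS D, ∀ s t, a ≤ s → s ≤ t → t ≤ b →
    ⟪KS D φ, o t⟫_ℂ - ⟪KS D φ, o s⟫_ℂ = ∫ r in s..t,
      (-⟪φ, o r⟫_ℂ + ⟪φ, B (v r) (o r)⟫_ℂ -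
        ⟪((KS D φ : XS D) : L2c), mm (W r) ((o r : XS D) : L2c)⟫_ℂ + ⟪φ, ρ r⟫_ℂ)

/-- `Φ = -o + B v o - K (W o) + ρ` -/
noncomputable def KRh (B : VD D →L[ℂ] XS D →L[ℂ] XS D) (v : ℝ → VD D) (W : ℝ → ℂ → ℂ) (ρ : ℝ → XS D)
    (o : ℝ → XS D) (r : ℝ) : XS D :=
  -o r + B (v r) (o r) - KS D (PS D (mm (W r) ((o r : XS D) : L2c))) + ρ r

variable {B : VD D →L[ℂ] XS D →L[ℂ] XS D} {v : ℝ → VD D} {W : ℝ → ℂ → ℂ} {ρ ρ' : ℝ → XS D} {a b : ℝ}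
  {o o' : ℝ → XS D}

theorem inner_KRh (φ : XS D) (r : ℝ) : ⟪φ, KRh B v W ρ o r⟫_ℂ = -⟪φ, o r⟫_ℂ + ⟪φ, B (v r) (o r)⟫_ℂ -
    ⟪((KS D φ : XS D) : L2c), mm (W r) ((o r : XS D) : L2c)⟫_ℂ + ⟪φ, ρ r⟫_ℂ := by
  unfold KRh
  rw [inner_add_right, inner_sub_right, inner_add_right, inner_neg_right, ← KS_symm, inner_PS]

theorem KRh_cont (hv : ContinuousOn v (Icc a b)) (hW : ContinuousOn (fun t => mm (W t)) (Icc a b))
    (ho : ContinuousOn o (Icc a b)) (hρ : ContinuousOn ρ (Icc a b)) :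
    ContinuousOn (KRh B v W ρ o) (Icc a b) := by
  have h1 : ContinuousOn (fun r => B (v r) (o r)) (Icc a b) := (B.continuous.comp_continuousOn hv).clm_apply ho
  have h2 : ContinuousOn (fun r => mm (W r) ((o r : XS D) : L2c)) (Icc a b) :=
    hW.clm_apply ((XS D).subtypeL.continuous.comp_continuousOn ho)
  have h3 : ContinuousOn (fun r => KS D (PS D (mm (W r) ((o r : XS D) : L2c)))) (Icc a b) :=
    ((KS D).comp (PS D)).continuous.comp_continuousOn h2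
  exact ((ho.neg.add h1).sub h3).add hρ

theorem KEq.eq' (h : KEq D B v W ρ a b o) (φ : XS D) (s t : ℝ) (hs : a ≤ s) (hst : s ≤ t) (ht : t ≤ b) :
    ⟪KS D φ, o t⟫_ℂ - ⟪KS D φ, o s⟫_ℂ = ∫ r in s..t, ⟪φ, KRh B v W ρ o r⟫_ℂ :=
  (h.eq φ s t hs hst ht).trans (intervalIntegral.integral_congr fun r _ => (inner_KRh φ r).symm)

/-- The equation as a tested identity for `K = K_S`, `V = K^{1/2} o`. -/
theorem KEq.tst (h : KEq D B v W ρ a b o) (hv : ContinuousOn v (Icc a b))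
    (hW : ContinuousOn (fun t => mm (W t)) (Icc a b)) :
    Tst (KS D) a b (fun t => Kh (KS D) (o t)) (KRh B v W ρ o) :=
  tst_of_tested (KF_nonneg _) KS_symm h.co (KRh_cont hv hW h.co h.cρ) h.eq'

theorem KEq.sub (h : KEq D B v W ρ a b o) (h' : KEq D B v W ρ' a b o') (hv : ContinuousOn v (Icc a b))
    (hW : ContinuousOn (fun t => mm (W t)) (Icc a b)) :
    KEq D B v W (fun t => ρ t - ρ' t) a b (fun t => o t - o' t) where
  co := h.co.sub h'.co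
  cρ := h.cρ.sub h'.cρ
  eq φ s t hs hst ht := by
    refine (tested_sub (KRh_cont hv hW h.co h.cρ) (KRh_cont hv hW h'.co h'.cρ) h.eq' h'.eq'
      (Φ'' := KRh B v W (fun t => ρ t - ρ' t) (fun t => o t - o' t)) (fun r => ?_) φ s t hs hst ht).trans
      (intervalIntegral.integral_congr fun r _ => inner_KRh φ r)
    have e4 : (((o r - o' r : XS D)) : L2c) = ((o r : XS D) : L2c) - ((o' r : XS D) : L2c) := rfl
    have e5 : KS D (PS D (mm (W r) ((o r - o' r : XS D) : L2c))) =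
        KS D (PS D (mm (W r) ((o r : XS D) : L2c))) - KS D (PS D (mm (W r) ((o' r : XS D) : L2c))) := by
      rw [e4, map_sub, map_sub, map_sub]
    have e6 : B (v r) (o r - o' r) = B (v r) (o r) - B (v r) (o' r) := map_sub _ _ _
    unfold KRh
    rw [e5, e6]
    exact kr_aux _ _ _ _ _ _ _ _

end

end Pool.Agent.Lib.MP_79abb3_an.PD
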