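import Pool.Agent.Lib.MP_79abb3_an.PD.ScD
import Pool.Agent.Lib.MP_79abb3_an.PD.AbNb

/-!
Theorem D, scalar theory: uniqueness in the negative norm (section 4.4 of the paper D-F), the linear problem as a
`K`-tested equation (4.7).
-/

set_option autoImplicit false
set_option linter.unusedSectionVars false

open MeasureTheory Set Filter Topology Function
open scoped ENNReal InnerProductSpace ComplexConjugate

namespace Pool.Agent.Lib.MP_79abb3_an.PD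

open Pool.Agent.Lib.MP_79abb3_an.SC

section
variable {X : Type} [NormedAddCommGroup X] [InnerProductSpace ℂ X] [CompleteSpace X] {a b : ℝ}

/-- The negative norm estimate, abstract form. -/
theorem neg_norm_abs {K : X →L[ℂ] X} {o Φ : ℝ → X} (ho : ContinuousOn o (Icc a b))
    (h : Tst K a b (fun t => Kh K (o t)) Φ) {L R : ℝ} (hR : 0 ≤ R)
    (hb : ∀ t ∈ Icc a b, (⟪o t, Φ t⟫_ℂ).re ≤ L * ‖Kh K (o t)‖ ^ 2 + R) (hL : 0 ≤ L) {t : ℝ} (ht : t ∈ Icc a b) :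
    ‖Kh K (o t)‖ ^ 2 ≤ (‖Kh K (o a)‖ ^ 2 + 2 * R * (b - a)) * Real.exp (2 * L * (b - a)) := by
  have hab : a ≤ b := ht.1.trans ht.2
  have hsq : ∀ x : X, (⟪x, x⟫_ℂ).re = ‖x‖ ^ 2 := fun x => by
    rw [inner_self_eq_norm_sq_to_K]
    norm_cast
  obtain ⟨y, hy⟩ : ∃ y : ℝ → ℝ, y = fun t => ‖Kh K (o t)‖ ^ 2 := ⟨_, rfl⟩
  have hyc : ContinuousOn y (Icc a b) := by rw [hy]; exact h.cV.norm.pow 2
  have hy0 : ∀ t, 0 ≤ y t := fun t => by rw [hy]; positivity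
  have key : ∀ t ∈ Icc a b, y t ≤ (y a + 2 * R * (b - a)) + ∫ r in a..t, (2 * L) * y r := by
    intro t ht
    have h1 := h.energy_int (M := ContinuousLinearMap.id ℂ X) (p := o) (fun x y => rfl) ho
      (fun t _ => rfl) le_rfl ht.1 ht.2
    have h2 : y t - y a = 2 * ∫ r in a..t, (⟪o r, Φ r⟫_ℂ).re := by
      rw [← h1, hy]
      show ‖Kh K (o t)‖ ^ 2 - ‖Kh K (o a)‖ ^ 2 = (⟪Kh K (o t), Kh K (o t)⟫_ℂ).re - (⟪Kh K (o a), Kh K (o a)⟫_ℂ).re
      rw [hsq, hsq]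
    have hsub : uIcc a t ⊆ Icc a b := by rw [uIcc_of_le ht.1]; exact Icc_subset_Icc le_rfl ht.2
    have i1 : IntervalIntegrable (fun r => (⟪o r, Φ r⟫_ℂ).re) volume a t :=
      ((Complex.continuous_re.comp_continuousOn (ho.inner h.cl)).mono hsub).intervalIntegrable
    have i2 : IntervalIntegrable (fun r => L * y r) volume a t :=
      ((continuousOn_const.mul hyc).mono hsub).intervalIntegrable
    have h3 : ∫ r in a..t, (⟪o r, Φ r⟫_ℂ).re ≤ ∫ r in a..t, (L * y r + R) :=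
      intervalIntegral.integral_mono_on ht.1 i1 (i2.add intervalIntegrable_const) fun r hr => by
        rw [hy]; exact hb r ⟨hr.1, hr.2.trans ht.2⟩
    rw [intervalIntegral.integral_add i2 intervalIntegrable_const, intervalIntegral.integral_const,
      smul_eq_mul] at h3
    have h4 : ∫ r in a..t, (2 * L) * y r = 2 * ∫ r in a..t, L * y r := by
      rw [← intervalIntegral.integral_const_mul]
      refine intervalIntegral.integral_congr fun r _ => ?_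
      show 2 * L * y r = 2 * (L * y r)
      ring
    rw [h4]
    have h5 : (t - a) * R ≤ (b - a) * R := mul_le_mul_of_nonneg_right (by linarith [ht.2]) hR
    linarith
  have h6 := gron_int (g := fun _ => 2 * L) continuousOn_const hyc (fun _ _ => by positivity) key t ht
  rw [intervalIntegral.integral_const, smul_eq_mul] at h6
  have h7 : 0 ≤ y a + 2 * R * (b - a) := by
    have := hy0 a
    have : 0 ≤ 2 * R * (b - a) := mul_nonneg (by positivity) (by linarith)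
    linarith
  have h8 : Real.exp ((t - a) * (2 * L)) ≤ Real.exp (2 * L * (b - a)) := by
    refine Real.exp_le_exp.2 ?_
    nlinarith [ht.2]
  rw [hy] at h6 h7
  exact h6.trans (mul_le_mul_of_nonneg_left h8 h7)

end

/-- Young: `A x wR(x, y) ≤ x²/4 + L y²`. -/
theorem wR_young {A : ℝ} (hA : 0 ≤ A) : ∃ L, 0 ≤ L ∧ ∀ x y : ℝ, 0 ≤ x → 0 ≤ y →
    A * x * wR x y ≤ x ^ 2 / 4 + L * y ^ 2 := by
  obtain ⟨e, he⟩ : ∃ e, e = 1 / (8 * (A + 1)) := ⟨_, rfl⟩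
  have he0 : 0 < e := by rw [he]; positivity
  obtain ⟨c, hc⟩ : ∃ c, c = A * (1 / 4 * (e ^ 3)⁻¹ + 3 / 4 * e) := ⟨_, rfl⟩
  have hc0 : 0 ≤ c := by rw [hc]; positivity
  refine ⟨2 * c ^ 2, by positivity, fun x y hx hy => ?_⟩
  have h1 : wR x y ≤ 1 / 4 * ((e ^ 3)⁻¹ * y) + 3 / 4 * (e * (x + y)) := by
    have h2 := Real.geom_mean_le_arith_mean2_weighted (w₁ := 1 / 4) (w₂ := 3 / 4) (by norm_num) (by norm_num)
      (p₁ := (e ^ 3)⁻¹ * y) (p₂ := e * (x + y)) (by positivity) (by positivity) (by norm_num)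
    refine le_trans (le_of_eq ?_) h2
    unfold wR
    rw [Real.mul_rpow (by positivity) hy, Real.mul_rpow he0.le (by positivity)]
    have h3 : ((e ^ 3)⁻¹) ^ (1 / 4 : ℝ) * e ^ (3 / 4 : ℝ) = 1 := by
      have e1 : (e ^ 3)⁻¹ = e ^ (-3 : ℝ) := by
        rw [Real.rpow_neg he0.le]
        norm_cast
      rw [e1, ← Real.rpow_mul he0.le, ← Real.rpow_add he0]
      norm_num
    calc y ^ (1 / 4 : ℝ) * (x + y) ^ (3 / 4 : ℝ) = 1 * (y ^ (1 / 4 : ℝ) * (x + y) ^ (3 / 4 : ℝ)) := by ring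
      _ = ((e ^ 3)⁻¹) ^ (1 / 4 : ℝ) * e ^ (3 / 4 : ℝ) * (y ^ (1 / 4 : ℝ) * (x + y) ^ (3 / 4 : ℝ)) := by rw [h3]
      _ = _ := by ring
  have h4 : A * x * wR x y ≤ A * e * x ^ 2 + c * (x * y) := by
    refine (mul_le_mul_of_nonneg_left h1 (by positivity)).trans ?_
    rw [hc]
    have : 0 ≤ A * e * x ^ 2 := by positivity
    nlinarith
  have h5 : A * e ≤ 1 / 8 := by
    rw [he, mul_one_div, div_le_div_iff₀ (by positivity) (by norm_num)]
    linarith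
  have h6 : A * e * x ^ 2 ≤ 1 / 8 * x ^ 2 := mul_le_mul_of_nonneg_right h5 (by positivity)
  have h7 : c * (x * y) ≤ x ^ 2 / 8 + 2 * c ^ 2 * y ^ 2 := by nlinarith [sq_nonneg (x / 2 - 2 * (c * y))]
  linarith

section
variable {D : Set ℂ} {B : VD D →L[ℂ] XS D →L[ℂ] XS D} {v : ℝ → VD D} {W : ℝ → ℂ → ℂ} {ρ ρ' : ℝ → XS D}
  {a b C : ℝ} {o o' : ℝ → XS D}

theorem norm_Kh_js (x : XS D) : ‖Kh (KS D) x‖ = ‖jsA D x‖ := norm_Kh_eq _ _

/-- **4.4**, the estimate in the negative norm. -/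
theorem exists_neg_bound (hB : IsKB D C B) (hv : ContinuousOn v (Icc a b))
    (hW : ContinuousOn (fun t => mm (W t)) (Icc a b)) {U cW : ℝ} (hU : ∀ t ∈ Icc a b, ‖v t‖ ≤ U)
    (hcW : ∀ t ∈ Icc a b, ‖mm (W t)‖ ≤ cW) :
    ∃ Cu, 0 ≤ Cu ∧ ∀ (o ρ : ℝ → XS D), KEq D B v W ρ a b o → ∀ R, (∀ t ∈ Icc a b, ‖ρ t‖ ≤ R) →
      ∀ t ∈ Icc a b, ‖jsA D (o t)‖ ^ 2 ≤ Cu * (‖jsA D (o a)‖ ^ 2 + R ^ 2) := by
  obtain ⟨L1, hL1, hy1⟩ := wR_young (A := C * |U|) (mul_nonneg hB.C0 (abs_nonneg _))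
  obtain ⟨k, hk0, hk⟩ : ∃ k, 0 ≤ k ∧ ∀ w : SV D, ‖js D w‖ ≤ k * ‖w‖ :=
    ⟨‖js D‖, norm_nonneg (js D), fun w => (js D).le_opNorm w⟩
  obtain ⟨L, hL⟩ : ∃ L, L = L1 + (k * |cW|) ^ 2 := ⟨_, rfl⟩
  have hL0 : 0 ≤ L := by rw [hL]; positivity
  refine ⟨(1 + 2 * |b - a|) * Real.exp (2 * L * |b - a|), by positivity, fun o ρ h R hR t ht => ?_⟩
  have hab : 0 ≤ b - a := by linarith [ht.1, ht.2]
  have h1 := neg_norm_abs h.co (h.tst hv hW) (L := L) (R := R ^ 2) (sq_nonneg R) (fun t ht => ?_) hL0 ht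
  · rw [norm_Kh_js, norm_Kh_js] at h1
    rw [abs_of_nonneg hab]
    refine h1.trans ?_
    have e1 : 0 < Real.exp (2 * L * (b - a)) := Real.exp_pos _
    have e2 : ‖jsA D (o a)‖ ^ 2 + 2 * R ^ 2 * (b - a) ≤ (1 + 2 * (b - a)) * (‖jsA D (o a)‖ ^ 2 + R ^ 2) := by
      have : 0 ≤ (b - a) * ‖jsA D (o a)‖ ^ 2 := by positivity
      nlinarith [sq_nonneg R]
    calc _ ≤ (1 + 2 * (b - a)) * (‖jsA D (o a)‖ ^ 2 + R ^ 2) * Real.exp (2 * L * (b - a)) :=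
          mul_le_mul_of_nonneg_right e2 e1.le
      _ = _ := by ring
  · rw [inner_KRh, norm_Kh_js]
    obtain ⟨x, hx⟩ : ∃ x, x = ‖o t‖ := ⟨_, rfl⟩
    obtain ⟨y, hy⟩ : ∃ y, y = ‖jsA D (o t)‖ := ⟨_, rfl⟩
    have hx0 : 0 ≤ x := by rw [hx]; positivity
    have hy0 : 0 ≤ y := by rw [hy]; positivity
    have e1 : (⟪o t, o t⟫_ℂ).re = x ^ 2 := by
      have : ⟪o t, o t⟫_ℂ = ((‖o t‖ ^ 2 : ℝ) : ℂ) := by
        have := inner_self_eq_norm_sq_to_K (𝕜 := ℂ) (o t)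
        exact_mod_cast this
      rw [this, Complex.ofReal_re, hx]
    have e2 : (⟪o t, B (v t) (o t)⟫_ℂ).re ≤ x ^ 2 / 4 + L1 * y ^ 2 := by
      refine (Complex.re_le_norm _).trans ((hB.bd (v t) (o t) (o t)).trans ?_)
      rw [← hx, ← hy]
      have h3 : C * ‖v t‖ * x * wR x y ≤ C * |U| * x * wR x y := by
        have := wR_nonneg hx0 hy0
        have h4 : ‖v t‖ ≤ |U| := (hU t ht).trans (le_abs_self _)
        have := hB.C0
        gcongr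
      exact h3.trans (hy1 x y hx0 hy0)
    have e3 : -(⟪((KS D (o t) : XS D) : L2c), mm (W t) ((o t : XS D) : L2c)⟫_ℂ).re ≤
        x ^ 2 / 4 + (k * |cW|) ^ 2 * y ^ 2 := by
      have h3 : ‖⟪((KS D (o t) : XS D) : L2c), mm (W t) ((o t : XS D) : L2c)⟫_ℂ‖ ≤ (k * y) * (|cW| * x) := by
        refine (norm_inner_le_norm _ _).trans ?_
        have h4 : ‖((KS D (o t) : XS D) : L2c)‖ ≤ k * y := by
          have := hk (jsA D (o t))
          rw [← hy] at this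
          exact this
        have h5 : ‖mm (W t) ((o t : XS D) : L2c)‖ ≤ |cW| * x := by
          refine ((mm (W t)).le_opNorm _).trans ?_
          have h6 : ‖((o t : XS D) : L2c)‖ = x := hx.symm
          rw [h6]
          exact mul_le_mul_of_nonneg_right ((hcW t ht).trans (le_abs_self _)) hx0
        gcongr
      have h6 := neg_le_of_abs_le ((Complex.abs_re_le_norm _).trans h3)
      nlinarith [sq_nonneg (x / 2 - k * |cW| * y)]
    have e4 : (⟪o t, ρ t⟫_ℂ).re ≤ x ^ 2 / 4 + R ^ 2 := by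
      have h3 : (⟪o t, ρ t⟫_ℂ).re ≤ x * R := by
        refine (Complex.re_le_norm _).trans ?_
        have h4 : ‖⟪o t, ρ t⟫_ℂ‖ ≤ ‖o t‖ * ‖ρ t‖ := norm_inner_le_norm (𝕜 := ℂ) (o t) (ρ t)
        rw [← hx] at h4
        exact h4.trans (mul_le_mul_of_nonneg_left (hR t ht) hx0)
      nlinarith [sq_nonneg (x / 2 - R)]
    simp only [Complex.add_re, Complex.sub_re, Complex.neg_re, e1]
    rw [← hy, hL]
    nlinarith

/-! ### The linear problem -/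

/-- The representative of `φ ↦ ⟪K φ, s₁⟫ + s₂(js† φ)`. -/
noncomputable def rS (D : Set ℂ) (s1 : L2c) (s2 : Yd L4c) : XS D :=
  KS D (PS D s1) + Kh (KS D) (J3 (js D) (j4 D) s2)

theorem inner_rS (hD : Bornology.IsBounded D) (φ : XS D) (s1 : L2c) (s2 : Yd L4c) :
    ⟪φ, rS D s1 s2⟫_ℂ = ⟪((KS D φ : XS D) : L2c), s1⟫_ℂ + s2 (j4 D (jsA D φ)) := by
  have e1 : ⟪φ, KS D (PS D s1)⟫_ℂ = ⟪((KS D φ : XS D) : L2c), s1⟫_ℂ := by
    rw [← KS_symm, inner_PS]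
  have e2 : ⟪φ, Kh (KS D) (J3 (js D) (j4 D) s2)⟫_ℂ = s2 (j4 D (jsA D φ)) := by
    rw [← Kh_inner, inner_J3, (fdomS hD).Qv_Kh]
    rfl
  exact (inner_add_right (𝕜 := ℂ) φ _ _).trans (congrArg₂ (· + ·) e1 e2)

/-- **4.7** -/
theorem Lpr.keq (hD : Bornology.IsBounded D) (hB : IsKB D C B) {s1 : ℝ → L2c} {s2 : ℝ → Yd L4c}
    (h : LprD D v W s1 s2 a b) {q : ℝ → SV D} (hq : Lpr D v W s1 s2 a b q) :
    KEq D B v W (fun t => rS D (s1 t) (s2 t)) a b (fun t => js D (q t)) where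
  co := (js D).continuous.comp_continuousOn hq.cq
  cρ := (((KS D).comp (PS D)).continuous.comp_continuousOn h.c1).add
    (((Kh (KS D)).comp (J3 (js D) (j4 D))).continuous.comp_continuousOn h.c2)
  eq φ s t hs hst ht := by
    refine (hq.eq (jsA D φ) s t hs hst ht).trans (intervalIntegral.integral_congr fun r _ => ?_)
    show -⟪jsA D φ, q r⟫_ℂ + TR (jj D (v r)) (q r : Y2) (j4 D (jsA D φ)) -
        ⟪((js D (jsA D φ) : XS D) : L2c), mm (W r) ((js D (q r) : XS D) : L2c)⟫_ℂ +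
        ⟪((js D (jsA D φ) : XS D) : L2c), s1 r⟫_ℂ + s2 r (j4 D (jsA D φ)) =
      -⟪φ, js D (q r)⟫_ℂ + ⟪φ, B (v r) (js D (q r))⟫_ℂ -
        ⟪((KS D φ : XS D) : L2c), mm (W r) ((js D (q r) : XS D) : L2c)⟫_ℂ + ⟪φ, rS D (s1 r) (s2 r)⟫_ℂ
    rw [inner_rS hD, hB.tr, inner_jsA]
    show _ = -_ + _ - ⟪((js D (jsA D φ) : XS D) : L2c), mm (W r) ((js D (q r) : XS D) : L2c)⟫_ℂ +
      (⟪((js D (jsA D φ) : XS D) : L2c), s1 r⟫_ℂ + _)
    ring

end

end Pool.Agent.Lib.MP_79abb3_an.PD
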