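import Pool.Agent.Lib.MP_79abb3_an.PD.SpBa

/-!
Theorem D, block S: second derivatives of `C_c^∞` functions, norms of `gp`, `cu`.
-/

set_option autoImplicit false
set_option linter.unusedSectionVars false

open MeasureTheory Set Filter Topology Function
open scoped ENNReal InnerProductSpace

namespace Pool.Agent.Lib.MP_79abb3_an.PD

open Pool.Agent.Lib.MP_79abb3_an.SC

section
variable {f g : ℂ → ℂ}

private theorem spbb_int_mul (hf : Cc f) (hg : Cc g) : Integrable fun x => f x * g x :=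
  (hf.mul_smo hg.smo).integrable

private theorem spbb_int_norm_sq (hf : Cc f) : Integrable fun x => ‖f x‖ ^ 2 :=
  (memLp_two_iff_integrable_sq_norm (hf.memLp 2).1).1 (hf.memLp 2)

private theorem spbb_lin {A B C : ℂ → ℝ} (hA : Integrable A) (hB : Integrable B)
    (hC : Integrable C) : ∫ x, (A x + 2 * B x + C x) = (∫ x, A x) + 2 * (∫ x, B x) + ∫ x, C x := by
  have hB' : Integrable fun x => 2 * B x := hB.const_mul 2
  have hAB : Integrable fun x => A x + 2 * B x := hA.add hB'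
  rw [integral_add hAB hC, integral_add hA hB', integral_const_mul]

private theorem spbb_cross (h : Cc f) :
    ∫ x, PD.px (PD.px f) x * (starRingEnd ℂ) (PD.py (PD.py f) x) =
      ∫ x, ((‖PD.px (PD.py f) x‖ ^ 2 : ℝ) : ℂ) := by
  have e1 : (fun x => (starRingEnd ℂ) (PD.py (PD.py f) x)) =
      PD.py (PD.py fun x => (starRingEnd ℂ) (f x)) := by
    rw [h.smo.py_conj, h.smo.py.py_conj]
  have e2 : (fun x => (starRingEnd ℂ) (PD.px (PD.py f) x)) =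
      PD.px (PD.py fun x => (starRingEnd ℂ) (f x)) := by
    rw [h.smo.py_conj, h.smo.py.px_conj]
  have hc : Cc (fun x => (starRingEnd ℂ) (f x)) := h.conj
  have h1 := h.px.ibpx hc.py.py
  have h2 := h.px.ibpy hc.py.px
  have h3 : PD.px (PD.py (PD.py fun x => (starRingEnd ℂ) (f x))) =
      PD.py (PD.px (PD.py fun x => (starRingEnd ℂ) (f x))) := hc.py.smo.pxy
  rw [h3] at h1
  have h4 : ∫ x, PD.px (PD.px f) x * PD.py (PD.py fun x => (starRingEnd ℂ) (f x)) x =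
      ∫ x, PD.py (PD.px f) x * PD.px (PD.py fun x => (starRingEnd ℂ) (f x)) x := by
    rw [h1, h2]
  have h5 : (fun x => PD.px (PD.px f) x * (starRingEnd ℂ) (PD.py (PD.py f) x)) =
      fun x => PD.px (PD.px f) x * PD.py (PD.py fun x => (starRingEnd ℂ) (f x)) x := by
    funext x
    rw [← e1]
  rw [h5, h4, ← e2, ← h.smo.pxy]
  congr 1
  funext x
  rw [Complex.mul_conj, Complex.normSq_eq_norm_sq]

/-- `∑ |∂_i∂_jψ|²` has the integral of `|Δψ|²`. Proof: `∫ |∂₁∂₂ψ|² = ∫ ∂₁∂₂ψ conj(∂₁∂₂ψ) = ∫ ∂₁∂₁ψ conj(∂₂∂₂ψ)` by two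
integrations by parts (`ibpx`, `ibpy`, `pxy`), and `|a + b|² = |a|² + |b|² + 2 Re(a conj b)`. -/
theorem Cc.int_lap (h : Cc f) : ∫ x, (‖PD.px (PD.px f) x‖ ^ 2 + 2 * ‖PD.px (PD.py f) x‖ ^ 2 +
    ‖PD.py (PD.py f) x‖ ^ 2) = ∫ x, ‖PD.lap f x‖ ^ 2 := by
  have i1 := spbb_int_norm_sq h.px.px
  have i2 := spbb_int_norm_sq h.py.px
  have i3 := spbb_int_norm_sq h.py.py
  have i4 : Integrable fun x => PD.px (PD.px f) x * (starRingEnd ℂ) (PD.py (PD.py f) x) :=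
    spbb_int_mul h.px.px h.py.py.conj
  have hk := spbb_cross h
  rw [integral_complex_ofReal] at hk
  have hk' : ∫ x, (PD.px (PD.px f) x * (starRingEnd ℂ) (PD.py (PD.py f) x)).re =
      ∫ x, ‖PD.px (PD.py f) x‖ ^ 2 := by
    have h1 := congrArg Complex.re hk
    rw [Complex.ofReal_re] at h1
    rw [← h1]
    exact integral_re i4
  have e : (fun x => ‖PD.lap f x‖ ^ 2) = fun x => ‖PD.px (PD.px f) x‖ ^ 2 +
        2 * (PD.px (PD.px f) x * (starRingEnd ℂ) (PD.py (PD.py f) x)).re +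
        ‖PD.py (PD.py f) x‖ ^ 2 := by
    funext x
    show ‖PD.px (PD.px f) x + PD.py (PD.py f) x‖ ^ 2 = _
    rw [← Complex.normSq_eq_norm_sq, ← Complex.normSq_eq_norm_sq, ← Complex.normSq_eq_norm_sq,
      Complex.normSq_add]
    ring
  have i5 : Integrable fun x => (PD.px (PD.px f) x * (starRingEnd ℂ) (PD.py (PD.py f) x)).re :=
    i4.re
  rw [e, spbb_lin i1 i5 i3, hk', spbb_lin i1 i2 i3]

theorem norm_cu_sq (h : Cc f) : ‖cu f‖ ^ 2 = ∫ x, ‖lap f x‖ ^ 2 := by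
  unfold cu
  rw [norm_neg, h.lap.norm_sq]

theorem norm_gp_sq (h : Cc f) : ‖gp f‖ ^ 2 = ‖cl2 (PD.px f)‖ ^ 2 + ‖cl2 (PD.py f)‖ ^ 2 := by
  rw [WithLp.prod_norm_sq_eq_of_L2]
  show ‖cl2 (PD.py f)‖ ^ 2 + ‖-cl2 (PD.px f)‖ ^ 2 = _
  rw [norm_neg, add_comm]

/-- `⟪∇^⊥ψ, ∇^⊥φ⟫ = ⟪-Δψ, φ⟫` -/
theorem ip_gp (h : Cc f) (h' : Cc g) : ⟪gp f, gp g⟫_ℂ = ⟪cu f, cl2 g⟫_ℂ := by
  have hc : Cc (fun x => (starRingEnd ℂ) (f x)) := h.conj
  have e1 : (fun x => (starRingEnd ℂ) (PD.py f x)) = PD.py fun x => (starRingEnd ℂ) (f x) :=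
    h.smo.py_conj.symm
  have e2 : (fun x => (starRingEnd ℂ) (PD.px f x)) = PD.px fun x => (starRingEnd ℂ) (f x) :=
    h.smo.px_conj.symm
  have e3 : ∀ x, (starRingEnd ℂ) (PD.lap f x) = PD.px (PD.px fun x => (starRingEnd ℂ) (f x)) x +
      PD.py (PD.py fun x => (starRingEnd ℂ) (f x)) x := by
    intro x
    have a1 : PD.px (PD.px fun x => (starRingEnd ℂ) (f x)) =
        fun x => (starRingEnd ℂ) (PD.px (PD.px f) x) := by
      rw [h.smo.px_conj, h.smo.px.px_conj]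
    have a2 : PD.py (PD.py fun x => (starRingEnd ℂ) (f x)) =
        fun x => (starRingEnd ℂ) (PD.py (PD.py f) x) := by
      rw [h.smo.py_conj, h.smo.py.py_conj]
    rw [a1, a2]
    show (starRingEnd ℂ) (PD.px (PD.px f) x + PD.py (PD.py f) x) = _
    rw [map_add]
  have h1 := hc.px.ibpx h'
  have h2 := hc.py.ibpy h'
  have h3 : ⟪gp f, gp g⟫_ℂ = ⟪cl2 (PD.py f), cl2 (PD.py g)⟫_ℂ + ⟪-cl2 (PD.px f), -cl2 (PD.px g)⟫_ℂ :=
    WithLp.prod_inner_apply _ _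
  rw [h3, inner_neg_neg, h.py.inner h'.py, h.px.inner h'.px]
  unfold cu
  rw [inner_neg_left, h.lap.inner h']
  have h4 : ∫ x, (starRingEnd ℂ) (PD.lap f x) * g x =
      (∫ x, PD.px (PD.px fun x => (starRingEnd ℂ) (f x)) x * g x) +
        ∫ x, PD.py (PD.py fun x => (starRingEnd ℂ) (f x)) x * g x := by
    rw [← integral_add (spbb_int_mul hc.px.px h') (spbb_int_mul hc.py.py h')]
    congr 1
    funext x
    rw [e3]
    ring
  rw [h4, h1, h2]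
  have h5 : ∫ x, (starRingEnd ℂ) (PD.py f x) * PD.py g x =
      ∫ x, PD.py (fun x => (starRingEnd ℂ) (f x)) x * PD.py g x := by
    rw [← e1]
  have h6 : ∫ x, (starRingEnd ℂ) (PD.px f x) * PD.px g x =
      ∫ x, PD.px (fun x => (starRingEnd ℂ) (f x)) x * PD.px g x := by
    rw [← e2]
  rw [h5, h6]
  ring

/-- `‖∂_i∂_jψ‖ ≤ ‖Δψ‖` (`Cc.int_lap`) -/
theorem norm_dd_le (h : Cc f) : ‖cl2 (PD.px (PD.px f))‖ ≤ ‖cu f‖ ∧ ‖cl2 (PD.px (PD.py f))‖ ≤ ‖cu f‖ ∧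
    ‖cl2 (PD.py (PD.px f))‖ ≤ ‖cu f‖ ∧ ‖cl2 (PD.py (PD.py f))‖ ≤ ‖cu f‖ := by
  have i1 := spbb_int_norm_sq h.px.px
  have i2 := spbb_int_norm_sq h.py.px
  have i3 := spbb_int_norm_sq h.py.py
  have it : Integrable fun x => ‖PD.px (PD.px f) x‖ ^ 2 + 2 * ‖PD.px (PD.py f) x‖ ^ 2 +
      ‖PD.py (PD.py f) x‖ ^ 2 := (i1.add (i2.const_mul 2)).add i3
  have key : ∀ F : ℂ → ℂ, Cc F → (∀ x, ‖F x‖ ^ 2 ≤ ‖PD.px (PD.px f) x‖ ^ 2 +
      2 * ‖PD.px (PD.py f) x‖ ^ 2 + ‖PD.py (PD.py f) x‖ ^ 2) → ‖cl2 F‖ ≤ ‖cu f‖ := by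
    intro F hF hle
    have h1 : ‖cl2 F‖ ^ 2 ≤ ‖cu f‖ ^ 2 := by
      rw [hF.norm_sq, norm_cu_sq h, ← h.int_lap]
      exact integral_mono (spbb_int_norm_sq hF) it hle
    exact le_of_sq_le_sq h1 (norm_nonneg _)
  have e : PD.py (PD.px f) = PD.px (PD.py f) := h.smo.pxy.symm
  refine ⟨key _ h.px.px fun x => ?_, key _ h.py.px fun x => ?_, ?_, key _ h.py.py fun x => ?_⟩
  · nlinarith [sq_nonneg ‖PD.px (PD.py f) x‖, sq_nonneg ‖PD.py (PD.py f) x‖]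
  · nlinarith [sq_nonneg ‖PD.px (PD.px f) x‖, sq_nonneg ‖PD.py (PD.py f) x‖,
      sq_nonneg ‖PD.px (PD.py f) x‖]
  · rw [e]
    refine key _ h.py.px fun x => ?_
    nlinarith [sq_nonneg ‖PD.px (PD.px f) x‖, sq_nonneg ‖PD.py (PD.py f) x‖,
      sq_nonneg ‖PD.px (PD.py f) x‖]
  · nlinarith [sq_nonneg ‖PD.px (PD.py f) x‖, sq_nonneg ‖PD.px (PD.px f) x‖]

/-- The weak form of `curl u = ω`: bilinear. -/
theorem pair_Cc (h : Cc f) (h' : Cc g) :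
    ∫ x, -lap f x * g x = ∫ x, (PD.py f x * PD.py g x + PD.px f x * PD.px g x) := by
  have h1 := h.px.ibpx h'
  have h2 := h.py.ibpy h'
  rw [integral_add (spbb_int_mul h.py h'.py) (spbb_int_mul h.px h'.px)]
  have h3 : ∫ x, -lap f x * g x = -((∫ x, PD.px (PD.px f) x * g x) +
      ∫ x, PD.py (PD.py f) x * g x) := by
    rw [← integral_add (spbb_int_mul h.px.px h') (spbb_int_mul h.py.py h'), ← integral_neg]
    congr 1
    funext x
    show -(PD.px (PD.px f) x + PD.py (PD.py f) x) * g x = _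
    ring
  rw [h3, h1, h2]
  ring

end

section
variable {D : Set ℂ}

/-- Derivatives of an admissible stream function vanish outside `D`. -/
theorem px_zero (ψ : Adm D) {x : ℂ} (hx : x ∉ D) : px ψ x = 0 := by
  have h : fderiv ℝ (ψ : ℂ → ℂ) x = 0 := by
    by_contra h
    exact hx (Adm.supp ψ (subset_tsupport _ h))
  unfold px
  rw [h]; rfl

theorem py_zero (ψ : Adm D) {x : ℂ} (hx : x ∉ D) : py ψ x = 0 := by
  have h : fderiv ℝ (ψ : ℂ → ℂ) x = 0 := by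
    by_contra h
    exact hx (Adm.supp ψ (subset_tsupport _ h))
  unfold py
  rw [h]; rfl

/-- The Laplacian vanishes outside `D` (`dψ` vanishes near the point). -/
theorem lap_zero (ψ : Adm D) {x : ℂ} (hx : x ∉ D) : lap ψ x = 0 := by
  have h0 : x ∉ tsupport (fderiv ℝ (ψ : ℂ → ℂ)) := fun h => hx (Adm.supp ψ h)
  have h1 : fderiv ℝ (ψ : ℂ → ℂ) =ᶠ[𝓝 x] 0 := notMem_tsupport_iff_eventuallyEq.1 h0
  have key : ∀ e : ℂ, fderiv ℝ (fun y => fderiv ℝ (ψ : ℂ → ℂ) y e) x = 0 := by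
    intro e
    have h2 : (fun y => fderiv ℝ (ψ : ℂ → ℂ) y e) =ᶠ[𝓝 x] fun _ => (0 : ℂ) := by
      filter_upwards [h1] with y hy
      rw [hy]; rfl
    rw [h2.fderiv_eq]
    exact fderiv_const_apply (0 : ℂ)
  have k1 : px (px ψ) x = 0 := by
    show fderiv ℝ (fun y => fderiv ℝ (ψ : ℂ → ℂ) y 1) x 1 = 0
    rw [key]; rfl
  have k2 : py (py ψ) x = 0 := by
    show fderiv ℝ (fun y => fderiv ℝ (ψ : ℂ → ℂ) y Complex.I) x Complex.I = 0
    rw [key]; rfl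
  show px (px ψ) x + py (py ψ) x = 0
  rw [k1, k2, add_zero]

end

end Pool.Agent.Lib.MP_79abb3_an.PD
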