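import Pool.Agent.Lib.MP_79abb3_an.PD.SpBb

/-!
Theorem D, block S: the Poincaré inequality.
-/

set_option autoImplicit false
set_option linter.unusedSectionVars false

open MeasureTheory Set Filter Topology Function
open scoped ENNReal InnerProductSpace

namespace Pool.Agent.Lib.MP_79abb3_an.PD

open Pool.Agent.Lib.MP_79abb3_an.SC

section
variable {f g : ℂ → ℂ}

private theorem spbc_re : Smo fun x : ℂ => ((x.re : ℝ) : ℂ) :=
  (Complex.ofRealCLM.contDiff.comp Complex.reCLM.contDiff)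

/-- Poincaré. Proof: `∫ |f|² = -2 Re ∫ x₁ conj(f) ∂₁f` (integration by parts) and `2 R |f| |∂₁f| ≤ ½ |f|² + 2 R² |∂₁f|²`. -/
theorem Cc.poincare (h : Cc f) {R : ℝ} (hR : 0 ≤ R) (hf : ∀ x, R ≤ ‖x‖ → f x = 0) :
    ∫ x, ‖f x‖ ^ 2 ≤ 4 * R ^ 2 * ∫ x, ‖PD.px f x‖ ^ 2 := by
  have hF : Cc (fun x : ℂ => ((x.re : ℝ) : ℂ) * f x) :=
    ⟨spbc_re.mul h.smo, h.cpt.mul_left⟩
  have hc := h.conj
  have e1 := hF.ibpx hc
  have e2 : ∀ x, PD.px (fun x : ℂ => ((x.re : ℝ) : ℂ) * f x) x = f x + ((x.re : ℝ) : ℂ) * PD.px f x := by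
    intro x
    unfold PD.px
    have d1 : HasFDerivAt (fun x : ℂ => ((x.re : ℝ) : ℂ)) (Complex.ofRealCLM ∘L Complex.reCLM) x :=
      (Complex.ofRealCLM ∘L Complex.reCLM).hasFDerivAt
    have d2 := d1.mul (h.smo.differentiable x).hasFDerivAt
    rw [show (fun x : ℂ => ((x.re : ℝ) : ℂ) * f x) = (fun x : ℂ => ((x.re : ℝ) : ℂ)) * f from rfl,
      d2.fderiv]
    simp
    ring
  have e3 : PD.px (fun x => (starRingEnd ℂ) (f x)) = fun x => (starRingEnd ℂ) (PD.px f x) := h.smo.px_conj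
  simp only [e2, e3] at e1
  have hp := h.px
  -- integrability
  have i1 : Integrable fun x => ‖f x‖ ^ 2 := (h.memLp 2).norm.integrable_sq
  have i2 : Integrable fun x => ‖PD.px f x‖ ^ 2 := (hp.memLp 2).norm.integrable_sq
  have i3 : Integrable fun x => ((x.re : ℝ) : ℂ) * f x * (starRingEnd ℂ) (PD.px f x) :=
    (hF.mul_smo hp.conj.smo).integrable
  have i4 : Integrable fun x => ((x.re : ℝ) : ℂ) * PD.px f x * (starRingEnd ℂ) (f x) := by
    have h1 : Cc (fun x : ℂ => ((x.re : ℝ) : ℂ) * PD.px f x) := ⟨spbc_re.mul hp.smo, hp.cpt.mul_left⟩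
    exact (h1.mul_smo hc.smo).integrable
  have i5 : Integrable fun x => f x * (starRingEnd ℂ) (f x) := (h.mul_smo hc.smo).integrable
  have e4 : ∫ x, f x * (starRingEnd ℂ) (f x) = -∫ x, (((x.re : ℝ) : ℂ) * PD.px f x * (starRingEnd ℂ) (f x) +
      ((x.re : ℝ) : ℂ) * f x * (starRingEnd ℂ) (PD.px f x)) := by
    rw [integral_add i4 i3]
    have e5 : ∫ x, (f x + ((x.re : ℝ) : ℂ) * PD.px f x) * (starRingEnd ℂ) (f x) =
        (∫ x, f x * (starRingEnd ℂ) (f x)) + ∫ x, ((x.re : ℝ) : ℂ) * PD.px f x * (starRingEnd ℂ) (f x) := by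
      rw [← integral_add i5 i4]
      refine integral_congr_ae (Eventually.of_forall fun x => ?_)
      ring
    rw [e5] at e1
    linear_combination e1
  have e6 : ∫ x, ‖f x‖ ^ 2 = ‖∫ x, f x * (starRingEnd ℂ) (f x)‖ := by
    have e7 : ∫ x, f x * (starRingEnd ℂ) (f x) = ((∫ x, ‖f x‖ ^ 2 : ℝ) : ℂ) := by
      rw [← integral_complex_ofReal]
      refine integral_congr_ae (Eventually.of_forall fun x => ?_)
      simp only
      rw [Complex.mul_conj, Complex.normSq_eq_norm_sq]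
    rw [e7, Complex.norm_real, Real.norm_eq_abs, abs_of_nonneg (integral_nonneg fun x => by positivity)]
  have key : ∫ x, ‖f x‖ ^ 2 ≤ ∫ x, (1 / 2 * ‖f x‖ ^ 2 + 2 * R ^ 2 * ‖PD.px f x‖ ^ 2) := by
    rw [e6, e4, norm_neg]
    refine (norm_integral_le_integral_norm _).trans ?_
    refine integral_mono (i4.add i3).norm ((i1.const_mul _).add (i2.const_mul _)) fun x => ?_
    show ‖((x.re : ℝ) : ℂ) * PD.px f x * (starRingEnd ℂ) (f x) +
      ((x.re : ℝ) : ℂ) * f x * (starRingEnd ℂ) (PD.px f x)‖ ≤ _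
    refine (norm_add_le _ _).trans ?_
    rw [norm_mul, norm_mul, norm_mul, norm_mul, Complex.norm_real, RCLike.norm_conj, RCLike.norm_conj,
      Real.norm_eq_abs]
    by_cases hx : R ≤ ‖x‖
    · rw [hf x hx, norm_zero]
      have := sq_nonneg ‖PD.px f x‖
      have := sq_nonneg R
      simp only [mul_zero, zero_mul, add_zero]
      positivity
    · have h1 : |x.re| ≤ R := (Complex.abs_re_le_norm x).trans (not_le.1 hx).le
      have h2 : |x.re| * ‖PD.px f x‖ * ‖f x‖ ≤ R * ‖PD.px f x‖ * ‖f x‖ := by gcongr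
      have h3 : |x.re| * ‖f x‖ * ‖PD.px f x‖ ≤ R * ‖PD.px f x‖ * ‖f x‖ := by
        rw [mul_right_comm]; exact h2
      nlinarith [sq_nonneg (‖f x‖ - 2 * R * ‖PD.px f x‖)]
  rw [integral_add (i1.const_mul _) (i2.const_mul _), integral_const_mul, integral_const_mul] at key
  linarith

end

section
variable {D : Set ℂ}

/-- Poincaré for velocities (`Cc.poincare` for `∂₁ψ`, `∂₂ψ`, `Cc.int_lap`). -/
theorem norm_gp_le {R : ℝ} (hR : 0 ≤ R) (hD : ∀ x ∈ D, ‖x‖ < R) (ψ : Adm D) :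
    ‖gp ψ‖ ≤ 2 * R * ‖cu ψ‖ := by
  have h : Cc (ψ : ℂ → ℂ) := Adm.cc ψ
  have hx : ∀ x : ℂ, R ≤ ‖x‖ → x ∉ D := fun x hx hxD => absurd (hD x hxD) (not_lt.2 hx)
  have h1 := h.px.poincare hR fun x h1 => px_zero ψ (hx x h1)
  have h2 := h.py.poincare hR fun x h1 => py_zero ψ (hx x h1)
  have i1 : Integrable fun x => ‖PD.px (PD.px ψ) x‖ ^ 2 := (h.px.px.memLp 2).norm.integrable_sq
  have i2 : Integrable fun x => ‖PD.px (PD.py ψ) x‖ ^ 2 := (h.py.px.memLp 2).norm.integrable_sq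
  have i3 : Integrable fun x => ‖PD.py (PD.py ψ) x‖ ^ 2 := (h.py.py.memLp 2).norm.integrable_sq
  have h3 := h.int_lap
  have h4 : (∫ x, ‖PD.px (PD.px ψ) x‖ ^ 2) + ∫ x, ‖PD.px (PD.py ψ) x‖ ^ 2 ≤ ‖cu ψ‖ ^ 2 := by
    rw [norm_cu_sq h, ← h3, ← integral_add i1 i2]
    refine integral_mono (i1.add i2) ((i1.add (i2.const_mul 2)).add i3) fun x => ?_
    show ‖PD.px (PD.px ψ) x‖ ^ 2 + ‖PD.px (PD.py ψ) x‖ ^ 2 ≤
      ‖PD.px (PD.px ψ) x‖ ^ 2 + 2 * ‖PD.px (PD.py ψ) x‖ ^ 2 + ‖PD.py (PD.py ψ) x‖ ^ 2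
    nlinarith [sq_nonneg ‖PD.px (PD.py ψ) x‖, sq_nonneg ‖PD.py (PD.py ψ) x‖]
  have h5 : ‖gp ψ‖ ^ 2 ≤ (2 * R * ‖cu ψ‖) ^ 2 := by
    rw [norm_gp_sq h, h.px.norm_sq, h.py.norm_sq, mul_pow]
    have := sq_nonneg R
    nlinarith
  exact (pow_le_pow_iff_left₀ (norm_nonneg _) (by positivity) two_ne_zero).1 h5

end

end Pool.Agent.Lib.MP_79abb3_an.PD
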