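import Pool.Agent.Lib.MP_79abb3_an.PD.SpB

/-!
Theorem D, block S: the Biot-Savart map `iot : V(D) → X(D)` and the embeddings into `L⁴`.
-/

set_option autoImplicit false
set_option linter.unusedSectionVars false

open MeasureTheory Set Filter Topology Function
open scoped ENNReal InnerProductSpace

namespace Pool.Agent.Lib.MP_79abb3_an.PD

open Pool.Agent.Lib.MP_79abb3_an.SC

variable {D : Set ℂ}

/-- `ψ ↦ ∂₂ψ`, `ψ ↦ -∂₁ψ` with values in `L⁴` -/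
noncomputable def o1 (D : Set ℂ) : Adm D →ₗ[ℂ] L4c where
  toFun ψ := cl4 (py ψ)
  map_add' ψ χ := by
    have e : py ((ψ + χ : Adm D) : ℂ → ℂ) = fun x => py ψ x + py χ x :=
      funext (py_add (Adm.cc ψ).smo (Adm.cc χ).smo)
    rw [e, cl4_add ((Adm.cc ψ).py.memLp 4) ((Adm.cc χ).py.memLp 4)]
  map_smul' c ψ := by
    have e : py ((c • ψ : Adm D) : ℂ → ℂ) = fun x => c * py ψ x := funext (py_cmul c (Adm.cc ψ).smo)
    rw [e, cl4_smul c ((Adm.cc ψ).py.memLp 4)]; rfl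

noncomputable def o2 (D : Set ℂ) : Adm D →ₗ[ℂ] L4c where
  toFun ψ := -cl4 (px ψ)
  map_add' ψ χ := by
    have e : px ((ψ + χ : Adm D) : ℂ → ℂ) = fun x => px ψ x + px χ x :=
      funext (px_add (Adm.cc ψ).smo (Adm.cc χ).smo)
    rw [e, cl4_add ((Adm.cc ψ).px.memLp 4) ((Adm.cc χ).px.memLp 4), neg_add]
  map_smul' c ψ := by
    have e : px ((c • ψ : Adm D) : ℂ → ℂ) = fun x => c * px ψ x := funext (px_cmul c (Adm.cc ψ).smo)
    rw [e, cl4_smul c ((Adm.cc ψ).px.memLp 4), ← smul_neg]; rfl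

/-- `V(D) → L⁴`, first and second component of the velocity. -/
noncomputable def j1 (D : Set ℂ) : VD D →L[ℂ] L4c := (o1 D).extendOfNorm (cuV D)
noncomputable def j2 (D : Set ℂ) : VD D →L[ℂ] L4c := (o2 D).extendOfNorm (cuV D)

theorem KD_eq (D : Set ℂ) : KD D = KF (iot D) := rfl

section
variable (hD : Bornology.IsBounded D)
include hD

theorem exists_radius : ∃ R, 0 ≤ R ∧ ∀ x ∈ D, ‖x‖ < R := by
  obtain ⟨R, hR⟩ := hD.subset_ball 0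
  refine ⟨max R 0, le_max_right _ _, fun x hx => ?_⟩
  have := hR hx
  rw [Metric.mem_ball, dist_zero_right] at this
  exact this.trans_le (le_max_left _ _)

theorem exists_gpX_le : ∃ C, 0 ≤ C ∧ ∀ ψ : Adm D, ‖gpX D ψ‖ ≤ C * ‖cuV D ψ‖ := by
  obtain ⟨R, hR, h⟩ := exists_radius hD
  exact ⟨2 * R, by positivity, fun ψ => norm_gp_le hR h ψ⟩

/-- `iot (-Δψ) = ∇^⊥ψ` -/
theorem iot_cuV (ψ : Adm D) : iot D (cuV D ψ) = gpX D ψ := by
  obtain ⟨C, -, h⟩ := exists_gpX_le hD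
  exact LinearMap.extendOfNorm_eq (f := gpX D) (e := cuV D) (cuV_dense D) ⟨C, h⟩ ψ

/-- bounds of the `L⁴` norms of the velocities by the norm of the vorticity -/
private theorem exists_o_le : ∃ C, ∀ ψ : Adm D, ‖cl4 (px ψ)‖ ≤ C * ‖cuV D ψ‖ ∧
    ‖cl4 (py ψ)‖ ≤ C * ‖cuV D ψ‖ := by
  obtain ⟨C, hC, h⟩ := exists_norm4
  obtain ⟨B, hB, h'⟩ := exists_gpX_le hD
  refine ⟨√(C * B), fun ψ => ?_⟩
  have key : ∀ t : ℝ, 0 ≤ t → t ^ 2 ≤ C * (‖gp (ψ : ℂ → ℂ)‖ * ‖cu (ψ : ℂ → ℂ)‖) →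
      t ≤ √(C * B) * ‖cuV D ψ‖ := by
    intro t ht h1
    have e1 : ‖gp (ψ : ℂ → ℂ)‖ ≤ B * ‖cuV D ψ‖ := h' ψ
    have e2 : ‖cu (ψ : ℂ → ℂ)‖ = ‖cuV D ψ‖ := rfl
    have h2 : t ^ 2 ≤ (√(C * B) * ‖cuV D ψ‖) ^ 2 := by
      rw [mul_pow, Real.sq_sqrt (mul_nonneg hC hB)]
      rw [e2] at h1
      calc t ^ 2 ≤ C * (‖gp (ψ : ℂ → ℂ)‖ * ‖cuV D ψ‖) := h1
        _ ≤ C * ((B * ‖cuV D ψ‖) * ‖cuV D ψ‖) := by gcongr
        _ = C * B * ‖cuV D ψ‖ ^ 2 := by ring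
    exact le_of_sq_le_sq h2 (by positivity)
  obtain ⟨h1, h2⟩ := h ψ (Adm.cc ψ)
  exact ⟨key _ (norm_nonneg _) h1, key _ (norm_nonneg _) h2⟩

/-- Proof: `exists_norm4`, `exists_gpX_le`. -/
theorem j1_cuV (ψ : Adm D) : j1 D (cuV D ψ) = cl4 (py ψ) := by
  obtain ⟨C, h⟩ := exists_o_le hD
  exact LinearMap.extendOfNorm_eq (f := o1 D) (e := cuV D) (cuV_dense D) ⟨C, fun χ => (h χ).2⟩ ψ
theorem j2_cuV (ψ : Adm D) : j2 D (cuV D ψ) = -cl4 (px ψ) := by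
  obtain ⟨C, h⟩ := exists_o_le hD
  refine LinearMap.extendOfNorm_eq (f := o2 D) (e := cuV D) (cuV_dense D) ⟨C, fun χ => ?_⟩ ψ
  have e : o2 D χ = -cl4 (px χ) := rfl
  rw [e, norm_neg]
  exact (h χ).1

/-- Ladyzhenskaya in `V(D)` (density). -/
theorem exists_j_le : ∃ C : ℝ, 0 ≤ C ∧ ∀ v : VD D, ‖j1 D v‖ ^ 2 ≤ C * (‖iot D v‖ * ‖v‖) ∧
    ‖j2 D v‖ ^ 2 ≤ C * (‖iot D v‖ * ‖v‖) := by
  obtain ⟨C, hC, h⟩ := exists_norm4
  refine ⟨C, hC, fun v => ?_⟩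
  have cl : IsClosed {v : VD D | ‖j1 D v‖ ^ 2 ≤ C * (‖iot D v‖ * ‖v‖) ∧
      ‖j2 D v‖ ^ 2 ≤ C * (‖iot D v‖ * ‖v‖)} := by
    have k1 : Continuous fun v : VD D => ‖j1 D v‖ ^ 2 := by fun_prop
    have k2 : Continuous fun v : VD D => ‖j2 D v‖ ^ 2 := by fun_prop
    have k3 : Continuous fun v : VD D => C * (‖iot D v‖ * ‖v‖) := by fun_prop
    exact (isClosed_le k1 k3).inter (isClosed_le k2 k3)
  refine isClosed_property (cuV_dense D) cl (fun ψ => ?_) v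
  obtain ⟨h1, h2⟩ := h ψ (Adm.cc ψ)
  have e1 : ‖(gpX D ψ : XD D)‖ = ‖gp (ψ : ℂ → ℂ)‖ := rfl
  have e2 : ‖cuV D ψ‖ = ‖cu (ψ : ℂ → ℂ)‖ := rfl
  rw [j1_cuV hD, j2_cuV hD, iot_cuV hD, norm_neg, e1, e2]
  exact ⟨h2, h1⟩

end

/-- the functions which vanish outside a set form a closed set -/
private theorem isClosed_zero (D : Set ℂ) : IsClosed {f : L2c | ∀ᵐ y ∂volume, y ∉ D → f y = 0} := by
  apply IsSeqClosed.isClosed
  intro f g hf hg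
  obtain ⟨ns, -, h⟩ := (tendstoInMeasure_of_tendsto_Lp hg).exists_seq_tendsto_ae
  have h' : ∀ᵐ y ∂(volume : Measure ℂ), ∀ n, y ∉ D → f n y = 0 := ae_all_iff.2 hf
  filter_upwards [h, h'] with y h1 h2 hy
  refine tendsto_nhds_unique h1 ?_
  have e : (fun i => f (ns i) y) = fun _ => 0 := funext fun i => h2 (ns i) hy
  rw [e]
  exact tendsto_const_nhds

/-- Velocities vanish outside `D` (closed condition). -/
theorem XD_zero (x : XD D) : ∀ᵐ y ∂volume, y ∉ D → (x : Y2).fst y = 0 ∧ (x : Y2).snd y = 0 := by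
  have c1 : Continuous fun x : XD D => (x : Y2).fst := by fun_prop
  have c2 : Continuous fun x : XD D => (x : Y2).snd := by fun_prop
  have cl := ((isClosed_zero D).preimage c1).inter ((isClosed_zero D).preimage c2)
  have key := isClosed_property (gpX_dense D) cl (fun ψ => ?_) x
  · filter_upwards [key.1, key.2] with y h1 h2 hy
    exact ⟨h1 hy, h2 hy⟩
  · constructor
    · show ∀ᵐ y ∂volume, y ∉ D → cl2 (py ψ) y = 0
      filter_upwards [cl2_coe ((Adm.cc ψ).py.memLp 2)] with y h hy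
      rw [h, py_zero ψ hy]
    · show ∀ᵐ y ∂volume, y ∉ D → (-cl2 (px ψ) : L2c) y = 0
      filter_upwards [cl2_coe ((Adm.cc ψ).px.memLp 2), Lp.coeFn_neg (cl2 (px ψ))] with y h h' hy
      rw [h', Pi.neg_apply, h, px_zero ψ hy, neg_zero]
/-- Vorticities vanish outside `D`. -/
theorem VD_zero (v : VD D) : ∀ᵐ y ∂volume, y ∉ D → (v : L2c) y = 0 := by
  have c1 : Continuous fun v : VD D => (v : L2c) := by fun_prop
  refine isClosed_property (cuV_dense D) ((isClosed_zero D).preimage c1) (fun ψ => ?_) v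
  show ∀ᵐ y ∂volume, y ∉ D → (-cl2 (lap ψ) : L2c) y = 0
  filter_upwards [cl2_coe ((Adm.cc ψ).lap.memLp 2), Lp.coeFn_neg (cl2 (lap ψ))] with y h h' hy
  rw [h', Pi.neg_apply, h, lap_zero ψ hy, neg_zero]


end Pool.Agent.Lib.MP_79abb3_an.PD
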