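import Pool.Agent.Lib.MP_79abb3_an.PD.SpCa

/-!
Theorem D, block S: the `L⁴` classes of the velocities.
-/

set_option autoImplicit false
set_option linter.unusedSectionVars false

open MeasureTheory Set Filter Topology Function
open scoped ENNReal InnerProductSpace

namespace Pool.Agent.Lib.MP_79abb3_an.PD

open Pool.Agent.Lib.MP_79abb3_an.SC

variable {D : Set ℂ}

private theorem ae_eq_lim {f : ℕ → L4c} {F : L4c} {g : ℕ → L2c} {G : L2c} (hf : Tendsto f atTop (𝓝 F))
    (hg : Tendsto g atTop (𝓝 G)) (h : ∀ n, (f n : ℂ → ℂ) =ᵐ[volume] g n) : (F : ℂ → ℂ) =ᵐ[volume] G := by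
  have h1 := tendstoInMeasure_of_tendsto_Lp hf
  have h2 := tendstoInMeasure_of_tendsto_Lp hg
  exact tendstoInMeasure_ae_unique h1 (h2.congr_left fun n => (h n).symm)

private theorem isClosed_ae {a : VD D → L4c} {b : VD D → L2c} (ha : Continuous a) (hb : Continuous b) :
    IsClosed {v : VD D | (a v : ℂ → ℂ) =ᵐ[volume] b v} := by
  apply IsSeqClosed.isClosed
  intro f g hf hg
  exact ae_eq_lim ((ha.tendsto g).comp hg) ((hb.tendsto g).comp hg) hf

section
variable (hD : Bornology.IsBounded D)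
include hD

/-- The `L⁴` class and the `L²` class of the velocity are equal almost everywhere. Proof: density of `cuV`, limits in `L²` and
`L⁴` have a common almost everywhere convergent subsequence (or: equality of the integrals over sets of finite measure,
which are continuous in both norms). -/
theorem j1_ae (v : VD D) : (j1 D v : ℂ → ℂ) =ᵐ[volume] ((iot D v : XD D) : Y2).fst := by
  have c1 : Continuous fun v : VD D => j1 D v := by fun_prop
  have c2 : Continuous fun v : VD D => ((iot D v : XD D) : Y2).fst := by fun_prop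
  refine isClosed_property (cuV_dense D) (isClosed_ae c1 c2) (fun ψ => ?_) v
  show (j1 D (cuV D ψ) : ℂ → ℂ) =ᵐ[volume] ((iot D (cuV D ψ) : XD D) : Y2).fst
  rw [j1_cuV hD, iot_cuV hD]
  show (cl4 (py ψ) : ℂ → ℂ) =ᵐ[volume] cl2 (py ψ)
  exact (cl4_coe ((Adm.cc ψ).py.memLp 4)).trans (cl2_coe ((Adm.cc ψ).py.memLp 2)).symm
theorem j2_ae (v : VD D) : (j2 D v : ℂ → ℂ) =ᵐ[volume] ((iot D v : XD D) : Y2).snd := by
  have c1 : Continuous fun v : VD D => j2 D v := by fun_prop
  have c2 : Continuous fun v : VD D => ((iot D v : XD D) : Y2).snd := by fun_prop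
  refine isClosed_property (cuV_dense D) (isClosed_ae c1 c2) (fun ψ => ?_) v
  show (j2 D (cuV D ψ) : ℂ → ℂ) =ᵐ[volume] ((iot D (cuV D ψ) : XD D) : Y2).snd
  rw [j2_cuV hD, iot_cuV hD]
  show ((-cl4 (px ψ) : L4c) : ℂ → ℂ) =ᵐ[volume] (-cl2 (px ψ) : L2c)
  filter_upwards [cl4_coe ((Adm.cc ψ).px.memLp 4), cl2_coe ((Adm.cc ψ).px.memLp 2),
    Lp.coeFn_neg (cl4 (px ψ)), Lp.coeFn_neg (cl2 (px ψ))] with y h1 h2 h3 h4
  rw [h3, h4, Pi.neg_apply, Pi.neg_apply, h1, h2]

end

end Pool.Agent.Lib.MP_79abb3_an.PD
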