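import Pool.Agent.Lib.MP_79abb3_an.PD.SpC
import Pool.Agent.Lib.MP_79abb3_an.PD.AbJ

/-!
Theorem D, block S: the real structure of the spaces of `D`.
-/

set_option autoImplicit false
set_option linter.unusedSectionVars false

open MeasureTheory Set Filter Topology Function
open scoped ENNReal InnerProductSpace ComplexConjugate

namespace Pool.Agent.Lib.MP_79abb3_an.PD

open Pool.Agent.Lib.MP_79abb3_an.SC

/-- complex conjugation in `L²` -/
noncomputable def cL2 : L2c →L[ℝ] L2c := (Complex.conjCLE : ℂ →L[ℝ] ℂ).compLpL 2 (volume : Measure ℂ)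

/-- complex conjugation in `L⁴` -/
noncomputable def cL4 : L4c →L[ℝ] L4c := (Complex.conjCLE : ℂ →L[ℝ] ℂ).compLpL 4 (volume : Measure ℂ)

theorem cL2_coe (f : L2c) : (cL2 f : ℂ → ℂ) =ᵐ[volume] fun x => conj ((f : ℂ → ℂ) x) :=
  (Complex.conjCLE : ℂ →L[ℝ] ℂ).coeFn_compLpL f

theorem cL4_coe (f : L4c) : (cL4 f : ℂ → ℂ) =ᵐ[volume] fun x => conj ((f : ℂ → ℂ) x) :=
  (Complex.conjCLE : ℂ →L[ℝ] ℂ).coeFn_compLpL f

/-- complex conjugation of velocities -/
noncomputable def cYy : Y2 →L[ℝ] Y2 :=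
  ((WithLp.prodContinuousLinearEquiv 2 ℝ L2c L2c).symm : (L2c × L2c) →L[ℝ] Y2).comp
    ((cL2.prodMap cL2).comp ((WithLp.prodContinuousLinearEquiv 2 ℝ L2c L2c) : Y2 →L[ℝ] (L2c × L2c)))

theorem cYy_fst (x : Y2) : (cYy x).fst = cL2 x.fst := rfl
theorem cYy_snd (x : Y2) : (cYy x).snd = cL2 x.snd := rfl

/-- complex conjugation of pairs of `L⁴` functions -/
noncomputable def cZ4 : (L4c × L4c) →L[ℝ] (L4c × L4c) := cL4.prodMap cL4

theorem Cnj_cL2 : Cnj cL2 := by
  constructor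
  · intro x
    apply Lp.ext
    filter_upwards [cL2_coe (cL2 x), cL2_coe x] with y h1 h2
    exact h1.trans ((congrArg conj h2).trans (Complex.conj_conj _))
  · intro c x
    apply Lp.ext
    filter_upwards [cL2_coe (c • x), cL2_coe x, Lp.coeFn_smul c x, Lp.coeFn_smul (star c) (cL2 x)]
      with y h1 h2 h3 h4
    refine h1.trans (Eq.trans ?_ h4.symm)
    rw [h3, Pi.smul_apply, Pi.smul_apply, h2, smul_eq_mul, smul_eq_mul, map_mul]
    rfl
  · intro x y
    rw [L2.inner_def, L2.inner_def]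
    refine integral_congr_ae ?_
    filter_upwards [cL2_coe x, cL2_coe y] with z h1 h2
    rw [RCLike.inner_apply, RCLike.inner_apply]
    refine (congrArg₂ (fun a b => b * conj a) h1 h2).trans ?_
    show conj ((y : ℂ → ℂ) z) * conj (conj ((x : ℂ → ℂ) z)) = _
    rw [Complex.conj_conj, mul_comm]

theorem Cnj_cYy : Cnj cYy := by
  constructor
  · intro x
    apply WithLp.ofLp_injective
    apply Prod.ext
    · show cL2 (cL2 x.fst) = x.fst
      exact Cnj_cL2.inv _
    · show cL2 (cL2 x.snd) = x.snd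
      exact Cnj_cL2.inv _
  · intro c x
    apply WithLp.ofLp_injective
    apply Prod.ext
    · show cL2 (c • x.fst) = star c • cL2 x.fst
      exact Cnj_cL2.anti _ _
    · show cL2 (c • x.snd) = star c • cL2 x.snd
      exact Cnj_cL2.anti _ _
  · intro x y
    rw [WithLp.prod_inner_apply, WithLp.prod_inner_apply]
    congr 1
    · exact Cnj_cL2.inner _ _
    · exact Cnj_cL2.inner _ _

private theorem cL4_inv (x : L4c) : cL4 (cL4 x) = x := by
  apply Lp.ext
  filter_upwards [cL4_coe (cL4 x), cL4_coe x] with y h1 h2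
  exact h1.trans ((congrArg conj h2).trans (Complex.conj_conj _))

private theorem cL4_anti (c : ℂ) (x : L4c) : cL4 (c • x) = star c • cL4 x := by
  apply Lp.ext
  filter_upwards [cL4_coe (c • x), cL4_coe x, Lp.coeFn_smul c x, Lp.coeFn_smul (star c) (cL4 x)]
    with y h1 h2 h3 h4
  refine h1.trans (Eq.trans ?_ h4.symm)
  rw [h3, Pi.smul_apply, Pi.smul_apply, h2, smul_eq_mul, smul_eq_mul, map_mul]
  rfl

private theorem cL4_norm (x : L4c) : ‖cL4 x‖ = ‖x‖ := by
  rw [Lp.norm_def, Lp.norm_def]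
  congr 1
  refine eLpNorm_congr_norm_ae ?_
  filter_upwards [cL4_coe x] with y h
  rw [h, RCLike.norm_conj]

theorem cZ4_inv (z : L4c × L4c) : cZ4 (cZ4 z) = z :=
  Prod.ext (cL4_inv _) (cL4_inv _)

theorem cZ4_anti (c : ℂ) (z : L4c × L4c) : cZ4 (c • z) = star c • cZ4 z :=
  Prod.ext (cL4_anti _ _) (cL4_anti _ _)

theorem cZ4_norm (z : L4c × L4c) : ‖cZ4 z‖ = ‖z‖ := by
  rw [Prod.norm_def, Prod.norm_def]
  show max ‖cL4 z.1‖ ‖cL4 z.2‖ = _
  rw [cL4_norm, cL4_norm]

private theorem memLp_cj {f : ℂ → ℂ} {p : ℝ≥0∞} (hf : MemLp f p (volume : Measure ℂ)) :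
    MemLp (fun x => conj (f x)) p (volume : Measure ℂ) := by
  refine hf.congr_norm (Complex.continuous_conj.comp_aestronglyMeasurable hf.1) ?_
  exact Eventually.of_forall fun x => (RCLike.norm_conj (f x)).symm

theorem cl2_conj {f : ℂ → ℂ} (hf : MemLp f 2 (volume : Measure ℂ)) :
    cL2 (cl2 f) = cl2 (fun x => conj (f x)) := by
  have h : MemLp (fun x => conj (f x)) 2 (volume : Measure ℂ) := memLp_cj hf
  apply Lp.ext
  filter_upwards [cL2_coe (cl2 f), cl2_coe hf, cl2_coe h] with y h1 h2 h3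
  rw [h1, h2, h3]

theorem cl4_conj {f : ℂ → ℂ} (hf : MemLp f 4 (volume : Measure ℂ)) :
    cL4 (cl4 f) = cl4 (fun x => conj (f x)) := by
  have h : MemLp (fun x => conj (f x)) 4 (volume : Measure ℂ) := memLp_cj hf
  apply Lp.ext
  filter_upwards [cL4_coe (cl4 f), cl4_coe hf, cl4_coe h] with y h1 h2 h3
  rw [h1, h2, h3]

end Pool.Agent.Lib.MP_79abb3_an.PD
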