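import Pool.Agent.Lib.MP_79abb3_an.PD.SpDa

/-!
Theorem D, block S: the real structure of the spaces of `D`, second part.
-/

set_option autoImplicit false
set_option linter.unusedSectionVars false

open MeasureTheory Set Filter Topology Function
open scoped ENNReal InnerProductSpace ComplexConjugate

namespace Pool.Agent.Lib.MP_79abb3_an.PD

open Pool.Agent.Lib.MP_79abb3_an.SC

section
variable {D : Set ℂ}

/-- the conjugate of an admissible stream function -/
noncomputable def cA (ψ : Adm D) : Adm D := ⟨fun x => conj ((ψ : ℂ → ℂ) x), by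
  refine ⟨(Adm.cc ψ).conj, (closure_mono ?_).trans (Adm.supp ψ)⟩
  intro x hx h0
  apply hx
  have h1 : HasFDerivAt (fun x => conj ((ψ : ℂ → ℂ) x))
      ((Complex.conjCLE : ℂ →L[ℝ] ℂ) ∘L fderiv ℝ (ψ : ℂ → ℂ) x) x :=
    (Complex.conjCLE : ℂ →L[ℝ] ℂ).hasFDerivAt.comp x ((Adm.cc ψ).smo.differentiable x).hasFDerivAt
  rw [h1.fderiv, h0, ContinuousLinearMap.comp_zero]⟩

theorem gp_conj {f : ℂ → ℂ} (h : Cc f) : cYy (gp f) = gp (fun x => conj (f x)) := by
  apply WithLp.ofLp_injective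
  apply Prod.ext
  · show cL2 (cl2 (py f)) = cl2 (py fun x => conj (f x))
    rw [cl2_conj (h.py.memLp 2), h.smo.py_conj]
  · show cL2 (-cl2 (px f)) = -cl2 (px fun x => conj (f x))
    rw [h.smo.px_conj, ← cl2_conj (h.px.memLp 2)]
    exact map_neg cL2 _

theorem cu_conj {f : ℂ → ℂ} (h : Cc f) : cL2 (cu f) = cu (fun x => conj (f x)) := by
  have e : lap (fun x => conj (f x)) = fun x => conj (lap f x) := by
    funext x
    show px (px fun x => conj (f x)) x + py (py fun x => conj (f x)) x = conj (px (px f) x + py (py f) x)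
    rw [h.smo.px_conj, h.smo.py_conj, h.smo.px.px_conj, h.smo.py.py_conj, map_add]
  show cL2 (-cl2 (lap f)) = -cl2 (lap fun x => conj (f x))
  rw [e, ← cl2_conj (h.lap.memLp 2)]
  exact map_neg cL2 _

theorem cYy_mem (x : XD D) : cYy (x : Y2) ∈ XD D := by
  have h : (x : Y2) ∈ closure (LinearMap.range (gpL D) : Set Y2) := x.2
  refine map_mem_closure cYy.continuous h ?_
  rintro _ ⟨ψ, rfl⟩
  exact ⟨cA ψ, (gp_conj (Adm.cc ψ)).symm⟩

theorem cL2_mem (v : VD D) : cL2 (v : L2c) ∈ VD D := by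
  have h : (v : L2c) ∈ closure (LinearMap.range (cuL D) : Set L2c) := v.2
  refine map_mem_closure cL2.continuous h ?_
  rintro _ ⟨ψ, rfl⟩
  exact ⟨cA ψ, (cu_conj (Adm.cc ψ)).symm⟩

/-- conjugation in `XD D` -/
noncomputable def cXD (D : Set ℂ) : XD D →L[ℝ] XD D :=
  LinearMap.mkContinuous
    { toFun := fun x => ⟨cYy (x : Y2), cYy_mem x⟩
      map_add' := fun x y => Subtype.ext (map_add cYy (x : Y2) (y : Y2))
      map_smul' := fun c x => Subtype.ext (map_smul cYy c (x : Y2)) } ‖cYy‖ (fun x => cYy.le_opNorm (x : Y2))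

/-- conjugation in `VD D` -/
noncomputable def cVD (D : Set ℂ) : VD D →L[ℝ] VD D :=
  LinearMap.mkContinuous
    { toFun := fun x => ⟨cL2 (x : L2c), cL2_mem x⟩
      map_add' := fun x y => Subtype.ext (map_add cL2 (x : L2c) (y : L2c))
      map_smul' := fun c x => Subtype.ext (map_smul cL2 c (x : L2c)) } ‖cL2‖ (fun x => cL2.le_opNorm (x : L2c))

theorem cXD_coe (x : XD D) : ((cXD D x : XD D) : Y2) = cYy (x : Y2) := rfl
theorem cVD_coe (v : VD D) : ((cVD D v : VD D) : L2c) = cL2 (v : L2c) := rfl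

theorem cXD_gpX (ψ : Adm D) : cXD D (gpX D ψ) = gpX D (cA ψ) :=
  Subtype.ext (gp_conj (Adm.cc ψ))

theorem cVD_cuV (ψ : Adm D) : cVD D (cuV D ψ) = cuV D (cA ψ) :=
  Subtype.ext (cu_conj (Adm.cc ψ))

/-- The embedding of `V(D)` into `L⁴ × L⁴`. -/
noncomputable def jj (D : Set ℂ) : VD D →L[ℂ] (L4c × L4c) := (j1 D).prod (j2 D)

theorem exists_Lad (hD : Bornology.IsBounded D) : ∃ C, Lad (iot D) (jj D) C := by
  obtain ⟨C, hC, h⟩ := exists_j_le hD
  refine ⟨√C, fdom hD, Real.sqrt_nonneg _, fun v => ?_⟩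
  rw [Real.sq_sqrt hC]
  obtain ⟨h1, h2⟩ := h v
  show ‖(j1 D v, j2 D v)‖ ^ 2 ≤ _
  rw [Prod.norm_def]
  rcases max_choice ‖j1 D v‖ ‖j2 D v‖ with e | e
  · show max ‖j1 D v‖ ‖j2 D v‖ ^ 2 ≤ _
    rw [e]; exact h1
  · show max ‖j1 D v‖ ‖j2 D v‖ ^ 2 ≤ _
    rw [e]; exact h2

theorem FCj_D (hD : Bornology.IsBounded D) : FCj (iot D) (jj D) (cXD D) (cVD D) cZ4 where
  X := {
    inv := fun x => Subtype.ext (Cnj_cYy.inv _)
    anti := fun c x => Subtype.ext (Cnj_cYy.anti _ _)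
    inner := fun x y => Cnj_cYy.inner _ _ }
  V := {
    inv := fun x => Subtype.ext (Cnj_cL2.inv _)
    anti := fun c x => Subtype.ext (Cnj_cL2.anti _ _)
    inner := fun x y => Cnj_cL2.inner _ _ }
  Zi := cZ4_inv
  Za := cZ4_anti
  Zn := cZ4_norm
  ι := fun v => by
    have c1 : Continuous fun v : VD D => cXD D (iot D v) := (cXD D).continuous.comp (iot D).continuous
    have c2 : Continuous fun v : VD D => iot D (cVD D v) := (iot D).continuous.comp (cVD D).continuous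
    refine isClosed_property (cuV_dense D) (isClosed_eq c1 c2) (fun ψ => ?_) v
    rw [iot_cuV hD, cVD_cuV, cXD_gpX, iot_cuV hD]
  j := fun v => by
    have c1 : Continuous fun v : VD D => cZ4 (jj D v) := cZ4.continuous.comp (jj D).continuous
    have c2 : Continuous fun v : VD D => jj D (cVD D v) := (jj D).continuous.comp (cVD D).continuous
    refine isClosed_property (cuV_dense D) (isClosed_eq c1 c2) (fun ψ => ?_) v
    rw [cVD_cuV]
    apply Prod.ext
    · show cL4 (j1 D (cuV D ψ)) = j1 D (cuV D (cA ψ))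
      rw [j1_cuV hD, j1_cuV hD, cl4_conj ((Adm.cc ψ).py.memLp 4)]
      show _ = cl4 (py fun x => conj ((ψ : ℂ → ℂ) x))
      rw [(Adm.cc ψ).smo.py_conj]
    · show cL4 (j2 D (cuV D ψ)) = j2 D (cuV D (cA ψ))
      rw [j2_cuV hD, j2_cuV hD]
      show _ = -cl4 (px fun x => conj ((ψ : ℂ → ℂ) x))
      rw [(Adm.cc ψ).smo.px_conj, ← cl4_conj ((Adm.cc ψ).px.memLp 4)]
      exact map_neg cL4 _

end

end Pool.Agent.Lib.MP_79abb3_an.PD
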