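import Pool.Agent.Lib.MP_79abb3_an.PD.SpDb
import Pool.Agent.Lib.MP_79abb3_an.PD.AbW

/-!
Theorem D, block S: multiplication operators, the stream function operator `str : XD → L²`, forces in `XD`.
-/

set_option autoImplicit false
set_option linter.unusedSectionVars false

open MeasureTheory Set Filter Topology Function
open scoped ENNReal InnerProductSpace ComplexConjugate

namespace Pool.Agent.Lib.MP_79abb3_an.PD

open Pool.Agent.Lib.MP_79abb3_an.SC

/-! ### Multiplication by bounded functions -/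

/-- bounded measurable functions -/
def Bm (g : ℂ → ℂ) (c : ℝ) : Prop := AEStronglyMeasurable g (volume : Measure ℂ) ∧ ∀ x, ‖g x‖ ≤ c

private theorem Bm.memLp {g : ℂ → ℂ} {c : ℝ} (h : Bm g c) {f : ℂ → ℂ}
    (hf : MemLp f 2 (volume : Measure ℂ)) : MemLp (fun x => g x * f x) 2 (volume : Measure ℂ) :=
  MemLp.of_le_mul (c := c) hf (h.1.mul hf.1)
    (Eventually.of_forall fun x => by
      rw [norm_mul]
      exact mul_le_mul_of_nonneg_right (h.2 x) (norm_nonneg _))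

private theorem Bm.nonneg {g : ℂ → ℂ} {c : ℝ} (h : Bm g c) : 0 ≤ c :=
  (norm_nonneg _).trans (h.2 0)

/-- Proof: `MemLp.of_le_mul`, `MemLp.toLp`, `LinearMap.mkContinuous`. -/
theorem exists_mm {g : ℂ → ℂ} {c : ℝ} (h : Bm g c) : ∃ M : L2c →L[ℂ] L2c, ‖M‖ ≤ c ∧
    ∀ f : L2c, (M f : ℂ → ℂ) =ᵐ[volume] fun x => g x * (f : ℂ → ℂ) x := by
  let L : L2c →ₗ[ℂ] L2c :=
    { toFun := fun f => (h.memLp (Lp.memLp f)).toLp _
      map_add' := by
        intro a b
        refine Lp.ext ?_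
        filter_upwards [(h.memLp (Lp.memLp (a + b))).coeFn_toLp, (h.memLp (Lp.memLp a)).coeFn_toLp,
          (h.memLp (Lp.memLp b)).coeFn_toLp, Lp.coeFn_add a b,
          Lp.coeFn_add ((h.memLp (Lp.memLp a)).toLp _) ((h.memLp (Lp.memLp b)).toLp _)]
          with x h1 h2 h3 h4 h5
        rw [h1, h5, Pi.add_apply, h2, h3, h4, Pi.add_apply, mul_add]
      map_smul' := by
        intro k a
        refine Lp.ext ?_
        filter_upwards [(h.memLp (Lp.memLp (k • a))).coeFn_toLp, (h.memLp (Lp.memLp a)).coeFn_toLp,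
          Lp.coeFn_smul k a, Lp.coeFn_smul k ((h.memLp (Lp.memLp a)).toLp _)]
          with x h1 h2 h3 h4
        rw [h1, RingHom.id_apply, h4, Pi.smul_apply, h2, h3, Pi.smul_apply, smul_eq_mul,
          smul_eq_mul]
        ring }
  have hL : ∀ f : L2c, (L f : ℂ → ℂ) =ᵐ[volume] fun x => g x * (f : ℂ → ℂ) x :=
    fun f => (h.memLp (Lp.memLp f)).coeFn_toLp
  have hb : ∀ f : L2c, ‖L f‖ ≤ c * ‖f‖ := by
    intro f
    refine Lp.norm_le_mul_norm_of_ae_le_mul ?_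
    filter_upwards [hL f] with x hx
    rw [hx, norm_mul]
    exact mul_le_mul_of_nonneg_right (h.2 x) (norm_nonneg _)
  exact ⟨L.mkContinuous c hb, L.mkContinuous_norm_le h.nonneg hb, hL⟩

/-- multiplication by `g` (zero if `g` is not bounded and measurable) -/
noncomputable def mm (g : ℂ → ℂ) : L2c →L[ℂ] L2c :=
  open scoped Classical in if h : ∃ c, Bm g c then (exists_mm h.choose_spec).choose else 0

theorem mm_coe {g : ℂ → ℂ} {c : ℝ} (h : Bm g c) (f : L2c) :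
    (mm g f : ℂ → ℂ) =ᵐ[volume] fun x => g x * (f : ℂ → ℂ) x := by
  have h' : ∃ c, Bm g c := ⟨c, h⟩
  have e : mm g = (exists_mm h'.choose_spec).choose := dif_pos h'
  rw [e]
  exact (exists_mm h'.choose_spec).choose_spec.2 f

theorem mm_norm {g : ℂ → ℂ} {c : ℝ} (h : Bm g c) : ‖mm g‖ ≤ c := by
  refine ContinuousLinearMap.opNorm_le_bound _ h.nonneg fun f => ?_
  refine Lp.norm_le_mul_norm_of_ae_le_mul ?_
  filter_upwards [mm_coe h f] with x hx
  rw [hx, norm_mul]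
  exact mul_le_mul_of_nonneg_right (h.2 x) (norm_nonneg _)

theorem mm_cl2 {g f : ℂ → ℂ} {c : ℝ} (h : Bm g c) (hf : MemLp f 2 (volume : Measure ℂ)) :
    mm g (cl2 f) = cl2 (fun x => g x * f x) := by
  refine Lp.ext ?_
  filter_upwards [mm_coe h (cl2 f), cl2_coe hf, cl2_coe (h.memLp hf)] with x h1 h2 h3
  rw [h1, h2, h3]

private theorem Bm.conj {g : ℂ → ℂ} {c : ℝ} (h : Bm g c) : Bm (fun x => conj (g x)) c :=
  ⟨Complex.continuous_conj.comp_aestronglyMeasurable h.1, fun x => by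
    rw [RCLike.norm_conj]
    exact h.2 x⟩

theorem mm_inner {g : ℂ → ℂ} {c : ℝ} (h : Bm g c) (u v : L2c) :
    ⟪mm g u, v⟫_ℂ = ⟪u, mm (fun x => conj (g x)) v⟫_ℂ := by
  rw [L2.inner_def, L2.inner_def]
  refine integral_congr_ae ?_
  filter_upwards [mm_coe h u, mm_coe h.conj v] with x h1 h2
  rw [h1, h2, RCLike.inner_apply, RCLike.inner_apply, map_mul]
  ring

theorem mm_sub {g g' : ℂ → ℂ} {c c' : ℝ} (h : Bm g c) (h' : Bm g' c') :
    mm (fun x => g x - g' x) = mm g - mm g' := by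
  have h2 : Bm (fun x => g x - g' x) (c + c') :=
    ⟨h.1.sub h'.1, fun x => (norm_sub_le _ _).trans (add_le_add (h.2 x) (h'.2 x))⟩
  refine ContinuousLinearMap.ext fun f => Lp.ext ?_
  rw [_root_.sub_apply]
  filter_upwards [mm_coe h2 f, mm_coe h f, mm_coe h' f, Lp.coeFn_sub (mm g f) (mm g' f)]
    with x h3 h4 h5 h6
  rw [h3, h6, Pi.sub_apply, h4, h5]
  ring

theorem mm_smul (k : ℂ) {g : ℂ → ℂ} {c : ℝ} (h : Bm g c) : mm (fun x => k * g x) = k • mm g := by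
  have h2 : Bm (fun x => k * g x) (‖k‖ * c) :=
    ⟨h.1.const_mul k, fun x => by
      rw [norm_mul]
      exact mul_le_mul_of_nonneg_left (h.2 x) (norm_nonneg _)⟩
  refine ContinuousLinearMap.ext fun f => Lp.ext ?_
  rw [_root_.smul_apply]
  filter_upwards [mm_coe h2 f, mm_coe h f, Lp.coeFn_smul k (mm g f)] with x h3 h4 h5
  rw [h3, h5, Pi.smul_apply, h4, smul_eq_mul]
  ring

theorem mm_conj {g : ℂ → ℂ} {c : ℝ} (h : Bm g c) (f : L2c) :
    cL2 (mm g f) = mm (fun x => conj (g x)) (cL2 f) := by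
  refine Lp.ext ?_
  filter_upwards [cL2_coe (mm g f), mm_coe h f, mm_coe h.conj (cL2 f), cL2_coe f]
    with x h1 h2 h3 h4
  rw [h1, h2, h3, h4, map_mul]

/-- `(u₁, u₂) ↦ (g u₂, -g u₁)` -/
noncomputable def rot (g : ℂ → ℂ) : Y2 →L[ℂ] Y2 :=
  ((WithLp.prodContinuousLinearEquiv 2 ℂ L2c L2c).symm : (L2c × L2c) →L[ℂ] Y2).comp
    ((((mm g).comp (ContinuousLinearMap.snd ℂ L2c L2c)).prod
      (-(mm g).comp (ContinuousLinearMap.fst ℂ L2c L2c))).comp
      ((WithLp.prodContinuousLinearEquiv 2 ℂ L2c L2c) : Y2 →L[ℂ] (L2c × L2c)))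

theorem rot_fst (g : ℂ → ℂ) (u : Y2) : (rot g u).fst = mm g u.snd := rfl
theorem rot_snd (g : ℂ → ℂ) (u : Y2) : (rot g u).snd = -mm g u.fst := rfl

/-- `ω ↦ (ω L₂, -ω L₁)` -/
noncomputable def vot (L1 L2 : ℂ → ℂ) : L2c →L[ℂ] Y2 :=
  ((WithLp.prodContinuousLinearEquiv 2 ℂ L2c L2c).symm : (L2c × L2c) →L[ℂ] Y2).comp
    ((mm L2).prod (-(mm L1)))

theorem vot_fst (L1 L2 : ℂ → ℂ) (ω : L2c) : (vot L1 L2 ω).fst = mm L2 ω := rfl
theorem vot_snd (L1 L2 : ℂ → ℂ) (ω : L2c) : (vot L1 L2 ω).snd = -mm L1 ω := rfl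

end Pool.Agent.Lib.MP_79abb3_an.PD
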