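import Pool.Agent.Lib.MP_79abb3_an.PD.SpEa2

/-!
Theorem D, block S: one more scalar unknown: `V(D) × ℂ → X(D) × ℂ`.
-/

set_option autoImplicit false
set_option linter.unusedSectionVars false

open MeasureTheory Set Filter Topology Function
open scoped ENNReal InnerProductSpace ComplexConjugate

namespace Pool.Agent.Lib.MP_79abb3_an.PD

open Pool.Agent.Lib.MP_79abb3_an.SC

/-- the extended form domain -/
abbrev VE (D : Set ℂ) : Type := WithLp 2 (VD D × ℂ)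

/-- the extended space -/
abbrev XE (D : Set ℂ) : Type := WithLp 2 (XD D × ℂ)

section
variable (D : Set ℂ)

/-- `(v, m) ↦ (iot v, m)` -/
noncomputable def iotE : VE D →L[ℂ] XE D :=
  ((WithLp.prodContinuousLinearEquiv 2 ℂ (XD D) ℂ).symm : (XD D × ℂ) →L[ℂ] XE D).comp
    (((iot D).prodMap (ContinuousLinearMap.id ℂ ℂ)).comp
      ((WithLp.prodContinuousLinearEquiv 2 ℂ (VD D) ℂ) : VE D →L[ℂ] (VD D × ℂ)))

/-- first and second component -/
noncomputable def fsE : VE D →L[ℂ] VD D :=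
  (ContinuousLinearMap.fst ℂ (VD D) ℂ).comp ((WithLp.prodContinuousLinearEquiv 2 ℂ (VD D) ℂ) : VE D →L[ℂ] (VD D × ℂ))
noncomputable def snE : VE D →L[ℂ] ℂ :=
  (ContinuousLinearMap.snd ℂ (VD D) ℂ).comp ((WithLp.prodContinuousLinearEquiv 2 ℂ (VD D) ℂ) : VE D →L[ℂ] (VD D × ℂ))

theorem iotE_fst (w : VE D) : (iotE D w).fst = iot D w.fst := rfl
theorem iotE_snd (w : VE D) : (iotE D w).snd = w.snd := rfl
theorem fsE_apply (w : VE D) : fsE D w = w.fst := rfl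
theorem snE_apply (w : VE D) : snE D w = w.snd := rfl

/-- the embedding into `L⁴ × L⁴` -/
noncomputable def jE : VE D →L[ℂ] (L4c × L4c) := (jj D).comp (fsE D)

/-- conjugations -/
noncomputable def cXE : XE D →L[ℝ] XE D :=
  ((WithLp.prodContinuousLinearEquiv 2 ℝ (XD D) ℂ).symm : (XD D × ℂ) →L[ℝ] XE D).comp
    (((cXD D).prodMap (Complex.conjCLE : ℂ →L[ℝ] ℂ)).comp
      ((WithLp.prodContinuousLinearEquiv 2 ℝ (XD D) ℂ) : XE D →L[ℝ] (XD D × ℂ)))
noncomputable def cVE : VE D →L[ℝ] VE D :=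
  ((WithLp.prodContinuousLinearEquiv 2 ℝ (VD D) ℂ).symm : (VD D × ℂ) →L[ℝ] VE D).comp
    (((cVD D).prodMap (Complex.conjCLE : ℂ →L[ℝ] ℂ)).comp
      ((WithLp.prodContinuousLinearEquiv 2 ℝ (VD D) ℂ) : VE D →L[ℝ] (VD D × ℂ)))

private theorem speb_ext {H : Type} [NormedAddCommGroup H] {a b : WithLp 2 (H × ℂ)} (h1 : a.fst = b.fst)
    (h2 : a.snd = b.snd) : a = b :=
  (WithLp.equiv 2 (H × ℂ)).injective (Prod.ext h1 h2)

private theorem speb_fst_le {H : Type} [NormedAddCommGroup H] (a : WithLp 2 (H × ℂ)) :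
    ‖a.fst‖ ≤ ‖a‖ := by
  have h := WithLp.prod_norm_sq_eq_of_L2 a
  refine le_of_sq_le_sq ?_ (norm_nonneg _)
  nlinarith [sq_nonneg ‖a.snd‖]

private theorem speb_snd_le {H : Type} [NormedAddCommGroup H] (a : WithLp 2 (H × ℂ)) :
    ‖a.snd‖ ≤ ‖a‖ := by
  have h := WithLp.prod_norm_sq_eq_of_L2 a
  refine le_of_sq_le_sq ?_ (norm_nonneg _)
  nlinarith [sq_nonneg ‖a.fst‖]

private theorem speb_cnj {H : Type} [NormedAddCommGroup H] [InnerProductSpace ℂ H] [CompleteSpace H]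
    {c : H →L[ℝ] H} (hc : Cnj c) {J : WithLp 2 (H × ℂ) →L[ℝ] WithLp 2 (H × ℂ)}
    (h1 : ∀ x, (J x).fst = c x.fst) (h2 : ∀ x, (J x).snd = conj x.snd) : Cnj J := by
  refine ⟨fun x => ?_, fun k x => ?_, fun x y => ?_⟩
  · refine speb_ext ?_ ?_
    · rw [h1, h1, hc.inv]
    · rw [h2, h2, Complex.conj_conj]
  · refine speb_ext ?_ ?_
    · rw [h1]
      show c (k • x.fst) = star k • (J x).fst
      rw [h1, hc.anti]
    · rw [h2]
      show conj (k * x.snd) = star k * (J x).snd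
      rw [h2, map_mul]
      rfl
  · rw [WithLp.prod_inner_apply, WithLp.prod_inner_apply]
    show ⟪(J x).fst, (J y).fst⟫_ℂ + ⟪(J x).snd, (J y).snd⟫_ℂ = ⟪y.fst, x.fst⟫_ℂ + ⟪y.snd, x.snd⟫_ℂ
    rw [h1, h1, h2, h2, hc.inner]
    congr 1
    rw [RCLike.inner_apply, RCLike.inner_apply, Complex.conj_conj, mul_comm]

variable {D} (hD : Bornology.IsBounded D)
include hD

theorem fdomE : FDom (iotE D) := by
  refine ⟨fun w hw => ?_, ?_⟩
  · have h1 : iot D w.fst = 0 := by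
      rw [← iotE_fst, hw]; rfl
    have h2 : w.snd = 0 := by
      rw [← iotE_snd, hw]; rfl
    exact speb_ext ((fdom hD).inj _ h1) h2
  · have h1 : DenseRange (((iot D).prodMap (ContinuousLinearMap.id ℂ ℂ)) : VD D × ℂ → XD D × ℂ) := by
      have h2 : DenseRange (ContinuousLinearMap.id ℂ ℂ : ℂ → ℂ) := Function.surjective_id.denseRange
      exact (fdom hD).dense.prodMap h2
    have h3 : DenseRange ((WithLp.prodContinuousLinearEquiv 2 ℂ (VD D) ℂ) : VE D → VD D × ℂ) :=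
      (WithLp.prodContinuousLinearEquiv 2 ℂ (VD D) ℂ).surjective.denseRange
    have h4 : DenseRange ((WithLp.prodContinuousLinearEquiv 2 ℂ (XD D) ℂ).symm : XD D × ℂ → XE D) :=
      (WithLp.prodContinuousLinearEquiv 2 ℂ (XD D) ℂ).symm.surjective.denseRange
    have h5 := h1.comp h3 ((iot D).prodMap (ContinuousLinearMap.id ℂ ℂ)).continuous
    exact h4.comp h5 (WithLp.prodContinuousLinearEquiv 2 ℂ (XD D) ℂ).symm.continuous

theorem exists_LadE : ∃ C, Lad (iotE D) (jE D) C := by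
  obtain ⟨C, hC⟩ := exists_Lad hD
  refine ⟨C, fdomE hD, hC.C0, fun w => ?_⟩
  have h1 := hC.le w.fst
  have h2 : ‖iot D w.fst‖ ≤ ‖iotE D w‖ := by
    rw [← iotE_fst]
    exact speb_fst_le _
  have h3 : ‖w.fst‖ ≤ ‖w‖ := speb_fst_le _
  show ‖jj D w.fst‖ ^ 2 ≤ _
  refine h1.trans (mul_le_mul_of_nonneg_left ?_ (sq_nonneg C))
  exact mul_le_mul h2 h3 (norm_nonneg _) (norm_nonneg _)

theorem FCj_E : FCj (iotE D) (jE D) (cXE D) (cVE D) cZ4 := by
  have h := FCj_D hD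
  refine ⟨speb_cnj h.X (fun _ => rfl) (fun _ => rfl), speb_cnj h.V (fun _ => rfl) (fun _ => rfl),
    h.Zi, h.Za, h.Zn, fun v => ?_, fun v => ?_⟩
  · refine speb_ext ?_ rfl
    show cXD D (iot D v.fst) = iot D (cVD D v.fst)
    exact h.ι v.fst
  · show cZ4 (jj D v.fst) = jj D (cVD D v.fst)
    exact h.j v.fst

omit hD in
/-- the nonlinearity `NL (u) (ω - m β)` of the extended system -/
noncomputable def NE (D : Set ℂ) (β : ℂ → ℂ) : XE D →L[ℂ] XE D →L[ℂ] Yd (L4c × L4c) :=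
  NL.bilinearComp ((jE D).comp (Qv (iotE D)))
    (((VD D).subtypeL.comp (fsE D) - (snE D).smulRight (cl2 β)).comp (Qv (iotE D)))

omit hD in
theorem NE_apply (β : ℂ → ℂ) (x y : XE D) : NE D β x y = NL (jj D (Qv (iotE D) x).fst)
    (((Qv (iotE D) y).fst : L2c) - (Qv (iotE D) y).snd • cl2 β) := rfl

theorem exists_NSA_E (β : ℂ → ℂ) : ∃ C, NSA (KF (iotE D)) (J3 (iotE D) (jE D)) (NE D β) C := by
  obtain ⟨C, hC⟩ := exists_LadE hD
  have hb : 0 ≤ ‖cl2 β‖ := norm_nonneg _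
  have hC0 := hC.C0
  have hle : C ≤ 2 * C * (1 + ‖cl2 β‖) := by nlinarith
  refine ⟨2 * C * (1 + ‖cl2 β‖), KF_nonneg _, (fdomE hD).K_inj, by positivity, fun x y => ?_,
    fun τ hτ y => ?_, fun τ hτ y => ?_, fun x y => ?_⟩
  · refine (hC.pair_J3 x y).trans ?_
    gcongr
  · refine (hC.AS_J3 hτ y).trans ?_
    gcongr
  · refine (hC.Kh_AS_J3 hτ y).trans ?_
    gcongr
  · rw [NE_apply]
    have h1 : ‖jj D (Qv (iotE D) x).fst‖ ≤ C * √(‖Kh (KF (iotE D)) x‖ * ‖x‖) := hC.norm_j x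
    have h2 : ‖(((Qv (iotE D) y).fst : L2c) - (Qv (iotE D) y).snd • cl2 β)‖ ≤
        (1 + ‖cl2 β‖) * ‖y‖ := by
      have e1 : ‖((Qv (iotE D) y).fst : L2c)‖ ≤ ‖y‖ := by
        rw [← (fdomE hD).norm_Qv y]
        exact speb_fst_le (Qv (iotE D) y)
      have e2 : ‖(Qv (iotE D) y).snd‖ ≤ ‖y‖ := by
        rw [← (fdomE hD).norm_Qv y]
        exact speb_snd_le (Qv (iotE D) y)
      calc ‖(((Qv (iotE D) y).fst : L2c) - (Qv (iotE D) y).snd • cl2 β)‖
          ≤ ‖((Qv (iotE D) y).fst : L2c)‖ + ‖(Qv (iotE D) y).snd • cl2 β‖ := norm_sub_le _ _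
        _ = ‖((Qv (iotE D) y).fst : L2c)‖ + ‖(Qv (iotE D) y).snd‖ * ‖cl2 β‖ := by rw [norm_smul]
        _ ≤ ‖y‖ + ‖y‖ * ‖cl2 β‖ := by gcongr
        _ = (1 + ‖cl2 β‖) * ‖y‖ := by ring
    calc ‖NL (jj D (Qv (iotE D) x).fst) (((Qv (iotE D) y).fst : L2c) - (Qv (iotE D) y).snd • cl2 β)‖
        ≤ 2 * ‖jj D (Qv (iotE D) x).fst‖ *
          ‖(((Qv (iotE D) y).fst : L2c) - (Qv (iotE D) y).snd • cl2 β)‖ := NL_norm _ _
      _ ≤ 2 * (C * √(‖Kh (KF (iotE D)) x‖ * ‖x‖)) * ((1 + ‖cl2 β‖) * ‖y‖) := by gcongr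
      _ = 2 * C * (1 + ‖cl2 β‖) * √(‖Kh (KF (iotE D)) x‖ * ‖x‖) * ‖y‖ := by ring

omit hD in
private theorem speb_cl2_real {β : ℂ → ℂ} (hβ : ∀ x, conj (β x) = β x) : cL2 (cl2 β) = cl2 β := by
  by_cases h : MemLp β 2 (volume : Measure ℂ)
  · rw [cl2_conj h]
    congr 1
    funext x
    exact hβ x
  · have e : cl2 β = 0 := dif_neg h
    rw [e, map_zero]

theorem NSR_E {β : ℂ → ℂ} (hβ : ∀ x, conj (β x) = β x) :
    NSR (KF (iotE D)) (J3 (iotE D) (jE D)) (NE D β) (cXE D) (cY cZ4 cZ4_anti) := by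
  have h := FCj_E hD
  have hd := fdomE hD
  have hj := (FCj_D hD).j
  have hq : ∀ x, cZ4 (jj D (Qv (iotE D) x).fst) = jj D (Qv (iotE D) (cXE D x)).fst := by
    intro x
    exact (hj (Qv (iotE D) x).fst).trans (congrArg (fun w : VE D => jj D w.fst) (h.Qv hd x))
  have hω : ∀ y, cL2 (((Qv (iotE D) y).fst : L2c) - (Qv (iotE D) y).snd • cl2 β) =
      ((Qv (iotE D) (cXE D y)).fst : L2c) - (Qv (iotE D) (cXE D y)).snd • cl2 β := by
    intro y
    have e3 : cL2 ((Qv (iotE D) y).snd • cl2 β) = (Qv (iotE D) (cXE D y)).snd • cl2 β := by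
      refine (Cnj_cL2.anti (Qv (iotE D) y).snd (cl2 β)).trans ?_
      refine (congrArg (fun b : L2c => star (Qv (iotE D) y).snd • b) (speb_cl2_real hβ)).trans ?_
      exact congrArg (fun w : VE D => w.snd • cl2 β) (h.Qv hd y)
    have e4 : cL2 ((Qv (iotE D) y).fst : L2c) = ((Qv (iotE D) (cXE D y)).fst : L2c) :=
      congrArg (fun w : VE D => ((w.fst : VD D) : L2c)) (h.Qv hd y)
    refine (map_sub cL2 _ _).trans ?_
    exact congrArg₂ (fun a b : L2c => a - b) e4 e3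
  refine ⟨h.X, h.K hd, fun y => h.J3 hd y, fun x y => ?_, fun x y hx hy => ?_⟩
  · rw [NE_apply, NE_apply, NL_conj, hq, hω]
    rfl
  · rw [inner_J3]
    show (NE D β x y (jj D (Qv (iotE D) x).fst)).re = 0
    rw [NE_apply, NL_self]
    · rfl
    · exact (hq x).trans (congrArg (fun z => jj D (Qv (iotE D) z).fst) hx)

end

end Pool.Agent.Lib.MP_79abb3_an.PD
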