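import Pool.Agent.Lib.MP_79abb3_an.PD.StCa

/-!
MP_79abb3_an, Theorem D, block F, strip module: boundary values.
-/

set_option autoImplicit false
set_option linter.unusedSectionVars false

open MeasureTheory Set Filter Topology Function
open scoped ENNReal InnerProductSpace

namespace Pool.Agent.Lib.MP_79abb3_an.SC

open Pool.Agent.Lib.MP_79abb3_an.P25 Pool.Agent.Lib.MP_79abb3_an.FW

section
variable {H : ℝ} [hH : Fact (0 < H)]

private theorem stcc_sN_sum (N : ℕ) :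
    (Summable fun n : ℤ => |sN N n| ^ 2) ∧ ∑' n : ℤ, |sN N n| ^ 2 ≤ 2 := by
  have h0 : ∀ n ∉ ({(N : ℤ), -(N : ℤ)} : Finset ℤ), |sN N n| ^ 2 = 0 := by
    intro n hn
    rw [Finset.mem_insert, Finset.mem_singleton, not_or] at hn
    rw [sN_zero hn.1 hn.2]; norm_num
  refine ⟨summable_of_ne_finset_zero h0, ?_⟩
  rw [tsum_eq_sum h0]
  calc ∑ n ∈ ({(N : ℤ), -(N : ℤ)} : Finset ℤ), |sN N n| ^ 2
      ≤ ∑ _n ∈ ({(N : ℤ), -(N : ℤ)} : Finset ℤ), (1 : ℝ) := by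
        refine Finset.sum_le_sum fun n _ => ?_
        exact pow_le_one₀ (abs_nonneg _) (sN_abs_le N n)
    _ ≤ 2 := by
        rw [Finset.sum_const, nsmul_eq_mul, mul_one]
        exact_mod_cast Finset.card_le_two

private theorem stcc_sN_N2 {lam : ℤ → ℝ} (N : ℕ) {A : ℝ} (hA : 0 ≤ A) :
    S2 lam 0 (fun n => -(Complex.I * ((A / 2 * sN N n : ℝ) : ℂ))) ∧
      N2 lam 0 (fun n => -(Complex.I * ((A / 2 * sN N n : ℝ) : ℂ))) ≤ A := by
  obtain ⟨s, h⟩ := stcc_sN_sum N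
  have e : ∀ n, (lam n ^ (0:ℝ) * ‖-(Complex.I * ((A / 2 * sN N n : ℝ) : ℂ))‖) ^ 2 =
      (A / 2) ^ 2 * |sN N n| ^ 2 := by
    intro n
    rw [Real.rpow_zero, one_mul, norm_neg, norm_mul, Complex.norm_I, one_mul, Complex.norm_real,
      Real.norm_eq_abs, abs_mul, mul_pow, sq_abs (A / 2)]
  refine ⟨?_, ?_⟩
  · unfold S2; simp only [e]; exact s.mul_left _
  · unfold N2; simp only [e]
    rw [tsum_mul_left]
    refine Real.sqrt_le_iff.2 ⟨hA, ?_⟩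
    nlinarith [sq_nonneg A]

private theorem stcc_TT (G : Geo H) (g : HH H) : ‖TT G.ω g‖ ≤ ‖LT G.ω G.lam (3 / 8) g‖ := by
  have h := G.lamOK
  refine (sq_le_sq₀ (norm_nonneg _) (norm_nonneg _)).1 ?_
  rw [l2_norm_sq, l2_norm_sq]
  refine (l2_summable _).tsum_le_tsum (fun n => ?_) (l2_summable _)
  rw [h.LT_apply (by norm_num), norm_smul, Complex.norm_real,
    Real.norm_of_nonneg (Real.rpow_nonneg (by linarith [h.one n]) _), TT_apply, mul_pow]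
  have h1 : 1 ≤ G.lam n ^ (3 / 8 : ℝ) := Real.one_le_rpow (h.one n) (by norm_num)
  exact le_mul_of_one_le_left (sq_nonneg _) (one_le_pow₀ h1)

/-- **The boundary values of `V = T g`.** `T(ηg)(0) = V(0) + T(η' V)(0)` (`TT_Bm`, `η(0) = 1`), so
`V(0) = -cell - T h (0) - T(η' V)(0)` by `StV.tr`; `trn` is a seminorm with `trn g ≤ C ‖g‖` (`SC.trn_le`);
copy the proof of `FlS.trn_le` (FlYe). -/
theorem StV.trn_le (G : Geo H) {η η1 η2 : CI H} (hη : CutOK G η η1 η2) :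
    ∃ C, 0 ≤ C ∧ ∀ {N : ℕ} {A : ℝ → ℝ} {b : ℝ} {g h ℓ : ℝ → HH H} (_ : StV G N A η b g h ℓ),
    ∀ t ∈ Icc 0 b, trn G.ω (g t) ≤ C * (‖h t‖ + ‖LT G.ω G.lam (3 / 8) (g t)‖ + A t) := by
  obtain ⟨C, hC, hh⟩ := SC.trn_le G
  have hη0 : ex η 0 = 1 := by
    obtain ⟨r, hr, -, h1⟩ := hη.one
    exact h1 0 ⟨le_rfl, hr.le⟩
  have hC1 : 0 ≤ C * (1 + ‖η1‖) := mul_nonneg hC (by positivity)
  refine ⟨C * (1 + ‖η1‖) + 1, by linarith, ?_⟩
  intro N A b g h ℓ hV t ht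
  have hA := hV.A0 t ht
  have hq := hh (h t + Ms η1 (TT G.ω (g t)))
  have hqn : ‖h t + Ms η1 (TT G.ω (g t))‖ ≤
      (1 + ‖η1‖) * (‖h t‖ + ‖LT G.ω G.lam (3 / 8) (g t)‖) := by
    have a1 := norm_add_le (h t) (Ms η1 (TT G.ω (g t)))
    have a2 := norm_Ms_apply_le η1 (TT G.ω (g t))
    have a3 := mul_le_mul_of_nonneg_left (stcc_TT G (g t)) (norm_nonneg η1)
    have a4 := norm_nonneg (h t)
    have a5 := norm_nonneg (LT G.ω G.lam (3 / 8) (g t))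
    have a6 := mul_nonneg (norm_nonneg η1) a4
    nlinarith
  generalize hqd : h t + Ms η1 (TT G.ω (g t)) = q at hq hqn
  have e1 : ∀ n, ex (Vf G.ω (⇑(g t)) n : CI H) 0 =
      -(Complex.I * ((A t / 2 * sN N n : ℝ) : ℂ)) + -ex (Vf G.ω (⇑q) n : CI H) 0 := by
    intro n
    have h2 := congrArg (fun f => ex f 0) (Vf_weight G.ω hη.d1 (g t) n)
    have h3 := hV.tr t ht n
    simp only [ex_mul, hη0, one_mul] at h2
    rw [← h2, ← h3, ← hqd]
    unfold Vf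
    have h4 : (Ms η (g t) - Ms η1 (TT G.ω (g t)) : HH H) n = Ms η (g t) n - Ms η1 (TT G.ω (g t)) n := rfl
    have h5 : (Ms η (g t) + h t : HH H) n = Ms η (g t) n + h t n := rfl
    have h6 : (h t + Ms η1 (TT G.ω (g t)) : HH H) n = h t n + Ms η1 (TT G.ω (g t)) n := rfl
    rw [h4, h5, h6, map_sub, map_add, map_add]
    have h7 : ∀ a b : CI H, ex (a + b) 0 = ex a 0 + ex b 0 := fun _ _ => rfl
    have h8 : ∀ a b : CI H, ex (a - b) 0 = ex a 0 - ex b 0 := fun _ _ => rfl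
    rw [h7, h7, h8]
    ring
  obtain ⟨s1, n1⟩ := stcc_sN_N2 (lam := G.lam) N hA
  have s2 : S2 G.lam 0 (fun n => ex (Vf G.ω (⇑q) n : CI H) 0) := by
    unfold S2; simpa only [Real.rpow_zero, one_mul] using hq.1
  have h5 := (S2_add G.lw.h1 s1 (S2_neg.2 s2)).2
  have h51 : N2 G.lam 0 (fun n => -ex (Vf G.ω (⇑q) n : CI H) 0) = trn G.ω q := by
    rw [trn_N2 G.lam]
    exact N2_neg 0 _
  rw [h51] at h5
  have h52 : trn G.ω (g t) =
      N2 G.lam 0 (fun n => -(Complex.I * ((A t / 2 * sN N n : ℝ) : ℂ)) +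
        -ex (Vf G.ω (⇑q) n : CI H) 0) := by
    rw [trn_N2 G.lam]
    exact congrArg (N2 G.lam 0) (funext e1)
  rw [h52]
  refine h5.trans ?_
  have h6 := hq.2
  have h7 := mul_le_mul_of_nonneg_left hqn hC
  have h8 := norm_nonneg (h t)
  have h9 := norm_nonneg (LT G.ω G.lam (3 / 8) (g t))
  generalize ‖h t‖ = y at *
  generalize ‖LT G.ω G.lam (3 / 8) (g t)‖ = z at *
  have h10 : 0 ≤ C * (1 + ‖η1‖) * A t := mul_nonneg hC1 hA
  have h11 : (C * (1 + ‖η1‖) + 1) * (y + z + A t) =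
      C * ((1 + ‖η1‖) * (y + z)) + (y + z) + C * (1 + ‖η1‖) * A t + A t := by ring
  rw [h11]
  linarith

end

end Pool.Agent.Lib.MP_79abb3_an.SC
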