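import Pool.Agent.Lib.MP_79abb3_an.PD.StCa

/-!
MP_79abb3_an, Theorem D, block F, strip module: the static weighted energy inequality.
-/

set_option autoImplicit false
set_option linter.unusedSectionVars false

open MeasureTheory Set Filter Topology Function
open scoped ENNReal InnerProductSpace

namespace Pool.Agent.Lib.MP_79abb3_an.SC

open Pool.Agent.Lib.MP_79abb3_an.P25 Pool.Agent.Lib.MP_79abb3_an.FW

private theorem stda_alg {K L G q y y' a b : ℝ} (hK : 0 ≤ K) (hL : 1 ≤ L) (hG : 0 ≤ G) (hq : 0 ≤ q)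
    (_hy : 0 ≤ y) (ha : 0 ≤ a) (hb : 0 ≤ b) (h : y' ≤ L * y) :
    K * G * (q * a + y' * b) ≤ K * L * G * (q * a + y * b) := by
  have h1 : y' * b ≤ L * y * b := mul_le_mul_of_nonneg_right h hb
  have h2 : q * a ≤ L * (q * a) := le_mul_of_one_le_left (mul_nonneg hq ha) hL
  have h3 : q * a + y' * b ≤ L * (q * a + y * b) := by
    have e : L * (q * a + y * b) = L * (q * a) + L * y * b := by ring
    rw [e]; exact add_le_add h2 h1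
  have h4 := mul_le_mul_of_nonneg_left h3 (mul_nonneg hK hG)
  refine h4.trans (le_of_eq (by ring))

section
variable {H : ℝ} [hH : Fact (0 < H)] {lam : ℤ → ℝ}

/-- **The vortex force tested with `th² V`.** -/
private theorem stda_bf {ω C : ℝ} (h : LamOK ω lam C) (pw : PrW lam 0 (1 / 2) (1 / 4))
    (pw2 : PrW lam 0 (1 / 2) (1 / 2)) (pw3 : PrW lam 0 (3 / 8) (1 / 4)) {ζ : CI H} {a : ℤ → CI H}
    (sa : Summable fun n => ‖a n‖) :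
    ∃ K, 0 ≤ K ∧ ∀ {th th1 cs : ℝ → ℝ} (hw : Wgt H th) (c1 : Continuous th1)
      (_ : IsD (rc th hw.c : CI H) (rc th1 c1)) (hc : CellB H th cs) {N : ℤ} {ve we : ℤ → CI H}
      (_ : ∀ l, l ≠ N → l ≠ -N → ve l = 0) (_ : ∀ l, l ≠ N → l ≠ -N → we l = 0)
      (_ : ∀ l, ∀ z ∈ Icc (0:ℝ) H, ‖ex (ve l) z‖ ≤ cs z / 2)
      (_ : ∀ l, ∀ z ∈ Icc (0:ℝ) H, ‖ex (we l) z‖ ≤ cs z / 2)
      (_ : S2 lam (1 / 2) ve) (_ : S2 lam (1 / 2) we) (g g' q : HH H) {e s : ℝ} (_ : 0 ≤ e) (_ : 0 ≤ s)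
      (_ : ‖Ms (rc th hw.c) (TT ω g)‖ = e ^ 4)
      (_ : ‖Ms (rc th hw.c) g - Ms (rc th1 c1) (TT ω g)‖ ≤ s ^ 4),
      ‖bf ω (⇑(Ms ζ (cm a g))) (fun n => ve n + (uV ω (Vf ω q) n + uV ω (Vf ω g') n))
        (fun n => we n + (wV ω (Vf ω q) n + wV ω (Vf ω g') n))
        (io fun n => rc th hw.c * (rc th hw.c * Vf ω g n))‖ ≤
      K * ‖Ms (rc th hw.c) g‖ * (‖q‖ * (e ^ 2 * s ^ 2) + ‖LT ω lam (3 / 8) g'‖ * (e * s ^ 3)) +
        4 * (‖ζ‖ * ∑' n, ‖a n‖) * ‖Ms (rc th hw.c) g‖ *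
          ‖Ms (rc cs hc.c) (Ms (rc th hw.c) (TT ω g))‖ := by
  have hω := h.ω
  have hH0 := hH.out
  have hC := h.C0
  set Ca : ℝ := ‖ζ‖ * ∑' n, ‖a n‖ with hCa
  have hCa0 : 0 ≤ Ca := mul_nonneg (norm_nonneg _) (tsum_nonneg fun _ => norm_nonneg _)
  set Cl : ℝ := C * (1 + ω⁻¹) with hCl
  have hCl0 : 0 ≤ Cl := by positivity
  set K0 : ℝ := 1 + C * (H + ω⁻¹) with hK0
  have hK00 : 0 ≤ K0 := by positivity
  have hc2 : 0 ≤ CP lam (0 + 1 / 2 + 1 / 2) := CP_nonneg _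
  have hc3 : 0 ≤ CP lam (0 + 3 / 8 + 1 / 4) := CP_nonneg _
  set R : ℝ := √(Cl * (H + 1)) with hR
  have hR0 : 0 ≤ R := Real.sqrt_nonneg _
  refine ⟨Ca * (6 * CP lam (0 + 1 / 2 + 1 / 2) * R * K0 + 12 * CP lam (0 + 3 / 8 + 1 / 4) * K0),
    by positivity, ?_⟩
  intro th th1 cs hw c1 hd hc N ve we hve hwe bve bwe sve swe g g' q e s he hs hE hS
  -- the families
  set om : HH H := Ms ζ (cm a g) with hom
  have som : S2 lam 0 (⇑om) := (S2l2 om).1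
  have nth : ‖Ms (rc th hw.c) om‖ ≤ Ca * ‖Ms (rc th hw.c) g‖ := by
    have e1 : Ms (rc th hw.c) om = Ms ζ (cm a (Ms (rc th hw.c) g)) := by
      rw [hom, Ms_Ms, mul_comm, ← Ms_Ms, MsCm sa]
    rw [e1, hCa, mul_assoc]
    exact (norm_Ms_apply_le _ _).trans (mul_le_mul_of_nonneg_left (norm_cm_apply_le sa _) (norm_nonneg _))
  have sto : S2 lam 0 (fun n => mz (rc th hw.c) (om n)) := by rw [coe_Ms]; exact (S2l2 _).1
  have nto : N2 lam 0 (fun n => mz (rc th hw.c) (om n)) ≤ Ca * ‖Ms (rc th hw.c) g‖ := by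
    rw [coe_Ms, (S2l2 _).2]; exact nth
  set F : ℤ → CI H := fun n => rc th hw.c * Vf ω g n with hF
  obtain ⟨⟨sF2, nF2⟩, ⟨sF4, nF4⟩⟩ := wF h hd g he hs hE hS
  -- the test function
  have sf : S2 lam (1 / 4) (io fun n => rc th hw.c * F n) := by
    have h14 : S2 lam (1 / 4) (io F) := (S2_mono h.one (by norm_num) sF2).1
    refine (S2_dom h.one (norm_nonneg (rc th hw.c : CI H)) (fun n => ?_) h14).1
    unfold io
    rw [← mz_iota]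
    exact norm_mz_apply_le _ _
  obtain ⟨⟨a1, a2⟩, ⟨b1, b2⟩⟩ := vel_half h.one hCl0 h.le_k q
  obtain ⟨⟨a3, a4⟩, ⟨b3, b4⟩⟩ := vel_half h.one hCl0 h.le_k g'
  have sv2 := (S2_add h.one a1 a3).1
  have sw2 := (S2_add h.one b1 b3).1
  rw [bf_add pw ω som sve swe sv2 sw2 sf, bf_add pw ω som a1 b1 a3 b3 sf]
  -- outer part
  have k1 := bf_w1 pw pw2 hw ω som a1 b1 sto sF2 sf
  -- inner part
  have k2 := bf_w2 pw pw3 hw ω som a3 b3 sto sF4 sf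
  -- the cell
  have sFc : S2 lam 0 (io fun n => rc cs hc.c * F n) := by
    have : (io fun n => rc cs hc.c * F n) = ⇑(Ms (rc cs hc.c) (Ms (rc th hw.c) (TT ω g))) := by
      funext n
      rw [Ms_apply, Ms_apply, TT_apply, T2_apply, mz_iota, mz_iota]; rfl
    rw [this]; exact (S2l2 _).1
  have nFc : N2 lam 0 (io fun n => rc cs hc.c * F n) =
      ‖Ms (rc cs hc.c) (Ms (rc th hw.c) (TT ω g))‖ := by
    have : (io fun n => rc cs hc.c * F n) = ⇑(Ms (rc cs hc.c) (Ms (rc th hw.c) (TT ω g))) := by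
      funext n
      rw [Ms_apply, Ms_apply, TT_apply, T2_apply, mz_iota, mz_iota]; rfl
    rw [this]; exact (S2l2 _).2
  have k3 := bf_wU pw hw hc ω hve hwe bve bwe som sve swe sto sFc sf
  rw [nFc] at k3
  -- norms of the velocities
  obtain ⟨sy, ny⟩ := LT_N2 h (show (3 / 8 : ℝ) ≤ 1 by norm_num) g'
  obtain ⟨⟨-, u1⟩, ⟨-, u2⟩⟩ := S2_iuV h.one ω sy
  rw [ny] at u1 u2
  set Gm := ‖Ms (rc th hw.c) g‖ with hGm
  set X := ‖Ms (rc cs hc.c) (Ms (rc th hw.c) (TT ω g))‖ with hX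
  set y := ‖LT ω lam (3 / 8) g'‖ with hy
  have Gm0 : 0 ≤ Gm := norm_nonneg _
  have X0 : 0 ≤ X := norm_nonneg _
  have y0 : 0 ≤ y := norm_nonneg _
  have q0 : 0 ≤ ‖q‖ := norm_nonneg _
  have n0 : 0 ≤ N2 lam 0 (fun n => mz (rc th hw.c) (om n)) := N2_nonneg _ _
  have n1 := N2_nonneg (lam := lam) (1 / 2) (wV ω (Vf ω q))
  have n2 := N2_nonneg (lam := lam) (1 / 2) (uV ω (Vf ω q))
  have n3 := N2_nonneg (lam := lam) (3 / 8) (io (wV ω (Vf ω g')))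
  have n4 := N2_nonneg (lam := lam) (3 / 8) (io (uV ω (Vf ω g')))
  have n5 : 0 ≤ N2 lam (1 / 2) (io F) := N2_nonneg _ _
  have n6 : 0 ≤ N2 lam (1 / 4) F := N2_nonneg _ _
  have m1 : ‖bf ω (⇑om) (uV ω (Vf ω q)) (wV ω (Vf ω q)) (io fun n => rc th hw.c * F n)‖ ≤
      2 * CP lam (0 + 1 / 2 + 1 / 2) * (Ca * Gm) * (R * ‖q‖ + 2 * (R * ‖q‖)) *
        (K0 * (e ^ 2 * s ^ 2)) :=
    k1.trans (mono4 hc2 n0 n1 n2 n5 nto b2 a2 nF2)
  have m2 : ‖bf ω (⇑om) (uV ω (Vf ω g')) (wV ω (Vf ω g')) (io fun n => rc th hw.c * F n)‖ ≤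
      2 * CP lam (0 + 3 / 8 + 1 / 4) * (Ca * Gm) * (1 * y + 2 * y) * (2 * K0 * (e * s ^ 3)) :=
    k2.trans (mono4 hc3 n0 n3 n4 n6 nto u2 u1 nF4)
  have m3 : ‖bf ω (⇑om) ve we (io fun n => rc th hw.c * F n)‖ ≤ 4 * (Ca * Gm * X) :=
    k3.trans (mul_le_mul_of_nonneg_left (mul_le_mul_of_nonneg_right nto X0) (by norm_num))
  refine ((norm_add_le _ _).trans (add_le_add m3 ((norm_add_le _ _).trans (add_le_add m1 m2)))).trans ?_
  exact wE_sum_alg hCa0 Gm0 hc2 hc3 hR0 hK00 q0 y0 (by positivity) (by positivity)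

end

section
variable {H : ℝ} [hH : Fact (0 < H)]

/-- **The static weighted energy inequality.** Copy of `Geo.wE` (ApEb) and `wE_bf` (ApEa): in `wE_bf` the
velocity `u[T g]` is replaced by `u[T g']` with `g' = Ms η g` (the bound is the same with `‖LT (3/8) g'‖`
instead of `‖LT (3/8) g‖`, the test function is unchanged), and `‖LT (3/8) (Ms η g)‖ ≤ C ‖LT (3/8) g‖`
(`LT_eta`). -/
theorem wEe (G : Geo H) {η η1 η2 : CI H} (hη : CutOK G η η1 η2) :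
    ∃ K, 0 ≤ K ∧ ∀ {th th1 : ℝ → ℝ} (hw : Wgt H th) (c1 : Continuous th1)
    (_ : IsD (rc th hw.c : CI H) (rc th1 c1)) {N : ℕ} {α : ℝ} (_ : 0 ≤ α)
    (_ : CellB H th (chF (G.ω * N) α)) (g qh : HH H),
    (-⟪Ms (rc th hw.c) (Ms (rc th hw.c) g - Ms (rc th1 c1) (TT G.ω g)) -
        Ms (rc th1 c1) (Ms (rc th hw.c) (TT G.ω g)), cm G.a g⟫_ℂ +
      bf G.ω (⇑(Ms G.ζ (cm G.a g))) (G.tv N α qh (Ms η g)) (G.tw N α qh (Ms η g))
        (⇑(Ms (rc th hw.c) (Ms (rc th hw.c) (TT G.ω g)))) -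
      ⟪Ms (rc th hw.c) (Ms (rc th hw.c) (TT G.ω g)),
        Ms (rc (G.kF (G.ω * N) α) (G.kF_c _ _)) (TT G.ω g)⟫_ℂ).re ≤
    -(G.c₀ / 2) * ‖Ms (rc th hw.c) g‖ ^ 2 +
      K * (‖Ms (rc th1 c1) (TT G.ω g)‖ ^ 2 +
        (‖qh‖ ^ 4 + ‖LT G.ω G.lam (3 / 8) g‖ ^ 8) * ‖Ms (rc th hw.c) (TT G.ω g)‖ ^ 2) := by
  have hlam := G.lamOK
  have hc := G.hc
  obtain ⟨K, hK, hb⟩ := stda_bf (ζ := G.ζ) hlam G.pw
    (G.prW (α := 0) (β := 1 / 2) (γ := 1 / 2) (by norm_num) (by norm_num) (by norm_num) (by norm_num))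
    (G.prW (α := 0) (β := 3 / 8) (γ := 1 / 4) (by norm_num) (by norm_num) (by norm_num) (by norm_num)) G.sa
  obtain ⟨C, hC, hLT⟩ := LT_eta G hη
  obtain ⟨L, hL1, hLC⟩ : ∃ L : ℝ, 1 ≤ L ∧ C ≤ L := ⟨max 1 C, le_max_left _ _, le_max_right _ _⟩
  have hL : 0 ≤ L := zero_le_one.trans hL1
  have hKL : 0 ≤ K * L := mul_nonneg hK hL
  refine ⟨G.c₀ / 4 + 8 * G.Ca ^ 2 / G.c₀ + ((G.c₀ / 16) ^ 3)⁻¹ * (K * L) ^ 4 +
    ((G.c₀ / 16) ^ 7)⁻¹ * (K * L) ^ 8, by positivity, ?_⟩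
  intro th th1 hw c1 hd N α hα hcell g qh
  set V := TT G.ω g with hV
  set T : CI H := rc th hw.c with hT
  set T1 : CI H := rc th1 c1 with hT1
  obtain ⟨e, he, hE⟩ := fourth_root (norm_nonneg (Ms T V))
  obtain ⟨s, hs, hS⟩ := fourth_root (add_nonneg (norm_nonneg (Ms T g)) (norm_nonneg (Ms T1 V)))
  have hS' : ‖Ms T g - Ms T1 V‖ ≤ s ^ 4 := by
    rw [← hS]; exact norm_sub_le _ _
  have hbf := hb hw c1 hd hcell (N := (N:ℤ)) (ve := cellV (G.ω * N) N α) (we := cellW (G.ω * N) N α)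
    (fun l h1 h2 => cellV_zero h1 h2) (fun l h1 h2 => cellW_zero h1 h2)
    (fun l z hz => cellV_le hα N l hz) (fun l z hz => cellW_le hα N l hz)
    (S2_fin (N := (N:ℤ)) fun l h1 h2 => cellV_zero h1 h2)
    (S2_fin (N := (N:ℤ)) fun l h1 h2 => cellW_zero h1 h2) g (Ms η g) qh he hs hE hS'
  -- the test function
  have ef : (io fun n => T * (T * Vf G.ω (⇑g) n)) = ⇑(Ms T (Ms T V)) := by
    funext n
    rw [Ms_apply, Ms_apply, hV, TT_apply, T2_apply, mz_iota, mz_iota]; rfl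
  rw [ef] at hbf
  -- the elliptic part
  have hstT : star T = T := star_rc _ _
  have hstT1 : star T1 = T1 := star_rc _ _
  have eD : ⟪Ms T (Ms T g - Ms T1 V) - Ms T1 (Ms T V), cm G.a g⟫_ℂ =
      ⟪Ms T g, cm G.a (Ms T g)⟫_ℂ - 2 * ⟪Ms T1 V, cm G.a (Ms T g)⟫_ℂ := by
    have h1 : Ms T1 (Ms T V) = Ms T (Ms T1 V) := by rw [Ms_Ms, mul_comm, ← Ms_Ms]
    rw [h1, ← map_sub, innerMs hstT, MsCm G.sa, inner_sub_left, inner_sub_left]
    ring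
  have hD : (-⟪Ms T (Ms T g - Ms T1 V) - Ms T1 (Ms T V), cm G.a g⟫_ℂ).re ≤
      -G.c₀ * ‖Ms T g‖ ^ 2 + 2 * G.Ca * ‖Ms T g‖ * ‖Ms T1 V‖ := by
    rw [eD]
    have h1 := G.coer (Ms T g)
    have h2 : (⟪cm G.a (Ms T g), Ms T g⟫_ℂ).re = (⟪Ms T g, cm G.a (Ms T g)⟫_ℂ).re := re_inner_comm _ _
    have h3 : ‖⟪Ms T1 V, cm G.a (Ms T g)⟫_ℂ‖ ≤ ‖Ms T1 V‖ * (G.Ca * ‖Ms T g‖) :=
      (norm_inner_le_norm _ _).trans (mul_le_mul_of_nonneg_left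
        ((norm_cm_apply_le G.sa _).trans (mul_le_mul_of_nonneg_right G.le_Ca (norm_nonneg _)))
        (norm_nonneg _))
    have h4 := Complex.re_le_norm ⟪Ms T1 V, cm G.a (Ms T g)⟫_ℂ
    simp only [Complex.neg_re, Complex.sub_re, Complex.mul_re, Complex.re_ofNat, Complex.im_ofNat,
      zero_mul, sub_zero]
    rw [h2] at h1
    nlinarith
  -- the damping
  have eK : (⟪Ms T (Ms T V), Ms (rc (G.kF (G.ω * N) α) (G.kF_c _ _)) V⟫_ℂ).re =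
      G.Ck * ‖Ms (rc (chF (G.ω * N) α) hcell.c) (Ms T V)‖ ^ 2 := by
    have h1 : (rc (G.kF (G.ω * N) α) (G.kF_c _ _) : CI H) =
        (G.Ck : ℂ) • (rc (chF (G.ω * N) α) hcell.c * rc (chF (G.ω * N) α) hcell.c) := by
      refine ci_ext fun z hz => ?_
      rw [ex_smul, ex_mul, ex_rc _ _ hz, ex_rc _ _ hz]
      unfold Geo.kF; push_cast; ring
    rw [h1]
    exact damp_eq (star_rc _ _) hstT G.Ck V
  have hN : ‖bf G.ω (⇑(Ms G.ζ (cm G.a g))) (G.tv N α qh (Ms η g)) (G.tw N α qh (Ms η g)) (⇑(Ms T (Ms T V)))‖ ≤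
      K * L * ‖Ms T g‖ * (‖qh‖ * (e ^ 2 * s ^ 2) + ‖LT G.ω G.lam (3 / 8) g‖ * (e * s ^ 3)) +
        4 * G.Ca * ‖Ms T g‖ * ‖Ms (rc (chF (G.ω * N) α) hcell.c) (Ms T V)‖ := by
    refine hbf.trans (add_le_add ?_ ?_)
    · exact stda_alg hK hL1 (norm_nonneg _) (norm_nonneg _) (norm_nonneg _) (by positivity)
        (by positivity) ((hLT g).trans (mul_le_mul_of_nonneg_right hLC (norm_nonneg _)))
    · exact mul_le_mul_of_nonneg_right (mul_le_mul_of_nonneg_right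
        (mul_le_mul_of_nonneg_left G.le_Ca' (by norm_num)) (norm_nonneg _)) (norm_nonneg _)
  refine wE_alg' hc hKL (norm_nonneg _) he hs (norm_nonneg _) (norm_nonneg _) hS.symm le_rfl hN hD hE ?_
  rw [Complex.sub_re, Complex.add_re, eK]
  exact sub_le_sub_right (add_le_add le_rfl (Complex.re_le_norm _)) _

end

end Pool.Agent.Lib.MP_79abb3_an.SC
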