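import Pool.Agent.Lib.MP_79abb3_an.PD.StDa

/-!
MP_79abb3_an, Theorem D, block F, strip module: the weighted energy of `V`.
-/

set_option autoImplicit false
set_option linter.unusedSectionVars false

open MeasureTheory Set Filter Topology Function
open scoped ENNReal InnerProductSpace

namespace Pool.Agent.Lib.MP_79abb3_an.SC

open Pool.Agent.Lib.MP_79abb3_an.P25 Pool.Agent.Lib.MP_79abb3_an.FW

section
variable {H : ℝ} [hH : Fact (0 < H)]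

private theorem zl_posSt {m : ℝ} (hm : 0 < m) : 0 < zl m := by
  unfold zl
  have := Real.sqrt_pos.2 hm
  positivity

private theorem energySt_eq {th : ℝ → ℝ} (c : Continuous th) (V : HH H) :
    ‖Ms (rc th c) V‖ ^ 2 = (⟪Ms (rc th c * rc th c) V, V⟫_ℂ).re := by
  rw [← inner_self_re, ← Ms_Ms, innerMs (star_rc th c) (Ms (rc th c) V) V]

private theorem Bm_sqSt (ω : ℝ) (T T1 : CI H) (g : HH H) :
    Bm ω (T * T) (T1 * T + T * T1) g = Ms T (Ms T g - Ms T1 (TT ω g)) - Ms T1 (Ms T (TT ω g)) := by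
  show Ms (T * T) g - Ms (T1 * T + T * T1) (TT ω g) = _
  rw [Ms_add, ← Ms_Ms, ← Ms_Ms, ← Ms_Ms, map_sub]
  abel

private theorem Ms_tht1_leSt {m : ℝ} (hm : 0 < m) (V : HH H) :
    ‖Ms (rc (tht1 (zl m) (4 * m)) (tht1_cont _ _)) V‖ ^ 2 ≤
      2 * (4 * m + 2 / zl m) ^ 2 * ‖Ms (rc (tht (zl m) (4 * m)) (tht_cont _ _)) V‖ ^ 2 +
        8 / zl m ^ 2 * ‖V‖ ^ 2 := by
  have hz := zl_posSt hm
  have hp : 0 ≤ √2 * (4 * m + 2 / zl m) := by positivity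
  have hq : 0 ≤ √8 / zl m := by positivity
  have hp2 : (√2 * (4 * m + 2 / zl m)) ^ 2 = 2 * (4 * m + 2 / zl m) ^ 2 := by
    rw [mul_pow, Real.sq_sqrt (by norm_num)]
  have hq2 : (√8 / zl m) ^ 2 = 8 / zl m ^ 2 := by
    rw [div_pow, Real.sq_sqrt (by norm_num)]
  have h1 := norm_Ms_sq_add (b := (rc (tht1 (zl m) (4 * m)) (tht1_cont _ _) : CI H))
    (c := ((√2 * (4 * m + 2 / zl m) : ℝ) : ℂ) • rc (tht (zl m) (4 * m)) (tht_cont _ _))
    (d := ((√8 / zl m : ℝ) : ℂ) • rc (fun _ => 1) continuous_const) (fun z hz' => by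
      rw [ex_smul, ex_smul, ex_rc _ _ hz', ex_rc _ _ hz', ex_rc _ _ hz', norm_mul, norm_mul,
        Complex.norm_real, Complex.norm_real, Complex.norm_real, Complex.norm_real, Complex.norm_real,
        mul_pow, mul_pow, Real.norm_eq_abs, Real.norm_eq_abs, Real.norm_eq_abs, Real.norm_eq_abs,
        Real.norm_eq_abs, sq_abs, sq_abs, sq_abs, sq_abs, sq_abs, hp2, hq2, one_pow, mul_one]
      exact tht1_sq_le hz (by positivity) z) V
  have e1 : Ms (rc (fun _ => 1) continuous_const : CI H) V = V := by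
    refine lp.ext (funext fun n => ?_)
    have e2 : (rc (fun _ => 1) continuous_const : CI H) = 1 := ci_ext fun z hz => by
      rw [ex_rc _ _ hz]
      exact Complex.ofReal_one
    rw [Ms_apply, e2, mz_one]
  rw [Ms_smul, Ms_smul, e1, norm_smul, norm_smul, Complex.norm_real, Complex.norm_real, mul_pow,
    mul_pow, Real.norm_eq_abs, Real.norm_eq_abs, sq_abs, sq_abs, hp2, hq2] at h1
  exact h1

private theorem TTSt_le_one {G : Geo H} {g : HH H}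
    (h : ‖LT G.ω G.lam (3 / 8) g‖ ≤ 1) : ‖TT G.ω g‖ ≤ 1 := by
  refine le_trans ?_ h
  have h1 : ‖TT G.ω g‖ ^ 2 ≤ ‖LT G.ω G.lam (3 / 8) g‖ ^ 2 := by
    rw [l2_norm_sq, l2_norm_sq]
    refine (l2_summable _).tsum_le_tsum (fun n => ?_) (l2_summable _)
    refine pow_le_pow_left₀ (norm_nonneg _) ?_ 2
    rw [G.lamOK.LT_apply (by norm_num), norm_smul, Complex.norm_real,
      Real.norm_of_nonneg (Real.rpow_nonneg (G.lw.pos n).le _)]
    rw [TT_apply]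
    exact le_mul_of_one_le_left (norm_nonneg _) (Real.one_le_rpow (G.lw.h1 n) (by norm_num))
  exact (sq_le_sq₀ (norm_nonneg _) (norm_nonneg _)).1 h1

/-- the algebra of the differential inequality, keeping the dissipation -/
private theorem St_alg {c K M2 z8 Q q y S1 S v r g2 I : ℝ} (hK : 0 ≤ K) (hS : 0 ≤ S) (hq : 0 ≤ q)
    (hqQ : q ≤ Q) (hy : 0 ≤ y) (hy1 : y ≤ 1) (h1 : S1 ≤ M2 * S + z8 * v ^ 2) (hv : v ≤ 1)
    (hz : 0 ≤ z8) (hv0 : 0 ≤ v) (hM2 : 0 ≤ M2) (hc : 0 < c) (hI : 0 ≤ I)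
    (he : r ≤ -(c / 2) * g2 + K * (S1 + (q ^ 4 + y ^ 8) * S)) :
    2 * r + c * g2 ≤ 2 * K * (M2 + Q ^ 4 + 1) * (S + c * I) + 2 * K * z8 := by
  have a1 : q ^ 4 ≤ Q ^ 4 := pow_le_pow_left₀ hq hqQ 4
  have a2 : y ^ 8 ≤ 1 := pow_le_one₀ hy hy1
  have a3 : v ^ 2 ≤ 1 := pow_le_one₀ hv0 hv
  have a4 : z8 * v ^ 2 ≤ z8 := mul_le_of_le_one_right hz a3
  have a5 : (q ^ 4 + y ^ 8) * S ≤ (Q ^ 4 + 1) * S := mul_le_mul_of_nonneg_right (by linarith) hS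
  have a6 : K * (S1 + (q ^ 4 + y ^ 8) * S) ≤ K * (M2 * S + z8 + (Q ^ 4 + 1) * S) :=
    mul_le_mul_of_nonneg_left (by linarith) hK
  have a7 : 0 ≤ 2 * K * (M2 + Q ^ 4 + 1) * (c * I) := by
    have : 0 ≤ Q ^ 4 := le_trans (pow_nonneg hq 4) a1
    positivity
  nlinarith

private theorem St_fin {K c m Q t S S0 I : ℝ} (hK : 0 ≤ K) (hc : 0 < c) (hm : 1 ≤ m) (hS0 : 0 ≤ S0)
    (hS : 0 ≤ S) (hI : 0 ≤ I)
    (ht : 0 ≤ t) (htb : t ≤ 1 / (8 * m ^ 2))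
    (h : S + c * I ≤ (S0 + 2 * K * (8 / zl m ^ 2) * t) *
      Real.exp (2 * K * (2 * (4 * m + 2 / zl m) ^ 2 + Q ^ 4 + 1) * t)) :
    S + I ≤ (1 + 1 / c) * ((1 + 256 * (2 * K)) * Real.exp (325 * (2 * K))) *
      Real.exp ((1 + 1 / c) * ((1 + 256 * (2 * K)) * Real.exp (325 * (2 * K))) * Q ^ 4) * (S0 + 1) := by
  set L := 2 * K with hL
  have hL0 : 0 ≤ L := by positivity
  have hm0 : 0 < m := by linarith
  have hs : 0 < √m := Real.sqrt_pos.2 hm0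
  have hs2 : √m ^ 2 = m := Real.sq_sqrt hm0.le
  have hsm : √m ≤ m := by nlinarith [Real.one_le_sqrt.2 hm]
  have e1 : 2 / zl m = 32 * √m := by unfold zl; field_simp; norm_num
  have e2 : 8 / zl m ^ 2 = 2048 * m := by
    unfold zl
    rw [div_pow, mul_pow, hs2]
    field_simp
    norm_num
  rw [e1, e2] at h
  have ht1 : m ^ 2 * t ≤ 1 / 8 := by
    have : m ^ 2 * t ≤ m ^ 2 * (1 / (8 * m ^ 2)) := mul_le_mul_of_nonneg_left htb (by positivity)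
    have e3 : m ^ 2 * (1 / (8 * m ^ 2)) = 1 / 8 := by field_simp
    linarith
  have ht2 : t ≤ 1 / 8 := by
    have := mul_le_mul_of_nonneg_right (one_le_pow₀ hm : 1 ≤ m ^ 2) ht
    linarith
  have ht3 : m * t ≤ 1 / 8 := by
    have := mul_le_mul_of_nonneg_right (by nlinarith : m ≤ m ^ 2) ht
    linarith
  have b1 : L * (2048 * m) * t ≤ 256 * L := by nlinarith
  have b2 : (4 * m + 32 * √m) ^ 2 ≤ 1296 * m ^ 2 := by nlinarith
  have hQ4 : 0 ≤ Q ^ 4 := by positivity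
  have b3 : (2 * (4 * m + 32 * √m) ^ 2 + Q ^ 4 + 1) * t ≤ 325 + Q ^ 4 := by
    have c1 : Q ^ 4 * t ≤ Q ^ 4 * 1 := mul_le_mul_of_nonneg_left (by linarith) (by positivity)
    have c2 : 2 * (4 * m + 32 * √m) ^ 2 * t ≤ 2592 * m ^ 2 * t :=
      mul_le_mul_of_nonneg_right (by linarith) ht
    nlinarith
  have b4 : L * (2 * (4 * m + 32 * √m) ^ 2 + Q ^ 4 + 1) * t ≤ 325 * L + L * Q ^ 4 := by
    have := mul_le_mul_of_nonneg_left b3 hL0
    linarith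
  set R := (1 + 256 * L) * Real.exp (325 * L) with hR
  have hex : 1 ≤ Real.exp (325 * L) := Real.one_le_exp (by positivity)
  have hR1 : 1 ≤ R := by rw [hR]; nlinarith
  have b5 : L ≤ R := by rw [hR]; nlinarith
  have hc1 : 0 < 1 / c := by positivity
  have b5' : L ≤ (1 + 1 / c) * R := by nlinarith
  have b6 : Real.exp (L * (2 * (4 * m + 32 * √m) ^ 2 + Q ^ 4 + 1) * t) ≤
      Real.exp (325 * L) * Real.exp ((1 + 1 / c) * R * Q ^ 4) := by
    rw [← Real.exp_add]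
    refine Real.exp_le_exp.2 (b4.trans ?_)
    have := mul_le_mul_of_nonneg_right b5' hQ4
    linarith
  have b7 : S0 + L * (2048 * m) * t ≤ (1 + 256 * L) * (S0 + 1) := by nlinarith
  have b8 : S + c * I ≤ R * Real.exp ((1 + 1 / c) * R * Q ^ 4) * (S0 + 1) := by
    calc S + c * I ≤ _ := h
      _ ≤ (1 + 256 * L) * (S0 + 1) *
          (Real.exp (325 * L) * Real.exp ((1 + 1 / c) * R * Q ^ 4)) :=
          mul_le_mul b7 b6 (Real.exp_pos _).le (by positivity)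
      _ = _ := by rw [hR]; ring
  have b9 : S + I ≤ (1 + 1 / c) * (S + c * I) := by
    have e : (1 + 1 / c) * (S + c * I) = S + I + (c * I + 1 / c * S) := by field_simp; ring
    rw [e]
    have : 0 ≤ c * I + 1 / c * S := by positivity
    linarith
  calc S + I ≤ _ := b9
    _ ≤ (1 + 1 / c) * (R * Real.exp ((1 + 1 / c) * R * Q ^ 4) * (S0 + 1)) :=
      mul_le_mul_of_nonneg_left b8 (by positivity)
    _ = _ := by ring

/-- **(E)** Proof: as `FlS.V_energy`, `FlS.V_bound` (FlV) with `Tst.energy` (ExMild) applied to `h.tst`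
(`M = Ms (th²)`, `p t = G.mv (Bm ..) (g t)`, `MulV.ms`, `Geo.Qd_mv`), `h.eq` and `wEe`; keep the term
`-(c₀/2) ‖th g‖²`: `E' ≤ -c₀ ‖th g‖² + a E + c`; the function `F(t) = E(t) + c₀ ∫_0^t ‖th g‖²` has
`F' ≤ a E + c ≤ a F + c`, so `gronw` (FlV) applies to `F` (`hasDerivWithinAt_prim` for the integral). -/
theorem StV.energy (G : Geo H) {η η1 η2 : CI H} (hη : CutOK G η η1 η2) :
    ∃ C, 1 ≤ C ∧ ∀ {N : ℕ} {A : ℝ → ℝ} {b : ℝ} {g h ℓ : ℝ → HH H} (_ : StV G N A η b g h ℓ)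
    (_ : 1 ≤ G.ω * N) (_ : b ≤ 1 / (8 * (G.ω * N) ^ 2))
    {Q : ℝ} (_ : ∀ t ∈ Icc 0 b, ‖h t‖ ≤ Q)
    (_ : ∀ t ∈ Icc 0 b, ‖LT G.ω G.lam (3 / 8) (g t)‖ ≤ 1), ∀ t ∈ Icc 0 b,
    ‖Ms (rc (tht (zl (G.ω * N)) (4 * (G.ω * N))) (tht_cont _ _)) (TT G.ω (g t))‖ ^ 2 +
      ∫ r in (0:ℝ)..t, ‖Ms (rc (tht (zl (G.ω * N)) (4 * (G.ω * N))) (tht_cont _ _)) (g r)‖ ^ 2 ≤
      C * Real.exp (C * Q ^ 4) *
        (‖Ms (rc (tht (zl (G.ω * N)) (4 * (G.ω * N))) (tht_cont _ _)) (TT G.ω (g 0))‖ ^ 2 + 1) := by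
  obtain ⟨K, hK, hE⟩ := wEe G hη
  refine ⟨(1 + 1 / G.c₀) * ((1 + 256 * (2 * K)) * Real.exp (325 * (2 * K))), ?_, ?_⟩
  · have h1 : 1 ≤ Real.exp (325 * (2 * K)) := Real.one_le_exp (by positivity)
    have h2 : 0 < 1 / G.c₀ := by have := G.hc; positivity
    have h3 : 1 ≤ (1 + 256 * (2 * K)) * Real.exp (325 * (2 * K)) := by nlinarith
    nlinarith
  intro N A b g h ℓ hs hm hb Q hQ hg t ht
  have hm0 : 0 < G.ω * N := by linarith
  have hc0 := G.hc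
  set th := tht (zl (G.ω * N)) (4 * (G.ω * N)) with hth
  set th1 := tht1 (zl (G.ω * N)) (4 * (G.ω * N)) with hth1
  have hw : Wgt H th := tht_wgt hm0
  have hd : IsD (rc th (tht_cont _ _) : CI H) (rc th1 (tht1_cont _ _)) := tht_isD hm0
  have h0 : th 0 = 0 := tht_zero (zl_posSt hm0) (zl_posSt hm0).le
  have mr : star (rc th (tht_cont _ _) * rc th (tht_cont _ _) : CI H) =
      rc th (tht_cont _ _) * rc th (tht_cont _ _) := by
    rw [star_mul, star_rc]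
  have m0 : ex (rc th (tht_cont _ _) * rc th (tht_cont _ _) : CI H) 0 = 0 := by
    rw [ex_mul, ex_rc _ _ zero_memI, h0]
    simp
  have hTT : IsD (rc th (tht_cont _ _) * rc th (tht_cont _ _) : CI H)
      (rc th1 (tht1_cont _ _) * rc th (tht_cont _ _) +
        rc th (tht_cont _ _) * rc th1 (tht1_cont _ _)) :=
    fun z hz => (hd z hz).mul (hd z hz)
  have hM := MulV.ms G hTT mr m0
  set M' := Bm G.ω (rc th (tht_cont _ _) * rc th (tht_cont _ _) : CI H)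
      (rc th1 (tht1_cont _ _) * rc th (tht_cont _ _) +
        rc th (tht_cont _ _) * rc th1 (tht1_cont _ _)) with hM'
  have hpc : ContinuousOn (fun t => G.mv M' (g t)) (Icc 0 b) :=
    (G.qd ∘L M').continuous.comp_continuousOn hs.gc
  have hder : ∀ s ∈ Icc 0 b, HasDerivWithinAt
      (fun t => ‖Ms (rc th (tht_cont _ _)) (TT G.ω (g t))‖ ^ 2)
      (2 * (⟪G.mv M' (g s), ℓ s⟫_ℂ).re) (Icc 0 b) s := by
    intro s hs'
    have h1 := hs.tst.energy hM.adj hpc (fun t _ => by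
      rw [← G.TT_Qd, Geo.TT_Qd_mv hM]) hs'
    exact h1.congr (fun s _ => energySt_eq _ _) (energySt_eq _ _)
  have hIc : ContinuousOn (fun r => ‖Ms (rc th (tht_cont _ _)) (g r)‖ ^ 2) (Icc 0 b) :=
    (((Ms (rc th (tht_cont _ _))).continuous.comp_continuousOn hs.gc).norm).pow 2
  have hI0 : ∀ s ∈ Icc 0 b, 0 ≤ ∫ r in (0:ℝ)..s, ‖Ms (rc th (tht_cont _ _)) (g r)‖ ^ 2 := by
    intro s hs'
    exact intervalIntegral.integral_nonneg hs'.1 (fun r _ => sq_nonneg _)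
  have hF : ∀ s ∈ Icc 0 b, HasDerivWithinAt
      (fun t => ‖Ms (rc th (tht_cont _ _)) (TT G.ω (g t))‖ ^ 2 +
        G.c₀ * ∫ r in (0:ℝ)..t, ‖Ms (rc th (tht_cont _ _)) (g r)‖ ^ 2)
      (2 * (⟪G.mv M' (g s), ℓ s⟫_ℂ).re + G.c₀ * ‖Ms (rc th (tht_cont _ _)) (g s)‖ ^ 2)
      (Icc 0 b) s := by
    intro s hs'
    exact (hder s hs').add ((hasDerivWithinAt_prim hIc hs').const_mul _)
  have hbd : ∀ s ∈ Icc 0 b,
      2 * (⟪G.mv M' (g s), ℓ s⟫_ℂ).re + G.c₀ * ‖Ms (rc th (tht_cont _ _)) (g s)‖ ^ 2 ≤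
      2 * K * (2 * (4 * (G.ω * N) + 2 / zl (G.ω * N)) ^ 2 + Q ^ 4 + 1) *
        (‖Ms (rc th (tht_cont _ _)) (TT G.ω (g s))‖ ^ 2 +
          G.c₀ * ∫ r in (0:ℝ)..s, ‖Ms (rc th (tht_cont _ _)) (g r)‖ ^ 2) +
      2 * K * (8 / zl (G.ω * N) ^ 2) := by
    intro s hs'
    have h1 := hE hw (tht1_cont _ _) hd (hs.A0 s hs') (tht_cell hm0 (hs.A0 s hs')) (g s) (h s)
    have h2 := hs.eq s hs' (G.mv M' (g s))
    rw [Geo.Qd_mv hM, hM.T, hM', Bm_sqSt, ← Ms_Ms] at h2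
    rw [hM'] 
    have h3 := h1
    rw [← h2] at h3
    exact St_alg hK (sq_nonneg _) (norm_nonneg _) (hQ s hs') (norm_nonneg _) (hg s hs')
      (Ms_tht1_leSt hm0 _) (TTSt_le_one (hg s hs')) (by positivity) (norm_nonneg _) (by positivity)
      hc0 (hI0 s hs') h3
  have h1 := gronw (a := 2 * K * (2 * (4 * (G.ω * N) + 2 / zl (G.ω * N)) ^ 2 + Q ^ 4 + 1))
    (c := 2 * K * (8 / zl (G.ω * N) ^ 2)) (by positivity) (by positivity) hF hbd t ht
  simp only [intervalIntegral.integral_same, mul_zero, add_zero] at h1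
  exact St_fin hK hc0 hm (sq_nonneg _) (sq_nonneg _) (hI0 t ht) ht.1 (ht.2.trans hb) h1

end

end Pool.Agent.Lib.MP_79abb3_an.SC
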