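import Pool.Agent.Lib.MP_79abb3_an.PD.TotA
import Pool.Agent.Lib.MP_79abb3_an.SC.ChStream

/-!
Theorem D, block A: test functions: stream functions of divergence free test fields, their time slices.
-/

set_option autoImplicit false
set_option linter.unusedSectionVars false

open MeasureTheory Set Filter Topology Function
open scoped ENNReal InnerProductSpace ComplexConjugate

namespace Pool.Agent.Lib.MP_79abb3_an.PD

open Pool.Agent.Lib.MP_79abb3_an.SC

/-- `χ` is a stream function of the test field `φ`: `φ = ∇^⊥χ`. -/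
structure IsChiT (T : ℝ) (Ω : Set ℂ) (φ : ℝ × ℂ → ℂ) (χ : ℝ × ℂ → ℝ) : Prop where
  smooth : ContDiff ℝ ((⊤ : ℕ∞) : WithTop ℕ∞) χ
  cpt : HasCompactSupport χ
  supp : tsupport χ ⊆ Ioo 0 T ×ˢ univ
  eq : ∀ p, dS χ Complex.I p = (φ p).re ∧ -dS χ 1 p = (φ p).im

/-- `(t, (y, z)) ↦ (t, y + i z)` -/
private noncomputable def tfaA : (ℝ × (ℝ × ℝ)) ≃L[ℝ] (ℝ × ℂ) :=
  (ContinuousLinearEquiv.refl ℝ ℝ).prodCongr Complex.equivRealProdCLM.symm

/-- Proof (as `SC/ChStream.lean`): `χ(t, x₁ + i x₂) = ∫_{-∞}^{x₂} φ₁(t, x₁ + i s) ds = ∫_0^R φ₁(t, x₁ + i (x₂ - r)) dr`;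
`∂₂χ = φ₁`, `∂₁χ = ∫ ∂₁φ₁ = -∫ ∂₂φ₂ = -φ₂`; for `x₂` large `χ` does not depend on `x₂`, and `∂₁χ = 0` there, so `χ = 0` there. -/
theorem exists_chiT {T : ℝ} {Ω : Set ℂ} {φ : ℝ × ℂ → ℂ} (hφ : IsTf T Ω φ) (hd : ∀ p, divS φ p = 0) :
    ∃ χ, IsChiT T Ω φ χ := by
  obtain ⟨R, hR⟩ := (hφ.cpt.isCompact.image continuous_snd).isBounded.subset_ball 0
  set A : ℝ × (ℝ × ℝ) → ℝ × ℂ := fun p => tfaA p + (0, -((R : ℝ) : ℂ) * Complex.I) with hA
  set B : ℝ × ℂ → ℝ × (ℝ × ℝ) := fun q => tfaA.symm q + (0, (0, R)) with hB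
  have hAB : ∀ q, A (B q) = q := by
    intro q
    simp only [hA, hB, map_add, ContinuousLinearEquiv.apply_symm_apply]
    have : tfaA (0, (0, R)) = (0, ((R : ℝ) : ℂ) * Complex.I) := by
      apply Prod.ext
      · rfl
      · show Complex.equivRealProdCLM.symm (0, R) = _
        apply Complex.ext <;> simp
    rw [this, add_assoc]
    simp
  have hA1 : ∀ p, (A p).1 = p.1 := fun p => by
    show p.1 + 0 = p.1
    rw [add_zero]
  have hAr : ∀ p, (A p).2.re = p.2.1 := fun p => by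
    show (Complex.equivRealProdCLM.symm p.2 + -((R : ℝ) : ℂ) * Complex.I).re = _
    simp
  have hAi : ∀ p, (A p).2.im = p.2.2 - R := fun p => by
    show (Complex.equivRealProdCLM.symm p.2 + -((R : ℝ) : ℂ) * Complex.I).im = _
    simp [sub_eq_add_neg]
  have hAd : ∀ p, HasFDerivAt A (tfaA : (ℝ × (ℝ × ℝ)) →L[ℝ] (ℝ × ℂ)) p := fun p =>
    tfaA.hasFDerivAt.add_const _
  have hBd : ∀ q, HasFDerivAt B (tfaA.symm : (ℝ × ℂ) →L[ℝ] (ℝ × (ℝ × ℝ))) q := fun q =>
    tfaA.symm.hasFDerivAt.add_const _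
  have cA : ContDiff ℝ ((⊤ : ℕ∞) : WithTop ℕ∞) A := tfaA.contDiff.add contDiff_const
  have cB : ContDiff ℝ ((⊤ : ℕ∞) : WithTop ℕ∞) B := tfaA.symm.contDiff.add contDiff_const
  have ts : tsupport (φ ∘ A) ⊆ A ⁻¹' tsupport φ :=
    closure_minimal (fun p hp => subset_tsupport φ hp) ((isClosed_tsupport φ).preimage cA.continuous)
  have hTs : IsTs T R (2 * R) (φ ∘ A) := by
    refine ⟨hφ.smooth.comp cA, ?_, ?_⟩
    · refine (hφ.cpt.isCompact.image cB.continuous).of_isClosed_subset (isClosed_tsupport _) ?_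
      intro p hp
      refine ⟨A p, ts hp, ?_⟩
      have : tfaA.symm (0, -((R : ℝ) : ℂ) * Complex.I) = (0, (0, -R)) := by
        apply Prod.ext
        · rfl
        · show Complex.equivRealProdCLM (-((R : ℝ) : ℂ) * Complex.I) = _
          simp [Complex.equivRealProdCLM_apply]
      simp only [hA, hB, map_add, ContinuousLinearEquiv.symm_apply_apply]
      rw [this, add_assoc]
      simp
    · intro p hp
      have h1 := hφ.supp (ts hp)
      have h2 : (A p).2 ∈ Metric.ball (0 : ℂ) R := hR ⟨A p, ts hp, rfl⟩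
      rw [mem_ball_zero_iff] at h2
      have h3 := (Complex.abs_re_le_norm (A p).2).trans_lt h2
      have h4 := (Complex.abs_im_le_norm (A p).2).trans_lt h2
      rw [hAr, abs_lt] at h3
      rw [hAi, abs_lt] at h4
      refine ⟨by rw [← hA1 p]; exact h1.1, ⟨h3.1, h3.2⟩, ?_, ?_⟩
      · linarith
      · linarith
  have e1 : ∀ p, sy (φ ∘ A) p = dS φ 1 (A p) := by
    intro p
    show fderiv ℝ (φ ∘ A) p (0, (1, 0)) = _
    have h1 : HasFDerivAt φ (fderiv ℝ φ (A p)) (A p) :=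
      (hφ.smooth.differentiable (by simp)).differentiableAt.hasFDerivAt
    rw [(h1.comp p (hAd p)).fderiv]
    show fderiv ℝ φ (A p) (tfaA (0, (1, 0))) = fderiv ℝ φ (A p) (0, 1)
    congr 1
  have e2 : ∀ p, sz (φ ∘ A) p = dS φ Complex.I (A p) := by
    intro p
    show fderiv ℝ (φ ∘ A) p (0, (0, 1)) = _
    have h1 : HasFDerivAt φ (fderiv ℝ φ (A p)) (A p) :=
      (hφ.smooth.differentiable (by simp)).differentiableAt.hasFDerivAt
    rw [(h1.comp p (hAd p)).fderiv]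
    show fderiv ℝ φ (A p) (tfaA (0, (0, 1))) = fderiv ℝ φ (A p) (0, Complex.I)
    congr 1
  obtain ⟨G, hG, hz, hy⟩ := stream hTs (fun p => by rw [e1, e2]; exact hd (A p))
  have dG : ∀ q e, dS (G ∘ B) e q = fderiv ℝ G (B q) (0, (e.re, e.im)) := by
    intro q e
    show fderiv ℝ (G ∘ B) q (0, e) = _
    have h1 : HasFDerivAt G (fderiv ℝ G (B q)) (B q) :=
      (hG.smooth.differentiable (by simp)).differentiableAt.hasFDerivAt
    rw [(h1.comp q (hBd q)).fderiv]
    show fderiv ℝ G (B q) (tfaA.symm (0, e)) = _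
    congr 1
  have ts2 : tsupport (G ∘ B) ⊆ B ⁻¹' tsupport G :=
    closure_minimal (fun p hp => subset_tsupport G hp) ((isClosed_tsupport G).preimage cB.continuous)
  refine ⟨G ∘ B, hG.smooth.comp cB, ?_, ?_, fun q => ⟨?_, ?_⟩⟩
  · refine (hG.cpt.isCompact.image cA.continuous).of_isClosed_subset (isClosed_tsupport _) ?_
    intro q hq
    exact ⟨B q, ts2 hq, hAB q⟩
  · intro q hq
    have h1 := hG.supp (ts2 hq)
    refine ⟨?_, mem_univ _⟩
    have h2 : (B q).1 = q.1 := by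
      show q.1 + 0 = q.1
      rw [add_zero]
    rw [← h2]
    exact h1.1
  · rw [dG]
    have := hz (B q)
    simp only [Complex.I_re, Complex.I_im]
    rw [Function.comp_apply, hAB] at this
    exact this
  · rw [dG]
    have := hy (B q)
    simp only [Complex.one_re, Complex.one_im]
    rw [Function.comp_apply, hAB] at this
    show -(sy G (B q)) = _
    rw [this, neg_neg]

end Pool.Agent.Lib.MP_79abb3_an.PD
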