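import Pool.Agent.Lib.MP_79abb3_an.PD.TfA

/-!
Theorem D, block A: time slices.
-/

set_option autoImplicit false
set_option linter.unusedSectionVars false

open MeasureTheory Set Filter Topology Function
open scoped ENNReal InnerProductSpace ComplexConjugate

namespace Pool.Agent.Lib.MP_79abb3_an.PD

open Pool.Agent.Lib.MP_79abb3_an.SC

/-- the slice at time `t`, as a complex valued function -/
noncomputable def sl (f : ℝ × ℂ → ℝ) (t : ℝ) (x : ℂ) : ℂ := ((f (t, x) : ℝ) : ℂ)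

private theorem tfA2_fderiv {f : ℝ × ℂ → ℝ} (hf : ContDiff ℝ ((⊤ : ℕ∞) : WithTop ℕ∞) f) (t : ℝ)
    (x e : ℂ) : fderiv ℝ (sl f t) x e = ((dS f e (t, x) : ℝ) : ℂ) := by
  have h1 : HasFDerivAt f (fderiv ℝ f (t, x)) (t, x) :=
    (hf.differentiable (by norm_num) (t, x)).hasFDerivAt
  have h2 : HasFDerivAt (fun x : ℂ => ((t, x) : ℝ × ℂ)) (ContinuousLinearMap.inr ℝ ℝ ℂ) x :=
    (hasFDerivAt_const t x).prodMk (hasFDerivAt_id x)
  have h3 : HasFDerivAt (sl f t)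
      (Complex.ofRealCLM ∘L (fderiv ℝ f (t, x) ∘L ContinuousLinearMap.inr ℝ ℝ ℂ)) x :=
    Complex.ofRealCLM.hasFDerivAt.comp x (h1.comp x h2)
  rw [h3.fderiv]
  rfl

private theorem tfA2_cd {f : ℝ × ℂ → ℝ} (hf : ContDiff ℝ ((⊤ : ℕ∞) : WithTop ℕ∞) f) (v : ℝ × ℂ) :
    ContDiff ℝ ((⊤ : ℕ∞) : WithTop ℕ∞) fun p => fderiv ℝ f p v := by
  have h1 : ContDiff ℝ ((⊤ : ℕ∞) : WithTop ℕ∞) (fderiv ℝ f) :=
    ContDiff.fderiv_right hf (by exact_mod_cast le_top)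
  exact h1.clm_apply contDiff_const

private theorem tfA2_dd {f : ℝ × ℂ → ℝ} (hf : ContDiff ℝ ((⊤ : ℕ∞) : WithTop ℕ∞) f)
    (v w : ℝ × ℂ) (p : ℝ × ℂ) :
    fderiv ℝ (fun p => fderiv ℝ f p v) p w = fderiv ℝ (fderiv ℝ f) p w v := by
  have h1 : ContDiff ℝ ((⊤ : ℕ∞) : WithTop ℕ∞) (fderiv ℝ f) :=
    ContDiff.fderiv_right hf (by exact_mod_cast le_top)
  have h2 : Differentiable ℝ (fderiv ℝ f) := h1.differentiable (by norm_num)
  have h3 := (h2 p).hasFDerivAt.clm_apply (hasFDerivAt_const v p)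
  rw [h3.fderiv]
  simp

section
variable {f : ℝ × ℂ → ℝ}

theorem sl_Cc (hf : ContDiff ℝ ((⊤ : ℕ∞) : WithTop ℕ∞) f) (hc : HasCompactSupport f) (t : ℝ) : Cc (sl f t) := by
  refine ⟨Complex.ofRealCLM.contDiff.comp (hf.comp (contDiff_const.prodMk contDiff_id)), ?_⟩
  refine HasCompactSupport.intro (hc.isCompact.image continuous_snd) fun x hx => ?_
  have h1 : f (t, x) = 0 := by
    by_contra h
    exact hx ⟨(t, x), subset_tsupport _ h, rfl⟩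
  unfold sl
  rw [h1, Complex.ofReal_zero]

theorem px_sl (hf : ContDiff ℝ ((⊤ : ℕ∞) : WithTop ℕ∞) f) (t : ℝ) : px (sl f t) = sl (dS f 1) t :=
  funext fun x => tfA2_fderiv hf t x 1
theorem py_sl (hf : ContDiff ℝ ((⊤ : ℕ∞) : WithTop ℕ∞) f) (t : ℝ) : py (sl f t) = sl (dS f Complex.I) t :=
  funext fun x => tfA2_fderiv hf t x Complex.I
theorem lap_sl (hf : ContDiff ℝ ((⊤ : ℕ∞) : WithTop ℕ∞) f) (t : ℝ) : lap (sl f t) = sl (lapS f) t := by
  funext x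
  unfold lap
  have a1 : ContDiff ℝ ((⊤ : ℕ∞) : WithTop ℕ∞) (dS f 1) := tfA2_cd hf (0, 1)
  have a2 : ContDiff ℝ ((⊤ : ℕ∞) : WithTop ℕ∞) (dS f Complex.I) := tfA2_cd hf (0, Complex.I)
  rw [px_sl hf, py_sl hf, px_sl a1, py_sl a2]
  unfold sl lapS
  rw [Complex.ofReal_add]

theorem cd_dS (hf : ContDiff ℝ ((⊤ : ℕ∞) : WithTop ℕ∞) f) (e : ℂ) :
    ContDiff ℝ ((⊤ : ℕ∞) : WithTop ℕ∞) (dS f e) := tfA2_cd hf (0, e)
theorem cd_dT (hf : ContDiff ℝ ((⊤ : ℕ∞) : WithTop ℕ∞) f) : ContDiff ℝ ((⊤ : ℕ∞) : WithTop ℕ∞) (dT f) :=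
  tfA2_cd hf (1, 0)
theorem hc_dS (hc : HasCompactSupport f) (e : ℂ) : HasCompactSupport (dS f e) :=
  hc.fderiv_apply ℝ (0, e)
theorem hc_dT (hc : HasCompactSupport f) : HasCompactSupport (dT f) :=
  hc.fderiv_apply ℝ (1, 0)

/-- the derivatives commute -/
theorem dS_dT (hf : ContDiff ℝ ((⊤ : ℕ∞) : WithTop ℕ∞) f) (e : ℂ) : dS (dT f) e = dT (dS f e) := by
  funext p
  have h1 : dS (dT f) e p = fderiv ℝ (fderiv ℝ f) p (0, e) (1, 0) := tfA2_dd hf (1, 0) (0, e) p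
  have h2 : dT (dS f e) p = fderiv ℝ (fderiv ℝ f) p (1, 0) (0, e) := tfA2_dd hf (0, e) (1, 0) p
  have h3 : IsSymmSndFDerivAt ℝ f p := by
    refine ContDiffAt.isSymmSndFDerivAt (ContDiff.contDiffAt hf) ?_
    rw [minSmoothness_of_isRCLikeNormedField]
    show ((2 : ℕ∞) : WithTop ℕ∞) ≤ ((⊤ : ℕ∞) : WithTop ℕ∞)
    exact WithTop.coe_le_coe.2 le_top
  rw [h1, h2, h3.eq]

/-- The slices are local stream functions: `dψ` vanishes outside the slice of the support of `φ`, which is compact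
in `Ω`. -/
theorem IsChiT.adm {T : ℝ} {Ω : Set ℂ} {φ : ℝ × ℂ → ℂ} {χ : ℝ × ℂ → ℝ} (h : IsChiT T Ω φ χ) (hφ : IsTf T Ω φ) (t : ℝ) :
    sl χ t ∈ Adm Ω := by
  refine ⟨sl_Cc h.smooth h.cpt t, ?_⟩
  have hcl : IsClosed {x : ℂ | (t, x) ∈ tsupport φ} :=
    (isClosed_tsupport φ).preimage (by fun_prop : Continuous fun x : ℂ => ((t, x) : ℝ × ℂ))
  have h1 : tsupport (fderiv ℝ (sl χ t)) ⊆ {x : ℂ | (t, x) ∈ tsupport φ} := by
    refine closure_minimal (fun x hx => ?_) hcl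
    by_contra h2
    apply hx
    have h3 : φ (t, x) = 0 := by
      by_contra h4
      exact h2 (subset_tsupport _ h4)
    obtain ⟨e1, e2⟩ := h.eq (t, x)
    rw [h3, Complex.zero_re] at e1
    rw [h3, Complex.zero_im, neg_eq_zero] at e2
    have k1 : fderiv ℝ (sl χ t) x 1 = 0 := by
      rw [tfA2_fderiv h.smooth, e2, Complex.ofReal_zero]
    have k2 : fderiv ℝ (sl χ t) x Complex.I = 0 := by
      rw [tfA2_fderiv h.smooth, e1, Complex.ofReal_zero]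
    refine ContinuousLinearMap.ext fun z => ?_
    have h5 : z = z.re • (1 : ℂ) + z.im • Complex.I := by
      apply Complex.ext <;> simp
    rw [h5, map_add, map_smul, map_smul, k1, k2]
    simp
  intro x hx
  exact (hφ.supp (h1 hx)).2

end

end Pool.Agent.Lib.MP_79abb3_an.PD
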