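import Pool.Agent.Lib.MP_79abb3_an.PD.TfA2

/-!
Theorem D, block A: continuity in time of slices; testing with time dependent test functions.
-/

set_option autoImplicit false
set_option linter.unusedSectionVars false

open MeasureTheory Set Filter Topology Function
open scoped ENNReal InnerProductSpace ComplexConjugate

namespace Pool.Agent.Lib.MP_79abb3_an.PD

open Pool.Agent.Lib.MP_79abb3_an.SC

private theorem tfB_le {K : Set ℂ} (p : ℝ≥0∞) {g : ℂ → ℂ} (hg : ∀ x, x ∉ K → g x = 0)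
    {c : ℝ} (hc : ∀ x, ‖g x‖ ≤ c) :
    eLpNorm g p (volume : Measure ℂ) ≤ volume K ^ p.toReal⁻¹ * ENNReal.ofReal c := by
  have hs : support g ⊆ K := fun x hx => by
    by_contra h
    exact hx (hg x h)
  rw [← eLpNorm_restrict_eq_of_support_subset hs]
  refine (eLpNorm_le_of_ae_bound (Eventually.of_forall hc)).trans (le_of_eq ?_)
  rw [Measure.restrict_apply_univ]

private theorem tfB_cl2 {K : Set ℂ} (hK : IsCompact K) : ∃ C : ℝ, 0 ≤ C ∧ ∀ g : ℂ → ℂ,
    (∀ x, x ∉ K → g x = 0) → ∀ c, 0 ≤ c → (∀ x, ‖g x‖ ≤ c) → ‖cl2 g‖ ≤ C * c := by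
  refine ⟨(volume K ^ (2 : ℝ≥0∞).toReal⁻¹).toReal, ENNReal.toReal_nonneg, fun g hg c hc0 hc => ?_⟩
  by_cases hm : MemLp g 2 (volume : Measure ℂ)
  · rw [cl2_eq hm, Lp.norm_toLp]
    have h1 := tfB_le 2 hg hc
    have hfin : volume K ^ (2 : ℝ≥0∞).toReal⁻¹ ≠ ∞ :=
      ENNReal.rpow_ne_top_of_nonneg (by positivity) hK.measure_lt_top.ne
    have h2 := ENNReal.toReal_mono (ENNReal.mul_ne_top hfin ENNReal.ofReal_ne_top) h1
    rwa [ENNReal.toReal_mul, ENNReal.toReal_ofReal hc0] at h2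
  · have : cl2 g = 0 := dif_neg hm
    rw [this, norm_zero]
    exact mul_nonneg ENNReal.toReal_nonneg hc0

private theorem tfB_cl4 {K : Set ℂ} (hK : IsCompact K) : ∃ C : ℝ, 0 ≤ C ∧ ∀ g : ℂ → ℂ,
    (∀ x, x ∉ K → g x = 0) → ∀ c, 0 ≤ c → (∀ x, ‖g x‖ ≤ c) → ‖cl4 g‖ ≤ C * c := by
  refine ⟨(volume K ^ (4 : ℝ≥0∞).toReal⁻¹).toReal, ENNReal.toReal_nonneg, fun g hg c hc0 hc => ?_⟩
  by_cases hm : MemLp g 4 (volume : Measure ℂ)
  · rw [cl4_eq hm, Lp.norm_toLp]
    have h1 := tfB_le 4 hg hc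
    have hfin : volume K ^ (4 : ℝ≥0∞).toReal⁻¹ ≠ ∞ :=
      ENNReal.rpow_ne_top_of_nonneg (by positivity) hK.measure_lt_top.ne
    have h2 := ENNReal.toReal_mono (ENNReal.mul_ne_top hfin ENNReal.ofReal_ne_top) h1
    rwa [ENNReal.toReal_mul, ENNReal.toReal_ofReal hc0] at h2
  · have : cl4 g = 0 := dif_neg hm
    rw [this, norm_zero]
    exact mul_nonneg ENNReal.toReal_nonneg hc0

private theorem tfB_memLp {f : ℝ × ℂ → ℝ} (hf : Continuous f) (hc : HasCompactSupport f) (t : ℝ)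
    (p : ℝ≥0∞) : MemLp (sl f t) p (volume : Measure ℂ) := by
  have h1 : Continuous (sl f t) :=
    Complex.continuous_ofReal.comp (hf.comp (by fun_prop : Continuous fun x : ℂ => ((t, x) : ℝ × ℂ)))
  refine h1.memLp_of_hasCompactSupport ?_
  refine HasCompactSupport.intro (hc.isCompact.image continuous_snd) fun x hx => ?_
  have h1 : f (t, x) = 0 := by
    by_contra h
    exact hx ⟨(t, x), subset_tsupport _ h, rfl⟩
  unfold sl
  rw [h1, Complex.ofReal_zero]

private theorem tfB_zero {f : ℝ × ℂ → ℝ} (t : ℝ) {x : ℂ} (hx : x ∉ Prod.snd '' tsupport f) :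
    f (t, x) = 0 := by
  by_contra h
  exact hx ⟨(t, x), subset_tsupport _ h, rfl⟩

private theorem tfB_sub2 {f g : ℂ → ℂ} (hf : MemLp f 2 (volume : Measure ℂ))
    (hg : MemLp g 2 (volume : Measure ℂ)) : cl2 f - cl2 g = cl2 (fun x => f x - g x) := by
  have h : MemLp (fun x => f x - g x) 2 (volume : Measure ℂ) := hf.sub hg
  rw [cl2_eq hf, cl2_eq hg, cl2_eq h]; rfl

private theorem tfB_sub4 {f g : ℂ → ℂ} (hf : MemLp f 4 (volume : Measure ℂ))
    (hg : MemLp g 4 (volume : Measure ℂ)) : cl4 f - cl4 g = cl4 (fun x => f x - g x) := by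
  have h : MemLp (fun x => f x - g x) 4 (volume : Measure ℂ) := hf.sub hg
  rw [cl4_eq hf, cl4_eq hg, cl4_eq h]; rfl

private theorem tfB_rsmul (r : ℝ) {f : ℂ → ℂ} (hf : MemLp f 2 (volume : Measure ℂ)) :
    r • cl2 f = cl2 (fun x => (r : ℂ) * f x) := by
  have h : MemLp (fun x => (r : ℂ) * f x) 2 (volume : Measure ℂ) := hf.const_mul (r : ℂ)
  refine Lp.ext ?_
  filter_upwards [Lp.coeFn_smul r (cl2 f), cl2_coe hf, cl2_coe h] with x h1 h2 h3
  rw [h1, h3, Pi.smul_apply, h2, Complex.real_smul]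

/-- uniform continuity in time -/
private theorem tfB_unif {f : ℝ × ℂ → ℝ} (hf : Continuous f) (hc : HasCompactSupport f) {ε : ℝ}
    (hε : 0 < ε) : ∃ δ > 0, ∀ s t : ℝ, |s - t| < δ → ∀ x : ℂ, |f (s, x) - f (t, x)| ≤ ε := by
  have hu : UniformContinuous f := hf.uniformContinuous_of_tendsto_cocompact hc.is_zero_at_infty
  obtain ⟨δ, hδ, h⟩ := Metric.uniformContinuous_iff.mp hu ε hε
  refine ⟨δ, hδ, fun s t hst x => ?_⟩
  have h1 : dist ((s, x) : ℝ × ℂ) (t, x) < δ := by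
    rw [Prod.dist_eq, dist_self, max_eq_left dist_nonneg, Real.dist_eq]
    exact hst
  have h2 := h h1
  rw [Real.dist_eq] at h2
  exact h2.le

private theorem tfB_dT {f : ℝ × ℂ → ℝ} (hf : ContDiff ℝ ((⊤ : ℕ∞) : WithTop ℕ∞) f) (r : ℝ) (x : ℂ) :
    HasDerivAt (fun r => f (r, x)) (dT f (r, x)) r := by
  have h1 : HasFDerivAt f (fderiv ℝ f (r, x)) (r, x) :=
    (hf.differentiable (by norm_num) (r, x)).hasFDerivAt
  have h2 : HasDerivAt (fun r : ℝ => ((r, x) : ℝ × ℂ)) (1, 0) r :=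
    (hasDerivAt_id r).prodMk (hasDerivAt_const r x)
  exact h1.comp_hasDerivAt r h2

section
variable {f : ℝ × ℂ → ℝ}

/-- Proof: uniform continuity, supports in a fixed compact set. -/
theorem sl_cont2 (hf : Continuous f) (hc : HasCompactSupport f) : Continuous fun t => cl2 (sl f t) := by
  obtain ⟨C, hC0, hC⟩ := tfB_cl2 (hc.isCompact.image continuous_snd)
  refine Metric.continuous_iff.mpr fun t ε hε => ?_
  obtain ⟨δ, hδ, h⟩ := tfB_unif hf hc (ε := ε / (2 * (C + 1))) (by positivity)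
  refine ⟨δ, hδ, fun s hs => ?_⟩
  rw [Real.dist_eq] at hs
  rw [dist_eq_norm, tfB_sub2 (tfB_memLp hf hc s 2) (tfB_memLp hf hc t 2)]
  refine (hC _ (fun x hx => ?_) (ε / (2 * (C + 1))) (by positivity) fun x => ?_).trans_lt ?_
  · unfold sl
    rw [tfB_zero s hx, tfB_zero t hx, sub_self]
  · unfold sl
    rw [← Complex.ofReal_sub, Complex.norm_real]
    exact h s t hs x
  · rw [mul_div_assoc', div_lt_iff₀ (by positivity)]
    nlinarith
theorem sl_cont4 (hf : Continuous f) (hc : HasCompactSupport f) : Continuous fun t => cl4 (sl f t) := by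
  obtain ⟨C, hC0, hC⟩ := tfB_cl4 (hc.isCompact.image continuous_snd)
  refine Metric.continuous_iff.mpr fun t ε hε => ?_
  obtain ⟨δ, hδ, h⟩ := tfB_unif hf hc (ε := ε / (2 * (C + 1))) (by positivity)
  refine ⟨δ, hδ, fun s hs => ?_⟩
  rw [Real.dist_eq] at hs
  rw [dist_eq_norm, tfB_sub4 (tfB_memLp hf hc s 4) (tfB_memLp hf hc t 4)]
  refine (hC _ (fun x hx => ?_) (ε / (2 * (C + 1))) (by positivity) fun x => ?_).trans_lt ?_
  · unfold sl
    rw [tfB_zero s hx, tfB_zero t hx, sub_self]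
  · unfold sl
    rw [← Complex.ofReal_sub, Complex.norm_real]
    exact h s t hs x
  · rw [mul_div_assoc', div_lt_iff₀ (by positivity)]
    nlinarith

/-- Proof: the difference quotients converge uniformly, supports in a fixed compact set. -/
theorem sl_deriv2 (hf : ContDiff ℝ ((⊤ : ℕ∞) : WithTop ℕ∞) f) (hc : HasCompactSupport f) (t : ℝ) :
    HasDerivAt (fun t => cl2 (sl f t)) (cl2 (sl (dT f) t)) t := by
  obtain ⟨C, hC0, hC⟩ := tfB_cl2 (hc.isCompact.image continuous_snd)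
  have hd : Continuous (dT f) := (cd_dT hf).continuous
  have hdc : HasCompactSupport (dT f) := hc_dT hc
  have hdz : ∀ (r : ℝ) (x : ℂ), x ∉ Prod.snd '' tsupport f → dT f (r, x) = 0 := by
    intro r x hx
    have h1 : (r, x) ∉ tsupport f := fun h => hx ⟨(r, x), h, rfl⟩
    have h2 : fderiv ℝ f (r, x) = 0 := by
      by_contra h
      exact h1 (support_fderiv_subset ℝ h)
    unfold dT
    rw [h2]
    rfl
  rw [hasDerivAt_iff_isLittleO, Asymptotics.isLittleO_iff]
  intro ε hε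
  obtain ⟨δ, hδ, h⟩ := tfB_unif hd hdc (ε := ε / (C + 1)) (by positivity)
  filter_upwards [Metric.ball_mem_nhds t hδ] with s hs
  rw [Metric.mem_ball, Real.dist_eq] at hs
  have m1 : MemLp (fun x => sl f s x - sl f t x) 2 (volume : Measure ℂ) :=
    (tfB_memLp hf.continuous hc s 2).sub (tfB_memLp hf.continuous hc t 2)
  have m2 : MemLp (fun x => ((s - t : ℝ) : ℂ) * sl (dT f) t x) 2 (volume : Measure ℂ) :=
    (tfB_memLp hd hdc t 2).const_mul _
  rw [tfB_sub2 (tfB_memLp hf.continuous hc s 2) (tfB_memLp hf.continuous hc t 2),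
    tfB_rsmul _ (tfB_memLp hd hdc t 2), tfB_sub2 m1 m2]
  refine (hC _ (fun x hx => ?_) (ε / (C + 1) * |s - t|) (by positivity) fun x => ?_).trans ?_
  · unfold sl
    rw [tfB_zero s hx, tfB_zero t hx, hdz t x hx]
    simp
  · have h1 : ‖(f (s, x) - s * dT f (t, x)) - (f (t, x) - t * dT f (t, x))‖ ≤
        ε / (C + 1) * ‖s - t‖ := by
      refine Convex.norm_image_sub_le_of_norm_hasDerivWithin_le
        (f := fun r => f (r, x) - r * dT f (t, x)) (f' := fun r => dT f (r, x) - dT f (t, x))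
        (s := Metric.ball t δ) ?_ ?_ (convex_ball t δ) (Metric.mem_ball_self hδ)
        (by rw [Metric.mem_ball, Real.dist_eq]; exact hs)
      · intro r _
        have h2 : HasDerivAt (fun r => r * dT f (t, x)) (dT f (t, x)) r := by
          simpa using (hasDerivAt_id r).mul_const (dT f (t, x))
        exact ((tfB_dT hf r x).sub h2).hasDerivWithinAt
      · intro r hr
        rw [Metric.mem_ball, Real.dist_eq] at hr
        rw [Real.norm_eq_abs]
        exact h r t hr x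
    rw [Real.norm_eq_abs (s - t)] at h1
    refine le_trans (le_of_eq ?_) h1
    unfold sl
    rw [← Complex.ofReal_sub, ← Complex.ofReal_mul, ← Complex.ofReal_sub, Complex.norm_real]
    congr 1
    ring
  · rw [Real.norm_eq_abs (s - t), ← mul_assoc]
    refine mul_le_mul_of_nonneg_right ?_ (abs_nonneg _)
    rw [mul_div_assoc', div_le_iff₀ (by positivity)]
    nlinarith

/-- `gp` of the slices -/
theorem gp_sl_deriv (hf : ContDiff ℝ ((⊤ : ℕ∞) : WithTop ℕ∞) f) (hc : HasCompactSupport f) (t : ℝ) :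
    HasDerivAt (fun t => gp (sl f t)) (gp (sl (dT f) t)) t := by
  have h1 := sl_deriv2 (cd_dS hf Complex.I) (hc_dS hc Complex.I) t
  have h2 := (sl_deriv2 (cd_dS hf 1) (hc_dS hc 1) t).neg
  rw [← dS_dT hf] at h1 h2
  rw [← py_sl (cd_dT hf)] at h1
  rw [← px_sl (cd_dT hf)] at h2
  have h3 := h1.prodMk h2
  have h4 := ((WithLp.prodContinuousLinearEquiv 2 ℝ L2c L2c).symm :
    (L2c × L2c) →L[ℝ] Y2).hasFDerivAt.comp_hasDerivAt t h3
  have h5 : (fun t => gp (sl f t)) = (fun t => ((WithLp.prodContinuousLinearEquiv 2 ℝ L2c L2c).symm :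
      (L2c × L2c) →L[ℝ] Y2) (cl2 (sl (dS f Complex.I) t), (-fun t => cl2 (sl (dS f 1) t)) t)) := by
    funext r
    unfold gp
    rw [py_sl hf, px_sl hf]
    rfl
  rw [h5]
  exact h4
theorem gp_sl_cont (hf : ContDiff ℝ ((⊤ : ℕ∞) : WithTop ℕ∞) f) (hc : HasCompactSupport f) :
    Continuous fun t => gp (sl f t) :=
  continuous_iff_continuousAt.mpr fun t => (gp_sl_deriv hf hc t).continuousAt
theorem cu_sl_cont (hf : ContDiff ℝ ((⊤ : ℕ∞) : WithTop ℕ∞) f) (hc : HasCompactSupport f) :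
    Continuous fun t => cu (sl f t) := by
  have h1 : Continuous (lapS f) :=
    ((cd_dS (cd_dS hf 1) 1).add (cd_dS (cd_dS hf Complex.I) Complex.I)).continuous
  have h2 : HasCompactSupport (lapS f) :=
    (hc_dS (hc_dS hc 1) 1).add (hc_dS (hc_dS hc Complex.I) Complex.I)
  have h3 : (fun t => cu (sl f t)) = fun t => -cl2 (sl (lapS f) t) := by
    funext t
    unfold cu
    rw [lap_sl hf]
  rw [h3]
  exact (sl_cont2 h1 h2).neg
theorem g4_sl_cont (hf : ContDiff ℝ ((⊤ : ℕ∞) : WithTop ℕ∞) f) (hc : HasCompactSupport f) :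
    Continuous fun t => g4 (sl f t) := by
  have h3 : (fun t => g4 (sl f t)) =
      fun t => (cl4 (sl (dS f Complex.I) t), -cl4 (sl (dS f 1) t)) := by
    funext t
    unfold g4
    rw [px_sl hf, py_sl hf]
  rw [h3]
  exact (sl_cont4 (cd_dS hf Complex.I).continuous (hc_dS hc Complex.I)).prodMk
    (sl_cont4 (cd_dS hf 1).continuous (hc_dS hc 1)).neg

end

end Pool.Agent.Lib.MP_79abb3_an.PD
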