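import Pool.Agent.Lib.MP_79abb3_an.PD.TfB

/-!
Theorem D, block A: testing with time dependent test functions.
-/

set_option autoImplicit false
set_option linter.unusedSectionVars false

open MeasureTheory Set Filter Topology Function
open scoped ENNReal InnerProductSpace ComplexConjugate

namespace Pool.Agent.Lib.MP_79abb3_an.PD

open Pool.Agent.Lib.MP_79abb3_an.SC

section
variable {D Ω Γ : Set ℂ} {T : ℝ} {u₀ : ℂ → ℂ} {L : ℝ → ℂ → ℂ} {v : ℝ → VD D} {φ : ℝ × ℂ → ℂ} {χ : ℝ × ℂ → ℝ}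

/-- The velocity of the total flow as an element of `Y2`. -/
noncomputable def Uv (Ω : Set ℂ) (L : ℝ → ℂ → ℂ) (v : ℝ → VD D) (t : ℝ) : Y2 :=
  fo Ω (L t) + ((iot D (v t) : XD D) : Y2)

theorem Tot.Uv_cont (h : Tot D Ω Γ T u₀ L v) : ContinuousOn (Uv Ω L v) (Ioc 0 T) := by
  have h1 : Continuous fun w : VD D => ((iot D w : XD D) : Y2) :=
    continuous_subtype_val.comp (iot D).continuous
  exact h.co.o.add (h1.comp_continuousOn h.cv)

private theorem tfb2_deriv {E : Type*} [NormedAddCommGroup E] [InnerProductSpace ℂ E] {a b : ℝ → E} {t : ℝ}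
    {a' : E} {c : ℂ} (ha : HasDerivAt a a' t) (hb : ContinuousAt b t)
    (hc : HasDerivAt (fun s => ⟪a t, b s⟫_ℂ) c t) :
    HasDerivAt (fun s => ⟪a s, b s⟫_ℂ) (⟪a', b t⟫_ℂ + c) t := by
  have h1 : HasDerivAt (fun s => ⟪a s - a t, b s⟫_ℂ) ⟪a', b t⟫_ℂ t := by
    rw [hasDerivAt_iff_tendsto_slope] at ha ⊢
    have h2 : Tendsto (fun s => ⟪slope a t s, b s⟫_ℂ) (𝓝[≠] t) (𝓝 ⟪a', b t⟫_ℂ) :=
      ha.inner (hb.tendsto.mono_left nhdsWithin_le_nhds)
    refine h2.congr fun s => ?_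
    rw [slope_def_module, slope_def_module, sub_self, inner_zero_left, sub_zero,
      ← Complex.coe_smul, inner_smul_left]
    simp [inner_sub_left]
  have h3 := h1.add hc
  refine h3.congr_of_eventuallyEq (Eventually.of_forall fun s => ?_)
  show ⟪a s, b s⟫_ℂ = ⟪a s - a t, b s⟫_ℂ + ⟪a t, b s⟫_ℂ
  rw [inner_sub_left]
  ring

private theorem tfb2_eval {Z : Type} [NormedAddCommGroup Z] [NormedSpace ℂ Z] :
    Continuous fun p : Yd Z × Z => p.1 p.2 := by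
  rw [continuous_iff_continuousAt]
  rintro ⟨y0, z0⟩
  have h1 : Tendsto (fun p : Yd Z × Z => ‖p.1 - y0‖ * ‖p.2‖ + ‖y0‖ * ‖p.2 - z0‖) (𝓝 (y0, z0)) (𝓝 0) := by
    have c : Continuous fun p : Yd Z × Z => ‖p.1 - y0‖ * ‖p.2‖ + ‖y0‖ * ‖p.2 - z0‖ := by fun_prop
    have := c.tendsto (y0, z0)
    simpa using this
  rw [ContinuousAt, tendsto_iff_norm_sub_tendsto_zero]
  refine squeeze_zero (fun _ => norm_nonneg _) (fun p => ?_) h1
  have e : p.1 p.2 - y0 z0 = (p.1 - y0) p.2 + y0 (p.2 - z0) := by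
    rw [map_sub, _root_.sub_apply]
    ring
  show ‖p.1 p.2 - y0 z0‖ ≤ _
  rw [e]
  exact (norm_add_le _ _).trans (add_le_add ((p.1 - y0).le_opNorm _) (y0.le_opNorm _))

private theorem tfb2_gp0 : gp (fun _ => 0) = 0 := by
  have h : Cc (fun _ : ℂ => (0:ℂ)) := ⟨contDiff_const, HasCompactSupport.zero⟩
  have := gp_cmul 0 h
  simpa using this

private theorem tfb2_cu0 : cu (fun _ => 0) = 0 := by
  have h : Cc (fun _ : ℂ => (0:ℂ)) := ⟨contDiff_const, HasCompactSupport.zero⟩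
  have := cu_cmul 0 h
  simpa using this

private theorem tfb2_g40 : g4 (fun _ => 0) = 0 := by
  have h : Cc (fun _ : ℂ => (0:ℂ)) := ⟨contDiff_const, HasCompactSupport.zero⟩
  have e1 : py (fun _ : ℂ => (0:ℂ)) = fun _ => 0 := by
    funext x; unfold py; simp
  have e2 : px (fun _ : ℂ => (0:ℂ)) = fun _ => 0 := by
    funext x; unfold px; simp
  have e3 : cl4 (fun _ : ℂ => (0:ℂ)) = 0 := by
    have := cl4_smul 0 (h.memLp 4)
    simpa using this
  unfold g4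
  rw [e1, e2, e3]
  simp

/-- **Time dependent test functions.** Proof: `g t = ⟪gp (sl χ t), U t⟫` has for `0 < t < T` the derivative
`⟪gp (sl (dT χ) t), U t⟫ + R t`, `R t` = the integrand of `WEq` with `ψ = sl χ t` (difference quotient: first factor
`gp_sl_deriv`; second: `h⁻¹ ∫_t^{t+h}` of a continuous function); `g = 0` near `0` and near `T`; the derivative is
continuous. -/
theorem Tot.tested (h : Tot D Ω Γ T u₀ L v) (hT : 0 < T) (hφ : IsTf T Ω φ) (hχ : IsChiT T Ω φ χ) :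
    ∫ t in (0:ℝ)..T, (⟪gp (sl (dT χ) t), Uv Ω L v t⟫_ℂ - ⟪cu (sl χ t), fw Ω (L t) + (v t : L2c)⟫_ℂ +
      NL (f4 Ω (L t) + jj D (v t)) (fw Ω (L t) + (v t : L2c)) (g4 (sl χ t))) = 0 := by
  -- the derivative of `g`
  have hg : ∀ t ∈ Ioo 0 T, HasDerivAt (fun s => ⟪gp (sl χ s), Uv Ω L v s⟫_ℂ)
      (⟪gp (sl (dT χ) t), Uv Ω L v t⟫_ℂ + (-⟪cu (sl χ t), fw Ω (L t) + (v t : L2c)⟫_ℂ +
      NL (f4 Ω (L t) + jj D (v t)) (fw Ω (L t) + (v t : L2c)) (g4 (sl χ t)))) t := by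
    intro t ht
    have hU : ContinuousAt (Uv Ω L v) t :=
      h.Uv_cont.continuousAt (mem_of_superset (Ioo_mem_nhds ht.1 ht.2) Ioo_subset_Ioc_self)
    refine tfb2_deriv (gp_sl_deriv hχ.smooth hχ.cpt t) hU ?_
    have ht2 : 0 < t / 2 := by linarith [ht.1]
    have hψ : sl χ t ∈ Adm Ω := hχ.adm hφ t
    have hsub : Icc (t / 2) T ⊆ Ioc 0 T := fun x hx => ⟨ht2.trans_le hx.1, hx.2⟩
    have hF := WEq.cont_rhs (D := D) (Ω := Ω) (L := L) (v := v) (a := t / 2) (b := T)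
      ⟨h.co.o.mono hsub, h.co.x.mono hsub, h.co.y.mono hsub, h.co.w.mono hsub, h.co.f.mono hsub⟩
      (h.cv.mono hsub) (sl χ t)
    have htm : t ∈ Ioo (t / 2) T := ⟨by linarith [ht.1], ht.2⟩
    have hd := intervalIntegral.integral_hasDerivAt_right (a := t / 2) (b := t)
      ((hF.mono (by
        rw [uIcc_of_le htm.1.le]
        exact Icc_subset_Icc_right ht.2.le)).intervalIntegrable)
      ((hF.mono Ioo_subset_Icc_self).stronglyMeasurableAtFilter isOpen_Ioo t htm)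
      (hF.continuousAt (Icc_mem_nhds htm.1 htm.2))
    refine (hd.const_add ⟪gp (sl χ t), Uv Ω L v (t / 2)⟫_ℂ).congr_of_eventuallyEq ?_
    filter_upwards [Ioo_mem_nhds htm.1 htm.2] with s hs
    have := h.eq (t / 2) ht2 (by linarith [ht.2, ht.1]) (sl χ t) hψ (t / 2) s le_rfl hs.1.le hs.2.le
    rw [← this]
    show ⟪gp (sl χ t), Uv Ω L v s⟫_ℂ = _
    unfold Uv
    ring
  -- a compact interval which contains the times of the support
  obtain ⟨a, b, hab, hsub⟩ := box1 (hχ.cpt.isCompact.image continuous_fst) (a := 0) (b := T)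
    (by rintro _ ⟨p, hp, rfl⟩; exact (hχ.supp hp).1)
  have hz : ∀ t, t ∉ Icc a b → ∀ x, (t, x) ∉ tsupport χ := fun t ht x hx => ht (hab ⟨(t, x), hx, rfl⟩)
  have z1 : ∀ t, t ∉ Icc a b → sl χ t = fun _ => 0 := by
    intro t ht
    funext x
    unfold sl
    rw [image_eq_zero_of_notMem_tsupport (hz t ht x)]
    simp
  have z2 : ∀ t, t ∉ Icc a b → sl (dT χ) t = fun _ => 0 := by
    intro t ht
    funext x
    unfold sl dT
    rw [fd_zero_of (hz t ht x)]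
    simp
  -- `0 < a₀ ≤ a`, `b ≤ b₀ < T`
  obtain ⟨a₀, b₀, ha0, hb0, hb1, hzz⟩ : ∃ a₀ b₀ : ℝ, 0 < a₀ ∧ a₀ ≤ b₀ ∧ b₀ < T ∧
      ∀ t, t ∉ Ioo a₀ b₀ → t ∉ Icc a b := by
    rcases le_or_gt a b with hle | hlt
    · have h1 : a ∈ Ioo 0 T := hsub ⟨le_rfl, hle⟩
      have h2 : b ∈ Ioo 0 T := hsub ⟨hle, le_rfl⟩
      refine ⟨a / 2, (b + T) / 2, by linarith [h1.1], by linarith [h1.1, h2.2], by linarith [h2.2], ?_⟩
      intro t ht htt
      refine ht ⟨by linarith [h1.1, htt.1], by linarith [h2.2, htt.2]⟩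
    · refine ⟨T / 2, T / 2, by linarith, le_rfl, by linarith, ?_⟩
      intro t _ htt
      linarith [htt.1, htt.2]
  set F : ℝ → ℂ := fun t => ⟪gp (sl (dT χ) t), Uv Ω L v t⟫_ℂ +
    (-⟪cu (sl χ t), fw Ω (L t) + (v t : L2c)⟫_ℂ +
      NL (f4 Ω (L t) + jj D (v t)) (fw Ω (L t) + (v t : L2c)) (g4 (sl χ t))) with hF
  have e0 : ∀ t, ⟪gp (sl (dT χ) t), Uv Ω L v t⟫_ℂ - ⟪cu (sl χ t), fw Ω (L t) + (v t : L2c)⟫_ℂ +
      NL (f4 Ω (L t) + jj D (v t)) (fw Ω (L t) + (v t : L2c)) (g4 (sl χ t)) = F t := by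
    intro t
    rw [hF]
    ring
  simp only [e0]
  have hF0 : ∀ t, t ∉ Ioo a₀ b₀ → F t = 0 := by
    intro t ht
    simp only [hF]
    rw [z1 t (hzz t ht), z2 t (hzz t ht), tfb2_gp0, tfb2_cu0, tfb2_g40]
    simp
  have hsub2 : Icc a₀ b₀ ⊆ Ioo 0 T := fun x hx => ⟨ha0.trans_le hx.1, hx.2.trans_lt hb1⟩
  have hsub3 : Icc a₀ b₀ ⊆ Ioc 0 T := hsub2.trans Ioo_subset_Ioc_self
  have hFc : ContinuousOn F (Icc a₀ b₀) := by
    have c1 : ContinuousOn (fun t => (fw Ω (L t) + (v t : L2c) : L2c)) (Icc a₀ b₀) :=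
      (h.co.w.mono hsub3).add (continuous_subtype_val.comp_continuousOn (h.cv.mono hsub3))
    have c2 : ContinuousOn (fun t => f4 Ω (L t) + jj D (v t)) (Icc a₀ b₀) :=
      (h.co.f.mono hsub3).add ((jj D).continuous.comp_continuousOn (h.cv.mono hsub3))
    have c3 : ContinuousOn (fun t => NL (f4 Ω (L t) + jj D (v t)) (fw Ω (L t) + (v t : L2c))) (Icc a₀ b₀) :=
      (NL.continuous.comp_continuousOn c2).clm_apply c1
    have c4 : Continuous fun p : Yd (L4c × L4c) × (L4c × L4c) => p.1 p.2 := tfb2_eval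
    refine ((gp_sl_cont (cd_dT hχ.smooth) (hc_dT hχ.cpt)).continuousOn.inner
      (h.Uv_cont.mono hsub3)).add ((((cu_sl_cont hχ.smooth hχ.cpt).continuousOn.inner c1).neg).add ?_)
    exact c4.comp_continuousOn (c3.prodMk (g4_sl_cont hχ.smooth hχ.cpt).continuousOn)
  have s1 : ∫ t in (0:ℝ)..T, F t = ∫ t in a₀..b₀, F t := by
    rw [intervalIntegral.integral_of_le hT.le, intervalIntegral.integral_of_le hb0]
    refine (setIntegral_eq_of_subset_of_forall_sdiff_eq_zero measurableSet_Ioc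
      (fun x hx => hsub3 ⟨hx.1.le, hx.2⟩) ?_)
    rintro t ⟨-, ht⟩
    exact hF0 t fun ht' => ht ⟨ht'.1, ht'.2.le⟩
  rw [s1, intervalIntegral.integral_eq_sub_of_hasDerivAt (f := fun s => ⟪gp (sl χ s), Uv Ω L v s⟫_ℂ)
    (fun t ht => hg t (hsub2 (by rwa [uIcc_of_le hb0] at ht)))
    ((hFc.mono (by rw [uIcc_of_le hb0])).intervalIntegrable)]
  have n1 : a₀ ∉ Icc a b := hzz a₀ fun h => lt_irrefl _ h.1
  have n2 : b₀ ∉ Icc a b := hzz b₀ fun h => lt_irrefl _ h.2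
  simp only [z1 _ n1, z1 _ n2, tfb2_gp0, inner_zero_left, sub_self]

end

end Pool.Agent.Lib.MP_79abb3_an.PD
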