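import Pool.Agent.Lib.MP_79abb3_an.PD.TfB2

/-!
Theorem D, block A: slices of the weak equation.
-/

set_option autoImplicit false
set_option linter.unusedSectionVars false

open MeasureTheory Set Filter Topology Function
open scoped ENNReal InnerProductSpace ComplexConjugate

namespace Pool.Agent.Lib.MP_79abb3_an.PD

open Pool.Agent.Lib.MP_79abb3_an.SC

private theorem tfB3_gp {ψ : ℂ → ℂ} (hψ : Cc ψ) (y : Y2) :
    ⟪gp ψ, y⟫_ℂ = ∫ x, (conj (py ψ x) * (y.fst : ℂ → ℂ) x -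
      conj (px ψ x) * (y.snd : ℂ → ℂ) x) := by
  have hin : ∀ {f : ℂ → ℂ}, MemLp f 2 (volume : Measure ℂ) → ∀ u : L2c,
      ⟪cl2 f, u⟫_ℂ = ∫ x, conj (f x) * (u : ℂ → ℂ) x := by
    intro f hf u
    rw [L2.inner_def]
    refine integral_congr_ae ?_
    filter_upwards [cl2_coe hf] with x hx
    rw [hx, RCLike.inner_apply, mul_comm]
  have i1 : MemLp (fun x => conj (py ψ x)) 2 (volume : Measure ℂ) := hψ.py.conj.memLp 2
  have i2 : MemLp (fun x => conj (px ψ x)) 2 (volume : Measure ℂ) := hψ.px.conj.memLp 2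
  rw [integral_sub]
  · have h3 : ⟪gp ψ, y⟫_ℂ = ⟪cl2 (py ψ), y.fst⟫_ℂ + ⟪-cl2 (px ψ), y.snd⟫_ℂ :=
      WithLp.prod_inner_apply _ _
    rw [h3, inner_neg_left, hin (hψ.py.memLp 2), hin (hψ.px.memLp 2), sub_eq_add_neg]
  · exact i1.integrable_mul (Lp.memLp y.fst)
  · exact i2.integrable_mul (Lp.memLp y.snd)

private theorem tfB3_int1 {ψ : ℂ → ℂ} (hψ : Cc ψ) (y : Y2) :
    Integrable (fun x => conj (py ψ x) * (y.fst : ℂ → ℂ) x -
      conj (px ψ x) * (y.snd : ℂ → ℂ) x) := by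
  have i1 : MemLp (fun x => conj (py ψ x)) 2 (volume : Measure ℂ) := hψ.py.conj.memLp 2
  have i2 : MemLp (fun x => conj (px ψ x)) 2 (volume : Measure ℂ) := hψ.px.conj.memLp 2
  exact (i1.integrable_mul (Lp.memLp y.fst)).sub (i2.integrable_mul (Lp.memLp y.snd))

private theorem tfB3_int2 {g : ℂ → ℂ} (h : Cc g) (u v : L2c) :
    Integrable fun x => (u : ℂ → ℂ) x * (v : ℂ → ℂ) x * g x := by
  obtain ⟨c, hc⟩ := h.smo.continuous.bounded_above_of_compact_support h.cpt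
  have h1 : MemLp (fun x => (v : ℂ → ℂ) x * g x) 2 (volume : Measure ℂ) := by
    refine MemLp.of_le_mul (c := c) (Lp.memLp v)
      ((Lp.memLp v).1.mul h.smo.continuous.aestronglyMeasurable)
      (Eventually.of_forall fun x => ?_)
    rw [norm_mul, mul_comm]
    exact mul_le_mul_of_nonneg_right (hc x) (norm_nonneg _)
  have h2 := (Lp.memLp u).integrable_mul h1
  refine h2.congr (Eventually.of_forall fun x => ?_)
  simp only [Pi.mul_apply]
  ring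

/-- the components of the derivatives of a field given by a stream function -/
private theorem tfB3_re {φ : ℝ × ℂ → ℂ} (hφ : ContDiff ℝ ((⊤ : ℕ∞) : WithTop ℕ∞) φ)
    {g : ℝ × ℂ → ℝ} (hg : ∀ p, g p = (φ p).re) (v p : ℝ × ℂ) :
    fderiv ℝ g p v = (fderiv ℝ φ p v).re := by
  have h1 : HasFDerivAt g (Complex.reCLM ∘L fderiv ℝ φ p) p := by
    have h2 := Complex.reCLM.hasFDerivAt.comp p
      (hφ.differentiable (by norm_num) p).hasFDerivAt
    have h3 : g = Complex.reCLM ∘ φ := funext hg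
    rw [h3]
    exact h2
  rw [h1.fderiv]
  rfl

private theorem tfB3_im {φ : ℝ × ℂ → ℂ} (hφ : ContDiff ℝ ((⊤ : ℕ∞) : WithTop ℕ∞) φ)
    {g : ℝ × ℂ → ℝ} (hg : ∀ p, -g p = (φ p).im) (v p : ℝ × ℂ) :
    -fderiv ℝ g p v = (fderiv ℝ φ p v).im := by
  have h1 : HasFDerivAt g (-(Complex.imCLM ∘L fderiv ℝ φ p)) p := by
    have h2 := (Complex.imCLM.hasFDerivAt.comp p
      (hφ.differentiable (by norm_num) p).hasFDerivAt).neg
    have h3 : g = -(Complex.imCLM ∘ φ) := by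
      funext q
      have h4 := hg q
      show g q = -(φ q).im
      rw [← h4, neg_neg]
    rw [h3]
    exact h2
  rw [h1.fderiv]
  show - -(fderiv ℝ φ p v).im = _
  rw [neg_neg]

private theorem tfB3_cd {φ : ℝ × ℂ → ℂ} (hφ : ContDiff ℝ ((⊤ : ℕ∞) : WithTop ℕ∞) φ) (e : ℂ) :
    ContDiff ℝ ((⊤ : ℕ∞) : WithTop ℕ∞) (dS φ e) := by
  have h1 : ContDiff ℝ ((⊤ : ℕ∞) : WithTop ℕ∞) (fderiv ℝ φ) :=
    ContDiff.fderiv_right hφ (by exact_mod_cast le_top)
  exact h1.clm_apply contDiff_const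

/-- derivatives of a test field vanish outside the domain -/
private theorem tfB3_zero {T : ℝ} {Ω : Set ℂ} {φ : ℝ × ℂ → ℂ} (hφ : IsTf T Ω φ) (t : ℝ) {x : ℂ}
    (hx : x ∉ Ω) : fderiv ℝ φ (t, x) = 0 ∧ ∀ e e' : ℂ, dS (dS φ e) e' (t, x) = 0 := by
  have h0 : (t, x) ∉ tsupport φ := fun h => hx (hφ.supp h).2
  have h1 : (t, x) ∉ tsupport (fderiv ℝ φ) := fun h => h0 (tsupport_fderiv_subset ℝ h)
  have h2 : fderiv ℝ φ =ᶠ[𝓝 (t, x)] 0 := notMem_tsupport_iff_eventuallyEq.1 h1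
  refine ⟨h2.eq_of_nhds, fun e e' => ?_⟩
  have h3 : dS φ e =ᶠ[𝓝 (t, x)] fun _ => (0 : ℂ) := by
    filter_upwards [h2] with y hy
    show fderiv ℝ φ y (0, e) = 0
    rw [hy]
    rfl
  show fderiv ℝ (dS φ e) (t, x) (0, e') = 0
  rw [h3.fderiv_eq, fderiv_fun_const]
  rfl

section
variable {D Ω Γ : Set ℂ} {T : ℝ} {u₀ : ℂ → ℂ} {L : ℝ → ℂ → ℂ} {v : ℝ → VD D} {φ : ℝ × ℂ → ℂ} {χ : ℝ × ℂ → ℝ}

/-- `-⟪curl ∇^⊥ψ, ω⟫ = ⟪∇^⊥Δψ, U⟫`. Proof: `gp_fo`, `inner_iot_gp` for `η = lap ψ`. -/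
theorem cu_eq_gp_lap (hD : Bornology.IsBounded D) (hO : IsOpen Ω) {M : ℂ → ℂ} (hM : Cc M) (w : VD D) {ψ : ℂ → ℂ}
    (hψ : ψ ∈ Adm Ω) :
    -⟪cu ψ, fw Ω M + (w : L2c)⟫_ℂ = ⟪gp (lap ψ), fo Ω M + ((iot D w : XD D) : Y2)⟫_ℂ := by
  have hψc : Cc ψ := hψ.1
  have hsup : tsupport (lap ψ) ⊆ Ω := by
    refine (closure_minimal (fun x hx => ?_) (isClosed_tsupport (fderiv ℝ ψ))).trans hψ.2
    by_contra h
    exact hx (lap_zero (⟨ψ, hψc, subset_rfl⟩ : Adm (tsupport (fderiv ℝ ψ))) h)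
  unfold cu
  rw [inner_neg_left, neg_neg, inner_add_right, inner_add_right, gp_fo hO hM hψc.lap hsup,
    inner_iot_gp hD w hψc.lap]

/-- The slices of the weak equation in terms of a representative `w` of the real field `U t` on `Ω`. Proof:
`cu_eq_gp_lap`, `NL_tensor`; `dT φ = ∇^⊥ dT χ`, `lapS φ = ∇^⊥ lapS χ`, `dS φ w = w₁ ∂₁φ + w₂ ∂₂φ`. -/
theorem slice_eq (hD : Bornology.IsBounded D) (hO : IsOpen Ω) {M : ℂ → ℂ} (hM : LF Ω Γ M) (w : VD D)
    (hw : cVD D w = w) (hφ : IsTf T Ω φ) (hχ : IsChiT T Ω φ χ) {u : ℂ → ℂ}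
    (hu1 : (fun x => ((u x).re : ℂ)) =ᵐ[volume.restrict Ω] (fo Ω M + ((iot D w : XD D) : Y2)).fst)
    (hu2 : (fun x => ((u x).im : ℂ)) =ᵐ[volume.restrict Ω] (fo Ω M + ((iot D w : XD D) : Y2)).snd) (t : ℝ) :
    ((∫ x, (⟪u x, dT φ (t, x)⟫_ℝ + ⟪u x, lapS φ (t, x)⟫_ℝ + ⟪u x, dS φ (u x) (t, x)⟫_ℝ) : ℝ) : ℂ) =
      ⟪gp (sl (dT χ) t), fo Ω M + ((iot D w : XD D) : Y2)⟫_ℂ - ⟪cu (sl χ t), fw Ω M + (w : L2c)⟫_ℂ +
      NL (f4 Ω M + jj D w) (fw Ω M + (w : L2c)) (g4 (sl χ t)) := by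
  have hψ : sl χ t ∈ Adm Ω := hχ.adm hφ t
  have hψc : Cc (sl χ t) := hψ.1
  have sχ := hχ.smooth
  have hdT : Cc (sl (dT χ) t) := sl_Cc (cd_dT sχ) (hc_dT hχ.cpt) t
  -- reality of the slices
  have rl : ∀ (g : ℝ × ℂ → ℝ) (x : ℂ), conj (sl g t x) = sl g t x := fun g x =>
    Complex.conj_ofReal _
  rw [sub_eq_add_neg, cu_eq_gp_lap hD hO hM.cc w hψ, NL_tensor hD hO hM.cc hM.dv w hψ,
    tfB3_gp hdT, tfB3_gp hψc.lap]
  set U : Y2 := fo Ω M + ((iot D w : XD D) : Y2) with hU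
  -- formulas for the derivatives of the stream function
  have px1 : px (sl χ t) = sl (dS χ 1) t := px_sl sχ t
  have py1 : py (sl χ t) = sl (dS χ Complex.I) t := py_sl sχ t
  have pxx : px (px (sl χ t)) = sl (dS (dS χ 1) 1) t := by rw [px1]; exact px_sl (cd_dS sχ 1) t
  have pyx : py (px (sl χ t)) = sl (dS (dS χ 1) Complex.I) t := by
    rw [px1]; exact py_sl (cd_dS sχ 1) t
  have pxy : px (py (sl χ t)) = sl (dS (dS χ Complex.I) 1) t := by
    rw [py1]; exact px_sl (cd_dS sχ Complex.I) t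
  have pyy : py (py (sl χ t)) = sl (dS (dS χ Complex.I) Complex.I) t := by
    rw [py1]; exact py_sl (cd_dS sχ Complex.I) t
  have slap : lap (sl χ t) = sl (lapS χ) t := lap_sl sχ t
  have cdl : ContDiff ℝ ((⊤ : ℕ∞) : WithTop ℕ∞) (lapS χ) :=
    (cd_dS (cd_dS sχ 1) 1).add (cd_dS (cd_dS sχ Complex.I) Complex.I)
  have pxl : px (lap (sl χ t)) = sl (dS (lapS χ) 1) t := by rw [slap]; exact px_sl cdl t
  have pyl : py (lap (sl χ t)) = sl (dS (lapS χ) Complex.I) t := by rw [slap]; exact py_sl cdl t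
  have pxT : px (sl (dT χ) t) = sl (dT (dS χ 1)) t := by
    rw [px_sl (cd_dT sχ), dS_dT sχ]
  have pyT : py (sl (dT χ) t) = sl (dT (dS χ Complex.I)) t := by
    rw [py_sl (cd_dT sχ), dS_dT sχ]
  -- the components of the derivatives of `φ`
  have sφ := hφ.smooth
  have e1 : ∀ p, dS χ Complex.I p = (φ p).re := fun p => (hχ.eq p).1
  have e2 : ∀ p, -dS χ 1 p = (φ p).im := fun p => (hχ.eq p).2
  have re1 : ∀ v p, fderiv ℝ (dS χ Complex.I) p v = (fderiv ℝ φ p v).re := tfB3_re sφ e1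
  have im1 : ∀ v p, -fderiv ℝ (dS χ 1) p v = (fderiv ℝ φ p v).im := tfB3_im sφ e2
  have re2 : ∀ (e : ℂ) v p, fderiv ℝ (dS (dS χ Complex.I) e) p v = (fderiv ℝ (dS φ e) p v).re :=
    fun e => tfB3_re (tfB3_cd sφ e) (fun p => re1 (0, e) p)
  have im2 : ∀ (e : ℂ) v p, -fderiv ℝ (dS (dS χ 1) e) p v = (fderiv ℝ (dS φ e) p v).im :=
    fun e => tfB3_im (tfB3_cd sφ e) (fun p => im1 (0, e) p)
  -- symmetry of the mixed derivatives
  have sxy : ∀ {g : ℝ × ℂ → ℝ}, ContDiff ℝ ((⊤ : ℕ∞) : WithTop ℕ∞) g →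
      dS (dS g 1) Complex.I = dS (dS g Complex.I) 1 := by
    intro g hg
    funext p
    have h1 : ContDiff ℝ ((⊤ : ℕ∞) : WithTop ℕ∞) (fderiv ℝ g) :=
      ContDiff.fderiv_right hg (by exact_mod_cast le_top)
    have h2 : Differentiable ℝ (fderiv ℝ g) := h1.differentiable (by norm_num)
    have hdd : ∀ v w : ℝ × ℂ, fderiv ℝ (fun p => fderiv ℝ g p v) p w =
        fderiv ℝ (fderiv ℝ g) p w v := by
      intro v w
      have h3 := (h2 p).hasFDerivAt.clm_apply (hasFDerivAt_const v p)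
      rw [h3.fderiv]
      simp
    have h3 : IsSymmSndFDerivAt ℝ g p := by
      refine ContDiffAt.isSymmSndFDerivAt (ContDiff.contDiffAt hg) ?_
      rw [minSmoothness_of_isRCLikeNormedField]
      show ((2 : ℕ∞) : WithTop ℕ∞) ≤ ((⊤ : ℕ∞) : WithTop ℕ∞)
      exact WithTop.coe_le_coe.2 le_top
    have k1 : dS (dS g 1) Complex.I p = fderiv ℝ (fderiv ℝ g) p (0, Complex.I) (0, 1) :=
      hdd (0, 1) (0, Complex.I)
    have k2 : dS (dS g Complex.I) 1 p = fderiv ℝ (fderiv ℝ g) p (0, 1) (0, Complex.I) :=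
      hdd (0, Complex.I) (0, 1)
    rw [k1, k2, h3.eq]
  have dl : ∀ (e : ℂ) p, dS (lapS χ) e p =
      dS (dS (dS χ 1) 1) e p + dS (dS (dS χ Complex.I) Complex.I) e p := by
    intro e p
    have k1 : DifferentiableAt ℝ (dS (dS χ 1) 1) p :=
      (cd_dS (cd_dS sχ 1) 1).differentiable (by norm_num) p
    have k2 : DifferentiableAt ℝ (dS (dS χ Complex.I) Complex.I) p :=
      (cd_dS (cd_dS sχ Complex.I) Complex.I).differentiable (by norm_num) p
    have k3 : lapS χ = fun p => dS (dS χ 1) 1 p + dS (dS χ Complex.I) Complex.I p := rfl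
    show fderiv ℝ (lapS χ) p (0, e) = _
    rw [k3, fderiv_fun_add k1 k2]
    rfl
  -- components of `lapS φ`
  have lre : ∀ p, dS (lapS χ) Complex.I p = (lapS φ p).re := by
    intro p
    have k1 : (lapS φ p).re = dS (dS (dS χ Complex.I) 1) 1 p +
        dS (dS (dS χ Complex.I) Complex.I) Complex.I p := by
      show (dS (dS φ 1) 1 p + dS (dS φ Complex.I) Complex.I p).re = _
      rw [Complex.add_re]
      exact (congrArg₂ (· + ·) (re2 1 (0, 1) p) (re2 Complex.I (0, Complex.I) p)).symm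
    rw [k1, dl, sxy (cd_dS sχ 1), sxy sχ]
  have lim : ∀ p, -dS (lapS χ) 1 p = (lapS φ p).im := by
    intro p
    have k1 : (lapS φ p).im = -dS (dS (dS χ 1) 1) 1 p +
        -dS (dS (dS χ 1) Complex.I) Complex.I p := by
      show (dS (dS φ 1) 1 p + dS (dS φ Complex.I) Complex.I p).im = _
      rw [Complex.add_im]
      exact (congrArg₂ (· + ·) (im2 1 (0, 1) p) (im2 Complex.I (0, Complex.I) p)).symm
    rw [k1, dl, ← sxy (cd_dS sχ Complex.I), ← sxy sχ]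
    ring
  -- the three integrands
  have hA : ∀ x, conj (py (sl (dT χ) t) x) * (U.fst : ℂ → ℂ) x -
      conj (px (sl (dT χ) t) x) * (U.snd : ℂ → ℂ) x =
      ((dT φ (t, x)).re : ℂ) * (U.fst : ℂ → ℂ) x + ((dT φ (t, x)).im : ℂ) * (U.snd : ℂ → ℂ) x := by
    intro x
    have k1 : dT (dS χ Complex.I) (t, x) = (dT φ (t, x)).re := re1 (1, 0) (t, x)
    have k2 : -dT (dS χ 1) (t, x) = (dT φ (t, x)).im := im1 (1, 0) (t, x)
    rw [pyT, pxT, rl, rl]
    unfold sl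
    rw [← k1, ← k2]
    push_cast
    ring
  have hB : ∀ x, conj (py (lap (sl χ t)) x) * (U.fst : ℂ → ℂ) x -
      conj (px (lap (sl χ t)) x) * (U.snd : ℂ → ℂ) x =
      ((lapS φ (t, x)).re : ℂ) * (U.fst : ℂ → ℂ) x +
        ((lapS φ (t, x)).im : ℂ) * (U.snd : ℂ → ℂ) x := by
    intro x
    rw [pyl, pxl, rl, rl]
    unfold sl
    rw [← lre, ← lim]
    push_cast
    ring
  have hC : ∀ x, (U.fst : ℂ → ℂ) x * (U.fst : ℂ → ℂ) x * conj (px (py (sl χ t)) x) +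
      (U.fst : ℂ → ℂ) x * (U.snd : ℂ → ℂ) x *
        conj (py (py (sl χ t)) x - px (px (sl χ t)) x) -
      (U.snd : ℂ → ℂ) x * (U.snd : ℂ → ℂ) x * conj (py (px (sl χ t)) x) =
      (U.fst : ℂ → ℂ) x * (U.fst : ℂ → ℂ) x * ((dS φ 1 (t, x)).re : ℂ) +
      (U.fst : ℂ → ℂ) x * (U.snd : ℂ → ℂ) x *
        (((dS φ Complex.I (t, x)).re : ℂ) + ((dS φ 1 (t, x)).im : ℂ)) +
      (U.snd : ℂ → ℂ) x * (U.snd : ℂ → ℂ) x * ((dS φ Complex.I (t, x)).im : ℂ) := by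
    intro x
    have k1 : dS (dS χ Complex.I) 1 (t, x) = (dS φ 1 (t, x)).re := re1 (0, 1) (t, x)
    have k2 : dS (dS χ Complex.I) Complex.I (t, x) = (dS φ Complex.I (t, x)).re :=
      re1 (0, Complex.I) (t, x)
    have k3 : -dS (dS χ 1) 1 (t, x) = (dS φ 1 (t, x)).im := im1 (0, 1) (t, x)
    have k4 : -dS (dS χ 1) Complex.I (t, x) = (dS φ Complex.I (t, x)).im :=
      im1 (0, Complex.I) (t, x)
    rw [map_sub, pxy, pyy, pxx, pyx, rl, rl, rl, rl]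
    unfold sl
    rw [← k1, ← k2, ← k3, ← k4]
    push_cast
    ring
  have c1 : Cc (fun x => conj (px (py (sl χ t)) x)) := hψc.py.px.conj
  have c2 : Cc (fun x => conj (py (py (sl χ t)) x - px (px (sl χ t)) x)) := by
    have : Cc (fun x => py (py (sl χ t)) x + -px (px (sl χ t)) x) :=
      hψc.py.py.add hψc.px.px.neg
    simpa only [sub_eq_add_neg] using this.conj
  have c3 : Cc (fun x => conj (py (px (sl χ t)) x)) := hψc.px.py.conj
  have iA := tfB3_int1 hdT U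
  have iB := tfB3_int1 hψc.lap U
  have iC : Integrable (fun x => (U.fst : ℂ → ℂ) x * (U.fst : ℂ → ℂ) x *
        conj (px (py (sl χ t)) x) +
      (U.fst : ℂ → ℂ) x * (U.snd : ℂ → ℂ) x *
        conj (py (py (sl χ t)) x - px (px (sl χ t)) x) -
      (U.snd : ℂ → ℂ) x * (U.snd : ℂ → ℂ) x * conj (py (px (sl χ t)) x)) :=
    ((tfB3_int2 c1 _ _).add (tfB3_int2 c2 _ _)).sub (tfB3_int2 c3 _ _)
  have iAB : Integrable (fun x => (conj (py (sl (dT χ) t) x) * (U.fst : ℂ → ℂ) x -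
      conj (px (sl (dT χ) t) x) * (U.snd : ℂ → ℂ) x) +
      (conj (py (lap (sl χ t)) x) * (U.fst : ℂ → ℂ) x -
      conj (px (lap (sl χ t)) x) * (U.snd : ℂ → ℂ) x)) := iA.add iB
  rw [← integral_add iA iB, ← integral_add iAB iC, ← integral_complex_ofReal]
  refine integral_congr_ae ?_
  filter_upwards [(ae_restrict_iff' hO.measurableSet).mp hu1,
    (ae_restrict_iff' hO.measurableSet).mp hu2] with x h1 h2
  rw [hA, hB, hC]
  by_cases hx : x ∈ Ω
  · have h3 : (U.fst : ℂ → ℂ) x = ((u x).re : ℂ) := (h1 hx).symm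
    have h4 : (U.snd : ℂ → ℂ) x = ((u x).im : ℂ) := (h2 hx).symm
    have h5 : dS φ (u x) (t, x) = (u x).re • dS φ 1 (t, x) + (u x).im • dS φ Complex.I (t, x) := by
      unfold dS
      rw [← map_smul, ← map_smul, ← map_add]
      congr 1
      ext1
      · simp
      · apply Complex.ext <;> simp
    rw [h3, h4, h5, Complex.inner, Complex.inner, Complex.inner]
    simp only [Complex.mul_re, Complex.conj_re, Complex.conj_im, Complex.add_re, Complex.add_im,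
      Complex.real_smul, Complex.mul_im, Complex.ofReal_re, Complex.ofReal_im]
    push_cast
    ring
  · obtain ⟨z1, z2⟩ := tfB3_zero hφ t hx
    have h3 : dT φ (t, x) = 0 := by
      show fderiv ℝ φ (t, x) (1, 0) = 0
      rw [z1]
      rfl
    have h4 : ∀ e : ℂ, dS φ e (t, x) = 0 := by
      intro e
      show fderiv ℝ φ (t, x) (0, e) = 0
      rw [z1]
      rfl
    have h5 : lapS φ (t, x) = 0 := by
      show dS (dS φ 1) 1 (t, x) + dS (dS φ Complex.I) Complex.I (t, x) = 0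
      rw [z2, z2, add_zero]
    rw [h3, h5, h4, h4, h4]
    simp

end

end Pool.Agent.Lib.MP_79abb3_an.PD
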