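import Pool.Agent.Lib.MP_79abb3_an.PD.TotA

/-!
Theorem D, block A: jointly measurable representatives, traces.
-/

set_option autoImplicit false
set_option linter.unusedSectionVars false

open MeasureTheory Set Filter Topology Function
open scoped ENNReal InnerProductSpace ComplexConjugate

namespace Pool.Agent.Lib.MP_79abb3_an.PD

open Pool.Agent.Lib.MP_79abb3_an.SC

/-- the square of the norm -/
private theorem tfD_sq (f : L2c) : ∫⁻ x, ‖(f : ℂ → ℂ) x‖ₑ ^ (2 : ℝ) = ‖f‖ₑ ^ (2 : ℝ) := by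
  rw [Lp.enorm_def, eLpNorm_eq_lintegral_rpow_enorm_toReal (by norm_num) (by norm_num)]
  simp only [ENNReal.toReal_ofNat]
  rw [← ENNReal.rpow_mul]
  norm_num

/-- fast convergence in the mean gives convergence almost everywhere -/
private theorem tfD_ae {f : ℕ → L2c} {g : L2c} (h : ∀ n, dist g (f n) < (1 / 2 : ℝ) ^ n) :
    ∀ᵐ x ∂(volume : Measure ℂ), Tendsto (fun n => (f n : ℂ → ℂ) x) atTop (𝓝 ((g : ℂ → ℂ) x)) := by
  have h1 : ∀ n, ∫⁻ x, ‖((f n - g : L2c) : ℂ → ℂ) x‖ₑ ^ (2 : ℝ) ≤ (ENNReal.ofReal (1 / 4)) ^ n := by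
    intro n
    rw [tfD_sq]
    have h2 : ‖f n - g‖ₑ ≤ ENNReal.ofReal ((1 / 2 : ℝ) ^ n) := by
      rw [← ofReal_norm]
      refine ENNReal.ofReal_le_ofReal ?_
      rw [← dist_eq_norm, dist_comm]
      exact (h n).le
    refine (ENNReal.rpow_le_rpow h2 (by norm_num)).trans (le_of_eq ?_)
    rw [ENNReal.rpow_two, ← ENNReal.ofReal_pow (by positivity), ← ENNReal.ofReal_pow (by norm_num)]
    congr 1
    rw [← pow_mul, mul_comm, pow_mul]
    norm_num
  have h3 : ∫⁻ x, ∑' n, ‖((f n - g : L2c) : ℂ → ℂ) x‖ₑ ^ (2 : ℝ) ≠ ∞ := by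
    rw [lintegral_tsum]
    · refine ne_top_of_le_ne_top ?_ (ENNReal.tsum_le_tsum h1)
      rw [ENNReal.tsum_geometric]
      refine ENNReal.inv_ne_top.2 ?_
      rw [ne_eq, tsub_eq_zero_iff_le, not_le]
      rw [ENNReal.ofReal_lt_one]
      norm_num
    · intro n
      exact ((Lp.stronglyMeasurable (f n - g)).measurable.enorm.pow_const _).aemeasurable
  have h4 := ae_lt_top' (AEMeasurable.tsum fun n =>
    ((Lp.stronglyMeasurable (f n - g)).measurable.enorm.pow_const _).aemeasurable) h3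
  have h5 : ∀ᵐ x ∂(volume : Measure ℂ), ∀ n, ((f n - g : L2c) : ℂ → ℂ) x =
      (f n : ℂ → ℂ) x - (g : ℂ → ℂ) x := by
    rw [ae_all_iff]
    intro n
    exact Lp.coeFn_sub (f n) g
  filter_upwards [h4, h5] with x hx hs
  have h6 := ENNReal.tendsto_atTop_zero_of_tsum_ne_top hx.ne
  have h7 : Tendsto (fun n => (‖((f n - g : L2c) : ℂ → ℂ) x‖ₑ ^ (2 : ℝ)) ^ (1 / 2 : ℝ)) atTop (𝓝 0) := by
    have := h6.ennrpow_const (1 / 2 : ℝ)
    rwa [ENNReal.zero_rpow_of_pos (by norm_num)] at this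
  have h8 : Tendsto (fun n => ‖(f n : ℂ → ℂ) x - (g : ℂ → ℂ) x‖ₑ) atTop (𝓝 0) := by
    refine h7.congr fun n => ?_
    rw [← ENNReal.rpow_mul, hs n]
    norm_num
  rw [tendsto_iff_edist_tendsto_0]
  simpa only [edist_eq_enorm_sub] using h8

/-- **Joint measurability.** Proof: choose `t_n(t) ∈ (0, T]` with countably many values (e.g. `min T` of the next multiple of
`2^{-m}`), such that `‖F (t_n t) - F t‖ ≤ 2^{-n}` for `t ∈ [1/n, T]` (uniform continuity on `[1/(2n), T]`). `G_n(t, x) = F(t_n t)(x)` is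
jointly strongly measurable (countable union of products) with strongly measurable representatives, and
`G_n(t, ·) → F t` almost everywhere for every `t` (Borel-Cantelli in `L²`, `∑ 2^{-n} < ∞`). `G` = the limit where it
exists, `0` elsewhere. -/
theorem exists_jm {T : ℝ} {F : ℝ → L2c} (hF : ContinuousOn F (Ioc 0 T)) : ∃ G : ℝ × ℂ → ℂ,
    StronglyMeasurable G ∧ ∀ t ∈ Ioc 0 T, (fun x => G (t, x)) =ᵐ[volume] F t := by
  classical
  have mS : MeasurableSet (Ioc 0 T) := measurableSet_Ioc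
  let F' : ℝ → L2c := (Ioc 0 T).indicator F
  have mF' : StronglyMeasurable F' := by
    have h1 : StronglyMeasurable (fun t : Ioc 0 T => F t) :=
      (continuousOn_iff_continuous_domRestrict.1 hF).stronglyMeasurable
    have h2 := (MeasurableEmbedding.subtype_coe mS).stronglyMeasurable_extend h1
      (stronglyMeasurable_const (b := (0 : L2c)))
    convert h2 using 1
    ext1 t
    by_cases ht : t ∈ Ioc 0 T
    · rw [show F' t = F t from Set.indicator_of_mem ht F]
      exact (Subtype.val_injective.extend_apply (fun t : Ioc 0 T => F t) (fun _ => (0 : L2c))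
        ⟨t, ht⟩).symm
    · rw [show F' t = 0 from Set.indicator_of_notMem ht F, Function.extend_apply']
      rintro ⟨⟨a, ha⟩, rfl⟩
      exact ht ha
  have : Fact ((2 : ℝ≥0∞) ≠ ∞) := ⟨by norm_num⟩
  have : TopologicalSpace.SeparableSpace L2c := inferInstance
  let e : ℕ → L2c := TopologicalSpace.denseSeq L2c
  have hp : ∀ (m : ℕ) (p : ℝ × ℂ), ∃ k, dist (F' p.1) (e k) < (1 / 2 : ℝ) ^ m := fun m p =>
    (TopologicalSpace.denseRange_denseSeq L2c).exists_dist_lt (F' p.1) (by positivity)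
  let Gm : ℕ → ℝ × ℂ → ℂ := fun m p => (e (Nat.find (hp m p)) : ℂ → ℂ) p.2
  have mG : ∀ m, StronglyMeasurable (Gm m) := by
    intro m
    have : Measurable (Gm m) := by
      refine Measurable.find (f := fun n (p : ℝ × ℂ) => (e n : ℂ → ℂ) p.2)
        (p := fun n (p : ℝ × ℂ) => dist (F' p.1) (e n) < (1 / 2 : ℝ) ^ m) ?_ ?_ (hp m)
      · intro n
        exact (Lp.stronglyMeasurable (e n)).measurable.comp measurable_snd
      · intro n
        have h1 : Measurable (fun t : ℝ => dist (F' t) (e n)) :=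
          (mF'.dist stronglyMeasurable_const).measurable
        exact measurableSet_lt (h1.comp measurable_fst) measurable_const
    exact this.stronglyMeasurable
  refine ⟨fun p => limUnder atTop (fun m => Gm m p), StronglyMeasurable.limUnder mG, ?_⟩
  intro t ht
  have hF't : F' t = F t := Set.indicator_of_mem ht F
  have h1 : ∀ m (x : ℂ), Nat.find (hp m (t, x)) = Nat.find (hp m (t, 0)) := fun m x => rfl
  have h2 : ∀ m, dist (F t) (e (Nat.find (hp m (t, 0)))) < (1 / 2 : ℝ) ^ m := by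
    intro m
    have h3 : ∀ y : L2c, dist (F t) y = dist (F' t) y := fun y => by rw [hF't]
    exact (h3 _).trans_lt (Nat.find_spec (hp m (t, 0)))
  filter_upwards [tfD_ae h2] with x hx
  exact hx.limUnder_eq

/-- The norm in space-time. Proof: Tonelli. -/
theorem jm_memLp {T : ℝ} {Ω : Set ℂ} {F : ℝ → L2c} {G : ℝ × ℂ → ℂ} (hG : StronglyMeasurable G)
    (h : ∀ t ∈ Ioc 0 T, (fun x => G (t, x)) =ᵐ[volume] F t) (hi : IntegrableOn (fun t => ‖F t‖ ^ 2) (Ioc 0 T)) :
    MemLp G 2 (volume.restrict (Ioo 0 T ×ˢ Ω)) := by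
  refine ⟨hG.aestronglyMeasurable, ?_⟩
  rw [eLpNorm_lt_top_iff_lintegral_rpow_enorm_lt_top (by norm_num) (by norm_num)]
  simp only [ENNReal.toReal_ofNat]
  rw [Measure.volume_eq_prod, ← Measure.prod_restrict,
    lintegral_prod _ (hG.measurable.enorm.pow_const _).aemeasurable]
  have h1 : ∫⁻ t in Ioo 0 T, ∫⁻ x in Ω, ‖G (t, x)‖ₑ ^ (2 : ℝ) ≤
      ∫⁻ t in Ioo 0 T, ‖F t‖ₑ ^ (2 : ℝ) := by
    refine setLIntegral_mono' measurableSet_Ioo fun t ht => ?_
    refine (setLIntegral_le_lintegral _ _).trans (le_of_eq ?_)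
    rw [← tfD_sq]
    refine lintegral_congr_ae ?_
    filter_upwards [h t ⟨ht.1, ht.2.le⟩] with x hx
    rw [show G (t, x) = (F t : ℂ → ℂ) x from hx]
  refine h1.trans_lt ?_
  have h2 := (hi.mono_set Ioo_subset_Ioc_self).2
  rw [HasFiniteIntegral] at h2
  refine lt_of_le_of_lt (le_of_eq ?_) h2
  refine lintegral_congr fun t => ?_
  rw [ENNReal.rpow_two, enorm_pow, enorm_norm]

end Pool.Agent.Lib.MP_79abb3_an.PD
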