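import Pool.Agent.Lib.MP_79abb3_an.PD.TotA

/-!
Theorem D, block A: zeros of smooth functions, truncation.
-/

set_option autoImplicit false
set_option linter.unusedSectionVars false

open MeasureTheory Set Filter Topology Function
open scoped ENNReal InnerProductSpace ComplexConjugate

namespace Pool.Agent.Lib.MP_79abb3_an.PD

open Pool.Agent.Lib.MP_79abb3_an.SC

/-- The zeros of a `C¹` function are almost everywhere zeros of its derivative. Proof: in each line the zeros with nonzero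
derivative in the direction of the line are isolated, so countable; Fubini; the directions `1` and `i`. -/
theorem ae_fderiv_zero {f : ℂ → ℝ} (hf : ContDiff ℝ 1 f) : ∀ᵐ x ∂volume, f x = 0 → fderiv ℝ f x = 0 := by
  have key : ∀ v : ℂ, ∀ᵐ x ∂(volume : Measure ℂ), f x = 0 → fderiv ℝ f x v = 0 := by
    intro v
    have hd : Differentiable ℝ f := hf.differentiable (by norm_num)
    have hcf : Continuous (fun x => fderiv ℝ f x v) := (hf.continuous_fderiv (by norm_num)).clm_apply continuous_const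
    have hmeas : MeasurableSet {x : ℂ | f x = 0 → fderiv ℝ f x v = 0} := by
      have h1 : MeasurableSet {x : ℂ | f x = 0} := (isClosed_eq hf.continuous continuous_const).measurableSet
      have h2 : MeasurableSet {x : ℂ | fderiv ℝ f x v = 0} := (isClosed_eq hcf continuous_const).measurableSet
      exact h1.imp h2
    let L : ℝ →ₗ[ℝ] ℂ := LinearMap.toSpanSingleton ℝ ℂ v
    refine ae_mem_of_ae_add_linearMap_mem L (volume : Measure ℝ) (volume : Measure ℂ) hmeas ?_
    intro y
    have hg : ∀ t : ℝ, HasDerivAt (fun t : ℝ => f (y + t • v)) (fderiv ℝ f (y + t • v) v) t := by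
      intro t
      have h1 : HasDerivAt (fun t : ℝ => y + t • v) v t := by
        simpa using ((hasDerivAt_id t).smul_const v).const_add y
      exact (hd (y + t • v)).hasFDerivAt.comp_hasDerivAt t h1
    have hcount : {t : ℝ | f (y + t • v) = 0 ∧ fderiv ℝ f (y + t • v) v ≠ 0}.Countable := by
      refine (countable_setOfPred_isolated_right_within (s := {t : ℝ | f (y + t • v) = 0})).mono ?_
      rintro t ⟨ht0, ht1⟩
      refine ⟨ht0, ?_⟩
      have h2 := (hg t).eventually_ne (c := 0) ht1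
      rw [← Filter.empty_mem_iff_bot]
      have h3 : ∀ᶠ z in 𝓝[{t : ℝ | f (y + t • v) = 0} ∩ Ioi t] t, f (y + z • v) ≠ 0 := by
        refine h2.filter_mono (nhdsWithin_mono t ?_)
        rintro z ⟨-, hz⟩
        exact ne_of_gt hz
      have h4 : ∀ᶠ z in 𝓝[{t : ℝ | f (y + t • v) = 0} ∩ Ioi t] t,
          z ∈ ({t : ℝ | f (y + t • v) = 0} ∩ Ioi t : Set ℝ) := eventually_mem_nhdsWithin
      filter_upwards [h3, h4] with z hz1 hz2
      exact (hz1 hz2.1).elim
    have h5 : ∀ᵐ t ∂(volume : Measure ℝ), t ∉ {t : ℝ | f (y + t • v) = 0 ∧ fderiv ℝ f (y + t • v) v ≠ 0} :=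
      measure_eq_zero_iff_ae_notMem.1 (hcount.measure_zero _)
    filter_upwards [h5] with t ht
    intro h0
    by_contra h1
    exact ht ⟨h0, h1⟩
  filter_upwards [key 1, key Complex.I] with x h1 h2 hx
  ext z
  have hz : z = (z.re : ℝ) • (1 : ℂ) + (z.im : ℝ) • Complex.I := by
    simp
  rw [hz, map_add, map_smul, map_smul, h1 hx, h2 hx]
  simp

/-- Smooth truncation: `θ ε` is smooth, vanishes on `[-ε, ε]`, `|θ s - s| ≤ 3 ε`, `|θ'| ≤ C` (`C` universal), `θ' = 1` for `|s| ≥ 2 ε`.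
Proof: `θ ε s = ε θ 1 (s/ε)`, `θ 1 s = s * η s`, `η` smooth, `0` on `[-1, 1]`, `1` for `|s| ≥ 2` (`Real.smoothTransition`). -/
theorem exists_trunc : ∃ C : ℝ, 0 ≤ C ∧ ∀ ε, 0 < ε → ∃ θ : ℝ → ℝ, ContDiff ℝ ((⊤ : ℕ∞) : WithTop ℕ∞) θ ∧
    (∀ s, |s| ≤ ε → θ s = 0) ∧ (∀ s, |θ s - s| ≤ 3 * ε) ∧ (∀ s, |deriv θ s| ≤ C) ∧
    ∀ s, 2 * ε ≤ |s| → deriv θ s = 1 ∧ θ s = s := by
  obtain ⟨φ, hφ⟩ : ∃ φ : ℝ → ℝ, φ = fun s => s * Real.smoothTransition ((s ^ 2 - 1) / 2) := ⟨_, rfl⟩
  have hsm : ContDiff ℝ ((⊤ : ℕ∞) : WithTop ℕ∞) φ := by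
    rw [hφ]
    exact contDiff_id.mul (Real.smoothTransition.contDiff.comp (((contDiff_id.pow 2).sub contDiff_const).div_const 2))
  have hin : ∀ s, |s| ≤ 1 → φ s = 0 := by
    intro s hs
    have h1 : s ^ 2 ≤ 1 := by
      have := abs_le.1 hs
      nlinarith [this.1, this.2]
    rw [hφ]
    simp only
    rw [Real.smoothTransition.zero_of_nonpos (by linarith), mul_zero]
  have hout : ∀ s, 3 ≤ s ^ 2 → φ s = s := by
    intro s hs
    rw [hφ]
    simp only
    rw [Real.smoothTransition.one_of_one_le (by linarith), mul_one]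
  have hsq : ∀ s : ℝ, 2 ≤ |s| → 3 < s ^ 2 := by
    intro s hs
    rw [← sq_abs]
    nlinarith
  have hd1 : ∀ s, 2 ≤ |s| → deriv φ s = 1 := by
    intro s hs
    have h1 : φ =ᶠ[𝓝 s] fun x => x := by
      have h2 : ∀ᶠ x in 𝓝 s, 3 < x ^ 2 := (continuous_pow 2).continuousAt.eventually (lt_mem_nhds (hsq s hs))
      filter_upwards [h2] with x hx
      exact hout x hx.le
    rw [h1.deriv_eq]
    simp
  have hdiff : Differentiable ℝ φ := hsm.differentiable (by simp)
  have hcd : Continuous (deriv φ) := hsm.continuous_deriv (by simp)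
  obtain ⟨C₁, hC₁⟩ := (isCompact_Icc (a := (-2 : ℝ)) (b := 2)).exists_bound_of_continuousOn hcd.continuousOn
  have hbd : ∀ s, |deriv φ s| ≤ max C₁ 1 := by
    intro s
    by_cases hs : 2 ≤ |s|
    · rw [hd1 s hs, abs_one]
      exact le_max_right _ _
    · have h1 := abs_lt.1 (not_le.1 hs)
      exact (hC₁ s ⟨h1.1.le, h1.2.le⟩).trans (le_max_left _ _)
  have hdist : ∀ s, |φ s - s| ≤ 3 := by
    intro s
    by_cases hs : 2 ≤ |s|
    · rw [hout s (hsq s hs).le]
      simp
    · have h0 := Real.smoothTransition.nonneg ((s ^ 2 - 1) / 2)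
      have h1 := Real.smoothTransition.le_one ((s ^ 2 - 1) / 2)
      have h2 : φ s - s = s * (Real.smoothTransition ((s ^ 2 - 1) / 2) - 1) := by
        rw [hφ]
        ring
      rw [h2, abs_mul]
      have h3 : |Real.smoothTransition ((s ^ 2 - 1) / 2) - 1| ≤ 1 := by
        rw [abs_le]
        constructor <;> linarith
      have h4 := not_le.1 hs
      have h5 := abs_nonneg s
      have h6 := abs_nonneg (Real.smoothTransition ((s ^ 2 - 1) / 2) - 1)
      nlinarith
  refine ⟨max C₁ 1, le_trans zero_le_one (le_max_right _ _), fun ε hε => ?_⟩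
  have hder : ∀ s, HasDerivAt (fun s => ε * φ (s / ε)) (deriv φ (s / ε)) s := by
    intro s
    have h1 : HasDerivAt (fun s : ℝ => s / ε) (1 / ε) s := (hasDerivAt_id s).div_const ε
    have h2 : HasDerivAt (fun s => φ (s / ε)) (deriv φ (s / ε) * (1 / ε)) s :=
      HasDerivAt.comp s (hdiff (s / ε)).hasDerivAt h1
    have h3 := h2.const_mul ε
    have h4 : ε * (deriv φ (s / ε) * (1 / ε)) = deriv φ (s / ε) := by
      rw [mul_comm (deriv φ (s / ε)), ← mul_assoc, mul_one_div_cancel hε.ne', one_mul]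
    rw [h4] at h3
    exact h3
  refine ⟨fun s => ε * φ (s / ε), contDiff_const.mul (hsm.comp (contDiff_id.div_const ε)), ?_, ?_, ?_, ?_⟩
  · intro s hs
    simp only
    rw [hin (s / ε) (by rw [abs_div, abs_of_pos hε]; exact (div_le_one hε).2 hs), mul_zero]
  · intro s
    have h1 : ε * φ (s / ε) - s = ε * (φ (s / ε) - s / ε) := by
      rw [mul_sub, mul_div_cancel₀ s hε.ne']
    simp only
    rw [h1, abs_mul, abs_of_pos hε]
    nlinarith [hdist (s / ε)]
  · intro s
    rw [(hder s).deriv]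
    exact hbd _
  · intro s hs
    have h2 : 2 ≤ |s / ε| := by
      rw [abs_div, abs_of_pos hε, le_div_iff₀ hε]
      exact hs
    refine ⟨by rw [(hder s).deriv]; exact hd1 _ h2, ?_⟩
    simp only
    rw [hout _ (hsq _ h2).le]
    exact mul_div_cancel₀ s hε.ne'

end Pool.Agent.Lib.MP_79abb3_an.PD
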