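import Pool.Agent.Lib.MP_79abb3_an.PD.TfD1

/-!
Theorem D, block A: trace zero for smooth fields.
-/

set_option autoImplicit false
set_option linter.unusedSectionVars false

open MeasureTheory Set Filter Topology Function
open scoped ENNReal InnerProductSpace ComplexConjugate

namespace Pool.Agent.Lib.MP_79abb3_an.PD

open Pool.Agent.Lib.MP_79abb3_an.SC

private lemma tfd2_dct {f : ℕ → ℂ → ℂ} {B : ℂ → ℝ} (hB : MemLp B 2 (volume : Measure ℂ))
    (hf : ∀ n, Continuous (f n)) (hb : ∀ n x, ‖f n x‖ ≤ B x)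
    (h0 : ∀ᵐ x ∂(volume : Measure ℂ), ∀ᶠ n in atTop, f n x = 0) :
    Tendsto (fun n => eLpNorm (f n) 2 (volume : Measure ℂ)) atTop (𝓝 0) := by
  have h1 : Tendsto (fun n => ∫⁻ x, ‖f n x‖ₑ ^ (2 : ℝ) ∂(volume : Measure ℂ)) atTop (𝓝 0) := by
    have h2 := tendsto_lintegral_of_dominated_convergence' (μ := (volume : Measure ℂ))
      (F := fun n x => ‖f n x‖ₑ ^ (2 : ℝ)) (f := fun _ => 0) (fun x => ‖B x‖ₑ ^ (2 : ℝ))
      (fun n => ((hf n).aestronglyMeasurable.enorm.pow_const _))
      (fun n => ae_of_all _ fun x => by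
        refine ENNReal.rpow_le_rpow ?_ (by norm_num)
        rw [enorm_le_iff_norm_le]
        exact (hb n x).trans (Real.le_norm_self _))
      (by
        have h3 := lintegral_rpow_enorm_lt_top_of_eLpNorm_lt_top (p := 2) two_ne_zero
          ENNReal.ofNat_ne_top hB.2
        simpa using h3.ne)
      (h0.mono fun x hx => by
        refine tendsto_const_nhds.congr' ?_
        filter_upwards [hx] with n hn
        simp [hn])
    simpa using h2
  have h4 : ∀ n, eLpNorm (f n) 2 (volume : Measure ℂ) =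
      (∫⁻ x, ‖f n x‖ₑ ^ (2 : ℝ) ∂(volume : Measure ℂ)) ^ (1 / 2 : ℝ) := by
    intro n
    rw [eLpNorm_eq_lintegral_rpow_enorm_toReal two_ne_zero ENNReal.ofNat_ne_top]
    simp
  simp_rw [h4]
  have h5 := (ENNReal.continuous_rpow_const (y := (1 / 2 : ℝ))).tendsto 0
  have h6 := h5.comp h1
  rw [ENNReal.zero_rpow_of_pos (by norm_num)] at h6
  exact h6

private lemma tfd2_fderiv {θ : ℝ → ℝ} (hθ : Differentiable ℝ θ) {L : ℂ → ℂ}
    (hL : Differentiable ℝ L) (x v : ℂ) :
    fderiv ℝ (fun x => ((θ (L x).re : ℝ) : ℂ) + ((θ (L x).im : ℝ) : ℂ) * Complex.I) x v =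
      ((deriv θ (L x).re * (fderiv ℝ L x v).re : ℝ) : ℂ) +
        ((deriv θ (L x).im * (fderiv ℝ L x v).im : ℝ) : ℂ) * Complex.I := by
  have hL' := (hL x).hasFDerivAt
  have h1 : HasFDerivAt (fun x => (L x).re) (Complex.reCLM.comp (fderiv ℝ L x)) x :=
    Complex.reCLM.hasFDerivAt.comp x hL'
  have h1' : HasFDerivAt (fun x => (L x).im) (Complex.imCLM.comp (fderiv ℝ L x)) x :=
    Complex.imCLM.hasFDerivAt.comp x hL'
  have h2 : HasFDerivAt (fun x => θ (L x).re)
      (deriv θ (L x).re • (Complex.reCLM.comp (fderiv ℝ L x))) x :=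
    (hθ _).hasDerivAt.comp_hasFDerivAt x h1
  have h2' : HasFDerivAt (fun x => θ (L x).im)
      (deriv θ (L x).im • (Complex.imCLM.comp (fderiv ℝ L x))) x :=
    (hθ _).hasDerivAt.comp_hasFDerivAt x h1'
  have h3 : HasFDerivAt (fun x => ((θ (L x).re : ℝ) : ℂ)) (Complex.ofRealCLM.comp
      (deriv θ (L x).re • (Complex.reCLM.comp (fderiv ℝ L x)))) x :=
    Complex.ofRealCLM.hasFDerivAt.comp x h2
  have h3' : HasFDerivAt (fun x => ((θ (L x).im : ℝ) : ℂ)) (Complex.ofRealCLM.comp
      (deriv θ (L x).im • (Complex.imCLM.comp (fderiv ℝ L x)))) x :=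
    Complex.ofRealCLM.hasFDerivAt.comp x h2'
  have h4 := (HasFDerivAt.fun_add h3 (h3'.mul_const Complex.I)).fderiv
  rw [h4]
  simp [mul_comm]

private lemma tfd2_bd {a b c d C : ℝ} (ha : |a| ≤ C) (hb : |b| ≤ C) {z : ℂ} (hc : c = z.re)
    (hd : d = z.im) :
    ‖z - (((a * c : ℝ) : ℂ) + ((b * d : ℝ) : ℂ) * Complex.I)‖ ≤ 2 * (1 + C) * ‖z‖ := by
  subst hc hd
  have h0 : z - (((a * z.re : ℝ) : ℂ) + ((b * z.im : ℝ) : ℂ) * Complex.I) =
      (((1 - a) * z.re : ℝ) : ℂ) + (((1 - b) * z.im : ℝ) : ℂ) * Complex.I := by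
    apply Complex.ext <;> simp <;> ring
  rw [h0]
  refine (norm_add_le _ _).trans ?_
  rw [norm_mul, Complex.norm_I, mul_one, Complex.norm_real, Complex.norm_real, norm_mul, norm_mul]
  have h1 : ‖z.re‖ ≤ ‖z‖ := Complex.abs_re_le_norm z
  have h2 : ‖z.im‖ ≤ ‖z‖ := Complex.abs_im_le_norm z
  have h3 : ‖1 - a‖ ≤ 1 + C := by
    refine (norm_sub_le _ _).trans ?_
    rw [norm_one]
    exact add_le_add_right ha 1
  have h4 : ‖1 - b‖ ≤ 1 + C := by
    refine (norm_sub_le _ _).trans ?_
    rw [norm_one]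
    exact add_le_add_right hb 1
  have h5 : 0 ≤ 1 + C := (norm_nonneg _).trans h3
  have h6 : ‖1 - a‖ * ‖z.re‖ ≤ (1 + C) * ‖z‖ := mul_le_mul h3 h1 (norm_nonneg _) h5
  have h7 : ‖1 - b‖ * ‖z.im‖ ≤ (1 + C) * ‖z‖ := mul_le_mul h4 h2 (norm_nonneg _) h5
  linarith

/-- **Trace zero for smooth fields.** Proof: `φ_ε = θ_ε(L₁) + i θ_ε(L₂)` (`exists_trunc`) is smooth with compact support, its support
is in `{|L₁| ≥ ε or |L₂| ≥ ε}` (closed, disjoint from `W`); `φ_ε → L` uniformly with supports in `tsupport L`; the derivatives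
are bounded and converge almost everywhere (`ae_fderiv_zero`: where `L₁ = 0` also `dL₁ = 0`); dominated convergence. -/
theorem isH0_L (Ω : Set ℂ) {W : Set ℂ} {L : ℂ → ℂ} (hL : Cc L) (hW : ∀ x ∈ W, L x = 0) :
    IsH0 Ω W L (fun x => fderiv ℝ L x 1) (fun x => fderiv ℝ L x Complex.I) := by
  intro ε hε
  obtain ⟨C, hC, htr⟩ := exists_trunc
  choose! θ hθ using htr
  set e : ℕ → ℝ := fun n => 1 / ((n : ℝ) + 1) with he
  have he0 : ∀ n, 0 < e n := fun n => Nat.one_div_pos_of_nat
  have helim : Tendsto e atTop (𝓝 0) := tendsto_one_div_add_atTop_nhds_zero_nat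
  have hsm : ∀ n, ContDiff ℝ ((⊤ : ℕ∞) : WithTop ℕ∞) (θ (e n)) := fun n => (hθ _ (he0 n)).1
  have hdiff : ∀ n, Differentiable ℝ (θ (e n)) := fun n => (hsm n).differentiable (by simp)
  have hzero : ∀ n, θ (e n) 0 = 0 := fun n => (hθ _ (he0 n)).2.1 0 (by simpa using (he0 n).le)
  have hder : ∀ n s, |deriv (θ (e n)) s| ≤ C := fun n => (hθ _ (he0 n)).2.2.2.1
  have hid : ∀ s : ℝ, s ≠ 0 → ∀ᶠ n in atTop, deriv (θ (e n)) s = 1 ∧ θ (e n) s = s := by
    intro s hs
    have h1 : ∀ᶠ n in atTop, e n < |s| / 2 := helim.eventually_lt_const (by positivity)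
    filter_upwards [h1] with n hn
    exact (hθ _ (he0 n)).2.2.2.2 s (by linarith)
  have hlip : ∀ n s, |θ (e n) s| ≤ C * |s| := by
    intro n s
    have h1 := Convex.norm_image_sub_le_of_norm_deriv_le (𝕜 := ℝ) (f := θ (e n)) (C := C)
      (s := Set.univ) (x := 0) (y := s) (fun x _ => hdiff n x) (fun x _ => hder n x)
      convex_univ (Set.mem_univ _) (Set.mem_univ _)
    rw [hzero, sub_zero, sub_zero] at h1
    exact h1
  have hLd : Differentiable ℝ L := hL.smo.differentiable
  set φ : ℕ → ℂ → ℂ := fun n x =>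
    ((θ (e n) (L x).re : ℝ) : ℂ) + ((θ (e n) (L x).im : ℝ) : ℂ) * Complex.I with hφ
  have hφs : ∀ n, ContDiff ℝ ((⊤ : ℕ∞) : WithTop ℕ∞) (φ n) := by
    intro n
    have h1 : ContDiff ℝ ((⊤ : ℕ∞) : WithTop ℕ∞) (fun x => (L x).re) :=
      Complex.reCLM.contDiff.comp hL.smo
    have h2 : ContDiff ℝ ((⊤ : ℕ∞) : WithTop ℕ∞) (fun x => (L x).im) :=
      Complex.imCLM.contDiff.comp hL.smo
    have h3 : ContDiff ℝ ((⊤ : ℕ∞) : WithTop ℕ∞) (fun x => ((θ (e n) (L x).re : ℝ) : ℂ)) :=
      Complex.ofRealCLM.contDiff.comp ((hsm n).comp h1)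
    have h4 : ContDiff ℝ ((⊤ : ℕ∞) : WithTop ℕ∞) (fun x => ((θ (e n) (L x).im : ℝ) : ℂ)) :=
      Complex.ofRealCLM.contDiff.comp ((hsm n).comp h2)
    exact h3.add (h4.mul contDiff_const)
  have hφ0 : ∀ n x, L x = 0 → φ n x = 0 := by
    intro n x hx
    simp [hφ, hx, hzero]
  have hφc : ∀ n, HasCompactSupport (φ n) := by
    intro n
    refine hL.cpt.mono ?_
    intro x hx
    rw [Function.mem_support] at hx ⊢
    exact fun h => hx (hφ0 n x h)
  have hφW : ∀ n, Disjoint (tsupport (φ n)) W := by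
    intro n
    have hK : tsupport (φ n) ⊆ {x | e n ≤ |(L x).re| ∨ e n ≤ |(L x).im|} := by
      refine closure_minimal ?_ ?_
      · intro x hx
        by_contra hcon
        simp only [Set.mem_ofPred_eq, not_or, not_le] at hcon
        apply hx
        simp only [hφ]
        rw [(hθ _ (he0 n)).2.1 _ hcon.1.le, (hθ _ (he0 n)).2.1 _ hcon.2.le]
        simp
      · have c1 : Continuous fun x => |(L x).re| :=
          (Complex.continuous_re.comp hL.smo.continuous).abs
        have c2 : Continuous fun x => |(L x).im| :=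
          (Complex.continuous_im.comp hL.smo.continuous).abs
        exact (isClosed_le continuous_const c1).union (isClosed_le continuous_const c2)
    rw [Set.disjoint_left]
    intro x hx hxW
    have h1 := hK hx
    simp only [Set.mem_ofPred_eq, hW x hxW, Complex.zero_re, Complex.zero_im, abs_zero] at h1
    have := he0 n
    rcases h1 with h1 | h1 <;> linarith
  have hae1 := ae_fderiv_zero (f := fun x => (L x).re)
    ((Complex.reCLM.contDiff.comp hL.smo).of_le (by simp))
  have hae2 := ae_fderiv_zero (f := fun x => (L x).im)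
    ((Complex.imCLM.contDiff.comp hL.smo).of_le (by simp))
  have hder0 : ∀ v : ℂ, Tendsto (fun n => eLpNorm (fun x => fderiv ℝ L x v - fderiv ℝ (φ n) x v) 2
      (volume : Measure ℂ)) atTop (𝓝 0) := by
    intro v
    have hmem : MemLp (fun x => fderiv ℝ L x v) 2 (volume : Measure ℂ) :=
      (Continuous.memLp_of_hasCompactSupport (hL.smo.dir v).continuous (hL.cpt.fderiv_apply ℝ v))
    refine tfd2_dct (B := fun x => 2 * (1 + C) * ‖fderiv ℝ L x v‖) (hmem.norm.const_mul _) ?_ ?_ ?_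
    · intro n
      exact (hL.smo.dir v).continuous.sub (Smo.dir (f := φ n) (hφs n) v).continuous
    · intro n x
      rw [tfd2_fderiv (hdiff n) hLd]
      exact tfd2_bd (hder n _) (hder n _) rfl rfl
    · filter_upwards [hae1, hae2] with x hx1 hx2
      have hL' := (hLd x).hasFDerivAt
      have e1 : (L x).re = 0 → (fderiv ℝ L x v).re = 0 := by
        intro h
        have h1 : HasFDerivAt (fun x => (L x).re) (Complex.reCLM.comp (fderiv ℝ L x)) x :=
          Complex.reCLM.hasFDerivAt.comp x hL'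
        have h2 := hx1 h
        rw [h1.fderiv] at h2
        exact congrArg (fun A : ℂ →L[ℝ] ℝ => A v) h2
      have e2 : (L x).im = 0 → (fderiv ℝ L x v).im = 0 := by
        intro h
        have h1 : HasFDerivAt (fun x => (L x).im) (Complex.imCLM.comp (fderiv ℝ L x)) x :=
          Complex.imCLM.hasFDerivAt.comp x hL'
        have h2 := hx2 h
        rw [h1.fderiv] at h2
        exact congrArg (fun A : ℂ →L[ℝ] ℝ => A v) h2
      have f1 : ∀ᶠ n in atTop, deriv (θ (e n)) (L x).re * (fderiv ℝ L x v).re =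
          (fderiv ℝ L x v).re := by
        by_cases h : (L x).re = 0
        · exact Filter.Eventually.of_forall fun n => by rw [e1 h, mul_zero]
        · filter_upwards [hid _ h] with n hn
          rw [hn.1, one_mul]
      have f2 : ∀ᶠ n in atTop, deriv (θ (e n)) (L x).im * (fderiv ℝ L x v).im =
          (fderiv ℝ L x v).im := by
        by_cases h : (L x).im = 0
        · exact Filter.Eventually.of_forall fun n => by rw [e2 h, mul_zero]
        · filter_upwards [hid _ h] with n hn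
          rw [hn.1, one_mul]
      filter_upwards [f1, f2] with n h1 h2
      rw [tfd2_fderiv (hdiff n) hLd, h1, h2, Complex.re_add_im, sub_self]
  have hfun0 : Tendsto (fun n => eLpNorm (fun x => L x - φ n x) 2 (volume : Measure ℂ)) atTop
      (𝓝 0) := by
    have hmem : MemLp L 2 (volume : Measure ℂ) := hL.memLp 2
    refine tfd2_dct (B := fun x => 2 * (1 + C) * ‖L x‖) (hmem.norm.const_mul _) ?_ ?_ ?_
    · intro n
      exact hL.smo.continuous.sub (hφs n).continuous
    · intro n x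
      have hq : ∀ s : ℝ, ∃ a : ℝ, |a| ≤ C ∧ θ (e n) s = a * s := by
        intro s
        by_cases h : s = 0
        · exact ⟨0, by simpa using hC, by rw [h, hzero, mul_zero]⟩
        · refine ⟨θ (e n) s / s, ?_, by field_simp⟩
          rw [abs_div, div_le_iff₀ (abs_pos.2 h)]
          exact hlip n s
      obtain ⟨a, ha, ha'⟩ := hq (L x).re
      obtain ⟨b, hb, hb'⟩ := hq (L x).im
      simp only [hφ]
      rw [ha', hb']
      exact tfd2_bd ha hb rfl rfl
    · refine ae_of_all _ fun x => ?_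
      have f1 : ∀ᶠ n in atTop, θ (e n) (L x).re = (L x).re := by
        by_cases h : (L x).re = 0
        · exact Filter.Eventually.of_forall fun n => by rw [h, hzero]
        · filter_upwards [hid _ h] with n hn
          exact hn.2
      have f2 : ∀ᶠ n in atTop, θ (e n) (L x).im = (L x).im := by
        by_cases h : (L x).im = 0
        · exact Filter.Eventually.of_forall fun n => by rw [h, hzero]
        · filter_upwards [hid _ h] with n hn
          exact hn.2
      filter_upwards [f1, f2] with n h1 h2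
      simp only [hφ]
      rw [h1, h2, Complex.re_add_im, sub_self]
  have k1 := ENNReal.tendsto_nhds_zero.1 hfun0 ε hε
  have k2 := ENNReal.tendsto_nhds_zero.1 (hder0 1) ε hε
  have k3 := ENNReal.tendsto_nhds_zero.1 (hder0 Complex.I) ε hε
  obtain ⟨n, hn1, hn2, hn3⟩ := (k1.and (k2.and k3)).exists
  refine ⟨φ n, hφs n, hφc n, hφW n, ?_, ?_, ?_⟩
  · exact (eLpNorm_mono_measure _ Measure.restrict_le_self).trans hn1
  · exact (eLpNorm_mono_measure _ Measure.restrict_le_self).trans hn2
  · exact (eLpNorm_mono_measure _ Measure.restrict_le_self).trans hn3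

end Pool.Agent.Lib.MP_79abb3_an.PD
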