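import Pool.Agent.Lib.MP_79abb3_an.PD.TfD2
import Pool.Agent.Lib.MP_79abb3_an.PD.TfD

/-!
Theorem D, block A: trace zero for velocities of `V(D)`, representatives.
-/

set_option autoImplicit false
set_option linter.unusedSectionVars false

open MeasureTheory Set Filter Topology Function
open scoped ENNReal InnerProductSpace ComplexConjugate

namespace Pool.Agent.Lib.MP_79abb3_an.PD

open Pool.Agent.Lib.MP_79abb3_an.SC

theorem IsH0.add {Ω W : Set ℂ} {u g h u' g' h' : ℂ → ℂ} (h1 : IsH0 Ω W u g h) (h2 : IsH0 Ω W u' g' h')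
    (m : AEStronglyMeasurable u (volume.restrict Ω) ∧ AEStronglyMeasurable g (volume.restrict Ω) ∧
      AEStronglyMeasurable h (volume.restrict Ω) ∧ AEStronglyMeasurable u' (volume.restrict Ω) ∧
      AEStronglyMeasurable g' (volume.restrict Ω) ∧ AEStronglyMeasurable h' (volume.restrict Ω)) :
    IsH0 Ω W (fun x => u x + u' x) (fun x => g x + g' x) (fun x => h x + h' x) := by
  intro ε hε
  have hε2 : 0 < ε / 2 := ENNReal.half_pos hε.ne'
  obtain ⟨φ, c1, s1, d1, n1, n2, n3⟩ := h1 (ε / 2) hε2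
  obtain ⟨φ', c1', s1', d1', n1', n2', n3'⟩ := h2 (ε / 2) hε2
  obtain ⟨mu, mg, mh, mu', mg', mh'⟩ := m
  have hd : Differentiable ℝ φ := c1.differentiable (by norm_num)
  have hd' : Differentiable ℝ φ' := c1'.differentiable (by norm_num)
  have hfc : Continuous (fderiv ℝ φ) := c1.continuous_fderiv (by norm_num)
  have hfc' : Continuous (fderiv ℝ φ') := c1'.continuous_fderiv (by norm_num)
  have hf : ∀ x e, fderiv ℝ (fun x => φ x + φ' x) x e = fderiv ℝ φ x e + fderiv ℝ φ' x e := by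
    intro x e
    rw [fderiv_fun_add (hd x) (hd' x)]
    rfl
  have key : ∀ {a b a' b' : ℂ → ℂ}, AEStronglyMeasurable a (volume.restrict Ω) →
      AEStronglyMeasurable a' (volume.restrict Ω) → Continuous b → Continuous b' →
      eLpNorm (fun x => a x - b x) 2 (volume.restrict Ω) ≤ ε / 2 →
      eLpNorm (fun x => a' x - b' x) 2 (volume.restrict Ω) ≤ ε / 2 →
      eLpNorm (fun x => (a x + a' x) - (b x + b' x)) 2 (volume.restrict Ω) ≤ ε := by
    intro a b a' b' ma ma' cb cb' k1 k2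
    have e1 : (fun x => (a x + a' x) - (b x + b' x)) =
        (fun x => a x - b x) + fun x => a' x - b' x := by
      funext x
      simp only [Pi.add_apply]
      ring
    rw [e1]
    refine (eLpNorm_add_le (ma.sub cb.aestronglyMeasurable) (ma'.sub cb'.aestronglyMeasurable)
      (by norm_num)).trans ?_
    refine (add_le_add k1 k2).trans ?_
    rw [ENNReal.add_halves]
  refine ⟨fun x => φ x + φ' x, c1.add c1', s1.add s1', ?_, ?_, ?_, ?_⟩
  · exact Disjoint.mono_left (tsupport_add φ φ') (d1.union_left d1')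
  · exact key mu mu' c1.continuous c1'.continuous n1 n1'
  · simp only [hf]
    exact key mg mg' (hfc.clm_apply continuous_const) (hfc'.clm_apply continuous_const) n2 n2'
  · simp only [hf]
    exact key mh mh' (hfc.clm_apply continuous_const) (hfc'.clm_apply continuous_const) n3 n3'

theorem IsH0.congr {Ω W : Set ℂ} {u g h u' g' h' : ℂ → ℂ} (h1 : IsH0 Ω W u g h)
    (hu : u =ᵐ[volume.restrict Ω] u') (hg : g =ᵐ[volume.restrict Ω] g') (hh : h =ᵐ[volume.restrict Ω] h') :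
    IsH0 Ω W u' g' h' := by
  intro ε hε
  obtain ⟨φ, c1, s1, d1, n1, n2, n3⟩ := h1 ε hε
  refine ⟨φ, c1, s1, d1, ?_, ?_, ?_⟩
  · exact (eLpNorm_congr_ae (hu.sub (ae_eq_refl φ))).symm.le.trans n1
  · exact (eLpNorm_congr_ae (hg.sub (ae_eq_refl fun x => fderiv ℝ φ x 1))).symm.le.trans n2
  · exact (eLpNorm_congr_ae (hh.sub (ae_eq_refl fun x => fderiv ℝ φ x Complex.I))).symm.le.trans n3

/-- The real field with components `Re U₁`, `Re U₂`. -/
noncomputable def rf (U : Y2) (x : ℂ) : ℂ := ((((U.fst : ℂ → ℂ) x).re : ℝ) : ℂ) + Complex.I * ((((U.snd : ℂ → ℂ) x).re : ℝ) : ℂ)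

private theorem tf3_add (U U' : Y2) : rf (U + U') =ᵐ[volume] fun x => rf U x + rf U' x := by
  have h1 : ((U + U').fst : ℂ → ℂ) =ᵐ[volume] (U.fst : ℂ → ℂ) + (U'.fst : ℂ → ℂ) :=
    Lp.coeFn_add U.fst U'.fst
  have h2 : ((U + U').snd : ℂ → ℂ) =ᵐ[volume] (U.snd : ℂ → ℂ) + (U'.snd : ℂ → ℂ) :=
    Lp.coeFn_add U.snd U'.snd
  filter_upwards [h1, h2] with x hx1 hx2
  unfold rf
  rw [hx1, hx2, Pi.add_apply, Pi.add_apply, Complex.add_re, Complex.add_re]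
  push_cast
  ring

private theorem tf3_sub (U U' : Y2) : rf (U - U') =ᵐ[volume] fun x => rf U x - rf U' x := by
  have h1 : ((U - U').fst : ℂ → ℂ) =ᵐ[volume] (U.fst : ℂ → ℂ) - (U'.fst : ℂ → ℂ) :=
    Lp.coeFn_sub U.fst U'.fst
  have h2 : ((U - U').snd : ℂ → ℂ) =ᵐ[volume] (U.snd : ℂ → ℂ) - (U'.snd : ℂ → ℂ) :=
    Lp.coeFn_sub U.snd U'.snd
  filter_upwards [h1, h2] with x hx1 hx2
  unfold rf
  rw [hx1, hx2, Pi.sub_apply, Pi.sub_apply, Complex.sub_re, Complex.sub_re]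
  push_cast
  ring

private theorem tf3_nsq (f : L2c) : ‖f‖ ^ 2 = ∫ x, ‖(f : ℂ → ℂ) x‖ ^ 2 := by
  have h1 : ⟪f, f⟫_ℂ = ∫ x, ((‖(f : ℂ → ℂ) x‖ ^ 2 : ℝ) : ℂ) := by
    rw [L2.inner_def]
    refine integral_congr_ae (Eventually.of_forall fun x => ?_)
    simp only
    rw [inner_self_eq_norm_sq_to_K]
    push_cast
    rfl
  rw [inner_self_eq_norm_sq_to_K, integral_complex_ofReal] at h1
  have h3 : ((‖f‖ ^ 2 : ℝ) : ℂ) = ((∫ x, ‖(f : ℂ → ℂ) x‖ ^ 2 : ℝ) : ℂ) := by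
    rw [← h1]
    push_cast
    rfl
  exact_mod_cast h3

private theorem tf3_pt (a b : ℂ) : ‖((a.re : ℝ) : ℂ) + Complex.I * ((b.re : ℝ) : ℂ)‖ ^ 2 ≤
    ‖a‖ ^ 2 + ‖b‖ ^ 2 := by
  rw [← Complex.normSq_eq_norm_sq, ← Complex.normSq_eq_norm_sq, ← Complex.normSq_eq_norm_sq]
  simp only [Complex.normSq_apply, Complex.add_re, Complex.add_im, Complex.ofReal_re,
    Complex.ofReal_im, Complex.mul_re, Complex.mul_im, Complex.I_re, Complex.I_im]
  nlinarith [sq_nonneg a.im, sq_nonneg b.im]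

private theorem tf3_memLp (U : Y2) : MemLp (rf U) 2 (volume : Measure ℂ) := by
  have h1 : MemLp (fun x => ((((U.fst : ℂ → ℂ) x).re : ℝ) : ℂ)) 2 (volume : Measure ℂ) :=
    (Lp.memLp U.fst).re.ofReal
  have h2 : MemLp (fun x => ((((U.snd : ℂ → ℂ) x).re : ℝ) : ℂ)) 2 (volume : Measure ℂ) :=
    (Lp.memLp U.snd).re.ofReal
  exact h1.add (h2.const_mul Complex.I)

private theorem tf3_norm (U : Y2) (Ω : Set ℂ) :
    eLpNorm (rf U) 2 (volume.restrict Ω) ≤ ENNReal.ofReal ‖U‖ := by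
  have hm := tf3_memLp U
  refine (eLpNorm_mono_measure (rf U) Measure.restrict_le_self).trans ?_
  have h1 : ‖hm.toLp (rf U)‖ ^ 2 ≤ ‖U‖ ^ 2 := by
    rw [tf3_nsq, WithLp.prod_norm_sq_eq_of_L2]
    have e1 : ∫ x, ‖(hm.toLp (rf U) : ℂ → ℂ) x‖ ^ 2 = ∫ x, ‖rf U x‖ ^ 2 := by
      refine integral_congr_ae ?_
      filter_upwards [hm.coeFn_toLp] with x hx
      rw [hx]
    have i1 : Integrable fun x => ‖(U.fst : ℂ → ℂ) x‖ ^ 2 := (Lp.memLp U.fst).integrable_norm_pow (by norm_num)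
    have i2 : Integrable fun x => ‖(U.snd : ℂ → ℂ) x‖ ^ 2 := (Lp.memLp U.snd).integrable_norm_pow (by norm_num)
    have i3 : Integrable fun x => ‖rf U x‖ ^ 2 := hm.integrable_norm_pow (by norm_num)
    rw [e1]
    have e2 : ‖U.fst‖ ^ 2 + ‖U.snd‖ ^ 2 =
        ∫ x, (‖(U.fst : ℂ → ℂ) x‖ ^ 2 + ‖(U.snd : ℂ → ℂ) x‖ ^ 2) := by
      rw [tf3_nsq, tf3_nsq, integral_add i1 i2]
    refine le_trans ?_ e2.symm.le
    exact integral_mono i3 (i1.add i2) fun x => tf3_pt _ _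
  have h2 : ‖hm.toLp (rf U)‖ ≤ ‖U‖ := by
    exact le_of_sq_le_sq h1 (norm_nonneg _)
  rw [Lp.norm_toLp] at h2
  rw [← ENNReal.ofReal_toReal hm.eLpNorm_ne_top]
  exact ENNReal.ofReal_le_ofReal h2

private theorem tf3_dist (U U' : Y2) (Ω : Set ℂ) {f : ℂ → ℂ} (hf : rf U' =ᵐ[volume] f)
    {ε : ℝ≥0∞} (h : ENNReal.ofReal ‖U - U'‖ ≤ ε) :
    eLpNorm (fun x => rf U x - f x) 2 (volume.restrict Ω) ≤ ε := by
  refine le_trans (le_of_eq ?_) ((tf3_norm (U - U') Ω).trans h)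
  refine eLpNorm_congr_ae (ae_restrict_of_ae ?_)
  filter_upwards [tf3_sub U U', hf] with x h1 h2
  rw [h1, h2]

private theorem tf3_toLp {f g : ℂ → ℂ} (hf : MemLp f 2 (volume : Measure ℂ))
    (hg : MemLp g 2 (volume : Measure ℂ)) : rf (WithLp.toLp 2 (cl2 f, -cl2 g)) =ᵐ[volume]
      fun x => (((f x).re : ℝ) : ℂ) + Complex.I * (-((((g x).re : ℝ)) : ℂ)) := by
  filter_upwards [cl2_coe hf, cl2_coe hg, Lp.coeFn_neg (cl2 g)] with x h1 h2 h3
  show ((((cl2 f : ℂ → ℂ) x).re : ℝ) : ℂ) + Complex.I * ((((-cl2 g : L2c) : ℂ → ℂ) x).re : ℂ) = _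
  rw [h3, Pi.neg_apply, h1, h2, Complex.neg_re]
  push_cast
  rfl

/-- **Trace zero for velocities of `V(D)`.** Proof: `v = lim cuV ψ_n`; `φ = rf (gp ψ_n)`, i.e. `Re ∂₂ψ_n - i Re ∂₁ψ_n`, is smooth with
compact support in `D`, which is disjoint from `W ⊆ frontier D` (`D` open). -/
theorem isH0_v {D Ω W : Set ℂ} (hD : Bornology.IsBounded D) (hO : IsOpen D) (hW : W ⊆ frontier D) (v : VD D) :
    IsH0 Ω W (rf ((iot D v : XD D) : Y2)) (rf (dxV hD v)) (rf (dyV hD v)) := by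
  intro ε hε
  obtain ⟨δ, hδ, hδε⟩ : ∃ δ : ℝ, 0 < δ ∧ ENNReal.ofReal δ ≤ ε := by
    rcases eq_or_ne ε ⊤ with h | h
    · exact ⟨1, one_pos, by rw [h]; exact le_top⟩
    · exact ⟨ε.toReal, ENNReal.toReal_pos hε.ne' h, by rw [ENNReal.ofReal_toReal h]⟩
  have hc1 : Continuous fun w : VD D => ‖((iot D v : XD D) : Y2) - ((iot D w : XD D) : Y2)‖ :=
    (continuous_const.sub (continuous_subtype_val.comp (iot D).continuous)).norm
  have hc2 : Continuous fun w : VD D => ‖dxV hD v - dxV hD w‖ :=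
    (continuous_const.sub (dxV hD).continuous).norm
  have hc3 : Continuous fun w : VD D => ‖dyV hD v - dyV hD w‖ :=
    (continuous_const.sub (dyV hD).continuous).norm
  have hop : IsOpen {w : VD D | ‖((iot D v : XD D) : Y2) - ((iot D w : XD D) : Y2)‖ < δ ∧
      ‖dxV hD v - dxV hD w‖ < δ ∧ ‖dyV hD v - dyV hD w‖ < δ} :=
    (isOpen_lt hc1 continuous_const).inter ((isOpen_lt hc2 continuous_const).inter
      (isOpen_lt hc3 continuous_const))
  obtain ⟨ψ, k1, k2, k3⟩ := (cuV_dense D).exists_mem_open hop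
    ⟨v, by simpa using hδ, by simpa using hδ, by simpa using hδ⟩
  have hcc := Adm.cc ψ
  set φ : ℂ → ℂ := fun x => l1 (py (ψ : ℂ → ℂ)) x + Complex.I * (-l1 (px (ψ : ℂ → ℂ)) x) with hφ
  have hφc : Cc φ := hcc.py.l1.add ((hcc.px.l1.neg).cmul Complex.I)
  have hsup : tsupport φ ⊆ tsupport (fderiv ℝ (ψ : ℂ → ℂ)) := by
    refine closure_mono fun x hx => ?_
    rw [mem_support] at hx ⊢
    intro h0
    apply hx
    simp [hφ, l1, px, py, h0]
  have hpx : ∀ x, fderiv ℝ φ x 1 = ((((px (py (ψ : ℂ → ℂ)) x)).re : ℝ) : ℂ) +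
      Complex.I * (-(((px (px (ψ : ℂ → ℂ)) x).re : ℝ) : ℂ)) := by
    intro x
    have e1 : fderiv ℝ φ x 1 = px φ x := rfl
    rw [e1, hφ, px_add hcc.py.l1.smo ((hcc.px.l1.neg).cmul Complex.I).smo,
      px_cmul Complex.I hcc.px.l1.neg.smo, px_l1 hcc.py.smo]
    have e2 : px (fun x => -l1 (px (ψ : ℂ → ℂ)) x) x = -px (l1 (px (ψ : ℂ → ℂ))) x := by
      conv_lhs => unfold px
      rw [fderiv_fun_neg]
      rfl
    rw [e2, px_l1 hcc.px.smo]
    rfl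
  have hpy : ∀ x, fderiv ℝ φ x Complex.I = ((((py (py (ψ : ℂ → ℂ)) x)).re : ℝ) : ℂ) +
      Complex.I * (-(((py (px (ψ : ℂ → ℂ)) x).re : ℝ) : ℂ)) := by
    intro x
    have e1 : fderiv ℝ φ x Complex.I = py φ x := rfl
    rw [e1, hφ, py_add hcc.py.l1.smo ((hcc.px.l1.neg).cmul Complex.I).smo,
      py_cmul Complex.I hcc.px.l1.neg.smo, py_l1 hcc.py.smo]
    have e2 : py (fun x => -l1 (px (ψ : ℂ → ℂ)) x) x = -py (l1 (px (ψ : ℂ → ℂ))) x := by
      conv_lhs => unfold py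
      rw [fderiv_fun_neg]
      rfl
    rw [e2, py_l1 hcc.px.smo]
    rfl
  have q1 : rf ((iot D (cuV D ψ) : XD D) : Y2) =ᵐ[volume] φ := by
    rw [iot_cuV hD, gpX_coe]
    exact tf3_toLp (hcc.py.memLp 2) (hcc.px.memLp 2)
  have q2 : rf (dxV hD (cuV D ψ)) =ᵐ[volume] fun x => fderiv ℝ φ x 1 := by
    rw [(dxV_cuV hD ψ).1]
    refine (tf3_toLp (hcc.py.px.memLp 2) (hcc.px.px.memLp 2)).trans ?_
    exact Eventually.of_forall fun x => (hpx x).symm
  have q3 : rf (dyV hD (cuV D ψ)) =ᵐ[volume] fun x => fderiv ℝ φ x Complex.I := by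
    rw [(dxV_cuV hD ψ).2]
    refine (tf3_toLp (hcc.py.py.memLp 2) (hcc.px.py.memLp 2)).trans ?_
    exact Eventually.of_forall fun x => (hpy x).symm
  refine ⟨φ, hφc.smo, hφc.cpt, ?_, ?_, ?_, ?_⟩
  · refine Disjoint.mono_left (hsup.trans (Adm.supp ψ)) ?_
    refine Disjoint.mono_right hW ?_
    exact disjoint_left.mpr fun x hx hx' => hO.frontier_eq ▸ hx' |>.2 hx
  · exact tf3_dist _ _ Ω q1 ((ENNReal.ofReal_le_ofReal k1.le).trans hδε)
  · exact tf3_dist _ _ Ω q2 ((ENNReal.ofReal_le_ofReal k2.le).trans hδε)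
  · exact tf3_dist _ _ Ω q3 ((ENNReal.ofReal_le_ofReal k3.le).trans hδε)

/-- representatives of `fo`, `fx`, `fy` on `Ω` -/
theorem rf_fo {Ω : Set ℂ} (hΩ : MeasurableSet Ω) {L : ℂ → ℂ} (hL : Cc L) :
    rf (fo Ω L) =ᵐ[volume.restrict Ω] L ∧ rf (fx Ω L) =ᵐ[volume.restrict Ω] (fun x => fderiv ℝ L x 1) ∧
      rf (fy Ω L) =ᵐ[volume.restrict Ω] (fun x => fderiv ℝ L x Complex.I) := by
  have key : ∀ {f g : ℂ → ℂ} {F : ℂ → ℂ}, Cc f → Cc g → (∀ x, f x = (((F x).re : ℝ) : ℂ)) →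
      (∀ x, g x = (((F x).im : ℝ) : ℂ)) →
      rf (WithLp.toLp 2 (iO Ω f, iO Ω g)) =ᵐ[volume.restrict Ω] F := by
    intro f g F hf hg e1 e2
    filter_upwards [ae_restrict_of_ae (cl2_coe (hf.ind_memLp hΩ 2)),
      ae_restrict_of_ae (cl2_coe (hg.ind_memLp hΩ 2)), ae_restrict_mem hΩ] with x h1 h2 hx
    show ((((cl2 (Ω.indicator f) : ℂ → ℂ) x).re : ℝ) : ℂ) +
      Complex.I * ((((cl2 (Ω.indicator g) : L2c) : ℂ → ℂ) x).re : ℂ) = F x
    rw [h1, h2, indicator_of_mem hx, indicator_of_mem hx, e1, e2, Complex.ofReal_re,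
      Complex.ofReal_re, mul_comm]
    exact Complex.re_add_im (F x)
  refine ⟨key hL.l1 hL.l2 (fun x => rfl) (fun x => rfl),
    key hL.l1.px hL.l2.px (px_l1 hL.smo) (px_l2 hL.smo),
    key hL.l1.py hL.l2.py (py_l1 hL.smo) (py_l2 hL.smo)⟩

theorem rf_add (U U' : Y2) : rf (U + U') =ᵐ[volume] fun x => rf U x + rf U' x :=
  tf3_add U U'

theorem rf_norm (U : Y2) (hU : cYy U = U) (Ω : Set ℂ) : eLpNorm (rf U) 2 (volume.restrict Ω) ≤ ENNReal.ofReal ‖U‖ :=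
  tf3_norm U Ω

end Pool.Agent.Lib.MP_79abb3_an.PD
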