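import Pool.Agent.Lib.MP_79abb3_an.PD.TfB3
import Pool.Agent.Lib.MP_79abb3_an.PD.TfD3

/-!
Theorem D, block A: a total flow gives a trajectory in the sense of `IsTrajD`.
-/

set_option autoImplicit false
set_option linter.unusedSectionVars false

open MeasureTheory Set Filter Topology Function
open scoped ENNReal InnerProductSpace ComplexConjugate

namespace Pool.Agent.Lib.MP_79abb3_an.PD

open Pool.Agent.Lib.MP_79abb3_an.SC

section
variable {D Ω Γ : Set ℂ} {T : ℝ} {u₀ : ℂ → ℂ} {L : ℝ → ℂ → ℂ} {v : ℝ → VD D}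

/-- A representative of the velocity of a total flow in space-time, with its gradient. -/
structure Rep (D Ω : Set ℂ) (hD : Bornology.IsBounded D) (T : ℝ) (u₀ : ℂ → ℂ) (L : ℝ → ℂ → ℂ) (v : ℝ → VD D)
    (u g h : ℝ × ℂ → ℂ) : Prop where
  u0 : ∀ x, u (0, x) = u₀ x
  mu : MemLp u 2 (volume.restrict (Ioo 0 T ×ˢ Ω))
  mg : MemLp g 2 (volume.restrict (Ioo 0 T ×ˢ Ω))
  mh : MemLp h 2 (volume.restrict (Ioo 0 T ×ˢ Ω))
  ru : ∀ t ∈ Ioc 0 T, (fun x => u (t, x)) =ᵐ[volume] rf (Uv Ω L v t)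
  rg : ∀ t ∈ Ioc 0 T, (fun x => g (t, x)) =ᵐ[volume] rf (fx Ω (L t) + dxV hD (v t))
  rh : ∀ t ∈ Ioc 0 T, (fun x => h (t, x)) =ᵐ[volume] rf (fy Ω (L t) + dyV hD (v t))

private theorem tff_iO {g : ℂ → ℂ} (hg : Cc g) (hΩ : MeasurableSet Ω) :
    ‖iO Ω g‖ = (eLpNorm g 2 (volume.restrict Ω)).toReal := by
  unfold iO
  rw [cl2_eq (hg.ind_memLp hΩ 2), Lp.norm_toLp, eLpNorm_indicator_eq_eLpNorm_restrict hΩ]

private theorem tff_fo {M : ℂ → ℂ} (hM : Cc M) (hΩ : MeasurableSet Ω) :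
    ‖fo Ω M‖ ≤ 2 * (eLpNorm M 2 (volume.restrict Ω)).toReal := by
  have hf : eLpNorm M 2 (volume.restrict Ω) ≠ ∞ := ((hM.memLp 2).restrict Ω).2.ne
  have h0 : ‖fo Ω M‖ ^ 2 = ‖iO Ω (l1 M)‖ ^ 2 + ‖iO Ω (l2 M)‖ ^ 2 := WithLp.prod_norm_sq_eq_of_L2 _
  have h1 : ‖iO Ω (l1 M)‖ ≤ (eLpNorm M 2 (volume.restrict Ω)).toReal := by
    rw [tff_iO hM.l1 hΩ]
    refine ENNReal.toReal_mono hf (eLpNorm_mono fun x => ?_)
    unfold l1
    rw [Complex.norm_real]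
    exact Complex.abs_re_le_norm _
  have h2 : ‖iO Ω (l2 M)‖ ≤ (eLpNorm M 2 (volume.restrict Ω)).toReal := by
    rw [tff_iO hM.l2 hΩ]
    refine ENNReal.toReal_mono hf (eLpNorm_mono fun x => ?_)
    unfold l2
    rw [Complex.norm_real]
    exact Complex.abs_im_le_norm _
  have h3 := norm_nonneg (iO Ω (l1 M))
  have h4 := norm_nonneg (iO Ω (l2 M))
  have h5 : 0 ≤ (eLpNorm M 2 (volume.restrict Ω)).toReal := ENNReal.toReal_nonneg
  refine le_of_sq_le_sq ?_ (by positivity)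
  nlinarith

/-- the velocity is bounded in `L²` up to the initial time -/
theorem Tot.bdd (h : Tot D Ω Γ T u₀ L v) (hΩ : MeasurableSet Ω) (hu : MemLp u₀ 2 (volume.restrict Ω)) :
    ∃ C, ∀ t ∈ Ioc 0 T, ‖Uv Ω L v t‖ ≤ C := by
  set N : ℝ := (eLpNorm u₀ 2 (volume.restrict Ω)).toReal with hN
  have e1 : ∀ᶠ t in 𝓝[>] (0:ℝ), eLpNorm (fun x => u₀ x - L t x) 2 (volume.restrict Ω) ≤ 1 :=
    h.l0.eventually (ge_mem_nhds zero_lt_one)
  have e2 : ∀ᶠ t in 𝓝[>] (0:ℝ), ‖iot D (v t)‖ ≤ 1 := h.v0.eventually (ge_mem_nhds zero_lt_one)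
  obtain ⟨δ, hδ, hδ'⟩ := mem_nhdsGT_iff_exists_Ioo_subset.1 (e1.and e2)
  have hδ0 : 0 < δ := hδ
  -- near zero
  have near : ∀ t ∈ Ioc 0 T, t < δ → ‖Uv Ω L v t‖ ≤ 2 * (N + 1) + 1 := by
    intro t ht htd
    obtain ⟨h1, h2⟩ := hδ' ⟨ht.1, htd⟩
    have hM := (h.lf t ht).cc
    have h3 := tff_fo hM hΩ
    have hm : AEStronglyMeasurable (L t) (volume.restrict Ω) :=
      ((hM.memLp 2).restrict Ω).aestronglyMeasurable
    have h4 : eLpNorm (L t) 2 (volume.restrict Ω) ≤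
        eLpNorm u₀ 2 (volume.restrict Ω) + eLpNorm (fun x => u₀ x - L t x) 2 (volume.restrict Ω) := by
      have e : L t = u₀ - fun x => u₀ x - L t x := by
        funext x
        simp
      conv_lhs => rw [e]
      exact eLpNorm_sub_le hu.1 (hu.1.sub hm) (by norm_num)
    have h5 : (eLpNorm (L t) 2 (volume.restrict Ω)).toReal ≤ N + 1 := by
      have hle : eLpNorm (L t) 2 (volume.restrict Ω) ≤ eLpNorm u₀ 2 (volume.restrict Ω) + 1 :=
        h4.trans (add_le_add le_rfl h1)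
      have := ENNReal.toReal_mono (ENNReal.add_ne_top.2 ⟨hu.2.ne, ENNReal.one_ne_top⟩) hle
      rwa [ENNReal.toReal_add hu.2.ne ENNReal.one_ne_top, ENNReal.toReal_one] at this
    calc ‖Uv Ω L v t‖ ≤ ‖fo Ω (L t)‖ + ‖((iot D (v t) : XD D) : Y2)‖ := norm_add_le _ _
      _ ≤ 2 * (N + 1) + 1 := by
        have : ‖((iot D (v t) : XD D) : Y2)‖ ≤ 1 := h2
        linarith
  -- away from zero
  have hc : ContinuousOn (Uv Ω L v) (Icc δ T) :=
    h.Uv_cont.mono fun t ht => ⟨lt_of_lt_of_le (by linarith) ht.1, ht.2⟩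
  obtain ⟨R, hR⟩ := isCompact_Icc.exists_bound_of_continuousOn hc
  refine ⟨max (2 * (N + 1) + 1) R, fun t ht => ?_⟩
  rcases lt_or_ge t δ with htd | htd
  · exact (near t ht htd).trans (le_max_left _ _)
  · exact (hR t ⟨by linarith, ht.2⟩).trans (le_max_right _ _)

/-- a jointly measurable representative of a continuous function with values in `Y2` -/
private theorem tff_rep (T : ℝ) (Ω : Set ℂ) {F : ℝ → Y2} (hF : ContinuousOn F (Ioc 0 T))
    (hi : IntegrableOn (fun t => ‖F t‖ ^ 2) (Ioc 0 T)) : ∃ G : ℝ × ℂ → ℂ,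
    MemLp G 2 (volume.restrict (Ioo 0 T ×ˢ Ω)) ∧
      ∀ t ∈ Ioc 0 T, (fun x => G (t, x)) =ᵐ[volume] rf (F t) := by
  have c1 : ContinuousOn (fun t => (F t).fst) (Ioc 0 T) :=
    (WithLp.continuous_fst 2 L2c L2c).comp_continuousOn hF
  have c2 : ContinuousOn (fun t => (F t).snd) (Ioc 0 T) :=
    (WithLp.continuous_snd 2 L2c L2c).comp_continuousOn hF
  obtain ⟨G1, m1, r1⟩ := exists_jm c1
  obtain ⟨G2, m2, r2⟩ := exists_jm c2
  have i1 : IntegrableOn (fun t => ‖(F t).fst‖ ^ 2) (Ioc 0 T) := by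
    refine Integrable.mono' hi ((c1.norm.pow 2).aestronglyMeasurable measurableSet_Ioc) ?_
    refine Eventually.of_forall fun t => ?_
    rw [Real.norm_of_nonneg (by positivity)]
    exact pow_le_pow_left₀ (norm_nonneg _) (WithLp.norm_fst_le L2c (F t)) 2
  have i2 : IntegrableOn (fun t => ‖(F t).snd‖ ^ 2) (Ioc 0 T) := by
    refine Integrable.mono' hi ((c2.norm.pow 2).aestronglyMeasurable measurableSet_Ioc) ?_
    refine Eventually.of_forall fun t => ?_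
    rw [Real.norm_of_nonneg (by positivity)]
    exact pow_le_pow_left₀ (norm_nonneg _) (WithLp.norm_snd_le L2c (F t)) 2
  have l1 := jm_memLp (Ω := Ω) m1 r1 i1
  have l2 := jm_memLp (Ω := Ω) m2 r2 i2
  refine ⟨fun p => (((G1 p).re : ℝ) : ℂ) + Complex.I * (((G2 p).re : ℝ) : ℂ), ?_, fun t ht => ?_⟩
  · have h1 : MemLp (fun p => (((G1 p).re : ℝ) : ℂ)) 2 (volume.restrict (Ioo 0 T ×ˢ Ω)) := l1.re.ofReal
    have h2 : MemLp (fun p => (((G2 p).re : ℝ) : ℂ)) 2 (volume.restrict (Ioo 0 T ×ˢ Ω)) := l2.re.ofReal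
    exact h1.add (h2.const_mul Complex.I)
  · filter_upwards [r1 t ht, r2 t ht] with x h1 h2
    unfold rf
    rw [h1, h2]

/-- Proof: `exists_jm` for the components of `Uv`, `fx + dxV`, `fy + dyV` (continuous on `(0, T]`), `jm_memLp`, `Tot.bdd`,
`li`, `vi`; `u (t, x) = u₀ x` for `t ≤ 0`, `= Re G₁ + i Re G₂` for `t > 0`. -/
theorem Tot.exists_rep (h : Tot D Ω Γ T u₀ L v) (hD : Bornology.IsBounded D) (hT : 0 < T) (hΩ : MeasurableSet Ω)
    (hu : MemLp u₀ 2 (volume.restrict Ω)) : ∃ u g h', Rep D Ω hD T u₀ L v u g h' := by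
  have _ := hT
  obtain ⟨C, hC⟩ := h.bdd hΩ hu
  have iU : IntegrableOn (fun t => ‖Uv Ω L v t‖ ^ 2) (Ioc 0 T) := by
    have hfin : volume (Ioc 0 T) < ∞ := measure_Ioc_lt_top
    refine Integrable.mono' (g := fun _ => C ^ 2) (integrableOn_const (hs := hfin.ne))
      ((h.Uv_cont.norm.pow 2).aestronglyMeasurable measurableSet_Ioc) ?_
    rw [ae_restrict_iff' measurableSet_Ioc]
    refine Eventually.of_forall fun t ht => ?_
    rw [Real.norm_of_nonneg (by positivity)]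
    exact pow_le_pow_left₀ (norm_nonneg _) (hC t ht) 2
  have grad : ∀ (A : VD D →L[ℂ] Y2) (f : ℝ → Y2), ContinuousOn f (Ioc 0 T) →
      (∀ t, ‖f t‖ ^ 2 ≤ ‖fx Ω (L t)‖ ^ 2 + ‖fy Ω (L t)‖ ^ 2) →
      ContinuousOn (fun t => f t + A (v t)) (Ioc 0 T) ∧
        IntegrableOn (fun t => ‖f t + A (v t)‖ ^ 2) (Ioc 0 T) := by
    intro A f hf hle
    have c1 : ContinuousOn (fun t => f t + A (v t)) (Ioc 0 T) :=
      hf.add (A.continuous.comp_continuousOn h.cv)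
    refine ⟨c1, ?_⟩
    have j1 : IntegrableOn (fun t => 2 * (‖fx Ω (L t)‖ ^ 2 + ‖fy Ω (L t)‖ ^ 2) +
        2 * ‖A‖ ^ 2 * ‖v t‖ ^ 2) (Ioc 0 T) := (h.li.const_mul 2).add (h.vi.const_mul (2 * ‖A‖ ^ 2))
    refine Integrable.mono' j1 ((c1.norm.pow 2).aestronglyMeasurable measurableSet_Ioc) ?_
    refine Eventually.of_forall fun t => ?_
    rw [Real.norm_of_nonneg (by positivity)]
    have h1 := norm_add_le (f t) (A (v t))
    have h2 := A.le_opNorm (v t)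
    have h3 := hle t
    have h4 := norm_nonneg (f t + A (v t))
    have h5 : ‖A (v t)‖ ^ 2 ≤ ‖A‖ ^ 2 * ‖v t‖ ^ 2 := by
      rw [← mul_pow]
      exact pow_le_pow_left₀ (norm_nonneg _) h2 2
    have h6 : ‖f t + A (v t)‖ ^ 2 ≤ (‖f t‖ + ‖A (v t)‖) ^ 2 := pow_le_pow_left₀ h4 h1 2
    nlinarith [sq_nonneg (‖f t‖ - ‖A (v t)‖)]
  obtain ⟨cx, ix⟩ := grad (dxV hD) (fun t => fx Ω (L t)) h.co.x fun t => by
    have := sq_nonneg ‖fy Ω (L t)‖
    linarith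
  obtain ⟨cy, iy⟩ := grad (dyV hD) (fun t => fy Ω (L t)) h.co.y fun t => by
    have := sq_nonneg ‖fx Ω (L t)‖
    linarith
  obtain ⟨G, mG, rG⟩ := tff_rep T Ω h.Uv_cont iU
  obtain ⟨Gx, mx, rx⟩ := tff_rep T Ω cx ix
  obtain ⟨Gy, my, ry⟩ := tff_rep T Ω cy iy
  classical
  refine ⟨fun p => if p.1 ≤ 0 then u₀ p.2 else G p, Gx, Gy, ⟨fun x => ?_, ?_, mx, my, fun t ht => ?_, rx, ry⟩⟩
  · simp
  · refine (memLp_congr_ae ?_).2 mG
    have hm : ∀ᵐ p ∂(volume.restrict (Ioo 0 T ×ˢ Ω) : Measure (ℝ × ℂ)), p ∈ Ioo 0 T ×ˢ Ω :=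
      ae_restrict_mem (measurableSet_Ioo.prod hΩ)
    filter_upwards [hm] with p hp
    rw [if_neg (not_le.2 hp.1.1)]
  · refine EventuallyEq.trans ?_ (rG t ht)
    refine Eventually.of_forall fun x => ?_
    show (if t ≤ 0 then u₀ x else G (t, x)) = G (t, x)
    rw [if_neg (not_le.2 ht.1)]

end

end Pool.Agent.Lib.MP_79abb3_an.PD
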