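import Pool.Agent.Lib.MP_79abb3_an.PD.TfF

/-!
Theorem D, block A: continuity and trace of a representative.
-/

set_option autoImplicit false
set_option linter.unusedSectionVars false

open MeasureTheory Set Filter Topology Function
open scoped ENNReal InnerProductSpace ComplexConjugate

namespace Pool.Agent.Lib.MP_79abb3_an.PD

open Pool.Agent.Lib.MP_79abb3_an.SC

section
variable {D Ω Γ : Set ℂ} {T : ℝ} {u₀ : ℂ → ℂ} {L : ℝ → ℂ → ℂ} {v : ℝ → VD D}
variable {hD : Bornology.IsBounded D} {u g h' : ℝ × ℂ → ℂ}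

private theorem tff2_memLp (U : Y2) : MemLp (rf U) 2 (volume : Measure ℂ) := by
  have h1 : MemLp (fun x => ((((U.fst : ℂ → ℂ) x).re : ℝ) : ℂ)) 2 (volume : Measure ℂ) :=
    (Complex.ofRealCLM.comp Complex.reCLM).comp_memLp' (Lp.memLp U.fst)
  have h2 : MemLp (fun x => ((((U.snd : ℂ → ℂ) x).re : ℝ) : ℂ)) 2 (volume : Measure ℂ) :=
    (Complex.ofRealCLM.comp Complex.reCLM).comp_memLp' (Lp.memLp U.snd)
  exact h1.add (h2.const_mul Complex.I)

private theorem tff2_iot (hD : Bornology.IsBounded D) {w : VD D} (hw : cVD D w = w) :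
    cYy ((iot D w : XD D) : Y2) = ((iot D w : XD D) : Y2) := by
  have h1 := (FCj_D hD).ι w
  have h2 : cYy ((iot D w : XD D) : Y2) = ((iot D (cVD D w) : XD D) : Y2) :=
    congrArg (fun z : XD D => (z : Y2)) h1
  rw [h2, hw]

private theorem tff2_real (hD : Bornology.IsBounded D) (h : Tot D Ω Γ T u₀ L v) (hΩ : MeasurableSet Ω) {t : ℝ}
    (ht : t ∈ Ioc 0 T) : cYy (Uv Ω L v t) = Uv Ω L v t := by
  unfold Uv
  rw [map_add, fo_real hΩ (h.lf t ht).cc, tff2_iot hD (h.rv t ht)]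

private theorem tff2_eq (r : Rep D Ω hD T u₀ L v u g h') (h : Tot D Ω Γ T u₀ L v) (hΩ : MeasurableSet Ω) {t : ℝ}
    (ht : t ∈ Ioc 0 T) : (fun x => u (t, x)) =ᵐ[volume.restrict Ω]
      fun x => L t x + rf ((iot D (v t) : XD D) : Y2) x := by
  have h1 : (fun x => u (t, x)) =ᵐ[volume.restrict Ω] rf (Uv Ω L v t) := ae_restrict_of_ae (r.ru t ht)
  have h2 : rf (Uv Ω L v t) =ᵐ[volume.restrict Ω] fun x => rf (fo Ω (L t)) x +
      rf ((iot D (v t) : XD D) : Y2) x := ae_restrict_of_ae (rf_add _ _)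
  have h3 := (rf_fo hΩ (h.lf t ht).cc).1
  filter_upwards [h1, h2, h3] with x e1 e2 e3
  rw [e1, e2, e3]

theorem Rep.sq (r : Rep D Ω hD T u₀ L v u g h') (hu : MemLp u₀ 2 (volume.restrict Ω)) :
    ∀ t ∈ Icc 0 T, MemLp (fun x => u (t, x)) 2 (volume.restrict Ω) := by
  intro t ht
  rcases eq_or_lt_of_le ht.1 with h0 | h0
  · rw [← h0]
    have e : (fun x => u (0, x)) = u₀ := funext r.u0
    rw [e]
    exact hu
  · have h1 : (fun x => u (t, x)) =ᵐ[volume.restrict Ω] rf (Uv Ω L v t) :=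
      ae_restrict_of_ae (r.ru t ⟨h0, ht.2⟩)
    exact ((tff2_memLp (Uv Ω L v t)).restrict Ω).ae_eq h1.symm

/-- Proof: for `t > 0` `Tot.Uv_cont`, `rf_norm`, `rf_add`; at `t = 0` `l0`, `v0`, `rf_fo`. -/
theorem Rep.cont (r : Rep D Ω hD T u₀ L v u g h') (h : Tot D Ω Γ T u₀ L v) (hΩ : MeasurableSet Ω)
    (hu : MemLp u₀ 2 (volume.restrict Ω)) : ∀ t ∈ Icc 0 T,
    Tendsto (fun s => eLpNorm (fun x => u (s, x) - u (t, x)) 2 (volume.restrict Ω)) (𝓝[Icc 0 T] t) (𝓝 0) := by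
  intro t ht
  rcases eq_or_lt_of_le ht.1 with h0 | h0
  · subst h0
    have hT : (0 : ℝ) ≤ T := ht.2
    have hI : Icc (0 : ℝ) T = insert 0 (Ioc 0 T) := by
      ext s
      simp only [mem_Icc, mem_insert_iff, mem_Ioc]
      constructor
      · rintro ⟨h1, h2⟩
        rcases eq_or_lt_of_le h1 with h3 | h3
        · exact Or.inl h3.symm
        · exact Or.inr ⟨h3, h2⟩
      · rintro (h1 | ⟨h1, h2⟩)
        · rw [h1]
          exact ⟨le_rfl, hT⟩
        · exact ⟨h1.le, h2⟩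
    rw [hI, nhdsWithin_insert, tendsto_sup]
    refine ⟨?_, ?_⟩
    · refine tendsto_pure_left.2 fun s hs => ?_
      have h1 : eLpNorm (fun x => u (0, x) - u (0, x)) 2 (volume.restrict Ω) = 0 := by
        simp only [sub_self]
        exact eLpNorm_zero'
      show eLpNorm (fun x => u (0, x) - u (0, x)) 2 (volume.restrict Ω) ∈ s
      rw [h1]
      exact mem_of_mem_nhds hs
    · have hm : 𝓝[Ioc (0:ℝ) T] 0 ≤ 𝓝[>] 0 := nhdsWithin_mono _ Ioc_subset_Ioi_self
      have l1 : Tendsto (fun s => eLpNorm (fun x => u₀ x - L s x) 2 (volume.restrict Ω))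
          (𝓝[Ioc (0:ℝ) T] 0) (𝓝 0) := h.l0.mono_left hm
      have l2 : Tendsto (fun s => ENNReal.ofReal ‖iot D (v s)‖) (𝓝[Ioc (0:ℝ) T] 0) (𝓝 0) := by
        have h1 := ENNReal.tendsto_ofReal (h.v0.mono_left hm)
        rwa [ENNReal.ofReal_zero] at h1
      have l3 := l2.add l1
      rw [add_zero] at l3
      refine tendsto_of_tendsto_of_tendsto_of_le_of_le' tendsto_const_nhds l3
        (Eventually.of_forall fun _ => zero_le) ?_
      filter_upwards [self_mem_nhdsWithin] with s hs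
      have e1 : (fun x => u (s, x) - u (0, x)) =ᵐ[volume.restrict Ω]
          fun x => rf ((iot D (v s) : XD D) : Y2) x - (u₀ x - L s x) := by
        filter_upwards [tff2_eq r h hΩ hs] with x hx
        rw [hx, r.u0]
        ring
      rw [eLpNorm_congr_ae e1]
      have m1 : AEStronglyMeasurable (rf ((iot D (v s) : XD D) : Y2)) (volume.restrict Ω) :=
        ((tff2_memLp _).restrict Ω).1
      have m2 : AEStronglyMeasurable (fun x => u₀ x - L s x) (volume.restrict Ω) :=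
        hu.1.sub (h.lf s hs).cc.smo.continuous.aestronglyMeasurable
      refine (eLpNorm_sub_le m1 m2 (by norm_num)).trans (add_le_add ?_ le_rfl)
      exact rf_norm _ (tff2_iot hD (h.rv s hs)) Ω
  · have ht' : t ∈ Ioc 0 T := ⟨h0, ht.2⟩
    have hn : 𝓝[Icc 0 T] t = 𝓝[Ioc 0 T] t := by
      refine nhdsWithin_eq_nhdsWithin (s := Ioi 0) h0 isOpen_Ioi ?_
      ext s
      simp only [mem_inter_iff, mem_Icc, mem_Ioi, mem_Ioc]
      constructor
      · rintro ⟨⟨_, h2⟩, h3⟩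
        exact ⟨⟨h3, h2⟩, h3⟩
      · rintro ⟨⟨_, h2⟩, h3⟩
        exact ⟨⟨h3.le, h2⟩, h3⟩
    rw [hn]
    have l1 : Tendsto (fun s => ENNReal.ofReal ‖Uv Ω L v s - Uv Ω L v t‖) (𝓝[Ioc 0 T] t) (𝓝 0) := by
      have h1 : Tendsto (Uv Ω L v) (𝓝[Ioc 0 T] t) (𝓝 (Uv Ω L v t)) := h.Uv_cont t ht'
      have h2 := ENNReal.tendsto_ofReal (tendsto_iff_norm_sub_tendsto_zero.1 h1)
      rwa [ENNReal.ofReal_zero] at h2
    refine tendsto_of_tendsto_of_tendsto_of_le_of_le' tendsto_const_nhds l1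
      (Eventually.of_forall fun _ => zero_le) ?_
    filter_upwards [self_mem_nhdsWithin] with s hs
    have e2 : Uv Ω L v t + (Uv Ω L v s - Uv Ω L v t) = Uv Ω L v s := by abel
    have e3 := rf_add (Uv Ω L v t) (Uv Ω L v s - Uv Ω L v t)
    rw [e2] at e3
    have e1 : (fun x => u (s, x) - u (t, x)) =ᵐ[volume.restrict Ω]
        rf (Uv Ω L v s - Uv Ω L v t) := by
      refine ae_restrict_of_ae ?_
      filter_upwards [r.ru s hs, r.ru t ht', e3] with x h1 h2 h3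
      rw [h1, h2, h3]
      ring
    rw [eLpNorm_congr_ae e1]
    refine rf_norm _ ?_ Ω
    rw [map_sub, tff2_real hD h hΩ hs, tff2_real hD h hΩ ht']

/-- Proof: `isH0_L`, `isH0_v`, `IsH0.add`, `IsH0.congr`, `rf_fo`, `rf_add`. -/
theorem Rep.h0 (r : Rep D Ω hD T u₀ L v u g h') (h : Tot D Ω Γ T u₀ L v) (hΩ : MeasurableSet Ω) (hO : IsOpen D)
    (hW : frontier Ω \ Γ ⊆ frontier D) : ∀ t ∈ Ioc 0 T,
    IsH0 Ω (frontier Ω \ Γ) (fun x => u (t, x)) (fun x => g (t, x)) (fun x => h' (t, x)) := by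
  intro t ht
  have hc := (h.lf t ht).cc
  have hA := isH0_L Ω (W := frontier Ω \ Γ) hc (h.lf t ht).wl
  have hB := isH0_v (Ω := Ω) hD hO hW (v t)
  have m : ∀ U : Y2, AEStronglyMeasurable (rf U) (volume.restrict Ω) := fun U =>
    ((tff2_memLp U).restrict Ω).1
  have hC := hA.add hB ⟨hc.smo.continuous.aestronglyMeasurable,
    hc.px.smo.continuous.aestronglyMeasurable, hc.py.smo.continuous.aestronglyMeasurable,
    m _, m _, m _⟩
  obtain ⟨_, f2, f3⟩ := rf_fo hΩ hc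
  refine hC.congr (tff2_eq r h hΩ ht).symm ?_ ?_
  · have h1 : (fun x => g (t, x)) =ᵐ[volume.restrict Ω] rf (fx Ω (L t) + dxV hD (v t)) :=
      ae_restrict_of_ae (r.rg t ht)
    have h2 := ae_restrict_of_ae (s := Ω) (rf_add (fx Ω (L t)) (dxV hD (v t)))
    filter_upwards [h1, h2, f2] with x e1 e2 e3
    rw [e1, e2, e3]
  · have h1 : (fun x => h' (t, x)) =ᵐ[volume.restrict Ω] rf (fy Ω (L t) + dyV hD (v t)) :=
      ae_restrict_of_ae (r.rh t ht)
    have h2 := ae_restrict_of_ae (s := Ω) (rf_add (fy Ω (L t)) (dyV hD (v t)))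
    filter_upwards [h1, h2, f3] with x e1 e2 e3
    rw [e1, e2, e3]

end

end Pool.Agent.Lib.MP_79abb3_an.PD
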