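import Pool.Agent.Lib.MP_79abb3_an.PD.FldB2
import Pool.Agent.Lib.MP_79abb3_an.PD.FldB3
import Pool.Agent.Lib.MP_79abb3_an.PD.DefD

/-!
Theorem D, blocks P and A: total flows `U = L + iot v` in `Ω`: the interface between the phases and the final statement.
-/

set_option autoImplicit false
set_option linter.unusedSectionVars false

open MeasureTheory Set Filter Topology Function
open scoped ENNReal InnerProductSpace ComplexConjugate

namespace Pool.Agent.Lib.MP_79abb3_an.PD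

open Pool.Agent.Lib.MP_79abb3_an.SC

/-- The Navier-Stokes equations in `Ω` for `U = L + iot v`, vorticity `curl L + v`, tested with the fields `∇^⊥ψ` with compact
support in `Ω` (`ψ ∈ Adm Ω`). -/
def WEq (D Ω : Set ℂ) (L : ℝ → ℂ → ℂ) (v : ℝ → VD D) (a b : ℝ) : Prop :=
  ∀ ψ : ℂ → ℂ, ψ ∈ Adm Ω → ∀ s t, a ≤ s → s ≤ t → t ≤ b →
    ⟪gp ψ, fo Ω (L t) + ((iot D (v t) : XD D) : Y2)⟫_ℂ - ⟪gp ψ, fo Ω (L s) + ((iot D (v s) : XD D) : Y2)⟫_ℂ =
      ∫ r in s..t, (-⟪cu ψ, fw Ω (L r) + (v r : L2c)⟫_ℂ +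
        NL (f4 Ω (L r) + jj D (v r)) (fw Ω (L r) + (v r : L2c)) (g4 ψ))

/-- continuity of the classes of a time dependent field -/
structure FCo (Ω : Set ℂ) (L : ℝ → ℂ → ℂ) (S : Set ℝ) : Prop where
  o : ContinuousOn (fun t => fo Ω (L t)) S
  x : ContinuousOn (fun t => fx Ω (L t)) S
  y : ContinuousOn (fun t => fy Ω (L t)) S
  w : ContinuousOn (fun t => fw Ω (L t)) S
  f : ContinuousOn (fun t => f4 Ω (L t)) S

/-- A field of the lifting: smooth, divergence free in `Ω`, zero on `∂Ω ∖ Γ`. -/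
structure LF (Ω Γ : Set ℂ) (L : ℂ → ℂ) : Prop where
  cc : Cc L
  dv : ∀ x ∈ Ω, divC L x = 0
  wl : ∀ x ∈ frontier Ω \ Γ, L x = 0

/-- **Total flows on `(0,T]`.** -/
structure Tot (D Ω Γ : Set ℂ) (T : ℝ) (u₀ : ℂ → ℂ) (L : ℝ → ℂ → ℂ) (v : ℝ → VD D) : Prop where
  lf : ∀ t ∈ Ioc 0 T, LF Ω Γ (L t)
  co : FCo Ω L (Ioc 0 T)
  li : IntegrableOn (fun t => ‖fx Ω (L t)‖ ^ 2 + ‖fy Ω (L t)‖ ^ 2) (Ioc 0 T)
  l0 : Tendsto (fun t => eLpNorm (fun x => u₀ x - L t x) 2 (volume.restrict Ω)) (𝓝[>] 0) (𝓝 0)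
  cv : ContinuousOn v (Ioc 0 T)
  rv : ∀ t ∈ Ioc 0 T, cVD D (v t) = v t
  vi : IntegrableOn (fun t => ‖v t‖ ^ 2) (Ioc 0 T)
  v0 : Tendsto (fun t => ‖iot D (v t)‖) (𝓝[>] 0) (𝓝 0)
  eq : ∀ a, 0 < a → a ≤ T → WEq D Ω L v a T

section
variable {D Ω Γ : Set ℂ} {L L' : ℝ → ℂ → ℂ} {v v' : ℝ → VD D} {a b c T : ℝ} {u₀ : ℂ → ℂ}

/-- The integrand of `WEq` is continuous. -/
theorem WEq.cont_rhs (hL : FCo Ω L (Icc a b)) (hv : ContinuousOn v (Icc a b)) (ψ : ℂ → ℂ) :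
    ContinuousOn (fun r => -⟪cu ψ, fw Ω (L r) + (v r : L2c)⟫_ℂ +
        NL (f4 Ω (L r) + jj D (v r)) (fw Ω (L r) + (v r : L2c)) (g4 ψ)) (Icc a b) := by
  have hw : ContinuousOn (fun r => fw Ω (L r) + (v r : L2c)) (Icc a b) :=
    hL.w.add (continuous_subtype_val.comp_continuousOn hv)
  have h4 : ContinuousOn (fun r => f4 Ω (L r) + jj D (v r)) (Icc a b) :=
    hL.f.add ((jj D).continuous.comp_continuousOn hv)
  have h1 : ContinuousOn (fun r => NL (f4 Ω (L r) + jj D (v r))) (Icc a b) :=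
    NL.continuous.comp_continuousOn h4
  have h2 : ContinuousOn (fun r => NL (f4 Ω (L r) + jj D (v r)) (fw Ω (L r) + (v r : L2c)))
      (Icc a b) := h1.clm_apply hw
  have h3 : Continuous fun f : Yd (L4c × L4c) => f (g4 ψ) := continuous_eval_const (g4 ψ)
  exact (ContinuousOn.inner continuousOn_const hw).neg.add (h3.comp_continuousOn h2)

theorem WEq.glue (h : WEq D Ω L v a c) (h' : WEq D Ω L v c b) (hL : FCo Ω L (Icc a b))
    (hv : ContinuousOn v (Icc a b)) (hac : a ≤ c) (hcb : c ≤ b) : WEq D Ω L v a b := by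
  intro ψ hψ s t hs hst ht
  rcases le_total t c with htc | htc
  · exact h ψ hψ s t hs hst htc
  · rcases le_total c s with hcs | hcs
    · exact h' ψ hψ s t hcs hst ht
    · have h1 := h ψ hψ s c hs hcs le_rfl
      have h2 := h' ψ hψ c t le_rfl htc ht
      have hc := WEq.cont_rhs (D := D) hL hv ψ
      have i1 : IntervalIntegrable (fun r => -⟪cu ψ, fw Ω (L r) + (v r : L2c)⟫_ℂ +
          NL (f4 Ω (L r) + jj D (v r)) (fw Ω (L r) + (v r : L2c)) (g4 ψ)) volume s c := by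
        apply ContinuousOn.intervalIntegrable
        rw [uIcc_of_le hcs]
        exact hc.mono (Icc_subset_Icc hs hcb)
      have i2 : IntervalIntegrable (fun r => -⟪cu ψ, fw Ω (L r) + (v r : L2c)⟫_ℂ +
          NL (f4 Ω (L r) + jj D (v r)) (fw Ω (L r) + (v r : L2c)) (g4 ψ)) volume c t := by
        apply ContinuousOn.intervalIntegrable
        rw [uIcc_of_le htc]
        exact hc.mono (Icc_subset_Icc hac ht)
      rw [← intervalIntegral.integral_add_adjacent_intervals i1 i2, ← h1, ← h2]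
      ring

theorem WEq.congr (h : WEq D Ω L v a b) (hL : ∀ t ∈ Icc a b, L t = L' t) (hv : ∀ t ∈ Icc a b, v t = v' t) :
    WEq D Ω L' v' a b := by
  intro ψ hψ s t hs hst ht
  have h1 := h ψ hψ s t hs hst ht
  rw [hL s ⟨hs, hst.trans ht⟩, hL t ⟨hs.trans hst, ht⟩, hv s ⟨hs, hst.trans ht⟩,
    hv t ⟨hs.trans hst, ht⟩] at h1
  rw [h1]
  refine intervalIntegral.integral_congr fun r hr => ?_
  rw [uIcc_of_le hst] at hr
  rw [hL r ⟨hs.trans hr.1, hr.2.trans ht⟩, hv r ⟨hs.trans hr.1, hr.2.trans ht⟩]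

theorem WEq.mono (h : WEq D Ω L v a b) {a' b' : ℝ} (ha : a ≤ a') (hb : b' ≤ b) : WEq D Ω L v a' b' :=
  fun ψ hψ s t hs hst ht => h ψ hψ s t (ha.trans hs) hst (ht.trans hb)

/-- translation in time -/
theorem WEq.shift (h : WEq D Ω L v a b) (s : ℝ) : WEq D Ω (fun t => L (t - s)) (fun t => v (t - s)) (a + s) (b + s) := by
  intro ψ hψ s' t' hs hst ht
  have h1 := h ψ hψ (s' - s) (t' - s) (by linarith) (by linarith) (by linarith)
  rw [h1]
  exact (intervalIntegral.integral_comp_sub_right (fun r => -⟪cu ψ, fw Ω (L r) + (v r : L2c)⟫_ℂ +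
    NL (f4 Ω (L r) + jj D (v r)) (fw Ω (L r) + (v r : L2c)) (g4 ψ)) s).symm

/-- `fo` etc. of the zero field -/
theorem f_zero (Ω : Set ℂ) : fo Ω (fun _ => 0) = 0 ∧ fx Ω (fun _ => 0) = 0 ∧ fy Ω (fun _ => 0) = 0 ∧
    fw Ω (fun _ => 0) = 0 ∧ f4 Ω (fun _ => 0) = 0 := by
  have e1 : l1 (fun _ => 0) = fun _ => (0 : ℂ) := by
    funext x
    simp [l1]
  have e2 : l2 (fun _ => 0) = fun _ => (0 : ℂ) := by
    funext x
    simp [l2]
  have ex : px (fun _ => (0 : ℂ)) = fun _ => (0 : ℂ) := by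
    funext x
    simp [px]
  have ey : py (fun _ => (0 : ℂ)) = fun _ => (0 : ℂ) := by
    funext x
    simp [py]
  have ew : cw (fun _ => 0) = fun _ => (0 : ℂ) := by
    funext x
    unfold cw
    rw [e1, e2, ex, ey, sub_zero]
  have i0 : iO Ω (fun _ => (0 : ℂ)) = 0 := by
    unfold iO
    rw [Set.indicator_zero, cl2_eq MemLp.zero']
    exact MemLp.toLp_zero _
  have i4 : cl4 (Ω.indicator fun _ => (0 : ℂ)) = 0 := by
    rw [Set.indicator_zero, cl4_eq MemLp.zero']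
    exact MemLp.toLp_zero _
  refine ⟨?_, ?_, ?_, ?_, ?_⟩
  · unfold fo
    rw [e1, e2, i0]
    rfl
  · unfold fx
    rw [e1, e2, ex, i0]
    rfl
  · unfold fy
    rw [e1, e2, ey, i0]
    rfl
  · unfold fw
    rw [ew, i0]
  · unfold f4
    rw [e1, e2, i4]
    rfl

end

end Pool.Agent.Lib.MP_79abb3_an.PD
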