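import Pool.Agent.Lib.MP_79abb3_an.PD.TotA

/-!
Theorem D: flows without lifting, gluing of total flows.
-/

set_option autoImplicit false
set_option linter.unusedSectionVars false

open MeasureTheory Set Filter Topology Function
open scoped ENNReal InnerProductSpace ComplexConjugate

namespace Pool.Agent.Lib.MP_79abb3_an.PD

open Pool.Agent.Lib.MP_79abb3_an.SC

section
variable {D Ω Γ : Set ℂ} {L L' : ℝ → ℂ → ℂ} {v v' : ℝ → VD D} {a b c T : ℝ} {u₀ : ℂ → ℂ}

/-- A flow without lifting (`L = 0`), continuous in `V(D)`. -/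
structure Fl0 (D Ω : Set ℂ) (v : ℝ → VD D) (a b : ℝ) : Prop where
  cv : ContinuousOn v (Icc a b)
  rv : ∀ t ∈ Icc a b, cVD D (v t) = v t
  eq : WEq D Ω (fun _ _ => 0) v a b

private theorem tota2_if {E : Type*} [TopologicalSpace E] {f g : ℝ → E} {S : Set ℝ} {c : ℝ}
    (hf : ContinuousOn f (S ∩ Iic c)) (hg : ContinuousOn g (S ∩ Ici c)) (h : f c = g c) :
    ContinuousOn (fun t => if t ≤ c then f t else g t) S := by
  have e1 : {t : ℝ | t ≤ c} = Iic c := rfl
  have e2 : {t : ℝ | ¬ t ≤ c} = Ioi c := by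
    ext t
    simp
  refine ContinuousOn.if ?_ ?_ ?_
  · rintro t ⟨-, ht⟩
    rw [e1, frontier_Iic, mem_singleton_iff] at ht
    rw [ht, h]
  · rw [e1, closure_Iic]
    exact hf
  · rw [e2, closure_Ioi]
    exact hg

private theorem tota2_ite {E : Type*} (F : (ℂ → ℂ) → E) (c : ℝ) (L : ℝ → ℂ → ℂ) (t : ℝ) :
    F (if t ≤ c then L t else fun _ => 0) = if t ≤ c then F (L t) else F (fun _ => 0) := by
  split_ifs <;> rfl

private theorem tota2_co {E : Type*} [TopologicalSpace E] (F : (ℂ → ℂ) → E) {c T : ℝ}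
    {L : ℝ → ℂ → ℂ} (h : ContinuousOn (fun t => F (L t)) (Ioc 0 c)) (hL : L c = fun _ => 0) :
    ContinuousOn (fun t => F (if t ≤ c then L t else fun _ => 0)) (Ioc 0 T) := by
  simp only [tota2_ite]
  refine tota2_if (h.mono fun t ht => ⟨ht.1.1, ht.2⟩) continuousOn_const ?_
  rw [hL]

private theorem tota2_FCo (Ω : Set ℂ) (S : Set ℝ) : FCo Ω (fun _ _ => 0) S :=
  ⟨continuousOn_const, continuousOn_const, continuousOn_const, continuousOn_const,
    continuousOn_const⟩

private theorem tota2_mono {Ω : Set ℂ} {L : ℝ → ℂ → ℂ} {S S' : Set ℝ} (h : FCo Ω L S)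
    (hS : S' ⊆ S) : FCo Ω L S' :=
  ⟨h.o.mono hS, h.x.mono hS, h.y.mono hS, h.w.mono hS, h.f.mono hS⟩

private theorem tota2_LF (Ω Γ : Set ℂ) : LF Ω Γ (fun _ => 0) := by
  refine ⟨⟨contDiff_const, HasCompactSupport.zero⟩, fun x _ => ?_, fun _ _ => rfl⟩
  unfold divC
  simp

theorem Fl0.shift (h : Fl0 D Ω v a b) (s : ℝ) : Fl0 D Ω (fun t => v (t - s)) (a + s) (b + s) := by
  have hm : ∀ t ∈ Icc (a + s) (b + s), t - s ∈ Icc a b := by
    rintro t ⟨h1, h2⟩
    exact ⟨by linarith, by linarith⟩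
  refine ⟨?_, fun t ht => h.rv _ (hm t ht), ?_⟩
  · exact h.cv.comp (continuous_id.sub continuous_const).continuousOn hm
  · exact h.eq.shift s

/-- gluing of two flows -/
theorem Fl0.glue (h : Fl0 D Ω v a c) (h' : Fl0 D Ω v' c b) (hc : v c = v' c) (hac : a ≤ c) (hcb : c ≤ b) :
    Fl0 D Ω (fun t => if t ≤ c then v t else v' t) a b := by
  have hcv : ContinuousOn (fun t => if t ≤ c then v t else v' t) (Icc a b) :=
    tota2_if (h.cv.mono fun t ht => ⟨ht.1.1, ht.2⟩) (h'.cv.mono fun t ht => ⟨ht.2, ht.1.2⟩) hc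
  refine ⟨hcv, ?_, ?_⟩
  · intro t ht
    by_cases htc : t ≤ c
    · simp only [if_pos htc]
      exact h.rv t ⟨ht.1, htc⟩
    · simp only [if_neg htc]
      exact h'.rv t ⟨(not_le.1 htc).le, ht.2⟩
  · refine WEq.glue (c := c) ?_ ?_ (tota2_FCo Ω _) hcv hac hcb
    · refine h.eq.congr (fun _ _ => rfl) fun t ht => ?_
      rw [if_pos ht.2]
    · refine h'.eq.congr (fun _ _ => rfl) fun t ht => ?_
      by_cases htc : t ≤ c
      · rw [if_pos htc, le_antisymm htc ht.1, hc]
      · rw [if_neg htc]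

/-- Continue a total flow, whose lifting is zero at the end, by a flow without lifting. -/
theorem Tot.append (h : Tot D Ω Γ c u₀ L v) (hc0 : 0 < c) (hcT : c ≤ T) (hL : L c = fun _ => 0)
    (h' : Fl0 D Ω v' c T) (hc : v c = v' c) :
    Tot D Ω Γ T u₀ (fun t => if t ≤ c then L t else fun _ => 0) (fun t => if t ≤ c then v t else v' t) := by
  have hcv : ContinuousOn (fun t => if t ≤ c then v t else v' t) (Ioc 0 T) :=
    tota2_if (h.cv.mono fun t ht => ⟨ht.1.1, ht.2⟩) (h'.cv.mono fun t ht => ⟨ht.2, ht.1.2⟩) hc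
  have hco : FCo Ω (fun t => if t ≤ c then L t else fun _ => 0) (Ioc 0 T) :=
    ⟨tota2_co (fo Ω) h.co.o hL, tota2_co (fx Ω) h.co.x hL, tota2_co (fy Ω) h.co.y hL,
      tota2_co (fw Ω) h.co.w hL, tota2_co (f4 Ω) h.co.f hL⟩
  have hev : ∀ᶠ t in 𝓝[>] (0 : ℝ), t ≤ c :=
    mem_nhdsWithin_of_mem_nhds (Iic_mem_nhds hc0)
  have hun : Ioc 0 c ∪ Ioc c T = Ioc 0 T := Ioc_union_Ioc_eq_Ioc hc0.le hcT
  have hW2 : WEq D Ω (fun t => if t ≤ c then L t else fun _ => 0)
      (fun t => if t ≤ c then v t else v' t) c T := by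
    refine h'.eq.congr (fun t ht => ?_) fun t ht => ?_
    · by_cases htc : t ≤ c
      · rw [if_pos htc, le_antisymm htc ht.1, hL]
      · rw [if_neg htc]
    · by_cases htc : t ≤ c
      · rw [if_pos htc, le_antisymm htc ht.1, hc]
      · rw [if_neg htc]
  refine ⟨?_, hco, ?_, ?_, hcv, ?_, ?_, ?_, ?_⟩
  · intro t ht
    by_cases htc : t ≤ c
    · simp only [if_pos htc]
      exact h.lf t ⟨ht.1, htc⟩
    · simp only [if_neg htc]
      exact tota2_LF Ω Γ
  · rw [← hun]
    refine IntegrableOn.union ?_ ?_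
    · refine h.li.congr_fun (fun t ht => ?_) measurableSet_Ioc
      simp only [if_pos ht.2]
    · have h0 : IntegrableOn (fun _ : ℝ => (0 : ℝ)) (Ioc c T) := integrableOn_zero
      refine h0.congr_fun (fun t ht => ?_) measurableSet_Ioc
      simp only [if_neg (not_le.2 ht.1), (f_zero Ω).2.1, (f_zero Ω).2.2.1]
      simp
  · refine h.l0.congr' ?_
    filter_upwards [hev] with t ht
    simp only [if_pos ht]
  · intro t ht
    by_cases htc : t ≤ c
    · simp only [if_pos htc]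
      exact h.rv t ⟨ht.1, htc⟩
    · simp only [if_neg htc]
      exact h'.rv t ⟨(not_le.1 htc).le, ht.2⟩
  · rw [← hun]
    refine IntegrableOn.union ?_ ?_
    · refine h.vi.congr_fun (fun t ht => ?_) measurableSet_Ioc
      simp only [if_pos ht.2]
    · have h0 : IntegrableOn (fun t => ‖v' t‖ ^ 2) (Ioc c T) :=
        ((h'.cv.norm.pow 2).integrableOn_Icc).mono_set Ioc_subset_Icc_self
      refine h0.congr_fun (fun t ht => ?_) measurableSet_Ioc
      simp only [if_neg (not_le.2 ht.1)]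
  · refine h.v0.congr' ?_
    filter_upwards [hev] with t ht
    simp only [if_pos ht]
  · intro a ha haT
    by_cases hac : a ≤ c
    · refine WEq.glue (c := c) ?_ hW2
        (tota2_mono hco fun t ht => ⟨ha.trans_le ht.1, ht.2⟩)
        (hcv.mono fun t ht => ⟨ha.trans_le ht.1, ht.2⟩) hac hcT
      refine (h.eq a ha hac).congr (fun t ht => ?_) fun t ht => ?_
      · rw [if_pos ht.2]
      · rw [if_pos ht.2]
    · exact hW2.mono (not_le.1 hac).le le_rfl

end

end Pool.Agent.Lib.MP_79abb3_an.PD
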